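import Mathlib

/-!
# MP_33f7bb_an, negative answer to Q1: merged library part G01

Concatenation of files of `Lib_MP_33f7bb_an` and `Lib_MP_33f7bb_d` (each in its own section), only to save build time.
-/

/-! ### from `Lib_MP_33f7bb_d.Defs` -/

section

/-!
# Common definitions for the negative answer to Q1 of MP_33f7bb_an

Plain simplicial sets (`SS`), subcomplexes (`Sub`), extension properties (`ExtP`, `Good`),
chains and homology over `ZMod 2`, simplicial `ZMod 2`-vector spaces (`SV`), singular simplicial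
sets, pointed simplicial sets and reduced linearisation, the spaces `WW` (model of `Q S^(j-1)`).
-/

open scoped TensorProduct

namespace MM

/-- monotone maps `[m] → [n]` -/
abbrev Mo (m n : ℕ) := Fin (m + 1) →o Fin (n + 1)

/-- the `i`-th coface `[n] → [n+1]` -/
def dlt {n : ℕ} (i : Fin (n + 2)) : Mo n (n + 1) := (Fin.succAboveOrderEmb i).toOrderHom

/-- the `i`-th codegeneracy `[n+1] → [n]` -/
def sgm {n : ℕ} (i : Fin (n + 1)) : Mo (n + 1) n := ⟨Fin.predAbove i, Fin.predAbove_right_monotone i⟩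

/-- the constant map `[m] → [n]` -/
def cst {m n : ℕ} (i : Fin (n + 1)) : Mo m n := ⟨fun _ => i, fun _ _ _ => le_rfl⟩

/-! ## Simplicial sets -/

/-- Simplicial sets. -/
structure SS where
  S : ℕ → Type
  act : ∀ {m n : ℕ}, Mo m n → S n → S m
  act_id : ∀ {n : ℕ} (x : S n), act OrderHom.id x = x
  act_comp : ∀ {l m n : ℕ} (f : Mo l m) (g : Mo m n) (x : S n), act f (act g x) = act (g.comp f) x

/-- Simplicial maps. -/
@[ext] structure Hom (A B : SS) where
  app : ∀ n, A.S n → B.S n
  nat : ∀ {m n : ℕ} (f : Mo m n) (x : A.S n), app m (A.act f x) = B.act f (app n x)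

/-- identity -/
def Hom.id (A : SS) : Hom A A := ⟨fun _ x => x, fun _ _ => rfl⟩

/-- composition `g ∘ f` -/
def Hom.comp {A B C : SS} (g : Hom B C) (f : Hom A B) : Hom A C :=
  ⟨fun n x => g.app n (f.app n x), fun h x => by rw [f.nat, g.nat]⟩

/-- product -/
abbrev SS.prod (A B : SS) : SS where
  S n := A.S n × B.S n
  act f x := (A.act f x.1, B.act f x.2)
  act_id x := by simp [A.act_id, B.act_id]
  act_comp f g x := by simp [A.act_comp, B.act_comp]

/-- projections and pairing -/
def Hom.fst (A B : SS) : Hom (A.prod B) A := ⟨fun _ x => x.1, fun _ _ => rfl⟩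
def Hom.snd (A B : SS) : Hom (A.prod B) B := ⟨fun _ x => x.2, fun _ _ => rfl⟩
def Hom.pair {P A B : SS} (f : Hom P A) (g : Hom P B) : Hom P (A.prod B) :=
  ⟨fun n x => (f.app n x, g.app n x), fun h x => by simp [f.nat, g.nat, SS.prod]⟩
def Hom.prodMap {A B C D : SS} (f : Hom A C) (g : Hom B D) : Hom (A.prod B) (C.prod D) :=
  ⟨fun n x => (f.app n x.1, g.app n x.2), fun h x => by simp [f.nat, g.nat, SS.prod]⟩

/-- the standard simplex `Δ^k` -/
abbrev Del (k : ℕ) : SS where
  S n := Mo n k
  act f x := x.comp f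
  act_id _ := rfl
  act_comp _ _ _ := rfl

/-- the point -/
abbrev PT : SS where
  S _ := Unit
  act _ x := x
  act_id _ := rfl
  act_comp _ _ _ := rfl

/-- the map `Δ^n → P` given by a simplex -/
def SS.yo {P : SS} {n : ℕ} (x : P.S n) : Hom (Del n) P :=
  ⟨fun _ f => P.act f x, fun f g => by rw [P.act_comp]⟩

/-- the simplex of dimension `n` all of whose vertices are `y` -/
def SS.deg (P : SS) (y : P.S 0) (n : ℕ) : P.S n := P.act (cst 0) y

/-! ## Subcomplexes -/

/-- Subcomplexes of a simplicial set. -/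
@[ext] structure Sub (P : SS) where
  car : ∀ n, Set (P.S n)
  closed : ∀ {m n : ℕ} (f : Mo m n) {x : P.S n}, x ∈ car n → P.act f x ∈ car m

namespace Sub

variable {P Q : SS}

instance : LE (Sub P) := ⟨fun A B => ∀ n, A.car n ⊆ B.car n⟩

theorem le_def {A B : Sub P} : A ≤ B ↔ ∀ n, A.car n ⊆ B.car n := Iff.rfl

instance : PartialOrder (Sub P) where
  le_refl _ _ := subset_rfl
  le_trans _ _ _ h h' n := (h n).trans (h' n)
  le_antisymm A B h h' := Sub.ext (funext fun n => Set.Subset.antisymm (h n) (h' n))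

instance : Top (Sub P) := ⟨⟨fun _ => Set.univ, fun _ _ _ => trivial⟩⟩
instance : Bot (Sub P) := ⟨⟨fun _ => ∅, fun _ _ h => h.elim⟩⟩
instance : Max (Sub P) := ⟨fun A B => ⟨fun n => A.car n ∪ B.car n, fun f _ h =>
  h.elim (fun h => Or.inl (A.closed f h)) (fun h => Or.inr (B.closed f h))⟩⟩
instance : Min (Sub P) := ⟨fun A B => ⟨fun n => A.car n ∩ B.car n, fun f _ h =>
  ⟨A.closed f h.1, B.closed f h.2⟩⟩⟩

@[simp] theorem mem_top {n : ℕ} (x : P.S n) : x ∈ (⊤ : Sub P).car n := trivial
@[simp] theorem mem_bot {n : ℕ} (x : P.S n) : ¬ x ∈ (⊥ : Sub P).car n := fun h => h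
@[simp] theorem mem_sup {A B : Sub P} {n : ℕ} {x : P.S n} :
    x ∈ (A ⊔ B).car n ↔ x ∈ A.car n ∨ x ∈ B.car n := Iff.rfl
@[simp] theorem mem_inf {A B : Sub P} {n : ℕ} {x : P.S n} :
    x ∈ (A ⊓ B).car n ↔ x ∈ A.car n ∧ x ∈ B.car n := Iff.rfl

theorem le_top' (A : Sub P) : A ≤ ⊤ := fun _ _ _ => trivial
theorem bot_le' (A : Sub P) : ⊥ ≤ A := fun _ _ h => h.elim
theorem le_sup_left' (A B : Sub P) : A ≤ A ⊔ B := fun _ _ h => Or.inl h
theorem le_sup_right' (A B : Sub P) : B ≤ A ⊔ B := fun _ _ h => Or.inr h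
theorem sup_le' {A B C : Sub P} (h : A ≤ C) (h' : B ≤ C) : A ⊔ B ≤ C :=
  fun n _ hx => hx.elim (fun h1 => h n h1) (fun h1 => h' n h1)

/-- union of a family -/
def iUn {ι : Type*} (A : ι → Sub P) : Sub P :=
  ⟨fun n => ⋃ i, (A i).car n, fun f x h => by
    obtain ⟨i, hi⟩ := Set.mem_iUnion.1 h
    exact Set.mem_iUnion.2 ⟨i, (A i).closed f hi⟩⟩

/-- the subcomplex generated by a set of simplices -/
def gen (T : ∀ n, Set (P.S n)) : Sub P :=
  ⟨fun m => {x | ∃ (n : ℕ) (f : Mo m n) (y : P.S n), y ∈ T n ∧ x = P.act f y}, by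
    rintro m n f x ⟨k, g, y, hy, rfl⟩
    exact ⟨k, g.comp f, y, hy, P.act_comp f g y⟩⟩

/-- the subcomplex of degeneracies of a vertex -/
def pt (p : P.S 0) : Sub P :=
  ⟨fun n => {x | x = P.deg p n}, by
    rintro m n f x rfl
    show P.act f (P.act (cst 0) p) = P.act (cst 0) p
    rw [P.act_comp]; rfl⟩

/-- preimage -/
def comap (f : Hom P Q) (A : Sub Q) : Sub P :=
  ⟨fun n => {x | f.app n x ∈ A.car n}, fun {m n} g x h => by
    show f.app m (P.act g x) ∈ A.car m
    rw [f.nat]; exact A.closed g h⟩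

/-- image -/
def map (f : Hom P Q) (A : Sub P) : Sub Q :=
  ⟨fun n => {y | ∃ x ∈ A.car n, f.app n x = y}, by
    rintro m n g y ⟨x, hx, rfl⟩
    exact ⟨P.act g x, A.closed g hx, f.nat g x⟩⟩

/-- a subcomplex as a simplicial set -/
abbrev ss (A : Sub P) : SS where
  S n := {x : P.S n // x ∈ A.car n}
  act f x := ⟨P.act f x.1, A.closed f x.2⟩
  act_id x := Subtype.ext (P.act_id x.1)
  act_comp f g x := Subtype.ext (P.act_comp f g x.1)

/-- inclusion of a subcomplex -/
def incl (A : Sub P) : Hom A.ss P := ⟨fun _ x => x.1, fun _ _ => rfl⟩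

/-- product of subcomplexes -/
def bx (K : Sub Q) (C : Sub P) : Sub (Q.prod P) :=
  ⟨fun n => {x | x.1 ∈ K.car n ∧ x.2 ∈ C.car n}, fun f _ h => ⟨K.closed f h.1, C.closed f h.2⟩⟩

/-- `K' × C ∪ K × A` (for `K' ≤ K`, `A ≤ C`) -/
def box (K' K : Sub Q) (A C : Sub P) : Sub (Q.prod P) :=
  ⟨fun n => {x | (x.1 ∈ K.car n ∧ x.2 ∈ C.car n) ∧ (x.1 ∈ K'.car n ∨ x.2 ∈ A.car n)},
    fun f _ h => ⟨⟨K.closed f h.1.1, C.closed f h.1.2⟩,
      h.2.elim (fun h => Or.inl (K'.closed f h)) (fun h => Or.inr (A.closed f h))⟩⟩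

@[simp] theorem mem_bx {K : Sub Q} {C : Sub P} {n : ℕ} {x : (Q.prod P).S n} :
    x ∈ (bx K C).car n ↔ x.1 ∈ K.car n ∧ x.2 ∈ C.car n := Iff.rfl
@[simp] theorem mem_box {K' K : Sub Q} {A C : Sub P} {n : ℕ} {x : (Q.prod P).S n} :
    x ∈ (box K' K A C).car n ↔
      (x.1 ∈ K.car n ∧ x.2 ∈ C.car n) ∧ (x.1 ∈ K'.car n ∨ x.2 ∈ A.car n) := Iff.rfl

end Sub

/-- boundary of the simplex -/
def bd (k : ℕ) : Sub (Del k) :=
  ⟨fun n => {x | ¬ Function.Surjective (x : Mo n k)}, fun {m n} f x h hs => h fun y => by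
    obtain ⟨z, hz⟩ := hs y
    exact ⟨f z, hz⟩⟩

/-- the horn `Λ^k_i`: faces containing the vertex `i` -/
def horn (k : ℕ) (i : Fin (k + 1)) : Sub (Del k) :=
  ⟨fun n => {x | ∃ j, j ≠ i ∧ ∀ t, (x : Mo n k) t ≠ j}, fun {m n} f x h => by
    obtain ⟨j, hj, h⟩ := h
    exact ⟨j, hj, fun t => h (f t)⟩⟩

/-! ## Extension properties -/

/-- total functions (not necessarily simplicial) -/
abbrev Fn (P Y : SS) := ∀ n, P.S n → Y.S n

/-- `f` is simplicial on the subcomplex `A` -/
def NatOn {P Y : SS} (A : Sub P) (f : Fn P Y) : Prop :=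
  ∀ {m n : ℕ} (g : Mo m n) (x : P.S n), x ∈ A.car n → f m (P.act g x) = Y.act g (f n x)

/-- every simplicial map `A → Y` extends to `C` -/
def ExtP (Y : SS) {P : SS} (A C : Sub P) : Prop :=
  ∀ f : Fn P Y, NatOn A f → ∃ g : Fn P Y, NatOn C g ∧ ∀ n, ∀ x ∈ A.car n, g n x = f n x

/-- `Y^C → Y^A` has the right lifting property against all `∂Δ^k → Δ^k` -/
def Good (Y : SS) {P : SS} (A C : Sub P) : Prop :=
  ∀ k, ExtP Y (Sub.box (bd k) ⊤ A C) (Sub.bx (⊤ : Sub (Del k)) C)

/-- the map `f` on `A` is homotopic to a constant map -/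
def NullOn {P Y : SS} (A : Sub P) (f : Fn P Y) : Prop :=
  ∃ (H : Fn ((Del 1).prod P) Y) (y : Y.S 0), NatOn (Sub.bx ⊤ A) H ∧
    (∀ n, ∀ x ∈ A.car n, H n (cst 0, x) = f n x) ∧
    ∀ n, ∀ x ∈ A.car n, H n (cst 1, x) = Y.deg y n

/-- homotopic to a constant map -/
def Null {P Y : SS} (f : Hom P Y) : Prop := NullOn ⊤ f.app

/-! ## Chains and homology over `ZMod 2` -/

/-- chains -/
abbrev Ch (P : SS) (n : ℕ) := P.S n →₀ ZMod 2

/-- the boundary -/
noncomputable def dif {P : SS} {n : ℕ} (z : Ch P (n + 1)) : Ch P n :=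
  ∑ i : Fin (n + 2), Finsupp.mapDomain (P.act (dlt i)) z

/-- chains supported in `A` -/
def SuppIn {P : SS} (A : Sub P) {n : ℕ} (z : Ch P n) : Prop := ∀ x ∈ z.support, x ∈ A.car n

/-- `z` is a relative cycle mod `A` -/
def RelCyc {P : SS} (A : Sub P) : ∀ {n : ℕ}, Ch P n → Prop
  | 0, _ => True
  | _ + 1, z => SuppIn A (dif z)

/-- the pair `(C, A)` is acyclic over `ZMod 2` (to be used with `A ≤ C`) -/
def Acyc {P : SS} (A C : Sub P) : Prop :=
  ∀ (n : ℕ) (z : Ch P n), SuppIn C z → RelCyc A z →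
    ∃ w : Ch P (n + 1), SuppIn C w ∧ SuppIn A (z + dif w)

/-! ## Simplicial vector spaces over `ZMod 2` -/

/-- Simplicial `ZMod 2`-vector spaces. -/
structure SV where
  V : ℕ → Type
  [grp : ∀ n, AddCommGroup (V n)]
  [mod : ∀ n, Module (ZMod 2) (V n)]
  act : ∀ {m n : ℕ}, Mo m n → (V n →ₗ[ZMod 2] V m)
  act_id : ∀ {n : ℕ} (x : V n), act OrderHom.id x = x
  act_comp : ∀ {l m n : ℕ} (f : Mo l m) (g : Mo m n) (x : V n), act f (act g x) = act (g.comp f) x

attribute [instance] SV.grp SV.mod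

/-- linear simplicial maps -/
@[ext] structure SVHom (A B : SV) where
  app : ∀ n, A.V n →ₗ[ZMod 2] B.V n
  nat : ∀ {m n : ℕ} (f : Mo m n) (x : A.V n), app m (A.act f x) = B.act f (app n x)

theorem SV.act_idL (A : SV) (n : ℕ) : A.act (OrderHom.id : Mo n n) = LinearMap.id :=
  LinearMap.ext fun x => A.act_id x

theorem SV.act_compL (A : SV) {l m n : ℕ} (f : Mo l m) (g : Mo m n) :
    A.act (g.comp f) = (A.act f).comp (A.act g) :=
  LinearMap.ext fun x => (A.act_comp f g x).symm

def SVHom.id (A : SV) : SVHom A A := ⟨fun _ => LinearMap.id, fun _ _ => rfl⟩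
def SVHom.comp {A B C : SV} (g : SVHom B C) (f : SVHom A B) : SVHom A C :=
  ⟨fun n => (g.app n).comp (f.app n), fun h x => by
    simp only [LinearMap.comp_apply]; rw [f.nat, g.nat]⟩

namespace SV

/-- underlying simplicial set -/
abbrev ss (W : SV) : SS := ⟨W.V, fun f x => W.act f x, fun x => W.act_id x, fun f g x => W.act_comp f g x⟩

/-- the differential (sum of all faces) -/
noncomputable def d (W : SV) (n : ℕ) : W.V (n + 1) →ₗ[ZMod 2] W.V n :=
  ∑ i : Fin (n + 2), W.act (dlt i)

/-- cycles -/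
noncomputable def Z (W : SV) : ∀ n, Submodule (ZMod 2) (W.V n)
  | 0 => ⊤
  | n + 1 => LinearMap.ker (W.d n)

/-- boundaries -/
noncomputable def B (W : SV) (n : ℕ) : Submodule (ZMod 2) (W.V n) := LinearMap.range (W.d n)

/-- homology -/
noncomputable abbrev H (W : SV) (n : ℕ) := (W.Z n) ⧸ (Submodule.comap (W.Z n).subtype (W.B n))

/-- the class of a cycle -/
noncomputable def cls (W : SV) {n : ℕ} (z : W.V n) (hz : z ∈ W.Z n) : W.H n :=
  Submodule.Quotient.mk ⟨z, hz⟩

/-- all faces vanish -/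
def Moore (W : SV) {n : ℕ} (z : W.V n) : Prop :=
  ∀ (m : ℕ) (f : Mo m n), ¬ Function.Surjective f → W.act f z = 0

/-- every cycle is a boundary -/
def Acyclic (W : SV) : Prop := ∀ n, ∀ z ∈ W.Z n, z ∈ W.B n

/-- levelwise tensor product -/
noncomputable abbrev tens (P Q : SV) : SV where
  V n := P.V n ⊗[ZMod 2] Q.V n
  act f := TensorProduct.map (P.act f) (Q.act f)
  act_id x := by
    rw [P.act_idL, Q.act_idL, TensorProduct.map_id]; rfl
  act_comp f g x := by
    rw [P.act_compL, Q.act_compL, TensorProduct.map_comp]; rfl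

/-- direct sum of two -/
abbrev prd (P Q : SV) : SV where
  V n := P.V n × Q.V n
  act f := (P.act f).prodMap (Q.act f)
  act_id x := by simp [P.act_id, Q.act_id]
  act_comp f g x := by simp [P.act_comp, Q.act_comp]

end SV

/-- free simplicial vector space -/
noncomputable abbrev lin (P : SS) : SV where
  V n := Ch P n
  act f := Finsupp.lmapDomain (ZMod 2) (ZMod 2) (P.act f)
  act_id {n} x := by
    have : P.act (OrderHom.id : Mo n n) = _root_.id := funext fun x => P.act_id x
    simp only [Finsupp.lmapDomain_apply, this]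
    exact Finsupp.mapDomain_id
  act_comp f g x := by
    have : P.act (g.comp f) = P.act f ∘ P.act g := funext fun x => (P.act_comp f g x).symm
    simp only [Finsupp.lmapDomain_apply, this]
    exact Finsupp.mapDomain_comp.symm

/-- linear extension of a simplicial map into a simplicial vector space -/
noncomputable def linExt {P : SS} {W : SV} (f : Fn P W.ss) (n : ℕ) : Ch P n →ₗ[ZMod 2] W.V n :=
  Finsupp.linearCombination (ZMod 2) (f n)

/-- sub simplicial vector spaces -/
structure SubV (W : SV) where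
  car : ∀ n, Submodule (ZMod 2) (W.V n)
  closed : ∀ {m n : ℕ} (f : Mo m n) {x : W.V n}, x ∈ car n → W.act f x ∈ car m

namespace SubV

variable {W : SV}

/-- as a simplicial vector space -/
abbrev sv (C : SubV W) : SV where
  V n := C.car n
  act f := (W.act f).restrict (fun _ hx => C.closed f hx)
  act_id x := Subtype.ext (W.act_id x.1)
  act_comp f g x := Subtype.ext (W.act_comp f g x.1)

/-- the inclusion -/
def incl (C : SubV W) : SVHom C.sv W := ⟨fun n => (C.car n).subtype, fun _ _ => rfl⟩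

/-- the quotient -/
abbrev quo (C : SubV W) : SV where
  V n := W.V n ⧸ C.car n
  act f := Submodule.mapQ _ _ (W.act f) (fun _ hx => C.closed f hx)
  act_id x := by
    obtain ⟨x, rfl⟩ := Submodule.Quotient.mk_surjective _ x
    simp [Submodule.mapQ_apply, W.act_id]
  act_comp f g x := by
    obtain ⟨x, rfl⟩ := Submodule.Quotient.mk_surjective _ x
    simp [Submodule.mapQ_apply, W.act_comp]

/-- the projection -/
def proj (C : SubV W) : SVHom W C.quo := ⟨fun n => (C.car n).mkQ, fun _ _ => rfl⟩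

end SubV

/-- chains supported in a subcomplex -/
noncomputable def linSub {P : SS} (A : Sub P) : SubV (lin P) where
  car n := Finsupp.supported (ZMod 2) (ZMod 2) (A.car n)
  closed {m n} f x hx := by
    classical
    rw [Finsupp.mem_supported] at hx ⊢
    intro y hy
    have := Finsupp.mapDomain_support hy
    obtain ⟨z, hz, rfl⟩ := Finset.mem_image.1 this
    exact A.closed f (hx hz)

/-! ## Pointed simplicial sets and reduced linearisation -/

/-- the base simplices as zero: reduced linearisation `R Z` of a pointed simplicial set,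
realised as chains mod chains on the base point -/
noncomputable abbrev R (Z : SS) (z₀ : Z.S 0) : SV := (linSub (Sub.pt z₀)).quo

/-- `x ↦ [x]` -/
noncomputable def R.of {Z : SS} (z₀ : Z.S 0) : Hom Z (R Z z₀).ss :=
  ⟨fun n x => (linSub (Sub.pt z₀)).proj.app n (Finsupp.single x 1), fun {m n} f x => by
    show _ = (R Z z₀).act f _
    show _ = (linSub (Sub.pt z₀)).quo.act f _
    rw [← (linSub (Sub.pt z₀)).proj.nat]
    congr 1
    show _ = Finsupp.mapDomain (Z.act f) _
    rw [Finsupp.mapDomain_single]⟩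

/-! ## Singular simplicial sets -/

/-- the topological simplex -/
abbrev Dtop (n : ℕ) := stdSimplex ℝ (Fin (n + 1))

/-- the affine map induced by a monotone map -/
noncomputable def tmap {m n : ℕ} (f : Mo m n) : C(Dtop m, Dtop n) :=
  ⟨stdSimplex.map f, stdSimplex.continuous_map f⟩

theorem tmap_id {n : ℕ} (t : Dtop n) : tmap (OrderHom.id : Mo n n) t = t := by
  show stdSimplex.map _ t = t
  exact stdSimplex.map_id_apply t

theorem tmap_comp {l m n : ℕ} (f : Mo l m) (g : Mo m n) (t : Dtop l) :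
    tmap g (tmap f t) = tmap (g.comp f) t := by
  show stdSimplex.map _ (stdSimplex.map _ t) = stdSimplex.map _ t
  rw [stdSimplex.map_comp_apply]; rfl

/-- the singular simplicial set -/
noncomputable abbrev Sing (X : Type) [TopologicalSpace X] : SS where
  S n := C(Dtop n, X)
  act f σ := σ.comp (tmap f)
  act_id σ := by ext t; simp [tmap_id]
  act_comp f g σ := by ext t; simp [tmap_comp]

/-- functoriality -/
noncomputable def Sing.map {X X' : Type} [TopologicalSpace X] [TopologicalSpace X']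
    (f : C(X, X')) : Hom (Sing X) (Sing X') := ⟨fun _ σ => f.comp σ, fun _ _ => rfl⟩

/-- singular simplices in a subset -/
def SingIn {X : Type} [TopologicalSpace X] (A : Set X) : Sub (Sing X) :=
  ⟨fun n => {σ : C(Dtop n, X) | ∀ t, σ t ∈ A}, fun f _ h t => h (tmap f t)⟩

/-! ## The classifying space of `ZMod 2` and targets -/

/-- `K(ZMod 2, 1)` as a simplicial vector space: functions on the vertices vanishing at `0` -/
abbrev K1 : SV where
  V n := {f : Fin (n + 1) → ZMod 2 // f ∈ LinearMap.ker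
    (LinearMap.proj (R := ZMod 2) (φ := fun _ : Fin (n + 1) => ZMod 2) 0)}
  act {m n} g :=
    { toFun := fun f => ⟨fun i => f.1 (g i) - f.1 (g 0), by simp⟩
      map_add' := fun x y => Subtype.ext (funext fun i => by
        show x.1 _ + y.1 _ - (x.1 _ + y.1 _) = x.1 _ - x.1 _ + (y.1 _ - y.1 _); ring)
      map_smul' := fun c x => Subtype.ext (funext fun i => by
        show c * x.1 _ - c * x.1 _ = c * (x.1 _ - x.1 _); ring) }
  act_id x := by
    apply Subtype.ext; funext i
    have := x.2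
    simp only [LinearMap.mem_ker, LinearMap.proj_apply] at this
    show x.1 i - x.1 0 = x.1 i
    rw [this, sub_zero]
  act_comp f g x := by
    apply Subtype.ext; funext i
    show (x.1 _ - x.1 _) - (x.1 _ - x.1 _) = x.1 _ - x.1 _
    simp [OrderHom.comp]

/-- `B(ZMod 2)` -/
abbrev BZ2 : SS := K1.ss

/-- targets: (Y2), (Y3), (Y4) -/
structure IsTarget (Y : SS) [∀ n, TopologicalSpace (Y.S n)] : Prop where
  compact : ∀ n, CompactSpace (Y.S n)
  t2 : ∀ n, T2Space (Y.S n)
  nonempty : Nonempty (Y.S 0)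
  cont : ∀ {m n : ℕ} (f : Mo m n), Continuous (Y.act f)
  ext : ∀ (P : SS) (A C : Sub P), A ≤ C → Acyc A C → ExtP Y A C
  null : Good Y (Sub.pt (P := BZ2) (0 : K1.V 0)) ⊤

/-! ## The model of `Q S^(j-1)` -/

/-- the base vector -/
def e0 (j : ℕ) : Fin j → ℝ := fun i => if (i : ℕ) = 0 then 1 else 0

/-- conditions on the simplices of `WW`: coordinates in `T` -/
structure IsWW (j : ℕ) (T : Set ℕ) {m : ℕ}
    (g : Dtop m × (ℕ → ℝ) → (Fin j → ℝ) × (ℕ → ℝ)) : Prop where
  cont : Continuous g
  fin : ∃ S : Finset ℕ, (S : Set ℕ) ⊆ T ∧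
    (∀ t x y, (∀ i ∈ S, x i = y i) → g (t, x) = g (t, y)) ∧
    ∀ t x, ∀ i ∉ S, (g (t, x)).2 i = 0
  bdd : ∃ C : ℝ, ∀ t x, (∀ i, |(g (t, x)).1 i| ≤ C) ∧ ∀ i, |(g (t, x)).2 i| ≤ C
  ne : ∀ t x, ¬ (e0 j + (g (t, x)).1 = 0 ∧ x + (g (t, x)).2 = 0)

/-- the simplicial set `WW j` (all coordinates) -/
noncomputable abbrev WW (j : ℕ) : SS where
  S m := {g : Dtop m × (ℕ → ℝ) → (Fin j → ℝ) × (ℕ → ℝ) // IsWW j Set.univ g}
  act {m n} f g := ⟨fun p => g.1 (tmap f p.1, p.2), by
    refine ⟨g.2.cont.comp (((tmap f).continuous.comp continuous_fst).prodMk continuous_snd), ?_, ?_, ?_⟩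
    · obtain ⟨S, hS, h1, h2⟩ := g.2.fin
      exact ⟨S, hS, fun t x y h => h1 _ _ _ h, fun t x i hi => h2 _ _ i hi⟩
    · obtain ⟨C, hC⟩ := g.2.bdd
      exact ⟨C, fun t x => hC _ _⟩
    · exact fun t x => g.2.ne _ _⟩
  act_id g := by apply Subtype.ext; funext p; simp [tmap_id]
  act_comp f g x := by apply Subtype.ext; funext p; simp [tmap_comp]

/-- the subcomplex of `WW j` with coordinates in `T` -/
def WWT (j : ℕ) (T : Set ℕ) : Sub (WW j) :=
  ⟨fun _ => {g | IsWW j T g.1}, fun {m n} f g h => by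
    refine ⟨((WW j).act f g).2.cont, ?_, ((WW j).act f g).2.bdd, ((WW j).act f g).2.ne⟩
    obtain ⟨S, hS, h1, h2⟩ := h.fin
    exact ⟨S, hS, fun t x y h => h1 _ _ _ h, fun t x i hi => h2 _ _ i hi⟩⟩

/-- the zero simplices of `WW` (base point) -/
def WW0 (j : ℕ) (hj : 1 ≤ j) : (WW j).S 0 := ⟨fun _ => 0, by
  refine ⟨continuous_const, ⟨∅, by simp, fun _ _ _ _ => rfl, fun _ _ _ _ => rfl⟩,
    ⟨0, fun _ _ => ⟨fun i => by simp, fun i => by simp⟩⟩, ?_⟩
  rintro t x ⟨h, -⟩
  have := congrFun h ⟨0, hj⟩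
  simp [e0] at this⟩

/-! ## Spheres, tasks -/

/-- the sphere `S^N` (sup norm is not used: Euclidean) -/
abbrev Sph (N : ℕ) := Metric.sphere (0 : EuclideanSpace ℝ (Fin (N + 1))) 1

/-- a task with trivial boundary on `X` -/
structure IsTask {X : Type} [TopologicalSpace X] (j k : ℕ) (A : Set X)
    (φ : X × (Fin k → ℝ) → (Fin j → ℝ) × (Fin k → ℝ)) : Prop where
  closed : IsClosed A
  cont : Continuous φ
  triv : ∀ x t, 1 ≤ ‖t‖ → φ (x, t) = (e0 j, t)
  ne : ∀ x ∈ A, ∀ t, φ (x, t) ≠ 0

/-- the task is solved on `p : X' → X` -/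
def Solved {X X' : Type} [TopologicalSpace X] [TopologicalSpace X'] (p : X' → X) {j k : ℕ}
    (A : Set X) (φ : X × (Fin k → ℝ) → (Fin j → ℝ) × (Fin k → ℝ)) : Prop :=
  ∃ (l : ℕ) (Φ : X' × (Fin k → ℝ) × (Fin l → ℝ) → (Fin j → ℝ) × (Fin k → ℝ) × (Fin l → ℝ)),
    Continuous Φ ∧ (∀ p, Φ p ≠ 0) ∧
    (∃ C : ℝ, ∀ x t s, ‖Φ (x, t, s) - (e0 j, t, s)‖ ≤ C) ∧
    ∀ x t s, p x ∈ A → Φ (x, t, s) = ((φ (p x, t)).1, (φ (p x, t)).2, s)

end MM

end

/-! ### from `Lib_MP_33f7bb_d.A0Basic` -/

section

/-!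
# A0 Basic: shared notions of the toolkit (definitions and trivial lemmas, complete)
-/

open scoped TensorProduct

namespace MM

noncomputable instance instFintypeMo (m n : ℕ) : Fintype (Mo m n) :=
  Fintype.ofInjective (fun f => (f : Fin (m + 1) → Fin (n + 1))) DFunLike.coe_injective

noncomputable instance instDecEqMo (m n : ℕ) : DecidableEq (Mo m n) := Classical.decEq _

/-- the relative homology of `(C, A)` is generated by the relative cycle `e` of degree `n + 1`
(and vanishes in all other degrees) -/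
def GenBy {P : SS} (A C : Sub P) {n : ℕ} (e : Ch P (n + 1)) : Prop :=
  SuppIn C e ∧ SuppIn A (dif e) ∧
  (∀ z : Ch P (n + 1), SuppIn C z → SuppIn A (dif z) →
    ∃ w : Ch P (n + 2), SuppIn C w ∧ (SuppIn A (z + dif w) ∨ SuppIn A (z + dif w + e))) ∧
  ∀ m, m ≠ n + 1 → ∀ z : Ch P m, SuppIn C z → RelCyc A z →
    ∃ w : Ch P (m + 1), SuppIn C w ∧ SuppIn A (z + dif w)

/-- linear homotopies: families of linear maps indexed by the simplices of `Δ^1` -/
structure LHpy (P Q : SV) where
  app : ∀ n, Mo n 1 → (P.V n →ₗ[ZMod 2] Q.V n)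
  nat : ∀ {m n : ℕ} (f : Mo m n) (a : Mo n 1) (x : P.V n),
    app m (a.comp f) (P.act f x) = Q.act f (app n a x)

/-- linear homotopy between two maps -/
def LHtp {P Q : SV} (f g : SVHom P Q) : Prop :=
  ∃ H : LHpy P Q, (∀ n x, H.app n (cst 0) x = f.app n x) ∧ ∀ n x, H.app n (cst 1) x = g.app n x

/-- homotopy between two simplicial maps -/
def Htp {P Y : SS} (f g : Hom P Y) : Prop :=
  ∃ H : Hom ((Del 1).prod P) Y, (∀ n x, H.app n (cst 0, x) = f.app n x) ∧
    ∀ n x, H.app n (cst 1, x) = g.app n x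

/-- the normalised part: faces `δ_i`, `i ≥ 1`, vanish -/
def SV.NM (W : SV) : ∀ n, Submodule (ZMod 2) (W.V n)
  | 0 => ⊤
  | n + 1 => ⨅ i : Fin (n + 1), LinearMap.ker (W.act (dlt i.succ))

/-- cross product (shuffle product): `n` is the target degree, zero unless `p + q = n` -/
noncomputable def crs {P Q : SV} {p q : ℕ} (n : ℕ) (x : P.V p) (y : Q.V q) : (P.tens Q).V n :=
  by
    classical
    exact ∑ a : Mo n p, ∑ b : Mo n q,
      if (p + q = n ∧ ∀ i, ((a i : ℕ) + (b i : ℕ) = (i : ℕ))) then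
        (P.act a x) ⊗ₜ[ZMod 2] (Q.act b y) else 0

/-- the chain of all maximal chains of `[s] × [k]`, zero unless `s + k = n` -/
noncomputable def prismCh (s k n : ℕ) : Ch ((Del s).prod (Del k)) n := by
  classical
  exact ∑ a : Mo n s, ∑ b : Mo n k,
    if (s + k = n ∧ ∀ i, ((a i : ℕ) + (b i : ℕ) = (i : ℕ))) then Finsupp.single (a, b) 1 else 0

/-- cross product of chains of simplicial sets -/
noncomputable def crsCh {P Q : SS} {p q : ℕ} (n : ℕ) (x : Ch P p) (y : Ch Q q) :
    Ch (P.prod Q) n := by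
  classical
  exact ∑ a : Mo n p, ∑ b : Mo n q,
    if (p + q = n ∧ ∀ i, ((a i : ℕ) + (b i : ℕ) = (i : ℕ))) then
      (x.mapDomain (P.act a)).sum fun u c => (y.mapDomain (Q.act b)).sum fun v c' =>
        Finsupp.single (u, v) (c * c') else 0

/-- direct sums of simplicial vector spaces -/
noncomputable abbrev dsum {ι : Type} (P : ι → SV) : SV where
  V n := Π₀ i, (P i).V n
  act f := DFinsupp.mapRange.linearMap (fun i => (P i).act f)
  act_id x := by
    ext i; simp [(P i).act_id]
  act_comp f g x := by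
    ext i; simp [(P i).act_comp]

/-- the constant (discrete) simplicial vector space -/
abbrev cstV (M : Type) [AddCommGroup M] [Module (ZMod 2) M] : SV where
  V _ := M
  act _ := LinearMap.id
  act_id _ := rfl
  act_comp _ _ _ := rfl

/-- `K'(n) = F[Δ^n] / F[∂Δ^n]` -/
noncomputable abbrev KK (n : ℕ) : SV := (linSub (bd n)).quo

/-- its fundamental class -/
noncomputable def KK.iota (n : ℕ) : (KK n).V n :=
  (linSub (bd n)).proj.app n (Finsupp.single (OrderHom.id : Mo n n) 1)

@[simp] theorem cst_comp {l m n : ℕ} (i : Fin (n + 1)) (f : Mo l m) :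
    (cst i : Mo m n).comp f = cst i := rfl

theorem comp_cst {l m n : ℕ} (f : Mo m n) (i : Fin (m + 1)) :
    f.comp (cst i : Mo l m) = cst (f i) := rfl

theorem two_eq_zero' {M : Type*} [AddCommGroup M] [Module (ZMod 2) M] (x : M) : x + x = 0 := by
  have : (2 : ZMod 2) • x = 0 := by
    have h : (2 : ZMod 2) = 0 := rfl
    rw [h, zero_smul]
  rwa [two_smul] at this

theorem neg_eq' {M : Type*} [AddCommGroup M] [Module (ZMod 2) M] (x : M) : -x = x :=
  neg_eq_of_add_eq_zero_left (two_eq_zero' x)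

theorem sub_eq' {M : Type*} [AddCommGroup M] [Module (ZMod 2) M] (x y : M) : x - y = x + y := by
  rw [sub_eq_add_neg, neg_eq']

theorem SuppIn.zero {P : SS} (A : Sub P) {n : ℕ} : SuppIn A (0 : Ch P n) := by
  intro x hx; simp at hx

theorem suppIn_iff {P : SS} (A : Sub P) {n : ℕ} (z : Ch P n) :
    SuppIn A z ↔ z ∈ (linSub A).car n := Iff.rfl

theorem SuppIn.add {P : SS} {A : Sub P} {n : ℕ} {z w : Ch P n} (hz : SuppIn A z)
    (hw : SuppIn A w) : SuppIn A (z + w) :=
  ((linSub A).car n).add_mem (x := z) hz hw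

theorem SuppIn.single {P : SS} {A : Sub P} {n : ℕ} {x : P.S n} (hx : x ∈ A.car n) (c : ZMod 2) :
    SuppIn A (Finsupp.single x c : Ch P n) := by
  intro y hy
  have := Finsupp.support_single_subset hy
  rw [Finset.mem_singleton] at this
  exact this ▸ hx

theorem SuppIn.mono {P : SS} {A B : Sub P} (h : A ≤ B) {n : ℕ} {z : Ch P n} (hz : SuppIn A z) :
    SuppIn B z := fun x hx => h n (hz x hx)

theorem SuppIn.top {P : SS} {n : ℕ} (z : Ch P n) : SuppIn (⊤ : Sub P) z := fun _ _ => trivial

theorem lin_d {P : SS} {n : ℕ} (z : Ch P (n + 1)) : (lin P).d n z = dif z := by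
  simp [SV.d, dif, LinearMap.sum_apply]

@[simp] theorem dif_add {P : SS} {n : ℕ} (z w : Ch P (n + 1)) : dif (z + w) = dif z + dif w := by
  rw [← lin_d, ← lin_d, ← lin_d]; exact map_add _ z w

@[simp] theorem dif_zero {P : SS} {n : ℕ} : dif (0 : Ch P (n + 1)) = 0 := by
  rw [← lin_d]; exact map_zero _

theorem SuppIn.dif {P : SS} {A : Sub P} {n : ℕ} {z : Ch P (n + 1)} (hz : SuppIn A z) :
    SuppIn A (dif z) := by
  rw [suppIn_iff] at hz ⊢
  rw [MM.dif]
  exact Submodule.sum_mem _ fun i _ => (linSub A).closed (dlt i) hz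

theorem linExt_apply {P : SS} {W : SV} (f : Fn P W.ss) (n : ℕ) (z : Ch P n) :
    linExt f n z = z.sum fun x c => c • f n x := rfl

@[simp] theorem linExt_single {P : SS} {W : SV} (f : Fn P W.ss) (n : ℕ) (x : P.S n) (c : ZMod 2) :
    linExt f n (Finsupp.single x c) = c • (f n x : W.V n) := by
  simp [linExt]

theorem linExt_congr {P : SS} {W : SV} {f g : Fn P W.ss} {A : Sub P} {n : ℕ}
    (h : ∀ x ∈ A.car n, f n x = g n x) {z : Ch P n} (hz : SuppIn A z) :
    linExt f n z = linExt g n z := by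
  rw [linExt_apply, linExt_apply]
  exact Finset.sum_congr rfl fun x hx => by
    show z x • f n x = z x • g n x
    rw [h x (hz x hx)]

/-- composition of cycles with simplicial maps: `linExt` commutes with the structure maps -/
theorem linExt_act {P : SS} {W : SV} {f : Fn P W.ss} {A : Sub P} (hf : NatOn A f) {m n : ℕ}
    (g : Mo m n) {z : Ch P n} (hz : SuppIn A z) :
    linExt f m (z.mapDomain (P.act g)) = W.act g (linExt f n z) := by
  rw [linExt_apply, linExt_apply, Finsupp.sum_mapDomain_index (by simp)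
    (by intros; rw [add_smul]), map_finsuppSum]
  exact Finset.sum_congr rfl fun x hx => by
    show z x • f m (P.act g x) = W.act g (z x • f n x)
    rw [map_smul]; congr 1; exact hf g x (hz x hx)

theorem linExt_dif {P : SS} {W : SV} {f : Fn P W.ss} {A : Sub P} (hf : NatOn A f) {n : ℕ}
    {z : Ch P (n + 1)} (hz : SuppIn A z) :
    linExt f n (dif z) = W.d n (linExt f (n + 1) z) := by
  rw [dif, map_sum, SV.d, LinearMap.sum_apply]
  exact Finset.sum_congr rfl fun i _ => linExt_act hf (dlt i) hz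

end MM

end

/-! ### from `Lib_MP_33f7bb_d.A001` -/

section

/-!
# A0-01: simplicial identities, `d d = 0`, factorisations of monotone maps

All statements are the classical simplicial identities; they can be obtained from
`SimplexCategory.δ_comp_δ`, `δ_comp_σ_of_le`, ... (the underlying order homs) or by
`ext` and `Fin` case distinctions (`Fin.succAbove`, `Fin.predAbove`, `omega`).
`SV.d_d`: pair the terms `(i, j)`, `i ≤ j`, with `(j+1, i)` (signs do not matter); it also follows
from `AlgebraicTopology.AlternatingFaceMapComplex.d_squared` type computations.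
-/

namespace MM

theorem dlt_comp_dlt {n : ℕ} (i j : Fin (n + 2)) (h : i ≤ j) :
    (dlt j.succ).comp (dlt i : Mo n (n + 1)) = (dlt i.castSucc).comp (dlt j) := by
  exact congrArg SimplexCategory.Hom.toOrderHom (SimplexCategory.δ_comp_δ h)

theorem sgm_comp_dlt_castSucc {n : ℕ} (i : Fin (n + 1)) :
    (sgm i).comp (dlt i.castSucc) = (OrderHom.id : Mo n n) := by
  exact congrArg SimplexCategory.Hom.toOrderHom (SimplexCategory.δ_comp_σ_self (i := i))

theorem sgm_comp_dlt_succ {n : ℕ} (i : Fin (n + 1)) :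
    (sgm i).comp (dlt i.succ) = (OrderHom.id : Mo n n) := by
  exact congrArg SimplexCategory.Hom.toOrderHom (SimplexCategory.δ_comp_σ_succ (i := i))

theorem sgm_comp_dlt_of_le {n : ℕ} (i : Fin (n + 2)) (j : Fin (n + 1)) (h : i ≤ j.castSucc) :
    (sgm j.succ).comp (dlt i.castSucc) = (dlt i).comp (sgm j) := by
  exact congrArg SimplexCategory.Hom.toOrderHom (SimplexCategory.δ_comp_σ_of_le h)

theorem sgm_comp_dlt_of_gt {n : ℕ} (i : Fin (n + 2)) (j : Fin (n + 1)) (h : j.castSucc < i) :
    (sgm j.castSucc).comp (dlt i.succ) = (dlt i).comp (sgm j) := by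
  exact congrArg SimplexCategory.Hom.toOrderHom (SimplexCategory.δ_comp_σ_of_gt h)

theorem sgm_comp_sgm {n : ℕ} (i j : Fin (n + 1)) (h : i ≤ j) :
    (sgm j).comp (sgm i.castSucc) = (sgm i).comp (sgm j.succ) := by
  exact congrArg SimplexCategory.Hom.toOrderHom (SimplexCategory.σ_comp_σ h)

theorem SV.d_d (W : SV) {n : ℕ} (z : W.V (n + 2)) : W.d n (W.d (n + 1) z) = 0 := by
  have h0 : W.d n (W.d (n + 1) z) =
      ∑ p : Fin (n + 2) × Fin (n + 3), W.act ((dlt p.2).comp (dlt p.1 : Mo n (n + 1))) z := by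
    rw [Fintype.sum_prod_type]
    simp only [SV.d, LinearMap.sum_apply, map_sum, W.act_comp]
    exact Finset.sum_comm
  rw [h0]
  refine Finset.sum_involution
    (fun p _ => if h : p.1.castSucc < p.2 then
        (p.2.pred (Fin.ne_zero_of_lt h), p.1.castSucc)
      else (p.2.castPred (fun he => h (he ▸ Fin.castSucc_lt_last _)), p.1.succ)) ?_ ?_
    (fun _ _ => Finset.mem_univ _) ?_
  · rintro ⟨i, j⟩ -
    by_cases h : i.castSucc < j
    · simp only [dif_pos h]
      have h1 : i ≤ j.pred (Fin.ne_zero_of_lt h) := by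
        rw [Fin.le_def]
        rw [Fin.lt_def] at h
        simp only [Fin.val_castSucc, Fin.val_pred] at *
        omega
      have := dlt_comp_dlt _ _ h1
      rw [Fin.succ_pred] at this
      rw [this]
      exact two_eq_zero' _
    · simp only [dif_neg h]
      have h2 : j ≠ Fin.last (n + 2) := by
        rintro rfl
        exact h (Fin.castSucc_lt_last _)
      have h1 : j.castPred h2 ≤ i := by
        rw [Fin.le_def]
        rw [Fin.lt_def] at h
        simp only [Fin.val_castSucc, Fin.coe_castPred] at *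
        omega
      have := dlt_comp_dlt _ _ h1
      rw [Fin.castSucc_castPred] at this
      rw [← this]
      exact two_eq_zero' _
  · rintro ⟨i, j⟩ - -
    by_cases h : i.castSucc < j
    · simp only [dif_pos h]
      intro he
      have := congrArg Prod.snd he
      simp only at this
      exact absurd this (ne_of_lt h)
    · simp only [dif_neg h]
      intro he
      have := congrArg Prod.snd he
      simp only at this
      apply h
      rw [← this, Fin.lt_def]
      simp
  · rintro ⟨i, j⟩ -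
    by_cases h : i.castSucc < j
    · have h' : ¬ (j.pred (Fin.ne_zero_of_lt h)).castSucc < i.castSucc := by
        rw [Fin.lt_def] at h ⊢
        simp only [Fin.val_castSucc, Fin.val_pred] at *
        omega
      simp only [dif_pos h, dif_neg h']
      ext <;> simp
    · have h2 : j ≠ Fin.last (n + 2) := by
        rintro rfl
        exact h (Fin.castSucc_lt_last _)
      have h' : (j.castPred h2).castSucc < i.succ := by
        rw [Fin.lt_def] at h ⊢
        simp only [Fin.val_castSucc, Fin.coe_castPred, Fin.val_succ] at *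
        omega
      simp only [dif_neg h, dif_pos h']
      ext <;> simp

theorem dif_dif {P : SS} {n : ℕ} (z : Ch P (n + 2)) : dif (dif z) = 0 := by
  rw [← lin_d, ← lin_d]
  exact (lin P).d_d z

/-- every non surjective monotone map factors through a coface -/
theorem exists_dlt {m n : ℕ} (f : Mo m (n + 1)) (hf : ¬ Function.Surjective f) :
    ∃ (i : Fin (n + 2)) (g : Mo m n), f = (dlt i).comp g := by
  obtain ⟨i, g, h⟩ := SimplexCategory.eq_comp_δ_of_not_surjective
    (SimplexCategory.Hom.mk f : SimplexCategory.mk m ⟶ SimplexCategory.mk (n + 1)) hf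
  exact ⟨i, g.toOrderHom, congrArg SimplexCategory.Hom.toOrderHom h⟩

/-- every non injective monotone map factors through a codegeneracy -/
theorem exists_sgm {m n : ℕ} (f : Mo (m + 1) n) (hf : ¬ Function.Injective f) :
    ∃ (i : Fin (m + 1)) (g : Mo m n), f = g.comp (sgm i) := by
  obtain ⟨i, g, h⟩ := SimplexCategory.eq_σ_comp_of_not_injective
    (SimplexCategory.Hom.mk f : SimplexCategory.mk (m + 1) ⟶ SimplexCategory.mk n) hf
  exact ⟨i, g.toOrderHom, congrArg SimplexCategory.Hom.toOrderHom h⟩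

private theorem A001_sgm_surj {m : ℕ} (i : Fin (m + 1)) : Function.Surjective (sgm i) := by
  intro y
  refine ⟨dlt i.castSucc y, ?_⟩
  exact congrArg (fun f : Mo m m => f y) (sgm_comp_dlt_castSucc i)

/-- epi-mono factorisation -/
theorem exists_factor {m n : ℕ} (f : Mo m n) :
    ∃ (k : ℕ) (s : Mo m k) (i : Mo k n), Function.Surjective s ∧ Function.Injective i ∧
      f = i.comp s := by
  induction m with
  | zero =>
    refine ⟨0, OrderHom.id, f, Function.surjective_id, ?_, rfl⟩
    intro x y _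
    exact Subsingleton.elim (α := Fin 1) x y
  | succ m ih =>
    by_cases hf : Function.Injective f
    · exact ⟨m + 1, OrderHom.id, f, Function.surjective_id, hf, rfl⟩
    · obtain ⟨j, g, rfl⟩ := exists_sgm f hf
      obtain ⟨k, s, i, hs, hi, rfl⟩ := ih g
      exact ⟨k, s.comp (sgm j), i, hs.comp (A001_sgm_surj j), hi, rfl⟩

private theorem A001_mono {m n : ℕ} (s : Mo m n) (t : Fin (n + 1) → Fin (m + 1))
    (h : ∀ j, s (t j) = j) : Monotone t := by
  intro j j' hj
  by_contra hlt
  have h1 : s (t j') ≤ s (t j) := s.monotone (le_of_lt (not_le.1 hlt))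
  rw [h, h] at h1
  have : j = j' := le_antisymm hj h1
  subst this
  exact hlt le_rfl

/-- surjections have monotone sections -/
theorem exists_section {m n : ℕ} (s : Mo m n) (hs : Function.Surjective s) :
    ∃ t : Mo n m, s.comp t = OrderHom.id := by
  choose t ht using hs
  exact ⟨⟨t, A001_mono s t ht⟩, OrderHom.ext _ _ (funext ht)⟩

/-- two surjections with the same sections are equal -/
theorem eq_of_sections {m n : ℕ} (s s' : Mo m n) (hs : Function.Surjective s)
    (hs' : Function.Surjective s')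
    (h : ∀ t : Mo n m, s.comp t = OrderHom.id → s'.comp t = OrderHom.id) : s = s' := by
  classical
  choose t ht using hs
  refine OrderHom.ext _ _ (funext fun x => ?_)
  have h1 : ∀ j, s (Function.update t (s x) x j) = j := by
    intro j
    by_cases hj : j = s x
    · subst hj
      rw [Function.update_self]
    · rw [Function.update_of_ne hj, ht]
  have h2 := h ⟨Function.update t (s x) x, A001_mono s _ h1⟩ (OrderHom.ext _ _ (funext h1))
  have h3 : s' (Function.update t (s x) x (s x)) = s x := congrArg (fun f : Mo n n => f (s x)) h2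
  rw [Function.update_self] at h3
  exact h3.symm

end MM

end

/-! ### from `Lib_MP_33f7bb_d.A003` -/

section

/-!
# A0-03: normalised part of a simplicial vector space, generation, uniqueness (Dold-Kan, part 1)

`nm_face`: the face `δ_0` maps `NM (n+1)` to `NM n`: `δ_i δ_0 x = δ_0 δ_(i+1) x = 0` for `i ≥ 1`.

Generation.  Let `x ∈ V (n+1)`.  Going down from `i = n` to `i = 0` replace `x` by
`x + σ_i δ_(i+1) x` (`σ_i` = `act (sgm i)`).  Then `δ_(i+1) x' = 0`, and for `j > i + 1` with
`δ_j x = 0` also `δ_j x' = σ_i δ_(i+1) δ_j x = 0`.  At the end `x' ∈ NM (n+1)`, and `x + x'` is a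
sum of degenerate elements `σ_i y`, `y ∈ V n`.  By induction on `n`, every element of `V n` is a
sum of elements `act s y` with `s` surjective and `y ∈ NM k`.
-/

namespace MM

private theorem A003_mem {W : SV} {n : ℕ} {x : W.V (n + 1)} :
    x ∈ W.NM (n + 1) ↔ ∀ i : Fin (n + 1), W.act (dlt i.succ) x = 0 := by
  show x ∈ (⨅ i : Fin (n + 1), LinearMap.ker (W.act (dlt i.succ))) ↔ _
  simp only [Submodule.mem_iInf, LinearMap.mem_ker]

theorem nm_face {W : SV} {n : ℕ} {x : W.V (n + 1)} (hx : x ∈ W.NM (n + 1)) :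
    W.act (dlt 0) x ∈ W.NM n := by
  cases n with
  | zero => exact Submodule.mem_top
  | succ m =>
    rw [A003_mem] at hx ⊢
    intro i
    rw [W.act_comp]
    have h := dlt_comp_dlt (n := m) 0 i.succ (Fin.zero_le _)
    rw [Fin.castSucc_zero] at h
    rw [← h, ← W.act_comp, hx, map_zero]

theorem mem_nm_succ {W : SV} {n : ℕ} {x : W.V (n + 1)} :
    x ∈ W.NM (n + 1) ↔ ∀ i : Fin (n + 1), W.act (dlt i.succ) x = 0 := A003_mem

theorem d_nm {W : SV} {n : ℕ} {x : W.V (n + 1)} (hx : x ∈ W.NM (n + 1)) :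
    W.d n x = W.act (dlt 0) x := by
  rw [A003_mem] at hx
  rw [SV.d, LinearMap.sum_apply, Fin.sum_univ_succ]
  rw [Finset.sum_eq_zero fun i _ => hx i, add_zero]

private theorem A003_step (W : SV) {n : ℕ} (x : W.V (n + 1)) (i : Fin (n + 1))
    (hx : ∀ j : Fin (n + 1), i < j → W.act (dlt j.succ) x = 0) (j : Fin (n + 1)) (hj : i ≤ j) :
    W.act (dlt j.succ) (x + W.act (sgm i) (W.act (dlt i.succ) x)) = 0 := by
  rw [map_add, W.act_comp]
  rcases eq_or_lt_of_le hj with h | h
  · subst h
    rw [sgm_comp_dlt_succ, W.act_id]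
    exact two_eq_zero' _
  · rw [hx j h, zero_add]
    cases n with
    | zero =>
      exact absurd h (by omega)
    | succ m =>
      have hi : i ≠ Fin.last (m + 1) := ne_of_lt (lt_of_lt_of_le h (Fin.le_last j))
      obtain ⟨k, rfl⟩ : ∃ k : Fin (m + 1), k.castSucc = i := ⟨i.castPred hi, by simp⟩
      rw [sgm_comp_dlt_of_gt j k h, ← W.act_comp, W.act_comp (dlt j)]
      have h1 : k.succ ≤ j := by
        rw [Fin.le_def]
        rw [Fin.lt_def] at h
        simp only [Fin.val_castSucc, Fin.val_succ] at *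
        omega
      have h2 := dlt_comp_dlt k.succ j h1
      rw [← Fin.succ_castSucc] at h2
      rw [← h2, ← W.act_comp, hx j h, map_zero, map_zero]

private theorem A003_sum (W : SV) {n : ℕ} (y : Fin (n + 1) → W.V n) (i : Fin (n + 1)) (a : W.V n) :
    ∑ l, W.act (sgm l) (y l + (Pi.single i a : Fin (n + 1) → W.V n) l) =
      ∑ l, W.act (sgm l) (y l) + W.act (sgm i) a := by
  simp only [map_add, Finset.sum_add_distrib]
  congr 1
  rw [Finset.sum_eq_single i]
  · rw [Pi.single_eq_same]
  · intro b _ hb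
    rw [Pi.single_eq_of_ne hb, map_zero]
  · intro h
    exact absurd (Finset.mem_univ _) h

/-- normalisation: `x` differs from an element of `NM` by degenerate elements -/
theorem exists_nm (W : SV) {n : ℕ} (x : W.V (n + 1)) :
    ∃ y : Fin (n + 1) → W.V n, x + ∑ i, W.act (sgm i) (y i) ∈ W.NM (n + 1) := by
  have key : ∀ k : ℕ, k ≤ n + 1 → ∃ y : Fin (n + 1) → W.V n,
      ∀ j : Fin (n + 1), n + 1 - k ≤ (j : ℕ) →
        W.act (dlt j.succ) (x + ∑ i, W.act (sgm i) (y i)) = 0 := by
    intro k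
    induction k with
    | zero =>
      intro _
      refine ⟨0, fun j hj => ?_⟩
      exact absurd j.isLt (by omega)
    | succ k ih =>
      intro hk
      obtain ⟨y, hy⟩ := ih (by omega)
      let i : Fin (n + 1) := ⟨n - k, by omega⟩
      refine ⟨fun l => y l + (Pi.single i (W.act (dlt i.succ) (x + ∑ i, W.act (sgm i) (y i))) :
        Fin (n + 1) → W.V n) l, ?_⟩
      intro j hj
      rw [A003_sum, ← add_assoc]
      refine A003_step W _ i ?_ j ?_
      · intro l hl
        refine hy l ?_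
        rw [Fin.lt_def] at hl
        show n + 1 - k ≤ (l : ℕ)
        have : (i : ℕ) = n - k := rfl
        omega
      · rw [Fin.le_def]
        show n - k ≤ (j : ℕ)
        omega
  obtain ⟨y, hy⟩ := key (n + 1) le_rfl
  refine ⟨y, A003_mem.2 fun j => hy j (by omega)⟩

private theorem A003_sgm_surj {m : ℕ} (i : Fin (m + 1)) : Function.Surjective (sgm i) := by
  intro y
  refine ⟨dlt i.castSucc y, ?_⟩
  exact congrArg (fun f : Mo m m => f y) (sgm_comp_dlt_castSucc i)

/-- every element is a sum of surjective pull backs of elements of `NM` -/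
theorem span_nm (W : SV) (n : ℕ) :
    Submodule.span (ZMod 2) {x : W.V n | ∃ (k : ℕ) (s : Mo n k) (y : W.V k),
      Function.Surjective s ∧ y ∈ W.NM k ∧ x = W.act s y} = ⊤ := by
  induction n with
  | zero =>
    rw [eq_top_iff]
    intro x _
    refine Submodule.subset_span ⟨0, OrderHom.id, x, Function.surjective_id, Submodule.mem_top, ?_⟩
    rw [W.act_id]
  | succ n ih =>
    rw [eq_top_iff]
    intro x _
    obtain ⟨y, hy⟩ := exists_nm W x
    have hx : x = (x + ∑ i, W.act (sgm i) (y i)) + ∑ i, W.act (sgm i) (y i) := by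
      rw [add_assoc, two_eq_zero', add_zero]
    rw [hx]
    refine Submodule.add_mem _ ?_ (Submodule.sum_mem _ fun i _ => ?_)
    · refine Submodule.subset_span ⟨n + 1, OrderHom.id, _, Function.surjective_id, hy, ?_⟩
      rw [W.act_id]
    · have h1 : y i ∈ Submodule.span (ZMod 2) {x : W.V n | ∃ (k : ℕ) (s : Mo n k) (y : W.V k),
          Function.Surjective s ∧ y ∈ W.NM k ∧ x = W.act s y} := by
        rw [ih]
        exact Submodule.mem_top
      have h2 := Submodule.mem_map_of_mem (f := W.act (sgm i)) h1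
      rw [Submodule.map_span] at h2
      refine Submodule.span_mono ?_ h2
      rintro _ ⟨_, ⟨k, s, z, hs, hz, rfl⟩, rfl⟩
      exact ⟨k, s.comp (sgm i), z, hs.comp (A003_sgm_surj i), hz, W.act_comp _ _ _⟩

theorem dk_unique {D P : SV} (f g : SVHom D P)
    (h : ∀ n, ∀ x ∈ D.NM n, f.app n x = g.app n x) : f = g := by
  apply SVHom.ext
  funext n
  refine LinearMap.ext_on (span_nm D n) ?_
  rintro _ ⟨k, s, y, _, hy, rfl⟩
  rw [f.nat, g.nat, h k y hy]

end MM

end

/-! ### from `Lib_MP_33f7bb_d.A005` -/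

section

/-!
# A0-05: Moore representatives

(a) Every cycle is homologous to a Moore cycle (all proper faces zero).  (b) A Moore cycle which is
a boundary `d w` is the face `δ_0` of an element all of whose other faces vanish.

Proof.  This is the comparison of the (unnormalised) complex `(V, d)` with the normalised subcomplex
`(NM, δ_0)`: the inclusion is a homotopy equivalence (Mathlib:
`AlgebraicTopology.DoldKan.homotopyEquivNormalizedMooreComplexAlternatingFaceMapComplex`), or by hand: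
filter `V` by `F_j = {x : δ_i x = 0 for all i ≥ max(1, n - j + 1)}` (top faces first) and use at each
step the chain map `x ↦ x + σ_i δ_(i+1) x` on `F_j`, which is chain homotopic to the identity.
For (a): an element of `NM n` with `d z = δ_0 z = 0` has all faces `δ_i` zero, hence `Moore z` (every
non surjective monotone map factors through a coface, `exists_dlt`).
-/

namespace MM

theorem moore_iff {W : SV} {n : ℕ} (z : W.V (n + 1)) :
    W.Moore z ↔ ∀ i : Fin (n + 2), W.act (dlt i) z = 0 := by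
  constructor
  · intro h i
    refine h n (dlt i) fun hs => ?_
    obtain ⟨y, hy⟩ := hs i
    exact Fin.succAbove_ne i y hy
  · intro h m f hf
    obtain ⟨i, g, rfl⟩ := exists_dlt f hf
    rw [← W.act_comp, h i, map_zero]

theorem moore_zero_dim {W : SV} (z : W.V 0) : W.Moore z := by
  intro m f hf
  exact absurd (fun y => ⟨0, Subsingleton.elim (α := Fin 1) _ _⟩) hf

theorem Moore.mem_Z {W : SV} {n : ℕ} {z : W.V n} (hz : W.Moore z) : z ∈ W.Z n := by
  cases n with
  | zero => exact Submodule.mem_top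
  | succ n =>
    show W.d n z = 0
    rw [SV.d, LinearMap.sum_apply]
    exact Finset.sum_eq_zero fun i _ => (moore_iff z).1 hz i

/-- faces indexed by natural numbers (zero out of range) -/
private noncomputable def fcA005 (W : SV) (n j : ℕ) : W.V (n + 1) →ₗ[ZMod 2] W.V n :=
  if h : j < n + 2 then W.act (dlt ⟨j, h⟩) else 0

/-- degeneracies indexed by natural numbers (zero out of range) -/
private noncomputable def dgA005 (W : SV) (n k : ℕ) : W.V n →ₗ[ZMod 2] W.V (n + 1) :=
  if h : k < n + 1 then W.act (sgm ⟨k, h⟩) else 0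

private theorem fcA005_lt (W : SV) {n j : ℕ} (h : j < n + 2) :
    fcA005 W n j = W.act (dlt ⟨j, h⟩) := dif_pos h

private theorem fcA005_ge (W : SV) {n j : ℕ} (h : n + 2 ≤ j) : fcA005 W n j = 0 :=
  dif_neg (by omega)

private theorem dgA005_lt (W : SV) {n k : ℕ} (h : k < n + 1) :
    dgA005 W n k = W.act (sgm ⟨k, h⟩) := dif_pos h

private theorem dgA005_ge (W : SV) {n k : ℕ} (h : n + 1 ≤ k) : dgA005 W n k = 0 :=
  dif_neg (by omega)

private theorem fc_fcA005 (W : SV) {n j l : ℕ} (h : j ≤ l) (x : W.V (n + 2)) :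
    fcA005 W n j (fcA005 W (n + 1) (l + 1) x) = fcA005 W n l (fcA005 W (n + 1) j x) := by
  by_cases hl : l < n + 2
  · rw [fcA005_lt W hl, fcA005_lt W (show j < n + 2 by omega),
      fcA005_lt W (show l + 1 < n + 1 + 2 by omega), fcA005_lt W (show j < n + 1 + 2 by omega),
      W.act_comp, W.act_comp]
    exact congrArg (fun f => W.act f x)
      (dlt_comp_dlt (⟨j, by omega⟩ : Fin (n + 2)) ⟨l, hl⟩ h)
  · rw [fcA005_ge W (show n + 2 ≤ l by omega), fcA005_ge W (show n + 1 + 2 ≤ l + 1 by omega)]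
    simp

private theorem fc_dgA005_le (W : SV) {n j k : ℕ} (h : j ≤ k) (x : W.V (n + 1)) :
    fcA005 W (n + 1) j (dgA005 W (n + 1) (k + 1) x) = dgA005 W n k (fcA005 W n j x) := by
  by_cases hk : k < n + 1
  · rw [dgA005_lt W hk, fcA005_lt W (show j < n + 2 by omega),
      dgA005_lt W (show k + 1 < n + 1 + 1 by omega), fcA005_lt W (show j < n + 1 + 2 by omega),
      W.act_comp, W.act_comp]
    exact congrArg (fun f => W.act f x)
      (sgm_comp_dlt_of_le (⟨j, by omega⟩ : Fin (n + 2)) ⟨k, hk⟩ h)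
  · rw [dgA005_ge W (show n + 1 ≤ k by omega), dgA005_ge W (show n + 1 + 1 ≤ k + 1 by omega)]
    simp

private theorem fc_dgA005_gt (W : SV) {n j k : ℕ} (h : k < j) (x : W.V (n + 1)) :
    fcA005 W (n + 1) (j + 1) (dgA005 W (n + 1) k x) = dgA005 W n k (fcA005 W n j x) := by
  by_cases hj : j < n + 2
  · rw [fcA005_lt W hj, dgA005_lt W (show k < n + 1 by omega),
      dgA005_lt W (show k < n + 1 + 1 by omega), fcA005_lt W (show j + 1 < n + 1 + 2 by omega),
      W.act_comp, W.act_comp]
    exact congrArg (fun f => W.act f x)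
      (sgm_comp_dlt_of_gt (⟨j, hj⟩ : Fin (n + 2)) ⟨k, by omega⟩ h)
  · rw [fcA005_ge W (show n + 2 ≤ j by omega), fcA005_ge W (show n + 1 + 2 ≤ j + 1 by omega)]
    simp

private theorem fc_dgA005_eq (W : SV) {n k : ℕ} (h : k ≤ n) (x : W.V n) :
    fcA005 W n k (dgA005 W n k x) = x := by
  rw [fcA005_lt W (show k < n + 2 by omega), dgA005_lt W (show k < n + 1 by omega), W.act_comp]
  exact (congrArg (fun f => W.act f x)
    (sgm_comp_dlt_castSucc (⟨k, by omega⟩ : Fin (n + 1)))).trans (W.act_id x)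

private theorem fc_dgA005_eq' (W : SV) {n k : ℕ} (h : k ≤ n) (x : W.V n) :
    fcA005 W n (k + 1) (dgA005 W n k x) = x := by
  rw [fcA005_lt W (show k + 1 < n + 2 by omega), dgA005_lt W (show k < n + 1 by omega),
    W.act_comp]
  exact (congrArg (fun f => W.act f x)
    (sgm_comp_dlt_succ (⟨k, by omega⟩ : Fin (n + 1)))).trans (W.act_id x)

private theorem d_eqA005 (W : SV) (n : ℕ) (x : W.V (n + 1)) :
    W.d n x = ∑ j ∈ Finset.range (n + 2), fcA005 W n j x := by
  rw [SV.d, LinearMap.sum_apply, Finset.sum_range]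
  exact Finset.sum_congr rfl fun i _ => by rw [fcA005_lt W i.2]

private theorem d_cutA005 (W : SV) {n a : ℕ} (ha : a ≤ n + 2) (x : W.V (n + 1))
    (hx : ∀ j, a ≤ j → fcA005 W n j x = 0) :
    W.d n x = ∑ j ∈ Finset.range a, fcA005 W n j x := by
  rw [d_eqA005]
  exact Finset.eventually_constant_sum (fun j hj => hx j hj) ha

/-- the new faces after one normalisation step -/
private theorem step_facesA005 (W : SV) {n i : ℕ} (hi : i ≤ n) (x : W.V (n + 1))
    (hx : ∀ j, i + 2 ≤ j → fcA005 W n j x = 0) :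
    ∀ j, i + 1 ≤ j → fcA005 W n j (x + dgA005 W n i (fcA005 W n (i + 1) x)) = 0 := by
  intro j hj
  rw [map_add]
  rcases Nat.eq_or_lt_of_le hj with rfl | hj
  · rw [fc_dgA005_eq' W hi]
    exact two_eq_zero' _
  · rw [hx j hj, zero_add]
    cases n with
    | zero => rw [fcA005_ge W (show 0 + 2 ≤ j by omega)]; simp
    | succ n =>
      obtain ⟨j, rfl⟩ : ∃ j', j = j' + 1 := ⟨j - 1, by omega⟩
      rw [fc_dgA005_gt W (show i < j by omega), ← fc_fcA005 W (show i + 1 ≤ j by omega),
        hx (j + 1) (by omega), map_zero, map_zero]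

/-- one normalisation step does not change the class of a cycle -/
private theorem step_cycleA005 (W : SV) {n i : ℕ} (hi : i ≤ n) (x : W.V (n + 1))
    (hx : ∀ j, i + 2 ≤ j → fcA005 W n j x = 0) (hd : W.d n x = 0) :
    W.d (n + 1) (dgA005 W (n + 1) (i + 1) x) = dgA005 W n i (fcA005 W n (i + 1) x) := by
  rw [d_cutA005 W (show i + 3 ≤ n + 1 + 2 by omega), Finset.sum_range_succ,
    Finset.sum_range_succ, fc_dgA005_eq W (show i + 1 ≤ n + 1 by omega),
    fc_dgA005_eq' W (show i + 1 ≤ n + 1 by omega), add_assoc, two_eq_zero', add_zero]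
  · rw [Finset.sum_congr rfl fun j hj =>
      fc_dgA005_le W (show j ≤ i by have := Finset.mem_range.1 hj; omega) x, ← map_sum]
    congr 1
    rw [d_cutA005 W (show i + 2 ≤ n + 2 by omega) x hx, Finset.sum_range_succ] at hd
    rw [← sub_eq_zero, sub_eq']
    exact hd
  · intro j hj
    obtain ⟨j, rfl⟩ : ∃ j', j = j' + 1 := ⟨j - 1, by omega⟩
    rw [fc_dgA005_gt W (show i + 1 < j by omega), hx j (by omega), map_zero]

/-- one normalisation step does not change the boundary if the boundary is a Moore cycle -/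
private theorem step_boundaryA005 (W : SV) {n i : ℕ} (hi : i ≤ n) (x : W.V (n + 1))
    (hx : ∀ j, i + 2 ≤ j → fcA005 W n j x = 0) (hz : W.Moore (W.d n x)) :
    W.d n (dgA005 W n i (fcA005 W n (i + 1) x)) = 0 := by
  cases n with
  | zero =>
    obtain rfl : i = 0 := by omega
    rw [d_eqA005, Finset.sum_range_succ, Finset.sum_range_succ, Finset.sum_range_zero, zero_add,
      fc_dgA005_eq W le_rfl, fc_dgA005_eq' W le_rfl, two_eq_zero']
  | succ n =>
    have hzf : ∀ j, fcA005 W n j (W.d (n + 1) x) = 0 := by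
      intro j
      by_cases hj : j < n + 2
      · rw [fcA005_lt W hj]; exact (moore_iff _).1 hz _
      · rw [fcA005_ge W (by omega)]; rfl
    rw [d_cutA005 W (show i + 2 ≤ n + 1 + 2 by omega), Finset.sum_range_succ,
      Finset.sum_range_succ, fc_dgA005_eq W hi, fc_dgA005_eq' W hi, add_assoc, two_eq_zero',
      add_zero]
    · cases i with
      | zero => rfl
      | succ i =>
        have h1 : ∀ j ∈ Finset.range (i + 1), fcA005 W (n + 1) j
            (dgA005 W (n + 1) (i + 1) (fcA005 W (n + 1) (i + 1 + 1) x)) =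
            dgA005 W n i (fcA005 W n (i + 1) (fcA005 W (n + 1) j x)) := by
          intro j hj
          have hj' := Finset.mem_range.1 hj
          rw [fc_dgA005_le W (show j ≤ i by omega), fc_fcA005 W (show j ≤ i + 1 by omega)]
        rw [Finset.sum_congr rfl h1, ← map_sum, ← map_sum]
        have h2 := hzf (i + 1)
        rw [d_cutA005 W (show i + 3 ≤ n + 1 + 2 by omega) x hx, Finset.sum_range_succ,
          Finset.sum_range_succ, map_add, map_add, fc_fcA005 W (le_refl (i + 1)), add_assoc,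
          two_eq_zero', add_zero] at h2
        rw [h2, map_zero]
    · intro j hj
      obtain ⟨j, rfl⟩ : ∃ j', j = j' + 1 := ⟨j - 1, by omega⟩
      rw [fc_dgA005_gt W (show i < j by omega), ← fc_fcA005 W (show i + 1 ≤ j by omega),
        hx (j + 1) (by omega), map_zero, map_zero]

private theorem normA005_cycle (W : SV) (n : ℕ) : ∀ (c : ℕ) (z : W.V (n + 1)), c ≤ n + 1 →
    (∀ j, c + 1 ≤ j → fcA005 W n j z = 0) → W.d n z = 0 →
    ∃ w : W.V (n + 2), ∀ j, 1 ≤ j → fcA005 W n j (z + W.d (n + 1) w) = 0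
  | 0, z, _, hz, _ => ⟨0, fun j hj => by rw [map_zero, add_zero]; exact hz j (by omega)⟩
  | c + 1, z, hc, hz, hd => by
    have e := step_cycleA005 W (show c ≤ n by omega) z hz hd
    have hf := step_facesA005 W (show c ≤ n by omega) z hz
    rw [← e] at hf
    obtain ⟨w, hw⟩ := normA005_cycle W n c _ (by omega) hf (by
      rw [map_add, hd, SV.d_d, add_zero])
    refine ⟨dgA005 W (n + 1) (c + 1) z + w, fun j hj => ?_⟩
    rw [(W.d (n + 1)).map_add, ← add_assoc]
    exact hw j hj

private theorem normA005_boundary (W : SV) (n : ℕ) : ∀ (c : ℕ) (x : W.V (n + 1)), c ≤ n + 1 →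
    (∀ j, c + 1 ≤ j → fcA005 W n j x = 0) → W.Moore (W.d n x) →
    ∃ w : W.V (n + 1), W.d n w = W.d n x ∧ ∀ j, 1 ≤ j → fcA005 W n j w = 0
  | 0, x, _, hx, _ => ⟨x, rfl, fun j hj => hx j (by omega)⟩
  | c + 1, x, hc, hx, hd => by
    have e := step_boundaryA005 W (show c ≤ n by omega) x hx hd
    have hf := step_facesA005 W (show c ≤ n by omega) x hx
    have e' : W.d n (x + dgA005 W n c (fcA005 W n (c + 1) x)) = W.d n x := by
      rw [map_add, e, add_zero]
    obtain ⟨w, hw, hw'⟩ := normA005_boundary W n c _ (by omega) hf (by rw [e']; exact hd)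
    exact ⟨w, hw.trans e', hw'⟩

theorem exists_moore (W : SV) {n : ℕ} (z : W.V n) (hz : z ∈ W.Z n) :
    ∃ w : W.V (n + 1), W.Moore (z + W.d n w) := by
  cases n with
  | zero => exact ⟨0, moore_zero_dim _⟩
  | succ n =>
    have hd : W.d n z = 0 := hz
    obtain ⟨w, hw⟩ := normA005_cycle W n (n + 1) z le_rfl
      (fun j hj => by rw [fcA005_ge W (by omega)]; rfl) hd
    refine ⟨w, (moore_iff _).2 fun i => ?_⟩
    have key : ∀ j, fcA005 W n j (z + W.d (n + 1) w) = 0 := by
      intro j
      rcases Nat.eq_zero_or_pos j with rfl | hj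
      · have h0 : W.d n (z + W.d (n + 1) w) = 0 := by rw [map_add, hd, SV.d_d, add_zero]
        rw [d_cutA005 W (show 1 ≤ n + 2 by omega) _ hw, Finset.sum_range_one] at h0
        exact h0
      · exact hw j hj
    have := key i
    rwa [fcA005_lt W i.2] at this

theorem moore_boundary (W : SV) {n : ℕ} (z : W.V n) (hz : W.Moore z) (w : W.V (n + 1))
    (hw : W.d n w = z) :
    ∃ w' : W.V (n + 1), W.act (dlt 0) w' = z ∧ ∀ i : Fin (n + 1), W.act (dlt i.succ) w' = 0 := by
  obtain ⟨w', hw', hf⟩ := normA005_boundary W n (n + 1) w le_rfl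
    (fun j hj => by rw [fcA005_ge W (by omega)]; rfl) (by rw [hw]; exact hz)
  refine ⟨w', ?_, fun i => ?_⟩
  · rw [hw, d_cutA005 W (show 1 ≤ n + 2 by omega) _ hf, Finset.sum_range_one,
      fcA005_lt W (show 0 < n + 2 by omega)] at hw'
    exact hw'
  · have := hf (i + 1) (by omega)
    rw [fcA005_lt W (show (i : ℕ) + 1 < n + 2 by omega)] at this
    exact this

end MM

end
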