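import Pool.Agent.Lib_MP_33f7bb_m.G01

/-!
# MP_33f7bb_an, negative answer to Q1: merged library part G02

Concatenation of files of `Lib_MP_33f7bb_an` and `Lib_MP_33f7bb_d` (each in its own section), only to save build time.
-/

/-! ### from `Lib_MP_33f7bb_d.A004` -/

section

/-!
# A0-04: Dold-Kan, part 2: chain maps of the normalised complexes extend to simplicial maps

Proof: the sub simplicial vector space `G ≤ D × P` generated by the graph of `φ` on `NM D` is the graph of the map: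
its normalised part is the graph of `φ` (a normalised element which is a sum of degenerate elements is `0`), so the kernel
`{p | (0, p) ∈ G}` of `G → D` has no normalised elements and is `0` (`span_nm`).
-/

namespace MM

/-- the operator `1 + σ_i δ_(i+1)` -/
private noncomputable def eA004 (W : SV) {n : ℕ} (i : Fin (n + 1)) : W.V (n + 1) →ₗ[ZMod 2] W.V (n + 1) :=
  LinearMap.id + (W.act (sgm i)).comp (W.act (dlt i.succ))

private theorem eA004_apply (W : SV) {n : ℕ} (i : Fin (n + 1)) (x : W.V (n + 1)) :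
    eA004 W i x = x + W.act (sgm i) (W.act (dlt i.succ) x) := rfl

private theorem eA004_nm (W : SV) {n : ℕ} (i : Fin (n + 1)) {x : W.V (n + 1)}
    (hx : x ∈ W.NM (n + 1)) : eA004 W i x = x := by
  rw [eA004_apply, mem_nm_succ.1 hx i, map_zero, add_zero]

private theorem eA004_self (W : SV) {n : ℕ} (i : Fin (n + 1)) (y : W.V n) :
    eA004 W i (W.act (sgm i) y) = 0 := by
  rw [eA004_apply, W.act_comp (dlt i.succ) (sgm i), sgm_comp_dlt_succ, W.act_id]
  exact two_eq_zero' _

/-- `(1 + σ_i δ_(i+1)) σ_j = σ_j (1 + σ_(i-1) δ_i)` for `j < i` -/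
private theorem eA004_lt (W : SV) {n : ℕ} (i j : Fin (n + 1)) (h : j < i) (y : W.V n) :
    ∃ y' : W.V n, eA004 W i (W.act (sgm j) y) = W.act (sgm j) y' := by
  cases n with
  | zero => exact absurd h (by omega)
  | succ m =>
    have hi : i ≠ 0 := ne_of_gt (lt_of_le_of_lt (Fin.zero_le _) h)
    obtain ⟨k, rfl⟩ : ∃ k : Fin (m + 1), k.succ = i := ⟨i.pred hi, by simp⟩
    have hj : j ≠ Fin.last (m + 1) := ne_of_lt (lt_of_lt_of_le h (Fin.le_last _))
    obtain ⟨l, rfl⟩ : ∃ l : Fin (m + 1), l.castSucc = j := ⟨j.castPred hj, by simp⟩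
    have hlk : l ≤ k := by
      rw [Fin.lt_def] at h
      rw [Fin.le_def]
      simp only [Fin.val_castSucc, Fin.val_succ] at h
      omega
    refine ⟨y + W.act (sgm k) (W.act (dlt k.succ) y), ?_⟩
    rw [eA004_apply, map_add, W.act_comp (dlt k.succ.succ)]
    have h1 : (sgm l.castSucc).comp (dlt k.succ.succ) = (dlt k.succ).comp (sgm l) :=
      sgm_comp_dlt_of_gt k.succ l (by
        rw [Fin.lt_def, Fin.val_castSucc, Fin.val_succ]
        rw [Fin.le_def] at hlk
        omega)
    rw [h1, ← W.act_comp, W.act_comp (sgm k.succ), W.act_comp (sgm l.castSucc),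
      sgm_comp_sgm l k hlk]

/-- the composite of the operators `1 + σ_i δ_(i+1)`, `i = n, n - 1, …`, `k` factors -/
private noncomputable def pA004 (W : SV) {n : ℕ} : ℕ → (W.V (n + 1) →ₗ[ZMod 2] W.V (n + 1))
  | 0 => LinearMap.id
  | k + 1 => if h : k < n + 1 then (eA004 W ⟨n - k, by omega⟩).comp (pA004 W k) else pA004 W k

private theorem pA004_nm (W : SV) {n : ℕ} {x : W.V (n + 1)} (hx : x ∈ W.NM (n + 1)) (k : ℕ) :
    pA004 W k x = x := by
  induction k with
  | zero => rfl
  | succ k ih =>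
    rw [pA004]
    split_ifs
    · rw [LinearMap.comp_apply, ih, eA004_nm W _ hx]
    · exact ih

private theorem pA004_low (W : SV) {n : ℕ} (j : Fin (n + 1)) (y : W.V n) (k : ℕ)
    (hk : k + j ≤ n) : ∃ y' : W.V n, pA004 W k (W.act (sgm j) y) = W.act (sgm j) y' := by
  induction k with
  | zero => exact ⟨y, rfl⟩
  | succ k ih =>
    obtain ⟨y', hy'⟩ := ih (by omega)
    rw [pA004, dif_pos (by omega), LinearMap.comp_apply, hy']
    refine eA004_lt W _ j ?_ y'
    rw [Fin.lt_def]
    show (j : ℕ) < n - k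
    omega

private theorem pA004_zero (W : SV) {n : ℕ} (j : Fin (n + 1)) (y : W.V n) (k : ℕ)
    (hk : n < k + j) : pA004 W k (W.act (sgm j) y) = 0 := by
  induction k with
  | zero => omega
  | succ k ih =>
    rw [pA004]
    by_cases h : n < k + j
    · split_ifs
      · rw [LinearMap.comp_apply, ih h, map_zero]
      · exact ih h
    · have hj : k + (j : ℕ) = n := by omega
      obtain ⟨y', hy'⟩ := pA004_low W j y k (by omega)
      rw [dif_pos (by omega), LinearMap.comp_apply, hy']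
      have : (⟨n - k, by omega⟩ : Fin (n + 1)) = j := Fin.ext (by show n - k = j; omega)
      rw [this]
      exact eA004_self W j y'

/-- a normalised element which is a sum of degenerate elements is zero -/
private theorem nm_degA004 (W : SV) {n : ℕ} {x : W.V (n + 1)} (hx : x ∈ W.NM (n + 1))
    (y : Fin (n + 1) → W.V n) (h : x = ∑ i, W.act (sgm i) (y i)) : x = 0 := by
  rw [← pA004_nm W hx (n + 1), h, map_sum]
  exact Finset.sum_eq_zero fun j _ => pA004_zero W j (y j) (n + 1) (by omega)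

section

variable {D P : SV} (φ : ∀ n, D.NM n →ₗ[ZMod 2] P.NM n)

/-- the sub simplicial vector space generated by the graph -/
private def gA004 : SubV (D.prd P) where
  car n := Submodule.span (ZMod 2) {x | ∃ (k : ℕ) (s : Mo n k) (y : D.NM k),
    x = (D.act s y.1, P.act s (φ k y).1)}
  closed {m n} f x hx := by
    have h2 := Submodule.mem_map_of_mem (f := (D.prd P).act f) hx
    rw [Submodule.map_span] at h2
    refine Submodule.span_mono ?_ h2
    rintro _ ⟨_, ⟨k, s, y, rfl⟩, rfl⟩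
    refine ⟨k, s.comp f, y, ?_⟩
    show ((D.act f (D.act s y.1), P.act f (P.act s (φ k y).1)) : D.V m × P.V m) = _
    rw [D.act_comp, P.act_comp]

private theorem genA004 (n k : ℕ) (s : Mo n k) (y : D.NM k) :
    ((D.act s y.1, P.act s (φ k y).1) : D.V n × P.V n) ∈ (gA004 φ).car n :=
  Submodule.subset_span ⟨k, s, y, rfl⟩

private theorem degA004 (n k : ℕ) (g : Mo n k) (i : Fin (n + 1)) (y : D.NM k) :
    ∃ (x : D.NM (n + 1)) (z : Fin (n + 1) → (D.prd P).V n), (∀ i, z i ∈ (gA004 φ).car n) ∧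
      ((D.act (g.comp (sgm i)) y.1, P.act (g.comp (sgm i)) (φ k y).1) : (D.prd P).V (n + 1)) =
        (x.1, (φ (n + 1) x).1) + ∑ i, (D.prd P).act (sgm i) (z i) := by
  refine ⟨0, Pi.single i (D.act g y.1, P.act g (φ k y).1), fun l => ?_, ?_⟩
  · by_cases hl : l = i
    · subst hl; rw [Pi.single_eq_same]; exact genA004 φ n k g y
    · rw [Pi.single_eq_of_ne hl]; exact Submodule.zero_mem _
  · rw [Finset.sum_eq_single i]
    · rw [Pi.single_eq_same, map_zero]
      show ((_, _) : D.V (n + 1) × P.V (n + 1)) =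
        (0, 0) + (D.act (sgm i) (D.act g y.1), P.act (sgm i) (P.act g (φ k y).1))
      rw [Prod.mk_add_mk, zero_add, zero_add, D.act_comp, P.act_comp]
    · intro b _ hb
      rw [Pi.single_eq_of_ne hb, map_zero]
    · intro h; exact absurd (Finset.mem_univ _) h

private theorem idA004 {n : ℕ} (s : Mo n n) (h : Function.Injective s)
    (h' : Function.Surjective s) : s = OrderHom.id := by
  have h1 : (s : Fin (n + 1) → Fin (n + 1)) = id :=
    (s.monotone.strictMono_of_injective h).range_inj strictMono_id |>.1 (by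
      rw [h'.range_eq, Set.range_id])
  exact OrderHom.ext _ _ h1

variable (hφ : ∀ n (x : D.NM (n + 1)),
      ((φ n ⟨D.act (dlt 0) x.1, nm_face x.2⟩ : P.NM n) : P.V n) = P.act (dlt 0) (φ (n + 1) x).1)

include hφ

private theorem stepA004 (n k : ℕ) (s : Mo (n + 1) k) (y : D.NM k) :
    ∃ (x : D.NM (n + 1)) (z : Fin (n + 1) → (D.prd P).V n), (∀ i, z i ∈ (gA004 φ).car n) ∧
      ((D.act s y.1, P.act s (φ k y).1) : (D.prd P).V (n + 1)) =
        (x.1, (φ (n + 1) x).1) + ∑ i, (D.prd P).act (sgm i) (z i) := by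
  induction k with
  | zero =>
    obtain ⟨i, g, rfl⟩ := exists_sgm s (fun h => by
      have := h (show s 0 = s 1 from Subsingleton.elim (α := Fin 1) _ _)
      exact absurd this (by simp))
    exact degA004 φ n 0 g i y
  | succ k ih =>
    by_cases hinj : Function.Injective s
    · by_cases hsurj : Function.Surjective s
      · have hk : n + 1 = k + 1 := by
          have := Fintype.card_of_bijective (f := s) ⟨hinj, hsurj⟩
          simpa using this
        obtain rfl : n = k := by omega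
        obtain rfl := idA004 s hinj hsurj
        refine ⟨y, 0, fun i => Submodule.zero_mem _, ?_⟩
        rw [D.act_id, P.act_id]
        simp
      · obtain ⟨j, g, rfl⟩ := exists_dlt s hsurj
        by_cases hj : j = 0
        · subst hj
          obtain ⟨x, z, hz, hx⟩ := ih g ⟨D.act (dlt 0) y.1, nm_face y.2⟩
          refine ⟨x, z, hz, ?_⟩
          rw [← hx, hφ, D.act_comp, P.act_comp]
        · obtain ⟨i, rfl⟩ : ∃ i : Fin (k + 1), i.succ = j := ⟨j.pred hj, by simp⟩
          refine ⟨0, 0, fun i => Submodule.zero_mem _, ?_⟩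
          rw [← D.act_comp, ← P.act_comp, mem_nm_succ.1 y.2 i, mem_nm_succ.1 (φ (k + 1) y).2 i]
          simp
    · obtain ⟨i, g, rfl⟩ := exists_sgm s hinj
      exact degA004 φ n (k + 1) g i y

/-- every element of `G` is the sum of an element of the graph and degenerate elements of `G` -/
private theorem decA004 (n : ℕ) (x : (D.prd P).V (n + 1)) (hx : x ∈ (gA004 φ).car (n + 1)) :
    ∃ (y : D.NM (n + 1)) (z : Fin (n + 1) → (D.prd P).V n),
      x = (y.1, (φ (n + 1) y).1) + ∑ i, (D.prd P).act (sgm i) (z i) := by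
  induction hx using Submodule.span_induction with
  | mem x hx =>
    obtain ⟨k, s, y, rfl⟩ := hx
    obtain ⟨x, z, -, h⟩ := stepA004 φ hφ n k s y
    exact ⟨x, z, h⟩
  | zero =>
    refine ⟨0, 0, ?_⟩
    simp only [Pi.zero_apply, map_zero, Finset.sum_const_zero, add_zero, Submodule.coe_zero]
    rfl
  | add a b _ _ ha hb =>
    obtain ⟨y, z, rfl⟩ := ha
    obtain ⟨y', z', rfl⟩ := hb
    refine ⟨y + y', z + z', ?_⟩
    simp only [Pi.add_apply, map_add, Finset.sum_add_distrib, Submodule.coe_add]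
    rw [← Prod.mk_add_mk]
    abel
  | smul r a _ ha =>
    obtain ⟨y, z, rfl⟩ := ha
    refine ⟨r • y, r • z, ?_⟩
    simp only [Pi.smul_apply, map_smul, ← Finset.smul_sum, Submodule.coe_smul]
    rw [smul_add]
    rfl

private theorem zeroA004 (x : (D.prd P).V 0) (hx : x ∈ (gA004 φ).car 0) :
    ∃ y : D.NM 0, x = (y.1, (φ 0 y).1) := by
  have step : ∀ (k : ℕ) (s : Mo 0 k) (y : D.NM k), ∃ x : D.NM 0,
      ((D.act s y.1, P.act s (φ k y).1) : (D.prd P).V 0) = (x.1, (φ 0 x).1) := by
    intro k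
    induction k with
    | zero =>
      intro s y
      have hs : s = OrderHom.id := by
        apply OrderHom.ext; funext i; exact Subsingleton.elim (α := Fin 1) _ _
      subst hs
      exact ⟨y, by rw [D.act_id, P.act_id]⟩
    | succ k ih =>
      intro s y
      obtain ⟨j, g, rfl⟩ := exists_dlt s (fun h => by
        have := Fintype.card_le_of_surjective s h
        simp at this)
      by_cases hj : j = 0
      · subst hj
        obtain ⟨x, hx⟩ := ih g ⟨D.act (dlt 0) y.1, nm_face y.2⟩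
        refine ⟨x, ?_⟩
        rw [← hx, hφ, D.act_comp, P.act_comp]
      · obtain ⟨i, rfl⟩ : ∃ i : Fin (k + 1), i.succ = j := ⟨j.pred hj, by simp⟩
        refine ⟨0, ?_⟩
        rw [← D.act_comp, ← P.act_comp, mem_nm_succ.1 y.2 i, mem_nm_succ.1 (φ (k + 1) y).2 i]
        simp
  induction hx using Submodule.span_induction with
  | mem x hx =>
    obtain ⟨k, s, y, rfl⟩ := hx
    exact step k s y
  | zero => exact ⟨0, by simp only [map_zero, Submodule.coe_zero]; rfl⟩
  | add a b _ _ ha hb =>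
    obtain ⟨y, rfl⟩ := ha
    obtain ⟨y', rfl⟩ := hb
    exact ⟨y + y', by simp only [map_add, Submodule.coe_add]; rfl⟩
  | smul r a _ ha =>
    obtain ⟨y, rfl⟩ := ha
    exact ⟨r • y, by simp only [map_smul, Submodule.coe_smul]; rfl⟩

omit hφ in
private theorem nm_prdA004 {n : ℕ} {x : (D.prd P).V n} (h1 : x.1 ∈ D.NM n) (h2 : x.2 ∈ P.NM n) :
    x ∈ (D.prd P).NM n := by
  cases n with
  | zero => exact Submodule.mem_top
  | succ n =>
    rw [mem_nm_succ] at h1 h2 ⊢
    intro i
    show ((D.act (dlt i.succ) x.1, P.act (dlt i.succ) x.2) : D.V n × P.V n) = 0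
    rw [h1, h2]
    rfl

private theorem kzA004 (n : ℕ) (p : P.V n) (hp : ((0, p) : D.V n × P.V n) ∈ (gA004 φ).car n)
    (hn : p ∈ P.NM n) : p = 0 := by
  cases n with
  | zero =>
    obtain ⟨y, hy⟩ := zeroA004 φ hφ _ hp
    have h1 : y = 0 := Subtype.ext (congrArg Prod.fst hy).symm
    have h2 := congrArg Prod.snd hy
    rw [h1, map_zero] at h2
    exact h2
  | succ n =>
    obtain ⟨y, z, h⟩ := decA004 φ hφ n _ hp
    have h1 : (((0, p) : D.V (n + 1) × P.V (n + 1)) + (y.1, (φ (n + 1) y).1)) =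
        ∑ i, (D.prd P).act (sgm i) (z i) := by
      rw [h]
      have h0 : ∀ A B : (D.prd P).V (n + 1), A + B + A = B := fun A B => by
        rw [add_comm A B, add_assoc, two_eq_zero', add_zero]
      exact h0 _ _
    have h2 := nm_degA004 (D.prd P) (x := ((0, p) : D.V (n + 1) × P.V (n + 1)) +
      (y.1, (φ (n + 1) y).1)) (Submodule.add_mem _
        (nm_prdA004 (x := (0, p)) (Submodule.zero_mem _) hn)
        (nm_prdA004 (x := (y.1, (φ (n + 1) y).1)) y.2 (φ (n + 1) y).2)) z h1
    have h3 : (y : D.V (n + 1)) = 0 := by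
      have := congrArg Prod.fst h2
      simpa using this
    have h4 : y = 0 := Subtype.ext h3
    rw [h4, map_zero] at h2
    have := congrArg Prod.snd h2
    simpa using this

/-- the kernel of `G → D` -/
private def kA004 (φ : ∀ n, D.NM n →ₗ[ZMod 2] P.NM n) : SubV P where
  car n := Submodule.comap (LinearMap.inr (ZMod 2) (D.V n) (P.V n)) ((gA004 φ).car n)
  closed {m n} f x hx := by
    have h := (gA004 φ).closed f hx
    show ((0, P.act f x) : D.V m × P.V m) ∈ (gA004 φ).car m
    have h2 : (D.prd P).act f (LinearMap.inr (ZMod 2) (D.V n) (P.V n) x) = (0, P.act f x) := by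
      show ((D.act f 0, P.act f x) : D.V m × P.V m) = _
      rw [map_zero]
    rwa [h2] at h

private theorem kerA004 (n : ℕ) (p : P.V n) (hp : ((0, p) : D.V n × P.V n) ∈ (gA004 φ).car n) :
    p = 0 := by
  have h0 : ∀ (k : ℕ) (q : (kA004 φ).sv.V k), q ∈ (kA004 φ).sv.NM k → q = 0 := by
    intro k q hq
    apply Subtype.ext
    refine kzA004 φ hφ k q.1 q.2 ?_
    cases k with
    | zero => exact Submodule.mem_top
    | succ k =>
      rw [mem_nm_succ] at hq ⊢
      intro i
      exact congrArg Subtype.val (hq i)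
  have h1 : (⟨p, hp⟩ : (kA004 φ).sv.V n) ∈ Submodule.span (ZMod 2)
      {x : (kA004 φ).sv.V n | ∃ (k : ℕ) (s : Mo n k) (y : (kA004 φ).sv.V k),
        Function.Surjective s ∧ y ∈ (kA004 φ).sv.NM k ∧ x = (kA004 φ).sv.act s y} := by
    rw [span_nm]; trivial
  have h2 : {x : (kA004 φ).sv.V n | ∃ (k : ℕ) (s : Mo n k) (y : (kA004 φ).sv.V k),
        Function.Surjective s ∧ y ∈ (kA004 φ).sv.NM k ∧ x = (kA004 φ).sv.act s y} ⊆ {0} := by
    rintro _ ⟨k, s, y, -, hy, rfl⟩
    rw [h0 k y hy, map_zero]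
    exact Set.mem_singleton _
  have h3 := Submodule.span_mono (R := ZMod 2) h2 h1
  rw [Submodule.span_singleton_eq_bot.2 rfl, Submodule.mem_bot] at h3
  exact congrArg Subtype.val h3

omit hφ in
private theorem surjA004 (n : ℕ) (x : D.V n) : ∃ p : P.V n,
    ((x, p) : D.V n × P.V n) ∈ (gA004 φ).car n := by
  have hx : x ∈ Submodule.span (ZMod 2) {x : D.V n | ∃ (k : ℕ) (s : Mo n k) (y : D.V k),
      Function.Surjective s ∧ y ∈ D.NM k ∧ x = D.act s y} := by
    rw [span_nm]; trivial
  induction hx using Submodule.span_induction with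
  | mem x hx =>
    obtain ⟨k, s, y, -, hy, rfl⟩ := hx
    exact ⟨P.act s (φ k ⟨y, hy⟩).1, genA004 φ n k s ⟨y, hy⟩⟩
  | zero => exact ⟨0, Submodule.zero_mem _⟩
  | add a b _ _ ha hb =>
    obtain ⟨p, hp⟩ := ha
    obtain ⟨q, hq⟩ := hb
    exact ⟨p + q, Submodule.add_mem _ hp hq⟩
  | smul r a _ ha =>
    obtain ⟨p, hp⟩ := ha
    exact ⟨r • p, Submodule.smul_mem _ r hp⟩

private theorem uniqA004 (n : ℕ) (x : D.V n) (p q : P.V n)
    (hp : ((x, p) : D.V n × P.V n) ∈ (gA004 φ).car n)
    (hq : ((x, q) : D.V n × P.V n) ∈ (gA004 φ).car n) : p = q := by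
  have h := Submodule.sub_mem _ hp hq
  rw [Prod.mk_sub_mk, sub_self] at h
  exact sub_eq_zero.1 (kerA004 φ hφ n _ h)

end

theorem dk_exists {D P : SV} (φ : ∀ n, D.NM n →ₗ[ZMod 2] P.NM n)
    (hφ : ∀ n (x : D.NM (n + 1)),
      ((φ n ⟨D.act (dlt 0) x.1, nm_face x.2⟩ : P.NM n) : P.V n) = P.act (dlt 0) (φ (n + 1) x).1) :
    ∃ f : SVHom D P, ∀ n (x : D.NM n), f.app n x.1 = (φ n x).1 := by
  choose F hF using surjA004 φ
  refine ⟨⟨fun n => ⟨⟨F n, fun x y => ?_⟩, fun r x => ?_⟩, fun {m n} f x => ?_⟩, fun n x => ?_⟩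
  · exact uniqA004 φ hφ n _ _ _ (hF n _) (Submodule.add_mem _ (hF n x) (hF n y))
  · exact uniqA004 φ hφ n _ _ _ (hF n _) (Submodule.smul_mem _ r (hF n x))
  · exact uniqA004 φ hφ m _ _ _ (hF m _) ((gA004 φ).closed f (hF n x))
  · refine uniqA004 φ hφ n _ _ _ (hF n _) ?_
    have h := genA004 φ n n OrderHom.id x
    rwa [D.act_id, P.act_id] at h

end MM

end

/-! ### from `Lib_MP_33f7bb_d.A006` -/

section

/-!
# A0-06: the master extension lemma EXTL

Let `C ≤ D` be simplicial vector spaces and `f : C → P` linear simplicial.  If for every `z ∈ D (n+1)`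
with `d z ∈ C n` the element `f (d z)` is a boundary of `P`, then `f` extends to `D`.

Proof.  Pass to normalised complexes: `N D n := D.NM n` with differential `δ_0` (`d_nm`), subcomplex
`N C n = {x ∈ N D n : x ∈ C n}`.  The hypothesis holds there: `z ∈ N D (n+1)`, `δ_0 z ∈ C`; then
`f (δ_0 z)` is a boundary by hypothesis (`d z = δ_0 z`) and it is a Moore cycle, so
it is `δ_0 p` with `p ∈ N P (n+1)` (`moore_boundary`).
Linear algebra over the field `ZMod 2`: choose in `Q = N D / N C` (or directly in `N D`) for each `n`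
subspaces:  relative cycles `Z'_n = {x ∈ N D n : δ_0 x ∈ C}` (everything for `n = 0`),
`B'_n = N C n + δ_0 (N D (n+1))`, `B'_n ≤ Z'_n`.  Choose `H_n` with `Z'_n = B'_n ⊕ H_n` and `T_n` with
`N D n = Z'_n ⊕ T_n`.  Then `N D n = N C n ⊕ δ_0 T_(n+1) ⊕ H_n ⊕ T_n` and `δ_0` is injective on
`T_(n+1)` with `δ_0 T_(n+1) ∩ N C n = 0`.  (`B'_n = N C n + δ_0 T_(n+1) + δ_0 H_(n+1) + ...` and
`δ_0 H_(n+1) ≤ C`.)  Choose `p : H_(n+1) → N P (n+1)` linear with `δ_0 (p h) = f (δ_0 h)`.
Define `g = f` on `N C`, `0` on `T_n` and on `δ_0 T_(n+1)`, `p` on `H_n` (`n ≥ 1`; arbitrary, e.g. 0,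
for `n = 0`).  `g` is a chain map.  By `dk_exists` it comes from a simplicial map `D → P`, which
agrees with `f` on `N C`, hence on `C` (`dk_unique`).
-/

namespace MM

private theorem A006_fac {K M N Q : Type*} [Field K] [AddCommGroup M] [Module K M]
    [AddCommGroup N] [Module K N] [AddCommGroup Q] [Module K Q] (f : M →ₗ[K] N) (g : M →ₗ[K] Q)
    (h : LinearMap.ker f ≤ LinearMap.ker g) : ∃ k : N →ₗ[K] Q, ∀ x, k (f x) = g x := by
  obtain ⟨k, hk⟩ := LinearMap.exists_extend
    (((LinearMap.ker f).liftQ g h).comp f.quotKerEquivRange.symm.toLinearMap)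
  refine ⟨k, fun x => ?_⟩
  have h1 := LinearMap.congr_fun hk ⟨f x, LinearMap.mem_range_self f x⟩
  have h2 : f.quotKerEquivRange.symm ⟨f x, LinearMap.mem_range_self f x⟩ =
      Submodule.Quotient.mk x := by
    rw [LinearEquiv.symm_apply_eq]
    exact Subtype.ext (f.quotKerEquivRange_apply_mk x).symm
  simp only [LinearMap.comp_apply, Submodule.subtype_apply, LinearEquiv.coe_coe] at h1
  rw [h1, h2]
  exact Submodule.liftQ_apply _ _ _

private theorem A006_step {K A P Q : Type*} [Field K] [AddCommGroup A] [Module K A]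
    [AddCommGroup P] [Module K P] [AddCommGroup Q] [Module K Q] (S B : Submodule K A)
    (φ : S →ₗ[K] P) (dP : P →ₗ[K] Q) (ψ : A →ₗ[K] Q) (h1 : ∀ x, ψ x ∈ LinearMap.range dP)
    (h2 : ∀ s : S, dP (φ s) = ψ s.1) (h3 : ∀ b ∈ B, ψ b = 0) (R : Submodule K P)
    (hR : ∀ s : S, s.1 ∈ B → φ s ∈ R) :
    ∃ g : A →ₗ[K] P, (∀ s : S, g s.1 = φ s) ∧ (∀ x, dP (g x) = ψ x) ∧ ∀ b ∈ B, g b ∈ R := by
  -- a projection of `B` onto `S ⊓ B`
  obtain ⟨r, hr⟩ := LinearMap.exists_leftInverse_of_injective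
    (Submodule.inclusion (inf_le_right : S ⊓ B ≤ B))
    (LinearMap.ker_eq_bot.2 (Submodule.inclusion_injective _))
  have hr' : ∀ (x : A) (hx : x ∈ S ⊓ B), r ⟨x, hx.2⟩ = ⟨x, hx⟩ := fun x hx =>
    LinearMap.congr_fun hr ⟨x, hx⟩
  let ι : (S ⊓ B : Submodule K A) →ₗ[K] S := Submodule.inclusion inf_le_left
  obtain ⟨g0, hg0⟩ := A006_fac (LinearMap.coprod S.subtype B.subtype)
    (LinearMap.coprod φ (φ.comp (ι.comp r))) (by
      rintro ⟨s, b⟩ hx
      rw [LinearMap.mem_ker, LinearMap.coprod_apply] at hx ⊢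
      simp only [Submodule.subtype_apply, LinearMap.comp_apply] at hx ⊢
      have hb : (b : A) = -(s : A) := by
        rw [eq_neg_iff_add_eq_zero, add_comm]
        exact hx
      have hbS : (b : A) ∈ S ⊓ B := ⟨by rw [hb]; exact S.neg_mem s.2, b.2⟩
      have e1 : r b = ⟨b, hbS⟩ := hr' b hbS
      have e2 : s + ι (r b) = 0 := by
        rw [e1]
        exact Subtype.ext hx
      rw [← map_add, e2, map_zero])
  have g0S : ∀ s : S, g0 s.1 = φ s := by
    intro s
    have := hg0 (s, 0)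
    simpa using this
  have g0B : ∀ (b : A) (hb : b ∈ B), g0 b = φ (ι (r ⟨b, hb⟩)) := by
    intro b hb
    have := hg0 (0, ⟨b, hb⟩)
    simpa using this
  have hιB : ∀ y : (S ⊓ B : Submodule K A), ((ι y : S) : A) ∈ B := fun y => y.2.2
  -- the correction
  have he : ∀ x, (ψ - dP.comp g0) x ∈ LinearMap.range dP := by
    intro x
    rw [LinearMap.sub_apply, LinearMap.comp_apply]
    exact Submodule.sub_mem _ (h1 x) (LinearMap.mem_range_self _ _)
  obtain ⟨l, hl⟩ := LinearMap.exists_rightInverse_of_surjective dP.rangeRestrict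
    (LinearMap.range_rangeRestrict dP)
  let e : A →ₗ[K] LinearMap.range dP := (ψ - dP.comp g0).codRestrict _ he
  have hle : ∀ y : LinearMap.range dP, dP (l y) = y.1 := fun y =>
    congrArg Subtype.val (LinearMap.congr_fun hl y)
  have eS : ∀ s : S, e s.1 = 0 := by
    intro s
    apply Subtype.ext
    show (ψ - dP.comp g0) s.1 = 0
    rw [LinearMap.sub_apply, LinearMap.comp_apply, g0S, h2, sub_self]
  have eB : ∀ b ∈ B, e b = 0 := by
    intro b hb
    apply Subtype.ext
    show (ψ - dP.comp g0) b = 0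
    rw [LinearMap.sub_apply, LinearMap.comp_apply, g0B b hb, h2, h3 b hb, h3 _ (hιB _), sub_self]
  refine ⟨g0 + l.comp e, fun s => ?_, fun x => ?_, fun b hb => ?_⟩
  · rw [LinearMap.add_apply, LinearMap.comp_apply, eS, map_zero, add_zero, g0S]
  · rw [LinearMap.add_apply, LinearMap.comp_apply, map_add, hle]
    show dP (g0 x) + (ψ - dP.comp g0) x = ψ x
    rw [LinearMap.sub_apply, LinearMap.comp_apply]
    abel
  · rw [LinearMap.add_apply, LinearMap.comp_apply, eB b hb, map_zero, add_zero, g0B b hb]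
    exact hR _ (hιB _)

/-- extension of chain maps over a field -/
private theorem A006_chain {K : Type} [Field K] {A P : ℕ → Type} [∀ n, AddCommGroup (A n)]
    [∀ n, Module K (A n)] [∀ n, AddCommGroup (P n)] [∀ n, Module K (P n)]
    (dA : ∀ n, A (n + 1) →ₗ[K] A n) (dP : ∀ n, P (n + 1) →ₗ[K] P n)
    (dd : ∀ n z, dA n (dA (n + 1) z) = 0) (S : ∀ n, Submodule K (A n))
    (hS : ∀ n, ∀ s ∈ S (n + 1), dA n s ∈ S n) (φ : ∀ n, S n →ₗ[K] P n)
    (hφ : ∀ n (s : S (n + 1)), dP n (φ (n + 1) s) = φ n ⟨dA n s.1, hS n s.1 s.2⟩)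
    (hB : ∀ n (z : A (n + 1)) (hz : dA n z ∈ S n),
      φ n ⟨dA n z, hz⟩ ∈ LinearMap.range (dP n)) :
    ∃ g : ∀ n, A n →ₗ[K] P n, (∀ n (s : S n), g n s.1 = φ n s) ∧
      ∀ n x, dP n (g (n + 1) x) = g n (dA n x) := by
  have h0 : ∃ g : A 0 →ₗ[K] P 0, (∀ s : S 0, g s.1 = φ 0 s) ∧
      ∀ z, g (dA 0 z) ∈ LinearMap.range (dP 0) := by
    obtain ⟨g, g1, -, g3⟩ := A006_step (S 0) (LinearMap.range (dA 0)) (φ 0)
      (0 : P 0 →ₗ[K] P 0) 0 (fun x => Submodule.zero_mem _) (fun s => rfl) (fun b _ => rfl)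
      (LinearMap.range (dP 0)) (by
        rintro ⟨s, hs⟩ ⟨z, hz⟩
        subst hz
        exact hB 0 z hs)
    exact ⟨g, g1, fun z => g3 _ (LinearMap.mem_range_self _ z)⟩
  have step : ∀ n (g : {g : A n →ₗ[K] P n // (∀ s : S n, g s.1 = φ n s) ∧
      ∀ z, g (dA n z) ∈ LinearMap.range (dP n)}),
      ∃ g' : {g' : A (n + 1) →ₗ[K] P (n + 1) // (∀ s : S (n + 1), g' s.1 = φ (n + 1) s) ∧
        ∀ z, g' (dA (n + 1) z) ∈ LinearMap.range (dP (n + 1))},
        ∀ x, dP n (g'.1 x) = g.1 (dA n x) := by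
    intro n g
    obtain ⟨g', g1, g2, g3⟩ := A006_step (S (n + 1)) (LinearMap.range (dA (n + 1)))
      (φ (n + 1)) (dP n) (g.1.comp (dA n)) (fun x => g.2.2 x) (fun s => by
        rw [hφ, LinearMap.comp_apply]
        exact (g.2.1 ⟨dA n s.1, hS n s.1 s.2⟩).symm) (by
        rintro _ ⟨z, rfl⟩
        rw [LinearMap.comp_apply, dd, map_zero]) (LinearMap.range (dP (n + 1))) (by
        rintro ⟨s, hs⟩ ⟨z, hz⟩
        subst hz
        exact hB (n + 1) z hs)
    exact ⟨⟨g', g1, fun z => g3 _ (LinearMap.mem_range_self _ z)⟩, g2⟩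
  obtain ⟨g0, hg0⟩ := h0
  choose nx hnx using step
  let sq : ∀ n, {g : A n →ₗ[K] P n // (∀ s : S n, g s.1 = φ n s) ∧
      ∀ z, g (dA n z) ∈ LinearMap.range (dP n)} := fun n => Nat.rec ⟨g0, hg0⟩ (fun n g => nx n g) n
  exact ⟨fun n => (sq n).1, fun n => (sq n).2.1, fun n x => hnx n (sq n) x⟩

private theorem A006_dd {W : SV} {n : ℕ} {x : W.V (n + 2)} (hx : x ∈ W.NM (n + 2)) :
    W.act (dlt 0) (W.act (dlt 0) x) = 0 := by
  rw [← d_nm (nm_face hx), ← d_nm hx]
  exact W.d_d x

/-- the differential of the normalised complex -/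
private def A006_d (W : SV) (n : ℕ) : W.NM (n + 1) →ₗ[ZMod 2] W.NM n :=
  (W.act (dlt 0)).restrict fun _ hx => nm_face hx

private theorem A006_mem {D P : SV} {C : SubV D} (f : SVHom C.sv P) {n : ℕ} {x : D.V n}
    (hx : x ∈ D.NM n) (hC : x ∈ C.car n) : f.app n ⟨x, hC⟩ ∈ P.NM n := by
  cases n with
  | zero => exact Submodule.mem_top
  | succ n =>
    rw [mem_nm_succ] at hx ⊢
    intro i
    rw [← f.nat]
    have e : C.sv.act (dlt i.succ) (⟨x, hC⟩ : C.car (n + 1)) = 0 := Subtype.ext (hx i)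
    rw [e, map_zero]

/-- restriction of `f` to the normalised complexes -/
private def A006_phi {D P : SV} {C : SubV D} (f : SVHom C.sv P) (n : ℕ) :
    (Submodule.comap (D.NM n).subtype (C.car n)) →ₗ[ZMod 2] P.NM n where
  toFun s := ⟨f.app n ⟨s.1.1, s.2⟩, A006_mem f s.1.2 s.2⟩
  map_add' x y := Subtype.ext (by
    show f.app n ⟨(x.1 + y.1 : D.NM n).1, _⟩ = f.app n ⟨x.1.1, _⟩ + f.app n ⟨y.1.1, _⟩
    rw [← map_add]
    rfl)
  map_smul' c x := Subtype.ext (by
    show f.app n ⟨(c • x.1 : D.NM n).1, _⟩ = c • f.app n ⟨x.1.1, _⟩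
    rw [← map_smul]
    rfl)

theorem extL {D P : SV} (C : SubV D) (f : SVHom C.sv P)
    (h : ∀ (n : ℕ) (z : D.V (n + 1)) (hz : D.d n z ∈ C.car n),
      f.app n ⟨D.d n z, hz⟩ ∈ P.B n) :
    ∃ g : SVHom D P, ∀ n (x : C.car n), g.app n x.1 = f.app n x := by
  obtain ⟨g, hg1, hg2⟩ := A006_chain (K := ZMod 2) (A := fun n => D.NM n)
    (P := fun n => P.NM n) (A006_d D) (A006_d P)
    (fun n z => Subtype.ext (A006_dd z.2))
    (fun n => Submodule.comap (D.NM n).subtype (C.car n))
    (fun n s hs => C.closed (dlt 0) hs) (A006_phi f)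
    (fun n s => Subtype.ext (by
      show P.act (dlt 0) (f.app (n + 1) ⟨s.1.1, s.2⟩) = f.app n ⟨D.act (dlt 0) s.1.1, _⟩
      rw [← f.nat]
      rfl))
    (by
      rintro n ⟨z, hz⟩ hzC
      have hd : D.d n z = D.act (dlt 0) z := d_nm hz
      have hzC' : D.d n z ∈ C.car n := by
        rw [hd]
        exact hzC
      obtain ⟨w, hw⟩ := h n z hzC'
      have hw' : P.d n w = f.app n ⟨D.act (dlt 0) z, hzC⟩ := by
        rw [hw]
        congr 1
        exact Subtype.ext hd
      have hM : P.Moore (f.app n ⟨D.act (dlt 0) z, hzC⟩) := by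
        cases n with
        | zero => exact moore_zero_dim _
        | succ n =>
          rw [moore_iff]
          intro i
          rw [← f.nat]
          have e : C.sv.act (dlt i) (⟨D.act (dlt 0) z, hzC⟩ : C.car (n + 1)) = 0 := by
            apply Subtype.ext
            show D.act (dlt i) (D.act (dlt 0) z) = 0
            rcases Fin.eq_zero_or_eq_succ i with rfl | ⟨j, rfl⟩
            · exact A006_dd hz
            · exact mem_nm_succ.1 (nm_face hz) j
          rw [e, map_zero]
      obtain ⟨w', h1, h2⟩ := moore_boundary P _ hM w hw'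
      exact ⟨⟨w', mem_nm_succ.2 h2⟩, Subtype.ext h1⟩)
  obtain ⟨F, hF⟩ := dk_exists (D := D) (P := P) g (fun n x => congrArg Subtype.val (hg2 n x).symm)
  have hEq : F.comp C.incl = f := by
    apply dk_unique
    intro n x hx
    have hx' : x.1 ∈ D.NM n := by
      cases n with
      | zero => exact Submodule.mem_top
      | succ n =>
        rw [mem_nm_succ] at hx ⊢
        intro i
        exact congrArg Subtype.val (hx i)
    show F.app n x.1 = f.app n x
    rw [hF n ⟨x.1, hx'⟩]
    exact congrArg Subtype.val (hg1 n ⟨⟨x.1, hx'⟩, x.2⟩)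
  refine ⟨F, fun n x => ?_⟩
  rw [← hEq]
  rfl

end MM

end

/-! ### from `Lib_MP_33f7bb_d.A010` -/

section

/-!
# A0-10: the prism operator

`T n z = ∑_(i ≤ n) H (a_i) (act (sgm i) z)` where `a_i : [n+1] → [1]` is `0` on `j ≤ i` and `1` on `j > i`.
Faces: `δ_j T_i` for `j < i` is `T_(i-1) δ_j`, for `j > i + 1` it is `T_i δ_(j-1)`; `δ_(i+1) T_i =
δ_(i+1) T_(i+1)` cancel, `δ_0 T_0` = value at `cst 1`, `δ_(n+1) T_n` = value at `cst 0`.
The set version is the linear version for `lin P → lin Y`, `H_a = mapDomain (H (a, ·))`.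
-/

namespace MM

/-- the map `[n] → [1]` which is `0` exactly below `c` -/
private def A010_cut (n c : ℕ) : Mo n 1 :=
  ⟨fun j => if (j : ℕ) < c then 0 else 1, by
    intro j k hjk
    have h : (j : ℕ) ≤ (k : ℕ) := hjk
    show (if (j : ℕ) < c then (0 : Fin 2) else 1) ≤ (if (k : ℕ) < c then (0 : Fin 2) else 1)
    split_ifs with h1 h2
    · exact le_rfl
    · exact Fin.zero_le _
    · omega
    · exact le_rfl⟩

private theorem A010_cut_zero (n : ℕ) : A010_cut n 0 = cst 1 := by
  apply OrderHom.ext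
  funext j
  show (if (j : ℕ) < 0 then (0 : Fin 2) else 1) = 1
  rw [if_neg (Nat.not_lt_zero _)]

private theorem A010_cut_last (n : ℕ) : A010_cut n (n + 1) = cst 0 := by
  apply OrderHom.ext
  funext j
  show (if (j : ℕ) < n + 1 then (0 : Fin 2) else 1) = 0
  rw [if_pos j.isLt]

private theorem A010_cut_le (n c : ℕ) (j : Fin (n + 2)) (h : c ≤ (j : ℕ)) :
    (A010_cut (n + 1) c).comp (dlt j) = A010_cut n c := by
  apply OrderHom.ext
  funext k
  show (if ((j.succAbove k : Fin (n + 2)) : ℕ) < c then (0 : Fin 2) else 1) =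
    (if (k : ℕ) < c then (0 : Fin 2) else 1)
  by_cases hk : k.castSucc < j
  · rw [Fin.succAbove_of_castSucc_lt _ _ hk]
    rfl
  · rw [Fin.succAbove_of_le_castSucc _ _ (not_lt.1 hk)]
    have h1 : (j : ℕ) ≤ (k : ℕ) := not_lt.1 hk
    rw [if_neg (by simp; omega), if_neg (by omega)]

private theorem A010_cut_gt (n c : ℕ) (j : Fin (n + 2)) (h : (j : ℕ) ≤ c) :
    (A010_cut (n + 1) (c + 1)).comp (dlt j) = A010_cut n c := by
  apply OrderHom.ext
  funext k
  show (if ((j.succAbove k : Fin (n + 2)) : ℕ) < c + 1 then (0 : Fin 2) else 1) =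
    (if (k : ℕ) < c then (0 : Fin 2) else 1)
  by_cases hk : k.castSucc < j
  · rw [Fin.succAbove_of_castSucc_lt _ _ hk]
    have h1 : (k : ℕ) < (j : ℕ) := hk
    rw [if_pos (by simp; omega), if_pos (by omega)]
  · rw [Fin.succAbove_of_le_castSucc _ _ (not_lt.1 hk)]
    simp only [Fin.val_succ, Nat.add_lt_add_iff_right]

/-- the prism operator -/
private noncomputable def A010_T {P Q : SV} (H : LHpy P Q) (n : ℕ) : P.V n →ₗ[ZMod 2] Q.V (n + 1) :=
  ∑ i : Fin (n + 1), (H.app (n + 1) (A010_cut (n + 1) ((i : ℕ) + 1))).comp (P.act (sgm i))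

private theorem A010_T_apply {P Q : SV} (H : LHpy P Q) (n : ℕ) (z : P.V n) :
    A010_T H n z = ∑ i : Fin (n + 1), H.app (n + 1) (A010_cut (n + 1) ((i : ℕ) + 1)) (P.act (sgm i) z) := by
  simp [A010_T, LinearMap.sum_apply]

private theorem A010_face {P Q : SV} (H : LHpy P Q) (n : ℕ) (z : P.V n) (i : Fin (n + 1))
    (j : Fin (n + 2)) :
    Q.act (dlt j) (H.app (n + 1) (A010_cut (n + 1) ((i : ℕ) + 1)) (P.act (sgm i) z)) =
      H.app n ((A010_cut (n + 1) ((i : ℕ) + 1)).comp (dlt j)) (P.act ((sgm i).comp (dlt j)) z) := by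
  rw [← P.act_comp, H.nat]

private theorem A010_dT {P Q : SV} (H : LHpy P Q) (n : ℕ) (z : P.V n) :
    Q.d n (A010_T H n z) = ∑ i : Fin (n + 1), ∑ j : Fin (n + 2),
      H.app n ((A010_cut (n + 1) ((i : ℕ) + 1)).comp (dlt j)) (P.act ((sgm i).comp (dlt j)) z) := by
  rw [A010_T_apply, map_sum]
  refine Finset.sum_congr rfl fun i _ => ?_
  rw [SV.d, LinearMap.sum_apply]
  exact Finset.sum_congr rfl fun j _ => A010_face H n z i j

private theorem A010_diag {P Q : SV} (H : LHpy P Q) (n : ℕ) (z : P.V n) :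
    (∑ i : Fin (n + 1),
      H.app n ((A010_cut (n + 1) ((i : ℕ) + 1)).comp (dlt i.castSucc))
        (P.act ((sgm i).comp (dlt i.castSucc)) z)) +
    (∑ i : Fin (n + 1),
      H.app n ((A010_cut (n + 1) ((i : ℕ) + 1)).comp (dlt i.succ))
        (P.act ((sgm i).comp (dlt i.succ)) z)) = H.app n (cst 0) z + H.app n (cst 1) z := by
  have h1 : ∀ i : Fin (n + 1), H.app n ((A010_cut (n + 1) ((i : ℕ) + 1)).comp (dlt i.castSucc))
        (P.act ((sgm i).comp (dlt i.castSucc)) z) = H.app n (A010_cut n i) z := by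
    intro i
    rw [A010_cut_gt n i i.castSucc le_rfl, sgm_comp_dlt_castSucc, P.act_id]
  have h2 : ∀ i : Fin (n + 1), H.app n ((A010_cut (n + 1) ((i : ℕ) + 1)).comp (dlt i.succ))
        (P.act ((sgm i).comp (dlt i.succ)) z) = H.app n (A010_cut n (i + 1)) z := by
    intro i
    rw [A010_cut_le n (i + 1) i.succ (by simp), sgm_comp_dlt_succ, P.act_id]
  rw [Finset.sum_congr rfl fun i _ => h1 i, Finset.sum_congr rfl fun i _ => h2 i,
    Fin.sum_univ_eq_sum_range (fun i => H.app n (A010_cut n i) z) (n + 1),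
    Fin.sum_univ_eq_sum_range (fun i => H.app n (A010_cut n (i + 1)) z) (n + 1),
    Finset.sum_range_succ', Finset.sum_range_succ (fun i => H.app n (A010_cut n (i + 1)) z),
    A010_cut_zero, A010_cut_last]
  have h3 := two_eq_zero' (∑ i ∈ Finset.range n, H.app n (A010_cut n (i + 1)) z)
  rw [show ∀ a b c : Q.V n, (a + b) + (a + c) = (a + a) + (c + b) from fun a b c => by abel, h3,
    zero_add]

private theorem A010_case1 {n : ℕ} (i : Fin (n + 2)) (k : Fin (n + 1)) (h : k.castSucc < i) :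
    ∃ a : Fin (n + 1), i = a.succ ∧ k ≤ a ∧ k.predAbove i = a ∧ i.succAbove k = k.castSucc := by
  refine ⟨i.pred (Fin.ne_zero_of_lt h), (Fin.succ_pred _ _).symm, ?_,
    Fin.predAbove_of_castSucc_lt _ _ h, Fin.succAbove_of_castSucc_lt _ _ h⟩
  have h1 : (k : ℕ) < (i : ℕ) := h
  show (k : ℕ) ≤ ((i.pred (Fin.ne_zero_of_lt h) : Fin (n + 1)) : ℕ)
  rw [Fin.val_pred]
  omega

private theorem A010_case2 {n : ℕ} (i : Fin (n + 2)) (k : Fin (n + 1)) (h : i ≤ k.castSucc) :
    ∃ a : Fin (n + 1), i = a.castSucc ∧ a ≤ k ∧ k.predAbove i = a ∧ i.succAbove k = k.succ := by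
  have h1 : (i : ℕ) ≤ (k : ℕ) := h
  have hne : i ≠ Fin.last (n + 1) := by
    intro he
    have h2 : (i : ℕ) = n + 1 := by rw [he]; rfl
    have := k.isLt
    omega
  exact ⟨i.castPred hne, (Fin.castSucc_castPred _ _).symm, h1,
    Fin.predAbove_of_le_castSucc _ _ h, Fin.succAbove_of_le_castSucc _ _ h⟩

private theorem A010_split {M : Type*} [AddCommMonoid M] (n : ℕ)
    (f : Fin (n + 2) → Fin (n + 3) → M) :
    ∑ i, ∑ j, f i j = (∑ i : Fin (n + 2), f i i.castSucc + ∑ i : Fin (n + 2), f i i.succ) +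
      ∑ i' : Fin (n + 1), ∑ j' : Fin (n + 2),
        (if j' ≤ i'.castSucc then f i'.succ j'.castSucc else f i'.castSucc j'.succ) := by
  have h1 : ∀ i : Fin (n + 2), ∑ j, f i j = (f i i.castSucc + f i i.succ) +
      ∑ k : Fin (n + 1), f i (i.castSucc.succAbove (i.succAbove k)) := by
    intro i
    rw [Fin.sum_univ_succAbove _ i.castSucc, Fin.sum_univ_succAbove _ i, add_assoc]
    congr 2
    rw [Fin.succAbove_of_le_castSucc _ _ le_rfl]
  rw [Finset.sum_congr rfl fun i _ => h1 i, Finset.sum_add_distrib, Finset.sum_add_distrib]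
  congr 1
  rw [← Fintype.sum_prod_type', ← Fintype.sum_prod_type']
  refine Finset.sum_nbij' (fun p => (p.2.predAbove p.1, p.1.succAbove p.2))
    (fun q => if q.2 ≤ q.1.castSucc then (q.1.succ, q.1.predAbove q.2) else
      (q.1.castSucc, q.1.predAbove q.2)) (fun _ _ => Finset.mem_univ _)
    (fun _ _ => Finset.mem_univ _) ?_ ?_ ?_
  · rintro ⟨i, k⟩ -
    by_cases h : k.castSucc < i
    · obtain ⟨a, rfl, hka, h2, h3⟩ := A010_case1 i k h
      have h4 : k.castSucc ≤ a.castSucc := hka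
      simp only [h2, h3, if_pos h4]
      rw [Fin.predAbove_of_le_castSucc _ _ h4, Fin.castPred_castSucc]
    · obtain ⟨a, rfl, hak, h2, h3⟩ := A010_case2 i k (not_lt.1 h)
      have h4 : a.castSucc < k.succ := by
        show (a : ℕ) < (k.succ : ℕ)
        rw [Fin.val_succ]
        exact Nat.lt_succ_of_le hak
      simp only [h2, h3, if_neg (not_le.2 h4)]
      rw [Fin.predAbove_of_castSucc_lt _ _ h4, Fin.pred_succ]
  · rintro ⟨i, j⟩ -
    by_cases h : j ≤ i.castSucc
    · obtain ⟨a, rfl, hai, h2, -⟩ := A010_case2 j i h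
      have h4 : a.castSucc < i.succ := by
        show (a : ℕ) < (i.succ : ℕ)
        rw [Fin.val_succ]
        exact Nat.lt_succ_of_le hai
      simp only [if_pos h, h2]
      rw [Fin.predAbove_of_castSucc_lt _ _ h4, Fin.pred_succ, Fin.succAbove_of_castSucc_lt _ _ h4]
    · obtain ⟨a, rfl, hia, h2, -⟩ := A010_case1 j i (not_le.1 h)
      have h4 : i.castSucc ≤ a.castSucc := hia
      simp only [if_neg h, h2]
      rw [Fin.predAbove_of_le_castSucc _ _ h4, Fin.castPred_castSucc,
        Fin.succAbove_of_le_castSucc _ _ h4]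
  · rintro ⟨i, k⟩ -
    by_cases h : k.castSucc < i
    · obtain ⟨a, rfl, hka, h2, h3⟩ := A010_case1 i k h
      have h4 : k.castSucc ≤ a.castSucc := hka
      simp only [h2, h3, if_pos h4]
      rw [Fin.succAbove_of_castSucc_lt _ _ (by exact h)]
    · obtain ⟨a, rfl, hak, h2, h3⟩ := A010_case2 i k (not_lt.1 h)
      have h4 : a.castSucc < k.succ := by
        show (a : ℕ) < (k.succ : ℕ)
        rw [Fin.val_succ]
        exact Nat.lt_succ_of_le hak
      simp only [h2, h3, if_neg (not_le.2 h4)]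
      rw [Fin.succAbove_of_le_castSucc _ _ (le_of_lt (by exact h4))]

private theorem A010_dT_zero {P Q : SV} (H : LHpy P Q) (z : P.V 0) :
    Q.d 0 (A010_T H 0 z) = H.app 0 (cst 0) z + H.app 0 (cst 1) z := by
  rw [A010_dT, ← A010_diag H 0 z]
  simp only [Fin.sum_univ_succ (n := 1), Fin.sum_univ_succ (n := 0), Fin.sum_univ_zero, add_zero]
  rfl

private theorem A010_dT_succ {P Q : SV} (H : LHpy P Q) (n : ℕ) (z : P.V (n + 1)) :
    Q.d (n + 1) (A010_T H (n + 1) z) =
      H.app (n + 1) (cst 0) z + H.app (n + 1) (cst 1) z + A010_T H n (P.d n z) := by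
  rw [A010_dT, A010_split, A010_diag H (n + 1) z]
  congr 1
  rw [A010_T_apply]
  refine Finset.sum_congr rfl fun i _ => ?_
  rw [SV.d, LinearMap.sum_apply, map_sum, map_sum]
  refine Finset.sum_congr rfl fun j _ => ?_
  rw [P.act_comp]
  by_cases h : j ≤ i.castSucc
  · rw [if_pos h, sgm_comp_dlt_of_le j i h, A010_cut_gt (n + 1) _ j.castSucc]
    · rw [Fin.val_succ]
    · have h1 : (j : ℕ) ≤ (i : ℕ) := h
      show (j : ℕ) ≤ _
      rw [Fin.val_succ]
      omega
  · rw [if_neg h, sgm_comp_dlt_of_gt j i (not_le.1 h), A010_cut_le (n + 1) _ j.succ]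
    · rfl
    · have h1 : (i : ℕ) < (j : ℕ) := not_le.1 h
      rw [Fin.val_succ]
      show (i : ℕ) + 1 ≤ _
      omega

theorem lprism {P Q : SV} (H : LHpy P Q) :
    ∃ T : ∀ n, P.V n →ₗ[ZMod 2] Q.V (n + 1),
      (∀ z : P.V 0, Q.d 0 (T 0 z) = H.app 0 (cst 0) z + H.app 0 (cst 1) z) ∧
      ∀ (n : ℕ) (z : P.V (n + 1)), Q.d (n + 1) (T (n + 1) z) =
        H.app (n + 1) (cst 0) z + H.app (n + 1) (cst 1) z + T n (P.d n z) :=
  ⟨A010_T H, A010_dT_zero H, A010_dT_succ H⟩

/-- the linear homotopy of a homotopy -/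
private noncomputable def A010_lin {P Y : SS} (H : Hom ((Del 1).prod P) Y) : LHpy (lin P) (lin Y) where
  app n a := Finsupp.lmapDomain (ZMod 2) (ZMod 2) (fun x => H.app n (a, x))
  nat {m n} f a x := by
    simp only [Finsupp.lmapDomain_apply]
    rw [← Finsupp.mapDomain_comp, ← Finsupp.mapDomain_comp]
    congr 1
    funext y
    exact H.nat f (a, y)

private theorem A010_mapDomain_supp {P Q : SS} {m n : ℕ} (f : P.S m → Q.S n) (A : Sub P) (B : Sub Q)
    (hf : ∀ x ∈ A.car m, f x ∈ B.car n) (z : Ch P m) (hz : SuppIn A z) :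
    SuppIn B (z.mapDomain f : Ch Q n) := by
  classical
  intro y hy
  obtain ⟨x, hx, rfl⟩ := Finset.mem_image.1 (Finsupp.mapDomain_support hy)
  exact hf x (hz x hx)

theorem prism {P Y : SS} (H : Hom ((Del 1).prod P) Y) :
    ∃ T : ∀ n, Ch P n →ₗ[ZMod 2] Ch Y (n + 1),
      (∀ z : Ch P 0, dif (T 0 z) = z.mapDomain (fun x => H.app 0 (cst 0, x)) +
        z.mapDomain (fun x => H.app 0 (cst 1, x))) ∧
      (∀ (n : ℕ) (z : Ch P (n + 1)), dif (T (n + 1) z) =
        z.mapDomain (fun x => H.app (n + 1) (cst 0, x)) +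
        z.mapDomain (fun x => H.app (n + 1) (cst 1, x)) + T n (dif z)) ∧
      ∀ (A : Sub P) (B : Sub Y), (∀ n a, ∀ x ∈ A.car n, H.app n (a, x) ∈ B.car n) →
        ∀ (n : ℕ) (z : Ch P n), SuppIn A z → SuppIn B (T n z) := by
  refine ⟨A010_T (A010_lin H), ?_, ?_, ?_⟩
  · intro z
    rw [← lin_d]
    exact A010_dT_zero (A010_lin H) z
  · intro n z
    rw [← lin_d, ← lin_d]
    exact A010_dT_succ (A010_lin H) n z
  · intro A B hAB n z hz
    rw [A010_T_apply, suppIn_iff]
    refine Submodule.sum_mem _ fun i _ => ?_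
    rw [← suppIn_iff]
    refine A010_mapDomain_supp _ A B (fun x hx => hAB _ _ x hx) _ ?_
    exact A010_mapDomain_supp _ A A (fun x hx => A.closed _ hx) _ hz

end MM

end

/-! ### from `Lib_MP_33f7bb_d.A009` -/

section

/-!
# A0-09: linear homotopies and homology; maps realising given maps in homology

`lhtp_iff`: `→` prism formula (`lprism`).  `←`: `extL` for `D n = (Mo n 1 →₀ P n)` (the free vector
space on the simplices of `Δ^1` tensor `P`), `C` = chains supported on the two constant simplices.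
For `z ∈ D (n+1)` with `d z = (c_0, c_1) ∈ C` the image of `z` under `D → P` (sum over all simplices of
`Δ^1`) has boundary `c_0 + c_1`; `f c_0 + g c_1 = f (c_0 + c_1) + (f c_1 + g c_1)`; here `c_1` is a cycle
of `P`: for `n ≥ 1` because `d d z = 0`, component at the constant simplex `1`.

`exists_hom`: choose cycles `z_i ∈ NM` representing a basis of `H n P` (`exists_moore`), a complement of
the cycles in the normalised complex, and define a chain map on normalised complexes: `N P n =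
B_n ⊕ H_n ⊕ T_n` with `δ_0 : T_(n+1) ≅ B_n`; send `z_i` to a Moore cycle representing `φ [z_i]`, and `T`
and `B` to 0.  Apply `dk_exists`.
-/

namespace MM

private theorem A009_d {P Q : SV} (f : SVHom P Q) (n : ℕ) (z : P.V (n + 1)) :
    f.app n (P.d n z) = Q.d n (f.app (n + 1) z) := by
  unfold SV.d
  rw [LinearMap.sum_apply, LinearMap.sum_apply, map_sum]
  exact Finset.sum_congr rfl fun i _ => f.nat _ _

private theorem A009_ne (n : ℕ) : (cst 0 : Mo n 1) ≠ cst 1 := by
  intro h
  have h1 := congrArg (fun a : Mo n 1 => a 0) h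
  have h2 : (0 : Fin 2) = 1 := h1
  exact absurd h2 (by decide)

private noncomputable def A009_act (P : SV) {m n : ℕ} (f : Mo m n) :
    (Mo n 1 →₀ P.V n) →ₗ[ZMod 2] (Mo m 1 →₀ P.V m) :=
  (Finsupp.lmapDomain (P.V m) (ZMod 2) (fun a : Mo n 1 => a.comp f)) ∘ₗ
    (Finsupp.mapRange.linearMap (P.act f))

private theorem A009_act_single (P : SV) {m n : ℕ} (f : Mo m n) (a : Mo n 1) (x : P.V n) :
    A009_act P f (Finsupp.single a x) = Finsupp.single (a.comp f) (P.act f x) := by
  unfold A009_act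
  rw [LinearMap.comp_apply, Finsupp.mapRange.linearMap_apply, Finsupp.mapRange_single,
    Finsupp.lmapDomain_apply, Finsupp.mapDomain_single]

/-- chains of `Δ^1` tensor `P` -/
private noncomputable def A009_D (P : SV) : SV where
  V n := Mo n 1 →₀ P.V n
  act f := A009_act P f
  act_id {n} x := by
    induction x using Finsupp.induction_linear with
    | zero => rw [map_zero]
    | add x y hx hy => rw [map_add, hx, hy]
    | single a x =>
      rw [A009_act_single, P.act_id]
      rfl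
  act_comp f g x := by
    induction x using Finsupp.induction_linear with
    | zero => rw [map_zero, map_zero, map_zero]
    | add x y hx hy => rw [map_add, map_add, map_add, hx, hy]
    | single a x =>
      rw [A009_act_single, A009_act_single, A009_act_single, P.act_comp]
      rfl

private noncomputable def A009_sg (P : SV) (n : ℕ) (a : Mo n 1) : P.V n →ₗ[ZMod 2] (A009_D P).V n :=
  Finsupp.lsingle a

private noncomputable def A009_ev (P : SV) (n : ℕ) (a : Mo n 1) : (A009_D P).V n →ₗ[ZMod 2] P.V n :=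
  Finsupp.lapply a

private theorem A009_ev_same (P : SV) (n : ℕ) (a : Mo n 1) (x : P.V n) :
    A009_ev P n a (A009_sg P n a x) = x := by
  show (Finsupp.single a x) a = x
  exact Finsupp.single_eq_same

private theorem A009_ev_ne (P : SV) (n : ℕ) (a b : Mo n 1) (hab : a ≠ b) (x : P.V n) :
    A009_ev P n b (A009_sg P n a x) = 0 := by
  show (Finsupp.single a x) b = 0
  exact Finsupp.single_eq_of_ne hab.symm

private theorem A009_ev1 (P : SV) (n : ℕ) (x : P.V n) :
    A009_ev P n (cst 1) (A009_sg P n (cst 0) x) = 0 := A009_ev_ne P n _ _ (A009_ne n) x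

private theorem A009_ev0 (P : SV) (n : ℕ) (x : P.V n) :
    A009_ev P n (cst 0) (A009_sg P n (cst 1) x) = 0 := A009_ev_ne P n _ _ (A009_ne n).symm x

private theorem A009_act_sg (P : SV) {m n : ℕ} (f : Mo m n) (a : Mo n 1) (x : P.V n) :
    (A009_D P).act f (A009_sg P n a x) = A009_sg P m (a.comp f) (P.act f x) :=
  A009_act_single P f a x

private theorem A009_d_sg (P : SV) (n : ℕ) (i : Fin 2) (x : P.V (n + 1)) :
    (A009_D P).d n (A009_sg P (n + 1) (cst i) x) = A009_sg P n (cst i) (P.d n x) := by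
  unfold SV.d
  rw [LinearMap.sum_apply, LinearMap.sum_apply, map_sum]
  refine Finset.sum_congr rfl fun j _ => ?_
  rw [A009_act_sg]
  rfl

/-- the subobject of the two ends -/
private noncomputable def A009_C (P : SV) : SubV (A009_D P) where
  car n := LinearMap.range (A009_sg P n (cst 0)) ⊔ LinearMap.range (A009_sg P n (cst 1))
  closed {m n} f x hx := by
    rw [Submodule.mem_sup] at hx ⊢
    obtain ⟨y, ⟨u, rfl⟩, z, ⟨v, rfl⟩, rfl⟩ := hx
    refine ⟨A009_sg P m (cst 0) (P.act f u), ⟨_, rfl⟩, A009_sg P m (cst 1) (P.act f v), ⟨_, rfl⟩, ?_⟩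
    rw [map_add, A009_act_sg, A009_act_sg]
    rfl

private theorem A009_C_eq (P : SV) (n : ℕ) {x : (A009_D P).V n} (hx : x ∈ (A009_C P).car n) :
    x = A009_sg P n (cst 0) (A009_ev P n (cst 0) x) + A009_sg P n (cst 1) (A009_ev P n (cst 1) x) := by
  have hx' : x ∈ LinearMap.range (A009_sg P n (cst 0)) ⊔ LinearMap.range (A009_sg P n (cst 1)) := hx
  rw [Submodule.mem_sup] at hx'
  obtain ⟨y, ⟨u, rfl⟩, z, ⟨v, rfl⟩, rfl⟩ := hx'
  simp only [map_add, A009_ev_same, A009_ev1, A009_ev0, add_zero, zero_add]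

private theorem A009_sg_mem (P : SV) (n : ℕ) (u v : P.V n) :
    A009_sg P n (cst 0) u + A009_sg P n (cst 1) v ∈ (A009_C P).car n :=
  Submodule.mem_sup.2 ⟨_, ⟨u, rfl⟩, _, ⟨v, rfl⟩, rfl⟩

/-- the map on the two ends -/
private noncomputable def A009_f {P Q : SV} (f g : SVHom P Q) : SVHom (A009_C P).sv Q where
  app n := (f.app n ∘ₗ A009_ev P n (cst 0) + g.app n ∘ₗ A009_ev P n (cst 1)) ∘ₗ
    ((A009_C P).car n).subtype
  nat {m n} φ x := by
    show f.app m (A009_ev P m (cst 0) ((A009_D P).act φ x.1)) +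
      g.app m (A009_ev P m (cst 1) ((A009_D P).act φ x.1)) =
      Q.act φ (f.app n (A009_ev P n (cst 0) x.1) + g.app n (A009_ev P n (cst 1) x.1))
    have h1 := A009_C_eq P n x.2
    set u := A009_ev P n (cst 0) x.1
    set v := A009_ev P n (cst 1) x.1
    rw [h1]
    have h2 : (cst 0 : Mo n 1).comp φ = cst 0 := rfl
    have h3 : (cst 1 : Mo n 1).comp φ = cst 1 := rfl
    simp only [map_add, A009_act_sg, h2, h3, A009_ev_same, A009_ev1, A009_ev0, add_zero, zero_add,
      f.nat, g.nat]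

/-- sum over all simplices of `Δ^1` -/
private noncomputable def A009_S (P : SV) : SVHom (A009_D P) P where
  app n := Finsupp.lsum ℕ (fun _ : Mo n 1 => (LinearMap.id : P.V n →ₗ[ZMod 2] P.V n))
  nat {m n} φ x := by
    have key : ∀ x : Mo n 1 →₀ P.V n,
        Finsupp.lsum ℕ (fun _ : Mo m 1 => (LinearMap.id : P.V m →ₗ[ZMod 2] P.V m))
          (A009_act P φ x) =
        P.act φ (Finsupp.lsum ℕ (fun _ : Mo n 1 => (LinearMap.id : P.V n →ₗ[ZMod 2] P.V n)) x) := by
      intro x
      induction x using Finsupp.induction_linear with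
      | zero => simp only [map_zero]
      | add x y hx hy => simp only [map_add, hx, hy]
      | single a x =>
        rw [A009_act_single, Finsupp.lsum_single, Finsupp.lsum_single]
        rfl
    exact key x

private theorem A009_S_sg (P : SV) (n : ℕ) (a : Mo n 1) (x : P.V n) :
    (A009_S P).app n (A009_sg P n a x) = x := by
  show Finsupp.lsum ℕ (fun _ : Mo n 1 => (LinearMap.id : P.V n →ₗ[ZMod 2] P.V n))
    (Finsupp.single a x) = x
  rw [Finsupp.lsum_single]
  rfl

theorem lhtp_iff {P Q : SV} (f g : SVHom P Q) :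
    LHtp f g ↔ ∀ (n : ℕ), ∀ z ∈ P.Z n, f.app n z + g.app n z ∈ Q.B n := by
  constructor
  · rintro ⟨H, hf, hg⟩ n z hz
    obtain ⟨T, hT0, hT⟩ := lprism H
    cases n with
    | zero =>
      refine ⟨T 0 z, ?_⟩
      rw [hT0, hf, hg]
    | succ n =>
      refine ⟨T (n + 1) z, ?_⟩
      have hz' : P.d n z = 0 := hz
      rw [hT, hf, hg, hz', map_zero, add_zero]
  · intro h
    obtain ⟨G, hG⟩ := extL (A009_C P) (A009_f f g) (by
      intro n z hz
      set c0 := A009_ev P n (cst 0) ((A009_D P).d n z) with hc0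
      set c1 := A009_ev P n (cst 1) ((A009_D P).d n z) with hc1
      have h1 : (A009_D P).d n z = A009_sg P n (cst 0) c0 + A009_sg P n (cst 1) c1 :=
        A009_C_eq P n hz
      have h2 : P.d n ((A009_S P).app (n + 1) z) = c0 + c1 := by
        rw [← A009_d, h1, map_add, A009_S_sg, A009_S_sg]
      have h3 : c1 ∈ P.Z n := by
        cases n with
        | zero => trivial
        | succ n =>
          have h4 := SV.d_d (A009_D P) z
          rw [h1, map_add, A009_d_sg, A009_d_sg] at h4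
          have h5 := congrArg (A009_ev P n (cst 1)) h4
          rw [map_add, A009_ev_same, A009_ev_ne P n _ _ (A009_ne n), map_zero, zero_add] at h5
          exact h5
      have h6 : (A009_f f g).app n ⟨(A009_D P).d n z, hz⟩ = f.app n c0 + g.app n c1 := rfl
      rw [h6]
      have h7 : f.app n c0 + g.app n c1 = f.app n (c0 + c1) + (f.app n c1 + g.app n c1) := by
        rw [map_add]
        have h8 := two_eq_zero' (f.app n c1)
        calc f.app n c0 + g.app n c1 = f.app n c0 + (f.app n c1 + f.app n c1) + g.app n c1 := by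
              rw [h8, add_zero]
          _ = _ := by abel
      rw [h7]
      refine Submodule.add_mem _ ?_ (h n c1 h3)
      rw [← h2, A009_d]
      exact ⟨_, rfl⟩)
    have h0 : ∀ n (x : P.V n), A009_sg P n (cst 0) x ∈ (A009_C P).car n := fun n x => by
      have := A009_sg_mem P n x 0
      rwa [map_zero, add_zero] at this
    have h1 : ∀ n (x : P.V n), A009_sg P n (cst 1) x ∈ (A009_C P).car n := fun n x => by
      have := A009_sg_mem P n 0 x
      rwa [map_zero, zero_add] at this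
    refine ⟨⟨fun n a => G.app n ∘ₗ A009_sg P n a, ?_⟩, ?_, ?_⟩
    · intro m n φ a x
      show G.app m (A009_sg P m (a.comp φ) (P.act φ x)) = Q.act φ (G.app n (A009_sg P n a x))
      rw [← A009_act_sg, G.nat]
    · intro n x
      show G.app n (A009_sg P n (cst 0) x) = f.app n x
      rw [hG n ⟨_, h0 n x⟩]
      show f.app n (A009_ev P n (cst 0) (A009_sg P n (cst 0) x)) +
        g.app n (A009_ev P n (cst 1) (A009_sg P n (cst 0) x)) = f.app n x
      rw [A009_ev_same, A009_ev_ne P n _ _ (A009_ne n), map_zero, add_zero]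
    · intro n x
      show G.app n (A009_sg P n (cst 1) x) = g.app n x
      rw [hG n ⟨_, h1 n x⟩]
      show f.app n (A009_ev P n (cst 0) (A009_sg P n (cst 1) x)) +
        g.app n (A009_ev P n (cst 1) (A009_sg P n (cst 1) x)) = g.app n x
      rw [A009_ev_same, A009_ev_ne P n _ _ (A009_ne n).symm, map_zero, zero_add]

theorem LHtp.trans {P Q : SV} {f g h : SVHom P Q} (h1 : LHtp f g) (h2 : LHtp g h) :
    LHtp f h := by
  rw [lhtp_iff] at h1 h2 ⊢
  intro n z hz
  have h3 := Submodule.add_mem _ (h1 n z hz) (h2 n z hz)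
  have h4 := two_eq_zero' (g.app n z)
  have h5 : f.app n z + g.app n z + (g.app n z + h.app n z) = f.app n z + h.app n z := by
    calc f.app n z + g.app n z + (g.app n z + h.app n z)
        = f.app n z + h.app n z + (g.app n z + g.app n z) := by abel
      _ = _ := by rw [h4, add_zero]
  rwa [h5] at h3

private theorem A009_mz {Q : SV} {n : ℕ} {z : Q.V n} (hz : Q.Moore z) : z ∈ Q.NM n := by
  cases n with
  | zero => trivial
  | succ n =>
    rw [mem_nm_succ]
    intro i
    exact (moore_iff z).1 hz i.succ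

/-- Moore cycles -/
private def A009_M (Q : SV) (n : ℕ) : Submodule (ZMod 2) (Q.V n) where
  carrier := {z | Q.Moore z}
  add_mem' {a b} ha hb := by
    intro m f hf
    rw [map_add, ha m f hf, hb m f hf, add_zero]
  zero_mem' := by
    intro m f hf
    rw [map_zero]
  smul_mem' c x hx := by
    intro m f hf
    rw [map_smul, hx m f hf, smul_zero]

private theorem A009_f_mem {P Q : SV} (f : SVHom P Q) {n : ℕ} {z : P.V n} (hz : z ∈ P.Z n) :
    f.app n z ∈ Q.Z n := by
  cases n with
  | zero => trivial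
  | succ n =>
    have h1 : P.d n z = 0 := hz
    show Q.d n (f.app (n + 1) z) = 0
    rw [← A009_d, h1, map_zero]

private theorem A009_cls_eq {P : SV} {n : ℕ} {z z' : P.V n} (hz : z ∈ P.Z n) (hz' : z' ∈ P.Z n)
    (w : P.V (n + 1)) (h : z' = z + P.d n w) : P.cls z' hz' = P.cls z hz := by
  unfold SV.cls
  rw [Submodule.Quotient.eq]
  show z' - z ∈ P.B n
  rw [h, add_sub_cancel_left]
  exact ⟨w, rfl⟩

theorem exists_hom {P Q : SV} (φ : ∀ n, P.H n →ₗ[ZMod 2] Q.H n) :
    ∃ f : SVHom P Q, ∀ n (z : P.V n) (hz : z ∈ P.Z n),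
      ∃ hfz : f.app n z ∈ Q.Z n, Q.cls (f.app n z) hfz = φ n (P.cls z hz) := by
  classical
  -- the class map on normalised cycles, extended to all normalised elements
  have hr : ∀ n, ∃ r : P.NM n →ₗ[ZMod 2] P.H n, ∀ (z : P.V n) (hn : z ∈ P.NM n) (hz : z ∈ P.Z n),
      r ⟨z, hn⟩ = P.cls z hz := by
    intro n
    set ZN : Submodule (ZMod 2) (P.NM n) := Submodule.comap (P.NM n).subtype (P.Z n) with hZN
    obtain ⟨r, hr⟩ := LinearMap.exists_extend (p := ZN)
      ((Submodule.mkQ (Submodule.comap (P.Z n).subtype (P.B n))) ∘ₗ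
        (LinearMap.codRestrict (P.Z n) ((P.NM n).subtype ∘ₗ ZN.subtype) (fun x => x.2)))
    refine ⟨r, fun z hn hz => ?_⟩
    have h1 := LinearMap.congr_fun hr ⟨⟨z, hn⟩, hz⟩
    exact h1
  choose r hr using hr
  -- Moore representatives
  have hs : ∀ n, ∃ s : Q.H n →ₗ[ZMod 2] A009_M Q n, ∀ (c : Q.H n) (hz : (s c).1 ∈ Q.Z n),
      Q.cls (s c).1 hz = c := by
    intro n
    set q : A009_M Q n →ₗ[ZMod 2] Q.H n :=
      (Submodule.mkQ (Submodule.comap (Q.Z n).subtype (Q.B n))) ∘ₗ
        (LinearMap.codRestrict (Q.Z n) (A009_M Q n).subtype (fun x => Moore.mem_Z x.2)) with hq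
    have hq1 : LinearMap.range q = ⊤ := by
      rw [LinearMap.range_eq_top]
      intro c
      obtain ⟨⟨z, hz⟩, rfl⟩ := Submodule.Quotient.mk_surjective _ c
      obtain ⟨w, hw⟩ := exists_moore Q z hz
      refine ⟨⟨z + Q.d n w, hw⟩, ?_⟩
      exact A009_cls_eq hz (Moore.mem_Z hw) w rfl
    obtain ⟨s, hs⟩ := LinearMap.exists_rightInverse_of_surjective q hq1
    refine ⟨s, fun c hz => ?_⟩
    have h1 := LinearMap.congr_fun hs c
    exact h1
  choose s hs using hs
  set ψ : ∀ n, P.NM n →ₗ[ZMod 2] Q.NM n := fun n =>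
    (Submodule.inclusion (fun z (hz : z ∈ A009_M Q n) => A009_mz hz)) ∘ₗ
      (s n ∘ₗ (φ n ∘ₗ r n)) with hψ
  have hψv : ∀ n (x : P.NM n), ((ψ n x : Q.NM n) : Q.V n) = (s n (φ n (r n x))).1 := fun n x => rfl
  obtain ⟨f, hf⟩ := dk_exists ψ (by
    intro n x
    rw [hψv, hψv]
    have h1 : r n ⟨P.act (dlt 0) x.1, nm_face x.2⟩ = 0 := by
      have h2 : P.act (dlt 0) x.1 ∈ P.Z n := by
        rw [← d_nm x.2]
        cases n with
        | zero => trivial
        | succ n => exact SV.d_d P x.1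
      rw [hr n _ (nm_face x.2) h2]
      have h3 : P.cls (P.act (dlt 0) x.1) h2 = P.cls (0 : P.V n) (Submodule.zero_mem _) :=
        A009_cls_eq _ h2 x.1 (by rw [zero_add, d_nm x.2])
      rw [h3]
      rfl
    rw [h1, map_zero, map_zero]
    have h4 : Q.Moore (s (n + 1) (φ (n + 1) (r (n + 1) x))).1 :=
      (s (n + 1) (φ (n + 1) (r (n + 1) x))).2
    rw [(moore_iff _).1 h4 0]
    rfl)
  refine ⟨f, fun n z hz => ⟨A009_f_mem f hz, ?_⟩⟩
  obtain ⟨w, hw⟩ := exists_moore P z hz
  have hwZ : z + P.d n w ∈ P.Z n := Moore.mem_Z hw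
  have hwN : z + P.d n w ∈ P.NM n := A009_mz hw
  have h1 : P.cls (z + P.d n w) hwZ = P.cls z hz := A009_cls_eq hz hwZ w rfl
  have h2 : f.app n (z + P.d n w) = (s n (φ n (r n ⟨z + P.d n w, hwN⟩))).1 := by
    rw [← hψv]
    exact hf n ⟨z + P.d n w, hwN⟩
  have h3 : Q.cls (f.app n (z + P.d n w)) (A009_f_mem f hwZ) = Q.cls (f.app n z) (A009_f_mem f hz) :=
    A009_cls_eq _ _ (f.app (n + 1) w) (by rw [map_add, A009_d])
  rw [← h3, ← h1, ← hr n _ hwN hwZ]
  have h4 : (s n (φ n (r n ⟨z + P.d n w, hwN⟩))).1 ∈ Q.Z n := by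
    rw [← h2]
    exact A009_f_mem f hwZ
  have h5 := hs n (φ n (r n ⟨z + P.d n w, hwN⟩)) h4
  rw [← h5]
  congr 1

end MM

end

/-! ### from `Lib_MP_33f7bb_d.A007` -/

section

/-!
# A0-07: extension of simplicial maps into simplicial vector spaces

`extP_sv_gen` is `extL` for the free simplicial vector spaces on `A ≤ C`: take
`D = (linSub C).sv`, the subobject of chains supported in `A`, and the linear extension
of `f` (a linear simplicial map on chains supported in `A` by `linExt_act`).  The extension `g n x` is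
the value on the chain `single x 1` for `x ∈ C`, and `0` for `x ∉ C`.
`extP_sv`: for an acyclic pair, `z` relative cycle of degree `n + 1`: `z = a + dif w`, `a` supported in
`A`, so `dif z = dif a` and `linExt f (dif z) = d (linExt f a)`.
`extP_sv_one`: `z = a + dif w + ε e`, so `dif z = dif a + ε dif e`.  Converse: if `g` extends `f` then
`linExt f (dif e) = linExt g (dif e) = d (linExt g e)`.
-/

namespace MM

private theorem A007_d_val {P : SS} (C : Sub P) {n : ℕ} (z : (linSub C).sv.V (n + 1)) :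
    (((linSub C).sv.d n z : (linSub C).sv.V n) : Ch P n) = dif z.1 := by
  have h : (((linSub C).sv.d n z : (linSub C).sv.V n) : Ch P n) = (lin P).d n z.1 := by
    simp only [SV.d, LinearMap.sum_apply]
    rw [← Submodule.subtype_apply, map_sum]
    rfl
  rw [h]
  exact lin_d z.1

private noncomputable def A007_sub {P : SS} (A C : Sub P) : SubV (linSub C).sv where
  car n := Submodule.comap ((linSub C).car n).subtype ((linSub A).car n)
  closed f _ hx := (linSub A).closed f hx

private noncomputable def A007_hom (W : SV) {P : SS} {A : Sub P} (C : Sub P) (f : Fn P W.ss)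
    (hf : NatOn A f) : SVHom (A007_sub A C).sv W where
  app n := (linExt f n).comp (((linSub C).car n).subtype.comp ((A007_sub A C).car n).subtype)
  nat g x := linExt_act hf g x.2

theorem extP_sv_gen (W : SV) {P : SS} {A C : Sub P} (hAC : A ≤ C) (f : Fn P W.ss)
    (hf : NatOn A f)
    (h : ∀ (n : ℕ) (z : Ch P (n + 1)), SuppIn C z → SuppIn A (dif z) →
      linExt f n (dif z) ∈ W.B n) :
    ∃ g : Fn P W.ss, NatOn C g ∧ ∀ n, ∀ x ∈ A.car n, g n x = f n x := by
  obtain ⟨g, hg⟩ := extL (A007_sub A C) (A007_hom W C f hf) (fun n z hz => by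
    have h1 : SuppIn A (dif z.1) := by
      rw [suppIn_iff, ← A007_d_val C z]
      exact hz
    have h2 := h n z.1 z.2 h1
    rw [← A007_d_val C z] at h2
    exact h2)
  classical
  have hs : ∀ (n : ℕ) (x : P.S n), x ∈ C.car n →
      (Finsupp.single x 1 : Ch P n) ∈ (linSub C).car n := fun n x hx => SuppIn.single hx 1
  refine ⟨fun n x => if hx : x ∈ C.car n then g.app n ⟨Finsupp.single x 1, hs n x hx⟩ else 0,
    ?_, ?_⟩
  · intro m n φ x hx
    have hx' : P.act φ x ∈ C.car m := C.closed φ hx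
    show (if hx : P.act φ x ∈ C.car m then g.app m ⟨Finsupp.single (P.act φ x) 1, hs m _ hx⟩
      else 0) = W.act φ (if hx : x ∈ C.car n then g.app n ⟨Finsupp.single x 1, hs n x hx⟩ else 0)
    rw [dif_pos hx, dif_pos hx', ← g.nat]
    congr 1
    apply Subtype.ext
    show Finsupp.single (P.act φ x) 1 = Finsupp.mapDomain (P.act φ) (Finsupp.single x 1)
    rw [Finsupp.mapDomain_single]
  · intro n x hx
    have hx' : x ∈ C.car n := hAC n hx
    show (if hx : x ∈ C.car n then g.app n ⟨Finsupp.single x 1, hs n x hx⟩ else 0) = f n x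
    rw [dif_pos hx']
    have h1 := hg n ⟨⟨Finsupp.single x 1, hs n x hx'⟩, SuppIn.single hx 1⟩
    refine h1.trans ?_
    show linExt f n (Finsupp.single x 1) = f n x
    rw [linExt_single, one_smul]

private theorem A007_mem (W : SV) {P : SS} {A : Sub P} (f : Fn P W.ss) (hf : NatOn A f) {n : ℕ}
    {z : Ch P (n + 1)} {w : Ch P (n + 2)} (h : SuppIn A (z + dif w)) :
    linExt f n (dif z) ∈ W.B n := by
  have h1 : dif z = dif (z + dif w) := by rw [dif_add, dif_dif, add_zero]
  rw [h1, linExt_dif hf h]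
  exact LinearMap.mem_range_self _ _

theorem extP_sv (W : SV) {P : SS} {A C : Sub P} (hAC : A ≤ C) (h : Acyc A C) :
    ExtP W.ss A C := by
  intro f hf
  refine extP_sv_gen W hAC f hf fun n z hz hz' => ?_
  obtain ⟨w, -, hw⟩ := h (n + 1) z hz hz'
  exact A007_mem W f hf hw

theorem extP_sv_one (W : SV) {P : SS} {A C : Sub P} (hAC : A ≤ C) {n : ℕ} {e : Ch P (n + 1)}
    (he : GenBy A C e) (f : Fn P W.ss) (hf : NatOn A f) (hb : linExt f n (dif e) ∈ W.B n) :
    ∃ g : Fn P W.ss, NatOn C g ∧ ∀ n, ∀ x ∈ A.car n, g n x = f n x := by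
  refine extP_sv_gen W hAC f hf fun m z hz hz' => ?_
  by_cases hmn : m = n
  · subst hmn
    obtain ⟨w, -, hw⟩ := he.2.2.1 z hz hz'
    rcases hw with hw | hw
    · exact A007_mem W f hf hw
    · have h1 : dif z = dif (z + dif w + e) + dif e := by
        rw [dif_add, dif_add, dif_dif, add_zero, add_assoc, two_eq_zero' (dif e), add_zero]
      rw [h1, map_add, linExt_dif hf hw]
      exact (W.B m).add_mem (LinearMap.mem_range_self _ _) hb
  · obtain ⟨w, -, hw⟩ := he.2.2.2 (m + 1) (fun h => hmn (Nat.succ_injective h)) z hz hz'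
    exact A007_mem W f hf hw

theorem linExt_dif_mem_B (W : SV) {P : SS} {A C : Sub P} {n : ℕ} {e : Ch P (n + 1)}
    (heC : SuppIn C e) (heA : SuppIn A (dif e)) (f g : Fn P W.ss) (hg : NatOn C g)
    (h : ∀ n, ∀ x ∈ A.car n, g n x = f n x) : linExt f n (dif e) ∈ W.B n := by
  have h1 : linExt f n (dif e) = linExt g n (dif e) :=
    (linExt_congr (W := W) (h n) heA).symm
  rw [h1, linExt_dif hg heC]
  exact LinearMap.mem_range_self _ _

end MM

end

/-! ### from `Lib_MP_33f7bb_d.A020` -/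

section

/-!
# A0-20: calculus of acyclic pairs

All statements are elementary diagram chases with chains.  `acyc_iff_quo`: the quotient of the chains
on `C` by the chains on `A` is acyclic (`(linSub A)` inside `(linSub C).sv`; stated through an auxiliary
subobject).  `acyc_relIso`: chains on `C` mod chains on `A` are isomorphic under a relative isomorphism.
`acyc_of_contraction`: prism formula: `z + (constant part) = dif T z + T dif z`.
`acyc_horn`: contraction of a horn (and of `Δ^k`) to the vertex `i`: for `i = 0` the homotopy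
`(ε, β) ↦ (t ↦ if ε t = 0 then 0 else β t)`; for general `i` use the two homotopies through
`max`/`min`: `β ↦ max(β, i)` and then contract `{i,...,k}` to `i` (both keep the faces containing `i`... the
set of values grows at most by `i`, so the horn at `i` is preserved).
-/

namespace MM

private theorem A020_relCyc_mono {P : SS} {A B : Sub P} (h : A ≤ B) {n : ℕ} {z : Ch P n}
    (hz : RelCyc A z) : RelCyc B z := by
  cases n with
  | zero => trivial
  | succ n => exact SuppIn.mono h hz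

private theorem A020_relCyc_add_dif {P : SS} {A : Sub P} {n : ℕ} {z : Ch P n}
    (hz : RelCyc A z) (w : Ch P (n + 1)) : RelCyc A (z + dif w) := by
  cases n with
  | zero => trivial
  | succ n =>
    show SuppIn A (dif (z + dif w))
    rw [dif_add, dif_dif, add_zero]
    exact hz

private theorem A020_relCyc_dif {P : SS} (A : Sub P) {n : ℕ} (z : Ch P (n + 1)) :
    RelCyc A (dif z) := by
  cases n with
  | zero => trivial
  | succ n =>
    show SuppIn A (dif (dif z))
    rw [dif_dif]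
    exact SuppIn.zero _

/-- splitting a chain along a subcomplex -/
private theorem A020_split {P : SS} {A B : Sub P} {n : ℕ} {z : Ch P n}
    (hz : SuppIn (A ⊔ B) z) : ∃ a b : Ch P n, SuppIn A a ∧ SuppIn B b ∧ z = a + b := by
  classical
  refine ⟨z.filter (fun x => x ∈ A.car n), z.filter (fun x => ¬ x ∈ A.car n), ?_, ?_, ?_⟩
  · intro x hx
    rw [Finsupp.support_filter, Finset.mem_filter] at hx
    exact hx.2
  · intro x hx
    rw [Finsupp.support_filter, Finset.mem_filter] at hx
    exact (hz x hx.1).resolve_left hx.2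
  · exact (Finsupp.filter_add_filter_not z _).symm

private theorem A020_cancel {M : Type*} [AddCommGroup M] [Module (ZMod 2) M] (a b : M) :
    a + b + b = a := by
  rw [add_assoc, two_eq_zero', add_zero]

theorem Acyc.trans {P : SS} {A B C : Sub P} (hAB : A ≤ B) (hBC : B ≤ C) (h : Acyc A B)
    (h' : Acyc B C) : Acyc A C := by
  intro n z hz hc
  obtain ⟨w, hw, hw'⟩ := h' n z hz (A020_relCyc_mono hAB hc)
  obtain ⟨v, hv, hv'⟩ := h n (z + dif w) hw' (A020_relCyc_add_dif hc w)
  refine ⟨w + v, hw.add (hv.mono hBC), ?_⟩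
  rw [dif_add, ← add_assoc]
  exact hv'

theorem Acyc.of_left {P : SS} {A B C : Sub P} (hAB : A ≤ B) (hBC : B ≤ C) (h : Acyc A B)
    (h' : Acyc A C) : Acyc B C := by
  intro n z hz hc
  have hb : ∃ b : Ch P n, SuppIn B b ∧ RelCyc A (z + b) := by
    cases n with
    | zero => exact ⟨0, SuppIn.zero _, trivial⟩
    | succ n =>
      obtain ⟨b, hb, hb'⟩ := h n (dif z) hc (A020_relCyc_dif A z)
      exact ⟨b, hb, by show SuppIn A (dif (z + b)); rw [dif_add]; exact hb'⟩
  obtain ⟨b, hb, hb'⟩ := hb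
  obtain ⟨w, hw, hw'⟩ := h' n (z + b) (hz.add (hb.mono hBC)) hb'
  refine ⟨w, hw, ?_⟩
  have h2 : z + dif w = (z + b + dif w) + b := by
    rw [add_right_comm z b, A020_cancel]
  rw [h2]
  exact (hw'.mono hAB).add hb

theorem Acyc.of_right {P : SS} {A B C : Sub P} (hAB : A ≤ B) (hBC : B ≤ C) (h : Acyc A C)
    (h' : Acyc B C) : Acyc A B := by
  intro n z hz hc
  obtain ⟨w, hw, hw'⟩ := h n z (hz.mono hBC) hc
  have h1 : SuppIn B (dif w) := by
    have h2 : dif w = (z + dif w) + z := by rw [add_comm z, A020_cancel]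
    rw [h2]
    exact (hw'.mono hAB).add hz
  obtain ⟨v, _, hv'⟩ := h' (n + 1) w hw h1
  refine ⟨w + dif v, hv', ?_⟩
  rw [dif_add, dif_dif, add_zero]
  exact hw'

theorem Acyc.refl {P : SS} (A : Sub P) : Acyc A A := by
  intro n z hz _
  refine ⟨0, SuppIn.zero _, ?_⟩
  rw [dif_zero, add_zero]
  exact hz

theorem Acyc.sup {P : SS} {A B : Sub P} (h : Acyc (A ⊓ B) B) : Acyc A (A ⊔ B) := by
  intro n z hz hc
  obtain ⟨a, b, ha, hb, rfl⟩ := A020_split hz
  have h1 : RelCyc (A ⊓ B) b := by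
    cases n with
    | zero => trivial
    | succ n =>
      have hc' : SuppIn A (dif (a + b)) := hc
      have h2 : dif b = dif (a + b) + dif a := by
        rw [dif_add, add_comm (dif a), A020_cancel]
      have h3 : SuppIn A (dif b) := by
        rw [h2]
        exact hc'.add ha.dif
      exact fun x hx => ⟨h3 x hx, hb.dif x hx⟩
  obtain ⟨w, hw, hw'⟩ := h n b hb h1
  refine ⟨w, hw.mono (Sub.le_sup_right' A B), ?_⟩
  rw [add_assoc]
  exact ha.add fun x hx => (hw' x hx).1

theorem Acyc.of_sup {P : SS} {A B : Sub P} (h : Acyc A (A ⊔ B)) : Acyc (A ⊓ B) B := by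
  intro n z hz hc
  obtain ⟨w, hw, hw'⟩ := h n z (hz.mono (Sub.le_sup_right' A B))
    (A020_relCyc_mono (A := A ⊓ B) (B := A) (fun _ _ hx => hx.1) hc)
  obtain ⟨a, b, ha, hb, rfl⟩ := A020_split hw
  refine ⟨b, hb, ?_⟩
  have h1 : z + dif b = (z + dif (a + b)) + dif a := by
    rw [dif_add, add_comm (dif a), ← add_assoc, A020_cancel]
  have h2 : SuppIn A (z + dif b) := by
    rw [h1]
    exact hw'.add ha.dif
  have h3 : SuppIn B (z + dif b) := hz.add hb.dif
  exact fun x hx => ⟨h2 x hx, h3 x hx⟩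

private theorem A020_fin {P : SS} {ι : Type} [Nonempty ι] (C : ι → Sub P)
    (hdir : ∀ i j, ∃ k, C i ≤ C k ∧ C j ≤ C k) {n : ℕ} (z : Ch P n)
    (hz : SuppIn (Sub.iUn C) z) : ∃ i, SuppIn (C i) z := by
  classical
  have key : ∀ s : Finset (P.S n), (∀ x ∈ s, x ∈ (Sub.iUn C).car n) →
      ∃ i, ∀ x ∈ s, x ∈ (C i).car n := by
    intro s
    induction s using Finset.induction_on with
    | empty => exact fun _ => ⟨Classical.arbitrary ι, fun x hx => by simp at hx⟩
    | insert a s _ ih =>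
      intro h
      obtain ⟨i, hi⟩ := ih fun x hx => h x (Finset.mem_insert_of_mem hx)
      obtain ⟨j, hj⟩ := Set.mem_iUnion.1 (h a (Finset.mem_insert_self a s))
      obtain ⟨k, hk, hk'⟩ := hdir i j
      refine ⟨k, fun x hx => ?_⟩
      rcases Finset.mem_insert.1 hx with rfl | hx
      · exact hk' n hj
      · exact hk n (hi x hx)
  exact key z.support hz

/-- directed unions -/
theorem Acyc.iUn {P : SS} {ι : Type} [Nonempty ι] (A C : ι → Sub P)
    (hdir : ∀ i j, ∃ k, A i ≤ A k ∧ A j ≤ A k ∧ C i ≤ C k ∧ C j ≤ C k)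
    (h : ∀ i, ∃ j, A i ≤ A j ∧ C i ≤ C j ∧ Acyc (A j) (C j)) (hAC : ∀ i, A i ≤ C i) :
    Acyc (Sub.iUn A) (Sub.iUn C) := by
  intro n z hz hc
  obtain ⟨i, hi⟩ := A020_fin C (fun i j => by
    obtain ⟨k, _, _, h3, h4⟩ := hdir i j
    exact ⟨k, h3, h4⟩) z hz
  have hk : ∃ k, SuppIn (C k) z ∧ RelCyc (A k) z := by
    cases n with
    | zero => exact ⟨i, hi, trivial⟩
    | succ n =>
      obtain ⟨j, hj⟩ := A020_fin A (fun i j => by
        obtain ⟨k, h1, h2, _, _⟩ := hdir i j
        exact ⟨k, h1, h2⟩) (dif z) hc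
      obtain ⟨k, _, h2, h3, _⟩ := hdir i j
      exact ⟨k, hi.mono h3, hj.mono h2⟩
  obtain ⟨k, hk, hk'⟩ := hk
  obtain ⟨j, h1, h2, h3⟩ := h k
  obtain ⟨w, hw, hw'⟩ := h3 n z (hk.mono h2) (A020_relCyc_mono h1 hk')
  exact ⟨w, hw.mono fun m x hx => Set.mem_iUnion.2 ⟨j, hx⟩,
    hw'.mono fun m x hx => Set.mem_iUnion.2 ⟨j, hx⟩⟩

private theorem A020_suppIn_map {P P' : SS} {n : ℕ} (g : P.S n → P'.S n) {C : Sub P}
    {C' : Sub P'} (h : ∀ x ∈ C.car n, g x ∈ C'.car n) {z : Ch P n} (hz : SuppIn C z) :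
    SuppIn C' (z.mapDomain g : Ch P' n) := by
  classical
  intro y hy
  obtain ⟨x, hx, rfl⟩ := Finset.mem_image.1 (Finsupp.mapDomain_support hy)
  exact h x (hz x hx)

private theorem A020_dif_map {P P' : SS} (φ : Hom P P') {n : ℕ} (z : Ch P (n + 1)) :
    dif (z.mapDomain (φ.app (n + 1)) : Ch P' (n + 1)) = (dif z).mapDomain (φ.app n) := by
  rw [dif, dif, Finsupp.mapDomain_finsetSum]
  refine Finset.sum_congr rfl fun i _ => ?_
  rw [← Finsupp.mapDomain_comp, ← Finsupp.mapDomain_comp]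
  congr 1
  funext x
  exact (φ.nat (dlt i) x).symm

private theorem A020_reflect {P P' : SS} (φ : Hom P P') {A C : Sub P} {A' : Sub P'}
    (hpre : ∀ n, ∀ x ∈ C.car n, (φ.app n x ∈ A'.car n ↔ x ∈ A.car n))
    (hinj : ∀ n, ∀ x ∈ C.car n, ∀ y ∈ C.car n, x ∉ A.car n → y ∉ A.car n →
      φ.app n x = φ.app n y → x = y) {n : ℕ} {z : Ch P n} (hz : SuppIn C z)
    (h : SuppIn A' (z.mapDomain (φ.app n) : Ch P' n)) : SuppIn A z := by
  classical
  intro x hx
  by_contra hxA
  have hxC := hz x hx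
  have hx' : φ.app n x ∉ A'.car n := fun h => hxA ((hpre n x hxC).1 h)
  apply hx'
  apply h
  rw [Finsupp.mem_support_iff]
  have h1 : (z.mapDomain (φ.app n) : Ch P' n) (φ.app n x) = z x := by
    rw [Finsupp.mapDomain, Finsupp.sum_apply, Finsupp.sum]
    rw [Finset.sum_eq_single x]
    · simp
    · intro y hy hyx
      rw [Finsupp.single_apply, if_neg]
      intro hxy
      apply hyx
      refine hinj n y (hz y hy) x hxC (fun hyA => hx' ?_) hxA hxy
      rw [← hxy]
      exact (hpre n y (hz y hy)).2 hyA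
    · intro hx0
      exact absurd hx hx0
  rw [h1]
  exact Finsupp.mem_support_iff.1 hx

private theorem A020_lift {P P' : SS} (φ : Hom P P') {C : Sub P} {A' C' : Sub P'}
    (hsurj : ∀ n, ∀ y ∈ C'.car n, y ∉ A'.car n → ∃ x ∈ C.car n, φ.app n x = y) {n : ℕ}
    (z : Ch P' n) (hz : SuppIn C' z) :
    ∃ w : Ch P n, SuppIn C w ∧ SuppIn A' (w.mapDomain (φ.app n) + z) := by
  classical
  induction z using Finsupp.induction with
  | zero =>
    refine ⟨0, SuppIn.zero _, ?_⟩
    rw [Finsupp.mapDomain_zero, add_zero]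
    exact SuppIn.zero _
  | single_add a b f ha hb ih =>
    have hs : (Finsupp.single a b + f : Ch P' n).support = insert a f.support := by
      rw [Finsupp.support_single_add ha hb, Finset.cons_eq_insert]
    have haC : a ∈ C'.car n := hz a (by rw [hs]; exact Finset.mem_insert_self _ _)
    obtain ⟨w, hw, hw'⟩ := ih fun x hx => hz x (by rw [hs]; exact Finset.mem_insert_of_mem hx)
    by_cases haA : a ∈ A'.car n
    · refine ⟨w, hw, ?_⟩
      rw [add_left_comm]
      exact (SuppIn.single haA b).add hw'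
    · obtain ⟨x, hx, rfl⟩ := hsurj n a haC haA
      refine ⟨Finsupp.single x b + w, (SuppIn.single hx b).add hw, ?_⟩
      rw [Finsupp.mapDomain_add, Finsupp.mapDomain_single]
      have h1 : Finsupp.single (φ.app n x) b + Finsupp.mapDomain (φ.app n) w +
          (Finsupp.single (φ.app n x) b + f) = (Finsupp.mapDomain (φ.app n) w + f) := by
        rw [add_add_add_comm, two_eq_zero', zero_add]
      rw [h1]
      exact hw'

/-- relative isomorphisms -/
theorem acyc_relIso {P P' : SS} (φ : Hom P P') {A C : Sub P} {A' C' : Sub P'} (hA : A ≤ C)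
    (hA' : A' ≤ C') (hmap : ∀ n, ∀ x ∈ C.car n, φ.app n x ∈ C'.car n)
    (hpre : ∀ n, ∀ x ∈ C.car n, (φ.app n x ∈ A'.car n ↔ x ∈ A.car n))
    (hinj : ∀ n, ∀ x ∈ C.car n, ∀ y ∈ C.car n, x ∉ A.car n → y ∉ A.car n →
      φ.app n x = φ.app n y → x = y)
    (hsurj : ∀ n, ∀ y ∈ C'.car n, y ∉ A'.car n → ∃ x ∈ C.car n, φ.app n x = y) :
    Acyc A C ↔ Acyc A' C' := by
  constructor
  · intro h n z hz hc
    obtain ⟨y, hy, hy'⟩ := A020_lift φ hsurj z hz
    have h1 : RelCyc A y := by
      cases n with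
      | zero => trivial
      | succ n =>
        have hc' : SuppIn A' (dif z) := hc
        show SuppIn A (dif y)
        refine A020_reflect φ hpre hinj hy.dif ?_
        rw [← A020_dif_map]
        have h2 : dif (Finsupp.mapDomain (φ.app (n + 1)) y : Ch P' (n + 1)) =
            dif (Finsupp.mapDomain (φ.app (n + 1)) y + z) + dif z := by
          rw [dif_add, A020_cancel]
        rw [h2]
        exact hy'.dif.add hc'
    obtain ⟨w, hw, hw'⟩ := h n y hy h1
    refine ⟨w.mapDomain (φ.app (n + 1)), A020_suppIn_map _ (hmap (n + 1)) hw, ?_⟩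
    have h3 : SuppIn A' ((y + dif w).mapDomain (φ.app n) : Ch P' n) :=
      A020_suppIn_map _ (fun x hx => (hpre n x (hA n hx)).2 hx) hw'
    have h4 : z + dif (Finsupp.mapDomain (φ.app (n + 1)) w : Ch P' (n + 1)) =
        (y + dif w).mapDomain (φ.app n) + (Finsupp.mapDomain (φ.app n) y + z) := by
      rw [A020_dif_map, Finsupp.mapDomain_add, add_comm (Finsupp.mapDomain (φ.app n) y),
        add_assoc, ← add_assoc (Finsupp.mapDomain (φ.app n) y), two_eq_zero', zero_add, add_comm]
    rw [h4]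
    exact h3.add hy'
  · intro h n z hz hc
    have h1 : RelCyc A' (z.mapDomain (φ.app n) : Ch P' n) := by
      cases n with
      | zero => trivial
      | succ n =>
        have hc' : SuppIn A (dif z) := hc
        show SuppIn A' (dif _)
        rw [A020_dif_map]
        exact A020_suppIn_map _ (fun x hx => (hpre n x (hA n hx)).2 hx) hc'
    obtain ⟨w, hw, hw'⟩ := h n _ (A020_suppIn_map _ (hmap n) hz) h1
    obtain ⟨y, hy, hy'⟩ := A020_lift φ hsurj w hw
    refine ⟨y, hy, ?_⟩
    refine A020_reflect φ hpre hinj (hz.add hy.dif) ?_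
    have h2 : Finsupp.mapDomain (φ.app n) (z + dif y) =
        (Finsupp.mapDomain (φ.app n) z + dif w) +
          dif (Finsupp.mapDomain (φ.app (n + 1)) y + w) := by
      rw [dif_add, A020_dif_map, Finsupp.mapDomain_add, add_comm (Finsupp.mapDomain _ (dif y)),
        ← add_assoc, A020_cancel]
    rw [h2]
    exact hw'.add hy'.dif

/-- chains on `A` inside the chains on `C` -/
noncomputable def linSub2 {P : SS} (A C : Sub P) : SubV (linSub C).sv where
  car n := Submodule.comap ((linSub C).car n).subtype ((linSub A).car n)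
  closed f _ hx := (linSub A).closed f hx

private theorem A020_d_val {P : SS} (C : Sub P) {n : ℕ} (z : (linSub C).sv.V (n + 1)) :
    (((linSub C).sv.d n z : (linSub C).sv.V n) : Ch P n) = dif z.1 := by
  have h : (((linSub C).sv.d n z : (linSub C).sv.V n) : Ch P n) = (lin P).d n z.1 := by
    simp only [SV.d, LinearMap.sum_apply]
    rw [← Submodule.subtype_apply, map_sum]
    rfl
  rw [h]
  exact lin_d z.1

private theorem A020_d_mk {W : SV} (D : SubV W) {n : ℕ} (z : W.V (n + 1)) :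
    D.quo.d n ((D.car (n + 1)).mkQ z) = (D.car n).mkQ (W.d n z) := by
  simp only [SV.d, LinearMap.sum_apply, map_sum]
  exact Finset.sum_congr rfl fun i _ => (D.proj.nat (dlt i) z).symm

private theorem A020_mk_mem_B {P : SS} (A C : Sub P) {n : ℕ} (z : (linSub C).sv.V n) :
    ((linSub2 A C).car n).mkQ z ∈ (linSub2 A C).quo.B n ↔
      ∃ w : Ch P (n + 1), SuppIn C w ∧ SuppIn A (z.1 + dif w) := by
  constructor
  · rintro ⟨w', hw'⟩
    obtain ⟨w, rfl⟩ := Submodule.mkQ_surjective _ w'
    refine ⟨w.1, w.2, ?_⟩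
    rw [A020_d_mk, Submodule.mkQ_apply, Submodule.mkQ_apply, Submodule.Quotient.eq, sub_eq'] at hw'
    have h1 : ((linSub C).sv.d n w + z : (linSub C).sv.V n).1 ∈ (linSub A).car n := hw'
    have h2 : ((linSub C).sv.d n w + z : (linSub C).sv.V n).1 = z.1 + dif w.1 := by
      rw [← A020_d_val C w, add_comm]
      rfl
    rw [suppIn_iff, ← h2]
    exact h1
  · rintro ⟨w, hw, hw'⟩
    refine ⟨((linSub2 A C).car (n + 1)).mkQ ⟨w, hw⟩, ?_⟩
    rw [A020_d_mk, Submodule.mkQ_apply, Submodule.mkQ_apply, Submodule.Quotient.eq, sub_eq']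
    show ((linSub C).sv.d n ⟨w, hw⟩ + z : (linSub C).sv.V n).1 ∈ (linSub A).car n
    have h2 : ((linSub C).sv.d n ⟨w, hw⟩ + z : (linSub C).sv.V n).1 = z.1 + dif w := by
      rw [← A020_d_val C ⟨w, hw⟩, add_comm]
      rfl
    rw [h2, ← suppIn_iff]
    exact hw'

private theorem A020_mk_mem_Z {P : SS} (A C : Sub P) {n : ℕ} (z : (linSub C).sv.V n) :
    ((linSub2 A C).car n).mkQ z ∈ (linSub2 A C).quo.Z n ↔ RelCyc A z.1 := by
  cases n with
  | zero => exact ⟨fun _ => trivial, fun _ => trivial⟩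
  | succ n =>
    show _ = _ ↔ SuppIn A (dif z.1)
    rw [A020_d_mk, Submodule.mkQ_apply, Submodule.Quotient.mk_eq_zero, suppIn_iff,
      ← A020_d_val C z]
    exact Iff.rfl

theorem acyc_iff_quo {P : SS} {A C : Sub P} (hA : A ≤ C) :
    Acyc A C ↔ (linSub2 A C).quo.Acyclic := by
  constructor
  · intro h n z' hz'
    obtain ⟨z, rfl⟩ := Submodule.mkQ_surjective _ z'
    exact (A020_mk_mem_B A C z).2 (h n z.1 z.2 ((A020_mk_mem_Z A C z).1 hz'))
  · intro h n z hz hc
    exact (A020_mk_mem_B A C ⟨z, hz⟩).1 (h n _ ((A020_mk_mem_Z A C ⟨z, hz⟩).2 hc))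

private theorem A020_map_id {P : SS} {C : Sub P} {n : ℕ} (g : P.S n → P.S n)
    (h : ∀ x ∈ C.car n, g x = x) {z : Ch P n} (hz : SuppIn C z) : z.mapDomain g = z := by
  calc z.mapDomain g = z.mapDomain _root_.id :=
        Finsupp.mapDomain_congr fun x hx => h x (hz x hx)
    _ = z := Finsupp.mapDomain_id

/-- a homotopy from the identity of `C` to a map into `A`, constant (or staying in `A`) on `A` -/
theorem acyc_of_deformation {P : SS} {A C : Sub P} (hA : A ≤ C) (H : Hom ((Del 1).prod P) P)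
    (h0 : ∀ n, ∀ x ∈ C.car n, H.app n (cst 0, x) = x)
    (h1 : ∀ n, ∀ x ∈ C.car n, H.app n (cst 1, x) ∈ A.car n)
    (hC : ∀ n a, ∀ x ∈ C.car n, H.app n (a, x) ∈ C.car n)
    (hA' : ∀ n a, ∀ x ∈ A.car n, H.app n (a, x) ∈ A.car n) : Acyc A C := by
  obtain ⟨T, hT0, hT, hTs⟩ := prism H
  intro n z hz hc
  refine ⟨T n z, hTs C C hC n z hz, ?_⟩
  cases n with
  | zero =>
    rw [hT0, A020_map_id _ (h0 0) hz, ← add_assoc, two_eq_zero', zero_add]
    exact A020_suppIn_map _ (h1 0) hz
  | succ n =>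
    rw [hT, A020_map_id _ (h0 (n + 1)) hz, ← add_assoc, ← add_assoc, two_eq_zero', zero_add]
    exact (A020_suppIn_map _ (h1 (n + 1)) hz).add (hTs A A hA' n _ hc)

/-- the same with the ends exchanged -/
theorem acyc_of_deformation' {P : SS} {A C : Sub P} (hA : A ≤ C) (H : Hom ((Del 1).prod P) P)
    (h0 : ∀ n, ∀ x ∈ C.car n, H.app n (cst 1, x) = x)
    (h1 : ∀ n, ∀ x ∈ C.car n, H.app n (cst 0, x) ∈ A.car n)
    (hC : ∀ n a, ∀ x ∈ C.car n, H.app n (a, x) ∈ C.car n)
    (hA' : ∀ n a, ∀ x ∈ A.car n, H.app n (a, x) ∈ A.car n) : Acyc A C := by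
  obtain ⟨T, hT0, hT, hTs⟩ := prism H
  intro n z hz hc
  refine ⟨T n z, hTs C C hC n z hz, ?_⟩
  cases n with
  | zero =>
    rw [hT0, A020_map_id _ (h0 0) hz, add_left_comm, two_eq_zero', add_zero]
    exact A020_suppIn_map _ (h1 0) hz
  | succ n =>
    rw [hT, A020_map_id _ (h0 (n + 1)) hz, add_right_comm, add_left_comm, two_eq_zero', add_zero]
    exact (A020_suppIn_map _ (h1 (n + 1)) hz).add (hTs A A hA' n _ hc)

/-- the augmentation -/
private noncomputable def A020_eps {P : SS} (n : ℕ) : Ch P n →ₗ[ZMod 2] ZMod 2 :=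
  Finsupp.linearCombination (ZMod 2) (fun _ => (1 : ZMod 2))

private theorem A020_eps_single {P : SS} {n : ℕ} (x : P.S n) (c : ZMod 2) :
    A020_eps n (Finsupp.single x c : Ch P n) = c := by
  simp [A020_eps]

private theorem A020_eps_map {P P' : SS} {m n : ℕ} (g : P.S n → P'.S m) (z : Ch P n) :
    A020_eps m (z.mapDomain g : Ch P' m) = A020_eps n z := by
  rw [A020_eps, Finsupp.linearCombination_mapDomain]
  rfl

private theorem A020_map_const {P P' : SS} {m n : ℕ} (y : P'.S m) (z : Ch P n) :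
    (z.mapDomain (fun _ => y) : Ch P' m) = Finsupp.single y (A020_eps n z) := by
  induction z using Finsupp.induction_linear with
  | zero => simp
  | add f g hf hg => rw [Finsupp.mapDomain_add, hf, hg, map_add, Finsupp.single_add]
  | single a b => rw [Finsupp.mapDomain_single, A020_eps_single]

private theorem A020_eps_dif {P : SS} {n : ℕ} (z : Ch P (n + 1)) :
    A020_eps n (dif z) = (n + 2) • A020_eps (n + 1) z := by
  rw [dif, map_sum]
  simp only [A020_eps_map, Finset.sum_const, Finset.card_univ, Fintype.card_fin]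

private theorem A020_pt {P : SS} {p : P.S 0} {n : ℕ} {z : Ch P n} (hz : SuppIn (Sub.pt p) z) :
    z = Finsupp.single (P.deg p n) (A020_eps n z) := by
  rw [← A020_map_const]
  exact (A020_map_id (C := Sub.pt p) _ (fun x hx => hx.symm) hz).symm

private theorem A020_null {P : SS} {C : Sub P} (H : Hom ((Del 1).prod C.ss) P) (q : P.S 0)
    (h0 : ∀ n x, H.app n (cst 0, x) = x.1) (h1 : ∀ n x, H.app n (cst 1, x) = P.deg q n) {n : ℕ}
    (z : Ch P n) (hz : SuppIn C z) (hc : z ∈ (lin P).Z n) :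
    ∃ w : Ch P (n + 1), dif w = z + Finsupp.single (P.deg q n) (A020_eps n z) := by
  obtain ⟨T, hT0, hT, -⟩ := prism H
  obtain ⟨y, -, hy⟩ := A020_lift C.incl (C := ⊤) (A' := ⊥) (C' := C)
    (fun n x hx _ => ⟨⟨x, hx⟩, trivial, rfl⟩) z hz
  have hy0 : (y.mapDomain (C.incl.app n) : Ch P n) = z := by
    have h2 : (y.mapDomain (C.incl.app n) : Ch P n) + z = 0 := by
      rw [← Finsupp.support_eq_empty, Finset.eq_empty_iff_forall_notMem]
      exact fun x hx => hy x hx
    rw [← sub_eq'] at h2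
    exact sub_eq_zero.1 h2
  have e0 : (y.mapDomain (fun x => H.app n (cst 0, x)) : Ch P n) = z := by
    rw [← hy0]
    congr 1
    funext x
    exact h0 n x
  have e1 : (y.mapDomain (fun x => H.app n (cst 1, x)) : Ch P n) =
      Finsupp.single (P.deg q n) (A020_eps n z) := by
    have h3 : (fun x => H.app n (cst 1, x)) = fun _ => P.deg q n := funext fun x => h1 n x
    rw [h3, A020_map_const, ← hy0, A020_eps_map]
  refine ⟨T n y, ?_⟩
  cases n with
  | zero => rw [hT0, e0, e1]
  | succ n =>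
    have h4 : dif y = 0 := by
      have h5 : ((dif y).mapDomain (C.incl.app n) : Ch P n) = 0 := by
        rw [← A020_dif_map, hy0, ← lin_d]
        exact hc
      exact Finsupp.mapDomain_injective (f := C.incl.app n)
        (fun a b hab => Subtype.ext hab) (by rw [h5, Finsupp.mapDomain_zero])
    rw [hT, e0, e1, h4, map_zero, add_zero]

/-- every cycle of `P` becomes a boundary in `P` modulo the point: null-homotopic inclusions -/
theorem acyc_of_null_incl {P : SS} (p : P.S 0) (C : ℕ → Sub P) (hmono : ∀ i, C i ≤ C (i + 1))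
    (hp : ∀ i, Sub.pt p ≤ C i) (hall : ∀ n (x : P.S n), ∃ i, x ∈ (C i).car n)
    (h : ∀ i, ∃ (H : Hom ((Del 1).prod (C i).ss) P) (q : P.S 0), q ∈ (C (i + 1)).car 0 ∧
      (∀ n a x, H.app n (a, x) ∈ (C (i + 1)).car n) ∧
      (∀ n x, H.app n (cst 0, x) = x.1) ∧ (∀ n x, H.app n (cst 1, x) = P.deg q n)) :
    Acyc (Sub.pt p) ⊤ := by
  intro n z _ hc
  have hm : Monotone C := monotone_nat_of_le_succ hmono
  obtain ⟨i, hi⟩ := A020_fin C (fun i j => ⟨max i j, hm (le_max_left i j), hm (le_max_right i j)⟩)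
    z fun x _ => by
      obtain ⟨i, hi⟩ := hall n x
      exact Set.mem_iUnion.2 ⟨i, hi⟩
  obtain ⟨H, q, -, -, h0, h1⟩ := h i
  have ha : SuppIn (Sub.pt p) (Finsupp.single (P.deg p n) (A020_eps n z) : Ch P n) :=
    SuppIn.single rfl _
  have h2 : z + Finsupp.single (P.deg p n) (A020_eps n z) ∈ (lin P).Z n := by
    cases n with
    | zero => trivial
    | succ n =>
      have hc' : SuppIn (Sub.pt p) (dif z) := hc
      show (lin P).d n _ = 0
      rw [lin_d, dif_add, A020_pt hc', A020_pt ha.dif, A020_eps_dif, A020_eps_dif,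
        A020_eps_single, two_eq_zero']
  obtain ⟨w, hw⟩ := A020_null H q h0 h1 _ (hi.add (ha.mono (hp i))) h2
  refine ⟨w, SuppIn.top w, ?_⟩
  rw [map_add, A020_eps_single, two_eq_zero', Finsupp.single_zero, add_zero] at hw
  rw [hw, ← add_assoc, two_eq_zero', zero_add]
  exact ha

/-- the homotopy from the identity to `max (·, i)` -/
private def A020_H1 (k : ℕ) (i : Fin (k + 1)) : Hom ((Del 1).prod (Del k)) (Del k) where
  app n x := ⟨fun t => if x.1 t = 0 then x.2 t else max (x.2 t) i, fun s t hst => by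
    have h1 : x.1 s ≤ x.1 t := x.1.monotone hst
    have h2 : x.2 s ≤ x.2 t := x.2.monotone hst
    show (if x.1 s = 0 then x.2 s else max (x.2 s) i) ≤
      (if x.1 t = 0 then x.2 t else max (x.2 t) i)
    by_cases ht : x.1 t = 0
    · have hs : x.1 s = 0 := le_antisymm (ht ▸ h1) (Fin.zero_le _)
      rw [if_pos ht, if_pos hs]
      exact h2
    · rw [if_neg ht]
      split_ifs
      · exact h2.trans (le_max_left _ _)
      · exact max_le_max h2 le_rfl⟩
  nat _ _ := rfl

/-- the homotopy from `min (·, i)` to the identity -/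
private def A020_H2 (k : ℕ) (i : Fin (k + 1)) : Hom ((Del 1).prod (Del k)) (Del k) where
  app n x := ⟨fun t => if x.1 t = 0 then min (x.2 t) i else x.2 t, fun s t hst => by
    have h1 : x.1 s ≤ x.1 t := x.1.monotone hst
    have h2 : x.2 s ≤ x.2 t := x.2.monotone hst
    show (if x.1 s = 0 then min (x.2 s) i else x.2 s) ≤
      (if x.1 t = 0 then min (x.2 t) i else x.2 t)
    by_cases ht : x.1 t = 0
    · have hs : x.1 s = 0 := le_antisymm (ht ▸ h1) (Fin.zero_le _)
      rw [if_pos ht, if_pos hs]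
      exact min_le_min h2 le_rfl
    · rw [if_neg ht]
      split_ifs
      · exact (min_le_left _ _).trans h2
      · exact h2⟩
  nat _ _ := rfl

/-- the simplices with all vertices at least `i` -/
private def A020_up (k : ℕ) (i : Fin (k + 1)) : Sub (Del k) :=
  ⟨fun n => {x | ∀ t, i ≤ (x : Mo n k) t}, fun f _ h t => h (f t)⟩

private theorem A020_H1_val (k : ℕ) (i : Fin (k + 1)) {n : ℕ} (a : Mo n 1) (x : Mo n k)
    (t : Fin (n + 1)) : ((A020_H1 k i).app n (a, x) : Mo n k) t =
      if a t = 0 then x t else max (x t) i := rfl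

private theorem A020_H2_val (k : ℕ) (i : Fin (k + 1)) {n : ℕ} (a : Mo n 1) (x : Mo n k)
    (t : Fin (n + 1)) : ((A020_H2 k i).app n (a, x) : Mo n k) t =
      if a t = 0 then min (x t) i else x t := rfl

private theorem A020_H1_cst0 (k : ℕ) (i : Fin (k + 1)) {n : ℕ} (x : Mo n k) :
    (A020_H1 k i).app n (cst 0, x) = x := by
  apply OrderHom.ext
  funext t
  show (if (0 : Fin 2) = 0 then x t else max (x t) i) = x t
  exact if_pos rfl

private theorem A020_H2_cst1 (k : ℕ) (i : Fin (k + 1)) {n : ℕ} (x : Mo n k) :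
    (A020_H2 k i).app n (cst 1, x) = x := by
  apply OrderHom.ext
  funext t
  show (if (1 : Fin 2) = 0 then min (x t) i else x t) = x t
  exact if_neg one_ne_zero

private theorem A020_H1_cst1 (k : ℕ) (i : Fin (k + 1)) {n : ℕ} (x : Mo n k) :
    (A020_H1 k i).app n (cst 1, x) ∈ (A020_up k i).car n := by
  intro t
  rw [A020_H1_val]
  show i ≤ if (1 : Fin 2) = 0 then x t else max (x t) i
  rw [if_neg one_ne_zero]
  exact le_max_right _ _

private theorem A020_H2_cst0 (k : ℕ) (i : Fin (k + 1)) {n : ℕ} (x : Mo n k)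
    (hx : x ∈ (A020_up k i).car n) : (A020_H2 k i).app n (cst 0, x) = (cst i : Mo n k) := by
  apply OrderHom.ext
  funext t
  show (if (0 : Fin 2) = 0 then min (x t) i else x t) = i
  rw [if_pos rfl]
  exact min_eq_right (hx t)

private theorem A020_H1_up (k : ℕ) (i : Fin (k + 1)) {n : ℕ} (a : Mo n 1) (x : Mo n k)
    (hx : x ∈ (A020_up k i).car n) : (A020_H1 k i).app n (a, x) ∈ (A020_up k i).car n := by
  intro t
  rw [A020_H1_val]
  split_ifs
  · exact hx t
  · exact le_max_right _ _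

private theorem A020_H2_up (k : ℕ) (i : Fin (k + 1)) {n : ℕ} (a : Mo n 1) (x : Mo n k)
    (hx : x ∈ (A020_up k i).car n) : (A020_H2 k i).app n (a, x) ∈ (A020_up k i).car n := by
  intro t
  rw [A020_H2_val]
  split_ifs
  · exact le_min (hx t) le_rfl
  · exact hx t

private theorem A020_H1_horn (k : ℕ) (i : Fin (k + 1)) {n : ℕ} (a : Mo n 1) (x : Mo n k)
    (hx : x ∈ (horn k i).car n) : (A020_H1 k i).app n (a, x) ∈ (horn k i).car n := by
  obtain ⟨j, hj, h⟩ := hx
  refine ⟨j, hj, fun t => ?_⟩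
  rw [A020_H1_val]
  split_ifs
  · exact h t
  · rcases max_choice (x t) i with h1 | h1
    · rw [h1]
      exact h t
    · rw [h1]
      exact hj.symm

private theorem A020_H2_horn (k : ℕ) (i : Fin (k + 1)) {n : ℕ} (a : Mo n 1) (x : Mo n k)
    (hx : x ∈ (horn k i).car n) : (A020_H2 k i).app n (a, x) ∈ (horn k i).car n := by
  obtain ⟨j, hj, h⟩ := hx
  refine ⟨j, hj, fun t => ?_⟩
  rw [A020_H2_val]
  split_ifs
  · rcases min_choice (x t) i with h1 | h1
    · rw [h1]
      exact h t
    · rw [h1]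
      exact hj.symm
  · exact h t

private theorem A020_mem_pt (k : ℕ) (i : Fin (k + 1)) {n : ℕ} (x : Mo n k) :
    x ∈ (Sub.pt (P := Del k) (cst i : Mo 0 k)).car n ↔ x = cst i := Iff.rfl

private theorem A020_H2_pt (k : ℕ) (i : Fin (k + 1)) {n : ℕ} (a : Mo n 1) (x : Mo n k)
    (hx : x ∈ (Sub.pt (P := Del k) (cst i : Mo 0 k)).car n) :
    (A020_H2 k i).app n (a, x) ∈ (Sub.pt (P := Del k) (cst i : Mo 0 k)).car n := by
  rw [A020_mem_pt] at hx
  subst hx
  rw [A020_mem_pt]
  apply OrderHom.ext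
  funext t
  show (if a t = 0 then min i i else i) = i
  rw [min_self, ite_self]

private theorem A020_pt_up (k : ℕ) (i : Fin (k + 1)) :
    Sub.pt (P := Del k) (cst i : Mo 0 k) ≤ A020_up k i := by
  intro n x hx
  rw [A020_mem_pt] at hx
  subst hx
  exact fun _ => le_rfl

private theorem A020_pt_horn (k : ℕ) (i : Fin (k + 1)) (hk : 1 ≤ k) :
    Sub.pt (P := Del k) (cst i : Mo 0 k) ≤ horn k i := by
  intro n x hx
  rw [A020_mem_pt] at hx
  subst hx
  have : Nontrivial (Fin (k + 1)) := Fin.nontrivial_iff_two_le.2 (by omega)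
  obtain ⟨j, hj⟩ := exists_ne i
  exact ⟨j, hj, fun _ => hj.symm⟩

theorem acyc_Del_pt (k : ℕ) (i : Fin (k + 1)) :
    Acyc (Sub.pt (P := Del k) (cst i : Mo 0 k)) ⊤ := by
  refine Acyc.trans (A020_pt_up k i) (Sub.le_top' _) ?_ ?_
  · exact acyc_of_deformation' (A020_pt_up k i) (A020_H2 k i)
      (fun n x _ => A020_H2_cst1 k i x) (fun n x hx => A020_H2_cst0 k i x hx)
      (fun n a x hx => A020_H2_up k i a x hx) (fun n a x hx => A020_H2_pt k i a x hx)
  · exact acyc_of_deformation (Sub.le_top' _) (A020_H1 k i)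
      (fun n x _ => A020_H1_cst0 k i x) (fun n x _ => A020_H1_cst1 k i x)
      (fun n a x _ => trivial) (fun n a x hx => A020_H1_up k i a x hx)

theorem acyc_horn_pt (k : ℕ) (i : Fin (k + 1)) (hk : 1 ≤ k) :
    Acyc (Sub.pt (P := Del k) (cst i : Mo 0 k)) (horn k i) := by
  have h1 : Sub.pt (P := Del k) (cst i : Mo 0 k) ≤ A020_up k i ⊓ horn k i := fun n x hx =>
    ⟨A020_pt_up k i n hx, A020_pt_horn k i hk n hx⟩
  have h2 : A020_up k i ⊓ horn k i ≤ horn k i := fun n x hx => hx.2
  refine Acyc.trans h1 h2 ?_ ?_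
  · exact acyc_of_deformation' h1 (A020_H2 k i)
      (fun n x _ => A020_H2_cst1 k i x) (fun n x hx => A020_H2_cst0 k i x hx.1)
      (fun n a x hx => ⟨A020_H2_up k i a x hx.1, A020_H2_horn k i a x hx.2⟩)
      (fun n a x hx => A020_H2_pt k i a x hx)
  · exact acyc_of_deformation h2 (A020_H1 k i)
      (fun n x _ => A020_H1_cst0 k i x)
      (fun n x hx => ⟨A020_H1_cst1 k i x, A020_H1_horn k i (cst 1) x hx⟩)
      (fun n a x hx => A020_H1_horn k i a x hx)
      (fun n a x hx => ⟨A020_H1_up k i a x hx.1, A020_H1_horn k i a x hx.2⟩)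

theorem acyc_horn (k : ℕ) (i : Fin (k + 1)) (hk : 1 ≤ k) : Acyc (horn k i) ⊤ := by
  exact Acyc.of_left (A020_pt_horn k i hk) (Sub.le_top' _) (acyc_horn_pt k i hk) (acyc_Del_pt k i)

end MM

end

/-! ### from `Lib_MP_33f7bb_d.S1` -/

section

/-!
# S1: affine simplices and singular homotopies

* `vtx i`: the `i`-th vertex of the topological simplex, `tmap_cst`.
* `aff w`: the affine map `Δ_m → Δ_n` with prescribed vertices.
* `singHtpy`: a continuous map `Δ_1 × X → X'` induces a homotopy of singular simplicial sets.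
* `null_of_nullhomotopic`.
-/

namespace MM

/-- `i`-th vertex -/
noncomputable def vtx {n : ℕ} (i : Fin (n + 1)) : Dtop n := stdSimplex.vertex i

theorem vtx_apply {n : ℕ} (i j : Fin (n + 1)) : (vtx i : Dtop n).1 j = if j = i then 1 else 0 := by
  classical
  have : (vtx i : Dtop n).1 = Pi.single i 1 := rfl
  rw [this, Pi.single_apply]

theorem tmap_apply {m n : ℕ} (f : Mo m n) (t : Dtop m) (j : Fin (n + 1)) :
    (tmap f t).1 j = ∑ i, if f i = j then t.1 i else 0 := by
  classical
  have h : (tmap f t).1 = FunOnFinite.linearMap ℝ ℝ f t.1 := rfl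
  rw [h, FunOnFinite.linearMap_apply_apply, Finset.sum_filter]

theorem tmap_vtx {m n : ℕ} (f : Mo m n) (i : Fin (m + 1)) : tmap f (vtx i) = vtx (f i) :=
  stdSimplex.map_vertex _ _

theorem Dtop_sum {n : ℕ} (t : Dtop n) : ∑ i, t.1 i = 1 := t.2.2

theorem Dtop_nonneg {n : ℕ} (t : Dtop n) (i : Fin (n + 1)) : 0 ≤ t.1 i := t.2.1 i

theorem Dtop_le {n : ℕ} (t : Dtop n) (i : Fin (n + 1)) : t.1 i ≤ 1 := by
  rw [← Dtop_sum t]
  exact Finset.single_le_sum (fun j _ => Dtop_nonneg t j) (Finset.mem_univ i)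

theorem tmap_cst {m n : ℕ} (i : Fin (n + 1)) (t : Dtop m) : tmap (cst i : Mo m n) t = vtx i := by
  apply Subtype.ext
  funext j
  rw [tmap_apply, vtx_apply]
  by_cases h : j = i
  · subst h
    have : ∀ k : Fin (m + 1), (cst j : Mo m n) k = j := fun _ => rfl
    simp only [this, if_true]
    exact Dtop_sum t
  · have h2 : ∀ k : Fin (m + 1), ¬ (cst i : Mo m n) k = j := fun _ h3 => h h3.symm
    simp only [h2, if_false, Finset.sum_const_zero, if_neg h]

/-- the affine map with prescribed vertices -/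
noncomputable def aff {m n : ℕ} (w : Fin (m + 1) → Dtop n) : C(Dtop m, Dtop n) :=
  ⟨fun t => ⟨fun j => ∑ i, t.1 i * (w i).1 j, by
      refine ⟨fun j => Finset.sum_nonneg fun i _ => mul_nonneg (t.2.1 i) ((w i).2.1 j), ?_⟩
      rw [Finset.sum_comm]
      have : ∀ i, ∑ j, t.1 i * (w i).1 j = t.1 i := fun i => by
        rw [← Finset.mul_sum, (w i).2.2, mul_one]
      simp only [this]
      exact t.2.2⟩, by
    refine Continuous.subtype_mk ?_ _
    refine continuous_pi fun j => continuous_finsetSum _ fun i _ => ?_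
    exact ((continuous_apply i).comp continuous_subtype_val).mul continuous_const⟩

theorem aff_apply {m n : ℕ} (w : Fin (m + 1) → Dtop n) (t : Dtop m) (j : Fin (n + 1)) :
    (aff w t).1 j = ∑ i, t.1 i * (w i).1 j := rfl

theorem aff_vtx {m n : ℕ} (w : Fin (m + 1) → Dtop n) (i : Fin (m + 1)) : aff w (vtx i) = w i := by
  apply Subtype.ext
  funext j
  rw [aff_apply, Finset.sum_eq_single i]
  · rw [vtx_apply, if_pos rfl, one_mul]
  · intro k _ hk
    rw [vtx_apply, if_neg hk, zero_mul]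
  · intro h
    exact absurd (Finset.mem_univ i) h

theorem aff_tmap {l m n : ℕ} (w : Fin (m + 1) → Dtop n) (f : Mo l m) (t : Dtop l) :
    aff w (tmap f t) = aff (w ∘ f) t := by
  apply Subtype.ext
  funext j
  rw [aff_apply, aff_apply]
  simp only [tmap_apply, Finset.sum_mul, Function.comp]
  rw [Finset.sum_comm]
  refine Finset.sum_congr rfl fun i _ => ?_
  rw [Finset.sum_eq_single (f i)]
  · rw [if_pos rfl]
  · intro k _ hk
    rw [if_neg (Ne.symm hk), zero_mul]
  · intro h
    exact absurd (Finset.mem_univ _) h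

theorem aff_comp_tmap {l m n : ℕ} (w : Fin (m + 1) → Dtop n) (f : Mo l m) :
    (aff w).comp (tmap f) = aff (w ∘ f) := ContinuousMap.ext fun t => aff_tmap w f t

theorem aff_id {n : ℕ} : aff (vtx : Fin (n + 1) → Dtop n) = ContinuousMap.id _ := by
  refine ContinuousMap.ext fun t => Subtype.ext (funext fun j => ?_)
  rw [aff_apply, Finset.sum_eq_single j]
  · rw [vtx_apply, if_pos rfl, mul_one]; rfl
  · intro k _ hk
    rw [vtx_apply, if_neg (Ne.symm hk), mul_zero]
  · intro h
    exact absurd (Finset.mem_univ _) h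

theorem tmap_eq_aff {m n : ℕ} (f : Mo m n) : tmap f = aff (fun i => vtx (f i)) := by
  have h := aff_comp_tmap (vtx : Fin (n + 1) → Dtop n) f
  rw [aff_id, ContinuousMap.id_comp] at h
  exact h

theorem aff_aff {l m n : ℕ} (w : Fin (m + 1) → Dtop n) (u : Fin (l + 1) → Dtop m) (t : Dtop l) :
    aff w (aff u t) = aff (fun i => aff w (u i)) t := by
  apply Subtype.ext
  funext j
  simp only [aff_apply, Finset.sum_mul, Finset.mul_sum]
  rw [Finset.sum_comm]
  refine Finset.sum_congr rfl fun i _ => Finset.sum_congr rfl fun k _ => ?_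
  ring

theorem aff_comp_aff {l m n : ℕ} (w : Fin (m + 1) → Dtop n) (u : Fin (l + 1) → Dtop m) :
    (aff w).comp (aff u) = aff (fun i => aff w (u i)) := ContinuousMap.ext fun t => aff_aff w u t

/-! ## Homotopies -/

variable {X X' : Type} [TopologicalSpace X] [TopologicalSpace X']

/-- homotopy of singular simplicial sets from a continuous map `Δ_1 × X → X'` -/
noncomputable def singHtpy (h : C(Dtop 1 × X, X')) : Hom ((Del 1).prod (Sing X)) (Sing X') :=
  ⟨fun _ x => h.comp ((tmap x.1).prodMk x.2), fun {m n} f x => by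
    refine ContinuousMap.ext fun t => ?_
    show h (tmap (x.1.comp f) t, x.2 (tmap f t)) = h (tmap x.1 (tmap f t), x.2 (tmap f t))
    rw [tmap_comp]⟩

theorem singHtpy_apply (h : C(Dtop 1 × X, X')) {n : ℕ} (a : Mo n 1) (σ : C(Dtop n, X))
    (t : Dtop n) : (singHtpy h).app n (a, σ) t = h (tmap a t, σ t) := rfl

theorem singHtpy_cst (h : C(Dtop 1 × X, X')) {n : ℕ} (i : Fin 2) (σ : C(Dtop n, X))
    (t : Dtop n) : (singHtpy h).app n (cst i, σ) t = h (vtx i, σ t) := by
  rw [singHtpy_apply, tmap_cst]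

/-- the coordinate `Δ_1 → [0,1]` -/
noncomputable def uI : C(Dtop 1, unitInterval) :=
  ⟨fun t => ⟨t.1 1, Dtop_nonneg t 1, Dtop_le t 1⟩, by
    refine Continuous.subtype_mk ?_ _
    exact (continuous_apply (1 : Fin 2)).comp continuous_subtype_val⟩

theorem uI_zero : uI (vtx 0) = 0 := by
  apply Subtype.ext
  show (vtx 0 : Dtop 1).1 1 = 0
  rw [vtx_apply, if_neg (by decide)]

theorem uI_one : uI (vtx 1) = 1 := by
  apply Subtype.ext
  show (vtx 1 : Dtop 1).1 1 = 1
  rw [vtx_apply, if_pos rfl]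

/-- homotopic maps induce homotopic maps -/
theorem htp_of_homotopic {f g : C(X, X')} (h : f.Homotopic g) : Htp (Sing.map f) (Sing.map g) := by
  obtain ⟨H⟩ := h
  refine ⟨singHtpy (H.toContinuousMap.comp ((uI.comp ContinuousMap.fst).prodMk
    ContinuousMap.snd)), fun n σ => ContinuousMap.ext fun t => ?_,
    fun n σ => ContinuousMap.ext fun t => ?_⟩
  · rw [singHtpy_cst]
    show H (uI (vtx 0), σ t) = f (σ t)
    rw [uI_zero, H.apply_zero]
  · rw [singHtpy_cst]
    show H (uI (vtx 1), σ t) = g (σ t)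
    rw [uI_one, H.apply_one]

theorem null_of_nullhomotopic (q : C(X, X')) (hq : q.Nullhomotopic) {Y : SS}
    (κ : Hom (Sing X') Y) : Null (κ.comp (Sing.map q)) := by
  obtain ⟨p, hp⟩ := hq
  obtain ⟨H, h0, h1⟩ := htp_of_homotopic hp
  refine ⟨(κ.comp H).app, κ.app 0 (ContinuousMap.const _ p), fun {m n} g x _ =>
    (κ.comp H).nat g x, fun n x _ => ?_, fun n x _ => ?_⟩
  · show κ.app n (H.app n (cst 0, x)) = _
    rw [h0]; rfl
  · show κ.app n (H.app n (cst 1, x)) = _
    rw [h1]
    show κ.app n _ = Y.act (cst 0) (κ.app 0 _)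
    rw [← κ.nat]
    rfl

/-- functoriality: precomposition with `Sing.map` preserves null homotopic maps -/
theorem Null.comp {P Q Y : SS} {κ : Hom Q Y} (h : Null κ) (f : Hom P Q) : Null (κ.comp f) := by
  obtain ⟨H, y, hn, h0, h1⟩ := h
  refine ⟨fun n x => H n (x.1, f.app n x.2), y, fun {m n} g x _ => ?_,
    fun n x _ => h0 n _ trivial, fun n x _ => h1 n _ trivial⟩
  have := hn g (x.1, f.app n x.2) ⟨trivial, trivial⟩
  show H m (x.1.comp g, f.app m (P.act g x.2)) = _
  rw [f.nat]
  exact this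

end MM

end

/-! ### from `Lib_MP_33f7bb_d.SDef` -/

section

/-!
# SDef: definitions of part S (barycentric subdivision, boundary of the simplex)

* `LD n`: simplicial set of tuples of points of `Δ_n` (affine simplices), `LS σ : LD n → Sing X`.
* `coneL b`: cone, `bary w`: barycentre.
* `SdL`, `DL`: subdivision and homotopy on chains of tuples.
* `SdX`, `DX`: natural operators on singular chains.
* `bdTop n`: boundary of the topological simplex.
-/

namespace MM

/-- tuples of points of `Δ_n` -/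
abbrev LD (n : ℕ) : SS where
  S m := Fin (m + 1) → Dtop n
  act f w := w ∘ f
  act_id _ := rfl
  act_comp _ _ _ := rfl

/-- cone with apex `b` -/
noncomputable def coneL {n : ℕ} (b : Dtop n) (m : ℕ) :
    Ch (LD n) m →ₗ[ZMod 2] Ch (LD n) (m + 1) :=
  Finsupp.lmapDomain (ZMod 2) (ZMod 2) (fun w : Fin (m + 1) → Dtop n => (Fin.cons b w : Fin (m + 2) → Dtop n))

/-- barycentre of a tuple -/
noncomputable def bary {m n : ℕ} (w : Fin (m + 1) → Dtop n) : Dtop n :=
  aff w stdSimplex.barycenter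

/-- subdivision -/
noncomputable def SdL (n : ℕ) : ∀ m, Ch (LD n) m →ₗ[ZMod 2] Ch (LD n) m
  | 0 => LinearMap.id
  | m + 1 => Finsupp.linearCombination (ZMod 2) fun w : Fin (m + 2) → Dtop n =>
      coneL (bary w) m (SdL n m (dif (P := LD n) (Finsupp.single w 1)))

/-- homotopy between the identity and the subdivision -/
noncomputable def DL (n : ℕ) : ∀ m, Ch (LD n) m →ₗ[ZMod 2] Ch (LD n) (m + 1)
  | 0 => 0
  | m + 1 => Finsupp.linearCombination (ZMod 2) fun w : Fin (m + 2) → Dtop n =>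
      coneL (bary w) (m + 1) (Finsupp.single w 1 + DL n m (dif (P := LD n) (Finsupp.single w 1)))

variable {X : Type} [TopologicalSpace X]

/-- affine simplices of a singular simplex -/
noncomputable def LS {n : ℕ} (σ : C(Dtop n, X)) : Hom (LD n) (Sing X) :=
  ⟨fun _ w => σ.comp (aff w), fun {m k} f w => by
    show σ.comp (aff (w ∘ f)) = (σ.comp (aff w)).comp (tmap f)
    rw [ContinuousMap.comp_assoc, aff_comp_tmap]⟩

variable (X) in
/-- subdivision of singular chains -/
noncomputable def SdX (n : ℕ) : Ch (Sing X) n →ₗ[ZMod 2] Ch (Sing X) n :=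
  Finsupp.linearCombination (ZMod 2) fun σ : C(Dtop n, X) =>
    (SdL n n (Finsupp.single vtx 1)).mapDomain ((LS σ).app n)

variable (X) in
/-- homotopy -/
noncomputable def DX (n : ℕ) : Ch (Sing X) n →ₗ[ZMod 2] Ch (Sing X) (n + 1) :=
  Finsupp.linearCombination (ZMod 2) fun σ : C(Dtop n, X) =>
    (DL n n (Finsupp.single vtx 1)).mapDomain ((LS σ).app (n + 1))

/-- boundary of the topological simplex -/
def bdTop (n : ℕ) : Set (Dtop n) := {x | ∃ i, x.1 i = 0}

end MM

end

/-! ### from `Lib_MP_33f7bb_d.S4` -/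

section

/-!
# S4: iterated subdivision makes affine simplices small

Statement `SdL_iter_small`: for every `n` and `ε > 0` there is `k` such that every tuple `u` in the support of the
`k`-th subdivision of the tuple of vertices of `Δ_n` has image of diameter `< ε`.

PROOF.  Distances in `Dtop n` are those of the sup norm of `Fin (n+1) → ℝ`.
1. (hull) Let `S` be a convex subset of `Fin (n+1) → ℝ` (only closed balls are needed). If all `(w i).1 ∈ S` then
   `(aff w t).1 ∈ S` for all `t` (`Convex.sum_mem`), in particular `(bary w).1 ∈ S`; and for every `u` in the support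
   of `SdL n m (single w 1)` all `(u i).1 ∈ S` (induction on `m`: `u = Fin.cons (bary w) u'`, `u'` in the support of
   `SdL n m (dif (single w 1))`, and `dif (single w 1)` is a sum of `single (w ∘ dlt i) 1`).
2. (barycentre) `dist (bary w) (w j) ≤ (m/(m+1)) * d` for `w : Fin (m+1) → Dtop n` with all `dist (w i) (w j) ≤ d`:
   `(bary w).1 - (w j).1 = (1/(m+1)) ∑ i, ((w i).1 - (w j).1)`, the term `i = j` vanishes.
   Hence every point of the hull of `w` (in the sense of 1, `S = closedBall (bary w) (m/(m+1) d)`) is within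
   `(m/(m+1)) d` of `bary w`.
3. (one step) if all `dist (w i) (w j) ≤ d` (`d ≥ 0`) then for every `u` in the support of `SdL n m (single w 1)` and all `i, j`
   `dist (u i) (u j) ≤ (m/(m+1)) * d`. Induction on `m`: `m = 0`: `u = w`, `dist (u 0) (u 0) = 0`. Step: `u = cons (bary w) u'`,
   `u'` in the support of `SdL n m (single (w ∘ dlt k) 1)`: `dist (u' i) (u' j) ≤ (m/(m+1)) d ≤ ((m+1)/(m+2)) d`, and
   `dist (bary w) (u' j) ≤ ((m+1)/(m+2)) d` by 1 and 2.
4. (iteration) for `u` in the support of `(SdL n n)^[k] (single vtx 1)`: all `dist (u i) (u j) ≤ (n/(n+1))^k * 1`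
   (vertices of `Δ_n` have distance `≤ 1`); `SdL n n` is linear, so a tuple in the support of `SdL n n z` is in the support of
   `SdL n n (single w 1)` for some `w` in the support of `z`. The power tends to `0`.
5. `dist (aff u s) (aff u t) ≤ 2 max dist (u i) (u j)` (even without the factor 2): by 1 both points lie in the closed ball
   around `u 0` of radius `max`.
-/

namespace MM

/-- a tuple in the support of `L z` is in the support of `L (single w 1)` for some `w` in the support of `z` -/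
private theorem S4_lin {α β : Type} (L : (α →₀ ZMod 2) →ₗ[ZMod 2] (β →₀ ZMod 2)) (z : α →₀ ZMod 2) (u : β)
    (hu : u ∈ (L z).support) : ∃ w ∈ z.support, u ∈ (L (Finsupp.single w 1)).support := by
  classical
  by_contra hcon
  push Not at hcon
  rw [Finsupp.mem_support_iff] at hu
  apply hu
  have h1 : L z = z.sum fun w c => c • L (Finsupp.single w 1) := by
    conv_lhs => rw [← Finsupp.sum_single z]
    rw [Finsupp.sum, map_sum, Finsupp.sum]
    refine Finset.sum_congr rfl fun w _ => ?_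
    rw [← map_smul, Finsupp.smul_single, smul_eq_mul, mul_one]
  rw [h1, Finsupp.sum, Finsupp.finsetSum_apply]
  refine Finset.sum_eq_zero fun w hw => ?_
  have h2 := hcon w hw
  rw [Finsupp.notMem_support_iff] at h2
  rw [Finsupp.smul_apply, h2, smul_zero]

private theorem S4_succ {n m : ℕ} (w : Fin (m + 2) → Dtop n) (u : Fin (m + 2) → Dtop n)
    (hu : u ∈ (SdL n (m + 1) (Finsupp.single w 1)).support) :
    ∃ (k : Fin (m + 2)) (u' : Fin (m + 1) → Dtop n),
      u' ∈ (SdL n m (Finsupp.single (w ∘ dlt k) 1)).support ∧ u = Fin.cons (bary w) u' := by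
  classical
  have h1 : SdL n (m + 1) (Finsupp.single w 1) =
      coneL (bary w) m (SdL n m (dif (P := LD n) (Finsupp.single w 1))) := by
    show Finsupp.linearCombination (ZMod 2) (fun w : Fin (m + 2) → Dtop n =>
      coneL (bary w) m (SdL n m (dif (P := LD n) (Finsupp.single w 1)))) (Finsupp.single w 1) = _
    rw [Finsupp.linearCombination_single, one_smul]
  rw [h1] at hu
  have h2 : dif (P := LD n) (Finsupp.single w 1 : Ch (LD n) (m + 1)) =
      ∑ i : Fin (m + 2), (Finsupp.single (w ∘ dlt i) 1 : Ch (LD n) m) := by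
    unfold dif
    refine Finset.sum_congr rfl fun i _ => ?_
    rw [Finsupp.mapDomain_single]
  rw [h2] at hu
  obtain ⟨u', hu', hu''⟩ := S4_lin (coneL (bary w) m) _ u hu
  have h3 : coneL (bary w) m (Finsupp.single u' 1) = Finsupp.single (Fin.cons (bary w) u') 1 := by
    unfold coneL
    rw [Finsupp.lmapDomain_apply, Finsupp.mapDomain_single]
  rw [h3] at hu''
  have h4 := Finsupp.support_single_subset hu''
  rw [Finset.mem_singleton] at h4
  obtain ⟨v, hv, hv'⟩ := S4_lin (SdL n m) _ u' hu'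
  have h5 := Finsupp.support_finsetSum hv
  rw [Finset.mem_biUnion] at h5
  obtain ⟨k, _, hk⟩ := h5
  have h6 := Finsupp.support_single_subset hk
  rw [Finset.mem_singleton] at h6
  subst h6
  exact ⟨k, u', hv', h4⟩

private theorem S4_zero {n : ℕ} (w : Fin 1 → Dtop n) (u : Fin 1 → Dtop n)
    (hu : u ∈ (SdL n 0 (Finsupp.single w 1)).support) : u = w := by
  have h1 : SdL n 0 (Finsupp.single w 1) = Finsupp.single w 1 := rfl
  rw [h1] at hu
  have h4 := Finsupp.support_single_subset hu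
  rwa [Finset.mem_singleton] at h4

/-- 1, first part -/
private theorem S4_hull {m n : ℕ} {S : Set (Fin (n + 1) → ℝ)} (hS : Convex ℝ S) (w : Fin (m + 1) → Dtop n)
    (hw : ∀ i, (w i).1 ∈ S) (t : Dtop m) : (aff w t).1 ∈ S := by
  have h1 : (aff w t).1 = ∑ i, t.1 i • (w i).1 := by
    funext j
    rw [aff_apply, Finset.sum_apply]
    rfl
  rw [h1]
  exact hS.sum_mem (fun i _ => Dtop_nonneg t i) (Dtop_sum t) (fun i _ => hw i)

/-- 1, second part -/
private theorem S4_hull2 {n : ℕ} {S : Set (Fin (n + 1) → ℝ)} (hS : Convex ℝ S) : ∀ (m : ℕ)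
    (w : Fin (m + 1) → Dtop n), (∀ i, (w i).1 ∈ S) → ∀ u : Fin (m + 1) → Dtop n,
    u ∈ (SdL n m (Finsupp.single w 1)).support → ∀ i, (u i).1 ∈ S
  | 0, w, hw, u, hu => by
    rw [S4_zero w u hu]
    exact hw
  | m + 1, w, hw, u, hu => by
    obtain ⟨k, u', hu', rfl⟩ := S4_succ w u hu
    intro i
    refine Fin.cases ?_ (fun j => ?_) i
    · exact S4_hull hS w hw _
    · rw [Fin.cons_succ]
      exact S4_hull2 hS m (w ∘ dlt k) (fun i => hw _) u' hu' j

/-- 2 -/
private theorem S4_bary {m n : ℕ} (w : Fin (m + 1) → Dtop n) {d : ℝ} (hd : 0 ≤ d)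
    (hw : ∀ i j, dist (w i) (w j) ≤ d) (j : Fin (m + 1)) :
    dist (w j) (bary w) ≤ ((m : ℝ) / (m + 1)) * d := by
  rw [dist_comm, Subtype.dist_eq, dist_pi_le_iff (by positivity)]
  intro k
  have hm : (0 : ℝ) < (m : ℝ) + 1 := by positivity
  have hb : (bary w).1 k = ∑ i, (1 / ((m : ℝ) + 1)) * (w i).1 k := by
    unfold bary
    rw [aff_apply]
    refine Finset.sum_congr rfl fun i _ => ?_
    congr 1
    show (stdSimplex.barycenter : Dtop m).1 i = _
    simp [stdSimplex.barycenter]
  have hj : (w j).1 k = ∑ i : Fin (m + 1), (1 / ((m : ℝ) + 1)) * (w j).1 k := by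
    rw [Finset.sum_const, Finset.card_univ, Fintype.card_fin, nsmul_eq_mul]
    push_cast
    field_simp
  rw [Real.dist_eq, hb, hj, ← Finset.sum_sub_distrib]
  refine (Finset.abs_sum_le_sum_abs _ _).trans ?_
  have hterm : ∀ i ∈ (Finset.univ : Finset (Fin (m + 1))),
      |1 / ((m : ℝ) + 1) * (w i).1 k - 1 / ((m : ℝ) + 1) * (w j).1 k| ≤
        if i = j then 0 else (1 / ((m : ℝ) + 1)) * d := by
    intro i _
    split_ifs with h
    · subst h
      simp
    · rw [← mul_sub, abs_mul, abs_of_nonneg (by positivity : (0 : ℝ) ≤ 1 / ((m : ℝ) + 1))]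
      refine mul_le_mul_of_nonneg_left ?_ (by positivity)
      have h1 := hw i j
      rw [Subtype.dist_eq] at h1
      have h2 := (dist_le_pi_dist (w i).1 (w j).1 k).trans h1
      rwa [Real.dist_eq] at h2
  refine (Finset.sum_le_sum hterm).trans ?_
  rw [Finset.sum_ite, Finset.sum_const_zero, zero_add, Finset.sum_const, nsmul_eq_mul]
  have hc : ((Finset.univ.filter fun i : Fin (m + 1) => ¬ i = j).card : ℝ) = m := by
    have : (Finset.univ.filter fun i : Fin (m + 1) => ¬ i = j) = Finset.univ.erase j := by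
      ext i
      simp
    rw [this, Finset.card_erase_of_mem (Finset.mem_univ _), Finset.card_univ, Fintype.card_fin]
    simp
  rw [hc]
  apply le_of_eq
  field_simp

/-- 3 -/
private theorem S4_step {n : ℕ} {d : ℝ} (hd : 0 ≤ d) : ∀ (m : ℕ) (w : Fin (m + 1) → Dtop n),
    (∀ i j, dist (w i) (w j) ≤ d) → ∀ u : Fin (m + 1) → Dtop n,
    u ∈ (SdL n m (Finsupp.single w 1)).support → ∀ i j, dist (u i) (u j) ≤ ((m : ℝ) / (m + 1)) * d
  | 0, w, hw, u, hu => by
    intro i j
    have : i = j := @Subsingleton.elim (Fin 1) _ i j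
    rw [this, dist_self]
    simp
  | m + 1, w, hw, u, hu => by
    obtain ⟨k, u', hu', rfl⟩ := S4_succ w u hu
    have hball : ∀ i, dist (u' i) (bary w) ≤ (((m + 1 : ℕ) : ℝ) / (((m + 1 : ℕ) : ℝ) + 1)) * d := by
      have h1 := S4_hull2 (S := Metric.closedBall (bary w).1 ((((m + 1 : ℕ) : ℝ) / (((m + 1 : ℕ) : ℝ) + 1)) * d))
        (convex_closedBall _ _) m (w ∘ dlt k) (fun i => by
          rw [Metric.mem_closedBall]
          exact S4_bary w hd hw _) u' hu'
      intro i
      exact h1 i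
    have hle : (m : ℝ) / ((m : ℝ) + 1) ≤ ((m + 1 : ℕ) : ℝ) / (((m + 1 : ℕ) : ℝ) + 1) := by
      push_cast
      rw [div_le_div_iff₀ (by positivity) (by positivity)]
      nlinarith
    have h0 : (0 : ℝ) ≤ ((m + 1 : ℕ) : ℝ) / (((m + 1 : ℕ) : ℝ) + 1) := by positivity
    intro i j
    refine Fin.cases ?_ (fun i => ?_) i
    · refine Fin.cases ?_ (fun j => ?_) j
      · rw [dist_self]
        positivity
      · rw [Fin.cons_zero, Fin.cons_succ, dist_comm]
        exact hball j
    · refine Fin.cases ?_ (fun j => ?_) j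
      · rw [Fin.cons_zero, Fin.cons_succ]
        exact hball i
      · rw [Fin.cons_succ, Fin.cons_succ]
        exact (S4_step hd m (w ∘ dlt k) (fun i j => hw _ _) u' hu' i j).trans
          (mul_le_mul_of_nonneg_right hle hd)

/-- vertices have distance at most `1` -/
private theorem S4_vtx {n : ℕ} (x y : Dtop n) : dist x y ≤ 1 := by
  rw [Subtype.dist_eq, dist_pi_le_iff (by norm_num)]
  intro k
  rw [Real.dist_eq, abs_le]
  have h1 := Dtop_nonneg x k
  have h2 := Dtop_nonneg y k
  have h3 := Dtop_le x k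
  have h4 := Dtop_le y k
  constructor <;> linarith

/-- 4 -/
private theorem S4_iter (n : ℕ) : ∀ (k : ℕ) (u : Fin (n + 1) → Dtop n),
    u ∈ ((fun z : Ch (LD n) n => SdL n n z)^[k] (Finsupp.single vtx 1)).support →
    ∀ i j, dist (u i) (u j) ≤ ((n : ℝ) / (n + 1)) ^ k
  | 0, u, _ => by
    intro i j
    rw [pow_zero]
    exact S4_vtx _ _
  | k + 1, u, hu => by
    rw [Function.iterate_succ_apply'] at hu
    obtain ⟨w, hw, hu'⟩ := S4_lin (SdL n n) _ u hu
    intro i j
    rw [pow_succ']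
    exact S4_step (by positivity) n w (S4_iter n k w hw) u hu' i j

theorem SdL_iter_small (n : ℕ) {ε : ℝ} (hε : 0 < ε) : ∃ k : ℕ,
    ∀ u ∈ ((fun z : Ch (LD n) n => SdL n n z)^[k] (Finsupp.single vtx 1)).support,
      ∀ s t : Dtop n, dist (aff u s) (aff u t) < ε := by
  have hq0 : (0 : ℝ) ≤ (n : ℝ) / (n + 1) := by positivity
  have hq1 : (n : ℝ) / (n + 1) < 1 := by
    rw [div_lt_one (by positivity)]
    linarith
  obtain ⟨k, hk⟩ := exists_pow_lt_of_lt_one (by positivity : (0 : ℝ) < ε / 2) hq1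
  refine ⟨k, fun u hu s t => ?_⟩
  have h1 := S4_iter n k u hu
  have h2 : ∀ t : Dtop n, dist (aff u t) (u 0) ≤ ((n : ℝ) / (n + 1)) ^ k := by
    intro t
    have h3 := S4_hull (S := Metric.closedBall (u 0).1 (((n : ℝ) / (n + 1)) ^ k))
      (convex_closedBall _ _) u (fun i => by
        rw [Metric.mem_closedBall]
        exact h1 i 0) t
    exact h3
  have h3 := dist_triangle_right (aff u s) (aff u t) (u 0)
  have h4 := h2 s
  have h5 := h2 t
  linarith

end MM

end
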