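import Pool.Agent.Lib_MP_33f7bb_m.G01

/-!
# MP_33f7bb_an, negative answer to Q1: merged library part G03

Concatenation of files of `Lib_MP_33f7bb_an` and `Lib_MP_33f7bb_d` (each in its own section), only to save build time.
-/

/-! ### from `Lib_MP_33f7bb_d.A012` -/

section

/-!
# A0-12: the Leibniz rule for the shuffle cross product

`crs n x y = ∑ act a x ⊗ act b y` over all pairs of monotone maps `a : [n] → [p]`, `b : [n] → [q]` with
`a i + b i = i` for all `i` (and `p + q = n`), i.e. over the maximal chains of `[p] × [q]`.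

`d (crs x y) = ∑_j ∑_(a,b) act (a ∘ δ_j) x ⊗ act (b ∘ δ_j) y`.  Fix `(a,b,j)`.
* `0 < j < n+1` and the steps `j-1 → j`, `j → j+1` of the chain go in different directions: there is
  exactly one other maximal chain `(a',b')` which differs from `(a,b)` only at `j`; the two terms are equal
  (`a ∘ δ_j = a' ∘ δ_j`) and cancel.
* both steps increase `a` (or `j` is an end point of the chain and the adjacent step increases `a`):
  with `i = a j` the map `a ∘ δ_j` misses the value `i`: `a ∘ δ_j = δ_i ∘ a''`, `b ∘ δ_j = b''`, and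
  `(a'', b'')` is a maximal chain of `[p-1] × [q]`; this is a bijection onto pairs (maximal chain, `i`): term of
  `crs n (d x) y`.
* symmetric case: terms of `crs n x (d y)`.
The same proof works for the three statements (for `p = 0` the second case does not occur).
-/

open scoped TensorProduct

namespace MM

/-- extension of a monotone map to all natural numbers -/
private def A012ex {n p : ℕ} (a : Mo n p) (k : ℕ) : ℕ := (a ⟨min k n, by omega⟩ : ℕ)

private theorem A012ex_mono {n p : ℕ} (a : Mo n p) : Monotone (A012ex a) := by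
  intro k l h
  have : (⟨min k n, by omega⟩ : Fin (n + 1)) ≤ ⟨min l n, by omega⟩ := by
    show min k n ≤ min l n
    omega
  exact a.monotone this

private theorem A012ex_le {n p : ℕ} (a : Mo n p) (k : ℕ) : A012ex a k ≤ p :=
  Nat.lt_succ_iff.1 (a ⟨min k n, by omega⟩).2

private theorem A012ex_coe {n p : ℕ} (a : Mo n p) (k : Fin (n + 1)) : A012ex a k = (a k : ℕ) := by
  have : (⟨min (k : ℕ) n, by omega⟩ : Fin (n + 1)) = k := Fin.ext (by
    show min (k : ℕ) n = k
    omega)
  rw [A012ex, this]

private theorem A012ext {n p : ℕ} {a b : Mo n p} (h : ∀ k ≤ n, A012ex a k = A012ex b k) : a = b := by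
  apply OrderHom.ext; funext k
  apply Fin.ext
  rw [← A012ex_coe, ← A012ex_coe]
  exact h k (by omega)

/-- construction of a monotone map -/
private def A012mk (n p : ℕ) (f : ℕ → ℕ) (hf : Monotone f) (hp : ∀ k ≤ n, f k ≤ p) : Mo n p :=
  ⟨fun k => ⟨f k, Nat.lt_succ_of_le (hp k (by omega))⟩, fun k l h => hf (show (k : ℕ) ≤ l from h)⟩

private theorem A012ex_mk {n p : ℕ} (f : ℕ → ℕ) (hf : Monotone f) (hp : ∀ k ≤ n, f k ≤ p) {k : ℕ}
    (hk : k ≤ n) : A012ex (A012mk n p f hf hp) k = f k := by
  show f (min k n) = f k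
  rw [min_eq_left hk]

private theorem A012ex_comp_dlt {n p : ℕ} (a : Mo (n + 1) p) (j : Fin (n + 2)) {k : ℕ} (hk : k ≤ n) :
    A012ex (a.comp (dlt j)) k = A012ex a (if k < (j : ℕ) then k else k + 1) := by
  have h1 : A012ex (a.comp (dlt j)) k = A012ex (a.comp (dlt j)) ((⟨k, by omega⟩ : Fin (n + 1)) : ℕ) := rfl
  rw [h1, A012ex_coe]
  show ((a (j.succAbove ⟨k, by omega⟩) : Fin (p + 1)) : ℕ) = _
  rw [← A012ex_coe]
  congr 1
  by_cases h : k < (j : ℕ)
  · rw [if_pos h, Fin.succAbove_of_castSucc_lt]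
    · rfl
    · exact h
  · rw [if_neg h, Fin.succAbove_of_le_castSucc]
    · rfl
    · show (j : ℕ) ≤ k
      omega

private theorem A012ex_dlt_comp {n p : ℕ} (i : Fin (p + 2)) (a : Mo n p) (k : ℕ) :
    A012ex ((dlt i).comp a) k = if A012ex a k < (i : ℕ) then A012ex a k else A012ex a k + 1 := by
  show ((i.succAbove (a ⟨min k n, by omega⟩) : Fin (p + 2)) : ℕ) = _
  by_cases h : A012ex a k < (i : ℕ)
  · rw [if_pos h, Fin.succAbove_of_castSucc_lt]
    · rfl
    · exact h
  · rw [if_neg h, Fin.succAbove_of_le_castSucc]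
    · rfl
    · show (i : ℕ) ≤ A012ex a k
      omega

/-- maximal chains -/
private def A012ch {n p q : ℕ} (a : Mo n p) (b : Mo n q) : Prop :=
  ∀ k ≤ n, A012ex a k + A012ex b k = k

private theorem A012ch_iff {n p q : ℕ} (a : Mo n p) (b : Mo n q) :
    A012ch a b ↔ ∀ i, ((a i : ℕ) + (b i : ℕ) = (i : ℕ)) := by
  constructor
  · intro h i
    rw [← A012ex_coe, ← A012ex_coe]; exact h i (by omega)
  · intro h k hk
    have := h ⟨k, by omega⟩
    rw [← A012ex_coe, ← A012ex_coe] at this
    exact this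

private theorem A012ch_symm {n p q : ℕ} {a : Mo n p} {b : Mo n q} (h : A012ch a b) : A012ch b a :=
  fun k hk => by rw [add_comm]; exact h k hk

/-- the value at `j` is taken only once -/
private def A012one {n p : ℕ} (a : Mo n p) (j : ℕ) : Prop := ∀ k ≤ n, k ≠ j → A012ex a k ≠ A012ex a j

private theorem A012crs {P Q : SV} {p q n : ℕ} (h : p + q = n) (x : P.V p) (y : Q.V q) :
    (crs n x y : (P.tens Q).V n) = by
      classical
      exact ∑ u ∈ (Finset.univ : Finset (Mo n p × Mo n q)).filter (fun u => A012ch u.1 u.2),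
        (P.act u.1 x) ⊗ₜ[ZMod 2] (Q.act u.2 y) := by
  classical
  rw [Finset.sum_filter, Fintype.sum_prod_type]
  unfold crs
  refine Finset.sum_congr rfl fun a _ => Finset.sum_congr rfl fun b _ => ?_
  by_cases h' : A012ch a b
  · rw [if_pos h', if_pos ⟨h, (A012ch_iff a b).1 h'⟩]
  · rw [if_neg h', if_neg]
    rintro ⟨-, h2⟩
    exact h' ((A012ch_iff a b).2 h2)

private theorem A012crs_zero {P Q : SV} {p q n : ℕ} (h : p + q ≠ n) (x : P.V p) (y : Q.V q) :
    (crs n x y : (P.tens Q).V n) = 0 := by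
  classical
  unfold crs
  refine Finset.sum_eq_zero fun a _ => Finset.sum_eq_zero fun b _ => ?_
  rw [if_neg]
  rintro ⟨h1, -⟩
  exact h h1

/-- the mixed terms cancel -/
private theorem A012mixed {M : Type*} [AddCommGroup M] (h2 : ∀ x : M, x + x = 0) {n p q : ℕ}
    (F : Mo n p → Mo n q → M) : by
      classical
      exact ∑ t ∈ (Finset.univ : Finset (Fin (n + 2) × Mo (n + 1) p × Mo (n + 1) q)).filter
        (fun t => A012ch t.2.1 t.2.2 ∧ ¬ A012one t.2.1 t.1 ∧ ¬ A012one t.2.2 t.1),
        F (t.2.1.comp (dlt t.1)) (t.2.2.comp (dlt t.1)) = 0 := by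
  classical
  -- the structure of the mixed terms
  have key : ∀ (j : Fin (n + 2)) (a : Mo (n + 1) p) (b : Mo (n + 1) q), A012ch a b →
      ¬ A012one a j → ¬ A012one b j → 0 < (j : ℕ) ∧ (j : ℕ) ≤ n ∧
      ((A012ex a ((j : ℕ) - 1) = A012ex a j ∧ A012ex a ((j : ℕ) + 1) = A012ex a j + 1 ∧
        A012ex b ((j : ℕ) - 1) + 1 = A012ex b j ∧ A012ex b ((j : ℕ) + 1) = A012ex b j) ∨
      (A012ex b ((j : ℕ) - 1) = A012ex b j ∧ A012ex b ((j : ℕ) + 1) = A012ex b j + 1 ∧
        A012ex a ((j : ℕ) - 1) + 1 = A012ex a j ∧ A012ex a ((j : ℕ) + 1) = A012ex a j)) := by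
    intro j a b hc ha hb
    have hf := A012ex_mono a
    have hg := A012ex_mono b
    have hjn : (j : ℕ) ≤ n + 1 := by omega
    have one : ∀ {r : ℕ} (c : Mo (n + 1) r), ¬ A012one c j →
        (0 < (j : ℕ) ∧ A012ex c ((j : ℕ) - 1) = A012ex c j) ∨
        ((j : ℕ) ≤ n ∧ A012ex c ((j : ℕ) + 1) = A012ex c j) := by
      intro r c hc
      have hm := A012ex_mono c
      unfold A012one at hc
      push Not at hc
      obtain ⟨k, hk, hkj, hkk⟩ := hc
      rcases Nat.lt_or_gt_of_ne hkj with h | h
      · left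
        have h1 := hm (show k ≤ (j : ℕ) - 1 by omega)
        have h2 := hm (show (j : ℕ) - 1 ≤ j by omega)
        exact ⟨by omega, by omega⟩
      · right
        have h1 := hm (show (j : ℕ) + 1 ≤ k by omega)
        have h2 := hm (show (j : ℕ) ≤ (j : ℕ) + 1 by omega)
        exact ⟨by omega, by omega⟩
    have hcj := hc j hjn
    have h1 := one a ha
    have h2 := one b hb
    by_cases h3 : (j : ℕ) = 0
    · have h4 := hc (j + 1) (by omega)
      omega
    · by_cases h5 : (j : ℕ) = n + 1
      · have h6 := hc (j - 1) (by omega)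
        omega
      · have h7 := hc (j + 1) (by omega)
        have h6 := hc (j - 1) (by omega)
        have g1 := hf (show (j : ℕ) - 1 ≤ j by omega)
        have g2 := hf (show (j : ℕ) ≤ j + 1 by omega)
        have g3 := hg (show (j : ℕ) - 1 ≤ j by omega)
        have g4 := hg (show (j : ℕ) ≤ j + 1 by omega)
        refine ⟨by omega, by omega, ?_⟩
        omega
  -- the flip of a monotone map
  have hfm : ∀ {r : ℕ} (c : Mo (n + 1) r) (j : ℕ), 0 < j → A012ex c (j + 1) ≤ A012ex c j + 1 →
      A012ex c j ≤ A012ex c (j - 1) + 1 →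
      Monotone (fun k => if k = j then A012ex c (j - 1) + A012ex c (j + 1) - A012ex c j
        else A012ex c k) := by
    intro r c j hj h1 h2
    have hm := A012ex_mono c
    apply monotone_nat_of_le_succ
    intro k
    have g1 := hm (show (j : ℕ) - 1 ≤ j by omega)
    have g2 := hm (show (j : ℕ) ≤ j + 1 by omega)
    try dsimp only
    by_cases h3 : k = j
    · rw [if_pos h3, if_neg (by omega), h3]; omega
    · rw [if_neg h3]
      by_cases h4 : k + 1 = j
      · rw [if_pos h4]
        have : k = j - 1 := by omega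
        rw [this]; omega
      · rw [if_neg h4]; exact hm (by omega)
  have hex : ∀ t ∈ (Finset.univ : Finset (Fin (n + 2) × Mo (n + 1) p × Mo (n + 1) q)).filter
        (fun t => A012ch t.2.1 t.2.2 ∧ ¬ A012one t.2.1 t.1 ∧ ¬ A012one t.2.2 t.1),
      ∃ a' : Mo (n + 1) p, ∃ b' : Mo (n + 1) q,
        (∀ k ≤ n + 1, A012ex a' k = if k = (t.1 : ℕ) then A012ex t.2.1 (t.1 - 1) +
          A012ex t.2.1 (t.1 + 1) - A012ex t.2.1 t.1 else A012ex t.2.1 k) ∧
        (∀ k ≤ n + 1, A012ex b' k = if k = (t.1 : ℕ) then A012ex t.2.2 (t.1 - 1) +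
          A012ex t.2.2 (t.1 + 1) - A012ex t.2.2 t.1 else A012ex t.2.2 k) := by
    rintro ⟨j, a, b⟩ ht
    simp only [Finset.mem_filter, Finset.mem_univ, true_and] at ht
    obtain ⟨hc, h1, h2⟩ := ht
    obtain ⟨h3, h4, h5⟩ := key j a b hc h1 h2
    have hap := A012ex_le a
    have hbq := A012ex_le b
    refine ⟨A012mk (n + 1) p _ (hfm a j h3 (by omega) (by omega)) ?_,
      A012mk (n + 1) q _ (hfm b j h3 (by omega) (by omega)) ?_, ?_, ?_⟩
    · intro k _
      have g1 := hap k
      have g2 := hap (j - 1)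
      have g3 := hap (j + 1)
      have g4 := hap j
      try dsimp only
      split_ifs <;> omega
    · intro k _
      have g1 := hbq k
      have g2 := hbq (j - 1)
      have g3 := hbq (j + 1)
      have g4 := hbq j
      try dsimp only
      split_ifs <;> omega
    · intro k hk
      exact A012ex_mk _ _ _ hk
    · intro k hk
      exact A012ex_mk _ _ _ hk
  choose! φ ψ hφ hψ using hex
  have hcomp : ∀ {r : ℕ} (c c' : Mo (n + 1) r) (j : Fin (n + 2)) (v : ℕ),
      (∀ k ≤ n + 1, A012ex c' k = if k = (j : ℕ) then v else A012ex c k) →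
      c'.comp (dlt j) = c.comp (dlt j) := by
    intro r c c' j v h
    apply A012ext
    intro k hk
    rw [A012ex_comp_dlt _ _ hk, A012ex_comp_dlt _ _ hk, h _ (by split_ifs <;> omega), if_neg]
    split_ifs <;> omega
  have hmem : ∀ t ∈ (Finset.univ : Finset (Fin (n + 2) × Mo (n + 1) p × Mo (n + 1) q)).filter
        (fun t => A012ch t.2.1 t.2.2 ∧ ¬ A012one t.2.1 t.1 ∧ ¬ A012one t.2.2 t.1),
      (t.1, φ t, ψ t) ∈ (Finset.univ : Finset (Fin (n + 2) × Mo (n + 1) p × Mo (n + 1) q)).filter
        (fun t => A012ch t.2.1 t.2.2 ∧ ¬ A012one t.2.1 t.1 ∧ ¬ A012one t.2.2 t.1) := by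
    intro t ht
    have ha := hφ t ht
    have hb := hψ t ht
    generalize φ t = a' at ha ⊢
    generalize ψ t = b' at hb ⊢
    obtain ⟨j, a, b⟩ := t
    simp only [Finset.mem_filter, Finset.mem_univ, true_and] at ht ⊢
    obtain ⟨hc, h1, h2⟩ := ht
    obtain ⟨h3, h4, h5⟩ := key j a b hc h1 h2
    have ha1 := ha (j - 1) (by omega)
    have ha2 := ha (j + 1) (by omega)
    have ha3 := ha j (by omega)
    have hb1 := hb (j - 1) (by omega)
    have hb2 := hb (j + 1) (by omega)
    have hb3 := hb j (by omega)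
    rw [if_neg (show ¬ ((j : ℕ) - 1 = j) by omega)] at ha1 hb1
    rw [if_neg (show ¬ ((j : ℕ) + 1 = j) by omega)] at ha2 hb2
    rw [if_pos rfl] at ha3 hb3
    refine ⟨?_, ?_, ?_⟩
    · intro k hk
      have e1 := ha k hk
      have e2 := hb k hk
      have e3 := hc k hk
      by_cases h : k = (j : ℕ)
      · rw [if_pos h] at e1 e2
        rw [h] at e3 ⊢ e1 e2
        have e4 := hc j (by omega)
        try dsimp only at e1 e2 e3 e4
        omega
      · rw [if_neg h] at e1 e2
        rw [e1, e2]; exact e3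
    · intro h
      have g1 := h (j - 1) (by omega) (by omega)
      have g2 := h (j + 1) (by omega) (by omega)
      try dsimp only at ha1 ha2 ha3
      omega
    · intro h
      have g1 := h (j - 1) (by omega) (by omega)
      have g2 := h (j + 1) (by omega) (by omega)
      try dsimp only at hb1 hb2 hb3
      omega
  refine Finset.sum_involution (fun t _ => (t.1, φ t, ψ t)) ?_ ?_ hmem ?_
  · intro t ht
    have e1 := hcomp t.2.1 (φ t) t.1 _ (hφ t ht)
    have e2 := hcomp t.2.2 (ψ t) t.1 _ (hψ t ht)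
    show F (t.2.1.comp (dlt t.1)) (t.2.2.comp (dlt t.1)) + F ((φ t).comp (dlt t.1)) ((ψ t).comp (dlt t.1)) = 0
    rw [e1, e2]; exact h2 _
  · intro t ht _ h
    have e1 := hφ t ht t.1 (by omega)
    rw [if_pos rfl] at e1
    have e2 : φ t = t.2.1 := congrArg (fun u => u.2.1) h
    obtain ⟨hc, g1, g2⟩ := (Finset.mem_filter.1 ht).2
    obtain ⟨h3, h4, h5⟩ := key t.1 t.2.1 t.2.2 hc g1 g2
    rw [e2] at e1
    omega
  · intro t ht
    have m := hmem t ht
    have e1 := hφ t ht
    have e2 := hψ t ht
    have e3 := hφ _ m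
    have e4 := hψ _ m
    obtain ⟨hc, g1, g2⟩ := (Finset.mem_filter.1 ht).2
    obtain ⟨h3, h4, h5⟩ := key t.1 t.2.1 t.2.2 hc g1 g2
    have e11 := e1 (t.1 - 1) (by omega)
    have e12 := e1 (t.1 + 1) (by omega)
    have e13 := e1 t.1 (by omega)
    have e21 := e2 (t.1 - 1) (by omega)
    have e22 := e2 (t.1 + 1) (by omega)
    have e23 := e2 t.1 (by omega)
    rw [if_neg (show ¬ ((t.1 : ℕ) - 1 = t.1) by omega)] at e11 e21
    rw [if_neg (show ¬ ((t.1 : ℕ) + 1 = t.1) by omega)] at e12 e22
    rw [if_pos rfl] at e13 e23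
    refine Prod.ext rfl (Prod.ext ?_ ?_)
    · apply A012ext
      intro k hk
      rw [e3 k hk]
      show (if k = (t.1 : ℕ) then A012ex (φ t) (t.1 - 1) + A012ex (φ t) (t.1 + 1) - A012ex (φ t) t.1
        else A012ex (φ t) k) = A012ex t.2.1 k
      by_cases h : k = (t.1 : ℕ)
      · rw [if_pos h, h]; omega
      · rw [if_neg h, e1 k hk, if_neg h]
    · apply A012ext
      intro k hk
      rw [e4 k hk]
      show (if k = (t.1 : ℕ) then A012ex (ψ t) (t.1 - 1) + A012ex (ψ t) (t.1 + 1) - A012ex (ψ t) t.1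
        else A012ex (ψ t) k) = A012ex t.2.2 k
      by_cases h : k = (t.1 : ℕ)
      · rw [if_pos h, h]; omega
      · rw [if_neg h, e2 k hk, if_neg h]

/-- the terms of the first kind -/
private theorem A012first {M : Type*} [AddCommGroup M] {n p q : ℕ} (hn : p + q = n)
    (F : Mo n (p + 1) → Mo n q → M) : by
      classical
      exact ∑ t ∈ (Finset.univ : Finset (Fin (n + 2) × Mo (n + 1) (p + 1) × Mo (n + 1) q)).filter
        (fun t => A012ch t.2.1 t.2.2 ∧ A012one t.2.1 t.1),
        F (t.2.1.comp (dlt t.1)) (t.2.2.comp (dlt t.1)) =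
      ∑ u ∈ (Finset.univ : Finset (Fin (p + 2) × Mo n p × Mo n q)).filter
        (fun u => A012ch u.2.1 u.2.2), F ((dlt u.1).comp u.2.1) u.2.2 := by
  classical
  -- for every term of the right side there is one of the left side
  have hR : ∀ u ∈ (Finset.univ : Finset (Fin (p + 2) × Mo n p × Mo n q)).filter
        (fun u => A012ch u.2.1 u.2.2),
      ∃ t ∈ (Finset.univ : Finset (Fin (n + 2) × Mo (n + 1) (p + 1) × Mo (n + 1) q)).filter
        (fun t => A012ch t.2.1 t.2.2 ∧ A012one t.2.1 t.1),
        A012ex t.2.1 t.1 = u.1 ∧ t.2.1.comp (dlt t.1) = (dlt u.1).comp u.2.1 ∧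
          t.2.2.comp (dlt t.1) = u.2.2 := by
    rintro ⟨i, a', b'⟩ hu
    simp only [Finset.mem_filter, Finset.mem_univ, true_and] at hu
    have hf := A012ex_mono a'
    have hg := A012ex_mono b'
    have hfp := A012ex_le a'
    have hgq := A012ex_le b'
    have hi : (i : ℕ) ≤ p + 1 := by omega
    set f := A012ex a' with hfd
    set g := A012ex b' with hgd
    have hch : ∀ k ≤ n, f k + g k = k := hu
    have hex : ∃ m, m = n + 1 ∨ (i : ℕ) ≤ f m := ⟨n + 1, Or.inl rfl⟩
    set j := Nat.find hex with hj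
    have hj1 : j ≤ n + 1 := Nat.find_min' hex (Or.inl rfl)
    have hjs : j = n + 1 ∨ (i : ℕ) ≤ f j := Nat.find_spec hex
    have hlt : ∀ k < j, f k < i := by
      intro k hk
      have := Nat.find_min hex hk
      omega
    have h0 : f 0 = 0 := by have := hch 0 (by omega); omega
    have hfn : f n = p := by have := hch n le_rfl; have := hfp n; have := hgq n; omega
    have hprev : 0 < j → f (j - 1) + 1 = i := by
      intro hj0
      have h3 := hlt (j - 1) (by omega)
      rcases Nat.lt_or_ge n j with h4 | h4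
      · have h5 : j - 1 = n := by omega
        rw [h5] at h3 ⊢
        omega
      · have h5 : (i : ℕ) ≤ f j := by omega
        have h6 := hch j h4
        have h7 := hch (j - 1) (by omega)
        have h8 := hg (show j - 1 ≤ j by omega)
        omega
    have hat : j ≤ n → f j = i := by
      intro h4
      have h5 : (i : ℕ) ≤ f j := by omega
      rcases Nat.eq_zero_or_pos j with h6 | h6
      · rw [h6] at h5 ⊢; omega
      · have h7 := hprev h6
        have h8 := hch j h4
        have h9 := hch (j - 1) (by omega)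
        have h10 := hg (show j - 1 ≤ j by omega)
        omega
    have hij : (i : ℕ) ≤ j := by
      rcases Nat.eq_zero_or_pos j with h6 | h6
      · have := hat (by omega); rw [h6] at this; omega
      · have h7 := hprev h6
        have h9 := hch (j - 1) (by omega)
        omega
    have hbj1 : 0 < j → g (j - 1) = j - i := by
      intro h6
      have h7 := hprev h6
      have h9 := hch (j - 1) (by omega)
      omega
    have hbj2 : j ≤ n → g j = j - i := by
      intro h6
      have h7 := hat h6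
      have h9 := hch j h6
      omega
    have ha : Monotone (fun k => if k < j then f k else if k = j then (i : ℕ) else f (k - 1) + 1) := by
      apply monotone_nat_of_le_succ
      intro k
      try dsimp only
      by_cases h1 : k + 1 < j
      · rw [if_pos h1, if_pos (by omega)]; exact hf (by omega)
      · rw [if_neg h1]
        by_cases h2 : k + 1 = j
        · rw [if_pos h2, if_pos (by omega)]
          exact (hlt k (by omega)).le
        · rw [if_neg h2, if_neg (by omega)]
          by_cases h3 : k = j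
          · rw [if_pos h3]
            have h4 : k + 1 - 1 = j := by omega
            rw [h4]
            rcases Nat.lt_or_ge n j with h5 | h5
            · have := hprev (by omega)
              have := hf (show j - 1 ≤ j by omega)
              omega
            · have := hat h5
              omega
          · rw [if_neg h3]
            have := hf (show k - 1 ≤ k + 1 - 1 by omega)
            omega
    have hb : Monotone (fun k => if k < j then g k else if k = j then (j - i : ℕ) else g (k - 1)) := by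
      apply monotone_nat_of_le_succ
      intro k
      try dsimp only
      by_cases h1 : k + 1 < j
      · rw [if_pos h1, if_pos (by omega)]; exact hg (by omega)
      · rw [if_neg h1]
        by_cases h2 : k + 1 = j
        · rw [if_pos h2, if_pos (by omega)]
          have h3 := hbj1 (by omega)
          rw [← h3]
          exact hg (by omega)
        · rw [if_neg h2, if_neg (by omega)]
          by_cases h3 : k = j
          · rw [if_pos h3]
            have h4 : k + 1 - 1 = j := by omega
            rw [h4]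
            rcases Nat.lt_or_ge n j with h5 | h5
            · have := hbj1 (by omega)
              have := hg (show j - 1 ≤ j by omega)
              omega
            · have := hbj2 h5
              omega
          · rw [if_neg h3]
            exact hg (by omega)
    have hap : ∀ k ≤ n + 1, (fun k => if k < j then f k else if k = j then (i : ℕ) else f (k - 1) + 1) k
        ≤ p + 1 := by
      intro k _
      try dsimp only
      have := hfp k
      have := hfp (k - 1)
      split_ifs <;> omega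
    have hbq : ∀ k ≤ n + 1, (fun k => if k < j then g k else if k = j then (j - i : ℕ) else g (k - 1)) k
        ≤ q := by
      intro k _
      try dsimp only
      have h1 := hgq k
      have h2 := hgq (k - 1)
      have h3 : j - i ≤ q := by
        rcases Nat.eq_zero_or_pos j with h6 | h6
        · omega
        · have h7 := hbj1 h6
          have := hgq (j - 1)
          omega
      split_ifs <;> omega
    refine ⟨(⟨j, by omega⟩, A012mk (n + 1) (p + 1) _ ha hap, A012mk (n + 1) q _ hb hbq), ?_, ?_, ?_, ?_⟩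
    · simp only [Finset.mem_filter, Finset.mem_univ, true_and]
      constructor
      · intro k hk
        rw [A012ex_mk _ _ _ hk, A012ex_mk _ _ _ hk]
        try dsimp only
        by_cases h1 : k < j
        · rw [if_pos h1, if_pos h1]; exact hch k (by omega)
        · rw [if_neg h1, if_neg h1]
          by_cases h2 : k = j
          · rw [if_pos h2, if_pos h2]; omega
          · rw [if_neg h2, if_neg h2]
            have := hch (k - 1) (by omega)
            omega
      · intro k hk hkj
        have hkj' : k ≠ j := hkj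
        rw [A012ex_mk _ _ _ hk, A012ex_mk _ _ _ hj1]
        try dsimp only
        rw [if_neg (lt_irrefl j), if_pos rfl]
        by_cases h1 : k < j
        · rw [if_pos h1]; exact (hlt k h1).ne
        · rw [if_neg h1, if_neg hkj']
          have h2 := hat (by omega)
          have := hf (show j ≤ k - 1 by omega)
          omega
    · show A012ex _ j = i
      rw [A012ex_mk _ _ _ hj1]
      try dsimp only
      rw [if_neg (lt_irrefl j), if_pos rfl]
    · apply A012ext
      intro k hk
      rw [A012ex_comp_dlt _ _ hk, A012ex_dlt_comp]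
      show A012ex _ (if k < j then k else k + 1) = if f k < (i : ℕ) then f k else f k + 1
      by_cases h1 : k < j
      · rw [if_pos h1, A012ex_mk _ _ _ (by omega)]
        try dsimp only
        rw [if_pos h1, if_pos (hlt k h1)]
      · rw [if_neg h1, A012ex_mk _ _ _ (by omega)]
        try dsimp only
        rw [if_neg (by omega), if_neg (by omega), if_neg]
        · rfl
        · have h2 := hat (by omega)
          have := hf (show j ≤ k by omega)
          omega
    · apply A012ext
      intro k hk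
      rw [A012ex_comp_dlt _ _ hk]
      show A012ex _ (if k < j then k else k + 1) = g k
      by_cases h1 : k < j
      · rw [if_pos h1, A012ex_mk _ _ _ (by omega)]
        try dsimp only
        rw [if_pos h1]
      · rw [if_neg h1, A012ex_mk _ _ _ (by omega)]
        try dsimp only
        rw [if_neg (by omega), if_neg (by omega)]
        rfl
  -- uniqueness
  have huniq : ∀ t ∈ (Finset.univ : Finset (Fin (n + 2) × Mo (n + 1) (p + 1) × Mo (n + 1) q)).filter
        (fun t => A012ch t.2.1 t.2.2 ∧ A012one t.2.1 t.1),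
      ∀ t' ∈ (Finset.univ : Finset (Fin (n + 2) × Mo (n + 1) (p + 1) × Mo (n + 1) q)).filter
        (fun t => A012ch t.2.1 t.2.2 ∧ A012one t.2.1 t.1),
      A012ex t.2.1 t.1 = A012ex t'.2.1 t'.1 → t.2.1.comp (dlt t.1) = t'.2.1.comp (dlt t'.1) →
      t.2.2.comp (dlt t.1) = t'.2.2.comp (dlt t'.1) → t = t' := by
    rintro ⟨j, a, b⟩ ht ⟨j', a', b'⟩ ht' h1 h2 h3
    simp only [Finset.mem_filter, Finset.mem_univ, true_and] at ht ht' h1 h2 h3
    have hjj : (j : ℕ) = j' := by
      by_contra hne
      have hk : ∀ k ≤ n, (if k < (j : ℕ) then k else k + 1) = if k < (j' : ℕ) then k else k + 1 := by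
        intro k hk
        have e1 := congrArg (fun c => A012ex c k) h2
        have e2 := congrArg (fun c => A012ex c k) h3
        rw [A012ex_comp_dlt _ _ hk, A012ex_comp_dlt _ _ hk] at e1 e2
        have e3 := ht.1 (if k < (j : ℕ) then k else k + 1) (by split_ifs <;> omega)
        have e4 := ht'.1 (if k < (j' : ℕ) then k else k + 1) (by split_ifs <;> omega)
        omega
      rcases Nat.lt_or_gt_of_ne hne with h4 | h4
      · have := hk j (by omega)
        rw [if_neg (lt_irrefl _), if_pos h4] at this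
        omega
      · have := hk j' (by omega)
        rw [if_neg (lt_irrefl _), if_pos h4] at this
        omega
    have hjj' : j = j' := Fin.ext hjj
    subst hjj'
    have haj : ∀ k ≤ n + 1, A012ex a k = A012ex a' k ∧ A012ex b k = A012ex b' k := by
      intro k hk
      by_cases h5 : k = (j : ℕ)
      · rw [h5]
        have e3 := ht.1 j (by omega)
        have e4 := ht'.1 j (by omega)
        constructor <;> omega
      · have hkk : ∃ l ≤ n, (if l < (j : ℕ) then l else l + 1) = k := by
          rcases Nat.lt_or_gt_of_ne h5 with h6 | h6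
          · exact ⟨k, by omega, by rw [if_pos h6]⟩
          · exact ⟨k - 1, by omega, by rw [if_neg (by omega)]; omega⟩
        obtain ⟨l, hl, hlk⟩ := hkk
        have e1 := congrArg (fun c => A012ex c l) h2
        have e2 := congrArg (fun c => A012ex c l) h3
        rw [A012ex_comp_dlt _ _ hl, A012ex_comp_dlt _ _ hl, hlk] at e1 e2
        exact ⟨e1, e2⟩
    have e1 : a = a' := A012ext fun k hk => (haj k hk).1
    have e2 : b = b' := A012ext fun k hk => (haj k hk).2
    rw [e1, e2]
  -- every term of the left side gives one of the right side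
  have hL : ∀ t ∈ (Finset.univ : Finset (Fin (n + 2) × Mo (n + 1) (p + 1) × Mo (n + 1) q)).filter
        (fun t => A012ch t.2.1 t.2.2 ∧ A012one t.2.1 t.1),
      ∃ u ∈ (Finset.univ : Finset (Fin (p + 2) × Mo n p × Mo n q)).filter
        (fun u => A012ch u.2.1 u.2.2),
        A012ex t.2.1 t.1 = u.1 ∧ t.2.1.comp (dlt t.1) = (dlt u.1).comp u.2.1 ∧
          t.2.2.comp (dlt t.1) = u.2.2 := by
    rintro ⟨j, a, b⟩ ht
    simp only [Finset.mem_filter, Finset.mem_univ, true_and] at ht
    obtain ⟨hc', ho'⟩ := ht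
    have hc : A012ch a b := hc'
    have ho : A012one a j := ho'
    have hf := A012ex_mono a
    have hjn : (j : ℕ) ≤ n + 1 := by omega
    have hlo : ∀ k < (j : ℕ), A012ex a k < A012ex a j := fun k hk =>
      lt_of_le_of_ne (hf hk.le) (ho k (by omega) hk.ne)
    have hhi : ∀ k ≤ n + 1, (j : ℕ) < k → A012ex a j < A012ex a k := fun k hk hk' =>
      lt_of_le_of_ne (hf hk'.le) (ho k hk hk'.ne').symm
    have hmono : Monotone (fun k => if k < (j : ℕ) then A012ex a k else A012ex a (k + 1) - 1) := by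
      apply monotone_nat_of_le_succ
      intro k
      try dsimp only
      by_cases h1 : k + 1 < (j : ℕ)
      · rw [if_pos h1, if_pos (by omega)]; exact hf (by omega)
      · rw [if_neg h1]
        by_cases h2 : k < (j : ℕ)
        · rw [if_pos h2]
          have h3 := hlo k h2
          have h4 := hf (show (j : ℕ) ≤ k + 1 + 1 by omega)
          omega
        · rw [if_neg h2]
          have := hf (show k + 1 ≤ k + 1 + 1 by omega)
          omega
    have hle : ∀ k ≤ n, (fun k => if k < (j : ℕ) then A012ex a k else A012ex a (k + 1) - 1) k ≤ p := by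
      intro k hk
      try dsimp only
      have h1 := A012ex_le a (k + 1)
      have h2 := A012ex_le a j
      by_cases h3 : k < (j : ℕ)
      · rw [if_pos h3]
        have := hlo k h3
        omega
      · rw [if_neg h3]; omega
    refine ⟨(⟨A012ex a j, Nat.lt_succ_of_le (A012ex_le a j)⟩, A012mk n p _ hmono hle,
      b.comp (dlt j)), ?_, rfl, ?_, rfl⟩
    · simp only [Finset.mem_filter, Finset.mem_univ, true_and]
      intro k hk
      rw [A012ex_mk _ _ _ hk, A012ex_comp_dlt _ _ hk]
      try dsimp only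
      by_cases h1 : k < (j : ℕ)
      · rw [if_pos h1, if_pos h1]
        exact hc k (by omega)
      · rw [if_neg h1, if_neg h1]
        have h2 := hc (k + 1) (by omega)
        have h3 := hhi (k + 1) (by omega) (by omega)
        omega
    · apply A012ext
      intro k hk
      rw [A012ex_comp_dlt _ _ hk, A012ex_dlt_comp, A012ex_mk _ _ _ hk]
      show A012ex a (if k < (j : ℕ) then k else k + 1) =
        if (if k < (j : ℕ) then A012ex a k else A012ex a (k + 1) - 1) < A012ex a j then
        (if k < (j : ℕ) then A012ex a k else A012ex a (k + 1) - 1)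
        else (if k < (j : ℕ) then A012ex a k else A012ex a (k + 1) - 1) + 1
      by_cases h1 : k < (j : ℕ)
      · rw [if_pos h1, if_pos h1, if_pos (hlo k h1)]
      · rw [if_neg h1, if_neg h1]
        have h3 := hhi (k + 1) (by omega) (by omega)
        rw [if_neg (by omega)]
        omega
  choose! φ hφ hφ1 hφ2 hφ3 using hL
  refine Finset.sum_bij (fun t _ => φ t) hφ ?_ ?_ ?_
  · intro t ht t' ht' h
    exact huniq t ht t' ht' (by rw [hφ1 t ht, hφ1 t' ht', h]) (by rw [hφ2 t ht, hφ2 t' ht', h])
      (by rw [hφ3 t ht, hφ3 t' ht', h])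
  · intro u hu
    obtain ⟨t, ht, h1, h2, h3⟩ := hR u hu
    refine ⟨t, ht, ?_⟩
    have e1 := hφ1 t ht
    have e2 := hφ2 t ht
    have e3 := hφ3 t ht
    have f1 : (φ t).1 = u.1 := Fin.ext (by rw [← e1, h1])
    have f3 : (φ t).2.2 = u.2.2 := by rw [← e3, h3]
    have f2 : (φ t).2.1 = u.2.1 := by
      apply A012ext
      intro k hk
      have g1 := (Finset.mem_filter.1 (hφ t ht)).2 k hk
      have g2 := (Finset.mem_filter.1 hu).2 k hk
      rw [f3] at g1
      omega
    exact Prod.ext f1 (Prod.ext f2 f3)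
  · intro t ht
    rw [hφ2 t ht, hφ3 t ht]

/-- a maximal chain has no repetition in both coordinates -/
private theorem A012excl {n p q : ℕ} {a : Mo (n + 1) p} {b : Mo (n + 1) q} (hc : A012ch a b)
    (j : Fin (n + 2)) : ¬ (A012one a j ∧ A012one b j) := by
  rintro ⟨ha, hb⟩
  have hf := A012ex_mono a
  have hg := A012ex_mono b
  have hjn : (j : ℕ) ≤ n + 1 := by omega
  have h1 := hc j hjn
  by_cases h : (j : ℕ) ≤ n
  · have h2 := hc (j + 1) (by omega)
    have h3 := ha (j + 1) (by omega) (by omega)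
    have h4 := hb (j + 1) (by omega) (by omega)
    have h5 := hf (show (j : ℕ) ≤ j + 1 by omega)
    have h6 := hg (show (j : ℕ) ≤ j + 1 by omega)
    omega
  · have h2 := hc (j - 1) (by omega)
    have h3 := ha (j - 1) (by omega) (by omega)
    have h4 := hb (j - 1) (by omega) (by omega)
    have h5 := hf (show (j : ℕ) - 1 ≤ j by omega)
    have h6 := hg (show (j : ℕ) - 1 ≤ j by omega)
    omega

private theorem A012total {P Q : SV} {p q n : ℕ} (h : p + q = n + 1) (x : P.V p) (y : Q.V q) :
    (P.tens Q).d n (crs (n + 1) x y) = by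
      classical
      exact (∑ t ∈ (Finset.univ : Finset (Fin (n + 2) × Mo (n + 1) p × Mo (n + 1) q)).filter
        (fun t => A012ch t.2.1 t.2.2 ∧ A012one t.2.1 t.1),
        (P.act (t.2.1.comp (dlt t.1)) x) ⊗ₜ[ZMod 2] (Q.act (t.2.2.comp (dlt t.1)) y)) +
      (∑ t ∈ (Finset.univ : Finset (Fin (n + 2) × Mo (n + 1) p × Mo (n + 1) q)).filter
        (fun t => A012ch t.2.1 t.2.2 ∧ A012one t.2.2 t.1),
        (P.act (t.2.1.comp (dlt t.1)) x) ⊗ₜ[ZMod 2] (Q.act (t.2.2.comp (dlt t.1)) y)) := by
  classical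
  have e0 : (P.tens Q).d n (crs (n + 1) x y) =
      ∑ t ∈ (Finset.univ : Finset (Fin (n + 2) × Mo (n + 1) p × Mo (n + 1) q)).filter
        (fun t => A012ch t.2.1 t.2.2),
        (P.act (t.2.1.comp (dlt t.1)) x) ⊗ₜ[ZMod 2] (Q.act (t.2.2.comp (dlt t.1)) y) := by
    have e00 : (∑ t ∈ (Finset.univ : Finset (Fin (n + 2) × Mo (n + 1) p × Mo (n + 1) q)).filter
        (fun t => A012ch t.2.1 t.2.2),
        ((P.act (t.2.1.comp (dlt t.1)) x) ⊗ₜ[ZMod 2] (Q.act (t.2.2.comp (dlt t.1)) y) :
          (P.tens Q).V n)) =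
        ∑ j : Fin (n + 2), ∑ u : Mo (n + 1) p × Mo (n + 1) q, if A012ch u.1 u.2 then
        (P.act (u.1.comp (dlt j)) x) ⊗ₜ[ZMod 2] (Q.act (u.2.comp (dlt j)) y) else 0 := by
      rw [Finset.sum_filter, Fintype.sum_prod_type]
    rw [e00, A012crs h, SV.d, LinearMap.sum_apply]
    refine Finset.sum_congr rfl fun j _ => ?_
    rw [map_sum, Finset.sum_filter]
    refine Finset.sum_congr rfl fun u _ => ?_
    by_cases hu : A012ch u.1 u.2
    · rw [if_pos hu, if_pos hu]
      show TensorProduct.map (P.act (dlt j)) (Q.act (dlt j)) (P.act u.1 x ⊗ₜ[ZMod 2] Q.act u.2 y) = _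
      rw [TensorProduct.map_tmul, P.act_comp, Q.act_comp]
    · rw [if_neg hu, if_neg hu]
  have e1 := A012mixed (M := (P.tens Q).V n) (fun z => two_eq_zero' z) (p := p) (q := q)
    (fun a b => (P.act a x) ⊗ₜ[ZMod 2] (Q.act b y))
  rw [e0, ← Finset.sum_filter_add_sum_filter_not _ (fun t => A012one t.2.1 t.1), Finset.filter_filter,
    Finset.filter_filter]
  congr 1
  rw [← Finset.sum_filter_add_sum_filter_not _ (fun t => A012one t.2.2 t.1), Finset.filter_filter,
    Finset.filter_filter]
  have e2 : ∑ t ∈ (Finset.univ : Finset (Fin (n + 2) × Mo (n + 1) p × Mo (n + 1) q)).filter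
        (fun t => (A012ch t.2.1 t.2.2 ∧ ¬ A012one t.2.1 t.1) ∧ ¬ A012one t.2.2 t.1),
        (P.act (t.2.1.comp (dlt t.1)) x) ⊗ₜ[ZMod 2] (Q.act (t.2.2.comp (dlt t.1)) y) = 0 := by
    rw [← e1]
    refine Finset.sum_congr (Finset.filter_congr fun t _ => ?_) fun _ _ => rfl
    rw [and_assoc]
  rw [e2, add_zero]
  refine Finset.sum_congr (Finset.filter_congr fun t _ => ?_) fun _ _ => rfl
  constructor
  · rintro ⟨⟨h1, -⟩, h2⟩; exact ⟨h1, h2⟩
  · rintro ⟨h1, h2⟩; exact ⟨⟨h1, fun h3 => A012excl h1 t.1 ⟨h3, h2⟩⟩, h2⟩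

private theorem A012left {P Q : SV} {p q n : ℕ} (h : p + q = n) (x : P.V (p + 1)) (y : Q.V q) : by
      classical
      exact (∑ t ∈ (Finset.univ : Finset (Fin (n + 2) × Mo (n + 1) (p + 1) × Mo (n + 1) q)).filter
        (fun t => A012ch t.2.1 t.2.2 ∧ A012one t.2.1 t.1),
        (P.act (t.2.1.comp (dlt t.1)) x) ⊗ₜ[ZMod 2] (Q.act (t.2.2.comp (dlt t.1)) y)) =
      (crs n (P.d p x) y : (P.tens Q).V n) := by
  classical
  have e1 := A012first h (fun a b => ((P.act a x) ⊗ₜ[ZMod 2] (Q.act b y) : (P.tens Q).V n))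
  refine e1.trans ?_
  rw [A012crs h, Finset.sum_filter, Finset.sum_filter, Fintype.sum_prod_type, Finset.sum_comm]
  refine Finset.sum_congr rfl fun u _ => ?_
  by_cases hu : A012ch u.1 u.2
  · rw [if_pos hu, SV.d, LinearMap.sum_apply, map_sum, TensorProduct.sum_tmul]
    refine Finset.sum_congr rfl fun i _ => ?_
    rw [if_pos hu, P.act_comp]
  · rw [if_neg hu]
    exact Finset.sum_eq_zero fun i _ => if_neg hu

private theorem A012right {P Q : SV} {p q n : ℕ} (h : p + q = n) (x : P.V p) (y : Q.V (q + 1)) : by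
      classical
      exact (∑ t ∈ (Finset.univ : Finset (Fin (n + 2) × Mo (n + 1) p × Mo (n + 1) (q + 1))).filter
        (fun t => A012ch t.2.1 t.2.2 ∧ A012one t.2.2 t.1),
        (P.act (t.2.1.comp (dlt t.1)) x) ⊗ₜ[ZMod 2] (Q.act (t.2.2.comp (dlt t.1)) y)) =
      (crs n x (Q.d q y) : (P.tens Q).V n) := by
  classical
  have e1 := A012first (show q + p = n by omega)
    (fun b a => ((P.act a x) ⊗ₜ[ZMod 2] (Q.act b y) : (P.tens Q).V n))
  have e2 : (∑ t ∈ (Finset.univ : Finset (Fin (n + 2) × Mo (n + 1) p × Mo (n + 1) (q + 1))).filter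
        (fun t => A012ch t.2.1 t.2.2 ∧ A012one t.2.2 t.1),
        (P.act (t.2.1.comp (dlt t.1)) x) ⊗ₜ[ZMod 2] (Q.act (t.2.2.comp (dlt t.1)) y)) =
      ∑ t ∈ (Finset.univ : Finset (Fin (n + 2) × Mo (n + 1) (q + 1) × Mo (n + 1) p)).filter
        (fun t => A012ch t.2.1 t.2.2 ∧ A012one t.2.1 t.1),
        (P.act (t.2.2.comp (dlt t.1)) x) ⊗ₜ[ZMod 2] (Q.act (t.2.1.comp (dlt t.1)) y) := by
    refine Finset.sum_nbij' (fun t => (t.1, t.2.2, t.2.1)) (fun t => (t.1, t.2.2, t.2.1)) ?_ ?_
      (fun _ _ => rfl) (fun _ _ => rfl) (fun _ _ => rfl)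
    · intro t ht
      obtain ⟨-, h1, h2⟩ := Finset.mem_filter.1 ht
      exact Finset.mem_filter.2 ⟨Finset.mem_univ _, A012ch_symm h1, h2⟩
    · intro t ht
      obtain ⟨-, h1, h2⟩ := Finset.mem_filter.1 ht
      exact Finset.mem_filter.2 ⟨Finset.mem_univ _, A012ch_symm h1, h2⟩
  rw [e2]
  refine e1.trans ?_
  rw [A012crs h, Finset.sum_filter, Finset.sum_filter, Fintype.sum_prod_type, Finset.sum_comm,
    ← Equiv.sum_comp (Equiv.prodComm (Mo n p) (Mo n q))]
  refine Finset.sum_congr rfl fun u _ => ?_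
  show (∑ i, if A012ch u.2 u.1 then (P.act u.1 x) ⊗ₜ[ZMod 2] (Q.act ((dlt i).comp u.2) y) else 0) = _
  by_cases hu : A012ch u.1 u.2
  · rw [if_pos hu, SV.d, LinearMap.sum_apply, map_sum, TensorProduct.tmul_sum]
    refine Finset.sum_congr rfl fun i _ => ?_
    rw [if_pos (A012ch_symm hu), Q.act_comp]
  · rw [if_neg hu]
    exact Finset.sum_eq_zero fun i _ => if_neg fun h' => hu (A012ch_symm h')

private theorem A012none {n : ℕ} (a : Mo (n + 1) 0) (j : Fin (n + 2)) : ¬ A012one a j := by
  intro h
  have h0 : ∀ k, A012ex a k = 0 := fun k => Nat.le_zero.1 (A012ex_le a k)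
  by_cases hj : (j : ℕ) = 0
  · exact h 1 (by omega) (by omega) (by rw [h0, h0])
  · exact h 0 (by omega) (by omega) (by rw [h0, h0])

theorem d_crs {P Q : SV} {p q n : ℕ} (x : P.V (p + 1)) (y : Q.V (q + 1)) :
    (P.tens Q).d n (crs (n + 1) x y) = crs n (P.d p x) y + crs n x (Q.d q y) := by
  classical
  by_cases h : p + q + 1 = n
  · rw [A012total (by omega), ← A012left (show p + (q + 1) = n by omega),
      ← A012right (show p + 1 + q = n by omega)]
  · rw [A012crs_zero (by omega), A012crs_zero (by omega), A012crs_zero (by omega), map_zero, add_zero]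

theorem d_crs_zero_left {P Q : SV} {q n : ℕ} (x : P.V 0) (y : Q.V (q + 1)) :
    (P.tens Q).d n (crs (n + 1) x y) = crs n x (Q.d q y) := by
  classical
  by_cases h : q = n
  · rw [A012total (by omega), ← A012right (show 0 + q = n by omega), Finset.sum_eq_zero, zero_add]
    intro t ht
    exact absurd (Finset.mem_filter.1 ht).2.2 (A012none t.2.1 t.1)
  · rw [A012crs_zero (by omega), A012crs_zero (by omega), map_zero]

theorem d_crs_zero_right {P Q : SV} {p n : ℕ} (x : P.V (p + 1)) (y : Q.V 0) :
    (P.tens Q).d n (crs (n + 1) x y) = crs n (P.d p x) y := by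
  classical
  by_cases h : p = n
  · rw [A012total (by omega), ← A012left (show p + 0 = n by omega), add_comm, Finset.sum_eq_zero, zero_add]
    intro t ht
    exact absurd (Finset.mem_filter.1 ht).2.2 (A012none t.2.2 t.1)
  · rw [A012crs_zero (by omega), A012crs_zero (by omega), map_zero]

end MM

end

/-! ### from `Lib_MP_33f7bb_d.A013` -/

section

/-!
# A0-13: formal properties of the cross product

Bilinearity and naturality are immediate from the definition.  `crs_mem_Z`, `crs_mem_B`: from the Leibniz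
rule.  Swap: exchange the two summations.  Associativity: both sides are the sum over triples
`(a,b,c) : [n] → [p] × [q] × [r]` with `a i + b i + c i = i` (a maximal chain of `[p] × [q] × [r]` gives, by
forgetting the third coordinate, a maximal chain of `[p] × [q]` reparametrised by a surjection).
-/

open scoped TensorProduct

namespace MM

private theorem A013_map_ite {M M' : Type*} [AddCommMonoid M] [AddCommMonoid M'] (f : M →+ M')
    (c : Prop) [Decidable c] (x : M) : f (if c then x else 0) = if c then f x else 0 := by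
  split_ifs <;> simp

/-- a maximal chain projects onto its factor -/
private theorem A013_surj {N u v : ℕ} (hN : u + v = N) (a : Mo N u) (c : Mo N v)
    (h : ∀ i, (a i : ℕ) + (c i : ℕ) = (i : ℕ)) : Function.Surjective a := by
  have key : ∀ i : ℕ, ∀ hi : i < N + 1, ∀ j : ℕ, j ≤ (a ⟨i, hi⟩ : ℕ) → ∃ i', (a i' : ℕ) = j := by
    intro i
    induction i with
    | zero =>
      intro hi j hj
      have h0 := h ⟨0, hi⟩
      simp only at h0
      exact ⟨⟨0, hi⟩, by omega⟩
    | succ i ih =>
      intro hi j hj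
      have hi' : i < N + 1 := by omega
      have h1 := h ⟨i, hi'⟩
      have h2 := h ⟨i + 1, hi⟩
      have hle : (⟨i, hi'⟩ : Fin (N + 1)) ≤ ⟨i + 1, hi⟩ := by
        rw [Fin.le_def]; exact Nat.le_succ i
      have h3 : (c ⟨i, hi'⟩ : ℕ) ≤ (c ⟨i + 1, hi⟩ : ℕ) := Fin.le_def.1 (c.monotone hle)
      simp only at h1 h2
      by_cases hj' : j ≤ (a ⟨i, hi'⟩ : ℕ)
      · exact ih hi' j hj'
      · exact ⟨⟨i + 1, hi⟩, by omega⟩
  intro j
  have hl := h (Fin.last N)
  have h1 : (c (Fin.last N) : ℕ) ≤ v := by have := (c (Fin.last N)).2; omega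
  have h2 : (j : ℕ) ≤ (a ⟨N, Nat.lt_succ_self N⟩ : ℕ) := by
    have h3 : (Fin.last N) = ⟨N, Nat.lt_succ_self N⟩ := rfl
    rw [h3] at hl h1
    have := j.2
    simp only at hl
    omega
  obtain ⟨i', hi'⟩ := key N (Nat.lt_succ_self N) j h2
  exact ⟨i', Fin.ext hi'⟩

private theorem A013_fac {N u s t : ℕ} (a : Mo N u) (ha : Function.Surjective a) (α : Mo N s)
    (β : Mo N t) (h : ∀ i, (α i : ℕ) + (β i : ℕ) = (a i : ℕ)) :
    ∃ (α1 : Mo u s) (β1 : Mo u t), (∀ j, (α1 j : ℕ) + (β1 j : ℕ) = (j : ℕ)) ∧ α1.comp a = α ∧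
      β1.comp a = β := by
  choose σ hσ using ha
  have hmono : Monotone σ := by
    intro j j' hjj
    rcases eq_or_lt_of_le hjj with h1 | h1
    · rw [h1]
    · by_contra hcon
      push Not at hcon
      have h2 := a.monotone hcon.le
      rw [hσ, hσ] at h2
      exact absurd h1 (not_lt.2 h2)
  have hkey : ∀ i, (α (σ (a i)) : ℕ) = (α i : ℕ) ∧ (β (σ (a i)) : ℕ) = (β i : ℕ) := by
    intro i
    have h1 := h (σ (a i))
    have h2 := h i
    rw [hσ] at h1
    rcases le_total i (σ (a i)) with h3 | h3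
    · have h4 : (α i : ℕ) ≤ (α (σ (a i)) : ℕ) := Fin.le_def.1 (α.monotone h3)
      have h5 : (β i : ℕ) ≤ (β (σ (a i)) : ℕ) := Fin.le_def.1 (β.monotone h3)
      omega
    · have h4 : (α (σ (a i)) : ℕ) ≤ (α i : ℕ) := Fin.le_def.1 (α.monotone h3)
      have h5 : (β (σ (a i)) : ℕ) ≤ (β i : ℕ) := Fin.le_def.1 (β.monotone h3)
      omega
  refine ⟨α.comp ⟨σ, hmono⟩, β.comp ⟨σ, hmono⟩, ?_, ?_, ?_⟩
  · intro j
    have h1 := h (σ j)
    rw [hσ] at h1
    exact h1
  · ext i
    exact (hkey i).1
  · ext i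
    exact (hkey i).2

open Classical in
/-- reindexing of a sum over pairs along a surjection -/
private theorem A013_reindex {M : Type*} [AddCommMonoid M] {N u s t : ℕ} (a : Mo N u)
    (ha : Function.Surjective a) (G : Mo N s → Mo N t → M) :
    (∑ α1 : Mo u s, ∑ β1 : Mo u t,
      if ∀ j, (α1 j : ℕ) + (β1 j : ℕ) = (j : ℕ) then G (α1.comp a) (β1.comp a) else 0) =
    ∑ α : Mo N s, ∑ β : Mo N t,
      if ∀ i, (α i : ℕ) + (β i : ℕ) = (a i : ℕ) then G α β else 0 := by
  rw [← Finset.sum_product', ← Finset.sum_product', ← Finset.sum_filter, ← Finset.sum_filter]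
  refine Finset.sum_nbij (fun x => (x.1.comp a, x.2.comp a)) ?_ ?_ ?_ ?_
  · intro x hx
    simp only [Finset.mem_filter, Finset.mem_product, Finset.mem_univ, and_self, true_and] at hx ⊢
    intro i
    exact hx (a i)
  · intro x _ y _ hxy
    simp only [Prod.mk.injEq] at hxy
    refine Prod.ext ?_ ?_
    · refine OrderHom.ext _ _ (funext fun j => ?_)
      obtain ⟨i, rfl⟩ := ha j
      exact congrArg (fun f : Mo N s => f i) hxy.1
    · refine OrderHom.ext _ _ (funext fun j => ?_)
      obtain ⟨i, rfl⟩ := ha j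
      exact congrArg (fun f : Mo N t => f i) hxy.2
  · rintro ⟨α, β⟩ hx
    have hx' : ∀ i, (α i : ℕ) + (β i : ℕ) = (a i : ℕ) := by simpa using hx
    obtain ⟨α1, β1, h1, h2, h3⟩ := A013_fac a ha α β hx'
    exact ⟨(α1, β1), by simpa using h1, by rw [← h2, ← h3]⟩
  · intro x _
    rfl

open Classical in
private theorem A013_unique {M : Type*} [AddCommMonoid M] {N u s t v : ℕ} (hu : s + t = u)
    (α : Mo N s) (β : Mo N t) (γ : Mo N v) (X : M) :
    (∑ a : Mo N u, if (∀ i, (a i : ℕ) + (γ i : ℕ) = (i : ℕ)) ∧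
        (∀ i, (α i : ℕ) + (β i : ℕ) = (a i : ℕ)) then X else 0) =
      if ∀ i, (α i : ℕ) + (β i : ℕ) + (γ i : ℕ) = (i : ℕ) then X else 0 := by
  by_cases h : ∀ i, (α i : ℕ) + (β i : ℕ) + (γ i : ℕ) = (i : ℕ)
  · rw [if_pos h]
    let a0 : Mo N u := ⟨fun i => ⟨(α i : ℕ) + (β i : ℕ), by
      have h1 := (α i).2
      have h2 := (β i).2
      omega⟩, by
      intro i j hij
      rw [Fin.le_def]
      exact Nat.add_le_add (Fin.le_def.1 (α.monotone hij)) (Fin.le_def.1 (β.monotone hij))⟩
    rw [Finset.sum_eq_single a0]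
    · rw [if_pos]
      exact ⟨fun i => h i, fun i => rfl⟩
    · intro b _ hb
      rw [if_neg]
      rintro ⟨-, h2⟩
      apply hb
      refine OrderHom.ext _ _ (funext fun i => Fin.ext ?_)
      exact (h2 i).symm
    · intro hcon
      exact absurd (Finset.mem_univ _) hcon
  · rw [if_neg h]
    refine Finset.sum_eq_zero fun a _ => ?_
    rw [if_neg]
    rintro ⟨h1, h2⟩
    apply h
    intro i
    rw [h2 i]
    exact h1 i

theorem crs_eq_zero {P Q : SV} {p q n : ℕ} (h : p + q ≠ n) (x : P.V p) (y : Q.V q) :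
    crs n x y = 0 := by
  unfold crs
  simp [h]

/-- the cross product as a bilinear map -/
theorem crs_bilin (P Q : SV) (p q n : ℕ) :
    ∃ f : P.V p →ₗ[ZMod 2] Q.V q →ₗ[ZMod 2] (P.tens Q).V n, ∀ x y, f x y = crs n x y := by
  classical
  refine ⟨∑ a : Mo n p, ∑ b : Mo n q,
    if (p + q = n ∧ ∀ i, ((a i : ℕ) + (b i : ℕ) = (i : ℕ))) then
      (TensorProduct.mk (ZMod 2) (P.V n) (Q.V n)).compl₁₂ (P.act a) (Q.act b) else 0, ?_⟩
  intro x y
  unfold crs
  simp only [LinearMap.sum_apply]
  refine Finset.sum_congr rfl fun a _ => Finset.sum_congr rfl fun b _ => ?_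
  split_ifs <;> simp

theorem crs_add_left {P Q : SV} {p q n : ℕ} (x x' : P.V p) (y : Q.V q) :
    crs n (x + x') y = crs n x y + crs n x' y := by
  obtain ⟨f, hf⟩ := crs_bilin P Q p q n
  rw [← hf, ← hf, ← hf, map_add, LinearMap.add_apply]

theorem crs_add_right {P Q : SV} {p q n : ℕ} (x : P.V p) (y y' : Q.V q) :
    crs n x (y + y') = crs n x y + crs n x y' := by
  obtain ⟨f, hf⟩ := crs_bilin P Q p q n
  rw [← hf, ← hf, ← hf, map_add]

/-- tensor product of two linear simplicial maps -/
noncomputable def SVHom.tens {P P' Q Q' : SV} (f : SVHom P P') (g : SVHom Q Q') :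
    SVHom (P.tens Q) (P'.tens Q') :=
  ⟨fun n => TensorProduct.map (f.app n) (g.app n), by
    intro m n h x
    induction x using TensorProduct.induction_on with
    | zero => simp
    | tmul x y => simp [f.nat, g.nat]
    | add x y hx hy => simp only [map_add, hx, hy]⟩

theorem crs_map {P P' Q Q' : SV} (f : SVHom P P') (g : SVHom Q Q') {p q n : ℕ} (x : P.V p)
    (y : Q.V q) : (f.tens g).app n (crs n x y) = crs n (f.app p x) (g.app q y) := by
  unfold crs
  simp only [map_sum]
  refine Finset.sum_congr rfl fun a _ => Finset.sum_congr rfl fun b _ => ?_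
  split_ifs
  · show TensorProduct.map (f.app n) (g.app n) _ = _
    rw [TensorProduct.map_tmul, f.nat, g.nat]
  · exact map_zero _

theorem crs_mem_Z {P Q : SV} {p q n : ℕ} {x : P.V p} {y : Q.V q} (hx : x ∈ P.Z p)
    (hy : y ∈ Q.Z q) : crs n x y ∈ (P.tens Q).Z n := by
  have hz1 : ∀ {p q n : ℕ} (y : Q.V q), crs n (0 : P.V p) y = 0 := fun {p q n} y => by
    obtain ⟨f, hf⟩ := crs_bilin P Q p q n
    rw [← hf, map_zero, LinearMap.zero_apply]
  have hz2 : ∀ {p q n : ℕ} (x : P.V p), crs n x (0 : Q.V q) = 0 := fun {p q n} x => by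
    obtain ⟨f, hf⟩ := crs_bilin P Q p q n
    rw [← hf, map_zero]
  cases n with
  | zero => trivial
  | succ n =>
    show (P.tens Q).d n (crs (n + 1) x y) = 0
    cases p with
    | zero =>
      cases q with
      | zero => rw [crs_eq_zero (by omega), map_zero]
      | succ q =>
        have hy' : Q.d q y = 0 := hy
        rw [d_crs_zero_left, hy', hz2]
    | succ p =>
      have hx' : P.d p x = 0 := hx
      cases q with
      | zero => rw [d_crs_zero_right, hx', hz1]
      | succ q =>
        have hy' : Q.d q y = 0 := hy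
        rw [d_crs, hx', hy', hz1, hz2, add_zero]

theorem crs_mem_B_left {P Q : SV} {p q n : ℕ} {x : P.V p} {y : Q.V q} (hx : x ∈ P.B p)
    (hy : y ∈ Q.Z q) : crs n x y ∈ (P.tens Q).B n := by
  obtain ⟨x', rfl⟩ := hx
  refine ⟨crs (n + 1) x' y, ?_⟩
  cases q with
  | zero => exact d_crs_zero_right x' y
  | succ q =>
    have hy' : Q.d q y = 0 := hy
    obtain ⟨f, hf⟩ := crs_bilin P Q (p + 1) q n
    rw [d_crs, hy', ← hf _ 0, map_zero, add_zero]

theorem crs_mem_B_right {P Q : SV} {p q n : ℕ} {x : P.V p} {y : Q.V q} (hx : x ∈ P.Z p)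
    (hy : y ∈ Q.B q) : crs n x y ∈ (P.tens Q).B n := by
  obtain ⟨y', rfl⟩ := hy
  refine ⟨crs (n + 1) x y', ?_⟩
  cases p with
  | zero => exact d_crs_zero_left x y'
  | succ p =>
    have hx' : P.d p x = 0 := hx
    obtain ⟨f, hf⟩ := crs_bilin P Q p (q + 1) n
    rw [d_crs, hx', ← hf 0, map_zero, LinearMap.zero_apply, zero_add]

/-- the swap -/
noncomputable def SV.swap (P Q : SV) : SVHom (P.tens Q) (Q.tens P) :=
  ⟨fun n => (TensorProduct.comm (ZMod 2) (P.V n) (Q.V n)).toLinearMap, by
    intro m n h x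
    induction x using TensorProduct.induction_on with
    | zero => simp
    | tmul x y => simp
    | add x y hx hy => simp only [map_add, hx, hy]⟩

theorem swap_crs {P Q : SV} {p q n : ℕ} (x : P.V p) (y : Q.V q) :
    (SV.swap P Q).app n (crs n x y) = crs n y x := by
  unfold crs
  simp only [map_sum]
  rw [Finset.sum_comm]
  refine Finset.sum_congr rfl fun a _ => Finset.sum_congr rfl fun b _ => ?_
  by_cases h : p + q = n ∧ ∀ i, ((b i : ℕ) + (a i : ℕ) = (i : ℕ))
  · rw [if_pos h, if_pos ⟨by rw [add_comm]; exact h.1, fun i => by rw [add_comm]; exact h.2 i⟩]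
    show TensorProduct.comm (ZMod 2) (P.V n) (Q.V n) _ = _
    rw [TensorProduct.comm_tmul]
  · rw [if_neg h, if_neg, map_zero]
    rintro ⟨h1, h2⟩
    exact h ⟨by rw [add_comm]; exact h1, fun i => by rw [add_comm]; exact h2 i⟩

/-- the associator -/
noncomputable def SV.assoc (P Q S : SV) : SVHom ((P.tens Q).tens S) (P.tens (Q.tens S)) :=
  ⟨fun n => (TensorProduct.assoc (ZMod 2) (P.V n) (Q.V n) (S.V n)).toLinearMap, by
    intro m n h x
    induction x using TensorProduct.induction_on with
    | zero => simp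
    | tmul x z =>
      induction x using TensorProduct.induction_on with
      | zero => simp
      | tmul x y => simp
      | add x y hx hy => simp only [map_add, TensorProduct.add_tmul, hx, hy]
    | add x y hx hy => simp only [map_add, hx, hy]⟩

theorem assoc_crs {P Q S : SV} {p q r : ℕ} (x : P.V p) (y : Q.V q) (z : S.V r) :
    (SV.assoc P Q S).app (p + q + r) (crs (p + q + r) (crs (p + q) x y) z) =
      crs (p + q + r) x (crs (q + r) y z) := by
  classical
  set N := p + q + r with hN
  set F : Mo N p → Mo N q → Mo N r → (P.tens (Q.tens S)).V N := fun α β γ =>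
    P.act α x ⊗ₜ[ZMod 2] (Q.act β y ⊗ₜ[ZMod 2] S.act γ z) with hF
  have hl : (SV.assoc P Q S).app N (crs N (crs (p + q) x y) z) =
      ∑ a : Mo N (p + q), ∑ c : Mo N r, if (∀ i, (a i : ℕ) + (c i : ℕ) = (i : ℕ)) then
        (∑ α : Mo N p, ∑ β : Mo N q, if ∀ i, (α i : ℕ) + (β i : ℕ) = (a i : ℕ) then
          F α β c else 0) else 0 := by
    unfold crs
    simp only [map_sum]
    refine Finset.sum_congr rfl fun a _ => Finset.sum_congr rfl fun c _ => ?_
    by_cases h : ∀ i, (a i : ℕ) + (c i : ℕ) = (i : ℕ)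
    · rw [if_pos h, if_pos ⟨rfl, h⟩, ← A013_reindex a (A013_surj rfl a c h) (fun α β => F α β c)]
      show TensorProduct.assoc (ZMod 2) (P.V N) (Q.V N) (S.V N) _ = _
      rw [TensorProduct.sum_tmul, map_sum]
      refine Finset.sum_congr rfl fun a1 _ => ?_
      rw [TensorProduct.sum_tmul, map_sum]
      refine Finset.sum_congr rfl fun b1 _ => ?_
      by_cases h1 : ∀ j, (a1 j : ℕ) + (b1 j : ℕ) = (j : ℕ)
      · rw [if_pos h1, if_pos ⟨trivial, h1⟩]
        show TensorProduct.assoc (ZMod 2) (P.V N) (Q.V N) (S.V N)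
          ((TensorProduct.map (P.act a) (Q.act a)) _ ⊗ₜ _) = _
        rw [TensorProduct.map_tmul, TensorProduct.assoc_tmul, P.act_comp, Q.act_comp]
      · rw [if_neg h1, if_neg (fun h2 => h1 h2.2), map_zero, TensorProduct.zero_tmul, map_zero]
    · rw [if_neg h, if_neg (fun h2 => h h2.2), map_zero]
  have hr : crs N x (crs (q + r) y z) =
      ∑ a : Mo N p, ∑ b : Mo N (q + r), if (∀ i, (a i : ℕ) + (b i : ℕ) = (i : ℕ)) then
        (∑ β : Mo N q, ∑ γ : Mo N r, if ∀ i, (β i : ℕ) + (γ i : ℕ) = (b i : ℕ) then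
          F a β γ else 0) else 0 := by
    unfold crs
    refine Finset.sum_congr rfl fun a _ => Finset.sum_congr rfl fun b _ => ?_
    by_cases h : ∀ i, (a i : ℕ) + (b i : ℕ) = (i : ℕ)
    · rw [if_pos h, if_pos ⟨by omega, h⟩, ← A013_reindex b (A013_surj (by omega) b a (fun i => by
        rw [add_comm]; exact h i)) (fun β γ => F a β γ)]
      rw [map_sum, TensorProduct.tmul_sum]
      refine Finset.sum_congr rfl fun b1 _ => ?_
      rw [map_sum, TensorProduct.tmul_sum]
      refine Finset.sum_congr rfl fun c1 _ => ?_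
      by_cases h1 : ∀ j, (b1 j : ℕ) + (c1 j : ℕ) = (j : ℕ)
      · rw [if_pos h1, if_pos ⟨rfl, h1⟩]
        show _ ⊗ₜ ((TensorProduct.map (Q.act b) (S.act b)) _) = _
        rw [TensorProduct.map_tmul, Q.act_comp, S.act_comp]
      · rw [if_neg h1, if_neg (fun h2 => h1 h2.2), map_zero, TensorProduct.tmul_zero]
    · rw [if_neg h, if_neg (fun h2 => h h2.2)]
  have hif : ∀ {c d : Prop} [Decidable c] [Decidable d] {M : Type} [AddCommMonoid M] (X : M),
      (if c then (if d then X else 0) else 0) = if c ∧ d then X else 0 := by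
    intro c d _ _ M _ X
    by_cases hc : c <;> by_cases hd : d <;> simp [hc, hd]
  have hpush : ∀ {c : Prop} [Decidable c] {ι : Type} {M : Type} [AddCommMonoid M] (s : Finset ι)
      (X : ι → M),
      (if c then ∑ i ∈ s, X i else 0) = ∑ i ∈ s, if c then X i else 0 := by
    intro c _ ι M _ s X
    by_cases hc : c <;> simp [hc]
  rw [hl, hr]
  trans ∑ α : Mo N p, ∑ β : Mo N q, ∑ γ : Mo N r,
    if ∀ i, (α i : ℕ) + (β i : ℕ) + (γ i : ℕ) = (i : ℕ) then F α β γ else 0
  · simp only [hpush, hif]
    rw [Finset.sum_comm]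
    -- now: sum over c, a, α, β
    calc (∑ c : Mo N r, ∑ a : Mo N (p + q), ∑ α : Mo N p, ∑ β : Mo N q,
          if (∀ i, (a i : ℕ) + (c i : ℕ) = (i : ℕ)) ∧
            (∀ i, (α i : ℕ) + (β i : ℕ) = (a i : ℕ)) then F α β c else 0)
        = ∑ c : Mo N r, ∑ α : Mo N p, ∑ β : Mo N q, ∑ a : Mo N (p + q),
          if (∀ i, (a i : ℕ) + (c i : ℕ) = (i : ℕ)) ∧
            (∀ i, (α i : ℕ) + (β i : ℕ) = (a i : ℕ)) then F α β c else 0 := by
          refine Finset.sum_congr rfl fun c _ => ?_
          rw [Finset.sum_comm]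
          refine Finset.sum_congr rfl fun α _ => ?_
          rw [Finset.sum_comm]
      _ = ∑ c : Mo N r, ∑ α : Mo N p, ∑ β : Mo N q,
          if ∀ i, (α i : ℕ) + (β i : ℕ) + (c i : ℕ) = (i : ℕ) then F α β c else 0 := by
          refine Finset.sum_congr rfl fun c _ => Finset.sum_congr rfl fun α _ =>
            Finset.sum_congr rfl fun β _ => ?_
          exact A013_unique rfl α β c (F α β c)
      _ = _ := by
          rw [Finset.sum_comm]
          refine Finset.sum_congr rfl fun α _ => ?_
          rw [Finset.sum_comm]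
  · symm
    simp only [hpush, hif]
    refine Finset.sum_congr rfl fun α _ => ?_
    rw [Finset.sum_comm]
    refine Finset.sum_congr rfl fun β _ => ?_
    rw [Finset.sum_comm]
    refine Finset.sum_congr rfl fun γ _ => ?_
    rw [show (if ∀ i, (α i : ℕ) + (β i : ℕ) + (γ i : ℕ) = (i : ℕ) then F α β γ else 0) =
      (if ∀ i, (β i : ℕ) + (γ i : ℕ) + (α i : ℕ) = (i : ℕ) then F α β γ else 0) from
        if_congr (forall_congr' fun i => by rw [add_comm ((β i : ℕ) + (γ i : ℕ)), add_assoc])
          rfl rfl]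
    rw [← A013_unique (u := q + r) rfl β γ α (F α β γ)]
    refine Finset.sum_congr rfl fun b _ => if_congr (and_congr_left fun _ =>
      forall_congr' fun i => by rw [add_comm]) rfl rfl

end MM

end

/-! ### from `Lib_MP_33f7bb_d.A3Def` -/

section

/-!
# Shared definitions for A3 - A7

Induced maps in homology, functoriality of the reduced linearisation `R`, reduced diagonal, primitives
`PH`, cohomology groups, the format `AM` of unstable modules (no Adem relations).
-/

open scoped TensorProduct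

namespace MM

/-! ## induced maps in homology -/

theorem SVHom.map_d {P Q : SV} (f : SVHom P Q) {n : ℕ} (z : P.V (n + 1)) :
    f.app n (P.d n z) = Q.d n (f.app (n + 1) z) := by
  simp only [SV.d, LinearMap.sum_apply, map_sum]
  exact Finset.sum_congr rfl fun i _ => f.nat _ _

theorem SVHom.map_Z {P Q : SV} (f : SVHom P Q) {n : ℕ} {z : P.V n} (hz : z ∈ P.Z n) :
    f.app n z ∈ Q.Z n := by
  cases n with
  | zero => exact Submodule.mem_top
  | succ n =>
    have h1 : P.d n z = 0 := hz
    show Q.d n (f.app (n + 1) z) = 0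
    rw [← f.map_d, h1, map_zero]

theorem SVHom.map_B {P Q : SV} (f : SVHom P Q) {n : ℕ} {z : P.V n} (hz : z ∈ P.B n) :
    f.app n z ∈ Q.B n := by
  obtain ⟨w, rfl⟩ := hz
  exact ⟨f.app (n + 1) w, (f.map_d w).symm⟩

/-- the map induced in homology -/
noncomputable def SV.Hmap {P Q : SV} (f : SVHom P Q) (n : ℕ) : P.H n →ₗ[ZMod 2] Q.H n :=
  Submodule.mapQ _ _ ((f.app n).restrict (fun _ hz => f.map_Z hz)) (by
    rintro ⟨z, hz⟩ hz'
    exact f.map_B hz')

@[simp] theorem SV.Hmap_cls {P Q : SV} (f : SVHom P Q) (n : ℕ) (z : P.V n) (hz : z ∈ P.Z n) :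
    SV.Hmap f n (P.cls z hz) = Q.cls (f.app n z) (f.map_Z hz) := rfl

theorem SV.Hmap_id (P : SV) (n : ℕ) (x : P.H n) : SV.Hmap (SVHom.id P) n x = x := by
  obtain ⟨⟨z, hz⟩, rfl⟩ := Submodule.Quotient.mk_surjective _ x
  rfl

theorem SV.Hmap_comp {P Q S : SV} (g : SVHom Q S) (f : SVHom P Q) (n : ℕ) (x : P.H n) :
    SV.Hmap (g.comp f) n x = SV.Hmap g n (SV.Hmap f n x) := by
  obtain ⟨⟨z, hz⟩, rfl⟩ := Submodule.Quotient.mk_surjective _ x
  rfl

/-! ## the functor `lin` and the functor `R` -/

/-- functoriality of the free simplicial vector space -/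
noncomputable def linMap {P Q : SS} (f : Hom P Q) : SVHom (lin P) (lin Q) :=
  ⟨fun n => Finsupp.lmapDomain (ZMod 2) (ZMod 2) (f.app n), fun {m n} g x => by
    show Finsupp.mapDomain _ (Finsupp.mapDomain _ x) = Finsupp.mapDomain _ (Finsupp.mapDomain _ x)
    rw [← Finsupp.mapDomain_comp, ← Finsupp.mapDomain_comp]
    congr 1
    funext y
    exact f.nat g y⟩

/-- linear extension of a simplicial map into a simplicial vector space -/
noncomputable def linHom {P : SS} {W : SV} (f : Hom P W.ss) : SVHom (lin P) W :=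
  ⟨fun n => linExt f.app n, fun {_ n} g x =>
    linExt_act (A := (⊤ : Sub P)) (fun g x _ => f.nat g x) g (SuppIn.top (P := P) (n := n) x)⟩

/-- the class of a simplex in the reduced linearisation -/
theorem R.of_base {Z : SS} (z₀ : Z.S 0) (n : ℕ) : (R.of z₀).app n (Z.deg z₀ n) = 0 := by
  show (linSub (Sub.pt z₀)).proj.app n _ = 0
  show Submodule.Quotient.mk _ = 0
  rw [Submodule.Quotient.mk_eq_zero]
  exact SuppIn.single (A := Sub.pt z₀) (x := Z.deg z₀ n) rfl 1

theorem R.span {Z : SS} (z₀ : Z.S 0) (n : ℕ) :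
    Submodule.span (ZMod 2) (Set.range ((R.of z₀).app n)) = (⊤ : Submodule (ZMod 2) ((R Z z₀).V n)) := by
  rw [eq_top_iff]
  rintro x -
  obtain ⟨c, rfl⟩ := Submodule.Quotient.mk_surjective _ x
  induction c using Finsupp.induction_linear with
  | zero => exact Submodule.zero_mem _
  | add a b ha hb => exact Submodule.add_mem _ ha hb
  | single u r =>
    have : (Submodule.Quotient.mk (Finsupp.single u r) : (R Z z₀).V n) =
        r • (R.of z₀).app n u := by
      show _ = r • (Submodule.Quotient.mk (Finsupp.single u 1) : (R Z z₀).V n)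
      rw [← Submodule.Quotient.mk_smul, Finsupp.smul_single, smul_eq_mul, mul_one]
    rw [this]
    exact Submodule.smul_mem _ _ (Submodule.subset_span ⟨u, rfl⟩)

/-- two linear maps out of `R Z` agreeing on the simplices are equal -/
theorem R.ext {Z : SS} {z₀ : Z.S 0} {W : SV} {f g : SVHom (R Z z₀) W}
    (h : ∀ n x, f.app n ((R.of z₀).app n x) = g.app n ((R.of z₀).app n x)) : f = g := by
  apply SVHom.ext
  funext n
  apply LinearMap.ext
  intro x
  have hx : x ∈ Submodule.span (ZMod 2) (Set.range ((R.of z₀).app n)) := by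
    rw [R.span]; trivial
  induction hx using Submodule.span_induction with
  | mem x hx => obtain ⟨y, rfl⟩ := hx; exact h n y
  | zero => simp
  | add a b _ _ ha hb => rw [map_add, map_add, ha, hb]
  | smul r a _ ha => rw [map_smul, map_smul, ha]

/-- universal property of `R` -/
noncomputable def R.lift {Z : SS} (z₀ : Z.S 0) {W : SV} (f : Hom Z W.ss)
    (hf : f.app 0 z₀ = (0 : W.V 0)) : SVHom (R Z z₀) W :=
  ⟨fun n => Submodule.liftQ _ (linExt f.app n) (by
      intro c hc
      rw [LinearMap.mem_ker, linExt_apply]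
      refine Finset.sum_eq_zero fun x hx => ?_
      have hx' : x = Z.deg z₀ n := hc hx
      show c x • (f.app n x : W.V n) = 0
      have h2 : (f.app n x : W.V n) = 0 := by
        rw [hx']
        show f.app n (Z.act (cst 0) z₀) = (0 : W.V n)
        rw [f.nat]
        show W.act _ (f.app 0 z₀) = 0
        rw [hf, map_zero]
      rw [h2, smul_zero]), fun {m n} g x => by
    obtain ⟨c, rfl⟩ := Submodule.Quotient.mk_surjective _ x
    exact (linHom f).nat g c⟩

@[simp] theorem R.lift_of {Z : SS} (z₀ : Z.S 0) {W : SV} (f : Hom Z W.ss)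
    (hf : f.app 0 z₀ = (0 : W.V 0)) (n : ℕ) (x : Z.S n) :
    (R.lift z₀ f hf).app n ((R.of z₀).app n x) = f.app n x := by
  show linExt f.app n (Finsupp.single x 1) = f.app n x
  rw [linExt_single, one_smul]

/-- functoriality of `R` -/
noncomputable def R.map {Z Z' : SS} (z₀ : Z.S 0) (z₀' : Z'.S 0) (f : Hom Z Z')
    (hf : f.app 0 z₀ = z₀') : SVHom (R Z z₀) (R Z' z₀') :=
  R.lift z₀ ((R.of z₀').comp f) (by
    show (R.of z₀').app 0 (f.app 0 z₀) = 0
    rw [hf]
    have := R.of_base z₀' 0
    rwa [show Z'.deg z₀' 0 = z₀' from by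
      show Z'.act _ z₀' = z₀'
      have h1 : (cst 0 : Mo 0 0) = OrderHom.id := by
        ext i; simp [cst]
      rw [h1, Z'.act_id]] at this)

@[simp] theorem R.map_of {Z Z' : SS} (z₀ : Z.S 0) (z₀' : Z'.S 0) (f : Hom Z Z')
    (hf : f.app 0 z₀ = z₀') (n : ℕ) (x : Z.S n) :
    (R.map z₀ z₀' f hf).app n ((R.of z₀).app n x) = (R.of z₀').app n (f.app n x) :=
  R.lift_of _ _ _ _ _

/-- the zero vertex of a simplicial vector space -/
abbrev SV.zv (V : SV) : V.ss.S 0 := (0 : V.V 0)

/-- reduced chains of (the simplicial set underlying) a simplicial vector space -/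
noncomputable abbrev RV (V : SV) : SV := R V.ss V.zv

/-- linearisation `[v] ↦ v` -/
noncomputable def muV (V : SV) : SVHom (RV V) V := R.lift V.zv (Hom.id V.ss) rfl

@[simp] theorem muV_of (V : SV) (n : ℕ) (v : V.V n) :
    (muV V).app n ((R.of V.zv).app n v) = v := R.lift_of _ _ _ _ _

/-- pointed simplicial maps of simplicial vector spaces -/
noncomputable abbrev RVmap {V V' : SV} (g : Hom V.ss V'.ss) (hg : g.app 0 V.zv = V'.zv) :
    SVHom (RV V) (RV V') := R.map V.zv V'.zv g hg

/-- `x ↦ [x] ⊗ [x]` as a simplicial map -/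
noncomputable def R.diagFn {Z : SS} (z₀ : Z.S 0) : Hom Z ((R Z z₀).tens (R Z z₀)).ss :=
  ⟨fun n x => ((R.of z₀).app n x : (R Z z₀).V n) ⊗ₜ[ZMod 2] ((R.of z₀).app n x : (R Z z₀).V n),
    fun {m n} f x => by
    show _ = TensorProduct.map _ _ (_ ⊗ₜ[ZMod 2] _)
    rw [TensorProduct.map_tmul, (R.of z₀).nat f x]⟩

/-- reduced diagonal `[x] ↦ [x] ⊗ [x]` -/
noncomputable def R.diag {Z : SS} (z₀ : Z.S 0) : SVHom (R Z z₀) ((R Z z₀).tens (R Z z₀)) :=
  R.lift z₀ (R.diagFn z₀) (by
    show ((R.of z₀).app 0 z₀ : (R Z z₀).V 0) ⊗ₜ[ZMod 2] ((R.of z₀).app 0 z₀ : (R Z z₀).V 0) = 0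
    have h1 : Z.deg z₀ 0 = z₀ := by
      show Z.act _ z₀ = z₀
      have h1 : (cst 0 : Mo 0 0) = OrderHom.id := by
        ext i; simp [cst]
      rw [h1, Z.act_id]
    have := R.of_base z₀ 0
    rw [h1] at this
    rw [this, TensorProduct.zero_tmul])

/-- primitive classes in the reduced homology of `V` -/
noncomputable def PH (V : SV) (n : ℕ) : Submodule (ZMod 2) ((RV V).H n) :=
  LinearMap.ker (SV.Hmap (R.diag V.zv) n)

/-- indecomposables of cohomology: the dual of the primitives -/
abbrev QH (V : SV) (n : ℕ) := Module.Dual (ZMod 2) (PH V n)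

/-- cohomology of a simplicial set -/
abbrev Hc (Z : SS) (n : ℕ) := Module.Dual (ZMod 2) ((lin Z).H n)

/-- reduced cohomology of a simplicial vector space -/
abbrev RHc (V : SV) (n : ℕ) := Module.Dual (ZMod 2) ((RV V).H n)

/-! ## unstable modules without relations -/

/-- Graded vector spaces with operations `Sq n m : M^n → M^m` (meaning `Sq^(m-n)`), unstable. -/
structure AM where
  M : ℕ → Type
  [grp : ∀ n, AddCommGroup (M n)]
  [mod : ∀ n, Module (ZMod 2) (M n)]
  Sq : ∀ n m, M n →ₗ[ZMod 2] M m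
  Sq_lt : ∀ n m, m < n → Sq n m = 0
  Sq_id : ∀ n, Sq n n = LinearMap.id
  unst : ∀ n m, 2 * n < m → Sq n m = 0

attribute [instance] AM.grp AM.mod

/-- maps of degree `0` commuting with the operations -/
@[ext] structure AMHom (M N : AM) where
  app : ∀ n, M.M n →ₗ[ZMod 2] N.M n
  comm : ∀ n m x, app m (M.Sq n m x) = N.Sq n m (app n x)

/-- `Sq0 : M^n → M^(2n)`, top operation -/
abbrev AM.Sq0 (M : AM) (n : ℕ) : M.M n →ₗ[ZMod 2] M.M (2 * n) := M.Sq n (2 * n)

/-- the inverse total square: `cSq n m = ∑_(n < k ≤ m) (cSq k m) ∘ Sq n k` for `m > n` -/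
noncomputable def AM.cSq (M : AM) : ∀ n m, M.M n →ₗ[ZMod 2] M.M m
  | n, m => if _h : m < n then 0 else if _h2 : n = m then M.Sq n m else
      ∑ k : Fin (m - n), (M.cSq (n + 1 + k) m).comp (M.Sq n (n + 1 + k))
  termination_by n m => m - n
  decreasing_by omega

/-- the module `Hom_A(M, Σ^t H~)`, `H~ = x F[x]`: families of functionals `f n` (`f n m` = coefficient of
`σ^t x^(n-t)` in the image of `m ∈ M^n`), zero for `n ≤ t`, with
`f m (Sq n m x) = binom(n-t, m-n) f n x`. -/
def AM.HomH (M : AM) (t : ℕ) : Submodule (ZMod 2) (∀ n, Module.Dual (ZMod 2) (M.M n)) where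
  carrier := {f | (∀ n, n ≤ t → f n = 0) ∧
    ∀ n m x, n ≤ m → f m (M.Sq n m x) = ((Nat.choose (n - t) (m - n) : ℕ) : ZMod 2) * f n x}
  add_mem' := by
    rintro f g ⟨hf, hf'⟩ ⟨hg, hg'⟩
    refine ⟨fun n hn => by simp [hf n hn, hg n hn], fun n m x h => ?_⟩
    simp only [Pi.add_apply, LinearMap.add_apply, hf' n m x h, hg' n m x h, mul_add]
  zero_mem' := ⟨fun _ _ => rfl, fun _ _ _ _ => by simp⟩
  smul_mem' := by
    rintro c f ⟨hf, hf'⟩
    refine ⟨fun n hn => by simp [hf n hn], fun n m x h => ?_⟩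
    simp only [Pi.smul_apply, LinearMap.smul_apply, hf' n m x h, smul_eq_mul]
    ring

/-- desuspension data: `N` is the suspension of `M`: `N^(n+1) = M^n`, `N^0 = 0`, same operations -/
structure IsSusp (M N : AM) where
  e : ∀ n, M.M n ≃ₗ[ZMod 2] N.M (n + 1)
  zero : ∀ x : N.M 0, x = 0
  comm : ∀ n m x, e m (M.Sq n m x) = N.Sq (n + 1) (m + 1) (e n x)

/-- isomorphism of `AM`s -/
structure AMIso (M N : AM) where
  e : ∀ n, M.M n ≃ₗ[ZMod 2] N.M n
  comm : ∀ n m x, e m (M.Sq n m x) = N.Sq n m (e n x)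

/-- direct sums -/
noncomputable def AM.dsum {ι : Type} (M : ι → AM) : AM where
  M n := Π₀ i, (M i).M n
  Sq n m := DFinsupp.mapRange.linearMap (fun i => (M i).Sq n m)
  Sq_lt n m h := by
    ext x i
    simp [(M i).Sq_lt n m h]
  Sq_id n := by
    ext x i
    simp [(M i).Sq_id n]
  unst n m h := by
    ext x i
    simp [(M i).unst n m h]

end MM

end

/-! ### from `Lib_MP_33f7bb_d.A3T0` -/

section

/-!
# A3-T0: the ring of additive functions on lists of pairs of vertices (definitions, complete)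

`NC X` = functions `List X → ZMod 2`, concatenation product `ncmul`; `IsAdd` = additive in every slot;
`TT` = simplicial vector space of additive functions on lists of pairs of vertices; `evT n` = evaluation at
`[(0,1),(1,2),…,(n-1,n)]`.
-/

open scoped TensorProduct

namespace MM

/-- functions on lists with values in `ZMod 2` -/
abbrev NC (X : Type) := List X → ZMod 2

/-- fixing the first slot -/
def hd {X : Type} (f : NC X) (x : X) : NC X := fun l => f (x :: l)

/-- auxiliary recursion for the concatenation product -/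
def ncmulL {X : Type} (g : NC X) : List X → NC X → ZMod 2
  | [], f => f [] * g []
  | x :: l, f => f [] * g (x :: l) + ncmulL g l (hd f x)

/-- concatenation product `(f g)(l) = ∑_(l = l₁ ++ l₂) f l₁ * g l₂` -/
def ncmul {X : Type} (f g : NC X) : NC X := fun l => ncmulL g l f

theorem ncmul_nil {X : Type} (f g : NC X) : ncmul f g [] = f [] * g [] := rfl

theorem ncmul_cons {X : Type} (f g : NC X) (x : X) (l : List X) :
    ncmul f g (x :: l) = f [] * g (x :: l) + ncmul (hd f x) g l := rfl

@[simp] theorem hd_apply {X : Type} (f : NC X) (x : X) (l : List X) : hd f x l = f (x :: l) := rfl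

theorem hd_add {X : Type} (f g : NC X) (x : X) : hd (f + g) x = hd f x + hd g x := rfl

/-- pairs of vertices of the `m`-simplex -/
abbrev PR (m : ℕ) := Fin (m + 1) × Fin (m + 1)

/-- the map of pairs induced by a monotone map -/
def prMap {m n : ℕ} (θ : Mo m n) : PR m → PR n := fun x => (θ x.1, θ x.2)

/-- additive in every slot -/
def IsAdd {m : ℕ} (f : NC (PR m)) : Prop :=
  ∀ (l₁ l₂ : List (PR m)) (a b c : Fin (m + 1)),
    f (l₁ ++ (a, c) :: l₂) = f (l₁ ++ (a, b) :: l₂) + f (l₁ ++ (b, c) :: l₂)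

theorem IsAdd.hd {m : ℕ} {f : NC (PR m)} (hf : IsAdd f) (x : PR m) : IsAdd (hd f x) :=
  fun l₁ l₂ a b c => hf (x :: l₁) l₂ a b c

theorem IsAdd.first {m : ℕ} {f : NC (PR m)} (hf : IsAdd f) (a b c : Fin (m + 1)) :
    MM.hd f (a, c) = MM.hd f (a, b) + MM.hd f (b, c) :=
  funext fun l => hf [] l a b c

theorem IsAdd.self {m : ℕ} {f : NC (PR m)} (hf : IsAdd f) (l₁ l₂ : List (PR m))
    (a : Fin (m + 1)) : f (l₁ ++ (a, a) :: l₂) = 0 := by
  have := hf l₁ l₂ a a a
  exact left_eq_add.1 this

theorem IsAdd.symm {m : ℕ} {f : NC (PR m)} (hf : IsAdd f) (l₁ l₂ : List (PR m))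
    (a b : Fin (m + 1)) : f (l₁ ++ (a, b) :: l₂) = f (l₁ ++ (b, a) :: l₂) := by
  have := hf l₁ l₂ a b a
  rw [hf.self] at this
  exact (CharTwo.add_eq_zero.1 this.symm)

/-- additive functions as a subspace -/
def TS (m : ℕ) : Submodule (ZMod 2) (NC (PR m)) where
  carrier := {f | IsAdd f}
  add_mem' := by
    intro f g hf hg l₁ l₂ a b c
    show f _ + g _ = (f _ + g _) + (f _ + g _)
    rw [hf l₁ l₂ a b c, hg l₁ l₂ a b c]; ring
  zero_mem' := by intro l₁ l₂ a b c; show (0 : ZMod 2) = 0 + 0; rw [add_zero]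
  smul_mem' := by
    intro r f hf l₁ l₂ a b c
    show r * f _ = r * f _ + r * f _
    rw [hf l₁ l₂ a b c]; ring

/-- the simplicial vector space of additive functions on lists of pairs of vertices -/
abbrev TT : SV where
  V m := TS m
  act {m n} θ :=
    { toFun := fun f => ⟨fun l => f.1 (l.map (prMap θ)), by
        intro l₁ l₂ a b c
        simp only [List.map_append, List.map_cons]
        exact f.2 _ _ _ _ _⟩
      map_add' := fun _ _ => rfl
      map_smul' := fun _ _ => rfl }
  act_id f := by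
    apply Subtype.ext; funext l
    show f.1 (l.map id) = f.1 l
    rw [List.map_id]
  act_comp θ η f := by
    apply Subtype.ext; funext l
    show f.1 ((l.map (prMap θ)).map (prMap η)) = f.1 (l.map (prMap (η.comp θ)))
    rw [List.map_map]; rfl

theorem TT_act_apply {m n : ℕ} (θ : Mo m n) (f : TT.V n) (l : List (PR m)) :
    (TT.act θ f).1 l = f.1 (l.map (prMap θ)) := rfl

/-- the list of those steps `(i, i+1)`, `i < n`, for which `w i` -/
def stepL (n : ℕ) (w : Fin n → Bool) : List (PR n) :=
  ((List.finRange n).filter w).map fun i => (i.castSucc, i.succ)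

/-- the list `[(0,1),(1,2),…,(n-1,n)]` -/
def pathL (n : ℕ) : List (PR n) := stepL n fun _ => true

/-- evaluation at the path -/
def evT (n : ℕ) : TT.V n →ₗ[ZMod 2] ZMod 2 where
  toFun f := f.1 (pathL n)
  map_add' _ _ := rfl
  map_smul' _ _ := rfl

theorem evT_apply (n : ℕ) (f : TT.V n) : evT n f = f.1 (pathL n) := rfl

/-- `f` is concentrated on lists of length `n` -/
def IsHom (n : ℕ) {X : Type} (f : NC X) : Prop := ∀ l, l.length ≠ n → f l = 0

/-- sum of two maps into a simplicial vector space -/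
def homAdd {Z : SS} {W : SV} (a b : Hom Z W.ss) : Hom Z W.ss :=
  ⟨fun n x => (a.app n x + b.app n x : W.V n), fun {m n} f x => by
    show (a.app m _ + b.app m _ : W.V m) = W.act f (a.app n x + b.app n x)
    rw [a.nat, b.nat, map_add]⟩

/-- the homogeneous component of degree `n` of an element of `TT` -/
def prT (n : ℕ) : SVHom TT TT :=
  ⟨fun m =>
    { toFun := fun f => ⟨fun l => if l.length = n then f.1 l else 0, by
        intro l₁ l₂ a b c
        have h : ∀ z : PR m, (l₁ ++ z :: l₂).length = (l₁.length + l₂.length + 1) := by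
          intro z; simp; omega
        simp only [h]
        split_ifs
        · exact f.2 _ _ _ _ _
        · rw [add_zero]⟩
      map_add' := fun f g => by
        apply Subtype.ext; funext l
        show (if l.length = n then f.1 l + g.1 l else 0) =
          (if l.length = n then f.1 l else 0) + (if l.length = n then g.1 l else 0)
        split_ifs <;> simp
      map_smul' := fun r f => by
        apply Subtype.ext; funext l
        show (if l.length = n then r * f.1 l else 0) =
          r * (if l.length = n then f.1 l else 0)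
        split_ifs <;> simp }, fun {m k} θ f => by
    apply Subtype.ext; funext l
    show (if l.length = n then f.1 (l.map (prMap θ)) else 0) =
      (if (l.map (prMap θ)).length = n then f.1 (l.map (prMap θ)) else 0)
    rw [List.length_map]⟩

theorem prT_apply (n : ℕ) {m : ℕ} (f : TT.V m) (l : List (PR m)) :
    ((prT n).app m f).1 l = if l.length = n then f.1 l else 0 := rfl

theorem prT_isHom (n : ℕ) {m : ℕ} (f : TT.V m) : IsHom n ((prT n).app m f).1 := by
  intro l hl
  rw [prT_apply, if_neg hl]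

end MM

end

/-! ### from `Lib_MP_33f7bb_d.A3T1` -/

section

/-!
# A3-T1: the concatenation product (complete)
-/

open scoped TensorProduct

namespace MM

section NC

variable {X Y : Type}

theorem ncmul_eq_sum (f g : NC X) (l : List X) :
    ncmul f g l = ∑ i ∈ Finset.range (l.length + 1), f (l.take i) * g (l.drop i) := by
  induction l generalizing f with
  | nil => simp [ncmul_nil]
  | cons x l ih =>
    rw [ncmul_cons, ih, List.length_cons, Finset.sum_range_succ' _ (l.length + 1), add_comm]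
    rfl

theorem ncmul_add_left (f f' g : NC X) : ncmul (f + f') g = ncmul f g + ncmul f' g := by
  funext l
  simp only [ncmul_eq_sum, Pi.add_apply, add_mul, Finset.sum_add_distrib]

theorem ncmul_add_right (f g g' : NC X) : ncmul f (g + g') = ncmul f g + ncmul f g' := by
  funext l
  simp only [ncmul_eq_sum, Pi.add_apply, mul_add, Finset.sum_add_distrib]

theorem ncmul_smul_left (r : ZMod 2) (f g : NC X) : ncmul (r • f) g = r • ncmul f g := by
  funext l
  simp only [ncmul_eq_sum, Pi.smul_apply, smul_eq_mul, Finset.mul_sum, mul_assoc]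

theorem ncmul_smul_right (r : ZMod 2) (f g : NC X) : ncmul f (r • g) = r • ncmul f g := by
  funext l
  simp only [ncmul_eq_sum, Pi.smul_apply, smul_eq_mul, Finset.mul_sum]
  exact Finset.sum_congr rfl fun i _ => by ring

theorem ncmul_map (φ : X → Y) (f g : NC Y) (l : List X) :
    ncmul f g (l.map φ) = ncmul (fun l => f (l.map φ)) (fun l => g (l.map φ)) l := by
  simp only [ncmul_eq_sum, List.length_map, List.map_take, List.map_drop]

theorem IsHom.hd {p : ℕ} {f : NC X} (hf : IsHom (p + 1) f) (x : X) : IsHom p (hd f x) :=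
  fun l hl => hf (x :: l) fun h => hl (by simpa using h)

theorem IsHom.nil {p : ℕ} {f : NC X} (hf : IsHom (p + 1) f) : f [] = 0 := hf [] (by simp)

theorem IsHom.ncmul {p q : ℕ} {f g : NC X} (hf : IsHom p f) (hg : IsHom q g) :
    IsHom (p + q) (ncmul f g) := by
  intro l hl
  rw [ncmul_eq_sum]
  refine Finset.sum_eq_zero fun i hi => ?_
  rw [Finset.mem_range] at hi
  by_cases h : i = p
  · have h2 : (l.drop i).length ≠ q := by
      rw [List.length_drop]; omega
    rw [hg _ h2, mul_zero]
  · have h2 : (l.take i).length ≠ p := by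
      rw [List.length_take]; omega
    rw [hf _ h2, zero_mul]

theorem ncmul_of_hom {p : ℕ} {f : NC X} (hf : IsHom p f) (g : NC X) {l₁ l₂ : List X}
    (h : l₁.length = p) : ncmul f g (l₁ ++ l₂) = f l₁ * g l₂ := by
  rw [ncmul_eq_sum, Finset.sum_eq_single p]
  · subst h
    rw [List.take_left, List.drop_left]
  · intro i hi hne
    rw [Finset.mem_range] at hi
    have h2 : ((l₁ ++ l₂).take i).length ≠ p := by
      rw [List.length_take]; omega
    rw [hf _ h2, zero_mul]
  · intro h2
    exfalso
    apply h2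
    rw [Finset.mem_range, List.length_append]
    omega

end NC

theorem IsAdd.ncmul {m : ℕ} {f g : NC (PR m)} (hf : IsAdd f) (hg : IsAdd g) :
    IsAdd (ncmul f g) := by
  intro l₁ l₂ a b c
  induction l₁ generalizing f with
  | nil =>
    show MM.ncmul f g ((a, c) :: l₂) = MM.ncmul f g ((a, b) :: l₂) + MM.ncmul f g ((b, c) :: l₂)
    rw [ncmul_cons, ncmul_cons, ncmul_cons, hf.first a b c, ncmul_add_left,
      show g ((a, c) :: l₂) = g ((a, b) :: l₂) + g ((b, c) :: l₂) from hg [] l₂ a b c,
      Pi.add_apply]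
    ring
  | cons x l ih =>
    show MM.ncmul f g (x :: (l ++ (a, c) :: l₂)) = MM.ncmul f g (x :: (l ++ (a, b) :: l₂)) +
      MM.ncmul f g (x :: (l ++ (b, c) :: l₂))
    rw [ncmul_cons, ncmul_cons, ncmul_cons, ih (hf.hd x),
      show g (x :: (l ++ (a, c) :: l₂)) = g (x :: (l ++ (a, b) :: l₂)) +
        g (x :: (l ++ (b, c) :: l₂)) from hg (x :: l) l₂ a b c]
    ring

/-- the product of `TT` -/
def tmul {m : ℕ} (f g : TT.V m) : TT.V m := ⟨ncmul f.1 g.1, f.2.ncmul g.2⟩

theorem tmul_apply {m : ℕ} (f g : TT.V m) (l : List (PR m)) :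
    (tmul f g).1 l = ncmul f.1 g.1 l := rfl

theorem tmul_act {m n : ℕ} (θ : Mo m n) (f g : TT.V n) :
    tmul (TT.act θ f) (TT.act θ g) = TT.act θ (tmul f g) :=
  Subtype.ext (funext fun l => (ncmul_map (prMap θ) f.1 g.1 l).symm)

/-- the product of `TT` as a bilinear map -/
noncomputable def tmulL (m : ℕ) : TT.V m →ₗ[ZMod 2] TT.V m →ₗ[ZMod 2] TT.V m :=
  LinearMap.mk₂ (ZMod 2) tmul
    (fun f f' g => Subtype.ext (ncmul_add_left f.1 f'.1 g.1))
    (fun r f g => Subtype.ext (ncmul_smul_left r f.1 g.1))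
    (fun f g g' => Subtype.ext (ncmul_add_right f.1 g.1 g'.1))
    (fun r f g => Subtype.ext (ncmul_smul_right r f.1 g.1))

/-- a natural bilinear map as a map out of the tensor product -/
noncomputable def tensLift {P Q W : SV} (β : ∀ n, P.V n →ₗ[ZMod 2] Q.V n →ₗ[ZMod 2] W.V n)
    (hβ : ∀ {m n : ℕ} (θ : Mo m n) (x : P.V n) (y : Q.V n),
      β m (P.act θ x) (Q.act θ y) = W.act θ (β n x y)) : SVHom (P.tens Q) W :=
  ⟨fun n => TensorProduct.lift (β n), fun {m n} θ u => by
    induction u using TensorProduct.induction_on with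
    | zero => simp
    | add a b ha hb => rw [map_add, map_add, ha, hb, map_add, map_add]
    | tmul a b =>
      show TensorProduct.lift (β m) (TensorProduct.map _ _ (_ ⊗ₜ _)) = _
      rw [TensorProduct.map_tmul, TensorProduct.lift.tmul, TensorProduct.lift.tmul]
      exact hβ θ a b⟩

@[simp] theorem tensLift_tmul {P Q W : SV}
    (β : ∀ n, P.V n →ₗ[ZMod 2] Q.V n →ₗ[ZMod 2] W.V n)
    (hβ : ∀ {m n : ℕ} (θ : Mo m n) (x : P.V n) (y : Q.V n),
      β m (P.act θ x) (Q.act θ y) = W.act θ (β n x y)) (n : ℕ) (x : P.V n) (y : Q.V n) :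
    (tensLift β hβ).app n (x ⊗ₜ[ZMod 2] y) = β n x y := rfl

/-- the product `TT ⊗ TT → TT` -/
noncomputable def mulTT : SVHom (TT.tens TT) TT := tensLift tmulL fun θ f g => tmul_act θ f g

@[simp] theorem mulTT_tmul (m : ℕ) (f g : TT.V m) :
    mulTT.app m (f ⊗ₜ[ZMod 2] g) = tmul f g := rfl

/-- pointwise product of maps into `TT` -/
def homMul {Z : SS} (a b : Hom Z TT.ss) : Hom Z TT.ss :=
  ⟨fun n x => tmul (a.app n x) (b.app n x), fun {m n} f x => by
    show tmul (a.app m _) (b.app m _) = TT.act f (tmul (a.app n x) (b.app n x))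
    rw [a.nat, b.nat]; exact tmul_act f _ _⟩

end MM

end

/-! ### from `Lib_MP_33f7bb_d.A3K0` -/

section

/-!
# A3-K0: the power operation `kap_e(f, g)` on additive functions (definitions)

`kap e f g` is defined by recursion on the list (two slots at a time):
`kap e f g [] = f [] * g []`, `kap e f g [x] = 0`,
`kap e f g (x :: y :: l) = kap e (f_x) (g_y) l + ∑_(a ∈ {x.1,x.2}) ∑_(b ∈ {y.1,y.2}) e (min a b) * kap e (f_(a,b)) (g_(a,b)) l`.
-/

open scoped TensorProduct

namespace MM

/-- the power operation (list recursion) -/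
def kapL {m : ℕ} (e : Fin (m + 1) → ZMod 2) :
    List (PR m) → NC (PR m) → NC (PR m) → ZMod 2
  | [], f, g => f [] * g []
  | [_], _, _ => 0
  | x :: y :: l, f, g => kapL e l (hd f x) (hd g y) +
      ((e (min x.1 y.1) * kapL e l (hd f (x.1, y.1)) (hd g (x.1, y.1)) +
        e (min x.1 y.2) * kapL e l (hd f (x.1, y.2)) (hd g (x.1, y.2))) +
       (e (min x.2 y.1) * kapL e l (hd f (x.2, y.1)) (hd g (x.2, y.1)) +
        e (min x.2 y.2) * kapL e l (hd f (x.2, y.2)) (hd g (x.2, y.2))))

/-- the power operation -/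
def kap {m : ℕ} (e : Fin (m + 1) → ZMod 2) (f g : NC (PR m)) : NC (PR m) := fun l => kapL e l f g

theorem kap_nil {m : ℕ} (e : Fin (m + 1) → ZMod 2) (f g : NC (PR m)) :
    kap e f g [] = f [] * g [] := rfl

theorem kap_one {m : ℕ} (e : Fin (m + 1) → ZMod 2) (f g : NC (PR m)) (x : PR m) :
    kap e f g [x] = 0 := rfl

theorem kap_cons {m : ℕ} (e : Fin (m + 1) → ZMod 2) (f g : NC (PR m)) (x y : PR m)
    (l : List (PR m)) :
    kap e f g (x :: y :: l) = kap e (hd f x) (hd g y) l +
      ((e (min x.1 y.1) * kap e (hd f (x.1, y.1)) (hd g (x.1, y.1)) l +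
        e (min x.1 y.2) * kap e (hd f (x.1, y.2)) (hd g (x.1, y.2)) l) +
       (e (min x.2 y.1) * kap e (hd f (x.2, y.1)) (hd g (x.2, y.1)) l +
        e (min x.2 y.2) * kap e (hd f (x.2, y.2)) (hd g (x.2, y.2)) l)) := rfl

/-- induction on lists, two elements at a time -/
theorem list_ind2 {X : Type} {C : List X → Prop} (h0 : C []) (h1 : ∀ x, C [x])
    (h2 : ∀ x y l, C l → C (x :: y :: l)) : ∀ l, C l
  | [] => h0
  | [x] => h1 x
  | x :: y :: l => h2 x y l (list_ind2 h0 h1 h2 l)

end MM

end

/-! ### from `Lib_MP_33f7bb_d.A3K1` -/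

section

/-!
# A3-02: the power operation: bilinear, additive, natural, equivariant

All statements by induction on the list (two slots at a time, `list_ind2`), with `f` and `g` generalised, from `kap_cons`.

* bilinearity, smul: immediate (`hd (f + f') x = hd f x + hd f' x`).
* `kap_isAdd`: induction on the list `l₁` in front of the slot.  `l₁ = []`: for `l₂ = []` all three values are `0`; for
  `l₂ = y :: l`: the first term is additive in `x` because `hd f (a,c) = hd f (a,b) + hd f (b,c)` (`IsAdd.first`); the other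
  terms are `S a + S c` where `S a = ∑_(b' ∈ {y.1,y.2}) e (min a b') * kap e (hd f (a,b')) (hd g (a,b')) l`, and
  `S a + S c = (S a + S b) + (S b + S c)`.  `l₁ = [x]`: the same for the slot `y`.
  `l₁ = x :: y :: l`: induction hypothesis for the five pairs of functions (`IsAdd.hd`).
* `kap_map`: `θ` monotone: `θ (min a b) = min (θ a) (θ b)` (`OrderHom`: `map_min`/`Monotone.map_min`).
* `kap_equiv`: induction on `l`.  At `x :: y :: l`, with `B u v := kap e (hd f u) (hd g v) l` (additive in `u` and in `v`, as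
  `f, g` are additive and `kap` is bilinear), the induction hypothesis gives that the two sides differ by
  `B y x + B x y + ∑_(a ∈ {x.1,x.2}) ∑_(b ∈ {y.1,y.2}) B (a,b) (a,b)`.
  With `(a,b) = (a,0) + (0,b)`: `B (a,b) (a,b) = B (a,0) (a,0) + B (a,0) (0,b) + B (0,b) (a,0) + B (0,b) (0,b)`.  In the sum over
  `a, b` the first and the last term appear twice each (cancel), and `∑_a B(a,0) · = B x ·` (`(x.1,0) + (0,x.2) = x` and
  symmetry `IsAdd.symm`), so the two middle terms give `B x y + B y x`.  Everything cancels in characteristic 2.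
* `kap_congr`: the value on a list of length `2 n` depends only on the values of `f`, `g` on lists of length `n`.
* `kap_odd`: `0` on lists of odd length.
-/

open scoped TensorProduct

namespace MM

private theorem A3K1_addL {m : ℕ} (e : Fin (m + 1) → ZMod 2) (l : List (PR m)) :
    ∀ f f' g : NC (PR m), kap e (f + f') g l = kap e f g l + kap e f' g l := by
  induction l using list_ind2 with
  | h0 =>
    intro f f' g
    simp only [kap_nil, Pi.add_apply]
    ring
  | h1 x =>
    intro f f' g
    simp only [kap_one, add_zero]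
  | h2 x y l ih =>
    intro f f' g
    simp only [kap_cons, hd_add, ih]
    ring

private theorem A3K1_addR {m : ℕ} (e : Fin (m + 1) → ZMod 2) (l : List (PR m)) :
    ∀ f g g' : NC (PR m), kap e f (g + g') l = kap e f g l + kap e f g' l := by
  induction l using list_ind2 with
  | h0 =>
    intro f g g'
    simp only [kap_nil, Pi.add_apply]
    ring
  | h1 x =>
    intro f g g'
    simp only [kap_one, add_zero]
  | h2 x y l ih =>
    intro f g g'
    simp only [kap_cons, hd_add, ih]
    ring

private theorem A3K1_hd_smul {X : Type} (r : ZMod 2) (f : NC X) (x : X) :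
    hd (r • f) x = r • hd f x := rfl

private theorem A3K1_smulL {m : ℕ} (e : Fin (m + 1) → ZMod 2) (r : ZMod 2) (l : List (PR m)) :
    ∀ f g : NC (PR m), kap e (r • f) g l = r * kap e f g l := by
  induction l using list_ind2 with
  | h0 =>
    intro f g
    simp only [kap_nil, Pi.smul_apply, smul_eq_mul]
    ring
  | h1 x =>
    intro f g
    simp only [kap_one, mul_zero]
  | h2 x y l ih =>
    intro f g
    simp only [kap_cons, A3K1_hd_smul, ih]
    ring

private theorem A3K1_smulR {m : ℕ} (e : Fin (m + 1) → ZMod 2) (r : ZMod 2) (l : List (PR m)) :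
    ∀ f g : NC (PR m), kap e f (r • g) l = r * kap e f g l := by
  induction l using list_ind2 with
  | h0 =>
    intro f g
    simp only [kap_nil, Pi.smul_apply, smul_eq_mul]
    ring
  | h1 x =>
    intro f g
    simp only [kap_one, mul_zero]
  | h2 x y l ih =>
    intro f g
    simp only [kap_cons, A3K1_hd_smul, ih]
    ring

theorem kap_add_left {m : ℕ} (e : Fin (m + 1) → ZMod 2) (f f' g : NC (PR m)) :
    kap e (f + f') g = kap e f g + kap e f' g := by
  funext l
  exact A3K1_addL e l f f' g

theorem kap_add_right {m : ℕ} (e : Fin (m + 1) → ZMod 2) (f g g' : NC (PR m)) :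
    kap e f (g + g') = kap e f g + kap e f g' := by
  funext l
  exact A3K1_addR e l f g g'

theorem kap_smul_left {m : ℕ} (e : Fin (m + 1) → ZMod 2) (r : ZMod 2) (f g : NC (PR m)) :
    kap e (r • f) g = r • kap e f g := by
  funext l
  exact A3K1_smulL e r l f g

theorem kap_smul_right {m : ℕ} (e : Fin (m + 1) → ZMod 2) (r : ZMod 2) (f g : NC (PR m)) :
    kap e f (r • g) = r • kap e f g := by
  funext l
  exact A3K1_smulR e r l f g

theorem kap_isAdd {m : ℕ} (e : Fin (m + 1) → ZMod 2) {f g : NC (PR m)} (hf : IsAdd f)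
    (hg : IsAdd g) : IsAdd (kap e f g) := by
  have h2 : ∀ t : ZMod 2, t + t = 0 := CharTwo.add_self_eq_zero
  intro l₁
  induction l₁ using list_ind2 generalizing f g with
  | h0 =>
    intro l₂ a b c
    rcases l₂ with _ | ⟨y, l⟩
    · show kap e f g [(a, c)] = kap e f g [(a, b)] + kap e f g [(b, c)]
      rw [kap_one, kap_one, kap_one, add_zero]
    · show kap e f g ((a, c) :: y :: l) = kap e f g ((a, b) :: y :: l) +
        kap e f g ((b, c) :: y :: l)
      rw [kap_cons, kap_cons, kap_cons, hf.first a b c, A3K1_addL]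
      linear_combination -(h2 (e (min b y.1) * kap e (MM.hd f (b, y.1)) (MM.hd g (b, y.1)) l +
        e (min b y.2) * kap e (MM.hd f (b, y.2)) (MM.hd g (b, y.2)) l))
  | h1 x =>
    intro l₂ a b c
    show kap e f g (x :: (a, c) :: l₂) = kap e f g (x :: (a, b) :: l₂) +
      kap e f g (x :: (b, c) :: l₂)
    rw [kap_cons, kap_cons, kap_cons, hg.first a b c, A3K1_addR]
    linear_combination -(h2 (e (min x.1 b) * kap e (MM.hd f (x.1, b)) (MM.hd g (x.1, b)) l₂ +
      e (min x.2 b) * kap e (MM.hd f (x.2, b)) (MM.hd g (x.2, b)) l₂))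
  | h2 x y l ih =>
    intro l₂ a b c
    show kap e f g (x :: y :: (l ++ (a, c) :: l₂)) = kap e f g (x :: y :: (l ++ (a, b) :: l₂)) +
      kap e f g (x :: y :: (l ++ (b, c) :: l₂))
    have ih' : ∀ u v : PR m, kap e (MM.hd f u) (MM.hd g v) (l ++ (a, c) :: l₂) =
        kap e (MM.hd f u) (MM.hd g v) (l ++ (a, b) :: l₂) +
          kap e (MM.hd f u) (MM.hd g v) (l ++ (b, c) :: l₂) :=
      fun u v => ih (hf.hd u) (hg.hd v) l₂ a b c
    rw [kap_cons, kap_cons, kap_cons, ih', ih', ih', ih', ih']
    ring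

theorem kap_map {m n : ℕ} (θ : Mo m n) (e : Fin (n + 1) → ZMod 2) (f g : NC (PR n))
    (l : List (PR m)) :
    kap (fun i => e (θ i)) (fun l => f (l.map (prMap θ))) (fun l => g (l.map (prMap θ))) l =
      kap e f g (l.map (prMap θ)) := by
  induction l using list_ind2 generalizing f g with
  | h0 => rfl
  | h1 x => rfl
  | h2 x y l ih =>
    have ih' : ∀ u v : PR m, kap (fun i => e (θ i)) (hd (fun l => f (l.map (prMap θ))) u)
        (hd (fun l => g (l.map (prMap θ))) v) l =
        kap e (hd f (prMap θ u)) (hd g (prMap θ v)) (l.map (prMap θ)) :=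
      fun u v => ih (hd f (prMap θ u)) (hd g (prMap θ v))
    have hmin : ∀ a b : Fin (m + 1), e (θ (min a b)) = e (min (θ a) (θ b)) := fun a b => by
      rw [θ.monotone.map_min]
    rw [List.map_cons, List.map_cons, kap_cons, kap_cons, ih', ih', ih', ih', ih',
      hmin, hmin, hmin, hmin]
    rfl

theorem kap_equiv {m : ℕ} (e : Fin (m + 1) → ZMod 2) {f g : NC (PR m)} (hf : IsAdd f)
    (hg : IsAdd g) : kap (fun i => e i + 1) g f = kap e f g := by
  have h2 : (2 : ZMod 2) = 0 := rfl
  funext l
  induction l using list_ind2 generalizing f g with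
  | h0 =>
    rw [kap_nil, kap_nil, mul_comm]
  | h1 x => rfl
  | h2 x y l ih =>
    have ih' : ∀ u v : PR m, kap (fun i => e i + 1) (MM.hd g v) (MM.hd f u) l =
        kap e (MM.hd f u) (MM.hd g v) l := fun u v => ih (hf.hd u) (hg.hd v)
    have hB : ∀ u v : PR m, kap e (MM.hd f u) (MM.hd g v) l =
        kap e (MM.hd f (u.1, 0)) (MM.hd g (v.1, 0)) l +
        kap e (MM.hd f (u.1, 0)) (MM.hd g (v.2, 0)) l +
        kap e (MM.hd f (u.2, 0)) (MM.hd g (v.1, 0)) l +
        kap e (MM.hd f (u.2, 0)) (MM.hd g (v.2, 0)) l := by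
      intro u v
      have hf1 : MM.hd f u = MM.hd f (u.1, 0) + MM.hd f (u.2, 0) := by
        have e1 : MM.hd f (u.1, u.2) = MM.hd f (u.1, 0) + MM.hd f (0, u.2) := hf.first _ _ _
        have e2 : MM.hd f (0, u.2) = MM.hd f (u.2, 0) := funext fun l => hf.symm [] l 0 u.2
        rw [e2] at e1
        exact e1
      have hg1 : MM.hd g v = MM.hd g (v.1, 0) + MM.hd g (v.2, 0) := by
        have e1 : MM.hd g (v.1, v.2) = MM.hd g (v.1, 0) + MM.hd g (0, v.2) := hg.first _ _ _
        have e2 : MM.hd g (0, v.2) = MM.hd g (v.2, 0) := funext fun l => hg.symm [] l 0 v.2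
        rw [e2] at e1
        exact e1
      rw [hf1, hg1, A3K1_addL, A3K1_addR, A3K1_addR]
      ring
    obtain ⟨β, hβ⟩ : ∃ β : Fin (m + 1) → Fin (m + 1) → ZMod 2,
        ∀ a b, kap e (MM.hd f (a, 0)) (MM.hd g (b, 0)) l = β a b := ⟨_, fun _ _ => rfl⟩
    have hB' : ∀ u v : PR m, kap e (MM.hd f u) (MM.hd g v) l =
        β u.1 v.1 + β u.1 v.2 + β u.2 v.1 + β u.2 v.2 := by
      intro u v
      rw [hB u v, hβ, hβ, hβ, hβ]
    rw [kap_cons, kap_cons, ih', ih', ih', ih', ih']
    simp only [hB']
    linear_combination (β y.1 x.1 + β y.1 x.2 + β y.2 x.1 + β y.2 x.2 + β x.1 x.1 + β x.2 x.2 +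
      β y.1 y.1 + β y.2 y.2) * h2

theorem kap_congr {m n : ℕ} (e : Fin (m + 1) → ZMod 2) {f f' g g' : NC (PR m)}
    (hf : ∀ l, l.length = n → f l = f' l) (hg : ∀ l, l.length = n → g l = g' l)
    (l : List (PR m)) (hl : l.length = 2 * n) : kap e f g l = kap e f' g' l := by
  induction l using list_ind2 generalizing n f f' g g' with
  | h0 =>
    have hn : n = 0 := by
      simp only [List.length_nil] at hl
      omega
    rw [kap_nil, kap_nil, hf [] (by rw [hn]; rfl), hg [] (by rw [hn]; rfl)]
  | h1 x => rfl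
  | h2 x y l ih =>
    obtain ⟨k, rfl⟩ : ∃ k, n = k + 1 := ⟨n - 1, by
      simp only [List.length_cons] at hl
      omega⟩
    have hl' : l.length = 2 * k := by
      simp only [List.length_cons] at hl
      omega
    have ih' : ∀ u v : PR m, kap e (hd f u) (hd g v) l = kap e (hd f' u) (hd g' v) l :=
      fun u v => ih (n := k) (fun l hl => hf (u :: l) (by rw [List.length_cons, hl]))
        (fun l hl => hg (v :: l) (by rw [List.length_cons, hl])) hl'
    rw [kap_cons, kap_cons, ih', ih', ih', ih', ih']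

theorem kap_odd {m : ℕ} (e : Fin (m + 1) → ZMod 2) (f g : NC (PR m)) (l : List (PR m))
    (hl : ¬ Even l.length) : kap e f g l = 0 := by
  induction l using list_ind2 generalizing f g with
  | h0 => exact absurd (by simp) hl
  | h1 x => rfl
  | h2 x y l ih =>
    have hl' : ¬ Even l.length := by
      intro h
      apply hl
      simp only [List.length_cons]
      obtain ⟨r, hr⟩ := h
      exact ⟨r + 1, by omega⟩
    rw [kap_cons, ih _ _ hl', ih _ _ hl', ih _ _ hl', ih _ _ hl', ih _ _ hl']
    simp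

end MM

end

/-! ### from `Lib_MP_33f7bb_d.A3K2` -/

section

/-!
# A3-03: the power operation is strictly multiplicative; the case `e = 0`

* `kap_mul`: `f, f'` homogeneous of the same degree `p`, `g, g'` arbitrary: `kap e (f g) (f' g') = kap e f f' · kap e g g'`
  (concatenation products).  Induction on `p`, `f, f'` generalised.
  `p = 0`: `f = f [] • 1`, `f' = f' [] • 1` (`1 =` indicator of `[]`), `ncmul f g = f [] • g`, `ncmul f' g' = f' [] • g'`, and
  `kap e f f'` is `(f [] * f' []) • 1`.
  `p + 1`: compare values on a list by cases.  `[]`: both sides are `0` (`f [] = 0`).  `[x]`: left side `0`; right side: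
  `kap e f f' [] * _ + kap e f f' [x] * _ = 0`.  `x :: y :: l`: `hd (ncmul f g) x = ncmul (hd f x) g` (as `f [] = 0`), so by
  `kap_cons` and the induction hypothesis (`hd f u`, `hd f' v` homogeneous of degree `p`) the left side is
  `ncmul (kap e (hd f x) (hd f' y)) G l + ∑ e (min a b) * ncmul (kap e (hd f (a,b)) (hd f' (a,b))) G l`, `G = kap e g g'`.  The right
  side is `ncmul (hd (hd K x) y) G l`, `K = kap e f f'` (use `ncmul_cons` twice, `K [] = 0`, `K [x] = 0`), and
  `hd (hd K x) y = kap e (hd f x) (hd f' y) + ∑ e (min a b) • kap e (hd f (a,b)) (hd f' (a,b))`; bilinearity of `ncmul`.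
* `kap_zero`: for `e = 0` only the first term of `kap_cons` survives.
* `evens`/`odds`: entries at even / odd positions.
-/

open scoped TensorProduct

namespace MM

/-- the value on a list depends only on the values of `f` on lists of half the length -/
private theorem A3K2_van {m : ℕ} (e : Fin (m + 1) → ZMod 2) (l : List (PR m)) :
    ∀ f g : NC (PR m), (∀ l', 2 * l'.length = l.length → f l' = 0) → kap e f g l = 0 := by
  induction l using list_ind2 with
  | h0 =>
    intro f g h
    rw [kap_nil, h [] rfl, zero_mul]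
  | h1 x =>
    intro f g _
    exact kap_one e f g x
  | h2 x y l ih =>
    intro f g h
    have k : ∀ u v : PR m, kap e (hd f u) (hd g v) l = 0 := by
      intro u v
      refine ih (hd f u) (hd g v) fun l' hl' => ?_
      show f (u :: l') = 0
      refine h (u :: l') ?_
      rw [List.length_cons, List.length_cons, List.length_cons]
      omega
    rw [kap_cons, k, k, k, k, k]
    simp only [mul_zero, add_zero]

private theorem A3K2_isHom {m : ℕ} (e : Fin (m + 1) → ZMod 2) {p : ℕ} {f f' : NC (PR m)}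
    (hf : IsHom p f) : IsHom (2 * p) (kap e f f') := by
  intro l hl
  refine A3K2_van e l f f' fun l' hl' => hf l' ?_
  intro h
  apply hl
  rw [← hl', h]

private theorem A3K2_hd {X : Type} {f : NC X} (g : NC X) (h : f [] = 0) (u : X) :
    hd (ncmul f g) u = ncmul (hd f u) g := by
  funext l
  show ncmul f g (u :: l) = ncmul (hd f u) g l
  rw [ncmul_cons, h, zero_mul, zero_add]

private theorem A3K2_hom0 {X : Type} {f : NC X} (hf : IsHom 0 f) (g : NC X) :
    ncmul f g = f [] • g := by
  funext l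
  exact ncmul_of_hom hf g (l₁ := []) (l₂ := l) rfl

theorem kap_mul {m : ℕ} (e : Fin (m + 1) → ZMod 2) {p : ℕ} {f f' : NC (PR m)} (hf : IsHom p f)
    (hf' : IsHom p f') (g g' : NC (PR m)) :
    kap e (ncmul f g) (ncmul f' g') = ncmul (kap e f f') (kap e g g') := by
  induction p generalizing f f' with
  | zero =>
    have hK : IsHom 0 (kap e f f') := A3K2_isHom e hf
    rw [A3K2_hom0 hf, A3K2_hom0 hf', A3K2_hom0 hK, kap_smul_left, kap_smul_right, kap_nil,
      smul_smul]
  | succ p ih =>
    have h0 : f [] = 0 := hf.nil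
    have h0' : f' [] = 0 := hf'.nil
    have hu : ∀ u v : PR m, kap e (hd (ncmul f g) u) (hd (ncmul f' g') v) =
        ncmul (kap e (hd f u) (hd f' v)) (kap e g g') := by
      intro u v
      rw [A3K2_hd g h0, A3K2_hd g' h0', ih (hf.hd u) (hf'.hd v)]
    funext l
    rcases l with _ | ⟨x, _ | ⟨y, l⟩⟩
    · rw [kap_nil, ncmul_nil, ncmul_nil, ncmul_nil, kap_nil, h0]
      simp only [zero_mul]
    · rw [kap_one, ncmul_cons, ncmul_nil, kap_nil, h0, zero_mul, zero_mul, zero_add]
      show 0 = kap e f f' [x] * _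
      rw [kap_one, zero_mul]
    · rw [kap_cons, hu, hu, hu, hu, hu, ncmul_cons, kap_nil, h0, zero_mul, zero_mul, zero_add,
        ncmul_cons]
      have h1 : hd (kap e f f') x [] = 0 := kap_one e f f' x
      rw [h1, zero_mul, zero_add]
      have h2 : hd (hd (kap e f f') x) y = kap e (hd f x) (hd f' y) +
          ((e (min x.1 y.1) • kap e (hd f (x.1, y.1)) (hd f' (x.1, y.1)) +
            e (min x.1 y.2) • kap e (hd f (x.1, y.2)) (hd f' (x.1, y.2))) +
           (e (min x.2 y.1) • kap e (hd f (x.2, y.1)) (hd f' (x.2, y.1)) +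
            e (min x.2 y.2) • kap e (hd f (x.2, y.2)) (hd f' (x.2, y.2)))) := by
        funext l'
        exact kap_cons e f f' x y l'
      rw [h2]
      simp only [ncmul_add_left, ncmul_smul_left, Pi.add_apply, Pi.smul_apply, smul_eq_mul]

theorem kap_isHom {m : ℕ} (e : Fin (m + 1) → ZMod 2) {p : ℕ} {f f' : NC (PR m)}
    (hf : IsHom p f) (hf' : IsHom p f') : IsHom (2 * p) (kap e f f') :=
  A3K2_isHom e hf

/-- entries at even positions -/
def evens {X : Type} : List X → List X
  | [] => []
  | [x] => [x]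
  | x :: _ :: l => x :: evens l

/-- entries at odd positions -/
def odds {X : Type} : List X → List X
  | [] => []
  | [_] => []
  | _ :: y :: l => y :: odds l

theorem kap_zero {m : ℕ} (f g : NC (PR m)) (l : List (PR m)) (hl : Even l.length) :
    kap (fun _ => 0) f g l = f (evens l) * g (odds l) := by
  induction l using list_ind2 generalizing f g with
  | h0 => exact kap_nil _ f g
  | h1 x => exact absurd hl (by simp)
  | h2 x y l ih =>
    have h : Even l.length := by
      rw [List.length_cons, List.length_cons] at hl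
      rw [Nat.even_iff] at hl ⊢
      omega
    rw [kap_cons, ih _ _ h]
    simp only [zero_mul, add_zero]
    rfl

end MM

end

/-! ### from `Lib_MP_33f7bb_d.A3K3` -/

section

/-!
# A3-K3: the power operation on maps into `TT` (definitions, complete given `A3K1`)

`PP a : B × Z → TT`, `(b, σ) ↦ kap_b (a σ, a σ)`; `GG a a' : E-version for the cross terms`.
-/

open scoped TensorProduct

namespace MM

/-- the power operation on `TT` -/
def kapT {m : ℕ} (e : Fin (m + 1) → ZMod 2) (f g : TT.V m) : TT.V m :=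
  ⟨kap e f.1 g.1, kap_isAdd e f.2 g.2⟩

theorem kapT_apply {m : ℕ} (e : Fin (m + 1) → ZMod 2) (f g : TT.V m) (l : List (PR m)) :
    (kapT e f g).1 l = kap e f.1 g.1 l := rfl

theorem kapT_act {m n : ℕ} (θ : Mo m n) (e : Fin (n + 1) → ZMod 2) (f g : TT.V n) :
    kapT (fun i => e (θ i)) (TT.act θ f) (TT.act θ g) = TT.act θ (kapT e f g) :=
  Subtype.ext (funext fun l => kap_map θ e f.1 g.1 l)

theorem kapT_equiv {m : ℕ} (e : Fin (m + 1) → ZMod 2) (f g : TT.V m) :
    kapT (fun i => e i + 1) g f = kapT e f g :=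
  Subtype.ext (kap_equiv e f.2 g.2)

theorem kapT_shift {m : ℕ} (e : Fin (m + 1) → ZMod 2) (c : ZMod 2) (f : TT.V m) :
    kapT (fun i => e i - c) f f = kapT e f f := by
  have hc : c = 0 ∨ c = 1 := by
    revert c; decide
  rcases hc with rfl | rfl
  · simp only [sub_zero]
  · have : (fun i => e i - 1) = fun i => e i + 1 := funext fun i => CharTwo.sub_eq_add _ _
    rw [this]
    exact kapT_equiv e f f

theorem kapT_add_left {m : ℕ} (e : Fin (m + 1) → ZMod 2) (f f' g : TT.V m) :
    kapT e (f + f') g = kapT e f g + kapT e f' g :=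
  Subtype.ext (kap_add_left e f.1 f'.1 g.1)

theorem kapT_add_right {m : ℕ} (e : Fin (m + 1) → ZMod 2) (f g g' : TT.V m) :
    kapT e f (g + g') = kapT e f g + kapT e f g' :=
  Subtype.ext (kap_add_right e f.1 g.1 g'.1)

/-- `kapT e` as a bilinear map -/
noncomputable def kapTL {m : ℕ} (e : Fin (m + 1) → ZMod 2) :
    TT.V m →ₗ[ZMod 2] TT.V m →ₗ[ZMod 2] TT.V m :=
  LinearMap.mk₂ (ZMod 2) (kapT e) (kapT_add_left e)
    (fun r f g => Subtype.ext (kap_smul_left e r f.1 g.1)) (kapT_add_right e)
    (fun r f g => Subtype.ext (kap_smul_right e r f.1 g.1))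

/-- `kap_0` as a map `TT ⊗ TT → TT` -/
noncomputable def kap0 : SVHom (TT.tens TT) TT :=
  tensLift (fun _ => kapTL (fun _ => 0)) fun θ f g => kapT_act θ (fun _ => 0) f g

@[simp] theorem kap0_tmul (m : ℕ) (f g : TT.V m) :
    kap0.app m (f ⊗ₜ[ZMod 2] g) = kapT (fun _ => 0) f g := rfl

/-- the power operation `P(a) : B × Z → TT` -/
def PP {Z : SS} (a : Hom Z TT.ss) : Hom (BZ2.prod Z) TT.ss :=
  ⟨fun n x => kapT x.1.1 (a.app n x.2) (a.app n x.2), fun {m n} θ x => by
    show kapT (fun i => x.1.1 (θ i) - x.1.1 (θ 0)) (a.app m (Z.act θ x.2)) (a.app m (Z.act θ x.2)) =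
      TT.act θ (kapT x.1.1 (a.app n x.2) (a.app n x.2))
    rw [kapT_shift, a.nat]
    exact kapT_act θ x.1.1 (a.app n x.2) (a.app n x.2)⟩

theorem PP_app {Z : SS} (a : Hom Z TT.ss) (n : ℕ) (b : K1.V n) (x : Z.S n) :
    (PP a).app n (b, x) = kapT b.1 (a.app n x) (a.app n x) := rfl

/-- naturality of the power operation -/
theorem PP_comp {Z Z' : SS} (f : Hom Z Z') (a : Hom Z' TT.ss) :
    PP (a.comp f) = (PP a).comp (Hom.prodMap (Hom.id BZ2) f) := rfl

/-- the inclusion of `Z` at the base point of `B` -/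
def inclB (Z : SS) : Hom Z (BZ2.prod Z) :=
  ⟨fun n x => ((0 : K1.V n), x), fun {m n} f x => by
    show ((0 : K1.V m), Z.act f x) = (K1.act f 0, Z.act f x)
    rw [map_zero]⟩

/-- the identity class of `B` as a map into `TT`: `b ↦ ([x] ↦ b(x.1) + b(x.2))` -/
def xT : Hom BZ2 TT.ss :=
  ⟨fun n b => ⟨fun l => match l with
      | [x] => b.1 x.1 + b.1 x.2
      | _ => 0, by
      intro l₁ l₂ a c d
      rcases l₁ with _ | ⟨y, _ | ⟨z, l₁⟩⟩
      · rcases l₂ with _ | ⟨y, l₂⟩
        · show b.1 a + b.1 d = (b.1 a + b.1 c) + (b.1 c + b.1 d)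
          have := CharTwo.add_self_eq_zero (b.1 c)
          linear_combination -this
        · rfl
      · rcases l₂ with _ | ⟨z, l₂⟩ <;> rfl
      · rfl⟩, fun {m n} θ b => by
    apply Subtype.ext; funext l
    rcases l with _ | ⟨x, _ | ⟨y, l⟩⟩
    · rfl
    · show (b.1 (θ x.1) - b.1 (θ 0)) + (b.1 (θ x.2) - b.1 (θ 0)) = b.1 (θ x.1) + b.1 (θ x.2)
      have := CharTwo.add_self_eq_zero (b.1 (θ 0))
      linear_combination -this
    · rfl⟩

theorem xT_one (n : ℕ) (b : K1.V n) (x : PR n) : (xT.app n b).1 [x] = b.1 x.1 + b.1 x.2 := rfl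

theorem xT_isHom (n : ℕ) (b : K1.V n) : IsHom 1 (xT.app n b).1 := by
  intro l hl
  rcases l with _ | ⟨x, _ | ⟨y, l⟩⟩
  · rfl
  · exact absurd rfl hl
  · rfl

end MM

end
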