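import Pool.Agent.Lib_MP_33f7bb_m.G02
import Pool.Agent.Lib_MP_33f7bb_m.G03

/-!
# MP_33f7bb_an, negative answer to Q1: merged library part G04

Concatenation of files of `Lib_MP_33f7bb_an` and `Lib_MP_33f7bb_d` (each in its own section), only to save build time.
-/

/-! ### from `Lib_MP_33f7bb_d.A014` -/

section

/-!
# A0-14: tensor products with acyclic simplicial vector spaces are acyclic; exactness tools

`tens_acyclic`: if `Q` is acyclic, `id_Q` is linearly homotopic to `0` (`lhtp_iff`); tensor the homotopy with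
`P`: `H_a = id ⊗ H^Q_a`; so `id` of `P ⊗ Q` induces zero in homology (`lprism`).
Tensoring with linear homotopic maps preserves homotopies.
`les_*`: elementary diagram chases for a subobject `C ≤ D` with quotient `D/C` (long exact sequence).
-/

open scoped TensorProduct

namespace MM

private theorem A014_d {P Q : SV} (f : SVHom P Q) (n : ℕ) (x : P.V (n + 1)) :
    f.app n (P.d n x) = Q.d n (f.app (n + 1) x) := by
  simp only [SV.d, LinearMap.sum_apply, map_sum, f.nat]

private theorem A014_Z {P Q : SV} (f : SVHom P Q) {n : ℕ} {x : P.V n} (hx : x ∈ P.Z n) :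
    f.app n x ∈ Q.Z n := by
  cases n with
  | zero => exact Submodule.mem_top
  | succ n =>
    have hx' : P.d n x = 0 := hx
    show Q.d n (f.app (n + 1) x) = 0
    rw [← A014_d, hx', map_zero]

private theorem A014_B {P Q : SV} (f : SVHom P Q) {n : ℕ} {x : P.V n} (hx : x ∈ P.B n) :
    f.app n x ∈ Q.B n := by
  obtain ⟨w, rfl⟩ := hx
  exact ⟨f.app (n + 1) w, (A014_d f n w).symm⟩

private theorem A014_dZ (P : SV) (n : ℕ) (x : P.V (n + 1)) : P.d n x ∈ P.Z n := by
  cases n with
  | zero => exact Submodule.mem_top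
  | succ n => exact P.d_d x

private theorem A014_refl {P Q : SV} (f : SVHom P Q) : LHtp f f :=
  ⟨⟨fun n _ => f.app n, fun g _ x => f.nat g x⟩, fun _ _ => rfl, fun _ _ => rfl⟩

private def A014_zero (P Q : SV) : SVHom P Q := ⟨fun _ => 0, fun g x => by simp⟩

theorem LHtp.tens {P P' Q Q' : SV} {f f' : SVHom P P'} {g g' : SVHom Q Q'} (hf : LHtp f f')
    (hg : LHtp g g') : LHtp (f.tens g) (f'.tens g') := by
  obtain ⟨H, H0, H1⟩ := hf
  obtain ⟨G, G0, G1⟩ := hg
  refine ⟨⟨fun n a => TensorProduct.map (H.app n a) (G.app n a), ?_⟩, ?_, ?_⟩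
  · intro m n h a x
    induction x using TensorProduct.induction_on with
    | zero => simp
    | tmul x y => simp [H.nat, G.nat]
    | add x y hx hy => simp only [map_add, hx, hy]
  · intro n x
    have e1 : H.app n (cst 0) = f.app n := LinearMap.ext (H0 n)
    have e2 : G.app n (cst 0) = g.app n := LinearMap.ext (G0 n)
    show TensorProduct.map (H.app n (cst 0)) (G.app n (cst 0)) x =
      TensorProduct.map (f.app n) (g.app n) x
    rw [e1, e2]
  · intro n x
    have e1 : H.app n (cst 1) = f'.app n := LinearMap.ext (H1 n)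
    have e2 : G.app n (cst 1) = g'.app n := LinearMap.ext (G1 n)
    show TensorProduct.map (H.app n (cst 1)) (G.app n (cst 1)) x =
      TensorProduct.map (f'.app n) (g'.app n) x
    rw [e1, e2]

private theorem A014_null {Q : SV} (h : Q.Acyclic) : LHtp (SVHom.id Q) (A014_zero Q Q) := by
  rw [lhtp_iff]
  intro n z hz
  show z + 0 ∈ Q.B n
  rw [add_zero]
  exact h n z hz

theorem tens_acyclic_right (P Q : SV) (h : Q.Acyclic) : (P.tens Q).Acyclic := by
  intro n z hz
  have h1 := (lhtp_iff _ _).1 ((A014_refl (SVHom.id P)).tens (A014_null h)) n z hz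
  have e1 : ((SVHom.id P).tens (SVHom.id Q)).app n z = z := by
    show TensorProduct.map LinearMap.id LinearMap.id z = z
    rw [TensorProduct.map_id]
    rfl
  have e2 : ((SVHom.id P).tens (A014_zero Q Q)).app n z = 0 := by
    show TensorProduct.map LinearMap.id (0 : Q.V n →ₗ[ZMod 2] Q.V n) z = 0
    rw [TensorProduct.map_zero_right]
    rfl
  rw [e1, e2, add_zero] at h1
  exact h1

theorem tens_acyclic_left (P Q : SV) (h : P.Acyclic) : (P.tens Q).Acyclic := by
  intro n z hz
  have h1 := (lhtp_iff _ _).1 ((A014_null h).tens (A014_refl (SVHom.id Q))) n z hz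
  have e1 : ((SVHom.id P).tens (SVHom.id Q)).app n z = z := by
    show TensorProduct.map LinearMap.id LinearMap.id z = z
    rw [TensorProduct.map_id]
    rfl
  have e2 : ((A014_zero P P).tens (SVHom.id Q)).app n z = 0 := by
    show TensorProduct.map (0 : P.V n →ₗ[ZMod 2] P.V n) LinearMap.id z = 0
    rw [TensorProduct.map_zero_left]
    rfl
  rw [e1, e2, add_zero] at h1
  exact h1

private theorem A014_quo_mk {D : SV} (C : SubV D) {n : ℕ} (x y : D.V n)
    (h : C.proj.app n x = C.proj.app n y) : x + y ∈ C.car n := by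
  have h1 : x - y ∈ C.car n := (Submodule.Quotient.eq _).1 h
  rw [sub_eq'] at h1
  exact h1

private theorem A014_quo_zero {D : SV} (C : SubV D) {n : ℕ} (x : D.V n) (h : x ∈ C.car n) :
    C.proj.app n x = 0 := (Submodule.Quotient.mk_eq_zero _).2 h

private theorem A014_quo_zero' {D : SV} (C : SubV D) {n : ℕ} (x : D.V n)
    (h : C.proj.app n x = 0) : x ∈ C.car n := (Submodule.Quotient.mk_eq_zero _).1 h

private theorem A014_subd {D : SV} (C : SubV D) {n : ℕ} (x : C.car (n + 1)) :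
    ((C.sv.d n x : C.sv.V n) : D.V n) = D.d n x.1 := A014_d C.incl n x

private theorem A014_subZ {D : SV} (C : SubV D) {n : ℕ} (x : C.car n) (h : x.1 ∈ D.Z n) :
    (x : C.sv.V n) ∈ C.sv.Z n := by
  cases n with
  | zero => exact Submodule.mem_top
  | succ n =>
    show C.sv.d n x = 0
    apply Subtype.ext
    rw [A014_subd]
    exact h

/-- if `C` and the quotient are acyclic, so is `D` -/
theorem acyclic_of_sub_quo {D : SV} (C : SubV D) (h1 : C.sv.Acyclic) (h2 : C.quo.Acyclic) :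
    D.Acyclic := by
  intro n z hz
  obtain ⟨w', hw'⟩ := h2 n _ (A014_Z C.proj hz)
  obtain ⟨w, hw⟩ := Submodule.Quotient.mk_surjective _ w'
  have e : C.proj.app (n + 1) w = w' := hw
  rw [← e, ← A014_d] at hw'
  have hc : z + D.d n w ∈ C.car n := A014_quo_mk C _ _ hw'.symm
  have hcZ : z + D.d n w ∈ D.Z n := add_mem hz (A014_dZ D n w)
  obtain ⟨c, hc'⟩ := h1 n _ (A014_subZ C ⟨_, hc⟩ hcZ)
  have e2 : D.d n c.1 = z + D.d n w := by
    rw [← A014_subd, hc']
  refine ⟨w + c.1, ?_⟩
  rw [map_add, e2, add_comm z, ← add_assoc, two_eq_zero', zero_add]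

theorem quo_acyclic {D : SV} (C : SubV D) (h1 : C.sv.Acyclic) (h2 : D.Acyclic) :
    C.quo.Acyclic := by
  intro n z' hz'
  obtain ⟨z, hz⟩ := Submodule.Quotient.mk_surjective _ z'
  have e : C.proj.app n z = z' := hz
  cases n with
  | zero =>
    obtain ⟨w, hw⟩ := h2 0 z Submodule.mem_top
    refine ⟨C.proj.app 1 w, ?_⟩
    rw [← e, ← hw, A014_d]
  | succ n =>
    have hz0 : C.quo.d n z' = 0 := hz'
    rw [← e, ← A014_d] at hz0
    have hc : D.d n z ∈ C.car n := A014_quo_zero' C _ hz0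
    obtain ⟨c, hc'⟩ := h1 n _ (A014_subZ C ⟨_, hc⟩ (A014_dZ D n z))
    have e2 : D.d n c.1 = D.d n z := by
      rw [← A014_subd, hc']
    have hZ : z + c.1 ∈ D.Z (n + 1) := by
      show D.d n (z + c.1) = 0
      rw [map_add, e2, two_eq_zero']
    obtain ⟨w, hw⟩ := h2 (n + 1) _ hZ
    refine ⟨C.proj.app (n + 2) w, ?_⟩
    rw [← A014_d, hw, map_add, A014_quo_zero C c.1 c.2, add_zero, e]

theorem sub_acyclic {D : SV} (C : SubV D) (h1 : C.quo.Acyclic) (h2 : D.Acyclic) :
    C.sv.Acyclic := by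
  intro n c hc
  obtain ⟨w, hw⟩ := h2 n c.1 (A014_Z C.incl hc)
  have hZ : C.proj.app (n + 1) w ∈ C.quo.Z (n + 1) := by
    show C.quo.d n (C.proj.app (n + 1) w) = 0
    rw [← A014_d, hw]
    exact A014_quo_zero C c.1 c.2
  obtain ⟨v', hv'⟩ := h1 (n + 1) _ hZ
  obtain ⟨v, hv⟩ := Submodule.Quotient.mk_surjective _ v'
  have e : C.proj.app (n + 2) v = v' := hv
  rw [← e, ← A014_d] at hv'
  have hm : w + D.d (n + 1) v ∈ C.car (n + 1) := A014_quo_mk C _ _ hv'.symm
  refine ⟨⟨_, hm⟩, ?_⟩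
  apply Subtype.ext
  rw [A014_subd]
  show D.d n (w + D.d (n + 1) v) = c.1
  rw [map_add, D.d_d, add_zero, hw]

/-- acyclicity is invariant under homotopy equivalence: enough: `id ~ g ∘ f` and `Q` acyclic -/
theorem acyclic_of_retract {P Q : SV} (f : SVHom P Q) (g : SVHom Q P)
    (h : LHtp (g.comp f) (SVHom.id P)) (hQ : Q.Acyclic) : P.Acyclic := by
  intro n z hz
  have h1 : g.app n (f.app n z) + z ∈ P.B n := (lhtp_iff _ _).1 h n z hz
  have h2 : g.app n (f.app n z) ∈ P.B n := A014_B g (hQ n _ (A014_Z f hz))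
  have h3 := add_mem h2 h1
  rw [← add_assoc, two_eq_zero', zero_add] at h3
  exact h3

end MM

end

/-! ### from `Lib_MP_33f7bb_d.A015` -/

section

/-!
# A0-15: the suspension isomorphism for `K'(n) = F[Δ^n]/F[∂Δ^n]`

`H_m (K'(n) ⊗ Q) = H_(m-n) Q`, by `q ↦ iota_n × q`.  Induction on `n`.
`n = 0`: `bd 0 = ⊥`, `K'(0) = F[Δ^0]` = constant `F`, `K'(0) ⊗ Q = Q`, `iota_0 × q = 1 ⊗ q`.
Step `n → n+1`: let `Λ = horn (n+1) 0` (faces containing the vertex `0`; the only missing face is `δ_0`).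
Exact sequence `0 → F[∂Δ]/F[Λ] → F[Δ]/F[Λ] → K'(n+1) → 0`; the middle is acyclic (`acyc_horn`, `acyc_Del_pt`),
and `δ_0 : Δ^n → ∂Δ^(n+1)` induces `K'(n) ≅ F[∂Δ]/F[Λ]` (simplices of `∂Δ` outside `Λ` are exactly `δ_0 ∘ s`, `s` onto).
Tensor with `Q` (exact over a field, level by level).  A cycle `z` of `K'(n+1) ⊗ Q` of degree `m` lifts to
`z' ` in the middle; `d z'` is a cycle of `K'(n) ⊗ Q` of degree `m - 1`, so `d z' = iota_n × y + d w`;
now `iota'_(n+1) × y` (`iota'` the class of the identity in the middle) has boundary `(d iota') × y =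
iota_n × y`; so `z' + iota' × y + w` is a cycle of the middle, a boundary.  Injectivity similarly.
-/

open scoped TensorProduct

namespace MM

/-! ### Auxiliary lemmas -/

private theorem d_app15 {P Q : SV} (f : SVHom P Q) (n : ℕ) (z : P.V (n + 1)) :
    f.app n (P.d n z) = Q.d n (f.app (n + 1) z) := by
  rw [SV.d, SV.d, LinearMap.sum_apply, LinearMap.sum_apply, map_sum]
  exact Finset.sum_congr rfl fun i _ => f.nat (dlt i) z

private theorem app_mem_Z15 {P Q : SV} (f : SVHom P Q) {n : ℕ} {z : P.V n} (hz : z ∈ P.Z n) :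
    f.app n z ∈ Q.Z n := by
  cases n with
  | zero => exact Submodule.mem_top
  | succ n =>
    have h : P.d n z = 0 := hz
    show Q.d n (f.app (n + 1) z) = 0
    rw [← d_app15, h, map_zero]

private theorem app_mem_B15 {P Q : SV} (f : SVHom P Q) {n : ℕ} {z : P.V n} (hz : z ∈ P.B n) :
    f.app n z ∈ Q.B n := by
  obtain ⟨w, rfl⟩ := hz
  exact ⟨f.app (n + 1) w, (d_app15 f n w).symm⟩

private theorem d_mem_Z15 (P : SV) {n : ℕ} (z : P.V (n + 1)) : P.d n z ∈ P.Z n := by
  cases n with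
  | zero => exact Submodule.mem_top
  | succ n => exact SV.d_d P z

/-- chains modulo a subcomplex over which everything is acyclic -/
private theorem quo_acyclic15 {P : SS} (A : Sub P) (h : Acyc A ⊤) : (linSub A).quo.Acyclic := by
  intro k z hz
  obtain ⟨x, rfl⟩ := Submodule.Quotient.mk_surjective _ z
  have hx : RelCyc A x := by
    cases k with
    | zero => trivial
    | succ k =>
      have h1 : (linSub A).quo.d k ((linSub A).proj.app (k + 1) x) = 0 := hz
      rw [← d_app15, lin_d] at h1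
      have h2 : dif x ∈ (linSub A).car k := (Submodule.Quotient.mk_eq_zero _).1 h1
      exact h2
  obtain ⟨w, -, hw⟩ := h k x (SuppIn.top x) hx
  refine ⟨(linSub A).proj.app (k + 1) w, ?_⟩
  rw [← d_app15, lin_d]
  have h3 : (Submodule.Quotient.mk (x + dif w) : Ch P k ⧸ (linSub A).car k) = 0 :=
    (Submodule.Quotient.mk_eq_zero _).2 hw
  rw [Submodule.Quotient.mk_add] at h3
  have h4 := add_eq_zero_iff_eq_neg.1 h3
  rw [h4, neg_eq']
  rfl

section snake

variable {A M C : SV} (f : SVHom A M) (g : SVHom M C)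

private theorem snake_surj15 (hf : ∀ n, Function.Injective (f.app n))
    (hg : ∀ n, Function.Surjective (g.app n))
    (hfg : ∀ n, Function.Exact (f.app n) (g.app n)) (hM : M.Acyclic) {k : ℕ}
    (z : C.V (k + 1)) (hz : z ∈ C.Z (k + 1)) :
    ∃ a ∈ A.Z k, ∀ (e : M.V (k + 1)) (s : A.V k), M.d k e = f.app k s → a + s ∈ A.B k →
      z + g.app (k + 1) e ∈ C.B (k + 1) := by
  obtain ⟨z', rfl⟩ := hg (k + 1) z
  have hz0 : C.d k (g.app (k + 1) z') = 0 := hz
  rw [← d_app15] at hz0
  obtain ⟨a, ha⟩ := (hfg k _).1 hz0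
  refine ⟨a, ?_, ?_⟩
  · cases k with
    | zero => exact Submodule.mem_top
    | succ k =>
      show A.d k a = 0
      apply hf k
      rw [d_app15, ha, SV.d_d, map_zero]
  · rintro e s hes ⟨w, hw⟩
    have h1 : M.d k (z' + f.app (k + 1) w + e) = 0 := by
      rw [map_add, map_add, ← ha, ← d_app15, hw, hes, map_add]
      have h2 := two_eq_zero' (f.app k a)
      have h3 := two_eq_zero' (f.app k s)
      calc f.app k a + (f.app k a + f.app k s) + f.app k s
          = (f.app k a + f.app k a) + (f.app k s + f.app k s) := by abel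
        _ = 0 := by rw [h2, h3, add_zero]
    obtain ⟨u, hu⟩ := hM (k + 1) _ (show _ ∈ M.Z (k + 1) from h1)
    refine ⟨g.app (k + 2) u, ?_⟩
    rw [← d_app15, hu, map_add, map_add, (hfg (k + 1) _).2 ⟨w, rfl⟩, add_zero]

private theorem snake_inj15 (hf : ∀ n, Function.Injective (f.app n))
    (hg : ∀ n, Function.Surjective (g.app n))
    (hfg : ∀ n, Function.Exact (f.app n) (g.app n)) {k : ℕ}
    (e : M.V (k + 1)) (s : A.V k) (hes : M.d k e = f.app k s)
    (h : g.app (k + 1) e ∈ C.B (k + 1)) : s ∈ A.B k := by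
  obtain ⟨c, hc⟩ := h
  obtain ⟨c', rfl⟩ := hg (k + 2) c
  rw [← d_app15] at hc
  have h1 : g.app (k + 1) (e + M.d (k + 1) c') = 0 := by
    rw [map_add, hc, two_eq_zero']
  obtain ⟨b, hb⟩ := (hfg (k + 1) _).1 h1
  refine ⟨b, hf k ?_⟩
  rw [d_app15, hb, map_add, SV.d_d, add_zero, hes]

end snake

/-! ### The exact sequence -/

private theorem horn_le_bd15 (n : ℕ) (k : ℕ) :
    (linSub (horn (n + 1) 0)).car k ≤ (linSub (bd (n + 1))).car k := by
  apply Finsupp.supported_mono
  rintro x ⟨j, -, hj⟩ hs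
  obtain ⟨t, ht⟩ := hs j
  exact hj t ht

private theorem dlt_zero_not_mem15 {n m : ℕ} {x : Mo m n}
    (h : (dlt (0 : Fin (n + 2))).comp x ∈ (horn (n + 1) 0).car m) : x ∈ (bd n).car m := by
  obtain ⟨j, hj, h⟩ := h
  intro hs
  obtain ⟨i, rfl⟩ := Fin.exists_succ_eq.2 hj
  obtain ⟨t, ht⟩ := hs i
  apply h t
  show Fin.succAbove 0 (x t) = i.succ
  rw [ht, Fin.succAbove_zero]

private theorem dlt_zero_mem15 {n m : ℕ} {x : Mo m n} (hx : x ∈ (bd n).car m) :
    (dlt (0 : Fin (n + 2))).comp x ∈ (horn (n + 1) 0).car m := by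
  have hx' : ¬ ∀ i, ∃ t, x t = i := hx
  simp only [not_forall, not_exists] at hx'
  obtain ⟨i, hi⟩ := hx'
  refine ⟨i.succ, Fin.succ_ne_zero i, fun t ht => hi t ?_⟩
  have h2 : Fin.succAbove 0 (x t) = i.succ := ht
  rw [Fin.succAbove_zero] at h2
  exact Fin.succ_injective _ h2

private theorem dlt_zero_inj15 {n m : ℕ} :
    Function.Injective fun x : Mo m n => (dlt (0 : Fin (n + 2))).comp x := by
  intro x y h
  apply OrderHom.ext
  funext t
  have h1 : Fin.succAbove 0 (x t) = Fin.succAbove 0 (y t) := congrArg (fun u : Mo m (n + 1) => u t) h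
  exact Fin.succAbove_right_injective h1

/-- `δ_0` on chains -/
private noncomputable def fm15 (n : ℕ) : SVHom (KK n) (linSub (horn (n + 1) 0)).quo where
  app k := Submodule.mapQ _ _
    (Finsupp.lmapDomain (ZMod 2) (ZMod 2) (fun x : Mo k n => (dlt (0 : Fin (n + 2))).comp x)) (by
      classical
      intro x hx
      rw [Submodule.mem_comap]
      show Finsupp.mapDomain _ x ∈ Finsupp.supported (ZMod 2) (ZMod 2) _
      rw [Finsupp.mem_supported]
      intro y hy
      obtain ⟨z, hz, rfl⟩ := Finset.mem_image.1 (Finsupp.mapDomain_support hy)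
      exact dlt_zero_mem15 (hx hz))
  nat {m k} θ x := by
    obtain ⟨x, rfl⟩ := Submodule.Quotient.mk_surjective _ x
    simp only [Submodule.mapQ_apply, Finsupp.lmapDomain_apply, ← Finsupp.mapDomain_comp]
    rfl

private noncomputable def gm15 (n : ℕ) : SVHom (linSub (horn (n + 1) 0)).quo (KK (n + 1)) where
  app k := Submodule.mapQ _ _ LinearMap.id (horn_le_bd15 n k)
  nat {m k} θ x := by
    obtain ⟨x, rfl⟩ := Submodule.Quotient.mk_surjective _ x
    simp only [Submodule.mapQ_apply]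
    rfl

private theorem fm_inj15 (n k : ℕ) : Function.Injective ((fm15 n).app k) := by
  classical
  rw [injective_iff_map_eq_zero]
  intro x hx
  obtain ⟨x, rfl⟩ := Submodule.Quotient.mk_surjective _ x
  have h1 : Finsupp.mapDomain (fun x : Mo k n => (dlt (0 : Fin (n + 2))).comp x) x ∈
      (linSub (horn (n + 1) 0)).car k := (Submodule.Quotient.mk_eq_zero _).1 hx
  apply (Submodule.Quotient.mk_eq_zero _).2
  show x ∈ Finsupp.supported (ZMod 2) (ZMod 2) ((bd n).car k)
  rw [Finsupp.mem_supported]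
  intro y hy
  apply dlt_zero_not_mem15
  apply h1
  rw [Finset.mem_coe, Finsupp.mapDomain_support_of_injective dlt_zero_inj15]
  exact Finset.mem_image.2 ⟨y, hy, rfl⟩

private theorem gm_surj15 (n k : ℕ) : Function.Surjective ((gm15 n).app k) := by
  intro x
  obtain ⟨x, rfl⟩ := Submodule.Quotient.mk_surjective _ x
  exact ⟨Submodule.Quotient.mk x, rfl⟩

private theorem mem_range15 {n k : ℕ} (x : Mo k (n + 1)) (h : ¬ x ∈ (horn (n + 1) 0).car k)
    (h' : x ∈ (bd (n + 1)).car k) : ∃ y : Mo k n, (dlt (0 : Fin (n + 2))).comp y = x := by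
  obtain ⟨i, y, hy⟩ := exists_dlt x h'
  by_cases hi : i = 0
  · subst hi
    exact ⟨y, hy.symm⟩
  · exfalso
    apply h
    refine ⟨i, hi, fun t ht => ?_⟩
    rw [hy] at ht
    exact Fin.succAbove_ne i (y t) ht

private theorem fg_exact15 (n k : ℕ) : Function.Exact ((fm15 n).app k) ((gm15 n).app k) := by
  classical
  intro x
  obtain ⟨x, rfl⟩ := Submodule.Quotient.mk_surjective _ x
  constructor
  · intro hx
    have hx' : x ∈ (linSub (bd (n + 1))).car k := (Submodule.Quotient.mk_eq_zero _).1 hx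
    have hx2 : ∀ y ∈ x.support, y ∈ (bd (n + 1)).car k := hx'
    -- write the chain as a sum over its support
    have key : ∀ (c : Ch (Del (n + 1)) k), (∀ y ∈ c.support, y ∈ (bd (n + 1)).car k) →
        (Submodule.Quotient.mk c : Ch (Del (n + 1)) k ⧸ (linSub (horn (n + 1) 0)).car k) ∈
          LinearMap.range ((fm15 n).app k) := by
      intro c
      induction c using Finsupp.induction with
      | zero => intro _; rw [Submodule.Quotient.mk_zero]; exact Submodule.zero_mem _
      | single_add y a c hy ha ih =>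
        intro hc
        have hsupp : (Finsupp.single y a + c).support = insert y c.support := by
          have hs : (Finsupp.single y a).support = {y} := by
            rw [Finsupp.support_single]
            exact ha
          rw [Finsupp.support_add_eq, hs]
          · rfl
          · rw [hs, Finset.disjoint_singleton_left]
            exact hy
        rw [Submodule.Quotient.mk_add]
        refine Submodule.add_mem _ ?_ (ih fun z hz => hc z (by
          rw [hsupp]; exact Finset.mem_insert_of_mem hz))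
        by_cases hh : y ∈ (horn (n + 1) 0).car k
        · rw [(Submodule.Quotient.mk_eq_zero _).2]
          · exact Submodule.zero_mem _
          · exact SuppIn.single hh a
        · obtain ⟨u, hu⟩ := mem_range15 y hh (hc y (by rw [hsupp]; exact Finset.mem_insert_self _ _))
          refine ⟨Submodule.Quotient.mk (Finsupp.single u a), ?_⟩
          show Submodule.Quotient.mk (Finsupp.mapDomain _ (Finsupp.single u a)) = _
          rw [Finsupp.mapDomain_single, hu]
    exact key x hx2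
  · rintro ⟨a, ha⟩
    obtain ⟨a, rfl⟩ := Submodule.Quotient.mk_surjective _ a
    rw [← ha]
    show (Submodule.Quotient.mk _ : Ch (Del (n + 1)) k ⧸ (linSub (bd (n + 1))).car k) = 0
    apply (Submodule.Quotient.mk_eq_zero _).2
    show Finsupp.mapDomain _ a ∈ Finsupp.supported (ZMod 2) (ZMod 2) _
    rw [Finsupp.mem_supported]
    intro y hy
    obtain ⟨z, hz, rfl⟩ := Finset.mem_image.1 (Finsupp.mapDomain_support hy)
    intro hs
    obtain ⟨t, ht⟩ := hs 0
    exact Fin.succAbove_ne 0 (z t) ht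

/-- the class of the identity in the middle -/
private noncomputable def io15 (n : ℕ) : ((linSub (horn (n + 1) 0)).quo).V (n + 1) :=
  (linSub (horn (n + 1) 0)).proj.app (n + 1) (Finsupp.single (OrderHom.id : Mo (n + 1) (n + 1)) 1)

private theorem gm_io15 (n : ℕ) : (gm15 n).app (n + 1) (io15 n) = KK.iota (n + 1) := rfl

private theorem act_proj_single15 {P : SS} (A : Sub P) {m k : ℕ} (θ : Mo m k) (x : P.S k) :
    (linSub A).quo.act θ ((linSub A).proj.app k (Finsupp.single x 1)) =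
      (linSub A).proj.app m (Finsupp.single (P.act θ x) 1) := by
  rw [← (linSub A).proj.nat]
  congr 1
  show Finsupp.mapDomain (P.act θ) _ = _
  rw [Finsupp.mapDomain_single]

private theorem proj_single_eq_zero15 {P : SS} (A : Sub P) {k : ℕ} {x : P.S k}
    (hx : x ∈ A.car k) : (linSub A).proj.app k (Finsupp.single x 1) = 0 :=
  (Submodule.Quotient.mk_eq_zero _).2 (SuppIn.single hx 1)

private theorem d_io15 (n : ℕ) :
    ((linSub (horn (n + 1) 0)).quo).d n (io15 n) = (fm15 n).app n (KK.iota n) := by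
  rw [SV.d, LinearMap.sum_apply, Fin.sum_univ_succ]
  have h1 : (fm15 n).app n (KK.iota n) =
      ((linSub (horn (n + 1) 0)).quo).act (dlt 0) (io15 n) := by
    rw [io15, act_proj_single15]
    show Submodule.Quotient.mk (Finsupp.mapDomain _ (Finsupp.single _ 1)) = _
    rw [Finsupp.mapDomain_single]
    rfl
  rw [h1]
  convert add_zero _ using 2
  apply Finset.sum_eq_zero
  intro i _
  rw [io15, act_proj_single15]
  apply proj_single_eq_zero15
  refine ⟨i.succ, Fin.succ_ne_zero i, fun t ht => ?_⟩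
  exact Fin.succAbove_ne i.succ t ht

/-! ### The base case -/

private theorem KK_V_zero15 (n k : ℕ) (hk : k < n) (z : (KK n).V k) : z = 0 := by
  obtain ⟨x, rfl⟩ := Submodule.Quotient.mk_surjective _ z
  apply (Submodule.Quotient.mk_eq_zero _).2
  intro y _ hs
  have h1 := Fintype.card_le_of_surjective _ hs
  simp only [Fintype.card_fin] at h1
  omega

/-- augmentation -/
private noncomputable def aug15 (m : ℕ) : (KK 0).V m →ₗ[ZMod 2] ZMod 2 :=
  Submodule.liftQ _ (Finsupp.linearCombination (ZMod 2) (fun _ : Mo m 0 => (1 : ZMod 2))) (by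
    intro x hx
    have h1 : x = 0 := by
      apply Finsupp.support_eq_empty.1
      apply Finset.eq_empty_of_forall_notMem
      intro y hy
      exact hx hy fun i => ⟨0, Subsingleton.elim (α := Fin 1) _ _⟩
    rw [h1]
    exact Submodule.zero_mem _)

private noncomputable def e15 (m : ℕ) : (KK 0).V m :=
  (linSub (bd 0)).proj.app m (Finsupp.single (cst 0 : Mo m 0) 1)

private theorem aug_e15 (m : ℕ) : aug15 m (e15 m) = 1 := by
  show Finsupp.linearCombination (ZMod 2) (fun _ : Mo m 0 => (1 : ZMod 2))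
    (Finsupp.single (cst 0 : Mo m 0) 1) = 1
  simp

private theorem mo_eq15 {m : ℕ} (f g : Mo m 0) : f = g :=
  OrderHom.ext _ _ (funext fun _ => Subsingleton.elim (α := Fin 1) _ _)

private theorem eq_smul15 (m : ℕ) (x : (KK 0).V m) : x = aug15 m x • e15 m := by
  obtain ⟨x, rfl⟩ := Submodule.Quotient.mk_surjective _ x
  induction x using Finsupp.induction_linear with
  | zero => rw [Submodule.Quotient.mk_zero, map_zero, zero_smul]
  | add x y hx hy => rw [Submodule.Quotient.mk_add, map_add, add_smul, ← hx, ← hy]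
  | single a b =>
    have h1 : aug15 m (Submodule.Quotient.mk (Finsupp.single a b)) = b := by
      show Finsupp.linearCombination (ZMod 2) (fun _ : Mo m 0 => (1 : ZMod 2))
        (Finsupp.single a b) = b
      simp
    rw [h1]
    have h2 : a = cst 0 := mo_eq15 _ _
    rw [h2]
    show _ = b • (Submodule.Quotient.mk (Finsupp.single (cst 0 : Mo m 0) 1) :
      Ch (Del 0) m ⧸ (linSub (bd 0)).car m)
    rw [← Submodule.Quotient.mk_smul, Finsupp.smul_single, smul_eq_mul, mul_one]

private theorem act_e15 {m k : ℕ} (θ : Mo m k) : (KK 0).act θ (e15 k) = e15 m := by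
  rw [e15, act_proj_single15]
  rfl

private theorem aug_act15 {m k : ℕ} (θ : Mo m k) (x : (KK 0).V k) :
    aug15 m ((KK 0).act θ x) = aug15 k x := by
  conv_lhs => rw [eq_smul15 k x, map_smul, act_e15, map_smul, aug_e15]
  simp

private theorem iota_zero15 : KK.iota 0 = e15 0 := by
  rw [KK.iota, e15]
  congr 2
  exact mo_eq15 _ _

private noncomputable def fw15 (Q : SV) : SVHom Q ((KK 0).tens Q) where
  app m := TensorProduct.mk (ZMod 2) ((KK 0).V m) (Q.V m) (e15 m)
  nat {m k} θ x := by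
    show e15 m ⊗ₜ[ZMod 2] Q.act θ x = TensorProduct.map _ _ (e15 k ⊗ₜ[ZMod 2] x)
    rw [TensorProduct.map_tmul, act_e15]

private noncomputable def bk15 (Q : SV) : SVHom ((KK 0).tens Q) Q where
  app m := TensorProduct.lift ((LinearMap.lsmul (ZMod 2) (Q.V m)).comp (aug15 m))
  nat {m k} θ x := by
    induction x using TensorProduct.induction_on with
    | zero => simp
    | add x y hx hy => simp only [map_add, hx, hy]
    | tmul x y =>
      show TensorProduct.lift _ (TensorProduct.map _ _ (x ⊗ₜ[ZMod 2] y)) = _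
      rw [TensorProduct.map_tmul, TensorProduct.lift.tmul, TensorProduct.lift.tmul]
      show aug15 m ((KK 0).act θ x) • Q.act θ y = Q.act θ (aug15 k x • y)
      rw [aug_act15, map_smul]

private theorem bk_fw15 (Q : SV) (m : ℕ) (y : Q.V m) : (bk15 Q).app m ((fw15 Q).app m y) = y := by
  show TensorProduct.lift _ (e15 m ⊗ₜ[ZMod 2] y) = y
  rw [TensorProduct.lift.tmul]
  show aug15 m (e15 m) • y = y
  rw [aug_e15, one_smul]

private theorem fw_bk15 (Q : SV) (m : ℕ) (z : ((KK 0).tens Q).V m) :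
    (fw15 Q).app m ((bk15 Q).app m z) = z := by
  induction z using TensorProduct.induction_on with
  | zero => simp
  | add x y hx hy => rw [map_add, map_add, hx, hy]
  | tmul x y =>
    show e15 m ⊗ₜ[ZMod 2] TensorProduct.lift _ (x ⊗ₜ[ZMod 2] y) = x ⊗ₜ[ZMod 2] y
    rw [TensorProduct.lift.tmul]
    show e15 m ⊗ₜ[ZMod 2] (aug15 m x • y) = x ⊗ₜ[ZMod 2] y
    rw [← TensorProduct.smul_tmul, ← eq_smul15]

private theorem crs_iota_zero15 (Q : SV) (m : ℕ) (y : Q.V m) :
    crs m (KK.iota 0) y = (fw15 Q).app m y := by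
  classical
  rw [crs, Fintype.sum_eq_single (cst 0 : Mo m 0)]
  · rw [Fintype.sum_eq_single (OrderHom.id : Mo m m)]
    · rw [if_pos]
      · show (KK 0).act (cst 0) (KK.iota 0) ⊗ₜ[ZMod 2] Q.act OrderHom.id y = e15 m ⊗ₜ[ZMod 2] y
        rw [Q.act_id, iota_zero15, act_e15]
      · refine ⟨by omega, fun i => ?_⟩
        show 0 + (i : ℕ) = i
        omega
    · intro b hb
      rw [if_neg]
      rintro ⟨-, h⟩
      apply hb
      apply OrderHom.ext
      funext i
      have h1 := h i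
      have h2 : (((cst 0 : Mo m 0) i : Fin 1) : ℕ) = 0 := rfl
      rw [h2, zero_add] at h1
      exact Fin.ext h1
  · intro a ha
    exact absurd (mo_eq15 _ _) ha

/-- the differential of `K'(0)` -/
private theorem d_KK_zero15 (k : ℕ) (x : (KK 0).V (k + 1)) :
    (KK 0).d k x = ((k : ZMod 2) * aug15 (k + 1) x) • e15 k := by
  rw [SV.d, LinearMap.sum_apply]
  have h1 : ∀ i : Fin (k + 2), (KK 0).act (dlt i) x = aug15 (k + 1) x • e15 k := by
    intro i
    conv_lhs => rw [eq_smul15 (k + 1) x, map_smul, act_e15]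
  rw [Finset.sum_congr rfl fun i _ => h1 i, Finset.sum_const, Finset.card_univ, Fintype.card_fin,
    ← Nat.cast_smul_eq_nsmul (ZMod 2), smul_smul]
  congr 2
  push_cast
  have : (2 : ZMod 2) = 0 := rfl
  rw [this, add_zero]

private theorem KK_zero_homology15 (k : ℕ) (z : (KK 0).V k) (hz : z ∈ (KK 0).Z k) :
    z ∈ (KK 0).B k ∨ ∃ h : k = 0, z + h ▸ KK.iota 0 ∈ (KK 0).B k := by
  have h01 : ∀ c : ZMod 2, c = 0 ∨ c = 1 := by decide
  cases k with
  | zero =>
    rcases h01 (aug15 0 z) with h | h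
    · left
      rw [eq_smul15 0 z, h, zero_smul]
      exact Submodule.zero_mem _
    · right
      refine ⟨rfl, ?_⟩
      show z + KK.iota 0 ∈ (KK 0).B 0
      rw [eq_smul15 0 z, h, one_smul, iota_zero15, two_eq_zero']
      exact Submodule.zero_mem _
  | succ k =>
    left
    have hz' : (KK 0).d k z = 0 := hz
    rw [d_KK_zero15] at hz'
    have h1 := congrArg (aug15 k) hz'
    rw [map_smul, aug_e15, map_zero, smul_eq_mul, mul_one] at h1
    rcases h01 (k : ZMod 2) with hk | hk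
    · -- `k` even: `z` is a boundary
      refine ⟨aug15 (k + 1) z • e15 (k + 2), ?_⟩
      rw [d_KK_zero15, map_smul, aug_e15, smul_eq_mul, mul_one]
      push_cast
      rw [hk, zero_add, one_mul, ← eq_smul15]
    · rw [hk, one_mul] at h1
      rw [eq_smul15 (k + 1) z, h1, zero_smul]
      exact Submodule.zero_mem _

private theorem iota_zero_not_mem_B15 : KK.iota 0 ∉ (KK 0).B 0 := by
  rintro ⟨c, hc⟩
  rw [d_KK_zero15, Nat.cast_zero, zero_mul, zero_smul, iota_zero15] at hc
  have h1 := congrArg (aug15 0) hc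
  rw [map_zero, aug_e15] at h1
  exact absurd h1 (by decide)

/-! ### The tensored sequence -/

section tens

variable (n : ℕ) (Q : SV)

private theorem tf_inj15 (k : ℕ) :
    Function.Injective (((fm15 n).tens (SVHom.id Q)).app k) :=
  Module.Flat.rTensor_preserves_injective_linearMap (M := Q.V k) ((fm15 n).app k) (fm_inj15 n k)

private theorem tg_surj15 (k : ℕ) :
    Function.Surjective (((gm15 n).tens (SVHom.id Q)).app k) :=
  LinearMap.rTensor_surjective (Q.V k) (gm_surj15 n k)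

private theorem tfg_exact15 (k : ℕ) :
    Function.Exact (((fm15 n).tens (SVHom.id Q)).app k) (((gm15 n).tens (SVHom.id Q)).app k) :=
  rTensor_exact (Q.V k) (fg_exact15 n k) (gm_surj15 n k)

private theorem mid_acyclic15 : (linSub (horn (n + 1) 0)).quo.Acyclic :=
  quo_acyclic15 _ (acyc_horn (n + 1) 0 (by omega))

private theorem d_io_crs15 {m k : ℕ} (y : Q.V m) (hy : y ∈ Q.Z m) :
    ((linSub (horn (n + 1) 0)).quo.tens Q).d k (crs (k + 1) (io15 n) y) =
      ((fm15 n).tens (SVHom.id Q)).app k (crs k (KK.iota n) y) := by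
  rw [crs_map]
  show _ = crs k ((fm15 n).app n (KK.iota n)) y
  rw [← d_io15]
  cases m with
  | zero => rw [d_crs_zero_right]
  | succ m =>
    have h1 : Q.d m y = 0 := hy
    rw [d_crs, h1]
    have h2 : crs k (io15 n) (0 : Q.V m) = 0 := by
      have h3 := crs_add_right (n := k) (io15 n) (0 : Q.V m) 0
      rw [add_zero] at h3
      exact (left_eq_add.1 h3)
    rw [h2, add_zero]

end tens

/-- no homology below `n` -/
theorem KK_tens_low (n : ℕ) (Q : SV) (k : ℕ) (hk : k < n) (z : ((KK n).tens Q).V k)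
    (hz : z ∈ ((KK n).tens Q).Z k) : z ∈ ((KK n).tens Q).B k := by
  clear hz
  have h : ∀ u : ((KK n).tens Q).V k, u = 0 := by
    intro u
    induction u using TensorProduct.induction_on with
    | zero => rfl
    | tmul x y => rw [KK_V_zero15 n k hk x, TensorProduct.zero_tmul]
    | add x y hx hy => rw [hx, hy, add_zero]
  rw [h z]
  exact Submodule.zero_mem _

theorem KK_tens_surj (n : ℕ) (Q : SV) (m k : ℕ) (hk : n + m = k) (z : ((KK n).tens Q).V k)
    (hz : z ∈ ((KK n).tens Q).Z k) :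
    ∃ y ∈ Q.Z m, z + crs k (KK.iota n) y ∈ ((KK n).tens Q).B k := by
  induction n generalizing k with
  | zero =>
    obtain rfl : m = k := by omega
    refine ⟨(bk15 Q).app m z, app_mem_Z15 _ hz, ?_⟩
    rw [crs_iota_zero15, fw_bk15, two_eq_zero']
    exact Submodule.zero_mem _
  | succ n ih =>
    obtain ⟨k, rfl⟩ : ∃ k', k = k' + 1 := ⟨k - 1, by omega⟩
    obtain ⟨a, ha, h⟩ := snake_surj15 ((fm15 n).tens (SVHom.id Q)) ((gm15 n).tens (SVHom.id Q))
      (tf_inj15 n Q) (tg_surj15 n Q) (tfg_exact15 n Q)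
      (tens_acyclic_left _ Q (mid_acyclic15 n)) z hz
    obtain ⟨y, hy, hay⟩ := ih k (by omega) a ha
    refine ⟨y, hy, ?_⟩
    have h2 := h (crs (k + 1) (io15 n) y) _ (d_io_crs15 n Q y hy) hay
    rw [crs_map] at h2
    exact h2

theorem KK_tens_inj (n : ℕ) (Q : SV) (m k : ℕ) (hk : n + m = k) (y : Q.V m) (hy : y ∈ Q.Z m)
    (h : crs k (KK.iota n) y ∈ ((KK n).tens Q).B k) : y ∈ Q.B m := by
  induction n generalizing k with
  | zero =>
    obtain rfl : m = k := by omega
    rw [crs_iota_zero15] at h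
    have h1 := app_mem_B15 (bk15 Q) h
    rwa [bk_fw15] at h1
  | succ n ih =>
    obtain ⟨k, rfl⟩ : ∃ k', k = k' + 1 := ⟨k - 1, by omega⟩
    apply ih k (by omega)
    refine snake_inj15 ((fm15 n).tens (SVHom.id Q)) ((gm15 n).tens (SVHom.id Q))
      (tf_inj15 n Q) (tg_surj15 n Q) (tfg_exact15 n Q) (crs (k + 1) (io15 n) y) _
      (d_io_crs15 n Q y hy) ?_
    rw [crs_map]
    exact h

theorem KK_iota_mem_Z (n : ℕ) : KK.iota n ∈ (KK n).Z n := by
  cases n with
  | zero => exact Submodule.mem_top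
  | succ n =>
    show (KK (n + 1)).d n (KK.iota (n + 1)) = 0
    rw [SV.d, LinearMap.sum_apply]
    apply Finset.sum_eq_zero
    intro i _
    rw [KK.iota, act_proj_single15]
    apply proj_single_eq_zero15
    intro hs
    obtain ⟨t, ht⟩ := hs i
    exact Fin.succAbove_ne i t ht

/-- homology of `K'(n)` itself -/
theorem KK_homology (n k : ℕ) (z : (KK n).V k) (hz : z ∈ (KK n).Z k) :
    z ∈ (KK n).B k ∨ ∃ h : k = n, z + h ▸ KK.iota n ∈ (KK n).B k := by
  induction n generalizing k with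
  | zero => exact KK_zero_homology15 k z hz
  | succ n ih =>
    cases k with
    | zero =>
      left
      rw [KK_V_zero15 (n + 1) 0 (by omega) z]
      exact Submodule.zero_mem _
    | succ k =>
      obtain ⟨a, ha, h⟩ := snake_surj15 (fm15 n) (gm15 n)
        (fm_inj15 n) (gm_surj15 n) (fg_exact15 n) (mid_acyclic15 n) z hz
      rcases ih k a ha with h1 | ⟨rfl, h1⟩
      · left
        have h2 := h 0 0 (by rw [map_zero, map_zero]) (by rwa [add_zero])
        rwa [map_zero, add_zero] at h2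
      · right
        refine ⟨rfl, ?_⟩
        exact h (io15 k) (KK.iota k) (d_io15 k) h1

theorem KK_iota_not_mem_B (n : ℕ) : KK.iota n ∉ (KK n).B n := by
  induction n with
  | zero => exact iota_zero_not_mem_B15
  | succ n ih =>
    intro h
    apply ih
    exact snake_inj15 (fm15 n) (gm15 n) (fm_inj15 n) (gm_surj15 n) (fg_exact15 n) (io15 n)
      (KK.iota n) (d_io15 n) h

theorem KK_V_eq_zero (n k : ℕ) (hk : k < n) (z : (KK n).V k) : z = 0 :=
  KK_V_zero15 n k hk z

end MM

end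

/-! ### from `Lib_MP_33f7bb_d.A016` -/

section

/-!
# A0-16: every simplicial vector space is homotopy equivalent to a direct sum of `K'(n)`'s

Given bases `b n` of `H n P`.  For every basis element choose a Moore cycle `z_(n,i)` representing it
(`exists_moore`); it defines a linear simplicial map `K'(n) → P`, `[θ] ↦ act θ z` (well defined because the
proper faces of `z` vanish); together they give `f : dsum K'(n) → P`, an isomorphism on homology
(homology of a direct sum is the direct sum, homology of `K'(n)`: `KK_homology`).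
`g`: by `exists_hom` for the inverse maps in homology; the two composites induce the identity in homology,
so they are homotopic to the identity by `lhtp_iff`.
-/

open scoped TensorProduct

namespace MM

private theorem A016_d {P Q : SV} (f : SVHom P Q) (n : ℕ) (x : P.V (n + 1)) :
    f.app n (P.d n x) = Q.d n (f.app (n + 1) x) := by
  simp only [SV.d, LinearMap.sum_apply, map_sum, f.nat]

private theorem A016_Z {P Q : SV} (f : SVHom P Q) {n : ℕ} {x : P.V n} (hx : x ∈ P.Z n) :
    f.app n x ∈ Q.Z n := by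
  cases n with
  | zero => exact Submodule.mem_top
  | succ n =>
    have hx' : P.d n x = 0 := hx
    show Q.d n (f.app (n + 1) x) = 0
    rw [← A016_d, hx', map_zero]

private theorem A016_B {P Q : SV} (f : SVHom P Q) {n : ℕ} {x : P.V n} (hx : x ∈ P.B n) :
    f.app n x ∈ Q.B n := by
  obtain ⟨w, rfl⟩ := hx
  exact ⟨f.app (n + 1) w, (A016_d f n w).symm⟩

private theorem A016_dZ (P : SV) (n : ℕ) (x : P.V (n + 1)) : P.d n x ∈ P.Z n := by
  cases n with
  | zero => exact Submodule.mem_top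
  | succ n => exact P.d_d x

private theorem A016_cls_eq {P : SV} {n : ℕ} {z z' : P.V n} (hz : z ∈ P.Z n) (hz' : z' ∈ P.Z n) :
    P.cls z hz = P.cls z' hz' ↔ z + z' ∈ P.B n := by
  rw [SV.cls, SV.cls, Submodule.Quotient.eq, Submodule.mem_comap]
  show (z - z') ∈ _ ↔ _
  rw [sub_eq']

private theorem A016_lhtp {P Q : SV} (u v : SVHom P Q) (κ : ℕ → Type)
    (b : ∀ n, Module.Basis (κ n) (ZMod 2) (P.H n)) (z : ∀ n, κ n → P.V n)
    (hz : ∀ n k, z n k ∈ P.Z n) (hb : ∀ n k, P.cls (z n k) (hz n k) = b n k)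
    (h : ∀ n k, u.app n (z n k) + v.app n (z n k) ∈ Q.B n) : LHtp u v := by
  rw [lhtp_iff]
  intro n x hx
  let L : P.Z n →ₗ[ZMod 2] (Q.V n ⧸ Q.B n) :=
    (Q.B n).mkQ.comp ((u.app n + v.app n).comp (P.Z n).subtype)
  have hL : Submodule.comap (P.Z n).subtype (P.B n) ≤ LinearMap.ker L := by
    rintro ⟨y, hy⟩ hy'
    have hyB : y ∈ P.B n := hy'
    rw [LinearMap.mem_ker]
    exact (Submodule.Quotient.mk_eq_zero _).2 (add_mem (A016_B u hyB) (A016_B v hyB))
  let M : P.H n →ₗ[ZMod 2] (Q.V n ⧸ Q.B n) := Submodule.liftQ _ L hL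
  have hM : M = 0 := by
    refine (b n).ext fun k => ?_
    rw [← hb n k]
    exact (Submodule.Quotient.mk_eq_zero _).2 (h n k)
  have h1 : M (P.cls x hx) = 0 := by rw [hM]; rfl
  exact (Submodule.Quotient.mk_eq_zero _).1 h1

private theorem A016_rep (P : SV) {n : ℕ} (h : P.H n) :
    ∃ (z : P.V n) (hz : z ∈ P.Z n), P.Moore z ∧ P.cls z hz = h := by
  obtain ⟨⟨z0, hz0⟩, hh⟩ := Submodule.Quotient.mk_surjective _ h
  obtain ⟨w, hw⟩ := exists_moore P z0 hz0
  refine ⟨z0 + P.d n w, Moore.mem_Z hw, hw, ?_⟩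
  have e : P.cls z0 hz0 = h := hh
  rw [← e, A016_cls_eq]
  refine ⟨w, ?_⟩
  rw [add_comm z0, add_assoc, two_eq_zero', add_zero]

/-- the map `K'(n) → P` given by a Moore cycle -/
theorem exists_KK_hom {P : SV} {n : ℕ} (z : P.V n) (hz : P.Moore z) :
    ∃ f : SVHom (KK n) P, f.app n (KK.iota n) = z ∧
      ∀ (m : ℕ) (θ : Mo m n), f.app m ((KK n).act θ (KK.iota n)) = P.act θ z := by
  let F : Fn (Del n) P.ss := fun m θ => P.act θ z
  have hF : NatOn (⊤ : Sub (Del n)) F := by
    intro m k g x _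
    exact (P.act_comp g x z).symm
  have hker : ∀ m, ((linSub (bd n)).car m) ≤ LinearMap.ker (linExt F m) := by
    intro m x hx
    rw [LinearMap.mem_ker, linExt_apply]
    refine Finset.sum_eq_zero fun θ hθ => ?_
    have h1 : θ ∈ (bd n).car m := hx hθ
    have h2 : P.act θ z = 0 := hz m θ h1
    show x θ • P.act θ z = 0
    rw [h2, smul_zero]
  let f : SVHom (KK n) P := ⟨fun m => Submodule.liftQ _ (linExt F m) (hker m), by
    intro m k g x
    obtain ⟨x, rfl⟩ := Submodule.Quotient.mk_surjective _ x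
    exact linExt_act hF g (SuppIn.top x)⟩
  have hf : f.app n (KK.iota n) = z := by
    show linExt F n (Finsupp.single (OrderHom.id : Mo n n) 1) = z
    rw [linExt_single, one_smul]
    exact P.act_id z
  exact ⟨f, hf, fun m θ => by rw [f.nat, hf]⟩

private theorem A016_sum {ι : Type} {κ : ι → SV} (P : SV) (F : ∀ i, SVHom (κ i) P) :
    ∃ f : SVHom (dsum κ) P, ∀ (m : ℕ) (i : ι) (v : (κ i).V m) (w : (dsum κ).V m),
      (∀ j, (h : j = i) → w j = h ▸ v) → (∀ j, j ≠ i → w j = 0) → f.app m w = (F i).app m v := by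
  classical
  let f : SVHom (dsum κ) P := ⟨fun m => DFinsupp.lsum ℕ (fun i => (F i).app m), by
    intro m n g x
    have : (DFinsupp.lsum ℕ (fun i => (F i).app m)).comp ((dsum κ).act g) =
        (P.act g).comp (DFinsupp.lsum ℕ (fun i => (F i).app n)) := by
      refine DFinsupp.lhom_ext fun i v => ?_
      simp only [LinearMap.comp_apply, DFinsupp.lsum_single]
      have e : (dsum κ).act g (DFinsupp.single i v) = DFinsupp.single i ((κ i).act g v) := by
        show DFinsupp.mapRange (fun i => (κ i).act g) (fun i => map_zero ((κ i).act g)) _ = _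
        rw [DFinsupp.mapRange_single]
      rw [e, DFinsupp.lsum_single]
      exact (F i).nat g v
    exact LinearMap.congr_fun this x⟩
  refine ⟨f, fun m i v w h1 h2 => ?_⟩
  have e : w = DFinsupp.single i v := by
    refine DFinsupp.ext fun j => ?_
    by_cases hj : j = i
    · subst hj
      rw [h1 j rfl, DFinsupp.single_eq_same]
    · rw [h2 j hj, DFinsupp.single_eq_of_ne hj]
  rw [e]
  show (DFinsupp.lsum ℕ (fun i => (F i).app m)) (DFinsupp.single i v) = _
  rw [DFinsupp.lsum_single]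

private theorem A016_inc {ι : Type} (κ : ι → SV) [DecidableEq ι] (i : ι) :
    ∃ J : SVHom (κ i) (dsum κ), ∀ m v, J.app m v = DFinsupp.single i v := by
  let J : SVHom (κ i) (dsum κ) := ⟨fun m => DFinsupp.lsingle (R := ZMod 2) (M := fun i => (κ i).V m) i, by
    intro m n g x
    show DFinsupp.single i ((κ i).act g x) =
      DFinsupp.mapRange (fun i => (κ i).act g) (fun i => map_zero ((κ i).act g))
        (DFinsupp.single i x)
    rw [DFinsupp.mapRange_single]⟩
  exact ⟨J, fun m v => rfl⟩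

private theorem A016_comp {ι : Type} (κ : ι → SV) (i : ι) :
    ∃ J : SVHom (dsum κ) (κ i), ∀ m v, J.app m v = v i :=
  ⟨(⟨fun m => DFinsupp.lapply (R := ZMod 2) (M := fun i => (κ i).V m) i, fun g x => by
    simp⟩ : SVHom (dsum κ) (κ i)), fun m v => rfl⟩

theorem exists_split (P : SV) (κ : ℕ → Type)
    (b : ∀ n, Module.Basis (κ n) (ZMod 2) (P.H n)) :
    ∃ (f : SVHom (dsum fun i : (Σ n, κ n) => KK i.1) P)
      (g : SVHom P (dsum fun i : (Σ n, κ n) => KK i.1)),
      LHtp (f.comp g) (SVHom.id _) ∧ LHtp (g.comp f) (SVHom.id _) ∧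
      ∀ (i : Σ n, κ n), ∃ (z : P.V i.1) (hz : z ∈ P.Z i.1), P.cls z hz = b i.1 i.2 ∧
        ∃ F : SVHom (KK i.1) P, F.app i.1 (KK.iota i.1) = z ∧
          ∀ (m : ℕ) (v : (KK i.1).V m), ∀ w : (dsum fun i : (Σ n, κ n) => KK i.1).V m,
            (∀ j, (h : j = i) → w j = h ▸ v) → (∀ j, j ≠ i → w j = 0) → f.app m w = F.app m v := by
  classical
  choose z hz hM hcls using fun (n : ℕ) (k : κ n) => A016_rep P (b n k)
  choose F hF _ using fun (i : Σ n, κ n) => exists_KK_hom (z i.1 i.2) (hM i.1 i.2)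
  obtain ⟨f, hf⟩ := A016_sum P F
  choose J hJ using fun (i : Σ n, κ n) => A016_inc (fun i : (Σ n, κ n) => KK i.1) i
  have hfJ : ∀ (i : Σ n, κ n) (m : ℕ) (v : (KK i.1).V m),
      f.app m ((J i).app m v) = (F i).app m v := by
    intro i m v
    refine hf m i v _ ?_ ?_
    · rintro j rfl
      rw [hJ, DFinsupp.single_eq_same]
    · intro j hj
      rw [hJ, DFinsupp.single_eq_of_ne hj]
  -- the map in homology
  have hJZ : ∀ (n : ℕ) (k : κ n), (J ⟨n, k⟩).app n (KK.iota n) ∈
      (dsum fun i : (Σ n, κ n) => KK i.1).Z n := fun n k =>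
    A016_Z (J ⟨n, k⟩) (KK_iota_mem_Z n)
  obtain ⟨g, hg⟩ := exists_hom (P := P) (Q := dsum fun i : (Σ n, κ n) => KK i.1)
    (fun n => (b n).constr (ZMod 2) fun k =>
      (dsum fun i : (Σ n, κ n) => KK i.1).cls ((J ⟨n, k⟩).app n (KK.iota n)) (hJZ n k))
  have hgz : ∀ (n : ℕ) (k : κ n), g.app n (z n k) + (J ⟨n, k⟩).app n (KK.iota n) ∈
      (dsum fun i : (Σ n, κ n) => KK i.1).B n := by
    intro n k
    obtain ⟨h1, h2⟩ := hg n (z n k) (hz n k)
    rw [hcls, Module.Basis.constr_basis] at h2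
    exact (A016_cls_eq h1 (hJZ n k)).1 h2
  refine ⟨f, g, ?_, ?_, ?_⟩
  · refine A016_lhtp _ _ κ b z hz hcls ?_
    intro n k
    have h1 := A016_B f (hgz n k)
    rw [map_add, hfJ, hF] at h1
    exact h1
  · rw [lhtp_iff]
    intro n w hw
    show g.app n (f.app n w) + w ∈ (dsum fun i : (Σ n, κ n) => KK i.1).B n
    have hdec : w = ∑ i ∈ DFinsupp.support w, (J i).app n (w i) := by
      conv_lhs => rw [← DFinsupp.sum_single (f := w)]
      refine Finset.sum_congr rfl fun i _ => ?_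
      rw [hJ]
    have hterm : ∀ i : (Σ n, κ n), g.app n (f.app n ((J i).app n (w i))) + (J i).app n (w i) ∈
        (dsum fun i : (Σ n, κ n) => KK i.1).B n := by
      intro i
      obtain ⟨C, hC⟩ := A016_comp (fun i : (Σ n, κ n) => KK i.1) i
      have hwi : w i ∈ (KK i.1).Z n := by
        rw [← hC n w]
        exact A016_Z C hw
      have hB : ∀ y : (KK i.1).V n, y ∈ (KK i.1).B n →
          g.app n (f.app n ((J i).app n y)) + (J i).app n y ∈
            (dsum fun i : (Σ n, κ n) => KK i.1).B n := fun y hy =>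
        add_mem (A016_B g (A016_B f (A016_B (J i) hy))) (A016_B (J i) hy)
      rcases KK_homology i.1 n (w i) hwi with h1 | ⟨h1, h2⟩
      · exact hB _ h1
      · subst h1
        obtain ⟨k, hk⟩ : ∃ k : κ i.1, i = ⟨i.1, k⟩ := ⟨i.2, rfl⟩
        have h3 := hB _ h2
        have h4 : g.app i.1 (f.app i.1 ((J i).app i.1 (KK.iota i.1))) +
            (J i).app i.1 (KK.iota i.1) ∈ (dsum fun i : (Σ n, κ n) => KK i.1).B i.1 := by
          rw [hfJ, hF]
          exact hgz i.1 i.2
        have h5 := add_mem h3 h4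
        simp only [map_add] at h5
        have e : ∀ (a a' c c' : (dsum fun i : (Σ n, κ n) => KK i.1).V i.1),
            a + a' + (c + c') + (a' + c') = a + c := by
          intro a a' c c'
          have e1 : a + a' + (c + c') + (a' + c') = (a + c) + ((a' + a') + (c' + c')) := by abel
          rw [e1, two_eq_zero', two_eq_zero', add_zero, add_zero]
        rw [e] at h5
        exact h5
    have hsum : g.app n (f.app n w) + w = ∑ i ∈ DFinsupp.support w,
        (g.app n (f.app n ((J i).app n (w i))) + (J i).app n (w i)) := by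
      rw [Finset.sum_add_distrib, ← map_sum, ← map_sum, ← hdec]
    rw [hsum]
    exact Submodule.sum_mem _ fun i _ => hterm i
  · intro i
    exact ⟨z i.1 i.2, hz i.1 i.2, hcls i.1 i.2, F i, hF i, fun m v w h1 h2 => hf m i v w h1 h2⟩

end MM

end

/-! ### from `Lib_MP_33f7bb_d.A017` -/

section

/-!
# A0-17: the Kuenneth theorem

`kun_surj`: every cycle of `P ⊗ Q` is homologous to a finite sum of cross products of cycles.
`kun`: the cross product induces an isomorphism `⊕_(p ≤ n) H_p P ⊗ H_(n-p) Q ≅ H_n (P ⊗ Q)`.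

Proof.  Well defined by `crs_mem_Z`, `crs_mem_B_*`.  Both sides are invariant under linear homotopy
equivalences in `P` (`LHtp.tens`, `crs_map`), so by `exists_split` we may take `P` = direct sum of `K'(n_i)`'s;
`(dsum K'(n_i)) ⊗ Q = dsum (K'(n_i) ⊗ Q)`, homology commutes with direct sums; for `P = K'(n)` it is A0-15:
`H_p K'(n) = F iota_n` for `p = n`, zero else.
-/

open scoped TensorProduct

namespace MM

private theorem A017_d {P Q : SV} (f : SVHom P Q) (n : ℕ) (w : P.V (n + 1)) :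
    f.app n (P.d n w) = Q.d n (f.app (n + 1) w) := by
  simp only [SV.d, LinearMap.sum_apply, map_sum]
  exact Finset.sum_congr rfl fun i _ => f.nat (dlt i) w

private theorem A017_B {P Q : SV} (f : SVHom P Q) {n : ℕ} {z : P.V n} (hz : z ∈ P.B n) :
    f.app n z ∈ Q.B n := by
  obtain ⟨w, rfl⟩ := hz
  exact ⟨f.app (n + 1) w, (A017_d f n w).symm⟩

private theorem A017_Z {P Q : SV} (f : SVHom P Q) {n : ℕ} {z : P.V n} (hz : z ∈ P.Z n) :
    f.app n z ∈ Q.Z n := by
  cases n with
  | zero => trivial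
  | succ n =>
    have hz' : P.d n z = 0 := hz
    show Q.d n _ = 0
    rw [← A017_d, hz', map_zero]

private theorem A017_cls_eq {P : SV} {n : ℕ} {x y : P.V n} {hx : x ∈ P.Z n} {hy : y ∈ P.Z n} :
    P.cls x hx = P.cls y hy ↔ x + y ∈ P.B n := by
  rw [SV.cls, SV.cls, Submodule.Quotient.eq, Submodule.mem_comap, ← sub_eq' x y]
  rfl

private theorem A017_cls_zero {P : SV} {n : ℕ} {x : P.V n} {hx : x ∈ P.Z n} :
    P.cls x hx = 0 ↔ x ∈ P.B n := by
  rw [SV.cls, Submodule.Quotient.mk_eq_zero, Submodule.mem_comap]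
  rfl

private theorem A017_cls_add {P : SV} {n : ℕ} {x y : P.V n} {hx : x ∈ P.Z n} {hy : y ∈ P.Z n} :
    P.cls x hx + P.cls y hy = P.cls (x + y) ((P.Z n).add_mem hx hy) := rfl

private theorem A017_cls_smul {P : SV} {n : ℕ} {x : P.V n} {hx : x ∈ P.Z n} (c : ZMod 2) :
    c • P.cls x hx = P.cls (c • x) ((P.Z n).smul_mem c hx) := rfl

private theorem A017_cls_sum {P : SV} {n : ℕ} {ι : Type} (S : Finset ι) (x : ι → P.V n)
    (hx : ∀ i, x i ∈ P.Z n) :
    ∑ i ∈ S, P.cls (x i) (hx i) =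
      P.cls (∑ i ∈ S, x i) ((P.Z n).sum_mem fun i _ => hx i) := by
  classical
  induction S using Finset.induction_on with
  | empty =>
    rw [Finset.sum_empty]
    exact (A017_cls_zero.2 (by rw [Finset.sum_empty]; exact (P.B n).zero_mem)).symm
  | insert a s ha ih =>
    rw [Finset.sum_insert ha, ih, A017_cls_add]
    congr 1
    rw [Finset.sum_insert ha]

private theorem A017_cls_surj {P : SV} {n : ℕ} (c : P.H n) :
    ∃ (x : P.V n) (hx : x ∈ P.Z n), P.cls x hx = c := by
  obtain ⟨⟨x, hx⟩, rfl⟩ := Submodule.Quotient.mk_surjective _ c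
  exact ⟨x, hx, rfl⟩

/-! ### direct sums -/

section dsum

variable {ι : Type} [DecidableEq ι] (P : ι → SV)

private noncomputable def A017_inc (i : ι) : SVHom (P i) (dsum P) :=
  ⟨fun k => (DFinsupp.lsingle (M := fun j => (P j).V k) i : (P i).V k →ₗ[ZMod 2] Π₀ j, (P j).V k),
    fun {m n} f x => by
      show DFinsupp.single (β := fun j => (P j).V m) i ((P i).act f x) =
        DFinsupp.mapRange (fun j => (P j).act f) (fun j => map_zero _) (DFinsupp.single (β := fun j => (P j).V n) i x)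
      rw [DFinsupp.mapRange_single]⟩

private noncomputable def A017_prj (i : ι) : SVHom (dsum P) (P i) :=
  ⟨fun k => (DFinsupp.lapply (M := fun j => (P j).V k) i : (Π₀ j, (P j).V k) →ₗ[ZMod 2] (P i).V k),
    fun _ _ => rfl⟩

private theorem A017_prj_inc (i : ι) (n : ℕ) (x : (P i).V n) :
    (A017_prj P i).app n ((A017_inc P i).app n x) = x := by
  show (DFinsupp.single (β := fun j => (P j).V n) i x) i = x
  rw [DFinsupp.single_eq_same]

private theorem A017_prj_inc_ne {i j : ι} (h : i ≠ j) (n : ℕ) (x : (P i).V n) :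
    (A017_prj P j).app n ((A017_inc P i).app n x) = 0 := by
  show (DFinsupp.single (β := fun j => (P j).V n) i x) j = 0
  exact DFinsupp.single_eq_of_ne h.symm

private theorem A017_decomp (Q : SV) (n : ℕ) (z : ((dsum P).tens Q).V n) :
    ∃ S : Finset ι, ∀ T, S ⊆ T → z = ∑ i ∈ T, ((A017_inc P i).tens (SVHom.id Q)).app n
      (((A017_prj P i).tens (SVHom.id Q)).app n z) := by
  classical
  induction z using TensorProduct.induction_on with
  | zero => exact ⟨∅, fun T _ => by simp⟩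
  | tmul w q =>
    refine ⟨DFinsupp.support w, fun T hT => ?_⟩
    have h1 : ∀ i, ((A017_inc P i).tens (SVHom.id Q)).app n
        (((A017_prj P i).tens (SVHom.id Q)).app n (w ⊗ₜ[ZMod 2] q)) =
        (DFinsupp.single (β := fun j => (P j).V n) i (w i)) ⊗ₜ[ZMod 2] q := fun i => rfl
    simp only [h1]
    rw [← TensorProduct.sum_tmul]
    congr 1
    apply DFinsupp.ext
    intro j
    rw [DFinsupp.finsetSum_apply]
    by_cases hj : j ∈ T
    · rw [Finset.sum_eq_single j (fun i _ hi => DFinsupp.single_eq_of_ne hi.symm)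
        (fun h => absurd hj h), DFinsupp.single_eq_same]
    · rw [Finset.sum_eq_zero]
      · by_contra h
        exact hj (hT (DFinsupp.mem_support_iff.2 h))
      · intro i hi
        exact DFinsupp.single_eq_of_ne (fun h => hj (h ▸ hi))
  | add x y hx hy =>
    obtain ⟨S, hS⟩ := hx
    obtain ⟨S', hS'⟩ := hy
    refine ⟨S ∪ S', fun T hT => ?_⟩
    have h1 := hS T (Finset.subset_union_left.trans hT)
    have h2 := hS' T (Finset.subset_union_right.trans hT)
    simp only [map_add, Finset.sum_add_distrib]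
    rw [← h1, ← h2]

end dsum

/-! ### the sum of the `K'(n)`'s -/

section KD

variable (κ : ℕ → Type)

private noncomputable abbrev A017_D : SV := dsum fun i : (Σ n, κ n) => KK i.1

private theorem A017_crs_inc [DecidableEq (Σ n, κ n)] (Q : SV) (n : ℕ) (i : Σ n, κ n) {q : ℕ}
    (y : Q.V q) :
    ((A017_inc (fun i : (Σ n, κ n) => KK i.1) i).tens (SVHom.id Q)).app n
      (crs n (KK.iota i.1) y) =
      crs n ((A017_inc (fun i : (Σ n, κ n) => KK i.1) i).app i.1 (KK.iota i.1)) y :=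
  crs_map _ _ _ _

private theorem A017_surjD [DecidableEq (Σ n, κ n)] (Q : SV) (n : ℕ)
    (z : ((A017_D κ).tens Q).V n) (hz : z ∈ ((A017_D κ).tens Q).Z n) :
    ∃ (S : Finset (Σ n, κ n)) (y : ∀ i : (Σ n, κ n), Q.V (n - i.1)),
      (∀ i ∈ S, i.1 ≤ n) ∧ (∀ i, y i ∈ Q.Z (n - i.1)) ∧
      z + ∑ i ∈ S, crs n ((A017_inc (fun i : (Σ n, κ n) => KK i.1) i).app i.1 (KK.iota i.1))
        (y i) ∈ ((A017_D κ).tens Q).B n := by
  classical
  have hpr : ∀ i : (Σ n, κ n),
      ((A017_prj (fun i : (Σ n, κ n) => KK i.1) i).tens (SVHom.id Q)).app n z ∈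
        ((KK i.1).tens Q).Z n := fun i => A017_Z _ hz
  have hy : ∀ i : (Σ n, κ n), ∃ y ∈ Q.Z (n - i.1), i.1 ≤ n →
      ((A017_prj (fun i : (Σ n, κ n) => KK i.1) i).tens (SVHom.id Q)).app n z +
        crs n (KK.iota i.1) y ∈ ((KK i.1).tens Q).B n := by
    intro i
    by_cases h : i.1 ≤ n
    · obtain ⟨y, h1, h2⟩ := KK_tens_surj i.1 Q (n - i.1) n (by omega) _ (hpr i)
      exact ⟨y, h1, fun _ => h2⟩
    · exact ⟨0, (Q.Z _).zero_mem, fun h' => absurd h' h⟩
  choose y hyZ hyB using hy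
  obtain ⟨T, hT⟩ := A017_decomp (fun i : (Σ n, κ n) => KK i.1) Q n z
  have hT := hT T (Finset.Subset.refl T)
  refine ⟨T.filter fun i => i.1 ≤ n, y, fun i hi => (Finset.mem_filter.1 hi).2, hyZ, ?_⟩
  have h1 : z + ∑ i ∈ T.filter fun i => i.1 ≤ n,
      crs n ((A017_inc (fun i : (Σ n, κ n) => KK i.1) i).app i.1 (KK.iota i.1)) (y i) =
      ∑ i ∈ T, ((A017_inc (fun i : (Σ n, κ n) => KK i.1) i).tens (SVHom.id Q)).app n
        (((A017_prj (fun i : (Σ n, κ n) => KK i.1) i).tens (SVHom.id Q)).app n z +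
          if i.1 ≤ n then crs n (KK.iota i.1) (y i) else 0) := by
    conv_lhs => rw [hT]
    rw [Finset.sum_filter, ← Finset.sum_add_distrib]
    refine Finset.sum_congr rfl fun i _ => ?_
    rw [map_add]
    congr 1
    split_ifs
    · rw [A017_crs_inc]
    · rw [map_zero]
  rw [h1]
  refine Submodule.sum_mem _ fun i _ => A017_B _ ?_
  by_cases h : i.1 ≤ n
  · rw [if_pos h]
    exact hyB i h
  · rw [if_neg h, add_zero]
    exact KK_tens_low i.1 Q n (by omega) _ (hpr i)

private theorem A017_injD [DecidableEq (Σ n, κ n)] (Q : SV) (n : ℕ) {ι' : Type}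
    (S : Finset ι') (j : ι' → (Σ n, κ n)) (hj : Function.Injective j) (hjn : ∀ a, (j a).1 ≤ n)
    (y : ∀ a, Q.V (n - (j a).1)) (hy : ∀ a, y a ∈ Q.Z (n - (j a).1))
    (h : ∑ a ∈ S, crs n ((A017_inc (fun i : (Σ n, κ n) => KK i.1) (j a)).app (j a).1
      (KK.iota (j a).1)) (y a) ∈ ((A017_D κ).tens Q).B n) (a : ι') (ha : a ∈ S) :
    y a ∈ Q.B (n - (j a).1) := by
  classical
  have h1 := A017_B ((A017_prj (fun i : (Σ n, κ n) => KK i.1) (j a)).tens (SVHom.id Q)) h
  rw [map_sum, Finset.sum_eq_single a] at h1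
  · have h2 := crs_map (A017_prj (fun i : (Σ n, κ n) => KK i.1) (j a)) (SVHom.id Q) (n := n)
      ((A017_inc (fun i : (Σ n, κ n) => KK i.1) (j a)).app (j a).1 (KK.iota (j a).1)) (y a)
    rw [h2, A017_prj_inc] at h1
    exact KK_tens_inj (j a).1 Q (n - (j a).1) n (by have := hjn a; omega) (y a) (hy a) h1
  · intro b _ hb
    have h2 := crs_map (A017_prj (fun i : (Σ n, κ n) => KK i.1) (j a)) (SVHom.id Q) (n := n)
      ((A017_inc (fun i : (Σ n, κ n) => KK i.1) (j b)).app (j b).1 (KK.iota (j b).1)) (y b)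
    rw [h2, A017_prj_inc_ne _ (fun h => hb (hj h))]
    obtain ⟨f, hf⟩ := crs_bilin (KK (j a).1) Q (j b).1 (n - (j b).1) n
    rw [← hf, map_zero, LinearMap.zero_apply]
  · exact fun h => absurd ha h

end KD

/-- the data of `exists_split` in the form used here -/
private theorem A017_split (P : SV) :
    ∃ (κ : ℕ → Type) (_ : DecidableEq (Σ n, κ n)) (b : ∀ n, Module.Basis (κ n) (ZMod 2) (P.H n))
      (f : SVHom (A017_D κ) P) (g : SVHom P (A017_D κ)),
      LHtp (f.comp g) (SVHom.id _) ∧ LHtp (g.comp f) (SVHom.id _) ∧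
      ∀ i : (Σ n, κ n),
        ∃ hz : f.app i.1 ((A017_inc (fun i : (Σ n, κ n) => KK i.1) i).app i.1 (KK.iota i.1)) ∈
          P.Z i.1, P.cls _ hz = b i.1 i.2 := by
  classical
  let b : ∀ n, Module.Basis (Module.Basis.ofVectorSpaceIndex (ZMod 2) (P.H n)) (ZMod 2) (P.H n) :=
    fun n => Module.Basis.ofVectorSpace (ZMod 2) (P.H n)
  obtain ⟨f, g, h1, h2, h3⟩ := exists_split P
    (fun n => Module.Basis.ofVectorSpaceIndex (ZMod 2) (P.H n)) b
  refine ⟨_, Classical.decEq _, b, f, g, h1, h2, fun i => ?_⟩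
  obtain ⟨z, hz, hzb, F, hF, hw⟩ := h3 i
  have e := hw i.1 (KK.iota i.1) ((@A017_inc _ (Classical.decEq _) (fun i : (Σ n, (fun n =>
      ((Module.Basis.ofVectorSpaceIndex (ZMod 2) (P.H n) : Set (P.H n)) : Type)) n) => KK i.1) i).app
        i.1 (KK.iota i.1)) ?_ ?_
  · rw [hF] at e
    rw [e]
    exact ⟨hz, hzb⟩
  · rintro j rfl
    exact @DFinsupp.single_eq_same _ _ _ (Classical.decEq _) _ _
  · intro j hj
    exact @DFinsupp.single_eq_of_ne _ _ _ (Classical.decEq _) _ _ _ hj

private theorem A017_refl {P Q : SV} (f : SVHom P Q) : LHtp f f := by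
  rw [lhtp_iff]
  intro n z _
  rw [two_eq_zero']
  exact (Q.B n).zero_mem

private theorem A017_comp_tens {P P' P'' : SV} (f : SVHom P' P'') (g : SVHom P P') (Q : SV) (n : ℕ)
    (z : (P.tens Q).V n) :
    (f.tens (SVHom.id Q)).app n ((g.tens (SVHom.id Q)).app n z) =
      ((f.comp g).tens (SVHom.id Q)).app n z := by
  induction z using TensorProduct.induction_on with
  | zero => simp only [map_zero]
  | tmul x y => rfl
  | add x y hx hy => simp only [map_add, hx, hy]

private theorem A017_id_tens (P Q : SV) (n : ℕ) (z : (P.tens Q).V n) :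
    ((SVHom.id P).tens (SVHom.id Q)).app n z = z := by
  induction z using TensorProduct.induction_on with
  | zero => simp only [map_zero]
  | tmul x y => rfl
  | add x y hx hy => simp only [map_add, hx, hy]

private theorem A017_retr {P P' : SV} (f : SVHom P' P) (g : SVHom P P')
    (h : LHtp (f.comp g) (SVHom.id _)) (Q : SV) (n : ℕ) (z : (P.tens Q).V n)
    (hz : z ∈ (P.tens Q).Z n) :
    (f.tens (SVHom.id Q)).app n ((g.tens (SVHom.id Q)).app n z) + z ∈ (P.tens Q).B n := by
  have h1 := (lhtp_iff _ _).1 (h.tens (A017_refl (SVHom.id Q))) n z hz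
  rwa [← A017_comp_tens, A017_id_tens] at h1

theorem kun_surj (P Q : SV) (n : ℕ) (z : (P.tens Q).V n) (hz : z ∈ (P.tens Q).Z n) :
    ∃ (N : ℕ) (p q : Fin N → ℕ) (x : ∀ i, P.V (p i)) (y : ∀ i, Q.V (q i)),
      (∀ i, p i + q i = n) ∧ (∀ i, x i ∈ P.Z (p i)) ∧ (∀ i, y i ∈ Q.Z (q i)) ∧
      z + ∑ i, crs n (x i) (y i) ∈ (P.tens Q).B n := by
  obtain ⟨κ, _, b, f, g, h1, h2, h3⟩ := A017_split P
  obtain ⟨S, y, hS, hy, hB⟩ := A017_surjD κ Q n ((g.tens (SVHom.id Q)).app n z) (A017_Z _ hz)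
  have hB1 := A017_B (f.tens (SVHom.id Q)) hB
  rw [map_add, map_sum] at hB1
  have hB2 := A017_retr f g h1 Q n z hz
  have hB3 := (Submodule.add_mem _ hB1 hB2)
  refine ⟨S.card, fun i => (S.equivFin.symm i).1.1, fun i => n - (S.equivFin.symm i).1.1,
    fun i => f.app _ ((A017_inc (fun i : (Σ n, κ n) => KK i.1) (S.equivFin.symm i).1).app _
      (KK.iota _)), fun i => y (S.equivFin.symm i).1, ?_, ?_, ?_, ?_⟩
  · intro i
    exact Nat.add_sub_of_le (hS _ (S.equivFin.symm i).2)
  · intro i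
    exact (h3 _).choose
  · intro i
    exact hy _
  · have e : z + ∑ i : Fin S.card, crs n (f.app _ ((A017_inc (fun i : (Σ n, κ n) => KK i.1)
        (S.equivFin.symm i).1).app _ (KK.iota _))) (y (S.equivFin.symm i).1) =
        (f.tens (SVHom.id Q)).app n ((g.tens (SVHom.id Q)).app n z) +
          ∑ x ∈ S, (f.tens (SVHom.id Q)).app n (crs n ((A017_inc (fun i : (Σ n, κ n) => KK i.1) x).app
            x.1 (KK.iota x.1)) (y x)) +
        ((f.tens (SVHom.id Q)).app n ((g.tens (SVHom.id Q)).app n z) + z) := by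
      have e1 : ∑ i : Fin S.card, crs n (f.app _ ((A017_inc (fun i : (Σ n, κ n) => KK i.1)
        (S.equivFin.symm i).1).app _ (KK.iota _))) (y (S.equivFin.symm i).1) =
          ∑ x ∈ S, (f.tens (SVHom.id Q)).app n (crs n ((A017_inc (fun i : (Σ n, κ n) => KK i.1) x).app
            x.1 (KK.iota x.1)) (y x)) := by
        rw [← Finset.sum_coe_sort S]
        refine Fintype.sum_equiv S.equivFin.symm _ _ fun i => ?_
        exact (crs_map f (SVHom.id Q) _ _).symm
      rw [e1]
      have e2 := two_eq_zero' ((f.tens (SVHom.id Q)).app n ((g.tens (SVHom.id Q)).app n z))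
      generalize (f.tens (SVHom.id Q)).app n ((g.tens (SVHom.id Q)).app n z) = a at e2 ⊢
      calc _ = (a + a) + (z + _) := by rw [e2, zero_add]
        _ = _ := by abel
    rw [e]
    exact hB3

private theorem A017_bil (P Q : SV) (p q n : ℕ) :
    ∃ F : P.H p →ₗ[ZMod 2] Q.H q →ₗ[ZMod 2] (P.tens Q).H n,
      ∀ (x : P.V p) (hx : x ∈ P.Z p) (y : Q.V q) (hy : y ∈ Q.Z q),
        F (P.cls x hx) (Q.cls y hy) = (P.tens Q).cls (crs n x y) (crs_mem_Z hx hy) := by
  classical
  choose rP hrP hrP' using fun c : P.H p => A017_cls_surj c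
  choose rQ hrQ hrQ' using fun c : Q.H q => A017_cls_surj c
  obtain ⟨f, hf⟩ := crs_bilin P Q p q n
  have key : ∀ (x x' : P.V p) (hx : x ∈ P.Z p) (hx' : x' ∈ P.Z p) (y y' : Q.V q)
      (hy : y ∈ Q.Z q) (hy' : y' ∈ Q.Z q), P.cls x hx = P.cls x' hx' → Q.cls y hy = Q.cls y' hy' →
      (P.tens Q).cls (crs n x y) (crs_mem_Z hx hy) =
        (P.tens Q).cls (crs n x' y') (crs_mem_Z hx' hy') := by
    intro x x' hx hx' y y' hy hy' h1 h2
    rw [A017_cls_eq] at h1 h2 ⊢
    have e : crs n x y + crs n x' y' = crs n (x + x') y + crs n x' (y + y') := by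
      rw [crs_add_left, crs_add_right]
      have e2 := two_eq_zero' (crs n x' y)
      calc _ = crs n x y + (crs n x' y + crs n x' y) + crs n x' y' := by rw [e2, add_zero]
        _ = _ := by abel
    rw [e]
    exact Submodule.add_mem _ (crs_mem_B_left h1 hy) (crs_mem_B_right hx' h2)
  have addL : ∀ (x x' : P.V p) (hx : x ∈ P.Z p) (hx' : x' ∈ P.Z p) (y : Q.V q) (hy : y ∈ Q.Z q),
      (P.tens Q).cls (crs n (x + x') y) (crs_mem_Z ((P.Z p).add_mem hx hx') hy) =
        (P.tens Q).cls (crs n x y) (crs_mem_Z hx hy) +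
          (P.tens Q).cls (crs n x' y) (crs_mem_Z hx' hy) := by
    intro x x' hx hx' y hy
    rw [A017_cls_add, A017_cls_eq, crs_add_left, two_eq_zero']
    exact Submodule.zero_mem _
  have addR : ∀ (x : P.V p) (hx : x ∈ P.Z p) (y y' : Q.V q) (hy : y ∈ Q.Z q) (hy' : y' ∈ Q.Z q),
      (P.tens Q).cls (crs n x (y + y')) (crs_mem_Z hx ((Q.Z q).add_mem hy hy')) =
        (P.tens Q).cls (crs n x y) (crs_mem_Z hx hy) +
          (P.tens Q).cls (crs n x y') (crs_mem_Z hx hy') := by
    intro x hx y y' hy hy'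
    rw [A017_cls_add, A017_cls_eq, crs_add_right, two_eq_zero']
    exact Submodule.zero_mem _
  have smulL : ∀ (c : ZMod 2) (x : P.V p) (hx : x ∈ P.Z p) (y : Q.V q) (hy : y ∈ Q.Z q),
      (P.tens Q).cls (crs n (c • x) y) (crs_mem_Z ((P.Z p).smul_mem c hx) hy) =
        c • (P.tens Q).cls (crs n x y) (crs_mem_Z hx hy) := by
    intro c x hx y hy
    rw [A017_cls_smul, A017_cls_eq, ← hf, ← hf, map_smul, LinearMap.smul_apply, two_eq_zero']
    exact Submodule.zero_mem _
  have smulR : ∀ (c : ZMod 2) (x : P.V p) (hx : x ∈ P.Z p) (y : Q.V q) (hy : y ∈ Q.Z q),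
      (P.tens Q).cls (crs n x (c • y)) (crs_mem_Z hx ((Q.Z q).smul_mem c hy)) =
        c • (P.tens Q).cls (crs n x y) (crs_mem_Z hx hy) := by
    intro c x hx y hy
    rw [A017_cls_smul, A017_cls_eq, ← hf, ← hf, map_smul, two_eq_zero']
    exact Submodule.zero_mem _
  refine ⟨LinearMap.mk₂ (ZMod 2) (fun c c' =>
    (P.tens Q).cls (crs n (rP c) (rQ c')) (crs_mem_Z (hrP c) (hrQ c'))) ?_ ?_ ?_ ?_, ?_⟩
  · intro m m' k
    rw [← addL _ _ (hrP m) (hrP m') _ (hrQ k)]
    refine key _ _ (hrP _) ((P.Z p).add_mem (hrP _) (hrP _)) _ _ (hrQ _) (hrQ _) ?_ rfl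
    rw [hrP', ← A017_cls_add (hx := hrP m) (hy := hrP m'), hrP', hrP']
  · intro c m k
    rw [← smulL _ _ (hrP m) _ (hrQ k)]
    refine key _ _ (hrP _) ((P.Z p).smul_mem c (hrP _)) _ _ (hrQ _) (hrQ _) ?_ rfl
    rw [hrP', ← A017_cls_smul (hx := hrP m), hrP']
  · intro m k k'
    rw [← addR _ (hrP m) _ _ (hrQ k) (hrQ k')]
    refine key _ _ (hrP _) (hrP _) _ _ (hrQ _) ((Q.Z q).add_mem (hrQ _) (hrQ _)) rfl ?_
    rw [hrQ', ← A017_cls_add (hx := hrQ k) (hy := hrQ k'), hrQ', hrQ']
  · intro c m k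
    rw [← smulR _ _ (hrP m) _ (hrQ k)]
    refine key _ _ (hrP _) (hrP _) _ _ (hrQ _) ((Q.Z q).smul_mem c (hrQ _)) rfl ?_
    rw [hrQ', ← A017_cls_smul (hx := hrQ k), hrQ']
  · intro x hx y hy
    exact key _ _ _ _ _ _ _ _ (hrP' _) (hrQ' _)

theorem kun (P Q : SV) (n : ℕ) :
    ∃ e : (Π₀ p : Fin (n + 1), (P.H p ⊗[ZMod 2] Q.H (n - p))) ≃ₗ[ZMod 2] (P.tens Q).H n,
      ∀ (p : Fin (n + 1)) (x : P.V p) (hx : x ∈ P.Z p) (y : Q.V (n - p))
        (hy : y ∈ Q.Z (n - p)),
        e (DFinsupp.single p (P.cls x hx ⊗ₜ[ZMod 2] Q.cls y hy)) =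
          (P.tens Q).cls (crs n x y) (crs_mem_Z hx hy) := by
  choose F hF using fun p : Fin (n + 1) => A017_bil P Q p (n - p) n
  let E : (Π₀ p : Fin (n + 1), (P.H p ⊗[ZMod 2] Q.H (n - p))) →ₗ[ZMod 2] (P.tens Q).H n :=
    DFinsupp.lsum ℕ fun p : Fin (n + 1) => TensorProduct.lift (F p)
  have hE : ∀ (p : Fin (n + 1)) (x : P.V p) (hx : x ∈ P.Z p) (y : Q.V (n - p))
        (hy : y ∈ Q.Z (n - p)),
        E (DFinsupp.single p (P.cls x hx ⊗ₜ[ZMod 2] Q.cls y hy)) =
          (P.tens Q).cls (crs n x y) (crs_mem_Z hx hy) := by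
    intro p x hx y hy
    show DFinsupp.lsum ℕ (fun p : Fin (n + 1) => TensorProduct.lift (F p)) _ = _
    rw [DFinsupp.lsum_single, TensorProduct.lift.tmul, hF]
  have hsurj : Function.Surjective E := by
    intro c
    obtain ⟨z, hz, rfl⟩ := A017_cls_surj c
    obtain ⟨N, p, q, x, y, hpq, hx, hy, hB⟩ := kun_surj P Q n z hz
    obtain rfl : q = fun i => n - p i := funext fun i => by have := hpq i; omega
    have hp : ∀ i, p i < n + 1 := fun i => by have := hpq i; omega
    refine ⟨∑ i, DFinsupp.single (⟨p i, hp i⟩ : Fin (n + 1))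
      (P.cls (x i) (hx i) ⊗ₜ[ZMod 2] Q.cls (y i) (hy i)), ?_⟩
    rw [map_sum]
    have e1 : ∀ i, E (DFinsupp.single (⟨p i, hp i⟩ : Fin (n + 1))
      (P.cls (x i) (hx i) ⊗ₜ[ZMod 2] Q.cls (y i) (hy i))) =
        (P.tens Q).cls (crs n (x i) (y i)) (crs_mem_Z (hx i) (hy i)) :=
      fun i => hE ⟨p i, hp i⟩ (x i) (hx i) (y i) (hy i)
    rw [Finset.sum_congr rfl fun i _ => e1 i,
      A017_cls_sum _ _ fun i => crs_mem_Z (hx i) (hy i), A017_cls_eq, add_comm]
    exact hB
  have hker : ∀ t, E t = 0 → ∀ p, t p = 0 := by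
    intro t ht
    obtain ⟨κ, _, b, f, g, h1, h2, h3⟩ := A017_split P
    choose hzZ hzb using h3
    choose c hc using fun p : Fin (n + 1) => TensorProduct.eq_repr_basis_left (b p) (t p)
    choose Y hY hY' using fun (j : Σ p : Fin (n + 1), κ p) => A017_cls_surj (c j.1 j.2)
    let S : Finset (Σ p : Fin (n + 1), κ p) := Finset.univ.sigma fun p => (c p).support
    let J : (Σ p : Fin (n + 1), κ p) → (Σ n, κ n) := fun j => ⟨j.1, j.2⟩
    have hJ : Function.Injective J := by
      rintro ⟨⟨p, hp⟩, k⟩ ⟨⟨p', hp'⟩, k'⟩ h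
      simp only [J, Sigma.mk.injEq] at h
      obtain ⟨rfl, h⟩ := h
      rw [heq_iff_eq] at h
      rw [h]
    have et : t = ∑ j ∈ S, DFinsupp.single j.1
        (b j.1 j.2 ⊗ₜ[ZMod 2] c j.1 j.2 : P.H j.1 ⊗[ZMod 2] Q.H (n - j.1)) := by
      rw [Finset.sum_sigma]
      apply DFinsupp.ext
      intro p
      rw [DFinsupp.finsetSum_apply, Finset.sum_eq_single p]
      · rw [DFinsupp.finsetSum_apply]
        simp only [DFinsupp.single_eq_same]
        exact (hc p).symm
      · intro p' _ hp'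
        rw [DFinsupp.finsetSum_apply]
        exact Finset.sum_eq_zero fun k _ => DFinsupp.single_eq_of_ne hp'.symm
      · exact fun h => absurd (Finset.mem_univ p) h
    have e2 : ∀ j : (Σ p : Fin (n + 1), κ p), E (DFinsupp.single j.1
        (b j.1 j.2 ⊗ₜ[ZMod 2] c j.1 j.2 : P.H j.1 ⊗[ZMod 2] Q.H (n - j.1))) =
        (P.tens Q).cls (crs n (f.app _ ((A017_inc (fun i : (Σ n, κ n) => KK i.1) (J j)).app _
          (KK.iota _))) (Y j)) (crs_mem_Z (hzZ (J j)) (hY j)) := by
      intro j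
      rw [← hE j.1 _ (hzZ (J j)) _ (hY j), hzb, hY']
    rw [et, map_sum, Finset.sum_congr rfl fun j _ => e2 j,
      A017_cls_sum _ _ fun j => crs_mem_Z (hzZ (J j)) (hY j), A017_cls_zero] at ht
    have h4 := A017_B (g.tens (SVHom.id Q)) ht
    rw [map_sum] at h4
    have h5 : ∑ j ∈ S, crs n ((A017_inc (fun i : (Σ n, κ n) => KK i.1) (J j)).app _
          (KK.iota _)) (Y j) ∈ ((A017_D κ).tens Q).B n := by
      have h8 : ∀ j ∈ S, crs n ((g.comp f).app _ ((A017_inc (fun i : (Σ n, κ n) => KK i.1) (J j)).app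
          _ (KK.iota _)) + (SVHom.id _).app _ ((A017_inc (fun i : (Σ n, κ n) => KK i.1) (J j)).app
          _ (KK.iota _))) (Y j) ∈ ((A017_D κ).tens Q).B n := fun j _ =>
        crs_mem_B_left ((lhtp_iff _ _).1 h2 _ _ (A017_Z _ (KK_iota_mem_Z _))) (hY j)
      have h9 := Submodule.add_mem _ h4 (Submodule.sum_mem _ h8)
      rw [← Finset.sum_add_distrib] at h9
      convert h9 using 1
      refine Finset.sum_congr rfl fun j _ => ?_
      rw [crs_map, crs_add_left, ← add_assoc]
      show crs n _ (Y j) = crs n (g.app _ (f.app _ _)) (Y j) + crs n (g.app _ (f.app _ _)) (Y j) +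
        crs n _ (Y j)
      rw [two_eq_zero', zero_add]
      rfl
    have h6 : ∀ j ∈ S, Y j ∈ Q.B (n - j.1) := fun j hj =>
      A017_injD κ Q n S J hJ (fun j => Nat.lt_succ_iff.1 j.1.2) Y hY h5 j hj
    intro p
    rw [← hc p]
    refine Finset.sum_eq_zero fun k hk => ?_
    have hj : (⟨p, k⟩ : Σ p : Fin (n + 1), κ p) ∈ S :=
      Finset.mem_sigma.2 ⟨Finset.mem_univ _, hk⟩
    have h7 := (A017_cls_zero (hx := hY ⟨p, k⟩)).2 (h6 _ hj)
    rw [hY' ⟨p, k⟩] at h7
    show b p k ⊗ₜ[ZMod 2] c p k = 0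
    have h8 : c p k = 0 := h7
    rw [h8, TensorProduct.tmul_zero]
  have hinj : Function.Injective E := by
    intro t t' h
    have h1 : E (t + t') = 0 := by rw [map_add, h, two_eq_zero']
    apply DFinsupp.ext
    intro p
    have h2 := hker _ h1 p
    rw [DFinsupp.add_apply] at h2
    rw [eq_neg_of_add_eq_zero_left h2, neg_eq']
  exact ⟨LinearEquiv.ofBijective E ⟨hinj, hsurj⟩, hE⟩

end MM

end

/-! ### from `Lib_MP_33f7bb_d.A3Box` -/

section

/-!
# A3-00: external products of functionals on homology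

For `a : H_p P → F`, `b : H_q Q → F`, `p + q = n`, there is exactly one functional `boxF n a b` on
`H_n (P ⊗ Q)` with `[x × y] ↦ a[x] b[y]` for cycles `x`, `y` of degrees `p`, `q`, and `0` on cross products
of cycles of other bidegrees.  Existence and uniqueness from `kun` (compose the inverse isomorphism with
the projection to the summand `p` and `a ⊗ b`).  All further statements follow from uniqueness
(`kun_surj`: the classes of cross products of cycles span).
-/

open scoped TensorProduct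

namespace MM

theorem A3Box_cls_congr {W : SV} {n : ℕ} {z z' : W.V n} (h : z = z') (hz : z ∈ W.Z n)
    (hz' : z' ∈ W.Z n) : W.cls z hz = W.cls z' hz' := by
  subst h
  rfl

theorem A3Box_cls_eq {W : SV} {n : ℕ} {z z' : W.V n} (hz : z ∈ W.Z n) (hz' : z' ∈ W.Z n)
    (h : z + z' ∈ W.B n) : W.cls z hz = W.cls z' hz' := by
  unfold SV.cls
  rw [Submodule.Quotient.eq]
  show z - z' ∈ W.B n
  rw [sub_eq']
  exact h

theorem A3Box_cls_rel {W : SV} {n : ℕ} {z z' : W.V n} {hz : z ∈ W.Z n} {hz' : z' ∈ W.Z n}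
    (h : W.cls z hz = W.cls z' hz') : z + z' ∈ W.B n := by
  unfold SV.cls at h
  rw [Submodule.Quotient.eq] at h
  have h1 : z - z' ∈ W.B n := h
  rwa [sub_eq'] at h1

theorem A3Box_cls_add {W : SV} {n : ℕ} {z z' : W.V n} (hz : z ∈ W.Z n) (hz' : z' ∈ W.Z n) :
    W.cls (z + z') ((W.Z n).add_mem hz hz') = W.cls z hz + W.cls z' hz' := rfl

theorem A3Box_cls_smul {W : SV} {n : ℕ} {z : W.V n} (c : ZMod 2) (hz : z ∈ W.Z n) :
    W.cls (c • z) ((W.Z n).smul_mem c hz) = c • W.cls z hz := rfl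

theorem A3Box_cls_zero {W : SV} {n : ℕ} {z : W.V n} (h : z = 0) (hz : z ∈ W.Z n) :
    W.cls z hz = 0 := by
  subst h
  rfl

theorem A3Box_cls_sum {W : SV} {n : ℕ} {ι : Type*} (s : Finset ι) (z : ι → W.V n)
    (hz : ∀ i, z i ∈ W.Z n) (h : ∑ i ∈ s, z i ∈ W.Z n) :
    W.cls (∑ i ∈ s, z i) h = ∑ i ∈ s, W.cls (z i) (hz i) := by
  classical
  induction s using Finset.induction_on with
  | empty => exact A3Box_cls_zero (by simp) h
  | insert a s ha ih =>
    have e1 : ∑ i ∈ insert a s, z i = z a + ∑ i ∈ s, z i := Finset.sum_insert ha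
    have e2 : ∑ i ∈ s, z i ∈ W.Z n := (W.Z n).sum_mem fun i _ => hz i
    rw [A3Box_cls_congr e1 h ((W.Z n).add_mem (hz a) e2), A3Box_cls_add (hz a) e2, ih e2,
      Finset.sum_insert ha]

theorem A3Box_exists_cls {W : SV} {n : ℕ} (x : W.H n) : ∃ (z : W.V n) (hz : z ∈ W.Z n),
    W.cls z hz = x := by
  obtain ⟨⟨z, hz⟩, rfl⟩ := Submodule.Quotient.mk_surjective _ x
  exact ⟨z, hz, rfl⟩

theorem A3Box_symm {P Q : SV} {n : ℕ}
    (e : (Π₀ p : Fin (n + 1), (P.H p ⊗[ZMod 2] Q.H (n - p))) ≃ₗ[ZMod 2] (P.tens Q).H n)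
    (he : ∀ (p : Fin (n + 1)) (x : P.V p) (hx : x ∈ P.Z p) (y : Q.V (n - p))
        (hy : y ∈ Q.Z (n - p)),
        e (DFinsupp.single p (P.cls x hx ⊗ₜ[ZMod 2] Q.cls y hy)) =
          (P.tens Q).cls (crs n x y) (crs_mem_Z hx hy))
    (r : Fin (n + 1)) (x : P.V r) (hx : x ∈ P.Z r) (y : Q.V (n - r)) (hy : y ∈ Q.Z (n - r)) :
    e.symm ((P.tens Q).cls (crs n x y) (crs_mem_Z hx hy)) =
      DFinsupp.single r (P.cls x hx ⊗ₜ[ZMod 2] Q.cls y hy) := by
  rw [← he r x hx y hy, LinearEquiv.symm_apply_apply]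

theorem exists_boxF (P Q : SV) {p q n : ℕ} (h : p + q = n) (a : Module.Dual (ZMod 2) (P.H p))
    (b : Module.Dual (ZMod 2) (Q.H q)) :
    ∃ F : Module.Dual (ZMod 2) ((P.tens Q).H n),
      (∀ (x : P.V p) (hx : x ∈ P.Z p) (y : Q.V q) (hy : y ∈ Q.Z q),
        F ((P.tens Q).cls (crs n x y) (crs_mem_Z hx hy)) = a (P.cls x hx) * b (Q.cls y hy)) ∧
      ∀ (p' q' : ℕ), p' ≠ p → ∀ (x : P.V p') (hx : x ∈ P.Z p') (y : Q.V q') (hy : y ∈ Q.Z q'),
        F ((P.tens Q).cls (crs n x y) (crs_mem_Z hx hy)) = 0 := by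
  classical
  obtain ⟨e, he⟩ := kun P Q n
  obtain rfl : q = n - p := by omega
  have hp : p < n + 1 := by omega
  let r : Fin (n + 1) := ⟨p, hp⟩
  let φ : P.H r ⊗[ZMod 2] Q.H (n - r) →ₗ[ZMod 2] ZMod 2 :=
    (TensorProduct.lid (ZMod 2) (ZMod 2)).toLinearMap ∘ₗ TensorProduct.map a b
  refine ⟨φ ∘ₗ (DFinsupp.lapply r) ∘ₗ e.symm.toLinearMap, ?_, ?_⟩
  · intro x hx y hy
    have h1 := A3Box_symm e he r x hx y hy
    show φ ((e.symm ((P.tens Q).cls (crs n x y) (crs_mem_Z hx hy))) r) = _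
    rw [h1, DFinsupp.single_eq_same]
    show (TensorProduct.lid (ZMod 2) (ZMod 2)) (TensorProduct.map a b (_ ⊗ₜ[ZMod 2] _)) = _
    rw [TensorProduct.map_tmul, TensorProduct.lid_tmul, smul_eq_mul]
  · intro p' q' hne x hx y hy
    by_cases h' : p' + q' = n
    · obtain rfl : q' = n - p' := by omega
      have hp' : p' < n + 1 := by omega
      have h1 := A3Box_symm e he ⟨p', hp'⟩ x hx y hy
      show φ ((e.symm ((P.tens Q).cls (crs n x y) (crs_mem_Z hx hy))) r) = _
      rw [h1, DFinsupp.single_eq_of_ne, map_zero]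
      intro h2
      apply hne
      have h3 := congrArg Fin.val h2
      simp only [r] at h3
      omega
    · have h1 : crs n x y = 0 := crs_eq_zero h' x y
      rw [A3Box_cls_zero h1, map_zero]

/-- external product of functionals, zero unless `p + q = n` -/
noncomputable def boxF {P Q : SV} {p q : ℕ} (n : ℕ) (a : Module.Dual (ZMod 2) (P.H p))
    (b : Module.Dual (ZMod 2) (Q.H q)) : Module.Dual (ZMod 2) ((P.tens Q).H n) :=
  open Classical in if h : p + q = n then Classical.choose (exists_boxF P Q h a b) else 0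

theorem boxF_crs {P Q : SV} {p q n : ℕ} (h : p + q = n) (a : Module.Dual (ZMod 2) (P.H p))
    (b : Module.Dual (ZMod 2) (Q.H q)) (x : P.V p) (hx : x ∈ P.Z p) (y : Q.V q)
    (hy : y ∈ Q.Z q) :
    boxF n a b ((P.tens Q).cls (crs n x y) (crs_mem_Z hx hy)) =
      a (P.cls x hx) * b (Q.cls y hy) := by
  unfold boxF
  rw [dif_pos h]
  exact (Classical.choose_spec (exists_boxF P Q h a b)).1 x hx y hy

theorem boxF_crs_ne {P Q : SV} {p q n p' q' : ℕ} (a : Module.Dual (ZMod 2) (P.H p))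
    (b : Module.Dual (ZMod 2) (Q.H q)) (hp : p' ≠ p) (x : P.V p') (hx : x ∈ P.Z p') (y : Q.V q')
    (hy : y ∈ Q.Z q') :
    boxF n a b ((P.tens Q).cls (crs n x y) (crs_mem_Z hx hy)) = 0 := by
  unfold boxF
  by_cases h : p + q = n
  · rw [dif_pos h]
    exact (Classical.choose_spec (exists_boxF P Q h a b)).2 p' q' hp x hx y hy
  · rw [dif_neg h, LinearMap.zero_apply]

/-- functionals on `H_n (P ⊗ Q)` are determined by their values on cross products -/
theorem boxF_ext {P Q : SV} {n : ℕ} {F G : Module.Dual (ZMod 2) ((P.tens Q).H n)}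
    (h : ∀ (p q : ℕ), p + q = n → ∀ (x : P.V p) (hx : x ∈ P.Z p) (y : Q.V q) (hy : y ∈ Q.Z q),
      F ((P.tens Q).cls (crs n x y) (crs_mem_Z hx hy)) =
        G ((P.tens Q).cls (crs n x y) (crs_mem_Z hx hy))) : F = G := by
  apply LinearMap.ext
  intro c
  obtain ⟨z, hz, rfl⟩ := A3Box_exists_cls c
  obtain ⟨N, p, q, x, y, hpq, hx, hy, hB⟩ := kun_surj P Q n z hz
  have hZ : ∀ i, crs n (x i) (y i) ∈ (P.tens Q).Z n := fun i => crs_mem_Z (hx i) (hy i)
  have hs : ∑ i, crs n (x i) (y i) ∈ (P.tens Q).Z n := Submodule.sum_mem _ fun i _ => hZ i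
  rw [A3Box_cls_eq hz hs hB, A3Box_cls_sum Finset.univ _ hZ hs, map_sum, map_sum]
  exact Finset.sum_congr rfl fun i _ => h (p i) (q i) (hpq i) (x i) (hx i) (y i) (hy i)

theorem A3Box_ne {P Q : SV} {p q n : ℕ} (h : p + q ≠ n) (a : Module.Dual (ZMod 2) (P.H p))
    (b : Module.Dual (ZMod 2) (Q.H q)) : boxF n a b = 0 := by
  unfold boxF
  rw [dif_neg h]

theorem boxF_add_left {P Q : SV} {p q n : ℕ} (a a' : Module.Dual (ZMod 2) (P.H p))
    (b : Module.Dual (ZMod 2) (Q.H q)) : boxF n (a + a') b = boxF n a b + boxF n a' b := by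
  by_cases h : p + q = n
  · apply boxF_ext
    intro p' q' h' x hx y hy
    rw [LinearMap.add_apply]
    by_cases hp : p' = p
    · subst hp
      obtain rfl : q = q' := by omega
      rw [boxF_crs h _ _ x hx y hy, boxF_crs h _ _ x hx y hy, boxF_crs h _ _ x hx y hy,
        LinearMap.add_apply, add_mul]
    · rw [boxF_crs_ne _ _ hp x hx y hy, boxF_crs_ne _ _ hp x hx y hy,
        boxF_crs_ne _ _ hp x hx y hy, add_zero]
  · rw [A3Box_ne h, A3Box_ne h, A3Box_ne h, add_zero]

theorem boxF_add_right {P Q : SV} {p q n : ℕ} (a : Module.Dual (ZMod 2) (P.H p))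
    (b b' : Module.Dual (ZMod 2) (Q.H q)) : boxF n a (b + b') = boxF n a b + boxF n a b' := by
  by_cases h : p + q = n
  · apply boxF_ext
    intro p' q' h' x hx y hy
    rw [LinearMap.add_apply]
    by_cases hp : p' = p
    · subst hp
      obtain rfl : q = q' := by omega
      rw [boxF_crs h _ _ x hx y hy, boxF_crs h _ _ x hx y hy, boxF_crs h _ _ x hx y hy,
        LinearMap.add_apply, mul_add]
    · rw [boxF_crs_ne _ _ hp x hx y hy, boxF_crs_ne _ _ hp x hx y hy,
        boxF_crs_ne _ _ hp x hx y hy, add_zero]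
  · rw [A3Box_ne h, A3Box_ne h, A3Box_ne h, add_zero]

/-- naturality -/
theorem boxF_map {P P' Q Q' : SV} (f : SVHom P P') (g : SVHom Q Q') {p q n : ℕ}
    (a : Module.Dual (ZMod 2) (P'.H p)) (b : Module.Dual (ZMod 2) (Q'.H q)) :
    (boxF n a b).comp (SV.Hmap (f.tens g) n) =
      boxF n (a.comp (SV.Hmap f p)) (b.comp (SV.Hmap g q)) := by
  apply boxF_ext
  intro p' q' h' x hx y hy
  rw [LinearMap.comp_apply, SV.Hmap_cls,
    A3Box_cls_congr (crs_map f g x y) _ (crs_mem_Z (f.map_Z hx) (g.map_Z hy))]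
  by_cases h : p + q = n
  · by_cases hp : p' = p
    · subst hp
      obtain rfl : q = q' := by omega
      rw [boxF_crs h _ _ _ (f.map_Z hx) _ (g.map_Z hy), boxF_crs h _ _ x hx y hy,
        LinearMap.comp_apply, LinearMap.comp_apply, SV.Hmap_cls, SV.Hmap_cls]
    · rw [boxF_crs_ne _ _ hp _ (f.map_Z hx) _ (g.map_Z hy), boxF_crs_ne _ _ hp x hx y hy]
  · rw [A3Box_ne h, A3Box_ne h, LinearMap.zero_apply, LinearMap.zero_apply]

/-- symmetry -/
theorem boxF_swap {P Q : SV} {p q n : ℕ} (a : Module.Dual (ZMod 2) (P.H p))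
    (b : Module.Dual (ZMod 2) (Q.H q)) :
    (boxF n a b).comp (SV.Hmap (SV.swap Q P) n) = boxF n b a := by
  apply boxF_ext
  intro q' p' h' y hy x hx
  rw [LinearMap.comp_apply, SV.Hmap_cls,
    A3Box_cls_congr (swap_crs y x) _ (crs_mem_Z hx hy)]
  by_cases h : p + q = n
  · by_cases hp : p' = p
    · subst hp
      obtain rfl : q = q' := by omega
      rw [boxF_crs h _ _ x hx y hy, boxF_crs (by omega) _ _ y hy x hx, mul_comm]
    · rw [boxF_crs_ne _ _ hp x hx y hy, boxF_crs_ne _ _ (by omega) y hy x hx]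
  · rw [A3Box_ne h, A3Box_ne (by omega), LinearMap.zero_apply, LinearMap.zero_apply]

/-- if all homology groups of `P` and `Q` are finite dimensional, the products of functionals span the
dual of `H_n (P ⊗ Q)` -/
theorem boxF_span {P Q : SV} (hP : ∀ p, Module.Finite (ZMod 2) (P.H p))
    (hQ : ∀ q, Module.Finite (ZMod 2) (Q.H q)) (n : ℕ)
    (F : Module.Dual (ZMod 2) ((P.tens Q).H n)) :
    F ∈ Submodule.span (ZMod 2) {G | ∃ (p q : ℕ) (_ : p + q = n) (a : Module.Dual (ZMod 2) (P.H p))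
      (b : Module.Dual (ZMod 2) (Q.H q)), G = boxF n a b} := by
  classical
  obtain ⟨e, he⟩ := kun P Q n
  have hfin : ∀ r : Fin (n + 1), Module.Finite (ZMod 2) (P.H r) := fun r => hP r
  have hfin' : ∀ r : Fin (n + 1), Module.Finite (ZMod 2) (Q.H (n - r)) := fun r => hQ _
  -- components of `F`
  have ht : ∀ r : Fin (n + 1), ∃ t : (Module.Dual (ZMod 2) (P.H r)) ⊗[ZMod 2]
      (Module.Dual (ZMod 2) (Q.H (n - r))), TensorProduct.dualDistrib (ZMod 2) (P.H r)
        (Q.H (n - r)) t = F ∘ₗ e.toLinearMap ∘ₗ (DFinsupp.lsingle (R := ZMod 2)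
          (M := fun p : Fin (n + 1) => P.H p ⊗[ZMod 2] Q.H (n - p)) r) := by
    intro r
    have := hfin r
    have := hfin' r
    refine ⟨(TensorProduct.dualDistribEquiv (ZMod 2) (P.H r) (Q.H (n - r))).symm
      (F ∘ₗ e.toLinearMap ∘ₗ (DFinsupp.lsingle (R := ZMod 2)
          (M := fun p : Fin (n + 1) => P.H p ⊗[ZMod 2] Q.H (n - p)) r)), ?_⟩
    exact (TensorProduct.dualDistribEquiv (ZMod 2) (P.H r) (Q.H (n - r))).apply_symm_apply _
  choose t ht using ht
  let G : ∀ r : Fin (n + 1), (Module.Dual (ZMod 2) (P.H r)) ⊗[ZMod 2]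
      (Module.Dual (ZMod 2) (Q.H (n - r))) → Module.Dual (ZMod 2) ((P.tens Q).H n) :=
    fun r u => (TensorProduct.dualDistrib (ZMod 2) (P.H r) (Q.H (n - r)) u) ∘ₗ
      (DFinsupp.lapply r) ∘ₗ e.symm.toLinearMap
  have hG : ∀ r u, G r u ∈ Submodule.span (ZMod 2) {G | ∃ (p q : ℕ) (_ : p + q = n)
      (a : Module.Dual (ZMod 2) (P.H p)) (b : Module.Dual (ZMod 2) (Q.H q)),
      G = boxF n a b} := by
    intro r u
    induction u using TensorProduct.induction_on with
    | zero =>
      have : G r 0 = 0 := by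
        simp only [G, map_zero, LinearMap.zero_comp]
      rw [this]
      exact Submodule.zero_mem _
    | tmul a b =>
      apply Submodule.subset_span
      have hrn : (r : ℕ) + (n - (r : ℕ)) = n := by have := r.2; omega
      refine ⟨r, n - r, hrn, a, b, ?_⟩
      apply boxF_ext
      intro p' q' h' x hx y hy
      obtain rfl : q' = n - p' := by omega
      have hp' : p' < n + 1 := by omega
      have h1 := A3Box_symm e he ⟨p', hp'⟩ x hx y hy
      show (TensorProduct.dualDistrib (ZMod 2) (P.H r) (Q.H (n - r)) (a ⊗ₜ[ZMod 2] b))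
        ((e.symm ((P.tens Q).cls (crs n x y) (crs_mem_Z hx hy))) r) = _
      rw [h1]
      by_cases hp : p' = r
      · subst hp
        rw [boxF_crs hrn _ _ x hx y hy]
        have h2 : (⟨(r : ℕ), hp'⟩ : Fin (n + 1)) = r := rfl
        show (TensorProduct.dualDistrib (ZMod 2) (P.H r) (Q.H (n - r)) (a ⊗ₜ[ZMod 2] b))
          ((DFinsupp.single r (P.cls x hx ⊗ₜ[ZMod 2] Q.cls y hy) :
            Π₀ p : Fin (n + 1), (P.H p ⊗[ZMod 2] Q.H (n - p))) r) = _
        rw [DFinsupp.single_eq_same, TensorProduct.dualDistrib_apply]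
      · rw [boxF_crs_ne _ _ hp x hx y hy, DFinsupp.single_eq_of_ne, map_zero]
        intro h2
        apply hp
        have h3 := congrArg Fin.val h2
        simp only at h3
        omega
    | add u v hu hv =>
      have : G r (u + v) = G r u + G r v := by
        simp only [G, map_add, LinearMap.add_comp]
      rw [this]
      exact Submodule.add_mem _ hu hv
  have hF : F = ∑ r, G r (t r) := by
    apply boxF_ext
    intro p' q' h' x hx y hy
    obtain rfl : q' = n - p' := by omega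
    have hp' : p' < n + 1 := by omega
    have h1 := A3Box_symm e he ⟨p', hp'⟩ x hx y hy
    rw [LinearMap.sum_apply, Finset.sum_eq_single (⟨p', hp'⟩ : Fin (n + 1))]
    · show _ = (TensorProduct.dualDistrib (ZMod 2) _ _ (t ⟨p', hp'⟩))
        ((e.symm ((P.tens Q).cls (crs n x y) (crs_mem_Z hx hy))) ⟨p', hp'⟩)
      rw [h1, ht, DFinsupp.single_eq_same]
      show _ = F (e (DFinsupp.single _ _))
      rw [he ⟨p', hp'⟩ x hx y hy]
    · intro r _ hr
      show (TensorProduct.dualDistrib (ZMod 2) (P.H r) (Q.H (n - r)) (t r))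
        ((e.symm ((P.tens Q).cls (crs n x y) (crs_mem_Z hx hy))) r) = 0
      rw [h1, DFinsupp.single_eq_of_ne (by exact hr), map_zero]
    · intro h2
      exact absurd (Finset.mem_univ _) h2
  rw [hF]
  exact Submodule.sum_mem _ fun r _ => hG r (t r)

/-- the external product of classes, as a bilinear map into `H_n (P ⊗ Q)` -/
noncomputable def crsH {P Q : SV} {p q : ℕ} (n : ℕ) (x : P.H p) (y : Q.H q) : (P.tens Q).H n :=
  (P.tens Q).cls (crs n (Quotient.out x).1 (Quotient.out y).1)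
    (crs_mem_Z (Quotient.out x).2 (Quotient.out y).2)

theorem crsH_cls {P Q : SV} {p q n : ℕ} (x : P.V p) (hx : x ∈ P.Z p) (y : Q.V q)
    (hy : y ∈ Q.Z q) :
    crsH n (P.cls x hx) (Q.cls y hy) = (P.tens Q).cls (crs n x y) (crs_mem_Z hx hy) := by
  unfold crsH
  have h1 : P.cls (Quotient.out (P.cls x hx)).1 (Quotient.out (P.cls x hx)).2 = P.cls x hx :=
    Quotient.out_eq (P.cls x hx)
  have h2 : Q.cls (Quotient.out (Q.cls y hy)).1 (Quotient.out (Q.cls y hy)).2 = Q.cls y hy :=
    Quotient.out_eq (Q.cls y hy)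
  have h3 := A3Box_cls_rel h1
  have h4 := A3Box_cls_rel h2
  apply A3Box_cls_eq
  have h5 := crs_mem_B_left (n := n) h3 (Quotient.out (Q.cls y hy)).2
  have h6 := crs_mem_B_right (n := n) hx h4
  rw [crs_add_left] at h5
  rw [crs_add_right] at h6
  have h7 := ((P.tens Q).B n).add_mem h5 h6
  have h8 : ∀ u v w : (P.tens Q).V n, u + v + (v + w) = u + w := by
    intro u v w
    have := two_eq_zero' v
    calc u + v + (v + w) = u + (v + v) + w := by abel
      _ = u + w := by rw [this, add_zero]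
  rwa [h8] at h7

theorem crsH_bilin (P Q : SV) (p q n : ℕ) :
    ∃ f : P.H p →ₗ[ZMod 2] Q.H q →ₗ[ZMod 2] (P.tens Q).H n, ∀ x y, f x y = crsH n x y := by
  refine ⟨LinearMap.mk₂ (ZMod 2) (fun x y => crsH n x y) ?_ ?_ ?_ ?_, fun x y => rfl⟩
  · intro x x' y
    obtain ⟨x, hx, rfl⟩ := A3Box_exists_cls x
    obtain ⟨x', hx', rfl⟩ := A3Box_exists_cls x'
    obtain ⟨y, hy, rfl⟩ := A3Box_exists_cls y
    show crsH n (P.cls x hx + P.cls x' hx') (Q.cls y hy) = _
    rw [← A3Box_cls_add hx hx', crsH_cls, crsH_cls, crsH_cls,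
      A3Box_cls_congr (crs_add_left x x' y) _ (((P.tens Q).Z n).add_mem (crs_mem_Z hx hy)
        (crs_mem_Z hx' hy)), A3Box_cls_add]
  · intro c x y
    obtain ⟨x, hx, rfl⟩ := A3Box_exists_cls x
    obtain ⟨y, hy, rfl⟩ := A3Box_exists_cls y
    have h1 : crs n (c • x) y = c • crs n x y := by
      obtain ⟨f, hf⟩ := crs_bilin P Q p q n
      rw [← hf, ← hf, map_smul, LinearMap.smul_apply]
    rw [← A3Box_cls_smul c hx, crsH_cls, crsH_cls,
      A3Box_cls_congr h1 _ (((P.tens Q).Z n).smul_mem c (crs_mem_Z hx hy)), A3Box_cls_smul]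
  · intro x y y'
    obtain ⟨x, hx, rfl⟩ := A3Box_exists_cls x
    obtain ⟨y, hy, rfl⟩ := A3Box_exists_cls y
    obtain ⟨y', hy', rfl⟩ := A3Box_exists_cls y'
    rw [← A3Box_cls_add hy hy', crsH_cls, crsH_cls, crsH_cls,
      A3Box_cls_congr (crs_add_right x y y') _ (((P.tens Q).Z n).add_mem (crs_mem_Z hx hy)
        (crs_mem_Z hx hy')), A3Box_cls_add]
  · intro c x y
    obtain ⟨x, hx, rfl⟩ := A3Box_exists_cls x
    obtain ⟨y, hy, rfl⟩ := A3Box_exists_cls y
    have h1 : crs n x (c • y) = c • crs n x y := by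
      obtain ⟨f, hf⟩ := crs_bilin P Q p q n
      rw [← hf, ← hf, map_smul]
    rw [← A3Box_cls_smul c hy, crsH_cls, crsH_cls,
      A3Box_cls_congr h1 _ (((P.tens Q).Z n).smul_mem c (crs_mem_Z hx hy)), A3Box_cls_smul]

/-- the product of two cohomology classes of a pointed simplicial set: pull back of `boxF` along the
reduced diagonal -/
noncomputable def cupR {Z : SS} {z₀ : Z.S 0} {p q : ℕ} (n : ℕ)
    (a : Module.Dual (ZMod 2) ((R Z z₀).H p)) (b : Module.Dual (ZMod 2) ((R Z z₀).H q)) :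
    Module.Dual (ZMod 2) ((R Z z₀).H n) :=
  (boxF n a b).comp (SV.Hmap (R.diag z₀) n)

end MM

end

/-! ### from `Lib_MP_33f7bb_d.A4Ring` -/

section

/-!
# A4Ring: cohomology rings of simplicial sets (definitions)

`CR Z = ∏_n Hc Z n` with the cup product: pull back of `boxF` along the diagonal
`lin Z → lin Z ⊗ lin Z`, `[x] ↦ [x] ⊗ [x]`.  The ring axioms are proved in `A4R1`.
-/

open scoped TensorProduct

namespace MM

/-- the diagonal `[x] ↦ [x] ⊗ [x]` -/
noncomputable def linDiag (Z : SS) : SVHom (lin Z) ((lin Z).tens (lin Z)) :=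
  linHom (W := (lin Z).tens (lin Z)) ⟨fun n x => (Finsupp.single x 1 : Ch Z n) ⊗ₜ[ZMod 2]
      (Finsupp.single x 1 : Ch Z n),
    fun {m n} f x => by
    show _ = TensorProduct.map _ _ (_ ⊗ₜ[ZMod 2] _)
    rw [TensorProduct.map_tmul, Finsupp.lmapDomain_apply, Finsupp.mapDomain_single]⟩

@[simp] theorem linDiag_single (Z : SS) (n : ℕ) (x : Z.S n) :
    (linDiag Z).app n (Finsupp.single x 1) =
      (Finsupp.single x 1 : Ch Z n) ⊗ₜ[ZMod 2] (Finsupp.single x 1 : Ch Z n) := by
  show linExt _ n (Finsupp.single x 1) = _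
  rw [linExt_single, one_smul]

/-- cup product of homogeneous cohomology classes (zero unless `p + q = n`) -/
noncomputable def cup {Z : SS} {p q : ℕ} (n : ℕ) (a : Hc Z p) (b : Hc Z q) : Hc Z n :=
  (boxF n a b).comp (SV.Hmap (linDiag Z) n)

/-- pull back of cohomology classes -/
noncomputable def Hc.map {Z Z' : SS} (f : Hom Z Z') (n : ℕ) : Hc Z' n →ₗ[ZMod 2] Hc Z n :=
  (SV.Hmap (linMap f) n).dualMap

/-- the augmentation as a class in `H^0` -/
noncomputable def Hc.unit (Z : SS) : Hc Z 0 :=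
  Submodule.liftQ _ ((Finsupp.linearCombination (ZMod 2) (fun _ : Z.S 0 => (1 : ZMod 2))).comp
    ((lin Z).Z 0).subtype) (by
    rintro ⟨z, hz⟩ ⟨w, hw⟩
    rw [LinearMap.mem_ker, LinearMap.comp_apply]
    have hw' : (lin Z).d 0 w = z := hw
    show Finsupp.linearCombination (ZMod 2) (fun _ : Z.S 0 => (1 : ZMod 2)) z = 0
    rw [← hw']
    have h1 : (Finsupp.linearCombination (ZMod 2) (fun _ : Z.S 0 => (1 : ZMod 2))).comp
        ((lin Z).d 0) = 0 := by
      refine Finsupp.lhom_ext fun x r => ?_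
      simp only [LinearMap.comp_apply, SV.d, LinearMap.sum_apply, Finsupp.lmapDomain_apply,
        Finsupp.mapDomain_single, map_sum, Finsupp.linearCombination_single,
        LinearMap.zero_apply]
      rw [Finset.sum_const, Finset.card_univ, Fintype.card_fin, nsmul_eq_mul]
      have h2 : ((0 + 2 : ℕ) : ZMod 2) = 0 := rfl
      rw [h2, zero_mul]
    exact LinearMap.congr_fun h1 w)

theorem Hc.unit_cls {Z : SS} (z : (lin Z).V 0) (hz : z ∈ (lin Z).Z 0) :
    Hc.unit Z ((lin Z).cls z hz) = z.sum fun _ r => r := by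
  show Finsupp.linearCombination (ZMod 2) (fun _ : Z.S 0 => (1 : ZMod 2)) z = _
  rw [Finsupp.linearCombination_apply]
  simp

/-- the cohomology ring (as a type) -/
def CR (Z : SS) := ∀ n, Hc Z n

noncomputable instance (Z : SS) : AddCommGroup (CR Z) := inferInstanceAs (AddCommGroup (∀ n, Hc Z n))
noncomputable instance (Z : SS) : Module (ZMod 2) (CR Z) :=
  inferInstanceAs (Module (ZMod 2) (∀ n, Hc Z n))

/-- multiplication -/
noncomputable instance (Z : SS) : Mul (CR Z) :=
  ⟨fun a b n => ∑ k ∈ Finset.range (n + 1), cup n (a k) (b (n - k))⟩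

/-- the unit -/
noncomputable instance (Z : SS) : One (CR Z) :=
  ⟨fun n => if h : n = 0 then h ▸ Hc.unit Z else 0⟩

/-- a homogeneous class as an element of the ring -/
noncomputable def CR.hom {Z : SS} (n : ℕ) : Hc Z n →ₗ[ZMod 2] CR Z :=
  LinearMap.single (ZMod 2) (fun n => Hc Z n) n

/-- component -/
noncomputable def CR.cmp {Z : SS} (n : ℕ) : CR Z →ₗ[ZMod 2] Hc Z n := LinearMap.proj (R := ZMod 2) (φ := fun n => Hc Z n) n

/-- the projection `lin Z → R Z` -/
noncomputable abbrev R.pr {Z : SS} (z₀ : Z.S 0) : SVHom (lin Z) (R Z z₀) := (linSub (Sub.pt z₀)).proj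

@[simp] theorem R.pr_single {Z : SS} (z₀ : Z.S 0) (n : ℕ) (x : Z.S n) :
    (R.pr z₀).app n (Finsupp.single x 1) = (R.of z₀).app n x := rfl

/-- reduced cohomology classes as cohomology classes -/
noncomputable def red {Z : SS} (z₀ : Z.S 0) (n : ℕ) :
    Module.Dual (ZMod 2) ((R Z z₀).H n) →ₗ[ZMod 2] Hc Z n := (SV.Hmap (R.pr z₀) n).dualMap

theorem CR.mul_apply {Z : SS} (a b : CR Z) (n : ℕ) :
    (a * b) n = ∑ k ∈ Finset.range (n + 1), cup n (a k) (b (n - k)) := rfl

theorem CR.one_zero (Z : SS) : (1 : CR Z) 0 = Hc.unit Z := rfl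

theorem CR.one_succ (Z : SS) (n : ℕ) : (1 : CR Z) (n + 1) = 0 := rfl

end MM

end

/-! ### from `Lib_MP_33f7bb_d.A3KL` -/

section

/-!
# A3-KL: bar construction, Eilenberg-MacLane objects `KL n`, powers of `B(ZMod 2)` (definitions, complete)

`(barV V)_m` = additive functions `v : PR m → V_m`, `v (a, c) = v (a, b) + v (b, c)`.
`barDel : (barV V)_(j+1) → V_j`, `v ↦ δ_0 (v (0, 1))`, is the connecting map `H_(j+1) (barV V) ≅ H_j V` on cycles.
`KL 0 = cstV (ZMod 2)`, `KL (n+1) = barV (KL n)`.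
-/

open scoped TensorProduct

namespace MM

/-- additive functions from pairs of vertices to `V` -/
def barS (V : SV) (m : ℕ) : Submodule (ZMod 2) (PR m → V.V m) where
  carrier := {v | ∀ a b c : Fin (m + 1), v (a, c) = v (a, b) + v (b, c)}
  add_mem' := by
    intro v w hv hw a b c
    show v _ + w _ = (v _ + w _) + (v _ + w _)
    rw [hv a b c, hw a b c]; abel
  zero_mem' := by intro a b c; show (0 : V.V m) = 0 + 0; rw [add_zero]
  smul_mem' := by
    intro r v hv a b c
    show r • v _ = r • v _ + r • v _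
    rw [hv a b c, smul_add]

/-- the bar construction of a simplicial vector space -/
abbrev barV (V : SV) : SV where
  V m := barS V m
  act {m n} θ :=
    { toFun := fun v => ⟨fun x => V.act θ (v.1 (prMap θ x)), by
        intro a b c
        show V.act θ (v.1 (θ a, θ c)) = V.act θ (v.1 (θ a, θ b)) + V.act θ (v.1 (θ b, θ c))
        rw [v.2 (θ a) (θ b) (θ c), map_add]⟩
      map_add' := fun v w => by
        apply Subtype.ext; funext x
        exact map_add (V.act θ) _ _
      map_smul' := fun r v => by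
        apply Subtype.ext; funext x
        exact map_smul (V.act θ) r _ }
  act_id v := by
    apply Subtype.ext; funext x
    exact V.act_id _
  act_comp θ η v := by
    apply Subtype.ext; funext x
    exact V.act_comp θ η _

theorem barV_act_apply (V : SV) {m n : ℕ} (θ : Mo m n) (v : (barV V).V n) (x : PR m) :
    ((barV V).act θ v).1 x = V.act θ (v.1 (prMap θ x)) := rfl

/-- the connecting map on chains -/
noncomputable def barDel (V : SV) (j : ℕ) : (barV V).V (j + 1) →ₗ[ZMod 2] V.V j where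
  toFun v := V.act (dlt 0) (v.1 (0, 1))
  map_add' v w := map_add (V.act (dlt 0)) _ _
  map_smul' r v := map_smul (V.act (dlt 0)) r _

theorem barDel_apply (V : SV) (j : ℕ) (v : (barV V).V (j + 1)) :
    barDel V j v = V.act (dlt 0) (v.1 (0, 1)) := rfl

/-- functoriality of the bar construction -/
def barMap {V W : SV} (f : SVHom V W) : SVHom (barV V) (barV W) :=
  ⟨fun m =>
    { toFun := fun v => ⟨fun x => f.app m (v.1 x), by
        intro a b c
        show f.app m _ = f.app m _ + f.app m _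
        rw [v.2 a b c, map_add]⟩
      map_add' := fun v w => by
        apply Subtype.ext; funext x
        exact map_add (f.app m) _ _
      map_smul' := fun r v => by
        apply Subtype.ext; funext x
        exact map_smul (f.app m) r _ }, fun {m n} θ v => by
    apply Subtype.ext; funext x
    exact f.nat θ _⟩

/-- the Eilenberg-MacLane objects -/
noncomputable def KL : ℕ → SV
  | 0 => cstV (ZMod 2)
  | n + 1 => barV (KL n)

/-- `W` has homology only in degree `n`, and `u` is an isomorphism `H_n W ≅ F` -/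
structure IsEM (n : ℕ) (W : SV) (u : Module.Dual (ZMod 2) (W.H n)) : Prop where
  low : ∀ j, j ≠ n → ∀ z ∈ W.Z j, z ∈ W.B j
  bij : Function.Bijective u

/-- the class of degree `n` given by a map into `W` and a functional on `H_n W` -/
noncomputable def clW {Z : SS} {W : SV} {n : ℕ} (u : Module.Dual (ZMod 2) (W.H n))
    (a : Hom Z W.ss) : Hc Z n := u.comp (SV.Hmap (linHom a) n)

/-- reduced version: the class of a pointed map -/
noncomputable def clR {Z : SS} {z₀ : Z.S 0} {W : SV} {n : ℕ} (u : Module.Dual (ZMod 2) (W.H n))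
    (a : Hom Z W.ss) (ha : a.app 0 z₀ = W.zv) : Module.Dual (ZMod 2) ((R Z z₀).H n) :=
  u.comp (SV.Hmap (R.lift z₀ a ha) n)

/-- powers of `K1` -/
abbrev K1pow (I : Type) : SV where
  V n := I → K1.V n
  act f := LinearMap.pi fun i => (K1.act f).comp (LinearMap.proj i)
  act_id x := funext fun i => K1.act_id (x i)
  act_comp f g x := funext fun i => K1.act_comp f g (x i)

/-- powers of `B(ZMod 2)` -/
abbrev Bpow (I : Type) : SS := (K1pow I).ss

/-- projections -/
def Bproj {I : Type} (i : I) : Hom (Bpow I) BZ2 := ⟨fun _ x => x i, fun _ _ => rfl⟩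

/-- the functional `v ↦ v 1` on `H_1 (K1)` -/
noncomputable def K1ev : Module.Dual (ZMod 2) (K1.H 1) :=
  Submodule.liftQ _
    ({ toFun := fun v : K1.V 1 => v.1 1, map_add' := fun _ _ => rfl, map_smul' := fun _ _ => rfl } ∘ₗ
      (K1.Z 1).subtype) (by
    rintro ⟨z, hz⟩ ⟨w, hw⟩
    have hw' : K1.d 1 w = z := hw
    show z.1 1 = 0
    rw [← hw', SV.d, LinearMap.sum_apply]
    have h0 : w.1 0 = 0 := by
      have := w.2
      simpa only [LinearMap.mem_ker, LinearMap.proj_apply] using this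
    have h1 : ∀ i : Fin 3, (K1.act (dlt i) w).1 1 = w.1 (dlt i 1) - w.1 (dlt i 0) := fun _ => rfl
    rw [AddSubmonoidClass.coe_finsetSum, Finset.sum_apply, Fin.sum_univ_three, h1, h1, h1]
    have e1 : (dlt (0 : Fin 3) : Mo 1 2) 1 = 2 := rfl
    have e2 : (dlt (0 : Fin 3) : Mo 1 2) 0 = 1 := rfl
    have e3 : (dlt (1 : Fin 3) : Mo 1 2) 1 = 2 := rfl
    have e4 : (dlt (1 : Fin 3) : Mo 1 2) 0 = 0 := rfl
    have e5 : (dlt (2 : Fin 3) : Mo 1 2) 1 = 1 := rfl
    have e6 : (dlt (2 : Fin 3) : Mo 1 2) 0 = 0 := rfl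
    rw [e1, e2, e3, e4, e5, e6, h0]
    have h2 : w.1 2 - w.1 1 + (w.1 2 - 0) + (w.1 1 - 0) = w.1 2 + w.1 2 := by ring
    rw [h2]
    exact CharTwo.add_self_eq_zero _)

/-- the generator of `H^1 (B(ZMod 2))` -/
noncomputable def xB : Hc BZ2 1 := clW K1ev (Hom.id BZ2)

/-- the class of the `i`-th projection -/
noncomputable def xI {I : Type} (i : I) : Hc (Bpow I) 1 := Hc.map (Bproj i) 1 xB

end MM

end

/-! ### from `Lib_MP_33f7bb_d.A4R1` -/

section

/-!
# A4-01: ring axioms for `CR Z`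

`boxF_assoc`: both sides are functionals on `H_n ((P ⊗ Q) ⊗ S)`.  By `kun_surj` (twice, and
`crs_mem_B_left`, `crs_mem_B_right`) every class is a sum of classes of `crs n (crs m x y) z` with `x, y, z` cycles of degrees
`p', q', r'`, `p' + q' = m'`, `m' + r' = n`.  `assoc_crs` gives the value of the right hand side; both sides are
`a [x] * b [y] * c [z]` if `(p', q', r') = (p, q, r)` and `0` otherwise (`boxF_crs`, `boxF_crs_ne`).
`cup_add_left/right`: `boxF_add_left/right`.  `cup_comm`: `boxF_swap` and `swap ∘ linDiag = linDiag`.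
`cup_assoc`: `boxF_assoc`, `boxF_map` and coassociativity
`assoc ∘ (linDiag ⊗ 1) ∘ linDiag = (1 ⊗ linDiag) ∘ linDiag` (check on the basis `[x]`).
`cup_unit`: `boxF n (Hc.unit) a = a ∘ H(q)`, where `q : lin Z ⊗ lin Z → lin Z`, `[x] ⊗ [y] ↦ [y]`
(on `crs n x y` with `x` a cycle of degree `p'`: the value of `q` on `crs n x y` is
`∑_(α,β) ε(act α x) act β y`, `ε` = sum of the coefficients; if `p' = 0` this is `ε(x) y`; if `p' > 0`: it is
`ε(x) * ∑_β (number of α) act β y`, it is a cycle, and all `β : [n] → [n - p']` are degenerate; cleaner: for `p' > 0`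
take the cycle `x` and the map `lin Z → lin pt`: `q(crs n x y)` is the image of `crs n (x' : lin PT) y` under
`lin PT ⊗ lin Z → lin Z`, and `x'` is a boundary of `lin PT` or `p' = 0`: a cycle of positive degree of
`lin PT` is a boundary), and `q ∘ linDiag = id`.
`Hc.map_cup`: `boxF_map` and `linDiag ∘ linMap f = (linMap f ⊗ linMap f) ∘ linDiag`.
`Hc.map_unit`: the sum of the coefficients is unchanged by `mapDomain`.
-/

open scoped TensorProduct

namespace MM

private theorem A4R1_key {P Q S : SV} {p q r m m' n : ℕ} (hm : p + q = m) (hm' : q + r = m')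
    (hn : p + q + r = n) (a : Module.Dual (ZMod 2) (P.H p)) (b : Module.Dual (ZMod 2) (Q.H q))
    (c : Module.Dual (ZMod 2) (S.H r)) {p' q' M r' : ℕ} (h1 : p' + q' = M) (h2 : M + r' = n)
    (x : P.V p') (hx : x ∈ P.Z p') (y : Q.V q') (hy : y ∈ Q.Z q') (z : S.V r') (hz : z ∈ S.Z r') :
    boxF n (boxF m a b) c (((P.tens Q).tens S).cls (crs n (crs M x y) z)
        (crs_mem_Z (crs_mem_Z hx hy) hz)) =
      (boxF n a (boxF m' b c)) (SV.Hmap (SV.assoc P Q S) n (((P.tens Q).tens S).cls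
        (crs n (crs M x y) z) (crs_mem_Z (crs_mem_Z hx hy) hz))) := by
  subst h1
  subst h2
  rw [SV.Hmap_cls, A3Box_cls_congr (assoc_crs x y z) _ (crs_mem_Z hx (crs_mem_Z hy hz))]
  by_cases hp : p' = p
  · subst hp
    obtain rfl : q' + r' = m' := by omega
    rw [boxF_crs (by omega) a (boxF (q' + r') b c) x hx _ (crs_mem_Z hy hz)]
    by_cases hq : q' = q
    · subst hq
      obtain rfl : r' = r := by omega
      subst hm
      rw [boxF_crs rfl (boxF (p' + q') a b) c _ (crs_mem_Z hx hy) z hz,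
        boxF_crs rfl a b x hx y hy, boxF_crs rfl b c y hy z hz, mul_assoc]
    · rw [boxF_crs_ne _ _ hq y hy z hz, mul_zero,
        boxF_crs_ne _ _ (by omega) _ (crs_mem_Z hx hy) z hz]
  · rw [boxF_crs_ne _ _ hp x hx _ (crs_mem_Z hy hz)]
    by_cases hq : p' + q' = m
    · subst hq
      obtain rfl : r' = r := by omega
      rw [boxF_crs rfl (boxF (p' + q') a b) c _ (crs_mem_Z hx hy) z hz,
        boxF_crs_ne _ _ hp x hx y hy, zero_mul]
    · rw [boxF_crs_ne _ _ hq _ (crs_mem_Z hx hy) z hz]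

private theorem A4R1_assoc {P Q S : SV} {p q r m m' n : ℕ} (hm : p + q = m) (hm' : q + r = m')
    (hn : p + q + r = n) (a : Module.Dual (ZMod 2) (P.H p)) (b : Module.Dual (ZMod 2) (Q.H q))
    (c : Module.Dual (ZMod 2) (S.H r)) :
    boxF n (boxF m a b) c = (boxF n a (boxF m' b c)).comp (SV.Hmap (SV.assoc P Q S) n) := by
  apply boxF_ext
  intro M r' hMr u hu z hz
  obtain ⟨N, p1, q1, x, y, hpq, hx, hy, hB⟩ := kun_surj P Q M u hu
  have hZ : ∀ i, crs n (crs M (x i) (y i)) z ∈ ((P.tens Q).tens S).Z n := fun i =>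
    crs_mem_Z (crs_mem_Z (hx i) (hy i)) hz
  have hs : ∑ i, crs n (crs M (x i) (y i)) z ∈ ((P.tens Q).tens S).Z n :=
    Submodule.sum_mem _ fun i _ => hZ i
  have hB2 : crs n u z + ∑ i, crs n (crs M (x i) (y i)) z ∈ ((P.tens Q).tens S).B n := by
    have h1 := crs_mem_B_left (n := n) hB hz
    obtain ⟨f, hf⟩ := crs_bilin (P.tens Q) S M r' n
    have h2 : crs n (u + ∑ i, crs M (x i) (y i)) z =
        crs n u z + ∑ i, crs n (crs M (x i) (y i)) z := by
      rw [← hf, ← hf, map_add, map_sum, LinearMap.add_apply, LinearMap.sum_apply]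
      simp only [hf]
    rwa [h2] at h1
  rw [A3Box_cls_eq (crs_mem_Z hu hz) hs hB2, A3Box_cls_sum Finset.univ _ hZ hs, map_sum, map_sum]
  refine Finset.sum_congr rfl fun i _ => ?_
  rw [LinearMap.comp_apply]
  exact A4R1_key hm hm' hn a b c (hpq i) hMr (x i) (hx i) (y i) (hy i) z hz

theorem boxF_assoc {P Q S : SV} {p q r : ℕ} (a : Module.Dual (ZMod 2) (P.H p))
    (b : Module.Dual (ZMod 2) (Q.H q)) (c : Module.Dual (ZMod 2) (S.H r)) :
    boxF (p + q + r) (boxF (p + q) a b) c =
      (boxF (p + q + r) a (boxF (q + r) b c)).comp (SV.Hmap (SV.assoc P Q S) (p + q + r)) :=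
  A4R1_assoc rfl rfl rfl a b c

theorem boxF_ne {P Q : SV} {p q n : ℕ} (h : p + q ≠ n) (a : Module.Dual (ZMod 2) (P.H p))
    (b : Module.Dual (ZMod 2) (Q.H q)) : boxF n a b = 0 := dif_neg h

variable {Z Z' : SS}

theorem cup_ne {p q n : ℕ} (h : p + q ≠ n) (a : Hc Z p) (b : Hc Z q) : cup n a b = 0 := by
  rw [cup, boxF_ne h, LinearMap.zero_comp]

theorem cup_add_left {p q n : ℕ} (a a' : Hc Z p) (b : Hc Z q) :
    cup n (a + a') b = cup n a b + cup n a' b := by
  rw [cup, boxF_add_left, LinearMap.add_comp]; rfl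

theorem cup_add_right {p q n : ℕ} (a : Hc Z p) (b b' : Hc Z q) :
    cup n a (b + b') = cup n a b + cup n a b' := by
  rw [cup, boxF_add_right, LinearMap.add_comp]; rfl

theorem cup_zero_left {p q n : ℕ} (b : Hc Z q) : cup n (0 : Hc Z p) b = 0 := by
  have h := cup_add_left (n := n) (0 : Hc Z p) 0 b
  rw [add_zero] at h
  exact left_eq_add.1 h

theorem cup_zero_right {p q n : ℕ} (a : Hc Z p) : cup n a (0 : Hc Z q) = 0 := by
  have h := cup_add_right (n := n) a (0 : Hc Z q) 0
  rw [add_zero] at h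
  exact left_eq_add.1 h

private theorem A4R1_ext {W : SV} {f g : SVHom (lin Z) W}
    (h : ∀ n (x : Z.S n), f.app n (Finsupp.single x 1) = g.app n (Finsupp.single x 1)) : f = g := by
  apply SVHom.ext
  funext n
  exact Finsupp.lhom_ext' fun x => LinearMap.ext_ring (h n x)

private theorem A4R1_H {P Q Q' S : SV} {f : SVHom P Q} {g : SVHom Q S} {f' : SVHom P Q'}
    {g' : SVHom Q' S} (h : g.comp f = g'.comp f') (n : ℕ) (x : P.H n) :
    SV.Hmap g n (SV.Hmap f n x) = SV.Hmap g' n (SV.Hmap f' n x) := by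
  rw [← SV.Hmap_comp, h, SV.Hmap_comp]

private theorem A4R1_tens_app {P P' Q Q' : SV} (f : SVHom P P') (g : SVHom Q Q') (n : ℕ)
    (x : P.V n) (y : Q.V n) :
    (f.tens g).app n (x ⊗ₜ[ZMod 2] y) = f.app n x ⊗ₜ[ZMod 2] g.app n y := rfl

private theorem A4R1_swap : (SV.swap (lin Z) (lin Z)).comp (linDiag Z) = linDiag Z := by
  apply A4R1_ext
  intro n x
  show (SV.swap (lin Z) (lin Z)).app n ((linDiag Z).app n (Finsupp.single x 1)) = _
  rw [linDiag_single]
  rfl

private theorem A4R1_coassoc :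
    ((SV.assoc (lin Z) (lin Z) (lin Z)).comp ((linDiag Z).tens (SVHom.id (lin Z)))).comp
      (linDiag Z) = ((SVHom.id (lin Z)).tens (linDiag Z)).comp (linDiag Z) := by
  apply A4R1_ext
  intro n x
  show (SV.assoc (lin Z) (lin Z) (lin Z)).app n (((linDiag Z).tens (SVHom.id (lin Z))).app n
    ((linDiag Z).app n (Finsupp.single x 1))) =
    ((SVHom.id (lin Z)).tens (linDiag Z)).app n ((linDiag Z).app n (Finsupp.single x 1))
  rw [linDiag_single, A4R1_tens_app, A4R1_tens_app, linDiag_single]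
  rfl

private theorem A4R1_nat (f : Hom Z Z') :
    (linDiag Z').comp (linMap f) = ((linMap f).tens (linMap f)).comp (linDiag Z) := by
  apply A4R1_ext
  intro n x
  show (linDiag Z').app n (Finsupp.mapDomain (f.app n) (Finsupp.single x 1)) =
    ((linMap f).tens (linMap f)).app n ((linDiag Z).app n (Finsupp.single x 1))
  rw [linDiag_single, A4R1_tens_app, Finsupp.mapDomain_single, linDiag_single]
  show _ = Finsupp.mapDomain (f.app n) (Finsupp.single x 1) ⊗ₜ[ZMod 2]
    Finsupp.mapDomain (f.app n) (Finsupp.single x 1)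
  rw [Finsupp.mapDomain_single]

/-- sum of the coefficients -/
private noncomputable def A4R1_eps (Z : SS) (n : ℕ) : Ch Z n →ₗ[ZMod 2] ZMod 2 :=
  Finsupp.linearCombination (ZMod 2) (fun _ : Z.S n => (1 : ZMod 2))

private theorem A4R1_eps_map {A B : Type} (f : A → B) (z : A →₀ ZMod 2) :
    Finsupp.linearCombination (ZMod 2) (fun _ : B => (1 : ZMod 2)) (Finsupp.mapDomain f z) =
      Finsupp.linearCombination (ZMod 2) (fun _ : A => (1 : ZMod 2)) z := by
  rw [Finsupp.linearCombination_mapDomain]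
  rfl

/-- the counit on the left factor -/
private noncomputable def A4R1_q (Y Z : SS) : SVHom ((lin Y).tens (lin Z)) (lin Z) :=
  ⟨fun n => (TensorProduct.lid (ZMod 2) (Ch Z n)).toLinearMap ∘ₗ
      TensorProduct.map (A4R1_eps Y n) LinearMap.id, by
    intro m n g u
    induction u using TensorProduct.induction_on with
    | zero => simp
    | add u v hu hv => simp only [map_add, hu, hv]
    | tmul x y =>
      show (TensorProduct.lid (ZMod 2) (Ch Z m)) (TensorProduct.map (A4R1_eps Y m) LinearMap.id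
        (TensorProduct.map ((lin Y).act g) ((lin Z).act g) (x ⊗ₜ[ZMod 2] y))) =
        (lin Z).act g ((TensorProduct.lid (ZMod 2) (Ch Z n)) (TensorProduct.map (A4R1_eps Y n)
          LinearMap.id (x ⊗ₜ[ZMod 2] y)))
      rw [TensorProduct.map_tmul, TensorProduct.map_tmul, TensorProduct.map_tmul,
        TensorProduct.lid_tmul, TensorProduct.lid_tmul, map_smul]
      congr 1
      exact A4R1_eps_map (Y.act g) x⟩

private theorem A4R1_q_tmul (Y Z : SS) (n : ℕ) (x : Ch Y n) (y : Ch Z n) :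
    (A4R1_q Y Z).app n (x ⊗ₜ[ZMod 2] y) = A4R1_eps Y n x • y := by
  show (TensorProduct.lid (ZMod 2) (Ch Z n)) (TensorProduct.map (A4R1_eps Y n)
          LinearMap.id (x ⊗ₜ[ZMod 2] y)) = _
  rw [TensorProduct.map_tmul, TensorProduct.lid_tmul]
  rfl

private theorem A4R1_q_diag : (A4R1_q Z Z).comp (linDiag Z) = SVHom.id (lin Z) := by
  apply A4R1_ext
  intro n x
  show (A4R1_q Z Z).app n ((linDiag Z).app n (Finsupp.single x 1)) = Finsupp.single x 1
  rw [linDiag_single, A4R1_q_tmul]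
  show Finsupp.linearCombination (ZMod 2) (fun _ : Z.S n => (1 : ZMod 2)) (Finsupp.single x 1) • _ = _
  rw [Finsupp.linearCombination_single, smul_eq_mul, mul_one, one_smul]

/-- the map to the point -/
private def A4R1_pt (Z : SS) : Hom Z PT := ⟨fun _ _ => (), fun _ _ => rfl⟩

private theorem A4R1_q_pt :
    (A4R1_q PT Z).comp ((linMap (A4R1_pt Z)).tens (SVHom.id (lin Z))) = A4R1_q Z Z := by
  apply SVHom.ext
  funext n
  apply TensorProduct.ext'
  intro x y
  show (A4R1_q PT Z).app n (((linMap (A4R1_pt Z)).tens (SVHom.id (lin Z))).app n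
    (x ⊗ₜ[ZMod 2] y)) = _
  rw [A4R1_tens_app, A4R1_q_tmul, A4R1_q_tmul]
  congr 1
  exact A4R1_eps_map _ x

private theorem A4R1_pt_d (k : ℕ) (z : Ch PT (k + 1)) :
    (lin PT).d k z = ((k + 2 : ℕ) : ZMod 2) • (z : Ch PT k) := by
  rw [SV.d, LinearMap.sum_apply]
  have h : ∀ i : Fin (k + 2), (lin PT).act (dlt i) z = (z : Ch PT k) := by
    intro i
    show Finsupp.mapDomain (PT.act (dlt i)) z = z
    exact Finsupp.mapDomain_id
  rw [Finset.sum_congr rfl (fun i _ => h i), Finset.sum_const, Finset.card_univ,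
    Fintype.card_fin, Nat.cast_smul_eq_nsmul]

private theorem A4R1_pt_B {p : ℕ} (hp : p ≠ 0) {z : Ch PT p} (hz : z ∈ (lin PT).Z p) :
    z ∈ (lin PT).B p := by
  obtain ⟨k, rfl⟩ := Nat.exists_eq_succ_of_ne_zero hp
  have h1 : (lin PT).d k z = 0 := hz
  rw [A4R1_pt_d] at h1
  rcases Nat.even_or_odd k with hk | hk
  · refine ⟨(z : Ch PT (k + 2)), ?_⟩
    have h2 := A4R1_pt_d (k + 1) z
    refine h2.trans ?_
    have h3 : ((k + 1 + 2 : ℕ) : ZMod 2) = 1 := by
      obtain ⟨j, rfl⟩ := hk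
      have : (2 : ZMod 2) = 0 := rfl
      push_cast
      linear_combination ((j : ZMod 2) + 1) * this
    rw [h3, one_smul]
  · have h3 : ((k + 2 : ℕ) : ZMod 2) = 1 := by
      obtain ⟨j, rfl⟩ := hk
      have : (2 : ZMod 2) = 0 := rfl
      push_cast
      linear_combination ((j : ZMod 2) + 1) * this
    rw [h3, one_smul] at h1
    have h4 : z = 0 := h1
    rw [h4]
    exact Submodule.zero_mem _

private theorem A4R1_crs_zero {P Q : SV} {n : ℕ} (x : P.V 0) (y : Q.V n) :
    crs n x y = P.act (cst 0) x ⊗ₜ[ZMod 2] y := by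
  classical
  unfold crs
  have hu : ∀ a : Mo n 0, a = cst 0 := fun a => OrderHom.ext _ _ (funext fun i =>
    Fin.ext (by have := (a i).2; have h2 := ((cst 0 : Mo n 0) i).2; omega))
  rw [Finset.sum_eq_single (cst 0 : Mo n 0) (fun a _ ha => absurd (hu a) ha)
    (fun h => absurd (Finset.mem_univ _) h),
    Finset.sum_eq_single (OrderHom.id : Mo n n)]
  · rw [if_pos, Q.act_id]
    exact ⟨by omega, fun i => by
      have h2 : (((cst 0 : Mo n 0) i : Fin 1) : ℕ) = 0 := by
        have := ((cst 0 : Mo n 0) i).2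
        omega
      rw [h2, zero_add]
      rfl⟩
  · intro b _ hb
    rw [if_neg]
    rintro ⟨-, h⟩
    apply hb
    refine OrderHom.ext _ _ (funext fun i => Fin.ext ?_)
    have h1 := h i
    have h2 : (((cst 0 : Mo n 0) i : Fin 1) : ℕ) = 0 := by
      have := ((cst 0 : Mo n 0) i).2
      omega
    rw [h2, zero_add] at h1
    exact h1
  · intro h
    exact absurd (Finset.mem_univ _) h

private theorem A4R1_box_unit {n : ℕ} (a : Hc Z n) :
    boxF n (Hc.unit Z) a = a.comp (SV.Hmap (A4R1_q Z Z) n) := by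
  apply boxF_ext
  intro p' q' h x hx y hy
  rw [LinearMap.comp_apply, SV.Hmap_cls]
  by_cases hp : p' = 0
  · subst hp
    obtain rfl : q' = n := by omega
    rw [boxF_crs h _ _ x hx y hy, Hc.unit_cls]
    have h1 : (A4R1_q Z Z).app q' (crs q' x y) = A4R1_eps Z 0 x • y := by
      rw [A4R1_crs_zero]
      refine (A4R1_q_tmul Z Z q' _ y).trans ?_
      congr 1
      exact A4R1_eps_map (Z.act (cst 0)) x
    have h2 : (Finsupp.sum x fun _ r => r) = A4R1_eps Z 0 x := by
      show _ = Finsupp.linearCombination (ZMod 2) (fun _ : Z.S 0 => (1 : ZMod 2)) x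
      rw [Finsupp.linearCombination_apply]
      simp
    rw [A3Box_cls_congr h1 _ (((lin Z).Z q').smul_mem _ hy), A3Box_cls_smul, map_smul, h2,
      smul_eq_mul]
  · rw [boxF_crs_ne _ _ hp x hx y hy]
    have h1 : (A4R1_q Z Z).app n (crs n x y) =
        (A4R1_q PT Z).app n (crs n ((linMap (A4R1_pt Z)).app p' x) y) := by
      rw [← A4R1_q_pt]
      show (A4R1_q PT Z).app n (((linMap (A4R1_pt Z)).tens (SVHom.id (lin Z))).app n
        (crs n x y)) = _
      rw [crs_map]
      rfl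
    have h2 : (A4R1_q Z Z).app n (crs n x y) ∈ (lin Z).B n := by
      rw [h1]
      exact (A4R1_q PT Z).map_B (crs_mem_B_left (A4R1_pt_B hp ((linMap (A4R1_pt Z)).map_Z hx)) hy)
    have h3 : (lin Z).cls ((A4R1_q Z Z).app n (crs n x y))
        ((A4R1_q Z Z).map_Z (crs_mem_Z hx hy)) = (lin Z).cls 0 (Submodule.zero_mem _) :=
      A3Box_cls_eq _ _ (by rw [add_zero]; exact h2)
    rw [h3, A3Box_cls_zero rfl, map_zero]

theorem cup_comm {p q n : ℕ} (a : Hc Z p) (b : Hc Z q) : cup n a b = cup n b a := by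
  apply LinearMap.ext
  intro u
  show boxF n a b (SV.Hmap (linDiag Z) n u) = boxF n b a (SV.Hmap (linDiag Z) n u)
  rw [← boxF_swap a b, LinearMap.comp_apply, ← SV.Hmap_comp, A4R1_swap]

theorem cup_assoc {p q r m m' n : ℕ} (hm : p + q = m) (hm' : q + r = m') (hn : p + q + r = n)
    (a : Hc Z p) (b : Hc Z q) (c : Hc Z r) :
    cup n (cup m a b) c = cup n a (cup m' b c) := by
  have e1 : ∀ {k : ℕ} (d : Hc Z k), d.comp (SV.Hmap (SVHom.id (lin Z)) k) = d := by
    intro k d
    apply LinearMap.ext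
    intro u
    rw [LinearMap.comp_apply, SV.Hmap_id]
  have h1 := boxF_map (linDiag Z) (SVHom.id (lin Z)) (n := n) (boxF m a b) c
  rw [e1] at h1
  have h2 := boxF_map (SVHom.id (lin Z)) (linDiag Z) (n := n) a (boxF m' b c)
  rw [e1] at h2
  apply LinearMap.ext
  intro u
  show boxF n ((boxF m a b).comp (SV.Hmap (linDiag Z) m)) c (SV.Hmap (linDiag Z) n u) =
    boxF n a ((boxF m' b c).comp (SV.Hmap (linDiag Z) m')) (SV.Hmap (linDiag Z) n u)
  rw [← h1, ← h2, A4R1_assoc hm hm' hn a b c]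
  simp only [LinearMap.comp_apply]
  rw [← SV.Hmap_comp, ← SV.Hmap_comp, ← SV.Hmap_comp, A4R1_coassoc]

theorem cup_unit {n : ℕ} (a : Hc Z n) : cup n (Hc.unit Z) a = a := by
  apply LinearMap.ext
  intro u
  show boxF n (Hc.unit Z) a (SV.Hmap (linDiag Z) n u) = a u
  rw [A4R1_box_unit, LinearMap.comp_apply, ← SV.Hmap_comp, A4R1_q_diag, SV.Hmap_id]

theorem Hc.map_cup (f : Hom Z Z') {p q : ℕ} (n : ℕ) (a : Hc Z' p) (b : Hc Z' q) :
    Hc.map f n (cup n a b) = cup n (Hc.map f p a) (Hc.map f q b) := by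
  apply LinearMap.ext
  intro u
  show boxF n a b (SV.Hmap (linDiag Z') n (SV.Hmap (linMap f) n u)) =
    boxF n (a.comp (SV.Hmap (linMap f) p)) (b.comp (SV.Hmap (linMap f) q))
      (SV.Hmap (linDiag Z) n u)
  rw [← boxF_map, LinearMap.comp_apply, ← SV.Hmap_comp, ← SV.Hmap_comp, A4R1_nat]

theorem Hc.map_unit (f : Hom Z Z') : Hc.map f 0 (Hc.unit Z') = Hc.unit Z := by
  apply LinearMap.ext
  intro u
  obtain ⟨z, hz, rfl⟩ := A3Box_exists_cls u
  show Hc.unit Z' (SV.Hmap (linMap f) 0 ((lin Z).cls z hz)) = _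
  rw [SV.Hmap_cls, Hc.unit_cls, Hc.unit_cls]
  show (Finsupp.mapDomain (f.app 0) z).sum (fun _ r => r) = _
  exact Finsupp.sum_mapDomain_index (fun _ => rfl) (fun _ _ _ => rfl)

end MM

end

/-! ### from `Lib_MP_33f7bb_d.A4R2` -/

section

/-!
# A4-02: the commutative ring `CR Z` and the ring homomorphisms `CR.map`

Everything follows from the homogeneous statements of `A4R1` by the usual manipulations of double
sums (`Finset.sum_sigma'`, `Finset.Nat.sum_antidiagonal_eq_sum_range_succ_mk`; the proof of associativity for power series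
`PowerSeries`/`Finset.Nat.sum_antidiagonal_triple_comm`-like reindexing; all terms with wrong degrees vanish by `cup_ne`).
Suggestion: rewrite `(a * b) n = ∑ ij ∈ antidiagonal n, cup n (a ij.1) (b ij.2)`.
-/

namespace MM

variable {Z Z' Z'' : SS}

private theorem A4R2_mul (a b : CR Z) (n : ℕ) :
    (a * b) n = ∑ ij ∈ Finset.HasAntidiagonal.antidiagonal n, cup n (a ij.1) (b ij.2) := by
  rw [CR.mul_apply]
  exact (Finset.Nat.sum_antidiagonal_eq_sum_range_succ_mk
    (fun ij : ℕ × ℕ => cup n (a ij.1) (b ij.2)) n).symm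

private theorem A4R2_sum_left {ι : Type} (s : Finset ι) {p q : ℕ} (n : ℕ) (f : ι → Hc Z p)
    (b : Hc Z q) : cup n (∑ i ∈ s, f i) b = ∑ i ∈ s, cup n (f i) b :=
  map_sum (AddMonoidHom.mk' (fun a : Hc Z p => cup n a b) (fun a a' => cup_add_left a a' b)) f s

private theorem A4R2_sum_right {ι : Type} (s : Finset ι) {p q : ℕ} (n : ℕ) (a : Hc Z p)
    (f : ι → Hc Z q) : cup n a (∑ i ∈ s, f i) = ∑ i ∈ s, cup n a (f i) :=
  map_sum (AddMonoidHom.mk' (fun b : Hc Z q => cup n a b) (fun b b' => cup_add_right a b b')) f s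

theorem CR.mul_comm' (a b : CR Z) : a * b = b * a := by
  funext n
  rw [A4R2_mul, A4R2_mul, ← Finset.Nat.sum_antidiagonal_swap]
  refine Finset.sum_congr rfl fun ij _ => ?_
  exact cup_comm _ _

theorem CR.mul_assoc' (a b c : CR Z) : a * b * c = a * (b * c) := by
  funext n
  rw [A4R2_mul, A4R2_mul]
  have h1 : ∀ ij ∈ Finset.HasAntidiagonal.antidiagonal n, cup n ((a * b) ij.1) (c ij.2) =
      ∑ kl ∈ Finset.HasAntidiagonal.antidiagonal ij.1, cup n (cup ij.1 (a kl.1) (b kl.2)) (c ij.2) := by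
    intro ij _
    rw [A4R2_mul, A4R2_sum_left]
  have h2 : ∀ ij ∈ Finset.HasAntidiagonal.antidiagonal n, cup n (a ij.1) ((b * c) ij.2) =
      ∑ kl ∈ Finset.HasAntidiagonal.antidiagonal ij.2, cup n (a ij.1) (cup ij.2 (b kl.1) (c kl.2)) := by
    intro ij _
    rw [A4R2_mul, A4R2_sum_right]
  rw [Finset.sum_congr rfl h1, Finset.sum_congr rfl h2, Finset.sum_sigma', Finset.sum_sigma']
  refine Finset.sum_nbij' (fun x => ⟨(x.2.1, x.2.2 + x.1.2), (x.2.2, x.1.2)⟩)
    (fun x => ⟨(x.1.1 + x.2.1, x.2.2), (x.1.1, x.2.1)⟩) ?_ ?_ ?_ ?_ ?_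
  · rintro ⟨⟨i, j⟩, ⟨k, l⟩⟩ h
    simp only [Finset.mem_sigma, Finset.HasAntidiagonal.mem_antidiagonal] at h ⊢
    have h1 : i + j = n := h.1
    have h2 : k + l = i := h.2
    refine ⟨?_, trivial⟩
    show k + (l + j) = n
    omega
  · rintro ⟨⟨i, j⟩, ⟨k, l⟩⟩ h
    simp only [Finset.mem_sigma, Finset.HasAntidiagonal.mem_antidiagonal] at h ⊢
    have h1 : i + j = n := h.1
    have h2 : k + l = j := h.2
    refine ⟨?_, trivial⟩
    show i + k + l = n
    omega
  · rintro ⟨⟨i, j⟩, ⟨k, l⟩⟩ h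
    simp only [Finset.mem_sigma, Finset.HasAntidiagonal.mem_antidiagonal] at h
    obtain ⟨h, rfl⟩ := h
    rfl
  · rintro ⟨⟨i, j⟩, ⟨k, l⟩⟩ h
    simp only [Finset.mem_sigma, Finset.HasAntidiagonal.mem_antidiagonal] at h
    obtain ⟨h, rfl⟩ := h
    rfl
  · rintro ⟨⟨i, j⟩, ⟨k, l⟩⟩ h
    simp only [Finset.mem_sigma, Finset.HasAntidiagonal.mem_antidiagonal] at h
    have h1 : i + j = n := h.1
    have h2 : k + l = i := h.2
    exact cup_assoc h2 rfl (by omega) (a k) (b l) (c j)

theorem CR.one_mul' (a : CR Z) : 1 * a = a := by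
  funext n
  rw [CR.mul_apply, Finset.sum_range_succ', Finset.sum_eq_zero, zero_add]
  · exact cup_unit (a n)
  · intro k _
    rw [CR.one_succ, cup_zero_left]

theorem CR.mul_add' (a b c : CR Z) : a * (b + c) = a * b + a * c := by
  funext n
  show (a * (b + c)) n = (a * b) n + (a * c) n
  rw [CR.mul_apply, CR.mul_apply, CR.mul_apply, ← Finset.sum_add_distrib]
  refine Finset.sum_congr rfl fun k _ => ?_
  exact cup_add_right (a k) (b (n - k)) (c (n - k))

theorem CR.zero_mul' (a : CR Z) : 0 * a = 0 := by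
  funext n
  rw [CR.mul_apply]
  refine Finset.sum_eq_zero fun k _ => ?_
  exact cup_zero_left (a (n - k))

noncomputable instance : CommRing (CR Z) :=
  { (inferInstance : AddCommGroup (CR Z)) with
    mul := (· * ·)
    one := 1
    mul_comm := CR.mul_comm'
    mul_assoc := CR.mul_assoc'
    one_mul := CR.one_mul'
    mul_one := fun a => by rw [CR.mul_comm', CR.one_mul']
    left_distrib := CR.mul_add'
    right_distrib := fun a b c => by
      rw [CR.mul_comm', CR.mul_add', CR.mul_comm' c a, CR.mul_comm' c b]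
    zero_mul := CR.zero_mul'
    mul_zero := fun a => by rw [CR.mul_comm', CR.zero_mul']
    nsmul := fun n a => n • a
    nsmul_zero := fun a => zero_smul ℕ a
    nsmul_succ := fun n a => succ_nsmul a n
    zsmul := fun n a => n • a
    zsmul_zero' := fun a => zero_smul ℤ a
    zsmul_succ' := fun n a => SubNegMonoid.zsmul_succ' n a
    zsmul_neg' := fun n a => SubNegMonoid.zsmul_neg' n a }

private theorem A4R2_zmod (r : ZMod 2) : r = 0 ∨ r = 1 := by
  revert r
  decide

theorem CR.smul_mul' (r : ZMod 2) (a b : CR Z) : (r • a) * b = r • (a * b) := by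
  rcases A4R2_zmod r with rfl | rfl
  · rw [zero_smul, zero_smul, zero_mul]
  · rw [one_smul, one_smul]

noncomputable instance : Algebra (ZMod 2) (CR Z) :=
  Algebra.ofModule CR.smul_mul' (fun r a b => by
    rw [mul_comm, CR.smul_mul', mul_comm])

/-- pull back as a ring homomorphism -/
noncomputable def CR.map (f : Hom Z Z') : CR Z' →+* CR Z where
  toFun a n := Hc.map f n (a n)
  map_zero' := funext fun n => map_zero (Hc.map f n)
  map_add' a b := funext fun n => map_add (Hc.map f n) (a n) (b n)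
  map_one' := by
    funext n
    cases n with
    | zero => exact Hc.map_unit f
    | succ n =>
      show Hc.map f (n + 1) ((1 : CR Z') (n + 1)) = (1 : CR Z) (n + 1)
      rw [CR.one_succ, CR.one_succ, map_zero]
  map_mul' a b := by
    funext n
    show Hc.map f n ((a * b) n) =
      ∑ k ∈ Finset.range (n + 1), cup n (Hc.map f k (a k)) (Hc.map f (n - k) (b (n - k)))
    rw [CR.mul_apply, map_sum]
    exact Finset.sum_congr rfl fun k _ => Hc.map_cup f n _ _

@[simp] theorem CR.map_apply (f : Hom Z Z') (a : CR Z') (n : ℕ) :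
    CR.map f a n = Hc.map f n (a n) := rfl

theorem CR.map_comp (g : Hom Z' Z'') (f : Hom Z Z') (a : CR Z'') :
    CR.map (g.comp f) a = CR.map f (CR.map g a) := by
  funext n
  refine LinearMap.ext fun x => ?_
  show a n (SV.Hmap (linMap (g.comp f)) n x) = a n (SV.Hmap (linMap g) n (SV.Hmap (linMap f) n x))
  rw [← SV.Hmap_comp]
  have h : linMap (g.comp f) = (linMap g).comp (linMap f) := by
    apply SVHom.ext
    funext m
    apply LinearMap.ext
    intro z
    show Finsupp.mapDomain _ z = Finsupp.mapDomain _ (Finsupp.mapDomain _ z)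
    rw [← Finsupp.mapDomain_comp]
    rfl
  rw [h]

theorem CR.map_id (a : CR Z) : CR.map (Hom.id Z) a = a := by
  funext n
  refine LinearMap.ext fun x => ?_
  show a n (SV.Hmap (linMap (Hom.id Z)) n x) = a n x
  have h : linMap (Hom.id Z) = SVHom.id (lin Z) := by
    apply SVHom.ext
    funext m
    apply LinearMap.ext
    intro z
    show Finsupp.mapDomain (fun y => y) z = z
    exact Finsupp.mapDomain_id
  rw [h, SV.Hmap_id]

theorem CR.map_smul (f : Hom Z Z') (r : ZMod 2) (a : CR Z') :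
    CR.map f (r • a) = r • CR.map f a :=
  funext fun n => LinearMap.map_smul (Hc.map f n) r (a n)

private theorem A4R2_hom_same (n : ℕ) (a : Hc Z n) : CR.hom n a n = a := by
  show (Pi.single n a : ∀ n, Hc Z n) n = a
  exact Pi.single_eq_same n a

private theorem A4R2_hom_ne {n m : ℕ} (h : m ≠ n) (a : Hc Z n) : CR.hom n a m = 0 := by
  show (Pi.single n a : ∀ n, Hc Z n) m = 0
  exact Pi.single_eq_of_ne h a

/-- products of homogeneous elements -/
theorem CR.hom_mul_hom {p q : ℕ} (a : Hc Z p) (b : Hc Z q) :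
    CR.hom p a * CR.hom q b = CR.hom (p + q) (cup (p + q) a b) := by
  funext n
  rw [A4R2_mul]
  by_cases hn : n = p + q
  · subst hn
    rw [A4R2_hom_same, Finset.sum_eq_single (p, q)]
    · rw [A4R2_hom_same, A4R2_hom_same]
    · rintro ⟨i, j⟩ hij hne
      rw [Finset.HasAntidiagonal.mem_antidiagonal] at hij
      have hi : i ≠ p := by
        rintro rfl
        refine hne ?_
        have hij' : i + j = i + q := hij
        rw [show j = q by omega]
      show cup (p + q) (CR.hom p a i) (CR.hom q b j) = 0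
      rw [A4R2_hom_ne hi, cup_zero_left]
    · intro h
      exact absurd ((Finset.HasAntidiagonal.mem_antidiagonal (a := (p, q))).2 rfl) h
  · rw [A4R2_hom_ne hn]
    refine Finset.sum_eq_zero ?_
    rintro ⟨i, j⟩ hij
    rw [Finset.HasAntidiagonal.mem_antidiagonal] at hij
    have hij' : i + j = n := hij
    show cup n (CR.hom p a i) (CR.hom q b j) = 0
    by_cases hi : i = p
    · have hj : j ≠ q := by
        rintro rfl
        exact hn (by omega)
      rw [A4R2_hom_ne hj, cup_zero_right]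
    · rw [A4R2_hom_ne hi, cup_zero_left]

theorem CR.map_hom (f : Hom Z Z') (n : ℕ) (a : Hc Z' n) :
    CR.map f (CR.hom n a) = CR.hom n (Hc.map f n a) := by
  funext m
  rw [CR.map_apply]
  by_cases h : m = n
  · subst h
    rw [A4R2_hom_same, A4R2_hom_same]
  · rw [A4R2_hom_ne h, A4R2_hom_ne h, map_zero]

/-- `a` is homogeneous of degree `n` -/
def CR.IsHom (n : ℕ) (a : CR Z) : Prop := ∀ m, m ≠ n → a m = 0

theorem CR.isHom_hom (n : ℕ) (a : Hc Z n) : CR.IsHom n (CR.hom n a) :=
  fun _ hm => A4R2_hom_ne hm a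

theorem CR.IsHom.eq {n : ℕ} {a : CR Z} (h : CR.IsHom n a) : a = CR.hom n (a n) := by
  funext m
  by_cases hm : m = n
  · subst hm
    rw [A4R2_hom_same]
  · rw [A4R2_hom_ne hm, h m hm]

theorem CR.IsHom.mul {n m : ℕ} {a b : CR Z} (ha : CR.IsHom n a) (hb : CR.IsHom m b) :
    CR.IsHom (n + m) (a * b) := by
  rw [ha.eq, hb.eq, CR.hom_mul_hom]
  exact CR.isHom_hom _ _

theorem CR.isHom_one : CR.IsHom 0 (1 : CR Z) := by
  intro m hm
  obtain ⟨k, rfl⟩ : ∃ k, m = k + 1 := ⟨m - 1, by omega⟩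
  exact CR.one_succ Z k

theorem CR.IsHom.map {n : ℕ} {a : CR Z'} (ha : CR.IsHom n a) (f : Hom Z Z') :
    CR.IsHom n (CR.map f a) := by
  intro m hm
  rw [CR.map_apply, ha m hm, map_zero]

theorem CR.IsHom.prod {I : Type} (s : Finset I) (n : I → ℕ) (a : I → CR Z)
    (h : ∀ i ∈ s, CR.IsHom (n i) (a i)) : CR.IsHom (∑ i ∈ s, n i) (∏ i ∈ s, a i) := by
  classical
  induction s using Finset.induction_on with
  | empty =>
    rw [Finset.sum_empty, Finset.prod_empty]
    exact CR.isHom_one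
  | insert j s hj ih =>
    rw [Finset.sum_insert hj, Finset.prod_insert hj]
    exact (h j (Finset.mem_insert_self j s)).mul
      (ih fun i hi => h i (Finset.mem_insert_of_mem hi))

end MM

end
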