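import Pool.Agent.Lib_MP_33f7bb_m.G04

/-!
# MP_33f7bb_an, negative answer to Q1: merged library part G05

Concatenation of files of `Lib_MP_33f7bb_an` and `Lib_MP_33f7bb_d` (each in its own section), only to save build time.
-/

/-! ### from `Lib_MP_33f7bb_d.A700` -/

section

/-!
# A7-00: homology of `B(ZMod 2)`

`exists_eB`: the reduced homology of `K1 = B(ZMod 2)` is one dimensional in every degree `j ≥ 1`; `RVK1_zero`: it is
zero in degree `0`.
Proof.  Explicit cycle: the sum of ALL `n`-simplices of `B` is a Moore cycle for `n ≥ 1` (every fibre of a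
face map has even cardinality).  An element of the reduced chains all of whose faces `δ_i`, `i ≥ 1`, vanish is
`0` or this sum (the coefficient function is constant away from the base simplex: flip one coordinate at a
time).  The rest follows from the Moore representatives (`A005`).
-/

open scoped TensorProduct

namespace MM

private noncomputable abbrev A700_ft (n : ℕ) : Fintype (K1.V n) :=
  @Fintype.ofFinite _ (inferInstanceAs (Finite {f : Fin (n + 1) → ZMod 2 // f ∈ LinearMap.ker
    (LinearMap.proj (R := ZMod 2) (φ := fun _ : Fin (n + 1) => ZMod 2) 0)}))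

attribute [local instance] A700_ft

/-- the sum of all simplices in the reduced chains of `B(ZMod 2)` -/
private noncomputable def A700_s (n : ℕ) : (RV K1).V n :=
  (linSub (Sub.pt (P := K1.ss) K1.zv)).proj.app n (∑ f : K1.V n, Finsupp.single f 1)

private def A700_u {n : ℕ} (i : Fin n) : K1.V n :=
  ⟨Pi.single i.succ 1, by simp [LinearMap.mem_ker]⟩

private def A700_one (n : ℕ) : K1.V n :=
  ⟨fun i => if i = 0 then 0 else 1, by simp [LinearMap.mem_ker]⟩

private theorem A700_zero {n : ℕ} (f : K1.V n) : f.1 0 = 0 := by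
  have := f.2
  simpa only [LinearMap.mem_ker, LinearMap.proj_apply] using this

private theorem A700_deg (n : ℕ) : K1.ss.deg K1.zv n = (0 : K1.V n) := map_zero (K1.act _)

private theorem A700_proj_zero_iff {n : ℕ} (c : Ch K1.ss n) :
    (linSub (Sub.pt (P := K1.ss) K1.zv)).proj.app n c = 0 ↔ ∀ f : K1.V n, f ≠ 0 → c f = 0 := by
  have h1 : (linSub (Sub.pt (P := K1.ss) K1.zv)).proj.app n c = 0 ↔
      c ∈ (linSub (Sub.pt (P := K1.ss) K1.zv)).car n := Submodule.Quotient.mk_eq_zero _
  rw [h1]
  constructor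
  · intro h f hf
    by_contra hc
    have h2 : f ∈ (Sub.pt (P := K1.ss) K1.zv).car n := h (Finsupp.mem_support_iff.2 hc)
    have h3 : f = K1.ss.deg K1.zv n := h2
    rw [A700_deg] at h3
    exact hf h3
  · intro h f hf
    show f = K1.ss.deg K1.zv n
    rw [A700_deg]
    by_contra hne
    exact (Finsupp.mem_support_iff.1 hf) (h f hne)

private theorem A700_zmod (x : ZMod 2) : x = 0 ∨ x = 1 := by
  fin_cases x
  · exact Or.inl rfl
  · exact Or.inr rfl

private theorem A700_face_apply {n : ℕ} (i : Fin (n + 1)) (f : K1.V (n + 1)) (j : Fin (n + 1)) :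
    (K1.act (dlt i.succ) f).1 j = f.1 (i.succ.succAbove j) := by
  show f.1 ((dlt i.succ) j) - f.1 ((dlt i.succ) 0) = _
  have h0 : (dlt i.succ : Mo n (n + 1)) 0 = 0 := by
    show i.succ.succAbove 0 = 0
    exact Fin.succAbove_ne_zero_zero (Fin.succ_ne_zero i)
  rw [h0, A700_zero, sub_zero]
  rfl

/-- the fibre of a face map -/
private theorem A700_fibre {n : ℕ} (i : Fin (n + 1)) (f g : K1.V (n + 1)) :
    K1.act (dlt i.succ) g = K1.act (dlt i.succ) f ↔ (g = f ∨ g = f + A700_u i) := by
  constructor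
  · intro h
    have h1 : ∀ j, j ≠ i.succ → g.1 j = f.1 j := by
      intro j hj
      obtain ⟨k, rfl⟩ := Fin.exists_succAbove_eq hj
      have := congrFun (congrArg Subtype.val h) k
      rwa [A700_face_apply, A700_face_apply] at this
    rcases A700_zmod (g.1 i.succ - f.1 i.succ) with h2 | h2
    · left
      apply Subtype.ext
      funext j
      by_cases hj : j = i.succ
      · rw [hj]; exact sub_eq_zero.1 h2
      · exact h1 j hj
    · right
      apply Subtype.ext
      funext j
      show g.1 j = f.1 j + (Pi.single i.succ 1 : Fin (n + 2) → ZMod 2) j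
      by_cases hj : j = i.succ
      · rw [hj, Pi.single_eq_same, ← h2]; ring
      · rw [Pi.single_eq_of_ne hj, add_zero]; exact h1 j hj
  · rintro (rfl | rfl)
    · rfl
    · apply Subtype.ext
      funext j
      rw [A700_face_apply, A700_face_apply]
      show f.1 _ + (Pi.single i.succ 1 : Fin (n + 2) → ZMod 2) _ = _
      rw [Pi.single_eq_of_ne (Fin.succAbove_ne _ _), add_zero]

private theorem A700_u_ne {n : ℕ} (i : Fin (n + 1)) : A700_u i ≠ 0 := by
  intro h
  have := congrFun (congrArg Subtype.val h) i.succ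
  simp [A700_u] at this

private theorem A700_flip {n : ℕ} (c : Ch K1.ss (n + 1)) (i : Fin (n + 1))
    (h : (RV K1).act (dlt i.succ) ((linSub (Sub.pt (P := K1.ss) K1.zv)).proj.app (n + 1) c) = 0)
    (f : K1.V (n + 1)) (hf : f ≠ 0) (hf' : f ≠ A700_u i) : c f = c (f + A700_u i) := by
  classical
  have h1 : (linSub (Sub.pt (P := K1.ss) K1.zv)).proj.app n
      (Finsupp.mapDomain (K1.ss.act (dlt i.succ)) c) = 0 := h
  rw [A700_proj_zero_iff] at h1
  have h2 := h1 (K1.act (dlt i.succ) f) (by
    intro h3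
    have h4 : K1.act (dlt i.succ) f = K1.act (dlt i.succ) 0 := by rw [h3, map_zero]
    rcases (A700_fibre i 0 f).1 h4 with h5 | h5
    · exact hf h5
    · rw [zero_add] at h5; exact hf' h5)
  rw [Finsupp.mapDomain, Finsupp.sum_fintype _ _ (by simp), Finsupp.finsetSum_apply] at h2
  have h3 : ∀ g : K1.V (n + 1), (Finsupp.single (K1.ss.act (dlt i.succ) g) (c g) : Ch K1.ss n)
      (K1.act (dlt i.succ) f) = if (g = f ∨ g = f + A700_u i) then c g else 0 := by
    intro g
    rw [Finsupp.single_apply]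
    exact if_congr (A700_fibre i f g) rfl rfl
  have hne : f ≠ f + A700_u i := by
    intro h4
    have : A700_u i = 0 := by
      have h5 : f + 0 = f + A700_u i := by rw [add_zero]; exact h4
      exact (add_left_cancel h5).symm
    exact A700_u_ne i this
  have h4 : ∑ g : K1.V (n + 1), (if (g = f ∨ g = f + A700_u i) then c g else 0) =
      c f + c (f + A700_u i) := by
    rw [← Finset.sum_filter]
    have : (Finset.univ.filter fun g : K1.V (n + 1) => g = f ∨ g = f + A700_u i) =
        {f, f + A700_u i} := by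
      ext g; simp
    rw [this, Finset.sum_pair hne]
  have h5 : c f + c (f + A700_u i) = 0 := by
    rw [← h4]
    exact (Finset.sum_congr rfl fun g _ => (h3 g)).symm.trans h2
  have h6 : c f = - c (f + A700_u i) := eq_neg_of_add_eq_zero_left h5
  rw [h6]
  exact neg_eq' _

/-- elements with vanishing faces `δ_i`, `i ≥ 1` -/
private theorem A700_key {n : ℕ} (x : (RV K1).V (n + 1))
    (h : ∀ i : Fin (n + 1), (RV K1).act (dlt i.succ) x = 0) : x = 0 ∨ x = A700_s (n + 1) := by
  classical
  obtain ⟨c, rfl⟩ := Submodule.Quotient.mk_surjective _ x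
  have hflip : ∀ (i : Fin (n + 1)) (f : K1.V (n + 1)), f ≠ 0 → f ≠ A700_u i →
      c f = c (f + A700_u i) := fun i f => A700_flip c i (h i) f
  have hconst : ∀ (k : ℕ) (f : K1.V (n + 1)),
      (Finset.univ.filter fun i : Fin (n + 1) => f.1 i.succ = 0).card = k → f ≠ 0 →
      c f = c (A700_one (n + 1)) := by
    intro k
    induction k with
    | zero =>
      intro f hk _
      congr 1
      apply Subtype.ext
      funext j
      show f.1 j = if j = 0 then 0 else 1
      by_cases hj : j = 0
      · rw [if_pos hj, hj, A700_zero]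
      · rw [if_neg hj]
        obtain ⟨i, rfl⟩ := Fin.exists_succ_eq.2 hj
        rcases A700_zmod (f.1 i.succ) with h1 | h1
        · rw [Finset.card_eq_zero] at hk
          have : i ∈ (Finset.univ.filter fun i : Fin (n + 1) => f.1 i.succ = 0) := by simp [h1]
          rw [hk] at this
          simp at this
        · exact h1
    | succ k ih =>
      intro f hk hf
      have hne : (Finset.univ.filter fun i : Fin (n + 1) => f.1 i.succ = 0).Nonempty := by
        rw [← Finset.card_pos]; omega
      obtain ⟨i, hi⟩ := hne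
      rw [Finset.mem_filter] at hi
      have hi' : f.1 i.succ = 0 := hi.2
      have h1 : f ≠ A700_u i := by
        intro h2
        have := congrFun (congrArg Subtype.val h2) i.succ
        rw [hi'] at this
        simp [A700_u] at this
      rw [hflip i f hf h1]
      apply ih
      · have h2 : (Finset.univ.filter fun j : Fin (n + 1) => (f + A700_u i).1 j.succ = 0) =
            (Finset.univ.filter fun j : Fin (n + 1) => f.1 j.succ = 0).erase i := by
          ext j
          simp only [Finset.mem_filter, Finset.mem_univ, true_and, Finset.mem_erase]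
          show f.1 j.succ + (Pi.single i.succ 1 : Fin (n + 2) → ZMod 2) j.succ = 0 ↔ _
          by_cases hj : j = i
          · subst hj
            rw [Pi.single_eq_same, hi']
            simp
          · rw [Pi.single_eq_of_ne (fun h3 => hj (Fin.succ_injective _ h3)), add_zero]
            simp [hj]
        rw [h2, Finset.card_erase_of_mem (by simp [hi']), hk]
        rfl
      · intro h2
        have := congrFun (congrArg Subtype.val h2) i.succ
        have h3 : f.1 i.succ + (Pi.single i.succ 1 : Fin (n + 2) → ZMod 2) i.succ = 0 := this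
        rw [Pi.single_eq_same, hi'] at h3
        simp at h3
  have hall : ∀ f : K1.V (n + 1), f ≠ 0 → c f = c (A700_one (n + 1)) := fun f hf =>
    hconst _ f rfl hf
  have hsum : ∀ f : K1.V (n + 1),
      (∑ g : K1.V (n + 1), (Finsupp.single g 1 : Ch K1.ss (n + 1))) f = 1 := by
    intro f
    rw [Finsupp.finsetSum_apply]
    simp [Finsupp.single_apply]
  rcases A700_zmod (c (A700_one (n + 1))) with h1 | h1
  · left
    exact (A700_proj_zero_iff c).2 fun f hf => by rw [hall f hf, h1]
  · right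
    rw [← sub_eq_zero]
    show (linSub (Sub.pt (P := K1.ss) K1.zv)).proj.app (n + 1) c -
      (linSub (Sub.pt (P := K1.ss) K1.zv)).proj.app (n + 1) _ = 0
    rw [← map_sub]
    exact (A700_proj_zero_iff _).2 fun f hf => by
      rw [Finsupp.sub_apply, hsum, hall f hf, h1, sub_self]

private theorem A700_s_face {n : ℕ} (i : Fin (n + 2)) :
    (RV K1).act (dlt i) (A700_s (n + 1)) = 0 := by
  classical
  have hu : ∃ u : K1.V (n + 1), u ≠ 0 ∧ K1.act (dlt i) u = 0 := by
    by_cases hi : i = 0
    · subst hi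
      refine ⟨A700_one (n + 1), ?_, ?_⟩
      · intro h
        have := congrFun (congrArg Subtype.val h) 1
        simp [A700_one] at this
      · apply Subtype.ext
        funext j
        show (if (dlt (0 : Fin (n + 2)) : Mo n (n + 1)) j = 0 then (0 : ZMod 2) else 1) -
          (if (dlt (0 : Fin (n + 2)) : Mo n (n + 1)) 0 = 0 then (0 : ZMod 2) else 1) = 0
        have h1 : ∀ j, (dlt (0 : Fin (n + 2)) : Mo n (n + 1)) j ≠ 0 := fun j => by
          show (0 : Fin (n + 2)).succAbove j ≠ 0
          exact Fin.succAbove_ne _ _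
        rw [if_neg (h1 j), if_neg (h1 0), sub_self]
    · obtain ⟨k, rfl⟩ := Fin.exists_succ_eq.2 hi
      refine ⟨A700_u k, A700_u_ne k, ?_⟩
      have := (A700_fibre k 0 (A700_u k)).2 (Or.inr (by rw [zero_add]))
      rw [this, map_zero]
  obtain ⟨u, hu, hu'⟩ := hu
  have h1 : (RV K1).act (dlt i) (A700_s (n + 1)) = (linSub (Sub.pt (P := K1.ss) K1.zv)).proj.app n
      (Finsupp.mapDomain (K1.ss.act (dlt i)) (∑ f : K1.V (n + 1), Finsupp.single f 1)) := rfl
  rw [h1]
  have h2 : (Finsupp.mapDomain (K1.ss.act (dlt i)) (∑ f : K1.V (n + 1), Finsupp.single f 1) :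
      Ch K1.ss n) = 0 := by
    rw [Finsupp.mapDomain_finsetSum]
    simp only [Finsupp.mapDomain_single]
    refine Finset.sum_involution (fun f _ => f + u) ?_ ?_ (fun _ _ => Finset.mem_univ _) ?_
    · intro f _
      have h3 : K1.ss.act (dlt i) (f + u) = K1.ss.act (dlt i) f := by
        show K1.act (dlt i) (f + u) = K1.act (dlt i) f
        rw [map_add, hu', add_zero]
      show (Finsupp.single (K1.ss.act (dlt i) f) 1 + Finsupp.single (K1.ss.act (dlt i) (f + u)) 1 :
        Ch K1.ss n) = 0
      rw [h3]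
      exact two_eq_zero' _
    · intro f _ _ h3
      apply hu
      have h5 : f + u = f + 0 := by rw [add_zero]; exact h3
      exact add_left_cancel h5
    · intro f _
      exact (add_assoc _ _ _).trans ((congrArg (f + ·) (two_eq_zero' u)).trans (add_zero f))
  rw [h2, map_zero]

private theorem A700_s_ne (n : ℕ) : A700_s (n + 1) ≠ 0 := by
  classical
  intro h
  have h1 := (A700_proj_zero_iff _).1 h (A700_one (n + 1)) (by
    intro h
    have := congrFun (congrArg Subtype.val h) 1
    simp [A700_one] at this)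
  rw [Finsupp.finsetSum_apply] at h1
  simp [Finsupp.single_apply] at h1

theorem exists_eB (j : ℕ) (hj : 1 ≤ j) :
    ∃ e : (RV K1).H j, e ≠ 0 ∧ ∀ y : (RV K1).H j, y = 0 ∨ y = e := by
  obtain ⟨n, rfl⟩ : ∃ n, j = n + 1 := ⟨j - 1, by omega⟩
  have hM : (RV K1).Moore (A700_s (n + 1)) := (moore_iff _).2 fun i => A700_s_face i
  refine ⟨(RV K1).cls (A700_s (n + 1)) (Moore.mem_Z hM), ?_, ?_⟩
  · intro h
    have h0 : (⟨A700_s (n + 1), Moore.mem_Z hM⟩ : (RV K1).Z (n + 1)) ∈
        Submodule.comap ((RV K1).Z (n + 1)).subtype ((RV K1).B (n + 1)) :=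
      (Submodule.Quotient.mk_eq_zero _).1 h
    have h1 : A700_s (n + 1) ∈ (RV K1).B (n + 1) := h0
    obtain ⟨w, hw⟩ := h1
    obtain ⟨w', hw0, hw1⟩ := moore_boundary (RV K1) _ hM w hw
    apply A700_s_ne n
    rcases A700_key w' hw1 with h2 | h2
    · rw [← hw0, h2, map_zero]
    · rw [← hw0, h2]; exact A700_s_face 0
  · intro y
    obtain ⟨⟨z, hz⟩, rfl⟩ := Submodule.Quotient.mk_surjective _ y
    obtain ⟨w, hw⟩ := exists_moore (RV K1) z hz
    have h1 := A700_key (z + (RV K1).d (n + 1) w) fun i => (moore_iff _).1 hw i.succ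
    rcases h1 with h1 | h1
    · left
      refine (Submodule.Quotient.mk_eq_zero _).2 ?_
      show z ∈ (RV K1).B (n + 1)
      refine ⟨w, ?_⟩
      have h2 : z = - (RV K1).d (n + 1) w := eq_neg_of_add_eq_zero_left h1
      rw [h2, neg_eq']
    · right
      refine (Submodule.Quotient.eq _).2 ?_
      show z - A700_s (n + 1) ∈ (RV K1).B (n + 1)
      refine ⟨w, ?_⟩
      rw [← h1, sub_eq', ← add_assoc, two_eq_zero', zero_add]

theorem RVK1_zero (y : (RV K1).H 0) : y = 0 := by
  obtain ⟨⟨z, hz⟩, rfl⟩ := Submodule.Quotient.mk_surjective _ y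
  obtain ⟨c, rfl⟩ := Submodule.Quotient.mk_surjective _ z
  refine (Submodule.Quotient.mk_eq_zero _).2 ?_
  show (Submodule.Quotient.mk c : (RV K1).V 0) ∈ (RV K1).B 0
  have h1 : (Submodule.Quotient.mk c : (RV K1).V 0) = 0 :=
    (A700_proj_zero_iff c).2 fun f hf => by
      exfalso
      apply hf
      apply Subtype.ext
      funext i
      have : i = 0 := Subsingleton.elim (α := Fin 1) _ _
      rw [this, A700_zero]
      rfl
  rw [h1]
  exact Submodule.zero_mem _

end MM

end

/-! ### from `Lib_MP_33f7bb_d.A7Def` -/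

section

/-!
# A7 definitions: pointed mapping spaces into simplicial vector spaces, the maps `psiHom`, the
interface `SqFam` of Steenrod operations, `QHData`.
-/

open scoped TensorProduct

namespace MM

/-- the simplicial vector space `Map_*(Z, V)` -/
def MapSV (Z : SS) (z₀ : Z.S 0) (V : SV) : SV where
  V t := ({ carrier := {f | (∀ {k n : ℕ} (g : Mo k n) (θ : Mo n t) (x : Z.S n),
              f k (θ.comp g, Z.act g x) = V.act g (f n (θ, x))) ∧
              ∀ (n : ℕ) (θ : Mo n t), f n (θ, Z.deg z₀ n) = 0}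
            add_mem' := fun {a b} ha hb => ⟨fun g θ x => by
              simp only [Pi.add_apply, ha.1 g θ x, hb.1 g θ x, map_add], fun n θ => by
              simp only [Pi.add_apply, ha.2 n θ, hb.2 n θ, add_zero]⟩
            zero_mem' := ⟨fun g θ x => by simp, fun n θ => rfl⟩
            smul_mem' := fun c a ha => ⟨fun g θ x => by
              simp only [Pi.smul_apply, ha.1 g θ x, map_smul], fun n θ => by
              simp only [Pi.smul_apply, ha.2 n θ, smul_zero]⟩ } :
          Submodule (ZMod 2) (∀ n, Mo n t × Z.S n → V.V n))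
  act {s t} h :=
    { toFun := fun f => ⟨fun n x => f.1 n (h.comp x.1, x.2),
        fun g θ x => f.2.1 g (h.comp θ) x, fun n θ => f.2.2 n (h.comp θ)⟩
      map_add' := fun _ _ => rfl
      map_smul' := fun _ _ => rfl }
  act_id _ := rfl
  act_comp _ _ _ := rfl

namespace MapSV

variable {Z : SS} {z₀ : Z.S 0} {V : SV} {t : ℕ}

/-- values of an element of the mapping space -/
def val (f : (MapSV Z z₀ V).V t) (n : ℕ) (x : Mo n t × Z.S n) : V.V n := f.1 n x

theorem val_nat (f : (MapSV Z z₀ V).V t) {k n : ℕ} (g : Mo k n) (θ : Mo n t) (x : Z.S n) :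
    val f k (θ.comp g, Z.act g x) = V.act g (val f n (θ, x)) := f.2.1 g θ x

theorem val_base (f : (MapSV Z z₀ V).V t) (n : ℕ) (θ : Mo n t) :
    val f n (θ, Z.deg z₀ n) = 0 := f.2.2 n θ

theorem val_moore {f : (MapSV Z z₀ V).V t} (hf : (MapSV Z z₀ V).Moore f) (n : ℕ) (θ : Mo n t)
    (hθ : ¬ Function.Surjective θ) (x : Z.S n) : val f n (θ, x) = 0 := by
  have h1 := hf n θ hθ
  have h2 := congrArg (fun g : (MapSV Z z₀ V).V n => val g n (OrderHom.id, x)) h1
  exact h2

/-- auxiliary: for fixed `θ` the map `[x] ↦ [f (θ, x)]` -/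
noncomputable def psi1 (f : (MapSV Z z₀ V).V t) (n : ℕ) (θ : Mo n t) :
    (R Z z₀).V n →ₗ[ZMod 2] (RV V).V n :=
  Submodule.liftQ _ (Finsupp.linearCombination (ZMod 2)
    (fun x : Z.S n => ((R.of V.zv).app n (val f n (θ, x)) : (RV V).V n))) (by
    intro c hc
    rw [LinearMap.mem_ker, Finsupp.linearCombination_apply]
    refine Finset.sum_eq_zero fun x hx => ?_
    have hx' : x = Z.deg z₀ n := hc hx
    have h1 : (R.of V.zv).app n (val f n (θ, x)) = (0 : (RV V).V n) := by
      rw [hx', val_base]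
      have := R.of_base V.zv n
      have h2 : V.ss.deg V.zv n = (0 : V.V n) := map_zero (V.act _)
      rw [h2] at this
      exact this
    show c x • _ = (0 : (RV V).V n)
    rw [h1, smul_zero])

theorem psi1_of (f : (MapSV Z z₀ V).V t) (n : ℕ) (θ : Mo n t) (x : Z.S n) :
    psi1 f n θ ((R.of z₀).app n x) = (R.of V.zv).app n (val f n (θ, x)) := by
  show Finsupp.linearCombination (ZMod 2) _ (Finsupp.single x 1) = _
  rw [Finsupp.linearCombination_single, one_smul]

/-- auxiliary bilinear map -/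
noncomputable def psi2 (f : (MapSV Z z₀ V).V t) (hf : (MapSV Z z₀ V).Moore f) (n : ℕ) :
    (KK t).V n →ₗ[ZMod 2] (R Z z₀).V n →ₗ[ZMod 2] (RV V).V n :=
  Submodule.liftQ _ (Finsupp.linearCombination (ZMod 2) (fun θ : Mo n t => psi1 f n θ)) (by
    intro c hc
    rw [LinearMap.mem_ker, Finsupp.linearCombination_apply]
    refine Finset.sum_eq_zero fun θ hθ => ?_
    have hθ' : ¬ Function.Surjective (θ : Mo n t) := hc hθ
    have h1 : psi1 f n θ = 0 := by
      apply LinearMap.ext
      intro x
      have hx : x ∈ Submodule.span (ZMod 2) (Set.range ((R.of z₀).app n)) := by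
        rw [R.span]; trivial
      induction hx using Submodule.span_induction with
      | mem x hx =>
        obtain ⟨y, rfl⟩ := hx
        rw [psi1_of, val_moore hf n θ hθ']
        have := R.of_base V.zv n
        have h2 : V.ss.deg V.zv n = (0 : V.V n) := map_zero (V.act _)
        rw [h2] at this
        exact this
      | zero => simp
      | add a b _ _ ha hb => rw [map_add, ha, hb, map_add]
      | smul r a _ ha => rw [map_smul, ha, map_smul]
    show c θ • psi1 f n θ = 0
    rw [h1, smul_zero])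

theorem psi2_of (f : (MapSV Z z₀ V).V t) (hf : (MapSV Z z₀ V).Moore f) (n : ℕ) (θ : Mo n t)
    (x : Z.S n) : psi2 f hf n ((linSub (bd t)).proj.app n (Finsupp.single θ 1))
      ((R.of z₀).app n x) = (R.of V.zv).app n (val f n (θ, x)) := by
  have h1 : psi2 f hf n ((linSub (bd t)).proj.app n (Finsupp.single θ 1)) = psi1 f n θ := by
    show Finsupp.linearCombination (ZMod 2) _ (Finsupp.single θ 1) = _
    rw [Finsupp.linearCombination_single, one_smul]
  rw [h1, psi1_of]

theorem KK_span (t n : ℕ) : Submodule.span (ZMod 2)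
    (Set.range (fun θ : Mo n t => (linSub (bd t)).proj.app n (Finsupp.single θ 1))) =
      (⊤ : Submodule (ZMod 2) ((KK t).V n)) := by
  rw [eq_top_iff]
  rintro x -
  obtain ⟨c, rfl⟩ := Submodule.Quotient.mk_surjective _ x
  induction c using Finsupp.induction_linear with
  | zero => exact Submodule.zero_mem _
  | add a b ha hb => exact Submodule.add_mem _ ha hb
  | single u r =>
    have : (Submodule.Quotient.mk (Finsupp.single u r) : (KK t).V n) =
        r • (linSub (bd t)).proj.app n (Finsupp.single u 1) := by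
      show _ = r • (Submodule.Quotient.mk (Finsupp.single u 1) : (KK t).V n)
      rw [← Submodule.Quotient.mk_smul, Finsupp.smul_single, smul_eq_mul, mul_one]
    rw [this]
    exact Submodule.smul_mem _ _ (Submodule.subset_span ⟨u, rfl⟩)

end MapSV

/-- the linear simplicial map `K'(t) ⊗ R Z → R V`, `[θ] ⊗ [x] ↦ [f (θ, x)]` -/
noncomputable def psiHom {Z : SS} {z₀ : Z.S 0} {V : SV} {t : ℕ} (f : (MapSV Z z₀ V).V t)
    (hf : (MapSV Z z₀ V).Moore f) : SVHom ((KK t).tens (R Z z₀)) (RV V) :=
  ⟨fun n => TensorProduct.lift (MapSV.psi2 f hf n), by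
    intro m n g u
    induction u using TensorProduct.induction_on with
    | zero => simp
    | add a b ha hb => rw [map_add, map_add, ha, hb, map_add, map_add]
    | tmul a b =>
      have ha : a ∈ Submodule.span (ZMod 2) (Set.range
          (fun θ : Mo n t => (linSub (bd t)).proj.app n (Finsupp.single θ 1))) := by
        rw [MapSV.KK_span]; trivial
      induction ha using Submodule.span_induction with
      | zero => simp
      | add a a' _ _ ha ha' => rw [TensorProduct.add_tmul, map_add, map_add, ha, ha', map_add, map_add]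
      | smul r a _ ha =>
        rw [← TensorProduct.smul_tmul', map_smul, map_smul, ha, map_smul, map_smul]
      | mem a ha =>
        obtain ⟨θ, rfl⟩ := ha
        have hb : b ∈ Submodule.span (ZMod 2) (Set.range ((R.of z₀).app n)) := by
          rw [R.span]; trivial
        induction hb using Submodule.span_induction with
        | zero => simp
        | add a a' _ _ ha ha' =>
          rw [TensorProduct.tmul_add, map_add, map_add, ha, ha', map_add, map_add]
        | smul r a _ ha =>
          rw [TensorProduct.tmul_smul, map_smul, map_smul, ha, map_smul, map_smul]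
        | mem b hb =>
          obtain ⟨x, rfl⟩ := hb
          show TensorProduct.lift (MapSV.psi2 f hf m) (TensorProduct.map _ _ (_ ⊗ₜ _)) = _
          rw [TensorProduct.map_tmul, TensorProduct.lift.tmul, TensorProduct.lift.tmul,
            MapSV.psi2_of]
          have h1 : (KK t).act g ((linSub (bd t)).proj.app n (Finsupp.single θ 1)) =
              (linSub (bd t)).proj.app m (Finsupp.single (θ.comp g) 1) := by
            rw [← (linSub (bd t)).proj.nat]
            congr 1
            exact Finsupp.mapDomain_single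
          have h2 : (R Z z₀).act g ((R.of z₀).app n x) = (R.of z₀).app m (Z.act g x) :=
            ((R.of z₀).nat g x).symm
          rw [h1, h2, MapSV.psi2_of, MapSV.val_nat]
          exact (R.of V.zv).nat g _⟩

theorem psiHom_of {Z : SS} {z₀ : Z.S 0} {V : SV} {t : ℕ} (f : (MapSV Z z₀ V).V t)
    (hf : (MapSV Z z₀ V).Moore f) (n : ℕ) (θ : Mo n t) (x : Z.S n) :
    (psiHom f hf).app n (((linSub (bd t)).proj.app n (Finsupp.single θ 1) : (KK t).V n) ⊗ₜ[ZMod 2]
      ((R.of z₀).app n x : (R Z z₀).V n)) = (R.of V.zv).app n (MapSV.val f n (θ, x)) :=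
  MapSV.psi2_of f hf n θ x

/-- the simplicial sphere `Δ^N/∂Δ^N` (base simplices = `none`) -/
noncomputable abbrev SpS (N : ℕ) : SS where
  S n := Option {θ : Mo n N // Function.Surjective θ}
  act f x := x.bind fun θ => open Classical in
    if h : Function.Surjective (θ.1.comp f) then some ⟨θ.1.comp f, h⟩ else none
  act_id x := by
    cases x with
    | none => rfl
    | some θ =>
      have h : Function.Surjective (θ.1.comp OrderHom.id) := θ.2
      simp only [Option.bind_some, dif_pos h]
      rfl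
  act_comp f g x := by
    cases x with
    | none => rfl
    | some θ =>
      by_cases h : Function.Surjective (θ.1.comp g)
      · simp only [Option.bind_some, dif_pos h]
        rfl
      · have h2 : ¬ Function.Surjective (θ.1.comp (g.comp f)) := fun h3 => h fun y => by
          obtain ⟨z, hz⟩ := h3 y
          exact ⟨f z, hz⟩
        simp only [Option.bind_some, dif_neg h, dif_neg h2, Option.bind_none]

/-- the fundamental simplex of the sphere -/
def SpS.top (N : ℕ) : (SpS N).S N := some ⟨OrderHom.id, fun x => ⟨x, rfl⟩⟩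

/-- composition with a pointed simplicial map -/
def MapSV.comp {Z : SS} {z₀ : Z.S 0} {V V' : SV} (g : Hom V.ss V'.ss)
    (hg : g.app 0 V.zv = V'.zv) : Hom (MapSV Z z₀ V).ss (MapSV Z z₀ V').ss :=
  ⟨fun t f => ⟨fun n x => g.app n (f.1 n x), fun {k n} h θ x => by
      show g.app k (f.1 k (θ.comp h, Z.act h x)) = V'.act h (g.app n (f.1 n (θ, x)))
      rw [f.2.1 h θ x]; exact g.nat h _, fun n θ => by
      show g.app n (f.1 n (θ, Z.deg z₀ n)) = 0
      rw [f.2.2 n θ]
      have h1 : (0 : V.V n) = V.ss.deg V.zv n := (map_zero (V.act _)).symm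
      rw [h1]
      show g.app n (V.ss.act _ V.zv) = 0
      rw [g.nat, hg]
      exact map_zero (V'.act _)⟩, fun _ _ => rfl⟩

/-! ## the interface of Steenrod operations on reduced cohomology -/

/-- Families of Steenrod operations `op n m : H~^n → H~^m` (meaning `Sq^(m-n)`). -/
structure SqFam where
  op : ∀ (Z : SS) (z₀ : Z.S 0) (n m : ℕ),
    Module.Dual (ZMod 2) ((R Z z₀).H n) →ₗ[ZMod 2] Module.Dual (ZMod 2) ((R Z z₀).H m)
  nat : ∀ {Z Z' : SS} (z₀ : Z.S 0) (z₀' : Z'.S 0) (f : Hom Z Z') (hf : f.app 0 z₀ = z₀')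
    (n m : ℕ) (y : Module.Dual (ZMod 2) ((R Z' z₀').H n)),
    (op Z' z₀' n m y).comp (SV.Hmap (R.map z₀ z₀' f hf) m) =
      op Z z₀ n m (y.comp (SV.Hmap (R.map z₀ z₀' f hf) n))
  lt : ∀ (Z : SS) (z₀ : Z.S 0) (n m : ℕ), m < n → op Z z₀ n m = 0
  id : ∀ (Z : SS) (z₀ : Z.S 0) (n : ℕ), op Z z₀ n n = LinearMap.id
  unst : ∀ (Z : SS) (z₀ : Z.S 0) (n m : ℕ), 2 * n < m → op Z z₀ n m = 0
  top : ∀ (Z : SS) (z₀ : Z.S 0) (n : ℕ) (y : Module.Dual (ZMod 2) ((R Z z₀).H n)),
    op Z z₀ n (2 * n) y = cupR (2 * n) y y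
  cartan : ∀ (Z : SS) (z₀ : Z.S 0) (p q n m : ℕ) (_ : p + q = n)
    (a : Module.Dual (ZMod 2) ((R Z z₀).H p)) (b : Module.Dual (ZMod 2) ((R Z z₀).H q)),
    op Z z₀ n m (cupR n a b) =
      ∑ k ∈ Finset.range (m + 1), cupR m (op Z z₀ p k a) (op Z z₀ q (m - k) b)

/-- the operations on the reduced cohomology of a simplicial vector space -/
noncomputable abbrev SqFam.on (S : SqFam) (V : SV) (n m : ℕ) : RHc V n →ₗ[ZMod 2] RHc V m :=
  S.op V.ss V.zv n m

/-- restriction of a cohomology class to the primitives -/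
noncomputable def toQ {V : SV} {n : ℕ} : RHc V n →ₗ[ZMod 2] QH V n := (PH V n).subtype.dualMap

/-- the module of indecomposables with its operations -/
structure QHData (S : SqFam) (V : SV) where
  am : AM
  e : ∀ n, am.M n ≃ₗ[ZMod 2] QH V n
  comm : ∀ (n m : ℕ) (y : RHc V n),
    e m (am.Sq n m ((e n).symm (toQ y))) = toQ (S.on V n m y)

/-- the generator of the reduced homology of `B(ZMod 2)` in degree `j ≥ 1` (and `0` for `j = 0`) -/
noncomputable def eB (j : ℕ) : (RV K1).H j :=
  if h : 1 ≤ j then Classical.choose (exists_eB j h) else 0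

/-- the class `[iota_t]` -/
noncomputable def iotaH (t : ℕ) : (KK t).H t := (KK t).cls (KK.iota t) (KK_iota_mem_Z t)

/-- the classes `Psi_n(f) ∈ H_n(R V)`, `n = t + j`: images of `[Δ^t] × e_j` -/
noncomputable def PsiC {V : SV} {t : ℕ} (f : (MapSV BZ2 K1.zv V).V t)
    (hf : (MapSV BZ2 K1.zv V).Moore f) (n : ℕ) : (RV V).H n :=
  SV.Hmap (psiHom f hf) n (crsH n (iotaH t) (eB (n - t)))

/-- the class in `H^n(V)` given by a functional on the homotopy of `V` -/
noncomputable def fundC {V : SV} {n : ℕ} (lam : Module.Dual (ZMod 2) (V.H n)) : RHc V n :=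
  lam.comp (SV.Hmap (muV V) n)

end MM

end

/-! ### from `Lib_MP_33f7bb_d.A71S` -/

section

/-!
# Homology of the reduced chains of the simplicial sphere; naturality of `cupR`
-/

open scoped TensorProduct

namespace MM

/-- linear maps out of a quotient of chains -/
noncomputable def quoLift7 {P : SS} (A : Sub P) {W : SV} (f : Hom P W.ss)
    (hf : ∀ n, ∀ x ∈ A.car n, f.app n x = (0 : W.V n)) : SVHom (linSub A).quo W :=
  ⟨fun n => Submodule.liftQ _ (linExt f.app n) (by
      intro c hc
      rw [LinearMap.mem_ker, linExt_apply]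
      refine Finset.sum_eq_zero fun x hx => ?_
      show c x • (f.app n x : W.V n) = 0
      rw [hf n x (hc hx), smul_zero]), fun {m n} g x => by
    obtain ⟨c, rfl⟩ := Submodule.Quotient.mk_surjective _ x
    exact (linHom f).nat g c⟩

@[simp] theorem quoLift7_of {P : SS} (A : Sub P) {W : SV} (f : Hom P W.ss)
    (hf : ∀ n, ∀ x ∈ A.car n, f.app n x = (0 : W.V n)) (n : ℕ) (x : P.S n) :
    (quoLift7 A f hf).app n ((linSub A).proj.app n (Finsupp.single x 1)) = f.app n x := by
  show linExt f.app n (Finsupp.single x 1) = f.app n x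
  rw [linExt_single, one_smul]

/-- the collapse `Δ^N → S^N` -/
noncomputable def SpS.col (N : ℕ) : Hom (Del N) (SpS N) where
  app n θ := open Classical in if h : Function.Surjective (θ : Mo n N) then some ⟨θ, h⟩ else none
  nat {m n} f θ := by
    classical
    by_cases h : Function.Surjective (θ : Mo n N)
    · simp only [dif_pos h, Option.bind_some]
    · have h2 : ¬ Function.Surjective (θ.comp f : Mo m N) := fun h3 => h fun y => by
        obtain ⟨z, hz⟩ := h3 y
        exact ⟨f z, hz⟩
      simp only [dif_neg h, Option.bind_none]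
      exact dif_neg h2

theorem SpS.col_of_surj {N n : ℕ} (θ : Mo n N) (h : Function.Surjective θ) :
    (SpS.col N).app n θ = some ⟨θ, h⟩ := dif_pos h

theorem SpS.col_of_not {N n : ℕ} (θ : Mo n N) (h : ¬ Function.Surjective θ) :
    (SpS.col N).app n θ = none := dif_neg h

/-- the base vertex of the sphere -/
def SpS.base (N : ℕ) : (SpS N).S 0 := none

theorem SpS.deg_base (N n : ℕ) : (SpS N).deg (SpS.base N) n = none := rfl

theorem SpS.of_base (N n : ℕ) :
    (R.of (SpS.base N)).app n none = (0 : (R (SpS N) (SpS.base N)).V n) :=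
  R.of_base (SpS.base N) n

/-- `K'(N) → R (S^N)` -/
noncomputable def spFrom (N : ℕ) : SVHom (KK N) (R (SpS N) (SpS.base N)) :=
  quoLift7 (bd N) ((R.of (SpS.base N)).comp (SpS.col N)) (fun n θ hθ => by
    show (R.of (SpS.base N)).app n ((SpS.col N).app n θ) = 0
    rw [SpS.col_of_not θ hθ, SpS.of_base])

/-- the map `S^N → K'(N)` -/
noncomputable def spToF (N : ℕ) : Hom (SpS N) (KK N).ss where
  app n x := x.elim (0 : (KK N).V n) (fun θ => (linSub (bd N)).proj.app n (Finsupp.single θ.1 1))
  nat {m n} f x := by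
    cases x with
    | none => exact ((KK N).act f).map_zero.symm
    | some θ =>
      have h1 : (KK N).act f ((linSub (bd N)).proj.app n (Finsupp.single θ.1 1)) =
          (linSub (bd N)).proj.app m (Finsupp.single (θ.1.comp f) 1) := by
        rw [← (linSub (bd N)).proj.nat]
        congr 1
        exact Finsupp.mapDomain_single
      by_cases h : Function.Surjective (θ.1.comp f : Mo m N)
      · show ((SpS N).act f (some θ)).elim _ _ = (KK N).act f _
        simp only [Option.bind_some, dif_pos h, Option.elim_some]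
        exact h1.symm
      · show ((SpS N).act f (some θ)).elim _ _ = (KK N).act f _
        simp only [Option.bind_some, dif_neg h, Option.elim_none, Option.elim_some]
        rw [h1]
        symm
        show Submodule.Quotient.mk _ = 0
        rw [Submodule.Quotient.mk_eq_zero]
        exact SuppIn.single (A := bd N) (x := θ.1.comp f) h 1

/-- `R (S^N) → K'(N)` -/
noncomputable def spTo (N : ℕ) : SVHom (R (SpS N) (SpS.base N)) (KK N) :=
  R.lift (SpS.base N) (spToF N) rfl

theorem spFrom_spTo (N : ℕ) : (spFrom N).comp (spTo N) = SVHom.id _ := by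
  apply R.ext
  intro n x
  show (spFrom N).app n ((spTo N).app n _) = (R.of (SpS.base N)).app n x
  rw [spTo, R.lift_of]
  cases x with
  | none =>
    show (spFrom N).app n 0 = _
    rw [map_zero, SpS.of_base]
  | some θ =>
    show (quoLift7 _ _ _).app n ((linSub (bd N)).proj.app n (Finsupp.single θ.1 1)) = _
    rw [quoLift7_of]
    show (R.of (SpS.base N)).app n ((SpS.col N).app n θ.1) = _
    rw [SpS.col_of_surj θ.1 θ.2]

theorem RSp_B (N k : ℕ) (hk : k ≠ N) (z : (R (SpS N) (SpS.base N)).V k)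
    (hz : z ∈ (R (SpS N) (SpS.base N)).Z k) : z ∈ (R (SpS N) (SpS.base N)).B k := by
  have h1 := KK_homology N k ((spTo N).app k z) ((spTo N).map_Z hz)
  rcases h1 with h1 | ⟨h, -⟩
  · have h2 := (spFrom N).map_B h1
    have h3 : (spFrom N).app k ((spTo N).app k z) = z :=
      congrArg (fun g : SVHom _ _ => g.app k z) (spFrom_spTo N)
    rwa [h3] at h2
  · exact absurd h hk

/-- `H_k (R S^N) = 0` for `k ≠ N` -/
theorem RSp_H (N k : ℕ) (hk : k ≠ N) (x : (R (SpS N) (SpS.base N)).H k) : x = 0 := by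
  obtain ⟨⟨z, hz⟩, rfl⟩ := Submodule.Quotient.mk_surjective _ x
  rw [Submodule.Quotient.mk_eq_zero]
  exact RSp_B N k hk z hz

/-- naturality of the product -/
theorem cupR_map {Z Z' : SS} (z₀ : Z.S 0) (z₀' : Z'.S 0) (f : Hom Z Z') (hf : f.app 0 z₀ = z₀')
    {p q : ℕ} (n : ℕ) (a : Module.Dual (ZMod 2) ((R Z' z₀').H p))
    (b : Module.Dual (ZMod 2) ((R Z' z₀').H q)) :
    (cupR n a b).comp (SV.Hmap (R.map z₀ z₀' f hf) n) =
      cupR n (a.comp (SV.Hmap (R.map z₀ z₀' f hf) p)) (b.comp (SV.Hmap (R.map z₀ z₀' f hf) q)) := by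
  have h1 : (R.diag z₀').comp (R.map z₀ z₀' f hf) =
      ((R.map z₀ z₀' f hf).tens (R.map z₀ z₀' f hf)).comp (R.diag z₀) := by
    apply R.ext
    intro n x
    show (R.diag z₀').app n ((R.map z₀ z₀' f hf).app n _) =
      ((R.map z₀ z₀' f hf).tens (R.map z₀ z₀' f hf)).app n ((R.diag z₀).app n _)
    rw [R.map_of, R.diag, R.lift_of, R.diag, R.lift_of]
    show _ = TensorProduct.map _ _ (_ ⊗ₜ[ZMod 2] _)
    rw [TensorProduct.map_tmul, R.map_of]
    rfl
  have h2 := boxF_map (R.map z₀ z₀' f hf) (R.map z₀ z₀' f hf) (n := n) a b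
  apply LinearMap.ext
  intro x
  show boxF n a b (SV.Hmap (R.diag z₀') n (SV.Hmap (R.map z₀ z₀' f hf) n x)) = _
  rw [← SV.Hmap_comp, h1, SV.Hmap_comp]
  show ((boxF n a b).comp (SV.Hmap ((R.map z₀ z₀' f hf).tens (R.map z₀ z₀' f hf)) n)) _ = _
  rw [h2]
  rfl

end MM

end

/-! ### from `Lib_MP_33f7bb_d.A701` -/

section

/-!
# A7-01: coproduct and Steenrod operations in the homology of `B(ZMod 2)`

`diag_eB`: pair with the classes `x^i`: let `x^n` be the functional given by the cocycle
`σ ↦ ∏_(i<n) (σ(i+1) - σ(i))` on `n`-simplices; `x^n` (e_n) = 1; Alexander-Whitney: `x^p ⊠ x^q` pulled back along the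
diagonal is `x^(p+q)` (the value of `boxF` on the diagonal of a chain can be computed by the front
`p`-face / back `q`-face formula).
`sq_eB`: `Sq^0 x = x` (`id`), `Sq^1 x = cup x x` (`top`), `Sq^k x = 0`, `k > 1` (`unst`), Cartan formula, induction on `n`:
`(x + x^2)^n`.
-/

open scoped TensorProduct

namespace MM

/-! ### monotone maps -/

private theorem A701_ext {m n : ℕ} {f g : Mo m n} (h : ∀ i, (f i : ℕ) = (g i : ℕ)) : f = g :=
  OrderHom.ext _ _ (funext fun i => Fin.ext (h i))

private theorem A701_dlt {n : ℕ} (i : Fin (n + 2)) (j : Fin (n + 1)) :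
    ((dlt i : Mo n (n + 1)) j : ℕ) = if (j : ℕ) < (i : ℕ) then (j : ℕ) else (j : ℕ) + 1 := by
  show ((i.succAbove j : Fin (n + 2)) : ℕ) = _
  unfold Fin.succAbove
  by_cases h : (j : ℕ) < (i : ℕ)
  · have h' : j.castSucc < i := Fin.lt_def.2 h
    rw [if_pos h', if_pos h]
    rfl
  · have h' : ¬ j.castSucc < i := fun h2 => h (Fin.lt_def.1 h2)
    rw [if_neg h', if_neg h]
    rfl

/-- `j ↦ c + j` -/
private def A701_sh (c q n : ℕ) (h : c + q ≤ n) : Mo q n :=
  ⟨fun i => ⟨c + i, by have := i.2; omega⟩, fun i j hij => by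
    rw [Fin.le_def]
    exact Nat.add_le_add_left (Fin.le_def.1 hij) c⟩

private theorem A701_sh_val {c q n : ℕ} (h : c + q ≤ n) (i : Fin (q + 1)) :
    ((A701_sh c q n h i : Fin (n + 1)) : ℕ) = c + i := rfl

private theorem A701_comp_val {l m n : ℕ} (f : Mo l m) (g : Mo m n) (i : Fin (l + 1)) :
    ((g.comp f) i : ℕ) = (g (f i) : ℕ) := rfl

/-! ### the Alexander-Whitney functional -/

private noncomputable def A701_G {P Q : SV} {p q : ℕ} (n : ℕ) (h : p + q = n)
    (φ : P.V p →ₗ[ZMod 2] ZMod 2) (ψ : Q.V q →ₗ[ZMod 2] ZMod 2) :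
    (P.tens Q).V n →ₗ[ZMod 2] ZMod 2 :=
  (TensorProduct.lid (ZMod 2) (ZMod 2)).toLinearMap ∘ₗ
    TensorProduct.map (φ ∘ₗ P.act (A701_sh 0 p n (by omega)))
      (ψ ∘ₗ Q.act (A701_sh p q n (by omega)))

private theorem A701_G_tmul {P Q : SV} {p q n : ℕ} (h : p + q = n)
    (φ : P.V p →ₗ[ZMod 2] ZMod 2) (ψ : Q.V q →ₗ[ZMod 2] ZMod 2) (x : P.V n) (y : Q.V n) :
    A701_G n h φ ψ (x ⊗ₜ[ZMod 2] y) =
      φ (P.act (A701_sh 0 p n (by omega)) x) * ψ (Q.act (A701_sh p q n (by omega)) y) := by
  show (TensorProduct.lid (ZMod 2) (ZMod 2)) (TensorProduct.map _ _ (x ⊗ₜ[ZMod 2] y)) = _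
  rw [TensorProduct.map_tmul, TensorProduct.lid_tmul, smul_eq_mul]
  rfl

private theorem A701_G_act {P Q : SV} {p q n N : ℕ} (h : p + q = n)
    (φ : P.V p →ₗ[ZMod 2] ZMod 2) (ψ : Q.V q →ₗ[ZMod 2] ZMod 2) {N' : ℕ} (a : Mo n N) (b : Mo n N')
    (x : P.V N) (y : Q.V N') :
    A701_G n h φ ψ (P.act a x ⊗ₜ[ZMod 2] Q.act b y) =
      φ (P.act (a.comp (A701_sh 0 p n (by omega))) x) *
        ψ (Q.act (b.comp (A701_sh p q n (by omega))) y) := by
  rw [A701_G_tmul, P.act_comp, Q.act_comp]

private theorem A701_zz (x : ZMod 2) : x + x = 0 := two_eq_zero' x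

private theorem A701_eq_of_add {x y : ZMod 2} (h : x + y = 0) : x = y := by
  have := eq_neg_of_add_eq_zero_left h
  rw [this]
  exact neg_eq' y

private theorem A701_G_d {P Q : SV} {p q n : ℕ} (h : p + q = n)
    (φ : P.V p →ₗ[ZMod 2] ZMod 2) (ψ : Q.V q →ₗ[ZMod 2] ZMod 2)
    (hφ : ∀ w : P.V (p + 1), φ (P.d p w) = 0) (hψ : ∀ w : Q.V (q + 1), ψ (Q.d q w) = 0)
    (u : (P.tens Q).V (n + 1)) : A701_G n h φ ψ ((P.tens Q).d n u) = 0 := by
  induction u using TensorProduct.induction_on with
  | zero => rw [map_zero, map_zero]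
  | add a b ha hb => rw [map_add, map_add, ha, hb, add_zero]
  | tmul x y =>
    have e1 : (P.tens Q).d n (x ⊗ₜ[ZMod 2] y) =
        ∑ i : Fin (n + 2), (P.act (dlt i) x ⊗ₜ[ZMod 2] Q.act (dlt i) y) := by
      show (∑ i : Fin (n + 2), (P.tens Q).act (dlt i)) (x ⊗ₜ[ZMod 2] y) = _
      rw [LinearMap.sum_apply]
      rfl
    rw [e1, map_sum]
    subst h
    have e2 : ∀ i : Fin (p + q + 2), A701_G (p + q) rfl φ ψ
        (P.act (dlt i) x ⊗ₜ[ZMod 2] Q.act (dlt i) y) =
        φ (P.act ((dlt i).comp (A701_sh 0 p (p + q) (by omega))) x) *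
        ψ (Q.act ((dlt i).comp (A701_sh p q (p + q) (by omega))) y) := fun i =>
      A701_G_act rfl φ ψ (dlt i) (dlt i) x y
    rw [Finset.sum_congr rfl fun i _ => e2 i]
    have e3 : (p + 1) + (q + 1) = p + q + 2 := by omega
    rw [← (finCongr e3).sum_comp, Fin.sum_univ_add]
    set X := P.act (A701_sh 0 (p + 1) (p + q + 1) (by omega)) x with hX
    set Y := Q.act (A701_sh p (q + 1) (p + q + 1) (by omega)) y with hY
    have f1 : ∀ i : Fin (p + 1),
        φ (P.act ((dlt (finCongr e3 (Fin.castAdd (q + 1) i))).comp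
          (A701_sh 0 p (p + q) (by omega))) x) *
        ψ (Q.act ((dlt (finCongr e3 (Fin.castAdd (q + 1) i))).comp
          (A701_sh p q (p + q) (by omega))) y) =
        φ (P.act (dlt i.castSucc) X) *
          ψ (Q.act (A701_sh (p + 1) q (p + q + 1) (by omega)) y) := by
      intro i
      have g1 : (dlt (finCongr e3 (Fin.castAdd (q + 1) i))).comp
          (A701_sh 0 p (p + q) (by omega)) =
          (A701_sh 0 (p + 1) (p + q + 1) (by omega)).comp (dlt i.castSucc) := by
        apply A701_ext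
        intro j
        rw [A701_comp_val, A701_comp_val, A701_dlt, A701_sh_val, A701_sh_val, A701_dlt]
        simp
      have g2 : (dlt (finCongr e3 (Fin.castAdd (q + 1) i))).comp
          (A701_sh p q (p + q) (by omega)) = A701_sh (p + 1) q (p + q + 1) (by omega) := by
        apply A701_ext
        intro j
        rw [A701_comp_val, A701_dlt, A701_sh_val, A701_sh_val]
        have hi := i.2
        have : ((finCongr e3 (Fin.castAdd (q + 1) i) : Fin (p + q + 2)) : ℕ) = (i : ℕ) := rfl
        rw [this, if_neg (by omega)]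
        omega
      rw [g1, g2, hX, P.act_comp]
    have f2 : ∀ i : Fin (q + 1),
        φ (P.act ((dlt (finCongr e3 (Fin.natAdd (p + 1) i))).comp
          (A701_sh 0 p (p + q) (by omega))) x) *
        ψ (Q.act ((dlt (finCongr e3 (Fin.natAdd (p + 1) i))).comp
          (A701_sh p q (p + q) (by omega))) y) =
        φ (P.act (A701_sh 0 p (p + q + 1) (by omega)) x) * ψ (Q.act (dlt i.succ) Y) := by
      intro i
      have hv : ((finCongr e3 (Fin.natAdd (p + 1) i) : Fin (p + q + 2)) : ℕ) = p + 1 + i := rfl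
      have g1 : (dlt (finCongr e3 (Fin.natAdd (p + 1) i))).comp
          (A701_sh 0 p (p + q) (by omega)) = A701_sh 0 p (p + q + 1) (by omega) := by
        apply A701_ext
        intro j
        have hj := j.2
        rw [A701_comp_val, A701_dlt, A701_sh_val, A701_sh_val, hv, if_pos (by omega)]
      have g2 : (dlt (finCongr e3 (Fin.natAdd (p + 1) i))).comp
          (A701_sh p q (p + q) (by omega)) =
          (A701_sh p (q + 1) (p + q + 1) (by omega)).comp (dlt i.succ) := by
        apply A701_ext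
        intro j
        rw [A701_comp_val, A701_comp_val, A701_dlt, A701_sh_val, A701_sh_val, A701_dlt, hv]
        have : ((i.succ : Fin (q + 2)) : ℕ) = i + 1 := rfl
        rw [this]
        by_cases hc : (j : ℕ) < i + 1
        · rw [if_pos hc, if_pos (by omega)]
        · rw [if_neg hc, if_neg (by omega)]
          omega
      rw [g1, g2, hY, Q.act_comp]
    rw [Finset.sum_congr rfl fun i _ => f1 i, Finset.sum_congr rfl fun i _ => f2 i,
      ← Finset.sum_mul, ← Finset.mul_sum]
    have k1 := hφ X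
    have k2 := hψ Y
    rw [SV.d, LinearMap.sum_apply, map_sum, Fin.sum_univ_castSucc] at k1
    rw [SV.d, LinearMap.sum_apply, map_sum, Fin.sum_univ_succ] at k2
    have l1 : P.act (dlt (Fin.last (p + 1))) X =
        P.act (A701_sh 0 p (p + q + 1) (by omega)) x := by
      rw [hX, P.act_comp]
      congr 2
      apply A701_ext
      intro j
      have hj := j.2
      rw [A701_comp_val, A701_sh_val, A701_sh_val, A701_dlt, Fin.val_last, if_pos (by omega)]
    have l2 : Q.act (dlt 0) Y = Q.act (A701_sh (p + 1) q (p + q + 1) (by omega)) y := by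
      rw [hY, Q.act_comp]
      congr 2
      apply A701_ext
      intro j
      rw [A701_comp_val, A701_sh_val, A701_sh_val, A701_dlt, if_neg (by simp)]
      omega
    rw [l1] at k1
    rw [l2] at k2
    rw [A701_eq_of_add k1, ← A701_eq_of_add k2]
    exact A701_zz _

private theorem A701_G_term {P Q : SV} {p q n p' q' : ℕ} (h : p + q = n)
    (φ : P.V p →ₗ[ZMod 2] ZMod 2) (ψ : Q.V q →ₗ[ZMod 2] ZMod 2) (x : P.V p') (y : Q.V q') :
    A701_G n h φ ψ (crs n x y) = ∑ a : Mo n p', ∑ b : Mo n q', open Classical in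
      if (p' + q' = n ∧ ∀ i, ((a i : ℕ) + (b i : ℕ) = (i : ℕ))) then
        φ (P.act (a.comp (A701_sh 0 p n (by omega))) x) *
        ψ (Q.act (b.comp (A701_sh p q n (by omega))) y) else 0 := by
  classical
  unfold crs
  rw [map_sum]
  refine Finset.sum_congr rfl fun a _ => ?_
  rw [map_sum]
  refine Finset.sum_congr rfl fun b _ => ?_
  by_cases hc : p' + q' = n ∧ ∀ i, ((a i : ℕ) + (b i : ℕ) = (i : ℕ))
  · rw [if_pos hc, if_pos hc, A701_G_act]
  · rw [if_neg hc, if_neg hc, map_zero]

private theorem A701_G_crs_ne {P Q : SV} {p q n p' q' : ℕ} (h : p + q = n)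
    (φ : P.V p →ₗ[ZMod 2] ZMod 2) (ψ : Q.V q →ₗ[ZMod 2] ZMod 2)
    (hφ : ∀ {k : ℕ} (g : Mo p k) (x : P.V k), ¬ Function.Injective g → φ (P.act g x) = 0)
    (hψ : ∀ {k : ℕ} (g : Mo q k) (x : Q.V k), ¬ Function.Injective g → ψ (Q.act g x) = 0)
    (hne : p' ≠ p) (x : P.V p') (y : Q.V q') : A701_G n h φ ψ (crs n x y) = 0 := by
  rw [A701_G_term]
  refine Finset.sum_eq_zero fun a _ => Finset.sum_eq_zero fun b _ => ?_
  split_ifs with hc
  · obtain ⟨h1, -⟩ := hc
    rcases Nat.lt_or_ge p' p with h2 | h2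
    · rw [hφ, zero_mul]
      intro hinj
      have := Fintype.card_le_of_injective _ hinj
      rw [Fintype.card_fin, Fintype.card_fin] at this
      omega
    · rw [hψ _ y, mul_zero]
      intro hinj
      have := Fintype.card_le_of_injective _ hinj
      rw [Fintype.card_fin, Fintype.card_fin] at this
      omega
  · rfl

private theorem A701_G_crs {P Q : SV} {p q n : ℕ} (h : p + q = n)
    (φ : P.V p →ₗ[ZMod 2] ZMod 2) (ψ : Q.V q →ₗ[ZMod 2] ZMod 2)
    (hφ : ∀ {k : ℕ} (g : Mo p k) (x : P.V k), ¬ Function.Injective g → φ (P.act g x) = 0)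
    (x : P.V p) (y : Q.V q) : A701_G n h φ ψ (crs n x y) = φ x * ψ y := by
  rw [A701_G_term]
  let a0 : Mo n p := ⟨fun i => ⟨min i p, by omega⟩, fun i j hij => by
    rw [Fin.le_def]
    exact min_le_min_right p (Fin.le_def.1 hij)⟩
  let b0 : Mo n q := ⟨fun i => ⟨i - p, by have := i.2; omega⟩, fun i j hij => by
    rw [Fin.le_def]
    exact Nat.sub_le_sub_right (Fin.le_def.1 hij) p⟩
  have ha0 : ∀ i, (a0 i : ℕ) = min (i : ℕ) p := fun i => rfl
  have hb0 : ∀ i, (b0 i : ℕ) = i - p := fun i => rfl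
  have key : ∀ (a : Mo n p) (b : Mo n q), (∀ i, ((a i : ℕ) + (b i : ℕ) = (i : ℕ))) →
      Function.Injective (a.comp (A701_sh 0 p n (by omega))) → a = a0 ∧ b = b0 := by
    intro a b hab hinj
    have hmono : StrictMono (a.comp (A701_sh 0 p n (by omega))) :=
      (OrderHom.monotone _).strictMono_of_injective hinj
    have h1 : ∀ i : Fin (p + 1), (i : ℕ) ≤ (a.comp (A701_sh 0 p n (by omega)) i : ℕ) := fun i =>
      Fin.le_def.1 (hmono.le_apply)
    have h2 : ∀ i : Fin (n + 1), (a i : ℕ) = min (i : ℕ) p := by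
      intro i
      have h3 := hab i
      have h4 : (a i : ℕ) ≤ p := Nat.lt_succ_iff.1 (a i).2
      by_cases hi : (i : ℕ) ≤ p
      · have h5 := h1 ⟨i, by omega⟩
        have h6 : (A701_sh 0 p n (by omega) ⟨i, by omega⟩ : Fin (n + 1)) = i :=
          Fin.ext (by rw [A701_sh_val]; simp)
        rw [A701_comp_val, h6] at h5
        simp only at h5
        omega
      · have h5 := h1 (Fin.last p)
        rw [A701_comp_val, Fin.val_last] at h5
        have h6 : (A701_sh 0 p n (by omega) (Fin.last p) : Fin (n + 1)) ≤ i := by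
          rw [Fin.le_def, A701_sh_val, Fin.val_last]
          omega
        have h7 := Fin.le_def.1 (a.monotone h6)
        omega
    constructor
    · exact A701_ext fun i => (h2 i).trans (ha0 i).symm
    · apply A701_ext
      intro i
      have h3 := hab i
      rw [hb0]
      have h4 := h2 i
      omega
  rw [Finset.sum_eq_single a0, Finset.sum_eq_single b0]
  · rw [if_pos]
    · have g1 : a0.comp (A701_sh 0 p n (by omega)) = OrderHom.id := by
        apply A701_ext
        intro i
        have hi := i.2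
        rw [A701_comp_val, ha0, A701_sh_val]
        show min (0 + (i : ℕ)) p = i
        omega
      have g2 : b0.comp (A701_sh p q n (by omega)) = OrderHom.id := by
        apply A701_ext
        intro i
        rw [A701_comp_val, hb0, A701_sh_val]
        show p + (i : ℕ) - p = i
        omega
      rw [g1, g2, P.act_id, Q.act_id]
    · refine ⟨h, fun i => ?_⟩
      rw [ha0, hb0]
      omega
  · intro b _ hb
    split_ifs with hc
    · rw [hφ, zero_mul]
      intro hinj
      exact hb (key a0 b hc.2 hinj).2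
    · rfl
  · intro hc
    exact absurd (Finset.mem_univ _) hc
  · intro a _ ha
    refine Finset.sum_eq_zero fun b _ => ?_
    split_ifs with hc
    · rw [hφ, zero_mul]
      intro hinj
      exact ha (key a b hc.2 hinj).1
    · rfl
  · intro hc
    exact absurd (Finset.mem_univ _) hc

/-- the functional on homology given by a cocycle -/
private noncomputable def A701_cl {P : SV} {p : ℕ} (φ : P.V p →ₗ[ZMod 2] ZMod 2)
    (hφ : ∀ w : P.V (p + 1), φ (P.d p w) = 0) : Module.Dual (ZMod 2) (P.H p) :=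
  Submodule.liftQ _ (φ ∘ₗ (P.Z p).subtype) (by
    rintro ⟨z, hz⟩ ⟨w, hw⟩
    rw [LinearMap.mem_ker]
    show φ z = 0
    have : z = P.d p w := hw.symm
    rw [this]
    exact hφ w)

private theorem A701_cl_cls {P : SV} {p : ℕ} (φ : P.V p →ₗ[ZMod 2] ZMod 2)
    (hφ : ∀ w : P.V (p + 1), φ (P.d p w) = 0) (z : P.V p) (hz : z ∈ P.Z p) :
    A701_cl φ hφ (P.cls z hz) = φ z := rfl

private theorem A701_box {P Q : SV} {p q n : ℕ} (h : p + q = n)
    (φ : P.V p →ₗ[ZMod 2] ZMod 2) (ψ : Q.V q →ₗ[ZMod 2] ZMod 2)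
    (hφd : ∀ w : P.V (p + 1), φ (P.d p w) = 0) (hψd : ∀ w : Q.V (q + 1), ψ (Q.d q w) = 0)
    (hφ : ∀ {k : ℕ} (g : Mo p k) (x : P.V k), ¬ Function.Injective g → φ (P.act g x) = 0)
    (hψ : ∀ {k : ℕ} (g : Mo q k) (x : Q.V k), ¬ Function.Injective g → ψ (Q.act g x) = 0)
    (z : (P.tens Q).V n) (hz : z ∈ (P.tens Q).Z n) :
    boxF n (A701_cl φ hφd) (A701_cl ψ hψd) ((P.tens Q).cls z hz) = A701_G n h φ ψ z := by
  have h1 : boxF n (A701_cl φ hφd) (A701_cl ψ hψd) =
      A701_cl (A701_G n h φ ψ) (A701_G_d h φ ψ hφd hψd) := by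
    apply boxF_ext
    intro p' q' h' x hx y hy
    rw [A701_cl_cls]
    by_cases hp : p' = p
    · subst hp
      obtain rfl : q = q' := by omega
      rw [boxF_crs h _ _ x hx y hy, A701_cl_cls, A701_cl_cls, A701_G_crs h φ ψ hφ]
    · rw [boxF_crs_ne _ _ hp x hx y hy, A701_G_crs_ne h φ ψ hφ hψ hp]
  rw [h1, A701_cl_cls]

/-! ### the cocycles on `B(ZMod 2)` -/

/-- product of the differences -/
private def A701_pr (m : ℕ) (f : Fin (m + 1) → ZMod 2) : ZMod 2 :=
  ∏ j : Fin m, (f j.succ - f j.castSucc)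

private theorem A701_pr_range {m : ℕ} (f : Fin (m + 1) → ZMod 2) (s : ℕ → ZMod 2)
    (h : ∀ i : Fin (m + 1), f i = s i) :
    A701_pr m f = ∏ j ∈ Finset.range m, (s (j + 1) - s j) := by
  rw [← Fin.prod_univ_eq_prod_range (fun j => s (j + 1) - s j)]
  refine Finset.prod_congr rfl fun j _ => ?_
  rw [h, h]
  rfl

private theorem A701_pr_sub {m : ℕ} (f : Fin (m + 1) → ZMod 2) (c : ZMod 2) :
    A701_pr m (fun i => f i - c) = A701_pr m f := by
  unfold A701_pr
  refine Finset.prod_congr rfl fun j _ => ?_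
  ring

private def A701_ph (p : ℕ) (σ : K1.V p) : ZMod 2 := A701_pr p σ.1

private theorem A701_ph_act {m k : ℕ} (g : Mo m k) (σ : K1.V k) :
    A701_ph m (K1.act g σ) = A701_pr m (fun i => σ.1 (g i)) :=
  A701_pr_sub (fun i => σ.1 (g i)) (σ.1 (g 0))

/-- extension to `ℕ` -/
private def A701_e {m : ℕ} (f : Fin (m + 1) → ZMod 2) (k : ℕ) : ZMod 2 :=
  if h : k < m + 1 then f ⟨k, h⟩ else 0

private theorem A701_e_val {m : ℕ} (f : Fin (m + 1) → ZMod 2) (i : Fin (m + 1)) :
    A701_e f i = f i := by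
  unfold A701_e
  rw [dif_pos i.2]

private def A701_dl (i k : ℕ) : ℕ := if k < i then k else k + 1

private theorem A701_F (s : ℕ → ZMod 2) (p : ℕ) :
    ∑ i ∈ Finset.range (p + 2), ∏ j ∈ Finset.range p,
      (s (A701_dl i (j + 1)) - s (A701_dl i j)) = 0 := by
  induction p with
  | zero =>
    rw [Finset.sum_range_succ, Finset.sum_range_succ, Finset.sum_range_zero]
    simp only [Finset.prod_range_zero, zero_add]
    exact A701_zz 1
  | succ p ih =>
    rw [Finset.sum_range_succ, Finset.sum_range_succ]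
    rw [Finset.sum_range_succ] at ih
    have h1 : ∀ i ∈ Finset.range (p + 1), ∏ j ∈ Finset.range (p + 1),
        (s (A701_dl i (j + 1)) - s (A701_dl i j)) =
        (∏ j ∈ Finset.range p, (s (A701_dl i (j + 1)) - s (A701_dl i j))) *
          (s (p + 2) - s (p + 1)) := by
      intro i hi
      have hi' := Finset.mem_range.1 hi
      rw [Finset.prod_range_succ]
      have e1 : A701_dl i (p + 1) = p + 2 := by
        unfold A701_dl
        rw [if_neg (by omega)]
      have e2 : A701_dl i p = p + 1 := by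
        unfold A701_dl
        rw [if_neg (by omega)]
      rw [e1, e2]
    have h2 : ∀ i, p < i → ∏ j ∈ Finset.range p, (s (A701_dl i (j + 1)) - s (A701_dl i j)) =
        ∏ j ∈ Finset.range p, (s (j + 1) - s j) := by
      intro i hi
      refine Finset.prod_congr rfl fun j hj => ?_
      have hj' := Finset.mem_range.1 hj
      unfold A701_dl
      rw [if_pos (by omega), if_pos (by omega)]
    rw [Finset.sum_congr rfl h1, ← Finset.sum_mul]
    rw [h2 (p + 1) (by omega)] at ih
    have ih' := A701_eq_of_add ih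
    rw [ih', Finset.prod_range_succ, Finset.prod_range_succ, h2 (p + 1) (by omega),
      h2 (p + 1 + 1) (by omega)]
    have e1 : A701_dl (p + 1) (p + 1) = p + 2 := by
      unfold A701_dl
      rw [if_neg (by omega)]
    have e2 : A701_dl (p + 1) p = p := by
      unfold A701_dl
      rw [if_pos (by omega)]
    have e3 : A701_dl (p + 1 + 1) (p + 1) = p + 1 := by
      unfold A701_dl
      rw [if_pos (by omega)]
    have e4 : A701_dl (p + 1 + 1) p = p := by
      unfold A701_dl
      rw [if_pos (by omega)]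
    rw [e1, e2, e3, e4]
    set T := ∏ j ∈ Finset.range p, (s (j + 1) - s j)
    have h3 := A701_zz (T * (s (p + 2) - s p))
    calc T * (s (p + 2) - s (p + 1)) + T * (s (p + 2) - s p) + T * (s (p + 1) - s p)
        = T * (s (p + 2) - s p) + T * (s (p + 2) - s p) := by ring
      _ = 0 := h3

private theorem A701_ph_zero {p : ℕ} (hp : 1 ≤ p) : A701_ph p 0 = 0 := by
  obtain ⟨m, rfl⟩ : ∃ m, p = m + 1 := ⟨p - 1, by omega⟩
  unfold A701_ph A701_pr
  refine Finset.prod_eq_zero (Finset.mem_univ 0) ?_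
  show (0 : ZMod 2) - 0 = 0
  rw [sub_zero]

private theorem A701_deg (n : ℕ) : K1.ss.deg K1.zv n = (0 : K1.V n) := map_zero (K1.act _)

private noncomputable def A701_x (p : ℕ) (hp : 1 ≤ p) : (RV K1).V p →ₗ[ZMod 2] ZMod 2 :=
  Submodule.liftQ _ (Finsupp.linearCombination (ZMod 2) (A701_ph p)) (by
    intro c hc
    rw [LinearMap.mem_ker, Finsupp.linearCombination_apply]
    refine Finset.sum_eq_zero fun x hx => ?_
    have hx' : x = K1.ss.deg K1.zv p := hc hx
    have h1 : A701_ph p x = 0 := by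
      rw [hx', A701_deg]
      exact A701_ph_zero hp
    show c x • A701_ph p x = 0
    rw [h1, smul_zero])

private theorem A701_x_of {p : ℕ} (hp : 1 ≤ p) (σ : K1.V p) :
    A701_x p hp ((R.of K1.zv).app p σ) = A701_ph p σ := by
  show Finsupp.linearCombination (ZMod 2) _ (Finsupp.single σ 1) = _
  rw [Finsupp.linearCombination_single, one_smul]

private theorem A701_act_of {m n : ℕ} (g : Mo m n) (σ : K1.V n) :
    (RV K1).act g ((R.of K1.zv).app n σ) = (R.of K1.zv).app m (K1.act g σ) :=
  ((R.of K1.zv).nat g σ).symm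

/-- linear maps out of the reduced chains agreeing on the simplices -/
private theorem A701_lext {n : ℕ} {M : Type} [AddCommGroup M] [Module (ZMod 2) M]
    {f g : (RV K1).V n →ₗ[ZMod 2] M}
    (h : ∀ σ : K1.V n, f ((R.of K1.zv).app n σ) = g ((R.of K1.zv).app n σ)) (w : (RV K1).V n) :
    f w = g w := by
  have hx : w ∈ Submodule.span (ZMod 2) (Set.range ((R.of K1.zv).app n)) := by
    rw [R.span]; trivial
  induction hx using Submodule.span_induction with
  | mem x hx => obtain ⟨y, rfl⟩ := hx; exact h y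
  | zero => simp
  | add a b _ _ ha hb => rw [map_add, map_add, ha, hb]
  | smul r a _ ha => rw [map_smul, map_smul, ha]

private theorem A701_x_d {p : ℕ} (hp : 1 ≤ p) (w : (RV K1).V (p + 1)) :
    A701_x p hp ((RV K1).d p w) = 0 := by
  refine A701_lext (f := A701_x p hp ∘ₗ (RV K1).d p) (g := 0) (fun σ => ?_) w
  show A701_x p hp ((RV K1).d p ((R.of K1.zv).app (p + 1) σ)) = 0
  have e1 : (RV K1).d p ((R.of K1.zv).app (p + 1) σ) =
      ∑ i : Fin (p + 2), (RV K1).act (dlt i) ((R.of K1.zv).app (p + 1) σ) := by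
    show (∑ i : Fin (p + 2), (RV K1).act (dlt i)) _ = _
    rw [LinearMap.sum_apply]
  rw [e1, map_sum]
  have e2 : ∀ i : Fin (p + 2), A701_x p hp ((RV K1).act (dlt i) ((R.of K1.zv).app (p + 1) σ)) =
      (fun i : ℕ => ∏ j ∈ Finset.range p,
        (A701_e σ.1 (A701_dl i (j + 1)) - A701_e σ.1 (A701_dl i j))) i := by
    intro i
    rw [A701_act_of, A701_x_of, A701_ph_act]
    refine A701_pr_range _ (fun j => A701_e σ.1 (A701_dl i j)) fun j => ?_
    have h1 : A701_dl i j = ((dlt i : Mo p (p + 1)) j : ℕ) := by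
      rw [A701_dlt]
      rfl
    rw [h1, A701_e_val]
  rw [Finset.sum_congr rfl fun i _ => e2 i]
  exact (Fin.sum_univ_eq_sum_range (fun i : ℕ => ∏ j ∈ Finset.range p,
    (A701_e σ.1 (A701_dl i (j + 1)) - A701_e σ.1 (A701_dl i j))) (p + 2)).trans (A701_F _ p)

private theorem A701_x_g {p : ℕ} (hp : 1 ≤ p) {k : ℕ} (g : Mo p k) (w : (RV K1).V k)
    (hg : ¬ Function.Injective g) : A701_x p hp ((RV K1).act g w) = 0 := by
  refine A701_lext (f := A701_x p hp ∘ₗ (RV K1).act g) (g := 0) (fun σ => ?_) w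
  show A701_x p hp ((RV K1).act g ((R.of K1.zv).app k σ)) = 0
  rw [A701_act_of, A701_x_of, A701_ph_act]
  have h1 : ∃ j : Fin p, g j.succ = g j.castSucc := by
    by_contra hcon
    push Not at hcon
    apply hg
    have hs : StrictMono g := Fin.strictMono_iff_lt_succ.2 fun j =>
      lt_of_le_of_ne (g.monotone (Fin.castSucc_lt_succ).le) (hcon j).symm
    exact hs.injective
  obtain ⟨j, hj⟩ := h1
  refine Finset.prod_eq_zero (Finset.mem_univ j) ?_
  show σ.1 (g j.succ) - σ.1 (g j.castSucc) = 0
  rw [hj, sub_self]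

private theorem A701_pr_sh {c q n : ℕ} (h : c + q ≤ n) (f : Fin (n + 1) → ZMod 2) :
    A701_pr q (fun i => f (A701_sh c q n h i)) =
      ∏ j ∈ Finset.range q, (A701_e f (c + j + 1) - A701_e f (c + j)) := by
  have h1 := A701_pr_range (fun i => f (A701_sh c q n h i)) (fun j => A701_e f (c + j)) (fun i => by
    have := A701_e_val f (A701_sh c q n h i)
    rw [A701_sh_val] at this
    exact this.symm)
  exact h1

private theorem A701_pr_e {n : ℕ} (f : Fin (n + 1) → ZMod 2) :
    A701_pr n f = ∏ j ∈ Finset.range n, (A701_e f (j + 1) - A701_e f j) :=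
  A701_pr_range f (A701_e f) fun i => (A701_e_val f i).symm

private theorem A701_split {p q n : ℕ} (h : p + q = n) (f : Fin (n + 1) → ZMod 2) :
    A701_pr p (fun i => f (A701_sh 0 p n (by omega) i)) *
      A701_pr q (fun i => f (A701_sh p q n (by omega) i)) = A701_pr n f := by
  rw [A701_pr_sh, A701_pr_sh, A701_pr_e]
  subst h
  rw [Finset.prod_range_add]
  congr 1
  refine Finset.prod_congr rfl fun j _ => ?_
  rw [zero_add]

private theorem A701_diag_gen {Z : SS} (z₀ : Z.S 0) {n : ℕ} (x : Z.S n) :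
    (R.diag z₀).app n ((R.of z₀).app n x) =
      ((R.of z₀).app n x : (R Z z₀).V n) ⊗ₜ[ZMod 2] ((R.of z₀).app n x : (R Z z₀).V n) := by
  have h : (R.diag z₀).app n ((R.of z₀).app n x) =
      ((R.of z₀).app n x : (R Z z₀).V n) ⊗ₜ[ZMod 2] ((R.of z₀).app n x : (R Z z₀).V n) :=
    R.lift_of _ _ _ _ _
  exact h

private theorem A701_diag_of {V : SV} {n : ℕ} (x : V.V n) :
    (R.diag V.zv).app n ((R.of V.zv).app n x) =
      ((R.of V.zv).app n x : (RV V).V n) ⊗ₜ[ZMod 2] ((R.of V.zv).app n x : (RV V).V n) :=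
  A701_diag_gen (Z := V.ss) V.zv x

private theorem A701_G_diag {p q n : ℕ} (h : p + q = n) (hp : 1 ≤ p) (hq : 1 ≤ q) (hn : 1 ≤ n)
    (w : (RV K1).V n) :
    A701_G n h (A701_x p hp) (A701_x q hq) ((R.diag K1.zv).app n w) = A701_x n hn w := by
  have key : ∀ σ : K1.V n,
      A701_G n h (A701_x p hp) (A701_x q hq) ((R.diag K1.zv).app n ((R.of K1.zv).app n σ)) =
        A701_x n hn ((R.of K1.zv).app n σ) := by
    intro σ
    rw [A701_diag_of, A701_G_tmul, A701_act_of, A701_act_of, A701_x_of, A701_x_of, A701_x_of,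
      A701_ph_act, A701_ph_act]
    exact A701_split h σ.1
  exact A701_lext (f := A701_G n h (A701_x p hp) (A701_x q hq) ∘ₗ (R.diag K1.zv).app n)
    (g := A701_x n hn) key w

/-! ### the fundamental cycles -/

private noncomputable abbrev A701_ft (n : ℕ) : Fintype (K1.V n) :=
  @Fintype.ofFinite _ (inferInstanceAs (Finite {f : Fin (n + 1) → ZMod 2 // f ∈ LinearMap.ker
    (LinearMap.proj (R := ZMod 2) (φ := fun _ : Fin (n + 1) => ZMod 2) 0)}))

attribute [local instance] A701_ft

private noncomputable def A701_s (n : ℕ) : (RV K1).V n :=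
  ∑ f : K1.V n, ((R.of K1.zv).app n f : (RV K1).V n)

private theorem A701_zero {n : ℕ} (f : K1.V n) : f.1 0 = 0 := by
  have := f.2
  simpa only [LinearMap.mem_ker, LinearMap.proj_apply] using this

private def A701_u {n : ℕ} (i : Fin n) : K1.V n :=
  ⟨Pi.single i.succ 1, by simp [LinearMap.mem_ker]⟩

private def A701_one (n : ℕ) : K1.V n :=
  ⟨fun i => if i = 0 then 0 else 1, by simp [LinearMap.mem_ker]⟩

private theorem A701_u_ne {n : ℕ} (i : Fin (n + 1)) : A701_u i ≠ 0 := by
  intro h
  have := congrFun (congrArg Subtype.val h) i.succ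
  simp [A701_u] at this

private theorem A701_s_face {n : ℕ} (i : Fin (n + 2)) :
    (RV K1).act (dlt i) (A701_s (n + 1)) = 0 := by
  classical
  have hu : ∃ u : K1.V (n + 1), u ≠ 0 ∧ K1.act (dlt i) u = 0 := by
    by_cases hi : i = 0
    · subst hi
      refine ⟨A701_one (n + 1), ?_, ?_⟩
      · intro h
        have := congrFun (congrArg Subtype.val h) 1
        simp [A701_one] at this
      · apply Subtype.ext
        funext j
        show (if (dlt (0 : Fin (n + 2)) : Mo n (n + 1)) j = 0 then (0 : ZMod 2) else 1) -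
          (if (dlt (0 : Fin (n + 2)) : Mo n (n + 1)) 0 = 0 then (0 : ZMod 2) else 1) = 0
        have h1 : ∀ j, (dlt (0 : Fin (n + 2)) : Mo n (n + 1)) j ≠ 0 := fun j => by
          show (0 : Fin (n + 2)).succAbove j ≠ 0
          exact Fin.succAbove_ne _ _
        rw [if_neg (h1 j), if_neg (h1 0), sub_self]
    · obtain ⟨k, rfl⟩ := Fin.exists_succ_eq.2 hi
      refine ⟨A701_u k, A701_u_ne k, ?_⟩
      apply Subtype.ext
      funext j
      show (Pi.single k.succ 1 : Fin (n + 2) → ZMod 2) ((dlt k.succ : Mo n (n + 1)) j) -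
        (Pi.single k.succ 1 : Fin (n + 2) → ZMod 2) ((dlt k.succ : Mo n (n + 1)) 0) = 0
      have h1 : ∀ j, (dlt k.succ : Mo n (n + 1)) j ≠ k.succ := fun j => by
        show k.succ.succAbove j ≠ k.succ
        exact Fin.succAbove_ne _ _
      rw [Pi.single_eq_of_ne (h1 j), Pi.single_eq_of_ne (h1 0), sub_self]
  obtain ⟨u, hu, hu'⟩ := hu
  unfold A701_s
  rw [map_sum]
  refine Finset.sum_involution (fun f _ => f + u) ?_ ?_ (fun _ _ => Finset.mem_univ _) ?_
  · intro f _
    have h3 : K1.act (dlt i) (f + u) = K1.act (dlt i) f := by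
      rw [map_add, hu', add_zero]
    rw [A701_act_of, A701_act_of, h3]
    exact two_eq_zero' _
  · intro f _ _ h3
    apply hu
    have h5 : f + u = f + 0 := by rw [add_zero]; exact h3
    exact add_left_cancel h5
  · intro f _
    exact (add_assoc _ _ _).trans ((congrArg (f + ·) (two_eq_zero' u)).trans (add_zero f))

private theorem A701_zmod (x : ZMod 2) : x = 0 ∨ x = 1 := by
  fin_cases x
  · exact Or.inl rfl
  · exact Or.inr rfl

private theorem A701_x_s {n : ℕ} (hn : 1 ≤ n) : A701_x n hn (A701_s n) = 1 := by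
  classical
  unfold A701_s
  rw [map_sum]
  have e1 : ∀ f : K1.V n, A701_x n hn ((R.of K1.zv).app n f) = A701_ph n f := fun f =>
    A701_x_of hn f
  rw [Finset.sum_congr rfl fun f _ => e1 f]
  let τ : K1.V n := ⟨fun i => ((i : ℕ) : ZMod 2), by
    rw [LinearMap.mem_ker, LinearMap.proj_apply]
    show ((((0 : Fin (n + 1)) : ℕ)) : ZMod 2) = 0
    simp⟩
  rw [Finset.sum_eq_single τ]
  · unfold A701_ph A701_pr
    refine Finset.prod_eq_one fun j _ => ?_
    show (((j.succ : Fin (n + 1)) : ℕ) : ZMod 2) - (((j.castSucc : Fin (n + 1)) : ℕ) : ZMod 2) = 1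
    rw [Fin.val_succ, Fin.val_castSucc]
    push_cast
    ring
  · intro f _ hf
    by_contra hne
    apply hf
    have h1 : ∀ j : Fin n, f.1 j.succ - f.1 j.castSucc = 1 := by
      intro j
      rcases A701_zmod (f.1 j.succ - f.1 j.castSucc) with h2 | h2
      · exact absurd (Finset.prod_eq_zero (Finset.mem_univ j) h2) hne
      · exact h2
    have h2 : ∀ i : Fin (n + 1), f.1 i = ((i : ℕ) : ZMod 2) := by
      intro i
      induction i using Fin.induction with
      | zero => rw [A701_zero]; simp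
      | succ j ih =>
        have h3 := h1 j
        rw [ih, sub_eq_iff_eq_add] at h3
        rw [h3, Fin.val_succ, Fin.val_castSucc]
        push_cast
        ring
    exact Subtype.ext (funext h2)
  · intro hc
    exact absurd (Finset.mem_univ _) hc

private theorem A701_s_Z {n : ℕ} (hn : 1 ≤ n) : A701_s n ∈ (RV K1).Z n := by
  obtain ⟨m, rfl⟩ : ∃ m, n = m + 1 := ⟨n - 1, by omega⟩
  show (RV K1).d m (A701_s (m + 1)) = 0
  show (∑ i : Fin (m + 2), (RV K1).act (dlt i)) (A701_s (m + 1)) = 0
  rw [LinearMap.sum_apply]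
  exact Finset.sum_eq_zero fun i _ => A701_s_face i

/-- the class `x^n` -/
private noncomputable def A701_X (n : ℕ) (hn : 1 ≤ n) : RHc K1 n :=
  A701_cl (A701_x n hn) (A701_x_d hn)

/-! ### the statements -/

theorem eB_ne_zero (j : ℕ) (hj : 1 ≤ j) : eB j ≠ 0 := by
  unfold eB
  rw [dif_pos hj]
  exact (Classical.choose_spec (exists_eB j hj)).1

theorem eq_zero_or_eB (j : ℕ) (y : (RV K1).H j) : y = 0 ∨ y = eB j := by
  rcases Nat.eq_zero_or_pos j with h | h
  · subst h
    exact Or.inl (RVK1_zero y)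
  · unfold eB
    rw [dif_pos (show 1 ≤ j from h)]
    exact (Classical.choose_spec (exists_eB j h)).2 y

private theorem A701_eB {n : ℕ} (hn : 1 ≤ n) : (RV K1).cls (A701_s n) (A701_s_Z hn) = eB n := by
  rcases eq_zero_or_eB n ((RV K1).cls (A701_s n) (A701_s_Z hn)) with h | h
  · exfalso
    have h1 : A701_X n hn ((RV K1).cls (A701_s n) (A701_s_Z hn)) = 1 := by
      unfold A701_X
      rw [A701_cl_cls, A701_x_s]
    rw [h, map_zero] at h1
    exact zero_ne_one h1
  · exact h

private theorem A701_X_eB {n : ℕ} (hn : 1 ≤ n) : A701_X n hn (eB n) = 1 := by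
  rw [← A701_eB hn]
  unfold A701_X
  rw [A701_cl_cls, A701_x_s]

private theorem A701_dual {n : ℕ} (hn : 1 ≤ n) (a : RHc K1 n) : a = 0 ∨ a = A701_X n hn := by
  rcases A701_zmod (a (eB n)) with h | h
  · left
    apply LinearMap.ext
    intro y
    rcases eq_zero_or_eB n y with h1 | h1
    · rw [h1, map_zero, map_zero]
    · rw [h1, h]; rfl
  · right
    apply LinearMap.ext
    intro y
    rcases eq_zero_or_eB n y with h1 | h1
    · rw [h1, map_zero, map_zero]
    · rw [h1, h, A701_X_eB hn]

private theorem A701_box_zero_left {P Q : SV} {p q n : ℕ} (b : Module.Dual (ZMod 2) (Q.H q)) :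
    boxF n (0 : Module.Dual (ZMod 2) (P.H p)) b = 0 := by
  have h := boxF_add_left (P := P) (n := n) (0 : Module.Dual (ZMod 2) (P.H p)) 0 b
  rw [add_zero] at h
  exact (left_eq_add.1 h)

private theorem A701_box_zero_right {P Q : SV} {p q n : ℕ} (a : Module.Dual (ZMod 2) (P.H p)) :
    boxF n a (0 : Module.Dual (ZMod 2) (Q.H q)) = 0 := by
  have h := boxF_add_right (Q := Q) (n := n) a (0 : Module.Dual (ZMod 2) (Q.H q)) 0
  rw [add_zero] at h
  exact (left_eq_add.1 h)

private theorem A701_box_crsH {P Q : SV} {p q n : ℕ} (h : p + q = n)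
    (a : Module.Dual (ZMod 2) (P.H p)) (b : Module.Dual (ZMod 2) (Q.H q)) (x : P.H p)
    (y : Q.H q) : boxF n a b (crsH n x y) = a x * b y := by
  obtain ⟨x, hx, rfl⟩ := A3Box_exists_cls x
  obtain ⟨y, hy, rfl⟩ := A3Box_exists_cls y
  rw [crsH_cls, boxF_crs h]

private theorem A701_box_crsH_ne {P Q : SV} {p q n p' q' : ℕ}
    (a : Module.Dual (ZMod 2) (P.H p)) (b : Module.Dual (ZMod 2) (Q.H q)) (hp : p' ≠ p)
    (x : P.H p') (y : Q.H q') : boxF n a b (crsH n x y) = 0 := by
  obtain ⟨x, hx, rfl⟩ := A3Box_exists_cls x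
  obtain ⟨y, hy, rfl⟩ := A3Box_exists_cls y
  rw [crsH_cls]
  exact boxF_crs_ne _ _ hp x hx y hy

private theorem A701_box_sum {p q : ℕ} (hp : 1 ≤ p) (hq : 1 ≤ q) (a : RHc K1 p) (b : RHc K1 q) :
    boxF (p + q) a b (∑ i ∈ Finset.Ico 1 (p + q), crsH (p + q) (eB i) (eB (p + q - i))) =
      a (eB p) * b (eB q) := by
  rw [map_sum, Finset.sum_eq_single p]
  · have key : ∀ q', q' = q → boxF (p + q) a b (crsH (p + q) (eB p) (eB q')) =
        a (eB p) * b (eB q) := by
      rintro _ rfl
      exact A701_box_crsH rfl a b (eB p) (eB _)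
    exact key _ (by omega)
  · intro i _ hi
    exact A701_box_crsH_ne a b hi _ _
  · intro hc
    exact absurd (Finset.mem_Ico.2 ⟨hp, by omega⟩) hc

theorem diag_eB (n : ℕ) :
    SV.Hmap (R.diag K1.zv) n (eB n) =
      ∑ i ∈ Finset.Ico 1 n, crsH n (eB i) (eB (n - i)) := by
  have hfin : ∀ p, Module.Finite (ZMod 2) ((RV K1).H p) := by
    intro p
    refine ⟨⟨{eB p}, ?_⟩⟩
    rw [eq_top_iff]
    rintro y -
    rcases eq_zero_or_eB p y with h | h
    · rw [h]; exact Submodule.zero_mem _
    · rw [h]; exact Submodule.subset_span (by simp)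
  rw [← sub_eq_zero]
  refine (Module.forall_dual_apply_eq_zero_iff (ZMod 2) _).1 fun F => ?_
  rw [map_sub, sub_eq_zero]
  have hF := boxF_span hfin hfin n F
  induction hF using Submodule.span_induction with
  | zero => rfl
  | add f g _ _ hf hg => rw [LinearMap.add_apply, LinearMap.add_apply, hf, hg]
  | smul c f _ hf => rw [LinearMap.smul_apply, LinearMap.smul_apply, hf]
  | mem f hf =>
    obtain ⟨p, q, hpq, a, b, rfl⟩ := hf
    rcases Nat.eq_zero_or_pos p with h | hp
    · subst h
      have : a = 0 := by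
        apply LinearMap.ext
        intro y
        rw [RVK1_zero y, map_zero, map_zero]
      rw [this, A701_box_zero_left]
      rfl
    rcases Nat.eq_zero_or_pos q with h | hq
    · subst h
      have : b = 0 := by
        apply LinearMap.ext
        intro y
        rw [RVK1_zero y, map_zero, map_zero]
      rw [this, A701_box_zero_right]
      rfl
    subst hpq
    rcases A701_dual hp a with h | h
    · rw [h, A701_box_zero_left]
      rfl
    rcases A701_dual hq b with h' | h'
    · rw [h', A701_box_zero_right]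
      rfl
    have hn : 1 ≤ p + q := by omega
    rw [A701_box_sum hp hq, h, h', A701_X_eB, A701_X_eB, ← A701_eB hn, SV.Hmap_cls]
    have h2 := A701_box (rfl : p + q = p + q) (A701_x p hp) (A701_x q hq) (A701_x_d hp)
      (A701_x_d hq) (fun g w hg => A701_x_g hp g w hg) (fun g w hg => A701_x_g hq g w hg)
      ((R.diag K1.zv).app (p + q) (A701_s (p + q)))
      ((R.diag K1.zv).map_Z (A701_s_Z hn))
    unfold A701_X
    rw [h2, A701_G_diag rfl hp hq hn, A701_x_s, one_mul]

/-- the dual classes and their products -/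
theorem cupR_eB {p q : ℕ} (hp : 1 ≤ p) (hq : 1 ≤ q) (a : RHc K1 p) (b : RHc K1 q) :
    cupR (z₀ := K1.zv) (p + q) a b (eB (p + q)) = a (eB p) * b (eB q) := by
  show boxF (p + q) a b (SV.Hmap (R.diag K1.zv) (p + q) (eB (p + q))) = _
  rw [diag_eB, A701_box_sum hp hq]

private theorem A701_cup {p q N : ℕ} (h : p + q = N) (a : RHc K1 p) (b : RHc K1 q) :
    cupR (z₀ := K1.zv) N a b (eB N) = a (eB p) * b (eB q) := by
  subst h
  rcases Nat.eq_zero_or_pos p with h | hp
  · subst h
    have : a = 0 := by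
      apply LinearMap.ext
      intro y
      rw [RVK1_zero y, map_zero, map_zero]
    rw [this, LinearMap.zero_apply, zero_mul]
    show boxF (0 + q) (0 : RHc K1 0) b _ = 0
    rw [A701_box_zero_left]
    rfl
  rcases Nat.eq_zero_or_pos q with h | hq
  · subst h
    have : b = 0 := by
      apply LinearMap.ext
      intro y
      rw [RVK1_zero y, map_zero, map_zero]
    rw [this, LinearMap.zero_apply, mul_zero]
    show boxF (p + 0) a (0 : RHc K1 0) _ = 0
    rw [A701_box_zero_right]
    rfl
  exact cupR_eB hp hq a b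

private theorem A701_sq1 (S : SqFam) (l : ℕ) :
    S.on K1 1 l (A701_X 1 le_rfl) (eB l) = if l = 1 ∨ l = 2 then 1 else 0 := by
  rcases Nat.lt_or_ge l 1 with h | h
  · have h1 := S.lt K1.ss K1.zv 1 l h
    show S.op K1.ss K1.zv 1 l (A701_X 1 le_rfl) (eB l) = _
    rw [h1, if_neg (by omega)]
    rfl
  rcases Nat.lt_or_ge 2 l with h2 | h2
  · have h1 := S.unst K1.ss K1.zv 1 l (by omega)
    show S.op K1.ss K1.zv 1 l (A701_X 1 le_rfl) (eB l) = _
    rw [h1, if_neg (by omega)]
    rfl
  rcases (by omega : l = 1 ∨ l = 2) with h3 | h3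
  · subst h3
    have h1 := S.id K1.ss K1.zv 1
    show S.op K1.ss K1.zv 1 1 (A701_X 1 le_rfl) (eB 1) = _
    rw [h1, if_pos (Or.inl rfl), LinearMap.id_apply, A701_X_eB]
  · subst h3
    have h1 := S.top K1.ss K1.zv 1 (A701_X 1 le_rfl)
    have h4 := A701_cup (show 1 + 1 = 2 from rfl) (A701_X 1 le_rfl) (A701_X 1 le_rfl)
    show S.op K1.ss K1.zv 1 2 (A701_X 1 le_rfl) (eB 2) = _
    have h5 : S.op K1.ss K1.zv 1 2 (A701_X 1 le_rfl) = cupR 2 (A701_X 1 le_rfl) (A701_X 1 le_rfl) :=
      h1
    rw [h5, h4, if_pos (Or.inr rfl), A701_X_eB, one_mul]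

private theorem A701_sqX (S : SqFam) (n : ℕ) (hn : 1 ≤ n) (r : ℕ) :
    S.on K1 n (n + r) (A701_X n hn) (eB (n + r)) = ((Nat.choose n r : ℕ) : ZMod 2) := by
  induction n, hn using Nat.le_induction generalizing r with
  | base =>
    rw [A701_sq1]
    rcases (by omega : r = 0 ∨ r = 1 ∨ 2 ≤ r) with h | h | h
    · subst h; simp
    · subst h; simp
    · rw [if_neg (by omega), Nat.choose_eq_zero_of_lt (by omega)]
      simp
  | succ n hn ih =>
    obtain ⟨n', rfl⟩ : ∃ n', n = n' + 1 := ⟨n - 1, by omega⟩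
    have hX : A701_X (n' + 1 + 1) (by omega) = cupR (z₀ := K1.zv) (n' + 1 + 1)
        (A701_X (n' + 1) hn) (A701_X 1 le_rfl) := by
      have h1 := A701_cup (show (n' + 1) + 1 = n' + 1 + 1 from rfl) (A701_X (n' + 1) hn)
        (A701_X 1 le_rfl)
      rw [A701_X_eB, A701_X_eB, one_mul] at h1
      rcases A701_dual (by omega : 1 ≤ n' + 1 + 1)
        (cupR (z₀ := K1.zv) (n' + 1 + 1) (A701_X (n' + 1) hn) (A701_X 1 le_rfl)) with h2 | h2
      · rw [h2] at h1
        exact absurd h1 zero_ne_one
      · exact h2.symm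
    have hc := S.cartan K1.ss K1.zv (n' + 1) 1 (n' + 1 + 1) (n' + 1 + 1 + r) rfl
      (A701_X (n' + 1) hn) (A701_X 1 le_rfl)
    show S.op K1.ss K1.zv (n' + 1 + 1) (n' + 1 + 1 + r) (A701_X (n' + 1 + 1) _)
      (eB (n' + 1 + 1 + r)) = _
    rw [hX, hc, LinearMap.sum_apply]
    have e1 : ∀ k ∈ Finset.range (n' + 1 + 1 + r + 1),
        (cupR (z₀ := K1.zv) (n' + 1 + 1 + r)
          (S.op K1.ss K1.zv (n' + 1) k (A701_X (n' + 1) hn))
          (S.op K1.ss K1.zv 1 (n' + 1 + 1 + r - k) (A701_X 1 le_rfl)) :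
            RHc K1 (n' + 1 + 1 + r)) (eB (n' + 1 + 1 + r)) =
        S.on K1 (n' + 1) k (A701_X (n' + 1) hn) (eB k) *
          (if n' + 1 + 1 + r - k = 1 ∨ n' + 1 + 1 + r - k = 2 then 1 else 0) := by
      intro k hk
      have hk' := Finset.mem_range.1 hk
      rw [← A701_sq1 S]
      exact A701_cup (by omega) _ _
    have e0 : n' + 1 + 1 + r + 1 = (n' + r) + 1 + 1 + 1 := by omega
    rw [Finset.sum_congr rfl e1, e0, Finset.sum_range_succ, Finset.sum_range_succ,
      Finset.sum_range_succ, Finset.sum_eq_zero, if_pos (by omega), if_pos (by omega),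
      if_neg (by omega), mul_one, mul_one, mul_zero, add_zero, zero_add]
    · have h1 : n' + r + 1 = n' + 1 + r := by omega
      rw [h1, ih r]
      rcases Nat.eq_zero_or_pos r with h2 | h2
      · subst h2
        have h3 := S.lt K1.ss K1.zv (n' + 1) (n' + 0) (by omega)
        have h4 : S.on K1 (n' + 1) (n' + 0) (A701_X (n' + 1) hn) (eB (n' + 0)) = 0 := by
          show S.op K1.ss K1.zv (n' + 1) (n' + 0) _ _ = 0
          rw [h3]
          rfl
        rw [h4]
        simp
      · obtain ⟨r', rfl⟩ : ∃ r', r = r' + 1 := ⟨r - 1, by omega⟩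
        have h3 : n' + (r' + 1) = n' + 1 + r' := by omega
        rw [h3, ih r', Nat.choose_succ_succ (n' + 1) r']
        push_cast
        ring
    · intro k hk
      have hk' := Finset.mem_range.1 hk
      rw [if_neg (by omega), mul_zero]

theorem sq_eB (S : SqFam) (n m : ℕ) (hn : 1 ≤ n) (hm : n ≤ m) (y : RHc K1 n) :
    S.on K1 n m y (eB m) = ((Nat.choose n (m - n) : ℕ) : ZMod 2) * y (eB n) := by
  obtain ⟨r, rfl⟩ : ∃ r, m = n + r := ⟨m - n, by omega⟩
  have h0 : n + r - n = r := by omega
  rw [h0]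
  rcases A701_dual hn y with h | h
  · rw [h, map_zero]
    simp
  · rw [h, A701_sqX, A701_X_eB, mul_one]

end MM

end
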