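import Pool.Agent.Lib_MP_33f7bb_m.G01

/-!
# MP_33f7bb_an, negative answer to Q1: merged library part G06

Concatenation of files of `Lib_MP_33f7bb_an` and `Lib_MP_33f7bb_d` (each in its own section), only to save build time.
-/

/-! ### from `Lib_MP_33f7bb_d.A1Defs` -/

section

/-!
# Part A1, definitions: tower objects and Tot

A tower object is a cosimplicial object in pointed simplicial sets whose levels are simplicial
vector spaces and whose operators are linear, except for the coface `d 0`, which is only pointed.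
All indices of cofaces and codegeneracies are natural numbers (values out of range are never used).
-/

namespace MM

/-! ## Monotone maps with natural number indices -/

/-- the coface `[s] → [s+1]` which skips `i` (the last coface for `i > s`) -/
def dl (s i : ℕ) : Mo s (s + 1) :=
  ⟨fun k => ⟨if k.1 < i then k.1 else k.1 + 1, by have := k.2; split <;> omega⟩, by
    intro a b h
    have h' : a.1 ≤ b.1 := h
    show (if a.1 < i then a.1 else a.1 + 1) ≤ (if b.1 < i then b.1 else b.1 + 1)
    split <;> split <;> omega⟩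

/-- the codegeneracy `[s+1] → [s]` which takes the value `j` twice -/
def sg (s j : ℕ) : Mo (s + 1) s :=
  ⟨fun k => ⟨if k.1 ≤ j then min k.1 s else k.1 - 1, by have := k.2; split <;> omega⟩, by
    intro a b h
    have h' : a.1 ≤ b.1 := h
    have := b.2
    show (if a.1 ≤ j then min a.1 s else a.1 - 1) ≤ (if b.1 ≤ j then min b.1 s else b.1 - 1)
    split <;> split <;> omega⟩

theorem dl_val {s i : ℕ} (k : Fin (s + 1)) :
    ((dl s i) k).1 = if k.1 < i then k.1 else k.1 + 1 := rfl

theorem sg_val {s j : ℕ} (k : Fin (s + 2)) :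
    ((sg s j) k).1 = if k.1 ≤ j then min k.1 s else k.1 - 1 := rfl

theorem dl_eq {s i : ℕ} (h : i < s + 2) : dl s i = dlt ⟨i, h⟩ := by
  ext k
  rw [dl_val]
  show _ = ((Fin.succAbove ⟨i, h⟩ k : Fin (s + 2)) : ℕ)
  simp only [Fin.succAbove, Fin.lt_def, Fin.val_castSucc]
  split_ifs <;> simp

theorem sg_eq {s j : ℕ} (h : j < s + 1) : sg s j = sgm ⟨j, h⟩ := by
  ext k
  rw [sg_val]
  show _ = ((Fin.predAbove ⟨j, h⟩ k : Fin (s + 1)) : ℕ)
  simp only [Fin.predAbove, Fin.lt_def, Fin.val_castSucc]
  have := k.2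
  split_ifs with h1 h2 h2 <;> simp <;> omega

theorem sum_dl {M : Type*} [AddCommMonoid M] {s : ℕ} (f : Mo s (s + 1) → M) :
    ∑ i : Fin (s + 2), f (dlt i) = ∑ i ∈ Finset.range (s + 2), f (dl s i) := by
  rw [Finset.sum_range]
  exact Finset.sum_congr rfl fun i _ => by rw [dl_eq i.2]

/-! ## Cosimplicial vector spaces (the coface `d 0` only pointed) -/

/-- cosimplicial vector spaces, `d s 0` only pointed -/
structure CoV where
  C : ℕ → Type
  [grp : ∀ s, AddCommGroup (C s)]
  [mod : ∀ s, Module (ZMod 2) (C s)]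
  /-- cofaces, used for `i ≤ s + 1` -/
  d : ∀ s : ℕ, ℕ → C s → C (s + 1)
  /-- codegeneracies, used for `j ≤ s` -/
  σ : ∀ s : ℕ, ℕ → (C (s + 1) →ₗ[ZMod 2] C s)
  d_zero : ∀ s i, d s i 0 = 0
  d_add : ∀ s i (x y : C s), 1 ≤ i → i ≤ s + 1 → d s i (x + y) = d s i x + d s i y
  dd : ∀ s i j (x : C s), i ≤ j → j ≤ s + 1 →
    d (s + 1) (j + 1) (d s i x) = d (s + 1) i (d s j x)
  σσ : ∀ s i j (x : C (s + 2)), i ≤ j → j ≤ s → σ s j (σ (s + 1) i x) = σ s i (σ (s + 1) (j + 1) x)
  σd_lt : ∀ s i j (x : C (s + 1)), i ≤ j → j ≤ s →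
    σ (s + 1) (j + 1) (d (s + 1) i x) = d s i (σ s j x)
  σd_eq : ∀ s j (x : C s), j ≤ s → σ s j (d s j x) = x
  σd_eq' : ∀ s j (x : C s), j ≤ s → σ s j (d s (j + 1) x) = x
  σd_gt : ∀ s i j (x : C (s + 1)), i ≤ j → j ≤ s →
    σ (s + 1) i (d (s + 1) (j + 2) x) = d s (j + 1) (σ s i x)

attribute [instance] CoV.grp CoV.mod

namespace CoV

/-- compatible families of elements of `C s` (the codegeneracies of an element of `C (s+1)`) -/
def Compat (T : CoV) : ∀ (s : ℕ) (_ : ℕ → T.C s), Prop
  | 0, _ => True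
  | s + 1, m => ∀ i j, i ≤ j → j ≤ s → T.σ s i (m (j + 1)) = T.σ s j (m i)

/-- the section `(m_0, ..., m_s) ↦ x` with `σ j x = m_j` (steps; the result is the value at `s`) -/
def sec (T : CoV) (s : ℕ) (m : ℕ → T.C s) : ℕ → T.C (s + 1)
  | 0 => T.d s 1 (m 0)
  | j + 1 => T.sec s m j + T.d s (j + 2) (m (j + 1) + T.σ s (j + 1) (T.sec s m j))

/-- the projector `(1 + d^j σ^(j-1)) ... (1 + d^1 σ^0)` on `C (s+1)` (the complete projector is
the value at `s + 1`) -/
def prj (T : CoV) (s : ℕ) : ℕ → T.C (s + 1) → T.C (s + 1)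
  | 0, x => x
  | j + 1, x => T.prj s j x + T.d s (j + 1) (T.σ s j (T.prj s j x))

/-- the complete projector in degree `s` (identity for `s = 0`) -/
def pi (T : CoV) : ∀ s, T.C s → T.C s
  | 0, x => x
  | s + 1, x => T.prj s (s + 1) x

/-- `x` is killed by all codegeneracies -/
def Nrm (T : CoV) : ∀ (s : ℕ) (_ : T.C s), Prop
  | 0, _ => True
  | s + 1, x => ∀ j ≤ s, T.σ s j x = 0

/-- the sum of all cofaces of `x` -/
def del (T : CoV) (s : ℕ) (x : T.C s) : T.C (s + 1) := ∑ i ∈ Finset.range (s + 2), T.d s i x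

end CoV

/-! ## Tower objects -/

/-- Tower objects. -/
structure Tower where
  W : ℕ → SV
  /-- cofaces `W s → W (s+1)`, used for `i ≤ s + 1` -/
  d : ∀ s : ℕ, ℕ → Hom (W s).ss (W (s + 1)).ss
  /-- codegeneracies `W (s+1) → W s`, used for `j ≤ s` -/
  σ : ∀ s : ℕ, ℕ → SVHom (W (s + 1)) (W s)
  d_zero : ∀ s i n, (d s i).app n 0 = 0
  d_add : ∀ s i n (x y : (W s).V n), 1 ≤ i → i ≤ s + 1 →
    (d s i).app n (x + y : (W s).V n) = ((d s i).app n x + (d s i).app n y : (W (s + 1)).V n)
  dd : ∀ s i j n (x : (W s).V n), i ≤ j → j ≤ s + 1 →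
    (d (s + 1) (j + 1)).app n ((d s i).app n x) = (d (s + 1) i).app n ((d s j).app n x)
  σσ : ∀ s i j n (x : (W (s + 2)).V n), i ≤ j → j ≤ s →
    (σ s j).app n ((σ (s + 1) i).app n x) = (σ s i).app n ((σ (s + 1) (j + 1)).app n x)
  σd_lt : ∀ s i j n (x : (W (s + 1)).V n), i ≤ j → j ≤ s →
    (σ (s + 1) (j + 1)).app n ((d (s + 1) i).app n x) = (d s i).app n ((σ s j).app n x)
  σd_eq : ∀ s j n (x : (W s).V n), j ≤ s → (σ s j).app n ((d s j).app n x) = x
  σd_eq' : ∀ s j n (x : (W s).V n), j ≤ s → (σ s j).app n ((d s (j + 1)).app n x) = x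
  σd_gt : ∀ s i j n (x : (W (s + 1)).V n), i ≤ j → j ≤ s →
    (σ (s + 1) i).app n ((d (s + 1) (j + 2)).app n x) = (d s (j + 1)).app n ((σ s i).app n x)

namespace Tower

/-- the cosimplicial vector space of the elements of dimension `n` -/
abbrev cov (T : Tower) (n : ℕ) : CoV where
  C s := (T.W s).V n
  d s i x := (T.d s i).app n x
  σ s j := (T.σ s j).app n
  d_zero s i := T.d_zero s i n
  d_add s i x y h h' := T.d_add s i n x y h h'
  dd s i j x h h' := T.dd s i j n x h h'
  σσ s i j x h h' := T.σσ s i j n x h h'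
  σd_lt s i j x h h' := T.σd_lt s i j n x h h'
  σd_eq s j x h := T.σd_eq s j n x h
  σd_eq' s j x h := T.σd_eq' s j n x h
  σd_gt s i j x h h' := T.σd_gt s i j n x h h'

/-- the conditions on the families that are the simplices of `Tot` -/
structure IsTot (T : Tower) {m : ℕ} (f : ∀ s, Hom ((Del s).prod (Del m)) (T.W s).ss) :
    Prop where
  d : ∀ s i n (θ : Mo n s) (τ : Mo n m), i ≤ s + 1 →
    (f (s + 1)).app n ((dl s i).comp θ, τ) = (T.d s i).app n ((f s).app n (θ, τ))
  σ : ∀ s j n (θ : Mo n (s + 1)) (τ : Mo n m), j ≤ s →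
    (f s).app n ((sg s j).comp θ, τ) = (T.σ s j).app n ((f (s + 1)).app n (θ, τ))

/-- `Tot T` -/
abbrev Tot (T : Tower) : SS where
  S m := {f : ∀ s, Hom ((Del s).prod (Del m)) (T.W s).ss // T.IsTot f}
  act {m m'} g f := ⟨fun s => (f.1 s).comp (Hom.prodMap (Hom.id (Del s)) (SS.yo (P := Del m') g)),
    ⟨fun s i n θ τ hi => f.2.d s i n θ (g.comp τ) hi,
      fun s j n θ τ hj => f.2.σ s j n θ (g.comp τ) hj⟩⟩
  act_id _ := rfl
  act_comp _ _ _ := rfl

/-- the base point of `Tot` (in all dimensions) -/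
def tot0 (T : Tower) (m : ℕ) : T.Tot.S m :=
  ⟨fun s => ⟨fun _ _ => 0, fun f _ => ((T.W s).act f).map_zero.symm⟩,
    ⟨fun s i n _ _ _ => (T.d_zero s i n).symm,
      fun s j n _ _ _ => ((T.σ s j).app n).map_zero.symm⟩⟩

/-- families of functions on `Del s × P` which define a map `A → Tot T`, for a subcomplex `A` of
`P` -/
structure Fam (T : Tower) {P : SS} (A : Sub P)
    (F : ∀ s, Fn ((Del s).prod P) (T.W s).ss) : Prop where
  nat : ∀ s, NatOn (Sub.bx ⊤ A) (F s)
  d : ∀ s i n (θ : Mo n s) (x : P.S n), x ∈ A.car n → i ≤ s + 1 →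
    F (s + 1) n ((dl s i).comp θ, x) = (T.d s i).app n (F s n (θ, x))
  σ : ∀ s j n (θ : Mo n (s + 1)) (x : P.S n), x ∈ A.car n → j ≤ s →
    F s n ((sg s j).comp θ, x) = (T.σ s j).app n (F (s + 1) n (θ, x))

/-- the stage `n` of the construction of a family on `C` extending a given family `f` on `A`:
all conditions which involve only the functions `F 0, ..., F n` -/
structure Stage (T : Tower) {P : SS} (A C : Sub P)
    (f : ∀ s, Fn ((Del s).prod P) (T.W s).ss) (n : ℕ)
    (F : ∀ s, Fn ((Del s).prod P) (T.W s).ss) : Prop where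
  nat : ∀ s ≤ n, NatOn (Sub.bx ⊤ C) (F s)
  d : ∀ s < n, ∀ i m (θ : Mo m s) (x : P.S m), x ∈ C.car m → i ≤ s + 1 →
    F (s + 1) m ((dl s i).comp θ, x) = (T.d s i).app m (F s m (θ, x))
  σ : ∀ s < n, ∀ j m (θ : Mo m (s + 1)) (x : P.S m), x ∈ C.car m → j ≤ s →
    F s m ((sg s j).comp θ, x) = (T.σ s j).app m (F (s + 1) m (θ, x))
  ext : ∀ s ≤ n, ∀ m (θ : Mo m s) (x : P.S m), x ∈ A.car m → F s m (θ, x) = f s m (θ, x)

/-- the function on `∂Δ^(n+1) × C ∪ Δ^(n+1) × A` which the next function `F (n+1)` has to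
extend -/
structure Glue (T : Tower) {P : SS} (A C : Sub P)
    (f : ∀ s, Fn ((Del s).prod P) (T.W s).ss) (n : ℕ)
    (F : ∀ s, Fn ((Del s).prod P) (T.W s).ss)
    (b : Fn ((Del (n + 1)).prod P) (T.W (n + 1)).ss) : Prop where
  nat : NatOn (Sub.box (bd (n + 1)) ⊤ A C) b
  d : ∀ i m (θ : Mo m n) (x : P.S m), i ≤ n + 1 → x ∈ C.car m →
    b m ((dl n i).comp θ, x) = (T.d n i).app m (F n m (θ, x))
  ext : ∀ m (θ : Mo m (n + 1)) (x : P.S m), x ∈ A.car m → b m (θ, x) = f (n + 1) m (θ, x)
  σ : ∀ j m (θ : Mo m (n + 1)) (x : P.S m), j ≤ n →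
    (θ, x) ∈ (Sub.box (bd (n + 1)) ⊤ A C).car m →
    (T.σ n j).app m (b m (θ, x)) = F n m ((sg n j).comp θ, x)

/-- a function on `Δ^(n+1) × C` with the prescribed codegeneracies -/
structure Secn (T : Tower) {P : SS} (C : Sub P) (n : ℕ)
    (F : ∀ s, Fn ((Del s).prod P) (T.W s).ss)
    (G : Fn ((Del (n + 1)).prod P) (T.W (n + 1)).ss) : Prop where
  nat : NatOn (Sub.bx ⊤ C) G
  σ : ∀ j m (θ : Mo m (n + 1)) (x : P.S m), j ≤ n → x ∈ C.car m →
    (T.σ n j).app m (G m (θ, x)) = F n m ((sg n j).comp θ, x)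

/-- the normalised part: intersection of the kernels of the codegeneracies -/
def N (T : Tower) : ∀ s, SubV (T.W s)
  | 0 => ⟨fun _ => ⊤, fun _ _ _ => trivial⟩
  | s + 1 =>
    { car := fun n => ⨅ j : Fin (s + 1), LinearMap.ker ((T.σ s j).app n)
      closed := fun {m n} f x hx => by
        simp only [Submodule.mem_iInf, LinearMap.mem_ker] at hx ⊢
        intro j
        rw [(T.σ s j).nat, hx j, map_zero] }

theorem mem_N (T : Tower) (s n : ℕ) (x : (T.W s).V n) :
    x ∈ (T.N s).car n ↔ (T.cov n).Nrm s x := by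
  cases s with
  | zero => exact ⟨fun _ => trivial, fun _ => trivial⟩
  | succ s =>
    constructor
    · intro h j hj
      have h' := (Submodule.mem_iInf _).1 h ⟨j, by omega⟩
      exact h'
    · intro h
      exact (Submodule.mem_iInf _).2 fun j => h j.1 (by omega)

/-- the sum of all cofaces of `x` -/
def del (T : Tower) (s n : ℕ) (x : (T.W s).V n) : (T.W (s + 1)).V n :=
  ∑ i ∈ Finset.range (s + 2), ((T.d s i).app n x : (T.W (s + 1)).V n)

/-- (H1): the complexes `s ↦ H_t (W s)` are exact for `t ≥ 1`, formulated with Moore cycles -/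
def H1 (T : Tower) : Prop :=
  ∀ t, 1 ≤ t →
    (∀ u : (T.W 0).V t, (T.W 0).Moore u → T.del 0 t u ∈ (T.W 1).B t → u ∈ (T.W 0).B t) ∧
    ∀ s (u : (T.W (s + 1)).V t), (T.W (s + 1)).Moore u → T.del (s + 1) t u ∈ (T.W (s + 2)).B t →
      ∃ a : (T.W s).V t, (T.W s).Moore a ∧ u + T.del s t a ∈ (T.W (s + 1)).B t

/-- (H0) -/
def H0 (T : Tower) : Prop :=
  ∀ u : (T.W 0).V 0, T.del 0 0 u ∈ (T.W 1).B 0 → u ∈ (T.W 0).B 0

end Tower

end MM

end

/-! ### from `Lib_MP_33f7bb_d.A104` -/

section

/-!
# A1-04: maps to Tot are compatible families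

`exists_toTot`: given `F` with `T.Fam A F` put, for `x ∈ A_m`,
`(g m x) s (θ, τ) = F s (θ, act τ x)` (for `θ : [n] → [s]`, `τ : [n] → [m]`), and `g m x = T.tot0 m` for
`x ∉ A`.  Naturality in `(θ, τ)` and the two conditions of `IsTot` follow from `Fam`; naturality of `g`
on `A`: `act τ (act g x) = act (g.comp τ) x`.
`fam_ofTot`: for `g` natural on `A`, `F s n (θ, x) = (g n x) s (θ, id)`.  Naturality:
`(g m (act h x)) s (θ.comp h, id) = (act h (g n x)) s (θ.comp h, id) = (g n x) s (θ.comp h, h) =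
act h ((g n x) s (θ, id))`.
`tot_ext`: two functions natural on `A` with the same families agree on `A`:
`(g m x) s (θ, τ) = (act τ (g m x)) s (θ, id) = (g n (act τ x)) s (θ, id)`.
`limit`: `G s := F (s+1) s`; for `n ≥ s + 1` one has `F n s = G s` (induction).
-/

namespace MM

namespace Tower

variable (T : Tower) {P : SS}

/-- the simplex of `Tot` given by a family -/
private def A104_pt (A : Sub P) (F : ∀ s, Fn ((Del s).prod P) (T.W s).ss) (hF : T.Fam A F)
    (m : ℕ) (x : P.S m) (hx : x ∈ A.car m) : T.Tot.S m :=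
  ⟨fun s => ⟨fun n p => F s n (p.1, P.act p.2 x), by
      intro k n h p
      show F s k (p.1.comp h, P.act (p.2.comp h) x) = (T.W s).act h (F s n (p.1, P.act p.2 x))
      rw [← P.act_comp]
      exact hF.nat s h (p.1, P.act p.2 x) ⟨trivial, A.closed p.2 hx⟩⟩,
    ⟨fun s i n θ τ hi => hF.d s i n θ (P.act τ x) (A.closed τ hx) hi,
      fun s j n θ τ hj => hF.σ s j n θ (P.act τ x) (A.closed τ hx) hj⟩⟩

private theorem A104_ext {m : ℕ} (f f' : T.Tot.S m)
    (h : ∀ s n (θ : Mo n s) (τ : Mo n m), (f.1 s).app n (θ, τ) = (f'.1 s).app n (θ, τ)) :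
    f = f' := by
  apply Subtype.ext
  funext s
  apply Hom.ext
  funext n p
  exact h s n p.1 p.2

theorem exists_toTot (A : Sub P) (F : ∀ s, Fn ((Del s).prod P) (T.W s).ss) (hF : T.Fam A F) :
    ∃ g : Fn P T.Tot, NatOn A g ∧ ∀ m, ∀ x ∈ A.car m, ∀ s n (θ : Mo n s) (τ : Mo n m),
      ((g m x).1 s).app n (θ, τ) = F s n (θ, P.act τ x) := by
  classical
  refine ⟨fun m x => if hx : x ∈ A.car m then A104_pt T A F hF m x hx else T.tot0 m, ?_, ?_⟩
  · intro m n h x hx
    have hx' : P.act h x ∈ A.car m := A.closed h hx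
    show (if hx : P.act h x ∈ A.car m then A104_pt T A F hF m _ hx else T.tot0 m) =
      T.Tot.act h (if hx : x ∈ A.car n then A104_pt T A F hF n x hx else T.tot0 n)
    rw [dif_pos hx', dif_pos hx]
    apply A104_ext
    intro s k θ τ
    show F s k (θ, P.act τ (P.act h x)) = F s k (θ, P.act (h.comp τ) x)
    rw [P.act_comp]
  · intro m x hx s n θ τ
    show ((if hx : x ∈ A.car m then A104_pt T A F hF m x hx else T.tot0 m).1 s).app n (θ, τ) = _
    rw [dif_pos hx]
    rfl

theorem fam_ofTot (A : Sub P) (g : Fn P T.Tot) (hg : NatOn A g) :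
    T.Fam A (fun s n p => ((g n p.2).1 s).app n (p.1, OrderHom.id)) := by
  refine ⟨?_, ?_, ?_⟩
  · intro s k n h p hp
    show ((g k (P.act h p.2)).1 s).app k (p.1.comp h, OrderHom.id) =
      (T.W s).act h (((g n p.2).1 s).app n (p.1, OrderHom.id))
    rw [hg h p.2 hp.2]
    exact ((g n p.2).1 s).nat h (p.1, OrderHom.id)
  · intro s i n θ x _ hi
    exact (g n x).2.d s i n θ OrderHom.id hi
  · intro s j n θ x _ hj
    exact (g n x).2.σ s j n θ OrderHom.id hj

theorem tot_ext_iff {m : ℕ} (f f' : T.Tot.S m) :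
    f = f' ↔ ∀ s n (θ : Mo n s) (τ : Mo n m), (f.1 s).app n (θ, τ) = (f'.1 s).app n (θ, τ) :=
  ⟨fun h s n θ τ => by rw [h], A104_ext T f f'⟩

/-- functions natural on `A` are determined on `A` by their families -/
theorem eq_of_fam (A : Sub P) (g g' : Fn P T.Tot) (hg : NatOn A g) (hg' : NatOn A g')
    (h : ∀ s m, ∀ x ∈ A.car m, ∀ θ : Mo m s,
      ((g m x).1 s).app m (θ, OrderHom.id) = ((g' m x).1 s).app m (θ, OrderHom.id)) :
    ∀ m, ∀ x ∈ A.car m, g m x = g' m x := by
  intro m x hx
  rw [tot_ext_iff]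
  intro s n θ τ
  have h1 := h s n (P.act τ x) (A.closed τ hx) θ
  rw [hg τ x hx, hg' τ x hx] at h1
  exact h1

/-- it suffices to extend families -/
theorem extP_of_fam {A C : Sub P} (hAC : A ≤ C)
    (h : ∀ f : ∀ s, Fn ((Del s).prod P) (T.W s).ss, T.Fam A f →
      ∃ F : ∀ s, Fn ((Del s).prod P) (T.W s).ss, T.Fam C F ∧
        ∀ s m (θ : Mo m s), ∀ x ∈ A.car m, F s m (θ, x) = f s m (θ, x)) :
    ExtP T.Tot A C := by
  intro g hg
  obtain ⟨F, hF, hFf⟩ := h _ (fam_ofTot T A g hg)
  obtain ⟨g', hg', hgF⟩ := exists_toTot T C F hF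
  refine ⟨g', hg', ?_⟩
  refine eq_of_fam T A g' g (fun h x hx => hg' h x (hAC _ hx)) hg ?_
  intro s m x hx θ
  rw [hgF m x (hAC m hx), P.act_id, hFf s m θ x hx]

/-- the limit of a sequence of stages in which the function `F s` is constant after step `s + 1` -/
theorem limit {A C : Sub P} (f : ∀ s, Fn ((Del s).prod P) (T.W s).ss)
    (F : ℕ → ∀ s, Fn ((Del s).prod P) (T.W s).ss) (hF : ∀ n, T.Stage A C f n (F n))
    (hc : ∀ n s, s < n → F (n + 1) s = F n s) :
    ∃ G : ∀ s, Fn ((Del s).prod P) (T.W s).ss, T.Fam C G ∧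
      ∀ s m (θ : Mo m s), ∀ x ∈ A.car m, G s m (θ, x) = f s m (θ, x) := by
  have h2 : ∀ s, F (s + 2) s = F (s + 1) s := fun s => hc (s + 1) s (by omega)
  refine ⟨fun s => F (s + 1) s, ⟨?_, ?_, ?_⟩, ?_⟩
  · intro s
    exact (hF (s + 1)).nat s (by omega)
  · intro s i n θ x hx hi
    have h3 := (hF (s + 2)).d s (by omega) i n θ x hx hi
    rw [h2 s] at h3
    exact h3
  · intro s j n θ x hx hj
    have h3 := (hF (s + 2)).σ s (by omega) j n θ x hx hj
    rw [h2 s] at h3
    exact h3
  · intro s m θ x hx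
    exact (hF (s + 1)).ext s (by omega) m θ x hx

/-- dependent choice version: if stage `0` exists and every stage `n` can be continued, changing only
`F n`, there is a complete family -/
theorem exists_of_steps {A C : Sub P} (f : ∀ s, Fn ((Del s).prod P) (T.W s).ss)
    (h0 : ∃ F, T.Stage A C f 0 F)
    (hs : ∀ n F, T.Stage A C f n F → ∃ F', T.Stage A C f (n + 1) F' ∧ ∀ s, s < n → F' s = F s) :
    ∃ G : ∀ s, Fn ((Del s).prod P) (T.W s).ss, T.Fam C G ∧
      ∀ s m (θ : Mo m s), ∀ x ∈ A.car m, G s m (θ, x) = f s m (θ, x) := by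
  obtain ⟨F0, hF0⟩ := h0
  choose nx hnx hnx' using hs
  let sq : ∀ n, {F // T.Stage A C f n F} := fun n =>
    Nat.rec ⟨F0, hF0⟩ (fun n F => ⟨nx n F.1 F.2, hnx n F.1 F.2⟩) n
  exact limit T f (fun n => (sq n).1) (fun n => (sq n).2)
    (fun n s hsn => hnx' n (sq n).1 (sq n).2 s hsn)

end Tower

end MM

end

/-! ### from `Lib_MP_33f7bb_d.A101` -/

section

/-!
# A1-01: cosimplicial vector spaces: section, projector, normalisation (T1, T2, T3)

Everything is about one `CoV` (levels `C s`, cofaces `d s i` additive for `1 ≤ i ≤ s + 1`, natural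
number indices).  Over `ZMod 2`: `x + x = 0` (`two_eq_zero'`).

`sec_σ` (T1).  Let `x_0 = d^1 m_0`, `x_j = x_(j-1) + d^(j+1) (m_j + σ^j x_(j-1))` (`sec`).  Claim:
`σ^i x_j = m_i` for `i ≤ j ≤ s`.  `i = j`: `σ^j x_j = σ^j x_(j-1) + m_j + σ^j x_(j-1)`
(`σd_eq'`); `i < j` (then `s = s' + 1`): `σ^i d^(j+1) y = d^j σ^i y` (`σd_gt`) and
`σ^i (m_j + σ^j x_(j-1)) = σ^i m_j + σ^(j-1) σ^i x_(j-1) = σ^i m_j + σ^(j-1) m_i = 0` (`σσ`, `Compat`).

`prj` (T2).  `P_j x = x + d^(j+1) σ^j x`, `prj s j = P_(j-1) ... P_0`.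
`σ^j P_j = 0`; for `i < j`, if `σ^i y = 0` then `σ^i P_j y = d^j σ^i σ^j y = d^j σ^(j-1) σ^i y = 0`.
`P_j (d^(j+1) y) = 0`; for `j + 1 < i`: `P_j (d^i y) = d^i (P_j y)` (for `y ∈ C s`, `s ≥ 1`):
`d^(j+1) σ^j d^i y = d^(j+1) d^(i-1) σ^j y = d^i d^(j+1) σ^j y`.

`pi_del` (T3).  If `d s 0` is additive for all `s`, then `pi (s+1) (del s x) = del s (pi s x)`.
Proof: `del (pi x)` is normalised: `σ^j d^i a = 0` for `a` normalised and `i ≠ j, j + 1`, and the two
terms `i = j, j + 1` give `a + a = 0`.  So `pi (del (pi x)) = del (pi x)`.  And `x + pi x` is a sum of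
elements `d^i y`, `i ≥ 1`; `del (d^i y) = ∑_k d^k d^i y` is a sum of elements `d^(i') y'` with
`i' ≥ 1` (`d^0 d^i y = d^(i+1) d^0 y`), so `pi (del (x + pi x)) = 0` by `pi_d`.
-/

namespace MM

namespace CoV

variable (T : CoV)

private theorem A101_sec_aux (s : ℕ) (m : ℕ → T.C s) (h : T.Compat s m) (j : ℕ) (hj : j ≤ s) :
    ∀ i, i ≤ j → T.σ s i (T.sec s m j) = m i := by
  induction j with
  | zero =>
    intro i hi
    obtain rfl : i = 0 := by omega
    show T.σ s 0 (T.d s 1 (m 0)) = m 0
    exact T.σd_eq' s 0 (m 0) (Nat.zero_le _)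
  | succ j ih =>
    intro i hi
    have ih' := ih (by omega)
    show T.σ s i (T.sec s m j + T.d s (j + 2) (m (j + 1) + T.σ s (j + 1) (T.sec s m j))) = m i
    rw [map_add]
    rcases Nat.lt_or_ge i (j + 1) with hij | hij
    · obtain ⟨s', rfl⟩ : ∃ s', s = s' + 1 := ⟨s - 1, by omega⟩
      have hij' : i ≤ j := by omega
      have hjs : j ≤ s' := by omega
      have hc : T.σ s' i (m (j + 1)) = T.σ s' j (m i) := h i j hij' hjs
      rw [T.σd_gt s' i j _ hij' hjs, map_add, ← T.σσ s' i j _ hij' hjs, ih' i hij', hc,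
        two_eq_zero', T.d_zero, add_zero]
    · obtain rfl : i = j + 1 := by omega
      rw [T.σd_eq' s (j + 1) _ (by omega), add_comm (m (j + 1)), ← add_assoc, two_eq_zero',
        zero_add]

theorem sec_σ (s : ℕ) (m : ℕ → T.C s) (h : T.Compat s m) (j : ℕ) (hj : j ≤ s) :
    T.σ s j (T.sec s m s) = m j :=
  A101_sec_aux T s m h s le_rfl j hj

theorem prj_add (s j : ℕ) (hj : j ≤ s + 1) (x y : T.C (s + 1)) :
    T.prj s j (x + y) = T.prj s j x + T.prj s j y := by
  induction j with
  | zero => rfl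
  | succ j ih =>
    show T.prj s j (x + y) + T.d s (j + 1) (T.σ s j (T.prj s j (x + y))) =
      (T.prj s j x + T.d s (j + 1) (T.σ s j (T.prj s j x))) +
        (T.prj s j y + T.d s (j + 1) (T.σ s j (T.prj s j y)))
    rw [ih (by omega), map_add, T.d_add s (j + 1) _ _ (by omega) hj]
    abel

theorem σ_prj (s i j : ℕ) (hi : i < j) (hj : j ≤ s + 1) (x : T.C (s + 1)) :
    T.σ s i (T.prj s j x) = 0 := by
  induction j with
  | zero => omega
  | succ j ih =>
    show T.σ s i (T.prj s j x + T.d s (j + 1) (T.σ s j (T.prj s j x))) = 0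
    rw [map_add]
    rcases Nat.lt_or_ge i j with hij | hij
    · have ih' := ih hij (by omega)
      obtain ⟨j', rfl⟩ : ∃ j', j = j' + 1 := ⟨j - 1, by omega⟩
      obtain ⟨s', rfl⟩ : ∃ s', s = s' + 1 := ⟨s - 1, by omega⟩
      rw [ih', zero_add]
      rw [T.σd_gt s' i j' _ (by omega) (by omega), ← T.σσ s' i j' _ (by omega) (by omega), ih',
        map_zero, T.d_zero]
    · obtain rfl : i = j := by omega
      rw [T.σd_eq' s i _ (by omega), two_eq_zero']

theorem prj_of_nrm (s j : ℕ) (hj : j ≤ s + 1) (x : T.C (s + 1)) (hx : T.Nrm (s + 1) x) :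
    T.prj s j x = x := by
  induction j with
  | zero => rfl
  | succ j ih =>
    show T.prj s j x + T.d s (j + 1) (T.σ s j (T.prj s j x)) = x
    have hx' : T.σ s j x = 0 := hx j (by omega)
    rw [ih (by omega), hx', T.d_zero, add_zero]

theorem nrm_pi (s : ℕ) (x : T.C s) : T.Nrm s (T.pi s x) := by
  cases s with
  | zero => trivial
  | succ s =>
    intro j hj
    exact σ_prj T s j (s + 1) (by omega) le_rfl x

theorem pi_of_nrm (s : ℕ) (x : T.C s) (hx : T.Nrm s x) : T.pi s x = x := by
  cases s with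
  | zero => rfl
  | succ s => exact prj_of_nrm T s (s + 1) le_rfl x hx

theorem pi_add (s : ℕ) (x y : T.C s) : T.pi s (x + y) = T.pi s x + T.pi s y := by
  cases s with
  | zero => rfl
  | succ s => exact prj_add T s (s + 1) le_rfl x y

private theorem A101_prj_zero (s j : ℕ) : T.prj s j (0 : T.C (s + 1)) = 0 := by
  induction j with
  | zero => rfl
  | succ j ih =>
    show T.prj s j 0 + T.d s (j + 1) (T.σ s j (T.prj s j 0)) = 0
    rw [ih, map_zero, T.d_zero, add_zero]

private theorem A101_prj_d (s i j : ℕ) (x : T.C s) (hi : i ≤ s + 1) (hj : j < i) :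
    ∃ y, T.prj s j (T.d s i x) = T.d s i y := by
  induction j with
  | zero => exact ⟨x, rfl⟩
  | succ j ih =>
    obtain ⟨y, hy⟩ := ih (by omega)
    obtain ⟨s', rfl⟩ : ∃ s', s = s' + 1 := ⟨s - 1, by omega⟩
    obtain ⟨k, rfl⟩ : ∃ k, i = k + 2 := ⟨i - 2, by omega⟩
    refine ⟨y + T.d s' (j + 1) (T.σ s' j y), ?_⟩
    show T.prj (s' + 1) j (T.d (s' + 1) (k + 2) x) +
      T.d (s' + 1) (j + 1) (T.σ (s' + 1) j (T.prj (s' + 1) j (T.d (s' + 1) (k + 2) x))) = _
    rw [hy, T.σd_gt s' j k _ (by omega) (by omega), T.d_add _ _ _ _ (by omega) hi,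
      ← T.dd s' (j + 1) (k + 1) _ (by omega) (by omega)]

private theorem A101_prj_d0 (s i j : ℕ) (x : T.C s) (h : 1 ≤ i) (hi : i ≤ s + 1) (hj : i ≤ j) :
    T.prj s j (T.d s i x) = 0 := by
  induction j, hj using Nat.le_induction with
  | base =>
    obtain ⟨k, rfl⟩ : ∃ k, i = k + 1 := ⟨i - 1, by omega⟩
    obtain ⟨y, hy⟩ := A101_prj_d T s (k + 1) k x hi (by omega)
    show T.prj s k (T.d s (k + 1) x) +
      T.d s (k + 1) (T.σ s k (T.prj s k (T.d s (k + 1) x))) = 0
    rw [hy, T.σd_eq' s k _ (by omega), two_eq_zero']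
  | succ j _ ih =>
    show T.prj s j (T.d s i x) + T.d s (j + 1) (T.σ s j (T.prj s j (T.d s i x))) = 0
    rw [ih, map_zero, T.d_zero, add_zero]

theorem pi_d (s i : ℕ) (x : T.C s) (h : 1 ≤ i) (hi : i ≤ s + 1) :
    T.pi (s + 1) (T.d s i x) = 0 :=
  A101_prj_d0 T s i (s + 1) x h hi hi

private def A101_D (s : ℕ) : AddSubgroup (T.C (s + 1)) :=
  AddSubgroup.closure {z | ∃ i y, 1 ≤ i ∧ i ≤ s + 1 ∧ z = T.d s i y}

private theorem A101_D_mem (s i : ℕ) (y : T.C s) (h : 1 ≤ i) (hi : i ≤ s + 1) :
    T.d s i y ∈ A101_D T s :=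
  AddSubgroup.subset_closure ⟨i, y, h, hi, rfl⟩

private theorem A101_pi_zero (s : ℕ) : T.pi s (0 : T.C s) = 0 := by
  cases s with
  | zero => rfl
  | succ s => exact A101_prj_zero T s (s + 1)

private theorem A101_pi_D (s : ℕ) (z : T.C (s + 1)) (hz : z ∈ A101_D T s) :
    T.pi (s + 1) z = 0 := by
  unfold A101_D at hz
  induction hz using AddSubgroup.closure_induction with
  | mem z hz =>
    obtain ⟨i, y, h, hi, rfl⟩ := hz
    exact pi_d T s i y h hi
  | zero => exact A101_pi_zero T (s + 1)
  | add x y _ _ hx hy => rw [pi_add, hx, hy, add_zero]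
  | neg x _ hx => rw [neg_eq', hx]

private theorem A101_del_add (h0 : ∀ s (x y : T.C s), T.d s 0 (x + y) = T.d s 0 x + T.d s 0 y)
    (s : ℕ) (x y : T.C s) : T.del s (x + y) = T.del s x + T.del s y := by
  unfold del
  rw [← Finset.sum_add_distrib]
  refine Finset.sum_congr rfl fun i hi => ?_
  have hi' := Finset.mem_range.1 hi
  rcases Nat.eq_zero_or_pos i with rfl | hp
  · exact h0 s x y
  · exact T.d_add s i x y hp (by omega)

private theorem A101_del_zero (s : ℕ) : T.del s (0 : T.C s) = 0 := by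
  unfold del
  exact Finset.sum_eq_zero fun i _ => T.d_zero s i

private theorem A101_del_D (h0 : ∀ s (x y : T.C s), T.d s 0 (x + y) = T.d s 0 x + T.d s 0 y)
    (s : ℕ) (z : T.C (s + 1)) (hz : z ∈ A101_D T s) : T.del (s + 1) z ∈ A101_D T (s + 1) := by
  unfold A101_D at hz
  induction hz using AddSubgroup.closure_induction with
  | mem z hz =>
    obtain ⟨i, y, h, hi, rfl⟩ := hz
    unfold del
    refine AddSubgroup.sum_mem _ fun k hk => ?_
    have hk' := Finset.mem_range.1 hk
    rcases Nat.eq_zero_or_pos k with rfl | hp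
    · rw [← T.dd s 0 i y (Nat.zero_le _) hi]
      exact A101_D_mem T (s + 1) (i + 1) _ (by omega) (by omega)
    · exact A101_D_mem T (s + 1) k _ hp (by omega)
  | zero =>
    rw [A101_del_zero]
    exact AddSubgroup.zero_mem _
  | add x y _ _ hx hy =>
    rw [A101_del_add T h0]
    exact AddSubgroup.add_mem _ hx hy
  | neg x _ hx =>
    rw [neg_eq']
    exact hx

private theorem A101_add_prj (s j : ℕ) (hj : j ≤ s + 1) (x : T.C (s + 1)) :
    x + T.prj s j x ∈ A101_D T s := by
  induction j with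
  | zero =>
    show x + x ∈ _
    rw [two_eq_zero']
    exact AddSubgroup.zero_mem _
  | succ j ih =>
    show x + (T.prj s j x + T.d s (j + 1) (T.σ s j (T.prj s j x))) ∈ _
    rw [← add_assoc]
    exact AddSubgroup.add_mem _ (ih (by omega)) (A101_D_mem T s (j + 1) _ (by omega) hj)

private theorem A101_nrm_del (s : ℕ) (a : T.C s) (ha : T.Nrm s a) :
    T.Nrm (s + 1) (T.del s a) := by
  intro j hj
  unfold del
  rw [map_sum]
  have hz : ∀ i ∈ Finset.range (s + 2), i ∉ ({j, j + 1} : Finset ℕ) →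
      T.σ s j (T.d s i a) = 0 := by
    intro i hi hni
    have hi' := Finset.mem_range.1 hi
    simp only [Finset.mem_insert, Finset.mem_singleton, not_or] at hni
    rcases Nat.lt_or_ge i j with hij | hij
    · obtain ⟨j', rfl⟩ : ∃ j', j = j' + 1 := ⟨j - 1, by omega⟩
      obtain ⟨s', rfl⟩ : ∃ s', s = s' + 1 := ⟨s - 1, by omega⟩
      have ha' : T.σ s' j' a = 0 := ha j' (by omega)
      rw [T.σd_lt s' i j' a (by omega) (by omega), ha', T.d_zero]
    · obtain ⟨k, rfl⟩ : ∃ k, i = k + 2 := ⟨i - 2, by omega⟩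
      obtain ⟨s', rfl⟩ : ∃ s', s = s' + 1 := ⟨s - 1, by omega⟩
      have ha' : T.σ s' j a = 0 := ha j (by omega)
      rw [T.σd_gt s' j k a (by omega) (by omega), ha', T.d_zero]
  have hsub : ({j, j + 1} : Finset ℕ) ⊆ Finset.range (s + 2) := by
    intro i hi
    simp only [Finset.mem_insert, Finset.mem_singleton] at hi
    exact Finset.mem_range.2 (by omega)
  rw [← Finset.sum_subset hsub hz, Finset.sum_pair (by omega), T.σd_eq s j a hj,
    T.σd_eq' s j a hj, two_eq_zero']

theorem pi_del (h0 : ∀ s (x y : T.C s), T.d s 0 (x + y) = T.d s 0 x + T.d s 0 y) (s : ℕ)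
    (x : T.C s) : T.pi (s + 1) (T.del s x) = T.del s (T.pi s x) := by
  have h1 : T.pi (s + 1) (T.del s (T.pi s x)) = T.del s (T.pi s x) :=
    pi_of_nrm T (s + 1) _ (A101_nrm_del T s _ (nrm_pi T s x))
  cases s with
  | zero => exact h1
  | succ s =>
    have h2 : T.pi (s + 1 + 1) (T.del (s + 1) (x + T.pi (s + 1) x)) = 0 :=
      A101_pi_D T (s + 1) _ (A101_del_D T h0 s _ (A101_add_prj T s (s + 1) le_rfl x))
    have h3 : x = (x + T.pi (s + 1) x) + T.pi (s + 1) x := by
      rw [add_assoc, two_eq_zero', add_zero]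
    calc T.pi (s + 1 + 1) (T.del (s + 1) x)
        = T.pi (s + 1 + 1) (T.del (s + 1) ((x + T.pi (s + 1) x) + T.pi (s + 1) x)) := by
          rw [← h3]
      _ = T.pi (s + 1 + 1) (T.del (s + 1) (x + T.pi (s + 1) x)) +
            T.pi (s + 1 + 1) (T.del (s + 1) (T.pi (s + 1) x)) := by
          rw [A101_del_add T h0, pi_add]
      _ = T.del (s + 1) (T.pi (s + 1) x) := by rw [h2, h1, zero_add]

/-- (T3) normalised coboundaries are coboundaries of normalised elements -/
theorem del_pi_of_nrm (h0 : ∀ s (x y : T.C s), T.d s 0 (x + y) = T.d s 0 x + T.d s 0 y) (s : ℕ)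
    (o : T.C (s + 1)) (ho : T.Nrm (s + 1) o) (a : T.C s) (h : o = T.del s a) :
    o = T.del s (T.pi s a) := by
  rw [← pi_del T h0 s a, ← h]
  exact (pi_of_nrm T (s + 1) o ho).symm

/-- maps commuting with the operators commute with `sec` -/
theorem sec_map {T T' : CoV} (φ : ∀ s, T.C s →ₗ[ZMod 2] T'.C s)
    (hd : ∀ s i x, φ (s + 1) (T.d s i x) = T'.d s i (φ s x))
    (hσ : ∀ s j x, φ s (T.σ s j x) = T'.σ s j (φ (s + 1) x)) (s : ℕ) (m : ℕ → T.C s) (j : ℕ) :
    φ (s + 1) (T.sec s m j) = T'.sec s (fun i => φ s (m i)) j := by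
  induction j with
  | zero => exact hd s 1 (m 0)
  | succ j ih =>
    show φ (s + 1) (T.sec s m j + T.d s (j + 2) (m (j + 1) + T.σ s (j + 1) (T.sec s m j))) =
      T'.sec s (fun i => φ s (m i)) j + T'.d s (j + 2) (φ s (m (j + 1)) +
        T'.σ s (j + 1) (T'.sec s (fun i => φ s (m i)) j))
    rw [map_add, hd, map_add, hσ, ih]

private theorem A101_prj_map {T T' : CoV} (φ : ∀ s, T.C s →ₗ[ZMod 2] T'.C s)
    (hd : ∀ s i x, φ (s + 1) (T.d s i x) = T'.d s i (φ s x))
    (hσ : ∀ s j x, φ s (T.σ s j x) = T'.σ s j (φ (s + 1) x)) (s : ℕ) (x : T.C (s + 1)) (j : ℕ) :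
    φ (s + 1) (T.prj s j x) = T'.prj s j (φ (s + 1) x) := by
  induction j with
  | zero => rfl
  | succ j ih =>
    show φ (s + 1) (T.prj s j x + T.d s (j + 1) (T.σ s j (T.prj s j x))) =
      T'.prj s j (φ (s + 1) x) + T'.d s (j + 1) (T'.σ s j (T'.prj s j (φ (s + 1) x)))
    rw [map_add, hd, hσ, ih]

/-- maps commuting with the operators commute with `pi` -/
theorem pi_map {T T' : CoV} (φ : ∀ s, T.C s →ₗ[ZMod 2] T'.C s)
    (hd : ∀ s i x, φ (s + 1) (T.d s i x) = T'.d s i (φ s x))
    (hσ : ∀ s j x, φ s (T.σ s j x) = T'.σ s j (φ (s + 1) x)) (s : ℕ) (x : T.C s) :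
    φ s (T.pi s x) = T'.pi s (φ s x) := by
  cases s with
  | zero => rfl
  | succ s => exact A101_prj_map φ hd hσ s x (s + 1)

end CoV

end MM

end

/-! ### from `Lib_MP_33f7bb_d.A105` -/

section

/-!
# A1-05: the gluing lemma

Given stage `n` of a family on `C` extending `f` on `A`, the next function `F (n+1)` is prescribed on
`∂Δ^(n+1) × C ∪ Δ^(n+1) × A`: for `x ∈ A` it is `f (n+1) (θ, x)`, for `x ∈ C` and
`θ = (dl n i).comp θ'` it is `d^i (F n (θ', x))`.

Definition: `b (θ, x) = f (n+1) (θ, x)` if `x ∈ A`; otherwise, if some `i ≤ n + 1` is not a value of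
`θ`, take such an `i` and `θ'` with `θ = (dl n i).comp θ'` and put `b (θ, x) = d^i (F n (θ', x))`;
otherwise `0`.
Independence of `i`: if `i < j` are both missing, then `n ≥ 1` (`dl_zero_ne`), `n = n' + 1`, and
`θ = (dl n i).comp θ_1 = (dl n j).comp θ_2` with `θ_1 = (dl n' (j-1)).comp θ''`,
`θ_2 = (dl n' i).comp θ''` (`exists_dl_dl`), so `d^i (F n (θ_1, x)) = d^i d^(j-1) (F n' (θ'', x)) =
d^j d^i (F n' (θ'', x)) = d^j (F n (θ_2, x))` (`dd`, `Stage.d`).
If `x ∈ A` and `θ = (dl n i).comp θ'` both prescriptions agree: `Stage.ext`, `Fam.d`.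
Naturality: `b (θ.comp g, act g x)` with the same `i`.
`σ`: for `x ∈ A`: `Fam.σ` and `Stage.ext`.  For `θ = (dl n i).comp θ'`, `x ∈ C`, `j ≤ n`:
`i < j` (`n = n' + 1`): `σ^j d^i = d^i σ^(j-1)` (`σd_lt`), `σ^(j-1) F n (θ', x) = F n' (σ^(j-1) θ', x)`
(`Stage.σ`) and `(sg n j).comp (dl n i) = (dl n' i).comp (sg n' (j-1))`, then `Stage.d`;
`i = j, j + 1`: both sides are `F n (θ', x)`; `i > j + 1`: `σd_gt`,
`(sg n j).comp (dl n i) = (dl n' (i-1)).comp (sg n' j)`.
The identities between `dl` and `sg` are proved by `ext` and `omega` (`dl_val`, `sg_val`).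
-/

namespace MM

theorem dl_dl {s i j : ℕ} (h : i ≤ j) (hj : j ≤ s + 1) :
    (dl (s + 1) (j + 1)).comp (dl s i) = (dl (s + 1) i).comp (dl s j) := by
  ext k
  have := k.2
  simp only [OrderHom.comp_coe, Function.comp_apply, dl_val]
  split_ifs <;> omega

theorem sg_dl_lt {s i j : ℕ} (h : i ≤ j) (hj : j ≤ s) :
    (sg (s + 1) (j + 1)).comp (dl (s + 1) i) = (dl s i).comp (sg s j) := by
  ext k
  have := k.2
  simp only [OrderHom.comp_coe, Function.comp_apply, dl_val, sg_val]
  split_ifs <;> omega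

theorem sg_dl_eq {s j : ℕ} (hj : j ≤ s) : (sg s j).comp (dl s j) = OrderHom.id := by
  ext k
  have := k.2
  simp only [OrderHom.comp_coe, Function.comp_apply, dl_val, sg_val, OrderHom.id_coe, id_eq]
  split_ifs <;> omega

theorem sg_dl_eq' {s j : ℕ} (hj : j ≤ s) : (sg s j).comp (dl s (j + 1)) = OrderHom.id := by
  ext k
  have := k.2
  simp only [OrderHom.comp_coe, Function.comp_apply, dl_val, sg_val, OrderHom.id_coe, id_eq]
  split_ifs <;> omega

theorem sg_dl_gt {s i j : ℕ} (h : i ≤ j) (hj : j ≤ s) :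
    (sg (s + 1) i).comp (dl (s + 1) (j + 2)) = (dl s (j + 1)).comp (sg s i) := by
  ext k
  have := k.2
  simp only [OrderHom.comp_coe, Function.comp_apply, dl_val, sg_val]
  split_ifs <;> omega

theorem sg_sg {s i j : ℕ} (h : i ≤ j) (hj : j ≤ s) :
    (sg s j).comp (sg (s + 1) i) = (sg s i).comp (sg (s + 1) (j + 1)) := by
  ext k
  have := k.2
  simp only [OrderHom.comp_coe, Function.comp_apply, sg_val]
  split_ifs <;> omega

/-- a non surjective map factors through the coface which skips a missing value -/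
theorem exists_dl {m n : ℕ} (θ : Mo m (n + 1)) (i : ℕ) (hi : i ≤ n + 1) (h : ∀ t, (θ t).1 ≠ i) :
    ∃ θ' : Mo m n, θ = (dl n i).comp θ' := by
  refine ⟨⟨fun t => ⟨if (θ t).1 < i then (θ t).1 else (θ t).1 - 1, ?_⟩, ?_⟩, ?_⟩
  · have h1 := (θ t).2
    have h2 := h t
    split_ifs <;> omega
  · intro a b hab
    have h1 : (θ a).1 ≤ (θ b).1 := θ.monotone hab
    have h2 := h a
    have h3 := h b
    show (if (θ a).1 < i then (θ a).1 else (θ a).1 - 1) ≤
      (if (θ b).1 < i then (θ b).1 else (θ b).1 - 1)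
    split_ifs <;> omega
  · ext t
    have h1 := (θ t).2
    have h2 := h t
    simp only [OrderHom.comp_coe, Function.comp_apply, dl_val, OrderHom.coe_mk]
    split_ifs <;> omega

theorem dl_injective {m n i : ℕ} {θ θ' : Mo m n} (h : (dl n i).comp θ = (dl n i).comp θ') :
    θ = θ' := by
  ext t
  have h1 := congrArg Fin.val (DFunLike.congr_fun h t)
  simp only [OrderHom.comp_coe, Function.comp_apply, dl_val] at h1
  split_ifs at h1 <;> omega

/-- two missing values -/
theorem exists_dl_dl {m n : ℕ} (θ₁ θ₂ : Mo m (n + 1)) (i j : ℕ) (hij : i ≤ j) (hj : j ≤ n + 1)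
    (h : (dl (n + 1) i).comp θ₁ = (dl (n + 1) (j + 1)).comp θ₂) :
    ∃ θ : Mo m n, θ₁ = (dl n j).comp θ ∧ θ₂ = (dl n i).comp θ := by
  have key : ∀ t, (if (θ₁ t).1 < i then (θ₁ t).1 else (θ₁ t).1 + 1) =
      (if (θ₂ t).1 < j + 1 then (θ₂ t).1 else (θ₂ t).1 + 1) := by
    intro t
    have h1 := congrArg Fin.val (DFunLike.congr_fun h t)
    simpa only [OrderHom.comp_coe, Function.comp_apply, dl_val] using h1
  obtain ⟨θ, hθ⟩ := exists_dl θ₁ j hj (fun t => by
    have := key t
    split_ifs at this <;> omega)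
  refine ⟨θ, hθ, ?_⟩
  have h2 : (dl (n + 1) (j + 1)).comp θ₂ = (dl (n + 1) (j + 1)).comp ((dl n i).comp θ) := by
    rw [← h, hθ, ← OrderHom.comp_assoc, ← OrderHom.comp_assoc, dl_dl hij hj]
  exact dl_injective h2

/-- a map to `[1]` cannot miss both values -/
theorem dl_zero_ne {m : ℕ} (θ₁ θ₂ : Mo m 0) : (dl 0 0).comp θ₁ ≠ (dl 0 1).comp θ₂ := by
  intro h
  have h1 := congrArg Fin.val (DFunLike.congr_fun h 0)
  have h2 := (θ₁ 0).2
  have h3 := (θ₂ 0).2
  simp only [OrderHom.comp_coe, Function.comp_apply, dl_val] at h1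
  split_ifs at h1 <;> omega

namespace Tower

/-- the prescribed values over the boundary -/
private def A105_pre (T : Tower) {P : SS} (n : ℕ) (F : ∀ s, Fn ((Del s).prod P) (T.W s).ss)
    {m : ℕ} (θ : Mo m (n + 1)) (x : P.S m) (v : (T.W (n + 1)).V m) : Prop :=
  ∃ (i : ℕ) (θ' : Mo m n), i ≤ n + 1 ∧ θ = (dl n i).comp θ' ∧
    v = (T.d n i).app m (F n m (θ', x))

private theorem A105_uniq_lt (T : Tower) {P : SS} {A C : Sub P}
    {f : ∀ s, Fn ((Del s).prod P) (T.W s).ss} {n : ℕ}
    {F : ∀ s, Fn ((Del s).prod P) (T.W s).ss} (hF : T.Stage A C f n F)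
    {m : ℕ} (θ₁ θ₂ : Mo m n) (x : P.S m) (hx : x ∈ C.car m) (i j : ℕ) (hij : i < j)
    (hj : j ≤ n + 1) (h : (dl n i).comp θ₁ = (dl n j).comp θ₂) :
    (T.d n i).app m (F n m (θ₁, x)) = (T.d n j).app m (F n m (θ₂, x)) := by
  obtain ⟨j, rfl⟩ : ∃ j', j = j' + 1 := ⟨j - 1, by omega⟩
  cases n with
  | zero =>
    obtain rfl : i = 0 := by omega
    obtain rfl : j = 0 := by omega
    exact absurd h (dl_zero_ne θ₁ θ₂)
  | succ n =>
    obtain ⟨θ, h1, h2⟩ := exists_dl_dl θ₁ θ₂ i j (by omega) (by omega) h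
    rw [h1, h2, hF.d n (Nat.lt_succ_self n) j m θ x hx (by omega),
      hF.d n (Nat.lt_succ_self n) i m θ x hx (by omega)]
    exact (T.dd n i j m _ (by omega) (by omega)).symm

private theorem A105_uniq (T : Tower) {P : SS} {A C : Sub P}
    {f : ∀ s, Fn ((Del s).prod P) (T.W s).ss} {n : ℕ}
    {F : ∀ s, Fn ((Del s).prod P) (T.W s).ss} (hF : T.Stage A C f n F)
    {m : ℕ} (θ : Mo m (n + 1)) (x : P.S m) (hx : x ∈ C.car m) (v w : (T.W (n + 1)).V m)
    (hv : T.A105_pre n F θ x v) (hw : T.A105_pre n F θ x w) : v = w := by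
  obtain ⟨i, θ₁, hi, h1, rfl⟩ := hv
  obtain ⟨j, θ₂, hj, h2, rfl⟩ := hw
  rcases lt_trichotomy i j with hij | hij | hij
  · exact T.A105_uniq_lt hF θ₁ θ₂ x hx i j hij hj (h1.symm.trans h2)
  · subst hij
    rw [dl_injective (h1.symm.trans h2)]
  · exact (T.A105_uniq_lt hF θ₂ θ₁ x hx j i hij hi (h2.symm.trans h1)).symm

open Classical in
/-- the glued function -/
private noncomputable def A105_b (T : Tower) {P : SS} (A : Sub P)
    (f : ∀ s, Fn ((Del s).prod P) (T.W s).ss) (n : ℕ)
    (F : ∀ s, Fn ((Del s).prod P) (T.W s).ss) :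
    Fn ((Del (n + 1)).prod P) (T.W (n + 1)).ss :=
  fun m y => if y.2 ∈ A.car m then f (n + 1) m y else
    if h : ∃ v, T.A105_pre n F y.1 y.2 v then h.choose else (0 : (T.W (n + 1)).V m)

private theorem A105_b_ext (T : Tower) {P : SS} (A : Sub P)
    (f : ∀ s, Fn ((Del s).prod P) (T.W s).ss) (n : ℕ)
    (F : ∀ s, Fn ((Del s).prod P) (T.W s).ss) (m : ℕ) (θ : Mo m (n + 1)) (x : P.S m)
    (hx : x ∈ A.car m) : T.A105_b A f n F m (θ, x) = f (n + 1) m (θ, x) := by
  unfold A105_b
  exact if_pos hx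

private theorem A105_b_d (T : Tower) {P : SS} {A C : Sub P}
    {f : ∀ s, Fn ((Del s).prod P) (T.W s).ss} (hf : T.Fam A f) {n : ℕ}
    {F : ∀ s, Fn ((Del s).prod P) (T.W s).ss} (hF : T.Stage A C f n F)
    (i m : ℕ) (θ : Mo m n) (x : P.S m) (hi : i ≤ n + 1) (hx : x ∈ C.car m) :
    T.A105_b A f n F m ((dl n i).comp θ, x) = (T.d n i).app m (F n m (θ, x)) := by
  by_cases hA : x ∈ A.car m
  · rw [T.A105_b_ext A f n F m _ x hA, hF.ext n le_rfl m θ x hA]
    exact hf.d n i m θ x hA hi
  · have hex : ∃ v, T.A105_pre n F ((dl n i).comp θ) x v := ⟨_, i, θ, hi, rfl, rfl⟩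
    have h1 : T.A105_b A f n F m ((dl n i).comp θ, x) = hex.choose := by
      unfold A105_b
      exact (if_neg hA).trans (dif_pos hex)
    rw [h1]
    exact T.A105_uniq hF _ x hx _ _ hex.choose_spec ⟨i, θ, hi, rfl, rfl⟩

private theorem A105_bd {m n : ℕ} (θ : Mo m (n + 1)) (h : ¬ Function.Surjective θ) :
    ∃ (i : ℕ) (θ' : Mo m n), i ≤ n + 1 ∧ θ = (dl n i).comp θ' := by
  unfold Function.Surjective at h
  push Not at h
  obtain ⟨y, hy⟩ := h
  have hi : y.1 ≤ n + 1 := by have := y.2; omega
  obtain ⟨θ', h'⟩ := exists_dl θ y.1 hi (fun t ht => hy t (Fin.ext ht))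
  exact ⟨y.1, θ', hi, h'⟩

private theorem A105_σ (T : Tower) {P : SS} {A C : Sub P}
    {f : ∀ s, Fn ((Del s).prod P) (T.W s).ss} {n : ℕ}
    {F : ∀ s, Fn ((Del s).prod P) (T.W s).ss} (hF : T.Stage A C f n F)
    (i j m : ℕ) (θ : Mo m n) (x : P.S m) (hi : i ≤ n + 1) (hj : j ≤ n) (hx : x ∈ C.car m) :
    (T.σ n j).app m ((T.d n i).app m (F n m (θ, x))) =
      F n m ((sg n j).comp ((dl n i).comp θ), x) := by
  rw [← OrderHom.comp_assoc]
  rcases lt_trichotomy i j with hij | hij | hij
  · obtain ⟨j, rfl⟩ : ∃ j', j = j' + 1 := ⟨j - 1, by omega⟩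
    obtain ⟨n, rfl⟩ : ∃ n', n = n' + 1 := ⟨n - 1, by omega⟩
    rw [T.σd_lt n i j m _ (by omega) (by omega), sg_dl_lt (by omega) (by omega),
      OrderHom.comp_assoc, hF.d n (Nat.lt_succ_self n) i m _ x hx (by omega),
      hF.σ n (Nat.lt_succ_self n) j m θ x hx (by omega)]
  · subst hij
    rw [T.σd_eq n i m _ hj, sg_dl_eq hj]
    rfl
  · by_cases hij' : i = j + 1
    · subst hij'
      rw [T.σd_eq' n j m _ hj, sg_dl_eq' hj]
      rfl
    · obtain ⟨i, rfl⟩ : ∃ i', i = i' + 2 := ⟨i - 2, by omega⟩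
      obtain ⟨n, rfl⟩ : ∃ n', n = n' + 1 := ⟨n - 1, by omega⟩
      rw [T.σd_gt n j i m _ (by omega) (by omega), sg_dl_gt (by omega) (by omega),
        OrderHom.comp_assoc, hF.d n (Nat.lt_succ_self n) (i + 1) m _ x hx (by omega),
        hF.σ n (Nat.lt_succ_self n) j m θ x hx (by omega)]

theorem exists_glue (T : Tower) {P : SS} {A C : Sub P} (hAC : A ≤ C)
    {f : ∀ s, Fn ((Del s).prod P) (T.W s).ss} (hf : T.Fam A f) {n : ℕ}
    {F : ∀ s, Fn ((Del s).prod P) (T.W s).ss} (hF : T.Stage A C f n F) :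
    ∃ b : Fn ((Del (n + 1)).prod P) (T.W (n + 1)).ss, T.Glue A C f n F b := by
  refine ⟨T.A105_b A f n F, ⟨?_, ?_, ?_, ?_⟩⟩
  · rintro m k g ⟨θ, x⟩ hx
    obtain ⟨⟨-, hxC⟩, hx'⟩ := hx
    by_cases hA : x ∈ A.car k
    · show T.A105_b A f n F m (θ.comp g, P.act g x) = _
      rw [T.A105_b_ext A f n F m _ _ (A.closed g hA), T.A105_b_ext A f n F k _ _ hA]
      exact hf.nat (n + 1) g (θ, x) ⟨trivial, hA⟩
    · obtain ⟨i, θ', hi, rfl⟩ := A105_bd θ (hx'.resolve_right hA)
      show T.A105_b A f n F m (((dl n i).comp θ').comp g, P.act g x) = _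
      rw [OrderHom.comp_assoc, T.A105_b_d hf hF i m _ _ hi (C.closed g hxC),
        T.A105_b_d hf hF i k _ _ hi hxC, ← (T.d n i).nat]
      congr 1
      exact hF.nat n le_rfl g (θ', x) ⟨trivial, hxC⟩
  · intro i m θ x hi hx
    exact T.A105_b_d hf hF i m θ x hi hx
  · intro m θ x hx
    exact T.A105_b_ext A f n F m θ x hx
  · rintro j m θ x hj hx
    obtain ⟨⟨-, hxC⟩, hx'⟩ := hx
    by_cases hA : x ∈ A.car m
    · rw [T.A105_b_ext A f n F m θ x hA, hF.ext n le_rfl m _ x hA]
      exact (hf.σ n j m θ x hA hj).symm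
    · obtain ⟨i, θ', hi, rfl⟩ := A105_bd θ (hx'.resolve_right hA)
      rw [T.A105_b_d hf hF i m θ' x hi hxC]
      exact T.A105_σ hF i j m θ' x hi hj hxC

end Tower

end MM

end

/-! ### from `Lib_MP_33f7bb_d.A106` -/

section

/-!
# A1-06: the next stage

`exists_secn`: `G (θ, x) := (T.cov m).sec n (fun j => F n ((sg n j).comp θ, x)) n`.  The family is compatible
(`CoV.Compat`): for `n = n' + 1`, `i ≤ j ≤ n'`: `σ^i F n (sg (j+1) θ, x) = F n' (sg n' i (sg n (j+1) θ), x)
= F n' (sg n' j (sg n i θ), x) = σ^j F n (sg n i θ, x)` (`Stage.σ`, `sg_sg`); apply `CoV.sec_σ`.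
Naturality: `CoV.sec_map` for the linear maps `(T.W s).act g`.

`exists_nrm`: on `∂Δ^(n+1) × C ∪ Δ^(n+1) × A` the function `b + G` has values in `T.N (n+1)`
(`Glue.σ`, `Secn.σ`), so it defines a natural function with values in `(T.N (n+1)).sv.ss`
(zero outside).

`stage_succ`: given an extension `r'` of that function to `Δ^(n+1) × C`, put
`F' (n+1) := G + r'` and `F' s := F s` for `s ≤ n` (`Function.update`).  All conditions are immediate.
-/

namespace MM

namespace Tower

variable (T : Tower) {P : SS} {A C : Sub P}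

theorem exists_secn {f : ∀ s, Fn ((Del s).prod P) (T.W s).ss} {n : ℕ}
    {F : ∀ s, Fn ((Del s).prod P) (T.W s).ss} (hF : T.Stage A C f n F) :
    ∃ G : Fn ((Del (n + 1)).prod P) (T.W (n + 1)).ss, T.Secn C n F G := by
  refine ⟨fun m p => (T.cov m).sec n (fun j => F n m ((sg n j).comp p.1, p.2)) n, ?_, ?_⟩
  · intro m' m g p hp
    obtain ⟨θ, x⟩ := p
    have hx : x ∈ C.car m := hp.2
    have h1 := CoV.sec_map (T := T.cov m) (T' := T.cov m') (fun s => (T.W s).act g)
      (fun s i x => ((T.d s i).nat g x).symm) (fun s j x => ((T.σ s j).nat g x).symm) n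
      (fun j => F n m ((sg n j).comp θ, x)) n
    have h2 : (fun j => F n m' ((sg n j).comp (θ.comp g), P.act g x)) =
        fun j => (T.W n).act g (F n m ((sg n j).comp θ, x)) := by
      funext j
      exact hF.nat n le_rfl g ((sg n j).comp θ, x) ⟨trivial, hx⟩
    show (T.cov m').sec n (fun j => F n m' ((sg n j).comp (θ.comp g), P.act g x)) n = _
    rw [h2]
    exact h1.symm
  · intro j m θ x hj hx
    refine CoV.sec_σ (T.cov m) n (fun j => F n m ((sg n j).comp θ, x)) ?_ j hj
    cases n with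
    | zero => trivial
    | succ n =>
      intro i j' hij hj'
      have h1 := hF.σ n (Nat.lt_succ_self n) i m ((sg (n + 1) (j' + 1)).comp θ) x hx (by omega)
      have h2 := hF.σ n (Nat.lt_succ_self n) j' m ((sg (n + 1) i).comp θ) x hx hj'
      have h3 := sg_sg hij hj'
      show (T.σ n i).app m (F (n + 1) m ((sg (n + 1) (j' + 1)).comp θ, x)) =
        (T.σ n j').app m (F (n + 1) m ((sg (n + 1) i).comp θ, x))
      rw [← h1, ← h2]
      have h4 : (sg n i).comp ((sg (n + 1) (j' + 1)).comp θ) =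
          (sg n j').comp ((sg (n + 1) i).comp θ) := by
        show ((sg n i).comp (sg (n + 1) (j' + 1))).comp θ = ((sg n j').comp (sg (n + 1) i)).comp θ
        rw [h3]
      rw [h4]

theorem exists_nrm (hAC : A ≤ C) {f : ∀ s, Fn ((Del s).prod P) (T.W s).ss} {n : ℕ}
    {F : ∀ s, Fn ((Del s).prod P) (T.W s).ss}
    {b : Fn ((Del (n + 1)).prod P) (T.W (n + 1)).ss} (hb : T.Glue A C f n F b)
    {G : Fn ((Del (n + 1)).prod P) (T.W (n + 1)).ss} (hG : T.Secn C n F G) :
    ∃ r : Fn ((Del (n + 1)).prod P) (T.N (n + 1)).sv.ss,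
      NatOn (Sub.box (bd (n + 1)) ⊤ A C) r ∧
      ∀ m, ∀ p ∈ (Sub.box (bd (n + 1)) ⊤ A C).car m,
        (((r m p : (T.N (n + 1)).sv.V m)).1 : (T.W (n + 1)).V m) = b m p + G m p := by
  have h0 : ∀ m (p : ((Del (n + 1)).prod P).S m), ∃ v : (T.N (n + 1)).sv.V m,
      p ∈ (Sub.box (bd (n + 1)) ⊤ A C).car m → (v.1 : (T.W (n + 1)).V m) = b m p + G m p := by
    intro m p
    by_cases hp : p ∈ (Sub.box (bd (n + 1)) ⊤ A C).car m
    · refine ⟨⟨(b m p + G m p : (T.W (n + 1)).V m), ?_⟩, fun _ => rfl⟩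
      obtain ⟨θ, x⟩ := p
      rw [T.mem_N]
      intro j hj
      have h1 := hb.σ j m θ x hj hp
      have h2 := hG.σ j m θ x hj hp.1.2
      show (T.σ n j).app m (b m (θ, x) + G m (θ, x) : (T.W (n + 1)).V m) = 0
      rw [map_add]
      have h3 := two_eq_zero' (F n m ((sg n j).comp θ, x) : (T.W n).V m)
      have h4 : ((T.σ n j).app m (b m (θ, x)) : (T.W n).V m) = F n m ((sg n j).comp θ, x) := h1
      have h5 : ((T.σ n j).app m (G m (θ, x)) : (T.W n).V m) = F n m ((sg n j).comp θ, x) := h2
      rw [h4, h5]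
      exact h3
    · exact ⟨0, fun h => absurd h hp⟩
  choose r hr using h0
  refine ⟨r, ?_, hr⟩
  intro m' m g p hp
  have hp' := (Sub.box (bd (n + 1)) ⊤ A C).closed g hp
  refine Subtype.ext ?_
  rw [hr m' _ hp']
  show _ = (T.W (n + 1)).act g (r m p).1
  rw [hr m p hp, map_add]
  have h1 := hb.nat g p hp
  have h2 := hG.nat g p hp.1
  rw [h1, h2]

private theorem A106_bd {m n i : ℕ} (hi : i ≤ n + 1) (θ : Mo m n) :
    ¬ Function.Surjective ((dl n i).comp θ : Mo m (n + 1)) := by
  intro h
  obtain ⟨t, ht⟩ := h ⟨i, by omega⟩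
  have h1 : ((dl n i) (θ t)).1 = i := congrArg Fin.val ht
  rw [dl_val] at h1
  split_ifs at h1 <;> omega

theorem stage_succ (hAC : A ≤ C) {f : ∀ s, Fn ((Del s).prod P) (T.W s).ss} {n : ℕ}
    {F : ∀ s, Fn ((Del s).prod P) (T.W s).ss} (hF : T.Stage A C f n F)
    {b : Fn ((Del (n + 1)).prod P) (T.W (n + 1)).ss} (hb : T.Glue A C f n F b)
    {G : Fn ((Del (n + 1)).prod P) (T.W (n + 1)).ss} (hG : T.Secn C n F G)
    (r : Fn ((Del (n + 1)).prod P) (T.N (n + 1)).sv.ss) (hr : NatOn (Sub.bx ⊤ C) r)
    (hrb : ∀ m, ∀ p ∈ (Sub.box (bd (n + 1)) ⊤ A C).car m,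
      (((r m p : (T.N (n + 1)).sv.V m)).1 : (T.W (n + 1)).V m) = b m p + G m p) :
    ∃ F' : ∀ s, Fn ((Del s).prod P) (T.W s).ss, T.Stage A C f (n + 1) F' ∧
      ∀ s, s ≤ n → F' s = F s := by
  classical
  set K : Fn ((Del (n + 1)).prod P) (T.W (n + 1)).ss :=
    fun m p => (G m p + (r m p).1 : (T.W (n + 1)).V m) with hK
  set F' : ∀ s, Fn ((Del s).prod P) (T.W s).ss := Function.update F (n + 1) K with hF'
  have e1 : F' (n + 1) = K := Function.update_self _ _ _
  have e2 : ∀ s, s ≤ n → F' s = F s := fun s hs => Function.update_of_ne (by omega) _ _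
  -- on the boundary `K = b`
  have hKb : ∀ m, ∀ p ∈ (Sub.box (bd (n + 1)) ⊤ A C).car m, K m p = b m p := by
    intro m p hp
    show (G m p + (r m p).1 : (T.W (n + 1)).V m) = b m p
    rw [hrb m p hp]
    have h1 := two_eq_zero' (G m p : (T.W (n + 1)).V m)
    calc (G m p + (b m p + G m p) : (T.W (n + 1)).V m) = b m p + (G m p + G m p) := by abel
      _ = b m p := by rw [h1, add_zero]
  have hKn : NatOn (Sub.bx ⊤ C) K := by
    intro m' m g p hp
    show (G m' _ + (r m' _).1 : (T.W (n + 1)).V m') =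
      (T.W (n + 1)).act g (G m p + (r m p).1 : (T.W (n + 1)).V m)
    rw [map_add, hG.nat g p hp, hr g p hp]
    rfl
  refine ⟨F', ⟨?_, ?_, ?_, ?_⟩, e2⟩
  · intro s hs
    rcases Nat.lt_or_eq_of_le hs with h | h
    · rw [e2 s (by omega)]
      exact hF.nat s (by omega)
    · subst h
      rw [e1]
      exact hKn
  · intro s hs i m θ x hx hi
    rcases Nat.lt_or_eq_of_le (Nat.le_of_lt_succ hs) with h | h
    · rw [e2 s (by omega), e2 (s + 1) (by omega)]
      exact hF.d s h i m θ x hx hi
    · subst h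
      have hmem : (((dl s i).comp θ, x) : ((Del (s + 1)).prod P).S m) ∈
          (Sub.box (bd (s + 1)) ⊤ A C).car m := ⟨⟨trivial, hx⟩, Or.inl (A106_bd hi θ)⟩
      rw [e1, e2 s le_rfl, hKb m _ hmem]
      exact hb.d i m θ x hi hx
  · intro s hs j m θ x hx hj
    rcases Nat.lt_or_eq_of_le (Nat.le_of_lt_succ hs) with h | h
    · rw [e2 s (by omega), e2 (s + 1) (by omega)]
      exact hF.σ s h j m θ x hx hj
    · subst h
      rw [e1, e2 s le_rfl]
      show _ = (T.σ s j).app m (G m (θ, x) + (r m (θ, x)).1 : (T.W (s + 1)).V m)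
      rw [map_add]
      have h1 := hG.σ j m θ x hj hx
      have h2 : (T.σ s j).app m (r m (θ, x)).1 = 0 :=
        (T.mem_N (s + 1) m _).1 (r m (θ, x)).2 j hj
      have h3 : ((T.σ s j).app m (G m (θ, x)) : (T.W s).V m) = F s m ((sg s j).comp θ, x) := h1
      rw [h2, h3, add_zero]
  · intro s hs m θ x hx
    rcases Nat.lt_or_eq_of_le hs with h | h
    · rw [e2 s (by omega)]
      exact hF.ext s (by omega) m θ x hx
    · subst h
      rw [e1, hKb m _ ⟨⟨trivial, hAC m hx⟩, Or.inr hx⟩]
      exact hb.ext m θ x hx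

end Tower

end MM

end

/-! ### from `Lib_MP_33f7bb_d.A102` -/

section

/-!
# A1-02: cross effects of pointed simplicial maps between simplicial vector spaces (T5)

`g : W → W'` a simplicial map (not linear) with `g 0 = 0`, `cr(x,y) = g (x+y) + g x + g y`.

`cr_moore`: `z, z'` Moore cycles in `W_t`, `t ≥ 1`.  With `y = cr(s_0 z, s_1 z')` (`s_i = act (sgm i)`):
`δ_0 y = cr(z, 0) = 0` (`δ_0 s_1 z' = s_0 δ_0 z' = 0`), `δ_1 y = cr(z, z')`, `δ_2 y = cr(0, z') = 0`
(`δ_2 s_0 z = s_0 δ_1 z = 0`), `δ_i y = cr(0, 0) = 0` for `i ≥ 3`.  So `d y = cr(z, z')`.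
(For a Moore cycle all `act f z`, `f` not surjective, vanish: `δ_k s_i z` vanishes unless
`k = i, i + 1`, because `(sgm i).comp (dlt k)` is not surjective; it is the identity for `k = i, i+1`.)

`cr_vertex`: `x ∈ W_n` with vertex `0` equal to `0`, `a ∈ W_n` a Moore cycle.  Let
`θ_i : [n+1] → [n]`, `j ↦ 0` for `j ≤ i`, `j ↦ j - 1` for `j > i` (`i = 0, ..., n`) and
`y_i = cr(θ_i^* x, s_i a)`.  `δ_k y_i = 0` unless `k = i, i + 1` (then `δ_k s_i a = 0`, and
`cr(x, 0) = 0`), `δ_i y_i = cr(ρ_i^* x, a)`, `δ_(i+1) y_i = cr(ρ_(i+1)^* x, a)`, where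
`ρ_i : [n] → [n]`, `j ↦ 0` for `j < i`, `j ↦ j` for `j ≥ i`.  `ρ_0 = id`, `ρ_(n+1)` is constant `0`, so
`ρ_(n+1)^* x = 0`.  Telescoping: `d (∑ y_i) = cr(x, a) + cr(0, a) = cr(x, a)`.

`map_moore_B`: if the Moore cycle `z` is a boundary, `z = δ_0 w`, all other faces of `w` zero
(`moore_boundary`, `A005`); then `g z = δ_0 (g w)`, all other faces of `g w` are `g 0 = 0`; so
`g z = d (g w)`.
`map_moore_congr`: `g z' = g (z + (z + z'))` and `cr_moore` for `z`, `z + z'`, and `map_moore_B` for
`z + z'`.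
-/

namespace MM

/-- the cross effect -/
private def crA102 {W W' : SV} (g : Hom W.ss W'.ss) {n : ℕ} (x y : W.V n) : W'.V n :=
  (g.app n (x + y : W.V n) : W'.V n) + g.app n x + g.app n y

private theorem actA102 {W W' : SV} (g : Hom W.ss W'.ss) {m n : ℕ} (f : Mo m n) (x : W.V n) :
    W'.act f (g.app n x : W'.V n) = (g.app m (W.act f x) : W'.V m) := (g.nat f x).symm

private theorem cr_actA102 {W W' : SV} (g : Hom W.ss W'.ss) {m n : ℕ} (f : Mo m n)
    (x y : W.V n) : W'.act f (crA102 g x y) = crA102 g (W.act f x) (W.act f y) := by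
  unfold crA102
  rw [map_add, map_add, actA102, actA102, actA102, map_add]

private theorem cr_zero_rightA102 {W W' : SV} (g : Hom W.ss W'.ss) (g0 : ∀ n, g.app n 0 = 0)
    {n : ℕ} (x : W.V n) : crA102 g x (0 : W.V n) = 0 := by
  unfold crA102
  have h : (g.app n (0 : W.V n) : W'.V n) = 0 := g0 n
  rw [add_zero, h, add_zero]
  exact two_eq_zero' _

private theorem cr_zero_leftA102 {W W' : SV} (g : Hom W.ss W'.ss) (g0 : ∀ n, g.app n 0 = 0)
    {n : ℕ} (x : W.V n) : crA102 g (0 : W.V n) x = 0 := by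
  unfold crA102
  have h : (g.app n (0 : W.V n) : W'.V n) = 0 := g0 n
  rw [zero_add, h, add_zero]
  exact two_eq_zero' _

private theorem sgm_valA102 {n : ℕ} (i : Fin (n + 1)) (j : Fin (n + 2)) :
    ((sgm i) j : ℕ) = if (j : ℕ) ≤ i then (j : ℕ) else (j : ℕ) - 1 := by
  show ((Fin.predAbove i j : Fin (n + 1)) : ℕ) = _
  by_cases h : i.castSucc < j
  · rw [Fin.predAbove_of_castSucc_lt _ _ h]
    have h' : (i : ℕ) < j := h
    rw [if_neg (by omega)]
    rfl
  · rw [Fin.predAbove_of_le_castSucc _ _ (not_lt.1 h)]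
    have h' : (j : ℕ) ≤ i := not_lt.1 h
    rw [if_pos h']
    rfl

private theorem dlt_valA102 {n : ℕ} (i : Fin (n + 2)) (j : Fin (n + 1)) :
    ((dlt i) j : ℕ) = if (j : ℕ) < i then (j : ℕ) else (j : ℕ) + 1 := by
  show ((Fin.succAbove i j : Fin (n + 2)) : ℕ) = _
  by_cases h : j.castSucc < i
  · rw [Fin.succAbove_of_castSucc_lt _ _ h]
    have h' : (j : ℕ) < i := h
    rw [if_pos h']
    rfl
  · rw [Fin.succAbove_of_le_castSucc _ _ (not_lt.1 h)]
    have h' : (i : ℕ) ≤ j := not_lt.1 h
    rw [if_neg (by omega)]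
    rfl

/-- `δ_k s_i` is not surjective unless `k = i, i + 1` -/
private theorem nsA102 {n : ℕ} (i : Fin (n + 1)) (k : Fin (n + 2)) (h1 : (k : ℕ) ≠ i)
    (h2 : (k : ℕ) ≠ i + 1) : ¬ Function.Surjective ((sgm i).comp (dlt k)) := by
  intro hs
  by_cases hk : (k : ℕ) < i
  · obtain ⟨j, hj⟩ := hs ⟨k, by omega⟩
    have h3 : ((sgm i) ((dlt k) j) : ℕ) = k := congrArg Fin.val hj
    rw [sgm_valA102, dlt_valA102] at h3
    split_ifs at h3 <;> omega
  · have hkn := k.2
    obtain ⟨j, hj⟩ := hs ⟨(k : ℕ) - 1, by omega⟩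
    have h3 : ((sgm i) ((dlt k) j) : ℕ) = (k : ℕ) - 1 := congrArg Fin.val hj
    rw [sgm_valA102, dlt_valA102] at h3
    split_ifs at h3 <;> omega

private theorem face_neA102 {W : SV} {n : ℕ} {z : W.V n} (hz : W.Moore z) (i : Fin (n + 1))
    (k : Fin (n + 2)) (h1 : (k : ℕ) ≠ i) (h2 : (k : ℕ) ≠ i + 1) :
    W.act (dlt k) (W.act (sgm i) z) = 0 := by
  rw [W.act_comp]
  exact hz _ _ (nsA102 i k h1 h2)

private theorem face_eqA102 {W : SV} {n : ℕ} (z : W.V n) (i : Fin (n + 1))
    (k : Fin (n + 2)) (h : (k : ℕ) = i ∨ (k : ℕ) = i + 1) :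
    W.act (dlt k) (W.act (sgm i) z) = z := by
  rw [W.act_comp]
  rcases h with h | h
  · have hk : k = i.castSucc := Fin.ext h
    rw [hk, sgm_comp_dlt_castSucc, W.act_id]
  · have hk : k = i.succ := Fin.ext (by rw [h]; rfl)
    rw [hk, sgm_comp_dlt_succ, W.act_id]

private theorem d_applyA102 (W : SV) (n : ℕ) (x : W.V (n + 1)) :
    W.d n x = ∑ k : Fin (n + 2), W.act (dlt k) x := by
  rw [SV.d, LinearMap.sum_apply]

/-- `j ↦ 0` for `j ≤ i`, `j ↦ j - 1` for `j > i` -/
private def thA102 (n i : ℕ) : Mo (n + 1) n :=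
  ⟨fun j => ⟨if j.1 ≤ i then 0 else j.1 - 1, by have := j.2; split <;> omega⟩, by
    intro a b h
    have h' : a.1 ≤ b.1 := h
    show (if a.1 ≤ i then 0 else a.1 - 1) ≤ (if b.1 ≤ i then 0 else b.1 - 1)
    split <;> split <;> omega⟩

/-- `j ↦ 0` for `j < i`, `j ↦ j` for `j ≥ i` -/
private def rhA102 (n i : ℕ) : Mo n n :=
  ⟨fun j => ⟨if j.1 < i then 0 else j.1, by have := j.2; split <;> omega⟩, by
    intro a b h
    have h' : a.1 ≤ b.1 := h
    show (if a.1 < i then 0 else a.1) ≤ (if b.1 < i then 0 else b.1)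
    split <;> split <;> omega⟩

private theorem th_dltA102 (n i : ℕ) (k : Fin (n + 2)) (h : (k : ℕ) = i ∨ (k : ℕ) = i + 1) :
    (thA102 n i).comp (dlt k) = rhA102 n k := by
  apply OrderHom.ext
  funext j
  apply Fin.ext
  show (if ((dlt k) j : ℕ) ≤ i then 0 else ((dlt k) j : ℕ) - 1) = if j.1 < (k : ℕ) then 0 else j.1
  rw [dlt_valA102]
  split_ifs <;> omega

private theorem telA102 {M : Type*} [AddCommGroup M] [Module (ZMod 2) M] (c : ℕ → M) (m : ℕ) :
    ∑ i ∈ Finset.range m, (c i + c (i + 1)) = c 0 + c m := by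
  induction m with
  | zero =>
    rw [Finset.sum_range_zero]
    exact (two_eq_zero' _).symm
  | succ m ih =>
    rw [Finset.sum_range_succ, ih]
    have h := two_eq_zero' (c m)
    calc c 0 + c m + (c m + c (m + 1)) = c 0 + (c m + c m) + c (m + 1) := by abel
      _ = c 0 + c (m + 1) := by rw [h, add_zero]

theorem map_moore {W W' : SV} (g : Hom W.ss W'.ss) (g0 : ∀ n, g.app n 0 = 0) {t : ℕ}
    {z : W.V t} (hz : W.Moore z) : W'.Moore (g.app t z : W'.V t) := by
  intro m f hf
  rw [actA102, hz m f hf]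
  exact g0 m

theorem cr_moore {W W' : SV} (g : Hom W.ss W'.ss) (g0 : ∀ n, g.app n 0 = 0) {t : ℕ} (ht : 1 ≤ t)
    {z z' : W.V t} (hz : W.Moore z) (hz' : W.Moore z') :
    (g.app t (z + z' : W.V t) + g.app t z + g.app t z' : W'.V t) ∈ W'.B t := by
  obtain ⟨n, rfl⟩ : ∃ n, t = n + 1 := ⟨t - 1, by omega⟩
  refine ⟨crA102 g (W.act (sgm (0 : Fin (n + 1 + 1))) z)
    (W.act (sgm (1 : Fin (n + 1 + 1))) z'), ?_⟩
  have h1 : ((1 : Fin (n + 1 + 1)) : ℕ) = 1 := rfl
  rw [d_applyA102, Finset.sum_eq_single (⟨1, by omega⟩ : Fin (n + 1 + 2))]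
  · rw [cr_actA102, face_eqA102 z _ _ (Or.inr rfl), face_eqA102 z' _ _ (Or.inl rfl)]
    rfl
  · intro k _ hk
    have hk1 : (k : ℕ) ≠ 1 := fun h => hk (Fin.ext h)
    rw [cr_actA102]
    by_cases hk0 : (k : ℕ) = 0
    · rw [face_neA102 hz' (1 : Fin (n + 1 + 1)) k (by rw [h1]; omega) (by rw [h1]; omega)]
      exact cr_zero_rightA102 g g0 _
    · rw [face_neA102 hz (0 : Fin (n + 1 + 1)) k (fun h => hk0 h) (fun h => hk1 h)]
      exact cr_zero_leftA102 g g0 _
  · intro h
    exact absurd (Finset.mem_univ _) h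

theorem cr_vertex {W W' : SV} (g : Hom W.ss W'.ss) (g0 : ∀ n, g.app n 0 = 0) {n : ℕ}
    {x a : W.V n} (hx : W.act (cst 0 : Mo 0 n) x = 0) (ha : W.Moore a) :
    (g.app n (x + a : W.V n) + g.app n x + g.app n a : W'.V n) ∈ W'.B n := by
  have hx0 : ∀ {l : ℕ}, W.act (cst 0 : Mo l n) x = 0 := by
    intro l
    have h := W.act_comp (cst 0 : Mo l 0) (cst 0 : Mo 0 n) x
    rw [hx, map_zero] at h
    exact h.symm
  refine ⟨∑ i : Fin (n + 1), crA102 g (W.act (thA102 n i) x) (W.act (sgm i) a), ?_⟩
  rw [map_sum]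
  have key : ∀ i : Fin (n + 1), W'.d n (crA102 g (W.act (thA102 n i) x) (W.act (sgm i) a)) =
      crA102 g (W.act (rhA102 n i) x) a + crA102 g (W.act (rhA102 n (i + 1)) x) a := by
    intro i
    rw [d_applyA102]
    have hne : i.castSucc ≠ i.succ := by
      intro h
      have := congrArg Fin.val h
      simp at this
    rw [← Finset.sum_subset (Finset.subset_univ {i.castSucc, i.succ}), Finset.sum_pair hne]
    · rw [cr_actA102, cr_actA102, face_eqA102 a i _ (Or.inl rfl), face_eqA102 a i _ (Or.inr rfl),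
        W.act_comp, W.act_comp, th_dltA102 n i _ (Or.inl rfl), th_dltA102 n i _ (Or.inr rfl)]
      rfl
    · intro k _ hk
      rw [Finset.mem_insert, Finset.mem_singleton, not_or] at hk
      rw [cr_actA102, face_neA102 ha i k (fun h => hk.1 (Fin.ext h)) (fun h => hk.2 (Fin.ext h))]
      exact cr_zero_rightA102 g g0 _
  rw [Finset.sum_congr rfl fun i _ => key i]
  rw [← Finset.sum_range (fun i => crA102 g (W.act (rhA102 n i) x) a +
    crA102 g (W.act (rhA102 n (i + 1)) x) a),
    telA102 (fun i => crA102 g (W.act (rhA102 n i) x) a)]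
  have e0 : rhA102 n 0 = OrderHom.id := by
    apply OrderHom.ext
    funext j
    apply Fin.ext
    show (if j.1 < 0 then 0 else j.1) = j.1
    rw [if_neg (by omega)]
  have e1 : rhA102 n (n + 1) = cst 0 := by
    apply OrderHom.ext
    funext j
    apply Fin.ext
    show (if j.1 < n + 1 then 0 else j.1) = ((0 : Fin (n + 1)) : ℕ)
    rw [if_pos j.2]
    rfl
  show crA102 g (W.act (rhA102 n 0) x) a + crA102 g (W.act (rhA102 n (n + 1)) x) a = _
  rw [e0, e1, hx0, W.act_id, cr_zero_leftA102 g g0, add_zero]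
  rfl

theorem map_moore_B {W W' : SV} (g : Hom W.ss W'.ss) (g0 : ∀ n, g.app n 0 = 0) {t : ℕ}
    {z : W.V t} (hz : W.Moore z) (hb : z ∈ W.B t) : (g.app t z : W'.V t) ∈ W'.B t := by
  obtain ⟨w, hw⟩ := hb
  obtain ⟨w', h0, h1⟩ := moore_boundary W z hz w hw
  refine ⟨(g.app (t + 1) w' : W'.V (t + 1)), ?_⟩
  rw [d_applyA102, Fin.sum_univ_succ, actA102, h0, Finset.sum_eq_zero, add_zero]
  intro i _
  rw [actA102, h1 i]
  exact g0 t

theorem map_moore_congr {W W' : SV} (g : Hom W.ss W'.ss) (g0 : ∀ n, g.app n 0 = 0) {t : ℕ}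
    (ht : 1 ≤ t) {z z' : W.V t} (hz : W.Moore z) (hz' : W.Moore z') (hb : z + z' ∈ W.B t) :
    (g.app t z + g.app t z' : W'.V t) ∈ W'.B t := by
  have hs : W.Moore (z + z') := by
    intro m f hf
    rw [map_add, hz m f hf, hz' m f hf, add_zero]
  have h1 := cr_moore g g0 ht hz hs
  have h2 := map_moore_B g g0 hs hb
  have h3 : z + (z + z') = z' := by
    rw [← add_assoc, two_eq_zero', zero_add]
  rw [h3] at h1
  have h4 := (W'.B t).add_mem h1 h2
  have h5 : (g.app t z' : W'.V t) + g.app t z + g.app t (z + z' : W.V t) +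
      g.app t (z + z' : W.V t) = (g.app t z : W'.V t) + g.app t z' := by
    have h6 := two_eq_zero' (g.app t (z + z' : W.V t) : W'.V t)
    calc (g.app t z' : W'.V t) + g.app t z + g.app t (z + z' : W.V t) +
        g.app t (z + z' : W.V t) = (g.app t z : W'.V t) + g.app t z' +
          ((g.app t (z + z' : W.V t) : W'.V t) + g.app t (z + z' : W.V t)) := by abel
      _ = (g.app t z : W'.V t) + g.app t z' := by rw [h6, add_zero]
  rw [← h5]
  exact h4

/-- linear simplicial maps preserve boundaries -/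
theorem map_B {W W' : SV} (g : SVHom W W') {t : ℕ} {z : W.V t} (hb : z ∈ W.B t) :
    g.app t z ∈ W'.B t := by
  obtain ⟨w, rfl⟩ := hb
  refine ⟨g.app (t + 1) w, ?_⟩
  rw [d_applyA102, d_applyA102, map_sum]
  exact Finset.sum_congr rfl fun i _ => (g.nat (dlt i) w).symm

/-- additive simplicial maps preserve boundaries -/
theorem map_B_of_add {W W' : SV} (g : Hom W.ss W'.ss)
    (hg : ∀ n (x y : W.V n), g.app n (x + y : W.V n) = (g.app n x + g.app n y : W'.V n)) {t : ℕ}
    {z : W.V t} (hb : z ∈ W.B t) : (g.app t z : W'.V t) ∈ W'.B t := by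
  obtain ⟨w, rfl⟩ := hb
  have h0 : (g.app t (0 : W.V t) : W'.V t) = 0 := by
    have h := hg t 0 0
    rw [add_zero] at h
    have h2 := two_eq_zero' (g.app t (0 : W.V t) : W'.V t)
    exact h.trans h2
  let G : W.V t →+ W'.V t :=
    { toFun := fun x => g.app t x
      map_zero' := h0
      map_add' := fun x y => hg t x y }
  refine ⟨(g.app (t + 1) w : W'.V (t + 1)), ?_⟩
  rw [d_applyA102, d_applyA102]
  show _ = G (∑ k : Fin (t + 2), W.act (dlt k) w)
  rw [map_sum]
  exact Finset.sum_congr rfl fun i _ => actA102 g (dlt i) w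

end MM

end

/-! ### from `Lib_MP_33f7bb_d.A108` -/

section

/-!
# A1-08: normalisation of Moore cycles in a tower object

Fix `t ≥ 1`.  Let `C s` be the vector space of the Moore cycles of `(T.W s).V t` modulo those which are
boundaries (a quotient of a submodule).  All operators induce maps: a simplicial pointed map sends Moore
cycles to Moore cycles (`map_moore`) and respects the congruence (`map_moore_congr`), it is additive on
classes also for `d 0` (`cr_moore`), linear maps induce linear maps.  So `C` is a `CoV` whose `d s 0` is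
additive; apply `CoV.del_pi_of_nrm`: the class of `u` is normalised and is `del [a]`, so it is
`del (pi [a]) = del [pi a]`, where `pi a = (T.cov t).pi s a` is a Moore cycle (`pi` is built from the
simplicial additive operators) and is normalised by `nrm_pi`.
(The class of `(T.cov t).pi s a` is `pi` of the class of `a`: same recursion.)
-/

namespace MM

private theorem A108_moore_add {W : SV} {t : ℕ} {z z' : W.V t} (hz : W.Moore z)
    (hz' : W.Moore z') : W.Moore (z + z') := fun m f hf => by
  rw [map_add, hz m f hf, hz' m f hf, add_zero]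

private theorem A108_moore_lin {W W' : SV} (g : SVHom W W') {t : ℕ} {z : W.V t}
    (hz : W.Moore z) : W'.Moore (g.app t z) := fun m f hf => by
  rw [← g.nat, hz m f hf, map_zero]

/-- the Moore cycles -/
private def A108_MC (W : SV) (t : ℕ) : Submodule (ZMod 2) (W.V t) where
  carrier := {z | W.Moore z}
  add_mem' := fun hz hz' => A108_moore_add hz hz'
  zero_mem' := fun _ f _ => map_zero (W.act f)
  smul_mem' := fun c z hz m f hf => by
    have h : W.act f z = 0 := hz m f hf
    rw [map_smul, h, smul_zero]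

/-- Moore cycles modulo boundaries -/
private abbrev A108_CC (W : SV) (t : ℕ) : Type :=
  (A108_MC W t) ⧸ (Submodule.comap (A108_MC W t).subtype (W.B t))

private noncomputable def A108_cl {W : SV} {t : ℕ} (z : W.V t) (hz : W.Moore z) : A108_CC W t :=
  Submodule.Quotient.mk ⟨z, hz⟩

private theorem A108_cl_eq {W : SV} {t : ℕ} {z z' : W.V t} {hz : W.Moore z} {hz' : W.Moore z'} :
    A108_cl z hz = A108_cl z' hz' ↔ z + z' ∈ W.B t := by
  unfold A108_cl
  rw [Submodule.Quotient.eq]
  show z - z' ∈ W.B t ↔ _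
  rw [sub_eq']

private theorem A108_cl_congr {W : SV} {t : ℕ} {z z' : W.V t} (h : z = z') (hz : W.Moore z)
    (hz' : W.Moore z') : A108_cl z hz = A108_cl z' hz' := by
  subst h
  rfl

private theorem A108_exists {W : SV} {t : ℕ} (c : A108_CC W t) :
    ∃ (z : W.V t) (hz : W.Moore z), c = A108_cl z hz := by
  obtain ⟨⟨z, hz⟩, rfl⟩ := Submodule.Quotient.mk_surjective _ c
  exact ⟨z, hz, rfl⟩

private theorem A108_cl_add {W : SV} {t : ℕ} {z z' : W.V t} (hz : W.Moore z) (hz' : W.Moore z') :
    A108_cl z hz + A108_cl z' hz' = A108_cl (z + z') (A108_moore_add hz hz') := rfl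

private theorem A108_cl_zero {W : SV} {t : ℕ} (h : W.Moore (0 : W.V t)) : A108_cl 0 h = 0 := rfl

/-- the map induced by a pointed simplicial map -/
private noncomputable def A108_map {W W' : SV} (g : Hom W.ss W'.ss) (g0 : ∀ n, g.app n 0 = 0)
    (t : ℕ) (c : A108_CC W t) : A108_CC W' t :=
  A108_cl (g.app t (A108_exists c).choose : W'.V t)
    (map_moore g g0 (A108_exists c).choose_spec.choose)

private theorem A108_map_cl {W W' : SV} (g : Hom W.ss W'.ss) (g0 : ∀ n, g.app n 0 = 0)
    {t : ℕ} (ht : 1 ≤ t) {z : W.V t} (hz : W.Moore z) :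
    A108_map g g0 t (A108_cl z hz) = A108_cl (g.app t z : W'.V t) (map_moore g g0 hz) := by
  unfold A108_map
  rw [A108_cl_eq]
  have h1 := (A108_exists (A108_cl z hz)).choose_spec.choose_spec
  have h2 := A108_cl_eq.1 h1
  rw [add_comm] at h2
  exact map_moore_congr g g0 ht (A108_exists (A108_cl z hz)).choose_spec.choose hz h2

/-- the map induced by a linear simplicial map -/
private noncomputable def A108_lin {W W' : SV} (g : SVHom W W') (t : ℕ) :
    A108_CC W t →ₗ[ZMod 2] A108_CC W' t :=
  Submodule.mapQ _ _ ((g.app t).restrict (p := A108_MC W t) (q := A108_MC W' t)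
    (fun _ hz => A108_moore_lin g hz)) (by
      intro z hz
      exact map_B g (z := z.1) hz)

private theorem A108_lin_cl {W W' : SV} (g : SVHom W W') {t : ℕ} {z : W.V t} (hz : W.Moore z) :
    A108_lin g t (A108_cl z hz) = A108_cl (g.app t z) (A108_moore_lin g hz) := rfl

namespace Tower

/-- the sum of the cofaces of Moore cycles, up to boundaries, depends only on the class -/
theorem del_congr (T : Tower) {s t : ℕ} (ht : 1 ≤ t) {a a' : (T.W s).V t}
    (ha : (T.W s).Moore a) (ha' : (T.W s).Moore a') (h : a + a' ∈ (T.W s).B t) :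
    T.del s t a + T.del s t a' ∈ (T.W (s + 1)).B t := by
  unfold del
  rw [← Finset.sum_add_distrib]
  exact Submodule.sum_mem _ fun i _ => map_moore_congr (T.d s i) (T.d_zero s i) ht ha ha' h

private theorem A108_moore_prj (T : Tower) {s t : ℕ} {a : (T.W (s + 1)).V t}
    (ha : (T.W (s + 1)).Moore a) (j : ℕ) :
    (T.W (s + 1)).Moore ((T.cov t).prj s j a : (T.W (s + 1)).V t) := by
  induction j with
  | zero => exact ha
  | succ j ih =>
    exact A108_moore_add ih (map_moore (T.d s (j + 1)) (T.d_zero s (j + 1))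
      (A108_moore_lin (T.σ s j) ih))

theorem moore_pi (T : Tower) {s t : ℕ} {a : (T.W s).V t} (ha : (T.W s).Moore a) :
    (T.W s).Moore ((T.cov t).pi s a : (T.W s).V t) := by
  cases s with
  | zero => exact ha
  | succ s => exact A108_moore_prj T ha (s + 1)

/-- the cosimplicial vector space of the classes of Moore cycles -/
private noncomputable def A108_cov (T : Tower) (t : ℕ) (ht : 1 ≤ t) : CoV where
  C s := A108_CC (T.W s) t
  d s i := A108_map (T.d s i) (T.d_zero s i) t
  σ s j := A108_lin (T.σ s j) t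
  d_zero s i := by
    have h0 : (T.W s).Moore (0 : (T.W s).V t) := (A108_MC (T.W s) t).zero_mem
    have h1 : (T.W (s + 1)).Moore (0 : (T.W (s + 1)).V t) := (A108_MC (T.W (s + 1)) t).zero_mem
    rw [← A108_cl_zero h0, A108_map_cl _ _ ht h0, ← A108_cl_zero h1]
    exact A108_cl_congr (T.d_zero s i t) _ _
  d_add s i x y h1 h2 := by
    obtain ⟨x, hx, rfl⟩ := A108_exists x
    obtain ⟨y, hy, rfl⟩ := A108_exists y
    rw [A108_cl_add, A108_map_cl _ _ ht, A108_map_cl _ _ ht, A108_map_cl _ _ ht, A108_cl_add]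
    exact A108_cl_congr (T.d_add s i t x y h1 h2) _ _
  dd s i j x h1 h2 := by
    obtain ⟨x, hx, rfl⟩ := A108_exists x
    rw [A108_map_cl _ _ ht, A108_map_cl _ _ ht, A108_map_cl _ _ ht, A108_map_cl _ _ ht]
    exact A108_cl_congr (T.dd s i j t x h1 h2) _ _
  σσ s i j x h1 h2 := by
    obtain ⟨x, hx, rfl⟩ := A108_exists x
    rw [A108_lin_cl, A108_lin_cl, A108_lin_cl, A108_lin_cl]
    exact A108_cl_congr (T.σσ s i j t x h1 h2) _ _
  σd_lt s i j x h1 h2 := by
    obtain ⟨x, hx, rfl⟩ := A108_exists x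
    rw [A108_map_cl _ _ ht, A108_lin_cl, A108_lin_cl, A108_map_cl _ _ ht]
    exact A108_cl_congr (T.σd_lt s i j t x h1 h2) _ _
  σd_eq s j x h1 := by
    obtain ⟨x, hx, rfl⟩ := A108_exists x
    rw [A108_map_cl _ _ ht, A108_lin_cl]
    exact A108_cl_congr (T.σd_eq s j t x h1) _ _
  σd_eq' s j x h1 := by
    obtain ⟨x, hx, rfl⟩ := A108_exists x
    rw [A108_map_cl _ _ ht, A108_lin_cl]
    exact A108_cl_congr (T.σd_eq' s j t x h1) _ _
  σd_gt s i j x h1 h2 := by
    obtain ⟨x, hx, rfl⟩ := A108_exists x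
    rw [A108_map_cl _ _ ht, A108_lin_cl, A108_lin_cl, A108_map_cl _ _ ht]
    exact A108_cl_congr (T.σd_gt s i j t x h1 h2) _ _

private theorem A108_sum {W : SV} {t : ℕ} {ι : Type} (I : Finset ι) (f : ι → W.V t)
    (hf : ∀ i, W.Moore (f i)) (hs : W.Moore (∑ i ∈ I, f i)) :
    ∑ i ∈ I, A108_cl (f i) (hf i) = A108_cl (∑ i ∈ I, f i) hs := by
  classical
  induction I using Finset.induction_on with
  | empty => rfl
  | insert a I ha ih =>
    have hI : W.Moore (∑ i ∈ I, f i) := (A108_MC W t).sum_mem fun i _ => hf i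
    rw [Finset.sum_insert ha, ih hI, A108_cl_add]
    exact A108_cl_congr (Finset.sum_insert ha).symm _ _

private theorem A108_moore_del (T : Tower) {s t : ℕ} {a : (T.W s).V t} (ha : (T.W s).Moore a) :
    (T.W (s + 1)).Moore (T.del s t a) :=
  (A108_MC (T.W (s + 1)) t).sum_mem fun i _ => map_moore (T.d s i) (T.d_zero s i) ha

private theorem A108_del_cl (T : Tower) {s t : ℕ} (ht : 1 ≤ t) {a : (T.W s).V t}
    (ha : (T.W s).Moore a) : (A108_cov T t ht).del s (A108_cl a ha) =
      A108_cl (T.del s t a) (A108_moore_del T ha) := by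
  have h1 : (A108_cov T t ht).del s (A108_cl a ha) =
      ∑ i ∈ Finset.range (s + 2), A108_cl ((T.d s i).app t a : (T.W (s + 1)).V t)
        (map_moore (T.d s i) (T.d_zero s i) ha) := by
    unfold CoV.del
    exact Finset.sum_congr rfl fun i _ => A108_map_cl (T.d s i) (T.d_zero s i) ht ha
  rw [h1]
  exact A108_sum (W := T.W (s + 1)) (Finset.range (s + 2)) (fun i => (T.d s i).app t a) _ _

private theorem A108_prj_cl (T : Tower) {s t : ℕ} (ht : 1 ≤ t) {a : (T.W (s + 1)).V t}
    (ha : (T.W (s + 1)).Moore a) (j : ℕ) : (A108_cov T t ht).prj s j (A108_cl a ha) =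
      A108_cl ((T.cov t).prj s j a : (T.W (s + 1)).V t) (A108_moore_prj T ha j) := by
  induction j with
  | zero => rfl
  | succ j ih =>
    have h1 : (A108_cov T t ht).prj s (j + 1) (A108_cl a ha) =
        (A108_cov T t ht).prj s j (A108_cl a ha) + (A108_cov T t ht).d s (j + 1)
          ((A108_cov T t ht).σ s j ((A108_cov T t ht).prj s j (A108_cl a ha))) := rfl
    rw [h1, ih]
    have hp := A108_moore_prj T ha j
    have h2 : (A108_cov T t ht).d s (j + 1) ((A108_cov T t ht).σ s j
        (A108_cl ((T.cov t).prj s j a : (T.W (s + 1)).V t) hp)) =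
        A108_cl ((T.d s (j + 1)).app t ((T.σ s j).app t ((T.cov t).prj s j a)) : (T.W (s + 1)).V t)
          (map_moore (T.d s (j + 1)) (T.d_zero s (j + 1)) (A108_moore_lin (T.σ s j) hp)) := by
      show A108_map (T.d s (j + 1)) (T.d_zero s (j + 1)) t (A108_lin (T.σ s j) t
        (A108_cl ((T.cov t).prj s j a : (T.W (s + 1)).V t) hp)) = _
      rw [A108_lin_cl, A108_map_cl _ _ ht]
    rw [h2]
    exact A108_cl_add (W := T.W (s + 1)) hp _

private theorem A108_pi_cl (T : Tower) {s t : ℕ} (ht : 1 ≤ t) {a : (T.W s).V t}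
    (ha : (T.W s).Moore a) : (A108_cov T t ht).pi s (A108_cl a ha) =
      A108_cl ((T.cov t).pi s a : (T.W s).V t) (moore_pi T ha) := by
  cases s with
  | zero => rfl
  | succ s => exact A108_prj_cl T ht ha (s + 1)

/-- if the normalised class of `u` is a coboundary, it is the coboundary of a normalised class -/
theorem exists_normalised (T : Tower) {s t : ℕ} (ht : 1 ≤ t) (u : (T.W (s + 1)).V t)
    (hu : (T.W (s + 1)).Moore u) (hσ : ∀ j ≤ s, (T.σ s j).app t u ∈ (T.W s).B t)
    (a : (T.W s).V t) (ha : (T.W s).Moore a) (h : u + T.del s t a ∈ (T.W (s + 1)).B t) :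
    ∃ a' : (T.W s).V t, (T.W s).Moore a' ∧ (T.cov t).Nrm s a' ∧
      u + T.del s t a' ∈ (T.W (s + 1)).B t := by
  refine ⟨(T.cov t).pi s a, moore_pi T ha, (T.cov t).nrm_pi s a, ?_⟩
  have h0 : ∀ s (x y : (A108_cov T t ht).C s),
      (A108_cov T t ht).d s 0 (x + y) = (A108_cov T t ht).d s 0 x + (A108_cov T t ht).d s 0 y := by
    intro s x y
    obtain ⟨x, hx, rfl⟩ := A108_exists x
    obtain ⟨y, hy, rfl⟩ := A108_exists y
    show A108_map (T.d s 0) (T.d_zero s 0) t (A108_cl x hx + A108_cl y hy) =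
      A108_map (T.d s 0) (T.d_zero s 0) t (A108_cl x hx) +
        A108_map (T.d s 0) (T.d_zero s 0) t (A108_cl y hy)
    rw [A108_cl_add, A108_map_cl _ _ ht, A108_map_cl _ _ ht, A108_map_cl _ _ ht, A108_cl_add,
      A108_cl_eq, ← add_assoc]
    exact cr_moore (T.d s 0) (T.d_zero s 0) ht hx hy
  have hn : (A108_cov T t ht).Nrm (s + 1) (A108_cl u hu) := by
    intro j hj
    show A108_lin (T.σ s j) t (A108_cl u hu) = 0
    have hz : (T.W s).Moore (0 : (T.W s).V t) := (A108_MC (T.W s) t).zero_mem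
    rw [A108_lin_cl, ← A108_cl_zero hz, A108_cl_eq, add_zero]
    exact hσ j hj
  have hd : (A108_cl u hu : (A108_cov T t ht).C (s + 1)) =
      (A108_cov T t ht).del s (A108_cl a ha) := by
    rw [A108_del_cl T ht ha]
    exact A108_cl_eq.2 h
  have h1 := (A108_cov T t ht).del_pi_of_nrm h0 s (A108_cl u hu) hn (A108_cl a ha) hd
  rw [A108_pi_cl T ht ha, A108_del_cl T ht (moore_pi T ha)] at h1
  exact A108_cl_eq.1 h1

end Tower

end MM

end

/-! ### from `Lib_MP_33f7bb_d.A5Def` -/

section

/-!
# A5 definitions: words, the coalgebra of letters, cosimplicial vector spaces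

`Wd B`: linear combinations of words in the alphabet `B` (tensor algebra of `B →₀ ZMod 2`).
`wmap f`: the algebra map `Wd B → Wd B'` induced by a linear map `f : (B →₀ ZMod 2) → (B' →₀ ZMod 2)`.
Letters `Lt I` = non-zero exponent vectors `e : I →₀ ℕ`, coproduct `cop e = ∑_(a + b = e, a, b ≠ 0) (a, b)`,
`Dw` = derivation of the tensor algebra extending `cop` (cobar differential).
`CoB`: cosimplicial coalgebras with such bases, with an augmentation and a contraction.
-/

namespace MM

/-! ## cosimplicial vector spaces -/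

/-- cosimplicial vector spaces (functors on all monotone maps) -/
structure CV where
  V : ℕ → Type
  [grp : ∀ n, AddCommGroup (V n)]
  [mod : ∀ n, Module (ZMod 2) (V n)]
  act : ∀ {m n : ℕ}, Mo m n → (V m →ₗ[ZMod 2] V n)
  act_id : ∀ {n : ℕ} (x : V n), act OrderHom.id x = x
  act_comp : ∀ {l m n : ℕ} (f : Mo l m) (g : Mo m n) (x : V l), act g (act f x) = act (g.comp f) x

attribute [instance] CV.grp CV.mod

/-- the differential `V n → V (n+1)` -/
noncomputable def CV.d (C : CV) (n : ℕ) : C.V n →ₗ[ZMod 2] C.V (n + 1) :=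
  ∑ i : Fin (n + 2), C.act (dlt i)

/-- the image of the differential (`0` in degree `0`) -/
noncomputable def CV.Bd (C : CV) : ∀ n, Submodule (ZMod 2) (C.V n)
  | 0 => ⊥
  | n + 1 => LinearMap.range (C.d n)

theorem CV.act_idL (C : CV) (n : ℕ) : C.act (OrderHom.id : Mo n n) = LinearMap.id :=
  LinearMap.ext fun x => C.act_id x

theorem CV.act_compL (C : CV) {l m n : ℕ} (f : Mo l m) (g : Mo m n) :
    C.act (g.comp f) = (C.act g).comp (C.act f) :=
  LinearMap.ext fun x => (C.act_comp f g x).symm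

/-- homotopies between endomorphisms of a cosimplicial vector space -/
structure CHpy (C : CV) where
  app : ∀ n, Mo n 1 → (C.V n →ₗ[ZMod 2] C.V n)
  nat : ∀ {m n : ℕ} (g : Mo m n) (θ : Mo n 1) (x : C.V m),
    C.act g (app m (θ.comp g) x) = app n θ (C.act g x)

/-- the dual simplicial vector space -/
noncomputable def CV.dual (C : CV) : SV where
  V n := Module.Dual (ZMod 2) (C.V n)
  act g := (C.act g).dualMap
  act_id x := by
    rw [C.act_idL]; rfl
  act_comp f g x := by
    rw [C.act_compL]; rfl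

/-- exterior powers -/
noncomputable def CV.ext (C : CV) (q : ℕ) : CV where
  V n := ⋀[ZMod 2]^q (C.V n)
  act g := exteriorPower.map q (C.act g)
  act_id x := by
    rw [C.act_idL, exteriorPower.map_id]; rfl
  act_comp f g x := by
    rw [C.act_compL, exteriorPower.map_comp]; rfl

/-- cosimplicial vector spaces with bases -/
noncomputable def CV.ofI {I : ℕ → Type}
    (act : ∀ {m n : ℕ}, Mo m n → ((I m →₀ ZMod 2) →ₗ[ZMod 2] (I n →₀ ZMod 2)))
    (h1 : ∀ {n : ℕ} (x : I n →₀ ZMod 2), act OrderHom.id x = x)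
    (h2 : ∀ {l m n : ℕ} (f : Mo l m) (g : Mo m n) (x : I l →₀ ZMod 2),
      act g (act f x) = act (g.comp f) x) : CV where
  V n := I n →₀ ZMod 2
  act := act
  act_id := h1
  act_comp := h2

/-- the cosimplicial identities (indices are natural numbers, as in `Tower`) -/
structure CosRel {V : ℕ → Type} [∀ n, AddCommGroup (V n)] [∀ n, Module (ZMod 2) (V n)]
    (cf : ∀ s : ℕ, ℕ → (V s →ₗ[ZMod 2] V (s + 1)))
    (cd : ∀ s : ℕ, ℕ → (V (s + 1) →ₗ[ZMod 2] V s)) : Prop where
  dd : ∀ s i j (x : V s), i ≤ j → j ≤ s + 1 → cf (s + 1) (j + 1) (cf s i x) = cf (s + 1) i (cf s j x)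
  σσ : ∀ s i j (x : V (s + 2)), i ≤ j → j ≤ s → cd s j (cd (s + 1) i x) = cd s i (cd (s + 1) (j + 1) x)
  σd_lt : ∀ s i j (x : V (s + 1)), i ≤ j → j ≤ s →
    cd (s + 1) (j + 1) (cf (s + 1) i x) = cf s i (cd s j x)
  σd_eq : ∀ s j (x : V s), j ≤ s → cd s j (cf s j x) = x
  σd_eq' : ∀ s j (x : V s), j ≤ s → cd s j (cf s (j + 1) x) = x
  σd_gt : ∀ s i j (x : V (s + 1)), i ≤ j → j ≤ s →
    cd (s + 1) i (cf (s + 1) (j + 2) x) = cf s (j + 1) (cd s i x)

/-! ## words -/

/-- linear combinations of words -/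
abbrev Wd (B : Type) := List B →₀ ZMod 2

/-- linear extension from words -/
noncomputable abbrev wext {B : Type} {M : Type} [AddCommGroup M] [Module (ZMod 2) M]
    (f : List B → M) : Wd B →ₗ[ZMod 2] M := Finsupp.linearCombination (ZMod 2) f

/-- left multiplication: `b ⊗ w ↦ b w` -/
noncomputable def lc {B : Type} : (B →₀ ZMod 2) →ₗ[ZMod 2] Wd B →ₗ[ZMod 2] Wd B :=
  Finsupp.linearCombination (ZMod 2) fun b => Finsupp.lmapDomain (ZMod 2) (ZMod 2) (List.cons b)

/-- left multiplication: `(a, b) ⊗ w ↦ a b w` -/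
noncomputable def lc2 {B : Type} : (B × B →₀ ZMod 2) →ₗ[ZMod 2] Wd B →ₗ[ZMod 2] Wd B :=
  Finsupp.linearCombination (ZMod 2) fun p =>
    Finsupp.lmapDomain (ZMod 2) (ZMod 2) (fun w => p.1 :: p.2 :: w)

/-- the algebra map induced by a linear map of letters, on a word -/
noncomputable def wmapW {B B' : Type} (f : (B →₀ ZMod 2) →ₗ[ZMod 2] (B' →₀ ZMod 2)) :
    List B → Wd B'
  | [] => Finsupp.single [] 1
  | b :: w => lc (f (Finsupp.single b 1)) (wmapW f w)

/-- the algebra map induced by a linear map of letters -/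
noncomputable def wmap {B B' : Type} (f : (B →₀ ZMod 2) →ₗ[ZMod 2] (B' →₀ ZMod 2)) :
    Wd B →ₗ[ZMod 2] Wd B' := wext (wmapW f)

/-- words of length `q` -/
def Len (B : Type) (q : ℕ) : Submodule (ZMod 2) (Wd B) :=
  Finsupp.supported (ZMod 2) (ZMod 2) {w | w.length = q}

/-- words of length `q` and degree `k` -/
def LenD {B : Type} (dg : B → ℕ) (q k : ℕ) : Submodule (ZMod 2) (Wd B) :=
  Finsupp.supported (ZMod 2) (ZMod 2) {w | w.length = q ∧ (w.map dg).sum = k}

/-- the component of degree `k` -/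
noncomputable def prk {B : Type} (dg : B → ℕ) (k : ℕ) : Wd B →ₗ[ZMod 2] Wd B :=
  { toFun := fun c => c.filter (fun w => (w.map dg).sum = k)
    map_add' := fun _ _ => Finsupp.filter_add
    map_smul' := fun _ _ => Finsupp.filter_smul }

/-- degree preserving linear maps of letters -/
def DegPres {B B' : Type} (dg : B → ℕ) (dg' : B' → ℕ)
    (f : (B →₀ ZMod 2) →ₗ[ZMod 2] (B' →₀ ZMod 2)) : Prop :=
  ∀ b, ∀ b' ∈ (f (Finsupp.single b 1)).support, dg' b' = dg b

/-! ## letters -/

/-- letters: non-zero exponent vectors -/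
abbrev Lt (I : Type) := {e : I →₀ ℕ // e ≠ 0}

/-- the letter `ε_i` -/
noncomputable def Lt.eps {I : Type} (i : I) : Lt I :=
  ⟨Finsupp.single i 1, fun h => one_ne_zero (Finsupp.single_eq_zero.1 h)⟩

theorem Lt.eps_injective {I : Type} : Function.Injective (Lt.eps (I := I)) := fun i j h =>
  Finsupp.single_left_injective one_ne_zero (Subtype.ext_iff.1 h)

/-- degree of a letter -/
noncomputable def Lt.deg {I : Type} (dg : I → ℕ) (e : Lt I) : ℕ := e.1.sum fun i n => n * dg i

/-- coproduct of a letter: the sum of all `(a, b)` with `a + b = e` (`a`, `b` non-zero) -/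
noncomputable def Lt.cop {I : Type} (e : Lt I) : Lt I × Lt I →₀ ZMod 2 := by
  classical
  exact ∑ p ∈ Finset.HasAntidiagonal.antidiagonal e.1, if h : p.1 ≠ 0 ∧ p.2 ≠ 0 then
    Finsupp.single ((⟨p.1, h.1⟩ : Lt I), (⟨p.2, h.2⟩ : Lt I)) 1 else 0

/-- the coproduct, linearly extended -/
noncomputable def Lt.copL {I : Type} : (Lt I →₀ ZMod 2) →ₗ[ZMod 2] (Lt I × Lt I →₀ ZMod 2) :=
  Finsupp.linearCombination (ZMod 2) Lt.cop

/-- `f ⊗ f` -/
noncomputable def sqm {B B' : Type} (f : (B →₀ ZMod 2) →ₗ[ZMod 2] (B' →₀ ZMod 2)) :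
    (B × B →₀ ZMod 2) →ₗ[ZMod 2] (B' × B' →₀ ZMod 2) :=
  Finsupp.linearCombination (ZMod 2) fun p =>
    (f (Finsupp.single p.1 1)).sum fun a r => (f (Finsupp.single p.2 1)).sum fun b r' =>
      Finsupp.single (a, b) (r * r')

/-- coalgebra maps -/
def CoMap {I I' : Type} (f : (Lt I →₀ ZMod 2) →ₗ[ZMod 2] (Lt I' →₀ ZMod 2)) : Prop :=
  ∀ e : Lt I, Lt.copL (f (Finsupp.single e 1)) = sqm f e.cop

/-- the cobar differential on a word: sum over all splittings of one letter -/
noncomputable def DwW {I : Type} : List (Lt I) → Wd (Lt I)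
  | [] => 0
  | b :: w => lc2 b.cop (Finsupp.single w 1) + lc (Finsupp.single b 1) (DwW w)

/-- the cobar differential -/
noncomputable def Dw {I : Type} : Wd (Lt I) →ₗ[ZMod 2] Wd (Lt I) := wext DwW

/-- inclusion of the primitive letters -/
noncomputable def Lt.em {I : Type} : (I →₀ ZMod 2) →ₗ[ZMod 2] (Lt I →₀ ZMod 2) :=
  Finsupp.lmapDomain (ZMod 2) (ZMod 2) Lt.eps

/-- projection to the primitive letters -/
noncomputable def Lt.pr {I : Type} : (Lt I →₀ ZMod 2) →ₗ[ZMod 2] (I →₀ ZMod 2) :=
  Finsupp.lcomapDomain Lt.eps Lt.eps_injective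

/-- the map on primitive letters -/
noncomputable def pmap {I I' : Type} (f : (Lt I →₀ ZMod 2) →ₗ[ZMod 2] (Lt I' →₀ ZMod 2)) :
    (I →₀ ZMod 2) →ₗ[ZMod 2] (I' →₀ ZMod 2) := Lt.pr.comp (f.comp Lt.em)

/-- inclusion of the words in primitive letters -/
noncomputable def emW {I : Type} : Wd I →ₗ[ZMod 2] Wd (Lt I) :=
  Finsupp.lmapDomain (ZMod 2) (ZMod 2) (List.map Lt.eps)

/-- from words of length `q` to the exterior power, on words -/
noncomputable def rhoW (I : Type) (q : ℕ) (w : List I) : ⋀[ZMod 2]^q (I →₀ ZMod 2) :=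
  if h : w.length = q then
    exteriorPower.ιMulti (ZMod 2) q (fun j : Fin q => Finsupp.single (w.get (Fin.cast h.symm j)) 1)
  else 0

/-- from words of length `q` to the exterior power -/
noncomputable def rho (I : Type) (q : ℕ) : Wd I →ₗ[ZMod 2] ⋀[ZMod 2]^q (I →₀ ZMod 2) := wext (rhoW I q)

/-- homogeneous elements of degree `k` of the exterior power -/
noncomputable def WD {I : Type} (dg : I → ℕ) (q k : ℕ) :
    Submodule (ZMod 2) (⋀[ZMod 2]^q (I →₀ ZMod 2)) :=
  Submodule.span (ZMod 2) {x | ∃ l : Fin q → I, ∑ j, dg (l j) = k ∧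
    x = exteriorPower.ιMulti (ZMod 2) q (fun j => Finsupp.single (l j) 1)}

/-! ## cosimplicial coalgebras with bases of letters -/

/-- cosimplicial coalgebras with bases of letters, augmentation and contraction -/
structure CoB where
  I : ℕ → Type
  dg : ∀ s, I s → ℕ
  dg_pos : ∀ s i, 1 ≤ dg s i
  dg_fin : ∀ s k, {i | dg s i = k}.Finite
  /-- cofaces, used for `i ≤ s + 1` -/
  cf : ∀ s : ℕ, ℕ → ((Lt (I s) →₀ ZMod 2) →ₗ[ZMod 2] (Lt (I (s + 1)) →₀ ZMod 2))
  /-- codegeneracies, used for `j ≤ s` -/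
  cd : ∀ s : ℕ, ℕ → ((Lt (I (s + 1)) →₀ ZMod 2) →ₗ[ZMod 2] (Lt (I s) →₀ ZMod 2))
  rel : CosRel cf cd
  cf_deg : ∀ s i, DegPres (Lt.deg (dg s)) (Lt.deg (dg (s + 1))) (cf s i)
  cd_deg : ∀ s j, DegPres (Lt.deg (dg (s + 1))) (Lt.deg (dg s)) (cd s j)
  cf_co : ∀ s i, CoMap (cf s i)
  cd_co : ∀ s j, CoMap (cd s j)
  /-- degree and basis of the level `-1` -/
  N : ℕ
  B1 : Type
  aug : (B1 →₀ ZMod 2) →ₗ[ZMod 2] (Lt (I 0) →₀ ZMod 2)
  h0 : (Lt (I 0) →₀ ZMod 2) →ₗ[ZMod 2] (B1 →₀ ZMod 2)
  h0_deg : DegPres (Lt.deg (dg 0)) (fun _ => N) h0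
  /-- the contraction -/
  h : ∀ s : ℕ, (Lt (I (s + 1)) →₀ ZMod 2) →ₗ[ZMod 2] (Lt (I s) →₀ ZMod 2)
  h_deg : ∀ s, DegPres (Lt.deg (dg (s + 1))) (Lt.deg (dg s)) (h s)
  h_zero : ∀ s x, h s (cf s 0 x) = x
  h_succ : ∀ s i x, i ≤ s + 1 → h (s + 1) (cf (s + 1) (i + 1) x) = cf s i (h s x)
  h_aug : ∀ x, h 0 (cf 0 1 x) = aug (h0 x)

namespace CoB

variable (X : CoB)

/-- words of length `q` and degree `k` at level `s` -/
noncomputable abbrev T (s q k : ℕ) : Submodule (ZMod 2) (Wd (Lt (X.I s))) := LenD (Lt.deg (X.dg s)) q k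

/-- the differential of words -/
noncomputable def dT (s : ℕ) : Wd (Lt (X.I s)) →ₗ[ZMod 2] Wd (Lt (X.I (s + 1))) :=
  ∑ i ∈ Finset.range (s + 2), wmap (X.cf s i)

/-- cofaces of the primitives -/
noncomputable def pcf (s i : ℕ) : (X.I s →₀ ZMod 2) →ₗ[ZMod 2] (X.I (s + 1) →₀ ZMod 2) :=
  pmap (X.cf s i)

/-- codegeneracies of the primitives -/
noncomputable def pcd (s j : ℕ) : (X.I (s + 1) →₀ ZMod 2) →ₗ[ZMod 2] (X.I s →₀ ZMod 2) :=
  pmap (X.cd s j)

/-- the differential of the primitives -/
noncomputable def pd (s : ℕ) : (X.I s →₀ ZMod 2) →ₗ[ZMod 2] (X.I (s + 1) →₀ ZMod 2) :=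
  ∑ i ∈ Finset.range (s + 2), X.pcf s i

/-- the differential of the words in primitives -/
noncomputable def pdT (s : ℕ) : Wd (X.I s) →ₗ[ZMod 2] Wd (X.I (s + 1)) :=
  ∑ i ∈ Finset.range (s + 2), wmap (X.pcf s i)

/-- exactness of the primitives at level `s` in degree `k` -/
def PEx : ℕ → ℕ → Prop
  | 0, k => ∀ z : X.I 0 →₀ ZMod 2, (∀ i ∈ z.support, X.dg 0 i = k) → X.pd 0 z = 0 → z = 0
  | s + 1, k => ∀ z : X.I (s + 1) →₀ ZMod 2, (∀ i ∈ z.support, X.dg (s + 1) i = k) →
      X.pd (s + 1) z = 0 →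
      ∃ w : X.I s →₀ ZMod 2, (∀ i ∈ w.support, X.dg s i = k) ∧ X.pd s w = z

end CoB

end MM

end

/-! ### from `Lib_MP_33f7bb_d.A502` -/

section

/-!
# A5-02: words

All statements are linear: check them on basis elements `Finsupp.single w 1` (`Finsupp.lhom_ext'`, `Finsupp.induction_linear`,
`Submodule.span_induction`); `wmap f` on words by induction on the word.
`wmap_lc`: bilinear in `(y, x)`, on basis elements it is the definition of `wmapW`.
`wmap_comp`: on words by induction with `wmap_lc`.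
`wmap_Len`, `wmap_LenD`: `Len`, `LenD` are `Finsupp.supported` (spans of words: `Finsupp.supported_eq_span_single`); on a word by
induction; `lc y` maps `Len q` to `Len (q+1)`.
`wmap_prk`: on a word `w` of degree `d`: `wmap f w ∈ LenD dg' w.length d`; `prk` is the identity or zero.
-/

namespace MM

variable {B B' B'' : Type}

private theorem A502_lc_apply (y : B →₀ ZMod 2) (x : Wd B) :
    lc y x = y.sum fun b c => c • Finsupp.mapDomain (List.cons b) x := by
  simp only [lc, Finsupp.linearCombination_apply, Finsupp.sum, LinearMap.sum_apply,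
    LinearMap.smul_apply, Finsupp.lmapDomain_apply]

private theorem A502_lc_one (b : B) (x : Wd B) :
    lc (Finsupp.single b 1) x = Finsupp.mapDomain (List.cons b) x := by
  simp only [lc, Finsupp.linearCombination_single, one_smul, Finsupp.lmapDomain_apply]

private theorem A502_lc_mem {y : B →₀ ZMod 2} {x : Wd B} (S : Submodule (ZMod 2) (Wd B))
    (h : ∀ b ∈ y.support, Finsupp.mapDomain (List.cons b) x ∈ S) : lc y x ∈ S := by
  rw [A502_lc_apply]
  exact Submodule.sum_mem _ fun b hb => S.smul_mem _ (h b hb)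

private theorem A502_wext_mem {M : Type} [AddCommGroup M] [Module (ZMod 2) M] (g : List B → M)
    {x : Wd B} (S : Submodule (ZMod 2) M) (h : ∀ w ∈ x.support, g w ∈ S) : wext g x ∈ S := by
  rw [wext, Finsupp.linearCombination_apply]
  exact Submodule.sum_mem _ fun b hb => S.smul_mem _ (h b hb)

private theorem A502_supp {S T : Set (List B)} (b : B) (h : ∀ w ∈ S, b :: w ∈ T) {x : Wd B}
    (hx : x ∈ Finsupp.supported (ZMod 2) (ZMod 2) S) :
    Finsupp.mapDomain (List.cons b) x ∈ Finsupp.supported (ZMod 2) (ZMod 2) T := by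
  classical
  rw [Finsupp.mem_supported] at hx ⊢
  intro w hw
  obtain ⟨v, hv, rfl⟩ := Finset.mem_image.1 (Finsupp.mapDomain_support hw)
  exact h v (hx hv)

theorem wext_single {M : Type} [AddCommGroup M] [Module (ZMod 2) M] (f : List B → M) (w : List B) :
    wext f (Finsupp.single w 1) = f w := by
  rw [wext, Finsupp.linearCombination_single, one_smul]

theorem lc_single (b : B) (w : List B) :
    lc (Finsupp.single b 1) (Finsupp.single w 1) = (Finsupp.single (b :: w) 1 : Wd B) := by
  rw [A502_lc_one, Finsupp.mapDomain_single]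

theorem lc2_single (a b : B) (x : Wd B) :
    lc2 (Finsupp.single (a, b) 1) x = lc (Finsupp.single a 1) (lc (Finsupp.single b 1) x) := by
  rw [A502_lc_one, A502_lc_one, ← Finsupp.mapDomain_comp]
  simp only [lc2, Finsupp.linearCombination_single, one_smul, Finsupp.lmapDomain_apply]
  rfl

theorem lc_single_injective (b : B) :
    Function.Injective (lc (Finsupp.single b 1) : Wd B →ₗ[ZMod 2] Wd B) := by
  intro x y h
  rw [A502_lc_one, A502_lc_one] at h
  exact Finsupp.mapDomain_injective List.cons_injective h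

theorem lc_Len {y : B →₀ ZMod 2} {q : ℕ} {x : Wd B} (hx : x ∈ Len B q) : lc y x ∈ Len B (q + 1) := by
  refine A502_lc_mem _ fun b _ => A502_supp b (fun w hw => ?_) hx
  show (b :: w).length = q + 1
  rw [List.length_cons]
  exact congrArg (· + 1) hw

theorem wmap_nil (f : (B →₀ ZMod 2) →ₗ[ZMod 2] (B' →₀ ZMod 2)) :
    wmap f (Finsupp.single [] 1) = Finsupp.single [] 1 := by
  rw [wmap, wext_single]
  rfl

theorem wmap_lc (f : (B →₀ ZMod 2) →ₗ[ZMod 2] (B' →₀ ZMod 2)) (y : B →₀ ZMod 2) (x : Wd B) :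
    wmap f (lc y x) = lc (f y) (wmap f x) := by
  have h : (lc : (B →₀ ZMod 2) →ₗ[ZMod 2] Wd B →ₗ[ZMod 2] Wd B).compr₂ (wmap f) =
      lc.compl₁₂ f (wmap f) := by
    apply Finsupp.lhom_ext'
    intro b
    apply LinearMap.ext_ring
    apply Finsupp.lhom_ext'
    intro w
    apply LinearMap.ext_ring
    show wmap f (lc (Finsupp.single b 1) (Finsupp.single w 1)) =
      lc (f (Finsupp.single b 1)) (wmap f (Finsupp.single w 1))
    rw [lc_single, wmap, wext_single, wext_single]
    rfl
  exact DFunLike.congr_fun (DFunLike.congr_fun h y) x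

private theorem A502_wmap_single (f : (B →₀ ZMod 2) →ₗ[ZMod 2] (B' →₀ ZMod 2)) (w : List B) :
    wmap f (Finsupp.single w 1) = wmapW f w := by
  rw [wmap, wext_single]

private theorem A502_ext {M : Type} [AddCommGroup M] [Module (ZMod 2) M]
    {f g : Wd B →ₗ[ZMod 2] M} (h : ∀ w, f (Finsupp.single w 1) = g (Finsupp.single w 1)) :
    f = g := by
  apply Finsupp.lhom_ext'
  intro w
  apply LinearMap.ext_ring
  exact h w

theorem wmap_id : wmap (LinearMap.id : (B →₀ ZMod 2) →ₗ[ZMod 2] (B →₀ ZMod 2)) = LinearMap.id := by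
  apply A502_ext
  intro w
  induction w with
  | nil => exact wmap_nil _
  | cons b w ih =>
    rw [← lc_single, wmap_lc, ih]
    rfl

theorem wmap_comp (g : (B' →₀ ZMod 2) →ₗ[ZMod 2] (B'' →₀ ZMod 2))
    (f : (B →₀ ZMod 2) →ₗ[ZMod 2] (B' →₀ ZMod 2)) : wmap (g.comp f) = (wmap g).comp (wmap f) := by
  apply A502_ext
  intro w
  induction w with
  | nil => rw [LinearMap.comp_apply, wmap_nil, wmap_nil, wmap_nil]
  | cons b w ih =>
    rw [LinearMap.comp_apply] at ih ⊢
    rw [← lc_single, wmap_lc, wmap_lc, wmap_lc, ih, LinearMap.comp_apply]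

private theorem A502_wmapW_Len (f : (B →₀ ZMod 2) →ₗ[ZMod 2] (B' →₀ ZMod 2)) (w : List B) :
    wmapW f w ∈ Len B' w.length := by
  induction w with
  | nil => exact Finsupp.single_mem_supported _ _ rfl
  | cons b w ih => exact lc_Len ih

theorem wmap_Len (f : (B →₀ ZMod 2) →ₗ[ZMod 2] (B' →₀ ZMod 2)) {q : ℕ} {x : Wd B}
    (hx : x ∈ Len B q) : wmap f x ∈ Len B' q := by
  refine A502_wext_mem _ _ fun w hw => ?_
  have h1 : w.length = q := (Finsupp.mem_supported _ _).1 hx hw
  have h2 := A502_wmapW_Len f w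
  rwa [h1] at h2

theorem LenD_le {dg : B → ℕ} {q k : ℕ} {x : Wd B} (hx : x ∈ LenD dg q k) : x ∈ Len B q :=
  Finsupp.supported_mono (fun _ hw => hw.1) hx

private theorem A502_cons_LenD {dg : B → ℕ} (b : B) {q k : ℕ} {x : Wd B} (hx : x ∈ LenD dg q k) :
    Finsupp.mapDomain (List.cons b) x ∈ LenD dg (q + 1) (dg b + k) := by
  refine A502_supp b (fun w hw => ?_) hx
  obtain ⟨h1, h2⟩ := hw
  refine ⟨?_, ?_⟩
  · rw [List.length_cons, h1]
  · rw [List.map_cons, List.sum_cons, h2]

private theorem A502_wmapW_LenD {dg : B → ℕ} {dg' : B' → ℕ}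
    {f : (B →₀ ZMod 2) →ₗ[ZMod 2] (B' →₀ ZMod 2)} (hf : DegPres dg dg' f) (w : List B) :
    wmapW f w ∈ LenD dg' w.length (w.map dg).sum := by
  induction w with
  | nil => exact Finsupp.single_mem_supported _ _ ⟨rfl, rfl⟩
  | cons b w ih =>
    refine A502_lc_mem _ fun b' hb' => ?_
    rw [List.map_cons, List.sum_cons, List.length_cons, ← hf b b' hb']
    exact A502_cons_LenD b' ih

theorem wmap_LenD {dg : B → ℕ} {dg' : B' → ℕ} {f : (B →₀ ZMod 2) →ₗ[ZMod 2] (B' →₀ ZMod 2)}
    (hf : DegPres dg dg' f) {q k : ℕ} {x : Wd B} (hx : x ∈ LenD dg q k) :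
    wmap f x ∈ LenD dg' q k := by
  refine A502_wext_mem _ _ fun w hw => ?_
  obtain ⟨h1, h3⟩ := (Finsupp.mem_supported _ _).1 hx hw
  have h2 := A502_wmapW_LenD hf w
  rwa [h1, h3] at h2

theorem prk_mem (dg : B → ℕ) {q : ℕ} (k : ℕ) {x : Wd B} (hx : x ∈ Len B q) :
    prk dg k x ∈ LenD dg q k := by
  refine (Finsupp.mem_supported _ _).2 fun w hw => ?_
  have hw' : w ∈ (Finsupp.filter (fun w => (w.map dg).sum = k) x).support := hw
  rw [Finsupp.support_filter, Finset.mem_filter] at hw'
  exact ⟨(Finsupp.mem_supported _ _).1 hx hw'.1, hw'.2⟩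

theorem prk_eq {dg : B → ℕ} {q k : ℕ} {x : Wd B} (hx : x ∈ LenD dg q k) : prk dg k x = x := by
  show Finsupp.filter (fun w => (w.map dg).sum = k) x = x
  rw [Finsupp.filter_eq_self_iff]
  intro w hw
  exact ((Finsupp.mem_supported _ _).1 hx (Finsupp.mem_support_iff.2 hw)).2

private theorem A502_prk_zero {dg : B → ℕ} {q k k' : ℕ} (hk : k' ≠ k) {x : Wd B}
    (hx : x ∈ LenD dg q k') : prk dg k x = 0 := by
  show Finsupp.filter (fun w => (w.map dg).sum = k) x = 0
  rw [Finsupp.filter_eq_zero_iff]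
  intro w hw
  by_contra hne
  exact hk (((Finsupp.mem_supported _ _).1 hx (Finsupp.mem_support_iff.2 hne)).2.symm.trans hw)

theorem wmap_prk {dg : B → ℕ} {dg' : B' → ℕ} {f : (B →₀ ZMod 2) →ₗ[ZMod 2] (B' →₀ ZMod 2)}
    (hf : DegPres dg dg' f) (k : ℕ) (x : Wd B) : wmap f (prk dg k x) = prk dg' k (wmap f x) := by
  have h : (wmap f).comp (prk dg k) = (prk dg' k).comp (wmap f) := by
    apply A502_ext
    intro w
    rw [LinearMap.comp_apply, LinearMap.comp_apply]
    have h1 : (Finsupp.single w 1 : Wd B) ∈ LenD dg w.length (w.map dg).sum :=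
      Finsupp.single_mem_supported _ _ ⟨rfl, rfl⟩
    have h2 := wmap_LenD hf h1
    by_cases hk : (w.map dg).sum = k
    · rw [hk] at h1 h2
      rw [prk_eq h1, prk_eq h2]
    · rw [A502_prk_zero hk h1, A502_prk_zero hk h2, map_zero]
  exact DFunLike.congr_fun h x

/-- with all letters of degree `N`: words of length `q` have degree `q N` -/
theorem LenD_const {N q k : ℕ} (hk : k ≠ q * N) {x : Wd B} (hx : x ∈ LenD (fun _ : B => N) q k) :
    x = 0 := by
  by_contra hne
  obtain ⟨w, hw⟩ := Finsupp.support_nonempty_iff.2 hne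
  obtain ⟨h1, h2⟩ := (Finsupp.mem_supported _ _).1 hx hw
  apply hk
  rw [← h2, ← h1]
  simp

private theorem A502_lc_nil (z : B →₀ ZMod 2) :
    lc z (Finsupp.single [] 1) = Finsupp.mapDomain (fun b => [b]) z := by
  rw [A502_lc_apply, Finsupp.mapDomain]
  refine Finset.sum_congr rfl fun b _ => ?_
  show z b • Finsupp.mapDomain (List.cons b) (Finsupp.single [] 1) = Finsupp.single [b] (z b)
  rw [Finsupp.mapDomain_single, Finsupp.smul_single, smul_eq_mul, mul_one]

theorem LenD_one {dg : B → ℕ} {k : ℕ} {z : B →₀ ZMod 2} :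
    lc z (Finsupp.single [] 1) ∈ LenD dg 1 k ↔ ∀ b ∈ z.support, dg b = k := by
  classical
  rw [A502_lc_nil]
  have hinj : Function.Injective (fun b : B => [b]) := fun a b h => by simpa using h
  constructor
  · intro h b hb
    have h1 : [b] ∈ (Finsupp.mapDomain (fun b => [b]) z).support := by
      rw [Finsupp.mem_support_iff]
      have h2 : Finsupp.mapDomain (fun b => [b]) z [b] = z b :=
        Finsupp.mapDomain_apply hinj z b
      rw [h2]
      exact Finsupp.mem_support_iff.1 hb
    have h3 := ((Finsupp.mem_supported _ _).1 h h1).2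
    simpa using h3
  · intro h
    refine (Finsupp.mem_supported _ _).2 fun w hw => ?_
    obtain ⟨b, hb, rfl⟩ := Finset.mem_image.1 (Finsupp.mapDomain_support hw)
    exact ⟨rfl, by simpa using h b hb⟩

end MM

end

/-! ### from `Lib_MP_33f7bb_d.A503` -/

section

/-!
# A5-03: the cobar differential

`cop_apply_eq`, `cop_apply_ne`: from the definition (`Finset.mem_antidiagonal`).
`Dw_lc`: bilinear, on basis elements the definition of `DwW`.
`Dw_prk`: `Lt.deg dg a + Lt.deg dg b = Lt.deg dg e` if `a + b = e` (`Finsupp.sum_add_index'`), so on a word `w` of degree `d` all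
words of `Dw w` have degree `d`.
`Dw_Dw`: on words by induction.  `Dw (lc2 c x) = (cop ⊗ 1)(c) x + (1 ⊗ cop)(c) x + lc2 c (Dw x)`, where for `c = (a, b)`:
`(cop ⊗ 1) x = lc2 (cop a) (lc b x)`, `(1 ⊗ cop) x = lc a (lc2 (cop b) x)`.  So `Dw (Dw (b :: w)) = [both triple sums of
cop b] + lc2 (cop b) (Dw w) + lc2 (cop b) (Dw w) + lc b (Dw (Dw w))`; the two triple sums are equal (coassociativity: both are
the sum over all triples of non-zero `(a1, a2, a3)` with `a1 + a2 + a3 = b`), char 2.
`Dw_wmap`: on words by induction: `Dw (wmap f (b :: w)) = Dw (lc (f b) (wmap f w)) = lc2 (copL (f b)) (wmap f w) + lc (f b) (Dw (wmap f w))`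
and `wmap f (Dw (b :: w)) = wmap f (lc2 (cop b) w) + lc (f b) (wmap f (Dw w))`; `wmap f (lc2 c x) = lc2 (sqm f c) (wmap f x)`.
-/

namespace MM

variable {I I' : Type}

/-! ### auxiliary lemmas -/

private theorem A503_ext {B M : Type} [AddCommGroup M] [Module (ZMod 2) M]
    {f g : Wd B →ₗ[ZMod 2] M} (h : ∀ w, f (Finsupp.single w 1) = g (Finsupp.single w 1)) :
    f = g := by
  apply Finsupp.lhom_ext'
  intro w
  apply LinearMap.ext_ring
  exact h w

private theorem A503_lc_apply {B : Type} (y : B →₀ ZMod 2) (x : Wd B) :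
    lc y x = y.sum fun b c => c • lc (Finsupp.single b 1) x := by
  have h : ∀ b : B, lc (Finsupp.single b 1) x = Finsupp.mapDomain (List.cons b) x := fun b => by
    simp only [lc, Finsupp.linearCombination_single, one_smul, Finsupp.lmapDomain_apply]
  simp only [h]
  simp only [lc, Finsupp.linearCombination_apply, Finsupp.sum, LinearMap.sum_apply,
    LinearMap.smul_apply, Finsupp.lmapDomain_apply]

private theorem A503_lc2_apply {B : Type} (c : B × B →₀ ZMod 2) (x : Wd B) :
    lc2 c x = c.sum fun p r => r • lc (Finsupp.single p.1 1) (lc (Finsupp.single p.2 1) x) := by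
  have h : ∀ p : B × B, lc (Finsupp.single p.1 1) (lc (Finsupp.single p.2 1) x) =
      Finsupp.mapDomain (fun w => p.1 :: p.2 :: w) x := fun p => by
    rw [← lc2_single]
    simp only [lc2, Finsupp.linearCombination_single, one_smul, Finsupp.lmapDomain_apply]
  simp only [h]
  simp only [lc2, Finsupp.linearCombination_apply, Finsupp.sum, LinearMap.sum_apply,
    LinearMap.smul_apply, Finsupp.lmapDomain_apply]

private theorem A503_cons_Len {B : Type} (b : B) {q : ℕ} {x : Wd B} (hx : x ∈ Len B q) :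
    lc (Finsupp.single b 1) x ∈ Len B (q + 1) := lc_Len hx

private theorem A503_cons_LenD {B : Type} {dg : B → ℕ} (b : B) {q k : ℕ} {x : Wd B}
    (hx : x ∈ LenD dg q k) : lc (Finsupp.single b 1) x ∈ LenD dg (q + 1) (dg b + k) := by
  classical
  have e : lc (Finsupp.single b 1) x = Finsupp.mapDomain (List.cons b) x := by
    simp only [lc, Finsupp.linearCombination_single, one_smul, Finsupp.lmapDomain_apply]
  rw [e]
  refine (Finsupp.mem_supported _ _).2 fun w hw => ?_
  obtain ⟨v, hv, rfl⟩ := Finset.mem_image.1 (Finsupp.mapDomain_support hw)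
  obtain ⟨h1, h2⟩ := (Finsupp.mem_supported _ _).1 hx hv
  refine ⟨?_, ?_⟩
  · rw [List.length_cons, h1]
  · rw [List.map_cons, List.sum_cons, h2]

private theorem A503_lc2_mem {B : Type} {c : B × B →₀ ZMod 2} {x : Wd B}
    (S : Submodule (ZMod 2) (Wd B))
    (h : ∀ p ∈ c.support, lc (Finsupp.single p.1 1) (lc (Finsupp.single p.2 1) x) ∈ S) :
    lc2 c x ∈ S := by
  rw [A503_lc2_apply]
  exact Submodule.sum_mem _ fun p hp => S.smul_mem _ (h p hp)

private theorem A503_wext_mem {B M : Type} [AddCommGroup M] [Module (ZMod 2) M] (g : List B → M)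
    {x : Wd B} (S : Submodule (ZMod 2) M) (h : ∀ w ∈ x.support, g w ∈ S) : wext g x ∈ S := by
  rw [wext, Finsupp.linearCombination_apply]
  exact Submodule.sum_mem _ fun b hb => S.smul_mem _ (h b hb)

private theorem A503_prk_zero {B : Type} {dg : B → ℕ} {q k k' : ℕ} (hk : k' ≠ k) {x : Wd B}
    (hx : x ∈ LenD dg q k') : prk dg k x = 0 := by
  show Finsupp.filter (fun w => (w.map dg).sum = k) x = 0
  rw [Finsupp.filter_eq_zero_iff]
  intro w hw
  by_contra hne
  exact hk (((Finsupp.mem_supported _ _).1 hx (Finsupp.mem_support_iff.2 hne)).2.symm.trans hw)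

/-- a linear map on the coproduct of a letter -/
private theorem A503_map_cop {M : Type} [AddCommGroup M] [Module (ZMod 2) M] (e : Lt I)
    (G : (Lt I × Lt I →₀ ZMod 2) →ₗ[ZMod 2] M) :
    G e.cop = (by
      classical
      exact ∑ p ∈ Finset.HasAntidiagonal.antidiagonal e.1, if h : p.1 ≠ 0 ∧ p.2 ≠ 0 then
        G (Finsupp.single ((⟨p.1, h.1⟩ : Lt I), (⟨p.2, h.2⟩ : Lt I)) 1) else 0) := by
  classical
  unfold Lt.cop
  rw [map_sum]
  refine Finset.sum_congr rfl fun p _ => ?_
  split
  · rfl
  · exact map_zero G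

theorem cop_apply_eq (e a b : Lt I) (h : a.1 + b.1 = e.1) : e.cop (a, b) = 1 := by
  classical
  have h1 := A503_map_cop e (Finsupp.lapply (a, b))
  rw [Finsupp.lapply_apply] at h1
  rw [h1, Finset.sum_eq_single (a.1, b.1)]
  · rw [dif_pos ⟨a.2, b.2⟩, Finsupp.lapply_apply]
    exact Finsupp.single_eq_same
  · intro p _ hp
    split
    · next hh =>
      rw [Finsupp.lapply_apply, Finsupp.single_apply, if_neg]
      intro h2
      apply hp
      have h3 := congrArg Prod.fst h2
      have h4 := congrArg Prod.snd h2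
      exact Prod.ext (congrArg Subtype.val h3) (congrArg Subtype.val h4)
    · rfl
  · intro h2
    exact absurd (Finset.HasAntidiagonal.mem_antidiagonal.2 h) h2

theorem cop_apply_ne (e a b : Lt I) (h : a.1 + b.1 ≠ e.1) : e.cop (a, b) = 0 := by
  classical
  have h1 := A503_map_cop e (Finsupp.lapply (a, b))
  rw [Finsupp.lapply_apply] at h1
  rw [h1]
  apply Finset.sum_eq_zero
  intro p hp
  split
  · next hh =>
    rw [Finsupp.lapply_apply, Finsupp.single_apply, if_neg]
    intro h2
    apply h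
    rw [← Finset.HasAntidiagonal.mem_antidiagonal.1 hp]
    have h3 := congrArg Prod.fst h2
    have h4 := congrArg Prod.snd h2
    have h5 : p.1 = a.1 := congrArg Subtype.val h3
    have h6 : p.2 = b.1 := congrArg Subtype.val h4
    rw [h5, h6]
  · rfl

theorem Dw_nil : Dw (Finsupp.single ([] : List (Lt I)) 1) = 0 := by
  rw [Dw, wext_single]
  rfl

private theorem A503_copL_single (b : Lt I) : Lt.copL (Finsupp.single b 1) = b.cop := by
  rw [Lt.copL, Finsupp.linearCombination_single, one_smul]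

theorem Dw_lc (y : Lt I →₀ ZMod 2) (x : Wd (Lt I)) :
    Dw (lc y x) = lc2 (Lt.copL y) x + lc y (Dw x) := by
  have h : (lc : (Lt I →₀ ZMod 2) →ₗ[ZMod 2] Wd (Lt I) →ₗ[ZMod 2] Wd (Lt I)).compr₂ Dw =
      lc2.comp Lt.copL + lc.compl₂ Dw := by
    apply Finsupp.lhom_ext'
    intro b
    apply LinearMap.ext_ring
    apply Finsupp.lhom_ext'
    intro w
    apply LinearMap.ext_ring
    show Dw (lc (Finsupp.single b 1) (Finsupp.single w 1)) =
      lc2 (Lt.copL (Finsupp.single b 1)) (Finsupp.single w 1) +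
        lc (Finsupp.single b 1) (Dw (Finsupp.single w 1))
    rw [lc_single, Dw, wext_single, wext_single, A503_copL_single]
    rfl
  exact DFunLike.congr_fun (DFunLike.congr_fun h y) x

private theorem A503_Dw_word (w : List (Lt I)) : Dw (Finsupp.single w 1) = DwW w := by
  rw [Dw, wext_single]

private theorem A503_DwW_Len (w : List (Lt I)) : DwW w ∈ Len (Lt I) (w.length + 1) := by
  induction w with
  | nil => exact Submodule.zero_mem _
  | cons b w ih =>
    refine Submodule.add_mem _ (A503_lc2_mem _ fun p _ => ?_) (A503_cons_Len b ih)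
    exact A503_cons_Len _ (A503_cons_Len _ (Finsupp.single_mem_supported _ _ rfl))

theorem Dw_Len {q : ℕ} {x : Wd (Lt I)} (hx : x ∈ Len (Lt I) q) : Dw x ∈ Len (Lt I) (q + 1) := by
  refine A503_wext_mem _ _ fun w hw => ?_
  have h1 : w.length = q := (Finsupp.mem_supported _ _).1 hx hw
  have h2 := A503_DwW_Len w
  rwa [h1] at h2

private theorem A503_deg_add (dg : I → ℕ) (e a b : Lt I) (h : a.1 + b.1 = e.1) :
    Lt.deg dg a + Lt.deg dg b = Lt.deg dg e := by
  classical
  unfold Lt.deg
  rw [← h]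
  refine (Finsupp.sum_add_index' ?_ ?_).symm
  · intro i
    exact Nat.zero_mul _
  · intro i m n
    exact Nat.add_mul _ _ _

private theorem A503_DwW_LenD (dg : I → ℕ) (w : List (Lt I)) :
    DwW w ∈ LenD (Lt.deg dg) (w.length + 1) (w.map (Lt.deg dg)).sum := by
  induction w with
  | nil => exact Submodule.zero_mem _
  | cons b w ih =>
    refine Submodule.add_mem _ (A503_lc2_mem _ fun p hp => ?_) ?_
    · have h1 : p.1.1 + p.2.1 = b.1 := by
        by_contra hne
        exact (Finsupp.mem_support_iff.1 hp) (cop_apply_ne b p.1 p.2 hne)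
      have h2 : (Finsupp.single w 1 : Wd (Lt I)) ∈
          LenD (Lt.deg dg) w.length (w.map (Lt.deg dg)).sum :=
        Finsupp.single_mem_supported _ _ ⟨rfl, rfl⟩
      have h3 := A503_cons_LenD p.1 (A503_cons_LenD p.2 h2)
      rw [List.map_cons, List.sum_cons, List.length_cons, ← A503_deg_add dg b p.1 p.2 h1,
        Nat.add_assoc (Lt.deg dg p.1)]
      exact h3
    · rw [List.map_cons, List.sum_cons, List.length_cons]
      exact A503_cons_LenD b ih

theorem Dw_LenD {dg : I → ℕ} {q k : ℕ} {x : Wd (Lt I)} (hx : x ∈ LenD (Lt.deg dg) q k) :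
    Dw x ∈ LenD (Lt.deg dg) (q + 1) k := by
  refine A503_wext_mem _ _ fun w hw => ?_
  obtain ⟨h1, h3⟩ := (Finsupp.mem_supported _ _).1 hx hw
  have h2 := A503_DwW_LenD dg w
  rwa [h1, h3] at h2

theorem Dw_prk (dg : I → ℕ) (k : ℕ) (x : Wd (Lt I)) :
    Dw (prk (Lt.deg dg) k x) = prk (Lt.deg dg) k (Dw x) := by
  have h : Dw.comp (prk (Lt.deg dg) k) = (prk (Lt.deg dg) k).comp Dw := by
    apply A503_ext
    intro w
    rw [LinearMap.comp_apply, LinearMap.comp_apply]
    have h1 : (Finsupp.single w 1 : Wd (Lt I)) ∈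
        LenD (Lt.deg dg) w.length (w.map (Lt.deg dg)).sum :=
      Finsupp.single_mem_supported _ _ ⟨rfl, rfl⟩
    have h2 := Dw_LenD h1
    by_cases hk : (w.map (Lt.deg dg)).sum = k
    · rw [hk] at h1 h2
      rw [prk_eq h1, prk_eq h2]
    · rw [A503_prk_zero hk h1, A503_prk_zero hk h2, map_zero]
  exact DFunLike.congr_fun h x

private theorem A503_lc2_one (p : Lt I × Lt I) (x : Wd (Lt I)) :
    lc2 (Finsupp.single p 1) x = lc (Finsupp.single p.1 1) (lc (Finsupp.single p.2 1) x) :=
  lc2_single p.1 p.2 x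

/-- the word `u v w` in front of `x`, zero if one of them is zero -/
private noncomputable def A503_g (x : Wd (Lt I)) (u v w : I →₀ ℕ) : Wd (Lt I) := by
  classical
  exact if h : u ≠ 0 ∧ v ≠ 0 ∧ w ≠ 0 then
    lc (Finsupp.single (⟨u, h.1⟩ : Lt I) 1) (lc (Finsupp.single (⟨v, h.2.1⟩ : Lt I) 1)
      (lc (Finsupp.single (⟨w, h.2.2⟩ : Lt I) 1) x)) else 0

private theorem A503_T1 (b : Lt I) (x : Wd (Lt I)) : (by
      classical
      exact ∑ p ∈ Finset.HasAntidiagonal.antidiagonal b.1, if h : p.1 ≠ 0 ∧ p.2 ≠ 0 then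
        lc2 (Lt.cop (⟨p.1, h.1⟩ : Lt I)) (lc (Finsupp.single (⟨p.2, h.2⟩ : Lt I) 1) x) else 0) =
    (by
      classical
      exact ∑ p ∈ Finset.HasAntidiagonal.antidiagonal b.1,
        ∑ q ∈ Finset.HasAntidiagonal.antidiagonal p.1, A503_g x q.1 q.2 p.2) := by
  classical
  refine Finset.sum_congr rfl fun p _ => ?_
  by_cases h : p.1 ≠ 0 ∧ p.2 ≠ 0
  · rw [dif_pos h]
    have h1 := A503_map_cop (⟨p.1, h.1⟩ : Lt I)
      ((LinearMap.flip lc2) (lc (Finsupp.single (⟨p.2, h.2⟩ : Lt I) 1) x))
    rw [LinearMap.flip_apply] at h1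
    rw [h1]
    refine Finset.sum_congr rfl fun q _ => ?_
    unfold A503_g
    by_cases h2 : q.1 ≠ 0 ∧ q.2 ≠ 0
    · rw [dif_pos h2, dif_pos ⟨h2.1, h2.2, h.2⟩, LinearMap.flip_apply, A503_lc2_one]
    · rw [dif_neg h2, dif_neg fun h3 => h2 ⟨h3.1, h3.2.1⟩]
  · rw [dif_neg h]
    symm
    apply Finset.sum_eq_zero
    intro q hq
    unfold A503_g
    rw [dif_neg]
    rintro ⟨h1, h2, h3⟩
    apply h
    refine ⟨?_, h3⟩
    intro h4
    rw [h4, Finset.HasAntidiagonal.mem_antidiagonal, add_eq_zero] at hq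
    exact h1 hq.1

private theorem A503_T2 (b : Lt I) (x : Wd (Lt I)) : (by
      classical
      exact ∑ p ∈ Finset.HasAntidiagonal.antidiagonal b.1, if h : p.1 ≠ 0 ∧ p.2 ≠ 0 then
        lc (Finsupp.single (⟨p.1, h.1⟩ : Lt I) 1) (lc2 (Lt.cop (⟨p.2, h.2⟩ : Lt I)) x) else 0) =
    (by
      classical
      exact ∑ p ∈ Finset.HasAntidiagonal.antidiagonal b.1,
        ∑ q ∈ Finset.HasAntidiagonal.antidiagonal p.2, A503_g x p.1 q.1 q.2) := by
  classical
  refine Finset.sum_congr rfl fun p _ => ?_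
  by_cases h : p.1 ≠ 0 ∧ p.2 ≠ 0
  · rw [dif_pos h]
    have h1 := A503_map_cop (⟨p.2, h.2⟩ : Lt I)
      ((lc (Finsupp.single (⟨p.1, h.1⟩ : Lt I) 1)).comp ((LinearMap.flip lc2) x))
    rw [LinearMap.comp_apply, LinearMap.flip_apply] at h1
    rw [h1]
    refine Finset.sum_congr rfl fun q _ => ?_
    unfold A503_g
    by_cases h2 : q.1 ≠ 0 ∧ q.2 ≠ 0
    · rw [dif_pos h2, dif_pos ⟨h.1, h2.1, h2.2⟩, LinearMap.comp_apply, LinearMap.flip_apply,
        A503_lc2_one]
    · rw [dif_neg h2, dif_neg fun h3 => h2 ⟨h3.2.1, h3.2.2⟩]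
  · rw [dif_neg h]
    symm
    apply Finset.sum_eq_zero
    intro q hq
    unfold A503_g
    rw [dif_neg]
    rintro ⟨h1, h2, h3⟩
    apply h
    refine ⟨h1, ?_⟩
    intro h4
    rw [h4, Finset.HasAntidiagonal.mem_antidiagonal, add_eq_zero] at hq
    exact h2 hq.1

/-- coassociativity -/
private theorem A503_coassoc {M : Type} [AddCommMonoid M] (e : I →₀ ℕ)
    (g : (I →₀ ℕ) → (I →₀ ℕ) → (I →₀ ℕ) → M) : (by
      classical
      exact ∑ p ∈ Finset.HasAntidiagonal.antidiagonal e,
        ∑ q ∈ Finset.HasAntidiagonal.antidiagonal p.1, g q.1 q.2 p.2) =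
    (by
      classical
      exact ∑ p ∈ Finset.HasAntidiagonal.antidiagonal e,
        ∑ q ∈ Finset.HasAntidiagonal.antidiagonal p.2, g p.1 q.1 q.2) := by
  classical
  rw [Finset.sum_sigma', Finset.sum_sigma']
  refine Finset.sum_nbij' (fun s => ⟨(s.2.1, s.2.2 + s.1.2), (s.2.2, s.1.2)⟩)
    (fun s => ⟨(s.1.1 + s.2.1, s.2.2), (s.1.1, s.2.1)⟩) ?_ ?_ ?_ ?_ ?_
  · rintro ⟨⟨p1, p2⟩, ⟨q1, q2⟩⟩ h
    simp only [Finset.mem_sigma, Finset.HasAntidiagonal.mem_antidiagonal] at h ⊢
    refine ⟨?_, trivial⟩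
    rw [← add_assoc, h.2, h.1]
  · rintro ⟨⟨p1, p2⟩, ⟨q1, q2⟩⟩ h
    simp only [Finset.mem_sigma, Finset.HasAntidiagonal.mem_antidiagonal] at h ⊢
    refine ⟨?_, trivial⟩
    rw [add_assoc, h.2, h.1]
  · rintro ⟨⟨p1, p2⟩, ⟨q1, q2⟩⟩ h
    simp only [Finset.mem_sigma, Finset.HasAntidiagonal.mem_antidiagonal] at h ⊢
    rw [h.2]
  · rintro ⟨⟨p1, p2⟩, ⟨q1, q2⟩⟩ h
    simp only [Finset.mem_sigma, Finset.HasAntidiagonal.mem_antidiagonal] at h ⊢
    rw [h.2]
  · rintro ⟨⟨p1, p2⟩, ⟨q1, q2⟩⟩ h
    rfl

private theorem A503_add_self {M : Type} [AddCommGroup M] [Module (ZMod 2) M] (x : M) :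
    x + x = 0 := by
  have h : (2 : ZMod 2) • x = x + x := two_smul (ZMod 2) x
  rw [← h, show (2 : ZMod 2) = 0 from rfl, zero_smul]

/-- `Dw (lc2 (cop b) x) = lc2 (cop b) (Dw x)` -/
private theorem A503_Dw_lc2 (b : Lt I) (x : Wd (Lt I)) :
    Dw (lc2 b.cop x) = lc2 b.cop (Dw x) := by
  classical
  have h1 := A503_map_cop b (Dw.comp ((LinearMap.flip lc2) x))
  have h2 := A503_map_cop b ((LinearMap.flip lc2) (Dw x))
  rw [LinearMap.comp_apply, LinearMap.flip_apply] at h1
  rw [LinearMap.flip_apply] at h2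
  rw [h1, h2]
  have h3 : ∀ p ∈ Finset.HasAntidiagonal.antidiagonal b.1,
      (if h : p.1 ≠ 0 ∧ p.2 ≠ 0 then (Dw.comp ((LinearMap.flip lc2) x))
        (Finsupp.single ((⟨p.1, h.1⟩ : Lt I), (⟨p.2, h.2⟩ : Lt I)) 1) else 0) =
      ((if h : p.1 ≠ 0 ∧ p.2 ≠ 0 then
        lc2 (Lt.cop (⟨p.1, h.1⟩ : Lt I)) (lc (Finsupp.single (⟨p.2, h.2⟩ : Lt I) 1) x) else 0) +
      (if h : p.1 ≠ 0 ∧ p.2 ≠ 0 then
        lc (Finsupp.single (⟨p.1, h.1⟩ : Lt I) 1) (lc2 (Lt.cop (⟨p.2, h.2⟩ : Lt I)) x) else 0)) +
      (if h : p.1 ≠ 0 ∧ p.2 ≠ 0 then ((LinearMap.flip lc2) (Dw x))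
        (Finsupp.single ((⟨p.1, h.1⟩ : Lt I), (⟨p.2, h.2⟩ : Lt I)) 1) else 0) := by
    intro p _
    by_cases h : p.1 ≠ 0 ∧ p.2 ≠ 0
    · rw [dif_pos h, dif_pos h, dif_pos h, dif_pos h, LinearMap.comp_apply, LinearMap.flip_apply,
        LinearMap.flip_apply, A503_lc2_one, A503_lc2_one, Dw_lc, Dw_lc, A503_copL_single,
        A503_copL_single, map_add, ← add_assoc]
    · rw [dif_neg h, dif_neg h, dif_neg h, dif_neg h, add_zero, add_zero]
  rw [Finset.sum_congr rfl h3, Finset.sum_add_distrib, Finset.sum_add_distrib, A503_T1 b x,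
    A503_T2 b x, A503_coassoc b.1 (A503_g x), A503_add_self, zero_add]

theorem Dw_Dw (x : Wd (Lt I)) : Dw (Dw x) = 0 := by
  have h : (Dw : Wd (Lt I) →ₗ[ZMod 2] Wd (Lt I)).comp Dw = 0 := by
    apply A503_ext
    intro w
    rw [LinearMap.comp_apply, LinearMap.zero_apply]
    induction w with
    | nil => rw [Dw_nil, map_zero]
    | cons b w ih =>
      rw [← lc_single, Dw_lc, map_add, Dw_lc, A503_copL_single, A503_Dw_lc2, ih, map_zero,
        add_zero, A503_add_self]
  exact DFunLike.congr_fun h x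

/-- the tensor square of two vectors acts as the product -/
private theorem A503_lc2_tensor {B : Type} (u v : B →₀ ZMod 2) (y : Wd B) :
    lc2 (u.sum fun a r => v.sum fun b r' => Finsupp.single (a, b) (r * r')) y = lc u (lc v y) := by
  have h1 : ∀ (a b : B) (r : ZMod 2), lc2 (Finsupp.single (a, b) r) y =
      r • lc (Finsupp.single a 1) (lc (Finsupp.single b 1) y) := by
    intro a b r
    rw [← lc2_single]
    have h2 : (Finsupp.single (a, b) r : B × B →₀ ZMod 2) = r • Finsupp.single (a, b) 1 := by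
      rw [Finsupp.smul_single, smul_eq_mul, mul_one]
    rw [h2, map_smul, LinearMap.smul_apply]
  rw [A503_lc_apply u (lc v y)]
  simp only [Finsupp.sum, map_sum, LinearMap.sum_apply, h1]
  refine Finset.sum_congr rfl fun a _ => ?_
  rw [A503_lc_apply v y]
  simp only [Finsupp.sum, map_sum, map_smul, Finset.smul_sum, smul_smul]

private theorem A503_wmap_lc2 {B B' : Type} (f : (B →₀ ZMod 2) →ₗ[ZMod 2] (B' →₀ ZMod 2))
    (c : B × B →₀ ZMod 2) (x : Wd B) : wmap f (lc2 c x) = lc2 (sqm f c) (wmap f x) := by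
  have h : (wmap f).comp ((LinearMap.flip lc2) x) =
      ((LinearMap.flip lc2) (wmap f x)).comp (sqm f) := by
    apply Finsupp.lhom_ext'
    intro p
    apply LinearMap.ext_ring
    show wmap f (lc2 (Finsupp.single p 1) x) = lc2 (sqm f (Finsupp.single p 1)) (wmap f x)
    have h1 : sqm f (Finsupp.single p 1) =
        (f (Finsupp.single p.1 1)).sum fun a r => (f (Finsupp.single p.2 1)).sum fun b r' =>
          Finsupp.single (a, b) (r * r') := by
      rw [sqm, Finsupp.linearCombination_single, one_smul]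
    rw [h1, A503_lc2_tensor, ← wmap_lc, ← wmap_lc]
    exact congrArg (wmap f) (lc2_single p.1 p.2 x)
  exact DFunLike.congr_fun h c

theorem Dw_wmap {f : (Lt I →₀ ZMod 2) →ₗ[ZMod 2] (Lt I' →₀ ZMod 2)} (hf : CoMap f) (x : Wd (Lt I)) :
    Dw (wmap f x) = wmap f (Dw x) := by
  have h : Dw.comp (wmap f) = (wmap f).comp Dw := by
    apply A503_ext
    intro w
    rw [LinearMap.comp_apply, LinearMap.comp_apply]
    induction w with
    | nil => rw [wmap_nil, Dw_nil, Dw_nil, map_zero]
    | cons b w ih =>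
      rw [← lc_single, wmap_lc, Dw_lc, Dw_lc, map_add, wmap_lc, ih, A503_wmap_lc2, hf b,
        A503_copL_single]
  exact DFunLike.congr_fun h x

end MM

end

/-! ### from `Lib_MP_33f7bb_d.A504` -/

section

/-!
# A5-04: primitive letters

`copL_em`: `cop (ε_i) = 0` (`single i 1 = a + b` with `a, b ≠ 0` is impossible).
`em_pr`: let `copL x = 0`.  The coefficient of `(a, b)` in `copL x` is `x (a + b)` (`cop_apply_eq/ne`; `a + b ≠ 0`).  If `x e ≠ 0` and `e` is
not some `ε_i`, then `e = a + b` with `a = single i 1`, `b = e - a ≠ 0` for some `i` in the support of `e`: contradiction.  So `x` is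
supported on the range of `eps`.
`CoMap.em`: `copL (f (em x)) = sqm f (copL (em x)) = 0` (linearity), apply `em_pr`.
`pmap_comp`: from `CoMap.em` and `pr (em y) = y`.
`CoB.pRel`: apply `pr ∘ _ ∘ em` to the identities of `X.rel` (`pmap_comp`-like: `pcd (pcf x) = pr (cd (em (pr (cf (em x))))) = pr (cd (cf
(em x)))` by `CoMap.em`).
`wmap_emW`: on words by induction, `emW (lc y x) = lc (em y) (emW x)`.
`Dw_emW`: on words by induction (`Dw_lc`, `copL_em`).
`Dw_eq_zero_one`: `x = lc y [] `, `Dw x = lc2 (copL y) []`, so `copL y = 0`, `y = em (pr y)`.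
-/

namespace MM

variable {I I' I'' : Type}

/-! auxiliary lemmas -/

private theorem a504_em_single (i : I) (c : ZMod 2) :
    Lt.em (Finsupp.single i c) = Finsupp.single (Lt.eps i) c :=
  Finsupp.mapDomain_single

private theorem a504_em_apply (x : I →₀ ZMod 2) (i : I) : (Lt.em x) (Lt.eps i) = x i :=
  Finsupp.mapDomain_apply Lt.eps_injective x i

private theorem a504_pr_apply (y : Lt I →₀ ZMod 2) (i : I) : (Lt.pr y) i = y (Lt.eps i) := rfl

private theorem a504_copL_single (e : Lt I) (c : ZMod 2) :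
    Lt.copL (Finsupp.single e c) = c • e.cop :=
  Finsupp.linearCombination_single _ _ _

private theorem a504_split (i : I) (a b : I →₀ ℕ) (ha : a ≠ 0) (hb : b ≠ 0) :
    a + b ≠ Finsupp.single i 1 := by
  classical
  intro h
  have key : ∀ c : I →₀ ℕ, c ≠ 0 → (∀ j, c j ≤ (Finsupp.single i 1 : I →₀ ℕ) j) → 1 ≤ c i := by
    intro c hc hle
    obtain ⟨j, hj⟩ := Finsupp.ne_iff.1 hc
    rw [Finsupp.zero_apply] at hj
    have h1 := hle j
    by_cases hij : i = j
    · subst hij
      omega
    · rw [Finsupp.single_eq_of_ne (Ne.symm hij)] at h1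
      omega
  have hadd : ∀ j, a j + b j = (Finsupp.single i 1 : I →₀ ℕ) j := fun j => by
    rw [← h]; rfl
  have h1 := key a ha fun j => by have := hadd j; omega
  have h2 := key b hb fun j => by have := hadd j; omega
  have h3 := hadd i
  rw [Finsupp.single_eq_same] at h3
  omega

private theorem a504_cop_eps (i : I) : (Lt.eps i).cop = 0 := by
  ext p
  obtain ⟨a, b⟩ := p
  exact cop_apply_ne (Lt.eps i) a b (a504_split i a.1 b.1 a.2 b.2)

private theorem a504_lc_nil (B : Type) (y : B →₀ ZMod 2) :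
    lc y (Finsupp.single [] 1) = Finsupp.mapDomain (fun b => [b]) y := by
  induction y using Finsupp.induction_linear with
  | zero => simp
  | add f g hf hg => rw [map_add, LinearMap.add_apply, hf, hg, Finsupp.mapDomain_add]
  | single b c =>
    have h1 : (Finsupp.single b c : B →₀ ZMod 2) = c • Finsupp.single b 1 := by simp
    rw [h1, map_smul, LinearMap.smul_apply, lc_single, Finsupp.mapDomain_smul,
      Finsupp.mapDomain_single]

private theorem a504_lc2_nil (B : Type) (y : B × B →₀ ZMod 2) :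
    lc2 y (Finsupp.single [] 1) = Finsupp.mapDomain (fun p : B × B => [p.1, p.2]) y := by
  induction y using Finsupp.induction_linear with
  | zero => simp
  | add f g hf hg => rw [map_add, LinearMap.add_apply, hf, hg, Finsupp.mapDomain_add]
  | single p c =>
    obtain ⟨a, b⟩ := p
    have h1 : (Finsupp.single (a, b) c : B × B →₀ ZMod 2) = c • Finsupp.single (a, b) 1 := by simp
    rw [h1, map_smul, LinearMap.smul_apply, lc2_single, lc_single, lc_single,
      Finsupp.mapDomain_smul, Finsupp.mapDomain_single]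

private theorem a504_nil : emW (Finsupp.single ([] : List I) 1) = Finsupp.single [] 1 :=
  Finsupp.mapDomain_single

private theorem a504_wd_ind {B : Type} {M : Type} [AddCommGroup M] [Module (ZMod 2) M]
    (f g : Wd B →ₗ[ZMod 2] M) (h : ∀ w : List B, f (Finsupp.single w 1) = g (Finsupp.single w 1))
    (x : Wd B) : f x = g x := by
  have : f = g := Finsupp.lhom_ext' fun w => LinearMap.ext_ring (h w)
  rw [this]

theorem pr_em (x : I →₀ ZMod 2) : Lt.pr (Lt.em x) = x := by
  ext i
  rw [a504_pr_apply, a504_em_apply]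

theorem copL_em (x : I →₀ ZMod 2) : Lt.copL (Lt.em x) = 0 := by
  induction x using Finsupp.induction_linear with
  | zero => rw [map_zero, map_zero]
  | add f g hf hg => rw [map_add, map_add, hf, hg, add_zero]
  | single i c => rw [a504_em_single, a504_copL_single, a504_cop_eps, smul_zero]

private theorem a504_copL_apply (x : Lt I →₀ ZMod 2) (a b : Lt I) (h : a.1 + b.1 ≠ 0) :
    Lt.copL x (a, b) = x ⟨a.1 + b.1, h⟩ := by
  classical
  induction x using Finsupp.induction_linear with
  | zero => rw [map_zero]; rfl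
  | add f g hf hg => rw [map_add, Finsupp.add_apply, hf, hg, Finsupp.add_apply]
  | single e c =>
    rw [a504_copL_single, Finsupp.smul_apply]
    by_cases he : a.1 + b.1 = e.1
    · rw [cop_apply_eq e a b he]
      have h1 : e = ⟨a.1 + b.1, h⟩ := Subtype.ext he.symm
      rw [← h1, Finsupp.single_eq_same, smul_eq_mul, mul_one]
    · rw [cop_apply_ne e a b he, Finsupp.single_eq_of_ne, smul_zero]
      intro h1
      exact he (congrArg Subtype.val h1)

theorem em_pr {x : Lt I →₀ ZMod 2} (h : Lt.copL x = 0) : Lt.em (Lt.pr x) = x := by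
  classical
  refine Finsupp.mapDomain_comapDomain Lt.eps Lt.eps_injective x ?_
  intro e he
  have hxe : x e ≠ 0 := Finsupp.mem_support_iff.1 he
  by_contra hr
  obtain ⟨i, hi⟩ := Finsupp.ne_iff.1 e.2
  rw [Finsupp.zero_apply] at hi
  have hle : Finsupp.single i 1 ≤ e.1 := by
    rw [Finsupp.single_le_iff]
    omega
  have hadd : Finsupp.single i 1 + (e.1 - Finsupp.single i 1) = e.1 := add_tsub_cancel_of_le hle
  have hb : e.1 - Finsupp.single i 1 ≠ 0 := by
    intro h0
    rw [h0, add_zero] at hadd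
    exact hr ⟨i, Subtype.ext hadd⟩
  have h1 := a504_copL_apply x (Lt.eps i) ⟨e.1 - Finsupp.single i 1, hb⟩ (by
    show Finsupp.single i 1 + (e.1 - Finsupp.single i 1) ≠ 0
    rw [hadd]; exact e.2)
  rw [h, Finsupp.zero_apply] at h1
  have h2 : (⟨(Lt.eps i).1 + (e.1 - Finsupp.single i 1), by
    show Finsupp.single i 1 + (e.1 - Finsupp.single i 1) ≠ 0
    rw [hadd]; exact e.2⟩ : Lt I) = e := Subtype.ext hadd
  rw [h2] at h1
  exact hxe h1.symm

private theorem a504_copL_map {f : (Lt I →₀ ZMod 2) →ₗ[ZMod 2] (Lt I' →₀ ZMod 2)} (hf : CoMap f)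
    (y : Lt I →₀ ZMod 2) : Lt.copL (f y) = sqm f (Lt.copL y) := by
  induction y using Finsupp.induction_linear with
  | zero => simp only [map_zero]
  | add a b ha hb => simp only [map_add, ha, hb]
  | single e c =>
    have h1 : (Finsupp.single e c : Lt I →₀ ZMod 2) = c • Finsupp.single e 1 := by simp
    rw [h1, map_smul, map_smul, map_smul, map_smul, hf e, a504_copL_single, one_smul]

theorem CoMap.em {f : (Lt I →₀ ZMod 2) →ₗ[ZMod 2] (Lt I' →₀ ZMod 2)} (hf : CoMap f)
    (x : I →₀ ZMod 2) : f (Lt.em x) = Lt.em (pmap f x) := by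
  have h1 : Lt.copL (f (Lt.em x)) = 0 := by
    rw [a504_copL_map hf, copL_em, map_zero]
  exact (em_pr h1).symm

private theorem a504_deg_eps (dg : I → ℕ) (i : I) : Lt.deg dg (Lt.eps i) = dg i := by
  show (Finsupp.single i 1 : I →₀ ℕ).sum (fun i n => n * dg i) = dg i
  rw [Finsupp.sum_single_index (by simp), one_mul]

theorem pmap_deg {dg : I → ℕ} {dg' : I' → ℕ} {f : (Lt I →₀ ZMod 2) →ₗ[ZMod 2] (Lt I' →₀ ZMod 2)}
    (hf : DegPres (Lt.deg dg) (Lt.deg dg') f) : DegPres dg dg' (pmap f) := by
  intro i i' hi'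
  have h1 : (pmap f (Finsupp.single i 1)) i' ≠ 0 := Finsupp.mem_support_iff.1 hi'
  have h2 : (pmap f (Finsupp.single i 1)) i' = f (Finsupp.single (Lt.eps i) 1) (Lt.eps i') := by
    show (Lt.pr (f (Lt.em (Finsupp.single i 1)))) i' = _
    rw [a504_pr_apply, a504_em_single]
  rw [h2] at h1
  have h3 := hf (Lt.eps i) (Lt.eps i') (Finsupp.mem_support_iff.2 h1)
  rwa [a504_deg_eps, a504_deg_eps] at h3

theorem emW_lc (y : I →₀ ZMod 2) (x : Wd I) : emW (lc y x) = lc (Lt.em y) (emW x) := by
  induction y using Finsupp.induction_linear with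
  | zero => simp only [map_zero, LinearMap.zero_apply]
  | add a b ha hb => simp only [map_add, LinearMap.add_apply, ha, hb]
  | single i c =>
    have h1 : (Finsupp.single i c : I →₀ ZMod 2) = c • Finsupp.single i 1 := by simp
    rw [h1]
    simp only [map_smul, LinearMap.smul_apply]
    congr 1
    refine a504_wd_ind (emW.comp (lc (Finsupp.single i 1)))
      ((lc (Lt.em (Finsupp.single i 1))).comp emW) (fun w => ?_) x
    show emW (lc (Finsupp.single i 1) (Finsupp.single w 1)) =
      lc (Lt.em (Finsupp.single i 1)) (emW (Finsupp.single w 1))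
    rw [lc_single, a504_em_single]
    have h2 : ∀ v : List I, emW (Finsupp.single v 1) = Finsupp.single (v.map Lt.eps) 1 :=
      fun v => Finsupp.mapDomain_single
    rw [h2, h2, lc_single]
    rfl

theorem wmap_emW {f : (Lt I →₀ ZMod 2) →ₗ[ZMod 2] (Lt I' →₀ ZMod 2)} (hf : CoMap f) (x : Wd I) :
    wmap f (emW x) = emW (wmap (pmap f) x) := by
  refine a504_wd_ind ((wmap f).comp emW) (emW.comp (wmap (pmap f))) (fun w => ?_) x
  show wmap f (emW (Finsupp.single w 1)) = emW (wmap (pmap f) (Finsupp.single w 1))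
  induction w with
  | nil => rw [a504_nil, wmap_nil, wmap_nil, a504_nil]
  | cons i w ih =>
    rw [← lc_single, emW_lc, wmap_lc, wmap_lc, emW_lc, ih, hf.em]

theorem Dw_emW (x : Wd I) : Dw (emW x) = 0 := by
  refine a504_wd_ind (Dw.comp emW) 0 (fun w => ?_) x
  show Dw (emW (Finsupp.single w 1)) = 0
  induction w with
  | nil => rw [a504_nil, Dw_nil]
  | cons i w ih =>
    rw [← lc_single, emW_lc, Dw_lc, ih, copL_em, map_zero, map_zero, LinearMap.zero_apply,
      add_zero]

theorem emW_Len {q : ℕ} {x : Wd I} (hx : x ∈ Len I q) : emW x ∈ Len (Lt I) q := by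
  classical
  rw [Len, Finsupp.mem_supported] at hx ⊢
  intro y hy
  obtain ⟨w, hw, rfl⟩ := Finset.mem_image.1 (Finsupp.mapDomain_support hy)
  have h1 : w.length = q := hx hw
  show (w.map Lt.eps).length = q
  rw [List.length_map, h1]

private theorem a504_sum_deg (dg : I → ℕ) (w : List I) :
    ((w.map Lt.eps).map (Lt.deg dg)).sum = (w.map dg).sum := by
  rw [List.map_map]
  congr 1
  apply List.map_congr_left
  intro i _
  exact a504_deg_eps dg i

theorem emW_LenD {dg : I → ℕ} {q k : ℕ} {x : Wd I} (hx : x ∈ LenD dg q k) :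
    emW x ∈ LenD (Lt.deg dg) q k := by
  classical
  rw [LenD, Finsupp.mem_supported] at hx ⊢
  intro y hy
  obtain ⟨w, hw, rfl⟩ := Finset.mem_image.1 (Finsupp.mapDomain_support hy)
  have h1 : w.length = q ∧ (w.map dg).sum = k := hx hw
  show (w.map Lt.eps).length = q ∧ ((w.map Lt.eps).map (Lt.deg dg)).sum = k
  rw [List.length_map, a504_sum_deg]
  exact h1

theorem emW_prk (dg : I → ℕ) (k : ℕ) (x : Wd I) :
    emW (prk dg k x) = prk (Lt.deg dg) k (emW x) := by
  refine a504_wd_ind (emW.comp (prk dg k)) ((prk (Lt.deg dg) k).comp emW) (fun w => ?_) x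
  show emW ((Finsupp.single w 1 : Wd I).filter (fun w => (w.map dg).sum = k)) =
    (emW (Finsupp.single w 1)).filter (fun w => (w.map (Lt.deg dg)).sum = k)
  have h2 : emW (Finsupp.single w 1) = Finsupp.single (w.map Lt.eps) 1 :=
    Finsupp.mapDomain_single
  rw [h2]
  by_cases hw : (w.map dg).sum = k
  · have hw2 : ((w.map Lt.eps).map (Lt.deg dg)).sum = k := by rw [a504_sum_deg]; exact hw
    rw [Finsupp.filter_single_of_pos (p := fun w : List I => (w.map dg).sum = k) hw,
      Finsupp.filter_single_of_pos (p := fun w : List (Lt I) => (w.map (Lt.deg dg)).sum = k) hw2,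
      h2]
  · have hw2 : ¬ ((w.map Lt.eps).map (Lt.deg dg)).sum = k := by rw [a504_sum_deg]; exact hw
    rw [Finsupp.filter_single_of_neg (p := fun w : List I => (w.map dg).sum = k) hw,
      Finsupp.filter_single_of_neg (p := fun w : List (Lt I) => (w.map (Lt.deg dg)).sum = k) hw2,
      map_zero]

/-- primitive words of length one -/
theorem Dw_eq_zero_one {x : Wd (Lt I)} (hx : x ∈ Len (Lt I) 1) (h : Dw x = 0) :
    ∃ w : I →₀ ZMod 2, x = emW (lc w (Finsupp.single [] 1)) := by
  classical
  have hinj : Function.Injective (fun b : Lt I => [b]) := fun a b hab => List.singleton_injective hab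
  let y : Lt I →₀ ZMod 2 := Finsupp.comapDomain (fun b : Lt I => [b]) x hinj.injOn
  have hy : Finsupp.mapDomain (fun b : Lt I => [b]) y = x := by
    refine Finsupp.mapDomain_comapDomain _ hinj x ?_
    rw [Len, Finsupp.mem_supported] at hx
    intro w hw
    have h1 : w.length = 1 := hx hw
    obtain ⟨b, rfl⟩ := List.length_eq_one_iff.1 h1
    exact ⟨b, rfl⟩
  have hxy : x = lc y (Finsupp.single [] 1) := by rw [a504_lc_nil, hy]
  have h2 : lc2 (Lt.copL y) (Finsupp.single [] 1) = (0 : Wd (Lt I)) := by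
    rw [hxy, Dw_lc, Dw_nil, map_zero, add_zero] at h
    exact h
  rw [a504_lc2_nil] at h2
  have hinj2 : Function.Injective (fun p : Lt I × Lt I => [p.1, p.2]) := by
    rintro ⟨a, b⟩ ⟨a', b'⟩ hab
    simp only [List.cons.injEq, and_true] at hab
    rw [hab.1, hab.2]
  have h3 : Lt.copL y = 0 := Finsupp.mapDomain_injective hinj2 (by
    rw [h2, Finsupp.mapDomain_zero])
  refine ⟨Lt.pr y, ?_⟩
  rw [emW_lc, em_pr h3, a504_nil]
  exact hxy

theorem emW_one_LenD {dg : I → ℕ} {k : ℕ} {z : I →₀ ZMod 2} :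
    emW (lc z (Finsupp.single [] 1)) ∈ LenD (Lt.deg dg) 1 k ↔ ∀ i ∈ z.support, dg i = k := by
  classical
  rw [emW_lc, a504_nil, LenD_one]
  constructor
  · intro h i hi
    have h1 := h (Lt.eps i) (by
      rw [Finsupp.mem_support_iff, a504_em_apply]
      exact Finsupp.mem_support_iff.1 hi)
    rwa [a504_deg_eps] at h1
  · intro h b hb
    obtain ⟨i, hi, rfl⟩ := Finset.mem_image.1 (Finsupp.mapDomain_support hb)
    rw [a504_deg_eps]
    exact h i hi

theorem emW_one_injective : Function.Injective fun z : I →₀ ZMod 2 =>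
    (emW (lc z (Finsupp.single [] 1)) : Wd (Lt I)) := by
  intro z z' h
  have h1 : emW (lc z (Finsupp.single [] 1)) = emW (lc z' (Finsupp.single [] 1)) := h
  rw [emW_lc, emW_lc, a504_nil, a504_lc_nil, a504_lc_nil] at h1
  have hinj : Function.Injective (fun b : Lt I => [b]) := fun a b hab => List.singleton_injective hab
  have h2 := Finsupp.mapDomain_injective hinj h1
  exact Finsupp.mapDomain_injective Lt.eps_injective h2

private theorem a504_pmap_comp {g : (Lt I' →₀ ZMod 2) →ₗ[ZMod 2] (Lt I'' →₀ ZMod 2)}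
    {f : (Lt I →₀ ZMod 2) →ₗ[ZMod 2] (Lt I' →₀ ZMod 2)} (hf : CoMap f) (x : I →₀ ZMod 2) :
    pmap g (pmap f x) = Lt.pr (g (f (Lt.em x))) := by
  show Lt.pr (g (Lt.em (pmap f x))) = _
  rw [← hf.em]

/-- the cosimplicial identities of the primitives -/
theorem CoB.pRel (X : CoB) : CosRel X.pcf X.pcd where
  dd s i j x h h' := by
    show pmap (X.cf (s + 1) (j + 1)) (pmap (X.cf s i) x) =
      pmap (X.cf (s + 1) i) (pmap (X.cf s j) x)
    rw [a504_pmap_comp (X.cf_co s i), a504_pmap_comp (X.cf_co s j), X.rel.dd s i j _ h h']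
  σσ s i j x h h' := by
    show pmap (X.cd s j) (pmap (X.cd (s + 1) i) x) = pmap (X.cd s i) (pmap (X.cd (s + 1) (j + 1)) x)
    rw [a504_pmap_comp (X.cd_co (s + 1) i), a504_pmap_comp (X.cd_co (s + 1) (j + 1)),
      X.rel.σσ s i j _ h h']
  σd_lt s i j x h h' := by
    show pmap (X.cd (s + 1) (j + 1)) (pmap (X.cf (s + 1) i) x) =
      pmap (X.cf s i) (pmap (X.cd s j) x)
    rw [a504_pmap_comp (X.cf_co (s + 1) i), a504_pmap_comp (X.cd_co s j),
      X.rel.σd_lt s i j _ h h']
  σd_eq s j x h := by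
    show pmap (X.cd s j) (pmap (X.cf s j) x) = x
    rw [a504_pmap_comp (X.cf_co s j), X.rel.σd_eq s j _ h, pr_em]
  σd_eq' s j x h := by
    show pmap (X.cd s j) (pmap (X.cf s (j + 1)) x) = x
    rw [a504_pmap_comp (X.cf_co s (j + 1)), X.rel.σd_eq' s j _ h, pr_em]
  σd_gt s i j x h h' := by
    show pmap (X.cd (s + 1) i) (pmap (X.cf (s + 1) (j + 2)) x) =
      pmap (X.cf s (j + 1)) (pmap (X.cd s i) x)
    rw [a504_pmap_comp (X.cf_co (s + 1) (j + 2)), a504_pmap_comp (X.cd_co s i),
      X.rel.σd_gt s i j _ h h']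

end MM

end

/-! ### from `Lib_MP_33f7bb_d.A514` -/

section

/-!
# A5-14: graded vector spaces with bases and maps of the total spaces

`H d` has the basis `b d` indexed by the letters of degree `d`.  `toL d : H d → (L →₀ F)` coordinates, `ofL d : (L →₀ F) → H d` the
combination of the basis elements of degree `d`.  `gm f`: the map of `L →₀ F` induced by a family `f d : H d → H' d`.
-/

namespace MM

/-- bases of a graded vector space, indexed by letters with degrees -/
structure GrB (L : Type) (deg : L → ℕ) (H : ℕ → Type) [∀ d, AddCommGroup (H d)]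
    [∀ d, Module (ZMod 2) (H d)] where
  b : ∀ d, Module.Basis {e : L // deg e = d} (ZMod 2) (H d)

namespace GrB

variable {L L' L'' : Type} {deg : L → ℕ} {deg' : L' → ℕ} {deg'' : L'' → ℕ} {H H' H'' : ℕ → Type}
  [∀ d, AddCommGroup (H d)] [∀ d, Module (ZMod 2) (H d)]
  [∀ d, AddCommGroup (H' d)] [∀ d, Module (ZMod 2) (H' d)]
  [∀ d, AddCommGroup (H'' d)] [∀ d, Module (ZMod 2) (H'' d)]

/-- the basis element of a letter -/
noncomputable def y (β : GrB L deg H) (e : L) : H (deg e) := β.b (deg e) ⟨e, rfl⟩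

/-- coordinates -/
noncomputable def toL (β : GrB L deg H) (d : ℕ) : H d →ₗ[ZMod 2] (L →₀ ZMod 2) :=
  (Finsupp.lmapDomain (ZMod 2) (ZMod 2) Subtype.val).comp (β.b d).repr.toLinearMap

/-- combinations of basis elements of degree `d` -/
noncomputable def ofL (β : GrB L deg H) (d : ℕ) : (L →₀ ZMod 2) →ₗ[ZMod 2] H d :=
  Finsupp.linearCombination (ZMod 2) fun e => if h : deg e = d then β.b d ⟨e, h⟩ else 0

/-- the map of total spaces -/
noncomputable def gm (β : GrB L deg H) (β' : GrB L' deg' H') (f : ∀ d, H d →ₗ[ZMod 2] H' d) :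
    (L →₀ ZMod 2) →ₗ[ZMod 2] (L' →₀ ZMod 2) :=
  Finsupp.linearCombination (ZMod 2) fun e => β'.toL (deg e) (f (deg e) (β.y e))

private theorem toL_apply_A514 (β : GrB L deg H) (d : ℕ) (x : H d) :
    β.toL d x = Finsupp.mapDomain Subtype.val ((β.b d).repr x) := rfl

theorem toL_b (β : GrB L deg H) {d : ℕ} (e : L) (h : deg e = d) :
    β.toL d (β.b d ⟨e, h⟩) = Finsupp.single e 1 := by
  rw [toL_apply_A514, Module.Basis.repr_self, Finsupp.mapDomain_single]

theorem toL_y (β : GrB L deg H) (e : L) : β.toL (deg e) (β.y e) = Finsupp.single e 1 :=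
  β.toL_b e rfl

theorem toL_deg (β : GrB L deg H) {d : ℕ} (x : H d) : ∀ e ∈ (β.toL d x).support, deg e = d := by
  classical
  intro e he
  rw [toL_apply_A514] at he
  obtain ⟨a, -, rfl⟩ := Finset.mem_image.1 (Finsupp.mapDomain_support he)
  exact a.2

theorem ofL_toL (β : GrB L deg H) (d : ℕ) (x : H d) : β.ofL d (β.toL d x) = x := by
  have h : (β.ofL d).comp (β.toL d) = LinearMap.id := by
    refine (β.b d).ext fun e => ?_
    obtain ⟨e, he⟩ := e
    rw [LinearMap.comp_apply, toL_b, LinearMap.id_apply]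
    show Finsupp.linearCombination (ZMod 2)
      (fun e => if h : deg e = d then β.b d ⟨e, h⟩ else 0) (Finsupp.single e 1) = _
    rw [Finsupp.linearCombination_single, one_smul, dif_pos he]
  exact LinearMap.congr_fun h x

private theorem sum_single_A514 {A : Type} (c : A →₀ ZMod 2) :
    ∑ e ∈ c.support, (Finsupp.single e 1 : A →₀ ZMod 2) = c := by
  conv_rhs => rw [← Finsupp.sum_single c]
  rw [Finsupp.sum]
  refine Finset.sum_congr rfl fun e he => ?_
  have h1 : c e = 1 := by
    have h2 : ∀ r : ZMod 2, r ≠ 0 → r = 1 := by decide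
    exact h2 _ (Finsupp.mem_support_iff.1 he)
  rw [h1]

theorem toL_ofL (β : GrB L deg H) {d : ℕ} {c : L →₀ ZMod 2} (h : ∀ e ∈ c.support, deg e = d) :
    β.toL d (β.ofL d c) = c := by
  conv_lhs => rw [← sum_single_A514 c]
  rw [map_sum, map_sum]
  conv_rhs => rw [← sum_single_A514 c]
  refine Finset.sum_congr rfl fun e he => ?_
  have h1 : β.ofL d (Finsupp.single e 1) = β.b d ⟨e, h e he⟩ := by
    show Finsupp.linearCombination (ZMod 2)
      (fun e => if h : deg e = d then β.b d ⟨e, h⟩ else 0) (Finsupp.single e 1) = _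
    rw [Finsupp.linearCombination_single, one_smul, dif_pos (h e he)]
  rw [h1, toL_b]

theorem toL_injective (β : GrB L deg H) (d : ℕ) : Function.Injective (β.toL d) :=
  Function.LeftInverse.injective (β.ofL_toL d)

private theorem gm_single_A514 (β : GrB L deg H) (β' : GrB L' deg' H')
    (f : ∀ d, H d →ₗ[ZMod 2] H' d) (e : L) :
    β.gm β' f (Finsupp.single e 1) = β'.toL (deg e) (f (deg e) (β.y e)) := by
  show Finsupp.linearCombination (ZMod 2)
    (fun e => β'.toL (deg e) (f (deg e) (β.y e))) (Finsupp.single e 1) = _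
  rw [Finsupp.linearCombination_single, one_smul]

theorem gm_toL (β : GrB L deg H) (β' : GrB L' deg' H') (f : ∀ d, H d →ₗ[ZMod 2] H' d) (d : ℕ)
    (x : H d) : β.gm β' f (β.toL d x) = β'.toL d (f d x) := by
  have h : (β.gm β' f).comp (β.toL d) = (β'.toL d).comp (f d) := by
    refine (β.b d).ext fun e => ?_
    obtain ⟨e, rfl⟩ := e
    rw [LinearMap.comp_apply, LinearMap.comp_apply, toL_b, gm_single_A514]
    rfl
  exact LinearMap.congr_fun h x

theorem gm_deg (β : GrB L deg H) (β' : GrB L' deg' H') (f : ∀ d, H d →ₗ[ZMod 2] H' d) :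
    DegPres deg deg' (β.gm β' f) := by
  intro e e' he'
  rw [gm_single_A514] at he'
  exact β'.toL_deg _ e' he'

/-- equality of maps of total spaces can be checked degreewise -/
theorem ext_toL (β : GrB L deg H) {M : Type} [AddCommGroup M] [Module (ZMod 2) M]
    {f g : (L →₀ ZMod 2) →ₗ[ZMod 2] M} (h : ∀ d (x : H d), f (β.toL d x) = g (β.toL d x)) :
    f = g := by
  refine Finsupp.lhom_ext' fun e => LinearMap.ext_ring ?_
  show f (Finsupp.single e 1) = g (Finsupp.single e 1)
  rw [← β.toL_y e]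
  exact h _ _

theorem gm_id (β : GrB L deg H) (f : ∀ d, H d →ₗ[ZMod 2] H d) (h : ∀ d x, f d x = x)
    (c : L →₀ ZMod 2) : β.gm β f c = c := by
  have h1 : β.gm β f = LinearMap.id := β.ext_toL fun d x => by
    rw [gm_toL, h, LinearMap.id_apply]
  rw [h1, LinearMap.id_apply]

theorem gm_comp (β : GrB L deg H) (β' : GrB L' deg' H') (β'' : GrB L'' deg'' H'')
    (f : ∀ d, H d →ₗ[ZMod 2] H' d) (g : ∀ d, H' d →ₗ[ZMod 2] H'' d) (c : L →₀ ZMod 2) :
    β'.gm β'' g (β.gm β' f c) = β.gm β'' (fun d => (g d).comp (f d)) c := by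
  have h1 : (β'.gm β'' g).comp (β.gm β' f) = β.gm β'' (fun d => (g d).comp (f d)) :=
    β.ext_toL fun d x => by
      rw [LinearMap.comp_apply, gm_toL, gm_toL, gm_toL, LinearMap.comp_apply]
  exact LinearMap.congr_fun h1 c

end GrB

end MM

end

/-! ### from `Lib_MP_33f7bb_d.A505` -/

section

/-!
# A5-05: cocycles of the cobar complex are cohomologous to primitive words

`col1`: if `x` is a combination of words of length `q + 1` with `Dw x = 0` then `x = emW p + Dw x'`.

Proof.  Coefficient functions.  `(Dw x) (a :: v) = x ((a + b) :: w) + (Dw x_a) v` for `v = b :: w`, `x_a v = x (a :: v)` (`dfn`).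
Fix `i : I`.  The homotopy `h` is `(h x) w = x (s w)`, where `s` splits `ε_i` off the first letter which contains `i` (if this letter is
not `ε_i`) (`hfn`).  Let `K = 1 + Dw h + h Dw` (`kfn`).  Then `(K f) (a :: v) = 0` if `a i ≠ 0`, except for `[ε_i]` (`kfn_A`), and
if `f` has this property then `(K f) (a :: v) = (K f_a) v` for `a i = 0` (`kfn_B`).  So with `Zp n f` (`f` vanishes on the words where the
first letter containing `i` is in position `< n`, except for the words `u ε_i`), `Zp n f → Zp (n + 1) (K f)`.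
So a cocycle is cohomologous to `x'' + y ε_i` where `x''` and `y` do not contain `i`, both are cocycles, induction on the set of variables.
-/

namespace MM

namespace A505

variable {I : Type}

/-- sum of letters -/
noncomputable def ad (a b : Lt I) : Lt I :=
  ⟨a.1 + b.1, fun h => a.2 (by
    ext k
    have h1 := DFunLike.congr_fun h k
    simp only [Finsupp.add_apply, Finsupp.zero_apply] at h1 ⊢
    omega)⟩

/-- functions on words -/
abbrev Fn (I : Type) := List (Lt I) → ZMod 2

/-- shifted function -/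
def sh (f : Fn I) (a : Lt I) : Fn I := fun v => f (a :: v)

noncomputable def mfn (f : Fn I) (a : Lt I) : Fn I
  | [] => 0
  | b :: w => f (ad a b :: w)

/-- the coefficients of `Dw` -/
noncomputable def dfn : Fn I → Fn I
  | _, [] => 0
  | f, a :: v => mfn f a v + dfn (sh f a) v

open Classical in
/-- the homotopy -/
noncomputable def hfn (i : I) : Fn I → Fn I
  | _, [] => 0
  | f, b :: w => if b.1 i = 0 then hfn i (sh f b) w else
      if h : b.1 - Finsupp.single i 1 = 0 then 0 else
        f (Lt.eps i :: ⟨b.1 - Finsupp.single i 1, h⟩ :: w)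

theorem dfn_nil (f : Fn I) : dfn f [] = 0 := by rw [dfn]

theorem dfn_cons (f : Fn I) (a : Lt I) (v : List (Lt I)) :
    dfn f (a :: v) = mfn f a v + dfn (sh f a) v := by rw [dfn]

theorem hfn_nil (i : I) (f : Fn I) : hfn i f [] = 0 := by rw [hfn]

theorem hfn_zero_of (i : I) (f : Fn I) (b : Lt I) (w : List (Lt I)) (h : b.1 i = 0) :
    hfn i f (b :: w) = hfn i (sh f b) w := by
  rw [hfn, if_pos h]

theorem hfn_eps (i : I) (f : Fn I) (b : Lt I) (w : List (Lt I)) (h : b.1 i ≠ 0)
    (h2 : b.1 - Finsupp.single i 1 = 0) : hfn i f (b :: w) = 0 := by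
  rw [hfn, if_neg h, dif_pos h2]

theorem hfn_ne (i : I) (f : Fn I) (b : Lt I) (w : List (Lt I)) (h : b.1 i ≠ 0)
    (h2 : b.1 - Finsupp.single i 1 ≠ 0) :
    hfn i f (b :: w) = f (Lt.eps i :: ⟨b.1 - Finsupp.single i 1, h2⟩ :: w) := by
  rw [hfn, if_neg h, dif_neg h2]

theorem mfn_add (f g : Fn I) (a : Lt I) : mfn (f + g) a = mfn f a + mfn g a := by
  funext v
  cases v with
  | nil => simp [mfn]
  | cons b w => rfl

theorem sh_add (f g : Fn I) (a : Lt I) : sh (f + g) a = sh f a + sh g a := rfl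

theorem dfn_add (f g : Fn I) (w : List (Lt I)) : dfn (f + g) w = dfn f w + dfn g w := by
  induction w generalizing f g with
  | nil => simp [dfn_nil]
  | cons a v ih =>
    rw [dfn_cons, dfn_cons, dfn_cons, mfn_add, sh_add, ih]
    simp only [Pi.add_apply]
    ring

theorem dfn_zero (w : List (Lt I)) : dfn (0 : Fn I) w = 0 := by
  have := dfn_add (0 : Fn I) 0 w
  rw [add_zero] at this
  exact left_eq_add.1 this

theorem hfn_add (i : I) (f g : Fn I) (w : List (Lt I)) :
    hfn i (f + g) w = hfn i f w + hfn i g w := by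
  induction w generalizing f g with
  | nil => simp [hfn_nil]
  | cons a v ih =>
    by_cases h : a.1 i = 0
    · rw [hfn_zero_of i _ a v h, hfn_zero_of i _ a v h, hfn_zero_of i _ a v h, sh_add, ih]
    · by_cases h2 : a.1 - Finsupp.single i 1 = 0
      · rw [hfn_eps i _ a v h h2, hfn_eps i _ a v h h2, hfn_eps i _ a v h h2, add_zero]
      · rw [hfn_ne i _ a v h h2, hfn_ne i _ a v h h2, hfn_ne i _ a v h h2, Pi.add_apply]

theorem hfn_zero (i : I) (w : List (Lt I)) : hfn i (0 : Fn I) w = 0 := by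
  have := hfn_add i (0 : Fn I) 0 w
  rw [add_zero] at this
  exact left_eq_add.1 this

/-- `K = 1 + Dw h + h Dw` -/
noncomputable def kfn (i : I) (f : Fn I) : Fn I := fun w => f w + dfn (hfn i f) w + hfn i (dfn f) w

theorem sh_dfn (f : Fn I) (a : Lt I) : sh (dfn f) a = mfn f a + dfn (sh f a) := by
  funext v
  exact dfn_cons f a v

theorem sh_hfn (i : I) (f : Fn I) (a : Lt I) (h : a.1 i = 0) : sh (hfn i f) a = hfn i (sh f a) := by
  funext v
  exact hfn_zero_of i f a v h

theorem ad_apply (a b : Lt I) (i : I) : (ad a b).1 i = a.1 i + b.1 i := rfl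

theorem ad_val (a b : Lt I) : (ad a b).1 = a.1 + b.1 := rfl

theorem eps_val (i : I) : (Lt.eps i).1 = Finsupp.single i 1 := rfl

theorem eps_apply (i : I) : (Lt.eps i).1 i = 1 := by rw [eps_val, Finsupp.single_eq_same]

theorem sub_add (i : I) (a : I →₀ ℕ) (h : a i ≠ 0) :
    Finsupp.single i 1 + (a - Finsupp.single i 1) = a := by
  ext k
  by_cases hk : k = i
  · subst hk
    simp only [Finsupp.add_apply, Finsupp.tsub_apply, Finsupp.single_eq_same]
    omega
  · simp [Ne.symm hk]

theorem eq_eps (i : I) (a : Lt I) (h : a.1 i ≠ 0) (h2 : a.1 - Finsupp.single i 1 = 0) :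
    a = Lt.eps i := by
  apply Subtype.ext
  rw [eps_val, ← sub_add i a.1 h, h2, add_zero]

/-- non-exceptional words which begin with a letter containing `i` -/
def Zo (i : I) (f : Fn I) : Prop :=
  ∀ (a : Lt I) (v : List (Lt I)), a.1 i ≠ 0 → ¬ (a = Lt.eps i ∧ v = []) → f (a :: v) = 0

theorem two (x : ZMod 2) : x + x = 0 := CharTwo.add_self_eq_zero x

theorem kfn_A (i : I) (f : Fn I) : Zo i (kfn i f) := by
  intro a v ha hv
  show f (a :: v) + dfn (hfn i f) (a :: v) + hfn i (dfn f) (a :: v) = 0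
  by_cases h2 : a.1 - Finsupp.single i 1 = 0
  · have hae := eq_eps i a ha h2
    cases v with
    | nil => exact absurd ⟨hae, rfl⟩ hv
    | cons b w =>
      have h3 : sh (hfn i f) a = 0 := by
        funext v
        exact hfn_eps i f a v ha h2
      have h4 : (ad a b).1 i ≠ 0 := by rw [ad_apply]; omega
      have h5 : (ad a b).1 - Finsupp.single i 1 = b.1 := by
        rw [ad_val, hae, eps_val]
        ext k
        simp
      have h6 : (ad a b).1 - Finsupp.single i 1 ≠ 0 := by rw [h5]; exact b.2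
      rw [dfn_cons, hfn_eps i _ a _ ha h2, h3, dfn_zero, add_zero, add_zero]
      show f (a :: b :: w) + hfn i f (ad a b :: w) = 0
      rw [hfn_ne i f _ w h4 h6]
      have h7 : (⟨(ad a b).1 - Finsupp.single i 1, h6⟩ : Lt I) = b := Subtype.ext h5
      rw [h7, ← hae]
      exact two _
  · have h3 : sh (hfn i f) a = sh (sh f (Lt.eps i)) ⟨a.1 - Finsupp.single i 1, h2⟩ := by
      funext v
      exact hfn_ne i f a v ha h2
    have h4 : ad (Lt.eps i) ⟨a.1 - Finsupp.single i 1, h2⟩ = a := Subtype.ext (sub_add i a.1 ha)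
    rw [dfn_cons, h3, hfn_ne i _ a v ha h2, dfn_cons, dfn_cons]
    have h5 : mfn f (Lt.eps i) (⟨a.1 - Finsupp.single i 1, h2⟩ :: v) = f (a :: v) := by
      show f (ad (Lt.eps i) ⟨a.1 - Finsupp.single i 1, h2⟩ :: v) = f (a :: v)
      rw [h4]
    rw [h5]
    have h6 : mfn (hfn i f) a v = mfn (sh f (Lt.eps i)) ⟨a.1 - Finsupp.single i 1, h2⟩ v := by
      cases v with
      | nil => rfl
      | cons b w =>
        show hfn i f (ad a b :: w) = f (Lt.eps i :: ad ⟨a.1 - Finsupp.single i 1, h2⟩ b :: w)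
        have h7 : (ad a b).1 i ≠ 0 := by rw [ad_apply]; omega
        have h9 : (ad a b).1 - Finsupp.single i 1 = (ad ⟨a.1 - Finsupp.single i 1, h2⟩ b).1 := by
          rw [ad_val, ad_val]
          ext k
          have h10 := DFunLike.congr_fun (sub_add i a.1 ha) k
          simp only [Finsupp.add_apply, Finsupp.tsub_apply] at h10 ⊢
          omega
        have h8 : (ad a b).1 - Finsupp.single i 1 ≠ 0 := by rw [h9]; exact (ad _ b).2
        rw [hfn_ne i f _ w h7 h8]
        have h11 : (⟨(ad a b).1 - Finsupp.single i 1, h8⟩ : Lt I) =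
            ad ⟨a.1 - Finsupp.single i 1, h2⟩ b := Subtype.ext h9
        rw [h11]
    rw [h6]
    generalize f (a :: v) = A
    generalize mfn (sh f (Lt.eps i)) ⟨a.1 - Finsupp.single i 1, h2⟩ v = B
    generalize dfn (sh (sh f (Lt.eps i)) ⟨a.1 - Finsupp.single i 1, h2⟩) v = C
    have : A + (B + C) + (A + (B + C)) = 0 := two _
    linear_combination this

theorem kfn_B (i : I) (f : Fn I) (hf : Zo i f) (a : Lt I) (ha : a.1 i = 0) :
    sh (kfn i f) a = kfn i (sh f a) := by
  funext v
  show f (a :: v) + dfn (hfn i f) (a :: v) + hfn i (dfn f) (a :: v) =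
    f (a :: v) + dfn (hfn i (sh f a)) v + hfn i (dfn (sh f a)) v
  rw [dfn_cons, sh_hfn i f a ha, hfn_zero_of i _ a v ha, sh_dfn, hfn_add]
  have key : mfn (hfn i f) a v + hfn i (mfn f a) v = 0 := by
    cases v with
    | nil => rw [hfn_nil, add_zero]; rfl
    | cons b w =>
      show hfn i f (ad a b :: w) + hfn i (mfn f a) (b :: w) = 0
      by_cases hb : b.1 i = 0
      · have h1 : (ad a b).1 i = 0 := by rw [ad_apply, ha, hb]
        rw [hfn_zero_of i _ _ w h1, hfn_zero_of i _ b w hb]
        exact two _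
      · have h1 : (ad a b).1 i ≠ 0 := by rw [ad_apply]; omega
        have h2 : hfn i f (ad a b :: w) = 0 := by
          by_cases h3 : (ad a b).1 - Finsupp.single i 1 = 0
          · exact hfn_eps i _ _ w h1 h3
          · rw [hfn_ne i _ _ w h1 h3]
            apply hf
            · rw [eps_apply]; exact one_ne_zero
            · rintro ⟨_, h4⟩
              exact List.cons_ne_nil _ _ h4
        have h5 : hfn i (mfn f a) (b :: w) = 0 := by
          by_cases h3 : b.1 - Finsupp.single i 1 = 0
          · exact hfn_eps i _ _ w hb h3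
          · rw [hfn_ne i _ _ w hb h3]
            show f (ad a (Lt.eps i) :: _ :: w) = 0
            apply hf
            · rw [ad_apply, eps_apply]; omega
            · rintro ⟨_, h4⟩
              exact List.cons_ne_nil _ _ h4
        rw [h2, h5, add_zero]
  linear_combination key

/-- vanishing on the non-exceptional words with the first letter containing `i` in position `< n` -/
def Zp (i : I) : ℕ → Fn I → Prop
  | 0, _ => True
  | n + 1, f => Zo i f ∧ ∀ a : Lt I, a.1 i = 0 → Zp i n (sh f a)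

theorem Zp_kfn (i : I) (n : ℕ) (f : Fn I) (h : Zp i n f) : Zp i (n + 1) (kfn i f) := by
  induction n generalizing f with
  | zero => exact ⟨kfn_A i f, fun _ _ => trivial⟩
  | succ n ih =>
    refine ⟨kfn_A i f, fun a ha => ?_⟩
    rw [kfn_B i f h.1 a ha]
    exact ih _ (h.2 a ha)

/-- sum of the letters -/
noncomputable def tot (w : List (Lt I)) : I →₀ ℕ := (w.map Subtype.val).sum

theorem tot_nil : tot ([] : List (Lt I)) = 0 := rfl

theorem tot_cons (a : Lt I) (w : List (Lt I)) : tot (a :: w) = a.1 + tot w := by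
  simp [tot]

theorem tot_append (v w : List (Lt I)) : tot (v ++ w) = tot v + tot w := by
  simp [tot]

theorem Zp_end (i : I) (n : ℕ) (f : Fn I) (h : Zp i n f) (w : List (Lt I)) (hw : w.length = n)
    (hf : f w ≠ 0) : tot w i = 0 ∨ ∃ u, tot u i = 0 ∧ w = u ++ [Lt.eps i] := by
  induction w generalizing f n with
  | nil => left; rfl
  | cons a v ih =>
    obtain ⟨m, rfl⟩ : ∃ m, n = m + 1 := ⟨v.length, by rw [← hw]; rfl⟩
    by_cases ha : a.1 i = 0
    · rcases ih m (sh f a) (h.2 a ha) (by simpa using hw) hf with h1 | ⟨u, h1, h2⟩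
      · left
        rw [tot_cons, Finsupp.add_apply, ha, h1]
      · right
        refine ⟨a :: u, ?_, ?_⟩
        · rw [tot_cons, Finsupp.add_apply, ha, h1]
        · rw [h2]; rfl
    · by_cases hav : a = Lt.eps i ∧ v = []
      · right
        refine ⟨[], rfl, ?_⟩
        rw [hav.1, hav.2]; rfl
      · exact absurd (h.1 a v ha hav) hf

theorem mfn_supp (f : Fn I) (a : Lt I) (v : List (Lt I)) (h : mfn f a v ≠ 0) :
    ∃ L, f L ≠ 0 ∧ L.length + 1 = (a :: v).length ∧ tot L = tot (a :: v) := by
  cases v with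
  | nil => exact absurd rfl h
  | cons b w =>
    refine ⟨ad a b :: w, h, rfl, ?_⟩
    rw [tot_cons, tot_cons, tot_cons, ad_val, add_assoc]

theorem dfn_supp (f : Fn I) (w : List (Lt I)) (h : dfn f w ≠ 0) :
    ∃ L, f L ≠ 0 ∧ L.length + 1 = w.length ∧ tot L = tot w := by
  induction w generalizing f with
  | nil => exact absurd (dfn_nil f) h
  | cons a v ih =>
    rw [dfn_cons] at h
    by_cases h1 : mfn f a v = 0
    · rw [h1, zero_add] at h
      obtain ⟨L, h2, h3, h4⟩ := ih _ h
      refine ⟨a :: L, h2, ?_, ?_⟩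
      · simp only [List.length_cons]; omega
      · rw [tot_cons, tot_cons, h4]
    · exact mfn_supp f a v h1

/-- merging -/
noncomputable def gm (i : I) : List (Lt I) → List (Lt I)
  | [] => []
  | [b] => [b]
  | b :: c :: w => by
    classical
    exact if b.1 i = 0 then b :: gm i (c :: w) else ad b c :: w

theorem gm_cons (i : I) (b : Lt I) (hb : b.1 i = 0) (w : List (Lt I)) :
    gm i (b :: w) = b :: gm i w := by
  cases w with
  | nil => rfl
  | cons c w => rw [gm, if_pos hb]

theorem hfn_supp (i : I) (f : Fn I) (w : List (Lt I)) (h : hfn i f w ≠ 0) :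
    ∃ L, f L ≠ 0 ∧ gm i L = w ∧ L.length = w.length + 1 ∧ tot L = tot w := by
  induction w generalizing f with
  | nil => exact absurd (hfn_nil i f) h
  | cons a v ih =>
    by_cases ha : a.1 i = 0
    · rw [hfn_zero_of i f a v ha] at h
      obtain ⟨L, h2, h3, h4, h5⟩ := ih _ h
      refine ⟨a :: L, h2, ?_, ?_, ?_⟩
      · rw [gm_cons i a ha, h3]
      · simp only [List.length_cons]; omega
      · rw [tot_cons, tot_cons, h5]
    · by_cases h2 : a.1 - Finsupp.single i 1 = 0
      · exact absurd (hfn_eps i f a v ha h2) h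
      · rw [hfn_ne i f a v ha h2] at h
        refine ⟨_, h, ?_, rfl, ?_⟩
        · have h3 : ¬ ((Lt.eps i).1 i = 0) := by rw [eps_apply]; exact one_ne_zero
          rw [gm, if_neg h3]
          congr 1
          exact Subtype.ext (sub_add i a.1 ha)
        · rw [tot_cons, tot_cons, tot_cons, ← add_assoc]
          congr 1
          exact sub_add i a.1 ha

/-- the homotopy for combinations of words -/
noncomputable def hop (i : I) (x : Wd (Lt I)) : Wd (Lt I) :=
  Finsupp.ofSupportFinite (hfn i x) (by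
    refine Set.Finite.subset (x.support.finite_toSet.image (gm i)) ?_
    intro w hw
    obtain ⟨L, h1, h2, _, _⟩ := hfn_supp i x w hw
    exact ⟨L, by simpa using h1, h2⟩)

theorem hop_apply (i : I) (x : Wd (Lt I)) : (hop i x : Fn I) = hfn i x := rfl

/-! ### the coefficients of `Dw` -/

theorem lc_apply_cons {B : Type} (y : B →₀ ZMod 2) (x : Wd B) (a : B) (v : List B) :
    lc y x (a :: v) = y a * x v := by
  classical
  induction y using Finsupp.induction_linear with
  | zero => simp
  | add f g hf hg =>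
    rw [map_add, LinearMap.add_apply, Finsupp.add_apply, hf, hg, Finsupp.add_apply, add_mul]
  | single b r =>
    rw [lc, Finsupp.linearCombination_single, LinearMap.smul_apply, Finsupp.smul_apply,
      Finsupp.lmapDomain_apply, Finsupp.single_apply, smul_eq_mul]
    by_cases hb : b = a
    · rw [if_pos hb, hb, Finsupp.mapDomain_apply List.cons_injective]
    · rw [if_neg hb, Finsupp.mapDomain_of_notMem_range, mul_zero, zero_mul]
      rintro ⟨u, hu⟩
      exact hb (List.cons_eq_cons.1 hu).1

theorem lc_apply_nil {B : Type} (y : B →₀ ZMod 2) (x : Wd B) : lc y x [] = 0 := by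
  induction y using Finsupp.induction_linear with
  | zero => simp
  | add f g hf hg =>
    rw [map_add, LinearMap.add_apply, Finsupp.add_apply, hf, hg, add_zero]
  | single b r =>
    rw [lc, Finsupp.linearCombination_single, LinearMap.smul_apply, Finsupp.smul_apply,
      Finsupp.lmapDomain_apply, Finsupp.mapDomain_of_notMem_range, smul_zero]
    rintro ⟨u, hu⟩
    exact List.cons_ne_nil _ _ hu

theorem lc2_apply_cons {B : Type} (y : B × B →₀ ZMod 2) (x : Wd B) (a b : B) (v : List B) :
    lc2 y x (a :: b :: v) = y (a, b) * x v := by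
  classical
  induction y using Finsupp.induction_linear with
  | zero => simp
  | add f g hf hg =>
    rw [map_add, LinearMap.add_apply, Finsupp.add_apply, hf, hg, Finsupp.add_apply, add_mul]
  | single p r =>
    rw [lc2, Finsupp.linearCombination_single, LinearMap.smul_apply, Finsupp.smul_apply,
      Finsupp.lmapDomain_apply, Finsupp.single_apply, smul_eq_mul]
    have hinj : Function.Injective (fun w : List B => p.1 :: p.2 :: w) := by
      intro u w h
      exact (List.cons_eq_cons.1 (List.cons_eq_cons.1 h).2).2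
    by_cases hb : p = (a, b)
    · rw [if_pos hb]
      congr 1
      have h1 : (a :: b :: v) = (fun w : List B => p.1 :: p.2 :: w) v := by rw [hb]
      rw [h1, Finsupp.mapDomain_apply hinj]
    · rw [if_neg hb, Finsupp.mapDomain_of_notMem_range, mul_zero, zero_mul]
      rintro ⟨u, hu⟩
      have h1 := List.cons_eq_cons.1 hu
      exact hb (Prod.ext h1.1 (List.cons_eq_cons.1 h1.2).1)

theorem lc2_apply_nil {B : Type} (y : B × B →₀ ZMod 2) (x : Wd B) : lc2 y x [] = 0 := by
  induction y using Finsupp.induction_linear with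
  | zero => simp
  | add f g hf hg =>
    rw [map_add, LinearMap.add_apply, Finsupp.add_apply, hf, hg, add_zero]
  | single b r =>
    rw [lc2, Finsupp.linearCombination_single, LinearMap.smul_apply, Finsupp.smul_apply,
      Finsupp.lmapDomain_apply, Finsupp.mapDomain_of_notMem_range, smul_zero]
    rintro ⟨u, hu⟩
    exact List.cons_ne_nil _ _ hu

theorem lc2_apply_one {B : Type} (y : B × B →₀ ZMod 2) (x : Wd B) (a : B) : lc2 y x [a] = 0 := by
  induction y using Finsupp.induction_linear with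
  | zero => simp
  | add f g hf hg =>
    rw [map_add, LinearMap.add_apply, Finsupp.add_apply, hf, hg, add_zero]
  | single b r =>
    rw [lc2, Finsupp.linearCombination_single, LinearMap.smul_apply, Finsupp.smul_apply,
      Finsupp.lmapDomain_apply, Finsupp.mapDomain_of_notMem_range, smul_zero]
    rintro ⟨u, hu⟩
    exact List.cons_ne_nil _ _ (List.cons_eq_cons.1 hu).2

theorem DwW_apply (L w : List (Lt I)) : DwW L w = dfn (⇑(Finsupp.single L 1 : Wd (Lt I))) w := by
  classical
  induction L generalizing w with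
  | nil =>
    rw [DwW]
    cases w with
    | nil => rw [dfn_nil]; rfl
    | cons a v =>
      have h1 : mfn (⇑(Finsupp.single [] 1 : Wd (Lt I))) a v = 0 := by
        cases v with
        | nil => rfl
        | cons b w =>
          show (Finsupp.single [] 1 : Wd (Lt I)) (ad a b :: w) = 0
          rw [Finsupp.single_apply, if_neg (List.cons_ne_nil _ _).symm]
      have h2 : sh (⇑(Finsupp.single [] 1 : Wd (Lt I))) a = 0 := by
        funext v
        show (Finsupp.single [] 1 : Wd (Lt I)) (a :: v) = 0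
        rw [Finsupp.single_apply, if_neg (List.cons_ne_nil _ _).symm]
      rw [dfn_cons, h1, h2, dfn_zero, add_zero]
      rfl
  | cons c L ih =>
    rw [DwW, Finsupp.add_apply]
    cases w with
    | nil => rw [lc2_apply_nil, lc_apply_nil, dfn_nil, add_zero]
    | cons a v =>
      rw [dfn_cons, lc_apply_cons, ih]
      congr 1
      · cases v with
        | nil => rw [lc2_apply_one]; rfl
        | cons b w =>
          rw [lc2_apply_cons]
          show c.cop (a, b) * (Finsupp.single L 1 : Wd (Lt I)) w =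
            (Finsupp.single (c :: L) 1 : Wd (Lt I)) (ad a b :: w)
          by_cases hc : a.1 + b.1 = c.1
          · have h1 : ad a b = c := Subtype.ext hc
            rw [cop_apply_eq _ _ _ hc, h1, one_mul, Finsupp.single_apply, Finsupp.single_apply]
            simp
          · have h1 : ¬ (c :: L = ad a b :: w) := by
              intro h
              exact hc (Subtype.ext_iff.1 (List.cons_eq_cons.1 h).1).symm
            rw [cop_apply_ne _ _ _ hc, zero_mul, Finsupp.single_apply, if_neg h1]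
      · by_cases hc : c = a
        · subst hc
          have h1 : sh (⇑(Finsupp.single (c :: L) 1 : Wd (Lt I))) c =
              ⇑(Finsupp.single L 1 : Wd (Lt I)) := by
            funext v
            show (Finsupp.single (c :: L) 1 : Wd (Lt I)) (c :: v) = _
            rw [Finsupp.single_apply, Finsupp.single_apply]
            simp
          rw [h1, Finsupp.single_eq_same, one_mul]
        · have h1 : sh (⇑(Finsupp.single (c :: L) 1 : Wd (Lt I))) a = 0 := by
            funext v
            show (Finsupp.single (c :: L) 1 : Wd (Lt I)) (a :: v) = 0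
            rw [Finsupp.single_apply, if_neg]
            intro h
            exact hc (List.cons_eq_cons.1 h).1
          rw [h1, dfn_zero, Finsupp.single_apply, if_neg hc, zero_mul]

theorem Dw_single (L : List (Lt I)) : Dw (Finsupp.single L 1) = DwW L := by
  rw [Dw, Finsupp.linearCombination_single, one_smul]

theorem Dw_apply (x : Wd (Lt I)) : ⇑(Dw x) = dfn ⇑x := by
  funext w
  induction x using Finsupp.induction_linear with
  | zero =>
    rw [map_zero, Finsupp.coe_zero, dfn_zero]
    rfl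
  | add f g hf hg => rw [map_add, Finsupp.add_apply, hf, hg, Finsupp.coe_add, dfn_add]
  | single L r =>
    have hr : r = 0 ∨ r = 1 := by
      revert r
      decide
    rcases hr with rfl | rfl
    · rw [Finsupp.single_zero, map_zero, Finsupp.coe_zero, dfn_zero]
      rfl
    · rw [Dw_single, DwW_apply]

/-! ### right multiplication by a primitive letter -/

/-- right multiplication -/
noncomputable def rm {B : Type} (b : B) : Wd B →ₗ[ZMod 2] Wd B :=
  Finsupp.lmapDomain (ZMod 2) (ZMod 2) (fun u => u ++ [b])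

theorem rm_inj {B : Type} (b : B) : Function.Injective (fun u : List B => u ++ [b]) :=
  List.append_left_injective [b]

theorem rm_injective {B : Type} (b : B) : Function.Injective (rm b) :=
  Finsupp.mapDomain_injective (rm_inj b)

theorem rm_apply {B : Type} (b : B) (x : Wd B) (u : List B) : rm b x (u ++ [b]) = x u :=
  Finsupp.mapDomain_apply (rm_inj b) x u

theorem rm_supp {B : Type} (b : B) (x : Wd B) (w : List B) (h : rm b x w ≠ 0) :
    ∃ u, w = u ++ [b] ∧ x u ≠ 0 := by
  by_cases hw : ∃ u, u ++ [b] = w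
  · obtain ⟨u, rfl⟩ := hw
    rw [rm_apply] at h
    exact ⟨u, rfl, h⟩
  · exact absurd (Finsupp.mapDomain_of_notMem_range x w (by rintro ⟨u, hu⟩; exact hw ⟨u, hu⟩)) h

theorem rm_lc {B : Type} (c : B) (y : B →₀ ZMod 2) (x : Wd B) : rm c (lc y x) = lc y (rm c x) := by
  induction y using Finsupp.induction_linear with
  | zero => simp
  | add f g hf hg => simp only [map_add, LinearMap.add_apply, hf, hg]
  | single b r =>
    rw [lc, Finsupp.linearCombination_single, LinearMap.smul_apply, LinearMap.smul_apply, map_smul]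
    congr 1
    rw [rm, Finsupp.lmapDomain_apply, Finsupp.lmapDomain_apply, Finsupp.lmapDomain_apply,
      Finsupp.lmapDomain_apply, ← Finsupp.mapDomain_comp, ← Finsupp.mapDomain_comp]
    rfl

theorem rm_lc2 {B : Type} (c : B) (y : B × B →₀ ZMod 2) (x : Wd B) :
    rm c (lc2 y x) = lc2 y (rm c x) := by
  induction y using Finsupp.induction_linear with
  | zero => simp
  | add f g hf hg => simp only [map_add, LinearMap.add_apply, hf, hg]
  | single b r =>
    rw [lc2, Finsupp.linearCombination_single, LinearMap.smul_apply, LinearMap.smul_apply, map_smul]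
    congr 1
    rw [rm, Finsupp.lmapDomain_apply, Finsupp.lmapDomain_apply, Finsupp.lmapDomain_apply,
      Finsupp.lmapDomain_apply, ← Finsupp.mapDomain_comp, ← Finsupp.mapDomain_comp]
    rfl

theorem rm_single {B : Type} (c : B) (w : List B) (r : ZMod 2) :
    rm c (Finsupp.single w r) = Finsupp.single (w ++ [c]) r := by
  rw [rm, Finsupp.lmapDomain_apply, Finsupp.mapDomain_single]

theorem cop_eps (i : I) : (Lt.eps i).cop = 0 := by
  have h := copL_em (Finsupp.single i 1 : I →₀ ZMod 2)
  rw [Lt.em, Finsupp.lmapDomain_apply, Finsupp.mapDomain_single, Lt.copL,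
    Finsupp.linearCombination_single, one_smul] at h
  exact h

theorem DwW_rm (i : I) (w : List (Lt I)) : DwW (w ++ [Lt.eps i]) = rm (Lt.eps i) (DwW w) := by
  induction w with
  | nil =>
    show DwW [Lt.eps i] = rm (Lt.eps i) (DwW [])
    simp only [DwW, cop_eps, map_zero, LinearMap.zero_apply, add_zero]
  | cons b w ih =>
    show DwW (b :: (w ++ [Lt.eps i])) = rm (Lt.eps i) (DwW (b :: w))
    rw [DwW, DwW, map_add, rm_lc, rm_lc2, ih, rm_single]

theorem Dw_rm (i : I) (x : Wd (Lt I)) : Dw (rm (Lt.eps i) x) = rm (Lt.eps i) (Dw x) := by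
  have h : (Dw : Wd (Lt I) →ₗ[ZMod 2] Wd (Lt I)).comp (rm (Lt.eps i)) = (rm (Lt.eps i)).comp Dw := by
    apply Finsupp.lhom_ext'
    intro w
    apply LinearMap.ext_ring
    show Dw (rm (Lt.eps i) (Finsupp.single w 1)) = rm (Lt.eps i) (Dw (Finsupp.single w 1))
    rw [rm_single, Dw_single, Dw_single, DwW_rm]
  exact DFunLike.congr_fun h x

theorem emW_rm (i : I) (p : Wd I) : emW (rm i p) = rm (Lt.eps i) (emW p) := by
  rw [emW, rm, rm, Finsupp.lmapDomain_apply, Finsupp.lmapDomain_apply, Finsupp.lmapDomain_apply,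
      Finsupp.lmapDomain_apply, ← Finsupp.mapDomain_comp, ← Finsupp.mapDomain_comp]
  congr 1
  funext u
  simp

theorem iter (i : I) (q : ℕ) (J : Finset I) (x : Wd (Lt I))
    (hx : ∀ w, x w ≠ 0 → w.length = q ∧ (tot w).support ⊆ J) (h : Dw x = 0) (n : ℕ) :
    ∃ z : Wd (Lt I), (∀ w, z w ≠ 0 → w.length + 1 = q ∧ (tot w).support ⊆ J) ∧
      Zp i n (⇑(x + Dw z)) := by
  induction n with
  | zero => exact ⟨0, fun w hw => absurd rfl hw, trivial⟩
  | succ n ih =>
    obtain ⟨z, hz, hZ⟩ := ih
    have hD : Dw (x + Dw z) = 0 := by rw [map_add, h, Dw_Dw, add_zero]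
    refine ⟨z + hop i (x + Dw z), ?_, ?_⟩
    · intro w hw
      by_cases h1 : z w = 0
      · rw [Finsupp.add_apply, h1, zero_add, hop_apply] at hw
        obtain ⟨L, h2, _, h3, h4⟩ := hfn_supp i _ w hw
        have h5 : L.length = q ∧ (tot L).support ⊆ J := by
          by_cases h6 : x L = 0
          · rw [Finsupp.add_apply, h6, zero_add, Dw_apply] at h2
            obtain ⟨M, h7, h8, h9⟩ := dfn_supp _ L h2
            have h10 := hz M h7
            exact ⟨by omega, by rw [← h9]; exact h10.2⟩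
          · exact hx L h6
        exact ⟨by omega, by rw [← h4]; exact h5.2⟩
      · exact hz w h1
    · have h1 : (⇑(x + Dw (z + hop i (x + Dw z))) : Fn I) = kfn i (⇑(x + Dw z)) := by
        funext w
        rw [map_add, ← add_assoc, Finsupp.add_apply, Dw_apply (hop i _), hop_apply]
        show _ = (x + Dw z) w + dfn (hfn i ⇑(x + Dw z)) w + hfn i (dfn ⇑(x + Dw z)) w
        rw [← Dw_apply (x + Dw z), hD, Finsupp.coe_zero, hfn_zero, add_zero]
      rw [h1]
      exact Zp_kfn i n _ hZ

theorem main (J : Finset I) : ∀ (q : ℕ) (x : Wd (Lt I)),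
    (∀ w, x w ≠ 0 → w.length = q ∧ (tot w).support ⊆ J) → Dw x = 0 →
    ∃ (p : Wd I) (x' : Wd (Lt I)), (∀ w, p w ≠ 0 → w.length = q) ∧
      (∀ w, x' w ≠ 0 → w.length + 1 = q) ∧ x = emW p + Dw x' := by
  classical
  have h00 : ∀ x : Wd (Lt I), (∀ w, x w ≠ 0 → w = []) → x = emW (Finsupp.single [] (x [])) := by
    intro x hx
    rw [emW, Finsupp.lmapDomain_apply, Finsupp.mapDomain_single]
    ext w
    by_cases hw : w = []
    · rw [hw]; simp
    · rw [Finsupp.single_apply, if_neg (fun h => hw (by rw [← h]; rfl))]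
      by_contra h1
      exact hw (hx w h1)
  induction J using Finset.induction_on with
  | empty =>
    intro q x hx _
    have h1 : ∀ w, x w ≠ 0 → w = [] := by
      intro w hw
      have h2 := (hx w hw).2
      have h3 : tot w = 0 := by
        rw [← Finsupp.support_eq_empty]
        exact Finset.subset_empty.1 h2
      cases w with
      | nil => rfl
      | cons a v =>
        exfalso
        apply a.2
        rw [tot_cons] at h3
        ext k
        have h4 := DFunLike.congr_fun h3 k
        simp only [Finsupp.add_apply, Finsupp.zero_apply] at h4 ⊢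
        omega
    refine ⟨Finsupp.single [] (x []), 0, ?_, fun w hw => absurd rfl hw, ?_⟩
    · intro w hw
      by_cases h2 : w = []
      · rw [h2, Finsupp.single_eq_same] at hw
        rw [h2]
        exact (hx [] hw).1
      · rw [Finsupp.single_apply, if_neg (Ne.symm h2)] at hw
        exact absurd rfl hw
    · rw [map_zero, add_zero]
      exact h00 x h1
  | insert i J hi ih =>
    intro q x hx hD
    cases q with
    | zero =>
      refine ⟨Finsupp.single [] (x []), 0, ?_, fun w hw => absurd rfl hw, ?_⟩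
      · intro w hw
        by_cases h2 : w = []
        · rw [h2]; rfl
        · rw [Finsupp.single_apply, if_neg (Ne.symm h2)] at hw
          exact absurd rfl hw
      · rw [map_zero, add_zero]
        exact h00 x fun w hw => List.length_eq_zero_iff.1 (hx w hw).1
    | succ q =>
      obtain ⟨z, hz, hZ⟩ := iter i (q + 1) _ x hx hD (q + 1)
      obtain ⟨xn, hxn⟩ : ∃ xn, xn = x + Dw z := ⟨_, rfl⟩
      rw [← hxn] at hZ
      have hDn : Dw xn = 0 := by rw [hxn, map_add, hD, Dw_Dw, add_zero]
      have hsn : ∀ w, xn w ≠ 0 → w.length = q + 1 ∧ (tot w).support ⊆ insert i J := by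
        intro w hw
        rw [hxn, Finsupp.add_apply] at hw
        by_cases h1 : x w = 0
        · rw [h1, zero_add, Dw_apply] at hw
          obtain ⟨M, h7, h8, h9⟩ := dfn_supp _ w hw
          have h10 := hz M h7
          exact ⟨by omega, by rw [← h9]; exact h10.2⟩
        · exact hx w h1
      have hend : ∀ w, xn w ≠ 0 → tot w i = 0 ∨ ∃ u, tot u i = 0 ∧ w = u ++ [Lt.eps i] :=
        fun w hw => Zp_end i (q + 1) _ hZ w (hsn w hw).1 hw
      have htot : ∀ u : List (Lt I), tot (u ++ [Lt.eps i]) i = tot u i + 1 := by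
        intro u
        rw [tot_append, Finsupp.add_apply, tot_cons, tot_nil, add_zero, eps_apply]
      -- the two parts
      obtain ⟨y, hy⟩ : ∃ y : Wd (Lt I), ∀ u, y u = xn (u ++ [Lt.eps i]) :=
        ⟨Finsupp.comapDomain (fun u => u ++ [Lt.eps i]) xn (rm_inj _).injOn, fun u => rfl⟩
      obtain ⟨x2, hx2⟩ : ∃ x2 : Wd (Lt I), ∀ w, x2 w = if tot w i = 0 then xn w else 0 :=
        ⟨xn.filter (fun w => tot w i = 0), fun w => Finsupp.filter_apply _ _ _⟩
      have hdec : xn = x2 + rm (Lt.eps i) y := by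
        ext w
        rw [Finsupp.add_apply, hx2]
        by_cases h1 : tot w i = 0
        · rw [if_pos h1]
          have h2 : rm (Lt.eps i) y w = 0 := by
            by_contra h3
            obtain ⟨u, h4, _⟩ := rm_supp _ _ _ h3
            rw [h4, htot] at h1
            omega
          rw [h2, add_zero]
        · rw [if_neg h1, zero_add]
          by_cases h2 : ∃ u, w = u ++ [Lt.eps i]
          · obtain ⟨u, rfl⟩ := h2
            rw [rm_apply, hy]
          · have h3 : rm (Lt.eps i) y w = 0 := by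
              by_contra h3
              obtain ⟨u, h4, _⟩ := rm_supp _ _ _ h3
              exact h2 ⟨u, h4⟩
            rw [h3]
            by_contra h4
            rcases hend w h4 with h5 | ⟨u, _, h5⟩
            · exact h1 h5
            · exact h2 ⟨u, h5⟩
      have hD2 : Dw x2 + rm (Lt.eps i) (Dw y) = 0 := by
        rw [← Dw_rm, ← map_add, ← hdec, hDn]
      have hx2D : Dw x2 = 0 := by
        ext w
        by_cases h1 : tot w i = 0
        · have h2 : rm (Lt.eps i) (Dw y) w = 0 := by
            by_contra h3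
            obtain ⟨u, h4, _⟩ := rm_supp _ _ _ h3
            rw [h4, htot] at h1
            omega
          have h3 := DFunLike.congr_fun hD2 w
          rw [Finsupp.add_apply, h2, add_zero] at h3
          exact h3
        · by_contra h2
          rw [Finsupp.zero_apply, Dw_apply] at h2
          obtain ⟨M, h7, _, h9⟩ := dfn_supp _ w h2
          rw [hx2] at h7
          by_cases h10 : tot M i = 0
          · rw [h9] at h10
            exact h1 h10
          · rw [if_neg h10] at h7
            exact h7 rfl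
      have hyD : Dw y = 0 := by
        rw [hx2D, zero_add] at hD2
        exact rm_injective (Lt.eps i) (by rw [hD2, map_zero])
      have hx2s : ∀ w, x2 w ≠ 0 → w.length = q + 1 ∧ (tot w).support ⊆ J := by
        intro w hw
        rw [hx2] at hw
        by_cases h1 : tot w i = 0
        · rw [if_pos h1] at hw
          refine ⟨(hsn w hw).1, fun k hk => ?_⟩
          have h2 := (hsn w hw).2 hk
          rcases Finset.mem_insert.1 h2 with h3 | h3
          · rw [h3] at hk
            exact absurd h1 (Finsupp.mem_support_iff.1 hk)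
          · exact h3
        · rw [if_neg h1] at hw
          exact absurd rfl hw
      have hys : ∀ w, y w ≠ 0 → w.length = q ∧ (tot w).support ⊆ J := by
        intro u hu
        rw [hy] at hu
        have h1 := hsn _ hu
        have h2 : tot u i = 0 := by
          rcases hend _ hu with h3 | ⟨u', h3, h4⟩
          · rw [htot] at h3
            omega
          · have h5 := rm_inj (Lt.eps i) h4
            rw [h5]
            exact h3
        refine ⟨?_, fun k hk => ?_⟩
        · have h3 := h1.1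
          rw [List.length_append] at h3
          simpa using h3
        · have h3 : k ∈ (tot (u ++ [Lt.eps i])).support := by
            rw [Finsupp.mem_support_iff] at hk ⊢
            rw [tot_append, Finsupp.add_apply]
            omega
          rcases Finset.mem_insert.1 (h1.2 h3) with h4 | h4
          · rw [h4] at hk
            exact absurd h2 (Finsupp.mem_support_iff.1 hk)
          · exact h4
      obtain ⟨p1, x1, hp1, hx1, he1⟩ := ih (q + 1) x2 hx2s hx2D
      obtain ⟨p2, y1, hp2, hy1, he2⟩ := ih q y hys hyD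
      refine ⟨p1 + rm i p2, x1 + rm (Lt.eps i) y1 + z, ?_, ?_, ?_⟩
      · intro w hw
        by_cases h1 : p1 w = 0
        · rw [Finsupp.add_apply, h1, zero_add] at hw
          obtain ⟨u, h2, h3⟩ := rm_supp _ _ _ hw
          rw [h2, List.length_append, hp2 u h3]
          rfl
        · exact hp1 w h1
      · intro w hw
        by_cases h1 : x1 w = 0
        · by_cases h2 : z w = 0
          · rw [Finsupp.add_apply, Finsupp.add_apply, h1, h2, zero_add, add_zero] at hw
            obtain ⟨u, h3, h4⟩ := rm_supp _ _ _ hw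
            have h5 := hy1 u h4
            rw [h3, List.length_append]
            simpa using h5
          · exact (hz w h2).1
        · exact hx1 w h1
      · have h1 : x = xn + Dw z := by
          rw [hxn, add_assoc]
          have h2 : Dw z + Dw z = 0 := by
            ext w
            exact two _
          rw [h2, add_zero]
        rw [h1, hdec, he1]
        conv_lhs => rw [he2]
        rw [map_add, map_add, map_add, map_add, emW_rm, Dw_rm]
        abel

end A505

theorem col1 {I : Type} (q : ℕ) {x : Wd (Lt I)} (hx : x ∈ Len (Lt I) (q + 1)) (h : Dw x = 0) :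
    ∃ p ∈ Len I (q + 1), ∃ x' ∈ Len (Lt I) q, x = emW p + Dw x' := by
  classical
  have h1 : ∀ w, x w ≠ 0 → w.length = q + 1 ∧
      (A505.tot w).support ⊆ x.support.biUnion fun w => (A505.tot w).support := by
    intro w hw
    have hw' : w ∈ x.support := Finsupp.mem_support_iff.2 hw
    refine ⟨(Finsupp.mem_supported (ZMod 2) x).1 hx hw', ?_⟩
    exact Finset.subset_biUnion_of_mem (fun w => (A505.tot w).support) hw'
  obtain ⟨p, x', hp, hx', he⟩ := A505.main _ (q + 1) x h1 h
  refine ⟨p, ?_, x', ?_, he⟩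
  · rw [Len, Finsupp.mem_supported]
    intro w hw
    exact hp w (Finsupp.mem_support_iff.1 hw)
  · rw [Len, Finsupp.mem_supported]
    intro w hw
    have := hx' w (Finsupp.mem_support_iff.1 hw)
    show w.length = q
    omega

end MM

end

/-! ### from `Lib_MP_33f7bb_d.A506` -/

section

/-!
# A5-06: primitive words and the exterior power

`rho_Dw`: define `rho' : Wd (Lt I) → ⋀^q (I →₀ F)` on words: `w ↦ ιMulti (fun j => Lt.pr (single (w.get j) 1))` if `w.length = q`, `0`
otherwise (`Lt.pr (single e 1) = single i 1` if `e = ε_i`, `0` otherwise).  `rho' (emW p) = rho p`.  `rho' (Dw x) = 0`: for a word `w` of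
length `q - 1`, `Dw w = ∑_j w_1 .. cop(w_j) .. w_(q-1)`; `rho'` of `u a b v` (`u, v` words) is
`u' ∧ pr a ∧ pr b ∧ v'`, and the sum over the splittings `(a, b)` of a letter `e` is `0`: it is non-zero only for
`e = ε_i + ε_l`: `i ≠ l`: `ε_i ∧ ε_l + ε_l ∧ ε_i = 0`; `i = l`: `ε_i ∧ ε_i = 0`.  (Formally: the map `Wd → Wd → ExteriorAlgebra`,
word `w ↦ ∏ ι (pr w_j)` is multiplicative; `rho'` is this map restricted to length `q`; and `∑ ι(pr a) ι(pr b)` over the
splittings is zero.  `exteriorPower.ιMulti_apply_coe`, `ExteriorAlgebra.ιMulti_apply`: `ιMulti v = (List.ofFn fun i => ι R (v i)).prod`.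
So the recommended way: define the linear map `Wd I → ExteriorAlgebra`, `w ↦ (w.map (ι ∘ single · 1)).prod`, which on
`Len q` is the composite of `rho` with the inclusion, and work with lists in the exterior algebra.)
`rho_wmap`: same: on words of length `q`, both sides are `ιMulti (f w_1, ..., f w_q)` (multilinearity: `wmap f w = f(w_1) ... f(w_q)`).
`rho_surj`: `exteriorPower.ιMulti_span_of_span` with `s = {single i 1}`, or `rho` of words hit `ιMulti (single ∘ l)`, span.
`rho_WD`: on words.
-/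

namespace MM

/-- product of the images of the letters, on words of length `q` -/
private noncomputable def A506_G {B I : Type} (L : (B →₀ ZMod 2) →ₗ[ZMod 2] (I →₀ ZMod 2)) (q : ℕ)
    (w : List B) : ExteriorAlgebra (ZMod 2) (I →₀ ZMod 2) :=
  if w.length = q then (w.map fun b => ExteriorAlgebra.ι (ZMod 2) (L (Finsupp.single b 1))).prod
  else 0

private noncomputable def A506_R {B I : Type} (L : (B →₀ ZMod 2) →ₗ[ZMod 2] (I →₀ ZMod 2))
    (q : ℕ) : Wd B →ₗ[ZMod 2] ExteriorAlgebra (ZMod 2) (I →₀ ZMod 2) := wext (A506_G L q)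

private theorem A506_ext {B M : Type} [AddCommGroup M] [Module (ZMod 2) M]
    {f g : Wd B →ₗ[ZMod 2] M}
    (h : ∀ w, f (Finsupp.single w 1) = g (Finsupp.single w 1)) : f = g := by
  refine Finsupp.lhom_ext fun w r => ?_
  have h1 : (Finsupp.single w r : Wd B) = r • Finsupp.single w 1 := by
    rw [Finsupp.smul_single, smul_eq_mul, mul_one]
  rw [h1, map_smul, map_smul, h]

private theorem A506_R_single {B I : Type} (L : (B →₀ ZMod 2) →ₗ[ZMod 2] (I →₀ ZMod 2)) (q : ℕ)
    (w : List B) : A506_R L q (Finsupp.single w 1) = A506_G L q w := wext_single _ _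

private theorem A506_G_cons {B I : Type} (L : (B →₀ ZMod 2) →ₗ[ZMod 2] (I →₀ ZMod 2)) (q : ℕ)
    (b : B) (w : List B) : A506_G L (q + 1) (b :: w) =
      ExteriorAlgebra.ι (ZMod 2) (L (Finsupp.single b 1)) * A506_G L q w := by
  unfold A506_G
  by_cases h : w.length = q
  · rw [if_pos h, if_pos (by rw [List.length_cons, h]), List.map_cons, List.prod_cons]
  · rw [if_neg h, if_neg (fun h' => h (by rw [List.length_cons] at h'; omega)), mul_zero]

private theorem A506_G_cons_zero {B I : Type} (L : (B →₀ ZMod 2) →ₗ[ZMod 2] (I →₀ ZMod 2))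
    (b : B) (w : List B) : A506_G L 0 (b :: w) = 0 := by
  unfold A506_G
  rw [if_neg (fun h' => by rw [List.length_cons] at h'; omega)]

private theorem A506_R_lc {B I : Type} (L : (B →₀ ZMod 2) →ₗ[ZMod 2] (I →₀ ZMod 2)) (q : ℕ)
    (y : B →₀ ZMod 2) (x : Wd B) : A506_R L (q + 1) (lc y x) =
      ExteriorAlgebra.ι (ZMod 2) (L y) * A506_R L q x := by
  induction y using Finsupp.induction_linear with
  | zero => rw [map_zero, LinearMap.zero_apply, map_zero, map_zero, map_zero, zero_mul]
  | add a b ha hb =>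
    rw [map_add, LinearMap.add_apply, map_add, ha, hb, map_add, map_add, add_mul]
  | single b r =>
    obtain rfl | rfl : r = 0 ∨ r = 1 := by revert r; decide
    · rw [Finsupp.single_zero, map_zero, LinearMap.zero_apply, map_zero, map_zero, map_zero,
        zero_mul]
    · induction x using Finsupp.induction_linear with
      | zero => rw [map_zero, map_zero, map_zero, mul_zero]
      | add a b ha hb => rw [map_add, map_add, ha, hb, map_add, mul_add]
      | single w r =>
        obtain rfl | rfl : r = 0 ∨ r = 1 := by revert r; decide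
        · rw [Finsupp.single_zero, map_zero, map_zero, map_zero, mul_zero]
        · rw [lc_single, A506_R_single, A506_R_single, A506_G_cons]

private theorem A506_R_lc_zero {B I : Type} (L : (B →₀ ZMod 2) →ₗ[ZMod 2] (I →₀ ZMod 2))
    (y : B →₀ ZMod 2) (x : Wd B) : A506_R L 0 (lc y x) = 0 := by
  induction y using Finsupp.induction_linear with
  | zero => rw [map_zero, LinearMap.zero_apply, map_zero]
  | add a b ha hb => rw [map_add, LinearMap.add_apply, map_add, ha, hb, add_zero]
  | single b r =>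
    obtain rfl | rfl : r = 0 ∨ r = 1 := by revert r; decide
    · rw [Finsupp.single_zero, map_zero, LinearMap.zero_apply, map_zero]
    · induction x using Finsupp.induction_linear with
      | zero => rw [map_zero, map_zero]
      | add a b ha hb => rw [map_add, map_add, ha, hb, add_zero]
      | single w r =>
        obtain rfl | rfl : r = 0 ∨ r = 1 := by revert r; decide
        · rw [Finsupp.single_zero, map_zero, map_zero]
        · rw [lc_single, A506_R_single, A506_G_cons_zero]

private theorem A506_ofFn {B M : Type} (w : List B) (g : B → M) :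
    (List.ofFn fun j : Fin w.length => g (w.get j)) = w.map g := by
  conv_rhs => rw [← List.ofFn_get w, List.map_ofFn]
  rfl

private theorem A506_coe {I : Type} (q : ℕ) (p : Wd I) :
    ((rho I q p : ⋀[ZMod 2]^q (I →₀ ZMod 2)) : ExteriorAlgebra (ZMod 2) (I →₀ ZMod 2)) =
      A506_R LinearMap.id q p := by
  have h : (Submodule.subtype _).comp (rho I q) = A506_R LinearMap.id q := by
    apply A506_ext
    intro w
    rw [LinearMap.comp_apply, A506_R_single]
    show ((wext (rhoW I q) (Finsupp.single w 1) : ⋀[ZMod 2]^q (I →₀ ZMod 2)) :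
      ExteriorAlgebra (ZMod 2) (I →₀ ZMod 2)) = _
    rw [wext_single]
    by_cases hw : w.length = q
    · subst hw
      unfold rhoW A506_G
      rw [dif_pos rfl, if_pos rfl, exteriorPower.ιMulti_apply_coe, ExteriorAlgebra.ιMulti_apply]
      exact congrArg List.prod
        (A506_ofFn w fun b => ExteriorAlgebra.ι (ZMod 2) (Finsupp.single b 1 : I →₀ ZMod 2))
    · unfold rhoW A506_G
      rw [dif_neg hw, if_neg hw]
      rfl
  exact LinearMap.congr_fun h p

private theorem A506_lc2 {I J : Type} (L : (Lt I →₀ ZMod 2) →ₗ[ZMod 2] (J →₀ ZMod 2)) (q : ℕ)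
    (x : Wd (Lt I)) : ∃ C : ExteriorAlgebra (ZMod 2) (J →₀ ZMod 2), ∀ a b : Lt I,
      A506_R L q (lc2 (Finsupp.single (a, b) 1) x) =
        ExteriorAlgebra.ι (ZMod 2) (L (Finsupp.single a 1)) *
          ExteriorAlgebra.ι (ZMod 2) (L (Finsupp.single b 1)) * C := by
  rcases q with _ | _ | q
  · exact ⟨0, fun a b => by rw [lc2_single, A506_R_lc_zero, mul_zero]⟩
  · exact ⟨0, fun a b => by rw [lc2_single, A506_R_lc, A506_R_lc_zero, mul_zero, mul_zero]⟩
  · exact ⟨A506_R L q x, fun a b => by rw [lc2_single, A506_R_lc, A506_R_lc, mul_assoc]⟩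

private theorem A506_cop {I J : Type} (L : (Lt I →₀ ZMod 2) →ₗ[ZMod 2] (J →₀ ZMod 2)) (q : ℕ)
    (e : Lt I) (x : Wd (Lt I)) : A506_R L q (lc2 e.cop x) = 0 := by
  classical
  obtain ⟨C, hC⟩ := A506_lc2 L q x
  unfold Lt.cop
  rw [map_sum, LinearMap.sum_apply, map_sum]
  refine Finset.sum_involution (fun p _ => p.swap) ?_ ?_ ?_ ?_
  · rintro ⟨a, b⟩ _
    by_cases h : a ≠ 0 ∧ b ≠ 0
    · have h' : b ≠ 0 ∧ a ≠ 0 := ⟨h.2, h.1⟩
      simp only [Prod.swap_prod_mk]
      rw [dif_pos h, dif_pos h', hC, hC, ← add_mul, ExteriorAlgebra.ι_add_mul_swap, zero_mul]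
    · have h' : ¬ (b ≠ 0 ∧ a ≠ 0) := fun h' => h ⟨h'.2, h'.1⟩
      simp only [Prod.swap_prod_mk]
      rw [dif_neg h, dif_neg h', map_zero, LinearMap.zero_apply, map_zero, add_zero]
  · rintro ⟨a, b⟩ _ h0 heq
    apply h0
    have hab : b = a := congrArg Prod.fst heq
    subst hab
    by_cases h : b ≠ 0 ∧ b ≠ 0
    · simp only
      rw [dif_pos h, hC, ExteriorAlgebra.ι_sq_zero, zero_mul]
    · simp only
      rw [dif_neg h, map_zero, LinearMap.zero_apply, map_zero]
  · rintro ⟨a, b⟩ h
    rw [Finset.HasAntidiagonal.mem_antidiagonal] at h ⊢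
    rw [← h]
    exact add_comm _ _
  · rintro ⟨a, b⟩ _
    rfl

private theorem A506_DwW {I J : Type} (L : (Lt I →₀ ZMod 2) →ₗ[ZMod 2] (J →₀ ZMod 2))
    (w : List (Lt I)) : ∀ q : ℕ, A506_R L q (DwW w) = 0 := by
  induction w with
  | nil =>
    intro q
    show A506_R L q 0 = 0
    rw [map_zero]
  | cons b w ih =>
    intro q
    show A506_R L q (lc2 b.cop (Finsupp.single w 1) + lc (Finsupp.single b 1) (DwW w)) = 0
    rw [map_add, A506_cop, zero_add]
    cases q with
    | zero => rw [A506_R_lc_zero]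
    | succ q => rw [A506_R_lc, ih, mul_zero]

private theorem A506_Dw {I J : Type} (L : (Lt I →₀ ZMod 2) →ₗ[ZMod 2] (J →₀ ZMod 2)) (q : ℕ)
    (x : Wd (Lt I)) : A506_R L q (Dw x) = 0 := by
  have h : (A506_R L q).comp Dw = 0 := by
    apply A506_ext
    intro w
    rw [LinearMap.comp_apply]
    show A506_R L q (wext DwW (Finsupp.single w 1)) = 0
    rw [wext_single, A506_DwW]
  exact LinearMap.congr_fun h x

private theorem A506_emW {I : Type} (q : ℕ) (p : Wd I) :
    A506_R Lt.pr q (emW p) = A506_R LinearMap.id q p := by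
  have h : (A506_R (Lt.pr (I := I)) q).comp emW = A506_R LinearMap.id q := by
    apply A506_ext
    intro w
    rw [LinearMap.comp_apply, A506_R_single]
    show A506_R Lt.pr q (Finsupp.mapDomain (List.map Lt.eps) (Finsupp.single w 1)) = _
    rw [Finsupp.mapDomain_single, A506_R_single]
    unfold A506_G
    rw [List.length_map, List.map_map]
    have h1 : ((fun b : Lt I => ExteriorAlgebra.ι (ZMod 2) (Lt.pr (Finsupp.single b 1))) ∘ Lt.eps) =
        fun i : I => ExteriorAlgebra.ι (ZMod 2)
          ((LinearMap.id : (I →₀ ZMod 2) →ₗ[ZMod 2] (I →₀ ZMod 2)) (Finsupp.single i 1)) := by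
      funext i
      have h2 := pr_em (Finsupp.single i 1 : I →₀ ZMod 2)
      have h3 : Lt.em (Finsupp.single i 1 : I →₀ ZMod 2) = Finsupp.single (Lt.eps i) 1 :=
        Finsupp.mapDomain_single
      rw [h3] at h2
      show ExteriorAlgebra.ι (ZMod 2) (Lt.pr (Finsupp.single (Lt.eps i) 1)) = _
      rw [h2]
      rfl
    rw [h1]
  exact LinearMap.congr_fun h p

theorem rho_Dw {I : Type} (q : ℕ) {p : Wd I} {x : Wd (Lt I)} (h : emW p = Dw x) : rho I q p = 0 := by
  apply Subtype.ext
  rw [A506_coe, ← A506_emW, h, A506_Dw]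
  rfl

private theorem A506_wmapW {B B' J : Type} (L : (B' →₀ ZMod 2) →ₗ[ZMod 2] (J →₀ ZMod 2))
    (f : (B →₀ ZMod 2) →ₗ[ZMod 2] (B' →₀ ZMod 2)) (w : List B) :
    ∀ q : ℕ, A506_R L q (wmapW f w) = A506_G (L.comp f) q w := by
  induction w with
  | nil =>
    intro q
    show A506_R L q (Finsupp.single [] 1) = _
    rw [A506_R_single]
    rfl
  | cons b w ih =>
    intro q
    show A506_R L q (lc (f (Finsupp.single b 1)) (wmapW f w)) = _
    cases q with
    | zero => rw [A506_R_lc_zero, A506_G_cons_zero]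
    | succ q =>
      rw [A506_R_lc, ih, A506_G_cons]
      rfl

theorem rho_wmap {I I' : Type} (f : (I →₀ ZMod 2) →ₗ[ZMod 2] (I' →₀ ZMod 2)) (q : ℕ) (p : Wd I) :
    rho I' q (wmap f p) = exteriorPower.map q f (rho I q p) := by
  have h : (rho I' q).comp (wmap f) = (exteriorPower.map q f).comp (rho I q) := by
    apply A506_ext
    intro w
    rw [LinearMap.comp_apply, LinearMap.comp_apply]
    show rho I' q (wext (wmapW f) (Finsupp.single w 1)) =
      exteriorPower.map q f (wext (rhoW I q) (Finsupp.single w 1))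
    rw [wext_single, wext_single]
    apply Subtype.ext
    rw [A506_coe, A506_wmapW]
    by_cases hw : w.length = q
    · subst hw
      unfold rhoW A506_G
      rw [dif_pos rfl, if_pos rfl, exteriorPower.map_apply_ιMulti, exteriorPower.ιMulti_apply_coe,
        ExteriorAlgebra.ιMulti_apply]
      exact congrArg List.prod
        (A506_ofFn w fun b => ExteriorAlgebra.ι (ZMod 2) (f (Finsupp.single b 1))).symm
    · unfold rhoW A506_G
      rw [dif_neg hw, if_neg hw, map_zero]
      rfl
  exact LinearMap.congr_fun h p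

theorem rho_surj {I : Type} (q : ℕ) (ω : ⋀[ZMod 2]^q (I →₀ ZMod 2)) :
    ∃ p ∈ Len I q, rho I q p = ω := by
  have h : (⊤ : Submodule (ZMod 2) (⋀[ZMod 2]^q (I →₀ ZMod 2))) ≤
      (Len I q).map (rho I q) := by
    rw [← exteriorPower.ιMulti_span, Submodule.span_le]
    rintro _ ⟨v, rfl⟩
    refine ⟨wmap (Finsupp.linearCombination (ZMod 2) v)
      (Finsupp.single (List.finRange q) 1), ?_, ?_⟩
    · exact wmap_Len _ (Finsupp.single_mem_supported (ZMod 2) 1 (List.length_finRange))
    · rw [rho_wmap]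
      show exteriorPower.map q _ (wext (rhoW (Fin q) q) (Finsupp.single (List.finRange q) 1)) = _
      rw [wext_single]
      unfold rhoW
      rw [dif_pos (List.length_finRange), exteriorPower.map_apply_ιMulti]
      congr 1
      funext j
      show Finsupp.linearCombination (ZMod 2) v (Finsupp.single
        ((List.finRange q).get (Fin.cast List.length_finRange.symm j)) 1) = v j
      rw [Finsupp.linearCombination_single, one_smul]
      congr 1
      simp
  exact h (Submodule.mem_top (x := ω))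

theorem rho_WD {I : Type} {dg : I → ℕ} {q k : ℕ} {p : Wd I} (hp : p ∈ LenD dg q k) :
    rho I q p ∈ WD dg q k := by
  show Finsupp.linearCombination (ZMod 2) (rhoW I q) p ∈ WD dg q k
  rw [Finsupp.linearCombination_apply]
  refine Submodule.sum_mem _ fun w hw => Submodule.smul_mem _ _ (Submodule.subset_span ?_)
  have h1 : w.length = q ∧ (w.map dg).sum = k := hp hw
  obtain ⟨rfl, rfl⟩ := h1
  refine ⟨fun j => w.get j, ?_, ?_⟩
  · rw [← List.sum_ofFn, A506_ofFn w dg]
  · unfold rhoW
    rw [dif_pos rfl]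
    rfl

end MM

end

/-! ### from `Lib_MP_33f7bb_d.A507` -/

section

/-!
# A5-07: the kernel of `rho`

Write `x ≡ y` if `x + y = Dw z` with `z` of the right length (`Len q` for `x, y ∈ Len (q+1)`).
(1) For words `u, v` in `I` and letters `i, j`: `emW (u i j v) ≡ emW (u j i v)` and `emW (u i i v) ≡ 0`: for the word `z = u' e v'`
 (`u', v'` = `u`, `v` mapped by `eps`, `e = ε_i + ε_j` as an exponent vector): `Dw z = u' cop(e) v'`, as `Dw` of primitive words
 vanishes; `cop (ε_i + ε_j) = (ε_i, ε_j) + (ε_j, ε_i)` for `i ≠ j`, `cop (2 ε_i) = (ε_i, ε_i)`.  (Induction on `u`: `Dw (lc (ε_l) z) = lc (ε_l) (Dw z)`.)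
(2) Hence `emW w ≡ emW w'` if `w`, `w'` are permutations of each other (`List.Perm` induction), and `emW w ≡ 0` if `w` has a repeated letter
 (permute it to `i :: i :: w'`).
(3) Choose a linear order on `I` (`exists_wellOrder`/`IsWellOrder.linearOrder WellOrderingRel`, classical).  Every word without repetitions is a permutation of
 the increasing enumeration `w_S` of its set of letters `S`, `|S| = q + 1`.  So `emW p ≡ ∑_S c_S emW w_S`, `c_S ∈ F`, and with `p' = ∑ c_S w_S`:
 `emW (p + p') = Dw z`, so `rho (p + p') = 0` (`rho_Dw`), `rho p' = rho p = 0`; `rho p' = ∑_S c_S (∧_(i ∈ S) ε_i)` and the elements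
 `∧_(i ∈ S) ε_i` form a basis (`exteriorPower.basis`, `Module.Basis.exteriorPower`, `ιMulti_family`; the basis `Finsupp.basisSingleOne`), so all `c_S = 0`,
 `emW p = Dw z`.

Implementation: instead of (2), (3), the universal property of the exterior algebra is used: `lc (em y)` acts on the homology
`H = ker Dw / range Dw`, with square zero by (1), so the exterior algebra acts on `H`, and the class of `emW w` is the image of the class
of the empty word under the product of the letters of `w`.
-/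

namespace MM

variable {I : Type}

/-! ### splittings of `ε_i + ε_j` -/

private theorem A507_split1 (i : I) (a b : I →₀ ℕ) (h : a + b = Finsupp.single i 1) (hb : b ≠ 0) :
    a = 0 := by
  classical
  have key : ∀ c : I →₀ ℕ, c ≠ 0 → (∀ j, c j ≤ (Finsupp.single i 1 : I →₀ ℕ) j) → 1 ≤ c i := by
    intro c hc hle
    obtain ⟨j, hj⟩ := Finsupp.ne_iff.1 hc
    rw [Finsupp.zero_apply] at hj
    have h1 := hle j
    by_cases hij : i = j
    · subst hij
      omega
    · rw [Finsupp.single_eq_of_ne (Ne.symm hij)] at h1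
      omega
  have hadd : ∀ j, a j + b j = (Finsupp.single i 1 : I →₀ ℕ) j := fun j => by
    rw [← h]; rfl
  by_contra ha
  have h1 := key a ha fun j => by have := hadd j; omega
  have h2 := key b hb fun j => by have := hadd j; omega
  have h3 := hadd i
  rw [Finsupp.single_eq_same] at h3
  omega

private theorem A507_split (i j : I) (a b : I →₀ ℕ)
    (h : a + b = Finsupp.single i 1 + Finsupp.single j 1) (ha : a ≠ 0) (hb : b ≠ 0) :
    (a = Finsupp.single i 1 ∧ b = Finsupp.single j 1) ∨
      (a = Finsupp.single j 1 ∧ b = Finsupp.single i 1) := by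
  classical
  -- if `a` contains `ε_i` then `a = ε_i`, `b = ε_j`
  have key : ∀ (i j : I), a + b = Finsupp.single i 1 + Finsupp.single j 1 → 1 ≤ a i →
      (a = Finsupp.single i 1 ∧ b = Finsupp.single j 1) := by
    intro i j h hi
    have hle : Finsupp.single i 1 ≤ a := by
      rw [Finsupp.single_le_iff]
      exact hi
    have hadd : Finsupp.single i 1 + (a - Finsupp.single i 1) = a := add_tsub_cancel_of_le hle
    have h1 : (a - Finsupp.single i 1) + b = Finsupp.single j 1 := by
      have h2 : Finsupp.single i 1 + ((a - Finsupp.single i 1) + b) =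
          Finsupp.single i 1 + Finsupp.single j 1 := by
        rw [← add_assoc, hadd, h]
      exact add_left_cancel h2
    have h3 := A507_split1 j _ _ h1 hb
    rw [h3, add_zero] at hadd
    rw [h3, zero_add] at h1
    exact ⟨hadd.symm, h1⟩
  obtain ⟨k, hk⟩ := Finsupp.ne_iff.1 ha
  rw [Finsupp.zero_apply] at hk
  have hk1 : a k + b k = (Finsupp.single i 1 + Finsupp.single j 1 : I →₀ ℕ) k := by
    rw [← h]; rfl
  rw [Finsupp.add_apply] at hk1
  by_cases hki : k = i
  · left
    subst hki
    exact key k j h (by omega)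
  · by_cases hkj : k = j
    · right
      subst hkj
      exact key k i (h.trans (add_comm _ _)) (by omega)
    · exfalso
      rw [Finsupp.single_eq_of_ne hki, Finsupp.single_eq_of_ne hkj] at hk1
      omega

/-- the letter `ε_i + ε_j` -/
private noncomputable def A507_e (i j : I) : Lt I :=
  ⟨Finsupp.single i 1 + Finsupp.single j 1, by
    classical
    intro h
    have h1 : (Finsupp.single i 1 + Finsupp.single j 1 : I →₀ ℕ) i = 0 := by rw [h]; rfl
    rw [Finsupp.add_apply, Finsupp.single_eq_same] at h1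
    omega⟩

private theorem A507_cop_same (i : I) :
    (A507_e i i).cop = Finsupp.single (Lt.eps i, Lt.eps i) 1 := by
  classical
  ext p
  obtain ⟨a, b⟩ := p
  by_cases h : a.1 + b.1 = (A507_e i i).1
  · rw [cop_apply_eq _ _ _ h]
    have h1 := A507_split i i a.1 b.1 h a.2 b.2
    have h2 : a = Lt.eps i ∧ b = Lt.eps i := by
      rcases h1 with h1 | h1
      · exact ⟨Subtype.ext h1.1, Subtype.ext h1.2⟩
      · exact ⟨Subtype.ext h1.1, Subtype.ext h1.2⟩
    rw [h2.1, h2.2, Finsupp.single_eq_same]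
  · rw [cop_apply_ne _ _ _ h, Finsupp.single_apply, if_neg]
    intro h1
    apply h
    have h2 : Lt.eps i = a := congrArg Prod.fst h1
    have h3 : Lt.eps i = b := congrArg Prod.snd h1
    rw [← h2, ← h3]
    rfl

private theorem A507_cop_ne {i j : I} (hij : i ≠ j) :
    (A507_e i j).cop = Finsupp.single (Lt.eps i, Lt.eps j) 1 +
      Finsupp.single (Lt.eps j, Lt.eps i) 1 := by
  classical
  have hne : (Lt.eps i : Lt I) ≠ Lt.eps j := fun h => hij (Lt.eps_injective h)
  ext p
  obtain ⟨a, b⟩ := p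
  rw [Finsupp.add_apply, Finsupp.single_apply, Finsupp.single_apply]
  by_cases h : a.1 + b.1 = (A507_e i j).1
  · rw [cop_apply_eq _ _ _ h]
    have h1 := A507_split i j a.1 b.1 h a.2 b.2
    rcases h1 with h1 | h1
    · have ha : a = Lt.eps i := Subtype.ext h1.1
      have hb : b = Lt.eps j := Subtype.ext h1.2
      rw [ha, hb, if_pos rfl, if_neg, add_zero]
      intro h2
      exact hne (congrArg Prod.fst h2).symm
    · have ha : a = Lt.eps j := Subtype.ext h1.1
      have hb : b = Lt.eps i := Subtype.ext h1.2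
      rw [ha, hb, if_pos rfl, if_neg, zero_add]
      intro h2
      exact hne (congrArg Prod.fst h2)
  · rw [cop_apply_ne _ _ _ h, if_neg, if_neg, add_zero]
    · intro h1
      apply h
      have h2 : Lt.eps j = a := congrArg Prod.fst h1
      have h3 : Lt.eps i = b := congrArg Prod.snd h1
      rw [← h2, ← h3]
      exact add_comm _ _
    · intro h1
      apply h
      have h2 : Lt.eps i = a := congrArg Prod.fst h1
      have h3 : Lt.eps j = b := congrArg Prod.snd h1
      rw [← h2, ← h3]
      rfl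

/-! ### the relations modulo boundaries -/

private theorem A507_em_single (i : I) : Lt.em (Finsupp.single i 1) = Finsupp.single (Lt.eps i) 1 :=
  Finsupp.mapDomain_single

private theorem A507_copL_single (b : Lt I) : Lt.copL (Finsupp.single b 1) = b.cop := by
  rw [Lt.copL, Finsupp.linearCombination_single, one_smul]

private theorem A507_two (x : Wd (Lt I)) : x + x = 0 := by
  ext w
  rw [Finsupp.add_apply, Finsupp.zero_apply]
  exact CharTwo.add_self_eq_zero _

private theorem A507_comm1 (i j : I) {x : Wd (Lt I)} (hx : Dw x = 0) :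
    lc (Lt.em (Finsupp.single i 1)) (lc (Lt.em (Finsupp.single j 1)) x) +
      lc (Lt.em (Finsupp.single j 1)) (lc (Lt.em (Finsupp.single i 1)) x) ∈
      LinearMap.range (Dw : Wd (Lt I) →ₗ[ZMod 2] Wd (Lt I)) := by
  by_cases hij : i = j
  · subst hij
    rw [A507_two]
    exact Submodule.zero_mem _
  · refine ⟨lc (Finsupp.single (A507_e i j) 1) x, ?_⟩
    rw [Dw_lc, hx, map_zero, add_zero, A507_copL_single, A507_cop_ne hij, map_add,
      LinearMap.add_apply, lc2_single, lc2_single, A507_em_single, A507_em_single]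

private theorem A507_sq1 (i : I) {x : Wd (Lt I)} (hx : Dw x = 0) :
    lc (Lt.em (Finsupp.single i 1)) (lc (Lt.em (Finsupp.single i 1)) x) ∈
      LinearMap.range (Dw : Wd (Lt I) →ₗ[ZMod 2] Wd (Lt I)) := by
  refine ⟨lc (Finsupp.single (A507_e i i) 1) x, ?_⟩
  rw [Dw_lc, hx, map_zero, add_zero, A507_copL_single, A507_cop_same, lc2_single, A507_em_single]

private theorem A507_comm (a b : I →₀ ZMod 2) {x : Wd (Lt I)} (hx : Dw x = 0) :
    lc (Lt.em a) (lc (Lt.em b) x) + lc (Lt.em b) (lc (Lt.em a) x) ∈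
      LinearMap.range (Dw : Wd (Lt I) →ₗ[ZMod 2] Wd (Lt I)) := by
  induction a using Finsupp.induction_linear with
  | zero =>
    simp only [map_zero, LinearMap.zero_apply, add_zero]
    exact Submodule.zero_mem _
  | add f g hf hg =>
    have h := Submodule.add_mem _ hf hg
    have h1 : lc (Lt.em (f + g)) (lc (Lt.em b) x) + lc (Lt.em b) (lc (Lt.em (f + g)) x) =
        (lc (Lt.em f) (lc (Lt.em b) x) + lc (Lt.em b) (lc (Lt.em f) x)) +
        (lc (Lt.em g) (lc (Lt.em b) x) + lc (Lt.em b) (lc (Lt.em g) x)) := by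
      simp only [map_add, LinearMap.add_apply]
      abel
    rw [h1]
    exact h
  | single i c =>
    obtain rfl | rfl : c = 0 ∨ c = 1 := by revert c; decide
    · simp only [Finsupp.single_zero, map_zero, LinearMap.zero_apply, add_zero]
      exact Submodule.zero_mem _
    · induction b using Finsupp.induction_linear with
      | zero =>
        simp only [map_zero, LinearMap.zero_apply, add_zero]
        exact Submodule.zero_mem _
      | add f g hf hg =>
        have h := Submodule.add_mem _ hf hg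
        have h1 : lc (Lt.em (Finsupp.single i 1)) (lc (Lt.em (f + g)) x) +
              lc (Lt.em (f + g)) (lc (Lt.em (Finsupp.single i 1)) x) =
            (lc (Lt.em (Finsupp.single i 1)) (lc (Lt.em f) x) +
              lc (Lt.em f) (lc (Lt.em (Finsupp.single i 1)) x)) +
            (lc (Lt.em (Finsupp.single i 1)) (lc (Lt.em g) x) +
              lc (Lt.em g) (lc (Lt.em (Finsupp.single i 1)) x)) := by
          simp only [map_add, LinearMap.add_apply]
          abel
        rw [h1]
        exact h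
      | single j c =>
        obtain rfl | rfl : c = 0 ∨ c = 1 := by revert c; decide
        · simp only [Finsupp.single_zero, map_zero, LinearMap.zero_apply, add_zero]
          exact Submodule.zero_mem _
        · exact A507_comm1 i j hx

private theorem A507_sq (a : I →₀ ZMod 2) {x : Wd (Lt I)} (hx : Dw x = 0) :
    lc (Lt.em a) (lc (Lt.em a) x) ∈ LinearMap.range (Dw : Wd (Lt I) →ₗ[ZMod 2] Wd (Lt I)) := by
  induction a using Finsupp.induction_linear with
  | zero =>
    simp only [map_zero, LinearMap.zero_apply]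
    exact Submodule.zero_mem _
  | add f g hf hg =>
    have h := Submodule.add_mem _ (Submodule.add_mem _ hf hg) (A507_comm f g hx)
    have h1 : lc (Lt.em (f + g)) (lc (Lt.em (f + g)) x) =
        lc (Lt.em f) (lc (Lt.em f) x) + lc (Lt.em g) (lc (Lt.em g) x) +
        (lc (Lt.em f) (lc (Lt.em g) x) + lc (Lt.em g) (lc (Lt.em f) x)) := by
      simp only [map_add, LinearMap.add_apply]
      abel
    rw [h1]
    exact h
  | single i c =>
    obtain rfl | rfl : c = 0 ∨ c = 1 := by revert c; decide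
    · simp only [Finsupp.single_zero, map_zero, LinearMap.zero_apply]
      exact Submodule.zero_mem _
    · exact A507_sq1 i hx

/-! ### the action of the exterior algebra on the homology -/

/-- cycles -/
private noncomputable abbrev A507_K (I : Type) : Submodule (ZMod 2) (Wd (Lt I)) :=
  LinearMap.ker (Dw : Wd (Lt I) →ₗ[ZMod 2] Wd (Lt I))

/-- boundaries in the cycles -/
private noncomputable abbrev A507_B (I : Type) : Submodule (ZMod 2) (A507_K I) :=
  (LinearMap.range (Dw : Wd (Lt I) →ₗ[ZMod 2] Wd (Lt I))).comap (A507_K I).subtype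

private theorem A507_hK (y : I →₀ ZMod 2) : ∀ x ∈ A507_K I, lc (Lt.em y) x ∈ A507_K I := by
  intro x hx
  rw [LinearMap.mem_ker] at hx ⊢
  rw [Dw_lc, copL_em, map_zero, LinearMap.zero_apply, hx, map_zero, add_zero]

private noncomputable def A507_L (y : I →₀ ZMod 2) : A507_K I →ₗ[ZMod 2] A507_K I :=
  (lc (Lt.em y)).restrict (A507_hK y)

private theorem A507_L_coe (y : I →₀ ZMod 2) (x : A507_K I) :
    (A507_L y x : Wd (Lt I)) = lc (Lt.em y) x := rfl

private theorem A507_hB (y : I →₀ ZMod 2) : A507_B I ≤ (A507_B I).comap (A507_L y) := by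
  rintro x ⟨z, hz⟩
  refine ⟨lc (Lt.em y) z, ?_⟩
  rw [Dw_lc, copL_em, map_zero, LinearMap.zero_apply, zero_add, hz]
  rfl

private noncomputable def A507_f (I : Type) :
    (I →₀ ZMod 2) →ₗ[ZMod 2] Module.End (ZMod 2) (A507_K I ⧸ A507_B I) where
  toFun y := (A507_B I).mapQ (A507_B I) (A507_L y) (A507_hB y)
  map_add' a b := by
    apply Submodule.linearMap_qext
    apply LinearMap.ext
    intro x
    show (A507_B I).mkQ (A507_L (a + b) x) =
      (A507_B I).mkQ (A507_L a x) + (A507_B I).mkQ (A507_L b x)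
    rw [← map_add]
    congr 1
    apply Subtype.ext
    rw [Submodule.coe_add, A507_L_coe, A507_L_coe, A507_L_coe, map_add, map_add,
      LinearMap.add_apply]
  map_smul' r a := by
    apply Submodule.linearMap_qext
    apply LinearMap.ext
    intro x
    show (A507_B I).mkQ (A507_L (r • a) x) = r • (A507_B I).mkQ (A507_L a x)
    rw [← map_smul]
    congr 1
    apply Subtype.ext
    rw [Submodule.coe_smul, A507_L_coe, A507_L_coe, map_smul, map_smul, LinearMap.smul_apply]

private theorem A507_f_mk (y : I →₀ ZMod 2) (x : A507_K I) :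
    A507_f I y ((A507_B I).mkQ x) = (A507_B I).mkQ (A507_L y x) := rfl

private theorem A507_f_sq (y : I →₀ ZMod 2) : A507_f I y * A507_f I y = 0 := by
  apply Submodule.linearMap_qext
  apply LinearMap.ext
  intro x
  show A507_f I y (A507_f I y ((A507_B I).mkQ x)) = 0
  rw [A507_f_mk, A507_f_mk]
  rw [Submodule.mkQ_apply, Submodule.Quotient.mk_eq_zero]
  exact A507_sq y (LinearMap.mem_ker.1 x.2)

private noncomputable def A507_Phi (I : Type) :
    ExteriorAlgebra (ZMod 2) (I →₀ ZMod 2) →ₐ[ZMod 2] Module.End (ZMod 2) (A507_K I ⧸ A507_B I) :=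
  ExteriorAlgebra.lift (ZMod 2) ⟨A507_f I, A507_f_sq⟩

private theorem A507_Phi_ι (y : I →₀ ZMod 2) :
    A507_Phi I (ExteriorAlgebra.ι (ZMod 2) y) = A507_f I y :=
  ExteriorAlgebra.lift_ι_apply (ZMod 2) _ _ y

/-- the class of a word in primitives -/
private noncomputable def A507_cl (I : Type) : Wd I →ₗ[ZMod 2] (A507_K I ⧸ A507_B I) :=
  (A507_B I).mkQ.comp (emW.codRestrict (A507_K I) fun x => LinearMap.mem_ker.2 (Dw_emW x))

private theorem A507_f_cl (y : I →₀ ZMod 2) (x : Wd I) :
    A507_f I y (A507_cl I x) = A507_cl I (lc y x) := by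
  show A507_f I y ((A507_B I).mkQ _) = (A507_B I).mkQ _
  rw [A507_f_mk]
  congr 1
  apply Subtype.ext
  rw [A507_L_coe]
  exact (emW_lc y x).symm

private theorem A507_word (w : List I) :
    A507_Phi I (w.map fun i => ExteriorAlgebra.ι (ZMod 2) (Finsupp.single i 1)).prod
      (A507_cl I (Finsupp.single [] 1)) = A507_cl I (Finsupp.single w 1) := by
  induction w with
  | nil =>
    rw [List.map_nil, List.prod_nil, map_one]
    rfl
  | cons i w ih =>
    rw [List.map_cons, List.prod_cons, map_mul, Module.End.mul_apply, ih, A507_Phi_ι, A507_f_cl,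
      lc_single]

private theorem A507_ofFn {B M : Type} (w : List B) (g : B → M) :
    (List.ofFn fun j : Fin w.length => g (w.get j)) = w.map g := by
  conv_rhs => rw [← List.ofFn_get w, List.map_ofFn]
  rfl

private theorem A507_coe (w : List I) :
    ((rho I w.length (Finsupp.single w 1) : ⋀[ZMod 2]^w.length (I →₀ ZMod 2)) :
      ExteriorAlgebra (ZMod 2) (I →₀ ZMod 2)) =
      (w.map fun i => ExteriorAlgebra.ι (ZMod 2) (Finsupp.single i 1)).prod := by
  show ((wext (rhoW I w.length) (Finsupp.single w 1) : ⋀[ZMod 2]^w.length (I →₀ ZMod 2)) :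
    ExteriorAlgebra (ZMod 2) (I →₀ ZMod 2)) = _
  rw [wext_single]
  unfold rhoW
  rw [dif_pos rfl, exteriorPower.ιMulti_apply_coe, ExteriorAlgebra.ιMulti_apply]
  exact congrArg List.prod
    (A507_ofFn w fun b => ExteriorAlgebra.ι (ZMod 2) (Finsupp.single b 1 : I →₀ ZMod 2))

private theorem A507_cl_eq (q : ℕ) {p : Wd I} (hp : p ∈ Len I q) :
    A507_Phi I (rho I q p : ExteriorAlgebra (ZMod 2) (I →₀ ZMod 2))
      (A507_cl I (Finsupp.single [] 1)) = A507_cl I p := by
  classical
  have h1 : p ∈ Submodule.span (ZMod 2)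
      ((fun w : List I => (Finsupp.single w 1 : Wd I)) '' {w | w.length = q}) := by
    rw [← Finsupp.supported_eq_span_single]
    exact hp
  induction h1 using Submodule.span_induction with
  | mem x hx =>
    obtain ⟨w, hw, rfl⟩ := hx
    have hw' : w.length = q := hw
    subst hw'
    rw [A507_coe, A507_word]
  | zero =>
    rw [map_zero, map_zero, Submodule.coe_zero, map_zero]
    rfl
  | add x y hx hy ihx ihy =>
    have hx' : x ∈ Len I q := by
      rw [Len, Finsupp.supported_eq_span_single]; exact hx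
    have hy' : y ∈ Len I q := by
      rw [Len, Finsupp.supported_eq_span_single]; exact hy
    rw [map_add, map_add, Submodule.coe_add, map_add, LinearMap.add_apply, ihx hx', ihy hy']
  | smul r x hx ih =>
    have hx' : x ∈ Len I q := by
      rw [Len, Finsupp.supported_eq_span_single]; exact hx
    rw [map_smul, map_smul, Submodule.coe_smul, map_smul, LinearMap.smul_apply, ih hx']

/-! ### lengths -/

private noncomputable def A507_pr {B : Type} (k : ℕ) : Wd B →ₗ[ZMod 2] Wd B :=
  { toFun := fun c => c.filter (fun w => w.length = k)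
    map_add' := fun _ _ => Finsupp.filter_add
    map_smul' := fun _ _ => Finsupp.filter_smul }

private theorem A507_pr_mem {B : Type} (k : ℕ) (x : Wd B) : A507_pr k x ∈ Len B k := by
  refine (Finsupp.mem_supported _ _).2 fun w hw => ?_
  have hw' : w ∈ (Finsupp.filter (fun w => w.length = k) x).support := hw
  rw [Finsupp.support_filter, Finset.mem_filter] at hw'
  exact hw'.2

private theorem A507_pr_eq {B : Type} {k : ℕ} {x : Wd B} (hx : x ∈ Len B k) : A507_pr k x = x := by
  show Finsupp.filter (fun w => w.length = k) x = x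
  rw [Finsupp.filter_eq_self_iff]
  intro w hw
  exact (Finsupp.mem_supported _ _).1 hx (Finsupp.mem_support_iff.2 hw)

private theorem A507_pr_zero {B : Type} {k l : ℕ} (hkl : l ≠ k) {x : Wd B} (hx : x ∈ Len B l) :
    A507_pr k x = 0 := by
  show Finsupp.filter (fun w => w.length = k) x = 0
  rw [Finsupp.filter_eq_zero_iff]
  intro w hw
  by_contra h0
  have h1 : w.length = l := (Finsupp.mem_supported _ _).1 hx (Finsupp.mem_support_iff.2 h0)
  exact hkl (h1.symm.trans hw)

private theorem A507_single_mem {B : Type} (w : List B) :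
    (Finsupp.single w 1 : Wd B) ∈ Len B w.length :=
  Finsupp.single_mem_supported _ _ rfl

private theorem A507_Dw_pr (k : ℕ) (x : Wd (Lt I)) :
    A507_pr (k + 1) (Dw x) = Dw (A507_pr k x) := by
  have h : (A507_pr (k + 1)).comp Dw = (Dw : Wd (Lt I) →ₗ[ZMod 2] Wd (Lt I)).comp (A507_pr k) := by
    refine Finsupp.lhom_ext' fun w => LinearMap.ext_ring ?_
    show A507_pr (k + 1) (Dw (Finsupp.single w 1)) = Dw (A507_pr k (Finsupp.single w 1))
    have h1 := Dw_Len (A507_single_mem w)
    by_cases hw : w.length = k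
    · have h2 := A507_single_mem w
      rw [hw] at h1 h2
      rw [A507_pr_eq h1, A507_pr_eq h2]
    · rw [A507_pr_zero (fun h => hw (by omega)) h1, A507_pr_zero hw (A507_single_mem w), map_zero]
  exact LinearMap.congr_fun h x

theorem rho_ker {I : Type} (q : ℕ) {p : Wd I} (hp : p ∈ Len I (q + 1)) (h : rho I (q + 1) p = 0) :
    ∃ x ∈ Len (Lt I) q, emW p = Dw x := by
  have h1 := A507_cl_eq (q + 1) hp
  rw [h, Submodule.coe_zero, map_zero, LinearMap.zero_apply] at h1
  have h2 : (emW.codRestrict (A507_K I) fun x => LinearMap.mem_ker.2 (Dw_emW x)) p ∈ A507_B I :=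
    (Submodule.Quotient.mk_eq_zero _).1 h1.symm
  obtain ⟨z, hz⟩ := h2
  have hz' : Dw z = emW p := hz
  refine ⟨A507_pr q z, A507_pr_mem q z, ?_⟩
  rw [← A507_Dw_pr, hz', A507_pr_eq (emW_Len hp)]

end MM

end

/-! ### from `Lib_MP_33f7bb_d.A508` -/

section

/-!
# A5-08: the rows of the double complex

`dT_dT`: the usual cancellation in `∑_i ∑_j wmap (cf (s+1) i) (wmap (cf s j) x)` (`i ≤ s + 2`, `j ≤ s + 1`): terms with `j < i` and
terms with `i ≤ j` are matched by `cf (s+1) (j+1) ∘ cf s i = cf (s+1) i ∘ cf s j`, `i ≤ j` (`X.rel.dd`, `wmap_comp`).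
`Dw_dT`, `dT_prk`, `dT_T`, `dT_emW`: from `Dw_wmap`, `wmap_prk`, `wmap_LenD`, `wmap_emW`.
`row_succ`: `H := wmap (X.h s)`, `0 = wmap (X.h (s+1)) (dT (s+1) x) = wmap (h (s+1) ∘ cf (s+1) 0) x + ∑_(i ≤ s+1) wmap (h (s+1) ∘ cf (s+1) (i+1)) x =
x + ∑_(i ≤ s+1) wmap (cf s i) (wmap (h s) x) = x + dT s (H x)` (`Finset.sum_range_succ'`, `wmap_comp`, `wmap_id`; equality of linear maps
`(X.h (s+1)).comp (X.cf (s+1) (i+1)) = (X.cf s i).comp (X.h s)` for `i ≤ s + 1`).  `w = H x`.
`row_zero`: `dT 0 x = wmap (cf 0 0) x + wmap (cf 0 1) x = 0`; apply `wmap (h 0)`: `x + wmap aug (wmap h0 x) = 0`; `wmap h0 x` is of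
length `q` and degree `k` for the constant degree `N`, so zero (`LenD_const`).
-/

namespace MM

private theorem A508_two {V : Type*} [AddCommGroup V] [Module (ZMod 2) V] (x : V) : x + x = 0 := by
  rw [← two_smul (ZMod 2) x, show (2 : ZMod 2) = 0 from rfl, zero_smul]

private theorem A508_eq {V : Type*} [AddCommGroup V] [Module (ZMod 2) V] {x y : V}
    (h : x + y = 0) : y = x := by
  have h1 : x + y = x + x := by rw [h, A508_two]
  exact add_left_cancel h1

private theorem A508_wcomp {B B' B'' : Type} (g : (B' →₀ ZMod 2) →ₗ[ZMod 2] (B'' →₀ ZMod 2))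
    (f : (B →₀ ZMod 2) →ₗ[ZMod 2] (B' →₀ ZMod 2)) (x : Wd B) :
    wmap g (wmap f x) = wmap (g.comp f) x := by
  rw [wmap_comp]; rfl

namespace CoB

variable (X : CoB)

private theorem A508_dT_apply (s : ℕ) (x : Wd (Lt (X.I s))) :
    X.dT s x = ∑ i ∈ Finset.range (s + 2), wmap (X.cf s i) x := by
  rw [dT, LinearMap.sum_apply]

theorem dT_dT (s : ℕ) (x : Wd (Lt (X.I s))) : X.dT (s + 1) (X.dT s x) = 0 := by
  rw [A508_dT_apply, A508_dT_apply]
  simp only [map_sum]
  rw [← Finset.sum_product']
  have key : ∀ i j, i ≤ j → j ≤ s + 1 →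
      wmap (X.cf (s + 1) (j + 1)) (wmap (X.cf s i) x) =
        wmap (X.cf (s + 1) i) (wmap (X.cf s j) x) := by
    intro i j hij hj
    rw [A508_wcomp, A508_wcomp]
    congr 2
    exact LinearMap.ext fun y => X.rel.dd s i j y hij hj
  refine Finset.sum_involution (fun p _ => if p.2 < p.1 then (p.2, p.1 - 1) else (p.2 + 1, p.1))
    ?_ ?_ ?_ ?_
  · rintro ⟨i, j⟩ hp
    simp only [Finset.mem_product, Finset.mem_range] at hp
    by_cases hji : j < i
    · simp only [hji, if_true]
      have h1 := key j (i - 1) (by omega) (by omega)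
      rw [show i - 1 + 1 = i by omega] at h1
      rw [h1]
      exact A508_two _
    · simp only [hji, if_false]
      have h1 := key i j (by omega) (by omega)
      rw [h1]
      exact A508_two _
  · rintro ⟨i, j⟩ hp _
    simp only [Finset.mem_product, Finset.mem_range] at hp
    by_cases hji : j < i
    · simp only [hji, if_true, ne_eq, Prod.mk.injEq]
      omega
    · simp only [hji, if_false, ne_eq, Prod.mk.injEq]
      omega
  · rintro ⟨i, j⟩ hp
    simp only [Finset.mem_product, Finset.mem_range] at hp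
    by_cases hji : j < i
    · simp only [hji, if_true, Finset.mem_product, Finset.mem_range]
      omega
    · simp only [hji, if_false, Finset.mem_product, Finset.mem_range]
      omega
  · rintro ⟨i, j⟩ hp
    simp only [Finset.mem_product, Finset.mem_range] at hp
    by_cases hji : j < i
    · simp only [hji, if_true]
      rw [if_neg (by omega)]
      exact Prod.ext (by show i - 1 + 1 = i; omega) rfl
    · simp only [hji, if_false]
      rw [if_pos (by omega)]
      exact Prod.ext rfl (by show j + 1 - 1 = j; omega)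

theorem Dw_dT (s : ℕ) (x : Wd (Lt (X.I s))) : Dw (X.dT s x) = X.dT s (Dw x) := by
  rw [A508_dT_apply, A508_dT_apply, map_sum]
  exact Finset.sum_congr rfl fun i _ => Dw_wmap (X.cf_co s i) x

theorem dT_prk (s k : ℕ) (x : Wd (Lt (X.I s))) :
    X.dT s (prk (Lt.deg (X.dg s)) k x) = prk (Lt.deg (X.dg (s + 1))) k (X.dT s x) := by
  rw [A508_dT_apply, A508_dT_apply, map_sum]
  exact Finset.sum_congr rfl fun i _ => wmap_prk (X.cf_deg s i) k x

theorem dT_T {s q k : ℕ} {x : Wd (Lt (X.I s))} (hx : x ∈ X.T s q k) : X.dT s x ∈ X.T (s + 1) q k := by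
  rw [A508_dT_apply]
  exact Submodule.sum_mem _ fun i _ => wmap_LenD (X.cf_deg s i) hx

theorem dT_emW (s : ℕ) (p : Wd (X.I s)) : X.dT s (emW p) = emW (X.pdT s p) := by
  rw [A508_dT_apply, pdT, LinearMap.sum_apply, map_sum]
  exact Finset.sum_congr rfl fun i _ => wmap_emW (X.cf_co s i) p

theorem pdT_Len {s q : ℕ} {p : Wd (X.I s)} (hp : p ∈ Len (X.I s) q) :
    X.pdT s p ∈ Len (X.I (s + 1)) q := by
  rw [pdT, LinearMap.sum_apply]
  exact Submodule.sum_mem _ fun i _ => wmap_Len _ hp

theorem pdT_one (s : ℕ) (z : X.I s →₀ ZMod 2) :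
    X.pdT s (lc z (Finsupp.single [] 1)) = lc (X.pd s z) (Finsupp.single [] 1) := by
  rw [pdT, pd, LinearMap.sum_apply, LinearMap.sum_apply, map_sum, LinearMap.sum_apply]
  refine Finset.sum_congr rfl fun i _ => ?_
  rw [wmap_lc, wmap_nil]

theorem row_zero {q k : ℕ} (hk : k ≠ q * X.N) {x : Wd (Lt (X.I 0))} (hx : x ∈ X.T 0 q k)
    (h : X.dT 0 x = 0) : x = 0 := by
  rw [A508_dT_apply] at h
  have h1 := congrArg (wmap (X.h 0)) h
  rw [map_zero, map_sum] at h1
  simp only [Finset.sum_range_succ, Finset.sum_range_zero, zero_add] at h1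
  rw [A508_wcomp, A508_wcomp] at h1
  have e0 : (X.h 0).comp (X.cf 0 0) = LinearMap.id := LinearMap.ext fun y => X.h_zero 0 y
  have e1 : (X.h 0).comp (X.cf 0 1) = X.aug.comp X.h0 := LinearMap.ext fun y => X.h_aug y
  have e2 : wmap X.h0 x = 0 := LenD_const hk (wmap_LenD X.h0_deg hx)
  rw [e0, e1, ← A508_wcomp, e2, map_zero, wmap_id, add_zero] at h1
  exact h1

theorem row_succ {s q k : ℕ} {x : Wd (Lt (X.I (s + 1)))} (hx : x ∈ X.T (s + 1) q k)
    (h : X.dT (s + 1) x = 0) : ∃ w ∈ X.T s q k, X.dT s w = x := by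
  refine ⟨wmap (X.h s) x, wmap_LenD (X.h_deg s) hx, ?_⟩
  rw [A508_dT_apply] at h
  have h1 := congrArg (wmap (X.h (s + 1))) h
  rw [map_zero, map_sum, Finset.sum_range_succ'] at h1
  rw [A508_wcomp (X.h (s + 1)) (X.cf (s + 1) 0)] at h1
  have e0 : (X.h (s + 1)).comp (X.cf (s + 1) 0) = LinearMap.id :=
    LinearMap.ext fun y => X.h_zero (s + 1) y
  rw [e0, wmap_id, LinearMap.id_apply] at h1
  have e1 : ∑ i ∈ Finset.range (s + 2), wmap (X.h (s + 1)) (wmap (X.cf (s + 1) (i + 1)) x) =
      X.dT s (wmap (X.h s) x) := by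
    rw [A508_dT_apply]
    refine Finset.sum_congr rfl fun i hi => ?_
    rw [A508_wcomp, A508_wcomp]
    congr 2
    exact LinearMap.ext fun y => X.h_succ s i y (by have := Finset.mem_range.1 hi; omega)
  rw [e1] at h1
  exact A508_eq ((add_comm _ _).trans h1)

end CoB

end MM

end

/-! ### from `Lib_MP_33f7bb_d.GenSV` -/

section

/-!
# Simplicial vector spaces from faces and degeneracies (piece GenSV)

Generators and relations for simplicial objects.  `GenA C`: an augmented simplicial object of the category `C`, given by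
the faces, the degeneracies and the simplicial identities; `A k` is the value on the ordinal with `k` elements
`{0, …, k - 1}`.  `GenA.act`: the action of all monotone maps `f : Fin m →o Fin n`, by recursion:
(a) if `0` is not in the image of `f`, then `f = δ₀ f'`;  (c) if `f 0 = 0` and `f i ≠ 0` for `i > 0`, then
`f = 1 + f'`, the action of `f'` on the shifted object `Dec`;  (b) otherwise `f 0 = f 1 = 0`, `f = (f δ₀) σ₀`.


For users: `GenSV` (faces, degeneracies, identities pointwise), `GenSV.sv : SV` with `sv_V` (`rfl`), `sv_dlt`, `sv_sgm`, `sv_d`;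
`nat_of_gen`, `SVHom.ofGen`, `SVHom.ofGen'`: levelwise linear maps commuting with faces and degeneracies are simplicial;
`mo_induction`: induction over cofaces, codegeneracies, composites; the same for simplicial sets (`GenSS`).
For a cosimplicial object `s ↦ V s` with cofaces `d^i`, codegeneracies `s^j` and a contravariant functor `T` put
`face n i = T (d^i)`, `deg n j = T (s^j)`.
-/

set_option autoImplicit false

open CategoryTheory

namespace MM

universe v u

/-! ## Augmented simplicial objects given by generators -/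

/-- augmented simplicial objects given by faces and degeneracies -/
structure GenA (C : Type u) [Category.{v} C] where
  A : ℕ → C
  face : ∀ k, Fin (k + 1) → (A (k + 1) ⟶ A k)
  deg : ∀ k, Fin k → (A k ⟶ A (k + 1))
  ff : ∀ k (i j : Fin (k + 1)), i ≤ j →
    face (k + 1) j.succ ≫ face k i = face (k + 1) i.castSucc ≫ face k j
  dd : ∀ k (i j : Fin k), i ≤ j → deg k j ≫ deg (k + 1) i.castSucc = deg k i ≫ deg (k + 1) j.succ
  df1 : ∀ k (i : Fin (k + 1)) (j : Fin k), i ≤ j.castSucc →
    deg (k + 1) j.succ ≫ face (k + 1) i.castSucc = face k i ≫ deg k j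
  df2 : ∀ k (j : Fin k), deg k j ≫ face k j.castSucc = 𝟙 (A k)
  df3 : ∀ k (j : Fin k), deg k j ≫ face k j.succ = 𝟙 (A k)
  df4 : ∀ k (i : Fin (k + 1)) (j : Fin k), j.castSucc < i →
    deg (k + 1) j.castSucc ≫ face (k + 1) i.succ = face k i ≫ deg k j

namespace GenA

variable {C : Type u} [Category.{v} C]

/-- shift -/
def Dec (A : GenA C) : GenA C where
  A k := A.A (k + 1)
  face k i := A.face (k + 1) i.succ
  deg k i := A.deg (k + 1) i.succ
  ff k i j h := by
    have := A.ff (k + 1) i.succ j.succ (Fin.succ_le_succ_iff.2 h)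
    rw [Fin.succ_castSucc]
    exact this
  dd k i j h := by
    have := A.dd (k + 1) i.succ j.succ (Fin.succ_le_succ_iff.2 h)
    rw [Fin.succ_castSucc]
    exact this
  df1 k i j h := by
    have := A.df1 (k + 1) i.succ j.succ (by rw [← Fin.succ_castSucc]; exact Fin.succ_le_succ_iff.2 h)
    rw [Fin.succ_castSucc]
    exact this
  df2 k j := by
    have := A.df2 (k + 1) j.succ
    rw [Fin.succ_castSucc]
    exact this
  df3 k j := A.df3 (k + 1) j.succ
  df4 k i j h := by
    have := A.df4 (k + 1) i.succ j.succ (by rw [← Fin.succ_castSucc]; exact Fin.succ_lt_succ_iff.2 h)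
    rw [Fin.succ_castSucc]
    exact this

/-- `f = δ₀ f'` -/
def pa {m n : ℕ} (f : Fin m →o Fin (n + 1)) (h : ∀ i, f i ≠ 0) : Fin m →o Fin n :=
  ⟨fun i => (f i).pred (h i), fun _ _ hij => Fin.pred_le_pred_iff.2 (f.monotone hij)⟩

/-- `f = 1 + f'` -/
def pc {m n : ℕ} (f : Fin (m + 1) →o Fin (n + 1)) (h : ∀ i : Fin m, f i.succ ≠ 0) : Fin m →o Fin n :=
  ⟨fun i => (f i.succ).pred (h i), fun _ _ hij =>
    Fin.pred_le_pred_iff.2 (f.monotone (Fin.succ_le_succ_iff.2 hij))⟩

/-- restriction to the positive elements -/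
def tl {m n : ℕ} (f : Fin (m + 1) →o Fin n) : Fin m →o Fin n :=
  ⟨fun i => f i.succ, fun _ _ hij => f.monotone (Fin.succ_le_succ_iff.2 hij)⟩

open scoped Classical in
/-- the action of all monotone maps -/
noncomputable def act : ∀ (n m : ℕ) (A : GenA C), (Fin m →o Fin n) → (A.A n ⟶ A.A m)
  | 0, 0, A, _ => 𝟙 (A.A 0)
  | 0, _ + 1, _, f => (f 0).elim0
  | n + 1, 0, A, f => A.face n 0 ≫ act n 0 A (pa f (fun i => i.elim0))
  | n + 1, m + 1, A, f =>
    if ha : ∀ i, f i ≠ 0 then A.face n 0 ≫ act n (m + 1) A (pa f ha)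
    else if hc : ∀ i : Fin m, f i.succ ≠ 0 then act n m A.Dec (pc f hc)
    else act (n + 1) m A (tl f) ≫ A.deg m ⟨0, by
      push Not at hc
      obtain ⟨i, -⟩ := hc
      exact i.pos⟩
  termination_by n m => n + m

theorem act_zero (A : GenA C) (f : Fin 0 →o Fin 0) : act 0 0 A f = 𝟙 (A.A 0) := by
  rw [act]

theorem act_a (A : GenA C) {n m : ℕ} (f : Fin m →o Fin (n + 1)) (h : ∀ i, f i ≠ 0) :
    act (n + 1) m A f = A.face n 0 ≫ act n m A (pa f h) := by
  cases m with
  | zero => rw [act]
  | succ m => rw [act, dif_pos h]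

theorem act_c (A : GenA C) {n m : ℕ} (f : Fin (m + 1) →o Fin (n + 1)) (h0 : f 0 = 0)
    (h : ∀ i : Fin m, f i.succ ≠ 0) : act (n + 1) (m + 1) A f = act n m A.Dec (pc f h) := by
  rw [act, dif_neg (fun h' => h' 0 h0), dif_pos h]

theorem act_b (A : GenA C) {n m : ℕ} (f : Fin (m + 2) →o Fin (n + 1)) (h0 : f 0 = 0)
    (h1 : f 1 = 0) : act (n + 1) (m + 2) A f = act (n + 1) (m + 1) A (tl f) ≫ A.deg (m + 1) 0 := by
  rw [act, dif_neg (fun h' => h' 0 h0), dif_neg (fun h' => h' 0 h1)]
  rfl

/-! ## Naturality -/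

/-- maps of augmented simplicial objects -/
structure Hm (A B : GenA C) where
  app : ∀ k, A.A k ⟶ B.A k
  face : ∀ k i, A.face k i ≫ app k = app (k + 1) ≫ B.face k i
  deg : ∀ k i, A.deg k i ≫ app (k + 1) = app k ≫ B.deg k i

/-- shift of a map -/
def Hm.Dec {A B : GenA C} (φ : Hm A B) : Hm A.Dec B.Dec where
  app k := φ.app (k + 1)
  face k i := φ.face (k + 1) i.succ
  deg k i := φ.deg (k + 1) i.succ

/-- the zeroth face -/
def d0 (A : GenA C) : Hm A.Dec A where
  app k := A.face k 0
  face k i := A.ff k 0 i (Fin.zero_le _)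
  deg k i := A.df1 k 0 i (Fin.zero_le _)

theorem act_nat : ∀ (N n m : ℕ), n + m ≤ N → ∀ (A B : GenA C) (φ : Hm A B) (f : Fin m →o Fin n),
    act n m A f ≫ φ.app m = φ.app n ≫ act n m B f := by
  intro N
  induction N with
  | zero =>
    intro n m h A B φ f
    obtain ⟨rfl, rfl⟩ : n = 0 ∧ m = 0 := by omega
    rw [act_zero, act_zero, Category.id_comp, Category.comp_id]
  | succ N ih =>
    intro n m h A B φ f
    cases n with
    | zero =>
      cases m with
      | zero => rw [act_zero, act_zero, Category.id_comp, Category.comp_id]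
      | succ m => exact (f 0).elim0
    | succ n =>
      by_cases ha : ∀ i, f i ≠ 0
      · rw [act_a A f ha, act_a B f ha, Category.assoc, ih n m (by omega) A B φ, ← Category.assoc,
          φ.face, Category.assoc]
      · cases m with
        | zero => exact (ha fun i => i.elim0).elim
        | succ m =>
          have h0 : f 0 = 0 := by
            push Not at ha
            obtain ⟨i, hi⟩ := ha
            exact le_antisymm (hi ▸ f.monotone (Fin.zero_le i)) (Fin.zero_le _)
          by_cases hc : ∀ i : Fin m, f i.succ ≠ 0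
          · rw [act_c A f h0 hc, act_c B f h0 hc]
            exact ih n m (by omega) A.Dec B.Dec φ.Dec _
          · cases m with
            | zero => exact (hc fun i => i.elim0).elim
            | succ m =>
              have h1 : f 1 = 0 := by
                push Not at hc
                obtain ⟨i, hi⟩ := hc
                refine le_antisymm (hi ▸ f.monotone ?_) (Fin.zero_le _)
                rw [← Fin.succ_zero_eq_one]
                exact Fin.succ_le_succ_iff.2 (Fin.zero_le i)
              rw [act_b A f h0 h1, act_b B f h0 h1, Category.assoc, φ.deg, ← Category.assoc,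
                ih (n + 1) (m + 1) (by omega) A B φ, Category.assoc]

/-! ## Compatibility with the generators -/

/-- cofaces -/
def dl {m : ℕ} (i : Fin (m + 1)) : Fin m →o Fin (m + 1) := (Fin.succAboveOrderEmb i).toOrderHom

/-- codegeneracies -/
def sg {m : ℕ} (i : Fin m) : Fin (m + 1) →o Fin m := ⟨Fin.predAbove i, Fin.predAbove_right_monotone i⟩

theorem dl_apply {m : ℕ} (i : Fin (m + 1)) (x : Fin m) : dl i x = i.succAbove x := rfl

theorem sg_apply {m : ℕ} (i : Fin m) (x : Fin (m + 1)) : sg i x = i.predAbove x := rfl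

private theorem case0 {m n : ℕ} (f : Fin (m + 1) →o Fin (n + 1)) (ha : ¬ ∀ i, f i ≠ 0) : f 0 = 0 := by
  push Not at ha
  obtain ⟨i, hi⟩ := ha
  exact le_antisymm (hi ▸ f.monotone (Fin.zero_le i)) (Fin.zero_le _)

private theorem case1 {m n : ℕ} (f : Fin (m + 2) →o Fin (n + 1)) (hc : ¬ ∀ i : Fin (m + 1), f i.succ ≠ 0) :
    f 1 = 0 := by
  push Not at hc
  obtain ⟨i, hi⟩ := hc
  refine le_antisymm (hi ▸ f.monotone ?_) (Fin.zero_le _)
  rw [← Fin.succ_zero_eq_one]
  exact Fin.succ_le_succ_iff.2 (Fin.zero_le i)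

theorem act_dl : ∀ (N n m : ℕ), n + m ≤ N → ∀ (A : GenA C) (f : Fin (m + 1) →o Fin n) (i : Fin (m + 1)),
    act n m A (f.comp (dl i)) = act n (m + 1) A f ≫ A.face m i := by
  intro N
  induction N with
  | zero =>
    intro n m h A f i
    obtain ⟨rfl, rfl⟩ : n = 0 ∧ m = 0 := by omega
    exact (f 0).elim0
  | succ N ih =>
    intro n m h A f i
    cases n with
    | zero => exact (f 0).elim0
    | succ n =>
      by_cases ha : ∀ i, f i ≠ 0
      · rw [act_a A f ha, act_a A (f.comp (dl i)) (fun j => ha _), Category.assoc,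
          ← ih n m (by omega) A (pa f ha) i]
        rfl
      · have h0 := case0 f ha
        by_cases hc : ∀ i : Fin m, f i.succ ≠ 0
        · rw [act_c A f h0 hc]
          by_cases hi : i = 0
          · subst hi
            have h1 : ∀ j, f.comp (dl 0) j ≠ 0 := fun j => by
              rw [OrderHom.comp_coe, Function.comp_apply, dl_apply, Fin.zero_succAbove]
              exact hc j
            rw [act_a A (f.comp (dl 0)) h1]
            have h2 := act_nat _ n m le_rfl A.Dec A (d0 A) (pc f hc)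
            exact h2.symm
          · obtain ⟨i, rfl⟩ := Fin.exists_succ_eq.2 hi
            cases m with
            | zero => exact i.elim0
            | succ m =>
              have h1 : (f.comp (dl i.succ)) 0 = 0 := by
                rw [OrderHom.comp_coe, Function.comp_apply, dl_apply, Fin.succ_succAbove_zero]
                exact h0
              have h2 : ∀ j : Fin m, (f.comp (dl i.succ)) j.succ ≠ 0 := fun j => by
                rw [OrderHom.comp_coe, Function.comp_apply, dl_apply, Fin.succ_succAbove_succ]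
                exact hc _
              rw [act_c A _ h1 h2]
              have h3 := ih n m (by omega) A.Dec (pc f hc) i
              have h4 : pc (f.comp (dl i.succ)) h2 = (pc f hc).comp (dl i) := by
                apply OrderHom.ext
                funext j
                apply Fin.ext
                show (f ((dl i.succ) j.succ)).val - 1 = (f ((dl i) j).succ).val - 1
                rw [dl_apply, dl_apply, Fin.succ_succAbove_succ]
              rw [h4]
              exact h3
        · cases m with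
          | zero => exact (hc fun i => i.elim0).elim
          | succ m =>
            have h1 := case1 f hc
            rw [act_b A f h0 h1, Category.assoc]
            by_cases hi : i = 0
            · subst hi
              have h2 := A.df2 (m + 1) 0
              rw [Fin.castSucc_zero] at h2
              rw [h2, Category.comp_id]
              congr 1
            · by_cases hi1 : i = 1
              · subst hi1
                have h2 := A.df3 (m + 1) 0
                rw [Fin.succ_zero_eq_one] at h2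
                rw [h2, Category.comp_id]
                congr 1
                apply OrderHom.ext
                funext j
                show f ((dl 1) j) = f j.succ
                rw [dl_apply]
                refine Fin.cases ?_ (fun j => ?_) j
                · rw [← Fin.succ_zero_eq_one, Fin.succ_succAbove_zero, h0]
                  rw [Fin.succ_zero_eq_one, h1]
                · rw [← Fin.succ_zero_eq_one, Fin.succ_succAbove_succ, Fin.zero_succAbove]
              · obtain ⟨i, rfl⟩ := Fin.exists_succ_eq.2 hi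
                have hi2 : i ≠ 0 := by
                  rintro rfl
                  exact hi1 Fin.succ_zero_eq_one
                cases m with
                | zero => exact (hi2 (Subsingleton.elim (α := Fin 1) _ _)).elim
                | succ m =>
                obtain ⟨i, rfl⟩ := Fin.exists_succ_eq.2 hi2
                have h2 : (f.comp (dl i.succ.succ)) 0 = 0 := by
                  rw [OrderHom.comp_coe, Function.comp_apply, dl_apply, Fin.succ_succAbove_zero]
                  exact h0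
                have h3 : (f.comp (dl i.succ.succ)) 1 = 0 := by
                  rw [OrderHom.comp_coe, Function.comp_apply, dl_apply]
                  have : (i.succ.succ).succAbove 1 = 1 := by
                    rw [← Fin.succ_zero_eq_one, Fin.succ_succAbove_succ, Fin.succ_succAbove_zero]
                    rfl
                  rw [this]
                  exact h1
                rw [act_b A _ h2 h3]
                have h4 : tl (f.comp (dl i.succ.succ)) = (tl f).comp (dl i.succ) := by
                  apply OrderHom.ext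
                  funext j
                  show f ((dl i.succ.succ) j.succ) = f ((dl i.succ) j).succ
                  rw [dl_apply, dl_apply, Fin.succ_succAbove_succ]
                rw [h4, ih (n + 1) (m + 1) (by omega) A (tl f) i.succ, Category.assoc]
                have h5 := A.df4 (m + 1) i.succ 0 (by simp)
                rw [Fin.castSucc_zero] at h5
                rw [h5]

theorem act_sg : ∀ (N n m : ℕ), n + m ≤ N → ∀ (A : GenA C) (f : Fin m →o Fin n) (i : Fin m),
    act n (m + 1) A (f.comp (sg i)) = act n m A f ≫ A.deg m i := by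
  intro N
  induction N with
  | zero =>
    intro n m h A f i
    obtain ⟨rfl, rfl⟩ : n = 0 ∧ m = 0 := by omega
    exact i.elim0
  | succ N ih =>
    intro n m h A f i
    cases m with
    | zero => exact i.elim0
    | succ m =>
      cases n with
      | zero => exact (f 0).elim0
      | succ n =>
        by_cases ha : ∀ i, f i ≠ 0
        · rw [act_a A f ha, act_a A (f.comp (sg i)) (fun j => ha _), Category.assoc,
            ← ih n (m + 1) (by omega) A (pa f ha) i]
          rfl
        · have h0 := case0 f ha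
          by_cases hi : i = 0
          · subst hi
            have h1 : (f.comp (sg (0 : Fin (m + 1)))) 0 = 0 := h0
            have h2 : (f.comp (sg (0 : Fin (m + 1)))) 1 = 0 := by
              rw [OrderHom.comp_coe, Function.comp_apply, sg_apply]
              have : (0 : Fin (m + 1)).predAbove 1 = 0 := by
                rw [← Fin.succ_zero_eq_one, Fin.predAbove_succ_of_le _ _ le_rfl]
              rw [this]
              exact h0
            rw [act_b A _ h1 h2]
            have h3 : tl (f.comp (sg (0 : Fin (m + 1)))) = f := by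
              apply OrderHom.ext
              funext j
              show f ((sg 0) j.succ) = f j
              rw [sg_apply, Fin.predAbove_succ_of_le _ _ (Fin.zero_le j)]
            rw [h3]
          · obtain ⟨i, rfl⟩ := Fin.exists_succ_eq.2 hi
            have e1 : (f.comp (sg i.succ)) 0 = 0 := by
              rw [OrderHom.comp_coe, Function.comp_apply, sg_apply]
              have : (i.succ).predAbove 0 = 0 := by
                apply Fin.ext
                simp [Fin.predAbove]
              rw [this]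
              exact h0
            have e2 : ∀ j, (f.comp (sg i.succ)) j.succ = f ((sg i) j).succ := fun j => by
              rw [OrderHom.comp_coe, Function.comp_apply, sg_apply, Fin.succ_predAbove_succ]
              rfl
            by_cases hc : ∀ i : Fin m, f i.succ ≠ 0
            · rw [act_c A f h0 hc]
              have h2 : ∀ j : Fin (m + 1), (f.comp (sg i.succ)) j.succ ≠ 0 := fun j => by
                rw [e2]
                exact hc _
              rw [act_c A _ e1 h2]
              have h4 : pc (f.comp (sg i.succ)) h2 = (pc f hc).comp (sg i) := by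
                apply OrderHom.ext
                funext j
                apply Fin.ext
                show ((f.comp (sg i.succ)) j.succ).val - 1 = (f ((sg i) j).succ).val - 1
                rw [e2]
              rw [h4]
              exact ih n m (by omega) A.Dec (pc f hc) i
            · cases m with
              | zero => exact (hc fun i => i.elim0).elim
              | succ m =>
                have h1 := case1 f hc
                have e3 : (f.comp (sg i.succ)) 1 = 0 := by
                  rw [← Fin.succ_zero_eq_one, e2, sg_apply]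
                  have : i.predAbove 0 = 0 := by
                    apply Fin.ext
                    simp [Fin.predAbove]
                  rw [this, Fin.succ_zero_eq_one]
                  exact h1
                rw [act_b A f h0 h1, act_b A _ e1 e3]
                have h4 : tl (f.comp (sg i.succ)) = (tl f).comp (sg i) := by
                  apply OrderHom.ext
                  funext j
                  exact e2 j
                rw [h4, ih (n + 1) (m + 1) (by omega) A (tl f) i, Category.assoc, Category.assoc]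
                have h5 := A.dd (m + 1) 0 i (Fin.zero_le _)
                rw [Fin.castSucc_zero] at h5
                rw [h5]

theorem act_id : ∀ (n : ℕ) (A : GenA C), act n n A OrderHom.id = 𝟙 (A.A n) := by
  intro n
  induction n with
  | zero => intro A; exact act_zero A _
  | succ n ih =>
    intro A
    have h1 : ∀ j : Fin n, (OrderHom.id : Fin (n + 1) →o Fin (n + 1)) j.succ ≠ 0 := fun j =>
      Fin.succ_ne_zero j
    rw [act_c A _ rfl h1]
    exact ih A.Dec

end GenA

/-! ## Induction on monotone maps -/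

/-- all monotone maps are composites of cofaces and codegeneracies -/
theorem mo_induction {P : ∀ m n : ℕ, Mo m n → Prop} (hid : ∀ n, P n n OrderHom.id)
    (hd : ∀ n (i : Fin (n + 2)), P n (n + 1) (dlt i)) (hs : ∀ n (i : Fin (n + 1)), P (n + 1) n (sgm i))
    (hc : ∀ l m n (f : Mo m n) (g : Mo l m), P m n f → P l m g → P l n (f.comp g)) :
    ∀ (m n : ℕ) (f : Mo m n), P m n f := by
  have key : ∀ (N m n : ℕ), m + n ≤ N → ∀ f : Mo m n, P m n f := by
    intro N
    induction N with
    | zero =>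
      intro m n h f
      obtain ⟨rfl, rfl⟩ : m = 0 ∧ n = 0 := by omega
      have : f = OrderHom.id := OrderHom.ext _ _ (funext fun x => Subsingleton.elim (α := Fin 1) _ _)
      rw [this]
      exact hid 0
    | succ N ih =>
      intro m n h f
      by_cases hi : Function.Injective f
      · by_cases hj : Function.Surjective f
        · have hmn : m = n := by
            have h1 := Fintype.card_le_of_injective _ hi
            have h2 := Fintype.card_le_of_surjective _ hj
            simp only [Fintype.card_fin] at h1 h2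
            omega
          subst hmn
          have hs : StrictMono f := f.monotone.strictMono_of_injective hi
          let e : Fin (m + 1) ≃o Fin (m + 1) := StrictMono.orderIsoOfSurjective f hs hj
          have he : e = OrderIso.refl _ := Subsingleton.elim _ _
          have : f = OrderHom.id := by
            refine OrderHom.ext _ _ (funext fun x => ?_)
            have h1 : e x = x := by rw [he]; rfl
            exact h1
          rw [this]
          exact hid m
        · cases n with
          | zero => exact (hj fun y => ⟨0, Subsingleton.elim (α := Fin 1) _ _⟩).elim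
          | succ n =>
            obtain ⟨i, g, rfl⟩ := exists_dlt f hj
            exact hc _ _ _ _ _ (hd n i) (ih m n (by omega) g)
      · cases m with
        | zero => exact (hi fun x y _ => Subsingleton.elim (α := Fin 1) x y).elim
        | succ m =>
          obtain ⟨i, g, rfl⟩ := exists_sgm f hi
          exact hc _ _ _ _ _ (ih m n (by omega) g) (hs m i)
  exact fun m n f => key (m + n) m n le_rfl f

namespace GenA

variable {C : Type u} [Category.{v} C]

theorem act_comp (A : GenA C) {l m n : ℕ} (f : Mo m n) (g : Mo l m) :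
    act (n + 1) (l + 1) A (f.comp g) = act (n + 1) (m + 1) A f ≫ act (m + 1) (l + 1) A g := by
  revert n f
  refine mo_induction (P := fun l m g => ∀ {n : ℕ} (f : Mo m n),
    act (n + 1) (l + 1) A (f.comp g) = act (n + 1) (m + 1) A f ≫ act (m + 1) (l + 1) A g) ?_ ?_ ?_ ?_ l m g
  · intro m n f
    rw [act_id, Category.comp_id]
    rfl
  · intro m i n f
    have h1 := act_dl _ (m + 1 + 1) (m + 1) le_rfl A OrderHom.id i
    rw [act_id, Category.id_comp] at h1
    have h2 : act (m + 1 + 1) (m + 1) A (dlt i) = A.face (m + 1) i := h1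
    rw [h2]
    exact act_dl _ (n + 1) (m + 1) le_rfl A f i
  · intro m i n f
    have h1 := act_sg _ (m + 1) (m + 1) le_rfl A OrderHom.id i
    rw [act_id, Category.id_comp] at h1
    have h2 : act (m + 1) (m + 1 + 1) A (sgm i) = A.deg (m + 1) i := h1
    rw [h2]
    exact act_sg _ (n + 1) (m + 1) le_rfl A f i
  · intro l m k f g hf hg n h
    rw [hg f, ← Category.assoc, ← hf h]
    exact hg (h.comp f)

theorem act_dlt (A : GenA C) {n : ℕ} (i : Fin (n + 2)) :
    act (n + 1 + 1) (n + 1) A (dlt i) = A.face (n + 1) i := by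
  have h1 := act_dl _ (n + 1 + 1) (n + 1) le_rfl A OrderHom.id i
  rw [act_id, Category.id_comp] at h1
  exact h1

theorem act_sgm (A : GenA C) {n : ℕ} (i : Fin (n + 1)) :
    act (n + 1) (n + 1 + 1) A (sgm i) = A.deg (n + 1) i := by
  have h1 := act_sg _ (n + 1) (n + 1) le_rfl A OrderHom.id i
  rw [act_id, Category.id_comp] at h1
  exact h1

end GenA

/-! ## Simplicial vector spaces -/

/-- a simplicial vector space given by faces and degeneracies -/
structure GenSV where
  V : ℕ → Type
  [grp : ∀ n, AddCommGroup (V n)]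
  [mod : ∀ n, Module (ZMod 2) (V n)]
  face : ∀ n, Fin (n + 2) → (V (n + 1) →ₗ[ZMod 2] V n)
  deg : ∀ n, Fin (n + 1) → (V n →ₗ[ZMod 2] V (n + 1))
  ff : ∀ n (i j : Fin (n + 2)), i ≤ j → ∀ x,
    face n i (face (n + 1) j.succ x) = face n j (face (n + 1) i.castSucc x)
  dd : ∀ n (i j : Fin (n + 1)), i ≤ j → ∀ x,
    deg (n + 1) i.castSucc (deg n j x) = deg (n + 1) j.succ (deg n i x)
  df1 : ∀ n (i : Fin (n + 2)) (j : Fin (n + 1)), i ≤ j.castSucc → ∀ x,
    face (n + 1) i.castSucc (deg (n + 1) j.succ x) = deg n j (face n i x)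
  df2 : ∀ n (j : Fin (n + 1)) x, face n j.castSucc (deg n j x) = x
  df3 : ∀ n (j : Fin (n + 1)) x, face n j.succ (deg n j x) = x
  df4 : ∀ n (i : Fin (n + 2)) (j : Fin (n + 1)), j.castSucc < i → ∀ x,
    face (n + 1) i.succ (deg (n + 1) j.castSucc x) = deg n j (face n i x)

attribute [instance] GenSV.grp GenSV.mod

namespace GenSV

/-- the augmented object with the value `0` at the empty ordinal -/
noncomputable def toA (G : GenSV) : GenA (ModuleCat.{0} (ZMod 2)) where
  A k := match k with
    | 0 => ModuleCat.of (ZMod 2) PUnit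
    | k + 1 => ModuleCat.of (ZMod 2) (G.V k)
  face k := match k with
    | 0 => fun _ => 0
    | k + 1 => fun i => ModuleCat.ofHom (G.face k i)
  deg k := match k with
    | 0 => fun i => i.elim0
    | k + 1 => fun i => ModuleCat.ofHom (G.deg k i)
  ff k i j h := by
    cases k with
    | zero => rw [Subsingleton.elim (α := Fin 1) i 0, Subsingleton.elim (α := Fin 1) j 0]; simp
    | succ k =>
      apply ModuleCat.hom_ext
      apply LinearMap.ext
      intro x
      exact G.ff k i j h x
  dd k i j h := by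
    cases k with
    | zero => exact i.elim0
    | succ k =>
      apply ModuleCat.hom_ext
      apply LinearMap.ext
      intro x
      exact G.dd k i j h x
  df1 k i j h := by
    cases k with
    | zero => exact j.elim0
    | succ k =>
      apply ModuleCat.hom_ext
      apply LinearMap.ext
      intro x
      exact G.df1 k i j h x
  df2 k j := by
    cases k with
    | zero => exact j.elim0
    | succ k =>
      apply ModuleCat.hom_ext
      apply LinearMap.ext
      intro x
      exact G.df2 k j x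
  df3 k j := by
    cases k with
    | zero => exact j.elim0
    | succ k =>
      apply ModuleCat.hom_ext
      apply LinearMap.ext
      intro x
      exact G.df3 k j x
  df4 k i j h := by
    cases k with
    | zero => exact j.elim0
    | succ k =>
      apply ModuleCat.hom_ext
      apply LinearMap.ext
      intro x
      exact G.df4 k i j h x

/-- the simplicial vector space -/
noncomputable abbrev sv (G : GenSV) : SV where
  V := G.V
  act {m n} f := (GenA.act (n + 1) (m + 1) G.toA f).hom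
  act_id {n} x := by
    rw [GenA.act_id]
    rfl
  act_comp f g x := by
    rw [GenA.act_comp]
    rfl

@[simp] theorem sv_V (G : GenSV) (n : ℕ) : G.sv.V n = G.V n := rfl

theorem sv_dlt (G : GenSV) {n : ℕ} (i : Fin (n + 2)) (x : G.V (n + 1)) :
    G.sv.act (dlt i : Mo n (n + 1)) x = G.face n i x := by
  show (GenA.act (n + 1 + 1) (n + 1) G.toA (dlt i)).hom x = _
  rw [GenA.act_dlt]
  rfl

theorem sv_sgm (G : GenSV) {n : ℕ} (i : Fin (n + 1)) (x : G.V n) :
    G.sv.act (sgm i : Mo (n + 1) n) x = G.deg n i x := by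
  show (GenA.act (n + 1) (n + 1 + 1) G.toA (sgm i)).hom x = _
  rw [GenA.act_sgm]
  rfl

/-- the differential -/
theorem sv_d (G : GenSV) (n : ℕ) (x : G.V (n + 1)) : G.sv.d n x = ∑ i, G.face n i x := by
  unfold SV.d
  rw [LinearMap.sum_apply]
  exact Finset.sum_congr rfl fun i _ => G.sv_dlt i x

end GenSV

/-- levelwise linear maps of simplicial vector spaces which commute with faces and degeneracies commute with
everything -/
theorem nat_of_gen {A B : SV} (φ : ∀ n, A.V n →ₗ[ZMod 2] B.V n)
    (hf : ∀ n (i : Fin (n + 2)) x, φ n (A.act (dlt i : Mo n (n + 1)) x) = B.act (dlt i : Mo n (n + 1)) (φ (n + 1) x))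
    (hd : ∀ n (i : Fin (n + 1)) x, φ (n + 1) (A.act (sgm i : Mo (n + 1) n) x) = B.act (sgm i : Mo (n + 1) n) (φ n x))
    {m n : ℕ} (f : Mo m n) (x : A.V n) : φ m (A.act f x) = B.act f (φ n x) := by
  revert x
  refine mo_induction (P := fun m n f => ∀ x : A.V n, φ m (A.act f x) = B.act f (φ n x)) ?_ ?_ ?_ ?_ m n f
  · intro n x
    rw [A.act_id, B.act_id]
  · exact hf
  · exact hd
  · intro l m n f g h1 h2 x
    rw [← A.act_comp, ← B.act_comp, h2, h1]

/-- the simplicial map given by levelwise linear maps which commute with faces and degeneracies -/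
def SVHom.ofGen {A B : SV} (φ : ∀ n, A.V n →ₗ[ZMod 2] B.V n)
    (hf : ∀ n (i : Fin (n + 2)) x, φ n (A.act (dlt i : Mo n (n + 1)) x) = B.act (dlt i : Mo n (n + 1)) (φ (n + 1) x))
    (hd : ∀ n (i : Fin (n + 1)) x, φ (n + 1) (A.act (sgm i : Mo (n + 1) n) x) = B.act (sgm i : Mo (n + 1) n) (φ n x)) :
    SVHom A B := ⟨φ, fun f x => nat_of_gen φ hf hd f x⟩

/-- the same for maps of simplicial vector spaces given by generators -/
noncomputable def SVHom.ofGen' {G G' : GenSV} (φ : ∀ n, G.V n →ₗ[ZMod 2] G'.V n)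
    (hf : ∀ n (i : Fin (n + 2)) x, φ n (G.face n i x) = G'.face n i (φ (n + 1) x))
    (hd : ∀ n (i : Fin (n + 1)) x, φ (n + 1) (G.deg n i x) = G'.deg n i (φ n x)) :
    SVHom G.sv G'.sv :=
  SVHom.ofGen (A := G.sv) (B := G'.sv) φ
    (fun n i x => by rw [G'.sv_dlt, ← hf]; exact congrArg (φ n) (G.sv_dlt i x))
    (fun n i x => by rw [G'.sv_sgm, ← hd]; exact congrArg (φ (n + 1)) (G.sv_sgm i x))

/-! ## Cosimplicial vector spaces -/

/-- a cosimplicial vector space given by cofaces and codegeneracies -/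
structure GenCV where
  V : ℕ → Type
  [grp : ∀ n, AddCommGroup (V n)]
  [mod : ∀ n, Module (ZMod 2) (V n)]
  cf : ∀ n, Fin (n + 2) → (V n →ₗ[ZMod 2] V (n + 1))
  cd : ∀ n, Fin (n + 1) → (V (n + 1) →ₗ[ZMod 2] V n)
  ff : ∀ n (i j : Fin (n + 2)), i ≤ j → ∀ x,
    cf (n + 1) j.succ (cf n i x) = cf (n + 1) i.castSucc (cf n j x)
  dd : ∀ n (i j : Fin (n + 1)), i ≤ j → ∀ x,
    cd n j (cd (n + 1) i.castSucc x) = cd n i (cd (n + 1) j.succ x)
  df1 : ∀ n (i : Fin (n + 2)) (j : Fin (n + 1)), i ≤ j.castSucc → ∀ x,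
    cd (n + 1) j.succ (cf (n + 1) i.castSucc x) = cf n i (cd n j x)
  df2 : ∀ n (j : Fin (n + 1)) x, cd n j (cf n j.castSucc x) = x
  df3 : ∀ n (j : Fin (n + 1)) x, cd n j (cf n j.succ x) = x
  df4 : ∀ n (i : Fin (n + 2)) (j : Fin (n + 1)), j.castSucc < i → ∀ x,
    cd (n + 1) j.castSucc (cf (n + 1) i.succ x) = cf n i (cd n j x)

attribute [instance] GenCV.grp GenCV.mod

namespace GenCV

/-- the augmented object (in the opposite category) with the value `0` at the empty ordinal -/
noncomputable def toA (G : GenCV) : GenA (ModuleCat.{0} (ZMod 2))ᵒᵖ where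
  A k := match k with
    | 0 => Opposite.op (ModuleCat.of (ZMod 2) PUnit)
    | k + 1 => Opposite.op (ModuleCat.of (ZMod 2) (G.V k))
  face k := match k with
    | 0 => fun _ => Quiver.Hom.op 0
    | k + 1 => fun i => (ModuleCat.ofHom (G.cf k i)).op
  deg k := match k with
    | 0 => fun i => i.elim0
    | k + 1 => fun i => (ModuleCat.ofHom (G.cd k i)).op
  ff k i j h := by
    cases k with
    | zero =>
      rw [Subsingleton.elim (α := Fin 1) i 0, Subsingleton.elim (α := Fin 1) j 0]
      apply Quiver.Hom.unop_inj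
      apply ModuleCat.hom_ext
      apply LinearMap.ext
      intro x
      show G.cf 0 _ (0 : G.V 0) = G.cf 0 _ (0 : G.V 0)
      rw [map_zero, map_zero]
    | succ k =>
      apply Quiver.Hom.unop_inj
      apply ModuleCat.hom_ext
      apply LinearMap.ext
      intro x
      exact G.ff k i j h x
  dd k i j h := by
    cases k with
    | zero => exact i.elim0
    | succ k =>
      apply Quiver.Hom.unop_inj
      apply ModuleCat.hom_ext
      apply LinearMap.ext
      intro x
      exact G.dd k i j h x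
  df1 k i j h := by
    cases k with
    | zero => exact j.elim0
    | succ k =>
      apply Quiver.Hom.unop_inj
      apply ModuleCat.hom_ext
      apply LinearMap.ext
      intro x
      exact G.df1 k i j h x
  df2 k j := by
    cases k with
    | zero => exact j.elim0
    | succ k =>
      apply Quiver.Hom.unop_inj
      apply ModuleCat.hom_ext
      apply LinearMap.ext
      intro x
      exact G.df2 k j x
  df3 k j := by
    cases k with
    | zero => exact j.elim0
    | succ k =>
      apply Quiver.Hom.unop_inj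
      apply ModuleCat.hom_ext
      apply LinearMap.ext
      intro x
      exact G.df3 k j x
  df4 k i j h := by
    cases k with
    | zero => exact j.elim0
    | succ k =>
      apply Quiver.Hom.unop_inj
      apply ModuleCat.hom_ext
      apply LinearMap.ext
      intro x
      exact G.df4 k i j h x

/-- the action of all monotone maps -/
noncomputable def act (G : GenCV) {m n : ℕ} (f : Mo m n) : G.V m →ₗ[ZMod 2] G.V n :=
  (GenA.act (n + 1) (m + 1) G.toA f).unop.hom

theorem act_id (G : GenCV) {n : ℕ} (x : G.V n) : G.act OrderHom.id x = x := by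
  unfold act
  rw [GenA.act_id]
  rfl

theorem act_comp (G : GenCV) {l m n : ℕ} (f : Mo l m) (g : Mo m n) (x : G.V l) :
    G.act g (G.act f x) = G.act (g.comp f) x := by
  unfold act
  rw [GenA.act_comp]
  rfl

theorem act_dlt (G : GenCV) {n : ℕ} (i : Fin (n + 2)) : G.act (dlt i : Mo n (n + 1)) = G.cf n i := by
  unfold act
  rw [GenA.act_dlt]
  rfl

theorem act_sgm (G : GenCV) {n : ℕ} (i : Fin (n + 1)) : G.act (sgm i : Mo (n + 1) n) = G.cd n i := by
  unfold act
  rw [GenA.act_sgm]
  rfl

/-- existence of the action -/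
theorem exists_act (G : GenCV) : ∃ act : ∀ {m n : ℕ}, Mo m n → (G.V m →ₗ[ZMod 2] G.V n),
    (∀ (n : ℕ) (x : G.V n), act OrderHom.id x = x) ∧
    (∀ {l m n : ℕ} (f : Mo l m) (g : Mo m n) (x : G.V l), act g (act f x) = act (g.comp f) x) ∧
    (∀ (n : ℕ) (i : Fin (n + 2)), act (dlt i : Mo n (n + 1)) = G.cf n i) ∧
    ∀ (n : ℕ) (i : Fin (n + 1)), act (sgm i : Mo (n + 1) n) = G.cd n i :=
  ⟨fun f => G.act f, fun _ x => G.act_id x, fun f g x => G.act_comp f g x, fun _ i => G.act_dlt i,
    fun _ i => G.act_sgm i⟩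

end GenCV

/-! ## Simplicial sets -/

/-- a simplicial set given by faces and degeneracies -/
structure GenSS where
  S : ℕ → Type
  face : ∀ n, Fin (n + 2) → S (n + 1) → S n
  deg : ∀ n, Fin (n + 1) → S n → S (n + 1)
  ff : ∀ n (i j : Fin (n + 2)), i ≤ j → ∀ x,
    face n i (face (n + 1) j.succ x) = face n j (face (n + 1) i.castSucc x)
  dd : ∀ n (i j : Fin (n + 1)), i ≤ j → ∀ x,
    deg (n + 1) i.castSucc (deg n j x) = deg (n + 1) j.succ (deg n i x)
  df1 : ∀ n (i : Fin (n + 2)) (j : Fin (n + 1)), i ≤ j.castSucc → ∀ x,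
    face (n + 1) i.castSucc (deg (n + 1) j.succ x) = deg n j (face n i x)
  df2 : ∀ n (j : Fin (n + 1)) x, face n j.castSucc (deg n j x) = x
  df3 : ∀ n (j : Fin (n + 1)) x, face n j.succ (deg n j x) = x
  df4 : ∀ n (i : Fin (n + 2)) (j : Fin (n + 1)), j.castSucc < i → ∀ x,
    face (n + 1) i.succ (deg (n + 1) j.castSucc x) = deg n j (face n i x)

namespace GenSS

/-- the augmented object with one point at the empty ordinal -/
def toA (G : GenSS) : GenA (Type) where
  A k := match k with
    | 0 => PUnit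
    | k + 1 => G.S k
  face k := match k with
    | 0 => fun _ => ↾fun _ => PUnit.unit
    | k + 1 => fun i => ↾fun x => G.face k i x
  deg k := match k with
    | 0 => fun i => i.elim0
    | k + 1 => fun i => ↾fun x => G.deg k i x
  ff k i j h := by
    cases k with
    | zero => rw [Subsingleton.elim (α := Fin 1) i 0, Subsingleton.elim (α := Fin 1) j 0]; rfl
    | succ k => ext x; exact G.ff k i j h x
  dd k i j h := by
    cases k with
    | zero => exact i.elim0
    | succ k => ext x; exact G.dd k i j h x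
  df1 k i j h := by
    cases k with
    | zero => exact j.elim0
    | succ k => ext x; exact G.df1 k i j h x
  df2 k j := by
    cases k with
    | zero => exact j.elim0
    | succ k => ext x; exact G.df2 k j x
  df3 k j := by
    cases k with
    | zero => exact j.elim0
    | succ k => ext x; exact G.df3 k j x
  df4 k i j h := by
    cases k with
    | zero => exact j.elim0
    | succ k => ext x; exact G.df4 k i j h x

/-- the simplicial set -/
noncomputable abbrev ss (G : GenSS) : SS where
  S := G.S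
  act {m n} f := fun x => (GenA.act (n + 1) (m + 1) G.toA f : G.S n ⟶ G.S m) x
  act_id {n} x := by
    rw [GenA.act_id]
    rfl
  act_comp f g x := by
    rw [GenA.act_comp]
    rfl

theorem ss_dlt (G : GenSS) {n : ℕ} (i : Fin (n + 2)) (x : G.S (n + 1)) :
    G.ss.act (dlt i : Mo n (n + 1)) x = G.face n i x := by
  show (GenA.act (n + 1 + 1) (n + 1) G.toA (dlt i) : G.S (n + 1) ⟶ G.S n) x = _
  rw [GenA.act_dlt]
  rfl

theorem ss_sgm (G : GenSS) {n : ℕ} (i : Fin (n + 1)) (x : G.S n) :
    G.ss.act (sgm i : Mo (n + 1) n) x = G.deg n i x := by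
  show (GenA.act (n + 1) (n + 1 + 1) G.toA (sgm i) : G.S n ⟶ G.S (n + 1)) x = _
  rw [GenA.act_sgm]
  rfl

end GenSS

/-- levelwise maps of simplicial sets which commute with faces and degeneracies are simplicial -/
theorem nat_of_gen_ss {A B : SS} (φ : ∀ n, A.S n → B.S n)
    (hf : ∀ n (i : Fin (n + 2)) x, φ n (A.act (dlt i : Mo n (n + 1)) x) = B.act (dlt i : Mo n (n + 1)) (φ (n + 1) x))
    (hd : ∀ n (i : Fin (n + 1)) x, φ (n + 1) (A.act (sgm i : Mo (n + 1) n) x) = B.act (sgm i : Mo (n + 1) n) (φ n x))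
    {m n : ℕ} (f : Mo m n) (x : A.S n) : φ m (A.act f x) = B.act f (φ n x) := by
  revert x
  refine mo_induction (P := fun m n f => ∀ x : A.S n, φ m (A.act f x) = B.act f (φ n x)) ?_ ?_ ?_ ?_ m n f
  · intro n x
    rw [A.act_id, B.act_id]
  · exact hf
  · exact hd
  · intro l m n f g h1 h2 x
    rw [← A.act_comp, ← B.act_comp, h2, h1]

/-- two actions with the same faces and degeneracies are equal -/
theorem act_eq_of_gen {A B : SV} (e : ∀ n, A.V n ≃ₗ[ZMod 2] B.V n)
    (hf : ∀ n (i : Fin (n + 2)) x, e n (A.act (dlt i : Mo n (n + 1)) x) = B.act (dlt i : Mo n (n + 1)) (e (n + 1) x))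
    (hd : ∀ n (i : Fin (n + 1)) x, e (n + 1) (A.act (sgm i : Mo (n + 1) n) x) = B.act (sgm i : Mo (n + 1) n) (e n x))
    {m n : ℕ} (f : Mo m n) (x : A.V n) : e m (A.act f x) = B.act f (e n x) :=
  nat_of_gen (fun n => (e n).toLinearMap) hf hd f x

end MM

end

/-! ### from `Lib_MP_33f7bb_d.A501` -/

section

/-!
# A5-01: from generators to functors (translation of `GenCV` into `CosRel`)
-/

namespace MM

/-- a cosimplicial vector space given by cofaces and codegeneracies is a functor on all monotone maps -/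
theorem CosRel.exists_act {V : ℕ → Type} [∀ n, AddCommGroup (V n)] [∀ n, Module (ZMod 2) (V n)]
    {cf : ∀ s : ℕ, ℕ → (V s →ₗ[ZMod 2] V (s + 1))} {cd : ∀ s : ℕ, ℕ → (V (s + 1) →ₗ[ZMod 2] V s)}
    (h : CosRel cf cd) :
    ∃ act : ∀ {m n : ℕ}, Mo m n → (V m →ₗ[ZMod 2] V n),
      (∀ {n : ℕ} (x : V n), act (OrderHom.id : Mo n n) x = x) ∧
      (∀ {l m n : ℕ} (f : Mo l m) (g : Mo m n) (x : V l), act g (act f x) = act (g.comp f) x) ∧
      (∀ s i, i < s + 2 → act (dl s i) = cf s i) ∧
      ∀ s j, j < s + 1 → act (sg s j) = cd s j := by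
  let G : GenCV :=
    { V := V
      cf := fun n i => cf n i
      cd := fun n j => cd n j
      ff := fun n i j hij x => by
        have := h.dd n i j x hij (by omega)
        simpa using this
      dd := fun n i j hij x => by
        have := h.σσ n i j x hij (by omega)
        simpa using this
      df1 := fun n i j hij x => by
        have h1 : (i : ℕ) ≤ j := by simpa [Fin.le_def] using hij
        have := h.σd_lt n i j x h1 (by omega)
        simpa using this
      df2 := fun n j x => by
        have := h.σd_eq n j x (by omega)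
        simpa using this
      df3 := fun n j x => by
        have := h.σd_eq' n j x (by omega)
        simpa using this
      df4 := fun n i j hij x => by
        have h1 : (j : ℕ) < i := by simpa [Fin.lt_def] using hij
        have := h.σd_gt n j (i - 1) x (by omega) (by omega)
        have h2 : (i : ℕ) - 1 + 1 = i := by omega
        have h3 : (i : ℕ) - 1 + 2 = i + 1 := by omega
        rw [h2, h3] at this
        simpa using this }
  refine ⟨fun {m n} g => G.act g, fun x => G.act_id x, fun f g x => G.act_comp f g x, ?_, ?_⟩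
  · intro s i hi
    rw [dl_eq hi]
    exact G.act_dlt ⟨i, hi⟩
  · intro s j hj
    rw [sg_eq hj]
    exact G.act_sgm ⟨j, hj⟩

end MM

end

/-! ### from `Lib_MP_33f7bb_d.B304` -/

section

/-!
# B3-04 (L3): simplicial commutative monoids with bijective doubling have no homology over `F₂`

`P` is a simplicial commutative monoid (additive), `x ↦ x + x` bijective in every level.  Then every cycle of
positive degree is a boundary.

Proof.  `R_n := Ch P n = F₂[P_n]` with the convolution product
`mul a b = a.sum fun x c => b.sum fun y c' => single (x + y) (c * c')` (bilinear, commutative; one may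
transport to `AddMonoidAlgebra`, but direct bilinearity is enough).  The structure maps
`mapDomain (act f)` are multiplicative.
* `Fr z := mul z z` is additive (characteristic 2, commutative): `Fr z = z.mapDomain (fun x => x + x)`
  (prove this formula by induction on `z`: `mul (a+b) (a+b) = mul a a + mul b b` as `mul a b + mul b a = 0`;
  `Fr (single x c) = single (x+x) (c*c)`, `c * c = c` in `ZMod 2`).  So `Fr` is bijective in each level and
  commutes with the structure maps.
* Moore cycles: `z ∈ Ch P (n+1)` with all faces `mapDomain (act (dlt i)) z = 0`, `i : Fin (n+2)`.  Let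
  `w = mul (s_0 z) (s_1 z)`, `s_i = mapDomain (act (sgm i))`, `w ∈ Ch P (n+2)`.  Faces (`d_i s_j`, simplicial
  identities A001): `d_0 w = z * (s_0 d_0 z) = 0`, `d_1 w = z * z`, `d_2 w = (s_0 d_1 z) * z = 0`,
  `d_i w = (s_0 d_(i-1) z) * (s_1 d_(i-1) z) = 0` for `i ≥ 3`.  So `dif w = mul z z = Fr z`.
* Given a Moore cycle `z`, `z = Fr y`; `Fr (d_i y) = d_i z = 0` so `d_i y = 0`: `y` is a Moore cycle, and
  `z = Fr y = dif (...)`.
* every cycle `z` of degree `n + 1` is homologous to a Moore cycle (A005 `exists_moore` for `lin P`; read the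
  exact statement there; `lin_d : (lin P).d n z = dif z`).
-/

namespace MM

/-- the convolution product on `F₂[S]` -/
private noncomputable def B304_mul (S : Type) [AddCommMonoid S] :
    (S →₀ ZMod 2) →ₗ[ZMod 2] (S →₀ ZMod 2) →ₗ[ZMod 2] (S →₀ ZMod 2) :=
  Finsupp.linearCombination (ZMod 2)
    (fun x : S => Finsupp.lmapDomain (ZMod 2) (ZMod 2) (fun y : S => x + y))

private theorem B304_mul_single {S : Type} [AddCommMonoid S] (x y : S) (c c' : ZMod 2) :
    B304_mul S (Finsupp.single x c) (Finsupp.single y c') = Finsupp.single (x + y) (c * c') := by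
  simp only [B304_mul, Finsupp.linearCombination_single, LinearMap.smul_apply,
    Finsupp.lmapDomain_apply, Finsupp.mapDomain_single, Finsupp.smul_single, smul_eq_mul]

private theorem B304_mul_comm {S : Type} [AddCommMonoid S] (a b : S →₀ ZMod 2) :
    B304_mul S a b = B304_mul S b a := by
  induction a using Finsupp.induction_linear with
  | zero => simp
  | add f g hf hg => rw [map_add, LinearMap.add_apply, hf, hg, map_add]
  | single x c =>
    induction b using Finsupp.induction_linear with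
    | zero => simp
    | add f g hf hg => rw [map_add, hf, hg, map_add, LinearMap.add_apply]
    | single y c' => rw [B304_mul_single, B304_mul_single, add_comm, mul_comm]

private theorem B304_map_mul {S T : Type} [AddCommMonoid S] [AddCommMonoid T] (g : S → T)
    (hg : ∀ x y, g (x + y) = g x + g y) (a b : S →₀ ZMod 2) :
    Finsupp.mapDomain g (B304_mul S a b) =
      B304_mul T (Finsupp.mapDomain g a) (Finsupp.mapDomain g b) := by
  induction a using Finsupp.induction_linear with
  | zero => simp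
  | add f h hf hh =>
    rw [map_add, LinearMap.add_apply, Finsupp.mapDomain_add, hf, hh, Finsupp.mapDomain_add,
      map_add, LinearMap.add_apply]
  | single x c =>
    induction b using Finsupp.induction_linear with
    | zero => simp
    | add f h hf hh =>
      rw [map_add, Finsupp.mapDomain_add, hf, hh, Finsupp.mapDomain_add, map_add]
    | single y c' =>
      rw [B304_mul_single, Finsupp.mapDomain_single, Finsupp.mapDomain_single,
        Finsupp.mapDomain_single, B304_mul_single, hg]

private theorem B304_mul_self {S : Type} [AddCommMonoid S] (a : S →₀ ZMod 2) :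
    B304_mul S a a = Finsupp.mapDomain (fun x => x + x) a := by
  induction a using Finsupp.induction_linear with
  | zero => simp
  | add f g hf hg =>
    have h1 : B304_mul S (f + g) (f + g) =
        B304_mul S f f + (B304_mul S f g + B304_mul S g f) + B304_mul S g g := by
      simp only [map_add, LinearMap.add_apply]
      abel
    rw [h1, B304_mul_comm g f, two_eq_zero', add_zero, hf, hg, Finsupp.mapDomain_add]
  | single x c =>
    rw [B304_mul_single, Finsupp.mapDomain_single]
    have : ∀ c : ZMod 2, c * c = c := by decide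
    rw [this]

private theorem B304_moore {P : SS} [∀ n, AddCommMonoid (P.S n)]
    (hadd : ∀ {m n : ℕ} (f : Mo m n) (x y : P.S n), P.act f (x + y) = P.act f x + P.act f y)
    (n : ℕ) (z : Ch P (n + 1))
    (hz : ∀ i : Fin (n + 2), Finsupp.mapDomain (P.act (dlt i)) z = 0) :
    ∃ w : Ch P (n + 2), dif w = Finsupp.mapDomain (fun x => x + x) z := by
  have hcomp : ∀ {l m : ℕ} (f : Mo l m) (g : Mo m (n + 1)),
      Finsupp.mapDomain (P.act f) (Finsupp.mapDomain (P.act g) z) =
        Finsupp.mapDomain (P.act (g.comp f)) z := by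
    intro l m f g
    rw [← Finsupp.mapDomain_comp]
    congr 1
    exact funext fun x => P.act_comp f g x
  have hid : Finsupp.mapDomain (P.act (OrderHom.id : Mo (n + 1) (n + 1))) z = z := by
    have : P.act (OrderHom.id : Mo (n + 1) (n + 1)) = _root_.id := funext fun x => P.act_id x
    rw [this, Finsupp.mapDomain_id]
  have hzero : ∀ {m : ℕ} (i : Fin (n + 2)) (g : Mo m n),
      Finsupp.mapDomain (P.act ((dlt i).comp g)) z = 0 := by
    intro m i g
    rw [← hcomp, hz i, Finsupp.mapDomain_zero]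
  refine ⟨B304_mul (P.S (n + 2)) (Finsupp.mapDomain (P.act (sgm (0 : Fin (n + 1)).castSucc)) z)
    (Finsupp.mapDomain (P.act (sgm (0 : Fin (n + 1)).succ)) z), ?_⟩
  unfold dif
  rw [Finset.sum_eq_single (0 : Fin (n + 2)).succ]
  · rw [B304_map_mul _ (hadd _), hcomp, hcomp]
    have h1 : (sgm (0 : Fin (n + 1)).castSucc).comp (dlt (0 : Fin (n + 2)).succ) =
        (OrderHom.id : Mo (n + 1) (n + 1)) := sgm_comp_dlt_succ (n := n + 1) 0
    have h2 : (sgm (0 : Fin (n + 1)).succ).comp (dlt (0 : Fin (n + 2)).succ) =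
        (OrderHom.id : Mo (n + 1) (n + 1)) := sgm_comp_dlt_castSucc (n := n + 1) 1
    rw [h1, h2, hid, B304_mul_self]
  · intro i _ hi
    rw [B304_map_mul _ (hadd _), hcomp, hcomp]
    refine Fin.cases ?_ (fun k => ?_) i (motive := fun i => i ≠ (0 : Fin (n + 2)).succ →
      B304_mul (P.S (n + 1)) (Finsupp.mapDomain (P.act ((sgm (0 : Fin (n + 1)).castSucc).comp (dlt i))) z)
        (Finsupp.mapDomain (P.act ((sgm (0 : Fin (n + 1)).succ).comp (dlt i))) z) = 0) hi
    · intro _
      have h1 : (sgm (0 : Fin (n + 1)).succ).comp (dlt (0 : Fin (n + 3))) =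
          (dlt (0 : Fin (n + 2))).comp (sgm (0 : Fin (n + 1))) :=
        sgm_comp_dlt_of_le (n := n) 0 0 (Fin.zero_le _)
      rw [h1, hzero, map_zero]
    · intro hk
      have hk' : (0 : Fin (n + 1)).castSucc < k := by
        rw [Fin.castSucc_zero]
        refine Fin.pos_iff_ne_zero.2 fun h => hk (by rw [h])
      rw [sgm_comp_dlt_of_gt (n := n) k 0 hk', hzero, map_zero, LinearMap.zero_apply]
  · intro h
    exact absurd (Finset.mem_univ _) h

theorem perf_cycle {P : SS} [∀ n, AddCommMonoid (P.S n)]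
    (hadd : ∀ {m n : ℕ} (f : Mo m n) (x y : P.S n), P.act f (x + y) = P.act f x + P.act f y)
    (hbij : ∀ n, Function.Bijective (fun x : P.S n => x + x)) (n : ℕ) (z : Ch P (n + 1))
    (hz : dif z = 0) : ∃ w : Ch P (n + 2), dif w = z := by
  obtain ⟨w, hw⟩ := exists_moore (lin P) (n := n + 1) z
    (show (lin P).d n z = 0 by rw [lin_d]; exact hz)
  rw [moore_iff, lin_d] at hw
  have hw' : ∀ i : Fin (n + 2), Finsupp.mapDomain (P.act (dlt i)) (z + dif w) = 0 := hw
  -- the root
  let e : P.S (n + 1) ≃ P.S (n + 1) := Equiv.ofBijective _ (hbij (n + 1))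
  have he : ∀ y : Ch P (n + 1),
      Finsupp.mapDomain (fun x => x + x) (Finsupp.mapDomain e.symm y) = y := by
    intro y
    rw [← Finsupp.mapDomain_comp]
    have : (fun x : P.S (n + 1) => x + x) ∘ e.symm = _root_.id :=
      funext fun x => e.apply_symm_apply x
    rw [this, Finsupp.mapDomain_id]
  have hface : ∀ i : Fin (n + 2),
      Finsupp.mapDomain (P.act (dlt i)) (Finsupp.mapDomain e.symm (z + dif w)) = 0 := by
    intro i
    apply Finsupp.mapDomain_injective (hbij n).1
    rw [Finsupp.mapDomain_zero, ← hw' i]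
    conv_rhs => rw [← he (z + dif w)]
    rw [← Finsupp.mapDomain_comp, ← Finsupp.mapDomain_comp (f := fun x => x + x)]
    congr 1
    exact funext fun x => (hadd (dlt i) x x).symm
  obtain ⟨v, hv⟩ := B304_moore hadd n _ hface
  rw [he] at hv
  refine ⟨v + w, ?_⟩
  rw [dif_add, hv, add_assoc, two_eq_zero', add_zero]

end MM

end
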