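import Pool.Agent.Lib_MP_33f7bb_an.Defs

/-!
# MP_33f7bb_an, negative answer to Q1: merged library part G07

Concatenation of files of `Lib_MP_33f7bb_an` and `Lib_MP_33f7bb_d` (each in its own section), only to save build time.
-/

/-! ### from `Lib_MP_33f7bb_an.RAD` -/

section

/-! Piece RAD: radial homeomorphisms between normed spaces of the same dimension. -/

open Set Filter Topology

namespace SMD

/-- the radial map of a linear equivalence -/
noncomputable def radMap {V V' : Type} [NormedAddCommGroup V] [NormedSpace ℝ V]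
    [NormedAddCommGroup V'] [NormedSpace ℝ V'] (L : V ≃L[ℝ] V') (v : V) : V' :=
  (‖v‖ / ‖L v‖) • L v

theorem radMap_norm {V V' : Type} [NormedAddCommGroup V] [NormedSpace ℝ V]
    [NormedAddCommGroup V'] [NormedSpace ℝ V'] (L : V ≃L[ℝ] V') (v : V) :
    ‖radMap L v‖ = ‖v‖ := by
  unfold radMap
  rw [norm_smul, Real.norm_of_nonneg (div_nonneg (norm_nonneg _) (norm_nonneg _))]
  by_cases hv : v = 0
  · simp [hv]
  · have h1 : ‖L v‖ ≠ 0 := by
      rw [norm_ne_zero_iff]
      exact fun h => hv (L.map_eq_zero_iff.1 h)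
    rw [div_mul_cancel₀ _ h1]

theorem radMap_inv {V V' : Type} [NormedAddCommGroup V] [NormedSpace ℝ V]
    [NormedAddCommGroup V'] [NormedSpace ℝ V'] (L : V ≃L[ℝ] V') (v : V) :
    radMap L.symm (radMap L v) = v := by
  by_cases hv : v = 0
  · simp [radMap, hv]
  · have h1 : ‖L v‖ ≠ 0 := by
      rw [norm_ne_zero_iff]
      exact fun h => hv (L.map_eq_zero_iff.1 h)
    have h2 : ‖v‖ ≠ 0 := norm_ne_zero_iff.2 hv
    have h3 : ‖radMap L v‖ = ‖v‖ := radMap_norm L v
    have h4 : L.symm (radMap L v) = (‖v‖ / ‖L v‖) • v := by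
      unfold radMap
      rw [map_smul, ContinuousLinearEquiv.symm_apply_apply]
    have h5 : ‖L.symm (radMap L v)‖ = ‖v‖ / ‖L v‖ * ‖v‖ := by
      rw [h4, norm_smul, Real.norm_of_nonneg (div_nonneg (norm_nonneg _) (norm_nonneg _))]
    have h6 : radMap L.symm (radMap L v) =
        (‖radMap L v‖ / ‖L.symm (radMap L v)‖) • L.symm (radMap L v) := rfl
    rw [h6, h5, h4, h3, smul_smul]
    have h7 : ‖v‖ / (‖v‖ / ‖L v‖ * ‖v‖) * (‖v‖ / ‖L v‖) = 1 := by
      field_simp
    rw [h7, one_smul]

theorem radMap_cont {V V' : Type} [NormedAddCommGroup V] [NormedSpace ℝ V]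
    [NormedAddCommGroup V'] [NormedSpace ℝ V'] (L : V ≃L[ℝ] V') : Continuous (radMap L) := by
  rw [continuous_iff_continuousAt]
  intro v
  by_cases hv : v = 0
  · subst hv
    have h0 : radMap L 0 = 0 := by simp [radMap]
    unfold ContinuousAt
    rw [h0]
    refine squeeze_zero_norm (a := fun v : V => ‖v‖) (fun v => (radMap_norm L v).le) ?_
    have := (continuous_norm (E := V)).tendsto 0
    rwa [norm_zero] at this
  · have h1 : ‖L v‖ ≠ 0 := by
      rw [norm_ne_zero_iff]
      exact fun h => hv (L.map_eq_zero_iff.1 h)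
    exact (continuous_norm.continuousAt.div L.continuous.norm.continuousAt h1).smul
      L.continuous.continuousAt

/-- PROOF. Take a continuous linear equivalence `L : V ≃L[ℝ] V'` (equal finranks,
`ContinuousLinearEquiv.ofFinrankEq`).  Put `h v = (‖v‖ / ‖L v‖) • L v` (so `h 0 = 0`) and
`h' w = (‖w‖ / ‖L.symm w‖) • L.symm w`.  They are inverse to each other, `‖h v‖ = ‖v‖`; continuity
at `v ≠ 0` is clear, at `0` it follows from `‖h v‖ = ‖v‖`. -/
theorem exists_radial (V V' : Type) [NormedAddCommGroup V] [NormedSpace ℝ V]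
    [FiniteDimensional ℝ V] [NormedAddCommGroup V'] [NormedSpace ℝ V'] [FiniteDimensional ℝ V']
    (h : Module.finrank ℝ V = Module.finrank ℝ V') :
    ∃ e : V ≃ₜ V', ∀ v, ‖e v‖ = ‖v‖ := by
  obtain ⟨L⟩ : Nonempty (V ≃L[ℝ] V') := ⟨ContinuousLinearEquiv.ofFinrankEq h⟩
  refine ⟨{ toFun := radMap L
            invFun := radMap L.symm
            left_inv := radMap_inv L
            right_inv := fun w => by
              have := radMap_inv L.symm w
              rwa [ContinuousLinearEquiv.symm_symm] at this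
            continuous_toFun := radMap_cont L
            continuous_invFun := radMap_cont L.symm }, radMap_norm L⟩

end SMD

end

/-! ### from `Lib_MP_33f7bb_an.GENV` -/

section

/-! Piece GENV: from the definition with `ℝ^k` to arbitrary normed spaces. -/

open Set Filter Topology

namespace SMD

/-- PROOF. Given `A, V, W, F`: let `n = finrank V`, `e : V ≃ₜ (Fin n → ℝ)` with `‖e v‖ = ‖v‖`
(`exists_radial`), `L : W ≃L[ℝ] (Fin (j + n) → ℝ)` (equal finranks).  Apply the hypothesis to
`F' (x, t) = L (F (x, e.symm t))`; it has no zeros for `x ∈ A` or `‖t‖ ≥ 1`.  We get `l` and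
`G'`; take the space `Fin l → ℝ` and
`G ((x, v), s) = (L.symm (G' ((x, e v), s)).1, (G' ((x, e v), s)).2)`. -/
theorem SI_of_stableDim {X : Type*} [TopologicalSpace X] {c : ℕ} (h : StableDimLE X c) :
    ∀ j, c < j → SI X j := by
  intro j hj A hA V _ _ _ W _ _ _ hfr F hF hF0
  obtain ⟨n, hn⟩ : ∃ n : ℕ, n = Module.finrank ℝ V := ⟨_, rfl⟩
  obtain ⟨e, he⟩ := exists_radial V (Fin n → ℝ) (by rw [Module.finrank_fin_fun]; exact hn.symm)
  have hes : ∀ t, ‖e.symm t‖ = ‖t‖ := by
    intro t
    rw [← he (e.symm t), Homeomorph.apply_symm_apply]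
  let L : W ≃L[ℝ] (Fin (j + n) → ℝ) :=
    ContinuousLinearEquiv.ofFinrankEq (by rw [Module.finrank_fin_fun, hfr, hn])
  obtain ⟨l, G', hG', hG0, hG1⟩ := h j hj A hA n (fun p => L (F (p.1, e.symm p.2)))
    (L.continuous.comp (hF.comp (continuous_fst.prodMk (e.symm.continuous.comp continuous_snd))))
    (by
      intro x t hxt h0
      have h1 : F (x, e.symm t) = 0 := by
        simpa using h0
      refine hF0 x (e.symm t) ?_ h1
      rcases hxt with hx | ht
      · exact Or.inl hx
      · right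
        rw [hes]
        exact ht)
  refine ⟨Fin l → ℝ, inferInstance, inferInstance, inferInstance,
    fun p => (L.symm (G' ((p.1.1, e p.1.2), p.2)).1, (G' ((p.1.1, e p.1.2), p.2)).2), ?_, ?_, ?_⟩
  · have hc : Continuous (fun p : (X × V) × (Fin l → ℝ) => G' ((p.1.1, e p.1.2), p.2)) := by
      refine hG'.comp ?_
      exact ((continuous_fst.comp continuous_fst).prodMk
        (e.continuous.comp (continuous_snd.comp continuous_fst))).prodMk continuous_snd
    exact (L.symm.continuous.comp (continuous_fst.comp hc)).prodMk (continuous_snd.comp hc)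
  · intro p h0
    have h1 := congrArg Prod.fst h0
    have h2 := congrArg Prod.snd h0
    simp only [Prod.fst_zero, Prod.snd_zero] at h1 h2
    have h3 : (G' ((p.1.1, e p.1.2), p.2)).1 = 0 := by
      simpa using h1
    exact hG0 _ (Prod.ext h3 h2)
  · rintro ⟨x, v⟩ s hz
    have h1 : x ∈ A ∨ 1 ≤ ‖e v‖ ∨ 1 ≤ ‖s‖ := by
      rw [he]
      rcases hz with (h1 | h1) | h1
      · exact Or.inl h1
      · exact Or.inr (Or.inl h1)
      · exact Or.inr (Or.inr h1)
    have h2 := hG1 x (e v) s h1
    simp only [h2, Homeomorph.symm_apply_apply, ContinuousLinearEquiv.symm_apply_apply]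

end SMD

end

/-! ### from `Lib_MP_33f7bb_an.SIMPH` -/

section

/-! Piece SIMPH: the standard simplex is homeomorphic to a ball, boundary to boundary. -/

open Set Filter Topology

namespace SMD

/-- the solid simplex -/
private def simphS (n : ℕ) : Set (Fin n → ℝ) := {x | (∀ i, 0 ≤ x i) ∧ ∑ i, x i ≤ 1}

private theorem simph_closed (n : ℕ) : IsClosed (simphS n) := by
  have h1 : IsClosed {x : Fin n → ℝ | ∀ i, 0 ≤ x i} := by
    have : {x : Fin n → ℝ | ∀ i, 0 ≤ x i} = ⋂ i, {x : Fin n → ℝ | 0 ≤ x i} := by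
      ext x; simp
    rw [this]
    exact isClosed_iInter fun i => isClosed_le continuous_const (continuous_apply i)
  have h2 : IsClosed {x : Fin n → ℝ | ∑ i, x i ≤ 1} :=
    isClosed_le (continuous_finsetSum _ fun i _ => continuous_apply i) continuous_const
  exact h1.inter h2

private theorem simph_convex (n : ℕ) : Convex ℝ (simphS n) := by
  intro x hx y hy a b ha hb hab
  constructor
  · intro i
    have h1 := mul_nonneg ha (hx.1 i)
    have h2 := mul_nonneg hb (hy.1 i)
    simp only [Pi.add_apply, Pi.smul_apply, smul_eq_mul]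
    linarith
  · simp only [Pi.add_apply, Pi.smul_apply, smul_eq_mul]
    rw [Finset.sum_add_distrib, ← Finset.mul_sum, ← Finset.mul_sum]
    have h1 := mul_le_mul_of_nonneg_left hx.2 ha
    have h2 := mul_le_mul_of_nonneg_left hy.2 hb
    linarith

private theorem simph_bounded (n : ℕ) : Bornology.IsBounded (simphS n) := by
  refine (Metric.isBounded_closedBall (x := (0 : Fin n → ℝ)) (r := 1)).subset ?_
  intro x hx
  rw [mem_closedBall_zero_iff, pi_norm_le_iff_of_nonneg zero_le_one]
  intro i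
  rw [Real.norm_eq_abs, abs_of_nonneg (hx.1 i)]
  exact (Finset.single_le_sum (f := x) (fun j _ => hx.1 j) (Finset.mem_univ i)).trans hx.2

private theorem simph_interior (n : ℕ) (x : Fin n → ℝ) :
    x ∈ interior (simphS n) ↔ (∀ i, 0 < x i) ∧ ∑ i, x i < 1 := by
  constructor
  · intro hx
    rw [mem_interior_iff_mem_nhds] at hx
    have key : ∀ i : Fin n, ∀ᶠ r : ℝ in 𝓝 0, x + r • Pi.single i (1 : ℝ) ∈ simphS n := by
      intro i
      have hc : ContinuousAt (fun r : ℝ => x + r • (Pi.single i (1 : ℝ) : Fin n → ℝ)) 0 := by fun_prop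
      have := hc.preimage_mem_nhds (t := simphS n) (by simpa using hx)
      exact this
    constructor
    · intro i
      obtain ⟨r, h1, h2⟩ := ((key i).filter_mono nhdsWithin_le_nhds).and
        (self_mem_nhdsWithin (a := (0 : ℝ)) (s := Iio 0)) |>.exists
      have h3 := h1.1 i
      simp only [Pi.add_apply, Pi.smul_apply, Pi.single_eq_same, smul_eq_mul, mul_one] at h3
      have h4 : r < 0 := h2
      linarith
    · rcases Nat.eq_zero_or_pos n with rfl | hn
      · simp
      · obtain ⟨r, h1, h2⟩ := ((key ⟨0, hn⟩).filter_mono nhdsWithin_le_nhds).and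
          (self_mem_nhdsWithin (a := (0 : ℝ)) (s := Ioi 0)) |>.exists
        have h3 := h1.2
        simp only [Pi.add_apply, Pi.smul_apply, smul_eq_mul] at h3
        rw [Finset.sum_add_distrib, ← Finset.mul_sum, Finset.sum_pi_single'] at h3
        simp only [Finset.mem_univ, if_true, mul_one] at h3
        have h4 : 0 < r := h2
        linarith
  · intro hx
    have ho : IsOpen {x : Fin n → ℝ | (∀ i, 0 < x i) ∧ ∑ i, x i < 1} := by
      have h1 : IsOpen {x : Fin n → ℝ | ∀ i, 0 < x i} := by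
        have : {x : Fin n → ℝ | ∀ i, 0 < x i} = ⋂ i, {x : Fin n → ℝ | 0 < x i} := by
          ext x; simp
        rw [this]
        exact isOpen_iInter_of_finite fun i => isOpen_lt continuous_const (continuous_apply i)
      have h2 : IsOpen {x : Fin n → ℝ | ∑ i, x i < 1} :=
        isOpen_lt (continuous_finsetSum _ fun i _ => continuous_apply i) continuous_const
      exact h1.inter h2
    have hsub : {x : Fin n → ℝ | (∀ i, 0 < x i) ∧ ∑ i, x i < 1} ⊆ simphS n := by
      intro y hy
      exact ⟨fun i => (hy.1 i).le, hy.2.le⟩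
    exact interior_maximal hsub ho hx

private theorem simph_nonempty (n : ℕ) : (interior (simphS n)).Nonempty := by
  refine ⟨fun _ => 1 / ((n : ℝ) + 1), ?_⟩
  rw [simph_interior]
  refine ⟨fun _ => by positivity, ?_⟩
  rw [Finset.sum_const, Finset.card_univ, Fintype.card_fin, nsmul_eq_mul, mul_one_div, div_lt_one (by positivity)]
  linarith

private theorem simph_sum {n : ℕ} (t : stdSimplex ℝ (Fin (n + 1))) :
    ∑ i : Fin n, (t : Fin (n + 1) → ℝ) (Fin.castSucc i) + (t : Fin (n + 1) → ℝ) (Fin.last n) = 1 := by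
  have h4 : ∑ i : Fin (n + 1), (t : Fin (n + 1) → ℝ) i = 1 := t.2.2
  rwa [Fin.sum_univ_castSucc] at h4

private theorem simph_nonneg {n : ℕ} (t : stdSimplex ℝ (Fin (n + 1))) (i : Fin (n + 1)) :
    0 ≤ (t : Fin (n + 1) → ℝ) i := t.2.1 i

private theorem simph_aux (n : ℕ) :
    ∃ e : stdSimplex ℝ (Fin (n + 1)) ≃ₜ Metric.closedBall (0 : Fin n → ℝ) 1,
      ∀ t : stdSimplex ℝ (Fin (n + 1)), (∃ i, (t : Fin (n + 1) → ℝ) i = 0) ↔ ‖(e t : Fin n → ℝ)‖ = 1 := by
  obtain ⟨h, h1, h2, h3⟩ := exists_homeomorph_image_interior_closure_frontier_eq_unitBall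
    (simph_convex n) (simph_nonempty n) (simph_bounded n)
  rw [(simph_closed n).closure_eq] at h2
  have hm : ∀ x, x ∈ simphS n ↔ h x ∈ Metric.closedBall (0 : Fin n → ℝ) 1 := by
    intro x
    rw [← h2, h.injective.mem_set_image]
  have hi : ∀ x, x ∈ interior (simphS n) ↔ ‖h x‖ < 1 := by
    intro x
    rw [← mem_ball_zero_iff, ← h1, h.injective.mem_set_image]
  have hfwd : ∀ t : stdSimplex ℝ (Fin (n + 1)), (fun i : Fin n => (t : Fin (n + 1) → ℝ) (Fin.castSucc i)) ∈ simphS n := by
    intro t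
    refine ⟨fun i => simph_nonneg t _, ?_⟩
    have h4 := simph_sum t
    have h5 := simph_nonneg t (Fin.last n)
    linarith
  have hbwd : ∀ x : Fin n → ℝ, x ∈ simphS n → (Fin.snoc x (1 - ∑ i, x i) : Fin (n + 1) → ℝ) ∈ stdSimplex ℝ (Fin (n + 1)) := by
    intro x hx
    constructor
    · intro i
      refine Fin.lastCases ?_ (fun j => ?_) i
      · rw [Fin.snoc_last]
        linarith [hx.2]
      · rw [Fin.snoc_castSucc]
        exact hx.1 j
    · rw [Fin.sum_univ_castSucc]
      simp only [Fin.snoc_castSucc, Fin.snoc_last]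
      ring
  refine ⟨{ toFun := fun t => ⟨h (fun i : Fin n => (t : Fin (n + 1) → ℝ) (Fin.castSucc i)), (hm _).1 (hfwd t)⟩
            invFun := fun y => ⟨Fin.snoc (h.symm y) (1 - ∑ i, h.symm y i), hbwd _ ((hm _).2 (by
              rw [h.apply_symm_apply]; exact y.2))⟩
            left_inv := ?_
            right_inv := ?_
            continuous_toFun := ?_
            continuous_invFun := ?_ }, ?_⟩
  · intro t
    apply Subtype.ext
    simp only [Homeomorph.symm_apply_apply]
    ext i
    change (Fin.snoc (fun i : Fin n => (t : Fin (n + 1) → ℝ) (Fin.castSucc i))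
      (1 - ∑ i : Fin n, (t : Fin (n + 1) → ℝ) (Fin.castSucc i)) : Fin (n + 1) → ℝ) i = (t : Fin (n + 1) → ℝ) i
    refine Fin.lastCases ?_ (fun j => ?_) i
    · rw [Fin.snoc_last]
      have h4 := simph_sum t
      linarith
    · rw [Fin.snoc_castSucc]
  · intro y
    apply Subtype.ext
    change h (fun i : Fin n => (Fin.snoc (h.symm y) (1 - ∑ i, h.symm y i) : Fin (n + 1) → ℝ) (Fin.castSucc i)) = y
    simp only [Fin.snoc_castSucc]
    exact h.apply_symm_apply _
  · refine Continuous.subtype_mk ?_ _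
    refine h.continuous.comp ?_
    exact continuous_pi fun i => (continuous_apply _).comp continuous_subtype_val
  · refine Continuous.subtype_mk ?_ _
    have hc : Continuous fun y : Metric.closedBall (0 : Fin n → ℝ) 1 => h.symm (y : Fin n → ℝ) :=
      h.symm.continuous.comp continuous_subtype_val
    refine continuous_pi fun i => ?_
    refine Fin.lastCases ?_ (fun j => ?_) i
    · simp only [Fin.snoc_last]
      exact continuous_const.sub (continuous_finsetSum _ fun j _ => (continuous_apply j).comp hc)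
    · simp only [Fin.snoc_castSucc]
      exact (continuous_apply j).comp hc
  · intro t
    have h4 := hfwd t
    have h5 := hi (fun i : Fin n => (t : Fin (n + 1) → ℝ) (Fin.castSucc i))
    have h6 : ‖h (fun i : Fin n => (t : Fin (n + 1) → ℝ) (Fin.castSucc i))‖ ≤ 1 := by
      rw [← mem_closedBall_zero_iff]; exact (hm _).1 h4
    have h7 : (∃ i, (t : Fin (n + 1) → ℝ) i = 0) ↔
        ¬ ((fun i : Fin n => (t : Fin (n + 1) → ℝ) (Fin.castSucc i)) ∈ interior (simphS n)) := by
      rw [simph_interior, not_and_or, not_forall, not_lt]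
      have h8 := simph_sum t
      constructor
      · rintro ⟨i, hi0⟩
        revert hi0
        refine Fin.lastCases ?_ (fun j => ?_) i
        · intro hi0
          right
          rw [hi0] at h8
          linarith
        · intro hi0
          left
          exact ⟨j, by rw [hi0]; exact lt_irrefl _⟩
      · rintro (⟨j, hj⟩ | hj)
        · exact ⟨Fin.castSucc j, le_antisymm (not_lt.1 hj) (simph_nonneg t _)⟩
        · refine ⟨Fin.last n, le_antisymm ?_ (simph_nonneg t _)⟩
          linarith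
    rw [h7, h5, not_lt]
    change _ ↔ ‖h (fun i : Fin n => (t : Fin (n + 1) → ℝ) (Fin.castSucc i))‖ = 1
    exact ⟨fun h9 => le_antisymm h6 h9, fun h9 => h9.ge⟩

/-- PROOF. Let `n = finrank V`, `E = Fin n → ℝ`, `s = {x : E | (∀ i, 0 ≤ x i) ∧ ∑ i, x i ≤ 1}`: closed,
bounded, convex, with interior `{x | (∀ i, 0 < x i) ∧ ∑ i, x i < 1}` (nonempty).  Dropping the last
coordinate is a homeomorphism `stdSimplex ℝ (Fin (n + 1)) ≃ₜ s` (inverse `x ↦ (x, 1 - ∑ x i)`,
`Fin.snoc`) under which `∃ i, t i = 0` corresponds to `x ∉ interior s`.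
`exists_homeomorph_image_interior_closure_frontier_eq_unitBall` (Mathlib, GaugeRescale) gives a
homeomorphism `E ≃ₜ E` with `closure s ↦ closedBall 0 1`, `frontier s ↦ sphere 0 1`.  Compose with
`exists_radial E V`. -/
theorem exists_simplex_homeo (V : Type) [NormedAddCommGroup V] [NormedSpace ℝ V]
    [FiniteDimensional ℝ V] :
    ∃ e : stdSimplex ℝ (Fin (Module.finrank ℝ V + 1)) ≃ₜ Metric.closedBall (0 : V) 1,
      ∀ t : stdSimplex ℝ (Fin (Module.finrank ℝ V + 1)),
        (∃ i, (t : Fin (Module.finrank ℝ V + 1) → ℝ) i = 0) ↔ ‖(e t : V)‖ = 1 := by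
  obtain ⟨e, he⟩ := simph_aux (Module.finrank ℝ V)
  obtain ⟨r, hr⟩ := exists_radial (Fin (Module.finrank ℝ V) → ℝ) V (Module.finrank_fin_fun ℝ)
  refine ⟨e.trans (r.subtype fun x => ?_), fun t => ?_⟩
  · rw [mem_closedBall_zero_iff, mem_closedBall_zero_iff, hr]
  · rw [he t, ← hr]
    rfl

end SMD

end

/-! ### from `Lib_MP_33f7bb_an.SIMP` -/

section

/-! Piece SIMP: simplex version of `Good`. -/

open Set Filter Topology

namespace SMD

/-- radial cut-off parameter -/
noncomputable def simpU {V : Type*} [NormedAddCommGroup V] (v : V) : ℝ :=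
  max 0 (min 1 (2 * ‖v‖ - 1))

/-- rescaling of the vector -/
noncomputable def simpW {V : Type*} [NormedAddCommGroup V] [NormedSpace ℝ V] (v : V) : V :=
  (max ‖v‖ (1 / 2))⁻¹ • v

/-- retraction to the ball -/
noncomputable def simpR {V : Type*} [NormedAddCommGroup V] [NormedSpace ℝ V] (v : V) : V :=
  (max 1 ‖v‖)⁻¹ • v

section
variable {V : Type*} [NormedAddCommGroup V]

theorem simpU_cont : Continuous (simpU (V := V)) := by
  unfold simpU
  fun_prop

theorem simpU_mem (v : V) : simpU v ∈ Icc (0 : ℝ) 1 := by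
  unfold simpU
  exact ⟨le_max_left _ _, max_le zero_le_one (min_le_left _ _)⟩

theorem simpU_small {v : V} (h : ‖v‖ ≤ 1 / 2) : simpU v = 0 := by
  unfold simpU
  apply max_eq_left
  exact le_trans (min_le_right _ _) (by linarith)

theorem simpU_one {v : V} (h : ‖v‖ = 1) : simpU v = 1 := by
  unfold simpU
  rw [h]
  norm_num

variable [NormedSpace ℝ V]

theorem simpW_cont : Continuous (simpW (V := V)) := by
  unfold simpW
  have h : Continuous fun v : V => (max ‖v‖ (1 / 2))⁻¹ := by
    apply Continuous.inv₀ (by fun_prop)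
    intro v
    have h1 : (1 / 2 : ℝ) ≤ max ‖v‖ (1 / 2) := le_max_right _ _
    have h2 : (0 : ℝ) < max ‖v‖ (1 / 2) := lt_of_lt_of_le one_half_pos h1
    exact h2.ne'
  exact h.smul continuous_id

theorem simpW_norm {v : V} (h : 1 / 2 ≤ ‖v‖) : ‖simpW v‖ = 1 := by
  unfold simpW
  rw [max_eq_left h, norm_smul, norm_inv, norm_norm]
  exact inv_mul_cancel₀ (by linarith)

theorem simpW_one {v : V} (h : ‖v‖ = 1) : simpW v = v := by
  unfold simpW
  rw [h, max_eq_left (by norm_num)]
  simp

theorem simpR_cont : Continuous (simpR (V := V)) := by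
  unfold simpR
  have h : Continuous fun v : V => (max 1 ‖v‖)⁻¹ := by
    apply Continuous.inv₀ (by fun_prop)
    intro v
    have h1 : (1 : ℝ) ≤ max 1 ‖v‖ := le_max_left _ _
    have h2 : (0 : ℝ) < max 1 ‖v‖ := lt_of_lt_of_le one_pos h1
    exact h2.ne'
  exact h.smul continuous_id

theorem simpR_norm_le (v : V) : ‖simpR v‖ ≤ 1 := by
  unfold simpR
  have h1 : (1 : ℝ) ≤ max 1 ‖v‖ := le_max_left _ _
  rw [norm_smul, norm_inv, Real.norm_eq_abs, abs_of_pos (by linarith),
    inv_mul_le_iff₀ (by linarith), mul_one]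
  exact le_max_right _ _

theorem simpR_norm {v : V} (h : 1 ≤ ‖v‖) : ‖simpR v‖ = 1 := by
  unfold simpR
  rw [max_eq_right h, norm_smul, norm_inv, norm_norm]
  exact inv_mul_cancel₀ (by linarith)

theorem simpR_one {v : V} (h : ‖v‖ = 1) : simpR v = v := by
  unfold simpR
  rw [h, max_self]
  simp

end

/-- PROOF. Let `V, P, T` be the witness of `Good f K`, `k = finrank V`, `e` from
`exists_simplex_homeo`.  On the closed ball of `V` define: if `‖v‖ ≤ 1/2`: `P₁ = P (x, 2 v)`,
`T₁ = T (x, 2 v)`; if `‖v‖ ≥ 1/2`: `w = ‖v‖⁻¹ • v`, `u = min 1 (2 ‖v‖ - 1)`,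
`P₁ = (1 - u) • P (x, w) + u • f x`, `T₁ = (1 - u) • T (x, w) + u • w`.  They agree for
`‖v‖ = 1/2`, are continuous, `T₁ = v` for `‖v‖ = 1`, and `‖T₁‖ ≥ 1` for `‖v‖ ≥ 1/2`.  Let
`ρ w = (max 1 ‖w‖)⁻¹ • w` (retraction to the closed ball; `‖ρ w‖ < 1` iff `‖w‖ < 1`, and then
`ρ w = w`).  Put `P' (x, t) = P₁ (x, e t)` and `T' (x, t) = e.symm (ρ (T₁ (x, e t)))`.
If no `T'` coordinate vanishes then `‖ρ T₁‖ ≠ 1`, so `‖T₁‖ < 1`, so `‖v‖ < 1/2` and
`P₁ = P (x, 2 v) ∈ K` as `‖T (x, 2 v)‖ < 1`.  `car (f x)` is a convex condition satisfied by `f x`.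
If `t i = 0` then `‖e t‖ = 1`, so `T₁ = e t` and `T' (x, t) = t`. -/
theorem goodS_of_good {X : Type*} [TopologicalSpace X] {M : ℕ} {f : X → (Fin M → ℝ)}
    (hf : Continuous f) {K : Set (Fin M → ℝ)} (h : Good f K) : ∃ k, GoodS f K k := by
  obtain ⟨V, i1, i2, i3, P, T, hP, hT, hPK, hcar, hT1⟩ := h
  obtain ⟨e, he⟩ := exists_simplex_homeo V
  -- the maps on `X × V`
  set P₁ : X × V → (Fin M → ℝ) := fun z =>
    (1 - simpU z.2) • P (z.1, simpW z.2) + simpU z.2 • f z.1 with hP₁
  set T₁ : X × V → V := fun z =>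
    (1 - simpU z.2) • T (z.1, simpW z.2) + simpU z.2 • simpW z.2 with hT₁
  have cU : Continuous fun z : X × V => simpU z.2 := simpU_cont.comp continuous_snd
  have cW : Continuous fun z : X × V => simpW z.2 := simpW_cont.comp continuous_snd
  have cXW : Continuous fun z : X × V => (z.1, simpW z.2) := continuous_fst.prodMk cW
  have cP : Continuous P₁ :=
    ((continuous_const.sub cU).smul (hP.comp cXW)).add (cU.smul (hf.comp continuous_fst))
  have cT : Continuous T₁ :=
    ((continuous_const.sub cU).smul (hT.comp cXW)).add (cU.smul cW)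
  have hbig : ∀ x v, 1 / 2 ≤ ‖v‖ → 1 ≤ ‖T₁ (x, v)‖ := by
    intro x v hv
    exact hT1 x (simpW v) (simpW_norm hv).ge (simpU v) (simpU_mem v)
  have hone : ∀ x v, ‖v‖ = 1 → T₁ (x, v) = v := by
    intro x v hv
    simp only [hT₁, simpU_one hv, simpW_one hv, sub_self, zero_smul, one_smul, zero_add]
  have ce : Continuous fun z : X × stdSimplex ℝ (Fin (Module.finrank ℝ V + 1)) =>
      (z.1, ((e z.2 : Metric.closedBall (0 : V) 1) : V)) :=
    continuous_fst.prodMk (continuous_subtype_val.comp (e.continuous.comp continuous_snd))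
  have hmem : ∀ v : V, simpR v ∈ Metric.closedBall (0 : V) 1 := by
    intro v
    rw [mem_closedBall_zero_iff]
    exact simpR_norm_le v
  refine ⟨Module.finrank ℝ V, fun z => P₁ (z.1, (e z.2 : V)),
    fun z => e.symm ⟨simpR (T₁ (z.1, (e z.2 : V))), hmem _⟩, cP.comp ce,
    e.symm.continuous.comp ((simpR_cont.comp (cT.comp ce)).subtype_mk _), ?_, ?_, ?_⟩
  · intro z
    by_cases hz : ‖simpR (T₁ (z.1, (e z.2 : V)))‖ = 1
    · right
      rw [he, e.apply_symm_apply]
      exact hz
    · left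
      have h1 : ‖T₁ (z.1, (e z.2 : V))‖ < 1 := by
        by_contra hc
        exact hz (simpR_norm (not_lt.mp hc))
      have h2 : ‖(e z.2 : V)‖ ≤ 1 / 2 := by
        by_contra hc
        exact absurd (hbig z.1 _ (not_le.mp hc).le) (not_le.mpr h1)
      have h3 : P₁ (z.1, (e z.2 : V)) = P (z.1, simpW (e z.2 : V)) := by
        simp only [hP₁, simpU_small h2, sub_zero, one_smul, zero_smul, add_zero]
      have h4 : T₁ (z.1, (e z.2 : V)) = T (z.1, simpW (e z.2 : V)) := by
        simp only [hT₁, simpU_small h2, sub_zero, one_smul, zero_smul, add_zero]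
      show P₁ (z.1, (e z.2 : V)) ∈ K
      rw [h3]
      apply hPK
      rw [← h4]
      exact h1
  · intro z l
    have hc := hcar (z.1, simpW (e z.2 : V)) l
    have hu := simpU_mem (e z.2 : V)
    have hfl : (⌊f z.1 l⌋ : ℝ) ≤ f z.1 l := Int.floor_le _
    have hcl : f z.1 l ≤ (⌈f z.1 l⌉ : ℝ) := Int.le_ceil _
    have hval : P₁ (z.1, (e z.2 : V)) l =
        (1 - simpU (e z.2 : V)) * P (z.1, simpW (e z.2 : V)) l +
          simpU (e z.2 : V) * f z.1 l := by
      simp only [hP₁, Pi.add_apply, Pi.smul_apply, smul_eq_mul]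
    show (⌊f z.1 l⌋ : ℝ) ≤ P₁ (z.1, (e z.2 : V)) l ∧ P₁ (z.1, (e z.2 : V)) l ≤ (⌈f z.1 l⌉ : ℝ)
    rw [hval]
    obtain ⟨hu0, hu1⟩ := hu
    obtain ⟨hc0, hc1⟩ := hc
    constructor
    · have e1 := mul_le_mul_of_nonneg_left hc0 (sub_nonneg.mpr hu1)
      have e2 := mul_le_mul_of_nonneg_left hfl hu0
      linarith
    · have e1 := mul_le_mul_of_nonneg_left hc1 (sub_nonneg.mpr hu1)
      have e2 := mul_le_mul_of_nonneg_left hcl hu0
      linarith
  · intro x t i hti
    have h1 : ‖(e t : V)‖ = 1 := (he t).mp ⟨i, hti⟩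
    have h2 : simpR (T₁ (x, (e t : V))) = (e t : V) := by
      rw [hone x _ h1, simpR_one h1]
    have h3 : (⟨simpR (T₁ (x, (e t : V))), hmem _⟩ : Metric.closedBall (0 : V) 1) = e t :=
      Subtype.ext h2
    show ((e.symm ⟨simpR (T₁ (x, (e t : V))), hmem _⟩ :
      stdSimplex ℝ (Fin (Module.finrank ℝ V + 1))) : Fin (Module.finrank ℝ V + 1) → ℝ) i = 0
    rw [h3, e.symm_apply_apply]
    exact hti

end SMD

end
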