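import Pool.Agent.Lib_MP_33f7bb_an.Defs

/-!
# MP_33f7bb_an, negative answer to Q1: merged library part G08

Concatenation of files of `Lib_MP_33f7bb_an` and `Lib_MP_33f7bb_d` (each in its own section), only to save build time.
-/

/-! ### from `Lib_MP_33f7bb_an.SUSPA` -/

section

/-! Piece SUSPA: monotonicity, flattening, transport. -/

open Set Filter Topology

namespace SMD

variable {Z : Type*} [TopologicalSpace Z] {W : Type*} [NormedAddCommGroup W] [NormedSpace ℝ W]

theorem stabNull_iff_on {B : Set Z} {F : Z → W} : StabNull B F ↔ StabNullOn univ B F := by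
  constructor
  · rintro ⟨V, i1, i2, i3, G, h1, h2, h3⟩
    exact ⟨V, i1, i2, i3, G, h1.continuousOn, fun z _ v => h2 (z, v), fun z _ v h => h3 z v h⟩
  · rintro ⟨V, i1, i2, i3, G, h1, h2, h3⟩
    refine ⟨V, i1, i2, i3, G, ?_, fun p => h2 p.1 (mem_univ _) p.2, fun z v h => h3 z (mem_univ _) v h⟩
    rw [univ_prod_univ] at h1
    exact continuousOn_univ.1 h1

theorem StabNull.mono {B B' : Set Z} {F : Z → W} (hB : B ⊆ B') (h : StabNull B' F) :
    StabNull B F := by
  obtain ⟨V, i1, i2, i3, G, h1, h2, h3⟩ := h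
  exact ⟨V, i1, i2, i3, G, h1, h2, fun z v h => h3 z v (h.imp (fun h => hB h) id)⟩

theorem StabNullOn.mono {S S' B B' : Set Z} {F : Z → W} (hS : S ⊆ S') (hB : B ⊆ B')
    (h : StabNullOn S' B' F) : StabNullOn S B F := by
  obtain ⟨V, i1, i2, i3, G, h1, h2, h3⟩ := h
  exact ⟨V, i1, i2, i3, G, h1.mono (prod_mono hS Subset.rfl), fun z hz v => h2 z (hS hz) v,
    fun z hz v h => h3 z (hS hz) v (h.imp (fun h => hB h) id)⟩

/-- Flattening.  PROOF: if `G` on `(Z × V₀) × V₁` is the witness, use `V₀ × V₁` and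
`G' (z, (v, s)) = ((G ((z, v), s)).1.1, ((G ((z, v), s)).1.2, (G ((z, v), s)).2))`. -/
theorem StabNull.flatten {V₀ : Type} [NormedAddCommGroup V₀] [NormedSpace ℝ V₀]
    [FiniteDimensional ℝ V₀] {B : Set Z} {F : Z → W}
    (h : StabNull {p : Z × V₀ | p.1 ∈ B ∨ 1 ≤ ‖p.2‖} (fun p : Z × V₀ => (F p.1, p.2))) :
    StabNull B F := by
  obtain ⟨V, i1, i2, i3, G, h1, h2, h3⟩ := h
  refine ⟨V₀ × V, inferInstance, inferInstance, inferInstance,
    fun p => ((G ((p.1, p.2.1), p.2.2)).1.1, ((G ((p.1, p.2.1), p.2.2)).1.2, (G ((p.1, p.2.1), p.2.2)).2)),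
    by fun_prop, ?_, ?_⟩
  · rintro ⟨z, v, s⟩ h0
    apply h2 ((z, v), s)
    simp only [Prod.mk_eq_zero] at h0
    exact Prod.ext (Prod.ext h0.1 h0.2.1) h0.2.2
  · rintro z ⟨v, s⟩ hz
    have h4 : G ((z, v), s) = ((F z, v), s) := by
      apply h3 (z, v) s
      rcases hz with hz | hz
      · exact Or.inl (Or.inl hz)
      · rw [Prod.norm_def, le_max_iff] at hz
        rcases hz with hz | hz
        · exact Or.inl (Or.inr hz)
        · exact Or.inr hz
    simp only [h4]

/-- Transport along a continuous map: if `e : Z' → Z` is continuous, maps `S'` into `S` and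
`B'` (inside `S'`) into `B`, then stable triviality pulls back. -/
theorem StabNullOn.comp {Z' : Type*} [TopologicalSpace Z'] {S B : Set Z} {S' B' : Set Z'}
    {F : Z → W} (e : Z' → Z) (he : ContinuousOn e S') (hS : MapsTo e S' S)
    (hB : ∀ z ∈ S', z ∈ B' → e z ∈ B) (h : StabNullOn S B F) :
    StabNullOn S' B' (fun z => F (e z)) := by
  obtain ⟨V, i1, i2, i3, G, h1, h2, h3⟩ := h
  refine ⟨V, i1, i2, i3, fun p => G (e p.1, p.2), ?_, fun z hz v => h2 (e z) (hS hz) v,
    fun z hz v h => h3 (e z) (hS hz) v (h.imp (fun h => hB z hz h) id)⟩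
  refine h1.comp (f := fun p : Z' × V => (e p.1, p.2)) ?_ ?_
  · exact (he.comp continuousOn_fst fun p hp => hp.1).prodMk continuousOn_snd
  · intro p hp
    exact ⟨hS hp.1, mem_univ _⟩

theorem StabNull.comp {Z' : Type*} [TopologicalSpace Z'] {B : Set Z} {B' : Set Z'}
    {F : Z → W} (e : Z' → Z) (he : Continuous e)
    (hB : ∀ z ∈ B', e z ∈ B) (h : StabNull B F) :
    StabNull B' (fun z => F (e z)) := by
  rw [stabNull_iff_on] at h ⊢
  exact h.comp e he.continuousOn (mapsTo_univ _ _) fun z _ hz => hB z hz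

/-- Post-composition with a linear homeomorphism of the target. -/
theorem StabNullOn.map {W' : Type*} [NormedAddCommGroup W'] [NormedSpace ℝ W'] {S B : Set Z}
    {F : Z → W} (L : W ≃L[ℝ] W') (h : StabNullOn S B F) :
    StabNullOn S B (fun z => L (F z)) := by
  obtain ⟨V, i1, i2, i3, G, h1, h2, h3⟩ := h
  refine ⟨V, i1, i2, i3, fun p => (L (G p).1, (G p).2), ?_, ?_, ?_⟩
  · exact (L.continuous.comp_continuousOn h1.fst).prodMk h1.snd
  · intro z hz v h0
    apply h2 z hz v
    simp only [Prod.mk_eq_zero] at h0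
    refine Prod.ext ?_ h0.2
    have h4 := h0.1
    rwa [map_eq_zero_iff L L.injective] at h4
  · intro z hz v h
    simp only [h3 z hz v h]

end SMD

end

/-! ### from `Lib_MP_33f7bb_an.SUSPB` -/

section

/-! Piece SUSPB: adding variables, changing the boundary values. -/

open Set Filter Topology

namespace SMD

variable {Z : Type*} [TopologicalSpace Z] {W : Type*} [NormedAddCommGroup W] [NormedSpace ℝ W]

/-- Adding variables.  PROOF: with `u = min 1 ‖p.2.2‖`, put
`G' (z, (v, w)) = ((1 - u) • (G (z, v)).1 + u • F z, ((1 - u) • (G (z, v)).2 + u • v, w))`.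
If `w ≠ 0` the last coordinate is nonzero; if `w = 0` the value is `((G (z, v)).1, ((G (z, v)).2, 0))`.
If `z ∈ B` or `‖v‖ ≥ 1` then `G (z, v) = (F z, v)`; if `‖w‖ ≥ 1` then `u = 1`. -/
theorem wit_add {V : Type} [NormedAddCommGroup V] [NormedSpace ℝ V]
    (V₁ : Type) [NormedAddCommGroup V₁] [NormedSpace ℝ V₁] {S B : Set Z} {F : Z → W}
    (hF : ContinuousOn F S) (G : Z × V → W × V) (hG : ContinuousOn G (S ×ˢ univ))
    (h0 : ∀ z ∈ S, ∀ v, G (z, v) ≠ 0)
    (hb : ∀ z ∈ S, ∀ v, (z ∈ B ∨ 1 ≤ ‖v‖) → G (z, v) = (F z, v)) :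
    ∃ G' : Z × (V × V₁) → W × (V × V₁), ContinuousOn G' (S ×ˢ univ) ∧
      (∀ z ∈ S, ∀ v, G' (z, v) ≠ 0) ∧
      ∀ z ∈ S, ∀ v, (z ∈ B ∨ 1 ≤ ‖v‖) → G' (z, v) = (F z, v) := by
  refine ⟨fun p => ((1 - min 1 ‖p.2.2‖) • (G (p.1, p.2.1)).1 + (min 1 ‖p.2.2‖) • F p.1,
    ((1 - min 1 ‖p.2.2‖) • (G (p.1, p.2.1)).2 + (min 1 ‖p.2.2‖) • p.2.1, p.2.2)), ?_, ?_, ?_⟩
  · have hu : ContinuousOn (fun p : Z × (V × V₁) => min (1 : ℝ) ‖p.2.2‖) (S ×ˢ univ) := by
      apply Continuous.continuousOn; fun_prop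
    have hGc : ContinuousOn (fun p : Z × (V × V₁) => G (p.1, p.2.1)) (S ×ˢ univ) := by
      refine hG.comp (f := fun p : Z × (V × V₁) => (p.1, p.2.1)) ?_ ?_
      · apply Continuous.continuousOn; fun_prop
      · intro p hp
        exact ⟨hp.1, mem_univ _⟩
    have hFc : ContinuousOn (fun p : Z × (V × V₁) => F p.1) (S ×ˢ univ) :=
      hF.comp continuous_fst.continuousOn fun p hp => hp.1
    have hv : ContinuousOn (fun p : Z × (V × V₁) => p.2.1) (S ×ˢ univ) := by
      apply Continuous.continuousOn; fun_prop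
    have hw : ContinuousOn (fun p : Z × (V × V₁) => p.2.2) (S ×ˢ univ) := by
      apply Continuous.continuousOn; fun_prop
    exact (((continuousOn_const.sub hu).smul hGc.fst).add (hu.smul hFc)).prodMk
      ((((continuousOn_const.sub hu).smul hGc.snd).add (hu.smul hv)).prodMk hw)
  · rintro z hz ⟨v, w⟩ h
    simp only [Prod.mk_eq_zero] at h
    obtain ⟨h1, h2, h3⟩ := h
    subst h3
    simp only [norm_zero, zero_le_one, min_eq_right, sub_zero, one_smul, zero_smul, add_zero] at h1 h2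
    exact h0 z hz v (Prod.ext h1 h2)
  · rintro z hz ⟨v, w⟩ h
    have hcase : (z ∈ B ∨ 1 ≤ ‖v‖) ∨ 1 ≤ ‖w‖ := by
      rcases h with h | h
      · exact Or.inl (Or.inl h)
      · rw [Prod.norm_mk, le_max_iff] at h
        rcases h with h | h
        · exact Or.inl (Or.inr h)
        · exact Or.inr h
    rcases hcase with h | h
    · simp only [hb z hz v h, ← add_smul, sub_add_cancel, one_smul]
    · simp only [min_eq_left h, sub_self, zero_smul, one_smul, zero_add]

/-- The same with the new variables in front (conjugate `wit_add` with the swap). -/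
theorem wit_add' {V : Type} [NormedAddCommGroup V] [NormedSpace ℝ V]
    (V₁ : Type) [NormedAddCommGroup V₁] [NormedSpace ℝ V₁] {S B : Set Z} {F : Z → W}
    (hF : ContinuousOn F S) (G : Z × V → W × V) (hG : ContinuousOn G (S ×ˢ univ))
    (h0 : ∀ z ∈ S, ∀ v, G (z, v) ≠ 0)
    (hb : ∀ z ∈ S, ∀ v, (z ∈ B ∨ 1 ≤ ‖v‖) → G (z, v) = (F z, v)) :
    ∃ G' : Z × (V₁ × V) → W × (V₁ × V), ContinuousOn G' (S ×ˢ univ) ∧
      (∀ z ∈ S, ∀ v, G' (z, v) ≠ 0) ∧
      ∀ z ∈ S, ∀ v, (z ∈ B ∨ 1 ≤ ‖v‖) → G' (z, v) = (F z, v) := by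
  obtain ⟨G₀, hG₀, hne, hbd⟩ := wit_add V₁ hF G hG h0 hb
  refine ⟨fun p => ((G₀ (p.1, p.2.swap)).1, (G₀ (p.1, p.2.swap)).2.swap), ?_, ?_, ?_⟩
  · have hc : ContinuousOn (fun p : Z × (V₁ × V) => G₀ (p.1, p.2.swap)) (S ×ˢ univ) := by
      refine hG₀.comp (f := fun p : Z × (V₁ × V) => (p.1, p.2.swap)) ?_ ?_
      · apply Continuous.continuousOn; fun_prop
      · intro p hp
        exact ⟨hp.1, mem_univ _⟩
    exact hc.fst.prodMk (continuous_swap.comp_continuousOn hc.snd)
  · rintro z hz ⟨w, v⟩ h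
    apply hne z hz (v, w)
    simp only [Prod.mk_eq_zero, Prod.swap_prod_mk] at h
    refine Prod.ext h.1 ?_
    have := congrArg Prod.swap h.2
    simpa using this
  · rintro z hz ⟨w, v⟩ h
    have h' : z ∈ B ∨ 1 ≤ ‖(v, w)‖ := by
      rcases h with h | h
      · exact Or.inl h
      · right
        rwa [Prod.norm_mk, max_comm, ← Prod.norm_mk]
    simp only [Prod.swap_prod_mk, hbd z hz (v, w) h']

/-- Changing the values away from `B`.  PROOF: let `V, G` be given for `F₀`.  Put, for
`‖s‖ ≤ 1/2`, `G' (z, s) = ((G (z, 2 • s)).1, (1/2) • (G (z, 2 • s)).2)`, and for `‖s‖ ≥ 1/2`, with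
`u = min 1 (2 * ‖s‖ - 1)`, `G' (z, s) = ((1 - u) • F₀ z + u • F₁ z, s)`.  On `‖s‖ = 1/2` both are
`(F₀ z, s)`.  Continuity: glueing over two closed sets (`Continuous.if_le`). -/
theorem StabNull.change {B : Set Z} {F₀ F₁ : Z → W} (hF₀ : Continuous F₀) (hF₁ : Continuous F₁)
    (hB : ∀ z ∈ B, F₀ z = F₁ z) (h : StabNull B F₀) : StabNull B F₁ := by
  classical
  obtain ⟨V, i1, i2, i3, G, hG, h0, hb⟩ := h
  refine ⟨V, i1, i2, i3, fun p => if ‖p.2‖ ≤ 1 / 2 then
      ((G (p.1, (2 : ℝ) • p.2)).1, (1 / 2 : ℝ) • (G (p.1, (2 : ℝ) • p.2)).2)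
    else ((1 - min 1 (2 * ‖p.2‖ - 1)) • F₀ p.1 + (min 1 (2 * ‖p.2‖ - 1)) • F₁ p.1, p.2), ?_, ?_, ?_⟩
  · refine Continuous.if_le ?_ ?_ (by fun_prop) continuous_const ?_
    · have hc : Continuous fun p : Z × V => G (p.1, (2 : ℝ) • p.2) :=
        hG.comp (continuous_fst.prodMk (continuous_snd.const_smul _))
      exact hc.fst.prodMk (hc.snd.const_smul _)
    · have hu : Continuous fun p : Z × V => min (1 : ℝ) (2 * ‖p.2‖ - 1) := by fun_prop
      exact (((continuous_const.sub hu).smul (hF₀.comp continuous_fst)).add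
        (hu.smul (hF₁.comp continuous_fst))).prodMk continuous_snd
    · rintro ⟨z, s⟩ hs
      simp only at hs
      have h1 : (1 : ℝ) ≤ ‖(2 : ℝ) • s‖ := by
        rw [norm_smul, hs]; norm_num
      have h2 : min (1 : ℝ) (2 * ‖s‖ - 1) = 0 := by
        rw [hs]; norm_num
      simp only [hb z _ (Or.inr h1), h2, smul_smul, sub_zero, one_smul, zero_smul, add_zero]
      norm_num
  · rintro ⟨z, s⟩ h
    simp only at h
    split_ifs at h with hs
    · rw [Prod.mk_eq_zero] at h
      refine h0 (z, (2 : ℝ) • s) (Prod.ext h.1 ?_)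
      have := h.2
      rw [smul_eq_zero] at this
      rcases this with h3 | h3
      · norm_num at h3
      · exact h3
    · rw [Prod.mk_eq_zero] at h
      apply hs
      rw [h.2, norm_zero]
      norm_num
  · intro z s h
    simp only
    split_ifs with hs
    · have hz : z ∈ B := by
        rcases h with h | h
        · exact h
        · linarith
      rw [hb z _ (Or.inl hz), hB z hz]
      simp only [smul_smul]
      norm_num
    · rcases h with h | h
      · rw [hB z h, ← add_smul, sub_add_cancel, one_smul]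
      · rw [min_eq_left (by linarith)]
        simp

end SMD

end

/-! ### from `Lib_MP_33f7bb_an.REL` -/

section

/-! Piece REL: exactness. -/

open Set Filter Topology

namespace SMD

/-- PROOF. Let `V₀, G₀` be the witness on `D`.  Let `E = {(z, v) | z ∈ B ∪ D ∨ 1 ≤ ‖v‖}`, closed in
`Z × V₀`.  Prescribe on `E` the map `q (z, v) = G₀ (z, v)` if `z ∈ D` and `(F z, v)` otherwise; it is
`ContinuousOn E` (two closed pieces `D × V₀` and `{z ∈ B ∨ 1 ≤ ‖v‖}`; they agree on the
intersection) and has no zeros on `E`.  Tietze (`ContinuousMap.exists_restrict_eq`, `Z × V₀`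
metrizable hence normal, `W × V₀` finite dimensional) gives a continuous `F' : Z × V₀ → W × V₀`
with `F' = q` on `E`.  Apply `h2`: `StabNull E F'`.  By `StabNull.mono` and `StabNull.change` we get
`StabNull {p | p.1 ∈ B ∨ 1 ≤ ‖p.2‖} (fun p => (F p.1, p.2))` (on this set `F' = q = (F z, v)`).
Conclude with `StabNull.flatten`. -/
theorem StabNull.of_rel {Z : Type*} [TopologicalSpace Z] [TopologicalSpace.MetrizableSpace Z]
    {W : Type} [NormedAddCommGroup W] [NormedSpace ℝ W] [FiniteDimensional ℝ W]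
    {B D : Set Z} (hB : IsClosed B) (hD : IsClosed D) {F : Z → W} (hF : Continuous F)
    (hF0 : ∀ z ∈ B, F z ≠ 0) (h1 : StabNullOn D B F)
    (h2 : ∀ (V₀ : Type) [NormedAddCommGroup V₀] [NormedSpace ℝ V₀] [FiniteDimensional ℝ V₀]
      (F' : Z × V₀ → W × V₀), Continuous F' →
      (∀ z v, (z ∈ B ∪ D ∨ 1 ≤ ‖v‖) → F' (z, v) ≠ 0) →
      StabNull {p : Z × V₀ | p.1 ∈ B ∪ D ∨ 1 ≤ ‖p.2‖} F') :
    StabNull B F := by
  classical
  obtain ⟨V₀, i1, i2, i3, G₀, hG₀, hG0, hGb⟩ := h1
  -- the prescribed map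
  obtain ⟨q, hq⟩ : ∃ q : Z × V₀ → W × V₀, q = fun p => if p.1 ∈ D then G₀ p else (F p.1, p.2) :=
    ⟨_, rfl⟩
  have hq1 : ∀ p : Z × V₀, p.1 ∈ D → q p = G₀ p := by
    intro p hp
    rw [hq]
    simp only [if_pos hp]
  have hq2 : ∀ p : Z × V₀, (p.1 ∈ B ∨ 1 ≤ ‖p.2‖) → q p = (F p.1, p.2) := by
    intro p hp
    by_cases hD' : p.1 ∈ D
    · rw [hq1 p hD']
      exact hGb p.1 hD' p.2 hp
    · rw [hq]
      simp only [if_neg hD']
  have hE1 : IsClosed (D ×ˢ (univ : Set V₀)) := hD.prod isClosed_univ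
  have hE2 : IsClosed {p : Z × V₀ | p.1 ∈ B ∨ 1 ≤ ‖p.2‖} :=
    (hB.preimage continuous_fst).union (isClosed_le continuous_const (continuous_norm.comp continuous_snd))
  have hqc : ContinuousOn q ((D ×ˢ (univ : Set V₀)) ∪ {p : Z × V₀ | p.1 ∈ B ∨ 1 ≤ ‖p.2‖}) := by
    refine ContinuousOn.union_of_isClosed ?_ ?_ hE1 hE2
    · exact hG₀.congr fun p hp => hq1 p hp.1
    · refine ContinuousOn.congr (f := fun p : Z × V₀ => (F p.1, p.2)) ?_ fun p hp => hq2 p hp
      exact ((hF.comp continuous_fst).prodMk continuous_snd).continuousOn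
  obtain ⟨g, hg⟩ := ContinuousMap.exists_restrict_eq (hE1.union hE2)
    (⟨_, continuousOn_iff_continuous_restrict.1 hqc⟩ :
      C(↥((D ×ˢ (univ : Set V₀)) ∪ {p : Z × V₀ | p.1 ∈ B ∨ 1 ≤ ‖p.2‖}), W × V₀))
  have hgq : ∀ p ∈ (D ×ˢ (univ : Set V₀)) ∪ {p : Z × V₀ | p.1 ∈ B ∨ 1 ≤ ‖p.2‖}, g p = q p := by
    intro p hp
    exact DFunLike.congr_fun hg ⟨p, hp⟩
  have h3 := h2 V₀ g g.continuous (by
    intro z v hzv
    have hmem : (z, v) ∈ (D ×ˢ (univ : Set V₀)) ∪ {p : Z × V₀ | p.1 ∈ B ∨ 1 ≤ ‖p.2‖} := by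
      rcases hzv with (h | h) | h
      · exact Or.inr (Or.inl h)
      · exact Or.inl ⟨h, mem_univ _⟩
      · exact Or.inr (Or.inr h)
    rw [hgq _ hmem]
    rcases hmem with h | h
    · rw [hq1 _ h.1]
      exact hG0 z h.1 v
    · rw [hq2 _ h]
      intro h0
      rw [Prod.mk_eq_zero] at h0
      rcases h with h | h
      · exact hF0 z h h0.1
      · rw [h0.2, norm_zero] at h
        linarith)
  have h4 : StabNull {p : Z × V₀ | p.1 ∈ B ∨ 1 ≤ ‖p.2‖} (g : Z × V₀ → W × V₀) := by
    refine StabNull.mono ?_ h3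
    rintro p (h | h)
    · exact Or.inl (Or.inl h)
    · exact Or.inr h
  refine StabNull.flatten (V₀ := V₀) (StabNull.change g.continuous
    ((hF.comp continuous_fst).prodMk continuous_snd) ?_ h4)
  intro p hp
  rw [hgq p (Or.inr hp), hq2 p hp]

end SMD

end

/-! ### from `Lib_MP_33f7bb_an.GLUE` -/

section

/-! Piece GLUE: glueing stable trivialisations over closed sets meeting in `B`. -/

open Set Filter Topology

namespace SMD

variable {Z : Type*} [TopologicalSpace Z] {W : Type*} [NormedAddCommGroup W] [NormedSpace ℝ W]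

/-- PROOF. Witnesses `V₁, G₁` on `S₁` and `V₂, G₂` on `S₂`.  By `wit_add` / `wit_add'` both can be
taken with the space `V₁ × V₂`.  Put `G = G₁` for `z ∈ S₁` and `G = G₂` otherwise (classical `if`);
for `z ∈ S₁ ∩ S₂ ⊆ B` both are `(F z, v)`, so `G = G₂` on `S₂ × V`; `ContinuousOn` on the union of
the two closed sets `S₁ ×ˢ univ`, `S₂ ×ˢ univ` (`ContinuousOn.union_of_isClosed` or similar). -/
theorem StabNullOn.glue {S₁ S₂ B : Set Z} {F : Z → W} (hS₁ : IsClosed S₁) (hS₂ : IsClosed S₂)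
    (hF : Continuous F) (hB : S₁ ∩ S₂ ⊆ B) (h₁ : StabNullOn S₁ B F) (h₂ : StabNullOn S₂ B F) :
    StabNullOn (S₁ ∪ S₂) B F := by
  classical
  obtain ⟨V₁, i11, i12, i13, G₁, c₁, n₁, b₁⟩ := h₁
  obtain ⟨V₂, i21, i22, i23, G₂, c₂, n₂, b₂⟩ := h₂
  obtain ⟨H₁, hc₁, hn₁, hb₁⟩ := wit_add V₂ hF.continuousOn G₁ c₁ n₁ b₁
  obtain ⟨H₂, hc₂, hn₂, hb₂⟩ := wit_add' V₁ hF.continuousOn G₂ c₂ n₂ b₂
  obtain ⟨G, hG⟩ : ∃ G : Z × (V₁ × V₂) → W × (V₁ × V₂),
      G = fun p => if p.1 ∈ S₁ then H₁ p else H₂ p := ⟨_, rfl⟩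
  have e₁ : ∀ z ∈ S₁, ∀ v, G (z, v) = H₁ (z, v) := by
    intro z hz v
    rw [hG]
    exact if_pos hz
  have e₂ : ∀ z ∈ S₂, ∀ v, G (z, v) = H₂ (z, v) := by
    intro z hz v
    by_cases hz1 : z ∈ S₁
    · rw [e₁ z hz1 v, hb₁ z hz1 v (Or.inl (hB ⟨hz1, hz⟩)), hb₂ z hz v (Or.inl (hB ⟨hz1, hz⟩))]
    · rw [hG]
      exact if_neg hz1
  refine ⟨V₁ × V₂, inferInstance, inferInstance, inferInstance, G, ?_, ?_, ?_⟩
  · rw [Set.union_prod]
    refine ContinuousOn.union_of_isClosed (hc₁.congr ?_) (hc₂.congr ?_)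
      (hS₁.prod isClosed_univ) (hS₂.prod isClosed_univ)
    · rintro ⟨z, v⟩ hz
      exact e₁ z hz.1 v
    · rintro ⟨z, v⟩ hz
      exact e₂ z hz.1 v
  · rintro z (hz | hz) v
    · rw [e₁ z hz v]; exact hn₁ z hz v
    · rw [e₂ z hz v]; exact hn₂ z hz v
  · rintro z (hz | hz) v hv
    · rw [e₁ z hz v]; exact hb₁ z hz v hv
    · rw [e₂ z hz v]; exact hb₂ z hz v hv

/-- Finite version, by induction (`n = 0`: the empty set, any witness). -/
theorem StabNullOn.glue_fin {B : Set Z} {F : Z → W} (hF : Continuous F) (n : ℕ)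
    (S : ℕ → Set Z) (hS : ∀ i < n, IsClosed (S i))
    (hB : ∀ i < n, ∀ i' < n, i ≠ i' → S i ∩ S i' ⊆ B)
    (h : ∀ i < n, StabNullOn (S i) B F) :
    StabNullOn (⋃ i < n, S i) B F := by
  induction n with
  | zero =>
    have h0 : (⋃ i < 0, S i) = ∅ := by simp
    rw [h0]
    refine ⟨ℝ, inferInstance, inferInstance, inferInstance, fun p => (F p.1, p.2), ?_, ?_, ?_⟩
    · rw [Set.empty_prod]; exact continuousOn_empty _
    · intro z hz; exact absurd hz (Set.notMem_empty z)
    · intro z hz; exact absurd hz (Set.notMem_empty z)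
  | succ n ih =>
    rw [Set.biUnion_lt_succ]
    refine StabNullOn.glue ?_ (hS n (Nat.lt_succ_self n)) hF ?_
      (ih (fun i hi => hS i (hi.trans (Nat.lt_succ_self n)))
        (fun i hi i' hi' => hB i (hi.trans (Nat.lt_succ_self n)) i' (hi'.trans (Nat.lt_succ_self n)))
        (fun i hi => h i (hi.trans (Nat.lt_succ_self n))))
      (h n (Nat.lt_succ_self n))
    · exact (Set.finite_lt_nat n).isClosed_biUnion fun i hi =>
        hS i (lt_trans hi (Nat.lt_succ_self n))
    · rintro z ⟨hz, hzn⟩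
      simp only [Set.mem_iUnion] at hz
      obtain ⟨i, hi, hzi⟩ := hz
      exact hB i (hi.trans (Nat.lt_succ_self n)) n (Nat.lt_succ_self n) hi.ne ⟨hzi, hzn⟩

end SMD

end

/-! ### from `Lib_MP_33f7bb_an.PART` -/

section

/-! Piece PART: thin slabs. -/

open Set Filter Topology

namespace SMD

/-- The `i`-th partition point of `[-1, 1]` divided in `r` equal parts. -/
noncomputable def tau (r i : ℕ) : ℝ := -1 + 2 * (i : ℝ) / (r : ℝ)

/-- PROOF. Only `‖v‖ < 1` matters.  The set
`E = {(y, τ, τ', v) | (y, τ) ∈ C, ‖v‖ ≤ 1, F ((y, τ'), v) = 0} ⊆ Y × I × I × V` is compact and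
`|τ - τ'|` is positive on it (if `τ = τ'` then `F ((y, τ), v) = 0` with `(y, τ) ∈ C`).  So
`|τ - τ'| ≥ η > 0` on `E` (or `E` is empty); take `r` with `2 / r < η`. -/
theorem exists_partition {Y : Type*} [TopologicalSpace Y] [CompactSpace Y]
    {V : Type} [NormedAddCommGroup V] [NormedSpace ℝ V] [FiniteDimensional ℝ V]
    {W : Type} [NormedAddCommGroup W] [NormedSpace ℝ W]
    {C : Set (Y × Icc (-1 : ℝ) 1)} (hC : IsClosed C) {F : (Y × Icc (-1 : ℝ) 1) × V → W}
    (hF : Continuous F) (hF0 : ∀ p v, (p ∈ C ∨ 1 ≤ ‖v‖) → F (p, v) ≠ 0) :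
    ∃ r : ℕ, 0 < r ∧ ∀ i < r, ∀ (y : Y) (t t' : Icc (-1 : ℝ) 1), (y, t) ∈ C →
      tau r i ≤ t → (t : ℝ) ≤ tau r (i + 1) → tau r i ≤ t' → (t' : ℝ) ≤ tau r (i + 1) →
      ∀ v, F ((y, t'), v) ≠ 0 := by
  classical
  haveI : ProperSpace V := FiniteDimensional.proper_real V
  -- the compact set
  set K : Set ((Y × Icc (-1 : ℝ) 1 × Icc (-1 : ℝ) 1) × V) :=
    {q | (q.1.1, q.1.2.1) ∈ C ∧ ‖q.2‖ ≤ 1 ∧ F ((q.1.1, q.1.2.2), q.2) = 0} with hK
  have hKc : IsCompact K := by
    have h1 : IsCompact ((univ : Set (Y × Icc (-1 : ℝ) 1 × Icc (-1 : ℝ) 1)) ×ˢ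
        Metric.closedBall (0 : V) 1) := isCompact_univ.prod (isCompact_closedBall _ _)
    refine h1.of_isClosed_subset ?_ ?_
    · have c1 : IsClosed {q : (Y × Icc (-1 : ℝ) 1 × Icc (-1 : ℝ) 1) × V |
          (q.1.1, q.1.2.1) ∈ C} := hC.preimage (by fun_prop)
      have c2 : IsClosed {q : (Y × Icc (-1 : ℝ) 1 × Icc (-1 : ℝ) 1) × V | ‖q.2‖ ≤ 1} :=
        isClosed_le (by fun_prop) continuous_const
      have c3 : IsClosed {q : (Y × Icc (-1 : ℝ) 1 × Icc (-1 : ℝ) 1) × V |
          F ((q.1.1, q.1.2.2), q.2) = 0} :=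
        isClosed_eq (hF.comp (by fun_prop)) continuous_const
      exact c1.inter (c2.inter c3)
    · rintro q ⟨-, h2, -⟩
      exact ⟨mem_univ _, by simpa using h2⟩
  have mem : ∀ (y : Y) (t t' : Icc (-1 : ℝ) 1) (v : V), (y, t) ∈ C → F ((y, t'), v) = 0 →
      (((y, t, t'), v) : (Y × Icc (-1 : ℝ) 1 × Icc (-1 : ℝ) 1) × V) ∈ K := by
    intro y t t' v h1 h2
    refine ⟨h1, ?_, h2⟩
    by_contra h3
    exact hF0 (y, t') v (Or.inr (not_le.1 h3).le) h2
  rcases K.eq_empty_or_nonempty with hE | hne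
  · refine ⟨1, one_pos, fun i _ y t t' h1 _ _ _ _ v h2 => ?_⟩
    have := mem y t t' v h1 h2
    rw [hE] at this
    exact this
  · obtain ⟨q0, hq0, hmin⟩ := hKc.exists_isMinOn hne
      (f := fun q => |(q.1.2.1 : ℝ) - (q.1.2.2 : ℝ)|) (by fun_prop)
    set η : ℝ := |(q0.1.2.1 : ℝ) - (q0.1.2.2 : ℝ)| with hη
    have hpos : 0 < η := by
      rw [hη, abs_pos, sub_ne_zero]
      intro h
      have h' : q0.1.2.1 = q0.1.2.2 := Subtype.ext h
      obtain ⟨h1, -, h3⟩ := hq0
      rw [← h'] at h3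
      exact hF0 _ _ (Or.inl h1) h3
    obtain ⟨r, hr⟩ := exists_nat_gt (2 / η)
    have hr0 : (0 : ℝ) < r := lt_trans (by positivity) hr
    refine ⟨r, by exact_mod_cast hr0, fun i _ y t t' h1 h2 h3 h4 h5 v h6 => ?_⟩
    have h7 : η ≤ |(t : ℝ) - (t' : ℝ)| := hmin (mem y t t' v h1 h6)
    have h8 : tau r (i + 1) - tau r i = 2 / r := by
      simp only [tau]
      push_cast
      field_simp
      ring
    have h9 : |(t : ℝ) - (t' : ℝ)| ≤ 2 / r := by
      rw [abs_le]
      constructor <;> linarith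
    have h10 : 2 / (r : ℝ) < η := by
      rw [div_lt_iff₀ hr0]
      rw [div_lt_iff₀ hpos] at hr
      linarith
    linarith

/-- Elementary facts on the partition points. -/
theorem tau_zero (r : ℕ) : tau r 0 = -1 := by
  simp [tau]

theorem tau_last {r : ℕ} (hr : 0 < r) : tau r r = 1 := by
  have : (r : ℝ) ≠ 0 := by positivity
  simp only [tau]
  field_simp
  norm_num

theorem tau_mono {r i i' : ℕ} (h : i ≤ i') : tau r i ≤ tau r i' := by
  simp only [tau]
  gcongr

theorem tau_lt {r i i' : ℕ} (hr : 0 < r) (h : i < i') : tau r i < tau r i' := by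
  have hr' : (0 : ℝ) < r := by exact_mod_cast hr
  have hi : (i : ℝ) < i' := by exact_mod_cast h
  simp only [tau]
  gcongr

theorem tau_mem {r i : ℕ} (hr : 0 < r) (h : i ≤ r) : tau r i ∈ Icc (-1 : ℝ) 1 := by
  constructor
  · rw [← tau_zero r]; exact tau_mono (Nat.zero_le i)
  · rw [← tau_last hr]; exact tau_mono h

/-- Every point lies in some slab. -/
theorem exists_slab {r : ℕ} (hr : 0 < r) (t : ℝ) (ht : t ∈ Icc (-1 : ℝ) 1) :
    ∃ i < r, tau r i ≤ t ∧ t ≤ tau r (i + 1) := by
  by_contra hcon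
  push Not at hcon
  have key : ∀ i ≤ r, tau r i ≤ t := by
    intro i
    induction i with
    | zero =>
      intro _
      rw [tau_zero]
      exact ht.1
    | succ i ih =>
      intro hi
      exact (hcon i (by omega) (ih (by omega))).le
  obtain ⟨s, rfl⟩ : ∃ s, r = s + 1 := ⟨r - 1, by omega⟩
  have h1 := hcon s (by omega) (key s (by omega))
  rw [tau_last hr] at h1
  exact absurd ht.2 (not_le.2 h1)

end SMD

end

/-! ### from `Lib_MP_33f7bb_an.LEV` -/

section

/-! Piece LEV: stable triviality on a level `τ = τ₀`. -/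

open Set Filter Topology

namespace SMD

/-- PROOF. Apply `SI Y (j + 1)` to the closed set `A = {y | (y, τ₀) ∈ C}` and
`F₀ (y, v) = F ((y, τ₀), v)`; witness `V', G₀`.  Use `V'` and
`G (((y, τ), v), s) = G₀ ((y, v), s)` on the level set. -/
theorem level {Y : Type*} [TopologicalSpace Y] {j : ℕ} (h : SI Y (j + 1))
    (V : Type) [NormedAddCommGroup V] [NormedSpace ℝ V] [FiniteDimensional ℝ V]
    (W : Type) [NormedAddCommGroup W] [NormedSpace ℝ W] [FiniteDimensional ℝ W]
    (hd : Module.finrank ℝ W = j + 1 + Module.finrank ℝ V)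
    {C : Set (Y × Icc (-1 : ℝ) 1)} (hC : IsClosed C) (F : (Y × Icc (-1 : ℝ) 1) × V → W)
    (hF : Continuous F) (hF0 : ∀ p v, (p ∈ C ∨ 1 ≤ ‖v‖) → F (p, v) ≠ 0)
    (t₀ : Icc (-1 : ℝ) 1) :
    StabNullOn {p : (Y × Icc (-1 : ℝ) 1) × V | p.1.2 = t₀} {p | p.1 ∈ C ∨ 1 ≤ ‖p.2‖} F := by
  have hA : IsClosed {y : Y | (y, t₀) ∈ C} :=
    hC.preimage (continuous_id.prodMk continuous_const)
  have hc : Continuous (fun p : Y × V => F ((p.1, t₀), p.2)) :=
    hF.comp ((continuous_fst.prodMk continuous_const).prodMk continuous_snd)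
  obtain ⟨V', i1, i2, i3, G₀, hG1, hG2, hG3⟩ := h {y : Y | (y, t₀) ∈ C} hA V W hd
    (fun p : Y × V => F ((p.1, t₀), p.2)) hc (fun y v hyv => hF0 (y, t₀) v hyv)
  refine ⟨V', i1, i2, i3, fun p => G₀ ((p.1.1.1, p.1.2), p.2), ?_, ?_, ?_⟩
  · refine Continuous.continuousOn (hG1.comp ?_)
    exact ((continuous_fst.comp (continuous_fst.comp continuous_fst)).prodMk
      (continuous_snd.comp continuous_fst)).prodMk continuous_snd
  · intro z _ v
    exact hG2 _
  · rintro ⟨⟨y, t⟩, v⟩ hz v' hzv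
    have ht : t = t₀ := hz
    subst ht
    exact hG3 (y, v) v' hzv

end SMD

end

/-! ### from `Lib_MP_33f7bb_an.SLAB` -/

section

/-! Piece SLAB: stable triviality on a slab `α ≤ τ ≤ β` relative to its ends and to `A × [α, β]`. -/

open Set Filter Topology

namespace SMD

/-- PROOF. Let `a : ℝ → Icc (-1) 1` be `x ↦ (α + β)/2 + (β - α)/2 * clamp x` with
`clamp x = max (-1) (min 1 x)` (continuous, `a (-1) = α`, `a 1 = β`, values in `[α, β]`).
Apply `SI Y j` to `A`, the space `V̂ = ℝ × V` (sup norm, finrank `1 + finrank V`), `W`, and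
`F̂ (y, (x, v)) = F ((y, a x), v)`; it has no zeros if `y ∈ A` or `|x| ≥ 1` (then `a x ∈ {α, β}`) or
`‖v‖ ≥ 1`, i.e. if `y ∈ A ∨ 1 ≤ ‖(x, v)‖`.  Witness `V', Ĝ`.  For `p = ((y, τ), v)` in the slab
let `x = (2 τ - α - β)/(β - α) ∈ [-1, 1]`, so `a x = τ`, and put
`G (p, s) = Ĝ ((y, (x, v)), s)`.  Boundary values: `y ∈ A`; `τ = α` or `β` gives `|x| = 1`;
`‖v‖ ≥ 1`; `‖s‖ ≥ 1`. -/
theorem slab {Y : Type*} [TopologicalSpace Y] {j : ℕ} (h : SI Y j)
    (V : Type) [NormedAddCommGroup V] [NormedSpace ℝ V] [FiniteDimensional ℝ V]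
    (W : Type) [NormedAddCommGroup W] [NormedSpace ℝ W] [FiniteDimensional ℝ W]
    (hd : Module.finrank ℝ W = j + 1 + Module.finrank ℝ V)
    {A : Set Y} (hA : IsClosed A) (α β : ℝ) (hα : -1 ≤ α) (hαβ : α < β) (hβ : β ≤ 1)
    (F : (Y × Icc (-1 : ℝ) 1) × V → W) (hF : Continuous F)
    (hF0 : ∀ (y : Y) (t : Icc (-1 : ℝ) 1) (v : V), α ≤ t → (t : ℝ) ≤ β →
      (y ∈ A ∨ (t : ℝ) = α ∨ (t : ℝ) = β ∨ 1 ≤ ‖v‖) → F ((y, t), v) ≠ 0) :
    StabNullOn {p : (Y × Icc (-1 : ℝ) 1) × V | α ≤ p.1.2 ∧ (p.1.2 : ℝ) ≤ β}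
      {p | p.1.1 ∈ A ∨ (p.1.2 : ℝ) = α ∨ (p.1.2 : ℝ) = β ∨ 1 ≤ ‖p.2‖} F := by
  have hβα : 0 < β - α := by linarith
  have hc1 : ∀ x : ℝ, -1 ≤ max (-1) (min 1 x) := fun x => le_max_left _ _
  have hc2 : ∀ x : ℝ, max (-1) (min 1 x) ≤ 1 := fun x => max_le (by norm_num) (min_le_left _ _)
  have hlow : ∀ x : ℝ, α ≤ (α + β) / 2 + (β - α) / 2 * max (-1) (min 1 x) := by
    intro x
    nlinarith [hc1 x]
  have hupp : ∀ x : ℝ, (α + β) / 2 + (β - α) / 2 * max (-1) (min 1 x) ≤ β := by
    intro x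
    nlinarith [hc2 x]
  let a : ℝ → Icc (-1 : ℝ) 1 := fun x =>
    ⟨(α + β) / 2 + (β - α) / 2 * max (-1) (min 1 x), hα.trans (hlow x), (hupp x).trans hβ⟩
  have ha : Continuous a := by
    refine Continuous.subtype_mk ?_ _
    fun_prop
  have hab : ∀ x : ℝ, 1 ≤ |x| → ((a x : ℝ) = α ∨ (a x : ℝ) = β) := by
    intro x hx
    rcases le_abs.1 hx with h1 | h1
    · right
      show (α + β) / 2 + (β - α) / 2 * max (-1) (min 1 x) = β
      rw [min_eq_left h1, max_eq_right (by norm_num)]
      ring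
    · left
      show (α + β) / 2 + (β - α) / 2 * max (-1) (min 1 x) = α
      rw [min_eq_right (by linarith), max_eq_left (by linarith)]
      ring
  have hd' : Module.finrank ℝ W = j + Module.finrank ℝ (ℝ × V) := by
    rw [Module.finrank_prod, Module.finrank_self, hd]
    ring
  obtain ⟨V', i1, i2, i3, G, hG, hG0, hGb⟩ := h A hA (ℝ × V) W hd' (fun p => F ((p.1, a p.2.1), p.2.2))
    (hF.comp (by fun_prop)) (by
      rintro y ⟨x, v⟩ hyx
      refine hF0 y (a x) v (hlow x) (hupp x) ?_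
      rcases hyx with h1 | h1
      · exact Or.inl h1
      · rw [Prod.norm_def] at h1
        rcases le_max_iff.1 h1 with h2 | h2
        · rcases hab x (by simpa using h2) with h3 | h3
          · exact Or.inr (Or.inl h3)
          · exact Or.inr (Or.inr (Or.inl h3))
        · exact Or.inr (Or.inr (Or.inr h2)))
  refine ⟨V', i1, i2, i3, fun p => G ((p.1.1.1, ((2 * (p.1.1.2 : ℝ) - α - β) / (β - α), p.1.2)), p.2), ?_, ?_, ?_⟩
  · refine (hG.comp ?_).continuousOn
    fun_prop
  · rintro z - v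
    exact hG0 _
  · rintro ⟨⟨y, τ⟩, v⟩ ⟨hz1, hz2⟩ s hs
    have hx : a ((2 * (τ : ℝ) - α - β) / (β - α)) = τ := by
      apply Subtype.ext
      show (α + β) / 2 + (β - α) / 2 * max (-1) (min 1 ((2 * (τ : ℝ) - α - β) / (β - α))) = τ
      have e1 : (2 * (τ : ℝ) - α - β) / (β - α) ≤ 1 := by
        rw [div_le_one hβα]
        have : (τ : ℝ) ≤ β := hz2
        linarith
      have e2 : -1 ≤ (2 * (τ : ℝ) - α - β) / (β - α) := by
        rw [le_div_iff₀ hβα]
        have : α ≤ (τ : ℝ) := hz1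
        linarith
      rw [min_eq_right e1, max_eq_right e2]
      field_simp
      ring
    have hb := hGb (y, ((2 * (τ : ℝ) - α - β) / (β - α), v)) s (by
      rcases hs with (h1 | h1 | h1 | h1) | h1
      · exact Or.inl (Or.inl h1)
      · left; right
        show (1 : ℝ) ≤ ‖(((2 * (τ : ℝ) - α - β) / (β - α), v) : ℝ × V)‖
        rw [Prod.norm_def]
        refine le_max_of_le_left ?_
        have h1' : (τ : ℝ) = α := h1
        show (1 : ℝ) ≤ ‖(2 * (τ : ℝ) - α - β) / (β - α)‖
        rw [h1', show (2 * α - α - β) / (β - α) = -1 by rw [div_eq_iff hβα.ne']; ring]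
        simp
      · left; right
        show (1 : ℝ) ≤ ‖(((2 * (τ : ℝ) - α - β) / (β - α), v) : ℝ × V)‖
        rw [Prod.norm_def]
        refine le_max_of_le_left ?_
        have h1' : (τ : ℝ) = β := h1
        show (1 : ℝ) ≤ ‖(2 * (τ : ℝ) - α - β) / (β - α)‖
        rw [h1', show (2 * β - α - β) / (β - α) = 1 by rw [div_eq_iff hβα.ne']; ring]
        simp
      · left; right
        show (1 : ℝ) ≤ ‖(((2 * (τ : ℝ) - α - β) / (β - α), v) : ℝ × V)‖
        rw [Prod.norm_def]
        exact le_max_of_le_right h1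
      · exact Or.inr h1)
    show G ((y, ((2 * (τ : ℝ) - α - β) / (β - α), v)), s) = (F ((y, τ), v), s)
    rw [hb]
    show (F ((y, a ((2 * (τ : ℝ) - α - β) / (β - α))), v), s) = _
    rw [hx]

end SMD

end

/-! ### from `Lib_MP_33f7bb_an.PRODT` -/

section

/-! Piece PRODT: the product theorem `dim (Y × I) ≤ dim Y + 1`. -/

open Set Filter Topology

namespace SMD

/-- PROOF. Let `C ⊆ Y × I` closed, `V, W, F` be given (`finrank W = j + 1 + finrank V`),
`Z = (Y × I) × V`.  Take `r` from `exists_partition`.  For `i < r` let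
`A i = {y | ∃ t, (y, t) ∈ C ∧ tau r i ≤ t ≤ tau r (i+1)}`: closed (projection of a closed set along
the compact `I`).  Let `C' = {(y, t) | ∃ i < r, tau r i ≤ t ≤ tau r (i+1) ∧ y ∈ A i}`, closed,
`C ⊆ C'` (`exists_slab`), and `F (p, v) ≠ 0` for `p ∈ C'` or `1 ≤ ‖v‖`.  By `StabNull.mono` it is
enough to show `StabNull B F` with `B = {p | p.1 ∈ C' ∨ 1 ≤ ‖p.2‖}`.  Apply `StabNull.of_rel` with
`D = {p | ∃ i ≤ r, p.1.2 = tau r i} = ⋃ i < r + 1, {p | p.1.2 = tau r i}` (closed).
* `h1`: `StabNullOn.glue_fin` and `level` (with `C'`); different levels are disjoint.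
* `h2`: given `V₀` and `F' : Z × V₀ → W × V₀` without zeros on `B ∪ D` or `1 ≤ ‖v₀‖`: conjugate with
`e : ((Y × I) × V) × V₀ ≃ₜ (Y × I) × (V × V₀)` (`StabNullOn.comp` / `StabNull.comp`; note
`1 ≤ ‖(v, v₀)‖ ↔ 1 ≤ ‖v‖ ∨ 1 ≤ ‖v₀‖`).  On each slab `i` apply `slab` (with `SI Y j`, the space
`V × V₀`, target `W × V₀`, `finrank = j + 1 + finrank (V × V₀)`, `A := A i`, `α = tau r i`,
`β = tau r (i+1)`); its hypothesis holds since `y ∈ A i` and `t` in the slab give `(y, t) ∈ C'`, and
the ends are in `D`.  Two different slabs meet only in `D` (at a common end).  Glue with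
`StabNullOn.glue_fin` relative to `B'' = {q | q.1 ∈ C' ∨ q.1.2 is a tau ∨ 1 ≤ ‖q.2‖}`: for this
one needs each slab statement relative to `B''`: by `StabNullOn.mono` it is enough that inside the
slab `i`, `B''` is contained in the `B`-set of `slab i`; but a point `(y, t)` of the slab `i` may be
in `C'` because of a neighbouring slab only if `t` is an end, fine. -/
theorem SI_prod {Y : Type*} [TopologicalSpace Y] [CompactSpace Y]
    [TopologicalSpace.MetrizableSpace Y] {j : ℕ} (h : SI Y j) (h' : SI Y (j + 1)) :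
    SI (Y × Icc (-1 : ℝ) 1) (j + 1) := by
  intro C hC V _ _ _ W _ _ _ hd F hF hF0
  obtain ⟨r, hr, hpart⟩ := exists_partition hC hF hF0
  let A : ℕ → Set Y := fun i =>
    {y | ∃ t : Icc (-1 : ℝ) 1, (y, t) ∈ C ∧ tau r i ≤ (t : ℝ) ∧ (t : ℝ) ≤ tau r (i + 1)}
  have hA : ∀ i, IsClosed (A i) := by
    intro i
    have hAi : A i = Prod.fst '' (C ∩ {p : Y × Icc (-1 : ℝ) 1 |
        tau r i ≤ (p.2 : ℝ) ∧ (p.2 : ℝ) ≤ tau r (i + 1)}) := by
      ext y
      constructor
      · rintro ⟨t, h1, h2, h3⟩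
        exact ⟨(y, t), ⟨h1, h2, h3⟩, rfl⟩
      · rintro ⟨⟨y', t⟩, ⟨h1, h2, h3⟩, rfl⟩
        exact ⟨t, h1, h2, h3⟩
    rw [hAi]
    refine isClosedMap_fst_of_compactSpace _ (hC.inter ?_)
    refine IsClosed.inter ?_ ?_
    · exact isClosed_le continuous_const (continuous_subtype_val.comp continuous_snd)
    · exact isClosed_le (continuous_subtype_val.comp continuous_snd) continuous_const
  let C' : Set (Y × Icc (-1 : ℝ) 1) :=
    ⋃ i ∈ Finset.range r, {p | (tau r i ≤ (p.2 : ℝ) ∧ (p.2 : ℝ) ≤ tau r (i + 1)) ∧ p.1 ∈ A i}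
  have hC'm : ∀ p, p ∈ C' ↔ ∃ i < r, (tau r i ≤ (p.2 : ℝ) ∧ (p.2 : ℝ) ≤ tau r (i + 1)) ∧
      p.1 ∈ A i := by
    intro p
    simp only [C', mem_iUnion, Finset.mem_range, exists_prop, Set.mem_ofPred_eq]
  have hC' : IsClosed C' := by
    refine isClosed_biUnion_finset fun i _ => ?_
    refine IsClosed.inter (IsClosed.inter ?_ ?_) ?_
    · exact isClosed_le continuous_const (continuous_subtype_val.comp continuous_snd)
    · exact isClosed_le (continuous_subtype_val.comp continuous_snd) continuous_const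
    · exact (hA i).preimage continuous_fst
  have hCC' : C ⊆ C' := by
    rintro ⟨y, t⟩ hyt
    obtain ⟨i, hi, h1, h2⟩ := exists_slab hr (t : ℝ) t.2
    exact (hC'm _).2 ⟨i, hi, ⟨h1, h2⟩, ⟨t, hyt, h1, h2⟩⟩
  have hF0' : ∀ p v, (p ∈ C' ∨ 1 ≤ ‖v‖) → F (p, v) ≠ 0 := by
    rintro ⟨y, t'⟩ v hpv
    rcases hpv with hp | hv
    · obtain ⟨i, hi, ⟨h1, h2⟩, ⟨t, ht, h3, h4⟩⟩ := (hC'm _).1 hp
      exact hpart i hi y t t' ht h3 h4 h1 h2 v
    · exact hF0 _ v (Or.inr hv)
  -- the sets of `of_rel`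
  let B : Set ((Y × Icc (-1 : ℝ) 1) × V) := {p | p.1 ∈ C' ∨ 1 ≤ ‖p.2‖}
  have hBcl : IsClosed B := by
    refine IsClosed.union ?_ ?_
    · exact hC'.preimage continuous_fst
    · exact isClosed_le continuous_const continuous_snd.norm
  let S : ℕ → Set ((Y × Icc (-1 : ℝ) 1) × V) := fun i => {p | (p.1.2 : ℝ) = tau r i}
  have hS : ∀ i, IsClosed (S i) := by
    intro i
    exact isClosed_eq (continuous_subtype_val.comp (continuous_snd.comp continuous_fst))
      continuous_const
  let D : Set ((Y × Icc (-1 : ℝ) 1) × V) := ⋃ i < r + 1, S i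
  have hDm : ∀ p, p ∈ D ↔ ∃ i < r + 1, (p.1.2 : ℝ) = tau r i := by
    intro p
    simp only [D, S, mem_iUnion, exists_prop, Set.mem_ofPred_eq]
  have hDcl : IsClosed D := by
    have : D = ⋃ i ∈ Finset.range (r + 1), S i := by
      simp only [D, Finset.mem_range]
    rw [this]
    exact isClosed_biUnion_finset fun i _ => hS i
  have hmain : StabNull B F := by
    refine StabNull.of_rel (D := D) hBcl hDcl hF ?_ ?_ ?_
    · rintro ⟨p, v⟩ hz
      exact hF0' p v hz
    · -- levels
      refine StabNullOn.glue_fin hF (r + 1) S (fun i _ => hS i) ?_ ?_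
      · rintro i _ i' _ hii' p ⟨hp, hp'⟩
        exfalso
        have hpi : (p.1.2 : ℝ) = tau r i := hp
        have hpi' : (p.1.2 : ℝ) = tau r i' := hp'
        rcases lt_or_gt_of_ne hii' with hlt | hlt
        · have := tau_lt hr hlt
          linarith
        · have := tau_lt hr hlt
          linarith
      · intro i hi
        have hti : tau r i ∈ Icc (-1 : ℝ) 1 := tau_mem hr (by omega)
        have := level h' V W hd hC' F hF hF0' ⟨tau r i, hti⟩
        refine StabNullOn.mono ?_ (le_refl _) this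
        intro p hp
        exact Subtype.ext hp
    · -- slabs
      intro V₀ _ _ _ F' hF' hF'0
      let E : ((Y × Icc (-1 : ℝ) 1) × V) × V₀ → (Y × Icc (-1 : ℝ) 1) × (V × V₀) :=
        fun p => (p.1.1, (p.1.2, p.2))
      have hE : Continuous E :=
        (continuous_fst.comp continuous_fst).prodMk
          ((continuous_snd.comp continuous_fst).prodMk continuous_snd)
      let F'' : (Y × Icc (-1 : ℝ) 1) × (V × V₀) → W × V₀ :=
        fun q => F' ((q.1, q.2.1), q.2.2)
      have hF'' : Continuous F'' := by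
        refine hF'.comp ?_
        exact (continuous_fst.prodMk (continuous_fst.comp continuous_snd)).prodMk
          (continuous_snd.comp continuous_snd)
      let B'' : Set ((Y × Icc (-1 : ℝ) 1) × (V × V₀)) :=
        {q | q.1 ∈ C' ∨ (∃ i < r + 1, (q.1.2 : ℝ) = tau r i) ∨ 1 ≤ ‖q.2‖}
      have hkey : StabNull B'' F'' := by
        rw [stabNull_iff_on]
        let T : ℕ → Set ((Y × Icc (-1 : ℝ) 1) × (V × V₀)) := fun i =>
          {q | tau r i ≤ (q.1.2 : ℝ) ∧ (q.1.2 : ℝ) ≤ tau r (i + 1)}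
        have hT : ∀ i, IsClosed (T i) := by
          intro i
          refine IsClosed.inter ?_ ?_
          · exact isClosed_le continuous_const
              (continuous_subtype_val.comp (continuous_snd.comp continuous_fst))
          · exact isClosed_le (continuous_subtype_val.comp (continuous_snd.comp continuous_fst))
              continuous_const
        have hcov : (univ : Set ((Y × Icc (-1 : ℝ) 1) × (V × V₀))) ⊆ ⋃ i < r, T i := by
          intro q _
          obtain ⟨i, hi, h1, h2⟩ := exists_slab hr (q.1.2 : ℝ) q.1.2.2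
          simp only [mem_iUnion]
          exact ⟨i, hi, h1, h2⟩
        refine StabNullOn.mono hcov (le_refl _) ?_
        refine StabNullOn.glue_fin hF'' r T (fun i _ => hT i) ?_ ?_
        · rintro i hi i' hi' hii' q ⟨⟨h1, h2⟩, ⟨h3, h4⟩⟩
          right
          left
          rcases lt_or_gt_of_ne hii' with hlt | hlt
          · have hm : tau r (i + 1) ≤ tau r i' := tau_mono hlt
            exact ⟨i', by omega, by linarith⟩
          · have hm : tau r (i' + 1) ≤ tau r i := tau_mono hlt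
            exact ⟨i, by omega, by linarith⟩
        · intro i hi
          have hd' : Module.finrank ℝ (W × V₀) = j + 1 + Module.finrank ℝ (V × V₀) := by
            rw [Module.finrank_prod, Module.finrank_prod, hd]
            omega
          have hi0 : -1 ≤ tau r i := (tau_mem hr (by omega : i ≤ r)).1
          have hi1 : tau r (i + 1) ≤ 1 := (tau_mem hr (by omega : i + 1 ≤ r)).2
          have hslab := slab h (V × V₀) (W × V₀) hd' (hA i) (tau r i) (tau r (i + 1)) hi0
            (tau_lt hr (Nat.lt_succ_self i)) hi1 F'' hF'' (by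
              rintro y t ⟨v, v₀⟩ ht1 ht2 hcase
              show F' (((y, t), v), v₀) ≠ 0
              apply hF'0
              rcases hcase with hy | ht | ht | hv
              · left
                left
                left
                exact (hC'm _).2 ⟨i, hi, ⟨ht1, ht2⟩, hy⟩
              · left
                right
                exact (hDm _).2 ⟨i, by omega, ht⟩
              · left
                right
                exact (hDm _).2 ⟨i + 1, by omega, ht⟩
              · rw [Prod.norm_def] at hv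
                rcases le_max_iff.1 hv with hv | hv
                · left
                  left
                  right
                  exact hv
                · right
                  exact hv)
          refine StabNullOn.comp (F := F'') (fun q => q) continuousOn_id (fun q hq => hq) ?_ hslab
          rintro q ⟨hq1, hq2⟩ hqB
          rcases hqB with hq | ⟨i', hi', hq⟩ | hq
          · obtain ⟨i', hi', ⟨h1, h2⟩, h3⟩ := (hC'm _).1 hq
            rcases lt_trichotomy i' i with hlt | heq | hlt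
            · right
              left
              have hm : tau r (i' + 1) ≤ tau r i := tau_mono hlt
              linarith
            · left
              rw [← heq]
              exact h3
            · right
              right
              left
              have hm : tau r (i + 1) ≤ tau r i' := tau_mono hlt
              linarith
          · rcases lt_trichotomy i' i with hlt | heq | hlt
            · exfalso
              have := tau_lt hr hlt
              linarith
            · right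
              left
              rw [← heq]
              exact hq
            · right
              right
              left
              have hm : tau r (i + 1) ≤ tau r i' := tau_mono hlt
              linarith
          · right
            right
            right
            exact hq
      have hcomp := StabNull.comp (B' := {p : ((Y × Icc (-1 : ℝ) 1) × V) × V₀ |
        p.1 ∈ B ∪ D ∨ 1 ≤ ‖p.2‖}) E hE (by
          rintro ⟨⟨p, v⟩, v₀⟩ hz
          rcases hz with (hz | hz) | hz
          · rcases hz with hz | hz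
            · left
              exact hz
            · right
              right
              show 1 ≤ ‖(v, v₀)‖
              rw [Prod.norm_def]
              exact le_max_of_le_left hz
          · right
            left
            exact (hDm _).1 hz
          · right
            right
            show 1 ≤ ‖(v, v₀)‖
            rw [Prod.norm_def]
            exact le_max_of_le_right hz) hkey
      exact hcomp
  refine StabNull.mono ?_ hmain
  rintro ⟨p, v⟩ hz
  rcases hz with hz | hz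
  · left
    exact hCC' hz
  · right
    exact hz

end SMD

end

/-! ### from `Lib_MP_33f7bb_an.PTLA` -/

section

/-! Piece PTLA: products with cubes. -/

open Set Filter Topology

namespace SMD

theorem SI.congr {Y Y' : Type*} [TopologicalSpace Y] [TopologicalSpace Y'] (e : Y ≃ₜ Y') {j : ℕ}
    (h : SI Y j) : SI Y' j := by
  intro A hA V _ _ _ W _ _ _ hfr F hF hF0
  have h1 := h (e ⁻¹' A) (hA.preimage e.continuous) V W hfr (fun p => F (e p.1, p.2))
    (hF.comp ((e.continuous.comp continuous_fst).prodMk continuous_snd))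
    (fun y v hyv => hF0 (e y) v hyv)
  have h2 := StabNull.comp (B' := {p : Y' × V | p.1 ∈ A ∨ 1 ≤ ‖p.2‖})
    (fun p : Y' × V => (e.symm p.1, p.2))
    ((e.symm.continuous.comp continuous_fst).prodMk continuous_snd) (fun z hz => by
      rcases hz with hz | hz
      · left
        show e (e.symm z.1) ∈ A
        rw [e.apply_symm_apply]
        exact hz
      · right
        exact hz) h1
  have h3 : (fun z : Y' × V => F (e (e.symm z.1), z.2)) = F := by
    funext z
    rw [e.apply_symm_apply]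
  rw [← h3]
  exact h2

/-- the homeomorphism `(X × (Fin n → I)) × I ≃ₜ X × (Fin (n+1) → I)` -/
def cubeHomeo (X I : Type*) [TopologicalSpace X] [TopologicalSpace I] (n : ℕ) :
    (X × (Fin n → I)) × I ≃ₜ X × (Fin (n + 1) → I) where
  toFun p := (p.1.1, Fin.cons p.2 p.1.2)
  invFun q := ((q.1, Fin.tail q.2), q.2 0)
  left_inv p := by
    simp
  right_inv q := by
    simp
  continuous_toFun := by
    refine (continuous_fst.comp continuous_fst).prodMk (continuous_pi fun i => ?_)
    refine Fin.cases ?_ (fun k => ?_) i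
    · simpa using continuous_snd
    · simp only [Fin.cons_succ]
      exact (continuous_apply k).comp (continuous_snd.comp continuous_fst)
  continuous_invFun := by
    refine (continuous_fst.prodMk (continuous_pi fun i => ?_)).prodMk
      ((continuous_apply 0).comp continuous_snd)
    exact (continuous_apply i.succ).comp continuous_snd

/-- the homeomorphism `X ≃ₜ X × (Fin 0 → I)` -/
def cubeHomeo0 (X I : Type*) [TopologicalSpace X] [TopologicalSpace I] :
    X ≃ₜ X × (Fin 0 → I) where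
  toFun p := (p, Fin.elim0)
  invFun q := q.1
  left_inv _ := rfl
  right_inv _ := Prod.ext rfl (Subsingleton.elim _ _)
  continuous_toFun := continuous_id.prodMk continuous_const
  continuous_invFun := continuous_fst

/-- PROOF. Induction on `n`: `X × (Fin 0 → I) ≃ₜ X`, and
`(X × (Fin n → I)) × I ≃ₜ X × (Fin (n+1) → I)`; use `SI_prod` and `SI.congr`:
if `c + (n + 1) < j'` then `j' = j + 1` with `c + n < j`. -/
theorem SI_cube {X : Type*} [TopologicalSpace X] [CompactSpace X]
    [TopologicalSpace.MetrizableSpace X] {c : ℕ} (h : ∀ j, c < j → SI X j) (n : ℕ) :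
    ∀ j, c + n < j → SI (X × (Fin n → Icc (-1 : ℝ) 1)) j := by
  induction n with
  | zero =>
    intro j hj
    exact SI.congr (cubeHomeo0 X (Icc (-1 : ℝ) 1)) (h j hj)
  | succ n ih =>
    intro j hj
    obtain ⟨j, rfl⟩ : ∃ k, j = k + 1 := ⟨j - 1, by omega⟩
    exact SI.congr (cubeHomeo X (Icc (-1 : ℝ) 1) n) (SI_prod (ih j (by omega)) (ih (j + 1) (by omega)))

end SMD

end

/-! ### from `Lib_MP_33f7bb_an.PUSH` -/

section

/-! Piece PUSH: pushing the map off one open grid cell of dimension `> c`. -/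

open Set Filter Topology

namespace SMD

theorem car_of_oCell {M : ℕ} {J : Finset (Fin M)} {a : Fin M → ℤ} {q p p' : Fin M → ℝ}
    (hp : p ∈ oCell J a) (hq : car q p) (hp' : p' ∈ cCell J a) : car q p' := by
  intro l
  obtain ⟨h1, h2⟩ := hq l
  by_cases hl : l ∈ J
  · obtain ⟨h3, h4⟩ := hp.1 l hl
    obtain ⟨h5, h6⟩ := hp'.1 l hl
    have e1 : ⌊q l⌋ ≤ a l := by
      have : (⌊q l⌋ : ℝ) < a l + 1 := lt_of_le_of_lt h1 h4
      have : ⌊q l⌋ < a l + 1 := by exact_mod_cast this
      omega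
    have e2 : a l + 1 ≤ ⌈q l⌉ := by
      have : (a l : ℝ) < ⌈q l⌉ := lt_of_lt_of_le h3 h2
      have : a l < ⌈q l⌉ := by exact_mod_cast this
      omega
    have e1' : (⌊q l⌋ : ℝ) ≤ a l := by exact_mod_cast e1
    have e2' : (a l : ℝ) + 1 ≤ ⌈q l⌉ := by exact_mod_cast e2
    exact ⟨by linarith, by linarith⟩
  · rw [hp'.2 l hl, ← hp.2 l hl]
    exact ⟨h1, h2⟩

theorem push_isClosed_cCell {M : ℕ} (J : Finset (Fin M)) (a : Fin M → ℤ) : IsClosed (cCell J a) := by
  have e : cCell J a = (⋂ l ∈ J, {p : Fin M → ℝ | (a l : ℝ) ≤ p l ∧ p l ≤ a l + 1}) ∩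
      ⋂ l ∈ (univ : Set (Fin M)) \ J, {p : Fin M → ℝ | p l = a l} := by
    ext p
    simp [cCell]
  rw [e]
  refine IsClosed.inter (isClosed_biInter fun l _ => ?_) (isClosed_biInter fun l _ => ?_)
  · exact (isClosed_le continuous_const (continuous_apply l)).inter
      (isClosed_le (continuous_apply l) continuous_const)
  · exact isClosed_eq (continuous_apply l) continuous_const

/-- The coordinate map of the cell. -/
noncomputable def pushPsi {M : ℕ} (J : Finset (Fin M)) (a : Fin M → ℤ) (p : Fin M → ℝ) : J → ℝ :=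
  fun l => max (-1) (min 1 (2 * (p l - a l) - 1))

theorem pushPsi_continuous {M : ℕ} (J : Finset (Fin M)) (a : Fin M → ℤ) :
    Continuous (pushPsi J a) := by
  unfold pushPsi
  fun_prop

theorem pushPsi_norm_le {M : ℕ} (J : Finset (Fin M)) (a : Fin M → ℤ) (p : Fin M → ℝ) :
    ‖pushPsi J a p‖ ≤ 1 := by
  rw [pi_norm_le_iff_of_nonneg zero_le_one]
  intro l
  rw [Real.norm_eq_abs, abs_le]
  refine ⟨le_max_left _ _, max_le (by norm_num) (min_le_left _ _)⟩

theorem pushPsi_of_cCell {M : ℕ} {J : Finset (Fin M)} {a : Fin M → ℤ} {p : Fin M → ℝ}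
    (hp : p ∈ cCell J a) (l : J) : pushPsi J a p l = 2 * (p l - a l) - 1 := by
  obtain ⟨h1, h2⟩ := hp.1 l l.2
  unfold pushPsi
  rw [min_eq_right (by linarith), max_eq_right (by linarith)]

theorem pushPsi_boundary {M : ℕ} {J : Finset (Fin M)} {a : Fin M → ℤ} {p : Fin M → ℝ}
    (hp : p ∈ cCell J a) (hp' : p ∉ oCell J a) : 1 ≤ ‖pushPsi J a p‖ := by
  have : ∃ l : J, ¬ ((a l : ℝ) < p l ∧ p l < a l + 1) := by
    by_contra hcon
    push Not at hcon
    refine hp' ⟨fun l hl => ?_, hp.2⟩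
    have := hcon ⟨l, hl⟩
    by_contra hh
    rw [not_and_or] at hh
    have h3 := hp.1 l hl
    rcases hh with hh | hh
    · have e : p l = a l := le_antisymm (not_lt.mp hh) h3.1
      simp only [e] at *
      exact hh (this.1)
    · exact hh this.2
  obtain ⟨l, hl⟩ := this
  refine le_trans ?_ (norm_le_pi_norm (pushPsi J a p) l)
  rw [pushPsi_of_cCell hp, Real.norm_eq_abs]
  have h3 := hp.1 l l.2
  rw [not_and_or, not_lt, not_lt] at hl
  rcases hl with hl | hl
  · have e : p l = a l := le_antisymm hl h3.1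
    rw [e]; norm_num
  · have e : p l = a l + 1 := le_antisymm h3.2 hl
    rw [e]; norm_num

/-- The inverse of `pushPsi` on the closed cell. -/
noncomputable def pushInv {M : ℕ} (J : Finset (Fin M)) (a : Fin M → ℤ) (q : J → ℝ) :
    Fin M → ℝ :=
  fun l => if h : l ∈ J then a l + (q ⟨l, h⟩ + 1) / 2 else a l

theorem pushInv_continuous {M : ℕ} (J : Finset (Fin M)) (a : Fin M → ℤ) :
    Continuous (pushInv J a) := by
  refine continuous_pi fun l => ?_
  unfold pushInv
  by_cases h : l ∈ J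
  · simp only [h, dite_true]
    fun_prop
  · simp only [h, dite_false]
    fun_prop

theorem pushInv_psi {M : ℕ} {J : Finset (Fin M)} {a : Fin M → ℤ} {p : Fin M → ℝ}
    (hp : p ∈ cCell J a) : pushInv J a (pushPsi J a p) = p := by
  ext l
  unfold pushInv
  by_cases h : l ∈ J
  · simp only [h, dite_true]
    rw [pushPsi_of_cCell hp ⟨l, h⟩]
    ring
  · simp only [h, dite_false]
    exact (hp.2 l h).symm

theorem pushInv_mem {M : ℕ} {J : Finset (Fin M)} {a : Fin M → ℤ} {q : J → ℝ}
    (hq : ‖q‖ ≤ 1) : pushInv J a q ∈ cCell J a := by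
  refine ⟨fun l hl => ?_, fun l hl => ?_⟩
  · have h1 := (norm_le_pi_norm q ⟨l, hl⟩).trans hq
    rw [Real.norm_eq_abs, abs_le] at h1
    unfold pushInv
    simp only [hl, dite_true]
    constructor <;> linarith
  · unfold pushInv
    simp only [hl, dite_false]

theorem pushInv_notMem {M : ℕ} {J : Finset (Fin M)} {a : Fin M → ℤ} {q : J → ℝ}
    (hq : ‖q‖ = 1) : pushInv J a q ∉ oCell J a := by
  intro hcon
  have : ‖q‖ < 1 := by
    rw [pi_norm_lt_iff zero_lt_one]
    intro l
    have h := hcon.1 l l.2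
    unfold pushInv at h
    simp only [l.2, dite_true, Subtype.coe_eta] at h
    rw [Real.norm_eq_abs, abs_lt]
    constructor <;> linarith [h.1, h.2]
  exact absurd hq this.ne

/-- PROOF. Let `V, P, T` witness `Good f K`.  Let `W = (J → ℝ) × V` (finrank `#J + finrank V`),
`ψ (p) l = max (-1) (min 1 (2 (p l - a l) - 1))` for `l ∈ J`, and `F z = (ψ (P z), T z)`.
`Y = {z | P z ∈ cCell J a ∧ ‖T z‖ ≤ 1}`,
`C = {z | P z ∈ cCell J a ∧ 1 ≤ ‖F z‖} ∪ {(x, v) | 1 ≤ ‖v‖}`; `F ≠ 0` on `C` (for `1 ≤ ‖v‖` the last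
clause of `Good` with `u = 0` gives `1 ≤ ‖T z‖`).  `PT` gives `V', G` (for `StabNull C F`).
New space `V × V'`; new maps, for `z = (x, v)` and `s ∈ V'`:
* if `z ∈ Y` and `‖s‖ ≤ 1`: with `g = ‖G (z, s)‖⁻¹ • G (z, s) ∈ ((J → ℝ) × V) × V'`,
  `P' l = a l + (g.1.1 l + 1) / 2` for `l ∈ J`, `P' l = a l` otherwise; `T' = (g.1.2, g.2)`;
* otherwise `P' = P z`, `T' = (T z, s)`.
Continuity: the first formula holds on the closed set `R₁ = {z ∈ Y, ‖s‖ ≤ 1}`, the second one on the
closed set `R₂ = {z ∉ U ∨ 1 ≤ ‖s‖}` where `U = {z | ‖T z‖ < 1 ∧ P z ∈ oCell J a}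
= {z | ‖T z‖ < 1 ∧ P z ∉ K \ oCell J a}` is open; `R₁ ∪ R₂` is everything, and on `R₁ ∩ R₂`
`G (z, s) = (F z, s)` has norm exactly `1` (either `‖s‖ = 1`, or `‖T z‖ = 1`, or `P z` is in the
closed and not in the open cell, then `|ψ l| = 1` for some `l ∈ J`; all components are `≤ 1`), and
the first formula gives back `P z` (because `P z ∈ cCell J a`) and `(T z, s)`.
* `‖T'‖ < 1 → P' ∈ K \ oCell J a`: in `R₁`, `‖g‖ = 1` so `‖g.1.1‖ = 1`, some `|g.1.1 l| = 1`, so
  `P' ∈ cCell J a \ oCell J a ⊆ K`; in `R₂ \ R₁`: `‖T z‖ < 1` so `P z ∈ K`, and `‖s‖ < 1` so `z ∉ U`.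
* `car`: in `R₁` with `z ∈ U` use `car_of_oCell`; in `R₁` with `z ∉ U` (then `z ∈ C`) `P' = P z`.
* last clause: if `1 ≤ ‖v‖` then `z ∈ C`, so `T' = (T z, s)` always and the first component of
  `(1 - u) T' + u (v, s)` has norm `≥ 1`; if `1 ≤ ‖s‖` then `T' = (T z, s)` and the second component
  is `s`. -/
theorem push {X : Type*} [TopologicalSpace X] {c : ℕ} (hX : PT X c) {M : ℕ}
    {f : X → (Fin M → ℝ)} (hf : Continuous f) {K : Set (Fin M → ℝ)} (J : Finset (Fin M))
    (a : Fin M → ℤ) (hJ : c < J.card) (hK : IsClosed K) (hK' : IsClosed (K \ oCell J a))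
    (hb : cCell J a \ oCell J a ⊆ K) (h : Good f K) : Good f (K \ oCell J a) := by
  classical
  obtain ⟨V, iV1, iV2, iV3, P, T, hP, hT, h1, h2, h3⟩ := h
  have hoc : oCell J a ⊆ cCell J a := fun p hp =>
    ⟨fun l hl => ⟨(hp.1 l hl).1.le, (hp.1 l hl).2.le⟩, hp.2⟩
  set F : X × V → (J → ℝ) × V := fun z => (pushPsi J a (P z), T z) with hF
  have hFc : Continuous F := ((pushPsi_continuous J a).comp hP).prodMk hT
  set C : Set (X × V) := {z | P z ∈ cCell J a ∧ 1 ≤ ‖F z‖} ∪ {z | 1 ≤ ‖z.2‖} with hC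
  have hCc : IsClosed C := by
    refine IsClosed.union (IsClosed.inter ?_ ?_) ?_
    · exact (push_isClosed_cCell J a).preimage hP
    · exact isClosed_le continuous_const hFc.norm
    · exact isClosed_le continuous_const continuous_snd.norm
  have hT1 : ∀ x v, 1 ≤ ‖v‖ → 1 ≤ ‖T (x, v)‖ := by
    intro x v hv
    have := h3 x v hv 0 ⟨le_refl _, zero_le_one⟩
    simpa using this
  have hC0 : ∀ z ∈ C, F z ≠ 0 := by
    rintro ⟨x, v⟩ (⟨_, hz⟩ | hz) h0
    · rw [h0, norm_zero] at hz
      linarith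
    · have h4 := hT1 x v hz
      have : T (x, v) = 0 := congrArg Prod.snd h0
      rw [this, norm_zero] at h4
      linarith
  have hfin : Module.finrank ℝ ((J → ℝ) × V) = J.card + Module.finrank ℝ V := by
    rw [Module.finrank_prod, Module.finrank_fintype_fun_eq_card, Fintype.card_coe]
  obtain ⟨V', iV1', iV2', iV3', G, hG, hG0, hGC⟩ :=
    hX V ((J → ℝ) × V) J.card hJ hfin C hCc (fun x v hv => Or.inr hv) F hFc hC0
  -- normalised map
  set g : X × (V × V') → ((J → ℝ) × V) × V' :=
    fun y => ‖G ((y.1, y.2.1), y.2.2)‖⁻¹ • G ((y.1, y.2.1), y.2.2) with hg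
  have hGy : Continuous fun y : X × (V × V') => G ((y.1, y.2.1), y.2.2) := by
    refine hG.comp ?_
    fun_prop
  have hgc : Continuous g := by
    refine Continuous.smul (Continuous.inv₀ hGy.norm fun y => ?_) hGy
    exact norm_ne_zero_iff.mpr (hG0 _)
  have hgn : ∀ y, ‖g y‖ = 1 := by
    intro y
    simp only [hg, norm_smul, norm_inv, norm_norm]
    exact inv_mul_cancel₀ (norm_ne_zero_iff.mpr (hG0 _))
  set P1 : X × (V × V') → (Fin M → ℝ) := fun y => pushInv J a (g y).1.1 with hP1
  set T1 : X × (V × V') → V × V' := fun y => ((g y).1.2, (g y).2) with hT1'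
  set P2 : X × (V × V') → (Fin M → ℝ) := fun y => P (y.1, y.2.1) with hP2
  set T2 : X × (V × V') → V × V' := fun y => (T (y.1, y.2.1), y.2.2) with hT2
  have hP1c : Continuous P1 := (pushInv_continuous J a).comp (continuous_fst.comp (continuous_fst.comp hgc))
  have hT1c : Continuous T1 :=
    (continuous_snd.comp (continuous_fst.comp hgc)).prodMk (continuous_snd.comp hgc)
  have hP2c : Continuous P2 := hP.comp (by fun_prop)
  have hT2c : Continuous T2 := (hT.comp (by fun_prop)).prodMk (by fun_prop)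
  set R1 : Set (X × (V × V')) :=
    {y | (P2 y ∈ cCell J a ∧ ‖T (y.1, y.2.1)‖ ≤ 1) ∧ ‖y.2.2‖ ≤ 1} with hR1
  set R2 : Set (X × (V × V')) :=
    {y | (1 ≤ ‖T (y.1, y.2.1)‖ ∨ P2 y ∈ K \ oCell J a) ∨ 1 ≤ ‖y.2.2‖} with hR2
  have hTy : Continuous fun y : X × (V × V') => T (y.1, y.2.1) := hT.comp (by fun_prop)
  have hR1c : IsClosed R1 := by
    refine IsClosed.inter (IsClosed.inter ?_ ?_) ?_
    · exact (push_isClosed_cCell J a).preimage hP2c
    · exact isClosed_le hTy.norm continuous_const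
    · exact isClosed_le (continuous_snd.comp continuous_snd).norm continuous_const
  have hR2c : IsClosed R2 := by
    refine IsClosed.union (IsClosed.union ?_ ?_) ?_
    · exact isClosed_le continuous_const hTy.norm
    · exact hK'.preimage hP2c
    · exact isClosed_le continuous_const (continuous_snd.comp continuous_snd).norm
  have hcov : ∀ y, y ∉ R1 → y ∈ R2 := by
    intro y hy
    by_contra hy2
    simp only [hR2, mem_ofPred_eq, not_or, not_le] at hy2
    obtain ⟨⟨h4, h5⟩, h6⟩ := hy2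
    have h7 : P2 y ∈ K := h1 _ h4
    have h8 : P2 y ∈ oCell J a := by
      by_contra h9
      exact h5 ⟨h7, h9⟩
    exact hy ⟨⟨hoc h8, h4.le⟩, h6.le⟩
  -- on the intersection
  have hint : ∀ y, y ∈ R1 → y ∈ R2 → g y = (F (y.1, y.2.1), y.2.2) := by
    rintro ⟨x, v, s⟩ ⟨⟨h4, h5⟩, h6⟩ h7
    simp only [hP2] at h4 h5 h6
    have hψ := pushPsi_norm_le J a (P (x, v))
    have key : ((x, v) ∈ C ∨ 1 ≤ ‖s‖) ∧ ‖(F (x, v), s)‖ = 1 := by
      rcases h7 with (h7 | h7) | h7
      · have h8 : ‖T (x, v)‖ = 1 := le_antisymm h5 h7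
        have h9 : ‖F (x, v)‖ = 1 := by
          simp only [hF, Prod.norm_def]
          rw [h8, max_eq_right hψ]
        refine ⟨Or.inl (Or.inl ⟨h4, h9.ge⟩), ?_⟩
        rw [Prod.norm_def]
        simp only
        rw [h9, max_eq_left h6]
      · have h8 : ‖pushPsi J a (P (x, v))‖ = 1 := le_antisymm hψ (pushPsi_boundary h4 h7.2)
        have h9 : ‖F (x, v)‖ = 1 := by
          simp only [hF, Prod.norm_def]
          rw [h8, max_eq_left h5]
        refine ⟨Or.inl (Or.inl ⟨h4, h9.ge⟩), ?_⟩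
        rw [Prod.norm_def]
        simp only
        rw [h9, max_eq_left h6]
      · have h8 : ‖s‖ = 1 := le_antisymm h6 h7
        have h9 : ‖F (x, v)‖ ≤ 1 := by
          simp only [hF, Prod.norm_def]
          exact max_le hψ h5
        refine ⟨Or.inr h7, ?_⟩
        rw [Prod.norm_def]
        simp only
        rw [h8, max_eq_right h9]
    have h10 := hGC (x, v) s key.1
    simp only [hg]
    rw [h10, key.2, inv_one, one_smul]
  have hagP : ∀ y, y ∈ R1 → y ∈ R2 → P1 y = P2 y := by
    intro y hy1 hy2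
    simp only [hP1]
    rw [hint y hy1 hy2]
    exact pushInv_psi hy1.1.1
  have hagT : ∀ y, y ∈ R1 → y ∈ R2 → T1 y = T2 y := by
    intro y hy1 hy2
    simp only [hT1']
    rw [hint y hy1 hy2]
  have hfr : ∀ y ∈ frontier R1, y ∈ R1 ∧ y ∈ R2 := by
    intro y hy
    refine ⟨hR1c.frontier_subset hy, ?_⟩
    rw [frontier_eq_closure_inter_closure] at hy
    have : closure R1ᶜ ⊆ R2 := closure_minimal (fun y hy => hcov y hy) hR2c
    exact this hy.2
  have hPR2 : ∀ y ∈ R2, R1.piecewise P1 P2 y = P2 y := by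
    intro y hy
    by_cases hy1 : y ∈ R1
    · rw [Set.piecewise_eq_of_mem _ _ _ hy1]; exact hagP y hy1 hy
    · rw [Set.piecewise_eq_of_notMem _ _ _ hy1]
  have hTR2 : ∀ y ∈ R2, R1.piecewise T1 T2 y = T2 y := by
    intro y hy
    by_cases hy1 : y ∈ R1
    · rw [Set.piecewise_eq_of_mem _ _ _ hy1]; exact hagT y hy1 hy
    · rw [Set.piecewise_eq_of_notMem _ _ _ hy1]
  have hg11 : ∀ y, ‖(g y).1.1‖ ≤ 1 := by
    intro y
    have := hgn y
    calc ‖(g y).1.1‖ ≤ ‖(g y).1‖ := le_max_left _ _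
      _ ≤ ‖g y‖ := le_max_left _ _
      _ = 1 := this
  refine ⟨V × V', inferInstance, inferInstance, inferInstance, R1.piecewise P1 P2,
    R1.piecewise T1 T2, ?_, ?_, ?_, ?_, ?_⟩
  · exact Continuous.piecewise (fun y hy => hagP y (hfr y hy).1 (hfr y hy).2) hP1c hP2c
  · exact Continuous.piecewise (fun y hy => hagT y (hfr y hy).1 (hfr y hy).2) hT1c hT2c
  · intro y hy
    by_cases hy1 : y ∈ R1
    · rw [Set.piecewise_eq_of_mem _ _ _ hy1] at hy ⊢
      have h4 : ‖(g y).1.1‖ = 1 := by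
        have h5 := hgn y
        have h6 : ‖(g y).1.2‖ < 1 := lt_of_le_of_lt (le_max_left _ _) hy
        have h7 : ‖(g y).2‖ < 1 := lt_of_le_of_lt (le_max_right _ _) hy
        rw [Prod.norm_def, Prod.norm_def] at h5
        refine le_antisymm (hg11 y) ?_
        by_contra h8
        push Not at h8
        exact absurd h5 (max_lt (max_lt h8 h6) h7).ne
      have h5 := pushInv_mem (a := a) h4.le
      have h6 := pushInv_notMem (a := a) h4
      exact ⟨hb ⟨h5, h6⟩, h6⟩
    · rw [Set.piecewise_eq_of_notMem _ _ _ hy1] at hy ⊢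
      have h6 : ‖T (y.1, y.2.1)‖ < 1 := lt_of_le_of_lt (le_max_left _ _) hy
      have h7 : ‖y.2.2‖ < 1 := lt_of_le_of_lt (le_max_right _ _) hy
      rcases hcov y hy1 with (h8 | h8) | h8
      · exact absurd h6 (not_lt.mpr h8)
      · exact h8
      · exact absurd h7 (not_lt.mpr h8)
  · intro y
    have h4 := h2 (y.1, y.2.1)
    by_cases hy2 : y ∈ R2
    · rw [hPR2 y hy2]; exact h4
    · have hy1 : y ∈ R1 := by
        by_contra hy1
        exact hy2 (hcov y hy1)
      rw [Set.piecewise_eq_of_mem _ _ _ hy1]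
      simp only [hR2, mem_ofPred_eq, not_or, not_le] at hy2
      obtain ⟨⟨h5, h6⟩, h7⟩ := hy2
      have h8 : P2 y ∈ oCell J a := by
        by_contra h9
        exact h6 ⟨h1 _ h5, h9⟩
      exact car_of_oCell h8 h4 (pushInv_mem (hg11 y))
  · rintro x ⟨v, s⟩ hvs u hu
    have hor : 1 ≤ ‖v‖ ∨ 1 ≤ ‖s‖ := by
      rw [Prod.norm_def] at hvs
      exact le_max_iff.mp hvs
    rcases hor with hv | hs
    · have hy2 : (x, (v, s)) ∈ R2 := Or.inl (Or.inl (hT1 x v hv))
      rw [hTR2 _ hy2]
      refine le_trans (h3 x v hv u hu) ?_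
      exact le_max_left _ _
    · have hy2 : (x, (v, s)) ∈ R2 := Or.inr hs
      rw [hTR2 _ hy2]
      have e : ((1 - u) • T2 (x, (v, s)) + u • (v, s)).2 = s := by
        simp only [hT2, Prod.snd_add, Prod.smul_snd]
        rw [← add_smul]
        simp
      calc (1 : ℝ) ≤ ‖s‖ := hs
        _ = ‖((1 - u) • T2 (x, (v, s)) + u • (v, s)).2‖ := by rw [e]
        _ ≤ _ := le_max_right _ _

end SMD

end

/-! ### from `Lib_MP_33f7bb_an.SKELA` -/

section

/-! Piece SKELA: skeleta of the grid, base case. -/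

open Set Filter Topology

namespace SMD

theorem isClosed_Sk (M c : ℕ) : IsClosed (Sk M c) := by
  classical
  have e : Sk M c = ⋃ J ∈ (Finset.univ.filter fun J : Finset (Fin M) => J.card ≤ c),
      {p : Fin M → ℝ | ∀ l ∉ J, p l ∈ range (Int.cast : ℤ → ℝ)} := by
    ext p
    rw [mem_iUnion₂]
    constructor
    · intro hp
      have hp' : {l : Fin M | ∀ z : ℤ, p l ≠ z}.ncard ≤ c := hp
      refine ⟨Finset.univ.filter fun l => ∀ z : ℤ, p l ≠ z, ?_, ?_⟩
      · rw [Finset.mem_filter]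
        refine ⟨Finset.mem_univ _, ?_⟩
        rw [← Set.ncard_coe_finset]
        simpa using hp'
      · intro l hl
        simp only [Finset.mem_filter, Finset.mem_univ, true_and, not_forall, not_not] at hl
        obtain ⟨z, hz⟩ := hl
        exact ⟨z, hz.symm⟩
    · rintro ⟨J, hJ, hp⟩
      rw [Finset.mem_filter] at hJ
      have hp' : ∀ l ∉ J, p l ∈ range (Int.cast : ℤ → ℝ) := hp
      change {l : Fin M | ∀ z : ℤ, p l ≠ z}.ncard ≤ c
      refine le_trans ?_ hJ.2
      rw [← Set.ncard_coe_finset]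
      refine Set.ncard_le_ncard ?_ (Finset.finite_toSet J)
      intro l hl
      by_contra h
      obtain ⟨z, hz⟩ := hp' l (by simpa using h)
      exact hl z hz.symm
  rw [e]
  refine Set.Finite.isClosed_biUnion (Finset.finite_toSet _) ?_
  intro J _
  have e2 : {p : Fin M → ℝ | ∀ l ∉ J, p l ∈ range (Int.cast : ℤ → ℝ)} =
      ⋂ l, ⋂ (_ : l ∉ J), {p : Fin M → ℝ | p l ∈ range (Int.cast : ℤ → ℝ)} := by
    ext p
    simp
  rw [e2]
  refine isClosed_iInter fun l => isClosed_iInter fun _ => ?_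
  exact Int.isClosedEmbedding_coe_real.isClosed_range.preimage (continuous_apply l)

theorem Sk_top (M : ℕ) : Sk M M = univ := by
  ext p
  simp only [mem_univ, iff_true]
  change {l : Fin M | ∀ z : ℤ, p l ≠ z}.ncard ≤ M
  calc {l : Fin M | ∀ z : ℤ, p l ≠ z}.ncard ≤ (univ : Set (Fin M)).ncard :=
        Set.ncard_le_ncard (subset_univ _) finite_univ
    _ = M := by rw [Set.ncard_univ, Nat.card_eq_fintype_card, Fintype.card_fin]

/-- base case: `V = Fin 0 → ℝ`, `P (x, v) = f x`, `T (x, v) = v`. -/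
theorem good_univ {X : Type*} [TopologicalSpace X] {M : ℕ} {f : X → (Fin M → ℝ)}
    (hf : Continuous f) : Good f univ := by
  refine ⟨Fin 0 → ℝ, inferInstance, inferInstance, inferInstance, fun z => f z.1, fun z => z.2,
    hf.comp continuous_fst, continuous_snd, fun _ _ => mem_univ _, fun z l => ⟨Int.floor_le _, Int.le_ceil _⟩, ?_⟩
  intro x v hv u _
  change 1 ≤ ‖(1 - u) • v + u • v‖
  rw [← add_smul, sub_add_cancel, one_smul]
  exact hv

end SMD

end

/-! ### from `Lib_MP_33f7bb_an.SKELB` -/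

section

/-! Piece SKELB: pushing into the skeleton. -/

open Set Filter Topology

namespace SMD

/-- The set of noninteger coordinates. -/
private def nonInt {M : ℕ} (p : Fin M → ℝ) : Set (Fin M) := {l : Fin M | ∀ z : ℤ, p l ≠ z}

private theorem mem_Sk {M c : ℕ} {p : Fin M → ℝ} : p ∈ Sk M c ↔ (nonInt p).ncard ≤ c := Iff.rfl

private theorem nonInt_of_oCell {M : ℕ} {J : Finset (Fin M)} {a : Fin M → ℤ} {p : Fin M → ℝ}
    (hp : p ∈ oCell J a) : nonInt p = (J : Set (Fin M)) := by
  ext l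
  constructor
  · intro hl
    by_contra h
    have h' : l ∉ J := by simpa using h
    exact hl (a l) (hp.2 l h')
  · intro hl z hz
    have hl' : l ∈ J := by simpa using hl
    obtain ⟨h1, h2⟩ := hp.1 l hl'
    rw [hz] at h1 h2
    have h1' : a l < z := by exact_mod_cast h1
    have h2' : z < a l + 1 := by exact_mod_cast h2
    omega

private theorem ncard_of_oCell {M : ℕ} {J : Finset (Fin M)} {a : Fin M → ℤ} {p : Fin M → ℝ}
    (hp : p ∈ oCell J a) : (nonInt p).ncard = J.card := by
  rw [nonInt_of_oCell hp, Set.ncard_coe_finset]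

/-- The open neighbourhood of a cell which meets the skeleton in the cell only. -/
private def nbh {M : ℕ} (J : Finset (Fin M)) (a : Fin M → ℤ) : Set (Fin M → ℝ) :=
  {p | (∀ l ∈ J, (a l : ℝ) < p l ∧ p l < a l + 1) ∧ ∀ l ∉ J, |p l - a l| < 1}

private theorem isOpen_nbh {M : ℕ} (J : Finset (Fin M)) (a : Fin M → ℤ) : IsOpen (nbh J a) := by
  have h : nbh J a = (⋂ l : Fin M, {p : Fin M → ℝ | l ∈ J → ((a l : ℝ) < p l ∧ p l < a l + 1)}) ∩
      ⋂ l : Fin M, {p : Fin M → ℝ | l ∉ J → |p l - a l| < 1} := by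
    ext p
    simp only [nbh, mem_ofPred_eq, mem_inter_iff, mem_iInter]
  rw [h]
  refine IsOpen.inter (isOpen_iInter_of_finite fun l => ?_) (isOpen_iInter_of_finite fun l => ?_)
  · by_cases hl : l ∈ J
    · have : {p : Fin M → ℝ | l ∈ J → ((a l : ℝ) < p l ∧ p l < a l + 1)} =
          {p : Fin M → ℝ | (a l : ℝ) < p l} ∩ {p : Fin M → ℝ | p l < a l + 1} := by
        ext p
        simp [hl]
      rw [this]
      exact (isOpen_lt continuous_const (continuous_apply l)).inter
        (isOpen_lt (continuous_apply l) continuous_const)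
    · simp [hl]
  · by_cases hl : l ∈ J
    · simp [hl]
    · have : {p : Fin M → ℝ | l ∉ J → |p l - a l| < 1} = {p : Fin M → ℝ | |p l - a l| < 1} := by
        ext p
        simp [hl]
      rw [this]
      exact isOpen_lt ((continuous_apply l).sub continuous_const).abs continuous_const

private theorem oCell_eq {M j : ℕ} {J : Finset (Fin M)} (hJ : J.card = j) (a : Fin M → ℤ)
    {p : Fin M → ℝ} (hp : p ∈ Sk M j) : p ∈ oCell J a ↔ p ∈ nbh J a := by
  constructor
  · rintro ⟨h1, h2⟩
    refine ⟨h1, fun l hl => ?_⟩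
    rw [h2 l hl]
    simp
  · rintro ⟨h1, h2⟩
    refine ⟨h1, fun l hl => ?_⟩
    by_contra hne
    -- the noninteger coordinates are exactly `J`
    have hsub : (J : Set (Fin M)) ⊆ nonInt p := by
      intro m hm z hz
      have hm' : m ∈ J := by simpa using hm
      obtain ⟨h3, h4⟩ := h1 m hm'
      rw [hz] at h3 h4
      have h3' : a m < z := by exact_mod_cast h3
      have h4' : z < a m + 1 := by exact_mod_cast h4
      omega
    have hl' : l ∈ nonInt p := by
      intro z hz
      have h5 := h2 l hl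
      rw [hz] at h5 hne
      have h6 : |((z - a l : ℤ) : ℝ)| < 1 := by
        push_cast
        exact h5
      have h7 : |z - a l| < 1 := by exact_mod_cast h6
      have h8 : z - a l = 0 := Int.abs_lt_one_iff.mp h7
      apply hne
      have : z = a l := by omega
      rw [this]
    have hsub' : ((insert l J : Finset (Fin M)) : Set (Fin M)) ⊆ nonInt p := by
      intro m hm
      rw [Finset.coe_insert] at hm
      rcases hm with rfl | hm
      · exact hl'
      · exact hsub hm
    have hc : (insert l J : Finset (Fin M)).card ≤ (nonInt p).ncard := by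
      rw [← Set.ncard_coe_finset]
      exact Set.ncard_le_ncard hsub' (Set.toFinite _)
    rw [Finset.card_insert_of_notMem hl, hJ] at hc
    have := mem_Sk.mp hp
    omega

private theorem bdry_ncard {M : ℕ} {J : Finset (Fin M)} {a : Fin M → ℤ} {p : Fin M → ℝ}
    (hp : p ∈ cCell J a) (hp' : p ∉ oCell J a) : (nonInt p).ncard < J.card := by
  have hsub : nonInt p ⊆ (J : Set (Fin M)) := by
    intro l hl
    by_contra h
    have h' : l ∉ J := by simpa using h
    exact hl (a l) (hp.2 l h')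
  have hne : ∃ l ∈ J, l ∉ nonInt p := by
    by_contra hcon
    push Not at hcon
    apply hp'
    refine ⟨fun l hl => ?_, hp.2⟩
    obtain ⟨h1, h2⟩ := hp.1 l hl
    have h3 := hcon l hl
    refine ⟨lt_of_le_of_ne h1 (fun h => h3 (a l) h.symm), lt_of_le_of_ne h2 (fun h => ?_)⟩
    exact h3 (a l + 1) (by push_cast; exact h)
  obtain ⟨l, hl, hl'⟩ := hne
  have hss : nonInt p ⊂ (J : Set (Fin M)) := by
    refine ⟨hsub, fun h => hl' (h ?_)⟩
    simpa using hl
  have := Set.ncard_lt_ncard hss (Set.toFinite _)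
  rwa [Set.ncard_coe_finset] at this

/-- One dimension.  PROOF. Let `j > c`, `Good f (Sk M j)`, and `|f x l| ≤ L` for all `x, l` with
`L : ℕ`.  For a finite set `T` of pairs `(J, a)` with `#J = j` one shows
`Good f (Sk M j \ ⋃ e ∈ T, oCell e.1 e.2)` by `Finset.induction_on` and `push`.  Closedness: for
`#J = j`, `oCell J a = Sk M j ∩ O` with the open set
`O = {p | (∀ l ∈ J, a l < p l < a l + 1) ∧ ∀ l ∉ J, |p l - a l| < 1}` (a point of `Sk M j` which is
not an integer in the coordinates `J` has integer coordinates elsewhere).  Also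
`cCell J a \ oCell J a ⊆ Sk M (j - 1)`, which is disjoint from all open cells of dimension `j`.
Finally take for `T` all `(J, a)` with `#J = j`, `-L ≤ a l ≤ L`: if `P z ∈ Sk M j` is in none of
these cells then, as `|P z l| ≤ L` by `car`, `P z ∈ Sk M (j - 1)` (otherwise it has exactly `j`
noninteger coordinates `J` and lies in `oCell J ⌊P z⌋`). -/
theorem good_step {X : Type*} [TopologicalSpace X] {c : ℕ} (hX : PT X c) {M : ℕ}
    {f : X → (Fin M → ℝ)} (hf : Continuous f) (hL : ∃ L : ℕ, ∀ x l, |f x l| ≤ L) {j : ℕ}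
    (hj : c < j) (h : Good f (Sk M j)) : Good f (Sk M (j - 1)) := by
  classical
  obtain ⟨L, hL⟩ := hL
  have hclosed : ∀ T : Finset (Finset (Fin M) × (Fin M → ℤ)), (∀ e ∈ T, e.1.card = j) →
      IsClosed (Sk M j \ ⋃ e ∈ T, oCell e.1 e.2) := by
    intro T hT
    have hEq : (Sk M j \ ⋃ e ∈ T, oCell e.1 e.2) = Sk M j ∩ (⋃ e ∈ T, nbh e.1 e.2)ᶜ := by
      ext p
      simp only [Set.mem_sdiff, mem_iUnion, mem_inter_iff, mem_compl_iff]
      constructor
      · rintro ⟨h1, h2⟩
        refine ⟨h1, ?_⟩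
        rintro ⟨e, he, hp⟩
        exact h2 ⟨e, he, (oCell_eq (hT e he) e.2 h1).mpr hp⟩
      · rintro ⟨h1, h2⟩
        refine ⟨h1, ?_⟩
        rintro ⟨e, he, hp⟩
        exact h2 ⟨e, he, (oCell_eq (hT e he) e.2 h1).mp hp⟩
    rw [hEq]
    refine (isClosed_Sk M j).inter (IsOpen.isClosed_compl ?_)
    exact isOpen_biUnion fun e _ => isOpen_nbh e.1 e.2
  have hkey : ∀ T : Finset (Finset (Fin M) × (Fin M → ℤ)), (∀ e ∈ T, e.1.card = j) →
      Good f (Sk M j \ ⋃ e ∈ T, oCell e.1 e.2) := by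
    intro T
    induction T using Finset.induction_on with
    | empty =>
      intro _
      simpa using h
    | insert e T he ih =>
      intro hT
      have hT' : ∀ e ∈ T, e.1.card = j := fun e' he' => hT e' (Finset.mem_insert_of_mem he')
      have he' : e.1.card = j := hT e (Finset.mem_insert_self e T)
      have hEq : (Sk M j \ ⋃ e' ∈ insert e T, oCell e'.1 e'.2) =
          (Sk M j \ ⋃ e' ∈ T, oCell e'.1 e'.2) \ oCell e.1 e.2 := by
        rw [Finset.set_biUnion_insert]
        ext p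
        simp only [Set.mem_sdiff, mem_union]
        tauto
      rw [hEq]
      refine push hX hf e.1 e.2 (by rw [he']; exact hj) (hclosed T hT') ?_ ?_ (ih hT')
      · rw [← hEq]
        exact hclosed _ hT
      · rintro p ⟨hp1, hp2⟩
        have h1 := bdry_ncard hp1 hp2
        rw [he'] at h1
        refine ⟨mem_Sk.mpr h1.le, ?_⟩
        simp only [mem_iUnion]
        rintro ⟨e', he'', hp⟩
        have h2 := ncard_of_oCell hp
        rw [hT' e' he''] at h2
        omega
  have hfin := hkey ((Finset.powersetCard j Finset.univ) ×ˢ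
    (Fintype.piFinset fun _ => Finset.Icc (-(L : ℤ)) L)) (by
      intro e he
      rw [Finset.mem_product, Finset.mem_powersetCard] at he
      exact he.1.2)
  obtain ⟨V, i1, i2, i3, P, T, hP, hTc, h1, h2, h3⟩ := hfin
  refine ⟨V, i1, i2, i3, P, T, hP, hTc, fun z hz => ?_, h2, h3⟩
  obtain ⟨hz1, hz2⟩ := h1 z hz
  by_contra hcon
  have hc1 : (nonInt (P z)).ncard ≤ j := mem_Sk.mp hz1
  have hc2 : ¬ (nonInt (P z)).ncard ≤ j - 1 := hcon
  have hc3 : (nonInt (P z)).ncard = j := by omega
  apply hz2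
  simp only [mem_iUnion]
  refine ⟨((nonInt (P z)).toFinite.toFinset, fun l => ⌊P z l⌋), ?_, ?_⟩
  · rw [Finset.mem_product, Finset.mem_powersetCard]
    refine ⟨⟨Finset.subset_univ _, ?_⟩, ?_⟩
    · rw [← hc3, Set.ncard_eq_toFinset_card _ (nonInt (P z)).toFinite]
    · rw [Fintype.mem_piFinset]
      intro l
      rw [Finset.mem_Icc]
      obtain ⟨h4, h5⟩ := h2 z l
      have h6 := abs_le.mp (hL z.1 l)
      have h7 : -(L : ℤ) ≤ ⌊f z.1 l⌋ := by
        rw [Int.le_floor]
        push_cast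
        exact h6.1
      have h8 : ⌈f z.1 l⌉ ≤ (L : ℤ) := by
        rw [Int.ceil_le]
        push_cast
        exact h6.2
      have h7' : (-(L : ℤ) : ℝ) ≤ (⌊f z.1 l⌋ : ℝ) := by exact_mod_cast h7
      have h8' : (⌈f z.1 l⌉ : ℝ) ≤ ((L : ℤ) : ℝ) := by exact_mod_cast h8
      constructor
      · show -(L : ℤ) ≤ ⌊P z l⌋
        rw [Int.le_floor]
        push_cast
        push_cast at h7'
        linarith
      · show ⌊P z l⌋ ≤ (L : ℤ)
        have h9 : (⌊P z l⌋ : ℝ) ≤ ((L : ℤ) : ℝ) := (Int.floor_le _).trans (h5.trans h8')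
        exact_mod_cast h9
  · constructor
    · intro l hl
      have hl' : l ∈ nonInt (P z) := by simpa using hl
      refine ⟨lt_of_le_of_ne (Int.floor_le _) (fun h => hl' _ h.symm), Int.lt_floor_add_one _⟩
    · intro l hl
      have hl' : l ∉ nonInt (P z) := by simpa using hl
      have hl'' : ∃ w : ℤ, P z l = w := by
        by_contra hno
        push Not at hno
        exact hl' hno
      obtain ⟨w, hw⟩ := hl''
      show P z l = ((⌊P z l⌋ : ℤ) : ℝ)
      rw [hw, Int.floor_intCast]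

/-- PROOF. From `good_univ`, `Sk_top` and `good_step` for `j = M, M - 1, ..., c + 1`
(if `M ≤ c` then `Sk M c = univ`). -/
theorem good_Sk {X : Type*} [TopologicalSpace X] {c : ℕ} (hX : PT X c) {M : ℕ}
    {f : X → (Fin M → ℝ)} (hf : Continuous f) (hL : ∃ L : ℕ, ∀ x l, |f x l| ≤ L) :
    Good f (Sk M c) := by
  rcases le_total M c with hMc | hMc
  · have : Sk M c = univ := by
      apply eq_univ_of_univ_subset
      rw [← Sk_top M]
      intro p hp
      exact le_trans hp hMc
    rw [this]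
    exact good_univ hf
  · have hstep : ∀ i : ℕ, c + i ≤ M → Good f (Sk M (M - i)) := by
      intro i
      induction i with
      | zero =>
        intro _
        rw [Nat.sub_zero, Sk_top]
        exact good_univ hf
      | succ i ih =>
        intro hi
        have := good_step hX hf hL (j := M - i) (by omega) (ih (by omega))
        have e : M - i - 1 = M - (i + 1) := by omega
        rwa [e] at this
    have := hstep (M - c) (by omega)
    have e : M - (M - c) = c := by omega
    rwa [e] at this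

end SMD

end

/-! ### from `Lib_MP_33f7bb_an.T2A` -/

section

/-! Piece T2A: the affine subspaces. -/

open Set Filter Topology

namespace SMD

/-- directions of the affine subspaces -/
def T2A_dir {M : ℕ} {I : Type} [Fintype I] (J : Finset (Fin M)) (T : Finset I) :
    Submodule ℝ (Fin M ⊕ I → ℝ) where
  carrier := {x | (∀ l ∉ J, x (Sum.inl l) = 0) ∧ (∀ v ∉ T, x (Sum.inr v) = 0) ∧ ∑ v, x (Sum.inr v) = 0}
  add_mem' := by
    rintro x y ⟨h1, h2, h3⟩ ⟨h4, h5, h6⟩
    refine ⟨fun l hl => ?_, fun v hv => ?_, ?_⟩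
    · rw [Pi.add_apply, h1 l hl, h4 l hl, add_zero]
    · rw [Pi.add_apply, h2 v hv, h5 v hv, add_zero]
    · simp only [Pi.add_apply]
      rw [Finset.sum_add_distrib, h3, h6, add_zero]
  zero_mem' := by
    refine ⟨fun l _ => rfl, fun v _ => rfl, ?_⟩
    simp
  smul_mem' := by
    rintro c x ⟨h1, h2, h3⟩
    refine ⟨fun l hl => ?_, fun v hv => ?_, ?_⟩
    · rw [Pi.smul_apply, h1 l hl, smul_zero]
    · rw [Pi.smul_apply, h2 v hv, smul_zero]
    · simp only [Pi.smul_apply]
      rw [← Finset.smul_sum, h3, smul_zero]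

theorem T2A_mem {M : ℕ} {I : Type} [Fintype I] (J : Finset (Fin M)) (T : Finset I)
    (x : Fin M ⊕ I → ℝ) : x ∈ T2A_dir J T ↔ (∀ l ∉ J, x (Sum.inl l) = 0) ∧
      (∀ v ∉ T, x (Sum.inr v) = 0) ∧ ∑ v, x (Sum.inr v) = 0 := Iff.rfl

theorem T2A_finrank {M : ℕ} {I : Type} [Fintype I] [DecidableEq I] (J : Finset (Fin M)) (T : Finset I)
    (t₀ : I) (ht : t₀ ∈ T) : Module.finrank ℝ (T2A_dir J T) ≤ J.card + (T.card - 1) := by
  let ρ : (Fin M ⊕ I → ℝ) →ₗ[ℝ] (({l // l ∈ J} → ℝ) × ({v // v ∈ T.erase t₀} → ℝ)) :=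
    { toFun := fun x => (fun l => x (Sum.inl l.1), fun v => x (Sum.inr v.1))
      map_add' := fun _ _ => rfl
      map_smul' := fun _ _ => rfl }
  have hinj : Function.Injective (ρ.domRestrict (T2A_dir J T)) := by
    rw [← LinearMap.ker_eq_bot, LinearMap.ker_eq_bot']
    rintro ⟨x, hx⟩ h
    rw [T2A_mem] at hx
    obtain ⟨h1, h2, h3⟩ := hx
    have e : ρ x = 0 := h
    have e1 : ∀ l ∈ J, x (Sum.inl l) = 0 := fun l hl => congrFun (congrArg Prod.fst e) ⟨l, hl⟩
    have e2 : ∀ v ∈ T.erase t₀, x (Sum.inr v) = 0 := fun v hv => congrFun (congrArg Prod.snd e) ⟨v, hv⟩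
    have e3 : ∀ v, v ≠ t₀ → x (Sum.inr v) = 0 := by
      intro v hv
      by_cases hT : v ∈ T
      · exact e2 v (Finset.mem_erase.2 ⟨hv, hT⟩)
      · exact h2 v hT
    have e4 : x (Sum.inr t₀) = 0 := by
      rw [← h3]
      exact (Finset.sum_eq_single t₀ (fun v _ hv => e3 v hv) (fun h => absurd (Finset.mem_univ _) h)).symm
    apply Subtype.ext
    funext s
    rcases s with l | v
    · by_cases hl : l ∈ J
      · exact e1 l hl
      · exact h1 l hl
    · by_cases hv : v = t₀
      · rw [hv]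
        exact e4
      · exact e3 v hv
  have h := LinearMap.finrank_le_finrank_of_injective hinj
  rw [Module.finrank_prod, Module.finrank_pi, Module.finrank_pi] at h
  rw [Fintype.card_coe, Fintype.card_coe, Finset.card_erase_of_mem ht] at h
  exact h

/-- The affine subspaces used: coordinates `inl l`, `l ∉ J`, are fixed, the coordinates `inr v`,
`v ∉ T`, vanish, and the sum of the coordinates `inr v` is `1`.
PROOF. If the set is empty use `⊥` (or any point).  Otherwise `AffineSubspace.mk' p D` with `p` in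
the set and `D = {x | x (inl l) = 0 for l ∉ J, x (inr v) = 0 for v ∉ T, ∑ v, x (inr v) = 0}`; for
`t₀ ∈ T` the restriction of `D` to the coordinates `inl l`, `l ∈ J` and `inr v`, `v ∈ T.erase t₀` is
injective, so `finrank D ≤ #J + #T - 1`.  (If `T = ∅` the set is empty.) -/
theorem exists_affine {M : ℕ} {I : Type} [Fintype I] [DecidableEq I] (J : Finset (Fin M))
    (a : Fin M → ℤ) (T : Finset I) :
    ∃ A : AffineSubspace ℝ (Fin M ⊕ I → ℝ), Module.finrank ℝ A.direction ≤ J.card + (T.card - 1) ∧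
      ∀ x : Fin M ⊕ I → ℝ, (∀ l ∉ J, x (Sum.inl l) = a l) → (∀ v ∉ T, x (Sum.inr v) = 0) →
        ∑ v, x (Sum.inr v) = 1 → x ∈ A := by
  rcases T.eq_empty_or_nonempty with hT | ⟨t₀, ht⟩
  · refine ⟨⊥, ?_, ?_⟩
    · rw [AffineSubspace.direction_bot, finrank_bot]
      exact Nat.zero_le _
    · intro x _ h2 h3
      exfalso
      rw [Finset.sum_eq_zero (fun v _ => h2 v (by simp [hT]))] at h3
      exact zero_ne_one h3
  · refine ⟨AffineSubspace.mk' (Sum.elim (fun l => (a l : ℝ)) (fun v => if v = t₀ then 1 else 0)) (T2A_dir J T), ?_, ?_⟩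
    · rw [AffineSubspace.direction_mk']
      exact T2A_finrank J T t₀ ht
    · intro x h1 h2 h3
      rw [AffineSubspace.mem_mk', vsub_eq_sub, T2A_mem]
      refine ⟨fun l hl => ?_, fun v hv => ?_, ?_⟩
      · simp [h1 l hl]
      · have : v ≠ t₀ := fun h => hv (h ▸ ht)
        simp [h2 v hv, this]
      · simp only [Pi.sub_apply, Sum.elim_inr]
        rw [Finset.sum_sub_distrib, h3]
        simp

end SMD

end

/-! ### from `Lib_MP_33f7bb_an.T2B` -/

section

/-! Piece T2B: adding one more factor. -/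

open Set Filter Topology

namespace SMD

/-- The class of a colour. -/
def clsF (k b r : ℕ) (a : Fin (r + 1)) : Fin (k + 1) :=
  ⟨min k ((a : ℕ) / b), Nat.lt_succ_of_le (min_le_left _ _)⟩

theorem card_colour {I : Type} {k b r : ℕ} (hb : b * (k + 1) ≤ r + 1)
    (col : I → Fin (r + 1)) (T : Finset I) (hinj : Set.InjOn col T) (m : Fin (k + 1))
    (hm : ∀ i ∈ T, clsF k b r (col i) ≠ m) : T.card + b ≤ r + 1 := by
  classical
  have hlt : ∀ s : Fin b, (m : ℕ) * b + s < r + 1 := by
    intro s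
    have h1 : (m : ℕ) ≤ k := Nat.lt_succ_iff.1 m.2
    have h2 : (m : ℕ) * b ≤ k * b := Nat.mul_le_mul_right _ h1
    have h3 : b * (k + 1) = k * b + b := by ring
    have := s.2
    omega
  let ψ : Fin b → Fin (r + 1) := fun s => ⟨(m : ℕ) * b + s, hlt s⟩
  have hψ : Function.Injective ψ := by
    intro s s' h
    have h1 : (m : ℕ) * b + s = (m : ℕ) * b + s' := congrArg Fin.val h
    ext
    omega
  have hcl : ∀ s, clsF k b r (ψ s) = m := by
    intro s
    have hb0 : 0 < b := lt_of_le_of_lt (Nat.zero_le _) s.2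
    ext
    show min k (((m : ℕ) * b + s) / b) = m
    have h1 : ((m : ℕ) * b + s) / b = m := by
      rw [Nat.add_comm, Nat.add_mul_div_right _ _ hb0, Nat.div_eq_of_lt s.2, zero_add]
    rw [h1]
    exact min_eq_right (Nat.lt_succ_iff.1 m.2)
  have hdisj : Disjoint (T.image col) (Finset.univ.image ψ) := by
    rw [Finset.disjoint_left]
    rintro a ha ha'
    obtain ⟨i, hi, rfl⟩ := Finset.mem_image.1 ha
    obtain ⟨s, _, hs⟩ := Finset.mem_image.1 ha'
    exact hm i hi (hs ▸ hcl s)
  have h2 := Finset.card_le_univ (T.image col ∪ Finset.univ.image ψ)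
  rw [Finset.card_union_of_disjoint hdisj, Finset.card_image_of_injOn hinj,
    Finset.card_image_of_injective _ hψ] at h2
  simpa using h2

theorem cont_quot {Z : Type*} [TopologicalSpace Z] {t θ φ : Z → ℝ} (ht : Continuous t)
    (hθ : Continuous θ) (hφ : Continuous φ) (ht0 : ∀ z, 0 ≤ t z) (hφ0 : ∀ z, 0 ≤ φ z)
    (hφθ : ∀ z, φ z ≤ θ z) (hb : ∀ z, θ z = 0 → t z = 0) :
    Continuous fun z => t z * φ z / θ z := by
  rw [continuous_iff_continuousAt]
  intro z₀
  by_cases h : θ z₀ = 0
  · have h1 : t z₀ = 0 := hb z₀ h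
    have h2 : t z₀ * φ z₀ / θ z₀ = 0 := by rw [h1]; simp
    have h3 : Tendsto t (𝓝 z₀) (𝓝 0) := by
      have := ht.continuousAt (x := z₀)
      rw [ContinuousAt, h1] at this
      exact this
    rw [ContinuousAt, h2]
    refine squeeze_zero (fun z => ?_) (fun z => ?_) h3
    · exact div_nonneg (mul_nonneg (ht0 z) (hφ0 z)) ((hφ0 z).trans (hφθ z))
    · rcases eq_or_lt_of_le ((hφ0 z).trans (hφθ z)) with h4 | h4
      · rw [← h4, div_zero]
        exact ht0 z
      · rw [div_le_iff₀ h4]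
        exact mul_le_mul_of_nonneg_left (hφθ z) (ht0 z)
  · exact ((ht.mul hφ).continuousAt).div hθ.continuousAt h

theorem car.abs_le {M : ℕ} {q p : Fin M → ℝ} (h : car q p) (l : Fin M) : |q l - p l| ≤ 1 := by
  have h1 := (h l).1
  have h2 := (h l).2
  have h3 := Int.floor_le (q l)
  have h4 := Int.le_ceil (q l)
  have h5 : (⌈q l⌉ : ℝ) ≤ ⌊q l⌋ + 1 := by exact_mod_cast Int.ceil_le_floor_add_one (q l)
  rw [abs_sub_le_iff]
  constructor <;> linarith

theorem car.floor_mem {M : ℕ} {q p : Fin M → ℝ} (h : car q p) {L : ℕ} (hL : ∀ l, |q l| ≤ L)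
    (l : Fin M) : ⌊p l⌋ ∈ Finset.Icc (-(L : ℤ) - 1) (L + 1) := by
  have h1 := (h l).1
  have h2 := (h l).2
  have h3 := _root_.abs_le.1 (hL l)
  have h4 : -(L : ℤ) ≤ ⌊q l⌋ := Int.le_floor.2 (by push_cast; exact h3.1)
  have h5 : ⌈q l⌉ ≤ (L : ℤ) := Int.ceil_le.2 (by push_cast; exact h3.2)
  have h6 : ⌊q l⌋ ≤ ⌊p l⌋ := Int.le_floor.2 h1
  have h7 : ⌊p l⌋ ≤ ⌈q l⌉ := by
    have : (⌊p l⌋ : ℝ) ≤ ⌈q l⌉ := (Int.floor_le _).trans h2
    exact_mod_cast this
  rw [Finset.mem_Icc]
  constructor <;> omega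

theorem polyDimLE_of_finite {κ : Type} [Fintype κ] {S : Set (κ → ℝ)} {r : ℕ} {Ω : Type*}
    [Finite Ω] (A : Ω → AffineSubspace ℝ (κ → ℝ))
    (h1 : ∀ ω, Module.finrank ℝ (A ω).direction ≤ r) (h2 : ∀ x ∈ S, ∃ ω, x ∈ A ω) :
    PolyDimLE S r := by
  obtain ⟨n, ⟨e⟩⟩ := Finite.exists_equiv_fin Ω
  refine ⟨n, fun i => A (e.symm i), fun i => h1 _, fun x hx => ?_⟩
  obtain ⟨ω, hω⟩ := h2 x hx
  exact ⟨e ω, by simpa using hω⟩

/-- PROOF. Let `I, col, φ` be the coloured map of `Y`; `cls i = min k (col i / b)` in `Fin (k + 1)`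
(for `b = 0` the quotient is `0`).  `θ y = (∑_{cls i = m} φ y i)_m ∈ stdSimplex`, continuous.  With
`P, T` from `GoodS`, put `p (x, y) = P (x, θ y)`, `t' = T (x, θ y)` and
`q (x, y) i = t' (cls i) * φ y i / θ y (cls i)` (Lean division by zero is `0`).  `q` is continuous:
where `θ y (cls i) ≠ 0` clear; where `θ y₀ m = 0` (`m = cls i`) we have `0 ≤ q ≤ t' m` (as
`φ y i ≤ θ y m`) and `T (x₀, θ y₀) m = 0`.  `∑ q = 1`: the class `m` contributes `t' m` if `θ y m ≠ 0`,
and `t' m = 0` if `θ y m = 0`.  `q i > 0 → φ y i > 0`.  `g = Sum.elim p q : X × Y → (Fin M ⊕ I → ℝ)`.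
* fibres: if `g (x, y) = g (x', y')` then `car (f x) p` and `car (f x') p` give
`|f x l - f x' l| ≤ 2`, so `dist x x' < ε`; some `q i > 0`, so `φ y i > 0` and `φ y' i > 0` and
`dist y y' < ε`; the distance of `X × Y` is the maximum.
* `PolyDimLE`: the support `T` of `q` has at most one element of each colour.  If `p ∈ Sk M c`:
`J` = noninteger coordinates of `p`, `#J ≤ c`, `#T ≤ r + 1`, dimension `≤ c + r`.  Otherwise some
`t' m = 0`, so `T` has no element in the class `m`, whose number of colours is at least `b`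
(for `m < k` the colours `m b, ..., m b + b - 1`, for `m = k` the colours `≥ k b`; `b (k+1) ≤ r+1`), so
`#T ≤ r + 1 - b`; take `J = univ`: dimension `≤ M + (r + 1 - b - 1) ≤ c + r` (`T ≠ ∅` as `∑ q = 1`; if
`r + 1 - b = 0` there is no such point).  The family of all `exists_affine J a T` with `#J + (#T - 1)
≤ c + r` and `|a l| ≤ L + 1` is finite (index it by a `Fintype` and `Fintype.equivFin`). -/
theorem prod_step {X Y : Type*} [MetricSpace X] [CompactSpace X] [MetricSpace Y] [CompactSpace Y]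
    {M k c r b : ℕ} {ε : ℝ} (f : X → (Fin M → ℝ)) (hL : ∃ L : ℕ, ∀ x l, |f x l| ≤ L)
    (hf : ∀ x x', (∀ l, |f x l - f x' l| ≤ 2) → dist x x' < ε) (H : GoodS f (Sk M c) k)
    (hY : Col Y ε r) (hb : b * (k + 1) ≤ r + 1) (hM : M ≤ b + c) : PM (X × Y) ε (c + r) := by
  classical
  obtain ⟨L, hL⟩ := hL
  obtain ⟨I, hI, col, φ, hφ, hφ0, hφ1, hcol, hdist⟩ := hY
  obtain ⟨P, T, hP, hT, hPT, hcar, hbd⟩ := H
  -- the classes
  let cls : I → Fin (k + 1) := fun i => clsF k b r (col i)
  let θ' : Y → Fin (k + 1) → ℝ := fun y m => ∑ i with cls i = m, φ y i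
  have hθ'mem : ∀ y, θ' y ∈ stdSimplex ℝ (Fin (k + 1)) := by
    intro y
    refine ⟨fun m => Finset.sum_nonneg fun i _ => hφ0 y i, ?_⟩
    have := Finset.sum_fiberwise (Finset.univ : Finset I) cls (φ y)
    rw [← hφ1 y, ← this]
  let θ : Y → stdSimplex ℝ (Fin (k + 1)) := fun y => ⟨θ' y, hθ'mem y⟩
  have hφc : ∀ i, Continuous fun y => φ y i := fun i => (continuous_apply i).comp hφ
  have hθ'c : ∀ m, Continuous fun y => θ' y m := by
    intro m
    exact continuous_finsetSum _ fun i _ => hφc i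
  have hθ : Continuous θ := Continuous.subtype_mk (continuous_pi hθ'c) _
  let W : X × Y → X × stdSimplex ℝ (Fin (k + 1)) := fun z => (z.1, θ z.2)
  have hW : Continuous W := continuous_fst.prodMk (hθ.comp continuous_snd)
  let t' : X × Y → Fin (k + 1) → ℝ := fun z m => (T (W z) : Fin (k + 1) → ℝ) m
  have ht'c : ∀ m, Continuous fun z => t' z m := by
    intro m
    exact (continuous_apply m).comp (continuous_subtype_val.comp (hT.comp hW))
  have ht'0 : ∀ z m, 0 ≤ t' z m := fun z m => (T (W z)).2.1 m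
  have ht'1 : ∀ z, ∑ m, t' z m = 1 := fun z => (T (W z)).2.2
  have ht'b : ∀ z m, θ' z.2 m = 0 → t' z m = 0 := fun z m h => hbd z.1 (θ z.2) m h
  have hφθ : ∀ y i, φ y i ≤ θ' y (cls i) := by
    intro y i
    refine Finset.single_le_sum (f := fun i => φ y i) (fun i _ => hφ0 y i) ?_
    simp
  let q : X × Y → I → ℝ := fun z i => t' z (cls i) * φ z.2 i / θ' z.2 (cls i)
  have hqc : ∀ i, Continuous fun z => q z i := by
    intro i
    exact cont_quot (ht'c (cls i)) ((hθ'c (cls i)).comp continuous_snd)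
      ((hφc i).comp continuous_snd) (fun z => ht'0 z _) (fun z => hφ0 z.2 i)
      (fun z => hφθ z.2 i) (fun z h => ht'b z _ h)
  have hq0 : ∀ z i, 0 ≤ q z i := by
    intro z i
    exact div_nonneg (mul_nonneg (ht'0 z _) (hφ0 z.2 i)) ((hφ0 z.2 i).trans (hφθ z.2 i))
  have hq1 : ∀ z, ∑ i, q z i = 1 := by
    intro z
    rw [← Finset.sum_fiberwise (Finset.univ : Finset I) cls (q z), ← ht'1 z]
    refine Finset.sum_congr rfl fun m _ => ?_
    have h1 : ∑ i with cls i = m, q z i = ∑ i with cls i = m, t' z m / θ' z.2 m * φ z.2 i := by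
      refine Finset.sum_congr rfl fun i hi => ?_
      have hi' : cls i = m := (Finset.mem_filter.1 hi).2
      show t' z (cls i) * φ z.2 i / θ' z.2 (cls i) = _
      rw [hi']
      ring
    rw [h1, ← Finset.mul_sum]
    show t' z m / θ' z.2 m * θ' z.2 m = t' z m
    by_cases h : θ' z.2 m = 0
    · rw [h, ht'b z m h]
      simp
    · rw [div_mul_cancel₀ _ h]
  have hqφ : ∀ z i, q z i ≠ 0 → 0 < φ z.2 i := by
    intro z i h
    refine lt_of_le_of_ne (hφ0 z.2 i) fun h0 => h ?_
    show t' z (cls i) * φ z.2 i / θ' z.2 (cls i) = 0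
    rw [← h0]
    simp
  have hqex : ∀ z, ∃ i, q z i ≠ 0 := by
    intro z
    by_contra hcon
    push Not at hcon
    have := hq1 z
    simp [hcon] at this
  refine ⟨Fin M ⊕ I, inferInstance, fun z => Sum.elim (P (W z)) (q z), ?_, ?_, ?_⟩
  · refine continuous_pi fun a => ?_
    rcases a with l | i
    · exact (continuous_apply l).comp (hP.comp hW)
    · exact hqc i
  · -- the dimension
    let Ω := {ω : Finset (Fin M) × (Fin M → (Finset.Icc (-(L : ℤ) - 1) (L + 1) : Finset ℤ)) ×
      Finset I // ω.1.card + (ω.2.2.card - 1) ≤ c + r}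
    refine polyDimLE_of_finite (Ω := Ω) (fun ω => Classical.choose
      (exists_affine ω.1.1 (fun l => (ω.1.2.1 l : ℤ)) ω.1.2.2)) ?_ ?_
    · intro ω
      exact ((Classical.choose_spec
        (exists_affine ω.1.1 (fun l => (ω.1.2.1 l : ℤ)) ω.1.2.2)).1).trans ω.2
    · rintro _ ⟨z, rfl⟩
      set T₀ : Finset I := Finset.univ.filter (fun i => q z i ≠ 0) with hT₀
      have hT₀inj : Set.InjOn col T₀ := by
        intro i hi i' hi' h
        have h1 : q z i ≠ 0 := (Finset.mem_filter.1 hi).2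
        have h2 : q z i' ≠ 0 := (Finset.mem_filter.1 hi').2
        exact hcol z.2 i i' (hqφ z i h1) (hqφ z i' h2) h
      have hT₀v : ∀ v ∉ T₀, q z v = 0 := by
        intro v hv
        by_contra h
        exact hv (Finset.mem_filter.2 ⟨Finset.mem_univ _, h⟩)
      have hT₀pos : 0 < T₀.card := by
        obtain ⟨i, hi⟩ := hqex z
        exact Finset.card_pos.2 ⟨i, Finset.mem_filter.2 ⟨Finset.mem_univ _, hi⟩⟩
      have hT₀r : T₀.card ≤ r + 1 := by
        have := Finset.card_le_univ (T₀.image col)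
        rw [Finset.card_image_of_injOn hT₀inj] at this
        simpa using this
      have hcarz : car (f z.1) (P (W z)) := hcar (W z)
      have hmem : ∀ l, ⌊P (W z) l⌋ ∈ Finset.Icc (-(L : ℤ) - 1) (L + 1) :=
        hcarz.floor_mem (fun l => hL z.1 l)
      rcases hPT (W z) with hsk | ⟨m, hm⟩
      · have hcard : (Finset.univ.filter (fun l : Fin M => ∀ n : ℤ, P (W z) l ≠ n)).card ≤ c := by
          have h1 : {l : Fin M | ∀ n : ℤ, P (W z) l ≠ n}.ncard ≤ c := hsk
          rw [← Set.ncard_coe_finset]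
          refine le_trans (le_of_eq ?_) h1
          congr 1
          ext l
          simp
        refine ⟨⟨(Finset.univ.filter (fun l : Fin M => ∀ n : ℤ, P (W z) l ≠ n),
          (fun l => ⟨⌊P (W z) l⌋, hmem l⟩, T₀)), ?_⟩, ?_⟩
        · show (Finset.univ.filter (fun l : Fin M => ∀ n : ℤ, P (W z) l ≠ n)).card +
            (T₀.card - 1) ≤ c + r
          omega
        · refine (Classical.choose_spec (exists_affine _ _ _)).2 _ ?_ ?_ ?_
          · intro l hl
            have hl' : ∃ n : ℤ, P (W z) l = n := by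
              by_contra hcon
              push Not at hcon
              exact hl (Finset.mem_filter.2 ⟨Finset.mem_univ _, hcon⟩)
            obtain ⟨n, hn⟩ := hl'
            show P (W z) l = ((⌊P (W z) l⌋ : ℤ) : ℝ)
            rw [hn, Int.floor_intCast]
          · intro v hv
            exact hT₀v v hv
          · exact hq1 z
      · have hcard : T₀.card + b ≤ r + 1 := by
          refine card_colour hb col T₀ hT₀inj m ?_
          intro i hi him
          have h1 : q z i ≠ 0 := (Finset.mem_filter.1 hi).2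
          apply h1
          show t' z (cls i) * φ z.2 i / θ' z.2 (cls i) = 0
          have h2 : cls i = m := him
          have h3 : t' z m = 0 := hm
          rw [h2, h3]
          simp
        refine ⟨⟨(Finset.univ, (fun l => ⟨⌊P (W z) l⌋, hmem l⟩, T₀)), ?_⟩, ?_⟩
        · show (Finset.univ : Finset (Fin M)).card + (T₀.card - 1) ≤ c + r
          rw [Finset.card_univ, Fintype.card_fin]
          omega
        · refine (Classical.choose_spec (exists_affine _ _ _)).2 _ ?_ ?_ ?_
          · intro l hl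
            exact absurd (Finset.mem_univ l) hl
          · intro v hv
            exact hT₀v v hv
          · exact hq1 z
  · -- the fibres
    rintro ⟨x, y⟩ ⟨x', y'⟩ hg
    have hp : ∀ l, P (W (x, y)) l = P (W (x', y')) l := fun l => congrFun hg (Sum.inl l)
    have hqq : ∀ i, q (x, y) i = q (x', y') i := fun i => congrFun hg (Sum.inr i)
    rw [Prod.dist_eq]
    refine max_lt ?_ ?_
    · refine hf x x' fun l => ?_
      have h1 := (hcar (W (x, y))).abs_le l
      have h2 := (hcar (W (x', y'))).abs_le l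
      have h1' : |f x l - P (W (x, y)) l| ≤ 1 := h1
      have h2' : |f x' l - P (W (x', y')) l| ≤ 1 := h2
      rw [← hp l] at h2'
      rw [abs_le] at *
      constructor <;> linarith [h1'.1, h1'.2, h2'.1, h2'.2]
    · obtain ⟨i, hi⟩ := hqex (x, y)
      have h1 : 0 < φ y i := hqφ (x, y) i hi
      have h2 : 0 < φ y' i := hqφ (x', y') i (by rw [← hqq i]; exact hi)
      exact hdist y y' i h1 h2

end SMD

end

/-! ### from `Lib_MP_33f7bb_an.GEN` -/

section

/-! Piece GEN: a generic translate of the grid avoids `r`-dimensional sets. -/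

open Set Filter Topology

namespace SMD

/-- the restriction of the coordinates to `J` -/
noncomputable def gen_res {κ : Type} (J : Finset κ) : (κ → ℝ) →ₗ[ℝ] (J → ℝ) :=
  LinearMap.funLeft ℝ ℝ (Subtype.val : J → κ)

theorem gen_res_surj {κ : Type} (J : Finset κ) : Function.Surjective (gen_res J) :=
  LinearMap.funLeft_surjective_of_injective ℝ ℝ _ Subtype.val_injective

theorem gen_ne_top {κ : Type} [Fintype κ] (A : AffineSubspace ℝ (κ → ℝ)) {r : ℕ}
    (hA : Module.finrank ℝ A.direction ≤ r) (J : Finset κ) (hJ : J.card = r + 1) :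
    (A.map (gen_res J).toAffineMap).comap (gen_res J).toAffineMap ≠ ⊤ := by
  intro h
  have h1 : A.map (gen_res J).toAffineMap = ⊤ := by
    rw [eq_top_iff]
    intro y _
    obtain ⟨x, rfl⟩ := gen_res_surj J y
    have h2 : x ∈ (A.map (gen_res J).toAffineMap).comap (gen_res J).toAffineMap := by
      rw [h]
      trivial
    exact h2
  have h3 : (A.direction.map (gen_res J)) = ⊤ := by
    have h4 := AffineSubspace.map_direction (gen_res J).toAffineMap A
    rw [h1, AffineSubspace.direction_top] at h4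
    exact h4.symm
  have h5 : Module.finrank ℝ (A.direction.map (gen_res J)) ≤ r :=
    (Submodule.finrank_map_le _ _).trans hA
  rw [h3, finrank_top, Module.finrank_fintype_fun_eq_card, Fintype.card_coe, hJ] at h5
  omega

/-- PROOF. For `J : Finset κ` with `#J = r + 1`, `z : κ → ℤ` and `i : Fin N` (the affine subspaces
`A i` covering `S`) the set of bad `v` is contained in
`{v | ∃ x ∈ A i, ∀ l ∈ J, x l = v l + δ * z l}`.  Let `π : (κ → ℝ) →ₗ (J → ℝ)` be the restriction.
`(A i).map π` is an affine subspace of `J → ℝ` whose direction has finrank `≤ r < #J`, so it is not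
`⊤`; hence its preimage under `π` is a proper affine subspace of `κ → ℝ` (`π` surjective) and has
measure zero (`MeasureTheory.Measure.addHaar_affineSubspace`), and so has its translate by
`- δ z`.  A countable union of null sets is not everything. -/
theorem generic_shift {κ : Type} [Fintype κ] {S : Set (κ → ℝ)} {r : ℕ} (hS : PolyDimLE S r)
    (δ : ℝ) : ∃ v : κ → ℝ, ∀ x ∈ S, {l : κ | ∃ z : ℤ, x l = v l + δ * z}.ncard ≤ r := by
  classical
  obtain ⟨N, A, hA, hAS⟩ := hS
  let B : Fin N × {J : Finset κ // J.card = r + 1} × (κ → ℤ) → Set (κ → ℝ) := fun q =>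
    (fun v : κ → ℝ => v + fun l => δ * (q.2.2 l : ℝ)) ⁻¹'
      (((A q.1).map (gen_res q.2.1.1).toAffineMap).comap (gen_res q.2.1.1).toAffineMap :
        Set (κ → ℝ))
  have hB : ∀ q, MeasureTheory.volume (B q) = 0 := by
    intro q
    show MeasureTheory.volume ((fun v : κ → ℝ => v + fun l => δ * (q.2.2 l : ℝ)) ⁻¹' _) = 0
    rw [MeasureTheory.measure_preimage_add_right]
    exact MeasureTheory.Measure.addHaar_affineSubspace _ _
      (gen_ne_top (A q.1) (hA q.1) q.2.1.1 q.2.1.2)
  have hU : MeasureTheory.volume (⋃ q, B q) = 0 := MeasureTheory.measure_iUnion_null hB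
  by_contra hcon
  push Not at hcon
  have hall : (univ : Set (κ → ℝ)) ⊆ ⋃ q, B q := by
    intro v _
    obtain ⟨x, hx, hr⟩ := hcon v
    obtain ⟨i, hi⟩ := hAS x hx
    obtain ⟨t, ht, htc⟩ := Set.exists_subset_card_eq (Nat.succ_le_of_lt hr)
    have hz : ∀ l : κ, ∃ z : ℤ, l ∈ t → x l = v l + δ * z := by
      intro l
      by_cases hl : l ∈ t
      · obtain ⟨z, hz⟩ := ht hl
        exact ⟨z, fun _ => hz⟩
      · exact ⟨0, fun h => absurd h hl⟩
    choose z hz using hz
    rw [Set.ncard_eq_toFinset_card'] at htc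
    refine mem_iUnion.2 ⟨(i, ⟨t.toFinset, htc⟩, z), ?_⟩
    show gen_res t.toFinset (v + fun l => δ * (z l : ℝ)) ∈ (A i).map (gen_res t.toFinset).toAffineMap
    rw [AffineSubspace.mem_map]
    refine ⟨x, hi, ?_⟩
    funext l
    have hl : l.1 ∈ t := Set.mem_toFinset.1 l.2
    exact hz l.1 hl
  have h0 : MeasureTheory.volume (univ : Set (κ → ℝ)) = 0 :=
    MeasureTheory.measure_mono_null hall hU
  exact (isOpen_univ.measure_pos MeasureTheory.volume univ_nonempty).ne' h0

end SMD

end

/-! ### from `Lib_MP_33f7bb_an.CCA` -/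

section

/-! Piece CCA: coloured covers of polyhedral sets by small open boxes. -/

open Set Filter Topology

namespace SMD

namespace CCAAux

/-- distance to the integers -/
noncomputable def dZ (t : ℝ) : ℝ := Metric.infDist t (range ((↑) : ℤ → ℝ))

lemma dZ_cont : Continuous dZ := Metric.continuous_infDist_pt _

lemma dZ_nonneg (t : ℝ) : 0 ≤ dZ t := Metric.infDist_nonneg

lemma dZ_lt {t b : ℝ} (h : dZ t < b) : ∃ z : ℤ, |t - z| < b := by
  obtain ⟨y, ⟨z, rfl⟩, hz⟩ := (Metric.infDist_lt_iff (range_nonempty _)).1 h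
  exact ⟨z, by rwa [Real.dist_eq] at hz⟩

lemma dZ_le (t : ℝ) (z : ℤ) : dZ t ≤ |t - z| := by
  rw [← Real.dist_eq]
  exact Metric.infDist_le_dist_of_mem ⟨z, rfl⟩

lemma dZ_floor {t b : ℝ} (h : b < dZ t) : (⌊t⌋ : ℝ) + b < t ∧ t < ⌊t⌋ + 1 - b := by
  have h1 := dZ_le t ⌊t⌋
  have h2 := dZ_le t (⌊t⌋ + 1)
  rw [abs_of_nonneg (by linarith [Int.floor_le t])] at h1
  push_cast at h2
  rw [abs_of_neg (by linarith [Int.lt_floor_add_one t])] at h2
  constructor <;> linarith

lemma dZ_zero {t : ℝ} (h : dZ t = 0) : ∃ z : ℤ, t = z := by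
  have h1 : t ∈ closure (range ((↑) : ℤ → ℝ)) :=
    (Metric.mem_closure_iff_infDist_zero (range_nonempty _)).2 h
  rw [Int.isClosedEmbedding_coe_real.isClosed_range.closure_eq] at h1
  obtain ⟨z, hz⟩ := h1
  exact ⟨z, hz.symm⟩

/-- combinatorial lemma: some level `i ≤ r` has exactly `i` indices below, and none at the level. -/
lemma level {κ : Type} [Fintype κ] (d : κ → ℝ) (r : ℕ) (β : ℕ → ℝ) (hβ : StrictMono β)
    (h : (Finset.univ.filter fun l => d l ≤ β r).card ≤ r) :
    ∃ i ≤ r, (Finset.univ.filter fun l => d l < β i).card = i ∧ ∀ l, β i ≤ d l → β i < d l := by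
  classical
  by_contra hcon
  push Not at hcon
  have key : ∀ k ≤ r, (Finset.univ.filter fun l => d l ≤ β (r - k)).card ≤ r - k →
      (Finset.univ.filter fun l => d l < β (r - k)).card < r - k := by
    intro k hk h1
    by_contra h2
    push Not at h2
    have hsub : (Finset.univ.filter fun l => d l < β (r - k)) ⊆
        (Finset.univ.filter fun l => d l ≤ β (r - k)) := by
      intro l hl
      simp only [Finset.mem_filter, Finset.mem_univ, true_and] at hl ⊢
      exact hl.le
    have h3 := Finset.card_le_card hsub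
    have h4 : (Finset.univ.filter fun l => d l < β (r - k)).card = r - k := by omega
    have h5 := Finset.eq_of_subset_of_card_le hsub (by omega)
    obtain ⟨l, hl1, hl2⟩ := hcon (r - k) (by omega) h4
    have h6 : l ∈ (Finset.univ.filter fun l => d l ≤ β (r - k)) := by simpa using hl2
    rw [← h5] at h6
    simp only [Finset.mem_filter, Finset.mem_univ, true_and] at h6
    linarith
  have all : ∀ k ≤ r, (Finset.univ.filter fun l => d l < β (r - k)).card < r - k := by
    intro k
    induction k with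
    | zero => intro hk; exact key 0 hk (by simpa using h)
    | succ k ih =>
      intro hk
      apply key (k + 1) hk
      have h1 := ih (by omega)
      have h2 : (Finset.univ.filter fun l => d l ≤ β (r - (k + 1))) ⊆
          (Finset.univ.filter fun l => d l < β (r - k)) := by
        intro l hl
        simp only [Finset.mem_filter, Finset.mem_univ, true_and] at hl ⊢
        exact lt_of_le_of_lt hl (hβ (by omega))
      have h3 := Finset.card_le_card h2
      omega
  have := all r le_rfl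
  omega

end CCAAux

open CCAAux

/-- PROOF. Take `v` from `generic_shift` and put `y l = (x l - v l) / δ`; for `x ∈ S` at most `r` of the
`y l` are integers.  Let `d l x` be the distance from `y l` to the nearest integer (continuous).
By compactness there is `η ∈ (0, 1/2)` such that for all `x ∈ S` at most `r` of the `d l x` are
`≤ η` (for each `J` with `#J = r + 1` the continuous function `x ↦ ∑ l ∈ J, d l x` (or the max) is
positive on the compact `S`).  Choose `0 < β 0 < β 1 < ... < β r < η`.  For `i ≤ r`, `J` with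
`#J = i` and `a : κ → ℤ` let `O (i, J, a) = {x | (∀ l ∈ J, |y l - a l| < β i) ∧
∀ l ∉ J, a l + β i < y l ∧ y l < a l + 1 - β i}`, an open box with sides `≤ δ`.  For the same `i` two
different boxes are disjoint.  They cover `S`: let `n⁻ i = #{l | d l x < β i}`,
`n⁺ i = #{l | d l x ≤ β i}`; if no `i` had `n⁻ i = n⁺ i = i` then one shows by descending induction
`n⁻ i ≤ i - 1` for `i = r, ..., 0` (`n⁺ r ≤ r`; `n⁺ i ≤ n⁻ (i + 1) ≤ i`), absurd for `i = 0`; and if
`n⁻ i = n⁺ i = i` then `x ∈ O (i, J, a)` for `J = {l | d l x < β i}` and the obvious `a`.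
Only finitely many `a` matter (`S` is bounded). -/
theorem colored_cover {κ : Type} [Fintype κ] {S : Set (κ → ℝ)} {r : ℕ} (hS : IsCompact S)
    (h : PolyDimLE S r) {δ : ℝ} (hδ : 0 < δ) :
    ∃ (I : Type) (_ : Fintype I) (col : I → Fin (r + 1)) (O : I → Set (κ → ℝ)),
      (∀ i, IsOpen (O i)) ∧ S ⊆ ⋃ i, O i ∧
      (∀ i i', i ≠ i' → col i = col i' → Disjoint (O i) (O i')) ∧
      ∀ i, ∀ x ∈ O i, ∀ y ∈ O i, dist x y ≤ δ := by
  classical
  obtain ⟨v, hv⟩ := generic_shift h δ
  set y : κ → (κ → ℝ) → ℝ := fun l x => (x l - v l) / δ with hy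
  have yc : ∀ l, Continuous (y l) := fun l => by rw [hy]; fun_prop
  have hzero : ∀ x ∈ S, (Finset.univ.filter fun l => dZ (y l x) = 0).card ≤ r := by
    intro x hx
    have h1 := hv x hx
    refine le_trans ?_ h1
    rw [← Set.ncard_coe_finset]
    apply Set.ncard_le_ncard _ (Set.toFinite _)
    intro l hl
    simp only [Finset.coe_filter, Finset.mem_univ, true_and, mem_setOf_eq] at hl
    obtain ⟨z, hz⟩ := dZ_zero hl
    refine ⟨z, ?_⟩
    rw [hy] at hz
    simp only at hz
    rw [div_eq_iff hδ.ne'] at hz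
    linarith
  -- the uniform gap
  have hη : ∃ η : ℝ, 0 < η ∧ η < 1 / 2 ∧
      ∀ x ∈ S, (Finset.univ.filter fun l => dZ (y l x) ≤ η).card ≤ r := by
    have h1 : ∀ J : Finset κ, ∀ᶠ η : ℝ in 𝓝[>] 0, J.card = r + 1 →
        ∀ x ∈ S, ∃ l ∈ J, η < dZ (y l x) := by
      intro J
      by_cases hJ : J.card = r + 1
      swap
      · exact Eventually.of_forall fun η h => absurd h hJ
      rcases S.eq_empty_or_nonempty with hE | hne
      · exact Eventually.of_forall fun η _ x hx => by simp [hE] at hx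
      obtain ⟨x₀, hx₀, hmin⟩ := hS.exists_isMinOn hne
        (f := fun x => ∑ l ∈ J, dZ (y l x))
        (continuous_finset_sum _ fun l _ => dZ_cont.comp (yc l)).continuousOn
      have hpos : 0 < ∑ l ∈ J, dZ (y l x₀) := by
        rcases (Finset.sum_nonneg fun l (_ : l ∈ J) => dZ_nonneg (y l x₀)).lt_or_eq with h | h
        · exact h
        · exfalso
          have h2 := (Finset.sum_eq_zero_iff_of_nonneg fun l (_ : l ∈ J) =>
            dZ_nonneg (y l x₀)).1 h.symm
          have h3 := hzero x₀ hx₀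
          have h4 : J ⊆ Finset.univ.filter fun l => dZ (y l x₀) = 0 := by
            intro l hl
            simpa using h2 l hl
          have := Finset.card_le_card h4
          omega
      have hJpos : (0 : ℝ) < r + 2 := by positivity
      have h5 : ∀ᶠ η : ℝ in 𝓝[>] 0, η < (∑ l ∈ J, dZ (y l x₀)) / (r + 2) :=
        mem_nhdsWithin_of_mem_nhds (Iio_mem_nhds (by positivity))
      filter_upwards [h5, self_mem_nhdsWithin] with η hη hη0 _ x hx
      by_contra hcon
      push Not at hcon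
      have h6 : ∑ l ∈ J, dZ (y l x) ≤ ∑ l ∈ J, η := Finset.sum_le_sum fun l hl => hcon l hl
      rw [Finset.sum_const, hJ, nsmul_eq_mul] at h6
      have h7 : ∑ l ∈ J, dZ (y l x₀) ≤ ∑ l ∈ J, dZ (y l x) := hmin hx
      rw [lt_div_iff₀ hJpos] at hη
      push_cast at h6
      have : (0 : ℝ) < η := hη0
      nlinarith
    have h2 := Filter.eventually_all.2 h1
    have h3 : ∀ᶠ η : ℝ in 𝓝[>] 0, η < 1 / 2 :=
      mem_nhdsWithin_of_mem_nhds (Iio_mem_nhds (by norm_num))
    obtain ⟨η, h4, h5, h6⟩ := (h2.and (h3.and self_mem_nhdsWithin)).exists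
    refine ⟨η, h6, h5, fun x hx => ?_⟩
    by_contra hcon
    push Not at hcon
    obtain ⟨J, hJ1, hJ2⟩ := Finset.exists_subset_card_eq (Nat.succ_le_of_lt hcon)
    obtain ⟨l, hl, hl2⟩ := h4 J (by omega) x hx
    have := hJ1 hl
    simp only [Finset.mem_filter, Finset.mem_univ, true_and] at this
    linarith
  obtain ⟨η, hη0, hη1, hη2⟩ := hη
  set β : ℕ → ℝ := fun i => η * (1 - 1 / (i + 2)) with hβ
  have hβm : StrictMono β := by
    apply strictMono_nat_of_lt_succ
    intro i
    rw [hβ]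
    simp only
    have h1 : (1 : ℝ) / ((i + 1 : ℕ) + 2) < 1 / (i + 2) := by
      apply one_div_lt_one_div_of_lt (by positivity)
      push_cast
      linarith
    nlinarith
  have hβ0 : ∀ i, 0 < β i := by
    intro i
    rw [hβ]
    have h1 : (1 : ℝ) / (i + 2) < 1 := by
      rw [div_lt_one (by positivity)]
      have : (0 : ℝ) ≤ i := Nat.cast_nonneg i
      linarith
    have h2 : 0 < 1 - (1 : ℝ) / (i + 2) := by linarith
    simp only
    positivity
  have hβη : ∀ i, β i < η := by
    intro i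
    rw [hβ]
    have h1 : (0 : ℝ) < 1 / (i + 2) := by positivity
    simp only
    nlinarith
  obtain ⟨R, hR⟩ : ∃ R : ℝ, ∀ x ∈ S, ∀ l, |y l x| ≤ R := by
    have h1 : ∀ l, ∃ C, ∀ x ∈ S, |y l x| ≤ C := by
      intro l
      obtain ⟨C, hC⟩ := hS.exists_bound_of_continuousOn (yc l).continuousOn
      exact ⟨C, fun x hx => by simpa using hC x hx⟩
    choose C hC using h1
    refine ⟨∑ l, |C l|, fun x hx l => ?_⟩
    calc |y l x| ≤ C l := hC l x hx
      _ ≤ |C l| := le_abs_self _
      _ ≤ ∑ l, |C l| := Finset.single_le_sum (f := fun l => |C l|) (fun l _ => abs_nonneg _)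
          (Finset.mem_univ l)
  set N : ℤ := ⌈R⌉ + 1 with hN
  have hNR : R + 1 ≤ (N : ℝ) := by
    rw [hN]; push_cast; linarith [Int.le_ceil R]
  refine ⟨Fin (r + 1) × Finset κ × (κ → (Finset.Icc (-N) N : Finset ℤ)), inferInstance,
    fun p => p.1, fun p => {x | p.2.1.card = p.1 ∧ (∀ l ∈ p.2.1, |y l x - (p.2.2 l : ℤ)| < β p.1) ∧
      ∀ l ∉ p.2.1, ((p.2.2 l : ℤ) : ℝ) + β p.1 < y l x ∧ y l x < (p.2.2 l : ℤ) + 1 - β p.1},
      ?_, ?_, ?_, ?_⟩
  · rintro ⟨i, J, a⟩
    refine isOpen_const.and (IsOpen.and ?_ ?_)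
    · have : {x | ∀ l ∈ J, |y l x - ((a l : ℤ) : ℝ)| < β i} =
          ⋂ l, ⋂ _ : l ∈ J, {x | |y l x - ((a l : ℤ) : ℝ)| < β i} := by
        ext x; simp
      simp only
      rw [this]
      exact isOpen_iInter_of_finite fun l => isOpen_iInter_of_finite fun _ =>
        isOpen_lt ((yc l).sub continuous_const).abs continuous_const
    · have : {x | ∀ l ∉ J, ((a l : ℤ) : ℝ) + β i < y l x ∧ y l x < (a l : ℤ) + 1 - β i} =
          ⋂ l, ⋂ _ : l ∉ J, {x | ((a l : ℤ) : ℝ) + β i < y l x ∧ y l x < (a l : ℤ) + 1 - β i} := by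
        ext x; simp
      simp only
      rw [this]
      exact isOpen_iInter_of_finite fun l => isOpen_iInter_of_finite fun _ =>
        (isOpen_lt continuous_const (yc l)).and (isOpen_lt (yc l) continuous_const)
  · intro x hx
    obtain ⟨i, hi, hc, hb⟩ := CCAAux.level (fun l => dZ (y l x)) r β hβm (by
      refine le_trans (Finset.card_le_card ?_) (hη2 x hx)
      intro l hl
      simp only [Finset.mem_filter, Finset.mem_univ, true_and] at hl ⊢
      exact hl.trans (hβη r).le)
    have ha : ∀ l, ∃ z : ℤ, z ∈ Finset.Icc (-N) N ∧ (dZ (y l x) < β i → |y l x - z| < β i) ∧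
        (β i ≤ dZ (y l x) → (z : ℝ) + β i < y l x ∧ y l x < z + 1 - β i) := by
      intro l
      have hRl := abs_le.1 (hR x hx l)
      rcases lt_or_ge (dZ (y l x)) (β i) with h1 | h1
      · obtain ⟨z, hz⟩ := dZ_lt h1
        refine ⟨z, ?_, fun _ => hz, fun h2 => absurd h2 (not_le.2 h1)⟩
        have hz2 := abs_lt.1 hz
        have := hβη i
        rw [Finset.mem_Icc]
        constructor
        · have : (((-N : ℤ)) : ℝ) ≤ z := by push_cast; linarith
          exact_mod_cast this
        · have : (z : ℝ) ≤ N := by linarith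
          exact_mod_cast this
      · have h2 := hb l h1
        have h3 := dZ_floor h2
        refine ⟨⌊y l x⌋, ?_, fun h4 => absurd h4 (not_lt.2 h1), fun _ => h3⟩
        have := hβ0 i
        rw [Finset.mem_Icc]
        constructor
        · have : (((-N : ℤ)) : ℝ) ≤ ⌊y l x⌋ := by
            push_cast; linarith [Int.lt_floor_add_one (y l x)]
          exact_mod_cast this
        · have : (⌊y l x⌋ : ℝ) ≤ N := by linarith
          exact_mod_cast this
    choose a ha1 ha2 ha3 using ha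
    refine mem_iUnion.2 ⟨(⟨i, by omega⟩, Finset.univ.filter fun l => dZ (y l x) < β i,
      fun l => ⟨a l, ha1 l⟩), ?_⟩
    refine ⟨hc, fun l hl => ?_, fun l hl => ?_⟩
    · simp only [Finset.mem_filter, Finset.mem_univ, true_and] at hl
      exact ha2 l hl
    · simp only [Finset.mem_filter, Finset.mem_univ, true_and, not_lt] at hl
      exact ha3 l hl
  · rintro ⟨i, J, a⟩ ⟨i', J', a'⟩ hne hcol
    simp only at hcol
    subst hcol
    rw [Set.disjoint_left]
    rintro x ⟨h1, h2, h3⟩ ⟨h1', h2', h3'⟩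
    simp only at h1 h2 h3 h1' h2' h3'
    apply hne
    have hb0 := hβ0 i
    have hbη := hβη i
    have hJ : ∀ (J J' : Finset κ) (a a' : κ → (Finset.Icc (-N) N : Finset ℤ)),
        (∀ l ∈ J, |y l x - (a l : ℤ)| < β i) →
        (∀ l ∉ J', ((a' l : ℤ) : ℝ) + β i < y l x ∧ y l x < (a' l : ℤ) + 1 - β i) → J ⊆ J' := by
      intro J J' a a' h2 h3 l hl
      by_contra hl'
      have h4 := abs_lt.1 (h2 l hl)
      have h5 := h3 l hl'
      rcases le_or_gt (a l : ℤ) (a' l : ℤ) with h6 | h6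
      · have h7 : ((a l : ℤ) : ℝ) ≤ (a' l : ℤ) := by exact_mod_cast h6
        linarith
      · have h7 : ((a' l : ℤ) : ℝ) + 1 ≤ (a l : ℤ) := by exact_mod_cast h6
        linarith
    have hJJ : J = J' := Finset.Subset.antisymm (hJ J J' a a' h2 h3') (hJ J' J a' a h2' h3)
    subst hJJ
    have haa : a = a' := by
      funext l
      apply Subtype.ext
      by_cases hl : l ∈ J
      · have h4 := abs_lt.1 (h2 l hl)
        have h5 := abs_lt.1 (h2' l hl)
        have h6 : ((a l : ℤ) : ℝ) < (a' l : ℤ) + 1 := by linarith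
        have h7 : ((a' l : ℤ) : ℝ) < (a l : ℤ) + 1 := by linarith
        have h8 : (a l : ℤ) < (a' l : ℤ) + 1 := by exact_mod_cast h6
        have h9 : (a' l : ℤ) < (a l : ℤ) + 1 := by exact_mod_cast h7
        omega
      · have h4 := h3 l hl
        have h5 := h3' l hl
        have h6 : ((a l : ℤ) : ℝ) < (a' l : ℤ) + 1 := by linarith
        have h7 : ((a' l : ℤ) : ℝ) < (a l : ℤ) + 1 := by linarith
        have h8 : (a l : ℤ) < (a' l : ℤ) + 1 := by exact_mod_cast h6
        have h9 : (a' l : ℤ) < (a l : ℤ) + 1 := by exact_mod_cast h7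
        omega
    rw [haa]
  · rintro ⟨i, J, a⟩ x ⟨h1, h2, h3⟩ x' ⟨h1', h2', h3'⟩
    simp only at h1 h2 h3 h1' h2' h3'
    have hb0 := hβ0 i
    have hbη := hβη i
    rw [dist_pi_le_iff hδ.le]
    intro l
    have h4 : |y l x - y l x'| ≤ 1 := by
      rw [abs_le]
      by_cases hl : l ∈ J
      · have h4 := abs_lt.1 (h2 l hl)
        have h5 := abs_lt.1 (h2' l hl)
        constructor <;> linarith
      · have h4 := h3 l hl
        have h5 := h3' l hl
        constructor <;> linarith
    have h5 : y l x - y l x' = (x l - x' l) / δ := by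
      rw [hy]; simp only; ring
    rw [h5, abs_div, abs_of_pos hδ, div_le_one hδ] at h4
    rwa [Real.dist_eq]

end SMD

end

/-! ### from `Lib_MP_33f7bb_an.CCB` -/

section

/-! Piece CCB: covering dimension of polyhedral sets. -/

open Set Filter Topology

namespace SMD

/-- PROOF. Let `U` be a finite open cover of the compact metric space `S` (if `S` is empty trivial),
`λ > 0` a Lebesgue number (`lebesgue_number_lemma_of_metric`); take `colored_cover` for `δ = λ / 2`
and the sets `O i ∩ S` (those which are nonempty, the other ones can be kept only if they lie in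
some `U`; use the index type `{i // (O i ∩ S).Nonempty}`).  Each is contained in a ball of radius
`λ` around one of its points, hence in some `U`.  A point lies in at most one set of each colour. -/
theorem covDimLE_of_poly {κ : Type} [Fintype κ] {S : Set (κ → ℝ)} {r : ℕ} (hS : IsCompact S)
    (h : PolyDimLE S r) : CovDimLE S r := by
  intro ι _ U hU hcov
  have hSc : CompactSpace S := isCompact_iff_compactSpace.1 hS
  obtain ⟨lam, hl, hleb⟩ := lebesgue_number_lemma_of_metric (isCompact_univ : IsCompact (univ : Set S)) hU (by rw [hcov])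
  obtain ⟨I, hI, col, O, hO, hSO, hdis, hdist⟩ := colored_cover hS h (show 0 < lam / 2 by linarith)
  refine ⟨{i : I // (O i ∩ S).Nonempty}, inferInstance, fun i => Subtype.val ⁻¹' (O i.1), ?_, ?_, ?_, ?_⟩
  · intro i
    exact (hO i.1).preimage continuous_subtype_val
  · ext x
    simp only [mem_iUnion, mem_preimage, mem_univ, iff_true]
    have hx := hSO x.2
    rw [mem_iUnion] at hx
    obtain ⟨i, hi⟩ := hx
    exact ⟨⟨i, x.1, hi, x.2⟩, hi⟩
  · rintro ⟨i, z, hz, hzS⟩
    obtain ⟨j, hj⟩ := hleb ⟨z, hzS⟩ (mem_univ _)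
    refine ⟨j, fun y hy => hj ?_⟩
    rw [Metric.mem_ball, Subtype.dist_eq]
    have := hdist i y.1 hy z hz
    linarith
  · intro x
    have hinj : InjOn (fun k : {i : I // (O i ∩ S).Nonempty} => col k.1) {k | x ∈ Subtype.val ⁻¹' (O k.1)} := by
      intro k hk k' hk' he
      by_contra hne
      have hd := hdis k.1 k'.1 (fun h => hne (Subtype.ext h)) he
      exact Set.disjoint_left.1 hd hk hk'
    rw [← Set.InjOn.ncard_image hinj]
    calc _ ≤ (univ : Set (Fin (r + 1))).ncard := Set.ncard_le_ncard (subset_univ _) finite_univ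
      _ = r + 1 := by rw [Set.ncard_univ, Nat.card_eq_fintype_card, Fintype.card_fin]

end SMD

end

/-! ### from `Lib_MP_33f7bb_an.COLA` -/

section

/-! Piece COLA: from polyhedral maps to coloured maps. -/

open Set Filter Topology

namespace SMD

/-- PROOF. The set `{(y, y') | ε ≤ dist y y'}` is compact and `dist (g y) (g y')` is positive on it. -/
theorem exists_delta {Y : Type*} [MetricSpace Y] [CompactSpace Y] {κ : Type} [Fintype κ]
    {g : Y → (κ → ℝ)} (hg : Continuous g) {ε : ℝ} (h : ∀ y y', g y = g y' → dist y y' < ε) :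
    ∃ δ > 0, ∀ y y', dist (g y) (g y') ≤ δ → dist y y' < ε := by
  have hK : IsCompact {p : Y × Y | ε ≤ dist p.1 p.2} :=
    (isClosed_le continuous_const (continuous_fst.dist continuous_snd)).isCompact
  rcases {p : Y × Y | ε ≤ dist p.1 p.2}.eq_empty_or_nonempty with h0 | h0
  · refine ⟨1, one_pos, fun y y' _ => ?_⟩
    by_contra hc
    have h1 : (y, y') ∈ {p : Y × Y | ε ≤ dist p.1 p.2} := not_lt.1 hc
    rw [h0] at h1
    exact h1
  · obtain ⟨p, hp, hmin⟩ := hK.exists_isMinOn h0
      (f := fun p : Y × Y => dist (g p.1) (g p.2)) ((hg.comp continuous_fst).dist (hg.comp continuous_snd)).continuousOn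
    have hpos : 0 < dist (g p.1) (g p.2) := by
      rw [dist_pos]
      intro h1
      have h2 : ε ≤ dist p.1 p.2 := hp
      exact absurd (h _ _ h1) (not_lt.2 h2)
    refine ⟨dist (g p.1) (g p.2) / 2, half_pos hpos, fun y y' hy => ?_⟩
    by_contra hc
    have h1 : (y, y') ∈ {p : Y × Y | ε ≤ dist p.1 p.2} := not_lt.1 hc
    have h2 : dist (g p.1) (g p.2) ≤ dist (g y) (g y') := hmin h1
    linarith

/-- PROOF. `exists_delta` and `colored_cover` for the compact set `range g` give `δ`, `I`, `col`, `O`.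
Let `w i y = Metric.infDist y (g ⁻¹' (O i))ᶜ` if `(g ⁻¹' (O i))ᶜ` is nonempty and `1` otherwise; it is
continuous, `≥ 0`, and positive exactly on `g ⁻¹' (O i)`.  `φ y i = w i y / ∑ i', w i' y`. -/
theorem col_of_PM {Y : Type*} [MetricSpace Y] [CompactSpace Y] {ε : ℝ} {r : ℕ}
    (h : PM Y ε r) : Col Y ε r := by
  classical
  obtain ⟨κ, iκ, g, hg, hpoly, hfib⟩ := h
  obtain ⟨δ, hδ, hδ2⟩ := exists_delta hg hfib
  obtain ⟨I, iI, col, O, hO, hcov, hdis, hdiam⟩ := colored_cover (isCompact_range hg) hpoly hδ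
  set w : I → Y → ℝ := fun i y =>
    if (g ⁻¹' (O i))ᶜ.Nonempty then Metric.infDist y (g ⁻¹' (O i))ᶜ else 1 with hw
  have hwc : ∀ i, Continuous (w i) := by
    intro i
    rw [hw]
    by_cases hne : (g ⁻¹' (O i))ᶜ.Nonempty
    · simp only [if_pos hne]
      exact Metric.continuous_infDist_pt _
    · simp only [if_neg hne]
      exact continuous_const
  have hw0 : ∀ i y, 0 ≤ w i y := by
    intro i y
    simp only [hw]
    split_ifs
    · exact Metric.infDist_nonneg
    · exact zero_le_one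
  have hwpos : ∀ i y, 0 < w i y ↔ g y ∈ O i := by
    intro i y
    simp only [hw]
    by_cases hne : (g ⁻¹' (O i))ᶜ.Nonempty
    · rw [if_pos hne]
      have hcl : IsClosed (g ⁻¹' (O i))ᶜ := ((hO i).preimage hg).isClosed_compl
      rw [← hcl.notMem_iff_infDist_pos hne, notMem_compl_iff, mem_preimage]
    · rw [if_neg hne]
      refine ⟨fun _ => ?_, fun _ => one_pos⟩
      by_contra hc
      exact hne ⟨y, hc⟩
  have hs : ∀ y, 0 < ∑ i, w i y := by
    intro y
    obtain ⟨i, hi⟩ := mem_iUnion.1 (hcov (mem_range_self y))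
    exact Finset.sum_pos' (fun i _ => hw0 i y) ⟨i, Finset.mem_univ _, (hwpos i y).2 hi⟩
  have hmem : ∀ y i, 0 < w i y / ∑ i', w i' y → g y ∈ O i := by
    intro y i h0
    rw [← hwpos]
    exact (div_pos_iff_of_pos_right (hs y)).1 h0
  refine ⟨I, iI, col, fun y i => w i y / ∑ i', w i' y, ?_, ?_, ?_, ?_, ?_⟩
  · refine continuous_pi fun i => ?_
    exact (hwc i).div (continuous_finsetSum _ fun i' _ => hwc i') fun y => (hs y).ne'
  · intro y i
    exact div_nonneg (hw0 i y) (hs y).le
  · intro y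
    rw [← Finset.sum_div]
    exact div_self (hs y).ne'
  · intro y i i' h1 h2 hcol
    by_contra hne
    exact (hdis i i' hne hcol).le_bot ⟨hmem y i h1, hmem y i' h2⟩
  · intro y y' i h1 h2
    exact hδ2 y y' (hdiam i _ (hmem y i h1) _ (hmem y' i h2))

end SMD

end

/-! ### from `Lib_MP_33f7bb_an.COLB` -/

section

/-! Piece COLB: Widim. -/

open Set Filter Topology

namespace SMD

/-- PROOF. `P = range g` (a compact subspace of `κ → ℝ`), `covDimLE_of_poly`.  The fibres of `g`
restricted to `Z` are contained in fibres of `g`, which are compact with all distances `< ε`, so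
of diameter `< ε` (the diameter of a nonempty compact set is attained; the empty set has
diameter `0 < ε`). -/
theorem widimLE_of_PM {Y : Type*} [MetricSpace Y] [CompactSpace Y] {ε : ℝ} (hε : 0 < ε) {r : ℕ}
    (h : PM Y ε r) (Z : Set Y) : WidimLE ε Z r := by
  obtain ⟨κ, i, g, hg, hP, h'⟩ := h
  have hc : IsCompact (range g) := isCompact_range hg
  refine ⟨range g, inferInstance, isCompact_iff_compactSpace.1 hc, inferInstance,
    fun z => ⟨g z, mem_range_self _⟩, ?_, ?_, covDimLE_of_poly hc hP⟩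
  · exact (hg.comp continuous_subtype_val).subtype_mk _
  · rintro ⟨p, hp⟩
    rcases ((fun z : Z => (⟨g z, mem_range_self _⟩ : range g)) ⁻¹' {⟨p, hp⟩}).eq_empty_or_nonempty
      with h0 | ⟨z₀, hz₀⟩
    · rw [h0, Metric.diam_empty]
      exact hε
    · have hz₁ : g z₀ = p := congrArg Subtype.val hz₀
      have hK : IsCompact (g ⁻¹' {p}) := (isClosed_singleton.preimage hg).isCompact
      obtain ⟨m, hm, hmax⟩ := (hK.prod hK).exists_isMaxOn ⟨((z₀ : Y), (z₀ : Y)), hz₁, hz₁⟩
        (continuous_dist.continuousOn (s := (g ⁻¹' {p}) ×ˢ (g ⁻¹' {p})))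
      have h1 : dist m.1 m.2 < ε := by
        apply h'
        have e1 : g m.1 = p := hm.1
        have e2 : g m.2 = p := hm.2
        rw [e1, e2]
      refine lt_of_le_of_lt (Metric.diam_le_of_forall_dist_le dist_nonneg ?_) h1
      intro a ha b hb
      have ea : g a = p := congrArg Subtype.val ha
      have eb : g b = p := congrArg Subtype.val hb
      exact hmax (show ((a : Y), (b : Y)) ∈ (g ⁻¹' {p}) ×ˢ (g ⁻¹' {p}) from ⟨ea, eb⟩)

theorem PM.mono {Y : Type*} [MetricSpace Y] {ε : ℝ} {r r' : ℕ} (hr : r ≤ r') (h : PM Y ε r) :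
    PM Y ε r' := by
  obtain ⟨κ, i, g, hg, ⟨N, A, hA, hA'⟩, h'⟩ := h
  exact ⟨κ, i, g, hg, ⟨N, A, fun i => (hA i).trans hr, hA'⟩, h'⟩

end SMD

end

/-! ### from `Lib_MP_33f7bb_an.ITERA` -/

section

/-! Piece ITERA: all powers. -/

open Set Filter Topology

namespace SMD

/-- transport: `e` continuous and not decreasing small distances -/
theorem PM.comp {Y Y' : Type*} [MetricSpace Y] [MetricSpace Y'] {ε : ℝ} {r : ℕ} (e : Y' → Y)
    (he : Continuous e) (hd : ∀ y y', dist (e y) (e y') < ε → dist y y' < ε) (h : PM Y ε r) :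
    PM Y' ε r := by
  obtain ⟨κ, i, g, hg, ⟨N, A, hA, hA'⟩, h'⟩ := h
  refine ⟨κ, i, g ∘ e, hg.comp he, ⟨N, A, hA, ?_⟩, ?_⟩
  · rintro x ⟨y, rfl⟩
    exact hA' _ ⟨e y, rfl⟩
  · intro y y' hy
    exact hd y y' (h' _ _ hy)

/-- PROOF. Induction on `n`.  `n = 0`: `Fin 0 → X` has one point; constant map to `Fin 0 → ℝ`.
Step: `col_of_PM`, `prod_step` with `Y = (Fin n → X)`, `b = M`, `r = c * n + M * (k + 1)`, and `PM.comp`
for `y ↦ (y 0, Fin.tail y)`, which preserves distances (`dist_pi_lt_iff`). -/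
theorem PM_pow {X : Type*} [MetricSpace X] [CompactSpace X] {M k c : ℕ} {ε : ℝ} (hε : 0 < ε)
    (f : X → (Fin M → ℝ)) (hL : ∃ L : ℕ, ∀ x l, |f x l| ≤ L)
    (hf : ∀ x x', (∀ l, |f x l - f x' l| ≤ 2) → dist x x' < ε) (H : GoodS f (Sk M c) k) (n : ℕ) :
    PM (Fin n → X) ε (c * n + M * (k + 1)) := by
  induction n with
  | zero =>
    refine ⟨Fin 0, inferInstance, fun _ => 0, continuous_const, ⟨1, fun _ => ⊤, ?_, ?_⟩, ?_⟩
    · intro _
      rw [AffineSubspace.direction_top, finrank_top, Module.finrank_pi, Fintype.card_fin]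
      exact Nat.zero_le _
    · intro x _
      exact ⟨0, AffineSubspace.mem_top _ _ _⟩
    · intro y y' _
      rw [Subsingleton.elim y y', dist_self]
      exact hε
  | succ n ih =>
    have hcol := col_of_PM ih
    have hp := prod_step f hL hf H hcol (b := M) (by omega) (by omega)
    have e1 : c + (c * n + M * (k + 1)) = c * (n + 1) + M * (k + 1) := by ring
    rw [e1] at hp
    refine PM.comp (fun y : Fin (n + 1) → X => (y 0, Fin.tail y)) ?_ ?_ hp
    · refine (continuous_apply 0).prodMk ?_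
      exact continuous_pi fun i => continuous_apply i.succ
    · intro y y' h
      rw [Prod.dist_eq, max_lt_iff] at h
      rw [dist_pi_lt_iff hε]
      intro i
      refine Fin.cases ?_ (fun j => ?_) i
      · exact h.1
      · have := (dist_pi_lt_iff hε).1 h.2 j
        exact this

end SMD

end

/-! ### from `Lib_MP_33f7bb_an.FINA` -/

section

/-! Piece FINA: from linear bounds of Widim to the sofic mean dimension. -/

open Set Filter Topology

namespace SMD

theorem fina_widim_le {ε : ℝ} {Z : Type*} [MetricSpace Z] {n : ℕ} (h : WidimLE ε Z n) :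
    Widim ε Z ≤ ((n : ℕ) : EReal) := by
  classical
  unfold Widim
  split_ifs
  · exact bot_le
  · exact iInf_le (fun n : {n : ℕ // WidimLE ε Z n} => ((n : ℕ) : EReal)) ⟨n, h⟩

/-- PROOF. For each `ε`, the infima over `F, δ` are at most the limsup for `F = ∅`, `δ = 1`, and
`Widim ε Z ≤ c * d i + C` for all `Z ⊆ X^(d i)`; `(c * d i + C) / d i → c`. -/
theorem mdim_le_of_widim {X : Type*} [MetricSpace X] {c : ℕ}
    (h : ∀ ε : ℝ, 0 < ε → ∃ C : ℕ, ∀ (n : ℕ) (Z : Set (Fin n → X)), WidimLE ε Z (c * n + C))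
    (G : Type*) [Group G] [MulAction G X] (S : SoficSeq G) : mdim X G S ≤ (c : EReal) := by
  unfold mdim
  refine iSup_le fun ε => ?_
  obtain ⟨C, hC⟩ := h ε.1 ε.2
  refine (iInf_le _ ∅).trans ((iInf_le _ ⟨1, one_pos⟩).trans ?_)
  have hreal : Tendsto (fun i => ((c * S.d i + C : ℕ) : ℝ) / (S.d i : ℝ)) atTop (𝓝 (c : ℝ)) := by
    have h1 : Tendsto (fun i => (c : ℝ) + (C : ℝ) / (S.d i : ℝ)) atTop (𝓝 ((c : ℝ) + 0)) :=
      tendsto_const_nhds.add ((tendsto_const_div_atTop_nhds_zero_nat (C : ℝ)).comp S.tendsto_d)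
    rw [add_zero] at h1
    refine h1.congr' ?_
    filter_upwards [S.tendsto_d.eventually_gt_atTop 0] with i hi
    have h2 : (S.d i : ℝ) ≠ 0 := by exact_mod_cast hi.ne'
    push_cast
    field_simp
  have hE : Tendsto (fun i => ((((c * S.d i + C : ℕ) : ℝ) / (S.d i : ℝ) : ℝ) : EReal)) atTop (𝓝 (c : EReal)) := by
    have h1 := (continuous_coe_real_ereal.tendsto (c : ℝ)).comp hreal
    rw [EReal.coe_natCast] at h1
    exact h1
  rw [← hE.limsup_eq]
  refine limsup_le_limsup (Eventually.of_forall fun i => ?_)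
  show Widim ε.1 (MapSet (X := X) ∅ 1 (S.σ i)) / ((S.d i : ℕ) : EReal) ≤
    ((((c * S.d i + C : ℕ) : ℝ) / (S.d i : ℝ) : ℝ) : EReal)
  rw [EReal.coe_div, EReal.coe_natCast, EReal.coe_natCast]
  refine EReal.div_le_div_right_of_nonneg ?_ (fina_widim_le (hC _ _))
  exact_mod_cast Nat.zero_le _

end SMD

end

/-! ### from `Lib_MP_33f7bb_an.FINB` -/

section

/-! Piece FINB: the trivial group. -/

open Set Filter Topology

namespace SMD

/-- The trivial group has a sofic approximation sequence (`d i = i`, `σ i _ = 1`). -/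
theorem exists_soficSeq_unit : Nonempty (SoficSeq Unit) := by
  refine ⟨{ d := fun i => i, σ := fun _ _ => 1, tendsto_d := tendsto_id, mul := ?_, free := ?_ }⟩
  · intro s t
    refine tendsto_const_nhds.congr' ?_
    filter_upwards [eventually_gt_atTop 0] with i hi
    have hi' : (i : ℝ) ≠ 0 := by
      have : (0:ℝ) < i := by exact_mod_cast hi
      exact this.ne'
    simp [div_self hi']
  · intro s t h
    exact absurd (Subsingleton.elim s t) h

end SMD

end

/-! ### from `Lib_MP_33f7bb_d.D1` -/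

section

/-!
# D1: homotopy invariance of `StabNull`
-/

open Set Filter Topology

namespace MM

open SMD

/-- Homotopy invariance: if `H` has no zeros on `B × [0,1]` then stable triviality of `H (·, 0)`
implies stable triviality of `H (·, 1)`.

PROOF.  Let `V, G₀` be the witness for `H (·, 0)`: `G₀ (z, v) = (H (z, 0), v)` for `z ∈ B` or
`‖v‖ ≥ 1`, no zeros.  Put `E (p, u) = G₀ p + (H (p.1, u) - H (p.1, 0), 0)` for `p : Z × V`, `u : ℝ`
(continuous).  So `E (p, 0) = G₀ p`, and `E (p, u) = (H (p.1, u), p.2)` for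
`p ∈ B' = {p | p.1 ∈ B ∨ 1 ≤ ‖p.2‖}`.  The set `N = {p | ∃ u ∈ Icc 0 1, E (p, u) = 0}` is closed
(projection along the compact set `Icc 0 1`: `IsCompact.image`-type argument or
`isClosedMap_fst_of_compactSpace` on `(Z × V) × Icc 0 1`) and disjoint from the closed set `B'`
(on `B'` the first coordinate `H (p.1, u)` is not zero if `p.1 ∈ B`, and `p.2 ≠ 0` if `‖p.2‖ ≥ 1`).
`Z × V` is metrizable, hence normal; Urysohn (`exists_continuous_zero_one_of_isClosed`) gives
`c : C(Z × V, ℝ)` with `c = 0` on `N`, `c = 1` on `B'`, values in `Icc 0 1`.  The witness is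
`G₁ p = E (p, c p)`: if `G₁ p = 0` then `p ∈ N`, so `c p = 0` and `G₀ p = 0`, impossible. -/
theorem stabNull_htp {Z : Type*} [TopologicalSpace Z] [TopologicalSpace.MetrizableSpace Z]
    {W : Type*} [NormedAddCommGroup W] [NormedSpace ℝ W] {B : Set Z} (hB : IsClosed B)
    (H : Z × ℝ → W) (hH : Continuous H) (h0 : ∀ z ∈ B, ∀ u ∈ Icc (0 : ℝ) 1, H (z, u) ≠ 0)
    (h : StabNull B fun z => H (z, 0)) : StabNull B fun z => H (z, 1) := by
  obtain ⟨V, i1, i2, i3, G, hG, hG0, hGB⟩ := h
  set E : (Z × V) × ℝ → W × V := fun q => G q.1 + (H (q.1.1, q.2) - H (q.1.1, 0), 0) with hE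
  have hEc : Continuous E := by
    refine (hG.comp continuous_fst).add (Continuous.prodMk ?_ continuous_const)
    refine (hH.comp ?_).sub (hH.comp ?_)
    · exact (continuous_fst.comp continuous_fst).prodMk continuous_snd
    · exact (continuous_fst.comp continuous_fst).prodMk continuous_const
  have hE0 : ∀ p : Z × V, E (p, 0) = G p := by
    intro p
    rw [hE]
    simp
  set B' : Set (Z × V) := {p | p.1 ∈ B ∨ 1 ≤ ‖p.2‖} with hB'
  have hEB : ∀ p ∈ B', ∀ u, E (p, u) = (H (p.1, u), p.2) := by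
    rintro ⟨z, v⟩ hp u
    have h1 := hGB z v hp
    rw [hE]
    simp only [h1]
    ext1
    · simp
    · simp
  set N : Set (Z × V) := Prod.fst '' {q : (Z × V) × (Icc (0 : ℝ) 1) | E (q.1, (q.2 : ℝ)) = 0} with hN
  have hNc : IsClosed N := by
    refine isClosedMap_fst_of_compactSpace _ ?_
    have h1 : Continuous fun q : (Z × V) × (Icc (0 : ℝ) 1) => E (q.1, (q.2 : ℝ)) :=
      hEc.comp (continuous_fst.prodMk (continuous_subtype_val.comp continuous_snd))
    exact isClosed_eq h1 continuous_const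
  have hBc : IsClosed B' := by
    refine (hB.preimage continuous_fst).union ?_
    exact isClosed_le continuous_const (continuous_snd.norm)
  have hdis : Disjoint N B' := by
    rw [Set.disjoint_left]
    rintro p ⟨⟨p', u⟩, hq, rfl⟩ hp
    have h1 : E (p', (u : ℝ)) = 0 := hq
    have h2 : E (p', (u : ℝ)) = (H (p'.1, (u : ℝ)), p'.2) := hEB p' hp u
    rw [h1] at h2
    have h3 : H (p'.1, (u : ℝ)) = 0 := (congrArg Prod.fst h2).symm
    have h4 : p'.2 = 0 := (congrArg Prod.snd h2).symm
    rcases hp with hp | hp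
    · exact h0 p'.1 hp u u.2 h3
    · have h5 : p'.2 = 0 := h4
      have h6 : (1 : ℝ) ≤ ‖p'.2‖ := hp
      rw [h5, norm_zero] at h6
      linarith
  obtain ⟨c, hc0, hc1, hcI⟩ := exists_continuous_zero_one_of_isClosed hNc hBc hdis
  refine ⟨V, i1, i2, i3, fun p => E (p, c p), ?_, ?_, ?_⟩
  · exact hEc.comp (continuous_id.prodMk c.continuous)
  · intro p hp
    have h1 : p ∈ N := ⟨(p, ⟨c p, hcI p⟩), hp, rfl⟩
    have h2 : c p = 0 := hc0 h1
    have h3 : E (p, c p) = 0 := hp
    rw [h2, hE0] at h3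
    exact hG0 p h3
  · intro z v hzv
    have h1 : (z, v) ∈ B' := hzv
    have h2 : c (z, v) = 1 := hc1 h1
    show E ((z, v), c (z, v)) = (H (z, 1), v)
    rw [h2, hEB (z, v) h1]

end MM

end
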