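import Pool.Agent.Lib_MP_33f7bb_m.G02
import Pool.Agent.Lib_MP_33f7bb_m.G07
import Pool.Agent.Lib_MP_33f7bb_m.G08

/-!
# MP_33f7bb_an, negative answer to Q1: merged library part G09

Concatenation of files of `Lib_MP_33f7bb_an` and `Lib_MP_33f7bb_d` (each in its own section), only to save build time.
-/

/-! ### from `Lib_MP_33f7bb_d.A002` -/

section

/-!
# A0-02: the Eilenberg-Zilber lemma: nondegenerate simplices

`NonDeg x`: `x` is not in the image of the structure map of a monotone map to a smaller `[m]`.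
Existence: choose `k` minimal.  Uniqueness: if `act s y = act s' y'` with `s, s'` surjective and
`y, y'` nondegenerate; a section `t` of `s` gives `y = act t (act s' y') = act (s'.comp t) y'`, so
(`y` nondegenerate) `k ≤ k'`, by symmetry `k = k'`, and `s'.comp t : [k] → [k]` must be
surjective (factor it), hence the identity; so `y = y'` and every section of `s` is a section of
`s'`, whence `s = s'` (`eq_of_sections`).
-/

namespace MM

/-- nondegenerate simplices -/
def NonDeg {P : SS} {n : ℕ} (x : P.S n) : Prop :=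
  ∀ (m : ℕ) (f : Mo n m) (y : P.S m), x = P.act f y → n ≤ m

private theorem A002_inj_le {m n : ℕ} (f : Mo m n) (hf : Function.Injective f) : m ≤ n := by
  have := Fintype.card_le_of_injective _ hf
  simpa using this

private theorem A002_surj_inj {m : ℕ} (f : Mo m m) (hf : Function.Injective f) :
    Function.Surjective f := Finite.surjective_of_injective hf

private theorem A002_eq_id {m : ℕ} (f : Mo m m) (hf : Function.Surjective f) :
    f = OrderHom.id := by
  have hi : Function.Injective f := Finite.injective_iff_surjective.2 hf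
  have hs : StrictMono f := f.monotone.strictMono_of_injective hi
  let e : Fin (m + 1) ≃o Fin (m + 1) := StrictMono.orderIsoOfSurjective f hs hf
  have he : e = OrderIso.refl _ := Subsingleton.elim _ _
  refine OrderHom.ext _ _ (funext fun x => ?_)
  have h1 : e x = x := by rw [he]; rfl
  exact h1

theorem ez_exists {P : SS} {n : ℕ} (x : P.S n) :
    ∃ (k : ℕ) (s : Mo n k) (y : P.S k), Function.Surjective s ∧ NonDeg y ∧ x = P.act s y := by
  classical
  have hex : ∃ k : ℕ, ∃ (f : Mo n k) (y : P.S k), x = P.act f y :=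
    ⟨n, OrderHom.id, x, (P.act_id x).symm⟩
  obtain ⟨f, y, hfy⟩ := Nat.find_spec hex
  have hmin : ∀ m : ℕ, (∃ (f : Mo n m) (y : P.S m), x = P.act f y) → Nat.find hex ≤ m :=
    fun m hm => Nat.find_min' hex hm
  obtain ⟨k', s, i, hs, hi, he⟩ := exists_factor f
  have hx : x = P.act s (P.act i y) := by rw [P.act_comp, ← he]; exact hfy
  refine ⟨k', s, P.act i y, hs, ?_, hx⟩
  intro m g z hz
  have h1 : Nat.find hex ≤ m := hmin m ⟨g.comp s, z, by rw [← P.act_comp, ← hz]; exact hx⟩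
  exact (A002_inj_le i hi).trans h1

theorem ez_dim {P : SS} {n k k' : ℕ} (s : Mo n k) (s' : Mo n k') (y : P.S k) (y' : P.S k')
    (hs : Function.Surjective s) (hs' : Function.Surjective s') (hy : NonDeg y) (hy' : NonDeg y')
    (h : P.act s y = P.act s' y') : k = k' := by
  obtain ⟨t, ht⟩ := exists_section s hs
  obtain ⟨t', ht'⟩ := exists_section s' hs'
  have h1 : y = P.act (s'.comp t) y' := by
    rw [← P.act_comp, ← h, P.act_comp, ht, P.act_id]
  have h2 : y' = P.act (s.comp t') y := by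
    rw [← P.act_comp, h, P.act_comp, ht', P.act_id]
  exact le_antisymm (hy _ _ _ h1) (hy' _ _ _ h2)

theorem ez_unique {P : SS} {n k : ℕ} (s s' : Mo n k) (y y' : P.S k)
    (hs : Function.Surjective s) (hs' : Function.Surjective s') (hy : NonDeg y) (hy' : NonDeg y')
    (h : P.act s y = P.act s' y') : s = s' ∧ y = y' := by
  have key : ∀ t : Mo k n, s.comp t = OrderHom.id → s'.comp t = OrderHom.id := by
    intro t ht
    have h1 : y = P.act (s'.comp t) y' := by
      rw [← P.act_comp, ← h, P.act_comp, ht, P.act_id]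
    apply A002_eq_id
    obtain ⟨j, r, i, hr, hi, he⟩ := exists_factor (s'.comp t)
    have h2 : y = P.act r (P.act i y') := by rw [P.act_comp, ← he]; exact h1
    have h3 : j = k := le_antisymm (A002_inj_le i hi) (hy _ _ _ h2)
    subst h3
    rw [he]
    exact (A002_surj_inj i hi).comp hr
  refine ⟨eq_of_sections s s' hs hs' key, ?_⟩
  obtain ⟨t, ht⟩ := exists_section s hs
  have h1 : y = P.act (s'.comp t) y' := by
    rw [← P.act_comp, ← h, P.act_comp, ht, P.act_id]
  rw [key t ht, P.act_id] at h1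
  exact h1

/-- a simplex is nondegenerate iff it is not in the image of a degeneracy -/
theorem nonDeg_iff {P : SS} {n : ℕ} (x : P.S (n + 1)) :
    NonDeg x ↔ ∀ (i : Fin (n + 1)) (y : P.S n), x ≠ P.act (sgm i) y := by
  constructor
  · intro h i y he
    exact absurd (h _ _ _ he) (by omega)
  · intro h m f y he
    by_contra hlt
    have hf : ¬ Function.Injective f := fun hi => hlt (A002_inj_le f hi)
    obtain ⟨i, g, hg⟩ := exists_sgm f hf
    apply h i (P.act g y)
    rw [P.act_comp, ← hg]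
    exact he

/-- surjective structure maps preserve and reflect membership in subcomplexes -/
theorem act_mem_iff {P : SS} (A : Sub P) {m n : ℕ} (s : Mo m n) (hs : Function.Surjective s)
    (x : P.S n) : P.act s x ∈ A.car m ↔ x ∈ A.car n := by
  refine ⟨fun h => ?_, fun h => A.closed s h⟩
  obtain ⟨t, ht⟩ := exists_section s hs
  have h1 := A.closed t h
  rwa [P.act_comp, ht, P.act_id] at h1

/-- a subcomplex containing all nondegenerate simplices of `C` contains `C` -/
theorem le_of_nonDeg {P : SS} {A C : Sub P}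
    (h : ∀ n, ∀ x ∈ C.car n, NonDeg x → x ∈ A.car n) : C ≤ A := by
  intro n x hx
  obtain ⟨k, s, y, hs, hy, rfl⟩ := ez_exists x
  exact A.closed s (h k y ((act_mem_iff C s hs y).1 hx) hy)

/-- if `A ≤ C` and `A ≠ C` there is a nondegenerate simplex `x` of `C`, not in `A`, all of whose
proper faces are in `A` (choose the dimension minimal) -/
theorem exists_next {P : SS} {A C : Sub P} (hAC : A ≤ C) (hne : ¬ C ≤ A) :
    ∃ (n : ℕ) (x : P.S n), x ∈ C.car n ∧ x ∉ A.car n ∧ NonDeg x ∧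
      ∀ (m : ℕ) (f : Mo m n), ¬ Function.Surjective f → P.act f x ∈ A.car m := by
  classical
  have _ := hAC
  have hex : ∃ n : ℕ, ∃ x : P.S n, x ∈ C.car n ∧ x ∉ A.car n := by
    by_contra hcon
    push Not at hcon
    exact hne fun n x hx => hcon n x hx
  obtain ⟨x, hxC, hxA⟩ := Nat.find_spec hex
  have hmin : ∀ m : ℕ, (∃ x : P.S m, x ∈ C.car m ∧ x ∉ A.car m) → Nat.find hex ≤ m :=
    fun m hm => Nat.find_min' hex hm
  refine ⟨Nat.find hex, x, hxC, hxA, ?_, ?_⟩
  · intro m f z hz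
    obtain ⟨k, s, y, hs, hy, he⟩ := ez_exists x
    have hyC : y ∈ C.car k := (act_mem_iff C s hs y).1 (he ▸ hxC)
    have hyA : y ∉ A.car k := fun h => hxA (he ▸ A.closed s h)
    have h1 : Nat.find hex ≤ k := hmin k ⟨y, hyC, hyA⟩
    obtain ⟨t, ht⟩ := exists_section s hs
    have h2 : y = P.act (f.comp t) z := by
      rw [← P.act_comp, ← hz, he, P.act_comp, ht, P.act_id]
    exact h1.trans (hy _ _ _ h2)
  · intro m f hf
    obtain ⟨j, r, i, hr, hi, he⟩ := exists_factor f
    have hj : j < Nat.find hex := by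
      refine lt_of_le_of_ne (A002_inj_le i hi) ?_
      intro hjn
      apply hf
      rw [he]
      have hi' : Function.Surjective i := by
        have hb : Function.Bijective i := by
          rw [Fintype.bijective_iff_injective_and_card]
          exact ⟨hi, by simp [hjn]⟩
        exact hb.2
      exact hi'.comp hr
    have h1 : P.act i x ∈ A.car j := by
      by_contra hcon
      exact absurd (hmin j ⟨P.act i x, C.closed i hxC, hcon⟩) (not_le.2 hj)
    have h2 := A.closed r h1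
    rwa [P.act_comp, ← he] at h2

end MM

end

/-! ### from `Lib_MP_33f7bb_d.A103` -/

section

/-!
# A1-03: bump maps

`τ` a nondegenerate `n`-simplex of the subcomplex `L`, all nondegenerate simplices of `L` have
dimension `≤ n`, `a ∈ W_n` a Moore cycle.  The bump map `e`: `e (act s τ) = act s a` for `s`
surjective, `e x = 0` for all other `x`.
Well defined: `ez_unique`.  Natural on `L`: let `x ∈ L_m`, `g : [m'] → [m]`.  By `ez_exists` for `x`:
`x = act s y`, `s : [m] → [k]` surjective, `y` nondegenerate, `k ≤ n`.  `act g x = act (s.comp g) y`;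
factor `s.comp g = i.comp s'` (`exists_factor`).
If `i` is not surjective then `act i y` is the pull back of a simplex of dimension `< k ≤ n`, so the
nondegenerate simplex belonging to `act g x` has dimension `< n` and is not `τ`: `e (act g x) = 0`
(`ez_dim`); and `act g (e x)` is `0` if `y ≠ τ`, and `act (s.comp g) a = 0` if `y = τ`, since `s.comp g` is
not surjective and `a` is a Moore cycle.
If `s.comp g` is surjective, both sides are `act (s.comp g) a` (if `y = τ`) or `0`.
-/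

namespace MM

private theorem A103_inj_le {m n : ℕ} (f : Mo m n) (hf : Function.Injective f) : m ≤ n := by
  have := Fintype.card_le_of_injective _ hf
  simpa using this

private theorem A103_surj_inj {m : ℕ} (f : Mo m m) (hf : Function.Injective f) :
    Function.Surjective f := Finite.surjective_of_injective hf

private theorem A103_eq_id {m : ℕ} (f : Mo m m) (hf : Function.Surjective f) :
    f = OrderHom.id := by
  have hi : Function.Injective f := Finite.injective_iff_surjective.2 hf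
  have hs : StrictMono f := f.monotone.strictMono_of_injective hi
  let e : Fin (m + 1) ≃o Fin (m + 1) := StrictMono.orderIsoOfSurjective f hs hf
  have he : e = OrderIso.refl _ := Subsingleton.elim _ _
  refine OrderHom.ext _ _ (funext fun x => ?_)
  have h1 : e x = x := by rw [he]; rfl
  exact h1

/-- a nondegenerate simplex is the pull back of a simplex of the same dimension only along the
identity -/
private theorem A103_id {P : SS} {n : ℕ} {τ : P.S n} (hτ : NonDeg τ) (f : Mo n n) (y : P.S n)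
    (h : τ = P.act f y) : f = OrderHom.id := by
  apply A103_eq_id
  obtain ⟨j, r, i, hr, hi, he⟩ := exists_factor f
  have h2 : τ = P.act r (P.act i y) := by rw [P.act_comp, ← he]; exact h
  have h3 : j = n := le_antisymm (A103_inj_le i hi) (hτ _ _ _ h2)
  subst h3
  rw [he]
  exact (A103_surj_inj i hi).comp hr

open scoped Classical in
/-- the bump map -/
private noncomputable def A103_e {P : SS} {n : ℕ} (τ : P.S n) {W : SV} (a : W.V n) : Fn P W.ss :=
  fun m x => if h : ∃ s : Mo m n, Function.Surjective s ∧ x = P.act s τ then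
    W.act (Classical.choose h) a else (0 : W.V m)

private theorem A103_e_act {P : SS} {n : ℕ} {τ : P.S n} (hτ : NonDeg τ) {W : SV} (a : W.V n)
    {m : ℕ} (s : Mo m n) (hs : Function.Surjective s) :
    A103_e τ a m (P.act s τ) = W.act s a := by
  have h : ∃ r : Mo m n, Function.Surjective r ∧ P.act s τ = P.act r τ := ⟨s, hs, rfl⟩
  have h1 := Classical.choose_spec h
  have h2 : Classical.choose h = s := (ez_unique _ _ _ _ h1.1 hs hτ hτ h1.2.symm).1
  unfold A103_e
  rw [dif_pos h, h2]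

private theorem A103_e_zero {P : SS} {n : ℕ} {τ : P.S n} {W : SV} (a : W.V n)
    {m : ℕ} (x : P.S m) (hx : ¬ ∃ s : Mo m n, Function.Surjective s ∧ x = P.act s τ) :
    A103_e τ a m x = (0 : W.V m) := by
  unfold A103_e
  rw [dif_neg hx]

/-- the sum of the two coordinates of a simplex of `Δ^s × Δ^k` -/
private def A103_sum {s k n : ℕ} (x : Mo n s × Mo n k) : Mo n (s + k) :=
  ⟨fun i => ⟨(x.1 i : ℕ) + (x.2 i : ℕ), by
    have h1 := (x.1 i).isLt
    have h2 := (x.2 i).isLt
    omega⟩, fun i j hij => by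
    have h1 : (x.1 i : ℕ) ≤ (x.1 j : ℕ) := x.1.monotone hij
    have h2 : (x.2 i : ℕ) ≤ (x.2 j : ℕ) := x.2.monotone hij
    show (x.1 i : ℕ) + (x.2 i : ℕ) ≤ (x.1 j : ℕ) + (x.2 j : ℕ)
    omega⟩

private theorem A103_sum_val {s k n : ℕ} (x : Mo n s × Mo n k) (i : Fin (n + 1)) :
    (A103_sum x i : ℕ) = (x.1 i : ℕ) + (x.2 i : ℕ) := rfl

private theorem A103_sum_eq {s k n : ℕ} (x : Mo n s × Mo n k) {i j : Fin (n + 1)}
    (h : A103_sum x i = A103_sum x j) : x.1 i = x.1 j ∧ x.2 i = x.2 j := by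
  have h0 : (x.1 i : ℕ) + (x.2 i : ℕ) = (x.1 j : ℕ) + (x.2 j : ℕ) := by
    rw [← A103_sum_val, ← A103_sum_val, h]
  rcases le_total i j with hij | hij
  · have h1 : (x.1 i : ℕ) ≤ (x.1 j : ℕ) := x.1.monotone hij
    have h2 : (x.2 i : ℕ) ≤ (x.2 j : ℕ) := x.2.monotone hij
    exact ⟨Fin.ext (by omega), Fin.ext (by omega)⟩
  · have h1 : (x.1 j : ℕ) ≤ (x.1 i : ℕ) := x.1.monotone hij
    have h2 : (x.2 j : ℕ) ≤ (x.2 i : ℕ) := x.2.monotone hij
    exact ⟨Fin.ext (by omega), Fin.ext (by omega)⟩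

/-- nondegenerate simplices have an injective sum -/
private theorem A103_inj {s k n : ℕ} (x : Mo n s × Mo n k)
    (hx : NonDeg (P := (Del s).prod (Del k)) x) : Function.Injective (A103_sum x) := by
  obtain ⟨j, r, i, hr, hi, he⟩ := exists_factor (A103_sum x)
  obtain ⟨t, ht⟩ := exists_section r hr
  have key : ∀ a : Fin (n + 1), x.1 (t (r a)) = x.1 a ∧ x.2 (t (r a)) = x.2 a := by
    intro a
    apply A103_sum_eq
    have h1 : r (t (r a)) = r a := by
      have h2 := congrArg (fun f : Mo j j => f (r a)) ht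
      exact h2
    rw [he]
    show i (r (t (r a))) = i (r a)
    rw [h1]
  have h3 : x = ((Del s).prod (Del k)).act r ((x.1.comp t, x.2.comp t) : Mo j s × Mo j k) := by
    refine Prod.ext ?_ ?_
    · exact OrderHom.ext _ _ (funext fun a => (key a).1.symm)
    · exact OrderHom.ext _ _ (funext fun a => (key a).2.symm)
  have h4 : n ≤ j := hx _ _ _ h3
  have h5 : j ≤ n := by
    have := Fintype.card_le_of_surjective _ hr
    simpa using this
  have h6 : j = n := le_antisymm h5 h4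
  subst h6
  have h7 : Function.Injective r := Finite.injective_iff_surjective.2 hr
  rw [he]
  exact hi.comp h7

/-- both coordinates of a maximal chain are surjective -/
private theorem A103_surj {s k n : ℕ} (h : s + k = n) (x : Mo n s × Mo n k)
    (hx : ∀ i, ((x.1 i : ℕ) + (x.2 i : ℕ) = (i : ℕ))) :
    Function.Surjective x.1 ∧ Function.Surjective x.2 := by
  have step : ∀ i : ℕ, ∀ hi : i < n + 1,
      (∀ v : ℕ, v ≤ (x.1 ⟨i, hi⟩ : ℕ) → ∃ j, (x.1 j : ℕ) = v) ∧
      (∀ v : ℕ, v ≤ (x.2 ⟨i, hi⟩ : ℕ) → ∃ j, (x.2 j : ℕ) = v) := by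
    intro i
    induction i with
    | zero =>
      intro hi
      have h0 : (x.1 ⟨0, hi⟩ : ℕ) + (x.2 ⟨0, hi⟩ : ℕ) = 0 := hx ⟨0, hi⟩
      exact ⟨fun v hv => ⟨⟨0, hi⟩, by omega⟩, fun v hv => ⟨⟨0, hi⟩, by omega⟩⟩
    | succ i ih =>
      intro hi
      have hi' : i < n + 1 := by omega
      obtain ⟨ih1, ih2⟩ := ih hi'
      have h0 : (x.1 ⟨i, hi'⟩ : ℕ) + (x.2 ⟨i, hi'⟩ : ℕ) = i := hx ⟨i, hi'⟩
      have h1 : (x.1 ⟨i + 1, hi⟩ : ℕ) + (x.2 ⟨i + 1, hi⟩ : ℕ) = i + 1 := hx ⟨i + 1, hi⟩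
      have hle : (⟨i, hi'⟩ : Fin (n + 1)) ≤ ⟨i + 1, hi⟩ := Fin.mk_le_mk.2 (by omega)
      have h2 : (x.1 ⟨i, hi'⟩ : ℕ) ≤ (x.1 ⟨i + 1, hi⟩ : ℕ) := x.1.monotone hle
      have h3 : (x.2 ⟨i, hi'⟩ : ℕ) ≤ (x.2 ⟨i + 1, hi⟩ : ℕ) := x.2.monotone hle
      constructor
      · intro v hv
        by_cases h4 : v ≤ (x.1 ⟨i, hi'⟩ : ℕ)
        · exact ih1 v h4
        · exact ⟨⟨i + 1, hi⟩, by omega⟩
      · intro v hv
        by_cases h4 : v ≤ (x.2 ⟨i, hi'⟩ : ℕ)
        · exact ih2 v h4
        · exact ⟨⟨i + 1, hi⟩, by omega⟩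
  obtain ⟨s1, s2⟩ := step n (by omega)
  have hn : (x.1 ⟨n, by omega⟩ : ℕ) + (x.2 ⟨n, by omega⟩ : ℕ) = n := hx ⟨n, by omega⟩
  have b1 := (x.1 ⟨n, by omega⟩).isLt
  have b2 := (x.2 ⟨n, by omega⟩).isLt
  constructor
  · intro v
    obtain ⟨j, hj⟩ := s1 v.1 (by have := v.isLt; omega)
    exact ⟨j, Fin.ext hj⟩
  · intro v
    obtain ⟨j, hj⟩ := s2 v.1 (by have := v.isLt; omega)
    exact ⟨j, Fin.ext hj⟩

theorem exists_bump {P : SS} (L : Sub P) {n : ℕ} (τ : P.S n) (hτ : NonDeg τ)
    (hdim : ∀ m, ∀ x ∈ L.car m, NonDeg x → m ≤ n) {W : SV} (a : W.V n) (ha : W.Moore a) :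
    ∃ e : Fn P W.ss, NatOn L e ∧ e n τ = a ∧
      (∀ x ∈ L.car n, x ≠ τ → e n x = 0) ∧
      (∀ m, m < n → ∀ x : P.S m, e m x = 0) ∧
      (∀ C : Sub P, τ ∉ C.car n → ∀ m, ∀ x ∈ C.car m, e m x = 0) ∧
      ∀ S : SubV W, a ∈ S.car n → ∀ m x, e m x ∈ S.car m := by
  refine ⟨A103_e τ a, ?_, ?_, ?_, ?_, ?_, ?_⟩
  · intro m' m g x hx
    by_cases h : ∃ s : Mo m n, Function.Surjective s ∧ x = P.act s τ
    · obtain ⟨s, hs, rfl⟩ := h
      rw [A103_e_act hτ a s hs, P.act_comp]
      show _ = W.act g (W.act s a)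
      rw [W.act_comp]
      by_cases hsg : Function.Surjective (s.comp g)
      · exact A103_e_act hτ a _ hsg
      · rw [ha _ _ hsg]
        apply A103_e_zero
        rintro ⟨r, hr, hre⟩
        obtain ⟨t, ht⟩ := exists_section r hr
        have h1 : τ = P.act ((s.comp g).comp t) τ := by
          rw [← P.act_comp, hre, P.act_comp, ht, P.act_id]
        have h2 := A103_id hτ _ _ h1
        apply hsg
        intro v
        refine ⟨t v, ?_⟩
        exact congrArg (fun f : Mo n n => f v) h2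
    · have h0 : A103_e τ a m x = (0 : W.V m) := A103_e_zero a x h
      rw [h0]
      show _ = W.act g (0 : W.V m)
      rw [map_zero]
      apply A103_e_zero
      rintro ⟨r, hr, hre⟩
      obtain ⟨k, s, y, hs, hy, rfl⟩ := ez_exists x
      have hyL : y ∈ L.car k := (act_mem_iff L s hs y).1 hx
      have hk : k ≤ n := hdim k y hyL hy
      obtain ⟨t, ht⟩ := exists_section r hr
      have h1 : τ = P.act ((s.comp g).comp t) y := by
        rw [← P.act_comp, ← P.act_comp, hre, P.act_comp, ht, P.act_id]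
      have hn : n ≤ k := hτ _ _ _ h1
      have hkn : k = n := le_antisymm hk hn
      subst hkn
      have h2 := A103_id hτ _ _ h1
      rw [h2, P.act_id] at h1
      exact h ⟨s, hs, by rw [h1]⟩
  · have h1 := A103_e_act hτ a (OrderHom.id : Mo n n) Function.surjective_id
    rw [P.act_id, W.act_id] at h1
    exact h1
  · intro x _ hne
    apply A103_e_zero
    rintro ⟨s, hs, rfl⟩
    rw [A103_eq_id s hs, P.act_id] at hne
    exact hne rfl
  · intro m hm x
    apply A103_e_zero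
    rintro ⟨s, hs, -⟩
    have h1 := Fintype.card_le_of_surjective _ hs
    simp only [Fintype.card_fin] at h1
    omega
  · intro C hC m x hx
    apply A103_e_zero
    rintro ⟨s, hs, rfl⟩
    exact hC ((act_mem_iff C s hs τ).1 hx)
  · intro S hS m x
    by_cases h : ∃ s : Mo m n, Function.Surjective s ∧ x = P.act s τ
    · obtain ⟨s, hs, rfl⟩ := h
      rw [A103_e_act hτ a s hs]
      exact S.closed s hS
    · rw [A103_e_zero a x h]
      exact (S.car m).zero_mem

/-- the simplices of `Δ^s × Δ^k`: nondegenerate iff jointly injective -/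
theorem nonDeg_prod_iff {s k n : ℕ} (x : ((Del s).prod (Del k)).S n) :
    NonDeg (P := (Del s).prod (Del k)) x ↔
      Function.Injective fun i : Fin (n + 1) => (x.1 i, x.2 i) := by
  constructor
  · intro hx i j hij
    apply A103_inj x hx
    have h1 : x.1 i = x.1 j := congrArg Prod.fst hij
    have h2 : x.2 i = x.2 j := congrArg Prod.snd hij
    apply Fin.ext
    rw [A103_sum_val, A103_sum_val, h1, h2]
  · intro hinj m f y hy
    apply A103_inj_le f
    intro i j hij
    apply hinj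
    have h1 : ∀ t, x.1 t = y.1 (f t) := fun t =>
      congrArg (fun z : Mo n s × Mo n k => z.1 t) hy
    have h2 : ∀ t, x.2 t = y.2 (f t) := fun t =>
      congrArg (fun z : Mo n s × Mo n k => z.2 t) hy
    show (x.1 i, x.2 i) = (x.1 j, x.2 j)
    rw [h1, h1, h2, h2, hij]

/-- dimension bound for `Δ^s × Δ^k` -/
theorem nonDeg_prod_le {s k n : ℕ} (x : ((Del s).prod (Del k)).S n)
    (hx : NonDeg (P := (Del s).prod (Del k)) x) : n ≤ s + k := by
  exact A103_inj_le _ (A103_inj x hx)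

/-- the nondegenerate simplices of dimension `s + k` of `Δ^s × Δ^k` are the maximal chains -/
theorem nonDeg_prod_top {s k n : ℕ} (h : s + k = n) (x : ((Del s).prod (Del k)).S n) :
    NonDeg (P := (Del s).prod (Del k)) x ↔ ∀ i, ((x.1 i : ℕ) + (x.2 i : ℕ) = (i : ℕ)) := by
  constructor
  · intro hx i
    subst h
    have h1 := A103_eq_id _ (A103_surj_inj _ (A103_inj x hx))
    have h2 : A103_sum x i = i := by rw [h1]; rfl
    rw [← A103_sum_val, h2]
  · intro hi
    rw [nonDeg_prod_iff]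
    intro i j hij
    have h1 : x.1 i = x.1 j := congrArg Prod.fst hij
    have h2 : x.2 i = x.2 j := congrArg Prod.snd hij
    apply Fin.ext
    rw [← hi i, ← hi j, h1, h2]

/-- the nondegenerate simplices of the boundary of `Δ^s × Δ^k` have dimension `< s + k` -/
theorem nonDeg_box_lt {s k m : ℕ} (x : ((Del s).prod (Del k)).S m)
    (hx : x ∈ (Sub.box (bd s) ⊤ (bd k) ⊤).car m)
    (hx' : NonDeg (P := (Del s).prod (Del k)) x) : m < s + k := by
  refine lt_of_le_of_ne (nonDeg_prod_le x hx') ?_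
  intro hm
  obtain ⟨h1, h2⟩ := A103_surj hm.symm x ((nonDeg_prod_top hm.symm x).1 hx')
  rcases hx.2 with h3 | h3
  · exact h3 h1
  · exact h3 h2

/-- the maximal chains are not in the boundary -/
theorem maxChain_notMem {s k n : ℕ} (h : s + k = n) (x : ((Del s).prod (Del k)).S n)
    (hx : ∀ i, ((x.1 i : ℕ) + (x.2 i : ℕ) = (i : ℕ))) :
    x ∉ (Sub.box (bd s) ⊤ (bd k) ⊤).car n := by
  obtain ⟨h1, h2⟩ := A103_surj h x hx
  intro hb
  rcases hb.2 with h3 | h3
  · exact h3 h1
  · exact h3 h2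

end MM

end

/-! ### from `Lib_MP_33f7bb_an.PTLB` -/

section

/-! Piece PTLB: products with normed spaces. -/

open Set Filter Topology

namespace SMD

/-- PROOF. Given `V, W, j, C, F`: `n = finrank V`, `e : V ≃ₜ (Fin n → ℝ)` with `‖e v‖ = ‖v‖`.
Let `Y = X × (Fin n → I)` and `ι : Y → X × V`, `(x, t) ↦ (x, e.symm (fun i => t i))`.  Apply
`SI_cube` (with `j + n`) to the closed set `C' = ι ⁻¹' C`, the zero space `Fin 0 → ℝ`, `W` and
`F' (y, 0) = F (ι y)`.  The witness is `V', G'`.  Put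
`G ((x, v), s) = G' (((x, (e v) as a point of the cube), 0), s)` if `‖v‖ ≤ 1` (use
`Set.projIcc` coordinatewise to get a total continuous function) and `(F (x, v), s)` if `1 ≤ ‖v‖`.
For `‖v‖ = 1` we have `(x, v) ∈ C` so both agree (`Continuous.if_le`). -/
theorem PT_of_SI {X : Type*} [TopologicalSpace X] [CompactSpace X]
    [TopologicalSpace.MetrizableSpace X] {c : ℕ} (h : ∀ j, c < j → SI X j) : PT X c := by
  intro V _ _ _ W _ _ _ j hj hd C hC hC1 F hF hF0
  obtain ⟨e, he⟩ := exists_radial V (Fin (Module.finrank ℝ V) → ℝ) (by simp)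
  generalize Module.finrank ℝ V = n at e he hd
  -- the inclusion of the cube
  let ι : X × (Fin n → Icc (-1 : ℝ) 1) → X × V := fun p => (p.1, e.symm (fun i => (p.2 i : ℝ)))
  have hι : Continuous ι := by
    refine continuous_fst.prodMk (e.symm.continuous.comp ?_)
    exact continuous_pi fun i => continuous_subtype_val.comp
      ((continuous_apply i).comp continuous_snd)
  have hes : ∀ w, ‖e.symm w‖ = ‖w‖ := by
    intro w
    have := he (e.symm w)
    rw [e.apply_symm_apply] at this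
    exact this.symm
  have hnV : Module.finrank ℝ W = (j + n) + Module.finrank ℝ (Fin 0 → ℝ) := by
    simp [hd]
  obtain ⟨V', i1, i2, i3, G', hG', hG0, hGb⟩ :=
    SI_cube h n (j + n) (by omega) (ι ⁻¹' C) (hC.preimage hι) (Fin 0 → ℝ) W hnV
      (fun p => F (ι p.1)) (hF.comp (hι.comp continuous_fst)) (by
        intro y v hyv
        rcases hyv with hy | hv
        · exact hF0 _ hy
        · exfalso
          have : v = 0 := Subsingleton.elim _ _
          rw [this, norm_zero] at hv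
          linarith)
  have hm : (-1 : ℝ) ≤ 1 := by norm_num
  let π : V → (Fin n → Icc (-1 : ℝ) 1) := fun v i => Set.projIcc (-1) 1 hm (e v i)
  have hπ : Continuous π := by
    refine continuous_pi fun i => continuous_projIcc.comp ?_
    exact (continuous_apply i).comp e.continuous
  have hιπ : ∀ x v, ‖v‖ ≤ 1 → ι (x, π v) = (x, v) := by
    intro x v hv
    have h1 : (fun i => (π v i : ℝ)) = e v := by
      funext i
      have h2 : |e v i| ≤ 1 := by
        have := norm_le_pi_norm (e v) i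
        rw [he v, Real.norm_eq_abs] at this
        linarith
      have h3 : e v i ∈ Icc (-1 : ℝ) 1 := abs_le.1 h2
      show ((Set.projIcc (-1) 1 hm (e v i) : Icc (-1 : ℝ) 1) : ℝ) = e v i
      rw [Set.projIcc_of_mem hm h3]
    show (x, e.symm (fun i => (π v i : ℝ))) = (x, v)
    rw [h1, e.symm_apply_apply]
  refine ⟨V', i1, i2, i3, fun p => if ‖p.1.2‖ ≤ 1 then G' (((p.1.1, π p.1.2), 0), p.2)
    else (F p.1, p.2), ?_, ?_, ?_⟩
  · refine Continuous.if_le ?_ ?_ ?_ ?_ ?_
    · refine hG'.comp ?_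
      refine ((?_ : Continuous fun p : (X × V) × V' => ((p.1.1, π p.1.2), (0 : Fin 0 → ℝ)))).prodMk
        continuous_snd
      refine Continuous.prodMk ?_ continuous_const
      exact (continuous_fst.comp continuous_fst).prodMk
        (hπ.comp (continuous_snd.comp continuous_fst))
    · exact (hF.comp continuous_fst).prodMk continuous_snd
    · exact (continuous_snd.comp continuous_fst).norm
    · exact continuous_const
    · rintro ⟨⟨x, v⟩, s⟩ hv
      have hv' : ‖v‖ = 1 := hv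
      have hC' : ι (x, π v) ∈ C := by
        rw [hιπ x v hv'.le]
        exact hC1 x v hv'.ge
      have := hGb (((x, π v)), (0 : Fin 0 → ℝ)) s (Or.inl (Or.inl hC'))
      show G' (((x, π v), 0), s) = (F (x, v), s)
      rw [this]
      show (F (ι (x, π v)), s) = (F (x, v), s)
      rw [hιπ x v hv'.le]
  · rintro ⟨⟨x, v⟩, s⟩
    by_cases hv : ‖v‖ ≤ 1
    · simp only [hv, if_true]
      exact hG0 _
    · simp only [hv, if_false]
      have : F (x, v) ≠ 0 := hF0 _ (hC1 x v (not_le.1 hv).le)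
      intro h0
      exact this (congrArg Prod.fst h0)
  · rintro ⟨x, v⟩ s hs
    by_cases hv : ‖v‖ ≤ 1
    · simp only [hv, if_true]
      have hb : (ι (x, π v) ∈ C) ∨ 1 ≤ ‖s‖ := by
        rcases hs with hs | hs
        · left
          rw [hιπ x v hv]
          exact hs
        · exact Or.inr hs
      have : G' (((x, π v), 0), s) = (F (ι (x, π v)), s) := by
        refine hGb (((x, π v)), (0 : Fin 0 → ℝ)) s ?_
        rcases hb with hb | hb
        · exact Or.inl (Or.inl hb)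
        · exact Or.inr hb
      rw [this, hιπ x v hv]
    · simp only [hv, if_false]

end SMD

end

/-! ### from `Lib_MP_33f7bb_an.ITERB` -/

section

/-! Piece ITERB: embedding. -/

open Set Filter Topology

namespace SMD

/-- PROOF. Take a finite `ε/4`-net `x_1, ..., x_M` and `f x l = (16 / ε) * dist x (x_l)`.  If
`|f x l - f x' l| ≤ 2` for all `l`, choose `l` with `dist x (x_l) < ε/4`; then
`dist x' (x_l) < ε/4 + ε/8`, so `dist x x' < ε`. -/
theorem exists_embedding {X : Type*} [MetricSpace X] [CompactSpace X] {ε : ℝ} (hε : 0 < ε) :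
    ∃ (M : ℕ) (f : X → (Fin M → ℝ)), Continuous f ∧ (∃ L : ℕ, ∀ x l, |f x l| ≤ L) ∧
      ∀ x x', (∀ l, |f x l - f x' l| ≤ 2) → dist x x' < ε := by
  obtain ⟨t, -, htf, ht⟩ := finite_cover_balls_of_compact (isCompact_univ : IsCompact (univ : Set X))
    (show 0 < ε / 4 by linarith)
  obtain ⟨M, y, hy⟩ : ∃ (M : ℕ) (y : Fin M → X), t = range y := by
    have := htf.fintype
    refine ⟨Fintype.card t, fun i => ((Fintype.equivFin t).symm i : X), ?_⟩
    ext z
    constructor
    · intro hz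
      exact ⟨Fintype.equivFin t ⟨z, hz⟩, by simp⟩
    · rintro ⟨i, rfl⟩
      exact ((Fintype.equivFin t).symm i).2
  have c0 : 0 < 16 / ε := by positivity
  refine ⟨M, fun x l => 16 / ε * dist x (y l), ?_, ?_, ?_⟩
  · exact continuous_pi fun l => continuous_const.mul (continuous_id.dist continuous_const)
  · refine ⟨⌈16 / ε * Metric.diam (univ : Set X)⌉₊, fun x l => ?_⟩
    rw [abs_of_nonneg (mul_nonneg c0.le dist_nonneg)]
    refine le_trans ?_ (Nat.le_ceil _)
    exact mul_le_mul_of_nonneg_left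
      (Metric.dist_le_diam_of_mem isCompact_univ.isBounded (mem_univ _) (mem_univ _)) c0.le
  · intro x x' h
    have hx := ht (mem_univ x)
    rw [mem_iUnion₂] at hx
    obtain ⟨z, hz, hxz⟩ := hx
    rw [hy] at hz
    obtain ⟨l, rfl⟩ := hz
    rw [Metric.mem_ball] at hxz
    have h1 := h l
    rw [← mul_sub, abs_mul, abs_of_pos c0] at h1
    have h2 : |dist x (y l) - dist x' (y l)| ≤ ε / 8 := by
      have h3 : ε / 16 * (16 / ε * |dist x (y l) - dist x' (y l)|) ≤ ε / 16 * 2 :=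
        mul_le_mul_of_nonneg_left h1 (by positivity)
      have h4 : ε / 16 * (16 / ε * |dist x (y l) - dist x' (y l)|) = |dist x (y l) - dist x' (y l)| := by
        field_simp
      rw [h4] at h3
      linarith
    rw [abs_le] at h2
    have h3 := dist_triangle_right x x' (y l)
    linarith

end SMD

end

/-! ### from `Lib_MP_33f7bb_an.MAIN` -/

section

/-! Main theorem. -/

open Set Filter Topology

namespace SMD

theorem mdim_le {X : Type*} [MetricSpace X] [CompactSpace X] {c : ℕ} (h : StableDimLE X c)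
    (G : Type*) [Group G] [MulAction G X] (S : SoficSeq G) : mdim X G S ≤ (c : EReal) := by
  have hPT : PT X c := PT_of_SI (SI_of_stableDim h)
  refine mdim_le_of_widim (fun ε hε => ?_) G S
  obtain ⟨M, f, hf, hL, hf'⟩ := exists_embedding (X := X) hε
  obtain ⟨k, hk⟩ := goodS_of_good hf (good_Sk hPT hf hL)
  refine ⟨M * (k + 1), fun n Z => ?_⟩
  exact widimLE_of_PM hε (PM_pow hε f hL hf' hk n) Z

theorem not_Q1 {X : Type} [MetricSpace X] [CompactSpace X] {c : ℕ} (h : StableDimLE X c)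
    (hX : ∀ n, ¬ CovDimLE X n) : ¬ Q1 := by
  intro hQ
  obtain ⟨S⟩ := exists_soficSeq_unit
  letI : MulAction Unit X :=
    { smul := fun _ x => x
      one_smul := fun _ => rfl
      mul_smul := fun _ _ _ => rfl }
  haveI : ContinuousConstSMul Unit X := ⟨fun _ => continuous_id⟩
  have h1 := hQ Unit X hX S
  have h2 := mdim_le h Unit S
  rw [h1] at h2
  exact absurd (top_le_iff.mp h2) (EReal.natCast_ne_top c)

end SMD

end

/-! ### from `Lib_MP_33f7bb_d.B1A` -/

section

/-!
# B1A: calculus of the extension property `ExtP`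

`ExtP.relIso`: relative isomorphisms (push forward); `ExtP.excise`: the same in one ambient complex;
`ExtP.zorn`: adding nondegenerate simplices one by one; `ext_of_compact`: compactness.
-/

namespace MM

/-- the subcomplex generated by one simplex -/
def Sub.gen1 {P : SS} {n : ℕ} (x : P.S n) : Sub P :=
  ⟨fun m => {y | ∃ f : Mo m n, y = P.act f x}, by
    rintro m k f y ⟨g, rfl⟩
    exact ⟨g.comp f, P.act_comp f g x⟩⟩

theorem Sub.mem_gen1 {P : SS} {n : ℕ} (x : P.S n) : x ∈ (Sub.gen1 x).car n :=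
  ⟨OrderHom.id, (P.act_id x).symm⟩

theorem Sub.gen1_le {P : SS} {n : ℕ} {x : P.S n} {A : Sub P} (h : x ∈ A.car n) :
    Sub.gen1 x ≤ A := by
  rintro m y ⟨f, rfl⟩
  exact A.closed f h

theorem NatOn.mono {P Y : SS} {A B : Sub P} (h : A ≤ B) {f : Fn P Y} (hf : NatOn B f) :
    NatOn A f := fun g x hx => hf g x (h _ hx)

theorem NatOn.congr {P Y : SS} {A : Sub P} {f g : Fn P Y} (hf : NatOn A f)
    (h : ∀ n, ∀ x ∈ A.car n, g n x = f n x) : NatOn A g := fun {m n} k x hx => by
  rw [h m _ (A.closed k hx), h n x hx, hf k x hx]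

theorem NatOn.comp {P P' Y : SS} {A : Sub P} {A' : Sub P'} {f : Fn P' Y} (hf : NatOn A' f)
    (φ : Hom P P') (h : ∀ n, ∀ x ∈ A.car n, φ.app n x ∈ A'.car n) :
    NatOn A (fun n x => f n (φ.app n x)) := fun {m n} k x hx => by
  show f m (φ.app m (P.act k x)) = _
  rw [φ.nat, hf k _ (h n x hx)]

theorem ExtP.refl (Y : SS) {P : SS} (A : Sub P) : ExtP Y A A :=
  fun f hf => ⟨f, hf, fun _ _ _ => rfl⟩

theorem ExtP.trans {Y P : SS} {A B C : Sub P} (hAB : A ≤ B) (h : ExtP Y A B)
    (h' : ExtP Y B C) : ExtP Y A C := fun f hf => by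
  obtain ⟨g, hg, hgf⟩ := h f hf
  obtain ⟨k, hk, hkg⟩ := h' g hg
  exact ⟨k, hk, fun n x hx => by rw [hkg n x (hAB n hx), hgf n x hx]⟩

/-- functions on two subcomplexes which agree on the intersection -/
theorem NatOn.glue {P Y : SS} {A B : Sub P} {f g : Fn P Y} (hf : NatOn A f) (hg : NatOn B g)
    (h : ∀ n, ∀ x ∈ A.car n, x ∈ B.car n → f n x = g n x) :
    ∃ k : Fn P Y, NatOn (A ⊔ B) k ∧ (∀ n, ∀ x ∈ A.car n, k n x = f n x) ∧
      ∀ n, ∀ x ∈ B.car n, k n x = g n x := by
  classical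
  have h1 : ∀ n, ∀ x ∈ A.car n, (if x ∈ A.car n then f n x else g n x) = f n x :=
    fun n x hx => if_pos hx
  have h2 : ∀ n, ∀ x ∈ B.car n, (if x ∈ A.car n then f n x else g n x) = g n x := by
    intro n x hx
    by_cases hA : x ∈ A.car n
    · rw [if_pos hA]; exact h n x hA hx
    · rw [if_neg hA]
  refine ⟨fun n x => if x ∈ A.car n then f n x else g n x, ?_, h1, h2⟩
  rintro m n k x (hx | hx)
  · exact (h1 m _ (A.closed k hx)).trans ((hf k x hx).trans (congrArg (Y.act k) (h1 n x hx).symm))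
  · exact (h2 m _ (B.closed k hx)).trans ((hg k x hx).trans (congrArg (Y.act k) (h2 n x hx).symm))

/-- extension along relative isomorphisms -/
theorem ExtP.relIso {Y P P' : SS} (φ : Hom P P') {A C : Sub P} {A' C' : Sub P'} (hA : A ≤ C)
    (hA' : A' ≤ C') (hmap : ∀ n, ∀ x ∈ C.car n, φ.app n x ∈ C'.car n)
    (hpre : ∀ n, ∀ x ∈ C.car n, (φ.app n x ∈ A'.car n ↔ x ∈ A.car n))
    (hinj : ∀ n, ∀ x ∈ C.car n, ∀ y ∈ C.car n, x ∉ A.car n → y ∉ A.car n →
      φ.app n x = φ.app n y → x = y)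
    (hsurj : ∀ n, ∀ y ∈ C'.car n, y ∉ A'.car n → ∃ x ∈ C.car n, φ.app n x = y)
    (h : ExtP Y A C) : ExtP Y A' C' := by
  classical
  intro f hf
  obtain ⟨g, hg, hgf⟩ := h (fun n x => f n (φ.app n x))
    (hf.comp φ fun n x hx => (hpre n x (hA n hx)).2 hx)
  let g' : Fn P' Y := fun n y =>
    if y ∈ A'.car n then f n y else
      if hy : ∃ x ∈ C.car n, φ.app n x = y then g n hy.choose else f n y
  have h1 : ∀ n, ∀ y ∈ A'.car n, g' n y = f n y := fun n y hy => if_pos hy
  have h2 : ∀ n, ∀ x ∈ C.car n, g' n (φ.app n x) = g n x := by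
    intro n x hx
    by_cases hA'x : φ.app n x ∈ A'.car n
    · rw [h1 n _ hA'x, hgf n x ((hpre n x hx).1 hA'x)]
    · have hy : ∃ x' ∈ C.car n, φ.app n x' = φ.app n x := ⟨x, hx, rfl⟩
      have e1 : g' n (φ.app n x) = g n hy.choose := by
        show (if _ then _ else _) = _
        rw [if_neg hA'x, dif_pos hy]
      have hc := hy.choose_spec
      have hxA : x ∉ A.car n := fun h => hA'x ((hpre n x hx).2 h)
      have hcA : hy.choose ∉ A.car n := fun h => hA'x (by
        have := (hpre n _ hc.1).2 h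
        rwa [hc.2] at this)
      rw [e1, hinj n _ hc.1 x hx hcA hxA hc.2]
  refine ⟨g', ?_, h1⟩
  intro m n k y hy
  by_cases hyA : y ∈ A'.car n
  · rw [h1 m _ (A'.closed k hyA), h1 n y hyA, hf k y hyA]
  · obtain ⟨x, hx, rfl⟩ := hsurj n y hy hyA
    rw [← φ.nat, h2 m _ (C.closed k hx), h2 n x hx, hg k x hx]

/-- excision -/
theorem ExtP.excise {Y P : SS} {A C A' C' : Sub P} (hA : A ≤ C) (hA' : A' ≤ C')
    (hC : C ≤ C') (hpre : ∀ n, ∀ x ∈ C.car n, (x ∈ A'.car n ↔ x ∈ A.car n))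
    (hsurj : ∀ n, ∀ y ∈ C'.car n, y ∉ A'.car n → y ∈ C.car n)
    (h : ExtP Y A C) : ExtP Y A' C' :=
  ExtP.relIso (Hom.id P) hA hA' (fun n _ hx => hC n hx) hpre (fun _ _ _ _ _ _ _ h => h)
    (fun n y hy hy' => ⟨y, hsurj n y hy hy', rfl⟩) h

/-- isomorphic pairs -/
theorem ExtP.iso_iff {Y P P' : SS} (hY : Nonempty (Y.S 0)) (φ : Hom P P') {A C : Sub P}
    {A' C' : Sub P'} (hA : A ≤ C)
    (hA' : A' ≤ C') (hmap : ∀ n, ∀ x ∈ C.car n, φ.app n x ∈ C'.car n)
    (hpre : ∀ n, ∀ x ∈ C.car n, (φ.app n x ∈ A'.car n ↔ x ∈ A.car n))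
    (hinj : ∀ n, ∀ x ∈ C.car n, ∀ y ∈ C.car n, φ.app n x = φ.app n y → x = y)
    (hsurj : ∀ n, ∀ y ∈ C'.car n, ∃ x ∈ C.car n, φ.app n x = y) :
    ExtP Y A C ↔ ExtP Y A' C' := by
  classical
  constructor
  · exact ExtP.relIso φ hA hA' hmap hpre (fun n x hx y hy _ _ => hinj n x hx y hy)
      (fun n y hy _ => hsurj n y hy)
  · intro h f hf
    obtain ⟨y₀⟩ := hY
    let f' : Fn P' Y := fun n y =>
      if hy : ∃ x ∈ C.car n, φ.app n x = y then f n hy.choose else Y.deg y₀ n
    have h1 : ∀ n, ∀ x ∈ C.car n, f' n (φ.app n x) = f n x := by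
      intro n x hx
      have hy : ∃ x' ∈ C.car n, φ.app n x' = φ.app n x := ⟨x, hx, rfl⟩
      have e1 : f' n (φ.app n x) = f n hy.choose := dif_pos hy
      rw [e1, hinj n _ hy.choose_spec.1 x hx hy.choose_spec.2]
    have h2 : NatOn A' f' := by
      intro m n k y hy
      obtain ⟨x, hx, rfl⟩ := hsurj n y (hA' n hy)
      have hxA : x ∈ A.car n := (hpre n x hx).1 hy
      rw [← φ.nat, h1 m _ (C.closed k hx), h1 n x hx, hf k x hxA]
    obtain ⟨g, hg, hgf⟩ := h f' h2
    refine ⟨fun n x => g n (φ.app n x), hg.comp φ hmap, fun n x hx => ?_⟩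
    show g n (φ.app n x) = f n x
    rw [hgf n _ ((hpre n x (hA n hx)).2 hx), h1 n x (hA n hx)]

/-- the union of a set of subcomplexes -/
def Sub.sUn {P : SS} (c : Set (Sub P)) : Sub P :=
  ⟨fun n => {x | ∃ L ∈ c, x ∈ L.car n}, by
    rintro m n f x ⟨L, hL, hx⟩
    exact ⟨L, hL, L.closed f hx⟩⟩

/-- extension by adding the nondegenerate simplices of `K` one by one -/
theorem ExtP.zorn {Y P Q : SS} (K' K : Sub Q) (hK : K' ≤ K) (Φ : Sub Q → Sub P)
    (hmono : ∀ L L', L ≤ L' → Φ L ≤ Φ L')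
    (hcont : ∀ c : Set (Sub Q), c.Nonempty → (∀ L ∈ c, K' ≤ L ∧ L ≤ K) →
      ∀ n, ∀ x ∈ (Φ (Sub.sUn c)).car n, ∃ L ∈ c, x ∈ (Φ L).car n)
    (hstep : ∀ L : Sub Q, K' ≤ L → L ≤ K → ∀ (n : ℕ) (x : Q.S n), x ∈ K.car n → x ∉ L.car n →
      NonDeg x → (∀ (m : ℕ) (f : Mo m n), ¬ Function.Surjective f → Q.act f x ∈ L.car m) →
      ExtP Y (Φ L) (Φ (L ⊔ Sub.gen1 x))) :
    ExtP Y (Φ K') (Φ K) := by
  classical
  intro f hf
  let T := {p : Sub Q × Fn P Y // K' ≤ p.1 ∧ p.1 ≤ K ∧ NatOn (Φ p.1) p.2 ∧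
    ∀ n, ∀ x ∈ (Φ K').car n, p.2 n x = f n x}
  let r : T → T → Prop := fun a b => a.1.1 ≤ b.1.1 ∧
    ∀ n, ∀ x ∈ (Φ a.1.1).car n, b.1.2 n x = a.1.2 n x
  have htrans : ∀ {a b c : T}, r a b → r b c → r a c := by
    rintro a b c ⟨h1, h2⟩ ⟨h3, h4⟩
    exact ⟨h1.trans h3, fun n x hx => by rw [h4 n x (hmono _ _ h1 n hx), h2 n x hx]⟩
  have hrefl : ∀ a : T, r a a := fun a => ⟨le_rfl, fun _ _ _ => rfl⟩
  have hchain : ∀ c : Set T, IsChain r c → ∃ ub, ∀ a ∈ c, r a ub := by
    intro c hc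
    rcases c.eq_empty_or_nonempty with rfl | hne
    · exact ⟨⟨(K', f), le_rfl, hK, hf, fun _ _ _ => rfl⟩, fun a ha => ha.elim⟩
    · -- the union of the chain
      have hcomp : ∀ a ∈ c, ∀ b ∈ c, ∀ n, ∀ x ∈ (Φ a.1.1).car n, x ∈ (Φ b.1.1).car n →
          a.1.2 n x = b.1.2 n x := by
        intro a ha b hb n x hxa hxb
        by_cases hab : a = b
        · rw [hab]
        rcases hc ha hb hab with h | h
        · exact (h.2 n x hxa).symm
        · exact h.2 n x hxb
      let c' : Set (Sub Q) := (fun a : T => a.1.1) '' c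
      let U : Sub Q := Sub.sUn c'
      let g : Fn P Y := fun n x => if hx : ∃ a ∈ c, x ∈ (Φ a.1.1).car n then
        hx.choose.1.2 n x else f n x
      have hle : ∀ a ∈ c, a.1.1 ≤ U := fun a ha n x hx => ⟨a.1.1, ⟨a, ha, rfl⟩, hx⟩
      have hg : ∀ a ∈ c, ∀ n, ∀ x ∈ (Φ a.1.1).car n, g n x = a.1.2 n x := by
        intro a ha n x hx
        have hx' : ∃ a ∈ c, x ∈ (Φ a.1.1).car n := ⟨a, ha, hx⟩
        have e1 : g n x = hx'.choose.1.2 n x := dif_pos hx'
        rw [e1]
        exact hcomp _ hx'.choose_spec.1 a ha n x hx'.choose_spec.2 hx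
      have hcov : ∀ n, ∀ x ∈ (Φ U).car n, ∃ a ∈ c, x ∈ (Φ a.1.1).car n := by
        intro n x hx
        obtain ⟨L, ⟨a, ha, rfl⟩, hL⟩ := hcont c' (hne.image _) (by
          rintro L ⟨a, ha, rfl⟩
          exact ⟨a.2.1, a.2.2.1⟩) n x hx
        exact ⟨a, ha, hL⟩
      obtain ⟨a₀, ha₀⟩ := hne
      refine ⟨⟨(U, g), a₀.2.1.trans (hle a₀ ha₀), ?_, ?_, ?_⟩, fun a ha => ⟨hle a ha, ?_⟩⟩
      · rintro n x ⟨L, ⟨a, ha, rfl⟩, hL⟩
        exact a.2.2.1 n hL
      · intro m n k x hx
        obtain ⟨a, ha, hxa⟩ := hcov n x hx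
        show g m _ = _
        rw [hg a ha m _ ((Φ a.1.1).closed k hxa), a.2.2.2.1 k x hxa]
        show _ = Y.act k (g n x)
        rw [hg a ha n x hxa]
      · intro n x hx
        show g n x = f n x
        rw [hg a₀ ha₀ n x (hmono _ _ a₀.2.1 n hx), a₀.2.2.2.2 n x hx]
      · intro n x hx
        exact hg a ha n x hx
  obtain ⟨m, hm⟩ := exists_maximal_of_chains_bounded hchain htrans
  by_cases hKm : K ≤ m.1.1
  · have hEq : m.1.1 = K := le_antisymm m.2.2.1 hKm
    refine ⟨m.1.2, ?_, m.2.2.2.2⟩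
    have h3 : NatOn (Φ m.1.1) m.1.2 := m.2.2.2.1
    rwa [hEq] at h3
  · exfalso
    obtain ⟨n, x, hxK, hxL, hnd, hface⟩ := exists_next m.2.2.1 hKm
    obtain ⟨g, hg, hgf⟩ := hstep m.1.1 m.2.1 m.2.2.1 n x hxK hxL hnd hface m.1.2 m.2.2.2.1
    have hL' : m.1.1 ⊔ Sub.gen1 x ≤ K := Sub.sup_le' m.2.2.1 (Sub.gen1_le hxK)
    let m' : T := ⟨(m.1.1 ⊔ Sub.gen1 x, g), m.2.1.trans (Sub.le_sup_left' _ _), hL', hg,
      fun n x hx => (hgf n x (hmono _ _ m.2.1 n hx)).trans (m.2.2.2.2 n x hx)⟩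
    have h1 : r m m' := ⟨Sub.le_sup_left' _ _, hgf⟩
    have h2 := hm m' h1
    exact hxL (h2.1 n (Or.inr (Sub.mem_gen1 x)))

/-- compactness: extensions over a directed union -/
theorem ext_of_compact {Y : SS} [∀ n, TopologicalSpace (Y.S n)] (hY : IsTarget Y) {P : SS}
    {ι : Type} [Nonempty ι] (A C : ι → Sub P)
    (hdir : ∀ i j, ∃ k, A i ≤ A k ∧ A j ≤ A k ∧ C i ≤ C k ∧ C j ≤ C k) (f : Fn P Y)
    (h : ∀ i, ∃ g : Fn P Y, NatOn (C i) g ∧ ∀ n, ∀ x ∈ (A i).car n, g n x = f n x) :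
    ∃ g : Fn P Y, NatOn (Sub.iUn C) g ∧ ∀ n, ∀ x ∈ (Sub.iUn A).car n, g n x = f n x := by
  classical
  have := hY.compact
  have := hY.t2
  let V : ι → Set (Fn P Y) := fun i => {g | (∀ (m n : ℕ) (k : Mo m n) (x : P.S n),
    x ∈ (C i).car n → g m (P.act k x) = Y.act k (g n x)) ∧ ∀ n, ∀ x ∈ (A i).car n, g n x = f n x}
  have hev : ∀ n (x : P.S n), Continuous fun g : Fn P Y => g n x := fun n x =>
    (continuous_apply x).comp (continuous_apply n)
  have hclosed : ∀ i, IsClosed (V i) := by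
    intro i
    have : V i = (⋂ (m : ℕ) (n : ℕ) (k : Mo m n) (x : P.S n) (_ : x ∈ (C i).car n),
        {g : Fn P Y | g m (P.act k x) = Y.act k (g n x)}) ∩
        ⋂ (n : ℕ) (x : P.S n) (_ : x ∈ (A i).car n), {g : Fn P Y | g n x = f n x} := by
      ext g
      simp only [V, Set.mem_ofPred_eq, Set.mem_inter_iff, Set.mem_iInter]
    rw [this]
    refine IsClosed.inter ?_ ?_
    · refine isClosed_iInter fun m => isClosed_iInter fun n => isClosed_iInter fun k =>
        isClosed_iInter fun x => isClosed_iInter fun _ => ?_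
      exact isClosed_eq (hev m _) ((hY.cont k).comp (hev n x))
    · refine isClosed_iInter fun n => isClosed_iInter fun x => isClosed_iInter fun _ => ?_
      exact isClosed_eq (hev n x) continuous_const
  have hdirV : Directed (· ⊇ ·) V := by
    intro i j
    obtain ⟨k, h1, h2, h3, h4⟩ := hdir i j
    exact ⟨k, fun g hg => ⟨fun m n q x hx => hg.1 m n q x (h3 n hx), fun n x hx => hg.2 n x (h1 n hx)⟩,
      fun g hg => ⟨fun m n q x hx => hg.1 m n q x (h4 n hx), fun n x hx => hg.2 n x (h2 n hx)⟩⟩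
  have hne : ∀ i, (V i).Nonempty := by
    intro i
    obtain ⟨g, hg, hgf⟩ := h i
    exact ⟨g, fun m n k x hx => hg k x hx, hgf⟩
  obtain ⟨g, hg⟩ := IsCompact.nonempty_iInter_of_directed_nonempty_isCompact_isClosed V hdirV hne
    (fun i => (hclosed i).isCompact) hclosed
  rw [Set.mem_iInter] at hg
  refine ⟨g, ?_, ?_⟩
  · intro m n k x hx
    obtain ⟨i, hi⟩ := Set.mem_iUnion.1 hx
    exact (hg i).1 m n k x hi
  · intro n x hx
    obtain ⟨i, hi⟩ := Set.mem_iUnion.1 hx
    exact (hg i).2 n x hi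

/-- extension property and directed unions -/
theorem ExtP.iUn {Y : SS} [∀ n, TopologicalSpace (Y.S n)] (hY : IsTarget Y) {P : SS}
    {ι : Type} [Nonempty ι] (A C : ι → Sub P)
    (hdir : ∀ i j, ∃ k, A i ≤ A k ∧ A j ≤ A k ∧ C i ≤ C k ∧ C j ≤ C k)
    (h : ∀ i, ExtP Y (A i) (C i)) : ExtP Y (Sub.iUn A) (Sub.iUn C) := fun f hf =>
  ext_of_compact hY A C hdir f fun i => h i f (hf.mono fun _ _ hx => Set.mem_iUnion.2 ⟨i, hx⟩)

end MM

end

/-! ### from `Lib_MP_33f7bb_d.B3Def` -/

section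

/-!
# B3Def: labels (definitions, complete)

`lab A K C` for subcomplexes `K ≤ C` of `U`: finitely supported functions `U_n → A` supported in
`C_n \ K_n`; structure maps: push forward, then drop the part in `K`.

REMARK.  All decidability instances in this file are classical (`open Classical`).  In files which use it, prefer the
pointwise lemmas (`labAct_of_mem`, `labAct_of_notMem`, `labProj_of_mem`, ...), or write `open Classical` after
`namespace MM`.
-/

namespace MM

open Classical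

/-- finitely supported functions with support in `C_n \ K_n` -/
def labM (A : Type) [AddCommMonoid A] {U : SS} (K C : Sub U) (n : ℕ) :
    AddSubmonoid (U.S n →₀ A) where
  carrier := {a | ∀ x, a x ≠ 0 → x ∈ C.car n ∧ x ∉ K.car n}
  zero_mem' := fun x hx => absurd rfl hx
  add_mem' := by
    intro a b ha hb x hx
    by_cases h : a x = 0
    · refine hb x fun h' => hx ?_
      show a x + b x = 0
      rw [h, h', add_zero]
    · exact ha x h

theorem mem_labM {A : Type} [AddCommMonoid A] {U : SS} {K C : Sub U} {n : ℕ} {a : U.S n →₀ A} :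
    a ∈ labM A K C n ↔ ∀ x, a x ≠ 0 → x ∈ C.car n ∧ x ∉ K.car n := Iff.rfl

/-- push forward and drop the part in `K` -/
noncomputable def labAct (A : Type) [AddCommMonoid A] {U : SS} (K : Sub U) {m n : ℕ}
    (f : Mo m n) : (U.S n →₀ A) →+ (U.S m →₀ A) :=
  (Finsupp.filterAddHom (fun x => x ∉ K.car m)).comp (Finsupp.mapDomain.addMonoidHom (U.act f))

theorem labAct_def {A : Type} [AddCommMonoid A] {U : SS} (K : Sub U) {m n : ℕ}
    (f : Mo m n) (a : U.S n →₀ A) :
    labAct A K f a = (a.mapDomain (U.act f)).filter (fun x => x ∉ K.car m) := rfl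

theorem labAct_of_mem {A : Type} [AddCommMonoid A] {U : SS} (K : Sub U) {m n : ℕ}
    (f : Mo m n) (a : U.S n →₀ A) {y : U.S m} (hy : y ∈ K.car m) : labAct A K f a y = 0 := by
  rw [labAct_def, Finsupp.filter_apply, if_neg (not_not.2 hy)]

theorem labAct_of_notMem {A : Type} [AddCommMonoid A] {U : SS} (K : Sub U) {m n : ℕ}
    (f : Mo m n) (a : U.S n →₀ A) {y : U.S m} (hy : y ∉ K.car m) :
    labAct A K f a y = (a.mapDomain (U.act f)) y := by
  rw [labAct_def, Finsupp.filter_apply, if_pos hy]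

/-- the part in `K` is sent to `K` -/
theorem labAct_filter {A : Type} [AddCommMonoid A] {U : SS} (K : Sub U) {m n : ℕ}
    (f : Mo m n) (a : U.S n →₀ A) :
    labAct A K f (a.filter (fun x => x ∉ K.car n)) = labAct A K f a := by
  conv_rhs => rw [← Finsupp.filter_add_filter_not a (fun x => x ∉ K.car n), map_add]
  have : labAct A K f (a.filter (fun x => ¬ x ∉ K.car n)) = 0 := by
    rw [labAct_def, Finsupp.filter_eq_zero_iff]
    intro y hy
    by_contra h
    have h' := Finsupp.mapDomain_support (Finsupp.mem_support_iff.2 h)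
    obtain ⟨x, hx, rfl⟩ := Finset.mem_image.1 h'
    rw [Finsupp.support_filter, Finset.mem_filter] at hx
    exact hy (K.closed f (not_not.1 hx.2))
  rw [this, add_zero]

theorem labAct_comp {A : Type} [AddCommMonoid A] {U : SS} (K : Sub U) {l m n : ℕ}
    (f : Mo l m) (g : Mo m n) (a : U.S n →₀ A) :
    labAct A K f (labAct A K g a) = labAct A K (g.comp f) a := by
  rw [labAct_def K g, labAct_filter, labAct_def, labAct_def, ← Finsupp.mapDomain_comp]
  congr 2
  funext x
  exact U.act_comp f g x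

theorem labAct_id {A : Type} [AddCommMonoid A] {U : SS} (K : Sub U) {n : ℕ}
    (a : U.S n →₀ A) (h : ∀ x, a x ≠ 0 → x ∉ K.car n) :
    labAct A K (OrderHom.id : Mo n n) a = a := by
  have : U.act (OrderHom.id : Mo n n) = _root_.id := funext fun x => U.act_id x
  rw [labAct_def, this, Finsupp.mapDomain_id, Finsupp.filter_eq_self_iff]
  exact h

theorem labAct_mem {A : Type} [AddCommMonoid A] {U : SS} {K C : Sub U} {m n : ℕ}
    (f : Mo m n) {a : U.S n →₀ A} (ha : a ∈ labM A K C n) : labAct A K f a ∈ labM A K C m := by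
  intro y hy
  have h1 : y ∉ K.car m := fun h => hy (labAct_of_mem K f a h)
  rw [labAct_of_notMem K f a h1] at hy
  have h' := Finsupp.mapDomain_support (Finsupp.mem_support_iff.2 hy)
  obtain ⟨x, hx, rfl⟩ := Finset.mem_image.1 h'
  exact ⟨C.closed f (ha x (Finsupp.mem_support_iff.1 hx)).1, h1⟩

/-- labels as a simplicial set (simplicial abelian monoid) -/
noncomputable abbrev lab (A : Type) [AddCommMonoid A] {U : SS} (K C : Sub U) : SS where
  S n := ↥(labM A K C n)
  act f a := ⟨labAct A K f a.1, labAct_mem f a.2⟩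
  act_id a := Subtype.ext (labAct_id K a.1 fun x hx => (a.2 x hx).2)
  act_comp f g a := Subtype.ext (labAct_comp K f g a.1)

theorem lab_act_add {A : Type} [AddCommMonoid A] {U : SS} {K C : Sub U} {m n : ℕ} (f : Mo m n)
    (a b : (lab A K C).S n) :
    (lab A K C).act f (a + b) = (lab A K C).act f a + (lab A K C).act f b :=
  Subtype.ext (map_add (labAct A K f) a.1 b.1)

theorem lab_act_zero {A : Type} [AddCommMonoid A] {U : SS} {K C : Sub U} {m n : ℕ} (f : Mo m n) :
    (lab A K C).act f 0 = 0 := Subtype.ext (map_zero (labAct A K f))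

/-- restriction `lab K C → lab K' C` (drop the part in `K'`), for `K ≤ K'` -/
noncomputable def labProj (A : Type) [AddCommMonoid A] {U : SS} {K K' : Sub U} (C : Sub U)
    (hK : K ≤ K') : Hom (lab A K C) (lab A K' C) where
  app n a := ⟨a.1.filter (fun x => x ∉ K'.car n), by
    intro x hx
    rw [Finsupp.filter_apply] at hx
    by_cases h : x ∈ K'.car n
    · rw [if_neg (not_not.2 h)] at hx
      exact absurd rfl hx
    · rw [if_pos h] at hx
      exact ⟨(a.2 x hx).1, h⟩⟩
  nat {m n} f a := by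
    apply Subtype.ext
    show Finsupp.filter _ (labAct A K f a.1) = labAct A K' f (Finsupp.filter _ a.1)
    rw [labAct_filter]
    ext y
    rw [Finsupp.filter_apply]
    by_cases h : y ∈ K'.car m
    · rw [if_neg (not_not.2 h), labAct_of_mem K' f _ h]
    · rw [if_pos h, labAct_of_notMem K' f _ h, labAct_of_notMem K f _ fun h' => h (hK _ h')]

theorem labProj_of_mem (A : Type) [AddCommMonoid A] {U : SS} {K K' : Sub U} (C : Sub U)
    (hK : K ≤ K') {n : ℕ} (a : (lab A K C).S n) {x : U.S n} (hx : x ∈ K'.car n) :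
    ((labProj A C hK).app n a).1 x = 0 := by
  show Finsupp.filter _ a.1 x = 0
  rw [Finsupp.filter_apply, if_neg (not_not.2 hx)]

theorem labProj_of_notMem (A : Type) [AddCommMonoid A] {U : SS} {K K' : Sub U} (C : Sub U)
    (hK : K ≤ K') {n : ℕ} (a : (lab A K C).S n) {x : U.S n} (hx : x ∉ K'.car n) :
    ((labProj A C hK).app n a).1 x = a.1 x := by
  show Finsupp.filter _ a.1 x = a.1 x
  rw [Finsupp.filter_apply, if_pos hx]

/-- coefficients: every element of `M` is uniquely `ι n + s (q x)` -/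
structure Coef (N M D : Type) [AddCommMonoid N] [AddCommMonoid M] [AddCommGroup D] where
  ι : N →+ M
  q : M →+ D
  s : D → M
  s0 : s 0 = 0
  qs : ∀ d, q (s d) = d
  qι : ∀ n, q (ι n) = 0
  dec : ∀ x, ∃ n, x = ι n + s (q x)
  inj : ∀ n n' d, ι n + s d = ι n' + s d → n = n'

/-- labels in `M` which are integral (in the image of `N`) outside `K'` -/
def TLM {N M D : Type} [AddCommMonoid N] [AddCommMonoid M] [AddCommGroup D] (c : Coef N M D)
    {U : SS} (K K' C : Sub U) (n : ℕ) : AddSubmonoid (U.S n →₀ M) where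
  carrier := {a | a ∈ labM M K C n ∧ ∀ x, x ∉ K'.car n → ∃ k, c.ι k = a x}
  zero_mem' := ⟨zero_mem _, fun x _ => ⟨0, map_zero _⟩⟩
  add_mem' := by
    rintro a b ⟨ha, ha'⟩ ⟨hb, hb'⟩
    refine ⟨add_mem ha hb, fun x hx => ?_⟩
    obtain ⟨k, hk⟩ := ha' x hx
    obtain ⟨l, hl⟩ := hb' x hx
    exact ⟨k + l, by rw [map_add, hk, hl]; rfl⟩

theorem TLM_act {N M D : Type} [AddCommMonoid N] [AddCommMonoid M] [AddCommGroup D]
    (c : Coef N M D) {U : SS} {K K' C : Sub U} {m n : ℕ} (f : Mo m n) {a : U.S n →₀ M}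
    (ha : a ∈ TLM c K K' C n) : labAct M K f a ∈ TLM c K K' C m := by
  refine ⟨labAct_mem f ha.1, fun y hy => ?_⟩
  by_cases h1 : y ∉ K.car m
  · rw [labAct_of_notMem K f a h1]
    have key : ∀ (b : U.S n →₀ M), (∀ x, U.act f x = y → ∃ k, c.ι k = b x) →
        ∃ k, c.ι k = (b.mapDomain (U.act f)) y := by
      intro b hb
      rw [Finsupp.mapDomain, Finsupp.sum_apply]
      have : ∀ s : Finset (U.S n), ∃ k, c.ι k = ∑ x ∈ s, (Finsupp.single (U.act f x) (b x)) y := by
        intro s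
        induction s using Finset.induction_on with
        | empty => exact ⟨0, by simp⟩
        | insert x s hx ih =>
          obtain ⟨k, hk⟩ := ih
          rw [Finset.sum_insert hx]
          by_cases h : U.act f x = y
          · obtain ⟨l, hl⟩ := hb x h
            refine ⟨l + k, ?_⟩
            rw [map_add, hk, h, Finsupp.single_eq_same, hl]
          · refine ⟨k, ?_⟩
            rw [Finsupp.single_apply, if_neg h, zero_add, hk]
      exact this b.support
    exact key a fun x hx => ha.2 x fun h => hy (hx ▸ K'.closed f h)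
  · exact ⟨0, by rw [labAct_of_mem K f a (not_not.1 h1), map_zero]⟩

/-- the simplicial set of partially integral labels -/
noncomputable abbrev TL {N M D : Type} [AddCommMonoid N] [AddCommMonoid M] [AddCommGroup D]
    (c : Coef N M D) {U : SS} (K K' C : Sub U) : SS where
  S n := ↥(TLM c K K' C n)
  act f a := ⟨labAct M K f a.1, TLM_act c f a.2⟩
  act_id a := Subtype.ext (labAct_id K a.1 fun x hx => (a.2.1 x hx).2)
  act_comp f g a := Subtype.ext (labAct_comp K f g a.1)

/-- change of coefficients commutes with the structure maps -/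
theorem labAct_mapRange {A B : Type} [AddCommMonoid A] [AddCommMonoid B] (φ : A →+ B) {U : SS}
    (K : Sub U) {m n : ℕ} (f : Mo m n) (a : U.S n →₀ A) :
    labAct B K f (a.mapRange φ (map_zero φ)) = (labAct A K f a).mapRange φ (map_zero φ) := by
  ext y
  rw [Finsupp.mapRange_apply]
  by_cases h : y ∈ K.car m
  · rw [labAct_of_mem K f _ h, labAct_of_mem K f _ h, map_zero]
  · rw [labAct_of_notMem K f _ h, labAct_of_notMem K f _ h,
      Finsupp.mapDomain_mapRange _ _ _ _ (map_add φ), Finsupp.mapRange_apply]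

/-- push forward of labels along maps parametrised by the simplices of `P`:
`(s, a) ↦` push forward of `a` along `H (s, ·)`, then drop the part in `K'` -/
noncomputable def labP (A : Type) [AddCommMonoid A] {P U U' : SS} (H : Hom (P.prod U) U')
    {K C : Sub U} {K' C' : Sub U'} (hC : ∀ n s, ∀ x ∈ C.car n, H.app n (s, x) ∈ C'.car n)
    (hK : ∀ n s, ∀ x ∈ K.car n, H.app n (s, x) ∈ K'.car n) :
    Hom (P.prod (lab A K C)) (lab A K' C') where
  app n p := ⟨(p.2.1.mapDomain (fun x => H.app n (p.1, x))).filter (fun x => x ∉ K'.car n), by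
    intro y hy
    rw [Finsupp.filter_apply] at hy
    by_cases h : y ∈ K'.car n
    · rw [if_neg (not_not.2 h)] at hy
      exact absurd rfl hy
    · rw [if_pos h] at hy
      have h' := Finsupp.mapDomain_support (Finsupp.mem_support_iff.2 hy)
      obtain ⟨x, hx, rfl⟩ := Finset.mem_image.1 h'
      exact ⟨hC n p.1 x (p.2.2 x (Finsupp.mem_support_iff.1 hx)).1, h⟩⟩
  nat {m n} f p := by
    obtain ⟨s, a⟩ := p
    apply Subtype.ext
    show Finsupp.filter _ (Finsupp.mapDomain (fun x => H.app m (P.act f s, x)) (labAct A K f a.1)) =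
      labAct A K' f (Finsupp.filter _ (Finsupp.mapDomain (fun x => H.app n (s, x)) a.1))
    rw [labAct_filter, labAct_def, labAct_def]
    have key : ∀ b : U.S m →₀ A,
        Finsupp.filter (fun x => x ∉ K'.car m) (Finsupp.mapDomain (fun x => H.app m (P.act f s, x))
          (b.filter (fun x => x ∉ K.car m))) =
        Finsupp.filter (fun x => x ∉ K'.car m)
          (Finsupp.mapDomain (fun x => H.app m (P.act f s, x)) b) := by
      intro b
      conv_rhs => rw [← Finsupp.filter_add_filter_not b (fun x => x ∉ K.car m),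
        Finsupp.mapDomain_add, Finsupp.filter_add]
      have : Finsupp.filter (fun x => x ∉ K'.car m) (Finsupp.mapDomain
          (fun x => H.app m (P.act f s, x)) (b.filter (fun x => ¬ x ∉ K.car m))) = 0 := by
        rw [Finsupp.filter_eq_zero_iff]
        intro y hy
        by_contra h
        have h' := Finsupp.mapDomain_support (Finsupp.mem_support_iff.2 h)
        obtain ⟨x, hx, rfl⟩ := Finset.mem_image.1 h'
        rw [Finsupp.support_filter, Finset.mem_filter] at hx
        exact hy (hK _ _ _ (not_not.1 hx.2))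
      rw [this, add_zero]
    rw [key, ← Finsupp.mapDomain_comp, ← Finsupp.mapDomain_comp]
    congr 2
    funext x
    exact H.nat f (s, x)

/-- functoriality -/
noncomputable def labF (A : Type) [AddCommMonoid A] {U U' : SS} (φ : Hom U U')
    {K C : Sub U} {K' C' : Sub U'} (hC : ∀ n, ∀ x ∈ C.car n, φ.app n x ∈ C'.car n)
    (hK : ∀ n, ∀ x ∈ K.car n, φ.app n x ∈ K'.car n) : Hom (lab A K C) (lab A K' C') :=
  (labP A (P := PT) (φ.comp (Hom.snd PT U)) (fun n _ x hx => hC n x hx)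
    (fun n _ x hx => hK n x hx)).comp (Hom.pair ⟨fun _ _ => (), fun _ _ => rfl⟩ (Hom.id _))

theorem labF_apply (A : Type) [AddCommMonoid A] {U U' : SS} (φ : Hom U U')
    {K C : Sub U} {K' C' : Sub U'} (hC : ∀ n, ∀ x ∈ C.car n, φ.app n x ∈ C'.car n)
    (hK : ∀ n, ∀ x ∈ K.car n, φ.app n x ∈ K'.car n) (n : ℕ) (a : (lab A K C).S n) :
    ((labF A φ hC hK).app n a).1 = (a.1.mapDomain (φ.app n)).filter (fun x => x ∉ K'.car n) := rfl

theorem labP_apply (A : Type) [AddCommMonoid A] {P U U' : SS} (H : Hom (P.prod U) U')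
    {K C : Sub U} {K' C' : Sub U'} (hC : ∀ n s, ∀ x ∈ C.car n, H.app n (s, x) ∈ C'.car n)
    (hK : ∀ n s, ∀ x ∈ K.car n, H.app n (s, x) ∈ K'.car n) (n : ℕ) (s : P.S n)
    (a : (lab A K C).S n) :
    ((labP A H hC hK).app n (s, a)).1 =
      (a.1.mapDomain (fun x => H.app n (s, x))).filter (fun x => x ∉ K'.car n) := rfl

/-- `U × I` for a set `I` -/
abbrev DI (U : SS) (I : Type) : SS where
  S n := U.S n × I
  act f x := (U.act f x.1, x.2)
  act_id x := by simp [U.act_id]
  act_comp f g x := by simp [U.act_comp]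

/-- `K × I` -/
def Sub.di {U : SS} (K : Sub U) (I : Type) : Sub (DI U I) :=
  ⟨fun n => {x | x.1 ∈ K.car n}, fun f _ h => K.closed f h⟩

/-- the `n`-skeleton -/
def SS.sk (W : SS) (n : ℕ) : Sub W :=
  ⟨fun m => {x | ∃ (k : ℕ) (f : Mo m k) (y : W.S k), k ≤ n ∧ x = W.act f y}, by
    rintro m m' g x ⟨k, f, y, hk, rfl⟩
    exact ⟨k, f.comp g, y, hk, W.act_comp g f y⟩⟩

/-- relative isomorphisms -/
structure RelIso {P P' : SS} (φ : Hom P P') (A C : Sub P) (A' C' : Sub P') : Prop where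
  le : A ≤ C
  le' : A' ≤ C'
  map : ∀ n, ∀ x ∈ C.car n, φ.app n x ∈ C'.car n
  pre : ∀ n, ∀ x ∈ C.car n, (φ.app n x ∈ A'.car n ↔ x ∈ A.car n)
  inj : ∀ n, ∀ x ∈ C.car n, ∀ y ∈ C.car n, x ∉ A.car n → y ∉ A.car n →
    φ.app n x = φ.app n y → x = y
  surj : ∀ n, ∀ y ∈ C'.car n, y ∉ A'.car n → ∃ x ∈ C.car n, φ.app n x = y

end MM

end

/-! ### from `Lib_MP_33f7bb_d.B310` -/

section

/-!
# B3-10: the coefficient system `(I →₀ ℕ, I →₀ N2, I →₀ D2)`

`N2 := {x : ℚ // 0 ≤ x ∧ ∃ k n : ℕ, x * 2 ^ k = n}` (an `AddSubmonoid` of `ℚ`), doubling is bijective on it.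
`D2 := {x : AddCircle (1 : ℚ) // ∃ k : ℕ, (2 ^ k) • x = 0}` (an `AddSubgroup`; or use `ℚ ⧸ zmultiples 1`).
`ι n = n`, `q x = (x : AddCircle 1)`, `s d =` the representative in `[0, 1)` (`AddCircle.equivIco 1 0` or
`Int.fract`): if `2^k • d = 0` then `2^k * s d` is an integer `≥ 0`.  `dec`: `x = ⌊x⌋₊ + fract x`; `inj`: cancel.
Finite subsets of `D2` are in `{x | 2^k • x = 0}` for some `k`, which is a finite subgroup (multiples of
`1/2^k`: the representative `r ∈ [0,1)` satisfies `2^k r ∈ {0, .., 2^k - 1}`; or Mathlib `AddCircle` torsion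
finiteness).

For `I`: take everything pointwise: `M = I →₀ N2`, `D = I →₀ D2`, `ι = Finsupp.mapRange.addMonoidHom`, `q`
likewise, `s = Finsupp.mapRange s s0`; `dec`: choose pointwise (zero outside the support of `x`, by `inj`); doubling:
pointwise.  Locally finite: a finite set `t` of elements of `I →₀ D2` has finite total support `J` and finitely
many values, contained in a finite subgroup `B`; `{a | support ⊆ J, values in B}` is a finite subgroup (it
injects into `J → B`).
-/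

namespace MM

private def B310_q : NNRat →+ AddCircle (1 : ℚ) where
  toFun x := ((x : ℚ) : AddCircle (1 : ℚ))
  map_zero' := by
    show (((0 : NNRat) : ℚ) : AddCircle (1 : ℚ)) = 0
    rw [NNRat.cast_zero, AddCircle.coe_zero]
  map_add' x y := by
    show (((x + y : NNRat) : ℚ) : AddCircle (1 : ℚ)) = _
    rw [NNRat.cast_add, AddCircle.coe_add]

private theorem B310_fr {x y : ℚ} (h : (x : AddCircle (1 : ℚ)) = y) : Int.fract x = Int.fract y := by
  have h1 : ((x - y : ℚ) : AddCircle (1 : ℚ)) = 0 := by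
    rw [AddCircle.coe_sub, h, sub_self]
  obtain ⟨n, hn⟩ := (AddCircle.coe_eq_zero_iff (1 : ℚ)).1 h1
  have h2 : x = y + n := by
    have h3 : (n : ℚ) = x - y := by
      rw [← hn]
      simp
    linarith
  rw [h2, Int.fract_add_intCast]

/-- the representative in `[0, 1)` -/
private noncomputable def B310_s (d : AddCircle (1 : ℚ)) : NNRat :=
  ⟨Int.fract (Quotient.out d : ℚ), Int.fract_nonneg _⟩

private theorem B310_s_coe (x : ℚ) : ((B310_s (x : AddCircle (1 : ℚ)) : NNRat) : ℚ) = Int.fract x := by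
  show Int.fract (Quotient.out (x : AddCircle (1 : ℚ)) : ℚ) = Int.fract x
  exact B310_fr (Quotient.out_eq (x : AddCircle (1 : ℚ)))

private theorem B310_ind (d : AddCircle (1 : ℚ)) : ∃ x : ℚ, (x : AddCircle (1 : ℚ)) = d :=
  ⟨Quotient.out d, Quotient.out_eq d⟩

/-- the coefficient system `ℕ → ℚ≥0 → ℚ/ℤ` -/
private noncomputable def B310_c : Coef ℕ NNRat (AddCircle (1 : ℚ)) where
  ι := Nat.castAddMonoidHom NNRat
  q := B310_q
  s := B310_s
  s0 := by
    have h := B310_s_coe 0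
    rw [AddCircle.coe_zero, Int.fract_zero] at h
    exact NNRat.coe_injective (h.trans NNRat.coe_zero.symm)
  qs d := by
    obtain ⟨x, rfl⟩ := B310_ind d
    show (((B310_s (x : AddCircle (1 : ℚ)) : NNRat) : ℚ) : AddCircle (1 : ℚ)) = x
    rw [B310_s_coe, AddCircle.coe_fract]
  qι n := by
    show ((((n : ℕ) : NNRat) : ℚ) : AddCircle (1 : ℚ)) = 0
    rw [AddCircle.coe_eq_zero_iff]
    exact ⟨n, by simp⟩
  dec x := by
    obtain ⟨n, hn⟩ := Int.eq_ofNat_of_zero_le (Int.floor_nonneg.2 (NNRat.coe_nonneg x))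
    refine ⟨n, NNRat.coe_injective ?_⟩
    show (x : ℚ) = (((n : ℕ) : NNRat) + B310_s (((x : NNRat) : ℚ) : AddCircle (1 : ℚ)) : NNRat)
    rw [NNRat.coe_add, B310_s_coe]
    have h1 := Int.floor_add_fract (x : ℚ)
    rw [hn] at h1
    have h2 : (((n : ℕ) : NNRat) : ℚ) = ((n : ℤ) : ℚ) := by simp
    rw [h2]
    exact h1.symm
  inj n n' d h := by
    have h1 : ((n : ℕ) : NNRat) + B310_s d = ((n' : ℕ) : NNRat) + B310_s d := h
    have h2 := add_right_cancel h1
    exact_mod_cast h2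

/-- pointwise coefficient systems -/
private noncomputable def B310_lift {N M D : Type} [AddCommMonoid N] [AddCommMonoid M]
    [AddCommGroup D] (c : Coef N M D) (I : Type) : Coef (I →₀ N) (I →₀ M) (I →₀ D) where
  ι := Finsupp.mapRange.addMonoidHom c.ι
  q := Finsupp.mapRange.addMonoidHom c.q
  s := Finsupp.mapRange c.s c.s0
  s0 := Finsupp.mapRange_zero
  qs d := by
    ext i
    exact c.qs (d i)
  qι n := by
    ext i
    exact c.qι (n i)
  dec x := by
    choose f hf using c.dec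
    have f0 : f 0 = 0 := by
      have h1 := hf 0
      rw [map_zero, c.s0, add_zero] at h1
      refine c.inj _ _ 0 ?_
      rw [c.s0, add_zero, add_zero, map_zero]
      exact h1.symm
    refine ⟨Finsupp.mapRange f f0 x, ?_⟩
    ext i
    exact hf (x i)
  inj n n' d h := by
    ext i
    exact c.inj _ _ (d i) (DFunLike.congr_fun h i)

private theorem B310_tor (I : Type) (a : I →₀ AddCircle (1 : ℚ)) : IsOfFinAddOrder a := by
  induction a using Finsupp.induction_linear with
  | zero => exact IsOfFinAddOrder.zero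
  | add x y hx hy => exact hx.add hy
  | single i d =>
    obtain ⟨x, rfl⟩ := B310_ind d
    rw [isOfFinAddOrder_iff_nsmul_eq_zero]
    refine ⟨x.den, x.den_pos, ?_⟩
    rw [Finsupp.smul_single, ← AddCircle.coe_nsmul]
    have h1 : ((x.den • x : ℚ) : AddCircle (1 : ℚ)) = 0 := by
      rw [AddCircle.coe_eq_zero_iff]
      refine ⟨x.num, ?_⟩
      rw [nsmul_eq_mul, mul_comm, Rat.mul_den_eq_num]
      simp
    rw [h1, Finsupp.single_zero]

theorem exists_coef (I : Type) :
    ∃ (M D : Type) (_ : AddCommMonoid M) (_ : AddCommGroup D) (_ : Coef (I →₀ ℕ) M D),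
      Function.Bijective (fun x : M => x + x) ∧
      ∀ s : Finset D, ∃ B : AddSubgroup D, Finite B ∧ (s : Set D) ⊆ B := by
  classical
  refine ⟨I →₀ NNRat, I →₀ AddCircle (1 : ℚ), inferInstance, inferInstance, B310_lift B310_c I,
    ⟨?_, ?_⟩, ?_⟩
  · intro x y h
    ext i
    have h1 : x i + x i = y i + y i := DFunLike.congr_fun h i
    have h2 : (x i : ℚ) + x i = y i + y i := by exact_mod_cast h1
    have h3 : (x i : ℚ) = y i := by linarith
    exact_mod_cast h3
  · intro y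
    refine ⟨Finsupp.mapRange (fun a : NNRat => a / 2) (by simp) y, ?_⟩
    ext i
    show ((y i / 2 + y i / 2 : NNRat) : ℚ) = y i
    push_cast
    ring
  · intro s
    refine ⟨AddSubgroup.closure (s : Set (I →₀ AddCircle (1 : ℚ))), ?_, AddSubgroup.subset_closure⟩
    have : AddGroup.FG (AddSubgroup.closure (s : Set (I →₀ AddCircle (1 : ℚ)))) :=
      AddGroup.closure_finset_fg s
    refine AddCommGroup.finite_of_fg_isAddTorsion _ ?_
    rintro ⟨x, hx⟩
    have h1 := B310_tor I x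
    rw [isOfFinAddOrder_iff_nsmul_eq_zero] at h1 ⊢
    obtain ⟨n, hn, h2⟩ := h1
    exact ⟨n, hn, Subtype.ext h2⟩

end MM

end

/-! ### from `Lib_MP_33f7bb_d.B311` -/

section

/-!
# B3-11: skeleta: `(sk n, sk (n-1))` is relatively isomorphic to `(Δ^n × I, ∂Δ^n × I)`

`I := {x : W.S n // NonDeg x}`, `φ (β, x) = act β x`.
* `map`: `φ (β, x) ∈ sk (n+1)` by definition (`k = n + 1`).
* `pre`: for nondegenerate `x` of degree `n + 1`: `act β x ∈ sk n` iff `β` is not surjective.  (If `β : [m] → [n+1]` is not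
  surjective, it factors through a coface (`exists_dlt`), so `act β x = act g (act (dlt i) x)` is in `sk n`.
  If `β` is surjective and `act β x = act f y`, `y : W.S k`, `k ≤ n`, then by `ez_exists` for `y`, write `y = act s y'`,
  `y'` nondegenerate of degree `k' ≤ k`; a section `t` of `β` gives `x = act t (act β x) = act (s ∘ f ∘ t) y'`, so
  `NonDeg x` gives `n + 1 ≤ k' ≤ n`: contradiction.)
* `inj`: for surjective `β, β'`, `act β x = act β' x'` implies `β = β'`, `x = x'` (`ez_unique`).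
* `surj`: `y ∈ sk (n+1)`, `y ∉ sk n`: `ez_exists` for `y`: `y = act s y'`, `s` surjective, `y'` nondegenerate of degree
  `k`.  `k ≤ n` is excluded (`y ∉ sk n`), and `k ≤ n + 1` since `y = act f u` with `u` of degree `≤ n+1`: a
  section `t` of `s`: `y' = act t y = act (f ∘ t) u`, so `k ≤ n+1`.

`sk_zero_eq`/`sk_one_eq`: if `W` has only one vertex `w0` and only one edge `deg w0 1` then `sk 1 = pt w0`.
`sk_exhaust`: every simplex of degree `n` is in `sk n`.
-/

namespace MM

/-- `(β, x) ↦ act β x` -/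
def skMap (W : SS) (n : ℕ) : Hom (DI (Del n) {x : W.S n // NonDeg x}) W :=
  ⟨fun _ p => W.act p.1 p.2.1, fun f p => by rw [W.act_comp]⟩

private theorem B311_dim {W : SS} {m n k : ℕ} {y : W.S m} (hy : y ∈ (W.sk n).car m)
    (s : Mo m k) (hs : Function.Surjective s) (y' : W.S k) (hy' : NonDeg y')
    (h : y = W.act s y') : k ≤ n := by
  obtain ⟨k0, f, u, hk0, hu⟩ := hy
  obtain ⟨t, ht⟩ := exists_section s hs
  refine (hy' k0 (f.comp t) u ?_).trans hk0
  rw [← W.act_comp, ← hu, h, W.act_comp, ht, W.act_id]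

theorem relIso_sk (W : SS) (n : ℕ) :
    RelIso (skMap W (n + 1)) ((bd (n + 1)).di _) ⊤ (W.sk n) (W.sk (n + 1)) := by
  have hpre : ∀ m, ∀ x : (DI (Del (n + 1)) {x : W.S (n + 1) // NonDeg x}).S m,
      (W.act x.1 x.2.1 ∈ (W.sk n).car m ↔ ¬ Function.Surjective (x.1 : Mo m (n + 1))) := by
    rintro m ⟨β, x, hx⟩
    constructor
    · intro h hs
      have := B311_dim h β hs x hx rfl
      omega
    · intro h
      obtain ⟨i, g, hg⟩ := exists_dlt β h
      exact ⟨n, g, W.act (dlt i) x, le_rfl, by rw [W.act_comp, ← hg]⟩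
  refine ⟨fun _ _ _ => trivial, ?_, ?_, ?_, ?_, ?_⟩
  · rintro m x ⟨k, f, y, hk, hx⟩
    exact ⟨k, f, y, hk.trans (Nat.le_succ n), hx⟩
  · intro m x _
    exact ⟨n + 1, x.1, x.2.1, le_rfl, rfl⟩
  · intro m x _
    exact hpre m x
  · rintro m ⟨β, x, hx⟩ _ ⟨β', x', hx'⟩ _ h h' he
    have hs : Function.Surjective β := not_not.1 h
    have hs' : Function.Surjective β' := not_not.1 h'
    obtain ⟨h1, h2⟩ := ez_unique β β' x x' hs hs' hx hx' he
    subst h1
    subst h2
    rfl
  · intro m y hy hy'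
    obtain ⟨k, s, y', hs, hn, he⟩ := ez_exists y
    have hk : k ≤ n + 1 := B311_dim hy s hs y' hn he
    have hk' : ¬ k ≤ n := fun h => hy' ⟨k, s, y', h, he⟩
    have hk'' : k = n + 1 := by omega
    subst hk''
    exact ⟨(s, ⟨y', hn⟩), trivial, he.symm⟩

theorem sk_one_eq {W : SS} (w0 : W.S 0) (h0 : ∀ w : W.S 0, w = w0)
    (h1 : ∀ w : W.S 1, w = W.deg w0 1) : W.sk 1 = Sub.pt w0 := by
  refine Sub.ext (funext fun m => Set.ext fun x => ?_)
  constructor
  · rintro ⟨k, f, y, hk, rfl⟩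
    show W.act f y = W.act (cst 0) w0
    have hcase : k = 0 ∨ k = 1 := by omega
    rcases hcase with rfl | rfl
    · rw [h0 y]
      congr 1
      exact OrderHom.ext _ _ (funext fun i => Subsingleton.elim (α := Fin 1) _ _)
    · rw [h1 y]
      show W.act f (W.act (cst 0) w0) = _
      rw [W.act_comp]
      rfl
  · intro hx
    exact ⟨0, cst 0, w0, Nat.zero_le 1, hx⟩

end MM

end

/-! ### from `Lib_MP_33f7bb_d.B4Def` -/

section

/-!
# B4Def: boxes, configurations with labels (definitions, complete)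
-/

namespace MM

open Classical

/-! ## the parameter of a simplex of `Δ^1` -/

/-- the parameter `∈ [0,1]` of the point `t` under the simplex `a` of `Δ^1` -/
noncomputable def sPar {m : ℕ} (a : Mo m 1) (t : Dtop m) : ℝ := (tmap a t : Fin 2 → ℝ) 1

theorem sPar_continuous {m : ℕ} (a : Mo m 1) : Continuous (sPar a) :=
  (continuous_apply (1 : Fin 2)).comp (continuous_subtype_val.comp (tmap a).continuous)

theorem sPar_nonneg {m : ℕ} (a : Mo m 1) (t : Dtop m) : 0 ≤ sPar a t := (tmap a t).2.1 1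

theorem sPar_le_one {m : ℕ} (a : Mo m 1) (t : Dtop m) : sPar a t ≤ 1 := by
  have h := (tmap a t).2.2
  have h0 := (tmap a t).2.1 0
  rw [Fin.sum_univ_two] at h
  show (tmap a t : Fin 2 → ℝ) 1 ≤ 1
  have h' : (tmap a t : Fin 2 → ℝ) 0 + (tmap a t : Fin 2 → ℝ) 1 = 1 := h
  have h0' : 0 ≤ (tmap a t : Fin 2 → ℝ) 0 := h0
  linarith

theorem sPar_comp {l m : ℕ} (a : Mo m 1) (f : Mo l m) (t : Dtop l) :
    sPar (a.comp f) t = sPar a (tmap f t) := by
  show (tmap (a.comp f) t : Fin 2 → ℝ) 1 = (tmap a (tmap f t) : Fin 2 → ℝ) 1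
  rw [tmap_comp]

theorem tmap_apply_b {m n : ℕ} (f : Mo m n) (t : Dtop m) (i : Fin (n + 1)) :
    (tmap f t : Fin (n + 1) → ℝ) i = ∑ j, if f j = i then (t : Fin (m + 1) → ℝ) j else 0 := by
  show FunOnFinite.linearMap ℝ ℝ f (t : Fin (m + 1) → ℝ) i = _
  rw [FunOnFinite.linearMap_apply_apply, Finset.sum_filter]

theorem sPar_zero {m : ℕ} (t : Dtop m) : sPar (cst 0 : Mo m 1) t = 0 := by
  show (tmap (cst 0 : Mo m 1) t : Fin 2 → ℝ) 1 = 0
  rw [tmap_apply_b]
  apply Finset.sum_eq_zero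
  intro j _
  rw [if_neg]
  show ¬ ((0 : Fin 2) = 1)
  decide

theorem sPar_one {m : ℕ} (t : Dtop m) : sPar (cst 1 : Mo m 1) t = 1 := by
  show (tmap (cst 1 : Mo m 1) t : Fin 2 → ℝ) 1 = 1
  rw [tmap_apply_b]
  have := t.2.2
  rw [← this]
  apply Finset.sum_congr rfl
  intro j _
  exact if_pos rfl

/-! ## boxes -/

/-- boxes with coordinates in `D`, parametrised by `Dtop m`: centre `v`, inverse size `κ` -/
structure IsBx (D : Set ℕ) {m : ℕ} (v κ : Dtop m → ℕ → ℝ) : Prop where
  contv : Continuous v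
  contk : Continuous κ
  supp : ∃ S : Finset ℕ, (S : Set ℕ) ⊆ D ∧ ∀ t, ∀ i ∉ S, v t i = 0 ∧ κ t i = 0
  nonneg : ∀ t i, 0 ≤ κ t i

/-- the simplicial set of boxes -/
noncomputable abbrev BX (D : Set ℕ) : SS where
  S m := {p : (Dtop m → ℕ → ℝ) × (Dtop m → ℕ → ℝ) // IsBx D p.1 p.2}
  act {m n} f p := ⟨(fun t => p.1.1 (tmap f t), fun t => p.1.2 (tmap f t)),
    { contv := p.2.contv.comp (tmap f).continuous
      contk := p.2.contk.comp (tmap f).continuous
      supp := by
        obtain ⟨S, hS, h⟩ := p.2.supp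
        exact ⟨S, hS, fun t i hi => h _ i hi⟩
      nonneg := fun t i => p.2.nonneg _ i }⟩
  act_id p := by
    apply Subtype.ext
    simp [tmap_id]
  act_comp f g p := by
    apply Subtype.ext
    simp [tmap_comp]

namespace BX

variable {D : Set ℕ}

/-- the region of the box at `t` -/
def reg {m : ℕ} (β : (BX D).S m) (t : Dtop m) : Set (ℕ → ℝ) :=
  {x | ∀ i, β.1.2 t i * |x i - β.1.1 t i| < 1}

/-- the centre is in the region -/
theorem centre_mem {m : ℕ} (β : (BX D).S m) (t : Dtop m) : β.1.1 t ∈ reg β t := fun i => by simp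

/-- disjoint boxes -/
def disj {m : ℕ} (β γ : (BX D).S m) : Prop := ∀ t, ∀ x ∈ reg β t, x ∉ reg γ t

theorem disj_symm {m : ℕ} {β γ : (BX D).S m} (h : disj β γ) : disj γ β :=
  fun t x hx hx' => h t x hx' hx

theorem disj_act {m n : ℕ} (f : Mo m n) {β γ : (BX D).S n} (h : disj β γ) :
    disj ((BX D).act f β) ((BX D).act f γ) := fun t x hx => h (tmap f t) x hx

instance (m : ℕ) : Nonempty (Dtop m) :=
  ⟨⟨Pi.single 0 1, single_mem_stdSimplex ℝ 0⟩⟩

theorem disj_ne {m : ℕ} {β γ : (BX D).S m} (h : disj β γ) : β ≠ γ := by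
  rintro rfl
  obtain ⟨t⟩ : Nonempty (Dtop m) := inferInstance
  exact h t _ (centre_mem β t) (centre_mem β t)

end BX

/-- tuples of pairwise disjoint boxes -/
noncomputable abbrev EJ (D : Set ℕ) (J : Type) : SS where
  S m := {x : J → (BX D).S m // ∀ i j, i ≠ j → BX.disj (x i) (x j)}
  act f x := ⟨fun j => (BX D).act f (x.1 j), fun i j h => BX.disj_act f (x.2 i j h)⟩
  act_id x := Subtype.ext (funext fun j => (BX D).act_id (x.1 j))
  act_comp f g x := Subtype.ext (funext fun j => (BX D).act_comp f g (x.1 j))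

/-! ## configurations of boxes with labels in the pointed simplicial set `(W, w₀)` -/

/-- finite sets of pairs (box, label `≠` base), boxes pairwise disjoint -/
structure IsTT (D : Set ℕ) {W : SS} (w0 : W.S 0) {m : ℕ} (F : Finset ((BX D).S m × W.S m)) :
    Prop where
  ne : ∀ p ∈ F, p.2 ≠ W.deg w0 m
  disj : ∀ p ∈ F, ∀ q ∈ F, p ≠ q → BX.disj p.1 q.1

/-- structure maps: apply `f` to the boxes and labels, drop the base labels -/
noncomputable def actF (D : Set ℕ) {W : SS} (w0 : W.S 0) {m n : ℕ} (f : Mo m n)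
    (F : Finset ((BX D).S n × W.S n)) : Finset ((BX D).S m × W.S m) :=
  (F.image (fun p => ((BX D).act f p.1, W.act f p.2))).filter (fun p => p.2 ≠ W.deg w0 m)

theorem SS.act_deg {W : SS} (w0 : W.S 0) {m n : ℕ} (f : Mo m n) :
    W.act f (W.deg w0 n) = W.deg w0 m := by
  show W.act f (W.act (cst 0) w0) = W.act (cst 0) w0
  rw [W.act_comp]; rfl

theorem mem_actF {D : Set ℕ} {W : SS} {w0 : W.S 0} {m n : ℕ} {f : Mo m n}
    {F : Finset ((BX D).S n × W.S n)} {q : (BX D).S m × W.S m} :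
    q ∈ actF D w0 f F ↔ (∃ p ∈ F, ((BX D).act f p.1, W.act f p.2) = q) ∧ q.2 ≠ W.deg w0 m := by
  rw [actF, Finset.mem_filter, Finset.mem_image]

theorem IsTT.act {D : Set ℕ} {W : SS} {w0 : W.S 0} {m n : ℕ} (f : Mo m n)
    {F : Finset ((BX D).S n × W.S n)} (hF : IsTT D w0 F) : IsTT D w0 (actF D w0 f F) where
  ne p hp := (mem_actF.1 hp).2
  disj p hp q hq hpq := by
    obtain ⟨⟨p', hp', rfl⟩, -⟩ := mem_actF.1 hp
    obtain ⟨⟨q', hq', rfl⟩, -⟩ := mem_actF.1 hq
    exact BX.disj_act f (hF.disj p' hp' q' hq' fun h => hpq (by rw [h]))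

/-- configurations with labels -/
noncomputable abbrev TTb (D : Set ℕ) {W : SS} (w0 : W.S 0) : SS where
  S m := {F : Finset ((BX D).S m × W.S m) // IsTT D w0 F}
  act f F := ⟨actF D w0 f F.1, F.2.act f⟩
  act_id {n} F := by
    apply Subtype.ext
    ext q
    rw [mem_actF]
    constructor
    · rintro ⟨⟨p, hp, rfl⟩, -⟩
      rw [(BX D).act_id, W.act_id]
      exact hp
    · intro hq
      exact ⟨⟨q, hq, by rw [(BX D).act_id, W.act_id]⟩, F.2.ne q hq⟩
  act_comp {l m n} f g F := by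
    apply Subtype.ext
    ext q
    rw [mem_actF, mem_actF]
    constructor
    · rintro ⟨⟨p, hp, rfl⟩, h⟩
      obtain ⟨⟨p', hp', rfl⟩, -⟩ := mem_actF.1 hp
      exact ⟨⟨p', hp', by rw [(BX D).act_comp, W.act_comp]⟩, h⟩
    · rintro ⟨⟨p, hp, rfl⟩, h⟩
      refine ⟨⟨((BX D).act g p.1, W.act g p.2), mem_actF.2 ⟨⟨p, hp, rfl⟩, fun h' => h ?_⟩, ?_⟩, h⟩
      · show W.act (g.comp f) p.2 = _
        rw [← W.act_comp, show W.act g p.2 = W.deg w0 m from h', SS.act_deg]
      · rw [(BX D).act_comp, W.act_comp]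

/-- the empty configuration -/
def TTb.empty (D : Set ℕ) {W : SS} (w0 : W.S 0) (m : ℕ) : (TTb D w0).S m :=
  ⟨∅, ⟨fun _ h => absurd h (Finset.notMem_empty _), fun _ h => absurd h (Finset.notMem_empty _)⟩⟩

/-- the images of the elements of a configuration are distinct -/
theorem IsTT.injOn {D : Set ℕ} {W : SS} {w0 : W.S 0} {m n : ℕ} (f : Mo m n)
    {F : Finset ((BX D).S n × W.S n)} (hF : IsTT D w0 F) :
    Set.InjOn (fun p : (BX D).S n × W.S n => ((BX D).act f p.1, W.act f p.2)) (F : Set _) := by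
  intro p hp q hq h
  by_contra hne
  have := BX.disj_ne (BX.disj_act f (hF.disj p hp q hq hne))
  exact this (congrArg Prod.fst h)

/-- the number of occurrences of every label -/
noncomputable def cntF {D : Set ℕ} {W : SS} {m : ℕ} (F : Finset ((BX D).S m × W.S m)) :
    W.S m →₀ ℕ := ∑ p ∈ F, Finsupp.single p.2 1

theorem cntF_ne {D : Set ℕ} {W : SS} {m : ℕ} (F : Finset ((BX D).S m × W.S m)) {w : W.S m}
    (h : cntF F w ≠ 0) : ∃ p ∈ F, p.2 = w := by
  by_contra h'
  push Not at h'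
  apply h
  rw [cntF, Finsupp.finsetSum_apply]
  exact Finset.sum_eq_zero fun p hp => Finsupp.single_eq_of_ne (h' p hp).symm

/-- forget the boxes: `TTb D w₀ → lab ℕ (pt w₀) ⊤` -/
noncomputable def TTb.cnt (D : Set ℕ) {W : SS} (w0 : W.S 0) :
    Hom (TTb D w0) (lab ℕ (Sub.pt w0) ⊤) where
  app m F := ⟨cntF F.1, fun w hw => by
    obtain ⟨p, hp, rfl⟩ := cntF_ne F.1 hw
    exact ⟨trivial, F.2.ne p hp⟩⟩
  nat {m n} f F := by
    apply Subtype.ext
    show cntF (actF D w0 f F.1) = labAct ℕ (Sub.pt w0) f (cntF F.1)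
    have h1 : cntF (actF D w0 f F.1) =
        ∑ p ∈ F.1, if W.act f p.2 ≠ W.deg w0 m then Finsupp.single (W.act f p.2) 1 else 0 := by
      rw [cntF, actF, Finset.sum_filter, Finset.sum_image (F.2.injOn f)]
    have h2 : labAct ℕ (Sub.pt w0) f (cntF F.1) =
        ∑ p ∈ F.1, labAct ℕ (Sub.pt w0) f (Finsupp.single p.2 1) := by
      rw [cntF, map_sum]
    rw [h1, h2]
    apply Finset.sum_congr rfl
    intro p _
    rw [labAct_def, Finsupp.mapDomain_single]
    by_cases h : W.act f p.2 = W.deg w0 m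
    · rw [if_neg (not_not.2 h), Finsupp.filter_single_of_neg]
      exact not_not.2 h
    · rw [if_pos h, Finsupp.filter_single_of_pos]
      exact h

/-! ## the fibres of `cnt` -/

/-- the index set of the boxes over the label function `b` -/
abbrev Jb {W : SS} {n : ℕ} (b : W.S n →₀ ℕ) : Type := Σ w : b.support, Fin (b w)

/-- the configuration of boxes `x` with labels `α^* w`, base labels dropped -/
noncomputable def PhiF (D : Set ℕ) {W : SS} (w0 : W.S 0) {m n : ℕ} (b : W.S n →₀ ℕ)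
    (x : Jb b → (BX D).S m) (α : Mo m n) : Finset ((BX D).S m × W.S m) :=
  (Finset.univ.image (fun j : Jb b => (x j, W.act α j.1.1))).filter
    (fun p => p.2 ≠ W.deg w0 m)

theorem mem_PhiF {D : Set ℕ} {W : SS} {w0 : W.S 0} {m n : ℕ} {b : W.S n →₀ ℕ}
    {x : Jb b → (BX D).S m} {α : Mo m n} {q : (BX D).S m × W.S m} :
    q ∈ PhiF D w0 b x α ↔ (∃ j, (x j, W.act α j.1.1) = q) ∧ q.2 ≠ W.deg w0 m := by
  rw [PhiF, Finset.mem_filter, Finset.mem_image]
  simp

/-- permutations of the boxes with the same label -/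
abbrev Gb {W : SS} {n : ℕ} (b : W.S n →₀ ℕ) : Type := ∀ w : b.support, Equiv.Perm (Fin (b w))

end MM

end

/-! ### from `Lib_MP_33f7bb_d.B401` -/

section

/-!
# B4-01 (BX1): tuples of pairwise disjoint boxes form an acyclic simplicial set

`D` infinite, `J` finite.  Choose an injection `k : J → ℕ`.

For a set `S ⊆ ℕ` let `E^S ⊆ EJ D J` be the subcomplex of the tuples all of whose boxes have `v t i = 0 = κ t i` for all `t` and
all `i ∉ S`.  For `e ∈ D` let `q_e : (EJ D J).S 0` be the constant tuple: box `j` has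
`κ = Pi.single e 1`, `v = Pi.single e (3 * k j)`; disjoint: `|x e - 3 k| < 1` and `|x e - 3 k'| < 1` are incompatible.

Choose a strictly increasing enumeration `a_0 < a_1 < ...` in `D` (`Nat.nth (· ∈ D)` with `Nat.nth_strictMono`, or
`Nat.orderEmbeddingOfSet D`), `C i := E^{ {n | n < a_(i+1)} }` (so that `q_(a_0) ∈ C 0`), `p := q_(a_0)`.  `C` is monotone and
exhausts `EJ D J` (`J` finite, every box has finite support: bound by some `a_(i+1)`, as `a_i ≥ i`).
Apply `acyc_of_null_incl` (A020) with the following null-homotopy of the inclusion of `C i` to `q_e`, `e := a_(i+1)`, with values in `C (i+1)`: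
for `s = sPar a t` (B4Def) put `cl x := max 0 (min 1 x)`, `lam = cl (3 - 3 s)`,
  `(H (a, x)) j t = (v', κ')`,  `v' i = lam * v i`, `κ' i = lam * κ i` for `i ≠ e`, `κ' e = cl (3 s)`, `v' e = cl (3 s - 1) * 3 * k j`.
* `IsBx`: continuous (`continuous_pi`, compositions), supported in `S ∪ {e}`, nonnegative.
* disjoint: if `s ≤ 2/3` then `lam = 1`, so the region is contained in the original region (which has `κ e = 0`, so its
  condition at `e` is empty; conditions at `i ≠ e` are unchanged).  If `s ≥ 2/3` then `κ' e = 1`, `v' e = 3 k j`: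
  disjoint by the coordinate `e`.
* natural by `sPar_comp`;  at `cst 0`: `s = 0` (`sPar_zero`), `lam = 1`, `κ' e = 0 = κ e`, `v' e = 0 = v e` (`e` is fresh):
  `H = x`;  at `cst 1`: `s = 1` (`sPar_one`), `lam = 0`: `H = (EJ D J).deg q_e m`.
-/

namespace MM

private noncomputable def B401_cl (x : ℝ) : ℝ := max 0 (min 1 x)

private theorem B401_cl_cont : Continuous B401_cl :=
  continuous_const.max (continuous_const.min continuous_id)

private theorem B401_cl_nonneg (x : ℝ) : 0 ≤ B401_cl x := le_max_left _ _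

private theorem B401_cl_one {x : ℝ} (h : 1 ≤ x) : B401_cl x = 1 := by
  rw [B401_cl, min_eq_left h, max_eq_right zero_le_one]

private theorem B401_cl_zero {x : ℝ} (h : x ≤ 0) : B401_cl x = 0 := by
  rw [B401_cl, min_eq_right (h.trans zero_le_one), max_eq_left h]

/-- the tuples of boxes supported in the coordinates in `S` -/
private noncomputable def B401_E (D : Set ℕ) (J : Type) (S : Set ℕ) : Sub (EJ D J) :=
  ⟨fun _ => {x | ∀ j t, ∀ i ∉ S, (x.1 j).1.1 t i = 0 ∧ (x.1 j).1.2 t i = 0},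
    fun f _ h j t i hi => h j (tmap f t) i hi⟩

/-- the centre during the homotopy -/
private noncomputable def B401_v (e : ℕ) (c s : ℝ) (v : ℕ → ℝ) : ℕ → ℝ :=
  fun i => if i = e then B401_cl (3 * s - 1) * c else B401_cl (3 - 3 * s) * v i

/-- the inverse size during the homotopy -/
private noncomputable def B401_k (e : ℕ) (s : ℝ) (κ : ℕ → ℝ) : ℕ → ℝ :=
  fun i => if i = e then B401_cl (3 * s) else B401_cl (3 - 3 * s) * κ i

private theorem B401_isBx {D : Set ℕ} {e : ℕ} (he : e ∈ D) (c : ℝ) {m : ℕ} (a : Mo m 1)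
    {v κ : Dtop m → ℕ → ℝ} (h : IsBx D v κ) :
    IsBx D (fun t => B401_v e c (sPar a t) (v t)) (fun t => B401_k e (sPar a t) (κ t)) where
  contv := by
    refine continuous_pi fun i => ?_
    have hs := sPar_continuous a
    by_cases hi : i = e
    · simp only [B401_v, if_pos hi]
      exact (B401_cl_cont.comp ((continuous_const.mul hs).sub continuous_const)).mul
        continuous_const
    · simp only [B401_v, if_neg hi]
      exact (B401_cl_cont.comp (continuous_const.sub (continuous_const.mul hs))).mul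
        ((continuous_apply i).comp h.contv)
  contk := by
    refine continuous_pi fun i => ?_
    have hs := sPar_continuous a
    by_cases hi : i = e
    · simp only [B401_k, if_pos hi]
      exact B401_cl_cont.comp (continuous_const.mul hs)
    · simp only [B401_k, if_neg hi]
      exact (B401_cl_cont.comp (continuous_const.sub (continuous_const.mul hs))).mul
        ((continuous_apply i).comp h.contk)
  supp := by
    obtain ⟨S, hS, hv⟩ := h.supp
    refine ⟨insert e S, ?_, fun t i hi => ?_⟩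
    · intro i hi
      rcases Finset.mem_insert.1 (Finset.mem_coe.1 hi) with rfl | hi
      · exact he
      · exact hS hi
    · have h1 : i ≠ e := fun h => hi (h ▸ Finset.mem_insert_self _ _)
      have h2 := hv t i fun h => hi (Finset.mem_insert_of_mem h)
      simp only [B401_v, B401_k, if_neg h1, h2.1, h2.2, mul_zero, and_self]
  nonneg t i := by
    by_cases hi : i = e
    · simp only [B401_k, if_pos hi]
      exact B401_cl_nonneg _
    · simp only [B401_k, if_neg hi]
      exact mul_nonneg (B401_cl_nonneg _) (h.nonneg t i)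

private theorem B401_far {a b : ℕ} (hab : a ≠ b) {x : ℝ} (h1 : |x - 3 * (a : ℝ)| < 1)
    (h2 : |x - 3 * (b : ℝ)| < 1) : False := by
  rw [abs_lt] at h1 h2
  rcases lt_or_gt_of_ne hab with h | h
  · have : (a : ℝ) + 1 ≤ b := by exact_mod_cast h
    linarith [h1.1, h1.2, h2.1, h2.2]
  · have : (b : ℝ) + 1 ≤ a := by exact_mod_cast h
    linarith [h1.1, h1.2, h2.1, h2.2]

/-- the homotopy on tuples of boxes without coordinate `e` -/
private noncomputable def B401_H {D : Set ℕ} {J : Type} {k : J → ℕ} (hk : Function.Injective k)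
    {e : ℕ} (he : e ∈ D) {S : Set ℕ} (heS : e ∉ S) :
    Hom ((Del 1).prod (B401_E D J S).ss) (EJ D J) where
  app m z := ⟨fun j =>
      ⟨(fun t => B401_v e (3 * (k j : ℝ)) (sPar z.1 t) ((z.2.1.1 j).1.1 t),
        fun t => B401_k e (sPar z.1 t) ((z.2.1.1 j).1.2 t)),
        B401_isBx he _ z.1 (z.2.1.1 j).2⟩, by
      intro i j hij t x hx hx'
      by_cases hs : sPar z.1 t ≤ 2 / 3
      · have hl : B401_cl (3 - 3 * sPar z.1 t) = 1 := B401_cl_one (by linarith)
        have key : ∀ l : J, (∀ n, B401_k e (sPar z.1 t) ((z.2.1.1 l).1.2 t) n *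
            |x n - B401_v e (3 * (k l : ℝ)) (sPar z.1 t) ((z.2.1.1 l).1.1 t) n| < 1) →
            x ∈ BX.reg (z.2.1.1 l) t := by
          intro l hl' n
          by_cases hn : n = e
          · subst hn
            rw [(z.2.2 l t n heS).2, zero_mul]
            exact zero_lt_one
          · have := hl' n
            simp only [B401_k, B401_v, if_neg hn, hl, one_mul] at this
            exact this
        exact z.2.1.2 i j hij t x (key i hx) (key j hx')
      · have h1 : B401_cl (3 * sPar z.1 t) = 1 := B401_cl_one (by linarith)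
        have h2 : B401_cl (3 * sPar z.1 t - 1) = 1 := B401_cl_one (by linarith)
        have hx1 := hx e
        have hx2 := hx' e
        simp only [B401_k, B401_v, if_pos, h1, h2, one_mul] at hx1 hx2
        exact B401_far (fun h => hij (hk h)) hx1 hx2⟩
  nat {m n} f z := by
    apply Subtype.ext
    funext j
    apply Subtype.ext
    apply Prod.ext
    · funext t
      show B401_v e _ (sPar (z.1.comp f) t) _ = B401_v e _ (sPar z.1 (tmap f t)) _
      rw [sPar_comp]
    · funext t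
      show B401_k e (sPar (z.1.comp f) t) _ = B401_k e (sPar z.1 (tmap f t)) _
      rw [sPar_comp]

/-- the constant tuple at the coordinate `e` -/
private noncomputable def B401_q {D : Set ℕ} {J : Type} {k : J → ℕ} (hk : Function.Injective k)
    {e : ℕ} (he : e ∈ D) : (EJ D J).S 0 :=
  ⟨fun j => ⟨(fun _ => fun i => if i = e then 3 * (k j : ℝ) else 0,
      fun _ => fun i => if i = e then 1 else 0),
    { contv := continuous_const
      contk := continuous_const
      supp := ⟨{e}, by simpa using he, fun t i hi => by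
        have : i ≠ e := fun h => hi (Finset.mem_singleton.2 h)
        simp [this]⟩
      nonneg := fun t i => by
        show (0 : ℝ) ≤ if i = e then 1 else 0
        split_ifs <;> norm_num }⟩, by
    intro i j hij t x hx hx'
    have hx1 := hx e
    have hx2 := hx' e
    simp only [if_pos, one_mul] at hx1 hx2
    exact B401_far (fun h => hij (hk h)) hx1 hx2⟩

theorem ej_acyc (D : Set ℕ) (hD : D.Infinite) (J : Type) [Finite J] :
    ∃ e : (EJ D J).S 0, Acyc (Sub.pt e) (⊤ : Sub (EJ D J)) := by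
  obtain ⟨k, hk⟩ : ∃ k : J → ℕ, Function.Injective k := by
    obtain ⟨n, ⟨g⟩⟩ := Finite.exists_equiv_fin J
    exact ⟨fun j => (g j : ℕ), fun i j h => g.injective (Fin.ext h)⟩
  have ha : StrictMono (Nat.nth (· ∈ D)) := Nat.nth_strictMono hD
  have haD : ∀ i, Nat.nth (· ∈ D) i ∈ D := fun i => Nat.nth_mem_of_infinite hD i
  set a : ℕ → ℕ := Nat.nth (· ∈ D) with ha_def
  let C : ℕ → Sub (EJ D J) := fun i => B401_E D J {n | n < a (i + 1)}
  refine ⟨B401_q hk (haD 0), acyc_of_null_incl _ C ?_ ?_ ?_ ?_⟩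
  · -- monotone
    intro i m x hx j t n hn
    refine hx j t n fun h => hn ?_
    exact lt_trans (show n < a (i + 1) from h) (ha (Nat.lt_succ_self _))
  · -- the base point
    intro i m x hx j t n hn
    have hx' : x = (EJ D J).deg (B401_q hk (haD 0)) m := hx
    subst hx'
    have hne : n ≠ a 0 := by
      rintro rfl
      exact hn (ha (Nat.succ_pos i))
    show (if n = a 0 then 3 * (k j : ℝ) else 0) = 0 ∧ (if n = a 0 then (1 : ℝ) else 0) = 0
    rw [if_neg hne, if_neg hne]
    exact ⟨rfl, rfl⟩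
  · -- exhausting
    intro m x
    have h1 : ∀ j, ∃ N : ℕ, ∀ t, ∀ n, N ≤ n → (x.1 j).1.1 t n = 0 ∧ (x.1 j).1.2 t n = 0 := by
      intro j
      obtain ⟨S, -, hS⟩ := (x.1 j).2.supp
      refine ⟨S.sup id + 1, fun t n hn => hS t n fun h => ?_⟩
      have : n ≤ S.sup id := Finset.le_sup (f := id) h
      omega
    choose N hN using h1
    obtain ⟨M, hM⟩ : ∃ M, ∀ j, N j ≤ M := by
      obtain ⟨M, hM⟩ := (Set.finite_range N).bddAbove
      exact ⟨M, fun j => hM ⟨j, rfl⟩⟩
    refine ⟨M, fun j t n hn => hN j t n ?_⟩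
    have h2 : M + 1 ≤ a (M + 1) := ha.le_apply
    have h3 : a (M + 1) ≤ n := not_lt.1 hn
    have h4 := hM j
    omega
  · -- the homotopy
    intro i
    have heS : a (i + 1) ∉ {n | n < a (i + 1)} := fun h => lt_irrefl _ (show a (i+1) < a (i+1) from h)
    have hlt : a (i + 1) < a (i + 1 + 1) := ha (Nat.lt_succ_self _)
    refine ⟨B401_H hk (haD (i + 1)) heS, B401_q hk (haD (i + 1)), ?_, ?_, ?_, ?_⟩
    · intro j t n hn
      have hne : n ≠ a (i + 1) := by
        rintro rfl
        exact hn hlt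
      show (if n = a (i + 1) then 3 * (k j : ℝ) else 0) = 0 ∧
        (if n = a (i + 1) then (1 : ℝ) else 0) = 0
      rw [if_neg hne, if_neg hne]
      exact ⟨rfl, rfl⟩
    · intro m b x j t n hn
      have hne : n ≠ a (i + 1) := by
        rintro rfl
        exact hn hlt
      have hn' : n ∉ {n | n < a (i + 1)} := fun h => hn (lt_trans (show n < a (i + 1) from h) hlt)
      have h0 := x.2 j t n hn'
      show B401_v (a (i + 1)) _ (sPar b t) ((x.1.1 j).1.1 t) n = 0 ∧
        B401_k (a (i + 1)) (sPar b t) ((x.1.1 j).1.2 t) n = 0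
      simp only [B401_v, B401_k, if_neg hne, h0.1, h0.2, mul_zero, and_self]
    · intro m x
      apply Subtype.ext
      funext j
      apply Subtype.ext
      have h3 : B401_cl (3 - 3 * (0 : ℝ)) = 1 := B401_cl_one (by norm_num)
      apply Prod.ext
      · funext t n
        show B401_v (a (i + 1)) _ (sPar (cst 0 : Mo m 1) t) ((x.1.1 j).1.1 t) n = (x.1.1 j).1.1 t n
        rw [sPar_zero]
        by_cases hn : n = a (i + 1)
        · subst hn
          simp only [B401_v, if_pos]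
          rw [(x.2 j t _ heS).1, B401_cl_zero (by norm_num), zero_mul]
        · simp only [B401_v, if_neg hn, h3, one_mul]
      · funext t n
        show B401_k (a (i + 1)) (sPar (cst 0 : Mo m 1) t) ((x.1.1 j).1.2 t) n = (x.1.1 j).1.2 t n
        rw [sPar_zero]
        by_cases hn : n = a (i + 1)
        · subst hn
          simp only [B401_k, if_pos]
          rw [(x.2 j t _ heS).2, B401_cl_zero (by norm_num)]
        · simp only [B401_k, if_neg hn, h3, one_mul]
    · intro m x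
      apply Subtype.ext
      funext j
      apply Subtype.ext
      have h3 : B401_cl (3 - 3 * (1 : ℝ)) = 0 := B401_cl_zero (by norm_num)
      have h4 : B401_cl (3 * (1 : ℝ) - 1) = 1 := B401_cl_one (by norm_num)
      have h5 : B401_cl (3 * (1 : ℝ)) = 1 := B401_cl_one (by norm_num)
      apply Prod.ext
      · funext t n
        show B401_v (a (i + 1)) _ (sPar (cst 1 : Mo m 1) t) ((x.1.1 j).1.1 t) n =
          if n = a (i + 1) then 3 * (k j : ℝ) else 0
        rw [sPar_one]
        by_cases hn : n = a (i + 1)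
        · simp only [B401_v, if_pos hn, h4, one_mul]
        · simp only [B401_v, if_neg hn, h3, zero_mul]
      · funext t n
        show B401_k (a (i + 1)) (sPar (cst 1 : Mo m 1) t) ((x.1.1 j).1.2 t) n =
          if n = a (i + 1) then 1 else 0
        rw [sPar_one]
        by_cases hn : n = a (i + 1)
        · simp only [B401_k, if_pos hn, h5]
        · simp only [B401_k, if_neg hn, h3, zero_mul]

end MM

end

/-! ### from `Lib_MP_33f7bb_d.B402` -/

section

/-!
# B4-02: elementary properties of `PhiF`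

`mem_PhiF`, `mem_actF` (B4Def).
* `isTT_PhiF`: `ne` by `mem_PhiF`; `disj`: two different elements of `PhiF` come from different indices.
* `actF_PhiF`: `q ∈ actF f (PhiF b x α)` iff `q = (act f (x j), act f (act α w_j))` for some `j` with `act α w_j ≠` base and
  `q.2 ≠` base; if `act α w_j` is base then so is `act f (act α w_j)` (`SS.act_deg`), so the first condition is automatic.
* `cntF_PhiF`: the map `j ↦ (x j, act α w_j)` is injective (disjoint boxes are different, `BX.disj_ne`), so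
  `cntF (PhiF b x α) = ∑ j, if act α w_j ≠ base then single (act α w_j) 1 else 0
   = ∑ (w ∈ b.support), b w • (if .. then single (act α w) 1 else 0)` (`Finset.sum_sigma`, `Finset.card_univ`) and this is
  `labAct ℕ (pt w0) α b` (`b = ∑ single w (b w)`, `labAct_def`, `Finsupp.mapDomain_single`, `Finsupp.filter_single_of_pos/neg`).
-/

namespace MM

open Classical

theorem isTT_PhiF {D : Set ℕ} {W : SS} (w0 : W.S 0) {m n : ℕ} (b : W.S n →₀ ℕ)
    (x : Jb b → (BX D).S m) (hx : ∀ i j, i ≠ j → BX.disj (x i) (x j)) (α : Mo m n) :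
    IsTT D w0 (PhiF D w0 b x α) := by
  refine ⟨fun p hp => (mem_PhiF.1 hp).2, fun p hp q hq hpq => ?_⟩
  obtain ⟨⟨i, rfl⟩, -⟩ := mem_PhiF.1 hp
  obtain ⟨⟨j, rfl⟩, -⟩ := mem_PhiF.1 hq
  exact hx i j fun h => hpq (by rw [h])

theorem actF_PhiF {D : Set ℕ} {W : SS} (w0 : W.S 0) {l m n : ℕ} (b : W.S n →₀ ℕ)
    (x : Jb b → (BX D).S m) (α : Mo m n) (f : Mo l m) :
    actF D w0 f (PhiF D w0 b x α) = PhiF D w0 b (fun j => (BX D).act f (x j)) (α.comp f) := by
  ext q
  rw [mem_actF, mem_PhiF]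
  constructor
  · rintro ⟨⟨p, hp, rfl⟩, h⟩
    obtain ⟨⟨j, rfl⟩, -⟩ := mem_PhiF.1 hp
    exact ⟨⟨j, by rw [← W.act_comp]⟩, h⟩
  · rintro ⟨⟨j, rfl⟩, h⟩
    refine ⟨⟨(x j, W.act α j.1.1), mem_PhiF.2 ⟨⟨j, rfl⟩, fun h' => h ?_⟩, ?_⟩, h⟩
    · show W.act (α.comp f) j.1.1 = W.deg w0 l
      rw [← W.act_comp, show W.act α j.1.1 = W.deg w0 m from h', SS.act_deg]
    · show ((BX D).act f (x j), W.act f (W.act α j.1.1)) = _
      rw [W.act_comp]

theorem PhiF_perm {D : Set ℕ} {W : SS} (w0 : W.S 0) {m n : ℕ} (b : W.S n →₀ ℕ)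
    (x : Jb b → (BX D).S m) (α : Mo m n) (g : Gb b) :
    PhiF D w0 b (fun j => x ⟨j.1, (g j.1)⁻¹ j.2⟩) α = PhiF D w0 b x α := by
  ext q
  rw [mem_PhiF, mem_PhiF]
  constructor
  · rintro ⟨⟨j, rfl⟩, h⟩
    exact ⟨⟨⟨j.1, (g j.1)⁻¹ j.2⟩, rfl⟩, h⟩
  · rintro ⟨⟨j, rfl⟩, h⟩
    refine ⟨⟨⟨j.1, g j.1 j.2⟩, ?_⟩, h⟩
    show (x ⟨j.1, (g j.1)⁻¹ (g j.1 j.2)⟩, W.act α j.1.1) = (x j, W.act α j.1.1)
    rw [show (g j.1)⁻¹ (g j.1 j.2) = j.2 from (g j.1).symm_apply_apply j.2]

theorem cntF_PhiF {D : Set ℕ} {W : SS} (w0 : W.S 0) {m n : ℕ} (b : W.S n →₀ ℕ)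
    (x : Jb b → (BX D).S m) (hx : ∀ i j, i ≠ j → BX.disj (x i) (x j)) (α : Mo m n) :
    cntF (PhiF D w0 b x α) = labAct ℕ (Sub.pt w0) α b := by
  have hinj : Function.Injective (fun j : Jb b => (x j, W.act α j.1.1)) := by
    intro i j h
    by_contra hij
    exact BX.disj_ne (hx i j hij) (congrArg Prod.fst h)
  have h1 : cntF (PhiF D w0 b x α) =
      ∑ j : Jb b, if W.act α j.1.1 ≠ W.deg w0 m then Finsupp.single (W.act α j.1.1) 1 else 0 := by
    rw [cntF, PhiF, Finset.sum_filter, Finset.sum_image (fun i _ j _ h => hinj h)]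
  have h2 : labAct ℕ (Sub.pt w0) α b =
      ∑ w ∈ b.support, labAct ℕ (Sub.pt w0) α (Finsupp.single w (b w)) := by
    conv_lhs => rw [← Finsupp.sum_single b]
    rw [Finsupp.sum, map_sum]
  rw [h1, h2, Fintype.sum_sigma, ← Finset.sum_coe_sort b.support]
  apply Finset.sum_congr rfl
  intro w _
  show (∑ _y : Fin (b w), if W.act α w.1 ≠ W.deg w0 m then
    (Finsupp.single (W.act α w.1) 1 : W.S m →₀ ℕ) else 0) = _
  rw [Finset.sum_const, Finset.card_univ, Fintype.card_fin, labAct_def, Finsupp.mapDomain_single]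
  by_cases h : W.act α w.1 = W.deg w0 m
  · rw [if_neg (not_not.2 h), smul_zero, Finsupp.filter_single_of_neg]
    exact not_not.2 h
  · rw [if_pos h, Finsupp.filter_single_of_pos]
    · rw [Finsupp.smul_single, smul_eq_mul, mul_one]
    · exact h

end MM

end

/-! ### from `Lib_MP_33f7bb_d.B403` -/

section

/-!
# B4-03: `PhiF` over surjective `α`: configurations over `α^* b` are tuples of boxes up to permutation

`α : Mo m n` surjective, so `w ↦ act α w` is injective (a section `t` of `α`, `exists_section` (A001), gives `act t (act α w) = w`), and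
`act α w = W.deg w0 m` implies `w = W.deg w0 n` (apply `act t`, `SS.act_deg`).  `b w ≠ 0` implies `w ≠ W.deg w0 n` (hypothesis
`hb`).  So in `PhiF b x α` no element is dropped, and the elements with label `act α w` are `x ⟨w, i⟩`, `i : Fin (b w)`.
* `PhiF_inj`: if `PhiF b x α = PhiF b x' α`, then for every `w ∈ b.support` the sets `{x ⟨w,i⟩}` and `{x' ⟨w,i⟩}` are equal; `x`, `x'` are
  injective (`BX.disj_ne`), so there is a permutation `g w` of `Fin (b w)` with `x' ⟨w, i⟩ = x ⟨w, (g w)⁻¹ i⟩`.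
* `PhiF_surj`: let `F` be a configuration with `cntF F = labAct ℕ (pt w0) α b`.  For every `w ∈ b.support` the number of
  elements of `F` with label `act α w` is `(labAct .. α b) (act α w) = b w` (`labAct_of_notMem`,
  `Finsupp.mapDomain_apply` for the injective map `act α`), and every label of `F` is of this form (`cntF F (p.2) ≥ 1`, so
  `p.2` is in the support of `mapDomain (act α) b`).  Choose bijections `Fin (b w) ≃ {p ∈ F | p.2 = act α w}`
  (`Finset.equivFinOfCardEq`).  This gives `x`; injective on indices, so pairwise disjoint by `hF.disj`.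
-/

namespace MM

open Classical

private theorem B403_act_inj {W : SS} {m n : ℕ} (α : Mo m n) (hα : Function.Surjective α) :
    Function.Injective (W.act α) := by
  obtain ⟨t, ht⟩ := exists_section α hα
  intro w w' h
  have h1 := congrArg (W.act t) h
  rwa [W.act_comp, W.act_comp, ht, W.act_id, W.act_id] at h1

private theorem B403_act_deg {W : SS} (w0 : W.S 0) {m n : ℕ} (α : Mo m n)
    (hα : Function.Surjective α) {w : W.S n} (h : W.act α w = W.deg w0 m) :
    w = W.deg w0 n := by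
  apply B403_act_inj α hα
  rw [h, SS.act_deg]

private theorem B403_cnt {D : Set ℕ} {W : SS} {m : ℕ} (F : Finset ((BX D).S m × W.S m))
    (y : W.S m) : cntF F y = (F.filter (fun p => p.2 = y)).card := by
  rw [cntF, Finsupp.finsetSum_apply, Finset.card_filter]
  apply Finset.sum_congr rfl
  intro p _
  rw [Finsupp.single_apply]

theorem PhiF_inj {D : Set ℕ} {W : SS} (w0 : W.S 0) {m n : ℕ} (b : W.S n →₀ ℕ)
    (hb : ∀ w, b w ≠ 0 → w ≠ W.deg w0 n)
    (x x' : Jb b → (BX D).S m) (hx : ∀ i j, i ≠ j → BX.disj (x i) (x j))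
    (hx' : ∀ i j, i ≠ j → BX.disj (x' i) (x' j)) (α : Mo m n) (hα : Function.Surjective α)
    (h : PhiF D w0 b x α = PhiF D w0 b x' α) :
    ∃ g : Gb b, x' = fun j => x ⟨j.1, (g j.1)⁻¹ j.2⟩ := by
  have hinj' : Function.Injective x' := by
    intro i j hij
    by_contra hne
    exact BX.disj_ne (hx' i j hne) hij
  have _ := hx
  have key : ∀ (w : b.support) (i : Fin (b w)), ∃ k : Fin (b w), x ⟨w, k⟩ = x' ⟨w, i⟩ := by
    intro w i
    have hw : b w ≠ 0 := Finsupp.mem_support_iff.1 w.2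
    have h1 : (x' ⟨w, i⟩, W.act α w.1) ∈ PhiF D w0 b x' α :=
      mem_PhiF.2 ⟨⟨⟨w, i⟩, rfl⟩, fun h2 => hb w.1 hw (B403_act_deg w0 α hα h2)⟩
    rw [← h] at h1
    obtain ⟨⟨⟨w', k⟩, hk⟩, -⟩ := mem_PhiF.1 h1
    have h3 : W.act α w'.1 = W.act α w.1 := congrArg Prod.snd hk
    have h4 : x ⟨w', k⟩ = x' ⟨w, i⟩ := congrArg Prod.fst hk
    have h5 : w' = w := Subtype.ext (B403_act_inj α hα h3)
    subst h5
    exact ⟨k, h4⟩
  choose k hk using key
  have hki : ∀ w, Function.Injective (k w) := by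
    intro w i j hij
    have h1 : x' ⟨w, i⟩ = x' ⟨w, j⟩ := by rw [← hk, ← hk, hij]
    have h2 := hinj' h1
    exact eq_of_heq (Sigma.mk.inj h2).2
  refine ⟨fun w => (Equiv.ofBijective (k w) (Finite.injective_iff_bijective.1 (hki w)))⁻¹, ?_⟩
  funext j
  obtain ⟨w, i⟩ := j
  show x' ⟨w, i⟩ = x ⟨w, _⟩
  rw [inv_inv]
  exact (hk w i).symm

theorem PhiF_surj {D : Set ℕ} {W : SS} (w0 : W.S 0) {m n : ℕ} (b : W.S n →₀ ℕ)
    (hb : ∀ w, b w ≠ 0 → w ≠ W.deg w0 n) (α : Mo m n) (hα : Function.Surjective α)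
    (F : Finset ((BX D).S m × W.S m)) (hF : IsTT D w0 F)
    (h : cntF F = labAct ℕ (Sub.pt w0) α b) :
    ∃ x : Jb b → (BX D).S m, (∀ i j, i ≠ j → BX.disj (x i) (x j)) ∧ PhiF D w0 b x α = F := by
  have hcard : ∀ w : b.support, (F.filter (fun p => p.2 = W.act α w.1)).card = b w := by
    intro w
    have hw : b w ≠ 0 := Finsupp.mem_support_iff.1 w.2
    have h1 : W.act α w.1 ∉ (Sub.pt w0).car m := fun h2 =>
      hb w.1 hw (B403_act_deg w0 α hα h2)
    rw [← B403_cnt, h, labAct_of_notMem _ _ _ h1,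
      Finsupp.mapDomain_apply (B403_act_inj α hα)]
  have hlab : ∀ p ∈ F, ∃ w : b.support, W.act α w.1 = p.2 := by
    intro p hp
    have h1 : cntF F p.2 ≠ 0 := by
      rw [B403_cnt, Finset.card_ne_zero]
      exact ⟨p, Finset.mem_filter.2 ⟨hp, rfl⟩⟩
    have h2 : p.2 ∉ (Sub.pt w0).car m := fun h3 => hF.ne p hp h3
    rw [h, labAct_of_notMem _ _ _ h2] at h1
    have h' := Finsupp.mapDomain_support (Finsupp.mem_support_iff.2 h1)
    obtain ⟨w, hw, hw'⟩ := Finset.mem_image.1 h'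
    exact ⟨⟨w, hw⟩, hw'⟩
  let e : ∀ w : b.support, Fin (b w) ≃ (F.filter (fun p => p.2 = W.act α w.1) : Finset _) :=
    fun w => (Finset.equivFinOfCardEq (hcard w)).symm
  have hm : ∀ (w : b.support) (i : Fin (b w)), (e w i).1 ∈ F ∧ (e w i).1.2 = W.act α w.1 :=
    fun w i => Finset.mem_filter.1 (e w i).2
  refine ⟨fun j => (e j.1 j.2).1.1, ?_, ?_⟩
  · rintro ⟨w, i⟩ ⟨w', i'⟩ hne
    apply hF.disj _ (hm w i).1 _ (hm w' i').1
    intro heq
    apply hne
    have h1 : W.act α w.1 = W.act α w'.1 := by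
      rw [← (hm w i).2, ← (hm w' i').2]
      exact congrArg Prod.snd heq
    have h2 : w = w' := Subtype.ext (B403_act_inj α hα h1)
    subst h2
    have h3 : e w i = e w i' := Subtype.ext heq
    rw [(e w).injective h3]
  · ext q
    rw [mem_PhiF]
    constructor
    · rintro ⟨⟨⟨w, i⟩, hq⟩, -⟩
      have h1 : (e w i).1 = q := by
        rw [← hq]
        exact Prod.ext rfl (hm w i).2
      rw [← h1]
      exact (hm w i).1
    · intro hq
      obtain ⟨w, hw⟩ := hlab q hq
      refine ⟨⟨⟨w, (e w).symm ⟨q, Finset.mem_filter.2 ⟨hq, hw.symm⟩⟩⟩, ?_⟩, hF.ne q hq⟩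
      apply Prod.ext
      · show (e w ((e w).symm ⟨q, _⟩)).1.1 = q.1
        rw [Equiv.apply_symm_apply]
      · exact hw

end MM

end

/-! ### from `Lib_MP_33f7bb_d.B5Def` -/

section

/-!
# B5Def: the spaces `WW`: base point, geometric subsets, Kan condition, the map `theta` (definitions, complete)
-/

namespace MM

open Classical

/-! ## Kan complexes, simplices with trivial 1-skeleton -/

/-- every horn extends -/
def IsKan (P : SS) : Prop := ∀ (n : ℕ) (i : Fin (n + 2)), ExtP P (horn (n + 1) i) ⊤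

/-- the simplices all of whose edges (hence vertices) are degenerate at `p0` -/
def Red {P : SS} (p0 : P.S 0) : Sub P :=
  ⟨fun n => {x | ∀ f : Mo 1 n, P.act f x = P.deg p0 1}, fun {m n} g x h f => by
    rw [P.act_comp]; exact h _⟩

/-- partial deformations to `Red` on the subcomplex `B` -/
structure PDef {P : SS} (p0 : P.S 0) (B : Sub P) (h : Fn ((Del 1).prod P) P) : Prop where
  nat : NatOn (Sub.bx (⊤ : Sub (Del 1)) B) h
  zero : ∀ n, ∀ x ∈ B.car n, h n (cst 0, x) = x
  one : ∀ n, ∀ x ∈ B.car n, h n (cst 1, x) ∈ (Red p0).car n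
  fix : ∀ n s, ∀ x ∈ B.car n, x ∈ (Red p0).car n → h n (s, x) = x

/-! ## geometric subsets -/

/-- the subset of the topological simplex corresponding to a subcomplex of `Δ^n` -/
def geo {n : ℕ} (A : Sub (Del n)) : Set (Dtop n) :=
  {t | ∃ (m : ℕ) (α : Mo m n) (s : Dtop m), α ∈ A.car m ∧ tmap α s = t}

/-! ## `WWT j T` as a simplicial set -/

theorem IsWW.mono {j : ℕ} {T T' : Set ℕ} (h : T ⊆ T') {m : ℕ}
    {g : Dtop m × (ℕ → ℝ) → (Fin j → ℝ) × (ℕ → ℝ)} (hg : IsWW j T g) : IsWW j T' g where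
  cont := hg.cont
  fin := by
    obtain ⟨S, hS, h1, h2⟩ := hg.fin
    exact ⟨S, hS.trans h, h1, h2⟩
  bdd := hg.bdd
  ne := hg.ne

/-- a simplex of `WWT j T` -/
def WWT.mk {j : ℕ} {T : Set ℕ} {m : ℕ} (g : Dtop m × (ℕ → ℝ) → (Fin j → ℝ) × (ℕ → ℝ))
    (hg : IsWW j T g) : (WWT j T).ss.S m :=
  ⟨⟨g, hg.mono (Set.subset_univ T)⟩, hg⟩

theorem isWW_zero (j : ℕ) (hj : 1 ≤ j) (T : Set ℕ) (m : ℕ) :
    IsWW j T (fun _ : Dtop m × (ℕ → ℝ) => 0) where
  cont := continuous_const
  fin := ⟨∅, by simp, fun _ _ _ _ => rfl, fun _ _ _ _ => rfl⟩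
  bdd := ⟨0, fun _ _ => ⟨fun i => by simp, fun i => by simp⟩⟩
  ne := by
    rintro t x ⟨h, -⟩
    have := congrFun h ⟨0, hj⟩
    simp [e0] at this

/-- the base point -/
def WWb (j : ℕ) (hj : 1 ≤ j) (T : Set ℕ) : (WWT j T).ss.S 0 := ⟨WW0 j hj, isWW_zero j hj T 0⟩

theorem WWb_deg (j : ℕ) (hj : 1 ≤ j) (T : Set ℕ) (m : ℕ) :
    ((WWT j T).ss.deg (WWb j hj T) m).1.1 = fun _ => 0 := rfl

theorem WWT_act {j : ℕ} {T : Set ℕ} {m n : ℕ} (f : Mo m n) (g : (WWT j T).ss.S n)
    (p : Dtop m × (ℕ → ℝ)) : ((WWT j T).ss.act f g).1.1 p = g.1.1 (tmap f p.1, p.2) := rfl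

/-! ## the map `theta` -/

/-- `1` on `(-∞, 1/2]`, `0` on `[2/3, ∞)` -/
noncomputable def chi1 (x : ℝ) : ℝ := max 0 (min 1 (4 - 6 * x))

/-- `1` on `(-∞, 2/3]`, `0` on `[1, ∞)` -/
noncomputable def chi2 (x : ℝ) : ℝ := max 0 (min 1 (3 - 3 * x))

/-- the cut-off function of the box (centre `v`, inverse size `κ`): inner -/
noncomputable def thA (v κ x : ℕ → ℝ) : ℝ := ∏ᶠ i, chi1 (κ i * |x i - v i|)

/-- outer cut-off -/
noncomputable def thB (v κ x : ℕ → ℝ) : ℝ := ∏ᶠ i, chi2 (κ i * |x i - v i|)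

/-- the contribution of one box with centre `v`, inverse size `κ` and value `y` of the label -/
noncomputable def thS {j : ℕ} (v κ : ℕ → ℝ) (y : (Fin j → ℝ) × (ℕ → ℝ)) (x : ℕ → ℝ) :
    (Fin j → ℝ) × (ℕ → ℝ) :=
  (thA v κ x • y.1, thA v κ x • y.2 - (min 1 (2 * ‖y.1‖) * thB v κ x) • v)

/-- the function of a configuration -/
noncomputable def thF {j : ℕ} {T D : Set ℕ} {m : ℕ}
    (F : Finset ((BX D).S m × (WWT j T).ss.S m)) (p : Dtop m × (ℕ → ℝ)) :
    (Fin j → ℝ) × (ℕ → ℝ) :=
  ∑ q ∈ F, thS (q.1.1.1 p.1) (q.1.1.2 p.1) (q.2.1.1 p) p.2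

/-- the box which is everything -/
def BX.all (D : Set ℕ) (m : ℕ) : (BX D).S m :=
  ⟨(fun _ => 0, fun _ => 0),
    { contv := continuous_const
      contk := continuous_const
      supp := ⟨∅, by simp, fun _ _ _ => ⟨rfl, rfl⟩⟩
      nonneg := fun _ _ => le_rfl }⟩

/-- `g ↦ {(all, g)}` -/
noncomputable def jjF (D : Set ℕ) {W : SS} (w0 : W.S 0) {m : ℕ} (g : W.S m) :
    Finset ((BX D).S m × W.S m) := if g = W.deg w0 m then ∅ else {(BX.all D m, g)}

theorem isTT_jjF (D : Set ℕ) {W : SS} (w0 : W.S 0) {m : ℕ} (g : W.S m) :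
    IsTT D w0 (jjF D w0 g) := by
  unfold jjF
  by_cases h : g = W.deg w0 m
  · rw [if_pos h]
    exact ⟨fun _ h => absurd h (Finset.notMem_empty _),
      fun _ h => absurd h (Finset.notMem_empty _)⟩
  · rw [if_neg h]
    refine ⟨?_, ?_⟩
    · intro p hp
      rw [Finset.mem_singleton] at hp
      rw [hp]; exact h
    · intro p hp q hq hpq
      rw [Finset.mem_singleton] at hp hq
      exact absurd (hp.trans hq.symm) hpq

/-- the inclusion `W → TTb D w0` -/
noncomputable def jj (D : Set ℕ) {W : SS} (w0 : W.S 0) : Hom W (TTb D w0) where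
  app m g := ⟨jjF D w0 g, isTT_jjF D w0 g⟩
  nat {m n} f g := by
    apply Subtype.ext
    show jjF D w0 (W.act f g) = actF D w0 f (jjF D w0 g)
    ext q
    rw [mem_actF]
    unfold jjF
    by_cases h : g = W.deg w0 n
    · have h' : W.act f g = W.deg w0 m := by rw [h, SS.act_deg]
      rw [if_pos h, if_pos h']
      simp
    · by_cases h' : W.act f g = W.deg w0 m
      · rw [if_pos h', if_neg h]
        constructor
        · intro hq; exact absurd hq (Finset.notMem_empty _)
        · rintro ⟨⟨p, hp, rfl⟩, hne⟩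
          rw [Finset.mem_singleton] at hp
          rw [hp] at hne
          exact absurd h' hne
      · rw [if_neg h', if_neg h, Finset.mem_singleton]
        constructor
        · rintro rfl
          exact ⟨⟨(BX.all D n, g), Finset.mem_singleton_self _, rfl⟩, h'⟩
        · rintro ⟨⟨p, hp, rfl⟩, -⟩
          rw [Finset.mem_singleton] at hp
          rw [hp]
          rfl

theorem jj_base (D : Set ℕ) {W : SS} (w0 : W.S 0) :
    (jj D w0).app 0 w0 = TTb.empty D w0 0 := by
  apply Subtype.ext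
  show jjF D w0 w0 = ∅
  unfold jjF
  rw [if_pos]
  show w0 = W.act (cst 0) w0
  have : (cst 0 : Mo 0 0) = OrderHom.id := by
    ext i; simp [cst]
  rw [this, W.act_id]

end MM

end

/-! ### from `Lib_MP_33f7bb_d.B501` -/

section

/-!
# B5-01: points of the topological simplex and faces

`tmap_apply_b` (B4Def): `(tmap f t) i = ∑ j, if f j = i then t j else 0`.

* `tmap_injective`: for injective `ι` the coordinates of `t` are coordinates of `tmap ι t`: `(tmap ι t) (ι j) = t j`.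
* `exists_support`: for `t : Dtop n` let `σ = {i | t i ≠ 0}` (nonempty, as the sum is `1`), `k + 1 = card σ`, `ι : Mo k n` the increasing
  enumeration of `σ` (`Finset.orderEmbOfFin`), `u i = t (ι i)`.  Then `tmap ι u = t` and all coordinates of `u` are nonzero.
* `tmap_eq_common`: let `tmap α s = tmap α' s' = t`.  Apply `exists_support` to `t`, `s`, `s'`: `(ι, u)`, `(δ, r)`, `(δ', r')`.  The
  support of `tmap (α ∘ δ) r = t` is the image of `α ∘ δ` (all coordinates of `r` are positive), and it is the image of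
  `ι`; so `α ∘ δ` factors as `ι ∘ γ` with `γ` monotone (`ι` is an order embedding) and surjective; `tmap ι (tmap γ r) = t =
  tmap ι u`, so `tmap γ r = u` (`tmap_injective`).  Same for `α'`.
* `isClosedEmbedding_tmap`: continuous injective from a compact to a Hausdorff space.
-/

namespace MM

private theorem B501_ext {n : ℕ} {s t : Dtop n}
    (h : ∀ i, (s : Fin (n + 1) → ℝ) i = (t : Fin (n + 1) → ℝ) i) : s = t :=
  Subtype.ext (funext h)

private theorem B501_apply {m n : ℕ} (ι : Mo m n) (hι : Function.Injective ι) (t : Dtop m)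
    (j : Fin (m + 1)) : (tmap ι t : Fin (n + 1) → ℝ) (ι j) = (t : Fin (m + 1) → ℝ) j := by
  rw [tmap_apply_b, Finset.sum_eq_single j]
  · rw [if_pos rfl]
  · intro b _ hb
    rw [if_neg fun h => hb (hι h)]
  · intro h
    exact absurd (Finset.mem_univ j) h

private theorem B501_zero {m n : ℕ} (f : Mo m n) (t : Dtop m) (i : Fin (n + 1))
    (h : ∀ j, f j ≠ i) : (tmap f t : Fin (n + 1) → ℝ) i = 0 := by
  rw [tmap_apply_b]
  exact Finset.sum_eq_zero fun j _ => if_neg (h j)

private theorem B501_ne {m n : ℕ} (f : Mo m n) (r : Dtop m)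
    (hr : ∀ i, (r : Fin (m + 1) → ℝ) i ≠ 0) (j : Fin (m + 1)) :
    (tmap f r : Fin (n + 1) → ℝ) (f j) ≠ 0 := by
  rw [tmap_apply_b]
  intro h
  rw [Finset.sum_eq_zero_iff_of_nonneg] at h
  · have := h j (Finset.mem_univ j)
    rw [if_pos rfl] at this
    exact hr j this
  · intro i _
    split_ifs
    · exact r.2.1 i
    · exact le_rfl

private theorem B501_mem {m n : ℕ} (f : Mo m n) (r : Dtop m) (i : Fin (n + 1))
    (h : (tmap f r : Fin (n + 1) → ℝ) i ≠ 0) : ∃ j, f j = i := by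
  by_contra hc
  exact h (B501_zero f r i fun j hj => hc ⟨j, hj⟩)

theorem tmap_injective {m n : ℕ} (ι : Mo m n) (hι : Function.Injective ι) :
    Function.Injective (tmap ι) := by
  intro s t h
  refine B501_ext fun i => ?_
  rw [← B501_apply ι hι s i, ← B501_apply ι hι t i, h]

theorem exists_support {n : ℕ} (t : Dtop n) :
    ∃ (k : ℕ) (ι : Mo k n) (u : Dtop k), Function.Injective ι ∧ tmap ι u = t ∧
      ∀ i, (u : Fin (k + 1) → ℝ) i ≠ 0 := by
  classical
  set σ : Finset (Fin (n + 1)) := Finset.univ.filter fun i => (t : Fin (n + 1) → ℝ) i ≠ 0 with hσ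
  have hsum : ∑ i ∈ σ, (t : Fin (n + 1) → ℝ) i = 1 := by
    rw [hσ, Finset.sum_filter_ne_zero]
    exact t.2.2
  have hne : σ.card ≠ 0 := by
    intro h0
    rw [Finset.card_eq_zero] at h0
    rw [h0, Finset.sum_empty] at hsum
    exact zero_ne_one hsum
  obtain ⟨k, hk⟩ := Nat.exists_eq_succ_of_ne_zero hne
  have hk' : σ.card = k + 1 := hk
  set e : Fin (k + 1) ↪o Fin (n + 1) := σ.orderEmbOfFin hk' with he
  have hmem : ∀ i, e i ∈ σ := fun i => Finset.orderEmbOfFin_mem σ hk' i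
  have himg : Finset.univ.image (fun i => e i) = σ := by
    rw [he]
    exact Finset.image_orderEmbOfFin_univ σ hk'
  have hu : (fun i => (t : Fin (n + 1) → ℝ) (e i)) ∈ stdSimplex ℝ (Fin (k + 1)) := by
    refine ⟨fun i => t.2.1 _, ?_⟩
    rw [← hsum, ← himg, Finset.sum_image fun a _ b _ h => e.injective h]
  refine ⟨k, ⟨fun i => e i, e.monotone⟩, ⟨_, hu⟩, e.injective, ?_, ?_⟩
  · refine B501_ext fun i => ?_
    by_cases hi : i ∈ σ
    · rw [← himg, Finset.mem_image] at hi
      obtain ⟨j, _, rfl⟩ := hi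
      exact B501_apply (⟨fun i => e i, e.monotone⟩ : Mo k n) e.injective ⟨_, hu⟩ j
    · rw [B501_zero]
      · rw [hσ, Finset.mem_filter] at hi
        by_contra hc
        exact hi ⟨Finset.mem_univ _, fun h => hc h.symm⟩
      · rintro j rfl
        exact hi (hmem j)
  · intro i
    have := hmem i
    rw [hσ, Finset.mem_filter] at this
    exact this.2

private theorem B501_factor {l k n : ℕ} (f : Mo l n) (ι : Mo k n) (hι : Function.Injective ι)
    (r : Dtop l) (u : Dtop k) (hr : ∀ i, (r : Fin (l + 1) → ℝ) i ≠ 0)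
    (hu : ∀ i, (u : Fin (k + 1) → ℝ) i ≠ 0) (h : tmap f r = tmap ι u) :
    ∃ γ : Mo l k, f = ι.comp γ ∧ tmap γ r = u ∧ Function.Surjective γ := by
  have h1 : ∀ j, ∃ i, ι i = f j := fun j => B501_mem ι u (f j) (by
    rw [← h]
    exact B501_ne f r hr j)
  choose g hg using h1
  have hmono : StrictMono ι := ι.monotone.strictMono_of_injective hι
  have hgm : Monotone g := by
    intro a b hab
    rw [← hmono.le_iff_le, hg, hg]
    exact f.monotone hab
  set γ : Mo l k := ⟨g, hgm⟩ with hγ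
  have hf : f = ι.comp γ := by
    refine OrderHom.ext _ _ (funext fun j => ?_)
    exact (hg j).symm
  refine ⟨γ, hf, ?_, ?_⟩
  · apply tmap_injective ι hι
    rw [tmap_comp, ← hf, h]
  · intro i
    obtain ⟨j, hj⟩ := B501_mem f r (ι i) (by
      rw [h]
      exact B501_ne ι u hu i)
    exact ⟨j, hι (by
      rw [← hj]
      exact hg j)⟩

theorem tmap_eq_common {m m' n : ℕ} (α : Mo m n) (α' : Mo m' n) (s : Dtop m) (s' : Dtop m')
    (h : tmap α s = tmap α' s') :
    ∃ (k l l' : ℕ) (ι : Mo k n) (u : Dtop k) (δ : Mo l m) (δ' : Mo l' m') (γ : Mo l k)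
      (γ' : Mo l' k) (r : Dtop l) (r' : Dtop l'), tmap δ r = s ∧ tmap δ' r' = s' ∧
      α.comp δ = ι.comp γ ∧ α'.comp δ' = ι.comp γ' ∧ tmap γ r = u ∧ tmap γ' r' = u ∧
      Function.Surjective γ ∧ Function.Surjective γ' := by
  obtain ⟨k, ι, u, hι, hu, hune⟩ := exists_support (tmap α s)
  obtain ⟨l, δ, r, -, hδ, hr⟩ := exists_support s
  obtain ⟨l', δ', r', -, hδ', hr'⟩ := exists_support s'
  obtain ⟨γ, h1, h2, h3⟩ := B501_factor (α.comp δ) ι hι r u hr hune (by
    rw [← tmap_comp, hδ, hu])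
  obtain ⟨γ', h1', h2', h3'⟩ := B501_factor (α'.comp δ') ι hι r' u hr' hune (by
    rw [← tmap_comp, hδ', hu, h])
  exact ⟨k, l, l', ι, u, δ, δ', γ, γ', r, r', hδ, hδ', h1, h1', h2, h2', h3, h3'⟩

theorem isClosedEmbedding_tmap {m n : ℕ} (ι : Mo m n) (hι : Function.Injective ι) :
    Topology.IsClosedEmbedding (tmap ι) := by
  have : CompactSpace (Dtop m) := isCompact_iff_compactSpace.1 (isCompact_stdSimplex _ _)
  exact (tmap ι).continuous.isClosedEmbedding (tmap_injective ι hι)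

/-- `geo A` is the union of the images of the injective faces in `A` -/
theorem mem_geo_iff {n : ℕ} (A : Sub (Del n)) (t : Dtop n) :
    t ∈ geo A ↔ ∃ (m : ℕ) (α : Mo m n) (s : Dtop m), m ≤ n ∧ Function.Injective α ∧ α ∈ A.car m ∧
      tmap α s = t := by
  constructor
  · rintro ⟨m, α, s, hα, rfl⟩
    obtain ⟨k, ι, u, hι, hu, hune⟩ := exists_support (tmap α s)
    obtain ⟨l, δ, r, -, hδ, hr⟩ := exists_support s
    obtain ⟨γ, h1, h2, h3⟩ := B501_factor (α.comp δ) ι hι r u hr hune (by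
      rw [← tmap_comp, hδ, hu])
    have hsec : ∃ ε : Mo k l, γ.comp ε = OrderHom.id := by
      choose e he using h3
      refine ⟨⟨e, fun a b hab => ?_⟩, OrderHom.ext _ _ (funext fun i => he i)⟩
      by_contra hc
      have h4 := γ.monotone (le_of_not_ge hc)
      rw [he, he] at h4
      exact hc (by rw [le_antisymm hab h4])
    obtain ⟨ε, hε⟩ := hsec
    refine ⟨k, ι, u, ?_, hι, ?_, hu⟩
    · have := Fintype.card_le_of_injective ι hι
      rw [Fintype.card_fin, Fintype.card_fin] at this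
      omega
    · have h5 : ι = α.comp (δ.comp ε) := by
        have h6 : (α.comp δ).comp ε = (ι.comp γ).comp ε := by rw [h1]
        have h7 : (ι.comp γ).comp ε = ι.comp (γ.comp ε) := rfl
        rw [h7, hε] at h6
        exact h6.symm
      rw [h5]
      exact A.closed (δ.comp ε) hα
  · rintro ⟨m, α, s, -, -, hα, h⟩
    exact ⟨m, α, s, hα, h⟩

theorem geo_horn (n : ℕ) (i : Fin (n + 2)) :
    geo (horn (n + 1) i) = {t : Dtop (n + 1) | ∃ j, j ≠ i ∧ (t : Fin (n + 2) → ℝ) j = 0} := by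
  refine Set.ext fun t => ?_
  constructor
  · rintro ⟨m, α, s, ⟨j, hj, h⟩, rfl⟩
    exact ⟨j, hj, B501_zero α s j h⟩
  · rintro ⟨j, hj, h⟩
    obtain ⟨k, ι, u, hι, hu, hune⟩ := exists_support t
    refine ⟨k, ι, u, ⟨j, hj, fun a ha => ?_⟩, hu⟩
    rw [← hu, ← ha] at h
    exact B501_ne ι u hune a h

theorem geo_bd (n : ℕ) : geo (bd n) = {t : Dtop n | ∃ i, (t : Fin (n + 1) → ℝ) i = 0} := by
  refine Set.ext fun t => ?_
  constructor
  · rintro ⟨m, α, s, hα, rfl⟩
    have hα' : ¬ Function.Surjective α := hα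
    unfold Function.Surjective at hα'
    push Not at hα'
    obtain ⟨i, hi⟩ := hα'
    exact ⟨i, B501_zero α s i hi⟩
  · rintro ⟨j, h⟩
    obtain ⟨k, ι, u, hι, hu, hune⟩ := exists_support t
    refine ⟨k, ι, u, fun hs => ?_, hu⟩
    obtain ⟨a, ha⟩ := hs j
    rw [← hu, ← ha] at h
    exact B501_ne ι u hune a h

end MM

end

/-! ### from `Lib_MP_33f7bb_d.B502` -/

section

/-!
# B5-02: gluing: a simplicial map from a subcomplex `A` of `Δ^n` to `WWT j T` is a function on `geo A`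

`G (t, x) := (f m α).1.1 (s, x)` for a choice of `(m, α, s)` with `α ∈ A`, `tmap α s = t` (`0` outside `geo A`).
Well defined: if `tmap α s = tmap α' s'` take the data of `tmap_eq_common` (B501).  `ι ∈ A` since `ι.comp γ = α.comp δ ∈ A` and
`γ` has a section (`exists_section`).  By naturality of `f` on `A` and `WWT_act`:
`(f m α)(s, x) = (f m α)(tmap δ r, x) = (f l (α ∘ δ))(r, x) = (f l (ι ∘ γ))(r, x) = (f k ι)(tmap γ r, x) = (f k ι)(u, x)`, and the
same for `α'`.
Continuity on `{p | p.1 ∈ geo A}`: by `mem_geo_iff` this set is the union of the finitely many closed sets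
`range (tmap α) ×ˢ univ` (`m ≤ n`, `α ∈ A` injective; `Mo m n` is finite); on each of them `G ∘ (tmap α × id) = f m α` is
continuous and `tmap α × id` is a closed embedding (`isClosedEmbedding_tmap`, `IsClosedEmbedding.prodMap`), so `G` is
continuous on it; conclude by `LocallyFinite.continuousOn_iUnion` or a finite induction with
`ContinuousOn.union_of_isClosed`.
`S`: union of the finite sets of the finitely many injective faces; `C`: maximum of the bounds (and `0`).  All other properties are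
inherited from `f m α` (for `m ≤ n`, `α` injective).
-/

namespace MM

/-- the glued function is well defined -/
private theorem B502_comp {j : ℕ} {T : Set ℕ} {n : ℕ} {A : Sub (Del n)}
    {f : Fn (Del n) (WWT j T).ss} (hf : NatOn A f) {m m' : ℕ} {α : Mo m n} {α' : Mo m' n}
    (hα : α ∈ A.car m) (hα' : α' ∈ A.car m') {s : Dtop m} {s' : Dtop m'}
    (h : tmap α s = tmap α' s') (x : ℕ → ℝ) :
    (f m α).1.1 (s, x) = (f m' α').1.1 (s', x) := by
  obtain ⟨k, l, l', ι, u, δ, δ', γ, γ', r, r', hr, hr', hδ, hδ', hu, hu', sγ, -⟩ :=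
    tmap_eq_common α α' s s' h
  obtain ⟨τ, hτ⟩ := exists_section γ sγ
  have hι : ι ∈ A.car k := by
    have h1 : α.comp δ ∈ A.car l := A.closed δ hα
    have h2 : (α.comp δ).comp τ ∈ A.car k := A.closed τ h1
    have h3 : (α.comp δ).comp τ = ι := by
      rw [hδ, OrderHom.comp_assoc, hτ, OrderHom.comp_id]
    rwa [h3] at h2
  have key : ∀ (m₁ l₁ : ℕ) (α₁ : Mo m₁ n) (δ₁ : Mo l₁ m₁) (γ₁ : Mo l₁ k) (r₁ : Dtop l₁)
      (s₁ : Dtop m₁), α₁ ∈ A.car m₁ → tmap δ₁ r₁ = s₁ → α₁.comp δ₁ = ι.comp γ₁ →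
      tmap γ₁ r₁ = u → (f m₁ α₁).1.1 (s₁, x) = (f k ι).1.1 (u, x) := by
    intro m₁ l₁ α₁ δ₁ γ₁ r₁ s₁ h1 h2 h3 h4
    have e1 : f l₁ (α₁.comp δ₁) = (WWT j T).ss.act δ₁ (f m₁ α₁) := hf δ₁ α₁ h1
    have e2 : f l₁ (ι.comp γ₁) = (WWT j T).ss.act γ₁ (f k ι) := hf γ₁ ι hι
    have e3 : ((WWT j T).ss.act δ₁ (f m₁ α₁)).1.1 (r₁, x) =
        ((WWT j T).ss.act γ₁ (f k ι)).1.1 (r₁, x) := by rw [← e1, ← e2, h3]
    rw [WWT_act, WWT_act] at e3
    rw [← h2, ← h4]
    exact e3
  rw [key m l α δ γ r s hα hr hδ hu, key m' l' α' δ' γ' r' s' hα' hr' hδ' hu']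

open Classical in
/-- the glued function -/
private noncomputable def B502_G {j : ℕ} {T : Set ℕ} {n : ℕ} (A : Sub (Del n))
    (f : Fn (Del n) (WWT j T).ss) (p : Dtop n × (ℕ → ℝ)) : (Fin j → ℝ) × (ℕ → ℝ) :=
  if h : p.1 ∈ geo A then
    (f h.choose h.choose_spec.choose).1.1 (h.choose_spec.choose_spec.choose, p.2)
  else 0

private theorem B502_G_eq {j : ℕ} {T : Set ℕ} {n : ℕ} {A : Sub (Del n)}
    {f : Fn (Del n) (WWT j T).ss} (hf : NatOn A f) (m : ℕ) (α : Mo m n) (hα : α ∈ A.car m)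
    (s : Dtop m) (x : ℕ → ℝ) : B502_G A f (tmap α s, x) = (f m α).1.1 (s, x) := by
  have h : tmap α s ∈ geo A := ⟨m, α, s, hα, rfl⟩
  have h1 := h.choose_spec.choose_spec.choose_spec
  have h2 : B502_G A f (tmap α s, x) =
      (f h.choose h.choose_spec.choose).1.1 (h.choose_spec.choose_spec.choose, x) := dif_pos h
  rw [h2]
  exact B502_comp hf h1.1 hα h1.2 x

/-- continuity on the image of a closed embedding -/
private theorem B502_contOn {X Y Z : Type} [TopologicalSpace X] [TopologicalSpace Y]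
    [TopologicalSpace Z] {e : X → Y} (he : Topology.IsClosedEmbedding e) {G : Y → Z}
    (h : Continuous fun x => G (e x)) : ContinuousOn G (Set.range e) := by
  rw [continuousOn_iff_continuous_domRestrict]
  rw [← he.isEmbedding.toHomeomorph.comp_continuous_iff']
  exact h

/-- the injective faces in `A` -/
private abbrev B502_I {n : ℕ} (A : Sub (Del n)) : Type :=
  Σ m : Fin (n + 1), {α : Mo m n // α ∈ A.car m ∧ Function.Injective α}

private theorem B502_mem {n : ℕ} {A : Sub (Del n)} {t : Dtop n} (h : t ∈ geo A) :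
    ∃ (i : B502_I A) (s : Dtop i.1), tmap i.2.1 s = t := by
  obtain ⟨m, α, s, hm, hi, hα, rfl⟩ := (mem_geo_iff A t).1 h
  exact ⟨⟨⟨m, Nat.lt_succ_of_le hm⟩, ⟨α, hα, hi⟩⟩, s, rfl⟩

theorem ww_glue {j : ℕ} {T : Set ℕ} {n : ℕ} (A : Sub (Del n)) (f : Fn (Del n) (WWT j T).ss)
    (hf : NatOn A f) :
    ∃ (G : Dtop n × (ℕ → ℝ) → (Fin j → ℝ) × (ℕ → ℝ)) (S : Finset ℕ) (C : ℝ),
      (S : Set ℕ) ⊆ T ∧ ContinuousOn G {p | p.1 ∈ geo A} ∧
      (∀ m (α : Mo m n), α ∈ A.car m → ∀ s x, G (tmap α s, x) = (f m α).1.1 (s, x)) ∧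
      (∀ t ∈ geo A, ∀ x y, (∀ i ∈ S, x i = y i) → G (t, x) = G (t, y)) ∧
      (∀ t ∈ geo A, ∀ x, ∀ i ∉ S, (G (t, x)).2 i = 0) ∧
      (∀ t ∈ geo A, ∀ x, (∀ i, |(G (t, x)).1 i| ≤ C) ∧ ∀ i, |(G (t, x)).2 i| ≤ C) ∧
      ∀ t ∈ geo A, ∀ x, ¬ (e0 j + (G (t, x)).1 = 0 ∧ x + (G (t, x)).2 = 0) := by
  classical
  have hfin : ∀ i : B502_I A, IsWW j T (f i.1 i.2.1).1.1 := fun i => (f i.1 i.2.1).2
  choose S hS hS1 hS2 using fun i : B502_I A => (hfin i).fin
  choose C hC using fun i : B502_I A => (hfin i).bdd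
  have hle : ∀ i, C i ≤ ∑ i, |C i| := fun i =>
    (le_abs_self _).trans (Finset.single_le_sum (f := fun i => |C i|)
      (fun _ _ => abs_nonneg _) (Finset.mem_univ i))
  have hG : ∀ (i : B502_I A) (s : Dtop i.1) (x : ℕ → ℝ),
      B502_G A f (tmap i.2.1 s, x) = (f i.1 i.2.1).1.1 (s, x) := fun i s x =>
    B502_G_eq hf i.1 i.2.1 i.2.2.1 s x
  have hSi : ∀ i k, k ∈ S i → k ∈ Finset.univ.biUnion S := fun i k hk =>
    Finset.mem_biUnion.2 ⟨i, Finset.mem_univ i, hk⟩
  refine ⟨B502_G A f, Finset.univ.biUnion S, ∑ i, |C i|, ?_, ?_, B502_G_eq hf, ?_, ?_, ?_, ?_⟩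
  · intro k hk
    obtain ⟨i, -, hi⟩ := Finset.mem_biUnion.1 (Finset.mem_coe.1 hk)
    exact hS i (Finset.mem_coe.2 hi)
  · have hset : {p : Dtop n × (ℕ → ℝ) | p.1 ∈ geo A} =
        ⋃ i : B502_I A, Set.range (Prod.map (tmap i.2.1) (id : (ℕ → ℝ) → (ℕ → ℝ))) := by
      ext p
      rw [Set.mem_iUnion]
      constructor
      · intro hp
        obtain ⟨i, s, hs⟩ := B502_mem hp
        exact ⟨i, (s, p.2), Prod.ext hs rfl⟩
      · rintro ⟨i, q, rfl⟩
        exact ⟨i.1, i.2.1, q.1, i.2.2.1, rfl⟩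
    rw [hset]
    have hcl : ∀ i : B502_I A, Topology.IsClosedEmbedding
        (Prod.map (tmap i.2.1) (id : (ℕ → ℝ) → (ℕ → ℝ))) := fun i =>
      (isClosedEmbedding_tmap i.2.1 i.2.2.2).prodMap Topology.IsClosedEmbedding.id
    refine LocallyFinite.continuousOn_iUnion (locallyFinite_of_finite _)
      (fun i => (hcl i).isClosed_range) fun i => B502_contOn (hcl i) ?_
    have h1 : (fun q : Dtop i.1 × (ℕ → ℝ) =>
        B502_G A f (Prod.map (tmap i.2.1) (id : (ℕ → ℝ) → (ℕ → ℝ)) q)) =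
        (f i.1 i.2.1).1.1 := funext fun q => hG i q.1 q.2
    rw [h1]
    exact (hfin i).cont
  · intro t ht x y hxy
    obtain ⟨i, s, rfl⟩ := B502_mem ht
    rw [hG, hG]
    exact hS1 i s x y fun k hk => hxy k (hSi i k hk)
  · intro t ht x k hk
    obtain ⟨i, s, rfl⟩ := B502_mem ht
    rw [hG]
    exact hS2 i s x k fun h => hk (hSi i k h)
  · intro t ht x
    obtain ⟨i, s, rfl⟩ := B502_mem ht
    rw [hG]
    exact ⟨fun k => ((hC i s x).1 k).trans (hle i), fun k => ((hC i s x).2 k).trans (hle i)⟩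
  · intro t ht x
    obtain ⟨i, s, rfl⟩ := B502_mem ht
    rw [hG]
    exact (hfin i).ne s x

/-- a function on the whole simplex which agrees with the glued function gives an extension -/
theorem ww_ext_of_glue {j : ℕ} {T : Set ℕ} {n : ℕ} {A : Sub (Del n)} {f : Fn (Del n) (WWT j T).ss}
    {G : Dtop n × (ℕ → ℝ) → (Fin j → ℝ) × (ℕ → ℝ)}
    (hG : ∀ m (α : Mo m n), α ∈ A.car m → ∀ s x, G (tmap α s, x) = (f m α).1.1 (s, x))
    (G' : Dtop n × (ℕ → ℝ) → (Fin j → ℝ) × (ℕ → ℝ)) (hG' : IsWW j T G')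
    (h : ∀ t ∈ geo A, ∀ x, G' (t, x) = G (t, x)) :
    ∃ g : Fn (Del n) (WWT j T).ss, NatOn ⊤ g ∧ ∀ m, ∀ x ∈ A.car m, g m x = f m x := by
  refine ⟨(SS.yo (P := (WWT j T).ss) (WWT.mk G' hG')).app, fun {m k} g x _ =>
    (SS.yo (P := (WWT j T).ss) (WWT.mk G' hG')).nat g x, ?_⟩
  intro m α hα
  refine Subtype.ext (Subtype.ext (funext fun p => ?_))
  show G' (tmap α p.1, p.2) = _
  rw [h _ ⟨m, α, p.1, hα, rfl⟩, hG m α hα]

end MM

end

/-! ### from `Lib_MP_33f7bb_d.B503` -/

section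

/-!
# B5-03 (W1): `WWT j T` is a Kan complex

Retraction of `Dtop (n+1)` onto `geo (horn (n+1) i)` (`geo_horn`): let `μ t = min over j ≠ i of t j` (`Finset.inf'`, continuous), and
`(r t) j = t j - μ t` for `j ≠ i`, `(r t) i = t i + (n + 1) * μ t`.  It is in the simplex (sum `1`, nonnegative), continuous, some
coordinate `j ≠ i` is `0`, and `r t = t` if some coordinate `t j`, `j ≠ i`, is `0` (then `μ t = 0`).
Given `f` natural on the horn take `G, S, C` from `ww_glue` and `G' (t, x) := G (r t, x)`: it is `IsWW` (continuity: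
`ContinuousOn.comp_continuous`), and equals `G` on `geo (horn (n+1) i)`.  Conclude by `ww_ext_of_glue`.
-/

namespace MM

section B503

variable {n : ℕ} (i : Fin (n + 2))

private theorem B503_ne : (Finset.univ.erase i : Finset (Fin (n + 2))).Nonempty := by
  rcases eq_or_ne i 0 with h | h
  · refine ⟨1, Finset.mem_erase.2 ⟨?_, Finset.mem_univ _⟩⟩
    rw [h]
    exact Fin.one_pos.ne'
  · exact ⟨0, Finset.mem_erase.2 ⟨h.symm, Finset.mem_univ _⟩⟩

/-- the minimum of the coordinates different from `i` -/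
private noncomputable def B503_mu (t : Dtop (n + 1)) : ℝ :=
  (Finset.univ.erase i).inf' (B503_ne i) fun j => t.1 j

private theorem B503_mu_cont : Continuous (B503_mu i) :=
  Continuous.finset_inf'_apply (B503_ne i) fun j _ => (continuous_apply j).comp continuous_subtype_val

private theorem B503_mu_nonneg (t : Dtop (n + 1)) : 0 ≤ B503_mu i t :=
  Finset.le_inf' (B503_ne i) _ fun j _ => t.2.1 j

private theorem B503_mu_le (t : Dtop (n + 1)) {j : Fin (n + 2)} (hj : j ≠ i) :
    B503_mu i t ≤ t.1 j :=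
  Finset.inf'_le _ (Finset.mem_erase.2 ⟨hj, Finset.mem_univ _⟩)

private theorem B503_mu_eq (t : Dtop (n + 1)) : ∃ j, j ≠ i ∧ B503_mu i t = t.1 j := by
  obtain ⟨j, hj, h⟩ := Finset.exists_mem_eq_inf' (B503_ne i) fun j => t.1 j
  exact ⟨j, (Finset.mem_erase.1 hj).1, h⟩

/-- the coordinates of the retraction -/
private noncomputable def B503_rf (t : Dtop (n + 1)) (j : Fin (n + 2)) : ℝ :=
  t.1 j - B503_mu i t + if j = i then ((n : ℝ) + 2) * B503_mu i t else 0

private theorem B503_rf_mem (t : Dtop (n + 1)) : B503_rf i t ∈ stdSimplex ℝ (Fin (n + 2)) := by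
  constructor
  · intro j
    have h0 := B503_mu_nonneg i t
    by_cases hj : j = i
    · have h1 := t.2.1 j
      have h2 : 0 ≤ (n : ℝ) * B503_mu i t := mul_nonneg (Nat.cast_nonneg n) h0
      rw [B503_rf, if_pos hj]
      nlinarith
    · have h1 := B503_mu_le i t hj
      rw [B503_rf, if_neg hj]
      linarith
  · have h1 : ∑ j, t.1 j = 1 := t.2.2
    show ∑ j, (t.1 j - B503_mu i t + if j = i then ((n : ℝ) + 2) * B503_mu i t else 0) = 1
    rw [Finset.sum_add_distrib, Finset.sum_sub_distrib, h1, Finset.sum_ite_eq' Finset.univ i,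
      if_pos (Finset.mem_univ i), Finset.sum_const, Finset.card_univ, Fintype.card_fin,
      nsmul_eq_mul]
    push_cast
    ring

/-- the retraction onto the horn -/
private noncomputable def B503_r (t : Dtop (n + 1)) : Dtop (n + 1) := ⟨B503_rf i t, B503_rf_mem i t⟩

private theorem B503_r_cont : Continuous (B503_r i) := by
  refine Continuous.subtype_mk (continuous_pi fun j => ?_) _
  have h1 : Continuous fun t : Dtop (n + 1) => t.1 j :=
    (continuous_apply j).comp continuous_subtype_val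
  have h2 := B503_mu_cont i
  show Continuous fun t : Dtop (n + 1) =>
    t.1 j - B503_mu i t + if j = i then ((n : ℝ) + 2) * B503_mu i t else 0
  by_cases hj : j = i
  · simp only [if_pos hj]
    exact (h1.sub h2).add (continuous_const.mul h2)
  · simp only [if_neg hj]
    exact (h1.sub h2).add continuous_const

private theorem B503_horn (t : Dtop (n + 1)) :
    t ∈ geo (horn (n + 1) i) ↔ ∃ j, j ≠ i ∧ t.1 j = 0 := by
  constructor
  · rintro ⟨m, α, s, ⟨j, hj, hα⟩, rfl⟩
    refine ⟨j, hj, ?_⟩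
    have h := tmap_apply_b α s j
    refine h.trans (Finset.sum_eq_zero fun k _ => ?_)
    rw [if_neg (hα k)]
  · rintro ⟨j, hj, h⟩
    obtain ⟨k, ι, u, hι, hu, hne⟩ := exists_support t
    refine ⟨k, ι, u, ⟨j, hj, fun l hl => hne l ?_⟩, hu⟩
    have h1 := tmap_apply_b ι u (ι l)
    rw [Finset.sum_eq_single l (fun b _ hb => if_neg fun he => hb (hι he))
      (fun h => absurd (Finset.mem_univ l) h), if_pos rfl, hu, hl] at h1
    exact h1.symm.trans h

private theorem B503_r_mem (t : Dtop (n + 1)) : B503_r i t ∈ geo (horn (n + 1) i) := by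
  rw [B503_horn]
  obtain ⟨j, hj, h⟩ := B503_mu_eq i t
  refine ⟨j, hj, ?_⟩
  show t.1 j - B503_mu i t + (if j = i then ((n : ℝ) + 2) * B503_mu i t else 0) = 0
  rw [if_neg hj, h, sub_self, add_zero]

private theorem B503_r_eq {t : Dtop (n + 1)} (ht : t ∈ geo (horn (n + 1) i)) : B503_r i t = t := by
  rw [B503_horn] at ht
  obtain ⟨j, hj, h'⟩ := ht
  have h0 : B503_mu i t = 0 := le_antisymm ((B503_mu_le i t hj).trans h'.le) (B503_mu_nonneg i t)
  apply Subtype.ext
  funext k
  show t.1 k - B503_mu i t + (if k = i then ((n : ℝ) + 2) * B503_mu i t else 0) = t.1 k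
  rw [h0, mul_zero, ite_self, sub_zero, add_zero]

end B503

theorem ww_kan (j : ℕ) (T : Set ℕ) : IsKan (WWT j T).ss := by
  intro n i f hf
  obtain ⟨G, S, C, hS, hc, hG, h1, h2, hb, hne⟩ := ww_glue (horn (n + 1) i) f hf
  refine ww_ext_of_glue hG (fun p => G (B503_r i p.1, p.2)) ⟨?_, ?_, ?_, ?_⟩ ?_
  · exact hc.comp_continuous (((B503_r_cont i).comp continuous_fst).prodMk continuous_snd)
      fun p => B503_r_mem i p.1
  · exact ⟨S, hS, fun t x y h => h1 _ (B503_r_mem i t) x y h,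
      fun t x k hk => h2 _ (B503_r_mem i t) x k hk⟩
  · exact ⟨C, fun t x => hb _ (B503_r_mem i t) x⟩
  · exact fun t x => hne _ (B503_r_mem i t) x
  · intro t ht x
    show G (B503_r i t, x) = G (t, x)
    rw [B503_r_eq i ht]

end MM

end

/-! ### from `Lib_MP_33f7bb_d.B507` -/

section

/-!
# B5-07: prism filling in a Kan complex

Extension from `A := {0} × Δ^n ∪ Δ^1 × ∂Δ^n` to `Δ^1 × Δ^n`.
For `k ≤ n + 1` let `L_k := {(s, β) | ∀ i, s i = 1 → k ≤ β i}` (a subcomplex) and `F_k := A ⊔ L_k`.  `F_(n+1) = A` (if `s i = 1` for some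
`i` then `β i ≥ n + 1` is impossible, so `s = cst 0`), `F_0 = ⊤`.  By descending induction it suffices:
`ExtP P F_(k+1) F_k` for `k ≤ n`.  This follows from `ExtP.relIso` (B1A) and `hP n k` (`IsKan`) for the relative isomorphism
`φ : Del (n+1) → Δ^1 × Δ^n`, `φ γ = (s_k ∘ γ, sgm k ∘ γ)`, `s_k i = 1 iff k + 1 ≤ i`, from `(horn (n+1) k, ⊤)` to `(F_(k+1), F_k)`:
* `φ γ ∈ L_k`: if `γ i ≥ k + 1` then `sgm k (γ i) = γ i - 1 ≥ k`.
* `γ ∈ horn (n+1) k` (it misses some `j ≠ k`) iff `φ γ ∈ F_(k+1)`: if `γ` misses `j ≠ k, k+1`, then `sgm k ∘ γ` misses `sgm k j`; if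
  `γ` misses `k + 1` then `φ γ ∈ L_(k+1)`.  Conversely if `γ` hits every `j ≠ k` then `sgm k ∘ γ` is surjective
  (`sgm k (k+1) = k`), `s_k ∘ γ ≠ cst 0` and the simplex is not in `L_(k+1)` (at an index with `γ i = k + 1`).
* `φ` is injective: `(s_k, sgm k)` is injective on `[n+1]`.
* `φ` is surjective onto `F_k \ F_(k+1)`: let `(s, β) ∈ L_k`, not in `A`, not in `L_(k+1)`: some `i0` has `s i0 = 1`, `β i0 = k`; if
  `s i = 0` then `i < i0` so `β i ≤ k`.  Take `γ i = β i` if `s i = 0`, `β i + 1` if `s i = 1`.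

`kan_square`: `A' := ∂Δ^1 × Δ^1 ∪ Δ^1 × ∂Δ^1`.  With the same notation (`n = 1`): `φ` for `k = 1` is a relative isomorphism from
`(horn 2 1, ⊤)` to `(A', A' ⊔ L_1)`, and `φ` for `k = 0` is one from `(bd 2, ⊤)` to `(A' ⊔ L_1, ⊤)` (now `γ ∈ bd 2` iff `γ` misses
`0`, `1` or `2`: `φ γ` is then in `{cst 1} × Δ^1`, in `L_1`, in `Δ^1 × {cst 0}` respectively... check: for `k = 0`: vertices of the
triangle: `(0,0), (1,0), (1,1)`; missing `0`: level `1`, in `A'`; missing `1`: `(0,0),(1,1)`: in `L_1`; missing `2`: `β = cst 0`: in `A'`).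
-/

namespace MM

private theorem B507_sgm {n : ℕ} (k : Fin (n + 1)) (j : Fin (n + 2)) :
    ((sgm k j : Fin (n + 1)) : ℕ) = if (k : ℕ) < (j : ℕ) then (j : ℕ) - 1 else (j : ℕ) := by
  show ((Fin.predAbove k j : Fin (n + 1)) : ℕ) = _
  by_cases h : k.castSucc < j
  · rw [Fin.predAbove_of_castSucc_lt _ _ h]
    have h' : (k : ℕ) < (j : ℕ) := h
    rw [if_pos h']
    rfl
  · rw [Fin.predAbove_of_le_castSucc _ _ (not_lt.1 h)]
    have h' : ¬ (k : ℕ) < (j : ℕ) := h
    rw [if_neg h']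
    rfl

/-- the first coordinate -/
private def B507_s {n : ℕ} (k : Fin (n + 1)) : Mo (n + 1) 1 :=
  ⟨fun i => if (k : ℕ) < (i : ℕ) then 1 else 0, fun a b hab => by
    have hab' : (a : ℕ) ≤ (b : ℕ) := hab
    by_cases h : (k : ℕ) < (a : ℕ)
    · have h2 : (k : ℕ) < (b : ℕ) := lt_of_lt_of_le h hab'
      simp only [if_pos h, if_pos h2]
      exact le_rfl
    · simp only [if_neg h]
      exact Fin.zero_le _⟩

private theorem B507_s_val {n : ℕ} (k : Fin (n + 1)) (j : Fin (n + 2)) :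
    ((B507_s k j : Fin 2) : ℕ) = if (k : ℕ) < (j : ℕ) then 1 else 0 := by
  show (((if (k : ℕ) < (j : ℕ) then 1 else 0 : Fin 2)) : ℕ) = _
  split_ifs <;> rfl

/-- the map `φ` -/
private def B507_phi {n : ℕ} (k : Fin (n + 1)) : Hom (Del (n + 1)) ((Del 1).prod (Del n)) where
  app _ γ := ((B507_s k).comp γ, (sgm k).comp γ)
  nat _ _ := rfl

/-- the subcomplex `L_k` -/
private def B507_L (n k : ℕ) : Sub ((Del 1).prod (Del n)) :=
  ⟨fun _ => {x | ∀ i, ((x.1 i : Fin 2) : ℕ) = 1 → k ≤ ((x.2 i : Fin (n + 1)) : ℕ)},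
    fun f _ h i hi => h (f i) hi⟩

private theorem B507_ph1 {n m : ℕ} (k : Fin (n + 1)) (γ : Mo m (n + 1)) (i : Fin (m + 1)) :
    ((((B507_phi k).app m γ).1 i : Fin 2) : ℕ) = if (k : ℕ) < (γ i : ℕ) then 1 else 0 :=
  B507_s_val k (γ i)

private theorem B507_ph2 {n m : ℕ} (k : Fin (n + 1)) (γ : Mo m (n + 1)) (i : Fin (m + 1)) :
    ((((B507_phi k).app m γ).2 i : Fin (n + 1)) : ℕ) =
      if (k : ℕ) < (γ i : ℕ) then (γ i : ℕ) - 1 else (γ i : ℕ) :=
  B507_sgm k (γ i)

private theorem B507_inj {n m : ℕ} (k : Fin (n + 1)) (γ γ' : Mo m (n + 1))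
    (h : (B507_phi k).app m γ = (B507_phi k).app m γ') : γ = γ' := by
  apply OrderHom.ext
  funext i
  apply Fin.ext
  have h1 := B507_ph1 k γ i
  have h2 := B507_ph2 k γ i
  rw [h] at h1 h2
  rw [B507_ph1] at h1
  rw [B507_ph2] at h2
  split_ifs at h1 h2 <;> omega

private theorem B507_surj {n m : ℕ} (k : Fin (n + 1)) (s : Mo m 1) (β : Mo m n)
    (h1 : ∀ i, (s i : ℕ) = 1 → (k : ℕ) ≤ (β i : ℕ))
    (h0 : ∀ i, (s i : ℕ) = 0 → (β i : ℕ) ≤ (k : ℕ)) :
    ∃ γ : Mo m (n + 1), (B507_phi k).app m γ = (s, β) := by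
  have hs2 : ∀ i, (s i : ℕ) = 0 ∨ (s i : ℕ) = 1 := fun i => by
    have := (s i).isLt
    omega
  refine ⟨⟨fun i => ⟨(β i : ℕ) + (s i : ℕ), by
    have a := (β i).isLt
    have b := (s i).isLt
    omega⟩, fun a b hab => ?_⟩, ?_⟩
  · have a1 : (β a : ℕ) ≤ (β b : ℕ) := β.monotone hab
    have a2 : (s a : ℕ) ≤ (s b : ℕ) := s.monotone hab
    show (β a : ℕ) + (s a : ℕ) ≤ (β b : ℕ) + (s b : ℕ)
    omega
  · apply Prod.ext
    · apply OrderHom.ext
      funext i
      apply Fin.ext
      refine (B507_ph1 k _ i).trans ?_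
      show (if (k : ℕ) < (β i : ℕ) + (s i : ℕ) then 1 else 0) = (s i : ℕ)
      rcases hs2 i with h | h
      · have := h0 i h
        rw [if_neg (by omega), h]
      · have := h1 i h
        rw [if_pos (by omega), h]
    · apply OrderHom.ext
      funext i
      apply Fin.ext
      refine (B507_ph2 k _ i).trans ?_
      show (if (k : ℕ) < (β i : ℕ) + (s i : ℕ) then (β i : ℕ) + (s i : ℕ) - 1 else
        (β i : ℕ) + (s i : ℕ)) = (β i : ℕ)
      rcases hs2 i with h | h
      · have := h0 i h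
        rw [if_neg (by omega), h]
        rfl
      · have := h1 i h
        rw [if_pos (by omega), h]
        omega

private theorem B507_exists {m : ℕ} {n k : ℕ} {x : ((Del 1).prod (Del n)).S m}
    (hx : x ∉ (B507_L n (k + 1)).car m) :
    ∃ i0, ((x.1 i0 : Fin 2) : ℕ) = 1 ∧ ((x.2 i0 : Fin (n + 1)) : ℕ) ≤ k := by
  by_contra hc
  apply hx
  intro i hi
  by_contra h
  exact hc ⟨i, hi, by omega⟩

private theorem B507_low {m : ℕ} {n k : ℕ} {x : ((Del 1).prod (Del n)).S m}
    {i0 : Fin (m + 1)} (h1 : ((x.1 i0 : Fin 2) : ℕ) = 1)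
    (h2 : ((x.2 i0 : Fin (n + 1)) : ℕ) ≤ k) (i : Fin (m + 1))
    (hi : ((x.1 i : Fin 2) : ℕ) = 0) : ((x.2 i : Fin (n + 1)) : ℕ) ≤ k := by
  have hle : i ≤ i0 := by
    by_contra h
    have a : ((x.1 i0 : Fin 2) : ℕ) ≤ ((x.1 i : Fin 2) : ℕ) := x.1.monotone (not_le.1 h).le
    omega
  have a : ((x.2 i : Fin (n + 1)) : ℕ) ≤ ((x.2 i0 : Fin (n + 1)) : ℕ) := x.2.monotone hle
  omega

private theorem B507_pt {m : ℕ} {s : Mo m 1} :
    s ∈ (Sub.pt (P := Del 1) (cst 0 : Mo 0 1)).car m ↔ ∀ i, (s i : ℕ) = 0 := by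
  constructor
  · intro h i
    have h' : s = (cst 0 : Mo m 1) := h
    rw [h']
    rfl
  · intro h
    show s = (cst 0 : Mo m 1)
    apply OrderHom.ext
    funext i
    exact Fin.ext (h i)

private theorem B507_step {P : SS} (hP : IsKan P) {n : ℕ} (k : Fin (n + 1)) :
    ExtP P (Sub.box (Sub.pt (P := Del 1) (cst 0 : Mo 0 1)) ⊤ (bd n) ⊤ ⊔ B507_L n (k + 1))
      (Sub.box (Sub.pt (P := Del 1) (cst 0 : Mo 0 1)) ⊤ (bd n) ⊤ ⊔ B507_L n k) := by
  refine ExtP.relIso (B507_phi k) (Sub.le_top' _) ?_ ?_ ?_ ?_ ?_ (hP n k.castSucc)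
  · apply Sub.sup_le' (Sub.le_sup_left' _ _)
    intro m x hx
    refine Or.inr fun i hi => ?_
    have := hx i hi
    omega
  · intro m γ _
    refine Or.inr fun i hi => ?_
    rw [B507_ph1] at hi
    rw [B507_ph2]
    split_ifs at hi ⊢ <;> omega
  · intro m γ _
    constructor
    · intro h
      by_contra hγ
      have hhit : ∀ j : Fin (n + 2), j ≠ k.castSucc → ∃ i, γ i = j := by
        intro j hj
        by_contra hc
        exact hγ ⟨j, hj, fun t ht => hc ⟨t, ht⟩⟩
      obtain ⟨i1, hi1⟩ := hhit k.succ (by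
        intro h
        have := congrArg Fin.val h
        simp at this)
      have hi1' : (γ i1 : ℕ) = (k : ℕ) + 1 := by rw [hi1]; rfl
      rcases h with ⟨-, h | h⟩ | h
      · have := (B507_pt.1 h) i1
        rw [B507_ph1, if_pos (by omega)] at this
        omega
      · apply h
        intro y
        by_cases hy : (y : ℕ) < (k : ℕ)
        · obtain ⟨i, hi⟩ := hhit y.castSucc (by
            intro h
            have := congrArg Fin.val h
            simp only [Fin.val_castSucc] at this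
            omega)
          refine ⟨i, Fin.ext ?_⟩
          have hi' : (γ i : ℕ) = (y : ℕ) := by rw [hi]; rfl
          rw [B507_ph2, hi', if_neg (by omega)]
        · obtain ⟨i, hi⟩ := hhit y.succ (by
            intro h
            have := congrArg Fin.val h
            simp only [Fin.val_castSucc, Fin.val_succ] at this
            omega)
          refine ⟨i, Fin.ext ?_⟩
          have hi' : (γ i : ℕ) = (y : ℕ) + 1 := by rw [hi]; rfl
          rw [B507_ph2, hi', if_pos (by omega)]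
          omega
      · have := h i1 (by rw [B507_ph1, if_pos (by omega)])
        rw [B507_ph2, if_pos (by omega)] at this
        omega
    · rintro ⟨j, hj, hm⟩
      have hj' : (j : ℕ) ≠ (k : ℕ) := fun h => hj (Fin.ext h)
      have hm' : ∀ t, (γ t : ℕ) ≠ (j : ℕ) := fun t h => hm t (Fin.ext h)
      by_cases hjk : (j : ℕ) = (k : ℕ) + 1
      · refine Or.inr fun i hi => ?_
        rw [B507_ph1] at hi
        rw [B507_ph2]
        have := hm' i
        split_ifs at hi ⊢ <;> omega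
      · refine Or.inl ⟨⟨trivial, trivial⟩, Or.inr ?_⟩
        intro hs
        have hjl := j.isLt
        have hkl := k.isLt
        obtain ⟨i, hi⟩ := hs ⟨if (k : ℕ) < (j : ℕ) then (j : ℕ) - 1 else (j : ℕ), by
          split_ifs <;> omega⟩
        have hi' := congrArg Fin.val hi
        rw [B507_ph2] at hi'
        have := hm' i
        simp only at hi'
        split_ifs at hi' <;> omega
  · intro m x _ y _ _ _ h
    exact B507_inj k x y h
  · intro m y hy hyA
    have hL : y ∈ (B507_L n k).car m := hy.resolve_left fun h => hyA (Or.inl h)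
    obtain ⟨i0, h1, h2⟩ := B507_exists (k := k) (fun h => hyA (Or.inr h))
    obtain ⟨γ, hγ⟩ := B507_surj k y.1 y.2 hL (B507_low h1 h2)
    exact ⟨γ, trivial, hγ⟩

private theorem B507_all {P : SS} (hP : IsKan P) (n : ℕ) (j : ℕ) : j ≤ n + 1 →
    ExtP P (Sub.box (Sub.pt (P := Del 1) (cst 0 : Mo 0 1)) ⊤ (bd n) ⊤)
      (Sub.box (Sub.pt (P := Del 1) (cst 0 : Mo 0 1)) ⊤ (bd n) ⊤ ⊔ B507_L n (n + 1 - j)) := by
  induction j with
  | zero =>
    intro _
    have h : Sub.box (Sub.pt (P := Del 1) (cst 0 : Mo 0 1)) ⊤ (bd n) ⊤ ⊔ B507_L n (n + 1 - 0) =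
        Sub.box (Sub.pt (P := Del 1) (cst 0 : Mo 0 1)) ⊤ (bd n) ⊤ := by
      apply le_antisymm
      · apply Sub.sup_le' (le_refl _)
        intro m x hx
        refine ⟨⟨trivial, trivial⟩, Or.inl (B507_pt.2 fun i => ?_)⟩
        have h2 := (x.1 i).isLt
        have h3 := (x.2 i).isLt
        by_contra h
        have := hx i (by omega)
        omega
      · exact Sub.le_sup_left' _ _
    rw [h]
    exact ExtP.refl P _
  | succ j ih =>
    intro hj
    refine ExtP.trans (Sub.le_sup_left' _ _) (ih (by omega)) ?_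
    have h := B507_step hP (n := n) ⟨n + 1 - (j + 1), by omega⟩
    have e : n + 1 - (j + 1) + 1 = n + 1 - j := by omega
    simp only at h
    rw [e] at h
    exact h

theorem kan_prism {P : SS} (hP : IsKan P) (n : ℕ) :
    ExtP P (Sub.box (Sub.pt (P := Del 1) (cst 0 : Mo 0 1)) ⊤ (bd n) ⊤)
      (Sub.bx (⊤ : Sub (Del 1)) (⊤ : Sub (Del n))) := by
  have h := B507_all hP n (n + 1) le_rfl
  have e : Sub.box (Sub.pt (P := Del 1) (cst 0 : Mo 0 1)) ⊤ (bd n) ⊤ ⊔
      B507_L n (n + 1 - (n + 1)) = Sub.bx (⊤ : Sub (Del 1)) (⊤ : Sub (Del n)) := by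
    apply le_antisymm
    · intro m x _
      exact ⟨trivial, trivial⟩
    · intro m x _
      refine Or.inr fun i _ => ?_
      omega
  rw [e] at h
  exact h

private theorem B507_bd1 {m : ℕ} {s : Mo m 1} :
    s ∈ (bd 1).car m ↔ (∀ i, (s i : ℕ) = 0) ∨ ∀ i, (s i : ℕ) = 1 := by
  constructor
  · intro h
    by_contra hc
    push_neg at hc
    obtain ⟨⟨i, hi⟩, ⟨i', hi'⟩⟩ := hc
    have a := (s i).isLt
    have b := (s i').isLt
    apply h
    intro y
    have c := y.isLt
    by_cases hy : (y : ℕ) = 0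
    · exact ⟨i', Fin.ext (by omega)⟩
    · exact ⟨i, Fin.ext (by omega)⟩
  · rintro (h | h) hs
    · obtain ⟨i, hi⟩ := hs 1
      have := h i
      rw [hi] at this
      exact absurd this (by decide)
    · obtain ⟨i, hi⟩ := hs 0
      have := h i
      rw [hi] at this
      exact absurd this (by decide)

theorem kan_square {P : SS} (hP : IsKan P) (h2 : ExtP P (bd 2) ⊤) :
    ExtP P (Sub.box (bd 1) ⊤ (bd 1) ⊤) (Sub.bx (⊤ : Sub (Del 1)) (⊤ : Sub (Del 1))) := by
  have hA : ExtP P (Sub.box (bd 1) ⊤ (bd 1) ⊤) (Sub.box (bd 1) ⊤ (bd 1) ⊤ ⊔ B507_L 1 1) := by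
    refine ExtP.relIso (B507_phi (1 : Fin 2)) (Sub.le_top' _) (Sub.le_sup_left' _ _) ?_ ?_ ?_ ?_
      (hP 1 1)
    · intro m γ _
      refine Or.inr fun i hi => ?_
      rw [B507_ph1] at hi
      rw [B507_ph2]
      have h1 : ((1 : Fin 2) : ℕ) = 1 := rfl
      rw [h1] at hi ⊢
      split_ifs at hi ⊢ <;> omega
    · intro m γ _
      have h1 : ((1 : Fin 2) : ℕ) = 1 := rfl
      constructor
      · intro h
        by_contra hγ
        have hhit : ∀ j : Fin 3, j ≠ 1 → ∃ i, γ i = j := by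
          intro j hj
          by_contra hc
          exact hγ ⟨j, hj, fun t ht => hc ⟨t, ht⟩⟩
        obtain ⟨i0, hi0⟩ := hhit 0 (by decide)
        obtain ⟨i2, hi2⟩ := hhit 2 (by decide)
        have e0 : (γ i0 : ℕ) = 0 := by rw [hi0]; rfl
        have e2 : (γ i2 : ℕ) = 2 := by rw [hi2]; rfl
        rcases h with ⟨-, h | h⟩
        · rcases B507_bd1.1 h with h | h
          · have := h i2
            rw [B507_ph1, h1, e2] at this
            exact absurd this (by decide)
          · have := h i0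
            rw [B507_ph1, h1, e0] at this
            exact absurd this (by decide)
        · rcases B507_bd1.1 h with h | h
          · have := h i2
            rw [B507_ph2, h1, e2] at this
            exact absurd this (by decide)
          · have := h i0
            rw [B507_ph2, h1, e0] at this
            exact absurd this (by decide)
      · rintro ⟨j, hj, hm⟩
        have hj' : (j : ℕ) ≠ 1 := fun h => hj (Fin.ext h)
        have hm' : ∀ t, (γ t : ℕ) ≠ (j : ℕ) := fun t h => hm t (Fin.ext h)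
        have hjl := j.isLt
        refine ⟨⟨trivial, trivial⟩, ?_⟩
        by_cases hj0 : (j : ℕ) = 0
        · refine Or.inr (B507_bd1.2 (Or.inr fun i => ?_))
          rw [B507_ph2, h1]
          have a := hm' i
          have b := (γ i).isLt
          split_ifs <;> omega
        · refine Or.inl (B507_bd1.2 (Or.inl fun i => ?_))
          rw [B507_ph1, h1]
          have a := hm' i
          have b := (γ i).isLt
          rw [if_neg (by omega)]
    · intro m x _ y _ _ _ h
      exact B507_inj 1 x y h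
    · intro m y hy hyA
      have hL : y ∈ (B507_L 1 1).car m := hy.resolve_left hyA
      obtain ⟨γ, hγ⟩ := B507_surj (1 : Fin 2) y.1 y.2 hL (fun i _ => by
        show (y.2 i : ℕ) ≤ 1
        have a := (y.2 i).isLt
        omega)
      exact ⟨γ, trivial, hγ⟩
  refine ExtP.trans (Sub.le_sup_left' _ _) hA ?_
  refine ExtP.relIso (B507_phi (0 : Fin 2)) (A := bd 2) (C := ⊤) (Sub.le_top' _) ?_ ?_ ?_ ?_ ?_ h2
  · intro m x _
    exact ⟨trivial, trivial⟩
  · intro m γ _
    exact ⟨trivial, trivial⟩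
  · intro m γ _
    have h1 : ((0 : Fin 2) : ℕ) = 0 := rfl
    constructor
    · intro h hs
      obtain ⟨i0, hi0⟩ := hs 0
      obtain ⟨i1, hi1⟩ := hs 1
      obtain ⟨i2, hi2⟩ := hs 2
      have e0 : (γ i0 : ℕ) = 0 := by rw [hi0]; rfl
      have e1 : (γ i1 : ℕ) = 1 := by rw [hi1]; rfl
      have e2 : (γ i2 : ℕ) = 2 := by rw [hi2]; rfl
      rcases h with ⟨-, h | h⟩ | h
      · rcases B507_bd1.1 h with h | h
        · have := h i2
          rw [B507_ph1, h1, e2] at this
          exact absurd this (by decide)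
        · have := h i0
          rw [B507_ph1, h1, e0] at this
          exact absurd this (by decide)
      · rcases B507_bd1.1 h with h | h
        · have := h i2
          rw [B507_ph2, h1, e2] at this
          exact absurd this (by decide)
        · have := h i0
          rw [B507_ph2, h1, e0] at this
          exact absurd this (by decide)
      · have := h i1 (by rw [B507_ph1, h1, e1]; rfl)
        rw [B507_ph2, h1, e1] at this
        exact absurd this (by decide)
    · intro hγ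
      have hmiss : ∃ j : Fin 3, ∀ i, γ i ≠ j := by
        by_contra hc
        push_neg at hc
        exact hγ hc
      obtain ⟨j, hj⟩ := hmiss
      have hm' : ∀ t, (γ t : ℕ) ≠ (j : ℕ) := fun t h => hj t (Fin.ext h)
      have hjl := j.isLt
      by_cases hj1 : (j : ℕ) = 1
      · refine Or.inr fun i hi => ?_
        rw [B507_ph1, h1] at hi
        rw [B507_ph2, h1]
        have a := hm' i
        split_ifs at hi ⊢ <;> omega
      · refine Or.inl ⟨⟨trivial, trivial⟩, ?_⟩
        by_cases hj0 : (j : ℕ) = 0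
        · refine Or.inl (B507_bd1.2 (Or.inr fun i => ?_))
          rw [B507_ph1, h1]
          have a := hm' i
          rw [if_pos (by omega)]
        · refine Or.inr (B507_bd1.2 (Or.inl fun i => ?_))
          rw [B507_ph2, h1]
          have a := hm' i
          have b := (γ i).isLt
          split_ifs <;> omega
  · intro m x _ y _ _ _ h
    exact B507_inj 0 x y h
  · intro m y _ hyA
    obtain ⟨i0, h1, h2⟩ := B507_exists (k := 0) (fun h => hyA (Or.inr h))
    have h0 : ((0 : Fin 2) : ℕ) = 0 := rfl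
    obtain ⟨γ, hγ⟩ := B507_surj (0 : Fin 2) y.1 y.2 (fun i _ => Nat.zero_le _)
      (fun i hi => B507_low h1 h2 i hi)
    exact ⟨γ, trivial, hγ⟩

end MM

end

/-! ### from `Lib_MP_33f7bb_d.B508` -/

section

/-!
# B5-08: one step of the deformation to the simplices with trivial 1-skeleton

`redb_zero`: `y ∈ Red.car 0`: take `f = cst 0 : Mo 1 0`; `act f y = deg p0 1`; apply `act (cst 0 : Mo 0 1)`.
`redb_one`: take `f = id`.

`pdef_step`.  `x` of dimension `n`, all proper faces in `B`; `h` is a partial deformation on `B`.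
* `n = 0`: the map `∂Δ^1 → P`, `cst 0 ↦ deg x`, `cst 1 ↦ deg p0`, extends to `E` on `Δ^1` (`h1`); `k (s, β) := E s`.  (`β : [m] → [0]` is
  surjective and `act β x = deg x m`.)
* `n = 1`: on `∂Δ^1 × Δ^1 ∪ Δ^1 × ∂Δ^1` put `f (s, β) = h (s, act β x)` if `β` is not surjective, `act β x` if `s = cst 0`, `deg p0 m` if
  `s = cst 1`.  These agree on overlaps: `h (cst 0, act β x) = act β x` (`zero`); for `β` constant (`β = cst i`)
  `act β x = deg v m` with a vertex `v = act (cst i) x` of `B` and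
  `h m (cst 1, deg v m) = act (cst 0) (h 0 (cst 1, v)) = deg p0 m` (naturality, `one`, `redb_zero`).  `f` is natural on the box; extend by
  `kan_square`.
* `n ≥ 2`: on `{0} × Δ^n ∪ Δ^1 × ∂Δ^n` put `f (s, β) = h (s, act β x)` if `β` is not surjective, and `act β x` if `s = cst 0`; extend by
  `kan_prism` to `k`.  For `k m (cst 1, β) ∈ Red`: an edge `e : Mo 1 m` gives `act e (k m (cst 1, β)) = k 1 (cst 1, β.comp e)`, and
  `β.comp e : [1] → [n]` is not surjective, so it is `h 1 (cst 1, act (β.comp e) x) ∈ Red.car 1`, i.e. `deg p0 1` (`redb_one`).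
-/

namespace MM

theorem redb_zero {P : SS} {p0 : P.S 0} {y : P.S 0} (hy : y ∈ (Red p0).car 0) : y = p0 := by
  have h := hy (cst 0 : Mo 1 0)
  have h1 := congrArg (P.act (cst 0 : Mo 0 1)) h
  rw [P.act_comp, SS.act_deg] at h1
  have e1 : ((cst 0 : Mo 1 0).comp (cst 0 : Mo 0 1)) = OrderHom.id := by
    ext i
    simp [cst]
  rw [e1, P.act_id] at h1
  rw [h1]
  show P.act (cst 0 : Mo 0 0) p0 = p0
  have e2 : (cst 0 : Mo 0 0) = OrderHom.id := by
    ext i
    simp [cst]
  rw [e2, P.act_id]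

theorem redb_one {P : SS} {p0 : P.S 0} {y : P.S 1} (hy : y ∈ (Red p0).car 1) : y = P.deg p0 1 := by
  have h := hy OrderHom.id
  rwa [P.act_id] at h

theorem base_mem_red {P : SS} (p0 : P.S 0) (n : ℕ) : P.deg p0 n ∈ (Red p0).car n := by
  intro f
  exact SS.act_deg p0 f

private theorem B508_const {m : ℕ} (s : Mo m 1) (hs : ¬ Function.Surjective s) :
    s = cst 0 ∨ s = cst 1 := by
  rw [Function.Surjective] at hs
  push Not at hs
  obtain ⟨j, hj⟩ := hs
  have h2 : ∀ a : Fin 2, a = 0 ∨ a = 1 := by decide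
  rcases h2 j with h | h
  · right
    refine OrderHom.ext _ _ (funext fun t => ?_)
    rcases h2 (s t) with h3 | h3
    · exact absurd (h3.trans h.symm) (hj t)
    · exact h3
  · left
    refine OrderHom.ext _ _ (funext fun t => ?_)
    rcases h2 (s t) with h3 | h3
    · exact h3
    · exact absurd (h3.trans h.symm) (hj t)

private theorem B508_const_not {m n : ℕ} (i : Fin (n + 2)) :
    ¬ Function.Surjective (cst i : Mo m (n + 1)) := by
  intro h
  obtain ⟨t, ht⟩ := h 0
  obtain ⟨t', ht'⟩ := h 1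
  have h1 : i = 0 := ht
  have h2 : i = 1 := ht'
  rw [h1] at h2
  exact absurd h2 (by simp)

private theorem B508_ne {m : ℕ} : (cst 1 : Mo m 1) ≠ cst 0 := by
  intro h
  have h1 : (1 : Fin 2) = 0 := congrArg (fun f : Mo m 1 => f 0) h
  exact absurd h1 (by decide)

private theorem B508_deg {P : SS} {p0 : P.S 0} {B : Sub P} {h : Fn ((Del 1).prod P) P}
    (hB : PDef p0 B h) {v : P.S 0} (hv : v ∈ B.car 0) (m : ℕ) :
    h m (cst 1, P.deg v m) = P.deg p0 m := by
  have h1 : h m (cst 1, P.deg v m) = P.act (cst 0 : Mo m 0) (h 0 (cst 1, v)) :=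
    hB.nat (cst 0 : Mo m 0) ((cst 1 : Mo 0 1), v) ⟨trivial, hv⟩
  rw [h1, redb_zero (hB.one 0 v hv)]
  rfl

private theorem B508_nat {P : SS} {p0 : P.S 0} {B : Sub P} {h : Fn ((Del 1).prod P) P}
    (hB : PDef p0 B h) {m n : ℕ} (g : Mo m n) (s : Mo n 1) {y : P.S n} (hy : y ∈ B.car n) :
    h m (s.comp g, P.act g y) = P.act g (h n (s, y)) :=
  hB.nat g (s, y) ⟨trivial, hy⟩

theorem pdef_step {P : SS} (hP : IsKan P) (h1 : ExtP P (bd 1) ⊤) (h2 : ExtP P (bd 2) ⊤)
    (p0 : P.S 0) {B : Sub P} {h : Fn ((Del 1).prod P) P} (hB : PDef p0 B h) {n : ℕ} (x : P.S n)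
    (hf : ∀ (m : ℕ) (f : Mo m n), ¬ Function.Surjective f → P.act f x ∈ B.car m) :
    ∃ k : Fn ((Del 1).prod (Del n)) P, NatOn ⊤ k ∧
      (∀ m s (β : Mo m n), ¬ Function.Surjective β → k m (s, β) = h m (s, P.act β x)) ∧
      (∀ m (β : Mo m n), k m (cst 0, β) = P.act β x) ∧
      ∀ m (β : Mo m n), k m (cst 1, β) ∈ (Red p0).car m := by
  classical
  have hns : ∀ {l m : ℕ} (β : Mo m n) (g : Mo l m), ¬ Function.Surjective β →
      ¬ Function.Surjective (β.comp g) := by
    intro l m β g hβ h3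
    refine hβ fun y => ?_
    obtain ⟨t, ht⟩ := h3 y
    exact ⟨g t, ht⟩
  rcases n with _ | _ | n
  · -- dimension 0
    have hf0 : NatOn (bd 1) (fun m (s : Mo m 1) => if s = cst 0 then P.deg x m else P.deg p0 m) := by
      intro l m g s hs
      show (if OrderHom.comp s g = cst 0 then P.deg x l else P.deg p0 l) =
        P.act g (if s = cst 0 then P.deg x m else P.deg p0 m)
      rcases B508_const s hs with h3 | h3
      · rw [h3, if_pos rfl, SS.act_deg]
        exact if_pos rfl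
      · rw [h3, if_neg B508_ne, SS.act_deg]
        exact if_neg B508_ne
    obtain ⟨E, hE, hE1⟩ := h1 (fun m (s : Mo m 1) => if s = cst 0 then P.deg x m else P.deg p0 m)
      (fun g y hy => hf0 g y hy)
    have hE0 : ∀ m, E m (cst 0 : Mo m 1) = P.deg x m := by
      intro m
      rw [hE1 m (cst 0 : Mo m 1) (B508_const_not 0)]
      exact if_pos rfl
    have hE2 : ∀ m, E m (cst 1 : Mo m 1) = P.deg p0 m := by
      intro m
      rw [hE1 m (cst 1 : Mo m 1) (B508_const_not 1)]
      exact if_neg B508_ne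
    refine ⟨fun m p => E m p.1, ?_, ?_, ?_, ?_⟩
    · intro l m g p _
      exact hE g p.1 trivial
    · intro m s β hβ
      exact absurd (fun y => ⟨0, Subsingleton.elim (α := Fin 1) _ _⟩) hβ
    · intro m β
      show E m (cst 0 : Mo m 1) = _
      rw [hE0]
      have e : β = cst 0 := OrderHom.ext _ _ (funext fun t => Subsingleton.elim (α := Fin 1) _ _)
      rw [e]
      rfl
    · intro m β
      show E m (cst 1 : Mo m 1) ∈ _
      rw [hE2]
      exact base_mem_red p0 m
  · -- dimension 1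
    have hc1 : ∀ {m : ℕ} (β : Mo m 1), ¬ Function.Surjective β →
        h m (cst 1, P.act β x) = P.deg p0 m := by
      intro m β hβ
      obtain ⟨i, hi⟩ : ∃ i : Fin 2, β = cst i := by
        rcases B508_const β hβ with h3 | h3
        · exact ⟨0, h3⟩
        · exact ⟨1, h3⟩
      have hv : P.act (cst i : Mo 0 1) x ∈ B.car 0 := hf 0 _ (B508_const_not i)
      have e : P.act β x = P.deg (P.act (cst i : Mo 0 1) x) m := by
        rw [hi]
        show _ = P.act (cst 0) (P.act (cst i : Mo 0 1) x)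
        rw [P.act_comp]
        rfl
      rw [e]
      exact B508_deg hB hv m
    have hfn : NatOn (Sub.box (bd 1) ⊤ (bd 1) ⊤) (fun m (p : ((Del 1).prod (Del 1)).S m) =>
        if p.1 = cst 0 then P.act p.2 x else if p.1 = cst 1 then P.deg p0 m
          else h m (p.1, P.act p.2 x)) := by
      rintro l m g ⟨s, β⟩ ⟨-, hsb⟩
      show (if OrderHom.comp s g = cst 0 then P.act (OrderHom.comp β g) x
        else if OrderHom.comp s g = cst 1 then P.deg p0 l
          else h l (OrderHom.comp s g, P.act (OrderHom.comp β g) x)) =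
        P.act g (if s = cst 0 then P.act β x else if s = cst 1 then P.deg p0 m
          else h m (s, P.act β x))
      by_cases hs0 : s = cst 0
      · rw [hs0, if_pos rfl, P.act_comp]
        exact if_pos rfl
      rw [if_neg hs0]
      by_cases hs1 : s = cst 1
      · rw [hs1, if_pos rfl, SS.act_deg]
        exact (if_neg B508_ne).trans (if_pos rfl)
      rw [if_neg hs1]
      have hβ : ¬ Function.Surjective β := by
        rcases hsb with h3 | h3
        · rcases B508_const s h3 with h4 | h4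
          · exact absurd h4 hs0
          · exact absurd h4 hs1
        · exact h3
      have hmem := hf m β hβ
      have hnat := B508_nat hB g s hmem
      rw [← hnat, P.act_comp]
      have hmem' := hf l (β.comp g) (hns β g hβ)
      by_cases h3 : OrderHom.comp s g = cst 0
      · rw [if_pos h3, h3]
        exact (hB.zero l _ hmem').symm
      rw [if_neg h3]
      by_cases h4 : OrderHom.comp s g = cst 1
      · rw [if_pos h4, h4]
        exact (hc1 (β.comp g) (hns β g hβ)).symm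
      rw [if_neg h4]
    obtain ⟨k, hk, hk1⟩ := kan_square hP h2 (fun m (p : ((Del 1).prod (Del 1)).S m) =>
        if p.1 = cst 0 then P.act p.2 x else if p.1 = cst 1 then P.deg p0 m
          else h m (p.1, P.act p.2 x)) (fun g y hy => hfn g y hy)
    refine ⟨k, fun g p _ => hk g p ⟨trivial, trivial⟩, ?_, ?_, ?_⟩
    · intro m s β hβ
      have h3 := hk1 m (s, β) ⟨⟨trivial, trivial⟩, Or.inr hβ⟩
      refine h3.trans ?_
      show (if s = cst 0 then P.act β x else if s = cst 1 then P.deg p0 m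
          else h m (s, P.act β x)) = _
      by_cases hs0 : s = cst 0
      · rw [if_pos hs0, hs0]
        exact (hB.zero m _ (hf m β hβ)).symm
      rw [if_neg hs0]
      by_cases hs1 : s = cst 1
      · rw [if_pos hs1, hs1]
        exact (hc1 β hβ).symm
      rw [if_neg hs1]
    · intro m β
      have h3 := hk1 m (cst 0, β) ⟨⟨trivial, trivial⟩, Or.inl (B508_const_not 0)⟩
      exact h3.trans (if_pos rfl)
    · intro m β
      have h3 := hk1 m (cst 1, β) ⟨⟨trivial, trivial⟩, Or.inl (B508_const_not 1)⟩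
      have h4 : k m (cst 1, β) = P.deg p0 m :=
        h3.trans ((if_neg B508_ne).trans (if_pos rfl))
      rw [h4]
      exact base_mem_red p0 m
  · -- dimension at least 2
    have hfn : NatOn (Sub.box (Sub.pt (P := Del 1) (cst 0 : Mo 0 1)) ⊤ (bd (n + 2)) ⊤)
        (fun m (p : ((Del 1).prod (Del (n + 2))).S m) =>
        if p.1 = cst 0 then P.act p.2 x else h m (p.1, P.act p.2 x)) := by
      rintro l m g ⟨s, β⟩ ⟨-, hsb⟩
      show (if OrderHom.comp s g = cst 0 then P.act (OrderHom.comp β g) x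
          else h l (OrderHom.comp s g, P.act (OrderHom.comp β g) x)) =
        P.act g (if s = cst 0 then P.act β x else h m (s, P.act β x))
      by_cases hs0 : s = cst 0
      · rw [hs0, if_pos rfl, P.act_comp]
        exact if_pos rfl
      rw [if_neg hs0]
      have hβ : ¬ Function.Surjective β := by
        rcases hsb with h3 | h3
        · exact absurd h3 hs0
        · exact h3
      have hmem := hf m β hβ
      have hnat := B508_nat hB g s hmem
      rw [← hnat, P.act_comp]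
      have hmem' := hf l (β.comp g) (hns β g hβ)
      by_cases h3 : OrderHom.comp s g = cst 0
      · rw [if_pos h3, h3]
        exact (hB.zero l _ hmem').symm
      rw [if_neg h3]
    obtain ⟨k, hk, hk1⟩ := kan_prism hP (n + 2) (fun m (p : ((Del 1).prod (Del (n + 2))).S m) =>
        if p.1 = cst 0 then P.act p.2 x else h m (p.1, P.act p.2 x)) (fun g y hy => hfn g y hy)
    have hk2 : ∀ m s (β : Mo m (n + 2)), ¬ Function.Surjective β →
        k m (s, β) = h m (s, P.act β x) := by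
      intro m s β hβ
      have h3 := hk1 m (s, β) ⟨⟨trivial, trivial⟩, Or.inr hβ⟩
      refine h3.trans ?_
      show (if s = cst 0 then P.act β x else h m (s, P.act β x)) = _
      by_cases hs0 : s = cst 0
      · rw [if_pos hs0, hs0]
        exact (hB.zero m _ (hf m β hβ)).symm
      rw [if_neg hs0]
    refine ⟨k, fun g p _ => hk g p ⟨trivial, trivial⟩, hk2, ?_, ?_⟩
    · intro m β
      have h3 := hk1 m (cst 0, β) ⟨⟨trivial, trivial⟩, Or.inl rfl⟩
      exact h3.trans (if_pos rfl)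
    · intro m β e
      have h3 : k 1 (cst 1, β.comp e) = P.act e (k m (cst 1, β)) :=
        hk e ((cst 1 : Mo m 1), β) ⟨trivial, trivial⟩
      have h4 : ¬ Function.Surjective (β.comp e) := by
        intro h5
        have h6 := Fintype.card_le_of_surjective _ h5
        simp only [Fintype.card_fin] at h6
        omega
      rw [← h3, hk2 1 (cst 1) (β.comp e) h4]
      exact redb_one (hB.one 1 _ (hf 1 _ h4))

end MM

end

/-! ### from `Lib_MP_33f7bb_d.B509` -/

section

/-!
# B5-09 (W3): the simplices with trivial 1-skeleton form a deformation retract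

Zorn on the pairs `(B, h)` with `Red p0 ≤ B`, `PDef p0 B h`; order: `B ≤ B'` and `h' = h` on `Δ^1 × B`.  Start: `B = Red p0`,
`h (s, x) = x`.  Chains: union of the `B`'s (nonempty chain), `h (s, x)` = the common value (choice of a member of the chain
containing `x`).  Let `(B, h)` be maximal; suppose `B ≠ ⊤`.  `exists_next` (A002): a nondegenerate `x ∉ B` of degree `n` all of
whose proper faces are in `B`.  `pdef_step` gives `k`.  `B' := B ⊔ gen1 x` (`Sub.gen1` in B1A: the simplices `act β x`).  Every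
simplex of `B' \ B` is `act β x` with `β` surjective, uniquely (`ez_unique`: `x` is nondegenerate), and for `β` not surjective
`act β x ∈ B`.  `h' (s, z) := h (s, z)` for `z ∈ B`, `k (s, β)` for `z = act β x`, `β` surjective, `z ∉ B`.  Note `act β x ∉ B` for surjective `β`
(`act_mem_iff`).  For ALL `β : Mo m n`: `h' (s, act β x) = k (s, β)` (for `β` not surjective by the second property of `k`), so `h'` is
natural on `Δ^1 × B'` (`Hom`-like: `k` natural), `zero`, `one` hold by the third and fourth property; `fix`: a simplex of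
`Red p0` is in `B`.  Contradiction to maximality.
Finally `H` is the `Hom` given by `h` for `B = ⊤`.
-/

namespace MM

/-- one step: adding a nondegenerate simplex -/
private theorem B509_step {P : SS} (hP : IsKan P) (h1 : ExtP P (bd 1) ⊤) (h2 : ExtP P (bd 2) ⊤)
    (p0 : P.S 0) {B : Sub P} {h : Fn ((Del 1).prod P) P} (hR : Red p0 ≤ B) (hB : PDef p0 B h)
    {n : ℕ} (x : P.S n) (hxB : x ∉ B.car n) (hnd : NonDeg x)
    (hf : ∀ (m : ℕ) (f : Mo m n), ¬ Function.Surjective f → P.act f x ∈ B.car m) :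
    ∃ h' : Fn ((Del 1).prod P) P, PDef p0 (B ⊔ Sub.gen1 x) h' ∧
      ∀ m s, ∀ z ∈ B.car m, h' m (s, z) = h m (s, z) := by
  classical
  obtain ⟨k, hk, hkf, hk0, hk1⟩ := pdef_step hP h1 h2 p0 hB x hf
  let h' : Fn ((Del 1).prod P) P := fun m y =>
    if y.2 ∈ B.car m then h m y else
      if hz : ∃ β : Mo m n, y.2 = P.act β x then k m (y.1, hz.choose) else h m y
  have hA : ∀ m s, ∀ z ∈ B.car m, h' m (s, z) = h m (s, z) := fun m s z hz => if_pos hz
  have hG : ∀ (m : ℕ) (s : Mo m 1) (β : Mo m n), h' m (s, P.act β x) = k m (s, β) := by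
    intro m s β
    by_cases hz : P.act β x ∈ B.car m
    · rw [hA m s _ hz]
      have hns : ¬ Function.Surjective β := fun hs => hxB ((act_mem_iff B β hs x).1 hz)
      exact (hkf m s β hns).symm
    · have hz' : ∃ γ : Mo m n, P.act β x = P.act γ x := ⟨β, rfl⟩
      have e1 : h' m (s, P.act β x) = k m (s, hz'.choose) := by
        show (if _ then _ else _) = _
        rw [if_neg hz, dif_pos hz']
      have hc := hz'.choose_spec
      have s1 : Function.Surjective β := by
        by_contra hs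
        exact hz (hf m β hs)
      have s2 : Function.Surjective hz'.choose := by
        by_contra hs
        exact hz (by rw [hc]; exact hf m _ hs)
      rw [e1, ← (ez_unique β hz'.choose x x s1 s2 hnd hnd hc).1]
  refine ⟨h', ⟨?_, ?_, ?_, ?_⟩, hA⟩
  · rintro l m g ⟨s, z⟩ ⟨-, hz⟩
    show h' l (s.comp g, P.act g z) = P.act g (h' m (s, z))
    rcases hz with hz | ⟨β, rfl⟩
    · rw [hA l _ _ (B.closed g hz), hA m s z hz]
      exact hB.nat g (s, z) ⟨trivial, hz⟩
    · rw [hG m s β, P.act_comp, hG l (s.comp g) (β.comp g)]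
      exact hk g (s, β) trivial
  · rintro m z (hz | ⟨β, rfl⟩)
    · rw [hA m _ z hz]; exact hB.zero m z hz
    · rw [hG m (cst 0) β]; exact hk0 m β
  · rintro m z (hz | ⟨β, rfl⟩)
    · rw [hA m _ z hz]; exact hB.one m z hz
    · rw [hG m (cst 1) β]; exact hk1 m β
  · intro m s z _ hz
    rw [hA m s z (hR m hz)]
    exact hB.fix m s z (hR m hz) hz

theorem exists_deformation {P : SS} (hP : IsKan P) (h1 : ExtP P (bd 1) ⊤) (h2 : ExtP P (bd 2) ⊤)
    (p0 : P.S 0) :
    ∃ H : Hom ((Del 1).prod P) P, (∀ n x, H.app n (cst 0, x) = x) ∧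
      (∀ n x, H.app n (cst 1, x) ∈ (Red p0).car n) ∧
      ∀ n s, ∀ x ∈ (Red p0).car n, H.app n (s, x) = x := by
  classical
  let T := {p : Sub P × Fn ((Del 1).prod P) P // Red p0 ≤ p.1 ∧ PDef p0 p.1 p.2}
  let r : T → T → Prop := fun a b => a.1.1 ≤ b.1.1 ∧
    ∀ n s, ∀ x ∈ a.1.1.car n, b.1.2 n (s, x) = a.1.2 n (s, x)
  have htrans : ∀ {a b c : T}, r a b → r b c → r a c := by
    rintro a b c ⟨h1, h2⟩ ⟨h3, h4⟩
    exact ⟨h1.trans h3, fun n s x hx => by rw [h4 n s x (h1 n hx), h2 n s x hx]⟩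
  have hchain : ∀ c : Set T, IsChain r c → ∃ ub, ∀ a ∈ c, r a ub := by
    intro c hc
    rcases c.eq_empty_or_nonempty with rfl | hne
    · refine ⟨⟨(Red p0, fun n x => x.2), le_rfl, ?_⟩, fun a ha => ha.elim⟩
      exact ⟨fun g x _ => rfl, fun _ _ _ => rfl, fun _ _ hx => hx, fun _ _ _ _ _ => rfl⟩
    · have hcomp : ∀ a ∈ c, ∀ b ∈ c, ∀ n s, ∀ x ∈ a.1.1.car n, x ∈ b.1.1.car n →
          a.1.2 n (s, x) = b.1.2 n (s, x) := by
        intro a ha b hb n s x hxa hxb
        by_cases hab : a = b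
        · rw [hab]
        rcases hc ha hb hab with h | h
        · exact (h.2 n s x hxa).symm
        · exact h.2 n s x hxb
      let U : Sub P := Sub.sUn ((fun a : T => a.1.1) '' c)
      let g : Fn ((Del 1).prod P) P := fun n y => if hx : ∃ a ∈ c, y.2 ∈ a.1.1.car n then
        hx.choose.1.2 n y else y.2
      have hle : ∀ a ∈ c, a.1.1 ≤ U := fun a ha n x hx => ⟨a.1.1, ⟨a, ha, rfl⟩, hx⟩
      have hg : ∀ a ∈ c, ∀ n s, ∀ x ∈ a.1.1.car n, g n (s, x) = a.1.2 n (s, x) := by
        intro a ha n s x hx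
        have hx' : ∃ a ∈ c, x ∈ a.1.1.car n := ⟨a, ha, hx⟩
        have e1 : g n (s, x) = hx'.choose.1.2 n (s, x) := dif_pos hx'
        rw [e1]
        exact hcomp _ hx'.choose_spec.1 a ha n s x hx'.choose_spec.2 hx
      have hcov : ∀ n, ∀ x ∈ U.car n, ∃ a ∈ c, x ∈ a.1.1.car n := by
        rintro n x ⟨L, ⟨a, ha, rfl⟩, hL⟩
        exact ⟨a, ha, hL⟩
      obtain ⟨a₀, ha₀⟩ := hne
      refine ⟨⟨(U, g), a₀.2.1.trans (hle a₀ ha₀), ⟨?_, ?_, ?_, ?_⟩⟩,
        fun a ha => ⟨hle a ha, ?_⟩⟩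
      · rintro m n q ⟨s, x⟩ ⟨-, hx⟩
        obtain ⟨a, ha, hxa⟩ := hcov n x hx
        show g m (s.comp q, P.act q x) = P.act q (g n (s, x))
        rw [hg a ha m _ _ (a.1.1.closed q hxa), hg a ha n s x hxa]
        exact a.2.2.nat q (s, x) ⟨trivial, hxa⟩
      · intro n x hx
        obtain ⟨a, ha, hxa⟩ := hcov n x hx
        show g n (cst 0, x) = x
        rw [hg a ha n _ x hxa]
        exact a.2.2.zero n x hxa
      · intro n x hx
        obtain ⟨a, ha, hxa⟩ := hcov n x hx
        show g n (cst 1, x) ∈ _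
        rw [hg a ha n _ x hxa]
        exact a.2.2.one n x hxa
      · intro n s x hx hxR
        obtain ⟨a, ha, hxa⟩ := hcov n x hx
        show g n (s, x) = x
        rw [hg a ha n s x hxa]
        exact a.2.2.fix n s x hxa hxR
      · intro n s x hx
        exact hg a ha n s x hx
  obtain ⟨m, hm⟩ := exists_maximal_of_chains_bounded hchain htrans
  have htop : (⊤ : Sub P) ≤ m.1.1 := by
    by_contra hne
    obtain ⟨n, x, -, hxB, hnd, hface⟩ := exists_next (Sub.le_top' m.1.1) hne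
    obtain ⟨h', hh', hh⟩ := B509_step hP h1 h2 p0 m.2.1 m.2.2 x hxB hnd hface
    let m' : T := ⟨(m.1.1 ⊔ Sub.gen1 x, h'), m.2.1.trans (Sub.le_sup_left' _ _), hh'⟩
    have h3 : r m m' := ⟨Sub.le_sup_left' _ _, hh⟩
    have h4 := hm m' h3
    exact hxB (h4.1 n (Or.inr (Sub.mem_gen1 x)))
  refine ⟨⟨m.1.2, fun {a b} f x => m.2.2.nat f x ⟨trivial, htop _ trivial⟩⟩, ?_, ?_, ?_⟩
  · exact fun n x => m.2.2.zero n x (htop n trivial)
  · exact fun n x => m.2.2.one n x (htop n trivial)
  · exact fun n s x hx => m.2.2.fix n s x (htop n trivial) hx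

end MM

end

/-! ### from `Lib_MP_33f7bb_d.B510` -/

section

/-!
# B5-10 (W4): the function `thF F` of a configuration of boxes with labels is a simplex of `WWT j (T ∪ D)`

`0 ≤ chi1, chi2 ≤ 1`; `chi1 u ≠ 0` implies `u < 2/3` and then `chi2 u = 1`; `chi2 u ≠ 0` implies `u < 1`; `chi1 0 = chi2 0 = 1`.
For a box `(v, κ)` with support in the finite set `S' ⊆ D`, all factors of `thA`, `thB` with `i ∉ S'` are `1`, so
`thA v κ x = ∏ i ∈ S', chi1 (κ i * |x i - v i|)` (`finprod_eq_prod_of_mulSupport_subset`); continuous in `(t, x)`; `0 ≤ thA, thB ≤ 1`.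
If `thA ≠ 0` or `thB ≠ 0` then `x` is in the region of the box (all `κ i * |x i - v i| < 1`).
* `cont`: finite sum of continuous functions (`min`, norm, products, `continuous_pi` for the second component:
  coordinate `i` of `thS`).
* `fin`: `S :=` union over the finitely many `q ∈ F` of the finite sets of the label and of the box.  `thA (.., x)`, `thB (.., x)` depend only
  on `x i`, `i ∈ S'`; the labels on `x i`, `i ∈ S`; second components are supported in `S`.
* `bdd`: labels are bounded, `v` is bounded on the compact `Dtop m` (finitely many nonzero coordinates, each continuous).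
* `ne`: suppose `e0 + (thF F (t,x)).1 = 0` and `x + (thF F (t,x)).2 = 0`.  If no `q ∈ F` has `x` in the region of its box at `t` then
  `thF F (t,x) = 0` and `e0 = 0`: contradiction (`hj`).  Otherwise there is exactly one such `q = (β, g)` (`hF.disj`), and `thF F (t,x) =
  thS v κ y x` with `y = g (t, x)`, `v = v(t)`, `κ = κ(t)`.  `e0 + thA • y.1 = 0` and `‖e0‖ = 1` give `thA ≠ 0`, `‖y.1‖ ≥ 1`
  (`0 ≤ thA ≤ 1`), so `min 1 (2‖y.1‖) = 1`, and `thB = 1` (every factor is `1`).  For `i ∈ D`: `y.2 i = 0` (it is supported in `T`, disjoint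
  from `D`), so `0 = x i + thA * 0 - v i`, `x i = v i`.  For `i ∉ D`: `κ i = 0`.  So all factors of `thA` are `chi1 0 = 1`, `thA = 1`.  Hence
  `e0 + y.1 = 0` and, for `i ∈ T` (`v i = 0` there), `x i + y.2 i = 0`.  Let `x' i = x i` for `i ∈ T`, `0` otherwise.  `g (t, x') = g (t, x) = y` (the
  label depends only on coordinates in a finite subset of `T`), `x' + y.2 = 0` (off `T` both vanish): contradiction to the property
  `ne` of `g` at `(t, x')`.
-/

namespace MM

private theorem B510_chi1_nonneg (u : ℝ) : 0 ≤ chi1 u := le_max_left _ _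

private theorem B510_chi2_nonneg (u : ℝ) : 0 ≤ chi2 u := le_max_left _ _

private theorem B510_chi1_le (u : ℝ) : chi1 u ≤ 1 := max_le zero_le_one (min_le_left _ _)

private theorem B510_chi2_le (u : ℝ) : chi2 u ≤ 1 := max_le zero_le_one (min_le_left _ _)

private theorem B510_chi1_zero : chi1 0 = 1 := by
  unfold chi1
  rw [min_eq_left (by norm_num), max_eq_right (by norm_num)]

private theorem B510_chi2_zero : chi2 0 = 1 := by
  unfold chi2
  rw [min_eq_left (by norm_num), max_eq_right (by norm_num)]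

private theorem B510_chi1_cont : Continuous chi1 := by
  unfold chi1
  fun_prop

private theorem B510_chi2_cont : Continuous chi2 := by
  unfold chi2
  fun_prop

private theorem B510_chi1_ne {u : ℝ} (h : chi1 u ≠ 0) : u < 2 / 3 := by
  by_contra hu
  rw [not_lt] at hu
  apply h
  unfold chi1
  exact max_eq_left ((min_le_right _ _).trans (by linarith))

private theorem B510_chi2_ne {u : ℝ} (h : chi2 u ≠ 0) : u < 1 := by
  by_contra hu
  rw [not_lt] at hu
  apply h
  unfold chi2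
  exact max_eq_left ((min_le_right _ _).trans (by linarith))

private theorem B510_chi2_one {u : ℝ} (h : u < 2 / 3) : chi2 u = 1 := by
  unfold chi2
  rw [min_eq_left (by linarith), max_eq_right (by norm_num)]

private theorem B510_thA_eq (v κ x : ℕ → ℝ) (S : Finset ℕ) (hS : ∀ i ∉ S, κ i = 0) :
    thA v κ x = ∏ i ∈ S, chi1 (κ i * |x i - v i|) := by
  unfold thA
  apply finprod_eq_prod_of_mulSupport_subset
  intro i hi
  by_contra h
  apply hi
  show chi1 (κ i * |x i - v i|) = 1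
  rw [hS i h, zero_mul, B510_chi1_zero]

private theorem B510_thB_eq (v κ x : ℕ → ℝ) (S : Finset ℕ) (hS : ∀ i ∉ S, κ i = 0) :
    thB v κ x = ∏ i ∈ S, chi2 (κ i * |x i - v i|) := by
  unfold thB
  apply finprod_eq_prod_of_mulSupport_subset
  intro i hi
  by_contra h
  apply hi
  show chi2 (κ i * |x i - v i|) = 1
  rw [hS i h, zero_mul, B510_chi2_zero]

private theorem B510_thA_nonneg (v κ x : ℕ → ℝ) (S : Finset ℕ) (hS : ∀ i ∉ S, κ i = 0) :
    0 ≤ thA v κ x := by
  rw [B510_thA_eq v κ x S hS]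
  exact Finset.prod_nonneg fun i _ => B510_chi1_nonneg _

private theorem B510_thB_nonneg (v κ x : ℕ → ℝ) (S : Finset ℕ) (hS : ∀ i ∉ S, κ i = 0) :
    0 ≤ thB v κ x := by
  rw [B510_thB_eq v κ x S hS]
  exact Finset.prod_nonneg fun i _ => B510_chi2_nonneg _

private theorem B510_thA_le (v κ x : ℕ → ℝ) (S : Finset ℕ) (hS : ∀ i ∉ S, κ i = 0) :
    thA v κ x ≤ 1 := by
  rw [B510_thA_eq v κ x S hS]
  exact Finset.prod_le_one (fun i _ => B510_chi1_nonneg _) (fun i _ => B510_chi1_le _)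

private theorem B510_thB_le (v κ x : ℕ → ℝ) (S : Finset ℕ) (hS : ∀ i ∉ S, κ i = 0) :
    thB v κ x ≤ 1 := by
  rw [B510_thB_eq v κ x S hS]
  exact Finset.prod_le_one (fun i _ => B510_chi2_nonneg _) (fun i _ => B510_chi2_le _)

private theorem B510_thA_ne (v κ x : ℕ → ℝ) (S : Finset ℕ) (hS : ∀ i ∉ S, κ i = 0)
    (h : thA v κ x ≠ 0) (i : ℕ) : κ i * |x i - v i| < 2 / 3 := by
  by_cases hi : i ∈ S
  · rw [B510_thA_eq v κ x S hS, Finset.prod_ne_zero_iff] at h
    exact B510_chi1_ne (h i hi)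
  · rw [hS i hi, zero_mul]
    norm_num

private theorem B510_thB_ne (v κ x : ℕ → ℝ) (S : Finset ℕ) (hS : ∀ i ∉ S, κ i = 0)
    (h : thB v κ x ≠ 0) (i : ℕ) : κ i * |x i - v i| < 1 := by
  by_cases hi : i ∈ S
  · rw [B510_thB_eq v κ x S hS, Finset.prod_ne_zero_iff] at h
    exact B510_chi2_ne (h i hi)
  · rw [hS i hi, zero_mul]
    norm_num

private theorem B510_thB_one (v κ x : ℕ → ℝ) (S : Finset ℕ) (hS : ∀ i ∉ S, κ i = 0)
    (h : thA v κ x ≠ 0) : thB v κ x = 1 := by
  rw [B510_thB_eq v κ x S hS]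
  exact Finset.prod_eq_one fun i _ => B510_chi2_one (B510_thA_ne v κ x S hS h i)

private theorem B510_e0_norm {j : ℕ} (hj : 1 ≤ j) : ‖e0 j‖ = 1 := by
  apply le_antisymm
  · rw [pi_norm_le_iff_of_nonneg zero_le_one]
    intro i
    unfold e0
    split_ifs <;> simp
  · have h := norm_le_pi_norm (e0 j) ⟨0, hj⟩
    have h1 : e0 j ⟨0, hj⟩ = 1 := by simp [e0]
    rw [h1, norm_one] at h
    exact h

/-- one box -/
private theorem B510_cont {j : ℕ} {T D : Set ℕ} {m : ℕ} (q : (BX D).S m × (WWT j T).ss.S m) :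
    Continuous fun p : Dtop m × (ℕ → ℝ) =>
      thS (q.1.1.1 p.1) (q.1.1.2 p.1) (q.2.1.1 p) p.2 := by
  obtain ⟨S, hS, hs⟩ := q.1.2.supp
  have hy : Continuous q.2.1.1 := q.2.2.cont
  have hv : ∀ i, Continuous fun p : Dtop m × (ℕ → ℝ) => q.1.1.1 p.1 i := fun i =>
    (continuous_apply i).comp (q.1.2.contv.comp continuous_fst)
  have hk : ∀ i, Continuous fun p : Dtop m × (ℕ → ℝ) => q.1.1.2 p.1 i := fun i =>
    (continuous_apply i).comp (q.1.2.contk.comp continuous_fst)
  have hx : ∀ i, Continuous fun p : Dtop m × (ℕ → ℝ) => p.2 i := fun i =>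
    (continuous_apply i).comp continuous_snd
  have hu : ∀ i, Continuous fun p : Dtop m × (ℕ → ℝ) =>
      q.1.1.2 p.1 i * |p.2 i - q.1.1.1 p.1 i| := fun i =>
    (hk i).mul ((hx i).sub (hv i)).abs
  have hA : Continuous fun p : Dtop m × (ℕ → ℝ) => thA (q.1.1.1 p.1) (q.1.1.2 p.1) p.2 := by
    have : (fun p : Dtop m × (ℕ → ℝ) => thA (q.1.1.1 p.1) (q.1.1.2 p.1) p.2) =
        fun p => ∏ i ∈ S, chi1 (q.1.1.2 p.1 i * |p.2 i - q.1.1.1 p.1 i|) :=
      funext fun p => B510_thA_eq _ _ _ S fun i hi => (hs p.1 i hi).2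
    rw [this]
    exact continuous_finset_prod _ fun i _ => B510_chi1_cont.comp (hu i)
  have hB : Continuous fun p : Dtop m × (ℕ → ℝ) => thB (q.1.1.1 p.1) (q.1.1.2 p.1) p.2 := by
    have : (fun p : Dtop m × (ℕ → ℝ) => thB (q.1.1.1 p.1) (q.1.1.2 p.1) p.2) =
        fun p => ∏ i ∈ S, chi2 (q.1.1.2 p.1 i * |p.2 i - q.1.1.1 p.1 i|) :=
      funext fun p => B510_thB_eq _ _ _ S fun i hi => (hs p.1 i hi).2
    rw [this]
    exact continuous_finset_prod _ fun i _ => B510_chi2_cont.comp (hu i)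
  unfold thS
  refine Continuous.prodMk (hA.smul (continuous_fst.comp hy)) ?_
  refine Continuous.sub (hA.smul (continuous_snd.comp hy)) ?_
  refine Continuous.smul (Continuous.mul ?_ hB) (q.1.2.contv.comp continuous_fst)
  exact continuous_const.min (continuous_const.mul (continuous_fst.comp hy).norm)

private theorem B510_fin {j : ℕ} {T D : Set ℕ} {m : ℕ} (q : (BX D).S m × (WWT j T).ss.S m) :
    ∃ S : Finset ℕ, (S : Set ℕ) ⊆ T ∪ D ∧
    (∀ (t : Dtop m) (x y : ℕ → ℝ), (∀ i ∈ S, x i = y i) →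
      thS (q.1.1.1 t) (q.1.1.2 t) (q.2.1.1 (t, x)) x =
        thS (q.1.1.1 t) (q.1.1.2 t) (q.2.1.1 (t, y)) y) ∧
    ∀ (t : Dtop m) (x : ℕ → ℝ), ∀ i ∉ S,
      (thS (q.1.1.1 t) (q.1.1.2 t) (q.2.1.1 (t, x)) x).2 i = 0 := by
  classical
  obtain ⟨S, hS, hs⟩ := q.1.2.supp
  obtain ⟨S', hS', h1, h2⟩ := q.2.2.fin
  refine ⟨S' ∪ S, ?_, ?_, ?_⟩
  · intro i hi
    rcases Finset.mem_union.1 (Finset.mem_coe.1 hi) with h | h
    · exact Or.inl (hS' h)
    · exact Or.inr (hS h)
  · intro t x y hxy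
    have e1 : thA (q.1.1.1 t) (q.1.1.2 t) x = thA (q.1.1.1 t) (q.1.1.2 t) y := by
      rw [B510_thA_eq _ _ _ S fun i hi => (hs t i hi).2,
        B510_thA_eq _ _ _ S fun i hi => (hs t i hi).2]
      exact Finset.prod_congr rfl fun i hi => by rw [hxy i (Finset.mem_union_right _ hi)]
    have e2 : thB (q.1.1.1 t) (q.1.1.2 t) x = thB (q.1.1.1 t) (q.1.1.2 t) y := by
      rw [B510_thB_eq _ _ _ S fun i hi => (hs t i hi).2,
        B510_thB_eq _ _ _ S fun i hi => (hs t i hi).2]
      exact Finset.prod_congr rfl fun i hi => by rw [hxy i (Finset.mem_union_right _ hi)]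
    have e3 : q.2.1.1 (t, x) = q.2.1.1 (t, y) :=
      h1 t x y fun i hi => hxy i (Finset.mem_union_left _ hi)
    unfold thS
    rw [e1, e2, e3]
  · intro t x i hi
    rw [Finset.mem_union, not_or] at hi
    have e1 : (q.2.1.1 (t, x)).2 i = 0 := h2 t x i hi.1
    have e2 : q.1.1.1 t i = 0 := (hs t i hi.2).1
    show thA (q.1.1.1 t) (q.1.1.2 t) x * (q.2.1.1 (t, x)).2 i -
      (min 1 (2 * ‖(q.2.1.1 (t, x)).1‖) * thB (q.1.1.1 t) (q.1.1.2 t) x) * q.1.1.1 t i = 0
    rw [e1, e2, mul_zero, mul_zero, sub_zero]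

private theorem B510_bdd {j : ℕ} {T D : Set ℕ} {m : ℕ} (q : (BX D).S m × (WWT j T).ss.S m) :
    ∃ C : ℝ, ∀ (t : Dtop m) (x : ℕ → ℝ),
      (∀ i, |(thS (q.1.1.1 t) (q.1.1.2 t) (q.2.1.1 (t, x)) x).1 i| ≤ C) ∧
      ∀ i, |(thS (q.1.1.1 t) (q.1.1.2 t) (q.2.1.1 (t, x)) x).2 i| ≤ C := by
  obtain ⟨S, hS, hs⟩ := q.1.2.supp
  obtain ⟨C, hC⟩ := q.2.2.bdd
  have hv : ∀ i, ∃ V : ℝ, ∀ t : Dtop m, ‖q.1.1.1 t i‖ ≤ V := by
    intro i
    obtain ⟨V, hV⟩ := isCompact_univ.exists_bound_of_continuousOn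
      (((continuous_apply i).comp q.1.2.contv).continuousOn (s := (Set.univ : Set (Dtop m))))
    exact ⟨V, fun t => hV t (Set.mem_univ t)⟩
  choose V hV using hv
  have hV0 : ∀ i, 0 ≤ V i := by
    intro i
    obtain ⟨t⟩ : Nonempty (Dtop m) := inferInstance
    exact (norm_nonneg _).trans (hV i t)
  have hvb : ∀ (t : Dtop m) (i : ℕ), |q.1.1.1 t i| ≤ ∑ k ∈ S, V k := by
    intro t i
    by_cases hi : i ∈ S
    · exact (hV i t).trans (Finset.single_le_sum (f := V) (fun k _ => hV0 k) hi)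
    · rw [(hs t i hi).1, abs_zero]
      exact Finset.sum_nonneg fun k _ => hV0 k
  have hsum : 0 ≤ ∑ k ∈ S, V k := Finset.sum_nonneg fun k _ => hV0 k
  refine ⟨C + ∑ k ∈ S, V k, fun t x => ?_⟩
  have hA0 := B510_thA_nonneg (q.1.1.1 t) (q.1.1.2 t) x S fun i hi => (hs t i hi).2
  have hA1 := B510_thA_le (q.1.1.1 t) (q.1.1.2 t) x S fun i hi => (hs t i hi).2
  have hB0 := B510_thB_nonneg (q.1.1.1 t) (q.1.1.2 t) x S fun i hi => (hs t i hi).2
  have hB1 := B510_thB_le (q.1.1.1 t) (q.1.1.2 t) x S fun i hi => (hs t i hi).2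
  have hm0 : 0 ≤ min 1 (2 * ‖(q.2.1.1 (t, x)).1‖) :=
    le_min zero_le_one (mul_nonneg zero_le_two (norm_nonneg _))
  have hm1 : min 1 (2 * ‖(q.2.1.1 (t, x)).1‖) ≤ 1 := min_le_left _ _
  have hmul : ∀ a b c : ℝ, 0 ≤ a → a ≤ 1 → |b| ≤ c → |a * b| ≤ c := by
    intro a b c h0 h1 h2
    rw [abs_mul, abs_of_nonneg h0]
    exact (mul_le_of_le_one_left (abs_nonneg _) h1).trans h2
  constructor
  · intro i
    show |thA (q.1.1.1 t) (q.1.1.2 t) x * (q.2.1.1 (t, x)).1 i| ≤ _
    have := hmul _ _ _ hA0 hA1 ((hC t x).1 i)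
    linarith
  · intro i
    show |thA (q.1.1.1 t) (q.1.1.2 t) x * (q.2.1.1 (t, x)).2 i -
      (min 1 (2 * ‖(q.2.1.1 (t, x)).1‖) * thB (q.1.1.1 t) (q.1.1.2 t) x) * q.1.1.1 t i| ≤ _
    have h1 := hmul _ _ _ hA0 hA1 ((hC t x).2 i)
    have h2 := hmul _ _ _ (mul_nonneg hm0 hB0) (mul_le_one₀ hm1 hB0 hB1) (hvb t i)
    exact (abs_sub _ _).trans (add_le_add h1 h2)

theorem thF_isWW {j : ℕ} (hj : 1 ≤ j) {T D : Set ℕ} (hTD : Disjoint T D) {m : ℕ}
    (F : Finset ((BX D).S m × (WWT j T).ss.S m)) (hF : IsTT D (WWb j hj T) F) :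
    IsWW j (T ∪ D) (thF F) where
  cont := by
    unfold thF
    exact continuous_finset_sum _ fun q _ => B510_cont q
  fin := by
    classical
    choose S hS h1 h2 using fun q : (BX D).S m × (WWT j T).ss.S m => B510_fin q
    refine ⟨F.biUnion S, ?_, ?_, ?_⟩
    · intro i hi
      obtain ⟨q, -, hq⟩ := Finset.mem_biUnion.1 (Finset.mem_coe.1 hi)
      exact hS q hq
    · intro t x y hxy
      exact Finset.sum_congr rfl fun q hq =>
        h1 q t x y fun i hi => hxy i (Finset.mem_biUnion.2 ⟨q, hq, hi⟩)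
    · intro t x i hi
      show (∑ q ∈ F, thS (q.1.1.1 t) (q.1.1.2 t) (q.2.1.1 (t, x)) x).2 i = 0
      rw [Prod.snd_sum, Finset.sum_apply]
      exact Finset.sum_eq_zero fun q hq =>
        h2 q t x i fun h => hi (Finset.mem_biUnion.2 ⟨q, hq, h⟩)
  bdd := by
    choose C hC using fun q : (BX D).S m × (WWT j T).ss.S m => B510_bdd q
    refine ⟨∑ q ∈ F, C q, fun t x => ⟨fun i => ?_, fun i => ?_⟩⟩
    · show |(∑ q ∈ F, thS (q.1.1.1 t) (q.1.1.2 t) (q.2.1.1 (t, x)) x).1 i| ≤ _
      rw [Prod.fst_sum, Finset.sum_apply]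
      exact (Finset.abs_sum_le_sum_abs _ _).trans
        (Finset.sum_le_sum fun q _ => (hC q t x).1 i)
    · show |(∑ q ∈ F, thS (q.1.1.1 t) (q.1.1.2 t) (q.2.1.1 (t, x)) x).2 i| ≤ _
      rw [Prod.snd_sum, Finset.sum_apply]
      exact (Finset.abs_sum_le_sum_abs _ _).trans
        (Finset.sum_le_sum fun q _ => (hC q t x).2 i)
  ne := by
    rintro t x ⟨hz1, hz2⟩
    -- the contribution of a box not containing `x`
    have hzero : ∀ q ∈ F, x ∉ BX.reg q.1 t →
        thS (q.1.1.1 t) (q.1.1.2 t) (q.2.1.1 (t, x)) x = 0 := by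
      intro q _ hq
      obtain ⟨S, hS, hs⟩ := q.1.2.supp
      have hA : thA (q.1.1.1 t) (q.1.1.2 t) x = 0 := by
        by_contra h
        exact hq fun i => (B510_thA_ne _ _ _ S (fun i hi => (hs t i hi).2) h i).trans (by norm_num)
      have hB : thB (q.1.1.1 t) (q.1.1.2 t) x = 0 := by
        by_contra h
        exact hq fun i => B510_thB_ne _ _ _ S (fun i hi => (hs t i hi).2) h i
      unfold thS
      rw [hA, hB, zero_smul, zero_smul, mul_zero, zero_smul, sub_zero]
      rfl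
    by_cases hex : ∃ q ∈ F, x ∈ BX.reg q.1 t
    · obtain ⟨q, hq, hxq⟩ := hex
      have hsum : thF F (t, x) = thS (q.1.1.1 t) (q.1.1.2 t) (q.2.1.1 (t, x)) x := by
        show ∑ q ∈ F, thS (q.1.1.1 t) (q.1.1.2 t) (q.2.1.1 (t, x)) x = _
        refine Finset.sum_eq_single q (fun q' hq' hne => ?_) (fun h => absurd hq h)
        exact hzero q' hq' fun h => hF.disj q' hq' q hq hne t x h hxq
      rw [hsum] at hz1 hz2
      obtain ⟨S, hS, hs⟩ := q.1.2.supp
      obtain ⟨S', hS', hg1, hg2⟩ := q.2.2.fin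
      have hk0 : ∀ i ∉ S, q.1.1.2 t i = 0 := fun i hi => (hs t i hi).2
      have hz1' : e0 j + thA (q.1.1.1 t) (q.1.1.2 t) x • (q.2.1.1 (t, x)).1 = 0 := hz1
      have hA0 := B510_thA_nonneg (q.1.1.1 t) (q.1.1.2 t) x S hk0
      have hA1 := B510_thA_le (q.1.1.1 t) (q.1.1.2 t) x S hk0
      have hnorm : thA (q.1.1.1 t) (q.1.1.2 t) x * ‖(q.2.1.1 (t, x)).1‖ = 1 := by
        have h1 : thA (q.1.1.1 t) (q.1.1.2 t) x • (q.2.1.1 (t, x)).1 = - e0 j :=
          eq_neg_of_add_eq_zero_right hz1'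
        have h2 := congrArg norm h1
        rw [norm_smul, norm_neg, B510_e0_norm hj, Real.norm_of_nonneg hA0] at h2
        exact h2
      have hAne : thA (q.1.1.1 t) (q.1.1.2 t) x ≠ 0 := by
        intro h
        rw [h, zero_mul] at hnorm
        exact zero_ne_one hnorm
      have hy1 : 1 ≤ ‖(q.2.1.1 (t, x)).1‖ := by
        rw [← hnorm]
        exact mul_le_of_le_one_left (norm_nonneg _) hA1
      have hmin : min 1 (2 * ‖(q.2.1.1 (t, x)).1‖) = 1 := min_eq_left (by linarith)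
      have hB := B510_thB_one (q.1.1.1 t) (q.1.1.2 t) x S hk0 hAne
      have hz2' : ∀ i, x i + (thA (q.1.1.1 t) (q.1.1.2 t) x * (q.2.1.1 (t, x)).2 i -
          q.1.1.1 t i) = 0 := by
        intro i
        have h1 := congrFun hz2 i
        have h2 : x i + (thA (q.1.1.1 t) (q.1.1.2 t) x * (q.2.1.1 (t, x)).2 i -
          (min 1 (2 * ‖(q.2.1.1 (t, x)).1‖) * thB (q.1.1.1 t) (q.1.1.2 t) x) * q.1.1.1 t i) = 0 :=
          h1
        rw [hmin, hB, one_mul, one_mul] at h2
        exact h2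
      have hyT : ∀ i ∉ T, (q.2.1.1 (t, x)).2 i = 0 := fun i hi => hg2 t x i fun h => hi (hS' h)
      have hvD : ∀ i ∉ D, q.1.1.1 t i = 0 ∧ q.1.1.2 t i = 0 := fun i hi =>
        hs t i fun h => hi (hS h)
      have hAone : thA (q.1.1.1 t) (q.1.1.2 t) x = 1 := by
        unfold thA
        apply finprod_eq_one_of_forall_eq_one
        intro i
        by_cases hi : i ∈ D
        · have h1 := hz2' i
          rw [hyT i (fun h => Set.disjoint_left.1 hTD h hi), mul_zero, zero_sub] at h1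
          have h2 : x i - q.1.1.1 t i = 0 := by linarith
          rw [h2, abs_zero, mul_zero, B510_chi1_zero]
        · rw [(hvD i hi).2, zero_mul, B510_chi1_zero]
      rw [hAone, one_smul] at hz1'
      let x' : ℕ → ℝ := fun i => if i ∈ S' then x i else 0
      have hgx : q.2.1.1 (t, x') = q.2.1.1 (t, x) :=
        hg1 t x' x fun i hi => if_pos hi
      refine q.2.2.ne t x' ⟨by rw [hgx]; exact hz1', ?_⟩
      rw [hgx]
      funext i
      show x' i + (q.2.1.1 (t, x)).2 i = 0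
      by_cases hi : i ∈ S'
      · have h1 := hz2' i
        rw [hAone, one_mul, (hvD i fun h => Set.disjoint_left.1 hTD (hS' hi) h).1, sub_zero] at h1
        show (if i ∈ S' then x i else 0) + (q.2.1.1 (t, x)).2 i = 0
        rw [if_pos hi]
        exact h1
      · show (if i ∈ S' then x i else 0) + (q.2.1.1 (t, x)).2 i = 0
        rw [if_neg hi, hg2 t x i hi, zero_add]
    · have hsum : thF F (t, x) = 0 := by
        show ∑ q ∈ F, thS (q.1.1.1 t) (q.1.1.2 t) (q.2.1.1 (t, x)) x = 0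
        exact Finset.sum_eq_zero fun q hq => hzero q hq fun h => hex ⟨q, hq, h⟩
      rw [hsum] at hz1
      have h1 : e0 j = 0 := by simpa using hz1
      have h2 := B510_e0_norm hj
      rw [h1, norm_zero] at h2
      exact zero_ne_one h2

end MM

end

/-! ### from `Lib_MP_33f7bb_d.B511` -/

section

/-!
# B5-11 (W4): naturality of `thF`, and `thF` of a single full box

* `thF_act`: `thF (actF f F) p = ∑` over the image; the map `q ↦ (act f q.1, act f q.2)` is injective on `F` (`IsTT.injOn`), and a term whose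
  label `act f g` is the base simplex (the zero function, `WWb_deg`) contributes `thS v κ 0 x = 0` (`thA • 0 = 0`, `min 1 (2 * 0) = 0`), so
  dropping it changes nothing; each remaining term is the term of `F` at `(tmap f p.1, p.2)` (definitions, `WWT_act`).
* `thF_jj`: if `g` is the base simplex, `thF ∅ = 0 = g`.  Otherwise one term: `v = 0`, `κ = 0`: `thA = 1` (all factors `chi1 0 = 1`), and
  the `v`-term vanishes: `thS 0 0 y x = y`.
-/

namespace MM

private theorem B511_thS_zero {j : ℕ} (v κ x : ℕ → ℝ) :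
    thS v κ (0 : (Fin j → ℝ) × (ℕ → ℝ)) x = 0 := by
  unfold thS
  apply Prod.ext
  · simp
  · simp

private theorem B511_thA_zero (x : ℕ → ℝ) : thA (fun _ => 0) (fun _ => 0) x = 1 := by
  unfold thA
  have h : ∀ i : ℕ, chi1 (0 * |x i - 0|) = 1 := by
    intro i
    rw [zero_mul]
    unfold chi1
    norm_num
  rw [finprod_congr h, finprod_one]

private theorem B511_thS_all {j : ℕ} (y : (Fin j → ℝ) × (ℕ → ℝ)) (x : ℕ → ℝ) :
    thS (fun _ => 0) (fun _ => 0) y x = y := by
  unfold thS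
  rw [B511_thA_zero]
  apply Prod.ext
  · simp
  · funext i
    simp

open Classical in
private theorem B511_sum {V : Type} [AddCommMonoid V] {D : Set ℕ} {W : SS} (w0 : W.S 0) {m n : ℕ}
    (f : Mo m n) (F : Finset ((BX D).S n × W.S n)) (hF : IsTT D w0 F)
    (φ : (BX D).S m × W.S m → V) :
    ∑ q ∈ actF D w0 f F, φ q =
      ∑ q ∈ F, if W.act f q.2 ≠ W.deg w0 m then φ ((BX D).act f q.1, W.act f q.2) else 0 := by
  unfold actF
  rw [Finset.sum_filter, Finset.sum_image (hF.injOn f)]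

theorem thF_act {j : ℕ} (hj : 1 ≤ j) {T D : Set ℕ} {m n : ℕ} (f : Mo m n)
    (F : Finset ((BX D).S n × (WWT j T).ss.S n)) (hF : IsTT D (WWb j hj T) F)
    (p : Dtop m × (ℕ → ℝ)) :
    thF (actF D (WWb j hj T) f F) p = thF F (tmap f p.1, p.2) := by
  unfold thF
  rw [B511_sum (WWb j hj T) f F hF]
  refine Finset.sum_congr rfl fun q _ => ?_
  by_cases h : (WWT j T).ss.act f q.2 = (WWT j T).ss.deg (WWb j hj T) m
  · have h1 : q.2.1.1 (tmap f p.1, p.2) = 0 := by
      have h2 : ((WWT j T).ss.act f q.2).1.1 p = q.2.1.1 (tmap f p.1, p.2) := WWT_act f q.2 p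
      rw [← h2, h]
      rfl
    rw [if_neg (not_not.2 h)]
    show (0 : (Fin j → ℝ) × (ℕ → ℝ)) = thS _ _ (q.2.1.1 (tmap f p.1, p.2)) p.2
    rw [h1]
    exact (B511_thS_zero _ _ _).symm
  · rw [if_pos h]

theorem thF_jj {j : ℕ} (hj : 1 ≤ j) {T D : Set ℕ} {m : ℕ} (g : (WWT j T).ss.S m)
    (p : Dtop m × (ℕ → ℝ)) : thF (jjF D (WWb j hj T) g) p = g.1.1 p := by
  unfold thF jjF
  by_cases h : g = (WWT j T).ss.deg (WWb j hj T) m
  · rw [if_pos h, Finset.sum_empty, h]
    rfl
  · rw [if_neg h, Finset.sum_singleton]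
    exact B511_thS_all _ _

end MM

end

/-! ### from `Lib_MP_33f7bb_d.D3` -/

section

/-!
# D3: solved tasks are stably trivial; tasks on closed subspaces
-/

open Set Filter Topology

namespace MM

open SMD

/-- all tasks with trivial boundary (of degree at least `3`) are solved on `X` -/
def TB (X : Type) [TopologicalSpace X] : Prop :=
  ∀ (j k : ℕ) (A : Set X) (φ : X × (Fin k → ℝ) → (Fin j → ℝ) × (Fin k → ℝ)), 3 ≤ j →
    IsTask j k A φ → Solved (id : X → X) A φ

/-- PROOF.  Let `l, Φ, C` be the solution; `φ (x, t) - (e0, t)` is bounded by some `C₁`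
(it is `0` for `‖t‖ ≥ 1`, and `X × closedBall 0 1` is compact).  Let `c = C + C₁ + 1`, so
`‖Φ (x, t, s) - (φ (x, t), s)‖ ≤ C + C₁ < c` always (sup norms), and this difference is `0` for
`x ∈ A`.  Let `χ (t, s) = max 0 (min 1 (2 - ‖(t, s)‖ / c))` and
`Φ' (x, t, s) = (φ (x, t), s) + χ (t, s) • (Φ (x, t, s) - (φ (x, t), s))`
(write `(φ (x, t), s)` for `((φ (x, t)).1, (φ (x, t)).2, s)`).
`Φ'` has no zeros: if `‖(t, s)‖ ≤ c` then `χ = 1` and `Φ' = Φ`; if `‖s‖ > c` or `= c` the last coordinate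
has norm `≥ ‖s‖ - (C + C₁) > 0`; if `‖t‖ ≥ c ≥ 1` then `φ (x, t) = (e0, t)` and the coordinate
`t + χ • (...)` has norm `> 0`.  `Φ' = (φ (x, t), s)` if `x ∈ A` or `‖t‖ ≥ 2 c` or `‖s‖ ≥ 2 c`.
With `φ_r (x, t) = ((φ (x, r t)).1, r⁻¹ • (φ (x, r t)).2)` the map
`G ((x, t), s) = ((a, (2c)⁻¹ • b), (2c)⁻¹ • d)`, `(a, b, d) = Φ' (x, 2c t, 2c s)`, shows
`StabNull B φ_(2c)`, where `B` is the set in the statement.  Finally `stabNull_htp` for
`H (z, u) = φ_r z`, `r = 2 c + u (1 - 2 c)` (replace `r` by `max 1 r` to have a continuous `H`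
for all real `u`); on `B` it has no zeros (for `‖t‖ ≥ 1`, `r ≥ 1`: `φ_r (x, t) = (e0, t)`;
`e0 ≠ 0` because `1 ≤ j`). -/
theorem stabNull_of_solved {X : Type} [MetricSpace X] [CompactSpace X] {j k : ℕ} (hj : 1 ≤ j)
    {A : Set X} {φ : X × (Fin k → ℝ) → (Fin j → ℝ) × (Fin k → ℝ)} (h : IsTask j k A φ)
    (hs : Solved (id : X → X) A φ) :
    StabNull {p : X × (Fin k → ℝ) | p.1 ∈ A ∨ 1 ≤ ‖p.2‖} φ := by
  obtain ⟨l, Φ, hΦc, hΦ0, ⟨C, hC⟩, hΦA⟩ := hs
  set c : ℝ := max C 0 + 1 with hcdef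
  have hc1 : 1 ≤ c := by have := le_max_right C 0; linarith
  have hcC : C < c := by have := le_max_left C 0; linarith
  have hc0 : 0 < c := by linarith
  have h2c : 0 < 2 * c := by linarith
  -- the cut off function
  let χ : (Fin k → ℝ) × (Fin l → ℝ) → ℝ := fun q => max 0 (min 1 (2 - ‖q‖ / c))
  have hχc : Continuous χ := by
    have : Continuous fun q : (Fin k → ℝ) × (Fin l → ℝ) => ‖q‖ / c := continuous_norm.div_const c
    exact continuous_const.max (continuous_const.min (continuous_const.sub this))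
  have hχ0 : ∀ q, 0 ≤ χ q := fun q => le_max_left _ _
  have hχ1 : ∀ q, χ q ≤ 1 := fun q => max_le zero_le_one (min_le_left _ _)
  have hχa : ∀ q, ‖q‖ ≤ c → χ q = 1 := by
    intro q hq
    have h1 : ‖q‖ / c ≤ 1 := (div_le_one hc0).2 hq
    have h2 : min (1 : ℝ) (2 - ‖q‖ / c) = 1 := min_eq_left (by linarith)
    show max 0 (min 1 (2 - ‖q‖ / c)) = 1
    rw [h2]; exact max_eq_right zero_le_one
  have hχb : ∀ q, 2 * c ≤ ‖q‖ → χ q = 0 := by
    intro q hq
    have h1 : 2 ≤ ‖q‖ / c := (le_div_iff₀ hc0).2 hq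
    have h2 : min (1 : ℝ) (2 - ‖q‖ / c) ≤ 0 := (min_le_right _ _).trans (by linarith)
    exact max_eq_left h2
  let hat : X × (Fin k → ℝ) × (Fin l → ℝ) → (Fin j → ℝ) × (Fin k → ℝ) × (Fin l → ℝ) :=
    fun p => ((φ (p.1, p.2.1)).1, (φ (p.1, p.2.1)).2, p.2.2)
  have hhat : Continuous hat := by
    have h1 : Continuous fun p : X × (Fin k → ℝ) × (Fin l → ℝ) => φ (p.1, p.2.1) :=
      h.cont.comp (by fun_prop)
    exact (continuous_fst.comp h1).prodMk ((continuous_snd.comp h1).prodMk (by fun_prop))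
  let Ψ : X × (Fin k → ℝ) × (Fin l → ℝ) → (Fin j → ℝ) × (Fin k → ℝ) × (Fin l → ℝ) :=
    fun p => hat p + χ p.2 • (Φ p - hat p)
  have hΨc : Continuous Ψ := by
    have h1 : Continuous fun p : X × (Fin k → ℝ) × (Fin l → ℝ) => χ p.2 :=
      hχc.comp continuous_snd
    exact hhat.add (h1.smul (hΦc.sub hhat))
  -- bounds
  have hCt : ∀ x t s, ‖(Φ (x, t, s)).2.1 - t‖ ≤ C := fun x t s =>
    ((norm_fst_le _).trans (norm_snd_le _)).trans (hC x t s)
  have hCs : ∀ x t s, ‖(Φ (x, t, s)).2.2 - s‖ ≤ C := fun x t s =>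
    ((norm_snd_le _).trans (norm_snd_le _)).trans (hC x t s)
  have hsm : ∀ (q : (Fin k → ℝ) × (Fin l → ℝ)) {E : Type} [NormedAddCommGroup E]
      [NormedSpace ℝ E] (v : E), ‖χ q • v‖ ≤ ‖v‖ := by
    intro q E _ _ v
    rw [norm_smul, Real.norm_of_nonneg (hχ0 q)]
    exact mul_le_of_le_one_left (norm_nonneg v) (hχ1 q)
  have hΨ0 : ∀ p, Ψ p ≠ 0 := by
    rintro ⟨x, t, s⟩ h0
    by_cases hq : ‖(t, s)‖ ≤ c
    · apply hΦ0 (x, t, s)
      have : Ψ (x, t, s) = Φ (x, t, s) := by
        show hat (x, t, s) + χ (t, s) • (Φ (x, t, s) - hat (x, t, s)) = _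
        rw [hχa _ hq, one_smul]; abel
      rw [← this]; exact h0
    · push Not at hq
      rcases lt_max_iff.1 (hq.trans_eq (Prod.norm_def (t, s))) with ht | ht
      · have ht : c < ‖t‖ := ht
        have h1 : φ (x, t) = (e0 j, t) := h.triv x t (hc1.trans ht.le)
        have h2 : (Ψ (x, t, s)).2.1 = 0 := by rw [h0]; rfl
        have h3 : (Ψ (x, t, s)).2.1 = t + χ (t, s) • ((Φ (x, t, s)).2.1 - t) := by
          show (φ (x, t)).2 + χ (t, s) • ((Φ (x, t, s)).2.1 - (φ (x, t)).2) = _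
          rw [h1]
        have h4 : t = -(χ (t, s) • ((Φ (x, t, s)).2.1 - t)) := by
          rw [eq_neg_iff_add_eq_zero, ← h3, h2]
        have h5 : ‖t‖ ≤ C := by
          calc ‖t‖ = ‖χ (t, s) • ((Φ (x, t, s)).2.1 - t)‖ := by
                conv_lhs => rw [h4]
                rw [norm_neg]
            _ ≤ _ := hsm _ _
            _ ≤ C := hCt x t s
        linarith
      · have ht : c < ‖s‖ := ht
        have h2 : (Ψ (x, t, s)).2.2 = 0 := by rw [h0]; rfl
        have h3 : (Ψ (x, t, s)).2.2 = s + χ (t, s) • ((Φ (x, t, s)).2.2 - s) := rfl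
        have h4 : s = -(χ (t, s) • ((Φ (x, t, s)).2.2 - s)) := by
          rw [eq_neg_iff_add_eq_zero, ← h3, h2]
        have h5 : ‖s‖ ≤ C := by
          calc ‖s‖ = ‖χ (t, s) • ((Φ (x, t, s)).2.2 - s)‖ := by
                conv_lhs => rw [h4]
                rw [norm_neg]
            _ ≤ _ := hsm _ _
            _ ≤ C := hCs x t s
        linarith
  have hΨb : ∀ x t s, (x ∈ A ∨ 2 * c ≤ ‖t‖ ∨ 2 * c ≤ ‖s‖) → Ψ (x, t, s) = hat (x, t, s) := by
    intro x t s hx
    show hat (x, t, s) + χ (t, s) • (Φ (x, t, s) - hat (x, t, s)) = _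
    rcases hx with hx | hx | hx
    · have : Φ (x, t, s) = hat (x, t, s) := hΦA x t s hx
      rw [this, sub_self, smul_zero, add_zero]
    · rw [hχb _ (hx.trans (norm_fst_le (t, s))), zero_smul, add_zero]
    · rw [hχb _ (hx.trans (norm_snd_le (t, s))), zero_smul, add_zero]
  -- the homotopy
  let r : ℝ → ℝ := fun u => max 1 (2 * c + u * (1 - 2 * c))
  have hrc : Continuous r := by fun_prop
  have hr1 : ∀ u, 1 ≤ r u := fun u => le_max_left _ _
  have hr0 : ∀ u, r u ≠ 0 := fun u => (zero_lt_one.trans_le (hr1 u)).ne'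
  let H : (X × (Fin k → ℝ)) × ℝ → (Fin j → ℝ) × (Fin k → ℝ) := fun q =>
    ((φ (q.1.1, r q.2 • q.1.2)).1, (r q.2)⁻¹ • (φ (q.1.1, r q.2 • q.1.2)).2)
  have hHc : Continuous H := by
    have h0 : Continuous fun q : (X × (Fin k → ℝ)) × ℝ => r q.2 := hrc.comp continuous_snd
    have h1 : Continuous fun q : (X × (Fin k → ℝ)) × ℝ => φ (q.1.1, r q.2 • q.1.2) :=
      h.cont.comp ((continuous_fst.comp continuous_fst).prodMk
        (h0.smul (continuous_snd.comp continuous_fst)))
    exact (continuous_fst.comp h1).prodMk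
      ((h0.inv₀ fun q => hr0 q.2).smul (continuous_snd.comp h1))
  have hB : IsClosed {p : X × (Fin k → ℝ) | p.1 ∈ A ∨ 1 ≤ ‖p.2‖} :=
    (h.closed.preimage continuous_fst).union
      (isClosed_le continuous_const (continuous_norm.comp continuous_snd))
  have he0 : e0 j ≠ 0 := by
    intro h0
    have := congrFun h0 ⟨0, hj⟩
    simp [e0] at this
  have hH0 : ∀ z ∈ {p : X × (Fin k → ℝ) | p.1 ∈ A ∨ 1 ≤ ‖p.2‖}, ∀ u ∈ Icc (0 : ℝ) 1,
      H (z, u) ≠ 0 := by
    rintro ⟨x, t⟩ hz u - h0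
    have ha : (φ (x, r u • t)).1 = 0 := congrArg Prod.fst h0
    have hb : (r u)⁻¹ • (φ (x, r u • t)).2 = 0 := congrArg Prod.snd h0
    have hb' : (φ (x, r u • t)).2 = 0 := (smul_eq_zero.1 hb).resolve_left (inv_ne_zero (hr0 u))
    rcases hz with hz | hz
    · exact h.ne x hz _ (Prod.ext ha hb')
    · have hz : 1 ≤ ‖t‖ := hz
      have hn : 1 ≤ ‖r u • t‖ := by
        rw [norm_smul, Real.norm_of_nonneg (zero_le_one.trans (hr1 u))]
        exact one_le_mul_of_one_le_of_one_le (hr1 u) hz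
      rw [h.triv x _ hn] at ha
      exact he0 ha
  have hr_0 : r 0 = 2 * c := by
    show max 1 (2 * c + 0 * (1 - 2 * c)) = 2 * c
    rw [zero_mul, add_zero]; exact max_eq_right (by linarith)
  have hr_1 : r 1 = 1 := by
    show max 1 (2 * c + 1 * (1 - 2 * c)) = 1
    have : 2 * c + 1 * (1 - 2 * c) = 1 := by ring
    rw [this, max_self]
  have hH1 : (fun z => H (z, 1)) = φ := by
    funext z
    show ((φ (z.1, r 1 • z.2)).1, (r 1)⁻¹ • (φ (z.1, r 1 • z.2)).2) = φ z
    rw [hr_1]; simp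
  rw [← hH1]
  refine stabNull_htp hB H hHc hH0 ?_
  refine ⟨Fin l → ℝ, inferInstance, inferInstance, inferInstance,
    fun q => (((Ψ (q.1.1, (2 * c) • q.1.2, (2 * c) • q.2)).1,
      (2 * c)⁻¹ • (Ψ (q.1.1, (2 * c) • q.1.2, (2 * c) • q.2)).2.1),
      (2 * c)⁻¹ • (Ψ (q.1.1, (2 * c) • q.1.2, (2 * c) • q.2)).2.2), ?_, ?_, ?_⟩
  · have h1 : Continuous fun q : (X × (Fin k → ℝ)) × (Fin l → ℝ) =>
        Ψ (q.1.1, (2 * c) • q.1.2, (2 * c) • q.2) := hΨc.comp (by fun_prop)
    exact ((continuous_fst.comp h1).prodMk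
      ((continuous_fst.comp (continuous_snd.comp h1)).const_smul ((2 * c)⁻¹))).prodMk
      ((continuous_snd.comp (continuous_snd.comp h1)).const_smul ((2 * c)⁻¹))
  · rintro ⟨⟨x, t⟩, s⟩ h0
    apply hΨ0 (x, (2 * c) • t, (2 * c) • s)
    have ha := congrArg (fun q => q.1.1) h0
    have hb := congrArg (fun q => q.1.2) h0
    have hd := congrArg (fun q => q.2) h0
    have hi : (2 * c)⁻¹ ≠ 0 := inv_ne_zero h2c.ne'
    exact Prod.ext ha (Prod.ext ((smul_eq_zero.1 hb).resolve_left hi)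
      ((smul_eq_zero.1 hd).resolve_left hi))
  · rintro ⟨x, t⟩ s hz
    have hz' : x ∈ A ∨ 2 * c ≤ ‖(2 * c) • t‖ ∨ 2 * c ≤ ‖(2 * c) • s‖ := by
      rcases hz with (hz | hz) | hz
      · exact Or.inl hz
      · right; left
        have hz : 1 ≤ ‖t‖ := hz
        rw [norm_smul, Real.norm_of_nonneg h2c.le]
        exact le_mul_of_one_le_right h2c.le hz
      · right; right
        rw [norm_smul, Real.norm_of_nonneg h2c.le]
        exact le_mul_of_one_le_right h2c.le hz
    have h1 := hΨb x ((2 * c) • t) ((2 * c) • s) hz'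
    show (((Ψ (x, (2 * c) • t, (2 * c) • s)).1, (2 * c)⁻¹ • (Ψ (x, (2 * c) • t, (2 * c) • s)).2.1),
      (2 * c)⁻¹ • (Ψ (x, (2 * c) • t, (2 * c) • s)).2.2) =
      (((φ (x, r 0 • t)).1, (r 0)⁻¹ • (φ (x, r 0 • t)).2), s)
    rw [h1, hr_0]
    show (((φ (x, (2 * c) • t)).1, (2 * c)⁻¹ • (φ (x, (2 * c) • t)).2),
      (2 * c)⁻¹ • ((2 * c) • s)) = _
    rw [inv_smul_smul₀ h2c.ne']

/-- Tasks on a closed subspace `Z` extend to the whole space.

PROOF.  Let `A, φ` be a task on `Z`.  The map `ψ (x, t) = φ (x, t) - (e0, t)` on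
`Z × (Fin k → ℝ)` vanishes for `‖t‖ ≥ 1`.  The function which is `ψ` on `Z × (Fin k → ℝ)` and `0` on
`K × {‖t‖ ≥ 1}` is continuous on the closed union of these two sets; extend it by Tietze
(`ContinuousMap.exists_restrict_eq`, the target is a finite dimensional vector space) to `ψ'`
on `K × (Fin k → ℝ)`; `φ' (x, t) = ψ' (x, t) + (e0, t)` with `A' = Subtype.val '' A` is a task on `K`.
Restrict the solution. -/
theorem TB.sub {K : Type} [MetricSpace K] [CompactSpace K] (h : TB K) {Z : Set K}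
    (hZ : IsClosed Z) : TB Z := by
  classical
  intro j k A φ hj ht
  let ψ : K × (Fin k → ℝ) → (Fin j → ℝ) × (Fin k → ℝ) := fun p =>
    if hp : p.1 ∈ Z then φ (⟨p.1, hp⟩, p.2) - (e0 j, p.2) else 0
  have hψZ : ∀ (z : Z) (t : Fin k → ℝ), ψ (z.1, t) = φ (z, t) - (e0 j, t) := by
    intro z t
    show (if hp : z.1 ∈ Z then φ (⟨z.1, hp⟩, t) - (e0 j, t) else 0) = _
    rw [dif_pos z.2]
  have hψt : ∀ (x : K) (t : Fin k → ℝ), 1 ≤ ‖t‖ → ψ (x, t) = 0 := by
    intro x t h1
    show (if hp : x ∈ Z then φ (⟨x, hp⟩, t) - (e0 j, t) else 0) = _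
    split_ifs with hp
    · rw [ht.triv _ _ h1, sub_self]
    · rfl
  have hS1 : IsClosed {p : K × (Fin k → ℝ) | p.1 ∈ Z} := hZ.preimage continuous_fst
  have hS2 : IsClosed {p : K × (Fin k → ℝ) | 1 ≤ ‖p.2‖} :=
    isClosed_le continuous_const (continuous_norm.comp continuous_snd)
  have hc1 : ContinuousOn ψ {p : K × (Fin k → ℝ) | p.1 ∈ Z} := by
    rw [continuousOn_iff_continuous_domRestrict]
    have h1 : Continuous fun p : {p : K × (Fin k → ℝ) | p.1 ∈ Z} =>
        φ ((⟨p.1.1, p.2⟩ : Z), p.1.2) - (e0 j, p.1.2) := by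
      refine Continuous.sub (ht.cont.comp ?_) (by fun_prop)
      exact ((continuous_fst.comp continuous_subtype_val).subtype_mk _).prodMk
        (continuous_snd.comp continuous_subtype_val)
    convert h1 using 1
    funext p
    exact hψZ ⟨p.1.1, p.2⟩ p.1.2
  have hc2 : ContinuousOn ψ {p : K × (Fin k → ℝ) | 1 ≤ ‖p.2‖} :=
    (continuousOn_const (c := (0 : (Fin j → ℝ) × (Fin k → ℝ)))).congr
      fun p hp => hψt p.1 p.2 hp
  have hc := hc1.union_of_isClosed hc2 hS1 hS2
  rw [continuousOn_iff_continuous_domRestrict] at hc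
  obtain ⟨g, hg⟩ := ContinuousMap.exists_restrict_eq (hS1.union hS2) ⟨_, hc⟩
  have hg' : ∀ p ∈ {p : K × (Fin k → ℝ) | p.1 ∈ Z} ∪ {p : K × (Fin k → ℝ) | 1 ≤ ‖p.2‖},
      g p = ψ p := fun p hp => DFunLike.congr_fun hg ⟨p, hp⟩
  have htask : IsTask j k (Subtype.val '' A) fun p : K × (Fin k → ℝ) => g p + (e0 j, p.2) := by
    refine ⟨hZ.isClosedMap_subtype_val A ht.closed, ?_, ?_, ?_⟩
    · exact g.continuous.add (by fun_prop)
    · intro x t h1
      show g (x, t) + (e0 j, t) = _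
      rw [hg' _ (Or.inr h1), hψt x t h1, zero_add]
    · rintro x ⟨z, hz, rfl⟩ t
      show g (z.1, t) + (e0 j, t) ≠ 0
      rw [hg' _ (Or.inl z.2), hψZ, sub_add_cancel]
      exact ht.ne z hz t
  obtain ⟨l, Φ, hΦc, hΦ0, ⟨C, hC⟩, hΦA⟩ := h j k _ _ hj htask
  refine ⟨l, fun p => Φ (p.1.1, p.2.1, p.2.2), hΦc.comp (by fun_prop), fun p => hΦ0 _,
    ⟨C, fun x t s => hC _ _ _⟩, ?_⟩
  intro x t s hx
  have h1 := hΦA x.1 t s ⟨x, hx, rfl⟩
  have h2 : g (x.1, t) + (e0 j, t) = φ (x, t) := by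
    rw [hg' _ (Or.inl x.2), hψZ, sub_add_cancel]
  show Φ (x.1, t, s) = _
  rw [h1]
  show ((g (x.1, t) + (e0 j, t)).1, (g (x.1, t) + (e0 j, t)).2, s) = _
  rw [h2]; rfl

end MM

end

/-! ### from `Lib_MP_33f7bb_d.D2` -/

section

/-!
# D2: general position
-/

open Set Filter Topology

namespace MM

/-- General position.

PROOF.  Let `E = (Fin j → ℝ) × (Fin k → ℝ)`.
(1) There is a `C^1` (even smooth) map `f' : (Fin k → ℝ) → E` with `‖f' v - f v‖ < ε / 2` for all `v`:
smooth approximation, for instance `exists_contMDiffOn_forall_mem_convex_of_local` /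
`exists_smooth_forall_mem_convex_of_local` (Mathlib, Geometry.Manifold.PartitionOfUnity) with the
convex sets `ball (f v) (ε / 2)` and locally constant local sections (`f v₀` near `v₀`).
(2) The map `g (v, a, b) = f' v + (a • e0 j, b • v)` from `(Fin k → ℝ) × ℝ × ℝ` to `E` is `C^1`, and
`finrank ((Fin k → ℝ) × ℝ × ℝ) = k + 2 < j + k = finrank E`.  So the complement of its range is
dense (`ContDiff.dense_compl_range_of_finrank_lt_finrank`), hence there is `c ∉ range g` with
`‖c‖ < ε / 2`.  Put `p v = f' v - c`. -/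
theorem exists_generic {j k : ℕ} (hj : 3 ≤ j) (f : (Fin k → ℝ) → (Fin j → ℝ) × (Fin k → ℝ))
    (hf : Continuous f) (ε : ℝ) (hε : 0 < ε) :
    ∃ p : (Fin k → ℝ) → (Fin j → ℝ) × (Fin k → ℝ), Continuous p ∧ (∀ v, ‖p v - f v‖ < ε) ∧
      ∀ (v : Fin k → ℝ) (a b : ℝ), p v + (a • e0 j, b • v) ≠ 0 := by
  obtain ⟨f', hf', hd, -⟩ := hf.exists_contDiff_approx 1 (ε := fun _ => ε / 2) continuous_const
    (fun _ => by positivity)
  set g : (Fin k → ℝ) × ℝ × ℝ → (Fin j → ℝ) × (Fin k → ℝ) :=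
    fun x => f' x.1 + (x.2.1 • e0 j, x.2.2 • x.1) with hg
  have hgc : ContDiff ℝ 1 g := by
    rw [hg]
    have h1 : ContDiff ℝ 1 (fun x : (Fin k → ℝ) × ℝ × ℝ => f' x.1) := hf'.comp contDiff_fst
    refine h1.add (ContDiff.prodMk ?_ ?_)
    · exact (contDiff_fst.comp contDiff_snd).smul contDiff_const
    · exact (contDiff_snd.comp contDiff_snd).smul contDiff_fst
  have hfin : Module.finrank ℝ ((Fin k → ℝ) × ℝ × ℝ) <
      Module.finrank ℝ ((Fin j → ℝ) × (Fin k → ℝ)) := by
    simp only [Module.finrank_prod, Module.finrank_fin_fun, Module.finrank_self]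
    omega
  have hdense := hgc.dense_compl_range_of_finrank_lt_finrank hfin
  obtain ⟨c, hc, hcd⟩ := hdense.exists_dist_lt 0 (half_pos hε)
  have hcn : ‖c‖ < ε / 2 := by
    rwa [dist_comm, dist_zero_right] at hcd
  refine ⟨fun v => f' v - c, hf'.continuous.sub continuous_const, ?_, ?_⟩
  · intro v
    have h1 := hd v
    rw [dist_eq_norm] at h1
    have h2 : f' v - c - f v = (f' v - f v) - c := by abel
    rw [h2]
    calc ‖(f' v - f v) - c‖ ≤ ‖f' v - f v‖ + ‖c‖ := norm_sub_le _ _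
      _ < ε / 2 + ε / 2 := by
        have h3 : ‖f' v - f v‖ < ε / 2 := h1
        linarith
      _ = ε := by ring
  · intro v a b h
    apply hc
    refine ⟨(v, a, b), ?_⟩
    show f' v + (a • e0 j, b • v) = c
    have h1 : f' v - c + (a • e0 j, b • v) = 0 := h
    have h2 : f' v + (a • e0 j, b • v) - c = f' v - c + (a • e0 j, b • v) := add_sub_right_comm _ _ _
    exact sub_eq_zero.1 (h2.trans h1)

end MM

end

/-! ### from `Lib_MP_33f7bb_d.D4` -/

section

/-!
# D4: maps which are nearly constant in `x` on the unit sphere are stably trivial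
-/

open Set Filter Topology

namespace MM

open SMD

private noncomputable def d4_r {k : ℕ} (v : Fin k → ℝ) : Fin k → ℝ := (max 1 ‖v‖)⁻¹ • v

private theorem d4_r_cont {k : ℕ} : Continuous (d4_r (k := k)) := by
  have h : Continuous fun v : Fin k → ℝ => max (1 : ℝ) ‖v‖ := continuous_const.max continuous_norm
  exact (h.inv₀ fun v => (lt_of_lt_of_le one_pos (le_max_left _ _)).ne').smul continuous_id

private theorem d4_r_norm {k : ℕ} {v : Fin k → ℝ} (hv : 1 ≤ ‖v‖) : ‖d4_r v‖ = 1 := by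
  have h0 : ‖v‖ ≠ 0 := (lt_of_lt_of_le one_pos hv).ne'
  rw [d4_r, norm_smul, norm_inv, max_eq_right hv, norm_norm, inv_mul_cancel₀ h0]

private theorem d4_r_smul {k : ℕ} {v : Fin k → ℝ} (hv : 1 ≤ ‖v‖) : ‖v‖ • d4_r v = v := by
  have h0 : ‖v‖ ≠ 0 := (lt_of_lt_of_le one_pos hv).ne'
  rw [d4_r, max_eq_right hv, smul_smul, mul_inv_cancel₀ h0, one_smul]

private noncomputable def d4_c {k : ℕ} (a : ℝ) (v : Fin k → ℝ) : ℝ := min 1 (max 0 (‖v‖ - a))

private theorem d4_c_cont {k : ℕ} (a : ℝ) : Continuous (d4_c (k := k) a) := by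
  unfold d4_c
  fun_prop

private theorem d4_c_nonneg {k : ℕ} (a : ℝ) (v : Fin k → ℝ) : 0 ≤ d4_c a v :=
  le_min zero_le_one (le_max_left _ _)

private theorem d4_c_le {k : ℕ} (a : ℝ) (v : Fin k → ℝ) : d4_c a v ≤ 1 := min_le_left _ _

private theorem d4_c_zero {k : ℕ} {a : ℝ} {v : Fin k → ℝ} (h : ‖v‖ ≤ a) : d4_c a v = 0 := by
  rw [d4_c, max_eq_left (by linarith), min_eq_right zero_le_one]

private theorem d4_c_one {k : ℕ} {a : ℝ} {v : Fin k → ℝ} (h : a + 1 ≤ ‖v‖) : d4_c a v = 1 := by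
  rw [d4_c, max_eq_right (by linarith), min_eq_left (by linarith)]

private theorem d4_eps {Z : Type} [MetricSpace Z] [CompactSpace Z] {j k : ℕ}
    (F : Z × (Fin k → ℝ) → (Fin j → ℝ) × (Fin k → ℝ)) (hF : Continuous F) (x₀ : Z)
    (hQ : ∀ x v, ‖v‖ = 1 → ∀ u ∈ Icc (0 : ℝ) 1, (1 - u) • F (x, v) + u • F (x₀, v) ≠ 0) :
    ∃ ε : ℝ, 0 < ε ∧ ∀ x v, ‖v‖ = 1 → ∀ u ∈ Icc (0 : ℝ) 1,
      ε ≤ ‖(1 - u) • F (x, v) + u • F (x₀, v)‖ := by
  set K : Set (Z × (Fin k → ℝ) × ℝ) :=
    univ ×ˢ (Metric.sphere (0 : Fin k → ℝ) 1 ×ˢ Icc (0 : ℝ) 1) with hK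
  have hKc : IsCompact K := isCompact_univ.prod ((isCompact_sphere _ _).prod isCompact_Icc)
  have hc : Continuous fun q : Z × (Fin k → ℝ) × ℝ =>
      ‖(1 - q.2.2) • F (q.1, q.2.1) + q.2.2 • F (x₀, q.2.1)‖ := by
    fun_prop
  rcases K.eq_empty_or_nonempty with he | hne
  · refine ⟨1, one_pos, fun x v hv u hu => ?_⟩
    exfalso
    have : (x, v, u) ∈ K := ⟨trivial, by simpa using hv, hu⟩
    rw [he] at this
    exact this
  · obtain ⟨⟨x₁, v₁, u₁⟩, hq, hmin⟩ := hKc.exists_isMinOn hne hc.continuousOn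
    have hv₁ : v₁ ∈ Metric.sphere (0 : Fin k → ℝ) 1 := hq.2.1
    rw [mem_sphere_zero_iff_norm] at hv₁
    have hu₁ : u₁ ∈ Icc (0 : ℝ) 1 := hq.2.2
    refine ⟨‖(1 - u₁) • F (x₁, v₁) + u₁ • F (x₀, v₁)‖, norm_pos_iff.2 (hQ x₁ v₁ hv₁ u₁ hu₁), ?_⟩
    intro x v hv u hu
    have hm : (x, v, u) ∈ K := ⟨trivial, mem_sphere_zero_iff_norm.2 hv, hu⟩
    have h1 := isMinOn_iff.1 hmin (x, v, u) hm
    exact h1

/-- PROOF.  Let `B` be the set in the statement (closed).
Let `r v = (max 1 ‖v‖)⁻¹ • v`, `c₁ v = min 1 (max 0 (‖v‖ - 1))`, `c₂ v = min 1 (max 0 (‖v‖ - 2))`.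
By compactness of `Z × sphere × [0,1]` (may be empty) there is `ε > 0` with
`ε ≤ ‖(1 - u) • F (x, v) + u • F (x₀, v)‖` for `‖v‖ = 1`, `u ∈ [0,1]`.  Let `p` be given by
`exists_generic` for `f = fun v => F (x₀, v)` and `ε / 2`.  Then `(1 - u) • F (x, v) + u • p v ≠ 0` for
`‖v‖ = 1`, `u ∈ [0,1]`.  Put
`F₁ (x, v) = (1 - c₁ v) • F (x, r v) + c₁ v • p (r v)`,
`F₂ (x, v) = (1 - c₂ v) • F₁ (x, v) + c₂ v • (e0, v)`,
`F₃ (x, v) = ((F₂ (x, 3 v)).1, 3⁻¹ • (F₂ (x, 3 v)).2)`.
`F₃ (x, v) = (e0, v)` for `‖v‖ ≥ 1`, so `IsTask j k A F₃` and `StabNull B F₃` by `TB` and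
`stabNull_of_solved`.  Now go back with four applications of `stabNull_htp`; none of the
homotopies has a zero on `B`:
* `F₃` to `F₂`: `((F₂ (x, s v)).1, s⁻¹ • (F₂ (x, s v)).2)`, `s = 3 - 2 u` (use `max 1 (3 - 2 u)`); `F₂` has no zeros
  on `B` and `(x, s v) ∈ B` for `(x, v) ∈ B`, `s ≥ 1`;
* `F₂` to `F₁`: `(1 - w) • F₁ (x, v) + w • (e0, v)`, `w = (1 - u) c₂ v`: for `‖v‖ < 2` we have `w = 0`; for `‖v‖ ≥ 2`
  `F₁ (x, v) = p (r v)` and `v = ‖v‖ • r v`, so for `w ≠ 1` the value is
  `(1 - w) • (p (r v) + (a • e0, b • r v))` with `a = w / (1 - w)`, `b = w ‖v‖ / (1 - w)`: not zero by the choice of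
  `p`; for `w = 1` it is `(e0, v)`;
* `F₁` to `F ∘ r`: `(1 - w) • F (x, r v) + w • p (r v)`, `w = (1 - u) c₁ v` (`w = 0` for `‖v‖ ≤ 1`; `‖r v‖ = 1` for
  `‖v‖ ≥ 1`);
* `F ∘ r` to `F`: `F (x, (1 - u) • r v + u • v)`; for `‖v‖ ≥ 1` the vector `(1 - u) • r v + u • v` has norm
  `(1 - u) + u ‖v‖ ≥ 1`. -/
theorem local_null_std {Z : Type} [MetricSpace Z] [CompactSpace Z] (hZ : TB Z) {j k : ℕ}
    (hj : 3 ≤ j) {A : Set Z} (hA : IsClosed A)
    (F : Z × (Fin k → ℝ) → (Fin j → ℝ) × (Fin k → ℝ)) (hF : Continuous F)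
    (h0 : ∀ x v, (x ∈ A ∨ 1 ≤ ‖v‖) → F (x, v) ≠ 0) (x₀ : Z)
    (hQ : ∀ x v, ‖v‖ = 1 → ∀ u ∈ Icc (0 : ℝ) 1, (1 - u) • F (x, v) + u • F (x₀, v) ≠ 0) :
    StabNull {p : Z × (Fin k → ℝ) | p.1 ∈ A ∨ 1 ≤ ‖p.2‖} F := by
  set B : Set (Z × (Fin k → ℝ)) := {p : Z × (Fin k → ℝ) | p.1 ∈ A ∨ 1 ≤ ‖p.2‖} with hBdef
  have hB : IsClosed B :=
    (hA.preimage continuous_fst).union (isClosed_le continuous_const continuous_snd.norm)
  obtain ⟨ε, hε, hεle⟩ := d4_eps F hF x₀ hQ
  have hf : Continuous fun v : Fin k → ℝ => F (x₀, v) := by fun_prop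
  obtain ⟨p, hp, hpε, hpg⟩ := exists_generic hj (fun v => F (x₀, v)) hf ε hε
  -- nonvanishing near the unit sphere
  have key0 : ∀ x v, ‖v‖ = 1 → ∀ u ∈ Icc (0 : ℝ) 1, (1 - u) • F (x, v) + u • p v ≠ 0 := by
    intro x v hv u hu h
    have h1 := hεle x v hv u hu
    have h2 : (1 - u) • F (x, v) + u • F (x₀, v) = -(u • (p v - F (x₀, v))) := by
      rw [smul_sub]
      have h3 : (1 - u) • F (x, v) = -(u • p v) := eq_neg_of_add_eq_zero_left h
      rw [h3]
      abel
    rw [h2, norm_neg, norm_smul, Real.norm_of_nonneg hu.1] at h1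
    have h4 := hpε v
    have h5 : u * ‖p v - F (x₀, v)‖ ≤ 1 * ‖p v - F (x₀, v)‖ :=
      mul_le_mul_of_nonneg_right hu.2 (norm_nonneg _)
    linarith
  have hr0 : ∀ x v, (x, v) ∈ B → F (x, d4_r v) ≠ 0 := by
    intro x v hxv
    rcases hxv with h | h
    · exact h0 x _ (Or.inl h)
    · exact h0 x _ (Or.inr (d4_r_norm h).ge)
  have key1 : ∀ x v, (x, v) ∈ B → ∀ w ∈ Icc (0 : ℝ) 1, (‖v‖ ≤ 1 → w = 0) →
      (1 - w) • F (x, d4_r v) + w • p (d4_r v) ≠ 0 := by
    intro x v hxv w hw hw0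
    by_cases hv : ‖v‖ ≤ 1
    · rw [hw0 hv, sub_zero, one_smul, zero_smul, add_zero]
      exact hr0 x v hxv
    · exact key0 x _ (d4_r_norm (not_le.1 hv).le) w hw
  set F₁ : Z × (Fin k → ℝ) → (Fin j → ℝ) × (Fin k → ℝ) := fun q =>
    (1 - d4_c 1 q.2) • F (q.1, d4_r q.2) + d4_c 1 q.2 • p (d4_r q.2) with hF₁
  have hrc := d4_r_cont (k := k)
  have hc1 := d4_c_cont (k := k) 1
  have hc2 := d4_c_cont (k := k) 2
  have hFr : Continuous fun q : Z × (Fin k → ℝ) => F (q.1, d4_r q.2) :=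
    hF.comp (continuous_fst.prodMk (hrc.comp continuous_snd))
  have hpr : Continuous fun q : Z × (Fin k → ℝ) => p (d4_r q.2) :=
    hp.comp (hrc.comp continuous_snd)
  have hF₁c : Continuous F₁ :=
    ((continuous_const.sub (hc1.comp continuous_snd)).smul hFr).add
      ((hc1.comp continuous_snd).smul hpr)
  have key2 : ∀ x v, (x, v) ∈ B → ∀ w ∈ Icc (0 : ℝ) 1, (‖v‖ ≤ 2 → w = 0) →
      (1 - w) • F₁ (x, v) + w • ((e0 j, v) : (Fin j → ℝ) × (Fin k → ℝ)) ≠ 0 := by
    intro x v hxv w hw hw0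
    by_cases hv : ‖v‖ ≤ 2
    · rw [hw0 hv, sub_zero, one_smul, zero_smul, add_zero]
      exact key1 x v hxv _ ⟨d4_c_nonneg 1 v, d4_c_le 1 v⟩ fun h => d4_c_zero h
    · have hv' : 2 ≤ ‖v‖ := (not_le.1 hv).le
      have h1 : F₁ (x, v) = p (d4_r v) := by
        show (1 - d4_c 1 v) • F (x, d4_r v) + d4_c 1 v • p (d4_r v) = _
        rw [d4_c_one (by linarith : (1 : ℝ) + 1 ≤ ‖v‖), sub_self, zero_smul, zero_add, one_smul]
      rw [h1]
      intro h
      by_cases hw1 : w = 1
      · rw [hw1, sub_self, zero_smul, zero_add, one_smul, Prod.mk_eq_zero] at h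
        rw [h.2, norm_zero] at hv'
        linarith
      · have hw2 : 1 - w ≠ 0 := fun h' => hw1 (by linarith)
        apply hpg (d4_r v) (w / (1 - w)) (w * ‖v‖ / (1 - w))
        have h2 : (w / (1 - w)) • e0 j = (1 - w)⁻¹ • (w • e0 j) := by
          rw [smul_smul, div_eq_inv_mul]
        have h3 : (w * ‖v‖ / (1 - w)) • d4_r v = (1 - w)⁻¹ • (w • v) := by
          conv_rhs => rw [← d4_r_smul (by linarith : (1 : ℝ) ≤ ‖v‖)]
          rw [smul_smul, smul_smul, div_eq_inv_mul]
          congr 1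
          ring
        have h4 : (((w / (1 - w)) • e0 j, (w * ‖v‖ / (1 - w)) • d4_r v) :
            (Fin j → ℝ) × (Fin k → ℝ)) =
            (1 - w)⁻¹ • (w • ((e0 j, v) : (Fin j → ℝ) × (Fin k → ℝ))) := by
          rw [h2, h3]
          rfl
        have h5 : p (d4_r v) = (1 - w)⁻¹ • ((1 - w) • p (d4_r v)) := by
          rw [smul_smul, inv_mul_cancel₀ hw2, one_smul]
        rw [h4]
        conv_lhs => rw [h5]
        rw [← smul_add, h, smul_zero]
  set F₂ : Z × (Fin k → ℝ) → (Fin j → ℝ) × (Fin k → ℝ) := fun q =>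
    (1 - d4_c 2 q.2) • F₁ q + d4_c 2 q.2 • ((e0 j, q.2) : (Fin j → ℝ) × (Fin k → ℝ)) with hF₂
  have hF₂c : Continuous F₂ :=
    ((continuous_const.sub (hc2.comp continuous_snd)).smul hF₁c).add
      ((hc2.comp continuous_snd).smul (continuous_const.prodMk continuous_snd))
  have hF₂0 : ∀ x v, (x, v) ∈ B → F₂ (x, v) ≠ 0 := fun x v hxv =>
    key2 x v hxv _ ⟨d4_c_nonneg 2 v, d4_c_le 2 v⟩ fun h => d4_c_zero h
  -- the first homotopy
  set H3 : (Z × (Fin k → ℝ)) × ℝ → (Fin j → ℝ) × (Fin k → ℝ) := fun q =>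
    ((F₂ (q.1.1, max 1 (3 - 2 * q.2) • q.1.2)).1,
      (max 1 (3 - 2 * q.2))⁻¹ • (F₂ (q.1.1, max 1 (3 - 2 * q.2) • q.1.2)).2) with hH3
  have hs : Continuous fun q : (Z × (Fin k → ℝ)) × ℝ => max (1 : ℝ) (3 - 2 * q.2) := by fun_prop
  have hs0 : ∀ u : ℝ, max (1 : ℝ) (3 - 2 * u) ≠ 0 := fun u =>
    (lt_of_lt_of_le one_pos (le_max_left _ _)).ne'
  have hF₂s : Continuous fun q : (Z × (Fin k → ℝ)) × ℝ =>
      F₂ (q.1.1, max 1 (3 - 2 * q.2) • q.1.2) :=
    hF₂c.comp ((continuous_fst.comp continuous_fst).prodMk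
      (hs.smul (continuous_snd.comp continuous_fst)))
  have hH3c : Continuous H3 :=
    hF₂s.fst.prodMk ((hs.inv₀ fun q => hs0 q.2).smul hF₂s.snd)
  have hsB : ∀ x v (u : ℝ), (x, v) ∈ B → (x, max 1 (3 - 2 * u) • v) ∈ B := by
    intro x v u hxv
    rcases hxv with h | h
    · exact Or.inl h
    · right
      show 1 ≤ ‖max 1 (3 - 2 * u) • v‖
      have h1 : (1 : ℝ) ≤ max 1 (3 - 2 * u) := le_max_left _ _
      rw [norm_smul, Real.norm_of_nonneg (by linarith)]
      have h2 : (1 : ℝ) ≤ ‖v‖ := h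
      nlinarith
  have hH3ne : ∀ z ∈ B, ∀ u : ℝ, H3 (z, u) ≠ 0 := by
    rintro ⟨x, v⟩ hz u h
    have h1 : (F₂ (x, max 1 (3 - 2 * u) • v)).1 = 0 ∧
        (max 1 (3 - 2 * u))⁻¹ • (F₂ (x, max 1 (3 - 2 * u) • v)).2 = 0 :=
      Prod.mk_eq_zero.1 h
    refine hF₂0 x _ (hsB x v u hz) (Prod.ext h1.1 ?_)
    rcases smul_eq_zero.1 h1.2 with h2 | h2
    · exact absurd h2 (inv_ne_zero (hs0 u))
    · exact h2
  have htask : IsTask j k A (fun z => H3 (z, 0)) := by
    refine ⟨hA, hH3c.comp (continuous_id.prodMk continuous_const), ?_, ?_⟩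
    · intro x t ht
      have h1 : max (1 : ℝ) (3 - 2 * 0) = 3 := by norm_num
      have h2 : F₂ (x, (3 : ℝ) • t) = (e0 j, (3 : ℝ) • t) := by
        show (1 - d4_c 2 ((3 : ℝ) • t)) • F₁ (x, (3 : ℝ) • t) +
          d4_c 2 ((3 : ℝ) • t) • ((e0 j, (3 : ℝ) • t) : (Fin j → ℝ) × (Fin k → ℝ)) = _
        rw [d4_c_one (by rw [norm_smul]; norm_num; linarith), sub_self, zero_smul, zero_add,
          one_smul]
      show ((F₂ (x, max 1 (3 - 2 * (0 : ℝ)) • t)).1,
        (max 1 (3 - 2 * (0 : ℝ)))⁻¹ • (F₂ (x, max 1 (3 - 2 * (0 : ℝ)) • t)).2) = (e0 j, t)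
      rw [h1, h2]
      show (e0 j, (3 : ℝ)⁻¹ • ((3 : ℝ) • t)) = (e0 j, t)
      rw [smul_smul, inv_mul_cancel₀ (by norm_num : (3 : ℝ) ≠ 0), one_smul]
    · intro x hx t
      exact hH3ne (x, t) (Or.inl hx) 0
  have s3 : StabNull B (fun z => H3 (z, 0)) :=
    stabNull_of_solved (by omega) htask (hZ j k A _ hj htask)
  have s2 : StabNull B F₂ := by
    have h := stabNull_htp hB H3 hH3c (fun z hz u _ => hH3ne z hz u) s3
    have e : (fun z => H3 (z, 1)) = F₂ := by
      funext z
      obtain ⟨x, v⟩ := z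
      have h1 : max (1 : ℝ) (3 - 2 * 1) = 1 := by norm_num
      show ((F₂ (x, max 1 (3 - 2 * (1 : ℝ)) • v)).1,
        (max 1 (3 - 2 * (1 : ℝ)))⁻¹ • (F₂ (x, max 1 (3 - 2 * (1 : ℝ)) • v)).2) = F₂ (x, v)
      rw [h1, one_smul, inv_one, one_smul]
    rwa [e] at h
  have s1 : StabNull B F₁ := by
    have hw : Continuous fun q : (Z × (Fin k → ℝ)) × ℝ => (1 - q.2) * d4_c 2 q.1.2 :=
      (continuous_const.sub continuous_snd).mul
        (hc2.comp (continuous_snd.comp continuous_fst))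
    have h := stabNull_htp hB (fun q : (Z × (Fin k → ℝ)) × ℝ =>
      (1 - (1 - q.2) * d4_c 2 q.1.2) • F₁ q.1 +
        ((1 - q.2) * d4_c 2 q.1.2) • ((e0 j, q.1.2) : (Fin j → ℝ) × (Fin k → ℝ)))
      (((continuous_const.sub hw).smul (hF₁c.comp continuous_fst)).add
        (hw.smul (continuous_const.prodMk (continuous_snd.comp continuous_fst))))
      (by
        rintro ⟨x, v⟩ hz u hu
        refine key2 x v hz _ ⟨mul_nonneg (by linarith [hu.2]) (d4_c_nonneg 2 v), ?_⟩ fun h => ?_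
        · exact mul_le_one₀ (by linarith [hu.1]) (d4_c_nonneg 2 v) (d4_c_le 2 v)
        · show (1 - u) * d4_c 2 v = 0
          rw [d4_c_zero h, mul_zero])
      (by
        have e : (fun z : Z × (Fin k → ℝ) => (1 - (1 - (0 : ℝ)) * d4_c 2 z.2) • F₁ z +
            ((1 - (0 : ℝ)) * d4_c 2 z.2) • ((e0 j, z.2) : (Fin j → ℝ) × (Fin k → ℝ))) = F₂ := by
          funext z
          rw [sub_zero, one_mul]
        show StabNull B (fun z : Z × (Fin k → ℝ) => (1 - (1 - (0 : ℝ)) * d4_c 2 z.2) • F₁ z +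
            ((1 - (0 : ℝ)) * d4_c 2 z.2) • ((e0 j, z.2) : (Fin j → ℝ) × (Fin k → ℝ)))
        rw [e]
        exact s2)
    have e : (fun z : Z × (Fin k → ℝ) => (1 - (1 - (1 : ℝ)) * d4_c 2 z.2) • F₁ z +
        ((1 - (1 : ℝ)) * d4_c 2 z.2) • ((e0 j, z.2) : (Fin j → ℝ) × (Fin k → ℝ))) = F₁ := by
      funext z
      rw [sub_self, zero_mul, sub_zero, one_smul, zero_smul, add_zero]
    have h' : StabNull B (fun z : Z × (Fin k → ℝ) => (1 - (1 - (1 : ℝ)) * d4_c 2 z.2) • F₁ z +
        ((1 - (1 : ℝ)) * d4_c 2 z.2) • ((e0 j, z.2) : (Fin j → ℝ) × (Fin k → ℝ))) := h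
    rwa [e] at h'
  have s0 : StabNull B (fun z : Z × (Fin k → ℝ) => F (z.1, d4_r z.2)) := by
    have hw : Continuous fun q : (Z × (Fin k → ℝ)) × ℝ => (1 - q.2) * d4_c 1 q.1.2 :=
      (continuous_const.sub continuous_snd).mul
        (hc1.comp (continuous_snd.comp continuous_fst))
    have h := stabNull_htp hB (fun q : (Z × (Fin k → ℝ)) × ℝ =>
      (1 - (1 - q.2) * d4_c 1 q.1.2) • F (q.1.1, d4_r q.1.2) +
        ((1 - q.2) * d4_c 1 q.1.2) • p (d4_r q.1.2))
      (((continuous_const.sub hw).smul (hFr.comp continuous_fst)).add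
        (hw.smul (hpr.comp continuous_fst)))
      (by
        rintro ⟨x, v⟩ hz u hu
        refine key1 x v hz _ ⟨mul_nonneg (by linarith [hu.2]) (d4_c_nonneg 1 v), ?_⟩ fun h => ?_
        · exact mul_le_one₀ (by linarith [hu.1]) (d4_c_nonneg 1 v) (d4_c_le 1 v)
        · show (1 - u) * d4_c 1 v = 0
          rw [d4_c_zero h, mul_zero])
      (by
        have e : (fun z : Z × (Fin k → ℝ) => (1 - (1 - (0 : ℝ)) * d4_c 1 z.2) •
            F (z.1, d4_r z.2) + ((1 - (0 : ℝ)) * d4_c 1 z.2) • p (d4_r z.2)) = F₁ := by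
          funext z
          rw [sub_zero, one_mul]
        show StabNull B (fun z : Z × (Fin k → ℝ) => (1 - (1 - (0 : ℝ)) * d4_c 1 z.2) •
            F (z.1, d4_r z.2) + ((1 - (0 : ℝ)) * d4_c 1 z.2) • p (d4_r z.2))
        rw [e]
        exact s1)
    have e : (fun z : Z × (Fin k → ℝ) => (1 - (1 - (1 : ℝ)) * d4_c 1 z.2) •
        F (z.1, d4_r z.2) + ((1 - (1 : ℝ)) * d4_c 1 z.2) • p (d4_r z.2)) =
        fun z : Z × (Fin k → ℝ) => F (z.1, d4_r z.2) := by
      funext z
      rw [sub_self, zero_mul, sub_zero, one_smul, zero_smul, add_zero]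
    have h' : StabNull B (fun z : Z × (Fin k → ℝ) => (1 - (1 - (1 : ℝ)) * d4_c 1 z.2) •
        F (z.1, d4_r z.2) + ((1 - (1 : ℝ)) * d4_c 1 z.2) • p (d4_r z.2)) := h
    rwa [e] at h'
  have hm : Continuous fun q : (Z × (Fin k → ℝ)) × ℝ =>
      (1 - q.2) • d4_r q.1.2 + q.2 • q.1.2 :=
    ((continuous_const.sub continuous_snd).smul
      (hrc.comp (continuous_snd.comp continuous_fst))).add
      (continuous_snd.smul (continuous_snd.comp continuous_fst))
  have h := stabNull_htp hB (fun q : (Z × (Fin k → ℝ)) × ℝ =>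
    F (q.1.1, (1 - q.2) • d4_r q.1.2 + q.2 • q.1.2))
    (hF.comp ((continuous_fst.comp continuous_fst).prodMk hm))
    (by
      rintro ⟨x, v⟩ hz u hu
      rcases hz with hz | hz
      · exact h0 x _ (Or.inl hz)
      · refine h0 x _ (Or.inr ?_)
        show 1 ≤ ‖(1 - u) • d4_r v + u • v‖
        have hz' : (1 : ℝ) ≤ ‖v‖ := hz
        have e1 : (1 - u) • d4_r v + u • v = ((1 - u) + u * ‖v‖) • d4_r v := by
          conv_lhs => rw [← d4_r_smul hz']
          have e2 : d4_r (‖v‖ • d4_r v) = d4_r v := by rw [d4_r_smul hz']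
          rw [e2, smul_smul, ← add_smul]
        rw [e1, norm_smul, d4_r_norm hz', mul_one]
        have e3 : 1 ≤ (1 - u) + u * ‖v‖ := by nlinarith [hu.1]
        rw [Real.norm_of_nonneg (by linarith)]
        exact e3)
    (by
      have e : (fun z : Z × (Fin k → ℝ) => F (z.1, (1 - (0 : ℝ)) • d4_r z.2 + (0 : ℝ) • z.2)) =
          fun z : Z × (Fin k → ℝ) => F (z.1, d4_r z.2) := by
        funext z
        rw [sub_zero, one_smul, zero_smul, add_zero]
      show StabNull B (fun z : Z × (Fin k → ℝ) =>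
        F (z.1, (1 - (0 : ℝ)) • d4_r z.2 + (0 : ℝ) • z.2))
      rw [e]
      exact s0)
  have e : (fun z : Z × (Fin k → ℝ) => F (z.1, (1 - (1 : ℝ)) • d4_r z.2 + (1 : ℝ) • z.2)) =
      F := by
    funext z
    rw [sub_self, zero_smul, one_smul, zero_add]
  have h' : StabNull B (fun z : Z × (Fin k → ℝ) =>
      F (z.1, (1 - (1 : ℝ)) • d4_r z.2 + (1 : ℝ) • z.2)) := h
  rwa [e] at h'

/-- The same for general normed spaces.

PROOF.  `k = finrank V`, `e : V ≃ₜ (Fin k → ℝ)` with `‖e v‖ = ‖v‖` (`SMD.exists_radial`),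
`L : W ≃L[ℝ] (Fin j → ℝ) × (Fin k → ℝ)` (equal finranks, `ContinuousLinearEquiv.ofFinrankEq`).  Apply
`local_null_std` to `F' (x, t) = L (F (x, e.symm t))`; then `StabNull.comp` with
`(x, v) ↦ (x, e v)` and `StabNullOn.map L.symm` (`stabNull_iff_on`). -/
theorem local_null {Z : Type} [MetricSpace Z] [CompactSpace Z] (hZ : TB Z) {j : ℕ} (hj : 3 ≤ j)
    (V : Type) [NormedAddCommGroup V] [NormedSpace ℝ V] [FiniteDimensional ℝ V]
    (W : Type) [NormedAddCommGroup W] [NormedSpace ℝ W] [FiniteDimensional ℝ W]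
    (hd : Module.finrank ℝ W = j + Module.finrank ℝ V)
    {A : Set Z} (hA : IsClosed A) (F : Z × V → W) (hF : Continuous F)
    (h0 : ∀ x v, (x ∈ A ∨ 1 ≤ ‖v‖) → F (x, v) ≠ 0) (x₀ : Z)
    (hQ : ∀ x v, ‖v‖ = 1 → ∀ u ∈ Icc (0 : ℝ) 1, (1 - u) • F (x, v) + u • F (x₀, v) ≠ 0) :
    StabNull {p : Z × V | p.1 ∈ A ∨ 1 ≤ ‖p.2‖} F := by
  obtain ⟨e, he⟩ := exists_radial V (Fin (Module.finrank ℝ V) → ℝ) (by simp)
  have hfr : Module.finrank ℝ W =
      Module.finrank ℝ ((Fin j → ℝ) × (Fin (Module.finrank ℝ V) → ℝ)) := by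
    rw [Module.finrank_prod, Module.finrank_fin_fun, Module.finrank_fin_fun, hd]
  let L : W ≃L[ℝ] ((Fin j → ℝ) × (Fin (Module.finrank ℝ V) → ℝ)) :=
    ContinuousLinearEquiv.ofFinrankEq hfr
  have he' : ∀ t, ‖e.symm t‖ = ‖t‖ := fun t => by
    rw [← he (e.symm t), e.apply_symm_apply]
  have h1 := local_null_std hZ hj hA (fun q => L (F (q.1, e.symm q.2)))
    (L.continuous.comp (hF.comp (continuous_fst.prodMk (e.symm.continuous.comp continuous_snd))))
    (fun x v h h2 => by
      have h3 : L (F (x, e.symm v)) = 0 := h2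
      rw [map_eq_zero_iff L L.injective] at h3
      refine h0 x (e.symm v) ?_ h3
      rw [he']
      exact h) x₀
    (fun x v hv u hu h2 => by
      have h3 : (1 - u) • L (F (x, e.symm v)) + u • L (F (x₀, e.symm v)) = 0 := h2
      rw [← map_smul, ← map_smul, ← map_add, map_eq_zero_iff L L.injective] at h3
      exact hQ x (e.symm v) (by rw [he', hv]) u hu h3)
  have h2 := StabNull.comp (B' := {p : Z × V | p.1 ∈ A ∨ 1 ≤ ‖p.2‖})
    (fun q : Z × V => (q.1, e q.2)) (by fun_prop) (fun z hz => by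
      show z.1 ∈ A ∨ 1 ≤ ‖e z.2‖
      rw [he]
      exact hz) h1
  rw [stabNull_iff_on] at h2 ⊢
  have h3 := h2.map L.symm
  have e3 : (fun z : Z × V => L.symm (L (F (z.1, e.symm (e z.2))))) = F := by
    funext z
    rw [ContinuousLinearEquiv.symm_apply_apply, Homeomorph.symm_apply_apply]
  have h4 : StabNullOn univ {p : Z × V | p.1 ∈ A ∨ 1 ≤ ‖p.2‖}
      (fun z : Z × V => L.symm (L (F (z.1, e.symm (e z.2))))) := h3
  rwa [e3] at h4

end MM

end

/-! ### from `Lib_MP_33f7bb_d.D5` -/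

section

/-!
# D5: patching over a finite closed cover; `StableDimLE`
-/

open Set Filter Topology

namespace MM

open SMD

/-- Version of `SMD.StabNull.of_rel` which remembers the values of `F'`.

PROOF.  Exactly the proof of `SMD.StabNull.of_rel` (file `Lib_MP_33f7bb_an/REL.lean`): the map `g`
constructed there satisfies `g (z, v) = (F z, v)` for `z ∈ B` or `‖v‖ ≥ 1` (`hgq`, `hq2`). -/
theorem stabNull_of_rel' {Z : Type*} [TopologicalSpace Z] [TopologicalSpace.MetrizableSpace Z]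
    {W : Type} [NormedAddCommGroup W] [NormedSpace ℝ W] [FiniteDimensional ℝ W]
    {B D : Set Z} (hB : IsClosed B) (hD : IsClosed D) {F : Z → W} (hF : Continuous F)
    (hF0 : ∀ z ∈ B, F z ≠ 0) (h1 : StabNullOn D B F)
    (h2 : ∀ (V₀ : Type) [NormedAddCommGroup V₀] [NormedSpace ℝ V₀] [FiniteDimensional ℝ V₀]
      (F' : Z × V₀ → W × V₀), Continuous F' →
      (∀ z v, (z ∈ B ∨ 1 ≤ ‖v‖) → F' (z, v) = (F z, v)) →
      (∀ z v, (z ∈ B ∪ D ∨ 1 ≤ ‖v‖) → F' (z, v) ≠ 0) →
      StabNull {p : Z × V₀ | p.1 ∈ B ∪ D ∨ 1 ≤ ‖p.2‖} F') :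
    StabNull B F := by
  classical
  obtain ⟨V₀, i1, i2, i3, G₀, hG₀, hG0, hGb⟩ := h1
  obtain ⟨q, hq⟩ : ∃ q : Z × V₀ → W × V₀, q = fun p => if p.1 ∈ D then G₀ p else (F p.1, p.2) :=
    ⟨_, rfl⟩
  have hq1 : ∀ p : Z × V₀, p.1 ∈ D → q p = G₀ p := by
    intro p hp
    rw [hq]
    simp only [if_pos hp]
  have hq2 : ∀ p : Z × V₀, (p.1 ∈ B ∨ 1 ≤ ‖p.2‖) → q p = (F p.1, p.2) := by
    intro p hp
    by_cases hD' : p.1 ∈ D
    · rw [hq1 p hD']
      exact hGb p.1 hD' p.2 hp
    · rw [hq]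
      simp only [if_neg hD']
  have hE1 : IsClosed (D ×ˢ (univ : Set V₀)) := hD.prod isClosed_univ
  have hE2 : IsClosed {p : Z × V₀ | p.1 ∈ B ∨ 1 ≤ ‖p.2‖} :=
    (hB.preimage continuous_fst).union (isClosed_le continuous_const (continuous_norm.comp continuous_snd))
  have hqc : ContinuousOn q ((D ×ˢ (univ : Set V₀)) ∪ {p : Z × V₀ | p.1 ∈ B ∨ 1 ≤ ‖p.2‖}) := by
    refine ContinuousOn.union_of_isClosed ?_ ?_ hE1 hE2
    · exact hG₀.congr fun p hp => hq1 p hp.1
    · refine ContinuousOn.congr (f := fun p : Z × V₀ => (F p.1, p.2)) ?_ fun p hp => hq2 p hp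
      exact ((hF.comp continuous_fst).prodMk continuous_snd).continuousOn
  obtain ⟨g, hg⟩ := ContinuousMap.exists_restrict_eq (hE1.union hE2)
    (⟨_, continuousOn_iff_continuous_domRestrict.1 hqc⟩ :
      C(↥((D ×ˢ (univ : Set V₀)) ∪ {p : Z × V₀ | p.1 ∈ B ∨ 1 ≤ ‖p.2‖}), W × V₀))
  have hgq : ∀ p ∈ (D ×ˢ (univ : Set V₀)) ∪ {p : Z × V₀ | p.1 ∈ B ∨ 1 ≤ ‖p.2‖}, g p = q p := by
    intro p hp
    exact DFunLike.congr_fun hg ⟨p, hp⟩
  have h3 := h2 V₀ g g.continuous (by
    intro z v hzv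
    rw [hgq (z, v) (Or.inr hzv), hq2 (z, v) hzv]) (by
    intro z v hzv
    have hmem : (z, v) ∈ (D ×ˢ (univ : Set V₀)) ∪ {p : Z × V₀ | p.1 ∈ B ∨ 1 ≤ ‖p.2‖} := by
      rcases hzv with (h | h) | h
      · exact Or.inr (Or.inl h)
      · exact Or.inl ⟨h, mem_univ _⟩
      · exact Or.inr (Or.inr h)
    rw [hgq _ hmem]
    rcases hmem with h | h
    · rw [hq1 _ h.1]
      exact hG0 z h.1 v
    · rw [hq2 _ h]
      intro h0
      rw [Prod.mk_eq_zero] at h0
      rcases h with h | h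
      · exact hF0 z h h0.1
      · rw [h0.2, norm_zero] at h
        linarith)
  have h4 : StabNull {p : Z × V₀ | p.1 ∈ B ∨ 1 ≤ ‖p.2‖} (g : Z × V₀ → W × V₀) := by
    refine StabNull.mono ?_ h3
    rintro p (h | h)
    · exact Or.inl (Or.inl h)
    · exact Or.inr h
  refine StabNull.flatten (V₀ := V₀) (StabNull.change g.continuous
    ((hF.comp continuous_fst).prodMk continuous_snd) ?_ h4)
  intro p hp
  rw [hgq p (Or.inr hp), hq2 p hp]

/-- from a closed subspace to `StabNullOn`.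

PROOF.  Extend the witness by `0` outside `Z × V × V'` (classical `if`); continuity on the closed
set via `continuousOn_iff_continuous_restrict`. -/
theorem stabNullOn_of_sub {K : Type} [TopologicalSpace K] {Z : Set K} {A : Set K}
    {V : Type} [NormedAddCommGroup V] [NormedSpace ℝ V]
    {W : Type} [NormedAddCommGroup W] [NormedSpace ℝ W] (F : K × V → W)
    (h : StabNull {p : Z × V | (p.1 : K) ∈ A ∨ 1 ≤ ‖p.2‖} (fun p => F (p.1, p.2))) :
    StabNullOn {p : K × V | p.1 ∈ Z} {p : K × V | p.1 ∈ A ∨ 1 ≤ ‖p.2‖} F := by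
  classical
  obtain ⟨V', i1, i2, i3, G, h1, h2, h3⟩ := h
  refine ⟨V', i1, i2, i3, fun q => if h : q.1.1 ∈ Z then G ((⟨q.1.1, h⟩, q.1.2), q.2) else 0,
    ?_, ?_, ?_⟩
  · rw [continuousOn_iff_continuous_domRestrict]
    have e : (({p : K × V | p.1 ∈ Z} ×ˢ (univ : Set V')).domRestrict
        (fun q : (K × V) × V' => if h : q.1.1 ∈ Z then G ((⟨q.1.1, h⟩, q.1.2), q.2) else 0)) =
        fun q => G ((⟨q.1.1.1, q.2.1⟩, q.1.1.2), q.1.2) := by
      funext q
      exact dif_pos q.2.1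
    rw [e]
    refine h1.comp ?_
    refine Continuous.prodMk (Continuous.prodMk (Continuous.subtype_mk ?_ _) ?_) ?_
    · exact (continuous_fst.comp continuous_fst).comp continuous_subtype_val
    · exact (continuous_snd.comp continuous_fst).comp continuous_subtype_val
    · exact continuous_snd.comp continuous_subtype_val
  · intro z hz v
    have hz' : z.1 ∈ Z := hz
    simp only [dif_pos hz']
    exact h2 _
  · intro z hz v hzv
    have hz' : z.1 ∈ Z := hz
    simp only [dif_pos hz']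
    exact h3 (⟨z.1, hz'⟩, z.2) v hzv

/-- Patching.

PROOF.  Induction on `T` (`Finset.induction_on`, all other data universally quantified).
`T = ∅`: `A = univ`, `F` has no zeros, the witness is the zero space (`V' = Fin 0 → ℝ`), `G (z, v) = (F z, v)`.
`insert a T`: `local_null` on the compact space `Z a` (`TB.sub`), with `A ∩ Z a`, the base point `c a`,
gives with `stabNullOn_of_sub` `StabNullOn {p | p.1 ∈ Z a} B F`.  Apply `stabNull_of_rel'` with
`D = {p | p.1 ∈ Z a}`.  For `V₀, F'` as there, put `F'' (x, (v, v₀)) = F' ((x, v), v₀)` on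
`K × (V × V₀)`, with values in `W × V₀`, and `A'' = A ∪ Z a`.  It satisfies the hypotheses of the
induction hypothesis for `T`: no zeros for `x ∈ A''` or `‖(v, v₀)‖ ≥ 1`; if `‖(v, v₀)‖ = 1` then
`‖v‖ = 1` or `‖v₀‖ = 1` (sup norm), `F'' (x, (v, v₀)) = (F (x, v), v₀)` for all `x`, so
`(1 - u) • F'' (x, w) + u • F'' (c b, w) = ((1 - u) • F (x, v) + u • F (c b, v), v₀)`, which is not zero
by `hQ` if `‖v‖ = 1` and because `v₀ ≠ 0` if `‖v₀‖ = 1`.  The result is transported back with
`StabNull.comp` along `((x, v), v₀) ↦ (x, (v, v₀))`. -/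
theorem patch {K : Type} [MetricSpace K] [CompactSpace K] (hK : TB K) {j : ℕ} (hj : 3 ≤ j)
    {m : ℕ} (Z : Fin m → Set K) (hZ : ∀ a, IsClosed (Z a)) (c : Fin m → K)
    (hc : ∀ a, c a ∈ Z a) (T : Finset (Fin m)) :
    ∀ (V : Type) [NormedAddCommGroup V] [NormedSpace ℝ V] [FiniteDimensional ℝ V]
      (W : Type) [NormedAddCommGroup W] [NormedSpace ℝ W] [FiniteDimensional ℝ W]
      (_ : Module.finrank ℝ W = j + Module.finrank ℝ V)
      (A : Set K) (_ : IsClosed A) (_ : ∀ x, x ∈ A ∨ ∃ a ∈ T, x ∈ Z a)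
      (F : K × V → W) (_ : Continuous F) (_ : ∀ x v, (x ∈ A ∨ 1 ≤ ‖v‖) → F (x, v) ≠ 0)
      (_ : ∀ a ∈ T, ∀ x ∈ Z a, ∀ v, ‖v‖ = 1 → ∀ u ∈ Icc (0 : ℝ) 1,
        (1 - u) • F (x, v) + u • F (c a, v) ≠ 0),
      StabNull {p : K × V | p.1 ∈ A ∨ 1 ≤ ‖p.2‖} F := by
  classical
  induction T using Finset.induction_on with
  | empty =>
    intro V _ _ _ W _ _ _ hd A hA hcov F hF h0 hQ
    refine ⟨Fin 0 → ℝ, inferInstance, inferInstance, inferInstance, fun p => (F p.1, p.2),
      (hF.comp continuous_fst).prodMk continuous_snd, ?_, fun _ _ _ => rfl⟩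
    rintro ⟨⟨x, v⟩, v'⟩ h
    have hx : x ∈ A := by
      rcases hcov x with h1 | ⟨a, ha, _⟩
      · exact h1
      · exact absurd ha (Finset.notMem_empty a)
    exact h0 x v (Or.inl hx) (Prod.mk_eq_zero.1 h).1
  | insert a T haT ih =>
    intro V _ _ _ W _ _ _ hd A hA hcov F hF h0 hQ
    have : CompactSpace (Z a) := isCompact_iff_compactSpace.1 (hZ a).isCompact
    have hB : IsClosed {p : K × V | p.1 ∈ A ∨ 1 ≤ ‖p.2‖} :=
      (hA.preimage continuous_fst).union
        (isClosed_le continuous_const (continuous_norm.comp continuous_snd))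
    have hD : IsClosed {p : K × V | p.1 ∈ Z a} := (hZ a).preimage continuous_fst
    have hl : StabNull {p : Z a × V | (p.1 : K) ∈ A ∨ 1 ≤ ‖p.2‖}
        (fun p : Z a × V => F (p.1, p.2)) := by
      refine local_null (hK.sub (hZ a)) hj V W hd (A := {x : Z a | (x : K) ∈ A})
        (hA.preimage continuous_subtype_val) (fun p : Z a × V => F (p.1, p.2)) ?_ ?_
        ⟨c a, hc a⟩ ?_
      · exact hF.comp ((continuous_subtype_val.comp continuous_fst).prodMk continuous_snd)
      · intro x v hx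
        exact h0 x v hx
      · intro x v hv u hu
        exact hQ a (Finset.mem_insert_self a T) x x.2 v hv u hu
    refine stabNull_of_rel' hB hD hF (fun z hz => h0 z.1 z.2 hz) (stabNullOn_of_sub F hl) ?_
    intro V₀ _ _ _ F' hF' hF1 hF2
    have hih := ih (V × V₀) (W × V₀)
      (by rw [Module.finrank_prod, Module.finrank_prod, hd]; ring)
      (A ∪ Z a) (hA.union (hZ a))
      (by
        intro x
        rcases hcov x with h | ⟨b, hb, hx⟩
        · exact Or.inl (Or.inl h)
        · rcases Finset.mem_insert.1 hb with h | h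
          · exact Or.inl (Or.inr (h ▸ hx))
          · exact Or.inr ⟨b, h, hx⟩)
      (fun p => F' ((p.1, p.2.1), p.2.2))
      (hF'.comp ((continuous_fst.prodMk (continuous_fst.comp continuous_snd)).prodMk
        (continuous_snd.comp continuous_snd)))
      (by
        rintro x ⟨v, v₀⟩ hx
        refine hF2 (x, v) v₀ ?_
        rcases hx with (h | h) | h
        · exact Or.inl (Or.inl (Or.inl h))
        · exact Or.inl (Or.inr h)
        · rw [Prod.norm_mk, le_max_iff] at h
          rcases h with h | h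
          · exact Or.inl (Or.inl (Or.inr h))
          · exact Or.inr h)
      (by
        rintro b hb x hx ⟨v, v₀⟩ hv u hu
        rw [Prod.norm_mk] at hv
        have hval : ∀ y : K, F' ((y, v), v₀) = (F (y, v), v₀) := by
          intro y
          refine hF1 (y, v) v₀ ?_
          rcases le_max_iff.1 hv.ge with h | h
          · exact Or.inl (Or.inr h)
          · exact Or.inr h
        show (1 - u) • F' ((x, v), v₀) + u • F' ((c b, v), v₀) ≠ 0
        rw [hval, hval]
        intro h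
        have h1 := (Prod.mk_eq_zero.1 h).1
        have h2 : (1 - u) • v₀ + u • v₀ = 0 := (Prod.mk_eq_zero.1 h).2
        rw [← add_smul, sub_add_cancel, one_smul] at h2
        rw [h2, norm_zero] at hv
        have hv1 : ‖v‖ = 1 := by
          rcases max_choice ‖v‖ (0 : ℝ) with h3 | h3
          · rw [← h3]; exact hv
          · rw [h3] at hv
            exact absurd hv (by norm_num)
        exact hQ b (Finset.mem_insert_of_mem hb) x hx v hv1 u hu h1)
    refine StabNull.comp (B := {p : K × (V × V₀) | p.1 ∈ A ∪ Z a ∨ 1 ≤ ‖p.2‖})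
      (F := fun p : K × (V × V₀) => F' ((p.1, p.2.1), p.2.2))
      (fun q : (K × V) × V₀ => (q.1.1, (q.1.2, q.2))) ?_ ?_ hih
    · exact (continuous_fst.comp continuous_fst).prodMk
        ((continuous_snd.comp continuous_fst).prodMk continuous_snd)
    · rintro ⟨⟨x, v⟩, v₀⟩ hx
      rcases hx with ((h | h) | h) | h
      · exact Or.inl (Or.inl h)
      · refine Or.inr ?_
        show 1 ≤ ‖(v, v₀)‖
        rw [Prod.norm_mk]
        exact le_max_of_le_left h
      · exact Or.inl (Or.inr h)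
      · refine Or.inr ?_
        show 1 ≤ ‖(v, v₀)‖
        rw [Prod.norm_mk]
        exact le_max_of_le_right h

/-- PROOF.  Given `A, V, W, F`.  On the compact set `K × sphere` (maybe empty) `‖F‖ ≥ ε > 0`; by
uniform continuity of `F` on `K × closedBall 0 1` there is `δ > 0` with
`‖F (x, v) - F (x', v)‖ < ε` for `dist x x' ≤ δ`, `‖v‖ ≤ 1`.  Finitely many closed balls
`Z a = closedBall (c a) δ` cover `K`; for `x ∈ Z a`, `‖v‖ = 1`:
`‖(1 - u) • F (x, v) + u • F (c a, v) - F (x, v)‖ ≤ ‖F (x, v) - F (c a, v)‖ < ε ≤ ‖F (x, v)‖`.  Apply `patch` with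
`T = univ`. -/
theorem SI_of_TB {K : Type} [MetricSpace K] [CompactSpace K] (hK : TB K) {j : ℕ} (hj : 3 ≤ j) :
    SI K j := by
  classical
  intro A hA V _ _ _ W _ _ _ hd F hF h0
  -- lower bound on the sphere
  obtain ⟨ε, hε, hε1⟩ : ∃ ε : ℝ, 0 < ε ∧ ∀ p ∈ (univ : Set K) ×ˢ Metric.sphere (0 : V) 1,
      ε ≤ ‖F p‖ := by
    refine IsCompact.exists_forall_le' (isCompact_univ.prod (isCompact_sphere (0 : V) 1))
      (hF.norm.continuousOn) ?_
    rintro ⟨x, v⟩ ⟨-, hv⟩
    have hv1 : ‖v‖ = 1 := mem_sphere_zero_iff_norm.1 hv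
    exact norm_pos_iff.2 (h0 x v (Or.inr hv1.ge))
  have huc := (isCompact_univ.prod (isCompact_closedBall (0 : V) 1) :
    IsCompact ((univ : Set K) ×ˢ Metric.closedBall (0 : V) 1)).uniformContinuousOn_of_continuous
      hF.continuousOn
  rw [Metric.uniformContinuousOn_iff] at huc
  obtain ⟨δ, hδ, hδ1⟩ := huc ε hε
  obtain ⟨t, -, htf, ht⟩ := (isCompact_univ (X := K)).finite_cover_balls (half_pos hδ)
  let s := htf.toFinset
  have hmem : ∀ a : Fin s.card, (s.equivFin.symm a).1 ∈ s := fun a => (s.equivFin.symm a).2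
  refine patch hK hj (fun a : Fin s.card => Metric.closedBall (s.equivFin.symm a).1 (δ / 2))
    (fun a => Metric.isClosed_closedBall) (fun a => (s.equivFin.symm a).1)
    (fun a => Metric.mem_closedBall_self (half_pos hδ).le) Finset.univ V W hd A hA ?_ F hF h0 ?_
  · intro x
    right
    have hx := ht (mem_univ x)
    rw [mem_iUnion₂] at hx
    obtain ⟨y, hy, hxy⟩ := hx
    refine ⟨s.equivFin ⟨y, htf.mem_toFinset.2 hy⟩, Finset.mem_univ _, ?_⟩
    rw [Equiv.symm_apply_apply]
    exact Metric.ball_subset_closedBall hxy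
  · intro a _ x hx v hv u hu h
    set y : K := (s.equivFin.symm a).1 with hy
    have hxy : dist x y ≤ δ / 2 := Metric.mem_closedBall.1 hx
    have hvb : v ∈ Metric.closedBall (0 : V) 1 := mem_closedBall_zero_iff.2 hv.le
    have h1 : dist (F (x, v)) (F (y, v)) < ε := by
      refine hδ1 (x, v) ⟨mem_univ _, hvb⟩ (y, v) ⟨mem_univ _, hvb⟩ ?_
      rw [Prod.dist_eq]
      simp only [dist_self]
      rw [max_eq_left dist_nonneg]
      linarith
    have h2 : ε ≤ ‖F (x, v)‖ := hε1 (x, v) ⟨mem_univ _, mem_sphere_zero_iff_norm.2 hv⟩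
    have h3 : F (x, v) = u • (F (x, v) - F (y, v)) := by
      have h4 : F (x, v) - u • (F (x, v) - F (y, v)) = (1 - u) • F (x, v) + u • F (y, v) := by
        rw [smul_sub, sub_smul, one_smul]
        abel
      rw [h] at h4
      exact sub_eq_zero.1 h4
    have h5 : ‖F (x, v)‖ ≤ dist (F (x, v)) (F (y, v)) := by
      rw [dist_eq_norm]
      calc ‖F (x, v)‖ = ‖u • (F (x, v) - F (y, v))‖ := by rw [← h3]
        _ = u * ‖F (x, v) - F (y, v)‖ := by
          rw [norm_smul, Real.norm_of_nonneg hu.1]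
        _ ≤ 1 * ‖F (x, v) - F (y, v)‖ := by
          gcongr
          exact hu.2
        _ = _ := one_mul _
    linarith

/-- PROOF.  `SI_of_TB` for `V = Fin k → ℝ`, `W = Fin (j + k) → ℝ` gives `V'` and `G'`; with
`e : V' ≃ₜ (Fin l → ℝ)`, `‖e v‖ = ‖v‖` (`SMD.exists_radial`, `l = finrank V'`) put
`G (p, s) = ((G' (p, e.symm s)).1, e (G' (p, e.symm s)).2)`; `e v = 0` iff `v = 0`. -/
theorem stableDimLE_of_TB {K : Type} [MetricSpace K] [CompactSpace K] (hK : TB K) :
    StableDimLE K 2 := by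
  intro j hj A hA k F hF h0
  obtain ⟨V', i1, i2, i3, G', h1, h2, h3⟩ := SI_of_TB hK (j := j) hj A hA (Fin k → ℝ)
    (Fin (j + k) → ℝ) (by rw [Module.finrank_fin_fun, Module.finrank_fin_fun]) F hF h0
  obtain ⟨e, he⟩ := exists_radial V' (Fin (Module.finrank ℝ V') → ℝ)
    (by rw [Module.finrank_fin_fun])
  have he' : ∀ s, ‖e.symm s‖ = ‖s‖ := by
    intro s
    rw [← he (e.symm s), e.apply_symm_apply]
  refine ⟨Module.finrank ℝ V', fun p => ((G' (p.1, e.symm p.2)).1, e (G' (p.1, e.symm p.2)).2),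
    ?_, ?_, ?_⟩
  · have hc : Continuous fun p : (K × (Fin k → ℝ)) × (Fin (Module.finrank ℝ V') → ℝ) =>
        G' (p.1, e.symm p.2) :=
      h1.comp (continuous_fst.prodMk (e.symm.continuous.comp continuous_snd))
    exact (continuous_fst.comp hc).prodMk (e.continuous.comp (continuous_snd.comp hc))
  · intro p h
    obtain ⟨h4, h5⟩ := Prod.mk_eq_zero.1 h
    refine h2 (p.1, e.symm p.2) (Prod.ext h4 ?_)
    have h6 : ‖e (G' (p.1, e.symm p.2)).2‖ = 0 := by rw [h5, norm_zero]
    rw [he] at h6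
    exact norm_eq_zero.1 h6
  · intro x t s hx
    have h4 : G' ((x, t), e.symm s) = (F (x, t), e.symm s) := by
      refine h3 (x, t) (e.symm s) ?_
      rcases hx with h | h | h
      · exact Or.inl (Or.inl h)
      · exact Or.inl (Or.inr h)
      · right
        rw [he']
        exact h
    show ((G' ((x, t), e.symm s)).1, e (G' ((x, t), e.symm s)).2) = _
    rw [h4]
    show (F (x, t), e (e.symm s)) = _
    rw [e.apply_symm_apply]

end MM

end

/-! ### from `Lib_MP_33f7bb_d.D7` -/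

section

/-!
# D7: the one point union of a sequence of compact metric spaces
-/

open Set Filter Topology

namespace MM

/-- adding variables to a solution.

PROOF.  `Φ' (x, t, (s, s')) = (Φ (x, t, s), s')` with `s = x ∘ castLE`, `s'` the remaining coordinates
(`Fin.append` / `Fin.addCases`, `l' = l + m`). -/
theorem solved_add {X X' : Type} [TopologicalSpace X] [TopologicalSpace X'] {p : X' → X}
    {j k : ℕ} {A : Set X} {φ : X × (Fin k → ℝ) → (Fin j → ℝ) × (Fin k → ℝ)}
    (h : Solved p A φ) : ∃ l₀, ∀ l, l₀ ≤ l →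
      ∃ (Φ : X' × (Fin k → ℝ) × (Fin l → ℝ) → (Fin j → ℝ) × (Fin k → ℝ) × (Fin l → ℝ)),
        Continuous Φ ∧ (∀ p, Φ p ≠ 0) ∧
        (∃ C : ℝ, ∀ x t s, ‖Φ (x, t, s) - (e0 j, t, s)‖ ≤ C) ∧
        ∀ x t s, p x ∈ A → Φ (x, t, s) = ((φ (p x, t)).1, (φ (p x, t)).2, s) := by
  obtain ⟨l₀, Φ, hc, hn, ⟨C, hC⟩, hb⟩ := h
  refine ⟨l₀, fun l hl => ?_⟩
  obtain ⟨m, rfl⟩ := Nat.exists_eq_add_of_le hl
  have hs1 : Continuous fun s : Fin (l₀ + m) → ℝ => fun i : Fin l₀ => s (Fin.castAdd m i) :=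
    continuous_pi fun i => continuous_apply _
  have hin : Continuous fun q : X' × (Fin k → ℝ) × (Fin (l₀ + m) → ℝ) =>
      (q.1, q.2.1, fun i : Fin l₀ => q.2.2 (Fin.castAdd m i)) :=
    continuous_fst.prodMk ((continuous_fst.comp continuous_snd).prodMk
      (hs1.comp (continuous_snd.comp continuous_snd)))
  have hΦ := hc.comp hin
  refine ⟨fun q => ((Φ (q.1, q.2.1, fun i => q.2.2 (Fin.castAdd m i))).1,
    (Φ (q.1, q.2.1, fun i => q.2.2 (Fin.castAdd m i))).2.1,
    Fin.append (Φ (q.1, q.2.1, fun i => q.2.2 (Fin.castAdd m i))).2.2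
      (fun i => q.2.2 (Fin.natAdd l₀ i))), ?_, ?_, ⟨C, ?_⟩, ?_⟩
  · refine (continuous_fst.comp hΦ).prodMk (((continuous_fst.comp continuous_snd).comp hΦ).prodMk
      (continuous_pi fun i => ?_))
    refine Fin.addCases (fun i => ?_) (fun i => ?_) i
    · simp only [Fin.append_left]
      exact (continuous_apply i).comp ((continuous_snd.comp continuous_snd).comp hΦ)
    · simp only [Fin.append_right]
      exact (continuous_apply _).comp (continuous_snd.comp continuous_snd)
  · intro q h0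
    apply hn (q.1, q.2.1, fun i => q.2.2 (Fin.castAdd m i))
    have h1 := congrArg Prod.fst h0
    have h2 := congrArg (fun z => z.2.1) h0
    have h3 := congrArg (fun z => z.2.2) h0
    refine Prod.ext h1 (Prod.ext h2 ?_)
    funext i
    have h4 : Fin.append (Φ (q.1, q.2.1, fun i => q.2.2 (Fin.castAdd m i))).2.2
        (fun i => q.2.2 (Fin.natAdd l₀ i)) (Fin.castAdd m i) = 0 :=
      congrFun h3 (Fin.castAdd m i)
    rw [Fin.append_left] at h4
    exact h4
  · intro x t s
    have h1 := hC x t (fun i => s (Fin.castAdd m i))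
    have hC0 : 0 ≤ C := (norm_nonneg _).trans h1
    rw [Prod.norm_def, Prod.norm_def] at h1 ⊢
    have a1 := (le_max_left _ _).trans h1
    have a2 := ((le_max_left _ _).trans (le_max_right _ _)).trans h1
    have a3 := ((le_max_right _ _).trans (le_max_right _ _)).trans h1
    refine max_le a1 (max_le a2 ?_)
    rw [pi_norm_le_iff_of_nonneg hC0] at a3 ⊢
    intro i
    refine Fin.addCases (fun i => ?_) (fun i => ?_) i
    · have := a3 i
      simpa [Fin.append_left] using this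
    · simpa [Fin.append_right] using hC0
  · intro x t s hx
    have h1 := hb x t (fun i => s (Fin.castAdd m i)) hx
    show ((Φ (x, t, fun i => s (Fin.castAdd m i))).1, (Φ (x, t, fun i => s (Fin.castAdd m i))).2.1,
      Fin.append (Φ (x, t, fun i => s (Fin.castAdd m i))).2.2 (fun i => s (Fin.natAdd l₀ i))) = _
    rw [h1]
    refine Prod.ext rfl (Prod.ext rfl ?_)
    exact Fin.append_castAdd_natAdd

/-- the one point union -/
private abbrev D7X (K : ℕ → Type) : Type :=
  {f : ∀ i, K i ⊕ Unit // ∀ i i', i ≠ i' → f i = Sum.inr () ∨ f i' = Sum.inr ()}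

private theorem D7_closed (K : ℕ → Type) [∀ i, TopologicalSpace (K i)] [∀ i, T2Space (K i)] :
    IsClosed {f : ∀ i, K i ⊕ Unit | ∀ i i', i ≠ i' → f i = Sum.inr () ∨ f i' = Sum.inr ()} := by
  simp only [Set.ofPred_forall]
  refine isClosed_iInter fun i => isClosed_iInter fun i' => isClosed_iInter fun _ => ?_
  exact (isClosed_singleton.preimage (continuous_apply i)).union
    (isClosed_singleton.preimage (continuous_apply i'))

private instance D7_compact (K : ℕ → Type) [∀ i, TopologicalSpace (K i)] [∀ i, T2Space (K i)]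
    [∀ i, CompactSpace (K i)] : CompactSpace (D7X K) :=
  isCompact_iff_compactSpace.1 (D7_closed K).isCompact

/-- the point at infinity -/
private def D7inf (K : ℕ → Type) : D7X K := ⟨fun _ => Sum.inr (), fun _ _ _ => Or.inl rfl⟩

/-- the embeddings -/
private def D7e (K : ℕ → Type) (i : ℕ) (x : K i) : D7X K :=
  ⟨Function.update (fun _ => Sum.inr ()) i (Sum.inl x), by
    intro a b hab
    rcases eq_or_ne a i with rfl | h
    · right
      exact Function.update_of_ne (fun h => hab h.symm) _ _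
    · left
      exact Function.update_of_ne h _ _⟩

private theorem D7e_cont (K : ℕ → Type) [∀ i, TopologicalSpace (K i)] (i : ℕ) :
    Continuous (D7e K i) :=
  Continuous.subtype_mk (continuous_const.update i continuous_inl) _

private theorem D7e_eq (K : ℕ → Type) (i : ℕ) (f : D7X K) (x : K i) (h : f.1 i = Sum.inl x) :
    D7e K i x = f := by
  apply Subtype.ext
  funext a
  show Function.update (fun _ => Sum.inr ()) i (Sum.inl x) a = f.1 a
  rcases eq_or_ne a i with rfl | ha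
  · rw [Function.update_self, h]
  · rw [Function.update_of_ne ha]
    rcases f.2 a i ha with h1 | h1
    · exact h1.symm
    · rw [h] at h1
      exact absurd h1 Sum.inl_ne_inr

/-- gluing along a map to `K ⊕ Unit` -/
private theorem D7_glue {K X Z W : Type} [TopologicalSpace K] [TopologicalSpace X]
    [TopologicalSpace Z] [TopologicalSpace W] (π : X → K ⊕ Unit) (hπ : Continuous π)
    (g : K × Z → W) (hg : Continuous g) (g' : X × Z → W) (hg' : Continuous g') :
    Continuous fun p : X × Z => Sum.elim (fun a => g (a, p.2)) (fun _ => g' p) (π p.1) := by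
  have h1 : Continuous fun q : (K × X × Z) ⊕ (Unit × X × Z) =>
      Sum.elim (fun p : K × X × Z => g (p.1, p.2.2)) (fun p : Unit × X × Z => g' p.2) q := by
    refine Continuous.sumElim ?_ ?_
    · exact hg.comp (continuous_fst.prodMk (continuous_snd.comp continuous_snd))
    · exact hg'.comp continuous_snd
  have h2 := h1.comp ((Homeomorph.sumProdDistrib (X := K) (Y := Unit) (Z := X × Z)).continuous.comp
    ((hπ.comp continuous_fst).prodMk continuous_id))
  refine h2.congr fun p => ?_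
  show Sum.elim _ _ ((Homeomorph.sumProdDistrib (X := K) (Y := Unit) (Z := X × Z)) (π p.1, p)) = _
  rcases h : π p.1 with a | a <;> rfl

/-- a closed set without the point at infinity is contained in finitely many of the spaces -/
private theorem D7_fin (K : ℕ → Type) [∀ i, TopologicalSpace (K i)] [∀ i, T2Space (K i)]
    [∀ i, CompactSpace (K i)] (Q : Set (D7X K)) (hQ : IsClosed Q) (h : D7inf K ∉ Q) :
    ∃ n : ℕ, ∀ f ∈ Q, ∃ i, i < n ∧ ∃ x, f.1 i = Sum.inl x := by
  have hcl : ∀ i : ℕ, IsClosed {f : D7X K | f.1 i = Sum.inr ()} := fun i =>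
    isClosed_singleton.preimage ((continuous_apply i).comp continuous_subtype_val)
  have hR : ∀ n : ℕ, IsClosed {f : D7X K | ∀ i, i < n → f.1 i = Sum.inr ()} := by
    intro n
    simp only [Set.ofPred_forall]
    exact isClosed_iInter fun i => isClosed_iInter fun _ => hcl i
  by_contra hcon
  push Not at hcon
  have hne : (⋂ n : ℕ, Q ∩ {f : D7X K | ∀ i, i < n → f.1 i = Sum.inr ()}).Nonempty := by
    refine IsCompact.nonempty_iInter_of_sequence_nonempty_isCompact_isClosed _ ?_ ?_ ?_ ?_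
    · intro n f hf
      exact ⟨hf.1, fun i hi => hf.2 i (by omega)⟩
    · intro n
      obtain ⟨f, hf, hf2⟩ := hcon n
      refine ⟨f, hf, fun i hi => ?_⟩
      rcases hfi : f.1 i with x | x
      · exact absurd hfi (hf2 i hi x)
      · rfl
    · exact (hQ.inter (hR 0)).isCompact
    · intro n
      exact hQ.inter (hR n)
  obtain ⟨f, hf⟩ := hne
  rw [Set.mem_iInter] at hf
  apply h
  have : f = D7inf K := by
    apply Subtype.ext
    funext i
    exact (hf (i + 1)).2 i (by omega)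
  rw [← this]
  exact (hf 0).1

/-- gluing of finitely many solutions -/
private theorem D7_many (K : ℕ → Type) [∀ i, TopologicalSpace (K i)] {Z W : Type}
    [TopologicalSpace Z] [TopologicalSpace W] (Ψ : D7X K × Z → W) (hΨ : Continuous Ψ) (n : ℕ)
    (Φ : ∀ i, K i × Z → W) (hΦ : ∀ i, i < n → Continuous (Φ i)) :
    ∃ Θ : D7X K × Z → W, Continuous Θ ∧
      (∀ (f : D7X K) z, (∀ i, i < n → f.1 i = Sum.inr ()) → Θ (f, z) = Ψ (f, z)) ∧
      ∀ (f : D7X K) z i, i < n → ∀ x, f.1 i = Sum.inl x → Θ (f, z) = Φ i (x, z) := by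
  induction n with
  | zero =>
    exact ⟨Ψ, hΨ, fun _ _ _ => rfl, fun _ _ i hi => absurd hi (Nat.not_lt_zero i)⟩
  | succ n ih =>
    obtain ⟨Θ, h1, h2, h3⟩ := ih fun i hi => hΦ i (by omega)
    refine ⟨fun p => Sum.elim (fun a => Φ n (a, p.2)) (fun _ => Θ p) (p.1.1 n),
      D7_glue (fun f : D7X K => f.1 n) ((continuous_apply n).comp continuous_subtype_val) (Φ n)
        (hΦ n (by omega)) Θ h1, ?_, ?_⟩
    · intro f z hf
      show Sum.elim (fun a => Φ n (a, z)) (fun _ => Θ (f, z)) (f.1 n) = _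
      rw [hf n (by omega)]
      exact h2 f z fun i hi => hf i (by omega)
    · intro f z i hi x hx
      show Sum.elim (fun a => Φ n (a, z)) (fun _ => Θ (f, z)) (f.1 n) = _
      rcases eq_or_ne i n with rfl | hin
      · rw [hx]
        rfl
      · have : f.1 n = Sum.inr () := by
          rcases f.2 n i (Ne.symm hin) with h | h
          · exact h
          · rw [hx] at h
            exact absurd h Sum.inl_ne_inr
        rw [this]
        exact h3 f z i (by omega) x hx

private theorem D7_e0 {j : ℕ} (hj : 3 ≤ j) : e0 j ≠ 0 := by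
  intro h
  have := congrFun h ⟨0, by omega⟩
  simp [e0] at this

private theorem D7_TB (K : ℕ → Type) [∀ i, TopologicalSpace (K i)] [∀ i, T2Space (K i)]
    [∀ i, CompactSpace (K i)] (hK : ∀ i, TB (K i)) : TB (D7X K) := by
  intro j k A φ hj hT
  have hT' : ∀ i, IsTask j k (D7e K i ⁻¹' A) (fun p => φ (D7e K i p.1, p.2)) := fun i =>
    { closed := hT.closed.preimage (D7e_cont K i)
      cont := hT.cont.comp (((D7e_cont K i).comp continuous_fst).prodMk continuous_snd)
      triv := fun x t ht => hT.triv _ t ht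
      ne := fun x hx t => hT.ne _ hx t }
  choose l₀ hl₀ using fun i => solved_add (hK i j k _ _ hj (hT' i))
  -- the remaining part
  have hbase : ∃ n : ℕ, ∀ l : ℕ,
      ∃ Ψ : D7X K × (Fin k → ℝ) × (Fin l → ℝ) → (Fin j → ℝ) × (Fin k → ℝ) × (Fin l → ℝ),
      Continuous Ψ ∧ ∃ C : ℝ, ∀ f : D7X K, (∀ i, i < n → f.1 i = Sum.inr ()) → ∀ t s,
        Ψ (f, t, s) ≠ 0 ∧ ‖Ψ (f, t, s) - (e0 j, t, s)‖ ≤ C ∧
        (f ∈ A → Ψ (f, t, s) = ((φ (f, t)).1, (φ (f, t)).2, s)) := by
    by_cases hinf : D7inf K ∈ A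
    · -- zeros of `φ`
      have hcomp : IsCompact ({p : D7X K × (Fin k → ℝ) | p.2 ∈ Metric.closedBall 0 1 ∧ φ p = 0}) := by
        have h1 : IsCompact ((Set.univ : Set (D7X K)) ×ˢ
            (Metric.closedBall (0 : Fin k → ℝ) 1)) :=
          isCompact_univ.prod (isCompact_closedBall _ _)
        refine h1.of_isClosed_subset ?_ ?_
        · exact (Metric.isClosed_closedBall.preimage continuous_snd).inter
            (isClosed_singleton.preimage hT.cont)
        · intro p hp
          exact ⟨Set.mem_univ _, hp.1⟩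
      have hQ := (hcomp.image continuous_fst).isClosed
      obtain ⟨n, hn⟩ := D7_fin K _ hQ (by
        rintro ⟨p, hp, hp1⟩
        apply hT.ne (D7inf K) hinf p.2
        rw [← hp1]
        exact hp.2)
      have hbd : ∃ C : ℝ, ∀ p : D7X K × (Fin k → ℝ), ‖φ p - (e0 j, p.2)‖ ≤ C := by
        have h1 : IsCompact ((Set.univ : Set (D7X K)) ×ˢ
            (Metric.closedBall (0 : Fin k → ℝ) 1)) :=
          isCompact_univ.prod (isCompact_closedBall _ _)
        obtain ⟨C, hC⟩ := h1.exists_bound_of_continuousOn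
          (f := fun p : D7X K × (Fin k → ℝ) => φ p - (e0 j, p.2))
          (hT.cont.sub (continuous_const.prodMk continuous_snd)).continuousOn
        refine ⟨max C 0, fun p => ?_⟩
        rcases le_or_gt ‖p.2‖ 1 with hp | hp
        · exact (hC p ⟨Set.mem_univ _, by simpa using hp⟩).trans (le_max_left _ _)
        · have := hT.triv p.1 p.2 hp.le
          rw [show φ p = (e0 j, p.2) from this, sub_self, norm_zero]
          exact le_max_right _ _
      obtain ⟨C, hC⟩ := hbd
      refine ⟨n, fun l => ⟨fun p => ((φ (p.1, p.2.1)).1, (φ (p.1, p.2.1)).2, p.2.2), ?_, C, ?_⟩⟩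
      · have h2 : Continuous fun p : D7X K × (Fin k → ℝ) × (Fin l → ℝ) => φ (p.1, p.2.1) :=
          hT.cont.comp (continuous_fst.prodMk (continuous_fst.comp continuous_snd))
        exact (continuous_fst.comp h2).prodMk ((continuous_snd.comp h2).prodMk
          (continuous_snd.comp continuous_snd))
      · intro f hf t s
        refine ⟨?_, ?_, fun _ => rfl⟩
        · intro h0
          have e1 := congrArg Prod.fst h0
          have e2 := congrArg (fun z => z.2.1) h0
          have e3 : φ (f, t) = 0 := Prod.ext e1 e2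
          rcases le_or_gt ‖t‖ 1 with ht | ht
          · obtain ⟨i, hi, x, hx⟩ := hn f ⟨(f, t), ⟨by simpa using ht, e3⟩, rfl⟩
            rw [hf i hi] at hx
            exact Sum.inr_ne_inl hx
          · rw [hT.triv f t ht.le] at e3
            exact D7_e0 hj (congrArg Prod.fst e3)
        · have h3 := hC (f, t)
          rw [Prod.norm_def] at h3
          rw [Prod.norm_def, Prod.norm_def]
          have hC0 : 0 ≤ C := (norm_nonneg _).trans (hC (f, t))
          refine max_le ((le_max_left _ _).trans h3) (max_le ((le_max_right _ _).trans h3) ?_)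
          show ‖s - s‖ ≤ C
          rw [sub_self, norm_zero]
          exact hC0
    · obtain ⟨n, hn⟩ := D7_fin K A hT.closed hinf
      refine ⟨n, fun l => ⟨fun p => (e0 j, p.2.1, p.2.2), ?_, 0, ?_⟩⟩
      · exact continuous_const.prodMk ((continuous_fst.comp continuous_snd).prodMk
          (continuous_snd.comp continuous_snd))
      · intro f hf t s
        refine ⟨?_, ?_, fun hA => ?_⟩
        · intro h0
          exact D7_e0 hj (congrArg Prod.fst h0)
        · show ‖((e0 j, t, s) : (Fin j → ℝ) × (Fin k → ℝ) × (Fin l → ℝ)) - (e0 j, t, s)‖ ≤ 0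
          rw [sub_self, norm_zero]
        · obtain ⟨i, hi, x, hx⟩ := hn f hA
          rw [hf i hi] at hx
          exact absurd hx Sum.inr_ne_inl
  obtain ⟨n, hn⟩ := hbase
  set l := (Finset.range n).sup l₀ with hl
  have hle : ∀ i, i < n → l₀ i ≤ l := fun i hi => Finset.le_sup (Finset.mem_range.2 hi)
  obtain ⟨Ψ, hΨc, C0, hΨ⟩ := hn l
  have hsol : ∀ i, ∃ Φ : K i × (Fin k → ℝ) × (Fin l → ℝ) →
      (Fin j → ℝ) × (Fin k → ℝ) × (Fin l → ℝ), i < n → Continuous Φ ∧ (∀ p, Φ p ≠ 0) ∧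
        (∃ C : ℝ, ∀ x t s, ‖Φ (x, t, s) - (e0 j, t, s)‖ ≤ C) ∧
        ∀ x t s, D7e K i x ∈ A →
          Φ (x, t, s) = ((φ (D7e K i x, t)).1, (φ (D7e K i x, t)).2, s) := by
    intro i
    by_cases hi : i < n
    · obtain ⟨Φ, h1, h2, h3, h4⟩ := hl₀ i l (hle i hi)
      exact ⟨Φ, fun _ => ⟨h1, h2, h3, h4⟩⟩
    · exact ⟨fun _ => 0, fun h => absurd h hi⟩
  choose Φ hΦ using hsol
  obtain ⟨Θ, hΘc, hΘ1, hΘ2⟩ := D7_many K Ψ hΨc n Φ fun i hi => (hΦ i hi).1
  have hCi : ∀ i, ∃ C : ℝ, i < n → ∀ x t s, ‖Φ i (x, t, s) - (e0 j, t, s)‖ ≤ C := by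
    intro i
    by_cases hi : i < n
    · obtain ⟨C, hC⟩ := (hΦ i hi).2.2.1
      exact ⟨C, fun _ => hC⟩
    · exact ⟨0, fun h => absurd h hi⟩
  choose Cc hCc using hCi
  have hcase : ∀ f : D7X K, (∀ i, i < n → f.1 i = Sum.inr ()) ∨ ∃ i, i < n ∧ ∃ x, f.1 i = Sum.inl x := by
    intro f
    by_cases h : ∀ i, i < n → f.1 i = Sum.inr ()
    · exact Or.inl h
    · push Not at h
      obtain ⟨i, hi, hfi⟩ := h
      refine Or.inr ⟨i, hi, ?_⟩
      rcases hx : f.1 i with x | x
      · exact ⟨x, rfl⟩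
      · exact absurd hx hfi
  refine ⟨l, Θ, hΘc, ?_, ⟨max C0 (∑ i ∈ Finset.range n, |Cc i|), ?_⟩, ?_⟩
  · rintro ⟨f, t, s⟩
    rcases hcase f with h | ⟨i, hi, x, hx⟩
    · rw [hΘ1 f (t, s) h]
      exact (hΨ f h t s).1
    · rw [hΘ2 f (t, s) i hi x hx]
      exact (hΦ i hi).2.1 _
  · intro f t s
    rcases hcase f with h | ⟨i, hi, x, hx⟩
    · rw [hΘ1 f (t, s) h]
      exact (hΨ f h t s).2.1.trans (le_max_left _ _)
    · rw [hΘ2 f (t, s) i hi x hx]
      refine (hCc i hi x t s).trans (((le_abs_self _).trans ?_).trans (le_max_right _ _))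
      exact Finset.single_le_sum (f := fun i => |Cc i|) (fun i _ => abs_nonneg _)
        (Finset.mem_range.2 hi)
  · intro f t s hf
    rcases hcase f with h | ⟨i, hi, x, hx⟩
    · rw [hΘ1 f (t, s) h]
      exact (hΨ f h t s).2.2 hf
    · rw [hΘ2 f (t, s) i hi x hx]
      have he := D7e_eq K i f x hx
      have := (hΦ i hi).2.2.2 x t s (by rw [he]; exact hf)
      rw [he] at this
      exact this

/-- The one point compactification of a disjoint union.

PROOF.  `X = {f : ∀ i, K i ⊕ Unit // ∀ i i', i ≠ i' → f i = inr () ∨ f i' = inr ()}`, a closed subspace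
of a countable product of compact metrizable spaces (`K i ⊕ Unit` is compact, T2, second
countable), so compact metrizable (`TopologicalSpace.metrizableSpace_of_t3_secondCountable`,
`TopologicalSpace.metrizableSpaceMetric`).  `e i x` = the point with coordinate `inl x` at `i` and `inr ()`
elsewhere; its range `{f | f i ≠ inr ()}` is clopen; `∞` = all coordinates `inr ()`; the
complement of `⋃ i < n, range (e i)` is a basis of neighbourhoods of `∞`.  (Any other model is fine.)
`TB X`: let `A, φ` be a task.  If `∞ ∉ A` there is `n` with `A ⊆ ⋃ i < n, range (e i)` (compactness).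
If `∞ ∈ A` then `φ` has no zeros on `({∞} ∪ ⋃ i ≥ n, range (e i)) × (Fin k → ℝ)` for some `n`: zeros
only occur for `‖t‖ ≤ 1`, tube lemma.  Let `Φ_i`, `i < n`, be the solutions on `K i` of the
tasks `(e i ⁻¹' A, φ ∘ (e i × id))`, all with the same `l` (`solved_add`).  The solution on `X` is
`Φ_i` on the clopen set `range (e i)`, `i < n`, and on the remaining clopen set `(e0, t, s)` in the first
case and `(φ (x, t), s)` in the second case.
Maps: given `q : C(K i, Y)`, the map which is `q` on `range (e i)` and constant elsewhere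
is continuous; if it is null-homotopic then so is its composition `q` with `e i`. -/
theorem exists_union (K : ℕ → Type) [∀ i, MetricSpace (K i)] [∀ i, CompactSpace (K i)]
    (hK : ∀ i, TB (K i)) :
    ∃ (X : Type) (_ : MetricSpace X) (_ : CompactSpace X), TB X ∧
      ∀ (i : ℕ) (Y : Type) [TopologicalSpace Y] [Nonempty Y] (q : C(K i, Y)), ¬ q.Nullhomotopic →
        ∃ q' : C(X, Y), ¬ q'.Nullhomotopic := by
  have hsc : SecondCountableTopology (∀ i, K i ⊕ Unit) := by
    have hsc : ∀ i, SecondCountableTopology (K i ⊕ Unit) := fun i => inferInstance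
    infer_instance
  have hsc2 : SecondCountableTopology (D7X K) := TopologicalSpace.Subtype.secondCountableTopology _
  have hm : TopologicalSpace.MetrizableSpace (D7X K) :=
    TopologicalSpace.metrizableSpace_of_t3_secondCountable _
  refine ⟨D7X K, TopologicalSpace.metrizableSpaceMetric (D7X K), D7_compact K, D7_TB K hK, ?_⟩
  intro i Y _ _ q hq
  let y0 : Y := Classical.arbitrary Y
  have hcont : Continuous fun f : D7X K => Sum.elim (fun x => q x) (fun _ => y0) (f.1 i) := by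
    have h1 : Continuous (Sum.elim (fun x => q x) (fun _ : Unit => y0)) :=
      Continuous.sumElim q.continuous continuous_const
    exact h1.comp ((continuous_apply i).comp continuous_subtype_val)
  refine ⟨⟨_, hcont⟩, fun hnull => hq ?_⟩
  have h2 := ContinuousMap.Nullhomotopic.comp_left hnull ⟨D7e K i, D7e_cont K i⟩
  have h3 : q = (⟨_, hcont⟩ : C(D7X K, Y)).comp ⟨D7e K i, D7e_cont K i⟩ := by
    ext x
    show q x = Sum.elim (fun x => q x) (fun _ => y0) ((D7e K i x).1 i)
    have : (D7e K i x).1 i = Sum.inl x := by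
      show Function.update (fun _ => Sum.inr ()) i (Sum.inl x) i = Sum.inl x
      simp
    rw [this]
    rfl
  rw [h3]
  exact h2

end MM

end
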