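import Pool.Agent.Lib_MP_33f7bb_m.G04
import Pool.Agent.Lib_MP_33f7bb_m.G06
import Pool.Agent.Lib_MP_33f7bb_m.G09

/-!
# MP_33f7bb_an, negative answer to Q1: merged library part G10

Concatenation of files of `Lib_MP_33f7bb_an` and `Lib_MP_33f7bb_d` (each in its own section), only to save build time.
-/

/-! ### from `Lib_MP_33f7bb_d.A018` -/

section

/-!
# A0-18: product lemma for acyclic pairs

`(bx K C, box K' K A C)` is acyclic if `(C, A)` is, or if `(K, K')` is.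
`F[K × C] / F[K' × C ∪ K × A]` is isomorphic, level by level and naturally, to
`(F[K]/F[K']) ⊗ (F[C]/F[A])` (basis: pairs `(x,y)`, `x ∈ K \ K'`, `y ∈ C \ A`); use `tens_acyclic_*` and
`acyc_iff_quo` (A0-20).
-/

open scoped TensorProduct

namespace MM

private theorem a018_ext {P : SS} {A : Sub P} {n : ℕ} {M : Type} [AddCommGroup M]
    [Module (ZMod 2) M] (F G : (linSub A).sv.V n →ₗ[ZMod 2] M)
    (h : ∀ (x : P.S n) (hx : x ∈ A.car n), F ⟨Finsupp.single x 1, SuppIn.single hx 1⟩ =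
      G ⟨Finsupp.single x 1, SuppIn.single hx 1⟩) : F = G := by
  classical
  have key : ∀ (z : Ch P n) (hz : z ∈ (linSub A).car n), F ⟨z, hz⟩ = G ⟨z, hz⟩ := by
    intro z
    induction z using Finsupp.induction with
    | zero =>
      intro hz
      have : (⟨0, hz⟩ : (linSub A).sv.V n) = 0 := rfl
      rw [this, map_zero, map_zero]
    | single_add a b f ha hb ih =>
      intro hz
      have hs : SuppIn A (Finsupp.single a b + f) := hz
      have hsup : (Finsupp.single a b + f).support = Finset.cons a f.support ha :=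
        Finsupp.support_single_add ha hb
      have haA : a ∈ A.car n := hs a (by rw [hsup]; simp)
      have hfA : SuppIn A f := fun x hx => hs x (by rw [hsup]; simp [hx])
      have hb1 : b = 1 := by
        have : ∀ c : ZMod 2, c ≠ 0 → c = 1 := by decide
        exact this b hb
      subst hb1
      have : (⟨Finsupp.single a 1 + f, hz⟩ : (linSub A).sv.V n) =
        ⟨Finsupp.single a 1, SuppIn.single haA 1⟩ + ⟨f, hfA⟩ := rfl
      rw [this, map_add, map_add, h a haA, ih hfA]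
  exact LinearMap.ext fun z => key z.1 z.2

/-- class of a simplex in the relative chains -/
private noncomputable def a018_q {P : SS} (A C : Sub P) {n : ℕ} (x : P.S n) :
    (linSub2 A C).quo.V n := by
  classical
  exact if h : x ∈ C.car n then
    (linSub2 A C).proj.app n ⟨Finsupp.single x 1, SuppIn.single h 1⟩ else 0

private theorem a018_q_mem {P : SS} (A C : Sub P) {n : ℕ} {x : P.S n} (h : x ∈ C.car n) :
    a018_q A C x = (linSub2 A C).proj.app n ⟨Finsupp.single x 1, SuppIn.single h 1⟩ := by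
  rw [a018_q, dif_pos h]

private theorem a018_q_zero {P : SS} {A C : Sub P} (hA : A ≤ C) {n : ℕ} {x : P.S n}
    (h : x ∈ A.car n) : a018_q A C x = 0 := by
  rw [a018_q_mem A C (hA n h)]
  exact (Submodule.Quotient.mk_eq_zero _).2 (SuppIn.single h 1 : SuppIn A _)

private theorem a018_q_act {P : SS} {A C : Sub P} {m n : ℕ} (g : Mo m n) {x : P.S n}
    (h : x ∈ C.car n) : a018_q A C (P.act g x) = (linSub2 A C).quo.act g (a018_q A C x) := by
  rw [a018_q_mem A C (C.closed g h), a018_q_mem A C h, ← (linSub2 A C).proj.nat]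
  congr 1
  apply Subtype.ext
  show Finsupp.single (P.act g x) 1 = Finsupp.mapDomain (P.act g) (Finsupp.single x 1)
  rw [Finsupp.mapDomain_single]

/-- from chains to the tensor product -/
private noncomputable def a018_F {Q P : SS} (K' K : Sub Q) (A C : Sub P) (n : ℕ) :
    (linSub (Sub.bx K C)).sv.V n →ₗ[ZMod 2]
      ((linSub2 K' K).quo.tens (linSub2 A C).quo).V n :=
  (Finsupp.linearCombination (ZMod 2) (fun x : (Q.prod P).S n =>
    (a018_q K' K x.1 ⊗ₜ[ZMod 2] a018_q A C x.2 :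
      ((linSub2 K' K).quo.tens (linSub2 A C).quo).V n))).comp (Submodule.subtype _)

private theorem a018_F_single {Q P : SS} (K' K : Sub Q) (A C : Sub P) (n : ℕ)
    (x : (Q.prod P).S n) (hx : x ∈ (Sub.bx K C).car n) :
    a018_F K' K A C n ⟨Finsupp.single x 1, SuppIn.single hx 1⟩ =
      a018_q K' K x.1 ⊗ₜ[ZMod 2] a018_q A C x.2 := by
  rw [a018_F, LinearMap.comp_apply]
  show Finsupp.linearCombination (ZMod 2) _ (Finsupp.single x 1) = _
  rw [Finsupp.linearCombination_single, one_smul]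

private theorem a018_F_zero {Q P : SS} {K' K : Sub Q} {A C : Sub P} (hK : K' ≤ K) (hA : A ≤ C)
    (n : ℕ) (z : (linSub (Sub.bx K C)).sv.V n) (hz : SuppIn (Sub.box K' K A C) z.1) :
    a018_F K' K A C n z = 0 := by
  rw [a018_F, LinearMap.comp_apply]
  show Finsupp.linearCombination (ZMod 2) _ z.1 = 0
  rw [Finsupp.linearCombination_apply]
  refine Finset.sum_eq_zero fun x hx => ?_
  have hx' := (hz x hx).2
  show z.1 x • (a018_q K' K x.1 ⊗ₜ[ZMod 2] a018_q A C x.2) = 0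
  rcases hx' with h | h
  · rw [a018_q_zero hK h, TensorProduct.zero_tmul, smul_zero]
  · rw [a018_q_zero hA h, TensorProduct.tmul_zero, smul_zero]

private noncomputable def a018_f {Q P : SS} {K' K : Sub Q} {A C : Sub P} (hK : K' ≤ K)
    (hA : A ≤ C) : SVHom (linSub2 (Sub.box K' K A C) (Sub.bx K C)).quo
      ((linSub2 K' K).quo.tens (linSub2 A C).quo) where
  app n := Submodule.liftQ _ (a018_F K' K A C n) (fun z hz => a018_F_zero hK hA n z hz)
  nat {m n} g x := by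
    obtain ⟨x, rfl⟩ := Submodule.Quotient.mk_surjective _ x
    have key : (a018_F K' K A C m).comp ((linSub (Sub.bx K C)).sv.act g) =
        (((linSub2 K' K).quo.tens (linSub2 A C).quo).act g).comp (a018_F K' K A C n) := by
      refine a018_ext _ _ fun x hx => ?_
      rw [LinearMap.comp_apply, LinearMap.comp_apply, a018_F_single K' K A C n x hx]
      have e : (linSub (Sub.bx K C)).sv.act g ⟨Finsupp.single x 1, SuppIn.single hx 1⟩ =
          ⟨Finsupp.single ((Q.prod P).act g x) 1,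
            SuppIn.single ((Sub.bx K C).closed g hx) 1⟩ := by
        apply Subtype.ext
        show Finsupp.mapDomain ((Q.prod P).act g) (Finsupp.single x 1) = _
        rw [Finsupp.mapDomain_single]
      rw [e, a018_F_single K' K A C m _ ((Sub.bx K C).closed g hx)]
      show a018_q K' K (Q.act g x.1) ⊗ₜ[ZMod 2] a018_q A C (P.act g x.2) =
        ((linSub2 K' K).quo.act g (a018_q K' K x.1)) ⊗ₜ[ZMod 2]
          ((linSub2 A C).quo.act g (a018_q A C x.2))
      rw [a018_q_act g hx.1, a018_q_act g hx.2]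
    exact LinearMap.congr_fun key x

/-- product of chains -/
private noncomputable def a018_b {Q P : SS} (K : Sub Q) (C : Sub P) (n : ℕ) :
    (linSub K).sv.V n →ₗ[ZMod 2] (linSub C).sv.V n →ₗ[ZMod 2] (linSub (Sub.bx K C)).sv.V n :=
  LinearMap.mk₂ (ZMod 2) (fun u v => ⟨finsuppTensorFinsupp' (ZMod 2) _ _ (u.1 ⊗ₜ[ZMod 2] v.1), by
      intro x hx
      have hx' : finsuppTensorFinsupp' (ZMod 2) _ _ (u.1 ⊗ₜ[ZMod 2] v.1) x ≠ 0 :=
        Finsupp.mem_support_iff.1 hx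
      obtain ⟨a, b⟩ := x
      rw [finsuppTensorFinsupp'_apply_apply] at hx'
      exact ⟨u.2 (Finsupp.mem_support_iff.2 (left_ne_zero_of_mul hx')),
        v.2 (Finsupp.mem_support_iff.2 (right_ne_zero_of_mul hx'))⟩⟩)
    (fun u u' v => Subtype.ext (by
      show finsuppTensorFinsupp' (ZMod 2) _ _ ((u.1 + u'.1) ⊗ₜ[ZMod 2] v.1) = _
      rw [TensorProduct.add_tmul, map_add]; rfl))
    (fun c u v => Subtype.ext (by
      show finsuppTensorFinsupp' (ZMod 2) _ _ ((c • u.1) ⊗ₜ[ZMod 2] v.1) = _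
      rw [← TensorProduct.smul_tmul', map_smul]; rfl))
    (fun u v v' => Subtype.ext (by
      show finsuppTensorFinsupp' (ZMod 2) _ _ (u.1 ⊗ₜ[ZMod 2] (v.1 + v'.1)) = _
      rw [TensorProduct.tmul_add, map_add]; rfl))
    (fun c u v => Subtype.ext (by
      show finsuppTensorFinsupp' (ZMod 2) _ _ (u.1 ⊗ₜ[ZMod 2] (c • v.1)) = _
      rw [TensorProduct.tmul_smul, map_smul]; rfl))

private theorem a018_b_apply {Q P : SS} (K : Sub Q) (C : Sub P) (n : ℕ)
    (u : (linSub K).sv.V n) (v : (linSub C).sv.V n) (a : Q.S n) (b : P.S n) :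
    (a018_b K C n u v).1 (a, b) = u.1 a * v.1 b := by
  show finsuppTensorFinsupp' (ZMod 2) _ _ (u.1 ⊗ₜ[ZMod 2] v.1) (a, b) = _
  rw [finsuppTensorFinsupp'_apply_apply]

private noncomputable def a018_B {Q P : SS} (K' K : Sub Q) (A C : Sub P) (n : ℕ) :
    (linSub K).sv.V n →ₗ[ZMod 2] (linSub C).sv.V n →ₗ[ZMod 2]
      (linSub2 (Sub.box K' K A C) (Sub.bx K C)).quo.V n :=
  (a018_b K C n).compr₂ ((linSub2 (Sub.box K' K A C) (Sub.bx K C)).proj.app n)

private theorem a018_B_zero_right {Q P : SS} {K' K : Sub Q} {A C : Sub P} (n : ℕ)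
    (u : (linSub K).sv.V n) (v : (linSub C).sv.V n) (hv : v ∈ (linSub2 A C).car n) :
    a018_B K' K A C n u v = 0 := by
  refine (Submodule.Quotient.mk_eq_zero _).2 ?_
  show SuppIn (Sub.box K' K A C) (a018_b K C n u v).1
  intro x hx
  obtain ⟨a, b⟩ := x
  have hx' := Finsupp.mem_support_iff.1 hx
  rw [a018_b_apply] at hx'
  have h1 := Finsupp.mem_support_iff.2 (left_ne_zero_of_mul hx')
  have h2 := Finsupp.mem_support_iff.2 (right_ne_zero_of_mul hx')
  exact ⟨⟨u.2 h1, v.2 h2⟩, Or.inr (hv h2)⟩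

private theorem a018_B_zero_left {Q P : SS} {K' K : Sub Q} {A C : Sub P} (n : ℕ)
    (u : (linSub K).sv.V n) (v : (linSub C).sv.V n) (hu : u ∈ (linSub2 K' K).car n) :
    a018_B K' K A C n u v = 0 := by
  refine (Submodule.Quotient.mk_eq_zero _).2 ?_
  show SuppIn (Sub.box K' K A C) (a018_b K C n u v).1
  intro x hx
  obtain ⟨a, b⟩ := x
  have hx' := Finsupp.mem_support_iff.1 hx
  rw [a018_b_apply] at hx'
  have h1 := Finsupp.mem_support_iff.2 (left_ne_zero_of_mul hx')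
  have h2 := Finsupp.mem_support_iff.2 (right_ne_zero_of_mul hx')
  exact ⟨⟨u.2 h1, v.2 h2⟩, Or.inl (hu h1)⟩

/-- the induced map on the tensor product of the quotients -/
private noncomputable def a018_G {Q P : SS} (K' K : Sub Q) (A C : Sub P) (n : ℕ) :
    ((linSub2 K' K).quo.tens (linSub2 A C).quo).V n →ₗ[ZMod 2]
      (linSub2 (Sub.box K' K A C) (Sub.bx K C)).quo.V n :=
  TensorProduct.lift (Submodule.liftQ ((linSub2 K' K).car n)
    (LinearMap.flip (Submodule.liftQ ((linSub2 A C).car n)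
      (LinearMap.flip (a018_B K' K A C n)) (fun v hv => by
        rw [LinearMap.mem_ker]
        ext1 u
        exact a018_B_zero_right n u v hv))) (fun u hu => by
      rw [LinearMap.mem_ker]
      refine LinearMap.ext fun v => ?_
      obtain ⟨v, rfl⟩ := Submodule.Quotient.mk_surjective _ v
      exact a018_B_zero_left n u v hu))

private theorem a018_G_mk {Q P : SS} (K' K : Sub Q) (A C : Sub P) (n : ℕ)
    (u : (linSub K).sv.V n) (v : (linSub C).sv.V n) :
    a018_G K' K A C n (((linSub2 K' K).proj.app n u) ⊗ₜ[ZMod 2] ((linSub2 A C).proj.app n v)) =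
      a018_B K' K A C n u v := by
  rw [a018_G, TensorProduct.lift.tmul]
  rfl

private theorem a018_b_single {Q P : SS} (K : Sub Q) (C : Sub P) (n : ℕ) (x : Q.S n)
    (y : P.S n) (hx : x ∈ K.car n) (hy : y ∈ C.car n) :
    a018_b K C n ⟨Finsupp.single x 1, SuppIn.single hx 1⟩ ⟨Finsupp.single y 1, SuppIn.single hy 1⟩
      = ⟨Finsupp.single (x, y) 1, SuppIn.single (P := Q.prod P) (A := Sub.bx K C)
        (show (x, y) ∈ (Sub.bx K C).car n from ⟨hx, hy⟩) 1⟩ := by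
  apply Subtype.ext
  show finsuppTensorFinsupp' (ZMod 2) _ _ (Finsupp.single x 1 ⊗ₜ[ZMod 2] Finsupp.single y 1) = _
  rw [finsuppTensorFinsupp'_single_tmul_single, mul_one]

private theorem a018_B_act {Q P : SS} {K' K : Sub Q} {A C : Sub P} {m n : ℕ} (g : Mo m n)
    (u : (linSub K).sv.V n) (v : (linSub C).sv.V n) :
    a018_B K' K A C m ((linSub K).sv.act g u) ((linSub C).sv.act g v) =
      (linSub2 (Sub.box K' K A C) (Sub.bx K C)).quo.act g (a018_B K' K A C n u v) := by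
  have key : ∀ u v, a018_b K C m ((linSub K).sv.act g u) ((linSub C).sv.act g v) =
      (linSub (Sub.bx K C)).sv.act g (a018_b K C n u v) := by
    have e : ((a018_b K C m).comp ((linSub K).sv.act g)).compl₂ ((linSub C).sv.act g) =
        (a018_b K C n).compr₂ ((linSub (Sub.bx K C)).sv.act g) := by
      refine a018_ext _ _ fun x hx => ?_
      refine a018_ext _ _ fun y hy => ?_
      have e1 : (linSub K).sv.act g ⟨Finsupp.single x 1, SuppIn.single hx 1⟩ =
          ⟨Finsupp.single (Q.act g x) 1, SuppIn.single (K.closed g hx) 1⟩ := by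
        apply Subtype.ext
        show Finsupp.mapDomain (Q.act g) (Finsupp.single x 1) = _
        rw [Finsupp.mapDomain_single]
      have e2 : (linSub C).sv.act g ⟨Finsupp.single y 1, SuppIn.single hy 1⟩ =
          ⟨Finsupp.single (P.act g y) 1, SuppIn.single (C.closed g hy) 1⟩ := by
        apply Subtype.ext
        show Finsupp.mapDomain (P.act g) (Finsupp.single y 1) = _
        rw [Finsupp.mapDomain_single]
      show a018_b K C m ((linSub K).sv.act g ⟨Finsupp.single x 1, SuppIn.single hx 1⟩)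
          ((linSub C).sv.act g ⟨Finsupp.single y 1, SuppIn.single hy 1⟩) =
        (linSub (Sub.bx K C)).sv.act g (a018_b K C n ⟨Finsupp.single x 1, SuppIn.single hx 1⟩
          ⟨Finsupp.single y 1, SuppIn.single hy 1⟩)
      rw [e1, e2, a018_b_single K C m _ _ (K.closed g hx) (C.closed g hy),
        a018_b_single K C n _ _ hx hy]
      apply Subtype.ext
      show _ = Finsupp.mapDomain ((Q.prod P).act g) (Finsupp.single (x, y) 1)
      rw [Finsupp.mapDomain_single]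
    intro u v
    exact LinearMap.congr_fun (LinearMap.congr_fun e u) v
  show (linSub2 (Sub.box K' K A C) (Sub.bx K C)).proj.app m
    (a018_b K C m ((linSub K).sv.act g u) ((linSub C).sv.act g v)) = _
  rw [key, (linSub2 (Sub.box K' K A C) (Sub.bx K C)).proj.nat]
  rfl

private noncomputable def a018_g {Q P : SS} (K' K : Sub Q) (A C : Sub P) :
    SVHom ((linSub2 K' K).quo.tens (linSub2 A C).quo)
      (linSub2 (Sub.box K' K A C) (Sub.bx K C)).quo where
  app n := a018_G K' K A C n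
  nat {m n} g x := by
    have key : (a018_G K' K A C m).comp
        (((linSub2 K' K).quo.tens (linSub2 A C).quo).act g) =
        ((linSub2 (Sub.box K' K A C) (Sub.bx K C)).quo.act g).comp (a018_G K' K A C n) := by
      refine TensorProduct.ext' fun u v => ?_
      obtain ⟨u, rfl⟩ := Submodule.Quotient.mk_surjective _ u
      obtain ⟨v, rfl⟩ := Submodule.Quotient.mk_surjective _ v
      show a018_G K' K A C m
          (((linSub2 K' K).proj.app m ((linSub K).sv.act g u)) ⊗ₜ[ZMod 2]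
            ((linSub2 A C).proj.app m ((linSub C).sv.act g v))) =
        (linSub2 (Sub.box K' K A C) (Sub.bx K C)).quo.act g
          (a018_G K' K A C n (((linSub2 K' K).proj.app n u) ⊗ₜ[ZMod 2]
            ((linSub2 A C).proj.app n v)))
      rw [a018_G_mk, a018_G_mk, a018_B_act]
    exact LinearMap.congr_fun key x

private theorem a018_gf {Q P : SS} {K' K : Sub Q} {A C : Sub P} (hK : K' ≤ K) (hA : A ≤ C)
    (n : ℕ) (x : (linSub2 (Sub.box K' K A C) (Sub.bx K C)).quo.V n) :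
    (a018_g K' K A C).app n ((a018_f hK hA).app n x) = x := by
  obtain ⟨x, rfl⟩ := Submodule.Quotient.mk_surjective _ x
  have key : (a018_G K' K A C n).comp (a018_F K' K A C n) =
      (linSub2 (Sub.box K' K A C) (Sub.bx K C)).proj.app n := by
    refine a018_ext _ _ fun x hx => ?_
    rw [LinearMap.comp_apply, a018_F_single K' K A C n x hx, a018_q_mem K' K hx.1,
      a018_q_mem A C hx.2, a018_G_mk]
    show (linSub2 (Sub.box K' K A C) (Sub.bx K C)).proj.app n (a018_b K C n _ _) = _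
    rw [a018_b_single K C n _ _ hx.1 hx.2]
  exact LinearMap.congr_fun key x

private theorem a018_retract {P Q : SV} (f : SVHom P Q) (g : SVHom Q P)
    (h : ∀ n x, g.app n (f.app n x) = x) (hQ : Q.Acyclic) : P.Acyclic :=
  acyclic_of_retract f g ⟨⟨fun _ _ => LinearMap.id, fun _ _ _ => rfl⟩, fun n x => (h n x).symm,
    fun _ _ => rfl⟩ hQ

theorem acyc_box_right {Q P : SS} {K' K : Sub Q} {A C : Sub P} (hK : K' ≤ K) (hA : A ≤ C)
    (h : Acyc A C) : Acyc (Sub.box K' K A C) (Sub.bx K C) := by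
  have hle : Sub.box K' K A C ≤ Sub.bx K C := fun n x hx => (Sub.mem_box.1 hx).1
  rw [acyc_iff_quo hle]
  exact a018_retract (a018_f hK hA) (a018_g K' K A C) (a018_gf hK hA)
    (tens_acyclic_right _ _ ((acyc_iff_quo hA).1 h))

theorem acyc_box_left {Q P : SS} {K' K : Sub Q} {A C : Sub P} (hK : K' ≤ K) (hA : A ≤ C)
    (h : Acyc K' K) : Acyc (Sub.box K' K A C) (Sub.bx K C) := by
  have hle : Sub.box K' K A C ≤ Sub.bx K C := fun n x hx => (Sub.mem_box.1 hx).1
  rw [acyc_iff_quo hle]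
  exact a018_retract (a018_f hK hA) (a018_g K' K A C) (a018_gf hK hA)
    (tens_acyclic_left _ _ ((acyc_iff_quo hK).1 h))

/-- homotopy extension: the pair `(Δ^1 × C, {i} × C ∪ Δ^1 × A)` -/
theorem acyc_hep {P : SS} {A C : Sub P} (hA : A ≤ C) (i : Fin 2) :
    Acyc (Sub.box (Sub.pt (P := Del 1) (cst i : Mo 0 1)) ⊤ A C) (Sub.bx (⊤ : Sub (Del 1)) C) :=
  acyc_box_left (Sub.le_top' _) hA (acyc_Del_pt 1 i)

end MM

end

/-! ### from `Lib_MP_33f7bb_d.A107` -/

section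

/-!
# A1-07: Tot has the extension property for acyclic pairs (T4)

`Tower.extP_of_fam` and `Tower.exists_of_steps`.
Stage `0`: extend `f 0` from `Δ^0 × A` to `Δ^0 × C`: the pair `(bx ⊤ C, box (bd 0) ⊤ A C)` is acyclic
(`acyc_box_right`), `box (bd 0) ⊤ A C` is `bx ⊤ A` (`bd 0` is empty: every map to `[0]` is surjective);
`extP_sv`.
Step: `exists_glue`, `exists_secn`, `exists_nrm`; extend `r` by `extP_sv` for the simplicial vector
space `(T.N (n+1)).sv` and the acyclic pair `(bx ⊤ C, box (bd (n+1)) ⊤ A C)`; `stage_succ`.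
-/

namespace MM

namespace Tower

private theorem A107_bd_zero {m : ℕ} (θ : Mo m 0) : θ ∉ (bd 0).car m := by
  intro h
  refine h fun y => ⟨0, ?_⟩
  exact Subsingleton.elim (α := Fin 1) _ _

private theorem A107_box_le {P : SS} {k : ℕ} {A C : Sub P} :
    Sub.box (bd k) ⊤ A C ≤ Sub.bx ⊤ C := fun _ _ hx => (Sub.mem_box.1 hx).1

theorem exists_stage_zero (T : Tower) {P : SS} {A C : Sub P} (hAC : A ≤ C) (h : Acyc A C)
    {f : ∀ s, Fn ((Del s).prod P) (T.W s).ss} (hf : T.Fam A f) :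
    ∃ F : ∀ s, Fn ((Del s).prod P) (T.W s).ss, T.Stage A C f 0 F := by
  have hn : NatOn (Sub.box (bd 0) ⊤ A C) (f 0) := by
    intro m n g x hx
    refine hf.nat 0 g x ?_
    obtain ⟨_, h2⟩ := Sub.mem_box.1 hx
    rcases h2 with h2 | h2
    · exact absurd h2 (A107_bd_zero x.1)
    · exact ⟨trivial, h2⟩
  obtain ⟨g, hg, hgf⟩ := extP_sv (T.W 0) A107_box_le
    (acyc_box_right (Sub.le_top' (bd 0)) hAC h) (f 0) hn
  refine ⟨Function.update f 0 g, ?_, ?_, ?_, ?_⟩
  · intro s hs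
    obtain rfl : s = 0 := by omega
    rw [Function.update_self]
    exact hg
  · intro s hs
    omega
  · intro s hs
    omega
  · intro s hs m θ x hx
    obtain rfl : s = 0 := by omega
    rw [Function.update_self]
    exact hgf m (θ, x) ⟨⟨trivial, hAC m hx⟩, Or.inr hx⟩

/-- (T4) -/
theorem tot_ext (T : Tower) {P : SS} {A C : Sub P} (hAC : A ≤ C) (h : Acyc A C) :
    ExtP T.Tot A C := by
  refine T.extP_of_fam hAC fun f hf => ?_
  refine T.exists_of_steps f (T.exists_stage_zero hAC h hf) ?_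
  intro n F hF
  obtain ⟨b, hb⟩ := T.exists_glue hAC hf hF
  obtain ⟨G, hG⟩ := T.exists_secn hF
  obtain ⟨r, hr, hrb⟩ := T.exists_nrm hAC hb hG
  obtain ⟨r', hr', hrr⟩ := extP_sv (T.N (n + 1)).sv A107_box_le
    (acyc_box_right (Sub.le_top' (bd (n + 1))) hAC h) r hr
  obtain ⟨F', hF', hs⟩ := T.stage_succ hAC hF hb hG r' hr' (fun m p hp => by
    rw [hrr m p hp]
    exact hrb m p hp)
  exact ⟨F', hF', fun s hs' => hs s (le_of_lt hs')⟩

end Tower

end MM

end

/-! ### from `Lib_MP_33f7bb_d.TopIF` -/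

section

/-!
# Interfaces between the parts A, B, C, D

`ExistsTarget` is proved by part A, `WWGood` by part B; part C proves
`existsCompactum : ExistsTarget → WWGood → ExistsCompactum`; part D proves
`final : ExistsCompactum → FinalGoal`.
-/

namespace MM

/-- part A -/
def ExistsTarget : Prop :=
  ∀ N : ℕ, 1 ≤ N → ∃ (Y : SS) (τ : ∀ n, TopologicalSpace (Y.S n)), @IsTarget Y τ ∧
    ∃ κ : Hom (Sing (Sph N)) Y, ¬ Null κ

/-- part B -/
def WWGood : Prop :=
  ∀ (Y : SS) (τ : ∀ n, TopologicalSpace (Y.S n)), @IsTarget Y τ → ∀ (j : ℕ) (hj : 3 ≤ j),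
    Good Y (Sub.pt (WW0 j (by omega))) ⊤

/-- part C -/
def ExistsCompactum : Prop :=
  ∀ N : ℕ, 1 ≤ N → ∃ (K : Type) (_ : MetricSpace K) (_ : CompactSpace K) (q : C(K, Sph N)),
    ¬ q.Nullhomotopic ∧
    ∀ (j k : ℕ) (A : Set K) (φ : K × (Fin k → ℝ) → (Fin j → ℝ) × (Fin k → ℝ)), 3 ≤ j →
      IsTask j k A φ → Solved (id : K → K) A φ

/-- part D -/
def FinalGoal : Prop :=
  ∃ (X : Type) (_ : MetricSpace X) (_ : CompactSpace X), SMD.StableDimLE X 2 ∧
    ∀ n, ¬ SMD.CovDimLE X n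

theorem not_Q1_of_finalGoal (h : FinalGoal) : ¬ SMD.Q1 := by
  obtain ⟨X, _, _, h1, h2⟩ := h
  exact SMD.not_Q1 h1 h2

end MM

end

/-! ### from `Lib_MP_33f7bb_d.B1B` -/

section

/-!
# B1B: closure properties of `Good` ((G1)-(G7) of the blueprint)
-/

namespace MM

variable {Y : SS}

theorem Sub.box_le_bx {P Q : SS} (K' K : Sub Q) (A C : Sub P) : Sub.box K' K A C ≤ Sub.bx K C :=
  fun _ _ hx => hx.1

theorem Sub.box_mono {P Q : SS} {K' K : Sub Q} {A B C : Sub P} (h : A ≤ B) :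
    Sub.box K' K A C ≤ Sub.box K' K B C :=
  fun _ _ hx => ⟨hx.1, hx.2.imp id fun h1 => h _ h1⟩

theorem Sub.box_self {P Q : SS} (K : Sub Q) (A C : Sub P) : Sub.box K K A C = Sub.bx K C :=
  le_antisymm (fun _ _ hx => hx.1) (fun _ _ hx => ⟨hx, Or.inl hx.1⟩)

/-- `Good` pairs: transitivity (G2) -/
theorem Good.trans {P : SS} {A B C : Sub P} (hAB : A ≤ B) (hBC : B ≤ C)
    (h : Good Y A B) (h' : Good Y B C) : Good Y A C := by
  intro k
  refine ExtP.trans (B := Sub.box (bd k) ⊤ B C) (Sub.box_mono hAB) ?_ (h' k)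
  refine ExtP.excise (Sub.box_le_bx _ _ _ _) (Sub.box_mono hAB) ?_ ?_ ?_ (h k)
  · exact fun n x hx => ⟨⟨hx.1, hBC n hx.2⟩, Or.inr hx.2⟩
  · exact fun n x hx => ⟨fun h1 => ⟨hx, h1.2⟩, fun h1 => ⟨⟨hx.1, hBC n hx.2⟩, h1.2⟩⟩
  · intro n y hy hy'
    refine ⟨trivial, ?_⟩
    rcases hy.2 with h1 | h1
    · exact (hy' ⟨hy.1, Or.inl h1⟩).elim
    · exact h1

theorem Good.refl (Y : SS) {P : SS} (A : Sub P) : Good Y A A := by
  intro k
  have : Sub.box (bd k) ⊤ A A = Sub.bx (⊤ : Sub (Del k)) A :=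
    le_antisymm (fun _ _ hx => hx.1) (fun _ _ hx => ⟨hx, Or.inr hx.2⟩)
  rw [this]
  exact ExtP.refl Y _

/-- relative isomorphisms (G3) -/
theorem Good.relIso {P P' : SS} (φ : Hom P P') {A C : Sub P} {A' C' : Sub P'} (hA : A ≤ C)
    (hA' : A' ≤ C') (hmap : ∀ n, ∀ x ∈ C.car n, φ.app n x ∈ C'.car n)
    (hpre : ∀ n, ∀ x ∈ C.car n, (φ.app n x ∈ A'.car n ↔ x ∈ A.car n))
    (hinj : ∀ n, ∀ x ∈ C.car n, ∀ y ∈ C.car n, x ∉ A.car n → y ∉ A.car n →
      φ.app n x = φ.app n y → x = y)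
    (hsurj : ∀ n, ∀ y ∈ C'.car n, y ∉ A'.car n → ∃ x ∈ C.car n, φ.app n x = y)
    (h : Good Y A C) : Good Y A' C' := by
  intro k
  refine ExtP.relIso (Hom.prodMap (Hom.id (Del k)) φ) (Sub.box_le_bx _ _ _ _)
    (Sub.box_le_bx _ _ _ _) ?_ ?_ ?_ ?_ (h k)
  · exact fun n x hx => ⟨trivial, hmap n _ hx.2⟩
  · intro n x hx
    exact ⟨fun h1 => ⟨hx, h1.2.imp id (hpre n _ hx.2).1⟩,
      fun h1 => ⟨⟨trivial, hmap n _ hx.2⟩, h1.2.imp id (hpre n _ hx.2).2⟩⟩
  · rintro n ⟨x1, x2⟩ hx ⟨y1, y2⟩ hy hxA hyA hxy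
    have e1 : x1 = y1 := congrArg Prod.fst hxy
    have e2 : φ.app n x2 = φ.app n y2 := congrArg Prod.snd hxy
    have e3 : x2 = y2 := hinj n x2 hx.2 y2 hy.2 (fun h1 => hxA ⟨hx, Or.inr h1⟩)
      (fun h1 => hyA ⟨hy, Or.inr h1⟩) e2
    rw [e1, e3]
  · rintro n ⟨y1, y2⟩ hy hyA
    obtain ⟨x, hx, rfl⟩ := hsurj n y2 hy.2 (fun h1 => hyA ⟨hy, Or.inr h1⟩)
    exact ⟨(y1, x), ⟨trivial, hx⟩, rfl⟩

/-- excision in one ambient complex -/
theorem Good.excise {P : SS} {A C A' C' : Sub P} (hA : A ≤ C) (hA' : A' ≤ C')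
    (hC : C ≤ C') (hpre : ∀ n, ∀ x ∈ C.car n, (x ∈ A'.car n ↔ x ∈ A.car n))
    (hsurj : ∀ n, ∀ y ∈ C'.car n, y ∉ A'.car n → y ∈ C.car n)
    (h : Good Y A C) : Good Y A' C' :=
  Good.relIso (Hom.id P) hA hA' (fun n _ hx => hC n hx) hpre (fun _ _ _ _ _ _ _ h => h)
    (fun n y hy hy' => ⟨y, hsurj n y hy hy', rfl⟩) h

/-- isomorphic pairs -/
theorem Good.iso_iff {P P' : SS} (hY : Nonempty (Y.S 0)) (φ : Hom P P') {A C : Sub P}
    {A' C' : Sub P'} (hA : A ≤ C)
    (hA' : A' ≤ C') (hmap : ∀ n, ∀ x ∈ C.car n, φ.app n x ∈ C'.car n)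
    (hpre : ∀ n, ∀ x ∈ C.car n, (φ.app n x ∈ A'.car n ↔ x ∈ A.car n))
    (hinj : ∀ n, ∀ x ∈ C.car n, ∀ y ∈ C.car n, φ.app n x = φ.app n y → x = y)
    (hsurj : ∀ n, ∀ y ∈ C'.car n, ∃ x ∈ C.car n, φ.app n x = y) :
    Good Y A C ↔ Good Y A' C' := by
  refine forall_congr' fun k => ?_
  refine ExtP.iso_iff hY (Hom.prodMap (Hom.id (Del k)) φ) (Sub.box_le_bx _ _ _ _)
    (Sub.box_le_bx _ _ _ _) ?_ ?_ ?_ ?_
  · exact fun n x hx => ⟨trivial, hmap n _ hx.2⟩
  · intro n x hx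
    exact ⟨fun h1 => ⟨hx, h1.2.imp id (hpre n _ hx.2).1⟩,
      fun h1 => ⟨⟨trivial, hmap n _ hx.2⟩, h1.2.imp id (hpre n _ hx.2).2⟩⟩
  · rintro n ⟨x1, x2⟩ hx ⟨y1, y2⟩ hy hxy
    have e1 : x1 = y1 := congrArg Prod.fst hxy
    have e2 : φ.app n x2 = φ.app n y2 := congrArg Prod.snd hxy
    have e3 : x2 = y2 := hinj n x2 hx.2 y2 hy.2 e2
    rw [e1, e3]
  · rintro n ⟨y1, y2⟩ hy
    obtain ⟨x, hx, rfl⟩ := hsurj n y2 hy.2
    exact ⟨(y1, x), ⟨trivial, hx⟩, rfl⟩

/-- good pairs have the extension property in products with arbitrary pairs (G4) -/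
theorem Good.ext_box {P Q : SS} {A C : Sub P} (hA : A ≤ C) (h : Good Y A C) {K' K : Sub Q}
    (hK : K' ≤ K) : ExtP Y (Sub.box K' K A C) (Sub.bx K C) := by
  rw [← Sub.box_self K A C]
  refine ExtP.zorn K' K hK (fun L => Sub.box L K A C) ?_ ?_ ?_
  · exact fun L L' hL n x hx => ⟨hx.1, hx.2.imp (fun h1 => hL n h1) id⟩
  · rintro c ⟨L₀, hL₀⟩ _ n x hx
    rcases hx.2 with ⟨L, hL, hx'⟩ | h1
    · exact ⟨L, hL, hx.1, Or.inl hx'⟩
    · exact ⟨L₀, hL₀, hx.1, Or.inr h1⟩
  · intro L _ hLK n x hxK hxL hnd hface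
    have key : ∀ (m : ℕ) (θ : Mo m n), Q.act θ x ∈ L.car m ↔ θ ∈ (bd n).car m := by
      intro m θ
      constructor
      · intro h1 hs
        exact hxL ((act_mem_iff L θ hs x).1 h1)
      · exact fun h1 => hface m θ h1
    refine ExtP.relIso (Hom.prodMap (SS.yo x) (Hom.id P)) (Sub.box_le_bx (bd n) ⊤ A C)
      ?_ ?_ ?_ ?_ ?_ (h n)
    · exact fun n x hx => ⟨hx.1, hx.2.imp (fun h1 => Or.inl h1) id⟩
    · rintro m ⟨θ, b⟩ hx
      exact ⟨⟨K.closed θ hxK, hx.2⟩, Or.inl (Or.inr ⟨θ, rfl⟩)⟩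
    · rintro m ⟨θ, b⟩ hx
      refine ⟨fun h1 => ⟨hx, h1.2.imp (key m θ).1 id⟩,
        fun h1 => ⟨⟨K.closed θ hxK, hx.2⟩, h1.2.imp (key m θ).2 id⟩⟩
    · rintro m ⟨θ, b⟩ hx ⟨θ', b'⟩ hy hxA hyA hxy
      have e1 : Q.act θ x = Q.act θ' x := congrArg Prod.fst hxy
      have e2 : b = b' := congrArg Prod.snd hxy
      have s1 : Function.Surjective θ := by
        by_contra h1
        exact hxA ⟨hx, Or.inl h1⟩
      have s2 : Function.Surjective θ' := by
        by_contra h1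
        exact hyA ⟨hy, Or.inl h1⟩
      rw [(ez_unique θ θ' x x s1 s2 hnd hnd e1).1, e2]
    · rintro m ⟨y, b⟩ hy hyA
      rcases hy.2 with (h1 | ⟨θ, h1⟩) | h1
      · exact (hyA ⟨hy.1, Or.inl h1⟩).elim
      · have h2 : y = Q.act θ x := h1
        subst h2
        exact ⟨(θ, b), ⟨trivial, hy.1.2⟩, rfl⟩
      · exact (hyA ⟨hy.1, Or.inr h1⟩).elim

/-- good pairs have the extension property -/
theorem Good.extP {P : SS} {A C : Sub P} (hA : A ≤ C) (h : Good Y A C) : ExtP Y A C := by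
  have h1 := h.ext_box hA (Sub.bot_le' (⊤ : Sub PT))
  refine ExtP.relIso (Hom.snd PT P) (Sub.box_le_bx _ _ _ _) hA ?_ ?_ ?_ ?_ h1
  · exact fun n x hx => hx.2
  · exact fun n x hx => ⟨fun h2 => ⟨hx, Or.inr h2⟩, fun h2 => h2.2.elim (fun h3 => h3.elim) id⟩
  · rintro n ⟨x1, x2⟩ _ ⟨y1, y2⟩ _ _ _ hxy
    have e2 : x2 = y2 := hxy
    rw [e2]
  · exact fun n y hy _ => ⟨((), y), ⟨trivial, hy⟩, rfl⟩

/-- products with arbitrary pairs (G7) -/
theorem Good.box {P Q : SS} {A C : Sub P} (hA : A ≤ C) (h : Good Y A C) {K' K : Sub Q}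
    (hK : K' ≤ K) : Good Y (Sub.box K' K A C) (Sub.bx K C) := by
  intro k
  have _ := hK
  have h1 := h.ext_box (Q := (Del k).prod Q) hA (Sub.box_le_bx (bd k) ⊤ K' K)
  refine ExtP.relIso (P := ((Del k).prod Q).prod P) (P' := (Del k).prod (Q.prod P))
    ⟨fun n x => (x.1.1, (x.1.2, x.2)), fun _ _ => rfl⟩ (Sub.box_le_bx _ _ _ _)
    (Sub.box_le_bx _ _ _ _) ?_ ?_ ?_ ?_ h1
  · exact fun n x hx => ⟨trivial, ⟨hx.1.2, hx.2⟩⟩
  · rintro n ⟨⟨θ, y⟩, x⟩ hx
    constructor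
    · rintro ⟨-, h2 | h2⟩
      · exact ⟨hx, Or.inl ⟨⟨trivial, hx.1.2⟩, Or.inl h2⟩⟩
      · exact ⟨hx, h2.2.imp (fun h3 => ⟨⟨trivial, hx.1.2⟩, Or.inr h3⟩) id⟩
    · rintro ⟨-, h2 | h2⟩
      · exact ⟨⟨trivial, hx.1.2, hx.2⟩, h2.2.imp id fun h3 => ⟨⟨hx.1.2, hx.2⟩, Or.inl h3⟩⟩
      · exact ⟨⟨trivial, hx.1.2, hx.2⟩, Or.inr ⟨⟨hx.1.2, hx.2⟩, Or.inr h2⟩⟩
  · rintro n ⟨⟨θ, y⟩, x⟩ _ ⟨⟨θ', y'⟩, x'⟩ _ _ _ hxy
    have e1 : θ = θ' := congrArg Prod.fst hxy
    have e2 : y = y' := congrArg (fun z => z.2.1) hxy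
    have e3 : x = x' := congrArg (fun z => z.2.2) hxy
    rw [e1, e2, e3]
  · rintro n ⟨θ, ⟨y, x⟩⟩ hy _
    exact ⟨((θ, y), x), ⟨⟨trivial, hy.2.1⟩, hy.2.2⟩, rfl⟩

/-- products with arbitrary pairs, other order (G7) -/
theorem Good.box' {P Q : SS} {A C : Sub P} (hA : A ≤ C) (h : Good Y A C) {K' K : Sub Q}
    (hK : K' ≤ K) : Good Y (Sub.box A C K' K) (Sub.bx C K) := by
  refine Good.relIso (P := Q.prod P) (P' := P.prod Q) ⟨fun n x => (x.2, x.1), fun _ _ => rfl⟩
    (Sub.box_le_bx _ _ _ _) (Sub.box_le_bx _ _ _ _) ?_ ?_ ?_ ?_ (h.box hA hK)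
  · exact fun n x hx => ⟨hx.2, hx.1⟩
  · exact fun n x hx => ⟨fun h2 => ⟨hx, h2.2.symm⟩, fun h2 => ⟨⟨hx.2, hx.1⟩, h2.2.symm⟩⟩
  · rintro n ⟨x1, x2⟩ _ ⟨y1, y2⟩ _ _ _ hxy
    have e1 : x2 = y2 := congrArg Prod.fst hxy
    have e2 : x1 = y1 := congrArg Prod.snd hxy
    rw [e1, e2]
  · exact fun n y hy _ => ⟨(y.2, y.1), ⟨hy.2, hy.1⟩, rfl⟩

section target

variable [∀ n, TopologicalSpace (Y.S n)] (hY : IsTarget Y)

include hY

/-- acyclic pairs are good (G1) -/
theorem Good.of_acyc {P : SS} {A C : Sub P} (hA : A ≤ C) (h : Acyc A C) : Good Y A C :=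
  fun k => hY.ext _ _ _ (Sub.box_le_bx _ _ _ _) (acyc_box_right (Sub.le_top' (bd k)) hA h)

theorem hep_aux {P : SS} {A C : Sub P} (hA : A ≤ C) (i : Fin 2) (g : Fn P Y) (hg : NatOn C g)
    (H : Fn ((Del 1).prod P) Y) (hH : NatOn (Sub.bx ⊤ A) H)
    (h1 : ∀ n, ∀ x ∈ A.car n, H n (cst i, x) = g n x) :
    ∃ H' : Fn ((Del 1).prod P) Y, NatOn (Sub.bx ⊤ C) H' ∧
        (∀ n, ∀ x ∈ (Sub.bx (⊤ : Sub (Del 1)) A).car n, H' n x = H n x) ∧
        ∀ n, ∀ x ∈ C.car n, H' n (cst i, x) = g n x := by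
  have hg1 : NatOn (Sub.bx (Sub.pt (P := Del 1) (cst i : Mo 0 1)) C)
      (fun n (x : ((Del 1).prod P).S n) => g n x.2) :=
    NatOn.comp (A := Sub.bx (Sub.pt (P := Del 1) (cst i : Mo 0 1)) C) hg (Hom.snd (Del 1) P)
      fun n x hx => hx.2
  obtain ⟨F, hF, hF1, hF2⟩ := NatOn.glue (A := Sub.bx ⊤ A)
    (B := Sub.bx (Sub.pt (P := Del 1) (cst i : Mo 0 1)) C)
    (g := fun n (x : ((Del 1).prod P).S n) => g n x.2) hH hg1 (by
    rintro n ⟨τ, x⟩ hx ⟨h3, -⟩
    have h4 : τ = cst i := h3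
    subst h4
    exact h1 n x hx.2)
  have hle : Sub.box (Sub.pt (P := Del 1) (cst i : Mo 0 1)) ⊤ A C ≤
      Sub.bx ⊤ A ⊔ Sub.bx (Sub.pt (P := Del 1) (cst i : Mo 0 1)) C := by
    rintro n ⟨τ, x⟩ ⟨h3, h4 | h4⟩
    · exact Or.inr ⟨h4, h3.2⟩
    · exact Or.inl ⟨trivial, h4⟩
  obtain ⟨H', hH', hH'F⟩ := hY.ext _ _ _ (Sub.box_le_bx _ _ _ _) (acyc_hep hA i) F
    (hF.mono hle)
  refine ⟨H', hH', ?_, ?_⟩
  · intro n x hx
    rw [hH'F n x ⟨⟨trivial, hA n hx.2⟩, Or.inr hx.2⟩, hF1 n x hx]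
  · intro n x hx
    rw [hH'F n (cst i, x) ⟨⟨trivial, hx⟩, Or.inl rfl⟩, hF2 n (cst i, x) ⟨rfl, hx⟩]

omit hY [∀ n, TopologicalSpace (Y.S n)] in
theorem natOn_end {P : SS} {C : Sub P} (i : Fin 2) {H : Fn ((Del 1).prod P) Y}
    (hH : NatOn (Sub.bx ⊤ C) H) : NatOn C (fun n x => H n (cst i, x)) := by
  intro m n k x hx
  exact hH k (cst i, x) ⟨trivial, hx⟩

/-- homotopy extension: `f` on `A` is homotopic on `A` to a map which extends to `C` -/
theorem hep {P : SS} {A C : Sub P} (hA : A ≤ C) (f g : Fn P Y) (hf : NatOn A f) (hg : NatOn C g)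
    (H : Fn ((Del 1).prod P) Y) (hH : NatOn (Sub.bx ⊤ A) H)
    (h0 : ∀ n, ∀ x ∈ A.car n, H n (cst 0, x) = f n x)
    (h1 : ∀ n, ∀ x ∈ A.car n, H n (cst 1, x) = g n x) :
    ∃ g' : Fn P Y, NatOn C g' ∧ (∀ n, ∀ x ∈ A.car n, g' n x = f n x) ∧
      ∃ H' : Fn ((Del 1).prod P) Y, NatOn (Sub.bx ⊤ C) H' ∧
        (∀ n, ∀ x ∈ (Sub.bx (⊤ : Sub (Del 1)) A).car n, H' n x = H n x) ∧
        (∀ n, ∀ x ∈ C.car n, H' n (cst 0, x) = g' n x) ∧
        ∀ n, ∀ x ∈ C.car n, H' n (cst 1, x) = g n x := by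
  obtain ⟨H', hH', h2, h3⟩ := hep_aux hY hA 1 g hg H hH h1
  refine ⟨fun n x => H' n (cst 0, x), natOn_end 0 hH', ?_, H', hH', h2, fun _ _ _ => rfl, h3⟩
  intro n x hx
  show H' n (cst 0, x) = f n x
  rw [h2 n (cst 0, x) ⟨trivial, hx⟩, h0 n x hx]

/-- the same with the ends exchanged -/
theorem hep' {P : SS} {A C : Sub P} (hA : A ≤ C) (f g : Fn P Y) (hf : NatOn A f) (hg : NatOn C g)
    (H : Fn ((Del 1).prod P) Y) (hH : NatOn (Sub.bx ⊤ A) H)
    (h0 : ∀ n, ∀ x ∈ A.car n, H n (cst 0, x) = g n x)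
    (h1 : ∀ n, ∀ x ∈ A.car n, H n (cst 1, x) = f n x) :
    ∃ g' : Fn P Y, NatOn C g' ∧ (∀ n, ∀ x ∈ A.car n, g' n x = f n x) ∧
      ∃ H' : Fn ((Del 1).prod P) Y, NatOn (Sub.bx ⊤ C) H' ∧
        (∀ n, ∀ x ∈ (Sub.bx (⊤ : Sub (Del 1)) A).car n, H' n x = H n x) ∧
        (∀ n, ∀ x ∈ C.car n, H' n (cst 0, x) = g n x) ∧
        ∀ n, ∀ x ∈ C.car n, H' n (cst 1, x) = g' n x := by
  obtain ⟨H', hH', h2, h3⟩ := hep_aux hY hA 0 g hg H hH h0
  refine ⟨fun n x => H' n (cst 1, x), natOn_end 1 hH', ?_, H', hH', h2, h3, fun _ _ _ => rfl⟩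
  intro n x hx
  show H' n (cst 1, x) = f n x
  rw [h2 n (cst 1, x) ⟨trivial, hx⟩, h1 n x hx]

omit hY [∀ n, TopologicalSpace (Y.S n)] in
theorem cst_zero_ne_one (m : ℕ) : (cst 0 : Mo m 1) ≠ cst 1 := by
  intro h5
  have h6 := congrArg (fun z : Mo m 1 => z 0) h5
  exact absurd (show (0 : Fin 2) = 1 from h6) (by decide)

omit hY [∀ n, TopologicalSpace (Y.S n)] in
theorem mem_bd_one {m : ℕ} (σ : Mo m 1) : σ ∈ (bd 1).car m ↔ σ = cst 0 ∨ σ = cst 1 := by
  have d1 : ∀ a : Fin 2, a ≠ 0 → a = 1 := by decide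
  have d2 : ∀ a : Fin 2, a ≠ 1 → a = 0 := by decide
  constructor
  · intro h
    by_contra h1
    rw [not_or] at h1
    apply h
    have e0 : σ 0 = 0 := by
      by_contra h2
      have h3 : σ 0 = 1 := d1 _ h2
      apply h1.2
      ext i
      have h4 : σ 0 ≤ σ i := σ.monotone (Fin.zero_le i)
      show (σ i : ℕ) = 1
      rw [h3] at h4
      have : σ i ≤ 1 := Fin.le_last _
      have h5 := le_antisymm this h4
      rw [h5]; rfl
    have e1 : ∃ i, σ i = 1 := by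
      by_contra h2
      apply h1.1
      ext i
      show (σ i : ℕ) = 0
      have : σ i = 0 := d2 _ fun h3 => h2 ⟨i, h3⟩
      rw [this]; rfl
    intro y
    obtain ⟨i, hi⟩ := e1
    fin_cases y
    · exact ⟨0, e0⟩
    · exact ⟨i, hi⟩
  · rintro (rfl | rfl) h
    · obtain ⟨i, hi⟩ := h 1
      exact absurd (show (0 : Fin 2) = 1 from hi) (by decide)
    · obtain ⟨i, hi⟩ := h 0
      exact absurd (show (1 : Fin 2) = 0 from hi) (by decide)

/-- (G5), left cancellation -/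
theorem Good.of_left {P : SS} {A B C : Sub P} (hAB : A ≤ B) (hBC : B ≤ C) (h : Good Y A B)
    (h' : Good Y A C) : Good Y B C := by
  classical
  intro k f hf
  have hB'C' := Sub.box_le_bx (bd k) ⊤ B C
  have hA'B' : Sub.box (bd k) ⊤ A C ≤ Sub.box (bd k) ⊤ B C := Sub.box_mono hAB
  obtain ⟨g, hg, hgf⟩ := h' k f (hf.mono hA'B')
  -- the homotopy on `Δ^k × B`
  let F : Fn (((Del 1).prod (Del k)).prod P) Y := fun n q =>
    if q.1.1 = cst 1 then g n (q.1.2, q.2) else f n (q.1.2, q.2)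
  have hF1 : ∀ n (θ : Mo n k) (x : P.S n), F n ((cst 1, θ), x) = g n (θ, x) :=
    fun n θ x => if_pos rfl
  have hF0 : ∀ n (σ : Mo n 1) (θ : Mo n k) (x : P.S n), σ ≠ cst 1 →
      F n ((σ, θ), x) = f n (θ, x) := fun n σ θ x hσ => if_neg hσ
  have hFA : ∀ n (σ : Mo n 1) (θ : Mo n k) (x : P.S n), (θ, x) ∈ (Sub.box (bd k) ⊤ A C).car n →
      F n ((σ, θ), x) = f n (θ, x) := by
    intro n σ θ x hx
    by_cases hσ : σ = cst 1
    · rw [hσ, hF1, hgf n _ hx]
    · exact hF0 n σ θ x hσ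
  have hFnat : NatOn (Sub.box (Sub.box (bd 1) ⊤ (bd k) ⊤) ⊤ A B) F := by
    rintro m n j ⟨⟨σ, θ⟩, x⟩ hx
    by_cases hσ : σ = cst 1
    · subst hσ
      show F m ((cst 1, θ.comp j), P.act j x) = _
      rw [hF1, hF1]
      exact hg j (θ, x) ⟨trivial, hBC n hx.1.2⟩
    · show F m ((σ.comp j, θ.comp j), P.act j x) = _
      have hfx : f m (θ.comp j, P.act j x) = Y.act j (f n (θ, x)) :=
        hf j (θ, x) ⟨⟨trivial, hBC n hx.1.2⟩, Or.inr hx.1.2⟩
      rw [hF0 n σ θ x hσ, ← hfx]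
      by_cases hσj : σ.comp j = cst 1
      · -- then `(θ, x)` is in `A'`
        have hA'x : (θ, x) ∈ (Sub.box (bd k) ⊤ A C).car n := by
          refine ⟨⟨trivial, hBC n hx.1.2⟩, ?_⟩
          rcases hx.2 with h2 | h2
          · rcases h2.2 with h3 | h3
            · rcases (mem_bd_one σ).1 h3 with rfl | h4
              · exfalso
                exact cst_zero_ne_one m hσj
              · exact absurd h4 hσ
            · exact Or.inl h3
          · exact Or.inr h2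
        exact hFA m _ _ _ ((Sub.box (bd k) ⊤ A C).closed j hA'x)
      · exact hF0 m _ _ _ hσj
  obtain ⟨H1, hH1, hH1F⟩ := h.ext_box (Q := (Del 1).prod (Del k)) hAB
    (Sub.le_top' (Sub.box (bd 1) ⊤ (bd k) ⊤)) F hFnat
  let H : Fn ((Del 1).prod ((Del k).prod P)) Y := fun n q =>
    if q.2.2 ∈ B.car n then H1 n ((q.1, q.2.1), q.2.2) else f n q.2
  have hHB : ∀ n (σ : Mo n 1) (θ : Mo n k) (x : P.S n), x ∈ B.car n →
      H n (σ, (θ, x)) = H1 n ((σ, θ), x) := fun n σ θ x hx => if_pos hx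
  have hHbd : ∀ n (σ : Mo n 1) (θ : Mo n k) (x : P.S n), x ∈ C.car n → θ ∈ (bd k).car n →
      H n (σ, (θ, x)) = f n (θ, x) := by
    intro n σ θ x hx hθ
    by_cases hB : x ∈ B.car n
    · rw [hHB n σ θ x hB, hH1F n _ ⟨⟨trivial, hB⟩, Or.inl ⟨⟨trivial, trivial⟩, Or.inr hθ⟩⟩]
      exact hFA n σ θ x ⟨⟨trivial, hx⟩, Or.inl hθ⟩
    · exact if_neg hB
  have hHnat : NatOn (Sub.bx ⊤ (Sub.box (bd k) ⊤ B C)) H := by
    rintro m n j ⟨σ, θ, x⟩ ⟨-, hx⟩
    show H m (σ.comp j, (θ.comp j, P.act j x)) = _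
    by_cases hB : x ∈ B.car n
    · rw [hHB n σ θ x hB, hHB m _ _ _ (B.closed j hB)]
      exact hH1 j ((σ, θ), x) ⟨trivial, hB⟩
    · have hθ : θ ∈ (bd k).car n := hx.2.resolve_right hB
      rw [hHbd n σ θ x hx.1.2 hθ, hHbd m _ _ _ (C.closed j hx.1.2) ((bd k).closed j hθ)]
      exact hf j (θ, x) hx
  obtain ⟨g', hg', hg'f, -⟩ := hep hY hB'C' f g hf hg H hHnat (by
    rintro n ⟨θ, x⟩ hx
    by_cases hB : x ∈ B.car n
    · rw [hHB n _ θ x hB, hH1F n _ ⟨⟨trivial, hB⟩, Or.inl ⟨⟨trivial, trivial⟩,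
        Or.inl ((mem_bd_one _).2 (Or.inl rfl))⟩⟩]
      exact hF0 n _ θ x (cst_zero_ne_one n)
    · exact hHbd n _ θ x hx.1.2 (hx.2.resolve_right hB)) (by
    rintro n ⟨θ, x⟩ hx
    by_cases hB : x ∈ B.car n
    · rw [hHB n _ θ x hB, hH1F n _ ⟨⟨trivial, hB⟩, Or.inl ⟨⟨trivial, trivial⟩,
        Or.inl ((mem_bd_one _).2 (Or.inr rfl))⟩⟩]
      exact hF1 n θ x
    · have hθ : θ ∈ (bd k).car n := hx.2.resolve_right hB
      rw [hHbd n _ θ x hx.1.2 hθ]
      exact (hgf n _ ⟨hx.1, Or.inl hθ⟩).symm)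
  exact ⟨g', hg', hg'f⟩

omit hY [∀ n, TopologicalSpace (Y.S n)] in
/-- (G5), right cancellation -/
theorem Good.of_right {P : SS} {A B C : Sub P} (hAB : A ≤ B) (hBC : B ≤ C) (h : Good Y A C)
    (h' : Good Y B C) : Good Y A B := by
  intro k f hf
  have l1 : Sub.box ⊥ (bd k) B C ≤ Sub.box (bd k) ⊤ A B := fun n x hx =>
    ⟨⟨trivial, hx.2.resolve_left id⟩, Or.inl hx.1.1⟩
  have l2 : Sub.bx (⊤ : Sub (Del k)) A ≤ Sub.box (bd k) ⊤ A B := fun n x hx =>
    ⟨⟨trivial, hAB n hx.2⟩, Or.inr hx.2⟩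
  have l3 : Sub.box (bd k) ⊤ A C ≤ Sub.bx (bd k) C ⊔ Sub.bx (⊤ : Sub (Del k)) A := by
    rintro n x ⟨hx, h4 | h4⟩
    · exact Or.inl ⟨h4, hx.2⟩
    · exact Or.inr ⟨trivial, h4⟩
  have l4 : Sub.bx (⊤ : Sub (Del k)) B ≤ Sub.bx ⊤ C := fun n x hx => ⟨trivial, hBC n hx.2⟩
  obtain ⟨f1, hf1, hf1f⟩ := h'.ext_box (Q := Del k) hBC (Sub.bot_le' (bd k)) f (hf.mono l1)
  obtain ⟨f2, hf2, h1, h2⟩ := NatOn.glue (A := Sub.bx (bd k) C) (B := Sub.bx ⊤ A) hf1
    (hf.mono l2) (by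
      intro n x hx hx'
      exact hf1f n x ⟨hx, Or.inr (hAB n hx'.2)⟩)
  obtain ⟨f3, hf3, h3⟩ := h k f2 (hf2.mono l3)
  refine ⟨f3, hf3.mono l4, ?_⟩
  rintro n x ⟨hx, h4 | h4⟩
  · rw [h3 n x ⟨⟨trivial, hBC n hx.2⟩, Or.inl h4⟩, h1 n x ⟨h4, hBC n hx.2⟩]
    exact hf1f n x ⟨⟨h4, hBC n hx.2⟩, Or.inr hx.2⟩
  · rw [h3 n x ⟨⟨trivial, hBC n hx.2⟩, Or.inr h4⟩, h2 n x ⟨trivial, h4⟩]

/-- directed unions (G6) -/
theorem Good.iUn {P : SS} {ι : Type} [Nonempty ι] (A C : ι → Sub P)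
    (hdir : ∀ i j, ∃ k, A i ≤ A k ∧ A j ≤ A k ∧ C i ≤ C k ∧ C j ≤ C k)
    (h : ∀ i, Good Y (A i) (C i)) : Good Y (Sub.iUn A) (Sub.iUn C) := by
  intro k f hf
  have hle : ∀ i, Sub.box (bd k) ⊤ (A i) (C i) ≤ Sub.box (bd k) ⊤ (Sub.iUn A) (Sub.iUn C) :=
    fun i n x hx => ⟨⟨trivial, Set.mem_iUnion.2 ⟨i, hx.1.2⟩⟩,
      hx.2.imp id fun h1 => Set.mem_iUnion.2 ⟨i, h1⟩⟩
  obtain ⟨g, hg, hgf⟩ := ext_of_compact hY (fun i => Sub.box (bd k) ⊤ (A i) (C i))
    (fun i => Sub.bx (⊤ : Sub (Del k)) (C i)) (by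
      intro i j
      obtain ⟨l, h1, h2, h3, h4⟩ := hdir i j
      exact ⟨l, fun n x hx => ⟨⟨trivial, h3 n hx.1.2⟩, hx.2.imp id fun h5 => h1 n h5⟩,
        fun n x hx => ⟨⟨trivial, h4 n hx.1.2⟩, hx.2.imp id fun h5 => h2 n h5⟩,
        fun n x hx => ⟨trivial, h3 n hx.2⟩, fun n x hx => ⟨trivial, h4 n hx.2⟩⟩) f
    (fun i => h i k f (hf.mono (hle i)))
  refine ⟨g, hg.mono ?_, ?_⟩
  · intro n x hx
    obtain ⟨i, hi⟩ := Set.mem_iUnion.1 hx.2
    exact Set.mem_iUnion.2 ⟨i, ⟨trivial, hi⟩⟩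
  · rintro n x ⟨hx, h1 | h1⟩
    · obtain ⟨i, hi⟩ := Set.mem_iUnion.1 hx.2
      exact hgf n x (Set.mem_iUnion.2 ⟨i, ⟨trivial, hi⟩, Or.inl h1⟩)
    · obtain ⟨i, hi⟩ := Set.mem_iUnion.1 h1
      obtain ⟨j, hj⟩ := Set.mem_iUnion.1 hx.2
      obtain ⟨l, h2, h3, h4, h5⟩ := hdir i j
      exact hgf n x (Set.mem_iUnion.2 ⟨l, ⟨trivial, h5 n hj⟩, Or.inr (h2 n hi)⟩)

end target

end MM

end

/-! ### from `Lib_MP_33f7bb_d.B1C` -/

section

/-!
# B1C: `Y`-acyclic simplicial sets, mapping cylinders, stratified maps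
((YA1)-(YA4), (STRAT) of the blueprint)
-/

namespace MM

/-- `P` is `Y`-acyclic (at the vertex `p`) -/
def YAc (Y : SS) (P : SS) (p : P.S 0) : Prop := Good Y (Sub.pt p) (⊤ : Sub P)

/-- `p : E → B` is stratified with `Y`-acyclic fibres: over the nondegenerate simplex `b` of `B` the map
`p` looks like the projection `F × Δ^n → Δ^n` as far as the interior of the simplex is concerned -/
def Strat (Y : SS) {E B : SS} (p : Hom E B) : Prop :=
  ∀ (n : ℕ) (b : B.S n), NonDeg b → ∃ (F : SS) (x : F.S 0) (Φ : Hom (F.prod (Del n)) E),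
    YAc Y F x ∧ (∀ (m : ℕ) (y : F.S m) (α : Mo m n), p.app m (Φ.app m (y, α)) = B.act α b) ∧
    ∀ (m : ℕ) (α : Mo m n), Function.Surjective α → ∀ e : E.S m, p.app m e = B.act α b →
      ∃! y : F.S m, Φ.app m (y, α) = e

/-- the mapping cylinder of `p : E → B`: `E` at `0`, `B` at `1` -/
noncomputable def Cyl {E B : SS} (p : Hom E B) : SS := by
  classical
  exact
  { S := fun n => ({τ : Mo n 1 // τ ≠ cst 1} × E.S n) ⊕ B.S n
    act := fun {m n} f x => match x with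
      | Sum.inl y => if h : y.1.1.comp f = cst 1 then Sum.inr (p.app m (E.act f y.2))
          else Sum.inl (⟨y.1.1.comp f, h⟩, E.act f y.2)
      | Sum.inr b => Sum.inr (B.act f b)
    act_id := by
      rintro n (⟨⟨τ, hτ⟩, e⟩ | b)
      · have h : ¬ τ.comp (OrderHom.id : Mo n n) = cst 1 := hτ
        simp only [dif_neg h, E.act_id]
        rfl
      · simp only [B.act_id]
    act_comp := by
      rintro l m n f g (⟨⟨τ, hτ⟩, e⟩ | b)
      · by_cases h : τ.comp g = cst 1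
        · have h' : τ.comp (g.comp f) = cst 1 := by
            have : τ.comp (g.comp f) = (τ.comp g).comp f := rfl
            rw [this, h]; rfl
          simp only [dif_pos h, dif_pos h', p.nat, B.act_comp]
        · by_cases h' : τ.comp (g.comp f) = cst 1
          · have h'' : (τ.comp g).comp f = cst 1 := h'
            simp only [dif_neg h, dif_pos h', dif_pos h'', E.act_comp]
          · have h'' : ¬ (τ.comp g).comp f = cst 1 := h'
            simp only [dif_neg h, dif_neg h', dif_neg h'', E.act_comp]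
            rfl
      · simp only [B.act_comp] }

/-- the simplex `(τ, e)` of the cylinder (`p e` if `τ` is constant `1`) -/
noncomputable def Cyl.mk {E B : SS} (p : Hom E B) {n : ℕ} (τ : Mo n 1) (e : E.S n) :
    (Cyl p).S n := by
  classical
  exact if h : τ = cst 1 then Sum.inr (p.app n e) else Sum.inl (⟨τ, h⟩, e)

theorem Cyl.act_inl_pos {E B : SS} (p : Hom E B) {m n : ℕ} (f : Mo m n)
    (y : {τ : Mo n 1 // τ ≠ cst 1} × E.S n) (h : y.1.1.comp f = cst 1) :
    (Cyl p).act f (Sum.inl y : (Cyl p).S n) = (Sum.inr (p.app m (E.act f y.2)) : (Cyl p).S m) :=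
  dif_pos h

theorem Cyl.act_inl_neg {E B : SS} (p : Hom E B) {m n : ℕ} (f : Mo m n)
    (y : {τ : Mo n 1 // τ ≠ cst 1} × E.S n) (h : y.1.1.comp f ≠ cst 1) :
    (Cyl p).act f (Sum.inl y : (Cyl p).S n) =
      (Sum.inl (⟨y.1.1.comp f, h⟩, E.act f y.2) : (Cyl p).S m) :=
  dif_neg h

theorem Cyl.act_inr {E B : SS} (p : Hom E B) {m n : ℕ} (f : Mo m n) (b : B.S n) :
    (Cyl p).act f (Sum.inr b : (Cyl p).S n) = (Sum.inr (B.act f b) : (Cyl p).S m) := rfl

theorem Cyl.mk_one {E B : SS} (p : Hom E B) {n : ℕ} (e : E.S n) :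
    Cyl.mk p (cst 1) e = (Sum.inr (p.app n e) : (Cyl p).S n) := dif_pos rfl

theorem Cyl.mk_of_ne {E B : SS} (p : Hom E B) {n : ℕ} (τ : Mo n 1) (h : τ ≠ cst 1) (e : E.S n) :
    Cyl.mk p τ e = (Sum.inl (⟨τ, h⟩, e) : (Cyl p).S n) := dif_neg h

theorem Cyl.act_mk {E B : SS} (p : Hom E B) {m n : ℕ} (f : Mo m n) (τ : Mo n 1) (e : E.S n) :
    (Cyl p).act f (Cyl.mk p τ e) = Cyl.mk p (τ.comp f) (E.act f e) := by
  by_cases h : τ = cst 1
  · subst h
    rw [Cyl.mk_one, Cyl.act_inr, cst_comp, Cyl.mk_one, p.nat]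
  · rw [Cyl.mk_of_ne p τ h]
    by_cases h' : τ.comp f = cst 1
    · rw [Cyl.act_inl_pos p f _ h', h', Cyl.mk_one]
    · rw [Cyl.act_inl_neg p f _ h', Cyl.mk_of_ne p _ h']

/-- the inclusion of `E` (at `0`) -/
noncomputable def Cyl.i0 {E B : SS} (p : Hom E B) : Hom E (Cyl p) where
  app n e := Cyl.mk p (cst 0) e
  nat f x := by
    rw [Cyl.act_mk, cst_comp]

/-- the inclusion of `B` (at `1`) -/
def Cyl.i1 {E B : SS} (p : Hom E B) : Hom B (Cyl p) where
  app n b := Sum.inr b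
  nat f x := rfl

theorem Cyl.cases {E B : SS} (p : Hom E B) {n : ℕ} (x : (Cyl p).S n) :
    (∃ (τ : Mo n 1) (_ : τ ≠ cst 1) (e : E.S n), x = Cyl.mk p τ e) ∨
      ∃ b, x = (Cyl.i1 p).app n b := by
  rcases x with ⟨⟨τ, h⟩, e⟩ | b
  · exact Or.inl ⟨τ, h, e, (Cyl.mk_of_ne p τ h e).symm⟩
  · exact Or.inr ⟨b, rfl⟩

theorem Cyl.mk_inj {E B : SS} (p : Hom E B) {n : ℕ} {τ τ' : Mo n 1} {e e' : E.S n}
    (h : τ ≠ cst 1) (hh : Cyl.mk p τ e = Cyl.mk p τ' e') : τ = τ' ∧ e = e' := by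
  rw [Cyl.mk_of_ne p τ h] at hh
  by_cases h' : τ' = cst 1
  · subst h'
    rw [Cyl.mk_one] at hh
    exact absurd (show (Sum.inl (⟨τ, h⟩, e) : ({τ : Mo n 1 // τ ≠ cst 1} × E.S n) ⊕ B.S n) =
      Sum.inr (p.app n e') from hh) (by simp)
  · rw [Cyl.mk_of_ne p τ' h'] at hh
    have h2 : (⟨τ, h⟩, e) = ((⟨τ', h'⟩, e') : {τ : Mo n 1 // τ ≠ cst 1} × E.S n) :=
      Sum.inl.inj (show (Sum.inl (⟨τ, h⟩, e) : ({τ : Mo n 1 // τ ≠ cst 1} × E.S n) ⊕ B.S n) =
      Sum.inl (⟨τ', h'⟩, e') from hh)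
    exact ⟨congrArg (fun z => z.1.1) h2, congrArg Prod.snd h2⟩

theorem Cyl.mk_ne_i1 {E B : SS} (p : Hom E B) {n : ℕ} {τ : Mo n 1} {e : E.S n} {b : B.S n}
    (h : τ ≠ cst 1) : Cyl.mk p τ e ≠ (Cyl.i1 p).app n b := by
  intro hh
  rw [Cyl.mk_of_ne p τ h] at hh
  exact absurd (show (Sum.inl (⟨τ, h⟩, e) : ({τ : Mo n 1 // τ ≠ cst 1} × E.S n) ⊕ B.S n) =
      Sum.inr b from hh) (by simp)

theorem Cyl.i1_inj {E B : SS} (p : Hom E B) {n : ℕ} {b b' : B.S n}
    (h : (Cyl.i1 p).app n b = (Cyl.i1 p).app n b') : b = b' :=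
  Sum.inr.inj (show (Sum.inr b : ({τ : Mo n 1 // τ ≠ cst 1} × E.S n) ⊕ B.S n) = Sum.inr b' from h)

/-- maps out of the cylinder times a simplicial set, defined by cases -/
theorem Cyl.exists_hom {E B K X : SS} (p : Hom E B) (u : ∀ n, Mo n 1 → E.S n → K.S n → X.S n)
    (v : Hom (B.prod K) X)
    (hu : ∀ {m n : ℕ} (f : Mo m n) (τ : Mo n 1) (e : E.S n) (t : K.S n),
      u m (τ.comp f) (E.act f e) (K.act f t) = X.act f (u n τ e t))
    (huv : ∀ n (e : E.S n) (t : K.S n), u n (cst 1) e t = v.app n (p.app n e, t)) :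
    ∃ w : Hom (K.prod (Cyl p)) X, (∀ n τ e t, w.app n (t, Cyl.mk p τ e) = u n τ e t) ∧
      ∀ n b t, w.app n (t, (Cyl.i1 p).app n b) = v.app n (b, t) := by
  let w0 : ∀ n, (K.prod (Cyl p)).S n → X.S n := fun n x =>
    match (x.2 : ({τ : Mo n 1 // τ ≠ cst 1} × E.S n) ⊕ B.S n) with
    | Sum.inl y => u n y.1.1 y.2 x.1
    | Sum.inr b => v.app n (b, x.1)
  have h1 : ∀ n τ e t, w0 n (t, Cyl.mk p τ e) = u n τ e t := by
    intro n τ e t
    by_cases h : τ = cst 1
    · subst h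
      rw [Cyl.mk_one, huv]
    · rw [Cyl.mk_of_ne p τ h]
  have h2 : ∀ n b t, w0 n (t, (Cyl.i1 p).app n b) = v.app n (b, t) := fun n b t => rfl
  refine ⟨⟨w0, ?_⟩, h1, h2⟩
  rintro m n f ⟨t, x⟩
  show w0 m (K.act f t, (Cyl p).act f x) = _
  rcases Cyl.cases p x with ⟨τ, -, e, rfl⟩ | ⟨b, rfl⟩
  · rw [Cyl.act_mk, h1, h1, hu]
  · rw [← (Cyl.i1 p).nat, h2, h2, ← v.nat]

/-- `E → Cyl` is good -/
def YE (Y : SS) {E B : SS} (p : Hom E B) : Prop :=
  Good Y (Sub.map (Cyl.i0 p) ⊤) (⊤ : Sub (Cyl p))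

section target

variable {Y : SS} [∀ n, TopologicalSpace (Y.S n)] (hY : IsTarget Y)

include hY

/-- (YA1) -/
theorem YAc.of_acyc {P : SS} {p : P.S 0} (h : Acyc (Sub.pt p) (⊤ : Sub P)) : YAc Y P p :=
  Good.of_acyc hY (Sub.le_top' _) h

/-- invariance under isomorphism -/
theorem YAc.iso_iff {P P' : SS} (φ : Hom P P') (hφ : ∀ n, Function.Bijective (φ.app n))
    (p : P.S 0) : YAc Y P p ↔ YAc Y P' (φ.app 0 p) := by
  refine Good.iso_iff hY.nonempty φ (Sub.le_top' _) (Sub.le_top' _) (fun _ _ _ => trivial) ?_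
    (fun n x _ y _ h => (hφ n).1 h) (fun n y _ => by
      obtain ⟨x, hx⟩ := (hφ n).2 y
      exact ⟨x, trivial, hx⟩)
  intro n x _
  constructor
  · intro h
    exact (hφ n).1 ((show φ.app n x = P'.act (cst 0) (φ.app 0 p) from h).trans
      (φ.nat (cst 0) p).symm)
  · intro h
    exact (congrArg (φ.app n) (show x = P.act (cst 0) p from h)).trans (φ.nat (cst 0) p)

/-- a subcomplex and its underlying simplicial set -/
theorem YAc.ss_iff {P : SS} (C : Sub P) (p : P.S 0) (hp : p ∈ C.car 0) :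
    YAc Y C.ss ⟨p, hp⟩ ↔ Good Y (Sub.pt p) C := by
  refine Good.iso_iff hY.nonempty C.incl (Sub.le_top' _) ?_ (fun _ x _ => x.2) ?_
    (fun n x _ y _ h => Subtype.ext h) (fun n y hy => ⟨⟨y, hy⟩, trivial, rfl⟩)
  · rintro n x rfl
    exact C.closed _ hp
  · intro n x _
    constructor
    · exact fun h => Subtype.ext h
    · exact fun h => congrArg Subtype.val (show x = C.ss.deg ⟨p, hp⟩ n from h)

/-- (YA4) and more: subcomplexes with acyclic (or only good) pair -/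
theorem YAc.sub_iff {P : SS} (C : Sub P) (p : P.S 0) (hp : p ∈ C.car 0) (h : Good Y C ⊤) :
    YAc Y C.ss ⟨p, hp⟩ ↔ YAc Y P p := by
  have hpC : Sub.pt p ≤ C := by
    rintro n x rfl
    exact C.closed _ hp
  rw [YAc.ss_iff hY C p hp]
  exact ⟨fun h1 => h1.trans hpC (Sub.le_top' _) h, fun h1 => h1.of_right hpC (Sub.le_top' _) h⟩

/-- directed unions -/
theorem YAc.iUn {P : SS} {ι : Type} [Nonempty ι] (C : ι → Sub P)
    (hdir : ∀ i j, ∃ k, C i ≤ C k ∧ C j ≤ C k) (p : P.S 0) (hp : ∀ i, p ∈ (C i).car 0)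
    (hall : ∀ n (x : P.S n), ∃ i, x ∈ (C i).car n)
    (h : ∀ i, YAc Y (C i).ss ⟨p, hp i⟩) : YAc Y P p := by
  have h1 := Good.iUn hY (fun _ : ι => Sub.pt p) C (fun i j => by
    obtain ⟨k, h2, h3⟩ := hdir i j
    exact ⟨k, le_rfl, le_rfl, h2, h3⟩) (fun i => (YAc.ss_iff hY (C i) p (hp i)).1 (h i))
  have e1 : Sub.iUn (fun _ : ι => Sub.pt p) = Sub.pt p := by
    refine le_antisymm ?_ ?_
    · intro n x hx
      obtain ⟨i, hi⟩ := Set.mem_iUnion.1 hx
      exact hi
    · intro n x hx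
      exact Set.mem_iUnion.2 ⟨Classical.arbitrary ι, hx⟩
  have e2 : Sub.iUn C = ⊤ := by
    refine le_antisymm (Sub.le_top' _) ?_
    intro n x _
    obtain ⟨i, hi⟩ := hall n x
    exact Set.mem_iUnion.2 ⟨i, hi⟩
  rwa [e1, e2] at h1

/-- (YA3) -/
theorem YAc.of_seq {P : SS} (p : P.S 0) (C : ℕ → Sub P) (hmono : ∀ i, C i ≤ C (i + 1))
    (hp : ∀ i, p ∈ (C i).car 0) (hall : ∀ n (x : P.S n), ∃ i, x ∈ (C i).car n)
    (h : ∀ i, ∃ (Q : SS) (q : Q.S 0) (j : Hom (C i).ss Q) (r : Hom Q P), YAc Y Q q ∧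
      j.app 0 ⟨p, hp i⟩ = q ∧ r.app 0 q = p ∧ (∀ n x, r.app n x ∈ (C (i + 1)).car n) ∧
      ∀ n (x : (C i).ss.S n), r.app n (j.app n x) = x.1) : YAc Y P p := by
  classical
  intro k f hf
  have hC : Monotone C := monotone_nat_of_le_succ hmono
  obtain ⟨g, hg, hgf⟩ := ext_of_compact hY
    (fun i => Sub.box (bd k) ⊤ (Sub.pt p) (C i ⊔ Sub.pt p))
    (fun i => Sub.bx (⊤ : Sub (Del k)) (C i)) (by
      intro i j
      refine ⟨max i j, ?_, ?_, ?_, ?_⟩
      · exact fun n x hx => ⟨⟨trivial, hx.1.2.imp (fun h1 => hC (le_max_left i j) n h1) id⟩, hx.2⟩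
      · exact fun n x hx => ⟨⟨trivial, hx.1.2.imp (fun h1 => hC (le_max_right i j) n h1) id⟩, hx.2⟩
      · exact fun n x hx => ⟨trivial, hC (le_max_left i j) n hx.2⟩
      · exact fun n x hx => ⟨trivial, hC (le_max_right i j) n hx.2⟩) f (by
    intro i
    obtain ⟨Q, q, j, r, hQ, hj, hr, -, hrj⟩ := h i
    have hrd : ∀ n, r.app n (Q.deg q n) = P.deg p n := by
      intro n
      show r.app n (Q.act (cst 0) q) = P.act (cst 0) p
      rw [r.nat, hr]
    have hf' : NatOn (Sub.box (bd k) ⊤ (Sub.pt q) ⊤)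
        (fun n (x : ((Del k).prod Q).S n) => f n (x.1, r.app n x.2)) := by
      refine NatOn.comp hf (Hom.prodMap (Hom.id (Del k)) r) ?_
      rintro n ⟨θ, x⟩ ⟨-, h1 | h1⟩
      · exact ⟨⟨trivial, trivial⟩, Or.inl h1⟩
      · refine ⟨⟨trivial, trivial⟩, Or.inr ?_⟩
        have h2 : x = Q.deg q n := h1
        subst h2
        exact hrd n
    obtain ⟨g, hg, hgf⟩ := hQ k (fun n (x : ((Del k).prod Q).S n) => f n (x.1, r.app n x.2)) hf'
    have hjd : ∀ n (hx : P.deg p n ∈ (C i).car n), j.app n ⟨P.deg p n, hx⟩ = Q.deg q n := by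
      intro n hx
      have := j.nat (cst 0 : Mo n 0) ⟨p, hp i⟩
      rw [hj] at this
      exact this
    refine ⟨fun n x => if hx : x.2 ∈ (C i).car n then g n (x.1, j.app n ⟨x.2, hx⟩) else f n x,
      ?_, ?_⟩
    · rintro m n l ⟨θ, x⟩ ⟨-, hx⟩
      have hx' : P.act l x ∈ (C i).car m := (C i).closed l hx
      show (if hx : P.act l x ∈ (C i).car m then g m (θ.comp l, j.app m ⟨P.act l x, hx⟩)
        else _) = Y.act l (if hx : x ∈ (C i).car n then g n (θ, j.app n ⟨x, hx⟩) else _)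
      rw [dif_pos hx, dif_pos hx']
      have h1 := j.nat l ⟨x, hx⟩
      have h2 : j.app m ⟨P.act l x, hx'⟩ = Q.act l (j.app n ⟨x, hx⟩) := h1
      rw [h2]
      exact hg l (θ, j.app n ⟨x, hx⟩) ⟨trivial, trivial⟩
    · rintro n ⟨θ, x⟩ ⟨hx, h1⟩
      by_cases hxC : x ∈ (C i).car n
      · show (if hx : x ∈ (C i).car n then g n (θ, j.app n ⟨x, hx⟩) else _) = _
        rw [dif_pos hxC]
        rcases h1 with h1 | h1
        · rw [hgf n (θ, j.app n ⟨x, hxC⟩) ⟨⟨trivial, trivial⟩, Or.inl h1⟩]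
          show f n (θ, r.app n (j.app n ⟨x, hxC⟩)) = _
          rw [hrj]
        · have h2 : x = P.deg p n := h1
          subst h2
          rw [hjd n hxC, hgf n (θ, Q.deg q n) ⟨⟨trivial, trivial⟩, Or.inr rfl⟩]
          show f n (θ, r.app n (Q.deg q n)) = _
          rw [hrd]
      · exact dif_neg hxC)
  refine ⟨g, hg.mono ?_, ?_⟩
  · intro n x _
    obtain ⟨i, hi⟩ := hall n x.2
    exact Set.mem_iUnion.2 ⟨i, trivial, hi⟩
  · rintro n x ⟨-, hx⟩
    obtain ⟨i, hi⟩ := hall n x.2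
    exact hgf n x (Set.mem_iUnion.2 ⟨i, ⟨trivial, Or.inl hi⟩, hx⟩)

/-- the point -/
theorem YAc.point : YAc Y PT () := by
  have h : Sub.pt (P := PT) () = ⊤ := le_antisymm (Sub.le_top' _) (fun n x _ => rfl)
  show Good Y _ _
  rw [h]
  exact Good.refl Y _

/-- products -/
theorem YAc.prod {P Q : SS} {p : P.S 0} {q : Q.S 0} (hP : YAc Y P p) (hQ : YAc Y Q q) :
    YAc Y (P.prod Q) (p, q) := by
  have h1 := Good.box' (Sub.le_top' _) hP (Sub.bot_le' (⊤ : Sub Q))
  have h2 := Good.box (Sub.le_top' _) hQ (Sub.bot_le' (Sub.pt p))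
  have e1 : Sub.box (Sub.pt p) ⊤ ⊥ (⊤ : Sub Q) = Sub.bx (Sub.pt p) ⊤ :=
    le_antisymm (fun n x hx => ⟨hx.2.resolve_right id, trivial⟩)
      (fun n x hx => ⟨⟨trivial, trivial⟩, Or.inl hx.1⟩)
  have e2 : Sub.box ⊥ (Sub.pt p) (Sub.pt q) ⊤ = Sub.pt (P := P.prod Q) (p, q) := by
    refine le_antisymm ?_ ?_
    · rintro n ⟨x, y⟩ ⟨hx, hy⟩
      have h3 : x = P.deg p n := hx.1
      have h4 : y = Q.deg q n := hy.resolve_left id
      subst h3; subst h4
      rfl
    · rintro n x rfl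
      exact ⟨⟨rfl, trivial⟩, Or.inr rfl⟩
  have e3 : Sub.bx (⊤ : Sub P) (⊤ : Sub Q) = ⊤ :=
    le_antisymm (Sub.le_top' _) (fun n x _ => ⟨trivial, trivial⟩)
  rw [e1, e3] at h1
  rw [e2] at h2
  refine h2.trans ?_ (Sub.le_top' _) h1
  rintro n x rfl
  exact ⟨rfl, trivial⟩

/-- `(Cyl, B)` is acyclic -/
theorem Cyl.good_i1 {E B : SS} (p : Hom E B) :
    Good Y (Sub.map (Cyl.i1 p) ⊤) (⊤ : Sub (Cyl p)) := by
  have hsup : ∀ {n : ℕ} (σ : Mo n 1), σ ⊔ cst 1 = cst 1 := by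
    intro n σ
    ext i
    show ((σ i ⊔ (1 : Fin 2) : Fin 2) : ℕ) = 1
    have : ∀ a : Fin 2, ((a ⊔ 1 : Fin 2) : ℕ) = 1 := by decide
    exact this _
  have hsup' : ∀ {n : ℕ} (σ : Mo n 1), cst 1 ⊔ σ = cst 1 := fun σ => by rw [sup_comm, hsup]
  have hsup0 : ∀ {n : ℕ} (σ : Mo n 1), cst 0 ⊔ σ = σ := by
    intro n σ
    ext i
    show (((0 : Fin 2) ⊔ σ i : Fin 2) : ℕ) = (σ i : ℕ)
    have : ∀ a : Fin 2, ((0 ⊔ a : Fin 2) : ℕ) = a := by decide
    exact this _
  obtain ⟨w, hw1, hw2⟩ := Cyl.exists_hom (K := Del 1) (X := Cyl p) p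
    (fun n τ e (σ : Mo n 1) => Cyl.mk p (σ ⊔ τ) e) ((Cyl.i1 p).comp (Hom.fst B (Del 1)))
    (by
      intro m n f τ e σ
      rw [Cyl.act_mk]
      rfl)
    (by
      intro n e σ
      show Cyl.mk p (σ ⊔ cst 1) e = _
      rw [hsup, Cyl.mk_one]
      rfl)
  have hw2' : ∀ n b (σ : Mo n 1), w.app n (σ, (Cyl.i1 p).app n b) = (Cyl.i1 p).app n b :=
    fun n b σ => hw2 n b σ
  have hin : ∀ n (b : B.S n), (Cyl.i1 p).app n b ∈ (Sub.map (Cyl.i1 p) ⊤).car n :=
    fun n b => ⟨b, trivial, rfl⟩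
  refine Good.of_acyc hY (Sub.le_top' _) (acyc_of_deformation (Sub.le_top' _) w ?_ ?_
    (fun _ _ _ _ => trivial) ?_)
  · intro n x _
    rcases Cyl.cases p x with ⟨τ, -, e, rfl⟩ | ⟨b, rfl⟩
    · rw [hw1 n τ e (cst 0 : Mo n 1), hsup0]
    · rw [hw2']
  · intro n x _
    rcases Cyl.cases p x with ⟨τ, -, e, rfl⟩ | ⟨b, rfl⟩
    · rw [hw1 n τ e (cst 1 : Mo n 1), hsup', Cyl.mk_one]
      exact hin n _
    · rw [hw2']
      exact hin n b
  · rintro n σ x ⟨b, -, rfl⟩
    rw [hw2']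
    exact hin n b

/-- the segment from `e` to `p e` -/
theorem Cyl.segment {E B : SS} (p : Hom E B) (e : E.S 0) :
    ∃ I : Sub (Cyl p), Sub.pt ((Cyl.i0 p).app 0 e) ≤ I ∧ Sub.pt ((Cyl.i1 p).app 0 (p.app 0 e)) ≤ I ∧
      Good Y (Sub.pt ((Cyl.i0 p).app 0 e)) I ∧
      Good Y (Sub.pt ((Cyl.i1 p).app 0 (p.app 0 e))) I := by
  let seg : Hom (Del 1) (Cyl p) := ⟨fun n τ => Cyl.mk p τ (E.deg e n), fun {m n} f τ => by
    show Cyl.mk p (τ.comp f) (E.deg e m) = _
    rw [Cyl.act_mk]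
    show _ = Cyl.mk p (τ.comp f) (E.act f (E.act (cst 0) e))
    rw [E.act_comp]
    rfl⟩
  have hinj : ∀ n (τ τ' : Mo n 1), seg.app n τ = seg.app n τ' → τ = τ' := by
    intro n τ τ' h
    by_cases h1 : τ = cst 1
    · by_cases h2 : τ' = cst 1
      · rw [h1, h2]
      · exact ((Cyl.mk_inj p h2 (show Cyl.mk p τ' _ = Cyl.mk p τ _ from h.symm)).1).symm
    · exact (Cyl.mk_inj p h1 (show Cyl.mk p τ _ = Cyl.mk p τ' _ from h)).1
  have hd0 : ∀ n, (Cyl p).deg ((Cyl.i0 p).app 0 e) n = seg.app n (cst 0 : Mo n 1) := by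
    intro n
    show (Cyl p).act (cst 0) (Cyl.mk p (cst 0) e) = Cyl.mk p (cst 0) (E.act (cst 0) e)
    rw [Cyl.act_mk]; rfl
  have hd1 : ∀ n, (Cyl p).deg ((Cyl.i1 p).app 0 (p.app 0 e)) n = seg.app n (cst 1 : Mo n 1) := by
    intro n
    show (Cyl p).act (cst 0) ((Cyl.i1 p).app 0 (p.app 0 e)) = Cyl.mk p (cst 1) (E.act (cst 0) e)
    rw [Cyl.mk_one, p.nat]
    rfl
  have key : ∀ (i : Fin 2) (q : (Cyl p).S 0), (∀ n, (Cyl p).deg q n = seg.app n (cst i : Mo n 1)) →
      Sub.pt q ≤ Sub.map seg ⊤ ∧ Good Y (Sub.pt q) (Sub.map seg ⊤) := by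
    intro i q hq
    have hle : Sub.pt q ≤ Sub.map seg ⊤ := by
      rintro n x rfl
      exact ⟨(cst i : Mo n 1), trivial, (hq n).symm⟩
    refine ⟨hle, Good.relIso seg (Sub.le_top' (Sub.pt (P := Del 1) (cst i : Mo 0 1))) hle
      (fun n x _ => ⟨x, trivial, rfl⟩) ?_ (fun n x _ y _ _ _ h => hinj n x y h)
      (fun n y hy _ => hy)
      (Good.of_acyc hY (Sub.le_top' _) (acyc_Del_pt 1 i))⟩
    intro n τ _
    constructor
    · intro h
      exact hinj n _ _ ((show seg.app n τ = (Cyl p).deg q n from h).trans (hq n))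
    · intro h
      have h2 : τ = cst i := h
      subst h2
      exact (hq n).symm
  exact ⟨Sub.map seg ⊤, (key 0 _ hd0).1, (key 1 _ hd1).1, (key 0 _ hd0).2, (key 1 _ hd1).2⟩

theorem Cyl.base_change {E B : SS} (p : Hom E B) (e : E.S 0) :
    Good Y (Sub.pt ((Cyl.i0 p).app 0 e)) ⊤ ↔
      Good Y (Sub.pt ((Cyl.i1 p).app 0 (p.app 0 e))) ⊤ := by
  obtain ⟨I, h0, h1, g0, g1⟩ := Cyl.segment hY p e
  constructor
  · intro h
    exact g1.trans h1 (Sub.le_top' _) (Good.of_left hY h0 (Sub.le_top' _) g0 h)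
  · intro h
    exact g0.trans h0 (Sub.le_top' _) (Good.of_left hY h1 (Sub.le_top' _) g1 h)

theorem Cyl.pt_le_i0 {E B : SS} (p : Hom E B) (e : E.S 0) :
    Sub.pt ((Cyl.i0 p).app 0 e) ≤ Sub.map (Cyl.i0 p) ⊤ := by
  rintro n x rfl
  exact ⟨E.deg e n, trivial, (Cyl.i0 p).nat _ _⟩

theorem Cyl.pt_le_i1 {E B : SS} (p : Hom E B) (b : B.S 0) :
    Sub.pt ((Cyl.i1 p).app 0 b) ≤ Sub.map (Cyl.i1 p) ⊤ := by
  rintro n x rfl
  exact ⟨B.deg b n, trivial, (Cyl.i1 p).nat _ _⟩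

theorem Cyl.i0_inj {E B : SS} (p : Hom E B) {n : ℕ} {e e' : E.S n}
    (h : (Cyl.i0 p).app n e = (Cyl.i0 p).app n e') : e = e' :=
  (Cyl.mk_inj p (cst_zero_ne_one n) (show Cyl.mk p (cst 0) e = Cyl.mk p (cst 0) e' from h)).2

theorem Cyl.yac_i0 {E B : SS} (p : Hom E B) (e : E.S 0) :
    YAc Y E e ↔ Good Y (Sub.pt ((Cyl.i0 p).app 0 e)) (Sub.map (Cyl.i0 p) ⊤) := by
  refine Good.iso_iff hY.nonempty (Cyl.i0 p) (Sub.le_top' _) (Cyl.pt_le_i0 hY p e)
    (fun n x _ => ⟨x, trivial, rfl⟩) ?_ (fun n x _ y _ h => Cyl.i0_inj hY p h) (fun n y hy => hy)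
  intro n x _
  constructor
  · intro h
    exact Cyl.i0_inj hY p ((show (Cyl.i0 p).app n x = (Cyl p).act (cst 0) ((Cyl.i0 p).app 0 e) from
      h).trans ((Cyl.i0 p).nat (cst 0) e).symm)
  · intro h
    exact (congrArg ((Cyl.i0 p).app n) (show x = E.act (cst 0) e from h)).trans
      ((Cyl.i0 p).nat (cst 0) e)

theorem Cyl.yac_i1 {E B : SS} (p : Hom E B) (b : B.S 0) :
    YAc Y B b ↔ Good Y (Sub.pt ((Cyl.i1 p).app 0 b)) (Sub.map (Cyl.i1 p) ⊤) := by
  refine Good.iso_iff hY.nonempty (Cyl.i1 p) (Sub.le_top' _) (Cyl.pt_le_i1 hY p b)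
    (fun n x _ => ⟨x, trivial, rfl⟩) ?_ (fun n x _ y _ h => Cyl.i1_inj p h) (fun n y hy => hy)
  intro n x _
  constructor
  · intro h
    exact Cyl.i1_inj p ((show (Cyl.i1 p).app n x = (Cyl p).act (cst 0) ((Cyl.i1 p).app 0 b) from
      h).trans ((Cyl.i1 p).nat (cst 0) b).symm)
  · intro h
    exact (congrArg ((Cyl.i1 p).app n) (show x = B.act (cst 0) b from h)).trans
      ((Cyl.i1 p).nat (cst 0) b)

/-- (YA2) -/
theorem YE.yac_iff {E B : SS} {p : Hom E B} (h : YE Y p) (e : E.S 0) :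
    YAc Y E e ↔ YAc Y B (p.app 0 e) := by
  rw [Cyl.yac_i0 hY p e, Cyl.yac_i1 hY p (p.app 0 e)]
  constructor
  · intro h1
    have h2 := (Cyl.base_change hY p e).1 (h1.trans (Cyl.pt_le_i0 hY p e) (Sub.le_top' _) h)
    exact h2.of_right (Cyl.pt_le_i1 hY p _) (Sub.le_top' _) (Cyl.good_i1 hY p)
  · intro h1
    have h2 := (Cyl.base_change hY p e).2
      (h1.trans (Cyl.pt_le_i1 hY p _) (Sub.le_top' _) (Cyl.good_i1 hY p))
    exact h2.of_right (Cyl.pt_le_i0 hY p e) (Sub.le_top' _) h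

/-- a map between `Y`-acyclic simplicial sets -/
theorem YE.of_yac {E B : SS} {p : Hom E B} (e : E.S 0) (hE : YAc Y E e)
    (hB : YAc Y B (p.app 0 e)) : YE Y p := by
  rw [Cyl.yac_i0 hY p e] at hE
  rw [Cyl.yac_i1 hY p (p.app 0 e)] at hB
  exact Good.of_left hY (Cyl.pt_le_i0 hY p e) (Sub.le_top' _) hE
    ((Cyl.base_change hY p e).2
      (hB.trans (Cyl.pt_le_i1 hY p _) (Sub.le_top' _) (Cyl.good_i1 hY p)))

/-- (STRAT) -/
theorem Strat.ye {E B : SS} {p : Hom E B} (h : Strat Y p) : YE Y p := by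
  classical
  -- the subcomplex `E ∪ Cyl (p⁻¹ L → L)`
  let CC : Sub B → Sub (Cyl p) := fun L =>
    ⟨fun n => {x | (∃ (τ : Mo n 1) (e : E.S n), (τ = cst 0 ∨ p.app n e ∈ L.car n) ∧
        x = Cyl.mk p τ e) ∨ ∃ b ∈ L.car n, x = (Cyl.i1 p).app n b}, by
      rintro m n f x (⟨τ, e, he, rfl⟩ | ⟨b, hb, rfl⟩)
      · refine Or.inl ⟨τ.comp f, E.act f e, ?_, Cyl.act_mk p f τ e⟩
        rcases he with rfl | he
        · exact Or.inl rfl
        · refine Or.inr ?_
          rw [p.nat]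
          exact L.closed f he
      · exact Or.inr ⟨B.act f b, L.closed f hb, ((Cyl.i1 p).nat f b).symm⟩⟩
  have hmk : ∀ (L : Sub B) (n : ℕ) (τ : Mo n 1) (e : E.S n), τ ≠ cst 1 →
      (Cyl.mk p τ e ∈ (CC L).car n ↔ (τ = cst 0 ∨ p.app n e ∈ L.car n)) := by
    intro L n τ e hτ
    constructor
    · rintro (⟨τ', e', he, h1⟩ | ⟨b, hb, h1⟩)
      · obtain ⟨rfl, rfl⟩ := Cyl.mk_inj p hτ h1
        exact he
      · exact absurd h1 (Cyl.mk_ne_i1 p hτ)
    · exact fun h1 => Or.inl ⟨τ, e, h1, rfl⟩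
  have hi1 : ∀ (L : Sub B) (n : ℕ) (b : B.S n), (Cyl.i1 p).app n b ∈ (CC L).car n ↔
      b ∈ L.car n := by
    intro L n b
    constructor
    · rintro (⟨τ', e', he, h1⟩ | ⟨b', hb, h1⟩)
      · by_cases hτ : τ' = cst 1
        · subst hτ
          rw [Cyl.mk_one] at h1
          have h2 : b = p.app n e' := Cyl.i1_inj p h1
          rcases he with he | he
          · exact absurd he.symm (cst_zero_ne_one n)
          · rw [h2]; exact he
        · exact absurd h1.symm (Cyl.mk_ne_i1 p hτ)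
      · rw [Cyl.i1_inj p h1]; exact hb
    · exact fun h1 => Or.inr ⟨b, h1, rfl⟩
  have hCmono : ∀ L L' : Sub B, L ≤ L' → CC L ≤ CC L' := by
    rintro L L' hL n x (⟨τ, e, he, rfl⟩ | ⟨b, hb, rfl⟩)
    · exact Or.inl ⟨τ, e, he.imp id fun h1 => hL n h1, rfl⟩
    · exact Or.inr ⟨b, hL n hb, rfl⟩
  have hCbot : CC ⊥ = Sub.map (Cyl.i0 p) ⊤ := by
    refine le_antisymm ?_ ?_
    · rintro n x (⟨τ, e, he, rfl⟩ | ⟨b, hb, rfl⟩)
      · rcases he with rfl | he
        · exact ⟨e, trivial, rfl⟩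
        · exact he.elim
      · exact hb.elim
    · rintro n x ⟨e, -, rfl⟩
      exact Or.inl ⟨cst 0, e, Or.inl rfl, rfl⟩
  have hCtop : CC ⊤ = ⊤ := by
    refine le_antisymm (Sub.le_top' _) ?_
    intro n x _
    rcases Cyl.cases p x with ⟨τ, -, e, rfl⟩ | ⟨b, rfl⟩
    · exact Or.inl ⟨τ, e, Or.inr trivial, rfl⟩
    · exact Or.inr ⟨b, trivial, rfl⟩
  -- one step
  have hstep : ∀ L : Sub B, ∀ (n : ℕ) (b : B.S n), b ∉ L.car n → NonDeg b →
      (∀ (m : ℕ) (f : Mo m n), ¬ Function.Surjective f → B.act f b ∈ L.car m) →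
      Good Y (CC L) (CC (L ⊔ Sub.gen1 b)) := by
    intro L n b hbL hnd hface
    obtain ⟨F, x₀, Φ, hF, hp, hbij⟩ := h n b hnd
    have key : ∀ (m : ℕ) (θ : Mo m n), B.act θ b ∈ L.car m ↔ θ ∈ (bd n).car m := by
      intro m θ
      constructor
      · intro h1 hs
        exact hbL ((act_mem_iff L θ hs b).1 h1)
      · exact fun h1 => hface m θ h1
    have key' : ∀ (m : ℕ) (θ : Mo m n), ¬ Function.Surjective θ ↔ θ ∈ (bd n).car m :=
      fun m θ => Iff.rfl
    let q : Hom F PT := ⟨fun _ _ => (), fun _ _ => rfl⟩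
    have hq : YE Y q := YE.of_yac hY x₀ hF (YAc.point hY)
    have hbox := Good.box (Q := Del n) (K' := bd n) (K := ⊤) (Sub.le_top' _) hq (Sub.le_top' _)
    obtain ⟨w, hw1, hw2⟩ := Cyl.exists_hom (K := Del n) (X := Cyl p) q
      (fun m τ y (θ : Mo m n) => Cyl.mk p τ (Φ.app m (y, θ)))
      ((Cyl.i1 p).comp ((SS.yo b).comp (Hom.snd PT (Del n))))
      (by
        intro m k f τ e θ
        rw [Cyl.act_mk, ← Φ.nat])
      (by
        intro m e θ
        show Cyl.mk p (cst 1) _ = _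
        rw [Cyl.mk_one, hp]
        rfl)
    have hw2' : ∀ m (t : PT.S m) (θ : Mo m n), w.app m (θ, (Cyl.i1 q).app m t) =
        (Cyl.i1 p).app m (B.act θ b) := fun m t θ => hw2 m t θ
    have hbL' : ∀ (m : ℕ) (θ : Mo m n), B.act θ b ∈ (L ⊔ Sub.gen1 b).car m :=
      fun m θ => Or.inr ⟨θ, rfl⟩
    -- membership in `E`-part of the cone
    have hEpart : ∀ (m : ℕ) (τ : Mo m 1) (y : F.S m), τ ≠ cst 1 →
        (Cyl.mk q τ y ∈ (Sub.map (Cyl.i0 q) ⊤).car m ↔ τ = cst 0) := by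
      intro m τ y hτ
      constructor
      · rintro ⟨y', -, h1⟩
        exact (Cyl.mk_inj q hτ (show Cyl.mk q τ y = Cyl.mk q (cst 0) y' from h1.symm)).1
      · rintro rfl
        exact ⟨y, trivial, rfl⟩
    have hEpart' : ∀ (m : ℕ) (t : PT.S m), (Cyl.i1 q).app m t ∉ (Sub.map (Cyl.i0 q) ⊤).car m := by
      rintro m t ⟨y', -, h1⟩
      exact Cyl.mk_ne_i1 q (cst_zero_ne_one m) h1
    refine Good.relIso w (Sub.box_le_bx _ _ _ _) (hCmono _ _ (Sub.le_sup_left' _ _)) ?_ ?_ ?_ ?_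
      hbox
    · rintro m ⟨θ, x⟩ -
      rcases Cyl.cases q x with ⟨τ, hτ, y, rfl⟩ | ⟨t, rfl⟩
      · rw [hw1 m τ y θ, hmk _ m τ _ hτ]
        refine Or.inr ?_
        rw [hp]
        exact hbL' m θ
      · rw [hw2' m t θ, hi1]
        exact hbL' m θ
    · rintro m ⟨θ, x⟩ hx
      rcases Cyl.cases q x with ⟨τ, hτ, y, rfl⟩ | ⟨t, rfl⟩
      · rw [hw1 m τ y θ, hmk _ m τ _ hτ, hp, key]
        constructor
        · rintro (h1 | h1)
          · exact ⟨hx, Or.inr ((hEpart m τ y hτ).2 h1)⟩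
          · exact ⟨hx, Or.inl h1⟩
        · rintro ⟨-, h1 | h1⟩
          · exact Or.inr h1
          · exact Or.inl ((hEpart m τ y hτ).1 h1)
      · rw [hw2' m t θ, hi1, key]
        constructor
        · exact fun h1 => ⟨hx, Or.inl h1⟩
        · rintro ⟨-, h1 | h1⟩
          · exact h1
          · exact absurd h1 (hEpart' m t)
    · rintro m ⟨θ, x⟩ hx ⟨θ', x'⟩ hx' hxA hxA' hxx
      have s1 : Function.Surjective θ := by
        by_contra h1
        exact hxA ⟨hx, Or.inl h1⟩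
      have s2 : Function.Surjective θ' := by
        by_contra h1
        exact hxA' ⟨hx', Or.inl h1⟩
      rcases Cyl.cases q x with ⟨τ, hτ, y, rfl⟩ | ⟨t, rfl⟩
      · rcases Cyl.cases q x' with ⟨τ', hτ', y', rfl⟩ | ⟨t', rfl⟩
        · rw [hw1 m τ y θ, hw1 m τ' y' θ'] at hxx
          obtain ⟨h1, h2⟩ := Cyl.mk_inj p hτ hxx
          have h3 : B.act θ b = B.act θ' b := by
            rw [← hp m y θ, ← hp m y' θ', h2]
          have h4 := (ez_unique θ θ' b b s1 s2 hnd hnd h3).1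
          subst h1; subst h4
          have h5 : y = y' := (hbij m θ s1 (Φ.app m (y', θ)) (hp m y' θ)).unique h2 rfl
          rw [h5]
        · rw [hw1 m τ y θ, hw2' m t' θ'] at hxx
          exact absurd hxx (Cyl.mk_ne_i1 p hτ)
      · rcases Cyl.cases q x' with ⟨τ', hτ', y', rfl⟩ | ⟨t', rfl⟩
        · rw [hw1 m τ' y' θ', hw2' m t θ] at hxx
          exact absurd hxx.symm (Cyl.mk_ne_i1 p hτ')
        · rw [hw2' m t θ, hw2' m t' θ'] at hxx
          have h3 := Cyl.i1_inj p hxx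
          have h4 := (ez_unique θ θ' b b s1 s2 hnd hnd h3).1
          subst h4
          rfl
    · intro m z hz hz'
      rcases Cyl.cases p z with ⟨τ, hτ, e, rfl⟩ | ⟨b', rfl⟩
      · rw [hmk _ m τ _ hτ] at hz hz'
        rw [not_or] at hz'
        rcases hz with h1 | h1 | ⟨θ, h1⟩
        · exact absurd h1 hz'.1
        · exact absurd h1 hz'.2
        · have s1 : Function.Surjective θ := by
            by_contra h2
            apply hz'.2
            rw [h1, key]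
            exact h2
          obtain ⟨y, hy, -⟩ := hbij m θ s1 e h1
          refine ⟨(θ, Cyl.mk q τ y), ⟨trivial, trivial⟩, ?_⟩
          rw [hw1 m τ y θ, hy]
      · rw [hi1] at hz hz'
        rcases hz with h1 | ⟨θ, h1⟩
        · exact absurd h1 hz'
        · refine ⟨(θ, (Cyl.i1 q).app m ()), ⟨trivial, trivial⟩, ?_⟩
          rw [hw2' m () θ, h1]
  -- Zorn
  intro k
  have hz := ExtP.zorn (Y := Y) (P := (Del k).prod (Cyl p)) (⊥ : Sub B) ⊤ (Sub.bot_le' _)
    (fun L => Sub.box (bd k) ⊤ (CC L) ⊤) (fun L L' hL => Sub.box_mono (hCmono L L' hL)) (by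
      rintro c ⟨L₀, hL₀⟩ _ n ⟨θ, x⟩ ⟨hx, h1 | h1⟩
      · exact ⟨L₀, hL₀, hx, Or.inl h1⟩
      · rcases h1 with ⟨τ, e, he | ⟨L, hL, he⟩, h2⟩ | ⟨b, ⟨L, hL, hb⟩, h2⟩
        · exact ⟨L₀, hL₀, hx, Or.inr (Or.inl ⟨τ, e, Or.inl he, h2⟩)⟩
        · exact ⟨L, hL, hx, Or.inr (Or.inl ⟨τ, e, Or.inr he, h2⟩)⟩
        · exact ⟨L, hL, hx, Or.inr (Or.inr ⟨b, hb, h2⟩)⟩) (by
      intro L _ _ n b _ hbL hnd hface
      have h1 := hstep L n b hbL hnd hface k
      refine ExtP.excise (Sub.box_le_bx _ _ _ _)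
        (Sub.box_mono (hCmono _ _ (Sub.le_sup_left' _ _))) ?_ ?_ ?_ h1
      · exact fun m x hx => ⟨⟨trivial, trivial⟩, Or.inr hx.2⟩
      · exact fun m x hx => ⟨fun h2 => ⟨hx, h2.2⟩, fun h2 => ⟨⟨trivial, trivial⟩, h2.2⟩⟩
      · intro m y hy hy'
        refine ⟨trivial, ?_⟩
        rcases hy.2 with h2 | h2
        · exact (hy' ⟨hy.1, Or.inl h2⟩).elim
        · exact h2)
  have e1 : Sub.box (bd k) ⊤ (CC ⊤) ⊤ = Sub.bx (⊤ : Sub (Del k)) (⊤ : Sub (Cyl p)) := by
    rw [hCtop]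
    exact le_antisymm (fun n x hx => hx.1) (fun n x hx => ⟨hx, Or.inr trivial⟩)
  have hz' : ExtP Y (Sub.box (bd k) ⊤ (CC ⊥) ⊤) (Sub.box (bd k) ⊤ (CC ⊤) ⊤) := hz
  rwa [hCbot, e1] at hz'

/-- (STRAT): the form in which it is used -/
theorem Strat.yac_iff {E B : SS} {p : Hom E B} (h : Strat Y p) (e : E.S 0) :
    YAc Y E e ↔ YAc Y B (p.app 0 e) :=
  (Strat.ye hY h).yac_iff hY e

end target

end MM

end

/-! ### from `Lib_MP_33f7bb_d.B301` -/

section

/-!
# B3-01 (L1): `lab K C → lab K' C` is stratified with fibre `lab K K'`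

`K ≤ K' ≤ C`.  For `b : (lab A K' C).S n` take `F = lab A K K'` and
`Φ (z, β) = z + b^β`, where `b^β := labAct A K β b.1` (`b.1` regarded as an element of
`labM A K C n`; it is one since `K ≤ K'`).
* values in `labM A K C m`: `z` is supported in `K' \ K`, `K' ≤ C`.
* natural: `labAct A K f (z + labAct A K β b) = labAct A K f z + labAct A K (β.comp f) b`
  (`map_add`, `labAct_comp`).
* over: dropping the part in `K'`: `z` disappears, and `(labAct A K β b).filter (∉ K') = labAct A K' β b`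
  (evaluate at a point, `labAct_of_mem`, `labAct_of_notMem`).
* bijectivity for surjective `β`: `labAct A K β b` vanishes on `K'`: a simplex `act β x` with `x ∉ K'` is not in
  `K'` (`act_mem_iff`), so `(mapDomain (act β) b) y = 0` for `y ∈ K'` and `labAct A K β b = labAct A K' β b`.
  Injective: restrict to `K'`.  Surjective: if the part of `e` outside `K'` is `labAct A K' β b`, take
  `z = e.filter (∈ K')`.
* fibre: the hypothesis `h` (vertex `0`).
-/

namespace MM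

open Classical

section B301

variable {A : Type} [AddCommMonoid A] {U : SS} {K K' C : Sub U}

private theorem B301_sub (hK : K ≤ K') {n : ℕ} {b : U.S n →₀ A} (hb : b ∈ labM A K' C n) :
    b ∈ labM A K C n := fun x hx => ⟨(hb x hx).1, fun h => (hb x hx).2 (hK n h)⟩

private theorem B301_sub' (hC : K' ≤ C) {n : ℕ} {z : U.S n →₀ A} (hz : z ∈ labM A K K' n) :
    z ∈ labM A K C n := fun x hx => ⟨hC n (hz x hx).1, (hz x hx).2⟩

private theorem B301_zero {n : ℕ} {z : U.S n →₀ A} (hz : z ∈ labM A K K' n) {y : U.S n}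
    (hy : y ∉ K'.car n) : z y = 0 := by
  by_contra h
  exact hy (hz y h).1

private theorem B301_zero' {n : ℕ} {b : U.S n →₀ A} (hb : b ∈ labM A K' C n) {y : U.S n}
    (hy : y ∈ K'.car n) : b y = 0 := by
  by_contra h
  exact (hb y h).2 hy

/-- the value outside `K'` -/
private theorem B301_out (hK : K ≤ K') {m n : ℕ} (f : Mo m n) (b : U.S n →₀ A) {y : U.S m}
    (hy : y ∉ K'.car m) : labAct A K f b y = labAct A K' f b y := by
  rw [labAct_of_notMem K' f b hy, labAct_of_notMem K f b fun h => hy (hK m h)]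

/-- the value in `K'`, surjective structure maps -/
private theorem B301_in {m n : ℕ} (f : Mo m n) (hf : Function.Surjective f)
    {b : U.S n →₀ A} (hb : b ∈ labM A K' C n) {y : U.S m} (hy : y ∈ K'.car m) :
    labAct A K f b y = 0 := by
  by_cases h : y ∈ K.car m
  · exact labAct_of_mem K f b h
  · rw [labAct_of_notMem K f b h]
    by_contra h1
    have h' := Finsupp.mapDomain_support (Finsupp.mem_support_iff.2 h1)
    obtain ⟨x, hx, rfl⟩ := Finset.mem_image.1 h'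
    exact (hb x (Finsupp.mem_support_iff.1 hx)).2 ((act_mem_iff K' f hf x).1 hy)

/-- the map `(z, β) ↦ z + b^β` -/
private noncomputable def B301_Phi (hK : K ≤ K') (hC : K' ≤ C) {n : ℕ} (b : (lab A K' C).S n) :
    Hom ((lab A K K').prod (Del n)) (lab A K C) where
  app m p := ⟨p.1.1 + labAct A K p.2 b.1,
    add_mem (B301_sub' hC p.1.2) (labAct_mem p.2 (B301_sub hK b.2))⟩
  nat {l m} f p := by
    apply Subtype.ext
    show labAct A K f p.1.1 + labAct A K (p.2.comp f) b.1 =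
      labAct A K f (p.1.1 + labAct A K p.2 b.1)
    rw [map_add, labAct_comp]

private theorem B301_Phi_apply (hK : K ≤ K') (hC : K' ≤ C) {n : ℕ} (b : (lab A K' C).S n) {m : ℕ}
    (z : (lab A K K').S m) (β : Mo m n) :
    ((B301_Phi hK hC b).app m (z, β)).1 = z.1 + labAct A K β b.1 := rfl

end B301

theorem labProj_strat {Y : SS} (A : Type) [AddCommMonoid A] {U : SS} {K K' C : Sub U}
    (hK : K ≤ K') (hC : K' ≤ C) (h : YAc Y (lab A K K') 0) : Strat Y (labProj A C hK) := by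
  intro n b _
  refine ⟨lab A K K', 0, B301_Phi hK hC b, h, ?_, ?_⟩
  · intro m z α
    apply Subtype.ext
    ext y
    show ((labProj A C hK).app m ((B301_Phi hK hC b).app m (z, α))).1 y = labAct A K' α b.1 y
    by_cases hy : y ∈ K'.car m
    · rw [labProj_of_mem A C hK _ hy, labAct_of_mem K' α _ hy]
    · rw [labProj_of_notMem A C hK _ hy, B301_Phi_apply, Finsupp.add_apply, B301_zero z.2 hy,
        zero_add, B301_out hK α b.1 hy]
  · intro m α hα e he
    have he' : ∀ y, y ∉ K'.car m → e.1 y = labAct A K' α b.1 y := by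
      intro y hy
      have h1 := congrArg (fun w => w.1 y) he
      rw [← labProj_of_notMem A C hK e hy]
      exact h1
    have hz : e.1.filter (fun y => y ∈ K'.car m) ∈ labM A K K' m := by
      intro y hy
      rw [Finsupp.filter_apply] at hy
      by_cases h1 : y ∈ K'.car m
      · rw [if_pos h1] at hy
        exact ⟨h1, (e.2 y hy).2⟩
      · rw [if_neg h1] at hy
        exact absurd rfl hy
    refine ⟨⟨e.1.filter (fun y => y ∈ K'.car m), hz⟩, ?_, ?_⟩
    · apply Subtype.ext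
      rw [B301_Phi_apply]
      ext y
      rw [Finsupp.add_apply]
      by_cases hy : y ∈ K'.car m
      · rw [Finsupp.filter_apply, if_pos hy, B301_in α hα b.2 hy, add_zero]
      · rw [Finsupp.filter_apply, if_neg hy, zero_add, B301_out hK α b.1 hy, he' y hy]
    · intro z hzz
      apply Subtype.ext
      ext y
      have h1 := congrArg (fun w => w.1 y) hzz
      have h2 : z.1 y + labAct A K α b.1 y = e.1 y := h1
      by_cases hy : y ∈ K'.car m
      · rw [Finsupp.filter_apply, if_pos hy, ← h2, B301_in α hα b.2 hy, add_zero]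
      · rw [Finsupp.filter_apply, if_neg hy, B301_zero z.2 hy]

end MM

end

/-! ### from `Lib_MP_33f7bb_d.B303` -/

section

/-!
# B3-03 (L2, second projection): `TL c K K' C → lab D K K'`, fibre `lab N K C`

`q a = a.mapRange c.q`.  It is supported in `K' \ K`: outside `K'` `a x = ι k`, so `q (a x) = 0` (`c.qι`); natural
by `labAct_mapRange`.

Stratification over `b : (lab D K K').S n`: let `b̂ = b.mapRange c.s` (`c.s0`), so `b̂ ∈ TLM c K K' C n`
(supported in `K' \ K`, zero, hence integral, outside `K'`) and `b̂.mapRange q = b` (`c.qs`).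
`F = lab N K C`, `Φ (z, β) = z.mapRange ι + labAct M K β b̂`.
* in `TLM`: use `TLM_act`; `z.mapRange ι` is integral everywhere.  Natural: `map_add`, `labAct_comp`,
  `labAct_mapRange`.
* over `b`: `q (ι (z x)) = 0`, `(labAct M K β b̂).mapRange q = labAct D K β b`.
* `β` surjective: `x ↦ act β x` is injective (a section `t` of `β`: `exists_section`,
  `act t (act β x) = x`), and `act β x ∈ K ↔ x ∈ K` (`act_mem_iff`).  Hence `labAct M K β b̂` has the value
  `s (b x) = s ((labAct D K β b) (act β x))` at `act β x` and `0` elsewhere: i.e.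
  `labAct M K β b̂ = (labAct D K β b).mapRange s`.  Injective: `c.inj`.  Surjective: let `q e = act β b`; for
  every `y` choose (`c.dec`) `n` with `e y = ι n + s (q (e y))`; this defines `z` (zero where `e y = 0`, as
  `ι n = 0` implies `n = 0` by `c.inj`); for `y ∉ C` or `y ∈ K` `e y = 0` so `z y = 0`.
* the fibre is `YAc` by `h`.
-/

namespace MM

private theorem B303_inj {U : SS} {m n : ℕ} (β : Mo m n) (hβ : Function.Surjective β) :
    Function.Injective (U.act β) := by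
  obtain ⟨t, ht⟩ := exists_section β hβ
  intro x y hxy
  have h1 : U.act t (U.act β x) = U.act t (U.act β y) := by rw [hxy]
  rwa [U.act_comp, U.act_comp, ht, U.act_id, U.act_id] at h1

/-- pointwise section of the coefficients commutes with degeneracies -/
private theorem B303_section {M D : Type} [AddCommMonoid M] [AddCommMonoid D] (s : D → M)
    (s0 : s 0 = 0) {U : SS} (K : Sub U) {m n : ℕ} (β : Mo m n) (hβ : Function.Surjective β)
    (b : U.S n →₀ D) (y : U.S m) :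
    labAct M K β (b.mapRange s s0) y = s (labAct D K β b y) := by
  by_cases hy : y ∈ K.car m
  · rw [labAct_of_mem K β _ hy, labAct_of_mem K β _ hy, s0]
  · rw [labAct_of_notMem K β _ hy, labAct_of_notMem K β _ hy]
    by_cases hr : y ∈ Set.range (U.act β)
    · obtain ⟨x, rfl⟩ := hr
      rw [Finsupp.mapDomain_apply (B303_inj β hβ), Finsupp.mapDomain_apply (B303_inj β hβ),
        Finsupp.mapRange_apply]
    · rw [Finsupp.mapDomain_notin_range _ _ hr, Finsupp.mapDomain_notin_range _ _ hr, s0]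

theorem exists_TLq {Y : SS} {N M D : Type} [AddCommMonoid N] [AddCommMonoid M] [AddCommGroup D]
    (c : Coef N M D) {U : SS} {K K' C : Sub U} (hK : K ≤ K') (hC : K' ≤ C)
    (h : YAc Y (lab N K C) 0) :
    ∃ q : Hom (TL c K K' C) (lab D K K'), q.app 0 0 = 0 ∧ Strat Y q := by
  -- the map `q`
  have hq : ∀ (n : ℕ) (a : U.S n →₀ M), a ∈ TLM c K K' C n →
      a.mapRange c.q (map_zero c.q) ∈ labM D K K' n := by
    intro n a ha x hx
    rw [Finsupp.mapRange_apply] at hx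
    have h1 : a x ≠ 0 := fun h0 => hx (by rw [h0, map_zero])
    refine ⟨?_, (ha.1 x h1).2⟩
    by_contra h2
    obtain ⟨k, hk⟩ := ha.2 x h2
    exact hx (by rw [← hk, c.qι])
  let q : Hom (TL c K K' C) (lab D K K') :=
    ⟨fun n a => ⟨a.1.mapRange c.q (map_zero c.q), hq n a.1 a.2⟩, fun {m n} f a => by
      apply Subtype.ext
      exact (labAct_mapRange c.q K f a.1).symm⟩
  refine ⟨q, ?_, ?_⟩
  · apply Subtype.ext
    show Finsupp.mapRange c.q (map_zero c.q) (0 : U.S 0 →₀ M) = 0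
    exact Finsupp.mapRange_zero
  intro n b _
  -- the lift of `b`
  have hb : b.1.mapRange c.s c.s0 ∈ TLM c K K' C n := by
    refine ⟨fun x hx => ?_, fun x hx => ?_⟩
    · rw [Finsupp.mapRange_apply] at hx
      have h1 : b.1 x ≠ 0 := fun h0 => hx (by rw [h0, c.s0])
      exact ⟨hC n (b.2 x h1).1, (b.2 x h1).2⟩
    · have h1 : b.1 x = 0 := by
        by_contra h0
        exact hx (b.2 x h0).1
      exact ⟨0, by rw [map_zero, Finsupp.mapRange_apply, h1, c.s0]⟩
  have hbq : (b.1.mapRange c.s c.s0).mapRange c.q (map_zero c.q) = b.1 := by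
    ext x
    rw [Finsupp.mapRange_apply, Finsupp.mapRange_apply, c.qs]
  have hι : ∀ (m : ℕ) (z : U.S m →₀ N), z ∈ labM N K C m →
      z.mapRange c.ι (map_zero c.ι) ∈ TLM c K K' C m := by
    intro m z hz
    refine ⟨fun x hx => ?_, fun x _ => ⟨z x, by rw [Finsupp.mapRange_apply]⟩⟩
    rw [Finsupp.mapRange_apply] at hx
    exact hz x fun h0 => hx (by rw [h0, map_zero])
  let Φ : Hom ((lab N K C).prod (Del n)) (TL c K K' C) :=
    ⟨fun m p => ⟨p.1.1.mapRange c.ι (map_zero c.ι) + labAct M K p.2 (b.1.mapRange c.s c.s0),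
      add_mem (hι m p.1.1 p.1.2) (TLM_act c p.2 hb)⟩, fun {m' m} f p => by
      apply Subtype.ext
      show (labAct N K f p.1.1).mapRange c.ι (map_zero c.ι) +
        labAct M K (p.2.comp f) (b.1.mapRange c.s c.s0) =
        labAct M K f (p.1.1.mapRange c.ι (map_zero c.ι) +
          labAct M K p.2 (b.1.mapRange c.s c.s0))
      rw [map_add, labAct_comp, labAct_mapRange]⟩
  refine ⟨lab N K C, 0, Φ, h, ?_, ?_⟩
  · intro m z α
    apply Subtype.ext
    show (z.1.mapRange c.ι (map_zero c.ι) + labAct M K α (b.1.mapRange c.s c.s0)).mapRange c.q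
      (map_zero c.q) = labAct D K α b.1
    conv_rhs => rw [← hbq, labAct_mapRange]
    ext y
    rw [Finsupp.mapRange_apply, Finsupp.add_apply, Finsupp.mapRange_apply, map_add, c.qι, zero_add,
      Finsupp.mapRange_apply]
  · intro m α hα e he
    have he' : ∀ y, c.q (e.1 y) = labAct D K α b.1 y := by
      intro y
      have h1 : e.1.mapRange c.q (map_zero c.q) = labAct D K α b.1 := congrArg Subtype.val he
      rw [← h1, Finsupp.mapRange_apply]
    choose g hg using c.dec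
    have g0 : g 0 = 0 := by
      refine c.inj _ _ 0 ?_
      have h1 := hg 0
      rw [map_zero] at h1
      rw [← h1, map_zero, c.s0, add_zero]
    have hz : e.1.mapRange g g0 ∈ labM N K C m := by
      intro x hx
      rw [Finsupp.mapRange_apply] at hx
      exact e.2.1 x fun h0 => hx (by rw [h0, g0])
    have hval : ∀ (z : (lab N K C).S m) (y : U.S m), (Φ.app m (z, α)).1 y =
        c.ι (z.1 y) + c.s (labAct D K α b.1 y) := by
      intro z y
      show (z.1.mapRange c.ι (map_zero c.ι) + labAct M K α (b.1.mapRange c.s c.s0)) y = _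
      rw [Finsupp.add_apply, Finsupp.mapRange_apply, B303_section c.s c.s0 K α hα]
    refine ⟨⟨e.1.mapRange g g0, hz⟩, ?_, ?_⟩
    · apply Subtype.ext
      ext y
      rw [hval, ← he' y]
      show c.ι ((e.1.mapRange g g0) y) + c.s (c.q (e.1 y)) = e.1 y
      rw [Finsupp.mapRange_apply]
      exact (hg (e.1 y)).symm
    · intro z' hz'
      apply Subtype.ext
      ext y
      show z'.1 y = (e.1.mapRange g g0) y
      rw [Finsupp.mapRange_apply]
      refine c.inj _ _ (c.q (e.1 y)) ?_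
      rw [← hg (e.1 y)]
      have h1 := hval z' y
      have hz'' : Φ.app m (z', α) = e := hz'
      rw [hz'', ← he' y] at h1
      exact h1.symm

end MM

end

/-! ### from `Lib_MP_33f7bb_d.B307` -/

section

/-!
# B3-07: relative isomorphisms induce isomorphisms of labels

`φ : P → P'`, `RelIso φ A C A' C'`.  `f := labF N φ : lab N A C → lab N A' C'` (uses `hC : φ C ⊆ C'`,
`hK : φ A ⊆ A'`).  PROBLEM: `A ≤ C` gives `φ A ⊆ A'` by `pre`.
On `C_n \ A_n` `φ` is injective with image `C'_n \ A'_n`, so `a ↦ a.mapDomain (φ.app n)` (no filtering needed: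
`pre`) is a bijection `labM N A C n → labM N A' C' n`: injective by `Finsupp.mapDomain_apply`-type computation
(`mapDomain` injective on functions supported in a set where `φ` is injective: `Finsupp.mapDomain_injOn`),
surjective: for `b` take `a = b.comapDomain`-like sum `∑ y ∈ b.support, single (g y) (b y)` where `g y` is the
preimage (`surj`).  Conclude by `YAc.iso_iff` (B1C); `f.app 0 0 = 0`.

`relIso_face`: `yo (dlt 0)` is `β ↦ (dlt 0).comp β`.  `β` not surjective: `(dlt 0).comp β` misses `0` and one more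
value `j ≠ 0`; conversely if `(dlt 0).comp β` misses `j ≠ 0` then `β` misses a value.  `inj`: `dlt 0` is injective.
`surj`: `γ ∈ bd (n+1)`, `γ ∉ horn (n+1) 0`: `γ` misses some value, and no value `≠ 0`, so it misses `0` and factors
through `dlt 0` (`γ = (dlt 0).comp β`, `β t = pred (γ t)`).
-/

namespace MM

theorem lab_relIso {Y : SS} [∀ n, TopologicalSpace (Y.S n)] (hY : IsTarget Y) (N : Type)
    [AddCommMonoid N] {P P' : SS} {φ : Hom P P'}
    {A C : Sub P} {A' C' : Sub P'} (h : RelIso φ A C A' C') :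
    YAc Y (lab N A C) 0 ↔ YAc Y (lab N A' C') 0 := by
  classical
  have hK : ∀ n, ∀ x ∈ A.car n, φ.app n x ∈ A'.car n := fun n x hx =>
    (h.pre n x (h.le n hx)).2 hx
  let f : Hom (lab N A C) (lab N A' C') := labF N φ h.map hK
  have hf0 : ∀ n (a : (lab N A C).S n) (y : P'.S n), y ∉ A'.car n →
      (f.app n a).1 y = (a.1.mapDomain (φ.app n)) y := by
    intro n a y hy
    rw [labF_apply, Finsupp.filter_apply, if_pos hy]
  have hf1 : ∀ n (a : (lab N A C).S n) (x : P.S n), x ∈ C.car n → x ∉ A.car n →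
      (f.app n a).1 (φ.app n x) = a.1 x := by
    intro n a x hx hx'
    rw [hf0 n a _ (fun hh => hx' ((h.pre n x hx).1 hh))]
    refine Finsupp.mapDomain_apply' {x | x ∈ C.car n ∧ x ∉ A.car n} a.1 ?_ ?_ ⟨hx, hx'⟩
    · intro z hz
      exact a.2 z (Finsupp.mem_support_iff.1 hz)
    · intro z hz w hw hzw
      exact h.inj n z hz.1 w hw.1 hz.2 hw.2 hzw
  have hbij : ∀ n, Function.Bijective (f.app n) := by
    intro n
    constructor
    · intro a b hab
      apply Subtype.ext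
      ext x
      by_cases hx : x ∈ C.car n ∧ x ∉ A.car n
      · rw [← hf1 n a x hx.1 hx.2, ← hf1 n b x hx.1 hx.2, hab]
      · have ha : a.1 x = 0 := by
          by_contra hne
          exact hx (a.2 x hne)
        have hb : b.1 x = 0 := by
          by_contra hne
          exact hx (b.2 x hne)
        rw [ha, hb]
    · intro b
      have hg : ∀ y : {y // y ∈ b.1.support}, ∃ x ∈ C.car n, φ.app n x = y.1 := fun y =>
        h.surj n y.1 (b.2 y.1 (Finsupp.mem_support_iff.1 y.2)).1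
          (b.2 y.1 (Finsupp.mem_support_iff.1 y.2)).2
      choose g hgC hg using hg
      have hgA : ∀ y : {y // y ∈ b.1.support}, g y ∉ A.car n := by
        intro y hy
        refine (b.2 y.1 (Finsupp.mem_support_iff.1 y.2)).2 ?_
        rw [← hg y]
        exact hK n _ hy
      have hmem : (∑ y ∈ b.1.support.attach, Finsupp.single (g y) (b.1 y.1)) ∈ labM N A C n := by
        refine sum_mem fun y _ => ?_
        intro x hx
        have : x = g y := by
          by_contra hne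
          exact hx (Finsupp.single_eq_of_ne hne)
        rw [this]
        exact ⟨hgC y, hgA y⟩
      refine ⟨⟨_, hmem⟩, ?_⟩
      apply Subtype.ext
      rw [labF_apply]
      have e1 : Finsupp.mapDomain (φ.app n)
          (∑ y ∈ b.1.support.attach, Finsupp.single (g y) (b.1 y.1)) = b.1 := by
        rw [Finsupp.mapDomain_finset_sum]
        have e2 : ∀ y ∈ b.1.support.attach, Finsupp.mapDomain (φ.app n)
            (Finsupp.single (g y) (b.1 y.1)) = Finsupp.single y.1 (b.1 y.1) := by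
          intro y _
          rw [Finsupp.mapDomain_single, hg y]
        rw [Finset.sum_congr rfl e2,
          Finset.sum_attach b.1.support (fun y => Finsupp.single y (b.1 y))]
        exact Finsupp.sum_single b.1
      show Finsupp.filter _ (Finsupp.mapDomain (φ.app n)
        (∑ y ∈ b.1.support.attach, Finsupp.single (g y) (b.1 y.1))) = b.1
      rw [e1, Finsupp.filter_eq_self_iff]
      intro y hy
      exact (b.2 y hy).2
  have h0 : f.app 0 0 = 0 := by
    apply Subtype.ext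
    rw [labF_apply]
    show Finsupp.filter _ (Finsupp.mapDomain (φ.app 0) (0 : P.S 0 →₀ N)) = 0
    rw [Finsupp.mapDomain_zero, Finsupp.filter_zero]
  have := YAc.iso_iff hY f hbij 0
  rwa [h0] at this

/-- the face opposite to the vertex `0` -/
theorem relIso_face (n : ℕ) :
    RelIso (SS.yo (P := Del (n + 1)) (n := n) (dlt 0)) (bd n) ⊤ (horn (n + 1) 0) (bd (n + 1)) := by
  have hz : ∀ (m : ℕ) (β : Mo m n) (t : Fin (m + 1)), ((dlt 0).comp β) t = (β t).succ := by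
    intro m β t
    show (Fin.succAbove 0 (β t)) = (β t).succ
    exact Fin.succAbove_zero_apply _
  refine ⟨Sub.le_top' _, ?_, ?_, ?_, ?_, ?_⟩
  · intro m x hx hs
    obtain ⟨j, -, hj⟩ := hx
    obtain ⟨t, ht⟩ := hs j
    exact hj t ht
  · intro m x _ hs
    obtain ⟨t, ht⟩ := hs 0
    have h1 : ((dlt 0).comp x) t = 0 := ht
    rw [hz] at h1
    exact Fin.succ_ne_zero _ h1
  · intro m x _
    constructor
    · rintro ⟨j, hj0, hj⟩ hs
      obtain ⟨t, ht⟩ := hs (j.pred hj0)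
      refine hj t ?_
      show ((dlt 0).comp x) t = j
      rw [hz, ht, Fin.succ_pred]
    · intro hx
      have hx' : ¬ Function.Surjective x := hx
      unfold Function.Surjective at hx'
      push Not at hx'
      obtain ⟨k, hk⟩ := hx'
      refine ⟨k.succ, Fin.succ_ne_zero k, fun t ht => ?_⟩
      have h1 : ((dlt 0).comp x) t = k.succ := ht
      rw [hz] at h1
      exact hk t (Fin.succ_injective _ h1)
  · intro m x _ y _ _ _ hxy
    apply OrderHom.ext
    funext t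
    have h1 : ((dlt 0).comp x) t = ((dlt 0).comp y) t := congrArg (fun z : Mo m (n + 1) => z t) hxy
    rw [hz, hz] at h1
    exact Fin.succ_injective _ h1
  · intro m y hy hy'
    have h0 : ∀ t, (y : Mo m (n + 1)) t ≠ 0 := by
      have h1 : ¬ Function.Surjective y := hy
      unfold Function.Surjective at h1
      push Not at h1
      obtain ⟨k, hk⟩ := h1
      by_cases hk0 : k = 0
      · rw [hk0] at hk
        exact hk
      · exact absurd ⟨k, hk0, hk⟩ hy'
    refine ⟨⟨fun t => ((y : Mo m (n + 1)) t).pred (h0 t), fun a b hab => ?_⟩, trivial, ?_⟩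
    · exact Fin.pred_le_pred_iff.2 (y.monotone hab)
    · apply OrderHom.ext
      funext t
      show ((dlt 0).comp _) t = _
      rw [hz]
      exact Fin.succ_pred _ (h0 t)

end MM

end

/-! ### from `Lib_MP_33f7bb_d.B312` -/

section

/-!
# B3-12: currying of labels

`lab N (K × I) (C × I)` on `U × I` is isomorphic to `lab (I →₀ N) K C` on `U`: the isomorphism is
`Finsupp.finsuppProdEquiv`/`Finsupp.curryEquiv` (`(U_n × I →₀ N) ≃ (U_n →₀ (I →₀ N))`, additive), the support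
condition: `a.curry x ≠ 0` iff some `a (x, i) ≠ 0`.  Compatible with the structure maps: push forward along
`(x, i) ↦ (act f x, i)` corresponds to push forward along `act f` (both sides are additive: check on
`Finsupp.single (x, i) c`), and filtering corresponds.  Use `YAc.iso_iff` (B1C).
-/

namespace MM

private theorem B312_map {α β I N : Type} [AddCommMonoid N] (g : α → β) (a : α × I →₀ N) :
    (a.mapDomain (fun x => (g x.1, x.2))).curry = a.curry.mapDomain g := by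
  induction a using Finsupp.induction_linear with
  | zero =>
    rw [Finsupp.mapDomain_zero]
    have h : ∀ {γ : Type}, (0 : γ × I →₀ N).curry = 0 := fun {γ} => rfl
    rw [h, h, Finsupp.mapDomain_zero]
  | add a b ha hb =>
    have h : ∀ {γ : Type} (u v : γ × I →₀ N), (u + v).curry = u.curry + v.curry :=
      fun {γ} u v => Finsupp.ext fun x => Finsupp.ext fun i => rfl
    rw [Finsupp.mapDomain_add, h, h, Finsupp.mapDomain_add, ha, hb]
  | single x c =>
    rw [Finsupp.mapDomain_single, Finsupp.curry_single, Finsupp.curry_single,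
      Finsupp.mapDomain_single]

private theorem B312_supp {α I N : Type} [AddCommMonoid N] (a : α × I →₀ N) (x : α)
    (h : a.curry x ≠ 0) : ∃ i, a (x, i) ≠ 0 := by
  by_contra hcon
  push Not at hcon
  exact h (Finsupp.ext fun i => hcon i)

private noncomputable def B312_hom (N : Type) [AddCommMonoid N] {U : SS} (K C : Sub U)
    (I : Type) : Hom (lab N (K.di I) (C.di I)) (lab (I →₀ N) K C) where
  app n a := ⟨a.1.curry, by
    intro x hx
    obtain ⟨i, hi⟩ := B312_supp a.1 x hx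
    exact a.2 (x, i) hi⟩
  nat {m n} f a := by
    apply Subtype.ext
    show (labAct N (K.di I) f a.1).curry = labAct (I →₀ N) K f a.1.curry
    ext y i
    rw [Finsupp.curry_apply]
    by_cases h : y ∈ K.car m
    · have h' : (y, i) ∈ (K.di I).car m := h
      rw [labAct_of_mem (K.di I) f a.1 h', labAct_of_mem K f _ h]
      rfl
    · have h' : (y, i) ∉ (K.di I).car m := h
      rw [labAct_of_notMem (K.di I) f a.1 h', labAct_of_notMem K f _ h]
      have h2 := B312_map (U.act f) a.1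
      rw [← h2]
      rfl

theorem lab_curry {Y : SS} [∀ n, TopologicalSpace (Y.S n)] (hY : IsTarget Y) (N : Type) [AddCommMonoid N] {U : SS} (K C : Sub U) (I : Type) :
    YAc Y (lab N (K.di I) (C.di I)) 0 ↔ YAc Y (lab (I →₀ N) K C) 0 := by
  refine YAc.iso_iff hY (B312_hom N K C I) (fun n => ⟨?_, ?_⟩) 0
  · intro a b hab
    apply Subtype.ext
    have h : a.1.curry = b.1.curry := congrArg Subtype.val hab
    rw [← Finsupp.uncurry_curry a.1, h, Finsupp.uncurry_curry]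
  · intro b
    refine ⟨⟨b.1.uncurry, ?_⟩, ?_⟩
    · rintro ⟨x, i⟩ hx
      refine b.2 x fun h0 => hx ?_
      show b.1 x i = 0
      rw [h0]
      rfl
    · exact Subtype.ext (Finsupp.curry_uncurry b.1)

end MM

end

/-! ### from `Lib_MP_33f7bb_d.C1` -/

section

/-!
# C1: null homotopies and the complex `EEc`
-/

namespace MM

/-- the complex over `S₁ ∪ S₂`: everything over `S₁`, the graph of `γ` over `S₂` -/
def EEc {P W : SS} (S₁ S₂ : Sub P) (γ : Fn P W) (hγ : NatOn S₂ γ) : Sub (P.prod W) :=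
  ⟨fun n => {x | x.1 ∈ S₁.car n ∨ (x.1 ∈ S₂.car n ∧ x.2 = γ n x.1)}, by
    rintro m n f x (h | ⟨h, h'⟩)
    · exact Or.inl (S₁.closed f h)
    · refine Or.inr ⟨S₂.closed f h, ?_⟩
      show W.act f x.2 = γ m (P.act f x.1)
      rw [h', hγ f x.1 h]⟩

/-- PROOF.  Let `h, y` be the null homotopy on `EEc`: `h (t, (s, w))`, `h (cst 0, (s, w)) = κ s`,
`h (cst 1, (s, w)) = deg y`.  Let `o = W.deg w₀ n`.

Step 1.  `Q = (Del 1).prod ((Del 1).prod P)` (coordinates `(u, (t, s))`),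
`K = bx ⊤ (bx ⊤ S₁)`, `K' = box (bd 1) ⊤ (bx (bd 1) S₁) (bx ⊤ S₁)` (`u` or `t` constant).  On
`box K' K (pt w₀) ⊤` (ambient `Q.prod W`) take
`F ((u, (t, s)), w) = if u = cst 1 then h (t, (s, o)) else h (t, (s, w))`.
It is natural there (as in the proof of `Good.of_left`): the two formulas agree if `w = o` and if
`t ∈ bd 1` (`mem_bd_one`), and otherwise `u` is constant.  `hW.ext_box` gives an extension `G` to
`bx K ⊤`.

Step 2.  `hep` for `C = bx ⊤ S₁`, `A = box (bd 1) ⊤ (S₁ ⊓ S₂) S₁` in `(Del 1).prod P`, with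
`f (t, s) = if s ∈ S₂ then h (t, (s, γ s)) else h (t, (s, o))` (natural on `A`),
`g (t, s) = h (t, (s, o))` (natural on `C`), and the homotopy
`H (u, (t, s)) = if s ∈ S₂ then G ((u, (t, s)), γ s) else h (t, (s, o))` (natural on `bx ⊤ A`: if a
face of `s ∉ S₂` lies in `S₂` then `t ∈ bd 1` and `G` is given by `F` there).  `H (cst 0, ·) = f`,
`H (cst 1, ·) = g` on `A` (values of `F`).  We get `g'`, natural on `bx ⊤ S₁`, `g' = f` on `A`.

Step 3.  `g'` on `bx ⊤ S₁` and `h (t, (s, γ s))` on `bx ⊤ S₂` agree on the intersection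
(`NatOn.glue`); the result is a null homotopy of `κ` on `S₁ ⊔ S₂` with the same `y`. -/
theorem nullOn_sup {Y : SS} [∀ n, TopologicalSpace (Y.S n)] (hY : IsTarget Y) {P W : SS}
    {w₀ : W.S 0} (hW : Good Y (Sub.pt w₀) (⊤ : Sub W)) (S₁ S₂ : Sub P) (γ : Fn P W)
    (hγ : NatOn S₂ γ) (κ : Hom P Y)
    (h : NullOn (EEc S₁ S₂ γ hγ) (fun n x => κ.app n x.1)) : NullOn (S₁ ⊔ S₂) κ.app := by
  obtain ⟨h, y, hn, h0, h1⟩ := h
  -- the basic facts on `h`
  have e0 : ∀ n (s : P.S n) (w : W.S n), (s, w) ∈ (EEc S₁ S₂ γ hγ).car n →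
      h n (cst 0, (s, w)) = κ.app n s := fun n s w hx => h0 n (s, w) hx
  have e1 : ∀ n (s : P.S n) (w : W.S n), (s, w) ∈ (EEc S₁ S₂ γ hγ).car n →
      h n (cst 1, (s, w)) = Y.deg y n := fun n s w hx => h1 n (s, w) hx
  have m1 : ∀ n (s : P.S n) (w : W.S n), s ∈ S₁.car n → (s, w) ∈ (EEc S₁ S₂ γ hγ).car n :=
    fun n s w hs => Or.inl hs
  have m2 : ∀ n (s : P.S n), s ∈ S₂.car n → (s, γ n s) ∈ (EEc S₁ S₂ γ hγ).car n :=
    fun n s hs => Or.inr ⟨hs, rfl⟩
  -- for constant `t` the value does not depend on `w`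
  have ebd : ∀ n (t : Mo n 1) (s : P.S n) (w w' : W.S n), t ∈ (bd 1).car n →
      (s, w) ∈ (EEc S₁ S₂ γ hγ).car n → (s, w') ∈ (EEc S₁ S₂ γ hγ).car n →
      h n (t, (s, w)) = h n (t, (s, w')) := by
    intro n t s w w' ht hw hw'
    rcases (mem_bd_one t).1 ht with rfl | rfl
    · rw [e0 n s w hw, e0 n s w' hw']
    · rw [e1 n s w hw, e1 n s w' hw']
  have nat : ∀ {m n : ℕ} (g : Mo m n) (t : Mo n 1) (s : P.S n) (w : W.S n),
      (s, w) ∈ (EEc S₁ S₂ γ hγ).car n →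
      h m (t.comp g, (P.act g s, W.act g w)) = Y.act g (h n (t, (s, w))) :=
    fun g t s w hx => hn g (t, (s, w)) ⟨trivial, hx⟩
  have ho : ∀ {m n : ℕ} (g : Mo m n), W.act g (W.deg w₀ n) = W.deg w₀ m := by
    intro m n g
    show W.act g (W.act (cst 0) w₀) = W.act (cst 0) w₀
    rw [W.act_comp]
    rfl
  -- Step 1
  let K' : Sub ((Del 1).prod ((Del 1).prod P)) := Sub.box (bd 1) ⊤ (Sub.bx (bd 1) S₁) (Sub.bx ⊤ S₁)
  let K : Sub ((Del 1).prod ((Del 1).prod P)) := Sub.bx ⊤ (Sub.bx ⊤ S₁)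
  have hK : K' ≤ K := Sub.box_le_bx _ _ _ _
  let F : Fn (((Del 1).prod ((Del 1).prod P)).prod W) Y := fun n q =>
    if q.1.1 = cst 1 then h n (q.1.2.1, (q.1.2.2, W.deg w₀ n))
    else h n (q.1.2.1, (q.1.2.2, q.2))
  have hF1 : ∀ n (t : Mo n 1) (s : P.S n) (w : W.S n),
      F n ((cst 1, (t, s)), w) = h n (t, (s, W.deg w₀ n)) := fun n t s w => if_pos rfl
  have hF0 : ∀ n (u t : Mo n 1) (s : P.S n) (w : W.S n), u ≠ cst 1 →
      F n ((u, (t, s)), w) = h n (t, (s, w)) := fun n u t s w hu => if_neg hu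
  have hFb : ∀ n (u t : Mo n 1) (s : P.S n) (w : W.S n), s ∈ S₁.car n →
      (t ∈ (bd 1).car n ∨ w = W.deg w₀ n) →
      F n ((u, (t, s)), w) = h n (t, (s, W.deg w₀ n)) := by
    intro n u t s w hs ht
    by_cases hu : u = cst 1
    · rw [hu, hF1]
    · rw [hF0 n u t s w hu]
      rcases ht with ht | ht
      · exact ebd n t s w _ ht (m1 n s w hs) (m1 n s _ hs)
      · rw [ht]
  have hFnat : NatOn (Sub.box K' K (Sub.pt w₀) ⊤) F := by
    rintro m n g ⟨⟨u, t, s⟩, w⟩ hx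
    have hs : s ∈ S₁.car n := hx.1.1.2.2
    have hgs : P.act g s ∈ S₁.car m := S₁.closed g hs
    show F m ((u.comp g, (t.comp g, P.act g s)), W.act g w) = _
    by_cases hu : u = cst 1
    · subst hu
      show F m ((cst 1, (t.comp g, P.act g s)), W.act g w) = _
      rw [hF1, hF1, ← ho g]
      exact nat g t s _ (m1 n s _ hs)
    · by_cases hug : u.comp g = cst 1
      · have hcase : t ∈ (bd 1).car n ∨ w = W.deg w₀ n := by
          rcases hx.2 with h2 | h2
          · rcases h2.2 with h3 | h3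
            · rcases (mem_bd_one u).1 h3 with rfl | h4
              · exact (cst_zero_ne_one m hug).elim
              · exact (hu h4).elim
            · exact Or.inl h3.1
          · exact Or.inr h2
        have hcase' : t.comp g ∈ (bd 1).car m ∨ W.act g w = W.deg w₀ m := by
          rcases hcase with h2 | h2
          · exact Or.inl ((bd 1).closed g h2)
          · right
            rw [h2, ho g]
        rw [hFb m _ _ _ _ hgs hcase', hFb n u t s w hs hcase, ← ho g]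
        exact nat g t s _ (m1 n s _ hs)
      · rw [hF0 m _ _ _ _ hug, hF0 n u t s w hu]
        exact nat g t s w (m1 n s w hs)
  obtain ⟨G, hG, hGF⟩ := hW.ext_box (Q := (Del 1).prod ((Del 1).prod P))
    (Sub.le_top' (Sub.pt w₀)) hK F hFnat
  -- Step 2
  let A : Sub ((Del 1).prod P) := Sub.box (bd 1) ⊤ (S₁ ⊓ S₂) S₁
  let C : Sub ((Del 1).prod P) := Sub.bx ⊤ S₁
  have hAC : A ≤ C := Sub.box_le_bx _ _ _ _
  classical
  let f : Fn ((Del 1).prod P) Y := fun n x =>
    if x.2 ∈ S₂.car n then h n (x.1, (x.2, γ n x.2)) else h n (x.1, (x.2, W.deg w₀ n))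
  let gg : Fn ((Del 1).prod P) Y := fun n x => h n (x.1, (x.2, W.deg w₀ n))
  have hf2 : ∀ n (t : Mo n 1) (s : P.S n), s ∈ S₂.car n → f n (t, s) = h n (t, (s, γ n s)) :=
    fun n t s hs => if_pos hs
  have hfb : ∀ n (t : Mo n 1) (s : P.S n), s ∈ S₁.car n → t ∈ (bd 1).car n →
      f n (t, s) = h n (t, (s, W.deg w₀ n)) := by
    intro n t s hs ht
    by_cases h2 : s ∈ S₂.car n
    · rw [hf2 n t s h2]
      exact ebd n t s _ _ ht (m2 n s h2) (m1 n s _ hs)
    · exact if_neg h2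
  have hggnat : NatOn C gg := by
    rintro m n g ⟨t, s⟩ hx
    show h m (t.comp g, (P.act g s, W.deg w₀ m)) = Y.act g (h n (t, (s, W.deg w₀ n)))
    rw [← ho g]
    exact nat g t s _ (m1 n s _ hx.2)
  have hfnat : NatOn A f := by
    rintro m n g ⟨t, s⟩ hx
    show f m (t.comp g, P.act g s) = Y.act g (f n (t, s))
    by_cases h2 : s ∈ S₂.car n
    · rw [hf2 n t s h2, hf2 m _ _ (S₂.closed g h2), hγ g s h2]
      exact nat g t s _ (m2 n s h2)
    · have ht : t ∈ (bd 1).car n := hx.2.resolve_right fun h3 => h2 h3.2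
      rw [hfb n t s hx.1.2 ht, hfb m _ _ (S₁.closed g hx.1.2) ((bd 1).closed g ht)]
      exact hggnat g (t, s) hx.1
  let H : Fn ((Del 1).prod ((Del 1).prod P)) Y := fun n x =>
    if x.2.2 ∈ S₂.car n then G n (x, γ n x.2.2) else gg n x.2
  have hH2 : ∀ n (u t : Mo n 1) (s : P.S n), s ∈ S₂.car n →
      H n (u, (t, s)) = G n ((u, (t, s)), γ n s) := fun n u t s hs => if_pos hs
  have hHb : ∀ n (u t : Mo n 1) (s : P.S n), s ∈ S₁.car n → t ∈ (bd 1).car n →
      H n (u, (t, s)) = gg n (t, s) := by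
    intro n u t s hs ht
    by_cases h2 : s ∈ S₂.car n
    · rw [hH2 n u t s h2, hGF n _ ⟨⟨⟨trivial, trivial, hs⟩, trivial⟩,
        Or.inl ⟨⟨trivial, trivial, hs⟩, Or.inr ⟨ht, hs⟩⟩⟩]
      exact hFb n u t s _ hs (Or.inl ht)
    · exact if_neg h2
  have hHnat : NatOn (Sub.bx ⊤ A) H := by
    rintro m n g ⟨u, t, s⟩ ⟨-, hx⟩
    have hs : s ∈ S₁.car n := hx.1.2
    show H m (u.comp g, (t.comp g, P.act g s)) = Y.act g (H n (u, (t, s)))
    by_cases h2 : s ∈ S₂.car n
    · rw [hH2 n u t s h2, hH2 m _ _ _ (S₂.closed g h2), hγ g s h2]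
      exact hG g ((u, (t, s)), γ n s) ⟨⟨trivial, trivial, hs⟩, trivial⟩
    · have ht : t ∈ (bd 1).car n := hx.2.resolve_right fun h3 => h2 h3.2
      rw [hHb n u t s hs ht, hHb m _ _ _ (S₁.closed g hs) ((bd 1).closed g ht)]
      exact hggnat g (t, s) ⟨trivial, hs⟩
  obtain ⟨g', hg', hg'f, -⟩ := hep hY hAC f gg hfnat hggnat H hHnat (by
    rintro n ⟨t, s⟩ hx
    have hs : s ∈ S₁.car n := hx.1.2
    by_cases h2 : s ∈ S₂.car n
    · rw [hH2 n _ t s h2, hf2 n t s h2, hGF n _ ⟨⟨⟨trivial, trivial, hs⟩, trivial⟩,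
        Or.inl ⟨⟨trivial, trivial, hs⟩, Or.inl ((mem_bd_one _).2 (Or.inl rfl))⟩⟩]
      exact hF0 n _ t s _ (cst_zero_ne_one n)
    · have ht : t ∈ (bd 1).car n := hx.2.resolve_right fun h3 => h2 h3.2
      rw [hHb n _ t s hs ht, hfb n t s hs ht]) (by
    rintro n ⟨t, s⟩ hx
    have hs : s ∈ S₁.car n := hx.1.2
    by_cases h2 : s ∈ S₂.car n
    · rw [hH2 n _ t s h2, hGF n _ ⟨⟨⟨trivial, trivial, hs⟩, trivial⟩,
        Or.inl ⟨⟨trivial, trivial, hs⟩, Or.inl ((mem_bd_one _).2 (Or.inr rfl))⟩⟩]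
      exact hF1 n t s _
    · have ht : t ∈ (bd 1).car n := hx.2.resolve_right fun h3 => h2 h3.2
      rw [hHb n _ t s hs ht])
  -- Step 3
  have hh2 : NatOn (Sub.bx ⊤ S₂) (fun n (x : ((Del 1).prod P).S n) =>
      h n (x.1, (x.2, γ n x.2))) := by
    rintro m n g ⟨t, s⟩ hx
    show h m (t.comp g, (P.act g s, γ m (P.act g s))) = Y.act g (h n (t, (s, γ n s)))
    rw [hγ g s hx.2]
    exact nat g t s _ (m2 n s hx.2)
  obtain ⟨k, hk, hk1, hk2⟩ := NatOn.glue (g := fun n (x : ((Del 1).prod P).S n) =>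
      h n (x.1, (x.2, γ n x.2))) hg' hh2 (by
    rintro n ⟨t, s⟩ hx hx'
    show g' n (t, s) = h n (t, (s, γ n s))
    rw [hg'f n (t, s) ⟨⟨trivial, hx.2⟩, Or.inr ⟨hx.2, hx'.2⟩⟩]
    exact hf2 n t s hx'.2)
  refine ⟨k, y, hk.mono ?_, ?_, ?_⟩
  · rintro n x ⟨-, h2 | h2⟩
    · exact Or.inl ⟨trivial, h2⟩
    · exact Or.inr ⟨trivial, h2⟩
  · rintro n s (hs | hs)
    · have hb : (cst 0 : Mo n 1) ∈ (bd 1).car n := (mem_bd_one _).2 (Or.inl rfl)
      rw [hk1 n (cst 0, s) ⟨trivial, hs⟩, hg'f n (cst 0, s) ⟨⟨trivial, hs⟩, Or.inl hb⟩,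
        hfb n _ s hs hb]
      exact e0 n s _ (m1 n s _ hs)
    · rw [hk2 n (cst 0, s) ⟨trivial, hs⟩]
      exact e0 n s _ (m2 n s hs)
  · rintro n s (hs | hs)
    · have hb : (cst 1 : Mo n 1) ∈ (bd 1).car n := (mem_bd_one _).2 (Or.inr rfl)
      rw [hk1 n (cst 1, s) ⟨trivial, hs⟩, hg'f n (cst 1, s) ⟨⟨trivial, hs⟩, Or.inl hb⟩,
        hfb n _ s hs hb]
      exact e1 n s _ (m1 n s _ hs)
    · rw [hk2 n (cst 1, s) ⟨trivial, hs⟩]
      exact e1 n s _ (m2 n s hs)

end MM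

end

/-! ### from `Lib_MP_33f7bb_d.C2` -/

section

/-!
# C2: null homotopies: compactness, acyclic pairs, pull backs
-/

namespace MM

/-- the subcomplex generated by a finite set of simplices -/
def Sub.genF {P : SS} (s : Finset (Σ n, P.S n)) : Sub P :=
  Sub.gen (fun n => {x | (⟨n, x⟩ : Σ n, P.S n) ∈ s})

private theorem c2_genF_mono {P : SS} {s t : Finset (Σ n, P.S n)} (h : s ⊆ t) :
    Sub.genF s ≤ Sub.genF t := by
  rintro m x ⟨n, f, y, hy, rfl⟩
  exact ⟨n, f, y, h hy, rfl⟩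

private theorem c2_mem_genF {P : SS} {n : ℕ} (x : P.S n) :
    x ∈ (Sub.genF {(⟨n, x⟩ : Σ n, P.S n)}).car n :=
  ⟨n, OrderHom.id, x, Finset.mem_singleton_self _, (P.act_id x).symm⟩

/-- Compactness.

PROOF.  As `ext_of_compact` (B1A): in the compact space `Fn ((Del 1).prod P) Y × Y.S 0`
(Tychonoff) let `V s`, `s : Finset (Σ n, P.S n)` with all members in `A`, be the closed set of
pairs `(H, y)` satisfying the three conditions of `NullOn` on `Sub.genF s`.  They are nonempty and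
directed (`V (s ∪ s') ⊆ V s ∩ V s'`), so there is a common point
(`IsCompact.nonempty_iInter_of_directed_nonempty_isCompact_isClosed`, index type
`{s // ∀ x ∈ s, x.2 ∈ A.car x.1}`).  Every simplex `x` of `A` lies in `Sub.genF {⟨n, x⟩}`. -/
theorem nullOn_of_fin {Y : SS} [∀ n, TopologicalSpace (Y.S n)] (hY : IsTarget Y) {P : SS}
    (A : Sub P) (f : Fn P Y)
    (h : ∀ s : Finset (Σ n, P.S n), (∀ x ∈ s, x.2 ∈ A.car x.1) → NullOn (Sub.genF s) f) :
    NullOn A f := by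
  classical
  have := hY.compact
  have := hY.t2
  let ι := {s : Finset (Σ n, P.S n) // ∀ x ∈ s, x.2 ∈ A.car x.1}
  have : Nonempty ι := ⟨⟨∅, by simp⟩⟩
  let V : ι → Set (Fn ((Del 1).prod P) Y × Y.S 0) := fun s =>
    {p | (∀ (m n : ℕ) (k : Mo m n) (x : ((Del 1).prod P).S n),
      x ∈ (Sub.bx (⊤ : Sub (Del 1)) (Sub.genF s.1)).car n →
        p.1 m (((Del 1).prod P).act k x) = Y.act k (p.1 n x)) ∧
      (∀ n, ∀ x ∈ (Sub.genF s.1).car n, p.1 n (cst 0, x) = f n x) ∧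
      ∀ n, ∀ x ∈ (Sub.genF s.1).car n, p.1 n (cst 1, x) = Y.deg p.2 n}
  have hev : ∀ n (x : ((Del 1).prod P).S n),
      Continuous fun p : Fn ((Del 1).prod P) Y × Y.S 0 => p.1 n x := fun n x => by
    have e1 : Continuous fun g : Fn ((Del 1).prod P) Y => g n x :=
      (continuous_apply x).comp (continuous_apply n)
    exact e1.comp continuous_fst
  have hdeg : ∀ n, Continuous fun p : Fn ((Del 1).prod P) Y × Y.S 0 => Y.deg p.2 n := fun n =>
    (hY.cont (cst 0)).comp continuous_snd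
  have hclosed : ∀ i, IsClosed (V i) := by
    intro i
    have : V i = (⋂ (m : ℕ) (n : ℕ) (k : Mo m n) (x : ((Del 1).prod P).S n)
        (_ : x ∈ (Sub.bx (⊤ : Sub (Del 1)) (Sub.genF i.1)).car n),
        {p : Fn ((Del 1).prod P) Y × Y.S 0 |
          p.1 m (((Del 1).prod P).act k x) = Y.act k (p.1 n x)}) ∩
        ((⋂ (n : ℕ) (x : P.S n) (_ : x ∈ (Sub.genF i.1).car n),
          {p : Fn ((Del 1).prod P) Y × Y.S 0 | p.1 n (cst 0, x) = f n x}) ∩
        ⋂ (n : ℕ) (x : P.S n) (_ : x ∈ (Sub.genF i.1).car n),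
          {p : Fn ((Del 1).prod P) Y × Y.S 0 | p.1 n (cst 1, x) = Y.deg p.2 n}) := by
      ext g
      simp only [V, Set.mem_ofPred_eq, Set.mem_inter_iff, Set.mem_iInter]
    rw [this]
    refine IsClosed.inter ?_ (IsClosed.inter ?_ ?_)
    · refine isClosed_iInter fun m => isClosed_iInter fun n => isClosed_iInter fun k =>
        isClosed_iInter fun x => isClosed_iInter fun _ => ?_
      exact isClosed_eq (hev m _) ((hY.cont k).comp (hev n x))
    · refine isClosed_iInter fun n => isClosed_iInter fun x => isClosed_iInter fun _ => ?_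
      exact isClosed_eq (hev n _) continuous_const
    · refine isClosed_iInter fun n => isClosed_iInter fun x => isClosed_iInter fun _ => ?_
      exact isClosed_eq (hev n _) (hdeg n)
  have hmono : ∀ i j : ι, i.1 ⊆ j.1 → V j ⊆ V i := by
    intro i j hij p hp
    have hle := c2_genF_mono hij
    exact ⟨fun m n k x hx => hp.1 m n k x ⟨hx.1, hle n hx.2⟩,
      fun n x hx => hp.2.1 n x (hle n hx), fun n x hx => hp.2.2 n x (hle n hx)⟩
  have hdirV : Directed (· ⊇ ·) V := by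
    intro i j
    refine ⟨⟨i.1 ∪ j.1, fun x hx => (Finset.mem_union.1 hx).elim (i.2 x) (j.2 x)⟩, ?_, ?_⟩
    · exact hmono _ _ Finset.subset_union_left
    · exact hmono _ _ Finset.subset_union_right
  have hne : ∀ i, (V i).Nonempty := by
    intro i
    obtain ⟨H, y, h1, h2, h3⟩ := h i.1 i.2
    exact ⟨(H, y), fun m n k x hx => h1 k x hx, h2, h3⟩
  obtain ⟨g, hg⟩ := IsCompact.nonempty_iInter_of_directed_nonempty_isCompact_isClosed V hdirV hne
    (fun i => (hclosed i).isCompact) hclosed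
  rw [Set.mem_iInter] at hg
  refine ⟨g.1, g.2, ?_, ?_, ?_⟩
  · intro m n k x hx
    have hx2 : x.2 ∈ A.car n := hx.2
    exact (hg ⟨{⟨n, x.2⟩}, fun z hz => by
      rw [Finset.mem_singleton] at hz
      subst hz
      exact hx2⟩).1 m n k x ⟨trivial, c2_mem_genF x.2⟩
  · intro n x hx
    exact (hg ⟨{⟨n, x⟩}, fun z hz => by
      rw [Finset.mem_singleton] at hz
      subst hz
      exact hx⟩).2.1 n x (c2_mem_genF x)
  · intro n x hx
    exact (hg ⟨{⟨n, x⟩}, fun z hz => by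
      rw [Finset.mem_singleton] at hz
      subst hz
      exact hx⟩).2.2 n x (c2_mem_genF x)

/-- PROOF.  Let `H, y` be the null homotopy on `A`.  The function
`F (t, x) = if t = cst 0 then κ x else if t = cst 1 then deg y else H (t, x)` is natural on
`box (bd 1) ⊤ A ⊤` (`mem_bd_one`) and extends to `bx ⊤ ⊤` by `hY.ext` and `acyc_box_right`. -/
theorem null_of_acyc {Y : SS} [∀ n, TopologicalSpace (Y.S n)] (hY : IsTarget Y) {P : SS}
    {A : Sub P} (hA : Acyc A ⊤) (κ : Hom P Y) (h : NullOn A κ.app) : Null κ := by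
  classical
  obtain ⟨H, y, hH, h0, h1⟩ := h
  let F : Fn ((Del 1).prod P) Y := fun n x =>
    if x.1 = (cst 0 : Mo n 1) then κ.app n x.2 else
      if x.1 = (cst 1 : Mo n 1) then Y.deg y n else H n x
  have F0 : ∀ n (x : P.S n), F n ((cst 0 : Mo n 1), x) = κ.app n x := fun n x => if_pos rfl
  have F1 : ∀ n (x : P.S n), F n ((cst 1 : Mo n 1), x) = Y.deg y n := fun n x => by
    show (if (cst 1 : Mo n 1) = (cst 0 : Mo n 1) then _ else _) = _
    rw [if_neg (cst_zero_ne_one n).symm]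
    exact if_pos rfl
  have FA : ∀ n (x : ((Del 1).prod P).S n), x.2 ∈ A.car n → F n x = H n x := by
    rintro n ⟨t, x⟩ hx
    by_cases ht : t = (cst 0 : Mo n 1)
    · subst ht
      rw [F0, h0 n x hx]
    · by_cases ht1 : t = (cst 1 : Mo n 1)
      · subst ht1
        rw [F1, h1 n x hx]
      · show (if t = (cst 0 : Mo n 1) then _ else _) = _
        rw [if_neg ht]
        exact if_neg ht1
  have hF : NatOn (Sub.box (bd 1) ⊤ A ⊤) F := by
    rintro m n k ⟨t, x⟩ hx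
    rcases hx.2 with h2 | h2
    · rcases (mem_bd_one t).1 h2 with rfl | rfl
      · show F m ((cst 0 : Mo m 1), P.act k x) = Y.act k (F n ((cst 0 : Mo n 1), x))
        rw [F0, F0, κ.nat]
      · show F m ((cst 1 : Mo m 1), P.act k x) = Y.act k (F n ((cst 1 : Mo n 1), x))
        rw [F1, F1]
        show Y.act (cst 0) y = Y.act k (Y.act (cst 0) y)
        rw [Y.act_comp]
        rfl
    · have h3 : P.act k x ∈ A.car m := A.closed k h2
      rw [FA n (t, x) h2, FA m (((Del 1).prod P).act k (t, x)) h3]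
      exact hH k (t, x) ⟨trivial, h2⟩
  obtain ⟨G, hG, hGF⟩ := hY.ext _ _ _ (Sub.box_le_bx _ _ _ _)
    (acyc_box_right (Sub.le_top' (bd 1)) (Sub.le_top' A) hA) F hF
  refine ⟨G, y, hG, ?_, ?_⟩
  · intro n x _
    rw [hGF n (cst 0, x) ⟨⟨trivial, trivial⟩, Or.inl ((mem_bd_one _).2 (Or.inl rfl))⟩, F0]
  · intro n x _
    rw [hGF n (cst 1, x) ⟨⟨trivial, trivial⟩, Or.inl ((mem_bd_one _).2 (Or.inr rfl))⟩, F1]

/-- pull back of a null homotopy to a subcomplex.

PROOF.  Let `H, y` be the null homotopy on `Q`.  Take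
`H' (t, x) = if hx : x ∈ A then H (t, ρ ⟨x, hx⟩) else deg y`. -/
theorem nullOn_pull {P Q Y : SS} (A : Sub P) (ρ : Hom A.ss Q) (κ : Hom Q Y) (h : Null κ)
    (f : Fn P Y) (hf : ∀ n (x : A.ss.S n), f n x.1 = κ.app n (ρ.app n x)) : NullOn A f := by
  classical
  obtain ⟨H, y, hH, h0, h1⟩ := h
  let H' : Fn ((Del 1).prod P) Y := fun n x =>
    if hx : x.2 ∈ A.car n then H n (x.1, ρ.app n ⟨x.2, hx⟩) else Y.deg y n
  have hH' : ∀ n (t : Mo n 1) (x : P.S n) (hx : x ∈ A.car n),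
      H' n (t, x) = H n (t, ρ.app n ⟨x, hx⟩) := fun n t x hx => dif_pos hx
  refine ⟨H', y, ?_, ?_, ?_⟩
  · rintro m n k ⟨t, x⟩ hx
    have hx2 : x ∈ A.car n := hx.2
    show H' m (t.comp k, P.act k x) = Y.act k (H' n (t, x))
    rw [hH' n t x hx2, hH' m _ _ (A.closed k hx2)]
    have e1 : ρ.app m ⟨P.act k x, A.closed k hx2⟩ = Q.act k (ρ.app n ⟨x, hx2⟩) :=
      ρ.nat k ⟨x, hx2⟩
    rw [e1]
    exact hH k (t, ρ.app n ⟨x, hx2⟩) ⟨trivial, trivial⟩
  · intro n x hx
    rw [hH' n _ x hx, h0 n _ trivial]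
    exact (hf n ⟨x, hx⟩).symm
  · intro n x hx
    rw [hH' n _ x hx, h1 n _ trivial]


private noncomputable def c2_par {m : ℕ} (a : Mo m 1) : C(Dtop m, unitInterval) :=
  ⟨fun t => ⟨(tmap a t : Fin 2 → ℝ) 1, mem_Icc_of_mem_stdSimplex (tmap a t).2 1⟩, by
    refine Continuous.subtype_mk ?_ _
    exact (continuous_apply (1 : Fin 2)).comp (continuous_subtype_val.comp (tmap a).continuous)⟩

private theorem c2_par_comp {l m : ℕ} (a : Mo m 1) (f : Mo l m) (t : Dtop l) :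
    c2_par (a.comp f) t = c2_par a (tmap f t) := by
  apply Subtype.ext
  show (tmap (a.comp f) t : Fin 2 → ℝ) 1 = (tmap a (tmap f t) : Fin 2 → ℝ) 1
  rw [tmap_comp]

private theorem c2_tmap_apply {m n : ℕ} (f : Mo m n) (t : Dtop m) (i : Fin (n + 1)) :
    (tmap f t : Fin (n + 1) → ℝ) i = ∑ j, if f j = i then (t : Fin (m + 1) → ℝ) j else 0 := by
  show FunOnFinite.linearMap ℝ ℝ f (t : Fin (m + 1) → ℝ) i = _
  rw [FunOnFinite.linearMap_apply_apply, Finset.sum_filter]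

private theorem c2_par_zero {m : ℕ} (t : Dtop m) : c2_par (cst 0 : Mo m 1) t = 0 := by
  apply Subtype.ext
  show (tmap (cst 0 : Mo m 1) t : Fin 2 → ℝ) 1 = 0
  rw [c2_tmap_apply]
  apply Finset.sum_eq_zero
  intro j _
  rw [if_neg]
  show ¬ ((0 : Fin 2) = 1)
  decide

private theorem c2_par_one {m : ℕ} (t : Dtop m) : c2_par (cst 1 : Mo m 1) t = 1 := by
  apply Subtype.ext
  show (tmap (cst 1 : Mo m 1) t : Fin 2 → ℝ) 1 = 1
  rw [c2_tmap_apply]
  have := t.2.2
  rw [← this]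
  apply Finset.sum_congr rfl
  intro j _
  exact if_pos rfl

/-- Homotopic continuous maps induce homotopic simplicial maps; case of null-homotopic maps.

PROOF.  Let `h : [0,1] × X → Sph N` be a homotopy from `q` to the constant map `c`.  Put
`H (τ, σ) = κ (t ↦ h ((tmap τ t) 1, σ t))` for `τ : Mo n 1`, `σ : C(Dtop n, X)` (`(tmap τ t) 1` is the
second barycentric coordinate, in `[0,1]`; it is `0` for `τ = cst 0`, `1` for `τ = cst 1`), and
`y = κ` (constant `0`-simplex `c`).  Naturality: `tmap_comp`. -/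
theorem c_null_of_nullhomotopic {Y : SS} {N : ℕ} (κ : Hom (Sing (Sph N)) Y) {X : Type}
    [TopologicalSpace X] (q : C(X, Sph N)) (h : q.Nullhomotopic) :
    Null (κ.comp (Sing.map q)) := by
  obtain ⟨c, ⟨h⟩⟩ := h
  let G : ∀ n, Mo n 1 → C(Dtop n, X) → C(Dtop n, Sph N) := fun n a σ =>
    h.toContinuousMap.comp ((c2_par a).prodMk σ)
  have hG : ∀ n (a : Mo n 1) (σ : C(Dtop n, X)) (t : Dtop n), G n a σ t = h (c2_par a t, σ t) :=
    fun n a σ t => rfl
  refine ⟨fun n x => κ.app n (G n x.1 x.2), κ.app 0 (ContinuousMap.const _ c), ?_, ?_, ?_⟩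
  · rintro m n k ⟨a, σ⟩ _
    show κ.app m (G m (a.comp k) (σ.comp (tmap k))) = Y.act k (κ.app n (G n a σ))
    have e1 : κ.app m ((Sing (Sph N)).act k (G n a σ)) = Y.act k (κ.app n (G n a σ)) :=
      κ.nat k (G n a σ)
    rw [← e1]
    congr 1
    apply ContinuousMap.ext
    intro t
    show h (c2_par (a.comp k) t, σ (tmap k t)) = h (c2_par a (tmap k t), σ (tmap k t))
    rw [c2_par_comp]
  · intro n σ _
    show κ.app n (G n (cst 0) σ) = κ.app n (q.comp σ)
    congr 1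
    apply ContinuousMap.ext
    intro t
    show h (c2_par (cst 0) t, σ t) = q (σ t)
    rw [c2_par_zero]
    exact h.map_zero_left (σ t)
  · intro n σ _
    show κ.app n (G n (cst 1) σ) = Y.act (cst 0) (κ.app 0 (ContinuousMap.const _ c))
    have e1 : κ.app n ((Sing (Sph N)).act (cst 0) (ContinuousMap.const _ c)) =
        Y.act (cst 0) (κ.app 0 (ContinuousMap.const _ c)) := κ.nat (cst 0) _
    rw [← e1]
    congr 1
    apply ContinuousMap.ext
    intro t
    show h (c2_par (cst 1) t, σ t) = c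
    rw [c2_par_one]
    exact h.map_one_left (σ t)

/-- the empty space -/
theorem null_of_isEmpty {Y : SS} (hY : Nonempty (Y.S 0)) {X : Type} [TopologicalSpace X]
    [IsEmpty X] (κ : Hom (Sing X) Y) : Null κ := by
  obtain ⟨y⟩ := hY
  have hE : ∀ n, IsEmpty ((Sing X).S n) := fun n =>
    ⟨fun σ : C(Dtop n, X) => (inferInstance : IsEmpty X).false (σ (Classical.arbitrary _))⟩
  exact ⟨fun n x => ((hE n).false x.2).elim, y, fun {m n} g x => ((hE n).false x.2).elim,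
    fun n x => ((hE n).false x).elim, fun n x => ((hE n).false x).elim⟩

end MM

end

/-! ### from `Lib_MP_33f7bb_d.C3` -/

section

/-!
# C3: realisation of finitely generated subcomplexes of `Sing X × WW`
-/

namespace MM

/-- a vector of `ℝ^k × ℝ^l` as a sequence -/
def extC {k l : ℕ} (y : (Fin k → ℝ) × (Fin l → ℝ)) : ℕ → ℝ := fun i =>
  if h : i < k then y.1 ⟨i, h⟩ else if h' : i - k < l then y.2 ⟨i - k, h'⟩ else 0

/-- clamping to the cube `[-R, R]^k` -/
def clampC (R : ℝ) {k : ℕ} (y : Fin k → ℝ) : Fin k → ℝ := fun i => max (-R) (min R (y i))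

private theorem c3_bound {j : ℕ} {n : ℕ} (g : (WW j).S n) :
    ∃ (M : ℕ) (C : ℝ), 0 ≤ C ∧ (∀ t x i, M ≤ i → (g.1 (t, x)).2 i = 0) ∧
      ∀ t x, (∀ i, |(g.1 (t, x)).1 i| ≤ C) ∧ ∀ i, |(g.1 (t, x)).2 i| ≤ C := by
  obtain ⟨S, _, _, h2⟩ := g.2.fin
  obtain ⟨C, hC⟩ := g.2.bdd
  refine ⟨S.sup _root_.id + 1, max C 0, le_max_right _ _, fun t x i hi => h2 t x i fun hiS => ?_,
    fun t x => ⟨fun i => ((hC t x).1 i).trans (le_max_left _ _),
      fun i => ((hC t x).2 i).trans (le_max_left _ _)⟩⟩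
  have := Finset.le_sup (f := _root_.id) hiS
  simp only [_root_.id] at this
  omega

private theorem c3_uniform {X : Type} [TopologicalSpace X] {j : ℕ}
    (s : Finset (Σ n, ((Sing X).prod (WW j)).S n)) :
    ∃ (l : ℕ) (C : ℝ), 0 ≤ C ∧ ∀ a ∈ s, (∀ t x i, l ≤ i → (a.2.2.1 (t, x)).2 i = 0) ∧
      ∀ t x, (∀ i, |(a.2.2.1 (t, x)).1 i| ≤ C) ∧ ∀ i, |(a.2.2.1 (t, x)).2 i| ≤ C := by
  choose M C hC hM hb using fun a : (Σ n, ((Sing X).prod (WW j)).S n) => c3_bound a.2.2
  refine ⟨s.sup M, ∑ a ∈ s, C a, Finset.sum_nonneg fun a _ => hC a, fun a ha => ⟨?_, ?_⟩⟩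
  · intro t x i hi
    exact hM a t x i ((Finset.le_sup ha).trans hi)
  · intro t x
    have hle : C a ≤ ∑ a ∈ s, C a := Finset.single_le_sum (fun b _ => hC b) ha
    exact ⟨fun i => ((hb a t x).1 i).trans hle, fun i => ((hb a t x).2 i).trans hle⟩

private theorem c3_extC_cont {k l : ℕ} : Continuous (extC (k := k) (l := l)) := by
  refine continuous_pi fun i => ?_
  unfold extC
  by_cases h : i < k
  · simp only [h, dif_pos]
    exact (continuous_apply _).comp continuous_fst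
  · by_cases h' : i - k < l
    · simp only [h, h', dif_pos, dif_neg, not_false_eq_true]
      exact (continuous_apply _).comp continuous_snd
    · simp only [h, h', dif_neg, not_false_eq_true]
      exact continuous_const

private theorem c3_clamp_cont {R : ℝ} {k : ℕ} : Continuous (clampC R (k := k)) := by
  unfold clampC
  fun_prop

private theorem c3_clamp_norm {R : ℝ} (hR : 0 ≤ R) {k : ℕ} (v : Fin k → ℝ) :
    ‖clampC R v‖ ≤ R := by
  rw [pi_norm_le_iff_of_nonneg hR]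
  intro i
  rw [Real.norm_eq_abs, abs_le]
  exact ⟨le_max_left _ _, max_le (by linarith) (min_le_left _ _)⟩

private theorem c3_clamp_eq {R : ℝ} {k : ℕ} {v : Fin k → ℝ} (h : ∀ i, |v i| ≤ R) :
    clampC R v = v := by
  funext i
  have := abs_le.1 (h i)
  unfold clampC
  rw [min_eq_right this.2, max_eq_right this.1]

/-- projection to finitely many coordinates -/
private def c3_pr (j k l : ℕ) (a : (Fin j → ℝ) × (ℕ → ℝ)) :
    (Fin j → ℝ) × (Fin k → ℝ) × (Fin l → ℝ) :=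
  (a.1, fun i => a.2 i, fun i => a.2 (k + i))

private theorem c3_pr_cont {j k l : ℕ} : Continuous (c3_pr j k l) := by
  unfold c3_pr
  fun_prop

private theorem c3_pr_norm {j k l : ℕ} {C : ℝ} (hC : 0 ≤ C) {a : (Fin j → ℝ) × (ℕ → ℝ)}
    (h1 : ∀ i, |a.1 i| ≤ C) (h2 : ∀ i, |a.2 i| ≤ C) : ‖c3_pr j k l a‖ ≤ C := by
  rw [Prod.norm_def, Prod.norm_def]
  refine max_le ?_ (max_le ?_ ?_)
  · rw [pi_norm_le_iff_of_nonneg hC]
    exact fun i => h1 i
  · rw [pi_norm_le_iff_of_nonneg hC]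
    exact fun i => h2 _
  · rw [pi_norm_le_iff_of_nonneg hC]
    exact fun i => h2 _

/-- the realisation of a simplex -/
private noncomputable def c3_r {X : Type} [TopologicalSpace X] {j : ℕ} (k l : ℕ) (R : ℝ) {n : ℕ}
    (x : ((Sing X).prod (WW j)).S n) :
    C(Dtop n, X × C(Metric.closedBall (0 : (Fin k → ℝ) × (Fin l → ℝ)) R,
      (Fin j → ℝ) × (Fin k → ℝ) × (Fin l → ℝ))) :=
  ContinuousMap.prodMk x.1 (ContinuousMap.curry
    ⟨fun p => c3_pr j k l (x.2.1 (p.1, extC p.2.1)),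
      c3_pr_cont.comp (x.2.2.cont.comp (continuous_fst.prodMk
        (c3_extC_cont.comp (continuous_subtype_val.comp continuous_snd))))⟩)

private theorem c3_r_act {X : Type} [TopologicalSpace X] {j : ℕ} (k l : ℕ) (R : ℝ) {m n : ℕ}
    (f : Mo m n) (x : ((Sing X).prod (WW j)).S n) :
    c3_r k l R (((Sing X).prod (WW j)).act f x) = (c3_r k l R x).comp (tmap f) := rfl

/-- PROOF.  Write `a = (n, (σ_a, g_a))` for the elements of `s`.  Choose `l` such that the finite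
coordinate sets of all `g_a` are contained in `{i | i < k + l}`, a bound `C ≥ 0` for all `g_a` and
`R = C + 1`.  Let `Q = closedBall 0 R ⊆ (Fin k → ℝ) × (Fin l → ℝ)` (compact),
`E = (Fin j → ℝ) × (Fin k → ℝ) × (Fin l → ℝ)`, and
`pr : (Fin j → ℝ) × (ℕ → ℝ) → E`, `pr (a, b) = (a, fun i => b i, fun i => b (k + i))` (continuous).  For a
simplex `(σ, g)` of `Sing X × WW j` of dimension `n` let
`r (σ, g) : C(Dtop n, X × C(Q, E))`, `t ↦ (σ t, y ↦ pr (g (t, extC y)))` (`ContinuousMap.curry`); it is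
natural: `r (act f (σ, g)) = (r (σ, g)).comp (tmap f)`.
`X' = ⋃ a ∈ s, range (r (σ_a, g_a))`, a compact subset of the metric space `X × C(Q, E)`;
`p = Prod.fst`, `ρ x = r x` (its range is in `X'`, because `x = act f a`).
`Φ ((x, h), v, w) = (e0 j, v, w) + h (clampC R v, clampC R w)` (the clamped vector lies in `Q`);
continuous by `ContinuousEval`.  For `x' = (σ_a t, ...)` this is the formula of the statement.
No zeros: if `(v, w) ∈ Q` then a zero gives `e0 j + (g_a (t, y)).1 = 0` and `y + (g_a (t, y)).2 = 0`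
for `y = extC (v, w)` (coordinates `i ≥ k + l`: both are `0`), excluded by `IsWW.ne`.  If
`|v i| > R` then `|v i + (g_a ..).2 i| ≥ |v i| - C > 0`, and similarly for `w`. -/
theorem realise {X : Type} [MetricSpace X] [CompactSpace X] {j : ℕ} (k : ℕ)
    (s : Finset (Σ n, ((Sing X).prod (WW j)).S n)) :
    ∃ (X' : Type) (_ : MetricSpace X') (_ : CompactSpace X') (p : C(X', X))
      (ρ : Hom (Sub.genF s).ss (Sing X')) (l : ℕ) (R : ℝ)
      (Φ : X' × (Fin k → ℝ) × (Fin l → ℝ) → (Fin j → ℝ) × (Fin k → ℝ) × (Fin l → ℝ)),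
      (∀ n (x : (Sub.genF s).ss.S n), p.comp (ρ.app n x) = x.1.1) ∧ 1 ≤ R ∧ Continuous Φ ∧
      (∀ z, Φ z ≠ 0) ∧ (∃ C : ℝ, ∀ x v w, ‖Φ (x, v, w) - (e0 j, v, w)‖ ≤ C) ∧
      ∀ x', ∃ a ∈ s, ∃ t : Dtop a.1, p x' = a.2.1 t ∧
        ∀ (v : Fin k → ℝ) (w : Fin l → ℝ), Φ (x', v, w) =
          (e0 j + (a.2.2.1 (t, extC (clampC R v, clampC R w))).1,
            fun i => v i + (a.2.2.1 (t, extC (clampC R v, clampC R w))).2 i,
            fun i => w i + (a.2.2.1 (t, extC (clampC R v, clampC R w))).2 (k + i)) := by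
  classical
  obtain ⟨l, C, hC, hs⟩ := c3_uniform s
  have hR : (0 : ℝ) ≤ C + 1 := by linarith
  -- the space
  let T : Set (X × C(Metric.closedBall (0 : (Fin k → ℝ) × (Fin l → ℝ)) (C + 1),
      (Fin j → ℝ) × (Fin k → ℝ) × (Fin l → ℝ))) :=
    ⋃ a ∈ s, Set.range (c3_r k l (C + 1) a.2)
  have hTc : IsCompact T := s.isCompact_biUnion fun a _ =>
    isCompact_range (c3_r k l (C + 1) a.2).continuous
  have hTmem : ∀ z ∈ T, ∃ a ∈ s, ∃ t : Dtop a.1, c3_r k l (C + 1) a.2 t = z := by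
    intro z hz
    obtain ⟨a, ha⟩ := Set.mem_iUnion.1 hz
    obtain ⟨ha, t, ht⟩ := Set.mem_iUnion.1 ha
    exact ⟨a, ha, t, ht⟩
  have hgen : ∀ n (x : (Sub.genF s).ss.S n) (t : Dtop n), c3_r k l (C + 1) x.1 t ∈ T := by
    rintro n ⟨x, n', f, y, hy, rfl⟩ t
    refine Set.mem_iUnion.2 ⟨⟨n', y⟩, Set.mem_iUnion.2 ⟨hy, ?_⟩⟩
    rw [c3_r_act]
    exact ⟨tmap f t, rfl⟩
  have hmem : ∀ (v : Fin k → ℝ) (w : Fin l → ℝ), (clampC (C + 1) v, clampC (C + 1) w) ∈
      Metric.closedBall (0 : (Fin k → ℝ) × (Fin l → ℝ)) (C + 1) := by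
    intro v w
    rw [mem_closedBall_zero_iff, Prod.norm_def]
    exact max_le (c3_clamp_norm hR v) (c3_clamp_norm hR w)
  let Φ : T × (Fin k → ℝ) × (Fin l → ℝ) → (Fin j → ℝ) × (Fin k → ℝ) × (Fin l → ℝ) := fun z =>
    (e0 j, z.2.1, z.2.2) + z.1.1.2 ⟨(clampC (C + 1) z.2.1, clampC (C + 1) z.2.2), hmem _ _⟩
  have hΦ : ∀ (x' : T), ∃ a ∈ s, ∃ t : Dtop a.1, x'.1.1 = a.2.1 t ∧
      ∀ (v : Fin k → ℝ) (w : Fin l → ℝ), Φ (x', v, w) = (e0 j, v, w) +
        c3_pr j k l (a.2.2.1 (t, extC (clampC (C + 1) v, clampC (C + 1) w))) := by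
    rintro ⟨x', hx'⟩
    obtain ⟨a, ha, t, rfl⟩ := hTmem x' hx'
    exact ⟨a, ha, t, rfl, fun v w => rfl⟩
  have hform : ∀ (n : ℕ) (g : (Fin j → ℝ) × (ℕ → ℝ)) (v : Fin k → ℝ) (w : Fin l → ℝ),
      (e0 j, v, w) + c3_pr j k l g = (e0 j + g.1, fun i => v i + g.2 i,
        fun i => w i + g.2 (k + i)) := fun _ _ _ _ => rfl
  refine ⟨T, inferInstance, isCompact_iff_compactSpace.1 hTc,
    ⟨fun z => z.1.1, continuous_fst.comp continuous_subtype_val⟩,
    ⟨fun n x => ⟨fun t => ⟨c3_r k l (C + 1) x.1 t, hgen n x t⟩, by fun_prop⟩, ?_⟩,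
    l, C + 1, Φ, ?_, by linarith, ?_, ?_, ⟨C, ?_⟩, ?_⟩
  · intro m n f x
    rfl
  · intro n x
    rfl
  · have hc : Continuous fun z : T × (Fin k → ℝ) × (Fin l → ℝ) =>
        (⟨(clampC (C + 1) z.2.1, clampC (C + 1) z.2.2), hmem _ _⟩ :
          Metric.closedBall (0 : (Fin k → ℝ) × (Fin l → ℝ)) (C + 1)) := by
      refine Continuous.subtype_mk ?_ _
      exact (c3_clamp_cont.comp (continuous_fst.comp continuous_snd)).prodMk
        (c3_clamp_cont.comp (continuous_snd.comp continuous_snd))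
    have hc2 : Continuous fun z : T × (Fin k → ℝ) × (Fin l → ℝ) => z.1.1.2 :=
      continuous_snd.comp (continuous_subtype_val.comp continuous_fst)
    have hc3 : Continuous fun z : T × (Fin k → ℝ) × (Fin l → ℝ) => z.1.1.2
        (⟨(clampC (C + 1) z.2.1, clampC (C + 1) z.2.2), hmem _ _⟩ :
          Metric.closedBall (0 : (Fin k → ℝ) × (Fin l → ℝ)) (C + 1)) := hc2.eval hc
    exact Continuous.add (by fun_prop) hc3
  · rintro ⟨x', v, w⟩ h0
    obtain ⟨a, ha, t, -, h1⟩ := hΦ x'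
    rw [h1, hform 0, Prod.mk_eq_zero, Prod.mk_eq_zero] at h0
    obtain ⟨h01, h02, h03⟩ := h0
    obtain ⟨hs1, hs2⟩ := hs a ha
    have hv : ∀ i, |v i| ≤ C + 1 := by
      intro i
      have h3 : v i = -_ := eq_neg_of_add_eq_zero_left (congrFun h02 i)
      rw [h3, abs_neg]
      linarith [(hs2 t (extC (clampC (C + 1) v, clampC (C + 1) w))).2 i]
    have hw : ∀ i, |w i| ≤ C + 1 := by
      intro i
      have h3 : w i = -_ := eq_neg_of_add_eq_zero_left (congrFun h03 i)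
      rw [h3, abs_neg]
      linarith [(hs2 t (extC (clampC (C + 1) v, clampC (C + 1) w))).2 (k + i)]
    rw [c3_clamp_eq hv, c3_clamp_eq hw] at h01 h02 h03
    refine a.2.2.2.ne t (extC (v, w)) ⟨h01, ?_⟩
    funext i
    show extC (v, w) i + (a.2.2.1 (t, extC (v, w))).2 i = 0
    by_cases hik : i < k
    · have h4 : extC (v, w) i = v ⟨i, hik⟩ := by simp [extC, hik]
      rw [h4]
      exact congrFun h02 ⟨i, hik⟩
    · by_cases hil : i - k < l
      · have h4 : extC (v, w) i = w ⟨i - k, hil⟩ := by simp [extC, hik, hil]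
        rw [h4]
        have h5 := congrFun h03 ⟨i - k, hil⟩
        have h6 : k + (i - k) = i := by omega
        simp only [h6] at h5
        exact h5
      · have h4 : extC (v, w) i = 0 := by simp [extC, hik, hil]
        rw [h4, hs1 t _ i (by omega), add_zero]
  · intro x' v w
    obtain ⟨a, ha, t, -, h1⟩ := hΦ x'
    rw [h1, add_sub_cancel_left]
    obtain ⟨hs1, hs2⟩ := hs a ha
    exact c3_pr_norm hC (hs2 _ _).1 (hs2 _ _).2
  · intro x'
    obtain ⟨a, ha, t, h0, h1⟩ := hΦ x'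
    exact ⟨a, ha, t, h0, fun v w => (h1 v w).trans (hform 0 _ v w)⟩

end MM

end

/-! ### from `Lib_MP_33f7bb_d.C4` -/

section

/-!
# C4: one step
-/

namespace MM

/-- the perturbation given by the task map -/
private noncomputable def C4g {X : Type} [TopologicalSpace X] {j k : ℕ}
    (φ : X × (Fin k → ℝ) → (Fin j → ℝ) × (Fin k → ℝ)) {n : ℕ} (σ : C(Dtop n, X)) :
    Dtop n × (ℕ → ℝ) → (Fin j → ℝ) × (ℕ → ℝ) := fun p =>
  ((φ (σ p.1, fun i : Fin k => p.2 i)).1 - e0 j,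
    fun i => if hi : i < k then (φ (σ p.1, fun i : Fin k => p.2 i)).2 ⟨i, hi⟩ - p.2 i else 0)

private theorem C4_bdd {X : Type} [MetricSpace X] [CompactSpace X] {j k : ℕ}
    {A : Set X} {φ : X × (Fin k → ℝ) → (Fin j → ℝ) × (Fin k → ℝ)} (h : IsTask j k A φ) :
    ∃ C : ℝ, 0 ≤ C ∧ ∀ x v, ‖(φ (x, v)).1 - e0 j‖ ≤ C ∧ ‖(φ (x, v)).2 - v‖ ≤ C := by
  have hK : IsCompact ((Set.univ : Set X) ×ˢ Metric.closedBall (0 : Fin k → ℝ) 1) :=
    isCompact_univ.prod (isCompact_closedBall 0 1)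
  have hc1 : Continuous fun p : X × (Fin k → ℝ) => (φ p).1 - e0 j :=
    (continuous_fst.comp h.cont).sub continuous_const
  have hc2 : Continuous fun p : X × (Fin k → ℝ) => (φ p).2 - p.2 :=
    (continuous_snd.comp h.cont).sub continuous_snd
  obtain ⟨C1, hC1⟩ := hK.exists_bound_of_continuousOn hc1.continuousOn
  obtain ⟨C2, hC2⟩ := hK.exists_bound_of_continuousOn hc2.continuousOn
  refine ⟨max 0 (max C1 C2), le_max_left _ _, fun x v => ?_⟩
  by_cases hv : ‖v‖ ≤ 1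
  · have hm : (x, v) ∈ (Set.univ : Set X) ×ˢ Metric.closedBall (0 : Fin k → ℝ) 1 :=
      ⟨trivial, mem_closedBall_zero_iff.2 hv⟩
    exact ⟨(hC1 _ hm).trans ((le_max_left _ _).trans (le_max_right _ _)),
      (hC2 _ hm).trans ((le_max_right _ _).trans (le_max_right _ _))⟩
  · rw [h.triv x v (not_le.1 hv).le]
    simp

private theorem C4_isWW {X : Type} [MetricSpace X] [CompactSpace X] {j k : ℕ}
    {A : Set X} {φ : X × (Fin k → ℝ) → (Fin j → ℝ) × (Fin k → ℝ)} (h : IsTask j k A φ)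
    {U : Set X} (hU : ∀ x ∈ U, ∀ t, φ (x, t) ≠ 0) {n : ℕ} (σ : C(Dtop n, X)) (hσ : ∀ t, σ t ∈ U) :
    IsWW j Set.univ (C4g φ σ) := by
  have hr : Continuous fun p : Dtop n × (ℕ → ℝ) => φ (σ p.1, fun i : Fin k => p.2 i) := by
    refine h.cont.comp ((σ.continuous.comp continuous_fst).prodMk ?_)
    exact continuous_pi fun i => (continuous_apply (i : ℕ)).comp continuous_snd
  refine ⟨?_, ⟨Finset.range k, Set.subset_univ _, ?_, ?_⟩, ?_, ?_⟩
  · refine ((continuous_fst.comp hr).sub continuous_const).prodMk (continuous_pi fun i => ?_)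
    by_cases hi : i < k
    · simp only [dif_pos hi]
      exact ((continuous_apply (⟨i, hi⟩ : Fin k)).comp (continuous_snd.comp hr)).sub
        ((continuous_apply i).comp continuous_snd)
    · simp only [dif_neg hi]
      exact continuous_const
  · intro t x y hxy
    have h1 : (fun i : Fin k => x i) = fun i : Fin k => y i :=
      funext fun i => hxy i (Finset.mem_range.2 i.2)
    simp only [C4g]
    rw [h1]
    congr 1
    funext i
    split_ifs with hi
    · rw [hxy i (Finset.mem_range.2 hi)]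
    · rfl
  · intro t x i hi
    have h1 : ¬ i < k := fun h2 => hi (Finset.mem_range.2 h2)
    simp only [C4g, dif_neg h1]
  · obtain ⟨C, hC0, hC⟩ := C4_bdd h
    refine ⟨C, fun t x => ⟨fun i => ?_, fun i => ?_⟩⟩
    · exact (norm_le_pi_norm ((φ (σ t, fun i : Fin k => x i)).1 - e0 j) i).trans (hC _ _).1
    · simp only [C4g]
      split_ifs with hi
      · exact (norm_le_pi_norm ((φ (σ t, fun i : Fin k => x i)).2 - fun i : Fin k => x i) ⟨i, hi⟩).trans
          (hC _ _).2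
      · rw [abs_zero]
        exact hC0
  · rintro t x ⟨h1, h2⟩
    apply hU (σ t) (hσ t) (fun i : Fin k => x i)
    apply Prod.ext
    · simp only [C4g] at h1
      rw [add_sub_cancel] at h1
      exact h1
    · funext i
      have h3 := congrFun h2 (i : ℕ)
      simp only [C4g, Pi.add_apply, dif_pos i.2, Pi.zero_apply, Fin.eta] at h3
      rw [add_sub_cancel] at h3
      exact h3

/-- The simplices of `WW` given by a task map.

PROOF.  For `σ ∈ SingIn U` the function `g (t, y)` of the statement satisfies `IsWW j univ`: the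
coordinate set is `{i | i < k}`; it is bounded because `φ (x, v) - (e0, v)` is bounded (it vanishes
for `‖v‖ ≥ 1` and `X × closedBall 0 1` is compact); a zero of `(e0, y) + g (t, y)` gives
`φ (σ t, y|k) = 0`.  Put `γ n σ = ⟨g, _⟩` for `σ ∈ SingIn U` and a constant (`WW0`) otherwise. -/
theorem exists_gamma {X : Type} [MetricSpace X] [CompactSpace X] {j k : ℕ} (hj : 1 ≤ j)
    {A : Set X} {φ : X × (Fin k → ℝ) → (Fin j → ℝ) × (Fin k → ℝ)} (h : IsTask j k A φ)
    {U : Set X} (hU : ∀ x ∈ U, ∀ t, φ (x, t) ≠ 0) :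
    ∃ γ : Fn (Sing X) (WW j), NatOn (SingIn U) γ ∧
      ∀ (n : ℕ) (σ : C(Dtop n, X)), σ ∈ (SingIn U).car n → ∀ (t : Dtop n) (y : ℕ → ℝ),
        (γ n σ).1 (t, y) = ((φ (σ t, fun i : Fin k => y i)).1 - e0 j,
          fun i => if hi : i < k then (φ (σ t, fun i : Fin k => y i)).2 ⟨i, hi⟩ - y i else 0) := by
  classical
  refine ⟨fun n (σ : C(Dtop n, X)) => if hσ : ∀ t, σ t ∈ U then ⟨C4g φ σ, C4_isWW h hU σ hσ⟩
    else (WW j).deg (WW0 j hj) n, ?_, ?_⟩
  · intro m n f σ hσ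
    have h1 : ∀ t, (σ : C(Dtop n, X)) t ∈ U := hσ
    have h2 : ∀ t, ((Sing X).act f σ : C(Dtop m, X)) t ∈ U := fun t => h1 (tmap f t)
    simp only [dif_pos h1, dif_pos h2]
    rfl
  · intro n σ hσ t y
    have h1 : ∀ t, σ t ∈ U := hσ
    simp only [dif_pos h1]
    rfl

/-- One step: an essential state has an essential extension on which a given task is solved.

PROOF.  `U = {x | ∀ t, φ (x, t) ≠ 0}` is open (zeros have `‖t‖ ≤ 1`; projection along the compact
ball) and contains `A`.  Urysohn: `s : C(X, ℝ)`, `s = 0` on `A`, `s = 1` on `Uᶜ`.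
`X₁ = {x | 1/3 ≤ s x}`, `X₂ = {x | s x ≤ 2/3}`; their interiors cover `X`, `X₁ ∩ A = ∅`, `X₂ ⊆ U`.
Take `γ` from `exists_gamma` for `X₂`, `S₁ = SingIn X₁`, `S₂ = SingIn X₂`, `κ' = κ.comp (Sing.map q)`.
`κ'` is not null on `S₁ ⊔ S₂` (`null_of_acyc`, `hS`), hence `κ' ∘ pr₁` is not null on
`EEc S₁ S₂ γ` (`nullOn_sup`, `hW`), hence not null on `Sub.genF s` for some finite set `s` of
simplices of `EEc` (`nullOn_of_fin`).  Take `X', p, ρ, l, R, Φ` from `realise`.  If
`κ.comp (Sing.map (q.comp p))` were null then `κ' ∘ pr₁` would be null on `Sub.genF s`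
(`nullOn_pull`).
`Solved p A φ`: let `p x' ∈ A` and let `a = (n, (σ, g)) ∈ s`, `t` be as in `realise`.  `σ` is not in
`SingIn X₁` because `σ t = p x' ∈ A`; so `g = γ σ`, `σ ∈ SingIn X₂`.  For `v, w` let
`v' = clampC R v`; `extC (v', _)` restricted to the first `k` coordinates is `v'`, so
`Φ (x', v, w) = ((φ (x, v')).1, v + ((φ (x, v')).2 - v'), w)`, `x = p x'`.  If `‖v‖ ≤ R` then `v' = v`.
If `‖v‖ > R ≥ 1` then `‖v'‖ ≥ 1`, and `φ (x, v') = (e0, v')`, `φ (x, v) = (e0, v)`.  In both cases the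
value is `((φ (x, v)).1, (φ (x, v)).2, w)`. -/
theorem one_step {Y : SS} [∀ n, TopologicalSpace (Y.S n)] (hY : IsTarget Y) {N : ℕ}
    (κ : Hom (Sing (Sph N)) Y) {X : Type} [MetricSpace X] [CompactSpace X] (q : C(X, Sph N))
    (hq : ¬ Null (κ.comp (Sing.map q))) {j k : ℕ} (hj : 1 ≤ j)
    (hW : Good Y (Sub.pt (WW0 j hj)) (⊤ : Sub (WW j)))
    (hS : ∀ X₁ X₂ : Set X, interior X₁ ∪ interior X₂ = Set.univ →
      Acyc (SingIn X₁ ⊔ SingIn X₂) (⊤ : Sub (Sing X)))
    {A : Set X} {φ : X × (Fin k → ℝ) → (Fin j → ℝ) × (Fin k → ℝ)} (h : IsTask j k A φ) :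
    ∃ (X' : Type) (_ : MetricSpace X') (_ : CompactSpace X') (p : C(X', X)),
      ¬ Null (κ.comp (Sing.map (q.comp p))) ∧ Solved p A φ := by
  classical
  -- the open set where there are no zeros
  set U : Set X := {x | ∀ t, φ (x, t) ≠ 0} with hUdef
  have hUo : IsOpen U := by
    rw [← isClosed_compl_iff]
    have h1 : Uᶜ = Prod.fst '' ((Set.univ ×ˢ Metric.closedBall (0 : Fin k → ℝ) 1) ∩ φ ⁻¹' {0}) := by
      ext x
      constructor
      · intro hx
        have hx' : ∃ t, φ (x, t) = 0 := by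
          by_contra h2
          exact hx fun t h3 => h2 ⟨t, h3⟩
        obtain ⟨t, ht⟩ := hx'
        refine ⟨(x, t), ⟨⟨trivial, mem_closedBall_zero_iff.2 ?_⟩, ht⟩, rfl⟩
        by_contra h2
        have h3 := (not_le.1 h2).le
        rw [h.triv x t h3] at ht
        have h4 : t = 0 := (Prod.mk.inj ht).2
        rw [h4, norm_zero] at h2
        exact h2 zero_le_one
      · rintro ⟨⟨x', t⟩, ⟨-, ht⟩, rfl⟩ hx
        exact hx t ht
    rw [h1]
    have h2 : IsCompact ((Set.univ ×ˢ Metric.closedBall (0 : Fin k → ℝ) 1) ∩ φ ⁻¹' {0}) :=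
      (isCompact_univ.prod (isCompact_closedBall 0 1)).inter_right (isClosed_singleton.preimage h.cont)
    exact (h2.image continuous_fst).isClosed
  have hAU : A ⊆ U := fun x hx t => h.ne x hx t
  obtain ⟨s, hs0, hs1, -⟩ := exists_continuous_zero_one_of_isClosed h.closed hUo.isClosed_compl
    (Set.disjoint_left.2 fun x hx hx' => hx' (hAU hx))
  set X₁ : Set X := {x | 1 / 3 ≤ s x} with hX₁
  set X₂ : Set X := {x | s x ≤ 2 / 3} with hX₂
  have hint : interior X₁ ∪ interior X₂ = Set.univ := by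
    rw [Set.eq_univ_iff_forall]
    intro x
    rcases lt_or_ge (1 / 3 : ℝ) (s x) with h1 | h1
    · left
      have h2 : {y | (1 / 3 : ℝ) < s y} ⊆ interior X₁ :=
        interior_maximal (fun y (hy : (1 / 3 : ℝ) < s y) => le_of_lt hy) (isOpen_lt continuous_const s.continuous)
      exact h2 h1
    · right
      have h2 : {y | s y < (2 / 3 : ℝ)} ⊆ interior X₂ :=
        interior_maximal (fun y (hy : s y < (2 / 3 : ℝ)) => le_of_lt hy) (isOpen_lt s.continuous continuous_const)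
      exact h2 (show s x < 2 / 3 by linarith)
  have hX₂U : ∀ x ∈ X₂, ∀ t, φ (x, t) ≠ 0 := by
    intro x hx
    by_contra h1
    have h2 : s x = 1 := hs1 (show x ∈ Uᶜ from h1)
    have h3 : s x ≤ 2 / 3 := hx
    linarith
  obtain ⟨γ, hγ, hγv⟩ := exists_gamma hj h hX₂U
  have h1 : ¬ NullOn (SingIn X₁ ⊔ SingIn X₂) (κ.comp (Sing.map q)).app :=
    fun h1 => hq (null_of_acyc hY (hS X₁ X₂ hint) _ h1)
  have h2 : ¬ NullOn (EEc (SingIn X₁) (SingIn X₂) γ hγ)
      (fun n x => (κ.comp (Sing.map q)).app n x.1) :=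
    fun h2 => h1 (nullOn_sup hY hW _ _ γ hγ _ h2)
  have h3 : ∃ s : Finset (Σ n, ((Sing X).prod (WW j)).S n),
      (∀ x ∈ s, x.2 ∈ (EEc (SingIn X₁) (SingIn X₂) γ hγ).car x.1) ∧
      ¬ NullOn (Sub.genF s) (fun n x => (κ.comp (Sing.map q)).app n x.1) := by
    by_contra h3
    push Not at h3
    exact h2 (nullOn_of_fin hY _ _ h3)
  obtain ⟨F, hF, hFn⟩ := h3
  obtain ⟨X', i1, i2, p, ρ, l, R, Φ, hρ, hR, hΦc, hΦ0, hΦb, hΦ⟩ := realise (X := X) (j := j) k F
  refine ⟨X', i1, i2, p, ?_, l, Φ, hΦc, hΦ0, hΦb, ?_⟩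
  · intro hn
    refine hFn (nullOn_pull (Sub.genF F) ρ _ hn _ ?_)
    intro n x
    have h4 := hρ n x
    show κ.app n (q.comp x.1.1) = κ.app n ((q.comp p).comp (ρ.app n x))
    rw [← h4]
    rfl
  · intro x' v w hA
    obtain ⟨a, ha, t, hpt, hval⟩ := hΦ x'
    have h4 := hF a ha
    have h5 : a.2.1 ∈ (SingIn X₂).car a.1 ∧ a.2.2 = γ a.1 a.2.1 := by
      rcases h4 with h4 | h4
      · exfalso
        have h5 : 1 / 3 ≤ s (a.2.1 t) := h4 t
        rw [← hpt] at h5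
        have h6 : s (p x') = 0 := hs0 hA
        rw [h6] at h5
        norm_num at h5
      · exact h4
    have h6 := hγv a.1 a.2.1 h5.1 t (extC (clampC R v, clampC R w))
    rw [← h5.2, ← hpt] at h6
    have h7 : (fun i : Fin k => extC (clampC R v, clampC R w) i) = clampC R v := by
      funext i
      simp [extC]
    rw [h7] at h6
    rw [hval v w, h6]
    have h8 : Φ (x', v, w) = ((φ (p x', clampC R v)).1,
        fun i => v i + ((φ (p x', clampC R v)).2 i - clampC R v i), w) := by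
      rw [hval v w, h6]
      refine Prod.ext ?_ (Prod.ext ?_ ?_)
      · show e0 j + ((φ (p x', clampC R v)).1 - e0 j) = _
        abel
      · funext i
        have h9 := congrFun h7 i
        simp only [dif_pos i.2, Fin.eta, h9]
      · funext i
        have h9 : ¬ k + (i : ℕ) < k := by omega
        simp only [dif_neg h9, add_zero]
    rw [← h6, ← hval v w, h8]
    by_cases hv : ‖v‖ ≤ R
    · have h9 : clampC R v = v := by
        funext i
        have h10 := (norm_le_pi_norm v i).trans hv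
        rw [Real.norm_eq_abs, abs_le] at h10
        simp only [clampC]
        rw [min_eq_right h10.2, max_eq_right h10.1]
      rw [h9]
      refine Prod.ext rfl (Prod.ext ?_ rfl)
      funext i
      show v i + ((φ (p x', v)).2 i - v i) = (φ (p x', v)).2 i
      ring
    · have h9 : 1 ≤ ‖v‖ := hR.trans (not_le.1 hv).le
      have h10 : 1 ≤ ‖clampC R v‖ := by
        have h11 : ∃ i, R < ‖v i‖ := by
          by_contra h12
          push Not at h12
          exact hv ((pi_norm_le_iff_of_nonneg (by linarith)).2 h12)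
        obtain ⟨i, hi⟩ := h11
        refine hR.trans (le_trans ?_ (norm_le_pi_norm (clampC R v) i))
        rw [Real.norm_eq_abs] at hi ⊢
        simp only [clampC]
        rcases lt_abs.1 hi with h12 | h12
        · rw [min_eq_left h12.le, max_eq_right (by linarith)]
          exact le_abs_self R
        · rw [min_eq_right (by linarith), max_eq_left (by linarith), abs_neg]
          exact le_abs_self R
      rw [h.triv _ _ h9, h.triv _ _ h10]
      refine Prod.ext rfl (Prod.ext ?_ rfl)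
      funext i
      show v i + (clampC R v i - clampC R v i) = v i
      ring

end MM

end

/-! ### from `Lib_MP_33f7bb_d.S6A` -/

section

/-!
# S6A: complexes of faces of the simplex

* `yoT n : Δ^n → Sing Δ_n`, injective.
* `cxS K`, `cxT K`: combinatorial and topological subcomplex given by a family `K` of faces.
* `acyc_face`: `(Sing |F|, F)` is acyclic for a nonempty face `F`.
-/

namespace MM

/-- the simplicial set `Δ^n` in the singular set of `Δ_n` -/
noncomputable def yoT (n : ℕ) : Hom (Del n) (Sing (Dtop n)) :=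
  ⟨fun _ θ => tmap θ, fun {m k} f θ => by
    refine ContinuousMap.ext fun t => ?_
    show tmap (θ.comp f) t = tmap θ (tmap f t)
    rw [tmap_comp]⟩

theorem yoT_app {n m : ℕ} (θ : Mo m n) : (yoT n).app m θ = tmap θ := rfl

theorem yoT_inj {n m : ℕ} {θ θ' : Mo m n} (h : (yoT n).app m θ = (yoT n).app m θ') : θ = θ' := by
  refine OrderHom.ext _ _ (funext fun i => ?_)
  have h1 : tmap θ (vtx i) = tmap θ' (vtx i) := by
    have := congrArg (fun σ : C(Dtop m, Dtop n) => σ (vtx i)) h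
    exact this
  rw [tmap_vtx, tmap_vtx] at h1
  have h2 := congrArg (fun x : Dtop n => x.1 (θ i)) h1
  simp only [vtx_apply] at h2
  by_contra hne
  rw [if_true, if_neg hne] at h2
  exact one_ne_zero h2

/-- combinatorial complex -/
def cxS {n : ℕ} (K : Finset (Finset (Fin (n + 1)))) : Sub (Del n) :=
  ⟨fun _ => {θ | ∃ F ∈ K, ∀ i, θ i ∈ F}, fun {m k} f x h => by
    obtain ⟨F, hF, h⟩ := h
    exact ⟨F, hF, fun i => h (f i)⟩⟩

/-- topological complex -/
def cxT {n : ℕ} (K : Finset (Finset (Fin (n + 1)))) : Set (Dtop n) :=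
  {x | ∃ F ∈ K, ∀ i, i ∉ F → x.1 i = 0}

theorem tmap_pos {n m : ℕ} (θ : Mo m n) (i : Fin (m + 1)) :
    0 < (tmap θ (stdSimplex.barycenter : Dtop m)).1 (θ i) := by
  rw [tmap_apply]
  refine Finset.sum_pos' (fun k _ => ?_) ⟨i, Finset.mem_univ _, ?_⟩
  · split_ifs
    · exact Dtop_nonneg _ _
    · exact le_rfl
  · rw [if_pos rfl]
    show 0 < ((Fintype.card (Fin (m + 1)) : ℝ))⁻¹
    positivity

theorem tmap_supp {n m : ℕ} (θ : Mo m n) (t : Dtop m) (F : Finset (Fin (n + 1)))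
    (h : ∀ i, θ i ∈ F) (j : Fin (n + 1)) (hj : j ∉ F) : (tmap θ t).1 j = 0 := by
  rw [tmap_apply]
  refine Finset.sum_eq_zero fun i _ => if_neg fun h2 => hj ?_
  rw [← h2]
  exact h i

theorem map_cxS_le {n : ℕ} (K : Finset (Finset (Fin (n + 1)))) :
    (cxS K).map (yoT n) ≤ SingIn (cxT K) := by
  rintro m σ ⟨θ, ⟨F, hF, h⟩, rfl⟩ t
  exact ⟨F, hF, tmap_supp θ t F h⟩

/-- a simplex of `Δ^n` with all points in `|K|` lies in `K` -/
theorem mem_cxS_of_bary {n m : ℕ} (K : Finset (Finset (Fin (n + 1)))) (θ : Mo m n)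
    (h : tmap θ (stdSimplex.barycenter : Dtop m) ∈ cxT K) : θ ∈ (cxS K).car m := by
  obtain ⟨F, hF, h⟩ := h
  refine ⟨F, hF, fun i => ?_⟩
  by_contra hi
  exact (tmap_pos θ i).ne' (h _ hi)

theorem map_mem_iff {n m : ℕ} (A : Sub (Del n)) (θ : Mo m n) :
    (yoT n).app m θ ∈ (A.map (yoT n)).car m ↔ θ ∈ A.car m := by
  constructor
  · rintro ⟨θ', h, h2⟩
    rwa [← yoT_inj h2]
  · intro h
    exact ⟨θ, h, rfl⟩

/-- acyclic pairs of complexes are acyclic in the singular set -/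
theorem acyc_map_yoT {n : ℕ} {A C : Sub (Del n)} (hA : A ≤ C) (h : Acyc A C) :
    Acyc (A.map (yoT n)) (C.map (yoT n)) := by
  refine (acyc_relIso (yoT n) hA ?_ ?_ ?_ ?_ ?_).1 h
  · rintro m σ ⟨θ, hθ, rfl⟩
    exact ⟨θ, hA m hθ, rfl⟩
  · exact fun m θ hθ => ⟨θ, hθ, rfl⟩
  · exact fun m θ _ => map_mem_iff A θ
  · exact fun m θ _ θ' _ _ _ h2 => yoT_inj h2
  · rintro m σ ⟨θ, hθ, rfl⟩ _
    exact ⟨θ, hθ, rfl⟩

/-- contraction of `Δ^n` to the vertex `v` along the vertices `≥ v` -/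
def minH {n : ℕ} (v : Fin (n + 1)) : Hom ((Del 1).prod (Del n)) (Del n) :=
  ⟨fun m x => ⟨fun i => if x.1 i = 0 then min v (x.2 i) else x.2 i, fun i j hij => by
      show (if x.1 i = 0 then min v (x.2 i) else x.2 i) ≤
        (if x.1 j = 0 then min v (x.2 j) else x.2 j)
      have h1 := x.1.monotone hij
      have h2 := x.2.monotone hij
      split_ifs with h3 h4 h4
      · exact min_le_min le_rfl h2
      · exact (min_le_right _ _).trans h2
      · exact absurd (le_antisymm (h4 ▸ h1) (Fin.zero_le _)) h3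
      · exact h2⟩, fun f x => rfl⟩

theorem acyc_face_comb {n : ℕ} (F : Finset (Fin (n + 1))) (hF : F.Nonempty) :
    Acyc (Sub.pt (P := Del n) (cst (F.min' hF) : Mo 0 n)) (cxS {F}) := by
  have hle : Sub.pt (P := Del n) (cst (F.min' hF) : Mo 0 n) ≤ cxS {F} := by
    rintro m θ h
    refine ⟨F, Finset.mem_singleton_self F, fun i => ?_⟩
    have : θ = (cst (F.min' hF) : Mo m n) := h
    rw [this]
    exact F.min'_mem hF
  refine acyc_of_deformation' hle (minH (F.min' hF)) (fun m θ _ => ?_) (fun m θ h => ?_)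
    (fun m a θ h => ?_) (fun m a θ h => ?_)
  · refine OrderHom.ext _ _ (funext fun i => ?_)
    show (if (cst 1 : Mo m 1) i = 0 then min (F.min' hF) (θ i) else θ i) = θ i
    exact if_neg (show ¬ (1 : Fin 2) = 0 by decide)
  · obtain ⟨G, hG, h⟩ := h
    rw [Finset.mem_singleton] at hG
    subst hG
    refine OrderHom.ext _ _ (funext fun i => ?_)
    show (if (cst 0 : Mo m 1) i = 0 then min (G.min' hF) (θ i) else θ i) = G.min' hF
    rw [if_pos (show (cst 0 : Mo m 1) i = 0 from rfl)]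
    exact min_eq_left (G.min'_le _ (h i))
  · obtain ⟨G, hG, h⟩ := h
    rw [Finset.mem_singleton] at hG
    subst hG
    refine ⟨G, Finset.mem_singleton_self G, fun i => ?_⟩
    show (if a i = 0 then min (G.min' hF) (θ i) else θ i) ∈ G
    split_ifs
    · rw [min_eq_left (G.min'_le _ (h i))]
      exact G.min'_mem hF
    · exact h i
  · have h2 : θ = (cst (F.min' hF) : Mo m n) := h
    subst h2
    refine OrderHom.ext _ _ (funext fun i => ?_)
    show (if a i = 0 then min (F.min' hF) (F.min' hF) else F.min' hF) = F.min' hF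
    rw [min_self, ite_self]

/-- straight line contraction of `Δ_n` to the vertex `v` -/
noncomputable def lineH {n : ℕ} (v : Fin (n + 1)) : C(Dtop 1 × Dtop n, Dtop n) :=
  ⟨fun p => ⟨fun j => (1 - p.1.1 1) * p.2.1 j + p.1.1 1 * (vtx v : Dtop n).1 j, by
      have h0 := Dtop_nonneg p.1 1
      have h1 := Dtop_le p.1 1
      refine ⟨fun j => add_nonneg (mul_nonneg (by linarith) (p.2.2.1 j))
        (mul_nonneg h0 ((vtx v : Dtop n).2.1 j)), ?_⟩
      rw [Finset.sum_add_distrib, ← Finset.mul_sum, ← Finset.mul_sum, p.2.2.2,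
        (vtx v : Dtop n).2.2]
      ring⟩, by
    refine Continuous.subtype_mk ?_ _
    refine continuous_pi fun j => ?_
    have c1 : Continuous fun p : Dtop 1 × Dtop n => p.1.1 1 :=
      (continuous_apply (1 : Fin 2)).comp (continuous_subtype_val.comp continuous_fst)
    have c2 : Continuous fun p : Dtop 1 × Dtop n => p.2.1 j :=
      (continuous_apply j).comp (continuous_subtype_val.comp continuous_snd)
    exact ((continuous_const.sub c1).mul c2).add (c1.mul continuous_const)⟩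

theorem lineH_apply {n : ℕ} (v : Fin (n + 1)) (s : Dtop 1) (x : Dtop n) (j : Fin (n + 1)) :
    (lineH v (s, x)).1 j = (1 - s.1 1) * x.1 j + s.1 1 * (vtx v : Dtop n).1 j := rfl

theorem acyc_face_top {n : ℕ} (F : Finset (Fin (n + 1))) (v : Fin (n + 1)) (hv : v ∈ F) :
    Acyc (Sub.pt (P := Sing (Dtop n)) (tmap (cst v : Mo 0 n))) (SingIn (cxT {F})) := by
  have hpt : ∀ m (σ : C(Dtop m, Dtop n)), (∀ t, σ t = vtx v) ↔
      σ ∈ (Sub.pt (P := Sing (Dtop n)) (tmap (cst v : Mo 0 n))).car m := by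
    intro m σ
    have e : (Sing (Dtop n)).deg (tmap (cst v : Mo 0 n)) m = tmap (cst v : Mo m n) := by
      refine ContinuousMap.ext fun t => ?_
      show tmap (cst v : Mo 0 n) (tmap (cst 0 : Mo m 0) t) = _
      rw [tmap_comp]
      rfl
    constructor
    · intro h
      show σ = _
      rw [e]
      refine ContinuousMap.ext fun t => ?_
      rw [tmap_cst]
      exact h t
    · intro h t
      have h2 : σ = _ := h
      rw [h2, e, tmap_cst]
  have hle : Sub.pt (P := Sing (Dtop n)) (tmap (cst v : Mo 0 n)) ≤ SingIn (cxT {F}) := by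
    intro m σ h t
    rw [(hpt m σ).2 h t]
    refine ⟨F, Finset.mem_singleton_self F, fun i hi => ?_⟩
    rw [vtx_apply, if_neg]
    rintro rfl
    exact hi hv
  refine acyc_of_deformation hle (singHtpy (lineH v)) (fun m σ _ => ?_) (fun m σ h => ?_)
    (fun m a σ h t => ?_) (fun m a σ h => ?_)
  · refine ContinuousMap.ext fun t => ?_
    rw [singHtpy_cst]
    refine Subtype.ext (funext fun j => ?_)
    rw [lineH_apply, vtx_apply, if_neg (by decide : ¬ (1 : Fin 2) = 0)]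
    ring
  · refine (hpt m _).1 fun t => ?_
    rw [singHtpy_cst]
    refine Subtype.ext (funext fun j => ?_)
    rw [lineH_apply, vtx_apply, if_pos rfl]
    ring
  · obtain ⟨G, hG, h2⟩ := h t
    rw [Finset.mem_singleton] at hG
    subst hG
    refine ⟨G, Finset.mem_singleton_self G, fun i hi => ?_⟩
    rw [singHtpy_apply, lineH_apply, h2 i hi, vtx_apply, if_neg]
    · ring
    · rintro rfl
      exact hi hv
  · refine (hpt m _).1 fun t => ?_
    rw [singHtpy_apply, (hpt m σ).2 h t]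
    refine Subtype.ext (funext fun j => ?_)
    rw [lineH_apply]
    ring

theorem acyc_face {n : ℕ} (F : Finset (Fin (n + 1))) (hF : F.Nonempty) :
    Acyc ((cxS {F}).map (yoT n)) (SingIn (cxT {F})) := by
  have hv := F.min'_mem hF
  set v := F.min' hF with hvd
  have h1 := acyc_face_comb F hF
  rw [← hvd] at h1
  have hle : Sub.pt (P := Del n) (cst v : Mo 0 n) ≤ cxS {F} := by
    rintro m θ h
    refine ⟨F, Finset.mem_singleton_self F, fun i => ?_⟩
    have : θ = (cst v : Mo m n) := h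
    rw [this]
    exact hv
  have h2 := acyc_map_yoT hle h1
  have e : (Sub.pt (P := Del n) (cst v : Mo 0 n)).map (yoT n) =
      Sub.pt (P := Sing (Dtop n)) (tmap (cst v : Mo 0 n)) := by
    apply Sub.ext
    funext m
    ext σ
    have e1 : (Sing (Dtop n)).deg (tmap (cst v : Mo 0 n)) m = tmap (cst v : Mo m n) := by
      refine ContinuousMap.ext fun t => ?_
      show tmap (cst v : Mo 0 n) (tmap (cst 0 : Mo m 0) t) = _
      rw [tmap_comp]
      rfl
    constructor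
    · rintro ⟨θ, hθ, rfl⟩
      have hθ' : θ = (cst v : Mo m n) := hθ
      subst hθ'
      show tmap _ = _
      rw [e1]
    · intro h
      have h' : σ = _ := h
      rw [h', e1]
      exact ⟨(cst v : Mo m n), rfl, rfl⟩
  rw [e] at h2
  refine Acyc.of_left ?_ (map_cxS_le _) h2 (acyc_face_top F v hv)
  rw [← e]
  rintro m σ ⟨θ, hθ, rfl⟩
  exact ⟨θ, hle m hθ, rfl⟩

end MM

end
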