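import Pool.Agent.Lib_MP_33f7bb_m.G02
import Pool.Agent.Lib_MP_33f7bb_m.G06

/-!
# MP_33f7bb_an, negative answer to Q1: merged library part G11

Concatenation of files of `Lib_MP_33f7bb_an` and `Lib_MP_33f7bb_d` (each in its own section), only to save build time.
-/

/-! ### from `Lib_MP_33f7bb_d.A011` -/

section

/-!
# A0-11: highly connected simplicial vector spaces are homotopy equivalent to ones which vanish in
low levels

`extL` for `D n = (Mo n 1 →₀ Q n)` and `C = {0} ⊗ Q + {1} ⊗ S`, `S = sk_m Q` = the sub simplicial vector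
space generated by the levels `≤ m` (`S n` = span of all `act s y`, `s : Mo n k`, `k ≤ m`), with `f` =
identity on `{0} ⊗ Q` and `0` on `{1} ⊗ S`.  Let `z ∈ D (n+1)`, `d z = (c_0, c_1)`, `c_0 ∈ Q n`, `c_1 ∈ S n`.
The sum over all simplices of `Δ^1` of the components of `z` has boundary `c_0 + c_1`, so it suffices that
`c_1` is a boundary of `Q`; `c_1` is a cycle (`d d z = 0`, component at the constant simplex `1`; for
`n = 0` nothing to show).  If `n ≤ m` use the hypothesis.  If `n > m`: `c_1 ∈ S n` is a cycle of the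
simplicial vector space `S`, all of whose elements of level `n` are degenerate; by `exists_moore` (in `S`)
it is homologous to a Moore cycle in `S n`, which is a sum of degenerate elements with all faces zero,
hence 0 (a sum of degenerate elements all of whose faces vanish is 0: `NM n ∩ degenerate = 0`, Dold-Kan).
-/

namespace MM

/-- faces indexed by natural numbers (zero out of range) -/
private noncomputable def fcA011 (W : SV) (n j : ℕ) : W.V (n + 1) →ₗ[ZMod 2] W.V n :=
  if h : j < n + 2 then W.act (dlt ⟨j, h⟩) else 0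

/-- degeneracies indexed by natural numbers (zero out of range) -/
private noncomputable def dgA011 (W : SV) (n k : ℕ) : W.V n →ₗ[ZMod 2] W.V (n + 1) :=
  if h : k < n + 1 then W.act (sgm ⟨k, h⟩) else 0

private theorem fcA011_lt (W : SV) {n j : ℕ} (h : j < n + 2) :
    fcA011 W n j = W.act (dlt ⟨j, h⟩) := dif_pos h

private theorem dgA011_lt (W : SV) {n k : ℕ} (h : k < n + 1) :
    dgA011 W n k = W.act (sgm ⟨k, h⟩) := dif_pos h

private theorem dgA011_ge (W : SV) {n k : ℕ} (h : n + 1 ≤ k) : dgA011 W n k = 0 :=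
  dif_neg (by omega)

private theorem fc_dgA011_le (W : SV) {n j k : ℕ} (h : j ≤ k) (x : W.V (n + 1)) :
    fcA011 W (n + 1) j (dgA011 W (n + 1) (k + 1) x) = dgA011 W n k (fcA011 W n j x) := by
  by_cases hk : k < n + 1
  · rw [dgA011_lt W hk, fcA011_lt W (show j < n + 2 by omega),
      dgA011_lt W (show k + 1 < n + 1 + 1 by omega), fcA011_lt W (show j < n + 1 + 2 by omega),
      W.act_comp, W.act_comp]
    exact congrArg (fun f => W.act f x)
      (sgm_comp_dlt_of_le (⟨j, by omega⟩ : Fin (n + 2)) ⟨k, hk⟩ h)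
  · rw [dgA011_ge W (show n + 1 ≤ k by omega), dgA011_ge W (show n + 1 + 1 ≤ k + 1 by omega)]
    simp

private theorem fc_dgA011_eq (W : SV) {n k : ℕ} (h : k ≤ n) (x : W.V n) :
    fcA011 W n k (dgA011 W n k x) = x := by
  rw [fcA011_lt W (show k < n + 2 by omega), dgA011_lt W (show k < n + 1 by omega), W.act_comp]
  exact (congrArg (fun f => W.act f x)
    (sgm_comp_dlt_castSucc (⟨k, by omega⟩ : Fin (n + 1)))).trans (W.act_id x)

private theorem dg_dgA011 (W : SV) {n i j : ℕ} (h : i ≤ j) (hj : j ≤ n) (x : W.V n) :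
    dgA011 W (n + 1) i (dgA011 W n j x) = dgA011 W (n + 1) (j + 1) (dgA011 W n i x) := by
  rw [dgA011_lt W (show i < n + 1 + 1 by omega), dgA011_lt W (show j < n + 1 by omega),
    dgA011_lt W (show j + 1 < n + 1 + 1 by omega), dgA011_lt W (show i < n + 1 by omega),
    W.act_comp, W.act_comp]
  exact congrArg (fun f => W.act f x)
    (sgm_comp_sgm (⟨i, by omega⟩ : Fin (n + 1)) ⟨j, by omega⟩ h)

private theorem md_stepA011 (W : SV) {n : ℕ} (x : W.V (n + 1))
    (hx : ∀ j, j ≤ n → fcA011 W n j x = 0) :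
    ∀ (c k : ℕ) (y : ℕ → W.V n), k + c = n + 1 →
      x = ∑ i ∈ Finset.Ico k (n + 1), dgA011 W n i (y i) → x = 0 := by
  intro c
  induction c with
  | zero =>
    intro k y hk he
    rw [he, Finset.Ico_eq_empty_of_le (by omega), Finset.sum_empty]
  | succ c ih =>
    intro k y hk he
    rw [Finset.sum_eq_sum_Ico_succ_bot (by omega)] at he
    have hf := hx k (by omega)
    rw [he, map_add, fc_dgA011_eq W (by omega), map_sum] at hf
    cases n with
    | zero =>
      obtain rfl : k = 0 := by omega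
      rw [Finset.Ico_eq_empty_of_le (by omega), Finset.sum_empty, add_zero] at hf he
      rw [he, hf, map_zero]
    | succ n =>
      have h1 : ∀ i ∈ Finset.Ico (k + 1) (n + 1 + 1),
          fcA011 W (n + 1) k (dgA011 W (n + 1) i (y i)) =
            dgA011 W n (i - 1) (fcA011 W n k (y i)) := by
        intro i hi
        rw [Finset.mem_Ico] at hi
        obtain ⟨i', rfl⟩ : ∃ i', i = i' + 1 := ⟨i - 1, by omega⟩
        rw [Nat.add_sub_cancel]
        exact fc_dgA011_le W (by omega) _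
      rw [Finset.sum_congr rfl h1] at hf
      have h2 : y k = ∑ i ∈ Finset.Ico (k + 1) (n + 1 + 1),
          dgA011 W n (i - 1) (fcA011 W n k (y i)) := by
        rw [← sub_eq_zero, sub_eq']
        exact hf
      refine ih (k + 1) (fun i => dgA011 W n k (fcA011 W n k (y i)) + y i) (by omega) ?_
      have h3 : dgA011 W (n + 1) k (y k) = ∑ i ∈ Finset.Ico (k + 1) (n + 1 + 1),
          dgA011 W (n + 1) i (dgA011 W n k (fcA011 W n k (y i))) := by
        rw [h2, map_sum]
        refine Finset.sum_congr rfl fun i hi => ?_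
        rw [Finset.mem_Ico] at hi
        obtain ⟨i', rfl⟩ : ∃ i', i = i' + 1 := ⟨i - 1, by omega⟩
        rw [Nat.add_sub_cancel]
        exact dg_dgA011 W (by omega) (by omega) _
      rw [he, h3, ← Finset.sum_add_distrib]
      exact Finset.sum_congr rfl fun i _ => (map_add _ _ _).symm

/-- a sum of degenerate elements all of whose faces vanish is zero -/
theorem moore_degenerate (W : SV) {n : ℕ} (y : Fin (n + 1) → W.V n)
    (h : W.Moore (∑ i, W.act (sgm i) (y i))) : ∑ i, W.act (sgm i) (y i) = 0 := by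
  refine md_stepA011 W _ (fun j hj => ?_) (n + 1) 0
    (fun i => if hi : i < n + 1 then y ⟨i, hi⟩ else 0) (by omega) ?_
  · rw [fcA011_lt W (show j < n + 2 by omega)]
    exact (moore_iff _).1 h _
  · rw [← Finset.range_eq_Ico, Finset.sum_range]
    refine Finset.sum_congr rfl fun i _ => ?_
    rw [dgA011_lt W i.2, dif_pos i.2]

/-- `D n = (Mo n 1 →₀ Q n)` -/
private noncomputable abbrev DA011 (Q : SV) : SV where
  V n := Mo n 1 →₀ Q.V n
  act {m n} f := Finsupp.lsum (ZMod 2)
    (fun a : Mo n 1 => (Finsupp.lsingle (a.comp f)).comp (Q.act f))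
  act_id {n} x := by
    induction x using Finsupp.induction_linear with
    | zero => exact map_zero _
    | add x y hx hy => rw [map_add, hx, hy]
    | single a x =>
      rw [Finsupp.lsum_single, LinearMap.comp_apply, Q.act_id]
      rfl
  act_comp {l m n} f g x := by
    induction x using Finsupp.induction_linear with
    | zero => simp only [map_zero]
    | add x y hx hy => simp only [map_add, hx, hy]
    | single a x =>
      rw [Finsupp.lsum_single, Finsupp.lsum_single, LinearMap.comp_apply, LinearMap.comp_apply,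
        Finsupp.lsingle_apply, Finsupp.lsum_single, LinearMap.comp_apply, Q.act_comp]
      rfl

private theorem DA011_single (Q : SV) {m n : ℕ} (f : Mo m n) (a : Mo n 1) (x : Q.V n) :
    (DA011 Q).act f (Finsupp.single a x : Mo n 1 →₀ Q.V n) =
      (Finsupp.single (a.comp f) (Q.act f x) : Mo m 1 →₀ Q.V m) := by
  show Finsupp.lsum (ZMod 2) (fun a : Mo n 1 => (Finsupp.lsingle (a.comp f)).comp (Q.act f))
    (Finsupp.single a x) = _
  rw [Finsupp.lsum_single]
  rfl

/-- `sk_m Q` -/
private noncomputable def SA011 (Q : SV) (m : ℕ) : SubV Q where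
  car n := Submodule.span (ZMod 2) {x : Q.V n | ∃ (k : ℕ) (s : Mo n k) (y : Q.V k),
    k ≤ m ∧ x = Q.act s y}
  closed {l n} f x hx := by
    induction hx using Submodule.span_induction with
    | mem x hx =>
      obtain ⟨k, s, y, hk, rfl⟩ := hx
      exact Submodule.subset_span ⟨k, s.comp f, y, hk, Q.act_comp f s y⟩
    | zero => rw [map_zero]; exact Submodule.zero_mem _
    | add x y _ _ hx hy => rw [map_add]; exact Submodule.add_mem _ hx hy
    | smul c x _ hx => rw [map_smul]; exact Submodule.smul_mem _ c hx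

private theorem SA011_low (Q : SV) {m n : ℕ} (h : n ≤ m) (x : Q.V n) :
    x ∈ (SA011 Q m).car n :=
  Submodule.subset_span ⟨n, OrderHom.id, x, h, (Q.act_id x).symm⟩

private theorem SA011_high (Q : SV) {m n : ℕ} (h : m ≤ n) {x : Q.V (n + 1)}
    (hx : x ∈ (SA011 Q m).car (n + 1)) :
    ∃ y : Fin (n + 1) → Q.V n, x = ∑ i, Q.act (sgm i) (y i) := by
  have h0 : (SA011 Q m).car (n + 1) ≤
      LinearMap.range (∑ i : Fin (n + 1), (Q.act (sgm i)).comp (LinearMap.proj i) :
        (Fin (n + 1) → Q.V n) →ₗ[ZMod 2] Q.V (n + 1)) := by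
    refine Submodule.span_le.2 ?_
    rintro _ ⟨k, s, y, hk, rfl⟩
    have hs : ¬ Function.Injective s := by
      intro hs
      have := Fintype.card_le_of_injective s hs
      simp only [Fintype.card_fin] at this
      omega
    obtain ⟨i, g, rfl⟩ := exists_sgm s hs
    refine ⟨Pi.single i (Q.act g y), ?_⟩
    rw [LinearMap.sum_apply, Finset.sum_eq_single i]
    · rw [LinearMap.comp_apply, LinearMap.proj_apply, Pi.single_eq_same, Q.act_comp]
    · intro j _ hj
      rw [LinearMap.comp_apply, LinearMap.proj_apply, Pi.single_eq_of_ne hj, map_zero]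
    · intro hi
      exact absurd (Finset.mem_univ i) hi
  obtain ⟨y, hy⟩ := h0 hx
  refine ⟨y, ?_⟩
  rw [← hy, LinearMap.sum_apply]
  rfl

private theorem cst_neA011 {n : ℕ} : (cst 1 : Mo n 1) ≠ cst 0 := by
  intro h
  have h1 : (1 : Fin 2) = 0 := congrArg (fun f : Mo n 1 => f 0) h
  exact absurd h1 (by decide)

/-- `C = {0} ⊗ Q + {1} ⊗ S` -/
private noncomputable def CA011 (Q : SV) (m : ℕ) : SubV (DA011 Q) where
  car n := LinearMap.range (Finsupp.lsingle (cst 0 : Mo n 1) : Q.V n →ₗ[ZMod 2] Mo n 1 →₀ Q.V n) ⊔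
    ((SA011 Q m).car n).map
      (Finsupp.lsingle (cst 1 : Mo n 1) : Q.V n →ₗ[ZMod 2] Mo n 1 →₀ Q.V n)
  closed {l n} f x hx := by
    obtain ⟨_, ⟨x, rfl⟩, _, ⟨y, hy, rfl⟩, rfl⟩ := Submodule.mem_sup.1 hx
    rw [map_add]
    refine Submodule.add_mem _ (Submodule.mem_sup_left ?_) (Submodule.mem_sup_right ?_)
    · refine ⟨Q.act f x, ?_⟩
      exact (DA011_single Q f (cst 0) x).symm
    · refine ⟨Q.act f y, (SA011 Q m).closed f hy, ?_⟩
      exact (DA011_single Q f (cst 1) y).symm

private theorem CA011_mem {Q : SV} {m n : ℕ} {z : Mo n 1 →₀ Q.V n} (hz : z ∈ (CA011 Q m).car n) :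
    z (cst 1) ∈ (SA011 Q m).car n ∧
      z = Finsupp.single (cst 0) (z (cst 0)) + Finsupp.single (cst 1) (z (cst 1)) := by
  obtain ⟨_, ⟨x, rfl⟩, _, ⟨y, hy, rfl⟩, rfl⟩ := Submodule.mem_sup.1 hz
  have e0 : ((Finsupp.lsingle (cst 0 : Mo n 1) : Q.V n →ₗ[ZMod 2] Mo n 1 →₀ Q.V n) x +
      (Finsupp.lsingle (cst 1 : Mo n 1) : Q.V n →ₗ[ZMod 2] Mo n 1 →₀ Q.V n) y : Mo n 1 →₀ Q.V n)
        (cst 0) = x := by
    rw [Finsupp.add_apply, Finsupp.lsingle_apply, Finsupp.lsingle_apply, Finsupp.single_eq_same,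
      Finsupp.single_eq_of_ne (Ne.symm cst_neA011), add_zero]
  have e1 : ((Finsupp.lsingle (cst 0 : Mo n 1) : Q.V n →ₗ[ZMod 2] Mo n 1 →₀ Q.V n) x +
      (Finsupp.lsingle (cst 1 : Mo n 1) : Q.V n →ₗ[ZMod 2] Mo n 1 →₀ Q.V n) y : Mo n 1 →₀ Q.V n)
        (cst 1) = y := by
    rw [Finsupp.add_apply, Finsupp.lsingle_apply, Finsupp.lsingle_apply, Finsupp.single_eq_same,
      Finsupp.single_eq_of_ne cst_neA011, zero_add]
  rw [e0, e1]
  exact ⟨hy, rfl⟩

/-- the map `f`: the component at `cst 0` -/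
private noncomputable def fA011 (Q : SV) (m : ℕ) : SVHom (CA011 Q m).sv Q where
  app n := (Finsupp.lapply (cst 0 : Mo n 1) : (Mo n 1 →₀ Q.V n) →ₗ[ZMod 2] Q.V n).comp
    ((CA011 Q m).car n).subtype
  nat {l n} f x := by
    obtain ⟨x, hx⟩ := x
    show ((DA011 Q).act f x : Mo l 1 →₀ Q.V l) (cst 0) = Q.act f (x (cst 0))
    obtain ⟨-, h2⟩ := CA011_mem hx
    have h3 : (DA011 Q).act f x =
        ((Finsupp.single (cst 0) (Q.act f (x (cst 0))) +
          Finsupp.single (cst 1) (Q.act f (x (cst 1))) : Mo l 1 →₀ Q.V l)) := by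
      conv_lhs => rw [h2]
      rw [map_add, DA011_single, DA011_single]
      rfl
    rw [h3, Finsupp.add_apply, Finsupp.single_eq_same,
      Finsupp.single_eq_of_ne (Ne.symm cst_neA011), add_zero]

/-- the sum of all components -/
private noncomputable def TA011 (Q : SV) : SVHom (DA011 Q) Q where
  app n := Finsupp.lsum (ZMod 2) (fun _ : Mo n 1 => (LinearMap.id : Q.V n →ₗ[ZMod 2] Q.V n))
  nat {l n} f x := by
    induction x using Finsupp.induction_linear with
    | zero => simp only [map_zero]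
    | add x y hx hy => simp only [map_add, hx, hy]
    | single a x =>
      rw [DA011_single, Finsupp.lsum_single, Finsupp.lsum_single]
      rfl

private theorem svhom_dA011 {A B : SV} (f : SVHom A B) {n : ℕ} (x : A.V (n + 1)) :
    f.app n (A.d n x) = B.d n (f.app (n + 1) x) := by
  rw [SV.d, SV.d, LinearMap.sum_apply, LinearMap.sum_apply, map_sum]
  exact Finset.sum_congr rfl fun i _ => f.nat _ _

private theorem DA011_d (Q : SV) {n : ℕ} (a : Fin 2) (x : Q.V (n + 1)) :
    (DA011 Q).d n (Finsupp.single (cst a : Mo (n + 1) 1) x : Mo (n + 1) 1 →₀ Q.V (n + 1)) =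
      (Finsupp.single (cst a : Mo n 1) (Q.d n x) : Mo n 1 →₀ Q.V n) := by
  rw [SV.d, LinearMap.sum_apply, SV.d, LinearMap.sum_apply]
  have h := map_sum (Finsupp.lsingle (cst a : Mo n 1) : Q.V n →ₗ[ZMod 2] Mo n 1 →₀ Q.V n)
    (fun i : Fin (n + 2) => Q.act (dlt i) x) Finset.univ
  rw [Finsupp.lsingle_apply] at h
  rw [h]
  exact Finset.sum_congr rfl fun i _ => DA011_single Q (dlt i) (cst a) x

private theorem skA011 (Q : SV) (m : ℕ) (h : ∀ j ≤ m, ∀ z ∈ Q.Z j, z ∈ Q.B j) {n : ℕ}
    {c : Q.V n} (hc : c ∈ (SA011 Q m).car n) (hz : c ∈ Q.Z n) : c ∈ Q.B n := by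
  by_cases hn : n ≤ m
  · exact h n hn c hz
  · cases n with
    | zero => exact absurd (Nat.zero_le m) hn
    | succ n =>
      have hd : ∀ {k : ℕ} (x : (SA011 Q m).sv.V (k + 1)),
          ((SA011 Q m).sv.d k x).1 = Q.d k x.1 := fun x => svhom_dA011 (SA011 Q m).incl x
      have hz' : (SA011 Q m).sv.d n ⟨c, hc⟩ = 0 := Subtype.ext ((hd _).trans hz)
      obtain ⟨w, hw⟩ := exists_moore (SA011 Q m).sv (n := n + 1) ⟨c, hc⟩ hz'
      have he : (⟨c, hc⟩ + (SA011 Q m).sv.d (n + 1) w : (SA011 Q m).car (n + 1)).1 =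
          c + Q.d (n + 1) w.1 := by
        rw [Submodule.coe_add, hd]
      obtain ⟨y, hy⟩ := SA011_high Q (show m ≤ n by omega)
        (⟨c, hc⟩ + (SA011 Q m).sv.d (n + 1) w : (SA011 Q m).car (n + 1)).2
      have h0 : Q.Moore (∑ i, Q.act (sgm i) (y i)) := by
        rw [← hy]
        intro k f hf
        exact congrArg Subtype.val (hw k f hf)
      have h1 := moore_degenerate Q y h0
      rw [← hy, he] at h1
      refine ⟨w.1, ?_⟩
      rw [← sub_eq_zero, sub_eq']
      exact (add_comm _ _).trans h1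

theorem lowcon (Q : SV) (m : ℕ) (h : ∀ j ≤ m, ∀ z ∈ Q.Z j, z ∈ Q.B j) :
    ∃ H : LHpy Q Q, (∀ n x, H.app n (cst 0) x = x) ∧
      ∀ j ≤ m, ∀ x, H.app j (cst 1) x = 0 := by
  have hext : ∀ (n : ℕ) (z : (DA011 Q).V (n + 1)) (hz : (DA011 Q).d n z ∈ (CA011 Q m).car n),
      (fA011 Q m).app n ⟨(DA011 Q).d n z, hz⟩ ∈ Q.B n := by
    intro n z hz
    obtain ⟨h1, h2⟩ := CA011_mem hz
    -- the sum of the two components is a boundary
    have h3 : (TA011 Q).app n ((DA011 Q).d n z) =
        ((DA011 Q).d n z) (cst 0) + ((DA011 Q).d n z) (cst 1) := by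
      conv_lhs => rw [h2]
      rw [map_add]
      show Finsupp.lsum (ZMod 2) (fun _ : Mo n 1 => (LinearMap.id : Q.V n →ₗ[ZMod 2] Q.V n))
          (Finsupp.single (cst 0) (((DA011 Q).d n z) (cst 0))) +
        Finsupp.lsum (ZMod 2) (fun _ : Mo n 1 => (LinearMap.id : Q.V n →ₗ[ZMod 2] Q.V n))
          (Finsupp.single (cst 1) (((DA011 Q).d n z) (cst 1))) = _
      rw [Finsupp.lsum_single, Finsupp.lsum_single]
      rfl
    have h4 : ((DA011 Q).d n z) (cst 0) + ((DA011 Q).d n z) (cst 1) ∈ Q.B n := by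
      rw [← h3, svhom_dA011]
      exact LinearMap.mem_range_self _ _
    -- the second component is a cycle
    have h5 : ((DA011 Q).d n z) (cst 1) ∈ Q.Z n := by
      cases n with
      | zero => exact Submodule.mem_top
      | succ n =>
        show Q.d n (((DA011 Q).d (n + 1) z) (cst 1)) = 0
        have h6 := (DA011 Q).d_d z
        rw [h2, map_add, DA011_d, DA011_d] at h6
        have h7 := congrArg (fun u : Mo n 1 →₀ Q.V n => u (cst 1)) h6
        simp only [Finsupp.add_apply, Finsupp.single_eq_same] at h7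
        rw [Finsupp.single_eq_of_ne cst_neA011, zero_add] at h7
        exact h7
    have h8 := skA011 Q m h h1 h5
    have h9 := Submodule.add_mem _ h4 h8
    rw [add_assoc, two_eq_zero', add_zero] at h9
    exact h9
  obtain ⟨g, hg⟩ := extL (CA011 Q m) (fA011 Q m) hext
  have g0 : ∀ n (x : Q.V n),
      g.app n (Finsupp.single (cst 0 : Mo n 1) x : Mo n 1 →₀ Q.V n) = x := by
    intro n x
    have hx : (Finsupp.single (cst 0 : Mo n 1) x : Mo n 1 →₀ Q.V n) ∈ (CA011 Q m).car n :=
      Submodule.mem_sup_left ⟨x, rfl⟩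
    rw [hg n ⟨_, hx⟩]
    show (Finsupp.single (cst 0 : Mo n 1) x : Mo n 1 →₀ Q.V n) (cst 0) = x
    rw [Finsupp.single_eq_same]
  have g1 : ∀ n, n ≤ m → ∀ (x : Q.V n),
      g.app n (Finsupp.single (cst 1 : Mo n 1) x : Mo n 1 →₀ Q.V n) = 0 := by
    intro n hn x
    have hx : (Finsupp.single (cst 1 : Mo n 1) x : Mo n 1 →₀ Q.V n) ∈ (CA011 Q m).car n :=
      Submodule.mem_sup_right ⟨x, SA011_low Q hn x, rfl⟩
    rw [hg n ⟨_, hx⟩]
    show (Finsupp.single (cst 1 : Mo n 1) x : Mo n 1 →₀ Q.V n) (cst 0) = 0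
    rw [Finsupp.single_eq_of_ne (Ne.symm cst_neA011)]
  refine ⟨⟨fun n a => (g.app n).comp (Finsupp.lsingle a), fun {l n} f a x => ?_⟩,
    fun n x => g0 n x, fun j hj x => g1 j hj x⟩
  show g.app l (Finsupp.single (a.comp f) (Q.act f x) : Mo l 1 →₀ Q.V l) =
    Q.act f (g.app n (Finsupp.single a x : Mo n 1 →₀ Q.V n))
  rw [← g.nat, DA011_single]

end MM

end

/-! ### from `Lib_MP_33f7bb_d.A509` -/

section

/-!
# A5-09: prism formula and contraction below a given degree, for cosimplicial vector spaces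

`CV.mem_Bd`: for a subspace: `x ∈ Bd n` iff every functional `φ` on `C.V n` that vanishes on `Bd n` vanishes at `x` (vector spaces over a
field: `Submodule.exists_dual_map_eq_bot_of_notMem`, `Submodule.forall_dual_apply_eq_zero...`).
`CHpy.prism`: `H : LHpy C.dual C.dual`, `H.app n θ = (G.app n θ).dualMap` (naturality is the dual of `G.nat`).  `lprism H` gives `T`.  Let `φ`
vanish on `Bd n`, i.e. `φ ∈ C.dual.Z n` (`n ≥ 1`: `C.dual.d (n-1) φ = φ ∘ C.d (n-1)`, the dual of the sum of the cofaces; `n = 0`: no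
condition and the term `T n (d φ)` is absent).  Then `φ (G (cst 0) x + G (cst 1) x) = (dual.d n (T n φ)) x = (T n φ) (C.d n x) = 0`.
`CV.lowcon`: let `Q = C.dual`.  Hypothesis of `lowcon` (A011): for `j ≤ m` and `z ∈ Q.Z j`: `z` is a functional on `C.V j` vanishing on `Bd j`
(`= range d (j-1)`, nothing for `j = 0`), so on `ker (C.d j)` (exactness), so `z = w ∘ C.d j` for a functional `w`
(`LinearMap.range_dualMap_eq_dualAnnihilator_ker`), `z ∈ Q.B j`.  So there is `H : LHpy Q Q`, `H (cst 0) = id`, `H.app j (cst 1) = 0` for `j ≤ m`.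
Transpose: `C.V n` is finite dimensional, so reflexive: `G.app n θ` := the unique map with `(H.app n θ φ) x = φ (G.app n θ x)`, i.e.
`G.app n θ = (evalEquiv).symm ∘ (H.app n θ).dualMap ∘ evalEquiv` (`Module.evalEquiv`).  Naturality, `G (cst 0) = id`,
`G.app j (cst 1) = 0`: test against all functionals (`Module.forall_dual_apply_eq_zero_iff`).
-/

namespace MM

/-- evaluation at a vector -/
private noncomputable def A509_ev (C : CV) {n : ℕ} (x : C.V n) : C.dual.V n →ₗ[ZMod 2] ZMod 2 :=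
  Module.Dual.eval (ZMod 2) (C.V n) x

private theorem A509_sd (W : SV) (n : ℕ) (z : W.V (n + 1)) :
    W.d n z = ∑ i : Fin (n + 2), W.act (dlt i) z := by
  rw [SV.d, LinearMap.sum_apply]

private theorem A509_d (C : CV) (n : ℕ) (φ : Module.Dual (ZMod 2) (C.V (n + 1))) (x : C.V n) :
    A509_ev C x (C.dual.d n φ) = φ (C.d n x) := by
  have h1 : φ (C.d n x) = ∑ i : Fin (n + 2), φ (C.act (dlt i) x) := by
    rw [CV.d, LinearMap.sum_apply, map_sum]
  rw [h1]
  refine (congrArg (A509_ev C x) (A509_sd C.dual n φ)).trans ?_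
  rw [map_sum]
  rfl

private theorem A509_mem {V : Type} [AddCommGroup V] [Module (ZMod 2) V] (p : Submodule (ZMod 2) V)
    (x : V) (h : ∀ φ : Module.Dual (ZMod 2) V, (∀ y ∈ p, φ y = 0) → φ x = 0) : x ∈ p := by
  by_contra hx
  obtain ⟨f, hf, hp⟩ := Submodule.exists_dual_map_eq_bot_of_notMem hx inferInstance
  refine hf (h f fun y hy => ?_)
  have h1 : f y ∈ p.map f := Submodule.mem_map_of_mem hy
  rw [hp] at h1
  exact (Submodule.mem_bot _).1 h1

private theorem A509_test {V : Type} [AddCommGroup V] [Module (ZMod 2) V] (x y : V)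
    (h : ∀ φ : Module.Dual (ZMod 2) V, φ x = φ y) : x = y := by
  rw [← sub_eq_zero, ← Module.forall_dual_apply_eq_zero_iff (ZMod 2)]
  intro φ
  rw [map_sub, h, sub_self]

private theorem A509_trans {V : Type} [AddCommGroup V] [Module (ZMod 2) V]
    [Module.Finite (ZMod 2) V] (h : Module.Dual (ZMod 2) V →ₗ[ZMod 2] Module.Dual (ZMod 2) V) :
    ∃ g : V →ₗ[ZMod 2] V, ∀ (φ : Module.Dual (ZMod 2) V) (x : V), φ (g x) = h φ x := by
  refine ⟨(Module.evalEquiv (ZMod 2) V).symm.toLinearMap.comp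
    (h.dualMap.comp (Module.evalEquiv (ZMod 2) V).toLinearMap), fun φ x => ?_⟩
  have h1 : Module.evalEquiv (ZMod 2) V ((Module.evalEquiv (ZMod 2) V).symm
      (h.dualMap (Module.evalEquiv (ZMod 2) V x))) = h.dualMap (Module.evalEquiv (ZMod 2) V x) :=
    LinearEquiv.apply_symm_apply _ _
  have h2 := congrArg (fun u => u φ) h1
  exact h2

private noncomputable def A509_H {C : CV} (G : CHpy C) : LHpy C.dual C.dual where
  app n θ := (G.app n θ).dualMap
  nat {m n} f a φ := by
    refine LinearMap.ext fun x => ?_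
    exact congrArg (fun u : C.V n => (show Module.Dual (ZMod 2) (C.V n) from φ) u) (G.nat f a x)

theorem CHpy.prism {C : CV} (G : CHpy C) (n : ℕ) (x : C.V n) (hx : C.d n x = 0) :
    G.app n (cst 0) x + G.app n (cst 1) x ∈ C.Bd n := by
  obtain ⟨T, hT0, hTs⟩ := lprism (A509_H G)
  refine A509_mem _ _ fun φ hφ => ?_
  have hT : ∀ ψ : Module.Dual (ZMod 2) (C.V (n + 1)),
      A509_ev C x (C.dual.d n ψ) = 0 := by
    intro ψ
    rw [A509_d, hx, map_zero]
  rw [map_add]
  cases n with
  | zero =>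
    have h1 := congrArg (fun u : Module.Dual (ZMod 2) (C.V 0) => u x) (hT0 φ)
    exact h1.symm.trans (hT _)
  | succ n =>
    have h0 : C.dual.d n φ = 0 := by
      refine LinearMap.ext fun y => ?_
      exact (A509_d C n φ y).trans (hφ _ (LinearMap.mem_range_self _ _))
    have h1 := hTs n φ
    rw [h0, map_zero, add_zero] at h1
    have h2 := congrArg (fun u : Module.Dual (ZMod 2) (C.V (n + 1)) => u x) h1
    exact h2.symm.trans (hT _)

theorem CV.lowcon (C : CV) (hf : ∀ n, Module.Finite (ZMod 2) (C.V n)) (m : ℕ)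
    (h : ∀ j ≤ m, ∀ x : C.V j, C.d j x = 0 → x ∈ C.Bd j) :
    ∃ G : CHpy C, (∀ n x, G.app n (cst 0) x = x) ∧ ∀ j ≤ m, ∀ x, G.app j (cst 1) x = 0 := by
  obtain ⟨H, h0, h1⟩ := MM.lowcon C.dual m (fun j hj (z : Module.Dual (ZMod 2) (C.V j)) hz => by
    have h1 : ∀ y ∈ C.Bd j, z y = 0 := by
      cases j with
      | zero =>
        intro y hy
        have : y = 0 := (Submodule.mem_bot _).1 hy
        rw [this, map_zero]
      | succ j =>
        rintro y ⟨w, rfl⟩
        have h2 : C.dual.d j z = 0 := hz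
        have h3 := congrArg (fun u : Module.Dual (ZMod 2) (C.V j) => u w) h2
        exact (A509_d C j z w).symm.trans h3
    have h2 : z ∈ (LinearMap.ker (C.d j)).dualAnnihilator := by
      rw [Submodule.mem_dualAnnihilator]
      intro x hx
      exact h1 x (h j hj x hx)
    rw [← LinearMap.range_dualMap_eq_dualAnnihilator_ker] at h2
    obtain ⟨w, hw⟩ := h2
    refine ⟨w, ?_⟩
    refine LinearMap.ext fun x => ?_
    refine (A509_d C j w x).trans ?_
    rw [← hw]
    rfl)
  have hT : ∀ (n : ℕ) (θ : Mo n 1), ∃ g : C.V n →ₗ[ZMod 2] C.V n,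
      ∀ (φ : Module.Dual (ZMod 2) (C.V n)) (x : C.V n),
        φ (g x) = (show Module.Dual (ZMod 2) (C.V n) from H.app n θ φ) x := by
    intro n θ
    have := hf n
    exact A509_trans (V := C.V n) (H.app n θ)
  choose g hg using hT
  refine ⟨⟨g, fun {m' n} f θ x => ?_⟩, ?_, ?_⟩
  · refine A509_test _ _ fun φ => ?_
    rw [hg n θ φ (C.act f x)]
    have e1 : φ (C.act f (g m' (θ.comp f) x)) =
        (show Module.Dual (ZMod 2) (C.V m') from (C.act f).dualMap φ) (g m' (θ.comp f) x) := rfl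
    rw [e1, hg]
    exact congrArg (fun u : Module.Dual (ZMod 2) (C.V m') => u x) (H.nat f θ φ)
  · intro n x
    refine A509_test _ _ fun φ => ?_
    show φ (g n (cst 0) x) = φ x
    rw [hg]
    exact congrArg (fun u : Module.Dual (ZMod 2) (C.V n) => u x) (h0 n φ)
  · intro j hj x
    refine A509_test _ _ fun φ => ?_
    show φ (g j (cst 1) x) = φ 0
    rw [hg, map_zero]
    exact congrArg (fun u : Module.Dual (ZMod 2) (C.V j) => u x) (h1 j hj φ)

end MM

end

/-! ### from `Lib_MP_33f7bb_d.A510` -/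

section

/-!
# A5-10: contraction of the part of degrees `> D` of a graded cosimplicial vector space

For every `k` let `C_k` be the cosimplicial vector space `n ↦ ({i : I n // dg n i = k} →₀ F)` (or the submodule of elements supported in degree
`k`, as a type) with the restricted operators: `act g` preserves degrees (`hdeg`).  It is finite dimensional in each level (`hfin`).  For `k > D` it is
exact at all `j ≤ m`: if `z` is homogeneous of degree `k`, `d z = 0` then `z ∈ Bd` by `hex`, i.e. `z = 0` or `z = d w`; replace `w` by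
its component of degree `k` (`d` preserves degrees).  `CV.lowcon` gives `G_k : CHpy C_k`.  Define `G.app n θ (single i 1) = G_(dg n i) (single i 1)` if
`dg n i > D` (embedded into `I n →₀ F`), `= single i 1` if `dg n i ≤ D`.  Naturality: for `x = single i 1`, `i : I m`, of degree `k`, `act g x` is
homogeneous of degree `k`, so both sides are computed in `C_k` (`k > D`: naturality of `G_k`; `k ≤ D`: `G = id`).
-/

namespace MM

/-- elements supported in degree `k` -/
private abbrev A510S {J : Type} (dg : J → ℕ) (k : ℕ) : Submodule (ZMod 2) (J →₀ ZMod 2) :=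
  Finsupp.supported (ZMod 2) (ZMod 2) {i | dg i = k}

private theorem A510_single {J : Type} (dg : J → ℕ) (i : J) :
    (Finsupp.single i 1 : J →₀ ZMod 2) ∈ A510S dg (dg i) :=
  Finsupp.single_mem_supported (ZMod 2) (1 : ZMod 2) (by simp)

/-- two linear maps agree on elements of degree `k` if they agree on basis elements of degree `k` -/
private theorem A510_ext {J M : Type} [AddCommGroup M] [Module (ZMod 2) M] (dg : J → ℕ) (k : ℕ)
    (A B : (J →₀ ZMod 2) →ₗ[ZMod 2] M)
    (h : ∀ i, dg i = k → A (Finsupp.single i 1) = B (Finsupp.single i 1))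
    (x : J →₀ ZMod 2) (hx : x ∈ A510S dg k) : A x = B x := by
  rw [A510S, Finsupp.supported_eq_span_single] at hx
  have : Set.EqOn A B (Submodule.span (ZMod 2) ((fun i => (Finsupp.single i 1 : J →₀ ZMod 2)) '' {i | dg i = k})) := by
    apply LinearMap.eqOn_span
    rintro _ ⟨i, hi, rfl⟩
    exact h i hi
  exact this hx

private theorem A510_pres {J J' : Type} (dg : J → ℕ) (dg' : J' → ℕ)
    (f : (J →₀ ZMod 2) →ₗ[ZMod 2] (J' →₀ ZMod 2)) (hf : DegPres dg dg' f) (k : ℕ)
    (x : J →₀ ZMod 2) (hx : x ∈ A510S dg k) : f x ∈ A510S dg' k := by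
  rw [A510S, Finsupp.supported_eq_span_single] at hx
  have : Submodule.span (ZMod 2) ((fun i => (Finsupp.single i 1 : J →₀ ZMod 2)) '' {i | dg i = k}) ≤
      (A510S dg' k).comap f := by
    rw [Submodule.span_le]
    rintro _ ⟨i, hi, rfl⟩
    rw [SetLike.mem_coe, Submodule.mem_comap, A510S, Finsupp.mem_supported]
    intro b hb
    have h1 := hf i b (by simpa using hb)
    exact h1.trans hi
  exact this hx

open Classical in
/-- the component of degree `k` -/
private noncomputable def A510P {J : Type} (dg : J → ℕ) (k : ℕ) :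
    (J →₀ ZMod 2) →ₗ[ZMod 2] A510S dg k :=
  Finsupp.restrictDom (ZMod 2) (ZMod 2) {i | dg i = k}

open Classical in
private theorem A510P_apply {J : Type} (dg : J → ℕ) (k : ℕ) (x : J →₀ ZMod 2) (i : J) :
    (A510P dg k x : J →₀ ZMod 2) i = if dg i = k then x i else 0 := by
  rw [A510P, Finsupp.restrictDom_apply, Finsupp.filter_apply]
  simp

private theorem A510P_mem {J : Type} (dg : J → ℕ) (k : ℕ) (x : J →₀ ZMod 2) (hx : x ∈ A510S dg k) :
    A510P dg k x = ⟨x, hx⟩ := by
  apply Subtype.ext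
  ext i
  rw [A510P_apply]
  split_ifs with h
  · rfl
  · exact ((Finsupp.mem_supported' (ZMod 2) x).1 hx i h).symm

private theorem A510P_ne {J : Type} (dg : J → ℕ) (k l : ℕ) (hkl : l ≠ k) (x : J →₀ ZMod 2)
    (hx : x ∈ A510S dg l) : A510P dg k x = 0 := by
  apply Subtype.ext
  ext i
  rw [A510P_apply]
  split_ifs with h
  · exact (Finsupp.mem_supported' (ZMod 2) x).1 hx i (fun h' => hkl ((h' : dg i = l).symm.trans h))
  · rfl

private theorem A510P_comm {J J' : Type} (dg : J → ℕ) (dg' : J' → ℕ)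
    (f : (J →₀ ZMod 2) →ₗ[ZMod 2] (J' →₀ ZMod 2)) (hf : DegPres dg dg' f) (k : ℕ)
    (x : J →₀ ZMod 2) : (A510P dg' k (f x) : J' →₀ ZMod 2) = f (A510P dg k x) := by
  have : (A510S dg' k).subtype ∘ₗ (A510P dg' k) ∘ₗ f = f ∘ₗ (A510S dg k).subtype ∘ₗ (A510P dg k) := by
    refine Finsupp.lhom_ext' fun i => LinearMap.ext_ring ?_
    have hi := A510_single dg i
    have hfi := A510_pres dg dg' f hf _ _ hi
    simp only [LinearMap.comp_apply, Finsupp.lsingle_apply, Submodule.subtype_apply]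
    by_cases h : dg i = k
    · subst h
      rw [A510P_mem dg _ _ hi, A510P_mem dg' _ _ hfi]
    · rw [A510P_ne dg k _ h _ hi, A510P_ne dg' k _ h _ hfi]
      simp
  exact LinearMap.congr_fun this x

section

variable {I : ℕ → Type} (dg : ∀ n, I n → ℕ)
    (act : ∀ {m n : ℕ}, Mo m n → ((I m →₀ ZMod 2) →ₗ[ZMod 2] (I n →₀ ZMod 2)))
    (h1 : ∀ {n : ℕ} (x : I n →₀ ZMod 2), act OrderHom.id x = x)
    (h2 : ∀ {l m n : ℕ} (f : Mo l m) (g : Mo m n) (x : I l →₀ ZMod 2),
      act g (act f x) = act (g.comp f) x)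
    (hdeg : ∀ {m n : ℕ} (g : Mo m n), DegPres (dg m) (dg n) (act g))

/-- the part of degree `k` -/
private noncomputable def A510C (k : ℕ) : CV where
  V n := A510S (dg n) k
  act {m n} g := (act g).restrict fun x hx => A510_pres (dg m) (dg n) (act g) (hdeg g) k x hx
  act_id x := Subtype.ext (h1 x.1)
  act_comp f g x := Subtype.ext (h2 f g x.1)

/-- inclusion of the part of degree `k` -/
private noncomputable def A510v (k n : ℕ) :
    (A510C dg act h1 h2 hdeg k).V n →ₗ[ZMod 2] (I n →₀ ZMod 2) := (A510S (dg n) k).subtype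

private theorem A510C_d (k n : ℕ) (x : (A510C dg act h1 h2 hdeg k).V n) :
    A510v dg act h1 h2 hdeg k (n + 1) ((A510C dg act h1 h2 hdeg k).d n x) =
      (CV.ofI act h1 h2).d n (A510v dg act h1 h2 hdeg k n x) := by
  have e1 : (A510C dg act h1 h2 hdeg k).d n x =
      ∑ i : Fin (n + 2), (A510C dg act h1 h2 hdeg k).act (dlt i) x := by
    rw [CV.d, LinearMap.sum_apply]
  have e2 : (CV.ofI act h1 h2).d n (A510v dg act h1 h2 hdeg k n x) =
      ∑ i : Fin (n + 2), (CV.ofI act h1 h2).act (dlt i) (A510v dg act h1 h2 hdeg k n x) := by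
    rw [CV.d, LinearMap.sum_apply]
  rw [e1, e2, map_sum]
  rfl

include hdeg in
private theorem A510_dpres (n k : ℕ) (w : I n →₀ ZMod 2) :
    (A510P (dg (n + 1)) k ((CV.ofI act h1 h2).d n w) : I (n + 1) →₀ ZMod 2) =
      (CV.ofI act h1 h2).d n (A510P (dg n) k w).1 := by
  have e2 : ∀ w : I n →₀ ZMod 2, (CV.ofI act h1 h2).d n w = ∑ i : Fin (n + 2), act (dlt i) w := by
    intro w
    rw [CV.d, LinearMap.sum_apply]
    rfl
  have e3 := e2 w
  have e4 := e2 (A510P (dg n) k w).1
  refine Eq.trans ?_ e4.symm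
  have e5 : A510P (dg (n + 1)) k ((CV.ofI act h1 h2).d n w) =
      A510P (dg (n + 1)) k (∑ i : Fin (n + 2), act (dlt i) w) := congrArg _ e3
  rw [e5, map_sum, Submodule.coe_sum]
  exact Finset.sum_congr rfl fun i _ => A510P_comm (dg n) (dg (n + 1)) _ (hdeg _) k w

include dg in
private theorem A510_k (hfin : ∀ n k, {i | dg n i = k}.Finite) (D m : ℕ)
    (hex : ∀ j ≤ m, ∀ k, D < k → ∀ z : I j →₀ ZMod 2, (∀ i ∈ z.support, dg j i = k) →
      (CV.ofI act h1 h2).d j z = 0 → z ∈ (CV.ofI act h1 h2).Bd j) (k : ℕ) :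
    ∃ G : CHpy (A510C dg act h1 h2 hdeg k), (∀ n x, G.app n (cst 0) x = x) ∧
      (D < k → ∀ j ≤ m, ∀ x, G.app j (cst 1) x = 0) := by
  by_cases hk : D < k
  · obtain ⟨G, hG0, hG1⟩ := CV.lowcon (A510C dg act h1 h2 hdeg k) (by
      intro n
      have := (hfin n k).to_subtype
      have e : A510S (dg n) k ≃ₗ[ZMod 2] ({i | dg n i = k} →₀ ZMod 2) :=
        Finsupp.supportedEquivFinsupp {i | dg n i = k}
      exact Module.Finite.equiv e.symm) m (by
      intro j hj x hx
      have hx' : (CV.ofI act h1 h2).d j x.1 = 0 := by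
        refine (A510C_d dg act h1 h2 hdeg k j x).symm.trans ?_
        rw [hx, map_zero]
        rfl
      have hb := hex j hj k hk x.1 (fun i hi => (Finsupp.mem_supported (ZMod 2) x.1).1 x.2 hi) hx'
      cases j with
      | zero =>
        have h0 : x.1 = 0 := (Submodule.mem_bot (ZMod 2)).1 hb
        exact (Submodule.mem_bot (ZMod 2)).2 (Subtype.ext h0)
      | succ j =>
        obtain ⟨w, hw⟩ := hb
        refine ⟨A510P (dg j) k w, Subtype.ext ?_⟩
        refine (A510C_d dg act h1 h2 hdeg k j (A510P (dg j) k w)).trans ?_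
        refine (A510_dpres dg act h1 h2 hdeg j k w).symm.trans ?_
        rw [hw]
        exact congrArg Subtype.val (A510P_mem (dg (j + 1)) k x.1 x.2))
    exact ⟨G, hG0, fun _ => hG1⟩
  · exact ⟨⟨fun n _ => LinearMap.id, fun _ _ _ => rfl⟩, fun _ _ => rfl, fun h => absurd h hk⟩

end

theorem CV.grcon {I : ℕ → Type} (dg : ∀ n, I n → ℕ) (hfin : ∀ n k, {i | dg n i = k}.Finite)
    (act : ∀ {m n : ℕ}, Mo m n → ((I m →₀ ZMod 2) →ₗ[ZMod 2] (I n →₀ ZMod 2)))
    (h1 : ∀ {n : ℕ} (x : I n →₀ ZMod 2), act OrderHom.id x = x)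
    (h2 : ∀ {l m n : ℕ} (f : Mo l m) (g : Mo m n) (x : I l →₀ ZMod 2),
      act g (act f x) = act (g.comp f) x)
    (hdeg : ∀ {m n : ℕ} (g : Mo m n), DegPres (dg m) (dg n) (act g)) (D m : ℕ)
    (hex : ∀ j ≤ m, ∀ k, D < k → ∀ z : I j →₀ ZMod 2, (∀ i ∈ z.support, dg j i = k) →
      (CV.ofI act h1 h2).d j z = 0 → z ∈ (CV.ofI act h1 h2).Bd j) :
    ∃ G : CHpy (CV.ofI act h1 h2), (∀ n (x : I n →₀ ZMod 2), G.app n (cst 0) x = x) ∧
      ∀ j ≤ m, ∀ i : I j, D < dg j i → G.app j (cst 1) (Finsupp.single i 1 : I j →₀ ZMod 2) = 0 := by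
  choose Gk hG0 hG1 using A510_k dg act h1 h2 hdeg hfin D m hex
  -- the maps of `Gk` in plain types
  let gk : ∀ (k n : ℕ) (_ : Mo n 1), A510S (dg n) k →ₗ[ZMod 2] A510S (dg n) k :=
    fun k n θ => (Gk k).app n θ
  let Ga : ∀ (n : ℕ) (_ : Mo n 1), (I n →₀ ZMod 2) →ₗ[ZMod 2] (I n →₀ ZMod 2) := fun n θ =>
    Finsupp.linearCombination (ZMod 2) fun i =>
      ((gk (dg n i) n θ ⟨Finsupp.single i 1, A510_single (dg n) i⟩ : A510S (dg n) (dg n i)) :
        I n →₀ ZMod 2)
  have hs : ∀ n θ i, Ga n θ (Finsupp.single i 1) =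
      (gk (dg n i) n θ ⟨Finsupp.single i 1, A510_single (dg n) i⟩ : A510S (dg n) (dg n i)).1 := by
    intro n θ i
    simp only [Ga, Finsupp.linearCombination_single, one_smul]
  have key : ∀ (n : ℕ) (θ : Mo n 1) (k : ℕ) (x : I n →₀ ZMod 2) (hx : x ∈ A510S (dg n) k),
      Ga n θ x = (gk k n θ ⟨x, hx⟩).1 := by
    intro n θ k x hx
    rw [← A510P_mem (dg n) k x hx]
    refine A510_ext (dg n) k (Ga n θ)
      ((A510S (dg n) k).subtype ∘ₗ gk k n θ ∘ₗ A510P (dg n) k) ?_ x hx
    rintro i rfl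
    rw [hs]
    simp only [LinearMap.comp_apply, Submodule.subtype_apply]
    rw [A510P_mem (dg n) _ _ (A510_single (dg n) i)]
  have nat1 : ∀ {m n : ℕ} (g : Mo m n) (θ : Mo n 1) (i : I m),
      act g (Ga m (θ.comp g) (Finsupp.single i 1)) = Ga n θ (act g (Finsupp.single i 1)) := by
    intro m n g θ i
    rw [hs, key n θ (dg m i) _ (A510_pres (dg m) (dg n) (act g) (hdeg g) _ _ (A510_single (dg m) i))]
    exact congrArg Subtype.val
      ((Gk (dg m i)).nat g θ (⟨Finsupp.single i 1, A510_single (dg m) i⟩ : A510S (dg m) (dg m i)))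
  have nat2 : ∀ {m n : ℕ} (g : Mo m n) (θ : Mo n 1) (x : I m →₀ ZMod 2),
      act g (Ga m (θ.comp g) x) = Ga n θ (act g x) := by
    intro m n g θ x
    have : (act g) ∘ₗ (Ga m (θ.comp g)) = (Ga n θ) ∘ₗ (act g) := by
      refine Finsupp.lhom_ext' fun i => LinearMap.ext_ring ?_
      exact nat1 g θ i
    exact LinearMap.congr_fun this x
  refine ⟨⟨Ga, nat2⟩, ?_, ?_⟩
  · intro n x
    have : Ga n (cst 0) = LinearMap.id := by
      refine Finsupp.lhom_ext' fun i => LinearMap.ext_ring ?_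
      refine (hs n (cst 0) i).trans ?_
      exact congrArg Subtype.val (hG0 (dg n i) n _)
    exact LinearMap.congr_fun this x
  · intro j hj i hi
    refine (hs j (cst 1) i).trans ?_
    exact congrArg Subtype.val (hG1 (dg j i) hi j hj _)

end MM

end

/-! ### from `Lib_MP_33f7bb_d.A511` -/

section

/-!
# A5-11: exterior powers are exact in large degrees

Let `C = CV.ofI act h1 h2`, `G` from `CV.grcon`.  `G' : CHpy (C.ext q)`, `G'.app n θ = exteriorPower.map q (G.app n θ)`; naturality: `exteriorPower.map_comp` and the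
naturality of `G` as an equality of linear maps.  `G' (cst 0) = id` (`exteriorPower.map_id`).  `G'.app j (cst 1)` kills
`ιMulti (single (l 1) 1, ..., single (l q) 1)` if `∑ dg (l i) = k > q D`: some `dg (l i) > D`, so one entry of the image tuple is `0`
(`exteriorPower.map_apply_ιMulti`, `AlternatingMap.map_coord_zero`).  So it kills `WD (dg j) q k`.  `CHpy.prism`:
`x = x + 0 = G' (cst 0) x + G' (cst 1) x ∈ Bd`.
-/

namespace MM

private lemma a511_kill {I : Type} (dg : I → ℕ) (D q k : ℕ) (hk : q * D < k)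
    (f : (I →₀ ZMod 2) →ₗ[ZMod 2] (I →₀ ZMod 2))
    (hf : ∀ i, D < dg i → f (Finsupp.single i 1) = 0)
    (x : ⋀[ZMod 2]^q (I →₀ ZMod 2)) (hx : x ∈ WD dg q k) : exteriorPower.map q f x = 0 := by
  have h1 : WD dg q k ≤ LinearMap.ker (exteriorPower.map q f) := by
    apply Submodule.span_le.2
    rintro y ⟨l, hl, rfl⟩
    show exteriorPower.map q f _ = 0
    rw [exteriorPower.map_apply_ιMulti]
    obtain ⟨j, hj⟩ : ∃ j, D < dg (l j) := by
      by_contra hcon
      push Not at hcon
      have h2 : ∑ j, dg (l j) ≤ ∑ _j : Fin q, D := Finset.sum_le_sum fun j _ => hcon j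
      rw [hl, Finset.sum_const, Finset.card_univ, Fintype.card_fin, smul_eq_mul] at h2
      omega
    exact AlternatingMap.map_coord_zero _ j (hf _ hj)
  exact h1 hx

private lemma a511_comm {A B : Type} [AddCommGroup A] [Module (ZMod 2) A] [AddCommGroup B]
    [Module (ZMod 2) B] (q : ℕ) (f : A →ₗ[ZMod 2] B) (u : A →ₗ[ZMod 2] A)
    (v : B →ₗ[ZMod 2] B) (h : ∀ x, f (u x) = v (f x)) (x : ⋀[ZMod 2]^q A) :
    exteriorPower.map q f (exteriorPower.map q u x) =
      exteriorPower.map q v (exteriorPower.map q f x) := by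
  have h1 : f.comp u = v.comp f := LinearMap.ext h
  have h2 := exteriorPower.map_comp (n := q) u f
  have h3 := exteriorPower.map_comp (n := q) f v
  rw [h1] at h2
  have h4 := LinearMap.congr_fun (h2.symm.trans h3) x
  exact h4

theorem CV.dold {I : ℕ → Type} (dg : ∀ n, I n → ℕ) (hfin : ∀ n k, {i | dg n i = k}.Finite)
    (act : ∀ {m n : ℕ}, Mo m n → ((I m →₀ ZMod 2) →ₗ[ZMod 2] (I n →₀ ZMod 2)))
    (h1 : ∀ {n : ℕ} (x : I n →₀ ZMod 2), act OrderHom.id x = x)
    (h2 : ∀ {l m n : ℕ} (f : Mo l m) (g : Mo m n) (x : I l →₀ ZMod 2),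
      act g (act f x) = act (g.comp f) x)
    (hdeg : ∀ {m n : ℕ} (g : Mo m n), DegPres (dg m) (dg n) (act g)) (D m : ℕ)
    (hex : ∀ j ≤ m, ∀ k, D < k → ∀ z : I j →₀ ZMod 2, (∀ i ∈ z.support, dg j i = k) →
      (CV.ofI act h1 h2).d j z = 0 → z ∈ (CV.ofI act h1 h2).Bd j)
    (q j : ℕ) (hj : j ≤ m) (k : ℕ) (hk : q * D < k)
    (x : ⋀[ZMod 2]^q (I j →₀ ZMod 2)) (hx : x ∈ WD (dg j) q k)
    (hd : ((CV.ofI act h1 h2).ext q).d j x = 0) : x ∈ ((CV.ofI act h1 h2).ext q).Bd j := by
  obtain ⟨G, hG0, hG1⟩ := CV.grcon dg hfin act h1 h2 hdeg D m hex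
  let G' : CHpy ((CV.ofI act h1 h2).ext q) :=
    { app := fun n θ => exteriorPower.map q (G.app n θ)
      nat := fun g θ y => a511_comm q _ _ _ (fun z => G.nat g θ z) y }
  have h3 := CHpy.prism G' j x hd
  have h4 : G'.app j (cst 0) x = x := by
    show exteriorPower.map q (G.app j (cst 0)) x = x
    have h5 : G.app j (cst 0) = LinearMap.id := LinearMap.ext fun y => hG0 j y
    rw [h5, exteriorPower.map_id]
    rfl
  have h5 : G'.app j (cst 1) x = 0 :=
    a511_kill (dg j) D q k hk (G.app j (cst 1)) (fun i hi => hG1 j hj i hi) x hx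
  rw [h4, h5, add_zero] at h3
  exact h3

end MM

end

/-! ### from `Lib_MP_33f7bb_d.A512` -/

section

/-!
# A5-12: Dold for the primitives of `X : CoB`

Take `act` from `CosRel.exists_act X.pRel`.  Degrees: `DegPres` is closed under composition, holds for `id`, `X.pcf s i`, `X.pcd s j`
(`pmap_deg`), so for all `act g` (`mo_induction`; `dlt i = dl s i`, `sgm j = sg s j`: `dl_eq`, `sg_eq`).  `X.dg_fin`.
`(CV.ofI act).d s = X.pd s` (`sum_dl`), so `hex` is `X.PEx`.  `((CV.ofI act).ext q).d s = ∑_(i ∈ range (s+2)) exteriorPower.map q (X.pcf s i)`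
(`sum_dl`).  Apply `CV.dold`.
-/

namespace MM

/-- the differential of the exterior powers of the primitives -/
noncomputable def CoB.dE (X : CoB) (q s : ℕ) :
    ⋀[ZMod 2]^q (X.I s →₀ ZMod 2) →ₗ[ZMod 2] ⋀[ZMod 2]^q (X.I (s + 1) →₀ ZMod 2) :=
  ∑ i ∈ Finset.range (s + 2), exteriorPower.map q (X.pcf s i)

private theorem A512_apply {B B' : Type} {dg : B → ℕ} {dg' : B' → ℕ}
    {f : (B →₀ ZMod 2) →ₗ[ZMod 2] (B' →₀ ZMod 2)} (hf : DegPres dg dg' f) {k : ℕ}
    (x : B →₀ ZMod 2) (hx : ∀ b ∈ x.support, dg b = k) : ∀ b' ∈ (f x).support, dg' b' = k := by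
  intro b' hb'
  by_contra hne
  have h0 : (f x) b' = 0 := by
    have hx' : x = x.sum fun b c => Finsupp.single b c := (Finsupp.sum_single x).symm
    rw [hx', Finsupp.sum, map_sum, Finset.sum_apply']
    refine Finset.sum_eq_zero fun b hb => ?_
    have h1 : (Finsupp.single b (x b) : B →₀ ZMod 2) = x b • Finsupp.single b 1 := by
      rw [Finsupp.smul_single, smul_eq_mul, mul_one]
    rw [h1, map_smul, Finsupp.smul_apply]
    have h2 : (f (Finsupp.single b 1)) b' = 0 := by
      by_contra h3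
      exact hne ((hf b b' (Finsupp.mem_support_iff.2 h3)).trans (hx b hb))
    rw [h2, smul_zero]
  exact (Finsupp.mem_support_iff.1 hb') h0

private theorem A512_comp {B B' B'' : Type} {dg : B → ℕ} {dg' : B' → ℕ} {dg'' : B'' → ℕ}
    {f : (B →₀ ZMod 2) →ₗ[ZMod 2] (B' →₀ ZMod 2)} {g : (B' →₀ ZMod 2) →ₗ[ZMod 2] (B'' →₀ ZMod 2)}
    (hf : DegPres dg dg' f) (hg : DegPres dg' dg'' g) : DegPres dg dg'' (g.comp f) :=
  fun b => A512_apply hg _ (hf b)

private theorem A512_id {B : Type} (dg : B → ℕ) : DegPres dg dg LinearMap.id := by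
  intro b b' hb'
  have h := Finsupp.support_single_subset hb'
  rw [Finset.mem_singleton] at h
  rw [h]

/-- the operators on the primitives -/
private theorem A512_act (X : CoB) :
    ∃ act : ∀ {m n : ℕ}, Mo m n → ((X.I m →₀ ZMod 2) →ₗ[ZMod 2] (X.I n →₀ ZMod 2)),
      (∀ {n : ℕ} (x : X.I n →₀ ZMod 2), act (OrderHom.id : Mo n n) x = x) ∧
      (∀ {l m n : ℕ} (f : Mo l m) (g : Mo m n) (x : X.I l →₀ ZMod 2),
        act g (act f x) = act (g.comp f) x) ∧
      (∀ s i, i < s + 2 → act (dl s i) = X.pcf s i) ∧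
      (∀ {m n : ℕ} (g : Mo m n), DegPres (X.dg m) (X.dg n) (act g)) := by
  obtain ⟨act, h1, h2, h3, h4⟩ := CosRel.exists_act X.pRel
  refine ⟨act, h1, h2, h3, fun {m n} g => ?_⟩
  refine mo_induction (P := fun m n g => DegPres (X.dg m) (X.dg n) (act g)) ?_ ?_ ?_ ?_ m n g
  · intro n
    have : act (OrderHom.id : Mo n n) = LinearMap.id := LinearMap.ext fun x => h1 x
    rw [this]
    exact A512_id _
  · intro n i
    have h := h3 n i i.2
    rw [dl_eq i.2] at h
    have h' : act (dlt i) = X.pcf n i := h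
    rw [h']
    exact pmap_deg (X.cf_deg n i)
  · intro n i
    have h := h4 n i i.2
    rw [sg_eq i.2] at h
    have h' : act (sgm i) = X.pcd n i := h
    rw [h']
    exact pmap_deg (X.cd_deg n i)
  · intro l m n f g hf hg
    have : act (f.comp g) = (act f).comp (act g) := LinearMap.ext fun x => (h2 g f x).symm
    rw [this]
    exact A512_comp hg hf

private theorem A512_d (X : CoB)
    (act : ∀ {m n : ℕ}, Mo m n → ((X.I m →₀ ZMod 2) →ₗ[ZMod 2] (X.I n →₀ ZMod 2)))
    (h1 : ∀ {n : ℕ} (x : X.I n →₀ ZMod 2), act (OrderHom.id : Mo n n) x = x)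
    (h2 : ∀ {l m n : ℕ} (f : Mo l m) (g : Mo m n) (x : X.I l →₀ ZMod 2),
        act g (act f x) = act (g.comp f) x)
    (h3 : ∀ s i, i < s + 2 → act (dl s i) = X.pcf s i) (s : ℕ) (x : X.I s →₀ ZMod 2) :
    (CV.ofI act h1 h2).d s x = X.pd s x := by
  have e : (CV.ofI act h1 h2).d s = X.pd s := by
    show ∑ i : Fin (s + 2), act (dlt i) = ∑ i ∈ Finset.range (s + 2), X.pcf s i
    rw [sum_dl (fun g => act g)]
    exact Finset.sum_congr rfl fun i hi => h3 s i (Finset.mem_range.1 hi)
  exact LinearMap.congr_fun e x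

private theorem A512_dE (X : CoB)
    (act : ∀ {m n : ℕ}, Mo m n → ((X.I m →₀ ZMod 2) →ₗ[ZMod 2] (X.I n →₀ ZMod 2)))
    (h1 : ∀ {n : ℕ} (x : X.I n →₀ ZMod 2), act (OrderHom.id : Mo n n) x = x)
    (h2 : ∀ {l m n : ℕ} (f : Mo l m) (g : Mo m n) (x : X.I l →₀ ZMod 2),
        act g (act f x) = act (g.comp f) x)
    (h3 : ∀ s i, i < s + 2 → act (dl s i) = X.pcf s i) (q s : ℕ) :
    ((CV.ofI act h1 h2).ext q).d s = X.dE q s := by
  show ∑ i : Fin (s + 2), exteriorPower.map q (act (dlt i)) =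
    ∑ i ∈ Finset.range (s + 2), exteriorPower.map q (X.pcf s i)
  rw [sum_dl (fun g => exteriorPower.map q (act g))]
  exact Finset.sum_congr rfl fun i hi => by rw [h3 s i (Finset.mem_range.1 hi)]

theorem CoB.dold_zero (X : CoB) (D : ℕ) (hex : ∀ k, D < k → X.PEx 0 k) (q k : ℕ) (hk : q * D < k)
    (x : ⋀[ZMod 2]^q (X.I 0 →₀ ZMod 2)) (hx : x ∈ WD (X.dg 0) q k) (hd : X.dE q 0 x = 0) :
    x = 0 := by
  obtain ⟨act, h1, h2, h3, h4⟩ := A512_act X
  have h := CV.dold X.dg X.dg_fin act h1 h2 h4 D 0 (by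
    intro j hj k hk z hz hd
    obtain rfl : j = 0 := by omega
    rw [A512_d X act h1 h2 h3] at hd
    have h0 : z = 0 := hex k hk z hz hd
    rw [h0]
    exact Submodule.zero_mem _) q 0 le_rfl k hk x hx (by
    rw [A512_dE X act h1 h2 h3]
    exact hd)
  exact (Submodule.mem_bot (ZMod 2)).1 h

theorem CoB.dold_succ (X : CoB) (D s : ℕ) (hex : ∀ j ≤ s + 1, ∀ k, D < k → X.PEx j k) (q k : ℕ)
    (hk : q * D < k) (x : ⋀[ZMod 2]^q (X.I (s + 1) →₀ ZMod 2)) (hx : x ∈ WD (X.dg (s + 1)) q k)
    (hd : X.dE q (s + 1) x = 0) : ∃ ω, X.dE q s ω = x := by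
  obtain ⟨act, h1, h2, h3, h4⟩ := A512_act X
  have h := CV.dold X.dg X.dg_fin act h1 h2 h4 D (s + 1) (by
    intro j hj k hk z hz hd
    rw [A512_d X act h1 h2 h3] at hd
    cases j with
    | zero =>
      have h0 : z = 0 := hex 0 hj k hk z hz hd
      rw [h0]
      exact Submodule.zero_mem _
    | succ j =>
      obtain ⟨w, -, hw⟩ := hex (j + 1) hj k hk z hz hd
      refine ⟨w, ?_⟩
      rw [A512_d X act h1 h2 h3]
      exact hw) q (s + 1) le_rfl k hk x hx (by
    rw [A512_dE X act h1 h2 h3]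
    exact hd)
  obtain ⟨ω, hω⟩ := h
  refine ⟨ω, ?_⟩
  rw [A512_dE X act h1 h2 h3] at hω
  exact hω

theorem CoB.rho_pdT (X : CoB) (q s : ℕ) (p : Wd (X.I s)) :
    rho (X.I (s + 1)) q (X.pdT s p) = X.dE q s (rho (X.I s) q p) := by
  simp only [CoB.pdT, CoB.dE, LinearMap.sum_apply, map_sum, rho_wmap]

end MM

end

/-! ### from `Lib_MP_33f7bb_d.A513` -/

section

/-!
# A5-13: the staircase

Write `d = X.dT`, `D = Dw` (`D D = 0`, `d d = 0`, `D d = d D`).

`stair`: by induction on `j`, for all `q ≥ 1` (write `q`), `k`.  Let `y ∈ T (j+1) q k`, `d y = 0`, `D y = 0`.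
 By `row_succ` `y = d x`, `x ∈ T j q k`.  `u = D x ∈ T j (q+1) k`, `d u = D d x = D y = 0`, `D u = 0`.
 `j = 0`: `u = 0` by `row_zero` (`k ≠ (q+1) N`): done.
 `j = j' + 1`: by induction (for `j'`, `q + 1`; the bounds involve only `q + j`) there is `x' ∈ T j' (q+1) k` with `d x' = u`, `D x' = 0`.  `col1`: `x' = emW p + D x''`,
 `p ∈ Len (q+1)`, `x'' ∈ Len q`; applying `prk k` we may assume `p ∈ LenD (q+1) k` (`x' = prk k x'`, `emW_prk`, `Dw_prk`).  Then
 `D x = d x' = emW (pdT p) + D (d x'')`, so `emW (pdT p) = D (x + d x'')` (char 2), so `rho (pdT p) = 0` (`rho_Dw`), i.e. `dE (rho p) = 0` (`rho_pdT`),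
 `rho p ∈ WD (q+1) k` (`rho_WD`), `(q+1) D0 ≤ (q + j) D0 < k`.
  If `j' = 0`: `rho p = 0` (`dold_zero`), so `emW p = D z`, `z ∈ Len q` (`rho_ker`), `x' = D (z + x'')`.
  If `j' = j'' + 1`: `rho p = dE ω` (`dold_succ`), `ω = rho p'`, `p' ∈ Len (q+1)` (`rho_surj`), `rho (p + pdT p') = 0`, so `emW (p + pdT p') = D z`, `x' = emW (pdT p') +
  D (z + x'')` and `d x' = d (emW (pdT p')) + d D (z + x'') = d D (z + x'')`, because `emW (pdT p') = d (emW p')`, `d d = 0`.
 In both cases `D x = d x' = D (d v)`, `v = z + x'' ∈ Len q`, `v` in level `j'`.  Put `v' = prk k v`; `D (x + d v') = D x + D d (prk k v) = D x + prk k (D d v) = D x + prk k (D x) = 0`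
 (`D x` is homogeneous of degree `k`).  `x + d v' ∈ T j q k` and `d (x + d v') = d x = y`.
`bnd`: strong induction on `s`.  `s = 0`: `D = N`: for `z` homogeneous of degree `k > N` with `pd z = 0` let `y = emW (lc z [])`, `d y = emW (lc (pd z) []) = 0`
(`dT_emW`, `pdT_one`), so `y = 0` by `row_zero` (`q = 1`), `z = 0` (`emW_one_injective`).  `s = j + 1`: `D0` = maximum of the bounds for the levels `< j`, bound `(j + 2) * (D0 + N)`;
`y = emW (lc z []) ∈ T (j+1) 1 k`; `stair` gives `x ∈ T j 1 k`, `d x = y`, `D x = 0`; `x = emW (lc w [])` (`Dw_eq_zero_one`), `w` homogeneous of degree `k` (`emW_one_LenD`), `pd w = z`.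
-/

namespace MM

namespace CoB

variable (X : CoB)

private theorem A513_one_dT (s : ℕ) (z : X.I s →₀ ZMod 2) :
    X.dT s (emW (lc z (Finsupp.single [] 1))) = emW (lc (X.pd s z) (Finsupp.single [] 1)) := by
  rw [dT_emW, pdT_one]

private theorem A513_add_self {M : Type*} [AddCommGroup M] [Module (ZMod 2) M] (x : M) :
    x + x = 0 := two_eq_zero' x

/-- the vertical cycle `x'` can be replaced by a vertical boundary without changing `d x'` -/
private theorem A513_step (D0 : ℕ) (j : ℕ) (hex : ∀ i < j + 1, ∀ k, D0 < k → X.PEx i k)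
    (q k : ℕ) (hk : (q + 1) * D0 < k) (x : Wd (Lt (X.I (j + 1)))) (x' : Wd (Lt (X.I j)))
    (hx' : x' ∈ X.T j (q + 1) k) (hD : Dw x' = 0) (hd : X.dT j x' = Dw x) :
    ∃ v ∈ Len (Lt (X.I j)) q, Dw x = X.dT j (Dw v) := by
  obtain ⟨p0, hp0, x0, hx0, he0⟩ := col1 q (LenD_le hx') hD
  set p := prk (X.dg j) k p0 with hp
  set x1 := prk (Lt.deg (X.dg j)) k x0 with hx1
  have hpD : p ∈ LenD (X.dg j) (q + 1) k := prk_mem _ _ hp0
  have hx1D : x1 ∈ LenD (Lt.deg (X.dg j)) q k := prk_mem _ _ hx0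
  have he : x' = emW p + Dw x1 := by
    rw [← prk_eq hx', he0, map_add, hp, hx1, emW_prk, Dw_prk]
  have h1 : emW (X.pdT j p) = Dw (x + X.dT j x1) := by
    rw [map_add, Dw_dT, ← hd, he, map_add, dT_emW, add_assoc, A513_add_self, add_zero]
  have h2 : X.dE (q + 1) j (rho (X.I j) (q + 1) p) = 0 := by
    rw [← rho_pdT]
    exact rho_Dw (q + 1) h1
  have h3 : rho (X.I j) (q + 1) p ∈ WD (X.dg j) (q + 1) k := rho_WD hpD
  cases j with
  | zero =>
    have h4 := X.dold_zero D0 (fun k hk => hex 0 (by omega) k hk) (q + 1) k hk _ h3 h2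
    obtain ⟨z, hz, hzp⟩ := rho_ker q (LenD_le hpD) h4
    refine ⟨z + x1, Submodule.add_mem _ hz (LenD_le hx1D), ?_⟩
    rw [← hd, he, hzp, ← map_add]
  | succ j =>
    obtain ⟨ω, hω⟩ := X.dold_succ D0 j (fun i hi k hk => hex i (by omega) k hk) (q + 1) k hk _ h3 h2
    obtain ⟨p', hp', hpω⟩ := rho_surj (q + 1) ω
    have h4 : rho (X.I (j + 1)) (q + 1) (p + X.pdT j p') = 0 := by
      rw [map_add, rho_pdT, hpω, hω, A513_add_self]
    obtain ⟨z, hz, hzp⟩ := rho_ker q (Submodule.add_mem _ (LenD_le hpD) (X.pdT_Len hp')) h4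
    refine ⟨z + x1, Submodule.add_mem _ hz (LenD_le hx1D), ?_⟩
    have h5 : emW p = Dw z + X.dT j (emW p') := by
      rw [dT_emW, ← hzp, map_add, add_assoc, A513_add_self, add_zero]
    rw [← hd, he, h5, map_add, map_add, dT_dT, add_zero, map_add, map_add]

theorem stair (D0 : ℕ) : ∀ (j : ℕ) (_ : ∀ i < j, ∀ k, D0 < k → X.PEx i k) (q k : ℕ), 1 ≤ q →
    (q + j) * D0 < k → (q + j + 1) * X.N < k → ∀ y ∈ X.T (j + 1) q k, X.dT (j + 1) y = 0 → Dw y = 0 →
    ∃ x ∈ X.T j q k, X.dT j x = y ∧ Dw x = 0 := by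
  intro j
  induction j with
  | zero =>
    intro _ q k hq hk1 hk2 y hy hdy hDy
    obtain ⟨x, hx, hxy⟩ := X.row_succ hy hdy
    refine ⟨x, hx, hxy, ?_⟩
    have e1 : q + 0 + 1 = q + 1 := rfl
    rw [e1] at hk2
    refine X.row_zero (q := q + 1) (k := k) (by omega) (Dw_LenD hx) ?_
    rw [← Dw_dT, hxy, hDy]
  | succ j ih =>
    intro hex q k hq hk1 hk2 y hy hdy hDy
    obtain ⟨x, hx, hxy⟩ := X.row_succ hy hdy
    have e1 : q + 1 + j = q + (j + 1) := by omega
    obtain ⟨x', hx', hdx', hDx'⟩ := ih (fun i hi => hex i (by omega)) (q + 1) k (by omega)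
      (by rw [e1]; exact hk1) (by rw [e1]; exact hk2) (Dw x) (Dw_LenD hx)
      (by rw [← Dw_dT, hxy, hDy]) (Dw_Dw x)
    have hk3 : (q + 1) * D0 < k :=
      lt_of_le_of_lt (Nat.mul_le_mul_right _ (by omega)) hk1
    obtain ⟨v, hv, hDx⟩ := A513_step X D0 j hex q k hk3 x x' hx' hDx' hdx'
    have hv' : prk (Lt.deg (X.dg j)) k v ∈ X.T j q k := prk_mem _ _ hv
    refine ⟨x + X.dT j (prk (Lt.deg (X.dg j)) k v), Submodule.add_mem _ hx (X.dT_T hv'), ?_, ?_⟩
    · rw [map_add, dT_dT, add_zero, hxy]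
    · rw [map_add, Dw_dT, Dw_prk, dT_prk, ← hDx, prk_eq (Dw_LenD hx), A513_add_self]

/-- boundedness for `X : CoB` -/
theorem bnd (s : ℕ) : ∃ D, ∀ k, D < k → X.PEx s k := by
  induction s using Nat.strong_induction_on with
  | _ s ih =>
    cases s with
    | zero =>
      refine ⟨X.N, fun k hk z hz hd => ?_⟩
      have h1 : emW (lc z (Finsupp.single [] 1)) ∈ X.T 0 1 k := emW_one_LenD.2 hz
      have h2 : X.dT 0 (emW (lc z (Finsupp.single [] 1))) = 0 := by
        rw [A513_one_dT, hd, map_zero, LinearMap.zero_apply, map_zero]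
      have h3 := X.row_zero (by omega) h1 h2
      refine emW_one_injective (I := X.I 0) ?_
      show emW (lc z (Finsupp.single [] 1)) = emW (lc 0 (Finsupp.single [] 1))
      rw [h3, map_zero, LinearMap.zero_apply, map_zero]
    | succ j =>
      have h0 : ∃ D0, ∀ i < j, ∀ k, D0 < k → X.PEx i k := by
        have hD : ∀ i, ∃ D, i < j → ∀ k, D < k → X.PEx i k := by
          intro i
          by_cases hi : i < j
          · obtain ⟨D, hD⟩ := ih i (by omega)
            exact ⟨D, fun _ => hD⟩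
          · exact ⟨0, fun h => absurd h hi⟩
        choose D hD using hD
        refine ⟨(Finset.range j).sup D, fun i hi k hk => hD i hi k ?_⟩
        exact lt_of_le_of_lt (Finset.le_sup (f := D) (Finset.mem_range.2 hi)) hk
      obtain ⟨D0, hD0⟩ := h0
      refine ⟨(j + 2) * (D0 + X.N), fun k hk z hz hd => ?_⟩
      have hk1 : (1 + j) * D0 < k := by
        refine lt_of_le_of_lt ?_ hk
        exact Nat.mul_le_mul (by omega) (by omega)
      have hk2 : (1 + j + 1) * X.N < k := by
        refine lt_of_le_of_lt ?_ hk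
        exact Nat.mul_le_mul (by omega) (by omega)
      have h1 : emW (lc z (Finsupp.single [] 1)) ∈ X.T (j + 1) 1 k := emW_one_LenD.2 hz
      have h2 : X.dT (j + 1) (emW (lc z (Finsupp.single [] 1))) = 0 := by
        rw [A513_one_dT, hd, map_zero, LinearMap.zero_apply, map_zero]
      obtain ⟨x, hx, hdx, hDx⟩ := X.stair D0 j hD0 1 k le_rfl hk1 hk2 _ h1 h2 (Dw_emW _)
      obtain ⟨w, rfl⟩ := Dw_eq_zero_one (LenD_le hx) hDx
      refine ⟨w, emW_one_LenD.1 hx, ?_⟩
      refine emW_one_injective (I := X.I (j + 1)) ?_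
      show emW (lc (X.pd j w) (Finsupp.single [] 1)) = emW (lc z (Finsupp.single [] 1))
      rw [← hdx, A513_one_dT]

end CoB

end MM

end

/-! ### from `Lib_MP_33f7bb_d.S2` -/

section

/-!
# S2: the operators `SdL`, `DL`, `SdX`, `DX`

`SdX` is a chain map, `DX` a chain homotopy between `SdX` and the identity; both preserve chains in a subset.
-/

namespace MM

theorem S2_mapDomain_dif {P Q : SS} (f : Hom P Q) {n : ℕ} (z : Ch P (n + 1)) :
    dif (z.mapDomain (f.app (n + 1))) = (dif z).mapDomain (f.app n) := by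
  rw [dif, dif, Finsupp.mapDomain_finsetSum]
  refine Finset.sum_congr rfl fun i _ => ?_
  rw [← Finsupp.mapDomain_comp, ← Finsupp.mapDomain_comp]
  congr 1
  funext x
  exact (f.nat (dlt i) x).symm

/-! ## tuples -/

variable {n : ℕ}

theorem S2_cone_zero (b : Dtop n) (z : Ch (LD n) 0) :
    dif (coneL b 0 z) = z + Finsupp.single (fun _ => b) (z.sum fun _ c => c) := by
  classical
  induction z using Finsupp.induction_linear with
  | zero => simp
  | add x y hx hy =>
    rw [map_add, dif_add, hx, hy, Finsupp.sum_add_index' (by simp) (by simp), Finsupp.single_add]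
    abel
  | single w c =>
    rw [Finsupp.sum_single_index rfl]
    have h1 : coneL b 0 (Finsupp.single w c) = Finsupp.single (Fin.cons b w : Fin 2 → Dtop n) c := by
      show Finsupp.mapDomain _ _ = _
      rw [Finsupp.mapDomain_single]
    have e0 : (LD n).act (dlt (0 : Fin 2)) (Fin.cons b w : Fin 2 → Dtop n) = w := by
      funext i
      show (Fin.cons b w : Fin 2 → Dtop n) (dlt 0 i) = w i
      have : dlt (0 : Fin 2) i = Fin.succ i := by
        show Fin.succAbove 0 i = _
        rw [Fin.zero_succAbove]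
      rw [this, Fin.cons_succ]
    have e1 : (LD n).act (dlt (1 : Fin 2)) (Fin.cons b w : Fin 2 → Dtop n) = fun _ => b := by
      funext i
      show (Fin.cons b w : Fin 2 → Dtop n) (dlt 1 i) = b
      have : dlt (1 : Fin 2) i = 0 := by
        have hi : i = 0 := Fin.ext (by have h5 := i.2; show (i : ℕ) = 0; omega)
        subst hi
        rfl
      rw [this, Fin.cons_zero]
    rw [h1, dif, Fin.sum_univ_two, Finsupp.mapDomain_single, Finsupp.mapDomain_single, e0, e1]

theorem S2_cone_succ (b : Dtop n) (m : ℕ) (z : Ch (LD n) (m + 1)) :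
    dif (coneL b (m + 1) z) = z + coneL b m (dif z) := by
  classical
  induction z using Finsupp.induction_linear with
  | zero => simp
  | add x y hx hy => rw [map_add, dif_add, hx, hy, dif_add, map_add]; abel
  | single w c =>
    have h1 : ∀ (k : ℕ) (u : Fin (k + 1) → Dtop n), coneL b k (Finsupp.single u c) =
        Finsupp.single (Fin.cons b u : Fin (k + 2) → Dtop n) c := fun k u => by
      show Finsupp.mapDomain _ _ = _
      rw [Finsupp.mapDomain_single]
    have e0 : (LD n).act (dlt (0 : Fin (m + 3))) (Fin.cons b w : Fin (m + 3) → Dtop n) = w := by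
      funext i
      show (Fin.cons b w : Fin (m + 3) → Dtop n) (dlt 0 i) = w i
      have : dlt (0 : Fin (m + 3)) i = Fin.succ i := by
        show Fin.succAbove 0 i = _
        rw [Fin.zero_succAbove]
      rw [this, Fin.cons_succ]
    rw [h1, dif, Fin.sum_univ_succ, Finsupp.mapDomain_single, e0]
    congr 1
    · rw [dif, map_sum]
      refine Finset.sum_congr rfl fun k _ => ?_
      rw [Finsupp.mapDomain_single, Finsupp.mapDomain_single, h1]
      congr 1
      funext i
      show (Fin.cons b w : Fin (m + 3) → Dtop n) (dlt k.succ i) =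
        (Fin.cons b (w ∘ dlt k) : Fin (m + 2) → Dtop n) i
      refine Fin.cases ?_ (fun j => ?_) i
      · have : dlt k.succ (0 : Fin (m + 2)) = 0 := by
          show Fin.succAbove k.succ 0 = 0
          exact Fin.succ_succAbove_zero k
        rw [this, Fin.cons_zero, Fin.cons_zero]
      · have : dlt k.succ j.succ = (dlt k j).succ := by
          show Fin.succAbove k.succ j.succ = (Fin.succAbove k j).succ
          exact Fin.succ_succAbove_succ k j
        rw [this, Fin.cons_succ, Fin.cons_succ]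
        rfl

theorem S2_SdL_single (m : ℕ) (w : Fin (m + 2) → Dtop n) (c : ZMod 2) :
    SdL n (m + 1) (Finsupp.single w c) =
      c • coneL (bary w) m (SdL n m (dif (P := LD n) (Finsupp.single w 1))) := by
  rw [SdL, Finsupp.linearCombination_single]

theorem S2_DL_single (m : ℕ) (w : Fin (m + 2) → Dtop n) (c : ZMod 2) :
    DL n (m + 1) (Finsupp.single w c) =
      c • coneL (bary w) (m + 1) (Finsupp.single w 1 +
        DL n m (dif (P := LD n) (Finsupp.single w 1))) := by
  rw [DL, Finsupp.linearCombination_single]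

theorem S2_aug (z : Ch (LD n) 1) : ((dif z).sum fun _ c => c) = 0 := by
  classical
  induction z using Finsupp.induction_linear with
  | zero => simp
  | add x y hx hy =>
    rw [dif_add, Finsupp.sum_add_index' (by simp) (by simp), hx, hy, add_zero]
  | single w c =>
    rw [dif, Fin.sum_univ_two, Finsupp.mapDomain_single, Finsupp.mapDomain_single,
      Finsupp.sum_add_index' (by simp) (by simp), Finsupp.sum_single_index rfl,
      Finsupp.sum_single_index rfl]
    exact two_eq_zero' c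

/-- linear maps out of chains agree if they agree on simplices -/
theorem S2_ext {P : SS} {m : ℕ} {M : Type} [AddCommGroup M] [Module (ZMod 2) M]
    {F G : Ch P m →ₗ[ZMod 2] M} (h : ∀ x, F (Finsupp.single x 1) = G (Finsupp.single x 1)) :
    F = G := Finsupp.lhom_ext' fun x => LinearMap.ext_ring (h x)

/-- `dif` as a linear map -/
noncomputable def difL (P : SS) (m : ℕ) : Ch P (m + 1) →ₗ[ZMod 2] Ch P m := (lin P).d m

theorem difL_apply {P : SS} {m : ℕ} (z : Ch P (m + 1)) : difL P m z = dif z := lin_d z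

theorem S2_dif_SdL (m : ℕ) (z : Ch (LD n) (m + 1)) :
    dif (SdL n (m + 1) z) = SdL n m (dif z) := by
  induction m with
  | zero =>
    have h : (difL (LD n) 0).comp (SdL n 1) = (SdL n 0).comp (difL (LD n) 0) := by
      refine S2_ext fun w => ?_
      rw [LinearMap.comp_apply, LinearMap.comp_apply, difL_apply, difL_apply]
      rw [S2_SdL_single, one_smul, S2_cone_zero]
      have h2 : SdL n 0 (dif (P := LD n) (Finsupp.single w 1)) =
        dif (P := LD n) (Finsupp.single w 1) := rfl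
      rw [h2, S2_aug, Finsupp.single_zero, add_zero]
    have := LinearMap.congr_fun h z
    rwa [LinearMap.comp_apply, LinearMap.comp_apply, difL_apply, difL_apply] at this
  | succ m ih =>
    have h : (difL (LD n) (m + 1)).comp (SdL n (m + 2)) =
        (SdL n (m + 1)).comp (difL (LD n) (m + 1)) := by
      refine S2_ext fun w => ?_
      rw [LinearMap.comp_apply, LinearMap.comp_apply, difL_apply, difL_apply]
      rw [S2_SdL_single, one_smul, S2_cone_succ, ih, dif_dif, map_zero, map_zero, add_zero]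
    have := LinearMap.congr_fun h z
    rwa [LinearMap.comp_apply, LinearMap.comp_apply, difL_apply, difL_apply] at this

theorem S2_dif_DL (m : ℕ) (z : Ch (LD n) (m + 1)) :
    dif (DL n (m + 1) z) = z + SdL n (m + 1) z + DL n m (dif z) := by
  induction m with
  | zero =>
    have h : (difL (LD n) 1).comp (DL n 1) = LinearMap.id + SdL n 1 +
        (DL n 0).comp (difL (LD n) 0) := by
      refine S2_ext fun w => ?_
      rw [LinearMap.comp_apply, LinearMap.add_apply, LinearMap.add_apply, LinearMap.comp_apply,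
        LinearMap.id_apply, difL_apply, difL_apply]
      rw [S2_DL_single, one_smul, S2_cone_succ, dif_add]
      have h2 : ∀ y, DL n 0 y = 0 := fun _ => rfl
      rw [h2, dif_zero, add_zero, add_zero, S2_SdL_single, one_smul, add_zero]
      rfl
    have := LinearMap.congr_fun h z
    rwa [LinearMap.comp_apply, LinearMap.add_apply, LinearMap.add_apply, LinearMap.comp_apply,
        LinearMap.id_apply, difL_apply, difL_apply] at this
  | succ m ih =>
    have h : (difL (LD n) (m + 2)).comp (DL n (m + 2)) = LinearMap.id + SdL n (m + 2) +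
        (DL n (m + 1)).comp (difL (LD n) (m + 1)) := by
      refine S2_ext fun w => ?_
      rw [LinearMap.comp_apply, LinearMap.add_apply, LinearMap.add_apply, LinearMap.comp_apply,
        LinearMap.id_apply, difL_apply, difL_apply]
      rw [S2_DL_single, one_smul, S2_cone_succ, dif_add, ih, dif_dif, map_zero, add_zero,
        S2_SdL_single, one_smul, ← add_assoc, two_eq_zero', zero_add]
      abel
    have := LinearMap.congr_fun h z
    rwa [LinearMap.comp_apply, LinearMap.add_apply, LinearMap.add_apply, LinearMap.comp_apply,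
        LinearMap.id_apply, difL_apply, difL_apply] at this

/-- push forward of tuples by an affine map -/
noncomputable def pushL {n' : ℕ} (v : Fin (n + 1) → Dtop n') : Hom (LD n) (LD n') :=
  ⟨fun _ w i => aff v (w i), fun _ _ => rfl⟩

theorem pushL_bary {n' m : ℕ} (v : Fin (n + 1) → Dtop n') (w : Fin (m + 1) → Dtop n) :
    bary ((pushL v).app m w) = aff v (bary w) := (aff_aff v w _).symm

theorem pushL_cone {n' : ℕ} (v : Fin (n + 1) → Dtop n') (b : Dtop n) (m : ℕ)
    (z : Ch (LD n) m) :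
    (coneL b m z).mapDomain ((pushL v).app (m + 1)) =
      coneL (aff v b) m (z.mapDomain ((pushL v).app m)) := by
  show Finsupp.mapDomain _ (Finsupp.mapDomain _ z) = Finsupp.mapDomain _ (Finsupp.mapDomain _ z)
  rw [← Finsupp.mapDomain_comp, ← Finsupp.mapDomain_comp]
  congr 1
  funext w
  show (fun i => aff v ((Fin.cons b w : Fin (m + 2) → Dtop n) i)) =
    (Fin.cons (aff v b) (fun i => aff v (w i)) : Fin (m + 2) → Dtop n')
  funext i
  refine Fin.cases ?_ (fun j => ?_) i
  · rw [Fin.cons_zero, Fin.cons_zero]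
  · rw [Fin.cons_succ, Fin.cons_succ]

/-- push forward as a linear map -/
noncomputable def pushC {n' : ℕ} (v : Fin (n + 1) → Dtop n') (m : ℕ) :
    Ch (LD n) m →ₗ[ZMod 2] Ch (LD n') m :=
  Finsupp.lmapDomain (ZMod 2) (ZMod 2) ((pushL v).app m)

theorem pushC_apply {n' : ℕ} (v : Fin (n + 1) → Dtop n') (m : ℕ) (z : Ch (LD n) m) :
    pushC v m z = z.mapDomain ((pushL v).app m) := rfl

theorem S2_push_SdL {n' : ℕ} (v : Fin (n + 1) → Dtop n') (m : ℕ) (z : Ch (LD n) m) :
    (SdL n m z).mapDomain ((pushL v).app m) = SdL n' m (z.mapDomain ((pushL v).app m)) := by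
  induction m with
  | zero => rfl
  | succ m ih =>
    have h : (pushC v (m + 1)).comp (SdL n (m + 1)) = (SdL n' (m + 1)).comp (pushC v (m + 1)) := by
      refine S2_ext fun w => ?_
      rw [LinearMap.comp_apply, LinearMap.comp_apply, pushC_apply, pushC_apply,
        Finsupp.mapDomain_single, S2_SdL_single, S2_SdL_single, one_smul, one_smul, pushL_cone, ih,
        ← S2_mapDomain_dif, Finsupp.mapDomain_single, pushL_bary]
    exact LinearMap.congr_fun h z

theorem S2_push_DL {n' : ℕ} (v : Fin (n + 1) → Dtop n') (m : ℕ) (z : Ch (LD n) m) :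
    (DL n m z).mapDomain ((pushL v).app (m + 1)) = DL n' m (z.mapDomain ((pushL v).app m)) := by
  induction m with
  | zero => exact Finsupp.mapDomain_zero
  | succ m ih =>
    have h : (pushC v (m + 2)).comp (DL n (m + 1)) = (DL n' (m + 1)).comp (pushC v (m + 1)) := by
      refine S2_ext fun w => ?_
      rw [LinearMap.comp_apply, LinearMap.comp_apply, pushC_apply, pushC_apply,
        Finsupp.mapDomain_single, S2_DL_single, S2_DL_single, one_smul, one_smul, pushL_cone,
        Finsupp.mapDomain_add, Finsupp.mapDomain_single, ih,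
        ← S2_mapDomain_dif, Finsupp.mapDomain_single, pushL_bary]
    exact LinearMap.congr_fun h z

/-! ## singular chains -/

variable {X : Type} [TopologicalSpace X]

theorem SdX_single (n : ℕ) (σ : C(Dtop n, X)) :
    SdX X n (Finsupp.single σ 1) = (SdL n n (Finsupp.single vtx 1)).mapDomain ((LS σ).app n) := by
  rw [SdX, Finsupp.linearCombination_single, one_smul]

theorem DX_single (n : ℕ) (σ : C(Dtop n, X)) :
    DX X n (Finsupp.single σ 1) =
      (DL n n (Finsupp.single vtx 1)).mapDomain ((LS σ).app (n + 1)) := by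
  rw [DX, Finsupp.linearCombination_single, one_smul]

theorem LS_push {n' : ℕ} (σ : C(Dtop n', X)) (v : Fin (n + 1) → Dtop n') (m : ℕ)
    (w : Fin (m + 1) → Dtop n) :
    (LS (σ.comp (aff v))).app m w = (LS σ).app m ((pushL v).app m w) := by
  show (σ.comp (aff v)).comp (aff w) = σ.comp (aff fun i => aff v (w i))
  rw [ContinuousMap.comp_assoc, aff_comp_aff]

theorem LS_push' {n' : ℕ} (σ : C(Dtop n', X)) (v : Fin (n + 1) → Dtop n') (m : ℕ)
    (z : Ch (LD n) m) :
    z.mapDomain ((LS (σ.comp (aff v))).app m) =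
      (z.mapDomain ((pushL v).app m)).mapDomain ((LS σ).app m) := by
  rw [← Finsupp.mapDomain_comp]
  congr 1
  funext w
  exact LS_push σ v m w

theorem pushL_vtx {n' : ℕ} (v : Fin (n + 1) → Dtop n') : (pushL v).app n vtx = v :=
  funext fun i => aff_vtx v i

/-- the face of a singular simplex -/
theorem S2_face (n : ℕ) (σ : C(Dtop (n + 1), X)) (i : Fin (n + 2)) :
    (Sing X).act (dlt i) σ = σ.comp (aff (vtx ∘ dlt i)) := by
  show σ.comp (tmap (dlt i)) = _
  rw [tmap_eq_aff]
  rfl

theorem S2_SdX_aff {n' : ℕ} (σ : C(Dtop n', X)) (v : Fin (n + 1) → Dtop n') :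
    SdX X n (Finsupp.single (σ.comp (aff v)) 1) =
      (SdL n' n (Finsupp.single v 1)).mapDomain ((LS σ).app n) := by
  rw [SdX_single, LS_push', S2_push_SdL, Finsupp.mapDomain_single, pushL_vtx]

theorem S2_DX_aff {n' : ℕ} (σ : C(Dtop n', X)) (v : Fin (n + 1) → Dtop n') :
    DX X n (Finsupp.single (σ.comp (aff v)) 1) =
      (DL n' n (Finsupp.single v 1)).mapDomain ((LS σ).app (n + 1)) := by
  rw [DX_single, LS_push', S2_push_DL, Finsupp.mapDomain_single, pushL_vtx]

theorem S2_dif_single (n : ℕ) (σ : C(Dtop (n + 1), X)) :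
    dif (P := Sing X) (Finsupp.single σ 1) =
      ∑ i : Fin (n + 2), Finsupp.single (σ.comp (aff (vtx ∘ dlt i))) 1 := by
  rw [dif]
  refine Finset.sum_congr rfl fun i _ => ?_
  rw [Finsupp.mapDomain_single, S2_face]

theorem S2_dif_vtx (n : ℕ) : dif (P := LD (n + 1)) (Finsupp.single (vtx : Fin (n + 2) → _) 1) =
    ∑ i : Fin (n + 2), Finsupp.single ((vtx : Fin (n + 2) → Dtop (n + 1)) ∘ dlt i) 1 := by
  rw [dif]
  refine Finset.sum_congr rfl fun i _ => ?_
  rw [Finsupp.mapDomain_single]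

theorem dif_SdX (n : ℕ) (z : Ch (Sing X) (n + 1)) :
    dif (SdX X (n + 1) z) = SdX X n (dif z) := by
  have h : (difL (Sing X) n).comp (SdX X (n + 1)) = (SdX X n).comp (difL (Sing X) n) := by
    refine S2_ext fun σ => ?_
    rw [LinearMap.comp_apply, LinearMap.comp_apply, difL_apply, difL_apply, SdX_single,
      S2_mapDomain_dif, S2_dif_SdL, S2_dif_single, S2_dif_vtx, map_sum, map_sum,
      Finsupp.mapDomain_finsetSum]
    exact Finset.sum_congr rfl fun i _ => (S2_SdX_aff σ _).symm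
  have := LinearMap.congr_fun h z
  rwa [LinearMap.comp_apply, LinearMap.comp_apply, difL_apply, difL_apply] at this

theorem SdX_zero (z : Ch (Sing X) 0) : SdX X 0 z = z := by
  have h : SdX X 0 = LinearMap.id := by
    refine S2_ext fun σ => ?_
    rw [SdX_single, LinearMap.id_apply]
    have h2 : SdL 0 0 (Finsupp.single vtx 1) = Finsupp.single vtx 1 := rfl
    rw [h2, Finsupp.mapDomain_single]
    show Finsupp.single (σ.comp (aff vtx)) 1 = _
    rw [aff_id, ContinuousMap.comp_id]
  rw [h, LinearMap.id_apply]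

theorem DX_zero (z : Ch (Sing X) 0) : DX X 0 z = 0 := by
  have h : DX X 0 = 0 := by
    refine S2_ext fun σ => ?_
    rw [DX_single, LinearMap.zero_apply]
    exact Finsupp.mapDomain_zero
  rw [h, LinearMap.zero_apply]

theorem dif_DX (n : ℕ) (z : Ch (Sing X) (n + 1)) :
    dif (DX X (n + 1) z) = z + SdX X (n + 1) z + DX X n (dif z) := by
  have h : (difL (Sing X) (n + 1)).comp (DX X (n + 1)) = LinearMap.id + SdX X (n + 1) +
      (DX X n).comp (difL (Sing X) n) := by
    refine S2_ext fun σ => ?_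
    rw [LinearMap.comp_apply, LinearMap.add_apply, LinearMap.add_apply, LinearMap.comp_apply,
        LinearMap.id_apply, difL_apply, difL_apply, DX_single, S2_mapDomain_dif, S2_dif_DL,
        Finsupp.mapDomain_add, Finsupp.mapDomain_add, Finsupp.mapDomain_single, S2_dif_single,
        S2_dif_vtx, map_sum, map_sum, Finsupp.mapDomain_finsetSum, SdX_single]
    congr 1
    · congr 1
      show Finsupp.single (σ.comp (aff vtx)) 1 = _
      rw [aff_id, ContinuousMap.comp_id]
    · exact Finset.sum_congr rfl fun i _ => (S2_DX_aff σ _).symm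
  have := LinearMap.congr_fun h z
  rwa [LinearMap.comp_apply, LinearMap.add_apply, LinearMap.add_apply, LinearMap.comp_apply,
        LinearMap.id_apply, difL_apply, difL_apply] at this

theorem S2_suppIn_map {P Q : SS} {m k : ℕ} (f : P.S m → Q.S k) (B : Sub Q) (hf : ∀ x, f x ∈ B.car k)
    (z : Ch P m) : SuppIn B (z.mapDomain f : Ch Q k) := by
  classical
  intro y hy
  obtain ⟨x, _, rfl⟩ := Finset.mem_image.1 (Finsupp.mapDomain_support hy)
  exact hf x

theorem S2_suppIn_lin {P Q : SS} {m k : ℕ} (F : Ch P m →ₗ[ZMod 2] Ch Q k) (A : Sub P) (B : Sub Q)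
    (hF : ∀ x ∈ A.car m, SuppIn B (F (Finsupp.single x 1))) (z : Ch P m) (hz : SuppIn A z) :
    SuppIn B (F z) := by
  classical
  have h1 : z = ∑ x ∈ z.support, z x • Finsupp.single x (1 : ZMod 2) := by
    conv_lhs => rw [← Finsupp.sum_single z]
    refine Finset.sum_congr rfl fun x _ => ?_
    rw [Finsupp.smul_single, smul_eq_mul, mul_one]
  rw [h1, map_sum, suppIn_iff]
  refine Submodule.sum_mem _ fun x hx => ?_
  rw [map_smul]
  exact Submodule.smul_mem _ _ (hF x (hz x hx))

theorem suppIn_SdX (A : Set X) (n : ℕ) (z : Ch (Sing X) n) (hz : SuppIn (SingIn A) z) :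
    SuppIn (SingIn A) (SdX X n z) := by
  refine S2_suppIn_lin _ _ _ (fun σ hσ => ?_) z hz
  rw [SdX_single]
  refine S2_suppIn_map _ (SingIn A) (fun w => ?_) _
  intro t
  exact hσ (aff w t)

theorem suppIn_DX (A : Set X) (n : ℕ) (z : Ch (Sing X) n) (hz : SuppIn (SingIn A) z) :
    SuppIn (SingIn A) (DX X n z) := by
  refine S2_suppIn_lin _ _ _ (fun σ hσ => ?_) z hz
  rw [DX_single]
  refine S2_suppIn_map _ (SingIn A) (fun w => ?_) _
  intro t
  exact hσ (aff w t)

end MM

end

/-! ### from `Lib_MP_33f7bb_d.S5` -/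

section

/-!
# S5: small simplices

`small_simplices_rel`: if `S ⊆ O1 ∪ O2` with `O1, O2` open and `S ∩ Oi ⊆ Xi ⊆ S` then
`(Sing S, Sing X1 ∪ Sing X2)` is acyclic.  Iterated barycentric subdivision.
-/

namespace MM

variable {X : Type} [TopologicalSpace X]

theorem S5_lin_sup (X1 X2 : Set X) {n k : ℕ} (F : Ch (Sing X) n →ₗ[ZMod 2] Ch (Sing X) k)
    (hF : ∀ (A : Set X) (z : Ch (Sing X) n), SuppIn (SingIn A) z → SuppIn (SingIn A) (F z))
    (z : Ch (Sing X) n) (hz : SuppIn (SingIn X1 ⊔ SingIn X2) z) :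
    SuppIn (SingIn X1 ⊔ SingIn X2) (F z) := by
  refine S2_suppIn_lin F _ _ (fun σ hσ => ?_) z hz
  rcases hσ with hσ | hσ
  · exact (hF X1 _ (SuppIn.single hσ 1)).mono (Sub.le_sup_left' _ _)
  · exact (hF X2 _ (SuppIn.single hσ 1)).mono (Sub.le_sup_right' _ _)

theorem S5_relCyc_SdX (X1 X2 : Set X) {n : ℕ} (z : Ch (Sing X) n)
    (hz : RelCyc (SingIn X1 ⊔ SingIn X2) z) : RelCyc (SingIn X1 ⊔ SingIn X2) (SdX X n z) := by
  cases n with
  | zero => trivial
  | succ n =>
    show SuppIn _ (dif (SdX X (n + 1) z))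
    rw [dif_SdX]
    exact S5_lin_sup X1 X2 _ (fun A z hz => suppIn_SdX A n z hz) _ hz

theorem S5_step (S X1 X2 : Set X) {n : ℕ} (z : Ch (Sing X) n) (hS : SuppIn (SingIn S) z)
    (hz : RelCyc (SingIn X1 ⊔ SingIn X2) z) :
    ∃ w : Ch (Sing X) (n + 1), SuppIn (SingIn S) w ∧
      SuppIn (SingIn X1 ⊔ SingIn X2) (z + dif w + SdX X n z) := by
  cases n with
  | zero =>
    refine ⟨0, SuppIn.zero _, ?_⟩
    rw [dif_zero, SdX_zero, add_zero, two_eq_zero']
    exact SuppIn.zero _
  | succ n =>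
    refine ⟨DX X (n + 1) z, suppIn_DX S _ _ hS, ?_⟩
    have h1 : z + dif (DX X (n + 1) z) + SdX X (n + 1) z = DX X n (dif z) := by
      rw [dif_DX]
      have e : z + (z + SdX X (n + 1) z + DX X n (dif z)) + SdX X (n + 1) z =
          (z + z) + (SdX X (n + 1) z + SdX X (n + 1) z) + DX X n (dif z) := by abel
      rw [e, two_eq_zero', two_eq_zero', zero_add, zero_add]
    rw [h1]
    exact S5_lin_sup X1 X2 _ (fun A z hz => suppIn_DX A n z hz) _ hz

theorem S5_iter (S X1 X2 : Set X) {n : ℕ} (k : ℕ) (z : Ch (Sing X) n)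
    (hS : SuppIn (SingIn S) z) (hz : RelCyc (SingIn X1 ⊔ SingIn X2) z) :
    ∃ w : Ch (Sing X) (n + 1), SuppIn (SingIn S) w ∧
      SuppIn (SingIn X1 ⊔ SingIn X2) (z + dif w + ((fun y => SdX X n y)^[k] z)) := by
  induction k generalizing z with
  | zero =>
    refine ⟨0, SuppIn.zero _, ?_⟩
    rw [dif_zero, add_zero, Function.iterate_zero_apply, two_eq_zero']
    exact SuppIn.zero _
  | succ k ih =>
    obtain ⟨w, hw, hw'⟩ := S5_step S X1 X2 z hS hz
    obtain ⟨v, hv, hv'⟩ := ih (SdX X n z) (suppIn_SdX S n z hS) (S5_relCyc_SdX X1 X2 z hz)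
    refine ⟨w + v, hw.add hv, ?_⟩
    rw [Function.iterate_succ_apply]
    have e : z + dif (w + v) + ((fun y => SdX X n y)^[k] (SdX X n z)) =
        (z + dif w + SdX X n z) + (SdX X n z + dif v + ((fun y => SdX X n y)^[k] (SdX X n z))) := by
      rw [dif_add]
      have e2 : (z + dif w + SdX X n z) +
          (SdX X n z + dif v + ((fun y => SdX X n y)^[k] (SdX X n z))) =
          z + (dif w + dif v) + ((fun y => SdX X n y)^[k] (SdX X n z)) +
            (SdX X n z + SdX X n z) := by abel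
      rw [e2, two_eq_zero', add_zero]
    rw [e]
    exact hw'.add hv'

theorem S5_SdX_map {n : ℕ} (σ : C(Dtop n, X)) (y : Ch (LD n) n) :
    SdX X n (y.mapDomain ((LS σ).app n)) = (SdL n n y).mapDomain ((LS σ).app n) := by
  have h : (SdX X n).comp (Finsupp.lmapDomain (ZMod 2) (ZMod 2) ((LS σ).app n)) =
      (Finsupp.lmapDomain (ZMod 2) (ZMod 2) ((LS σ).app n)).comp (SdL n n) := by
    refine S2_ext fun v => ?_
    rw [LinearMap.comp_apply, LinearMap.comp_apply, Finsupp.lmapDomain_apply,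
      Finsupp.lmapDomain_apply, Finsupp.mapDomain_single]
    exact S2_SdX_aff σ v
  exact LinearMap.congr_fun h y

theorem S5_SdX_iter {n : ℕ} (σ : C(Dtop n, X)) (k : ℕ) (y : Ch (LD n) n) :
    (fun y => SdX X n y)^[k] (y.mapDomain ((LS σ).app n)) =
      ((fun z : Ch (LD n) n => SdL n n z)^[k] y).mapDomain ((LS σ).app n) := by
  induction k generalizing y with
  | zero => rfl
  | succ k ih =>
    rw [Function.iterate_succ_apply, Function.iterate_succ_apply]
    simp only
    rw [S5_SdX_map, ih]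

theorem S5_single {n : ℕ} (σ : C(Dtop n, X)) :
    (Finsupp.single σ 1 : Ch (Sing X) n) =
      (Finsupp.single vtx 1 : Ch (LD n) n).mapDomain ((LS σ).app n) := by
  rw [Finsupp.mapDomain_single]
  show _ = Finsupp.single (σ.comp (aff vtx)) 1
  rw [aff_id, ContinuousMap.comp_id]

theorem S5_iter_lin {n : ℕ} (k : ℕ) (y y' : Ch (Sing X) n) :
    (fun y => SdX X n y)^[k] (y + y') = (fun y => SdX X n y)^[k] y +
      (fun y => SdX X n y)^[k] y' := by
  induction k generalizing y y' with
  | zero => rfl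
  | succ k ih =>
    rw [Function.iterate_succ_apply, Function.iterate_succ_apply, Function.iterate_succ_apply]
    rw [map_add, ih]

theorem S5_iter_zero {n : ℕ} (k : ℕ) :
    (fun y => SdX X n y)^[k] (0 : Ch (Sing X) n) = 0 := by
  induction k with
  | zero => rfl
  | succ k ih =>
    rw [Function.iterate_succ_apply]
    rw [map_zero, ih]

theorem S5_iter_supp (X1 X2 : Set X) {n : ℕ} (k : ℕ) (y : Ch (Sing X) n)
    (hy : SuppIn (SingIn X1 ⊔ SingIn X2) y) :
    SuppIn (SingIn X1 ⊔ SingIn X2) ((fun y => SdX X n y)^[k] y) := by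
  induction k generalizing y with
  | zero => exact hy
  | succ k ih =>
    rw [Function.iterate_succ_apply]
    exact ih _ (S5_lin_sup X1 X2 _ (fun A z hz => suppIn_SdX A n z hz) _ hy)

theorem S5_small (S O1 O2 X1 X2 : Set X) (h1 : IsOpen O1) (h2 : IsOpen O2) (hS : S ⊆ O1 ∪ O2)
    (h1' : S ∩ O1 ⊆ X1) (h2' : S ∩ O2 ⊆ X2) {n : ℕ} (σ : C(Dtop n, X))
    (hσ : σ ∈ (SingIn S).car n) :
    ∃ k : ℕ, SuppIn (SingIn X1 ⊔ SingIn X2)
      ((fun y => SdX X n y)^[k] (Finsupp.single σ 1)) := by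
  have hcov : (Set.univ : Set (Dtop n)) ⊆ ⋃ b : Bool, (if b then σ ⁻¹' O1 else σ ⁻¹' O2) := by
    intro t _
    rcases hS (hσ t) with h | h
    · exact Set.mem_iUnion.2 ⟨true, h⟩
    · exact Set.mem_iUnion.2 ⟨false, h⟩
  obtain ⟨δ, hδ, hleb⟩ := lebesgue_number_lemma_of_metric (isCompact_univ (X := Dtop n))
    (c := fun b : Bool => if b then σ ⁻¹' O1 else σ ⁻¹' O2) (by
      intro b
      cases b
      · exact h2.preimage σ.continuous
      · exact h1.preimage σ.continuous) hcov
  obtain ⟨k, hk⟩ := SdL_iter_small n hδ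
  refine ⟨k, ?_⟩
  rw [S5_single, S5_SdX_iter]
  classical
  intro y hy
  obtain ⟨u, hu, rfl⟩ := Finset.mem_image.1 (Finsupp.mapDomain_support hy)
  have hd := hk u hu
  obtain ⟨b, hb⟩ := hleb (aff u (vtx 0)) (Set.mem_univ _)
  have hin : ∀ t, aff u t ∈ (if b then σ ⁻¹' O1 else σ ⁻¹' O2) := fun t =>
    hb (Metric.mem_ball.2 (hd t (vtx 0)))
  cases b with
  | true =>
    refine Or.inl fun t => h1' ⟨hσ _, ?_⟩
    exact hin t
  | false =>
    refine Or.inr fun t => h2' ⟨hσ _, ?_⟩
    exact hin t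

theorem S5_small_chain (S O1 O2 X1 X2 : Set X) (h1 : IsOpen O1) (h2 : IsOpen O2)
    (hS : S ⊆ O1 ∪ O2) (h1' : S ∩ O1 ⊆ X1) (h2' : S ∩ O2 ⊆ X2) {n : ℕ} (z : Ch (Sing X) n)
    (hz : SuppIn (SingIn S) z) :
    ∃ k : ℕ, SuppIn (SingIn X1 ⊔ SingIn X2) ((fun y => SdX X n y)^[k] z) := by
  classical
  have key : ∀ (s : Finset ((Sing X).S n)) (z : Ch (Sing X) n), z.support ⊆ s →
      SuppIn (SingIn S) z →
      ∃ k : ℕ, SuppIn (SingIn X1 ⊔ SingIn X2) ((fun y => SdX X n y)^[k] z) := by
    intro s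
    induction s using Finset.induction_on with
    | empty =>
      intro z hs _
      have : z = 0 := Finsupp.support_eq_empty.1 (Finset.subset_empty.1 hs)
      subst this
      exact ⟨0, SuppIn.zero _⟩
    | insert a s ha ih =>
      intro z hs hz
      have hsplit : z = z.erase a + Finsupp.single a (z a) := (Finsupp.erase_add_single a z).symm
      obtain ⟨k, hk⟩ := ih (z.erase a) (by
        rw [Finsupp.support_erase]
        intro x hx
        rw [Finset.mem_erase] at hx
        exact (Finset.mem_insert.1 (hs hx.2)).resolve_left hx.1) (by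
        intro x hx
        rw [Finsupp.support_erase, Finset.mem_erase] at hx
        exact hz x hx.2)
      by_cases h0 : z a = 0
      · refine ⟨k, ?_⟩
        rw [hsplit, h0, Finsupp.single_zero, add_zero]
        exact hk
      · have h1a : z a = 1 := by
          have : ∀ c : ZMod 2, c ≠ 0 → c = 1 := by decide
          exact this _ h0
        obtain ⟨l, hl⟩ := S5_small S O1 O2 X1 X2 h1 h2 hS h1' h2' a
          (hz a (Finsupp.mem_support_iff.2 h0))
        refine ⟨k + l, ?_⟩
        rw [hsplit, h1a, S5_iter_lin]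
        refine SuppIn.add ?_ ?_
        · rw [add_comm, Function.iterate_add_apply]
          exact S5_iter_supp X1 X2 l _ hk
        · rw [Function.iterate_add_apply]
          exact S5_iter_supp X1 X2 k _ hl
  exact key z.support z subset_rfl hz

theorem small_simplices_rel (S O1 O2 X1 X2 : Set X) (h1 : IsOpen O1) (h2 : IsOpen O2)
    (hS : S ⊆ O1 ∪ O2) (h1' : S ∩ O1 ⊆ X1) (h2' : S ∩ O2 ⊆ X2) :
    Acyc (SingIn X1 ⊔ SingIn X2) (SingIn S) := by
  intro n z hz hc
  obtain ⟨k, hk⟩ := S5_small_chain S O1 O2 X1 X2 h1 h2 hS h1' h2' z hz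
  obtain ⟨w, hw, hw'⟩ := S5_iter S X1 X2 k z hz hc
  refine ⟨w, hw, ?_⟩
  have e : z + dif w = (z + dif w + ((fun y => SdX X n y)^[k] z)) +
      ((fun y => SdX X n y)^[k] z) := by
    rw [add_assoc, two_eq_zero', add_zero]
  rw [e]
  exact hw'.add hk

theorem SingIn_univ : SingIn (Set.univ : Set X) = ⊤ := by
  apply Sub.ext
  funext n
  exact Set.eq_univ_of_forall fun σ t => Set.mem_univ _

theorem small_simplices (X1 X2 : Set X) (h : interior X1 ∪ interior X2 = Set.univ) :
    Acyc (SingIn X1 ⊔ SingIn X2) ⊤ := by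
  have := small_simplices_rel Set.univ (interior X1) (interior X2) X1 X2 isOpen_interior
    isOpen_interior (by rw [h]) (fun x hx => interior_subset hx.2)
    (fun x hx => interior_subset hx.2)
  rwa [SingIn_univ] at this

end MM

end
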