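import Pool.Agent.Lib_MP_33f7bb_m.G04
import Pool.Agent.Lib_MP_33f7bb_m.G09
import Pool.Agent.Lib_MP_33f7bb_m.G11

/-!
# MP_33f7bb_an, negative answer to Q1: merged library part G12

Concatenation of files of `Lib_MP_33f7bb_an` and `Lib_MP_33f7bb_d` (each in its own section), only to save build time.
-/

/-! ### from `Lib_MP_33f7bb_d.A515` -/

section

/-!
# A5-15: coproduct and primitives in the homology of `RV V`, for a basis as in (S2)

`IsCB V I dg y` is the statement (S2)(a) of part A4.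
`IsCB.Th d c` for `c : Lt I × Lt I →₀ F` is `∑ c(a, b) crsH d (y a) (y b)`.
`Th_inj`: if `c` is supported in pairs with `deg a + deg b = d` then `c (a, b) = boxF d (a^*) (b^*) (Th d c)` where `a^*` is the coordinate
functional of `a` on `H_(deg a)` (`boxF_crs`, `boxF_crs_ne`, `crsH_cls`, `A3Box_exists_cls`): for another pair `(a', b')` with `deg a' ≠ deg a` the value is
`0`, for `deg a' = deg a`, `deg b' = deg b` (sum is `d`) it is `a^*(y a') b^*(y b')`.
`diag_eq`: `Hmap diag x = Th d (copL (toL d x))`: linear in `x`, check on basis elements `x = y e d` (`IsCB.diag`; the terms with `p.1 = 0` or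
`p.2 = 0` vanish as `y 0 _ = 0` and `crsH` is bilinear (`crsH_bilin`); compare with the definition of `Lt.cop`).
`mem_PH`: `x ∈ PH` iff `Th d (copL (toL d x)) = 0` iff `copL (toL d x) = 0` (the support of `copL (toL d x)` consists of pairs of total degree `d`).
`coMap`: `e` a letter, `d` its degree, `f = gm (Hmap (RVmap g))`.  `x = β.y e`, `x' = Hmap (RVmap g) d x`, `f (single e 1) = toL' d x'`.  `R.diag ∘ RVmap g =
(RVmap g ⊗ RVmap g) ∘ R.diag` (`R.ext` on simplices), so `Th' d (copL (toL' x')) = Hmap diag' x' = Hmap (g ⊗ g) (Hmap diag x) =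
∑_((a,b) ∈ cop e) crsH d (g_* y a) (g_* y b)` (naturality of `crs`: `crs_map` or similar in A014/A015), and
`g_* y_a = ∑ f(a)(a') y'_(a')`, so this is `Th' d (sqm f (cop e))`.  Both `copL (f (single e 1))` and `sqm f (cop e)` are supported in pairs of total degree `d`
(`gm_deg`), so they are equal by `Th_inj`.
-/

open scoped TensorProduct

namespace MM

/-- degree of an exponent vector -/
noncomputable def edeg {I : Type} (dg : I → ℕ) (e : I →₀ ℕ) : ℕ := e.sum fun i n => n * dg i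

theorem Lt.deg_eq {I : Type} (dg : I → ℕ) (e : Lt I) : Lt.deg dg e = edeg dg e.1 := rfl

open Classical in
/-- a basis of the reduced homology of `V` with the coproduct of a divided power coalgebra -/
structure IsCB (V : SV) (I : Type) (dg : I → ℕ) (y : (I →₀ ℕ) → ∀ d, (RV V).H d) : Prop where
  pos : ∀ i, 1 ≤ dg i
  fin : ∀ k, {i | dg i = k}.Finite
  zero : ∀ d, y 0 d = 0
  li : ∀ d, LinearIndependent (ZMod 2)
    (fun e : {e : Lt I // Lt.deg dg e = d} => y e.1.1 d)
  sp : ∀ d, Submodule.span (ZMod 2)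
    (Set.range fun e : {e : Lt I // Lt.deg dg e = d} => y e.1.1 d) = ⊤
  diag : ∀ (e : I →₀ ℕ), e ≠ 0 → SV.Hmap (R.diag V.zv) (edeg dg e) (y e (edeg dg e)) =
    ∑ p ∈ Finset.HasAntidiagonal.antidiagonal e,
      crsH (edeg dg e) (y p.1 (edeg dg p.1)) (y p.2 (edeg dg p.2))

namespace IsCB

variable {V V' : SV} {I I' : Type} {dg : I → ℕ} {dg' : I' → ℕ}
  {y : (I →₀ ℕ) → ∀ d, (RV V).H d} {y' : (I' →₀ ℕ) → ∀ d, (RV V').H d}

/-- the bases -/
noncomputable def grB (h : IsCB V I dg y) : GrB (Lt I) (Lt.deg dg) (fun d => (RV V).H d) :=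
  ⟨fun d => Module.Basis.mk (h.li d) (h.sp d).ge⟩

theorem grB_y (h : IsCB V I dg y) (e : Lt I) : h.grB.y e = y e.1 (edeg dg e.1) :=
  Module.Basis.mk_apply (h.li (Lt.deg dg e)) (h.sp (Lt.deg dg e)).ge ⟨e, rfl⟩

private theorem boxF_crsH_A515 {P Q : SV} {p q n : ℕ} (h : p + q = n)
    (a : Module.Dual (ZMod 2) (P.H p)) (b : Module.Dual (ZMod 2) (Q.H q)) (x : P.H p)
    (y : Q.H q) : boxF n a b (crsH n x y) = a x * b y := by
  obtain ⟨x, hx, rfl⟩ := A3Box_exists_cls x
  obtain ⟨y, hy, rfl⟩ := A3Box_exists_cls y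
  rw [crsH_cls, boxF_crs h]

private theorem boxF_crsH_ne_A515 {P Q : SV} {p q p' q' n : ℕ} (h : p' ≠ p)
    (a : Module.Dual (ZMod 2) (P.H p)) (b : Module.Dual (ZMod 2) (Q.H q)) (x : P.H p')
    (y : Q.H q') : boxF n a b (crsH n x y) = 0 := by
  obtain ⟨x, hx, rfl⟩ := A3Box_exists_cls x
  obtain ⟨y, hy, rfl⟩ := A3Box_exists_cls y
  rw [crsH_cls]
  exact boxF_crs_ne a b h x hx y hy

private theorem crsH_zero_left_A515 {P Q : SV} {p q : ℕ} (n : ℕ) (y : Q.H q) :
    crsH n (0 : P.H p) y = 0 := by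
  obtain ⟨f, hf⟩ := crsH_bilin P Q p q n
  rw [← hf, map_zero, LinearMap.zero_apply]

private theorem crsH_zero_right_A515 {P Q : SV} {p q : ℕ} (n : ℕ) (x : P.H p) :
    crsH n x (0 : Q.H q) = 0 := by
  obtain ⟨f, hf⟩ := crsH_bilin P Q p q n
  rw [← hf, map_zero]

private theorem crsH_map_A515 {P P' Q Q' : SV} (f : SVHom P P') (g : SVHom Q Q') {p q n : ℕ}
    (x : P.H p) (y : Q.H q) :
    SV.Hmap (f.tens g) n (crsH n x y) = crsH n (SV.Hmap f p x) (SV.Hmap g q y) := by
  obtain ⟨x, hx, rfl⟩ := A3Box_exists_cls x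
  obtain ⟨y, hy, rfl⟩ := A3Box_exists_cls y
  rw [crsH_cls, SV.Hmap_cls, SV.Hmap_cls, SV.Hmap_cls, crsH_cls]
  exact A3Box_cls_congr (crs_map f g x y) _ _

/-- basis elements in a prescribed degree -/
private theorem crsH_b_A515 (h : IsCB V I dg y) (d : ℕ) (e e' : Lt I) (p q : ℕ)
    (hp : Lt.deg dg e = p) (hq : Lt.deg dg e' = q) :
    crsH d (h.grB.y e) (h.grB.y e') = crsH d (h.grB.b p ⟨e, hp⟩) (h.grB.b q ⟨e', hq⟩) := by
  subst hp hq
  rfl

private theorem val_A515 (h : IsCB V I dg y) (d : ℕ) (p p0 : Lt I × Lt I)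
    (hp : Lt.deg dg p.1 + Lt.deg dg p.2 = d) (hp0 : Lt.deg dg p0.1 + Lt.deg dg p0.2 = d) :
    boxF d ((h.grB.b _).coord ⟨p0.1, rfl⟩) ((h.grB.b _).coord ⟨p0.2, rfl⟩)
      (crsH d (h.grB.y p.1) (h.grB.y p.2)) = open Classical in if p = p0 then 1 else 0 := by
  by_cases hd : Lt.deg dg p.1 = Lt.deg dg p0.1
  · have hd2 : Lt.deg dg p.2 = Lt.deg dg p0.2 := by omega
    rw [crsH_b_A515 h d p.1 p.2 _ _ hd hd2, boxF_crsH_A515 hp0, Module.Basis.coord_apply,
      Module.Basis.coord_apply, Module.Basis.repr_self, Module.Basis.repr_self]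
    by_cases h1 : p = p0
    · subst h1
      simp
    · rw [if_neg h1]
      by_cases h2 : p.1 = p0.1
      · have h3 : p.2 ≠ p0.2 := fun h3 => h1 (Prod.ext h2 h3)
        rw [Finsupp.single_eq_of_ne (a := (⟨p.2, hd2⟩ : {e : Lt I // Lt.deg dg e = Lt.deg dg p0.2}))
          (fun h4 => h3 (congrArg Subtype.val h4).symm), mul_zero]
      · rw [Finsupp.single_eq_of_ne (a := (⟨p.1, hd⟩ : {e : Lt I // Lt.deg dg e = Lt.deg dg p0.1}))
          (fun h4 => h2 (congrArg Subtype.val h4).symm), zero_mul]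
  · rw [boxF_crsH_ne_A515 hd, if_neg fun h1 => hd (by rw [h1])]

/-- the combination of cross products -/
noncomputable def Th (h : IsCB V I dg y) (d : ℕ) :
    (Lt I × Lt I →₀ ZMod 2) →ₗ[ZMod 2] ((RV V).tens (RV V)).H d :=
  Finsupp.linearCombination (ZMod 2) fun p => crsH d (h.grB.y p.1) (h.grB.y p.2)

theorem Th_inj (h : IsCB V I dg y) (d : ℕ) (c : Lt I × Lt I →₀ ZMod 2)
    (hc : ∀ p ∈ c.support, Lt.deg dg p.1 + Lt.deg dg p.2 = d) (h0 : h.Th d c = 0) : c = 0 := by
  classical
  ext p0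
  rw [Finsupp.zero_apply]
  by_contra hne
  have hp0 : p0 ∈ c.support := Finsupp.mem_support_iff.2 hne
  have h1 := congrArg (boxF d ((h.grB.b _).coord ⟨p0.1, rfl⟩) ((h.grB.b _).coord ⟨p0.2, rfl⟩)) h0
  rw [map_zero, Th, Finsupp.linearCombination_apply, Finsupp.sum, map_sum,
    Finset.sum_eq_single p0] at h1
  · rw [map_smul, val_A515 h d p0 p0 (hc p0 hp0) (hc p0 hp0), if_pos rfl, smul_eq_mul,
      mul_one] at h1
    exact hne h1
  · intro p hp hpp
    rw [map_smul, val_A515 h d p p0 (hc p hp) (hc p0 hp0), if_neg hpp, smul_zero]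
  · intro h2
    exact absurd hp0 h2

private theorem Th_single_A515 (h : IsCB V I dg y) (d : ℕ) (p : Lt I × Lt I) (r : ZMod 2) :
    h.Th d (Finsupp.single p r) = r • crsH d (h.grB.y p.1) (h.grB.y p.2) :=
  Finsupp.linearCombination_single _ _ _

private theorem copL_single_A515 (e : Lt I) : Lt.copL (Finsupp.single e 1) = e.cop := by
  show Finsupp.linearCombination (ZMod 2) Lt.cop (Finsupp.single e 1) = _
  rw [Finsupp.linearCombination_single, one_smul]

private theorem diag_y_A515 (h : IsCB V I dg y) (e : Lt I) :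
    SV.Hmap (R.diag V.zv) (edeg dg e.1) (y e.1 (edeg dg e.1)) = h.Th (edeg dg e.1) e.cop := by
  classical
  rw [h.diag e.1 e.2, Lt.cop, map_sum]
  refine Finset.sum_congr (by congr) fun p _ => ?_
  by_cases hp : p.1 ≠ 0 ∧ p.2 ≠ 0
  · rw [dif_pos hp, Th_single_A515, one_smul, h.grB_y, h.grB_y]
    rfl
  · rw [dif_neg hp, map_zero]
    by_cases h1 : p.1 = 0
    · rw [h1, h.zero, crsH_zero_left_A515]
    · have h2 : p.2 = 0 := by
        by_contra h2
        exact hp ⟨h1, h2⟩
      rw [h2, h.zero, crsH_zero_right_A515]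

theorem diag_eq (h : IsCB V I dg y) (d : ℕ) (x : (RV V).H d) :
    SV.Hmap (R.diag V.zv) d x = h.Th d (Lt.copL (h.grB.toL d x)) := by
  have key : SV.Hmap (R.diag V.zv) d = (h.Th d).comp (Lt.copL.comp (h.grB.toL d)) := by
    refine (h.grB.b d).ext fun e => ?_
    obtain ⟨e, rfl⟩ := e
    rw [LinearMap.comp_apply, LinearMap.comp_apply, h.grB.toL_b, copL_single_A515]
    have h1 : h.grB.b (Lt.deg dg e) ⟨e, rfl⟩ = y e.1 (edeg dg e.1) := h.grB_y e
    rw [h1]
    exact h.diag_y_A515 e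
  exact LinearMap.congr_fun key x

private theorem deg_add_A515 (dg : I → ℕ) (a b : I →₀ ℕ) : edeg dg (a + b) = edeg dg a + edeg dg b := by
  classical
  unfold edeg
  rw [Finsupp.sum_add_index']
  · intro i; rw [zero_mul]
  · intro i m n; rw [add_mul]

private theorem cop_deg_A515 (dg : I → ℕ) (e : Lt I) (p : Lt I × Lt I) (hp : p ∈ e.cop.support) :
    Lt.deg dg p.1 + Lt.deg dg p.2 = Lt.deg dg e := by
  have h1 : p.1.1 + p.2.1 = e.1 := by
    by_contra h2
    exact Finsupp.mem_support_iff.1 hp (cop_apply_ne e p.1 p.2 h2)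
  rw [Lt.deg_eq, Lt.deg_eq, Lt.deg_eq, ← h1, deg_add_A515]

private theorem copL_deg_A515 (dg : I → ℕ) (d : ℕ) (c : Lt I →₀ ZMod 2)
    (hc : ∀ e ∈ c.support, Lt.deg dg e = d) (p : Lt I × Lt I) (hp : p ∈ (Lt.copL c).support) :
    Lt.deg dg p.1 + Lt.deg dg p.2 = d := by
  classical
  have h1 : Lt.copL c = c.sum fun e r => r • e.cop := Finsupp.linearCombination_apply _ _
  rw [h1] at hp
  obtain ⟨e, he, hpe⟩ := Finset.mem_biUnion.1 (Finsupp.support_sum hp)
  rw [← hc e he]
  exact cop_deg_A515 dg e p (Finsupp.support_smul hpe)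

theorem mem_PH (h : IsCB V I dg y) (d : ℕ) (x : (RV V).H d) :
    x ∈ PH V d ↔ Lt.copL (h.grB.toL d x) = 0 := by
  have h1 : x ∈ PH V d ↔ SV.Hmap (R.diag V.zv) d x = 0 := LinearMap.mem_ker
  rw [h1, h.diag_eq]
  constructor
  · intro h2
    exact h.Th_inj d _ (copL_deg_A515 dg d _ (h.grB.toL_deg x)) h2
  · intro h2
    rw [h2, map_zero]

private theorem sum_A515 {Q : Type} [AddCommGroup Q] [Module (ZMod 2) Q] (c : Lt I' →₀ ZMod 2)
    (f : Lt I' → Q) : Finsupp.linearCombination (ZMod 2) f c = c.sum fun a r => r • f a :=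
  Finsupp.linearCombination_apply _ _

/-- an element of `H_d` in terms of the basis -/
private theorem expand_A515 (h : IsCB V I dg y) (d : ℕ) (x : (RV V).H d) :
    x = (h.grB.toL d x).sum fun a r => r • (if ha : Lt.deg dg a = d then h.grB.b d ⟨a, ha⟩ else 0) := by
  conv_lhs => rw [← h.grB.ofL_toL d x]
  exact sum_A515 _ _

/-- cross products of two elements in terms of the basis -/
private theorem cross_A515 (h : IsCB V I dg y) (d p q : ℕ) (x : (RV V).H p) (x' : (RV V).H q) :
    crsH d x x' = (h.grB.toL p x).sum fun a r => (h.grB.toL q x').sum fun b r' =>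
      (r * r') • crsH d (h.grB.y a) (h.grB.y b) := by
  obtain ⟨B, hB⟩ := crsH_bilin (RV V) (RV V) p q d
  conv_lhs => rw [h.expand_A515 p x, h.expand_A515 q x', ← hB]
  rw [Finsupp.sum, Finsupp.sum, map_sum B, LinearMap.sum_apply]
  refine Finset.sum_congr rfl fun a ha => ?_
  beta_reduce
  rw [map_sum, Finsupp.sum]
  refine Finset.sum_congr rfl fun b hb => ?_
  have ha' := h.grB.toL_deg x a ha
  have hb' := h.grB.toL_deg x' b hb
  rw [dif_pos ha', dif_pos hb', map_smul, map_smul, LinearMap.smul_apply, hB,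
    h.crsH_b_A515 d a b p q ha' hb', smul_smul]
  rw [mul_comm]

/-- naturality of `Th` -/
private theorem Th_map_A515 (h : IsCB V I dg y) (h' : IsCB V' I' dg' y') (g : SVHom (RV V) (RV V'))
    (d : ℕ) (c : Lt I × Lt I →₀ ZMod 2) :
    SV.Hmap (g.tens g) d (h.Th d c) =
      h'.Th d (sqm (h.grB.gm h'.grB fun d => SV.Hmap g d) c) := by
  induction c using Finsupp.induction_linear with
  | zero => simp only [map_zero]
  | add a b ha hb => simp only [map_add, ha, hb]
  | single p r =>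
    have h1 : (Finsupp.single p r : Lt I × Lt I →₀ ZMod 2) = r • Finsupp.single p 1 := by
      rw [Finsupp.smul_single, smul_eq_mul, mul_one]
    rw [h1]
    simp only [map_smul]
    congr 1
    rw [h.Th_single_A515, one_smul, crsH_map_A515, h'.cross_A515]
    have h2 : sqm (h.grB.gm h'.grB fun d => SV.Hmap g d) (Finsupp.single p 1) =
        (h.grB.gm h'.grB (fun d => SV.Hmap g d) (Finsupp.single p.1 1)).sum fun a r =>
          (h.grB.gm h'.grB (fun d => SV.Hmap g d) (Finsupp.single p.2 1)).sum fun b r' =>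
            Finsupp.single (a, b) (r * r') := by
      show Finsupp.linearCombination (ZMod 2) _ (Finsupp.single p 1) = _
      rw [Finsupp.linearCombination_single, one_smul]
    have h3 : ∀ e : Lt I, h.grB.gm h'.grB (fun d => SV.Hmap g d) (Finsupp.single e 1) =
        h'.grB.toL (Lt.deg dg e) (SV.Hmap g (Lt.deg dg e) (h.grB.y e)) := by
      intro e
      rw [← h.grB.toL_y e, GrB.gm_toL]
    rw [h2, h3, h3, map_finsuppSum]
    refine Finset.sum_congr rfl fun a _ => ?_
    beta_reduce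
    rw [map_finsuppSum]
    refine Finset.sum_congr rfl fun b _ => ?_
    beta_reduce
    rw [h'.Th_single_A515]

private theorem sqm_deg_A515 {f : (Lt I →₀ ZMod 2) →ₗ[ZMod 2] (Lt I' →₀ ZMod 2)}
    (hf : DegPres (Lt.deg dg) (Lt.deg dg') f) (d : ℕ) (c : Lt I × Lt I →₀ ZMod 2)
    (hc : ∀ p ∈ c.support, Lt.deg dg p.1 + Lt.deg dg p.2 = d) (p : Lt I' × Lt I')
    (hp : p ∈ (sqm f c).support) : Lt.deg dg' p.1 + Lt.deg dg' p.2 = d := by
  classical
  have h1 : sqm f c = c.sum fun q s => s • ((f (Finsupp.single q.1 1)).sum fun a r =>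
      (f (Finsupp.single q.2 1)).sum fun b r' => Finsupp.single (a, b) (r * r')) :=
    Finsupp.linearCombination_apply _ _
  rw [h1] at hp
  obtain ⟨q, hq, hp⟩ := Finset.mem_biUnion.1 (Finsupp.support_sum hp)
  obtain ⟨a, ha, hp⟩ := Finset.mem_biUnion.1 (Finsupp.support_sum (Finsupp.support_smul hp))
  obtain ⟨b, hb, hp⟩ := Finset.mem_biUnion.1 (Finsupp.support_sum hp)
  have h2 := Finsupp.support_single_subset hp
  rw [Finset.mem_singleton] at h2
  subst h2
  rw [← hc q hq, hf q.1 a ha, hf q.2 b hb]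

private theorem diag_nat_A515 (g : Hom V.ss V'.ss) (hg : g.app 0 V.zv = V'.zv) :
    (R.diag V'.zv).comp (RVmap g hg) = ((RVmap g hg).tens (RVmap g hg)).comp (R.diag V.zv) := by
  apply R.ext
  intro n x
  have e1 : (RVmap g hg).app n ((R.of V.zv).app n x) = (R.of V'.zv).app n (g.app n x) :=
    R.map_of _ _ _ _ _ _
  have e2 : (R.diag V.zv).app n ((R.of V.zv).app n x) =
      ((R.of V.zv).app n x : (RV V).V n) ⊗ₜ[ZMod 2] ((R.of V.zv).app n x : (RV V).V n) :=
    R.lift_of _ _ _ _ _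
  have e3 : (R.diag V'.zv).app n ((R.of V'.zv).app n (g.app n x)) =
      ((R.of V'.zv).app n (g.app n x) : (RV V').V n) ⊗ₜ[ZMod 2]
        ((R.of V'.zv).app n (g.app n x) : (RV V').V n) := R.lift_of _ _ _ _ _
  show (R.diag V'.zv).app n ((RVmap g hg).app n ((R.of V.zv).app n x)) =
    ((RVmap g hg).tens (RVmap g hg)).app n
      ((R.diag V.zv).app n ((R.of V.zv).app n x))
  rw [e1, e2, e3]
  show _ = TensorProduct.map ((RVmap g hg).app n) ((RVmap g hg).app n) (_ ⊗ₜ _)
  rw [TensorProduct.map_tmul, e1]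

theorem coMap (h : IsCB V I dg y) (h' : IsCB V' I' dg' y') (g : Hom V.ss V'.ss)
    (hg : g.app 0 V.zv = V'.zv) :
    CoMap (h.grB.gm h'.grB fun d => SV.Hmap (RVmap g hg) d) := by
  classical
  intro e
  set f := h.grB.gm h'.grB fun d => SV.Hmap (RVmap g hg) d with hf
  have hfd : DegPres (Lt.deg dg) (Lt.deg dg') f := GrB.gm_deg _ _ _
  have h1 : f (Finsupp.single e 1) =
      h'.grB.toL (Lt.deg dg e) (SV.Hmap (RVmap g hg) (Lt.deg dg e) (h.grB.y e)) := by
    rw [hf, ← h.grB.toL_y e, GrB.gm_toL]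
  have h2 : h'.Th (Lt.deg dg e) (Lt.copL (f (Finsupp.single e 1))) =
      h'.Th (Lt.deg dg e) (sqm f e.cop) := by
    rw [h1, ← h'.diag_eq, ← SV.Hmap_comp, diag_nat_A515, SV.Hmap_comp, h.diag_eq, h.grB.toL_y,
      copL_single_A515, h.Th_map_A515 h']
  have h3 : Lt.copL (f (Finsupp.single e 1)) - sqm f e.cop = 0 := by
    refine h'.Th_inj (Lt.deg dg e) _ ?_ (by rw [map_sub, h2, sub_self])
    intro p hp
    rcases Finset.mem_union.1 (Finsupp.support_sub hp) with hp | hp
    · exact copL_deg_A515 dg' _ _ (fun e' he' => hfd e e' he') p hp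
    · exact sqm_deg_A515 hfd _ _ (cop_deg_A515 dg e) p hp
  exact sub_eq_zero.1 h3

end IsCB

end MM

end

/-! ### from `Lib_MP_33f7bb_d.A4R6` -/

section

/-!
# A4-06: homotopy invariance of `Hc.map`, `CR.map`

`Hmap_linMap_htp`: `prism` (A010): for a cycle `z` of degree `n ≥ 1` the chain
`mapDomain f z + mapDomain g z` is `dif (T z)` (as `T (dif z) = T 0 = 0`); the same for `n = 0`.  (`H.app n (cst 0, x) = f.app n x`;
`linMap f` is `mapDomain` of `f.app n`.)
`Hmap_linMap_lhtp`: a linear homotopy `H : LHpy V W` gives the simplicial map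
`(a, x) ↦ H.app n a x`, `Δ^1 × V.ss → W.ss`, so `LHtp f g` implies `Htp f.toHom g.toHom`.
-/

namespace MM

/-- a linear simplicial map as a simplicial map of the underlying simplicial sets -/
def SVHom.toHom {V W : SV} (f : SVHom V W) : Hom V.ss W.ss :=
  ⟨fun n x => f.app n x, fun g x => f.nat g x⟩

private theorem A4R6_cls_eq {P : SV} {n : ℕ} {z z' : P.V n} (hz : z ∈ P.Z n) (hz' : z' ∈ P.Z n) :
    P.cls z hz = P.cls z' hz' ↔ z + z' ∈ P.B n := by
  unfold SV.cls
  rw [Submodule.Quotient.eq]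
  show z - z' ∈ P.B n ↔ z + z' ∈ P.B n
  rw [sub_eq']

theorem Hmap_linMap_htp {Z Z' : SS} {f g : Hom Z Z'} (h : Htp f g) (n : ℕ) :
    SV.Hmap (linMap f) n = SV.Hmap (linMap g) n := by
  obtain ⟨H, h0, h1⟩ := h
  obtain ⟨T, hT0, hT, -⟩ := prism H
  refine LinearMap.ext fun x => ?_
  obtain ⟨⟨z, hz⟩, rfl⟩ := Submodule.Quotient.mk_surjective _ x
  show (lin Z').cls ((linMap f).app n z) ((linMap f).map_Z hz) =
    (lin Z').cls ((linMap g).app n z) ((linMap g).map_Z hz)
  rw [A4R6_cls_eq]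
  have e0 : ∀ m, (fun x => H.app m (cst 0, x)) = f.app m := fun m => funext fun x => h0 m x
  have e1 : ∀ m, (fun x => H.app m (cst 1, x)) = g.app m := fun m => funext fun x => h1 m x
  cases n with
  | zero =>
    refine ⟨T 0 z, ?_⟩
    rw [lin_d, hT0, e0, e1]
    rfl
  | succ n =>
    have hz' : (lin Z).d n z = 0 := hz
    rw [lin_d] at hz'
    refine ⟨T (n + 1) z, ?_⟩
    rw [lin_d, hT, e0, e1, hz', map_zero, add_zero]
    rfl

theorem LHtp.toHom {V W : SV} {f g : SVHom V W} (h : LHtp f g) : Htp f.toHom g.toHom := by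
  obtain ⟨H, h0, h1⟩ := h
  exact ⟨⟨fun n p => H.app n p.1 p.2, fun {m n} u p => H.nat u p.1 p.2⟩,
    fun n x => h0 n x, fun n x => h1 n x⟩

theorem Hmap_linMap_lhtp {V W : SV} {f g : SVHom V W} (h : LHtp f g) (n : ℕ) :
    SV.Hmap (linMap f.toHom) n = SV.Hmap (linMap g.toHom) n := Hmap_linMap_htp h.toHom n

theorem Hc.map_htp {Z Z' : SS} {f g : Hom Z Z'} (h : Htp f g) (n : ℕ) :
    Hc.map f n = Hc.map g n := by
  rw [Hc.map, Hmap_linMap_htp h, Hc.map]

theorem CR.map_htp {Z Z' : SS} {f g : Hom Z Z'} (h : Htp f g) : CR.map f = CR.map g := by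
  refine RingHom.ext fun a => ?_
  funext n
  rw [CR.map_apply, CR.map_apply, Hc.map_htp h]

private theorem A4R6_comp {V W U : SV} (g : SVHom W U) (f : SVHom V W) :
    linMap (g.comp f).toHom = (linMap g.toHom).comp (linMap f.toHom) := by
  apply SVHom.ext
  funext n
  refine LinearMap.ext fun z => ?_
  show Finsupp.mapDomain _ z = Finsupp.mapDomain _ (Finsupp.mapDomain _ z)
  rw [← Finsupp.mapDomain_comp]
  rfl

private theorem A4R6_id (V : SV) : linMap (SVHom.id V).toHom = SVHom.id (lin V.ss) := by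
  apply SVHom.ext
  funext n
  refine LinearMap.ext fun z => ?_
  exact Finsupp.mapDomain_id

private theorem A4R6_inv {V W : SV} (f : SVHom V W) (g : SVHom W V)
    (h1 : LHtp (g.comp f) (SVHom.id V)) (n : ℕ) (x : (lin V.ss).H n) :
    SV.Hmap (linMap g.toHom) n (SV.Hmap (linMap f.toHom) n x) = x := by
  rw [← SV.Hmap_comp, ← A4R6_comp, Hmap_linMap_lhtp h1, A4R6_id, SV.Hmap_id]

/-- linear homotopy equivalences induce isomorphisms of `H_n (lin ·)` -/
theorem Hmap_linMap_equiv {V W : SV} (f : SVHom V W) (g : SVHom W V)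
    (h1 : LHtp (g.comp f) (SVHom.id V)) (h2 : LHtp (f.comp g) (SVHom.id W)) (n : ℕ) :
    Function.Bijective (SV.Hmap (linMap f.toHom) n) :=
  Function.bijective_iff_has_inverse.2 ⟨SV.Hmap (linMap g.toHom) n,
    fun x => A4R6_inv f g h1 n x, fun x => A4R6_inv g f h2 n x⟩

/-- a linear simplicial map inducing isomorphisms in the homology of `V`, `W` is a homotopy
equivalence (`exists_hom` applied to the inverse maps, `lhtp_iff`) -/
theorem exists_inverse {V W : SV} (f : SVHom V W) (hf : ∀ n, Function.Bijective (SV.Hmap f n)) :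
    ∃ g : SVHom W V, LHtp (g.comp f) (SVHom.id V) ∧ LHtp (f.comp g) (SVHom.id W) := by
  obtain ⟨g, hg⟩ := exists_hom (P := W) (Q := V)
    (fun n => ((LinearEquiv.ofBijective (SV.Hmap f n) (hf n)).symm : W.H n →ₗ[ZMod 2] V.H n))
  refine ⟨g, ?_, ?_⟩
  · rw [lhtp_iff]
    intro n z hz
    obtain ⟨hfz, he⟩ := hg n (f.app n z) (f.map_Z hz)
    show g.app n (f.app n z) + z ∈ V.B n
    rw [← A4R6_cls_eq hfz hz, he, ← SV.Hmap_cls f n z hz]
    exact (LinearEquiv.ofBijective (SV.Hmap f n) (hf n)).symm_apply_apply (V.cls z hz)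
  · rw [lhtp_iff]
    intro n z hz
    obtain ⟨hfz, he⟩ := hg n z hz
    show f.app n (g.app n z) + z ∈ W.B n
    rw [← A4R6_cls_eq (f.map_Z hfz) hz, ← SV.Hmap_cls f n _ hfz, he]
    exact (LinearEquiv.ofBijective (SV.Hmap f n) (hf n)).apply_symm_apply (W.cls z hz)

theorem Hmap_linMap_bij {V W : SV} (f : SVHom V W) (hf : ∀ n, Function.Bijective (SV.Hmap f n))
    (n : ℕ) : Function.Bijective (SV.Hmap (linMap f.toHom) n) := by
  obtain ⟨g, h1, h2⟩ := exists_inverse f hf
  exact Hmap_linMap_equiv f g h1 h2 n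

end MM

end

/-! ### from `Lib_MP_33f7bb_d.A4V1` -/

section

/-!
# A4-41: homology of `lin V` in low degrees depends only on the homology of `V` in low degrees

`lowsplit`: bases `b n` of `H_n V` (`Module.Free.chooseBasis` or `Basis.ofVectorSpace`), `exists_split`: linear homotopy equivalence
`g : V → dsum_(i : Σ n, κ n) KK i.1`.  Put `V' = dsum` over the `i` with `i.1 > N` and `k = (projection) ∘ g`
(`DFinsupp.subtypeDomainLinearMap`).  A cycle of degree `j` of `dsum KK (i.1)` all of whose components are boundaries is a boundary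
(finite support; choose); components of degree `j ≠ i.1` are boundaries (`KK_homology`).  So `H_j V' = 0` for `j ≤ N` and the projection is
bijective on `H_j` for `j > N`; `g` is bijective on all `H_j` (`lhtp_iff`).
`pair_H_left`: `W × W'` with `H_j W' = 0`: `(f, g)` is bijective on `H_j` iff `f` is (elementary, componentwise); `pair_H_right` symmetric.
`proj_low`: by `lowcon` (for `V'`, `m = N`) there is a linear homotopy from `id` to a map `h : V' → V'` which vanishes in levels `≤ N`.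
`id × id` is homotopic to `id × h` on `W × V'`, and `id × h` and `(w, v) ↦ (w, 0)` agree in levels `≤ N`, so they induce the same map
on `H_j (lin)`, `j ≤ N` (the class of `mapDomain f z` depends only on `f` in level `j`).  With `pr : W × V' → W`, `inc w = (w, 0)`: `pr ∘ inc = id`,
`(inc ∘ pr)_* = (id × h)_* = id` on `H_j (lin)`, `j ≤ N` (`Hmap_linMap_lhtp`).
`lin_low_iso`: `k : V → V'` from `lowsplit`; `(f, k) : V → W × V'` is bijective on all `H_j` (`pair_H_left` for `j ≤ N`, `pair_H_right` for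
`j > N`), so `Hmap_linMap_bij` applies; compose with `pr` (`proj_low`): `pr ∘ (f, k) = f`.
-/

open scoped TensorProduct

namespace MM

/-- the pairing of two linear maps -/
def SVHom.pair {V W W' : SV} (f : SVHom V W) (g : SVHom V W') : SVHom V (W.prd W') :=
  ⟨fun n => (f.app n).prod (g.app n), fun h x => by
    show (f.app _ (V.act h x), g.app _ (V.act h x)) = (W.act h _, W'.act h _)
    rw [f.nat, g.nat]; rfl⟩

/-- the first projection -/
def prdFst (W W' : SV) : SVHom (W.prd W') W :=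
  ⟨fun n => LinearMap.fst (ZMod 2) (W.V n) (W'.V n), fun _ _ => rfl⟩

/-- the second projection -/
def prdSnd (W W' : SV) : SVHom (W.prd W') W' :=
  ⟨fun n => LinearMap.snd (ZMod 2) (W.V n) (W'.V n), fun _ _ => rfl⟩

private theorem A4V1_cls_eq {P : SV} {n : ℕ} {z z' : P.V n} (hz : z ∈ P.Z n) (hz' : z' ∈ P.Z n) :
    P.cls z hz = P.cls z' hz' ↔ z + z' ∈ P.B n := by
  unfold SV.cls
  rw [Submodule.Quotient.eq]
  show z - z' ∈ P.B n ↔ z + z' ∈ P.B n
  rw [sub_eq']

/-- bijectivity on homology, elementary form -/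
private theorem A4V1_bij {P Q : SV} (f : SVHom P Q) (n : ℕ)
    (h1 : ∀ z ∈ P.Z n, f.app n z ∈ Q.B n → z ∈ P.B n)
    (h2 : ∀ x ∈ Q.Z n, ∃ z ∈ P.Z n, f.app n z + x ∈ Q.B n) :
    Function.Bijective (SV.Hmap f n) := by
  constructor
  · rw [injective_iff_map_eq_zero]
    intro x hx
    obtain ⟨⟨z, hz⟩, rfl⟩ := Submodule.Quotient.mk_surjective _ x
    have hx' : Q.cls (f.app n z) (f.map_Z hz) = 0 := hx
    have h3 : f.app n z ∈ Q.B n := by
      have h4 : Q.cls (f.app n z) (f.map_Z hz) = Q.cls 0 (Submodule.zero_mem _) := hx'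
      rw [A4V1_cls_eq, add_zero] at h4
      exact h4
    exact (Submodule.Quotient.mk_eq_zero _).2 (h1 z hz h3)
  · intro x
    obtain ⟨⟨y, hy⟩, rfl⟩ := Submodule.Quotient.mk_surjective _ x
    obtain ⟨z, hz, h⟩ := h2 y hy
    refine ⟨P.cls z hz, ?_⟩
    show Q.cls (f.app n z) (f.map_Z hz) = Q.cls y hy
    rw [A4V1_cls_eq]
    exact h

private theorem A4V1_inj {P Q : SV} {f : SVHom P Q} {n : ℕ}
    (hf : Function.Injective (SV.Hmap f n)) {z : P.V n} (hz : z ∈ P.Z n)
    (h : f.app n z ∈ Q.B n) : z ∈ P.B n := by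
  have h1 : SV.Hmap f n (P.cls z hz) = SV.Hmap f n (P.cls 0 (Submodule.zero_mem _)) := by
    rw [SV.Hmap_cls, SV.Hmap_cls, A4V1_cls_eq, map_zero, add_zero]
    exact h
  have h2 := hf h1
  rw [A4V1_cls_eq, add_zero] at h2
  exact h2

private theorem A4V1_surj {P Q : SV} {f : SVHom P Q} {n : ℕ}
    (hf : Function.Surjective (SV.Hmap f n)) {x : Q.V n} (hx : x ∈ Q.Z n) :
    ∃ z ∈ P.Z n, f.app n z + x ∈ Q.B n := by
  obtain ⟨y, hy⟩ := hf (Q.cls x hx)
  obtain ⟨⟨z, hz⟩, rfl⟩ := Submodule.Quotient.mk_surjective _ y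
  refine ⟨z, hz, ?_⟩
  have h1 : Q.cls (f.app n z) (f.map_Z hz) = Q.cls x hx := hy
  rwa [A4V1_cls_eq] at h1

/-! direct sums -/

private noncomputable def A4V1_J {ι : Type} [DecidableEq ι] (κ : ι → SV) (i : ι) :
    SVHom (κ i) (dsum κ) :=
  ⟨fun m => DFinsupp.lsingle (R := ZMod 2) (M := fun i => (κ i).V m) i, by
    intro m n g x
    show DFinsupp.single i ((κ i).act g x) =
      DFinsupp.mapRange (fun i => (κ i).act g) (fun i => map_zero ((κ i).act g))
        (DFinsupp.single i x)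
    rw [DFinsupp.mapRange_single]⟩

private noncomputable def A4V1_C {ι : Type} (κ : ι → SV) (i : ι) : SVHom (dsum κ) (κ i) :=
  ⟨fun m => DFinsupp.lapply (R := ZMod 2) (M := fun i => (κ i).V m) i, fun g x => by simp⟩

private theorem A4V1_comp_Z {ι : Type} {κ : ι → SV} {n : ℕ} {z : (dsum κ).V n}
    (hz : z ∈ (dsum κ).Z n) (i : ι) : z i ∈ (κ i).Z n := (A4V1_C κ i).map_Z hz

private theorem A4V1_comp_B {ι : Type} {κ : ι → SV} {n : ℕ} {z : (dsum κ).V n}
    (hz : z ∈ (dsum κ).B n) (i : ι) : z i ∈ (κ i).B n := (A4V1_C κ i).map_B hz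

private theorem A4V1_dsum_B {ι : Type} {κ : ι → SV} {n : ℕ} {z : (dsum κ).V n}
    (h : ∀ i, z i ∈ (κ i).B n) : z ∈ (dsum κ).B n := by
  classical
  have hdec : z = ∑ i ∈ DFinsupp.support z, (A4V1_J κ i).app n (z i) := by
    conv_lhs => rw [← DFinsupp.sum_single (f := z)]
    rfl
  rw [hdec]
  exact Submodule.sum_mem _ fun i _ => (A4V1_J κ i).map_B (h i)

/-- projection to a part of a direct sum -/
private noncomputable def A4V1_pr {ι : Type} (κ : ι → SV) (p : ι → Prop) [DecidablePred p] :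
    SVHom (dsum κ) (dsum fun i : {i // p i} => κ i.1) :=
  ⟨fun m => DFinsupp.subtypeDomainLinearMap (ZMod 2) (fun i => (κ i).V m) p, fun g x => by
    refine DFinsupp.ext fun i => ?_
    rfl⟩

/-- inclusion of a part of a direct sum -/
private noncomputable def A4V1_in {ι : Type} [DecidableEq ι] (κ : ι → SV) (p : ι → Prop) :
    SVHom (dsum fun i : {i // p i} => κ i.1) (dsum κ) :=
  ⟨fun m => DFinsupp.lsum ℕ (fun i : {i // p i} =>
      (DFinsupp.lsingle (R := ZMod 2) (M := fun i => (κ i).V m) i.1 :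
        (κ i.1).V m →ₗ[ZMod 2] (dsum κ).V m)), by
    intro m n g x
    have : (DFinsupp.lsum ℕ (fun i : {i // p i} =>
          (DFinsupp.lsingle (R := ZMod 2) (M := fun i => (κ i).V m) i.1 :
            (κ i.1).V m →ₗ[ZMod 2] (dsum κ).V m))).comp
          ((dsum fun i : {i // p i} => κ i.1).act g) =
        ((dsum κ).act g).comp (DFinsupp.lsum ℕ (fun i : {i // p i} =>
          (DFinsupp.lsingle (R := ZMod 2) (M := fun i => (κ i).V n) i.1 :
            (κ i.1).V n →ₗ[ZMod 2] (dsum κ).V n))) := by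
      refine DFinsupp.lhom_ext fun i v => ?_
      simp only [LinearMap.comp_apply, DFinsupp.lsum_single]
      have e : (dsum fun i : {i // p i} => κ i.1).act g (DFinsupp.single i v) =
          DFinsupp.single i ((κ i.1).act g v) := by
        show DFinsupp.mapRange (fun i : {i // p i} => (κ i.1).act g)
          (fun i => map_zero ((κ i.1).act g)) _ = _
        rw [DFinsupp.mapRange_single]
      rw [e, DFinsupp.lsum_single]
      exact (A4V1_J κ i.1).nat g v
    exact LinearMap.congr_fun this x⟩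

private theorem A4V1_pr_in {ι : Type} [DecidableEq ι] (κ : ι → SV) (p : ι → Prop)
    [DecidablePred p] (m : ℕ) (x : (dsum fun i : {i // p i} => κ i.1).V m) :
    (A4V1_pr κ p).app m ((A4V1_in κ p).app m x) = x := by
  have : ((A4V1_pr κ p).app m).comp ((A4V1_in κ p).app m) = LinearMap.id := by
    refine DFinsupp.lhom_ext fun i v => ?_
    show (A4V1_pr κ p).app m ((A4V1_in κ p).app m (DFinsupp.single i v)) = DFinsupp.single i v
    have e : (A4V1_in κ p).app m (DFinsupp.single i v) =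
        (DFinsupp.single i.1 v : (dsum κ).V m) := by
      show (DFinsupp.lsum ℕ (fun i : {i // p i} =>
          (DFinsupp.lsingle (R := ZMod 2) (M := fun i => (κ i).V m) i.1 :
            (κ i.1).V m →ₗ[ZMod 2] (dsum κ).V m))) (DFinsupp.single i v) = _
      rw [DFinsupp.lsum_single]
      rfl
    rw [e]
    refine DFinsupp.ext fun j => ?_
    show (DFinsupp.single i.1 v : (dsum κ).V m) j.1 =
      (DFinsupp.single i v : (dsum fun i : {i // p i} => κ i.1).V m) j
    by_cases hj : j = i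
    · subst hj
      rw [DFinsupp.single_eq_same, DFinsupp.single_eq_same]
    · rw [DFinsupp.single_eq_of_ne hj, DFinsupp.single_eq_of_ne (fun h => hj (Subtype.ext h))]
  exact LinearMap.congr_fun this x

private theorem A4V1_Hmap_bij {V W : SV} (f : SVHom V W) (g : SVHom W V)
    (h1 : LHtp (g.comp f) (SVHom.id V)) (h2 : LHtp (f.comp g) (SVHom.id W)) (n : ℕ) :
    Function.Bijective (SV.Hmap f n) := by
  rw [lhtp_iff] at h1 h2
  refine A4V1_bij f n ?_ ?_
  · intro z hz h
    have h3 := h1 n z hz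
    have h4 : g.app n (f.app n z) ∈ V.B n := g.map_B h
    have h5 := Submodule.add_mem _ h4 h3
    have h6 : g.app n (f.app n z) + ((g.comp f).app n z + (SVHom.id V).app n z) = z := by
      show g.app n (f.app n z) + (g.app n (f.app n z) + z) = z
      rw [← add_assoc, two_eq_zero', zero_add]
    rwa [h6] at h5
  · intro x hx
    exact ⟨g.app n x, g.map_Z hx, h2 n x hx⟩

private theorem A4V1_part {ι : Type} (δ : ι → ℕ) (N : ℕ) :
    (∀ j ≤ N, ∀ z ∈ (dsum fun i : {i // N < δ i} => KK (δ i.1)).Z j,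
      z ∈ (dsum fun i : {i // N < δ i} => KK (δ i.1)).B j) ∧
    ∀ j, N < j → Function.Bijective
      (SV.Hmap (A4V1_pr (fun i => KK (δ i)) (fun i => N < δ i)) j) := by
  classical
  refine ⟨?_, ?_⟩
  · intro j hj z hz
    refine A4V1_dsum_B fun i => ?_
    rcases KK_homology (δ i.1) j (z i) (A4V1_comp_Z hz i) with h | ⟨h, -⟩
    · exact h
    · exfalso
      have h3 : N < δ i.1 := i.2
      omega
  · intro j hj
    refine A4V1_bij _ j ?_ ?_
    · intro z hz h
      refine A4V1_dsum_B fun i => ?_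
      by_cases hi : N < δ i
      · exact A4V1_comp_B (κ := fun i : {i // N < δ i} => KK (δ i.1)) h ⟨i, hi⟩
      · rcases KK_homology (δ i) j (z i) (A4V1_comp_Z hz i) with h | ⟨h, -⟩
        · exact h
        · exfalso
          omega
    · intro x hx
      refine ⟨(A4V1_in (fun i => KK (δ i)) (fun i => N < δ i)).app j x,
        (A4V1_in (fun i => KK (δ i)) (fun i => N < δ i)).map_Z hx, ?_⟩
      rw [A4V1_pr_in, two_eq_zero']
      exact Submodule.zero_mem _

theorem lowsplit (V : SV) (N : ℕ) : ∃ (V' : SV) (k : SVHom V V'),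
    (∀ j ≤ N, ∀ z ∈ V'.Z j, z ∈ V'.B j) ∧ ∀ j, N < j → Function.Bijective (SV.Hmap k j) := by
  classical
  obtain ⟨f, g, h1, h2, -⟩ := exists_split V _
    (fun n => Module.Basis.ofVectorSpace (ZMod 2) (V.H n))
  obtain ⟨h3, h4⟩ := A4V1_part (fun i : (Σ n, (Module.Basis.ofVectorSpaceIndex (ZMod 2) (V.H n))) =>
    i.1) N
  refine ⟨_, (A4V1_pr (fun i : (Σ n, (Module.Basis.ofVectorSpaceIndex (ZMod 2) (V.H n))) =>
    KK i.1) (fun i => N < i.1)).comp g, h3, ?_⟩
  intro j hj
  have hg : Function.Bijective (SV.Hmap g j) := A4V1_Hmap_bij g f h1 h2 j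
  have e : ⇑(SV.Hmap ((A4V1_pr (fun i : (Σ n, (Module.Basis.ofVectorSpaceIndex (ZMod 2) (V.H n))) =>
      KK i.1) (fun i => N < i.1)).comp g) j) =
      ⇑(SV.Hmap (A4V1_pr (fun i : (Σ n, (Module.Basis.ofVectorSpaceIndex (ZMod 2) (V.H n))) =>
      KK i.1) (fun i => N < i.1)) j) ∘ ⇑(SV.Hmap g j) :=
    funext fun x => SV.Hmap_comp _ _ j x
  rw [e]
  exact (h4 j hj).comp hg

private theorem A4V1_prd_d (W W' : SV) (n : ℕ) (x : (W.prd W').V (n + 1)) :
    (W.prd W').d n x = (W.d n x.1, W'.d n x.2) := by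
  refine Prod.ext ?_ ?_
  · exact (prdFst W W').map_d x
  · exact (prdSnd W W').map_d x

private theorem A4V1_prd_B {W W' : SV} {n : ℕ} {x : (W.prd W').V n} (h1 : x.1 ∈ W.B n)
    (h2 : x.2 ∈ W'.B n) : x ∈ (W.prd W').B n := by
  obtain ⟨a, ha⟩ := h1
  obtain ⟨b, hb⟩ := h2
  refine ⟨(a, b), ?_⟩
  rw [A4V1_prd_d]
  exact Prod.ext ha hb

theorem pair_H_left {V W W' : SV} (f : SVHom V W) (g : SVHom V W') (j : ℕ)
    (h : ∀ z ∈ W'.Z j, z ∈ W'.B j) (hf : Function.Bijective (SV.Hmap f j)) :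
    Function.Bijective (SV.Hmap (f.pair g) j) := by
  refine A4V1_bij _ j ?_ ?_
  · intro z hz h1
    exact A4V1_inj hf.1 hz ((prdFst W W').map_B h1)
  · intro x hx
    obtain ⟨z, hz, h1⟩ := A4V1_surj hf.2 ((prdFst W W').map_Z hx)
    refine ⟨z, hz, A4V1_prd_B h1 ?_⟩
    exact h _ (Submodule.add_mem _ (g.map_Z hz) ((prdSnd W W').map_Z hx))

theorem pair_H_right {V W W' : SV} (f : SVHom V W) (g : SVHom V W') (j : ℕ)
    (h : ∀ z ∈ W.Z j, z ∈ W.B j) (hg : Function.Bijective (SV.Hmap g j)) :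
    Function.Bijective (SV.Hmap (f.pair g) j) := by
  refine A4V1_bij _ j ?_ ?_
  · intro z hz h1
    exact A4V1_inj hg.1 hz ((prdSnd W W').map_B h1)
  · intro x hx
    obtain ⟨z, hz, h1⟩ := A4V1_surj hg.2 ((prdSnd W W').map_Z hx)
    refine ⟨z, hz, A4V1_prd_B ?_ h1⟩
    exact h _ (Submodule.add_mem _ (f.map_Z hz) ((prdFst W W').map_Z hx))

private theorem A4V1_lin_comp {V W U : SV} (g : SVHom W U) (f : SVHom V W) :
    linMap (g.comp f).toHom = (linMap g.toHom).comp (linMap f.toHom) := by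
  apply SVHom.ext
  funext n
  refine LinearMap.ext fun z => ?_
  show Finsupp.mapDomain _ z = Finsupp.mapDomain _ (Finsupp.mapDomain _ z)
  rw [← Finsupp.mapDomain_comp]
  rfl

private theorem A4V1_lin_id (V : SV) : linMap (SVHom.id V).toHom = SVHom.id (lin V.ss) := by
  apply SVHom.ext
  funext n
  refine LinearMap.ext fun z => ?_
  exact Finsupp.mapDomain_id

theorem proj_low (W V' : SV) (N : ℕ) (h : ∀ j ≤ N, ∀ z ∈ V'.Z j, z ∈ V'.B j) (j : ℕ)
    (hj : j ≤ N) : Function.Bijective (SV.Hmap (linMap (prdFst W V').toHom) j) := by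
  obtain ⟨H, h0, h1⟩ := lowcon V' N h
  let inc : SVHom W (W.prd V') := ⟨fun n => LinearMap.inl (ZMod 2) (W.V n) (V'.V n), fun {m n} g x => by
    show (W.act g x, (0 : V'.V m)) = (W.act g x, V'.act g 0)
    rw [map_zero]⟩
  let u : SVHom (W.prd V') (W.prd V') :=
    ⟨fun n => LinearMap.prodMap LinearMap.id (H.app n (cst 1)), fun {m n} g x => by
      show (W.act g x.1, H.app m (cst 1) (V'.act g x.2)) = (W.act g x.1, V'.act g (H.app n (cst 1) x.2))
      rw [← H.nat g (cst 1) x.2, cst_comp]⟩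
  have hu : LHtp (SVHom.id (W.prd V')) u := by
    refine ⟨⟨fun n a => LinearMap.prodMap LinearMap.id (H.app n a), fun {m n} g a x => ?_⟩, ?_, ?_⟩
    · show (W.act g x.1, H.app m (a.comp g) (V'.act g x.2)) = (W.act g x.1, V'.act g (H.app n a x.2))
      rw [H.nat]
    · intro n x
      show (x.1, H.app n (cst 0) x.2) = x
      rw [h0]
    · intro n x
      rfl
  have e1 : ∀ x, SV.Hmap (linMap inc.toHom) j (SV.Hmap (linMap (prdFst W V').toHom) j x) = x := by
    intro x
    rw [← SV.Hmap_comp, ← A4V1_lin_comp]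
    have e2 : SV.Hmap (linMap (inc.comp (prdFst W V')).toHom) j = SV.Hmap (linMap u.toHom) j := by
      refine LinearMap.ext fun x => ?_
      obtain ⟨⟨z, hz⟩, rfl⟩ := Submodule.Quotient.mk_surjective _ x
      show (lin (W.prd V').ss).cls ((linMap (inc.comp (prdFst W V')).toHom).app j z) _ =
        (lin (W.prd V').ss).cls ((linMap u.toHom).app j z) _
      have e3 : (linMap (inc.comp (prdFst W V')).toHom).app j z = (linMap u.toHom).app j z := by
        show Finsupp.mapDomain _ z = Finsupp.mapDomain _ z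
        congr 1
        funext y
        show ((y.1, (0 : V'.V j)) : (W.prd V').V j) = (y.1, H.app j (cst 1) y.2)
        rw [h1 j hj]
      simp only [e3]
    rw [e2, ← Hmap_linMap_lhtp hu, A4V1_lin_id, SV.Hmap_id]
  have e4 : ∀ x, SV.Hmap (linMap (prdFst W V').toHom) j (SV.Hmap (linMap inc.toHom) j x) = x := by
    intro x
    rw [← SV.Hmap_comp, ← A4V1_lin_comp]
    have e5 : (prdFst W V').comp inc = SVHom.id W := rfl
    rw [e5, A4V1_lin_id, SV.Hmap_id]
  exact Function.bijective_iff_has_inverse.2 ⟨_, e1, e4⟩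

theorem lin_low_iso {V W : SV} (f : SVHom V W) (N : ℕ)
    (h1 : ∀ j ≤ N, Function.Bijective (SV.Hmap f j)) (h2 : ∀ j, N < j → ∀ z ∈ W.Z j, z ∈ W.B j)
    (j : ℕ) (hj : j ≤ N) : Function.Bijective (SV.Hmap (linMap f.toHom) j) := by
  obtain ⟨V', k, hV', hk⟩ := lowsplit V N
  have h3 : ∀ n, Function.Bijective (SV.Hmap (f.pair k) n) := by
    intro n
    rcases le_or_gt n N with hn | hn
    · exact pair_H_left f k n (hV' n hn) (h1 n hn)
    · exact pair_H_right f k n (h2 n hn) (hk n hn)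
  have h4 := Hmap_linMap_bij (f.pair k) h3 j
  have h5 := proj_low W V' N hV' j hj
  have e : f = (prdFst W V').comp (f.pair k) := rfl
  have e2 : ⇑(SV.Hmap (linMap f.toHom) j) =
      ⇑(SV.Hmap (linMap (prdFst W V').toHom) j) ∘ ⇑(SV.Hmap (linMap (f.pair k).toHom) j) := by
    funext x
    rw [Function.comp_apply, ← SV.Hmap_comp, ← A4V1_lin_comp]
    rfl
  rw [e2]
  exact h5.comp h4

end MM

end

/-! ### from `Lib_MP_33f7bb_d.B305` -/

section

/-!
# B3-05: absolute acyclicity implies acyclicity of `(P, p)`; doubling on labels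

`acyc_pt_of_abs`.  Let `z : Ch P n` with `RelCyc (pt p) z`.  `n = 0`: hypothesis `h0`.  `n = m + 1`: `dif z` is
supported in `{deg p m}`, so `dif z = c • single (deg p m) 1`, `c : ZMod 2`.  If `c = 0` use `h`.  Let `c = 1`.
`dif (single (deg p (k+1)) 1) = (k + 2 : ZMod 2) • single (deg p k) 1` (all `k + 2` faces of the degenerate
simplex are `deg p k`).
If `m = k + 1`: `0 = dif (dif z) = (k + 2) • single (deg p k) 1`, so `k` is even in the sense
`(k + 2 : ZMod 2) = 0`; hence `dif (single (deg p (m+1)) 1) = (m + 2) • single .. = (k+3) • .. = single (deg p m) 1`,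
so `z + single (deg p (m+1)) 1` is a cycle; by `h` it is `dif w`; then `z + dif w = single (deg p (m+1)) 1` is
supported in `pt p`.
If `m = 0`: the total coefficient (`Finsupp.sum id`, linear) of `dif z`, `z : Ch P 1`, is `2 * ... = 0`,
but it is `c = 1`: contradiction.

`labM_double`: the finsupp `a.mapRange (fun x => x + x)` is `a + a`; bijective with inverse `mapRange` of the
inverse; the support condition is preserved since `x + x = 0 ↔ x = 0`.
-/

namespace MM

private theorem B305_face {P : SS} (p : P.S 0) {k : ℕ} (i : Fin (k + 2)) :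
    P.act (dlt i) (P.deg p (k + 1)) = P.deg p k := by
  show P.act (dlt i) (P.act (cst 0) p) = P.act (cst 0) p
  rw [P.act_comp]
  rfl

private theorem B305_dd {P : SS} (p : P.S 0) (k : ℕ) (c : ZMod 2) :
    dif (Finsupp.single (P.deg p (k + 1)) c : Ch P (k + 1)) =
      Finsupp.single (P.deg p k) (((k + 2 : ℕ) : ZMod 2) * c) := by
  unfold dif
  simp only [Finsupp.mapDomain_single, B305_face]
  rw [Finset.sum_const, Finset.card_univ, Fintype.card_fin, ← Nat.cast_smul_eq_nsmul (ZMod 2),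
    Finsupp.smul_single, smul_eq_mul]

private theorem B305_tot {P : SS} (z : Ch P 1) :
    Finsupp.linearCombination (ZMod 2) (fun _ : P.S 0 => (1 : ZMod 2)) (dif z) = 0 := by
  unfold dif
  rw [map_sum, Fin.sum_univ_two, Finsupp.linearCombination_mapDomain,
    Finsupp.linearCombination_mapDomain]
  exact two_eq_zero' _

private theorem B305_single {P : SS} (p : P.S 0) {m : ℕ} (u : Ch P m) (hu : SuppIn (Sub.pt p) u) :
    u = Finsupp.single (P.deg p m) (u (P.deg p m)) := by
  classical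
  ext x
  rw [Finsupp.single_apply]
  by_cases h : P.deg p m = x
  · rw [if_pos h, h]
  · rw [if_neg h]
    by_contra hx
    exact h (hu x (Finsupp.mem_support_iff.2 hx)).symm

theorem acyc_pt_of_abs {P : SS} (p : P.S 0)
    (h : ∀ (n : ℕ) (z : Ch P (n + 1)), dif z = 0 → ∃ w : Ch P (n + 2), dif w = z)
    (h0 : ∀ z : Ch P 0, ∃ w : Ch P 1, SuppIn (Sub.pt p) (z + dif w)) :
    Acyc (Sub.pt p) ⊤ := by
  intro n z _ hz
  cases n with
  | zero =>
    obtain ⟨w, hw⟩ := h0 z
    exact ⟨w, SuppIn.top w, hw⟩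
  | succ m =>
    have h1 := B305_single p (dif z) hz
    have hc : (dif z) (P.deg p m) = 0 ∨ (dif z) (P.deg p m) = 1 := by
      generalize (dif z) (P.deg p m) = c
      revert c
      decide
    rcases hc with hc | hc
    · rw [hc, Finsupp.single_zero] at h1
      obtain ⟨w, hw⟩ := h m z h1
      refine ⟨w, SuppIn.top w, ?_⟩
      rw [hw, two_eq_zero' z]
      exact SuppIn.zero _
    · rw [hc] at h1
      cases m with
      | zero =>
        exfalso
        have h2 := B305_tot z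
        rw [h1, Finsupp.linearCombination_single, smul_eq_mul, one_mul] at h2
        exact one_ne_zero h2
      | succ k =>
        have h2 := dif_dif z
        rw [h1, B305_dd, mul_one] at h2
        have h3 : ((k + 2 : ℕ) : ZMod 2) = 0 := by
          have := congrArg (fun u : Ch P k => u (P.deg p k)) h2
          simpa using this
        have h4 : ((k + 1 + 2 : ℕ) : ZMod 2) = 1 := by
          have : k + 1 + 2 = (k + 2) + 1 := by ring
          rw [this, Nat.cast_add, h3, zero_add, Nat.cast_one]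
        have h5 : dif (z + Finsupp.single (P.deg p (k + 2)) 1) = 0 := by
          rw [dif_add, h1, B305_dd, h4, mul_one]
          exact two_eq_zero' _
        obtain ⟨w, hw⟩ := h _ _ h5
        refine ⟨w, SuppIn.top w, ?_⟩
        rw [hw, ← add_assoc, two_eq_zero' z, zero_add]
        exact SuppIn.single (A := Sub.pt p) (x := P.deg p (k + 2)) rfl 1

theorem labM_double {M : Type} [AddCommMonoid M]
    (hM : Function.Bijective (fun x : M => x + x)) {U : SS} (K C : Sub U) (n : ℕ) :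
    Function.Bijective (fun x : (lab M K C).S n => x + x) := by
  constructor
  · intro a b hab
    apply Subtype.ext
    ext x
    apply hM.1
    exact congrArg (fun u : (lab M K C).S n => u.1 x) hab
  · intro b
    set e := Equiv.ofBijective _ hM with he
    have h1 : ∀ y, e.symm y + e.symm y = y := fun y => e.apply_symm_apply y
    have h0 : e.symm 0 = 0 := by
      apply hM.1
      show e.symm 0 + e.symm 0 = 0 + 0
      rw [h1, add_zero]
    refine ⟨⟨b.1.mapRange e.symm h0, fun x hx => b.2 x fun hb => hx ?_⟩, ?_⟩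
    · rw [Finsupp.mapRange_apply, hb, h0]
    · apply Subtype.ext
      ext x
      show (b.1.mapRange e.symm h0) x + (b.1.mapRange e.symm h0) x = b.1 x
      rw [Finsupp.mapRange_apply, h1]

end MM

end
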