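import Pool.Agent.Lib_MP_33f7bb_m.G04

/-!
# MP_33f7bb_an, negative answer to Q1: merged library part G13

Concatenation of files of `Lib_MP_33f7bb_an` and `Lib_MP_33f7bb_d` (each in its own section), only to save build time.
-/

/-! ### from `Lib_MP_33f7bb_d.A4R3` -/

section

/-!
# A4-03: reduced and unreduced classes, external products

`R.sec z₀ : R Z → lin Z`, `[x] ↦ [x] + [z₀]` is a section of the projection `R.pr z₀` (check on the basis);
so `H(R.pr)` is surjective and `red` is injective.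
`red_surj`: for `n ≥ 1` every class of `lin Z` vanishing in `R Z` is `0`: if `z` is a cycle of degree `n ≥ 1` and
`pr z = d w`, lift `w` to `w'`: `z + d w'` is a cycle supported at the base point, i.e. a cycle of `lin PT` of positive
degree, a boundary.  So `H_n(R.pr)` is bijective for `n ≥ 1` and every functional on `H_n (lin Z)` factors.
`red_zero_iff`: in degree `0` the classes in the image of `red` are those which vanish on the class of the base point.
`linProd`: `[(x, y)] ↦ [x] ⊗ [y]` is bijective in every degree (`finsuppTensorFinsupp'`), so it induces an isomorphism in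
homology (the inverse is again a simplicial map, or: use bijectivity of the maps of complexes directly).
`cup_fst_snd`: `(linMap fst ⊗ linMap snd) ∘ linDiag = linProd` (check on `[(x,y)]`) and `boxF_map`.
`red_cupR`: `(pr ⊗ pr) ∘ linDiag = R.diag ∘ pr` and `boxF_map`.
-/

open scoped TensorProduct

namespace MM

variable {Z Z' : SS}

/-- the section `[x] ↦ [x] + [z₀]` of `R.pr` -/
noncomputable def R.sec (z₀ : Z.S 0) : SVHom (R Z z₀) (lin Z) :=
  R.lift z₀ (W := lin Z) ⟨fun n x => (Finsupp.single x 1 + Finsupp.single (Z.deg z₀ n) 1 : Ch Z n),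
    fun {m n} f x => by
    show _ = Finsupp.mapDomain (Z.act f) _
    rw [Finsupp.mapDomain_add, Finsupp.mapDomain_single, Finsupp.mapDomain_single]
    congr 2
    show Z.act (cst 0) z₀ = Z.act f (Z.act (cst 0) z₀)
    rw [Z.act_comp]
    rfl⟩ (by
    show (Finsupp.single z₀ 1 + Finsupp.single (Z.deg z₀ 0) 1 : Ch Z 0) = 0
    have h1 : Z.deg z₀ 0 = z₀ := by
      show Z.act _ z₀ = z₀
      have h1 : (cst 0 : Mo 0 0) = OrderHom.id := by
        ext i; simp [cst]
      rw [h1, Z.act_id]
    rw [h1, ← Finsupp.single_add]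
    have h2 : (1 + 1 : ZMod 2) = 0 := rfl
    rw [h2, Finsupp.single_zero])

private theorem A4R3_deg (z₀ : Z.S 0) : Z.deg z₀ 0 = z₀ := by
  show Z.act _ z₀ = z₀
  have h1 : (cst 0 : Mo 0 0) = OrderHom.id := by
    ext i; simp [cst]
  rw [h1, Z.act_id]

private theorem A4R3_linext {W : SV} {f g : SVHom (lin Z) W}
    (h : ∀ n x, f.app n (Finsupp.single x 1) = g.app n (Finsupp.single x 1)) : f = g := by
  apply SVHom.ext
  funext n
  refine Finsupp.lhom_ext fun x r => ?_
  have h1 : (Finsupp.single x r : Ch Z n) = r • Finsupp.single x 1 := by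
    rw [Finsupp.smul_single, smul_eq_mul, mul_one]
  rw [h1, map_smul, map_smul, h]

private theorem A4R3_sec_of (z₀ : Z.S 0) (n : ℕ) (x : Z.S n) :
    (R.sec z₀).app n ((R.of z₀).app n x) =
      (Finsupp.single x 1 + Finsupp.single (Z.deg z₀ n) 1 : Ch Z n) := by
  unfold R.sec
  rw [R.lift_of]

theorem R.pr_sec (z₀ : Z.S 0) : (R.pr z₀).comp (R.sec z₀) = SVHom.id (R Z z₀) := by
  apply R.ext
  intro n x
  show (R.pr z₀).app n ((R.sec z₀).app n ((R.of z₀).app n x)) = (R.of z₀).app n x
  rw [A4R3_sec_of]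
  show (R.pr z₀).app n (Finsupp.single x 1 + Finsupp.single (Z.deg z₀ n) 1 : Ch Z n) = _
  rw [map_add, R.pr_single, R.pr_single, R.of_base]
  exact add_zero _

theorem Hmap_pr_surj (z₀ : Z.S 0) (n : ℕ) : Function.Surjective (SV.Hmap (R.pr z₀) n) := by
  intro x
  refine ⟨SV.Hmap (R.sec z₀) n x, ?_⟩
  rw [← SV.Hmap_comp, R.pr_sec, SV.Hmap_id]

theorem red_injective (z₀ : Z.S 0) (n : ℕ) : Function.Injective (red z₀ n) :=
  LinearMap.dualMap_injective_of_surjective (Hmap_pr_surj z₀ n)

theorem Hmap_pr_inj (z₀ : Z.S 0) (n : ℕ) (hn : 1 ≤ n) :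
    Function.Injective (SV.Hmap (R.pr z₀) n) := by
  rw [injective_iff_map_eq_zero]
  intro x hx
  obtain ⟨z, hz, rfl⟩ := A3Box_exists_cls x
  obtain ⟨m, rfl⟩ : ∃ m, n = m + 1 := ⟨n - 1, by omega⟩
  rw [SV.Hmap_cls] at hx
  have hx' := (Submodule.Quotient.mk_eq_zero _).1 hx
  obtain ⟨w, hw⟩ := hx'
  obtain ⟨w', rfl⟩ := Submodule.Quotient.mk_surjective _ w
  -- `z + d w'` is supported at the base point
  have h1 : (R.pr z₀).app (m + 1) (z + (lin Z).d (m + 1) w') = 0 := by
    rw [map_add, SVHom.map_d]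
    have h2 : (R Z z₀).d (m + 1) ((R.pr z₀).app (m + 2) w') = (R.pr z₀).app (m + 1) z := hw
    rw [h2]
    exact two_eq_zero' _
  have h2 : SuppIn (Sub.pt z₀) (z + (lin Z).d (m + 1) w' : Ch Z (m + 1)) :=
    (Submodule.Quotient.mk_eq_zero _).1 h1
  have h3 : (z + (lin Z).d (m + 1) w' : Ch Z (m + 1)) =
      Finsupp.single (Z.deg z₀ (m + 1)) ((z + (lin Z).d (m + 1) w' : Ch Z (m + 1))
        (Z.deg z₀ (m + 1))) := by
    ext y
    by_cases hy : y = Z.deg z₀ (m + 1)
    · rw [hy, Finsupp.single_eq_same]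
    · rw [Finsupp.single_eq_of_ne hy]
      by_contra h4
      exact hy (h2 y (Finsupp.mem_support_iff.2 h4))
  have hdeg : ∀ (k : ℕ) (i : Fin (k + 2)), Z.act (dlt i) (Z.deg z₀ (k + 1)) = Z.deg z₀ k := by
    intro k i
    show Z.act _ (Z.act (cst 0) z₀) = Z.act (cst 0) z₀
    rw [Z.act_comp]
    rfl
  have hdifdeg : ∀ (k : ℕ) (r : ZMod 2), (lin Z).d k (Finsupp.single (Z.deg z₀ (k + 1)) r) =
      ((k + 2 : ℕ) : ZMod 2) • (Finsupp.single (Z.deg z₀ k) r : Ch Z k) := by
    intro k r
    simp only [SV.d, LinearMap.sum_apply, Finsupp.lmapDomain_apply, Finsupp.mapDomain_single, hdeg]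
    rw [Finset.sum_const, Finset.card_univ, Fintype.card_fin, Nat.cast_smul_eq_nsmul]
  have hzB : z ∈ (lin Z).B (m + 1) := by
    have h5 : (lin Z).d m (z + (lin Z).d (m + 1) w') = 0 := by
      have hz' : (lin Z).d m z = 0 := hz
      rw [map_add, hz', SV.d_d, add_zero]
    have h6 : (z + (lin Z).d (m + 1) w' : Ch Z (m + 1)) ∈ (lin Z).B (m + 1) := by
      rw [h3] at h5 ⊢
      generalize ((z + (lin Z).d (m + 1) w' : Ch Z (m + 1)) (Z.deg z₀ (m + 1))) = r at h5 ⊢
      rw [hdifdeg] at h5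
      have h7 : ((m + 2 : ℕ) : ZMod 2) * r = 0 := by
        have h8 := congrArg (fun u : Ch Z m => u (Z.deg z₀ m)) h5
        simp only [Finsupp.smul_apply, Finsupp.single_eq_same, smul_eq_mul] at h8
        exact h8
      rcases mul_eq_zero.1 h7 with h8 | h8
      · refine ⟨Finsupp.single (Z.deg z₀ (m + 2)) r, ?_⟩
        rw [hdifdeg]
        have h9 : ((m + 1 + 2 : ℕ) : ZMod 2) = 1 := by
          have : ((m + 1 + 2 : ℕ) : ZMod 2) = ((m + 2 : ℕ) : ZMod 2) + 1 := by push_cast; ring
          rw [this, h8, zero_add]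
        rw [h9, one_smul]
      · rw [h8, Finsupp.single_zero]
        exact Submodule.zero_mem _
    have h7 : z = (z + (lin Z).d (m + 1) w') + (lin Z).d (m + 1) w' := by
      rw [add_assoc]
      have := two_eq_zero' ((lin Z).d (m + 1) w')
      rw [this, add_zero]
    rw [h7]
    exact Submodule.add_mem _ h6 ⟨w', rfl⟩
  exact (Submodule.Quotient.mk_eq_zero _).2 hzB

theorem red_surj (z₀ : Z.S 0) (n : ℕ) (hn : 1 ≤ n) (y : Hc Z n) : ∃ a, red z₀ n a = y := by
  let e := LinearEquiv.ofBijective (SV.Hmap (R.pr z₀) n) ⟨Hmap_pr_inj z₀ n hn, Hmap_pr_surj z₀ n⟩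
  refine ⟨y.comp e.symm.toLinearMap, ?_⟩
  apply LinearMap.ext
  intro x
  show y (e.symm (e x)) = y x
  rw [LinearEquiv.symm_apply_apply]

/-- the class of a vertex -/
noncomputable def vcls (z : Z.S 0) : (lin Z).H 0 := (lin Z).cls (Finsupp.single z 1) Submodule.mem_top

private theorem A4R3_cls_single (x : Z.S 0) (r : ZMod 2) :
    (lin Z).cls (Finsupp.single x r : Ch Z 0) Submodule.mem_top = r • vcls x := by
  have h1 : (Finsupp.single x r : Ch Z 0) = r • Finsupp.single x 1 := by
    rw [Finsupp.smul_single, smul_eq_mul, mul_one]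
  rw [A3Box_cls_congr h1 Submodule.mem_top (((lin Z).Z 0).smul_mem r Submodule.mem_top)]
  exact A3Box_cls_smul r Submodule.mem_top

theorem red_zero_iff (z₀ : Z.S 0) (y : Hc Z 0) : (∃ a, red z₀ 0 a = y) ↔ y (vcls z₀) = 0 := by
  constructor
  · rintro ⟨a, rfl⟩
    show a (SV.Hmap (R.pr z₀) 0 (vcls z₀)) = 0
    unfold vcls
    rw [SV.Hmap_cls, A3Box_cls_zero, map_zero]
    rw [R.pr_single]
    have h1 := R.of_base z₀ 0
    rwa [A4R3_deg] at h1
  · intro h
    refine ⟨y.comp (SV.Hmap (R.sec z₀) 0), ?_⟩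
    apply LinearMap.ext
    intro x
    show y (SV.Hmap (R.sec z₀) 0 (SV.Hmap (R.pr z₀) 0 x)) = y x
    obtain ⟨z, hz, rfl⟩ := A3Box_exists_cls x
    have key : ∀ z : Ch Z 0, y (SV.Hmap (R.sec z₀) 0 (SV.Hmap (R.pr z₀) 0
        ((lin Z).cls z Submodule.mem_top))) = y ((lin Z).cls z Submodule.mem_top) := by
      intro z
      induction z using Finsupp.induction_linear with
      | zero =>
        rw [A3Box_cls_zero rfl, map_zero, map_zero]
      | add u v hu hv =>
        have h1 : (lin Z).cls (u + v : Ch Z 0) Submodule.mem_top =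
          (lin Z).cls u Submodule.mem_top + (lin Z).cls v Submodule.mem_top := rfl
        rw [h1, map_add, map_add, map_add, map_add, hu, hv]
      | single u r =>
        rw [A4R3_cls_single, map_smul, map_smul, map_smul, map_smul]
        congr 1
        have h2 : SV.Hmap (R.sec z₀) 0 (SV.Hmap (R.pr z₀) 0 (vcls u)) = vcls u + vcls z₀ := by
          unfold vcls
          rw [SV.Hmap_cls, SV.Hmap_cls]
          have h3 : (R.sec z₀).app 0 ((R.pr z₀).app 0 (Finsupp.single u 1)) =
              (Finsupp.single u 1 + Finsupp.single z₀ 1 : Ch Z 0) := by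
            rw [R.pr_single, A4R3_sec_of, A4R3_deg]
          rw [A3Box_cls_congr h3 _ Submodule.mem_top]
          rfl
        rw [h2, map_add, h, add_zero]
    exact key z

theorem red_nat (z₀ : Z.S 0) (z₀' : Z'.S 0) (f : Hom Z Z') (hf : f.app 0 z₀ = z₀') (n : ℕ)
    (a : Module.Dual (ZMod 2) ((R Z' z₀').H n)) :
    red z₀ n (a.comp (SV.Hmap (R.map z₀ z₀' f hf) n)) = Hc.map f n (red z₀' n a) := by
  have h1 : (R.map z₀ z₀' f hf).comp (R.pr z₀) = (R.pr z₀').comp (linMap f) := by
    apply A4R3_linext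
    intro m x
    show (R.map z₀ z₀' f hf).app m ((R.pr z₀).app m (Finsupp.single x 1)) =
      (R.pr z₀').app m (Finsupp.mapDomain (f.app m) (Finsupp.single x 1))
    rw [R.pr_single, R.map_of, Finsupp.mapDomain_single, R.pr_single]
  apply LinearMap.ext
  intro x
  show a (SV.Hmap (R.map z₀ z₀' f hf) n (SV.Hmap (R.pr z₀) n x)) =
    a (SV.Hmap (R.pr z₀') n (SV.Hmap (linMap f) n x))
  rw [← SV.Hmap_comp, ← SV.Hmap_comp, h1]

theorem red_cupR (z₀ : Z.S 0) {p q : ℕ} (n : ℕ) (a : Module.Dual (ZMod 2) ((R Z z₀).H p))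
    (b : Module.Dual (ZMod 2) ((R Z z₀).H q)) :
    red z₀ n (cupR n a b) = cup n (red z₀ p a) (red z₀ q b) := by
  have h1 : (R.diag z₀).comp (R.pr z₀) = ((R.pr z₀).tens (R.pr z₀)).comp (linDiag Z) := by
    apply A4R3_linext
    intro m x
    show (R.diag z₀).app m ((R.pr z₀).app m (Finsupp.single x 1)) =
      ((R.pr z₀).tens (R.pr z₀)).app m ((linDiag Z).app m (Finsupp.single x 1))
    rw [linDiag_single, R.pr_single]
    unfold R.diag
    rw [R.lift_of]
    show _ = TensorProduct.map _ _ (_ ⊗ₜ[ZMod 2] _)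
    rw [TensorProduct.map_tmul, R.pr_single]
    rfl
  have h2 := boxF_map (R.pr z₀) (R.pr z₀) (n := n) a b
  apply LinearMap.ext
  intro x
  show boxF n a b (SV.Hmap (R.diag z₀) n (SV.Hmap (R.pr z₀) n x)) =
    boxF n (a.comp (SV.Hmap (R.pr z₀) p)) (b.comp (SV.Hmap (R.pr z₀) q))
      (SV.Hmap (linDiag Z) n x)
  rw [← h2, LinearMap.comp_apply, ← SV.Hmap_comp, ← SV.Hmap_comp, h1]

/-- `[(x, y)] ↦ [x] ⊗ [y]` -/
noncomputable def linProd (Z Z' : SS) : SVHom (lin (Z.prod Z')) ((lin Z).tens (lin Z')) :=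
  linHom (W := (lin Z).tens (lin Z')) ⟨fun n x => (Finsupp.single x.1 1 : Ch Z n) ⊗ₜ[ZMod 2]
      (Finsupp.single x.2 1 : Ch Z' n),
    fun {m n} f x => by
    show _ = TensorProduct.map _ _ (_ ⊗ₜ[ZMod 2] _)
    rw [TensorProduct.map_tmul, Finsupp.lmapDomain_apply, Finsupp.mapDomain_single,
      Finsupp.lmapDomain_apply, Finsupp.mapDomain_single]⟩

private theorem A4R3_linProd_single (Z Z' : SS) (n : ℕ) (x : (Z.prod Z').S n) :
    (linProd Z Z').app n (Finsupp.single x 1) =
      (Finsupp.single x.1 1 : Ch Z n) ⊗ₜ[ZMod 2] (Finsupp.single x.2 1 : Ch Z' n) := by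
  show linExt _ n (Finsupp.single x 1) = _
  rw [linExt_single, one_smul]

theorem linProd_bijective (Z Z' : SS) (n : ℕ) : Function.Bijective ((linProd Z Z').app n) := by
  have h1 : (linProd Z Z').app n =
      (finsuppTensorFinsupp' (ZMod 2) (Z.S n) (Z'.S n)).symm.toLinearMap := by
    refine Finsupp.lhom_ext fun x r => ?_
    have h1 : (Finsupp.single x r : Ch (Z.prod Z') n) = r • Finsupp.single x 1 := by
      rw [Finsupp.smul_single, smul_eq_mul, mul_one]
    rw [h1, map_smul, map_smul, A4R3_linProd_single]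
    congr 1
    exact (finsuppTensorFinsupp'_symm_single_eq_single_one_tmul (ZMod 2) (Z.S n) (Z'.S n) x 1).symm
  rw [h1]
  exact (finsuppTensorFinsupp' (ZMod 2) (Z.S n) (Z'.S n)).symm.bijective

private theorem A4R3_Hmap_bijective {P Q : SV} (f : SVHom P Q)
    (hf : ∀ n, Function.Bijective (f.app n)) (n : ℕ) : Function.Bijective (SV.Hmap f n) := by
  constructor
  · rw [injective_iff_map_eq_zero]
    intro x hx
    obtain ⟨z, hz, rfl⟩ := A3Box_exists_cls x
    rw [SV.Hmap_cls] at hx
    obtain ⟨w, hw⟩ := (Submodule.Quotient.mk_eq_zero _).1 hx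
    obtain ⟨w', rfl⟩ := (hf (n + 1)).2 w
    have hw' : Q.d n (f.app (n + 1) w') = f.app n z := hw
    rw [← f.map_d] at hw'
    have h1 := (hf n).1 hw'
    exact (Submodule.Quotient.mk_eq_zero _).2 ⟨w', h1⟩
  · intro y
    obtain ⟨z, hz, rfl⟩ := A3Box_exists_cls y
    obtain ⟨z', rfl⟩ := (hf n).2 z
    have hz' : z' ∈ P.Z n := by
      cases n with
      | zero => exact Submodule.mem_top
      | succ n =>
        have h1 : Q.d n (f.app (n + 1) z') = 0 := hz
        rw [← f.map_d] at h1
        exact (hf n).1 (h1.trans (map_zero _).symm)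
    exact ⟨P.cls z' hz', rfl⟩

theorem Hmap_linProd_bijective (Z Z' : SS) (n : ℕ) :
    Function.Bijective (SV.Hmap (linProd Z Z') n) :=
  A4R3_Hmap_bijective _ (linProd_bijective Z Z') n

theorem cup_fst_snd {p q : ℕ} (n : ℕ) (a : Hc Z p) (b : Hc Z' q) :
    cup n (Hc.map (Hom.fst Z Z') p a) (Hc.map (Hom.snd Z Z') q b) =
      (boxF n a b).comp (SV.Hmap (linProd Z Z') n) := by
  have h1 : ((linMap (Hom.fst Z Z')).tens (linMap (Hom.snd Z Z'))).comp (linDiag (Z.prod Z')) =
      linProd Z Z' := by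
    apply A4R3_linext
    intro m x
    show ((linMap (Hom.fst Z Z')).tens (linMap (Hom.snd Z Z'))).app m
      ((linDiag (Z.prod Z')).app m (Finsupp.single x 1)) = _
    rw [linDiag_single, A4R3_linProd_single]
    show TensorProduct.map _ _ (_ ⊗ₜ[ZMod 2] _) = _
    rw [TensorProduct.map_tmul]
    show (Finsupp.mapDomain ((Hom.fst Z Z').app m) (Finsupp.single x 1)) ⊗ₜ[ZMod 2]
      (Finsupp.mapDomain ((Hom.snd Z Z').app m) (Finsupp.single x 1)) = _
    rw [Finsupp.mapDomain_single, Finsupp.mapDomain_single]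
    rfl
  have h2 := boxF_map (linMap (Hom.fst Z Z')) (linMap (Hom.snd Z Z')) (n := n) a b
  apply LinearMap.ext
  intro x
  show boxF n (a.comp (SV.Hmap (linMap (Hom.fst Z Z')) p))
    (b.comp (SV.Hmap (linMap (Hom.snd Z Z')) q)) (SV.Hmap (linDiag (Z.prod Z')) n x) =
    boxF n a b (SV.Hmap (linProd Z Z') n x)
  rw [← h2, LinearMap.comp_apply, ← SV.Hmap_comp, h1]

/-- a general fact: levelwise bijective linear simplicial maps are isomorphisms in homology -/
theorem Hmap_bijective {P Q : SV} (f : SVHom P Q) (hf : ∀ n, Function.Bijective (f.app n))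
    (n : ℕ) : Function.Bijective (SV.Hmap f n) := A4R3_Hmap_bijective f hf n

end MM

end

/-! ### from `Lib_MP_33f7bb_d.A4R4` -/

section

/-!
# A4-04: bases of the cohomology ring

`CBasis dg a`: the homogeneous elements `a i ∈ CR Z` of degree `dg i` form a basis of `H^d` for every `d`.

Proofs.  `finite_H`: `Hc Z d` is the dual of `(lin Z).H d` and is spanned by the finitely many `a i d`, `dg i = d`; a
vector space with finite dimensional dual is finite dimensional (`Module.Dual` of an infinite dimensional space is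
infinite dimensional: `Subspace.dual_finrank_eq`, `Module.finite_dual_iff`).
`finrank`: the family `a i d`, `i` in the fibre, is a basis.
`of_le`: a linearly independent family with at least `finrank` members spans.
`of_iso`: `Hc.map f d` is an isomorphism.
`dual`: `(lin Z).H d` is finite dimensional, its dual has the basis `(a i d)_(dg i = d)`; take the dual basis in
`(lin Z).H d` (`Module.evalEquiv`, `Basis.dualBasis`).
-/

open scoped TensorProduct

namespace MM

/-- the elements `a i`, `dg i = d`, form a basis of `H^d` -/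
def CBasisAt (Z : SS) {I : Type} (dg : I → ℕ) (a : I → CR Z) (d : ℕ) : Prop :=
  (∀ c : I →₀ ZMod 2, (∀ i, c i ≠ 0 → dg i = d) → (c.sum fun i r => r • a i d) = 0 → c = 0) ∧
  ∀ y : Hc Z d, ∃ c : I →₀ ZMod 2, (∀ i, c i ≠ 0 → dg i = d) ∧ (c.sum fun i r => r • a i d) = y

/-- homogeneous elements forming a basis of the cohomology in every degree -/
structure CBasis (Z : SS) {I : Type} (dg : I → ℕ) (a : I → CR Z) : Prop where
  hom : ∀ i, CR.IsHom (dg i) (a i)
  fin : ∀ d, {i | dg i = d}.Finite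
  bas : ∀ d, CBasisAt Z dg a d

/-- simple systems of generators: the square free monomials form a basis -/
def CSimple (Z : SS) {I : Type} (dg : I → ℕ) (z : I → CR Z) : Prop :=
  CBasis Z (fun D : Finset I => ∑ i ∈ D, dg i) (fun D => ∏ i ∈ D, z i)

/-- polynomial generators: the monomials form a basis -/
def CPoly (Z : SS) {I : Type} (dg : I → ℕ) (z : I → CR Z) : Prop :=
  CBasis Z (fun e : I →₀ ℕ => e.sum fun i k => k * dg i) (fun e => e.prod fun i k => z i ^ k)

variable {Z Z' : SS} {I I' : Type} {dg : I → ℕ} {a : I → CR Z} {dg' : I' → ℕ} {a' : I' → CR Z'}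

private theorem A4R4_supp {I : Type} {c : I →₀ ZMod 2} {s : Set I} :
    (∀ i, c i ≠ 0 → i ∈ s) ↔ c ∈ Finsupp.supported (ZMod 2) (ZMod 2) s := by
  rw [Finsupp.mem_supported]
  constructor
  · intro h i hi
    exact h i (Finsupp.mem_support_iff.1 hi)
  · intro h i hi
    exact h (Finsupp.mem_support_iff.2 hi)

private theorem A4R4_li {Z : SS} {I : Type} {dg : I → ℕ} {a : I → CR Z} {d : ℕ}
    (h : ∀ c : I →₀ ZMod 2, (∀ i, c i ≠ 0 → dg i = d) → (c.sum fun i r => r • a i d) = 0 → c = 0) :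
    LinearIndependent (ZMod 2) (fun i : {i | dg i = d} => (a i.1 d : Hc Z d)) := by
  have h1 : LinearIndepOn (ZMod 2) (fun i : I => (a i d : Hc Z d)) {i | dg i = d} := by
    rw [linearIndepOn_iff]
    intro c hc h0
    rw [Finsupp.linearCombination_apply] at h0
    exact h c (A4R4_supp.2 hc) h0
  exact h1

private theorem A4R4_sp {Z : SS} {I : Type} {dg : I → ℕ} {a : I → CR Z} {d : ℕ}
    (h : ∀ y : Hc Z d, ∃ c : I →₀ ZMod 2, (∀ i, c i ≠ 0 → dg i = d) ∧
      (c.sum fun i r => r • a i d) = y) :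
    ⊤ ≤ Submodule.span (ZMod 2) (Set.range (fun i : {i | dg i = d} => (a i.1 d : Hc Z d))) := by
  intro y _
  obtain ⟨c, hc, hy⟩ := h y
  have h1 : y ∈ Submodule.span (ZMod 2) ((fun i : I => (a i d : Hc Z d)) '' {i | dg i = d}) := by
    rw [Finsupp.mem_span_image_iff_linearCombination]
    refine ⟨c, A4R4_supp.1 hc, ?_⟩
    rw [Finsupp.linearCombination_apply]
    exact hy
  rwa [Set.image_eq_range] at h1

private noncomputable def A4R4_b {d : ℕ} (h : CBasisAt Z dg a d) :
    Module.Basis {i | dg i = d} (ZMod 2) (Hc Z d) :=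
  Module.Basis.mk (A4R4_li h.1) (A4R4_sp h.2)

private theorem A4R4_b_apply {d : ℕ} (h : CBasisAt Z dg a d) (i : {i | dg i = d}) :
    A4R4_b h i = a i.1 d := by
  unfold A4R4_b
  rw [Module.Basis.mk_apply]

theorem CBasis.finite_Hc (h : CBasis Z dg a) (d : ℕ) : Module.Finite (ZMod 2) (Hc Z d) := by
  have : Finite {i | dg i = d} := (h.fin d).to_subtype
  exact Module.Finite.of_basis (A4R4_b (h.bas d))

theorem CBasis.finite_H (h : CBasis Z dg a) (d : ℕ) : Module.Finite (ZMod 2) ((lin Z).H d) :=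
  (Module.finite_dual_iff (ZMod 2)).1 (h.finite_Hc d)

theorem CBasis.finrank (h : CBasis Z dg a) (d : ℕ) :
    Module.finrank (ZMod 2) (Hc Z d) = (h.fin d).toFinset.card := by
  have : Fintype {i | dg i = d} := (h.fin d).fintype
  rw [Module.finrank_eq_card_basis (A4R4_b (h.bas d)), Set.Finite.card_toFinset]

theorem CBasis.of_le (hom : ∀ i, CR.IsHom (dg i) (a i)) (fin : ∀ d, {i | dg i = d}.Finite)
    (li : ∀ (d : ℕ) (c : I →₀ ZMod 2), (∀ i, c i ≠ 0 → dg i = d) →
      (c.sum fun i r => r • a i d) = 0 → c = 0)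
    (hfin : ∀ d, Module.Finite (ZMod 2) (Hc Z d))
    (hle : ∀ d, Module.finrank (ZMod 2) (Hc Z d) ≤ (fin d).toFinset.card) : CBasis Z dg a := by
  refine ⟨hom, fin, fun d => ⟨li d, ?_⟩⟩
  have : Fintype {i | dg i = d} := (fin d).fintype
  have : Module.Finite (ZMod 2) (Hc Z d) := hfin d
  have h1 := A4R4_li (li d)
  have h2 : Fintype.card {i | dg i = d} = Module.finrank (ZMod 2) (Hc Z d) := by
    refine le_antisymm h1.fintype_card_le_finrank ?_
    refine (hle d).trans (le_of_eq ?_)
    rw [Set.Finite.card_toFinset]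
  have h3 := h1.span_eq_top_of_card_eq_finrank' h2
  intro y
  have h4 : y ∈ Submodule.span (ZMod 2) ((fun i : I => (a i d : Hc Z d)) '' {i | dg i = d}) := by
    rw [Set.image_eq_range, h3]
    trivial
  rw [Finsupp.mem_span_image_iff_linearCombination] at h4
  obtain ⟨c, hc, hy⟩ := h4
  rw [Finsupp.linearCombination_apply] at hy
  exact ⟨c, A4R4_supp.2 hc, hy⟩

theorem CBasisAt.of_iso (f : Hom Z Z') (d : ℕ)
    (hf : Function.Bijective (SV.Hmap (linMap f) d)) (h : CBasisAt Z' dg' a' d) :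
    CBasisAt Z dg' (fun i => CR.map f (a' i)) d := by
  have hb : Function.Bijective (Hc.map f d) := by
    have h1 := (LinearEquiv.ofBijective (SV.Hmap (linMap f) d) hf).dualMap.bijective
    exact h1
  have hs : ∀ c : I' →₀ ZMod 2, (c.sum fun i r => r • (CR.map f (a' i)) d) =
      Hc.map f d (c.sum fun i r => r • a' i d) := by
    intro c
    rw [map_finsuppSum]
    refine Finset.sum_congr rfl fun i _ => ?_
    show c i • (CR.map f (a' i)) d = Hc.map f d (c i • a' i d)
    rw [map_smul]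
    rfl
  refine ⟨fun c hc h0 => ?_, fun y => ?_⟩
  · rw [hs] at h0
    refine h.1 c hc (hb.1 ?_)
    rw [h0, map_zero]
  · obtain ⟨y', rfl⟩ := hb.2 y
    obtain ⟨c, hc, hy⟩ := h.2 y'
    exact ⟨c, hc, by rw [hs, hy]⟩

theorem CBasis.of_iso (f : Hom Z Z') (hf : ∀ d, Function.Bijective (SV.Hmap (linMap f) d))
    (h : CBasis Z' dg' a') : CBasis Z dg' (fun i => CR.map f (a' i)) :=
  ⟨fun i => (h.hom i).map f, h.fin, fun d => (h.bas d).of_iso f d (hf d)⟩

theorem CBasis.reindex (h : CBasis Z dg a) (e : I' ≃ I) :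
    CBasis Z (fun i => dg (e i)) (fun i => a (e i)) := by
  classical
  have key : ∀ (J J' : Type) (g : J ≃ J') (c : J →₀ ZMod 2) (d : ℕ) (b : J' → CR Z),
      ((Finsupp.mapDomain g c).sum fun i r => r • b i d) = c.sum fun i r => r • b (g i) d := by
    intro J J' g c d b
    rw [Finsupp.sum_mapDomain_index]
    · intro i
      exact zero_smul _ _
    · intro i r r'
      exact add_smul _ _ _
  refine ⟨fun i => h.hom (e i), fun d => ?_, fun d => ⟨fun c hc h0 => ?_, fun y => ?_⟩⟩
  · exact (h.fin d).preimage e.injective.injOn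
  · have h1 := (h.bas d).1 (Finsupp.mapDomain e c) (by
      intro i hi
      have h2 := hc (e.symm i)
      have h3 : (Finsupp.mapDomain e c) i = c (e.symm i) := by
        conv_lhs => rw [← e.apply_symm_apply i]
        exact Finsupp.mapDomain_apply e.injective c (e.symm i)
      rw [h3] at hi
      have h4 : dg (e (e.symm i)) = d := h2 hi
      rwa [e.apply_symm_apply] at h4) (by
      rw [key]
      exact h0)
    refine Finsupp.mapDomain_injective e.injective ?_
    rw [h1, Finsupp.mapDomain_zero]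
  · obtain ⟨c, hc, hy⟩ := (h.bas d).2 y
    refine ⟨Finsupp.mapDomain e.symm c, ?_, ?_⟩
    · intro i hi
      have h3 : (Finsupp.mapDomain e.symm c) i = c (e i) := by
        conv_lhs => rw [← e.symm_apply_apply i]
        exact Finsupp.mapDomain_apply e.symm.injective c (e i)
      rw [h3] at hi
      exact hc (e i) hi
    · rw [key I I' e.symm c d (fun i => a (e i))]
      simp only [Equiv.apply_symm_apply]
      exact hy

theorem CBasis.congr (h : CBasis Z dg a) {dg2 : I → ℕ} {a2 : I → CR Z} (hd : ∀ i, dg2 i = dg i)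
    (ha : ∀ i, a2 i = a i) : CBasis Z dg2 a2 := by
  obtain rfl : dg2 = dg := funext hd
  obtain rfl : a2 = a := funext ha
  exact h

private theorem A4R4_ext (h : CBasis Z dg a) {d : ℕ} {x x' : (lin Z).H d}
    (hx : ∀ i, dg i = d → a i d x = a i d x') : x = x' := by
  rw [← sub_eq_zero]
  refine (Module.forall_dual_apply_eq_zero_iff (ZMod 2) (x - x')).1 fun φ => ?_
  obtain ⟨c, hc, hy⟩ := (h.bas d).2 φ
  rw [← hy, Finsupp.sum, LinearMap.sum_apply]
  refine Finset.sum_eq_zero fun i hi => ?_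
  have h1 := hx i (hc i (Finsupp.mem_support_iff.1 hi))
  rw [LinearMap.smul_apply, map_sub]
  show c i • ((a i d) x - (a i d) x') = 0
  rw [h1, sub_self, smul_zero]

/-- the dual basis in homology -/
theorem CBasis.dual (h : CBasis Z dg a) : ∃ y : I → ∀ d, (lin Z).H d,
    (∀ i d, dg i ≠ d → y i d = 0) ∧
    (∀ i j d, dg j = d → a j d (y i d) = open Classical in if i = j then 1 else 0) ∧
    ∀ d (x : (lin Z).H d), x = ∑ i ∈ (h.fin d).toFinset, (a i d x) • y i d := by
  classical
  have h0 : ∀ d, ∃ y : {i | dg i = d} → (lin Z).H d, ∀ i j : {i | dg i = d},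
      a j.1 d (y i) = if i = j then 1 else 0 := by
    intro d
    have : Finite {i | dg i = d} := (h.fin d).to_subtype
    have : Module.Finite (ZMod 2) ((lin Z).H d) := h.finite_H d
    refine ⟨fun i => (Module.evalEquiv (ZMod 2) ((lin Z).H d)).symm
      ((A4R4_b (h.bas d)).dualBasis i), fun i j => ?_⟩
    have h1 : ∀ (ψ : Module.Dual (ZMod 2) (Module.Dual (ZMod 2) ((lin Z).H d)))
        (φ : Module.Dual (ZMod 2) ((lin Z).H d)),
        φ ((Module.evalEquiv (ZMod 2) ((lin Z).H d)).symm ψ) = ψ φ := by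
      intro ψ φ
      have h2 := (Module.evalEquiv (ZMod 2) ((lin Z).H d)).apply_symm_apply ψ
      exact LinearMap.congr_fun h2 φ
    have h3 := h1 ((A4R4_b (h.bas d)).dualBasis i) (a j.1 d)
    refine h3.trans ?_
    rw [← A4R4_b_apply (h.bas d) j, Module.Basis.dualBasis_apply_self]
    simp only [eq_comm]
  choose y hy using h0
  set Y : I → ∀ d, (lin Z).H d := fun i d => if hi : dg i = d then y d ⟨i, hi⟩ else 0 with hY
  have hY1 : ∀ i d, dg i ≠ d → Y i d = 0 := by
    intro i d hi
    rw [hY]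
    simp only [dif_neg hi]
  have hY2 : ∀ i j d, dg j = d → a j d (Y i d) = if i = j then 1 else 0 := by
    intro i j d hj
    by_cases hi : dg i = d
    · have h1 : Y i d = y d ⟨i, hi⟩ := by
        rw [hY]
        simp only [dif_pos hi]
      rw [h1]
      have h2 := hy d ⟨i, hi⟩ ⟨j, hj⟩
      refine h2.trans ?_
      simp only [Subtype.mk.injEq]
    · rw [hY1 i d hi]
      have h1 : i ≠ j := fun hij => hi (hij ▸ hj)
      rw [if_neg h1]
      exact map_zero (a j d)
  refine ⟨Y, hY1, fun i j d hj => ?_, fun d x => ?_⟩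
  · have h1 := hY2 i j d hj
    convert h1
  · refine A4R4_ext h fun j hj => ?_
    have h1 : a j d (∑ i ∈ (h.fin d).toFinset, (a i d x) • Y i d) =
        ∑ i ∈ (h.fin d).toFinset, (a i d x) • (a j d (Y i d)) := by
      rw [show (a j d) (∑ i ∈ (h.fin d).toFinset, (a i d x) • Y i d) =
        ∑ i ∈ (h.fin d).toFinset, (a j d) ((a i d x) • Y i d) from map_sum (a j d) _ _]
      exact Finset.sum_congr rfl fun i _ => map_smul (a j d) _ _
    rw [h1, Finset.sum_eq_single j]
    · rw [hY2 j j d hj, if_pos rfl, smul_eq_mul, mul_one]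
    · intro i _ hij
      rw [hY2 i j d hj, if_neg hij, smul_zero]
    · intro hj'
      exact absurd ((h.fin d).mem_toFinset.2 (show j ∈ {i | dg i = d} from hj)) hj'

/-- homogeneous elements of a ring with a basis are detected by it: two classes in homology with the
same values on the basis are equal -/
theorem CBasis.ext_H (h : CBasis Z dg a) {d : ℕ} {x x' : (lin Z).H d}
    (hx : ∀ i, dg i = d → a i d x = a i d x') : x = x' :=
  A4R4_ext h hx

end MM

end

/-! ### from `Lib_MP_33f7bb_d.A4R5` -/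

section

/-!
# A4-05: Kuenneth for bases of the cohomology ring

`CBasis.prod`: by `cup_fst_snd` the element `fst^* (a i) * snd^* (b j)` is the functional
`boxF n (a i) (b j)` on `H_n (lin Z ⊗ lin Z')` (iso `Hmap_linProd_bijective`).
Spanning: `boxF_span` (finite dimensionality: `CBasis.finite_H`) and bilinearity of `boxF`.
Independence: let `y_i`, `y'_j` be the dual bases in homology (`CBasis.dual`), of degrees `dg i`, `dg' j`; the class of the cross
product of representing cycles, `crsH n (y_i) (y'_j)`, pairs with `boxF n (a k) (b l)` to `δ_(ik) δ_(jl)` (`boxF_crs`,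
`boxF_crs_ne`), so a vanishing combination has vanishing coefficients.
`CSimple.prod`, `CPoly.prod`: reindex by `Finset (I ⊕ I') ≃ Finset I × Finset I'` (`Finset.disjSum`, `Finset.toLeft`, `toRight`),
resp. `(I ⊕ I' →₀ ℕ) ≃ (I →₀ ℕ) × (I' →₀ ℕ)` (`Finsupp.sumFinsuppEquivProdFinsupp`), and multiplicativity of `CR.map`.
-/

open scoped TensorProduct

namespace MM

variable {Z Z' : SS} {I I' : Type} {dg : I → ℕ} {a : I → CR Z} {dg' : I' → ℕ} {a' : I' → CR Z'}

/-- the value of `boxF` on products of homology classes -/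
private theorem A4R5_box {P Q : SV} {p q n : ℕ} (h : p + q = n) (a : Module.Dual (ZMod 2) (P.H p))
    (b : Module.Dual (ZMod 2) (Q.H q)) (x : P.H p) (y : Q.H q) :
    boxF n a b (crsH n x y) = a x * b y := by
  obtain ⟨x, hx, rfl⟩ := A3Box_exists_cls x
  obtain ⟨y, hy, rfl⟩ := A3Box_exists_cls y
  rw [crsH_cls, boxF_crs h]

private theorem A4R5_box_ne {P Q : SV} {p q n p' q' : ℕ} (a : Module.Dual (ZMod 2) (P.H p))
    (b : Module.Dual (ZMod 2) (Q.H q)) (hp : p' ≠ p) (x : P.H p') (y : Q.H q') :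
    boxF n a b (crsH n x y) = 0 := by
  obtain ⟨x, hx, rfl⟩ := A3Box_exists_cls x
  obtain ⟨y, hy, rfl⟩ := A3Box_exists_cls y
  rw [crsH_cls]
  exact boxF_crs_ne a b hp x hx y hy

/-- span form of the second part of `CBasisAt` -/
private theorem A4R5_span {d : ℕ} (h : CBasisAt Z dg a d) (y : Hc Z d) :
    y ∈ Submodule.span (ZMod 2) ((fun i => a i d) '' {i | dg i = d}) := by
  obtain ⟨c, hc, rfl⟩ := h.2 y
  rw [Finsupp.mem_span_image_iff_linearCombination]
  exact ⟨c, fun i hi => hc i (Finsupp.mem_support_iff.1 hi), rfl⟩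

/-- a component of a product of homogeneous elements -/
private theorem A4R5_mul {p q d : ℕ} (hd : p + q = d) {b : CR Z} (b' : CR Z')
    (hb : CR.IsHom p b) :
    (CR.map (Hom.fst Z Z') b * CR.map (Hom.snd Z Z') b') d =
      (boxF d (b p) (b' q)).comp (SV.Hmap (linProd Z Z') d) := by
  rw [CR.mul_apply, Finset.sum_eq_single p]
  · obtain rfl : q = d - p := by omega
    rw [CR.map_apply, CR.map_apply, cup_fst_snd]
  · intro k _ hk
    rw [CR.map_apply, hb k hk, map_zero, cup_zero_left]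
  · intro h
    exact absurd (Finset.mem_range.2 (by omega)) h

private theorem A4R5_fin (h : ∀ d, {i | dg i = d}.Finite) (d : ℕ) : {i | dg i ≤ d}.Finite := by
  refine Set.Finite.subset (Set.Finite.biUnion (Finset.finite_toSet (Finset.range (d + 1)))
    (fun k _ => h k)) ?_
  intro i hi
  rw [Set.mem_iUnion₂]
  exact ⟨dg i, by simpa [Nat.lt_succ_iff] using hi, rfl⟩

/-- independence of the products -/
private theorem A4R5_li (h : CBasis Z dg a) (h' : CBasis Z' dg' a') (d : ℕ)
    (c : I × I' →₀ ZMod 2) (hc : ∀ x, c x ≠ 0 → dg x.1 + dg' x.2 = d)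
    (hs : (c.sum fun x r => r • (CR.map (Hom.fst Z Z') (a x.1) *
      CR.map (Hom.snd Z Z') (a' x.2)) d) = 0) : c = 0 := by
  classical
  obtain ⟨y, -, hy, -⟩ := h.dual
  obtain ⟨y', -, hy', -⟩ := h'.dual
  ext x0
  by_contra hx0
  have hx0' : c x0 ≠ 0 := hx0
  have hd0 := hc x0 hx0'
  obtain ⟨w, hw⟩ := (Hmap_linProd_bijective Z Z' d).2 (crsH d (y x0.1 (dg x0.1)) (y' x0.2 (dg' x0.2)))
  have h1 := LinearMap.congr_fun hs w
  rw [Finsupp.sum, LinearMap.sum_apply, LinearMap.zero_apply, Finset.sum_eq_single x0] at h1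
  · rw [LinearMap.smul_apply, A4R5_mul hd0 _ (h.hom x0.1), LinearMap.comp_apply, hw,
      A4R5_box hd0, hy x0.1 x0.1 _ rfl, hy' x0.2 x0.2 _ rfl, if_pos rfl, if_pos rfl, mul_one,
      smul_eq_mul, mul_one] at h1
    exact hx0' h1
  · intro x hx hne
    have hdx := hc x (Finsupp.mem_support_iff.1 hx)
    rw [LinearMap.smul_apply]
    by_cases h2 : dg x.1 = dg x0.1
    · have h3 : dg' x.2 = dg' x0.2 := by omega
      have h4 : CR.IsHom (dg x0.1) (a x.1) := h2 ▸ h.hom x.1
      rw [A4R5_mul hd0 _ h4, LinearMap.comp_apply, hw, A4R5_box hd0,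
        hy x0.1 x.1 _ h2, hy' x0.2 x.2 _ h3]
      by_cases h5 : x0.1 = x.1
      · by_cases h6 : x0.2 = x.2
        · exact absurd (Prod.ext h5 h6).symm hne
        · rw [if_neg h6, mul_zero, smul_zero]
      · rw [if_neg h5, zero_mul, smul_zero]
    · rw [A4R5_mul hdx _ (h.hom x.1), LinearMap.comp_apply, hw,
        A4R5_box_ne _ _ (fun h7 => h2 h7.symm), smul_zero]
  · intro h2
    rw [Finsupp.notMem_support_iff.1 h2, zero_smul, LinearMap.zero_apply]

/-- the products of two classes -/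
private theorem A4R5_gen (h : CBasis Z dg a) (h' : CBasis Z' dg' a') {p q d : ℕ} (hd : p + q = d)
    (α : Hc Z p) (β : Hc Z' q) :
    (boxF d α β).comp (SV.Hmap (linProd Z Z') d) ∈ Submodule.span (ZMod 2)
      ((fun x : I × I' => (CR.map (Hom.fst Z Z') (a x.1) * CR.map (Hom.snd Z Z') (a' x.2)) d) ''
        {x | dg x.1 + dg' x.2 = d}) := by
  have h01 : ∀ r : ZMod 2, r = 0 ∨ r = 1 := by decide
  have hzl : ∀ β : Hc Z' q, boxF (P := lin Z) d (0 : Hc Z p) β = 0 := by
    intro β
    have h1 := boxF_add_left (n := d) (0 : Hc Z p) 0 β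
    rw [add_zero] at h1
    exact left_eq_add.1 h1
  have hzr : ∀ α : Hc Z p, boxF (Q := lin Z') d α (0 : Hc Z' q) = 0 := by
    intro α
    have h1 := boxF_add_right (n := d) α (0 : Hc Z' q) 0
    rw [add_zero] at h1
    exact left_eq_add.1 h1
  have hα := A4R5_span (h.bas p) α
  have hβ := A4R5_span (h'.bas q) β
  induction hα using Submodule.span_induction with
  | mem α hα =>
    obtain ⟨i, hi, rfl⟩ := hα
    induction hβ using Submodule.span_induction with
    | mem β hβ =>
      obtain ⟨j, hj, rfl⟩ := hβ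
      have hi' : dg i = p := hi
      have hj' : dg' j = q := hj
      apply Submodule.subset_span
      refine ⟨(i, j), ?_, ?_⟩
      · show dg i + dg' j = d
        rw [hi', hj', hd]
      · have h4 : CR.IsHom p (a i) := hi' ▸ h.hom i
        exact A4R5_mul hd (a' j) h4
    | zero =>
      rw [hzr, LinearMap.zero_comp]
      exact Submodule.zero_mem _
    | add β β' _ _ h1 h2 =>
      rw [boxF_add_right, LinearMap.add_comp]
      exact Submodule.add_mem _ h1 h2
    | smul r β _ h1 =>
      rcases h01 r with rfl | rfl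
      · rw [zero_smul, hzr, LinearMap.zero_comp]
        exact Submodule.zero_mem _
      · rw [one_smul]
        exact h1
  | zero =>
    rw [hzl, LinearMap.zero_comp]
    exact Submodule.zero_mem _
  | add α α' _ _ h1 h2 =>
    rw [boxF_add_left, LinearMap.add_comp]
    exact Submodule.add_mem _ h1 h2
  | smul r α _ h1 =>
    rcases h01 r with rfl | rfl
    · rw [zero_smul, hzl, LinearMap.zero_comp]
      exact Submodule.zero_mem _
    · rw [one_smul]
      exact h1

/-- the products span -/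
private theorem A4R5_sp (h : CBasis Z dg a) (h' : CBasis Z' dg' a') (d : ℕ)
    (F : Hc (Z.prod Z') d) : F ∈ Submodule.span (ZMod 2)
      ((fun x : I × I' => (CR.map (Hom.fst Z Z') (a x.1) * CR.map (Hom.snd Z Z') (a' x.2)) d) ''
        {x | dg x.1 + dg' x.2 = d}) := by
  let L : (lin (Z.prod Z')).H d ≃ₗ[ZMod 2] ((lin Z).tens (lin Z')).H d :=
    LinearEquiv.ofBijective (SV.Hmap (linProd Z Z') d) (Hmap_linProd_bijective Z Z' d)
  have hF : F = (F.comp L.symm.toLinearMap).comp (SV.Hmap (linProd Z Z') d) := by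
    apply LinearMap.ext
    intro w
    show F w = F (L.symm (L w))
    rw [LinearEquiv.symm_apply_apply]
  have h1 := boxF_span (P := lin Z) (Q := lin Z') (fun p => h.finite_H p) (fun q => h'.finite_H q)
    d (F.comp L.symm.toLinearMap)
  rw [hF]
  generalize F.comp L.symm.toLinearMap = F' at h1
  induction h1 using Submodule.span_induction with
  | mem G hG =>
    obtain ⟨p, q, hpq, α, β, rfl⟩ := hG
    exact A4R5_gen h h' hpq α β
  | zero =>
    rw [LinearMap.zero_comp]
    exact Submodule.zero_mem _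
  | add G G' _ _ h1 h2 =>
    rw [LinearMap.add_comp]
    exact Submodule.add_mem _ h1 h2
  | smul r G _ h1 =>
    rw [LinearMap.smul_comp]
    exact Submodule.smul_mem _ _ h1

theorem CBasis.prod (h : CBasis Z dg a) (h' : CBasis Z' dg' a') :
    CBasis (Z.prod Z') (fun x : I × I' => dg x.1 + dg' x.2)
      (fun x => CR.map (Hom.fst Z Z') (a x.1) * CR.map (Hom.snd Z Z') (a' x.2)) := by
  refine ⟨fun x => ((h.hom x.1).map _).mul ((h'.hom x.2).map _), fun d => ?_, fun d => ⟨?_, ?_⟩⟩
  · refine Set.Finite.subset ((A4R5_fin h.fin d).prod (A4R5_fin h'.fin d)) ?_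
    intro x hx
    have hx' : dg x.1 + dg' x.2 = d := hx
    exact ⟨show dg x.1 ≤ d by omega, show dg' x.2 ≤ d by omega⟩
  · intro c hc hs
    exact A4R5_li h h' d c hc hs
  · intro F
    have h1 := A4R5_sp h h' d F
    rw [Finsupp.mem_span_image_iff_linearCombination] at h1
    obtain ⟨c, hc, hc'⟩ := h1
    exact ⟨c, fun x hx => hc (Finsupp.mem_support_iff.2 hx), hc'⟩

theorem CSimple.prod (h : CSimple Z dg a) (h' : CSimple Z' dg' a') :
    CSimple (Z.prod Z') (Sum.elim dg dg')
      (Sum.elim (fun i => CR.map (Hom.fst Z Z') (a i)) (fun i => CR.map (Hom.snd Z Z') (a' i))) := by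
  refine ((CBasis.prod h h').reindex (Finset.sumEquiv (α := I) (β := I')).toEquiv).congr ?_ ?_
  · intro D
    show ∑ i ∈ D, Sum.elim dg dg' i = ∑ i ∈ D.toLeft, dg i + ∑ i ∈ D.toRight, dg' i
    exact Finset.sum_sum_eq_sum_toLeft_add_sum_toRight D _
  · intro D
    show _ = CR.map (Hom.fst Z Z') (∏ i ∈ D.toLeft, a i) *
      CR.map (Hom.snd Z Z') (∏ i ∈ D.toRight, a' i)
    rw [Finset.prod_sum_eq_prod_toLeft_mul_prod_toRight, map_prod, map_prod]
    rfl

theorem CPoly.prod (h : CPoly Z dg a) (h' : CPoly Z' dg' a') :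
    CPoly (Z.prod Z') (Sum.elim dg dg')
      (Sum.elim (fun i => CR.map (Hom.fst Z Z') (a i)) (fun i => CR.map (Hom.snd Z Z') (a' i))) := by
  refine ((CBasis.prod h h').reindex
    (Finsupp.sumFinsuppEquivProdFinsupp (α := I) (β := I') (γ := ℕ))).congr ?_ ?_
  · intro e
    obtain ⟨⟨u, v⟩, rfl⟩ := (Finsupp.sumFinsuppEquivProdFinsupp
      (α := I) (β := I') (γ := ℕ)).symm.surjective e
    rw [Equiv.apply_symm_apply]
    exact Finsupp.sum_sumElim u v _
  · intro e
    obtain ⟨⟨u, v⟩, rfl⟩ := (Finsupp.sumFinsuppEquivProdFinsupp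
      (α := I) (β := I') (γ := ℕ)).symm.surjective e
    rw [Equiv.apply_symm_apply]
    show (u.sumElim v).prod _ = _
    rw [Finsupp.prod_sumElim, Finsupp.prod, Finsupp.prod, Finsupp.prod, Finsupp.prod, map_prod,
      map_prod]
    congr 1
    · exact Finset.prod_congr rfl fun i _ => (map_pow _ _ _).symm
    · exact Finset.prod_congr rfl fun i _ => (map_pow _ _ _).symm

/-- the value of an external product on a cross product (unreduced) -/
theorem cup_ext_crs {p q n : ℕ} (hn : p + q = n) (b : Hc Z p) (c : Hc Z' q) (w : (lin (Z.prod Z')).H n)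
    (x : (lin Z).H p) (y : (lin Z').H q) (hw : SV.Hmap (linProd Z Z') n w = crsH n x y) :
    cup n (Hc.map (Hom.fst Z Z') p b) (Hc.map (Hom.snd Z Z') q c) w = b x * c y := by
  rw [cup_fst_snd, LinearMap.comp_apply, hw, A4R5_box hn]

end MM

end
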