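import Mathlib

/-!
# MP_33f7bb_an, negative answer to Q1: merged library part G14

Concatenation of files of `Lib_MP_33f7bb_an` and `Lib_MP_33f7bb_d` (each in its own section), only to save build time.
-/

/-! ### from `Lib_MP_33f7bb_d.A4C1` -/

section

/-!
# A4-21: the combinatorial bar complex of an exterior algebra (definitions and basic properties)

Lists of nonempty finite sets; the differential merges neighbouring disjoint sets:
`dlc (D :: E :: L) = [D ∩ E = ∅] ((D ∪ E) :: L) + D :: dlc (E :: L)`.
`ty L` = the multiset union (sum) of the sets in `L` is preserved, the length drops by one.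

`dlL_dlL`: induction on the list: for `D :: L`: `d (D :: x) = D :: d x + mg D x` for every chain `x` of nonempty
lists (`mg D` = merge `D` into the head).  So `d d (D :: L) = D :: d d L + mg D (d L) + d (mg D L)`, and for `L = E :: L'`:
`mg D (E :: d L' + mg E L') + d ([D ∩ E = ∅] (D ∪ E) :: L')`; both sides are
`[D ∩ E = ∅] (D ∪ E) :: d L' + [D, E, F disjoint] (D ∪ E ∪ F) :: L''` (`L' = F :: L''`), where
`mg D (mg E L') = [E ∩ F = ∅, D ∩ (E ∪ F) = ∅]`, `mg (D ∪ E) L' = [(D ∪ E) ∩ F = ∅]` and the prefactor `[D ∩ E = ∅]`.
`dl_append`: for lists `L` nonempty and `M` nonempty: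
`dlc (L ++ M) = (dlc L) ++ M + [last and head disjoint] ... + L ++ dlc M`; only the special case needed later is stated.
-/

namespace MM

/-- nonempty finite sets -/
abbrev NE (J : Type) := {D : Finset J // D.Nonempty}

variable {J : Type} [DecidableEq J]

/-- union of nonempty sets -/
def NE.un (D E : NE J) : NE J := ⟨D.1 ∪ E.1, D.2.mono Finset.subset_union_left⟩

/-- chains -/
abbrev LC (J : Type) := List (NE J) →₀ ZMod 2

/-- the differential on lists -/
noncomputable def dlc : List (NE J) → LC J
  | [] => 0
  | [_] => 0
  | D :: E :: L => (if Disjoint D.1 E.1 then Finsupp.single (D.un E :: L) 1 else 0) +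
      (dlc (E :: L)).mapDomain (D :: ·)

/-- the differential on chains -/
noncomputable def dlL : LC J →ₗ[ZMod 2] LC J := Finsupp.linearCombination (ZMod 2) dlc

/-- the type of a list: the multiset sum of its members -/
def ty (L : List (NE J)) : Multiset J := (L.map fun D => D.1.val).sum

/-- `x` is a chain of lists of length `k` and type `e` -/
def InC (e : Multiset J) (k : ℕ) (x : LC J) : Prop :=
  ∀ L, x L ≠ 0 → ty L = e ∧ L.length = k

/-- prefixing a set -/
noncomputable def pre (D : NE J) : LC J →ₗ[ZMod 2] LC J :=
  Finsupp.lmapDomain (ZMod 2) (ZMod 2) (D :: ·)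

/-- merging a set into the head -/
noncomputable def mg (D : NE J) : LC J →ₗ[ZMod 2] LC J :=
  Finsupp.linearCombination (ZMod 2) fun L : List (NE J) => match L with
    | [] => 0
    | E :: L => if Disjoint D.1 E.1 then Finsupp.single (D.un E :: L) 1 else 0

/-- appending a list -/
noncomputable def app (M : List (NE J)) : LC J →ₗ[ZMod 2] LC J :=
  Finsupp.lmapDomain (ZMod 2) (ZMod 2) (· ++ M)

@[simp] theorem pre_single (D : NE J) (L : List (NE J)) (r : ZMod 2) :
    pre D (Finsupp.single L r) = Finsupp.single (D :: L) r := by
  show Finsupp.mapDomain _ _ = _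
  rw [Finsupp.mapDomain_single]

@[simp] theorem app_single (M L : List (NE J)) (r : ZMod 2) :
    app M (Finsupp.single L r) = Finsupp.single (L ++ M) r := by
  show Finsupp.mapDomain _ _ = _
  rw [Finsupp.mapDomain_single]

@[simp] theorem mg_nil (D : NE J) (r : ZMod 2) : mg D (Finsupp.single [] r) = 0 := by
  rw [mg, Finsupp.linearCombination_single, smul_zero]

@[simp] theorem mg_cons (D E : NE J) (L : List (NE J)) :
    mg D (Finsupp.single (E :: L) 1) =
      if Disjoint D.1 E.1 then Finsupp.single (D.un E :: L) 1 else 0 := by
  rw [mg, Finsupp.linearCombination_single, one_smul]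

@[simp] theorem dlL_single (L : List (NE J)) : dlL (Finsupp.single L 1) = dlc L := by
  rw [dlL, Finsupp.linearCombination_single, one_smul]

private theorem A4C1_ext {M : Type*} [AddCommGroup M] [Module (ZMod 2) M]
    {f g : LC J →ₗ[ZMod 2] M}
    (h : ∀ L, f (Finsupp.single L 1) = g (Finsupp.single L 1)) : f = g := by
  refine Finsupp.lhom_ext fun L c => ?_
  have h1 : (Finsupp.single L c : LC J) = c • Finsupp.single L 1 := by
    rw [Finsupp.smul_single, smul_eq_mul, mul_one]
  rw [h1, map_smul, map_smul, h]

private theorem A4C1_two (x : LC J) : x + x = 0 := by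
  have : (2 : ZMod 2) • x = 0 := by
    have h : (2 : ZMod 2) = 0 := rfl
    rw [h, zero_smul]
  rwa [two_smul] at this

theorem A4C1_dl_cons (D E : NE J) (L : List (NE J)) :
    dlc (D :: E :: L) = mg D (Finsupp.single (E :: L) 1) + pre D (dlc (E :: L)) := by
  rw [mg_cons]
  rfl

/-- `d (D :: x) = D :: d x + mg D x` -/
theorem dlL_pre (D : NE J) (x : LC J) : dlL (pre D x) = pre D (dlL x) + mg D x := by
  have h : dlL.comp (pre D) = (pre D).comp dlL + mg D := by
    refine A4C1_ext fun L => ?_
    rw [LinearMap.comp_apply, LinearMap.add_apply, LinearMap.comp_apply, pre_single, dlL_single,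
      dlL_single]
    cases L with
    | nil =>
      rw [mg_nil, add_zero]
      exact (map_zero (pre D)).symm
    | cons E L => rw [A4C1_dl_cons, add_comm]
  exact LinearMap.congr_fun h x

private theorem A4C1_mg_pre (D E : NE J) (y : LC J) :
    mg D (pre E y) = if Disjoint D.1 E.1 then pre (D.un E) y else 0 := by
  have h : (mg D).comp (pre E) = if Disjoint D.1 E.1 then pre (D.un E) else 0 := by
    refine A4C1_ext fun L => ?_
    rw [LinearMap.comp_apply, pre_single, mg_cons]
    split_ifs
    · rw [pre_single]
    · rfl
  have h2 := LinearMap.congr_fun h y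
  rw [LinearMap.comp_apply] at h2
  rw [h2]
  split_ifs <;> rfl

private theorem A4C1_key (D E : NE J) (L : List (NE J)) :
    mg D (dlc (E :: L)) = dlL (mg D (Finsupp.single (E :: L) 1)) := by
  rw [mg_cons]
  cases L with
  | nil =>
    have h0 : dlc [E] = 0 := rfl
    rw [h0, map_zero]
    split_ifs
    · rw [dlL_single]; rfl
    · rw [map_zero]
  | cons F L =>
    rw [A4C1_dl_cons, map_add, mg_cons, A4C1_mg_pre]
    by_cases hDE : Disjoint D.1 E.1
    · rw [if_pos hDE, if_pos hDE, dlL_single, A4C1_dl_cons, mg_cons]
      congr 1
      by_cases hEF : Disjoint E.1 F.1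
      · rw [if_pos hEF, mg_cons]
        by_cases hDF : Disjoint D.1 F.1
        · have h1 : Disjoint D.1 (E.un F).1 := by
            show Disjoint D.1 (E.1 ∪ F.1)
            rw [Finset.disjoint_union_right]; exact ⟨hDE, hDF⟩
          have h2 : Disjoint (D.un E).1 F.1 := by
            show Disjoint (D.1 ∪ E.1) F.1
            rw [Finset.disjoint_union_left]; exact ⟨hDF, hEF⟩
          rw [if_pos h1, if_pos h2]
          have h3 : D.un (E.un F) = (D.un E).un F :=
            Subtype.ext (Finset.union_assoc D.1 E.1 F.1).symm
          rw [h3]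
        · have h1 : ¬ Disjoint D.1 (E.un F).1 := fun h => by
            have h' : Disjoint D.1 (E.1 ∪ F.1) := h
            rw [Finset.disjoint_union_right] at h'
            exact hDF h'.2
          have h2 : ¬ Disjoint (D.un E).1 F.1 := fun h => by
            have h' : Disjoint (D.1 ∪ E.1) F.1 := h
            rw [Finset.disjoint_union_left] at h'
            exact hDF h'.1
          rw [if_neg h1, if_neg h2]
      · have h2 : ¬ Disjoint (D.un E).1 F.1 := fun h => by
          have h' : Disjoint (D.1 ∪ E.1) F.1 := h
          rw [Finset.disjoint_union_left] at h'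
          exact hEF h'.2
        rw [if_neg hEF, if_neg h2, map_zero]
    · rw [if_neg hDE, if_neg hDE, map_zero, add_zero]
      split_ifs with hEF
      · have h1 : ¬ Disjoint D.1 (E.un F).1 := fun h => by
          have h' : Disjoint D.1 (E.1 ∪ F.1) := h
          rw [Finset.disjoint_union_right] at h'
          exact hDE h'.1
        rw [mg_cons, if_neg h1]
      · rw [map_zero]

private theorem A4C1_dd (L : List (NE J)) : dlL (dlc L) = 0 := by
  induction L with
  | nil => exact map_zero _
  | cons D L ih =>
    cases L with
    | nil => exact map_zero _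
    | cons E L =>
      rw [A4C1_dl_cons, map_add, dlL_pre, ih, map_zero, zero_add, A4C1_key]
      exact A4C1_two _

theorem dlL_dlL (x : LC J) : dlL (dlL x) = 0 := by
  have h : dlL.comp (dlL (J := J)) = 0 := by
    refine A4C1_ext fun L => ?_
    rw [LinearMap.comp_apply, dlL_single, A4C1_dd]
    rfl
  exact LinearMap.congr_fun h x

theorem ty_cons (D : NE J) (L : List (NE J)) : ty (D :: L) = D.1.val + ty L := by
  rw [ty, ty, List.map_cons, List.sum_cons]

theorem ty_append (L M : List (NE J)) : ty (L ++ M) = ty L + ty M := by
  rw [ty, ty, ty, List.map_append, List.sum_append]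

theorem length_le_ty (L : List (NE J)) : L.length ≤ Multiset.card (ty L) := by
  induction L with
  | nil => exact Nat.zero_le _
  | cons D L ih =>
    rw [ty_cons, Multiset.card_add, List.length_cons]
    have h : 1 ≤ Multiset.card D.1.val := Finset.card_pos.2 D.2
    omega

private theorem A4C1_terms {L M : List (NE J)} (h : dlc L M ≠ 0) :
    ∃ (A : List (NE J)) (D E : NE J) (B : List (NE J)), L = A ++ D :: E :: B ∧ Disjoint D.1 E.1 ∧
      M = A ++ D.un E :: B := by
  induction L generalizing M with
  | nil => exact absurd rfl h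
  | cons D L ih =>
    cases L with
    | nil => exact absurd rfl h
    | cons E L =>
      rw [A4C1_dl_cons, Finsupp.add_apply, mg_cons] at h
      by_cases h1 : (pre D (dlc (E :: L))) M = 0
      · rw [h1, add_zero] at h
        by_cases hd : Disjoint D.1 E.1
        · rw [if_pos hd] at h
          refine ⟨[], D, E, L, rfl, hd, ?_⟩
          by_contra hM
          exact h (Finsupp.single_eq_of_ne (by
            intro h2
            exact hM (by rw [List.nil_append]; first | exact h2 | exact h2.symm)))
        · rw [if_neg hd] at h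
          exact absurd rfl h
      · have hM : M ∈ Set.range ((D :: ·) : List (NE J) → List (NE J)) := by
          by_contra hM
          exact h1 (Finsupp.mapDomain_of_notMem_range _ M hM)
        obtain ⟨M', rfl⟩ := hM
        have h2 : (pre D (dlc (E :: L))) (D :: M') = dlc (E :: L) M' :=
          Finsupp.mapDomain_apply (List.cons_injective) _ _
        rw [h2] at h1
        obtain ⟨A, D', E', B, hL, hd, hM'⟩ := ih h1
        exact ⟨D :: A, D', E', B, by rw [hL]; rfl, hd, by rw [hM']; rfl⟩

/-- terms of the differential -/
theorem dl_terms {L M : List (NE J)} (h : dlc L M ≠ 0) : ty M = ty L ∧ M.length + 1 = L.length := by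
  obtain ⟨A, D, E, B, rfl, hd, rfl⟩ := A4C1_terms h
  constructor
  · rw [ty_append, ty_append, ty_cons, ty_cons, ty_cons, ← add_assoc D.1.val]
    congr 2
    show (D.1 ∪ E.1).val = _
    rw [← Finset.disjUnion_eq_union D.1 E.1 hd]
    rfl
  · simp only [List.length_append, List.length_cons]
    omega

theorem InC.dlL {e : Multiset J} {k : ℕ} {x : LC J} (hx : InC e (k + 1) x) :
    InC e k (dlL x) := by
  intro M hM
  have h1 : ∃ L ∈ x.support, (x L • dlc L) M ≠ 0 := by
    by_contra hcon
    push Not at hcon
    apply hM
    show (Finsupp.linearCombination (ZMod 2) dlc x) M = 0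
    rw [Finsupp.linearCombination_apply, Finsupp.sum, Finsupp.finsetSum_apply]
    exact Finset.sum_eq_zero hcon
  obtain ⟨L, hL, h2⟩ := h1
  rw [Finsupp.mem_support_iff] at hL
  obtain ⟨h3, h4⟩ := hx L hL
  have h5 : dlc L M ≠ 0 := fun h => h2 (by rw [Finsupp.smul_apply, h, smul_zero])
  obtain ⟨h6, h7⟩ := dl_terms h5
  exact ⟨h6.trans h3, by omega⟩

/-- in length `0` the differential vanishes -/
theorem InC.dlL_zero {e : Multiset J} {x : LC J} (hx : InC e 0 x) : MM.dlL x = 0 := by
  show Finsupp.linearCombination (ZMod 2) dlc x = 0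
  rw [Finsupp.linearCombination_apply, Finsupp.sum]
  refine Finset.sum_eq_zero fun L hL => ?_
  rw [Finsupp.mem_support_iff] at hL
  have h1 : L = [] := List.length_eq_zero_iff.1 (hx L hL).2
  rw [h1]
  exact smul_zero _

/-- the set `{i}` -/
def sgc (i : J) : NE J := ⟨{i}, Finset.singleton_nonempty i⟩

/-- terms of the differential, explicit form -/
theorem dl_terms_exists {L M : List (NE J)} (h : dlc L M ≠ 0) :
    ∃ (A : List (NE J)) (D E : NE J) (B : List (NE J)), L = A ++ D :: E :: B ∧ Disjoint D.1 E.1 ∧
      M = A ++ D.un E :: B := A4C1_terms h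

/-- a merged set is not a singleton `{i}` -/
private theorem A4C1_un_ne {i : J} {D E : NE J} (hd : Disjoint D.1 E.1) : D.un E ≠ sgc i := by
  intro h
  have h1 : D.1 ∪ E.1 = {i} := congrArg Subtype.val h
  have h2 : (D.1 ∪ E.1).card = D.1.card + E.1.card := Finset.card_union_of_disjoint hd
  rw [h1, Finset.card_singleton] at h2
  have h3 := Finset.card_pos.2 D.2
  have h4 := Finset.card_pos.2 E.2
  omega

/-- if `A ++ X :: B = P ++ {i}^m` and `X ≠ {i}` then `X` is in `P` -/
private theorem A4C1_split {i : J} {m : ℕ} {X : NE J} (hX : X ≠ sgc i) {A B P : List (NE J)}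
    (h : A ++ X :: B = P ++ List.replicate m (sgc i)) :
    ∃ B', B = B' ++ List.replicate m (sgc i) ∧ P = A ++ X :: B' := by
  rcases List.append_eq_append_iff.1 h with ⟨C, h1, h2⟩ | ⟨C, h1, h2⟩
  · cases C with
    | nil =>
      exfalso
      rw [List.nil_append] at h2
      cases m with
      | zero => exact absurd h2 (by simp)
      | succ m =>
        rw [List.replicate_succ] at h2
        exact hX (List.cons.inj h2).1
    | cons Y C =>
      rw [List.cons_append] at h2
      obtain ⟨h3, h4⟩ := List.cons.inj h2
      subst h3
      exact ⟨C, h4, h1⟩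
  · exfalso
    have h3 : X ∈ List.replicate m (sgc i) := by
      rw [h2]; simp
    exact hX (List.eq_of_mem_replicate h3)

/-- appending `{i}^m` and the differential, coefficients at lists ending with `{i}^m`: the merge of the last
set of `Q` with the first `{i}` does not contribute, as a merged set is not `{i}` -/
theorem dl_unmatched_a (i : J) (m : ℕ) (Q P : List (NE J)) (hQ : i ∉ ty Q) :
    dlc (Q ++ List.replicate m (sgc i)) (P ++ List.replicate m (sgc i)) = dlc Q P := by
  induction Q generalizing P with
  | nil =>
    rw [List.nil_append]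
    have h0 : dlc (J := J) [] P = 0 := rfl
    rw [h0]
    by_contra hne
    obtain ⟨A, D, E, B, hL, hd, -⟩ := A4C1_terms hne
    have h1 : D ∈ List.replicate m (sgc i) := by rw [hL]; simp
    have h2 : E ∈ List.replicate m (sgc i) := by rw [hL]; simp
    rw [List.eq_of_mem_replicate h1, List.eq_of_mem_replicate h2] at hd
    have h3 : Disjoint ({i} : Finset J) {i} := hd
    rw [Finset.disjoint_singleton] at h3
    exact h3 rfl
  | cons D Q ih =>
    have hQ' : i ∉ ty Q := fun h => hQ (by rw [ty_cons, Multiset.mem_add]; exact Or.inr h)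
    have hD : i ∉ D.1 := fun h => hQ (by rw [ty_cons, Multiset.mem_add]; exact Or.inl h)
    cases Q with
    | nil =>
      have h0 : dlc [D] P = 0 := rfl
      rw [h0]
      by_contra hne
      obtain ⟨A, D', E, B, hL, hd, hM⟩ := A4C1_terms hne
      obtain ⟨B', hB, hP⟩ := A4C1_split (A4C1_un_ne hd) hM.symm
      have h1 := congrArg List.length hL
      rw [hB] at h1
      simp only [List.length_append, List.length_cons, List.length_nil] at h1
      omega
    | cons E Q =>
      rw [List.cons_append, List.cons_append, A4C1_dl_cons, A4C1_dl_cons, mg_cons, mg_cons,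
        Finsupp.add_apply, Finsupp.add_apply]
      congr 1
      · by_cases hd : Disjoint D.1 E.1
        · rw [if_pos hd, if_pos hd]
          have h1 : D.un E :: (Q ++ List.replicate m (sgc i)) =
              (D.un E :: Q) ++ List.replicate m (sgc i) := rfl
          rw [h1, Finsupp.single_apply, Finsupp.single_apply]
          simp only [List.append_cancel_right_eq]
        · rw [if_neg hd, if_neg hd]
          rfl
      · have key : ∀ x : LC J, ∀ R : List (NE J), (pre D x) R =
            match R with
            | [] => 0
            | F :: R' => if F = D then x R' else 0 := by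
          intro x R
          by_cases hR : R ∈ Set.range ((D :: ·) : List (NE J) → List (NE J))
          · obtain ⟨R', rfl⟩ := hR
            have h2 : (pre D x) (D :: R') = x R' :=
              Finsupp.mapDomain_apply (List.cons_injective) _ _
            rw [h2]
            exact (if_pos rfl).symm
          · have h2 : (pre D x) R = 0 := Finsupp.mapDomain_of_notMem_range _ R hR
            rw [h2]
            cases R with
            | nil => rfl
            | cons F R' =>
              have hF : F ≠ D := fun hF => hR ⟨R', by rw [hF]⟩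
              exact (if_neg hF).symm
        cases P with
        | nil =>
          rw [key (dlc (E :: Q)) []]
          rw [List.nil_append]
          cases m with
          | zero =>
            rw [List.replicate_zero, key]
          | succ m =>
            rw [List.replicate_succ, key]
            have hDi : sgc i ≠ D := fun h => hD (by rw [← h]; exact Finset.mem_singleton_self i)
            exact if_neg hDi
        | cons F P =>
          rw [List.cons_append, key, key]
          have h3 := ih P hQ'
          rw [List.cons_append] at h3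
          simp only [h3]

/-- a term of `dlc L` which ends with `{i}^m` (where `m` = multiplicity of `i` in the type) comes from an `L` ending with
`{i}^m`: the merged set has at least two elements, so it is not among the last `m` sets -/
theorem dl_unmatched_b (i : J) (m : ℕ) (L P : List (NE J)) (hL : (ty L).count i = m)
    (h : ¬ ∃ Q, L = Q ++ List.replicate m (sgc i)) : dlc L (P ++ List.replicate m (sgc i)) = 0 := by
  have _ := hL
  by_contra hne
  obtain ⟨A, D, E, B, rfl, hd, hM⟩ := A4C1_terms hne
  obtain ⟨B', hB, -⟩ := A4C1_split (A4C1_un_ne hd) hM.symm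
  exact h ⟨A ++ D :: E :: B', by rw [hB]; simp⟩

end MM

end

/-! ### from `Lib_MP_33f7bb_d.A4C2` -/

section

/-!
# A4-22: a contracting homotopy for the combinatorial bar complex

Fix `i`.  `hh i L`: go to the first run `{i}, …, {i}` (after a prefix of sets without `i`); if the next set `E` contains `i` (and is
not `{i}`), split it: `E ↦ {i}, E∖i`; otherwise the value is `0`.  `er i D = D∖i`.
Write `h`, `d` for the linear extensions and `K L = d (h L) + h (d L) + L`.  Claims, for a list `L` whose type contains `i`
exactly `m ≥ 1` times and which does not end with `{i}^m` (`matched`):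
every term `M` of `K L` has `mu i m M < mu i m L`, where `mu i m L = pr i L * (m + 1) + (m - rn' i L)`, `pr` = length of the prefix
without `i`, `rn'` = length of the run of `{i}` after the prefix (`rn' ≤ m`).

Proof by induction on the list.  (`d (D :: x) = D :: d x + mg D x` is `dlL_pre`.)
1. `i ∉ D`: `h (D :: L) = D :: h L`, so `K (D :: L) = D :: d h L + mg D (h L) + D :: h d L + h (mg D L) + D :: L
   = D :: K L + mg D (h L) + h (mg D L)`.  The terms of `D :: K L` are smaller by induction (`L` is matched iff `D :: L` is;
   `pr` increases by one for both).  The prefix length of a term of `mg D (h L)` or `h (mg D L)` is `pr i L < pr i (D :: L)`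
   (merging a set without `i` into the head does not change whether the head contains `i`, `h` does not change the prefix).
2. `D = {i}` and the head of `L` contains `i`: `mg {i} L = 0`, `mg {i} (h L) = 0` (the head of `h L` contains `i`), all terms of
   `d L` have a head containing `i` (or are...: `L = E :: L'`, `d L = E :: d L' + mg E L'`), so
   `K ({i} :: L) = {i} :: K L`, and `L` is matched for `m - 1`: terms have a longer run by induction
   (use the statement: `pr M = 0` and `rn' M > rn' L` for terms `M` of `K L` when the head of `L` contains `i`).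
3. `D = {i}`, `L = E :: L'`, `i ∉ E`: `h ({i} :: L) = 0`; `d ({i} :: L) = {i} :: d L + ({i} ∪ E) :: L'`;
   `h (({i} ∪ E) :: L') = {i} :: E :: L' = {i} :: L`; `h ({i} :: (E :: d L')) = 0`; `h ({i} :: mg E L')` is `0` unless
   `L' = F :: L''`, `i ∈ F`, `E ∩ F = ∅`, and then it is `{i} :: {i} :: ((E ∪ F)∖i) :: L''`: run `2 > 1`.
4. `D = {i}`, `L = []`: not matched (here `m = 1`).
5. `i ∈ D ≠ {i}`, `D' = D∖i`: `h (D :: L) = {i} :: D' :: L`, `d (h (D :: L)) = D :: L + {i} :: (D' :: d L + mg D' L)`,
   `h (d (D :: L)) = h (D :: d L + mg D L) = {i} :: D' :: d L + ({i} :: (D' ∪ F) :: L'' if L = F :: L'', D ∩ F = ∅)`.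
   So `K (D :: L) = {i} :: (D' ∪ F) :: L''` if `i ∈ F`, `D' ∩ F = ∅`, else `0`: run `1 > 0`.
Every term of `K L` is again matched, of the same type and length (`h` raises the length by one, `d` lowers it; `d` and
`h` map matched lists to matched lists: `dl_unmatched_b`; for `h`: a term of `h L` ending with `{i}^m`: then `L` ends with `{i}^m`
or the split set `{i}, E∖i` with `i ∉ E∖i` would be followed by ..., impossible as `{i}` precedes a set without `i`).

`matched_acyclic`: strong induction on a bound for `mu` on the support: if `d x = 0` then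
`x + d (h x) = ∑ x_L K L` (as `h (d x) = 0`) has smaller `mu`, is a matched cycle, so it is `d y`, `x = d (y + h x)`.
-/

namespace MM

variable {J : Type} [DecidableEq J]

/-- remove `i` (if something remains) -/
def er (i : J) (D : NE J) : NE J :=
  if h : (D.1.erase i).Nonempty then ⟨D.1.erase i, h⟩ else D

/-- the head contains `i` -/
def hdi (i : J) : List (NE J) → Prop
  | [] => False
  | E :: _ => i ∈ E.1

instance (i : J) (L : List (NE J)) : Decidable (hdi i L) := by
  cases L with
  | nil => exact isFalse id
  | cons E L => exact inferInstanceAs (Decidable (i ∈ E.1))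

/-- the homotopy -/
noncomputable def hh (i : J) : List (NE J) → LC J
  | [] => 0
  | D :: L => if i ∉ D.1 then pre D (hh i L)
      else if D.1 = {i} then (if hdi i L then pre D (hh i L) else 0)
      else Finsupp.single (sgc i :: er i D :: L) 1

/-- linear extension -/
noncomputable def hhL (i : J) : LC J →ₗ[ZMod 2] LC J := Finsupp.linearCombination (ZMod 2) (hh i)

/-- length of the prefix without `i` -/
def pr (i : J) : List (NE J) → ℕ
  | [] => 0
  | D :: L => if i ∈ D.1 then 0 else pr i L + 1

/-- number of leading sets `{i}` -/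
def rn (i : J) : List (NE J) → ℕ
  | [] => 0
  | D :: L => if D.1 = {i} then rn i L + 1 else 0

/-- length of the run of `{i}` after the prefix -/
def rn' (i : J) : List (NE J) → ℕ
  | [] => 0
  | D :: L => if i ∈ D.1 then rn i (D :: L) else rn' i L

/-- the measure -/
def mu (i : J) (m : ℕ) (L : List (NE J)) : ℕ := pr i L * (m + 1) + (m - rn' i L)

/-- `L` does not end with `{i}^m` -/
def Mt (i : J) (m : ℕ) (L : List (NE J)) : Prop := ¬ ∃ Q, L = Q ++ List.replicate m (sgc i)


/-! ### support predicates -/

/-- all terms satisfy `P` -/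
private def SP (P : List (NE J) → Prop) (x : LC J) : Prop := ∀ M, x M ≠ 0 → P M

private theorem SP_add {P : List (NE J) → Prop} {x y : LC J} (hx : SP P x) (hy : SP P y) :
    SP P (x + y) := by
  intro M hM
  by_cases h : x M = 0
  · refine hy M fun h' => hM ?_
    rw [Finsupp.add_apply, h, h', add_zero]
  · exact hx M h

private theorem SP_zero {P : List (NE J) → Prop} : SP P (0 : LC J) := fun _ h => absurd rfl h

private theorem SP_single {P : List (NE J) → Prop} {L : List (NE J)} {r : ZMod 2} (h : P L) :
    SP P (Finsupp.single L r) := by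
  intro M hM
  rw [Finsupp.single_apply] at hM
  split_ifs at hM with h'
  · exact h' ▸ h
  · exact absurd rfl hM

private theorem SP_mono {P Q : List (NE J) → Prop} {x : LC J} (hx : SP P x)
    (h : ∀ M, P M → Q M) : SP Q x := fun M hM => h M (hx M hM)

private theorem SP_lin {P Q : List (NE J) → Prop} {g : List (NE J) → LC J} {x : LC J}
    (hx : SP P x) (hg : ∀ L, P L → SP Q (g L)) :
    SP Q (Finsupp.linearCombination (ZMod 2) g x) := by
  intro M hM
  rw [Finsupp.linearCombination_apply, Finsupp.sum, Finsupp.finsetSum_apply] at hM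
  obtain ⟨L, hL, hL'⟩ := Finset.exists_ne_zero_of_sum_ne_zero hM
  refine hg L (hx L (Finsupp.mem_support_iff.1 hL)) M fun h => hL' ?_
  rw [Finsupp.smul_apply, h, smul_zero]

private theorem SP_pre {P Q : List (NE J) → Prop} {D : NE J} {x : LC J}
    (hx : SP P x) (h : ∀ M, P M → Q (D :: M)) : SP Q (pre D x) := by
  intro M hM
  have h1 : M ∈ (pre D x).support := Finsupp.mem_support_iff.2 hM
  have h2 := Finsupp.mapDomain_support (f := (D :: ·)) (s := x) h1
  rw [Finset.mem_image] at h2
  obtain ⟨M', hM', rfl⟩ := h2
  exact h M' (hx M' (Finsupp.mem_support_iff.1 hM'))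

private theorem SP_dlL {P Q : List (NE J) → Prop} {x : LC J}
    (hx : SP P x) (hg : ∀ L, P L → SP Q (dlc L)) : SP Q (dlL x) := SP_lin hx hg

private theorem SP_hhL {P Q : List (NE J) → Prop} {i : J} {x : LC J}
    (hx : SP P x) (hg : ∀ L, P L → SP Q (hh i L)) : SP Q (hhL i x) := SP_lin hx hg

private theorem SP_mg {P Q : List (NE J) → Prop} {D : NE J} {x : LC J}
    (hx : SP P x) (hg : ∀ E L, P (E :: L) → Disjoint D.1 E.1 → Q (D.un E :: L)) :
    SP Q (mg D x) := by
  refine SP_lin hx ?_
  intro L hL
  cases L with
  | nil => exact SP_zero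
  | cons E L =>
    show SP Q (if Disjoint D.1 E.1 then Finsupp.single (D.un E :: L) 1 else 0)
    split_ifs with h
    · exact SP_single (hg E L hL h)
    · exact SP_zero

/-! ### elementary facts on lists -/

private theorem er_val {i : J} {D : NE J} (h : D.1 ≠ {i}) : (er i D).1 = D.1.erase i := by
  have h1 : (D.1.erase i).Nonempty := by
    by_contra hne
    rw [Finset.not_nonempty_iff_eq_empty] at hne
    have h2 : D.1 ⊆ {i} := by
      intro j hj
      by_contra hji
      rw [Finset.mem_singleton] at hji
      have : j ∈ D.1.erase i := Finset.mem_erase.2 ⟨hji, hj⟩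
      rw [hne] at this
      exact absurd this (Finset.notMem_empty j)
    rcases Finset.subset_singleton_iff.1 h2 with h3 | h3
    · exact D.2.ne_empty h3
    · exact h h3
  unfold er
  rw [dif_pos h1]

private theorem notMem_er {i : J} {D : NE J} (h : D.1 ≠ {i}) : i ∉ (er i D).1 := by
  rw [er_val h]
  exact Finset.notMem_erase i _

private theorem un_er {i : J} {D : NE J} (hi : i ∈ D.1) (h : D.1 ≠ {i}) :
    (sgc i).un (er i D) = D := by
  apply Subtype.ext
  show ({i} : Finset J) ∪ (er i D).1 = D.1
  rw [er_val h]
  ext j
  simp only [Finset.mem_union, Finset.mem_singleton, Finset.mem_erase]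
  constructor
  · rintro (rfl | ⟨_, h⟩)
    · exact hi
    · exact h
  · intro hj
    by_cases hji : j = i
    · exact Or.inl hji
    · exact Or.inr ⟨hji, hj⟩

private theorem eq_sg {i : J} {D : NE J} (h : D.1 = {i}) : D = sgc i := Subtype.ext h

private theorem count_cons (i : J) (D : NE J) (L : List (NE J)) :
    (ty (D :: L)).count i = (if i ∈ D.1 then 1 else 0) + (ty L).count i := by
  rw [ty_cons, Multiset.count_add]
  congr 1
  split_ifs with h
  · exact Multiset.count_eq_one_of_mem D.1.nodup h
  · exact Multiset.count_eq_zero_of_notMem h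

private theorem count_cons_pos {i : J} {D : NE J} (h : i ∈ D.1) (L : List (NE J)) :
    (ty (D :: L)).count i = (ty L).count i + 1 := by
  rw [count_cons, if_pos h, add_comm]

private theorem count_cons_neg {i : J} {D : NE J} (h : i ∉ D.1) (L : List (NE J)) :
    (ty (D :: L)).count i = (ty L).count i := by
  rw [count_cons, if_neg h, zero_add]

private theorem count_replicate_append (i : J) (m : ℕ) (Q : List (NE J)) :
    (ty (Q ++ List.replicate m (sgc i))).count i = (ty Q).count i + m := by
  rw [ty_append, Multiset.count_add]
  congr 1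
  induction m with
  | zero => simp [ty]
  | succ m ih =>
    rw [List.replicate_succ, count_cons_pos (by simp [sgc]), ih]

private theorem Mt_cons {i : J} {m : ℕ} {D : NE J} {L : List (NE J)} (hm : 1 ≤ m)
    (hD : i ∉ D.1) (h : Mt i m L) : Mt i m (D :: L) := by
  rintro ⟨Q, hQ⟩
  cases Q with
  | nil =>
    obtain ⟨m', rfl⟩ : ∃ m', m = m' + 1 := ⟨m - 1, by omega⟩
    rw [List.nil_append, List.replicate_succ] at hQ
    have h1 : D = sgc i := (List.cons.inj hQ).1
    apply hD
    rw [h1]
    simp [sgc]
  | cons q Q =>
    rw [List.cons_append] at hQ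
    exact h ⟨Q, (List.cons.inj hQ).2⟩

private theorem Mt_of_cons {i : J} {m : ℕ} {D : NE J} {L : List (NE J)}
    (h : Mt i m (D :: L)) : Mt i m L := by
  rintro ⟨Q, hQ⟩
  exact h ⟨D :: Q, by rw [hQ, List.cons_append]⟩

private theorem Mt_cons_sg {i : J} {m : ℕ} {L : List (NE J)} (h : Mt i m L) :
    Mt i (m + 1) (sgc i :: L) := by
  rintro ⟨Q, hQ⟩
  cases Q with
  | nil =>
    rw [List.nil_append, List.replicate_succ] at hQ
    exact h ⟨[], by rw [(List.cons.inj hQ).2, List.nil_append]⟩
  | cons q Q =>
    rw [List.cons_append] at hQ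
    refine h ⟨Q ++ [sgc i], ?_⟩
    rw [(List.cons.inj hQ).2, List.replicate_succ, List.append_assoc]
    rfl

private theorem Mt_of_cons_sg {i : J} {m : ℕ} {L : List (NE J)} (hh : hdi i L)
    (hc : (ty L).count i = m) (h : Mt i (m + 1) (sgc i :: L)) : Mt i m L := by
  rintro ⟨Q, hQ⟩
  have h1 : (ty Q).count i = 0 := by
    have := count_replicate_append i m Q
    rw [← hQ, hc] at this
    omega
  cases Q with
  | nil =>
    refine h ⟨[], ?_⟩
    rw [hQ, List.nil_append, List.nil_append, List.replicate_succ]
  | cons q Q =>
    rw [hQ, List.cons_append] at hh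
    rw [count_cons_pos hh] at h1
    omega

/-- a list starting with `{i}, E` with `E ≠ {i}` is matched -/
private theorem Mt_split {i : J} {m : ℕ} {E : NE J} {L : List (NE J)} (hm : 1 ≤ m)
    (hE : E.1 ≠ {i}) (hc : (ty (sgc i :: E :: L)).count i = m) : Mt i m (sgc i :: E :: L) := by
  rintro ⟨Q, hQ⟩
  obtain ⟨m', rfl⟩ : ∃ m', m = m' + 1 := ⟨m - 1, by omega⟩
  cases Q with
  | nil =>
    rw [List.nil_append, List.replicate_succ] at hQ
    have h1 := (List.cons.inj hQ).2
    cases m' with
    | zero => simp at h1
    | succ m' =>
      rw [List.replicate_succ] at h1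
      apply hE
      rw [(List.cons.inj h1).1]
      rfl
  | cons q Q =>
    rw [List.cons_append] at hQ
    have h1 := (List.cons.inj hQ).2
    rw [count_cons_pos (by simp [sgc]), h1, count_replicate_append] at hc
    omega

/-! ### the homotopy -/

private theorem hh_notin {i : J} {D : NE J} (h : i ∉ D.1) (L : List (NE J)) :
    hh i (D :: L) = pre D (hh i L) := by
  rw [hh, if_pos h]

private theorem hh_sg_pos {i : J} {L : List (NE J)} (h : hdi i L) :
    hh i (sgc i :: L) = pre (sgc i) (hh i L) := by
  rw [hh, if_neg (by simp [sgc]), if_pos (show (sgc i).1 = {i} from rfl), if_pos h]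

private theorem hh_sg_neg {i : J} {L : List (NE J)} (h : ¬ hdi i L) :
    hh i (sgc i :: L) = 0 := by
  rw [hh, if_neg (by simp [sgc]), if_pos (show (sgc i).1 = {i} from rfl), if_neg h]

private theorem hh_split {i : J} {D : NE J} (h : i ∈ D.1) (h' : D.1 ≠ {i}) (L : List (NE J)) :
    hh i (D :: L) = Finsupp.single (sgc i :: er i D :: L) 1 := by
  rw [hh, if_neg (not_not.2 h), if_neg h']

private theorem hhL_single (i : J) (L : List (NE J)) : hhL i (Finsupp.single L 1) = hh i L := by
  unfold hhL
  rw [Finsupp.linearCombination_single, one_smul]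

private theorem ty_split {i : J} {D : NE J} (h : i ∈ D.1) (h' : D.1 ≠ {i}) (L : List (NE J)) :
    ty (sgc i :: er i D :: L) = ty (D :: L) := by
  rw [ty_cons, ty_cons, ty_cons, ← add_assoc]
  congr 1
  rw [er_val h', Finset.erase_val]
  show ({i} : Multiset J) + D.1.val.erase i = D.1.val
  rw [Multiset.singleton_add]
  exact Multiset.cons_erase h

theorem hh_terms (i : J) (m : ℕ) (hm : 1 ≤ m) {L M : List (NE J)} (hL : (ty L).count i = m)
    (h : hh i L M ≠ 0) : ty M = ty L ∧ M.length = L.length + 1 ∧ Mt i m M := by
  suffices H : ∀ (L : List (NE J)) (m : ℕ), 1 ≤ m → (ty L).count i = m →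
      SP (fun M => ty M = ty L ∧ M.length = L.length + 1 ∧ Mt i m M) (hh i L) from
    H L m hm hL M h
  clear h hL hm m M L
  intro L
  induction L with
  | nil => intro m _ _; exact SP_zero
  | cons D L ih =>
    intro m hm hc
    by_cases hD : i ∈ D.1
    · by_cases hD' : D.1 = {i}
      · obtain rfl := eq_sg hD'
        by_cases hl : hdi i L
        · rw [hh_sg_pos hl]
          rw [count_cons_pos hD] at hc
          have hc' : 1 ≤ (ty L).count i := by
            cases L with
            | nil => exact absurd hl id
            | cons E L => rw [count_cons_pos hl]; omega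
          refine SP_pre (ih _ hc' rfl) ?_
          rintro M ⟨h1, h2, h3⟩
          refine ⟨by rw [ty_cons, ty_cons, h1], by rw [List.length_cons, List.length_cons, h2], ?_⟩
          rw [← hc]
          exact Mt_cons_sg h3
        · rw [hh_sg_neg hl]
          exact SP_zero
      · rw [hh_split hD hD']
        refine SP_single ⟨ty_split hD hD' L, rfl, ?_⟩
        refine Mt_split hm (fun h => notMem_er hD' (by rw [h]; exact Finset.mem_singleton_self i)) ?_
        rw [ty_split hD hD' L, hc]
    · rw [hh_notin hD]
      rw [count_cons_neg hD] at hc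
      refine SP_pre (ih m hm hc) ?_
      rintro M ⟨h1, h2, h3⟩
      exact ⟨by rw [ty_cons, ty_cons, h1], by rw [List.length_cons, List.length_cons, h2],
        Mt_cons hm hD h3⟩

/-- the prefix length is unchanged -/
private theorem hh_pr (i : J) (L : List (NE J)) : SP (fun M => pr i M = pr i L) (hh i L) := by
  induction L with
  | nil => exact SP_zero
  | cons D L ih =>
    by_cases hD : i ∈ D.1
    · by_cases hD' : D.1 = {i}
      · obtain rfl := eq_sg hD'
        by_cases hl : hdi i L
        · rw [hh_sg_pos hl]
          refine SP_pre ih ?_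
          intro M _
          rw [pr, pr, if_pos hD, if_pos hD]
        · rw [hh_sg_neg hl]
          exact SP_zero
      · rw [hh_split hD hD']
        refine SP_single ?_
        show pr i (sgc i :: er i D :: L) = pr i (D :: L)
        rw [pr, if_pos (show i ∈ (sgc i).1 from Finset.mem_singleton_self i)]
        rw [pr, if_pos hD]
    · rw [hh_notin hD]
      refine SP_pre ih ?_
      intro M hM
      rw [pr, pr, if_neg hD, if_neg hD, hM]

/-- the operator `K` -/
private noncomputable def KK (i : J) (L : List (NE J)) : LC J :=
  dlL (hh i L) + hhL i (dlc L) + Finsupp.single L 1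

private theorem dl_eq (L : List (NE J)) : dlc L = dlL (Finsupp.single L 1) := by
  rw [dlL_single]

private theorem dl_cons (D : NE J) (L : List (NE J)) :
    dlc (D :: L) = pre D (dlc L) + mg D (Finsupp.single L 1) := by
  rw [dl_eq (D :: L), ← pre_single, dlL_pre, dlL_single]

private theorem two (x : LC J) : x + x = 0 := by
  ext M
  rw [Finsupp.add_apply]
  exact CharTwo.add_self_eq_zero _

/-- homotopy and prefixes without `i` -/
private theorem hhL_pre_notin {i : J} {D : NE J} (h : i ∉ D.1) (x : LC J) :
    hhL i (pre D x) = pre D (hhL i x) := by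
  induction x using Finsupp.induction_linear with
  | zero => simp
  | add x y hx hy => rw [map_add, map_add, map_add, map_add, hx, hy]
  | single L r =>
    have h1 : Finsupp.single L r = r • (Finsupp.single L 1 : LC J) := by
      rw [Finsupp.smul_single, smul_eq_mul, mul_one]
    rw [h1, map_smul, map_smul, map_smul, map_smul, pre_single, hhL_single, hhL_single,
      hh_notin h]

/-- homotopy and a prefix `{i}` -/
private theorem hhL_pre_sg {i : J} (x : LC J) (hx : SP (hdi i) x) :
    hhL i (pre (sgc i) x) = pre (sgc i) (hhL i x) := by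
  have h1 : hhL i (pre (sgc i) x) = x.sum fun L r => r • hh i (sgc i :: L) := by
    unfold hhL pre
    rw [Finsupp.lmapDomain_apply, Finsupp.linearCombination_mapDomain,
      Finsupp.linearCombination_apply]
    rfl
  have h2 : pre (sgc i) (hhL i x) = x.sum fun L r => r • pre (sgc i) (hh i L) := by
    unfold hhL
    rw [Finsupp.linearCombination_apply, map_finsuppSum]
    refine Finsupp.sum_congr fun L _ => ?_
    rw [map_smul]
  rw [h1, h2]
  refine Finsupp.sum_congr fun L hL => ?_
  rw [hh_sg_pos (hx L (Finsupp.mem_support_iff.1 hL))]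

/-- homotopy and a prefix `{i}`, heads without `i` -/
private theorem hhL_pre_sg_zero {i : J} (x : LC J) (hx : SP (fun L => ¬ hdi i L) x) :
    hhL i (pre (sgc i) x) = 0 := by
  have h1 : hhL i (pre (sgc i) x) = x.sum fun L r => r • hh i (sgc i :: L) := by
    unfold hhL pre
    rw [Finsupp.lmapDomain_apply, Finsupp.linearCombination_mapDomain,
      Finsupp.linearCombination_apply]
    rfl
  rw [h1]
  refine Finset.sum_eq_zero fun L hL => ?_
  show x L • hh i (sgc i :: L) = 0
  rw [hh_sg_neg (hx L (Finsupp.mem_support_iff.1 hL)), smul_zero]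

/-- merging `{i}` into heads containing `i` -/
private theorem mg_sg_zero {i : J} (x : LC J) (hx : SP (hdi i) x) : mg (sgc i) x = 0 := by
  unfold mg
  rw [Finsupp.linearCombination_apply]
  refine Finset.sum_eq_zero fun L hL => ?_
  have h1 := hx L (Finsupp.mem_support_iff.1 hL)
  cases L with
  | nil => exact absurd h1 id
  | cons E L =>
    show x (E :: L) • (if Disjoint (sgc i).1 E.1 then Finsupp.single ((sgc i).un E :: L) 1 else 0) = (0 : LC J)
    rw [if_neg, smul_zero]
    intro h2
    exact Finset.disjoint_left.1 h2 (Finset.mem_singleton_self i) h1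

/-- homotopy and a prefix `D` containing `i`, `D ≠ {i}` -/
private theorem hhL_pre_split {i : J} {D : NE J} (h : i ∈ D.1) (h' : D.1 ≠ {i}) (x : LC J) :
    hhL i (pre D x) = pre (sgc i) (pre (er i D) x) := by
  induction x using Finsupp.induction_linear with
  | zero => simp
  | add x y hx hy => rw [map_add, map_add, map_add, map_add, hx, hy]
  | single L r =>
    have h1 : Finsupp.single L r = r • (Finsupp.single L 1 : LC J) := by
      rw [Finsupp.smul_single, smul_eq_mul, mul_one]
    rw [h1, map_smul, map_smul, map_smul, map_smul, pre_single, hhL_single, pre_single,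
      pre_single, hh_split h h']

private theorem hh_hdi {i : J} {L : List (NE J)} (h : hdi i L) : SP (hdi i) (hh i L) := by
  cases L with
  | nil => exact absurd h id
  | cons D L =>
    have hD : i ∈ D.1 := h
    by_cases hD' : D.1 = {i}
    · obtain rfl := eq_sg hD'
      by_cases hl : hdi i L
      · rw [hh_sg_pos hl]
        exact SP_pre (P := fun _ => True) (fun _ _ => trivial) fun M _ => hD
      · rw [hh_sg_neg hl]
        exact SP_zero
    · rw [hh_split hD hD']
      exact SP_single (Finset.mem_singleton_self i)

private theorem dl_hdi {i : J} {L : List (NE J)} (h : hdi i L) : SP (hdi i) (dlc L) := by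
  cases L with
  | nil => exact absurd h id
  | cons D L =>
    have hD : i ∈ D.1 := h
    rw [dl_cons]
    refine SP_add (SP_pre (P := fun _ => True) (fun _ _ => trivial) fun M _ => hD) ?_
    refine SP_mg (P := fun _ => True) (fun _ _ => trivial) ?_
    intro E M _ _
    exact Finset.mem_union_left _ hD

private theorem KK_notin {i : J} {D : NE J} (h : i ∉ D.1) (L : List (NE J)) :
    KK i (D :: L) = pre D (KK i L) + (mg D (hh i L) + hhL i (mg D (Finsupp.single L 1))) := by
  unfold KK
  rw [hh_notin h, dlL_pre, dl_cons, map_add, hhL_pre_notin h, map_add, map_add, pre_single]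
  abel

private theorem KK_sg_pos {i : J} {L : List (NE J)} (h : hdi i L) :
    KK i (sgc i :: L) = pre (sgc i) (KK i L) := by
  unfold KK
  rw [hh_sg_pos h, dlL_pre, dl_cons, map_add, mg_sg_zero _ (hh_hdi h),
    mg_sg_zero _ (SP_single h), hhL_pre_sg _ (dl_hdi h), map_add, map_add, pre_single, map_zero]
  abel

private theorem un_sg {i : J} {E : NE J} (h : i ∉ E.1) :
    i ∈ ((sgc i).un E).1 ∧ ((sgc i).un E).1 ≠ {i} ∧ er i ((sgc i).un E) = E := by
  have h1 : i ∈ ((sgc i).un E).1 := Finset.mem_union_left _ (Finset.mem_singleton_self i)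
  have h2 : ((sgc i).un E).1 ≠ {i} := by
    intro h2
    obtain ⟨j, hj⟩ := E.2
    have h3 : j ∈ ((sgc i).un E).1 := Finset.mem_union_right _ hj
    rw [h2, Finset.mem_singleton] at h3
    exact h (h3 ▸ hj)
  refine ⟨h1, h2, Subtype.ext ?_⟩
  rw [er_val h2]
  show (({i} : Finset J) ∪ E.1).erase i = E.1
  ext j
  simp only [Finset.mem_erase, Finset.mem_union, Finset.mem_singleton]
  constructor
  · rintro ⟨h3, h4 | h4⟩
    · exact absurd h4 h3
    · exact h4
  · intro h3
    exact ⟨fun h4 => h (h4 ▸ h3), Or.inr h3⟩

private theorem KK_sg_neg {i : J} {E : NE J} (h : i ∉ E.1) (L : List (NE J)) :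
    KK i (sgc i :: E :: L) = hhL i (pre (sgc i) (mg E (Finsupp.single L 1))) := by
  unfold KK
  obtain ⟨h1, h2, h3⟩ := un_sg h
  have hdis : Disjoint (sgc i).1 E.1 := Finset.disjoint_singleton_left.2 h
  rw [hh_sg_neg (L := E :: L) h, map_zero, zero_add, dl_cons (sgc i), map_add, dl_cons E, map_add,
    map_add, hhL_pre_sg_zero (pre E (dlc L))
      (SP_pre (P := fun _ => True) (fun _ _ => trivial) fun M _ => h), zero_add, mg_cons,
    if_pos hdis, hhL_single, hh_split h1 h2, h3, add_assoc, two, add_zero]

private theorem KK_split {i : J} {D : NE J} (h : i ∈ D.1) (h' : D.1 ≠ {i}) (L : List (NE J)) :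
    KK i (D :: L) = pre (sgc i) (mg (er i D) (Finsupp.single L 1)) +
      hhL i (mg D (Finsupp.single L 1)) := by
  unfold KK
  have hdis : Disjoint (sgc i).1 (er i D).1 := Finset.disjoint_singleton_left.2 (notMem_er h')
  have e1 : dlL (hh i (D :: L)) = pre (sgc i) (pre (er i D) (dlc L)) +
      pre (sgc i) (mg (er i D) (Finsupp.single L 1)) + Finsupp.single (D :: L) 1 := by
    rw [hh_split h h', dlL_single, dl_cons, dl_cons, map_add, mg_cons, if_pos hdis, un_er h h']
  have e2 : hhL i (dlc (D :: L)) = pre (sgc i) (pre (er i D) (dlc L)) +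
      hhL i (mg D (Finsupp.single L 1)) := by
    rw [dl_cons, map_add, hhL_pre_split h h']
  rw [e1, e2]
  have t1 := two (pre (sgc i) (pre (er i D) (dlc L)))
  have t2 := two (Finsupp.single (D :: L) 1 : LC J)
  calc pre (sgc i) (pre (er i D) (dlc L)) + pre (sgc i) (mg (er i D) (Finsupp.single L 1)) +
        Finsupp.single (D :: L) 1 + (pre (sgc i) (pre (er i D) (dlc L)) +
        hhL i (mg D (Finsupp.single L 1))) + Finsupp.single (D :: L) 1
      = (pre (sgc i) (pre (er i D) (dlc L)) + pre (sgc i) (pre (er i D) (dlc L))) +
        (Finsupp.single (D :: L) 1 + Finsupp.single (D :: L) 1) +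
        (pre (sgc i) (mg (er i D) (Finsupp.single L 1)) +
        hhL i (mg D (Finsupp.single L 1))) := by abel
    _ = _ := by rw [t1, t2, add_zero, zero_add]

/-! ### the measure -/

private theorem mu_le (i : J) (m : ℕ) (M : List (NE J)) : mu i m M ≤ pr i M * (m + 1) + m := by
  unfold mu
  omega

private theorem mu_cons_neg {i : J} {D : NE J} (h : i ∉ D.1) (m : ℕ) (M : List (NE J)) :
    mu i m (D :: M) = mu i m M + (m + 1) := by
  unfold mu
  rw [pr, if_neg h, rn', if_neg h]
  ring

private theorem mu_cons_sg (i : J) (m : ℕ) (M : List (NE J)) :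
    mu i m (sgc i :: M) = m - (rn i M + 1) := by
  unfold mu
  have h : i ∈ (sgc i).1 := Finset.mem_singleton_self i
  rw [pr, if_pos h, rn', if_pos h, rn, if_pos (show (sgc i).1 = {i} from rfl)]
  ring_nf

private theorem mu_cons_pos {i : J} {D : NE J} (h : i ∈ D.1) (h' : D.1 ≠ {i}) (m : ℕ)
    (M : List (NE J)) : mu i m (D :: M) = m := by
  unfold mu
  rw [pr, if_pos h, rn', if_pos h, rn, if_neg h', zero_mul, zero_add]
  omega

private theorem mu_of_hdi {i : J} {m : ℕ} {M : List (NE J)} (h : hdi i M) :
    mu i m M = m - rn i M := by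
  cases M with
  | nil => exact absurd h id
  | cons D M =>
    have hD : i ∈ D.1 := h
    by_cases hD' : D.1 = {i}
    · obtain rfl := eq_sg hD'
      rw [mu_cons_sg, rn, if_pos hD']
    · rw [mu_cons_pos hD hD', rn, if_neg hD']
      omega

private theorem pr_un {i : J} {D E : NE J} (h : i ∉ D.1) (M : List (NE J)) :
    pr i (D.un E :: M) = pr i (E :: M) := by
  rw [pr, pr]
  have h1 : i ∈ (D.un E).1 ↔ i ∈ E.1 := by
    show i ∈ D.1 ∪ E.1 ↔ _
    rw [Finset.mem_union]
    exact ⟨fun h2 => h2.resolve_left h, Or.inr⟩
  by_cases h2 : i ∈ E.1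
  · rw [if_pos h2, if_pos (h1.2 h2)]
  · rw [if_neg h2, if_neg (fun h3 => h2 (h1.1 h3))]

private theorem KK_mu (i : J) (L : List (NE J)) : ∀ m : ℕ, 1 ≤ m → (ty L).count i = m →
    Mt i m L → SP (fun M => mu i m M < mu i m L) (KK i L) := by
  induction L with
  | nil =>
    intro m hm hc _
    have : (ty ([] : List (NE J))).count i = 0 := by simp [ty]
    omega
  | cons D L ih =>
    intro m hm hc hM
    by_cases hD : i ∈ D.1
    · by_cases hD' : D.1 = {i}
      · obtain rfl := eq_sg hD'
        rw [count_cons_pos hD] at hc
        by_cases hl : hdi i L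
        · have hc' : 1 ≤ (ty L).count i := by
            cases L with
            | nil => exact absurd hl id
            | cons E L => rw [count_cons_pos hl]; omega
          rw [KK_sg_pos hl]
          obtain ⟨m', rfl⟩ : ∃ m', m = m' + 1 := ⟨m - 1, by omega⟩
          have hm' : (ty L).count i = m' := by omega
          have hmt : Mt i m' L := Mt_of_cons_sg hl hm' hM
          refine SP_pre (ih m' (by omega) hm' hmt) ?_
          intro M hMM
          rw [mu_of_hdi hl] at hMM
          rw [mu_cons_sg, mu_cons_sg]
          have hpr : pr i M = 0 := by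
            by_contra hne
            have : m' + 1 ≤ pr i M * (m' + 1) := Nat.le_mul_of_pos_left _ (Nat.pos_of_ne_zero hne)
            unfold mu at hMM
            omega
          have hM' : hdi i M := by
            cases M with
            | nil =>
              have : mu i m' ([] : List (NE J)) = m' := by simp [mu, pr, rn']
              rw [this] at hMM
              omega
            | cons F M =>
              by_contra hF
              have hF' : i ∉ F.1 := hF
              rw [pr, if_neg hF'] at hpr
              omega
          rw [mu_of_hdi hM'] at hMM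
          omega
        · cases L with
          | nil =>
            exfalso
            apply hM
            have : (ty ([] : List (NE J))).count i = 0 := by simp [ty]
            have hm1 : m = 1 := by omega
            subst hm1
            exact ⟨[], rfl⟩
          | cons E L =>
            have hE : i ∉ E.1 := hl
            rw [KK_sg_neg hE]
            cases L with
            | nil =>
              rw [mg_nil, map_zero, map_zero]
              exact SP_zero
            | cons F L =>
              rw [mg_cons]
              split_ifs with hdis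
              · rw [pre_single, hhL_single]
                by_cases hF : i ∈ F.1
                · have h1 : i ∈ (E.un F).1 := Finset.mem_union_right _ hF
                  have h2 : (E.un F).1 ≠ {i} := by
                    intro h2
                    obtain ⟨j, hj⟩ := E.2
                    have h3 : j ∈ (E.un F).1 := Finset.mem_union_left _ hj
                    rw [h2, Finset.mem_singleton] at h3
                    exact hE (h3 ▸ hj)
                  rw [hh_sg_pos (L := E.un F :: L) h1, hh_split h1 h2, pre_single]
                  refine SP_single ?_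
                  show mu i m (sgc i :: sgc i :: er i (E.un F) :: L) < mu i m (sgc i :: E :: F :: L)
                  rw [mu_cons_sg, mu_cons_sg, rn, if_pos (show (sgc i).1 = {i} from rfl)]
                  rw [count_cons_neg hE, count_cons_pos hF] at hc
                  have h4 : rn i (E :: F :: L) = 0 := by
                    rw [rn, if_neg]
                    intro h4
                    rw [h4] at hE
                    exact hE (Finset.mem_singleton_self i)
                  rw [h4]
                  omega
                · have h1 : ¬ hdi i (E.un F :: L) := by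
                    show ¬ i ∈ E.1 ∪ F.1
                    rw [Finset.mem_union, not_or]
                    exact ⟨hE, hF⟩
                  rw [hh_sg_neg h1]
                  exact SP_zero
              · rw [map_zero, map_zero]
                exact SP_zero
      · rw [KK_split hD hD']
        cases L with
        | nil =>
          rw [mg_nil, mg_nil, map_zero, map_zero, add_zero]
          exact SP_zero
        | cons F L =>
          rw [mg_cons, mg_cons]
          by_cases hF : i ∈ F.1
          · have hnd : ¬ Disjoint D.1 F.1 := fun h => Finset.disjoint_left.1 h hD hF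
            rw [if_neg hnd, map_zero, add_zero]
            split_ifs with hdis
            · rw [pre_single]
              refine SP_single ?_
              rw [mu_cons_sg, mu_cons_pos hD hD']
              omega
            · rw [map_zero]
              exact SP_zero
          · by_cases hdis : Disjoint D.1 F.1
            · have hdis' : Disjoint (er i D).1 F.1 := by
                rw [er_val hD']
                exact hdis.mono_left (Finset.erase_subset _ _)
              rw [if_pos hdis, if_pos hdis', pre_single, hhL_single]
              have h1 : i ∈ (D.un F).1 := Finset.mem_union_left _ hD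
              have h2 : (D.un F).1 ≠ {i} := by
                intro h2
                obtain ⟨j, hj⟩ := F.2
                have h3 : j ∈ (D.un F).1 := Finset.mem_union_right _ hj
                rw [h2, Finset.mem_singleton] at h3
                exact hF (h3 ▸ hj)
              have h3 : er i (D.un F) = (er i D).un F := by
                apply Subtype.ext
                rw [er_val h2]
                show (D.1 ∪ F.1).erase i = (er i D).1 ∪ F.1
                rw [er_val hD']
                ext j
                simp only [Finset.mem_erase, Finset.mem_union]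
                constructor
                · rintro ⟨h4, h5 | h5⟩
                  · exact Or.inl ⟨h4, h5⟩
                  · exact Or.inr h5
                · rintro (⟨h4, h5⟩ | h5)
                  · exact ⟨h4, Or.inl h5⟩
                  · exact ⟨fun h6 => hF (h6 ▸ h5), Or.inr h5⟩
              rw [hh_split h1 h2, h3, two]
              exact SP_zero
            · have hdis' : ¬ Disjoint (er i D).1 F.1 := by
                intro h
                apply hdis
                rw [er_val hD', Finset.disjoint_left] at h
                rw [Finset.disjoint_left]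
                intro j hj hj'
                exact h (Finset.mem_erase.2 ⟨fun h6 => hF (h6 ▸ hj'), hj⟩) hj'
              rw [if_neg hdis, if_neg hdis', map_zero, map_zero, add_zero]
              exact SP_zero
    · rw [count_cons_neg hD] at hc
      have hmt : Mt i m L := Mt_of_cons hM
      rw [KK_notin hD]
      refine SP_add (SP_pre (ih m hm hc hmt) ?_) (SP_add ?_ ?_)
      · intro M hMM
        rw [mu_cons_neg hD, mu_cons_neg hD]
        omega
      · refine SP_mg (hh_pr i L) ?_
        intro E M hE hdis
        have h1 := mu_le i m (D.un E :: M)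
        rw [pr_un hD, hE] at h1
        have h2 : mu i m (D :: L) = (pr i L + 1) * (m + 1) + (m - rn' i L) := by
          unfold mu
          rw [pr, if_neg hD, rn', if_neg hD]
        rw [h2]
        have h3 : (pr i L + 1) * (m + 1) = pr i L * (m + 1) + (m + 1) := by ring
        omega
      · refine SP_hhL (P := fun M => pr i M = pr i L) ?_ ?_
        · refine SP_mg (P := fun M => pr i M = pr i L) (SP_single rfl) ?_
          intro E M hE _
          rw [pr_un hD, hE]
        · intro M hM1
          refine SP_mono (hh_pr i M) ?_
          intro M' hM'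
          have h1 := mu_le i m M'
          rw [hM', hM1] at h1
          have h2 : mu i m (D :: L) = (pr i L + 1) * (m + 1) + (m - rn' i L) := by
            unfold mu
            rw [pr, if_neg hD, rn', if_neg hD]
          rw [h2]
          have h3 : (pr i L + 1) * (m + 1) = pr i L * (m + 1) + (m + 1) := by ring
          omega

private theorem dl_Mt {i : J} {m : ℕ} {L M : List (NE J)} (hL : (ty L).count i = m)
    (hM : Mt i m L) (h : dlc L M ≠ 0) : Mt i m M := by
  rintro ⟨Q, rfl⟩
  exact h (dl_unmatched_b i m L Q hL hM)

theorem K_terms (i : J) (m : ℕ) (hm : 1 ≤ m) {L M : List (NE J)} (hL : (ty L).count i = m)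
    (hM : Mt i m L) (h : (dlL (hh i L) + hhL i (dlc L) + Finsupp.single L 1 : LC J) M ≠ 0) :
    ty M = ty L ∧ M.length = L.length ∧ Mt i m M ∧ mu i m M < mu i m L := by
  have h0 := KK_mu i L m hm hL hM M h
  have H : SP (fun M => ty M = ty L ∧ M.length = L.length ∧ Mt i m M)
      (dlL (hh i L) + hhL i (dlc L) + Finsupp.single L 1 : LC J) := by
    refine SP_add (SP_add ?_ ?_) (SP_single ⟨rfl, rfl, hM⟩)
    · refine SP_dlL (P := fun M => ty M = ty L ∧ M.length = L.length + 1 ∧ Mt i m M) ?_ ?_
      · intro M' hM'
        exact hh_terms i m hm hL hM'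
      · rintro M' ⟨h1, h2, h3⟩ M'' h4
        obtain ⟨h5, h6⟩ := dl_terms h4
        exact ⟨h5.trans h1, by omega, dl_Mt (by rw [h1, hL]) h3 h4⟩
    · refine SP_hhL (P := fun M => ty M = ty L ∧ M.length + 1 = L.length) ?_ ?_
      · intro M' hM'
        exact dl_terms hM'
      · rintro M' ⟨h1, h2⟩ M'' h4
        obtain ⟨h5, h6, h7⟩ := hh_terms i m hm (by rw [h1, hL]) h4
        exact ⟨h5.trans h1, by omega, h7⟩
  obtain ⟨h1, h2, h3⟩ := H M h
  exact ⟨h1, h2, h3, h0⟩

theorem matched_acyclic (i : J) (e : Multiset J) (m : ℕ) (hm : 1 ≤ m) (he : e.count i = m) (k : ℕ)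
    (x : LC J) (hx : InC e k x) (hu : ∀ L, x L ≠ 0 → Mt i m L) (hd : dlL x = 0) :
    ∃ y, InC e (k + 1) y ∧ (∀ L, y L ≠ 0 → Mt i m L) ∧ dlL y = x := by
  suffices H : ∀ (N : ℕ) (x : LC J), InC e k x → (∀ L, x L ≠ 0 → Mt i m L) → dlL x = 0 →
      (∀ L, x L ≠ 0 → mu i m L < N) →
      ∃ y, InC e (k + 1) y ∧ (∀ L, y L ≠ 0 → Mt i m L) ∧ dlL y = x by
    refine H (x.support.sup (mu i m) + 1) x hx hu hd ?_
    intro L hL
    exact Nat.lt_succ_of_le (Finset.le_sup (f := mu i m) (Finsupp.mem_support_iff.2 hL))
  clear hd hu hx x
  intro N
  induction N with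
  | zero =>
    intro x hx hu hd hN
    have h0 : x = 0 := by
      ext L
      by_contra h
      exact absurd (hN L h) (Nat.not_lt_zero _)
    refine ⟨0, ?_, ?_, ?_⟩
    · intro L hL
      exact absurd rfl hL
    · intro L hL
      exact absurd rfl hL
    · rw [h0, map_zero]
  | succ N ih =>
    intro x hx hu hd hN
    have hK : x + dlL (hhL i x) = Finsupp.linearCombination (ZMod 2) (KK i) x := by
      have h1 : dlL (hhL i x) = Finsupp.linearCombination (ZMod 2) (fun L => dlL (hh i L)) x := by
        unfold hhL
        rw [Finsupp.linearCombination_apply, Finsupp.linearCombination_apply, map_finsuppSum]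
        refine Finsupp.sum_congr fun L _ => ?_
        rw [map_smul]
      have h2 : hhL i (dlL x) = Finsupp.linearCombination (ZMod 2) (fun L => hhL i (dlc L)) x := by
        unfold dlL
        rw [Finsupp.linearCombination_apply, Finsupp.linearCombination_apply, map_finsuppSum]
        refine Finsupp.sum_congr fun L _ => ?_
        rw [map_smul]
      have h3 : x = Finsupp.linearCombination (ZMod 2) (fun L => (Finsupp.single L 1 : LC J)) x := by
        rw [Finsupp.linearCombination_apply]
        conv_lhs => rw [← Finsupp.sum_single x]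
        refine Finsupp.sum_congr fun L _ => ?_
        rw [Finsupp.smul_single, smul_eq_mul, mul_one]
      have h4 : Finsupp.linearCombination (ZMod 2) (KK i) x =
          Finsupp.linearCombination (ZMod 2) (fun L => dlL (hh i L)) x +
          Finsupp.linearCombination (ZMod 2) (fun L => hhL i (dlc L)) x +
          Finsupp.linearCombination (ZMod 2) (fun L => (Finsupp.single L 1 : LC J)) x := by
        simp only [Finsupp.linearCombination_apply, Finsupp.sum]
        rw [← Finset.sum_add_distrib, ← Finset.sum_add_distrib]
        refine Finset.sum_congr rfl fun L _ => ?_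
        unfold KK
        rw [smul_add, smul_add]
      rw [h4, ← h1, ← h2, ← h3, hd, map_zero, add_zero, add_comm]
    have hz : SP (fun M => ty M = e ∧ M.length = k ∧ Mt i m M ∧ mu i m M < N)
        (x + dlL (hhL i x)) := by
      rw [hK]
      refine SP_lin (P := fun L => ty L = e ∧ L.length = k ∧ Mt i m L ∧ mu i m L < N + 1) ?_ ?_
      · intro L hL
        exact ⟨(hx L hL).1, (hx L hL).2, hu L hL, hN L hL⟩
      · rintro L ⟨h1, h2, h3, h4⟩ M hM
        obtain ⟨h5, h6, h7, h8⟩ := K_terms i m hm (by rw [h1, he]) h3 hM
        exact ⟨h5.trans h1, h6.trans h2, h7, by omega⟩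
    have hh1 : SP (fun M => ty M = e ∧ M.length = k + 1 ∧ Mt i m M) (hhL i x) := by
      refine SP_hhL (P := fun L => ty L = e ∧ L.length = k) (fun L hL => hx L hL) ?_
      rintro L ⟨h1, h2⟩ M hM
      obtain ⟨h5, h6, h7⟩ := hh_terms i m hm (by rw [h1, he]) hM
      exact ⟨h5.trans h1, by omega, h7⟩
    obtain ⟨y, hy1, hy2, hy3⟩ := ih (x + dlL (hhL i x))
      (fun L hL => ⟨(hz L hL).1, (hz L hL).2.1⟩) (fun L hL => (hz L hL).2.2.1)
      (by rw [map_add, hd, dlL_dlL, add_zero]) (fun L hL => (hz L hL).2.2.2)
    refine ⟨y + hhL i x, ?_, ?_, ?_⟩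
    · exact SP_add (P := fun L => ty L = e ∧ L.length = k + 1) hy1
        (fun L hL => ⟨(hh1 L hL).1, (hh1 L hL).2.1⟩)
    · exact SP_add (P := fun L => Mt i m L) hy2 (fun L hL => (hh1 L hL).2.2)
    · rw [map_add, hy3, add_assoc, two, add_zero]

end MM

end

/-! ### from `Lib_MP_33f7bb_d.A4C3` -/

section

/-!
# A4-23: homology of the combinatorial bar complex

`bar_exact`: strong induction on the number of elements of `e`.  `k < card e`, so `e ≠ 0`; choose `i ∈ e`, `m = e.count i ≥ 1`.
Let `a` = the chain of all `Q` with coefficient `x (Q ++ {i}^m)` (`Finsupp.comapDomain`, `List.append_left_injective`-type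
injectivity).  Its lists have type `e' = e - m • {i}` (so do not contain `i`) and length `k - m`; if `k < m` then `a = 0`.
`d a = 0`: the coefficient of `P` in `d a` is the coefficient of `P ++ {i}^m` in `d x` (`dl_unmatched_a`, `dl_unmatched_b`).
`k - m < card e' = card e - m`, so by induction `a = d b`, `b` of type `e'`, length `k - m + 1`.  Put
`x' = x + d (b ++ {i}^m)`: it is a cycle and its coefficient at `P ++ {i}^m` is `a P + (d b) P = 0` (`dl_unmatched_a` for the
lists `Q ++ {i}^m`, `i ∉ Q`).  So `x'` is matched and `matched_acyclic` applies: `x' = d y`, `x = d (b ++ {i}^m + y)`.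
`bar_top`: if `k = card e` all sets of a list of type `e` and length `k` are singletons.  For
`L = A ++ D :: E :: B`, `L' = A ++ E :: D :: B`, all sets singletons, `D ≠ E`: the coefficient of
`A ++ (D ∪ E) :: B` in `d x` is `x L + x L'` (a list of singletons whose differential contains `A ++ (D ∪ E) :: B` must have the merged pair in
the place of the only two element set), so `x L = x L'`.  Adjacent transpositions generate: induction on
`List.Perm` (the `cons` case needs the statement for all prefixes: prove by induction on the permutation `L ~ L'` that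
`x (A ++ L) = x (A ++ L')` for all `A`).
`bar_span`: in length `k` and type `e` with `card e = k` the cycles are multiples of `zet e`, the sum of all lists of singletons
with union `e` (= all lists obtained from the permutations of `e`).
-/

namespace MM

variable {J : Type} [DecidableEq J]

private theorem A4C3_un_ne {D E : NE J} (h : Disjoint D.1 E.1) : D.un E ≠ D := by
  intro h'
  have h1 : D.1 ∪ E.1 = D.1 := congrArg Subtype.val h'
  obtain ⟨x, hx⟩ := E.2
  have h2 : x ∈ D.1 := by
    rw [← h1]
    exact Finset.mem_union_right _ hx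
  exact Finset.disjoint_left.1 h h2 hx

private theorem A4C3_dl_cons (D : NE J) (L M : List (NE J)) :
    dlc (D :: L) (D :: M) = dlc L M := by
  cases L with
  | nil => simp [dlc]
  | cons E L =>
    rw [dlc, Finsupp.add_apply]
    have h1 : (if Disjoint D.1 E.1 then Finsupp.single (D.un E :: L) 1 else 0 : LC J)
        (D :: M) = 0 := by
      split_ifs with h
      · apply Finsupp.single_eq_of_ne
        intro h'
        exact A4C3_un_ne h (List.cons.inj h').1.symm
      · rfl
    rw [h1, zero_add]
    exact Finsupp.mapDomain_apply (List.cons_injective) _ _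

private theorem A4C3_dl_merge (A : List (NE J)) (D E : NE J) (B : List (NE J))
    (h : Disjoint D.1 E.1) : dlc (A ++ D :: E :: B) (A ++ D.un E :: B) = 1 := by
  induction A with
  | nil =>
    rw [List.nil_append, List.nil_append, dlc, Finsupp.add_apply, if_pos h,
      Finsupp.single_eq_same, Finsupp.mapDomain_of_notMem_range, add_zero]
    rintro ⟨M, hM⟩
    exact A4C3_un_ne h (List.cons.inj hM).1.symm
  | cons C A ih =>
    rw [List.cons_append, List.cons_append, A4C3_dl_cons]
    exact ih

private theorem A4C3_dlL_apply (x : LC J) (P : List (NE J)) :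
    dlL x P = ∑ L ∈ x.support, x L * dlc L P := by
  rw [dlL, Finsupp.linearCombination_apply, Finsupp.sum, Finsupp.finsetSum_apply]
  rfl

private theorem A4C3_ty_map (l : List J) : ty (l.map sgc) = (l : Multiset J) := by
  induction l with
  | nil => rfl
  | cons i l ih =>
    rw [List.map_cons, ty_cons, ih]
    rfl

private theorem A4C3_ty_rep (i : J) (m : ℕ) :
    ty (List.replicate m (sgc i)) = Multiset.replicate m i := by
  rw [← List.map_replicate, A4C3_ty_map]
  rfl

private theorem A4C3_inj (R : List (NE J)) : Function.Injective (fun Q : List (NE J) => Q ++ R) :=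
  List.append_left_injective R

private theorem A4C3_z2 {a b : ZMod 2} (h : a + b = 0) : a = b := by
  have h1 : ∀ a b : ZMod 2, a + b = 0 → a = b := by decide
  exact h1 a b h

private theorem A4C3_add_self (x : LC J) : x + x = 0 := by
  refine Finsupp.ext fun L => ?_
  have h1 : ∀ a : ZMod 2, a + a = 0 := by decide
  exact h1 (x L)

private theorem A4C3_app_apply (R : List (NE J)) (b : LC J) (Q : List (NE J)) :
    app R b (Q ++ R) = b Q := by
  show Finsupp.mapDomain (fun Q : List (NE J) => Q ++ R) b (Q ++ R) = b Q
  exact Finsupp.mapDomain_apply (A4C3_inj R) b Q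

private theorem A4C3_app_ne {R : List (NE J)} {b : LC J} {L : List (NE J)} (h : app R b L ≠ 0) :
    ∃ Q, L = Q ++ R ∧ b Q ≠ 0 := by
  by_cases hL : ∃ Q, L = Q ++ R
  · obtain ⟨Q, rfl⟩ := hL
    rw [A4C3_app_apply] at h
    exact ⟨Q, rfl, h⟩
  · exfalso
    apply h
    show Finsupp.mapDomain (fun Q : List (NE J) => Q ++ R) b L = 0
    apply Finsupp.mapDomain_of_notMem_range
    rintro ⟨Q, hQ⟩
    exact hL ⟨Q, hQ.symm⟩

/-- the differential and appending `{i}^m` -/
private theorem A4C3_dlL_app (i : J) (m : ℕ) (b : LC J) (hb : ∀ Q, b Q ≠ 0 → i ∉ ty Q)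
    (P : List (NE J)) : dlL (app (List.replicate m (sgc i)) b) (P ++ List.replicate m (sgc i)) =
      dlL b P := by
  have h1 : dlL (app (List.replicate m (sgc i)) b) =
      Finsupp.linearCombination (ZMod 2) (dlc ∘ fun Q : List (NE J) =>
        Q ++ List.replicate m (sgc i)) b := by
    rw [dlL, app, Finsupp.lmapDomain_apply, Finsupp.linearCombination_mapDomain]
  rw [h1, Finsupp.linearCombination_apply, Finsupp.sum, Finsupp.finsetSum_apply,
    A4C3_dlL_apply]
  refine Finset.sum_congr rfl fun Q hQ => ?_
  show b Q * dlc (Q ++ List.replicate m (sgc i)) (P ++ List.replicate m (sgc i)) = _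
  rw [dl_unmatched_a i m Q P (hb Q (Finsupp.mem_support_iff.1 hQ))]

/-- the coefficients at lists ending with `{i}^m` -/
private theorem A4C3_dlL_com (i : J) (m : ℕ) (x : LC J) (hx : ∀ L, x L ≠ 0 → (ty L).count i = m)
    (P : List (NE J)) :
    dlL (Finsupp.comapDomain (fun Q => Q ++ List.replicate m (sgc i)) x
      ((A4C3_inj _).injOn)) P = dlL x (P ++ List.replicate m (sgc i)) := by
  rw [A4C3_dlL_apply, A4C3_dlL_apply]
  have h1 := Finset.sum_preimage (fun Q : List (NE J) => Q ++ List.replicate m (sgc i)) x.support
    ((A4C3_inj _).injOn) (fun L => x L * dlc L (P ++ List.replicate m (sgc i))) (by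
      intro L hL hr
      rw [dl_unmatched_b i m L P (hx L (Finsupp.mem_support_iff.1 hL)), mul_zero]
      rintro ⟨Q, hQ⟩
      exact hr ⟨Q, hQ.symm⟩)
  rw [← h1]
  refine Finset.sum_congr rfl fun Q hQ => ?_
  have hQ' : x (Q ++ List.replicate m (sgc i)) ≠ 0 := by
    rw [Finset.mem_preimage] at hQ
    exact Finsupp.mem_support_iff.1 hQ
  rw [Finsupp.comapDomain_apply]
  show x (Q ++ List.replicate m (sgc i)) * dlc Q P = x (Q ++ List.replicate m (sgc i)) *
    dlc (Q ++ List.replicate m (sgc i)) (P ++ List.replicate m (sgc i))
  rw [dl_unmatched_a i m Q P]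
  have h2 := hx _ hQ'
  rw [ty_append, A4C3_ty_rep, Multiset.count_add, Multiset.count_replicate_self] at h2
  rw [← Multiset.count_eq_zero]
  omega

/-- exactness below the top length -/
theorem bar_exact (e : Multiset J) (k : ℕ) (hk : k < Multiset.card e) (x : LC J)
    (hx : InC e k x) (hd : dlL x = 0) : ∃ y, InC e (k + 1) y ∧ dlL y = x := by
  induction hn : Multiset.card e using Nat.strong_induction_on generalizing e k x with
  | _ n ih =>
  obtain ⟨i, hi⟩ : ∃ i, i ∈ e := by
    apply Multiset.exists_mem_of_ne_zero
    rintro rfl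
    simp at hk
  set m := e.count i with hm
  have hm1 : 1 ≤ m := Multiset.one_le_count_iff_mem.2 hi
  set R : List (NE J) := List.replicate m (sgc i) with hR
  set e' : Multiset J := e.filter (fun j => ¬ i = j) with he'
  have hee : Multiset.replicate m i + e' = e := by
    have h1 := Multiset.filter_add_not (fun j => i = j) e
    rw [Multiset.filter_eq] at h1
    exact h1
  have hcard : m + Multiset.card e' = Multiset.card e := by
    rw [← hee, Multiset.card_add, Multiset.card_replicate]
  have hie' : i ∉ e' := by
    intro h
    exact (Multiset.mem_filter.1 h).2 rfl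
  have htyR : ty R = Multiset.replicate m i := A4C3_ty_rep i m
  -- the part of `x` ending with `{i}^m`
  let a : LC J := Finsupp.comapDomain (fun Q => Q ++ R) x ((A4C3_inj R).injOn)
  have ha_apply : ∀ Q, a Q = x (Q ++ R) := fun Q => rfl
  have ha_ty : ∀ Q, a Q ≠ 0 → ty Q = e' ∧ Q.length + m = k := by
    intro Q hQ
    obtain ⟨h1, h2⟩ := hx _ (ha_apply Q ▸ hQ)
    constructor
    · rw [ty_append, htyR, ← hee, add_comm] at h1
      exact add_left_cancel h1
    · rw [List.length_append, hR, List.length_replicate] at h2
      exact h2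
  have ha_d : dlL a = 0 := by
    refine Finsupp.ext fun P => ?_
    have h1 := A4C3_dlL_com i m x (fun L hL => by rw [(hx L hL).1]) P
    have h2 : dlL a P = dlL x (P ++ R) := h1
    rw [h2, hd]
    rfl
  obtain ⟨b, hb1, hb2⟩ : ∃ b : LC J, (∀ Q, b Q ≠ 0 → ty Q = e' ∧ Q.length + m = k + 1) ∧
      dlL b = a := by
    by_cases hkm : m ≤ k
    · obtain ⟨b, hb, hb'⟩ := ih (Multiset.card e') (by omega) e' (k - m) (by omega) a
        (fun Q hQ => ⟨(ha_ty Q hQ).1, by have := (ha_ty Q hQ).2; omega⟩) ha_d rfl
      refine ⟨b, fun Q hQ => ⟨(hb Q hQ).1, ?_⟩, hb'⟩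
      have := (hb Q hQ).2
      omega
    · refine ⟨0, fun Q hQ => absurd rfl hQ, ?_⟩
      rw [map_zero]
      refine (Finsupp.ext fun Q => ?_)
      by_contra hQ
      have := (ha_ty Q (fun h => hQ h.symm)).2
      omega
  have happ : InC e (k + 1) (app R b) := by
    intro L hL
    obtain ⟨Q, rfl, hQ⟩ := A4C3_app_ne hL
    obtain ⟨h1, h2⟩ := hb1 Q hQ
    constructor
    · rw [ty_append, h1, htyR, add_comm]
      exact hee
    · rw [List.length_append, hR, List.length_replicate]
      exact h2
  have hx' : InC e k (x + dlL (app R b)) := by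
    intro L hL
    by_cases h1 : x L = 0
    · rw [Finsupp.add_apply, h1, zero_add] at hL
      exact InC.dlL happ L hL
    · exact hx L h1
  have hdx' : dlL (x + dlL (app R b)) = 0 := by
    rw [map_add, hd, dlL_dlL, add_zero]
  have hmt : ∀ L, (x + dlL (app R b)) L ≠ 0 → Mt i m L := by
    rintro L hL ⟨Q, rfl⟩
    apply hL
    rw [Finsupp.add_apply]
    have h1 : dlL (app R b) (Q ++ List.replicate m (sgc i)) = dlL b Q :=
      A4C3_dlL_app i m b (fun Q hQ => by rw [(hb1 Q hQ).1]; exact hie') Q
    rw [h1, hb2, ha_apply]
    have h2 : ∀ a : ZMod 2, a + a = 0 := by decide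
    exact h2 _
  obtain ⟨y, hy1, -, hy2⟩ := matched_acyclic i e m hm1 hm.symm k _ hx' hmt hdx'
  refine ⟨app R b + y, ?_, ?_⟩
  · intro L hL
    by_cases h1 : app R b L = 0
    · rw [Finsupp.add_apply, h1, zero_add] at hL
      exact hy1 L hL
    · exact happ L h1
  · rw [map_add, hy2, add_comm x, ← add_assoc, A4C3_add_self, zero_add]

/-- lists of maximal length consist of singletons -/
private theorem A4C3_sing (L : List (NE J)) (h : L.length = Multiset.card (ty L)) :
    ∃ l : List J, L = l.map sgc := by
  induction L with
  | nil => exact ⟨[], rfl⟩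
  | cons D L ih =>
    rw [ty_cons, Multiset.card_add, List.length_cons] at h
    have h1 := length_le_ty L
    have h2 : 1 ≤ Multiset.card D.1.val := Finset.card_pos.2 D.2
    obtain ⟨l, rfl⟩ := ih (by omega)
    have h3 : D.1.card = 1 := by
      show Multiset.card D.1.val = 1
      omega
    obtain ⟨i, hi⟩ := Finset.card_eq_one.1 h3
    exact ⟨i :: l, by rw [List.map_cons]; congr 1; exact Subtype.ext hi⟩

private theorem A4C3_sg_inj : Function.Injective (sgc : J → NE J) := by
  intro i j h
  exact Finset.singleton_injective (congrArg Subtype.val h)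

/-- the position of the only set with two elements -/
private theorem A4C3_pos {D E : NE J} (hD : 2 ≤ D.1.card) (hE : 2 ≤ E.1.card) :
    ∀ a b a' b' : List J, a.map sgc ++ D :: b.map sgc = a'.map sgc ++ E :: b'.map sgc →
      a = a' ∧ D = E ∧ b = b' := by
  intro a
  induction a with
  | nil =>
    intro b a' b' h
    cases a' with
    | nil =>
      simp only [List.map_nil, List.nil_append, List.cons.injEq] at h
      exact ⟨rfl, h.1, List.map_injective_iff.2 A4C3_sg_inj h.2⟩
    | cons i a' =>
      simp only [List.map_nil, List.nil_append, List.map_cons, List.cons_append,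
        List.cons.injEq] at h
      exfalso
      rw [h.1] at hD
      change 2 ≤ ({i} : Finset J).card at hD
      rw [Finset.card_singleton] at hD
      omega
  | cons j a ih =>
    intro b a' b' h
    cases a' with
    | nil =>
      simp only [List.map_nil, List.nil_append, List.map_cons, List.cons_append,
        List.cons.injEq] at h
      exfalso
      rw [← h.1] at hE
      change 2 ≤ ({j} : Finset J).card at hE
      rw [Finset.card_singleton] at hE
      omega
    | cons i a' =>
      simp only [List.map_cons, List.cons_append, List.cons.injEq] at h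
      obtain ⟨h1, h2, h3⟩ := ih b a' b' h.2
      exact ⟨by rw [A4C3_sg_inj h.1, h1], h2, h3⟩

private theorem A4C3_swap (e : Multiset J) (x : LC J) (hx : InC e (Multiset.card e) x)
    (hd : dlL x = 0) (a b : List J) (i j : J) :
    x (a.map sgc ++ sgc i :: sgc j :: b.map sgc) = x (a.map sgc ++ sgc j :: sgc i :: b.map sgc) := by
  by_cases hij : i = j
  · rw [hij]
  have hdis : ∀ {i j : J}, i ≠ j → Disjoint (sgc i).1 (sgc j).1 := fun h =>
    Finset.disjoint_singleton.2 h
  have hcard : ∀ {i j : J}, i ≠ j → 2 ≤ ((sgc i).un (sgc j)).1.card := fun {i j} h => by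
    show 2 ≤ ({i} ∪ {j} : Finset J).card
    rw [Finset.card_union_of_disjoint (Finset.disjoint_singleton.2 h)]
    simp
  have hun : (sgc j).un (sgc i) = (sgc i).un (sgc j) := Subtype.ext (Finset.union_comm _ _)
  have h0 : dlL x (a.map sgc ++ (sgc i).un (sgc j) :: b.map sgc) = 0 := by
    rw [hd]
    rfl
  rw [A4C3_dlL_apply] at h0
  set L1 := a.map sgc ++ sgc i :: sgc j :: b.map sgc with hL1
  set L2 := a.map sgc ++ sgc j :: sgc i :: b.map sgc with hL2
  set P := a.map sgc ++ (sgc i).un (sgc j) :: b.map sgc with hP
  have hne : L1 ≠ L2 := by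
    intro h
    rw [hL1, hL2] at h
    have h1 := List.append_cancel_left h
    rw [List.cons.injEq] at h1
    exact hij (A4C3_sg_inj h1.1)
  have hd1 : dlc L1 P = 1 := A4C3_dl_merge _ _ _ _ (hdis hij)
  have hd2 : dlc L2 P = 1 := by
    rw [hP, ← hun]
    exact A4C3_dl_merge _ _ _ _ (hdis (Ne.symm hij))
  have h1 : ∑ L ∈ x.support, x L * dlc L P = ∑ L ∈ ({L1, L2} : Finset (List (NE J))),
      x L * dlc L P := by
    have h2 : ∀ L, x L * dlc L P ≠ 0 → L = L1 ∨ L = L2 := by
      intro L hL
      have hxL : x L ≠ 0 := fun h => hL (by rw [h, zero_mul])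
      have hdL : dlc L P ≠ 0 := fun h => hL (by rw [h, mul_zero])
      obtain ⟨A, D, E, B, hLe, hDE, hPe⟩ := dl_terms_exists hdL
      obtain ⟨ht, hl⟩ := hx L hxL
      obtain ⟨l, hl'⟩ := A4C3_sing L (by rw [ht]; exact hl)
      rw [hLe] at hl'
      obtain ⟨l1, l2, -, hA, hB1⟩ := List.append_eq_map_iff.1 hl'
      obtain ⟨u, l3, -, hu, hB2⟩ := List.map_eq_cons_iff.1 hB1
      obtain ⟨v, l4, -, hv, hB⟩ := List.map_eq_cons_iff.1 hB2
      have huv : u ≠ v := by
        intro h
        rw [← hu, ← hv, h] at hDE
        exact (Finset.not_disjoint_iff.2 ⟨v, Finset.mem_singleton_self v,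
          Finset.mem_singleton_self v⟩) hDE
      rw [hP, ← hA, ← hB, ← hu, ← hv] at hPe
      obtain ⟨e1, e2, e3⟩ := A4C3_pos (hcard hij) (hcard huv) _ _ _ _ hPe
      have e4 : ({i, j} : Finset J) = {u, v} := congrArg Subtype.val e2
      have e5 : i = u ∨ i = v := by
        have : i ∈ ({u, v} : Finset J) := by rw [← e4]; simp
        simpa using this
      have e6 : j = u ∨ j = v := by
        have : j ∈ ({u, v} : Finset J) := by rw [← e4]; simp
        simpa using this
      rw [hLe, ← hA, ← hB, ← hu, ← hv, ← e1, ← e3]
      rcases e5 with rfl | rfl <;> rcases e6 with rfl | rfl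
      · exact absurd rfl hij
      · exact Or.inl rfl
      · exact Or.inr rfl
      · exact absurd rfl hij
    have h3 : ∑ L ∈ x.support, x L * dlc L P = ∑ L ∈ x.support ∪ {L1, L2}, x L * dlc L P := by
      refine Finset.sum_subset Finset.subset_union_left fun L _ hL => ?_
      rw [Finsupp.notMem_support_iff.1 hL, zero_mul]
    rw [h3]
    refine (Finset.sum_subset Finset.subset_union_right fun L _ hL => ?_).symm
    by_contra h
    rcases h2 L h with rfl | rfl
    · exact hL (by simp)
    · exact hL (by simp)
  rw [h1, Finset.sum_pair hne, hd1, hd2, mul_one, mul_one] at h0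
  exact A4C3_z2 h0

private theorem A4C3_perm (e : Multiset J) (x : LC J) (hx : InC e (Multiset.card e) x)
    (hd : dlL x = 0) {l l' : List J} (h : l.Perm l') :
    ∀ a : List J, x (a.map sgc ++ l.map sgc) = x (a.map sgc ++ l'.map sgc) := by
  induction h with
  | nil => intro a; rfl
  | cons i _ ih =>
    intro a
    have h1 := ih (a ++ [i])
    simpa only [List.map_append, List.map_cons, List.map_nil, List.append_assoc,
      List.cons_append, List.nil_append] using h1
  | swap i j l =>
    intro a
    exact A4C3_swap e x hx hd a l j i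
  | trans _ _ ih1 ih2 =>
    intro a
    rw [ih1, ih2]

theorem bar_top (e : Multiset J) (x : LC J) (hx : InC e (Multiset.card e) x) (hd : dlL x = 0)
    (L L' : List (NE J)) (hL : ty L = e) (hL' : ty L' = e) (h1 : L.length = Multiset.card e)
    (h2 : L'.length = Multiset.card e) : x L = x L' := by
  obtain ⟨l, rfl⟩ := A4C3_sing L (by rw [hL]; exact h1)
  obtain ⟨l', rfl⟩ := A4C3_sing L' (by rw [hL']; exact h2)
  have h3 : l.Perm l' := by
    rw [A4C3_ty_map] at hL hL'
    exact Multiset.coe_eq_coe.1 (hL.trans hL'.symm)
  exact A4C3_perm e x hx hd h3 []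

/-- the sum of all lists of singletons of type `e` -/
noncomputable def zet (e : Multiset J) : LC J := by
  classical
  exact ∑ L ∈ (e.toList.permutations.map (fun l : List J => l.map sgc)).toFinset, Finsupp.single L 1

theorem zet_apply (e : Multiset J) (L : List (NE J)) :
    zet e L = open Classical in if ty L = e ∧ L.length = Multiset.card e then 1 else 0 := by
  classical
  have h1 : zet e L = if L ∈ (e.toList.permutations.map
      (fun l : List J => l.map sgc)).toFinset then 1 else 0 := by
    rw [zet, Finsupp.finsetSum_apply]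
    simp only [Finsupp.single_apply]
    rw [Finset.sum_ite_eq']
  rw [h1]
  refine if_congr ?_ rfl rfl
  rw [List.mem_toFinset, List.mem_map]
  constructor
  · rintro ⟨l, hl, rfl⟩
    rw [List.mem_permutations] at hl
    have h2 : (l : Multiset J) = e := by
      rw [← Multiset.coe_toList e]
      exact Multiset.coe_eq_coe.2 hl
    refine ⟨by rw [A4C3_ty_map]; exact h2, ?_⟩
    rw [List.length_map, ← h2]
    rfl
  · rintro ⟨h2, h3⟩
    obtain ⟨l, rfl⟩ := A4C3_sing L (by rw [h2]; exact h3)
    refine ⟨l, ?_, rfl⟩
    rw [List.mem_permutations]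
    rw [A4C3_ty_map] at h2
    apply Multiset.coe_eq_coe.1
    rw [Multiset.coe_toList]
    exact h2

theorem bar_span (e : Multiset J) (x : LC J) (hx : InC e (Multiset.card e) x) (hd : dlL x = 0) :
    ∃ r : ZMod 2, x = r • zet e := by
  have h0 : ty (e.toList.map sgc) = e := by
    rw [A4C3_ty_map, Multiset.coe_toList]
  have h0' : (e.toList.map sgc).length = Multiset.card e := by
    rw [List.length_map, Multiset.length_toList]
  refine ⟨x (e.toList.map sgc), Finsupp.ext fun L => ?_⟩
  rw [Finsupp.smul_apply, zet_apply, smul_eq_mul]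
  split_ifs with h
  · rw [mul_one]
    exact bar_top e x hx hd L _ h.1 h0 h.2 h0'
  · rw [mul_zero]
    by_contra h'
    exact h (hx L h')

end MM

end
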