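import Pool.Agent.Lib_MP_33f7bb_m.G02
import Pool.Agent.Lib_MP_33f7bb_m.G03
import Pool.Agent.Lib_MP_33f7bb_m.G14

/-!
# MP_33f7bb_an, negative answer to Q1: merged library part G15

Concatenation of files of `Lib_MP_33f7bb_an` and `Lib_MP_33f7bb_d` (each in its own section), only to save build time.
-/

/-! ### from `Lib_MP_33f7bb_d.A008` -/

section

/-!
# A0-08: homotopy classes of maps into a simplicial vector space are determined by homology

`htp_rel`: extend the map on `∂Δ^1 × Z ∪ Δ^1 × A` (given by `f`, `g` at the two ends, by `f ∘ pr` on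
`Δ^1 × A`) with `extP_sv_gen`.  Condition: let `z` be a chain of `Δ^1 × Z` of degree `n + 1` with `dif z`
supported in the subcomplex.  Write `dif z = c_0 + c_1 + c_A`, `c_ε` supported on `{ε} × Z`, i.e.
`c_ε = (cst ε) × b_ε`, and `c_A` supported in `Δ^1 × A`.  Projecting to `Z`: `dif (pr z) = b_0 + b_1 +
pr c_A`.  Then `b_0` and `b_1` are relative cycles mod `A` and the value to be shown to be a boundary is
`f(b_0) + g(b_1) + f(pr c_A) = f(b_0) + f(b_1) + f (pr c_A) + (f(b_1) + g(b_1)) = f(dif (pr z)) +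
(f(b_1) + g(b_1))`, a boundary by hypothesis for the relative cycle `b_1`.
(`b_1` is a relative cycle: `dif c_1` is supported in the part of `Δ^1 × A` because `dif dif z = 0`.
Careful with simplices in several parts: decompose the support of `dif z` as: first coordinate `cst 0`,
first coordinate `cst 1`, rest; the rest lies in `Δ^1 × A`.)
`htp_iff`: `←` is the case `A = ⊥` (relative cycles mod `⊥` of degree `n ≥ 1` are cycles), `→` is the
prism formula (`A010`).
-/

namespace MM

/-- the map on `∂Δ^1 × Z ∪ Δ^1 × A` -/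
private noncomputable def A008_F (W : SV) {Z : SS} (f g : Hom Z W.ss) :
    Fn ((Del 1).prod Z) W.ss := by
  classical
  exact fun n x => if x.1 = (cst 1 : Mo n 1) then g.app n x.2 else f.app n x.2

private theorem A008_F_one (W : SV) {Z : SS} (f g : Hom Z W.ss) {n : ℕ}
    {x : ((Del 1).prod Z).S n} (h : x.1 = (cst 1 : Mo n 1)) : A008_F W f g n x = g.app n x.2 := by
  unfold A008_F
  exact if_pos h

private theorem A008_F_ne (W : SV) {Z : SS} (f g : Hom Z W.ss) {n : ℕ}
    {x : ((Del 1).prod Z).S n} (h : x.1 ≠ (cst 1 : Mo n 1)) : A008_F W f g n x = f.app n x.2 := by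
  unfold A008_F
  exact if_neg h

private theorem A008_cst_ne {n : ℕ} : (cst 0 : Mo n 1) ≠ cst 1 := by
  intro h
  have h1 := DFunLike.congr_fun h (0 : Fin (n + 1))
  have h2 : (0 : Fin 2) = 1 := h1
  exact absurd h2 (by decide)

/-- non surjective maps to `[1]` are constant -/
private theorem A008_bd {n : ℕ} {a : Mo n 1} (h : a ∈ (bd 1).car n) (h1 : a ≠ cst 1) :
    a = cst 0 := by
  have h2 : ¬ Function.Surjective a := h
  by_contra h0
  apply h2
  have e0 : ∃ i, a i ≠ 1 := by
    by_contra hh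
    push Not at hh
    exact h1 (OrderHom.ext _ _ (funext fun i => hh i))
  have e1 : ∃ i, a i ≠ 0 := by
    by_contra hh
    push Not at hh
    exact h0 (OrderHom.ext _ _ (funext fun i => hh i))
  obtain ⟨i, hi⟩ := e0
  obtain ⟨j, hj⟩ := e1
  intro y
  have hy : y = 0 ∨ y = 1 := by
    have : ∀ y : Fin 2, y = 0 ∨ y = 1 := by decide
    exact this y
  rcases hy with rfl | rfl
  · refine ⟨i, ?_⟩
    have : ∀ y : Fin 2, y ≠ 1 → y = 0 := by decide
    exact this _ hi
  · refine ⟨j, ?_⟩
    have : ∀ y : Fin 2, y ≠ 0 → y = 1 := by decide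
    exact this _ hj

private theorem A008_cst_bd {n : ℕ} (i : Fin 2) : (cst i : Mo n 1) ∈ (bd 1).car n := by
  intro h
  obtain ⟨a, ha⟩ := h 0
  obtain ⟨b, hb⟩ := h 1
  have h1 : i = 0 := ha
  have h2 : i = 1 := hb
  rw [h1] at h2
  exact absurd h2 (by decide)

/-- simplicial maps commute with the boundary -/
private theorem A008_dif_map {P Q : SS} (φ : Hom P Q) {n : ℕ} (z : Ch P (n + 1)) :
    dif (z.mapDomain (φ.app (n + 1))) = (dif z).mapDomain (φ.app n) := by
  unfold dif
  rw [Finsupp.mapDomain_finsetSum]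
  refine Finset.sum_congr rfl fun i _ => ?_
  rw [← Finsupp.mapDomain_comp, ← Finsupp.mapDomain_comp]
  congr 1
  funext x
  exact (φ.nat (dlt i) x).symm

/-- the part with first coordinate `cst 1`, projected -/
private noncomputable def A008_b {Z : SS} {n : ℕ} (c : Ch ((Del 1).prod Z) n) :
    Ch ((Del 1).prod Z) n := by
  classical
  exact c.filter (fun x => x.1 = (cst 1 : Mo n 1))

private theorem A008_b_add {Z : SS} {n : ℕ} (c c' : Ch ((Del 1).prod Z) n) :
    A008_b (c + c') = A008_b c + A008_b c' := by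
  unfold A008_b
  exact Finsupp.filter_add

private theorem A008_b_zero {Z : SS} {n : ℕ} :
    A008_b (0 : Ch ((Del 1).prod Z) n) = 0 := by
  unfold A008_b
  exact Finsupp.filter_zero _

private theorem A008_b_single {Z : SS} {n : ℕ} (x : ((Del 1).prod Z).S n) (r : ZMod 2) :
    (x.1 = (cst 1 : Mo n 1) → A008_b (Finsupp.single x r) = Finsupp.single x r) ∧
    (x.1 ≠ (cst 1 : Mo n 1) → A008_b (Finsupp.single x r) = 0) := by
  unfold A008_b
  constructor
  · intro h
    exact Finsupp.filter_single_of_pos _ h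
  · intro h
    exact Finsupp.filter_single_of_neg _ h

private theorem A008_b_supp {Z : SS} {n : ℕ} (c : Ch ((Del 1).prod Z) n)
    {x : ((Del 1).prod Z).S n} (hx : x ∈ (A008_b c).support) :
    x ∈ c.support ∧ x.1 = (cst 1 : Mo n 1) := by
  unfold A008_b at hx
  rw [Finsupp.support_filter, Finset.mem_filter] at hx
  exact hx

private theorem A008_b_supp' {Z : SS} {n : ℕ} (c : Ch ((Del 1).prod Z) n)
    {x : ((Del 1).prod Z).S n} (hx : x ∈ (c + A008_b c).support) :
    x ∈ c.support ∧ x.1 ≠ (cst 1 : Mo n 1) := by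
  classical
  have h1 : x.1 ≠ (cst 1 : Mo n 1) := by
    intro h
    rw [Finsupp.mem_support_iff, Finsupp.add_apply] at hx
    apply hx
    have e : (A008_b c) x = c x := by
      unfold A008_b
      exact Finsupp.filter_apply_pos (fun x : ((Del 1).prod Z).S n => x.1 = (cst 1 : Mo n 1)) c h
    rw [e]
    exact two_eq_zero' (c x)
  refine ⟨?_, h1⟩
  rw [Finsupp.mem_support_iff, Finsupp.add_apply] at hx
  rw [Finsupp.mem_support_iff]
  intro h0
  apply hx
  have e : (A008_b c) x = 0 := by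
    unfold A008_b
    exact Finsupp.filter_apply_neg (fun x : ((Del 1).prod Z).S n => x.1 = (cst 1 : Mo n 1)) c h1
  rw [e, h0, add_zero]

private theorem A008_key (W : SV) {Z : SS} (f g : Hom Z W.ss) {n : ℕ}
    (c : Ch ((Del 1).prod Z) n) :
    linExt (A008_F W f g) n c = linExt f.app n (c.mapDomain Prod.snd) +
      (linExt f.app n ((A008_b c).mapDomain Prod.snd) +
        linExt g.app n ((A008_b c).mapDomain Prod.snd)) := by
  induction c using Finsupp.induction_linear with
  | zero => simp only [A008_b_zero, Finsupp.mapDomain_zero, map_zero, add_zero]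
  | add c c' h h' =>
    rw [A008_b_add, map_add, h, h', Finsupp.mapDomain_add, Finsupp.mapDomain_add, map_add, map_add,
      map_add]
    abel
  | single x r =>
    rw [linExt_single]
    by_cases hx : x.1 = (cst 1 : Mo n 1)
    · rw [(A008_b_single x r).1 hx, Finsupp.mapDomain_single, linExt_single, linExt_single,
        A008_F_one W f g hx, ← add_assoc, two_eq_zero', zero_add]
    · rw [(A008_b_single x r).2 hx, Finsupp.mapDomain_single, linExt_single,
        A008_F_ne W f g hx, Finsupp.mapDomain_zero, map_zero, map_zero, add_zero, add_zero]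

/-- the part over the vertex `1` -/
private def A008_S1 (Z : SS) : Sub ((Del 1).prod Z) :=
  ⟨fun n => {x | x.1 = (cst 1 : Mo n 1)}, fun {m n} u x h => by
    show (x.1 : Mo n 1).comp u = cst 1
    have h' : x.1 = (cst 1 : Mo n 1) := h
    rw [h']
    rfl⟩

private def A008_S0 {Z : SS} (A : Sub Z) : Sub ((Del 1).prod Z) :=
  ⟨fun n => {x | x.1 = (cst 0 : Mo n 1) ∨ x.2 ∈ A.car n}, fun {m n} u x h => by
    rcases h with h | h
    · left
      show (x.1 : Mo n 1).comp u = cst 0
      rw [h]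
      rfl
    · right
      exact A.closed u h⟩

private theorem A008_rel {Z : SS} (A : Sub Z) {n : ℕ} (z : Ch ((Del 1).prod Z) (n + 1))
    (hz : SuppIn (Sub.box (bd 1) ⊤ A ⊤) (dif z)) :
    RelCyc A ((A008_b (dif z)).mapDomain Prod.snd) := by
  classical
  cases n with
  | zero => trivial
  | succ n =>
    show SuppIn A (dif _)
    have h1 : SuppIn (A008_S1 Z) (A008_b (dif z)) := fun x hx => (A008_b_supp _ hx).2
    have h0 : SuppIn (A008_S0 A) (dif z + A008_b (dif z)) := by
      intro x hx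
      obtain ⟨h2, h3⟩ := A008_b_supp' _ hx
      rcases (hz x h2).2 with h4 | h4
      · exact Or.inl (A008_bd h4 h3)
      · exact Or.inr h4
    have h2 := h0.dif
    rw [dif_add, dif_dif, zero_add] at h2
    have h3 := h1.dif
    have e : dif ((A008_b (dif z)).mapDomain ((Hom.snd (Del 1) Z).app (n + 1))) =
        (dif (A008_b (dif z))).mapDomain ((Hom.snd (Del 1) Z).app n) :=
      A008_dif_map (Hom.snd (Del 1) Z) _
    have e' : dif ((A008_b (dif z)).mapDomain Prod.snd) =
        (dif (A008_b (dif z))).mapDomain Prod.snd := e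
    rw [e']
    intro y hy
    obtain ⟨x, hx, rfl⟩ := Finset.mem_image.1 (Finsupp.mapDomain_support hy)
    rcases h2 x hx with h4 | h4
    · exact absurd (h4.symm.trans (h3 x hx)) A008_cst_ne
    · exact h4

private theorem A008_nat_top {P : SS} {W : SV} (f : Hom P W.ss) :
    NatOn (⊤ : Sub P) f.app := fun u x _ => f.nat u x

theorem htp_rel (W : SV) {Z : SS} (A : Sub Z) (f g : Hom Z W.ss)
    (hA : ∀ n, ∀ x ∈ A.car n, f.app n x = g.app n x)
    (h : ∀ (n : ℕ) (z : Ch Z n), RelCyc A z → linExt f.app n z + linExt g.app n z ∈ W.B n) :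
    ∃ H : Hom ((Del 1).prod Z) W.ss, (∀ n x, H.app n (cst 0, x) = f.app n x) ∧
      (∀ n x, H.app n (cst 1, x) = g.app n x) ∧
      ∀ n a, ∀ x ∈ A.car n, H.app n (a, x) = f.app n x := by
  have hnat : NatOn (Sub.box (bd 1) ⊤ A ⊤) (A008_F W f g) := by
    intro m n u x hx
    by_cases h1 : x.1 = (cst 1 : Mo n 1)
    · have h1' : (((Del 1).prod Z).act u x).1 = (cst 1 : Mo m 1) := by
        show (x.1 : Mo n 1).comp u = cst 1
        rw [h1]
        rfl
      rw [A008_F_one W f g h1, A008_F_one W f g h1']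
      exact g.nat u x.2
    · rw [A008_F_ne W f g h1]
      by_cases h2 : x.2 ∈ A.car n
      · by_cases h3 : (((Del 1).prod Z).act u x).1 = (cst 1 : Mo m 1)
        · rw [A008_F_one W f g h3]
          show g.app m (Z.act u x.2) = _
          rw [← hA m _ (A.closed u h2)]
          exact f.nat u x.2
        · rw [A008_F_ne W f g h3]
          exact f.nat u x.2
      · have h4 : x.1 = (cst 0 : Mo n 1) := by
          rcases hx.2 with h5 | h5
          · exact A008_bd h5 h1
          · exact absurd h5 h2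
        have h3 : (((Del 1).prod Z).act u x).1 ≠ (cst 1 : Mo m 1) := by
          have h6 : (((Del 1).prod Z).act u x).1 = (cst 0 : Mo m 1) := by
            show (x.1 : Mo n 1).comp u = cst 0
            rw [h4]
            rfl
          rw [h6]
          exact A008_cst_ne
        rw [A008_F_ne W f g h3]
        exact f.nat u x.2
  obtain ⟨G, hG, hG'⟩ := extP_sv_gen W (A := Sub.box (bd 1) ⊤ A ⊤) (C := ⊤) (Sub.le_top' _)
    (A008_F W f g) hnat (by
      intro n z _ hz
      rw [A008_key]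
      refine Submodule.add_mem _ ?_ (h n _ (A008_rel A z hz))
      have e : (dif z).mapDomain Prod.snd = dif (z.mapDomain ((Hom.snd (Del 1) Z).app (n + 1))) :=
        (A008_dif_map (Hom.snd (Del 1) Z) z).symm
      rw [e, linExt_dif (A008_nat_top f) (SuppIn.top _)]
      exact ⟨_, rfl⟩)
  refine ⟨⟨G, fun u x => hG u x trivial⟩, ?_, ?_, ?_⟩
  · intro n x
    show G n (cst 0, x) = _
    rw [hG' n _ ⟨⟨trivial, trivial⟩, Or.inl (A008_cst_bd 0)⟩]
    exact A008_F_ne W f g A008_cst_ne
  · intro n x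
    show G n (cst 1, x) = _
    rw [hG' n _ ⟨⟨trivial, trivial⟩, Or.inl (A008_cst_bd 1)⟩]
    exact A008_F_one W f g rfl
  · intro n a x hx
    show G n (a, x) = _
    rw [hG' n _ ⟨⟨trivial, trivial⟩, Or.inr hx⟩]
    by_cases ha : a = (cst 1 : Mo n 1)
    · rw [A008_F_one W f g ha]
      exact (hA n x hx).symm
    · exact A008_F_ne W f g ha

/-- evaluation of chains in the underlying simplicial set -/
private theorem A008_ev (W : SV) {Z : SS} (f : Fn Z W.ss) (n : ℕ) (z : Ch Z n) :
    linExt (P := W.ss) (W := W) (fun _ x => x) n (z.mapDomain (f n)) = linExt f n z := by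
  unfold linExt
  exact Finsupp.linearCombination_mapDomain (ZMod 2) (f n) z

theorem htp_iff (W : SV) {Z : SS} (f g : Hom Z W.ss) :
    Htp f g ↔ ∀ (n : ℕ) (z : Ch Z n), z ∈ (lin Z).Z n →
      linExt f.app n z + linExt g.app n z ∈ W.B n := by
  constructor
  · rintro ⟨H, h0, h1⟩ n z hz
    obtain ⟨T, hT0, hT, -⟩ := prism H
    have e0 : ∀ n, (fun x => H.app n (cst 0, x)) = f.app n := fun n => funext fun x => h0 n x
    have e1 : ∀ n, (fun x => H.app n (cst 1, x)) = g.app n := fun n => funext fun x => h1 n x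
    have hnat : NatOn (⊤ : Sub W.ss) (fun _ x => x : Fn W.ss W.ss) := fun _ _ _ => rfl
    have key : ∀ y : Ch W.ss (n + 1), dif y = z.mapDomain (f.app n) + z.mapDomain (g.app n) →
        linExt f.app n z + linExt g.app n z ∈ W.B n := by
      intro y hy
      rw [← A008_ev W f.app n z, ← A008_ev W g.app n z, ← map_add, ← hy,
        linExt_dif hnat (SuppIn.top y)]
      exact ⟨_, rfl⟩
    cases n with
    | zero =>
      refine key (T 0 z) ?_
      rw [hT0 z, e0, e1]
    | succ n =>
      refine key (T (n + 1) z) ?_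
      have hz' : dif z = 0 := by
        rw [← lin_d]
        exact hz
      rw [hT n z, e0, e1, hz', map_zero, add_zero]
  · intro h
    obtain ⟨H, h0, h1, -⟩ := htp_rel W (⊥ : Sub Z) f g (fun n x hx => hx.elim) (by
      intro n z hz
      apply h
      cases n with
      | zero => trivial
      | succ n =>
        show z ∈ LinearMap.ker ((lin Z).d n)
        rw [LinearMap.mem_ker, lin_d]
        have hz' : SuppIn (⊥ : Sub Z) (dif z) := hz
        ext x
        by_contra hx
        exact hz' x (Finsupp.mem_support_iff.2 hx))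
    exact ⟨H, h0, h1⟩

end MM

end

/-! ### from `Lib_MP_33f7bb_d.A4Def` -/

section

/-!
# A4Def: the unstable modules `E(n)`

`E(n)` is the space of symmetric polynomials in `x_1, …, x_n` over `ZMod 2` which are sums of monomials
`∏ x_i ^ (2 ^ (b i))`.  We represent the monomial by the function `b : Fin n → ℕ` and a polynomial by a
finitely supported function `c : (Fin n → ℕ) →₀ ZMod 2`.  The total square is `b ↦ ∑_ε (b + ε)`,
`ε : Fin n → Fin 2`.
-/

namespace MM

/-- weight `∑ 2 ^ (b i)`: the degree of the monomial `∏ x_i ^ (2 ^ (b i))` -/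
def wt {n : ℕ} (b : Fin n → ℕ) : ℕ := ∑ i, 2 ^ b i

/-- polynomials in the monomials `∏ x_i ^ (2 ^ (b i))` -/
abbrev Mon (n : ℕ) := (Fin n → ℕ) →₀ ZMod 2

/-- component of weight `m` -/
noncomputable def wtc {n : ℕ} (m : ℕ) : Mon n →ₗ[ZMod 2] Mon n :=
  { toFun := fun c => c.filter (fun b => wt b = m)
    map_add' := fun _ _ => Finsupp.filter_add
    map_smul' := fun _ _ => Finsupp.filter_smul }

/-- total square: `∏ x_i^(2^(b i)) ↦ ∏ (x_i^(2^(b i)) + x_i^(2^(b i + 1)))` -/
noncomputable def Sqt {n : ℕ} : Mon n →ₗ[ZMod 2] Mon n :=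
  ∑ ε : Fin n → Fin 2, Finsupp.lmapDomain (ZMod 2) (ZMod 2) (fun b i => b i + (ε i : ℕ))

/-- homogeneous elements of degree `d` of `E(n)`: symmetric, of weight `d` -/
def EE (n d : ℕ) : Submodule (ZMod 2) (Mon n) where
  carrier := {c | (∀ b, c b ≠ 0 → wt b = d) ∧ ∀ (σ : Equiv.Perm (Fin n)) (b : Fin n → ℕ),
    c (b ∘ σ) = c b}
  add_mem' := by
    rintro c c' ⟨h1, h2⟩ ⟨h1', h2'⟩
    refine ⟨fun b hb => ?_, fun σ b => by simp [h2, h2']⟩
    by_cases h : c b = 0
    · exact h1' b fun h' => hb (by simp [h, h'])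
    · exact h1 b h
  zero_mem' := ⟨fun b hb => absurd rfl hb, fun _ _ => rfl⟩
  smul_mem' := by
    rintro r c ⟨h1, h2⟩
    refine ⟨fun b hb => h1 b fun h => hb (by simp [h]), fun σ b => by simp [h2]⟩

theorem wt_comp {n : ℕ} (b : Fin n → ℕ) (σ : Equiv.Perm (Fin n)) : wt (b ∘ σ) = wt b :=
  Equiv.sum_comp σ fun i => 2 ^ b i

theorem wt_add_ge {n : ℕ} (b : Fin n → ℕ) (ε : Fin n → Fin 2) :
    wt b ≤ wt (fun i => b i + (ε i : ℕ)) :=
  Finset.sum_le_sum fun _ _ => Nat.pow_le_pow_right (by norm_num) (Nat.le_add_right _ _)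

theorem wt_add_le {n : ℕ} (b : Fin n → ℕ) (ε : Fin n → Fin 2) :
    wt (fun i => b i + (ε i : ℕ)) ≤ 2 * wt b := by
  unfold wt
  rw [Finset.mul_sum]
  refine Finset.sum_le_sum fun i _ => ?_
  have h : (ε i : ℕ) ≤ 1 := by omega
  calc 2 ^ (b i + (ε i : ℕ)) ≤ 2 ^ (b i + 1) := Nat.pow_le_pow_right (by norm_num) (by omega)
    _ = 2 * 2 ^ b i := by ring

theorem wt_add_eq {n : ℕ} {b : Fin n → ℕ} {ε : Fin n → Fin 2}
    (h : wt (fun i => b i + (ε i : ℕ)) = wt b) : ε = 0 := by
  funext i
  by_contra hi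
  have h1 : wt b < wt (fun i => b i + (ε i : ℕ)) := by
    refine Finset.sum_lt_sum (fun _ _ => Nat.pow_le_pow_right (by norm_num) (Nat.le_add_right _ _))
      ⟨i, Finset.mem_univ _, ?_⟩
    have h2 : (ε i : ℕ) ≠ 0 := fun h => hi (Fin.ext h)
    exact Nat.pow_lt_pow_right (by norm_num) (show b i < b i + (ε i : ℕ) by omega)
  omega

theorem Sqt_single {n : ℕ} (b : Fin n → ℕ) (r : ZMod 2) :
    Sqt (Finsupp.single b r) =
      ∑ ε : Fin n → Fin 2, Finsupp.single (fun i => b i + (ε i : ℕ)) r := by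
  simp [Sqt, LinearMap.sum_apply, Finsupp.lmapDomain_apply, Finsupp.mapDomain_single]

theorem Sqt_apply_eq {n : ℕ} (c : Mon n) (b : Fin n → ℕ) :
    Sqt c b = ∑ ε : Fin n → Fin 2, if ∀ i, (ε i : ℕ) ≤ b i then c (fun i => b i - (ε i : ℕ)) else 0 := by
  classical
  unfold Sqt
  rw [LinearMap.sum_apply, Finsupp.finsetSum_apply]
  refine Finset.sum_congr rfl fun ε _ => ?_
  rw [Finsupp.lmapDomain_apply]
  have hinj : Function.Injective (fun (b : Fin n → ℕ) (i : Fin n) => b i + (ε i : ℕ)) := by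
    intro b b' h
    funext i
    have := congrFun h i
    simpa using this
  split_ifs with h
  · have h1 : b = (fun (b : Fin n → ℕ) (i : Fin n) => b i + (ε i : ℕ)) (fun i => b i - (ε i : ℕ)) := by
      funext i
      have := h i
      show b i = b i - _ + _
      omega
    conv_lhs => rw [h1]
    exact Finsupp.mapDomain_apply hinj c _
  · refine Finsupp.mapDomain_of_notMem_range c b ?_
    rintro ⟨b', rfl⟩
    exact h fun i => Nat.le_add_left _ _

theorem Sqt_mem_symm {n : ℕ} {c : Mon n}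
    (hc : ∀ (σ : Equiv.Perm (Fin n)) (b : Fin n → ℕ), c (b ∘ σ) = c b)
    (σ : Equiv.Perm (Fin n)) (b : Fin n → ℕ) : Sqt c (b ∘ σ) = Sqt c b := by
  rw [Sqt_apply_eq, Sqt_apply_eq]
  refine Fintype.sum_equiv (Equiv.arrowCongr σ (Equiv.refl _)) _ _ fun ε => ?_
  have h1 : (∀ i, ((Equiv.arrowCongr σ (Equiv.refl (Fin 2)) ε) i : ℕ) ≤ b i) ↔
      ∀ i, (ε i : ℕ) ≤ (b ∘ σ) i := by
    constructor
    · intro h i
      have := h (σ i)
      simpa [Equiv.arrowCongr] using this
    · intro h i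
      have := h (σ.symm i)
      simpa [Equiv.arrowCongr] using this
  by_cases h : ∀ i, (ε i : ℕ) ≤ (b ∘ σ) i
  · rw [if_pos h, if_pos (h1.2 h), ← hc σ (fun i => b i - _)]
    congr 1
    funext i
    simp [Equiv.arrowCongr]
  · rw [if_neg h, if_neg (fun h' => h (h1.1 h'))]

theorem Sqt_wt {n d : ℕ} {c : Mon n} (hc : ∀ b, c b ≠ 0 → wt b = d) (b : Fin n → ℕ)
    (hb : Sqt c b ≠ 0) : d ≤ wt b ∧ wt b ≤ 2 * d := by
  rw [Sqt_apply_eq] at hb
  obtain ⟨ε, -, hε⟩ := Finset.exists_ne_zero_of_sum_ne_zero hb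
  have h : ∀ i, (ε i : ℕ) ≤ b i := by
    by_contra h
    exact hε (if_neg h)
  rw [if_pos h] at hε
  have h1 := hc _ hε
  have h2 : b = fun i => (b i - (ε i : ℕ)) + (ε i : ℕ) := by
    funext i
    have := h i
    omega
  have h3 := wt_add_ge (fun i => b i - (ε i : ℕ)) ε
  have h4 := wt_add_le (fun i => b i - (ε i : ℕ)) ε
  rw [← h2] at h3 h4
  omega

theorem Sqt_id {n d : ℕ} {c : Mon n} (hc : ∀ b, c b ≠ 0 → wt b = d) : wtc d (Sqt c) = c := by
  classical
  refine Finsupp.ext fun b => ?_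
  show (Finsupp.filter (fun b => wt b = d) (Sqt c)) b = c b
  rw [Finsupp.filter_apply]
  split_ifs with hb
  · rw [Sqt_apply_eq, Finset.sum_eq_single (0 : Fin n → Fin 2)]
    · simp
    · intro ε _ hε
      by_contra hne
      have h : ∀ i, (ε i : ℕ) ≤ b i := by
        by_contra h
        exact hne (if_neg h)
      rw [if_pos h] at hne
      have h1 := hc _ hne
      have h2 : b = fun i => (b i - (ε i : ℕ)) + (ε i : ℕ) := by
        funext i
        have := h i
        omega
      refine hε (wt_add_eq (b := fun i => b i - (ε i : ℕ)) ?_)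
      rw [← h2]
      omega
    · intro h
      exact absurd (Finset.mem_univ _) h
  · by_contra hne
    exact hb (hc b fun h => hne h.symm)

theorem Sq_mem_EE {n d m : ℕ} {c : Mon n} (hc : c ∈ EE n d) : wtc m (Sqt c) ∈ EE n m := by
  classical
  refine ⟨fun b hb => ?_, fun σ b => ?_⟩
  · by_contra h
    exact hb (Finsupp.filter_apply_neg _ _ h)
  · show (Finsupp.filter (fun b => wt b = m) (Sqt c)) (b ∘ σ) =
      (Finsupp.filter (fun b => wt b = m) (Sqt c)) b
    rw [Finsupp.filter_apply, Finsupp.filter_apply, wt_comp, Sqt_mem_symm hc.2]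

/-- the unstable module `E(n)` -/
noncomputable def EAM (n : ℕ) : AM where
  M d := EE n d
  Sq d m := ((wtc m).comp Sqt).restrict (fun _ hc => Sq_mem_EE hc)
  Sq_lt d m h := by
    refine LinearMap.ext fun c => Subtype.ext (Finsupp.ext fun b => ?_)
    show (Finsupp.filter (fun b => wt b = m) (Sqt c.1)) b = 0
    classical
    rw [Finsupp.filter_apply]
    split_ifs with hb
    · by_contra hne
      have := Sqt_wt c.2.1 b hne
      omega
    · rfl
  Sq_id d := LinearMap.ext fun c => Subtype.ext (Sqt_id c.2.1)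
  unst d m h := by
    refine LinearMap.ext fun c => Subtype.ext (Finsupp.ext fun b => ?_)
    show (Finsupp.filter (fun b => wt b = m) (Sqt c.1)) b = 0
    classical
    rw [Finsupp.filter_apply]
    split_ifs with hb
    · by_contra hne
      have := Sqt_wt c.2.1 b hne
      omega
    · rfl

theorem EAM_Sq_val {n d m : ℕ} (c : EE n d) :
    ((EAM n).Sq d m c : EE n m).1 = wtc m (Sqt c.1) := rfl

/-- the product `x_1 ⋯ x_n` as an element of `E(n)^n` -/
noncomputable def EAM.gen (n : ℕ) : (EAM n).M n :=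
  (⟨Finsupp.single 0 1, by
    refine ⟨fun b hb => ?_, fun σ b => ?_⟩
    · have : b = 0 := by
        by_contra h
        exact hb (Finsupp.single_eq_of_ne h)
      subst this
      simp [wt]
    · have h1 : (b ∘ σ = 0) ↔ b = 0 := by
        constructor
        · intro h
          funext i
          have := congrFun h (σ.symm i)
          simpa using this
        · rintro rfl
          rfl
      classical
      simp only [Finsupp.single_apply]
      by_cases h : b = 0
      · rw [if_pos h.symm, if_pos (h1.2 h).symm]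
      · rw [if_neg (fun h' : 0 = b => h h'.symm), if_neg (fun h' : 0 = b ∘ σ => h (h1.1 h'.symm))]⟩ :
    EE n n)

end MM

end

/-! ### from `Lib_MP_33f7bb_d.A6Def` -/

section

/-!
# A6 definitions: complexes of unstable modules, exactness in large degrees, the functor `Om`

`AMC`: complexes `... → M 2 → M 1 → M 0` of `AM`s.  `AMC.Bdd`: every homology group is zero in large degrees.
`AMC.HomEx t`: the complex `HomH (M 0) t → HomH (M 1) t → ...` is exact (and injective at `0`).
`AM.Frob`, `AM.Inj0`, `AM.Beta`: the three properties of direct sums of the modules `E(n)` that are used.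
-/

namespace MM

/-! ## maps -/

/-- identity -/
def AMHom.id (M : AM) : AMHom M M := ⟨fun _ => LinearMap.id, fun _ _ _ => rfl⟩

/-- composition -/
def AMHom.comp {M N P : AM} (g : AMHom N P) (f : AMHom M N) : AMHom M P :=
  ⟨fun n => (g.app n).comp (f.app n), fun n m x => by
    simp only [LinearMap.comp_apply, f.comm, g.comm]⟩

/-- the inverse isomorphism -/
def AMIso.symm {M N : AM} (e : AMIso M N) : AMIso N M :=
  ⟨fun n => (e.e n).symm, fun n m x => by
    apply (e.e m).injective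
    rw [LinearEquiv.apply_symm_apply, e.comm, LinearEquiv.apply_symm_apply]⟩

/-- composition of isomorphisms -/
def AMIso.trans {M N P : AM} (e : AMIso M N) (e' : AMIso N P) : AMIso M P :=
  ⟨fun n => (e.e n).trans (e'.e n), fun n m x => by
    simp only [LinearEquiv.trans_apply, e.comm, e'.comm]⟩

/-- the map of an isomorphism -/
def AMIso.hom {M N : AM} (e : AMIso M N) : AMHom M N :=
  ⟨fun n => (e.e n).toLinearMap, fun n m x => e.comm n m x⟩

/-! ## complexes -/

/-- a complex `... → M 2 → M 1 → M 0` of unstable modules -/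
structure AMC where
  M : ℕ → AM
  d : ∀ s, AMHom (M (s + 1)) (M s)
  dd : ∀ s n x, (d s).app n ((d (s + 1)).app n x) = 0

/-- exactness at `M s` in degree `n` (for `s = 0`: surjectivity of `M 1 → M 0`) -/
def AMC.ExAt (C : AMC) : ℕ → ℕ → Prop
  | 0, n => ∀ x : (C.M 0).M n, ∃ y, (C.d 0).app n y = x
  | s + 1, n => ∀ x : (C.M (s + 1)).M n, (C.d s).app n x = 0 → ∃ y, (C.d (s + 1)).app n y = x

/-- the homology at every spot is zero in large degrees -/
def AMC.Bdd (C : AMC) : Prop := ∀ s, ∃ D, ∀ n, D < n → C.ExAt s n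

/-- exactness of `0 → HomH (M 0) t → HomH (M 1) t → ...` -/
structure AMC.HomEx (C : AMC) (t : ℕ) : Prop where
  zero : ∀ g ∈ (C.M 0).HomH t, (∀ n x, g n ((C.d 0).app n x) = 0) → g = 0
  succ : ∀ s, ∀ g ∈ (C.M (s + 1)).HomH t, (∀ n x, g n ((C.d (s + 1)).app n x) = 0) →
    ∃ h ∈ (C.M s).HomH t, ∀ n x, h n ((C.d s).app n x) = g n x

/-! ## the three properties -/

/-- `Sq0` is injective -/
def AM.Inj0 (M : AM) : Prop := ∀ n (x : M.M n), M.Sq n (2 * n) x = 0 → x = 0

/-- relation of `Sq0` with the other operations -/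
structure AM.Frob (M : AM) : Prop where
  even : ∀ p r (x : M.M p), M.Sq (2 * p) (2 * r) (M.Sq p (2 * p) x) = M.Sq r (2 * r) (M.Sq p r x)
  odd : ∀ p r (x : M.M p), M.Sq (2 * p) (2 * r + 1) (M.Sq p (2 * p) x) = 0

/-- compatible families of functionals on the `M^(2^k)` -/
def AM.Cpt (M : AM) (l : ∀ k, Module.Dual (ZMod 2) (M.M (2 ^ k))) : Prop :=
  ∀ k x, l (k + 1) (M.Sq (2 ^ k) (2 ^ (k + 1)) x) = l k x

/-- every compatible family comes from an element of `HomH M 0` through the inverse total square -/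
def AM.Beta (M : AM) : Prop := ∀ l : ∀ k, Module.Dual (ZMod 2) (M.M (2 ^ k)), M.Cpt l →
  ∃ f ∈ M.HomH 0, ∀ j (x : M.M j), ∃ K, ∀ k, K ≤ k → f j x = l k (M.cSq j (2 ^ k) x)

/-- isomorphic to a direct sum of modules `E(n)` -/
def AM.Good (M : AM) : Prop := ∃ (ι : Type) (n : ι → ℕ),
  Nonempty (AMIso (AM.dsum fun i => EAM (n i)) M)

/-! ## the loop functor -/

/-- the image of `Sq0` in degree `n + 1` -/
def AM.im0 (M : AM) (n : ℕ) : Submodule (ZMod 2) (M.M (n + 1)) :=
  if 2 ∣ n + 1 then LinearMap.range (M.Sq ((n + 1) / 2) (n + 1)) else ⊥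

theorem AM.mem_im0 {M : AM} {n : ℕ} {x : M.M (n + 1)} (hx : x ∈ M.im0 n) :
    x = 0 ∨ ∃ (p : ℕ) (_ : 2 * p = n + 1) (y : M.M p), x = M.Sq p (n + 1) y := by
  unfold AM.im0 at hx
  split_ifs at hx with h
  · obtain ⟨y, rfl⟩ := hx
    exact Or.inr ⟨(n + 1) / 2, Nat.mul_div_cancel' h, y, rfl⟩
  · exact Or.inl hx

theorem AM.Sq_mem_im0 (M : AM) {n p : ℕ} (h : 2 * p = n + 1) (y : M.M p) :
    M.Sq p (n + 1) y ∈ M.im0 n := by
  unfold AM.im0
  rw [if_pos ⟨p, h.symm⟩]
  obtain rfl : p = (n + 1) / 2 := by omega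
  exact ⟨y, rfl⟩

theorem AM.im0_Sq {M : AM} (h : M.Frob) {n m : ℕ} {x : M.M (n + 1)} (hx : x ∈ M.im0 n) :
    M.Sq (n + 1) (m + 1) x ∈ M.im0 m := by
  rcases AM.mem_im0 hx with rfl | ⟨p, hp, y, rfl⟩
  · rw [map_zero]; exact Submodule.zero_mem _
  · have h1 : ∀ a, a = 2 * p → ∀ m, M.Sq a (m + 1) (M.Sq p a y) ∈ M.im0 m := by
      rintro _ rfl m
      rcases Nat.even_or_odd' (m + 1) with ⟨r, hr | hr⟩
      · have h2 := h.even p r y
        rw [← hr] at h2
        rw [h2]
        exact M.Sq_mem_im0 hr.symm _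
      · have h2 := h.odd p r y
        rw [← hr] at h2
        rw [h2]
        exact Submodule.zero_mem _
    exact h1 _ hp.symm m

/-- the loop functor: `(Om M)^n = M^(n+1) / Sq0` -/
noncomputable def AM.Om (M : AM) (h : M.Frob) : AM where
  M n := M.M (n + 1) ⧸ M.im0 n
  Sq n m := Submodule.mapQ _ _ (M.Sq (n + 1) (m + 1)) (fun _ hx => AM.im0_Sq h hx)
  Sq_lt n m hlt := by
    apply LinearMap.ext
    intro x
    obtain ⟨x, rfl⟩ := Submodule.Quotient.mk_surjective _ x
    rw [Submodule.mapQ_apply, M.Sq_lt _ _ (by omega)]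
    rfl
  Sq_id n := by
    apply LinearMap.ext
    intro x
    obtain ⟨x, rfl⟩ := Submodule.Quotient.mk_surjective _ x
    rw [Submodule.mapQ_apply, M.Sq_id]
    rfl
  unst n m hlt := by
    apply LinearMap.ext
    intro x
    obtain ⟨x, rfl⟩ := Submodule.Quotient.mk_surjective _ x
    rw [Submodule.mapQ_apply]
    show Submodule.Quotient.mk _ = 0
    rw [Submodule.Quotient.mk_eq_zero]
    by_cases h1 : 2 * (n + 1) < m + 1
    · rw [M.unst _ _ h1]
      exact Submodule.zero_mem _
    · exact M.Sq_mem_im0 (by omega) x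

/-- the projection -/
def AM.Om.pr (M : AM) (h : M.Frob) (n : ℕ) : M.M (n + 1) →ₗ[ZMod 2] (M.Om h).M n :=
  (M.im0 n).mkQ

theorem AM.Om.pr_surjective (M : AM) (h : M.Frob) (n : ℕ) :
    Function.Surjective (AM.Om.pr M h n) := Submodule.mkQ_surjective _

theorem AM.Om.Sq_pr (M : AM) (h : M.Frob) (n m : ℕ) (x : M.M (n + 1)) :
    (M.Om h).Sq n m (AM.Om.pr M h n x) = AM.Om.pr M h m (M.Sq (n + 1) (m + 1) x) := rfl

theorem AM.Om.pr_eq_zero {M : AM} {h : M.Frob} {n : ℕ} {x : M.M (n + 1)} :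
    AM.Om.pr M h n x = 0 ↔ x ∈ M.im0 n := Submodule.Quotient.mk_eq_zero _

theorem AMHom.im0 {M N : AM} (f : AMHom M N) {n : ℕ} {x : M.M (n + 1)} (hx : x ∈ M.im0 n) :
    f.app (n + 1) x ∈ N.im0 n := by
  rcases AM.mem_im0 hx with rfl | ⟨p, hp, y, rfl⟩
  · rw [map_zero]; exact Submodule.zero_mem _
  · rw [f.comm]
    exact N.Sq_mem_im0 hp _

/-- functoriality of the loop functor -/
noncomputable def AM.OmMap {M N : AM} (hM : M.Frob) (hN : N.Frob) (f : AMHom M N) :
    AMHom (M.Om hM) (N.Om hN) :=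
  ⟨fun n => Submodule.mapQ _ _ (f.app (n + 1)) (fun _ hx => f.im0 hx), fun n m x => by
    obtain ⟨x, rfl⟩ := Submodule.Quotient.mk_surjective _ x
    show AM.Om.pr N hN m (f.app (m + 1) (M.Sq (n + 1) (m + 1) x)) =
      AM.Om.pr N hN m (N.Sq (n + 1) (m + 1) (f.app (n + 1) x))
    rw [f.comm]⟩

theorem AM.OmMap_pr {M N : AM} (hM : M.Frob) (hN : N.Frob) (f : AMHom M N) (n : ℕ)
    (x : M.M (n + 1)) : (AM.OmMap hM hN f).app n (AM.Om.pr M hM n x) =
      AM.Om.pr N hN n (f.app (n + 1) x) := rfl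

/-- loops of a complex -/
noncomputable def AMC.Om (C : AMC) (h : ∀ s, (C.M s).Frob) : AMC where
  M s := (C.M s).Om (h s)
  d s := AM.OmMap _ _ (C.d s)
  dd s n x := by
    obtain ⟨x, rfl⟩ := AM.Om.pr_surjective _ _ _ x
    rw [AM.OmMap_pr, AM.OmMap_pr, C.dd, map_zero]

end MM

end

/-! ### from `Lib_MP_33f7bb_d.A601` -/

section

/-!
# A6-01: the inverse total square `cSq`

`AM.cSq` (see `A3Def`) is defined by `cSq n m = 0` for `m < n`, `cSq n n = Sq n n = id`, and for `n < m`
`cSq n m = ∑_(n < k ≤ m) cSq k m ∘ Sq n k` (unfold with `rw [AM.cSq]`; `Fin (m - n)` reindexed to `Ioc n m`).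

`AMHom.cSq` : induction on `m - n`.
`AM.cSq_unique` : strong induction on `m - n`: `c n = ∑_(n < k ≤ m) c k ∘ Sq n k` (char 2, `Sq n n = id`).
`HomH_cSq` : Let `f ∈ HomH M 0`, so `f m (Sq n m x) = choose n (m - n) * f n x` for `n ≤ m`.
 Define `cc n m : ZMod 2` (coefficient of `X^m` in `s^n`, `s = ∑_a X^(2^a)`), by the same recursion as `cSq`:
 `cc n m = 0` for `m < n`, `cc n n = 1`, `cc n m = ∑_(n < k ≤ m) choose n (k - n) * cc k m` for `n < m`.
 Then `f m (cSq n m x) = cc n m * f n x` by induction on `m - n`.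
 Claim: `cc j (2^k) = 1` for `1 ≤ j ≤ k`.  Proof: let `P j m` := coefficient of `X^m` in `s^j`, for the power series
 `s = ∑_a X^(2^a)` over `ZMod 2` (`PowerSeries.mk fun m => if ∃ a, m = 2^a then 1 else 0`).  `s^2 = s + X`, i.e.
 `s + s^2 = X` (in char 2 `s^2 = ∑ X^(2^(a+1))`: coefficientwise, e.g. `PowerSeries.expand`/frobenius, or
 directly: off-diagonal terms of the square cancel in pairs).  Hence `X^j = (s + s^2)^j = ∑_k choose j (k - j) s^k`
 (`k` from `j` to `2j`), compare coefficients of `X^m`: `∑_(j ≤ k ≤ m) choose j (k - j) * P k m = (if j = m then 1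
 else 0)`, so `P` satisfies the recursion of `cc` (and `P j m = 0` for `m < j`), `P = cc`.
 `s^(j+1) = s^(j-1) (s + X) = s^j + X s^(j-1)` for `j ≥ 1`; coefficient of `X^(2^k)`: `P (j+1) (2^k) = P j (2^k) +
 P (j-1) (2^k - 1)`; the last term is `0` if `j - 1 < k`: `P i m ≠ 0` implies that `m` is a sum of `i` powers of
 two, and `2^k - 1` is not a sum of fewer than `k` powers of two (induction on `k`: an odd sum contains a
 `1 = 2^0`, remove it; the rest, `2^k - 2`, consists of `1`s and even powers; ... or: the number of binary digits `1` of a sum of `i`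
 powers of two is at most `i`; or without power series: prove by induction on `k` that
 `P i (2^k - 1) = 0` for `i < k` from `s^2 = s + X`, i.e. separate odd and even coefficients: `s = X + s^2`, so
 `s^i = ∑_l choose i l X^l s^(2(i-l))` and `s^(2r) = (s^r)^2` has only even exponents with
 `P (2r) (2m) = P r m`).
-/

namespace MM

private theorem A601_self (M : AM) (n : ℕ) : M.cSq n n = LinearMap.id := by
  rw [AM.cSq, dif_neg (lt_irrefl n), dif_pos rfl, M.Sq_id]

private theorem A601_lt (M : AM) (n m : ℕ) (h : m < n) : M.cSq n m = 0 := by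
  rw [AM.cSq, dif_pos h]

private theorem A601_rec (M : AM) (n m : ℕ) (h : n < m) :
    M.cSq n m = ∑ k ∈ Finset.Ioc n m, (M.cSq k m).comp (M.Sq n k) := by
  rw [AM.cSq, dif_neg (by omega), dif_neg (by omega)]
  have h1 : Finset.Ioc n m = Finset.Ico (n + 1) (m + 1) := by
    ext k
    simp only [Finset.mem_Ioc, Finset.mem_Ico]
    omega
  rw [h1, Finset.sum_Ico_eq_sum_range, show m + 1 - (n + 1) = m - n by omega, Finset.sum_range]

/-- maps of `AM`s commute with the inverse total square -/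
theorem AMHom.cSq {M N : AM} (f : AMHom M N) (n m : ℕ) (x : M.M n) :
    f.app m (M.cSq n m x) = N.cSq n m (f.app n x) := by
  obtain ⟨r, hr⟩ : ∃ r, m - n = r := ⟨_, rfl⟩
  induction r using Nat.strong_induction_on generalizing n with
  | _ r ih =>
    rcases lt_trichotomy m n with h | h | h
    · rw [A601_lt M n m h, A601_lt N n m h, LinearMap.zero_apply, LinearMap.zero_apply, map_zero]
    · subst h
      rw [A601_self, A601_self]
      rfl
    · rw [A601_rec M n m h, A601_rec N n m h, LinearMap.sum_apply, LinearMap.sum_apply, map_sum]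
      refine Finset.sum_congr rfl fun k hk => ?_
      rw [Finset.mem_Ioc] at hk
      rw [LinearMap.comp_apply, LinearMap.comp_apply, ih (m - k) (by omega) k _ rfl, f.comm]

theorem AM.cSq_self (M : AM) (n : ℕ) : M.cSq n n = LinearMap.id := by
  exact A601_self M n

theorem AM.cSq_lt (M : AM) (n m : ℕ) (h : m < n) : M.cSq n m = 0 := by
  exact A601_lt M n m h

/-- the recursion formula -/
theorem AM.cSq_rec (M : AM) (n m : ℕ) (h : n < m) :
    M.cSq n m = ∑ k ∈ Finset.Ioc n m, (M.cSq k m).comp (M.Sq n k) := by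
  exact A601_rec M n m h

private theorem A601_Icc {n m : ℕ} (h : n ≤ m) : Finset.Icc n m = insert n (Finset.Ioc n m) := by
  ext k
  simp only [Finset.mem_Icc, Finset.mem_insert, Finset.mem_Ioc]
  omega

/-- uniqueness of the inverse total square -/
theorem AM.cSq_unique (M : AM) (m : ℕ) (c : ∀ n, M.M n →ₗ[ZMod 2] M.M m)
    (h0 : c m = LinearMap.id)
    (h1 : ∀ n, n < m → ∑ k ∈ Finset.Icc n m, (c k).comp (M.Sq n k) = 0) :
    ∀ n, n ≤ m → c n = M.cSq n m := by
  intro n hn
  obtain ⟨r, hr⟩ : ∃ r, m - n = r := ⟨_, rfl⟩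
  induction r using Nat.strong_induction_on generalizing n with
  | _ r ih =>
    rcases hn.lt_or_eq with h | h
    · have h2 := h1 n h
      rw [A601_Icc hn, Finset.sum_insert (by simp), M.Sq_id, LinearMap.comp_id] at h2
      have h3 : c n = ∑ k ∈ Finset.Ioc n m, (c k).comp (M.Sq n k) := by
        have h4 := eq_neg_of_add_eq_zero_left h2
        rw [neg_eq'] at h4
        exact h4
      rw [h3, A601_rec M n m h]
      refine Finset.sum_congr rfl fun k hk => ?_
      rw [Finset.mem_Ioc] at hk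
      rw [ih (m - k) (by omega) k hk.2 rfl]
    · subst h
      rw [h0, A601_self]

section A601

open Polynomial

/-- the truncated series `∑_(a < N) X^(2^a)` -/
private noncomputable def A601_s (N : ℕ) : (ZMod 2)[X] := ∑ a ∈ Finset.range N, X ^ (2 ^ a)

private theorem A601_sq (N : ℕ) : A601_s N ^ 2 = A601_s N + X + X ^ (2 ^ N) := by
  induction N with
  | zero =>
    show (∑ a ∈ Finset.range 0, X ^ (2 ^ a) : (ZMod 2)[X]) ^ 2 =
      (∑ a ∈ Finset.range 0, X ^ (2 ^ a) : (ZMod 2)[X]) + X + X ^ (2 ^ 0)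
    rw [Finset.range_zero, Finset.sum_empty, pow_zero, pow_one, zero_add,
      CharTwo.add_self_eq_zero]
    exact zero_pow two_ne_zero
  | succ N ih =>
    have h1 : A601_s (N + 1) = A601_s N + X ^ (2 ^ N) := Finset.sum_range_succ _ _
    rw [h1, CharTwo.add_sq, ih, ← pow_mul, ← pow_succ]
    ring

private theorem A601_X_dvd (N : ℕ) : (X : (ZMod 2)[X]) ∣ A601_s N :=
  Finset.dvd_sum fun a _ => dvd_pow_self X (Nat.pos_iff_ne_zero.1 (Nat.two_pow_pos a))

private theorem A601_small (N k m : ℕ) (h : m < k) : (A601_s N ^ k).coeff m = 0 :=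
  X_pow_dvd_iff.1 (pow_dvd_pow_of_dvd (A601_X_dvd N) k) m h

private theorem A601_coeff (N n m : ℕ) (hn : n ≤ m) (hm : m < 2 ^ N) :
    ∑ k ∈ Finset.Icc n m, ((Nat.choose n (k - n) : ℕ) : ZMod 2) * (A601_s N ^ k).coeff m =
      if n = m then 1 else 0 := by
  have h1 : (A601_s N * (A601_s N + 1)) ^ n = (X + X ^ (2 ^ N)) ^ n := by
    congr 1
    have h2 := A601_sq N
    have h3 : A601_s N * (A601_s N + 1) = A601_s N ^ 2 + A601_s N := by ring
    rw [h3, h2]
    have h4 := CharTwo.add_self_eq_zero (A601_s N)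
    calc A601_s N + X + X ^ 2 ^ N + A601_s N = (A601_s N + A601_s N) + (X + X ^ 2 ^ N) := by ring
      _ = _ := by rw [h4, zero_add]
  have h2 : ((X + X ^ (2 ^ N) : (ZMod 2)[X]) ^ n).coeff m = (X ^ n : (ZMod 2)[X]).coeff m := by
    have h3 : (X ^ (2 ^ N) : (ZMod 2)[X]) ∣ (X + X ^ (2 ^ N)) ^ n - X ^ n := by
      have h4 := sub_dvd_pow_sub_pow (X + X ^ (2 ^ N) : (ZMod 2)[X]) X n
      rwa [add_sub_cancel_left] at h4
    have h5 := X_pow_dvd_iff.1 h3 m hm
    rw [coeff_sub] at h5
    exact sub_eq_zero.1 h5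
  have h3 : ((A601_s N * (A601_s N + 1)) ^ n).coeff m =
      ∑ l ∈ Finset.range (n + 1), ((Nat.choose n l : ℕ) : ZMod 2) *
        (A601_s N ^ (n + l)).coeff m := by
    rw [mul_pow, add_pow, Finset.mul_sum, finset_sum_coeff]
    refine Finset.sum_congr rfl fun l _ => ?_
    rw [one_pow, mul_one, ← mul_assoc, ← pow_add, mul_comm, ← C_eq_natCast, coeff_C_mul]
  have h4 : ∑ k ∈ Finset.Icc n m, ((Nat.choose n (k - n) : ℕ) : ZMod 2) *
      (A601_s N ^ k).coeff m = ∑ l ∈ Finset.range (m - n + 1), ((Nat.choose n l : ℕ) : ZMod 2) *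
        (A601_s N ^ (n + l)).coeff m := by
    have h5 : Finset.Icc n m = Finset.Ico n (m + 1) := by
      ext k
      simp only [Finset.mem_Icc, Finset.mem_Ico]
      omega
    rw [h5, Finset.sum_Ico_eq_sum_range, show m + 1 - n = m - n + 1 by omega]
    refine Finset.sum_congr rfl fun l _ => ?_
    rw [Nat.add_sub_cancel_left]
  have h5 : ∑ l ∈ Finset.range (n + 1), ((Nat.choose n l : ℕ) : ZMod 2) *
        (A601_s N ^ (n + l)).coeff m = ∑ l ∈ Finset.range (m + n + 1),
          ((Nat.choose n l : ℕ) : ZMod 2) * (A601_s N ^ (n + l)).coeff m := by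
    refine Finset.sum_subset (Finset.range_mono (by omega)) fun l _ hl => ?_
    rw [Finset.mem_range] at hl
    rw [Nat.choose_eq_zero_of_lt (by omega), Nat.cast_zero, zero_mul]
  have h6 : ∑ l ∈ Finset.range (m - n + 1), ((Nat.choose n l : ℕ) : ZMod 2) *
        (A601_s N ^ (n + l)).coeff m = ∑ l ∈ Finset.range (m + n + 1),
          ((Nat.choose n l : ℕ) : ZMod 2) * (A601_s N ^ (n + l)).coeff m := by
    refine Finset.sum_subset (Finset.range_mono (by omega)) fun l _ hl => ?_
    rw [Finset.mem_range] at hl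
    rw [A601_small N _ _ (by omega), mul_zero]
  rw [h4, h6, ← h5, ← h3, h1, h2, coeff_X_pow]
  simp only [eq_comm]

/-- number of binary digits `1` -/
private def A601_pc (m : ℕ) : ℕ := if m = 0 then 0 else m % 2 + A601_pc (m / 2)
termination_by m
decreasing_by omega

private theorem A601_pc_even (m : ℕ) : A601_pc (2 * m) = A601_pc m := by
  rcases Nat.eq_zero_or_pos m with h | h
  · rw [h]
  · rw [A601_pc, if_neg (by omega), show 2 * m % 2 = 0 by omega, show 2 * m / 2 = m by omega,
      zero_add]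

private theorem A601_pc_odd (m : ℕ) : A601_pc (2 * m + 1) = A601_pc m + 1 := by
  rw [A601_pc, if_neg (by omega), show (2 * m + 1) % 2 = 1 by omega,
    show (2 * m + 1) / 2 = m by omega, add_comm]

private theorem A601_pc_succ (m : ℕ) : A601_pc (m + 1) ≤ A601_pc m + 1 := by
  induction m using Nat.strong_induction_on with
  | _ m ih =>
    obtain ⟨r, hr⟩ := Nat.even_or_odd' m
    rcases hr with rfl | rfl
    · rw [A601_pc_odd, A601_pc_even]
    · rw [show 2 * r + 1 + 1 = 2 * (r + 1) by ring, A601_pc_even, A601_pc_odd]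
      have := ih r (by omega)
      omega

private theorem A601_pc_pow (e m : ℕ) : A601_pc (m + 2 ^ e) ≤ A601_pc m + 1 := by
  induction e generalizing m with
  | zero => exact A601_pc_succ m
  | succ e ih =>
    obtain ⟨r, hr⟩ := Nat.even_or_odd' m
    rcases hr with rfl | rfl
    · rw [show 2 * r + 2 ^ (e + 1) = 2 * (r + 2 ^ e) by ring, A601_pc_even, A601_pc_even]
      exact ih r
    · rw [show 2 * r + 1 + 2 ^ (e + 1) = 2 * (r + 2 ^ e) + 1 by ring, A601_pc_odd, A601_pc_odd]
      have := ih r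
      omega

private theorem A601_pc_two (k : ℕ) : A601_pc (2 ^ k - 1) = k := by
  induction k with
  | zero =>
    rw [A601_pc]
    rfl
  | succ k ih =>
    have h := Nat.two_pow_pos k
    rw [show 2 ^ (k + 1) - 1 = 2 * (2 ^ k - 1) + 1 by rw [pow_succ]; omega, A601_pc_odd, ih]

private theorem A601_s_coeff (N m : ℕ) (h : (A601_s N).coeff m ≠ 0) : ∃ a, m = 2 ^ a := by
  rw [A601_s, finset_sum_coeff] at h
  obtain ⟨a, -, ha⟩ := Finset.exists_ne_zero_of_sum_ne_zero h
  rw [coeff_X_pow] at ha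
  exact ⟨a, by by_contra h; exact ha (if_neg h)⟩

private theorem A601_pc_le (N i m : ℕ) (h : (A601_s N ^ i).coeff m ≠ 0) : A601_pc m ≤ i := by
  induction i generalizing m with
  | zero =>
    rw [pow_zero, coeff_one] at h
    have h1 : m = 0 := by
      by_contra h1
      exact h (if_neg h1)
    rw [h1, A601_pc]
    rfl
  | succ i ih =>
    rw [pow_succ, coeff_mul] at h
    obtain ⟨⟨u, v⟩, huv, h1⟩ := Finset.exists_ne_zero_of_sum_ne_zero h
    rw [Finset.HasAntidiagonal.mem_antidiagonal] at huv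
    have h2 := ih u (left_ne_zero_of_mul h1)
    obtain ⟨a, ha⟩ := A601_s_coeff N v (right_ne_zero_of_mul h1)
    have h3 : u + v = m := huv
    have ha' : v = 2 ^ a := ha
    have h4 := A601_pc_pow a u
    rw [← h3, ha']
    omega

private theorem A601_one (N k : ℕ) (hk : k < N) : (A601_s N).coeff (2 ^ k) = 1 := by
  rw [A601_s, finset_sum_coeff, Finset.sum_eq_single k]
  · rw [coeff_X_pow, if_pos rfl]
  · intro a _ ha
    rw [coeff_X_pow, if_neg]
    intro h
    exact ha (Nat.pow_right_injective le_rfl h).symm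
  · intro h
    exact absurd (Finset.mem_range.2 hk) h

private theorem A601_val (N k j : ℕ) (hk : k < N) (hj : j + 1 ≤ k) :
    (A601_s N ^ (j + 1)).coeff (2 ^ k) = 1 := by
  induction j with
  | zero => rw [pow_one, A601_one N k hk]
  | succ j ih =>
    have h1 : A601_s N ^ (j + 1 + 1) = A601_s N ^ (j + 1) + X * A601_s N ^ j +
        X ^ (2 ^ N) * A601_s N ^ j := by
      rw [show j + 1 + 1 = j + 2 by rfl, pow_add, A601_sq]
      ring
    have hp := Nat.two_pow_pos k
    have h2 : (X * A601_s N ^ j).coeff (2 ^ k) = 0 := by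
      obtain ⟨r, hr⟩ : ∃ r, 2 ^ k = r + 1 := ⟨2 ^ k - 1, by omega⟩
      rw [hr, coeff_X_mul]
      by_contra h
      have h3 := A601_pc_le N j r h
      have h4 := A601_pc_two k
      rw [hr, Nat.add_sub_cancel] at h4
      omega
    have h3 : (X ^ (2 ^ N) * A601_s N ^ j).coeff (2 ^ k) = 0 := by
      have h4 : 2 ^ k < 2 ^ N := Nat.pow_lt_pow_right (by norm_num) hk
      exact X_pow_dvd_iff.1 (Dvd.intro _ rfl) _ h4
    rw [h1, coeff_add, coeff_add, h2, h3, ih (by omega), add_zero, add_zero]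

private theorem A601_main {M : AM} {f : ∀ n, Module.Dual (ZMod 2) (M.M n)} (hf : f ∈ M.HomH 0)
    (N n m : ℕ) (hn : n ≤ m) (hm : m < 2 ^ N) (x : M.M n) :
    f m (M.cSq n m x) = (A601_s N ^ n).coeff m * f n x := by
  obtain ⟨r, hr⟩ : ∃ r, m - n = r := ⟨_, rfl⟩
  induction r using Nat.strong_induction_on generalizing n with
  | _ r ih =>
    have h1 := A601_coeff N n m hn hm
    rw [A601_Icc hn, Finset.sum_insert (by simp), Nat.sub_self, Nat.choose_zero_right,
      Nat.cast_one, one_mul] at h1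
    rcases hn.lt_or_eq with h | h
    · rw [if_neg h.ne] at h1
      have h2 : (A601_s N ^ n).coeff m = ∑ k ∈ Finset.Ioc n m,
          ((Nat.choose n (k - n) : ℕ) : ZMod 2) * (A601_s N ^ k).coeff m :=
        CharTwo.add_eq_zero.1 h1
      rw [h2, A601_rec M n m h, LinearMap.sum_apply, map_sum, Finset.sum_mul]
      refine Finset.sum_congr rfl fun k hk => ?_
      rw [Finset.mem_Ioc] at hk
      rw [LinearMap.comp_apply, ih (m - k) (by omega) k hk.2 _ rfl, hf.2 n k x hk.1.le,
        Nat.sub_zero]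
      ring
    · subst h
      rw [if_pos rfl, Finset.Ioc_self, Finset.sum_empty, add_zero] at h1
      rw [h1, one_mul, A601_self]
      rfl

end A601

/-- an element of `HomH M 0` is determined by its values in the degrees `2^k`, `k` large -/
theorem HomH_cSq {M : AM} {f : ∀ n, Module.Dual (ZMod 2) (M.M n)} (hf : f ∈ M.HomH 0) (j k : ℕ)
    (hj : 1 ≤ j) (hk : j ≤ k) (x : M.M j) : f (2 ^ k) (M.cSq j (2 ^ k) x) = f j x := by
  obtain ⟨i, rfl⟩ : ∃ i, j = i + 1 := ⟨j - 1, by omega⟩
  have h1 : k < 2 ^ k := Nat.lt_two_pow_self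
  rw [A601_main hf (k + 1) (i + 1) (2 ^ k) (by omega) (Nat.pow_lt_pow_right (by norm_num)
    (Nat.lt_succ_self k)), A601_val (k + 1) k i (Nat.lt_succ_self k) hk, one_mul]

end MM

end

/-! ### from `Lib_MP_33f7bb_d.A606` -/

section

/-!
# A6-06: exactness of `HomH _ 0` on bounded complexes with `Inj0`, `Beta`

Write `M_s`, `d : M_(s+1) → M_s`, `F = ZMod 2`.  For `g ∈ HomH M 0` the family `l_k = g_(2^k)` is compatible: `g_(2n)(Sq0 x) =
choose n n * g_n x = g_n x` (`AM.Cpt`, with `2^(k+1) = 2 * 2^k`, `2^(k+1) - 2^k = 2^k`).  `g_0 = 0`.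

Case `s = 0`.  `g ∈ HomH M_0 0`, `g ∘ d = 0`.  For `2^k > D` the map `d : M_1 → M_0` is surjective in degree `2^k`, so `g_(2^k) = 0`,
and `g_j x = g_(2^k)(cSq j (2^k) x) = 0` for `j ≥ 1`, `k ≥ j` large (`HomH_cSq`).

Case `s + 1`.  `g ∈ HomH M_(s+1) 0`, `g ∘ d = 0`, `l_k = g_(2^k)`.  Choose `k0` such that `C` is exact at `M_(s+1)` and `M_s` in
degrees `≥ 2^(k0)`.  Construct `l''_k : M_s^(2^k) → F`, `k ≥ k0`, with (a) `l''_k (d x) = l_k x`, (b)
`l''_(k+1)(Sq0 y) = l''_k y`.
 `k = k0`: `l_(k0)` vanishes on `ker (d : M_(s+1) → M_s)` in degree `2^(k0)` (exactness: the kernel is `d M_(s+2)`, and `g d = 0`),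
 so it factors through the image of `d`; extend (`LinearMap.exists_extend`, or: `l ∘ ... ` via
 `LinearMap.range_dualMap_eq_dualAnnihilator_ker`: `l ∈ range (d.dualMap)` iff `l` vanishes on `ker d`).
 Step: want `l''_(k+1)` on `N := M_s^(2^(k+1))` with prescribed values on the image of the linear map
 `u : M_s^(2^k) × M_(s+1)^(2^(k+1)) → N`, `u (y, x) = Sq0 y + d x`, the functional being `v (y,x) = l''_k y + l_(k+1) x`.  By the same
 criterion it is enough that `v` vanishes on `ker u`.  Let `Sq0 y = d x` (char 2).  If `s ≥ 1`: `Sq0 (d y) = d (Sq0 y) = d d x = 0` in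
 `M_(s-1)`, so `d y = 0` (`Inj0`), and `y = d x'` by exactness at `M_s` in degree `2^k`.  If `s = 0`: `y = d x'` by exactness
 (surjectivity) at `M_0`.  Then `d (x - Sq0 x') = 0`, so `x = Sq0 x' + d w` (exactness at `M_(s+1)` in degree
 `2^(k+1)`), `l_(k+1) x = l_(k+1)(Sq0 x') + g (d w) = l_k x' = l''_k (d x') = l''_k y`.
 The sequence is obtained by dependent choice (`Nat.rec` on the subtype of functionals satisfying (a)).
 For `k < k0` put `l''_k y = l''_(k0)(Sq0^(k0-k) y)`, i.e. downward recursion `l''_k y = l''_(k+1)(Sq0 y)`; (a) and (b) hold for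
 all `k`.  (Convenient form: a lemma that a compatible family given for `k ≥ k0` extends to all `k`; e.g. by
 induction on `k0`.)
 By `Beta` there is `h ∈ HomH M_s 0` with `h_j y = l''_k (cSq j (2^k) y)` for `k` large (depending on `j`, `y`).  Then for `x ∈ M_(s+1)^j`,
 `j ≥ 1`, `k` large: `h_j (d x) = l''_k (cSq (d x)) = l''_k (d (cSq x)) = l_k (cSq x) = g_j x` (`AMHom.cSq`, `HomH_cSq`).  For `j = 0`
 both are `0`.
-/

namespace MM

private theorem A606_ext {A N : Type} [AddCommGroup A] [Module (ZMod 2) A] [AddCommGroup N]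
    [Module (ZMod 2) N] (u : A →ₗ[ZMod 2] N) (v : Module.Dual (ZMod 2) A)
    (h : ∀ a, u a = 0 → v a = 0) : ∃ w : Module.Dual (ZMod 2) N, ∀ a, w (u a) = v a := by
  have h1 : v ∈ LinearMap.range u.dualMap := by
    rw [LinearMap.range_dualMap_eq_dualAnnihilator_ker, Submodule.mem_dualAnnihilator]
    exact fun a ha => h a ha
  obtain ⟨w, hw⟩ := h1
  exact ⟨w, fun a => by rw [← hw]; rfl⟩

private theorem A606_dc {α : ℕ → Type} (R : ∀ k, α k → Prop) (S : ∀ k, α k → α (k + 1) → Prop)
    (h0 : ∃ w, R 0 w) (hs : ∀ k w, R k w → ∃ w', R (k + 1) w' ∧ S k w w') :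
    ∃ l : ∀ k, α k, (∀ k, R k (l k)) ∧ ∀ k, S k (l k) (l (k + 1)) := by
  obtain ⟨w0, hw0⟩ := h0
  choose f hf using hs
  let F : ∀ k, {w : α k // R k w} := fun k =>
    Nat.rec (motive := fun k => {w : α k // R k w}) ⟨w0, hw0⟩
      (fun k w => ⟨f k w.1 w.2, (hf k w.1 w.2).1⟩) k
  exact ⟨fun k => (F k).1, fun k => (F k).2, fun k => (hf k (F k).1 (F k).2).2⟩

private theorem A606_down {M N : AM} (d : AMHom N M) (g : ∀ k, Module.Dual (ZMod 2) (N.M (2 ^ k)))
    (hg : N.Cpt g) : ∀ (k0 : ℕ) (l : ∀ k, Module.Dual (ZMod 2) (M.M (2 ^ k))),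
    (∀ k, k0 ≤ k → ∀ x, l k (d.app (2 ^ k) x) = g k x) →
    (∀ k, k0 ≤ k → ∀ y, l (k + 1) (M.Sq (2 ^ k) (2 ^ (k + 1)) y) = l k y) →
    ∃ l' : ∀ k, Module.Dual (ZMod 2) (M.M (2 ^ k)),
      (∀ k x, l' k (d.app (2 ^ k) x) = g k x) ∧ M.Cpt l' := by
  intro k0
  induction k0 with
  | zero => exact fun l h1 h2 => ⟨l, fun k => h1 k (Nat.zero_le _), fun k => h2 k (Nat.zero_le _)⟩
  | succ k0 ih =>
    intro l h1 h2
    have hne : k0 + 1 ≠ k0 := Nat.succ_ne_self k0
    refine ih (Function.update l k0 ((l (k0 + 1)).comp (M.Sq (2 ^ k0) (2 ^ (k0 + 1))))) ?_ ?_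
    · intro k hk x
      rcases Nat.eq_or_lt_of_le hk with rfl | hk
      · rw [Function.update_self, LinearMap.comp_apply, ← d.comm, h1 _ le_rfl, hg]
      · rw [Function.update_of_ne (by omega), h1 k hk]
    · intro k hk y
      rcases Nat.eq_or_lt_of_le hk with rfl | hk
      · rw [Function.update_self, Function.update_of_ne hne, LinearMap.comp_apply]
      · rw [Function.update_of_ne (by omega), Function.update_of_ne (by omega), h2 k hk]

private theorem A606_cpt {M : AM} {g : ∀ n, Module.Dual (ZMod 2) (M.M n)} (hg : g ∈ M.HomH 0) :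
    M.Cpt fun k => g (2 ^ k) := by
  intro k x
  show g (2 ^ (k + 1)) (M.Sq (2 ^ k) (2 ^ (k + 1)) x) = g (2 ^ k) x
  have h1 : 2 ^ (k + 1) - 2 ^ k = 2 ^ k := by rw [pow_succ]; omega
  rw [hg.2 (2 ^ k) (2 ^ (k + 1)) x (Nat.pow_le_pow_right (by norm_num) (by omega)), h1,
    Nat.sub_zero, Nat.choose_self, Nat.cast_one, one_mul]

private theorem A606_pre (C : AMC) (hi : ∀ s, (C.M s).Inj0) (s n m : ℕ) (hm : m = 2 * n)
    (hex : C.ExAt s n) (y : (C.M s).M n) (x : (C.M (s + 1)).M m)
    (h : (C.M s).Sq n m y = (C.d s).app m x) : ∃ x', (C.d s).app n x' = y := by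
  subst hm
  cases s with
  | zero => exact hex y
  | succ s =>
    refine hex y (hi s n _ ?_)
    rw [← (C.d s).comm, h, C.dd]

private theorem A606_step (C : AMC) (hi : ∀ s, (C.M s).Inj0) (s k : ℕ)
    (hex : C.ExAt s (2 ^ k)) (hex' : C.ExAt (s + 1) (2 ^ (k + 1)))
    {g : ∀ n, Module.Dual (ZMod 2) ((C.M (s + 1)).M n)} (hg : g ∈ (C.M (s + 1)).HomH 0)
    (hgd : ∀ n x, g n ((C.d (s + 1)).app n x) = 0)
    (w : Module.Dual (ZMod 2) ((C.M s).M (2 ^ k)))
    (hw : ∀ x, w ((C.d s).app (2 ^ k) x) = g (2 ^ k) x) :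
    ∃ w' : Module.Dual (ZMod 2) ((C.M s).M (2 ^ (k + 1))),
      (∀ x, w' ((C.d s).app (2 ^ (k + 1)) x) = g (2 ^ (k + 1)) x) ∧
      ∀ y, w' ((C.M s).Sq (2 ^ k) (2 ^ (k + 1)) y) = w y := by
  obtain ⟨w', hw'⟩ := A606_ext
    (((C.M s).Sq (2 ^ k) (2 ^ (k + 1))).coprod ((C.d s).app (2 ^ (k + 1))))
    (LinearMap.coprod w (g (2 ^ (k + 1)))) (by
      rintro ⟨y, x⟩ h
      rw [LinearMap.coprod_apply] at h ⊢
      have h1 : (C.M s).Sq (2 ^ k) (2 ^ (k + 1)) y = (C.d s).app (2 ^ (k + 1)) (-x) := by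
        rw [map_neg]
        exact eq_neg_of_add_eq_zero_left h
      obtain ⟨x', rfl⟩ := A606_pre C hi s _ _ (pow_succ' 2 k) hex y (-x) h1
      have h2 : (C.d s).app (2 ^ (k + 1)) (-x - (C.M (s + 1)).Sq (2 ^ k) (2 ^ (k + 1)) x') = 0 := by
        rw [map_sub, (C.d s).comm, ← h1, sub_self]
      obtain ⟨z, hz⟩ := hex' _ h2
      have h3 := hgd (2 ^ (k + 1)) z
      rw [hz, map_sub, A606_cpt hg k x', map_neg] at h3
      show w ((C.d s).app (2 ^ k) x') + g (2 ^ (k + 1)) x = 0
      rw [hw]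
      have h4 : g (2 ^ k) x' = - g (2 ^ (k + 1)) x := (sub_eq_zero.1 h3).symm
      rw [h4, neg_add_cancel])
  refine ⟨w', fun x => ?_, fun y => ?_⟩
  · have := hw' (0, x)
    simpa [LinearMap.coprod_apply] using this
  · have := hw' (y, 0)
    simpa [LinearMap.coprod_apply] using this

private theorem A606_start (C : AMC) (s n : ℕ) (hex' : C.ExAt (s + 1) n)
    {g : ∀ n, Module.Dual (ZMod 2) ((C.M (s + 1)).M n)}
    (hgd : ∀ n x, g n ((C.d (s + 1)).app n x) = 0) :
    ∃ w : Module.Dual (ZMod 2) ((C.M s).M n), ∀ x, w ((C.d s).app n x) = g n x :=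
  A606_ext ((C.d s).app n) (g n) (by
    intro x hx
    obtain ⟨z, rfl⟩ := hex' x hx
    exact hgd n z)

/-- exactness of `HomH _ 0` on a complex with bounded homology -/
theorem AMC.homEx_zero (C : AMC) (hi : ∀ s, (C.M s).Inj0) (hb : ∀ s, (C.M s).Beta) (hB : C.Bdd) :
    C.HomEx 0 := by
  constructor
  · intro g hg hgd
    obtain ⟨D, hD⟩ := hB 0
    funext j
    apply LinearMap.ext
    intro x
    rcases Nat.eq_zero_or_pos j with rfl | hj
    · rw [hg.1 0 le_rfl]
      rfl
    · have hk : D < 2 ^ max D j := lt_of_le_of_lt (le_max_left D j) Nat.lt_two_pow_self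
      obtain ⟨y, hy⟩ := hD _ hk ((C.M 0).cSq j (2 ^ max D j) x)
      rw [← HomH_cSq hg j (max D j) hj (le_max_right _ _) x, ← hy, hgd]
      rfl
  · intro s g hg hgd
    obtain ⟨D1, hD1⟩ := hB s
    obtain ⟨D2, hD2⟩ := hB (s + 1)
    set k0 := max D1 D2 with hk0
    have hx1 : ∀ k, k0 ≤ k → C.ExAt s (2 ^ k) := fun k hk =>
      hD1 _ (lt_of_le_of_lt ((le_max_left _ _).trans hk) Nat.lt_two_pow_self)
    have hx2 : ∀ k, k0 ≤ k → C.ExAt (s + 1) (2 ^ k) := fun k hk =>
      hD2 _ (lt_of_le_of_lt ((le_max_right _ _).trans hk) Nat.lt_two_pow_self)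
    obtain ⟨l, hl1, hl2⟩ := A606_dc (α := fun k => Module.Dual (ZMod 2) ((C.M s).M (2 ^ k)))
      (fun k w => k0 ≤ k → ∀ x, w ((C.d s).app (2 ^ k) x) = g (2 ^ k) x)
      (fun k w w' => k0 ≤ k → ∀ y, w' ((C.M s).Sq (2 ^ k) (2 ^ (k + 1)) y) = w y)
      (by
        by_cases h : k0 ≤ 0
        · obtain ⟨w, hw⟩ := A606_start C s (2 ^ 0) (hx2 0 h) hgd
          exact ⟨w, fun _ => hw⟩
        · exact ⟨0, fun h' => absurd h' h⟩)
      (by
        intro k w hw
        by_cases h : k0 ≤ k
        · obtain ⟨w', h1, h2⟩ := A606_step C hi s k (hx1 k h) (hx2 (k + 1) (by omega)) hg hgd w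
            (hw h)
          exact ⟨w', fun _ => h1, fun _ => h2⟩
        · by_cases h' : k0 ≤ k + 1
          · obtain ⟨w', hw'⟩ := A606_start C s (2 ^ (k + 1)) (hx2 (k + 1) h') hgd
            exact ⟨w', fun _ => hw', fun h3 => absurd h3 h⟩
          · exact ⟨0, fun h3 => absurd h3 h', fun h3 => absurd h3 h⟩)
    obtain ⟨l', hl', hc⟩ := A606_down (C.d s) (fun k => g (2 ^ k)) (A606_cpt hg) k0 l hl1 hl2
    obtain ⟨f, hf, hfl⟩ := hb s l' hc
    refine ⟨f, hf, fun n x => ?_⟩
    rcases Nat.eq_zero_or_pos n with rfl | hn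
    · rw [hf.1 0 le_rfl, hg.1 0 le_rfl]
      rfl
    · obtain ⟨K, hK⟩ := hfl n ((C.d s).app n x)
      rw [hK (max K n) (le_max_left _ _), ← AMHom.cSq, hl']
      exact HomH_cSq hg n _ hn (le_max_right _ _) x

end MM

end

/-! ### from `Lib_MP_33f7bb_d.A607` -/

section

/-!
# A6-07: loops: boundedness of the homology, `HomH _ (t+1)`, suspensions

`AMC.Om_Bdd`: `D' s = max (D s) (2 * D (s-1) + 2)`.  Let `x ∈ (Om M_s)^n` with `d x = 0`, `n > D' s`; `x = pr x1`, `x1 ∈ M_s^(n+1)`.
 `s = 0`: `x1 = d y`.  `s ≥ 1`: `pr (d x1) = 0`, so `d x1 ∈ im0`: (`AM.mem_im0`) `d x1 = 0` or `d x1 = Sq0 y`, `y ∈ M_(s-1)^p`,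
 `2 p = n + 1`.  In the first case `x1 = d w`, done.  In the second case, if `s ≥ 2`: `Sq0 (d y) = d (Sq0 y) = d d x1 = 0`, so `d y = 0`
 (`Inj0` of `M_(s-2)`), so `y = d y'` (exactness at `M_(s-1)` in degree `p > D (s-1)`); if `s = 1`: `y = d y'` by exactness
 (surjectivity) at `M_0`.  Then `d (x1 - Sq0 y') = 0`, `x1 = Sq0 y' + d w`, `x = pr (d w) = d (pr w)` (`pr (Sq0 y') = 0`:
 `AM.Sq_mem_im0`).
`HomH_Om`: for `f ∈ HomH M (t+1)`: `f (2p) (Sq p (2p) y) = choose (p - (t+1)) p * f p y = 0`: `p ≥ t + 2`: `p - (t+1) < p`;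
 `p ≤ t + 1`: `f p = 0`.  So `f (n+1)` descends to the quotient; relations: `choose ((n+1) - (t+1)) ((m+1) - (n+1)) =
 choose (n - t) (m - n)`.
`HomH_Om'`: put `f (n+1) = g n ∘ pr`, `f 0 = 0` (case distinction on `n`); relation for `n = 0 < m`: `Sq 0 m = 0` (`unst`).
`HomEx.of_Om`: combine.
`AMC.desusp`: the desuspended complex; `HomEx.of_susp`: `HomH N (t+1) = HomH M t` for a suspension `N` of `M`:
 `f ↦ (n ↦ f (n+1) ∘ e n)`, inverse: `g ↦ (n+1 ↦ g n ∘ (e n).symm, 0 ↦ 0)`.
-/

namespace MM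

private theorem A607_inj {M : AM} (h : M.Inj0) {p n : ℕ} (hp : 2 * p = n) (x : M.M p)
    (hx : M.Sq p n x = 0) : x = 0 := by
  subst hp
  exact h p x hx

theorem AMC.Om_Bdd (C : AMC) (h : ∀ s, (C.M s).Frob) (hi : ∀ s, (C.M s).Inj0) (hB : C.Bdd) :
    (C.Om h).Bdd := by
  choose D hD using hB
  intro s
  cases s with
  | zero =>
    refine ⟨D 0, fun n hn => ?_⟩
    intro x
    obtain ⟨x1, rfl⟩ := AM.Om.pr_surjective (C.M 0) (h 0) n x
    have h1 : C.ExAt 0 (n + 1) := hD 0 (n + 1) (by omega)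
    obtain ⟨y, hy⟩ := h1 x1
    refine ⟨AM.Om.pr _ (h (0 + 1)) n y, ?_⟩
    show (AM.OmMap _ _ (C.d 0)).app n (AM.Om.pr _ _ n y) = _
    rw [AM.OmMap_pr, hy]
  | succ s =>
    refine ⟨max (D (s + 1)) (2 * D s + 2), fun n hn => ?_⟩
    have hn1 : D (s + 1) < n := lt_of_le_of_lt (le_max_left _ _) hn
    have hn2 : 2 * D s + 2 < n := lt_of_le_of_lt (le_max_right _ _) hn
    intro x hx
    obtain ⟨x1, rfl⟩ := AM.Om.pr_surjective (C.M (s + 1)) (h (s + 1)) n x
    have hex : C.ExAt (s + 1) (n + 1) := hD (s + 1) (n + 1) (by omega)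
    have hx' : AM.Om.pr _ (h s) n ((C.d s).app (n + 1) x1) = 0 := hx
    rcases AM.mem_im0 (AM.Om.pr_eq_zero.1 hx') with h0 | ⟨p, hp, y, hy⟩
    · obtain ⟨w, hw⟩ := hex x1 h0
      refine ⟨AM.Om.pr _ (h (s + 1 + 1)) n w, ?_⟩
      show (AM.OmMap _ _ (C.d (s + 1))).app n (AM.Om.pr _ _ n w) = _
      rw [AM.OmMap_pr, hw]
    · obtain ⟨y', hy'⟩ : ∃ y', (C.d s).app p y' = y := by
        cases s with
        | zero =>
          have h2 : C.ExAt 0 p := hD 0 p (by omega)
          exact h2 y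
        | succ s =>
          have h2 : C.ExAt (s + 1) p := hD (s + 1) p (by omega)
          refine h2 y (A607_inj (hi s) hp _ ?_)
          rw [← (C.d s).comm, ← hy, C.dd]
      have h3 : (C.d s).app (n + 1) (x1 - (C.M (s + 1)).Sq p (n + 1) y') = 0 := by
        rw [map_sub, (C.d s).comm, hy', hy, sub_self]
      obtain ⟨w, hw⟩ := hex _ h3
      refine ⟨AM.Om.pr _ (h (s + 1 + 1)) n w, ?_⟩
      show (AM.OmMap _ _ (C.d (s + 1))).app n (AM.Om.pr _ _ n w) = _
      rw [AM.OmMap_pr, hw, map_sub, AM.Om.pr_eq_zero.2 ((C.M (s + 1)).Sq_mem_im0 hp y'), sub_zero]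

private theorem A607_im0 {M : AM} (t : ℕ) {f : ∀ n, Module.Dual (ZMod 2) (M.M n)}
    (hf : f ∈ M.HomH (t + 1)) {n : ℕ} {x : M.M (n + 1)} (hx : x ∈ M.im0 n) : f (n + 1) x = 0 := by
  rcases AM.mem_im0 hx with rfl | ⟨p, hp, y, rfl⟩
  · exact map_zero _
  · rw [hf.2 p (n + 1) y (by omega)]
    by_cases h : p ≤ t + 1
    · rw [hf.1 p h, LinearMap.zero_apply, mul_zero]
    · have h1 : n + 1 - p = p := by omega
      rw [h1, Nat.choose_eq_zero_of_lt (by omega), Nat.cast_zero, zero_mul]

theorem HomH_Om {M : AM} (h : M.Frob) (t : ℕ) {f : ∀ n, Module.Dual (ZMod 2) (M.M n)}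
    (hf : f ∈ M.HomH (t + 1)) :
    ∃ g ∈ (M.Om h).HomH t, ∀ n x, g n (AM.Om.pr M h n x) = f (n + 1) x := by
  have hker : ∀ n, M.im0 n ≤ LinearMap.ker (f (n + 1)) := fun n x hx => A607_im0 t hf hx
  obtain ⟨g, hg⟩ : ∃ g : ∀ n, Module.Dual (ZMod 2) ((M.Om h).M n),
      ∀ n x, g n (AM.Om.pr M h n x) = f (n + 1) x :=
    ⟨fun n => Submodule.liftQ _ (f (n + 1)) (hker n), fun _ _ => rfl⟩
  refine ⟨g, ⟨fun n hn => ?_, fun n m x hnm => ?_⟩, hg⟩
  · apply LinearMap.ext
    intro x
    obtain ⟨x1, rfl⟩ := AM.Om.pr_surjective _ _ _ x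
    rw [hg, hf.1 (n + 1) (by omega)]
    rfl
  · obtain ⟨x1, rfl⟩ := AM.Om.pr_surjective _ _ _ x
    rw [AM.Om.Sq_pr, hg, hg, hf.2 (n + 1) (m + 1) x1 (by omega), Nat.add_sub_add_right,
      Nat.add_sub_add_right]

theorem HomH_Om' {M : AM} (h : M.Frob) (t : ℕ) {g : ∀ n, Module.Dual (ZMod 2) ((M.Om h).M n)}
    (hg : g ∈ (M.Om h).HomH t) :
    ∃ f ∈ M.HomH (t + 1), ∀ n x, g n (AM.Om.pr M h n x) = f (n + 1) x := by
  obtain ⟨f, hf0, hfs⟩ : ∃ f : ∀ n, Module.Dual (ZMod 2) (M.M n), f 0 = 0 ∧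
      ∀ n, f (n + 1) = (g n).comp (AM.Om.pr M h n) :=
    ⟨fun n => Nat.rec (motive := fun n => Module.Dual (ZMod 2) (M.M n)) 0
      (fun n _ => (g n).comp (AM.Om.pr M h n)) n, rfl, fun _ => rfl⟩
  refine ⟨f, ⟨fun n hn => ?_, fun n m x hnm => ?_⟩, fun n x => ?_⟩
  · cases n with
    | zero => exact hf0
    | succ n => rw [hfs, hg.1 n (by omega), LinearMap.zero_comp]
  · cases n with
    | zero =>
      rw [hf0, LinearMap.zero_apply, mul_zero]
      cases m with
      | zero => rw [hf0]; rfl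
      | succ m => rw [M.unst 0 (m + 1) (by omega), LinearMap.zero_apply, map_zero]
    | succ n =>
      obtain ⟨m, rfl⟩ : ∃ m', m = m' + 1 := ⟨m - 1, by omega⟩
      rw [hfs, hfs, LinearMap.comp_apply, LinearMap.comp_apply, ← AM.Om.Sq_pr,
        hg.2 n m _ (by omega), Nat.add_sub_add_right, Nat.add_sub_add_right]
  · rw [hfs]
    rfl

theorem AMC.HomEx.of_Om (C : AMC) (h : ∀ s, (C.M s).Frob) (t : ℕ) (hO : (C.Om h).HomEx t) :
    C.HomEx (t + 1) := by
  constructor
  · intro g hg hgd
    obtain ⟨g', hg', hgg⟩ := HomH_Om (h 0) t hg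
    have h1 : g' = 0 := by
      refine hO.zero g' hg' fun n x => ?_
      obtain ⟨x1, rfl⟩ := AM.Om.pr_surjective (C.M (0 + 1)) (h (0 + 1)) n x
      show g' n ((AM.OmMap _ _ (C.d 0)).app n (AM.Om.pr _ _ n x1)) = 0
      rw [AM.OmMap_pr, hgg, hgd]
    funext n
    cases n with
    | zero => exact hg.1 0 (by omega)
    | succ n =>
      apply LinearMap.ext
      intro x
      rw [← hgg, h1]
      rfl
  · intro s g hg hgd
    obtain ⟨g', hg', hgg⟩ := HomH_Om (h (s + 1)) t hg
    obtain ⟨k, hk, hkk⟩ := hO.succ s g' hg' fun n x => by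
      obtain ⟨x1, rfl⟩ := AM.Om.pr_surjective (C.M (s + 1 + 1)) (h (s + 1 + 1)) n x
      show g' n ((AM.OmMap _ _ (C.d (s + 1))).app n (AM.Om.pr _ _ n x1)) = 0
      rw [AM.OmMap_pr, hgg, hgd]
    obtain ⟨f, hf, hff⟩ := HomH_Om' (h s) t hk
    refine ⟨f, hf, fun n x => ?_⟩
    cases n with
    | zero => rw [hf.1 0 (by omega), hg.1 0 (by omega)]; rfl
    | succ n =>
      rw [← hff, ← hgg]
      exact hkk n (AM.Om.pr _ (h (s + 1)) n x)

/-- the desuspension of a complex -/
noncomputable def AMC.desusp (C : AMC) (G : ℕ → AM) (S : ∀ s, IsSusp (G s) (C.M s)) : AMC where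
  M := G
  d s := ⟨fun n => (((S s).e n).symm.toLinearMap.comp ((C.d s).app (n + 1))).comp
      ((S (s + 1)).e n).toLinearMap, fun n m x => by
    show ((S s).e m).symm ((C.d s).app (m + 1) ((S (s + 1)).e m ((G (s + 1)).Sq n m x))) =
      (G s).Sq n m (((S s).e n).symm ((C.d s).app (n + 1) ((S (s + 1)).e n x)))
    apply ((S s).e m).injective
    rw [LinearEquiv.apply_symm_apply, (S s).comm, LinearEquiv.apply_symm_apply, (S (s + 1)).comm,
      (C.d s).comm]⟩
  dd s n x := by
    show ((S s).e n).symm ((C.d s).app (n + 1) ((S (s + 1)).e n (((S (s + 1)).e n).symm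
      ((C.d (s + 1)).app (n + 1) ((S (s + 1 + 1)).e n x))))) = 0
    rw [LinearEquiv.apply_symm_apply, C.dd, map_zero]

theorem AMC.desusp_Bdd (C : AMC) (G : ℕ → AM) (S : ∀ s, IsSusp (G s) (C.M s)) (hB : C.Bdd) :
    (C.desusp G S).Bdd := by
  intro s
  obtain ⟨D, hD⟩ := hB s
  refine ⟨D, fun n hn => ?_⟩
  have h1 := hD (n + 1) (by omega)
  cases s with
  | zero =>
    intro x
    obtain ⟨y, hy⟩ := h1 ((S 0).e n x)
    refine ⟨((S (0 + 1)).e n).symm y, ?_⟩
    show ((S 0).e n).symm ((C.d 0).app (n + 1) ((S (0 + 1)).e n (((S (0 + 1)).e n).symm y))) = x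
    rw [LinearEquiv.apply_symm_apply, hy, LinearEquiv.symm_apply_apply]
  | succ s =>
    intro x hx
    have hx' : ((S s).e n).symm ((C.d s).app (n + 1) ((S (s + 1)).e n x)) = 0 := hx
    obtain ⟨y, hy⟩ := h1 ((S (s + 1)).e n x) (((S s).e n).symm.map_eq_zero_iff.1 hx')
    refine ⟨((S (s + 1 + 1)).e n).symm y, ?_⟩
    show ((S (s + 1)).e n).symm ((C.d (s + 1)).app (n + 1)
      ((S (s + 1 + 1)).e n (((S (s + 1 + 1)).e n).symm y))) = x
    rw [LinearEquiv.apply_symm_apply, hy, LinearEquiv.symm_apply_apply]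

private theorem A607_susp {M N : AM} (S : IsSusp M N) (t : ℕ)
    {f : ∀ n, Module.Dual (ZMod 2) (N.M n)} (hf : f ∈ N.HomH (t + 1)) :
    ∃ g ∈ M.HomH t, ∀ n x, g n x = f (n + 1) (S.e n x) := by
  refine ⟨fun n => (f (n + 1)).comp (S.e n).toLinearMap, ⟨fun n hn => ?_, fun n m x hnm => ?_⟩,
    fun _ _ => rfl⟩
  · show (f (n + 1)).comp (S.e n).toLinearMap = 0
    rw [hf.1 (n + 1) (by omega), LinearMap.zero_comp]
  · show f (m + 1) (S.e m (M.Sq n m x)) = _ * f (n + 1) (S.e n x)
    rw [S.comm, hf.2 (n + 1) (m + 1) _ (by omega), Nat.add_sub_add_right, Nat.add_sub_add_right]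

private theorem A607_susp' {M N : AM} (S : IsSusp M N) (t : ℕ)
    {g : ∀ n, Module.Dual (ZMod 2) (M.M n)} (hg : g ∈ M.HomH t) :
    ∃ f ∈ N.HomH (t + 1), ∀ n x, g n x = f (n + 1) (S.e n x) := by
  obtain ⟨f, hf0, hfs⟩ : ∃ f : ∀ n, Module.Dual (ZMod 2) (N.M n), f 0 = 0 ∧
      ∀ n x, f (n + 1) (S.e n x) = g n x :=
    ⟨fun n => Nat.rec (motive := fun n => Module.Dual (ZMod 2) (N.M n)) 0
      (fun n _ => (g n).comp (S.e n).symm.toLinearMap) n, rfl, fun n x => by
        show g n ((S.e n).symm (S.e n x)) = g n x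
        rw [LinearEquiv.symm_apply_apply]⟩
  have hsurj : ∀ n (x : N.M (n + 1)), ∃ x', S.e n x' = x := fun n x =>
    ⟨(S.e n).symm x, LinearEquiv.apply_symm_apply _ _⟩
  refine ⟨f, ⟨fun n hn => ?_, fun n m x hnm => ?_⟩, fun n x => (hfs n x).symm⟩
  · cases n with
    | zero => exact hf0
    | succ n =>
      apply LinearMap.ext
      intro x
      obtain ⟨x', rfl⟩ := hsurj n x
      rw [hfs, hg.1 n (by omega)]
      rfl
  · cases n with
    | zero => rw [S.zero x, map_zero, map_zero, map_zero, mul_zero]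
    | succ n =>
      obtain ⟨m, rfl⟩ : ∃ m', m = m' + 1 := ⟨m - 1, by omega⟩
      obtain ⟨x', rfl⟩ := hsurj n x
      rw [← S.comm, hfs, hfs, hg.2 n m _ (by omega), Nat.add_sub_add_right,
        Nat.add_sub_add_right]

private theorem A607_d (C : AMC) (G : ℕ → AM) (S : ∀ s, IsSusp (G s) (C.M s)) (s n : ℕ)
    (x : (G (s + 1)).M n) : (S s).e n (((C.desusp G S).d s).app n x) =
      (C.d s).app (n + 1) ((S (s + 1)).e n x) := by
  show (S s).e n (((S s).e n).symm ((C.d s).app (n + 1) ((S (s + 1)).e n x))) = _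
  rw [LinearEquiv.apply_symm_apply]

theorem AMC.HomEx.of_desusp (C : AMC) (G : ℕ → AM) (S : ∀ s, IsSusp (G s) (C.M s)) (t : ℕ)
    (h : (C.desusp G S).HomEx t) : C.HomEx (t + 1) := by
  constructor
  · intro g hg hgd
    obtain ⟨g', hg', hgg⟩ := A607_susp (S 0) t hg
    have h1 : g' = 0 := by
      refine h.zero g' hg' fun n x => ?_
      have h2 := hgg n (((C.desusp G S).d 0).app n x)
      rw [A607_d, hgd] at h2
      exact h2
    funext n
    cases n with
    | zero => exact hg.1 0 (by omega)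
    | succ n =>
      apply LinearMap.ext
      intro x
      have h2 := hgg n (((S 0).e n).symm x)
      rw [LinearEquiv.apply_symm_apply, h1] at h2
      exact h2.symm
  · intro s g hg hgd
    obtain ⟨g', hg', hgg⟩ := A607_susp (S (s + 1)) t hg
    obtain ⟨k, hk, hkk⟩ := h.succ s g' hg' fun n x => by
      have h2 := hgg n (((C.desusp G S).d (s + 1)).app n x)
      rw [A607_d, hgd] at h2
      exact h2
    obtain ⟨f, hf, hff⟩ := A607_susp' (S s) t hk
    refine ⟨f, hf, fun n x => ?_⟩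
    cases n with
    | zero => rw [hf.1 0 (by omega), hg.1 0 (by omega)]; rfl
    | succ n =>
      have h2 := hgg n (((S (s + 1)).e n).symm x)
      rw [LinearEquiv.apply_symm_apply] at h2
      have h3 := hkk n (((S (s + 1)).e n).symm x)
      have h4 := hff n (((C.desusp G S).d s).app n (((S (s + 1)).e n).symm x))
      rw [A607_d, LinearEquiv.apply_symm_apply] at h4
      rw [← h2]
      exact h4.symm.trans h3

end MM

end

/-! ### from `Lib_MP_33f7bb_d.A602` -/

section

/-!
# A6-02: the inverse total square on `E(n)`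

Let `U y b = ∑_(c ≤ b) y c` for any function `y : (Fin n → ℕ) → ZMod 2` (sum over the finite set `Finset.Iic b` of the
product order).  Claim `EAM_cSq`: `(cSq j m y) b = U y b` if `wt b = m`, `0` otherwise, for `y ∈ E(n)^j`.
Proof.  The right hand side defines linear maps `c j : EE n j → EE n m` (symmetric: `U y (b ∘ σ) = U y b` by
reindexing; finitely many `b` with `wt b = m`; `LinearMap` by hand).  Apply `AM.cSq_unique`.
`c m = id`: if `wt b = m`, `y ∈ EE n m`, `c ≤ b` and `y c ≠ 0` then `wt c = m = wt b`, so `c = b` (`2^` strictly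
monotone).  Relation: for `y ∈ EE n j`, `j < m`, `wt b = m`:
`∑_(j ≤ k ≤ m) U (wtc k (Sqt y)) b = U (Sqt y) b` because all `c ≤ b` with `Sqt y c ≠ 0` have weight between `j` (`Sqt_wt`)
and `m`; and `U (Sqt y) b = y b` (in char 2, telescoping in each coordinate), which is `0` since `wt b = m ≠ j`.
`U (Sqt y) b = y b`: one coordinate at a time.  `Sqt y c = ∑_(ε ≤ c) y (c - ε)` (`Sqt_apply_eq`).  The double sum
`∑_(c ≤ b) ∑_(ε ∈ {0,1}^n, ε ≤ c) y (c - ε)`: substitute `c' = c - ε`: it is `∑_(c' ≤ b) y c' * #{ε ∈ {0,1}^n : c' + ε ≤ b}`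
and the number of these `ε` is `2^(number of i with c' i < b i)`, which is odd iff `c' = b`.
-/

namespace MM

/-- entries are at most the weight -/
theorem lt_wt {n : ℕ} (b : Fin n → ℕ) (i : Fin n) : b i < wt b := by
  have h1 : b i < 2 ^ b i := Nat.lt_two_pow_self
  have h2 : 2 ^ b i ≤ wt b :=
    Finset.single_le_sum (f := fun i => 2 ^ b i) (fun _ _ => Nat.zero_le _) (Finset.mem_univ i)
  exact h1.trans_le h2

theorem wt_finite (n m : ℕ) : {b : Fin n → ℕ | wt b = m}.Finite := by
  refine (Set.finite_Iic (fun _ : Fin n => m)).subset ?_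
  rintro b rfl i
  exact (lt_wt b i).le

private theorem A602_wt_lt {n : ℕ} {c b : Fin n → ℕ} (h : c ≤ b) (hne : c ≠ b) :
    wt c < wt b := by
  obtain ⟨i, hi⟩ := Function.ne_iff.1 hne
  refine Finset.sum_lt_sum (fun j _ => Nat.pow_le_pow_right (by norm_num) (h j))
    ⟨i, Finset.mem_univ _, ?_⟩
  exact Nat.pow_lt_pow_right (by norm_num) (lt_of_le_of_ne (h i) hi)

private theorem A602_wt_le {n : ℕ} {c b : Fin n → ℕ} (h : c ≤ b) : wt c ≤ wt b :=
  Finset.sum_le_sum fun j _ => Nat.pow_le_pow_right (by norm_num) (h j)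

open Classical in
private theorem A602_count {n : ℕ} (a b : Fin n → ℕ) :
    (∑ ε : Fin n → Fin 2, if (fun i => a i + (ε i : ℕ)) ≤ b then (1 : ZMod 2) else 0) =
      if a = b then 1 else 0 := by
  classical
  have h1 : ∀ ε : Fin n → Fin 2, (if (fun i => a i + (ε i : ℕ)) ≤ b then (1 : ZMod 2) else 0) =
      ∏ i, if a i + (ε i : ℕ) ≤ b i then (1 : ZMod 2) else 0 := by
    intro ε
    rw [Finset.prod_ite_zero]
    simp [Pi.le_def]
  have h2 : ∀ i, (∑ e : Fin 2, if a i + (e : ℕ) ≤ b i then (1 : ZMod 2) else 0) =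
      if a i = b i then 1 else 0 := by
    intro i
    rw [Fin.sum_univ_two]
    rcases lt_trichotomy (a i) (b i) with h | h | h
    · rw [if_pos (by simpa using h.le), if_pos (by simpa using h), if_neg h.ne]
      decide
    · rw [if_pos (by simp [h]), if_neg (by simp [h]), if_pos h, add_zero]
    · rw [if_neg (by simpa using h), if_neg (by simp; omega), if_neg h.ne', add_zero]
  rw [Finset.sum_congr rfl fun ε _ => h1 ε]
  have h3 := Finset.prod_univ_sum (fun _ : Fin n => (Finset.univ : Finset (Fin 2)))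
    (fun i e => if a i + (e : ℕ) ≤ b i then (1 : ZMod 2) else 0)
  rw [Fintype.piFinset_univ] at h3
  rw [← h3, Finset.prod_congr rfl fun i _ => h2 i, Finset.prod_ite_zero]
  simp [funext_iff]

private theorem A602_U_Sqt {n : ℕ} (y : Mon n) (b : Fin n → ℕ) :
    ∑ c ∈ Finset.Iic b, Sqt y c = y b := by
  classical
  induction y using Finsupp.induction_linear with
  | zero => simp
  | add u v hu hv =>
    rw [map_add]
    simp only [Finsupp.add_apply]
    rw [Finset.sum_add_distrib, hu, hv]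
  | single a r =>
    rw [Sqt_single]
    simp only [Finsupp.finsetSum_apply]
    rw [Finset.sum_comm]
    have h1 : ∀ ε : Fin n → Fin 2,
        (∑ c ∈ Finset.Iic b, (Finsupp.single (fun i => a i + (ε i : ℕ)) r : Mon n) c) =
        r * (if (fun i => a i + (ε i : ℕ)) ≤ b then (1 : ZMod 2) else 0) := by
      intro ε
      simp only [Finsupp.single_apply]
      rw [Finset.sum_ite_eq]
      simp only [Finset.mem_Iic, mul_ite, mul_one, mul_zero]
    rw [Finset.sum_congr rfl fun ε _ => h1 ε, ← Finset.mul_sum, A602_count, Finsupp.single_apply]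
    simp

private noncomputable def A602_c (n j m : ℕ) : EE n j →ₗ[ZMod 2] EE n m where
  toFun y := ⟨Finsupp.onFinset (wt_finite n m).toFinset
    (fun b => if wt b = m then ∑ c ∈ Finset.Iic b, y.1 c else 0) (fun b hb => by
      rw [Set.Finite.mem_toFinset]
      by_contra h
      exact hb (if_neg h)), by
    refine ⟨fun b hb => ?_, fun σ b => ?_⟩
    · by_contra h
      exact hb (if_neg h)
    · show (if wt (b ∘ σ) = m then ∑ c ∈ Finset.Iic (b ∘ σ), y.1 c else 0) =
        (if wt b = m then ∑ c ∈ Finset.Iic b, y.1 c else 0)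
      rw [wt_comp]
      congr 1
      refine Finset.sum_nbij' (fun c => c ∘ σ.symm) (fun c => c ∘ σ) ?_ ?_ ?_ ?_ ?_
      · intro c hc
        rw [Finset.mem_Iic] at hc ⊢
        intro i
        have := hc (σ.symm i)
        simpa using this
      · intro c hc
        rw [Finset.mem_Iic] at hc ⊢
        intro i
        exact hc (σ i)
      · intro c _
        funext i
        simp
      · intro c _
        funext i
        simp
      · intro c _
        exact (y.2.2 σ.symm c).symm⟩
  map_add' y z := by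
    refine Subtype.ext (Finsupp.ext fun b => ?_)
    show (if wt b = m then ∑ c ∈ Finset.Iic b, (y.1 + z.1) c else 0) =
      (if wt b = m then ∑ c ∈ Finset.Iic b, y.1 c else 0) +
      (if wt b = m then ∑ c ∈ Finset.Iic b, z.1 c else 0)
    split_ifs
    · rw [← Finset.sum_add_distrib]
      rfl
    · rw [add_zero]
  map_smul' r y := by
    refine Subtype.ext (Finsupp.ext fun b => ?_)
    show (if wt b = m then ∑ c ∈ Finset.Iic b, (r • y.1) c else 0) =
      r • (if wt b = m then ∑ c ∈ Finset.Iic b, y.1 c else 0)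
    split_ifs
    · rw [Finset.smul_sum]
      rfl
    · rw [smul_zero]

private theorem A602_c_apply {n j m : ℕ} (y : EE n j) (b : Fin n → ℕ) :
    (A602_c n j m y).1 b = if wt b = m then ∑ c ∈ Finset.Iic b, y.1 c else 0 := rfl

private theorem A602_id (n m : ℕ) : A602_c n m m = LinearMap.id := by
  refine LinearMap.ext fun y => Subtype.ext (Finsupp.ext fun b => ?_)
  rw [A602_c_apply, LinearMap.id_apply]
  split_ifs with h
  · rw [Finset.sum_eq_single b]
    · intro c hc hne
      rw [Finset.mem_Iic] at hc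
      by_contra h1
      have h2 := y.2.1 c h1
      have h3 := A602_wt_lt hc hne
      omega
    · intro h1
      exact absurd (Finset.mem_Iic.2 le_rfl) h1
  · by_contra h1
    exact h (y.2.1 b fun h2 => h1 h2.symm)

private theorem A602_rel (n j m : ℕ) (hjm : j < m) :
    ∑ k ∈ Finset.Icc j m, (A602_c n k m).comp ((EAM n).Sq j k) = 0 := by
  classical
  refine LinearMap.ext fun y => ?_
  rw [LinearMap.sum_apply]
  refine Subtype.ext (Finsupp.ext fun b => ?_)
  rw [AddSubmonoidClass.coe_finsetSum, Finsupp.finsetSum_apply]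
  have h1 : ∀ k, ((A602_c n k m).comp ((EAM n).Sq j k) y).1 b =
      if wt b = m then ∑ c ∈ Finset.Iic b, (if wt c = k then Sqt (y : EE n j).1 c else 0) else 0 := by
    intro k
    show (A602_c n k m ((EAM n).Sq j k y : EE n k)).1 b = _
    rw [A602_c_apply]
    congr 1
  rw [Finset.sum_congr rfl fun k _ => h1 k]
  show _ = (0 : ZMod 2)
  by_cases hb : wt b = m
  · simp only [if_pos hb]
    rw [Finset.sum_comm]
    have h2 : ∀ c ∈ Finset.Iic b, (∑ k ∈ Finset.Icc j m,
        if wt c = k then Sqt (y : EE n j).1 c else 0) = Sqt (y : EE n j).1 c := by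
      intro c hc
      rw [Finset.mem_Iic] at hc
      rw [Finset.sum_ite_eq]
      split_ifs with h3
      · rfl
      · by_contra h4
        have h5 := Sqt_wt (y : EE n j).2.1 c (fun h6 => h4 h6.symm)
        have h6 := A602_wt_le hc
        exact h3 (Finset.mem_Icc.2 ⟨h5.1, by omega⟩)
    rw [Finset.sum_congr rfl h2, A602_U_Sqt]
    by_contra h7
    have h8 := (y : EE n j).2.1 b h7
    omega
  · simp only [if_neg hb, Finset.sum_const_zero]

/-- the formula for the inverse total square on `E(n)` -/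
theorem EAM_cSq {n j m : ℕ} (y : (EAM n).M j) (b : Fin n → ℕ) :
    ((EAM n).cSq j m y : EE n m).1 b =
      if wt b = m then ∑ c ∈ Finset.Iic b, (y : EE n j).1 c else 0 := by
  rcases lt_or_ge m j with h | h
  · rw [AM.cSq_lt _ _ _ h]
    show (0 : ZMod 2) = _
    split_ifs with hb
    · refine (Finset.sum_eq_zero fun c hc => ?_).symm
      rw [Finset.mem_Iic] at hc
      by_contra h1
      have h2 := (y : EE n j).2.1 c h1
      have h3 := A602_wt_le hc
      omega
    · rfl
  · have h1 := AM.cSq_unique (EAM n) m (fun j => A602_c n j m) (A602_id n m)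
      (fun j hj => A602_rel n j m hj) j h
    rw [← h1]
    exact A602_c_apply (y : EE n j) b

end MM

end

/-! ### from `Lib_MP_33f7bb_d.A604` -/

section

/-!
# A6-04: `Sq0` on `E(n)`: injectivity and relation with the other operations

`EAM_Sq0_apply`: `(Sq0 c)(b) = c (b - 1)` if all entries of `b` are `≥ 1`, `0` otherwise: in
`wtc (2 d) (Sqt c)` a summand `b = c' + ε` has weight `∑ 2^(c' i) (1 + ε i)`, equal to `2 d` only for `ε = 1`
(`c` has weight `d`; for `n = 0` both sides are `c`).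
`EAM_Inj0`: the shift `b ↦ b + 1` is injective.
`EAM_Frob`: `Sqt (shift c) = shift (Sqt c)`; `wt (b + 1) = 2 * wt b`, so the component of weight `2 r` of `shift w` is
the shift of the component of weight `r` of `w`, and all components of odd weight are zero.
-/

namespace MM

/-- shifting by one doubles the weight -/
private theorem wt_shift_A604 {n : ℕ} (b : Fin n → ℕ) : wt (fun i => b i + 1) = 2 * wt b := by
  unfold wt
  rw [Finset.mul_sum]
  exact Finset.sum_congr rfl fun i _ => by ring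

private theorem wt_pred_A604 {n : ℕ} {b : Fin n → ℕ} (h : ∀ i, 1 ≤ b i) :
    wt b = 2 * wt (fun i => b i - 1) := by
  rw [← wt_shift_A604]
  congr 1
  funext i
  have := h i
  omega

/-- if adding `ε` doubles the weight then `ε = 1` -/
private theorem wt_double_A604 {n : ℕ} {b : Fin n → ℕ} {ε : Fin n → Fin 2}
    (h : wt (fun i => b i + (ε i : ℕ)) = 2 * wt b) : ε = 1 := by
  funext i
  by_contra hi
  have h0 : (ε i : ℕ) = 0 := by
    have h1 : (ε i : ℕ) < 2 := (ε i).2
    have h2 : (ε i : ℕ) ≠ 1 := fun h' => hi (Fin.ext h')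
    omega
  have h1 : wt (fun i => b i + (ε i : ℕ)) < wt (fun i => b i + 1) := by
    unfold wt
    refine Finset.sum_lt_sum (fun j _ => Nat.pow_le_pow_right (by norm_num) ?_)
      ⟨i, Finset.mem_univ _, ?_⟩
    · have : (ε j : ℕ) < 2 := (ε j).2
      show b j + (ε j : ℕ) ≤ b j + 1
      omega
    · refine Nat.pow_lt_pow_right (by norm_num) ?_
      show b i + (ε i : ℕ) < b i + 1
      omega
  rw [wt_shift_A604] at h1
  omega

private theorem Sq_apply_A604 {n d m : ℕ} (c : (EAM n).M d) (b : Fin n → ℕ) :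
    ((EAM n).Sq d m c : EE n m).1 b = if wt b = m then
      ∑ ε : Fin n → Fin 2, (if ∀ i, (ε i : ℕ) ≤ b i then
        (c : EE n d).1 (fun i => b i - (ε i : ℕ)) else 0) else 0 := by
  classical
  show (Finsupp.filter (fun b => wt b = m) (Sqt (c : EE n d).1)) b = _
  rw [Finsupp.filter_apply, Sqt_apply_eq]

theorem EAM_Sq0_apply {n d : ℕ} (c : (EAM n).M d) (b : Fin n → ℕ) :
    ((EAM n).Sq d (2 * d) c : EE n (2 * d)).1 b =
      if ∀ i, 1 ≤ b i then (c : EE n d).1 (fun i => b i - 1) else 0 := by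
  rw [Sq_apply_A604]
  have hc := (c : EE n d).2.1
  by_cases hb : wt b = 2 * d
  · rw [if_pos hb, Finset.sum_eq_single (1 : Fin n → Fin 2)]
    · rfl
    · intro ε _ hε
      by_contra hne
      have h : ∀ i, (ε i : ℕ) ≤ b i := by
        by_contra h
        exact hne (if_neg h)
      rw [if_pos h] at hne
      have h1 := hc _ hne
      have h2 : b = fun i => (b i - (ε i : ℕ)) + (ε i : ℕ) := by
        funext i
        have := h i
        omega
      refine hε (wt_double_A604 (b := fun i => b i - (ε i : ℕ)) ?_)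
      rw [← h2, h1, hb]
    · intro h
      exact absurd (Finset.mem_univ _) h
  · rw [if_neg hb]
    split_ifs with h
    · by_contra hne
      have h1 := hc _ fun h' => hne h'.symm
      exact hb (by rw [wt_pred_A604 h, h1])
    · rfl

theorem EAM_Inj0 (n : ℕ) : (EAM n).Inj0 := by
  intro d x hx
  refine Subtype.ext (Finsupp.ext fun b => ?_)
  have h1 := EAM_Sq0_apply x (fun i => b i + 1)
  rw [hx, if_pos (fun i => Nat.le_add_left 1 (b i))] at h1
  show (x : EE n d).1 b = 0
  have h2 : (fun i => b i + 1 - 1) = b := by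
    funext i
    exact Nat.add_sub_cancel _ _
  rw [h2] at h1
  exact h1.symm

/-- the summands of an operation applied to `Sq0 x` -/
private theorem Sq_Sq0_A604 {n p m : ℕ} (x : (EAM n).M p) (b : Fin n → ℕ) :
    ((EAM n).Sq (2 * p) m ((EAM n).Sq p (2 * p) x) : EE n m).1 b =
      if wt b = m ∧ ∀ i, 1 ≤ b i then
        ∑ ε : Fin n → Fin 2, (if ∀ i, (ε i : ℕ) ≤ b i - 1 then
          (x : EE n p).1 (fun i => b i - 1 - (ε i : ℕ)) else 0) else 0 := by
  rw [Sq_apply_A604]
  by_cases hb : wt b = m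
  · rw [if_pos hb]
    by_cases h1 : ∀ i, 1 ≤ b i
    · rw [if_pos ⟨hb, h1⟩]
      refine Finset.sum_congr rfl fun ε _ => ?_
      by_cases h2 : ∀ i, (ε i : ℕ) ≤ b i - 1
      · have h3 : ∀ i, (ε i : ℕ) ≤ b i := fun i => (h2 i).trans (Nat.sub_le _ _)
        have h4 : ∀ i, 1 ≤ b i - (ε i : ℕ) := fun i => by
          have := h1 i
          have := h2 i
          omega
        rw [if_pos h2, if_pos h3, EAM_Sq0_apply, if_pos h4]
        congr 1
        funext i
        omega
      · rw [if_neg h2]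
        split_ifs with h3
        · rw [EAM_Sq0_apply, if_neg]
          intro h4
          apply h2
          intro i
          have := h3 i
          have := h4 i
          omega
        · rfl
    · rw [if_neg (fun h => h1 h.2)]
      refine Finset.sum_eq_zero fun ε _ => ?_
      split_ifs with h3
      · rw [EAM_Sq0_apply, if_neg]
        intro h4
        apply h1
        intro i
        have := h4 i
        omega
      · rfl
  · rw [if_neg hb, if_neg (fun h => hb h.1)]

theorem EAM_Frob (n : ℕ) : (EAM n).Frob := by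
  refine ⟨fun p r x => ?_, fun p r x => ?_⟩
  · refine Subtype.ext (Finsupp.ext fun b => ?_)
    have h0 := Sq_Sq0_A604 (m := 2 * r) x b
    refine h0.trans ?_
    symm
    refine (EAM_Sq0_apply _ b).trans ?_
    by_cases h1 : ∀ i, 1 ≤ b i
    · rw [if_pos h1, Sq_apply_A604]
      have h2 := wt_pred_A604 h1
      by_cases h3 : wt (fun i => b i - 1) = r
      · rw [if_pos h3, if_pos ⟨by omega, h1⟩]
      · rw [if_neg h3, if_neg (fun h => h3 (by omega))]
    · rw [if_neg h1, if_neg (fun h => h1 h.2)]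
  · refine Subtype.ext (Finsupp.ext fun b => ?_)
    have h0 := Sq_Sq0_A604 (m := 2 * r + 1) x b
    refine h0.trans ?_
    rw [if_neg]
    · rfl
    · rintro ⟨h1, h2⟩
      have := wt_pred_A604 h2
      omega

end MM

end

/-! ### from `Lib_MP_33f7bb_d.A603` -/

section

/-!
# A6-03: `E(n)` has the property `Beta`

`wt_pow_two`: if `wt b = ∑ 2^(b i) = 2^k` then every entry satisfies `b i ≥ k - n + 1`.  Proof: let `a` be the smallest entry,
`2^k - 2^a` is the sum of the other `n - 1` powers of two, all divisible by `2^a`; `2^(k-a) - 1` is not a sum of fewer than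
`k - a` powers of two.  (Lemma: `∑_(i ∈ s) 2^(c i) + 1 = 2^t → t ≤ s.card`, induction on `t` for all `s`, `c`: for
`t ≥ 1` the sum is odd, so the number of `i` with `c i = 0` is odd; remove one of them; the remaining ones with `c i = 0` are
even in number, pair them: two ones give one `2^1`; then divide by two.  Or: strong induction on `s.card` merging two equal
entries; or use the sum of binary digits, subadditive.)
`Theta n k : EE n (2^k)` = sum of all `b` with `wt b = 2^k` (finite set, `wt_finite`); symmetric.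
`Sq0 (Theta n k) = Theta n (k+1)` for `k ≥ n`: `Sq0` is the shift `b ↦ b + 1` (`A604`, `Sqt_top`: in
`wtc (2 d) (Sqt c)` only `ε = 1` contributes) and every `b` with `wt b = 2^(k+1)` has all entries `≥ 1` (`wt_pow_two`).
`EAM_cSq_large`: for `y ∈ E(n)^j` there is `K` with `cSq j (2^k) y = (∑_c y c) • Theta n k` for `k ≥ K`: by `EAM_cSq`
and `wt_pow_two`, as soon as `k - n + 1 ≥` all entries of all `c` in the support of `y`, every `b` of weight `2^k` is above the
whole support.
`EAM_Beta`: given a compatible family `l`; `lam := l k (Theta n k)`, independent of `k ≥ n`.  `f j y := lam * ∑_c y c`.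
`f ∈ HomH 0`: `∑_b (wtc m (Sqt y)) b = choose j (m - j) * ∑_c y c` for `y ∈ E(n)^j`, `j ≤ m`: by linearity of the sums,
`= ∑_c y c * #{ε : wt (c + ε) = m}`, and for `wt c = j` the number of `ε ⊆ Fin n` with `∑_(i ∈ ε) 2^(c i) = m - j` is
congruent to `choose j (m - j)` mod 2: in `(ZMod 2)[X]`, `∏_i (1 + X^(2^(c i))) = ∏_i (1 + X)^(2^(c i)) = (1 + X)^j`
(`add_pow_char_pow`/frobenius; `Finset.prod_one_add`), coefficient of `X^(m-j)`.
`f 0 = 0`: for `n ≥ 1` there is no `c` of weight `0`; for `n = 0`: `lam = l k (Theta 0 k) = l k 0 = 0` (`wt = 0` on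
`Fin 0 → ℕ`, never `2^k`).
-/

namespace MM

/-! ### sums of powers of two -/

/-- the number of binary digits one -/
private def pc603 : ℕ → ℕ
  | 0 => 0
  | n + 1 => (n + 1) % 2 + pc603 ((n + 1) / 2)
  decreasing_by omega

private theorem pc603_eq (n : ℕ) : pc603 n = n % 2 + pc603 (n / 2) := by
  cases n with
  | zero => simp [pc603]
  | succ n => rw [pc603]

private theorem pc603_succ_le (n : ℕ) : pc603 (n + 1) ≤ pc603 n + 1 := by
  induction n using Nat.strong_induction_on with
  | _ n ih =>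
    rw [pc603_eq (n + 1), pc603_eq n]
    rcases Nat.even_or_odd' n with ⟨k, hk | hk⟩
    · have h1 : (n + 1) / 2 = n / 2 := by omega
      rw [h1]
      omega
    · have h1 : (n + 1) / 2 = n / 2 + 1 := by omega
      rw [h1]
      have h2 := ih (n / 2) (by omega)
      omega

private theorem pc603_add_le (s x y : ℕ) (h : x + y = s) : pc603 (x + y) ≤ pc603 x + pc603 y := by
  induction s using Nat.strong_induction_on generalizing x y with
  | _ s ih =>
    by_cases hs : s = 0
    · obtain rfl : x = 0 := by omega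
      obtain rfl : y = 0 := by omega
      simp
    · rw [pc603_eq (x + y), pc603_eq x, pc603_eq y]
      have h0 := ih (x / 2 + y / 2) (by omega) (x / 2) (y / 2) rfl
      by_cases h1 : (x + y) / 2 = x / 2 + y / 2
      · rw [h1]
        omega
      · have h2 : (x + y) / 2 = x / 2 + y / 2 + 1 := by omega
        rw [h2]
        have h3 := pc603_succ_le (x / 2 + y / 2)
        omega

private theorem pc603_two_mul (n : ℕ) : pc603 (2 * n) = pc603 n := by
  rw [pc603_eq]
  have h1 : 2 * n % 2 = 0 := by omega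
  have h2 : 2 * n / 2 = n := by omega
  rw [h1, h2, zero_add]

private theorem pc603_two_mul_add (n : ℕ) : pc603 (2 * n + 1) = pc603 n + 1 := by
  rw [pc603_eq]
  have h1 : (2 * n + 1) % 2 = 1 := by omega
  have h2 : (2 * n + 1) / 2 = n := by omega
  rw [h1, h2, add_comm]

private theorem pc603_pow_mul (a n : ℕ) : pc603 (2 ^ a * n) = pc603 n := by
  induction a with
  | zero => simp
  | succ a ih =>
    rw [pow_succ', mul_assoc, pc603_two_mul, ih]

private theorem pc603_one : pc603 1 = 1 := by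
  rw [pc603_eq]
  simp [pc603]

private theorem pc603_pow (a : ℕ) : pc603 (2 ^ a) = 1 := by
  have := pc603_pow_mul a 1
  rwa [mul_one, pc603_one] at this

private theorem pc603_pow_sub (t : ℕ) : pc603 (2 ^ t - 1) = t := by
  induction t with
  | zero => simp [pc603]
  | succ t ih =>
    have h1 : 2 ^ (t + 1) - 1 = 2 * (2 ^ t - 1) + 1 := by
      have := Nat.one_le_two_pow (n := t)
      rw [pow_succ']
      omega
    rw [h1, pc603_two_mul_add, ih]

private theorem pc603_sum_le {ι : Type} (s : Finset ι) (c : ι → ℕ) :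
    pc603 (∑ i ∈ s, 2 ^ c i) ≤ s.card := by
  classical
  induction s using Finset.induction_on with
  | empty => simp [pc603]
  | insert a s ha ih =>
    rw [Finset.sum_insert ha, Finset.card_insert_of_notMem ha]
    have h1 := pc603_add_le _ (2 ^ c a) (∑ i ∈ s, 2 ^ c i) rfl
    rw [pc603_pow] at h1
    omega

theorem wt_pow_two {n k : ℕ} (b : Fin n → ℕ) (h : wt b = 2 ^ k) (i : Fin n) : k + 1 ≤ b i + n := by
  classical
  have hn : 0 < n := i.pos
  by_cases hk : k ≤ b i
  · omega
  · have h1 : 2 ^ b i + ∑ j ∈ Finset.univ.erase i, 2 ^ b j = 2 ^ k := by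
      rw [Finset.add_sum_erase _ (fun j => 2 ^ b j) (Finset.mem_univ i)]
      exact h
    have h2 : ∑ j ∈ Finset.univ.erase i, 2 ^ b j = 2 ^ b i * (2 ^ (k - b i) - 1) := by
      rw [Nat.mul_sub, ← pow_add, mul_one, Nat.add_sub_cancel' (by omega)]
      omega
    have h3 := pc603_sum_le (Finset.univ.erase i) b
    rw [h2, pc603_pow_mul, pc603_pow_sub, Finset.card_erase_of_mem (Finset.mem_univ i),
      Finset.card_univ, Fintype.card_fin] at h3
    omega

/-! ### the sum of the coefficients -/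

/-- sum of the coefficients as a linear map -/
private noncomputable def sm603 {n : ℕ} : Mon n →ₗ[ZMod 2] ZMod 2 :=
  Finsupp.linearCombination (ZMod 2) fun _ => (1 : ZMod 2)

private theorem sm603_apply {n : ℕ} (y : Mon n) : sm603 y = y.sum (fun _ r => r) := by
  unfold sm603
  rw [Finsupp.linearCombination_apply]
  refine Finsupp.sum_congr fun b _ => ?_
  rw [smul_eq_mul, mul_one]

private theorem sm603_single {n : ℕ} (b : Fin n → ℕ) (r : ZMod 2) :
    sm603 (Finsupp.single b r) = r := by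
  unfold sm603
  rw [Finsupp.linearCombination_single, smul_eq_mul, mul_one]

open Polynomial in
private theorem count603 {n m : ℕ} (c : Fin n → ℕ) (hm : wt c ≤ m) :
    ((∑ ε : Fin n → Fin 2, if wt (fun i => c i + (ε i : ℕ)) = m then 1 else 0 : ZMod 2)) =
      ((Nat.choose (wt c) (m - wt c) : ℕ) : ZMod 2) := by
  have h1 : (∑ ε : Fin n → Fin 2, (X : (ZMod 2)[X]) ^ wt (fun i => c i + (ε i : ℕ))) =
      X ^ wt c * (1 + X) ^ wt c := by
    have e1 : ∀ ε : Fin n → Fin 2, (X : (ZMod 2)[X]) ^ wt (fun i => c i + (ε i : ℕ)) =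
        ∏ i, (X : (ZMod 2)[X]) ^ (2 ^ (c i + (ε i : ℕ))) := by
      intro ε
      unfold wt
      rw [Finset.prod_pow_eq_pow_sum]
    simp only [e1]
    have e2 := Finset.prod_univ_sum (fun _ : Fin n => (Finset.univ : Finset (Fin 2)))
      (fun i e => (X : (ZMod 2)[X]) ^ (2 ^ (c i + (e : ℕ))))
    rw [Fintype.piFinset_univ] at e2
    rw [← e2]
    unfold wt
    rw [← Finset.prod_pow_eq_pow_sum, ← Finset.prod_pow_eq_pow_sum, ← Finset.prod_mul_distrib]
    refine Finset.prod_congr rfl fun i _ => ?_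
    rw [Fin.sum_univ_two, add_pow_char_pow, one_pow]
    simp only [Fin.val_zero, Fin.val_one, add_zero]
    ring
  have h2 := congrArg (fun q : (ZMod 2)[X] => q.coeff m) h1
  simp only [Polynomial.finset_sum_coeff, Polynomial.coeff_X_pow] at h2
  rw [Polynomial.coeff_X_pow_mul', if_pos hm, Polynomial.coeff_one_add_X_pow] at h2
  rw [← h2]
  refine Finset.sum_congr rfl fun ε _ => ?_
  by_cases h : wt (fun i => c i + (ε i : ℕ)) = m
  · rw [if_pos h, if_pos h.symm]
  · rw [if_neg h, if_neg fun h' => h h'.symm]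

private theorem sum_single603 {n m : ℕ} (c : Fin n → ℕ) (r : ZMod 2) (hm : wt c ≤ m) :
    sm603 (wtc m (Sqt (Finsupp.single c r))) =
      ((Nat.choose (wt c) (m - wt c) : ℕ) : ZMod 2) * r := by
  classical
  rw [Sqt_single, map_sum, map_sum, ← count603 c hm, Finset.sum_mul]
  refine Finset.sum_congr rfl fun ε _ => ?_
  show sm603 (Finsupp.filter (fun b => wt b = m) (Finsupp.single _ r)) = _
  by_cases h : wt (fun i => c i + (ε i : ℕ)) = m
  · have e := Finsupp.filter_single_of_pos (fun b : Fin n → ℕ => wt b = m)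
      (a := fun i => c i + (ε i : ℕ)) (b := r) h
    rw [if_pos h, e, sm603_single, one_mul]
  · have e := Finsupp.filter_single_of_neg (fun b : Fin n → ℕ => wt b = m)
      (a := fun i => c i + (ε i : ℕ)) (b := r) h
    rw [if_neg h, e, map_zero, zero_mul]

/-- the sum of the coefficients of `wtc m (Sqt y)` -/
theorem EE_sum_Sq {n j m : ℕ} (hm : j ≤ m) (y : EE n j) :
    (wtc m (Sqt y.1)).sum (fun _ r => r) =
      ((Nat.choose j (m - j) : ℕ) : ZMod 2) * y.1.sum (fun _ r => r) := by
  rw [← sm603_apply]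
  conv_lhs => rw [← Finsupp.sum_single y.1]
  rw [Finsupp.sum, map_sum, map_sum, map_sum, Finsupp.sum, Finset.mul_sum]
  refine Finset.sum_congr rfl fun c hc => ?_
  have h1 : wt c = j := y.2.1 c (Finsupp.mem_support_iff.1 hc)
  have h2 := sum_single603 c (y.1 c) (h1.le.trans hm)
  rw [h1] at h2
  exact h2

/-! ### the elements `Theta` -/

private noncomputable def Th603 (n k : ℕ) : EE n (2 ^ k) :=
  ⟨∑ b ∈ (wt_finite n (2 ^ k)).toFinset, Finsupp.single b 1, by
    classical
    have h : ∀ b, (∑ c ∈ (wt_finite n (2 ^ k)).toFinset, Finsupp.single c (1 : ZMod 2)) b =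
        if wt b = 2 ^ k then 1 else 0 := by
      intro b
      rw [Finsupp.finsetSum_apply]
      simp only [Finsupp.single_apply]
      rw [Finset.sum_ite_eq']
      simp only [Set.Finite.mem_toFinset, Set.mem_setOf_eq]
    refine ⟨fun b hb => ?_, fun σ b => ?_⟩
    · by_contra h'
      rw [h, if_neg h'] at hb
      exact hb rfl
    · rw [h, h, wt_comp]⟩

private theorem Th603_apply (n k : ℕ) (b : Fin n → ℕ) :
    (Th603 n k).1 b = if wt b = 2 ^ k then 1 else 0 := by
  classical
  show (∑ c ∈ (wt_finite n (2 ^ k)).toFinset, Finsupp.single c (1 : ZMod 2)) b = _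
  rw [Finsupp.finsetSum_apply]
  simp only [Finsupp.single_apply]
  rw [Finset.sum_ite_eq']
  simp only [Set.Finite.mem_toFinset, Set.mem_setOf_eq]

private theorem Sq0_apply603 {n d m : ℕ} (hm : m = 2 * d) (c : EE n d) (b : Fin n → ℕ) :
    ((EAM n).Sq d m c : EE n m).1 b =
      if ∀ i, 1 ≤ b i then c.1 (fun i => b i - 1) else 0 := by
  subst hm
  exact EAM_Sq0_apply c b

private theorem Th603_Sq (n k : ℕ) (hk : n ≤ k) :
    ((EAM n).Sq (2 ^ k) (2 ^ (k + 1)) (Th603 n k) : EE n (2 ^ (k + 1))) = Th603 n (k + 1) := by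
  refine Subtype.ext (Finsupp.ext fun b => ?_)
  rw [Sq0_apply603 (by ring), Th603_apply, Th603_apply]
  have h0 : (∀ i, 1 ≤ b i) → wt b = 2 * wt (fun i => b i - 1) := by
    intro h
    unfold wt
    rw [Finset.mul_sum]
    refine Finset.sum_congr rfl fun i _ => ?_
    rw [← pow_succ', Nat.sub_add_cancel (h i)]
  by_cases hb : ∀ i, 1 ≤ b i
  · rw [if_pos hb]
    have h1 := h0 hb
    by_cases h2 : wt (fun i => b i - 1) = 2 ^ k
    · rw [if_pos h2, if_pos]
      rw [h1, h2]
      ring
    · rw [if_neg h2, if_neg]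
      intro h3
      apply h2
      rw [h1, pow_succ'] at h3
      exact Nat.eq_of_mul_eq_mul_left (by norm_num) h3
  · rw [if_neg hb, if_neg]
    intro h3
    apply hb
    intro i
    have h4 := wt_pow_two b h3 i
    omega

private theorem cSq603 {n j : ℕ} (y : EE n j) (k : ℕ) (hk : j + n ≤ k) :
    ((EAM n).cSq j (2 ^ k) y : EE n (2 ^ k)) = (sm603 y.1) • Th603 n k := by
  classical
  refine Subtype.ext (Finsupp.ext fun b => ?_)
  have h1 : ((EAM n).cSq j (2 ^ k) y : EE n (2 ^ k)).1 b =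
      if wt b = 2 ^ k then ∑ c ∈ Finset.Iic b, y.1 c else 0 := EAM_cSq y b
  rw [h1]
  show _ = (sm603 y.1) • (Th603 n k).1 b
  rw [Th603_apply]
  split_ifs with hb
  · rw [smul_eq_mul, mul_one, sm603_apply, Finsupp.sum]
    symm
    refine Finset.sum_subset ?_ ?_
    · intro c hc
      rw [Finset.mem_Iic]
      intro i
      have h2 : wt c = j := y.2.1 c (Finsupp.mem_support_iff.1 hc)
      have h3 := lt_wt c i
      have h4 := wt_pow_two b hb i
      show c i ≤ b i
      omega
    · intro c _ hc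
      exact Finsupp.notMem_support_iff.1 hc
  · rw [smul_zero]

/-- `E(n)` has the property `Beta` -/
theorem EAM_Beta (n : ℕ) : (EAM n).Beta := by
  intro l hl
  have hlam : ∀ k, n ≤ k → l k (Th603 n k) = l n (Th603 n n) := by
    intro k hk
    induction k, hk using Nat.le_induction with
    | base => rfl
    | succ k hk ih =>
      rw [← ih, ← hl k (Th603 n k)]
      congr 1
      exact (Th603_Sq n k hk).symm
  refine ⟨fun j => (l n (Th603 n n)) • (sm603.comp (EE n j).subtype), ⟨?_, ?_⟩, ?_⟩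
  · intro j hj
    obtain rfl : j = 0 := by omega
    refine LinearMap.ext fun y => ?_
    show (l n (Th603 n n)) • sm603 (y : EE n 0).1 = 0
    rcases Nat.eq_zero_or_pos n with rfl | hn
    · have h1 : Th603 0 0 = 0 := by
        refine Subtype.ext (Finsupp.ext fun b => ?_)
        rw [Th603_apply, if_neg]
        · rfl
        · simp [wt]
      have h2 : l 0 (Th603 0 0) = 0 := (congrArg (l 0) h1).trans (map_zero (l 0))
      rw [h2, zero_smul]
    · have h1 : (y : EE n 0).1 = 0 := by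
        ext b
        by_contra hb
        have h2 := (y : EE n 0).2.1 b hb
        have h3 := lt_wt b ⟨0, hn⟩
        omega
      rw [h1, map_zero, smul_zero]
  · intro j m y hjm
    show (l n (Th603 n n)) • sm603 ((EAM n).Sq j m y : EE n m).1 =
      _ * ((l n (Th603 n n)) • sm603 (y : EE n j).1)
    rw [EAM_Sq_val, sm603_apply, sm603_apply, EE_sum_Sq hjm y, Nat.sub_zero, smul_eq_mul,
      smul_eq_mul]
    ring
  · intro j y
    refine ⟨j + n, fun k hk => ?_⟩
    have h1 := cSq603 y k hk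
    show (l n (Th603 n n)) • sm603 (y : EE n j).1 = l k ((EAM n).cSq j (2 ^ k) y)
    have h2 : l k ((EAM n).cSq j (2 ^ k) y) = l k (sm603 (y : EE n j).1 • Th603 n k) :=
      congrArg (l k) h1
    have h3 : l k (sm603 (y : EE n j).1 • Th603 n k) = sm603 (y : EE n j).1 • l k (Th603 n k) :=
      LinearMap.map_smul (l k) (sm603 (y : EE n j).1) (Th603 n k : (EAM n).M (2 ^ k))
    rw [h2, h3, hlam k (by omega), smul_eq_mul, smul_eq_mul, mul_comm]

end MM

end

/-! ### from `Lib_MP_33f7bb_d.A605` -/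

section

/-!
# A6-05: direct sums and isomorphisms

`Beta` of a direct sum: the inclusions `incl i : M i → dsum M` (`DFinsupp.lsingle`) are `AMHom`s.  For a compatible family `l`
on the direct sum, `l k ∘ incl i` is a compatible family on `M i`, choose `f i ∈ HomH (M i) 0` with constants `K i x`.  Put
`f n x = ∑_i f i n (x i)` (`DFinsupp.lsum` or `DFinsupp.sumAddHom`; `AddMonoidHom.toZModLinearMap`).  The relations hold
by linearity, on `DFinsupp.single i x` they are those of `f i`.  For `x` with finite support take the maximum of the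
`K i (x i)`; `x = ∑ incl i (x i)` (induction `DFinsupp.induction` or `DFinsupp.sum_single`), `cSq` commutes with `incl i`
(`AMHom.cSq`).
`Inj0`, `Frob`: componentwise.
Isomorphisms: `AMIso.hom`, `AMIso.symm`.
`Good`: `EAM_Beta`, `EAM_Inj0`, `EAM_Frob`, dsum, iso.
-/

namespace MM

/-- the inclusion of a summand -/
noncomputable def AM.incl {ι : Type} [DecidableEq ι] (M : ι → AM) (i : ι) : AMHom (M i) (AM.dsum M) :=
  ⟨fun n => DFinsupp.lsingle (M := fun i => (M i).M n) i, fun n m x => by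
    show DFinsupp.single i ((M i).Sq n m x) = DFinsupp.mapRange (fun i => (M i).Sq n m)
      (fun i => map_zero _) (DFinsupp.single i x)
    rw [DFinsupp.mapRange_single]⟩

private theorem A605_single {ι : Type} [DecidableEq ι] (M : ι → AM) (n m : ℕ) (i : ι)
    (x : (M i).M n) : (AM.dsum M).Sq n m (DFinsupp.single i x : Π₀ i, (M i).M n) =
      (DFinsupp.single i ((M i).Sq n m x) : Π₀ i, (M i).M m) := by
  show DFinsupp.mapRange (fun i => (M i).Sq n m) (fun i => map_zero _) (DFinsupp.single i x) = _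
  rw [DFinsupp.mapRange_single]

theorem AM.dsum_Inj0 {ι : Type} (M : ι → AM) (h : ∀ i, (M i).Inj0) : (AM.dsum M).Inj0 := by
  intro n (x : Π₀ i, (M i).M n) hx
  have hx' : (DFinsupp.mapRange.linearMap (fun i => (M i).Sq n (2 * n)) x :
    Π₀ i, (M i).M (2 * n)) = 0 := hx
  refine DFinsupp.ext (f := x) (g := 0) fun i => ?_
  have h1 := DFunLike.congr_fun hx' i
  rw [DFinsupp.mapRange.linearMap_apply, DFinsupp.mapRange_apply, DFinsupp.zero_apply] at h1
  rw [DFinsupp.zero_apply]
  exact h i n _ h1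

theorem AM.dsum_Frob {ι : Type} (M : ι → AM) (h : ∀ i, (M i).Frob) : (AM.dsum M).Frob := by
  refine ⟨fun p r (x : Π₀ i, (M i).M p) => ?_, fun p r (x : Π₀ i, (M i).M p) => ?_⟩
  · show DFinsupp.mapRange.linearMap (fun i => (M i).Sq (2 * p) (2 * r))
      (DFinsupp.mapRange.linearMap (fun i => (M i).Sq p (2 * p)) x) =
      DFinsupp.mapRange.linearMap (fun i => (M i).Sq r (2 * r))
      (DFinsupp.mapRange.linearMap (fun i => (M i).Sq p r) x)
    refine DFinsupp.ext fun i => ?_
    simp only [DFinsupp.mapRange.linearMap_apply, DFinsupp.mapRange_apply]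
    exact (h i).even p r _
  · show DFinsupp.mapRange.linearMap (fun i => (M i).Sq (2 * p) (2 * r + 1))
      (DFinsupp.mapRange.linearMap (fun i => (M i).Sq p (2 * p)) x) = 0
    refine DFinsupp.ext fun i => ?_
    simp only [DFinsupp.mapRange.linearMap_apply, DFinsupp.mapRange_apply, DFinsupp.zero_apply]
    exact (h i).odd p r _

theorem AM.dsum_Beta {ι : Type} (M : ι → AM) (h : ∀ i, (M i).Beta) : (AM.dsum M).Beta := by
  classical
  intro l hl
  have hc : ∀ i, (M i).Cpt fun k => (l k).comp ((AM.incl M i).app (2 ^ k)) := by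
    intro i k x
    show l (k + 1) ((AM.incl M i).app (2 ^ (k + 1)) ((M i).Sq (2 ^ k) (2 ^ (k + 1)) x)) =
      l k ((AM.incl M i).app (2 ^ k) x)
    rw [(AM.incl M i).comm]
    exact hl k _
  choose f hf K hK using fun i => h i _ (hc i)
  let F : ∀ n, Module.Dual (ZMod 2) ((AM.dsum M).M n) := fun n =>
    (DFinsupp.lsum ℕ (fun i => f i n) : (Π₀ i, (M i).M n) →ₗ[ZMod 2] ZMod 2)
  have hF : ∀ n i (x : (M i).M n), F n (DFinsupp.single i x : Π₀ i, (M i).M n) = f i n x :=
    fun n i x => DFinsupp.lsum_single ℕ (fun i => f i n) i x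
  refine ⟨F, ⟨fun n hn => ?_, fun n m x hnm => ?_⟩, fun j x => ?_⟩
  · refine DFinsupp.lhom_ext (M := fun i => (M i).M n) fun i x => ?_
    refine (hF n i x).trans ?_
    rw [(hf i).1 n hn]
    rfl
  · have h1 : (F m).comp ((AM.dsum M).Sq n m) =
        ((Nat.choose (n - 0) (m - n) : ℕ) : ZMod 2) • F n := by
      refine DFinsupp.lhom_ext (M := fun i => (M i).M n) fun i x => ?_
      show F m ((AM.dsum M).Sq n m (DFinsupp.single i x : Π₀ i, (M i).M n)) =
        ((Nat.choose (n - 0) (m - n) : ℕ) : ZMod 2) * F n (DFinsupp.single i x : Π₀ i, (M i).M n)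
      rw [A605_single, hF, hF]
      exact (hf i).2 n m x hnm
    exact LinearMap.congr_fun h1 x
  · refine DFinsupp.induction (p := fun x : Π₀ i, (M i).M j => ∃ K, ∀ k, K ≤ k →
      F j x = l k ((AM.dsum M).cSq j (2 ^ k) x)) (x : Π₀ i, (M i).M j) ?_ ?_
    · refine ⟨0, fun k _ => ?_⟩
      have h1 : F j (0 : Π₀ i, (M i).M j) = 0 := map_zero (F j)
      have h2 : (AM.dsum M).cSq j (2 ^ k) (0 : Π₀ i, (M i).M j) = 0 :=
        map_zero ((AM.dsum M).cSq j (2 ^ k))
      rw [h1, h2, map_zero]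
    · intro i b g _ _ hg
      obtain ⟨K', hK'⟩ := hg
      refine ⟨max (K i j b) K', fun k hk => ?_⟩
      have h1 : F j ((DFinsupp.single i b : Π₀ i, (M i).M j) + g) =
          F j (DFinsupp.single i b : Π₀ i, (M i).M j) + F j g := map_add (F j) _ _
      have h2 : (AM.dsum M).cSq j (2 ^ k) ((DFinsupp.single i b : Π₀ i, (M i).M j) + g) =
          (AM.dsum M).cSq j (2 ^ k) (DFinsupp.single i b : Π₀ i, (M i).M j) +
          (AM.dsum M).cSq j (2 ^ k) g := map_add ((AM.dsum M).cSq j (2 ^ k)) _ _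
      rw [h1, h2, map_add, hF, hK' k ((le_max_right _ _).trans hk),
        hK i j b k ((le_max_left _ _).trans hk)]
      congr 1
      show l k ((AM.incl M i).app (2 ^ k) ((M i).cSq j (2 ^ k) b)) = _
      rw [(AM.incl M i).cSq]
      rfl

theorem AMIso.Inj0 {M N : AM} (e : AMIso M N) (h : M.Inj0) : N.Inj0 := by
  intro n x hx
  obtain ⟨y, rfl⟩ := (e.e n).surjective x
  rw [← e.comm] at hx
  have h1 := h n y ((e.e (2 * n)).injective (hx.trans (map_zero _).symm))
  rw [h1, map_zero]

theorem AMIso.Frob {M N : AM} (e : AMIso M N) (h : M.Frob) : N.Frob := by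
  refine ⟨fun p r x => ?_, fun p r x => ?_⟩
  · obtain ⟨y, rfl⟩ := (e.e p).surjective x
    rw [← e.comm, ← e.comm, ← e.comm, ← e.comm, h.even]
  · obtain ⟨y, rfl⟩ := (e.e p).surjective x
    rw [← e.comm, ← e.comm, h.odd, map_zero]

theorem AMIso.Beta {M N : AM} (e : AMIso M N) (h : M.Beta) : N.Beta := by
  intro l hl
  have hc : M.Cpt fun k => (l k).comp (e.e (2 ^ k)).toLinearMap := by
    intro k x
    show l (k + 1) (e.e (2 ^ (k + 1)) (M.Sq (2 ^ k) (2 ^ (k + 1)) x)) = l k (e.e (2 ^ k) x)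
    rw [e.comm]
    exact hl k _
  obtain ⟨f, hf, hK⟩ := h _ hc
  refine ⟨fun n => (f n).comp (e.e n).symm.toLinearMap, ⟨fun n hn => ?_, fun n m x hnm => ?_⟩,
    fun j x => ?_⟩
  · show (f n).comp (e.e n).symm.toLinearMap = 0
    rw [hf.1 n hn, LinearMap.zero_comp]
  · obtain ⟨y, rfl⟩ := (e.e n).surjective x
    show f m ((e.e m).symm (N.Sq n m (e.e n y))) = _ * f n ((e.e n).symm (e.e n y))
    rw [← e.comm, LinearEquiv.symm_apply_apply, LinearEquiv.symm_apply_apply]
    exact hf.2 n m y hnm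
  · obtain ⟨y, rfl⟩ := (e.e j).surjective x
    obtain ⟨K, hK⟩ := hK j y
    refine ⟨K, fun k hk => ?_⟩
    show f j ((e.e j).symm (e.e j y)) = l k (N.cSq j (2 ^ k) (e.e j y))
    rw [LinearEquiv.symm_apply_apply, hK k hk]
    show l k (e.hom.app (2 ^ k) (M.cSq j (2 ^ k) y)) = _
    rw [e.hom.cSq]
    rfl

theorem AM.Good.inj0 {M : AM} (h : M.Good) : M.Inj0 := by
  obtain ⟨ι, n, ⟨e⟩⟩ := h
  exact e.Inj0 (AM.dsum_Inj0 _ fun i => EAM_Inj0 (n i))

theorem AM.Good.frob {M : AM} (h : M.Good) : M.Frob := by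
  obtain ⟨ι, n, ⟨e⟩⟩ := h
  exact e.Frob (AM.dsum_Frob _ fun i => EAM_Frob (n i))

theorem AM.Good.beta {M : AM} (h : M.Good) : M.Beta := by
  obtain ⟨ι, n, ⟨e⟩⟩ := h
  exact e.Beta (AM.dsum_Beta _ fun i => EAM_Beta (n i))

end MM

end

/-! ### from `Lib_MP_33f7bb_d.A608` -/

section

/-!
# A6-08: `Om E(n+1) = E(n)`, `Om E(0) = 0`

`phi : E(n+1)^(d+1) → E(n)^d`, `(phi c)(b) = c (Fin.cons 0 b)` (coefficient of `x_0 ∏ x_(i+1)^(2^(b i))`).  `wt (Fin.cons 0 b) = 1 + wt b`;
symmetric in `b` because `c` is.  `phi` commutes with `Sq`: `(Sqt c)(0, b) = ∑_(ε ≤ (0,b)) c ((0,b) - ε)`, `ε 0 = 0`, `=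
(Sqt (phi c))(b)` (`Sqt_apply_eq`).
Kernel: `phi c = 0` means `c b' = 0` whenever `b' 0 = 0`, so by symmetry whenever some entry of `b'` is `0`; then `c` is the
shift of `c'`, `c' b = c (b + 1)`, `c' ∈ E(n+1)^((d+1)/2)`: the weight of the support of `c` is even, so `c = 0` or `d + 1` is even,
and `c = Sq0 c'` (`EAM_Sq0_apply`).  Conversely `phi (Sq0 c') = 0`.
Surjective: given `c2 ∈ E(n)^d` put `c b' = c2 (b' ∘ i.succAbove)` if some entry `b' i = 0`, `0` if there is none.  Independent of the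
choice of `i`: for `b' i = b' j = 0` the functions `b' ∘ i.succAbove` and `b' ∘ j.succAbove` differ by a permutation (same multiset of
values).  Symmetric, weight `d + 1`, finite support (`{b' | wt b' = d + 1}` is finite, or the support is contained in the image
of `support c2 × Fin (n+1)` under insertion of a `0`).  (Alternative: `c b' = ` value of `c2` on any enumeration of the
multiset `{b' i} - {0}`; symmetric functions `E(n)` may be viewed as functions on multisets.)
So `phi` induces `Om E(n+1) ≅ E(n)`.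
`E(0)`: `(Om E(0))^d = E(0)^(d+1) / .. = 0` since `wt = 0` on `Fin 0 → ℕ`.
-/

namespace MM

private theorem wt_cons_A608 {n : ℕ} (b : Fin n → ℕ) : wt (Fin.cons 0 b : Fin (n + 1) → ℕ) = wt b + 1 := by
  unfold wt
  rw [Fin.sum_univ_succ]
  simp [add_comm]

private theorem wt_succAbove_A608 {n : ℕ} (b : Fin (n + 1) → ℕ) (i : Fin (n + 1)) (hi : b i = 0) :
    wt b = wt (b ∘ i.succAbove) + 1 := by
  unfold wt
  rw [Fin.sum_univ_succAbove _ i, hi]
  simp [add_comm]

private theorem cons_inj_A608 (n : ℕ) :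
    Function.Injective (fun b : Fin n → ℕ => (Fin.cons 0 b : Fin (n + 1) → ℕ)) := by
  intro b b' h
  funext i
  have := congrFun h i.succ
  simpa using this

/-- the coefficient map -/
private noncomputable def phi_A608 (n : ℕ) : Mon (n + 1) →ₗ[ZMod 2] Mon n :=
  Finsupp.lcomapDomain _ (cons_inj_A608 n)

private theorem phi_apply_A608 {n : ℕ} (c : Mon (n + 1)) (b : Fin n → ℕ) :
    phi_A608 n c b = c (Fin.cons 0 b) := rfl

private theorem exists_perm_A608 {n : ℕ} (τ : Equiv.Perm (Fin (n + 1))) (i : Fin (n + 1)) :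
    ∃ σ : Equiv.Perm (Fin n), ∀ k, τ (i.succAbove k) = (τ i).succAbove (σ k) := by
  refine ⟨(finSuccAboveEquiv i).trans ((τ.subtypeEquiv (p := fun x => x ≠ i)
    (q := fun x => x ≠ τ i) (fun a => by simp)).trans (finSuccAboveEquiv (τ i)).symm), fun k => ?_⟩
  have h1 : ∀ y : {x // x ≠ τ i}, (τ i).succAbove ((finSuccAboveEquiv (τ i)).symm y) = y.1 := by
    intro y
    obtain ⟨z, rfl⟩ := (finSuccAboveEquiv (τ i)).surjective y
    rw [Equiv.symm_apply_apply]
    rfl
  simp only [Equiv.trans_apply, h1]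
  rfl

private theorem phi_mem_A608 {n d : ℕ} {c : Mon (n + 1)} (hc : c ∈ EE (n + 1) (d + 1)) :
    phi_A608 n c ∈ EE n d := by
  refine ⟨fun b hb => ?_, fun σ b => ?_⟩
  · have h1 : wt (Fin.cons 0 b : Fin (n + 1) → ℕ) = d + 1 := hc.1 _ hb
    have h2 := wt_cons_A608 b
    omega
  · rw [phi_apply_A608, phi_apply_A608, ← hc.2 (Equiv.Perm.decomposeFin.symm (0, σ)) (Fin.cons 0 b)]
    congr 1
    funext i
    refine Fin.cases ?_ (fun j => ?_) i
    · simp
    · simp

/-- the coefficient map on `E(n+1)` -/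
private noncomputable def phiE_A608 (n d : ℕ) : EE (n + 1) (d + 1) →ₗ[ZMod 2] EE n d :=
  (phi_A608 n).restrict (fun _ hc => phi_mem_A608 hc)

private theorem phiE_val_A608 {n d : ℕ} (c : EE (n + 1) (d + 1)) (b : Fin n → ℕ) :
    (phiE_A608 n d c).1 b = c.1 (Fin.cons 0 b) := rfl

private theorem Sqt_phi_A608 {n : ℕ} (c : Mon (n + 1)) (b : Fin n → ℕ) :
    Sqt c (Fin.cons 0 b) = Sqt (phi_A608 n c) b := by
  rw [Sqt_apply_eq, Sqt_apply_eq]
  rw [← (Fin.consEquiv (fun _ : Fin (n + 1) => Fin 2)).sum_comp, Fintype.sum_prod_type,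
    Fin.sum_univ_two]
  have h1 : ∀ ε : Fin n → Fin 2,
      (if ∀ i, (((Fin.consEquiv (fun _ : Fin (n + 1) => Fin 2)) (1, ε) i : Fin 2) : ℕ) ≤
        (Fin.cons 0 b : Fin (n + 1) → ℕ) i then
        c (fun i => (Fin.cons 0 b : Fin (n + 1) → ℕ) i -
          (((Fin.consEquiv (fun _ : Fin (n + 1) => Fin 2)) (1, ε) i : Fin 2) : ℕ)) else 0) = 0 := by
    intro ε
    rw [if_neg]
    intro h
    have := h 0
    simp [Fin.consEquiv] at this
  rw [Finset.sum_congr rfl (fun ε _ => h1 ε), Finset.sum_const_zero, add_zero]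
  refine Finset.sum_congr rfl fun ε _ => ?_
  by_cases h : ∀ i, ((ε i : Fin 2) : ℕ) ≤ b i
  · rw [if_pos h, if_pos]
    · rw [phi_apply_A608]
      congr 1
      funext i
      refine Fin.cases ?_ (fun j => ?_) i
      · simp
      · simp [Fin.consEquiv]
    · intro i
      refine Fin.cases ?_ (fun j => ?_) i
      · simp [Fin.consEquiv]
      · simpa [Fin.consEquiv] using h j
  · rw [if_neg h, if_neg]
    intro h'
    exact h fun j => by simpa [Fin.consEquiv] using h' j.succ

private theorem phiE_Sq_A608 {n d m : ℕ} (c : EE (n + 1) (d + 1)) :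
    phiE_A608 n m ((EAM (n + 1)).Sq (d + 1) (m + 1) c) = (EAM n).Sq d m (phiE_A608 n d c) := by
  classical
  refine Subtype.ext (Finsupp.ext fun b => ?_)
  show (Finsupp.filter (fun b => wt b = m + 1) (Sqt c.1)) (Fin.cons 0 b) =
    (Finsupp.filter (fun b => wt b = m) (Sqt (phi_A608 n c.1))) b
  rw [Finsupp.filter_apply, Finsupp.filter_apply, wt_cons_A608, Sqt_phi_A608]
  simp

/-- extension by zeros -/
private noncomputable def extf_A608 {n : ℕ} (c : Mon n) (b : Fin (n + 1) → ℕ) : ZMod 2 :=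
  open Classical in if h : ∃ i, b i = 0 then c (b ∘ h.choose.succAbove) else 0

private theorem extf_eq_A608 {n d : ℕ} {c : Mon n} (hc : c ∈ EE n d) {b : Fin (n + 1) → ℕ}
    {i : Fin (n + 1)} (hi : b i = 0) : extf_A608 c b = c (b ∘ i.succAbove) := by
  classical
  have h : ∃ i, b i = 0 := ⟨i, hi⟩
  unfold extf_A608
  rw [dif_pos h]
  obtain ⟨σ, hσ⟩ := exists_perm_A608 (Equiv.swap i h.choose) i
  rw [Equiv.swap_apply_left] at hσ
  rw [← hc.2 σ]
  congr 1
  funext k
  show b (h.choose.succAbove (σ k)) = b (i.succAbove k)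
  rw [← hσ]
  by_cases h1 : i.succAbove k = h.choose
  · rw [h1, Equiv.swap_apply_right, hi, h.choose_spec]
  · rw [Equiv.swap_apply_of_ne_of_ne (Fin.succAbove_ne i k) h1]

private theorem extf_symm_A608 {n d : ℕ} {c : Mon n} (hc : c ∈ EE n d) (τ : Equiv.Perm (Fin (n + 1)))
    (b : Fin (n + 1) → ℕ) : extf_A608 c (b ∘ τ) = extf_A608 c b := by
  classical
  by_cases h : ∃ i, (b ∘ τ) i = 0
  · obtain ⟨i, hi⟩ := h
    rw [extf_eq_A608 hc hi, extf_eq_A608 hc (i := τ i) hi]
    obtain ⟨σ, hσ⟩ := exists_perm_A608 τ i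
    rw [← hc.2 σ (b ∘ (τ i).succAbove)]
    congr 1
    funext k
    show b (τ (i.succAbove k)) = b ((τ i).succAbove (σ k))
    rw [hσ]
  · have h' : ¬ ∃ i, b i = 0 := by
      rintro ⟨i, hi⟩
      exact h ⟨τ.symm i, by simpa using hi⟩
    unfold extf_A608
    rw [dif_neg h, dif_neg h']

private theorem extf_wt_A608 {n d : ℕ} {c : Mon n} (hc : c ∈ EE n d) {b : Fin (n + 1) → ℕ}
    (hb : extf_A608 c b ≠ 0) : wt b = d + 1 := by
  classical
  by_cases h : ∃ i, b i = 0
  · obtain ⟨i, hi⟩ := h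
    rw [extf_eq_A608 hc hi] at hb
    rw [wt_succAbove_A608 b i hi, hc.1 _ hb]
  · exact absurd (by unfold extf_A608; rw [dif_neg h]) hb

private theorem le_wt_A608 {n : ℕ} (b : Fin n → ℕ) (i : Fin n) : b i < wt b + 1 := by
  have h1 : 2 ^ b i ≤ wt b := Finset.single_le_sum (f := fun i => 2 ^ b i)
    (fun _ _ => Nat.zero_le _) (Finset.mem_univ i)
  have h2 : b i < 2 ^ b i := Nat.lt_two_pow_self
  omega

private theorem phiE_surj_A608 (n d : ℕ) : Function.Surjective (phiE_A608 n d) := by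
  classical
  rintro ⟨c, hc⟩
  refine ⟨⟨Finsupp.onFinset (Fintype.piFinset fun _ => Finset.range (d + 2)) (extf_A608 c)
    (fun b hb => ?_), fun b hb => ?_, fun σ b => ?_⟩, ?_⟩
  · rw [Fintype.mem_piFinset]
    intro i
    rw [Finset.mem_range]
    have h1 := extf_wt_A608 hc hb
    have h2 := le_wt_A608 b i
    omega
  · exact extf_wt_A608 hc hb
  · exact extf_symm_A608 hc σ b
  · refine Subtype.ext (Finsupp.ext fun b => ?_)
    rw [phiE_val_A608]
    show extf_A608 c (Fin.cons 0 b) = c b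
    rw [extf_eq_A608 hc (i := 0) rfl]
    congr 1

private theorem phiE_im0_A608 {n d : ℕ} (c : (EAM (n + 1)).M (d + 1)) (hc : c ∈ (EAM (n + 1)).im0 d) :
    phiE_A608 n d c = 0 := by
  rcases AM.mem_im0 hc with rfl | ⟨p, hp, y, rfl⟩
  · exact map_zero _
  · refine Subtype.ext (Finsupp.ext fun b => ?_)
    show ((EAM (n + 1)).Sq p (d + 1) y : EE (n + 1) (d + 1)).1 (Fin.cons 0 b) = 0
    have h1 : ∀ a, a = 2 * p → ((EAM (n + 1)).Sq p a y : EE (n + 1) a).1 (Fin.cons 0 b) = 0 := by
      rintro _ rfl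
      rw [EAM_Sq0_apply, if_neg]
      intro h
      have := h 0
      simp at this
    exact h1 _ hp.symm

private theorem ker_A608 {n d : ℕ} (c : EE (n + 1) (d + 1)) (hc : phiE_A608 n d c = 0) :
    c ∈ (EAM (n + 1)).im0 d := by
  classical
  have h0 : ∀ b : Fin (n + 1) → ℕ, (∃ i, b i = 0) → c.1 b = 0 := by
    rintro b ⟨i, hi⟩
    rw [← c.2.2 (Equiv.swap 0 i) b]
    have h1 : b ∘ Equiv.swap 0 i = Fin.cons 0 (fun k : Fin n => b (Equiv.swap 0 i k.succ)) := by
      funext k
      refine Fin.cases ?_ (fun j => ?_) k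
      · simp [hi]
      · simp
    rw [h1, ← phiE_val_A608, hc]
    rfl
  by_cases hz : c = 0
  · rw [hz]
    exact Submodule.zero_mem _
  have hex : ∃ b, c.1 b ≠ 0 := by
    by_contra h
    push Not at h
    exact hz (Subtype.ext (Finsupp.ext h))
  have hsh : ∀ b : Fin (n + 1) → ℕ, wt (fun i => b i + 1) = 2 * wt b := by
    intro b
    unfold wt
    rw [Finset.mul_sum]
    exact Finset.sum_congr rfl fun i _ => by ring
  obtain ⟨b, hb⟩ := hex
  have hb1 : ∀ i, b i ≠ 0 := fun i hi => hb (h0 b ⟨i, hi⟩)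
  have hev : 2 * wt (fun i => b i - 1) = d + 1 := by
    rw [← hsh, ← c.2.1 b hb]
    congr 1
    funext i
    have := hb1 i
    omega
  generalize wt (fun i => b i - 1) = p at hev
  have hinj : Function.Injective (fun (b : Fin (n + 1) → ℕ) (i : Fin (n + 1)) => b i + 1) := by
    intro b b' h
    funext i
    have := congrFun h i
    simpa using this
  have key : ∃ y : EE (n + 1) p, c = ((EAM (n + 1)).Sq p (d + 1) y : EE (n + 1) (d + 1)) := by
    refine ⟨⟨Finsupp.comapDomain _ c.1 hinj.injOn, fun b hb => ?_, fun σ b => ?_⟩, ?_⟩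
    · have h1 : wt (fun i => b i + 1) = d + 1 := c.2.1 _ hb
      have h2 := hsh b
      omega
    · exact c.2.2 σ (fun i => b i + 1)
    · have h1 : ∀ a, a = 2 * p → ∀ (c : EE (n + 1) a) (y : EE (n + 1) p),
          (∀ b : Fin (n + 1) → ℕ, (∃ i, b i = 0) → c.1 b = 0) →
          (∀ b, y.1 b = c.1 (fun i => b i + 1)) → c = ((EAM (n + 1)).Sq p a y : EE (n + 1) a) := by
        rintro _ rfl c y h0 hy
        refine Subtype.ext (Finsupp.ext fun b => ?_)
        refine Eq.trans ?_ (EAM_Sq0_apply (n := n + 1) (d := p) y b).symm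
        split_ifs with h
        · rw [hy]
          congr 1
          funext i
          have := h i
          omega
        · push Not at h
          obtain ⟨i, hi⟩ := h
          exact h0 b ⟨i, by omega⟩
      exact h1 _ hev.symm c _ h0 (fun b => rfl)
  obtain ⟨y, hy⟩ := key
  rw [hy]
  exact (EAM (n + 1)).Sq_mem_im0 hev y

/-- the coefficient map, as a map of the underlying modules -/
private noncomputable def phiM_A608 (n d : ℕ) :
    (EAM (n + 1)).M (d + 1) →ₗ[ZMod 2] (EAM n).M d := phiE_A608 n d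

theorem EAM_Om_succ (n : ℕ) : Nonempty (AMIso ((EAM (n + 1)).Om (EAM_Frob (n + 1))) (EAM n)) := by
  have hk : ∀ d, (EAM (n + 1)).im0 d = LinearMap.ker (phiM_A608 n d) := by
    intro d
    ext c
    exact ⟨fun h => phiE_im0_A608 c h, fun h => ker_A608 c h⟩
  refine ⟨⟨fun d => (Submodule.quotEquivOfEq _ _ (hk d)).trans
    ((phiM_A608 n d).quotKerEquivOfSurjective (phiE_surj_A608 n d)), fun d m x => ?_⟩⟩
  obtain ⟨x, rfl⟩ := AM.Om.pr_surjective _ _ _ x
  exact phiE_Sq_A608 x

theorem EAM_Om_zero (d : ℕ) (x : ((EAM 0).Om (EAM_Frob 0)).M d) : x = 0 := by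
  obtain ⟨x, rfl⟩ := AM.Om.pr_surjective _ _ _ x
  have h1 : ∀ x : EE 0 (d + 1), x = 0 := by
    intro x
    refine Subtype.ext (Finsupp.ext fun b => ?_)
    by_contra h
    have h2 := x.2.1 b h
    simp [wt] at h2
  rw [show x = 0 from h1 x, map_zero]

end MM

end

/-! ### from `Lib_MP_33f7bb_d.A609` -/

section

/-!
# A6-09: the loop functor preserves `Good`

`AM.Om_iso`: `AM.OmMap` of an isomorphism and of its inverse are inverse to each other.
`AM.Om_dsum`: `Om (dsum M) ≅ dsum (Om (M i))`: the map `DFinsupp.mapRange` of the projections `pr`, surjective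
(`DFinsupp.mapRange_surjective`), kernel: all components in `im0`, i.e. `= im0 (dsum M)` (if `n + 1` is even choose
preimages under `Sq0` componentwise: `DFinsupp` surjectivity again; if `n + 1` is odd both are `0`).
`AM.Good.Om`: `M ≅ dsum E(n_i)`; `Om M ≅ dsum (Om E(n_i)) ≅ dsum_(i : {i // n_i ≥ 1}) E(n_i - 1)`: the summands with `n_i = 0` are
zero (`EAM_Om_zero`), the others by `EAM_Om_succ`.
-/

namespace MM

private theorem A609_iso (N P : AM) (hN : N.Frob) (f : ∀ n, N.M (n + 1) →ₗ[ZMod 2] P.M n)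
    (hs : ∀ n, Function.Surjective (f n)) (hk : ∀ n x, f n x = 0 ↔ x ∈ N.im0 n)
    (hc : ∀ n m x, f m (N.Sq (n + 1) (m + 1) x) = P.Sq n m (f n x)) :
    Nonempty (AMIso (N.Om hN) P) := by
  have hl : ∀ n, N.im0 n ≤ LinearMap.ker (f n) := fun n x hx => (hk n x).2 hx
  have hb : ∀ n, Function.Bijective ((N.im0 n).liftQ (f n) (hl n)) := by
    intro n
    constructor
    · rw [injective_iff_map_eq_zero]
      intro x hx
      obtain ⟨x, rfl⟩ := Submodule.Quotient.mk_surjective _ x
      rw [Submodule.liftQ_apply] at hx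
      exact (Submodule.Quotient.mk_eq_zero _).2 ((hk n x).1 hx)
    · intro y
      obtain ⟨x, hx⟩ := hs n y
      exact ⟨Submodule.Quotient.mk x, hx⟩
  refine ⟨⟨fun n => LinearEquiv.ofBijective ((N.im0 n).liftQ (f n) (hl n)) (hb n), fun n m x => ?_⟩⟩
  obtain ⟨x, rfl⟩ := AM.Om.pr_surjective _ _ _ x
  exact hc n m x

theorem AM.Om_iso {M N : AM} (hM : M.Frob) (hN : N.Frob) (e : AMIso M N) :
    Nonempty (AMIso (M.Om hM) (N.Om hN)) := by
  refine A609_iso M (N.Om hN) hM (fun n => (AM.Om.pr N hN n).comp (e.e (n + 1)).toLinearMap)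
    (fun n => (AM.Om.pr_surjective N hN n).comp (e.e (n + 1)).surjective) (fun n x => ?_)
    (fun n m x => ?_)
  · show AM.Om.pr N hN n (e.e (n + 1) x) = 0 ↔ _
    rw [AM.Om.pr_eq_zero]
    constructor
    · intro h
      have h1 := e.symm.hom.im0 h
      have h2 : e.symm.hom.app (n + 1) (e.e (n + 1) x) = x := (e.e (n + 1)).symm_apply_apply x
      rwa [h2] at h1
    · intro h
      exact e.hom.im0 h
  · show AM.Om.pr N hN m (e.e (m + 1) (M.Sq (n + 1) (m + 1) x)) =
      (N.Om hN).Sq n m (AM.Om.pr N hN n (e.e (n + 1) x))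
    rw [e.comm, AM.Om.Sq_pr]

private theorem A609_ker {ι : Type} (M : ι → AM) (h : ∀ i, (M i).Frob) (n : ℕ)
    (x : Π₀ i, (M i).M (n + 1)) :
    (DFinsupp.mapRange.linearMap (fun i => AM.Om.pr (M i) (h i) n) x = 0) ↔
      ∀ i, x i ∈ (M i).im0 n := by
  rw [DFinsupp.ext_iff]
  refine forall_congr' fun i => ?_
  rw [DFinsupp.mapRange.linearMap_apply, DFinsupp.mapRange_apply, DFinsupp.zero_apply,
    AM.Om.pr_eq_zero]

private theorem A609_mem {ι : Type} (M : ι → AM) (n : ℕ) (x : Π₀ i, (M i).M (n + 1)) :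
    (∀ i, x i ∈ (M i).im0 n) ↔ x ∈ (AM.dsum M).im0 n := by
  classical
  constructor
  · intro hx
    by_cases h2 : 2 ∣ n + 1
    · have h3 : ∀ i, ∃ y, (M i).Sq ((n + 1) / 2) (n + 1) y = x i := by
        intro i
        have h4 := hx i
        unfold AM.im0 at h4
        rw [if_pos h2] at h4
        exact h4
      choose y hy using h3
      have h6 : x = (AM.dsum M).Sq ((n + 1) / 2) (n + 1)
          (DFinsupp.mk (DFinsupp.support x) fun i => y i.1 : Π₀ i, (M i).M ((n + 1) / 2)) := by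
        refine DFinsupp.ext fun i => ?_
        show x i = (M i).Sq ((n + 1) / 2) (n + 1)
          ((DFinsupp.mk (DFinsupp.support x) fun i => y i.1 : Π₀ i, (M i).M ((n + 1) / 2)) i)
        rw [DFinsupp.mk_apply]
        split_ifs with h7
        · exact (hy i).symm
        · rw [map_zero]
          exact DFinsupp.notMem_support_iff.1 h7
      rw [h6]
      exact AM.Sq_mem_im0 _ (by omega) _
    · have h3 : x = 0 := by
        refine DFinsupp.ext fun i => ?_
        have h4 := hx i
        unfold AM.im0 at h4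
        rw [if_neg h2] at h4
        exact (Submodule.mem_bot _).1 h4
      rw [h3]
      exact Submodule.zero_mem _
  · intro hx i
    rcases AM.mem_im0 hx with h0 | ⟨p, hp, y, h0⟩
    · rw [h0]
      exact Submodule.zero_mem _
    · rw [h0]
      exact AM.Sq_mem_im0 _ hp _

theorem AM.Om_dsum {ι : Type} (M : ι → AM) (h : ∀ i, (M i).Frob) (h' : (AM.dsum M).Frob) :
    Nonempty (AMIso ((AM.dsum M).Om h') (AM.dsum fun i => (M i).Om (h i))) := by
  classical
  refine A609_iso (AM.dsum M) (AM.dsum fun i => (M i).Om (h i)) h'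
    (fun n => DFinsupp.mapRange.linearMap (fun i => AM.Om.pr (M i) (h i) n))
    (fun n => ?_) (fun n x => (A609_ker M h n x).trans (A609_mem M n x)) (fun n m x => ?_)
  · exact (DFinsupp.mapRange_surjective (fun i => AM.Om.pr (M i) (h i) n) (fun i => map_zero _)).2
      fun i => AM.Om.pr_surjective (M i) (h i) n
  · refine DFinsupp.ext fun i => ?_
    rfl

/-- isomorphic summands -/
theorem AM.dsum_iso {ι : Type} (M N : ι → AM) (h : ∀ i, Nonempty (AMIso (M i) (N i))) :
    Nonempty (AMIso (AM.dsum M) (AM.dsum N)) := by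
  have e := fun i => (h i).some
  refine ⟨⟨fun n => DFinsupp.mapRange.linearEquiv (fun i => (e i).e n), fun n m x => ?_⟩⟩
  refine DFinsupp.ext fun i => ?_
  exact (e i).comm n m _

/-- zero summands can be omitted -/
theorem AM.dsum_omit {ι : Type} (M : ι → AM) (p : ι → Prop)
    (h : ∀ i, ¬ p i → ∀ n (x : (M i).M n), x = 0) :
    Nonempty (AMIso (AM.dsum M) (AM.dsum fun i : {i // p i} => M i.1)) := by
  classical
  have hb : ∀ n, Function.Bijective (DFinsupp.subtypeDomainLinearMap (ZMod 2)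
      (fun i => (M i).M n) p) := by
    intro n
    constructor
    · intro x y hxy
      refine DFinsupp.ext fun i => ?_
      by_cases hi : p i
      · exact DFunLike.congr_fun hxy (⟨i, hi⟩ : {i // p i})
      · rw [h i hi n (x i), h i hi n (y i)]
    · intro y
      have h1 : y ∈ LinearMap.range (DFinsupp.subtypeDomainLinearMap (ZMod 2)
          (fun i => (M i).M n) p) := by
        induction y using DFinsupp.induction with
        | h0 => exact Submodule.zero_mem _
        | ha i b f _ _ hf =>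
          refine Submodule.add_mem _ ⟨DFinsupp.single i.1 b, ?_⟩ hf
          refine DFinsupp.ext fun j => ?_
          show (DFinsupp.single i.1 b : Π₀ i, (M i).M n) j.1 = _
          by_cases hij : i = j
          · subst hij
            rw [DFinsupp.single_eq_same, DFinsupp.single_eq_same]
          · rw [DFinsupp.single_eq_of_ne (fun h => hij (Subtype.ext h.symm)),
              DFinsupp.single_eq_of_ne (fun h => hij h.symm)]
      exact h1
  refine ⟨⟨fun n => LinearEquiv.ofBijective _ (hb n), fun n m x => ?_⟩⟩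
  refine DFinsupp.ext fun i => ?_
  rfl

theorem AM.Good.Om {M : AM} (hM : M.Good) (h : M.Frob) : (M.Om h).Good := by
  obtain ⟨ι, n, ⟨e⟩⟩ := hM
  have hE : ∀ i, (EAM (n i)).Frob := fun i => EAM_Frob (n i)
  have hD : (AM.dsum fun i => EAM (n i)).Frob := AM.dsum_Frob _ hE
  obtain ⟨e1⟩ := AM.Om_iso hD h e
  obtain ⟨e2⟩ := AM.Om_dsum (fun i => EAM (n i)) hE hD
  obtain ⟨e3⟩ := AM.dsum_omit (fun i => (EAM (n i)).Om (hE i)) (fun i => n i ≠ 0) (by
    intro i hi k x
    have h0 : n i = 0 := not_not.1 hi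
    have h1 : ∀ (m : ℕ) (hm : (EAM m).Frob), m = 0 → ∀ x : ((EAM m).Om hm).M k, x = 0 := by
      rintro m hm rfl x
      exact EAM_Om_zero k x
    exact h1 (n i) (hE i) h0 x)
  obtain ⟨e4⟩ := AM.dsum_iso (fun i : {i // n i ≠ 0} => (EAM (n i.1)).Om (hE i.1))
    (fun i : {i // n i ≠ 0} => EAM (n i.1 - 1)) (by
      intro i
      have h1 : ∀ (m : ℕ) (hm : (EAM m).Frob), m ≠ 0 →
          Nonempty (AMIso ((EAM m).Om hm) (EAM (m - 1))) := by
        intro m hm hm0
        obtain ⟨k, rfl⟩ : ∃ k, m = k + 1 := ⟨m - 1, by omega⟩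
        exact EAM_Om_succ k
      exact h1 _ _ i.2)
  exact ⟨{i // n i ≠ 0}, fun i => n i.1 - 1, ⟨(e4.symm.trans e3.symm).trans (e2.symm.trans e1)⟩⟩

end MM

end

/-! ### from `Lib_MP_33f7bb_d.A610` -/

section

/-!
# A6-10: exactness of `HomH` for bounded complexes of good modules
-/

namespace MM

/-- exactness of `HomH _ t` on bounded complexes of good modules -/
theorem AMC.homEx_good (t : ℕ) : ∀ (C : AMC), (∀ s, (C.M s).Good) → C.Bdd → C.HomEx t := by
  induction t with
  | zero => intro C hg hB; exact C.homEx_zero (fun s => (hg s).inj0) (fun s => (hg s).beta) hB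
  | succ t ih =>
    intro C hg hB
    exact AMC.HomEx.of_Om C (fun s => (hg s).frob) t (ih _ (fun s => (hg s).Om (hg s).frob)
      (C.Om_Bdd _ (fun s => (hg s).inj0) hB))

/-- exactness of `HomH _ (t+1)` on bounded complexes of suspensions of good modules -/
theorem AMC.homEx_susp (C : AMC) (G : ℕ → AM) (hG : ∀ s, (G s).Good)
    (S : ∀ s, IsSusp (G s) (C.M s)) (hB : C.Bdd) (t : ℕ) : C.HomEx (t + 1) :=
  AMC.HomEx.of_desusp C G S t (AMC.homEx_good t _ hG (C.desusp_Bdd G S hB))

end MM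

end

/-! ### from `Lib_MP_33f7bb_d.A4E1` -/

section

/-!
# A4-11: orbits of exponents, the basis of `E(n)`

`Orb n = Sym ℕ n` (multisets of `n` exponents), `wtO a = ∑ 2^(a_i)`, `shiftO` raises all exponents by one, `consO` adjoins the
exponent `0`.  `orbM a` = sum of all monomials `b : Fin n → ℕ` whose multiset of values is `a`.

`orb_eq_iff`: two functions on `Fin n` with the same multiset of values differ by a permutation (`Multiset`/`List.ofFn` and
`List.Perm`; e.g. both are a permutation composed with the sorted list, `Tuple.sort`; or count fibres and glue bijections of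
the fibres `{i | b i = v}`).
`orbM_mem`: symmetric because `univ.val.map (b ∘ σ) = univ.val.map b`; weight: `wt b = wtO (orb b)`.
`EE_eq_sum`: a symmetric `c` is constant on orbits: `c = ∑_a c(rep a) • orbM a` over the finitely many orbits meeting the
support.
-/

namespace MM

/-- multisets of `n` exponents -/
abbrev Orb (n : ℕ) := Sym ℕ n

/-- the weight `∑ 2 ^ (a_i)` -/
def wtO {n : ℕ} (a : Orb n) : ℕ := ((a : Multiset ℕ).map fun i => 2 ^ i).sum

/-- raise all exponents by one (squaring) -/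
def shiftO {n : ℕ} (a : Orb n) : Orb n := Sym.map (· + 1) a

/-- adjoin the exponent `0` -/
def consO {n : ℕ} (a : Orb n) : Orb (n + 1) := Sym.cons 0 a

/-- the multiset of exponents of a monomial -/
def orb {n : ℕ} (b : Fin n → ℕ) : Orb n := ⟨Finset.univ.val.map b, by simp⟩

/-- the orbit sum -/
noncomputable def orbM {n : ℕ} (a : Orb n) : Mon n := by
  classical
  exact ∑ b ∈ (Fintype.piFinset fun _ : Fin n => (a : Multiset ℕ).toFinset).filter
    (fun b => orb b = a), Finsupp.single b 1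

theorem wtO_orb {n : ℕ} (b : Fin n → ℕ) : wtO (orb b) = wt b := by
  show ((Finset.univ.val.map b).map fun i => 2 ^ i).sum = _
  rw [Multiset.map_map]
  rfl

theorem orb_comp {n : ℕ} (b : Fin n → ℕ) (σ : Equiv.Perm (Fin n)) : orb (b ∘ σ) = orb b := by
  apply Subtype.ext
  show Finset.univ.val.map (b ∘ σ) = Finset.univ.val.map b
  rw [Fin.univ_val_map, Fin.univ_val_map]
  exact Multiset.coe_eq_coe.2 (σ.ofFn_comp_perm b)

theorem orb_eq_iff {n : ℕ} (b b' : Fin n → ℕ) :
    orb b = orb b' ↔ ∃ σ : Equiv.Perm (Fin n), b' = b ∘ σ := by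
  constructor
  · intro h
    have h1 : Finset.univ.val.map b = Finset.univ.val.map b' := congrArg Subtype.val h
    rw [Fin.univ_val_map, Fin.univ_val_map] at h1
    have h2 : (List.ofFn b).Perm (List.ofFn b') := Multiset.coe_eq_coe.1 h1
    have h3 : (List.ofFn (b ∘ Tuple.sort b)).Perm (List.ofFn (b' ∘ Tuple.sort b')) :=
      ((Tuple.sort b).ofFn_comp_perm b).trans (h2.trans ((Tuple.sort b').ofFn_comp_perm b').symm)
    have h4 : b ∘ Tuple.sort b = b' ∘ Tuple.sort b' := List.ofFn_injective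
      (h3.eq_of_sortedLE (Tuple.monotone_sort b).sortedLE_ofFn
        (Tuple.monotone_sort b').sortedLE_ofFn)
    refine ⟨(Tuple.sort b').symm.trans (Tuple.sort b), funext fun i => ?_⟩
    have h5 := congrFun h4 ((Tuple.sort b').symm i)
    simp only [Function.comp_apply, Equiv.apply_symm_apply] at h5
    simp only [Function.comp_apply, Equiv.trans_apply]
    exact h5.symm
  · rintro ⟨σ, rfl⟩
    exact (orb_comp b σ).symm

theorem exists_orb {n : ℕ} (a : Orb n) : ∃ b : Fin n → ℕ, orb b = a := by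
  obtain ⟨s, hs⟩ := a
  induction s using Quotient.inductionOn with
  | _ l =>
    have hs' : l.length = n := hs
    subst hs'
    refine ⟨l.get, Subtype.ext ?_⟩
    show Finset.univ.val.map l.get = _
    rw [Fin.univ_val_map, List.ofFn_get]
    rfl

theorem orbM_apply {n : ℕ} (a : Orb n) (b : Fin n → ℕ) :
    orbM a b = open Classical in if orb b = a then 1 else 0 := by
  classical
  unfold orbM
  rw [Finsupp.finsetSum_apply]
  split_ifs with h
  · rw [Finset.sum_eq_single b]
    · exact Finsupp.single_eq_same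
    · intro c _ hc
      rw [Finsupp.single_apply, if_neg hc]
    · intro hb
      exfalso
      apply hb
      rw [Finset.mem_filter, Fintype.mem_piFinset]
      refine ⟨fun i => ?_, h⟩
      rw [Multiset.mem_toFinset, ← h]
      exact Multiset.mem_map_of_mem b (Finset.mem_univ_val i)
  · refine Finset.sum_eq_zero fun c hc => ?_
    rw [Finsupp.single_apply, if_neg]
    rintro rfl
    exact h (Finset.mem_filter.1 hc).2

theorem orbM_mem {n d : ℕ} (a : Orb n) (h : wtO a = d) : orbM a ∈ EE n d := by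
  classical
  refine ⟨fun b hb => ?_, fun σ b => ?_⟩
  · rw [orbM_apply] at hb
    have h1 : orb b = a := by
      by_contra h1
      exact hb (if_neg h1)
    rw [← wtO_orb, h1, h]
  · rw [orbM_apply, orbM_apply, orb_comp]

private theorem A4E1_eval {n : ℕ} (r : Orb n →₀ ZMod 2) (b : Fin n → ℕ) :
    (r.sum fun a t => t • orbM a) b = r (orb b) := by
  classical
  rw [Finsupp.sum, Finsupp.finsetSum_apply, Finset.sum_eq_single (orb b)]
  · rw [Finsupp.smul_apply, orbM_apply, if_pos rfl, smul_eq_mul, mul_one]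
  · intro a _ ha
    rw [Finsupp.smul_apply, orbM_apply, if_neg (fun h => ha h.symm), smul_zero]
  · intro h
    rw [Finsupp.notMem_support_iff.1 h, zero_smul]
    rfl

theorem orbM_li {n : ℕ} : LinearIndependent (ZMod 2) (orbM : Orb n → Mon n) := by
  rw [linearIndependent_iff]
  intro l hl
  refine Finsupp.ext fun a => ?_
  obtain ⟨b, rfl⟩ := exists_orb a
  have h1 : (l.sum fun a t => t • orbM a) = 0 := hl
  rw [← A4E1_eval l b, h1]
  rfl

theorem wtO_fin {n : ℕ} (d : ℕ) : {a : Orb n | wtO a ≤ d}.Finite := by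
  refine ((Set.finite_Iic (fun _ : Fin n => d)).image orb).subset ?_
  intro a ha
  obtain ⟨b, rfl⟩ := exists_orb a
  refine ⟨b, fun i => ?_, rfl⟩
  have h1 : wtO (orb b) ≤ d := ha
  rw [wtO_orb] at h1
  have h2 : 2 ^ b i ≤ wt b :=
    Finset.single_le_sum (f := fun i => 2 ^ b i) (fun _ _ => Nat.zero_le _) (Finset.mem_univ i)
  have h3 : b i < 2 ^ b i := Nat.lt_two_pow_self
  show b i ≤ d
  omega

/-- every element of `E(n)` is a combination of orbit sums of the same weight -/
theorem EE_eq_sum {n d : ℕ} (c : Mon n) (hc : c ∈ EE n d) :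
    ∃ r : Orb n →₀ ZMod 2, (∀ a, r a ≠ 0 → wtO a = d) ∧ c = r.sum fun a t => t • orbM a := by
  classical
  choose rep hrep using fun a : Orb n => exists_orb a
  have hne : ∀ a, c (rep a) ≠ 0 → a ∈ c.support.image orb := fun a ha =>
    Finset.mem_image.2 ⟨rep a, Finsupp.mem_support_iff.2 ha, hrep a⟩
  refine ⟨Finsupp.onFinset (c.support.image orb) (fun a => c (rep a)) hne, fun a ha => ?_, ?_⟩
  · have h1 := hc.1 (rep a) ha
    rw [← hrep a, wtO_orb, h1]
  · refine Finsupp.ext fun b => ?_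
    rw [A4E1_eval]
    show c b = c (rep (orb b))
    obtain ⟨σ, hσ⟩ := (orb_eq_iff (rep (orb b)) b).1 (hrep (orb b))
    conv_lhs => rw [hσ]
    exact hc.2 σ _

theorem EE_finite (n d : ℕ) : Module.Finite (ZMod 2) (EE n d) := by
  rw [Module.Finite.iff_fg]
  have h1 : EE n d = Submodule.span (ZMod 2) (orbM '' {a : Orb n | wtO a = d}) := by
    apply le_antisymm
    · intro c hc
      obtain ⟨r, hr, h⟩ := EE_eq_sum c hc
      rw [h]
      refine Submodule.sum_mem _ fun a ha => Submodule.smul_mem _ _ (Submodule.subset_span ?_)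
      exact ⟨a, hr a (Finsupp.mem_support_iff.1 ha), rfl⟩
    · rw [Submodule.span_le]
      rintro _ ⟨a, ha, rfl⟩
      exact orbM_mem a ha
  rw [h1]
  exact Submodule.fg_span ((((wtO_fin (n := n) d).subset fun a (ha : wtO a = d) => ha.le)).image _)

theorem wtO_shift {n : ℕ} (a : Orb n) : wtO (shiftO a) = 2 * wtO a := by
  unfold wtO shiftO
  rw [Sym.coe_map, Multiset.map_map, ← Multiset.sum_map_mul_left]
  congr 1
  refine Multiset.map_congr rfl fun i _ => ?_
  show 2 ^ (i + 1) = 2 * 2 ^ i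
  ring

theorem wtO_cons {n : ℕ} (a : Orb n) : wtO (consO a) = wtO a + 1 := by
  unfold wtO consO
  rw [Sym.coe_cons, Multiset.map_cons, Multiset.sum_cons, pow_zero, add_comm]

theorem shiftO_injective {n : ℕ} : Function.Injective (shiftO : Orb n → Orb n) := by
  exact Sym.map_injective (add_left_injective 1) n

theorem consO_injective {n : ℕ} : Function.Injective (consO : Orb n → Orb (n + 1)) := by
  intro a b h
  exact (Sym.cons_inj_right 0 a b).1 h

theorem le_wtO {n : ℕ} (a : Orb n) : n ≤ wtO a := by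
  obtain ⟨b, rfl⟩ := exists_orb a
  rw [wtO_orb]
  calc n = ∑ _i : Fin n, 1 := by simp
    _ ≤ wt b := Finset.sum_le_sum fun i _ => Nat.one_le_two_pow

theorem orb_cons {n : ℕ} (b : Fin n → ℕ) : orb (Fin.cons 0 b : Fin (n + 1) → ℕ) = consO (orb b) := by
  apply Subtype.ext
  show Finset.univ.val.map (Fin.cons 0 b : Fin (n + 1) → ℕ) = 0 ::ₘ Finset.univ.val.map b
  rw [Fin.univ_val_map, Fin.univ_val_map, List.ofFn_cons]
  rfl

theorem orb_shift {n : ℕ} (b : Fin n → ℕ) : orb (fun i => b i + 1) = shiftO (orb b) := by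
  apply Subtype.ext
  show Finset.univ.val.map (fun i => b i + 1) = (Finset.univ.val.map b).map (· + 1)
  rw [Multiset.map_map]
  rfl

private theorem A4E1_ne {n : ℕ} (b : Orb n) (a : Orb (n + 1)) : consO b ≠ shiftO a := by
  intro h
  have h0 : 0 ∈ consO b := Sym.mem_cons_self 0 b
  rw [h] at h0
  obtain ⟨i, -, hi⟩ := Sym.mem_map.1 h0
  omega

/-- every orbit of `Orb (n+1)` is uniquely `shiftO^k (consO b)` -/
theorem orb_decomp {n : ℕ} : Function.Bijective (fun x : Orb n × ℕ => shiftO^[x.2] (consO x.1)) := by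
  constructor
  · have key : ∀ (b b' : Orb n) (k j : ℕ), shiftO^[k] (consO b) = shiftO^[k + j] (consO b') →
        j = 0 ∧ b = b' := by
      intro b b' k j h
      rw [Function.iterate_add_apply] at h
      have h1 := shiftO_injective.iterate k h
      cases j with
      | zero => exact ⟨rfl, consO_injective h1⟩
      | succ j =>
        exfalso
        rw [Function.iterate_succ_apply'] at h1
        exact A4E1_ne _ _ h1
    rintro ⟨b, k⟩ ⟨b', k'⟩ h
    have h' : shiftO^[k] (consO b) = shiftO^[k'] (consO b') := h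
    rcases le_total k k' with hk | hk
    · obtain ⟨j, rfl⟩ := Nat.exists_eq_add_of_le hk
      obtain ⟨rfl, rfl⟩ := key b b' k j h'
      rfl
    · obtain ⟨j, rfl⟩ := Nat.exists_eq_add_of_le hk
      obtain ⟨rfl, rfl⟩ := key b' b k' j h'.symm
      rfl
  · have key : ∀ (m : ℕ) (a : Orb (n + 1)), wtO a ≤ m →
        ∃ x : Orb n × ℕ, shiftO^[x.2] (consO x.1) = a := by
      intro m
      induction m with
      | zero =>
        intro a ha
        have := le_wtO a
        omega
      | succ m ih =>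
        intro a ha
        by_cases h0 : 0 ∈ a
        · obtain ⟨t, ht⟩ := Sym.exists_cons_of_mem h0
          exact ⟨(t, 0), ht.symm⟩
        · obtain ⟨a', rfl⟩ : ∃ a', a = shiftO a' := by
            refine ⟨Sym.map (fun i => i - 1) a, ?_⟩
            unfold shiftO
            rw [Sym.map_map]
            conv_lhs => rw [← Sym.map_id a]
            refine Sym.map_congr fun i hi => ?_
            have : i ≠ 0 := fun h => h0 (h ▸ hi)
            show i = i - 1 + 1
            omega
          rw [wtO_shift] at ha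
          have := le_wtO a'
          obtain ⟨⟨b, k⟩, hx⟩ := ih a' (by omega)
          refine ⟨(b, k + 1), ?_⟩
          show shiftO^[k + 1] (consO b) = shiftO a'
          rw [Function.iterate_succ_apply', ← hx]
    intro a
    exact key _ a le_rfl

theorem wtO_decomp {n : ℕ} (b : Orb n) (k : ℕ) : wtO (shiftO^[k] (consO b)) = 2 ^ k * (wtO b + 1) := by
  induction k with
  | zero =>
    show wtO (consO b) = _
    rw [wtO_cons, pow_zero, one_mul]
  | succ k ih =>
    rw [Function.iterate_succ_apply', wtO_shift, ih]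
    ring

end MM

end

/-! ### from `Lib_MP_33f7bb_d.A4E2` -/

section

/-!
# A4-12: (E1) the exact sequence `0 → Sq0 E(n+1) → E(n+1) → Σ E(n) → 0`

`EAM.coef n d : E(n+1)^(d+1) → E(n)^d`, `c ↦ (b ↦ c (Fin.cons 0 b))` (coefficient of `x_1`).
`coef_comm`: let `c ∈ E(n+1)^(d+1)`.  `(Sqt c) (cons 0 b) = ∑_ε [ε ≤ cons 0 b] c (cons 0 b - ε)` (`Sqt_apply_eq`); `ε ≤ cons 0 b`
forces `ε_0 = 0`, so `ε = cons 0 ε'` and the sum is `∑_ε' [ε' ≤ b] (coef c)(b - ε') = Sqt (coef c) b`.  Weight of `cons 0 b` =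
`1 + wt b`.
`coef_surj`: `orbM (consO a)` is mapped to `orbM a`: `orb (cons 0 b) = consO (orb b)` and `consO` is injective; use `EE_eq_sum`.
`Sq0_eq`: on an element `c` of weight `d` the component of weight `2 d` of `Sqt c` comes from `ε = 1` only:
`wt (b + ε) = 2 wt b` iff all `ε i = 1`; so `Sq0 c = mapDomain (b ↦ b + 1) c`.
`coef_ker`: `coef c = 0` and symmetry: `c b = 0` as soon as some `b i = 0` (move the coordinate `i` to the front with a swap); so
`c = mapDomain (b ↦ b + 1) c'` with `c' b = c (b + 1)` and the weight `d + 1 = 2 d'`.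
-/

namespace MM

/-- coefficient of the first variable -/
noncomputable def coefM (n : ℕ) : Mon (n + 1) →ₗ[ZMod 2] Mon n :=
  Finsupp.lcomapDomain (fun b : Fin n → ℕ => (Fin.cons 0 b : Fin (n + 1) → ℕ))
    (fun _ _ h => (Fin.cons_injective2 h).2)

theorem coefM_apply {n : ℕ} (c : Mon (n + 1)) (b : Fin n → ℕ) : coefM n c b = c (Fin.cons 0 b) :=
  rfl

private theorem A4E2_wt_cons {n : ℕ} (b : Fin n → ℕ) :
    wt (Fin.cons 0 b : Fin (n + 1) → ℕ) = wt b + 1 := by
  unfold wt
  rw [Fin.sum_univ_succ]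
  simp only [Fin.cons_zero, Fin.cons_succ, pow_zero]
  rw [add_comm]

theorem coefM_mem {n d : ℕ} {c : Mon (n + 1)} (hc : c ∈ EE (n + 1) (d + 1)) :
    coefM n c ∈ EE n d := by
  refine ⟨fun b hb => ?_, fun σ b => ?_⟩
  · rw [coefM_apply] at hb
    have h1 := hc.1 _ hb
    rw [A4E2_wt_cons] at h1
    omega
  · rw [coefM_apply, coefM_apply]
    rw [← hc.2 (Equiv.Perm.decomposeFin.symm (0, σ)) (Fin.cons 0 b)]
    congr 1
    funext i
    refine Fin.cases ?_ (fun i => ?_) i
    · simp
    · simp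

/-- `E(n+1)^(d+1) → E(n)^d` -/
noncomputable def EAM.coef (n d : ℕ) : (EAM (n + 1)).M (d + 1) →ₗ[ZMod 2] (EAM n).M d :=
  (coefM n).restrict (fun _ hc => coefM_mem hc)

private theorem A4E2_wtc {n m : ℕ} (c : Mon n) (b : Fin n → ℕ) :
    wtc m c b = if wt b = m then c b else 0 := by
  classical
  show (Finsupp.filter (fun b => wt b = m) c) b = _
  rw [Finsupp.filter_apply]

private theorem A4E2_ext {n d : ℕ} {c c' : (EAM n).M d}
    (h : ∀ b, (show EE n d from c).1 b = (show EE n d from c').1 b) : c = c' :=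
  Subtype.ext (Finsupp.ext h)

private theorem A4E2_Sqt {n : ℕ} (c : Mon (n + 1)) (b : Fin n → ℕ) :
    Sqt c (Fin.cons 0 b) = Sqt (coefM n c) b := by
  rw [Sqt_apply_eq, Sqt_apply_eq, ← (Fin.consEquiv (fun _ : Fin (n + 1) => Fin 2)).sum_comp,
    Fintype.sum_prod_type, Fin.sum_univ_two]
  have h1 : ∑ y : (Fin n → Fin 2), (if ∀ i, (((Fin.consEquiv (fun _ : Fin (n + 1) => Fin 2)) (1, y)
      i : Fin 2) : ℕ) ≤ (Fin.cons 0 b : Fin (n + 1) → ℕ) i then
      c (fun i => (Fin.cons 0 b : Fin (n + 1) → ℕ) i -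
        (((Fin.consEquiv (fun _ : Fin (n + 1) => Fin 2)) (1, y) i : Fin 2) : ℕ)) else 0) = 0 := by
    refine Finset.sum_eq_zero fun y _ => if_neg fun h => ?_
    have := h 0
    simp [Fin.consEquiv] at this
  rw [h1, add_zero]
  refine Finset.sum_congr rfl fun y _ => ?_
  have h2 : (∀ i, (((Fin.consEquiv (fun _ : Fin (n + 1) => Fin 2)) (0, y) i : Fin 2) : ℕ) ≤
      (Fin.cons 0 b : Fin (n + 1) → ℕ) i) ↔ ∀ i, (y i : ℕ) ≤ b i := by
    rw [Fin.forall_fin_succ]
    simp [Fin.consEquiv]
  by_cases h : ∀ i, (y i : ℕ) ≤ b i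
  · rw [if_pos h, if_pos (h2.2 h), coefM_apply]
    congr 1
    funext i
    refine Fin.cases ?_ (fun i => ?_) i
    · simp [Fin.consEquiv]
    · simp [Fin.consEquiv]
  · rw [if_neg h, if_neg (fun h' => h (h2.1 h'))]

theorem EAM.coef_comm (n d m : ℕ) (c : (EAM (n + 1)).M (d + 1)) :
    EAM.coef n m ((EAM (n + 1)).Sq (d + 1) (m + 1) c) = (EAM n).Sq d m (EAM.coef n d c) := by
  refine A4E2_ext fun b => ?_
  show wtc (m + 1) (Sqt c.1) (Fin.cons 0 b) = wtc m (Sqt (coefM n c.1)) b
  rw [A4E2_wtc, A4E2_wtc, A4E2_wt_cons, A4E2_Sqt]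
  simp only [Nat.add_right_cancel_iff]

private theorem A4E2_orbM {n : ℕ} (a : Orb n) : coefM n (orbM (consO a)) = orbM a := by
  classical
  refine Finsupp.ext fun b => ?_
  rw [coefM_apply, orbM_apply, orbM_apply, orb_cons]
  by_cases h : orb b = a
  · rw [if_pos h, if_pos (by rw [h])]
  · rw [if_neg h, if_neg fun h' => h (consO_injective h')]

theorem EAM.coef_surj (n d : ℕ) : Function.Surjective (EAM.coef n d) := by
  intro e
  obtain ⟨r, hr, he⟩ := EE_eq_sum (show EE n d from e).1 (show EE n d from e).2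
  have hmem : (r.sum fun a t => t • orbM (consO a)) ∈ EE (n + 1) (d + 1) := by
    refine Submodule.sum_mem _ fun a ha => Submodule.smul_mem _ _ ?_
    refine orbM_mem _ ?_
    rw [wtO_cons, hr a (Finsupp.mem_support_iff.1 ha)]
  refine ⟨(⟨_, hmem⟩ : EE (n + 1) (d + 1)), ?_⟩
  refine Subtype.ext ?_
  show coefM n (r.sum fun a t => t • orbM (consO a)) = (show EE n d from e).1
  rw [he, map_finsuppSum]
  refine Finset.sum_congr rfl fun a _ => ?_
  show coefM n (r a • orbM (consO a)) = r a • orbM a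
  rw [map_smul, A4E2_orbM]

private theorem A4E2_pos {n : ℕ} (b : Fin (n + 1) → ℕ) : 0 < wt b :=
  Finset.sum_pos (fun _ _ => by positivity) ⟨0, Finset.mem_univ _⟩

theorem EAM.zero_deg (n : ℕ) (c : (EAM (n + 1)).M 0) : c = 0 := by
  refine A4E2_ext fun b => ?_
  show (show EE (n + 1) 0 from c).1 b = 0
  by_contra hne
  have h1 := (show EE (n + 1) 0 from c).2.1 b hne
  have h2 := A4E2_pos b
  omega

private theorem A4E2_two {n : ℕ} {b : Fin n → ℕ} {ε : Fin n → Fin 2}
    (h : wt (fun i => b i + (ε i : ℕ)) = 2 * wt b) : ε = fun _ => 1 := by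
  funext i
  by_contra hi
  have h1 : wt (fun i => b i + (ε i : ℕ)) < 2 * wt b := by
    unfold wt
    rw [Finset.mul_sum]
    refine Finset.sum_lt_sum (fun j _ => ?_) ⟨i, Finset.mem_univ _, ?_⟩
    · have h : (ε j : ℕ) ≤ 1 := by omega
      calc 2 ^ (b j + (ε j : ℕ)) ≤ 2 ^ (b j + 1) := Nat.pow_le_pow_right (by norm_num) (by omega)
        _ = 2 * 2 ^ b j := by ring
    · have h2 : (ε i : ℕ) = 0 := by
        have : (ε i : ℕ) ≠ 1 := fun h => hi (Fin.ext h)
        omega
      show 2 ^ (b i + (ε i : ℕ)) < 2 * 2 ^ b i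
      rw [h2, add_zero]
      have : 0 < 2 ^ b i := by positivity
      omega
  omega

private theorem A4E2_inj (n : ℕ) :
    Function.Injective (fun (b : Fin n → ℕ) (i : Fin n) => b i + 1) := by
  intro b b' h
  funext i
  have := congrFun h i
  simpa using this

private theorem A4E2_top {n d m : ℕ} (hm : m = 2 * d) {c : Mon n} (hc : c ∈ EE n d) :
    wtc m (Sqt c) = Finsupp.mapDomain (fun (b : Fin n → ℕ) (i : Fin n) => b i + 1) c := by
  classical
  refine Finsupp.ext fun b => ?_
  rw [A4E2_wtc]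
  by_cases hb : ∀ i, 1 ≤ b i
  · have hb' : b = (fun (b : Fin n → ℕ) (i : Fin n) => b i + 1) (fun i => b i - 1) := by
      funext i
      have := hb i
      show b i = b i - 1 + 1
      omega
    have h1 : Finsupp.mapDomain (fun (b : Fin n → ℕ) (i : Fin n) => b i + 1) c b =
        c (fun i => b i - 1) := by
      conv_lhs => rw [hb']
      exact Finsupp.mapDomain_apply (A4E2_inj n) c _
    rw [h1, Sqt_apply_eq]
    split_ifs with hw
    · rw [Finset.sum_eq_single (fun _ => 1 : Fin n → Fin 2)]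
      · rw [if_pos (fun i => by simpa using hb i)]
        simp
      · intro ε _ hε
        by_contra hne
        have h : ∀ i, (ε i : ℕ) ≤ b i := by
          by_contra h
          exact hne (if_neg h)
        rw [if_pos h] at hne
        have h3 := hc.1 _ hne
        have h2 : b = fun i => (b i - (ε i : ℕ)) + (ε i : ℕ) := by
          funext i
          have := h i
          omega
        refine hε (A4E2_two (b := fun i => b i - (ε i : ℕ)) ?_)
        rw [← h2]
        omega
      · intro h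
        exact absurd (Finset.mem_univ _) h
    · by_contra hne
      have h3 := hc.1 _ (fun h => hne h.symm)
      apply hw
      rw [hm, ← h3]
      unfold wt
      rw [Finset.mul_sum]
      refine Finset.sum_congr rfl fun i _ => ?_
      have := hb i
      obtain ⟨k, hk⟩ : ∃ k, b i = k + 1 := ⟨b i - 1, by omega⟩
      show 2 ^ b i = 2 * 2 ^ (b i - 1)
      rw [hk, Nat.add_sub_cancel, pow_succ]
      ring
  · have h1 : Finsupp.mapDomain (fun (b : Fin n → ℕ) (i : Fin n) => b i + 1) c b = 0 := by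
      refine Finsupp.mapDomain_of_notMem_range c b ?_
      rintro ⟨b', rfl⟩
      exact hb fun i => Nat.le_add_left _ _
    rw [h1]
    split_ifs with hw
    · rw [Sqt_apply_eq]
      refine Finset.sum_eq_zero fun ε _ => ?_
      by_contra hne
      have h : ∀ i, (ε i : ℕ) ≤ b i := by
        by_contra h
        exact hne (if_neg h)
      rw [if_pos h] at hne
      have h3 := hc.1 _ hne
      have h2 : b = fun i => (b i - (ε i : ℕ)) + (ε i : ℕ) := by
        funext i
        have := h i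
        omega
      have h4 := A4E2_two (b := fun i => b i - (ε i : ℕ)) (ε := ε) (by
        rw [← h2]
        omega)
      apply hb
      intro i
      have := h i
      rw [h4] at this
      simpa using this
    · rfl

/-- `Sq0` raises all exponents -/
theorem Sq0_eq {n d : ℕ} (c : EE n d) :
    ((EAM n).Sq0 d c : EE n (2 * d)).1 =
      Finsupp.mapDomain (fun (b : Fin n → ℕ) (i : Fin n) => b i + 1) c.1 :=
  A4E2_top rfl c.2

theorem Sq0_injective (n d : ℕ) : Function.Injective ((EAM n).Sq0 d) := by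
  intro c c' h
  have h1 := Sq0_eq (show EE n d from c)
  have h2 := Sq0_eq (show EE n d from c')
  refine Subtype.ext (Finsupp.mapDomain_injective (A4E2_inj n) ?_)
  exact h1.symm.trans ((congrArg (fun x : (EAM n).M (2 * d) => (show EE n (2 * d) from x).1) h).trans h2)

theorem Sq0_orbM {n : ℕ} (a : Orb n) :
    ((EAM n).Sq0 (wtO a) (⟨orbM a, orbM_mem a rfl⟩ : EE n (wtO a)) : EE n (2 * wtO a)).1 =
      orbM (shiftO a) := by
  classical
  refine (Sq0_eq (⟨orbM a, orbM_mem a rfl⟩ : EE n (wtO a))).trans ?_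
  refine Finsupp.ext fun b => ?_
  by_cases hb : ∀ i, 1 ≤ b i
  · have hb' : b = (fun (b : Fin n → ℕ) (i : Fin n) => b i + 1) (fun i => b i - 1) := by
      funext i
      have := hb i
      show b i = b i - 1 + 1
      omega
    rw [hb', Finsupp.mapDomain_apply (A4E2_inj n), orbM_apply, orbM_apply, orb_shift]
    by_cases h : orb (fun i => b i - 1) = a
    · rw [if_pos h, if_pos (by rw [h])]
    · rw [if_neg h, if_neg fun h' => h (shiftO_injective h')]
  · rw [Finsupp.mapDomain_of_notMem_range, orbM_apply, if_neg]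
    · intro h
      obtain ⟨i, hi⟩ := not_forall.1 hb
      have h0 : b i = 0 := by omega
      have h1 : (0 : ℕ) ∈ (orb b : Multiset ℕ) := by
        show (0 : ℕ) ∈ Finset.univ.val.map b
        exact Multiset.mem_map.2 ⟨i, Finset.mem_univ_val i, h0⟩
      rw [h] at h1
      unfold shiftO at h1
      rw [Sym.coe_map] at h1
      obtain ⟨x, -, hx⟩ := Multiset.mem_map.1 h1
      omega
    · rintro ⟨b', rfl⟩
      exact hb fun i => Nat.le_add_left _ _

private theorem A4E2_cons_notMem {n : ℕ} (b : Fin n → ℕ) :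
    (Fin.cons 0 b : Fin (n + 1) → ℕ) ∉
      Set.range (fun (b : Fin (n + 1) → ℕ) (i : Fin (n + 1)) => b i + 1) := by
  rintro ⟨b', h⟩
  have := congrFun h 0
  simp at this

theorem EAM.coef_Sq0 (n d d' : ℕ) (h : 2 * d' = d + 1) (c : (EAM (n + 1)).M d') :
    EAM.coef n d ((EAM (n + 1)).Sq d' (d + 1) c) = 0 := by
  refine A4E2_ext fun b => ?_
  show wtc (d + 1) (Sqt (show EE (n + 1) d' from c).1) (Fin.cons 0 b) = 0
  rw [A4E2_top h.symm (show EE (n + 1) d' from c).2]
  exact Finsupp.mapDomain_of_notMem_range _ _ (A4E2_cons_notMem b)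

theorem EAM.coef_ker (n d : ℕ) (c : (EAM (n + 1)).M (d + 1)) (hc : EAM.coef n d c = 0) :
    c = 0 ∨ ∃ d', 2 * d' = d + 1 ∧ ∃ c' : (EAM (n + 1)).M d', (EAM (n + 1)).Sq d' (d + 1) c' = c := by
  classical
  by_cases h0 : c = 0
  · exact Or.inl h0
  right
  have hex : ∃ b, (show EE (n + 1) (d + 1) from c).1 b ≠ 0 := by
    by_contra h
    exact h0 (A4E2_ext fun b => not_not.1 fun hb => h ⟨b, hb⟩)
  have hcb : ∀ b : Fin n → ℕ, (show EE (n + 1) (d + 1) from c).1 (Fin.cons 0 b) = 0 := by
    intro b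
    have := congrArg (fun x : (EAM n).M d => (show EE n d from x).1 b) hc
    exact this
  have hpos : ∀ b, (show EE (n + 1) (d + 1) from c).1 b ≠ 0 → ∀ i, 1 ≤ b i := by
    intro b hb i
    by_contra hi
    apply hb
    rw [← (show EE (n + 1) (d + 1) from c).2.2 (Equiv.swap 0 i) b]
    have e : b ∘ (Equiv.swap 0 i) = Fin.cons 0 (fun j => (b ∘ (Equiv.swap 0 i)) j.succ) := by
      funext j
      refine Fin.cases ?_ (fun j => ?_) j
      · rw [Fin.cons_zero]
        show b (Equiv.swap 0 i 0) = 0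
        rw [Equiv.swap_apply_left]
        omega
      · rw [Fin.cons_succ]
    rw [e]
    exact hcb _
  obtain ⟨b₀, hb₀⟩ := hex
  have hwt : ∀ b : Fin (n + 1) → ℕ, wt (fun i => b i + 1) = 2 * wt b := by
    intro b
    unfold wt
    rw [Finset.mul_sum]
    refine Finset.sum_congr rfl fun i _ => ?_
    rw [pow_succ]
    ring
  have hsh : ∀ b : Fin (n + 1) → ℕ, (∀ i, 1 ≤ b i) → (fun i => (b i - 1) + 1) = b := by
    intro b hb
    funext i
    have := hb i
    omega
  have hd : 2 * wt (fun i => b₀ i - 1) = d + 1 := by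
    rw [← hwt, hsh b₀ (hpos b₀ hb₀)]
    exact (show EE (n + 1) (d + 1) from c).2.1 b₀ hb₀
  refine ⟨wt (fun i => b₀ i - 1), hd, ?_⟩
  generalize wt (fun i => b₀ i - 1) = d' at hd
  let c' : Mon (n + 1) := Finsupp.comapDomain (fun (b : Fin (n + 1) → ℕ) (i : Fin (n + 1)) => b i + 1)
    (show EE (n + 1) (d + 1) from c).1 (A4E2_inj (n + 1)).injOn
  have hc' : c' ∈ EE (n + 1) d' := by
    refine ⟨fun b hb => ?_, fun σ b => ?_⟩
    · have h1 := (show EE (n + 1) (d + 1) from c).2.1 (fun i => b i + 1) hb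
      rw [hwt] at h1
      omega
    · exact (show EE (n + 1) (d + 1) from c).2.2 σ (fun i => b i + 1)
  refine ⟨(⟨c', hc'⟩ : EE (n + 1) d'), ?_⟩
  refine A4E2_ext fun b => ?_
  show wtc (d + 1) (Sqt c') b = _
  rw [A4E2_top hd.symm hc']
  by_cases hb : ∀ i, 1 ≤ b i
  · have hb' : b = (fun (b : Fin (n + 1) → ℕ) (i : Fin (n + 1)) => b i + 1) (fun i => b i - 1) :=
      (hsh b hb).symm
    have h1 : Finsupp.mapDomain (fun (b : Fin (n + 1) → ℕ) (i : Fin (n + 1)) => b i + 1) c' b =
        c' (fun i => b i - 1) := by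
      conv_lhs => rw [hb']
      exact Finsupp.mapDomain_apply (A4E2_inj (n + 1)) c' _
    rw [h1]
    show (show EE (n + 1) (d + 1) from c).1 (fun i => (b i - 1) + 1) = _
    rw [hsh b hb]
  · rw [Finsupp.mapDomain_of_notMem_range]
    · by_contra hne
      exact hb (hpos b fun h => hne h.symm)
    · rintro ⟨b', rfl⟩
      exact hb fun i => Nat.le_add_left _ _

/-- `E(0)` is `ZMod 2` in degree `0`, `Sq0` is bijective -/
theorem EAM.zero_eq (d : ℕ) (hd : d ≠ 0) (c : (EAM 0).M d) : c = 0 := by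
  refine A4E2_ext fun b => ?_
  show (show EE 0 d from c).1 b = 0
  by_contra hne
  have h1 := (show EE 0 d from c).2.1 b hne
  apply hd
  rw [← h1]
  simp [wt]

theorem EAM.zero_gen (c : (EAM 0).M 0) : c = 0 ∨ c = EAM.gen 0 := by
  have h01 : ∀ t : ZMod 2, t = 0 ∨ t = 1 := by decide
  rcases h01 ((show EE 0 0 from c).1 0) with h | h
  · left
    refine A4E2_ext fun b => ?_
    have hb : b = 0 := Subsingleton.elim _ _
    rw [hb, h]
    rfl
  · right
    refine A4E2_ext fun b => ?_
    have hb : b = 0 := Subsingleton.elim _ _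
    rw [hb, h]
    show 1 = (Finsupp.single (0 : Fin 0 → ℕ) (1 : ZMod 2)) 0
    rw [Finsupp.single_eq_same]

theorem EAM.coef_gen (n : ℕ) : EAM.coef n n (EAM.gen (n + 1)) = EAM.gen n := by
  classical
  refine A4E2_ext fun b => ?_
  show (Finsupp.single (0 : Fin (n + 1) → ℕ) (1 : ZMod 2)) (Fin.cons 0 b) =
    (Finsupp.single (0 : Fin n → ℕ) (1 : ZMod 2)) b
  rw [Finsupp.single_apply, Finsupp.single_apply]
  by_cases h : (0 : Fin n → ℕ) = b
  · subst h
    rw [if_pos rfl, if_pos]
    funext i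
    refine Fin.cases ?_ (fun i => ?_) i
    · rfl
    · rfl
  · rw [if_neg h, if_neg]
    intro h'
    apply h
    funext i
    have := congrFun h' i.succ
    simpa using this

end MM

end

/-! ### from `Lib_MP_33f7bb_d.A4E3` -/

section

/-!
# A4-13: (E2) `E(n)` is generated by `x_1 ⋯ x_n`; (E3) operation words

`EAM_gen`: induction on `n`; for `n + 1` induction on the degree `d`.  Degree `0`: `EAM.zero_deg`.
Degree `d + 1`: the submodules `S' e = {coef c | c ∈ S (e + 1)} ≤ E(n)^e` are closed under the operations (`coef_comm`) and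
contain `EAM.gen n` (`coef_gen`), so by induction on `n` `S' d = ⊤`: for `c ∈ E(n+1)^(d+1)` there is `c' ∈ S (d+1)` with
`coef (c + c') = 0`; by `coef_ker` `c + c'` is `0` or `Sq0 c''`, `c''` of degree `d' < d + 1`, in `S` by induction.
`exists_op`: `S d = {x | ∃ θ, θ.ev gen = x}` is closed under the operations.
-/

namespace MM

theorem EAM_gen (n : ℕ) (S : ∀ d, Submodule (ZMod 2) ((EAM n).M d))
    (hS : ∀ d m, ∀ x ∈ S d, (EAM n).Sq d m x ∈ S m) (hg : EAM.gen n ∈ S n) (d : ℕ) :
    S d = ⊤ := by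
  induction n generalizing d with
  | zero =>
    refine Submodule.eq_top_iff'.2 fun c => ?_
    by_cases hd : d = 0
    · subst hd
      rcases EAM.zero_gen c with h | h
      · rw [h]
        exact (S 0).zero_mem
      · rw [h]
        exact hg
    · rw [EAM.zero_eq d hd c]
      exact (S d).zero_mem
  | succ n ih =>
    have hS' : ∀ e, (S (e + 1)).map (EAM.coef n e) = ⊤ := by
      refine ih (fun e => (S (e + 1)).map (EAM.coef n e)) ?_ ?_
      · rintro e m x ⟨c, hc, rfl⟩
        exact ⟨(EAM (n + 1)).Sq (e + 1) (m + 1) c, hS _ _ c hc, EAM.coef_comm n e m c⟩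
      · exact ⟨EAM.gen (n + 1), hg, EAM.coef_gen n⟩
    induction d using Nat.strong_induction_on with
    | _ d ihd =>
      refine Submodule.eq_top_iff'.2 fun c => ?_
      rcases d with _ | e
      · rw [EAM.zero_deg n c]
        exact (S 0).zero_mem
      · have h1 : EAM.coef n e c ∈ (S (e + 1)).map (EAM.coef n e) := by
          rw [hS' e]
          exact Submodule.mem_top
        obtain ⟨c', hc', h2⟩ := h1
        have h3 : EAM.coef n e (c - c') = 0 := by
          rw [map_sub, h2, sub_self]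
        have h4 : c - c' ∈ S (e + 1) := by
          rcases EAM.coef_ker n e (c - c') h3 with h | ⟨d', hd', c'', h⟩
          · rw [h]
            exact (S (e + 1)).zero_mem
          · rw [← h]
            refine hS d' (e + 1) c'' ?_
            rw [ihd d' (by omega)]
            exact Submodule.mem_top
        have h5 := (S (e + 1)).add_mem h4 hc'
        rwa [sub_add_cancel] at h5

/-- words in the operations, from degree `n` to degree `d` -/
inductive Wop (n : ℕ) : ℕ → Type
  | nil : Wop n n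
  | cons {p : ℕ} (w : Wop n p) (d : ℕ) : Wop n d

/-- evaluation of words: `cons w d` = `w` followed by `Sq p d` -/
noncomputable def Wop.ev (M : AM) {n : ℕ} : ∀ {d : ℕ}, Wop n d → (M.M n →ₗ[ZMod 2] M.M d)
  | _, .nil => LinearMap.id
  | _, .cons (p := p) w d => (M.Sq p d).comp (w.ev M)

/-- operations: combinations of words -/
abbrev Op (n d : ℕ) := Wop n d →₀ ZMod 2

/-- evaluation of operations -/
noncomputable def Op.ev (M : AM) {n d : ℕ} (θ : Op n d) : M.M n →ₗ[ZMod 2] M.M d :=
  θ.sum fun w r => r • w.ev M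

private theorem A4E3_ev_nat {M N : AM} (f : AMHom M N) {n d : ℕ} (w : Wop n d) (x : M.M n) :
    f.app d (w.ev M x) = w.ev N (f.app n x) := by
  induction w with
  | nil => rfl
  | cons w d ih =>
    show f.app d (M.Sq _ d (w.ev M x)) = N.Sq _ d (w.ev N (f.app n x))
    rw [f.comm, ih]

private theorem A4E3_ev_apply (M : AM) {n d : ℕ} (θ : Op n d) (x : M.M n) :
    θ.ev M x = θ.sum fun w r => r • w.ev M x := by
  rw [Op.ev, Finsupp.sum, LinearMap.sum_apply]
  rfl

theorem Op.ev_nat {M N : AM} (f : AMHom M N) {n d : ℕ} (θ : Op n d) (x : M.M n) :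
    f.app d (θ.ev M x) = θ.ev N (f.app n x) := by
  rw [A4E3_ev_apply, A4E3_ev_apply, Finsupp.sum, Finsupp.sum, map_sum]
  refine Finset.sum_congr rfl fun w _ => ?_
  rw [map_smul, A4E3_ev_nat]

/-- composition with an operation: `θ` followed by `Sq d m` -/
theorem Op.exists_comp {n d : ℕ} (θ : Op n d) (m : ℕ) :
    ∃ θ' : Op n m, ∀ M : AM, θ'.ev M = (M.Sq d m).comp (θ.ev M) := by
  refine ⟨θ.mapDomain (fun w => Wop.cons w m), fun M => LinearMap.ext fun x => ?_⟩
  rw [A4E3_ev_apply, LinearMap.comp_apply, A4E3_ev_apply,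
    Finsupp.sum_mapDomain_index (h := fun w r => r • (Wop.ev M w) x) (fun _ => zero_smul _ _)
      (fun _ _ _ => add_smul _ _ _), Finsupp.sum, Finsupp.sum, map_sum]
  refine Finset.sum_congr rfl fun w _ => ?_
  rw [map_smul]
  rfl

theorem Op.ev_add {M : AM} {n d : ℕ} (θ θ' : Op n d) : (θ + θ').ev M = θ.ev M + θ'.ev M := by
  refine LinearMap.ext fun x => ?_
  rw [LinearMap.add_apply, A4E3_ev_apply, A4E3_ev_apply, A4E3_ev_apply]
  exact Finsupp.sum_add_index' (fun _ => zero_smul _ _) (fun _ _ _ => add_smul _ _ _)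

theorem Op.ev_smul {M : AM} {n d : ℕ} (r : ZMod 2) (θ : Op n d) : (r • θ).ev M = r • θ.ev M := by
  refine LinearMap.ext fun x => ?_
  rw [LinearMap.smul_apply, A4E3_ev_apply, A4E3_ev_apply,
    Finsupp.sum_smul_index (h := fun w r => r • (Wop.ev M w) x) (fun _ => zero_smul _ _),
    Finsupp.smul_sum]
  refine Finset.sum_congr rfl fun w _ => ?_
  exact mul_smul _ _ _

private noncomputable def A4E3_S (n d : ℕ) : Submodule (ZMod 2) ((EAM n).M d) where
  carrier := {x | ∃ θ : Op n d, θ.ev (EAM n) (EAM.gen n) = x}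
  add_mem' := by
    rintro _ _ ⟨θ, rfl⟩ ⟨θ', rfl⟩
    exact ⟨θ + θ', by rw [Op.ev_add, LinearMap.add_apply]⟩
  zero_mem' := ⟨0, by rw [A4E3_ev_apply, Finsupp.sum_zero_index]⟩
  smul_mem' := by
    rintro r _ ⟨θ, rfl⟩
    exact ⟨r • θ, by rw [Op.ev_smul, LinearMap.smul_apply]⟩

theorem exists_op (n d : ℕ) (c : (EAM n).M d) : ∃ θ : Op n d, θ.ev (EAM n) (EAM.gen n) = c := by
  have h := EAM_gen n (A4E3_S n) (fun d m x hx => by
    obtain ⟨θ, rfl⟩ := hx
    obtain ⟨θ', hθ'⟩ := θ.exists_comp m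
    exact ⟨θ', by rw [hθ', LinearMap.comp_apply]⟩)
    ⟨Finsupp.single Wop.nil 1, by
      rw [A4E3_ev_apply, Finsupp.sum_single_index
        (h := fun w r => r • (Wop.ev (EAM n) w) (EAM.gen n)) (zero_smul _ _), one_smul]
      rfl⟩ d
  have h2 : c ∈ A4E3_S n d := by
    rw [h]
    exact Submodule.mem_top
  exact h2

end MM

end

/-! ### from `Lib_MP_33f7bb_d.A4C4` -/

section

/-!
# A4-24: binary digits: finite subsets of `J × ℕ` and exponent functions

`betaF D j = ∑_(t : (j,t) ∈ D) 2^t`.  It is a bijection between finite subsets of `J × ℕ` and finitely supported functions `J → ℕ`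
(for each `j`: finite sets of naturals = naturals by binary digits, `Finset.equivBitIndices`,
`Nat.twoPowSum_bitIndices`).
`count_main`: `∑_(k=1)^d #{e multiset on Orb n : card e = k, ∑ wtO = d - k}` = `#{e ≠ 0 : ∑_(b ∈ e) (wtO b + 1) = d}`
(disjoint union over `k = card e`, `1 ≤ k ≤ d`) = number of nonempty finite `D ⊆ Orb n × ℕ` with
`∑_((b,t) ∈ D) 2^t (wtO b + 1) = d` (`betaF`, `Multiset.toFinsupp`) = number of nonempty finite subsets of
`Orb (n+1)` of total weight `d` (`orb_decomp`, `wtO_decomp`).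
-/

namespace MM

/-- the exponent function of a finite set of pairs -/
noncomputable def betaF {J : Type} (D : Finset (J × ℕ)) : J →₀ ℕ :=
  ∑ x ∈ D, Finsupp.single x.1 (2 ^ x.2)

private theorem A4C4_apply {J : Type} (D : Finset (J × ℕ)) (j : J) :
    betaF D j = open Classical in ∑ t ∈ (D.filter (fun x => x.1 = j)).image Prod.snd, 2 ^ t := by
  classical
  unfold betaF
  rw [Finsupp.finsetSum_apply, Finset.sum_image]
  · rw [Finset.sum_filter]
    refine Finset.sum_congr rfl fun x _ => ?_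
    rw [Finsupp.single_apply]
  · rintro ⟨a, t⟩ h1 ⟨b, u⟩ h2 h
    have e1 : a = j := (Finset.mem_filter.1 h1).2
    have e2 : b = j := (Finset.mem_filter.1 h2).2
    have e3 : t = u := h
    rw [e1, e2, e3]

private theorem A4C4_mem {J : Type} (D : Finset (J × ℕ)) (j : J) (t : ℕ) :
    (j, t) ∈ D ↔ t ∈ (betaF D j).bitIndices.toFinset := by
  classical
  rw [A4C4_apply, Finset.toFinset_bitIndices_sum_two_pow, Finset.mem_image]
  constructor
  · exact fun h => ⟨(j, t), Finset.mem_filter.2 ⟨h, rfl⟩, rfl⟩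
  · rintro ⟨⟨a, u⟩, h, rfl⟩
    obtain ⟨h1, h2⟩ := Finset.mem_filter.1 h
    have h3 : a = j := h2
    rw [← h3]
    exact h1

theorem betaF_bijective {J : Type} : Function.Bijective (betaF : Finset (J × ℕ) → J →₀ ℕ) := by
  classical
  constructor
  · intro D D' h
    ext ⟨j, t⟩
    rw [A4C4_mem, A4C4_mem, h]
  · intro f
    refine ⟨f.support.biUnion (fun j => (f j).bitIndices.toFinset.image (fun t => (j, t))), ?_⟩
    ext j
    rw [A4C4_apply]
    have h : ((f.support.biUnion (fun j => (f j).bitIndices.toFinset.image (fun t => (j, t)))).filter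
        (fun x => x.1 = j)).image Prod.snd = (f j).bitIndices.toFinset := by
      ext t
      rw [Finset.mem_image]
      constructor
      · rintro ⟨⟨a, u⟩, h, rfl⟩
        obtain ⟨h1, h2⟩ := Finset.mem_filter.1 h
        have h3 : a = j := h2
        obtain ⟨b, hb, h4⟩ := Finset.mem_biUnion.1 h1
        obtain ⟨v, hv, h5⟩ := Finset.mem_image.1 h4
        obtain ⟨rfl, rfl⟩ := Prod.mk.inj h5
        rw [← h3]
        exact hv
      · intro ht
        refine ⟨(j, t), Finset.mem_filter.2 ⟨Finset.mem_biUnion.2 ⟨j, ?_, Finset.mem_image.2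
          ⟨t, ht, rfl⟩⟩, rfl⟩, rfl⟩
        rw [Finsupp.mem_support_iff]
        intro h0
        rw [h0] at ht
        simp at ht
    rw [h]
    exact Finset.sum_toFinset_bitIndices_two_pow _

theorem betaF_sum {J : Type} (w : J → ℕ) (D : Finset (J × ℕ)) :
    (betaF D).sum (fun j k => k * w j) = ∑ x ∈ D, 2 ^ x.2 * w x.1 := by
  unfold betaF
  rw [← Finsupp.sum_finsetSum_index (fun a => zero_mul _) (fun a b c => add_mul _ _ _)]
  refine Finset.sum_congr rfl fun x _ => ?_
  rw [Finsupp.sum_single_index (zero_mul _)]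

theorem betaF_prod {J R : Type} [CommMonoid R] (z : J → R) (D : Finset (J × ℕ)) :
    (betaF D).prod (fun j k => z j ^ k) = ∏ x ∈ D, z x.1 ^ 2 ^ x.2 := by
  unfold betaF
  rw [← Finsupp.prod_finsetSum_index (fun a => pow_zero _) (fun a b c => pow_add _ _ _)]
  refine Finset.prod_congr rfl fun x _ => ?_
  exact Finsupp.prod_single_index (h := fun j k => z j ^ k) (pow_zero _)

theorem multiset_fin {J : Type} (w : J → ℕ) (hw : ∀ d, {j | w j ≤ d}.Finite) (k p : ℕ) :
    {e : Multiset J | Multiset.card e = k ∧ (e.map w).sum = p}.Finite := by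
  have h1 : {b : Fin k → J | ∀ i, b i ∈ {j | w j ≤ p}}.Finite := Set.Finite.pi' fun _ => hw p
  refine (h1.image (fun b => Finset.univ.val.map b)).subset ?_
  rintro e ⟨he, hs⟩
  induction e using Quotient.inductionOn with
  | _ l =>
    have hl : l.length = k := he
    subst hl
    have hmap : Finset.univ.val.map l.get = (l : Multiset J) := by
      rw [Fin.univ_val_map, List.ofFn_get]
    refine ⟨l.get, fun i => ?_, hmap⟩
    show w (l.get i) ≤ p
    have hs' : ((l : Multiset J).map w).sum = p := hs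
    rw [← hs']
    refine Multiset.single_le_sum (fun _ _ => Nat.zero_le _) _ ?_
    exact Multiset.mem_map_of_mem w (List.get_mem l i)

theorem finset_orb_fin (n d : ℕ) :
    {D : Finset (Orb n) | ∑ b ∈ D, wtO b = d}.Finite := by
  classical
  refine ((wtO_fin (n := n) d).toFinset.powerset.finite_toSet).subset ?_
  intro D hD
  have hD' : ∑ b ∈ D, wtO b = d := hD
  rw [Finset.mem_coe, Finset.mem_powerset]
  intro b hb
  rw [Set.Finite.mem_toFinset]
  show wtO b ≤ d
  rw [← hD']
  exact Finset.single_le_sum (f := wtO) (fun _ _ => Nat.zero_le _) hb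

private theorem A4C4_toM {J : Type} (w : J → ℕ) (f : J →₀ ℕ) :
    ((Finsupp.toMultiset f).map w).sum = f.sum (fun j k => k * w j) := by
  induction f using Finsupp.induction_linear with
  | zero => simp
  | add f g hf hg =>
    rw [Finsupp.toMultiset_add, Multiset.map_add, Multiset.sum_add, hf, hg,
      Finsupp.sum_add_index' (fun a => zero_mul _) (fun a b c => add_mul _ _ _)]
  | single a b =>
    rw [Finsupp.toMultiset_single, Finsupp.sum_single_index (zero_mul _), Multiset.map_nsmul,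
      Multiset.map_singleton, Multiset.sum_nsmul, Multiset.sum_singleton, smul_eq_mul]

private theorem A4C4_toM_bij {J : Type} :
    Function.Bijective (Finsupp.toMultiset : (J →₀ ℕ) → Multiset J) := by
  classical
  have h : (Finsupp.toMultiset : (J →₀ ℕ) → Multiset J) = Multiset.toFinsupp.symm := by
    funext f
    rw [Multiset.toFinsupp_symm_apply]
  rw [h]
  exact Multiset.toFinsupp.symm.bijective

private theorem A4C4_wt1 {J : Type} (w : J → ℕ) (e : Multiset J) :
    (e.map (fun b => w b + 1)).sum = (e.map w).sum + Multiset.card e := by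
  rw [Multiset.sum_map_add, Multiset.map_const', Multiset.sum_replicate, smul_eq_mul, mul_one]

/-- all multisets with the right weight -/
private theorem A4C4_left {J : Type} (w : J → ℕ) (hw : ∀ d, {j | w j ≤ d}.Finite) (d : ℕ) :
    ∑ k ∈ Finset.Icc 1 d, {e : Multiset J | Multiset.card e = k ∧ (e.map w).sum = d - k}.ncard =
      {e : Multiset J | e ≠ 0 ∧ (e.map (fun b => w b + 1)).sum = d}.ncard := by
  classical
  have hA : {e : Multiset J | e ≠ 0 ∧ (e.map (fun b => w b + 1)).sum = d}.Finite := by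
    refine (Set.Finite.biUnion (Finset.finite_toSet (Finset.Icc 1 d))
      fun k _ => multiset_fin w hw k (d - k)).subset ?_
    rintro e ⟨he, hs⟩
    rw [A4C4_wt1] at hs
    have h1 : 0 < Multiset.card e := Multiset.card_pos.2 he
    refine Set.mem_iUnion₂.2 ⟨Multiset.card e, ?_, rfl, ?_⟩
    · rw [Finset.mem_coe, Finset.mem_Icc]
      omega
    · omega
  rw [Set.ncard_eq_toFinset_card _ hA]
  have hmaps : ∀ e ∈ hA.toFinset, Multiset.card e ∈ Finset.Icc 1 d := by
    intro e he
    obtain ⟨he1, hs⟩ := (Set.Finite.mem_toFinset hA).1 he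
    rw [A4C4_wt1] at hs
    have h1 : 0 < Multiset.card e := Multiset.card_pos.2 he1
    rw [Finset.mem_Icc]
    omega
  rw [Finset.card_eq_sum_card_fiberwise (f := Multiset.card) (t := Finset.Icc 1 d) hmaps]
  refine Finset.sum_congr rfl fun k hk => ?_
  rw [Finset.mem_Icc] at hk
  rw [← Set.ncard_coe_finset]
  congr 1
  ext e
  rw [Finset.mem_coe, Finset.mem_filter, Set.Finite.mem_toFinset]
  constructor
  · rintro ⟨h1, h2⟩
    refine ⟨⟨?_, ?_⟩, h1⟩
    · rintro rfl
      rw [Multiset.card_zero] at h1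
      omega
    · rw [A4C4_wt1, h2, h1]
      omega
  · rintro ⟨⟨h1, h2⟩, h3⟩
    rw [A4C4_wt1, h3] at h2
    exact ⟨h3, by omega⟩

theorem count_main (n d : ℕ) :
    ∑ k ∈ Finset.Icc 1 d, {e : Multiset (Orb n) | Multiset.card e = k ∧
        (e.map wtO).sum = d - k}.ncard =
      {D : Finset (Orb (n + 1)) | D.Nonempty ∧ ∑ b ∈ D, wtO b = d}.ncard := by
  classical
  rw [A4C4_left wtO wtO_fin d]
  set B : Set (Finset (Orb n × ℕ)) :=
    {D | D.Nonempty ∧ ∑ x ∈ D, 2 ^ x.2 * (wtO x.1 + 1) = d} with hB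
  have h1 : {e : Multiset (Orb n) | e ≠ 0 ∧ (e.map (fun b => wtO b + 1)).sum = d} =
      (fun D => Finsupp.toMultiset (betaF D)) '' B := by
    ext e
    constructor
    · rintro ⟨he, hs⟩
      obtain ⟨f, rfl⟩ := (A4C4_toM_bij (J := Orb n)).2 e
      obtain ⟨D, rfl⟩ := (betaF_bijective (J := Orb n)).2 f
      refine ⟨D, ⟨?_, ?_⟩, rfl⟩
      · rw [Finset.nonempty_iff_ne_empty]
        rintro rfl
        apply he
        show Finsupp.toMultiset (betaF ∅) = 0
        unfold betaF
        rw [Finset.sum_empty, Finsupp.toMultiset_zero]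
      · rw [A4C4_toM, betaF_sum (fun b => wtO b + 1)] at hs
        exact hs
    · rintro ⟨D, ⟨hD, hs⟩, rfl⟩
      refine ⟨?_, ?_⟩
      · intro h
        have h' : Finsupp.toMultiset (betaF D) = 0 := h
        have h2 : Finsupp.toMultiset (betaF D) = Finsupp.toMultiset (betaF ∅) := by
          rw [h']
          unfold betaF
          rw [Finset.sum_empty, Finsupp.toMultiset_zero]
        have h3 := (betaF_bijective (J := Orb n)).1 ((A4C4_toM_bij (J := Orb n)).1 h2)
        rw [h3] at hD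
        exact Finset.not_nonempty_empty hD
      · rw [A4C4_toM, betaF_sum (fun b => wtO b + 1)]
        exact hs
  have h2 : {D : Finset (Orb (n + 1)) | D.Nonempty ∧ ∑ b ∈ D, wtO b = d} =
      (Finset.map ⟨_, (orb_decomp (n := n)).1⟩) '' B := by
    ext D
    constructor
    · rintro ⟨hD, hs⟩
      refine ⟨D.preimage (fun x : Orb n × ℕ => shiftO^[x.2] (consO x.1))
        ((orb_decomp (n := n)).1.injOn), ?_, ?_⟩
      swap
      · ext a
        rw [Finset.mem_map]
        constructor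
        · rintro ⟨x, hx, rfl⟩
          exact Finset.mem_preimage.1 hx
        · intro ha
          obtain ⟨x, rfl⟩ := (orb_decomp (n := n)).2 a
          exact ⟨x, Finset.mem_preimage.2 ha, rfl⟩
      · refine ⟨?_, ?_⟩
        · obtain ⟨a, ha⟩ := hD
          obtain ⟨x, rfl⟩ := (orb_decomp (n := n)).2 a
          exact ⟨x, Finset.mem_preimage.2 ha⟩
        · rw [← hs, ← Finset.sum_preimage_of_bij (fun x : Orb n × ℕ => shiftO^[x.2] (consO x.1)) D
            ⟨fun x hx => hx, (orb_decomp (n := n)).1.injOn, fun a ha => by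
              obtain ⟨x, rfl⟩ := (orb_decomp (n := n)).2 a
              exact ⟨x, ha, rfl⟩⟩ wtO]
          refine Finset.sum_congr rfl fun x _ => ?_
          rw [wtO_decomp]
    · rintro ⟨D, ⟨hD, hs⟩, rfl⟩
      refine ⟨hD.map, ?_⟩
      rw [Finset.sum_map, ← hs]
      refine Finset.sum_congr rfl fun x _ => ?_
      exact wtO_decomp x.1 x.2
  rw [h1, h2, Set.ncard_image_of_injective, Set.ncard_image_of_injective]
  · exact Finset.map_injective _
  · exact (A4C4_toM_bij (J := Orb n)).1.comp (betaF_bijective (J := Orb n)).1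

end MM

end

/-! ### from `Lib_MP_33f7bb_d.A4C5` -/

section

/-!
# A4-25: the second page of the bar spectral sequence (pure linear algebra)

`H k` (`k ≥ 0`) vector spaces with bases `Y k L`, `L` a list of nonempty finite subsets of `J` of length `k` and total weight
`p`, and maps `δ k : H (k+1) → H k` given by the differential `dlc` of lists.  Then the cycles of `H (k+1)` are boundaries plus
the span of the elements `Y (zet e)`, `card e = k + 1`, weight `p`.

Proof.  `x = ∑ c_L Y L` with `c` supported on lists of length `k+1` and weight `p` (`hspan`).  `δ x = ∑ (dlL c)_M Y M`, and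
`dlL c` is supported on lists of length `k` and weight `p` (`dl_terms`), so `dlL c = 0` by independence (`hli`).
Decompose `c = ∑_e c_e` by types (finitely many `e = ty L`, `L` in the support); the differential preserves the type, so
`dlL c_e = 0` for each `e` (compare coefficients at `M` with `ty M = e`).  `card e ≥ k + 1` (`length_le_ty`).  If `card e > k + 1`
then `c_e = dlL b_e` with `b_e` of length `k + 2` and type `e` (`bar_exact`), so `∑ (c_e)_L Y L = δ (∑ (b_e)_L Y L)`.  If
`card e = k + 1`: `c_e = r • zet e` (`bar_span`).  `T` = the set of all `∑ (zet e)_L Y L`, `e` in the finite set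
(`multiset_fin`) of multisets with `k + 1` elements and weight `p`.
`LA_rel`: let `S = {e ∈ span T | ∃ z ∈ Z, R z e}` (a subspace, `R` is additive and contains `(0,0)`, scalars are `0, 1`);
choose a basis `e_1, …, e_r` of `S`, `r ≤ card T` (`finrank_span_finset_le_card`, `Submodule.finrank_mono`), and `z_j ∈ Z` with `R z_j e_j`;
`T' = {z_j}`.  For `z ∈ Z`, `R z e`, `e = ∑ λ_j e_j`: `R (z + ∑ λ_j z_j) 0` (as `e + e = 0`), so `z + ∑ λ_j z_j ∈ Z₁`.
-/

namespace MM

/-- the weight of a list -/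
def lwt {J : Type} [DecidableEq J] (w : J → ℕ) (L : List (NE J)) : ℕ := ((ty L).map w).sum

private theorem A4C5_two {M : Type*} [AddCommGroup M] [Module (ZMod 2) M] (x : M) : x + x = 0 := by
  have : (2 : ZMod 2) • x = 0 := by
    have h : (2 : ZMod 2) = 0 := rfl
    rw [h, zero_smul]
  rwa [two_smul] at this

private theorem A4C5_dlL_apply {J : Type} [DecidableEq J] (c : LC J) (M : List (NE J)) :
    dlL c M = c.sum fun L r => r * dlc L M := by
  unfold dlL
  rw [Finsupp.linearCombination_apply, Finsupp.sum, Finsupp.finsetSum_apply]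
  rfl

private theorem A4C5_term {J : Type} [DecidableEq J] {c : LC J} {M : List (NE J)}
    (h : dlL c M ≠ 0) : ∃ L, c L ≠ 0 ∧ ty M = ty L ∧ M.length + 1 = L.length := by
  rw [A4C5_dlL_apply] at h
  by_contra hne
  apply h
  refine Finset.sum_eq_zero fun L hL => ?_
  have hc : c L ≠ 0 := Finsupp.mem_support_iff.1 hL
  by_cases hd : dlc L M = 0
  · show c L * dlc L M = 0
    rw [hd, mul_zero]
  · exact absurd ⟨L, hc, (dl_terms hd).1, (dl_terms hd).2⟩ hne

private theorem A4C5_filter {J : Type} [DecidableEq J] (e : Multiset J) (c : LC J)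
    (hd : dlL c = 0) : dlL (c.filter fun L => ty L = e) = 0 := by
  ext M
  rw [A4C5_dlL_apply, Finsupp.coe_zero, Pi.zero_apply]
  by_cases hM : ty M = e
  · have h1 := congrArg (fun x : LC J => x M) hd
    simp only [Finsupp.coe_zero, Pi.zero_apply] at h1
    rw [A4C5_dlL_apply] at h1
    rw [← h1]
    rw [Finsupp.sum, Finsupp.sum, Finsupp.support_filter, Finset.sum_filter]
    refine Finset.sum_congr rfl fun L _ => ?_
    by_cases hL : ty L = e
    · rw [if_pos hL, Finsupp.filter_apply_pos (fun L => ty L = e) _ hL]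
    · rw [if_neg hL]
      by_cases hdl : dlc L M = 0
      · rw [hdl, mul_zero]
      · exact absurd ((dl_terms hdl).1.symm.trans hM) hL
  · refine Finset.sum_eq_zero fun L hL => ?_
    have hL' : ty L = e := by
      rw [Finsupp.support_filter, Finset.mem_filter] at hL
      exact hL.2
    by_cases hdl : dlc L M = 0
    · show _ * dlc L M = 0
      rw [hdl, mul_zero]
    · exact absurd ((dl_terms hdl).1.trans hL') hM

private theorem A4C5_decomp {J : Type} [DecidableEq J] (c : LC J) :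
    c = ∑ e ∈ c.support.image ty, c.filter fun L => ty L = e := by
  ext M
  rw [Finsupp.finsetSum_apply]
  by_cases hM : c M = 0
  · rw [hM]
    symm
    refine Finset.sum_eq_zero fun e _ => ?_
    by_cases h : ty M = e
    · rw [Finsupp.filter_apply_pos (fun L => ty L = e) _ h, hM]
    · rw [Finsupp.filter_apply_neg (fun L => ty L = e) _ h]
  · rw [Finset.sum_eq_single (ty M)]
    · rw [Finsupp.filter_apply_pos (fun L => ty L = ty M) _ rfl]
    · intro e _ he
      exact Finsupp.filter_apply_neg (fun L => ty L = e) _ (fun h => he h.symm)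
    · intro h
      exact absurd (Finset.mem_image_of_mem ty (Finsupp.mem_support_iff.2 hM)) h

theorem E2_bound {J : Type} [DecidableEq J] (w : J → ℕ) (hw : ∀ d, {j | w j ≤ d}.Finite) (p : ℕ)
    (H : ℕ → Type) [∀ k, AddCommGroup (H k)] [∀ k, Module (ZMod 2) (H k)]
    (δ : ∀ k, H (k + 1) →ₗ[ZMod 2] H k) (Y : ∀ k, List (NE J) → H k)
    (hli : ∀ (k : ℕ) (c : LC J), (∀ L, c L ≠ 0 → L.length = k ∧ lwt w L = p) →
      (c.sum fun L r => r • Y k L) = 0 → c = 0)
    (hspan : ∀ (k : ℕ) (x : H k), ∃ c : LC J, (∀ L, c L ≠ 0 → L.length = k ∧ lwt w L = p) ∧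
      (c.sum fun L r => r • Y k L) = x)
    (hδ : ∀ (k : ℕ) (L : List (NE J)), L.length = k + 1 → lwt w L = p →
      δ k (Y (k + 1) L) = (dlc L).sum fun M r => r • Y k M) (k : ℕ) :
    ∃ T : Finset (H (k + 1)),
      T.card ≤ {e : Multiset J | Multiset.card e = k + 1 ∧ (e.map w).sum = p}.ncard ∧
      ∀ x, δ k x = 0 → x ∈ LinearMap.range (δ (k + 1)) ⊔ Submodule.span (ZMod 2) (T : Set (H (k + 1))) := by
  classical
  have hfin := multiset_fin w hw (k + 1) p
  have key : ∀ (k : ℕ) (c : LC J), (∀ L, c L ≠ 0 → L.length = k + 1 ∧ lwt w L = p) →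
      δ k (Finsupp.linearCombination (ZMod 2) (Y (k + 1)) c) =
        Finsupp.linearCombination (ZMod 2) (Y k) (dlL c) := by
    intro k c hc
    have e1 : dlL c = ∑ L ∈ c.support, c L • dlc L := by
      unfold dlL
      rw [Finsupp.linearCombination_apply]
      rfl
    rw [e1, map_sum, Finsupp.linearCombination_apply, Finsupp.sum, map_sum]
    refine Finset.sum_congr rfl fun L hL => ?_
    have hcL := hc L (Finsupp.mem_support_iff.1 hL)
    rw [map_smul, map_smul, hδ k L hcL.1 hcL.2, Finsupp.linearCombination_apply]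
  refine ⟨hfin.toFinset.image fun e => Finsupp.linearCombination (ZMod 2) (Y (k + 1)) (zet e),
    ?_, ?_⟩
  · refine Finset.card_image_le.trans (le_of_eq ?_)
    rw [Set.ncard_eq_toFinset_card _ hfin]
  · intro x hx
    obtain ⟨c, hc, rfl⟩ := hspan (k + 1) x
    have hx' : Finsupp.linearCombination (ZMod 2) (Y k) (dlL c) = 0 := by
      rw [← key k c hc]
      exact hx
    have hdc : dlL c = 0 := by
      refine hli k (dlL c) ?_ hx'
      intro M hM
      obtain ⟨L, hL, h1, h2⟩ := A4C5_term hM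
      obtain ⟨h3, h4⟩ := hc L hL
      refine ⟨by omega, ?_⟩
      unfold lwt at h4 ⊢
      rw [h1]
      exact h4
    have hx2 : (c.sum fun L r => r • Y (k + 1) L) =
        ∑ e ∈ c.support.image ty, Finsupp.linearCombination (ZMod 2) (Y (k + 1))
          (c.filter fun L => ty L = e) := by
      rw [← map_sum, ← A4C5_decomp]
      rfl
    rw [hx2]
    refine Submodule.sum_mem _ fun e he => ?_
    obtain ⟨L0, hL0, hL0e⟩ := Finset.mem_image.1 he
    have hcL0 := hc L0 (Finsupp.mem_support_iff.1 hL0)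
    have hwe : (e.map w).sum = p := by
      rw [← hL0e]
      exact hcL0.2
    have hce : k + 1 ≤ Multiset.card e := by
      have h := length_le_ty L0
      rw [hL0e, hcL0.1] at h
      exact h
    have hIn : InC e (k + 1) (c.filter fun L => ty L = e) := by
      intro L hL
      by_cases h : ty L = e
      · rw [Finsupp.filter_apply_pos (fun L => ty L = e) _ h] at hL
        exact ⟨h, (hc L hL).1⟩
      · exact absurd (Finsupp.filter_apply_neg (fun L => ty L = e) _ h) hL
    have hde := A4C5_filter e c hdc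
    rcases Nat.lt_or_ge (k + 1) (Multiset.card e) with hlt | hge
    · obtain ⟨b, hb, hbd⟩ := bar_exact e (k + 1) hlt _ hIn hde
      refine Submodule.mem_sup_left ?_
      rw [← hbd, ← key (k + 1) b ?_]
      · exact LinearMap.mem_range_self _ _
      · intro L hL
        obtain ⟨h1, h2⟩ := hb L hL
        refine ⟨h2, ?_⟩
        unfold lwt
        rw [h1]
        exact hwe
    · have hcard : Multiset.card e = k + 1 := le_antisymm hge hce
      obtain ⟨r, hr⟩ := bar_span e (c.filter fun L => ty L = e) (by rw [hcard]; exact hIn) hde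
      refine Submodule.mem_sup_right ?_
      rw [hr, map_smul]
      refine Submodule.smul_mem _ _ (Submodule.subset_span ?_)
      refine Finset.mem_coe.2 (Finset.mem_image.2 ⟨e, ?_, rfl⟩)
      rw [Set.Finite.mem_toFinset]
      exact ⟨hcard, hwe⟩

private theorem A4C5_R_sum {A E ι : Type} [AddCommGroup A] [Module (ZMod 2) A] [AddCommGroup E]
    [Module (ZMod 2) E] (R : A → E → Prop) (h00 : R 0 0)
    (hadd : ∀ a e a' e', R a e → R a' e' → R (a + a') (e + e')) (s : Finset ι) (l : ι → ZMod 2)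
    (z : ι → A) (e : ι → E) (h : ∀ j, R (z j) (e j)) :
    R (∑ j ∈ s, l j • z j) (∑ j ∈ s, l j • e j) := by
  classical
  induction s using Finset.induction_on with
  | empty => simpa using h00
  | insert a s ha ih =>
    rw [Finset.sum_insert ha, Finset.sum_insert ha]
    refine hadd _ _ _ _ ?_ ih
    have h2 : ∀ c : ZMod 2, c = 0 ∨ c = 1 := by decide
    rcases h2 (l a) with h' | h'
    · rw [h', zero_smul, zero_smul]
      exact h00
    · rw [h', one_smul, one_smul]
      exact h a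

theorem LA_rel {A E : Type} [AddCommGroup A] [Module (ZMod 2) A] [AddCommGroup E]
    [Module (ZMod 2) E] (Z Z₁ : Submodule (ZMod 2) A) (R : A → E → Prop)
    (h00 : R 0 0) (hadd : ∀ a e a' e', R a e → R a' e' → R (a + a') (e + e'))
    (T : Finset E) (h1 : ∀ z ∈ Z, ∃ e ∈ Submodule.span (ZMod 2) (T : Set E), R z e)
    (h0 : ∀ z ∈ Z, R z 0 → z ∈ Z₁) :
    ∃ T' : Finset A, T'.card ≤ T.card ∧ Z ≤ Z₁ ⊔ Submodule.span (ZMod 2) (T' : Set A) := by
  classical
  let S : Submodule (ZMod 2) E :=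
    { carrier := {e | e ∈ Submodule.span (ZMod 2) (T : Set E) ∧ ∃ z ∈ Z, R z e}
      add_mem' := by
        rintro e e' ⟨he, z, hz, hR⟩ ⟨he', z', hz', hR'⟩
        exact ⟨Submodule.add_mem _ he he', z + z', Z.add_mem hz hz', hadd _ _ _ _ hR hR'⟩
      zero_mem' := ⟨Submodule.zero_mem _, 0, Z.zero_mem, h00⟩
      smul_mem' := by
        rintro c e ⟨he, z, hz, hR⟩
        have h2 : ∀ c : ZMod 2, c = 0 ∨ c = 1 := by decide
        rcases h2 c with rfl | rfl
        · rw [zero_smul]
          exact ⟨Submodule.zero_mem _, 0, Z.zero_mem, h00⟩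
        · rw [one_smul]
          exact ⟨he, z, hz, hR⟩ }
  have hST : S ≤ Submodule.span (ZMod 2) (T : Set E) := fun e he => he.1
  have : Module.Finite (ZMod 2) (Submodule.span (ZMod 2) (T : Set E)) :=
    Module.Finite.span_finset _ T
  have : Module.Finite (ZMod 2) S := Submodule.finiteDimensional_of_le hST
  have hr : Module.finrank (ZMod 2) S ≤ T.card :=
    (Submodule.finrank_mono hST).trans (finrank_span_finset_le_card T)
  have b := Module.finBasis (ZMod 2) S
  have hz : ∀ j, ∃ z ∈ Z, R z ((b j : S) : E) := fun j => (b j).2.2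
  choose z hzZ hzR using hz
  refine ⟨Finset.univ.image z, ?_, ?_⟩
  · refine Finset.card_image_le.trans ?_
    rw [Finset.card_univ, Fintype.card_fin]
    exact hr
  · intro x hx
    obtain ⟨e, he, hRe⟩ := h1 x hx
    have heS : e ∈ S := ⟨he, x, hx, hRe⟩
    have hsum : ∑ j, b.repr ⟨e, heS⟩ j • ((b j : S) : E) = e := by
      have h := b.sum_repr ⟨e, heS⟩
      have h' := congrArg S.subtype h
      rw [map_sum] at h'
      simp only [map_smul, Submodule.subtype_apply] at h'
      exact h'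
    have hR := A4C5_R_sum R h00 hadd Finset.univ (fun j => b.repr ⟨e, heS⟩ j) z
      (fun j => ((b j : S) : E)) hzR
    rw [hsum] at hR
    have hzm : ∑ j, b.repr ⟨e, heS⟩ j • z j ∈ Z :=
      Submodule.sum_mem _ fun j _ => Submodule.smul_mem _ _ (hzZ j)
    have hzT : ∑ j, b.repr ⟨e, heS⟩ j • z j ∈
        Submodule.span (ZMod 2) ((Finset.univ.image z : Finset A) : Set A) :=
      Submodule.sum_mem _ fun j _ => Submodule.smul_mem _ _ (Submodule.subset_span
        (Finset.mem_coe.2 (Finset.mem_image_of_mem z (Finset.mem_univ j))))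
    have h2 := hadd _ _ _ _ hRe hR
    rw [A4C5_two e] at h2
    have h3 := h0 _ (Z.add_mem hx hzm) h2
    have h4 : x = (x + ∑ j, b.repr ⟨e, heS⟩ j • z j) + ∑ j, b.repr ⟨e, heS⟩ j • z j := by
      rw [add_assoc, A4C5_two, add_zero]
    rw [h4]
    exact Submodule.add_mem _ (Submodule.mem_sup_left h3) (Submodule.mem_sup_right hzT)

/-- iterating `LA_rel`: bound of the dimension -/
theorem LA_iter {A : Type} [AddCommGroup A] [Module (ZMod 2) A] (Z : ℕ → Submodule (ZMod 2) A)
    (h0 : Z 0 = ⊥) (N : ℕ → ℕ) (d : ℕ)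
    (h : ∀ k < d, ∃ T' : Finset A, T'.card ≤ N (k + 1) ∧
      Z (k + 1) ≤ Z k ⊔ Submodule.span (ZMod 2) (T' : Set A)) (htop : Z d = ⊤) :
    Module.Finite (ZMod 2) A ∧ Module.finrank (ZMod 2) A ≤ ∑ k ∈ Finset.Icc 1 d, N k := by
  classical
  have key : ∀ j ≤ d, ∃ T : Finset A, T.card ≤ ∑ k ∈ Finset.Icc 1 j, N k ∧
      Z j ≤ Submodule.span (ZMod 2) (T : Set A) := by
    intro j
    induction j with
    | zero =>
      intro _
      refine ⟨∅, by simp, ?_⟩
      rw [h0]
      exact bot_le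
    | succ j ih =>
      intro hj
      obtain ⟨T, hT, hZ⟩ := ih (by omega)
      obtain ⟨T', hT', hZ'⟩ := h j (by omega)
      refine ⟨T ∪ T', ?_, ?_⟩
      · have h1 := Finset.card_union_le T T'
        have h2 : ∑ k ∈ Finset.Icc 1 (j + 1), N k = ∑ k ∈ Finset.Icc 1 j, N k + N (j + 1) :=
          Finset.sum_Icc_succ_top (by omega) N
        omega
      · rw [Finset.coe_union, Submodule.span_union]
        exact hZ'.trans (sup_le_sup_right hZ _)
  obtain ⟨T, hT, hZ⟩ := key d le_rfl
  rw [htop] at hZ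
  have hspan : Submodule.span (ZMod 2) (T : Set A) = ⊤ := top_le_iff.1 hZ
  refine ⟨⟨⟨T, hspan⟩⟩, ?_⟩
  have h1 := finrank_span_finset_le_card (R := ZMod 2) T
  have h2 : Set.finrank (ZMod 2) (T : Set A) = Module.finrank (ZMod 2) A := by
    unfold Set.finrank
    rw [hspan, finrank_top]
  rw [h2] at h1
  exact h1.trans hT

end MM

end

/-! ### from `Lib_MP_33f7bb_d.C5` -/

section

/-!
# C5: tasks, countable lists of tasks, bonding maps
-/

open Set

namespace MM

/-- tasks of degree at least `3` -/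
structure Task (X : Type) [TopologicalSpace X] where
  j : ℕ
  k : ℕ
  hj : 3 ≤ j
  A : Set X
  φ : X × (Fin k → ℝ) → (Fin j → ℝ) × (Fin k → ℝ)
  isTask : IsTask j k A φ

/-- pull back -/
def Task.pull {X X' : Type} [TopologicalSpace X] [TopologicalSpace X'] (T : Task X)
    (p : C(X', X)) : Task X' where
  j := T.j
  k := T.k
  hj := T.hj
  A := p ⁻¹' T.A
  φ := fun x => T.φ (p x.1, x.2)
  isTask := ⟨T.isTask.closed.preimage p.continuous,
    T.isTask.cont.comp ((p.continuous.comp continuous_fst).prodMk continuous_snd),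
    fun _ t h => T.isTask.triv _ t h, fun _ hx t => T.isTask.ne _ hx t⟩

/-- the task is solved on `p : X' → X` -/
def Task.Solv {X X' : Type} [TopologicalSpace X] [TopologicalSpace X'] (T : Task X)
    (p : C(X', X)) : Prop := Solved p T.A T.φ

theorem Task.solv_pull {X X' X'' : Type} [TopologicalSpace X] [TopologicalSpace X']
    [TopologicalSpace X''] (T : Task X) (p : C(X', X)) (p' : C(X'', X')) :
    (T.pull p).Solv p' ↔ T.Solv (p.comp p') := Iff.rfl

private def C5_clamp {k : ℕ} (t : Fin k → ℝ) : Fin k → ℝ := fun i => max (-1) (min 1 (t i))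

private theorem C5_clamp_le {k : ℕ} (t : Fin k → ℝ) : ‖C5_clamp t‖ ≤ 1 := by
  rw [pi_norm_le_iff_of_nonneg zero_le_one]
  intro i
  rw [Real.norm_eq_abs, abs_le]
  exact ⟨le_max_left _ _, max_le (by norm_num) (min_le_left _ _)⟩

private theorem C5_clamp_eq {k : ℕ} {t : Fin k → ℝ} (h : ‖t‖ ≤ 1) : C5_clamp t = t := by
  funext i
  have h1 : |t i| ≤ 1 := (norm_le_pi_norm t i).trans h
  have h2 := abs_le.1 h1
  show max (-1) (min 1 (t i)) = t i
  rw [min_eq_right h2.2, max_eq_right h2.1]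

private theorem C5_clamp_norm {k : ℕ} {t : Fin k → ℝ} (h : 1 ≤ ‖t‖) : ‖C5_clamp t‖ = 1 := by
  refine le_antisymm (C5_clamp_le t) ?_
  by_contra hlt
  rw [not_le] at hlt
  have h2 : ‖t‖ < 1 := by
    rw [pi_norm_lt_iff zero_lt_one]
    intro i
    have h3 : ‖C5_clamp t i‖ < 1 := lt_of_le_of_lt (norm_le_pi_norm _ i) hlt
    have h4 : C5_clamp t i = max (-1) (min 1 (t i)) := rfl
    rw [h4, Real.norm_eq_abs, abs_lt] at h3
    rw [Real.norm_eq_abs, abs_lt]
    obtain ⟨h5, h6⟩ := h3
    constructor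
    · by_contra h7
      rw [not_lt] at h7
      rw [max_eq_left ((min_le_right 1 (t i)).trans h7)] at h5
      exact lt_irrefl _ h5
    · by_contra h7
      rw [not_lt] at h7
      rw [min_eq_left h7] at h6
      exact absurd h6 (not_lt.2 (le_max_right _ _))
  linarith

private abbrev C5_Q (k : ℕ) := Metric.closedBall (0 : Fin k → ℝ) 1

private theorem C5_Q_compact (k : ℕ) : CompactSpace (C5_Q k) :=
  isCompact_iff_compactSpace.1 (isCompact_closedBall _ _)

attribute [local instance] C5_Q_compact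

private def C5_pr {k : ℕ} (t : Fin k → ℝ) : C5_Q k := ⟨C5_clamp t, by
  rw [mem_closedBall_zero_iff]
  exact C5_clamp_le t⟩

private theorem C5_pr_cont {k : ℕ} : Continuous (C5_pr (k := k)) := by
  refine Continuous.subtype_mk (continuous_pi fun i => ?_) _
  exact continuous_const.max (continuous_const.min (continuous_apply i))

private abbrev C5_T (X : Type) [MetricSpace X] [CompactSpace X] (j k : ℕ) :=
  {ψ : C(X × C5_Q k, (Fin j → ℝ) × (Fin k → ℝ)) //
    ∀ x (t : C5_Q k), ‖(t : Fin k → ℝ)‖ = 1 → ψ (x, t) = 0}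

private theorem C5_T_ne (X : Type) [MetricSpace X] [CompactSpace X] (j k : ℕ) :
    Nonempty (C5_T X j k) := ⟨⟨0, fun _ _ _ => rfl⟩⟩

attribute [local instance] C5_T_ne

private noncomputable def C5_seq (X : Type) [MetricSpace X] [CompactSpace X] (j k : ℕ) :
    ℕ → C5_T X j k := TopologicalSpace.denseSeq _

private noncomputable def C5_phi {X : Type} [MetricSpace X] [CompactSpace X] {j k : ℕ}
    (ψ : C5_T X j k) (p : X × (Fin k → ℝ)) : (Fin j → ℝ) × (Fin k → ℝ) :=
  (e0 j, p.2) + ψ.1 (p.1, C5_pr p.2)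

private theorem C5_phi_cont {X : Type} [MetricSpace X] [CompactSpace X] {j k : ℕ}
    (ψ : C5_T X j k) : Continuous (C5_phi ψ) :=
  (continuous_const.prodMk continuous_snd).add
    (ψ.1.continuous.comp (continuous_fst.prodMk (C5_pr_cont.comp continuous_snd)))

private theorem C5_phi_triv {X : Type} [MetricSpace X] [CompactSpace X] {j k : ℕ}
    (ψ : C5_T X j k) (x : X) (t : Fin k → ℝ) (h : 1 ≤ ‖t‖) : C5_phi ψ (x, t) = (e0 j, t) := by
  show (e0 j, t) + ψ.1 (x, C5_pr t) = _
  rw [ψ.2 x (C5_pr t) (C5_clamp_norm h), add_zero]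

private noncomputable def C5_task {X : Type} [MetricSpace X] [CompactSpace X]
    (x : ℕ × ℕ × ℕ × ℕ) : Task X where
  j := x.1 + 3
  k := x.2.1
  hj := Nat.le_add_left _ _
  A := {y | ∀ t, 1 / ((x.2.2.2 : ℝ) + 1) ≤ ‖C5_phi (C5_seq X (x.1 + 3) x.2.1 x.2.2.1) (y, t)‖}
  φ := C5_phi (C5_seq X (x.1 + 3) x.2.1 x.2.2.1)
  isTask :=
    { closed := by
        rw [Set.ofPred_forall]
        exact isClosed_iInter fun t => isClosed_le continuous_const
          ((C5_phi_cont _).comp (continuous_id.prodMk continuous_const)).norm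
      cont := C5_phi_cont _
      triv := C5_phi_triv _
      ne := fun y hy t h0 => by
        have h1 := hy t
        rw [h0, norm_zero] at h1
        have h2 : (0 : ℝ) < 1 / ((x.2.2.2 : ℝ) + 1) := Nat.one_div_pos_of_nat
        linarith }

/-- A countable list of tasks which is dense in all tasks.

PROOF.  Fix `j ≥ 3`, `k`.  Let `Q = closedBall (0 : Fin k → ℝ) 1` and
`T = {ψ : C(X × Q, (Fin j → ℝ) × (Fin k → ℝ)) // ∀ x t, ‖t‖ = 1 → ψ (x, t) = 0}`; it is second
countable (`ContinuousMap` on a compact metrizable space with second countable target), so there is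
a dense sequence `ψ_a` (`T` is not empty).  `φ_a (x, t) = (e0, t) + ψ_a (x, t)` for `‖t‖ ≤ 1`, `(e0, t)` for
`‖t‖ ≥ 1` (continuous).  `A_(a,b) = {x | ∀ t, 1 / (b + 1) ≤ ‖φ_a (x, t)‖}` is closed, and `φ_a` has no zeros
on it.  Let `τ` enumerate the tasks `(j, k, A_(a,b), φ_a)` (countably many indices
`(j, k, a, b) : ℕ × ℕ × ℕ × ℕ`, `Encodable`/`exists_surjective_nat`).  For given `φ, r` choose `ψ_a` with
`‖ψ_a - (φ - (e0, t))‖ < r` and `1 / (b + 1) ≤ r`. -/
theorem exists_list (X : Type) [MetricSpace X] [CompactSpace X] :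
    ∃ τ : ℕ → Task X, ∀ (j k : ℕ) (hj : 3 ≤ j)
      (φ : X × (Fin k → ℝ) → (Fin j → ℝ) × (Fin k → ℝ)), IsTask j k ∅ φ → ∀ r : ℝ, 0 < r →
      ∃ (m : ℕ) (A' : Set X) (φ' : X × (Fin k → ℝ) → (Fin j → ℝ) × (Fin k → ℝ))
        (h' : IsTask j k A' φ'), τ m = ⟨j, k, hj, A', φ', h'⟩ ∧
        (∀ x t, ‖φ' (x, t) - φ (x, t)‖ < r) ∧ ∀ x, (∀ t, r ≤ ‖φ' (x, t)‖) → x ∈ A' := by
  obtain ⟨e, he⟩ := exists_surjective_nat (ℕ × ℕ × ℕ × ℕ)
  refine ⟨fun m => C5_task (e m), ?_⟩
  intro j k hj φ hφ r hr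
  obtain ⟨j, rfl⟩ : ∃ j', j = j' + 3 := ⟨j - 3, by omega⟩
  let ψ : C5_T X (j + 3) k := ⟨⟨fun p => φ (p.1, (p.2 : Fin k → ℝ)) - (e0 (j + 3), (p.2 : Fin k → ℝ)),
    (hφ.cont.comp (continuous_fst.prodMk (continuous_subtype_val.comp continuous_snd))).sub
      (continuous_const.prodMk (continuous_subtype_val.comp continuous_snd))⟩, fun x t ht => by
      show φ (x, (t : Fin k → ℝ)) - (e0 (j + 3), (t : Fin k → ℝ)) = 0
      rw [hφ.triv x t ht.ge, sub_self]⟩
  have hψ : ∀ x t, C5_phi ψ (x, t) = φ (x, t) := by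
    intro x t
    rcases le_total ‖t‖ 1 with h | h
    · show (e0 (j + 3), t) + (φ (x, C5_clamp t) - (e0 (j + 3), C5_clamp t)) = _
      rw [C5_clamp_eq h, add_sub_cancel]
    · rw [C5_phi_triv ψ x t h, hφ.triv x t h]
  obtain ⟨a, ha⟩ := (TopologicalSpace.denseRange_denseSeq (C5_T X (j + 3) k)).exists_dist_lt ψ hr
  obtain ⟨b, hb⟩ := exists_nat_one_div_lt hr
  obtain ⟨m, hm⟩ := he (j, k, a, b)
  refine ⟨m, (C5_task (X := X) (j, k, a, b)).A, C5_phi (C5_seq X (j + 3) k a),
    (C5_task (X := X) (j, k, a, b)).isTask, ?_, ?_, ?_⟩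
  · show C5_task (e m) = _
    rw [hm]
    rfl
  · intro x t
    rw [← hψ x t]
    show ‖((e0 (j + 3), t) + (C5_seq X (j + 3) k a).1 (x, C5_pr t)) -
      ((e0 (j + 3), t) + ψ.1 (x, C5_pr t))‖ < r
    rw [add_sub_add_left_eq_sub, ← dist_eq_norm, dist_comm]
    exact lt_of_le_of_lt (ContinuousMap.dist_apply_le_dist (f := ψ.1)
      (g := (C5_seq X (j + 3) k a).1) (x, C5_pr t)) ha
  · intro x hx t
    exact hb.le.trans (hx t)


/-- iterated bonding maps -/
def bond {X : ℕ → Type} [∀ n, TopologicalSpace (X n)] (p : ∀ n, C(X (n + 1), X n)) (i : ℕ) :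
    ∀ d, C(X (i + d), X i)
  | 0 => ContinuousMap.id _
  | d + 1 => (bond p i d).comp (p (i + d))

end MM

end

/-! ### from `Lib_MP_33f7bb_d.S7` -/

section

/-!
# S7: the sphere and the boundary of the simplex

`sphere_bd`: maps `f : S^N → ∂Δ_(N+1)` and `g : ∂Δ_(N+1) → S^N` with `f ∘ g = id`.

PROOF. Let `V = EuclideanSpace ℝ (Fin (N+2))`, `L = (ℝ ∙ (1,...,1))ᗮ ≤ V`, i.e. `v ∈ L ↔ ∑ v i = 0`; `finrank L = N+1`, so there is a
linear isometry `e : L ≃ₗᵢ[ℝ] EuclideanSpace ℝ (Fin (N+1))` (`(stdOrthonormalBasis ℝ L).reindex ...`, `.repr`).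
`b = 1/(N+2)` (barycentre has all coordinates `b`).
For `v ∈ L`, `v ≠ 0` put `M v = max_i (-v i) > 0` (`Finset.univ.sup'`; positive since `∑ v i = 0` and `v ≠ 0`), continuous, and
`F v = (fun i => b + (b / M v) * v i)`. Then `F v ∈ stdSimplex` (coordinates `≥ b - (b / M v) M v = 0`, sum `1`) and some coordinate is
`0` (an index where the max is attained). `f x = F (e.symm x)` for `x` in the unit sphere (`e.symm x ≠ 0`).
For `x ∈ ∂Δ`: `w x = (fun i => x i - b) ∈ L`, `w x ≠ 0` (some coordinate of `x` is `0`, so `w x i = -b ≠ 0`), `g x = e (w x / ‖w x‖)`.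
`M (w x) = b` (all `x i ≥ 0`, one equals `0`), `M (w x / ‖w x‖) = b / ‖w x‖`, so
`F (w x / ‖w x‖) i = b + ‖w x‖ * (x i - b) / ‖w x‖ = x i`.
-/

namespace MM

section S7

variable {N : ℕ}

/-- the vector with coordinate sum zero -/
private noncomputable def S7v (x : EuclideanSpace ℝ (Fin (N + 1))) : Fin (N + 2) → ℝ :=
  Fin.cons (-∑ i, x i) fun i => x i

private theorem S7v_sum (x : EuclideanSpace ℝ (Fin (N + 1))) : ∑ i, S7v x i = 0 := by
  rw [Fin.sum_univ_succ]
  show -∑ i, x i + ∑ i, x i = 0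
  exact neg_add_cancel _

private theorem S7v_cont (i : Fin (N + 2)) :
    Continuous fun x : EuclideanSpace ℝ (Fin (N + 1)) => S7v x i := by
  refine Fin.cases ?_ (fun j => ?_) i
  · show Continuous fun x : EuclideanSpace ℝ (Fin (N + 1)) => -∑ i, x i
    fun_prop
  · show Continuous fun x : EuclideanSpace ℝ (Fin (N + 1)) => x j
    fun_prop

/-- the maximum of the negatives of the coordinates -/
private noncomputable def S7M (x : EuclideanSpace ℝ (Fin (N + 1))) : ℝ :=
  Finset.univ.sup' Finset.univ_nonempty fun i => -S7v x i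

private theorem S7M_cont : Continuous fun x : EuclideanSpace ℝ (Fin (N + 1)) => S7M x :=
  Continuous.finset_sup'_apply Finset.univ_nonempty fun i _ => (S7v_cont i).neg

private theorem S7M_le (x : EuclideanSpace ℝ (Fin (N + 1))) (i : Fin (N + 2)) :
    -S7v x i ≤ S7M x := Finset.le_sup' (fun i => -S7v x i) (Finset.mem_univ i)

private theorem S7M_eq (x : EuclideanSpace ℝ (Fin (N + 1))) : ∃ i, S7M x = -S7v x i := by
  obtain ⟨i, -, h⟩ := Finset.exists_mem_eq_sup' Finset.univ_nonempty fun i => -S7v x i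
  exact ⟨i, h⟩

private theorem S7M_pos {x : EuclideanSpace ℝ (Fin (N + 1))} (hx : x ≠ 0) : 0 < S7M x := by
  by_contra h
  apply hx
  have h0 : ∀ i ∈ Finset.univ, 0 ≤ S7v x i := fun i _ => by
    have := S7M_le x i
    linarith
  have h1 := (Finset.sum_eq_zero_iff_of_nonneg h0).1 (S7v_sum x)
  ext j
  exact h1 j.succ (Finset.mem_univ _)

/-- the barycentric coordinate -/
private noncomputable def S7b (N : ℕ) : ℝ := ((N : ℝ) + 2)⁻¹

private theorem S7b_pos : 0 < S7b N := by
  unfold S7b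
  positivity

private theorem S7b_mul : ((N : ℝ) + 2) * S7b N = 1 := by
  unfold S7b
  exact mul_inv_cancel₀ (by positivity)

/-- the radial map -/
private noncomputable def S7F (x : EuclideanSpace ℝ (Fin (N + 1))) (i : Fin (N + 2)) : ℝ :=
  S7b N + S7b N / S7M x * S7v x i

private theorem S7F_mem {x : EuclideanSpace ℝ (Fin (N + 1))} (hx : x ≠ 0) :
    S7F x ∈ stdSimplex ℝ (Fin (N + 2)) := by
  have hM := S7M_pos hx
  have hb := S7b_pos (N := N)
  constructor
  · intro i
    have h1 := S7M_le x i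
    have h2 : 0 < S7b N / S7M x := div_pos hb hM
    have h3 : S7b N / S7M x * S7M x = S7b N := div_mul_cancel₀ _ hM.ne'
    have h4 : 0 ≤ S7b N / S7M x * (S7M x + S7v x i) := mul_nonneg h2.le (by linarith)
    show 0 ≤ S7b N + S7b N / S7M x * S7v x i
    rw [mul_add, h3] at h4
    exact h4
  · show ∑ i, (S7b N + S7b N / S7M x * S7v x i) = 1
    rw [Finset.sum_add_distrib, ← Finset.mul_sum, S7v_sum, mul_zero, add_zero, Finset.sum_const,
      Finset.card_univ, Fintype.card_fin, nsmul_eq_mul]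
    push_cast
    exact S7b_mul

private theorem S7F_zero {x : EuclideanSpace ℝ (Fin (N + 1))} (hx : x ≠ 0) : ∃ i, S7F x i = 0 := by
  have hM := S7M_pos hx
  obtain ⟨i, hi⟩ := S7M_eq x
  refine ⟨i, ?_⟩
  show S7b N + S7b N / S7M x * S7v x i = 0
  have h1 : S7v x i = -S7M x := by rw [hi, neg_neg]
  rw [h1, mul_neg, div_mul_cancel₀ _ hM.ne', add_neg_cancel]

private theorem S7_ne (x : Sph N) : x.1 ≠ 0 := by
  intro h
  have h1 := x.2
  rw [mem_sphere_zero_iff_norm, h, norm_zero] at h1
  exact zero_ne_one h1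

/-- the projection of the simplex -/
private noncomputable def S7B (x : Dtop (N + 1)) : EuclideanSpace ℝ (Fin (N + 1)) :=
  WithLp.toLp 2 fun i => x.1 i.succ - S7b N

private theorem S7B_cont : Continuous fun x : Dtop (N + 1) => S7B x := by
  refine (PiLp.continuous_toLp 2 _).comp (continuous_pi fun i => ?_)
  exact ((continuous_apply i.succ).comp continuous_subtype_val).sub continuous_const

private theorem S7v_B (c : ℝ) (x : Dtop (N + 1)) (i : Fin (N + 2)) :
    S7v (c • S7B x) i = c * (x.1 i - S7b N) := by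
  refine Fin.cases ?_ (fun j => ?_) i
  · have h1 : ∑ i, x.1 i = 1 := x.2.2
    rw [Fin.sum_univ_succ] at h1
    show -∑ i : Fin (N + 1), c * (x.1 i.succ - S7b N) = c * (x.1 0 - S7b N)
    rw [← Finset.mul_sum, Finset.sum_sub_distrib, Finset.sum_const, Finset.card_univ,
      Fintype.card_fin, nsmul_eq_mul]
    have h2 := S7b_mul (N := N)
    push_cast
    linear_combination c * h2 - c * h1
  · rfl

private theorem S7M_B {c : ℝ} (hc : 0 < c) {x : Dtop (N + 1)} (hx : x ∈ bdTop (N + 1)) :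
    S7M (c • S7B x) = c * S7b N := by
  apply le_antisymm
  · refine Finset.sup'_le _ _ fun i _ => ?_
    rw [S7v_B]
    have h1 : 0 ≤ x.1 i := x.2.1 i
    nlinarith [mul_nonneg hc.le h1]
  · obtain ⟨i, hi⟩ := hx
    have h1 := S7M_le (c • S7B x) i
    rw [S7v_B, hi] at h1
    linarith

private theorem S7F_B {c : ℝ} (hc : 0 < c) {x : Dtop (N + 1)} (hx : x ∈ bdTop (N + 1)) :
    S7F (c • S7B x) = x.1 := by
  funext i
  show S7b N + S7b N / S7M (c • S7B x) * S7v (c • S7B x) i = x.1 i
  rw [S7M_B hc hx, S7v_B]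
  have hb := S7b_pos (N := N)
  have h1 : S7b N / (c * S7b N) * (c * (x.1 i - S7b N)) = x.1 i - S7b N := by
    have hb' := hb.ne'
    have hc' := hc.ne'
    field_simp
  rw [h1]
  ring

private theorem S7B_ne {x : Dtop (N + 1)} (hx : x ∈ bdTop (N + 1)) : S7B x ≠ 0 := by
  intro h
  have h1 := S7M_B (N := N) one_pos hx
  have h2 := S7v_B 1 x
  rw [one_smul, h] at h1 h2
  obtain ⟨i, hi⟩ := hx
  have h3 := h2 i
  have h4 : S7v (0 : EuclideanSpace ℝ (Fin (N + 1))) i = 0 := by
    refine Fin.cases ?_ (fun j => ?_) i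
    · show -∑ i : Fin (N + 1), (0 : ℝ) = 0
      rw [Finset.sum_const_zero, neg_zero]
    · rfl
  rw [h4, hi] at h3
  have hb := S7b_pos (N := N)
  linarith

end S7

theorem sphere_bd (N : ℕ) : ∃ (f : C(Sph N, Dtop (N + 1))) (g : C(bdTop (N + 1), Sph N)),
    (∀ x, f x ∈ bdTop (N + 1)) ∧ ∀ x : bdTop (N + 1), f (g x) = x.1 := by
  refine ⟨⟨fun x => ⟨S7F x.1, S7F_mem (S7_ne x)⟩, ?_⟩,
    ⟨fun x => ⟨‖S7B x.1‖⁻¹ • S7B x.1, ?_⟩, ?_⟩, ?_, ?_⟩
  · refine Continuous.subtype_mk (continuous_pi fun i => ?_) _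
    refine continuous_const.add ((continuous_const.div (S7M_cont.comp continuous_subtype_val)
      fun x => (S7M_pos (S7_ne x)).ne').mul ((S7v_cont i).comp continuous_subtype_val))
  · rw [mem_sphere_zero_iff_norm, norm_smul, norm_inv, norm_norm]
    exact inv_mul_cancel₀ (norm_ne_zero_iff.2 (S7B_ne x.2))
  · have h1 : Continuous fun x : bdTop (N + 1) => S7B x.1 := S7B_cont.comp continuous_subtype_val
    exact ((h1.norm.inv₀ fun x => norm_ne_zero_iff.2 (S7B_ne x.2)).smul h1).subtype_mk _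
  · exact fun x => S7F_zero (S7_ne x)
  · intro x
    apply Subtype.ext
    exact S7F_B (inv_pos.2 (norm_pos_iff.2 (S7B_ne x.2))) x.2

end MM

end
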