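import Pool.Agent.Lib_MP_33f7bb_m.G05
import Pool.Agent.Lib_MP_33f7bb_m.G10
import Pool.Agent.Lib_MP_33f7bb_m.G11
import Pool.Agent.Lib_MP_33f7bb_m.G15

/-!
# MP_33f7bb_an, negative answer to Q1: merged library part G16

Concatenation of files of `Lib_MP_33f7bb_an` and `Lib_MP_33f7bb_d` (each in its own section), only to save build time.
-/

/-! ### from `Lib_MP_33f7bb_d.A702` -/

section

/-!
# A7-02: homotopy classes of Moore elements of `Map_*(Z, V)` are determined by linear homology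

`psi_null`: `f ∈ Map_*(Z,V)_t` Moore.  The linear simplicial map `Φ = mu ∘ psiHom f : K'(t) ⊗ R Z → V`,
`[θ] ⊗ [x] ↦ f (θ, x)`, is zero in homology, so (`lhtp_iff`) linearly homotopic to zero by `H`.  Then
`H' a u = ((θ, x) ↦ H (a ∘ θ) (θ^* u ⊗ [x]))` is a linear homotopy `K'(t) → Map_*(Z, V)` with
`H' 0 iota = f` and `H' 1 iota = 0`; by the prism operator (`lprism`) `d (T iota) = f + T (d iota) = f`, because
`K'(t)` is zero below dimension `t`.
`psi_exists`: choose by `exists_hom` a linear simplicial map `F : K'(t) ⊗ R Z → V` inducing `φ`; put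
`f (θ, x) = F ([θ] ⊗ [x])`.
`moore_mapSV`: description of Moore elements.
-/

open scoped TensorProduct

namespace MM

theorem moore_mapSV {Z : SS} {z₀ : Z.S 0} {V : SV} {t : ℕ} (f : (MapSV Z z₀ V).V t) :
    (MapSV Z z₀ V).Moore f ↔ ∀ (n : ℕ) (θ : Mo n t), ¬ Function.Surjective θ → ∀ x : Z.S n,
      MapSV.val f n (θ, x) = 0 := by
  constructor
  · intro h n θ hθ x
    exact MapSV.val_moore h n θ hθ x
  · intro h m g hg
    apply Subtype.ext
    funext n x
    show MapSV.val f n (g.comp x.1, x.2) = 0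
    refine h n _ (fun hs => hg fun y => ?_) _
    obtain ⟨z, hz⟩ := hs y
    exact ⟨x.1 z, hz⟩

/-- the class of `θ` in `K'(t)` is `θ^* iota` -/
private theorem A702_iota {t n : ℕ} (θ : Mo n t) :
    (KK t).act θ (KK.iota t) = (linSub (bd t)).proj.app n (Finsupp.single θ 1) := by
  unfold KK.iota
  rw [← (linSub (bd t)).proj.nat]
  congr 1
  exact Finsupp.mapDomain_single

/-- auxiliary: values of the homotopy into the mapping space -/
private noncomputable def A702_val {Z : SS} {z₀ : Z.S 0} {V : SV} {t : ℕ}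
    (H : LHpy ((KK t).tens (R Z z₀)) V) (n : ℕ) (a : Mo n 1) (u : (KK t).V n) :
    (MapSV Z z₀ V).V n :=
  ⟨fun m x => H.app m (a.comp x.1) (((KK t).act x.1 u) ⊗ₜ[ZMod 2] ((R.of z₀).app m x.2 : (R Z z₀).V m)),
    by
      intro k m g θ x
      have h1 := H.nat g (a.comp θ) (((KK t).act θ u) ⊗ₜ[ZMod 2] ((R.of z₀).app m x : (R Z z₀).V m))
      have h2 : ((KK t).tens (R Z z₀)).act g
          (((KK t).act θ u) ⊗ₜ[ZMod 2] ((R.of z₀).app m x : (R Z z₀).V m)) =
          ((KK t).act (θ.comp g) u) ⊗ₜ[ZMod 2] ((R.of z₀).app k (Z.act g x) : (R Z z₀).V k) := by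
        show TensorProduct.map _ _ (_ ⊗ₜ _) = _
        rw [TensorProduct.map_tmul, SV.act_comp, (R.of z₀).nat g x]
      rw [h2] at h1
      exact h1, by
      intro m θ
      show H.app m (a.comp θ) (((KK t).act θ u) ⊗ₜ[ZMod 2] ((R.of z₀).app m (Z.deg z₀ m) : (R Z z₀).V m)) = 0
      have := R.of_base z₀ m
      rw [this, TensorProduct.tmul_zero, map_zero]⟩

/-- the homotopy `K'(t) → Map_*(Z, V)` -/
private noncomputable def A702_H {Z : SS} {z₀ : Z.S 0} {V : SV} {t : ℕ}
    (H : LHpy ((KK t).tens (R Z z₀)) V) : LHpy (KK t) (MapSV Z z₀ V) where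
  app n a :=
    { toFun := fun u => A702_val H n a u
      map_add' := fun u v => by
        apply Subtype.ext
        funext m x
        show H.app m (a.comp x.1) (((KK t).act x.1 (u + v)) ⊗ₜ[ZMod 2] _) = _
        rw [map_add, TensorProduct.add_tmul, map_add]
        rfl
      map_smul' := fun c u => by
        apply Subtype.ext
        funext m x
        show H.app m (a.comp x.1) (((KK t).act x.1 (c • u)) ⊗ₜ[ZMod 2] _) = _
        rw [map_smul, ← TensorProduct.smul_tmul', map_smul]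
        rfl }
  nat {m n} g a u := by
    apply Subtype.ext
    funext k x
    show H.app k ((a.comp g).comp x.1) (((KK t).act x.1 ((KK t).act g u)) ⊗ₜ[ZMod 2] _) =
      H.app k (a.comp (g.comp x.1)) (((KK t).act (g.comp x.1) u) ⊗ₜ[ZMod 2] _)
    rw [SV.act_comp]
    rfl

theorem psi_null {Z : SS} {z₀ : Z.S 0} {V : SV} {t : ℕ} (f : (MapSV Z z₀ V).V t)
    (hf : (MapSV Z z₀ V).Moore f)
    (h : ∀ (n : ℕ) (x : ((KK t).tens (R Z z₀)).H n),
      SV.Hmap (muV V) n (SV.Hmap (psiHom f hf) n x) = 0) :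
    f ∈ (MapSV Z z₀ V).B t := by
  have h1 : LHtp ((muV V).comp (psiHom f hf)) (⟨fun _ => 0, fun _ _ => by simp⟩ :
      SVHom ((KK t).tens (R Z z₀)) V) := by
    rw [lhtp_iff]
    intro n z hz
    have h2 := h n (((KK t).tens (R Z z₀)).cls z hz)
    rw [SV.Hmap_cls, SV.Hmap_cls] at h2
    have h3 := (Submodule.Quotient.mk_eq_zero _).1 h2
    have h4 : (muV V).app n ((psiHom f hf).app n z) ∈ V.B n := h3
    show (muV V).app n ((psiHom f hf).app n z) + 0 ∈ V.B n
    rw [add_zero]
    exact h4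
  obtain ⟨H, H0, H1⟩ := h1
  obtain ⟨T, T0, T1⟩ := lprism (A702_H H)
  have e0 : (A702_H H).app t (cst 0) (KK.iota t) = f := by
    apply Subtype.ext
    funext m x
    show H.app m (cst 0) (((KK t).act x.1 (KK.iota t)) ⊗ₜ[ZMod 2] ((R.of z₀).app m x.2 : (R Z z₀).V m)) =
      MapSV.val f m x
    rw [H0, A702_iota]
    show (muV V).app m ((psiHom f hf).app m _) = _
    rw [psiHom_of, muV_of]
  have e1 : (A702_H H).app t (cst 1) (KK.iota t) = 0 := by
    apply Subtype.ext
    funext m x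
    show H.app m (cst 1) (((KK t).act x.1 (KK.iota t)) ⊗ₜ[ZMod 2] ((R.of z₀).app m x.2 : (R Z z₀).V m)) = 0
    rw [H1]
    rfl
  cases t with
  | zero =>
    refine ⟨T 0 (KK.iota 0), ?_⟩
    rw [T0, e0, e1, add_zero]
  | succ s =>
    refine ⟨T (s + 1) (KK.iota (s + 1)), ?_⟩
    rw [T1, e0, e1, add_zero, KK_V_eq_zero (s + 1) s (Nat.lt_succ_self s) ((KK (s + 1)).d s _),
      map_zero, add_zero]

/-- the element of the mapping space given by a linear map -/
private noncomputable def A702_f {Z : SS} {z₀ : Z.S 0} {V : SV} {t : ℕ}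
    (F : SVHom ((KK t).tens (R Z z₀)) V) : (MapSV Z z₀ V).V t :=
  ⟨fun m x => F.app m (((linSub (bd t)).proj.app m (Finsupp.single x.1 1) : (KK t).V m) ⊗ₜ[ZMod 2]
      ((R.of z₀).app m x.2 : (R Z z₀).V m)),
    by
      intro k m g θ x
      have h1 := F.nat g (((linSub (bd t)).proj.app m (Finsupp.single θ 1) : (KK t).V m) ⊗ₜ[ZMod 2]
        ((R.of z₀).app m x : (R Z z₀).V m))
      have h2 : ((KK t).tens (R Z z₀)).act g
          (((linSub (bd t)).proj.app m (Finsupp.single θ 1) : (KK t).V m) ⊗ₜ[ZMod 2]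
            ((R.of z₀).app m x : (R Z z₀).V m)) =
          ((linSub (bd t)).proj.app k (Finsupp.single (θ.comp g) 1) : (KK t).V k) ⊗ₜ[ZMod 2]
            ((R.of z₀).app k (Z.act g x) : (R Z z₀).V k) := by
        show TensorProduct.map _ _ (_ ⊗ₜ _) = _
        rw [TensorProduct.map_tmul, ← A702_iota, SV.act_comp, A702_iota, (R.of z₀).nat g x]
      rw [h2] at h1
      exact h1, by
      intro m θ
      show F.app m (_ ⊗ₜ[ZMod 2] ((R.of z₀).app m (Z.deg z₀ m) : (R Z z₀).V m)) = 0
      have := R.of_base z₀ m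
      rw [this, TensorProduct.tmul_zero, map_zero]⟩

private theorem A702_moore {Z : SS} {z₀ : Z.S 0} {V : SV} {t : ℕ}
    (F : SVHom ((KK t).tens (R Z z₀)) V) : (MapSV Z z₀ V).Moore (A702_f F) := by
  rw [moore_mapSV]
  intro n θ hθ x
  show F.app n (((linSub (bd t)).proj.app n (Finsupp.single θ 1) : (KK t).V n) ⊗ₜ[ZMod 2] _) = 0
  have h1 : (linSub (bd t)).proj.app n (Finsupp.single θ 1) = 0 :=
    (Submodule.Quotient.mk_eq_zero _).2 (SuppIn.single (A := bd t) (x := θ) hθ 1)
  rw [h1, TensorProduct.zero_tmul, map_zero]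

private theorem A702_mu {Z : SS} {z₀ : Z.S 0} {V : SV} {t : ℕ}
    (F : SVHom ((KK t).tens (R Z z₀)) V) (n : ℕ) (u : ((KK t).tens (R Z z₀)).V n) :
    (muV V).app n ((psiHom (A702_f F) (A702_moore F)).app n u) = F.app n u := by
  induction u using TensorProduct.induction_on with
  | zero => rw [map_zero, map_zero, map_zero]
  | add a b ha hb => rw [map_add, map_add, map_add, ha, hb]
  | tmul a b =>
    have ha : a ∈ Submodule.span (ZMod 2) (Set.range
        (fun θ : Mo n t => (linSub (bd t)).proj.app n (Finsupp.single θ 1))) := by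
      rw [MapSV.KK_span]; trivial
    induction ha using Submodule.span_induction with
    | zero => rw [TensorProduct.zero_tmul, map_zero, map_zero, map_zero]
    | add a a' _ _ ha ha' => rw [TensorProduct.add_tmul, map_add, map_add, map_add, ha, ha']
    | smul r a _ ha => rw [← TensorProduct.smul_tmul', map_smul, map_smul, map_smul, ha]
    | mem a ha =>
      obtain ⟨θ, rfl⟩ := ha
      have hb : b ∈ Submodule.span (ZMod 2) (Set.range ((R.of z₀).app n)) := by
        rw [R.span]; trivial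
      induction hb using Submodule.span_induction with
      | zero => rw [TensorProduct.tmul_zero, map_zero, map_zero, map_zero]
      | add a a' _ _ ha ha' => rw [TensorProduct.tmul_add, map_add, map_add, map_add, ha, ha']
      | smul r a _ ha => rw [TensorProduct.tmul_smul, map_smul, map_smul, map_smul, ha]
      | mem b hb =>
        obtain ⟨x, rfl⟩ := hb
        rw [psiHom_of, muV_of]
        rfl

theorem psi_exists {Z : SS} {z₀ : Z.S 0} {V : SV} {t : ℕ}
    (φ : ∀ n, ((KK t).tens (R Z z₀)).H n →ₗ[ZMod 2] V.H n) :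
    ∃ (f : (MapSV Z z₀ V).V t) (hf : (MapSV Z z₀ V).Moore f),
      ∀ (n : ℕ) (x : ((KK t).tens (R Z z₀)).H n),
        SV.Hmap (muV V) n (SV.Hmap (psiHom f hf) n x) = φ n x := by
  obtain ⟨F, hF⟩ := exists_hom φ
  refine ⟨A702_f F, A702_moore F, fun n x => ?_⟩
  obtain ⟨⟨z, hz⟩, rfl⟩ := Submodule.Quotient.mk_surjective _ x
  obtain ⟨h1, h2⟩ := hF n z hz
  have h3 : φ n (Submodule.Quotient.mk ⟨z, hz⟩) = V.cls (F.app n z) h1 := h2.symm
  rw [h3]
  show V.cls ((muV V).app n ((psiHom (A702_f F) (A702_moore F)).app n z)) _ = _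
  congr 1
  exact A702_mu F n z

end MM

end

/-! ### from `Lib_MP_33f7bb_d.A703` -/

section

/-!
# A7-03: `psiHom` depends only on the class of `f` in homology; naturality

`psi_congr`: `f, f'` Moore with `f + f' = d w`.  Choose (`moore_boundary`) `w` with `δ_0 w = f + f'` and other faces
`0`.  View `f`, `f'` as maps `Δ^t × Z → V` vanishing on `A = ∂Δ^t × Z ∪ Δ^t × pt`.  For every relative cycle `z` of
`(Δ^t × Z, A)` of degree `n` the element `(f + f')(z)` is a boundary of `V`: modulo `F[A]` and boundaries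
`z = [Δ^t] × y'` (`KK_tens_surj`), and `(f + f')([Δ^t] × y') = w (δ_0 × y') = w(dif([Δ^(t+1)] × y')) + w(Δ^(t+1) × dif y') =
d (w([Δ^(t+1)] × y'))` (other faces of `w` vanish, `w` vanishes on `Δ^(t+1) × pt`).  By `htp_rel` there is a homotopy
`H : Δ^1 × Δ^t × Z → V` from `f` to `f'`, equal to `0` on `Δ^1 × A`.  Compose with `R.of` and use the prism operator:
for a cycle `c` of `K'(t) ⊗ R Z`, lift it to a chain `c'` of `Δ^t × Z` with `dif c'` supported in `A`; then
`[f](c') + [f'](c') = d T(c') + T(dif c')` and `T (dif c')` is a sum of `[0] = 0`.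
`psi_comp`: both sides agree on generators.
-/

open scoped TensorProduct

namespace MM

/-! ### bilinear maps out of quotients of chains -/

/-- class of a simplex in a quotient of chains -/
noncomputable def A703_cl {P : SS} (A : Sub P) (n : ℕ) (x : P.S n) : (linSub A).quo.V n :=
  (linSub A).proj.app n (Finsupp.single x 1)

theorem A703_cl_zero {P : SS} (A : Sub P) (n : ℕ) {x : P.S n} (hx : x ∈ A.car n) :
    A703_cl A n x = 0 := by
  show (Submodule.Quotient.mk (Finsupp.single x 1) : (linSub A).quo.V n) = 0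
  rw [Submodule.Quotient.mk_eq_zero]
  exact SuppIn.single hx 1

theorem A703_act_cl {P : SS} (A : Sub P) {m n : ℕ} (g : Mo m n) (x : P.S n) :
    (linSub A).quo.act g (A703_cl A n x) = A703_cl A m (P.act g x) := by
  unfold A703_cl
  rw [← (linSub A).proj.nat]
  congr 1
  exact Finsupp.mapDomain_single

theorem A703_span {P : SS} (A : Sub P) (n : ℕ) : Submodule.span (ZMod 2)
    (Set.range (A703_cl A n)) = (⊤ : Submodule (ZMod 2) ((linSub A).quo.V n)) := by
  rw [eq_top_iff]
  rintro x -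
  obtain ⟨c, rfl⟩ := Submodule.Quotient.mk_surjective _ x
  induction c using Finsupp.induction_linear with
  | zero => exact Submodule.zero_mem _
  | add a b ha hb => exact Submodule.add_mem _ ha hb
  | single u r =>
    have : (Submodule.Quotient.mk (Finsupp.single u r) : (linSub A).quo.V n) =
        r • A703_cl A n u := by
      show _ = r • (Submodule.Quotient.mk (Finsupp.single u 1) : (linSub A).quo.V n)
      rw [← Submodule.Quotient.mk_smul, Finsupp.smul_single, smul_eq_mul, mul_one]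
    rw [this]
    exact Submodule.smul_mem _ _ (Submodule.subset_span ⟨u, rfl⟩)

theorem A703_tens_ext {P Q : SS} (A : Sub P) (C : Sub Q) (n : ℕ) {M : Type} [AddCommGroup M]
    [Module (ZMod 2) M]
    {f g : ((linSub A).quo.V n) ⊗[ZMod 2] ((linSub C).quo.V n) →ₗ[ZMod 2] M}
    (h : ∀ x y, f (A703_cl A n x ⊗ₜ[ZMod 2] A703_cl C n y) =
      g (A703_cl A n x ⊗ₜ[ZMod 2] A703_cl C n y)) : f = g := by
  apply TensorProduct.ext'
  intro a b
  have ha : a ∈ Submodule.span (ZMod 2) (Set.range (A703_cl A n)) := by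
    rw [A703_span]; trivial
  induction ha using Submodule.span_induction with
  | zero => rw [TensorProduct.zero_tmul, map_zero, map_zero]
  | add a a' _ _ ha ha' => rw [TensorProduct.add_tmul, map_add, map_add, ha, ha']
  | smul r a _ ha => rw [← TensorProduct.smul_tmul', map_smul, map_smul, ha]
  | mem a ha =>
    obtain ⟨x, rfl⟩ := ha
    have hb : b ∈ Submodule.span (ZMod 2) (Set.range (A703_cl C n)) := by
      rw [A703_span]; trivial
    induction hb using Submodule.span_induction with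
    | zero => rw [TensorProduct.tmul_zero, map_zero, map_zero]
    | add a a' _ _ ha ha' => rw [TensorProduct.tmul_add, map_add, map_add, ha, ha']
    | smul r a _ ha => rw [TensorProduct.tmul_smul, map_smul, map_smul, ha]
    | mem b hb =>
      obtain ⟨y, rfl⟩ := hb
      exact h x y

/-- linear extension to the quotient -/
noncomputable def A703_in {Q : SS} (C : Sub Q) (n : ℕ) {M : Type} [AddCommGroup M]
    [Module (ZMod 2) M] (φ : Q.S n → M) (h : ∀ y ∈ C.car n, φ y = 0) :
    (linSub C).quo.V n →ₗ[ZMod 2] M :=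
  Submodule.liftQ _ (Finsupp.linearCombination (ZMod 2) φ) (by
    intro c hc
    rw [LinearMap.mem_ker, Finsupp.linearCombination_apply]
    refine Finset.sum_eq_zero fun x hx => ?_
    show c x • φ x = 0
    rw [h x (hc hx), smul_zero])

theorem A703_in_cl {Q : SS} (C : Sub Q) (n : ℕ) {M : Type} [AddCommGroup M]
    [Module (ZMod 2) M] (φ : Q.S n → M) (h : ∀ y ∈ C.car n, φ y = 0) (y : Q.S n) :
    A703_in C n φ h (A703_cl C n y) = φ y := by
  show Finsupp.linearCombination (ZMod 2) φ (Finsupp.single y 1) = φ y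
  rw [Finsupp.linearCombination_single, one_smul]

theorem A703_in_zero {Q : SS} (C : Sub Q) (n : ℕ) {M : Type} [AddCommGroup M]
    [Module (ZMod 2) M] (φ : Q.S n → M) (h : ∀ y ∈ C.car n, φ y = 0) (h' : ∀ y, φ y = 0) :
    A703_in C n φ h = 0 := by
  apply LinearMap.ext
  intro b
  have hb : b ∈ Submodule.span (ZMod 2) (Set.range (A703_cl C n)) := by
    rw [A703_span]; trivial
  induction hb using Submodule.span_induction with
  | zero => rw [map_zero, map_zero]
  | add a a' _ _ ha ha' => rw [map_add, map_add, ha, ha']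
  | smul r a _ ha => rw [map_smul, map_smul, ha]
  | mem b hb =>
    obtain ⟨y, rfl⟩ := hb
    rw [A703_in_cl, h' y, LinearMap.zero_apply]

/-- bilinear extension -/
noncomputable def A703_bi {P Q : SS} (A : Sub P) (C : Sub Q) (n : ℕ) {M : Type} [AddCommGroup M]
    [Module (ZMod 2) M] (φ : P.S n → Q.S n → M) (hA : ∀ x ∈ A.car n, ∀ y, φ x y = 0)
    (hC : ∀ x, ∀ y ∈ C.car n, φ x y = 0) :
    ((linSub A).quo.V n) ⊗[ZMod 2] ((linSub C).quo.V n) →ₗ[ZMod 2] M :=
  TensorProduct.lift (A703_in A n (fun x => A703_in C n (φ x) (hC x))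
    (fun x hx => A703_in_zero C n (φ x) (hC x) (hA x hx)))

theorem A703_bi_cl {P Q : SS} (A : Sub P) (C : Sub Q) (n : ℕ) {M : Type} [AddCommGroup M]
    [Module (ZMod 2) M] (φ : P.S n → Q.S n → M) (hA : ∀ x ∈ A.car n, ∀ y, φ x y = 0)
    (hC : ∀ x, ∀ y ∈ C.car n, φ x y = 0) (x : P.S n) (y : Q.S n) :
    A703_bi A C n φ hA hC (A703_cl A n x ⊗ₜ[ZMod 2] A703_cl C n y) = φ x y := by
  unfold A703_bi
  rw [TensorProduct.lift.tmul, A703_in_cl, A703_in_cl]

theorem A703_bi_nat {P Q : SS} (A : Sub P) (C : Sub Q) {W : SV} {m n : ℕ} (g : Mo m n)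
    (φ : P.S n → Q.S n → W.V n) (hA : ∀ x ∈ A.car n, ∀ y, φ x y = 0)
    (hC : ∀ x, ∀ y ∈ C.car n, φ x y = 0)
    (φ' : P.S m → Q.S m → W.V m) (hA' : ∀ x ∈ A.car m, ∀ y, φ' x y = 0)
    (hC' : ∀ x, ∀ y ∈ C.car m, φ' x y = 0)
    (h : ∀ x y, φ' (P.act g x) (Q.act g y) = W.act g (φ x y))
    (u : ((linSub A).quo.tens (linSub C).quo).V n) :
    A703_bi A C m φ' hA' hC' (((linSub A).quo.tens (linSub C).quo).act g u) =
      W.act g (A703_bi A C n φ hA hC u) := by
  have key : (A703_bi A C m φ' hA' hC').comp (((linSub A).quo.tens (linSub C).quo).act g) =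
      (W.act g).comp (A703_bi A C n φ hA hC) := by
    apply A703_tens_ext
    intro x y
    rw [LinearMap.comp_apply, LinearMap.comp_apply, A703_bi_cl]
    show A703_bi A C m φ' hA' hC' (TensorProduct.map _ _ (_ ⊗ₜ[ZMod 2] _)) = _
    rw [TensorProduct.map_tmul, A703_act_cl, A703_act_cl, A703_bi_cl, h]
  exact LinearMap.congr_fun key u

/-- simplicial linear map out of a tensor product -/
noncomputable def A703_hom {P Q : SS} (A : Sub P) (C : Sub Q) {W : SV}
    (φ : ∀ n, P.S n → Q.S n → W.V n) (hA : ∀ n, ∀ x ∈ A.car n, ∀ y, φ n x y = 0)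
    (hC : ∀ n x, ∀ y ∈ C.car n, φ n x y = 0)
    (h : ∀ {m n : ℕ} (g : Mo m n) x y, φ m (P.act g x) (Q.act g y) = W.act g (φ n x y)) :
    SVHom ((linSub A).quo.tens (linSub C).quo) W :=
  ⟨fun n => A703_bi A C n (φ n) (hA n) (hC n), fun {m n} g u =>
    A703_bi_nat A C g (φ n) (hA n) (hC n) (φ m) (hA m) (hC m) (h g) u⟩

/-- the canonical simplicial map of the product to the tensor product -/
noncomputable def A703_qq {P Q : SS} (A : Sub P) (C : Sub Q) :
    Hom (P.prod Q) ((linSub A).quo.tens (linSub C).quo).ss :=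
  ⟨fun n x => A703_cl A n x.1 ⊗ₜ[ZMod 2] A703_cl C n x.2, fun {m n} g x => by
    show _ = TensorProduct.map _ _ (_ ⊗ₜ[ZMod 2] _)
    rw [TensorProduct.map_tmul, A703_act_cl, A703_act_cl]⟩

theorem A703_qq_zero {P Q : SS} (A : Sub P) (C : Sub Q) (n : ℕ) (x : (P.prod Q).S n)
    (hx : x.1 ∈ A.car n ∨ x.2 ∈ C.car n) :
    ((A703_qq A C).app n x : ((linSub A).quo.tens (linSub C).quo).V n) = 0 := by
  show A703_cl A n x.1 ⊗ₜ[ZMod 2] A703_cl C n x.2 = 0
  rcases hx with hx | hx
  · rw [A703_cl_zero A n hx, TensorProduct.zero_tmul]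
  · rw [A703_cl_zero C n hx, TensorProduct.tmul_zero]

/-! ### relative cycles -/

theorem A703_qq_Z {P Q : SS} (A : Sub P) (C : Sub Q) {n : ℕ} (z : Ch (P.prod Q) n)
    (hz : RelCyc (Sub.box A ⊤ C ⊤) z) :
    linExt (A703_qq A C).app n z ∈ ((linSub A).quo.tens (linSub C).quo).Z n := by
  cases n with
  | zero => exact Submodule.mem_top
  | succ n =>
    show ((linSub A).quo.tens (linSub C).quo).d n _ = 0
    rw [← linExt_dif (A := ⊤) (fun g x _ => (A703_qq A C).nat g x) (SuppIn.top z)]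
    have hz' : SuppIn (Sub.box A ⊤ C ⊤) (dif z) := hz
    rw [linExt_apply]
    refine Finset.sum_eq_zero fun x hx => ?_
    show dif z x • ((A703_qq A C).app n x : ((linSub A).quo.tens (linSub C).quo).V n) = 0
    rw [A703_qq_zero A C n x (hz' x hx).2, smul_zero]

theorem A703_hom_qq {P Q : SS} (A : Sub P) (C : Sub Q) {W : SV}
    (φ : ∀ n, P.S n → Q.S n → W.V n) (hA : ∀ n, ∀ x ∈ A.car n, ∀ y, φ n x y = 0)
    (hC : ∀ n x, ∀ y ∈ C.car n, φ n x y = 0)
    (h : ∀ {m n : ℕ} (g : Mo m n) x y, φ m (P.act g x) (Q.act g y) = W.act g (φ n x y))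
    (n : ℕ) (z : Ch (P.prod Q) n) :
    (A703_hom A C φ hA hC h).app n (linExt (A703_qq A C).app n z) =
      linExt (P := P.prod Q) (W := W) (fun n x => φ n x.1 x.2) n z := by
  induction z using Finsupp.induction_linear with
  | zero => rw [map_zero, map_zero, map_zero]
  | add a b ha hb => rw [map_add, map_add, map_add, ha, hb]
  | single x r =>
    rw [linExt_single, linExt_single, map_smul]
    congr 1
    exact A703_bi_cl A C n (φ n) (hA n) (hC n) x.1 x.2

/-! ### elements of the mapping space -/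

section

variable {Z : SS} {z₀ : Z.S 0} {V : SV}

/-- the linear map given by an element of the mapping space -/
noncomputable def A703_G {s : ℕ} (A : Sub (Del s)) (w : (MapSV Z z₀ V).V s)
    (hA : ∀ n, ∀ θ ∈ A.car n, ∀ x, MapSV.val w n (θ, x) = 0) :
    SVHom ((linSub A).quo.tens (R Z z₀)) V :=
  A703_hom A (Sub.pt z₀) (fun n θ x => MapSV.val w n (θ, x)) hA (fun n θ y hy => by
    have hy' : y = Z.deg z₀ n := hy
    rw [hy']
    exact MapSV.val_base w n θ) (fun g θ x => MapSV.val_nat w g θ x)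

theorem A703_G_cl {s : ℕ} (A : Sub (Del s)) (w : (MapSV Z z₀ V).V s)
    (hA : ∀ n, ∀ θ ∈ A.car n, ∀ x, MapSV.val w n (θ, x) = 0) (n : ℕ) (θ : Mo n s) (x : Z.S n) :
    (A703_G A w hA).app n (A703_cl A n θ ⊗ₜ[ZMod 2] A703_cl (Sub.pt z₀) n x) =
      MapSV.val w n (θ, x) :=
  A703_bi_cl A (Sub.pt z₀) n (fun θ x => MapSV.val w n (θ, x)) (hA n) (fun θ y hy => by
    have hy' : y = Z.deg z₀ n := hy
    rw [hy']
    exact MapSV.val_base w n θ) θ x

theorem A703_G_qq {s : ℕ} (A : Sub (Del s)) (w : (MapSV Z z₀ V).V s)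
    (hA : ∀ n, ∀ θ ∈ A.car n, ∀ x, MapSV.val w n (θ, x) = 0) (n : ℕ)
    (z : Ch ((Del s).prod Z) n) :
    (A703_G A w hA).app n (linExt (A703_qq A (Sub.pt z₀)).app n z) =
      linExt (P := (Del s).prod Z) (W := V) (fun n x => MapSV.val w n (x.1, x.2)) n z :=
  A703_hom_qq A (Sub.pt z₀) (fun n θ x => MapSV.val w n (θ, x)) hA (fun n θ y hy => by
    have hy' : y = Z.deg z₀ n := hy
    rw [hy']
    exact MapSV.val_base w n θ) (fun g θ x => MapSV.val_nat w g θ x) n z

/-- comparison of the values at `θ ⊗ y` -/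
theorem A703_G_congr {s s' : ℕ} (A : Sub (Del s)) (A' : Sub (Del s')) (w : (MapSV Z z₀ V).V s)
    (w' : (MapSV Z z₀ V).V s') (hA : ∀ n, ∀ θ ∈ A.car n, ∀ x, MapSV.val w n (θ, x) = 0)
    (hA' : ∀ n, ∀ θ ∈ A'.car n, ∀ x, MapSV.val w' n (θ, x) = 0) (n : ℕ) (θ : Mo n s)
    (θ' : Mo n s') (h : ∀ x, MapSV.val w n (θ, x) = MapSV.val w' n (θ', x))
    (y : (R Z z₀).V n) :
    (A703_G A w hA).app n (A703_cl A n θ ⊗ₜ[ZMod 2] y) =
      (A703_G A' w' hA').app n (A703_cl A' n θ' ⊗ₜ[ZMod 2] y) := by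
  have hb : y ∈ Submodule.span (ZMod 2) (Set.range (A703_cl (Sub.pt z₀) n)) := by
    rw [A703_span]; trivial
  induction hb using Submodule.span_induction with
  | zero => rw [TensorProduct.tmul_zero, TensorProduct.tmul_zero, map_zero, map_zero]
  | add a a' _ _ ha ha' =>
    rw [TensorProduct.tmul_add, TensorProduct.tmul_add, map_add, map_add, ha, ha']
  | smul r a _ ha =>
    rw [TensorProduct.tmul_smul, TensorProduct.tmul_smul, map_smul, map_smul, ha]
  | mem b hb =>
    obtain ⟨x, rfl⟩ := hb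
    rw [A703_G_cl, A703_G_cl, h x]

theorem A703_act {s t : ℕ} (h : Mo s t) (f : (MapSV Z z₀ V).V t) (n : ℕ) (θ : Mo n s)
    (x : Z.S n) : MapSV.val ((MapSV Z z₀ V).act h f) n (θ, x) = MapSV.val f n (h.comp θ, x) := rfl

theorem A703_G_crs {s s' m n : ℕ} (A : Sub (Del s)) (A' : Sub (Del s'))
    (w : (MapSV Z z₀ V).V s) (g : Mo s' s)
    (hA : ∀ n, ∀ θ ∈ A.car n, ∀ x, MapSV.val w n (θ, x) = 0)
    (hA' : ∀ n, ∀ θ ∈ A'.car n, ∀ x, MapSV.val ((MapSV Z z₀ V).act g w) n (θ, x) = 0)
    (y : (R Z z₀).V m) :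
    (A703_G A w hA).app n (crs n (A703_cl A s' g) y) =
      (A703_G A' ((MapSV Z z₀ V).act g w) hA').app n (crs n (A703_cl A' s' OrderHom.id) y) := by
  unfold crs
  rw [map_sum, map_sum]
  refine Finset.sum_congr rfl fun a _ => ?_
  rw [map_sum, map_sum]
  refine Finset.sum_congr rfl fun b _ => ?_
  split_ifs
  · rw [A703_act_cl, A703_act_cl]
    exact A703_G_congr A A' w _ hA hA' n _ _ (fun x => rfl) _
  · rw [map_zero, map_zero]

/-- the main computation: the value of `h = δ_0 w` on `[Δ^t] × y` is a boundary -/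
theorem A703_main {t m n : ℕ} (w : (MapSV Z z₀ V).V (t + 1))
    (hw : ∀ i : Fin (t + 1), (MapSV Z z₀ V).act (dlt i.succ) w = 0)
    (hM : (MapSV Z z₀ V).Moore ((MapSV Z z₀ V).act (dlt 0) w)) (y : (R Z z₀).V m)
    (hy : y ∈ (R Z z₀).Z m) :
    (A703_G (bd t) ((MapSV Z z₀ V).act (dlt 0) w)
      (fun n θ hθ x => MapSV.val_moore hM n θ hθ x)).app n (crs n (KK.iota t) y) ∈ V.B n := by
  have hbot : ∀ n, ∀ θ ∈ (⊥ : Sub (Del (t + 1))).car n, ∀ x, MapSV.val w n (θ, x) = 0 :=
    fun n θ hθ => absurd hθ (Sub.mem_bot θ)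
  have h0 := A703_G_crs (n := n) (⊥ : Sub (Del (t + 1))) (bd t) w (dlt 0) hbot
    (fun n θ hθ x => MapSV.val_moore hM n θ hθ x) y
  have hio : KK.iota t = A703_cl (bd t) t OrderHom.id := rfl
  rw [hio, ← h0]
  have hi : ∀ i : Fin (t + 1), (A703_G (⊥ : Sub (Del (t + 1))) w hbot).app n
      (crs n (A703_cl (⊥ : Sub (Del (t + 1))) t (dlt i.succ)) y) = 0 := by
    intro i
    have h1 := A703_G_crs (n := n) (⊥ : Sub (Del (t + 1))) (⊥ : Sub (Del t)) w (dlt i.succ) hbot
      (fun n θ hθ => absurd hθ (Sub.mem_bot θ)) y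
    rw [h1]
    have h2 : A703_G (⊥ : Sub (Del t)) ((MapSV Z z₀ V).act (dlt i.succ) w)
        (fun n θ hθ => absurd hθ (Sub.mem_bot θ)) =
        (⟨fun _ => 0, fun _ _ => by simp⟩ : SVHom ((linSub (⊥ : Sub (Del t))).quo.tens (R Z z₀)) V) := by
      apply SVHom.ext
      funext k
      apply A703_tens_ext
      intro θ x
      rw [A703_G_cl, hw i]
      rfl
    rw [h2]
    rfl
  have hd : (linSub (⊥ : Sub (Del (t + 1)))).quo.d t
      (A703_cl (⊥ : Sub (Del (t + 1))) (t + 1) OrderHom.id) =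
      ∑ i : Fin (t + 2), A703_cl (⊥ : Sub (Del (t + 1))) t (dlt i) := by
    rw [SV.d, LinearMap.sum_apply]
    refine Finset.sum_congr rfl fun i _ => ?_
    rw [A703_act_cl]
    rfl
  have hsum : crs n ((linSub (⊥ : Sub (Del (t + 1)))).quo.d t
      (A703_cl (⊥ : Sub (Del (t + 1))) (t + 1) OrderHom.id)) y =
      ∑ i : Fin (t + 2), crs n (A703_cl (⊥ : Sub (Del (t + 1))) t (dlt i)) y := by
    obtain ⟨f, hf⟩ := crs_bilin (linSub (⊥ : Sub (Del (t + 1)))).quo (R Z z₀) t m n
    rw [hd, ← hf, map_sum, LinearMap.sum_apply]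
    exact Finset.sum_congr rfl fun i _ => hf _ _
  have hB : ((linSub (⊥ : Sub (Del (t + 1)))).quo.tens (R Z z₀)).d n
      (crs (n + 1) (A703_cl (⊥ : Sub (Del (t + 1))) (t + 1) OrderHom.id) y) =
      crs n ((linSub (⊥ : Sub (Del (t + 1)))).quo.d t
      (A703_cl (⊥ : Sub (Del (t + 1))) (t + 1) OrderHom.id)) y := by
    cases m with
    | zero => exact d_crs_zero_right _ _
    | succ m =>
      have hy' : (R Z z₀).d m y = 0 := hy
      rw [d_crs, hy']
      obtain ⟨f, hf⟩ := crs_bilin (linSub (⊥ : Sub (Del (t + 1)))).quo (R Z z₀) (t + 1) m n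
      rw [← hf _ (0 : (R Z z₀).V m), map_zero, add_zero]
  have hval := (A703_G (⊥ : Sub (Del (t + 1))) w hbot).map_d
    (crs (n + 1) (A703_cl (⊥ : Sub (Del (t + 1))) (t + 1) OrderHom.id) y)
  rw [hB, hsum, map_sum, Fin.sum_univ_succ, Finset.sum_eq_zero (fun i _ => hi i), add_zero] at hval
  rw [hval]
  exact ⟨_, rfl⟩

/-- the value of a Moore boundary on a cycle is a boundary -/
theorem A703_cyc {t : ℕ} (h : (MapSV Z z₀ V).V t) (hM : (MapSV Z z₀ V).Moore h)
    (hB : h ∈ (MapSV Z z₀ V).B t) (n : ℕ) (c : ((KK t).tens (R Z z₀)).V n)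
    (hc : c ∈ ((KK t).tens (R Z z₀)).Z n) :
    (A703_G (bd t) h (fun n θ hθ x => MapSV.val_moore hM n θ hθ x)).app n c ∈ V.B n := by
  obtain ⟨w, hw⟩ := hB
  obtain ⟨w', hw0, hw'⟩ := moore_boundary (MapSV Z z₀ V) h hM w hw
  subst hw0
  by_cases hn : n < t
  · exact SVHom.map_B _ (KK_tens_low t (R Z z₀) n hn c hc)
  · obtain ⟨m, rfl⟩ : ∃ m, n = t + m := ⟨n - t, by omega⟩
    obtain ⟨y, hy, hyB⟩ := KK_tens_surj t (R Z z₀) m (t + m) rfl c hc
    have h1 := SVHom.map_B (A703_G (bd t) _ (fun n θ hθ x => MapSV.val_moore hM n θ hθ x)) hyB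
    have h2 := A703_main (n := t + m) w' hw' hM y hy
    rw [map_add] at h1
    have h3 := (V.B (t + m)).add_mem h1 h2
    rwa [add_assoc, two_eq_zero', add_zero] at h3

theorem A703_moore_add {t : ℕ} {f f' : (MapSV Z z₀ V).V t} (hf : (MapSV Z z₀ V).Moore f)
    (hf' : (MapSV Z z₀ V).Moore f') : (MapSV Z z₀ V).Moore (f + f') := by
  intro m g hg
  rw [map_add, hf m g hg, hf' m g hg, add_zero]

/-- simplicial map of the product given by an element of the mapping space -/
def A703_hom' {t : ℕ} (f : (MapSV Z z₀ V).V t) : Hom ((Del t).prod Z) V.ss :=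
  ⟨fun n x => MapSV.val f n x, fun g x => MapSV.val_nat f g x.1 x.2⟩

theorem A703_lin_add {t : ℕ} (f f' : (MapSV Z z₀ V).V t) (n : ℕ) (z : Ch ((Del t).prod Z) n) :
    linExt (P := (Del t).prod Z) (W := V) (fun n x => MapSV.val (f + f') n (x.1, x.2)) n z =
      linExt (A703_hom' f).app n z + linExt (A703_hom' f').app n z := by
  induction z using Finsupp.induction_linear with
  | zero => rw [map_zero, map_zero, map_zero, add_zero]
  | add a b ha hb =>
    rw [map_add, map_add, map_add, ha, hb]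
    exact add_add_add_comm _ _ _ _
  | single x r =>
    rw [linExt_single, linExt_single, linExt_single, ← smul_add]
    rfl

theorem A703_of_zero (n : ℕ) : (R.of V.zv).app n (0 : V.V n) = (0 : (RV V).V n) := by
  have := R.of_base V.zv n
  have h2 : V.ss.deg V.zv n = (0 : V.V n) := map_zero (V.act _)
  rw [h2] at this
  exact this

end

theorem psi_congr {Z : SS} {z₀ : Z.S 0} {V : SV} {t : ℕ} (f f' : (MapSV Z z₀ V).V t)
    (hf : (MapSV Z z₀ V).Moore f) (hf' : (MapSV Z z₀ V).Moore f')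
    (h : f + f' ∈ (MapSV Z z₀ V).B t) (n : ℕ) :
    SV.Hmap (psiHom f hf) n = SV.Hmap (psiHom f' hf') n := by
  have hM := A703_moore_add hf hf'
  -- the homotopy
  obtain ⟨H, H0, H1, HA⟩ := htp_rel V (Sub.box (bd t) ⊤ (Sub.pt z₀) ⊤) (A703_hom' f)
    (A703_hom' f') (by
      rintro k ⟨θ, x⟩ ⟨-, hx | hx⟩
      · exact (MapSV.val_moore hf k θ hx x).trans (MapSV.val_moore hf' k θ hx x).symm
      · have hx' : x = Z.deg z₀ k := hx
        subst hx'
        exact (MapSV.val_base f k θ).trans (MapSV.val_base f' k θ).symm) (by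
      intro k z hz
      have h1 := A703_cyc (f + f') hM h k _ (A703_qq_Z (bd t) (Sub.pt z₀) z hz)
      rw [← A703_lin_add]
      rw [A703_G_qq] at h1
      exact h1)
  have HB : ∀ k (a : Mo k 1) (θ : Mo k t) (x : Z.S k), (¬ Function.Surjective θ ∨ x = Z.deg z₀ k) →
      ((R.of V.zv).app k (H.app k (a, (θ, x))) : (RV V).V k) = 0 := by
    intro k a θ x hx
    rw [HA k a (θ, x) ⟨⟨trivial, trivial⟩, hx⟩]
    have h1 : (A703_hom' f).app k (θ, x) = (0 : V.V k) := by
      rcases hx with hx | hx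
      · exact MapSV.val_moore hf k θ hx x
      · rw [hx]
        exact MapSV.val_base f k θ
    rw [h1]
    exact A703_of_zero k
  -- the linear homotopy
  have key : LHtp (psiHom f hf) (psiHom f' hf') := by
    refine ⟨⟨fun k a => A703_bi (bd t) (Sub.pt z₀) k
      (fun θ x => ((R.of V.zv).app k (H.app k (a, (θ, x))) : (RV V).V k))
      (fun θ hθ x => HB k a θ x (Or.inl hθ)) (fun θ x hx => HB k a θ x (Or.inr hx)), ?_⟩, ?_, ?_⟩
    · intro m k g a u
      refine A703_bi_nat (bd t) (Sub.pt z₀) g _ _ _ _ _ _ (fun θ x => ?_) u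
      have h1 := H.nat g (a, (θ, x))
      show (R.of V.zv).app m (H.app m (a.comp g, (θ.comp g, Z.act g x))) = _
      exact (congrArg ((R.of V.zv).app m) h1).trans ((R.of V.zv).nat g _)
    · intro k u
      refine LinearMap.congr_fun (A703_tens_ext _ _ k (fun θ x => ?_)) u
      refine (A703_bi_cl (bd t) (Sub.pt z₀) k _ (fun θ hθ x => HB k (cst 0) θ x (Or.inl hθ))
        (fun θ x hx => HB k (cst 0) θ x (Or.inr hx)) θ x).trans ?_
      rw [H0]
      exact (psiHom_of f hf k θ x).symm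
    · intro k u
      refine LinearMap.congr_fun (A703_tens_ext _ _ k (fun θ x => ?_)) u
      refine (A703_bi_cl (bd t) (Sub.pt z₀) k _ (fun θ hθ x => HB k (cst 1) θ x (Or.inl hθ))
        (fun θ x hx => HB k (cst 1) θ x (Or.inr hx)) θ x).trans ?_
      rw [H1]
      exact (psiHom_of f' hf' k θ x).symm
  apply LinearMap.ext
  intro x
  obtain ⟨z, hz, rfl⟩ := A3Box_exists_cls x
  rw [SV.Hmap_cls, SV.Hmap_cls]
  exact A3Box_cls_eq _ _ ((lhtp_iff _ _).1 key n z hz)

theorem moore_comp {Z : SS} {z₀ : Z.S 0} {V V' : SV} (g : Hom V.ss V'.ss)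
    (hg : g.app 0 V.zv = V'.zv) {t : ℕ} (f : (MapSV Z z₀ V).V t)
    (hf : (MapSV Z z₀ V).Moore f) : (MapSV Z z₀ V').Moore ((MapSV.comp g hg).app t f) := by
  intro m h hh
  have h1 : (MapSV Z z₀ V').act h ((MapSV.comp g hg).app t f) =
      (MapSV.comp g hg).app m ((MapSV Z z₀ V).act h f) := rfl
  rw [h1, hf m h hh]
  refine Subtype.ext (funext fun n => funext fun x => ?_)
  show g.app n (0 : V.V n) = (0 : V'.V n)
  have h2 : (0 : V.V n) = V.ss.deg V.zv n := (map_zero (V.act _)).symm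
  rw [h2]
  show g.app n (V.ss.act _ V.zv) = 0
  rw [g.nat, hg]
  exact map_zero (V'.act _)

theorem psi_comp {Z : SS} {z₀ : Z.S 0} {V V' : SV} (g : Hom V.ss V'.ss)
    (hg : g.app 0 V.zv = V'.zv) {t : ℕ} (f : (MapSV Z z₀ V).V t)
    (hf : (MapSV Z z₀ V).Moore f) :
    psiHom ((MapSV.comp g hg).app t f) (moore_comp g hg f hf) =
      (RVmap g hg).comp (psiHom f hf) := by
  apply SVHom.ext
  funext n
  apply A703_tens_ext
  intro θ x
  refine (psiHom_of _ (moore_comp g hg f hf) n θ x).trans ?_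
  have h1 := psiHom_of f hf n θ x
  have h2 : ((RVmap g hg).comp (psiHom f hf)).app n
      (A703_cl (bd t) n θ ⊗ₜ[ZMod 2] A703_cl (Sub.pt z₀) n x) =
      (RVmap g hg).app n ((R.of V.zv).app n (MapSV.val f n (θ, x))) :=
    congrArg ((RVmap g hg).app n) h1
  rw [h2, R.map_of]
  rfl

/-- `psiHom` of a general pointed map is well defined on homology classes of Moore elements -/
theorem psi_muV_injective {Z : SS} {z₀ : Z.S 0} {V : SV} {t : ℕ} (f f' : (MapSV Z z₀ V).V t)
    (hf : (MapSV Z z₀ V).Moore f) (hf' : (MapSV Z z₀ V).Moore f')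
    (h : ∀ (n : ℕ) (x : ((KK t).tens (R Z z₀)).H n),
      SV.Hmap (muV V) n (SV.Hmap (psiHom f hf) n x) =
        SV.Hmap (muV V) n (SV.Hmap (psiHom f' hf') n x)) :
    f + f' ∈ (MapSV Z z₀ V).B t := by
  have hM := A703_moore_add hf hf'
  refine psi_null (f + f') hM fun n x => ?_
  have key : (muV V).comp (psiHom (f + f') hM) =
      ⟨fun n => ((muV V).comp (psiHom f hf)).app n + ((muV V).comp (psiHom f' hf')).app n,
        fun g x => by
          rw [LinearMap.add_apply, LinearMap.add_apply, SVHom.nat, SVHom.nat, map_add]⟩ := by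
    apply SVHom.ext
    funext k
    apply A703_tens_ext
    intro θ x
    have e : ∀ (f : (MapSV Z z₀ V).V t) (hf : (MapSV Z z₀ V).Moore f),
        ((muV V).comp (psiHom f hf)).app k
        (A703_cl (bd t) k θ ⊗ₜ[ZMod 2] A703_cl (Sub.pt z₀) k x) = MapSV.val f k (θ, x) := by
      intro f hf
      exact (congrArg ((muV V).app k) (psiHom_of f hf k θ x)).trans (muV_of V k _)
    rw [LinearMap.add_apply, e, e, e]
    rfl
  rw [← SV.Hmap_comp, key]
  have h1 := h n x
  rw [← SV.Hmap_comp, ← SV.Hmap_comp] at h1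
  obtain ⟨z, hz, rfl⟩ := A3Box_exists_cls x
  rw [SV.Hmap_cls] at h1 ⊢
  rw [SV.Hmap_cls] at h1
  have h2 := A3Box_cls_rel h1
  rw [← A3Box_cls_zero (W := V) (n := n) (z := 0) rfl (Submodule.zero_mem _)]
  apply A3Box_cls_eq
  rw [add_zero]
  exact h2

end MM

end

/-! ### from `Lib_MP_33f7bb_d.A704` -/

section

/-!
# A7-04: for `t ≥ 1` the classes of `psiHom f` are primitive, and `psiHom` is additive in homology

`psi_prim`: `R.diag ∘ psiHom f` is the composite
`K'(t) ⊗ R Z → (K'(t) ⊗ K'(t)) ⊗ (R Z ⊗ R Z) → (K'(t) ⊗ R Z) ⊗ (K'(t) ⊗ R Z) → R V ⊗ R V`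
of `diag_K ⊗ diag_Z`, the middle exchange and `psiHom f ⊗ psiHom f`, where `diag_K : [θ] ↦ [θ] ⊗ [θ]` (well defined on
`K'(t)`); check on generators `[θ] ⊗ [x]`.  The first map is zero in homology: by `kun_surj` (or `KK_tens_surj`)
every class of `K'(t) ⊗ R Z` is `crsH iota_t y`, mapped (`crs_map`) to `crs (diag_K iota_t) (diag_Z y)` and
`diag_K iota_t` is a cycle of degree `t` of `K'(t) ⊗ K'(t)`, which is a boundary: by `KK_tens_surj` for
`Q = K'(t)` its class is `iota_t × u`, `u` a cycle of degree `0` of `K'(t)`, and `K'(t)_0 = 0` for `t ≥ 1`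
(`KK_V_eq_zero`).

`psi_add`: let `add : V × V → V`, `(f,f') : Δ^t × Z → V × V` (a Moore element of `Map_*(Z, V.prd V)`).  The linear map
`R (V × V) → R V ⊕ R V ⊕ (R V ⊗ R V)`, `[(u,v)] ↦ ([u], [v], [u] ⊗ [v])`, is an isomorphism of simplicial vector spaces.
(inverse: `[u] ↦ [(u,0)]`, `[v] ↦ [(0,v)]`, `[u] ⊗ [v] ↦ [(u,v)] + [(u,0)] + [(0,v)]`).  So in `R (V × V)`, for every
`x` in the homology of `K'(t) ⊗ R Z`: `psiHom (f,f') x = i_1 (psiHom f x) + i_2 (psiHom f' x) + (third component)` and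
the third component is the image of the diagonal term `(psiHom f ⊗ psiHom f') (diag)`, zero as in `psi_prim`.  Apply
`R (add)`.
-/

open scoped TensorProduct

namespace MM

/-- class of a simplex -/
private noncomputable def a704_g {P : SS} (A : Sub P) {n : ℕ} (x : P.S n) :
    (linSub A).quo.V n := (linSub A).proj.app n (Finsupp.single x 1)

private theorem a704_g_zero {P : SS} {A : Sub P} {n : ℕ} {x : P.S n} (hx : x ∈ A.car n) :
    a704_g A x = 0 :=
  (Submodule.Quotient.mk_eq_zero _).2 (SuppIn.single hx 1 : SuppIn A _)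

private theorem a704_g_act {P : SS} {A : Sub P} {m n : ℕ} (g : Mo m n) (x : P.S n) :
    (linSub A).quo.act g (a704_g A x) = a704_g A (P.act g x) := by
  rw [a704_g, ← (linSub A).proj.nat]
  congr 1
  exact Finsupp.mapDomain_single

private theorem a704_ext {P : SS} {A : Sub P} {n : ℕ} {M : Type} [AddCommGroup M]
    [Module (ZMod 2) M] (F G : (linSub A).quo.V n →ₗ[ZMod 2] M)
    (h : ∀ x : P.S n, F (a704_g A x) = G (a704_g A x)) : F = G := by
  apply LinearMap.ext
  intro z
  obtain ⟨c, rfl⟩ := Submodule.Quotient.mk_surjective _ z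
  have key : F.comp ((linSub A).proj.app n) = G.comp ((linSub A).proj.app n) :=
    Finsupp.lhom_ext' fun x => LinearMap.ext_ring (h x)
  exact LinearMap.congr_fun key c

private theorem a704_ext2 {P P' : SS} {A : Sub P} {A' : Sub P'} {n : ℕ} {M : Type}
    [AddCommGroup M] [Module (ZMod 2) M]
    (F G : ((linSub A).quo.tens (linSub A').quo).V n →ₗ[ZMod 2] M)
    (h : ∀ (x : P.S n) (y : P'.S n), F (a704_g A x ⊗ₜ[ZMod 2] a704_g A' y) =
      G (a704_g A x ⊗ₜ[ZMod 2] a704_g A' y)) : F = G := by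
  refine TensorProduct.ext (a704_ext _ _ fun x => ?_)
  exact a704_ext _ _ fun y => h x y

/-- maps out of a quotient of chains -/
private noncomputable def a704_lift {P : SS} (A : Sub P) {W : SV} (f : Hom P W.ss)
    (hf : ∀ n, ∀ x ∈ A.car n, f.app n x = (0 : W.V n)) : SVHom (linSub A).quo W :=
  ⟨fun n => Submodule.liftQ _ (linExt f.app n) (by
      intro c hc
      rw [LinearMap.mem_ker, linExt_apply]
      refine Finset.sum_eq_zero fun x hx => ?_
      show c x • (f.app n x : W.V n) = 0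
      rw [hf n x (hc hx), smul_zero]), fun {m n} g x => by
    obtain ⟨c, rfl⟩ := Submodule.Quotient.mk_surjective _ x
    exact (linHom f).nat g c⟩

private theorem a704_lift_g {P : SS} (A : Sub P) {W : SV} (f : Hom P W.ss)
    (hf : ∀ n, ∀ x ∈ A.car n, f.app n x = (0 : W.V n)) (n : ℕ) (x : P.S n) :
    (a704_lift A f hf).app n (a704_g A x) = f.app n x := by
  show linExt f.app n (Finsupp.single x 1) = f.app n x
  rw [linExt_single, one_smul]

/-- bilinear maps out of a tensor product of quotients of chains -/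
private noncomputable def a704_b1 {P P' : SS} (A' : Sub P') {W : SV}
    (f : Hom (P.prod P') W.ss)
    (h2 : ∀ n x, ∀ y ∈ A'.car n, f.app n (x, y) = (0 : W.V n)) (n : ℕ) (x : P.S n) :
    (linSub A').quo.V n →ₗ[ZMod 2] W.V n :=
  Submodule.liftQ _ (Finsupp.linearCombination (ZMod 2)
    (fun y : P'.S n => (f.app n (x, y) : W.V n))) (by
      intro c hc
      rw [LinearMap.mem_ker, Finsupp.linearCombination_apply]
      refine Finset.sum_eq_zero fun y hy => ?_
      show c y • (f.app n (x, y) : W.V n) = 0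
      rw [h2 n x y (hc hy), smul_zero])

private theorem a704_b1_g {P P' : SS} (A' : Sub P') {W : SV}
    (f : Hom (P.prod P') W.ss)
    (h2 : ∀ n x, ∀ y ∈ A'.car n, f.app n (x, y) = (0 : W.V n)) (n : ℕ) (x : P.S n)
    (y : P'.S n) : a704_b1 A' f h2 n x (a704_g A' y) = f.app n (x, y) := by
  show Finsupp.linearCombination (ZMod 2) _ (Finsupp.single y 1) = _
  rw [Finsupp.linearCombination_single, one_smul]

private noncomputable def a704_b2 {P P' : SS} (A : Sub P) (A' : Sub P') {W : SV}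
    (f : Hom (P.prod P') W.ss)
    (h1 : ∀ n, ∀ x ∈ A.car n, ∀ y, f.app n (x, y) = (0 : W.V n))
    (h2 : ∀ n x, ∀ y ∈ A'.car n, f.app n (x, y) = (0 : W.V n)) (n : ℕ) :
    (linSub A).quo.V n →ₗ[ZMod 2] (linSub A').quo.V n →ₗ[ZMod 2] W.V n :=
  Submodule.liftQ _ (Finsupp.linearCombination (ZMod 2)
    (fun x : P.S n => a704_b1 A' f h2 n x)) (by
      intro c hc
      rw [LinearMap.mem_ker, Finsupp.linearCombination_apply]
      refine Finset.sum_eq_zero fun x hx => ?_
      have h3 : a704_b1 A' f h2 n x = 0 := a704_ext _ _ fun y => by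
        rw [a704_b1_g, h1 n x (hc hx) y]
        rfl
      show c x • a704_b1 A' f h2 n x = 0
      rw [h3, smul_zero])

private theorem a704_b2_g {P P' : SS} (A : Sub P) (A' : Sub P') {W : SV}
    (f : Hom (P.prod P') W.ss)
    (h1 : ∀ n, ∀ x ∈ A.car n, ∀ y, f.app n (x, y) = (0 : W.V n))
    (h2 : ∀ n x, ∀ y ∈ A'.car n, f.app n (x, y) = (0 : W.V n)) (n : ℕ) (x : P.S n)
    (y : P'.S n) : a704_b2 A A' f h1 h2 n (a704_g A x) (a704_g A' y) = f.app n (x, y) := by
  have h3 : a704_b2 A A' f h1 h2 n (a704_g A x) = a704_b1 A' f h2 n x := by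
    show Finsupp.linearCombination (ZMod 2) _ (Finsupp.single x 1) = _
    rw [Finsupp.linearCombination_single, one_smul]
  rw [h3, a704_b1_g]

private noncomputable def a704_lift2 {P P' : SS} (A : Sub P) (A' : Sub P') {W : SV}
    (f : Hom (P.prod P') W.ss)
    (h1 : ∀ n, ∀ x ∈ A.car n, ∀ y, f.app n (x, y) = (0 : W.V n))
    (h2 : ∀ n x, ∀ y ∈ A'.car n, f.app n (x, y) = (0 : W.V n)) :
    SVHom ((linSub A).quo.tens (linSub A').quo) W :=
  ⟨fun n => TensorProduct.lift (a704_b2 A A' f h1 h2 n), fun {m n} g x => by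
    have key : (TensorProduct.lift (a704_b2 A A' f h1 h2 m)).comp
        (((linSub A).quo.tens (linSub A').quo).act g) =
        (W.act g).comp (TensorProduct.lift (a704_b2 A A' f h1 h2 n)) := by
      refine a704_ext2 _ _ fun x y => ?_
      show TensorProduct.lift (a704_b2 A A' f h1 h2 m)
        (((linSub A).quo.act g (a704_g A x)) ⊗ₜ[ZMod 2] ((linSub A').quo.act g (a704_g A' y))) =
        W.act g (TensorProduct.lift (a704_b2 A A' f h1 h2 n)
          (a704_g A x ⊗ₜ[ZMod 2] a704_g A' y))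
      rw [TensorProduct.lift.tmul, TensorProduct.lift.tmul, a704_g_act, a704_g_act, a704_b2_g,
        a704_b2_g]
      exact f.nat g (x, y)
    exact LinearMap.congr_fun key x⟩

private theorem a704_lift2_g {P P' : SS} (A : Sub P) (A' : Sub P') {W : SV}
    (f : Hom (P.prod P') W.ss)
    (h1 : ∀ n, ∀ x ∈ A.car n, ∀ y, f.app n (x, y) = (0 : W.V n))
    (h2 : ∀ n x, ∀ y ∈ A'.car n, f.app n (x, y) = (0 : W.V n)) (n : ℕ) (x : P.S n)
    (y : P'.S n) : (a704_lift2 A A' f h1 h2).app n (a704_g A x ⊗ₜ[ZMod 2] a704_g A' y) =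
      f.app n (x, y) := by
  show TensorProduct.lift (a704_b2 A A' f h1 h2 n) (a704_g A x ⊗ₜ[ZMod 2] a704_g A' y) = _
  rw [TensorProduct.lift.tmul, a704_b2_g]

/-- the diagonal of `K'(t)` -/
private noncomputable def a704_dK (t : ℕ) : SVHom (KK t) ((KK t).tens (KK t)) :=
  a704_lift (bd t) (W := (KK t).tens (KK t))
    ⟨fun n θ => (a704_g (bd t) θ ⊗ₜ[ZMod 2] a704_g (bd t) θ : ((KK t).tens (KK t)).V n),
      fun {m n} g θ => by
        show _ = ((KK t).act g (a704_g (bd t) θ)) ⊗ₜ[ZMod 2] ((KK t).act g (a704_g (bd t) θ))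
        rw [a704_g_act]⟩
    (fun n θ hθ => by
      show a704_g (bd t) θ ⊗ₜ[ZMod 2] a704_g (bd t) θ = 0
      rw [a704_g_zero hθ, TensorProduct.zero_tmul])

private theorem a704_dK_g (t n : ℕ) (θ : Mo n t) :
    (a704_dK t).app n (a704_g (bd t) θ) =
      (a704_g (bd t) θ ⊗ₜ[ZMod 2] a704_g (bd t) θ : ((KK t).tens (KK t)).V n) :=
  a704_lift_g (bd t) _ _ n θ

/-- middle exchange -/
private noncomputable def a704_mid (P P' Q Q' : SV) :
    SVHom ((P.tens P').tens (Q.tens Q')) ((P.tens Q).tens (P'.tens Q')) :=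
  ⟨fun n => (TensorProduct.tensorTensorTensorComm (ZMod 2) (P.V n) (P'.V n) (Q.V n)
      (Q'.V n)).toLinearMap, fun {m n} g x => by
    induction x using TensorProduct.induction_on with
    | zero => simp
    | add a b ha hb => rw [map_add, map_add, ha, hb, map_add, map_add]
    | tmul a b =>
      induction a using TensorProduct.induction_on with
      | zero => simp
      | add a a' ha ha' =>
        rw [TensorProduct.add_tmul, map_add, map_add, ha, ha', map_add, map_add]
      | tmul p p' =>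
        induction b using TensorProduct.induction_on with
        | zero => simp
        | add a a' ha ha' =>
          rw [TensorProduct.tmul_add, map_add, map_add, ha, ha', map_add, map_add]
        | tmul q q' => rfl⟩

private theorem a704_mid_tmul (P P' Q Q' : SV) (n : ℕ) (p : P.V n) (p' : P'.V n) (q : Q.V n)
    (q' : Q'.V n) : (a704_mid P P' Q Q').app n
      ((p ⊗ₜ[ZMod 2] p') ⊗ₜ[ZMod 2] (q ⊗ₜ[ZMod 2] q')) =
      ((p ⊗ₜ[ZMod 2] q) ⊗ₜ[ZMod 2] (p' ⊗ₜ[ZMod 2] q') :
        ((P.tens Q).tens (P'.tens Q')).V n) := rfl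

private theorem a704_dK_B {t : ℕ} (ht : 1 ≤ t) :
    (a704_dK t).app t (KK.iota t) ∈ ((KK t).tens (KK t)).B t := by
  obtain ⟨y, -, hB⟩ := KK_tens_surj t (KK t) 0 t (by omega)
    ((a704_dK t).app t (KK.iota t)) ((a704_dK t).map_Z (KK_iota_mem_Z t))
  obtain ⟨F, hF⟩ := crs_bilin (KK t) (KK t) t 0 t
  rw [KK_V_eq_zero t 0 (by omega) y, ← hF, map_zero, add_zero] at hB
  exact hB

private theorem a704_cls_eq {P : SV} {n : ℕ} {x y : P.V n} (hx : x ∈ P.Z n) (hy : y ∈ P.Z n)
    (h : x + y ∈ P.B n) : P.cls x hx = P.cls y hy := by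
  rw [SV.cls, SV.cls, Submodule.Quotient.eq, Submodule.mem_comap]
  have : (P.Z n).subtype (⟨x, hx⟩ - ⟨y, hy⟩) = x + y := sub_eq' x y
  rw [this]
  exact h

private theorem a704_cls_zero {P : SV} {n : ℕ} {x : P.V n} (hx : x ∈ P.Z n)
    (h : x ∈ P.B n) : P.cls x hx = 0 :=
  (Submodule.Quotient.mk_eq_zero _).2 h

/-- the diagonal of `K'(t)` kills homology -/
private theorem a704_diag {t : ℕ} (ht : 1 ≤ t) {Q Q' : SV} (g : SVHom Q Q') (n : ℕ)
    (x : ((KK t).tens Q).H n) : SV.Hmap ((a704_dK t).tens g) n x = 0 := by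
  obtain ⟨⟨z, hz⟩, rfl⟩ := Submodule.Quotient.mk_surjective _ x
  show SV.Hmap ((a704_dK t).tens g) n (((KK t).tens Q).cls z hz) = 0
  by_cases hn : n < t
  · rw [a704_cls_zero hz (KK_tens_low t Q n hn z hz), map_zero]
  · obtain ⟨y, hy, hB⟩ := KK_tens_surj t Q (n - t) n (by omega) z hz
    have h1 : crs n (KK.iota t) y ∈ ((KK t).tens Q).Z n := crs_mem_Z (KK_iota_mem_Z t) hy
    rw [a704_cls_eq hz h1 hB, SV.Hmap_cls]
    refine a704_cls_zero _ ?_
    rw [crs_map]
    exact crs_mem_B_left (a704_dK_B ht) (g.map_Z hy)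

/-- the total diagonal -/
private noncomputable def a704_D (Z : SS) (z₀ : Z.S 0) (t : ℕ) :
    SVHom ((KK t).tens (R Z z₀)) (((KK t).tens (R Z z₀)).tens ((KK t).tens (R Z z₀))) :=
  (a704_mid (KK t) (KK t) (R Z z₀) (R Z z₀)).comp ((a704_dK t).tens (R.diag z₀))

private theorem a704_D_zero (Z : SS) (z₀ : Z.S 0) {t : ℕ} (ht : 1 ≤ t) (n : ℕ)
    (x : ((KK t).tens (R Z z₀)).H n) : SV.Hmap (a704_D Z z₀ t) n x = 0 := by
  rw [a704_D, SV.Hmap_comp, a704_diag ht, map_zero]

private theorem a704_D_g (Z : SS) (z₀ : Z.S 0) (t n : ℕ) (θ : Mo n t) (x : Z.S n) :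
    (a704_D Z z₀ t).app n ((a704_g (bd t) θ : (KK t).V n) ⊗ₜ[ZMod 2]
      ((R.of z₀).app n x : (R Z z₀).V n)) =
      (((a704_g (bd t) θ : (KK t).V n) ⊗ₜ[ZMod 2] ((R.of z₀).app n x : (R Z z₀).V n))
        ⊗ₜ[ZMod 2] ((a704_g (bd t) θ : (KK t).V n) ⊗ₜ[ZMod 2]
          ((R.of z₀).app n x : (R Z z₀).V n)) :
        (((KK t).tens (R Z z₀)).tens ((KK t).tens (R Z z₀))).V n) := by
  show (a704_mid (KK t) (KK t) (R Z z₀) (R Z z₀)).app n
    (((a704_dK t).app n (a704_g (bd t) θ)) ⊗ₜ[ZMod 2]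
      ((R.diag z₀).app n ((R.of z₀).app n x))) = _
  rw [a704_dK_g]
  have h : (R.diag z₀).app n ((R.of z₀).app n x) =
      ((R.of z₀).app n x : (R Z z₀).V n) ⊗ₜ[ZMod 2] ((R.of z₀).app n x : (R Z z₀).V n) :=
    R.lift_of _ _ _ _ _
  rw [h, a704_mid_tmul]

private theorem a704_prim {Z : SS} {z₀ : Z.S 0} {V : SV} {t : ℕ}
    (f : (MapSV Z z₀ V).V t) (hf : (MapSV Z z₀ V).Moore f) :
    (R.diag V.zv).comp (psiHom f hf) =
      ((psiHom f hf).tens (psiHom f hf)).comp (a704_D Z z₀ t) := by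
  apply SVHom.ext
  funext n
  refine a704_ext2 _ _ fun θ x => ?_
  show (R.diag V.zv).app n ((psiHom f hf).app n ((a704_g (bd t) θ : (KK t).V n) ⊗ₜ[ZMod 2]
      ((R.of z₀).app n x : (R Z z₀).V n))) =
    ((psiHom f hf).tens (psiHom f hf)).app n ((a704_D Z z₀ t).app n
      ((a704_g (bd t) θ : (KK t).V n) ⊗ₜ[ZMod 2] ((R.of z₀).app n x : (R Z z₀).V n)))
  rw [a704_D_g]
  have h1 : (psiHom f hf).app n ((a704_g (bd t) θ : (KK t).V n) ⊗ₜ[ZMod 2]
      ((R.of z₀).app n x : (R Z z₀).V n)) = (R.of V.zv).app n (MapSV.val f n (θ, x)) :=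
    psiHom_of f hf n θ x
  have h2 : (R.diag V.zv).app n ((R.of V.zv).app n (MapSV.val f n (θ, x))) =
      ((R.of V.zv).app n (MapSV.val f n (θ, x)) : (RV V).V n) ⊗ₜ[ZMod 2]
        ((R.of V.zv).app n (MapSV.val f n (θ, x)) : (RV V).V n) := R.lift_of _ _ _ _ _
  rw [h1, h2]
  show _ = ((psiHom f hf).app n ((a704_g (bd t) θ : (KK t).V n) ⊗ₜ[ZMod 2]
      ((R.of z₀).app n x : (R Z z₀).V n))) ⊗ₜ[ZMod 2] ((psiHom f hf).app n
        ((a704_g (bd t) θ : (KK t).V n) ⊗ₜ[ZMod 2] ((R.of z₀).app n x : (R Z z₀).V n)))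
  rw [h1]

theorem psi_prim {Z : SS} {z₀ : Z.S 0} {V : SV} {t : ℕ} (ht : 1 ≤ t)
    (f : (MapSV Z z₀ V).V t) (hf : (MapSV Z z₀ V).Moore f) (n : ℕ)
    (x : ((KK t).tens (R Z z₀)).H n) : SV.Hmap (psiHom f hf) n x ∈ PH V n := by
  show SV.Hmap (R.diag V.zv) n (SV.Hmap (psiHom f hf) n x) = 0
  rw [← SV.Hmap_comp, a704_prim, SV.Hmap_comp, a704_D_zero Z z₀ ht, map_zero]

theorem moore_add {W : SV} {t : ℕ} {f f' : W.V t} (hf : W.Moore f) (hf' : W.Moore f') :
    W.Moore (f + f') := by
  intro m g hg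
  rw [map_add, hf m g hg, hf' m g hg, add_zero]

/-- the product `[u] ⊗ [v] ↦ [u + v] + [u] + [v]` -/
private noncomputable def a704_al (V : SV) : SVHom ((RV V).tens (RV V)) (RV V) :=
  a704_lift2 (Sub.pt V.zv) (Sub.pt V.zv) (P := V.ss) (P' := V.ss) (W := RV V)
    ⟨fun n x => ((R.of V.zv).app n ((x.1 : V.V n) + (x.2 : V.V n)) : (RV V).V n) +
        (R.of V.zv).app n x.1 + (R.of V.zv).app n x.2, fun {m n} g x => by
      show ((R.of V.zv).app m (V.act g x.1 + V.act g x.2) : (RV V).V m) +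
        (R.of V.zv).app m (V.act g x.1) + (R.of V.zv).app m (V.act g x.2) =
        (RV V).act g (((R.of V.zv).app n ((x.1 : V.V n) + (x.2 : V.V n)) : (RV V).V n) +
        (R.of V.zv).app n x.1 + (R.of V.zv).app n x.2)
      rw [map_add, map_add, ← map_add (V.act g)]
      have h : ∀ v : V.V n, (RV V).act g ((R.of V.zv).app n v : (RV V).V n) =
          (R.of V.zv).app m (V.act g v) := fun v => ((R.of V.zv).nat g v).symm
      rw [h, h, h]⟩
    (fun n x hx y => by
      have h0 : x = (0 : V.V n) := by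
        have : x = V.ss.deg V.zv n := hx
        rw [this]
        exact map_zero (V.act _)
      have h1 : ((R.of V.zv).app n (0 : V.V n) : (RV V).V n) = 0 := by
        have := R.of_base V.zv n
        have h2 : V.ss.deg V.zv n = (0 : V.V n) := map_zero (V.act _)
        rw [h2] at this
        exact this
      show ((R.of V.zv).app n ((x : V.V n) + (y : V.V n)) : (RV V).V n) +
        (R.of V.zv).app n x + (R.of V.zv).app n y = 0
      rw [h0, zero_add, h1, add_zero, two_eq_zero'])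
    (fun n x y hy => by
      have h0 : y = (0 : V.V n) := by
        have : y = V.ss.deg V.zv n := hy
        rw [this]
        exact map_zero (V.act _)
      have h1 : ((R.of V.zv).app n (0 : V.V n) : (RV V).V n) = 0 := by
        have := R.of_base V.zv n
        have h2 : V.ss.deg V.zv n = (0 : V.V n) := map_zero (V.act _)
        rw [h2] at this
        exact this
      show ((R.of V.zv).app n ((x : V.V n) + (y : V.V n)) : (RV V).V n) +
        (R.of V.zv).app n x + (R.of V.zv).app n y = 0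
      rw [h0, add_zero, h1, add_zero, two_eq_zero'])

private theorem a704_al_g (V : SV) (n : ℕ) (u v : V.V n) :
    (a704_al V).app n (((R.of V.zv).app n u : (RV V).V n) ⊗ₜ[ZMod 2]
      ((R.of V.zv).app n v : (RV V).V n)) =
      ((R.of V.zv).app n (u + v) : (RV V).V n) + (R.of V.zv).app n u + (R.of V.zv).app n v :=
  a704_lift2_g (P := V.ss) (P' := V.ss) (Sub.pt V.zv) (Sub.pt V.zv) _ _ _ n u v

private theorem a704_add {Z : SS} {z₀ : Z.S 0} {V : SV} {t : ℕ}
    (f f' : (MapSV Z z₀ V).V t) (hf : (MapSV Z z₀ V).Moore f)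
    (hf' : (MapSV Z z₀ V).Moore f') (n : ℕ) (u : ((KK t).tens (R Z z₀)).V n) :
    (psiHom (f + f') (moore_add hf hf')).app n u =
      (psiHom f hf).app n u + (psiHom f' hf').app n u +
      (((a704_al V).comp ((psiHom f hf).tens (psiHom f' hf'))).comp (a704_D Z z₀ t)).app n u := by
  have key : (psiHom (f + f') (moore_add hf hf')).app n =
      (psiHom f hf).app n + (psiHom f' hf').app n +
      (((a704_al V).comp ((psiHom f hf).tens (psiHom f' hf'))).comp (a704_D Z z₀ t)).app n := by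
    refine a704_ext2 _ _ fun θ x => ?_
    have h1 : ∀ (g : (MapSV Z z₀ V).V t) (hg : (MapSV Z z₀ V).Moore g),
        (psiHom g hg).app n ((a704_g (bd t) θ : (KK t).V n) ⊗ₜ[ZMod 2]
        ((R.of z₀).app n x : (R Z z₀).V n)) = (R.of V.zv).app n (MapSV.val g n (θ, x)) :=
      fun g hg => psiHom_of g hg n θ x
    show (psiHom (f + f') (moore_add hf hf')).app n ((a704_g (bd t) θ : (KK t).V n) ⊗ₜ[ZMod 2]
        ((R.of z₀).app n x : (R Z z₀).V n)) =
      (psiHom f hf).app n ((a704_g (bd t) θ : (KK t).V n) ⊗ₜ[ZMod 2]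
        ((R.of z₀).app n x : (R Z z₀).V n)) +
      (psiHom f' hf').app n ((a704_g (bd t) θ : (KK t).V n) ⊗ₜ[ZMod 2]
        ((R.of z₀).app n x : (R Z z₀).V n)) +
      (a704_al V).app n (((psiHom f hf).tens (psiHom f' hf')).app n ((a704_D Z z₀ t).app n
        ((a704_g (bd t) θ : (KK t).V n) ⊗ₜ[ZMod 2] ((R.of z₀).app n x : (R Z z₀).V n))))
    rw [a704_D_g]
    have h3 : ((psiHom f hf).tens (psiHom f' hf')).app n
        (((a704_g (bd t) θ : (KK t).V n) ⊗ₜ[ZMod 2] ((R.of z₀).app n x : (R Z z₀).V n))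
        ⊗ₜ[ZMod 2] ((a704_g (bd t) θ : (KK t).V n) ⊗ₜ[ZMod 2]
          ((R.of z₀).app n x : (R Z z₀).V n))) =
        ((R.of V.zv).app n (MapSV.val f n (θ, x)) : (RV V).V n) ⊗ₜ[ZMod 2]
          ((R.of V.zv).app n (MapSV.val f' n (θ, x)) : (RV V).V n) := by
      rw [← h1 f hf, ← h1 f' hf']
      rfl
    rw [h1, h1, h1, h3, a704_al_g]
    have h4 : MapSV.val (f + f') n (θ, x) = MapSV.val f n (θ, x) + MapSV.val f' n (θ, x) := rfl
    rw [h4]
    have h5 : ∀ a b c : (RV V).V n, a = b + c + (a + b + c) := by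
      intro a b c
      have e : b + c + (a + b + c) = a + ((b + b) + (c + c)) := by abel
      rw [e, two_eq_zero', two_eq_zero', add_zero, add_zero]
    exact h5 _ _ _
  rw [key]
  rfl

theorem psi_add {Z : SS} {z₀ : Z.S 0} {V : SV} {t : ℕ} (ht : 1 ≤ t)
    (f f' : (MapSV Z z₀ V).V t) (hf : (MapSV Z z₀ V).Moore f)
    (hf' : (MapSV Z z₀ V).Moore f') (n : ℕ) (x : ((KK t).tens (R Z z₀)).H n) :
    SV.Hmap (psiHom (f + f') (moore_add hf hf')) n x =
      SV.Hmap (psiHom f hf) n x + SV.Hmap (psiHom f' hf') n x := by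
  have h0 : SV.Hmap (((a704_al V).comp ((psiHom f hf).tens (psiHom f' hf'))).comp
      (a704_D Z z₀ t)) n x = 0 := by
    rw [SV.Hmap_comp, a704_D_zero Z z₀ ht, map_zero]
  obtain ⟨⟨z, hz⟩, rfl⟩ := Submodule.Quotient.mk_surjective _ x
  rw [← add_zero (SV.Hmap (psiHom f hf) n _ + SV.Hmap (psiHom f' hf') n _), ← h0]
  show (RV V).cls ((psiHom (f + f') (moore_add hf hf')).app n z) _ =
    (RV V).cls ((psiHom f hf).app n z + (psiHom f' hf').app n z +
      (((a704_al V).comp ((psiHom f hf).tens (psiHom f' hf'))).comp (a704_D Z z₀ t)).app n z) _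
  congr 1
  exact a704_add f f' hf hf' n z

end MM

end

/-! ### from `Lib_MP_33f7bb_d.A705` -/

section

/-!
# A7-05: Steenrod operations and the classes `PsiC f n` (suspension invariance)

Let `f : Δ^t × B → V` be a Moore element, `B = BZ2`.  Let `S = SpS t` (pointed at `none`) and let `P = S × B`, pointed.
`f` induces a pointed simplicial map `g : P → V.ss`, `(some θ, x) ↦ f (θ, x)`, `(none, x) ↦ 0`.  The collapse
`R P → K'(t) ⊗ R B`, `[(some θ, x)] ↦ [θ] ⊗ [x]`, `[(none,x)] ↦ 0`, composed with `psiHom f` is `R.map g` (check on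
generators).  By the splitting `R (S × B) ≅ R S ⊕ R B ⊕ (R S ⊗ R B)` (as in A7-04) and `R S ≅ K'(t)`, there is
a class `c_m ∈ H_m(R P)`, `m > t`, which maps to `crsH m iota_t e_(m-t)` in `K'(t) ⊗ R B` and to `0` in
`H_m(R S)`, `H_m(R B)`.
Let `y ∈ H^n(V)`, `n > t`.  `g^* y ∈ H^n(P)`: it vanishes on the summands `R S` and `R B` (`f` vanishes on the base
point of `B` and on `∂Δ^t`), so `g^* y = ε s·x^(n-t)`, the product (`cupR`) of the pull backs of the fundamental class
`s ∈ H^t(S)` and of `x^(n-t) ∈ H^(n-t)(B)`, `ε = y (PsiC f n)`.  Cartan: `Sq (s·x^(n-t)) = ∑ Sq^a s · Sq^b x^(n-t) =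
s · Sq x^(n-t)`: `Sq^a s ∈ H^(t+a)(S) = 0` for `a > 0` (pull back along the projection `P → S` of a class of `S`).
So `(Sq y)(PsiC f m) = (Sq g^*y)(c_m) = ε (Sq^(m-n) x^(n-t))(e_(m-t)) = ε binom(n-t, m-n)` (`sq_eB`).
-/

open scoped TensorProduct

namespace MM

/-! ### generators of `K'(t)` -/

/-- the class of a simplex in `K'(t)` -/
private noncomputable def A705k (t n : ℕ) (θ : Mo n t) : (KK t).V n :=
  (linSub (bd t)).proj.app n (Finsupp.single θ 1)

private theorem A705k_act (t : ℕ) {m n : ℕ} (g : Mo m n) (θ : Mo n t) :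
    (KK t).act g (A705k t n θ) = A705k t m (θ.comp g) := by
  unfold A705k
  rw [← (linSub (bd t)).proj.nat]
  congr 1
  exact Finsupp.mapDomain_single

private theorem A705k_zero (t n : ℕ) (θ : Mo n t) (hθ : ¬ Function.Surjective θ) :
    A705k t n θ = 0 := by
  show Submodule.Quotient.mk _ = (0 : (KK t).V n)
  rw [Submodule.Quotient.mk_eq_zero]
  exact SuppIn.single (A := bd t) (x := θ) hθ 1

private theorem A705_ext {Z : SS} {z₀ : Z.S 0} {W : SV} {t : ℕ}
    {F G : SVHom ((KK t).tens (R Z z₀)) W}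
    (h : ∀ n (θ : Mo n t) (x : Z.S n),
      F.app n (A705k t n θ ⊗ₜ[ZMod 2] ((R.of z₀).app n x : (R Z z₀).V n)) =
        G.app n (A705k t n θ ⊗ₜ[ZMod 2] ((R.of z₀).app n x : (R Z z₀).V n))) : F = G := by
  apply SVHom.ext
  funext n
  apply LinearMap.ext
  intro u
  induction u using TensorProduct.induction_on with
  | zero => rw [map_zero, map_zero]
  | add a b ha hb => rw [map_add, map_add, ha, hb]
  | tmul a b =>
    have ha : a ∈ Submodule.span (ZMod 2) (Set.range
        (fun θ : Mo n t => (linSub (bd t)).proj.app n (Finsupp.single θ 1))) := by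
      rw [MapSV.KK_span]; trivial
    induction ha using Submodule.span_induction with
    | zero => rw [TensorProduct.zero_tmul, map_zero, map_zero]
    | add a a' _ _ ha ha' => rw [TensorProduct.add_tmul, map_add, map_add, ha, ha']
    | smul r a _ ha => rw [← TensorProduct.smul_tmul', map_smul, map_smul, ha]
    | mem a ha =>
      obtain ⟨θ, rfl⟩ := ha
      have hb : b ∈ Submodule.span (ZMod 2) (Set.range ((R.of z₀).app n)) := by
        rw [R.span]; trivial
      induction hb using Submodule.span_induction with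
      | zero => rw [TensorProduct.tmul_zero, map_zero, map_zero]
      | add a a' _ _ ha ha' => rw [TensorProduct.tmul_add, map_add, map_add, ha, ha']
      | smul r a _ ha => rw [TensorProduct.tmul_smul, map_smul, map_smul, ha]
      | mem b hb =>
        obtain ⟨x, rfl⟩ := hb
        exact h n θ x

/-! ### the sphere -/

private theorem A705_act_some (t : ℕ) {m n : ℕ} (g : Mo m n)
    (θ : {θ : Mo n t // Function.Surjective θ}) (h : Function.Surjective (θ.1.comp g)) :
    (SpS t).act g (some θ) = some ⟨θ.1.comp g, h⟩ := by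
  simp only [Option.bind_some, dif_pos h]

private theorem A705_act_some' (t : ℕ) {m n : ℕ} (g : Mo m n)
    (θ : {θ : Mo n t // Function.Surjective θ}) (h : ¬ Function.Surjective (θ.1.comp g)) :
    (SpS t).act g (some θ) = none := by
  simp only [Option.bind_some, dif_neg h]

private theorem A705_act_top (t : ℕ) {n : ℕ} (θ : Mo n t) (h : Function.Surjective θ) :
    (SpS t).act θ (SpS.top t) = some ⟨θ, h⟩ :=
  A705_act_some t θ ⟨OrderHom.id, fun x => ⟨x, rfl⟩⟩ h

private theorem A705_act_top' (t : ℕ) {n : ℕ} (θ : Mo n t) (h : ¬ Function.Surjective θ) :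
    (SpS t).act θ (SpS.top t) = none :=
  A705_act_some' t θ ⟨OrderHom.id, fun x => ⟨x, rfl⟩⟩ h

/-- base point of the sphere -/
private def A705n (t : ℕ) : (SpS t).S 0 := none

private theorem A705_deg (t n : ℕ) : (SpS t).deg (A705n t) n = none := rfl

/-- the map `S → K'(t)` -/
private noncomputable def A705c0 (t : ℕ) : Hom (SpS t) (KK t).ss :=
  ⟨fun n s => s.elim 0 (fun θ => A705k t n θ.1), by
    intro m n g s
    cases s with
    | none =>
      show (0 : (KK t).V m) = (KK t).act g 0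
      rw [map_zero]
    | some θ =>
      by_cases h : Function.Surjective (θ.1.comp g)
      · rw [A705_act_some t g θ h]
        exact (A705k_act t g θ.1).symm
      · rw [A705_act_some' t g θ h]
        show (0 : (KK t).V m) = (KK t).act g (A705k t n θ.1)
        rw [A705k_act, A705k_zero t m _ h]⟩

/-- the collapse `R S → K'(t)` -/
private noncomputable def A705c (t : ℕ) : SVHom (R (SpS t) (A705n t)) (KK t) :=
  R.lift (A705n t) (A705c0 t) rfl

private theorem A705c_of (t n : ℕ) (s : (SpS t).S n) :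
    (A705c t).app n ((R.of (A705n t)).app n s) = (A705c0 t).app n s := R.lift_of _ _ _ _ _

private theorem A705c0_top (t n : ℕ) (θ : Mo n t) :
    (A705c0 t).app n ((SpS t).act θ (SpS.top t)) = A705k t n θ := by
  by_cases h : Function.Surjective θ
  · rw [A705_act_top t θ h]; rfl
  · rw [A705_act_top' t θ h, A705k_zero t n θ h]; rfl

private theorem A705_of_none (t n : ℕ) :
    (R.of (A705n t)).app n none = (0 : (R (SpS t) (A705n t)).V n) := R.of_base (A705n t) n

/-- no homology of the sphere above its dimension -/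
private theorem A705_sphere (t k : ℕ) (hk : k ≠ t) (x : (R (SpS t) (A705n t)).H k) : x = 0 := by
  obtain ⟨μ, h1, h2⟩ := exists_KK_hom (P := R (SpS t) (A705n t)) (n := t)
    ((R.of (A705n t)).app t (SpS.top t)) (by
      intro m h hh
      have e1 := (R.of (A705n t)).nat h (SpS.top t)
      rw [A705_act_top' t h hh] at e1
      exact e1.symm.trans (A705_of_none t m))
  have h3 : μ.comp (A705c t) = SVHom.id _ := by
    apply R.ext
    intro n s
    show μ.app n ((A705c t).app n ((R.of (A705n t)).app n s)) = (R.of (A705n t)).app n s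
    rw [A705c_of]
    cases s with
    | none =>
      show μ.app n (0 : (KK t).V n) = _
      rw [map_zero]; exact (A705_of_none t n).symm
    | some θ =>
      have e1 : (KK t).act θ.1 (KK.iota t) = A705k t n θ.1 := A705k_act t θ.1 OrderHom.id
      show μ.app n (A705k t n θ.1) = _
      rw [← e1, h2 n θ.1]
      have e2 := (R.of (A705n t)).nat θ.1 (SpS.top t)
      rw [A705_act_top t θ.1 θ.2] at e2
      exact e2.symm
  have h4 : SV.Hmap (A705c t) k x = 0 := by
    obtain ⟨z, hz, hzx⟩ := A3Box_exists_cls (SV.Hmap (A705c t) k x)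
    rw [← hzx]
    rcases KK_homology t k z hz with h5 | ⟨h5, -⟩
    · have : (KK t).cls z hz = (KK t).cls 0 (Submodule.zero_mem _) :=
        A3Box_cls_eq hz _ (by rwa [add_zero])
      rw [this]; rfl
    · exact absurd h5 hk
  rw [← SV.Hmap_id _ k x, ← h3, SV.Hmap_comp, h4, map_zero]

/-! ### the product `S × B` -/

/-- the product -/
private noncomputable abbrev A705P (t : ℕ) : SS := (SpS t).prod BZ2

/-- its base point -/
private noncomputable def A705p (t : ℕ) : (A705P t).S 0 := (A705n t, K1.zv)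

private theorem A705p_deg (t n : ℕ) : (A705P t).deg (A705p t) n = (none, BZ2.deg K1.zv n) := rfl

/-- the map `S × B → V` given by a Moore element -/
private noncomputable def A705g {V : SV} {t : ℕ} (f : (MapSV BZ2 K1.zv V).V t)
    (hf : (MapSV BZ2 K1.zv V).Moore f) : Hom (A705P t) V.ss :=
  ⟨fun n x => x.1.elim (0 : V.V n) (fun θ => MapSV.val f n (θ.1, x.2)), by
    rintro m n g ⟨s, x⟩
    cases s with
    | none =>
      show (0 : V.V m) = V.act g 0
      rw [map_zero]
    | some θ =>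
      show ((SpS t).act g (some θ)).elim (0 : V.V m) (fun θ => MapSV.val f m (θ.1, BZ2.act g x)) =
        V.act g (MapSV.val f n (θ.1, x))
      rw [← MapSV.val_nat]
      by_cases h : Function.Surjective (θ.1.comp g)
      · rw [A705_act_some t g θ h]; rfl
      · rw [A705_act_some' t g θ h, MapSV.val_moore hf m _ h]; rfl⟩

/-- the first component of the collapse -/
private noncomputable def A705q1 (t : ℕ) : SVHom (R (A705P t) (A705p t)) (R (SpS t) (A705n t)) :=
  R.map (A705p t) (A705n t) (Hom.fst _ _) rfl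

/-- the second component of the collapse -/
private noncomputable def A705q2 (t : ℕ) : SVHom (R (A705P t) (A705p t)) (RV K1) :=
  R.map (A705p t) K1.zv (Hom.snd _ _) rfl

/-- the collapse `R (S × B) → K'(t) ⊗ R B` -/
private noncomputable def A705kap (t : ℕ) : SVHom (R (A705P t) (A705p t)) ((KK t).tens (RV K1)) :=
  (((A705c t).comp (A705q1 t)).tens (A705q2 t)).comp (R.diag (A705p t))

private theorem A705kap_of (t n : ℕ) (s : (SpS t).S n) (x : BZ2.S n) :
    (A705kap t).app n ((R.of (A705p t)).app n (s, x)) =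
      ((A705c0 t).app n s : (KK t).V n) ⊗ₜ[ZMod 2] ((R.of K1.zv).app n x : (RV K1).V n) := by
  have e1 : (R.diag (A705p t)).app n ((R.of (A705p t)).app n (s, x)) =
      ((R.of (A705p t)).app n (s, x) : (R (A705P t) (A705p t)).V n) ⊗ₜ[ZMod 2]
        ((R.of (A705p t)).app n (s, x) : (R (A705P t) (A705p t)).V n) := R.lift_of _ _ _ _ _
  show (TensorProduct.map (((A705c t).comp (A705q1 t)).app n) ((A705q2 t).app n))
    ((R.diag (A705p t)).app n ((R.of (A705p t)).app n (s, x))) = _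
  rw [e1, TensorProduct.map_tmul]
  have e2 : (A705q1 t).app n ((R.of (A705p t)).app n (s, x)) = (R.of (A705n t)).app n s :=
    R.map_of _ _ _ _ _ _
  have e3 : (A705q2 t).app n ((R.of (A705p t)).app n (s, x)) = (R.of K1.zv).app n x :=
    R.map_of _ _ _ _ _ _
  rw [e3]
  show (A705c t).app n ((A705q1 t).app n ((R.of (A705p t)).app n (s, x))) ⊗ₜ[ZMod 2] _ = _
  rw [e2, A705c_of]

private theorem A705_g_kap {V : SV} {t : ℕ} (f : (MapSV BZ2 K1.zv V).V t)
    (hf : (MapSV BZ2 K1.zv V).Moore f) :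
    R.map (A705p t) V.zv (A705g f hf) rfl = (psiHom f hf).comp (A705kap t) := by
  apply R.ext
  rintro n ⟨s, x⟩
  rw [R.map_of]
  show _ = (psiHom f hf).app n ((A705kap t).app n ((R.of (A705p t)).app n (s, x)))
  rw [A705kap_of]
  cases s with
  | none =>
    show (R.of V.zv).app n (0 : V.V n) =
      (psiHom f hf).app n ((0 : (KK t).V n) ⊗ₜ[ZMod 2] ((R.of K1.zv).app n x : (RV K1).V n))
    rw [TensorProduct.zero_tmul, map_zero]
    have h1 := R.of_base V.zv n
    have h2 : V.ss.deg V.zv n = (0 : V.V n) := map_zero (V.act _)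
    rw [h2] at h1
    exact h1
  | some θ => exact (psiHom_of f hf n θ.1 x).symm

/-! ### the section -/

/-- the section as an element of the mapping space -/
private noncomputable def A705L (t : ℕ) :
    (MapSV BZ2 K1.zv (R (A705P t) (A705p t))).V t :=
  ⟨fun n x => (R.of (A705p t)).app n ((SpS t).act x.1 (SpS.top t), x.2) +
    (R.of (A705p t)).app n ((SpS t).act x.1 (SpS.top t), BZ2.deg K1.zv n) +
    (R.of (A705p t)).app n (none, x.2), by
    constructor
    · intro k n g θ x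
      have e1 : ∀ (s : (SpS t).S n) (u : BZ2.S n),
          (R (A705P t) (A705p t)).act g ((R.of (A705p t)).app n (s, u)) =
            (R.of (A705p t)).app k ((SpS t).act g s, BZ2.act g u) :=
        fun s u => ((R.of (A705p t)).nat g (s, u)).symm
      have e2 : (SpS t).act (θ.comp g) (SpS.top t) = (SpS t).act g ((SpS t).act θ (SpS.top t)) :=
        ((SpS t).act_comp g θ _).symm
      have e3 : BZ2.act g (BZ2.deg K1.zv n) = BZ2.deg K1.zv k := by
        show BZ2.act g (BZ2.act (cst 0) K1.zv) = BZ2.act (cst 0) K1.zv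
        rw [BZ2.act_comp]; rfl
      show (R.of (A705p t)).app k ((SpS t).act (θ.comp g) (SpS.top t), BZ2.act g x) +
        (R.of (A705p t)).app k ((SpS t).act (θ.comp g) (SpS.top t), BZ2.deg K1.zv k) +
        (R.of (A705p t)).app k (none, BZ2.act g x) =
        (R (A705P t) (A705p t)).act g ((R.of (A705p t)).app n ((SpS t).act θ (SpS.top t), x) +
        (R.of (A705p t)).app n ((SpS t).act θ (SpS.top t), BZ2.deg K1.zv n) +
        (R.of (A705p t)).app n (none, x))
      rw [map_add, map_add, e1, e1, e1, e3, e2]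
      rfl
    · intro n θ
      show (R.of (A705p t)).app n ((SpS t).act θ (SpS.top t), BZ2.deg K1.zv n) +
        (R.of (A705p t)).app n ((SpS t).act θ (SpS.top t), BZ2.deg K1.zv n) +
        (R.of (A705p t)).app n (none, BZ2.deg K1.zv n) = (0 : (R (A705P t) (A705p t)).V n)
      rw [two_eq_zero', zero_add]
      exact R.of_base (A705p t) n⟩

private theorem A705L_val (t n : ℕ) (θ : Mo n t) (x : BZ2.S n) :
    MapSV.val (A705L t) n (θ, x) =
      (R.of (A705p t)).app n ((SpS t).act θ (SpS.top t), x) +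
      (R.of (A705p t)).app n ((SpS t).act θ (SpS.top t), BZ2.deg K1.zv n) +
      (R.of (A705p t)).app n (none, x) := rfl

private theorem A705L_moore (t : ℕ) :
    (MapSV BZ2 K1.zv (R (A705P t) (A705p t))).Moore (A705L t) := by
  intro m h hh
  apply Subtype.ext
  funext n
  funext x
  have hs : ¬ Function.Surjective (h.comp x.1) := by
    intro h1
    apply hh
    intro y
    obtain ⟨z, hz⟩ := h1 y
    exact ⟨_, hz⟩
  show (R.of (A705p t)).app n ((SpS t).act (h.comp x.1) (SpS.top t), x.2) +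
      (R.of (A705p t)).app n ((SpS t).act (h.comp x.1) (SpS.top t), BZ2.deg K1.zv n) +
      (R.of (A705p t)).app n (none, x.2) = (0 : (R (A705P t) (A705p t)).V n)
  rw [A705_act_top' t _ hs]
  have e1 : (R.of (A705p t)).app n (none, BZ2.deg K1.zv n) = (0 : (R (A705P t) (A705p t)).V n) :=
    R.of_base (A705p t) n
  rw [e1, add_zero, two_eq_zero']

/-- the section `K'(t) ⊗ R B → R (S × B)` -/
private noncomputable def A705rho (t : ℕ) :
    SVHom ((KK t).tens (RV K1)) (R (A705P t) (A705p t)) :=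
  (muV (R (A705P t) (A705p t))).comp (psiHom (A705L t) (A705L_moore t))

private theorem A705_kap_rho (t : ℕ) : (A705kap t).comp (A705rho t) = SVHom.id _ := by
  apply A705_ext
  intro n θ x
  have e1 : (A705rho t).app n (A705k t n θ ⊗ₜ[ZMod 2] ((R.of K1.zv).app n x : (RV K1).V n)) =
      MapSV.val (A705L t) n (θ, x) := by
    show (muV _).app n ((psiHom (A705L t) (A705L_moore t)).app n _) = _
    rw [A705k, psiHom_of, muV_of]
  show (A705kap t).app n ((A705rho t).app n _) = A705k t n θ ⊗ₜ[ZMod 2] _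
  rw [e1, A705L_val, map_add, map_add, A705kap_of, A705kap_of, A705kap_of, A705c0_top]
  have e2 : (A705c0 t).app n none = (0 : (KK t).V n) := rfl
  have e3 : (R.of K1.zv).app n (BZ2.deg K1.zv n) = (0 : (RV K1).V n) := R.of_base K1.zv n
  rw [e2, e3, TensorProduct.zero_tmul, TensorProduct.tmul_zero, add_zero, add_zero]

/-! ### functionals -/

private theorem A705_boxF_zero {P Q : SV} {p q n : ℕ} (b : Module.Dual (ZMod 2) (Q.H q)) :
    boxF n (0 : Module.Dual (ZMod 2) (P.H p)) b = 0 := by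
  have h := boxF_add_left (n := n) (0 : Module.Dual (ZMod 2) (P.H p)) 0 b
  rw [add_zero] at h
  exact (left_eq_add.1 h)

private theorem A705_cupR_zero {Z : SS} {z₀ : Z.S 0} {p q : ℕ} (n : ℕ)
    (b : Module.Dual (ZMod 2) ((R Z z₀).H q)) :
    cupR n (0 : Module.Dual (ZMod 2) ((R Z z₀).H p)) b = 0 := by
  unfold cupR
  rw [A705_boxF_zero, LinearMap.zero_comp]

private theorem A705_boxF_crsH {P Q : SV} {p q n : ℕ} (h : p + q = n)
    (a : Module.Dual (ZMod 2) (P.H p)) (b : Module.Dual (ZMod 2) (Q.H q)) (x : P.H p)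
    (y : Q.H q) : boxF n a b (crsH n x y) = a x * b y := by
  obtain ⟨x, hx, rfl⟩ := A3Box_exists_cls x
  obtain ⟨y, hy, rfl⟩ := A3Box_exists_cls y
  rw [crsH_cls, boxF_crs h]

private theorem A705_exists_s (t : ℕ) : ∃ s : Module.Dual (ZMod 2) ((KK t).H t), s (iotaH t) = 1 := by
  have h1 : iotaH t ≠ 0 := by
    intro h
    apply KK_iota_not_mem_B t
    have h2 : (KK t).cls (KK.iota t) (KK_iota_mem_Z t) = (KK t).cls 0 (Submodule.zero_mem _) := h
    have h3 := A3Box_cls_rel h2
    rwa [add_zero] at h3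
  by_contra h2
  push Not at h2
  apply h1
  rw [← Module.forall_dual_apply_eq_zero_iff (ZMod 2)]
  intro φ
  have h3 := h2 φ
  have h4 : ∀ c : ZMod 2, c ≠ 1 → c = 0 := by decide
  exact h4 _ h3

/-- functionals on the homology of `K'(t) ⊗ Q` are external products -/
private theorem A705_w {Q : SV} {t q n : ℕ} (h : t + q = n)
    (s : Module.Dual (ZMod 2) ((KK t).H t)) (hs : s (iotaH t) = 1)
    (w : Module.Dual (ZMod 2) (((KK t).tens Q).H n)) :
    ∃ b : Module.Dual (ZMod 2) (Q.H q), (∀ u, b u = w (crsH n (iotaH t) u)) ∧ w = boxF n s b := by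
  obtain ⟨c, hc⟩ := crsH_bilin (KK t) Q t q n
  refine ⟨w.comp (c (iotaH t)), fun u => by rw [LinearMap.comp_apply, hc], ?_⟩
  apply boxF_ext
  intro p' q' h' x hx y hy
  have key : ∀ (hB : x ∈ (KK t).B p'), ∀ F : Module.Dual (ZMod 2) (((KK t).tens Q).H n),
      F (((KK t).tens Q).cls (crs n x y) (crs_mem_Z hx hy)) = 0 := by
    intro hB F
    have e1 : ((KK t).tens Q).cls (crs n x y) (crs_mem_Z hx hy) =
        ((KK t).tens Q).cls 0 (Submodule.zero_mem _) :=
      A3Box_cls_eq _ _ (by rw [add_zero]; exact crs_mem_B_left hB hy)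
    rw [e1]
    exact map_zero F
  rcases KK_homology t p' x hx with hB | ⟨rfl, hB⟩
  · rw [key hB, key hB]
  · obtain rfl : q = q' := by omega
    have hB' : x + KK.iota p' ∈ (KK p').B p' := hB
    have e1 : (KK p').cls x hx = iotaH p' := A3Box_cls_eq hx _ hB'
    rw [boxF_crs h _ _ x hx y hy, e1, hs, one_mul, LinearMap.comp_apply, hc, ← e1, crsH_cls]

private theorem A705_kap_boxF (t : ℕ) {q n : ℕ} (s : Module.Dual (ZMod 2) ((KK t).H t))
    (b : Module.Dual (ZMod 2) ((RV K1).H q)) :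
    (boxF n s b).comp (SV.Hmap (A705kap t) n) =
      cupR n ((s.comp (SV.Hmap (A705c t) t)).comp (SV.Hmap (A705q1 t) t))
        (b.comp (SV.Hmap (A705q2 t) q)) := by
  have e1 : (s.comp (SV.Hmap (A705c t) t)).comp (SV.Hmap (A705q1 t) t) =
      s.comp (SV.Hmap ((A705c t).comp (A705q1 t)) t) := by
    apply LinearMap.ext
    intro x
    show s (SV.Hmap (A705c t) t (SV.Hmap (A705q1 t) t x)) = s (SV.Hmap _ t x)
    rw [SV.Hmap_comp]
  rw [e1]
  unfold cupR
  rw [← boxF_map]
  apply LinearMap.ext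
  intro x
  show boxF n s b (SV.Hmap (A705kap t) n x) = boxF n s b (SV.Hmap _ n (SV.Hmap _ n x))
  rw [← SV.Hmap_comp]
  rfl

private theorem A705_sq (S : SqFam) (t : ℕ) {q n m : ℕ} (h : t + q = n) (hm : t ≤ m)
    (s : Module.Dual (ZMod 2) ((KK t).H t)) (b : Module.Dual (ZMod 2) ((RV K1).H q)) :
    S.op (A705P t) (A705p t) n m ((boxF n s b).comp (SV.Hmap (A705kap t) n)) =
      (boxF m s (S.on K1 q (m - t) b)).comp (SV.Hmap (A705kap t) m) := by
  rw [A705_kap_boxF, A705_kap_boxF, S.cartan _ _ t q n m h, Finset.sum_eq_single t]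
  · rw [S.id]
    congr 1
    exact (S.nat (A705p t) K1.zv (Hom.snd _ _) rfl q (m - t) b).symm
  · intro k _ hk
    have e1 : S.op (A705P t) (A705p t) t k
        ((s.comp (SV.Hmap (A705c t) t)).comp (SV.Hmap (A705q1 t) t)) = 0 := by
      have e2 := S.nat (A705p t) (A705n t) (Hom.fst _ _) rfl t k (s.comp (SV.Hmap (A705c t) t))
      refine e2.symm.trans ?_
      apply LinearMap.ext
      intro x
      show S.op (SpS t) (A705n t) t k (s.comp (SV.Hmap (A705c t) t)) (SV.Hmap _ k x) = 0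
      rw [A705_sphere t k hk (SV.Hmap _ k x), map_zero]
    rw [e1, A705_cupR_zero]
  · intro hk
    exact absurd (Finset.mem_range.2 (by omega)) hk

theorem psi_sq (S : SqFam) {V : SV} {t : ℕ} (f : (MapSV BZ2 K1.zv V).V t)
    (hf : (MapSV BZ2 K1.zv V).Moore f) (n m : ℕ) (hn : t < n) (hm : n ≤ m) (y : RHc V n) :
    S.on V n m y (PsiC f hf m) =
      ((Nat.choose (n - t) (m - n) : ℕ) : ZMod 2) * y (PsiC f hf n) := by
  obtain ⟨s, hs⟩ := A705_exists_s t
  obtain ⟨b, hb, hw⟩ := A705_w (Q := RV K1) (t := t) (q := n - t) (n := n) (by omega) s hs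
    (y.comp (SV.Hmap (psiHom f hf) n))
  have e0 : ∀ (k : ℕ) (c : ((KK t).tens (RV K1)).H k),
      SV.Hmap (psiHom f hf) k c =
        SV.Hmap (R.map (A705p t) V.zv (A705g f hf) rfl) k (SV.Hmap (A705rho t) k c) := by
    intro k c
    rw [A705_g_kap, SV.Hmap_comp, ← SV.Hmap_comp (A705kap t), A705_kap_rho, SV.Hmap_id]
  have e1 : y.comp (SV.Hmap (R.map (A705p t) V.zv (A705g f hf) rfl) n) =
      (boxF n s b).comp (SV.Hmap (A705kap t) n) := by
    rw [← hw]
    apply LinearMap.ext
    intro x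
    show y (SV.Hmap _ n x) = y (SV.Hmap _ n (SV.Hmap _ n x))
    rw [A705_g_kap, SV.Hmap_comp]
  have e2 : S.on V n m y (PsiC f hf m) =
      (S.op (A705P t) (A705p t) n m ((boxF n s b).comp (SV.Hmap (A705kap t) n)))
        (SV.Hmap (A705rho t) m (crsH m (iotaH t) (eB (m - t)))) := by
    unfold PsiC
    rw [e0, ← e1, ← S.nat (A705p t) V.zv (A705g f hf) rfl n m y]
    rfl
  rw [e2, A705_sq S t (by omega) (by omega)]
  show boxF m s (S.on K1 (n - t) (m - t) b) (SV.Hmap (A705kap t) m (SV.Hmap (A705rho t) m _)) = _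
  rw [← SV.Hmap_comp, A705_kap_rho, SV.Hmap_id, A705_boxF_crsH (by omega), hs, one_mul,
    sq_eB S (n - t) (m - t) (by omega) (by omega), hb]
  have e3 : m - t - (n - t) = m - n := by omega
  rw [e3]
  rfl

end MM

end

/-! ### from `Lib_MP_33f7bb_d.A706` -/

section

/-!
# A7-06: the isomorphism `H_t (Map_*(B, V)) ≅ Hom_A (QH V, Σ^t H~)`, `t ≥ 1`

`PsiH D f` = the family `n ↦ (a ↦ (D.e n a) (PsiC f n))` of functionals on `D.am.M n`.
`PsiH_mem`: it lies in `D.am.HomH t`: for `n ≤ t` the class `PsiC f n` is zero (`eB 0 = 0`, or degrees do not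
match); the relation with `Sq` is `psi_sq` (every element of `D.am.M n` is `(D.e n).symm (toQ y)`, as `toQ` is
surjective, `D.comm`); for `n ≤ t` and `m > t`: `Sq` of a class of degree `n ≤ t`... use the relation
`psi_sq'` below: `(Sq y)(PsiC f m) = 0` if `n ≤ t < m`: same proof as `psi_sq` (`g^* y = 0` in `H^n(P)` on the third
summand because `H_n(K'(t) ⊗ R B) = 0` for `n ≤ t`).
`PsiH_inj`: if `PsiH D f = 0` then for every functional `lam` on `V.H n`:  `0 = fundC lam (PsiC f n) =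
lam (Hmap muV (PsiC f n))`; so `Hmap muV (PsiC f n) = 0` for all `n`; the classes `crsH n iota_t e_(n-t)` are all of
`H_n (K'(t) ⊗ R B)` (`KK_tens_surj`, `eq_zero_or_eB`), so `psi_null` applies.
`PsiH_surj`: let `G ∈ D.am.HomH t`.  Choose by `psi_exists` a Moore `f` with
`Hmap muV (PsiC f n) = v_n`, where `v_n ∈ V.H n` is determined by `lam v_n = G n ((D.e n).symm (toQ (fundC lam)))` for all
`lam` (needs `V.H n` finite dimensional: reflexivity), `v_n = 0` for `n ≤ t`.  The set of `a` with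
`PsiH D f n a = G n a` is closed under the operations (both families are in `HomH t`) and contains the fundamental
classes, so it is everything by `hgen`.
-/

open scoped TensorProduct

namespace MM

/-! ### auxiliary -/

/-- a linear simplicial map as a simplicial map -/
private def A706_hom {W V : SV} (F : SVHom W V) : Hom W.ss V.ss :=
  ⟨fun n x => F.app n x, fun f x => F.nat f x⟩

private theorem A706_hom_zv {W V : SV} (F : SVHom W V) : (A706_hom F).app 0 W.zv = V.zv :=
  map_zero (F.app 0)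

private theorem A706_muV {W V : SV} (F : SVHom W V) :
    (muV V).comp (RVmap (A706_hom F) (A706_hom_zv F)) = F.comp (muV W) := by
  apply R.ext
  intro n x
  show (muV V).app n ((RVmap (A706_hom F) (A706_hom_zv F)).app n ((R.of W.zv).app n x)) =
    F.app n ((muV W).app n ((R.of W.zv).app n x))
  rw [R.map_of, muV_of, muV_of]
  rfl

private theorem A706_diag {V V' : SV} (g : Hom V.ss V'.ss) (hg : g.app 0 V.zv = V'.zv) :
    (R.diag V'.zv).comp (RVmap g hg) = ((RVmap g hg).tens (RVmap g hg)).comp (R.diag V.zv) := by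
  apply R.ext
  intro n x
  have e1 : (RVmap g hg).app n ((R.of V.zv).app n x) = (R.of V'.zv).app n (g.app n x) :=
    R.map_of _ _ _ _ _ _
  have e2 : (R.diag V.zv).app n ((R.of V.zv).app n x) =
      ((R.of V.zv).app n x : (RV V).V n) ⊗ₜ[ZMod 2] ((R.of V.zv).app n x : (RV V).V n) :=
    R.lift_of _ _ _ _ _
  have e3 : (R.diag V'.zv).app n ((R.of V'.zv).app n (g.app n x)) =
      ((R.of V'.zv).app n (g.app n x) : (RV V').V n) ⊗ₜ[ZMod 2]
        ((R.of V'.zv).app n (g.app n x) : (RV V').V n) :=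
    R.lift_of _ _ _ _ _
  show (R.diag V'.zv).app n ((RVmap g hg).app n ((R.of V.zv).app n x)) =
    (TensorProduct.map ((RVmap g hg).app n) ((RVmap g hg).app n))
      ((R.diag V.zv).app n ((R.of V.zv).app n x))
  rw [e1, e2, e3, TensorProduct.map_tmul, e1]

private theorem A706_crsH_zero {P Q : SV} {p q : ℕ} (n : ℕ) (x : P.H p) :
    crsH n x (0 : Q.H q) = 0 := by
  obtain ⟨f, hf⟩ := crsH_bilin P Q p q n
  rw [← hf, map_zero]

private theorem A706_PsiC_le {V : SV} {t : ℕ} (f : (MapSV BZ2 K1.zv V).V t)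
    (hf : (MapSV BZ2 K1.zv V).Moore f) (n : ℕ) (hn : n ≤ t) : PsiC f hf n = 0 := by
  have e1 : eB (n - t) = 0 := by
    unfold eB
    rw [dif_neg (by omega)]
  unfold PsiC
  rw [e1, A706_crsH_zero, map_zero]

/-- classes of `K'(t) ⊗ Q` are zero below `t` and products with `iota_t` from `t` on -/
private theorem A706_tens (t : ℕ) (Q : SV) (n : ℕ) (x : ((KK t).tens Q).H n) :
    (n < t ∧ x = 0) ∨ ∃ m, t + m = n ∧ ∃ y : Q.H m, x = crsH n (iotaH t) y := by
  obtain ⟨z, hz, rfl⟩ := A3Box_exists_cls x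
  rcases Nat.lt_or_ge n t with h | h
  · left
    refine ⟨h, A3Box_cls_zero ?_ hz⟩
    have h1 : ∀ u : ((KK t).tens Q).V n, u = 0 := by
      intro u
      induction u using TensorProduct.induction_on with
      | zero => rfl
      | tmul x y => rw [KK_V_eq_zero t n h x, TensorProduct.zero_tmul]
      | add x y hx hy => rw [hx, hy, add_zero]
    exact h1 z
  · right
    obtain ⟨m, rfl⟩ : ∃ m, n = t + m := ⟨n - t, by omega⟩
    obtain ⟨y, hy, h2⟩ := KK_tens_surj t Q m (t + m) rfl z hz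
    refine ⟨m, rfl, Q.cls y hy, ?_⟩
    unfold iotaH
    rw [crsH_cls]
    exact A3Box_cls_eq _ _ h2

private theorem A706_H_low (t n : ℕ) (hn : n ≤ t) (x : ((KK t).tens (RV K1)).H n) : x = 0 := by
  rcases A706_tens t (RV K1) n x with ⟨-, h⟩ | ⟨m, hm, y, rfl⟩
  · exact h
  · obtain rfl : m = 0 := by omega
    rw [RVK1_zero y, A706_crsH_zero]

private theorem A706_gen (t n : ℕ) (x : ((KK t).tens (RV K1)).H n) :
    x = 0 ∨ x = crsH n (iotaH t) (eB (n - t)) := by
  rcases A706_tens t (RV K1) n x with ⟨-, h⟩ | ⟨m, hm, y, rfl⟩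
  · exact Or.inl h
  · obtain rfl : m = n - t := by omega
    rcases eq_zero_or_eB (n - t) y with h | h
    · left
      rw [h, A706_crsH_zero]
    · right
      rw [← h]

private theorem A706_ne (t n : ℕ) (hn : t < n) : crsH n (iotaH t) (eB (n - t)) ≠ 0 := by
  intro h
  obtain ⟨z, hz, he⟩ := A3Box_exists_cls (eB (n - t))
  rw [← he] at h
  unfold iotaH at h
  rw [crsH_cls] at h
  have h0 : ((KK t).tens (RV K1)).cls (crs n (KK.iota t) z) (crs_mem_Z (KK_iota_mem_Z t) hz) =
      ((KK t).tens (RV K1)).cls 0 (Submodule.zero_mem _) := h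
  have h1 := A3Box_cls_rel h0
  rw [add_zero] at h1
  have h2 := KK_tens_inj t (RV K1) (n - t) n (by omega) z hz h1
  apply eB_ne_zero (n - t) (by omega)
  rw [← he]
  have h3 : (RV K1).cls z hz = (RV K1).cls 0 (Submodule.zero_mem _) :=
    A3Box_cls_eq hz _ (by rwa [add_zero])
  rw [h3]
  rfl

private theorem A706_toQ_surj {V : SV} {n : ℕ} (q : QH V n) : ∃ y : RHc V n, toQ y = q := by
  obtain ⟨y, hy⟩ := LinearMap.exists_extend (p := PH V n) q
  exact ⟨y, hy⟩

private theorem A706_toQ_apply {V : SV} {n : ℕ} (y : RHc V n) (x : PH V n) :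
    toQ y x = y x.1 := rfl

private theorem A706_low {W V : SV} (g : Hom W.ss V.ss) (hg : g.app 0 W.zv = V.zv) (n : ℕ)
    (h : ∀ w, g.app n w = (0 : V.V n)) (z : (RV W).V n) : (RVmap g hg).app n z = 0 := by
  have hz' : z ∈ Submodule.span (ZMod 2) (Set.range ((R.of W.zv).app n)) := by
    rw [R.span]; trivial
  induction hz' using Submodule.span_induction with
  | zero => rw [map_zero]
  | add a b _ _ ha hb => rw [map_add, ha, hb, add_zero]
  | smul r a _ ha => rw [map_smul, ha, smul_zero]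
  | mem b hb =>
    obtain ⟨w, rfl⟩ := hb
    rw [R.map_of, h w]
    have h1 := R.of_base V.zv n
    have h2 : V.ss.deg V.zv n = (0 : V.V n) := map_zero (V.act _)
    rw [h2] at h1
    exact h1

/-- two homotopic linear maps agree in homology -/
private theorem A706_Hmap {P Q : SV} {f g : SVHom P Q} (h : LHtp f g) (n : ℕ) (x : P.H n) :
    SV.Hmap f n x = SV.Hmap g n x := by
  obtain ⟨z, hz, rfl⟩ := A3Box_exists_cls x
  rw [SV.Hmap_cls, SV.Hmap_cls]
  exact A3Box_cls_eq _ _ ((lhtp_iff _ _).1 h n z hz)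

theorem psi_sq' (S : SqFam) {V : SV} {t : ℕ} (f : (MapSV BZ2 K1.zv V).V t)
    (hf : (MapSV BZ2 K1.zv V).Moore f) (n m : ℕ) (hn : n ≤ t) (y : RHc V n) :
    S.on V n m y (PsiC f hf m) = 0 := by
  -- the universal case `W = K'(t) ⊗ R B` is `t`-connected
  obtain ⟨H, H0, H1⟩ := lowcon ((KK t).tens (RV K1)) t (by
    intro j hj z hz
    have h1 := A706_H_low t j hj (((KK t).tens (RV K1)).cls z hz)
    have h2 : ((KK t).tens (RV K1)).cls z hz =
        ((KK t).tens (RV K1)).cls 0 (Submodule.zero_mem _) := h1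
    have h3 := A3Box_cls_rel h2
    rwa [add_zero] at h3)
  let e : SVHom ((KK t).tens (RV K1)) ((KK t).tens (RV K1)) :=
    ⟨fun k => H.app k (cst 1), fun {k l} g x => by
      have h1 := H.nat g (cst 1) x
      have h2 : (cst 1 : Mo l 1).comp g = cst 1 := rfl
      rw [h2] at h1
      exact h1⟩
  have he : LHtp (SVHom.id _) e := ⟨H, H0, fun _ _ => rfl⟩
  let F : SVHom ((KK t).tens (RV K1)) V := (muV V).comp (psiHom f hf)
  let F' : SVHom ((KK t).tens (RV K1)) V := F.comp e
  obtain ⟨fu, hu, hid⟩ := psi_exists (Z := BZ2) (z₀ := K1.zv) (V := (KK t).tens (RV K1)) (t := t)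
    (fun k => LinearMap.id)
  have hM := moore_comp (A706_hom F') (A706_hom_zv F') fu hu
  have hB : f + (MapSV.comp (A706_hom F') (A706_hom_zv F')).app t fu ∈
      (MapSV BZ2 K1.zv V).B t := by
    refine psi_muV_injective f _ hf hM fun k x => ?_
    rw [psi_comp (A706_hom F') (A706_hom_zv F') fu hu,
      SV.Hmap_comp (RVmap (A706_hom F') (A706_hom_zv F')),
      ← SV.Hmap_comp (muV V) (RVmap (A706_hom F') (A706_hom_zv F')), A706_muV,
      SV.Hmap_comp F', hid]
    show _ = SV.Hmap (F.comp e) k x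
    rw [SV.Hmap_comp F e, ← A706_Hmap he, SV.Hmap_id]
    show _ = SV.Hmap ((muV V).comp (psiHom f hf)) k x
    rw [SV.Hmap_comp]
  have hP : PsiC f hf m = SV.Hmap (RVmap (A706_hom F') (A706_hom_zv F')) m (PsiC fu hu m) := by
    unfold PsiC
    rw [psi_congr f _ hf hM hB, psi_comp (A706_hom F') (A706_hom_zv F') fu hu, SV.Hmap_comp]
  have h0 : y.comp (SV.Hmap (RVmap (A706_hom F') (A706_hom_zv F')) n) = 0 := by
    apply LinearMap.ext
    intro x
    obtain ⟨z, hz, rfl⟩ := A3Box_exists_cls x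
    have h1 : (RVmap (A706_hom F') (A706_hom_zv F')).app n z = 0 := by
      refine A706_low _ _ n (fun w => ?_) z
      show F.app n (H.app n (cst 1) w) = 0
      rw [H1 n hn, map_zero]
    rw [LinearMap.comp_apply, SV.Hmap_cls, A3Box_cls_zero h1, map_zero]
    rfl
  rw [hP]
  have h2 := S.nat ((KK t).tens (RV K1)).zv V.zv (A706_hom F') (A706_hom_zv F') n m y
  have h3 := LinearMap.congr_fun h2 (PsiC fu hu m)
  refine h3.trans ?_
  rw [h0, map_zero]
  rfl

/-- the family of functionals associated with a Moore element, `t ≥ 1` -/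
noncomputable def PsiH {S : SqFam} {V : SV} (D : QHData S V) {t : ℕ} (ht : 1 ≤ t)
    (f : (MapSV BZ2 K1.zv V).V t) (hf : (MapSV BZ2 K1.zv V).Moore f) (n : ℕ) :
    Module.Dual (ZMod 2) (D.am.M n) where
  toFun a := D.e n a ⟨PsiC f hf n, psi_prim ht f hf n _⟩
  map_add' a b := by rw [map_add]; rfl
  map_smul' c a := by rw [map_smul]; rfl

theorem PsiH_mem {S : SqFam} {V : SV} (D : QHData S V) {t : ℕ} (ht : 1 ≤ t)
    (f : (MapSV BZ2 K1.zv V).V t) (hf : (MapSV BZ2 K1.zv V).Moore f) :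
    PsiH D ht f hf ∈ D.am.HomH t := by
  have h0 : ∀ n, n ≤ t → PsiH D ht f hf n = 0 := by
    intro n hn
    apply LinearMap.ext
    intro a
    show D.e n a ⟨PsiC f hf n, _⟩ = 0
    have h1 : (⟨PsiC f hf n, psi_prim ht f hf n _⟩ : PH V n) = 0 :=
      Subtype.ext (A706_PsiC_le f hf n hn)
    rw [h1, map_zero]
  refine ⟨h0, fun n m x hnm => ?_⟩
  obtain ⟨y, hy⟩ := A706_toQ_surj (D.e n x)
  have hx : x = (D.e n).symm (toQ y) := by rw [hy, LinearEquiv.symm_apply_apply]
  have e1 : PsiH D ht f hf m (D.am.Sq n m x) = S.on V n m y (PsiC f hf m) := by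
    show D.e m (D.am.Sq n m x) ⟨PsiC f hf m, _⟩ = _
    rw [hx, D.comm]
    rfl
  have e2 : PsiH D ht f hf n x = y (PsiC f hf n) := by
    show D.e n x ⟨PsiC f hf n, _⟩ = _
    rw [← hy]
    rfl
  rcases Nat.lt_or_ge t n with h | h
  · rw [e1, e2, psi_sq S f hf n m h hnm y]
  · rw [e1, psi_sq' S f hf n m h y, h0 n h, LinearMap.zero_apply, mul_zero]

theorem PsiH_add {S : SqFam} {V : SV} (D : QHData S V) {t : ℕ} (ht : 1 ≤ t)
    (f f' : (MapSV BZ2 K1.zv V).V t) (hf : (MapSV BZ2 K1.zv V).Moore f)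
    (hf' : (MapSV BZ2 K1.zv V).Moore f') :
    PsiH D ht (f + f') (moore_add hf hf') = PsiH D ht f hf + PsiH D ht f' hf' := by
  funext n
  apply LinearMap.ext
  intro a
  show D.e n a ⟨PsiC (f + f') (moore_add hf hf') n, _⟩ =
    D.e n a ⟨PsiC f hf n, _⟩ + D.e n a ⟨PsiC f' hf' n, _⟩
  rw [← map_add]
  congr 1
  exact Subtype.ext (psi_add ht f f' hf hf' n _)

theorem PsiH_congr {S : SqFam} {V : SV} (D : QHData S V) {t : ℕ} (ht : 1 ≤ t)
    (f f' : (MapSV BZ2 K1.zv V).V t) (hf : (MapSV BZ2 K1.zv V).Moore f)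
    (hf' : (MapSV BZ2 K1.zv V).Moore f') (h : f + f' ∈ (MapSV BZ2 K1.zv V).B t) :
    PsiH D ht f hf = PsiH D ht f' hf' := by
  funext n
  apply LinearMap.ext
  intro a
  show D.e n a ⟨PsiC f hf n, _⟩ = D.e n a ⟨PsiC f' hf' n, _⟩
  congr 1
  apply Subtype.ext
  show PsiC f hf n = PsiC f' hf' n
  unfold PsiC
  rw [psi_congr f f' hf hf' h n]

private theorem A706_fund {S : SqFam} {V : SV} (D : QHData S V) {t : ℕ} (ht : 1 ≤ t)
    (f : (MapSV BZ2 K1.zv V).V t) (hf : (MapSV BZ2 K1.zv V).Moore f) (n : ℕ)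
    (lam : Module.Dual (ZMod 2) (V.H n)) :
    PsiH D ht f hf n ((D.e n).symm (toQ (fundC lam))) =
      lam (SV.Hmap (muV V) n (SV.Hmap (psiHom f hf) n (crsH n (iotaH t) (eB (n - t))))) := by
  show D.e n ((D.e n).symm (toQ (fundC lam))) ⟨PsiC f hf n, _⟩ = _
  rw [LinearEquiv.apply_symm_apply]
  rfl

theorem PsiH_inj {S : SqFam} {V : SV} (D : QHData S V) {t : ℕ} (ht : 1 ≤ t)
    (f : (MapSV BZ2 K1.zv V).V t) (hf : (MapSV BZ2 K1.zv V).Moore f)
    (h : PsiH D ht f hf = 0) : f ∈ (MapSV BZ2 K1.zv V).B t := by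
  refine psi_null f hf fun n x => ?_
  rcases A706_gen t n x with rfl | rfl
  · rw [map_zero, map_zero]
  rw [← Module.forall_dual_apply_eq_zero_iff (ZMod 2)]
  intro lam
  rw [← A706_fund D ht f hf n lam, h]
  rfl

/-- the fundamental classes generate `QH V` under the operations -/
def QHData.Gen {S : SqFam} {V : SV} (D : QHData S V) : Prop :=
  ∀ N : ∀ n, Submodule (ZMod 2) (D.am.M n),
    (∀ n m, ∀ x ∈ N n, D.am.Sq n m x ∈ N m) →
    (∀ n (lam : Module.Dual (ZMod 2) (V.H n)), (D.e n).symm (toQ (fundC lam)) ∈ N n) →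
    ∀ n, N n = ⊤

theorem PsiH_surj {S : SqFam} {V : SV} (D : QHData S V) (hgen : D.Gen)
    (hfin : ∀ n, Module.Finite (ZMod 2) (V.H n)) {t : ℕ} (ht : 1 ≤ t)
    (G : ∀ n, Module.Dual (ZMod 2) (D.am.M n)) (hG : G ∈ D.am.HomH t) :
    ∃ (f : (MapSV BZ2 K1.zv V).V t) (hf : (MapSV BZ2 K1.zv V).Moore f), PsiH D ht f hf = G := by
  -- the values
  have hv : ∀ n, ∃ v : V.H n, ∀ lam : Module.Dual (ZMod 2) (V.H n),
      lam v = G n ((D.e n).symm (toQ (fundC lam))) := by
    intro n
    have := hfin n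
    let L : Module.Dual (ZMod 2) (V.H n) →ₗ[ZMod 2] ZMod 2 :=
      (G n).comp ((D.e n).symm.toLinearMap.comp
        (toQ.comp ((SV.Hmap (muV V) n).dualMap)))
    obtain ⟨v, hv⟩ := (Module.evalEquiv (ZMod 2) (V.H n)).surjective L
    refine ⟨v, fun lam => ?_⟩
    have h1 := LinearMap.congr_fun hv lam
    exact h1
  choose v hv using hv
  have hφ : ∀ n, ∃ φ : ((KK t).tens (RV K1)).H n →ₗ[ZMod 2] V.H n,
      φ (crsH n (iotaH t) (eB (n - t))) = v n := by
    intro n
    rcases Nat.lt_or_ge t n with h | h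
    · have h1 := A706_ne t n h
      obtain ⟨s, hs⟩ : ∃ s : Module.Dual (ZMod 2) (((KK t).tens (RV K1)).H n),
          s (crsH n (iotaH t) (eB (n - t))) ≠ 0 := by
        by_contra hcon
        push Not at hcon
        exact h1 ((Module.forall_dual_apply_eq_zero_iff (ZMod 2) _).1 hcon)
      have h2 : s (crsH n (iotaH t) (eB (n - t))) = 1 := by
        have h4 : ∀ c : ZMod 2, c ≠ 0 → c = 1 := by decide
        exact h4 _ hs
      refine ⟨s.smulRight (v n), ?_⟩
      rw [LinearMap.smulRight_apply, h2, one_smul]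
    · refine ⟨0, ?_⟩
      rw [LinearMap.zero_apply]
      symm
      rw [← Module.forall_dual_apply_eq_zero_iff (ZMod 2)]
      intro lam
      rw [hv, hG.1 n h]
      rfl
  choose φ hφ using hφ
  obtain ⟨f, hf, hfφ⟩ := psi_exists (Z := BZ2) (z₀ := K1.zv) (V := V) (t := t) φ
  refine ⟨f, hf, ?_⟩
  have hF := PsiH_mem D ht f hf
  have key := hgen (fun n => LinearMap.eqLocus (PsiH D ht f hf n) (G n)) (by
    intro n m x hx
    show PsiH D ht f hf m (D.am.Sq n m x) = G m (D.am.Sq n m x)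
    have hx' : PsiH D ht f hf n x = G n x := hx
    rcases Nat.lt_or_ge m n with h | h
    · rw [D.am.Sq_lt n m h, LinearMap.zero_apply, map_zero, map_zero]
    · rw [hF.2 n m x h, hG.2 n m x h, hx']) (by
    intro n lam
    show PsiH D ht f hf n ((D.e n).symm (toQ (fundC lam))) = G n _
    rw [A706_fund, hfφ, hφ, hv])
  funext n
  apply LinearMap.ext
  intro x
  have h1 : x ∈ LinearMap.eqLocus (PsiH D ht f hf n) (G n) := by
    rw [key n]; trivial
  exact h1

/-! ## naturality -/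

/-- the map of primitives induced by a pointed simplicial map -/
theorem PH_map {V V' : SV} (g : Hom V.ss V'.ss) (hg : g.app 0 V.zv = V'.zv) (n : ℕ)
    (x : (RV V).H n) (hx : x ∈ PH V n) : SV.Hmap (RVmap g hg) n x ∈ PH V' n := by
  have hx' : SV.Hmap (R.diag V.zv) n x = 0 := hx
  show SV.Hmap (R.diag V'.zv) n (SV.Hmap (RVmap g hg) n x) = 0
  rw [← SV.Hmap_comp, A706_diag, SV.Hmap_comp, hx', map_zero]

/-- the induced map of indecomposables -/
noncomputable def QHmapL {V V' : SV} (g : Hom V.ss V'.ss) (hg : g.app 0 V.zv = V'.zv) (n : ℕ) :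
    QH V' n →ₗ[ZMod 2] QH V n :=
  ((SV.Hmap (RVmap g hg) n).restrict (PH_map g hg n)).dualMap

theorem QHmap_comm {S : SqFam} {V V' : SV} (D : QHData S V) (D' : QHData S V')
    (g : Hom V.ss V'.ss) (hg : g.app 0 V.zv = V'.zv) (n m : ℕ) (x : D'.am.M n) :
    (D.e m).symm (QHmapL g hg m (D'.e m (D'.am.Sq n m x))) =
      D.am.Sq n m ((D.e n).symm (QHmapL g hg n (D'.e n x))) := by
  have hq : ∀ (k : ℕ) (z : RHc V' k),
      QHmapL g hg k (toQ z) = toQ (z.comp (SV.Hmap (RVmap g hg) k)) := fun k z => rfl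
  obtain ⟨y, hy⟩ := A706_toQ_surj (D'.e n x)
  have hx : x = (D'.e n).symm (toQ y) := by rw [hy, LinearEquiv.symm_apply_apply]
  have h1 := D'.comm n m y
  rw [← hx] at h1
  rw [h1, ← hy, hq, hq, LinearEquiv.symm_apply_eq, D.comm]
  congr 1
  exact S.nat V.zv V'.zv g hg n m y

/-- the induced map as an `AMHom` -/
noncomputable def QHmap {S : SqFam} {V V' : SV} (D : QHData S V) (D' : QHData S V')
    (g : Hom V.ss V'.ss) (hg : g.app 0 V.zv = V'.zv) : AMHom D'.am D.am :=
  ⟨fun n => ((D.e n).symm.toLinearMap.comp (QHmapL g hg n)).comp (D'.e n).toLinearMap,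
    fun n m x => QHmap_comm D D' g hg n m x⟩

theorem PsiH_comp {S : SqFam} {V V' : SV} (D : QHData S V) (D' : QHData S V')
    (g : Hom V.ss V'.ss) (hg : g.app 0 V.zv = V'.zv) {t : ℕ} (ht : 1 ≤ t)
    (f : (MapSV BZ2 K1.zv V).V t) (hf : (MapSV BZ2 K1.zv V).Moore f) (n : ℕ) (x : D'.am.M n) :
    PsiH D' ht ((MapSV.comp g hg).app t f) (moore_comp g hg f hf) n x =
      PsiH D ht f hf n ((QHmap D D' g hg).app n x) := by
  show D'.e n x ⟨PsiC ((MapSV.comp g hg).app t f) (moore_comp g hg f hf) n, _⟩ =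
    D.e n ((D.e n).symm (QHmapL g hg n (D'.e n x))) ⟨PsiC f hf n, _⟩
  rw [LinearEquiv.apply_symm_apply]
  show _ = D'.e n x ⟨SV.Hmap (RVmap g hg) n (PsiC f hf n), _⟩
  congr 1
  apply Subtype.ext
  show PsiC ((MapSV.comp g hg).app t f) (moore_comp g hg f hf) n =
    SV.Hmap (RVmap g hg) n (PsiC f hf n)
  unfold PsiC
  rw [psi_comp, SV.Hmap_comp]

end MM

end

/-! ### from `Lib_MP_33f7bb_d.A7IF` -/

section

/-!
# Interfaces A3/A4/A6 for part A7

`S2Prop` (helper15), `HomExactProp` (helper3), boundedness in the form used by A7: `BndProp`.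
-/

namespace MM

/-- structure of the indecomposables of the cohomology of `V` (part A4, S2) -/
def S2Prop (S : SqFam) : Prop :=
  ∀ V : SV, (∀ n, Finite (V.V n)) → (∀ x : V.H 0, x = 0) →
    ∃ D : QHData S V, D.Gen ∧
      ∃ (ι : Type) (a : ι → ℕ), Nonempty (IsSusp (AM.dsum fun l => EAM (a l)) D.am)

/-- injectivity (part A6) -/
def HomExactProp : Prop :=
  ∀ (M : ℕ → AM) (δ : ∀ s, AMHom (M (s + 1)) (M s)),
    (∀ s n x, (δ s).app n ((δ (s + 1)).app n x) = 0) →
    (∀ s, ∃ (ι : Type) (a : ι → ℕ), Nonempty (IsSusp (AM.dsum fun l => EAM (a l)) (M s))) →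
    (∀ s n, Module.Finite (ZMod 2) ((M s).M n)) →
    (∃ D, ∀ n, D < n → ∀ x : (M 0).M n, ∃ y, (δ 0).app n y = x) →
    (∀ s, ∃ D, ∀ n, D < n → ∀ x : (M (s + 1)).M n, (δ s).app n x = 0 →
      ∃ y, (δ (s + 1)).app n y = x) →
    ∀ t, 1 ≤ t →
      (∀ f ∈ (M 0).HomH t, (∀ n x, f n ((δ 0).app n x) = 0) → f = 0) ∧
      ∀ s, ∀ f ∈ (M (s + 1)).HomH t, (∀ n x, f n ((δ (s + 1)).app n x) = 0) →
        ∃ g ∈ (M s).HomH t, ∀ n x, f n x = g n ((δ s).app n x)

/-- the sum of the maps induced on indecomposables by the cofaces -/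
noncomputable def QHd {V V' : SV} {k : ℕ} (d : Fin k → Hom V.ss V'.ss)
    (hd : ∀ i, (d i).app 0 V.zv = V'.zv) (n : ℕ) : QH V' n →ₗ[ZMod 2] QH V n :=
  ∑ i, QHmapL (d i) (hd i) n

/-- boundedness of the homology of `s ↦ QH (V s)` (part A5) -/
def BndProp (V : ℕ → SV) (dV : ∀ s, Fin (s + 2) → Hom (V s).ss (V (s + 1)).ss)
    (hd : ∀ s i, (dV s i).app 0 (V s).zv = (V (s + 1)).zv) : Prop :=
  (∃ D, ∀ n, D < n → ∀ x : QH (V 0) n, ∃ y : QH (V 1) n, QHd (dV 0) (hd 0) n y = x) ∧
  ∀ s, ∃ D, ∀ n, D < n → ∀ x : QH (V (s + 1)) n, QHd (dV s) (hd s) n x = 0 →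
    ∃ y : QH (V (s + 2)) n, QHd (dV (s + 1)) (hd (s + 1)) n y = x

end MM

end

/-! ### from `Lib_MP_33f7bb_d.S6B` -/

section

/-!
# S6B: radial expansion of a face and excision

`radH F`: `h(s, x) = β + L (x - β)`, `β` the barycentre of `F`, `L = 1 + s (λ(x) - 1)`,
`λ(x) = 1/(1 - |F| min(μ x, c))`, `μ x = min_{i ∈ F} x_i`, `c = 1/(2|F|)`.
-/

namespace MM

variable {n : ℕ}

/-- minimal coordinate in `F` -/
noncomputable def muF (F : Finset (Fin (n + 1))) (hF : F.Nonempty) (x : Dtop n) : ℝ :=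
  F.inf' hF fun i => x.1 i

theorem muF_cont (F : Finset (Fin (n + 1))) (hF : F.Nonempty) : Continuous (muF F hF) := by
  unfold muF
  refine Continuous.finset_inf'_apply hF fun i _ => ?_
  exact (continuous_apply i).comp continuous_subtype_val

theorem muF_nonneg (F : Finset (Fin (n + 1))) (hF : F.Nonempty) (x : Dtop n) :
    0 ≤ muF F hF x := by
  unfold muF
  rw [Finset.le_inf'_iff]
  exact fun i _ => Dtop_nonneg x i

theorem muF_le (F : Finset (Fin (n + 1))) (hF : F.Nonempty) (x : Dtop n) {i : Fin (n + 1)}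
    (hi : i ∈ F) : muF F hF x ≤ x.1 i := Finset.inf'_le _ hi

theorem muF_exists (F : Finset (Fin (n + 1))) (hF : F.Nonempty) (x : Dtop n) :
    ∃ i ∈ F, muF F hF x = x.1 i := Finset.exists_mem_eq_inf' hF _

/-- expansion factor -/
noncomputable def lamF (F : Finset (Fin (n + 1))) (hF : F.Nonempty) (x : Dtop n) : ℝ :=
  1 / (1 - F.card * min (muF F hF x) (1 / (2 * F.card)))

theorem lamF_den (F : Finset (Fin (n + 1))) (hF : F.Nonempty) (x : Dtop n) :
    1 / 2 ≤ 1 - F.card * min (muF F hF x) (1 / (2 * F.card)) := by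
  have hc : (0 : ℝ) < F.card := by exact_mod_cast hF.card_pos
  have h1 : F.card * min (muF F hF x) (1 / (2 * F.card)) ≤ F.card * (1 / (2 * F.card)) :=
    mul_le_mul_of_nonneg_left (min_le_right _ _) hc.le
  have h2 : (F.card : ℝ) * (1 / (2 * F.card)) = 1 / 2 := by field_simp
  linarith

theorem lamF_den' (F : Finset (Fin (n + 1))) (hF : F.Nonempty) (x : Dtop n) :
    1 - F.card * min (muF F hF x) (1 / (2 * F.card)) ≤ 1 := by
  have hc : (0 : ℝ) < F.card := by exact_mod_cast hF.card_pos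
  have h1 : 0 ≤ F.card * min (muF F hF x) (1 / (2 * F.card)) :=
    mul_nonneg hc.le (le_min (muF_nonneg F hF x) (by positivity))
  linarith

theorem lamF_cont (F : Finset (Fin (n + 1))) (hF : F.Nonempty) : Continuous (lamF F hF) := by
  unfold lamF
  refine Continuous.div continuous_const ?_ fun x => ?_
  · exact continuous_const.sub (continuous_const.mul ((muF_cont F hF).min continuous_const))
  · have := lamF_den F hF x
    linarith

theorem one_le_lamF (F : Finset (Fin (n + 1))) (hF : F.Nonempty) (x : Dtop n) :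
    1 ≤ lamF F hF x := by
  unfold lamF
  rw [le_div_iff₀ (by linarith [lamF_den F hF x])]
  linarith [lamF_den' F hF x]

/-- barycentre of `F` -/
noncomputable def betF (F : Finset (Fin (n + 1))) (i : Fin (n + 1)) : ℝ :=
  if i ∈ F then 1 / F.card else 0

theorem betF_sum (F : Finset (Fin (n + 1))) (hF : F.Nonempty) : ∑ i, betF F i = 1 := by
  have hc : (F.card : ℝ) ≠ 0 := by exact_mod_cast hF.card_pos.ne'
  unfold betF
  rw [Finset.sum_ite_mem, Finset.univ_inter, Finset.sum_const, nsmul_eq_mul]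
  field_simp

theorem rad_nonneg (F : Finset (Fin (n + 1))) (hF : F.Nonempty) (x : Dtop n) {L : ℝ}
    (h1 : 1 ≤ L) (h2 : L ≤ lamF F hF x) (i : Fin (n + 1)) :
    0 ≤ betF F i + L * (x.1 i - betF F i) := by
  have hc : (0 : ℝ) < F.card := by exact_mod_cast hF.card_pos
  unfold betF
  split_ifs with hi
  · rcases le_total (1 / (F.card : ℝ)) (x.1 i) with h | h
    · have : 0 ≤ L * (x.1 i - 1 / F.card) := mul_nonneg (by linarith) (by linarith)
      have : (0 : ℝ) < 1 / F.card := by positivity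
      linarith
    · have h3 : L * (1 / F.card - x.1 i) ≤ lamF F hF x * (1 / F.card - x.1 i) :=
        mul_le_mul_of_nonneg_right h2 (by linarith)
      have h4 : lamF F hF x * (1 / F.card - x.1 i) ≤ 1 / F.card := by
        unfold lamF
        rw [div_mul_eq_mul_div, one_mul, div_le_iff₀ (by linarith [lamF_den F hF x])]
        have h5 : min (muF F hF x) (1 / (2 * F.card)) ≤ x.1 i :=
          (min_le_left _ _).trans (muF_le F hF x hi)
        have h6 : 1 / (F.card : ℝ) * (1 - F.card * min (muF F hF x) (1 / (2 * F.card))) =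
            1 / F.card - min (muF F hF x) (1 / (2 * F.card)) := by
          field_simp
        rw [h6]
        linarith
      have h7 : L * (x.1 i - 1 / F.card) = -(L * (1 / F.card - x.1 i)) := by ring
      rw [h7]
      linarith
  · rw [sub_zero, zero_add]
    exact mul_nonneg (by linarith) (Dtop_nonneg x i)

theorem rad_L (F : Finset (Fin (n + 1))) (hF : F.Nonempty) (s : Dtop 1) (x : Dtop n) :
    1 ≤ 1 + s.1 1 * (lamF F hF x - 1) ∧ 1 + s.1 1 * (lamF F hF x - 1) ≤ lamF F hF x := by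
  have h0 := Dtop_nonneg s 1
  have h1 := Dtop_le s 1
  have h2 := one_le_lamF F hF x
  constructor <;> nlinarith

/-- the radial expansion -/
noncomputable def radH (F : Finset (Fin (n + 1))) (hF : F.Nonempty) :
    C(Dtop 1 × Dtop n, Dtop n) :=
  ⟨fun p => ⟨fun i => betF F i + (1 + p.1.1 1 * (lamF F hF p.2 - 1)) * (p.2.1 i - betF F i), by
      refine ⟨fun i => rad_nonneg F hF p.2 (rad_L F hF p.1 p.2).1 (rad_L F hF p.1 p.2).2 i, ?_⟩
      rw [Finset.sum_add_distrib, ← Finset.mul_sum, Finset.sum_sub_distrib, betF_sum F hF,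
        p.2.2.2]
      ring⟩, by
    refine Continuous.subtype_mk ?_ _
    refine continuous_pi fun j => ?_
    have c1 : Continuous fun p : Dtop 1 × Dtop n => p.1.1 1 :=
      (continuous_apply (1 : Fin 2)).comp (continuous_subtype_val.comp continuous_fst)
    have c2 : Continuous fun p : Dtop 1 × Dtop n => p.2.1 j :=
      (continuous_apply j).comp (continuous_subtype_val.comp continuous_snd)
    have c3 : Continuous fun p : Dtop 1 × Dtop n => lamF F hF p.2 :=
      (lamF_cont F hF).comp continuous_snd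
    exact continuous_const.add ((continuous_const.add (c1.mul (c3.sub continuous_const))).mul
      (c2.sub continuous_const))⟩

theorem radH_apply (F : Finset (Fin (n + 1))) (hF : F.Nonempty) (s : Dtop 1) (x : Dtop n)
    (i : Fin (n + 1)) : (radH F hF (s, x)).1 i =
      betF F i + (1 + s.1 1 * (lamF F hF x - 1)) * (x.1 i - betF F i) := rfl

theorem radH_zero (F : Finset (Fin (n + 1))) (hF : F.Nonempty) (x : Dtop n) :
    radH F hF (vtx 0, x) = x := by
  refine Subtype.ext (funext fun i => ?_)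
  rw [radH_apply, vtx_apply, if_neg (by decide : ¬ (1 : Fin 2) = 0)]
  ring

theorem radH_fix (F : Finset (Fin (n + 1))) (hF : F.Nonempty) (s : Dtop 1) (x : Dtop n)
    (hx : muF F hF x = 0) : radH F hF (s, x) = x := by
  have hc : (0 : ℝ) < F.card := by exact_mod_cast hF.card_pos
  have h1 : lamF F hF x = 1 := by
    unfold lamF
    rw [hx, min_eq_left (by positivity), mul_zero, sub_zero, div_one]
  refine Subtype.ext (funext fun i => ?_)
  rw [radH_apply, h1]
  ring

theorem radH_face (F : Finset (Fin (n + 1))) (hF : F.Nonempty) (s : Dtop 1) (x : Dtop n)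
    (hx : ∀ i, i ∉ F → x.1 i = 0) (i : Fin (n + 1)) (hi : i ∉ F) :
    (radH F hF (s, x)).1 i = 0 := by
  rw [radH_apply, hx i hi]
  unfold betF
  rw [if_neg hi]
  ring

theorem muF_le_inv (F : Finset (Fin (n + 1))) (hF : F.Nonempty) (x : Dtop n) :
    muF F hF x ≤ 1 / F.card := by
  have hc : (0 : ℝ) < F.card := by exact_mod_cast hF.card_pos
  rw [le_div_iff₀ hc, mul_comm]
  have h1 : ∑ i ∈ F, muF F hF x ≤ ∑ i ∈ F, x.1 i :=
    Finset.sum_le_sum fun i hi => muF_le F hF x hi
  rw [Finset.sum_const, nsmul_eq_mul] at h1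
  refine h1.trans ?_
  rw [← Dtop_sum x]
  exact Finset.sum_le_sum_of_subset_of_nonneg (Finset.subset_univ _)
    fun i _ _ => Dtop_nonneg x i

theorem muF_radH (F : Finset (Fin (n + 1))) (hF : F.Nonempty) (s : Dtop 1) (x : Dtop n) :
    muF F hF (radH F hF (s, x)) ≤ muF F hF x := by
  obtain ⟨i, hi, h⟩ := muF_exists F hF x
  refine (muF_le F hF _ hi).trans ?_
  rw [radH_apply, h]
  have h1 := muF_le_inv F hF x
  rw [h] at h1
  unfold betF
  rw [if_pos hi]
  have h2 := (rad_L F hF s x).1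
  nlinarith

theorem radH_one (F : Finset (Fin (n + 1))) (hF : F.Nonempty) (x : Dtop n)
    (hx : muF F hF x ≤ 1 / (2 * F.card)) : ∃ i ∈ F, (radH F hF (vtx 1, x)).1 i = 0 := by
  obtain ⟨i, hi, h⟩ := muF_exists F hF x
  refine ⟨i, hi, ?_⟩
  have hc : (0 : ℝ) < F.card := by exact_mod_cast hF.card_pos
  have hd := lamF_den F hF x
  rw [radH_apply, vtx_apply, if_pos rfl, ← h]
  unfold betF lamF
  rw [if_pos hi]
  rw [min_eq_left hx] at hd ⊢
  have hd' : (1 : ℝ) - F.card * muF F hF x ≠ 0 := by linarith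
  field_simp
  ring

/-- excision for a maximal face -/
theorem acyc_excision (K : Finset (Finset (Fin (n + 1)))) (F : Finset (Fin (n + 1)))
    (hF : F.Nonempty) (h1 : ∀ G, G ⊂ F → G.Nonempty → ∃ G' ∈ K, G ⊆ G') (h2 : ∀ G ∈ K, ¬ F ⊆ G) :
    Acyc (SingIn (cxT K) ⊔ SingIn (cxT {F})) (SingIn (cxT K ∪ cxT {F})) := by
  classical
  have hc : (0 : ℝ) < F.card := by exact_mod_cast hF.card_pos
  have hK0 : ∀ x ∈ cxT K, muF F hF x = 0 := by
    rintro x ⟨G, hG, hx⟩
    obtain ⟨i, hi, hi'⟩ := Finset.not_subset.1 (h2 G hG)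
    have := muF_le F hF x hi
    rw [hx i hi'] at this
    exact le_antisymm this (muF_nonneg F hF x)
  have hbd : ∀ x : Dtop n, (∀ i, i ∉ F → x.1 i = 0) → (∃ i ∈ F, x.1 i = 0) → x ∈ cxT K := by
    rintro x hx ⟨i, hi, hxi⟩
    have hne : (F.erase i).Nonempty := by
      by_contra h
      rw [Finset.not_nonempty_iff_eq_empty] at h
      have : ∑ j, x.1 j = 0 := Finset.sum_eq_zero fun j _ => by
        by_cases hj : j ∈ F
        · by_cases hji : j = i
          · rw [hji]; exact hxi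
          · have : j ∈ F.erase i := Finset.mem_erase.2 ⟨hji, hj⟩
            rw [h] at this
            simp at this
        · exact hx j hj
      rw [Dtop_sum x] at this
      exact one_ne_zero this
    obtain ⟨G', hG', hsub⟩ := h1 (F.erase i) (Finset.erase_ssubset hi) hne
    refine ⟨G', hG', fun j hj => ?_⟩
    by_cases hjF : j ∈ F
    · by_cases hji : j = i
      · rw [hji]; exact hxi
      · exact absurd (hsub (Finset.mem_erase.2 ⟨hji, hjF⟩)) hj
    · exact hx j hjF
  have hFmem : ∀ x : Dtop n, x ∈ cxT {F} ↔ ∀ i, i ∉ F → x.1 i = 0 := by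
    intro x
    constructor
    · rintro ⟨G, hG, h⟩
      rw [Finset.mem_singleton] at hG
      subst hG
      exact h
    · exact fun h => ⟨F, Finset.mem_singleton_self F, h⟩
  set U : Set (Dtop n) := {x | x ∈ cxT K ∪ cxT {F} ∧ muF F hF x ≤ 1 / (2 * F.card)} with hU
  have hKU : cxT K ⊆ U := fun x hx => ⟨Or.inl hx, by rw [hK0 x hx]; positivity⟩
  have a1 : Acyc (SingIn U ⊔ SingIn (cxT {F})) (SingIn (cxT K ∪ cxT {F})) := by
    refine small_simplices_rel _ {x | muF F hF x < 1 / (2 * F.card)} {x | 0 < muF F hF x} _ _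
      (isOpen_lt (muF_cont F hF) continuous_const) (isOpen_lt continuous_const (muF_cont F hF))
      (fun x _ => ?_) (fun x hx => ⟨hx.1, le_of_lt hx.2⟩) (fun x hx => ?_)
    · rcases lt_or_ge (muF F hF x) (1 / (2 * F.card)) with h | h
      · exact Or.inl h
      · exact Or.inr (lt_of_lt_of_le (by positivity) h)
    · rcases hx.1 with h | h
      · have := hK0 x h
        have h3 : 0 < muF F hF x := hx.2
        rw [this] at h3
        exact absurd h3 (lt_irrefl _)
      · exact h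
  have a2 : Acyc ((SingIn (cxT K) ⊔ SingIn (cxT {F})) ⊓ SingIn U) (SingIn U) := by
    refine acyc_of_deformation (fun m σ h => h.2) (singHtpy (radH F hF)) (fun m σ _ => ?_)
      (fun m σ h => ?_) (fun m a σ h t => ?_) (fun m a σ h => ?_)
    · refine ContinuousMap.ext fun t => ?_
      rw [singHtpy_cst, radH_zero]
    · have h3 : (singHtpy (radH F hF)).app m (cst 1, σ) ∈ (SingIn (cxT K)).car m := by
        intro t
        rw [singHtpy_cst]
        obtain ⟨h4, h5⟩ := h t
        rcases h4 with h4 | h4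
        · rw [radH_fix F hF _ _ (hK0 _ h4)]
          exact h4
        · refine hbd _ (fun i hi => ?_) (radH_one F hF _ h5)
          exact radH_face F hF _ _ ((hFmem _).1 h4) i hi
      exact ⟨Or.inl h3, fun t => hKU (h3 t)⟩
    · rw [singHtpy_apply]
      obtain ⟨h4, h5⟩ := h t
      rcases h4 with h4 | h4
      · rw [radH_fix F hF _ _ (hK0 _ h4)]
        exact ⟨Or.inl h4, h5⟩
      · exact ⟨Or.inr ((hFmem _).2 (radH_face F hF _ _ ((hFmem _).1 h4))),
          (muF_radH F hF _ _).trans h5⟩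
    · obtain ⟨h3, h4⟩ := h
      refine ⟨?_, fun t => ?_⟩
      · rcases h3 with h3 | h3
        · refine Or.inl fun t => ?_
          rw [singHtpy_apply, radH_fix F hF _ _ (hK0 _ (h3 t))]
          exact h3 t
        · refine Or.inr fun t => ?_
          rw [singHtpy_apply]
          exact (hFmem _).2 (radH_face F hF _ _ ((hFmem _).1 (h3 t)))
      · rw [singHtpy_apply]
        obtain ⟨h5, h6⟩ := h4 t
        rcases h5 with h5 | h5
        · rw [radH_fix F hF _ _ (hK0 _ h5)]
          exact ⟨Or.inl h5, h6⟩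
        · exact ⟨Or.inr ((hFmem _).2 (radH_face F hF _ _ ((hFmem _).1 h5))),
            (muF_radH F hF _ _).trans h6⟩
  have a3 := Acyc.sup a2
  have e : (SingIn (cxT K) ⊔ SingIn (cxT {F})) ⊔ SingIn U = SingIn U ⊔ SingIn (cxT {F}) := by
    apply Sub.ext
    funext m
    ext σ
    constructor
    · rintro ((h | h) | h)
      · exact Or.inl fun t => hKU (h t)
      · exact Or.inr h
      · exact Or.inl h
    · rintro (h | h)
      · exact Or.inr h
      · exact Or.inl (Or.inr h)
  rw [e] at a3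
  refine Acyc.trans ?_ ?_ a3 a1
  · rintro m σ (h | h)
    · exact Or.inl fun t => hKU (h t)
    · exact Or.inr h
  · rintro m σ (h | h)
    · exact fun t => (h t).1
    · exact fun t => Or.inr (h t)

end MM

end

/-! ### from `Lib_MP_33f7bb_d.S6C` -/

section

/-!
# S6C: complexes of faces, induction over the number of faces

`acyc_cx`: for a down closed family `K` of faces the pair `(Sing |K|, K)` is acyclic.
-/

namespace MM

variable {n : ℕ}

theorem cxS_insert (K : Finset (Finset (Fin (n + 1)))) (F : Finset (Fin (n + 1))) :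
    cxS (insert F K) = cxS K ⊔ cxS {F} := by
  apply Sub.ext
  funext m
  ext θ
  constructor
  · rintro ⟨G, hG, h⟩
    rcases Finset.mem_insert.1 hG with rfl | hG
    · exact Or.inr ⟨G, Finset.mem_singleton_self G, h⟩
    · exact Or.inl ⟨G, hG, h⟩
  · rintro (⟨G, hG, h⟩ | ⟨G, hG, h⟩)
    · exact ⟨G, Finset.mem_insert_of_mem hG, h⟩
    · rw [Finset.mem_singleton] at hG
      exact ⟨F, Finset.mem_insert_self F K, hG ▸ h⟩

theorem cxT_insert (K : Finset (Finset (Fin (n + 1)))) (F : Finset (Fin (n + 1))) :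
    cxT (insert F K) = cxT K ∪ cxT {F} := by
  ext x
  constructor
  · rintro ⟨G, hG, h⟩
    rcases Finset.mem_insert.1 hG with rfl | hG
    · exact Or.inr ⟨G, Finset.mem_singleton_self G, h⟩
    · exact Or.inl ⟨G, hG, h⟩
  · rintro (⟨G, hG, h⟩ | ⟨G, hG, h⟩)
    · exact ⟨G, Finset.mem_insert_of_mem hG, h⟩
    · rw [Finset.mem_singleton] at hG
      exact ⟨F, Finset.mem_insert_self F K, hG ▸ h⟩

theorem map_sup {P Q : SS} (f : Hom P Q) (A B : Sub P) : (A ⊔ B).map f = A.map f ⊔ B.map f := by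
  apply Sub.ext
  funext m
  ext y
  constructor
  · rintro ⟨x, hx | hx, rfl⟩
    · exact Or.inl ⟨x, hx, rfl⟩
    · exact Or.inr ⟨x, hx, rfl⟩
  · rintro (⟨x, hx, rfl⟩ | ⟨x, hx, rfl⟩)
    · exact ⟨x, Or.inl hx, rfl⟩
    · exact ⟨x, Or.inr hx, rfl⟩

/-- gluing of acyclic pairs -/
theorem acyc_glue {P : SS} {A1 C1 A2 C2 B B' : Sub P} (hA1 : A1 ≤ C1) (hA2 : A2 ≤ C2)
    (h1 : Acyc A1 C1) (h2 : Acyc A2 C2) (h3 : Acyc B B') (hCA : C1 ⊓ A2 ≤ A1)
    (hB' : C1 ⊓ C2 = B') (hB : A2 ⊓ B' = B) : Acyc (A1 ⊔ A2) (C1 ⊔ C2) := by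
  have s1 : Acyc (A1 ⊔ A2) (C1 ⊔ A2) := by
    have e1 : (A1 ⊔ A2) ⊓ C1 = A1 := by
      apply Sub.ext
      funext m
      ext x
      constructor
      · rintro ⟨h | h, h'⟩
        · exact h
        · exact hCA m ⟨h', h⟩
      · exact fun h => ⟨Or.inl h, hA1 m h⟩
    have e2 : (A1 ⊔ A2) ⊔ C1 = C1 ⊔ A2 := by
      apply Sub.ext
      funext m
      ext x
      constructor
      · rintro ((h | h) | h)
        · exact Or.inl (hA1 m h)
        · exact Or.inr h
        · exact Or.inl h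
      · rintro (h | h)
        · exact Or.inr h
        · exact Or.inl (Or.inr h)
    rw [← e2]
    apply Acyc.sup
    rw [e1]
    exact h1
  have s2 : Acyc (C1 ⊔ A2) (C1 ⊔ C2) := by
    have e1 : (C1 ⊔ A2) ⊓ C2 = A2 ⊔ B' := by
      rw [← hB']
      apply Sub.ext
      funext m
      ext x
      constructor
      · rintro ⟨h | h, h'⟩
        · exact Or.inr ⟨h, h'⟩
        · exact Or.inl h
      · rintro (h | h)
        · exact ⟨Or.inr h, hA2 m h⟩
        · exact ⟨Or.inl h.1, h.2⟩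
    have e2 : (C1 ⊔ A2) ⊔ C2 = C1 ⊔ C2 := by
      apply Sub.ext
      funext m
      ext x
      constructor
      · rintro ((h | h) | h)
        · exact Or.inl h
        · exact Or.inr (hA2 m h)
        · exact Or.inr h
      · rintro (h | h)
        · exact Or.inl (Or.inl h)
        · exact Or.inr h
    rw [← e2]
    apply Acyc.sup
    rw [e1]
    have hle : A2 ⊔ B' ≤ C2 := by
      rw [← hB']
      rintro m x (h | h)
      · exact hA2 m h
      · exact h.2
    refine Acyc.of_left (Sub.le_sup_left' _ _) hle ?_ h2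
    apply Acyc.sup
    rw [hB]
    exact h3
  refine Acyc.trans ?_ ?_ s1 s2
  · rintro m x (h | h)
    · exact Or.inl (hA1 m h)
    · exact Or.inr h
  · rintro m x (h | h)
    · exact Or.inl h
    · exact Or.inr (hA2 m h)

theorem SingIn_inf {X : Type} [TopologicalSpace X] (A B : Set X) :
    SingIn A ⊓ SingIn B = SingIn (A ∩ B) := by
  apply Sub.ext
  funext m
  ext σ
  constructor
  · rintro ⟨h, h'⟩ t
    exact ⟨h t, h' t⟩
  · exact fun h => ⟨fun t => (h t).1, fun t => (h t).2⟩

theorem acyc_cx (N : ℕ) : ∀ K : Finset (Finset (Fin (n + 1))), K.card ≤ N →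
    (∀ G ∈ K, ∀ G', G' ⊆ G → G' ∈ K) → Acyc ((cxS K).map (yoT n)) (SingIn (cxT K)) := by
  classical
  induction N with
  | zero =>
    intro K hK _
    have : K = ∅ := Finset.card_eq_zero.1 (Nat.le_zero.1 hK)
    subst this
    intro m z hz _
    have : z = 0 := by
      rw [← Finsupp.support_eq_empty, Finset.eq_empty_iff_forall_notMem]
      intro σ hσ
      obtain ⟨G, hG, _⟩ := hz σ hσ (vtx 0)
      simp at hG
    subst this
    refine ⟨0, SuppIn.zero _, ?_⟩
    rw [dif_zero, add_zero]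
    exact SuppIn.zero _
  | succ N ih =>
    intro K hK hdown
    by_cases hne : ∃ F ∈ K, F.Nonempty
    · obtain ⟨F, hFK, hmax⟩ := Finset.exists_max_image K Finset.card
        (by obtain ⟨F, hF, _⟩ := hne; exact ⟨F, hF⟩)
      have hF : F.Nonempty := by
        obtain ⟨F', hF', hn⟩ := hne
        rw [← Finset.card_pos]
        exact lt_of_lt_of_le (Finset.card_pos.2 hn) (hmax F' hF')
      set K' := K.erase F with hK'
      have hins : insert F K' = K := Finset.insert_erase hFK
      have hcard : K'.card ≤ N := by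
        rw [hK', Finset.card_erase_of_mem hFK]
        omega
      have hdown' : ∀ G ∈ K', ∀ G', G' ⊆ G → G' ∈ K' := by
        intro G hG G' hsub
        obtain ⟨hGF, hGK⟩ := Finset.mem_erase.1 hG
        refine Finset.mem_erase.2 ⟨?_, hdown G hGK G' hsub⟩
        rintro rfl
        exact hGF (Finset.eq_of_subset_of_card_le hsub (hmax G hGK)).symm
      have h2 : ∀ G ∈ K', ¬ F ⊆ G := by
        intro G hG hsub
        obtain ⟨hGF, hGK⟩ := Finset.mem_erase.1 hG
        exact hGF (Finset.eq_of_subset_of_card_le hsub (hmax G hGK)).symm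
      have h1 : ∀ G, G ⊂ F → G.Nonempty → ∃ G' ∈ K', G ⊆ G' := fun G hG _ =>
        ⟨G, Finset.mem_erase.2 ⟨hG.ne, hdown F hFK G hG.subset⟩, Finset.Subset.refl G⟩
      have hsubF : F.ssubsets ⊆ K' := fun G hG => by
        rw [Finset.mem_ssubsets] at hG
        exact Finset.mem_erase.2 ⟨hG.ne, hdown F hFK G hG.subset⟩
      have E1 := ih K' hcard hdown'
      have E3 := ih F.ssubsets ((Finset.card_le_card hsubF).trans hcard) (fun G hG G' hsub => by
        rw [Finset.mem_ssubsets] at hG ⊢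
        exact lt_of_le_of_lt hsub hG)
      have E2 := acyc_face F hF
      have hint : cxT K' ∩ cxT {F} = cxT F.ssubsets := by
        ext x
        constructor
        · rintro ⟨⟨G, hG, hx⟩, ⟨G', hG', hx'⟩⟩
          rw [Finset.mem_singleton] at hG'
          subst hG'
          refine ⟨G ∩ G', ?_, fun i hi => ?_⟩
          · rw [Finset.mem_ssubsets]
            refine (Finset.inter_subset_right).ssubset_of_ne fun h => h2 G hG ?_
            rw [← h]
            exact Finset.inter_subset_left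
          · by_cases hiG : i ∈ G
            · exact hx' i fun h => hi (Finset.mem_inter.2 ⟨hiG, h⟩)
            · exact hx i hiG
        · rintro ⟨G, hG, hx⟩
          refine ⟨⟨G, hsubF hG, hx⟩, ⟨F, Finset.mem_singleton_self F, fun i hi => hx i fun h => ?_⟩⟩
          rw [Finset.mem_ssubsets] at hG
          exact hi (hG.subset h)
      have hg := acyc_glue (map_cxS_le K') (map_cxS_le {F}) E1 E2 E3 (by
        rintro m σ ⟨h, ⟨θ, hθ, rfl⟩⟩
        exact ⟨θ, mem_cxS_of_bary K' θ (h _), rfl⟩) (by rw [SingIn_inf, hint]) (by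
        apply Sub.ext
        funext m
        ext σ
        constructor
        · rintro ⟨⟨θ, hθ, rfl⟩, h⟩
          exact ⟨θ, mem_cxS_of_bary _ θ (h _), rfl⟩
        · rintro ⟨θ, ⟨G, hG, hθ⟩, rfl⟩
          refine ⟨⟨θ, ⟨F, Finset.mem_singleton_self F, fun i => ?_⟩, rfl⟩,
            map_cxS_le _ m ⟨θ, ⟨G, hG, hθ⟩, rfl⟩⟩
          rw [Finset.mem_ssubsets] at hG
          exact hG.subset (hθ i))
      have hex := acyc_excision K' F hF h1 h2
      rw [← hins, cxS_insert, cxT_insert, map_sup]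
      refine Acyc.trans ?_ ?_ hg hex
      · rintro m σ (h | h)
        · exact Or.inl (map_cxS_le K' m h)
        · exact Or.inr (map_cxS_le {F} m h)
      · rintro m σ (h | h)
        · exact fun t => Or.inl (h t)
        · exact fun t => Or.inr (h t)
    · -- all faces are empty
      push Not at hne
      intro m z hz _
      have : z = 0 := by
        rw [← Finsupp.support_eq_empty, Finset.eq_empty_iff_forall_notMem]
        intro σ hσ
        obtain ⟨G, hG, h⟩ := hz σ hσ (vtx 0)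
        have hG0 : G = ∅ := by
          by_contra h0
          exact (Finset.nonempty_iff_ne_empty.2 h0) |> fun h5 => by
            have := hne G hG
            first
              | exact this h5
              | exact absurd this h0
        have hs := Dtop_sum (σ (vtx 0))
        rw [Finset.sum_eq_zero (fun i _ => h i (by rw [hG0]; simp))] at hs
        exact zero_ne_one hs
      subst this
      refine ⟨0, SuppIn.zero _, ?_⟩
      rw [dif_zero, add_zero]
      exact SuppIn.zero _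

/-- the boundary of the simplex -/
theorem acyc_bd (n : ℕ) : Acyc ((bd n).map (yoT n)) (SingIn (bdTop n)) := by
  classical
  have h := acyc_cx (n := n) _ (Finset.univ : Finset (Fin (n + 1))).ssubsets le_rfl
    (fun G hG G' hsub => by
      rw [Finset.mem_ssubsets] at hG ⊢
      exact lt_of_le_of_lt hsub hG)
  have e1 : cxS (Finset.univ : Finset (Fin (n + 1))).ssubsets = bd n := by
    apply Sub.ext
    funext m
    ext θ
    constructor
    · rintro ⟨G, hG, hθ⟩ hs
      rw [Finset.mem_ssubsets] at hG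
      refine hG.not_subset fun i _ => ?_
      obtain ⟨k, rfl⟩ := hs i
      exact hθ k
    · intro hθ
      have hθ' : ¬ Function.Surjective (θ : Fin (m + 1) → Fin (n + 1)) := hθ
      unfold Function.Surjective at hθ'
      push Not at hθ'
      obtain ⟨j, hj⟩ := hθ'
      refine ⟨Finset.univ.erase j, ?_, fun i => Finset.mem_erase.2 ⟨hj i, Finset.mem_univ _⟩⟩
      rw [Finset.mem_ssubsets]
      exact Finset.erase_ssubset (Finset.mem_univ j)
  have e2 : cxT (Finset.univ : Finset (Fin (n + 1))).ssubsets = bdTop n := by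
    ext x
    constructor
    · rintro ⟨G, hG, hx⟩
      rw [Finset.mem_ssubsets] at hG
      obtain ⟨j, _, hj⟩ := Finset.exists_of_ssubset hG
      exact ⟨j, hx j hj⟩
    · rintro ⟨j, hj⟩
      refine ⟨Finset.univ.erase j, ?_, fun i hi => ?_⟩
      · rw [Finset.mem_ssubsets]
        exact Finset.erase_ssubset (Finset.mem_univ j)
      · have : i = j := by
          by_contra h
          exact hi (Finset.mem_erase.2 ⟨h, Finset.mem_univ _⟩)
        rw [this]
        exact hj
  rw [e1, e2] at h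
  exact h

end MM

end
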