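import Pool.Agent.Lib_MP_33f7bb_m.G05
import Pool.Agent.Lib_MP_33f7bb_m.G10
import Pool.Agent.Lib_MP_33f7bb_m.G12
import Pool.Agent.Lib_MP_33f7bb_m.G15

/-!
# MP_33f7bb_an, negative answer to Q1: merged library part G17

Concatenation of files of `Lib_MP_33f7bb_an` and `Lib_MP_33f7bb_d` (each in its own section), only to save build time.
-/

/-! ### from `Lib_MP_33f7bb_d.A2Res` -/

section

/-!
# A2: the resolution of a pointed simplicial set, as a tower object; mapping towers

`resU X x₀ 0 = X`, `resU X x₀ (s+1) = R (resU X x₀ s)`; `resV X x₀ s = R (resU X x₀ s)`, so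
`resV 0 = R X`, `resV (s+1) = RV (resV s)`.  `d^0 = R.of`, `d^(i+1) = R (d^i)`, `σ^0 = muV`,
`σ^(j+1) = R (σ^j)`.
`mapT T Z z₀`: the tower of the mapping spaces `MapSV Z z₀ (T.W s)`.
-/

namespace MM

/-- pointed simplicial sets -/
structure PS where
  Z : SS
  pt : Z.S 0

/-- pointed simplicial maps -/
structure PHom (A B : PS) where
  f : Hom A.Z B.Z
  hf : f.app 0 A.pt = B.pt

/-- reduced linearisation of a pointed simplicial set -/
noncomputable abbrev PS.R (A : PS) : SV := MM.R A.Z A.pt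

/-- reduced linearisation of a pointed map -/
noncomputable def PHom.R {A B : PS} (f : PHom A B) : SVHom A.R B.R := MM.R.map A.pt B.pt f.f f.hf

/-- the canonical map -/
noncomputable def PS.of (A : PS) : Hom A.Z A.R.ss := MM.R.of A.pt

theorem PHom.R_of {A B : PS} (f : PHom A B) (n : ℕ) (x : A.Z.S n) :
    f.R.app n (A.of.app n x) = B.of.app n (f.f.app n x) := MM.R.map_of _ _ _ _ _ _

/-- a linear simplicial map as a simplicial map -/
def SVHom.hom {P Q : SV} (f : SVHom P Q) : Hom P.ss Q.ss := ⟨fun n x => f.app n x, fun g x => f.nat g x⟩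

theorem R.of_pt {Z : SS} (z₀ : Z.S 0) : (R.of z₀).app 0 z₀ = (0 : (R Z z₀).V 0) := by
  have := R.of_base z₀ 0
  rwa [show Z.deg z₀ 0 = z₀ from by
    show Z.act _ z₀ = z₀
    have h1 : (cst 0 : Mo 0 0) = OrderHom.id := by
      ext i; simp [cst]
    rw [h1, Z.act_id]] at this

/-- the pointed simplicial set underlying a simplicial vector space -/
abbrev SV.ps (V : SV) : PS := ⟨V.ss, V.zv⟩

/-- linear maps are pointed -/
def SVHom.ph {P Q : SV} (f : SVHom P Q) : PHom P.ps Q.ps := ⟨f.hom, map_zero (f.app 0)⟩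

/-- two linear maps out of `R Z` which agree on the classes of simplices agree -/
theorem PS.ext_app {A : PS} {W : SV} (f g : SVHom A.R W)
    (h : ∀ n x, f.app n (A.of.app n x) = g.app n (A.of.app n x)) (n : ℕ)
    (x : A.R.V n) : f.app n x = g.app n x := by rw [MM.R.ext h]

theorem PHom.R_R {A B B' C : PS} (f : PHom A B) (g : PHom B C) (f' : PHom A B') (g' : PHom B' C)
    (h : ∀ n x, g.f.app n (f.f.app n x) = g'.f.app n (f'.f.app n x)) (n : ℕ) (x : A.R.V n) :
    g.R.app n (f.R.app n x) = g'.R.app n (f'.R.app n x) :=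
  PS.ext_app (g.R.comp f.R) (g'.R.comp f'.R) (fun m y => by
    show g.R.app m (f.R.app m _) = g'.R.app m (f'.R.app m _)
    rw [PHom.R_of, PHom.R_of, PHom.R_of, PHom.R_of, h]) n x

theorem PHom.R_R_id {A B : PS} (f : PHom A B) (g : PHom B A)
    (h : ∀ n x, g.f.app n (f.f.app n x) = x) (n : ℕ) (x : A.R.V n) :
    g.R.app n (f.R.app n x) = x :=
  PS.ext_app (g.R.comp f.R) (SVHom.id _) (fun m y => by
    show g.R.app m (f.R.app m _) = _
    rw [PHom.R_of, PHom.R_of, h]; rfl) n x

/-- the canonical map as a pointed map -/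
noncomputable def PS.eta (A : PS) : PHom A A.R.ps := ⟨A.of, MM.R.of_pt _⟩

section res

variable (X : SS) (x₀ : X.S 0)

/-- iterated reduced linearisations, starting with `X` -/
noncomputable def resU : ℕ → PS
  | 0 => ⟨X, x₀⟩
  | s + 1 => (resU s).R.ps

/-- the levels of the resolution -/
noncomputable def resV (s : ℕ) : SV := (resU X x₀ s).R

theorem resV_zero : resV X x₀ 0 = MM.R X x₀ := rfl
theorem resV_succ (s : ℕ) : resV X x₀ (s + 1) = RV (resV X x₀ s) := rfl
theorem resU_succ (s : ℕ) : resU X x₀ (s + 1) = (resV X x₀ s).ps := rfl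

/-- the cofaces (used for `i ≤ s`; `resD (s+1)` is the coface `resV s → resV (s+1)`) -/
noncomputable def resD : ∀ s : ℕ, ℕ → PHom (resU X x₀ s) (resU X x₀ (s + 1))
  | s, 0 => (resU X x₀ s).eta
  | 0, _ + 1 => (resU X x₀ 0).eta
  | s + 1, i + 1 => (resD s i).R.ph

/-- the codegeneracies `resV (s+1) → resV s` (used for `j ≤ s`) -/
noncomputable def resS : ∀ s : ℕ, ℕ → SVHom (resV X x₀ (s + 1)) (resV X x₀ s)
  | s, 0 => muV (resV X x₀ s)
  | 0, _ + 1 => muV (resV X x₀ 0)
  | s + 1, j + 1 => (resS s j).ph.R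

theorem resD_zero (s : ℕ) : resD X x₀ s 0 = (resU X x₀ s).eta := by
  cases s <;> rfl

theorem resS_zero (s : ℕ) : resS X x₀ s 0 = muV (resV X x₀ s) := by
  cases s <;> rfl

theorem resS_succ (s j : ℕ) : resS X x₀ (s + 1) (j + 1) = (resS X x₀ s j).ph.R := rfl

theorem muV_of' (V : SV) (n : ℕ) (x : V.V n) :
    (muV V).app n (V.ps.of.app n x) = x := muV_of V n x

/-- naturality of the multiplication for linear maps -/
theorem muV_nat {V V' : SV} (f : SVHom V V') (n : ℕ) (x : (RV V).V n) :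
    (muV V').app n (f.ph.R.app n x) = f.app n ((muV V).app n x) :=
  PS.ext_app (A := V.ps) ((muV V').comp f.ph.R) (f.comp (muV V)) (fun m y =>
    ((congrArg ((muV V').app m) (PHom.R_of f.ph m y)).trans (muV_of' V' m _)).trans
      (congrArg (f.app m) (muV_of' V m y)).symm) n x

/-- `μ ∘ R(η) = id` -/
theorem muV_R_of (A : PS) (n : ℕ) (x : A.R.V n) :
    (muV A.R).app n (A.eta.R.app n x) = x :=
  PS.ext_app ((muV A.R).comp A.eta.R) (SVHom.id _)
    (fun m y => (congrArg ((muV A.R).app m) (PHom.R_of A.eta m y)).trans (muV_of' A.R m _)) n x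

theorem res_dd : ∀ (s i j n : ℕ) (x : (resU X x₀ s).Z.S n), i ≤ j → j ≤ s →
    (resD X x₀ (s + 1) (j + 1)).f.app n ((resD X x₀ s i).f.app n x) =
      (resD X x₀ (s + 1) i).f.app n ((resD X x₀ s j).f.app n x)
  | s, 0, j, n, x, _, _ => by
    rw [resD_zero, resD_zero]
    exact PHom.R_of _ n x
  | s, i + 1, 0, n, x, h, _ => by omega
  | 0, i + 1, j + 1, n, x, _, h => by omega
  | s + 1, i + 1, j + 1, n, x, h, h' =>
    PHom.R_R (resD X x₀ s i) (resD X x₀ (s + 1) (j + 1)) (resD X x₀ s j) (resD X x₀ (s + 1) i)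
      (fun m y => res_dd s i j m y (by omega) (by omega)) n x

theorem res_ss : ∀ (s i j n : ℕ) (x : (resV X x₀ (s + 2)).V n), i ≤ j → j ≤ s →
    (resS X x₀ s j).app n ((resS X x₀ (s + 1) i).app n x) =
      (resS X x₀ s i).app n ((resS X x₀ (s + 1) (j + 1)).app n x)
  | s, 0, j, n, x, _, _ => by
    rw [resS_zero, resS_zero]
    exact (muV_nat (resS X x₀ s j) n x).symm
  | s, i + 1, 0, n, x, h, _ => by omega
  | 0, i + 1, j + 1, n, x, _, h => by omega
  | s + 1, i + 1, j + 1, n, x, h, h' =>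
    PHom.R_R (resS X x₀ (s + 1) i).ph (resS X x₀ s j).ph (resS X x₀ (s + 1) (j + 1)).ph
      (resS X x₀ s i).ph (fun m y => res_ss s i j m y (by omega) (by omega)) n x

theorem res_sd_lt : ∀ (s i j n : ℕ) (x : (resV X x₀ (s + 1)).V n), i ≤ j → j ≤ s →
    (resS X x₀ (s + 1) (j + 1)).app n ((resD X x₀ (s + 2) i).f.app n x) =
      (resD X x₀ (s + 1) i).f.app n ((resS X x₀ s j).app n x)
  | s, 0, j, n, x, _, _ => by
    rw [resD_zero, resD_zero]
    exact PHom.R_of (resS X x₀ s j).ph n x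
  | s, i + 1, 0, n, x, h, _ => by omega
  | 0, i + 1, j + 1, n, x, _, h => by omega
  | s + 1, i + 1, j + 1, n, x, h, h' =>
    PHom.R_R (resD X x₀ (s + 2) i) (resS X x₀ (s + 1) (j + 1)).ph (resS X x₀ s j).ph
      (resD X x₀ (s + 1) i) (fun m y => res_sd_lt s i j m y (by omega) (by omega)) n x

theorem res_sd_eq : ∀ (s j n : ℕ) (x : (resV X x₀ s).V n), j ≤ s →
    (resS X x₀ s j).app n ((resD X x₀ (s + 1) j).f.app n x) = x
  | s, 0, n, x, _ => by
    rw [resD_zero, resS_zero]
    exact muV_of _ n x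
  | 0, j + 1, n, x, h => by omega
  | s + 1, j + 1, n, x, h =>
    PHom.R_R_id (resD X x₀ (s + 1) j) (resS X x₀ s j).ph
      (fun m y => res_sd_eq s j m y (by omega)) n x

theorem res_sd_eq' : ∀ (s j n : ℕ) (x : (resV X x₀ s).V n), j ≤ s →
    (resS X x₀ s j).app n ((resD X x₀ (s + 1) (j + 1)).f.app n x) = x
  | s, 0, n, x, _ => by
    have h := muV_R_of (resU X x₀ s) n x
    rw [resS_zero]
    have h2 : (resD X x₀ (s + 1) (0 + 1)) = (resD X x₀ s 0).R.ph := rfl
    rw [h2, resD_zero]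
    exact h
  | 0, j + 1, n, x, h => by omega
  | s + 1, j + 1, n, x, h =>
    PHom.R_R_id (resD X x₀ (s + 1) (j + 1)) (resS X x₀ s j).ph
      (fun m y => res_sd_eq' s j m y (by omega)) n x

theorem res_sd_gt : ∀ (s i j n : ℕ) (x : (resV X x₀ (s + 1)).V n), i ≤ j → j ≤ s →
    (resS X x₀ (s + 1) i).app n ((resD X x₀ (s + 2) (j + 2)).f.app n x) =
      (resD X x₀ (s + 1) (j + 1)).f.app n ((resS X x₀ s i).app n x)
  | s, 0, j, n, x, _, _ => by
    rw [resS_zero, resS_zero]
    exact muV_nat (resD X x₀ s j).R n x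
  | s, i + 1, 0, n, x, h, _ => by omega
  | 0, i + 1, j + 1, n, x, _, h => by omega
  | s + 1, i + 1, j + 1, n, x, h, h' =>
    PHom.R_R (resD X x₀ (s + 2) (j + 2)) (resS X x₀ (s + 1) i).ph (resS X x₀ s i).ph
      (resD X x₀ (s + 1) (j + 1)) (fun m y => res_sd_gt s i j m y (by omega) (by omega)) n x

/-- the resolution of `X` as a tower object -/
noncomputable def resT : Tower where
  W s := resV X x₀ s
  d s i := (resD X x₀ (s + 1) i).f
  σ s j := resS X x₀ s j
  d_zero s i n := by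
    have h := (resD X x₀ (s + 1) i).hf
    have h2 : (0 : (resV X x₀ s).V n) = (resV X x₀ s).act (cst 0 : Mo n 0) 0 := (map_zero _).symm
    rw [h2]
    have h3 := (resD X x₀ (s + 1) i).f.nat (cst 0 : Mo n 0) (resU X x₀ (s + 1)).pt
    refine Eq.trans h3 ?_
    rw [h]
    exact map_zero ((resV X x₀ (s + 1)).act (cst 0 : Mo n 0))
  d_add s i n x y h _ := by
    cases i with
    | zero => omega
    | succ i => exact map_add ((resD X x₀ s i).R.app n) x y
  dd s i j n x h h' := res_dd X x₀ (s + 1) i j n x h h'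
  σσ s i j n x h h' := res_ss X x₀ s i j n x h h'
  σd_lt s i j n x h h' := res_sd_lt X x₀ s i j n x h h'
  σd_eq s j n x h := res_sd_eq X x₀ s j n x h
  σd_eq' s j n x h := res_sd_eq' X x₀ s j n x h
  σd_gt s i j n x h h' := res_sd_gt X x₀ s i j n x h h'

end res

/-! ## mapping towers -/

theorem Tower.d_zv (T : Tower) (s i : ℕ) : (T.d s i).app 0 (T.W s).zv = (T.W (s + 1)).zv :=
  T.d_zero s i 0

/-- composition with a linear map -/
def MapSV.lcomp {Z : SS} {z₀ : Z.S 0} {V V' : SV} (g : SVHom V V') :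
    SVHom (MapSV Z z₀ V) (MapSV Z z₀ V') :=
  ⟨fun t =>
    { toFun := (MapSV.comp (Z := Z) (z₀ := z₀) g.hom (map_zero (g.app 0))).app t
      map_add' := fun a b => Subtype.ext (funext fun n => funext fun x =>
        map_add (g.app n) (a.1 n x) (b.1 n x))
      map_smul' := fun c a => Subtype.ext (funext fun n => funext fun x =>
        map_smul (g.app n) c (a.1 n x)) },
    fun f x => (MapSV.comp (Z := Z) (z₀ := z₀) g.hom (map_zero (g.app 0))).nat f x⟩

/-- the mapping tower `s ↦ Map_*(Z, W s)` -/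
def mapT (T : Tower) (Z : SS) (z₀ : Z.S 0) : Tower where
  W s := MapSV Z z₀ (T.W s)
  d s i := MapSV.comp (T.d s i) (T.d_zv s i)
  σ s j := MapSV.lcomp (T.σ s j)
  d_zero s i _ := Subtype.ext (funext fun m => funext fun _ => T.d_zero s i m)
  d_add s i _ x y h h' := Subtype.ext (funext fun m => funext fun p =>
    T.d_add s i m (x.1 m p) (y.1 m p) h h')
  dd s i j _ x h h' := Subtype.ext (funext fun m => funext fun p =>
    T.dd s i j m (x.1 m p) h h')
  σσ s i j _ x h h' := Subtype.ext (funext fun m => funext fun p =>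
    T.σσ s i j m (x.1 m p) h h')
  σd_lt s i j _ x h h' := Subtype.ext (funext fun m => funext fun p =>
    T.σd_lt s i j m (x.1 m p) h h')
  σd_eq s j _ x h := Subtype.ext (funext fun m => funext fun p => T.σd_eq s j m (x.1 m p) h)
  σd_eq' s j _ x h := Subtype.ext (funext fun m => funext fun p => T.σd_eq' s j m (x.1 m p) h)
  σd_gt s i j _ x h h' := Subtype.ext (funext fun m => funext fun p =>
    T.σd_gt s i j m (x.1 m p) h h')

end MM

end

/-! ### from `Lib_MP_33f7bb_d.A023` -/

section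

/-!
# A0-23: chains on products

`linProd P Q : lin (P × Q) ≅ lin P ⊗ lin Q`, `(x,y) ↦ x ⊗ y` (Mathlib: `finsuppTensorFinsupp'`); under it `crsCh`
corresponds to `crs` and `prismCh s k` is the cross product of the two identity simplices.
-/

open scoped TensorProduct

namespace MM

/-- external product of chains -/
private noncomputable def A023_ten {P Q : SS} {n : ℕ} (X : Ch P n) (Y : Ch Q n) : Ch (P.prod Q) n :=
  X.sum fun u c => Y.sum fun v c' => Finsupp.single (u, v) (c * c')

private theorem A023_ten_apply {P Q : SS} {n : ℕ} (X : Ch P n) (Y : Ch Q n) (u : P.S n) (v : Q.S n) :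
    A023_ten X Y (u, v) = X u * Y v := by
  classical
  unfold A023_ten
  rw [Finsupp.sum_apply]
  rw [Finsupp.sum, Finset.sum_eq_single u]
  · rw [Finsupp.sum_apply, Finsupp.sum, Finset.sum_eq_single v]
    · rw [Finsupp.single_eq_same]
    · intro v' _ hv'
      rw [Finsupp.single_apply, if_neg]
      intro h; exact hv' (congrArg Prod.snd h)
    · intro hv
      rw [Finsupp.notMem_support_iff.1 hv]; simp
  · intro u' _ hu'
    rw [Finsupp.sum_apply, Finsupp.sum]
    apply Finset.sum_eq_zero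
    intro v' _
    rw [Finsupp.single_apply, if_neg]
    intro h; exact hu' (congrArg Prod.fst h)
  · intro hu
    rw [Finsupp.notMem_support_iff.1 hu, Finsupp.sum_apply, Finsupp.sum]
    apply Finset.sum_eq_zero
    intro v' _
    simp

private theorem A023_ten_eq {P Q : SS} {n : ℕ} (X : Ch P n) (Y : Ch Q n) :
    A023_ten X Y = finsuppTensorFinsupp' (ZMod 2) (P.S n) (Q.S n) (X ⊗ₜ[ZMod 2] Y) := by
  ext ⟨u, v⟩
  rw [A023_ten_apply, finsuppTensorFinsupp'_apply_apply]

private theorem A023_ten_single {P Q : SS} {n : ℕ} (x : P.S n) (y : Q.S n) :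
    A023_ten (Finsupp.single x 1 : Ch P n) (Finsupp.single y 1 : Ch Q n) =
      (Finsupp.single (x, y) 1 : Ch (P.prod Q) n) := by
  rw [A023_ten_eq, finsuppTensorFinsupp'_single_tmul_single]; simp

private theorem A023_ten_mapDomain {P Q P' Q' : SS} {m n : ℕ} (f : P.S n → P'.S m) (g : Q.S n → Q'.S m)
    (X : Ch P n) (Y : Ch Q n) :
    (A023_ten X Y).mapDomain (fun z : (P.prod Q).S n => ((f z.1, g z.2) : (P'.prod Q').S m)) =
      A023_ten (X.mapDomain f : Ch P' m) (Y.mapDomain g : Ch Q' m) := by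
  have h : ∀ z : Ch P n ⊗[ZMod 2] Ch Q n,
      (finsuppTensorFinsupp' (ZMod 2) (P.S n) (Q.S n) z).mapDomain
        (fun z : (P.prod Q).S n => ((f z.1, g z.2) : (P'.prod Q').S m)) =
      finsuppTensorFinsupp' (ZMod 2) (P'.S m) (Q'.S m)
        (TensorProduct.map (Finsupp.lmapDomain (ZMod 2) (ZMod 2) f)
          (Finsupp.lmapDomain (ZMod 2) (ZMod 2) g) z) := by
    have h2 : (Finsupp.lmapDomain (ZMod 2) (ZMod 2)
          (fun z : (P.prod Q).S n => ((f z.1, g z.2) : (P'.prod Q').S m))).comp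
          (finsuppTensorFinsupp' (ZMod 2) (P.S n) (Q.S n)).toLinearMap =
        (finsuppTensorFinsupp' (ZMod 2) (P'.S m) (Q'.S m)).toLinearMap.comp
        (TensorProduct.map (Finsupp.lmapDomain (ZMod 2) (ZMod 2) f)
          (Finsupp.lmapDomain (ZMod 2) (ZMod 2) g)) := by
      apply TensorProduct.ext'
      intro X Y
      induction X using Finsupp.induction_linear with
      | zero => simp
      | add X X' hX hX' => simp only [TensorProduct.add_tmul, map_add, hX, hX']
      | single x c =>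
        induction Y using Finsupp.induction_linear with
        | zero => simp
        | add Y Y' hY hY' => simp only [TensorProduct.tmul_add, map_add, hY, hY']
        | single y c' =>
          simp only [LinearMap.comp_apply, LinearEquiv.coe_coe, TensorProduct.map_tmul,
            finsuppTensorFinsupp'_single_tmul_single, Finsupp.lmapDomain_apply,
            Finsupp.mapDomain_single]
    intro z
    exact LinearMap.congr_fun h2 z
  rw [A023_ten_eq, A023_ten_eq, h, TensorProduct.map_tmul]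
  rfl

private theorem A023_lmap {P Q : SS} {m n : ℕ} (h : Mo m n) (z : Ch P n ⊗[ZMod 2] Ch Q n) :
    (finsuppTensorFinsupp' (ZMod 2) (P.S n) (Q.S n) z).mapDomain ((P.prod Q).act h) =
      finsuppTensorFinsupp' (ZMod 2) (P.S m) (Q.S m) (((lin P).tens (lin Q)).act h z) := by
  induction z using TensorProduct.induction_on with
  | zero => simp
  | tmul X Y =>
    have := A023_ten_mapDomain (P' := P) (Q' := Q) (P.act h) (Q.act h) X Y
    rw [A023_ten_eq, A023_ten_eq] at this
    exact this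
  | add x y hx hy => simp only [map_add, Finsupp.mapDomain_add, hx, hy]

/-- the isomorphism `F[P × Q] = F[P] ⊗ F[Q]` -/
theorem exists_linProd (P Q : SS) :
    ∃ (f : SVHom (lin (P.prod Q)) ((lin P).tens (lin Q)))
      (g : SVHom ((lin P).tens (lin Q)) (lin (P.prod Q))),
      (∀ n x, g.app n (f.app n x) = x) ∧ (∀ n x, f.app n (g.app n x) = x) ∧
      (∀ n (x : P.S n) (y : Q.S n), f.app n (Finsupp.single (x, y) 1 : Ch (P.prod Q) n) =
        (Finsupp.single x 1 : Ch P n) ⊗ₜ[ZMod 2] (Finsupp.single y 1 : Ch Q n)) ∧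
      ∀ (p q n : ℕ) (x : Ch P p) (y : Ch Q q),
        f.app n (crsCh n x y) = crs (P := lin P) (Q := lin Q) n x y := by
  classical
  refine ⟨⟨fun n => (finsuppTensorFinsupp' (ZMod 2) (P.S n) (Q.S n)).symm.toLinearMap, ?_⟩,
    ⟨fun n => (finsuppTensorFinsupp' (ZMod 2) (P.S n) (Q.S n)).toLinearMap, ?_⟩, ?_, ?_, ?_, ?_⟩
  · intro m n h x
    show (finsuppTensorFinsupp' (ZMod 2) (P.S m) (Q.S m)).symm
      (x.mapDomain ((P.prod Q).act h)) = ((lin P).tens (lin Q)).act h
        ((finsuppTensorFinsupp' (ZMod 2) (P.S n) (Q.S n)).symm x)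
    rw [LinearEquiv.symm_apply_eq, ← A023_lmap, LinearEquiv.apply_symm_apply]
  · intro m n h x
    exact (A023_lmap h x).symm
  · intro n x
    exact LinearEquiv.apply_symm_apply _ _
  · intro n x
    exact LinearEquiv.symm_apply_apply _ _
  · intro n x y
    show (finsuppTensorFinsupp' (ZMod 2) (P.S n) (Q.S n)).symm (Finsupp.single (x, y) 1) = _
    rw [LinearEquiv.symm_apply_eq, finsuppTensorFinsupp'_single_tmul_single, mul_one]
  · intro p q n x y
    show (finsuppTensorFinsupp' (ZMod 2) (P.S n) (Q.S n)).symm (crsCh n x y) = _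
    rw [LinearEquiv.symm_apply_eq]
    unfold crsCh crs
    rw [map_sum]
    refine Finset.sum_congr rfl fun a _ => ?_
    rw [map_sum]
    refine Finset.sum_congr rfl fun b _ => ?_
    split_ifs with h
    · exact A023_ten_eq _ _
    · rw [map_zero]

private theorem A023_nat_d {A B : SV} (f : SVHom A B) (n : ℕ) (x : A.V (n + 1)) :
    f.app n (A.d n x) = B.d n (f.app (n + 1) x) := by
  simp only [SV.d, LinearMap.sum_apply, map_sum, f.nat]

theorem dif_crsCh {P Q : SS} {p q n : ℕ} (x : Ch P (p + 1)) (y : Ch Q (q + 1)) :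
    dif (crsCh (n + 1) x y) = crsCh n (dif x) y + crsCh n x (dif y) := by
  obtain ⟨f, g, hgf, -, -, h⟩ := exists_linProd P Q
  apply Function.LeftInverse.injective (hgf n)
  have e1 : (lin P).d p x = dif x := lin_d x
  have e2 : (lin Q).d q y = dif y := lin_d y
  rw [← e1, ← e2, ← lin_d, A023_nat_d, h, d_crs, map_add, h, h]

theorem dif_crsCh_zero_left {P Q : SS} {q n : ℕ} (x : Ch P 0) (y : Ch Q (q + 1)) :
    dif (crsCh (n + 1) x y) = crsCh n x (dif y) := by
  obtain ⟨f, g, hgf, -, -, h⟩ := exists_linProd P Q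
  apply Function.LeftInverse.injective (hgf n)
  have e2 : (lin Q).d q y = dif y := lin_d y
  rw [← e2, ← lin_d, A023_nat_d, h, d_crs_zero_left, h]

theorem dif_crsCh_zero_right {P Q : SS} {p n : ℕ} (x : Ch P (p + 1)) (y : Ch Q 0) :
    dif (crsCh (n + 1) x y) = crsCh n (dif x) y := by
  obtain ⟨f, g, hgf, -, -, h⟩ := exists_linProd P Q
  apply Function.LeftInverse.injective (hgf n)
  have e1 : (lin P).d p x = dif x := lin_d x
  rw [← e1, ← lin_d, A023_nat_d, h, d_crs_zero_right, h]

theorem prismCh_eq (s k n : ℕ) :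
    prismCh s k n = crsCh (P := Del s) (Q := Del k) n
      (Finsupp.single (OrderHom.id : Mo s s) 1) (Finsupp.single (OrderHom.id : Mo k k) 1) := by
  classical
  unfold prismCh crsCh
  refine Finset.sum_congr rfl fun a _ => Finset.sum_congr rfl fun b _ => ?_
  congr 1
  rw [Finsupp.mapDomain_single, Finsupp.mapDomain_single]
  exact (A023_ten_single (P := Del s) (Q := Del k) (n := n) a b).symm

theorem crsCh_mapDomain {P P' Q Q' : SS} (f : Hom P P') (g : Hom Q Q') {p q n : ℕ} (x : Ch P p)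
    (y : Ch Q q) : (crsCh n x y).mapDomain ((Hom.prodMap f g).app n) =
      crsCh n (x.mapDomain (f.app p)) (y.mapDomain (g.app q)) := by
  classical
  unfold crsCh
  rw [Finsupp.mapDomain_finsetSum]
  refine Finset.sum_congr rfl fun a _ => ?_
  rw [Finsupp.mapDomain_finsetSum]
  refine Finset.sum_congr rfl fun b _ => ?_
  split_ifs with h
  · have h1 : ((x.mapDomain (f.app p)).mapDomain (P'.act a) : Ch P' n) =
        (x.mapDomain (P.act a)).mapDomain (f.app n) := by
      rw [← Finsupp.mapDomain_comp, ← Finsupp.mapDomain_comp]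
      congr 1
      funext u
      exact (f.nat a u).symm
    have h2 : ((y.mapDomain (g.app q)).mapDomain (Q'.act b) : Ch Q' n) =
        (y.mapDomain (Q.act b)).mapDomain (g.app n) := by
      rw [← Finsupp.mapDomain_comp, ← Finsupp.mapDomain_comp]
      congr 1
      funext u
      exact (g.nat b u).symm
    rw [h1, h2]
    exact A023_ten_mapDomain (f.app n) (g.app n) (x.mapDomain (P.act a)) (y.mapDomain (Q.act b))
  · exact Finsupp.mapDomain_zero

private theorem A023_ten_supp {P Q : SS} {A : Sub P} {B : Sub Q} {n : ℕ} {x : Ch P n} {y : Ch Q n}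
    (hx : SuppIn A x) (hy : SuppIn B y) : SuppIn (Sub.bx A B) (A023_ten x y) := by
  rintro ⟨u, v⟩ h
  rw [Finsupp.mem_support_iff, A023_ten_apply] at h
  exact ⟨hx u (Finsupp.mem_support_iff.2 (left_ne_zero_of_mul h)),
    hy v (Finsupp.mem_support_iff.2 (right_ne_zero_of_mul h))⟩

theorem SuppIn.crsCh {P Q : SS} {A : Sub P} {B : Sub Q} {p q n : ℕ} {x : Ch P p} {y : Ch Q q}
    (hx : SuppIn A x) (hy : SuppIn B y) : SuppIn (Sub.bx A B) (crsCh n x y) := by
  classical
  rw [suppIn_iff]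
  unfold MM.crsCh
  refine Submodule.sum_mem _ fun a _ => Submodule.sum_mem _ fun b _ => ?_
  split_ifs with h
  · have hx' : SuppIn A (x.mapDomain (P.act a)) := (linSub A).closed a hx
    have hy' : SuppIn B (y.mapDomain (Q.act b)) := (linSub B).closed b hy
    exact A023_ten_supp hx' hy'
  · exact Submodule.zero_mem _

end MM

end

/-! ### from `Lib_MP_33f7bb_d.A019` -/

section

/-!
# A0-19: the prism `Δ^s × Δ^k` relative to its boundary

The relative homology is generated by the chain `prismCh s k (s+k)` (sum of all maximal chains):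
`F[Δ^s × Δ^k]/F[boundary] = K'(s) ⊗ K'(k)` and the class of the prism chain is `iota_s × iota_k`; apply
A0-15 with `Q = K'(k)` and `KK_homology`.
`dif_prismCh`: `dif [s × k] = ∑_i (δ_i × id) [(s-1) × k] + ∑_i (id × δ_i) [s × (k-1)]` (Leibniz, A0-23).
`prismCh_support`: the support consists of nondegenerate simplices, each with coefficient one, and
`(0,0)` is the first vertex of each of them.
-/

open scoped TensorProduct

namespace MM

private theorem A019_nat_d {A B : SV} (f : SVHom A B) (n : ℕ) (x : A.V (n + 1)) :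
    f.app n (A.d n x) = B.d n (f.app (n + 1) x) := by
  simp only [SV.d, LinearMap.sum_apply, map_sum, f.nat]

/-- coordinate functional on `K'(s)` -/
private noncomputable def A019_co (s m : ℕ) (a : Mo m s) (ha : a ∉ (bd s).car m) :
    (KK s).V m →ₗ[ZMod 2] ZMod 2 :=
  Submodule.liftQ _ (Finsupp.lapply a) (by
    intro x hx
    rw [LinearMap.mem_ker]
    show x a = 0
    by_contra h
    exact ha (hx (Finsupp.mem_support_iff.2 h)))

private theorem A019_co_single (s m : ℕ) (a : Mo m s) (ha : a ∉ (bd s).car m) (b : Mo m s) :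
    A019_co s m a ha ((linSub (bd s)).proj.app m (Finsupp.single b 1)) =
      (Finsupp.single b 1 : Ch (Del s) m) a := rfl

private theorem A019_main (s k : ℕ) :
    ∃ F : SVHom (lin ((Del s).prod (Del k))) ((KK s).tens (KK k)),
      (∀ n, Function.Surjective (F.app n)) ∧
      (∀ n (z : Ch ((Del s).prod (Del k)) n), F.app n z = 0 ↔
        SuppIn (Sub.box (bd s) ⊤ (bd k) ⊤) z) ∧
      ∀ n, F.app n (prismCh s k n) = crs n (KK.iota s) (KK.iota k) := by
  classical
  obtain ⟨f, g, hgf, hfg, hs, hc⟩ := exists_linProd (Del s) (Del k)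
  let T := (linSub (bd s)).proj.tens (linSub (bd k)).proj
  have hsur : ∀ n, Function.Surjective (T.app n) := fun n =>
    TensorProduct.map_surjective (Submodule.mkQ_surjective _) (Submodule.mkQ_surjective _)
  have hsingle : ∀ n (a : Mo n s) (b : Mo n k), (T.comp f).app n
      (Finsupp.single (a, b) 1 : Ch ((Del s).prod (Del k)) n) =
      (linSub (bd s)).proj.app n (Finsupp.single a 1) ⊗ₜ[ZMod 2]
        (linSub (bd k)).proj.app n (Finsupp.single b 1) := by
    intro n a b
    show T.app n (f.app n _) = _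
    rw [hs n a b]
    rfl
  have hzero : ∀ (t n : ℕ) (a : Mo n t), a ∈ (bd t).car n →
      (linSub (bd t)).proj.app n (Finsupp.single a 1) = 0 := by
    intro t n a ha
    exact (Submodule.Quotient.mk_eq_zero _).2 (SuppIn.single ha 1 : SuppIn (bd t) _)
  refine ⟨T.comp f, ?_, ?_, ?_⟩
  · intro n y
    obtain ⟨x, hx⟩ := hsur n y
    refine ⟨g.app n x, ?_⟩
    show T.app n (f.app n (g.app n x)) = y
    rw [hfg, hx]
  · intro n z
    constructor
    · rintro hz ⟨a, b⟩ hab
      by_contra hnot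
      have ha : a ∉ (bd s).car n := fun h => hnot ⟨⟨trivial, trivial⟩, Or.inl h⟩
      have hb : b ∉ (bd k).car n := fun h => hnot ⟨⟨trivial, trivial⟩, Or.inr h⟩
      let φ : ((KK s).tens (KK k)).V n →ₗ[ZMod 2] ZMod 2 :=
        (TensorProduct.lid (ZMod 2) (ZMod 2)).toLinearMap ∘ₗ
          TensorProduct.map (A019_co s n a ha) (A019_co k n b hb)
      have h1 : φ ∘ₗ ((T.comp f).app n) = Finsupp.lapply (a, b) := by
        refine Finsupp.lhom_ext' fun q => LinearMap.ext_ring ?_
        obtain ⟨a', b'⟩ := q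
        show φ ((T.comp f).app n (Finsupp.single (a', b') 1)) =
          (Finsupp.single (a', b') 1 : Ch ((Del s).prod (Del k)) n) (a, b)
        rw [hsingle]
        show TensorProduct.lid (ZMod 2) (ZMod 2) (TensorProduct.map (A019_co s n a ha)
          (A019_co k n b hb) (_ ⊗ₜ[ZMod 2] _)) = _
        rw [TensorProduct.map_tmul, TensorProduct.lid_tmul, A019_co_single, A019_co_single,
          Finsupp.single_apply, Finsupp.single_apply, Finsupp.single_apply]
        by_cases e1 : a' = a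
        · by_cases e2 : b' = b
          · rw [if_pos e1, if_pos e2, if_pos (by rw [e1, e2])]; rfl
          · rw [if_pos e1, if_neg e2, if_neg (fun h => e2 (congrArg Prod.snd h))]; rfl
        · rw [if_neg e1, if_neg (fun h => e1 (congrArg Prod.fst h))]
          exact zero_smul _ _
      have h2 := LinearMap.congr_fun h1 z
      have h3 : φ ((T.comp f).app n z) = z (a, b) := h2
      rw [hz, map_zero] at h3
      exact (Finsupp.mem_support_iff.1 hab) h3.symm
    · intro hz
      rw [← Finsupp.sum_single z, Finsupp.sum, map_sum]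
      refine Finset.sum_eq_zero fun q hq => ?_
      obtain ⟨a, b⟩ := q
      have h1 : (Finsupp.single (a, b) (z (a, b)) : Ch ((Del s).prod (Del k)) n) =
          z (a, b) • Finsupp.single (a, b) 1 := by
        rw [Finsupp.smul_single, smul_eq_mul, mul_one]
      rw [h1, map_smul, hsingle]
      rcases (hz _ hq).2 with h2 | h2
      · rw [hzero s n a h2, TensorProduct.zero_tmul, smul_zero]
      · rw [hzero k n b h2, TensorProduct.tmul_zero, smul_zero]
  · intro n
    show T.app n (f.app n (prismCh s k n)) = _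
    rw [prismCh_eq, hc, crs_map]
    rfl

theorem genBy_prism (s k n : ℕ) (h : s + k = n + 1) :
    GenBy (Sub.box (bd s) ⊤ (bd k) ⊤) (⊤ : Sub ((Del s).prod (Del k))) (prismCh s k (n + 1)) := by
  obtain ⟨F, hsur, hker, hpr⟩ := A019_main s k
  -- an element of `F`-image a boundary is a relative boundary
  have hB : ∀ (m : ℕ) (z : Ch ((Del s).prod (Del k)) m), F.app m z ∈ ((KK s).tens (KK k)).B m →
      ∃ w : Ch ((Del s).prod (Del k)) (m + 1), SuppIn (Sub.box (bd s) ⊤ (bd k) ⊤) (z + dif w) := by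
    rintro m z ⟨t, ht⟩
    obtain ⟨w, rfl⟩ := hsur (m + 1) t
    refine ⟨w, ?_⟩
    rw [← hker, ← lin_d]
    have h1 := map_add (F.app m) z ((lin ((Del s).prod (Del k))).d m w)
    refine h1.trans ?_
    rw [A019_nat_d, ht, two_eq_zero']
  have hcyc : ∀ (m : ℕ) (z : Ch ((Del s).prod (Del k)) m),
      RelCyc (Sub.box (bd s) ⊤ (bd k) ⊤) z → F.app m z ∈ ((KK s).tens (KK k)).Z m := by
    intro m z hz
    cases m with
    | zero => exact trivial
    | succ m =>
      show F.app (m + 1) z ∈ LinearMap.ker (((KK s).tens (KK k)).d m)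
      rw [LinearMap.mem_ker, ← A019_nat_d]
      refine (hker m _).2 ?_
      have h1 : SuppIn (Sub.box (bd s) ⊤ (bd k) ⊤) (dif z) := hz
      rw [← lin_d] at h1
      exact h1
  -- homology of the tensor product
  have hhom : ∀ (m : ℕ) (z : Ch ((Del s).prod (Del k)) m),
      RelCyc (Sub.box (bd s) ⊤ (bd k) ⊤) z → F.app m z ∈ ((KK s).tens (KK k)).B m ∨
        (m = s + k ∧ F.app m (z + prismCh s k m) ∈ ((KK s).tens (KK k)).B m) := by
    intro m z hz
    have h1 := hcyc m z hz
    rcases lt_or_ge m s with hm | hm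
    · exact Or.inl (KK_tens_low s (KK k) m hm _ h1)
    · obtain ⟨m', rfl⟩ := Nat.exists_eq_add_of_le hm
      obtain ⟨y, hy, hzy⟩ := KK_tens_surj s (KK k) m' (s + m') rfl _ h1
      rcases KK_homology k m' y hy with h2 | ⟨rfl, h2⟩
      · left
        have h3 : crs (s + m') (KK.iota s) y ∈ ((KK s).tens (KK k)).B (s + m') :=
          crs_mem_B_right (KK_iota_mem_Z s) h2
        have h4 := Submodule.add_mem _ hzy h3
        rwa [add_assoc, two_eq_zero', add_zero] at h4
      · right
        refine ⟨rfl, ?_⟩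
        have h2' : y + KK.iota m' ∈ (KK m').B m' := h2
        have h3 : crs (s + m') (KK.iota s) (y + KK.iota m') ∈ ((KK s).tens (KK m')).B (s + m') :=
          crs_mem_B_right (KK_iota_mem_Z s) h2'
        rw [crs_add_right] at h3
        have h4 := Submodule.add_mem _ hzy h3
        have h5 : F.app (s + m') (z + prismCh s m' (s + m')) =
            F.app (s + m') z + crs (s + m') (KK.iota s) (KK.iota m') := by
          rw [← hpr]; exact map_add (F.app (s + m')) z (prismCh s m' (s + m'))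
        rw [h5]
        have h6 : F.app (s + m') z + crs (s + m') (KK.iota s) y +
            (crs (s + m') (KK.iota s) y + crs (s + m') (KK.iota s) (KK.iota m')) =
            F.app (s + m') z + crs (s + m') (KK.iota s) (KK.iota m') := by
          rw [add_assoc, ← add_assoc (crs (s + m') (KK.iota s) y), two_eq_zero', zero_add]
        rwa [h6] at h4
  refine ⟨SuppIn.top _, ?_, ?_, ?_⟩
  · rw [← hker, ← lin_d, A019_nat_d, hpr]
    have h1 : crs (n + 1) (KK.iota s) (KK.iota k) ∈ ((KK s).tens (KK k)).Z (n + 1) :=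
      crs_mem_Z (KK_iota_mem_Z s) (KK_iota_mem_Z k)
    exact LinearMap.mem_ker.1 h1
  · intro z _ hz
    rcases hhom (n + 1) z hz with h1 | ⟨-, h1⟩
    · obtain ⟨w, hw⟩ := hB _ z h1
      exact ⟨w, SuppIn.top w, Or.inl hw⟩
    · obtain ⟨w, hw⟩ := hB _ _ h1
      refine ⟨w, SuppIn.top w, Or.inr ?_⟩
      rwa [add_right_comm] at hw
  · intro m hm z _ hz
    rcases hhom m z hz with h1 | ⟨h2, -⟩
    · obtain ⟨w, hw⟩ := hB _ z h1
      exact ⟨w, SuppIn.top w, hw⟩
    · exact absurd (h2.trans h) hm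

private theorem A019_dif_id (s : ℕ) : (dif (Finsupp.single (OrderHom.id : Mo (s + 1) (s + 1)) 1 :
    Ch (Del (s + 1)) (s + 1))) = ∑ i : Fin (s + 2), Finsupp.single (dlt i : Mo s (s + 1)) 1 := by
  unfold dif
  refine Finset.sum_congr rfl fun i _ => ?_
  rw [Finsupp.mapDomain_single]
  rfl

private theorem A019_crsCh_sum_left {P Q : SS} {p q n : ℕ} {ι : Type} (S : Finset ι)
    (x : ι → Ch P p) (y : Ch Q q) : crsCh n (∑ i ∈ S, x i) y = ∑ i ∈ S, crsCh n (x i) y := by
  obtain ⟨f, g, hgf, -, -, h⟩ := exists_linProd P Q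
  apply Function.LeftInverse.injective (hgf n)
  obtain ⟨b, hb⟩ := crs_bilin (lin P) (lin Q) p q n
  rw [h, ← hb, map_sum, LinearMap.sum_apply]
  refine Eq.trans ?_ (map_sum (f.app n) _ _).symm
  exact Finset.sum_congr rfl fun i _ => by rw [hb, h]

private theorem A019_crsCh_sum_right {P Q : SS} {p q n : ℕ} {ι : Type} (S : Finset ι)
    (x : Ch P p) (y : ι → Ch Q q) : crsCh n x (∑ i ∈ S, y i) = ∑ i ∈ S, crsCh n x (y i) := by
  obtain ⟨f, g, hgf, -, -, h⟩ := exists_linProd P Q
  apply Function.LeftInverse.injective (hgf n)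
  obtain ⟨b, hb⟩ := crs_bilin (lin P) (lin Q) p q n
  rw [h, ← hb, map_sum]
  refine Eq.trans ?_ (map_sum (f.app n) _ _).symm
  exact Finset.sum_congr rfl fun i _ => by rw [hb, h]

private theorem A019_left (s k n : ℕ) (i : Fin (s + 2)) :
    crsCh (P := Del (s + 1)) (Q := Del k) n (Finsupp.single (dlt i : Mo s (s + 1)) 1)
      (Finsupp.single (OrderHom.id : Mo k k) 1) =
    (prismCh s k n).mapDomain (fun x : ((Del s).prod (Del k)).S n => (((dlt i).comp x.1, x.2) :
          ((Del (s + 1)).prod (Del k)).S n)) := by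
  rw [prismCh_eq]
  have h := crsCh_mapDomain (SS.yo (P := Del (s + 1)) (dlt i : Mo s (s + 1))) (Hom.id (Del k))
    (n := n) (Finsupp.single (OrderHom.id : Mo s s) 1 : Ch (Del s) s)
    (Finsupp.single (OrderHom.id : Mo k k) 1 : Ch (Del k) k)
  rw [Finsupp.mapDomain_single, Finsupp.mapDomain_single] at h
  exact h.symm

private theorem A019_right (s k n : ℕ) (i : Fin (k + 2)) :
    crsCh (P := Del s) (Q := Del (k + 1)) n (Finsupp.single (OrderHom.id : Mo s s) 1)
      (Finsupp.single (dlt i : Mo k (k + 1)) 1) =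
    (prismCh s k n).mapDomain (fun x : ((Del s).prod (Del k)).S n => ((x.1, (dlt i).comp x.2) :
          ((Del s).prod (Del (k + 1))).S n)) := by
  rw [prismCh_eq]
  have h := crsCh_mapDomain (Hom.id (Del s)) (SS.yo (P := Del (k + 1)) (dlt i : Mo k (k + 1)))
    (n := n) (Finsupp.single (OrderHom.id : Mo s s) 1 : Ch (Del s) s)
    (Finsupp.single (OrderHom.id : Mo k k) 1 : Ch (Del k) k)
  rw [Finsupp.mapDomain_single, Finsupp.mapDomain_single] at h
  exact h.symm

theorem dif_prismCh (s k n : ℕ) :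
    dif (prismCh (s + 1) (k + 1) (n + 1)) =
      (∑ i : Fin (s + 2), (prismCh s (k + 1) n).mapDomain
        (fun x : ((Del s).prod (Del (k + 1))).S n => (((dlt i).comp x.1, x.2) :
          ((Del (s + 1)).prod (Del (k + 1))).S n))) +
      ∑ i : Fin (k + 2), (prismCh (s + 1) k n).mapDomain
        (fun x : ((Del (s + 1)).prod (Del k)).S n => ((x.1, (dlt i).comp x.2) :
          ((Del (s + 1)).prod (Del (k + 1))).S n)) := by
  rw [prismCh_eq (s + 1) (k + 1) (n + 1), dif_crsCh, A019_dif_id, A019_dif_id,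
    A019_crsCh_sum_left, A019_crsCh_sum_right]
  congr 1
  · exact Finset.sum_congr rfl fun i _ => A019_left s (k + 1) n i
  · exact Finset.sum_congr rfl fun i _ => A019_right (s + 1) k n i

theorem dif_prismCh_zero_left (k n : ℕ) :
    dif (prismCh 0 (k + 1) (n + 1)) =
      ∑ i : Fin (k + 2), (prismCh 0 k n).mapDomain
        (fun x : ((Del 0).prod (Del k)).S n => ((x.1, (dlt i).comp x.2) :
          ((Del 0).prod (Del (k + 1))).S n)) := by
  rw [prismCh_eq 0 (k + 1) (n + 1), dif_crsCh_zero_left, A019_dif_id, A019_crsCh_sum_right]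
  exact Finset.sum_congr rfl fun i _ => A019_right 0 k n i

theorem prismCh_apply (s k n : ℕ) (x : ((Del s).prod (Del k)).S n) :
    prismCh s k n x = if (s + k = n ∧ ∀ i, ((x.1 i : ℕ) + (x.2 i : ℕ) = (i : ℕ))) then 1 else 0 := by
  classical
  obtain ⟨a, b⟩ := x
  unfold prismCh
  rw [Finsupp.finsetSum_apply, Finset.sum_eq_single a]
  · rw [Finsupp.finsetSum_apply, Finset.sum_eq_single b]
    · by_cases h1 : (s + k = n ∧ ∀ i, ((a i : ℕ) + (b i : ℕ) = (i : ℕ)))
      · rw [if_pos h1, if_pos h1, Finsupp.single_eq_same]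
      · rw [if_neg h1, if_neg h1]; rfl
    · intro b' _ hb'
      split_ifs with h1
      · rw [Finsupp.single_apply, if_neg (fun h => hb' (congrArg Prod.snd h))]
      · rfl
    · intro h
      exact absurd (Finset.mem_univ b) h
  · intro a' _ ha'
    rw [Finsupp.finsetSum_apply]
    refine Finset.sum_eq_zero fun b' _ => ?_
    split_ifs with h1
    · rw [Finsupp.single_apply, if_neg (fun h => ha' (congrArg Prod.fst h))]
    · rfl
  · intro h
    exact absurd (Finset.mem_univ a) h

/-- a maximal chain -/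
theorem prismCh_ne_zero (s k : ℕ) : ∃ x, prismCh s k (s + k) x = 1 := by
  let a : Mo (s + k) s := ⟨fun i => ⟨min i s, by omega⟩, fun i j h => by
    have : (i : ℕ) ≤ j := h
    show min (i : ℕ) s ≤ min (j : ℕ) s
    omega⟩
  let b : Mo (s + k) k := ⟨fun i => ⟨i - s, by omega⟩, fun i j h => by
    have : (i : ℕ) ≤ j := h
    show (i : ℕ) - s ≤ (j : ℕ) - s
    omega⟩
  refine ⟨(a, b), ?_⟩
  rw [prismCh_apply, if_pos]
  refine ⟨rfl, fun i => ?_⟩
  show min (i : ℕ) s + ((i : ℕ) - s) = i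
  omega

end MM

end

/-! ### from `Lib_MP_33f7bb_d.A109` -/

section

/-!
# A1-09: pointed maps and the class of the boundary of a prism (T6)

`Q = Δ^s × Δ^k`, `s + k = n + 1`, `n ≥ 1`, `L` its boundary (`Sub.box (bd s) ⊤ (bd k) ⊤`),
`e = prismCh s k (n+1)`, `z = dif e` (supported in `L`), `v = (cst 0, cst 0)`.

Homology of `L`.  `Q` is contractible: `Acyc (Sub.pt v) ⊤` by `acyc_of_deformation'` with the homotopy
`(ε, (α, β)) ↦ (α', β')`, `α' t = 0` if `ε t = 0`, else `α t` (same for `β`).  Let `c` be a cycle of degree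
`m` supported in `L`.
`m = 0`: `c + l [v] = dif w`, `w` of degree `1 < n + 1` is a relative cycle of `(Q, L)`, so
(`genBy_prism`) `w + dif w'` is supported in `L` and `c + l [v] = dif (w + dif w')`.
`m ≥ 1`: `c` is homologous in `Q` to a cycle supported on the degeneracies of `v`, which is itself a
boundary of such (`m ≥ 1`) or use `Acyc (Sub.pt v) ⊤` and the homology of a point; so `c = dif w`, `w` a
relative cycle of degree `m + 1`; for `m + 1 = n + 1`, `w + dif w'` or `w + dif w' + e` is supported in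
`L`, else `w + dif w'` is.  Apply `dif`.

`linExt_comp_pointed` (T6).  Choose a maximal chain `x` and `τ = act (dlt 0) x` (first vertex removed).  `τ` is
nondegenerate and `z τ = 1`: a simplex `y` in the support of `e` starts at `(0,0)`, so for `i ≥ 1` the
face `δ_i y` starts at `(0,0)` and is not `τ`, and `δ_0 y = τ` determines `y`.  Let `e_u` be the bump map
of `exists_bump` for `L`, `τ`, `a = u` (dimension bound: `nonDeg_box_lt`).  Restrict `b` and `e_u` to
simplicial maps `L.ss → W.ss`.  They are homotopic by `htp_iff`: for a cycle `c` of `L` of degree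
`m`: `m = 0`: `c = l [v] + dif w`, both maps vanish at `v`; `m = n`: `c = l z + dif w` and
`linExt e_u z = u` (all other simplices in the support of `z` have `e_u = 0`), and
`u + linExt b z` is a boundary by hypothesis; other `m`: `c = dif w` (`linExt_dif`).
Compose the homotopy with `g` and apply `htp_iff` to `g b`, `g e_u : L.ss → W'.ss` and the cycle `z`:
`linExt (g b) z + linExt (g e_u) z` is a boundary, and `linExt (g e_u) z = g u` since `g 0 = 0`.
-/

namespace MM

/-! ### auxiliary lemmas -/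

private theorem a109_nsmul_even {M : Type*} [AddCommGroup M] [Module (ZMod 2) M] (j : ℕ)
    (x : M) : (j + j) • x = 0 := by
  rw [add_nsmul, two_eq_zero']

private theorem a109_dif_deg {P : SS} (p : P.S 0) (n : ℕ) (l : ZMod 2) :
    dif (Finsupp.single (P.deg p (n + 1)) l : Ch P (n + 1)) =
      (n + 2) • (Finsupp.single (P.deg p n) l : Ch P n) := by
  rw [dif]
  have h : ∀ i : Fin (n + 2), Finsupp.mapDomain (P.act (dlt i))
      (Finsupp.single (P.deg p (n + 1)) l : Ch P (n + 1)) = Finsupp.single (P.deg p n) l := by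
    intro i
    rw [Finsupp.mapDomain_single]
    congr 1
    show P.act (dlt i) (P.act (cst 0) p) = P.act (cst 0) p
    rw [P.act_comp]
    rfl
  rw [Finset.sum_congr rfl fun i _ => h i, Finset.sum_const, Finset.card_univ, Fintype.card_fin]

private theorem a109_single {P : SS} (p : P.S 0) {n : ℕ} (c : Ch P n)
    (hc : SuppIn (Sub.pt p) c) : c = Finsupp.single (P.deg p n) (c (P.deg p n)) := by
  ext x
  by_cases hx : x = P.deg p n
  · rw [hx, Finsupp.single_eq_same]
  · rw [Finsupp.single_eq_of_ne hx]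
    by_contra h
    exact hx (hc x (Finsupp.mem_support_iff.2 h))

private theorem a109_exact {P : SS} {p : P.S 0} (hP : Acyc (Sub.pt p) (⊤ : Sub P)) {m : ℕ}
    (c : Ch P (m + 1)) (hc : dif c = 0) : ∃ w : Ch P (m + 2), c = dif w := by
  obtain ⟨w, -, hw⟩ := hP (m + 1) c (SuppIn.top c) (by
    show SuppIn _ (dif c)
    rw [hc]
    exact SuppIn.zero _)
  have h1 := a109_single p _ hw
  set l := (c + dif w) (P.deg p (m + 1)) with hl
  have h2 : c = dif w + Finsupp.single (P.deg p (m + 1)) l := by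
    rw [← h1, ← add_assoc, add_comm (dif w) c, add_assoc, two_eq_zero', add_zero]
  rcases Nat.even_or_odd' m with ⟨j, hj | hj⟩
  · refine ⟨w + Finsupp.single (P.deg p (m + 2)) l, ?_⟩
    rw [dif_add, a109_dif_deg, h2]
    have h3 : m + 1 + 2 = (j + 1) + (j + 1) + 1 := by omega
    rw [h3, add_nsmul, a109_nsmul_even, zero_add, one_nsmul]
  · have h3 : dif (Finsupp.single (P.deg p (m + 1)) l : Ch P (m + 1)) = 0 := by
      rw [← h1, dif_add, hc, dif_dif, add_zero]
    rw [a109_dif_deg] at h3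
    have h4 : m + 2 = (j + 1) + (j + 1) + 1 := by omega
    rw [h4, add_nsmul, a109_nsmul_even, zero_add, one_nsmul, Finsupp.single_eq_zero] at h3
    refine ⟨w, ?_⟩
    rw [h2, h3, Finsupp.single_zero, add_zero]

/-- cut a simplex -/
private noncomputable def a109_c {s n : ℕ} (ε : Mo n 1) (α : Mo n s) : Mo n s :=
  ⟨fun t => if ε t = 0 then 0 else α t, by
    intro t t' h
    show (if ε t = 0 then (0 : Fin (s + 1)) else α t) ≤ (if ε t' = 0 then 0 else α t')
    have h1 : ε t ≤ ε t' := ε.monotone h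
    split_ifs with h2 h3 h3
    · exact le_rfl
    · exact Fin.zero_le _
    · exfalso
      rw [h3] at h1
      exact h2 (le_antisymm h1 (Fin.zero_le _))
    · exact α.monotone h⟩

private noncomputable def a109_H (s k : ℕ) :
    Hom ((Del 1).prod ((Del s).prod (Del k))) ((Del s).prod (Del k)) :=
  ⟨fun _ x => (a109_c x.1 x.2.1, a109_c x.1 x.2.2), fun _ _ => rfl⟩

theorem acyc_prod_pt (s k : ℕ) :
    Acyc (Sub.pt (P := (Del s).prod (Del k)) ((cst 0, cst 0) : Mo 0 s × Mo 0 k)) ⊤ := by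
  have hc : ∀ {r n : ℕ} (a : Mo n 1), a109_c a (cst 0 : Mo n r) = cst 0 := by
    intro r n a
    refine OrderHom.ext _ _ (funext fun t => ?_)
    show (if a t = 0 then (0 : Fin (r + 1)) else 0) = 0
    split_ifs <;> rfl
  refine acyc_of_deformation' (Sub.le_top' _) (a109_H s k) ?_ ?_ ?_ ?_
  · rintro n ⟨α, β⟩ -
    have h : ∀ {r : ℕ} (α : Mo n r), a109_c (cst 1) α = α := by
      intro r α
      refine OrderHom.ext _ _ (funext fun t => ?_)
      show (if (1 : Fin 2) = 0 then (0 : Fin (r + 1)) else α t) = α t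
      rw [if_neg (by decide)]
    exact Prod.ext (h α) (h β)
  · rintro n ⟨α, β⟩ -
    have h : ∀ {r : ℕ} (α : Mo n r), a109_c (cst 0) α = cst 0 := by
      intro r α
      refine OrderHom.ext _ _ (funext fun t => ?_)
      show (if (0 : Fin 2) = 0 then (0 : Fin (r + 1)) else α t) = 0
      rw [if_pos rfl]
    exact Prod.ext (h α) (h β)
  · intro n a x _
    trivial
  · rintro n a x hx
    have hx' : x = ((cst 0, cst 0) : Mo n s × Mo n k) := hx
    subst hx'
    exact Prod.ext (hc a) (hc a)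

private theorem a109_v_mem {s k n : ℕ} (h : s + k = n + 1) :
    ((cst 0, cst 0) : Mo 0 s × Mo 0 k) ∈ (Sub.box (bd s) ⊤ (bd k) ⊤).car 0 := by
  refine ⟨⟨trivial, trivial⟩, ?_⟩
  by_cases hs : 1 ≤ s
  · left
    intro h1
    have h2 := Fintype.card_le_of_surjective _ h1
    simp only [Fintype.card_fin] at h2
    omega
  · right
    intro h1
    have h2 := Fintype.card_le_of_surjective _ h1
    simp only [Fintype.card_fin] at h2
    omega

theorem bdry_cycle_zero {s k n : ℕ} (h : s + k = n + 1) (hn : 1 ≤ n)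
    (c : Ch ((Del s).prod (Del k)) 0) (hc : SuppIn (Sub.box (bd s) ⊤ (bd k) ⊤) c) :
    ∃ (l : ZMod 2) (w : Ch ((Del s).prod (Del k)) 1), SuppIn (Sub.box (bd s) ⊤ (bd k) ⊤) w ∧
      c = Finsupp.single ((cst 0, cst 0) : Mo 0 s × Mo 0 k) l + dif w := by
  obtain ⟨w, -, hw⟩ := acyc_prod_pt s k 0 c (SuppIn.top c) trivial
  have h1 := a109_single _ _ hw
  set l := (c + dif w) (((Del s).prod (Del k)).deg ((cst 0, cst 0) : Mo 0 s × Mo 0 k) 0) with hl
  have h2 : c = Finsupp.single ((cst 0, cst 0) : Mo 0 s × Mo 0 k) l + dif w := by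
    have h3 : (Finsupp.single ((cst 0, cst 0) : Mo 0 s × Mo 0 k) l :
        Ch ((Del s).prod (Del k)) 0) = c + dif w := h1.symm
    rw [h3, add_assoc, two_eq_zero', add_zero]
  have h4 : SuppIn (Sub.box (bd s) ⊤ (bd k) ⊤) (dif w) := by
    have h5 : dif w = c + (Finsupp.single ((cst 0, cst 0) : Mo 0 s × Mo 0 k) l :
        Ch ((Del s).prod (Del k)) 0) := by
      conv_rhs => rw [h2]
      rw [add_comm (Finsupp.single _ l) (dif w), add_assoc, two_eq_zero', add_zero]
    rw [h5]
    exact SuppIn.add hc (SuppIn.single (a109_v_mem h) l)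
  obtain ⟨w', -, hw'⟩ := (genBy_prism s k n h).2.2.2 1 (by omega) w (SuppIn.top w) h4
  refine ⟨l, w + dif w', hw', ?_⟩
  rw [dif_add, dif_dif, add_zero]
  exact h2

private theorem a109_fill {s k m : ℕ} (hm : m ≠ 0) (c : Ch ((Del s).prod (Del k)) m)
    (hz : c ∈ (lin ((Del s).prod (Del k))).Z m) :
    ∃ w : Ch ((Del s).prod (Del k)) (m + 1), c = dif w := by
  cases m with
  | zero => exact absurd rfl hm
  | succ m =>
    refine a109_exact (acyc_prod_pt s k) c ?_
    rw [← lin_d]
    exact hz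

theorem bdry_cycle_top {s k n : ℕ} (h : s + k = n + 1) (hn : 1 ≤ n)
    (c : Ch ((Del s).prod (Del k)) n) (hc : SuppIn (Sub.box (bd s) ⊤ (bd k) ⊤) c)
    (hz : c ∈ (lin ((Del s).prod (Del k))).Z n) :
    ∃ (l : ZMod 2) (w : Ch ((Del s).prod (Del k)) (n + 1)),
      SuppIn (Sub.box (bd s) ⊤ (bd k) ⊤) w ∧ c = l • dif (prismCh s k (n + 1)) + dif w := by
  obtain ⟨w, rfl⟩ := a109_fill (by omega) c hz
  obtain ⟨w', -, hw' | hw'⟩ := (genBy_prism s k n h).2.2.1 w (SuppIn.top w) hc
  · refine ⟨0, w + dif w', hw', ?_⟩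
    rw [zero_smul, zero_add, dif_add, dif_dif, add_zero]
  · refine ⟨1, w + dif w' + prismCh s k (n + 1), hw', ?_⟩
    rw [one_smul, dif_add, dif_add, dif_dif, add_zero, add_comm (dif w), ← add_assoc,
      two_eq_zero', zero_add]

theorem bdry_cycle_other {s k n m : ℕ} (h : s + k = n + 1) (hn : 1 ≤ n) (hm : m ≠ 0) (hmn : m ≠ n)
    (c : Ch ((Del s).prod (Del k)) m) (hc : SuppIn (Sub.box (bd s) ⊤ (bd k) ⊤) c)
    (hz : c ∈ (lin ((Del s).prod (Del k))).Z m) :
    ∃ w : Ch ((Del s).prod (Del k)) (m + 1),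
      SuppIn (Sub.box (bd s) ⊤ (bd k) ⊤) w ∧ c = dif w := by
  have _ := hn
  obtain ⟨w, rfl⟩ := a109_fill hm c hz
  obtain ⟨w', -, hw'⟩ := (genBy_prism s k n h).2.2.2 (m + 1) (by omega) w (SuppIn.top w) hc
  refine ⟨w + dif w', hw', ?_⟩
  rw [dif_add, dif_dif, add_zero]

private theorem a109_eval {P : SS} {W : SV} {L : Sub P} {F : Fn P W.ss} {n : ℕ} {τ : P.S n}
    {z : Ch P n} (hz : SuppIn L z) (hτ : z τ = 1) (h : ∀ x ∈ L.car n, x ≠ τ → F n x = (0 : W.V n)) :
    linExt F n z = F n τ := by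
  rw [linExt_apply, Finsupp.sum, Finset.sum_eq_single τ]
  · show z τ • (F n τ : W.V n) = F n τ
    rw [hτ, one_smul]
  · intro x hx hne
    show z x • (F n x : W.V n) = 0
    rw [h x (hz x hx) hne, smul_zero]
  · intro hne
    exfalso
    apply hne
    rw [Finsupp.mem_support_iff, hτ]
    exact one_ne_zero

private theorem a109_zero {s k n : ℕ} {x : Mo n s × Mo n k}
    (hx : ∀ i, ((x.1 i : ℕ) + (x.2 i : ℕ) = (i : ℕ))) :
    x.1 0 = 0 ∧ x.2 0 = 0 := by
  have h := hx 0
  have h0 : ((0 : Fin (n + 1)) : ℕ) = 0 := rfl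
  rw [h0] at h
  exact ⟨Fin.ext (by show (x.1 0 : ℕ) = 0; omega), Fin.ext (by show (x.2 0 : ℕ) = 0; omega)⟩

private theorem a109_inj {s k n : ℕ} {x y : Mo (n + 1) s × Mo (n + 1) k}
    (hx : ∀ i, ((x.1 i : ℕ) + (x.2 i : ℕ) = (i : ℕ)))
    (hy : ∀ i, ((y.1 i : ℕ) + (y.2 i : ℕ) = (i : ℕ)))
    (h : ((Del s).prod (Del k)).act (dlt 0) x = ((Del s).prod (Del k)).act (dlt 0) y) :
    x = y := by
  have hd : ∀ t : Fin (n + 1), (dlt 0 : Mo n (n + 1)) t = t.succ := fun t => by
    show Fin.succAbove 0 t = t.succ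
    exact Fin.succAbove_zero_apply t
  have h1 : x.1.comp (dlt 0) = y.1.comp (dlt 0) := congrArg Prod.fst h
  have h2 : x.2.comp (dlt 0) = y.2.comp (dlt 0) := congrArg Prod.snd h
  refine Prod.ext (OrderHom.ext _ _ (funext fun t => ?_)) (OrderHom.ext _ _ (funext fun t => ?_))
  · refine Fin.cases ?_ (fun t => ?_) t
    · rw [(a109_zero hx).1, (a109_zero hy).1]
    · have h3 := congrArg (fun f : Mo n s => f t) h1
      have h4 : x.1 ((dlt 0 : Mo n (n + 1)) t) = y.1 ((dlt 0 : Mo n (n + 1)) t) := h3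
      rwa [hd] at h4
  · refine Fin.cases ?_ (fun t => ?_) t
    · rw [(a109_zero hx).2, (a109_zero hy).2]
    · have h3 := congrArg (fun f : Mo n k => f t) h2
      have h4 : x.2 ((dlt 0 : Mo n (n + 1)) t) = y.2 ((dlt 0 : Mo n (n + 1)) t) := h3
      rwa [hd] at h4

private theorem a109_supp {s k n : ℕ} {y : ((Del s).prod (Del k)).S (n + 1)}
    (hy : y ∈ (prismCh s k (n + 1)).support) :
    ∀ i, ((y.1 i : ℕ) + (y.2 i : ℕ) = (i : ℕ)) := by
  rw [Finsupp.mem_support_iff, prismCh_apply] at hy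
  by_contra hcon
  exact hy (if_neg fun h => hcon h.2)

private theorem a109_tau {s k n : ℕ} (x : ((Del s).prod (Del k)).S (n + 1))
    (hx : prismCh s k (n + 1) x = 1) :
    dif (prismCh s k (n + 1)) (((Del s).prod (Del k)).act (dlt 0) x) = 1 := by
  classical
  have hxs : x ∈ (prismCh s k (n + 1)).support := by
    rw [Finsupp.mem_support_iff, hx]
    exact one_ne_zero
  rw [dif, Finsupp.finsetSum_apply, Fin.sum_univ_succ, Finset.sum_eq_zero, add_zero]
  · rw [Finsupp.mapDomain_apply' (S := ↑(prismCh s k (n + 1)).support)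
      (prismCh s k (n + 1)) subset_rfl ?_ hxs, hx]
    intro y hy y' hy' h
    exact a109_inj (a109_supp hy) (a109_supp hy') h
  · intro i _
    by_contra hne
    have h1 := Finsupp.mapDomain_support (Finsupp.mem_support_iff.2 hne)
    obtain ⟨y, hy, he⟩ := Finset.mem_image.1 h1
    have h2 : y.1 ((dlt i.succ : Mo n (n + 1)) 0) = x.1 ((dlt 0 : Mo n (n + 1)) 0) :=
      congrArg (fun f : Mo n s => f 0) (congrArg Prod.fst he)
    have h3 : y.2 ((dlt i.succ : Mo n (n + 1)) 0) = x.2 ((dlt 0 : Mo n (n + 1)) 0) :=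
      congrArg (fun f : Mo n k => f 0) (congrArg Prod.snd he)
    have h4 : (dlt i.succ : Mo n (n + 1)) 0 = 0 := by
      show Fin.succAbove i.succ 0 = 0
      exact Fin.succAbove_of_castSucc_lt _ _ (Fin.succ_pos i)
    have h5 : (dlt 0 : Mo n (n + 1)) 0 = 1 := by
      show Fin.succAbove 0 (0 : Fin (n + 1)) = 1
      exact Fin.succAbove_zero_apply 0
    rw [h4] at h2 h3
    rw [h5] at h2 h3
    have h6 := a109_supp hxs 1
    rw [← h2, ← h3, (a109_zero (a109_supp hy)).1, (a109_zero (a109_supp hy)).2] at h6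
    have h7 : ((1 : Fin (n + 1 + 1)) : ℕ) = 1 := rfl
    rw [h7] at h6
    exact absurd h6 (by simp)

private theorem a109_nonDeg {s k n : ℕ} (x : ((Del s).prod (Del k)).S (n + 1))
    (hx : prismCh s k (n + 1) x = 1) :
    NonDeg (P := (Del s).prod (Del k)) (((Del s).prod (Del k)).act (dlt 0) x) := by
  have hxs : x ∈ (prismCh s k (n + 1)).support := by
    rw [Finsupp.mem_support_iff, hx]
    exact one_ne_zero
  have hs := a109_supp hxs
  rw [nonDeg_prod_iff]
  intro i j hij
  have h1 : x.1 ((dlt 0 : Mo n (n + 1)) i) = x.1 ((dlt 0 : Mo n (n + 1)) j) :=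
    congrArg Prod.fst hij
  have h2 : x.2 ((dlt 0 : Mo n (n + 1)) i) = x.2 ((dlt 0 : Mo n (n + 1)) j) :=
    congrArg Prod.snd hij
  have h3 := hs ((dlt 0 : Mo n (n + 1)) i)
  have h4 := hs ((dlt 0 : Mo n (n + 1)) j)
  rw [h1, h2, h4] at h3
  exact (Fin.succAbove_right_injective (p := (0 : Fin (n + 2)))) (Fin.ext h3).symm

/-- chains supported in a subcomplex come from the subcomplex -/
private theorem a109_lift {P : SS} (L : Sub P) {n : ℕ} (c : Ch P n) (hc : SuppIn L c) :
    ∃ z : Ch L.ss n, z.mapDomain (fun x : L.ss.S n => x.1) = c := by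
  have hinj : Function.Injective (fun x : L.ss.S n => x.1) := Subtype.val_injective
  refine ⟨Finsupp.comapDomain _ c hinj.injOn, ?_⟩
  refine Finsupp.mapDomain_comapDomain _ hinj c ?_
  intro x hx
  exact ⟨⟨x, hc x hx⟩, rfl⟩

private theorem a109_dif {P : SS} (L : Sub P) {n : ℕ} (z : Ch L.ss (n + 1)) :
    (dif z).mapDomain (fun x : L.ss.S n => x.1) =
      dif (z.mapDomain (fun x : L.ss.S (n + 1) => x.1)) := by
  rw [dif, dif, Finsupp.mapDomain_finsetSum]
  refine Finset.sum_congr rfl fun i _ => ?_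
  rw [← Finsupp.mapDomain_comp, ← Finsupp.mapDomain_comp]
  rfl

private theorem a109_cycle {P : SS} (L : Sub P) {n : ℕ} (z : Ch L.ss n) :
    z ∈ (lin L.ss).Z n ↔ z.mapDomain (fun x : L.ss.S n => x.1) ∈ (lin P).Z n := by
  cases n with
  | zero => exact ⟨fun _ => trivial, fun _ => trivial⟩
  | succ n =>
    have e1 : z ∈ (lin L.ss).Z (n + 1) ↔ dif z = 0 := by
      rw [← lin_d]; exact Iff.rfl
    have e2 : z.mapDomain (fun x : L.ss.S (n + 1) => x.1) ∈ (lin P).Z (n + 1) ↔
        dif (z.mapDomain (fun x : L.ss.S (n + 1) => x.1)) = 0 := by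
      rw [← lin_d]; exact Iff.rfl
    rw [e1, e2, ← a109_dif]
    constructor
    · intro h
      rw [h, Finsupp.mapDomain_zero]
    · intro h
      refine Finsupp.mapDomain_injective (f := fun x : L.ss.S n => x.1) Subtype.val_injective ?_
      rw [h, Finsupp.mapDomain_zero]

private theorem a109_suppIn {P : SS} (L : Sub P) {n : ℕ} (z : Ch L.ss n) :
    SuppIn L (z.mapDomain (fun x : L.ss.S n => x.1)) := by
  classical
  intro x hx
  obtain ⟨y, -, rfl⟩ := Finset.mem_image.1 (Finsupp.mapDomain_support hx)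
  exact y.2

/-- restriction of a function which is simplicial on `L` -/
private def a109_res {P : SS} {L : Sub P} {Y : SS} (f : Fn P Y) (hf : NatOn L f) :
    Hom L.ss Y := ⟨fun n x => f n x.1, fun g x => hf g x.1 x.2⟩

private theorem a109_linExt {P : SS} (L : Sub P) {W : SV} (f : Fn P W.ss) (n : ℕ)
    (z : Ch L.ss n) : linExt (fun n (x : L.ss.S n) => f n x.1) n z =
      linExt f n (z.mapDomain (fun x : L.ss.S n => x.1)) := by
  unfold linExt
  exact (Finsupp.linearCombination_mapDomain (ZMod 2) (fun x : L.ss.S n => x.1) z).symm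

/-- (T6) -/
theorem linExt_comp_pointed {s k n : ℕ} (h : s + k = n + 1) (hn : 1 ≤ n) {W W' : SV}
    (g : Hom W.ss W'.ss) (g0 : ∀ n, g.app n 0 = 0) (b : Fn ((Del s).prod (Del k)) W.ss)
    (hb : NatOn (Sub.box (bd s) ⊤ (bd k) ⊤) b)
    (b0 : b 0 ((cst 0, cst 0) : Mo 0 s × Mo 0 k) = 0)
    (u : W.V n) (hu : W.Moore u) (hub : u + linExt b n (dif (prismCh s k (n + 1))) ∈ W.B n) :
    (g.app n u + linExt (fun m p => g.app m (b m p)) n (dif (prismCh s k (n + 1))) : W'.V n) ∈
      W'.B n := by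
  obtain ⟨x, hx⟩ : ∃ x, prismCh s k (n + 1) x = 1 := by
    rw [← h]
    exact prismCh_ne_zero s k
  set L : Sub ((Del s).prod (Del k)) := Sub.box (bd s) ⊤ (bd k) ⊤ with hL
  set e := prismCh s k (n + 1) with he
  have hzL : SuppIn L (dif e) := (genBy_prism s k n h).2.1
  have hτ1 : dif e (((Del s).prod (Del k)).act (dlt 0) x) = 1 := a109_tau x hx
  obtain ⟨eu, heu, heuτ, heu0, heum, -⟩ := exists_bump L
    (((Del s).prod (Del k)).act (dlt 0) x) (a109_nonDeg x hx) (fun m y hy hy' => by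
      have := nonDeg_box_lt y hy hy'
      omega) u hu
  have hev : linExt eu n (dif e) = u := by
    rw [a109_eval hzL hτ1 heu0, heuτ]
  -- the homotopy
  have hH : Htp (a109_res eu heu) (a109_res b hb) := by
    rw [htp_iff]
    intro m z hz
    have hc := (a109_cycle L z).1 hz
    have hs := a109_suppIn L z
    have q1 : linExt (a109_res eu heu).app m z =
        linExt eu m (z.mapDomain (fun x : L.ss.S m => x.1)) := a109_linExt L eu m z
    have q2 : linExt (a109_res b hb).app m z =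
        linExt b m (z.mapDomain (fun x : L.ss.S m => x.1)) := a109_linExt L b m z
    rw [q1, q2]
    generalize z.mapDomain (fun x : L.ss.S m => x.1) = c at hc hs
    by_cases hm : m = 0
    · subst hm
      obtain ⟨l, w, hw, rfl⟩ := bdry_cycle_zero h hn c hs
      have q3 : (eu 0 ((cst 0, cst 0) : Mo 0 s × Mo 0 k) : W.V 0) = 0 := heum 0 (by omega) _
      have q4 : (b 0 ((cst 0, cst 0) : Mo 0 s × Mo 0 k) : W.V 0) = 0 := b0
      rw [map_add, map_add, linExt_single, linExt_single, q3, q4, smul_zero, zero_add, zero_add,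
        linExt_dif heu hw, linExt_dif hb hw]
      exact Submodule.add_mem _ ⟨_, rfl⟩ ⟨_, rfl⟩
    · by_cases hmn : m = n
      · subst hmn
        obtain ⟨l, w, hw, rfl⟩ := bdry_cycle_top h hn c hs hc
        rw [map_add, map_add, map_smul, map_smul, hev, linExt_dif heu hw, linExt_dif hb hw]
        have q5 : l • u + W.d m (linExt eu (m + 1) w) +
            (l • linExt b m (dif e) + W.d m (linExt b (m + 1) w)) =
            l • (u + linExt b m (dif e)) + (W.d m (linExt eu (m + 1) w) +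
              W.d m (linExt b (m + 1) w)) := by
          rw [smul_add]; abel
        rw [q5]
        exact Submodule.add_mem _ (Submodule.smul_mem _ _ hub)
          (Submodule.add_mem _ ⟨_, rfl⟩ ⟨_, rfl⟩)
      · obtain ⟨w, hw, rfl⟩ := bdry_cycle_other h hn hm hmn c hs hc
        rw [linExt_dif heu hw, linExt_dif hb hw]
        exact Submodule.add_mem _ ⟨_, rfl⟩ ⟨_, rfl⟩
  have hH' : Htp (g.comp (a109_res eu heu)) (g.comp (a109_res b hb)) := by
    obtain ⟨H, h0, h1⟩ := hH
    exact ⟨g.comp H, fun n x => congrArg (g.app n) (h0 n x), fun n x => congrArg (g.app n) (h1 n x)⟩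
  rw [htp_iff] at hH'
  obtain ⟨z0, hz0⟩ := a109_lift L (dif e) hzL
  have hcyc : z0 ∈ (lin L.ss).Z n := by
    rw [a109_cycle, hz0]
    cases n with
    | zero => trivial
    | succ n =>
      show (lin _).d n (dif e) = 0
      rw [lin_d, dif_dif]
  have h5 := hH' n z0 hcyc
  have q6 : linExt (g.comp (a109_res eu heu)).app n z0 =
      linExt (fun m p => g.app m (eu m p)) n (dif e) := by
    rw [← hz0]
    exact a109_linExt L (fun m p => g.app m (eu m p)) n z0
  have q7 : linExt (g.comp (a109_res b hb)).app n z0 =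
      linExt (fun m p => g.app m (b m p)) n (dif e) := by
    rw [← hz0]
    exact a109_linExt L (fun m p => g.app m (b m p)) n z0
  have q8 : linExt (fun m p => g.app m (eu m p)) n (dif e) = (g.app n u : W'.V n) := by
    rw [a109_eval (W := W') hzL hτ1 (fun y hy hne => by
      show (g.app n (eu n y) : W'.V n) = 0
      rw [heu0 y hy hne]
      exact g0 n)]
    rw [heuτ]
  rw [q6, q7, q8] at h5
  exact h5

/-- all cofaces together: T6 for `d 0` (only pointed), linearity for the other cofaces -/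
theorem Tower.del_class (T : Tower) {s k n : ℕ} (h : s + k = n + 1) (hn : 1 ≤ n)
    (b : Fn ((Del s).prod (Del k)) (T.W s).ss)
    (hb : NatOn (Sub.box (bd s) ⊤ (bd k) ⊤) b)
    (b0 : b 0 ((cst 0, cst 0) : Mo 0 s × Mo 0 k) = 0)
    (u : (T.W s).V n) (hu : (T.W s).Moore u)
    (hub : u + linExt b n (dif (prismCh s k (n + 1))) ∈ (T.W s).B n) :
    (T.del s n u + ∑ i ∈ Finset.range (s + 2),
      linExt (fun m p => (T.d s i).app m (b m p)) n (dif (prismCh s k (n + 1))) :
        (T.W (s + 1)).V n) ∈ (T.W (s + 1)).B n := by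
  rw [Tower.del, ← Finset.sum_add_distrib]
  exact Submodule.sum_mem _ fun i _ =>
    linExt_comp_pointed h hn (T.d s i) (T.d_zero s i) b hb b0 u hu hub

end MM

end

/-! ### from `Lib_MP_33f7bb_d.A110` -/

section

/-!
# A1-10: the obstruction chain

Situation of T7: `P = Del (k+1)`, `A = bd (k+1)`, `C = ⊤`, `f` a family on `A`, `F` a stage `n`.
`prho k s N` = `[Δ^s] × dif [Δ^(k+1)]` (zero unless `s + k = N`).
`T.ob k n f F` in `(W (n+1))_(n+k+1)` = sum over the cofaces `i ≤ n + 1` of `d^i F n` on the prism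
`[Δ^n] × [Δ^(k+1)]` plus `f (n+1)` on `[Δ^(n+1)] × dif [Δ^(k+1)]`.

`sum_cancel`: the pairs `(i, j)`, `i ≤ j` and `(j+1, i)` cancel (mod 2); `Finset.sum_involution` on
`range (s+2) ×ˢ range (s+1)` or induction.

`dif_rho`: apply `dif` to `dif (prismCh (s+1) (k+1) (N+2)) =
∑_i (δ_i × 1) prismCh s (k+1) (N+1) + prho k (s+1) (N+1)` (`dif_prismCh`) and insert the formula for
`dif (prismCh s (k+1) (N+1))` (`dif_prismCh` or `dif_prismCh_zero_left`); the terms
`(δ_i δ_j × 1)` cancel (`sum_cancel`, `dlt_comp_dlt`).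

`ob_eq`: `dif_prismCh n k (n+k+1)`; on the simplices `((dlt i).comp a, c)` the function `b` is
`d^i (F n (a, c))` (`Glue.d`, `dl_eq`), on `(a, (dlt i).comp c)` it is `f (n+1)` (`Glue.ext`; the second
component is not surjective).  `linExt b (mapDomain φ c) = linExt (b ∘ φ) c`.

`ob_σ`: with `b` from `exists_glue`: `σ^j (linExt b z) = linExt (σ^j ∘ b) z`, `z = dif e` is supported in the
boundary (`genBy_prism`), there `σ^j ∘ b` is the restriction of the function
`(θ, x) ↦ F n ((sg n j).comp θ, x)`, which is natural on all of `Δ^(n+1) × Δ^(k+1)`; `linExt_dif`.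
-/

namespace MM

theorem sum_cancel {M : Type*} [AddCommGroup M] [Module (ZMod 2) M] (s : ℕ) (a : ℕ → ℕ → M)
    (h : ∀ i j, i ≤ j → j ≤ s → a (j + 1) i = a i j) :
    ∑ i ∈ Finset.range (s + 2), ∑ j ∈ Finset.range (s + 1), a i j = 0 := by
  rw [← Finset.sum_product']
  refine Finset.sum_involution
    (fun p _ => if p.1 ≤ p.2 then (p.2 + 1, p.1) else (p.2, p.1 - 1)) ?_ ?_ ?_ ?_
  · rintro ⟨i, j⟩ hp
    rw [Finset.mem_product, Finset.mem_range, Finset.mem_range] at hp
    obtain ⟨hi, hj⟩ := hp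
    dsimp only at hi hj ⊢
    by_cases hij : i ≤ j
    · simp only [if_pos hij]
      rw [h i j hij (by omega)]
      exact two_eq_zero' _
    · simp only [if_neg hij]
      obtain ⟨i', rfl⟩ : ∃ i', i = i' + 1 := ⟨i - 1, by omega⟩
      rw [Nat.add_sub_cancel, h j i' (by omega) (by omega)]
      exact two_eq_zero' _
  · rintro ⟨i, j⟩ _ _ he
    dsimp only at he
    by_cases hij : i ≤ j
    · simp only [if_pos hij, Prod.mk.injEq] at he
      omega
    · simp only [if_neg hij, Prod.mk.injEq] at he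
      omega
  · rintro ⟨i, j⟩ hp
    rw [Finset.mem_product, Finset.mem_range, Finset.mem_range] at hp
    obtain ⟨hi, hj⟩ := hp
    dsimp only at hi hj ⊢
    by_cases hij : i ≤ j
    · simp only [if_pos hij]
      rw [Finset.mem_product, Finset.mem_range, Finset.mem_range]
      exact ⟨by dsimp only; omega, by dsimp only; omega⟩
    · simp only [if_neg hij]
      rw [Finset.mem_product, Finset.mem_range, Finset.mem_range]
      exact ⟨by dsimp only; omega, by dsimp only; omega⟩
  · rintro ⟨i, j⟩ hp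
    dsimp only
    by_cases hij : i ≤ j
    · simp only [if_pos hij]
      rw [if_neg (by omega)]
      simp
    · simp only [if_neg hij]
      rw [if_pos (by omega)]
      rw [Prod.mk.injEq]
      omega

/-- `[Δ^s] × dif [Δ^(k+1)]` -/
noncomputable def prho (k s N : ℕ) : Ch ((Del s).prod (Del (k + 1))) N :=
  ∑ i : Fin (k + 2), (prismCh s k N).mapDomain
    (fun x : ((Del s).prod (Del k)).S N => ((x.1, (dlt i).comp x.2) :
      ((Del s).prod (Del (k + 1))).S N))

private theorem A110_dlt_mem {m n : ℕ} (i : Fin (n + 2)) (x : Mo m n) :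
    (dlt i).comp x ∈ (bd (n + 1)).car m := by
  intro hs
  obtain ⟨t, ht⟩ := hs i
  exact Fin.succAbove_ne i (x t) ht

theorem rho_supp (k s N : ℕ) : SuppIn (Sub.bx ⊤ (bd (k + 1))) (prho k s N) := by
  classical
  rw [suppIn_iff]
  refine Submodule.sum_mem _ fun i _ => ?_
  rw [← suppIn_iff]
  intro x hx
  have h' := Finsupp.mapDomain_support hx
  obtain ⟨y, _, rfl⟩ := Finset.mem_image.1 h'
  exact ⟨trivial, A110_dlt_mem i y.2⟩

theorem rho_zero (k N : ℕ) : dif (prismCh 0 (k + 1) (N + 1)) = prho k 0 N :=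
  dif_prismCh_zero_left k N

/-- push forward along a coface in the first factor -/
private noncomputable def A110_D (k s N : ℕ) (θ : Mo s (s + 1)) :
    Ch ((Del s).prod (Del (k + 1))) N →+ Ch ((Del (s + 1)).prod (Del (k + 1))) N :=
  Finsupp.mapDomain.addMonoidHom (fun x : ((Del s).prod (Del (k + 1))).S N => ((θ.comp x.1, x.2) :
        ((Del (s + 1)).prod (Del (k + 1))).S N))

private theorem A110_dif_D (k s N : ℕ) (θ : Mo s (s + 1))
    (c : Ch ((Del s).prod (Del (k + 1))) (N + 1)) :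
    dif (A110_D k s (N + 1) θ c) = A110_D k s N θ (dif c) := by
  rw [dif, dif, map_sum]
  refine Finset.sum_congr rfl fun i _ => ?_
  show Finsupp.mapDomain _ (Finsupp.mapDomain _ c) = Finsupp.mapDomain _ (Finsupp.mapDomain _ c)
  rw [← Finsupp.mapDomain_comp, ← Finsupp.mapDomain_comp]
  rfl

private theorem A110_DD (k s N : ℕ) (c : Ch ((Del s).prod (Del (k + 1))) N) :
    ∑ i : Fin (s + 3), A110_D k (s + 1) N (dlt i) (∑ j : Fin (s + 2), A110_D k s N (dlt j) c) =
      0 := by
  have h1 : ∀ i : Fin (s + 3), A110_D k (s + 1) N (dlt i)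
      (∑ j : Fin (s + 2), A110_D k s N (dlt j) c) =
      ∑ j ∈ Finset.range (s + 2), A110_D k (s + 1) N (dlt i) (A110_D k s N (dl s j) c) := by
    intro i
    rw [map_sum]
    exact sum_dl (fun θ => A110_D k (s + 1) N (dlt i) (A110_D k s N θ c))
  rw [Finset.sum_congr rfl fun i _ => h1 i]
  rw [sum_dl (s := s + 1) (fun η => ∑ j ∈ Finset.range (s + 2),
    A110_D k (s + 1) N η (A110_D k s N (dl s j) c))]
  refine sum_cancel (s + 1) (fun i j => A110_D k (s + 1) N (dl (s + 1) i) (A110_D k s N (dl s j) c))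
    fun i j hij hj => ?_
  have h2 : ∀ (η : Mo (s + 1) (s + 2)) (θ : Mo s (s + 1)),
      A110_D k (s + 1) N η (A110_D k s N θ c) = Finsupp.mapDomain
        (fun x : ((Del s).prod (Del (k + 1))).S N => (((η.comp θ).comp x.1, x.2) :
        ((Del (s + 2)).prod (Del (k + 1))).S N)) c := by
    intro η θ
    show Finsupp.mapDomain _ (Finsupp.mapDomain _ c) = _
    rw [← Finsupp.mapDomain_comp]
    rfl
  show A110_D k (s + 1) N (dl (s + 1) (j + 1)) (A110_D k s N (dl s i) c) =
    A110_D k (s + 1) N (dl (s + 1) i) (A110_D k s N (dl s j) c)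
  rw [h2, h2, dl_dl hij hj]

theorem dif_rho (k s N : ℕ) :
    dif (prho k (s + 1) (N + 1)) = ∑ i : Fin (s + 2), (prho k s N).mapDomain
      (fun x : ((Del s).prod (Del (k + 1))).S N => (((dlt i).comp x.1, x.2) :
        ((Del (s + 1)).prod (Del (k + 1))).S N)) := by
  show dif (prho k (s + 1) (N + 1)) = ∑ i : Fin (s + 2), A110_D k s N (dlt i) (prho k s N)
  have h1 : dif (prismCh (s + 1) (k + 1) (N + 2)) =
      ∑ i : Fin (s + 2), A110_D k s (N + 1) (dlt i) (prismCh s (k + 1) (N + 1)) +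
        prho k (s + 1) (N + 1) := dif_prismCh s k (N + 1)
  have h2 := dif_dif (prismCh (s + 1) (k + 1) (N + 2))
  rw [h1, dif_add] at h2
  have h3 : dif (∑ i : Fin (s + 2), A110_D k s (N + 1) (dlt i) (prismCh s (k + 1) (N + 1))) =
      ∑ i : Fin (s + 2), A110_D k s N (dlt i) (dif (prismCh s (k + 1) (N + 1))) := by
    rw [← lin_d, map_sum]
    refine Finset.sum_congr rfl fun i _ => ?_
    rw [lin_d, A110_dif_D]
  rw [h3] at h2
  have h4 : ∑ i : Fin (s + 2), A110_D k s N (dlt i) (dif (prismCh s (k + 1) (N + 1))) =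
      ∑ i : Fin (s + 2), A110_D k s N (dlt i) (prho k s N) := by
    cases s with
    | zero => rw [rho_zero]
    | succ s =>
      have h5 : dif (prismCh (s + 1) (k + 1) (N + 1)) =
          ∑ i : Fin (s + 2), A110_D k s N (dlt i) (prismCh s (k + 1) N) + prho k (s + 1) N :=
        dif_prismCh s k N
      rw [h5]
      simp only [map_add, Finset.sum_add_distrib]
      rw [A110_DD, zero_add]
  rw [h4] at h2
  have h6 := two_eq_zero' (∑ i : Fin (s + 2), A110_D k s N (dlt i) (prho k s N))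
  exact (add_left_cancel (h6.trans h2.symm)).symm

namespace Tower

/-- the obstruction chain -/
noncomputable def ob (T : Tower) (k n : ℕ) (f F : ∀ s, Fn ((Del s).prod (Del (k + 1))) (T.W s).ss) :
    (T.W (n + 1)).V (n + k + 1) :=
  ∑ i ∈ Finset.range (n + 2), linExt (fun m p => (T.d n i).app m (F n m p)) (n + k + 1)
      (prismCh n (k + 1) (n + k + 1)) +
    linExt (f (n + 1)) (n + k + 1) (prho k (n + 1) (n + k + 1))

variable (T : Tower) {k n : ℕ} {f F : ∀ s, Fn ((Del s).prod (Del (k + 1))) (T.W s).ss}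

theorem ob_eq {b : Fn ((Del (n + 1)).prod (Del (k + 1))) (T.W (n + 1)).ss}
    (hb : T.Glue (bd (k + 1)) ⊤ f n F b) :
    linExt b (n + k + 1) (dif (prismCh (n + 1) (k + 1) (n + k + 2))) = T.ob k n f F := by
  have h1 : dif (prismCh (n + 1) (k + 1) (n + k + 2)) =
      ∑ i : Fin (n + 2), (prismCh n (k + 1) (n + k + 1)).mapDomain
        (fun x : ((Del n).prod (Del (k + 1))).S (n + k + 1) => (((dlt i).comp x.1, x.2) :
          ((Del (n + 1)).prod (Del (k + 1))).S (n + k + 1))) + prho k (n + 1) (n + k + 1) :=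
    dif_prismCh n k (n + k + 1)
  rw [h1, map_add, map_sum, ob]
  congr 1
  · rw [sum_dl (s := n) (fun θ => linExt b (n + k + 1) ((prismCh n (k + 1) (n + k + 1)).mapDomain
        (fun x : ((Del n).prod (Del (k + 1))).S (n + k + 1) => ((θ.comp x.1, x.2) :
          ((Del (n + 1)).prod (Del (k + 1))).S (n + k + 1)))))]
    refine Finset.sum_congr rfl fun i hi => ?_
    show Finsupp.linearCombination _ _ (Finsupp.mapDomain _ _) = Finsupp.linearCombination _ _ _
    rw [Finsupp.linearCombination_mapDomain]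
    congr 2
    funext x
    exact hb.d i (n + k + 1) x.1 x.2 (by have := Finset.mem_range.1 hi; omega) trivial
  · refine linExt_congr (A := Sub.bx ⊤ (bd (k + 1))) (fun x hx => ?_) (rho_supp k (n + 1) _)
    exact hb.ext (n + k + 1) x.1 x.2 hx.2

theorem ob_σ (hf : T.Fam (bd (k + 1)) f) (hF : T.Stage (bd (k + 1)) ⊤ f n F) (j : ℕ) (hj : j ≤ n) :
    (T.σ n j).app (n + k + 1) (T.ob k n f F) ∈ (T.W n).B (n + k + 1) := by
  obtain ⟨b, hb⟩ := T.exists_glue (Sub.le_top' _) hf hF
  rw [← T.ob_eq hb]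
  have hG : NatOn (⊤ : Sub ((Del (n + 1)).prod (Del (k + 1))))
      (fun m p => F n m ((sg n j).comp p.1, p.2) :
        Fn ((Del (n + 1)).prod (Del (k + 1))) (T.W n).ss) := by
    intro m m' g x _
    exact hF.nat n le_rfl g ((sg n j).comp x.1, x.2) ⟨trivial, trivial⟩
  have h1 := genBy_prism (n + 1) (k + 1) (n + k + 1) (by omega)
  have h2 : (T.σ n j).app (n + k + 1)
      (linExt b (n + k + 1) (dif (prismCh (n + 1) (k + 1) (n + k + 2)))) =
      linExt (fun m p => F n m ((sg n j).comp p.1, p.2) :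
        Fn ((Del (n + 1)).prod (Del (k + 1))) (T.W n).ss) (n + k + 1)
        (dif (prismCh (n + 1) (k + 1) (n + k + 2))) := by
    rw [linExt_apply, linExt_apply, map_finsuppSum]
    refine Finset.sum_congr rfl fun x hx => ?_
    show (T.σ n j).app (n + k + 1) (_ • b (n + k + 1) x) = _ • _
    rw [map_smul]
    congr 1
    exact hb.σ j (n + k + 1) x.1 x.2 hj (h1.2.1 x hx)
  rw [h2, linExt_dif hG (SuppIn.top _)]
  exact ⟨_, rfl⟩

end Tower

end MM

end

/-! ### from `Lib_MP_33f7bb_d.A111` -/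

section

/-!
# A1-11: the obstruction class is a cocycle

`ob_cocycle`.  Let `b` be from `exists_glue`, `z = dif (prismCh (n+1) (k+1) (n+k+2))`, so
`linExt b z = T.ob k n f F` (`ob_eq`).  `b` vanishes at the vertex `(0,0)`: `Glue.ext`, `hbase` (the
vertex `cst 0` of `Δ^(k+1)` is in the boundary).  By `Tower.del_class`,
`del u + ∑_(i ≤ n+2) linExt (d^i ∘ b) z` is a boundary.  It remains to see that
`S = ∑_i linExt (d^i ∘ b) z` is a boundary.  `dif_prismCh` (as in the proof of `ob_eq`, now for the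
functions `d^i ∘ b`): `S = ∑_i ∑_(j ≤ n+1) linExt (d^i ∘ d^j ∘ F n) (prismCh n (k+1) (n+k+1)) +
∑_i linExt (d^i ∘ f (n+1)) (prho k (n+1) (n+k+1))`.  The double sum is `0` by `sum_cancel` and `dd`.
The second sum is `linExt (f (n+2)) (∑_i (prho k (n+1) _).mapDomain ((dl i) × 1))` (`Fam.d`) =
`linExt (f (n+2)) (dif (prho k (n+2) (n+k+2)))` (`dif_rho`), a boundary by `linExt_dif` and `rho_supp`.

`ob0_cocycle`: the same with `s = 0`, `b = f 0` restricted to the boundary of `Δ^0 × Δ^(k+1)` (which is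
`bx ⊤ (bd (k+1))`, `bd 0` is empty), `dif (prismCh 0 (k+1) (k+1)) = prho k 0 k` (`rho_zero`),
`∑_(i ≤ 1) linExt (d^i ∘ f 0) (prho k 0 k) = linExt (f 1) (dif (prho k 1 (k+1)))`.
`ob0_cocycle_zero`: `k = 0`: no Moore representative is needed, `u = linExt (f 0) 0 (prho 0 0 0)` and
`prho 0 0 0` is the sum of the two vertices `(0, cst 0)`, `(0, cst 1)`; `f 0` vanishes at the first, so
`u = f 0 0 (id, cst 1)` and `del u = d^0 u + d^1 u` is the boundary of the edge `f 1 1 (id, cst 1)`.
-/

namespace MM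

private theorem A111_cancel {M : Type*} [AddCommGroup M] [Module (ZMod 2) M]
    (B : Submodule (ZMod 2) M) {x y : M} (h1 : x + y ∈ B) (h2 : y ∈ B) : x ∈ B := by
  have := B.sub_mem h1 h2
  rwa [add_sub_cancel_right] at this

private theorem A111_map {P P' : SS} {W : SV} (f : Fn P W.ss) (g : Fn P' W.ss) {n : ℕ}
    (φ : P'.S n → P.S n) (c : Ch P' n) (h : ∀ x ∈ c.support, f n (φ x) = g n x) :
    linExt f n (c.mapDomain φ) = linExt g n c := by
  rw [linExt_apply, linExt_apply, Finsupp.sum_mapDomain_index (by simp)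
    (by intros; rw [add_smul])]
  exact Finset.sum_congr rfl fun x hx => by
    show c x • f n (φ x) = c x • g n x
    rw [h x hx]

private theorem A111_cst_mem (k : ℕ) (m : ℕ) (i : Fin (k + 2)) :
    (cst i : Mo m (k + 1)) ∈ (bd (k + 1)).car m := by
  intro hs
  have h0 : ∀ y : Fin (k + 2), y = i := fun y => by
    obtain ⟨z, hz⟩ := hs y
    exact hz.symm
  have h1 := h0 0
  have h2 := h0 1
  rw [← h2] at h1
  exact absurd h1 (by
    intro h
    have := congrArg Fin.val h
    simp at this)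

private theorem A111_prism0 :
    prismCh 0 0 0 = Finsupp.single ((cst 0, cst 0) : Mo 0 0 × Mo 0 0) 1 := by
  have hsub : Subsingleton (Mo 0 0) := ⟨fun a b => by
    ext x
    have h1 := (a x).2
    have h2 := (b x).2
    omega⟩
  refine Finsupp.ext fun x => ?_
  rw [prismCh_apply]
  have hx : x = ((cst 0, cst 0) : Mo 0 0 × Mo 0 0) :=
    Prod.ext (Subsingleton.elim _ _) (Subsingleton.elim _ _)
  rw [hx, Finsupp.single_eq_same, if_pos]
  refine ⟨rfl, fun i => ?_⟩
  have := i.2
  show (0 : ℕ) + 0 = (i : ℕ)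
  omega

private theorem A111_rho0 {W : SV} (g : Fn ((Del 0).prod (Del 1)) W.ss) :
    linExt g 0 (prho 0 0 0) = (g 0 ((cst 0, cst 1) : Mo 0 0 × Mo 0 1) +
      g 0 ((cst 0, cst 0) : Mo 0 0 × Mo 0 1) : W.V 0) := by
  have h0 : (dlt (0 : Fin 2)).comp (cst 0 : Mo 0 0) = (cst 1 : Mo 0 1) := by
    ext x
    show ((Fin.succAbove (0 : Fin 2) (0 : Fin 1) : Fin 2) : ℕ) = ((1 : Fin 2) : ℕ)
    simp
  have h1 : (dlt (1 : Fin 2)).comp (cst 0 : Mo 0 0) = (cst 0 : Mo 0 1) := by
    ext x
    show ((Fin.succAbove (1 : Fin 2) (0 : Fin 1) : Fin 2) : ℕ) = ((0 : Fin 2) : ℕ)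
    simp
  unfold prho
  rw [Fin.sum_univ_two, map_add, A111_prism0, Finsupp.mapDomain_single, Finsupp.mapDomain_single,
    linExt_single, linExt_single, one_smul, one_smul]
  show (g 0 ((cst 0, (dlt (0 : Fin 2)).comp (cst 0 : Mo 0 0)) : Mo 0 0 × Mo 0 1) +
    g 0 ((cst 0, (dlt (1 : Fin 2)).comp (cst 0 : Mo 0 0)) : Mo 0 0 × Mo 0 1) : W.V 0) = _
  rw [h0, h1]

namespace Tower

variable (T : Tower) {k n : ℕ} {f F : ∀ s, Fn ((Del s).prod (Del (k + 1))) (T.W s).ss}

private theorem A111_rhoB (hf : T.Fam (bd (k + 1)) f) (s N : ℕ) :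
    (∑ i ∈ Finset.range (s + 2), linExt (fun m p => (T.d s i).app m (f s m p)) N (prho k s N) :
      (T.W (s + 1)).V N) ∈ (T.W (s + 1)).B N := by
  have h1 : (∑ i ∈ Finset.range (s + 2), linExt (fun m p => (T.d s i).app m (f s m p)) N
      (prho k s N) : (T.W (s + 1)).V N) = linExt (f (s + 1)) N (dif (prho k (s + 1) (N + 1))) := by
    rw [dif_rho, map_sum, Finset.sum_range]
    refine Finset.sum_congr rfl fun i _ => ?_
    symm
    refine A111_map (f (s + 1)) (fun m p => (T.d s i).app m (f s m p)) _ _ fun x hx => ?_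
    have h2 := hf.d s i.1 N x.1 x.2 (rho_supp k s N x hx).2 (by have := i.2; omega)
    rw [dl_eq i.2] at h2
    exact h2
  rw [h1, linExt_dif (hf.nat (s + 1)) (rho_supp k (s + 1) (N + 1))]
  exact LinearMap.mem_range_self _ _

theorem ob_cocycle (hf : T.Fam (bd (k + 1)) f) (hF : T.Stage (bd (k + 1)) ⊤ f n F)
    (hbase : ∀ s, f s 0 ((cst 0, cst 0) : Mo 0 s × Mo 0 (k + 1)) = 0)
    (u : (T.W (n + 1)).V (n + k + 1)) (hu : (T.W (n + 1)).Moore u)
    (hou : u + T.ob k n f F ∈ (T.W (n + 1)).B (n + k + 1)) :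
    T.del (n + 1) (n + k + 1) u ∈ (T.W (n + 2)).B (n + k + 1) := by
  obtain ⟨b, hb⟩ := T.exists_glue (Sub.le_top' (bd (k + 1))) hf hF
  have b0 : b 0 ((cst 0, cst 0) : Mo 0 (n + 1) × Mo 0 (k + 1)) = 0 := by
    rw [hb.ext 0 (cst 0) (cst 0) (A111_cst_mem k 0 0)]
    exact hbase (n + 1)
  have hob := T.ob_eq hb
  have h1 := T.del_class (s := n + 1) (k := k + 1) (n := n + k + 1) (by omega) (by omega) b hb.nat b0
    u hu (by rw [← hob] at hou; exact hou)
  have key : (∑ i ∈ Finset.range (n + 1 + 2),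
      linExt (fun m p => (T.d (n + 1) i).app m (b m p)) (n + k + 1)
        (dif (prismCh (n + 1) (k + 1) (n + k + 1 + 1))) : (T.W (n + 2)).V (n + k + 1)) ∈
      (T.W (n + 2)).B (n + k + 1) := by
    have e1 : ∀ i ∈ Finset.range (n + 1 + 2),
        (linExt (fun m p => (T.d (n + 1) i).app m (b m p)) (n + k + 1)
          (dif (prismCh (n + 1) (k + 1) (n + k + 1 + 1))) : (T.W (n + 2)).V (n + k + 1)) =
        ∑ j ∈ Finset.range (n + 1 + 1),
          linExt (fun m p => (T.d (n + 1) i).app m ((T.d n j).app m (F n m p))) (n + k + 1)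
            (prismCh n (k + 1) (n + k + 1)) +
        linExt (fun m p => (T.d (n + 1) i).app m (f (n + 1) m p)) (n + k + 1)
          (prho k (n + 1) (n + k + 1)) := by
      intro i _
      rw [dif_prismCh, map_add, map_sum]
      congr 1
      · rw [Finset.sum_range]
        refine Finset.sum_congr rfl fun j _ => ?_
        refine A111_map (fun m p => (T.d (n + 1) i).app m (b m p))
          (fun m p => (T.d (n + 1) i).app m ((T.d n j).app m (F n m p))) _ _ fun x _ => ?_
        have h2 := hb.d j.1 (n + k + 1) x.1 x.2 (by have := j.2; omega) trivial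
        rw [dl_eq j.2] at h2
        show (T.d (n + 1) i).app _ (b _ _) = _
        rw [← h2]
      · exact linExt_congr (A := Sub.bx ⊤ (bd (k + 1))) (fun x hx => by
          show (T.d (n + 1) i).app _ (b _ x) = (T.d (n + 1) i).app _ (f (n + 1) _ x)
          have h3 := hb.ext (n + k + 1) x.1 x.2 hx.2
          rw [show x = (x.1, x.2) from rfl, h3]) (rho_supp k (n + 1) (n + k + 1))
    rw [Finset.sum_congr rfl e1, Finset.sum_add_distrib, sum_cancel (n + 1) (fun i j =>
      (linExt (fun m p => (T.d (n + 1) i).app m ((T.d n j).app m (F n m p))) (n + k + 1)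
        (prismCh n (k + 1) (n + k + 1)) : (T.W (n + 2)).V (n + k + 1))) ?_, zero_add]
    · exact T.A111_rhoB hf (n + 1) (n + k + 1)
    · intro i j hij hj
      have e2 : (fun (m : ℕ) (p : ((Del n).prod (Del (k + 1))).S m) =>
          (T.d (n + 1) (j + 1)).app m ((T.d n i).app m (F n m p))) =
          fun m p => (T.d (n + 1) i).app m ((T.d n j).app m (F n m p)) := by
        funext m p
        exact T.dd n i j m _ hij hj
      show linExt (fun m p => (T.d (n + 1) (j + 1)).app m ((T.d n i).app m (F n m p))) _ _ = _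
      rw [e2]
  exact A111_cancel _ h1 key

theorem ob0_cocycle (hf : T.Fam (bd (k + 1)) f)
    (hbase : ∀ s, f s 0 ((cst 0, cst 0) : Mo 0 s × Mo 0 (k + 1)) = 0) (hk : 1 ≤ k)
    (u : (T.W 0).V k) (hu : (T.W 0).Moore u)
    (hou : u + linExt (f 0) k (prho k 0 k) ∈ (T.W 0).B k) :
    T.del 0 k u ∈ (T.W 1).B k := by
  have hb : NatOn (Sub.box (bd 0) ⊤ (bd (k + 1)) ⊤) (f 0) := by
    intro m n g x hx
    refine hf.nat 0 g x ⟨trivial, ?_⟩
    rcases hx.2 with h | h
    · refine absurd (fun y => ?_) h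
      refine ⟨0, ?_⟩
      apply Fin.ext
      have h1 := y.2
      have h2 := (x.1 0).2
      omega
    · exact h
  have h1 := T.del_class (s := 0) (k := k + 1) (n := k) (by omega) hk (f 0) hb (hbase 0) u hu
    (by rw [rho_zero]; exact hou)
  rw [rho_zero] at h1
  exact A111_cancel _ h1 (T.A111_rhoB hf 0 k)

theorem ob0_cocycle_zero {f : ∀ s, Fn ((Del s).prod (Del 1)) (T.W s).ss} (hf : T.Fam (bd 1) f)
    (hbase : ∀ s, f s 0 ((cst 0, cst 0) : Mo 0 s × Mo 0 1) = 0) :
    T.del 0 0 (linExt (f 0) 0 (prho 0 0 0)) ∈ (T.W 1).B 0 := by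
  have h1 := T.A111_rhoB hf 0 0
  have h2 : T.del 0 0 (linExt (f 0) 0 (prho 0 0 0)) =
      (∑ i ∈ Finset.range (0 + 2), linExt (fun m p => (T.d 0 i).app m (f 0 m p)) 0 (prho 0 0 0) :
      (T.W (0 + 1)).V 0) := by
    unfold Tower.del
    refine Finset.sum_congr rfl fun i _ => ?_
    rw [A111_rho0, A111_rho0, hbase 0]
    show (T.d 0 i).app 0 ((f 0 0 ((cst 0, cst 1) : Mo 0 0 × Mo 0 1) : (T.W 0).V 0) + 0 :
      (T.W 0).V 0) = ((T.d 0 i).app 0 (f 0 0 ((cst 0, cst 1) : Mo 0 0 × Mo 0 1)) +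
        (T.d 0 i).app 0 (0 : (T.W 0).V 0) : (T.W 1).V 0)
    rw [T.d_zero]
    show _ = ((T.d 0 i).app 0 (f 0 0 ((cst 0, cst 1) : Mo 0 0 × Mo 0 1)) + 0 : (T.W 1).V 0)
    rw [add_zero, add_zero]
  rw [h2]
  exact h1

end Tower

end MM

end

/-! ### from `Lib_MP_33f7bb_d.A112` -/

section

/-!
# A1-12: changing the last function of a stage

`a` a normalised Moore cycle of `(W n)_(n+k+1)`.  Let `τ` be a maximal chain of `Δ^n × Δ^(k+1)`
(`prismCh_ne_zero`, `prismCh_apply`), `α = ` the bump map (`exists_bump` for `L = ⊤`, `nonDeg_prod_le`,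
`nonDeg_prod_top`): `α τ = a`, `α = 0` on all other maximal chains, on the boundary
`Sub.box (bd n) ⊤ (bd (k+1)) ⊤` (`maxChain_notMem`), and all values are in the subobject `T.N n`.
`F' := Function.update F n (F n + α)`.

`Stage`: naturality clear; `d` (between `n - 1` and `n`): `α ((dl (n-1) i).comp θ, x) = 0` since the
simplex is in the boundary; `σ` (between `n - 1` and `n`): `σ^j (α _) = 0` (`mem_N`); `ext`: `α = 0` on
`Δ^n × ∂Δ^(k+1)`.

Change of the obstruction: only the terms `linExt (d^i ∘ F n) (prismCh ..)` change, by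
`∑_(x maximal chain) (d^i (F n x + α x) + d^i (F n x)) = d^i (F n τ + a) + d^i (F n τ)`
(write `linExt` as sum over the support).  For `i ≥ 1` this is `d^i a` (`d_add`).  For `i = 0` it is
`d^0 a + cr(F n τ, a)`, and the cross effect is a boundary by `cr_vertex`: the vertex `0` of `F n τ` is
`F n (act (cst 0) τ) = F n (cst 0, cst 0) = f n (cst 0, cst 0) = 0` (`Stage.ext`, `hbase`; a maximal
chain starts at `(0,0)`).
-/

namespace MM

/-- two functions which differ only at `τ` -/
private theorem A112_lin {P : SS} {W : SV} {n : ℕ} (g₁ g₂ : Fn P W.ss) (z : Ch P n) (τ : P.S n)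
    (hτ : z τ = 1) (h : ∀ x, x ≠ τ → g₁ n x = g₂ n x) :
    linExt g₁ n z + linExt g₂ n z = (g₁ n τ + g₂ n τ : W.V n) := by
  classical
  rw [linExt_apply, linExt_apply, Finsupp.sum, Finsupp.sum, ← Finset.sum_add_distrib,
    Finset.sum_eq_single τ]
  · rw [hτ, one_smul, one_smul]
  · intro x _ hx
    have h1 : (g₁ n x : W.V n) = g₂ n x := h x hx
    rw [h1]
    exact two_eq_zero' _
  · intro hn
    exfalso
    apply hn
    rw [Finsupp.mem_support_iff, hτ]
    exact one_ne_zero

namespace Tower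

theorem ob_change (T : Tower) {k n : ℕ} {f F : ∀ s, Fn ((Del s).prod (Del (k + 1))) (T.W s).ss}
    (hf : T.Fam (bd (k + 1)) f) (hF : T.Stage (bd (k + 1)) ⊤ f n F)
    (hbase : ∀ s, f s 0 ((cst 0, cst 0) : Mo 0 s × Mo 0 (k + 1)) = 0)
    (a : (T.W n).V (n + k + 1)) (ha : (T.W n).Moore a) (haN : (T.cov (n + k + 1)).Nrm n a) :
    ∃ F' : ∀ s, Fn ((Del s).prod (Del (k + 1))) (T.W s).ss, T.Stage (bd (k + 1)) ⊤ f n F' ∧
      (∀ s, s < n → F' s = F s) ∧
      (T.ob k n f F' + T.ob k n f F + T.del n (n + k + 1) a : (T.W (n + 1)).V (n + k + 1)) ∈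
        (T.W (n + 1)).B (n + k + 1) := by
  classical
  obtain ⟨τ, hτ1⟩ := prismCh_ne_zero n (k + 1)
  change ((Del n).prod (Del (k + 1))).S (n + k + 1) at τ
  change prismCh n (k + 1) (n + k + 1) τ = 1 at hτ1
  have hτ2 : ∀ i, ((τ.1 i : ℕ) + (τ.2 i : ℕ) = (i : ℕ)) := by
    have h1 := prismCh_apply n (k + 1) (n + k + 1) τ
    rw [hτ1] at h1
    by_contra hcon
    rw [if_neg (fun h => hcon h.2)] at h1
    exact one_ne_zero h1
  have hND : NonDeg (P := (Del n).prod (Del (k + 1))) τ :=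
    (nonDeg_prod_top (by omega) τ).2 hτ2
  have hbox : τ ∉ (Sub.box (bd n) ⊤ (bd (k + 1)) ⊤).car (n + k + 1) :=
    maxChain_notMem (by omega) τ hτ2
  obtain ⟨α, hα1, hα2, hα3, -, hα5, hα6⟩ := exists_bump (P := (Del n).prod (Del (k + 1))) ⊤ τ hND
    (fun m x _ hx => by
      have := nonDeg_prod_le x hx
      omega) a ha
  have hα0 : ∀ (m : ℕ) (θ : Mo m n) (x : Mo m (k + 1)),
      (¬ Function.Surjective θ ∨ ¬ Function.Surjective x) → (α m (θ, x) : (T.W n).V m) = 0 := by
    intro m θ x h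
    exact hα5 _ hbox m (θ, x) ⟨⟨trivial, trivial⟩, h⟩
  have hαN : ∀ (m : ℕ) (p : ((Del n).prod (Del (k + 1))).S m), (T.cov m).Nrm n (α m p) := by
    intro m p
    rw [← T.mem_N]
    exact hα6 (T.N n) ((T.mem_N n _ a).2 haN) m p
  let G : Fn ((Del n).prod (Del (k + 1))) (T.W n).ss := fun m p => (F n m p + α m p : (T.W n).V m)
  have hG0 : ∀ (m : ℕ) (θ : Mo m n) (x : Mo m (k + 1)),
      (¬ Function.Surjective θ ∨ ¬ Function.Surjective x) → G m (θ, x) = F n m (θ, x) := by
    intro m θ x h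
    show (F n m (θ, x) + α m (θ, x) : (T.W n).V m) = F n m (θ, x)
    rw [hα0 m θ x h, add_zero]
  have hFn : (Function.update F n G : ∀ s, Fn ((Del s).prod (Del (k + 1))) (T.W s).ss) n = G :=
    Function.update_self _ _ _
  have hFs : ∀ s, s ≠ n →
      (Function.update F n G : ∀ s, Fn ((Del s).prod (Del (k + 1))) (T.W s).ss) s = F s :=
    fun s hs => Function.update_of_ne hs _ _
  refine ⟨Function.update F n G, ⟨?_, ?_, ?_, ?_⟩, fun s hs => hFs s (by omega), ?_⟩
  · intro s hs
    rcases eq_or_ne s n with h | h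
    · subst h
      rw [hFn]
      intro m m' g x hx
      show (F s m _ + α m _ : (T.W s).V m) = (T.W s).act g (F s m' x + α m' x : (T.W s).V m')
      rw [map_add]
      have h1 := hF.nat s le_rfl g x hx
      have h2 := hα1 g x trivial
      exact congrArg₂ (fun u v : (T.W s).V m => u + v) h1 h2
    · rw [hFs s h]
      exact hF.nat s hs
  · intro s hs i m θ x hx hi
    rw [hFs s (by omega)]
    rcases eq_or_ne (s + 1) n with h | h
    · subst h
      rw [hFn, hG0 m _ x (Or.inl ?_)]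
      · exact hF.d s hs i m θ x hx hi
      · intro hsur
        obtain ⟨t, ht⟩ := hsur ⟨i, by omega⟩
        have h1 := congrArg Fin.val ht
        have h2 : ((dl s i) (θ t)).1 = i := h1
        rw [dl_val] at h2
        split_ifs at h2 <;> omega
    · rw [hFs (s + 1) h]
      exact hF.d s hs i m θ x hx hi
  · intro s hs j m θ x hx hj
    rw [hFs s (by omega)]
    rcases eq_or_ne (s + 1) n with h | h
    · subst h
      rw [hFn]
      show _ = (T.σ s j).app m (F (s + 1) m (θ, x) + α m (θ, x) : (T.W (s + 1)).V m)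
      rw [map_add]
      have h1 : (T.σ s j).app m (α m (θ, x)) = 0 := hαN m (θ, x) j hj
      rw [h1, add_zero]
      exact hF.σ s hs j m θ x hx hj
    · rw [hFs (s + 1) h]
      exact hF.σ s hs j m θ x hx hj
  · intro s hs m θ x hx
    rcases eq_or_ne s n with h | h
    · subst h
      rw [hFn, hG0 m θ x (Or.inr hx)]
      exact hF.ext s le_rfl m θ x hx
    · rw [hFs s h]
      exact hF.ext s hs m θ x hx
  · -- the change of the obstruction
    have hv : (T.W n).act (cst 0 : Mo 0 (n + k + 1)) (F n (n + k + 1) τ) = 0 := by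
      have h1 := hF.nat n le_rfl (cst 0 : Mo 0 (n + k + 1)) τ ⟨trivial, trivial⟩
      have h2 : ((Del n).prod (Del (k + 1))).act (cst 0 : Mo 0 (n + k + 1)) τ =
          ((cst 0, cst 0) : Mo 0 n × Mo 0 (k + 1)) := by
        have h3 := hτ2 0
        have h4 : τ.1 0 = 0 := Fin.ext (by
          have : (((0 : Fin (n + k + 1 + 1)) : ℕ)) = 0 := rfl
          rw [this] at h3
          show (τ.1 0 : ℕ) = 0
          omega)
        have h5 : τ.2 0 = 0 := Fin.ext (by
          have : (((0 : Fin (n + k + 1 + 1)) : ℕ)) = 0 := rfl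
          rw [this] at h3
          show (τ.2 0 : ℕ) = 0
          omega)
        show ((τ.1.comp (cst 0), τ.2.comp (cst 0)) : Mo 0 n × Mo 0 (k + 1)) = _
        rw [comp_cst, comp_cst, h4, h5]
      rw [h2] at h1
      have h6 : (cst 0 : Mo 0 (k + 1)) ∈ (bd (k + 1)).car 0 := by
        intro hsur
        obtain ⟨t, ht⟩ := hsur (Fin.last _)
        have h7 : (0 : Fin (k + 1 + 1)) = Fin.last (k + 1) := ht
        exact absurd (congrArg Fin.val h7) (by simp)
      have h8 := hF.ext n le_rfl 0 (cst 0) (cst 0) h6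
      rw [h8, hbase n] at h1
      exact h1.symm
    have hterm : ∀ i ∈ Finset.range (n + 2),
        (linExt (fun m p => (T.d n i).app m (G m p)) (n + k + 1) (prismCh n (k + 1) (n + k + 1)) +
          linExt (fun m p => (T.d n i).app m (F n m p)) (n + k + 1)
            (prismCh n (k + 1) (n + k + 1)) +
          (T.d n i).app (n + k + 1) a : (T.W (n + 1)).V (n + k + 1)) ∈
          (T.W (n + 1)).B (n + k + 1) := by
      intro i hi
      rw [Finset.mem_range] at hi
      have h1 := A112_lin (W := T.W (n + 1)) (fun m p => (T.d n i).app m (G m p))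
        (fun m p => (T.d n i).app m (F n m p)) (prismCh n (k + 1) (n + k + 1)) τ hτ1 (by
          intro x hx
          show (T.d n i).app _ (F n _ x + α _ x : (T.W n).V (n + k + 1)) = _
          have h2 : (α (n + k + 1) x : (T.W n).V (n + k + 1)) = 0 := hα3 x trivial hx
          rw [h2, add_zero])
      rw [h1]
      have h3 : G (n + k + 1) τ = (F n (n + k + 1) τ + a : (T.W n).V (n + k + 1)) := by
        show (F n (n + k + 1) τ + α (n + k + 1) τ : (T.W n).V (n + k + 1)) = _
        rw [hα2]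
      show ((T.d n i).app (n + k + 1) (G (n + k + 1) τ) +
        (T.d n i).app (n + k + 1) (F n (n + k + 1) τ) +
        (T.d n i).app (n + k + 1) a : (T.W (n + 1)).V (n + k + 1)) ∈ _
      rw [h3]
      rcases Nat.eq_zero_or_pos i with h0 | h0
      · subst h0
        exact cr_vertex (T.d n 0) (fun m => T.d_zero n 0 m) hv ha
      · rw [T.d_add n i _ _ _ h0 (by omega)]
        have h4 : ∀ u v : (T.W (n + 1)).V (n + k + 1), u + v + u + v = 0 := by
          intro u v
          have : u + v + u + v = (u + u) + (v + v) := by abel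
          rw [this, two_eq_zero', two_eq_zero', add_zero]
        rw [h4]
        exact Submodule.zero_mem _
    have hsum := Submodule.sum_mem _ hterm
    rw [Finset.sum_add_distrib, Finset.sum_add_distrib] at hsum
    have hob : (T.ob k n f (Function.update F n G) + T.ob k n f F + T.del n (n + k + 1) a :
        (T.W (n + 1)).V (n + k + 1)) =
        ∑ i ∈ Finset.range (n + 2), linExt (fun m p => (T.d n i).app m (G m p)) (n + k + 1)
            (prismCh n (k + 1) (n + k + 1)) +
          ∑ i ∈ Finset.range (n + 2), linExt (fun m p => (T.d n i).app m (F n m p)) (n + k + 1)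
            (prismCh n (k + 1) (n + k + 1)) +
          ∑ i ∈ Finset.range (n + 2), ((T.d n i).app (n + k + 1) a : (T.W (n + 1)).V (n + k + 1)) := by
      unfold ob
      rw [hFn]
      unfold del
      have h4 : ∀ u v w r : (T.W (n + 1)).V (n + k + 1), u + r + (v + r) + w = u + v + w := by
        intro u v w r
        have : u + r + (v + r) + w = u + v + w + (r + r) := by abel
        rw [this, two_eq_zero', add_zero]
      exact h4 _ _ _ _
    rw [hob]
    exact hsum

end Tower

end MM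

end

/-! ### from `Lib_MP_33f7bb_d.A113` -/

section

/-!
# A1-13: vanishing obstruction implies extension

`proj_N`: the projector `pi (n+1)` is a linear simplicial map `W (n+1) → (T.N (n+1)).sv`, the identity on
`N`; so an element of `N` which is a boundary in `W (n+1)` is a boundary in `(T.N (n+1)).sv`
(`x = d w`, `x = pi x = d (pi w)`).

`ob_ext`: `b` from `exists_glue`, `G` from `exists_secn`, `r` from `exists_nrm`.  By `extP_sv_one`
(`genBy_prism (n+1) (k+1) (n+k+1)`, the complex `⊤ = bx ⊤ ⊤`) `r` extends to all of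
`Δ^(n+1) × Δ^(k+1)` if `linExt r (dif e)` is a boundary of `(T.N (n+1)).sv`, i.e. (`proj_N`) if its image
in `W (n+1)`, `linExt b (dif e) + linExt G (dif e) = T.ob k n f F + d (linExt G e)`, is a boundary.
Then `stage_succ`.

`exists_stage_zero'`: `bx ⊤ (bd (k+1)) = box (bd 0) ⊤ (bd (k+1)) ⊤` in `Δ^0 × Δ^(k+1)`; `extP_sv_one`
with `genBy_prism 0 (k+1) k`, `dif (prismCh 0 (k+1) (k+1)) = prho k 0 k` (`rho_zero`).
-/

namespace MM

namespace Tower

private theorem A113_pi_act (T : Tower) (s : ℕ) {m n : ℕ} (g : Mo m n) (x : (T.W s).V n) :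
    (T.W s).act g ((T.cov n).pi s x) = (T.cov m).pi s ((T.W s).act g x) :=
  CoV.pi_map (T := T.cov n) (T' := T.cov m) (fun s => (T.W s).act g)
    (fun s i x => ((T.d s i).nat g x).symm) (fun s j x => ((T.σ s j).nat g x).symm) s x

private noncomputable def A113_pi (T : Tower) (s n : ℕ) : (T.W s).V n →+ (T.W s).V n :=
  AddMonoidHom.mk' ((T.cov n).pi s) (fun x y => CoV.pi_add (T.cov n) s x y)

private theorem A113_d_val {W : SV} (C : SubV W) {n : ℕ} (z : C.sv.V (n + 1)) :
    ((C.sv.d n z : C.sv.V n) : W.V n) = W.d n z.1 := by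
  simp only [SV.d, LinearMap.sum_apply]
  rw [← Submodule.subtype_apply, map_sum]
  rfl

private theorem A113_d_pi (T : Tower) (s n : ℕ) (w : (T.W s).V (n + 1)) :
    (T.W s).d n ((T.cov (n + 1)).pi s w) = (T.cov n).pi s ((T.W s).d n w) := by
  have h : (T.cov n).pi s ((T.W s).d n w) = A113_pi T s n ((T.W s).d n w) := rfl
  rw [h]
  simp only [SV.d, LinearMap.sum_apply, map_sum]
  exact Finset.sum_congr rfl fun i _ => A113_pi_act T s (dlt i) w

theorem mem_B_N (T : Tower) (s n : ℕ) (x : (T.N s).sv.V n) (hx : (x.1 : (T.W s).V n) ∈ (T.W s).B n) :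
    x ∈ (T.N s).sv.B n := by
  obtain ⟨w, hw⟩ := hx
  refine ⟨⟨(T.cov (n + 1)).pi s w, (T.mem_N s (n + 1) _).2 (CoV.nrm_pi (T.cov (n + 1)) s w)⟩, ?_⟩
  apply Subtype.ext
  rw [A113_d_val]
  show (T.W s).d n ((T.cov (n + 1)).pi s w) = x.1
  rw [A113_d_pi, hw]
  exact CoV.pi_of_nrm (T.cov n) s x.1 ((T.mem_N s n _).1 x.2)

private theorem A113_linExt {P : SS} {W : SV} (C : SubV W) {A : Sub P} (r : Fn P C.sv.ss)
    (b G : Fn P W.ss)
    (h : ∀ m, ∀ p ∈ A.car m, (((r m p : C.sv.V m)).1 : W.V m) = b m p + G m p) {n : ℕ}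
    {z : Ch P n} (hz : SuppIn A z) :
    ((linExt r n z : C.sv.V n).1 : W.V n) = linExt b n z + linExt G n z := by
  rw [linExt_apply, linExt_apply, linExt_apply]
  simp only [Finsupp.sum]
  rw [← Finset.sum_add_distrib, ← Submodule.subtype_apply, map_sum]
  refine Finset.sum_congr rfl fun x hx => ?_
  have h1 := h n x (hz x hx)
  show z x • ((r n x : C.sv.V n).1 : W.V n) = z x • (b n x : W.V n) + z x • (G n x : W.V n)
  rw [h1, smul_add]

theorem ob_ext (T : Tower) {k n : ℕ} {f F : ∀ s, Fn ((Del s).prod (Del (k + 1))) (T.W s).ss}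
    (hf : T.Fam (bd (k + 1)) f) (hF : T.Stage (bd (k + 1)) ⊤ f n F)
    (hob : T.ob k n f F ∈ (T.W (n + 1)).B (n + k + 1)) :
    ∃ F' : ∀ s, Fn ((Del s).prod (Del (k + 1))) (T.W s).ss,
      T.Stage (bd (k + 1)) ⊤ f (n + 1) F' ∧ ∀ s, s ≤ n → F' s = F s := by
  have hAC : (bd (k + 1) : Sub (Del (k + 1))) ≤ ⊤ := Sub.le_top' _
  obtain ⟨b, hb⟩ := T.exists_glue hAC hf hF
  obtain ⟨G, hG⟩ := T.exists_secn hF
  obtain ⟨r, hr, hrb⟩ := T.exists_nrm hAC hb hG
  have he := genBy_prism (n + 1) (k + 1) (n + k + 1) (by omega)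
  have hbG : linExt r (n + k + 1) (dif (prismCh (n + 1) (k + 1) (n + k + 1 + 1))) ∈
      (T.N (n + 1)).sv.B (n + k + 1) := by
    apply mem_B_N
    rw [A113_linExt (T.N (n + 1)) r b G hrb he.2.1]
    refine Submodule.add_mem _ ?_ ?_
    · have h1 := T.ob_eq hb
      have h2 : linExt b (n + k + 1) (dif (prismCh (n + 1) (k + 1) (n + k + 1 + 1))) =
          T.ob k n f F := h1
      rw [h2]
      exact hob
    · rw [linExt_dif hG.nat (fun x _ => ⟨trivial, trivial⟩)]
      exact LinearMap.mem_range_self _ _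
  obtain ⟨g, hg, hgr⟩ := extP_sv_one (T.N (n + 1)).sv (Sub.le_top' _) he r hr hbG
  exact T.stage_succ hAC hF hb hG g (fun h x _ => hg h x trivial) (fun m p hp => by
    rw [hgr m p hp]
    exact hrb m p hp)

theorem exists_stage_zero' (T : Tower) {k : ℕ}
    {f : ∀ s, Fn ((Del s).prod (Del (k + 1))) (T.W s).ss} (hf : T.Fam (bd (k + 1)) f)
    (hob : linExt (f 0) k (prho k 0 k) ∈ (T.W 0).B k) :
    ∃ F : ∀ s, Fn ((Del s).prod (Del (k + 1))) (T.W s).ss, T.Stage (bd (k + 1)) ⊤ f 0 F := by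
  have he := genBy_prism 0 (k + 1) k (by omega)
  have hA : ∀ n, ∀ x ∈ (Sub.box (bd 0) ⊤ (bd (k + 1)) ⊤).car n, x.2 ∈ (bd (k + 1)).car n := by
    intro n x hx
    rcases hx.2 with h | h
    · exact absurd (fun y => ⟨0, @Subsingleton.elim (Fin 1) _ _ _⟩) h
    · exact h
  obtain ⟨g, hg, hgr⟩ := extP_sv_one (T.W 0) (Sub.le_top' _) he (f 0)
    (fun h x hx => hf.nat 0 h x ⟨trivial, hA _ x hx⟩) (by rw [rho_zero k k]; exact hob)
  refine ⟨fun s => match s with
    | 0 => g
    | _ + 1 => fun _ _ => 0, ?_, ?_, ?_, ?_⟩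
  · intro s hs
    obtain rfl : s = 0 := by omega
    exact fun h x _ => hg h x trivial
  · intro s hs; omega
  · intro s hs; omega
  · intro s hs
    obtain rfl : s = 0 := by omega
    intro m θ x hx
    exact hgr m (θ, x) ⟨⟨trivial, trivial⟩, Or.inr hx⟩

end Tower

end MM

end

/-! ### from `Lib_MP_33f7bb_d.A114` -/

section

/-!
# A1-14: the obstruction theorem (T7) and the right lifting property (T8)

`ob_step`.  Let `F` be a stage `n`, `N = n + k + 1 ≥ 1`, `o = T.ob k n f F`.  `o` is a cycle (it is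
`linExt b (dif e)`, `ob_eq`, so a cycle since `dif e` is a cycle supported in the domain of `b`); let `u`
be a Moore cycle with `u + o` a boundary (`exists_moore`).  `σ^j u` is a boundary for `j ≤ n` (`ob_σ`,
`map_B`).  `del u` is a boundary (`ob_cocycle`), so by (H1) `u + del a` is a boundary for a Moore cycle
`a ∈ (W n)_N`, which can be chosen normalised (`exists_normalised`).  `ob_change` gives `F'` with
`ob F' + o + del a` a boundary, hence `ob F'` is a boundary; `ob_ext`.

`exists_stage_zero''`: `o = linExt (f 0) k (prho k 0 k)`; `k ≥ 1`: Moore representative, `ob0_cocycle`, first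
half of (H1); `k = 0`: (H0) and `ob0_cocycle_zero`.

`tot_ext_based` (T7): `Tower.exists_of_steps` and translation between `Tot` and families
(`fam_ofTot`, `exists_toTot`, `eq_of_fam`); the base condition `f 0 (cst 0) = T.tot0 0` gives `hbase`.

`tot_rlp` (T8).  `k = 0`: extend by `T.tot0`.  `k + 1`: let `y = f 0 (cst 0)`, a vertex of `Tot`.  By T7
for `k + 1 = 1` (vertices `0` and `y`) there is an edge `c ∈ Tot_1` from `T.tot0 0` to `y`.  Extend the
function on `{1} × ∂Δ^(k+1) ∪ Δ^1 × {vertex 0}` given by `f` and `c` over `Δ^1 × ∂Δ^(k+1)`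
(`acyc_hep` with `i = 1`, `tot_ext`): `H`.  `H` at `0` is a map on `∂Δ^(k+1)` with value `T.tot0 0` at
the vertex `0`; extend it to `Δ^(k+1)` by T7.  Extend the function on
`{0} × Δ^(k+1) ∪ Δ^1 × ∂Δ^(k+1)` over `Δ^1 × Δ^(k+1)` (`acyc_hep` with `i = 0`, `tot_ext`) and take
the value at `1`.
-/

namespace MM

private theorem A114_sum {M : Type*} [AddCommGroup M] [Module (ZMod 2) M]
    (B : Submodule (ZMod 2) M) {a b c u : M} (h1 : a + b + c ∈ B) (h2 : u + c ∈ B)
    (h3 : u + b ∈ B) : a ∈ B := by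
  have h := B.add_mem (B.add_mem h1 h2) h3
  have e : a + b + c + (u + c) + (u + b) = a + (b + b) + (c + c) + (u + u) := by abel
  rw [e, two_eq_zero' b, two_eq_zero' c, two_eq_zero' u, add_zero, add_zero, add_zero] at h
  exact h

private theorem A114_two {M : Type*} [AddCommGroup M] [Module (ZMod 2) M]
    (B : Submodule (ZMod 2) M) {o w : M} (hw : w ∈ B) : o + w + o ∈ B := by
  have e : o + w + o = w + (o + o) := by abel
  rw [e, two_eq_zero', add_zero]
  exact hw

private theorem A114_back {M : Type*} [AddCommGroup M] [Module (ZMod 2) M]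
    (B : Submodule (ZMod 2) M) {o w : M} (hw : w ∈ B) (h : o + w ∈ B) : o ∈ B := by
  have := B.sub_mem h hw
  rwa [add_sub_cancel_right] at this

private theorem A114_cst_mem (k m : ℕ) (i : Fin (k + 2)) :
    (cst i : Mo m (k + 1)) ∈ (bd (k + 1)).car m := by
  intro hs
  have h0 : ∀ y : Fin (k + 2), y = i := fun y => by
    obtain ⟨z, hz⟩ := hs y
    exact hz.symm
  have h1 := h0 0
  have h2 := h0 1
  rw [← h2] at h1
  exact absurd h1 (by
    intro h
    have := congrArg Fin.val h
    simp at this)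

private theorem A114_bd_zero {m : ℕ} (θ : Mo m 0) : θ ∉ (bd 0).car m := by
  intro h
  refine h fun y => ⟨0, ?_⟩
  exact Subsingleton.elim (α := Fin 1) _ _

/-- a non surjective map to `[1]` is constant -/
private theorem A114_const {m : ℕ} {x : Mo m 1} (hx : x ∈ (bd 1).car m) (t : Fin (m + 1)) :
    x t = x 0 := by
  by_contra hne
  apply hx
  intro y
  have h : ∀ a b y : Fin 2, a ≠ b → y = a ∨ y = b := by decide
  rcases h (x t) (x 0) y hne with rfl | rfl
  · exact ⟨t, rfl⟩
  · exact ⟨0, rfl⟩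

private theorem A114_box_le {Q P : SS} {K' : Sub Q} {A C : Sub P} :
    Sub.box K' ⊤ A C ≤ Sub.bx ⊤ C := fun _ _ hx => (Sub.mem_box.1 hx).1

private theorem A114_cst_ne {m : ℕ} : (cst 0 : Mo m 1) ≠ cst 1 := by
  intro h
  have h1 := congrArg (fun x : Mo m 1 => x 0) h
  exact absurd h1 (by
    show ¬ ((0 : Fin 2) = 1)
    decide)

namespace Tower

theorem ob_step (T : Tower) (h1 : T.H1) {k n : ℕ}
    {f F : ∀ s, Fn ((Del s).prod (Del (k + 1))) (T.W s).ss}
    (hf : T.Fam (bd (k + 1)) f) (hF : T.Stage (bd (k + 1)) ⊤ f n F)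
    (hbase : ∀ s, f s 0 ((cst 0, cst 0) : Mo 0 s × Mo 0 (k + 1)) = 0) :
    ∃ F' : ∀ s, Fn ((Del s).prod (Del (k + 1))) (T.W s).ss,
      T.Stage (bd (k + 1)) ⊤ f (n + 1) F' ∧ ∀ s, s < n → F' s = F s := by
  have hN : 1 ≤ n + k + 1 := by omega
  obtain ⟨b, hb⟩ := T.exists_glue (Sub.le_top' (bd (k + 1))) hf hF
  have he := genBy_prism (n + 1) (k + 1) (n + k + 1) (by omega)
  have hob := T.ob_eq hb
  have hz : T.ob k n f F ∈ (T.W (n + 1)).Z (n + k + 1) := by
    show (T.W (n + 1)).d (n + k) (T.ob k n f F) = 0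
    rw [← hob, ← linExt_dif hb.nat he.2.1, dif_dif, map_zero]
  obtain ⟨w, hw⟩ := exists_moore (T.W (n + 1)) (T.ob k n f F) hz
  have hwB : (T.W (n + 1)).d (n + k + 1) w ∈ (T.W (n + 1)).B (n + k + 1) :=
    LinearMap.mem_range_self _ _
  have hou : T.ob k n f F + (T.W (n + 1)).d (n + k + 1) w + T.ob k n f F ∈
      (T.W (n + 1)).B (n + k + 1) := A114_two _ hwB
  have hσ : ∀ j ≤ n, (T.σ n j).app (n + k + 1) (T.ob k n f F + (T.W (n + 1)).d (n + k + 1) w) ∈
      (T.W n).B (n + k + 1) := by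
    intro j hj
    rw [map_add]
    exact Submodule.add_mem _ (T.ob_σ hf hF j hj) (map_B (T.σ n j) hwB)
  have hdel := T.ob_cocycle hf hF hbase _ hw hou
  obtain ⟨a, ha, hua⟩ := (h1 (n + k + 1) hN).2 n _ hw hdel
  obtain ⟨a', ha', haN, hua'⟩ := T.exists_normalised hN _ hw hσ a ha hua
  obtain ⟨F', hF', hs, hB⟩ := T.ob_change hf hF hbase a' ha' haN
  obtain ⟨F'', hF'', hs'⟩ := T.ob_ext hf hF' (A114_sum _ hB hua' hou)
  exact ⟨F'', hF'', fun s h => (hs' s (le_of_lt h)).trans (hs s h)⟩

theorem exists_stage_zero'' (T : Tower) (h1 : T.H1) (h0 : T.H0) {k : ℕ}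
    {f : ∀ s, Fn ((Del s).prod (Del (k + 1))) (T.W s).ss}
    (hf : T.Fam (bd (k + 1)) f)
    (hbase : ∀ s, f s 0 ((cst 0, cst 0) : Mo 0 s × Mo 0 (k + 1)) = 0) :
    ∃ F : ∀ s, Fn ((Del s).prod (Del (k + 1))) (T.W s).ss, T.Stage (bd (k + 1)) ⊤ f 0 F := by
  refine T.exists_stage_zero' hf ?_
  cases k with
  | zero => exact h0 _ (T.ob0_cocycle_zero hf hbase)
  | succ k =>
    have hz : linExt (f 0) (k + 1) (prho (k + 1) 0 (k + 1)) ∈ (T.W 0).Z (k + 1) := by
      show (T.W 0).d k (linExt (f 0) (k + 1) (prho (k + 1) 0 (k + 1))) = 0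
      rw [← linExt_dif (hf.nat 0) (rho_supp (k + 1) 0 (k + 1)), ← rho_zero, dif_dif, map_zero]
    obtain ⟨w, hw⟩ := exists_moore (T.W 0) _ hz
    have hwB : (T.W 0).d (k + 1) w ∈ (T.W 0).B (k + 1) := LinearMap.mem_range_self _ _
    have hdel := T.ob0_cocycle hf hbase (by omega) _ hw (A114_two _ hwB)
    exact A114_back _ hwB ((h1 (k + 1) (by omega)).1 _ hw hdel)

/-- (T7) -/
theorem tot_ext_based (T : Tower) (h1 : T.H1) (h0 : T.H0) {k : ℕ} (f : Fn (Del (k + 1)) T.Tot)
    (hf : NatOn (bd (k + 1)) f) (hbase : f 0 (cst 0 : Mo 0 (k + 1)) = T.tot0 0) :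
    ∃ g : Fn (Del (k + 1)) T.Tot, NatOn ⊤ g ∧
      ∀ n, ∀ x ∈ (bd (k + 1)).car n, g n x = f n x := by
  have hfam := T.fam_ofTot (bd (k + 1)) f hf
  have hb : ∀ s, (fun s n (p : ((Del s).prod (Del (k + 1))).S n) =>
      ((f n p.2).1 s).app n (p.1, OrderHom.id)) s 0 ((cst 0, cst 0) : Mo 0 s × Mo 0 (k + 1)) =
      (0 : (T.W s).V 0) := by
    intro s
    show ((f 0 (cst 0 : Mo 0 (k + 1))).1 s).app 0 (cst 0, OrderHom.id) = (0 : (T.W s).V 0)
    rw [hbase]
    rfl
  obtain ⟨G, hG, hGf⟩ := T.exists_of_steps _ (T.exists_stage_zero'' h1 h0 hfam hb)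
    (fun n F hF => T.ob_step h1 hfam hF hb)
  obtain ⟨g, hg, hgG⟩ := T.exists_toTot ⊤ G hG
  refine ⟨g, hg, ?_⟩
  refine T.eq_of_fam (bd (k + 1)) g f (fun h x _ => hg h x trivial) hf ?_
  intro s m x hx θ
  rw [hgG m x trivial s m θ OrderHom.id]
  exact hGf s m θ x hx

private theorem A114_tot0 (T : Tower) {m n : ℕ} (g : Mo m n) :
    T.Tot.act g (T.tot0 n) = T.tot0 m := rfl

/-- every vertex of `Tot` is joined to the base vertex -/
theorem exists_edge (T : Tower) (h1 : T.H1) (h0 : T.H0) (y : T.Tot.S 0) :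
    ∃ c : T.Tot.S 1, T.Tot.act (cst 0 : Mo 0 1) c = T.tot0 0 ∧
      T.Tot.act (cst 1 : Mo 0 1) c = y := by
  classical
  let f : Fn (Del 1) T.Tot := fun n x =>
    if (x : Mo n 1) 0 = 0 then T.tot0 n else T.Tot.act (cst 0 : Mo n 0) y
  have hf : NatOn (bd 1) f := by
    intro m n g x hx
    have hx0 : ((Del 1).act g x : Mo m 1) 0 = (x : Mo n 1) 0 := A114_const hx (g 0)
    by_cases hc : (x : Mo n 1) 0 = 0
    · have e1 : f n x = T.tot0 n := if_pos hc
      have e2 : f m ((Del 1).act g x) = T.tot0 m := if_pos (hx0.trans hc)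
      rw [e1, e2]
      rfl
    · have e1 : f n x = T.Tot.act (cst 0 : Mo n 0) y := if_neg hc
      have e2 : f m ((Del 1).act g x) = T.Tot.act (cst 0 : Mo m 0) y :=
        if_neg (fun h => hc (hx0.symm.trans h))
      rw [e1, e2]
      rfl
  obtain ⟨g, hg, hgf⟩ := T.tot_ext_based h1 h0 (k := 0) f hf (if_pos rfl)
  refine ⟨g 1 (OrderHom.id : Mo 1 1), ?_, ?_⟩
  · have e := hg (cst 0 : Mo 0 1) (OrderHom.id : Mo 1 1) trivial
    rw [← e]
    have e2 : g 0 ((Del 1).act (cst 0 : Mo 0 1) (OrderHom.id : Mo 1 1)) =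
        f 0 (cst 0 : Mo 0 1) := hgf 0 (cst 0) (A114_cst_mem 0 0 0)
    rw [e2]
    exact if_pos rfl
  · have e := hg (cst 1 : Mo 0 1) (OrderHom.id : Mo 1 1) trivial
    rw [← e]
    have e2 : g 0 ((Del 1).act (cst 1 : Mo 0 1) (OrderHom.id : Mo 1 1)) =
        f 0 (cst 1 : Mo 0 1) := hgf 0 (cst 1) (A114_cst_mem 0 0 1)
    rw [e2]
    have e3 : f 0 (cst 1 : Mo 0 1) = T.Tot.act (cst 0 : Mo 0 0) y :=
      if_neg (by show ¬ ((1 : Fin 2) = 0); decide)
    rw [e3]
    have e4 : (cst 0 : Mo 0 0) = OrderHom.id := by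
      ext t
      have h1 := ((cst 0 : Mo 0 0) t).2
      have h2 := ((OrderHom.id : Mo 0 0) t).2
      omega
    rw [e4]
    exact T.Tot.act_id y

/-- (T8) -/
theorem tot_rlp (T : Tower) (h1 : T.H1) (h0 : T.H0) (k : ℕ) :
    ExtP T.Tot (bd k) (⊤ : Sub (Del k)) := by
  classical
  cases k with
  | zero =>
    intro f _
    exact ⟨fun n _ => T.tot0 n, fun g x _ => rfl, fun n x hx => absurd hx (A114_bd_zero x)⟩
  | succ k =>
    intro f hf
    obtain ⟨c, hc0, hc1⟩ := T.exists_edge h1 h0 (f 0 (cst 0 : Mo 0 (k + 1)))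
    -- step A
    have hA : Sub.pt (P := Del (k + 1)) (cst 0 : Mo 0 (k + 1)) ≤ bd (k + 1) := by
      intro n x hx
      have hx' : x = (cst 0 : Mo n (k + 1)) := hx
      rw [hx']
      exact A114_cst_mem k n 0
    let f1 : Fn ((Del 1).prod (Del (k + 1))) T.Tot := fun n p =>
      if (p.1 : Mo n 1) = cst 1 then f n p.2 else T.Tot.act (p.1 : Mo n 1) c
    have hfc : ∀ m, f m (cst 0 : Mo m (k + 1)) = T.Tot.act (cst 1 : Mo m 1) c := by
      intro m
      have e1 : f m (cst 0 : Mo m (k + 1)) =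
          T.Tot.act (cst 0 : Mo m 0) (f 0 (cst 0 : Mo 0 (k + 1))) :=
        hf (cst 0 : Mo m 0) (cst 0 : Mo 0 (k + 1)) (A114_cst_mem k 0 0)
      rw [e1, ← hc1, T.Tot.act_comp]
      rfl
    have hf1 : NatOn (Sub.box (Sub.pt (P := Del 1) (cst 1 : Mo 0 1)) ⊤
        (Sub.pt (P := Del (k + 1)) (cst 0 : Mo 0 (k + 1))) (bd (k + 1))) f1 := by
      rintro m n g ⟨a, x⟩ hx
      obtain ⟨⟨-, hxC⟩, hx2⟩ := Sub.mem_box.1 hx
      by_cases ha : (a : Mo n 1) = cst 1
      · have e1 : f1 n (a, x) = f n x := if_pos ha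
        have e2 : f1 m (((Del 1).prod (Del (k + 1))).act g (a, x)) =
            f m ((Del (k + 1)).act g x) := if_pos (by
          show (a : Mo n 1).comp g = cst 1
          rw [ha]
          rfl)
        rw [e1, e2]
        exact hf g x hxC
      · have hx0 : x = (cst 0 : Mo n (k + 1)) := by
          rcases hx2 with h | h
          · exact absurd h ha
          · exact h
        have e1 : f1 n (a, x) = T.Tot.act (a : Mo n 1) c := if_neg ha
        rw [e1, T.Tot.act_comp]
        by_cases ha' : (a : Mo n 1).comp g = cst 1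
        · have e2 : f1 m (((Del 1).prod (Del (k + 1))).act g (a, x)) =
              f m ((Del (k + 1)).act g x) := if_pos ha'
          rw [e2, hx0, ha']
          exact hfc m
        · exact if_neg ha'
    obtain ⟨H, hH, hHf⟩ := T.tot_ext A114_box_le
      (acyc_hep hA 1) f1 hf1
    -- step B
    have hb0 : NatOn (bd (k + 1)) (fun n x => H n ((cst 0 : Mo n 1), x) :
        Fn (Del (k + 1)) T.Tot) := by
      intro m n g x hx
      exact hH g ((cst 0 : Mo n 1), x) ⟨trivial, hx⟩
    obtain ⟨G, hG, hGf⟩ := T.tot_ext_based h1 h0 (k := k)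
      (fun n x => H n ((cst 0 : Mo n 1), x)) hb0 (by
        have e1 : H 0 ((cst 0 : Mo 0 1), (cst 0 : Mo 0 (k + 1))) =
            f1 0 ((cst 0 : Mo 0 1), (cst 0 : Mo 0 (k + 1))) :=
          hHf 0 ((cst 0 : Mo 0 1), (cst 0 : Mo 0 (k + 1)))
            ⟨⟨trivial, A114_cst_mem k 0 0⟩, Or.inr rfl⟩
        have e2 : f1 0 ((cst 0 : Mo 0 1), (cst 0 : Mo 0 (k + 1))) =
            T.Tot.act (cst 0 : Mo 0 1) c := if_neg A114_cst_ne
        exact e1.trans (e2.trans hc0))
    -- step C
    let f2 : Fn ((Del 1).prod (Del (k + 1))) T.Tot := fun n p =>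
      if (p.1 : Mo n 1) = cst 0 then G n p.2 else H n p
    have hf2 : NatOn (Sub.box (Sub.pt (P := Del 1) (cst 0 : Mo 0 1)) ⊤
        (bd (k + 1)) (⊤ : Sub (Del (k + 1)))) f2 := by
      rintro m n g ⟨a, x⟩ hx
      obtain ⟨-, hx2⟩ := Sub.mem_box.1 hx
      by_cases ha : (a : Mo n 1) = cst 0
      · have e1 : f2 n (a, x) = G n x := if_pos ha
        have e2 : f2 m (((Del 1).prod (Del (k + 1))).act g (a, x)) =
            G m ((Del (k + 1)).act g x) := if_pos (by
          show (a : Mo n 1).comp g = cst 0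
          rw [ha]
          rfl)
        rw [e1, e2]
        exact hG g x trivial
      · have hxb : x ∈ (bd (k + 1)).car n := by
          rcases hx2 with h | h
          · exact absurd h ha
          · exact h
        have e1 : f2 n (a, x) = H n (a, x) := if_neg ha
        have e3 := hH g (a, x) ⟨trivial, hxb⟩
        rw [e1, ← e3]
        by_cases ha' : (a : Mo n 1).comp g = cst 0
        · have e2 : f2 m (((Del 1).prod (Del (k + 1))).act g (a, x)) =
              G m ((Del (k + 1)).act g x) := if_pos ha'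
          rw [e2, hGf m _ ((bd (k + 1)).closed g hxb), ← ha']
        · exact if_neg ha'
    obtain ⟨K, hK, hKf⟩ := T.tot_ext A114_box_le
      (acyc_hep (Sub.le_top' (bd (k + 1))) 0) f2 hf2
    refine ⟨fun n x => K n ((cst 1 : Mo n 1), x), ?_, ?_⟩
    · intro m n g x _
      exact hK g ((cst 1 : Mo n 1), x) ⟨trivial, trivial⟩
    · intro n x hx
      have e1 : K n ((cst 1 : Mo n 1), x) = f2 n ((cst 1 : Mo n 1), x) :=
        hKf n ((cst 1 : Mo n 1), x) ⟨⟨trivial, trivial⟩, Or.inr hx⟩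
      have e2 : f2 n ((cst 1 : Mo n 1), x) = H n ((cst 1 : Mo n 1), x) :=
        if_neg (fun h => A114_cst_ne h.symm)
      have e3 : H n ((cst 1 : Mo n 1), x) = f1 n ((cst 1 : Mo n 1), x) :=
        hHf n ((cst 1 : Mo n 1), x) ⟨⟨trivial, hx⟩, Or.inl rfl⟩
      have e4 : f1 n ((cst 1 : Mo n 1), x) = f n x := if_pos rfl
      exact e1.trans (e2.trans (e3.trans e4))

end Tower

end MM

end

/-! ### from `Lib_MP_33f7bb_d.A2Defs` -/

section

/-!
# A2, more definitions: the base component, extension for all acyclic pairs, the coaugmentation,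
the projection of Tot to the level 0, the collapse `∂Δ^(N+1) → Δ^N/∂Δ^N`.
-/

namespace MM

/-- extension property for all acyclic pairs -/
def ExtAll (Y : SS) : Prop := ∀ (P : SS) (A C : Sub P), A ≤ C → Acyc A C → ExtP Y A C

/-- the vertex `y` is joined to `p` by an edge from `p` to `y` -/
def Joined {P : SS} (p y : P.S 0) : Prop :=
  ∃ e : P.S 1, P.act (cst 0 : Mo 0 1) e = p ∧ P.act (cst 1 : Mo 0 1) e = y

/-- the base component: simplices all of whose vertices are joined to `p` -/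
def Sub.comp {P : SS} (p : P.S 0) : Sub P :=
  ⟨fun n => {x | ∀ i : Fin (n + 1), Joined p (P.act (cst i : Mo 0 n) x)}, by
    intro m n f x hx i
    have h := hx (f i)
    rw [P.act_comp]
    exact h⟩

theorem joined_self {P : SS} (p : P.S 0) : Joined p p :=
  ⟨P.act (cst 0) p, by rw [P.act_comp]; exact (by
      have h1 : ((cst 0 : Mo 1 0).comp (cst 0 : Mo 0 1)) = OrderHom.id := by ext i; simp [cst]
      rw [h1, P.act_id]), by rw [P.act_comp]; exact (by
      have h1 : ((cst 0 : Mo 1 0).comp (cst 1 : Mo 0 1)) = OrderHom.id := by ext i; simp [cst]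
      rw [h1, P.act_id])⟩

theorem act_cst_zero {P : SS} (y : P.S 0) (i : Fin 1) : P.act (cst i : Mo 0 0) y = y := by
  have h1 : (cst i : Mo 0 0) = OrderHom.id := by
    ext j; simp [cst]
  rw [h1, P.act_id]

theorem mem_comp_zero {P : SS} (p y : P.S 0) : y ∈ (Sub.comp p).car 0 ↔ Joined p y := by
  constructor
  · intro h
    have := h 0
    rwa [act_cst_zero] at this
  · intro h i
    rwa [act_cst_zero]

/-- a simplex is in the base component iff all its vertices are -/
theorem mem_comp {P : SS} (p : P.S 0) {n : ℕ} (x : P.S n) :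
    x ∈ (Sub.comp p).car n ↔ ∀ i : Fin (n + 1), P.act (cst i : Mo 0 n) x ∈ (Sub.comp p).car 0 := by
  constructor
  · intro h i
    exact (mem_comp_zero p _).2 (h i)
  · intro h i
    exact (mem_comp_zero p _).1 (h i)

theorem deg_mem_comp {P : SS} (p : P.S 0) (n : ℕ) : P.deg p n ∈ (Sub.comp p).car n := by
  intro i
  show Joined p (P.act (cst i) (P.act (cst 0) p))
  rw [P.act_comp]
  have h1 : ((cst 0 : Mo n 0).comp (cst i : Mo 0 n)) = OrderHom.id := by ext i; simp [cst]
  rw [h1, P.act_id]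
  exact joined_self p

/-- the base component of `Tot` -/
abbrev Tower.Y (T : Tower) : SS := (Sub.comp (P := T.Tot) (T.tot0 0)).ss

theorem Tower.deg_tot0 (T : Tower) (n : ℕ) : T.Tot.deg (T.tot0 0) n = T.tot0 n := rfl

/-- the coaugmentation `X → resV s`: iterated `d^0` -/
noncomputable def coaug (X : SS) (x₀ : X.S 0) : ∀ s, Hom X (resV X x₀ s).ss
  | 0 => (resD X x₀ 0 0).f
  | s + 1 => (resD X x₀ (s + 1) 0).f.comp (coaug X x₀ s)

/-- the projection of `Tot` to the level `0` -/
def Tower.pr0 (T : Tower) : Hom T.Tot (T.W 0).ss :=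
  ⟨fun n f => (f.1 0).app n ((cst 0 : Mo n 0), OrderHom.id), fun {m n} g f => by
    show (f.1 0).app m ((cst 0 : Mo m 0), g.comp OrderHom.id) = _
    exact (f.1 0).nat g ((cst 0 : Mo n 0), OrderHom.id)⟩

theorem SpS_act_some {N m n : ℕ} (g : Mo m n) (θ : Mo n N) (hθ : Function.Surjective θ)
    (h : Function.Surjective (θ.comp g)) :
    (SpS N).act g (some ⟨θ, hθ⟩) = some ⟨θ.comp g, h⟩ := by
  exact dif_pos h

theorem SpS_act_some_none {N m n : ℕ} (g : Mo m n) (θ : Mo n N) (hθ : Function.Surjective θ)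
    (h : ¬ Function.Surjective (θ.comp g)) :
    (SpS N).act g (some ⟨θ, hθ⟩) = none := by
  exact dif_neg h

theorem SpS_act_none {N m n : ℕ} (g : Mo m n) : (SpS N).act g none = none := rfl

/-- the map `∂Δ^(N+1) → Δ^N/∂Δ^N` which collapses all faces except `δ_0` -/
noncomputable def collapse (N : ℕ) : Hom (bd (N + 1)).ss (SpS N) where
  app n x := open Classical in
    if h : (∀ t, (x.1 : Mo n (N + 1)) t ≠ 0) ∧
      Function.Surjective ((sgm (0 : Fin (N + 1))).comp (x.1 : Mo n (N + 1))) then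
      some ⟨(sgm (0 : Fin (N + 1))).comp (x.1 : Mo n (N + 1)), h.2⟩ else none
  nat {m n} g x := by
    classical
    obtain ⟨x, hx⟩ := x
    by_cases h : (∀ t, (x : Mo n (N + 1)) t ≠ 0) ∧
      Function.Surjective ((sgm (0 : Fin (N + 1))).comp (x : Mo n (N + 1)))
    · show (if h : (∀ t, ((x : Mo n (N + 1)).comp g) t ≠ 0) ∧
        Function.Surjective ((sgm (0 : Fin (N + 1))).comp ((x : Mo n (N + 1)).comp g)) then
        (some ⟨(sgm (0 : Fin (N + 1))).comp ((x : Mo n (N + 1)).comp g), h.2⟩ : (SpS N).S m)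
        else none) = (SpS N).act g (if h : (∀ t, (x : Mo n (N + 1)) t ≠ 0) ∧
        Function.Surjective ((sgm (0 : Fin (N + 1))).comp (x : Mo n (N + 1))) then
        (some ⟨(sgm (0 : Fin (N + 1))).comp (x : Mo n (N + 1)), h.2⟩ : (SpS N).S n) else none)
      rw [dif_pos h]
      by_cases h2 : Function.Surjective (((sgm (0 : Fin (N + 1))).comp (x : Mo n (N + 1))).comp g)
      · rw [SpS_act_some _ _ _ h2]
        exact dif_pos ⟨fun t => h.1 (g t), h2⟩
      · rw [SpS_act_some_none _ _ _ h2]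
        exact dif_neg fun h3 => h2 h3.2
    · show (if h : (∀ t, ((x : Mo n (N + 1)).comp g) t ≠ 0) ∧
        Function.Surjective ((sgm (0 : Fin (N + 1))).comp ((x : Mo n (N + 1)).comp g)) then
        (some ⟨(sgm (0 : Fin (N + 1))).comp ((x : Mo n (N + 1)).comp g), h.2⟩ : (SpS N).S m)
        else none) = (SpS N).act g (if h : (∀ t, (x : Mo n (N + 1)) t ≠ 0) ∧
        Function.Surjective ((sgm (0 : Fin (N + 1))).comp (x : Mo n (N + 1))) then
        (some ⟨(sgm (0 : Fin (N + 1))).comp (x : Mo n (N + 1)), h.2⟩ : (SpS N).S n) else none)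
      rw [dif_neg h, SpS_act_none]
      refine dif_neg fun h3 => h ?_
      have key : ∀ y : Fin (N + 2), y ≠ 0 → ∃ t, (x : Mo n (N + 1)) (g t) = y := by
        intro y hy
        obtain ⟨t, ht⟩ := h3.2 (y.pred hy)
        refine ⟨t, ?_⟩
        have h5 : (x : Mo n (N + 1)) (g t) ≠ 0 := h3.1 t
        have h4 : Fin.predAbove (0 : Fin (N + 1)) ((x : Mo n (N + 1)) (g t)) = y.pred hy := ht
        rw [Fin.predAbove_zero_of_ne_zero h5] at h4
        exact Fin.pred_inj.1 h4
      refine ⟨fun t ht => hx fun y => ?_, fun y => ?_⟩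
      · by_cases hy : y = 0
        · exact ⟨t, by rw [ht, hy]⟩
        · obtain ⟨t', ht'⟩ := key y hy
          exact ⟨g t', ht'⟩
      · obtain ⟨t, ht⟩ := h3.2 y
        exact ⟨g t, ht⟩

end MM

end

/-! ### from `Lib_MP_33f7bb_d.A2Fin` -/

section

/-!
# A2: finiteness and connectivity of the resolution
-/

namespace MM

theorem finite_Ch {P : SS} (n : ℕ) (h : Finite (P.S n)) : Finite (Ch P n) :=
  Finite.of_injective (fun c : Ch P n => (c : P.S n → ZMod 2)) DFunLike.coe_injective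

theorem finite_R {Z : SS} (z₀ : Z.S 0) (n : ℕ) (h : Finite (Z.S n)) : Finite ((R Z z₀).V n) := by
  have := finite_Ch n h
  exact Quotient.finite _

theorem R_eq_zero {Z : SS} (z₀ : Z.S 0) (n : ℕ) (h : ∀ x : Z.S n, x = Z.deg z₀ n)
    (y : (R Z z₀).V n) : y = 0 := by
  have hy : y ∈ Submodule.span (ZMod 2) (Set.range ((R.of z₀).app n)) := by
    rw [R.span]; trivial
  induction hy using Submodule.span_induction with
  | mem x hx =>
    obtain ⟨u, rfl⟩ := hx
    rw [h u]
    exact R.of_base z₀ n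
  | zero => rfl
  | add a b _ _ ha hb => rw [ha, hb, add_zero]
  | smul r a _ ha => rw [ha, smul_zero]

theorem deg_zv (V : SV) (n : ℕ) : V.ss.deg V.zv n = (0 : V.V n) := map_zero (V.act _)

theorem resU_finite (X : SS) (x₀ : X.S 0) (hX : ∀ n, Finite (X.S n)) :
    ∀ s n, Finite ((resU X x₀ s).Z.S n)
  | 0, n => hX n
  | s + 1, n => finite_R _ n (resU_finite X x₀ hX s n)

theorem resV_finite (X : SS) (x₀ : X.S 0) (hX : ∀ n, Finite (X.S n)) (s n : ℕ) :
    Finite ((resV X x₀ s).V n) := finite_R _ n (resU_finite X x₀ hX s n)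

theorem resU_eq_base (X : SS) (x₀ : X.S 0) (n : ℕ) (h : ∀ x : X.S n, x = X.deg x₀ n) :
    ∀ s, ∀ x : (resU X x₀ s).Z.S n, x = (resU X x₀ s).Z.deg (resU X x₀ s).pt n
  | 0, x => h x
  | s + 1, x => (R_eq_zero (resU X x₀ s).pt n (resU_eq_base X x₀ n h s) x).trans
      (deg_zv _ n).symm

theorem resV_eq_zero (X : SS) (x₀ : X.S 0) (n : ℕ) (h : ∀ x : X.S n, x = X.deg x₀ n) (s : ℕ)
    (x : (resV X x₀ s).V n) : x = 0 :=
  R_eq_zero (resU X x₀ s).pt n (resU_eq_base X x₀ n h s) x

theorem SpS_finite (N n : ℕ) : Finite ((SpS N).S n) := by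
  have : Finite {θ : Mo n N // Function.Surjective θ} := inferInstance
  exact inferInstanceAs (Finite (Option {θ : Mo n N // Function.Surjective θ}))

/-- below dimension `N` the sphere has only base simplices -/
theorem SpS_eq_base (N n : ℕ) (h : n < N) (x : (SpS N).S n) :
    x = (SpS N).deg (none : (SpS N).S 0) n := by
  cases x with
  | none => rfl
  | some θ =>
    exfalso
    have h1 := Fintype.card_le_of_surjective _ θ.2
    simp at h1
    omega

theorem resV_SpS_finite (N s n : ℕ) : Finite ((resV (SpS N) none s).V n) :=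
  resV_finite _ _ (SpS_finite N) s n

theorem resV_SpS_eq_zero (N s n : ℕ) (h : n < N) (x : (resV (SpS N) none s).V n) : x = 0 :=
  resV_eq_zero _ _ n (SpS_eq_base N n h) s x

theorem resV_SpS_H (N s n : ℕ) (h : n < N) (x : (resV (SpS N) none s).H n) : x = 0 := by
  obtain ⟨⟨z, hz⟩, rfl⟩ := Submodule.Quotient.mk_surjective _ x
  rw [Submodule.Quotient.mk_eq_zero]
  show z ∈ (resV (SpS N) none s).B n
  rw [resV_SpS_eq_zero N s n h z]
  exact Submodule.zero_mem _

end MM

end

/-! ### from `Lib_MP_33f7bb_d.A202` -/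

section

/-!
# A2-02: compact topologies on `Tot` and on the base component

`exists_tot_topology`: give every finite set `(T.W s).V n` the discrete topology and `T.Tot.S m` the
topology induced by the injection `f ↦ (s, n, p) ↦ (f.1 s).app n p` into the product over all `s`, `n`,
`p : Mo n s × Mo n m`.  The product is compact Hausdorff (Tychonoff) and the image is closed: naturality
and the conditions `IsTot` are closed conditions (each involves only two coordinates, and any function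
between discrete spaces is continuous).  `act g` is continuous: its coordinate `(s, n, (θ, τ))` is the
coordinate `(s, n, (θ, g.comp τ))`.
Practical hint: work with `let X := ∀ s n, Mo n s × Mo n m → (T.W s).V n` with instances
`(inferInstance : TopologicalSpace)` built from `⊥`, and `Topology.IsClosedEmbedding`.

`exists_comp_topology`: the subspace topology.  The set of `y ∈ P_0` joined to `p` is the image of the
compact set `{e | act (cst 0) e = p}` (closed in the compact `P_1`, `P_0` is Hausdorff) under the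
continuous map `act (cst 1)`, so it is compact, so closed; `(Sub.comp p).car n` is the intersection of the
preimages of this set under the continuous maps `act (cst i)`.
-/

namespace MM

/-- the ambient product of finite sets -/
private abbrev a202X (T : Tower) (m : ℕ) : Type :=
  ∀ (s n : ℕ), Mo n s × Mo n m → (T.W s).V n

private def a202ev (T : Tower) (m : ℕ) (f : T.Tot.S m) : a202X T m :=
  fun s n p => (f.1 s).app n p

private theorem a202ev_inj (T : Tower) (m : ℕ) : Function.Injective (a202ev T m) := by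
  intro f g h
  apply Subtype.ext
  funext s
  apply Hom.ext
  funext n p
  exact congrFun (congrFun (congrFun h s) n) p

/-- the closed conditions -/
private structure A202C (T : Tower) (m : ℕ) (x : a202X T m) : Prop where
  nat : ∀ (s k l : ℕ) (g : Mo k l) (p : Mo l s × Mo l m),
    x s k (p.1.comp g, p.2.comp g) = (T.W s).act g (x s l p)
  d : ∀ (s i n : ℕ) (θ : Mo n s) (τ : Mo n m), i ≤ s + 1 →
    x (s + 1) n ((dl s i).comp θ, τ) = (T.d s i).app n (x s n (θ, τ))
  σ : ∀ (s j n : ℕ) (θ : Mo n (s + 1)) (τ : Mo n m), j ≤ s →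
    x s n ((sg s j).comp θ, τ) = (T.σ s j).app n (x (s + 1) n (θ, τ))

private theorem a202range (T : Tower) (m : ℕ) :
    Set.range (a202ev T m) = {x | A202C T m x} := by
  ext x
  constructor
  · rintro ⟨f, rfl⟩
    exact ⟨fun s k l g p => (f.1 s).nat g p, fun s i n θ τ hi => f.2.d s i n θ τ hi,
      fun s j n θ τ hj => f.2.σ s j n θ τ hj⟩
  · intro hx
    exact ⟨⟨fun s => ⟨fun n p => x s n p, fun {k l} g p => hx.nat s k l g p⟩,
      ⟨fun s i n θ τ hi => hx.d s i n θ τ hi, fun s j n θ τ hj => hx.σ s j n θ τ hj⟩⟩, rfl⟩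

private theorem a202closed (T : Tower) (m : ℕ) [∀ s n, TopologicalSpace ((T.W s).V n)]
    [∀ s n, DiscreteTopology ((T.W s).V n)] : IsClosed {x : a202X T m | A202C T m x} := by
  have hev : ∀ (s n : ℕ) (p : Mo n s × Mo n m), Continuous fun x : a202X T m => x s n p := by
    intro s n p
    exact (continuous_apply p).comp ((continuous_apply n).comp (continuous_apply s))
  have e1 : {x : a202X T m | A202C T m x} =
      (⋂ (s : ℕ) (k : ℕ) (l : ℕ) (g : Mo k l) (p : Mo l s × Mo l m),
        {x : a202X T m | x s k (p.1.comp g, p.2.comp g) = (T.W s).act g (x s l p)}) ∩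
      ((⋂ (s : ℕ) (i : ℕ) (n : ℕ) (θ : Mo n s) (τ : Mo n m) (_ : i ≤ s + 1),
        {x : a202X T m | x (s + 1) n ((dl s i).comp θ, τ) = (T.d s i).app n (x s n (θ, τ))}) ∩
      ⋂ (s : ℕ) (j : ℕ) (n : ℕ) (θ : Mo n (s + 1)) (τ : Mo n m) (_ : j ≤ s),
        {x : a202X T m | x s n ((sg s j).comp θ, τ) = (T.σ s j).app n (x (s + 1) n (θ, τ))}) := by
    ext x
    simp only [Set.mem_ofPred_eq, Set.mem_inter_iff, Set.mem_iInter]
    exact ⟨fun h => ⟨h.nat, h.d, h.σ⟩, fun h => ⟨h.1, h.2.1, h.2.2⟩⟩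
  rw [e1]
  refine IsClosed.inter ?_ (IsClosed.inter ?_ ?_)
  · refine isClosed_iInter fun s => isClosed_iInter fun k => isClosed_iInter fun l =>
      isClosed_iInter fun g => isClosed_iInter fun p => ?_
    exact isClosed_eq (hev s k _) ((continuous_of_discreteTopology
      (f := fun y : (T.W s).V l => (T.W s).act g y)).comp (hev s l p))
  · refine isClosed_iInter fun s => isClosed_iInter fun i => isClosed_iInter fun n =>
      isClosed_iInter fun θ => isClosed_iInter fun τ => isClosed_iInter fun _ => ?_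
    exact isClosed_eq (hev (s + 1) n _) ((continuous_of_discreteTopology
      (f := fun y : (T.W s).V n => ((T.d s i).app n y : (T.W (s + 1)).V n))).comp (hev s n (θ, τ)))
  · refine isClosed_iInter fun s => isClosed_iInter fun j => isClosed_iInter fun n =>
      isClosed_iInter fun θ => isClosed_iInter fun τ => isClosed_iInter fun _ => ?_
    exact isClosed_eq (hev s n _) ((continuous_of_discreteTopology
      (f := fun y : (T.W (s + 1)).V n => (T.σ s j).app n y)).comp (hev (s + 1) n (θ, τ)))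

theorem exists_tot_topology (T : Tower) (hfin : ∀ s n, Finite ((T.W s).V n)) :
    ∃ τ : ∀ m, TopologicalSpace (T.Tot.S m),
      (∀ m, @CompactSpace _ (τ m)) ∧ (∀ m, @T2Space _ (τ m)) ∧
      ∀ {m n : ℕ} (f : Mo m n), @Continuous _ _ (τ n) (τ m) (T.Tot.act f) := by
  let τV : ∀ s n, TopologicalSpace ((T.W s).V n) := fun _ _ => ⊥
  have hdV : ∀ s n, DiscreteTopology ((T.W s).V n) := fun _ _ => ⟨rfl⟩
  have hcV : ∀ s n, CompactSpace ((T.W s).V n) := fun s n => inferInstance
  let τ : ∀ m, TopologicalSpace (T.Tot.S m) := fun m =>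
    TopologicalSpace.induced (a202ev T m) inferInstance
  have hemb : ∀ m, Topology.IsClosedEmbedding (a202ev T m) := by
    intro m
    refine ⟨⟨⟨rfl⟩, a202ev_inj T m⟩, ?_⟩
    rw [a202range]
    exact a202closed T m
  refine ⟨τ, fun m => (hemb m).compactSpace, fun m => (hemb m).isEmbedding.t2Space, ?_⟩
  intro m n g
  refine continuous_induced_rng.2 ?_
  refine continuous_pi fun s => continuous_pi fun k => continuous_pi fun p => ?_
  have h1 : Continuous (a202ev T n) := (hemb n).continuous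
  exact (continuous_apply (p.1, g.comp p.2)).comp
    ((continuous_apply k).comp ((continuous_apply s).comp h1))

theorem exists_comp_topology {P : SS} (p : P.S 0) (τ : ∀ m, TopologicalSpace (P.S m))
    (hc : ∀ m, @CompactSpace _ (τ m)) (h2 : ∀ m, @T2Space _ (τ m))
    (hf : ∀ {m n : ℕ} (f : Mo m n), @Continuous _ _ (τ n) (τ m) (P.act f)) :
    ∃ τ' : ∀ m, TopologicalSpace ((Sub.comp p).ss.S m),
      (∀ m, @CompactSpace _ (τ' m)) ∧ (∀ m, @T2Space _ (τ' m)) ∧
      ∀ {m n : ℕ} (f : Mo m n), @Continuous _ _ (τ' n) (τ' m) ((Sub.comp p).ss.act f) := by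
  have hJ : IsClosed {y : P.S 0 | Joined p y} := by
    have e1 : {y : P.S 0 | Joined p y} =
        (P.act (cst 1 : Mo 0 1)) '' {e : P.S 1 | P.act (cst 0 : Mo 0 1) e = p} := by
      ext y
      constructor
      · rintro ⟨e, h0, h1⟩
        exact ⟨e, h0, h1⟩
      · rintro ⟨e, h0, h1⟩
        exact ⟨e, h0, h1⟩
    rw [e1]
    have h3 : IsClosed {e : P.S 1 | P.act (cst 0 : Mo 0 1) e = p} :=
      isClosed_eq (hf _) continuous_const
    exact (h3.isCompact.image (hf _)).isClosed
  have hcl : ∀ m, IsClosed ((Sub.comp p).car m) := by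
    intro m
    have e1 : (Sub.comp p).car m =
        ⋂ i : Fin (m + 1), (P.act (cst i : Mo 0 m)) ⁻¹' {y : P.S 0 | Joined p y} := by
      ext x
      simp only [Set.mem_iInter]
      rfl
    rw [e1]
    exact isClosed_iInter fun i => hJ.preimage (hf _)
  refine ⟨fun m => instTopologicalSpaceSubtype, fun m => ?_, fun m => ?_, ?_⟩
  · exact isCompact_iff_compactSpace.1 (hcl m).isCompact
  · exact inferInstanceAs (T2Space {x : P.S m // x ∈ (Sub.comp p).car m})
  · intro m n f
    exact Continuous.subtype_mk ((hf f).comp continuous_subtype_val) _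

end MM

end

/-! ### from `Lib_MP_33f7bb_d.A201` -/

section

/-!
# A2-01: the base component inherits the extension property

`joined_of_edge`: `e` an edge from `y` to `y'`.  If `p` is joined to `y` (edge from `p` to `y`), fill the
horn `Λ^2_1` (`acyc_horn`) with the edges `p → y`, `y → y'`; the third face is an edge `p → y'`.
If `p` is joined to `y'`: fill `Λ^2_2` with the edges `p → y'` (vertices 0, 2) and `y → y'` (vertices
1, 2); the face `{0,1}` is an edge `p → y`.
(A map from the horn `horn 2 i` to `P` given by two edges with a common vertex: define the function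
`Fn (Del 2) P` on `x : [n] → [2]` by cases: if `x` misses the vertex `a` opposite to the first edge, use
`act x' e` where `x' : [n] → [1]` is `x` composed with the identification of the complement of `a`
with `[1]`.)

`extAll_comp`.  Let `f` be natural on `A` with values in the component, `g` an extension to `C` with
values in `P`.  Claim: `g 0 c` is joined to `p` for every vertex `c` of `C`.  Let `χ : C_0 → ZMod 2` be the
indicator function of the vertices `c` with `g 0 c` joined to `p`.  By `joined_of_edge` the two ends of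
every edge of `C` have the same `χ`, so the linear extension of `χ` vanishes on `dif w`, `w` a
1-chain supported in `C`.  Acyclicity for the 0-chain `[c]` gives `w` with `[c] + dif w` supported in
`A`.  There `χ = 1`, so `χ(c) = χ([c] + dif w) = ε([c] + dif w) = ε([c]) = 1` (`ε` the augmentation,
`ε (dif w) = 0`).
Then `g` has values in the component on `C` (`mem_comp`); define the extension to be `g` on `C` and the
base simplex elsewhere.
-/

namespace MM

/-- filling a horn in dimension two given by two edges: the face opposite to `a` is `ea`, the face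
opposite to `b` is `eb` -/
private theorem A201_fill {P : SS} (hP : ExtAll P) (i a b : Fin 3) (ha : a ≠ i) (hb : b ≠ i)
    (hab : ∀ j : Fin 3, j ≠ i → j = a ∨ j = b) (hab' : ∀ j : Fin 3, j ≠ a → j ≠ b → j = i)
    (sa sb : Mo 2 1) (ea eb : P.S 1)
    (h : P.act (cst (sa i) : Mo 0 1) ea = P.act (cst (sb i) : Mo 0 1) eb) :
    ∃ σ : P.S 2, (∀ (n : ℕ) (x : Mo n 2), (∀ t, x t ≠ a) → P.act x σ = P.act (sa.comp x) ea) ∧
      ∀ (n : ℕ) (x : Mo n 2), (∀ t, x t ≠ b) → P.act x σ = P.act (sb.comp x) eb := by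
  classical
  have h' : ∀ (m : ℕ), P.act (cst (sa i) : Mo m 1) ea = P.act (cst (sb i) : Mo m 1) eb := by
    intro m
    have h1 := congrArg (P.act (cst 0 : Mo m 0)) h
    rwa [P.act_comp, P.act_comp] at h1
  let f : Fn (Del 2) P := fun n x =>
    if (∀ t, (x : Mo n 2) t ≠ a) then P.act (sa.comp x) ea else P.act (sb.comp x) eb
  have fa : ∀ (n : ℕ) (x : Mo n 2), (∀ t, x t ≠ a) → f n x = P.act (sa.comp x) ea :=
    fun n x hx => if_pos hx
  have fb : ∀ (n : ℕ) (x : Mo n 2), (∀ t, x t ≠ b) → f n x = P.act (sb.comp x) eb := by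
    intro n x hx
    by_cases hxa : ∀ t, x t ≠ a
    · have hc : x = cst i := by
        apply OrderHom.ext
        funext t
        exact hab' _ (hxa t) (hx t)
      rw [fa n x hxa, hc]
      exact h' n
    · exact if_neg hxa
  have hf : NatOn (horn 2 i) f := by
    intro m n g x hx
    obtain ⟨j, hj, hxj⟩ := hx
    rcases hab j hj with rfl | rfl
    · have h1 := fa n x hxj
      have h2 := fa m (OrderHom.comp x g) fun t => hxj (g t)
      show f m (OrderHom.comp x g) = P.act g (f n x)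
      rw [h1, h2, P.act_comp]
      rfl
    · have h1 := fb n x hxj
      have h2 := fb m (OrderHom.comp x g) fun t => hxj (g t)
      show f m (OrderHom.comp x g) = P.act g (f n x)
      rw [h1, h2, P.act_comp]
      rfl
  obtain ⟨g, hg, hgf⟩ := hP (Del 2) (horn 2 i) ⊤ (Sub.le_top' _) (acyc_horn 2 i (by omega)) f hf
  refine ⟨g 2 OrderHom.id, fun n x hx => ?_, fun n x hx => ?_⟩
  · have h1 : g n ((OrderHom.id : Mo 2 2).comp x) = P.act x (g 2 OrderHom.id) :=
      hg x (OrderHom.id : Mo 2 2) trivial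
    have h2 : g n x = f n x := hgf n x ⟨a, ha, hx⟩
    rw [← h1, ← fa n x hx]
    exact h2
  · have h1 : g n ((OrderHom.id : Mo 2 2).comp x) = P.act x (g 2 OrderHom.id) :=
      hg x (OrderHom.id : Mo 2 2) trivial
    have h2 : g n x = f n x := hgf n x ⟨b, hb, hx⟩
    rw [← h1, ← fb n x hx]
    exact h2

theorem joined_of_edge {P : SS} (hP : ExtAll P) (p : P.S 0) (e : P.S 1) :
    Joined p (P.act (cst 0 : Mo 0 1) e) ↔ Joined p (P.act (cst 1 : Mo 0 1) e) := by
  constructor
  · rintro ⟨e₁, h0, h1⟩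
    obtain ⟨σ, ha, hb⟩ := A201_fill hP 1 2 0 (by decide) (by decide) (by decide) (by decide)
      (sgm 1) (sgm 0) e₁ e h1
    refine ⟨P.act (dlt 1) σ, ?_, ?_⟩
    · rw [P.act_comp]
      have h2 := ha 0 ((dlt 1).comp (cst 0)) (by decide)
      rw [h2]
      exact h0
    · rw [P.act_comp]
      have h2 := hb 0 ((dlt 1).comp (cst 1)) (by decide)
      rw [h2]
      rfl
  · rintro ⟨e₁, h0, h1⟩
    obtain ⟨σ, ha, hb⟩ := A201_fill hP 2 1 0 (by decide) (by decide) (by decide) (by decide)
      (sgm 1) (sgm 0) e₁ e h1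
    refine ⟨P.act (dlt 2) σ, ?_, ?_⟩
    · rw [P.act_comp]
      have h2 := ha 0 ((dlt 2).comp (cst 0)) (by decide)
      rw [h2]
      exact h0
    · rw [P.act_comp]
      have h2 := hb 0 ((dlt 2).comp (cst 1)) (by decide)
      rw [h2]
      rfl

/-- the linear extension of a function on the vertices with the same value at the two ends of every edge
vanishes on boundaries -/
private theorem A201_dif {Q : SS} {C : Sub Q} (χ : Q.S 0 → ZMod 2)
    (h : ∀ x ∈ C.car 1, χ (Q.act (dlt 0) x) = χ (Q.act (dlt 1) x)) (w : Ch Q 1)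
    (hw : SuppIn C w) : Finsupp.linearCombination (ZMod 2) χ (dif w) = 0 := by
  rw [dif, map_sum, Fin.sum_univ_two]
  have h1 : Finsupp.linearCombination (ZMod 2) χ (Finsupp.mapDomain (Q.act (dlt 0)) w) =
      Finsupp.linearCombination (ZMod 2) χ (Finsupp.mapDomain (Q.act (dlt 1)) w) := by
    rw [Finsupp.linearCombination_mapDomain, Finsupp.linearCombination_mapDomain,
      Finsupp.linearCombination_apply, Finsupp.linearCombination_apply]
    refine Finset.sum_congr rfl fun x hx => ?_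
    show w x • χ (Q.act (dlt 0) x) = w x • χ (Q.act (dlt 1) x)
    rw [h x (hw x hx)]
  have h2 : (Finsupp.linearCombination (ZMod 2) χ (Finsupp.mapDomain (Q.act (dlt 1)) w)) +
      (Finsupp.linearCombination (ZMod 2) χ (Finsupp.mapDomain (Q.act (dlt 1)) w)) = 0 :=
    two_eq_zero' _
  exact (congrArg (· + _) h1).trans h2

theorem joined_of_acyc {P : SS} (hP : ExtAll P) (p : P.S 0) {Q : SS} {A C : Sub Q} (hAC : A ≤ C)
    (h : Acyc A C) (g : Fn Q P) (hg : NatOn C g) (hA : ∀ x ∈ A.car 0, Joined p (g 0 x)) :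
    ∀ x ∈ C.car 0, Joined p (g 0 x) := by
  classical
  intro x hx
  let χ : Q.S 0 → ZMod 2 := fun c => if Joined p (g 0 c) then 1 else 0
  have hd0 : (dlt 0 : Mo 0 1) = cst 1 := by
    apply OrderHom.ext
    funext t
    fin_cases t
    rfl
  have hd1 : (dlt 1 : Mo 0 1) = cst 0 := by
    apply OrderHom.ext
    funext t
    fin_cases t
    rfl
  have hχ : ∀ y ∈ C.car 1, χ (Q.act (dlt 0) y) = χ (Q.act (dlt 1) y) := by
    intro y hy
    have h1 : Joined p (g 0 (Q.act (dlt 0) y)) ↔ Joined p (g 0 (Q.act (dlt 1) y)) := by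
      rw [hg (dlt 0) y hy, hg (dlt 1) y hy, hd0, hd1]
      exact (joined_of_edge hP p (g 1 y)).symm
    show (if _ then _ else _) = (if _ then _ else _)
    exact if_congr h1 rfl rfl
  obtain ⟨w, hw, hu⟩ := h 0 (Finsupp.single x 1) (SuppIn.single hx 1) trivial
  have h1 := A201_dif (C := C) χ hχ w hw
  have h2 := A201_dif (C := C) (fun _ : Q.S 0 => (1 : ZMod 2)) (fun _ _ => rfl) w hw
  have h3 : Finsupp.linearCombination (ZMod 2) χ (Finsupp.single x 1 + dif w) =
      Finsupp.linearCombination (ZMod 2) (fun _ : Q.S 0 => (1 : ZMod 2))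
        (Finsupp.single x 1 + dif w) := by
    rw [Finsupp.linearCombination_apply, Finsupp.linearCombination_apply]
    refine Finset.sum_congr rfl fun y hy => ?_
    show _ • χ y = _ • (1 : ZMod 2)
    have h4 : χ y = 1 := if_pos (hA y (hu y hy))
    rw [h4]
  rw [map_add, map_add, h1, h2, add_zero, add_zero, Finsupp.linearCombination_single,
    Finsupp.linearCombination_single, one_smul, one_smul] at h3
  by_contra hcon
  have h5 : χ x = 0 := if_neg hcon
  rw [h5] at h3
  exact zero_ne_one h3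

theorem extAll_comp {P : SS} (hP : ExtAll P) (p : P.S 0) : ExtAll (Sub.comp p).ss := by
  classical
  intro Q A C hAC h f hf
  obtain ⟨g, hg, hgf⟩ := hP Q A C hAC h (fun n x => (f n x).1) (fun {m n} u x hx =>
    congrArg Subtype.val (hf u x hx))
  have h0 : ∀ x ∈ C.car 0, Joined p (g 0 x) := by
    refine joined_of_acyc hP p hAC h g hg fun x hx => ?_
    rw [hgf 0 x hx]
    exact (mem_comp_zero p _).1 (f 0 x).2
  have hmem : ∀ n, ∀ x ∈ C.car n, g n x ∈ (Sub.comp p).car n := by
    intro n x hx i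
    rw [← hg (cst i) x hx]
    exact h0 _ (C.closed (cst i) hx)
  refine ⟨fun n x => if h : g n x ∈ (Sub.comp p).car n then ⟨g n x, h⟩ else
    ⟨P.deg p n, deg_mem_comp p n⟩, ?_, ?_⟩
  · intro m n u x hx
    have h1 := hmem n x hx
    have h2 := hmem m (Q.act u x) (C.closed u hx)
    show (if h : g m (Q.act u x) ∈ (Sub.comp p).car m then
      (⟨g m (Q.act u x), h⟩ : (Sub.comp p).ss.S m) else ⟨P.deg p m, deg_mem_comp p m⟩) =
      (Sub.comp p).ss.act u (if h : g n x ∈ (Sub.comp p).car n then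
        (⟨g n x, h⟩ : (Sub.comp p).ss.S n) else ⟨P.deg p n, deg_mem_comp p n⟩)
    rw [dif_pos h1, dif_pos h2]
    exact Subtype.ext (hg u x hx)
  · intro n x hx
    have h1 := hmem n x (hAC n hx)
    show (if h : g n x ∈ (Sub.comp p).car n then
        (⟨g n x, h⟩ : (Sub.comp p).ss.S n) else ⟨P.deg p n, deg_mem_comp p n⟩) = f n x
    rw [dif_pos h1]
    exact Subtype.ext (hgf n x hx)

end MM

end

/-! ### from `Lib_MP_33f7bb_d.A203` -/

section

/-!
# A2-03: maps `K × Z → Tot T` vanishing on `K × pt` are maps `K → Tot (mapT T Z)`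

`K ≤ Del k` a subcomplex.
`toMap`: given `f : Fn ((Del k).prod Z) T.Tot` natural on `bx K ⊤` and equal to `T.tot0` at all
`(θ, deg z₀)`, `θ ∈ K`.  Define the family on `Del k` (see `Tower.Fam`, `Tower.exists_toTot`)
`F s n (θ, x) ∈ (MapSV Z z₀ (T.W s)).V n`, for `θ : [n] → [s]`, `x ∈ K_n`:
`(F s n (θ, x)).val l (ζ, z) = ((f l (x.comp ζ, z)).1 s).app l (θ.comp ζ, id)` (for `ζ : [l] → [n]`, `z ∈ Z_l`)
(zero for `x ∉ K`).  It is a family for `mapT T Z z₀` on `K`; get `g : Fn (Del k) (mapT ..).Tot`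
natural on `K`.
`ofMap`: given `g : Fn (Del k) (mapT T Z z₀).Tot` natural on `K`, define the family on `(Del k).prod Z`:
`F s n (θ, (x, z)) = (((g n x).1 s).app n (θ, id)).val n (id, z)`; get `f`.
The two constructions are inverse to each other on `K` (only needed: the restriction to a smaller
complex is compatible).
`ext_of_mapT`: `f` on `∂Δ^k × Z` gives `g` on `∂Δ^k`, extend `g` to `Δ^k` (hypothesis), go back, compare with
`f` on `∂Δ^k × Z` (`Tower.eq_of_fam`, or directly by `Subtype.ext`).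
-/

namespace MM

/-- the element of the mapping space given by `f`, `θ`, `x` -/
private def A203_el (T : Tower) (Z : SS) (z₀ : Z.S 0) {k : ℕ} (K : Sub (Del k))
    (f : Fn ((Del k).prod Z) T.Tot) (hf : NatOn (Sub.bx K ⊤) f)
    (h0 : ∀ n, ∀ θ ∈ K.car n, f n (θ, Z.deg z₀ n) = T.tot0 n)
    (s n : ℕ) (θ : Mo n s) (x : Mo n k) (hx : x ∈ K.car n) : (MapSV Z z₀ (T.W s)).V n :=
  ⟨fun l p => ((f l (x.comp p.1, p.2)).1 s).app l (θ.comp p.1, OrderHom.id), by
    intro m l h ζ z
    have hK : (x.comp ζ, z) ∈ (Sub.bx K (⊤ : Sub Z)).car l := ⟨K.closed ζ hx, trivial⟩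
    have h1 : f m (x.comp (ζ.comp h), Z.act h z) = T.Tot.act h (f l (x.comp ζ, z)) :=
      hf h (x.comp ζ, z) hK
    show ((f m (x.comp (ζ.comp h), Z.act h z)).1 s).app m (θ.comp (ζ.comp h), OrderHom.id) =
      (T.W s).act h (((f l (x.comp ζ, z)).1 s).app l (θ.comp ζ, OrderHom.id))
    rw [h1]
    exact ((f l (x.comp ζ, z)).1 s).nat h (θ.comp ζ, OrderHom.id), by
    intro l ζ
    show ((f l (x.comp ζ, Z.deg z₀ l)).1 s).app l (θ.comp ζ, OrderHom.id) = 0
    rw [h0 l (x.comp ζ) (K.closed ζ hx)]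
    rfl⟩

private theorem A203_el_val (T : Tower) (Z : SS) (z₀ : Z.S 0) {k : ℕ} (K : Sub (Del k))
    (f : Fn ((Del k).prod Z) T.Tot) (hf : NatOn (Sub.bx K ⊤) f)
    (h0 : ∀ n, ∀ θ ∈ K.car n, f n (θ, Z.deg z₀ n) = T.tot0 n)
    (s n : ℕ) (θ : Mo n s) (x : Mo n k) (hx : x ∈ K.car n) (l : ℕ) (ζ : Mo l n) (z : Z.S l) :
    MapSV.val (A203_el T Z z₀ K f hf h0 s n θ x hx) l (ζ, z) =
      ((f l (x.comp ζ, z)).1 s).app l (θ.comp ζ, OrderHom.id) := rfl

theorem exists_toMap (T : Tower) (Z : SS) (z₀ : Z.S 0) {k : ℕ} (K : Sub (Del k))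
    (f : Fn ((Del k).prod Z) T.Tot) (hf : NatOn (Sub.bx K ⊤) f)
    (h0 : ∀ n, ∀ θ ∈ K.car n, f n (θ, Z.deg z₀ n) = T.tot0 n) :
    ∃ g : Fn (Del k) (mapT T Z z₀).Tot, NatOn K g ∧
      ∀ n, ∀ x ∈ K.car n, ∀ s m (θ : Mo m s) (τ : Mo m n) l (ζ : Mo l m) (z : Z.S l),
        MapSV.val (((g n x).1 s).app m (θ, τ)) l (ζ, z) =
          ((f l ((x : Mo n k).comp (τ.comp ζ), z)).1 s).app l (θ.comp ζ, OrderHom.id) := by
  classical
  let F : ∀ s, Fn ((Del s).prod (Del k)) ((mapT T Z z₀).W s).ss := fun s n p =>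
    if hx : p.2 ∈ K.car n then A203_el T Z z₀ K f hf h0 s n p.1 p.2 hx else
      (0 : (MapSV Z z₀ (T.W s)).V n)
  have hFp : ∀ s n (θ : Mo n s) (x : Mo n k) (hx : x ∈ K.car n),
      F s n (θ, x) = A203_el T Z z₀ K f hf h0 s n θ x hx := fun s n θ x hx => dif_pos hx
  have hF : (mapT T Z z₀).Fam K F := by
    refine ⟨?_, ?_, ?_⟩
    · rintro s m n h ⟨θ, x⟩ hx
      have hx2 : x ∈ K.car n := hx.2
      show F s m (θ.comp h, x.comp h) = ((mapT T Z z₀).W s).act h (F s n (θ, x))
      rw [hFp s n θ x hx2, hFp s m (θ.comp h) (x.comp h) (K.closed h hx2)]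
      rfl
    · intro s i n θ x hx hi
      rw [hFp (s + 1) n ((dl s i).comp θ) x hx, hFp s n θ x hx]
      apply Subtype.ext
      funext l p
      exact (f l (x.comp p.1, p.2)).2.d s i l (θ.comp p.1) OrderHom.id hi
    · intro s j n θ x hx hj
      rw [hFp s n ((sg s j).comp θ) x hx, hFp (s + 1) n θ x hx]
      apply Subtype.ext
      funext l p
      exact (f l (x.comp p.1, p.2)).2.σ s j l (θ.comp p.1) OrderHom.id hj
  obtain ⟨g, hg, hgF⟩ := (mapT T Z z₀).exists_toTot K F hF
  refine ⟨g, hg, ?_⟩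
  intro n x hx s m θ τ l ζ z
  rw [hgF n x hx s m θ τ]
  have h1 : F s m (θ, (Del k).act τ x) =
      A203_el T Z z₀ K f hf h0 s m θ ((Del k).act τ x) (K.closed τ hx) :=
    hFp s m θ _ (K.closed τ hx)
  rw [h1]
  rfl

theorem exists_ofMap (T : Tower) (Z : SS) (z₀ : Z.S 0) {k : ℕ} (K : Sub (Del k))
    (g : Fn (Del k) (mapT T Z z₀).Tot) (hg : NatOn K g) :
    ∃ f : Fn ((Del k).prod Z) T.Tot, NatOn (Sub.bx K ⊤) f ∧
      (∀ n, ∀ θ ∈ K.car n, f n (θ, Z.deg z₀ n) = T.tot0 n) ∧
      ∀ n, ∀ x ∈ K.car n, ∀ (z : Z.S n) s (θ : Mo n s),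
        ((f n (x, z)).1 s).app n (θ, OrderHom.id) =
          MapSV.val (((g n x).1 s).app n (θ, OrderHom.id)) n (OrderHom.id, z) := by
  let F : ∀ s, Fn ((Del s).prod ((Del k).prod Z)) (T.W s).ss := fun s n p =>
    MapSV.val (((g n p.2.1).1 s).app n (p.1, OrderHom.id)) n (OrderHom.id, p.2.2)
  have hF : T.Fam (Sub.bx K (⊤ : Sub Z)) F := by
    refine ⟨?_, ?_, ?_⟩
    · rintro s m n h ⟨θ, x, z⟩ hx
      have hx2 : x ∈ K.car n := hx.2.1
      have h1 : g m (x.comp h) = (mapT T Z z₀).Tot.act h (g n x) := hg h x hx2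
      have h2 : ((g n x).1 s).app m (θ.comp h, h) =
          ((mapT T Z z₀).W s).act h (((g n x).1 s).app n (θ, OrderHom.id)) :=
        ((g n x).1 s).nat h (θ, OrderHom.id)
      show MapSV.val (((g m (x.comp h)).1 s).app m (θ.comp h, OrderHom.id)) m
        (OrderHom.id, Z.act h z) = (T.W s).act h
          (MapSV.val (((g n x).1 s).app n (θ, OrderHom.id)) n (OrderHom.id, z))
      rw [h1]
      show MapSV.val (((g n x).1 s).app m (θ.comp h, h)) m (OrderHom.id, Z.act h z) = _
      rw [h2]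
      exact MapSV.val_nat (((g n x).1 s).app n (θ, OrderHom.id)) h OrderHom.id z
    · rintro s i n θ ⟨x, z⟩ hx hi
      have h1 := (g n x).2.d s i n θ OrderHom.id hi
      exact congrArg (fun u => MapSV.val (z₀ := z₀) u n (OrderHom.id, z)) h1
    · rintro s j n θ ⟨x, z⟩ hx hj
      have h1 := (g n x).2.σ s j n θ OrderHom.id hj
      exact congrArg (fun u => MapSV.val (z₀ := z₀) u n (OrderHom.id, z)) h1
  obtain ⟨f, hf, hfF⟩ := T.exists_toTot (Sub.bx K (⊤ : Sub Z)) F hF
  refine ⟨f, hf, ?_, ?_⟩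
  · intro n θ hθ
    rw [T.tot_ext_iff]
    intro s m ϑ τ
    rw [hfF n (θ, Z.deg z₀ n) ⟨hθ, trivial⟩ s m ϑ τ]
    have h1 : Z.act τ (Z.deg z₀ n) = Z.deg z₀ m := by
      show Z.act τ (Z.act (cst 0) z₀) = Z.act (cst 0) z₀
      rw [Z.act_comp]
      rfl
    show MapSV.val (((g m (θ.comp τ)).1 s).app m (ϑ, OrderHom.id)) m
      (OrderHom.id, Z.act τ (Z.deg z₀ n)) = 0
    rw [h1]
    exact MapSV.val_base _ m OrderHom.id
  · intro n x hx z s θ
    rw [hfF n (x, z) ⟨hx, trivial⟩ s n θ OrderHom.id]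
    have h1 : Z.act (OrderHom.id : Mo n n) z = z := Z.act_id z
    show MapSV.val (((g n x).1 s).app n (θ, OrderHom.id)) n
      (OrderHom.id, Z.act (OrderHom.id : Mo n n) z) = _
    rw [h1]

theorem ext_of_mapT (T : Tower) (Z : SS) (z₀ : Z.S 0) (k : ℕ)
    (hr : ExtP (mapT T Z z₀).Tot (bd k) (⊤ : Sub (Del k)))
    (f : Fn ((Del k).prod Z) T.Tot) (hf : NatOn (Sub.bx (bd k) ⊤) f)
    (h0 : ∀ n, ∀ θ ∈ (bd k).car n, f n (θ, Z.deg z₀ n) = T.tot0 n) :
    ∃ g : Fn ((Del k).prod Z) T.Tot, NatOn (Sub.bx ⊤ ⊤) g ∧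
      (∀ n (θ : Mo n k), g n (θ, Z.deg z₀ n) = T.tot0 n) ∧
      ∀ n, ∀ θ ∈ (bd k).car n, ∀ z : Z.S n, g n (θ, z) = f n (θ, z) := by
  obtain ⟨g₀, hg₀, hgv⟩ := exists_toMap T Z z₀ (bd k) f hf h0
  obtain ⟨g₁, hg₁, hg₀₁⟩ := hr g₀ hg₀
  obtain ⟨f₁, hf₁, hf0, hfv⟩ := exists_ofMap T Z z₀ ⊤ g₁ hg₁
  refine ⟨f₁, hf₁, fun n θ => hf0 n θ trivial, ?_⟩
  intro n θ hθ z
  refine T.eq_of_fam (Sub.bx (bd k) (⊤ : Sub Z)) f₁ f
    (fun {m n} h x hx => hf₁ h x ⟨trivial, trivial⟩) hf ?_ n (θ, z) ⟨hθ, trivial⟩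
  rintro s m ⟨x, z⟩ hx ϑ
  have hx1 : x ∈ (bd k).car m := hx.1
  have h1 := hfv m x trivial z s ϑ
  rw [hg₀₁ m x hx1] at h1
  exact h1.trans (hgv m x hx1 s m ϑ OrderHom.id m OrderHom.id z)

end MM

end

/-! ### from `Lib_MP_33f7bb_d.A204` -/

section

/-!
# A2-04: the base component of `Tot` is null for `B(ZMod 2)` (X4)

`Y = T.Y`, `B = BZ2`, `pt` = the subcomplex of the base point; `B` has only one vertex (`K1.V 0` is a
point).  Let `f` be natural on `box = ∂Δ^k × B ∪ Δ^k × pt` with values in `Y`.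

Step 1.  A homotopy `h` on `Δ^1 × Δ^k`, `h(0, θ) = ` base, `h(1, θ) = f(θ, pt)`: on
`Sub.box (bd 1) ⊤ (Sub.pt (cst 0)) ⊤` in `Δ^1 × Δ^k` prescribe: base at the end `0`, `f(θ, pt)` at the
end `1`, and on `Δ^1 × {vertex 0}` an edge of `Y` from the base vertex to `f(v_0, pt)` (the vertex is in
the base component; the edge itself lies in the base component since its two vertices do).  Extend by
`extAll_comp`; the pair is acyclic by `acyc_box_right` and `acyc_Del_pt`.
Step 2.  On `Δ^1 × box` in `Δ^1 × (Δ^k × B)`: given `f` at the end `1` and `h` on `Δ^1 × (Δ^k × pt)`,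
extend to `H` on `Δ^1 × box` (`acyc_hep` with `i = 1`, `A = bx ⊤ pt ≤ C = box`).  `f' = H(0, ·)` is
natural on `box` and is the base on `Δ^k × pt`.
Step 3.  `ext_of_mapT` for `f'` (composed with the inclusion `Y ⊂ Tot`): `g'` on `Δ^k × B`, equal to
`f'` on `∂Δ^k × B` and to the base on `Δ^k × pt`.  It has values in `Y`: every vertex of `Δ^k × B` is of the
form `(v, pt)`, where `g'` is the base vertex (`mem_comp`).
Step 4.  On `Δ^1 × (Δ^k × B)`: given `g'` at the end `0` and `H` on `Δ^1 × box`, extend (`acyc_hep` with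
`i = 0`); the value at the end `1` is the required extension of `f`.
-/

namespace MM

private theorem A204_deg_act {P : SS} (p : P.S 0) {m n : ℕ} (g : Mo m n) :
    P.act g (P.deg p n) = P.deg p m := by
  show P.act g (P.act (cst 0) p) = P.act (cst 0) p
  rw [P.act_comp]
  rfl

private theorem A204_vertex (x : BZ2.S 0) : x = BZ2.deg K1.zv 0 := by
  apply Subtype.ext
  funext i
  have h1 : ∀ y : BZ2.S 0, y.1 i = 0 := by
    intro y
    have hy := y.2
    simp only [LinearMap.mem_ker, LinearMap.proj_apply] at hy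
    have hi : i = 0 := Fin.ext (by have := i.2; simp)
    rw [hi]
    exact hy
  rw [h1, h1]

private theorem A204_cst_ne {n : ℕ} : (cst 0 : Mo n 1) ≠ cst 1 := by
  intro h
  have h1 : (0 : Fin 2) = 1 := congrArg (fun f : Mo n 1 => (f : Fin (n + 1) → Fin 2) 0) h
  exact absurd h1 (by decide)

private theorem A204_bd1 {n : ℕ} (s : Mo n 1) (h : s ∈ (bd 1).car n) : s = cst 0 ∨ s = cst 1 := by
  have h1 : ¬ Function.Surjective (s : Fin (n + 1) → Fin 2) := h
  by_cases h0 : ∃ i, s i = 0
  · left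
    obtain ⟨i, hi⟩ := h0
    ext j
    show ((s j : Fin 2) : ℕ) = 0
    by_contra hj
    apply h1
    intro y
    have hj' : s j = 1 := by
      have : ∀ a : Fin 2, (a : ℕ) ≠ 0 → a = 1 := by decide
      exact this _ hj
    have hy : ∀ a : Fin 2, a = 0 ∨ a = 1 := by decide
    rcases hy y with rfl | rfl
    · exact ⟨i, hi⟩
    · exact ⟨j, hj'⟩
  · right
    ext j
    show ((s j : Fin 2) : ℕ) = 1
    have : ∀ a : Fin 2, a ≠ 0 → (a : ℕ) = 1 := by decide
    exact this _ fun h => h0 ⟨j, h⟩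

/-- Step 1: deformation of a map on a simplex to a point which is joined to it -/
private theorem A204_step1 {Y : SS} (hY : ExtAll Y) {k : ℕ} (b : Y.S 0) (u : Fn (Del k) Y)
    (hu : NatOn (⊤ : Sub (Del k)) u) (hj : Joined b (u 0 (cst 0))) :
    ∃ h : Fn ((Del 1).prod (Del k)) Y, NatOn (Sub.bx ⊤ ⊤) h ∧
      (∀ n (θ : Mo n k), h n (cst 0, θ) = Y.deg b n) ∧
      ∀ n (θ : Mo n k), h n (cst 1, θ) = u n θ := by
  classical
  obtain ⟨e, he0, he1⟩ := hj
  let h0 : Fn ((Del 1).prod (Del k)) Y := fun n x =>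
    if x.1 = cst 0 then Y.deg b n else if x.1 = cst 1 then u n x.2 else Y.act x.1 e
  have ha : ∀ n (θ : Mo n k), h0 n (cst 0, θ) = Y.deg b n := fun n θ => if_pos rfl
  have hb : ∀ n (θ : Mo n k), h0 n (cst 1, θ) = u n θ := fun n θ => by
    show (if _ then _ else _) = _
    rw [if_neg (fun h => A204_cst_ne h.symm)]
    exact if_pos rfl
  have hc : ∀ n (s : Mo n 1), h0 n (s, cst 0) = Y.act s e := by
    intro n s
    by_cases h1 : s = cst 0
    · subst h1
      rw [ha]
      have h2 : (cst 0 : Mo n 1) = (cst 0 : Mo 0 1).comp (cst 0 : Mo n 0) := rfl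
      rw [h2, ← Y.act_comp, he0]
      rfl
    · by_cases h2 : s = cst 1
      · subst h2
        rw [hb]
        have h3 : (cst 1 : Mo n 1) = (cst 1 : Mo 0 1).comp (cst 0 : Mo n 0) := rfl
        rw [h3, ← Y.act_comp, he1]
        exact hu (cst 0 : Mo n 0) (cst 0 : Mo 0 k) trivial
      · show (if _ then _ else _) = _
        rw [if_neg h1]
        exact if_neg h2
  have hnat : NatOn (Sub.box (bd 1) ⊤ (Sub.pt (P := Del k) (cst 0 : Mo 0 k)) ⊤) h0 := by
    rintro m n g ⟨s, θ⟩ ⟨-, hs | hs⟩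
    · show h0 m (s.comp g, θ.comp g) = Y.act g (h0 n (s, θ))
      rcases A204_bd1 s hs with rfl | rfl
      · rw [ha, cst_comp, ha, A204_deg_act]
      · rw [hb, cst_comp, hb]
        exact hu g θ trivial
    · have hθ : θ = cst 0 := hs
      subst hθ
      show h0 m (s.comp g, (cst 0 : Mo n k).comp g) = Y.act g (h0 n (s, cst 0))
      rw [cst_comp, hc, hc, Y.act_comp]
  have hac : Acyc (Sub.box (bd 1) ⊤ (Sub.pt (P := Del k) (cst 0 : Mo 0 k)) ⊤)
      (Sub.bx (⊤ : Sub (Del 1)) (⊤ : Sub (Del k))) :=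
    acyc_box_right (Sub.le_top' _) (Sub.le_top' _) (acyc_Del_pt k 0)
  have hle : Sub.box (bd 1) ⊤ (Sub.pt (P := Del k) (cst 0 : Mo 0 k)) ⊤ ≤
      Sub.bx (⊤ : Sub (Del 1)) (⊤ : Sub (Del k)) := fun n x hx => (Sub.mem_box.1 hx).1
  obtain ⟨h, hh, hhf⟩ := hY _ _ _ hle hac h0 hnat
  refine ⟨h, hh, fun n θ => ?_, fun n θ => ?_⟩
  · rw [hhf n (cst 0, θ) ⟨⟨trivial, trivial⟩, Or.inl ?_⟩, ha]
    intro hs
    obtain ⟨i, hi⟩ := hs 1
    exact absurd (show (0 : Fin 2) = 1 from hi) (by decide)
  · rw [hhf n (cst 1, θ) ⟨⟨trivial, trivial⟩, Or.inl ?_⟩, hb]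
    intro hs
    obtain ⟨i, hi⟩ := hs 0
    exact absurd (show (1 : Fin 2) = 0 from hi) (by decide)

/-- homotopy extension: a homotopy on `A`, given at the end `i` on `C` -/
private theorem A204_hep {Y P : SS} (hY : ExtAll Y) {A C : Sub P} (hA : A ≤ C) (i : Fin 2)
    (u : Fn P Y) (hu : NatOn C u) (h : Fn ((Del 1).prod P) Y) (hh : NatOn (Sub.bx ⊤ A) h)
    (hi : ∀ n, ∀ x ∈ A.car n, h n (cst i, x) = u n x) :
    ∃ H : Fn ((Del 1).prod P) Y, NatOn (Sub.bx ⊤ C) H ∧
      (∀ n, ∀ x ∈ C.car n, H n (cst i, x) = u n x) ∧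
      ∀ n s, ∀ x ∈ A.car n, H n (s, x) = h n (s, x) := by
  classical
  let H0 : Fn ((Del 1).prod P) Y := fun n x => if x.2 ∈ A.car n then h n x else u n x.2
  have ha : ∀ n s, ∀ x ∈ A.car n, H0 n (s, x) = h n (s, x) := fun n s x hx => if_pos hx
  have hb : ∀ n (x : P.S n), H0 n (cst i, x) = u n x := by
    intro n x
    by_cases hx : x ∈ A.car n
    · rw [ha n _ x hx, hi n x hx]
    · exact if_neg hx
  have hnat : NatOn (Sub.box (Sub.pt (P := Del 1) (cst i : Mo 0 1)) ⊤ A C) H0 := by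
    rintro m n g ⟨s, x⟩ ⟨⟨-, hxC⟩, hs | hx⟩
    · have hs' : s = cst i := hs
      subst hs'
      show H0 m ((cst i : Mo n 1).comp g, P.act g x) = Y.act g (H0 n (cst i, x))
      rw [cst_comp, hb, hb]
      exact hu g x hxC
    · show H0 m (s.comp g, P.act g x) = Y.act g (H0 n (s, x))
      rw [ha m _ _ (A.closed g hx), ha n s x hx]
      exact hh g (s, x) ⟨trivial, hx⟩
  have hle : Sub.box (Sub.pt (P := Del 1) (cst i : Mo 0 1)) ⊤ A C ≤
      Sub.bx (⊤ : Sub (Del 1)) C := fun n x hx => (Sub.mem_box.1 hx).1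
  obtain ⟨H, hH, hHf⟩ := hY _ _ _ hle (acyc_hep hA i) H0 hnat
  refine ⟨H, hH, fun n x hx => ?_, fun n s x hx => ?_⟩
  · rw [hHf n (cst i, x) ⟨⟨trivial, hx⟩, Or.inl rfl⟩, hb]
  · rw [hHf n (s, x) ⟨⟨trivial, hA n hx⟩, Or.inr hx⟩, ha n s x hx]

theorem good_Y (T : Tower) (hE : ExtAll T.Tot)
    (hr : ∀ k, ExtP (mapT T BZ2 K1.zv).Tot (bd k) (⊤ : Sub (Del k))) :
    Good T.Y (Sub.pt (P := BZ2) (0 : K1.V 0)) ⊤ := by
  classical
  intro k f hf
  have hEY : ExtAll T.Y := extAll_comp hE _
  -- the base vertex of `Y`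
  let b : T.Y.S 0 := ⟨T.tot0 0, (mem_comp_zero _ _).2 (joined_self _)⟩
  have hbd : ∀ n, (T.Y.deg b n).1 = T.tot0 n := fun n => rfl
  have hjoin : ∀ y : T.Y.S 0, Joined b y := by
    rintro ⟨y, hy⟩
    obtain ⟨e, he0, he1⟩ := (mem_comp_zero _ _).1 hy
    refine ⟨⟨e, ?_⟩, Subtype.ext he0, Subtype.ext he1⟩
    intro i
    have hi : ∀ j : Fin 2, j = 0 ∨ j = 1 := by decide
    rcases hi i with rfl | rfl
    · show Joined _ (T.Tot.act (cst 0) e)
      rw [he0]
      exact joined_self _
    · show Joined _ (T.Tot.act (cst 1) e)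
      rw [he1]
      exact (mem_comp_zero _ _).1 hy
  -- the subcomplexes
  let A : Sub ((Del k).prod BZ2) := Sub.bx ⊤ (Sub.pt (P := BZ2) K1.zv)
  let C : Sub ((Del k).prod BZ2) := Sub.box (bd k) ⊤ (Sub.pt (P := BZ2) K1.zv) ⊤
  have hAC : A ≤ C := fun n x hx => ⟨⟨trivial, trivial⟩, Or.inr hx.2⟩
  have hf' : NatOn C f := hf
  have hdegA : ∀ n (θ : Mo n k), ((θ, BZ2.deg K1.zv n) : ((Del k).prod BZ2).S n) ∈ A.car n :=
    fun n θ => ⟨trivial, rfl⟩
  -- Step 1
  obtain ⟨h, hh, hh0, hh1⟩ := A204_step1 hEY b (fun n (θ : Mo n k) => f n (θ, BZ2.deg K1.zv n))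
    (by
      intro m n g θ _
      show f m (θ.comp g, BZ2.deg K1.zv m) = T.Y.act g (f n (θ, BZ2.deg K1.zv n))
      rw [← hf' g (θ, BZ2.deg K1.zv n) (hAC n (hdegA n θ))]
      show _ = f m (θ.comp g, BZ2.act g (BZ2.deg K1.zv n))
      rw [A204_deg_act]) (hjoin _)
  -- Step 2
  obtain ⟨H, hH, hH1, hHA⟩ := A204_hep hEY hAC 1 f hf' (fun n x => h n (x.1, x.2.1))
    (by
      rintro m n g ⟨s, θ, x⟩ _
      exact hh g (s, θ) ⟨trivial, trivial⟩)
    (by
      rintro n ⟨θ, x⟩ ⟨-, hx⟩
      have hx' : x = BZ2.deg K1.zv n := hx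
      subst hx'
      exact hh1 n θ)
  have hH0 : ∀ n (θ : Mo n k), H n (cst 0, (θ, BZ2.deg K1.zv n)) = T.Y.deg b n := by
    intro n θ
    rw [hHA n (cst 0) _ (hdegA n θ)]
    exact hh0 n θ
  have hH0nat : NatOn C (fun n x => H n (cst 0, x)) := by
    intro m n g x hx
    have := hH g (cst 0, x) ⟨trivial, hx⟩
    exact this
  -- Step 3
  obtain ⟨g', hg', hg'0, hg'f⟩ := ext_of_mapT T BZ2 K1.zv k (hr k)
    (fun n x => (H n (cst 0, x)).1)
    (by
      intro m n g x hx
      have := hH0nat g x ⟨⟨trivial, trivial⟩, Or.inl hx.1⟩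
      exact congrArg Subtype.val this)
    (by
      intro n θ _
      show (H n (cst 0, (θ, BZ2.deg K1.zv n))).1 = _
      rw [hH0]
      exact hbd n)
  have hmem : ∀ n (x : ((Del k).prod BZ2).S n), g' n x ∈ (Sub.comp (P := T.Tot) (T.tot0 0)).car n := by
    rintro n ⟨θ, x⟩
    rw [mem_comp]
    intro i
    have h1 := hg' (cst i : Mo 0 n) (θ, x) ⟨trivial, trivial⟩
    have h2 : g' 0 (((Del k).prod BZ2).act (cst i : Mo 0 n) (θ, x)) = T.tot0 0 := by
      show g' 0 (θ.comp (cst i), BZ2.act (cst i) x) = _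
      rw [A204_vertex (BZ2.act (cst i) x)]
      exact hg'0 0 _
    rw [← h1, h2]
    exact (mem_comp_zero _ _).2 (joined_self _)
  -- Step 4
  obtain ⟨K, hK, hK0, hKC⟩ := A204_hep hEY (Sub.le_top' C) 0
    (fun n x => (⟨g' n x, hmem n x⟩ : T.Y.S n))
    (by
      intro m n g x _
      exact Subtype.ext (hg' g x ⟨trivial, trivial⟩))
    H hH
    (by
      rintro n ⟨θ, x⟩ ⟨-, hx | hx⟩
      · apply Subtype.ext
        exact (hg'f n θ hx x).symm
      · have hx' : x = BZ2.deg K1.zv n := hx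
        subst hx'
        apply Subtype.ext
        show (H n (cst 0, (θ, BZ2.deg K1.zv n))).1 = g' n (θ, BZ2.deg K1.zv n)
        rw [hH0, hg'0]
        exact hbd n)
  refine ⟨fun n x => K n (cst 1, x), ?_, ?_⟩
  · intro m n g x _
    have := hK g (cst 1, x) ⟨trivial, trivial⟩
    exact this
  · intro n x hx
    show K n (cst 1, x) = f n x
    rw [hKC n (cst 1) x hx, hH1 n x hx]

end MM

end

/-! ### from `Lib_MP_33f7bb_d.A205` -/

section

/-!
# A2-05: the coaugmentation and an essential map `∂Δ^(N+1) → Y` (X2)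

`coaug_d`: `d^i ∘ coaug s = coaug (s+1)` for all `i ≤ s + 1`: induction on `s`; `i = 0` is the
definition; `i = i' + 1`: `d^(i'+1) d^0 = d^0 d^(i')` (`res_dd`).
`coaug_σ`: `σ^j ∘ coaug (s+1) = σ^j d^j coaug s = coaug s` (`res_sd_eq`).
`exists_xi`: the map `ξ : X → Tot`, `(ξ x) s (θ, τ) = coaug s (act τ x)`; `pr0 ∘ ξ = R.of`.
For `X = SpS N`, `N ≥ 1`, `X` has only one vertex, which goes to the base vertex, so `ξ` has values in the
base component.
`d_top`: the boundary of every element of `(R (SpS N) none).V (N+1)` is zero: it is spanned by the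
classes of `some θ`, `θ : [N+1] → [N]` surjective, i.e. `θ = sgm i`; the faces `k = i, i + 1` of `sgm i`
are both the identity and cancel, the other faces are not surjective, i.e. base simplices.
`top_ne_zero`: the class of `SpS.top N` is not zero: `Finsupp.single _ 1` is not supported on the base
simplex.
`not_null`.  Suppose `m = ξ ∘ collapse : (bd (N+1)).ss → Y` is null.  Compose the homotopy with `pr0`:
a homotopy of maps `(bd (N+1)).ss → (R (SpS N) none).ss` from `R.of ∘ collapse` to a constant map, whose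
value is `0` (`(resV ..).V 0 = 0`, `resV_SpS_eq_zero`).  By `htp_iff`, for the cycle
`z = ∑_i [δ_i] ∈ Ch (bd (N+1)).ss N` (it is a cycle: `dif_dif` for the identity simplex of `Del (N+1)`),
`linExt (R.of ∘ collapse) z = [SpS.top N]` is a boundary.  Contradiction.  (`collapse` of `δ_i`,
`i ≥ 1`, is `none`: `δ_i` takes the value `0`; of `δ_0` it is `some id = SpS.top N`.)
-/

namespace MM

theorem coaug_d (X : SS) (x₀ : X.S 0) (s i n : ℕ) (x : X.S n) (hi : i ≤ s + 1) :
    (resD X x₀ (s + 1) i).f.app n ((coaug X x₀ s).app n x) = (coaug X x₀ (s + 1)).app n x := by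
  induction s generalizing i with
  | zero =>
    cases i with
    | zero => rfl
    | succ i =>
      obtain rfl : i = 0 := by omega
      exact res_dd X x₀ 0 0 0 n x le_rfl le_rfl
  | succ s ih =>
    cases i with
    | zero => rfl
    | succ i =>
      have h1 := res_dd X x₀ (s + 1) 0 i n ((coaug X x₀ s).app n x) (Nat.zero_le _) (by omega)
      refine Eq.trans h1 ?_
      rw [ih i (by omega)]
      rfl

theorem coaug_σ (X : SS) (x₀ : X.S 0) (s j n : ℕ) (x : X.S n) (hj : j ≤ s) :
    (resS X x₀ s j).app n ((coaug X x₀ (s + 1)).app n x) = (coaug X x₀ s).app n x := by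
  rw [← coaug_d X x₀ s j n x (by omega)]
  exact res_sd_eq X x₀ s j n _ hj

private theorem A205_coaug_base (X : SS) (x₀ : X.S 0) (s n : ℕ) :
    (coaug X x₀ s).app n (X.deg x₀ n) = (0 : (resV X x₀ s).V n) := by
  induction s with
  | zero => exact R.of_base x₀ n
  | succ s ih =>
    show (resD X x₀ (s + 1) 0).f.app n ((coaug X x₀ s).app n (X.deg x₀ n)) = _
    rw [ih]
    exact (resT X x₀).d_zero s 0 n

theorem exists_xi (X : SS) (x₀ : X.S 0) :
    ∃ ξ : Hom X (resT X x₀).Tot, (∀ n x, (resT X x₀).pr0.app n (ξ.app n x) = (R.of x₀).app n x) ∧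
      ξ.app 0 x₀ = (resT X x₀).tot0 0 := by
  let ξ : Hom X (resT X x₀).Tot :=
    { app := fun n x => ⟨fun s => ⟨fun m p => (coaug X x₀ s).app m (X.act p.2 x), fun g p => by
          show (coaug X x₀ s).app _ (X.act (p.2.comp g) x) = _
          rw [← X.act_comp]
          exact (coaug X x₀ s).nat g _⟩,
        ⟨fun s i m θ τ hi => (coaug_d X x₀ s i m (X.act τ x) hi).symm,
          fun s j m θ τ hj => (coaug_σ X x₀ s j m (X.act τ x) hj).symm⟩⟩
      nat := by
        intro m n f x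
        apply Subtype.ext
        funext s
        apply Hom.ext
        funext k p
        show (coaug X x₀ s).app k (X.act p.2 (X.act f x)) = (coaug X x₀ s).app k (X.act (f.comp p.2) x)
        rw [X.act_comp] }
  refine ⟨ξ, ?_, ?_⟩
  · intro n x
    show (coaug X x₀ 0).app n (X.act (OrderHom.id) x) = _
    rw [X.act_id]
    rfl
  · apply Subtype.ext
    funext s
    apply Hom.ext
    funext k p
    have h1 : (p.2 : Mo k 0) = cst 0 := by
      ext i
      have := (p.2 i).2
      show ((p.2 i : Fin 1) : ℕ) = 0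
      omega
    show (coaug X x₀ s).app k (X.act p.2 x₀) = (0 : (resV X x₀ s).V k)
    rw [h1]
    exact A205_coaug_base X x₀ s k

private theorem A205_surj_id {N : ℕ} (g : Mo N N) (hg : Function.Surjective g) :
    g = OrderHom.id := by
  have hi : Function.Injective g := Finite.injective_iff_surjective.2 hg
  apply OrderHom.ext
  refine ((g.monotone.strictMono_of_injective hi).range_inj
    (g := ((OrderHom.id : Mo N N) : Fin (N + 1) → Fin (N + 1))) strictMono_id).1 ?_
  rw [hg.range_eq]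
  exact (Set.range_id).symm

private theorem A205_of_none (N n : ℕ) :
    (R.of (Z := SpS N) none).app n none = (0 : (R (SpS N) none).V n) := R.of_base (Z := SpS N) none n

theorem d_top (N : ℕ) (w : (R (SpS N) none).V (N + 1)) : (R (SpS N) none).d N w = 0 := by
  classical
  have hw : w ∈ Submodule.span (ZMod 2) (Set.range ((R.of (Z := SpS N) none).app (N + 1))) := by
    rw [R.span]; trivial
  induction hw using Submodule.span_induction with
  | zero => exact map_zero _
  | add a b _ _ ha hb => rw [map_add, ha, hb, add_zero]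
  | smul r a _ ha => rw [map_smul, ha, smul_zero]
  | mem a ha =>
    obtain ⟨x, rfl⟩ := ha
    cases x with
    | none =>
      rw [show (R.of (Z := SpS N) none).app (N + 1) none = (0 : (R (SpS N) none).V (N + 1)) from
        A205_of_none N (N + 1)]
      exact map_zero _
    | some θ =>
      obtain ⟨θ, hθ⟩ := θ
      -- `θ` is a codegeneracy
      have hni : ¬ Function.Injective θ := by
        intro hi
        have h1 := Fintype.card_le_of_injective _ hi
        simp at h1
      obtain ⟨i, g, rfl⟩ := exists_sgm θ hni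
      have hg : g = OrderHom.id := by
        apply A205_surj_id
        intro y
        obtain ⟨t, ht⟩ := hθ y
        exact ⟨sgm i t, ht⟩
      subst hg
      have e1 : ∀ k : Fin (N + 2), (R (SpS N) none).act (dlt k)
          ((R.of (Z := SpS N) none).app (N + 1) (some ⟨OrderHom.id.comp (sgm i), hθ⟩)) =
          (R.of (Z := SpS N) none).app N ((SpS N).act (dlt k)
            (some ⟨OrderHom.id.comp (sgm i), hθ⟩)) := fun k =>
        ((R.of (Z := SpS N) none).nat (dlt k) _).symm
      have e2 : ∀ k : Fin (N + 2), (k = i.castSucc ∨ k = i.succ) →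
          (SpS N).act (dlt k) (some ⟨OrderHom.id.comp (sgm i), hθ⟩) = SpS.top N := by
        intro k hk
        have h2 : ((OrderHom.id.comp (sgm i)).comp (dlt k) : Mo N N) = OrderHom.id := by
          rcases hk with rfl | rfl
          · exact sgm_comp_dlt_castSucc i
          · exact sgm_comp_dlt_succ i
        have h3 : Function.Surjective ((OrderHom.id.comp (sgm i)).comp (dlt k) : Mo N N) := by
          rw [h2]; exact fun y => ⟨y, rfl⟩
        rw [SpS_act_some _ _ hθ h3]
        unfold SpS.top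
        congr 1
        exact Subtype.ext h2
      have e3 : ∀ k : Fin (N + 2), ¬ (k = i.castSucc ∨ k = i.succ) →
          (SpS N).act (dlt k) (some ⟨OrderHom.id.comp (sgm i), hθ⟩) = none := by
        intro k hk
        rw [not_or] at hk
        refine SpS_act_some_none _ _ hθ ?_
        intro h3
        have h4 := A205_surj_id _ h3
        obtain ⟨u, hu⟩ := Fin.exists_succAbove_eq (Ne.symm hk.1)
        obtain ⟨v, hv⟩ := Fin.exists_succAbove_eq (Ne.symm hk.2)
        have h5 : ∀ z : Fin (N + 1), sgm i (k.succAbove z) = z := fun z =>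
          congrArg (fun f : Mo N N => f z) h4
        have h6 : sgm i i.castSucc = i := congrArg (fun f : Mo N N => f i) (sgm_comp_dlt_castSucc i)
          |> fun h => by
            have h7 : (dlt i.castSucc : Mo N (N + 1)) i = i.succ := by
              show i.castSucc.succAbove i = i.succ
              exact Fin.succAbove_castSucc_self i
            exact Fin.predAbove_castSucc_self i
        have h8 : sgm i i.succ = i := Fin.predAbove_succ_self i
        have h9 : u = i := by rw [← h5 u, hu, h6]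
        have h10 : v = i := by rw [← h5 v, hv, h8]
        rw [h9] at hu
        rw [h10] at hv
        have h11 := hu.symm.trans hv
        exact (Fin.castSucc_lt_succ (i := i)).ne h11
      rw [SV.d, LinearMap.sum_apply]
      rw [← Finset.sum_subset (Finset.subset_univ ({i.castSucc, i.succ} : Finset (Fin (N + 2))))]
      · rw [Finset.sum_pair (Fin.castSucc_lt_succ (i := i)).ne, e1, e1, e2 _ (Or.inl rfl),
          e2 _ (Or.inr rfl)]
        exact two_eq_zero' _
      · intro k _ hk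
        rw [Finset.mem_insert, Finset.mem_singleton] at hk
        rw [e1, e3 k hk]
        exact A205_of_none N N

theorem top_ne_zero (N : ℕ) : ((R.of (Z := SpS N) none).app N (SpS.top N) :
    (R (SpS N) none).V N) ≠ 0 := by
  intro h
  have h1 : SuppIn (Sub.pt (P := SpS N) none) (Finsupp.single (SpS.top N) 1) :=
    (Submodule.Quotient.mk_eq_zero _).1 h
  have h2 := h1 (SpS.top N) (by
    rw [Finsupp.mem_support_iff, Finsupp.single_eq_same]
    exact one_ne_zero)
  have h3 : SpS.top N = none := h2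
  exact Option.some_ne_none _ h3

theorem exists_essential (N : ℕ) (hN : 1 ≤ N) :
    ∃ m : Hom (bd (N + 1)).ss (resT (SpS N) none).Y, ¬ Null m := by
  classical
  obtain ⟨ξ, hξ, hξ0⟩ := exists_xi (SpS N) none
  have hmem : ∀ n (x : (SpS N).S n), ξ.app n x ∈ (Sub.comp (P := (resT (SpS N) none).Tot)
      ((resT (SpS N) none).tot0 0)).car n := by
    intro n x i
    rw [← ξ.nat, SpS_eq_base N 0 (by omega) ((SpS N).act (cst i) x)]
    show Joined _ (ξ.app 0 none)
    rw [hξ0]
    exact joined_self _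
  refine ⟨⟨fun n x => ⟨ξ.app n ((collapse N).app n x), hmem n _⟩, fun {m n} g x => by
    apply Subtype.ext
    show ξ.app m ((collapse N).app m ((bd (N + 1)).ss.act g x)) = _
    rw [(collapse N).nat, ξ.nat]⟩, ?_⟩
  rintro ⟨H, y, hH, h0, h1⟩
  let W := R (SpS N) none
  let f : Hom (bd (N + 1)).ss W.ss := (R.of (Z := SpS N) none).comp (collapse N)
  let g : Hom (bd (N + 1)).ss W.ss := ⟨fun n _ => (0 : W.V n), fun {m n} k _ =>
    (map_zero (W.act k)).symm⟩
  have hfg : Htp f g := by
    refine ⟨⟨fun n q => (resT (SpS N) none).pr0.app n (H n q).1, fun {m n} k q => ?_⟩, ?_, ?_⟩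
    · rw [hH k q ⟨trivial, trivial⟩]
      exact (resT (SpS N) none).pr0.nat k _
    · intro n x
      show (resT (SpS N) none).pr0.app n (H n (cst 0, x)).1 = _
      rw [h0 n x trivial]
      exact hξ n _
    · intro n x
      show (resT (SpS N) none).pr0.app n (H n (cst 1, x)).1 = _
      rw [h1 n x trivial]
      show (resT (SpS N) none).pr0.app n ((resT (SpS N) none).Tot.act (cst 0) y.1) = (0 : W.V n)
      rw [(resT (SpS N) none).pr0.nat]
      have h2 : (resT (SpS N) none).pr0.app 0 y.1 = (0 : (resV (SpS N) none 0).V 0) :=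
        resV_SpS_eq_zero N 0 0 (by omega) _
      rw [h2]
      exact map_zero _
  -- the boundary cycle
  have hd : ∀ i : Fin (N + 2), (dlt i : Mo N (N + 1)) ∈ (bd (N + 1)).car N := by
    intro i hs
    obtain ⟨t, ht⟩ := hs i
    exact Fin.succAbove_ne i t ht
  let z : Ch (bd (N + 1)).ss N := ∑ i : Fin (N + 2), Finsupp.single ⟨dlt i, hd i⟩ 1
  have hz : z ∈ (lin (bd (N + 1)).ss).Z N := by
    obtain ⟨M, rfl⟩ : ∃ M, N = M + 1 := ⟨N - 1, by omega⟩
    show z ∈ LinearMap.ker ((lin (bd (M + 1 + 1)).ss).d M)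
    rw [LinearMap.mem_ker, lin_d]
    have hinj : Function.Injective (Finsupp.mapDomain (M := ZMod 2)
        ((bd (M + 1 + 1)).incl.app M)) := Finsupp.mapDomain_injective Subtype.val_injective
    apply hinj
    rw [Finsupp.mapDomain_zero]
    have e1 : Finsupp.mapDomain ((bd (M + 1 + 1)).incl.app M) (dif z) =
        dif (Finsupp.mapDomain ((bd (M + 1 + 1)).incl.app (M + 1)) z) := by
      unfold dif
      rw [Finsupp.mapDomain_finsetSum]
      refine Finset.sum_congr rfl fun i _ => ?_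
      rw [← Finsupp.mapDomain_comp, ← Finsupp.mapDomain_comp]
      rfl
    have e2 : Finsupp.mapDomain ((bd (M + 1 + 1)).incl.app (M + 1)) z =
        dif (Finsupp.single (OrderHom.id : Mo (M + 2) (M + 2)) 1 : Ch (Del (M + 2)) (M + 2)) := by
      unfold dif
      rw [Finsupp.mapDomain_finsetSum]
      refine Finset.sum_congr rfl fun i _ => ?_
      rw [Finsupp.mapDomain_single, Finsupp.mapDomain_single]
      rfl
    rw [e1, e2, dif_dif]
  have h3 := (htp_iff W f g).1 hfg N z hz
  have h4 : linExt g.app N z = (0 : W.V N) := by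
    rw [linExt_apply]
    exact Finset.sum_eq_zero fun x _ => smul_zero _
  have h5 : linExt f.app N z = ((R.of (Z := SpS N) none).app N (SpS.top N) : W.V N) := by
    show linExt f.app N (∑ i : Fin (N + 2), Finsupp.single ⟨dlt i, hd i⟩ 1) = _
    rw [map_sum, Fin.sum_univ_succ, linExt_single, one_smul]
    have e1 : (collapse N).app N ⟨dlt 0, hd 0⟩ = SpS.top N := by
      have h6 : (sgm (0 : Fin (N + 1))).comp (dlt (0 : Fin (N + 2)) : Mo N (N + 1)) =
          OrderHom.id := sgm_comp_dlt_castSucc (0 : Fin (N + 1))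
      have h7 : (∀ t, (dlt (0 : Fin (N + 2)) : Mo N (N + 1)) t ≠ 0) ∧ Function.Surjective
          ((sgm (0 : Fin (N + 1))).comp (dlt (0 : Fin (N + 2)) : Mo N (N + 1))) := by
        refine ⟨fun t => Fin.succAbove_ne 0 t, ?_⟩
        rw [h6]
        exact fun y => ⟨y, rfl⟩
      refine (dif_pos h7).trans ?_
      exact congrArg some (Subtype.ext h6)
    have e2 : ∀ i : Fin (N + 1), linExt f.app N (Finsupp.single ⟨dlt i.succ, hd i.succ⟩ 1) =
        (0 : W.V N) := by
      intro i
      rw [linExt_single, one_smul]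
      have h8 : (collapse N).app N ⟨dlt i.succ, hd i.succ⟩ = none := by
        refine dif_neg fun h9 => h9.1 0 ?_
        show i.succ.succAbove 0 = 0
        exact Fin.succ_succAbove_zero i
      show (R.of (Z := SpS N) none).app N ((collapse N).app N ⟨dlt i.succ, hd i.succ⟩) = _
      rw [h8]
      exact A205_of_none N N
    rw [Finset.sum_congr rfl fun i _ => e2 i, Finset.sum_const_zero, add_zero]
    show (R.of (Z := SpS N) none).app N ((collapse N).app N ⟨dlt 0, hd 0⟩) = _
    rw [e1]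
  rw [h4, add_zero, h5] at h3
  obtain ⟨w, hw⟩ := h3
  rw [d_top] at hw
  exact top_ne_zero N hw.symm

end MM

end

/-! ### from `Lib_MP_33f7bb_d.A206` -/

section

/-!
# A2-06: the target theorem, from (H1), (H0) for the mapping tower and the singular section
-/

namespace MM

/-- what is needed from section S -/
def SingOfBd : Prop :=
  ∀ (N : ℕ) (Y : SS), ExtAll Y → ∀ m : Hom (bd (N + 1)).ss Y, ¬ Null m →
    ∃ κ : Hom (Sing (Sph N)) Y, ¬ Null κ

/-- what is needed from A7 -/
def HProp : Prop :=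
  ∀ N : ℕ, 1 ≤ N → (mapT (resT (SpS N) none) BZ2 K1.zv).H1 ∧
    (mapT (resT (SpS N) none) BZ2 K1.zv).H0

theorem existsTarget_of (hS : SingOfBd) (hH : HProp) : ExistsTarget := by
  intro N hN
  set T := resT (SpS N) none with hT
  have hE : ExtAll T.Tot := fun P A C hAC h => T.tot_ext hAC h
  obtain ⟨τ, hc, h2, hf⟩ := exists_tot_topology T (fun s n => resV_SpS_finite N s n)
  obtain ⟨τ', hc', h2', hf'⟩ := exists_comp_topology (T.tot0 0) τ hc h2 hf
  have hEY : ExtAll T.Y := extAll_comp hE _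
  obtain ⟨m, hm⟩ := exists_essential N hN
  obtain ⟨κ, hκ⟩ := hS N T.Y hEY m hm
  refine ⟨T.Y, τ', ?_, κ, hκ⟩
  exact
    { compact := hc'
      t2 := h2'
      nonempty := ⟨⟨T.tot0 0, (mem_comp_zero _ _).2 (joined_self _)⟩⟩
      cont := hf'
      ext := hEY
      null := good_Y T hE fun k => (mapT T BZ2 K1.zv).tot_rlp (hH N hN).1 (hH N hN).2 k }

end MM

end

/-! ### from `Lib_MP_33f7bb_d.A516` -/

section

/-!
# A5-16: the resolution of the sphere as `CoB`

`exists_grB_sphere`: the homology of `resV 0 = R (SpS N)` is zero in degrees `≠ N` (A71S), choose a basis of `H_N`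
(`Module.Basis.ofVectorSpace` or `Module.Free.chooseBasis`), for `d ≠ N` the empty basis of a zero space.
`resCoB`: all relations from the identities in `A2Res`: `PHom.R_R`, `PHom.R_R_id`, `res_dd`, `res_ss`, `res_sd_lt`, `res_sd_eq`, `res_sd_eq'`,
`res_sd_gt` (at the index `s + 1` for the cofaces, note `cf s i = R (resD (s+1) i)`), `muV_R_of`, `muV_nat`, and functoriality (`SV.Hmap_comp`, `GrB.gm_comp`,
`GrB.gm_id`).
-/

namespace MM

theorem exists_grB_sphere (N : ℕ) (hN : 1 ≤ N) : ∃ B1 : Type,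
    Nonempty (GrB B1 (fun _ => N) (fun d => (resV (SpS N) none 0).H d)) := by
  classical
  have _ := hN
  have h0 : ∀ d, d ≠ N → ∀ x : (resV (SpS N) none 0).H d, x = 0 := fun d hd x => RSp_H N d hd x
  refine ⟨Module.Basis.ofVectorSpaceIndex (ZMod 2) ((resV (SpS N) none 0).H N), ⟨⟨fun d => ?_⟩⟩⟩
  by_cases h : N = d
  · subst h
    exact (Module.Basis.ofVectorSpace (ZMod 2) ((resV (SpS N) none 0).H N)).reindex
      (Equiv.subtypeUnivEquiv (fun _ => rfl)).symm
  · have h1 : IsEmpty {e : Module.Basis.ofVectorSpaceIndex (ZMod 2) ((resV (SpS N) none 0).H N) //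
        N = d} := ⟨fun e => h e.2⟩
    have h2 : Subsingleton ((resV (SpS N) none 0).H d) :=
      ⟨fun a b => by rw [h0 d (Ne.symm h) a, h0 d (Ne.symm h) b]⟩
    exact Module.Basis.empty _

private theorem A516_sq {P Q Q' S : SV} (f : SVHom P Q) (g : SVHom Q S) (f' : SVHom P Q')
    (g' : SVHom Q' S) (h : ∀ n x, g.app n (f.app n x) = g'.app n (f'.app n x)) (d : ℕ) :
    (SV.Hmap g d).comp (SV.Hmap f d) = (SV.Hmap g' d).comp (SV.Hmap f' d) := by
  have e : g.comp f = g'.comp f' := SVHom.ext (funext fun n => LinearMap.ext fun x => h n x)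
  refine LinearMap.ext fun x => ?_
  rw [LinearMap.comp_apply, LinearMap.comp_apply, ← SV.Hmap_comp, ← SV.Hmap_comp, e]

private theorem A516_tr {P Q : SV} (f : SVHom P Q) (g : SVHom Q P)
    (h : ∀ n x, g.app n (f.app n x) = x) (d : ℕ) (x : P.H d) :
    ((SV.Hmap g d).comp (SV.Hmap f d)) x = x := by
  have e : g.comp f = SVHom.id P := SVHom.ext (funext fun n => LinearMap.ext fun x => h n x)
  rw [LinearMap.comp_apply, ← SV.Hmap_comp, e, SV.Hmap_id]

section gm

variable {L L' L'' L₁ : Type} {deg : L → ℕ} {deg' : L' → ℕ} {deg'' : L'' → ℕ} {deg₁ : L₁ → ℕ}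
  {H H' H'' H₁ : ℕ → Type}
  [∀ d, AddCommGroup (H d)] [∀ d, Module (ZMod 2) (H d)]
  [∀ d, AddCommGroup (H' d)] [∀ d, Module (ZMod 2) (H' d)]
  [∀ d, AddCommGroup (H'' d)] [∀ d, Module (ZMod 2) (H'' d)]
  [∀ d, AddCommGroup (H₁ d)] [∀ d, Module (ZMod 2) (H₁ d)]

private theorem A516_gm_sq (β : GrB L deg H) (β' : GrB L' deg' H') (β'' : GrB L'' deg'' H'')
    (β₁ : GrB L₁ deg₁ H₁) (f : ∀ d, H d →ₗ[ZMod 2] H' d) (g : ∀ d, H' d →ₗ[ZMod 2] H'' d)
    (f' : ∀ d, H d →ₗ[ZMod 2] H₁ d) (g' : ∀ d, H₁ d →ₗ[ZMod 2] H'' d)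
    (h : ∀ d, (g d).comp (f d) = (g' d).comp (f' d)) (c : L →₀ ZMod 2) :
    β'.gm β'' g (β.gm β' f c) = β₁.gm β'' g' (β.gm β₁ f' c) := by
  rw [GrB.gm_comp, GrB.gm_comp, funext h]

private theorem A516_gm_tr (β : GrB L deg H) (β' : GrB L' deg' H')
    (f : ∀ d, H d →ₗ[ZMod 2] H' d) (g : ∀ d, H' d →ₗ[ZMod 2] H d)
    (h : ∀ d x, ((g d).comp (f d)) x = x) (c : L →₀ ZMod 2) :
    β'.gm β g (β.gm β' f c) = c := by
  rw [GrB.gm_comp]
  exact GrB.gm_id _ _ h c

end gm

section

variable (N : ℕ) (I : ℕ → Type) (dg : ∀ s, I s → ℕ)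
  (y : ∀ s, (I s →₀ ℕ) → ∀ d, (RV (resV (SpS N) none s)).H d)
  (h : ∀ s, IsCB (resV (SpS N) none s) (I s) (dg s) (y s))
  (B1 : Type) (β : GrB B1 (fun _ => N) (fun d => (resV (SpS N) none 0).H d))

/-- cofaces on homology -/
noncomputable def resCf (s i d : ℕ) :
    (RV (resV (SpS N) none s)).H d →ₗ[ZMod 2] (RV (resV (SpS N) none (s + 1))).H d :=
  SV.Hmap (P := RV (resV (SpS N) none s)) (Q := RV (resV (SpS N) none (s + 1)))
    (RVmap ((resT (SpS N) none).d s i) ((resT (SpS N) none).d_zv s i)) d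

/-- codegeneracies on homology -/
noncomputable def resCd (s j d : ℕ) :
    (RV (resV (SpS N) none (s + 1))).H d →ₗ[ZMod 2] (RV (resV (SpS N) none s)).H d :=
  SV.Hmap (P := RV (resV (SpS N) none (s + 1))) (Q := RV (resV (SpS N) none s))
    (RVmap (resS (SpS N) none s j).hom (resS (SpS N) none s j).ph.hf) d

/-- the coface as a linear map -/
private noncomputable def A516_D (s i : ℕ) :
    SVHom (RV (resV (SpS N) none s)) (RV (resV (SpS N) none (s + 1))) :=
  (resD (SpS N) none (s + 1) i).R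

/-- the codegeneracy as a linear map -/
private noncomputable def A516_S (s j : ℕ) :
    SVHom (RV (resV (SpS N) none (s + 1))) (RV (resV (SpS N) none s)) :=
  (resS (SpS N) none s j).ph.R

private theorem A516_cf (s i d : ℕ) : resCf N s i d = SV.Hmap (A516_D N s i) d := rfl

private theorem A516_cd (s i d : ℕ) : resCd N s i d = SV.Hmap (A516_S N s i) d := rfl

private theorem A516_Ddd (s i j : ℕ) (hij : i ≤ j) (hj : j ≤ s + 1) (n : ℕ) (x) :
    (A516_D N (s + 1) (j + 1)).app n ((A516_D N s i).app n x) =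
      (A516_D N (s + 1) i).app n ((A516_D N s j).app n x) :=
  PHom.R_R (resD (SpS N) none (s + 1) i) (resD (SpS N) none (s + 2) (j + 1))
    (resD (SpS N) none (s + 1) j) (resD (SpS N) none (s + 2) i)
    (fun n x => res_dd (SpS N) none (s + 1) i j n x hij hj) n x

private theorem A516_Dss (s i j : ℕ) (hij : i ≤ j) (hj : j ≤ s) (n : ℕ) (x) :
    (A516_S N s j).app n ((A516_S N (s + 1) i).app n x) =
      (A516_S N s i).app n ((A516_S N (s + 1) (j + 1)).app n x) :=
  PHom.R_R (resS (SpS N) none (s + 1) i).ph (resS (SpS N) none s j).ph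
    (resS (SpS N) none (s + 1) (j + 1)).ph (resS (SpS N) none s i).ph
    (fun n x => res_ss (SpS N) none s i j n x hij hj) n x

private theorem A516_Dlt (s i j : ℕ) (hij : i ≤ j) (hj : j ≤ s) (n : ℕ) (x) :
    (A516_S N (s + 1) (j + 1)).app n ((A516_D N (s + 1) i).app n x) =
      (A516_D N s i).app n ((A516_S N s j).app n x) :=
  PHom.R_R (resD (SpS N) none (s + 2) i) (resS (SpS N) none (s + 1) (j + 1)).ph
    (resS (SpS N) none s j).ph (resD (SpS N) none (s + 1) i)
    (fun n x => res_sd_lt (SpS N) none s i j n x hij hj) n x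

private theorem A516_Deq (s j : ℕ) (hj : j ≤ s) (n : ℕ) (x) :
    (A516_S N s j).app n ((A516_D N s j).app n x) = x :=
  PHom.R_R_id (resD (SpS N) none (s + 1) j) (resS (SpS N) none s j).ph
    (fun n x => res_sd_eq (SpS N) none s j n x hj) n x

private theorem A516_Deq' (s j : ℕ) (hj : j ≤ s) (n : ℕ) (x) :
    (A516_S N s j).app n ((A516_D N s (j + 1)).app n x) = x :=
  PHom.R_R_id (resD (SpS N) none (s + 1) (j + 1)) (resS (SpS N) none s j).ph
    (fun n x => res_sd_eq' (SpS N) none s j n x hj) n x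

private theorem A516_Dgt (s i j : ℕ) (hij : i ≤ j) (hj : j ≤ s) (n : ℕ) (x) :
    (A516_S N (s + 1) i).app n ((A516_D N (s + 1) (j + 2)).app n x) =
      (A516_D N s (j + 1)).app n ((A516_S N s i).app n x) :=
  PHom.R_R (resD (SpS N) none (s + 2) (j + 2)) (resS (SpS N) none (s + 1) i).ph
    (resS (SpS N) none s i).ph (resD (SpS N) none (s + 1) (j + 1))
    (fun n x => res_sd_gt (SpS N) none s i j n x hij hj) n x

/-- the cosimplicial identities -/
private theorem A516_rel : CosRel (fun s i => (h s).grB.gm (h (s + 1)).grB (resCf N s i))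
    (fun s j => (h (s + 1)).grB.gm (h s).grB (resCd N s j)) where
  dd := fun s i j x hij hj => A516_gm_sq _ _ _ _ _ _ _ _ (fun d =>
    A516_sq (A516_D N s i) (A516_D N (s + 1) (j + 1)) (A516_D N s j) (A516_D N (s + 1) i)
      (A516_Ddd N s i j hij hj) d) x
  σσ := fun s i j x hij hj => A516_gm_sq _ _ _ _ _ _ _ _ (fun d =>
    A516_sq (A516_S N (s + 1) i) (A516_S N s j) (A516_S N (s + 1) (j + 1)) (A516_S N s i)
      (A516_Dss N s i j hij hj) d) x
  σd_lt := fun s i j x hij hj => A516_gm_sq _ _ _ _ _ _ _ _ (fun d =>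
    A516_sq (A516_D N (s + 1) i) (A516_S N (s + 1) (j + 1)) (A516_S N s j) (A516_D N s i)
      (A516_Dlt N s i j hij hj) d) x
  σd_eq := fun s j x hj => A516_gm_tr _ _ _ _ (fun d =>
    A516_tr (A516_D N s j) (A516_S N s j) (A516_Deq N s j hj) d) x
  σd_eq' := fun s j x hj => A516_gm_tr _ _ _ _ (fun d =>
    A516_tr (A516_D N s (j + 1)) (A516_S N s j) (A516_Deq' N s j hj) d) x
  σd_gt := fun s i j x hij hj => A516_gm_sq _ _ _ _ _ _ _ _ (fun d =>
    A516_sq (A516_D N (s + 1) (j + 2)) (A516_S N (s + 1) i) (A516_S N s i) (A516_D N s (j + 1))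
      (A516_Dgt N s i j hij hj) d) x

/-- the resolution of the sphere as a `CoB` -/
noncomputable def resCoB : CoB where
  I := I
  dg := dg
  dg_pos s := (h s).pos
  dg_fin s := (h s).fin
  cf s i := (h s).grB.gm (h (s + 1)).grB (resCf N s i)
  cd s j := (h (s + 1)).grB.gm (h s).grB (resCd N s j)
  rel := A516_rel N I dg y h
  cf_deg s i := GrB.gm_deg _ _ _
  cd_deg s j := GrB.gm_deg _ _ _
  cf_co s i := (h s).coMap (h (s + 1)) _ _
  cd_co s j := (h (s + 1)).coMap (h s) _ _
  N := N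
  B1 := B1
  aug := β.gm (h 0).grB fun d => SV.Hmap (P := resV (SpS N) none 0)
    (Q := RV (resV (SpS N) none 0)) (resD (SpS N) none 0 0).R d
  h0 := (h 0).grB.gm β fun d => SV.Hmap (muV (resV (SpS N) none 0)) d
  h0_deg := GrB.gm_deg _ _ _
  h s := (h (s + 1)).grB.gm (h s).grB fun d => SV.Hmap (P := RV (resV (SpS N) none (s + 1)))
    (Q := RV (resV (SpS N) none s)) (muV (resV (SpS N) none (s + 1))) d
  h_deg s := GrB.gm_deg _ _ _
  h_zero s x := A516_gm_tr _ _ _ _ (fun d =>
    A516_tr (resU (SpS N) none (s + 1)).eta.R (muV (resV (SpS N) none (s + 1)))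
      (muV_R_of (resU (SpS N) none (s + 1))) d) x
  h_succ s i x _ := A516_gm_sq _ _ _ _ _ _ _ _ (fun d =>
    A516_sq (resD (SpS N) none (s + 1) i).R.ph.R (muV (resV (SpS N) none (s + 2)))
      (muV (resV (SpS N) none (s + 1))) (resD (SpS N) none (s + 1) i).R
      (muV_nat (resD (SpS N) none (s + 1) i).R) d) x
  h_aug x := A516_gm_sq _ _ _ _ _ _ _ _ (fun d =>
    A516_sq (resD (SpS N) none 0 0).R.ph.R (muV (resV (SpS N) none 1))
      (muV (resV (SpS N) none 0)) (resD (SpS N) none 0 0).R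
      (muV_nat (resD (SpS N) none 0 0).R) d) x

end

end MM

end
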