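import Pool.Agent.Lib_MP_33f7bb_m.G16
import Pool.Agent.Lib_MP_33f7bb_m.G17

/-!
# MP_33f7bb_an, negative answer to Q1: merged library part G18

Concatenation of files of `Lib_MP_33f7bb_an` and `Lib_MP_33f7bb_d` (each in its own section), only to save build time.
-/

/-! ### from `Lib_MP_33f7bb_d.A711` -/

section

/-!
# A7-11: (H0) for the tower of mapping spaces of the resolution of the sphere
-/

open scoped TensorProduct

namespace MM

/-- a vertex of `Map_*(Z, V)` as a simplicial map -/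
def MapSV.map0 {Z : SS} {z₀ : Z.S 0} {V : SV} (z : (MapSV Z z₀ V).V 0) : Hom Z V.ss :=
  ⟨fun n x => MapSV.val z n (cst 0, x), fun f x => MapSV.val_nat z f (cst 0) x⟩

theorem MapSV.map0_base {Z : SS} {z₀ : Z.S 0} {V : SV} (z : (MapSV Z z₀ V).V 0) :
    (MapSV.map0 z).app 0 z₀ = V.zv := by
  have h := MapSV.val_base z 0 (cst 0)
  have h1 : Z.deg z₀ 0 = z₀ := by
    show Z.act _ z₀ = z₀
    have h1 : (cst 0 : Mo 0 0) = OrderHom.id := by
      ext i; simp [cst]
    rw [h1, Z.act_id]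
  rw [h1] at h
  exact h

theorem moore_of_zero {W : SV} (z : W.V 0) : W.Moore z := fun m f hf => by
  refine absurd ?_ hf
  intro y
  exact ⟨0, Fin.ext (by have h1 := (f 0).2; have h2 := y.2; omega)⟩

/-- augmentation of `K'(0)` -/
noncomputable def aug711 (m : ℕ) : (KK 0).V m →ₗ[ZMod 2] ZMod 2 :=
  Submodule.liftQ _ (Finsupp.linearCombination (ZMod 2) (fun _ : Mo m 0 => (1 : ZMod 2))) (by
    intro x hx
    have h1 : x = 0 := by
      apply Finsupp.support_eq_empty.1
      apply Finset.eq_empty_of_forall_notMem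
      intro y hy
      exact hx hy fun i => ⟨0, Subsingleton.elim (α := Fin 1) _ _⟩
    rw [h1]
    exact Submodule.zero_mem _)

/-- the simplices of `K'(0)` -/
noncomputable def e711 (m : ℕ) : (KK 0).V m :=
  (linSub (bd 0)).proj.app m (Finsupp.single (cst 0 : Mo m 0) 1)

theorem aug_e711 (m : ℕ) : aug711 m (e711 m) = 1 := by
  show Finsupp.linearCombination (ZMod 2) (fun _ : Mo m 0 => (1 : ZMod 2))
    (Finsupp.single (cst 0 : Mo m 0) 1) = 1
  simp

theorem mo_eq711 {m : ℕ} (f g : Mo m 0) : f = g :=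
  OrderHom.ext _ _ (funext fun _ => Subsingleton.elim (α := Fin 1) _ _)

theorem eq_smul711 (m : ℕ) (x : (KK 0).V m) : x = aug711 m x • e711 m := by
  obtain ⟨x, rfl⟩ := Submodule.Quotient.mk_surjective _ x
  induction x using Finsupp.induction_linear with
  | zero => rw [Submodule.Quotient.mk_zero, map_zero, zero_smul]
  | add x y hx hy => rw [Submodule.Quotient.mk_add, map_add, add_smul, ← hx, ← hy]
  | single a b =>
    have h1 : aug711 m (Submodule.Quotient.mk (Finsupp.single a b)) = b := by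
      show Finsupp.linearCombination (ZMod 2) (fun _ : Mo m 0 => (1 : ZMod 2))
        (Finsupp.single a b) = b
      simp
    rw [h1]
    have h2 : a = cst 0 := mo_eq711 _ _
    rw [h2]
    show _ = b • (Submodule.Quotient.mk (Finsupp.single (cst 0 : Mo m 0) 1) :
      Ch (Del 0) m ⧸ (linSub (bd 0)).car m)
    rw [← Submodule.Quotient.mk_smul, Finsupp.smul_single, smul_eq_mul, mul_one]

theorem act_e711 {m k : ℕ} (θ : Mo m k) : (KK 0).act θ (e711 k) = e711 m := by
  show Submodule.Quotient.mk (Finsupp.mapDomain _ (Finsupp.single _ _)) = _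
  rw [Finsupp.mapDomain_single]
  rfl

theorem aug_act711 {m k : ℕ} (θ : Mo m k) (x : (KK 0).V k) :
    aug711 m ((KK 0).act θ x) = aug711 k x := by
  conv_lhs => rw [eq_smul711 k x, map_smul, act_e711, map_smul, aug_e711]
  simp

/-- `R Z → K'(0) ⊗ R Z`, `x ↦ 1 ⊗ x` -/
noncomputable def unitT (Q : SV) : SVHom Q ((KK 0).tens Q) where
  app m := TensorProduct.mk (ZMod 2) ((KK 0).V m) (Q.V m) (e711 m)
  nat {m k} θ x := by
    show e711 m ⊗ₜ[ZMod 2] Q.act θ x = TensorProduct.map _ _ (e711 k ⊗ₜ[ZMod 2] x)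
    rw [TensorProduct.map_tmul, act_e711]

/-- inverse of `unitT` -/
noncomputable def unitTinv (Q : SV) : SVHom ((KK 0).tens Q) Q where
  app m := TensorProduct.lift ((LinearMap.lsmul (ZMod 2) (Q.V m)).comp (aug711 m))
  nat {m k} θ x := by
    induction x using TensorProduct.induction_on with
    | zero => simp
    | add x y hx hy => simp only [map_add, hx, hy]
    | tmul x y =>
      show TensorProduct.lift _ (TensorProduct.map _ _ (x ⊗ₜ[ZMod 2] y)) = _
      rw [TensorProduct.map_tmul, TensorProduct.lift.tmul, TensorProduct.lift.tmul]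
      show aug711 m ((KK 0).act θ x) • Q.act θ y = Q.act θ (aug711 k x • y)
      rw [aug_act711, map_smul]

theorem unitT_inv (Q : SV) (m : ℕ) (z : ((KK 0).tens Q).V m) :
    (unitT Q).app m ((unitTinv Q).app m z) = z := by
  induction z using TensorProduct.induction_on with
  | zero => simp
  | add x y hx hy => rw [map_add, map_add, hx, hy]
  | tmul x y =>
    show e711 m ⊗ₜ[ZMod 2] TensorProduct.lift _ (x ⊗ₜ[ZMod 2] y) = x ⊗ₜ[ZMod 2] y
    rw [TensorProduct.lift.tmul]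
    show e711 m ⊗ₜ[ZMod 2] (aug711 m x • y) = x ⊗ₜ[ZMod 2] y
    rw [← TensorProduct.smul_tmul, ← eq_smul711]

theorem unitT_app (P : SV) (n : ℕ) (x : P.V n) : (unitT P).app n x =
    ((linSub (bd 0)).proj.app n (Finsupp.single (cst 0 : Mo n 0) 1) : (KK 0).V n) ⊗ₜ[ZMod 2] x :=
  rfl

theorem unitT_surj (P : SV) (n : ℕ) (c : ((KK 0).tens P).H n) :
    SV.Hmap (unitT P) n (SV.Hmap (unitTinv P) n c) = c := by
  rw [← SV.Hmap_comp]
  have h : (unitT P).comp (unitTinv P) = SVHom.id _ := by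
    apply SVHom.ext
    funext n
    exact LinearMap.ext fun x => unitT_inv P n x
  rw [h, SV.Hmap_id]

theorem psiHom_unitT {Z : SS} {z₀ : Z.S 0} {V : SV} (z : (MapSV Z z₀ V).V 0)
    (hz : (MapSV Z z₀ V).Moore z) :
    (psiHom z hz).comp (unitT (R Z z₀)) =
      R.map z₀ V.zv (MapSV.map0 z) (MapSV.map0_base z) := by
  apply R.ext
  intro n x
  rw [R.map_of]
  show (psiHom z hz).app n ((unitT (R Z z₀)).app n _) = _
  rw [unitT_app, psiHom_of]
  rfl

/-- the resolution in low degrees: `V_0 = R X`, `d^0` and `d^1 : V_0 → R V_0` -/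
theorem etaPt {Z : SS} (z₀ : Z.S 0) : (R.of z₀).app 0 z₀ = (0 : (R Z z₀).V 0) := by
  have := R.of_base z₀ 0
  rwa [show Z.deg z₀ 0 = z₀ from by
    show Z.act _ z₀ = z₀
    have h1 : (cst 0 : Mo 0 0) = OrderHom.id := by
      ext i; simp [cst]
    rw [h1, Z.act_id]] at this

theorem SVHom.hom_zv {P Q : SV} (f : SVHom P Q) : f.hom.app 0 P.zv = Q.zv := map_zero (f.app 0)

/-- `d^0 : R Z → R (R Z)` -/
noncomputable def resd0 (V : SV) : Hom V.ss (RV V).ss := R.of V.zv

theorem resd0_zv (V : SV) : (resd0 V).app 0 V.zv = (RV V).zv := etaPt V.zv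

/-- `d^1 : R Z → R (R Z)` -/
noncomputable def resd1 (Z : SS) (z₀ : Z.S 0) : SVHom (R Z z₀) (RV (R Z z₀)) :=
  R.map z₀ (R Z z₀).zv (R.of z₀) (etaPt z₀)

/-- **(H0)** in general form -/
theorem H0_general (Z : SS) (z₀ : Z.S 0) (N : ℕ) (hN : 1 ≤ N)
    (hH : ∀ n, n ≠ N → ∀ x : (R Z z₀).H n, x = 0)
    (z : (MapSV BZ2 K1.zv (R Z z₀)).V 0)
    (h : (MapSV.comp (resd0 (R Z z₀)) (resd0_zv _)).app 0 z +
      (MapSV.comp (resd1 Z z₀).hom (SVHom.hom_zv _)).app 0 z ∈
        (MapSV BZ2 K1.zv (RV (R Z z₀))).B 0) :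
    z ∈ (MapSV BZ2 K1.zv (R Z z₀)).B 0 := by
  have hz := moore_of_zero z
  -- homotopic maps have the same `psiHom` in homology
  have h1 := fun n => psi_congr _ _ (moore_of_zero _) (moore_of_zero _) h n
  -- the pull back of classes of degree `2 N` vanishes
  have key : ∀ (n : ℕ) (c : ((KK 0).tens (R BZ2 K1.zv)).H n),
      SV.Hmap (psiHom z hz) n c =
        SV.Hmap (resd1 Z z₀) n (SV.Hmap (muV (R Z z₀)) n (SV.Hmap (psiHom z hz) n c)) := by
    intro n c
    have h2 := congrArg (fun g => SV.Hmap (muV (RV (R Z z₀))) n (g c)) (h1 n)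
    rw [psi_comp, psi_comp] at h2
    simp only [SV.Hmap_comp] at h2
    have h3 : (muV (RV (R Z z₀))).comp (RVmap (resd0 (R Z z₀)) (resd0_zv _)) =
        SVHom.id (RV (R Z z₀)) := by
      apply R.ext
      intro m x
      show (muV (RV (R Z z₀))).app m ((RVmap (resd0 (R Z z₀)) (resd0_zv _)).app m _) = _
      rw [R.map_of, muV_of]
      rfl
    have h4 : (muV (RV (R Z z₀))).comp (RVmap (resd1 Z z₀).hom (SVHom.hom_zv _)) =
        (resd1 Z z₀).comp (muV (R Z z₀)) := by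
      apply R.ext
      intro m x
      show (muV (RV (R Z z₀))).app m ((RVmap _ _).app m _) = (resd1 _ _).app m ((muV (R Z z₀)).app m _)
      rw [R.map_of, muV_of, muV_of]
      rfl
    rw [← SV.Hmap_comp, ← SV.Hmap_comp (muV (RV (R Z z₀))), h3, h4, SV.Hmap_id, SV.Hmap_comp] at h2
    exact h2
  refine psi_null z hz fun n c => ?_
  by_cases hn : n = N
  · subst hn
    rw [← unitT_surj _ _ c, ← SV.Hmap_comp (psiHom z hz), psiHom_unitT]
    obtain h0 | h0 := eq_zero_or_eB n (SV.Hmap (unitTinv (R BZ2 K1.zv)) n c)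
    · rw [h0, map_zero, map_zero]
    · rw [h0]
      -- all functionals vanish
      by_contra hne
      obtain ⟨lam, hlam⟩ : ∃ lam : Module.Dual (ZMod 2) ((R Z z₀).H n),
          lam (SV.Hmap (muV (R Z z₀)) n (SV.Hmap (R.map K1.zv (R Z z₀).zv (MapSV.map0 z)
            (MapSV.map0_base z)) n (eB n))) ≠ 0 := by
        by_contra hcon
        push Not at hcon
        exact hne ((Module.forall_dual_apply_eq_zero_iff (ZMod 2) _).1 hcon)
      apply hlam
      have h5 := cupR_eB (p := n) (q := n) hN hN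
        ((fundC lam).comp (SV.Hmap (R.map K1.zv (R Z z₀).zv (MapSV.map0 z) (MapSV.map0_base z)) n))
        ((fundC lam).comp (SV.Hmap (R.map K1.zv (R Z z₀).zv (MapSV.map0 z) (MapSV.map0_base z)) n))
      rw [← cupR_map] at h5
      -- the left hand side vanishes
      have h6 : (cupR (n + n) (fundC lam) (fundC lam) : RHc (R Z z₀) (n + n))
          (SV.Hmap (R.map K1.zv (R Z z₀).zv (MapSV.map0 z) (MapSV.map0_base z)) (n + n)
            (eB (n + n))) = 0 := by
        rw [← psiHom_unitT z hz, SV.Hmap_comp, key]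
        have h7 := cupR_map z₀ (R Z z₀).zv (R.of z₀) (etaPt _) (n + n) (fundC lam) (fundC lam)
        have h8 := congrArg (fun g : Module.Dual (ZMod 2) ((R Z z₀).H (n + n)) =>
          g (SV.Hmap (muV (R Z z₀)) (n + n) (SV.Hmap (psiHom z hz) (n + n)
            (SV.Hmap (unitT (R BZ2 K1.zv)) (n + n) (eB (n + n)))))) h7
        refine Eq.trans h8 ?_
        rw [hH (n + n) (by omega) (SV.Hmap (muV (R Z z₀)) (n + n) _), map_zero]
      have h9 : ((cupR (n + n) (fundC lam) (fundC lam) : RHc (R Z z₀) (n + n)).comp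
          (SV.Hmap (R.map K1.zv (R Z z₀).zv (MapSV.map0 z) (MapSV.map0_base z)) (n + n)))
            (eB (n + n)) = 0 := h6
      rw [h9] at h5
      exact mul_self_eq_zero.1 h5.symm
  · exact hH n hn _

theorem H0_sphere (N : ℕ) (hN : 1 ≤ N)
    (z : (MapSV BZ2 K1.zv (R (SpS N) (SpS.base N))).V 0)
    (h : (MapSV.comp (resd0 (R (SpS N) (SpS.base N))) (resd0_zv _)).app 0 z +
      (MapSV.comp (resd1 (SpS N) (SpS.base N)).hom (SVHom.hom_zv _)).app 0 z ∈
        (MapSV BZ2 K1.zv (RV (R (SpS N) (SpS.base N)))).B 0) :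
    z ∈ (MapSV BZ2 K1.zv (R (SpS N) (SpS.base N))).B 0 :=
  H0_general (SpS N) (SpS.base N) N hN (RSp_H N) z h

end MM

end

/-! ### from `Lib_MP_33f7bb_d.A611` -/

section

/-!
# A6-11: `HomExactProp`
-/

namespace MM

/-- part A6 in the form used by A7 -/
theorem homExact : HomExactProp := by
  intro M δ hdd hs _ hb0 hb t ht
  choose ι a hS using hs
  let C : AMC := ⟨M, δ, hdd⟩
  have hB : C.Bdd := by
    intro s
    cases s with
    | zero => exact hb0
    | succ s => exact hb s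
  have hG : ∀ s, (AM.dsum fun l => EAM (a s l)).Good := fun s =>
    ⟨ι s, a s, ⟨⟨fun _ => LinearEquiv.refl _ _, fun _ _ _ => rfl⟩⟩⟩
  obtain ⟨t, rfl⟩ := Nat.exists_eq_succ_of_ne_zero (by omega : t ≠ 0)
  have h := AMC.homEx_susp C (fun s => AM.dsum fun l => EAM (a s l)) hG (fun s => (hS s).some) hB t
  refine ⟨h.zero, fun s f hf h0 => ?_⟩
  obtain ⟨g, hg, hg'⟩ := h.succ s f hf h0
  exact ⟨g, hg, fun n x => (hg' n x).symm⟩

end MM

end

/-! ### from `Lib_MP_33f7bb_d.S8` -/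

section

/-!
# S8: essential maps on `Sing S^N` from essential maps on the boundary of the simplex
-/

namespace MM

theorem exists_sing_of_bd (N : ℕ) {Y : SS}
    (hext : ∀ (P : SS) (A C : Sub P), A ≤ C → Acyc A C → ExtP Y A C)
    (m : Hom (bd (N + 1)).ss Y) (hm : ¬ Null m) :
    ∃ κ : Hom (Sing (Sph N)) Y, ¬ Null κ := by
  classical
  obtain ⟨f, g, hf, hfg⟩ := sphere_bd N
  have h0 : ∀ k, (cst 0 : Mo k (N + 1)) ∈ (bd (N + 1)).car k := fun k hs => by
    obtain ⟨i, hi⟩ := hs 1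
    have : (0 : Fin (N + 2)) = 1 := hi
    exact absurd (congrArg Fin.val this) (by simp)
  -- the map on the image of the boundary
  let f0 : Fn (Sing (Dtop (N + 1))) Y := fun k σ =>
    if h : ∃ θ : Mo k (N + 1), θ ∈ (bd (N + 1)).car k ∧ (yoT (N + 1)).app k θ = σ then
      m.app k ⟨h.choose, h.choose_spec.1⟩ else m.app k ⟨cst 0, h0 k⟩
  have hf0 : ∀ k (θ : Mo k (N + 1)) (hθ : θ ∈ (bd (N + 1)).car k),
      f0 k ((yoT (N + 1)).app k θ) = m.app k ⟨θ, hθ⟩ := by
    intro k θ hθ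
    have h : ∃ θ' : Mo k (N + 1), θ' ∈ (bd (N + 1)).car k ∧
        (yoT (N + 1)).app k θ' = (yoT (N + 1)).app k θ := ⟨θ, hθ, rfl⟩
    show (if h : _ then _ else _) = _
    rw [dif_pos h]
    congr 1
    exact Subtype.ext (yoT_inj h.choose_spec.2)
  have hnat : NatOn ((bd (N + 1)).map (yoT (N + 1))) f0 := by
    rintro k l θ' σ ⟨θ, hθ, rfl⟩
    rw [← (yoT (N + 1)).nat, hf0 _ _ ((bd (N + 1)).closed θ' hθ), hf0 _ _ hθ, ← m.nat]
  have hle : (bd (N + 1)).map (yoT (N + 1)) ≤ SingIn (bdTop (N + 1)) := by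
    rintro k σ ⟨θ, hθ, rfl⟩ t
    have hθ' : ¬ Function.Surjective (θ : Fin (k + 1) → Fin (N + 1 + 1)) := hθ
    unfold Function.Surjective at hθ'
    push Not at hθ'
    obtain ⟨j, hj⟩ := hθ'
    refine ⟨j, ?_⟩
    show (tmap θ t).1 j = 0
    rw [tmap_apply]
    exact Finset.sum_eq_zero fun i _ => if_neg (hj i)
  obtain ⟨g0, hg0, hg0'⟩ := hext _ _ _ hle (acyc_bd (N + 1)) f0 hnat
  have hfin : ∀ k (σ : C(Dtop k, Sph N)), f.comp σ ∈ (SingIn (bdTop (N + 1))).car k :=
    fun k σ t => hf (σ t)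
  let κ : Hom (Sing (Sph N)) Y := ⟨fun k σ => g0 k (f.comp σ), fun {k l} θ σ => by
    exact hg0 θ (f.comp σ) (hfin _ σ)⟩
  refine ⟨κ, fun hnull => hm ?_⟩
  let γ : Hom (bd (N + 1)).ss (Sing (Sph N)) := ⟨fun k θ => g.comp
    (⟨fun t => ⟨tmap θ.1 t, hle k ⟨θ.1, θ.2, rfl⟩ t⟩,
      Continuous.subtype_mk (tmap θ.1).continuous _⟩ : C(Dtop k, bdTop (N + 1))), fun {k l} f' θ => by
    refine ContinuousMap.ext fun t => ?_
    show g ⟨tmap (θ.1.comp f') t, _⟩ = g ⟨tmap θ.1 (tmap f' t), _⟩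
    congr 1
    exact Subtype.ext (tmap_comp f' θ.1 t).symm⟩
  have h := hnull.comp γ
  have e : κ.comp γ = m := by
    apply Hom.ext
    funext k θ
    show g0 k (f.comp (γ.app k θ)) = m.app k θ
    have e1 : f.comp (γ.app k θ) = (yoT (N + 1)).app k θ.1 := by
      refine ContinuousMap.ext fun t => ?_
      show f (g ⟨tmap θ.1 t, _⟩) = tmap θ.1 t
      rw [hfg]
    rw [e1, hg0' k _ ⟨θ.1, θ.2, rfl⟩, hf0 k θ.1 θ.2]
  rwa [e] at h

theorem singOfBd : SingOfBd := fun N _ hext m hm => exists_sing_of_bd N hext m hm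

end MM

end
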