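import Pool.Agent.Lib_MP_33f7bb_m.G16
import Pool.Agent.Lib_MP_33f7bb_m.G17

/-!
# MP_33f7bb_an, negative answer to Q1: merged library part G20

Concatenation of files of `Lib_MP_33f7bb_an` and `Lib_MP_33f7bb_d` (each in its own section), only to save build time.
-/

/-! ### from `Lib_MP_33f7bb_d.A517` -/

section

/-!
# A5-17: boundedness for the resolution of the sphere

`PH_exact`: from `CoB.bnd` for `X = resCoB`.  Translation: `x ∈ PH (resV s) n` iff `toL n x` is primitive (`IsCB.mem_PH`), i.e. `toL n x = em z` with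
`z = Lt.pr (toL n x) : I s →₀ F` (`em_pr`), `z` homogeneous of degree `n` (`GrB.toL_deg`, `Lt.deg (eps i) = dg i`).
`X.pd s z` = `Lt.pr (∑_i cf s i (em z)) = Lt.pr (toL n (∑_i Hmap (RVmap d^i) x))` (`GrB.gm_toL`; the element `cf s i (em z)` is primitive, `CoMap.em`).  Conversely a homogeneous
`w : I s →₀ F` gives `ofL n (em w) ∈ PH`, `toL n (ofL n (em w)) = em w` (`GrB.toL_ofL`).
`bndProp_res`: `QHd d` is the dual map of the restriction `δ s` of `∑_i Hmap (RVmap (d^i)) n` to the primitives (`QHmapL`, sums of dual maps).  `δ 0` is injective in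
degrees `n > D`, so its dual is surjective (`LinearMap.dualMap_surjective_of_injective`); `ker (δ (s+1)) = range (δ s)` in degrees `n > D`: a functional `φ` on
`PH (resV (s+1)) n` with `φ ∘ δ s = 0` vanishes on `ker (δ (s+1))`, so it is `ψ ∘ δ (s+1)` (`LinearMap.range_dualMap_eq_dualAnnihilator_ker`).
-/

namespace MM

/-- (S2)(a) of part A4 -/
def S2a : Prop := ∀ V : SV, (∀ n, Finite (V.V n)) → (∀ x : V.H 0, x = 0) →
  ∃ (I : Type) (dg : I → ℕ) (y : (I →₀ ℕ) → ∀ d, (RV V).H d), IsCB V I dg y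

private theorem A517_deg_eps {I : Type} (dg : I → ℕ) (i : I) :
    Lt.deg dg (Lt.eps i) = dg i := by
  show (Finsupp.single i 1).sum (fun i n => n * dg i) = dg i
  rw [Finsupp.sum_single_index (by simp), one_mul]

section

variable {N : ℕ} {I : ℕ → Type} {dg : ∀ s, I s → ℕ}
  {y : ∀ s, (I s →₀ ℕ) → ∀ d, (RV (resV (SpS N) none s)).H d}
  (h : ∀ s, IsCB (resV (SpS N) none s) (I s) (dg s) (y s))

/-- the primitive coordinates of a primitive class -/
private noncomputable def A517_z (s n : ℕ) (x : (RV (resV (SpS N) none s)).H n) :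
    I s →₀ ZMod 2 := Lt.pr ((h s).grB.toL n x)

private theorem A517_em (s n : ℕ) {x : (RV (resV (SpS N) none s)).H n}
    (hx : x ∈ PH (resV (SpS N) none s) n) :
    Lt.em (A517_z h s n x) = (h s).grB.toL n x :=
  em_pr (((h s).mem_PH n x).1 hx)

private theorem A517_deg (s n : ℕ) (x : (RV (resV (SpS N) none s)).H n) :
    ∀ i ∈ (A517_z h s n x).support, dg s i = n := by
  intro i hi
  have h1 : Lt.eps i ∈ ((h s).grB.toL n x).support := by
    rw [Finsupp.mem_support_iff] at hi ⊢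
    exact hi
  have h2 := (h s).grB.toL_deg x _ h1
  rwa [A517_deg_eps] at h2

private theorem A517_sum_mem (s n : ℕ) {x : (RV (resV (SpS N) none s)).H n}
    (hx : x ∈ PH (resV (SpS N) none s) n) (k : ℕ) :
    ∑ i ∈ Finset.range k, resCf N s i n x ∈ PH (resV (SpS N) none (s + 1)) n :=
  Submodule.sum_mem _ fun _ _ => PH_map _ _ n x hx

private theorem A517_inj (s n : ℕ) {x x' : (RV (resV (SpS N) none s)).H n}
    (hx : x ∈ PH (resV (SpS N) none s) n) (hx' : x' ∈ PH (resV (SpS N) none s) n)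
    (hz : A517_z h s n x = A517_z h s n x') : x = x' := by
  apply (h s).grB.toL_injective n
  rw [← A517_em h s n hx, ← A517_em h s n hx', hz]

variable (B1 : Type) (β : GrB B1 (fun _ => N) (fun d => (resV (SpS N) none 0).H d))

private theorem A517_pd (s n : ℕ) {x : (RV (resV (SpS N) none s)).H n}
    (hx : x ∈ PH (resV (SpS N) none s) n) :
    (resCoB N I dg y h B1 β).pd s (A517_z h s n x) =
      A517_z h (s + 1) n (∑ i ∈ Finset.range (s + 2), resCf N s i n x) := by
  have h1 : ∀ i, (resCoB N I dg y h B1 β).pcf s i (A517_z h s n x) =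
      A517_z h (s + 1) n (resCf N s i n x) := by
    intro i
    show Lt.pr ((h s).grB.gm (h (s + 1)).grB (resCf N s i) (Lt.em (A517_z h s n x))) = _
    rw [A517_em h s n hx, GrB.gm_toL]
    rfl
  have h2 : (resCoB N I dg y h B1 β).pd s (A517_z h s n x) =
      ∑ i ∈ Finset.range (s + 2), (resCoB N I dg y h B1 β).pcf s i (A517_z h s n x) :=
    LinearMap.sum_apply _ _ _
  have h3 : A517_z h (s + 1) n (∑ i ∈ Finset.range (s + 2), resCf N s i n x) =
      ∑ i ∈ Finset.range (s + 2), A517_z h (s + 1) n (resCf N s i n x) := by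
    show Lt.pr ((h (s + 1)).grB.toL n _) = _
    rw [map_sum, map_sum]
    rfl
  exact h2.trans ((Finset.sum_congr rfl fun i _ => h1 i).trans h3.symm)

end

private theorem A517_data (hS : S2a) (N : ℕ) (hN : 1 ≤ N) :
    ∃ (I : ℕ → Type) (dg : ∀ s, I s → ℕ)
      (y : ∀ s, (I s →₀ ℕ) → ∀ d, (RV (resV (SpS N) none s)).H d),
      ∀ s, IsCB (resV (SpS N) none s) (I s) (dg s) (y s) := by
  have h1 : ∀ s, ∃ (I : Type) (dg : I → ℕ)
      (y : (I →₀ ℕ) → ∀ d, (RV (resV (SpS N) none s)).H d),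
      IsCB (resV (SpS N) none s) I dg y := fun s =>
    hS (resV (SpS N) none s) (fun n => resV_SpS_finite N s n)
      (fun x => resV_SpS_H N s 0 hN x)
  choose I dg y h using h1
  exact ⟨I, dg, y, h⟩

theorem PH_exact_zero (hS : S2a) (N : ℕ) (hN : 1 ≤ N) : ∃ D, ∀ n, D < n →
    ∀ x ∈ PH (resV (SpS N) none 0) n,
      ∑ i ∈ Finset.range 2, resCf N 0 i n x = 0 → x = 0 := by
  obtain ⟨I, dg, y, h⟩ := A517_data hS N hN
  obtain ⟨B1, ⟨β⟩⟩ := exists_grB_sphere N hN
  obtain ⟨D, hD⟩ := (resCoB N I dg y h B1 β).bnd 0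
  refine ⟨D, fun n hn x hx hx0 => ?_⟩
  have h1 := A517_pd h B1 β 0 n hx
  have h2 : A517_z h 1 n (0 : (RV (resV (SpS N) none 1)).H n) = 0 := by
    show Lt.pr ((h 1).grB.toL n 0) = 0
    rw [map_zero, map_zero]
  have h3 : (resCoB N I dg y h B1 β).pd 0 (A517_z h 0 n x) = 0 :=
    h1.trans ((congrArg (A517_z h 1 n) hx0).trans h2)
  have h4 : A517_z h 0 n x = 0 := hD n hn _ (A517_deg h 0 n x) h3
  refine A517_inj h 0 n hx (Submodule.zero_mem _) (h4.trans ?_)
  show 0 = Lt.pr ((h 0).grB.toL n 0)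
  rw [map_zero, map_zero]

theorem PH_exact_succ (hS : S2a) (N : ℕ) (hN : 1 ≤ N) (s : ℕ) : ∃ D, ∀ n, D < n →
    ∀ x ∈ PH (resV (SpS N) none (s + 1)) n,
      ∑ i ∈ Finset.range (s + 3), resCf N (s + 1) i n x = 0 →
      ∃ w ∈ PH (resV (SpS N) none s) n, ∑ i ∈ Finset.range (s + 2), resCf N s i n w = x := by
  obtain ⟨I, dg, y, h⟩ := A517_data hS N hN
  obtain ⟨B1, ⟨β⟩⟩ := exists_grB_sphere N hN
  obtain ⟨D, hD⟩ := (resCoB N I dg y h B1 β).bnd (s + 1)
  refine ⟨D, fun n hn x hx hx0 => ?_⟩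
  have h1 := A517_pd h B1 β (s + 1) n hx
  have h2 : A517_z h (s + 2) n (0 : (RV (resV (SpS N) none (s + 2))).H n) = 0 := by
    show Lt.pr ((h (s + 2)).grB.toL n 0) = 0
    rw [map_zero, map_zero]
  have h3 : (resCoB N I dg y h B1 β).pd (s + 1) (A517_z h (s + 1) n x) = 0 :=
    h1.trans ((congrArg (A517_z h (s + 2) n) hx0).trans h2)
  obtain ⟨w, hw, hwz⟩ := hD n hn _ (A517_deg h (s + 1) n x) h3
  have hw' : ∀ e ∈ (Lt.em w).support, Lt.deg (dg s) e = n := by
    classical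
    intro e he
    obtain ⟨i, hi, rfl⟩ := Finset.mem_image.1 (Finsupp.mapDomain_support he)
    exact (A517_deg_eps (dg s) i).trans (hw i hi)
  have h5 : (h s).grB.toL n ((h s).grB.ofL n (Lt.em w)) = Lt.em w := (h s).grB.toL_ofL hw'
  have h6 : (h s).grB.ofL n (Lt.em w) ∈ PH (resV (SpS N) none s) n := by
    rw [(h s).mem_PH, h5]
    exact copL_em w
  have h7 : A517_z h s n ((h s).grB.ofL n (Lt.em w)) = w := by
    exact (congrArg Lt.pr h5).trans (pr_em w)
  refine ⟨(h s).grB.ofL n (Lt.em w), h6, ?_⟩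
  have h8 := A517_pd h B1 β s n h6
  rw [h7] at h8
  exact A517_inj h (s + 1) n (A517_sum_mem s n h6 (s + 2)) hx (h8.symm.trans hwz)

section A517_abs

variable (V : ℕ → SV) (dV : ∀ s, Fin (s + 2) → Hom (V s).ss (V (s + 1)).ss)
  (hd : ∀ s i, (dV s i).app 0 (V s).zv = (V (s + 1)).zv)

/-- one coface on homology -/
private noncomputable def A517_cf (s n : ℕ) (i : Fin (s + 2)) :
    (RV (V s)).H n →ₗ[ZMod 2] (RV (V (s + 1))).H n :=
  SV.Hmap (RVmap (dV s i) (hd s i)) n

/-- one coface on primitives -/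
private noncomputable def A517_dli (s n : ℕ) (i : Fin (s + 2)) :
    PH (V s) n →ₗ[ZMod 2] PH (V (s + 1)) n :=
  (A517_cf V dV hd s n i).restrict (PH_map _ _ n)

/-- the differential on primitives -/
private noncomputable def A517_dl (s n : ℕ) :
    PH (V s) n →ₗ[ZMod 2] PH (V (s + 1)) n :=
  ∑ i : Fin (s + 2), A517_dli V dV hd s n i

private theorem A517_dl_val (s n : ℕ) (v : PH (V s) n) :
    (A517_dl V dV hd s n v).1 = ∑ i : Fin (s + 2), A517_cf V dV hd s n i v.1 := by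
  have h1 : A517_dl V dV hd s n v = ∑ i : Fin (s + 2), A517_dli V dV hd s n i v :=
    LinearMap.sum_apply _ _ _
  rw [h1, Submodule.coe_sum]
  rfl

private theorem A517_QHd (s n : ℕ) (φ : QH (V (s + 1)) n) :
    QHd (dV s) (hd s) n φ = (A517_dl V dV hd s n).dualMap φ := by
  refine LinearMap.ext fun v => ?_
  have h1 : A517_dl V dV hd s n v = ∑ i : Fin (s + 2), A517_dli V dV hd s n i v :=
    LinearMap.sum_apply _ _ _
  have h2 : (A517_dl V dV hd s n).dualMap φ v =
      ∑ i : Fin (s + 2), φ (A517_dli V dV hd s n i v) := by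
    show φ (A517_dl V dV hd s n v) = _
    rw [h1, map_sum]
  refine Eq.trans ?_ h2.symm
  have h3 : QHd (dV s) (hd s) n φ =
      ∑ i : Fin (s + 2), QHmapL (dV s i) (hd s i) n φ :=
    LinearMap.sum_apply _ _ _
  have h4 : (∑ i : Fin (s + 2), QHmapL (dV s i) (hd s i) n φ) v =
      ∑ i : Fin (s + 2), QHmapL (dV s i) (hd s i) n φ v :=
    LinearMap.sum_apply _ _ _
  exact (LinearMap.congr_fun h3 v).trans h4

private theorem A517_bnd
    (h0 : ∃ D, ∀ n, D < n → ∀ x ∈ PH (V 0) n,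
      ∑ i : Fin 2, A517_cf V dV hd 0 n i x = 0 → x = 0)
    (hs : ∀ s, ∃ D, ∀ n, D < n → ∀ x ∈ PH (V (s + 1)) n,
      ∑ i : Fin (s + 3), A517_cf V dV hd (s + 1) n i x = 0 →
      ∃ w ∈ PH (V s) n, ∑ i : Fin (s + 2), A517_cf V dV hd s n i w = x) :
    BndProp V dV hd := by
  constructor
  · obtain ⟨D, hD⟩ := h0
    refine ⟨D, fun n hn φ => ?_⟩
    have hinj : Function.Injective (A517_dl V dV hd 0 n) := by
      rw [injective_iff_map_eq_zero]
      intro v hv
      apply Subtype.ext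
      refine hD n hn v.1 v.2 ?_
      have h1 := A517_dl_val V dV hd 0 n v
      rw [hv] at h1
      exact h1.symm
    obtain ⟨ψ, hψ⟩ := LinearMap.dualMap_surjective_of_injective hinj φ
    exact ⟨ψ, (A517_QHd V dV hd 0 n ψ).trans hψ⟩
  · intro s
    obtain ⟨D, hD⟩ := hs s
    refine ⟨D, fun n hn φ hφ => ?_⟩
    have h1 : (A517_dl V dV hd s n).dualMap φ = 0 := (A517_QHd V dV hd s n φ).symm.trans hφ
    have h2 : φ ∈ (LinearMap.ker (A517_dl V dV hd (s + 1) n)).dualAnnihilator := by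
      rw [Submodule.mem_dualAnnihilator]
      intro v hv
      have h3 : ∑ i : Fin (s + 3), A517_cf V dV hd (s + 1) n i v.1 = 0 := by
        have h4 := A517_dl_val V dV hd (s + 1) n v
        rw [LinearMap.mem_ker.1 hv] at h4
        exact h4.symm
      obtain ⟨w, hw, hwv⟩ := hD n hn v.1 v.2 h3
      have h5 : A517_dl V dV hd s n ⟨w, hw⟩ = v := by
        apply Subtype.ext
        rw [A517_dl_val]
        exact hwv
      rw [← h5]
      exact LinearMap.congr_fun h1 ⟨w, hw⟩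
    rw [← LinearMap.range_dualMap_eq_dualAnnihilator_ker] at h2
    obtain ⟨ψ, hψ⟩ := h2
    exact ⟨ψ, (A517_QHd V dV hd (s + 1) n ψ).trans hψ⟩

end A517_abs

/-- part A5 (`bndAll` in `A518` is this statement) -/
theorem bndProp_res (hS : S2a) (N : ℕ) (hN : 1 ≤ N) : BndProp (resV (SpS N) none)
    (fun s i => (resT (SpS N) none).d s i) (fun s i => (resT (SpS N) none).d_zv s i) := by
  apply A517_bnd
  · obtain ⟨D, hD⟩ := PH_exact_zero hS N hN
    refine ⟨D, fun n hn x hx h => hD n hn x hx ?_⟩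
    rw [Finset.sum_range]
    exact h
  · intro s
    obtain ⟨D, hD⟩ := PH_exact_succ hS N hN s
    refine ⟨D, fun n hn x hx h => ?_⟩
    obtain ⟨w, hw, hwx⟩ := hD n hn x hx (by
      rw [Finset.sum_range]
      exact h)
    refine ⟨w, hw, ?_⟩
    rw [Finset.sum_range] at hwx
    exact hwx

end MM

end
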