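import Pool.Agent.Lib_MP_33f7bb_m.G18
import Pool.Agent.Lib_MP_33f7bb_m.G19
import Pool.Agent.Lib_MP_33f7bb_m.G20

/-!
# MP_33f7bb_an, negative answer to Q1: merged library part G21

Concatenation of files of `Lib_MP_33f7bb_an` and `Lib_MP_33f7bb_d` (each in its own section), only to save build time.
-/

/-! ### from `Lib_MP_33f7bb_d.A207` -/

section

/-!
# A2-07: (H1) for the mapping tower of the resolution of the sphere
-/

namespace MM

/-- the cofaces of the resolution, indexed by `Fin` -/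
noncomputable def resdV (N s : ℕ) (i : Fin (s + 2)) :
    Hom (resV (SpS N) none s).ss (resV (SpS N) none (s + 1)).ss :=
  (resT (SpS N) none).d s i

theorem resdV_pt (N s : ℕ) (i : Fin (s + 2)) :
    (resdV N s i).app 0 (resV (SpS N) none s).zv = (resV (SpS N) none (s + 1)).zv :=
  (resT (SpS N) none).d_zv s i

/-- what is needed from A5 -/
def BndAll : Prop := ∀ N : ℕ, 1 ≤ N → BndProp (resV (SpS N) none) (resdV N) (resdV_pt N)

theorem mapT_del (N s t : ℕ) (u : (MapSV BZ2 K1.zv (resV (SpS N) none s)).V t) :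
    (mapT (resT (SpS N) none) BZ2 K1.zv).del s t u = dCo (resdV N s) (resdV_pt N s) u := by
  show (∑ i ∈ Finset.range (s + 2), _) = (∑ i : Fin (s + 2), _)
  rw [Finset.sum_range]
  rfl

theorem mapT_H1 (S : SqFam) (h2 : S2Prop S) (h6 : HomExactProp) (hb : BndAll) (N : ℕ)
    (hN : 1 ≤ N) : (mapT (resT (SpS N) none) BZ2 K1.zv).H1 := by
  intro t ht
  have key := tower_H1 S h2 h6 (resV (SpS N) none) (resdV N) (resdV_pt N)
    (fun s i j hij => by
      apply Hom.ext
      funext n x
      exact (resT (SpS N) none).dd s i j n x hij (by omega))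
    (fun s n => resV_SpS_finite N s n) (fun s x => resV_SpS_H N s 0 (by omega) x) (hb N hN) t ht
  constructor
  · intro u hu hdu
    exact key.1 u hu (Eq.subst (motive := fun z => z ∈ (MapSV BZ2 K1.zv
      (resV (SpS N) none 1)).B t) (mapT_del N 0 t u) hdu)
  · intro s u hu hdu
    obtain ⟨a, ha, ha'⟩ := key.2 s u hu (Eq.subst (motive := fun z => z ∈ (MapSV BZ2 K1.zv
      (resV (SpS N) none (s + 2))).B t) (mapT_del N (s + 1) t u) hdu)
    have key2 : ∀ (u z z' : (MapSV BZ2 K1.zv (resV (SpS N) none (s + 1))).V t), z = z' →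
        u + z' ∈ (MapSV BZ2 K1.zv (resV (SpS N) none (s + 1))).B t →
        u + z ∈ (MapSV BZ2 K1.zv (resV (SpS N) none (s + 1))).B t := by
      rintro u z _ rfl h
      exact h
    exact ⟨a, ha, key2 u _ _ (mapT_del N s t a) ha'⟩

/-- what is needed from A7 in degree zero -/
def H0All : Prop := ∀ N : ℕ, 1 ≤ N → (mapT (resT (SpS N) none) BZ2 K1.zv).H0

theorem existsTarget_of' (S : SqFam) (h2 : S2Prop S) (h6 : HomExactProp) (hb : BndAll)
    (h0 : H0All) (hS : SingOfBd) : ExistsTarget :=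
  existsTarget_of hS fun N hN => ⟨mapT_H1 S h2 h6 hb N hN, h0 N hN⟩

end MM

end

/-! ### from `Lib_MP_33f7bb_d.A712` -/

section

/-!
# A7-12: (H0) for the mapping tower of the resolution of the sphere
-/

namespace MM

theorem h0_aux (X : SS) (x₀ : X.S 0) (N : ℕ) (hN : 1 ≤ N)
    (hH : ∀ n, n ≠ N → ∀ x : (R X x₀).H n, x = 0) :
    (mapT (resT X x₀) BZ2 K1.zv).H0 := by
  intro u hu
  have h1 : (mapT (resT X x₀) BZ2 K1.zv).del 0 0 u =
      (MapSV.comp (resd0 (R X x₀)) (resd0_zv _)).app 0 u +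
      (MapSV.comp (resd1 X x₀).hom (SVHom.hom_zv _)).app 0 u := by
    show (∑ i ∈ Finset.range 2, _) = _
    rw [Finset.sum_range_succ, Finset.sum_range_one]
    rfl
  rw [h1] at hu
  exact H0_general X x₀ N hN hH u hu

theorem h0All : H0All := fun N hN => h0_aux (SpS N) none N hN (RSp_H N)

end MM

end

/-! ### from `Lib_MP_33f7bb_d.A518` -/

section

/-!
# A5-18: part A5 in the form used by A2/A7
-/

namespace MM

/-- part A5 -/
theorem bndAll (hS : S2a) : BndAll := fun N hN => bndProp_res hS N hN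

end MM

end
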