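import Pool.Agent.Lib_MP_33f7bb_m.G04
import Pool.Agent.Lib_MP_33f7bb_m.G15

/-!
# MP_33f7bb_an, negative answer to Q1: merged library part G22

Concatenation of files of `Lib_MP_33f7bb_an` and `Lib_MP_33f7bb_d` (each in its own section), only to save build time.
-/

/-! ### from `Lib_MP_33f7bb_d.A3B1` -/

section

/-!
# A3-12: homology of `B = B(ZMod 2)`: `H_n (lin B) = F`, detected by the coefficient of the alternating simplex

`bAlt n = (0,1,0,1,…)`: the only `n`-simplex of `B` all of whose consecutive differences are `1`.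
For a chain `z` of degree `n` the number `z (bAlt n)` is its coefficient.

Proof.  `E`: `E_n = (Fin (n+1) → ZMod 2)`, structure maps by composition.
* `E` is contractible: `(u, f) ↦ (i ↦ if u i = 0 then f i else 0)` is a homotopy from `id` to the constant `0`; so cycles of `lin E` in
  degrees `≥ 1` are boundaries and a cycle of degree `0` with even coefficient sum is a boundary (`prism`).
* `lin B → lin E` (transfer) `tr : [b] ↦ [b] + [b + 1]` and projection `pr : [f] ↦ [i ↦ f i - f 0]` are linear simplicial maps,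
  `tr` injective, `pr` surjective, `im tr = ker pr`.
* For `z ∈ Ch B (n+1)` let `z~ ∈ Ch E (n+1)` be the lift with `f 0 = 0` (`mapDomain` of `b ↦ b`), `pr z~ = z`.  The faces `δ_i`, `i ≥ 1`,
  keep `f 0 = 0`; `δ_0 f` has first value `f 1`.  Let `∂z := ∑_(b : b 1 = 1) z b [δ_0^* b] ∈ Ch B n` (the connecting map,
  linear in `z`; `δ_0^* b = (i ↦ b (i+1) - b 1)`).  If `dif z = 0` then `pr (dif z~) = 0`, so `dif z~ = tr w`; comparing the simplices
  with first value `1`:  `w = ∂z`.
* coefficients: `(∂z) (bAlt n) = z (bAlt (n+1))` (`δ_0^* b = bAlt n` and `b 1 = 1` iff `b = bAlt (n+1)`).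
* `∂` maps cycles to cycles (`tr` injective), and `H(∂) : H_(n+1) (lin B) → H_n (lin B)` is bijective: standard diagram chase,
  using that `tr : H_n (lin B) → H_n (lin E)` is zero: for `n ≥ 1` the target is `0`, for `n = 0` the coefficient sum of `tr w` is
  even.  In detail: (inj) `∂z = dif w`: `z~ + tr w` is a cycle of degree `≥ 1` of `lin E`, so `= dif r`, and `z = pr (z~ + tr w) =
  dif (pr r)`.  (surj) `w` a cycle of degree `n`: `tr w = dif r`, `z := pr r` is a cycle; `r + z~ = tr s`, so `tr (∂z) = dif z~ =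
  tr w + tr (dif s)`.  (∂ of a boundary is a boundary) `z = dif y`: `y~` the lift of `y`: `z~ + dif y~ = tr s`, so `tr (∂z) = tr (dif s)`.
* `n = 0`: `B_0` is a point, `Ch B 0 = F`, `dif` of a `1`-chain is `0` (two equal faces); `bAlt 0` is this point.
* By induction on `n`: a cycle `z` of degree `n` is a boundary iff `z (bAlt n) = 0`, and there is a cycle with `z (bAlt n) = 1`.
-/

open scoped TensorProduct

namespace MM

/-- the alternating simplex `(0,1,0,1,…)` -/
def bAlt (n : ℕ) : K1.V n := ⟨fun i => ((i : ℕ) : ZMod 2), by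
  rw [LinearMap.mem_ker, LinearMap.proj_apply]; simp⟩

theorem bAlt_apply (n : ℕ) (i : Fin (n + 1)) : (bAlt n).1 i = ((i : ℕ) : ZMod 2) := rfl

/-- characterisation of the alternating simplex -/
theorem eq_bAlt_iff (n : ℕ) (b : K1.V n) :
    b = bAlt n ↔ ∀ i : Fin n, b.1 i.castSucc + b.1 i.succ = 1 := by
  constructor
  · rintro rfl i
    rw [bAlt_apply, bAlt_apply, Fin.val_castSucc, Fin.val_succ]
    push_cast
    rw [← add_assoc, CharTwo.add_self_eq_zero, zero_add]
  · intro h
    apply Subtype.ext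
    funext i
    induction i using Fin.induction with
    | zero =>
      rw [bAlt_apply]
      have h1 := b.2
      rw [LinearMap.mem_ker, LinearMap.proj_apply] at h1
      rw [h1]
      simp
    | succ i ih =>
      have h1 := h i
      rw [ih] at h1
      rw [bAlt_apply] at h1 ⊢
      rw [Fin.val_castSucc] at h1
      rw [Fin.val_succ]
      push_cast
      have h2 : b.1 i.succ = ((i : ℕ) : ZMod 2) + (((i : ℕ) : ZMod 2) + b.1 i.succ) := by
        rw [← add_assoc, CharTwo.add_self_eq_zero, zero_add]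
      rw [h2, h1]

/-! ### the transfer sequence -/

/-- the contractible simplicial set `E` -/
private abbrev A3B1_E : SS where
  S n := Fin (n + 1) → ZMod 2
  act f x := fun i => x (f i)
  act_id _ := rfl
  act_comp _ _ _ := rfl

private def A3B1_pr : Hom A3B1_E BZ2 where
  app n f := ⟨fun i => f i - f 0, by
    rw [LinearMap.mem_ker, LinearMap.proj_apply, sub_self]⟩
  nat {m n} g f := Subtype.ext (funext fun i => by
    show f (g i) - f (g 0) = (f (g i) - f 0) - (f (g 0) - f 0)
    ring)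

private def A3B1_L (c : ZMod 2) (n : ℕ) (b : BZ2.S n) : A3B1_E.S n := fun i => b.1 i + c

private theorem A3B1_b0 {n : ℕ} (b : BZ2.S n) : b.1 0 = 0 := by
  have h1 := b.2
  rw [LinearMap.mem_ker, LinearMap.proj_apply] at h1
  exact h1

private theorem A3B1_pr_L (c : ZMod 2) {n : ℕ} (b : BZ2.S n) :
    A3B1_pr.app n (A3B1_L c n b) = b := by
  apply Subtype.ext
  funext i
  show (b.1 i + c) - (b.1 0 + c) = b.1 i
  rw [A3B1_b0]
  ring

private theorem A3B1_zmod (c : ZMod 2) : c = 0 ∨ c = 1 := by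
  revert c
  decide

private theorem A3B1_L_pr {n : ℕ} (f : A3B1_E.S n) : A3B1_L (f 0) n (A3B1_pr.app n f) = f := by
  funext i
  show (f i - f 0) + f 0 = f i
  ring

private noncomputable def A3B1_li (c : ZMod 2) (n : ℕ) : Ch BZ2 n →ₗ[ZMod 2] Ch A3B1_E n :=
  Finsupp.lmapDomain _ _ (A3B1_L c n)

private noncomputable def A3B1_tr (n : ℕ) : Ch BZ2 n →ₗ[ZMod 2] Ch A3B1_E n :=
  A3B1_li 0 n + A3B1_li 1 n

private noncomputable def A3B1_prl (n : ℕ) : Ch A3B1_E n →ₗ[ZMod 2] Ch BZ2 n :=
  Finsupp.lmapDomain _ _ (A3B1_pr.app n)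

private noncomputable def A3B1_sg (n : ℕ) : Ch A3B1_E n →ₗ[ZMod 2] Ch BZ2 n :=
  Finsupp.linearCombination (ZMod 2)
    (fun f : A3B1_E.S n => if f 0 = 0 then (0 : Ch BZ2 n) else Finsupp.single (A3B1_pr.app n f) 1)

private theorem A3B1_li_single (c : ZMod 2) (n : ℕ) (b : BZ2.S n) (r : ZMod 2) :
    A3B1_li c n (Finsupp.single b r) = Finsupp.single (A3B1_L c n b) r := by
  rw [A3B1_li, Finsupp.lmapDomain_apply, Finsupp.mapDomain_single]

private theorem A3B1_prl_single (n : ℕ) (f : A3B1_E.S n) (r : ZMod 2) :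
    A3B1_prl n (Finsupp.single f r) = Finsupp.single (A3B1_pr.app n f) r := by
  rw [A3B1_prl, Finsupp.lmapDomain_apply, Finsupp.mapDomain_single]

private theorem A3B1_tr_single (n : ℕ) (b : BZ2.S n) (r : ZMod 2) :
    A3B1_tr n (Finsupp.single b r) =
      Finsupp.single (A3B1_L 0 n b) r + Finsupp.single (A3B1_L 1 n b) r := by
  rw [A3B1_tr, LinearMap.add_apply, A3B1_li_single, A3B1_li_single]

private theorem A3B1_sg_single (n : ℕ) (f : A3B1_E.S n) (r : ZMod 2) :
    A3B1_sg n (Finsupp.single f r) =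
      if f 0 = 0 then (0 : Ch BZ2 n) else Finsupp.single (A3B1_pr.app n f) r := by
  rw [A3B1_sg, Finsupp.linearCombination_single]
  split_ifs
  · rw [smul_zero]
  · rw [Finsupp.smul_single, smul_eq_mul, mul_one]

private theorem A3B1_F1 {n : ℕ} (z : Ch BZ2 n) : A3B1_prl n (A3B1_li 0 n z) = z := by
  have h : (A3B1_prl n).comp (A3B1_li 0 n) = LinearMap.id := by
    refine Finsupp.lhom_ext fun b r => ?_
    rw [LinearMap.comp_apply, A3B1_li_single, A3B1_prl_single, A3B1_pr_L, LinearMap.id_apply]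
  exact LinearMap.congr_fun h z

private theorem A3B1_F2 {n : ℕ} (z : Ch BZ2 n) : A3B1_prl n (A3B1_tr n z) = 0 := by
  have h : (A3B1_prl n).comp (A3B1_tr n) = 0 := by
    refine Finsupp.lhom_ext fun b r => ?_
    rw [LinearMap.comp_apply, A3B1_tr_single, map_add, A3B1_prl_single, A3B1_prl_single,
      A3B1_pr_L, A3B1_pr_L, two_eq_zero', LinearMap.zero_apply]
  exact LinearMap.congr_fun h z

private theorem A3B1_F3 {n : ℕ} (r : Ch A3B1_E n) :
    r + A3B1_li 0 n (A3B1_prl n r) = A3B1_tr n (A3B1_sg n r) := by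
  have h : LinearMap.id + (A3B1_li 0 n).comp (A3B1_prl n) = (A3B1_tr n).comp (A3B1_sg n) := by
    refine Finsupp.lhom_ext fun f c => ?_
    rw [LinearMap.add_apply, LinearMap.comp_apply, LinearMap.comp_apply, LinearMap.id_apply,
      A3B1_prl_single, A3B1_li_single, A3B1_sg_single]
    rcases A3B1_zmod (f 0) with h0 | h0
    · rw [if_pos h0, map_zero]
      have h1 : A3B1_L 0 n (A3B1_pr.app n f) = f := by
        rw [← h0]
        exact A3B1_L_pr f
      rw [h1, two_eq_zero']
    · rw [if_neg (by rw [h0]; exact one_ne_zero), A3B1_tr_single]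
      have h1 : A3B1_L 1 n (A3B1_pr.app n f) = f := by
        rw [← h0]
        exact A3B1_L_pr f
      rw [h1, add_comm]
  exact LinearMap.congr_fun h r

private theorem A3B1_F4 {n : ℕ} (z : Ch BZ2 n) : A3B1_sg n (A3B1_tr n z) = z := by
  have h : (A3B1_sg n).comp (A3B1_tr n) = LinearMap.id := by
    refine Finsupp.lhom_ext fun b r => ?_
    rw [LinearMap.comp_apply, A3B1_tr_single, map_add, A3B1_sg_single, A3B1_sg_single,
      A3B1_pr_L, A3B1_pr_L, LinearMap.id_apply]
    have h0 : A3B1_L 0 n b 0 = 0 := by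
      show b.1 0 + 0 = 0
      rw [A3B1_b0, add_zero]
    have h1 : ¬ A3B1_L 1 n b 0 = 0 := by
      show ¬ b.1 0 + 1 = 0
      rw [A3B1_b0, zero_add]
      exact one_ne_zero
    rw [if_pos h0, if_neg h1, zero_add]
  exact LinearMap.congr_fun h z

private theorem A3B1_tr_inj {n : ℕ} {z z' : Ch BZ2 n} (h : A3B1_tr n z = A3B1_tr n z') :
    z = z' := by
  rw [← A3B1_F4 z, h, A3B1_F4]

private theorem A3B1_act_L (c : ZMod 2) {m n : ℕ} (g : Mo m n) (b : BZ2.S n) :
    A3B1_E.act g (A3B1_L c n b) = A3B1_L (c + b.1 (g 0)) m (BZ2.act g b) := by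
  funext i
  show b.1 (g i) + c = (b.1 (g i) - b.1 (g 0)) + (c + b.1 (g 0))
  ring

private theorem A3B1_tr_act {m n : ℕ} (g : Mo m n) (z : Ch BZ2 n) :
    (A3B1_tr n z).mapDomain (A3B1_E.act g) = A3B1_tr m (z.mapDomain (BZ2.act g)) := by
  have h : (Finsupp.lmapDomain (ZMod 2) (ZMod 2) (A3B1_E.act g)).comp (A3B1_tr n) =
      (A3B1_tr m).comp (Finsupp.lmapDomain (ZMod 2) (ZMod 2) (BZ2.act g)) := by
    refine Finsupp.lhom_ext fun b r => ?_
    rw [LinearMap.comp_apply, LinearMap.comp_apply, A3B1_tr_single, map_add,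
      Finsupp.lmapDomain_apply, Finsupp.lmapDomain_apply, Finsupp.lmapDomain_apply,
      Finsupp.mapDomain_single, Finsupp.mapDomain_single, Finsupp.mapDomain_single,
      A3B1_tr_single, A3B1_act_L, A3B1_act_L]
    rcases A3B1_zmod (b.1 (g 0)) with h0 | h0
    · rw [h0, add_zero, add_zero]
    · rw [h0, zero_add, CharTwo.add_self_eq_zero, add_comm]
  exact LinearMap.congr_fun h z

private theorem A3B1_F5 {n : ℕ} (z : Ch BZ2 (n + 1)) :
    dif (A3B1_tr (n + 1) z) = A3B1_tr n (dif z) := by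
  rw [dif, dif, map_sum]
  exact Finset.sum_congr rfl fun i _ => A3B1_tr_act _ _

private theorem A3B1_F6 {n : ℕ} (r : Ch A3B1_E (n + 1)) :
    A3B1_prl n (dif r) = dif (A3B1_prl (n + 1) r) := by
  have h := (linMap A3B1_pr).map_d r
  rw [lin_d] at h
  refine Eq.trans h ?_
  exact lin_d _

/-- the connecting map -/
private noncomputable def A3B1_del (n : ℕ) (z : Ch BZ2 (n + 1)) : Ch BZ2 n :=
  A3B1_sg n (dif (A3B1_li 0 (n + 1) z))

private theorem A3B1_star {n : ℕ} (z : Ch BZ2 (n + 1)) :
    dif (A3B1_li 0 (n + 1) z) + A3B1_li 0 n (dif z) = A3B1_tr n (A3B1_del n z) := by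
  rw [A3B1_del, ← A3B1_F3, A3B1_F6, A3B1_F1]

private theorem A3B1_del_dif {n : ℕ} (z : Ch BZ2 (n + 2)) :
    A3B1_del n (dif z) = dif (A3B1_del (n + 1) z) := by
  apply A3B1_tr_inj
  rw [← A3B1_F5, ← A3B1_star, ← A3B1_star, dif_add, dif_dif, dif_dif, map_zero, add_zero,
    zero_add]

/-! ### contractibility of `E` -/

private def A3B1_H : Hom ((Del 1).prod A3B1_E) A3B1_E where
  app n x := fun i => if x.1 i = 0 then x.2 i else 0
  nat _ _ := rfl

private noncomputable def A3B1_eps {P : SS} (n : ℕ) : Ch P n →ₗ[ZMod 2] ZMod 2 :=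
  Finsupp.linearCombination (ZMod 2) (fun _ => (1 : ZMod 2))

private theorem A3B1_eps_single {P : SS} {n : ℕ} (x : P.S n) (c : ZMod 2) :
    A3B1_eps n (Finsupp.single x c : Ch P n) = c := by
  simp [A3B1_eps]

private theorem A3B1_map_const {P P' : SS} {m n : ℕ} (y : P'.S m) (z : Ch P n) :
    (z.mapDomain (fun _ => y) : Ch P' m) = Finsupp.single y (A3B1_eps n z) := by
  induction z using Finsupp.induction_linear with
  | zero => simp
  | add f g hf hg => rw [Finsupp.mapDomain_add, hf, hg, map_add, Finsupp.single_add]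
  | single a b => rw [Finsupp.mapDomain_single, A3B1_eps_single]

private def A3B1_z (n : ℕ) : A3B1_E.S n := fun _ => 0

private theorem A3B1_dif_z (n : ℕ) (c : ZMod 2) :
    dif (Finsupp.single (A3B1_z (n + 1)) c : Ch A3B1_E (n + 1)) =
      Finsupp.single (A3B1_z n) (((n : ℕ) : ZMod 2) * c) := by
  rw [dif]
  have h : ∀ i : Fin (n + 2), (Finsupp.single (A3B1_z (n + 1)) c : Ch A3B1_E (n + 1)).mapDomain
      (A3B1_E.act (dlt i)) = Finsupp.single (A3B1_z n) c := by
    intro i
    rw [Finsupp.mapDomain_single]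
    rfl
  rw [Finset.sum_congr rfl fun i _ => h i, Finset.sum_const, Finset.card_univ, Fintype.card_fin,
    Finsupp.smul_single, nsmul_eq_mul]
  congr 2
  push_cast
  have h2 : (2 : ZMod 2) = 0 := rfl
  rw [h2, add_zero]

private theorem A3B1_H0 {n : ℕ} (z : Ch A3B1_E n) :
    z.mapDomain (fun x => A3B1_H.app n (cst 0, x)) = z := by
  have h : (fun x => A3B1_H.app n (cst 0, x)) = _root_.id := by
    funext x
    funext i
    show (if (0 : Fin 2) = 0 then x i else 0) = x i
    exact if_pos rfl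
  rw [h, Finsupp.mapDomain_id]

private theorem A3B1_H1 {n : ℕ} (z : Ch A3B1_E n) :
    z.mapDomain (fun x => A3B1_H.app n (cst 1, x)) =
      Finsupp.single (A3B1_z n) (A3B1_eps n z) := by
  have h : (fun x => A3B1_H.app n (cst 1, x)) = fun _ => A3B1_z n := by
    funext x
    funext i
    show (if (1 : Fin 2) = 0 then x i else 0) = (0 : ZMod 2)
    exact if_neg (by decide)
  rw [h, A3B1_map_const]

private theorem A3B1_E_succ {n : ℕ} (z : Ch A3B1_E (n + 1)) (hz : dif z = 0) :
    ∃ w : Ch A3B1_E (n + 2), dif w = z := by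
  obtain ⟨T, hT0, hT, -⟩ := prism A3B1_H
  have h1 := hT n z
  rw [hz, map_zero, add_zero, A3B1_H0, A3B1_H1] at h1
  set c := A3B1_eps (n + 1) z with hc
  have h2 : ∃ w : Ch A3B1_E (n + 2), dif w = Finsupp.single (A3B1_z (n + 1)) c := by
    rcases A3B1_zmod (n : ZMod 2) with hn | hn
    · refine ⟨Finsupp.single (A3B1_z (n + 2)) c, ?_⟩
      rw [A3B1_dif_z]
      push_cast
      rw [hn, zero_add, one_mul]
    · have h3 : dif (z + Finsupp.single (A3B1_z (n + 1)) c) = 0 := by
        rw [← h1, dif_dif]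
      rw [dif_add, hz, zero_add, A3B1_dif_z, hn, one_mul, Finsupp.single_eq_zero] at h3
      refine ⟨0, ?_⟩
      rw [h3, dif_zero, Finsupp.single_zero]
  obtain ⟨w, hw⟩ := h2
  refine ⟨T (n + 1) z + w, ?_⟩
  rw [dif_add, h1, hw, add_assoc, two_eq_zero', add_zero]

private theorem A3B1_E_zero (z : Ch A3B1_E 0) (hz : A3B1_eps 0 z = 0) :
    ∃ w : Ch A3B1_E 1, dif w = z := by
  obtain ⟨T, hT0, hT, -⟩ := prism A3B1_H
  have h1 := hT0 z
  rw [A3B1_H0, A3B1_H1, hz, Finsupp.single_zero, add_zero] at h1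
  exact ⟨_, h1⟩

private theorem A3B1_eps_tr {n : ℕ} (z : Ch BZ2 n) : A3B1_eps n (A3B1_tr n z) = 0 := by
  have h : (A3B1_eps n).comp (A3B1_tr n) = 0 := by
    refine Finsupp.lhom_ext fun b r => ?_
    rw [LinearMap.comp_apply, A3B1_tr_single, map_add, A3B1_eps_single, A3B1_eps_single,
      CharTwo.add_self_eq_zero, LinearMap.zero_apply]
  exact LinearMap.congr_fun h z

/-! ### degree `0` -/

private theorem A3B1_S0 (b : BZ2.S 0) : b = bAlt 0 := by
  rw [eq_bAlt_iff]
  intro i
  exact i.elim0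

private theorem A3B1_dif0 (y : Ch BZ2 1) : dif y = 0 := by
  rw [dif, Fin.sum_univ_two]
  have h : (BZ2.act (dlt 0) : BZ2.S 1 → BZ2.S 0) = BZ2.act (dlt 1) := by
    funext b
    rw [A3B1_S0 (BZ2.act (dlt 0) b), A3B1_S0 (BZ2.act (dlt 1) b)]
  rw [h, two_eq_zero']

private theorem A3B1_z0 (z : Ch BZ2 0) : z = Finsupp.single (bAlt 0) (z (bAlt 0)) := by
  ext b
  rw [A3B1_S0 b, Finsupp.single_eq_same]

/-! ### the induction -/

private theorem A3B1_coeff {n : ℕ} (z : Ch BZ2 (n + 1)) :
    (A3B1_del n z) (bAlt n) = z (bAlt (n + 1)) := by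
  have h1 : ∀ r : Ch A3B1_E n, (A3B1_sg n r) (bAlt n) = r (A3B1_L 1 n (bAlt n)) := by
    intro r
    have h : (Finsupp.lapply (bAlt n) : Ch BZ2 n →ₗ[ZMod 2] ZMod 2).comp (A3B1_sg n) =
        (Finsupp.lapply (A3B1_L 1 n (bAlt n)) : Ch A3B1_E n →ₗ[ZMod 2] ZMod 2) := by
      refine Finsupp.lhom_ext fun f c => ?_
      rw [LinearMap.comp_apply, A3B1_sg_single, Finsupp.lapply_apply, Finsupp.lapply_apply]
      rcases A3B1_zmod (f 0) with h0 | h0
      · rw [if_pos h0, Finsupp.single_apply, if_neg]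
        · rfl
        · intro h2
          have h3 : f 0 = (bAlt n).1 0 + 1 := congrFun h2 0
          rw [h0, A3B1_b0, zero_add] at h3
          exact zero_ne_one h3
      · rw [if_neg (by rw [h0]; exact one_ne_zero), Finsupp.single_apply, Finsupp.single_apply]
        congr 1
        apply propext
        constructor
        · intro h2
          rw [← h2, ← h0]
          exact (A3B1_L_pr f).symm
        · intro h2
          rw [h2, A3B1_pr_L]
    exact LinearMap.congr_fun h r
  rw [A3B1_del, h1, dif, Finsupp.finsetSum_apply, Fin.sum_univ_succ, Finset.sum_eq_zero, add_zero]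
  · have h2 : (A3B1_li 0 (n + 1) z).mapDomain (A3B1_E.act (dlt 0)) =
        z.mapDomain (fun b => A3B1_E.act (dlt 0) (A3B1_L 0 (n + 1) b)) := by
      rw [A3B1_li, Finsupp.lmapDomain_apply, ← Finsupp.mapDomain_comp]
      rfl
    have h3 : Function.Injective
        (fun b : BZ2.S (n + 1) => A3B1_E.act (dlt 0) (A3B1_L 0 (n + 1) b)) := by
      intro b b' hb
      apply Subtype.ext
      funext i
      refine Fin.cases ?_ (fun i => ?_) i
      · rw [A3B1_b0, A3B1_b0]
      · have h4 := congrFun hb i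
        have h5 : b.1 ((0 : Fin (n + 2)).succAbove i) + 0 =
          b'.1 ((0 : Fin (n + 2)).succAbove i) + 0 := h4
        rw [Fin.succAbove_zero, add_zero, add_zero] at h5
        exact h5
    have h4 : A3B1_L 1 n (bAlt n) = A3B1_E.act (dlt 0) (A3B1_L 0 (n + 1) (bAlt (n + 1))) := by
      funext i
      show (bAlt n).1 i + 1 = (bAlt (n + 1)).1 ((0 : Fin (n + 2)).succAbove i) + 0
      rw [Fin.succAbove_zero, bAlt_apply, bAlt_apply, Fin.val_succ, add_zero]
      push_cast
      rfl
    rw [h2, h4]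
    exact Finsupp.mapDomain_apply h3 z (bAlt (n + 1))
  · intro i _
    have h2 : (A3B1_li 0 (n + 1) z).mapDomain (A3B1_E.act (dlt i.succ)) =
        z.mapDomain (fun b => A3B1_E.act (dlt i.succ) (A3B1_L 0 (n + 1) b)) := by
      rw [A3B1_li, Finsupp.lmapDomain_apply, ← Finsupp.mapDomain_comp]
      rfl
    rw [h2]
    apply Finsupp.mapDomain_of_notMem_range
    rintro ⟨b, hb⟩
    have h3 : b.1 ((i.succ : Fin (n + 2)).succAbove 0) + 0 = (bAlt n).1 0 + 1 := congrFun hb 0
    rw [Fin.succAbove_of_castSucc_lt _ _ (by simp [Fin.lt_def])] at h3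
    have h4 : b.1 (Fin.castSucc (0 : Fin (n + 1))) = 0 := A3B1_b0 b
    rw [h4, A3B1_b0, zero_add, zero_add] at h3
    exact zero_ne_one h3

private theorem A3B1_memZ {n : ℕ} {z : Ch BZ2 (n + 1)} :
    z ∈ (lin BZ2).Z (n + 1) ↔ dif z = 0 := by
  rw [← lin_d]
  rfl

private theorem A3B1_memB {n : ℕ} {z : Ch BZ2 n} :
    z ∈ (lin BZ2).B n ↔ ∃ w : Ch BZ2 (n + 1), dif w = z := by
  constructor
  · rintro ⟨w, hw⟩
    exact ⟨w, by rw [← lin_d]; exact hw⟩
  · rintro ⟨w, hw⟩
    exact ⟨w, by rw [lin_d]; exact hw⟩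

private theorem A3B1_delZ {n : ℕ} {z : Ch BZ2 (n + 1)} (hz : dif z = 0) :
    A3B1_del n z ∈ (lin BZ2).Z n := by
  cases n with
  | zero => trivial
  | succ n =>
    rw [A3B1_memZ, ← A3B1_del_dif, hz]
    show A3B1_sg n (dif (A3B1_li 0 (n + 1) 0)) = 0
    rw [map_zero, dif_zero, map_zero]

/-- Claim A -/
private theorem A3B1_A {n : ℕ} {z : Ch BZ2 (n + 1)} (hz : dif z = 0)
    (h : A3B1_del n z ∈ (lin BZ2).B n) : z ∈ (lin BZ2).B (n + 1) := by
  obtain ⟨w, hw⟩ := A3B1_memB.1 h
  have h1 : dif (A3B1_li 0 (n + 1) z + A3B1_tr (n + 1) w) = 0 := by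
    have h2 := A3B1_star z
    rw [hz, map_zero, add_zero] at h2
    rw [dif_add, h2, A3B1_F5, hw, two_eq_zero']
  obtain ⟨r, hr⟩ := A3B1_E_succ _ h1
  refine A3B1_memB.2 ⟨A3B1_prl _ r, ?_⟩
  rw [← A3B1_F6, hr, map_add, A3B1_F1, A3B1_F2, add_zero]

/-- Claim B -/
private theorem A3B1_B {n : ℕ} {w : Ch BZ2 n} (hw : w ∈ (lin BZ2).Z n) :
    ∃ z : Ch BZ2 (n + 1), dif z = 0 ∧ A3B1_del n z + w ∈ (lin BZ2).B n := by
  obtain ⟨r, hr⟩ : ∃ r : Ch A3B1_E (n + 1), dif r = A3B1_tr n w := by
    cases n with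
    | zero => exact A3B1_E_zero _ (A3B1_eps_tr w)
    | succ n =>
      refine A3B1_E_succ _ ?_
      rw [A3B1_F5, A3B1_memZ.1 hw, map_zero]
  have hz : dif (A3B1_prl (n + 1) r) = 0 := by
    rw [← A3B1_F6, hr, A3B1_F2]
  refine ⟨A3B1_prl (n + 1) r, hz, A3B1_memB.2 ⟨A3B1_sg (n + 1) r, ?_⟩⟩
  apply A3B1_tr_inj
  have h1 := A3B1_star (A3B1_prl (n + 1) r)
  rw [hz, map_zero, add_zero] at h1
  have h2 : A3B1_li 0 (n + 1) (A3B1_prl (n + 1) r) = r + A3B1_tr (n + 1) (A3B1_sg (n + 1) r) := by
    rw [← A3B1_F3, ← add_assoc, two_eq_zero', zero_add]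
  rw [map_add, ← h1, h2, dif_add, hr, A3B1_F5, add_right_comm, two_eq_zero', zero_add]

theorem linB_coeff_B {n : ℕ} {z : Ch BZ2 n} (hz : z ∈ (lin BZ2).B n) : z (bAlt n) = 0 := by
  induction n with
  | zero =>
    obtain ⟨w, hw⟩ := A3B1_memB.1 hz
    rw [← hw, A3B1_dif0]
    rfl
  | succ n ih =>
    obtain ⟨w, hw⟩ := A3B1_memB.1 hz
    rw [← A3B1_coeff, ← hw]
    exact ih (A3B1_memB.2 ⟨A3B1_del (n + 1) w, (A3B1_del_dif w).symm⟩)

theorem linB_mem_B {n : ℕ} {z : Ch BZ2 n} (hz : z ∈ (lin BZ2).Z n) (h : z (bAlt n) = 0) :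
    z ∈ (lin BZ2).B n := by
  induction n with
  | zero =>
    rw [A3B1_z0 z, h, Finsupp.single_zero]
    exact Submodule.zero_mem _
  | succ n ih =>
    have hz' := A3B1_memZ.1 hz
    refine A3B1_A hz' (ih (A3B1_delZ hz') ?_)
    rw [A3B1_coeff]
    exact h

theorem linB_exists (n : ℕ) : ∃ z ∈ (lin BZ2).Z n, (z : Ch BZ2 n) (bAlt n) = 1 := by
  induction n with
  | zero => exact ⟨Finsupp.single (bAlt 0) 1, trivial, Finsupp.single_eq_same⟩
  | succ n ih =>
    obtain ⟨w, hw, hw1⟩ := ih
    obtain ⟨z, hz, hz1⟩ := A3B1_B hw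
    refine ⟨z, A3B1_memZ.2 hz, ?_⟩
    have h1 := linB_coeff_B hz1
    rw [Finsupp.add_apply, hw1, A3B1_coeff] at h1
    rw [← add_zero (z (bAlt (n + 1)))]
    have h2 : (1 : ZMod 2) + 1 = 0 := rfl
    rw [← h2, ← add_assoc, h1, zero_add]

/-- the class `x^n`: the coefficient of the alternating simplex -/
noncomputable def xP (n : ℕ) : Hc BZ2 n :=
  Submodule.liftQ _ ((Finsupp.lapply (bAlt n) : Ch BZ2 n →ₗ[ZMod 2] ZMod 2).comp
    ((lin BZ2).Z n).subtype) (by
    rintro ⟨z, hz⟩ hz'
    exact linB_coeff_B hz')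

theorem xP_cls (n : ℕ) (z : Ch BZ2 n) (hz : z ∈ (lin BZ2).Z n) :
    xP n ((lin BZ2).cls z hz) = z (bAlt n) := rfl

theorem xP_bijective (n : ℕ) : Function.Bijective (xP n) := by
  constructor
  · rw [injective_iff_map_eq_zero]
    intro c hc
    obtain ⟨⟨z, hz⟩, rfl⟩ := Submodule.Quotient.mk_surjective _ c
    have h1 : z (bAlt n) = 0 := hc
    rw [Submodule.Quotient.mk_eq_zero]
    exact linB_mem_B hz h1
  · intro r
    obtain ⟨z, hz, hz1⟩ := linB_exists n
    refine ⟨r • (lin BZ2).cls z hz, ?_⟩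
    rw [map_smul, xP_cls, hz1, smul_eq_mul, mul_one]

/-- the generator of `H_n (lin B)` -/
noncomputable def eU (n : ℕ) : (lin BZ2).H n := Classical.choose ((xP_bijective n).2 1)

theorem xP_eU (n : ℕ) : xP n (eU n) = 1 := Classical.choose_spec ((xP_bijective n).2 1)

theorem eq_smul_eU (n : ℕ) (c : (lin BZ2).H n) : c = xP n c • eU n := by
  apply (xP_bijective n).1
  rw [map_smul, xP_eU, smul_eq_mul, mul_one]

theorem Hc_B_eq (n : ℕ) (y : Hc BZ2 n) : y = y (eU n) • xP n := by
  apply LinearMap.ext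
  intro c
  rw [eq_smul_eU n c, map_smul, LinearMap.smul_apply, map_smul, xP_eU, smul_eq_mul, smul_eq_mul,
    smul_eq_mul, mul_comm, mul_one]

theorem xP_zero : xP 0 = Hc.unit BZ2 := by
  apply LinearMap.ext
  intro c
  obtain ⟨⟨z, hz⟩, rfl⟩ := Submodule.Quotient.mk_surjective _ c
  show xP 0 ((lin BZ2).cls z hz) = Hc.unit BZ2 ((lin BZ2).cls z hz)
  rw [xP_cls, Hc.unit_cls]
  have h1 : (Finsupp.single (bAlt 0) (z (bAlt 0)) : Ch BZ2 0).sum (fun _ r => r) =
      z (bAlt 0) := Finsupp.sum_single_index rfl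
  have h2 : (z : Ch BZ2 0) = Finsupp.single (bAlt 0) (z (bAlt 0)) := A3B1_z0 z
  conv_rhs => rw [h2]
  exact h1.symm

end MM

end

/-! ### from `Lib_MP_33f7bb_d.A3EM` -/

section

/-!
# A3-06: representability of cohomology by Eilenberg-MacLane objects

`IsEM n W u`: `H_j W = 0` for `j ≠ n` and `u : H_n W ≅ F`.
* `clW_cls`: value of `clW u a` on a cycle (`linExt`).
* `em_surj`: `exists_hom` (A009) for `lin Z → W` with `φ_n = u⁻¹ ∘ y` (linear, `u` bijective: `LinearEquiv.ofBijective`), `φ_j = 0`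
  for `j ≠ n`; the linear map `f : lin Z → W` is `linHom` of `x ↦ f (single x 1)`.
* `em_htp`: `htp_iff` (A008) and: a cycle `w ∈ W.Z n` is a boundary iff `u [w] = 0`; cycles of other degrees are boundaries.
* `em_surj_pt`: the same with `R Z z₀` in place of `lin Z` (`exists_hom`); the linear map `f : R Z z₀ → W` is `R.lift` of
  `x ↦ f (R.of x)` (`R.ext`).
* `red_clR`: `linHom a = (R.lift z₀ a ha) ∘ R.pr` (check on `single x 1`).
* `clW_lin`, `clW_id`: naturality for linear maps `W → W'`.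
-/

open scoped TensorProduct

namespace MM

private theorem A3EM_ext {P : SV} {n : ℕ} {x y : Module.Dual (ZMod 2) (P.H n)}
    (h : ∀ (z : P.V n) (hz : z ∈ P.Z n), x (P.cls z hz) = y (P.cls z hz)) : x = y := by
  apply LinearMap.ext
  intro w
  obtain ⟨⟨z, hz⟩, rfl⟩ := Submodule.Quotient.mk_surjective _ w
  exact h z hz

private theorem A3EM_cls_congr {P : SV} {n : ℕ} {z w : P.V n} (hz : z ∈ P.Z n) (hw : w ∈ P.Z n)
    (h : z = w) : P.cls z hz = P.cls w hw := by
  subst h
  rfl

private theorem A3EM_cls_eq {P : SV} {n : ℕ} {z w : P.V n} (hz : z ∈ P.Z n) (hw : w ∈ P.Z n) :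
    P.cls z hz = P.cls w hw ↔ z + w ∈ P.B n := by
  unfold SV.cls
  rw [Submodule.Quotient.eq, Submodule.mem_comap]
  have h : ((P.Z n).subtype (⟨z, hz⟩ - ⟨w, hw⟩ : P.Z n)) = z - w := rfl
  rw [h, sub_eq']

private theorem A3EM_linExt_single' {Z : SS} {W : SV} (f : SVHom (lin Z) W) (n : ℕ) (z : Ch Z n) :
    linExt (W := W) (fun m (x : Z.S m) => (f.app m (Finsupp.single x 1) : W.V m)) n z =
      f.app n z := by
  induction z using Finsupp.induction_linear with
  | zero => rw [map_zero, map_zero]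
  | add x y hx hy => rw [map_add, hx, hy]; exact (map_add (f.app n) x y).symm
  | single x c =>
    rw [linExt_single, ← map_smul, Finsupp.smul_single, smul_eq_mul, mul_one]

private theorem A3EM_linExt_add {Z : SS} {W : SV} (a b : Hom Z W.ss) (n : ℕ) (z : Ch Z n) :
    linExt (homAdd a b).app n z = linExt a.app n z + linExt b.app n z := by
  induction z using Finsupp.induction_linear with
  | zero => rw [map_zero, map_zero, map_zero, add_zero]
  | add x y hx hy => rw [map_add, map_add, map_add, hx, hy]; abel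
  | single x c =>
    rw [linExt_single, linExt_single, linExt_single, ← smul_add]
    rfl

private theorem A3EM_linExt_lin {Z : SS} {W W' : SV} (g : SVHom W W') (a : Hom Z W.ss)
    (b : Hom Z W'.ss) (h : ∀ n x, b.app n x = g.app n (a.app n x)) (n : ℕ) (z : Ch Z n) :
    linExt b.app n z = g.app n (linExt a.app n z) := by
  induction z using Finsupp.induction_linear with
  | zero => rw [map_zero, map_zero, map_zero]
  | add x y hx hy => rw [map_add, map_add, map_add, hx, hy]
  | single x c =>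
    rw [linExt_single, linExt_single, map_smul, h]

theorem clW_cls {Z : SS} {W : SV} {n : ℕ} (u : Module.Dual (ZMod 2) (W.H n)) (a : Hom Z W.ss)
    (z : Ch Z n) (hz : z ∈ (lin Z).Z n) :
    clW u a ((lin Z).cls z hz) = u (W.cls (linExt a.app n z) ((linHom a).map_Z hz)) := rfl

theorem clW_comp {Z Z' : SS} {W : SV} {n : ℕ} (u : Module.Dual (ZMod 2) (W.H n))
    (a : Hom Z' W.ss) (f : Hom Z Z') : clW u (a.comp f) = Hc.map f n (clW u a) := by
  apply A3EM_ext
  intro z hz
  show u (W.cls (linExt (a.comp f).app n z) _) = u (W.cls (linExt a.app n (z.mapDomain (f.app n))) _)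
  congr 1
  apply A3EM_cls_congr
  show Finsupp.linearCombination (ZMod 2) ((a.comp f).app n) z =
    Finsupp.linearCombination (ZMod 2) (a.app n) (z.mapDomain (f.app n))
  rw [Finsupp.linearCombination_mapDomain]
  rfl

theorem clW_add {Z : SS} {W : SV} {n : ℕ} (u : Module.Dual (ZMod 2) (W.H n))
    (a b : Hom Z W.ss) : clW u (homAdd a b) = clW u a + clW u b := by
  apply A3EM_ext
  intro z hz
  have h1 := A3EM_linExt_add a b n z
  have h2 : clW u (homAdd a b) ((lin Z).cls z hz) =
      u (W.cls (linExt a.app n z + linExt b.app n z)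
        (Submodule.add_mem _ ((linHom a).map_Z hz) ((linHom b).map_Z hz))) := by
    show u (W.cls (linExt (homAdd a b).app n z) _) = _
    congr 1
    exact A3EM_cls_congr _ _ h1
  rw [h2]
  show _ = u (W.cls (linExt a.app n z) ((linHom a).map_Z hz)) +
    u (W.cls (linExt b.app n z) ((linHom b).map_Z hz))
  rw [← map_add]
  rfl

/-- every map is the pull back of the class of the identity -/
theorem clW_id {Z : SS} {W : SV} {n : ℕ} (u : Module.Dual (ZMod 2) (W.H n)) (a : Hom Z W.ss) :
    clW u a = Hc.map a n (clW u (Hom.id W.ss)) :=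
  clW_comp u (Hom.id W.ss) a

theorem clW_lin {Z : SS} {W W' : SV} {n : ℕ} (u : Module.Dual (ZMod 2) (W'.H n))
    (g : SVHom W W') (a : Hom Z W.ss) :
    clW u (⟨fun m x => g.app m (a.app m x), fun {m k} f x => by
      show g.app m (a.app m (Z.act f x)) = W'.act f (g.app k (a.app k x))
      rw [a.nat]; exact g.nat f _⟩ : Hom Z W'.ss) = clW (u.comp (SV.Hmap g n)) a := by
  apply A3EM_ext
  intro z hz
  show u (W'.cls _ _) = u (W'.cls (g.app n (linExt a.app n z)) _)
  congr 1
  apply A3EM_cls_congr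
  exact A3EM_linExt_lin g a _ (fun _ _ => rfl) n z

theorem clW_htp {Z : SS} {W : SV} {n : ℕ} (u : Module.Dual (ZMod 2) (W.H n))
    {a b : Hom Z W.ss} (h : Htp a b) : clW u a = clW u b := by
  rw [htp_iff] at h
  apply A3EM_ext
  intro z hz
  rw [clW_cls, clW_cls]
  congr 1
  rw [A3EM_cls_eq]
  exact h n z hz

theorem em_htp {n : ℕ} {W : SV} {u : Module.Dual (ZMod 2) (W.H n)} (h : IsEM n W u) {Z : SS}
    (a b : Hom Z W.ss) : Htp a b ↔ clW u a = clW u b := by
  refine ⟨clW_htp u, fun hab => ?_⟩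
  rw [htp_iff]
  intro m z hz
  by_cases hm : m = n
  · subst hm
    refine (A3EM_cls_eq ((linHom a).map_Z hz) ((linHom b).map_Z hz)).1 ?_
    apply h.bij.1
    exact LinearMap.congr_fun hab ((lin Z).cls z hz)
  · exact h.low m hm _ (Submodule.add_mem _ ((linHom a).map_Z hz) ((linHom b).map_Z hz))

theorem em_surj {n : ℕ} {W : SV} {u : Module.Dual (ZMod 2) (W.H n)} (h : IsEM n W u) {Z : SS}
    (y : Hc Z n) : ∃ a : Hom Z W.ss, clW u a = y := by
  classical
  obtain ⟨f, hf⟩ := exists_hom (P := lin Z) (Q := W)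
    (Function.update (fun _ => 0) n ((LinearEquiv.ofBijective u h.bij).symm.toLinearMap ∘ₗ y))
  refine ⟨⟨fun m x => f.app m (Finsupp.single x 1), fun {m k} g x => ?_⟩, ?_⟩
  · show f.app m (Finsupp.single (Z.act g x) 1) = W.act g (f.app k (Finsupp.single x 1))
    rw [← f.nat]
    congr 1
    exact (Finsupp.mapDomain_single).symm
  · apply A3EM_ext
    intro z hz
    obtain ⟨hfz, h1⟩ := hf n z hz
    rw [Function.update_self] at h1
    refine Eq.trans (congrArg u (A3EM_cls_congr _ hfz (A3EM_linExt_single' f n z))) ?_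
    rw [h1]
    exact (LinearEquiv.ofBijective u h.bij).apply_symm_apply _

theorem em_surj_pt {n : ℕ} {W : SV} {u : Module.Dual (ZMod 2) (W.H n)} (h : IsEM n W u) {Z : SS}
    (z₀ : Z.S 0) (y : Module.Dual (ZMod 2) ((R Z z₀).H n)) :
    ∃ (a : Hom Z W.ss) (ha : a.app 0 z₀ = W.zv), clR u a ha = y := by
  classical
  obtain ⟨f, hf⟩ := exists_hom (P := R Z z₀) (Q := W)
    (Function.update (fun _ => 0) n ((LinearEquiv.ofBijective u h.bij).symm.toLinearMap ∘ₗ y))
  have h0 : (R.of z₀).app 0 z₀ = (0 : (R Z z₀).V 0) := by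
    have h1 : Z.deg z₀ 0 = z₀ := by
      show Z.act _ z₀ = z₀
      have h1 : (cst 0 : Mo 0 0) = OrderHom.id := by
        ext i; simp [cst]
      rw [h1, Z.act_id]
    have h2 := R.of_base z₀ 0
    rwa [h1] at h2
  have ha : (⟨fun m x => f.app m ((R.of z₀).app m x), fun {m k} g x => by
      show f.app m ((R.of z₀).app m (Z.act g x)) = W.act g (f.app k ((R.of z₀).app k x))
      rw [(R.of z₀).nat]
      exact f.nat g _⟩ : Hom Z W.ss).app 0 z₀ = W.zv := by
    show f.app 0 ((R.of z₀).app 0 z₀) = (0 : W.V 0)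
    rw [h0, map_zero]
  refine ⟨_, ha, ?_⟩
  have h3 : R.lift z₀ _ ha = f := by
    apply R.ext
    intro m x
    rw [R.lift_of]
  show u.comp (SV.Hmap (R.lift z₀ _ ha) n) = y
  rw [h3]
  apply A3EM_ext
  intro z hz
  obtain ⟨hfz, h1⟩ := hf n z hz
  rw [Function.update_self] at h1
  show u (W.cls (f.app n z) hfz) = _
  rw [h1]
  exact (LinearEquiv.ofBijective u h.bij).apply_symm_apply _

theorem red_clR {Z : SS} {z₀ : Z.S 0} {W : SV} {n : ℕ} (u : Module.Dual (ZMod 2) (W.H n))
    (a : Hom Z W.ss) (ha : a.app 0 z₀ = W.zv) : red z₀ n (clR u a ha) = clW u a := by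
  apply A3EM_ext
  intro z hz
  rfl

/-- `K'(n)` is an Eilenberg-MacLane object (A0-15) -/
theorem exists_KKev (n : ℕ) : ∃ u : Module.Dual (ZMod 2) ((KK n).H n), IsEM n (KK n) u := by
  have hc : ∀ c : ZMod 2, c = 0 ∨ c = 1 := by decide
  have hio : (KK n).cls (KK.iota n) (KK_iota_mem_Z n) ≠ 0 := by
    intro h
    apply KK_iota_not_mem_B n
    have h1 : (⟨KK.iota n, KK_iota_mem_Z n⟩ : (KK n).Z n) ∈
        Submodule.comap ((KK n).Z n).subtype ((KK n).B n) := (Submodule.Quotient.mk_eq_zero _).1 h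
    exact h1
  have hb : Function.Bijective (LinearMap.toSpanSingleton (ZMod 2) ((KK n).H n)
      ((KK n).cls (KK.iota n) (KK_iota_mem_Z n))) := by
    constructor
    · rw [injective_iff_map_eq_zero]
      intro c h
      rcases hc c with rfl | rfl
      · rfl
      · rw [LinearMap.toSpanSingleton_apply, one_smul] at h
        exact absurd h hio
    · intro w
      obtain ⟨⟨z, hz⟩, rfl⟩ := Submodule.Quotient.mk_surjective _ w
      rcases KK_homology n n z hz with h | ⟨_, h⟩
      · refine ⟨0, ?_⟩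
        rw [map_zero]
        exact ((Submodule.Quotient.mk_eq_zero _).2 (show (⟨z, hz⟩ : (KK n).Z n) ∈
          Submodule.comap ((KK n).Z n).subtype ((KK n).B n) from h)).symm
      · refine ⟨1, ?_⟩
        rw [LinearMap.toSpanSingleton_apply, one_smul]
        exact ((A3EM_cls_eq hz (KK_iota_mem_Z n)).2 h).symm
  refine ⟨(LinearEquiv.ofBijective _ hb).symm.toLinearMap, ?_, ?_⟩
  · intro j hj z hz
    rcases KK_homology n j z hz with h | ⟨h, -⟩
    · exact h
    · exact absurd h hj
  · exact (LinearEquiv.ofBijective _ hb).symm.bijective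

end MM

end

/-! ### from `Lib_MP_33f7bb_d.A3Bar` -/

section

/-!
# A3-05: homology of the bar construction: `H_(j+1) (barV V) = H_j V`, `H_0 (barV V) = 0`

`barDel : (barV V)_(j+1) → V_j`, `v ↦ δ_0^* (v (0, 1))`, is an isomorphism in homology.

Auxiliary simplicial vector space `PV`: `(PV)_m` = all functions `p : Fin (m+1) → V_m`,
`(θ^* p) a = V.act θ (p (θ a))`.
* `PV` is acyclic: the family `H_u p a = if u a = 0 then p a else 0` (`u : Mo m 1`) is a linear homotopy (`LHpy`) from
  `id` (`u = cst 0`) to `0` (`u = cst 1`), natural; apply `lprism`: every cycle is a boundary.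
* `c : V → PV`, `c(x) = ` constant function; injective; `q : PV → barV V`, `q(p)(a,b) = p a + p b`; `q ∘ c = 0`
  (`two_eq_zero'`); if `q p = 0` then `p = c (p 0)`; for `v ∈ (barV V)_m` put `p_v a = v (0, a)`: `q (p_v) = v` by additivity
  (`v (0,b) + v (0,a) = v (a,b)` since `v (0,b) = v (0,a) + v (a,b)`).  All maps commute with the structure maps,
  hence with `d`.
* For `v ∈ (barV V)_(j+1)`:  `(d p_v) 0 = ∑_i act δ_i (v (0, δ_i 0)) = act δ_0 (v (0,1)) = barDel v` (the other terms are
  `v (0,0) = 0`).  If `d v = 0` then `q (d p_v) = 0`, so `d p_v = c (barDel v)`.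
* `barDel_Z`: `c (d (barDel v)) = d (d p_v) = 0` (`SV.d_d`).
* `barDel_B`: `v = d w`: `p_v + d p_w = c x` for some `x ∈ V_(j+1)` (apply `q`), so `c (barDel v) = d p_v = d (c x) + d d p_w
  = c (d x)`.
* `barDel_inj`: `barDel v = d x`: `p_v + c x` is a cycle of `PV`, so `= d r`, and `v = q (p_v + c x) = d (q r)`.
* `barDel_surj`: `z ∈ V.Z j`: `c z` is a cycle, so `c z = d p`; `v := q p` is a cycle; `p + p_v = c x`, so
  `c (barDel v) = d p_v = c z + c (d x)`.
* `barV_zero`: additive functions on the single pair `(0,0)` vanish.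
(For `j = 0` the cycle conditions on level `0` are vacuous.)
-/

open scoped TensorProduct

namespace MM

/-- the auxiliary acyclic object: all functions on the vertices -/
private abbrev A3Bar_P (V : SV) : SV where
  V m := Fin (m + 1) → V.V m
  act {m n} θ :=
    { toFun := fun p a => V.act θ (p (θ a))
      map_add' := fun p p' => funext fun a => map_add (V.act θ) _ _
      map_smul' := fun r p => funext fun a => map_smul (V.act θ) r _ }
  act_id p := funext fun a => V.act_id _
  act_comp θ η p := funext fun a => V.act_comp θ η _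

private noncomputable def A3Bar_h (V : SV) : LHpy (A3Bar_P V) (A3Bar_P V) where
  app n u :=
    { toFun := fun p a => if u a = 0 then p a else 0
      map_add' := fun p p' => funext fun a => by
        show (if u a = 0 then p a + p' a else 0) =
          (if u a = 0 then p a else 0) + (if u a = 0 then p' a else 0)
        split_ifs
        · rfl
        · rw [add_zero]
      map_smul' := fun r p => funext fun a => by
        show (if u a = 0 then r • p a else 0) = r • (if u a = 0 then p a else 0)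
        split_ifs
        · rfl
        · rw [smul_zero] }
  nat {m n} f u p := funext fun a => by
    show (if u (f a) = 0 then V.act f (p (f a)) else 0) =
      V.act f (if u (f a) = 0 then p (f a) else 0)
    split_ifs
    · rfl
    · rw [map_zero]

private theorem A3Bar_acyc (V : SV) {n : ℕ} {z : (A3Bar_P V).V n} (hz : z ∈ (A3Bar_P V).Z n) :
    ∃ r, (A3Bar_P V).d n r = z := by
  obtain ⟨T, h0, h1⟩ := lprism (A3Bar_h V)
  have e0 : (A3Bar_h V).app n (cst 0) z = z := funext fun a => by
    show (if (0 : Fin 2) = 0 then z a else 0) = z a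
    rw [if_pos rfl]
  have e1 : (A3Bar_h V).app n (cst 1) z = 0 := funext fun a => by
    show (if (1 : Fin 2) = 0 then z a else 0) = 0
    rw [if_neg (by decide)]
  refine ⟨T n z, ?_⟩
  cases n with
  | zero => rw [h0, e0, e1, add_zero]
  | succ n =>
    have hz' : (A3Bar_P V).d n z = 0 := hz
    rw [h1, e0, e1, hz', map_zero, add_zero, add_zero]

/-- constant functions -/
private def A3Bar_c (V : SV) : SVHom V (A3Bar_P V) :=
  ⟨fun n => { toFun := fun x _ => x, map_add' := fun _ _ => rfl, map_smul' := fun _ _ => rfl },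
    fun _ _ => rfl⟩

private theorem A3Bar_c_inj (V : SV) {n : ℕ} {x y : V.V n}
    (h : (A3Bar_c V).app n x = (A3Bar_c V).app n y) : x = y := congrFun h 0

/-- the projection -/
private def A3Bar_q (V : SV) : SVHom (A3Bar_P V) (barV V) :=
  ⟨fun n =>
    { toFun := fun p => ⟨fun x => p x.1 + p x.2, fun a b c => by
        show p a + p c = (p a + p b) + (p b + p c)
        have h := two_eq_zero' (p b)
        calc p a + p c = p a + (p b + p b) + p c := by rw [h, add_zero]
          _ = _ := by abel⟩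
      map_add' := fun p p' => by
        apply Subtype.ext; funext x
        show (p x.1 + p' x.1) + (p x.2 + p' x.2) = (p x.1 + p x.2) + (p' x.1 + p' x.2)
        abel
      map_smul' := fun r p => by
        apply Subtype.ext; funext x
        show r • p x.1 + r • p x.2 = r • (p x.1 + p x.2)
        rw [smul_add] }, fun {m n} θ p => by
    apply Subtype.ext; funext x
    show V.act θ (p (θ x.1)) + V.act θ (p (θ x.2)) = V.act θ (p (θ x.1) + p (θ x.2))
    rw [map_add]⟩

private theorem A3Bar_qc (V : SV) {n : ℕ} (x : V.V n) :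
    (A3Bar_q V).app n ((A3Bar_c V).app n x) = 0 := by
  apply Subtype.ext; funext y
  exact two_eq_zero' x

private theorem A3Bar_ker (V : SV) {n : ℕ} {p : (A3Bar_P V).V n}
    (h : (A3Bar_q V).app n p = 0) : p = (A3Bar_c V).app n (p 0) := by
  funext a
  have h1 : ((A3Bar_q V).app n p).1 (0, a) = 0 := by rw [h]; rfl
  have h2 : p 0 + p a = 0 := h1
  show p a = p 0
  have h3 : p a = - p 0 := eq_neg_of_add_eq_zero_right h2
  rw [h3, neg_eq']

/-- the section (not simplicial) -/
private def A3Bar_s (V : SV) {m : ℕ} (v : (barV V).V m) : (A3Bar_P V).V m := fun a => v.1 (0, a)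

private theorem A3Bar_v00 (V : SV) {m : ℕ} (v : (barV V).V m) (a : Fin (m + 1)) :
    v.1 (a, a) = 0 := left_eq_add.1 (v.2 a a a)

private theorem A3Bar_qs (V : SV) {m : ℕ} (v : (barV V).V m) :
    (A3Bar_q V).app m (A3Bar_s V v) = v := by
  apply Subtype.ext; funext x
  show v.1 (0, x.1) + v.1 (0, x.2) = v.1 (x.1, x.2)
  rw [v.2 0 x.1 x.2, ← add_assoc, two_eq_zero', zero_add]

private theorem A3Bar_ds0 (V : SV) {j : ℕ} (v : (barV V).V (j + 1)) :
    (A3Bar_P V).d j (A3Bar_s V v) 0 = barDel V j v := by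
  rw [SV.d, LinearMap.sum_apply, Finset.sum_apply, Fin.sum_univ_succ]
  have h1 : ∀ i : Fin (j + 1), (A3Bar_P V).act (dlt i.succ) (A3Bar_s V v) 0 = 0 := by
    intro i
    show V.act (dlt i.succ) (v.1 (0, (dlt i.succ : Mo j (j + 1)) 0)) = 0
    have : (dlt i.succ : Mo j (j + 1)) 0 = 0 := by
      show (i.succ).succAbove 0 = 0
      exact Fin.succAbove_ne_zero_zero (Fin.succ_ne_zero i)
    rw [this, A3Bar_v00, map_zero]
  rw [Finset.sum_congr rfl fun i _ => h1 i, Finset.sum_const_zero, add_zero]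
  rfl

private theorem A3Bar_ds (V : SV) {j : ℕ} {v : (barV V).V (j + 1)}
    (hv : v ∈ (barV V).Z (j + 1)) :
    (A3Bar_P V).d j (A3Bar_s V v) = (A3Bar_c V).app j (barDel V j v) := by
  have hv' : (barV V).d j v = 0 := hv
  have h : (A3Bar_q V).app j ((A3Bar_P V).d j (A3Bar_s V v)) = 0 := by
    rw [SVHom.map_d, A3Bar_qs, hv']
  rw [A3Bar_ker V h, A3Bar_ds0]

theorem barV_zero (V : SV) (v : (barV V).V 0) : v = 0 := by
  apply Subtype.ext; funext x
  have hx : x = (0, 0) := Prod.ext (Fin.ext (by omega)) (Fin.ext (by omega))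
  rw [hx]
  exact A3Bar_v00 V v 0

theorem barDel_Z (V : SV) {j : ℕ} {v : (barV V).V (j + 1)} (hv : v ∈ (barV V).Z (j + 1)) :
    barDel V j v ∈ V.Z j := by
  cases j with
  | zero => exact Submodule.mem_top
  | succ j =>
    show V.d j (barDel V (j + 1) v) = 0
    apply A3Bar_c_inj V
    rw [SVHom.map_d, ← A3Bar_ds V hv, SV.d_d, map_zero]

theorem barDel_B (V : SV) {j : ℕ} {v : (barV V).V (j + 1)} (hv : v ∈ (barV V).B (j + 1)) :
    barDel V j v ∈ V.B j := by
  have hZ : v ∈ (barV V).Z (j + 1) := by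
    obtain ⟨w, hw⟩ := hv
    show (barV V).d j v = 0
    rw [← hw]
    exact (barV V).d_d w
  obtain ⟨w, hw⟩ := hv
  have hw' : (barV V).d (j + 1) w = v := hw
  have h : (A3Bar_q V).app (j + 1) (A3Bar_s V v + (A3Bar_P V).d (j + 1) (A3Bar_s V w)) = 0 := by
    rw [map_add, SVHom.map_d, A3Bar_qs, A3Bar_qs, hw', two_eq_zero']
  have h2 := A3Bar_ker V h
  refine ⟨(A3Bar_s V v + (A3Bar_P V).d (j + 1) (A3Bar_s V w)) 0, ?_⟩
  apply A3Bar_c_inj V
  rw [SVHom.map_d, ← h2, map_add, SV.d_d, add_zero, A3Bar_ds V hZ]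

theorem barDel_inj (V : SV) {j : ℕ} {v : (barV V).V (j + 1)} (hv : v ∈ (barV V).Z (j + 1))
    (h : barDel V j v ∈ V.B j) : v ∈ (barV V).B (j + 1) := by
  obtain ⟨x, hx⟩ := h
  have hx' : V.d j x = barDel V j v := hx
  have h1 : A3Bar_s V v + (A3Bar_c V).app (j + 1) x ∈ (A3Bar_P V).Z (j + 1) := by
    show (A3Bar_P V).d j (A3Bar_s V v + (A3Bar_c V).app (j + 1) x) = 0
    rw [map_add, A3Bar_ds V hv, ← SVHom.map_d, hx', two_eq_zero']
  obtain ⟨r, hr⟩ := A3Bar_acyc V h1
  refine ⟨(A3Bar_q V).app (j + 2) r, ?_⟩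
  rw [← SVHom.map_d, hr, map_add, A3Bar_qs, A3Bar_qc, add_zero]

theorem barDel_surj (V : SV) {j : ℕ} {z : V.V j} (hz : z ∈ V.Z j) :
    ∃ v ∈ (barV V).Z (j + 1), barDel V j v + z ∈ V.B j := by
  obtain ⟨p, hp⟩ := A3Bar_acyc V ((A3Bar_c V).map_Z hz)
  have hZ : (A3Bar_q V).app (j + 1) p ∈ (barV V).Z (j + 1) := by
    show (barV V).d j ((A3Bar_q V).app (j + 1) p) = 0
    rw [← SVHom.map_d, hp, A3Bar_qc]
  refine ⟨(A3Bar_q V).app (j + 1) p, hZ, ?_⟩
  have h : (A3Bar_q V).app (j + 1) (p + A3Bar_s V ((A3Bar_q V).app (j + 1) p)) = 0 := by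
    rw [map_add, A3Bar_qs, two_eq_zero']
  have h2 := A3Bar_ker V h
  refine ⟨(p + A3Bar_s V ((A3Bar_q V).app (j + 1) p)) 0, ?_⟩
  apply A3Bar_c_inj V
  rw [SVHom.map_d, ← h2, map_add, hp, A3Bar_ds V hZ, map_add, add_comm]

/-- the isomorphism `H_(j+1) (barV V) → H_j V` -/
noncomputable def barH (V : SV) (j : ℕ) : (barV V).H (j + 1) →ₗ[ZMod 2] V.H j :=
  Submodule.mapQ _ _ ((barDel V j).restrict (fun _ hz => barDel_Z V hz)) (by
    rintro ⟨z, hz⟩ hz'
    exact barDel_B V hz')

theorem barH_cls (V : SV) (j : ℕ) (v : (barV V).V (j + 1)) (hv : v ∈ (barV V).Z (j + 1)) :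
    barH V j ((barV V).cls v hv) = V.cls (barDel V j v) (barDel_Z V hv) := rfl

theorem barH_bijective (V : SV) (j : ℕ) : Function.Bijective (barH V j) := by
  constructor
  · rw [injective_iff_map_eq_zero]
    intro x hx
    obtain ⟨⟨v, hv⟩, rfl⟩ := Submodule.Quotient.mk_surjective _ x
    have h1 : V.cls (barDel V j v) (barDel_Z V hv) = 0 := hx
    have h2 := (Submodule.Quotient.mk_eq_zero _).1 h1
    exact (Submodule.Quotient.mk_eq_zero _).2 (barDel_inj V hv h2)
  · intro y
    obtain ⟨⟨z, hz⟩, rfl⟩ := Submodule.Quotient.mk_surjective _ y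
    obtain ⟨v, hv, h⟩ := barDel_surj V hz
    refine ⟨(barV V).cls v hv, ?_⟩
    rw [barH_cls]
    refine (Submodule.Quotient.eq _).2 ?_
    show barDel V j v - z ∈ V.B j
    rw [sub_eq']
    exact h

/-- the fundamental functional of `cstV (ZMod 2)` -/
noncomputable def KLev0 : Module.Dual (ZMod 2) ((cstV (ZMod 2)).H 0) :=
  Submodule.liftQ _ ((LinearMap.id : ZMod 2 →ₗ[ZMod 2] ZMod 2) ∘ₗ ((cstV (ZMod 2)).Z 0).subtype) (by
    rintro ⟨z, hz⟩ ⟨w, hw⟩
    have hw' : (cstV (ZMod 2)).d 0 w = z := hw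
    show z = 0
    rw [← hw', SV.d, LinearMap.sum_apply, Fin.sum_univ_two]
    exact CharTwo.add_self_eq_zero w)

/-- the fundamental functional of `KL n` -/
noncomputable def KLev : ∀ n, Module.Dual (ZMod 2) ((KL n).H n)
  | 0 => KLev0
  | n + 1 => (KLev n).comp (barH (KL n) n)

/-- homology of a constant simplicial vector space: `d` is alternately `0` and the identity -/
theorem cstV_homology (M : Type) [AddCommGroup M] [Module (ZMod 2) M] (j : ℕ)
    (z : (cstV M).V (j + 1)) (hz : z ∈ (cstV M).Z (j + 1)) : z ∈ (cstV M).B (j + 1) := by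
  have hd : ∀ (n : ℕ) (x : M), (cstV M).d n x = (n + 2) • x := by
    intro n x
    rw [SV.d, LinearMap.sum_apply]
    show ∑ i : Fin (n + 2), x = _
    rw [Finset.sum_const, Finset.card_univ, Fintype.card_fin]
  have h2 : ∀ (k : ℕ) (x : M), (2 * k) • x = 0 := by
    intro k x
    rw [mul_comm, mul_smul, two_smul, two_eq_zero', smul_zero]
  have hz' : (cstV M).d j z = 0 := hz
  rw [hd] at hz'
  rcases Nat.even_or_odd' j with ⟨k, hk | hk⟩
  · refine ⟨z, ?_⟩
    rw [hd, show j + 1 + 2 = 2 * (k + 1) + 1 by omega, add_smul, h2, one_smul, zero_add]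
  · rw [show j + 2 = 2 * (k + 1) + 1 by omega, add_smul, h2, one_smul, zero_add] at hz'
    rw [hz']
    exact Submodule.zero_mem _

theorem KL_isEM (n : ℕ) : IsEM n (KL n) (KLev n) := by
  induction n with
  | zero =>
    refine ⟨?_, ?_⟩
    · intro j hj z hz
      obtain ⟨i, rfl⟩ := Nat.exists_eq_succ_of_ne_zero hj
      exact cstV_homology (ZMod 2) i z hz
    · constructor
      · rw [injective_iff_map_eq_zero]
        intro x hx
        obtain ⟨⟨z, hz⟩, rfl⟩ := Submodule.Quotient.mk_surjective _ x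
        have h1 : z = 0 := hx
        subst h1
        rfl
      · intro y
        exact ⟨(cstV (ZMod 2)).cls (n := 0) y Submodule.mem_top, rfl⟩
  | succ n ih =>
    refine ⟨?_, ?_⟩
    · intro j hj z hz
      cases j with
      | zero =>
        have : z = 0 := barV_zero (KL n) z
        rw [this]
        exact Submodule.zero_mem _
      | succ j =>
        exact barDel_inj (KL n) hz (ih.low j (by omega) _ (barDel_Z (KL n) hz))
    · show Function.Bijective ((KLev n).comp (barH (KL n) n))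
      exact ih.bij.comp (barH_bijective (KL n) n)

theorem KL_finite (n m : ℕ) : Finite ((KL n).V m) := by
  induction n generalizing m with
  | zero => exact inferInstanceAs (Finite (ZMod 2))
  | succ n ih =>
    have := ih m
    exact inferInstanceAs (Finite (barS (KL n) m))

end MM

end

/-! ### from `Lib_MP_33f7bb_d.A3H` -/

section

/-!
# A3-04: homology of `TT`: `H_n (TT) = F`, detected by `evT n`

`pathL_succ`: `pathL (n+1) = (0,1) :: (pathL n).map (prMap (dlt 0))` (`List.finRange_succ`; `dlt 0 = Fin.succ`).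

`evT_B`: `evT n (TT.d n w) = ∑_(i ≤ n+1) w ((pathL n).map (prMap (dlt i)))`.  Let `A i = w (pathL (n+1) with the i-th entry removed)`,
`i ≤ n`.  The term `i = 0` is `A 0`, the term `i = n+1` is `A n`, and for `1 ≤ i ≤ n` the list contains `(i-1, i+1)` instead of
`(i-1,i), (i,i+1)`, so by additivity the term is `A (i-1) + A i`.  The sum telescopes to `0`.
Alternative by induction on `n` with the map `iT` below:  for `z = d w`, `w ∈ TT_(n+2)`: `evT (n+1) z = evT n (barDel TT n (iT z))`
(`pathL_succ`) and `barDel` of a boundary is a boundary (`barDel_B`); for `n = 0`: `evT 0 (d w) = w [] + w [] = 0`.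

`iT : SVHom TT (barV TT)`, `f ↦ (x ↦ hd f x)`.  Section `sT : SVHom (barV TT) TT`, `v ↦ ([] ↦ 0, x :: l ↦ (v x) l)`:
`iT ∘ sT = id`; `f = sT (iT f) + f [] • 1` where `1 =` indicator of `[]` (the constant part).
`TT_mem_B` by induction on `n`:  `n = 0`: every `z ∈ TT_0` vanishes on nonempty lists (`IsAdd.self`; all vertices are `0`), so
`evT 0 z = z [] = 0` gives `z = 0`.  `n + 1`: `iT z` is a cycle, `evT n (barDel TT n (iT z)) = evT (n+1) z = 0` and `barDel ..` is a
cycle (`barDel_Z`), so it is a boundary by induction; hence `iT z = d v` (`barDel_inj`); `z + d (sT v)` is a cycle `r • 1` and a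
cycle `r • 1` in degree `n + 1` is a boundary (`d (r • 1) = (n+2) r • 1`; if `n + 2` is odd then `r = 0`, if it is even then
`r • 1 = d (r • 1)`, as `n + 3` is odd).
`TT_exists` by induction on `n`: `n = 0`: indicator of `[]`.  `n + 1`: `z` for `n`, `barDel_surj` gives a cycle `v` of `barV TT` with
`barDel v + z ∈ B`; take `sT v` (`evT_B`).
-/

open scoped TensorProduct

namespace MM

theorem pathL_succ (n : ℕ) :
    pathL (n + 1) = (0, 1) :: (pathL n).map (prMap (dlt 0)) := by
  have h : ∀ m : ℕ, pathL m = (List.finRange m).map fun i => (i.castSucc, i.succ) := by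
    intro m
    show ((List.finRange m).filter fun _ => true).map _ = _
    rw [List.filter_true]
  rw [h, h, List.finRange_succ, List.map_cons, List.map_map, List.map_map]
  rfl

theorem pathL_length (n : ℕ) : (pathL n).length = n := by
  induction n with
  | zero => rfl
  | succ n ih => rw [pathL_succ, List.length_cons, List.length_map, ih]

/-- currying the first slot -/
def iT : SVHom TT (barV TT) :=
  ⟨fun m =>
    { toFun := fun f => ⟨fun x => ⟨hd f.1 x, f.2.hd x⟩, fun a b c =>
        Subtype.ext (f.2.first a b c)⟩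
      map_add' := fun _ _ => rfl
      map_smul' := fun _ _ => rfl }, fun _ _ => rfl⟩

/-- the section of `iT` -/
def sT : SVHom (barV TT) TT :=
  ⟨fun m =>
    { toFun := fun v => ⟨fun l => match l with
        | [] => 0
        | x :: l => (v.1 x).1 l, by
          intro l₁ l₂ a b c
          rcases l₁ with _ | ⟨x, l₁⟩
          · show (v.1 (a, c)).1 l₂ = (v.1 (a, b)).1 l₂ + (v.1 (b, c)).1 l₂
            rw [v.2 a b c]; rfl
          · exact (v.1 x).2 l₁ l₂ a b c⟩
      map_add' := fun v w => by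
        apply Subtype.ext; funext l
        rcases l with _ | ⟨x, l⟩
        · exact (add_zero (0 : ZMod 2)).symm
        · rfl
      map_smul' := fun r v => by
        apply Subtype.ext; funext l
        rcases l with _ | ⟨x, l⟩
        · exact (mul_zero r).symm
        · rfl }, fun {m n} θ v => by
    apply Subtype.ext; funext l
    rcases l with _ | ⟨x, l⟩
    · rfl
    · rfl⟩

theorem iT_sT (m : ℕ) (v : (barV TT).V m) : iT.app m (sT.app m v) = v := rfl

theorem evT_barDel (n : ℕ) (z : TT.V (n + 1)) :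
    evT (n + 1) z = evT n (barDel TT n (iT.app (n + 1) z)) := by
  rw [evT_apply, pathL_succ]
  rfl

theorem evT_B {n : ℕ} {z : TT.V n} (hz : z ∈ TT.B n) : evT n z = 0 := by
  induction n with
  | zero =>
    obtain ⟨w, rfl⟩ := hz
    have h : ∀ i : Fin 2, evT 0 (TT.act (dlt i) w) = w.1 [] := fun i => rfl
    rw [SV.d, LinearMap.sum_apply, map_sum, Fin.sum_univ_two, h, h]
    exact CharTwo.add_self_eq_zero _
  | succ n ih =>
    rw [evT_barDel]
    exact ih (barDel_B TT (iT.map_B hz))

/-- the indicator function of the empty list -/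
private def A3H_one (m : ℕ) : TT.V m :=
  ⟨fun l => match l with
    | [] => 1
    | _ :: _ => 0, by
    intro l₁ l₂ a b c
    rcases l₁ with _ | ⟨x, l₁⟩
    · exact (add_zero (0 : ZMod 2)).symm
    · exact (add_zero (0 : ZMod 2)).symm⟩

private theorem A3H_one_act {m n : ℕ} (θ : Mo m n) : TT.act θ (A3H_one n) = A3H_one m := by
  apply Subtype.ext; funext l
  rcases l with _ | ⟨x, l⟩
  · rfl
  · rfl

private theorem A3H_one_d (m : ℕ) : TT.d m (A3H_one (m + 1)) = ((m + 2 : ℕ) : ZMod 2) • A3H_one m := by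
  rw [SV.d, LinearMap.sum_apply, Finset.sum_congr rfl fun i _ => A3H_one_act (dlt i),
    Finset.sum_const, Finset.card_univ, Fintype.card_fin, Nat.cast_smul_eq_nsmul]

private theorem A3H_split {m : ℕ} (z : TT.V m) :
    z = sT.app m (iT.app m z) + z.1 [] • A3H_one m := by
  apply Subtype.ext; funext l
  rcases l with _ | ⟨x, l⟩
  · show z.1 [] = 0 + z.1 [] * 1
    rw [zero_add, mul_one]
  · show z.1 (x :: l) = z.1 (x :: l) + z.1 [] * 0
    rw [mul_zero, add_zero]

private theorem A3H_cast (n : ℕ) : ((n + 2 : ℕ) : ZMod 2) = 1 ∨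
    (((n + 2 : ℕ) : ZMod 2) = 0 ∧ ((n + 1 + 2 : ℕ) : ZMod 2) = 1) := by
  have h : ∀ a : ZMod 2, a = 1 ∨ (a = 0 ∧ a + 1 = 1) := by decide
  rcases h ((n + 2 : ℕ) : ZMod 2) with h | ⟨h, h'⟩
  · exact Or.inl h
  · refine Or.inr ⟨h, ?_⟩
    rw [← h']
    push_cast
    ring

theorem TT_mem_B {n : ℕ} {z : TT.V n} (hz : z ∈ TT.Z n) (h : evT n z = 0) : z ∈ TT.B n := by
  induction n with
  | zero =>
    have h0 : z = 0 := by
      apply Subtype.ext; funext l
      rcases l with _ | ⟨⟨a, b⟩, l⟩
      · exact h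
      · have hab : b = a := Subsingleton.elim (α := Fin 1) b a
        rw [hab]
        exact z.2.self [] l a
    rw [h0]
    exact Submodule.zero_mem _
  | succ n ih =>
    rw [evT_barDel] at h
    obtain ⟨v, hv⟩ := barDel_inj TT (iT.map_Z hz) (ih (barDel_Z TT (iT.map_Z hz)) h)
    have h1 : sT.app (n + 1) (iT.app (n + 1) z) = TT.d (n + 1) (sT.app (n + 2) v) := by
      rw [← hv]
      exact sT.map_d v
    have hs := A3H_split z
    rw [h1] at hs
    have hz' : TT.d n z = 0 := hz
    have h2 : (z.1 [] * ((n + 2 : ℕ) : ZMod 2)) • A3H_one n = 0 := by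
      rw [← hz']
      conv_rhs => rw [hs]
      rw [map_add, SV.d_d, zero_add, map_smul, A3H_one_d, smul_smul]
    have h3 : z.1 [] * ((n + 2 : ℕ) : ZMod 2) = 0 := by
      have h4 : z.1 [] * ((n + 2 : ℕ) : ZMod 2) * 1 = 0 :=
        congrArg (fun f : TT.V n => f.1 []) h2
      rwa [mul_one] at h4
    rcases A3H_cast n with hc | ⟨-, hc⟩
    · rw [hc, mul_one] at h3
      rw [h3, zero_smul, add_zero] at hs
      exact ⟨_, hs.symm⟩
    · refine ⟨sT.app (n + 2) v + z.1 [] • A3H_one (n + 2), ?_⟩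
      rw [map_add, map_smul, A3H_one_d, hc, one_smul]
      exact hs.symm

theorem TT_exists (n : ℕ) : ∃ z ∈ TT.Z n, evT n z = 1 := by
  induction n with
  | zero => exact ⟨A3H_one 0, Submodule.mem_top, rfl⟩
  | succ n ih =>
    obtain ⟨z, hz, hz1⟩ := ih
    obtain ⟨v, hv, hvz⟩ := barDel_surj TT hz
    refine ⟨sT.app (n + 1) v, sT.map_Z hv, ?_⟩
    rw [evT_barDel, iT_sT]
    have h1 := evT_B hvz
    rw [map_add] at h1
    rw [CharTwo.add_eq_zero.1 h1]
    exact hz1

/-- evaluation on homology -/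
noncomputable def evH (n : ℕ) : Module.Dual (ZMod 2) (TT.H n) :=
  Submodule.liftQ _ ((evT n).comp (TT.Z n).subtype) (by
    rintro ⟨z, hz⟩ hz'
    exact evT_B hz')

theorem evH_cls (n : ℕ) (z : TT.V n) (hz : z ∈ TT.Z n) : evH n (TT.cls z hz) = evT n z := rfl

theorem evH_bijective (n : ℕ) : Function.Bijective (evH n) := by
  constructor
  · rw [injective_iff_map_eq_zero]
    intro x hx
    obtain ⟨⟨z, hz⟩, rfl⟩ := Submodule.Quotient.mk_surjective _ x
    have h1 : evT n z = 0 := hx
    rw [Submodule.Quotient.mk_eq_zero]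
    exact TT_mem_B hz h1
  · intro c
    obtain ⟨z, hz, hz1⟩ := TT_exists n
    refine ⟨c • TT.cls z hz, ?_⟩
    rw [map_smul, evH_cls, hz1, smul_eq_mul, mul_one]

end MM

end

/-! ### from `Lib_MP_33f7bb_d.A3C1` -/

section

/-!
# A3-07: cohomology classes as homotopy classes of maps into `TT`

The class of degree `n` of `a : Z → TT` is `clW (evH n) a`, its value on a cycle `z` is `evT n (linExt a z)`.
* `htp_TT_iff`: `htp_iff` (A008) and `TT_mem_B`, `evT_B`: a cycle `w ∈ TT.Z n` is a boundary iff `evT n w = 0`.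
* `TT_surj`: `exists_hom` (A009) for `lin Z → TT` with `φ_n = (evH n)⁻¹ ∘ y n` (`evH_bijective`); the linear map `f` is
  `linHom` of `x ↦ f (single x 1)`.
* `clT_homPr`: `evT n` only sees lists of length `n` (`pathL_length`), and `linExt (homPr n a) = prT n (linExt a)`.
* `exists_homog`: `TT_surj` for the element concentrated in degree `n`, then `homPr n`.
* `htp_homPr`: `htp_TT_iff` and the previous facts.
-/

open scoped TensorProduct

namespace MM

theorem clT_cls {Z : SS} (n : ℕ) (a : Hom Z TT.ss) (z : Ch Z n) (hz : z ∈ (lin Z).Z n) :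
    clW (evH n) a ((lin Z).cls z hz) = evT n (linExt a.app n z) := rfl

private theorem A3C1_ext {Z : SS} {n : ℕ} {f g : Hc Z n}
    (h : ∀ (z : Ch Z n) (hz : z ∈ (lin Z).Z n), f ((lin Z).cls z hz) = g ((lin Z).cls z hz)) :
    f = g := by
  refine LinearMap.ext fun x => ?_
  obtain ⟨⟨z, hz⟩, rfl⟩ := Submodule.Quotient.mk_surjective _ x
  exact h z hz

private theorem A3C1_Z {Z : SS} (a : Hom Z TT.ss) {n : ℕ} {z : Ch Z n} (hz : z ∈ (lin Z).Z n) :
    linExt (W := TT) a.app n z ∈ TT.Z n := (linHom a).map_Z hz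

theorem htp_TT_iff {Z : SS} (a b : Hom Z TT.ss) :
    Htp a b ↔ ∀ n, clW (evH n) a = clW (evH n) b := by
  rw [htp_iff TT a b]
  constructor
  · intro h n
    refine A3C1_ext fun z hz => ?_
    rw [clT_cls, clT_cls]
    have h1 := evT_B (h n z hz)
    rw [map_add] at h1
    exact CharTwo.add_eq_zero.1 h1
  · intro h n z hz
    refine TT_mem_B (Submodule.add_mem _ (A3C1_Z a hz) (A3C1_Z b hz)) ?_
    have h1 := congrArg (fun f : Hc Z n => f ((lin Z).cls z hz)) (h n)
    rw [clT_cls, clT_cls] at h1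
    rw [map_add, h1]
    exact CharTwo.add_self_eq_zero _

theorem TT_surj {Z : SS} (y : CR Z) : ∃ a : Hom Z TT.ss, ∀ n, clW (evH n) a = y n := by
  obtain ⟨f, hf⟩ := exists_hom (P := lin Z) (Q := TT) (fun n =>
    ((LinearEquiv.ofBijective (evH n) (evH_bijective n)).symm.toLinearMap).comp (y n))
  let a : Hom Z TT.ss := ⟨fun n x => f.app n (Finsupp.single x 1), fun {m n} g x => by
    show f.app m (Finsupp.single (Z.act g x) 1) = TT.act g (f.app n (Finsupp.single x 1))
    rw [← f.nat]
    congr 1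
    show _ = Finsupp.mapDomain (Z.act g) (Finsupp.single x 1)
    rw [Finsupp.mapDomain_single]⟩
  have ha : ∀ n, linExt (W := TT) a.app n = f.app n := by
    intro n
    refine Finsupp.lhom_ext fun x c => ?_
    rw [linExt_single]
    show c • f.app n (Finsupp.single x 1) = f.app n (Finsupp.single x c)
    rw [← map_smul, Finsupp.smul_single, smul_eq_mul, mul_one]
  refine ⟨a, fun n => A3C1_ext fun z hz => ?_⟩
  rw [clT_cls, ha]
  obtain ⟨hfz, h⟩ := hf n z hz
  rw [← evH_cls n _ hfz, h]
  exact (LinearEquiv.ofBijective (evH n) (evH_bijective n)).apply_symm_apply _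

/-- homogeneous component of a map into `TT` -/
def homPr (n : ℕ) {Z : SS} (a : Hom Z TT.ss) : Hom Z TT.ss :=
  ⟨fun m x => (prT n).app m (a.app m x), fun {m k} f x => by
    show (prT n).app m (a.app m (Z.act f x)) = TT.act f ((prT n).app k (a.app k x))
    rw [a.nat]; exact (prT n).nat f _⟩

theorem homPr_isHom (n : ℕ) {Z : SS} (a : Hom Z TT.ss) (k : ℕ) (x : Z.S k) :
    IsHom n ((homPr n a).app k x).1 := prT_isHom n _

theorem homPr_of_isHom {n : ℕ} {Z : SS} {a : Hom Z TT.ss}
    (ha : ∀ k x, IsHom n (a.app k x).1) : homPr n a = a := by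
  refine Hom.ext (funext fun k => funext fun x => Subtype.ext (funext fun l => ?_))
  show (if l.length = n then (a.app k x).1 l else 0) = (a.app k x).1 l
  split_ifs with h
  · rfl
  · exact (ha k x l h).symm

private theorem A3C1_linExt (n : ℕ) {Z : SS} (a : Hom Z TT.ss) (k : ℕ) (z : Ch Z k) :
    linExt (W := TT) (homPr n a).app k z = (prT n).app k (linExt (W := TT) a.app k z) := by
  have h : linExt (W := TT) (homPr n a).app k =
      ((prT n).app k).comp (linExt (W := TT) a.app k) := by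
    refine Finsupp.lhom_ext fun x c => ?_
    rw [linExt_single]
    show c • (prT n).app k (a.app k x) = (prT n).app k (linExt a.app k (Finsupp.single x c))
    rw [linExt_single, map_smul]
  rw [h]
  rfl

theorem clT_homPr (n : ℕ) {Z : SS} (a : Hom Z TT.ss) :
    clW (evH n) (homPr n a) = clW (evH n) a := by
  refine A3C1_ext fun z hz => ?_
  rw [clT_cls, clT_cls, A3C1_linExt, evT_apply, prT_apply, if_pos (pathL_length n)]
  rfl

theorem clT_of_isHom {n m : ℕ} (hm : m ≠ n) {Z : SS} {a : Hom Z TT.ss}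
    (ha : ∀ k x, IsHom n (a.app k x).1) : clW (evH m) a = 0 := by
  refine A3C1_ext fun z hz => ?_
  rw [clT_cls, ← homPr_of_isHom ha, A3C1_linExt, evT_apply, prT_apply,
    if_neg (by rw [pathL_length]; exact hm)]
  rfl

theorem exists_homog {Z : SS} (n : ℕ) (y : Hc Z n) :
    ∃ a : Hom Z TT.ss, (∀ k x, IsHom n (a.app k x).1) ∧ clW (evH n) a = y := by
  obtain ⟨a, ha⟩ := TT_surj (CR.hom n y)
  refine ⟨homPr n a, homPr_isHom n a, ?_⟩
  rw [clT_homPr, ha n]
  exact Pi.single_eq_same (M := fun n => Hc Z n) n y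

theorem htp_homPr {Z : SS} (n : ℕ) {a b : Hom Z TT.ss}
    (h : clW (evH n) a = clW (evH n) b) : Htp (homPr n a) (homPr n b) := by
  rw [htp_TT_iff]
  intro m
  by_cases hm : m = n
  · subst hm
    rw [clT_homPr, clT_homPr, h]
  · rw [clT_of_isHom hm (homPr_isHom n a), clT_of_isHom hm (homPr_isHom n b)]

/-- the total class of a map into `TT` -/
noncomputable def clA {Z : SS} (a : Hom Z TT.ss) : CR Z := fun n => clW (evH n) a

theorem clA_isHom {Z : SS} {n : ℕ} {a : Hom Z TT.ss} (ha : ∀ k x, IsHom n (a.app k x).1) :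
    clA a = CR.hom n (clW (evH n) a) := by
  funext m
  by_cases hm : m = n
  · subst hm
    exact (Pi.single_eq_same (M := fun n => Hc Z n) m _).symm
  · exact (clT_of_isHom hm ha).trans
      (Pi.single_eq_of_ne (M := fun n => Hc Z n) hm _).symm

end MM

end

/-! ### from `Lib_MP_33f7bb_d.A3C2` -/

section

/-!
# A3-08: the shuffle cross product of additive functions, evaluated at the path

`shuffle_ev`.  `(a, b)` runs over the pairs of monotone maps `a : [n] → [p]`, `b : [n] → [q]` with `a i + b i = i`; so every step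
`i → i+1` increases exactly one of `a`, `b` by one (`a i ≤ a (i+1)`, `b i ≤ b (i+1)`, sum increases by one).
`(TT.act a f).1 (stepL n w) = f.1 ((stepL n w).map (prMap a))` vanishes if `a i = a (i+1)` for some `i` with `w i` (the list then
contains a pair `(c, c)`; `IsAdd.self`), and `(TT.act b g).1 (stepL n (!w))` vanishes if `b i = b (i+1)` for some `i` with `¬ w i`.
So only `(a, b)` with: `w i ↔` step `i` increases `a`, can contribute; then `a i = #{j < i : w j}`, `b i = #{j < i : ¬ w j}`, and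
`#{j : w j} = a n = p` (as `a n ≤ p`, `b n ≤ q`, `a n + b n = n = p + q`).  If `#{j : w j} = p` this pair exists, and
`(stepL n w).map (prMap a) = pathL p` (the `k`-th step with `w` is mapped to `(k, k+1)`), same for `b`.
(Possible formal proof: induction on `n`, splitting off the last step; or: bijectivity/injectivity arguments for
`List.filter`; `a` restricted to the increasing steps enumerates `0, …, p-1`.)

`ev_mulTT_crs`: `ncmul F G (pathL n) = ∑_(k ≤ n) F ((pathL n).take k) * G ((pathL n).drop k)` (`ncmul_eq_sum`,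
`pathL_length`), `(pathL n).take k = stepL n (· < k)`, `(pathL n).drop k = stepL n (k ≤ ·)`; `shuffle_ev` for each `k`; only
`k = p` contributes.  (`crs n f g` is a sum over `(a, b)`; `mulTT.app n (x ⊗ y) = tmul x y`.)
`ev_kap0_crs`: `kap_zero` and `evens (pathL (2 n)) = stepL (2 n) (even)`, `odds (pathL (2 n)) = stepL (2 n) (odd)`; the number of
even `i < 2 n` is `n`.
`evH_mulTT`, `evH_kap0`: `boxF_ext`: both sides have the same value on `crs n x y`, `x`, `y` cycles of degrees `p`, `q`,
`p + q = n` (`boxF_crs`, `boxF_crs_ne`).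
-/

open scoped TensorProduct

namespace MM

/-! ### counting -/

/-- extension of `w` to the natural numbers -/
private def A3C2_ext {n : ℕ} (w : Fin n → Bool) (j : ℕ) : Bool :=
  if h : j < n then w ⟨j, h⟩ else false

private theorem A3C2_ext_val {n : ℕ} (w : Fin n → Bool) (i : Fin n) : A3C2_ext w i = w i :=
  dif_pos i.2

private theorem A3C2_ext_lt {n : ℕ} (w : Fin n → Bool) {i : ℕ} (h : i < n) :
    A3C2_ext w i = w ⟨i, h⟩ := dif_pos h

/-- the number of `j < i` with `W j` -/
private def A3C2_cnt (W : ℕ → Bool) (i : ℕ) : ℕ :=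
  ∑ j ∈ Finset.range i, if W j = true then 1 else 0

private theorem A3C2_cnt_zero (W : ℕ → Bool) : A3C2_cnt W 0 = 0 := rfl

private theorem A3C2_cnt_succ (W : ℕ → Bool) (i : ℕ) :
    A3C2_cnt W (i + 1) = A3C2_cnt W i + if W i = true then 1 else 0 := Finset.sum_range_succ _ _

private theorem A3C2_cnt_mono (W : ℕ → Bool) : Monotone (A3C2_cnt W) :=
  monotone_nat_of_le_succ fun i => by
    rw [A3C2_cnt_succ]
    exact Nat.le_add_right _ _

private theorem A3C2_cnt_compl {n : ℕ} (w : Fin n → Bool) {i : ℕ} (hi : i ≤ n) :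
    A3C2_cnt (A3C2_ext w) i + A3C2_cnt (A3C2_ext fun i => !w i) i = i := by
  induction i with
  | zero => rfl
  | succ i ih =>
    have h := ih (by omega)
    have hn : i < n := by omega
    rw [A3C2_cnt_succ, A3C2_cnt_succ, A3C2_ext_lt w hn, A3C2_ext_lt (fun i => !w i) hn]
    cases w ⟨i, hn⟩
    · simp only [Bool.not_false, if_true, if_neg (Bool.false_ne_true)]
      omega
    · simp only [Bool.not_true, if_true, if_neg (Bool.false_ne_true)]
      omega

private theorem A3C2_card {n : ℕ} (w : Fin n → Bool) :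
    (Finset.univ.filter (fun i => w i = true)).card = A3C2_cnt (A3C2_ext w) n := by
  rw [Finset.card_filter, A3C2_cnt, Finset.sum_range]
  refine Finset.sum_congr rfl fun i _ => ?_
  rw [A3C2_ext_val]

private theorem A3C2_list (W : ℕ → Bool) (n : ℕ) :
    ((List.range n).filter W).map (fun i => (A3C2_cnt W i, A3C2_cnt W (i + 1))) =
      (List.range (A3C2_cnt W n)).map (fun k => (k, k + 1)) := by
  induction n with
  | zero => rfl
  | succ n ih =>
    rw [List.range_succ, List.filter_append, List.map_append, ih, A3C2_cnt_succ]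
    cases h : W n
    · simp [h]
    · simp [h, List.range_succ, A3C2_cnt_succ]

/-- the values of a pair -/
private def A3C2_v {p : ℕ} (x : PR p) : ℕ × ℕ := (x.1, x.2)

private theorem A3C2_v_inj {p : ℕ} : Function.Injective (A3C2_v (p := p)) := by
  rintro ⟨a, b⟩ ⟨c, d⟩ h
  have h1 : (a : ℕ) = c := congrArg Prod.fst h
  have h2 : (b : ℕ) = d := congrArg Prod.snd h
  exact Prod.ext (Fin.ext h1) (Fin.ext h2)

private theorem A3C2_step_map {n : ℕ} (w : Fin n → Bool) (G : ℕ → ℕ × ℕ) (φ : PR n → ℕ × ℕ)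
    (h : ∀ i : Fin n, φ (i.castSucc, i.succ) = G i) :
    (stepL n w).map φ = ((List.range n).filter (A3C2_ext w)).map G := by
  rw [stepL, List.map_map, ← List.map_coe_finRange_eq_range, List.filter_map, List.map_map]
  have h1 : (A3C2_ext w) ∘ (fun i : Fin n => (i : ℕ)) = w := funext fun i => dif_pos i.2
  rw [h1]
  exact List.map_congr_left fun i _ => h i

/-- the steps counted by `w` are mapped to the path -/
private theorem A3C2_path {n p : ℕ} (w : Fin n → Bool) (a : Mo n p)
    (ha : ∀ i : Fin (n + 1), (a i : ℕ) = A3C2_cnt (A3C2_ext w) i)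
    (hp : A3C2_cnt (A3C2_ext w) n = p) : (stepL n w).map (prMap a) = pathL p := by
  apply List.map_injective_iff.2 (A3C2_v_inj (p := p))
  rw [List.map_map, A3C2_step_map w (fun i => (A3C2_cnt (A3C2_ext w) i,
    A3C2_cnt (A3C2_ext w) (i + 1))) (A3C2_v ∘ prMap a), A3C2_list, hp, pathL,
    A3C2_step_map _ (fun k => (k, k + 1)) A3C2_v (fun i => rfl)]
  · congr 1
    symm
    rw [List.filter_eq_self]
    intro j hj
    exact A3C2_ext_lt _ (List.mem_range.1 hj)
  · intro i
    show ((a i.castSucc : ℕ), (a i.succ : ℕ)) = _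
    rw [ha, ha]
    rfl

private theorem A3C2_van {n p : ℕ} (f : TT.V p) (a : Mo n p) (w : Fin n → Bool) (i : Fin n)
    (hw : w i = true) (h : a i.castSucc = a i.succ) : (TT.act a f).1 (stepL n w) = 0 := by
  rw [TT_act_apply]
  have hm : (i.castSucc, i.succ) ∈ stepL n w :=
    List.mem_map.2 ⟨i, List.mem_filter.2 ⟨List.mem_finRange i, hw⟩, rfl⟩
  obtain ⟨s, t, hst⟩ := List.append_of_mem hm
  rw [hst, List.map_append, List.map_cons]
  show f.1 (s.map (prMap a) ++ (a i.castSucc, a i.succ) :: t.map (prMap a)) = 0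
  rw [h]
  exact IsAdd.self f.2 _ _ _

private theorem A3C2_forced {n p q : ℕ} (a : Mo n p) (b : Mo n q) (w : Fin n → Bool)
    (hab : ∀ i, ((a i : ℕ) + (b i : ℕ) = (i : ℕ)))
    (ha : ∀ i : Fin n, w i = true → a i.castSucc ≠ a i.succ)
    (hb : ∀ i : Fin n, w i = false → b i.castSucc ≠ b i.succ) (i : Fin (n + 1)) :
    (a i : ℕ) = A3C2_cnt (A3C2_ext w) i := by
  induction i using Fin.induction with
  | zero =>
    have h1 := hab 0
    have h2 : ((0 : Fin (n + 1)) : ℕ) = 0 := rfl
    rw [h2] at h1 ⊢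
    rw [A3C2_cnt_zero]
    omega
  | succ i ih =>
    have h1 := hab i.castSucc
    have h2 := hab i.succ
    have h3 : (a i.castSucc : ℕ) ≤ a i.succ := a.monotone (Fin.castSucc_le_succ i)
    have h4 : (b i.castSucc : ℕ) ≤ b i.succ := b.monotone (Fin.castSucc_le_succ i)
    rw [Fin.val_castSucc] at h1 ih
    rw [Fin.val_succ] at h2 ⊢
    rw [A3C2_cnt_succ, A3C2_ext_val, ← ih]
    cases hw : w i
    · have h5 : (b i.castSucc : ℕ) ≠ b i.succ := fun h => hb i hw (Fin.ext h)
      rw [if_neg Bool.false_ne_true]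
      omega
    · have h5 : (a i.castSucc : ℕ) ≠ a i.succ := fun h => ha i hw (Fin.ext h)
      rw [if_pos rfl]
      omega

theorem shuffle_ev {p q n : ℕ} (h : p + q = n) (w : Fin n → Bool) (f : TT.V p) (g : TT.V q) :
    (∑ a : Mo n p, ∑ b : Mo n q, open Classical in
      if (p + q = n ∧ ∀ i, ((a i : ℕ) + (b i : ℕ) = (i : ℕ))) then
        (TT.act a f).1 (stepL n w) * (TT.act b g).1 (stepL n (fun i => !w i)) else 0) =
      if (Finset.univ.filter (fun i => w i = true)).card = p then evT p f * evT q g else 0 := by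
  classical
  rw [A3C2_card]
  have key : ∀ (a : Mo n p) (b : Mo n q), (∀ i, ((a i : ℕ) + (b i : ℕ) = (i : ℕ))) →
      (TT.act a f).1 (stepL n w) * (TT.act b g).1 (stepL n (fun i => !w i)) ≠ 0 →
      ∀ i : Fin (n + 1), (a i : ℕ) = A3C2_cnt (A3C2_ext w) i := by
    intro a b hab hne
    refine A3C2_forced a b w hab (fun i hi h1 => hne ?_) (fun i hi h1 => hne ?_)
    · rw [A3C2_van f a w i hi h1, zero_mul]
    · rw [A3C2_van g b (fun i => !w i) i (by
        show (!w i) = true
        rw [hi]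
        rfl) h1, mul_zero]
  by_cases hc : A3C2_cnt (A3C2_ext w) n = p
  · have hq : A3C2_cnt (A3C2_ext fun i => !w i) n = q := by
      have := A3C2_cnt_compl w (le_refl n)
      omega
    rw [if_pos hc]
    let a₀ : Mo n p := ⟨fun i => ⟨A3C2_cnt (A3C2_ext w) i, by
      have := A3C2_cnt_mono (A3C2_ext w) (Nat.lt_succ_iff.1 i.2)
      omega⟩, fun i j hij => A3C2_cnt_mono _ hij⟩
    let b₀ : Mo n q := ⟨fun i => ⟨A3C2_cnt (A3C2_ext fun i => !w i) i, by
      have := A3C2_cnt_mono (A3C2_ext fun i => !w i) (Nat.lt_succ_iff.1 i.2)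
      omega⟩, fun i j hij => A3C2_cnt_mono _ hij⟩
    have hab : ∀ i, ((a₀ i : ℕ) + (b₀ i : ℕ) = (i : ℕ)) :=
      fun i => A3C2_cnt_compl w (Nat.lt_succ_iff.1 i.2)
    rw [Finset.sum_eq_single a₀, Finset.sum_eq_single b₀, if_pos ⟨h, hab⟩, TT_act_apply,
      TT_act_apply, A3C2_path w a₀ (fun _ => rfl) hc, A3C2_path _ b₀ (fun _ => rfl) hq]
    · rfl
    · intro b _ hb
      by_cases h1 : p + q = n ∧ ∀ i, ((a₀ i : ℕ) + (b i : ℕ) = (i : ℕ))
      · exfalso
        apply hb
        ext i
        have h2 := h1.2 i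
        have h3 := hab i
        omega
      · rw [if_neg h1]
    · intro h1
      exact absurd (Finset.mem_univ _) h1
    · intro a _ ha
      refine Finset.sum_eq_zero fun b _ => ?_
      by_cases h1 : p + q = n ∧ ∀ i, ((a i : ℕ) + (b i : ℕ) = (i : ℕ))
      · rw [if_pos h1]
        by_contra hne
        apply ha
        ext i
        exact key a b h1.2 hne i
      · rw [if_neg h1]
    · intro h1
      exact absurd (Finset.mem_univ _) h1
  · rw [if_neg hc]
    refine Finset.sum_eq_zero fun a _ => Finset.sum_eq_zero fun b _ => ?_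
    by_cases h1 : p + q = n ∧ ∀ i, ((a i : ℕ) + (b i : ℕ) = (i : ℕ))
    · rw [if_pos h1]
      by_contra hne
      have h2 := key a b h1.2 hne (Fin.last n)
      have h3 := h1.2 (Fin.last n)
      have h4 := (a (Fin.last n)).2
      have h5 := (b (Fin.last n)).2
      rw [Fin.val_last] at h2 h3
      omega
    · rw [if_neg h1]

/-! ### the three lists -/

private theorem A3C2_split {X : Type} (P : X → Bool) {l l₁ l₂ : List X} (h : l = l₁ ++ l₂)
    (h₁ : ∀ x ∈ l₁, P x = true) (h₂ : ∀ x ∈ l₂, P x = false) :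
    l.filter P = l₁ ∧ l.filter (fun x => !P x) = l₂ := by
  subst h
  have e1 : l₁.filter P = l₁ := List.filter_eq_self.2 h₁
  have e2 : l₂.filter P = [] := List.filter_eq_nil_iff.2 fun x hx => by
    rw [h₂ x hx]
    exact Bool.false_ne_true
  have e3 : l₁.filter (fun x => !P x) = [] := List.filter_eq_nil_iff.2 fun x hx => by
    rw [h₁ x hx]
    exact Bool.false_ne_true
  have e4 : l₂.filter (fun x => !P x) = l₂ := List.filter_eq_self.2 fun x hx => by
    rw [h₂ x hx]
    rfl
  rw [List.filter_append, List.filter_append, e1, e2, e3, e4]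
  exact ⟨List.append_nil _, List.nil_append _⟩

private theorem A3C2_split_path (n k : ℕ) :
    (pathL n).take k = stepL n (fun i => decide ((i : ℕ) < k)) ∧
      (pathL n).drop k = stepL n (fun i => !decide ((i : ℕ) < k)) := by
  have h := A3C2_split (fun i : Fin n => decide ((i : ℕ) < k)) (l := List.finRange n)
    (List.take_append_drop k _).symm (fun x hx => by
      obtain ⟨i, hi, rfl⟩ := List.mem_take_iff_getElem.1 hx
      rw [List.getElem_finRange, decide_eq_true_iff]
      show i < k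
      omega) (fun x hx => by
      obtain ⟨i, hi, rfl⟩ := List.mem_drop_iff_getElem.1 hx
      rw [List.getElem_finRange, decide_eq_false_iff_not]
      show ¬ (k + i < k)
      omega)
  have h1 : (List.finRange n).filter (fun _ => true) = List.finRange n :=
    List.filter_eq_self.2 fun _ _ => rfl
  rw [pathL, stepL, h1, ← List.map_take, ← List.map_drop, stepL, stepL, h.1, h.2]
  exact ⟨rfl, rfl⟩

private theorem A3C2_evens_map {X Y : Type} (φ : X → Y) (l : List X) :
    evens (l.map φ) = (evens l).map φ := by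
  induction l using list_ind2 with
  | h0 => rfl
  | h1 x => rfl
  | h2 x y l ih =>
    show φ x :: evens (l.map φ) = φ x :: (evens l).map φ
    rw [ih]

private theorem A3C2_odds_map {X Y : Type} (φ : X → Y) (l : List X) :
    odds (l.map φ) = (odds l).map φ := by
  induction l using list_ind2 with
  | h0 => rfl
  | h1 x => rfl
  | h2 x y l ih =>
    show φ y :: odds (l.map φ) = φ y :: (odds l).map φ
    rw [ih]

private theorem A3C2_eo (n s : ℕ) (hs : s % 2 = 0) :
    evens (List.range' s (2 * n)) = (List.range' s (2 * n)).filter (fun j => decide (j % 2 = 0)) ∧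
      odds (List.range' s (2 * n)) =
        (List.range' s (2 * n)).filter (fun j => !decide (j % 2 = 0)) := by
  induction n generalizing s with
  | zero => exact ⟨rfl, rfl⟩
  | succ n ih =>
    have h := ih (s + 2) (by omega)
    have h1 : (decide (s % 2 = 0)) = true := decide_eq_true hs
    have h2 : (decide ((s + 1) % 2 = 0)) = false := decide_eq_false (by omega)
    have h3 : List.range' s (2 * (n + 1)) = s :: (s + 1) :: List.range' (s + 2) (2 * n) := by
      rw [show 2 * (n + 1) = 2 * n + 1 + 1 by ring, List.range'_succ, List.range'_succ]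
    rw [h3]
    constructor
    · show s :: evens (List.range' (s + 2) (2 * n)) = _
      rw [List.filter_cons, List.filter_cons, h1, h2, h.1]
      rfl
    · show (s + 1) :: odds (List.range' (s + 2) (2 * n)) = _
      rw [List.filter_cons, List.filter_cons, h1, h2, h.2]
      rfl

private theorem A3C2_eo_path (n : ℕ) :
    evens (pathL (2 * n)) = stepL (2 * n) (fun i => decide ((i : ℕ) % 2 = 0)) ∧
      odds (pathL (2 * n)) = stepL (2 * n) (fun i => !decide ((i : ℕ) % 2 = 0)) := by
  have h0 := A3C2_eo n 0 rfl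
  rw [← List.range_eq_range', ← List.map_coe_finRange_eq_range, A3C2_evens_map, A3C2_odds_map,
    List.filter_map, List.filter_map] at h0
  have hi : Function.Injective (fun i : Fin (2 * n) => (i : ℕ)) := fun _ _ h => Fin.ext h
  have h1 := List.map_injective_iff.2 hi h0.1
  have h2 := List.map_injective_iff.2 hi h0.2
  have h3 : (List.finRange (2 * n)).filter (fun _ => true) = List.finRange (2 * n) :=
    List.filter_eq_self.2 fun _ _ => rfl
  rw [pathL, stepL, h3, A3C2_evens_map, A3C2_odds_map, h1, h2]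
  exact ⟨rfl, rfl⟩

private theorem A3C2_card_lt {n k : ℕ} (hk : k ≤ n) :
    (Finset.univ.filter (fun i : Fin n => decide ((i : ℕ) < k) = true)).card = k := by
  rw [A3C2_card, A3C2_cnt]
  have h1 : ∀ j ∈ Finset.range n, (if A3C2_ext (fun i : Fin n => decide ((i : ℕ) < k)) j = true
      then 1 else 0) = if j < k then 1 else 0 := by
    intro j hj
    rw [A3C2_ext_lt _ (Finset.mem_range.1 hj)]
    exact if_congr decide_eq_true_iff rfl rfl
  rw [Finset.sum_congr rfl h1, ← Finset.card_filter]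
  have h2 : (Finset.range n).filter (fun j => j < k) = Finset.range k := by
    ext j
    rw [Finset.mem_filter, Finset.mem_range, Finset.mem_range]
    omega
  rw [h2, Finset.card_range]

private theorem A3C2_card_even (n : ℕ) :
    (Finset.univ.filter (fun i : Fin (2 * n) => decide ((i : ℕ) % 2 = 0) = true)).card = n := by
  rw [A3C2_card, A3C2_cnt]
  have h1 : ∀ j ∈ Finset.range (2 * n),
      (if A3C2_ext (fun i : Fin (2 * n) => decide ((i : ℕ) % 2 = 0)) j = true
      then 1 else 0) = if j % 2 = 0 then 1 else 0 := by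
    intro j hj
    rw [A3C2_ext_lt _ (Finset.mem_range.1 hj)]
    exact if_congr decide_eq_true_iff rfl rfl
  rw [Finset.sum_congr rfl h1]
  induction n with
  | zero => rfl
  | succ n ih =>
    rw [show 2 * (n + 1) = 2 * n + 1 + 1 by ring, Finset.sum_range_succ, Finset.sum_range_succ,
      ih (fun j hj => by
        rw [A3C2_ext_lt _ (Finset.mem_range.1 hj)]
        exact if_congr decide_eq_true_iff rfl rfl),
      if_pos (by omega), if_neg (by omega)]

/-! ### evaluation of cross products -/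

theorem ev_mulTT_crs {p q n : ℕ} (h : p + q = n) (f : TT.V p) (g : TT.V q) :
    evT n (mulTT.app n (crs n f g)) = evT p f * evT q g := by
  classical
  have e1 : evT n (mulTT.app n (crs n f g)) = ∑ a : Mo n p, ∑ b : Mo n q,
      ∑ k ∈ Finset.range (n + 1),
      if (p + q = n ∧ ∀ i, ((a i : ℕ) + (b i : ℕ) = (i : ℕ))) then
        (TT.act a f).1 (stepL n (fun i => decide ((i : ℕ) < k))) *
          (TT.act b g).1 (stepL n (fun i => !decide ((i : ℕ) < k))) else 0 := by
    rw [crs, map_sum, map_sum]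
    refine Finset.sum_congr rfl fun a _ => ?_
    rw [map_sum, map_sum]
    refine Finset.sum_congr rfl fun b _ => ?_
    by_cases hc : p + q = n ∧ ∀ i, ((a i : ℕ) + (b i : ℕ) = (i : ℕ))
    · rw [if_pos hc, mulTT_tmul, evT_apply, tmul_apply, ncmul_eq_sum, pathL_length]
      refine Finset.sum_congr rfl fun k _ => ?_
      rw [if_pos hc, (A3C2_split_path n k).1, (A3C2_split_path n k).2]
    · rw [if_neg hc, map_zero, map_zero]
      symm
      exact Finset.sum_eq_zero fun k _ => if_neg hc
  rw [e1]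
  have e2 : ∀ a : Mo n p, (∑ b : Mo n q, ∑ k ∈ Finset.range (n + 1),
      if (p + q = n ∧ ∀ i, ((a i : ℕ) + (b i : ℕ) = (i : ℕ))) then
        (TT.act a f).1 (stepL n (fun i => decide ((i : ℕ) < k))) *
          (TT.act b g).1 (stepL n (fun i => !decide ((i : ℕ) < k))) else 0) =
      ∑ k ∈ Finset.range (n + 1), ∑ b : Mo n q,
      if (p + q = n ∧ ∀ i, ((a i : ℕ) + (b i : ℕ) = (i : ℕ))) then
        (TT.act a f).1 (stepL n (fun i => decide ((i : ℕ) < k))) *
          (TT.act b g).1 (stepL n (fun i => !decide ((i : ℕ) < k))) else 0 :=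
    fun a => Finset.sum_comm
  rw [Finset.sum_congr rfl fun a _ => e2 a, Finset.sum_comm]
  have e3 : ∀ k ∈ Finset.range (n + 1), (∑ a : Mo n p, ∑ b : Mo n q,
      if (p + q = n ∧ ∀ i, ((a i : ℕ) + (b i : ℕ) = (i : ℕ))) then
        (TT.act a f).1 (stepL n (fun i => decide ((i : ℕ) < k))) *
          (TT.act b g).1 (stepL n (fun i => !decide ((i : ℕ) < k))) else 0) =
      if k = p then evT p f * evT q g else 0 := by
    intro k hk
    have h1 := shuffle_ev h (fun i => decide ((i : ℕ) < k)) f g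
    rw [A3C2_card_lt (Nat.lt_succ_iff.1 (Finset.mem_range.1 hk))] at h1
    rw [← h1]
  rw [Finset.sum_congr rfl e3, Finset.sum_ite_eq', if_pos (Finset.mem_range.2 (by omega))]

theorem ev_kap0_crs {p q n : ℕ} (h : p + q = 2 * n) (f : TT.V p) (g : TT.V q) :
    evT (2 * n) (kap0.app (2 * n) (crs (2 * n) f g)) = if p = n then evT p f * evT q g else 0 := by
  classical
  have e1 : evT (2 * n) (kap0.app (2 * n) (crs (2 * n) f g)) =
      ∑ a : Mo (2 * n) p, ∑ b : Mo (2 * n) q,
      if (p + q = 2 * n ∧ ∀ i, ((a i : ℕ) + (b i : ℕ) = (i : ℕ))) then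
        (TT.act a f).1 (stepL (2 * n) (fun i => decide ((i : ℕ) % 2 = 0))) *
          (TT.act b g).1 (stepL (2 * n) (fun i => !decide ((i : ℕ) % 2 = 0))) else 0 := by
    rw [crs, map_sum, map_sum]
    refine Finset.sum_congr rfl fun a _ => ?_
    rw [map_sum, map_sum]
    refine Finset.sum_congr rfl fun b _ => ?_
    by_cases hc : p + q = 2 * n ∧ ∀ i, ((a i : ℕ) + (b i : ℕ) = (i : ℕ))
    · rw [if_pos hc, if_pos hc, kap0_tmul, evT_apply, kapT_apply, kap_zero _ _ _ (by
        rw [pathL_length]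
        exact even_two_mul n), (A3C2_eo_path n).1, (A3C2_eo_path n).2]
    · rw [if_neg hc, if_neg hc, map_zero, map_zero]
  rw [e1]
  have h1 := shuffle_ev h (fun i => decide ((i : ℕ) % 2 = 0)) f g
  rw [A3C2_card_even] at h1
  exact h1.trans (if_congr eq_comm rfl rfl)

theorem evH_mulTT (n : ℕ) : (evH n).comp (SV.Hmap mulTT n) =
    ∑ k ∈ Finset.range (n + 1), boxF n (evH k) (evH (n - k)) := by
  apply boxF_ext
  intro p q h x hx y hy
  rw [LinearMap.comp_apply, SV.Hmap_cls, evH_cls, ev_mulTT_crs h, LinearMap.sum_apply,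
    Finset.sum_eq_single p]
  · obtain rfl : q = n - p := by omega
    rw [boxF_crs (by omega) _ _ x hx y hy, evH_cls, evH_cls]
  · intro k _ hk
    exact boxF_crs_ne _ _ (Ne.symm hk) x hx y hy
  · intro h1
    exact absurd (Finset.mem_range.2 (by omega)) h1

theorem evH_kap0 (n : ℕ) : (evH (2 * n)).comp (SV.Hmap kap0 (2 * n)) =
    boxF (2 * n) (evH n) (evH n) := by
  apply boxF_ext
  intro p q h x hx y hy
  rw [LinearMap.comp_apply, SV.Hmap_cls, evH_cls, ev_kap0_crs h]
  by_cases hp : p = n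
  · subst hp
    obtain rfl : q = p := by omega
    rw [if_pos rfl, boxF_crs h _ _ x hx y hy, evH_cls, evH_cls]
  · rw [if_neg hp, boxF_crs_ne _ _ hp x hx y hy]

end MM

end

/-! ### from `Lib_MP_33f7bb_d.A3C3` -/

section

/-!
# A3-09: the class map is multiplicative; the class of `kap_0 (a, b)`

`clW_bil`: for a linear simplicial map `β : V ⊗ W → T`, `a : Z → V`, `b : Z → W`, the map `x ↦ β (a x ⊗ b x)` is
`β ∘ (linHom a ⊗ linHom b) ∘ linDiag Z` on `lin Z` (check on `single x 1`), so its class is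
`(u ∘ H(β)) ∘ H(linHom a ⊗ linHom b) ∘ H(linDiag)`.
`clT_mul`: `evH_mulTT`, `boxF_map` (with `f = linHom a`, `g = linHom b`) and the definition of `cup`.
`clT_kap0`: `evH_kap0`, same argument.
`clA_mul`: `clT_mul` in every degree.
-/

open scoped TensorProduct

namespace MM

/-- `x ↦ β (a x ⊗ b x)` -/
noncomputable def homBil {Z : SS} {V W T : SV} (β : SVHom (V.tens W) T) (a : Hom Z V.ss) (b : Hom Z W.ss) :
    Hom Z T.ss :=
  ⟨fun n x => β.app n ((a.app n x : V.V n) ⊗ₜ[ZMod 2] (b.app n x : W.V n)), fun {m n} f x => by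
    show β.app m ((a.app m (Z.act f x) : V.V m) ⊗ₜ[ZMod 2] (b.app m (Z.act f x) : W.V m)) =
      T.act f (β.app n ((a.app n x : V.V n) ⊗ₜ[ZMod 2] (b.app n x : W.V n)))
    rw [a.nat, b.nat, ← β.nat]
    rfl⟩

private theorem A3C3_linHom_single {Z : SS} {W : SV} (c : Hom Z W.ss) (n : ℕ) (x : Z.S n)
    (r : ZMod 2) : (linHom c).app n (Finsupp.single x r) = r • (c.app n x : W.V n) :=
  linExt_single c.app n x r

private theorem A3C3_fac {Z : SS} {V W T : SV} (β : SVHom (V.tens W) T) (a : Hom Z V.ss)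
    (b : Hom Z W.ss) : linHom (homBil β a b) =
      β.comp (((linHom a).tens (linHom b)).comp (linDiag Z)) := by
  apply SVHom.ext
  funext n
  refine Finsupp.lhom_ext fun x r => ?_
  have h1 : (Finsupp.single x r : Ch Z n) = r • Finsupp.single x 1 := by
    rw [Finsupp.smul_single, smul_eq_mul, mul_one]
  have h2 : (linHom (homBil β a b)).app n (Finsupp.single x 1) =
      (β.comp (((linHom a).tens (linHom b)).comp (linDiag Z))).app n (Finsupp.single x 1) := by
    show _ = β.app n (TensorProduct.map ((linHom a).app n) ((linHom b).app n)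
      ((linDiag Z).app n (Finsupp.single x 1)))
    rw [linDiag_single, TensorProduct.map_tmul, A3C3_linHom_single, A3C3_linHom_single,
      A3C3_linHom_single, one_smul, one_smul, one_smul]
    rfl
  rw [h1, map_smul, map_smul, h2]

theorem clW_bil {Z : SS} {V W T : SV} {n : ℕ} (u : Module.Dual (ZMod 2) (T.H n))
    (β : SVHom (V.tens W) T) (a : Hom Z V.ss) (b : Hom Z W.ss) :
    clW u (homBil β a b) = ((u.comp (SV.Hmap β n)).comp
      (SV.Hmap ((linHom a).tens (linHom b)) n)).comp (SV.Hmap (linDiag Z) n) := by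
  apply LinearMap.ext
  intro z
  show u (SV.Hmap (linHom (homBil β a b)) n z) = u (SV.Hmap β n
    (SV.Hmap ((linHom a).tens (linHom b)) n (SV.Hmap (linDiag Z) n z)))
  rw [A3C3_fac, SV.Hmap_comp, SV.Hmap_comp]

theorem homMul_eq {Z : SS} (a b : Hom Z TT.ss) : homMul a b = homBil mulTT a b := rfl

theorem clT_mul {Z : SS} (n : ℕ) (a b : Hom Z TT.ss) :
    clW (evH n) (homMul a b) =
      ∑ k ∈ Finset.range (n + 1), cup n (clW (evH k) a) (clW (evH (n - k)) b) := by
  rw [homMul_eq, clW_bil, evH_mulTT]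
  apply LinearMap.ext
  intro z
  rw [LinearMap.comp_apply, LinearMap.comp_apply, LinearMap.sum_apply, LinearMap.sum_apply]
  refine Finset.sum_congr rfl fun k _ => ?_
  rw [← LinearMap.comp_apply (boxF n (evH k) (evH (n - k))), boxF_map]
  rfl

theorem clT_kap0 {Z : SS} (n : ℕ) (a b : Hom Z TT.ss) :
    clW (evH (2 * n)) (homBil kap0 a b) = cup (2 * n) (clW (evH n) a) (clW (evH n) b) := by
  rw [clW_bil, evH_kap0, boxF_map]
  rfl

theorem clA_mul {Z : SS} (a b : Hom Z TT.ss) : clA (homMul a b) = clA a * clA b :=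
  funext fun n => clT_mul n a b

theorem clA_add {Z : SS} (a b : Hom Z TT.ss) : clA (homAdd a b) = clA a + clA b :=
  funext fun n => clW_add (evH n) a b

theorem clA_comp {Z Z' : SS} (f : Hom Z Z') (a : Hom Z' TT.ss) :
    clA (a.comp f) = CR.map f (clA a) :=
  funext fun n => clW_comp (evH n) a f

theorem clA_eq_iff {Z : SS} (a b : Hom Z TT.ss) : clA a = clA b ↔ Htp a b := by
  rw [htp_TT_iff]
  exact ⟨fun h n => congrFun h n, fun h => funext h⟩

end MM

end

/-! ### from `Lib_MP_33f7bb_d.A3B2` -/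

section

/-!
# A3-13: the cohomology ring of `B = B(ZMod 2)` is `F[x]`

`xT : B → TT` is the map `b ↦ ([z] ↦ b z.1 + b z.2)`, homogeneous of degree one.
* `clT_xT`: on a `1`-chain: `evT 1 (xT b) = b 0 + b 1 = b 1` (`pathL 1 = [(0,1)]`), both classes are `[z] ↦ ∑_b z b * b 1`
  (for `xB`: `clW_cls`, `K1ev`).
* `clT_xTpow`: let `xTp n` be the `n`-fold product (`xTp 0 =` indicator of `[]`, `xTp (n+1) = homMul xT (xTp n)`).
  `(xTp n b) l = ∏_(z ∈ l) (b z.1 + b z.2)` if `length l = n`, else `0`; so `evT n (xTp n b) = ∏_(i < n) (b i + b (i+1))`, which is `1` if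
  `b = bAlt n` and `0` otherwise (`eq_bAlt_iff`), i.e. the class of `xTp n` is `xP n`.
* `xP_mul`: `clT_mul` (or `clA_mul`) and induction: `cup (n+1) (xP 1) (xP n) = xP (n+1)`, then associativity; or directly:
  `homMul (xTp p) (xTp q) = xTp (p+q)`.
* `xB_pow`: in `CR BZ2`: `(CR.hom 1 xB) ^ n = CR.hom n (xP n)`.
-/

open scoped TensorProduct

namespace MM

private theorem A3B2_ext {n : ℕ} {f g : Hc BZ2 n}
    (h : ∀ (z : Ch BZ2 n) (hz : z ∈ (lin BZ2).Z n),
      f ((lin BZ2).cls z hz) = g ((lin BZ2).cls z hz)) : f = g := by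
  refine LinearMap.ext fun x => ?_
  obtain ⟨⟨z, hz⟩, rfl⟩ := Submodule.Quotient.mk_surjective _ x
  exact h z hz

private theorem A3B2_lin {n : ℕ} (f g : Ch BZ2 n →ₗ[ZMod 2] ZMod 2)
    (h : ∀ b : K1.V n, f (Finsupp.single b 1) = g (Finsupp.single b 1)) (z : Ch BZ2 n) :
    f z = g z := by
  have h1 : f = g := by
    refine Finsupp.lhom_ext fun b c => ?_
    have e : (Finsupp.single b c : Ch BZ2 n) = c • Finsupp.single b 1 := by
      rw [Finsupp.smul_single, smul_eq_mul, mul_one]
    rw [e, map_smul, map_smul, h b]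
  rw [h1]

private theorem A3B2_zero {n : ℕ} (b : K1.V n) : b.1 0 = 0 := by
  have h := b.2
  rwa [LinearMap.mem_ker, LinearMap.proj_apply] at h

private theorem A3B2_path (n : ℕ) :
    pathL n = (List.finRange n).map fun i => (i.castSucc, i.succ) := by
  show ((List.finRange n).filter fun _ => true).map _ = _
  rw [List.filter_true]

/-- the functional `v ↦ v 1` on the chains `K1.V 1` -/
private def A3B2_ev : K1.V 1 →ₗ[ZMod 2] ZMod 2 :=
  { toFun := fun v : K1.V 1 => v.1 1, map_add' := fun _ _ => rfl, map_smul' := fun _ _ => rfl }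

private theorem A3B2_xB (z : Ch BZ2 1) (hz : z ∈ (lin BZ2).Z 1) :
    xB ((lin BZ2).cls z hz) = A3B2_ev (linExt (W := K1) (Hom.id BZ2).app 1 z) := rfl

theorem clT_xT : clW (evH 1) xT = xB := by
  refine A3B2_ext fun z hz => ?_
  rw [clT_cls, A3B2_xB]
  have h := A3B2_lin ((evT 1).comp (linExt (W := TT) xT.app 1))
    (A3B2_ev.comp (linExt (W := K1) (Hom.id BZ2).app 1)) ?_ z
  · exact h
  · intro b
    rw [LinearMap.comp_apply, LinearMap.comp_apply, linExt_single, linExt_single, one_smul,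
      one_smul]
    have h1 : pathL 1 = [(0, 1)] := by rw [A3B2_path]; rfl
    show (xT.app 1 b).1 (pathL 1) = b.1 1
    rw [h1, xT_one]
    show b.1 0 + b.1 1 = b.1 1
    rw [A3B2_zero, zero_add]

theorem xP_one : xP 1 = xB := by
  classical
  refine A3B2_ext fun z hz => ?_
  rw [xP_cls, A3B2_xB]
  have h := A3B2_lin (Finsupp.lapply (bAlt 1))
    (A3B2_ev.comp (linExt (W := K1) (Hom.id BZ2).app 1)) ?_ z
  · exact h
  · intro b
    rw [LinearMap.comp_apply, linExt_single, one_smul, Finsupp.lapply_apply,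
      Finsupp.single_apply]
    show _ = b.1 1
    have h1 : b = bAlt 1 ↔ b.1 1 = 1 := by
      rw [eq_bAlt_iff]
      constructor
      · intro h
        have h2 := h 0
        have h3 : b.1 (Fin.castSucc 0) = 0 := A3B2_zero b
        rw [h3, zero_add] at h2
        exact h2
      · intro h i
        have hi : i = 0 := Subsingleton.elim _ _
        subst hi
        have h3 : b.1 (Fin.castSucc 0) = 0 := A3B2_zero b
        rw [h3, zero_add]
        exact h
    by_cases hb : b = bAlt 1
    · rw [if_pos hb, h1.1 hb]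
    · rw [if_neg hb]
      have h2 : b.1 1 ≠ 1 := fun h => hb (h1.2 h)
      generalize b.1 1 = c at h2
      revert c
      decide

/-- the unit of `TT` as a map -/
private def A3B2_one : Hom BZ2 TT.ss :=
  ⟨fun n _ => ⟨fun l => match l with
      | [] => 1
      | _ :: _ => 0, by
      intro l₁ l₂ a c d
      rcases l₁ with _ | ⟨y, l₁⟩
      · exact (add_zero 0).symm
      · exact (add_zero 0).symm⟩, fun {m n} θ b => by
    apply Subtype.ext; funext l
    rcases l with _ | ⟨x, l⟩
    · rfl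
    · rfl⟩

/-- the powers of `xT` -/
private noncomputable def A3B2_pow : ℕ → Hom BZ2 TT.ss
  | 0 => A3B2_one
  | n + 1 => homMul xT (A3B2_pow n)

private theorem A3B2_isHom (n : ℕ) (k : ℕ) (b : K1.V k) :
    IsHom n ((A3B2_pow n).app k b).1 := by
  induction n with
  | zero =>
    intro l hl
    rcases l with _ | ⟨x, l⟩
    · exact absurd rfl hl
    · rfl
  | succ n ih =>
    have h := (xT_isHom k b).ncmul ih
    rw [add_comm 1 n] at h
    exact h

private theorem A3B2_val (n : ℕ) (k : ℕ) (b : K1.V k) (l : List (PR k)) (hl : l.length = n) :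
    ((A3B2_pow n).app k b).1 l = (l.map fun x => b.1 x.1 + b.1 x.2).prod := by
  induction n generalizing l with
  | zero =>
    rcases l with _ | ⟨x, l⟩
    · rfl
    · exact absurd hl (by simp)
  | succ n ih =>
    rcases l with _ | ⟨x, l⟩
    · exact absurd hl (by simp)
    · have h := ncmul_of_hom (xT_isHom k b) ((A3B2_pow n).app k b).1 (l₁ := [x]) (l₂ := l) rfl
      have h2 : ((A3B2_pow (n + 1)).app k b).1 (x :: l) =
          ncmul (xT.app k b).1 ((A3B2_pow n).app k b).1 ([x] ++ l) := rfl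
      rw [h2, h, xT_one, ih l (by simpa using hl), List.map_cons, List.prod_cons]

private theorem A3B2_mul (p q : ℕ) :
    homMul (A3B2_pow p) (A3B2_pow q) = A3B2_pow (p + q) := by
  refine Hom.ext (funext fun k => funext fun b => Subtype.ext (funext fun l => ?_))
  show ncmul ((A3B2_pow p).app k b).1 ((A3B2_pow q).app k b).1 l =
    ((A3B2_pow (p + q)).app k b).1 l
  by_cases hl : l.length = p + q
  · have h1 : (l.take p).length = p := by rw [List.length_take]; omega
    have h2 : (l.drop p).length = q := by rw [List.length_drop]; omega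
    have h3 := ncmul_of_hom (A3B2_isHom p k b) ((A3B2_pow q).app k b).1 (l₂ := l.drop p) h1
    rw [List.take_append_drop] at h3
    rw [h3, A3B2_val p k b _ h1, A3B2_val q k b _ h2, A3B2_val (p + q) k b _ hl,
      ← List.prod_append, ← List.map_append, List.take_append_drop]
  · rw [(A3B2_isHom p k b).ncmul (A3B2_isHom q k b) l hl, A3B2_isHom (p + q) k b l hl]

private theorem A3B2_cls (n : ℕ) : clW (evH n) (A3B2_pow n) = xP n := by
  classical
  refine A3B2_ext fun z hz => ?_
  rw [clT_cls, xP_cls]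
  have h := A3B2_lin ((evT n).comp (linExt (W := TT) (A3B2_pow n).app n))
    (Finsupp.lapply (bAlt n)) ?_ z
  · exact h
  · intro b
    rw [LinearMap.comp_apply, linExt_single, one_smul, Finsupp.lapply_apply,
      Finsupp.single_apply]
    show ((A3B2_pow n).app n b).1 (pathL n) = _
    rw [A3B2_val n n b _ (pathL_length n), A3B2_path, List.map_map]
    have h1 : (List.map ((fun x : PR n => b.1 x.1 + b.1 x.2) ∘
        fun i : Fin n => (i.castSucc, i.succ)) (List.finRange n)).prod =
        ∏ i : Fin n, (b.1 i.castSucc + b.1 i.succ) := (Fin.prod_univ_def _).symm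
    rw [h1]
    by_cases hb : b = bAlt n
    · rw [if_pos hb]
      exact Finset.prod_eq_one fun i _ => (eq_bAlt_iff n b).1 hb i
    · rw [if_neg hb]
      have h2 : ∃ i : Fin n, b.1 i.castSucc + b.1 i.succ ≠ 1 := by
        by_contra hcon
        push Not at hcon
        exact hb ((eq_bAlt_iff n b).2 hcon)
      obtain ⟨i, hi⟩ := h2
      refine Finset.prod_eq_zero (Finset.mem_univ i) ?_
      generalize b.1 i.castSucc + b.1 i.succ = c at hi
      revert c
      decide

theorem xP_mul {p q n : ℕ} (h : p + q = n) : cup n (xP p) (xP q) = xP n := by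
  subst h
  have h1 := clT_mul (p + q) (A3B2_pow p) (A3B2_pow q)
  rw [A3B2_mul, A3B2_cls, Finset.sum_eq_single p] at h1
  · have e : p + q - p = q := by omega
    rw [e, A3B2_cls, A3B2_cls] at h1
    exact h1.symm
  · intro k _ hk
    rw [clT_of_isHom hk (A3B2_isHom p), cup_zero_left]
  · intro hp
    exact absurd (Finset.mem_range.2 (by omega)) hp

theorem xB_pow (n : ℕ) : (CR.hom 1 xB : CR BZ2) ^ n = CR.hom n (xP n) := by
  induction n with
  | zero =>
    rw [pow_zero, xP_zero, (CR.isHom_one (Z := BZ2)).eq, CR.one_zero]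
  | succ n ih =>
    rw [pow_succ, ih, CR.hom_mul_hom, ← xP_one, xP_mul rfl]

end MM

end
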