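import Pool.Agent.Lib_MP_33f7bb_m.G04
import Pool.Agent.Lib_MP_33f7bb_m.G15

/-!
# MP_33f7bb_an, negative answer to Q1: merged library part G23

Concatenation of files of `Lib_MP_33f7bb_an` and `Lib_MP_33f7bb_d` (each in its own section), only to save build time.
-/

/-! ### from `Lib_MP_33f7bb_d.A4B1` -/

section

/-!
# A4-B1: definitions for the bar filtration (complete, no sorry)

`quoOf A : P → lin P / lin A`, universal property `quoLift`, extensionality `quo_ext` (so for `R`, `KK`, `RS`).
`VP V k` = `k`-tuples in `V`, `RS V k` = chains modulo tuples with a zero entry (smash power).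
`phi V k : Δ^k × V^k → barV V`, `(α, x) ↦ ((a, b) ↦ P (α a) + P (α b))`, `P t = ∑_(i < t) x_i`.
`Fj V k` = image of `phi V k` (at most `k` jumps).
-/

open scoped TensorProduct

namespace MM

section quo

variable {P : SS} (A : Sub P)

/-- `x ↦ [x]` in the quotient of the chains by the chains of a subcomplex -/
noncomputable def quoOf : Hom P (linSub A).quo.ss :=
  ⟨fun n x => (linSub A).proj.app n (Finsupp.single x 1), fun {m n} f x => by
    show _ = (linSub A).quo.act f _
    rw [← (linSub A).proj.nat]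
    congr 1
    show _ = Finsupp.mapDomain (P.act f) _
    rw [Finsupp.mapDomain_single]⟩

theorem quoOf_mem {n : ℕ} {x : P.S n} (hx : x ∈ A.car n) : (quoOf A).app n x = (0 : (linSub A).quo.V n) := by
  show Submodule.Quotient.mk _ = 0
  rw [Submodule.Quotient.mk_eq_zero]
  exact SuppIn.single (A := A) hx 1

theorem quo_span (n : ℕ) : Submodule.span (ZMod 2) (Set.range ((quoOf A).app n)) =
    (⊤ : Submodule (ZMod 2) ((linSub A).quo.V n)) := by
  rw [eq_top_iff]
  rintro x -
  obtain ⟨c, rfl⟩ := Submodule.Quotient.mk_surjective _ x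
  induction c using Finsupp.induction_linear with
  | zero => exact Submodule.zero_mem _
  | add a b ha hb => exact Submodule.add_mem _ ha hb
  | single u r =>
    have : (Submodule.Quotient.mk (Finsupp.single u r) : (linSub A).quo.V n) =
        r • (quoOf A).app n u := by
      show _ = r • (Submodule.Quotient.mk (Finsupp.single u 1) : (linSub A).quo.V n)
      rw [← Submodule.Quotient.mk_smul, Finsupp.smul_single, smul_eq_mul, mul_one]
    rw [this]
    exact Submodule.smul_mem _ _ (Submodule.subset_span ⟨u, rfl⟩)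

theorem quo_ext {n : ℕ} {M : Type} [AddCommGroup M] [Module (ZMod 2) M]
    {f g : (linSub A).quo.V n →ₗ[ZMod 2] M}
    (h : ∀ x, f ((quoOf A).app n x) = g ((quoOf A).app n x)) : f = g := by
  apply LinearMap.ext
  intro x
  have hx : x ∈ Submodule.span (ZMod 2) (Set.range ((quoOf A).app n)) := by
    rw [quo_span]; trivial
  induction hx using Submodule.span_induction with
  | mem x hx => obtain ⟨y, rfl⟩ := hx; exact h y
  | zero => simp
  | add a b _ _ ha hb => rw [map_add, map_add, ha, hb]
  | smul r a _ ha => rw [map_smul, map_smul, ha]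

theorem quo_ext' {W : SV} {f g : SVHom (linSub A).quo W}
    (h : ∀ n x, f.app n ((quoOf A).app n x) = g.app n ((quoOf A).app n x)) : f = g :=
  SVHom.ext (funext fun n => quo_ext A (h n))

/-- universal property -/
noncomputable def quoLift {W : SV} (f : Hom P W.ss)
    (hf : ∀ n, ∀ x ∈ A.car n, f.app n x = (0 : W.V n)) : SVHom (linSub A).quo W :=
  ⟨fun n => Submodule.liftQ _ (linExt f.app n) (by
      intro c hc
      rw [LinearMap.mem_ker, linExt_apply]
      refine Finset.sum_eq_zero fun x hx => ?_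
      show c x • (f.app n x : W.V n) = 0
      rw [hf n x (hc hx), smul_zero]), fun {m n} g x => by
    obtain ⟨c, rfl⟩ := Submodule.Quotient.mk_surjective _ x
    exact (linHom f).nat g c⟩

@[simp] theorem quoLift_of {W : SV} (f : Hom P W.ss)
    (hf : ∀ n, ∀ x ∈ A.car n, f.app n x = (0 : W.V n)) (n : ℕ) (x : P.S n) :
    (quoLift A f hf).app n ((quoOf A).app n x) = f.app n x := by
  show linExt f.app n (Finsupp.single x 1) = f.app n x
  rw [linExt_single, one_smul]

end quo

/-- `k`-tuples in `V` -/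
abbrev VP (V : SV) (k : ℕ) : SS where
  S m := Fin k → V.V m
  act f x := fun i => V.act f (x i)
  act_id x := funext fun i => V.act_id (x i)
  act_comp f g x := funext fun i => V.act_comp f g (x i)

/-- tuples with a zero entry -/
def VP0 (V : SV) (k : ℕ) : Sub (VP V k) :=
  ⟨fun _ => {x | ∃ i, x i = 0}, by
    rintro m n f x ⟨i, hi⟩
    exact ⟨i, by show V.act f (x i) = 0; rw [hi, map_zero]⟩⟩

/-- the smash power -/
noncomputable abbrev RS (V : SV) (k : ℕ) : SV := (linSub (VP0 V k)).quo

/-- `x ↦ [x]` -/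
noncomputable abbrev RS.of (V : SV) (k : ℕ) : Hom (VP V k) (RS V k).ss := quoOf (VP0 V k)

/-- partial sums -/
def psum {V : SV} {k m : ℕ} (x : Fin k → V.V m) (t : Fin (k + 1)) : V.V m :=
  ∑ i : Fin k, if i.castSucc < t then x i else 0

theorem psum_act {V : SV} {k m n : ℕ} (f : Mo m n) (x : Fin k → V.V n) (t : Fin (k + 1)) :
    psum (fun i => V.act f (x i)) t = V.act f (psum x t) := by
  unfold psum
  rw [map_sum]
  refine Finset.sum_congr rfl fun i _ => ?_
  split_ifs
  · rfl
  · rw [map_zero]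

/-- the maps `Δ^k × V^k → barV V` -/
def phi (V : SV) (k : ℕ) : Hom ((Del k).prod (VP V k)) (barV V).ss :=
  ⟨fun m y => ⟨fun ab => psum y.2 (y.1 ab.1) + psum y.2 (y.1 ab.2), by
      intro a b c
      show psum y.2 (y.1 a) + psum y.2 (y.1 c) =
        psum y.2 (y.1 a) + psum y.2 (y.1 b) + (psum y.2 (y.1 b) + psum y.2 (y.1 c))
      have h : psum y.2 (y.1 a) + psum y.2 (y.1 b) + (psum y.2 (y.1 b) + psum y.2 (y.1 c)) =
          psum y.2 (y.1 a) + psum y.2 (y.1 c) + (psum y.2 (y.1 b) + psum y.2 (y.1 b)) := by abel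
      rw [h, two_eq_zero', add_zero]⟩, fun {m n} f y => by
    apply Subtype.ext
    funext ab
    show psum (fun i => V.act f (y.2 i)) (y.1 (f ab.1)) +
      psum (fun i => V.act f (y.2 i)) (y.1 (f ab.2)) =
      V.act f (psum y.2 (y.1 (f ab.1)) + psum y.2 (y.1 (f ab.2)))
    rw [psum_act, psum_act, map_add]⟩

theorem phi_apply {V : SV} {k m : ℕ} (α : Mo m k) (x : Fin k → V.V m) (a b : Fin (m + 1)) :
    ((phi V k).app m (α, x)).1 (a, b) = psum x (α a) + psum x (α b) := rfl

/-- the filtration of the bar construction: at most `k` jumps -/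
def Fj (V : SV) (k : ℕ) : Sub (barV V).ss := Sub.map (phi V k) ⊤

/-- restriction of a tuple to a subset of the indices -/
def rst {V : SV} {k m : ℕ} (S : Finset (Fin k)) (x : Fin k → V.V m) : Fin k → V.V m :=
  fun i => if i ∈ S then x i else 0

/-- add two neighbouring entries -/
def mrg {V : SV} {k m : ℕ} (i : Fin k) (x : Fin (k + 1) → V.V m) : Fin k → V.V m :=
  fun j => if j < i then x j.castSucc else if j = i then x i.castSucc + x i.succ else x j.succ

/-- the `i`-th term of the bar differential on generators -/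
noncomputable def pmG {V : SV} {k m : ℕ} (i : Fin k) (x : Fin (k + 1) → V.V m) : (RS V k).V m :=
  (RS.of V k).app m (mrg i x) + (RS.of V k).app m (x ∘ i.succ.succAbove) +
    (RS.of V k).app m (x ∘ i.castSucc.succAbove)

/-- the base vertex of the bar construction and its reduced chains -/
noncomputable abbrev RB (V : SV) : SV := RV (barV V)

/-- the filtration of the reduced chains of the bar construction: images of the chains supported in
`Fj V k` -/
noncomputable def FB (V : SV) (k : ℕ) (m : ℕ) : Submodule (ZMod 2) ((RB V).V m) :=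
  ((linSub (Fj V k)).car m).map ((R.pr (barV V).zv).app m)

/-- the simplicial addition map -/
def addHom (V : SV) : Hom (V.ss.prod V.ss) V.ss :=
  ⟨fun _ x => x.1 + x.2, fun f x => (map_add (V.act f) x.1 x.2).symm⟩

end MM

end

/-! ### from `Lib_MP_33f7bb_d.A4B2` -/

section

/-!
# A4-B2: combinatorics of the maps `phi`

`jn v` = number of `i < m` with `v (i, i+1) ≠ 0`.  For `v = phi (α, x)` the value `v (i, i+1)` is the sum of the `x_l`,
`α i ≤ l < α (i+1)`.
* `mem_Fj_iff`: `→`: every jump `i` has `α i < α (i+1)`, and these are at most `k` many.  `←`: let `i_1 < … < i_r` be the jumps,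
  `r ≤ k`; `α j` = number of jumps `< j` (monotone, `≤ r ≤ k`), `x_l = v (i_(l+1), i_(l+1) + 1)` for `l < r`, `0` for `l ≥ r`.
  Then `v (a, b) = psum x (α a) + psum x (α b)` by additivity (`v (0, b) = psum x (α b)` by induction on `b`).
* `phi_degenerate`: if `α` is not surjective or some `x_l = 0`: the number of jumps of `phi (α, x)` is at most `k` (for a `k+1`-tuple):
  a jump `i` needs an `l`, `α i ≤ l < α (i+1)`, with `x_l ≠ 0`; if `α` misses the value `t`: either `t = 0`, then `l = 0` is not used,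
  or `t = k+1`, then `l = k` is not used, or `l = t-1, t` are in the same interval or unused.
* `phi_jn`: `α` surjective: the steps `α i → α (i+1)` are `0` or `1`, every `l` occurs exactly once.
* `phi_inj`: `α j` = number of jumps before `j`, `x_l` = value at the `l`-th jump.
-/

namespace MM

variable {V : SV}

/-- number of jumps -/
noncomputable def jn {m : ℕ} (v : (barV V).V m) : ℕ := by
  classical
  exact (Finset.univ.filter fun i : Fin m => v.1 (i.castSucc, i.succ) ≠ 0).card

/-! ### Auxiliary facts -/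

private theorem A4B2_v00 {m : ℕ} (v : (barV V).V m) (a : Fin (m + 1)) :
    v.1 (a, a) = 0 := left_eq_add.1 (v.2 a a a)

private theorem A4B2_zero_of_steps {m : ℕ} (v : (barV V).V m)
    (h : ∀ j : Fin m, v.1 (j.castSucc, j.succ) = 0) : v = 0 := by
  have h0 : ∀ b : Fin (m + 1), v.1 (0, b) = 0 := by
    intro b
    induction b using Fin.induction with
    | zero => exact A4B2_v00 v 0
    | succ j ih => rw [v.2 0 j.castSucc j.succ, ih, h j, add_zero]
  apply Subtype.ext
  funext x
  have h1 := v.2 0 x.1 x.2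
  rw [h0, h0, zero_add] at h1
  exact h1.symm

private theorem A4B2_ext {m : ℕ} (v w : (barV V).V m)
    (h : ∀ j : Fin m, v.1 (j.castSucc, j.succ) = w.1 (j.castSucc, j.succ)) : v = w := by
  have h1 : v - w = 0 := by
    apply A4B2_zero_of_steps
    intro j
    show v.1 (j.castSucc, j.succ) - w.1 (j.castSucc, j.succ) = 0
    rw [h j, sub_self]
  exact sub_eq_zero.1 h1

private theorem A4B2_psum_succ {k m : ℕ} (x : Fin k → V.V m) (l : Fin k) :
    psum x l.succ = psum x l.castSucc + x l := by
  classical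
  unfold psum
  have h1 : x l = ∑ i : Fin k, if i = l then x i else 0 := by
    rw [Finset.sum_ite_eq' Finset.univ l x, if_pos (Finset.mem_univ l)]
  conv_rhs => rw [h1]
  rw [← Finset.sum_add_distrib]
  refine Finset.sum_congr rfl fun i _ => ?_
  by_cases h2 : i = l
  · subst h2
    rw [if_pos (Fin.castSucc_lt_succ), if_neg (lt_irrefl _), if_pos rfl, zero_add]
  · rw [if_neg h2, add_zero]
    have h3 : i.castSucc < l.succ ↔ i.castSucc < l.castSucc := by
      rw [Fin.lt_def, Fin.lt_def, Fin.val_castSucc, Fin.val_succ, Fin.val_castSucc]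
      have : (i : ℕ) ≠ l := fun h => h2 (Fin.ext h)
      omega
    by_cases h4 : i.castSucc < l.castSucc
    · rw [if_pos h4, if_pos (h3.2 h4)]
    · rw [if_neg h4, if_neg fun h => h4 (h3.1 h)]

private theorem A4B2_psum_congr {k m : ℕ} (x : Fin k → V.V m) (a b : Fin (k + 1)) (hab : a ≤ b)
    (h : ∀ l : Fin k, a ≤ l.castSucc → l.castSucc < b → x l = 0) : psum x a = psum x b := by
  unfold psum
  refine Finset.sum_congr rfl fun i _ => ?_
  by_cases h1 : i.castSucc < a
  · rw [if_pos h1, if_pos (h1.trans_le hab)]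
  · rw [if_neg h1]
    by_cases h2 : i.castSucc < b
    · rw [if_pos h2, h i (not_lt.1 h1) h2]
    · rw [if_neg h2]

/-- the value of `phi` on a step -/
private theorem A4B2_step {k m : ℕ} (α : Mo m k) (x : Fin k → V.V m) (j : Fin m) :
    ((phi V k).app m (α, x)).1 (j.castSucc, j.succ) =
      psum x (α j.castSucc) + psum x (α j.succ) := rfl

private theorem A4B2_step_eq {k m : ℕ} (α : Mo m k) (x : Fin k → V.V m) (j : Fin m)
    (h : α j.castSucc = α j.succ) : ((phi V k).app m (α, x)).1 (j.castSucc, j.succ) = 0 := by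
  rw [A4B2_step, h, two_eq_zero']

private theorem A4B2_step_succ {k m : ℕ} (α : Mo m k) (x : Fin k → V.V m) (j : Fin m) (l : Fin k)
    (h : α j.castSucc = l.castSucc) (h' : α j.succ = l.succ) :
    ((phi V k).app m (α, x)).1 (j.castSucc, j.succ) = x l := by
  rw [A4B2_step, h, h', A4B2_psum_succ, ← add_assoc, two_eq_zero', zero_add]

private theorem A4B2_step_lt {k m : ℕ} (α : Mo m k) (x : Fin k → V.V m) (j : Fin m)
    (h : ((phi V k).app m (α, x)).1 (j.castSucc, j.succ) ≠ 0) :
    (α j.castSucc : ℕ) < α j.succ := by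
  have h1 : α j.castSucc ≤ α j.succ := α.monotone (Fin.castSucc_lt_succ).le
  rcases h1.lt_or_eq with h2 | h2
  · exact h2
  · exact absurd (A4B2_step_eq α x j h2) h

/-- strictly increasing steps are counted by the values -/
private theorem A4B2_inj {m : ℕ} (f : Fin (m + 1) → ℕ) (hf : Monotone f) {j j' : Fin m}
    (h : f j.castSucc < f j.succ) (h' : f j'.castSucc < f j'.succ)
    (he : f j.castSucc = f j'.castSucc) : j = j' := by
  by_contra hne
  rcases lt_or_gt_of_ne hne with hlt | hlt
  · have h1 : f j.succ ≤ f j'.castSucc := hf (by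
      rw [Fin.le_def, Fin.val_succ, Fin.val_castSucc]
      have : (j : ℕ) < j' := hlt
      omega)
    omega
  · have h1 : f j'.succ ≤ f j.castSucc := hf (by
      rw [Fin.le_def, Fin.val_succ, Fin.val_castSucc]
      have : (j' : ℕ) < j := hlt
      omega)
    omega

private theorem A4B2_card {m : ℕ} (f : Fin (m + 1) → ℕ) (hf : Monotone f) (J : Finset (Fin m))
    (hJ : ∀ j ∈ J, f j.castSucc < f j.succ) (T : Finset ℕ) (hT : ∀ j ∈ J, f j.castSucc ∈ T) :
    J.card ≤ T.card :=
  Finset.card_le_card_of_injOn (fun j => f j.castSucc) hT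
    (fun _ hj _ hj' he => A4B2_inj f hf (hJ _ hj) (hJ _ hj') he)

/-- unit steps attain every value -/
private theorem A4B2_unit {m : ℕ} (f : Fin (m + 1) → ℕ) (h0 : f 0 = 0)
    (h1 : ∀ j : Fin m, f j.succ ≤ f j.castSucc + 1) (b : Fin (m + 1)) (l : ℕ) (hl : l < f b) :
    ∃ j : Fin m, f j.castSucc = l ∧ f j.succ = l + 1 := by
  induction b using Fin.induction with
  | zero => omega
  | succ j ih =>
    by_cases h2 : l < f j.castSucc
    · exact ih h2
    · refine ⟨j, ?_, ?_⟩
      · have := h1 j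
        omega
      · have := h1 j
        omega

private theorem A4B2_surj_zero {k m : ℕ} (α : Mo m k) (h : Function.Surjective α) :
    (α 0 : ℕ) = 0 := by
  obtain ⟨y, hy⟩ := h 0
  have h1 : α 0 ≤ α y := α.monotone (Fin.zero_le y)
  rw [hy] at h1
  have h2 : α 0 = 0 := le_antisymm h1 (Fin.zero_le _)
  rw [h2]
  rfl

private theorem A4B2_surj_step {k m : ℕ} (α : Mo m k) (h : Function.Surjective α) (j : Fin m) :
    (α j.succ : ℕ) ≤ α j.castSucc + 1 := by
  by_contra hc
  push Not at hc
  have hk : (α j.succ : ℕ) < k + 1 := (α j.succ).2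
  obtain ⟨y, hy⟩ := h ⟨(α j.castSucc : ℕ) + 1, by omega⟩
  have hy' : (α y : ℕ) = α j.castSucc + 1 := by rw [hy]
  rcases le_or_gt y j.castSucc with h1 | h1
  · have h2 : (α y : ℕ) ≤ α j.castSucc := α.monotone h1
    omega
  · have h3 : j.succ ≤ y := by
      rw [Fin.le_def, Fin.val_succ]
      have : (j.castSucc : ℕ) < y := h1
      rw [Fin.val_castSucc] at this
      omega
    have h2 : (α j.succ : ℕ) ≤ α y := α.monotone h3
    omega

private theorem A4B2_surj_ex {k m : ℕ} (α : Mo m k) (h : Function.Surjective α) (l : Fin k) :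
    ∃ j : Fin m, α j.castSucc = l.castSucc ∧ α j.succ = l.succ := by
  obtain ⟨y, hy⟩ := h l.succ
  obtain ⟨j, h1, h2⟩ := A4B2_unit (fun b => (α b : ℕ)) (A4B2_surj_zero α h)
    (A4B2_surj_step α h) y l (by
      show (l : ℕ) < α y
      rw [hy, Fin.val_succ]
      omega)
  exact ⟨j, Fin.ext h1, Fin.ext h2⟩

/-- at a strict step of a surjective map -/
private theorem A4B2_surj_lt {k m : ℕ} (α : Mo m k) (h : Function.Surjective α) (j : Fin m)
    (hj : (α j.castSucc : ℕ) < α j.succ) :
    ∃ l : Fin k, α j.castSucc = l.castSucc ∧ α j.succ = l.succ := by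
  have h1 := A4B2_surj_step α h j
  have h2 : (α j.succ : ℕ) < k + 1 := (α j.succ).2
  refine ⟨⟨α j.castSucc, by omega⟩, Fin.ext rfl, Fin.ext ?_⟩
  rw [Fin.val_succ]
  show (α j.succ : ℕ) = α j.castSucc + 1
  omega

/-- number of jumps before `b` -/
private noncomputable def A4B2_c {m : ℕ} (v : (barV V).V m) (b : Fin (m + 1)) : ℕ := by
  classical
  exact (Finset.univ.filter fun i : Fin m => i.castSucc < b ∧ v.1 (i.castSucc, i.succ) ≠ 0).card

private theorem A4B2_c_zero {m : ℕ} (v : (barV V).V m) : A4B2_c v 0 = 0 := by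
  classical
  unfold A4B2_c
  rw [Finset.card_eq_zero, Finset.filter_eq_empty_iff]
  intro i _ hi
  exact absurd hi.1 (Fin.not_lt_zero _)

private theorem A4B2_c_succ0 {m : ℕ} (v : (barV V).V m) (j : Fin m)
    (h : v.1 (j.castSucc, j.succ) = 0) : A4B2_c v j.succ = A4B2_c v j.castSucc := by
  classical
  unfold A4B2_c
  congr 1
  refine Finset.filter_congr fun i _ => ?_
  constructor
  · rintro ⟨h1, h2⟩
    refine ⟨?_, h2⟩
    have hne : (i : ℕ) ≠ j := fun h3 => h2 (by rw [Fin.ext h3]; exact h)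
    rw [Fin.lt_def, Fin.val_castSucc, Fin.val_succ] at h1
    rw [Fin.lt_def, Fin.val_castSucc, Fin.val_castSucc]
    omega
  · rintro ⟨h1, h2⟩
    exact ⟨h1.trans (Fin.castSucc_lt_succ), h2⟩

private theorem A4B2_c_succ1 {m : ℕ} (v : (barV V).V m) (j : Fin m)
    (h : v.1 (j.castSucc, j.succ) ≠ 0) : A4B2_c v j.succ = A4B2_c v j.castSucc + 1 := by
  classical
  unfold A4B2_c
  have h1 : (Finset.univ.filter fun i : Fin m => i.castSucc < j.succ ∧
      v.1 (i.castSucc, i.succ) ≠ 0) = insert j (Finset.univ.filter fun i : Fin m =>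
        i.castSucc < j.castSucc ∧ v.1 (i.castSucc, i.succ) ≠ 0) := by
    ext i
    rw [Finset.mem_insert, Finset.mem_filter, Finset.mem_filter]
    constructor
    · rintro ⟨-, h1, h2⟩
      by_cases h3 : i = j
      · exact Or.inl h3
      · refine Or.inr ⟨Finset.mem_univ _, ?_, h2⟩
        have hne : (i : ℕ) ≠ j := fun h4 => h3 (Fin.ext h4)
        rw [Fin.lt_def, Fin.val_castSucc, Fin.val_succ] at h1
        rw [Fin.lt_def, Fin.val_castSucc, Fin.val_castSucc]
        omega
    · rintro (h1 | ⟨-, h1, h2⟩)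
      · rw [h1]
        exact ⟨Finset.mem_univ _, Fin.castSucc_lt_succ, h⟩
      · exact ⟨Finset.mem_univ _, h1.trans (Fin.castSucc_lt_succ), h2⟩
  rw [h1, Finset.card_insert_of_notMem]
  rw [Finset.mem_filter]
  rintro ⟨-, h2, -⟩
  exact lt_irrefl _ h2

private theorem A4B2_c_mono {m : ℕ} (v : (barV V).V m) : Monotone (A4B2_c v) := by
  classical
  intro a b hab
  unfold A4B2_c
  refine Finset.card_le_card fun i hi => ?_
  rw [Finset.mem_filter] at hi ⊢
  exact ⟨hi.1, hi.2.1.trans_le hab, hi.2.2⟩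

private theorem A4B2_c_last {m : ℕ} (v : (barV V).V m) : A4B2_c v (Fin.last m) = jn v := by
  classical
  unfold A4B2_c jn
  congr 1
  refine Finset.filter_congr fun i _ => ?_
  constructor
  · rintro ⟨-, h⟩
    exact h
  · intro h
    exact ⟨Fin.castSucc_lt_last i, h⟩

private theorem A4B2_c_le {m : ℕ} (v : (barV V).V m) (b : Fin (m + 1)) : A4B2_c v b ≤ jn v := by
  rw [← A4B2_c_last]
  exact A4B2_c_mono v (Fin.le_last b)

/-- the canonical monotone map -/
private noncomputable def A4B2_al {m k : ℕ} (v : (barV V).V m) (hk : jn v ≤ k) : Mo m k :=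
  ⟨fun b => ⟨A4B2_c v b, Nat.lt_succ_of_le ((A4B2_c_le v b).trans hk)⟩,
    fun _ _ hab => A4B2_c_mono v hab⟩

/-- the canonical tuple -/
private noncomputable def A4B2_x {m : ℕ} (k : ℕ) (v : (barV V).V m) (l : Fin k) : V.V m := by
  classical
  exact if h : ∃ j : Fin m, v.1 (j.castSucc, j.succ) ≠ 0 ∧ A4B2_c v j.castSucc = l then
    v.1 ((Classical.choose h).castSucc, (Classical.choose h).succ) else 0

private theorem A4B2_x_eq {m k : ℕ} (v : (barV V).V m) (l : Fin k) (j : Fin m)
    (h : v.1 (j.castSucc, j.succ) ≠ 0) (hl : A4B2_c v j.castSucc = l) :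
    A4B2_x k v l = v.1 (j.castSucc, j.succ) := by
  have hex : ∃ j : Fin m, v.1 (j.castSucc, j.succ) ≠ 0 ∧ A4B2_c v j.castSucc = l := ⟨j, h, hl⟩
  unfold A4B2_x
  rw [dif_pos hex]
  have hs := Classical.choose_spec hex
  have h1 : Classical.choose hex = j := by
    apply A4B2_inj (A4B2_c v) (A4B2_c_mono v)
    · rw [A4B2_c_succ1 v _ hs.1]
      omega
    · rw [A4B2_c_succ1 v _ h]
      omega
    · rw [hs.2, hl]
  rw [h1]

private theorem A4B2_phi {m k : ℕ} (v : (barV V).V m) (hk : jn v ≤ k) :
    (phi V k).app m (A4B2_al v hk, A4B2_x k v) = v := by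
  apply A4B2_ext
  intro j
  by_cases h : v.1 (j.castSucc, j.succ) = 0
  · rw [h]
    apply A4B2_step_eq
    exact Fin.ext (A4B2_c_succ0 v j h).symm
  · have h1 := A4B2_c_succ1 v j h
    have h2 := (A4B2_c_le v j.succ).trans hk
    have h3 : A4B2_c v j.castSucc < k := by omega
    rw [A4B2_step_succ (A4B2_al v hk) (A4B2_x k v) j ⟨A4B2_c v j.castSucc, h3⟩ (Fin.ext rfl)
      (Fin.ext (by
        rw [Fin.val_succ]
        exact h1))]
    exact A4B2_x_eq v _ j h rfl

theorem mem_Fj_iff (k m : ℕ) (v : (barV V).V m) : v ∈ (Fj V k).car m ↔ jn v ≤ k := by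
  classical
  constructor
  · rintro ⟨⟨α, x⟩, -, rfl⟩
    unfold jn
    have h1 := A4B2_card (fun b => (α b : ℕ)) (fun _ _ h => α.monotone h)
      (Finset.univ.filter fun i : Fin m =>
        ((phi V k).app m (α, x)).1 (i.castSucc, i.succ) ≠ 0)
      (fun j hj => A4B2_step_lt α x j (Finset.mem_filter.1 hj).2) (Finset.range k)
      (fun j hj => by
        have h2 := A4B2_step_lt α x j (Finset.mem_filter.1 hj).2
        have h3 : (α j.succ : ℕ) < k + 1 := (α j.succ).2
        rw [Finset.mem_range]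
        show (α j.castSucc : ℕ) < k
        omega)
    rw [Finset.card_range] at h1
    exact h1
  · intro hk
    exact ⟨(A4B2_al v hk, A4B2_x k v), trivial, A4B2_phi v hk⟩

theorem jn_le (m : ℕ) (v : (barV V).V m) : jn v ≤ m := by
  classical
  unfold jn
  refine (Finset.card_filter_le _ _).trans ?_
  rw [Finset.card_univ, Fintype.card_fin]

theorem jn_eq_zero (m : ℕ) (v : (barV V).V m) : jn v = 0 ↔ v = 0 := by
  classical
  constructor
  · intro h
    apply A4B2_zero_of_steps
    intro j
    by_contra hj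
    unfold jn at h
    rw [Finset.card_eq_zero, Finset.filter_eq_empty_iff] at h
    exact h (Finset.mem_univ j) hj
  · rintro rfl
    unfold jn
    rw [Finset.card_eq_zero, Finset.filter_eq_empty_iff]
    intro j _ hj
    exact hj rfl

theorem phi_degenerate (k m : ℕ) (α : Mo m (k + 1)) (x : Fin (k + 1) → V.V m)
    (h : ¬ Function.Surjective α ∨ ∃ i, x i = 0) :
    jn ((phi V (k + 1)).app m (α, x) : (barV V).V m) ≤ k := by
  classical
  unfold jn
  set J : Finset (Fin m) := Finset.univ.filter fun i : Fin m =>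
    ((phi V (k + 1)).app m (α, x)).1 (i.castSucc, i.succ) ≠ 0 with hJ
  have hJlt : ∀ j ∈ J, (α j.castSucc : ℕ) < α j.succ := fun j hj =>
    A4B2_step_lt α x j (Finset.mem_filter.1 hj).2
  have hlt : ∀ b : Fin (m + 1), (α b : ℕ) < k + 2 := fun b => (α b).2
  rcases h with h | ⟨i, hi⟩
  · have h' : ∃ t : Fin (k + 2), ∀ y, α y ≠ t := by
      by_contra hc
      push Not at hc
      exact h hc
    obtain ⟨t, ht⟩ := h'
    have ht' : ∀ y, (α y : ℕ) ≠ t := fun y hy => ht y (Fin.ext hy)
    have htk : (t : ℕ) < k + 2 := t.2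
    by_cases htl : (t : ℕ) = k + 1
    · have h1 := A4B2_card (fun b => (α b : ℕ)) (fun _ _ h => α.monotone h) J hJlt
        (Finset.range k) (fun j hj => by
          have h2 := hJlt j hj
          have h3 := hlt j.succ
          have h4 := ht' j.succ
          rw [Finset.mem_range]
          show (α j.castSucc : ℕ) < k
          omega)
      rw [Finset.card_range] at h1
      exact h1
    · have h1 := A4B2_card (fun b => (α b : ℕ)) (fun _ _ h => α.monotone h) J hJlt
        ((Finset.range (k + 1)).erase t) (fun j hj => by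
          have h2 := hJlt j hj
          have h3 := hlt j.succ
          rw [Finset.mem_erase, Finset.mem_range]
          exact ⟨ht' _, by
            show (α j.castSucc : ℕ) < k + 1
            omega⟩)
      rw [Finset.card_erase_of_mem (Finset.mem_range.2 (by omega)), Finset.card_range] at h1
      exact h1
  · have hex : ∀ j ∈ J, ∃ l : Fin (k + 1), α j.castSucc ≤ l.castSucc ∧
        l.castSucc < α j.succ ∧ x l ≠ 0 := by
      intro j hj
      by_contra hc
      push Not at hc
      apply (Finset.mem_filter.1 hj).2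
      rw [A4B2_step, A4B2_psum_congr x (α j.castSucc) (α j.succ)
        (α.monotone (Fin.castSucc_lt_succ).le) hc, two_eq_zero']
    choose! g hg1 hg2 hg3 using hex
    have h1 : J.card ≤ (Finset.univ.erase i : Finset (Fin (k + 1))).card := by
      refine Finset.card_le_card_of_injOn g ?_ ?_
      · intro j hj
        refine Finset.mem_erase.2 ⟨?_, Finset.mem_univ _⟩
        intro he
        exact hg3 j hj (by rw [he]; exact hi)
      · intro j hj j' hj' he
        by_contra hne
        rcases lt_or_gt_of_ne hne with hlt' | hlt'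
        · have h2 : α j.succ ≤ α j'.castSucc := α.monotone (by
            rw [Fin.le_def, Fin.val_succ, Fin.val_castSucc]
            have : (j : ℕ) < j' := hlt'
            omega)
          have h3 := (hg2 j hj).trans_le (h2.trans (hg1 j' hj'))
          rw [he] at h3
          exact lt_irrefl _ h3
        · have h2 : α j'.succ ≤ α j.castSucc := α.monotone (by
            rw [Fin.le_def, Fin.val_succ, Fin.val_castSucc]
            have : (j' : ℕ) < j := hlt'
            omega)
          have h3 := (hg2 j' hj').trans_le (h2.trans (hg1 j hj))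
          rw [he] at h3
          exact lt_irrefl _ h3
    rw [Finset.card_erase_of_mem (Finset.mem_univ i), Finset.card_univ, Fintype.card_fin] at h1
    exact h1

theorem phi_jn (k m : ℕ) (α : Mo m k) (x : Fin k → V.V m) (h : Function.Surjective α)
    (hx : ∀ i, x i ≠ 0) : jn ((phi V k).app m (α, x) : (barV V).V m) = k := by
  classical
  apply le_antisymm
  · exact (mem_Fj_iff k m _).1 ⟨(α, x), trivial, rfl⟩
  · unfold jn
    choose g hg1 hg2 using A4B2_surj_ex α h
    have h1 : (Finset.univ : Finset (Fin k)).card ≤ (Finset.univ.filter fun i : Fin m =>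
        ((phi V k).app m (α, x)).1 (i.castSucc, i.succ) ≠ 0).card := by
      refine Finset.card_le_card_of_injOn g ?_ ?_
      · intro l _
        refine Finset.mem_filter.2 ⟨Finset.mem_univ _, ?_⟩
        rw [A4B2_step_succ α x (g l) l (hg1 l) (hg2 l)]
        exact hx l
      · intro l _ l' _ he
        have h2 := hg1 l
        rw [he, hg1 l'] at h2
        exact (Fin.castSucc_injective k h2).symm
    rw [Finset.card_univ, Fintype.card_fin] at h1
    exact h1

theorem phi_inj (k m : ℕ) (α α' : Mo m k) (x x' : Fin k → V.V m) (h : Function.Surjective α)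
    (h' : Function.Surjective α') (hx : ∀ i, x i ≠ 0) (hx' : ∀ i, x' i ≠ 0)
    (he : (phi V k).app m (α, x) = (phi V k).app m (α', x')) : α = α' ∧ x = x' := by
  have key : ∀ (α : Mo m k) (x : Fin k → V.V m), Function.Surjective α → (∀ i, x i ≠ 0) →
      ∀ j : Fin m, (α j.succ : ℕ) = α j.castSucc +
        (open Classical in if ((phi V k).app m (α, x)).1 (j.castSucc, j.succ) = 0 then 0 else 1) := by
    intro α x h hx j
    have h1 : (α j.castSucc : ℕ) ≤ α j.succ := α.monotone (Fin.castSucc_lt_succ).le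
    rcases h1.lt_or_eq with h2 | h2
    · obtain ⟨l, hl1, hl2⟩ := A4B2_surj_lt α h j h2
      rw [if_neg (by
        rw [A4B2_step_succ α x j l hl1 hl2]
        exact hx l), hl1, hl2, Fin.val_succ, Fin.val_castSucc]
    · rw [if_pos (A4B2_step_eq α x j (Fin.ext h2)), add_zero, h2]
  have hα : ∀ b : Fin (m + 1), (α b : ℕ) = α' b := by
    intro b
    induction b using Fin.induction with
    | zero => rw [A4B2_surj_zero α h, A4B2_surj_zero α' h']
    | succ j ih => rw [key α x h hx j, key α' x' h' hx' j, ih, he]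
  have hαe : α = α' := OrderHom.ext _ _ (funext fun b => Fin.ext (hα b))
  refine ⟨hαe, ?_⟩
  subst hαe
  funext l
  obtain ⟨j, hj1, hj2⟩ := A4B2_surj_ex α h l
  rw [← A4B2_step_succ α x j l hj1 hj2, ← A4B2_step_succ α x' j l hj1 hj2, he]

theorem exists_phi (k m : ℕ) (v : (barV V).V m) (hv : jn v = k) :
    ∃ (α : Mo m k) (x : Fin k → V.V m), Function.Surjective α ∧ (∀ i, x i ≠ 0) ∧
      (phi V k).app m (α, x) = v := by
  have hunit : ∀ j : Fin m, A4B2_c v j.succ ≤ A4B2_c v j.castSucc + 1 := by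
    intro j
    by_cases h : v.1 (j.castSucc, j.succ) = 0
    · rw [A4B2_c_succ0 v j h]
      omega
    · rw [A4B2_c_succ1 v j h]
  have hlast : A4B2_c v (Fin.last m) = k := (A4B2_c_last v).trans hv
  refine ⟨A4B2_al v hv.le, A4B2_x k v, ?_, ?_, A4B2_phi v hv.le⟩
  · intro t
    rcases Nat.lt_or_ge t k with ht | ht
    · obtain ⟨j, hj1, -⟩ := A4B2_unit (A4B2_c v) (A4B2_c_zero v) hunit (Fin.last m) t
        (by rw [hlast]; exact ht)
      exact ⟨j.castSucc, Fin.ext hj1⟩
    · have h1 : (t : ℕ) < k + 1 := t.2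
      refine ⟨Fin.last m, Fin.ext ?_⟩
      show A4B2_c v (Fin.last m) = t
      omega
  · intro l
    obtain ⟨j, hj1, hj2⟩ := A4B2_unit (A4B2_c v) (A4B2_c_zero v) hunit (Fin.last m) l
      (by rw [hlast]; exact l.2)
    have h1 : v.1 (j.castSucc, j.succ) ≠ 0 := by
      intro h
      have := A4B2_c_succ0 v j h
      omega
    rw [A4B2_x_eq v l j h1 hj1]
    exact h1

theorem Fj_zero (m : ℕ) (v : (barV V).V m) : v ∈ (Fj V 0).car m ↔ v = 0 := by
  rw [mem_Fj_iff, Nat.le_zero, jn_eq_zero]

theorem Fj_mono (k : ℕ) : Fj V k ≤ Fj V (k + 1) := by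
  intro m v hv
  rw [mem_Fj_iff] at hv ⊢
  omega

theorem Fj_top (k m : ℕ) (h : m ≤ k) (v : (barV V).V m) : v ∈ (Fj V k).car m := by
  rw [mem_Fj_iff]
  exact (jn_le m v).trans h

end MM

end

/-! ### from `Lib_MP_33f7bb_d.A4B3` -/

section

/-!
# A4-B3: the maps `psi` and the bar differential `pmD`

`exists_psi`: for fixed `α` the map `x ↦ ∑_S [phi (α, x_S)]` (sum over all subsets `S` of `Fin k`) vanishes if some `x_i = 0` (the terms
`S`, `S ∆ {i}` are equal), so it factors through `RS V k` (`Submodule.liftQ`); extend linearly in `α` (`Finsupp.linearCombination`)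
and to the tensor product (`TensorProduct.lift`); naturality on generators (`quo_span`), as in `psiHom` (A7Def).
`exists_pmD`: `quoLift` of `x ↦ ∑_i pmG i x`: if `x_j = 0`, `j ≠ i, i+1`, all three terms of `pmG i x` have a zero entry; if `x_i = 0` then
`mrg i x = x ∘ (castSucc i).succAbove` and `x ∘ (succ i).succAbove` has the zero entry `x_i`; same for `x_(i+1) = 0`.
`psi_faces`: enough for `y = [x]` (`quo_ext`), `x` a `(k+1)`-tuple.  Term `i = 0`: `dlt 0 ∘ α` has values `≥ 1`, so
`phi (dlt 0 ∘ α, x)` does not depend on `x_0` and the terms `S`, `S ∆ {0}` cancel.  Term `i = last`: does not depend on the last entry.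
Term `i = j + 1`, `j : Fin k`: `psum x (dlt i t) = psum (mrg j x) t`, so `phi (dlt i ∘ α, x_S) = phi (α, mrg j (x_S))`.  The sum over
`S` splits according to `j ∈ S`, `j+1 ∈ S`: the right hand side `psi ([α] ⊗ pmG j x) = ∑_T [phi (α, (mrg j x)_T)] +
[phi (α, (x without x_(j+1))_T)] + [phi (α, (x without x_j)_T)]`: for `j ∈ T` the three terms are the ones with both, only `x_j`, only
`x_(j+1)`; for `j ∉ T` all three terms are equal to the one with none of the two (and `1 + 1 + 1 = 1`).
-/

open scoped TensorProduct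

namespace MM

private theorem A4B3_inv {M : Type*} [AddCommGroup M] [Module (ZMod 2) M] {n : ℕ} (j : Fin n)
    (h : Finset (Fin n) → M) (hh : ∀ T, j ∉ T → h (insert j T) = h T) : ∑ T, h T = 0 := by
  refine Finset.sum_involution (fun T _ => if j ∈ T then T.erase j else insert j T) ?_ ?_ ?_ ?_
  · intro T _
    by_cases hj : j ∈ T
    · simp only [if_pos hj]
      have h1 := hh (T.erase j) (Finset.notMem_erase j T)
      rw [Finset.insert_erase hj] at h1
      rw [h1]
      exact two_eq_zero' _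
    · simp only [if_neg hj]
      rw [hh T hj]
      exact two_eq_zero' _
  · intro T _ _
    by_cases hj : j ∈ T
    · simp only [if_pos hj]
      intro h1
      rw [← h1] at hj
      exact Finset.notMem_erase j T hj
    · simp only [if_neg hj]
      intro h1
      apply hj
      rw [← h1]
      exact Finset.mem_insert_self j T
  · intro T _
    exact Finset.mem_univ _
  · intro T _
    by_cases hj : j ∈ T
    · simp only [if_pos hj, if_neg (Finset.notMem_erase j T)]
      exact Finset.insert_erase hj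
    · simp only [if_neg hj, if_pos (Finset.mem_insert_self j T)]
      exact Finset.erase_insert hj

private theorem A4B3_text {V : SV} {k m : ℕ} {M : Type} [AddCommGroup M] [Module (ZMod 2) M]
    {F G : ((lin (Del k)).tens (RS V k)).V m →ₗ[ZMod 2] M}
    (h : ∀ (α : Mo m k) (x : Fin k → V.V m),
      F ((Finsupp.single α 1 : Ch (Del k) m) ⊗ₜ[ZMod 2] ((RS.of V k).app m x : (RS V k).V m)) =
      G ((Finsupp.single α 1 : Ch (Del k) m) ⊗ₜ[ZMod 2] ((RS.of V k).app m x : (RS V k).V m))) :
    F = G := by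
  refine TensorProduct.ext ?_
  refine Finsupp.lhom_ext fun α c => ?_
  have h1 : (Finsupp.single α c : Ch (Del k) m) = c • Finsupp.single α 1 := by
    rw [Finsupp.smul_single, smul_eq_mul, mul_one]
  rw [h1, map_smul, map_smul]
  congr 1
  exact quo_ext _ fun x => h α x

private theorem A4B3_rst_insert {V : SV} {k m : ℕ} (S : Finset (Fin k)) (x : Fin k → V.V m)
    (i : Fin k) (hi : x i = 0) : rst (insert i S) x = rst S x := by
  funext l
  unfold rst
  by_cases h : l = i
  · subst h
    rw [hi]; simp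
  · simp only [Finset.mem_insert, h, false_or]

private noncomputable def A4B3_fn (V : SV) (k m : ℕ) (α : Mo m k) (x : Fin k → V.V m) :
    (RB V).V m :=
  ∑ S : Finset (Fin k), ((R.of (barV V).zv).app m ((phi V k).app m (α, rst S x)) : (RB V).V m)

private noncomputable def A4B3_psi1 (V : SV) (k m : ℕ) (α : Mo m k) :
    (RS V k).V m →ₗ[ZMod 2] (RB V).V m :=
  Submodule.liftQ _ (Finsupp.linearCombination (ZMod 2) (A4B3_fn V k m α)) (by
    intro c hc
    rw [LinearMap.mem_ker, Finsupp.linearCombination_apply]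
    refine Finset.sum_eq_zero fun x hx => ?_
    obtain ⟨i, hi⟩ : ∃ i, x i = 0 := hc hx
    have h1 : A4B3_fn V k m α x = 0 := by
      refine A4B3_inv i _ fun T _ => ?_
      rw [A4B3_rst_insert T x i hi]
    show c x • A4B3_fn V k m α x = 0
    rw [h1, smul_zero])

private theorem A4B3_psi1_of (V : SV) (k m : ℕ) (α : Mo m k) (x : Fin k → V.V m) :
    A4B3_psi1 V k m α ((RS.of V k).app m x) = A4B3_fn V k m α x := by
  show Finsupp.linearCombination (ZMod 2) (A4B3_fn V k m α) (Finsupp.single x 1) = _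
  rw [Finsupp.linearCombination_single, one_smul]

private noncomputable def A4B3_psi2 (V : SV) (k m : ℕ) :
    Ch (Del k) m →ₗ[ZMod 2] (RS V k).V m →ₗ[ZMod 2] (RB V).V m :=
  Finsupp.linearCombination (ZMod 2) (A4B3_psi1 V k m)

private theorem A4B3_psi2_of (V : SV) (k m : ℕ) (α : Mo m k) (x : Fin k → V.V m) :
    TensorProduct.lift (A4B3_psi2 V k m) ((Finsupp.single α 1 : Ch (Del k) m) ⊗ₜ[ZMod 2]
      ((RS.of V k).app m x : (RS V k).V m)) = A4B3_fn V k m α x := by
  rw [TensorProduct.lift.tmul, A4B3_psi2, Finsupp.linearCombination_single, one_smul,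
    A4B3_psi1_of]

private theorem A4B3_fn_act (V : SV) (k : ℕ) {m n : ℕ} (g : Mo m n) (α : Mo n k)
    (x : Fin k → V.V n) :
    A4B3_fn V k m (α.comp g) (fun i => V.act g (x i)) = (RB V).act g (A4B3_fn V k n α x) := by
  unfold A4B3_fn
  rw [map_sum]
  refine Finset.sum_congr rfl fun S _ => ?_
  have h1 : rst S (fun i => V.act g (x i)) = (VP V k).act g (rst S x) := by
    funext i
    show (if i ∈ S then V.act g (x i) else 0) = V.act g (if i ∈ S then x i else 0)
    split_ifs
    · rfl
    · rw [map_zero]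
  rw [h1]
  have h2 : (phi V k).app m (α.comp g, (VP V k).act g (rst S x)) =
      (barV V).ss.act g ((phi V k).app n (α, rst S x)) := (phi V k).nat g (α, rst S x)
  rw [h2]
  exact (R.of (barV V).zv).nat g _

theorem exists_psi (V : SV) (k : ℕ) : ∃ ψ : SVHom ((lin (Del k)).tens (RS V k)) (RB V),
    ∀ (m : ℕ) (α : Mo m k) (x : Fin k → V.V m),
      ψ.app m ((Finsupp.single α 1 : Ch (Del k) m) ⊗ₜ[ZMod 2] ((RS.of V k).app m x : (RS V k).V m)) =
        ∑ S : Finset (Fin k), ((R.of (barV V).zv).app m ((phi V k).app m (α, rst S x)) : (RB V).V m) := by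
  refine ⟨⟨fun m => TensorProduct.lift (A4B3_psi2 V k m), fun {m n} g u => ?_⟩,
    fun m α x => A4B3_psi2_of V k m α x⟩
  have h : (TensorProduct.lift (A4B3_psi2 V k m)).comp (((lin (Del k)).tens (RS V k)).act g) =
      ((RB V).act g).comp (TensorProduct.lift (A4B3_psi2 V k n)) := by
    refine A4B3_text fun α x => ?_
    rw [LinearMap.comp_apply, LinearMap.comp_apply, A4B3_psi2_of, ← A4B3_fn_act]
    have h1 : ((lin (Del k)).tens (RS V k)).act g ((Finsupp.single α 1 : Ch (Del k) n) ⊗ₜ[ZMod 2]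
        ((RS.of V k).app n x : (RS V k).V n)) =
        (Finsupp.single (α.comp g) 1 : Ch (Del k) m) ⊗ₜ[ZMod 2]
          ((RS.of V k).app m ((VP V k).act g x) : (RS V k).V m) := by
      show TensorProduct.map _ _ (_ ⊗ₜ _) = _
      rw [TensorProduct.map_tmul, (RS.of V k).nat g x]
      congr 1
      exact Finsupp.mapDomain_single
    rw [h1, A4B3_psi2_of]
  exact LinearMap.congr_fun h u

/-- the maps `F[Δ^k] ⊗ RS V k → R (barV V)` -/
noncomputable def psi (V : SV) (k : ℕ) : SVHom ((lin (Del k)).tens (RS V k)) (RB V) :=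
  Classical.choose (exists_psi V k)

theorem psi_of (V : SV) (k m : ℕ) (α : Mo m k) (x : Fin k → V.V m) :
    (psi V k).app m ((Finsupp.single α 1 : Ch (Del k) m) ⊗ₜ[ZMod 2]
      ((RS.of V k).app m x : (RS V k).V m)) =
        ∑ S : Finset (Fin k), ((R.of (barV V).zv).app m ((phi V k).app m (α, rst S x)) : (RB V).V m) :=
  Classical.choose_spec (exists_psi V k) m α x

private theorem A4B3_mrg_act {V : SV} {k m n : ℕ} (g : Mo m n) (i : Fin k)
    (x : Fin (k + 1) → V.V n) :
    mrg i ((VP V (k + 1)).act g x) = (VP V k).act g (mrg i x) := by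
  funext l
  show (if l < i then V.act g (x l.castSucc) else if l = i then V.act g (x i.castSucc) +
    V.act g (x i.succ) else V.act g (x l.succ)) = V.act g (if l < i then x l.castSucc else
      if l = i then x i.castSucc + x i.succ else x l.succ)
  split_ifs
  · rfl
  · rw [map_add]
  · rfl

/-- `mrg i x` is `x` without `x_(i+1)`, plus `x_(i+1)` at the place `i` -/
private theorem A4B3_mrg1 {V : SV} {k m : ℕ} (i : Fin k) (x : Fin (k + 1) → V.V m) (l : Fin k) :
    mrg i x l = x (i.succ.succAbove l) + (if l = i then x i.succ else 0) := by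
  unfold mrg
  rcases lt_trichotomy l i with h | h | h
  · have h1 : i.succ.succAbove l = l.castSucc := Fin.succAbove_of_castSucc_lt _ _ (by
      rw [Fin.lt_def, Fin.val_castSucc, Fin.val_succ]
      rw [Fin.lt_def] at h
      omega)
    rw [if_pos h, if_neg (ne_of_lt h), h1, add_zero]
  · subst h
    have h1 : l.succ.succAbove l = l.castSucc := Fin.succAbove_of_castSucc_lt _ _ (by
      rw [Fin.lt_def, Fin.val_castSucc, Fin.val_succ]
      omega)
    rw [if_neg (lt_irrefl _), if_pos rfl, if_pos rfl, h1]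
  · have h1 : i.succ.succAbove l = l.succ := Fin.succAbove_of_le_castSucc _ _ (by
      rw [Fin.le_def, Fin.val_castSucc, Fin.val_succ]
      rw [Fin.lt_def] at h
      omega)
    rw [if_neg (not_lt.2 h.le), if_neg (ne_of_gt h), if_neg (ne_of_gt h), h1, add_zero]

/-- `mrg i x` is `x` without `x_i`, plus `x_i` at the place `i` -/
private theorem A4B3_mrg2 {V : SV} {k m : ℕ} (i : Fin k) (x : Fin (k + 1) → V.V m) (l : Fin k) :
    mrg i x l = x (i.castSucc.succAbove l) + (if l = i then x i.castSucc else 0) := by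
  unfold mrg
  rcases lt_trichotomy l i with h | h | h
  · have h1 : i.castSucc.succAbove l = l.castSucc := Fin.succAbove_of_castSucc_lt _ _ (by
      rw [Fin.lt_def, Fin.val_castSucc, Fin.val_castSucc]
      rw [Fin.lt_def] at h
      omega)
    rw [if_pos h, if_neg (ne_of_lt h), h1, add_zero]
  · subst h
    have h1 : l.castSucc.succAbove l = l.succ := Fin.succAbove_of_le_castSucc _ _ le_rfl
    rw [if_neg (lt_irrefl _), if_pos rfl, if_pos rfl, h1, add_comm]
  · have h1 : i.castSucc.succAbove l = l.succ := Fin.succAbove_of_le_castSucc _ _ (by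
      rw [Fin.le_def, Fin.val_castSucc, Fin.val_castSucc]
      rw [Fin.lt_def] at h
      omega)
    rw [if_neg (not_lt.2 h.le), if_neg (ne_of_gt h), if_neg (ne_of_gt h), h1, add_zero]

private theorem A4B3_of_zero {V : SV} {k m : ℕ} (x : Fin k → V.V m) (i : Fin k) (hi : x i = 0) :
    (RS.of V k).app m x = (0 : (RS V k).V m) := quoOf_mem (VP0 V k) ⟨i, hi⟩

private theorem A4B3_pmG_zero {V : SV} {k m : ℕ} (i : Fin k) (x : Fin (k + 1) → V.V m)
    (j : Fin (k + 1)) (hj : x j = 0) : pmG i x = 0 := by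
  unfold pmG
  by_cases h1 : j = i.castSucc
  · subst h1
    have e1 : mrg i x = x ∘ i.castSucc.succAbove := by
      funext l
      rw [A4B3_mrg2, hj]
      simp
    have e2 : (x ∘ i.succ.succAbove) i = 0 := by
      show x (i.succ.succAbove i) = 0
      rw [Fin.succAbove_of_castSucc_lt _ _ (by
        rw [Fin.lt_def, Fin.val_castSucc, Fin.val_succ]
        omega), hj]
    rw [e1, A4B3_of_zero _ i e2, add_zero]
    exact two_eq_zero' _
  · by_cases h2 : j = i.succ
    · subst h2
      have e1 : mrg i x = x ∘ i.succ.succAbove := by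
        funext l
        rw [A4B3_mrg1, hj]
        simp
      have e2 : (x ∘ i.castSucc.succAbove) i = 0 := by
        show x (i.castSucc.succAbove i) = 0
        rw [Fin.succAbove_of_le_castSucc _ _ le_rfl, hj]
      rw [e1, A4B3_of_zero _ i e2, add_zero]
      exact two_eq_zero' _
    · obtain ⟨l, hl⟩ := Fin.exists_succAbove_eq h1
      obtain ⟨l', hl'⟩ := Fin.exists_succAbove_eq h2
      have hli : l ≠ i := by
        rintro rfl
        rw [Fin.succAbove_of_le_castSucc _ _ le_rfl] at hl
        exact h2 hl.symm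
      have e0 : mrg i x l = 0 := by
        rw [A4B3_mrg2, hl, hj, if_neg hli, add_zero]
      have e1 : (x ∘ i.succ.succAbove) l' = 0 := by
        show x (i.succ.succAbove l') = 0
        rw [hl', hj]
      have e2 : (x ∘ i.castSucc.succAbove) l = 0 := by
        show x (i.castSucc.succAbove l) = 0
        rw [hl, hj]
      rw [A4B3_of_zero _ l e0, A4B3_of_zero _ l' e1, A4B3_of_zero _ l e2, add_zero, add_zero]

theorem exists_pmD (V : SV) (k : ℕ) : ∃ D : SVHom (RS V (k + 1)) (RS V k),
    ∀ (m : ℕ) (x : Fin (k + 1) → V.V m),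
      D.app m ((RS.of V (k + 1)).app m x) = ∑ i : Fin k, pmG i x := by
  let f : Hom (VP V (k + 1)) (RS V k).ss := ⟨fun m x => ∑ i : Fin k, pmG i x, fun {m n} g x => by
    show ∑ i : Fin k, pmG i ((VP V (k + 1)).act g x) = (RS V k).act g (∑ i : Fin k, pmG i x)
    rw [map_sum]
    refine Finset.sum_congr rfl fun i _ => ?_
    unfold pmG
    rw [map_add, map_add, A4B3_mrg_act]
    have h1 : ∀ y : Fin k → V.V n, (RS.of V k).app m ((VP V k).act g y) =
        (RS V k).act g ((RS.of V k).app n y) := fun y => (RS.of V k).nat g y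
    rw [← h1, ← h1, ← h1]
    rfl⟩
  refine ⟨quoLift (VP0 V (k + 1)) f ?_, fun m x => quoLift_of _ f _ m x⟩
  rintro n x ⟨j, hj⟩
  show ∑ i : Fin k, pmG i x = (0 : (RS V k).V n)
  exact Finset.sum_eq_zero fun i _ => A4B3_pmG_zero i x j hj

/-- the bar differential on the smash powers -/
noncomputable def pmD (V : SV) (k : ℕ) : SVHom (RS V (k + 1)) (RS V k) :=
  Classical.choose (exists_pmD V k)

theorem pmD_of (V : SV) (k m : ℕ) (x : Fin (k + 1) → V.V m) :
    (pmD V k).app m ((RS.of V (k + 1)).app m x) = ∑ i : Fin k, pmG i x :=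
  Classical.choose_spec (exists_pmD V k) m x

/-- splitting a subset of `Fin (k+1)` at a point `p` -/
private def A4B3_eq {k : ℕ} (p : Fin (k + 1)) : Finset (Fin k) × Bool ≃ Finset (Fin (k + 1)) where
  toFun y := if y.2 then insert p (y.1.map p.succAboveEmb) else y.1.map p.succAboveEmb
  invFun S := (Finset.univ.filter fun l => p.succAbove l ∈ S, decide (p ∈ S))
  left_inv := by
    rintro ⟨T, b⟩
    refine Prod.ext ?_ ?_
    · ext l
      cases b
      · simp
      · simp [Fin.succAbove_ne]
    · cases b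
      · simp [Fin.succAbove_ne]
      · simp
  right_inv := by
    intro S
    ext l
    by_cases hp : p ∈ S
    · by_cases hl : l = p
      · subst hl
        simp [hp]
      · obtain ⟨l', rfl⟩ := Fin.exists_succAbove_eq hl
        simp [hp, Fin.succAbove_ne]
    · by_cases hl : l = p
      · subst hl
        simp [hp, Fin.succAbove_ne]
      · obtain ⟨l', rfl⟩ := Fin.exists_succAbove_eq hl
        simp [hp]

private theorem A4B3_split {M : Type*} [AddCommMonoid M] {k : ℕ} (p : Fin (k + 1))
    (F : Finset (Fin (k + 1)) → M) :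
    ∑ S, F S = ∑ T : Finset (Fin k), (F (T.map p.succAboveEmb) +
      F (insert p (T.map p.succAboveEmb))) := by
  rw [← Equiv.sum_comp (A4B3_eq p) F, Fintype.sum_prod_type]
  refine Finset.sum_congr rfl fun T _ => ?_
  rw [Fintype.sum_bool, add_comm]
  rfl

private theorem A4B3_psum {V : SV} {k m : ℕ} (j : Fin k) (z : Fin (k + 1) → V.V m)
    (t : Fin (k + 1)) : psum z (dlt j.castSucc.succ t) = psum (mrg j z) t := by
  have hd : (dlt j.castSucc.succ t : Fin (k + 2)) = j.castSucc.succ.succAbove t := rfl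
  have hv : ((j.castSucc.succ.succAbove t : Fin (k + 2)) : ℕ) =
      if (t : ℕ) ≤ (j : ℕ) then (t : ℕ) else (t : ℕ) + 1 := by
    by_cases h : (t : ℕ) ≤ (j : ℕ)
    · rw [if_pos h, Fin.succAbove_of_castSucc_lt _ _ (by
        rw [Fin.lt_def, Fin.val_castSucc, Fin.val_succ, Fin.val_castSucc]
        omega)]
      rfl
    · rw [if_neg h, Fin.succAbove_of_le_castSucc _ _ (by
        rw [Fin.le_def, Fin.val_castSucc, Fin.val_succ, Fin.val_castSucc]
        omega)]
      rfl
  unfold psum
  rw [hd, Fin.sum_univ_succAbove _ j.succ]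
  have h1 : ∀ l : Fin k, (if (j.succ.succAbove l).castSucc < j.castSucc.succ.succAbove t then
      z (j.succ.succAbove l) else 0) = if l.castSucc < t then z (j.succ.succAbove l) else 0 := by
    intro l
    have hw : ((j.succ.succAbove l : Fin (k + 1)) : ℕ) =
        if (l : ℕ) ≤ (j : ℕ) then (l : ℕ) else (l : ℕ) + 1 := by
      by_cases h : (l : ℕ) ≤ (j : ℕ)
      · rw [if_pos h, Fin.succAbove_of_castSucc_lt _ _ (by
          rw [Fin.lt_def, Fin.val_castSucc, Fin.val_succ]
          omega)]
        rfl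
      · rw [if_neg h, Fin.succAbove_of_le_castSucc _ _ (by
          rw [Fin.le_def, Fin.val_castSucc, Fin.val_succ]
          omega)]
        rfl
    refine if_congr ?_ rfl rfl
    rw [Fin.lt_def, Fin.lt_def, hv, Fin.val_castSucc, Fin.val_castSucc, hw]
    split_ifs <;> omega
  have h2 : (if (j.succ : Fin (k + 1)).castSucc < j.castSucc.succ.succAbove t then z j.succ
      else 0) = if j.castSucc < t then z j.succ else 0 := by
    refine if_congr ?_ rfl rfl
    rw [Fin.lt_def, Fin.lt_def, hv, Fin.val_castSucc, Fin.val_castSucc, Fin.val_succ]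
    split_ifs <;> omega
  rw [h2, Finset.sum_congr rfl fun l _ => h1 l]
  have h3 : ∀ l : Fin k, (if l.castSucc < t then mrg j z l else 0) =
      (if l.castSucc < t then z (j.succ.succAbove l) else 0) +
        (if l = j then (if j.castSucc < t then z j.succ else 0) else 0) := by
    intro l
    rw [A4B3_mrg1]
    by_cases hl : l = j
    · subst hl
      by_cases ht : l.castSucc < t
      · simp only [if_pos ht, if_true]
      · simp only [if_neg ht, if_true, add_zero]
    · rw [if_neg hl, if_neg hl, add_zero, add_zero]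
  rw [Finset.sum_congr rfl fun l _ => h3 l, Finset.sum_add_distrib, Finset.sum_ite_eq' Finset.univ j,
    if_pos (Finset.mem_univ _), add_comm]

private theorem A4B3_phi_mid {V : SV} {k m : ℕ} (j : Fin k) (α : Mo m k)
    (z : Fin (k + 1) → V.V m) :
    (phi V (k + 1)).app m ((dlt j.castSucc.succ).comp α, z) = (phi V k).app m (α, mrg j z) := by
  apply Subtype.ext
  funext ab
  show psum z (dlt j.castSucc.succ (α ab.1)) + psum z (dlt j.castSucc.succ (α ab.2)) =
    psum (mrg j z) (α ab.1) + psum (mrg j z) (α ab.2)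
  rw [A4B3_psum, A4B3_psum]

private theorem A4B3_phi_zero {V : SV} {k m : ℕ} (α : Mo m k)
    (z z' : Fin (k + 1) → V.V m) (h : ∀ l : Fin k, z l.succ = z' l.succ) :
    (phi V (k + 1)).app m ((dlt 0).comp α, z) = (phi V (k + 1)).app m ((dlt 0).comp α, z') := by
  have key : ∀ (w : Fin (k + 1) → V.V m) (t : Fin (k + 1)), psum w (dlt 0 t) =
      w 0 + psum (fun l : Fin k => w l.succ) t := by
    intro w t
    have hd : (dlt 0 t : Fin (k + 2)) = t.succ := rfl
    unfold psum
    have h0 : (0 : Fin (k + 1)).castSucc < t.succ := by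
      rw [Fin.lt_def]
      simp
    have hs : ∀ l : Fin k, (if l.succ.castSucc < t.succ then w l.succ else 0) =
        (if l.castSucc < t then w l.succ else 0) := by
      intro l
      refine if_congr ?_ rfl rfl
      rw [Fin.lt_def, Fin.lt_def]
      simp
    rw [hd, Fin.sum_univ_succ, if_pos h0, Finset.sum_congr rfl fun l _ => hs l]
  apply Subtype.ext
  funext ab
  show psum z (dlt 0 (α ab.1)) + psum z (dlt 0 (α ab.2)) =
    psum z' (dlt 0 (α ab.1)) + psum z' (dlt 0 (α ab.2))
  rw [key, key, key, key]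
  have e : (fun l : Fin k => z l.succ) = fun l : Fin k => z' l.succ := funext h
  rw [e]
  have h1 : ∀ a b c : V.V m, a + b + (a + c) = b + c := by
    intro a b c
    have : a + b + (a + c) = (a + a) + (b + c) := by abel
    rw [this, two_eq_zero', zero_add]
  rw [h1, h1]

private theorem A4B3_phi_last {V : SV} {k m : ℕ} (α : Mo m k)
    (z z' : Fin (k + 1) → V.V m) (h : ∀ l : Fin k, z l.castSucc = z' l.castSucc) :
    (phi V (k + 1)).app m ((dlt (Fin.last (k + 1))).comp α, z) =
      (phi V (k + 1)).app m ((dlt (Fin.last (k + 1))).comp α, z') := by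
  have key : ∀ (w : Fin (k + 1) → V.V m) (t : Fin (k + 1)), psum w (dlt (Fin.last (k + 1)) t) =
      psum (fun l : Fin k => w l.castSucc) t := by
    intro w t
    have hd : (dlt (Fin.last (k + 1)) t : Fin (k + 2)) = t.castSucc := Fin.succAbove_last_apply t
    unfold psum
    rw [hd, Fin.sum_univ_castSucc]
    rw [if_neg (by
      rw [Fin.lt_def, Fin.val_castSucc, Fin.val_castSucc, Fin.val_last]
      have := t.2
      omega), add_zero]
    refine Finset.sum_congr rfl fun l _ => if_congr ?_ rfl rfl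
    rw [Fin.lt_def, Fin.lt_def]
    simp
  apply Subtype.ext
  funext ab
  show psum z (dlt _ (α ab.1)) + psum z (dlt _ (α ab.2)) =
    psum z' (dlt _ (α ab.1)) + psum z' (dlt _ (α ab.2))
  rw [key, key, key, key]
  have e : (fun l : Fin k => z l.castSucc) = fun l : Fin k => z' l.castSucc := funext h
  rw [e]

private theorem A4B3_rst_ne {V : SV} {k m : ℕ} (T : Finset (Fin k)) (x : Fin k → V.V m)
    (i l : Fin k) (hl : l ≠ i) : rst (insert i T) x l = rst T x l := by
  unfold rst
  simp only [Finset.mem_insert, hl, false_or]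

private theorem A4B3_rst_map {V : SV} {k m : ℕ} (p : Fin (k + 1)) (T : Finset (Fin k))
    (x : Fin (k + 1) → V.V m) (l : Fin k) :
    rst (T.map p.succAboveEmb) x (p.succAbove l) = rst T (x ∘ p.succAbove) l := by
  unfold rst
  simp

private theorem A4B3_mid {V : SV} {k m : ℕ} {M : Type} [AddCommGroup M] [Module (ZMod 2) M]
    (j : Fin k) (x : Fin (k + 1) → V.V m) (g : (Fin k → V.V m) → M) :
    ∑ S : Finset (Fin (k + 1)), g (mrg j (rst S x)) =
      ∑ T : Finset (Fin k), g (rst T (mrg j x)) +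
        ∑ T : Finset (Fin k), g (rst T (x ∘ j.succ.succAbove)) +
          ∑ T : Finset (Fin k), g (rst T (x ∘ j.castSucc.succAbove)) := by
  rw [A4B3_split j.succ, Finset.sum_add_distrib]
  have hs : j.succ.succAbove j = j.castSucc := Fin.succAbove_of_castSucc_lt _ _ (by
    rw [Fin.lt_def, Fin.val_castSucc, Fin.val_succ]
    omega)
  have e0 : ∀ T : Finset (Fin k), mrg j (rst (T.map j.succ.succAboveEmb) x) =
      rst T (x ∘ j.succ.succAbove) := by
    intro T
    funext l
    rw [A4B3_mrg1, A4B3_rst_map]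
    have h0 : rst (T.map j.succ.succAboveEmb) x j.succ = 0 := by
      unfold rst
      rw [if_neg]
      simp [Fin.succAbove_ne]
    rw [h0]
    simp
  have e1 : ∀ T : Finset (Fin k), mrg j (rst (insert j.succ (T.map j.succ.succAboveEmb)) x) =
      fun l => rst T (x ∘ j.succ.succAbove) l + if l = j then x j.succ else 0 := by
    intro T
    funext l
    rw [A4B3_mrg1, A4B3_rst_ne _ _ _ _ (Fin.succAbove_ne _ _), A4B3_rst_map]
    have h0 : rst (insert j.succ (T.map j.succ.succAboveEmb)) x j.succ = x j.succ := by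
      unfold rst
      rw [if_pos (Finset.mem_insert_self _ _)]
    rw [h0]
  have h1 : ∑ T : Finset (Fin k), (g (mrg j (rst (insert j.succ (T.map j.succ.succAboveEmb)) x)) +
      g (rst T (mrg j x)) + g (rst T (x ∘ j.castSucc.succAbove))) = 0 := by
    refine A4B3_inv j _ fun T hT => ?_
    have a1 : rst T (mrg j x) = rst T (x ∘ j.castSucc.succAbove) := by
      funext l
      unfold rst
      by_cases hl : l ∈ T
      · have hlj : ¬ l = j := fun h => hT (by rw [← h]; exact hl)
        rw [if_pos hl, if_pos hl, A4B3_mrg2, if_neg hlj, add_zero]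
        rfl
      · rw [if_neg hl, if_neg hl]
    have a2 : mrg j (rst (insert j.succ (T.map j.succ.succAboveEmb)) x) =
        rst (insert j T) (x ∘ j.castSucc.succAbove) := by
      rw [e1]
      funext l
      unfold rst
      by_cases hl : l = j
      · subst hl
        rw [if_neg hT, if_pos rfl, if_pos (Finset.mem_insert_self _ _), zero_add]
        show x l.succ = x (l.castSucc.succAbove l)
        rw [Fin.succAbove_of_le_castSucc _ _ le_rfl]
      · rw [if_neg hl, add_zero]
        simp only [Finset.mem_insert, hl, false_or]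
        by_cases hlT : l ∈ T
        · rw [if_pos hlT, if_pos hlT]
          have b1 := A4B3_mrg1 j x l
          have b2 := A4B3_mrg2 j x l
          rw [if_neg hl, add_zero] at b1 b2
          exact b1.symm.trans b2
        · rw [if_neg hlT, if_neg hlT]
    have a3 : mrg j (rst (insert j.succ ((insert j T).map j.succ.succAboveEmb)) x) =
        rst (insert j T) (mrg j x) := by
      rw [e1]
      funext l
      unfold rst
      rw [A4B3_mrg1]
      by_cases hl : l ∈ insert j T
      · rw [if_pos hl, if_pos hl]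
        rfl
      · rw [if_neg hl, if_neg hl, zero_add, if_neg]
        rintro rfl
        exact hl (Finset.mem_insert_self _ _)
    rw [a3, a2, a1, two_eq_zero', zero_add, add_assoc, two_eq_zero', add_zero]
  rw [Finset.sum_congr rfl fun T _ => congrArg g (e0 T)]
  rw [Finset.sum_add_distrib, Finset.sum_add_distrib] at h1
  set A := ∑ T : Finset (Fin k), g (mrg j (rst (insert j.succ (T.map j.succ.succAboveEmb)) x))
  set B := ∑ T : Finset (Fin k), g (rst T (mrg j x))
  set C := ∑ T : Finset (Fin k), g (rst T (x ∘ j.castSucc.succAbove))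
  set E := ∑ T : Finset (Fin k), g (rst T (x ∘ j.succ.succAbove))
  have h2 : A = B + C := by
    have h3 : A + B + C + (B + C) = B + C := by rw [h1, zero_add]
    have h4 : A + B + C + (B + C) = A + ((B + C) + (B + C)) := by abel
    rw [h4, two_eq_zero', add_zero] at h3
    exact h3
  rw [h2]
  abel

private theorem A4B3_faces_of (V : SV) (k m : ℕ) (α : Mo m k) (x : Fin (k + 1) → V.V m) :
    ∑ i : Fin (k + 2), (psi V (k + 1)).app m
      ((Finsupp.single ((dlt i).comp α) 1 : Ch (Del (k + 1)) m) ⊗ₜ[ZMod 2]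
        ((RS.of V (k + 1)).app m x : (RS V (k + 1)).V m)) =
    (psi V k).app m ((Finsupp.single α 1 : Ch (Del k) m) ⊗ₜ[ZMod 2]
      (pmD V k).app m ((RS.of V (k + 1)).app m x)) := by
  have hL : ∀ i : Fin (k + 2), (psi V (k + 1)).app m
      ((Finsupp.single ((dlt i).comp α) 1 : Ch (Del (k + 1)) m) ⊗ₜ[ZMod 2]
        ((RS.of V (k + 1)).app m x : (RS V (k + 1)).V m)) =
      ∑ S : Finset (Fin (k + 1)), ((R.of (barV V).zv).app m
        ((phi V (k + 1)).app m ((dlt i).comp α, rst S x)) : (RB V).V m) :=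
    fun i => psi_of V (k + 1) m _ x
  rw [Finset.sum_congr rfl fun i _ => hL i, Fin.sum_univ_succ, Fin.sum_univ_castSucc]
  have z0 : ∑ S : Finset (Fin (k + 1)), ((R.of (barV V).zv).app m
        ((phi V (k + 1)).app m ((dlt 0).comp α, rst S x)) : (RB V).V m) = 0 := by
    refine A4B3_inv 0 _ fun T _ => ?_
    rw [A4B3_phi_zero α (rst (insert 0 T) x) (rst T x) fun l =>
      A4B3_rst_ne _ _ _ _ (Fin.succ_ne_zero l)]
  have z1 : ∑ S : Finset (Fin (k + 1)), ((R.of (barV V).zv).app m
        ((phi V (k + 1)).app m ((dlt (Fin.last k).succ).comp α, rst S x)) : (RB V).V m) = 0 := by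
    refine A4B3_inv (Fin.last k) _ fun T _ => ?_
    rw [Fin.succ_last, A4B3_phi_last α (rst (insert (Fin.last k) T) x) (rst T x) fun l =>
      A4B3_rst_ne _ _ _ _ (Fin.castSucc_ne_last l)]
  rw [z0, z1, zero_add, add_zero, pmD_of, TensorProduct.tmul_sum, map_sum]
  refine Finset.sum_congr rfl fun j _ => ?_
  rw [Finset.sum_congr rfl fun S _ => congrArg
    (fun w => ((R.of (barV V).zv).app m w : (RB V).V m)) (A4B3_phi_mid j α (rst S x))]
  have h1 := A4B3_mid j x (fun w => ((R.of (barV V).zv).app m ((phi V k).app m (α, w)) :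
    (RB V).V m))
  refine h1.trans ?_
  unfold pmG
  rw [TensorProduct.tmul_add, TensorProduct.tmul_add, map_add, map_add, psi_of, psi_of, psi_of]

theorem psi_faces (V : SV) (k m : ℕ) (α : Mo m k) (y : (RS V (k + 1)).V m) :
    ∑ i : Fin (k + 2), (psi V (k + 1)).app m
      ((Finsupp.single ((dlt i).comp α) 1 : Ch (Del (k + 1)) m) ⊗ₜ[ZMod 2] y) =
    (psi V k).app m ((Finsupp.single α 1 : Ch (Del k) m) ⊗ₜ[ZMod 2] (pmD V k).app m y) := by
  have hy : y ∈ Submodule.span (ZMod 2) (Set.range ((RS.of V (k + 1)).app m)) := by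
    rw [quo_span]; trivial
  induction hy using Submodule.span_induction with
  | zero =>
    rw [map_zero, TensorProduct.tmul_zero, map_zero]
    refine Finset.sum_eq_zero fun i _ => ?_
    rw [TensorProduct.tmul_zero, map_zero]
  | add a b _ _ ha hb =>
    rw [map_add, TensorProduct.tmul_add, map_add, ← ha, ← hb, ← Finset.sum_add_distrib]
    refine Finset.sum_congr rfl fun i _ => ?_
    rw [TensorProduct.tmul_add, map_add]
  | smul r a _ ha =>
    rw [map_smul, TensorProduct.tmul_smul, map_smul, ← ha, Finset.smul_sum]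
    refine Finset.sum_congr rfl fun i _ => ?_
    rw [TensorProduct.tmul_smul, map_smul]
  | mem y hy =>
    obtain ⟨x, rfl⟩ := hy
    exact A4B3_faces_of V k m α x

end MM

end

/-! ### from `Lib_MP_33f7bb_d.A4B4` -/

section

/-!
# A4-B4: `psi` and the filtration

In level `m` the space `(RB V).V m` has the basis `[v]`, `v ≠ 0`, and `FB V k m` is spanned by the `[v]` with `jn v ≤ k`
(`mem_Fj_iff`).  `psi_mem_FB`: `phi V k` has values in `Fj V k`.
For `k + 1`: `psi ([α] ⊗ [x]) ≡ [phi (α, x)]` modulo `FB V k` (`rst S x` has a zero entry for `S ≠ univ`, `phi_degenerate`);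
it is in `FB V k` if `α` is not surjective or `x` has a zero entry.  The space `(KK (k+1)) ⊗ (RS V (k+1))` in level `m` is spanned by the
`[α] ⊗ [x]`, `α` surjective, `x` without zero entries.
* `psi_surj`: enough for `z = [v]`, `jn v = k + 1` (`exists_phi`), `u = [α] ⊗ [x]`.
* `psi_ker`: the kernel of `F[Δ^(k+1)] ⊗ RS → KK (k+1) ⊗ RS` is spanned by the `[α] ⊗ y`, `α` not surjective (exactness of the tensor product
  over a field, or choose the splitting of `F[Δ^(k+1)]` by surjective / non surjective simplices).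
* `psi_inj`: modulo the kernel `u = ∑ c_(α,x) [α] ⊗ [x]` over pairs with `α` surjective, `x` without zero entries;
  `psi u ≡ ∑ c_(α,x) [phi (α, x)]` and the `phi (α, x)` are distinct (`phi_inj`) with exactly `k + 1` jumps (`phi_jn`); if this is in `FB V k`
  all `c` vanish.
-/

open scoped TensorProduct

namespace MM

variable (V : SV)

/-- the projection `F[Δ^k] ⊗ RS V k → K'(k) ⊗ RS V k` -/
noncomputable def prKR (k : ℕ) : SVHom ((lin (Del k)).tens (RS V k)) ((KK k).tens (RS V k)) :=
  (linSub (bd k)).proj.tens (SVHom.id (RS V k))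

private theorem A4B4_deg (m : ℕ) : (barV V).ss.deg (barV V).zv m = (0 : (barV V).V m) :=
  map_zero ((barV V).act _)

private theorem A4B4_jn0 (m : ℕ) : jn (0 : (barV V).V m) = 0 := (jn_eq_zero m 0).2 rfl

private theorem A4B4_pt_le (k m : ℕ) :
    (linSub (Sub.pt (barV V).zv)).car m ≤ (linSub (Fj V k)).car m := by
  apply Finsupp.supported_mono
  intro v hv
  have hv' : v = (0 : (barV V).V m) := by
    rw [← A4B4_deg V m]
    exact hv
  rw [mem_Fj_iff, hv', A4B4_jn0]
  exact Nat.zero_le _

private theorem A4B4_pr (k m : ℕ) (c : Ch (barV V).ss m) :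
    (R.pr (barV V).zv).app m c ∈ FB V k m ↔ c ∈ (linSub (Fj V k)).car m := by
  constructor
  · rintro ⟨c', hc', h⟩
    have h1 : c' - c ∈ (linSub (Sub.pt (barV V).zv)).car m := (Submodule.Quotient.eq _).1 h
    have h2 := A4B4_pt_le V k m h1
    have h3 := Submodule.sub_mem _ hc' h2
    rwa [sub_sub_cancel] at h3
  · intro h
    exact ⟨c, h, rfl⟩

private theorem A4B4_of (k m : ℕ) (v : (barV V).V m) (h : jn v ≤ k) :
    ((R.of (barV V).zv).app m v : (RB V).V m) ∈ FB V k m := by
  refine (A4B4_pr V k m (Finsupp.single v 1)).2 ?_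
  exact Finsupp.single_mem_supported _ _ ((mem_Fj_iff k m v).2 h)

private theorem A4B4_le {k m : ℕ} {N : Submodule (ZMod 2) ((RB V).V m)}
    (h : ∀ v : (barV V).V m, jn v ≤ k → ((R.of (barV V).zv).app m v : (RB V).V m) ∈ N) :
    FB V k m ≤ N := by
  unfold FB
  rw [Submodule.map_le_iff_le_comap]
  intro c hc
  have hc' : c ∈ Finsupp.supported (ZMod 2) (ZMod 2) ((Fj V k).car m) := hc
  rw [Finsupp.supported_eq_span_single] at hc'
  refine Submodule.span_le.2 ?_ hc'
  rintro _ ⟨v, hv, rfl⟩
  exact h v ((mem_Fj_iff k m v).1 hv)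

/-- generators of the tensor product -/
private theorem A4B4_gen {k m : ℕ} (N : Submodule (ZMod 2) (((lin (Del k)).tens (RS V k)).V m))
    (h : ∀ (α : Mo m k) (x : Fin k → V.V m),
      ((Finsupp.single α 1 : Ch (Del k) m) ⊗ₜ[ZMod 2] ((RS.of V k).app m x : (RS V k).V m)) ∈ N)
    (u : ((lin (Del k)).tens (RS V k)).V m) : u ∈ N := by
  induction u using TensorProduct.induction_on with
  | zero => exact Submodule.zero_mem _
  | add a b ha hb => exact Submodule.add_mem _ ha hb
  | tmul a b =>
    have hb : b ∈ Submodule.span (ZMod 2) (Set.range ((RS.of V k).app m)) := by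
      rw [quo_span]; trivial
    induction hb using Submodule.span_induction with
    | zero => rw [TensorProduct.tmul_zero]; exact Submodule.zero_mem _
    | add x y _ _ hx hy => rw [TensorProduct.tmul_add]; exact Submodule.add_mem _ hx hy
    | smul r x _ hx => rw [TensorProduct.tmul_smul]; exact Submodule.smul_mem _ _ hx
    | mem x hx =>
      obtain ⟨y, rfl⟩ := hx
      induction a using Finsupp.induction_linear with
      | zero => rw [TensorProduct.zero_tmul]; exact Submodule.zero_mem _
      | add c c' hc hc' => rw [TensorProduct.add_tmul]; exact Submodule.add_mem _ hc hc'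
      | single α r =>
        have : (Finsupp.single α r : Ch (Del k) m) = r • Finsupp.single α 1 := by
          rw [Finsupp.smul_single, smul_eq_mul, mul_one]
        rw [this, ← TensorProduct.smul_tmul']
        exact Submodule.smul_mem _ _ (h α y)

theorem FB_zero (m : ℕ) : FB V 0 m = ⊥ := by
  rw [eq_bot_iff]
  apply A4B4_le
  intro v hv
  rw [Nat.le_zero, jn_eq_zero] at hv
  rw [Submodule.mem_bot, hv, ← A4B4_deg V m]
  exact R.of_base (barV V).zv m

theorem FB_mono (k m : ℕ) : FB V k m ≤ FB V (k + 1) m := by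
  apply A4B4_le
  intro v hv
  exact A4B4_of V (k + 1) m v (by omega)

theorem FB_top (k m : ℕ) (h : m ≤ k) : FB V k m = ⊤ := by
  rw [eq_top_iff]
  rintro x -
  obtain ⟨c, rfl⟩ := Submodule.Quotient.mk_surjective _ x
  refine (A4B4_pr V k m c).2 ?_
  exact fun v _ => Fj_top k m h v

theorem FB_act (k : ℕ) {m n : ℕ} (f : Mo m n) {x : (RB V).V n} (hx : x ∈ FB V k n) :
    (RB V).act f x ∈ FB V k m := by
  obtain ⟨c, hc, rfl⟩ := hx
  rw [← (R.pr (barV V).zv).nat]
  exact (A4B4_pr V k m _).2 ((linSub (Fj V k)).closed f hc)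

theorem FB_d (k n : ℕ) {x : (RB V).V (n + 1)} (hx : x ∈ FB V k (n + 1)) :
    (RB V).d n x ∈ FB V k n := by
  unfold SV.d
  rw [LinearMap.sum_apply]
  exact Submodule.sum_mem _ fun i _ => FB_act V k (dlt i) hx

theorem psi_mem_FB (k m : ℕ) (u : ((lin (Del k)).tens (RS V k)).V m) :
    (psi V k).app m u ∈ FB V k m := by
  refine A4B4_gen V ((FB V k m).comap ((psi V k).app m)) ?_ u
  intro α x
  rw [Submodule.mem_comap, psi_of]
  refine Submodule.sum_mem _ fun S _ => A4B4_of V k m _ ?_
  rw [← mem_Fj_iff]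
  exact ⟨(α, rst S x), trivial, rfl⟩

/-- `psi ([α] ⊗ [x]) ≡ [phi (α, x)]` -/
private theorem A4B4_psi (k m : ℕ) (α : Mo m (k + 1)) (x : Fin (k + 1) → V.V m) :
    (psi V (k + 1)).app m ((Finsupp.single α 1 : Ch (Del (k + 1)) m) ⊗ₜ[ZMod 2]
      ((RS.of V (k + 1)).app m x : (RS V (k + 1)).V m)) +
      ((R.of (barV V).zv).app m ((phi V (k + 1)).app m (α, x)) : (RB V).V m) ∈ FB V k m := by
  classical
  rw [psi_of, ← Finset.add_sum_erase Finset.univ _ (Finset.mem_univ (Finset.univ : Finset (Fin (k + 1))))]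
  have h1 : rst (Finset.univ : Finset (Fin (k + 1))) x = x := by
    funext i
    unfold rst
    rw [if_pos (Finset.mem_univ i)]
  rw [h1, add_comm, ← add_assoc, two_eq_zero', zero_add]
  refine Submodule.sum_mem _ fun S hS => A4B4_of V k m _ ?_
  refine phi_degenerate k m α _ (Or.inr ?_)
  have hS' : S ≠ Finset.univ := (Finset.mem_erase.1 hS).1
  obtain ⟨i, hi⟩ : ∃ i, i ∉ S := by
    by_contra hcon
    push Not at hcon
    exact hS' (Finset.eq_univ_iff_forall.2 hcon)
  exact ⟨i, by unfold rst; rw [if_neg hi]⟩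

/-- the degenerate generators -/
private theorem A4B4_deg_psi (k m : ℕ) (α : Mo m (k + 1)) (x : Fin (k + 1) → V.V m)
    (h : ¬ Function.Surjective α ∨ ∃ i, x i = 0) :
    (psi V (k + 1)).app m ((Finsupp.single α 1 : Ch (Del (k + 1)) m) ⊗ₜ[ZMod 2]
      ((RS.of V (k + 1)).app m x : (RS V (k + 1)).V m)) ∈ FB V k m := by
  have h1 := A4B4_psi V k m α x
  have h2 := A4B4_of V k m _ (phi_degenerate k m α x h)
  exact (Submodule.add_mem_iff_left _ h2).1 h1

theorem psi_surj (k m : ℕ) (z : (RB V).V m) (hz : z ∈ FB V (k + 1) m) :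
    ∃ u : ((lin (Del (k + 1))).tens (RS V (k + 1))).V m, z + (psi V (k + 1)).app m u ∈ FB V k m := by
  have hle : FB V (k + 1) m ≤ FB V k m ⊔ LinearMap.range ((psi V (k + 1)).app m) := by
    apply A4B4_le
    intro v hv
    by_cases hk : jn v ≤ k
    · exact Submodule.mem_sup_left (A4B4_of V k m v hk)
    · obtain ⟨α, x, -, -, rfl⟩ := exists_phi (k + 1) m v (by omega)
      have h1 := A4B4_psi V k m α x
      rw [Submodule.mem_sup]
      refine ⟨_, h1, _, ⟨(Finsupp.single α 1 : Ch (Del (k + 1)) m) ⊗ₜ[ZMod 2]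
        ((RS.of V (k + 1)).app m x : (RS V (k + 1)).V m), rfl⟩, ?_⟩
      rw [add_comm, ← add_assoc, two_eq_zero', zero_add]
  obtain ⟨a, ha, b, ⟨u, rfl⟩, hab⟩ := Submodule.mem_sup.1 (hle hz)
  refine ⟨u, ?_⟩
  rw [← hab, add_assoc, two_eq_zero', add_zero]
  exact ha

theorem psi_ker (k m : ℕ) (u : ((lin (Del (k + 1))).tens (RS V (k + 1))).V m)
    (hu : (prKR V (k + 1)).app m u = 0) : (psi V (k + 1)).app m u ∈ FB V k m := by
  let f : ((lin (Del (k + 1))).tens (RS V (k + 1))).V m →ₗ[ZMod 2] ((RB V).V m ⧸ FB V k m) :=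
    (FB V k m).mkQ.comp ((psi V (k + 1)).app m)
  let β : Ch (Del (k + 1)) m →ₗ[ZMod 2] ((RS V (k + 1)).V m →ₗ[ZMod 2] ((RB V).V m ⧸ FB V k m)) :=
    TensorProduct.curry f
  have hβ : (linSub (bd (k + 1))).car m ≤ LinearMap.ker β := by
    intro c hc
    have hc' : c ∈ Finsupp.supported (ZMod 2) (ZMod 2) ((bd (k + 1)).car m) := hc
    rw [Finsupp.supported_eq_span_single] at hc'
    refine Submodule.span_le.2 ?_ hc'
    rintro _ ⟨α, hα, rfl⟩
    rw [SetLike.mem_coe, LinearMap.mem_ker]
    apply quo_ext (VP0 V (k + 1))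
    intro x
    show (FB V k m).mkQ ((psi V (k + 1)).app m ((Finsupp.single α 1 : Ch (Del (k + 1)) m) ⊗ₜ[ZMod 2]
      ((RS.of V (k + 1)).app m x : (RS V (k + 1)).V m))) = 0
    rw [Submodule.mkQ_apply, Submodule.Quotient.mk_eq_zero]
    exact A4B4_deg_psi V k m α x (Or.inl hα)
  let χ : ((KK (k + 1)).tens (RS V (k + 1))).V m →ₗ[ZMod 2] ((RB V).V m ⧸ FB V k m) :=
    TensorProduct.lift (Submodule.liftQ _ β hβ)
  have hχ : χ.comp ((prKR V (k + 1)).app m) = f := by
    apply TensorProduct.ext'
    intro c y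
    rfl
  have h1 : f u = 0 := by
    rw [← hχ, LinearMap.comp_apply, hu, map_zero]
  exact (Submodule.Quotient.mk_eq_zero _).1 h1

/-- the inverse on generators -/
private noncomputable def A4B4_g (k m : ℕ) (v : (barV V).V m) : ((KK (k + 1)).tens (RS V (k + 1))).V m := by
  classical
  exact if h : jn v = k + 1 then
    (((linSub (bd (k + 1))).proj.app m (Finsupp.single (exists_phi (k + 1) m v h).choose 1) :
        (KK (k + 1)).V m) ⊗ₜ[ZMod 2]
      ((RS.of V (k + 1)).app m (exists_phi (k + 1) m v h).choose_spec.choose : (RS V (k + 1)).V m))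
    else 0

private theorem A4B4_g_phi (k m : ℕ) (α : Mo m (k + 1)) (x : Fin (k + 1) → V.V m)
    (h : Function.Surjective α) (hx : ∀ i, x i ≠ 0) :
    A4B4_g V k m ((phi V (k + 1)).app m (α, x)) =
      (((linSub (bd (k + 1))).proj.app m (Finsupp.single α 1) : (KK (k + 1)).V m) ⊗ₜ[ZMod 2]
        ((RS.of V (k + 1)).app m x : (RS V (k + 1)).V m)) := by
  classical
  have hj : jn ((phi V (k + 1)).app m (α, x) : (barV V).V m) = k + 1 := phi_jn (k + 1) m α x h hx
  unfold A4B4_g
  rw [dif_pos hj]
  obtain ⟨h1, h2, h3⟩ := (exists_phi (k + 1) m _ hj).choose_spec.choose_spec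
  obtain ⟨h4, h5⟩ := phi_inj (k + 1) m _ _ _ _ h1 h h2 hx h3
  rw [h5]
  congr 3

/-- the inverse modulo the filtration -/
private noncomputable def A4B4_th (k m : ℕ) :
    (RB V).V m →ₗ[ZMod 2] ((KK (k + 1)).tens (RS V (k + 1))).V m :=
  Submodule.liftQ _ (Finsupp.linearCombination (ZMod 2) (A4B4_g V k m)) (by
    intro c hc
    rw [LinearMap.mem_ker, Finsupp.linearCombination_apply, Finsupp.sum]
    refine Finset.sum_eq_zero fun v hv => ?_
    have hv' : v = (0 : (barV V).V m) := by
      rw [← A4B4_deg V m]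
      exact hc hv
    have h1 : A4B4_g V k m v = 0 := by
      unfold A4B4_g
      rw [dif_neg]
      rw [hv', A4B4_jn0]
      omega
    rw [h1, smul_zero])

private theorem A4B4_th_of (k m : ℕ) (v : (barV V).V m) :
    A4B4_th V k m ((R.of (barV V).zv).app m v : (RB V).V m) = A4B4_g V k m v := by
  show Finsupp.linearCombination (ZMod 2) (A4B4_g V k m) (Finsupp.single v 1) = _
  rw [Finsupp.linearCombination_single, one_smul]

private theorem A4B4_th_FB (k m : ℕ) (z : (RB V).V m) (hz : z ∈ FB V k m) : A4B4_th V k m z = 0 := by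
  have h : FB V k m ≤ LinearMap.ker (A4B4_th V k m) := by
    apply A4B4_le
    intro v hv
    rw [LinearMap.mem_ker, A4B4_th_of]
    unfold A4B4_g
    rw [dif_neg]
    omega
  exact h hz

private theorem A4B4_th_psi (k m : ℕ) :
    (A4B4_th V k m).comp ((psi V (k + 1)).app m) = (prKR V (k + 1)).app m := by
  apply LinearMap.ext
  intro u
  have hu : u ∈ LinearMap.eqLocus ((A4B4_th V k m).comp ((psi V (k + 1)).app m))
      ((prKR V (k + 1)).app m) := by
    refine A4B4_gen V _ ?_ u
    intro α x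
    rw [LinearMap.mem_eqLocus, LinearMap.comp_apply]
    by_cases h : ¬ Function.Surjective α ∨ ∃ i, x i = 0
    · rw [A4B4_th_FB V k m _ (A4B4_deg_psi V k m α x h)]
      show _ = (((linSub (bd (k + 1))).proj.app m (Finsupp.single α 1) : (KK (k + 1)).V m) ⊗ₜ[ZMod 2]
        ((RS.of V (k + 1)).app m x : (RS V (k + 1)).V m))
      rcases h with h | h
      · have h1 : ((linSub (bd (k + 1))).proj.app m (Finsupp.single α 1) : (KK (k + 1)).V m) = 0 := by
          refine (Submodule.Quotient.mk_eq_zero _).2 ?_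
          exact Finsupp.single_mem_supported _ _ h
        rw [h1, TensorProduct.zero_tmul]
      · have h1 : ((RS.of V (k + 1)).app m x : (RS V (k + 1)).V m) = 0 := quoOf_mem (VP0 V (k + 1)) h
        rw [h1, TensorProduct.tmul_zero]
    · push Not at h
      have h1 := A4B4_th_FB V k m _ (A4B4_psi V k m α x)
      rw [map_add, A4B4_th_of, A4B4_g_phi V k m α x h.1 h.2] at h1
      have h2 := eq_neg_of_add_eq_zero_left h1
      rw [h2, neg_eq']
      rfl
  exact hu

theorem psi_inj (k m : ℕ) (u : ((lin (Del (k + 1))).tens (RS V (k + 1))).V m)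
    (hu : (psi V (k + 1)).app m u ∈ FB V k m) : (prKR V (k + 1)).app m u = 0 := by
  rw [← A4B4_th_psi, LinearMap.comp_apply]
  exact A4B4_th_FB V k m _ hu

end MM

end

/-! ### from `Lib_MP_33f7bb_d.A4B5` -/

section

/-!
# A4-B5: the bar spectral sequence, one step

`cc V k n y = psi (ι_k × y)`, `ι_k` = the identity simplex of `Δ^k`, `y` of level `p`, `k + p = n`.
`d_cc`: Leibniz (`d_crs`), `d ι_(k+1) = ∑_i [dlt i] = ∑_i (dlt i)_* ι_k`, naturality of `crs` (`crs_map` for the linear simplicial map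
`F[Δ^k] → F[Δ^(k+1)]` induced by `dlt i`, tensor the identity), and `psi_faces` applied to all terms of `crs n ι_k y`
(`= ∑ act a ι_k ⊗ act b y`, `act a ι_k = [a]`); naturality of `pmD`.

`bar_step`.  Apply `LA_rel` with `Z = HF V d (k+1)`, `Z₁ = HF V d k`, `T` and the relation
`R h η` : there are a cycle `z ∈ FB V (k+1) d` representing `h`, a cycle `y ∈ (RS V (k+1)).Z p`, `w ∈ FB V (k+1) (d+1)` with
`z + cc y + d w ∈ FB V k d` and `[y] + η ∈ range (H (pmD (k+1)))`.
(h1): `h = [z]`, `z ∈ FB V (k+1) d` a cycle.  `psi_surj`: `z + psi u ∈ FB V k d`.  `d (psi u) ≡ 0` modulo `FB V k`, so `prKR u` is a cycle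
of `KK (k+1) ⊗ RS` (`psi_inj` for `d u`).  `KK_tens_surj`: `prKR u + iota × y = d w'`, `y` a cycle of level `p`.  Lift `w'` to `w''` (`prKR` is
surjective): `prKR (u + ι × y + d w'') = 0`, so `psi u + cc y + d (psi w'') ∈ FB V k d` (`psi_ker`); `w = psi w''`:
`z + cc y + d w ∈ FB V k d`.  Apply `d`: `d z = 0`, so `d (cc y) = cc (pmD y) ∈ FB V (k-1)` modulo boundaries: precisely
`r = z + cc y + d w ∈ FB V k d` and `d r = cc V k (d-1) (pmD y)`.  If `k = 0`: `RS V 0`: the hypothesis `H(pmD V 0) [y] = 0` holds because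
`pmD V 0 = 0` (empty sum).  If `k = k' + 1`: `r ∈ FB V (k'+1) d`, so `r + psi u' ∈ FB V k' d` (`psi_surj`), hence
`psi (ι_k × pmD y + d u') ∈ FB V k' (d-1)`, so by `psi_inj` `iota × pmD y + d (prKR u') = 0`, and `KK_tens_inj` gives
`pmD y ∈ (RS V k).B p`, i.e. `H(pmD) [y] = 0`.  Now `hT`: `[y] = H(pmD (k+1)) ξ + η`, `η ∈ span T`: `R h η`.
(h0): `R h 0`: `[y] = H(pmD (k+1)) [x]`, `x` a cycle of `RS V (k+2)`: `y = pmD x + d v`.  `d (cc x) = cc (pmD x)` and
`d (cc v) = cc (pmD v) + cc (d v)`, so `z + d (w + cc x + cc v) ∈ FB V k d` (`cc V k (..) (pmD v) ∈ FB V k`): a cycle in `FB V k d` representing `h`.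
Additivity of `R` is clear.
-/

open scoped TensorProduct

namespace MM

variable (V : SV)

/-- the chain maps from the smash powers to the bar construction -/
noncomputable def cc (k n : ℕ) {p : ℕ} (y : (RS V k).V p) : (RB V).V n :=
  (psi V k).app n (crs n (Finsupp.single (OrderHom.id : Mo k k) 1 : Ch (Del k) k) y)

theorem cc_mem_FB (k n : ℕ) {p : ℕ} (y : (RS V k).V p) : cc V k n y ∈ FB V k n :=
  psi_mem_FB V k n _

theorem cc_add (k n : ℕ) {p : ℕ} (y y' : (RS V k).V p) :
    cc V k n (y + y') = cc V k n y + cc V k n y' := by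
  unfold cc
  rw [crs_add_right, map_add]

private theorem A4B5_cc_zero (k n : ℕ) {p : ℕ} : cc V k n (0 : (RS V k).V p) = 0 := by
  have h := cc_add V k n (0 : (RS V k).V p) 0
  rw [add_zero] at h
  exact left_eq_add.1 h

private theorem A4B5_act (k m : ℕ) (a : Mo m k) :
    (lin (Del k)).act a (Finsupp.single (OrderHom.id : Mo k k) 1 : Ch (Del k) k) =
      (Finsupp.single a 1 : Ch (Del k) m) := by
  show Finsupp.mapDomain ((Del k).act a) (Finsupp.single (OrderHom.id : Mo k k) 1) = _
  rw [Finsupp.mapDomain_single]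
  rfl

private theorem A4B5_d_iota (k : ℕ) :
    (lin (Del (k + 1))).d k (Finsupp.single (OrderHom.id : Mo (k + 1) (k + 1)) 1 :
      Ch (Del (k + 1)) (k + 1)) = ∑ i : Fin (k + 2), (Finsupp.single (dlt i) 1 : Ch (Del (k + 1)) k) := by
  rw [SV.d, LinearMap.sum_apply]
  exact Finset.sum_congr rfl fun i _ => A4B5_act (k + 1) k (dlt i)

private theorem A4B5_faces (k N : ℕ) {p : ℕ} (y : (RS V (k + 1)).V p) :
    (psi V (k + 1)).app N (crs N ((lin (Del (k + 1))).d k
      (Finsupp.single (OrderHom.id : Mo (k + 1) (k + 1)) 1 : Ch (Del (k + 1)) (k + 1))) y) =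
      cc V k N ((pmD V k).app p y) := by
  classical
  rw [A4B5_d_iota]
  unfold cc crs
  simp only [map_sum]
  refine Finset.sum_congr rfl fun a _ => Finset.sum_congr rfl fun b _ => ?_
  by_cases h : k + p = N ∧ ∀ i, ((a i : ℕ) + (b i : ℕ) = (i : ℕ))
  · rw [if_pos h, if_pos h, A4B5_act, ← (pmD V k).nat b y, ← psi_faces, TensorProduct.sum_tmul, map_sum]
    refine Finset.sum_congr rfl fun i _ => ?_
    congr 2
    show Finsupp.mapDomain ((Del (k + 1)).act a) (Finsupp.single (dlt i) 1) = _
    rw [Finsupp.mapDomain_single]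
  · rw [if_neg h, if_neg h, map_zero, map_zero]

theorem d_cc (k p n : ℕ) (hn : k + p = n) (y : (RS V (k + 1)).V (p + 1)) :
    (RB V).d (n + 1) (cc V (k + 1) (n + 2) y) =
      cc V k (n + 1) ((pmD V k).app (p + 1) y) + cc V (k + 1) (n + 1) ((RS V (k + 1)).d p y) := by
  rw [← A4B5_faces]
  unfold cc
  rw [← (psi V (k + 1)).map_d, d_crs, map_add]

theorem d_cc_zero (k : ℕ) (y : (RS V (k + 1)).V 0) :
    (RB V).d k (cc V (k + 1) (k + 1) y) = cc V k k ((pmD V k).app 0 y) := by
  rw [← A4B5_faces]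
  unfold cc
  rw [← (psi V (k + 1)).map_d, d_crs_zero_right]

private theorem A4B5_d_cyc (k p n : ℕ) (hn : k + p = n) (y : (RS V (k + 1)).V p)
    (hy : y ∈ (RS V (k + 1)).Z p) :
    (RB V).d n (cc V (k + 1) (n + 1) y) = cc V k n ((pmD V k).app p y) := by
  cases p with
  | zero =>
    obtain rfl : k = n := by omega
    exact d_cc_zero V k y
  | succ p =>
    obtain ⟨m, rfl⟩ : ∃ m, n = m + 1 := ⟨n - 1, by omega⟩
    have h1 : (RS V (k + 1)).d p y = 0 := hy
    rw [d_cc V k p m (by omega) y, h1, A4B5_cc_zero, add_zero]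

private theorem A4B5_dd (W : SV) (n : ℕ) (w : W.V (n + 2)) : W.d n (W.d (n + 1) w) = 0 :=
  W.d_d w

/-- classes with a representative in the `k`-th filtration -/
noncomputable def HF (d k : ℕ) : Submodule (ZMod 2) ((RB V).H d) :=
  (Submodule.comap ((RB V).Z d).subtype (FB V k d)).map
    (Submodule.mkQ (Submodule.comap ((RB V).Z d).subtype ((RB V).B d)))

private theorem A4B5_HF {d k : ℕ} {h : (RB V).H d} : h ∈ HF V d k ↔
    ∃ z ∈ FB V k d, ∃ hz : z ∈ (RB V).Z d, (RB V).cls z hz = h := by
  constructor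
  · rintro ⟨x, hx, rfl⟩
    exact ⟨x.1, hx, x.2, rfl⟩
  · rintro ⟨z, hz1, hz2, rfl⟩
    exact ⟨⟨z, hz2⟩, hz1, rfl⟩

theorem HF_zero (d : ℕ) : HF V d 0 = ⊥ := by
  rw [eq_bot_iff]
  intro h hh
  obtain ⟨z, hz1, hz2, rfl⟩ := (A4B5_HF V).1 hh
  rw [FB_zero] at hz1
  rw [Submodule.mem_bot]
  exact A3Box_cls_zero ((Submodule.mem_bot _).1 hz1) hz2

theorem HF_top (d : ℕ) : HF V d d = ⊤ := by
  rw [eq_top_iff]
  intro h _
  obtain ⟨z, hz, rfl⟩ := A3Box_exists_cls h
  refine (A4B5_HF V).2 ⟨z, ?_, hz, rfl⟩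
  rw [FB_top V d d le_rfl]
  exact Submodule.mem_top

private theorem A4B5_pr_crs (k n : ℕ) {p : ℕ} (y : (RS V k).V p) :
    (prKR V k).app n (crs n (Finsupp.single (OrderHom.id : Mo k k) 1 : Ch (Del k) k) y) =
      crs n (KK.iota k) y := by
  unfold prKR
  rw [crs_map]
  rfl

private theorem A4B5_pr_surj (k n : ℕ) (w : ((KK k).tens (RS V k)).V n) :
    ∃ u, (prKR V k).app n u = w := by
  have h : Function.Surjective (TensorProduct.map ((linSub (bd k)).proj.app n)
      ((SVHom.id (RS V k)).app n)) :=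
    TensorProduct.map_surjective (Submodule.mkQ_surjective _) Function.surjective_id
  exact h w

private theorem A4B5_pmD_zero (p : ℕ) (y : (RS V 1).V p) : (pmD V 0).app p y = 0 := by
  have h : (pmD V 0).app p = 0 := by
    refine quo_ext (VP0 V 1) fun x => ?_
    exact pmD_of V 0 p x
  rw [h, LinearMap.zero_apply]

/-- main step: representatives -/
private theorem A4B5_h1 (k p n : ℕ) (hn : k + p = n) (z : (RB V).V (n + 1))
    (hz1 : z ∈ FB V (k + 1) (n + 1)) (hz2 : z ∈ (RB V).Z (n + 1)) :
    ∃ y, ∃ _ : y ∈ (RS V (k + 1)).Z p, ∃ w ∈ FB V (k + 1) (n + 2),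
      z + cc V (k + 1) (n + 1) y + (RB V).d (n + 1) w ∈ FB V k (n + 1) := by
  obtain ⟨u, hu⟩ := psi_surj V k (n + 1) z hz1
  have hdz : (RB V).d n z = 0 := hz2
  have h1 : (psi V (k + 1)).app n (((lin (Del (k + 1))).tens (RS V (k + 1))).d n u) ∈ FB V k n := by
    rw [(psi V (k + 1)).map_d]
    have h := FB_d V k n hu
    rwa [map_add, hdz, zero_add] at h
  have h2 := psi_inj V k n _ h1
  have h3 : (prKR V (k + 1)).app (n + 1) u ∈ ((KK (k + 1)).tens (RS V (k + 1))).Z (n + 1) := by
    show ((KK (k + 1)).tens (RS V (k + 1))).d n ((prKR V (k + 1)).app (n + 1) u) = 0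
    rw [← (prKR V (k + 1)).map_d]
    exact h2
  obtain ⟨y, hy, w', hw'⟩ := KK_tens_surj (k + 1) (RS V (k + 1)) p (n + 1) (by omega) _ h3
  obtain ⟨w, rfl⟩ := A4B5_pr_surj V (k + 1) (n + 2) w'
  refine ⟨y, hy, (psi V (k + 1)).app (n + 2) w, psi_mem_FB V (k + 1) (n + 2) w, ?_⟩
  have h4 := psi_ker V k (n + 1) (u + crs (n + 1) (Finsupp.single (OrderHom.id : Mo (k + 1) (k + 1)) 1 :
    Ch (Del (k + 1)) (k + 1)) y + ((lin (Del (k + 1))).tens (RS V (k + 1))).d (n + 1) w) (by
      rw [map_add, map_add, A4B5_pr_crs, (prKR V (k + 1)).map_d, hw', two_eq_zero'])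
  rw [map_add, map_add, (psi V (k + 1)).map_d] at h4
  have h5 := (FB V k (n + 1)).add_mem hu h4
  have h6 : ∀ a b c d : (RB V).V (n + 1), a + b + (b + c + d) = a + c + d := by
    intro a b c d
    have := two_eq_zero' b
    calc a + b + (b + c + d) = a + (b + b) + c + d := by abel
      _ = a + c + d := by rw [this, add_zero]
  rw [h6] at h5
  exact h5

/-- main step: the representative is a cycle for the bar differential -/
private theorem A4B5_h2 (k p n : ℕ) (hn : k + p = n) (z : (RB V).V (n + 1))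
    (hz2 : z ∈ (RB V).Z (n + 1)) (y : (RS V (k + 1)).V p) (hy : y ∈ (RS V (k + 1)).Z p)
    (w : (RB V).V (n + 2))
    (hr : z + cc V (k + 1) (n + 1) y + (RB V).d (n + 1) w ∈ FB V k (n + 1)) :
    (pmD V k).app p y ∈ (RS V k).B p := by
  cases k with
  | zero =>
    rw [A4B5_pmD_zero]
    exact Submodule.zero_mem _
  | succ k =>
    have hdz : (RB V).d n z = 0 := hz2
    obtain ⟨u, hu⟩ := psi_surj V k (n + 1) _ hr
    have h1 := FB_d V k n hu
    rw [map_add, map_add, map_add, hdz, zero_add, A4B5_dd, add_zero,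
      A4B5_d_cyc V (k + 1) p n hn y hy, ← (psi V (k + 1)).map_d] at h1
    have h2 := psi_inj V k n (crs n (Finsupp.single (OrderHom.id : Mo (k + 1) (k + 1)) 1 :
      Ch (Del (k + 1)) (k + 1)) ((pmD V (k + 1)).app p y) +
        ((lin (Del (k + 1))).tens (RS V (k + 1))).d n u) (by
          rw [map_add]
          exact h1)
    rw [map_add, A4B5_pr_crs, (prKR V (k + 1)).map_d] at h2
    refine KK_tens_inj (k + 1) (RS V (k + 1)) p n (by omega) _ ((pmD V (k + 1)).map_Z hy) ?_
    refine ⟨(prKR V (k + 1)).app (n + 1) u, ?_⟩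
    have h3 := two_eq_zero' (((KK (k + 1)).tens (RS V (k + 1))).d n ((prKR V (k + 1)).app (n + 1) u))
    exact (add_right_cancel (h2.trans h3.symm)).symm

theorem bar_step (k p d : ℕ) (hp : k + 1 + p = d) (T : Finset ((RS V (k + 1)).H p))
    (hT : ∀ x : (RS V (k + 1)).H p, SV.Hmap (pmD V k) p x = 0 →
      x ∈ LinearMap.range (SV.Hmap (pmD V (k + 1)) p) ⊔
        Submodule.span (ZMod 2) (T : Set ((RS V (k + 1)).H p))) :
    ∃ T' : Finset ((RB V).H d), T'.card ≤ T.card ∧
      HF V d (k + 1) ≤ HF V d k ⊔ Submodule.span (ZMod 2) (T' : Set ((RB V).H d)) := by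
  obtain ⟨n, rfl⟩ : ∃ n, d = n + 1 := ⟨d - 1, by omega⟩
  have hn : k + p = n := by omega
  refine LA_rel (HF V (n + 1) (k + 1)) (HF V (n + 1) k)
    (fun h η => ∃ z ∈ FB V (k + 1) (n + 1), ∃ hz : z ∈ (RB V).Z (n + 1), ∃ y,
      ∃ hy : y ∈ (RS V (k + 1)).Z p, ∃ w ∈ FB V (k + 1) (n + 2), (RB V).cls z hz = h ∧
        z + cc V (k + 1) (n + 1) y + (RB V).d (n + 1) w ∈ FB V k (n + 1) ∧
        (RS V (k + 1)).cls y hy + η ∈ LinearMap.range (SV.Hmap (pmD V (k + 1)) p)) ?_ ?_ T ?_ ?_
  · refine ⟨0, Submodule.zero_mem _, Submodule.zero_mem _, 0, Submodule.zero_mem _, 0,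
      Submodule.zero_mem _, A3Box_cls_zero rfl _, ?_, ?_⟩
    · rw [A4B5_cc_zero, map_zero, add_zero, add_zero]
      exact Submodule.zero_mem _
    · rw [A3Box_cls_zero rfl, add_zero]
      exact Submodule.zero_mem _
  · rintro a e a' e' ⟨z, hz1, hz2, y, hy, w, hw, rfl, h1, h2⟩
      ⟨z', hz1', hz2', y', hy', w', hw', rfl, h1', h2'⟩
    refine ⟨z + z', Submodule.add_mem _ hz1 hz1', Submodule.add_mem _ hz2 hz2', y + y',
      Submodule.add_mem _ hy hy', w + w', Submodule.add_mem _ hw hw', A3Box_cls_add hz2 hz2', ?_, ?_⟩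
    · have e1 : z + z' + cc V (k + 1) (n + 1) (y + y') + (RB V).d (n + 1) (w + w') =
          (z + cc V (k + 1) (n + 1) y + (RB V).d (n + 1) w) +
          (z' + cc V (k + 1) (n + 1) y' + (RB V).d (n + 1) w') := by
        rw [cc_add, map_add]
        abel
      rw [e1]
      exact Submodule.add_mem _ h1 h1'
    · have e1 : (RS V (k + 1)).cls (y + y') (Submodule.add_mem _ hy hy') + (e + e') =
          ((RS V (k + 1)).cls y hy + e) + ((RS V (k + 1)).cls y' hy' + e') := by
        rw [A3Box_cls_add hy hy']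
        abel
      rw [e1]
      exact Submodule.add_mem _ h2 h2'
  · intro h hh
    obtain ⟨z, hz1, hz2, rfl⟩ := (A4B5_HF V).1 hh
    obtain ⟨y, hy, w, hw, hr⟩ := A4B5_h1 V k p n hn z hz1 hz2
    have hB := A4B5_h2 V k p n hn z hz2 y hy w hr
    have h0 : SV.Hmap (pmD V k) p ((RS V (k + 1)).cls y hy) = 0 := by
      rw [SV.Hmap_cls]
      have h3 : (RS V k).cls ((pmD V k).app p y) ((pmD V k).map_Z hy) =
          (RS V k).cls 0 (Submodule.zero_mem _) :=
        A3Box_cls_eq _ _ (by rw [add_zero]; exact hB)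
      rw [h3, A3Box_cls_zero rfl]
    obtain ⟨a, ha, e, he, hae⟩ := Submodule.mem_sup.1 (hT _ h0)
    refine ⟨e, he, z, hz1, hz2, y, hy, w, hw, rfl, hr, ?_⟩
    have h4 : (RS V (k + 1)).cls y hy + e = a := by
      rw [← hae, add_assoc a e e, two_eq_zero' e, add_zero]
    rw [h4]
    exact ha
  · rintro h hh ⟨z, hz1, hz2, y, hy, w, hw, rfl, hr, hx⟩
    rw [add_zero] at hx
    obtain ⟨x, hx⟩ := hx
    obtain ⟨x, hxZ, rfl⟩ := A3Box_exists_cls x
    rw [SV.Hmap_cls] at hx
    obtain ⟨v, hv⟩ := A3Box_cls_rel hx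
    have e1 : (RB V).d (n + 1) (cc V (k + 2) (n + 2) x) =
        cc V (k + 1) (n + 1) ((pmD V (k + 1)).app p x) :=
      A4B5_d_cyc V (k + 1) p (n + 1) (by omega) x hxZ
    have e2 : (RB V).d (n + 1) (cc V (k + 1) (n + 2) v) =
        cc V k (n + 1) ((pmD V k).app (p + 1) v) +
          cc V (k + 1) (n + 1) ((RS V (k + 1)).d p v) := d_cc V k p n hn v
    rw [hv, cc_add] at e2
    refine (A4B5_HF V).2 ⟨z + (RB V).d (n + 1) (w + cc V (k + 2) (n + 2) x + cc V (k + 1) (n + 2) v),
      ?_, ?_, ?_⟩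
    · rw [map_add, map_add, e1, e2]
      have h6 : z + ((RB V).d (n + 1) w + cc V (k + 1) (n + 1) ((pmD V (k + 1)).app p x) +
          (cc V k (n + 1) ((pmD V k).app (p + 1) v) +
            (cc V (k + 1) (n + 1) ((pmD V (k + 1)).app p x) + cc V (k + 1) (n + 1) y))) =
          (z + cc V (k + 1) (n + 1) y + (RB V).d (n + 1) w) +
            cc V k (n + 1) ((pmD V k).app (p + 1) v) := by
        have := two_eq_zero' (cc V (k + 1) (n + 1) ((pmD V (k + 1)).app p x))
        calc _ = (z + cc V (k + 1) (n + 1) y + (RB V).d (n + 1) w) +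
            cc V k (n + 1) ((pmD V k).app (p + 1) v) +
            (cc V (k + 1) (n + 1) ((pmD V (k + 1)).app p x) +
              cc V (k + 1) (n + 1) ((pmD V (k + 1)).app p x)) := by abel
          _ = _ := by rw [this, add_zero]
      rw [h6]
      exact Submodule.add_mem _ hr (cc_mem_FB V k (n + 1) _)
    · refine Submodule.add_mem _ hz2 ?_
      show (RB V).d n _ = 0
      exact A4B5_dd _ _ _
    · apply A3Box_cls_eq
      refine ⟨w + cc V (k + 2) (n + 2) x + cc V (k + 1) (n + 2) v, ?_⟩
      have h7 : ∀ b : (RB V).V (n + 1), b = z + b + z := by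
        intro b
        rw [add_comm z b, add_assoc b z z, two_eq_zero' z, add_zero]
      exact h7 _

end MM

end
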