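import Pool.Agent.Lib_MP_33f7bb_m.G05
import Pool.Agent.Lib_MP_33f7bb_m.G13
import Pool.Agent.Lib_MP_33f7bb_m.G22
import Pool.Agent.Lib_MP_33f7bb_m.G23

/-!
# MP_33f7bb_an, negative answer to Q1: merged library part G24

Concatenation of files of `Lib_MP_33f7bb_an` and `Lib_MP_33f7bb_d` (each in its own section), only to save build time.
-/

/-! ### from `Lib_MP_33f7bb_d.A3Pol1` -/

section

/-!
# A3-20: the cohomology ring of `B(ZMod 2)^I`, `I` finite, is a polynomial ring

* `CPoly_B`: `(xB)^n = CR.hom n (xP n)` (`xB_pow`) and `xP n` is a basis of `Hc BZ2 n` (`Hc_B_eq`, `xP_eU`); index set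
  `Unit →₀ ℕ`.
* `CPoly_Bpow`: induction on the finite type `I` (`Finite.induction_empty_option`): invariance under `I ≃ J` (the isomorphism of
  simplicial sets `Bpow I ≅ Bpow J` and `CBasis.of_iso`, `CBasis.reindex`); `I = PEmpty`: `Bpow I` has one simplex in each dimension
  (as `PT`: cycles of positive degree are boundaries, `H_0 = F`), the only monomial is `1`; `Option I`: the isomorphism
  `Bpow (Option I) → BZ2 × Bpow I` (bijective in every degree, `Hmap_bijective`), `CPoly.prod` for `Unit ⊕ I`, reindexing along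
  `Unit ⊕ I ≃ Option I`, and `CR.map (fst) (CR.hom 1 xB)` etc. pull back to the classes `xI`.
* `pol_injective`, `exists_pol`: linear independence / spanning of the monomials `e ↦ ∏ (xI i)^(e i)`: `pol (monomial e r) =
  r • ∏ ..`; a polynomial `f` with `pol f = 0` has all homogeneous components `f_d` with `(pol f_d) d = (pol f) d = 0`.
* `pol_isHom`: monomials of degree `n` go to homogeneous elements of degree `n` (`CR.IsHom.prod`, `CR.IsHom.mul`).
-/

open scoped TensorProduct

namespace MM

private theorem A3Pol1_hom_self {Z : SS} (n : ℕ) (a : Hc Z n) : (CR.hom n a : CR Z) n = a :=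
  Pi.single_eq_same n a

private theorem A3Pol1_ssum {Z : SS} {I : Type} (a : I → CR Z) (d : ℕ) (i : I) (r : ZMod 2) :
    ((Finsupp.single i r).sum fun i r => r • (a i d : Hc Z d)) = r • (a i d : Hc Z d) :=
  Finsupp.sum_single_index (zero_smul _ _)

private theorem A3Pol1_eq_single {I : Type} (c : I →₀ ZMod 2) (d : I)
    (h : ∀ i, c i ≠ 0 → i = d) : c = Finsupp.single d (c d) := by
  refine Finsupp.ext fun i => ?_
  by_cases hi : i = d
  · subst hi
    rw [Finsupp.single_eq_same]
  · rw [Finsupp.single_eq_of_ne hi]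
    by_contra hne
    exact hi (h i hne)

private theorem A3Pol1_lin {Z Z' : SS} (f : Hom Z Z') (hf : ∀ n, Function.Bijective (f.app n))
    (n : ℕ) : Function.Bijective ((linMap f).app n) :=
  ⟨Finsupp.mapDomain_injective (hf n).1, Finsupp.mapDomain_surjective (hf n).2⟩

/-- transport of polynomial generators along an isomorphism and a bijection of the index sets -/
private theorem A3Pol1_re {Z Z' : SS} {I J : Type} {dg : I → ℕ} {z : I → CR Z} {dg' : J → ℕ}
    {z' : J → CR Z'} (h : CPoly Z' dg' z') (f : Hom Z Z')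
    (hf : ∀ n, Function.Bijective (f.app n)) (e : I ≃ J) (hd : ∀ i, dg i = dg' (e i))
    (hz : ∀ i, z i = CR.map f (z' (e i))) : CPoly Z dg z := by
  refine ((CBasis.of_iso f (Hmap_bijective _ (A3Pol1_lin f hf)) h).reindex
    (Finsupp.equivCongrLeft e)).congr ?_ ?_
  · intro m
    rw [Finsupp.equivCongrLeft_apply, Finsupp.sum_equivMapDomain]
    exact Finsupp.sum_congr fun i _ => by rw [hd]
  · intro m
    rw [Finsupp.equivCongrLeft_apply, Finsupp.prod_equivMapDomain, Finsupp.prod, Finsupp.prod,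
      map_prod]
    exact Finset.prod_congr rfl fun i _ => by rw [hz, map_pow]

private theorem A3Pol1_basB : CBasis BZ2 (fun n : ℕ => n) (fun n => CR.hom n (xP n)) := by
  refine ⟨fun n => CR.isHom_hom n _, fun d => ?_, fun d => ⟨fun c hc h0 => ?_, fun y => ?_⟩⟩
  · refine (Set.finite_singleton d).subset ?_
    intro i hi
    exact hi
  · have hc1 : c = Finsupp.single d (c d) := A3Pol1_eq_single c d hc
    rw [hc1] at h0
    have h1 : c d • xP d = 0 := by
      rw [← (A3Pol1_ssum (fun n => CR.hom n (xP n)) d d (c d)).symm.trans h0]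
      exact congrArg (fun w : Hc BZ2 d => c d • w) (A3Pol1_hom_self d (xP d)).symm
    have h2 := LinearMap.congr_fun h1 (eU d)
    rw [LinearMap.smul_apply, xP_eU, smul_eq_mul, mul_one] at h2
    rw [hc1, h2]
    exact Finsupp.single_zero _
  · refine ⟨Finsupp.single d (y (eU d)), fun i hi => ?_, ?_⟩
    · by_contra hne
      exact hi (Finsupp.single_eq_of_ne hne)
    · refine (A3Pol1_ssum (fun n => CR.hom n (xP n)) d d (y (eU d))).trans ?_
      refine Eq.trans ?_ (Hc_B_eq d y).symm
      exact congrArg (fun w : Hc BZ2 d => y (eU d) • w) (A3Pol1_hom_self d (xP d))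

theorem CPoly_B : CPoly BZ2 (fun _ : Unit => 1) (fun _ => CR.hom 1 xB) := by
  have hs : ∀ e : Unit →₀ ℕ, e = Finsupp.single () (e ()) := by
    intro e
    refine Finsupp.ext fun i => ?_
    rw [Finsupp.single_eq_same]
  refine (A3Pol1_basB.reindex (Finsupp.uniqueEquiv (M := ℕ) ())).congr ?_ ?_
  · intro e
    rw [hs e, Finsupp.sum_single_index (by ring)]
    rw [mul_one]
    simp
  · intro e
    have h1 : (Finsupp.single () (e ())).prod (fun (_ : Unit) (k : ℕ) =>
        (CR.hom 1 xB : CR BZ2) ^ k) = (CR.hom 1 xB : CR BZ2) ^ (e ()) :=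
      Finsupp.prod_single_index (pow_zero _)
    rw [← hs e] at h1
    exact h1.trans (xB_pow _)

private theorem A3Pol1_pt_d (k : ℕ) (z : Ch PT (k + 1)) :
    (lin PT).d k z = ((k + 2 : ℕ) : ZMod 2) • (z : Ch PT k) := by
  rw [SV.d, LinearMap.sum_apply]
  have h : ∀ i : Fin (k + 2), (lin PT).act (dlt i) z = (z : Ch PT k) := by
    intro i
    show Finsupp.mapDomain (PT.act (dlt i)) z = z
    exact Finsupp.mapDomain_id
  rw [Finset.sum_congr rfl (fun i _ => h i), Finset.sum_const, Finset.card_univ,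
    Fintype.card_fin, Nat.cast_smul_eq_nsmul]

private theorem A3Pol1_pt_B {p : ℕ} (hp : p ≠ 0) {z : Ch PT p} (hz : z ∈ (lin PT).Z p) :
    z ∈ (lin PT).B p := by
  obtain ⟨k, rfl⟩ := Nat.exists_eq_succ_of_ne_zero hp
  have h1 : (lin PT).d k z = 0 := hz
  rw [A3Pol1_pt_d] at h1
  have hc : ∀ a : ZMod 2, a = 1 ∨ (a = 0 ∧ a + 1 = 1) := by decide
  rcases hc ((k + 2 : ℕ) : ZMod 2) with h3 | ⟨h3, h4⟩
  · rw [h3, one_smul] at h1
    have h4 : z = 0 := h1
    rw [h4]
    exact Submodule.zero_mem _
  · refine ⟨(z : Ch PT (k + 2)), ?_⟩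
    have h2 := A3Pol1_pt_d (k + 1) z
    refine h2.trans ?_
    have h5 : ((k + 1 + 2 : ℕ) : ZMod 2) = 1 := by
      rw [← h4]
      push_cast
      ring
    rw [h5, one_smul]

private theorem A3Pol1_pt_bas : CBasis PT (fun _ : PEmpty →₀ ℕ => 0) (fun _ => (1 : CR PT)) := by
  have hv : Hc.unit PT ((lin PT).cls (Finsupp.single () 1) Submodule.mem_top) = 1 := by
    rw [Hc.unit_cls, Finsupp.sum_single_index rfl]
  refine ⟨fun _ => CR.isHom_one, fun d => Set.toFinite _, fun d => ?_⟩
  rcases Nat.eq_zero_or_pos d with rfl | hd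
  · refine ⟨fun c _ h0 => ?_, fun y => ?_⟩
    · have hc1 : c = Finsupp.single 0 (c 0) :=
        A3Pol1_eq_single c 0 fun i _ => Subsingleton.elim _ _
      rw [hc1] at h0
      have h1 : c 0 • Hc.unit PT = 0 :=
        (A3Pol1_ssum (fun _ : PEmpty →₀ ℕ => (1 : CR PT)) 0 0 (c 0)).symm.trans h0
      have h2 := LinearMap.congr_fun h1 ((lin PT).cls (Finsupp.single () 1) Submodule.mem_top)
      rw [LinearMap.smul_apply, hv, smul_eq_mul, mul_one] at h2
      rw [hc1, h2]
      exact Finsupp.single_zero _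
    · refine ⟨Finsupp.single 0 (y ((lin PT).cls (Finsupp.single () 1) Submodule.mem_top)),
        fun _ _ => rfl, ?_⟩
      refine (A3Pol1_ssum (fun _ : PEmpty →₀ ℕ => (1 : CR PT)) 0 0 _).trans ?_
      show y _ • Hc.unit PT = y
      apply LinearMap.ext
      intro w
      obtain ⟨z, hz, rfl⟩ := A3Box_exists_cls w
      rw [LinearMap.smul_apply]
      have hz1 : z = (z ()) • (Finsupp.single () 1 : Ch PT 0) := by
        ext
        simp
      have hz2 : (lin PT).cls z hz = (z ()) • (lin PT).cls (Finsupp.single () 1) Submodule.mem_top := by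
        rw [← A3Box_cls_smul]
        exact A3Box_cls_congr hz1 _ _
      rw [hz2, (Hc.unit PT).map_smul, y.map_smul, hv, smul_eq_mul, smul_eq_mul, smul_eq_mul,
        mul_one, mul_comm]
  · have h0 : ∀ w : (lin PT).H d, w = 0 := by
      intro w
      obtain ⟨z, hz, rfl⟩ := A3Box_exists_cls w
      exact (Submodule.Quotient.mk_eq_zero _).2 (A3Pol1_pt_B (by omega) hz)
    refine ⟨fun c hc _ => ?_, fun y => ⟨0, fun i hi => absurd rfl hi, ?_⟩⟩
    · refine Finsupp.ext fun i => ?_
      by_contra hi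
      have h1 : 0 = d := hc i hi
      omega
    · rw [Finsupp.sum_zero_index]
      apply LinearMap.ext
      intro w
      rw [h0 w, map_zero, map_zero]

private def A3Pol1_fE : Hom (Bpow PEmpty) PT := ⟨fun _ _ => (), fun _ _ => rfl⟩

private theorem A3Pol1_empty : CPoly (Bpow PEmpty) (fun _ : PEmpty => 1)
    (fun i => CR.hom 1 (xI i)) := by
  have hf : ∀ n, Function.Bijective (A3Pol1_fE.app n) := by
    intro n
    constructor
    · intro x y _
      funext i
      exact i.elim
    · intro _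
      exact ⟨fun i => i.elim, rfl⟩
  refine (CBasis.of_iso A3Pol1_fE (Hmap_bijective _ (A3Pol1_lin _ hf)) A3Pol1_pt_bas).congr ?_ ?_
  · intro e
    have he : e = 0 := Subsingleton.elim _ _
    rw [he, Finsupp.sum_zero_index]
  · intro e
    have he : e = 0 := Subsingleton.elim _ _
    rw [he, Finsupp.prod_zero_index, map_one]

private theorem A3Pol1_hc_comp {Z Z' Z'' : SS} (g : Hom Z' Z'') (f : Hom Z Z') (n : ℕ)
    (a : Hc Z'' n) : CR.map f (CR.hom n (Hc.map g n a)) = CR.hom n (Hc.map (g.comp f) n a) := by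
  rw [← CR.map_hom, ← CR.map_hom, CR.map_comp]

private theorem A3Pol1_equiv {I J : Type} (e : I ≃ J)
    (h : CPoly (Bpow I) (fun _ : I => 1) (fun i => CR.hom 1 (xI i))) :
    CPoly (Bpow J) (fun _ : J => 1) (fun i => CR.hom 1 (xI i)) := by
  refine A3Pol1_re h ⟨fun _ x j => x (e j), fun _ _ => rfl⟩ ?_ e.symm (fun _ => rfl) ?_
  · intro n
    constructor
    · intro x y hxy
      funext j
      have h1 := congrFun hxy (e.symm j)
      have h2 : x (e (e.symm j)) = y (e (e.symm j)) := h1
      rwa [e.apply_symm_apply] at h2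
    · intro y
      refine ⟨fun j => y (e.symm j), ?_⟩
      funext i
      show y (e.symm (e i)) = y i
      rw [e.symm_apply_apply]
  · intro j
    unfold xI
    rw [A3Pol1_hc_comp]
    have h1 : (Bproj (e.symm j)).comp (⟨fun _ x j => x (e j), fun _ _ => rfl⟩ :
        Hom (Bpow J) (Bpow I)) = Bproj j := by
      apply Hom.ext
      funext n x
      show x (e (e.symm j)) = x j
      rw [e.apply_symm_apply]
    rw [h1]

private theorem A3Pol1_option {I : Type}
    (h : CPoly (Bpow I) (fun _ : I => 1) (fun i => CR.hom 1 (xI i))) :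
    CPoly (Bpow (Option I)) (fun _ : Option I => 1) (fun i => CR.hom 1 (xI i)) := by
  refine A3Pol1_re (CPoly.prod CPoly_B h) ⟨fun _ x => (x none, fun i => x (some i)),
    fun _ _ => rfl⟩ ?_ ((Equiv.optionEquivSumPUnit I).trans (Equiv.sumComm _ _)) ?_ ?_
  · intro n
    constructor
    · intro x y hxy
      funext j
      rcases j with _ | j
      · exact congrArg Prod.fst hxy
      · exact congrFun (congrArg Prod.snd hxy) j
    · rintro ⟨a, y⟩
      exact ⟨fun j => match j with
        | none => a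
        | some i => y i, rfl⟩
  · rintro (_ | i)
    · rfl
    · rfl
  · rintro (_ | i)
    · show CR.hom 1 (Hc.map _ 1 xB) = CR.map _ (CR.map _ (CR.hom 1 xB))
      rw [CR.map_hom, A3Pol1_hc_comp]
      rfl
    · show CR.hom 1 (Hc.map _ 1 xB) = CR.map _ (CR.map _ (CR.hom 1 (Hc.map _ 1 xB)))
      rw [A3Pol1_hc_comp, A3Pol1_hc_comp]
      rfl

theorem CPoly_Bpow (I : Type) [Finite I] :
    CPoly (Bpow I) (fun _ : I => 1) (fun i => CR.hom 1 (xI i)) := by
  exact Finite.induction_empty_option
    (P := fun I => CPoly (Bpow I) (fun _ : I => 1) (fun i => CR.hom 1 (xI i)))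
    (fun e h => A3Pol1_equiv e h) A3Pol1_empty (fun h => A3Pol1_option h) I

private theorem A3Pol1_pow {Z : SS} {n : ℕ} {a : CR Z} (h : CR.IsHom n a) (k : ℕ) :
    CR.IsHom (k * n) (a ^ k) := by
  induction k with
  | zero => rw [pow_zero, zero_mul]; exact CR.isHom_one
  | succ k ih => rw [pow_succ, Nat.succ_mul]; exact ih.mul h

private theorem A3Pol1_sum_apply {Z : SS} {I : Type} (s : Finset I) (a : I → CR Z) (m : ℕ) :
    (∑ i ∈ s, a i) m = ∑ i ∈ s, a i m := map_sum (CR.cmp (Z := Z) m) a s

private theorem A3Pol1_isHom_sum {Z : SS} {I : Type} {n : ℕ} (s : Finset I) (a : I → CR Z)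
    (h : ∀ i ∈ s, CR.IsHom n (a i)) : CR.IsHom n (∑ i ∈ s, a i) := by
  intro m hm
  rw [A3Pol1_sum_apply]
  exact Finset.sum_eq_zero fun i hi => h i hi m hm

private theorem A3Pol1_isHom_smul {Z : SS} {n : ℕ} (r : ZMod 2) {a : CR Z}
    (h : CR.IsHom n a) : CR.IsHom n (r • a) := by
  intro m hm
  show r • a m = 0
  rw [h m hm, smul_zero]

/-- polynomials as cohomology classes of `B(ZMod 2)^I` -/
noncomputable def pol (I : Type) : MvPolynomial I (ZMod 2) →ₐ[ZMod 2] CR (Bpow I) :=
  MvPolynomial.aeval fun i => CR.hom 1 (xI i)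

theorem pol_X {I : Type} (i : I) : pol I (MvPolynomial.X i) = CR.hom 1 (xI i) :=
  MvPolynomial.aeval_X _ _

private theorem A3Pol1_mon {I : Type} (e : I →₀ ℕ) (r : ZMod 2) :
    pol I (MvPolynomial.monomial e r) = r • (e.prod fun i k => (CR.hom 1 (xI i) : CR (Bpow I)) ^ k) := by
  unfold pol
  rw [MvPolynomial.aeval_monomial, Algebra.smul_def]

private theorem A3Pol1_monHom {I : Type} (e : I →₀ ℕ) :
    CR.IsHom (Finsupp.degree e) (e.prod fun i k => (CR.hom 1 (xI i) : CR (Bpow I)) ^ k) := by
  rw [Finsupp.degree_apply]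
  refine CR.IsHom.prod e.support (fun i => e i) _ fun i _ => ?_
  have h := A3Pol1_pow (CR.isHom_hom (Z := Bpow I) 1 (xI i)) (e i)
  rwa [mul_one] at h

private theorem A3Pol1_deg {I : Type} (e : I →₀ ℕ) :
    (e.sum fun _ k => k * 1) = Finsupp.degree e := by
  rw [Finsupp.degree_apply]
  exact Finset.sum_congr rfl fun i _ => mul_one _

theorem pol_isHom {I : Type} {n : ℕ} {f : MvPolynomial I (ZMod 2)} (hf : f.IsHomogeneous n) :
    CR.IsHom n (pol I f) := by
  rw [f.as_sum, map_sum]
  refine A3Pol1_isHom_sum _ _ fun e he => ?_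
  rw [A3Pol1_mon]
  refine A3Pol1_isHom_smul _ ?_
  have h1 : Finsupp.degree e = n := by
    by_contra hne
    exact (MvPolynomial.mem_support_iff.1 he) (hf.coeff_eq_zero hne)
  rw [← h1]
  exact A3Pol1_monHom e

theorem pol_injective (I : Type) [Finite I] : Function.Injective (pol I) := by
  classical
  rw [injective_iff_map_eq_zero]
  intro f hf
  have h := CPoly_Bpow I
  have key : ∀ d, f.support.filter (fun e => Finsupp.degree e = d) = ∅ := by
    intro d
    set c : (I →₀ ℕ) →₀ ZMod 2 := Finsupp.onFinset f.support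
      (fun e => if Finsupp.degree e = d then MvPolynomial.coeff e f else 0) (by
        intro e he
        rw [MvPolynomial.mem_support_iff]
        intro h0
        apply he
        rw [h0, ite_self]) with hc
    have hca : ∀ e, c e = if Finsupp.degree e = d then MvPolynomial.coeff e f else 0 :=
      fun e => rfl
    have h1 : c = 0 := by
      refine (h.bas d).1 c ?_ ?_
      · intro e he
        show (e.sum fun _ k => k * 1) = d
        rw [A3Pol1_deg]
        by_contra hne
        apply he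
        rw [hca, if_neg hne]
      · have h2 : (pol I f) d = 0 := by rw [hf]; rfl
        rw [f.as_sum, map_sum, A3Pol1_sum_apply] at h2
        refine (Finsupp.sum_of_support_subset c (s := f.support)
          Finsupp.support_onFinset_subset (fun e r => r • ((e.prod fun i k =>
            (CR.hom 1 (xI i) : CR (Bpow I)) ^ k) d : Hc (Bpow I) d))
          (fun i _ => zero_smul _ _)).trans ?_
        rw [← h2]
        refine Finset.sum_congr rfl fun e _ => ?_
        rw [A3Pol1_mon, hca]
        show _ = MvPolynomial.coeff e f •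
          (e.prod fun i k => (CR.hom 1 (xI i) : CR (Bpow I)) ^ k) d
        by_cases hd : Finsupp.degree e = d
        · rw [if_pos hd]
        · rw [if_neg hd, zero_smul, A3Pol1_monHom e d (fun h => hd h.symm), smul_zero]
    rw [Finset.filter_eq_empty_iff]
    intro e he hd
    have h3 := hca e
    rw [h1, if_pos hd] at h3
    exact (MvPolynomial.mem_support_iff.1 he) h3.symm
  ext e
  rw [MvPolynomial.coeff_zero]
  by_contra he
  have h4 : e ∈ f.support.filter (fun e' => Finsupp.degree e' = Finsupp.degree e) :=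
    Finset.mem_filter.2 ⟨MvPolynomial.mem_support_iff.2 he, rfl⟩
  rw [key] at h4
  exact absurd h4 (Finset.notMem_empty e)

theorem exists_pol {I : Type} [Finite I] (n : ℕ) (y : Hc (Bpow I) n) :
    ∃ f : MvPolynomial I (ZMod 2), f.IsHomogeneous n ∧ pol I f = CR.hom n y := by
  obtain ⟨c, hc, hy⟩ := ((CPoly_Bpow I).bas n).2 y
  have hh : (∑ e ∈ c.support, MvPolynomial.monomial e (c e)).IsHomogeneous n := by
    refine MvPolynomial.IsHomogeneous.sum _ _ n fun e he => ?_
    refine MvPolynomial.isHomogeneous_monomial _ ?_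
    rw [← A3Pol1_deg]
    exact hc e (Finsupp.mem_support_iff.1 he)
  refine ⟨_, hh, ?_⟩
  rw [(pol_isHom hh).eq]
  congr 1
  rw [map_sum, A3Pol1_sum_apply, ← hy]
  refine Finset.sum_congr rfl fun e _ => ?_
  rw [A3Pol1_mon]
  rfl

/-- reindexing -/
def Bre {I J : Type} (φ : J → I) : Hom (Bpow I) (Bpow J) := ⟨fun _ x j => x (φ j), fun _ _ => rfl⟩

theorem map_Bre_pol {I J : Type} (φ : J → I) (f : MvPolynomial J (ZMod 2)) :
    CR.map (Bre φ) (pol J f) = pol I (MvPolynomial.rename φ f) := by
  induction f using MvPolynomial.induction_on with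
  | C r =>
    rw [MvPolynomial.rename_C, ← MvPolynomial.algebraMap_eq, ← MvPolynomial.algebraMap_eq,
      AlgHom.commutes, AlgHom.commutes, Algebra.algebraMap_eq_smul_one,
      Algebra.algebraMap_eq_smul_one, CR.map_smul, map_one]
  | add p q hp hq => rw [map_add, map_add, map_add, map_add, hp, hq]
  | mul_X p j hp =>
    rw [map_mul, map_mul, map_mul, map_mul, hp, pol_X, MvPolynomial.rename_X, pol_X]
    congr 1
    unfold xI
    rw [A3Pol1_hc_comp]
    rfl

end MM

end

/-! ### from `Lib_MP_33f7bb_d.A3Pol2` -/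

section

/-!
# A3-21: Steenrod operations on the cohomology of `B(ZMod 2)^I`

For every `S : SqFam` and every homogeneous polynomial `f` of degree `n ≥ 1`, `y ∈ H~^n (B^I)` the corresponding reduced
class (`red_surj`, `red_injective`):  `red (S.op n m y)` is the component of degree `m` of `pol (sqP f)`,
`sqP` = the ring homomorphism `X_i ↦ X_i + X_i^2`.

Proof.  Both sides are linear in `f`, and a homogeneous polynomial of degree `n` is a sum of monomials of degree `n`
(`MvPolynomial.IsHomogeneous`, `f.support`), so let `f` be a monomial (coefficient one) of degree `n`; induction on `n`.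
`n = 1`: `f = X_i`, `sqP f = X_i + X_i ^ 2`: `S.id`, `S.top` (with `red_cupR`, `CR.hom_mul_hom`), and `S.lt`, `S.unst` for `m = 0`, `m ≥ 3`.
`n + 1`, `n ≥ 1`: `f = X_i * g`, `g` a monomial of degree `n`; `y = cupR (n+1) (x_i) (y_g)` (`red_cupR`, `red_injective`);
`S.cartan`, the case `1`, the induction hypothesis, and `pol (sqP f) = pol (sqP X_i) * pol (sqP g)`, `CR.mul_apply`.
-/

open scoped TensorProduct

namespace MM

/-- the total square on polynomials -/
noncomputable def sqP (I : Type) : MvPolynomial I (ZMod 2) →ₐ[ZMod 2] MvPolynomial I (ZMod 2) :=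
  MvPolynomial.aeval fun i => MvPolynomial.X i + MvPolynomial.X i ^ 2

/-- the base vertex of `Bpow I` -/
abbrev Bpt (I : Type) : (Bpow I).S 0 := (K1pow I).zv

private theorem A3Pol2_hom_same {Z : SS} (n : ℕ) (a : Hc Z n) : (CR.hom n a) n = a :=
  Pi.single_eq_same n a

private theorem A3Pol2_hom_ne {Z : SS} {n k : ℕ} (h : k ≠ n) (a : Hc Z n) :
    (CR.hom n a) k = 0 := CR.isHom_hom n a k h

/-- the statement for a polynomial `g` of degree `n` -/
private def A3Pol2_P (S : SqFam) (I : Type) (n : ℕ) (g : MvPolynomial I (ZMod 2)) : Prop :=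
  ∀ y : Module.Dual (ZMod 2) ((R (Bpow I) (Bpt I)).H n), red (Bpt I) n y = (pol I g) n →
    ∀ m, red (Bpt I) m (S.op (Bpow I) (Bpt I) n m y) = (pol I (sqP I g)) m

private theorem A3Pol2_zero (S : SqFam) (I : Type) (n : ℕ) : A3Pol2_P S I n 0 := by
  intro y hy m
  have h1 : red (Bpt I) n y = 0 := by
    rw [hy, map_zero]
    rfl
  have h2 : y = 0 := red_injective (Bpt I) n (h1.trans (map_zero _).symm)
  rw [h2, map_zero, map_zero, map_zero, map_zero]
  rfl

private theorem A3Pol2_add (S : SqFam) (I : Type) {n : ℕ} (hn : 1 ≤ n)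
    {g g' : MvPolynomial I (ZMod 2)} (h : A3Pol2_P S I n g) (h' : A3Pol2_P S I n g') :
    A3Pol2_P S I n (g + g') := by
  intro y hy m
  obtain ⟨a, ha⟩ := red_surj (Bpt I) n hn ((pol I g) n)
  obtain ⟨b, hb⟩ := red_surj (Bpt I) n hn ((pol I g') n)
  have h1 : y = a + b := by
    apply red_injective (Bpt I) n
    rw [hy, map_add, map_add, ha, hb]
    rfl
  rw [h1, map_add, map_add, map_add, map_add, h a ha m, h' b hb m]
  rfl

private theorem A3Pol2_X (S : SqFam) (I : Type) (i : I) :
    A3Pol2_P S I 1 (MvPolynomial.X i) := by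
  intro y hy m
  rw [pol_X, A3Pol2_hom_same] at hy
  have e1 : pol I (sqP I (MvPolynomial.X i)) =
      CR.hom 1 (xI i) + CR.hom 2 (cup 2 (xI i) (xI i)) := by
    rw [sqP, MvPolynomial.aeval_X, map_add, map_pow, pol_X, pow_two, CR.hom_mul_hom]
  have e2 : (pol I (sqP I (MvPolynomial.X i))) m =
      (CR.hom 1 (xI i) : CR (Bpow I)) m + (CR.hom 2 (cup 2 (xI i) (xI i)) : CR (Bpow I)) m := by
    rw [e1]
    rfl
  rw [e2]
  rcases Nat.lt_trichotomy m 1 with hm | hm | hm
  · rw [S.lt _ _ _ _ hm, LinearMap.zero_apply, map_zero, A3Pol2_hom_ne (by omega),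
      A3Pol2_hom_ne (by omega), add_zero]
  · subst hm
    rw [S.id, LinearMap.id_apply, hy, A3Pol2_hom_same, A3Pol2_hom_ne (by omega), add_zero]
  · by_cases h2 : m = 2
    · subst h2
      have h3 : S.op (Bpow I) (Bpt I) 1 2 y = cupR 2 y y := S.top (Bpow I) (Bpt I) 1 y
      rw [h3, red_cupR, hy, A3Pol2_hom_same, A3Pol2_hom_ne (by omega), zero_add]
    · rw [S.unst _ _ _ _ (by omega), LinearMap.zero_apply, map_zero, A3Pol2_hom_ne (by omega),
        A3Pol2_hom_ne (by omega), add_zero]

private theorem A3Pol2_mul (S : SqFam) (I : Type) {n : ℕ} (hn : 1 ≤ n) (i : I)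
    {g : MvPolynomial I (ZMod 2)} (h : A3Pol2_P S I n g) :
    A3Pol2_P S I (1 + n) (MvPolynomial.X i * g) := by
  intro y hy m
  obtain ⟨a, ha⟩ := red_surj (Bpt I) 1 le_rfl ((pol I (MvPolynomial.X i)) 1)
  obtain ⟨b, hb⟩ := red_surj (Bpt I) n hn ((pol I g) n)
  have h1 : y = cupR (1 + n) a b := by
    apply red_injective (Bpt I) (1 + n)
    rw [hy, red_cupR, ha, hb, map_mul, CR.mul_apply, Finset.sum_eq_single 1]
    · obtain ⟨k, hk⟩ : ∃ k, k = 1 + n - 1 := ⟨_, rfl⟩
      rw [← hk]
      obtain rfl : k = n := by omega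
      rfl
    · intro k _ hk
      rw [pol_X, A3Pol2_hom_ne hk, cup_zero_left]
    · intro h1
      exact absurd (Finset.mem_range.2 (by omega)) h1
  rw [h1, S.cartan _ _ 1 n (1 + n) m rfl a b, map_sum, map_mul, map_mul, CR.mul_apply]
  refine Finset.sum_congr rfl fun k _ => ?_
  rw [red_cupR, A3Pol2_X S I i a ha k, h b hb (m - k)]

private theorem A3Pol2_mon (S : SqFam) (I : Type) {n : ℕ} (hn : 1 ≤ n) (e : I →₀ ℕ)
    (he : e.degree = n) : A3Pol2_P S I n (MvPolynomial.monomial e 1) := by
  classical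
  induction n, hn using Nat.le_induction generalizing e with
  | base =>
    have h0 : e ≠ 0 := by
      rintro rfl
      rw [map_zero] at he
      omega
    obtain ⟨i, hi⟩ := Finsupp.support_nonempty_iff.2 h0
    have hi' : Finsupp.single i 1 ≤ e := by
      rw [Finsupp.single_le_iff]
      exact Nat.one_le_iff_ne_zero.2 (Finsupp.mem_support_iff.1 hi)
    obtain ⟨e', rfl⟩ := exists_add_of_le hi'
    rw [map_add, Finsupp.degree_single] at he
    have h1 : e' = 0 := (Finsupp.degree_eq_zero_iff e').1 (by omega)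
    rw [h1, add_zero]
    exact A3Pol2_X S I i
  | succ n hn ih =>
    have h0 : e ≠ 0 := by
      rintro rfl
      rw [map_zero] at he
      omega
    obtain ⟨i, hi⟩ := Finsupp.support_nonempty_iff.2 h0
    have hi' : Finsupp.single i 1 ≤ e := by
      rw [Finsupp.single_le_iff]
      exact Nat.one_le_iff_ne_zero.2 (Finsupp.mem_support_iff.1 hi)
    obtain ⟨e', rfl⟩ := exists_add_of_le hi'
    rw [map_add, Finsupp.degree_single] at he
    have h1 := A3Pol2_mul S I hn i (ih e' (by omega))
    have h2 : MvPolynomial.X i * MvPolynomial.monomial e' 1 =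
        (MvPolynomial.monomial (Finsupp.single i 1 + e') 1 : MvPolynomial I (ZMod 2)) := by
      rw [MvPolynomial.X, MvPolynomial.monomial_mul, one_mul]
    rw [h2, add_comm 1 n] at h1
    exact h1

theorem sq_pol (S : SqFam) {I : Type} {n : ℕ} (hn : 1 ≤ n) {f : MvPolynomial I (ZMod 2)}
    (hf : f.IsHomogeneous n) (y : Module.Dual (ZMod 2) ((R (Bpow I) (Bpt I)).H n))
    (hy : CR.hom n (red (Bpt I) n y) = pol I f) (m : ℕ) :
    red (Bpt I) m (S.op (Bpow I) (Bpt I) n m y) = (pol I (sqP I f)) m := by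
  classical
  have hy' : red (Bpt I) n y = (pol I f) n := by
    rw [← hy, A3Pol2_hom_same]
  have key : ∀ s : Finset (I →₀ ℕ), (∀ e ∈ s, e.degree = n) →
      A3Pol2_P S I n (∑ e ∈ s, MvPolynomial.monomial e (1 : ZMod 2)) := by
    intro s
    induction s using Finset.induction_on with
    | empty =>
      intro _
      rw [Finset.sum_empty]
      exact A3Pol2_zero S I n
    | insert a s ha ih =>
      intro h
      rw [Finset.sum_insert ha]
      exact A3Pol2_add S I hn (A3Pol2_mon S I hn a (h a (Finset.mem_insert_self a s)))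
        (ih fun e he => h e (Finset.mem_insert_of_mem he))
  have h01 : ∀ c : ZMod 2, c ≠ 0 → c = 1 := by decide
  have hsum : f = ∑ e ∈ f.support, MvPolynomial.monomial e (1 : ZMod 2) := by
    conv_lhs => rw [← MvPolynomial.support_sum_monomial_coeff f]
    refine Finset.sum_congr rfl fun e he => ?_
    rw [h01 _ (MvPolynomial.mem_support_iff.1 he)]
  have hP : A3Pol2_P S I n f := by
    rw [hsum]
    refine key _ fun e he => ?_
    rw [Finsupp.degree_eq_weight_one]
    exact hf (MvPolynomial.mem_support_iff.1 he)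
  exact hP y hy' m

end MM

end

/-! ### from `Lib_MP_33f7bb_d.A4L1` -/

section

/-!
# A4-31: elements of `E(n)` as polynomials; block sums

`toPoly n` maps the monomial `b` to `∏ x_i ^ (2 ^ (b i))`.  `x ↦ x + x^2` maps `x^(2^b)` to `x^(2^b) + x^(2^(b+1))` (characteristic 2:
`add_pow_char_pow`), so `sqP (toPoly b) = ∏_i (x_i^(2^(b i)) + x_i^(2^(b i + 1))) = ∑_ε toPoly (b + ε)` (`Finset.prod_add` /
`Fintype.piFinset`, `Finset.prod_univ_sum`), i.e. `toPoly (Sqt b)`.
`blk M n c = ∑_j toPoly c (x_(j, ·))`.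
-/

namespace MM

/-- the exponent vector of the monomial `b` -/
noncomputable def expo {n : ℕ} (b : Fin n → ℕ) : Fin n →₀ ℕ :=
  Finsupp.equivFunOnFinite.symm fun i => 2 ^ b i

/-- elements of `Mon n` as polynomials -/
noncomputable def toPoly (n : ℕ) : Mon n →ₗ[ZMod 2] MvPolynomial (Fin n) (ZMod 2) :=
  Finsupp.linearCombination (ZMod 2) fun b => MvPolynomial.monomial (expo b) 1

theorem expo_injective {n : ℕ} : Function.Injective (expo : (Fin n → ℕ) → _) := by
  intro b b' h
  funext i
  have h1 : 2 ^ b i = 2 ^ b' i := DFunLike.congr_fun h i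
  exact Nat.pow_right_injective le_rfl h1

theorem toPoly_single {n : ℕ} (b : Fin n → ℕ) (r : ZMod 2) :
    toPoly n (Finsupp.single b r) = MvPolynomial.monomial (expo b) r := by
  unfold toPoly
  rw [Finsupp.linearCombination_single, MvPolynomial.smul_monomial, smul_eq_mul, mul_one]

theorem coeff_toPoly {n : ℕ} (c : Mon n) (b : Fin n → ℕ) :
    MvPolynomial.coeff (expo b) (toPoly n c) = c b := by
  classical
  induction c using Finsupp.induction_linear with
  | zero => rw [map_zero, MvPolynomial.coeff_zero, Finsupp.zero_apply]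
  | add c c' h h' => rw [map_add, MvPolynomial.coeff_add, h, h', Finsupp.add_apply]
  | single b' r =>
    rw [toPoly_single, MvPolynomial.coeff_monomial, Finsupp.single_apply]
    by_cases h : b' = b
    · rw [if_pos h, if_pos (congrArg expo h)]
    · rw [if_neg h, if_neg fun h' => h (expo_injective h')]

theorem toPoly_injective (n : ℕ) : Function.Injective (toPoly n) := by
  intro c c' h
  refine Finsupp.ext fun b => ?_
  rw [← coeff_toPoly c b, ← coeff_toPoly c' b, h]

theorem toPoly_gen (n : ℕ) : toPoly n (Finsupp.single 0 1) = ∏ i, MvPolynomial.X i := by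
  rw [toPoly_single, MvPolynomial.monomial_eq, map_one, one_mul,
    Finsupp.prod_fintype _ _ fun _ => pow_zero _]
  refine Finset.prod_congr rfl fun i _ => ?_
  have h : (expo (0 : Fin n → ℕ)) i = 1 := rfl
  rw [h, pow_one]

theorem toPoly_hom {n d : ℕ} {c : Mon n} (hc : ∀ b, c b ≠ 0 → wt b = d) :
    (toPoly n c).IsHomogeneous d := by
  have h1 : toPoly n c = ∑ b ∈ c.support, MvPolynomial.monomial (expo b) (c b) := by
    unfold toPoly
    rw [Finsupp.linearCombination_apply, Finsupp.sum]
    refine Finset.sum_congr rfl fun b _ => ?_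
    rw [MvPolynomial.smul_monomial, smul_eq_mul, mul_one]
  rw [h1]
  refine MvPolynomial.IsHomogeneous.sum _ _ d fun b hb => ?_
  refine MvPolynomial.isHomogeneous_monomial _ ?_
  rw [Finsupp.degree_eq_sum]
  exact hc b (Finsupp.mem_support_iff.1 hb)

theorem toPoly_wtc {n : ℕ} (m : ℕ) (c : Mon n) :
    toPoly n (wtc m c) = MvPolynomial.homogeneousComponent m (toPoly n c) := by
  classical
  induction c using Finsupp.induction_linear with
  | zero => rw [map_zero, map_zero, map_zero]
  | add c c' h h' => rw [map_add, map_add, map_add, map_add, h, h']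
  | single b r =>
    have hh : (toPoly n (Finsupp.single b r)).IsHomogeneous (wt b) := by
      refine toPoly_hom fun b' hb' => ?_
      by_contra hne
      refine hb' (Finsupp.single_eq_of_ne fun h => hne ?_)
      rw [h]
    have hm : toPoly n (Finsupp.single b r) ∈
        MvPolynomial.homogeneousSubmodule (Fin n) (ZMod 2) (wt b) :=
      (MvPolynomial.mem_homogeneousSubmodule _ _).2 hh
    rw [MvPolynomial.homogeneousComponent_of_mem hm]
    show toPoly n (Finsupp.filter (fun b => wt b = m) (Finsupp.single b r)) = _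
    by_cases h : wt b = m
    · rw [Finsupp.filter_single_of_pos (fun b : Fin n → ℕ => wt b = m) h, if_pos h.symm]
    · rw [Finsupp.filter_single_of_neg (fun b : Fin n → ℕ => wt b = m) h, if_neg fun h' => h h'.symm, map_zero]

theorem sqP_toPoly {n : ℕ} (c : Mon n) : sqP (Fin n) (toPoly n c) = toPoly n (Sqt c) := by
  classical
  induction c using Finsupp.induction_linear with
  | zero => rw [map_zero, map_zero, map_zero, map_zero]
  | add c c' h h' => rw [map_add, map_add, map_add, map_add, h, h']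
  | single b r =>
    rw [Sqt_single, map_sum, toPoly_single]
    unfold sqP
    rw [MvPolynomial.aeval_monomial, Finsupp.prod_fintype _ _ fun _ => pow_zero _]
    have h1 : ∀ i : Fin n, (MvPolynomial.X i + MvPolynomial.X i ^ 2 :
        MvPolynomial (Fin n) (ZMod 2)) ^ (expo b i) =
        ∑ e : Fin 2, (MvPolynomial.X i : MvPolynomial (Fin n) (ZMod 2)) ^ (2 ^ (b i + (e : ℕ))) := by
      intro i
      have h2 : expo b i = 2 ^ b i := rfl
      rw [h2, add_pow_char_pow, Fin.sum_univ_two, ← pow_mul]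
      congr 2
      show 2 * 2 ^ b i = 2 ^ (b i + 1)
      ring
    rw [Finset.prod_congr rfl fun i _ => h1 i, Finset.prod_univ_sum, Fintype.piFinset_univ,
      Finset.mul_sum]
    refine Finset.sum_congr rfl fun ε _ => ?_
    rw [toPoly_single, MvPolynomial.monomial_eq, MvPolynomial.algebraMap_eq,
      Finsupp.prod_fintype _ _ fun _ => pow_zero _]
    rfl

theorem toPoly_shift {n : ℕ} (c : Mon n) :
    toPoly n (Finsupp.mapDomain (fun (b : Fin n → ℕ) (i : Fin n) => b i + 1) c) =
      toPoly n c ^ 2 := by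
  classical
  induction c using Finsupp.induction_linear with
  | zero =>
    rw [Finsupp.mapDomain_zero, map_zero, zero_pow two_ne_zero]
  | add c c' h h' => rw [Finsupp.mapDomain_add, map_add, map_add, h, h', add_pow_char]
  | single b r =>
    rw [Finsupp.mapDomain_single, toPoly_single, toPoly_single, MvPolynomial.monomial_pow]
    have h1 : expo (fun i : Fin n => b i + 1) = 2 • expo b := by
      refine Finsupp.ext fun i => ?_
      show 2 ^ (b i + 1) = 2 * 2 ^ b i
      ring
    have h2 : r ^ 2 = r := by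
      revert r
      decide
    rw [h1, h2]

/-- sum over the blocks -/
noncomputable def blk (M n : ℕ) : Mon n →ₗ[ZMod 2] MvPolynomial (Fin M × Fin n) (ZMod 2) :=
  ∑ j : Fin M, (MvPolynomial.rename (R := ZMod 2) (fun i : Fin n => (j, i))).toLinearMap.comp (toPoly n)

theorem blk_apply (M n : ℕ) (c : Mon n) :
    blk M n c = ∑ j : Fin M, MvPolynomial.rename (fun i : Fin n => (j, i)) (toPoly n c) := by
  unfold blk
  rw [LinearMap.sum_apply]
  rfl

theorem blk_hom {M n d : ℕ} {c : Mon n} (hc : ∀ b, c b ≠ 0 → wt b = d) :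
    (blk M n c).IsHomogeneous d := by
  rw [blk_apply]
  refine MvPolynomial.IsHomogeneous.sum _ _ d fun j _ => ?_
  exact (toPoly_hom hc).rename_isHomogeneous

theorem blk_wtc {M n : ℕ} (m : ℕ) (c : Mon n) :
    blk M n (wtc m c) = MvPolynomial.homogeneousComponent m (blk M n c) := by
  classical
  induction c using Finsupp.induction_linear with
  | zero => rw [map_zero, map_zero, map_zero]
  | add c c' h h' => rw [map_add, map_add, map_add, map_add, h, h']
  | single b r =>
    have hh : (blk M n (Finsupp.single b r)).IsHomogeneous (wt b) := by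
      refine blk_hom fun b' hb' => ?_
      by_contra hne
      refine hb' (Finsupp.single_eq_of_ne fun h => hne ?_)
      rw [h]
    have hm : blk M n (Finsupp.single b r) ∈
        MvPolynomial.homogeneousSubmodule (Fin M × Fin n) (ZMod 2) (wt b) :=
      (MvPolynomial.mem_homogeneousSubmodule _ _).2 hh
    rw [MvPolynomial.homogeneousComponent_of_mem hm]
    show blk M n (Finsupp.filter (fun b => wt b = m) (Finsupp.single b r)) = _
    by_cases h : wt b = m
    · rw [Finsupp.filter_single_of_pos (fun b : Fin n → ℕ => wt b = m) h, if_pos h.symm]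
    · rw [Finsupp.filter_single_of_neg (fun b : Fin n → ℕ => wt b = m) h, if_neg fun h' => h h'.symm, map_zero]

private theorem A4L1_sqP_rename {I J : Type} (f : I → J) (p : MvPolynomial I (ZMod 2)) :
    sqP J (MvPolynomial.rename f p) = MvPolynomial.rename f (sqP I p) := by
  have h : (sqP J).comp (MvPolynomial.rename f) = (MvPolynomial.rename f).comp (sqP I) := by
    refine MvPolynomial.algHom_ext fun i => ?_
    rw [AlgHom.comp_apply, AlgHom.comp_apply, MvPolynomial.rename_X]
    unfold sqP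
    rw [MvPolynomial.aeval_X, MvPolynomial.aeval_X, map_add, map_pow, MvPolynomial.rename_X]
  exact DFunLike.congr_fun h p

theorem sqP_blk {M n : ℕ} (c : Mon n) :
    sqP (Fin M × Fin n) (blk M n c) = blk M n (Sqt c) := by
  rw [blk_apply, blk_apply, map_sum]
  refine Finset.sum_congr rfl fun j _ => ?_
  rw [A4L1_sqP_rename, sqP_toPoly]

theorem blk_shift {M n : ℕ} (c : Mon n) :
    blk M n (Finsupp.mapDomain (fun (b : Fin n → ℕ) (i : Fin n) => b i + 1) c) = blk M n c ^ 2 := by
  rw [blk_apply, blk_apply, sum_pow_char]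
  refine Finset.sum_congr rfl fun j _ => ?_
  rw [toPoly_shift, map_pow]

theorem blk_one_injective (n : ℕ) : Function.Injective (blk 1 n) := by
  intro c c' h
  rw [blk_apply, blk_apply, Fin.sum_univ_one, Fin.sum_univ_one] at h
  have hi : Function.Injective (fun i : Fin n => ((0 : Fin 1), i)) :=
    fun i i' h => congrArg Prod.snd h
  exact toPoly_injective n (MvPolynomial.rename_injective _ hi h)

end MM

end

/-! ### from `Lib_MP_33f7bb_d.A4L3` -/

section

/-!
# A4-33: reduced cohomology as an `AM`; block sums as maps from `E(n)`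

`RAM S Z z₀`: `M n = Dual (H_n (R Z))`, operations `S.op`.  Pointed maps induce `AMHom`s (`S.nat`).
`exists_PsiE` (`n ≥ 1`): for `c ∈ E(n)^d` (`d ≥ n ≥ 1` or `c = 0`) the polynomial `blk M n c` is homogeneous of degree `d ≥ 1`, so
`pol (blk M n c)` is homogeneous (`pol_isHom`) and its component is `red y` for a unique `y` (`red_surj`, `red_injective`); linear in
`c`.  For `d = 0`: `E(n)^0 = 0` (all weights are `≥ n ≥ 1`).  Commutation with the operations: `sq_pol` with `f = blk M n c`:
`red (S.op d m y)` = component `m` of `pol (sqP (blk M n c)) = pol (blk M n (Sqt c))`, which is `pol` of the homogeneous component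
(`pol` preserves degrees), i.e. `pol (blk M n (wtc m (Sqt c)))` (`blk_wtc`).
-/

open scoped TensorProduct

namespace MM

/-- reduced cohomology as an `AM` -/
noncomputable def RAM (S : SqFam) (Z : SS) (z₀ : Z.S 0) : AM where
  M n := Module.Dual (ZMod 2) ((R Z z₀).H n)
  Sq n m := S.op Z z₀ n m
  Sq_lt n m h := S.lt Z z₀ n m h
  Sq_id n := S.id Z z₀ n
  unst n m h := S.unst Z z₀ n m h

/-- pull back as an `AMHom` -/
noncomputable def RAM.map (S : SqFam) {Z Z' : SS} (z₀ : Z.S 0) (z₀' : Z'.S 0) (f : Hom Z Z')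
    (hf : f.app 0 z₀ = z₀') : AMHom (RAM S Z' z₀') (RAM S Z z₀) :=
  ⟨fun n => (SV.Hmap (R.map z₀ z₀' f hf) n).dualMap, fun n m y => S.nat z₀ z₀' f hf n m y⟩

private theorem A4L3_sum_apply {Z : SS} {I : Type} (s : Finset I) (a : I → CR Z) (m : ℕ) :
    (∑ i ∈ s, a i) m = ∑ i ∈ s, a i m := map_sum (CR.cmp (Z := Z) m) a s

private theorem A4L3_comp {I : Type} (F : MvPolynomial I (ZMod 2)) (m : ℕ) :
    (pol I (MvPolynomial.homogeneousComponent m F)) m = (pol I F) m := by
  conv_rhs => rw [← MvPolynomial.sum_homogeneousComponent F, map_sum, A4L3_sum_apply]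
  by_cases hm : m ∈ Finset.range (F.totalDegree + 1)
  · rw [Finset.sum_eq_single_of_mem m hm]
    intro i _ hi
    exact pol_isHom (MvPolynomial.homogeneousComponent_isHomogeneous i F) m (fun h => hi h.symm)
  · rw [MvPolynomial.homogeneousComponent_eq_zero _ _ (by
      rw [Finset.mem_range] at hm
      omega), map_zero]
    symm
    refine Finset.sum_eq_zero fun i hi => ?_
    exact pol_isHom (MvPolynomial.homogeneousComponent_isHomogeneous i F) m
      (fun h => hm (h ▸ hi))

private theorem A4L3_zero {n : ℕ} (hn : 1 ≤ n) (c : EE n 0) : c = 0 := by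
  apply Subtype.ext
  refine Finsupp.ext fun b => ?_
  by_contra hb
  have h1 := c.2.1 b hb
  have h2 : 0 < wt b := by
    have : Nonempty (Fin n) := ⟨⟨0, by omega⟩⟩
    exact Finset.sum_pos (fun i _ => by positivity) Finset.univ_nonempty
  omega

private theorem A4L3_ex (M n : ℕ) (hn : 1 ≤ n) (d : ℕ) (c : EE n d) :
    ∃ y : Module.Dual (ZMod 2) ((R (Bpow (Fin M × Fin n)) (Bpt (Fin M × Fin n))).H d),
      red (Bpt (Fin M × Fin n)) d y = (pol (Fin M × Fin n) (blk M n c.1)) d := by
  by_cases hd : 1 ≤ d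
  · exact red_surj _ d hd _
  · obtain rfl : d = 0 := by omega
    refine ⟨0, ?_⟩
    rw [A4L3_zero hn c, map_zero]
    show 0 = (pol (Fin M × Fin n) (blk M n 0)) 0
    rw [map_zero, map_zero]
    rfl

private noncomputable def A4L3_f (M n : ℕ) (hn : 1 ≤ n) (d : ℕ) :
    EE n d →ₗ[ZMod 2]
      Module.Dual (ZMod 2) ((R (Bpow (Fin M × Fin n)) (Bpt (Fin M × Fin n))).H d) where
  toFun c := Classical.choose (A4L3_ex M n hn d c)
  map_add' c c' := by
    apply red_injective (Bpt (Fin M × Fin n)) d
    rw [map_add, Classical.choose_spec (A4L3_ex M n hn d (c + c')),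
      Classical.choose_spec (A4L3_ex M n hn d c), Classical.choose_spec (A4L3_ex M n hn d c')]
    rw [Submodule.coe_add, map_add, map_add]
    rfl
  map_smul' r c := by
    apply red_injective (Bpt (Fin M × Fin n)) d
    rw [map_smul, Classical.choose_spec (A4L3_ex M n hn d (r • c)),
      Classical.choose_spec (A4L3_ex M n hn d c)]
    rw [Submodule.coe_smul, map_smul, map_smul]
    rfl

private theorem A4L3_red (M n : ℕ) (hn : 1 ≤ n) (d : ℕ) (c : EE n d) :
    red (Bpt (Fin M × Fin n)) d (A4L3_f M n hn d c) =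
      (pol (Fin M × Fin n) (blk M n c.1)) d :=
  Classical.choose_spec (A4L3_ex M n hn d c)

theorem exists_PsiE (S : SqFam) (M n : ℕ) (hn : 1 ≤ n) :
    ∃ Ψ : AMHom (EAM n) (RAM S (Bpow (Fin M × Fin n)) (Bpt _)),
      ∀ (d : ℕ) (c : EE n d), CR.hom d (red (Bpt (Fin M × Fin n)) d (Ψ.app d c)) =
        pol (Fin M × Fin n) (blk M n c.1) := by
  refine ⟨⟨fun d => A4L3_f M n hn d, ?_⟩, ?_⟩
  · intro d m x
    apply red_injective (Bpt (Fin M × Fin n)) m
    refine (A4L3_red M n hn m ((EAM n).Sq d m x)).trans ?_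
    rw [EAM_Sq_val, blk_wtc, A4L3_comp, ← sqP_blk]
    show _ = red (Bpt (Fin M × Fin n)) m (S.op (Bpow (Fin M × Fin n)) (Bpt (Fin M × Fin n)) d m
      (A4L3_f M n hn d x))
    by_cases hd : 1 ≤ d
    · symm
      refine sq_pol S hd (blk_hom x.2.1) _ ?_ m
      rw [A4L3_red, ← (pol_isHom (blk_hom x.2.1)).eq]
    · obtain rfl : d = 0 := by omega
      have hx : x = (0 : EE n 0) := A4L3_zero hn x
      rw [hx]
      rw [(A4L3_f M n hn 0).map_zero, map_zero, map_zero]
      show (pol (Fin M × Fin n) (sqP (Fin M × Fin n) (blk M n 0))) m = 0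
      rw [map_zero, map_zero, map_zero]
      rfl
  · intro d c
    show CR.hom d (red (Bpt (Fin M × Fin n)) d (A4L3_f M n hn d c)) = _
    rw [A4L3_red, ← (pol_isHom (blk_hom c.2.1)).eq]

end MM

end

/-! ### from `Lib_MP_33f7bb_d.A4S1` -/

section

/-!
# A4-34: the classes `zC S b ∈ H^*(KL n)`, `b ∈ Orb n`

`iotaK n = fundC (KLev n)`, reduced fundamental class.  `thb b : Op n (wtO b)` an operation with `thb b (x_1 ⋯ x_n) = orbM b`
(`exists_op`), `zR S b = thb b (iotaK n)`, `zC S b` its image in the ring `CR`.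

`zR_pull`: for a pointed `f : Z → KL n`: `f^* (zR S b) = (thb b).ev (f^* iotaK)` (`Op.ev_nat` for `RAM.map`).
`zC_prim`: `add, fst, snd : K × K → K` are pointed; `muV ∘ R(add) = muV ∘ R(fst) + muV ∘ R(snd)` on generators (`R.ext`-like, the sum of the values), so
`add^* iotaK = fst^* iotaK + snd^* iotaK`; apply the linear map `(thb b).ev` and `red_nat`.
`exists_rM` (`n ≥ 1`): `Ψ` from `exists_PsiE`, `y = Ψ (x_1 ⋯ x_n)`; by `em_surj_pt` (`KL_isEM`) there is a pointed map `a` with
`clR (KLev n) a = y`, and `clR u a = (fundC u) ∘ H(R.map a)` (`R.ext`: `muV ∘ R.map a = R.lift a`).  Then `a^* (zR S b) = (thb b).ev y =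
Ψ ((thb b).ev (EAM n) gen) = Ψ (orbM b)` (`Op.ev_nat`), whose image in `CR` is `pol (blk M n (orbM b))`; and `red_nat`, `CR.map_hom`.
-/

open scoped TensorProduct

namespace MM

/-- the reduced fundamental class of `KL n` -/
noncomputable def iotaK (n : ℕ) : RHc (KL n) n := fundC (KLev n)

/-- an operation producing the orbit sum -/
noncomputable def thb {n : ℕ} (b : Orb n) : Op n (wtO b) :=
  Classical.choose (exists_op n (wtO b) (⟨orbM b, orbM_mem b rfl⟩ : EE n (wtO b)))

theorem thb_ev {n : ℕ} (b : Orb n) :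
    (thb b).ev (EAM n) (EAM.gen n) = (⟨orbM b, orbM_mem b rfl⟩ : EE n (wtO b)) :=
  Classical.choose_spec (exists_op n (wtO b) (⟨orbM b, orbM_mem b rfl⟩ : EE n (wtO b)))

/-- the reduced class `z_b` -/
noncomputable def zR (S : SqFam) {n : ℕ} (b : Orb n) : RHc (KL n) (wtO b) :=
  (thb b).ev (RAM S (KL n).ss (KL n).zv) (iotaK n)

/-- the class `z_b` in the cohomology ring -/
noncomputable def zC (S : SqFam) {n : ℕ} (b : Orb n) : CR (KL n).ss :=
  CR.hom (wtO b) (red (KL n).zv (wtO b) (zR S b))

theorem zC_isHom (S : SqFam) {n : ℕ} (b : Orb n) : CR.IsHom (wtO b) (zC S b) :=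
  CR.isHom_hom _ _

/-- pull back of the class `z_b` in the ring -/
private theorem A4S1_map (S : SqFam) {n : ℕ} (b : Orb n) {Z : SS} (z₀ : Z.S 0) (f : Hom Z (KL n).ss)
    (hf : f.app 0 z₀ = (KL n).zv) :
    CR.map f (zC S b) = CR.hom (wtO b) (red z₀ (wtO b)
      ((zR S b).comp (SV.Hmap (R.map z₀ (KL n).zv f hf) (wtO b)))) := by
  unfold zC
  rw [CR.map_hom, red_nat z₀ (KL n).zv f hf]

theorem zR_pull (S : SqFam) {n : ℕ} (b : Orb n) {Z : SS} (z₀ : Z.S 0) (f : Hom Z (KL n).ss)
    (hf : f.app 0 z₀ = (KL n).zv) :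
    (zR S b).comp (SV.Hmap (R.map z₀ (KL n).zv f hf) (wtO b)) =
      (thb b).ev (RAM S Z z₀) ((iotaK n).comp (SV.Hmap (R.map z₀ (KL n).zv f hf) n)) :=
  Op.ev_nat (RAM.map S z₀ (KL n).zv f hf) (thb b) (iotaK n)

/-- the pull back of the fundamental class -/
private theorem A4S1_iota {n : ℕ} {Z : SS} (z₀ : Z.S 0) (f : Hom Z (KL n).ss)
    (hf : f.app 0 z₀ = (KL n).zv) :
    (iotaK n).comp (SV.Hmap (R.map z₀ (KL n).zv f hf) n) = clR (KLev n) f hf := by
  have h : (muV (KL n)).comp (R.map z₀ (KL n).zv f hf) = R.lift z₀ f hf := by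
    apply R.ext
    intro m x
    rw [R.lift_of]
    show (muV (KL n)).app m ((R.map z₀ (KL n).zv f hf).app m ((R.of z₀).app m x)) = f.app m x
    rw [R.map_of, muV_of]
  unfold iotaK fundC clR
  rw [← h]
  apply LinearMap.ext
  intro x
  show KLev n (SV.Hmap (muV (KL n)) n (SV.Hmap (R.map z₀ (KL n).zv f hf) n x)) =
    KLev n (SV.Hmap ((muV (KL n)).comp (R.map z₀ (KL n).zv f hf)) n x)
  rw [SV.Hmap_comp]

private theorem A4S1_add {n : ℕ} {V : SV} (u : Module.Dual (ZMod 2) (V.H n)) {Z : SS} (z₀ : Z.S 0)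
    (f g h : Hom Z V.ss) (hf : f.app 0 z₀ = V.zv) (hg : g.app 0 z₀ = V.zv) (hh : h.app 0 z₀ = V.zv)
    (H : ∀ m x, f.app m x = (g.app m x + h.app m x : V.V m)) :
    clR u f hf = clR u g hg + clR u h hh := by
  have key : ∀ m (x : (R Z z₀).V m), (R.lift z₀ f hf).app m x =
      (R.lift z₀ g hg).app m x + (R.lift z₀ h hh).app m x := by
    intro m x
    have hx : x ∈ Submodule.span (ZMod 2) (Set.range ((R.of z₀).app m)) := by
      rw [R.span]; trivial
    induction hx using Submodule.span_induction with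
    | mem x hx =>
      obtain ⟨y, rfl⟩ := hx
      rw [R.lift_of, R.lift_of, R.lift_of]
      exact H m y
    | zero => rw [map_zero, map_zero, map_zero, add_zero]
    | add a b _ _ ha hb =>
      rw [map_add, map_add, map_add, ha, hb]
      abel
    | smul r a _ ha => rw [map_smul, map_smul, map_smul, ha, smul_add]
  apply LinearMap.ext
  intro w
  obtain ⟨⟨z, hz⟩, rfl⟩ := Submodule.Quotient.mk_surjective _ w
  show u (V.cls ((R.lift z₀ f hf).app n z) ((R.lift z₀ f hf).map_Z hz)) =
    u (V.cls ((R.lift z₀ g hg).app n z) ((R.lift z₀ g hg).map_Z hz)) +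
      u (V.cls ((R.lift z₀ h hh).app n z) ((R.lift z₀ h hh).map_Z hz))
  rw [← map_add]
  congr 1
  have e : ∀ (a b c : V.V n) (ha : a ∈ V.Z n) (hb : b ∈ V.Z n) (hc : c ∈ V.Z n), a = b + c →
      V.cls a ha = V.cls b hb + V.cls c hc := by
    rintro a b c ha hb hc rfl
    rfl
  exact e _ _ _ _ _ _ (key n z)

theorem zC_prim (S : SqFam) {n : ℕ} (b : Orb n) :
    CR.map (addHom (KL n)) (zC S b) =
      CR.map (Hom.fst (KL n).ss (KL n).ss) (zC S b) +
        CR.map (Hom.snd (KL n).ss (KL n).ss) (zC S b) := by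
  have h0 : (addHom (KL n)).app 0 ((KL n).zv, (KL n).zv) = (KL n).zv := add_zero (0 : (KL n).V 0)
  have h1 : (Hom.fst (KL n).ss (KL n).ss).app 0 ((KL n).zv, (KL n).zv) = (KL n).zv := rfl
  have h2 : (Hom.snd (KL n).ss (KL n).ss).app 0 ((KL n).zv, (KL n).zv) = (KL n).zv := rfl
  rw [A4S1_map S b (Z := (KL n).ss.prod (KL n).ss) ((KL n).zv, (KL n).zv) (addHom (KL n)) h0,
    A4S1_map S b ((KL n).zv, (KL n).zv) (Hom.fst (KL n).ss (KL n).ss) h1,
    A4S1_map S b ((KL n).zv, (KL n).zv) (Hom.snd (KL n).ss (KL n).ss) h2,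
    zR_pull, zR_pull, zR_pull, A4S1_iota, A4S1_iota, A4S1_iota,
    A4S1_add (KLev n) ((KL n).zv, (KL n).zv) (addHom (KL n)) (Hom.fst (KL n).ss (KL n).ss)
      (Hom.snd (KL n).ss (KL n).ss) h0 h1 h2 (fun _ _ => rfl)]
  have e : (thb b).ev (RAM S ((KL n).ss.prod (KL n).ss) ((KL n).zv, (KL n).zv))
      (clR (KLev n) (Hom.fst (KL n).ss (KL n).ss) h1 + clR (KLev n) (Hom.snd (KL n).ss (KL n).ss) h2) =
      (thb b).ev (RAM S ((KL n).ss.prod (KL n).ss) ((KL n).zv, (KL n).zv))
        (clR (KLev n) (Hom.fst (KL n).ss (KL n).ss) h1) +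
      (thb b).ev (RAM S ((KL n).ss.prod (KL n).ss) ((KL n).zv, (KL n).zv))
        (clR (KLev n) (Hom.snd (KL n).ss (KL n).ss) h2) := map_add _ _ _
  rw [e]
  exact (congrArg (CR.hom (wtO b)) (map_add (red _ (wtO b)) _ _)).trans (map_add (CR.hom (wtO b)) _ _)

theorem exists_rM (S : SqFam) (M n : ℕ) (hn : 1 ≤ n) :
    ∃ a : Hom (Bpow (Fin M × Fin n)) (KL n).ss, a.app 0 (Bpt _) = (KL n).zv ∧
      ∀ b : Orb n, CR.map a (zC S b) = pol (Fin M × Fin n) (blk M n (orbM b)) := by
  obtain ⟨Ψ, hΨ⟩ := exists_PsiE S M n hn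
  obtain ⟨a, ha, hay⟩ := em_surj_pt (KL_isEM n) (Z := Bpow (Fin M × Fin n)) (Bpt _)
    (Ψ.app n (EAM.gen n))
  refine ⟨a, ha, fun b => ?_⟩
  rw [A4S1_map S b (Bpt _) a ha, zR_pull, A4S1_iota, hay]
  have h1 := Op.ev_nat Ψ (thb b) (EAM.gen n)
  rw [thb_ev] at h1
  have h2 := hΨ (wtO b) (⟨orbM b, orbM_mem b rfl⟩ : EE n (wtO b))
  rw [← h2]
  congr 2
  exact h1.symm

end MM

end

/-! ### from `Lib_MP_33f7bb_d.A4L2` -/

section

/-!
# A4-32: (LB), the polynomial part

`n ≥ 1`.  `rep b : Fin n → ℕ` a function with orbit `b`.  For `D₀ : Fin M → Orb n` injective let `muE D₀` be the exponent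
`(j, i) ↦ 2 ^ (rep (D₀ j) i)`.
`coeff_blk`: for a finite set `D` of orbits with at most `M` elements the coefficient of `muE D₀` in
`∏_(b ∈ D) blk M n (orbM b)` is `1` if `D` is the image of `D₀` and `0` otherwise.
Proof.  `∏_(b ∈ D) ∑_j m_b(x_j) = ∑_(f : D → Fin M) ∏_b m_b(x_(f b))` (`Finset.prod_sum` / `Finset.prod_univ_sum`).  In the term of `f` only
the variables of the blocks `f b` occur; `muE D₀` involves all variables of all blocks (`n ≥ 1`), so the coefficient is `0`
unless `f` is surjective; as `D.card ≤ M`, `f` is then bijective and the product is `∏_j m_(f⁻¹ j)(x_j)`, whose coefficient at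
`muE D₀` is `∏_j (coefficient of expo (rep (D₀ j)) in toPoly (orbM (f⁻¹ j))) = ∏_j [f⁻¹ j = D₀ j]` (`coeff_toPoly`, `orbM_apply`).
So exactly one bijection contributes iff `D` = image of `D₀`.
`PD_li`: in a relation `∑ c_D ∏_(b ∈ D) blk M (orbM b) = 0` valid for all `M`, take `M` = the largest cardinality of a `D` with
`c_D ≠ 0`, `D₀` an enumeration of such a `D`: the coefficient of `muE D₀` is `c_D`.
-/

namespace MM

/-- a function representing an orbit -/
noncomputable def rep {n : ℕ} (b : Orb n) : Fin n → ℕ := Classical.choose (exists_orb b)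

theorem orb_rep {n : ℕ} (b : Orb n) : orb (rep b) = b := Classical.choose_spec (exists_orb b)

/-- the test exponent -/
noncomputable def muE {M n : ℕ} (D₀ : Fin M → Orb n) : Fin M × Fin n →₀ ℕ :=
  Finsupp.equivFunOnFinite.symm fun x => 2 ^ rep (D₀ x.1) x.2

private theorem A4L2_prod_monomial {I J : Type} (s : Finset J) (e : J → I →₀ ℕ)
    (r : J → ZMod 2) :
    ∏ j ∈ s, MvPolynomial.monomial (e j) (r j) =
      MvPolynomial.monomial (∑ j ∈ s, e j) (∏ j ∈ s, r j) := by
  classical
  induction s using Finset.induction_on with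
  | empty =>
    rw [Finset.prod_empty, Finset.sum_empty, Finset.prod_empty]
    rfl
  | insert a s ha ih =>
    rw [Finset.prod_insert ha, Finset.sum_insert ha, Finset.prod_insert ha, ih,
      MvPolynomial.monomial_mul]

private theorem A4L2_sum_apply {M n : ℕ} (g : Fin M → Fin n →₀ ℕ) (j : Fin M) (i : Fin n) :
    (∑ j', Finsupp.mapDomain (fun i : Fin n => (j', i)) (g j')) (j, i) = g j i := by
  classical
  rw [Finsupp.finsetSum_apply, Finset.sum_eq_single j]
  · have hinj : Function.Injective (fun i : Fin n => (j, i)) :=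
      fun i i' h => congrArg Prod.snd h
    exact Finsupp.mapDomain_apply hinj (g j) i
  · intro j' _ hj'
    refine Finsupp.mapDomain_of_notMem_range (g j') (j, i) ?_
    rintro ⟨i', hi'⟩
    exact hj' (congrArg Prod.fst hi')
  · intro h
    exact absurd (Finset.mem_univ _) h

/-- coefficients of products of polynomials in disjoint blocks of variables -/
private theorem A4L2_coeff_prod {M n : ℕ} (p : Fin M → MvPolynomial (Fin n) (ZMod 2))
    (μ : Fin M × Fin n →₀ ℕ) (ν : Fin M → Fin n →₀ ℕ) (hν : ∀ j i, ν j i = μ (j, i)) :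
    MvPolynomial.coeff μ (∏ j, MvPolynomial.rename (fun i : Fin n => (j, i)) (p j)) =
      ∏ j, MvPolynomial.coeff (ν j) (p j) := by
  classical
  have h1 : ∀ j, MvPolynomial.rename (fun i : Fin n => (j, i)) (p j) =
      ∑ d ∈ (p j).support, MvPolynomial.monomial (Finsupp.mapDomain (fun i : Fin n => (j, i)) d)
        (MvPolynomial.coeff d (p j)) := by
    intro j
    conv_lhs => rw [← MvPolynomial.support_sum_monomial_coeff (p j)]
    rw [map_sum]
    exact Finset.sum_congr rfl fun d _ => MvPolynomial.rename_monomial _ _ _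
  have h2 : ∀ g : Fin M → Fin n →₀ ℕ,
      MvPolynomial.coeff μ (∏ j, MvPolynomial.monomial
        (Finsupp.mapDomain (fun i : Fin n => (j, i)) (g j)) (MvPolynomial.coeff (g j) (p j))) =
      if g = ν then ∏ j, MvPolynomial.coeff (ν j) (p j) else 0 := by
    intro g
    rw [A4L2_prod_monomial, MvPolynomial.coeff_monomial]
    by_cases hg : g = ν
    · subst hg
      rw [if_pos rfl, if_pos]
      refine Finsupp.ext fun x => ?_
      obtain ⟨j, i⟩ := x
      rw [A4L2_sum_apply, hν]
    · rw [if_neg hg, if_neg]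
      intro h
      refine hg (funext fun j => Finsupp.ext fun i => ?_)
      rw [hν, ← h, A4L2_sum_apply]
  rw [Finset.prod_congr rfl fun j _ => h1 j, Finset.prod_univ_sum, MvPolynomial.coeff_sum,
    Finset.sum_congr rfl fun g _ => h2 g, Finset.sum_ite_eq']
  split_ifs with h
  · rfl
  · rw [Fintype.mem_piFinset] at h
    push Not at h
    obtain ⟨j, hj⟩ := h
    rw [MvPolynomial.notMem_support_iff] at hj
    exact (Finset.prod_eq_zero (Finset.mem_univ j) hj).symm

private theorem A4L2_term {M n : ℕ} (hn : 1 ≤ n) (D₀ : Fin M → Orb n)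
    (D : Finset (Orb n)) (hD : D.card ≤ M) (f : D → Fin M) :
    MvPolynomial.coeff (muE D₀) (∏ b : D, MvPolynomial.rename (fun i : Fin n => (f b, i))
      (toPoly n (orbM b.1))) =
      open Classical in if Function.Surjective f ∧ ∀ b, D₀ (f b) = b.1 then 1 else 0 := by
  classical
  have h1 : (∏ b : D, MvPolynomial.rename (fun i : Fin n => (f b, i)) (toPoly n (orbM b.1))) =
      ∏ j : Fin M, MvPolynomial.rename (fun i : Fin n => (j, i))
        (∏ b : D with f b = j, toPoly n (orbM b.1)) := by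
    rw [← Finset.prod_fiberwise (s := (Finset.univ : Finset D)) (g := f)]
    refine Finset.prod_congr rfl fun j _ => ?_
    rw [map_prod]
    refine Finset.prod_congr rfl fun b hb => ?_
    rw [(Finset.mem_filter.1 hb).2]
  rw [h1, A4L2_coeff_prod _ (muE D₀) (fun j => expo (rep (D₀ j))) fun j i => rfl]
  by_cases hs : Function.Surjective f
  · have hcard : Fintype.card D ≤ Fintype.card (Fin M) := by
      rw [Fintype.card_coe, Fintype.card_fin]
      exact hD
    have hc : Fintype.card D = Fintype.card (Fin M) :=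
      le_antisymm hcard (Fintype.card_le_of_surjective f hs)
    have hb : Function.Bijective f := (Fintype.bijective_iff_surjective_and_card f).2 ⟨hs, hc⟩
    have h2 : ∀ b : D, MvPolynomial.coeff (expo (rep (D₀ (f b))))
        (∏ b' : D with f b' = f b, toPoly n (orbM b'.1)) =
        if D₀ (f b) = b.1 then 1 else 0 := by
      intro b
      have h3 : (Finset.univ.filter fun b' : D => f b' = f b) = {b} := by
        ext b'
        rw [Finset.mem_filter, Finset.mem_singleton]
        exact ⟨fun h => hb.1 h.2, fun h => ⟨Finset.mem_univ _, by rw [h]⟩⟩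
      rw [h3, Finset.prod_singleton, coeff_toPoly, orbM_apply, orb_rep]
    by_cases h4 : ∀ b, D₀ (f b) = b.1
    · rw [if_pos ⟨hs, h4⟩]
      refine Finset.prod_eq_one fun j _ => ?_
      obtain ⟨b, rfl⟩ := hs j
      rw [h2 b, if_pos (h4 b)]
    · rw [if_neg fun h => h4 h.2]
      push Not at h4
      obtain ⟨b, hb4⟩ := h4
      refine Finset.prod_eq_zero (Finset.mem_univ (f b)) ?_
      rw [h2 b, if_neg hb4]
  · rw [if_neg fun h => hs h.1]
    have hs' : ∃ j, ∀ b, f b ≠ j := by
      by_contra hcon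
      push Not at hcon
      exact hs hcon
    obtain ⟨j, hj⟩ := hs'
    refine Finset.prod_eq_zero (Finset.mem_univ j) ?_
    have h3 : (Finset.univ.filter fun b' : D => f b' = j) = ∅ :=
      Finset.filter_eq_empty_iff.2 fun b _ => hj b
    rw [h3, Finset.prod_empty, MvPolynomial.coeff_one, if_neg]
    intro h
    have h5 : (0 : ℕ) = 2 ^ rep (D₀ j) ⟨0, hn⟩ := DFunLike.congr_fun h ⟨0, hn⟩
    exact absurd h5.symm (pow_ne_zero _ two_ne_zero)

theorem coeff_blk {M n : ℕ} (hn : 1 ≤ n) (D₀ : Fin M → Orb n) (hD₀ : Function.Injective D₀)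
    (D : Finset (Orb n)) (hD : D.card ≤ M) :
    MvPolynomial.coeff (muE D₀) (∏ b ∈ D, blk M n (orbM b)) =
      open Classical in if D = Finset.univ.image D₀ then 1 else 0 := by
  classical
  have h1 : (∏ b ∈ D, blk M n (orbM b)) =
      ∑ f : D → Fin M, ∏ b : D, MvPolynomial.rename (fun i : Fin n => (f b, i))
        (toPoly n (orbM b.1)) := by
    rw [← Finset.prod_coe_sort D, Finset.prod_congr rfl fun b _ => blk_apply M n (orbM b.1),
      Finset.prod_univ_sum, Fintype.piFinset_univ]
  rw [h1, MvPolynomial.coeff_sum, Finset.sum_congr rfl fun f _ => A4L2_term hn D₀ D hD f]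
  by_cases hE : D = Finset.univ.image D₀
  · rw [if_pos hE]
    have h2 : ∀ b : D, ∃ j, D₀ j = b.1 := by
      intro b
      have hb : b.1 ∈ Finset.univ.image D₀ := by
        rw [← hE]
        exact b.2
      obtain ⟨j, -, hj⟩ := Finset.mem_image.1 hb
      exact ⟨j, hj⟩
    choose f hf using h2
    have hs : Function.Surjective f := by
      intro j
      have hj : D₀ j ∈ D := by
        rw [hE]
        exact Finset.mem_image_of_mem D₀ (Finset.mem_univ j)
      exact ⟨⟨D₀ j, hj⟩, hD₀ (hf ⟨D₀ j, hj⟩)⟩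
    rw [Finset.sum_eq_single f]
    · rw [if_pos ⟨hs, hf⟩]
    · intro g _ hg
      rw [if_neg]
      rintro ⟨-, h⟩
      exact hg (funext fun b => hD₀ ((h b).trans (hf b).symm))
    · intro h
      exact absurd (Finset.mem_univ _) h
  · rw [if_neg hE]
    refine Finset.sum_eq_zero fun f _ => if_neg ?_
    rintro ⟨hs, hf⟩
    apply hE
    ext b
    rw [Finset.mem_image]
    constructor
    · intro hb
      exact ⟨f ⟨b, hb⟩, Finset.mem_univ _, hf ⟨b, hb⟩⟩
    · rintro ⟨j, -, rfl⟩
      obtain ⟨b, rfl⟩ := hs j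
      rw [hf b]
      exact b.2

/-- independence of the products of block sums -/
theorem PD_li {n : ℕ} (hn : 1 ≤ n) (c : Finset (Orb n) →₀ ZMod 2)
    (h : ∀ M : ℕ, (c.sum fun D r => r • ∏ b ∈ D, blk M n (orbM b)) = 0) : c = 0 := by
  classical
  by_contra hc
  have hne : c.support.Nonempty := Finsupp.support_nonempty_iff.2 hc
  obtain ⟨D, hD, hmax⟩ := Finset.exists_max_image c.support Finset.card hne
  have hM := h D.card
  let D₀ : Fin D.card → Orb n := fun j => (D.equivFin.symm j).1
  have hD₀ : Function.Injective D₀ :=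
    fun j j' hj => D.equivFin.symm.injective (Subtype.ext hj)
  have him : D = Finset.univ.image D₀ := by
    ext b
    rw [Finset.mem_image]
    constructor
    · intro hb
      refine ⟨D.equivFin ⟨b, hb⟩, Finset.mem_univ _, ?_⟩
      show (D.equivFin.symm (D.equivFin ⟨b, hb⟩)).1 = b
      rw [Equiv.symm_apply_apply]
    · rintro ⟨j, -, rfl⟩
      exact (D.equivFin.symm j).2
  have h1 := congrArg (MvPolynomial.coeff (muE D₀)) hM
  rw [Finsupp.sum, MvPolynomial.coeff_sum, MvPolynomial.coeff_zero,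
    Finset.sum_eq_single D] at h1
  · rw [MvPolynomial.coeff_smul, coeff_blk hn D₀ hD₀ D le_rfl, if_pos him, smul_eq_mul,
      mul_one] at h1
    exact (Finsupp.mem_support_iff.1 hD) h1
  · intro D' hD' hDD'
    rw [MvPolynomial.coeff_smul, coeff_blk hn D₀ hD₀ D' (hmax D' hD'), if_neg, smul_zero]
    rw [← him]
    exact hDD'
  · intro h2
    exact absurd hD h2

end MM

end
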