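import Pool.Agent.Lib_MP_33f7bb_m.G13
import Pool.Agent.Lib_MP_33f7bb_m.G23

/-!
# MP_33f7bb_an, negative answer to Q1: merged library part G25

Concatenation of files of `Lib_MP_33f7bb_an` and `Lib_MP_33f7bb_d` (each in its own section), only to save build time.
-/

/-! ### from `Lib_MP_33f7bb_d.A4B6` -/

section

/-!
# A4-B6: smash powers as tensor powers; Kuenneth basis

`exists_pmul`: bilinear extension of `[u] ⊗ [v] ↦ [u + v] + [u] + [v]` (vanishes for `u = 0` or `v = 0`), naturality on generators.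
`exists_rsIso`: `[v] ⊗ [x] ↦ [cons v x]`; well defined and bijective in every level: both sides have the basis of
(nonzero `v`, `x` without zero entries) resp. (`cons v x` without zero entries); inverse `[x] ↦ [x 0] ⊗ [tail x]` (`quoLift`).
`pmD_cons`: `mrg 0 (cons v (cons u x)) = cons (v + u) x`, the two other terms of `pmG 0` are `cons u x`, `cons v x` (as in the formula, order
irrelevant); `pmG (succ i) (cons v x') = rsIso ([v] ⊗ pmG i x')`.
`pmD_H`: the same identity in homology: the two linear simplicial maps on `RV ⊗ (RV ⊗ RS V k)` agree on generators; apply them to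
`crs a (crs b c)` and use `crs_map`, `assoc_crs` (for the term with `pmul`), choose representing cycles (`crsH_cls`).

`RS_basis`: `Y k L` as in `YY`: `Y 0 []` = class of the empty tuple, `Y (k+1) (D :: L) = ∑_q H(rsIso) (y D q × Y k L (p - q))` (only
`q = w D` contributes).  Basis by induction on `k`: `k = 0`: `RS V 0` is the constant `ZMod 2` (`cstV_homology`-like: `H_0 = F`,
`H_p = 0` for `p > 0`); step: `H(rsIso)` is bijective (`Hmap_bijective`), Kuenneth (`kun`: direct sum of the tensor products;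
basis of a tensor product).  `hδ`: by induction on `k` with `pmD_H`, `mul` and
`dlc (D :: E :: L) = [D ∩ E = ∅] (D ∪ E) :: L + D :: dlc (E :: L)`.
-/

open scoped TensorProduct

namespace MM

/-! ### bilinear extension -/

private theorem A4B6_tens_ext {P P' : SS} (A : Sub P) (A' : Sub P') {n : ℕ} {M : Type}
    [AddCommGroup M] [Module (ZMod 2) M]
    {f g : ((linSub A).quo.V n ⊗[ZMod 2] (linSub A').quo.V n) →ₗ[ZMod 2] M}
    (h : ∀ x y, f (((quoOf A).app n x : (linSub A).quo.V n) ⊗ₜ[ZMod 2]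
      ((quoOf A').app n y : (linSub A').quo.V n)) =
      g (((quoOf A).app n x : (linSub A).quo.V n) ⊗ₜ[ZMod 2]
      ((quoOf A').app n y : (linSub A').quo.V n))) : f = g := by
  apply TensorProduct.ext
  refine quo_ext A fun x => ?_
  refine quo_ext A' fun y => ?_
  exact h x y

private theorem A4B6_biLift {P P' : SS} (A : Sub P) (A' : Sub P') {W : SV}
    (g : ∀ n, P.S n → P'.S n → W.V n)
    (hg : ∀ {m n : ℕ} (f : Mo m n) (x : P.S n) (y : P'.S n),
      g m (P.act f x) (P'.act f y) = W.act f (g n x y))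
    (hA : ∀ n x y, x ∈ A.car n → g n x y = 0) (hA' : ∀ n x y, y ∈ A'.car n → g n x y = 0) :
    ∃ F : SVHom ((linSub A).quo.tens (linSub A').quo) W, ∀ (n : ℕ) (x : P.S n) (y : P'.S n),
      F.app n (((quoOf A).app n x : (linSub A).quo.V n) ⊗ₜ[ZMod 2]
        ((quoOf A').app n y : (linSub A').quo.V n)) = g n x y := by
  have h1 : ∀ (n : ℕ) (x : P.S n), (linSub A').car n ≤
      LinearMap.ker (Finsupp.linearCombination (ZMod 2) (g n x)) := by
    intro n x c hc
    rw [LinearMap.mem_ker, Finsupp.linearCombination_apply]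
    refine Finset.sum_eq_zero fun y hy => ?_
    show c y • g n x y = 0
    rw [hA' n x y (hc hy), smul_zero]
  let L2 : ∀ n, Ch P n →ₗ[ZMod 2] (linSub A').quo.V n →ₗ[ZMod 2] W.V n := fun n =>
    Finsupp.linearCombination (ZMod 2) fun x =>
      Submodule.liftQ _ (Finsupp.linearCombination (ZMod 2) (g n x)) (h1 n x)
  have h2 : ∀ n, (linSub A).car n ≤ LinearMap.ker (L2 n) := by
    intro n c hc
    rw [LinearMap.mem_ker]
    show Finsupp.linearCombination (ZMod 2) _ c = 0
    rw [Finsupp.linearCombination_apply]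
    refine Finset.sum_eq_zero fun x hx => ?_
    show c x • Submodule.liftQ _ (Finsupp.linearCombination (ZMod 2) (g n x)) (h1 n x) = 0
    have h3 : Submodule.liftQ _ (Finsupp.linearCombination (ZMod 2) (g n x)) (h1 n x) = 0 := by
      refine quo_ext A' fun y => ?_
      show Finsupp.linearCombination (ZMod 2) (g n x) (Finsupp.single y 1) = 0
      rw [Finsupp.linearCombination_single, hA n x y (hc hx), smul_zero]
    rw [h3, smul_zero]
  let L3 : ∀ n, (linSub A).quo.V n →ₗ[ZMod 2] (linSub A').quo.V n →ₗ[ZMod 2] W.V n := fun n =>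
    Submodule.liftQ _ (L2 n) (h2 n)
  have h4 : ∀ (n : ℕ) (x : P.S n) (y : P'.S n), TensorProduct.lift (L3 n)
      (((quoOf A).app n x : (linSub A).quo.V n) ⊗ₜ[ZMod 2]
        ((quoOf A').app n y : (linSub A').quo.V n)) = g n x y := by
    intro n x y
    rw [TensorProduct.lift.tmul]
    show (Finsupp.linearCombination (ZMod 2) (fun x =>
      Submodule.liftQ _ (Finsupp.linearCombination (ZMod 2) (g n x)) (h1 n x))
      (Finsupp.single x 1)) _ = g n x y
    rw [Finsupp.linearCombination_single, one_smul]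
    show Finsupp.linearCombination (ZMod 2) (g n x) (Finsupp.single y 1) = g n x y
    rw [Finsupp.linearCombination_single, one_smul]
  refine ⟨⟨fun n => TensorProduct.lift (L3 n), ?_⟩, h4⟩
  intro m n f z
  have h5 : (TensorProduct.lift (L3 m)).comp
      (((linSub A).quo.tens (linSub A').quo).act f) =
      (W.act f).comp (TensorProduct.lift (L3 n)) := by
    refine A4B6_tens_ext A A' fun x y => ?_
    rw [LinearMap.comp_apply, LinearMap.comp_apply, h4, ← hg f x y, ← h4 m]
    show TensorProduct.lift (L3 m) (TensorProduct.map _ _ (_ ⊗ₜ[ZMod 2] _)) = _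
    rw [TensorProduct.map_tmul]
    rw [(quoOf A).nat f x, (quoOf A').nat f y]
  exact LinearMap.congr_fun h5 z

private theorem A4B6_pt {V : SV} {n : ℕ} {u : V.V n} (hu : u ∈ (Sub.pt (P := V.ss) V.zv).car n) :
    u = 0 := by
  have h : u = V.act (cst 0) (0 : V.V 0) := hu
  rw [h, map_zero]

private theorem A4B6_pt_mem {V : SV} (n : ℕ) : (0 : V.V n) ∈ (Sub.pt (P := V.ss) V.zv).car n := by
  show (0 : V.V n) = V.act (cst 0) (0 : V.V 0)
  rw [map_zero]

private theorem A4B6_of_zero {V : SV} (n : ℕ) :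
    ((R.of V.zv).app n (0 : V.V n) : (RV V).V n) = 0 :=
  quoOf_mem (Sub.pt (P := V.ss) V.zv) (A4B6_pt_mem n)

theorem exists_pmul (V : SV) : ∃ μ : SVHom ((RV V).tens (RV V)) (RV V),
    ∀ (m : ℕ) (u v : V.V m),
      μ.app m (((R.of V.zv).app m u : (RV V).V m) ⊗ₜ[ZMod 2] ((R.of V.zv).app m v : (RV V).V m)) =
        ((R.of V.zv).app m (u + v : V.V m) : (RV V).V m) + (R.of V.zv).app m u +
          (R.of V.zv).app m v := by
  obtain ⟨F, hF⟩ := A4B6_biLift (Sub.pt (P := V.ss) V.zv) (Sub.pt (P := V.ss) V.zv) (W := RV V)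
    (fun m u v => ((R.of V.zv).app m (u + v : V.V m) : (RV V).V m) + (R.of V.zv).app m u +
          (R.of V.zv).app m v) (by
      intro m n f x y
      rw [map_add, map_add]
      have h1 : (V.act f x + V.act f y : V.V m) = V.act f (x + y) := (map_add _ _ _).symm
      show ((R.of V.zv).app m (V.act f x + V.act f y : V.V m) : (RV V).V m) + _ + _ = _
      rw [h1]
      exact congrArg₂ (· + ·) (congrArg₂ (· + ·) ((R.of V.zv).nat f (x + y : V.V n))
        ((R.of V.zv).nat f x)) ((R.of V.zv).nat f y)) (by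
      intro n x y hx
      rw [A4B6_pt hx, zero_add, A4B6_of_zero, add_zero]
      exact two_eq_zero' _) (by
      intro n x y hy
      rw [A4B6_pt hy, add_zero, A4B6_of_zero, add_zero]
      exact two_eq_zero' _)
  exact ⟨F, hF⟩

/-- the (reduced) Pontryagin product on chains -/
noncomputable def pmul (V : SV) : SVHom ((RV V).tens (RV V)) (RV V) :=
  Classical.choose (exists_pmul V)

theorem pmul_of (V : SV) (m : ℕ) (u v : V.V m) :
    (pmul V).app m (((R.of V.zv).app m u : (RV V).V m) ⊗ₜ[ZMod 2]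
      ((R.of V.zv).app m v : (RV V).V m)) =
        ((R.of V.zv).app m (u + v : V.V m) : (RV V).V m) + (R.of V.zv).app m u +
          (R.of V.zv).app m v := Classical.choose_spec (exists_pmul V) m u v

private theorem A4B6_cons {V : SV} {k m n : ℕ} (f : Mo m n) (v : V.V n) (x : Fin k → V.V n) :
    (Fin.cons (V.act f v) (fun i => V.act f (x i)) : Fin (k + 1) → V.V m) =
      fun i => V.act f ((Fin.cons v x : Fin (k + 1) → V.V n) i) := by
  funext i
  refine Fin.cases ?_ (fun j => ?_) i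
  · rw [Fin.cons_zero, Fin.cons_zero]
  · rw [Fin.cons_succ, Fin.cons_succ]

private theorem A4B6_fwd (V : SV) (k : ℕ) : ∃ F : SVHom ((RV V).tens (RS V k)) (RS V (k + 1)),
    ∀ (m : ℕ) (v : V.V m) (x : Fin k → V.V m),
      F.app m (((R.of V.zv).app m v : (RV V).V m) ⊗ₜ[ZMod 2] ((RS.of V k).app m x : (RS V k).V m)) =
        (RS.of V (k + 1)).app m (Fin.cons v x) := by
  obtain ⟨F, hF⟩ := A4B6_biLift (Sub.pt (P := V.ss) V.zv) (VP0 V k) (W := RS V (k + 1))
    (fun m v x => (RS.of V (k + 1)).app m (Fin.cons v x : Fin (k + 1) → V.V m)) (by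
      intro m n f x y
      refine Eq.trans ?_ ((RS.of V (k + 1)).nat f (Fin.cons x y : Fin (k + 1) → V.V n))
      exact congrArg ((RS.of V (k + 1)).app m) (A4B6_cons f x y)) (by
      intro n x y hx
      refine quoOf_mem (VP0 V (k + 1)) ⟨0, ?_⟩
      rw [Fin.cons_zero]
      exact A4B6_pt hx) (by
      rintro n x y ⟨i, hi⟩
      refine quoOf_mem (VP0 V (k + 1)) ⟨i.succ, ?_⟩
      rw [Fin.cons_succ]
      exact hi)
  exact ⟨F, hF⟩

private noncomputable def A4B6_bfn (V : SV) (k : ℕ) :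
    Hom (VP V (k + 1)) ((RV V).tens (RS V k)).ss :=
  ⟨fun m x => ((R.of V.zv).app m (x 0) : (RV V).V m) ⊗ₜ[ZMod 2]
      ((RS.of V k).app m (Fin.tail x) : (RS V k).V m), by
      intro m n f x
      show _ = TensorProduct.map _ _ (_ ⊗ₜ[ZMod 2] _)
      rw [TensorProduct.map_tmul]
      exact congrArg₂ (fun (a : (RV V).V m) (b : (RS V k).V m) => a ⊗ₜ[ZMod 2] b)
        ((R.of V.zv).nat f (x 0)) ((RS.of V k).nat f (Fin.tail x))⟩

private theorem A4B6_bfn_app (V : SV) (k m : ℕ) (x : Fin (k + 1) → V.V m) :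
    (A4B6_bfn V k).app m x = ((R.of V.zv).app m (x 0) : (RV V).V m) ⊗ₜ[ZMod 2]
      ((RS.of V k).app m (Fin.tail x) : (RS V k).V m) := rfl

private theorem A4B6_bfn_zero (V : SV) (k n : ℕ) (x : Fin (k + 1) → V.V n) (i : Fin (k + 1))
    (hi : x i = 0) : (A4B6_bfn V k).app n x = (0 : ((RV V).tens (RS V k)).V n) := by
  rw [A4B6_bfn_app]
  rcases Fin.eq_zero_or_eq_succ i with h | ⟨j, h⟩
  · rw [h] at hi
    rw [hi, A4B6_of_zero, TensorProduct.zero_tmul]
  · rw [h] at hi
    have e1 : ((RS.of V k).app n (Fin.tail x) : (RS V k).V n) = 0 :=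
      quoOf_mem (VP0 V k) ⟨j, hi⟩
    rw [e1, TensorProduct.tmul_zero]

private theorem A4B6_bwd (V : SV) (k : ℕ) : ∃ G : SVHom (RS V (k + 1)) ((RV V).tens (RS V k)),
    ∀ (m : ℕ) (x : Fin (k + 1) → V.V m), G.app m ((RS.of V (k + 1)).app m x) =
      (A4B6_bfn V k).app m x := by
  have h : ∀ n, ∀ x ∈ (VP0 V (k + 1)).car n, (A4B6_bfn V k).app n x =
      (0 : ((RV V).tens (RS V k)).V n) := by
    rintro n x ⟨i, hi⟩
    exact A4B6_bfn_zero V k n x i hi
  exact ⟨quoLift (VP0 V (k + 1)) (A4B6_bfn V k) h,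
    fun m x => quoLift_of (VP0 V (k + 1)) (A4B6_bfn V k) h m x⟩

theorem exists_rsIso (V : SV) (k : ℕ) : ∃ f : SVHom ((RV V).tens (RS V k)) (RS V (k + 1)),
    (∀ m, Function.Bijective (f.app m)) ∧
    ∀ (m : ℕ) (v : V.V m) (x : Fin k → V.V m),
      f.app m (((R.of V.zv).app m v : (RV V).V m) ⊗ₜ[ZMod 2] ((RS.of V k).app m x : (RS V k).V m)) =
        (RS.of V (k + 1)).app m (Fin.cons v x) := by
  obtain ⟨F, hF⟩ := A4B6_fwd V k
  obtain ⟨G, hG⟩ := A4B6_bwd V k
  refine ⟨F, fun m => ?_, hF⟩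
  have hGF : (G.app m).comp (F.app m) = LinearMap.id := by
    refine A4B6_tens_ext (Sub.pt (P := V.ss) V.zv) (VP0 V k) fun x y => ?_
    rw [LinearMap.comp_apply, LinearMap.id_apply]
    refine (congrArg (G.app m) (hF m x y)).trans ?_
    exact hG m (Fin.cons x y)
  have hFG : (F.app m).comp (G.app m) = LinearMap.id := by
    refine quo_ext (VP0 V (k + 1)) fun x => ?_
    rw [LinearMap.comp_apply, LinearMap.id_apply]
    refine (congrArg (F.app m) (hG m x)).trans ((hF m (x 0) (Fin.tail x)).trans ?_)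
    exact congrArg ((RS.of V (k + 1)).app m) (Fin.cons_self_tail x)
  exact Function.bijective_iff_has_inverse.2 ⟨G.app m, fun z => LinearMap.congr_fun hGF z,
    fun z => LinearMap.congr_fun hFG z⟩

/-- `R V ⊗ RS V k ≅ RS V (k+1)` -/
noncomputable def rsIso (V : SV) (k : ℕ) : SVHom ((RV V).tens (RS V k)) (RS V (k + 1)) :=
  Classical.choose (exists_rsIso V k)

theorem rsIso_bij (V : SV) (k m : ℕ) : Function.Bijective ((rsIso V k).app m) :=
  (Classical.choose_spec (exists_rsIso V k)).1 m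

theorem rsIso_of (V : SV) (k m : ℕ) (v : V.V m) (x : Fin k → V.V m) :
    (rsIso V k).app m (((R.of V.zv).app m v : (RV V).V m) ⊗ₜ[ZMod 2]
      ((RS.of V k).app m x : (RS V k).V m)) = (RS.of V (k + 1)).app m (Fin.cons v x) :=
  (Classical.choose_spec (exists_rsIso V k)).2 m v x

private theorem A4B6_pmG_zero (V : SV) (k m : ℕ) (v u : V.V m) (x : Fin k → V.V m) :
    pmG (0 : Fin (k + 1)) (Fin.cons v (Fin.cons u x : Fin (k + 1) → V.V m) :
      Fin (k + 2) → V.V m) =
      (((RS.of V (k + 1)).app m (Fin.cons (v + u) x) : (RS V (k + 1)).V m) +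
        (RS.of V (k + 1)).app m (Fin.cons v x)) + (RS.of V (k + 1)).app m (Fin.cons u x) := by
  unfold pmG
  refine congrArg₂ (· + ·) (congrArg₂ (· + ·) ?_ ?_) ?_
  · refine congrArg ((RS.of V (k + 1)).app m) ?_
    funext j
    unfold mrg
    rcases Fin.eq_zero_or_eq_succ j with rfl | ⟨j, rfl⟩
    · rw [if_neg (lt_irrefl _), if_pos rfl]
      rfl
    · rw [if_neg (Fin.not_lt_zero _), if_neg (Fin.succ_ne_zero j)]
      rfl
  · refine congrArg ((RS.of V (k + 1)).app m) ?_
    funext j
    rw [Function.comp_apply]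
    rcases Fin.eq_zero_or_eq_succ j with rfl | ⟨j, rfl⟩
    · rw [Fin.succ_succAbove_zero]
      rfl
    · rw [Fin.succ_succAbove_succ, Fin.zero_succAbove]
      rfl
  · refine congrArg ((RS.of V (k + 1)).app m) ?_
    funext j
    rw [Function.comp_apply, Fin.castSucc_zero, Fin.zero_succAbove]
    rfl

private theorem A4B6_pmG_succ (V : SV) (k m : ℕ) (v : V.V m) (y : Fin (k + 1) → V.V m)
    (i : Fin k) :
    pmG i.succ (Fin.cons v y : Fin (k + 2) → V.V m) =
      (rsIso V k).app m (((R.of V.zv).app m v : (RV V).V m) ⊗ₜ[ZMod 2] pmG i y) := by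
  unfold pmG
  rw [TensorProduct.tmul_add, TensorProduct.tmul_add, map_add, map_add, rsIso_of, rsIso_of,
    rsIso_of]
  refine congrArg₂ (· + ·) (congrArg₂ (· + ·) ?_ ?_) ?_
  · refine congrArg ((RS.of V (k + 1)).app m) ?_
    funext j
    rcases Fin.eq_zero_or_eq_succ j with rfl | ⟨j, rfl⟩
    · unfold mrg
      rw [if_pos (Fin.succ_pos i), Fin.cons_zero, Fin.castSucc_zero, Fin.cons_zero]
    · rw [Fin.cons_succ]
      unfold mrg
      rw [← Fin.succ_castSucc, ← Fin.succ_castSucc, Fin.cons_succ, Fin.cons_succ, Fin.cons_succ,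
        Fin.cons_succ]
      by_cases h1 : j < i
      · rw [if_pos h1, if_pos (Fin.succ_lt_succ_iff.2 h1)]
      · rw [if_neg h1, if_neg (fun h => h1 (Fin.succ_lt_succ_iff.1 h))]
        by_cases h2 : j = i
        · rw [if_pos h2, if_pos (by rw [h2])]
        · rw [if_neg h2, if_neg (fun h => h2 (Fin.succ_injective _ h))]
  · refine congrArg ((RS.of V (k + 1)).app m) ?_
    funext j
    rw [Function.comp_apply]
    rcases Fin.eq_zero_or_eq_succ j with rfl | ⟨j, rfl⟩
    · rw [Fin.succ_succAbove_zero, Fin.cons_zero, Fin.cons_zero]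
    · rw [Fin.succ_succAbove_succ, Fin.cons_succ, Fin.cons_succ, Function.comp_apply]
  · refine congrArg ((RS.of V (k + 1)).app m) ?_
    funext j
    rw [Function.comp_apply, ← Fin.succ_castSucc]
    rcases Fin.eq_zero_or_eq_succ j with rfl | ⟨j, rfl⟩
    · rw [Fin.succ_succAbove_zero, Fin.cons_zero, Fin.cons_zero]
    · rw [Fin.succ_succAbove_succ, Fin.cons_succ, Fin.cons_succ, Function.comp_apply]

theorem pmD_cons (V : SV) (k m : ℕ) (v u : V.V m) (x : Fin k → V.V m) :
    (pmD V (k + 1)).app m ((RS.of V (k + 2)).app m (Fin.cons v (Fin.cons u x : Fin (k + 1) → V.V m))) =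
      ((RS.of V (k + 1)).app m (Fin.cons (v + u) x) : (RS V (k + 1)).V m) +
        (RS.of V (k + 1)).app m (Fin.cons u x) + (RS.of V (k + 1)).app m (Fin.cons v x) +
      (rsIso V k).app m (((R.of V.zv).app m v : (RV V).V m) ⊗ₜ[ZMod 2]
        (pmD V k).app m ((RS.of V (k + 1)).app m (Fin.cons u x))) := by
  rw [pmD_of, Fin.sum_univ_succ, A4B6_pmG_zero, pmD_of, TensorProduct.tmul_sum, map_sum]
  refine congrArg₂ (· + ·) ?_ ?_
  · abel
  · exact Finset.sum_congr rfl fun i _ => A4B6_pmG_succ V k m v (Fin.cons u x) i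

private theorem A4B6_tapp {P P' Q Q' : SV} (f : SVHom P P') (g : SVHom Q Q') (n : ℕ)
    (x : P.V n) (y : Q.V n) :
    (f.tens g).app n (x ⊗ₜ[ZMod 2] y) = f.app n x ⊗ₜ[ZMod 2] g.app n y := rfl

private theorem A4B6_assoc {P Q S : SV} (n : ℕ) (x : P.V n) (y : Q.V n) (z : S.V n) :
    (SV.assoc P Q S).app n ((x ⊗ₜ[ZMod 2] y) ⊗ₜ[ZMod 2] z) =
      x ⊗ₜ[ZMod 2] (y ⊗ₜ[ZMod 2] z) := rfl

private theorem A4B6_tens_ext3 {P P' P'' : SS} (A : Sub P) (A' : Sub P') (A'' : Sub P'') {n : ℕ}
    {M : Type} [AddCommGroup M] [Module (ZMod 2) M]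
    {f g : (((linSub A).quo.tens (linSub A').quo).V n ⊗[ZMod 2] (linSub A'').quo.V n)
      →ₗ[ZMod 2] M}
    (h : ∀ x y z, f ((((quoOf A).app n x : (linSub A).quo.V n) ⊗ₜ[ZMod 2]
      ((quoOf A').app n y : (linSub A').quo.V n)) ⊗ₜ[ZMod 2]
        ((quoOf A'').app n z : (linSub A'').quo.V n)) =
      g ((((quoOf A).app n x : (linSub A).quo.V n) ⊗ₜ[ZMod 2]
      ((quoOf A').app n y : (linSub A').quo.V n)) ⊗ₜ[ZMod 2]
        ((quoOf A'').app n z : (linSub A'').quo.V n))) : f = g := by
  apply TensorProduct.ext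
  refine A4B6_tens_ext A A' fun x y => ?_
  refine quo_ext A'' fun z => ?_
  exact h x y z

/-- left and right hand side of the differential of a triple product -/
private noncomputable def A4B6_Phi (V : SV) (k : ℕ) :
    SVHom ((RV V).tens ((RV V).tens (RS V k))) (RS V (k + 1)) :=
  ((pmD V (k + 1)).comp (rsIso V (k + 1))).comp ((SVHom.id (RV V)).tens (rsIso V k))

private noncomputable def A4B6_Psi (V : SV) (k : ℕ) :
    SVHom ((RV V).tens ((RV V).tens (RS V k))) (RS V (k + 1)) :=
  (rsIso V k).comp ((SVHom.id (RV V)).tens ((pmD V k).comp (rsIso V k)))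

private noncomputable def A4B6_Chi (V : SV) (k : ℕ) :
    SVHom (((RV V).tens (RV V)).tens (RS V k)) (RS V (k + 1)) :=
  (rsIso V k).comp ((pmul V).tens (SVHom.id (RS V k)))

private theorem A4B6_eq (V : SV) (k n : ℕ) :
    ((A4B6_Phi V k).app n).comp ((SV.assoc (RV V) (RV V) (RS V k)).app n) =
      (A4B6_Chi V k).app n +
        ((A4B6_Psi V k).app n).comp ((SV.assoc (RV V) (RV V) (RS V k)).app n) := by
  refine A4B6_tens_ext3 (Sub.pt (P := V.ss) V.zv) (Sub.pt (P := V.ss) V.zv) (VP0 V k)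
    fun v u x => ?_
  rw [LinearMap.add_apply, LinearMap.comp_apply, LinearMap.comp_apply, A4B6_assoc]
  have e1 : (A4B6_Phi V k).app n (((quoOf (Sub.pt (P := V.ss) V.zv)).app n v : (RV V).V n) ⊗ₜ[ZMod 2]
      (((quoOf (Sub.pt (P := V.ss) V.zv)).app n u : (RV V).V n) ⊗ₜ[ZMod 2]
        ((quoOf (VP0 V k)).app n x : (RS V k).V n))) =
      (pmD V (k + 1)).app n ((RS.of V (k + 2)).app n
        (Fin.cons v (Fin.cons u x : Fin (k + 1) → V.V n))) := by
    show (pmD V (k + 1)).app n ((rsIso V (k + 1)).app n (((SVHom.id (RV V)).tens (rsIso V k)).app n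
      (_ ⊗ₜ[ZMod 2] _))) = _
    rw [A4B6_tapp]
    have e2 : (rsIso V k).app n (((quoOf (Sub.pt (P := V.ss) V.zv)).app n u : (RV V).V n) ⊗ₜ[ZMod 2]
        ((quoOf (VP0 V k)).app n x : (RS V k).V n)) = (RS.of V (k + 1)).app n (Fin.cons u x) :=
      rsIso_of V k n u x
    rw [e2]
    exact congrArg ((pmD V (k + 1)).app n) (rsIso_of V (k + 1) n v (Fin.cons u x))
  have e3 : (A4B6_Chi V k).app n ((((quoOf (Sub.pt (P := V.ss) V.zv)).app n v : (RV V).V n)
      ⊗ₜ[ZMod 2] ((quoOf (Sub.pt (P := V.ss) V.zv)).app n u : (RV V).V n)) ⊗ₜ[ZMod 2]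
        ((quoOf (VP0 V k)).app n x : (RS V k).V n)) =
      ((RS.of V (k + 1)).app n (Fin.cons (v + u) x) : (RS V (k + 1)).V n) +
        (RS.of V (k + 1)).app n (Fin.cons v x) + (RS.of V (k + 1)).app n (Fin.cons u x) := by
    show (rsIso V k).app n (((pmul V).tens (SVHom.id (RS V k))).app n (_ ⊗ₜ[ZMod 2] _)) = _
    rw [A4B6_tapp]
    have e2 : (pmul V).app n (((quoOf (Sub.pt (P := V.ss) V.zv)).app n v : (RV V).V n) ⊗ₜ[ZMod 2]
        ((quoOf (Sub.pt (P := V.ss) V.zv)).app n u : (RV V).V n)) =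
        ((R.of V.zv).app n (v + u : V.V n) : (RV V).V n) + (R.of V.zv).app n v +
          (R.of V.zv).app n u := pmul_of V n v u
    rw [e2, TensorProduct.add_tmul, TensorProduct.add_tmul, map_add, map_add]
    exact congrArg₂ (· + ·) (congrArg₂ (· + ·) (rsIso_of V k n (v + u) x) (rsIso_of V k n v x))
      (rsIso_of V k n u x)
  have e4 : (A4B6_Psi V k).app n (((quoOf (Sub.pt (P := V.ss) V.zv)).app n v : (RV V).V n) ⊗ₜ[ZMod 2]
      (((quoOf (Sub.pt (P := V.ss) V.zv)).app n u : (RV V).V n) ⊗ₜ[ZMod 2]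
        ((quoOf (VP0 V k)).app n x : (RS V k).V n))) =
      (rsIso V k).app n (((R.of V.zv).app n v : (RV V).V n) ⊗ₜ[ZMod 2]
        (pmD V k).app n ((RS.of V (k + 1)).app n (Fin.cons u x))) := by
    show (rsIso V k).app n (((SVHom.id (RV V)).tens ((pmD V k).comp (rsIso V k))).app n
      (_ ⊗ₜ[ZMod 2] _)) = _
    rw [A4B6_tapp]
    refine congrArg (fun z => (rsIso V k).app n (((R.of V.zv).app n v : (RV V).V n)
      ⊗ₜ[ZMod 2] z)) ?_
    exact congrArg ((pmD V k).app n) (rsIso_of V k n u x)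
  rw [e1, e3, e4, pmD_cons]
  abel

private theorem A4B6_chain (V : SV) (k p q r n : ℕ) (hn : p + (q + r) = n) (a : (RV V).V p)
    (b : (RV V).V q) (c : (RS V k).V r) :
    (pmD V (k + 1)).app n ((rsIso V (k + 1)).app n (crs n a
        ((rsIso V k).app (q + r) (crs (q + r) b c)))) =
      (rsIso V k).app n (crs n ((pmul V).app (p + q) (crs (p + q) a b)) c) +
      (rsIso V k).app n (crs n a
        ((pmD V k).app (q + r) ((rsIso V k).app (q + r) (crs (q + r) b c)))) := by
  obtain rfl : n = p + q + r := by omega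
  have h1 := LinearMap.congr_fun (A4B6_eq V k (p + q + r)) (crs (p + q + r) (crs (p + q) a b) c)
  rw [LinearMap.add_apply, LinearMap.comp_apply, LinearMap.comp_apply, assoc_crs] at h1
  have h2 : (A4B6_Phi V k).app (p + q + r) (crs (p + q + r) a (crs (q + r) b c)) =
      (pmD V (k + 1)).app (p + q + r) ((rsIso V (k + 1)).app (p + q + r) (crs (p + q + r) a
        ((rsIso V k).app (q + r) (crs (q + r) b c)))) :=
    congrArg (fun z => (pmD V (k + 1)).app (p + q + r) ((rsIso V (k + 1)).app (p + q + r) z))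
      (crs_map (SVHom.id (RV V)) (rsIso V k) a (crs (q + r) b c))
  have h3 : (A4B6_Psi V k).app (p + q + r) (crs (p + q + r) a (crs (q + r) b c)) =
      (rsIso V k).app (p + q + r) (crs (p + q + r) a
        ((pmD V k).app (q + r) ((rsIso V k).app (q + r) (crs (q + r) b c)))) :=
    congrArg (fun z => (rsIso V k).app (p + q + r) z)
      (crs_map (SVHom.id (RV V)) ((pmD V k).comp (rsIso V k)) a (crs (q + r) b c))
  have h4 : (A4B6_Chi V k).app (p + q + r) (crs (p + q + r) (crs (p + q) a b) c) =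
      (rsIso V k).app (p + q + r) (crs (p + q + r) ((pmul V).app (p + q) (crs (p + q) a b)) c) :=
    congrArg (fun z => (rsIso V k).app (p + q + r) z)
      (crs_map (pmul V) (SVHom.id (RS V k)) (crs (p + q) a b) c)
  rw [← h2, ← h3, ← h4]
  exact h1

theorem pmD_H (V : SV) (k p q r n : ℕ) (hn : p + (q + r) = n) (a : (RV V).H p) (b : (RV V).H q)
    (c : (RS V k).H r) :
    SV.Hmap (pmD V (k + 1)) n (SV.Hmap (rsIso V (k + 1)) n (crsH n a
        (SV.Hmap (rsIso V k) (q + r) (crsH (q + r) b c)))) =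
      SV.Hmap (rsIso V k) n (crsH n (SV.Hmap (pmul V) (p + q) (crsH (p + q) a b)) c) +
      SV.Hmap (rsIso V k) n (crsH n a
        (SV.Hmap (pmD V k) (q + r) (SV.Hmap (rsIso V k) (q + r) (crsH (q + r) b c)))) := by
  obtain ⟨a, ha, rfl⟩ := A3Box_exists_cls a
  obtain ⟨b, hb, rfl⟩ := A3Box_exists_cls b
  obtain ⟨c, hc, rfl⟩ := A3Box_exists_cls c
  have key := A4B6_chain V k p q r n hn a b c
  rw [crsH_cls b hb c hc, crsH_cls a ha b hb, SV.Hmap_cls, SV.Hmap_cls, SV.Hmap_cls, crsH_cls,
    crsH_cls, crsH_cls, SV.Hmap_cls, SV.Hmap_cls, SV.Hmap_cls, SV.Hmap_cls]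
  refine (A3Box_cls_congr key _ ?_).trans ?_
  · exact (RS V (k + 1)).Z n |>.add_mem
      ((rsIso V k).map_Z (crs_mem_Z ((pmul V).map_Z (crs_mem_Z ha hb)) hc))
      ((rsIso V k).map_Z (crs_mem_Z ha ((pmD V k).map_Z ((rsIso V k).map_Z (crs_mem_Z hb hc)))))
  · rfl

/-- a basis of the reduced homology with the multiplication table of an exterior algebra -/
structure YB (V : SV) {J : Type} [DecidableEq J] (w : J → ℕ) (y : NE J → ∀ d, (RV V).H d) :
    Prop where
  deg : ∀ (D : NE J) (d : ℕ), ∑ j ∈ D.1, w j ≠ d → y D d = 0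
  li : ∀ (d : ℕ) (c : NE J →₀ ZMod 2), (∀ D, c D ≠ 0 → ∑ j ∈ D.1, w j = d) →
    (c.sum fun D r => r • y D d) = 0 → c = 0
  span : ∀ (d : ℕ) (x : (RV V).H d), ∃ c : NE J →₀ ZMod 2,
    (∀ D, c D ≠ 0 → ∑ j ∈ D.1, w j = d) ∧ (c.sum fun D r => r • y D d) = x
  mul : ∀ (D E : NE J) (p q : ℕ), ∑ j ∈ D.1, w j = p → ∑ j ∈ E.1, w j = q →
    SV.Hmap (pmul V) (p + q) (crsH (p + q) (y D p) (y E q)) =
      if Disjoint D.1 E.1 then y (D.un E) (p + q) else 0

/-- the Kuenneth basis -/
noncomputable def YY {V : SV} {J : Type} (y : NE J → ∀ d, (RV V).H d) :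
    ∀ (k : ℕ) (p : ℕ) (_ : List (NE J)), (RS V k).H p
  | 0, 0, [] => (RS V 0).cls ((RS.of V 0).app 0 (fun i => i.elim0)) Submodule.mem_top
  | k + 1, p, D :: L => ∑ q ∈ Finset.range (p + 1),
      SV.Hmap (rsIso V k) p (crsH p (y D q) (YY y k (p - q) L))
  | _, _, _ => 0

/-! ### coordinates -/

private theorem A4B6_uniq {ι M : Type} [AddCommGroup M] [Module (ZMod 2) M] {g : ι → M}
    {S : Set ι} (li : ∀ c : ι →₀ ZMod 2, (∀ i, c i ≠ 0 → i ∈ S) →
      (c.sum fun i r => r • g i) = 0 → c = 0) {c c' : ι →₀ ZMod 2}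
    (h : ∀ i, c i ≠ 0 → i ∈ S) (h' : ∀ i, c' i ≠ 0 → i ∈ S)
    (he : (c.sum fun i r => r • g i) = c'.sum fun i r => r • g i) : c = c' := by
  have h1 : c - c' = 0 := by
    refine li _ (fun i hi => ?_) ?_
    · by_contra hS
      apply hi
      have h2 : c i = 0 := by
        by_contra h3
        exact hS (h i h3)
      have h3 : c' i = 0 := by
        by_contra h4
        exact hS (h' i h4)
      rw [Finsupp.sub_apply, h2, h3, sub_zero]
    · have h2 : ∀ c : ι →₀ ZMod 2, (c.sum fun i r => r • g i) =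
          Finsupp.linearCombination (ZMod 2) g c := fun c =>
        (Finsupp.linearCombination_apply (ZMod 2) c).symm
      rw [h2, map_sub, ← h2, ← h2, he, sub_self]
  exact sub_eq_zero.1 h1

private theorem A4B6_dual {ι M : Type} [AddCommGroup M] [Module (ZMod 2) M] {g : ι → M}
    {S : Set ι} (li : ∀ c : ι →₀ ZMod 2, (∀ i, c i ≠ 0 → i ∈ S) →
      (c.sum fun i r => r • g i) = 0 → c = 0)
    (span : ∀ x, ∃ c : ι →₀ ZMod 2, (∀ i, c i ≠ 0 → i ∈ S) ∧ (c.sum fun i r => r • g i) = x)
    (i0 : ι) : ∃ α : M →ₗ[ZMod 2] ZMod 2, (∀ i ∈ S, i ≠ i0 → α (g i) = 0) ∧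
      (i0 ∈ S → α (g i0) = 1) := by
  classical
  choose c hc hs using span
  have h2 : ∀ c : ι →₀ ZMod 2, (c.sum fun i r => r • g i) =
      Finsupp.linearCombination (ZMod 2) g c := fun c =>
    (Finsupp.linearCombination_apply (ZMod 2) c).symm
  have hadd : ∀ x y, c (x + y) = c x + c y := by
    intro x y
    refine A4B6_uniq li (hc _) (fun i hi => ?_) ?_
    · by_contra hS
      apply hi
      have h3 : c x i = 0 := by
        by_contra h3
        exact hS (hc x i h3)
      have h4 : c y i = 0 := by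
        by_contra h4
        exact hS (hc y i h4)
      rw [Finsupp.add_apply, h3, h4, add_zero]
    · rw [hs, h2, map_add, ← h2, ← h2, hs, hs]
  have hsmul : ∀ (r : ZMod 2) x, c (r • x) = r • c x := by
    intro r x
    refine A4B6_uniq li (hc _) (fun i hi => ?_) ?_
    · refine hc x i fun h3 => hi ?_
      rw [Finsupp.smul_apply, h3, smul_zero]
    · rw [hs, h2, map_smul, ← h2, hs]
  have hsing : ∀ i ∈ S, c (g i) = Finsupp.single i 1 := by
    intro i hi
    refine A4B6_uniq li (hc _) (fun j hj => ?_) ?_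
    · rw [Finsupp.single_apply] at hj
      by_cases h3 : i = j
      · rw [← h3]; exact hi
      · rw [if_neg h3] at hj
        exact absurd rfl hj
    · rw [hs, Finsupp.sum_single_index (by rw [zero_smul]), one_smul]
  refine ⟨⟨⟨fun x => c x i0, fun x y => by rw [hadd]; rfl⟩, fun r x => by
    show c (r • x) i0 = _
    rw [hsmul]; rfl⟩, fun i hi hne => ?_, fun hi => ?_⟩
  · show c (g i) i0 = 0
    rw [hsing i hi, Finsupp.single_eq_of_ne (fun h => hne h.symm)]
  · show c (g i0) i0 = 1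
    rw [hsing i0 hi, Finsupp.single_eq_same]

private theorem A4B6_box {P Q : SV} {p q n : ℕ} (h : p + q = n) (a : Module.Dual (ZMod 2) (P.H p))
    (b : Module.Dual (ZMod 2) (Q.H q)) (x : P.H p) (y : Q.H q) :
    boxF n a b (crsH n x y) = a x * b y := by
  obtain ⟨x, hx, rfl⟩ := A3Box_exists_cls x
  obtain ⟨y, hy, rfl⟩ := A3Box_exists_cls y
  rw [crsH_cls, boxF_crs h]

private theorem A4B6_box_ne {P Q : SV} {p q n p' q' : ℕ} (a : Module.Dual (ZMod 2) (P.H p))
    (b : Module.Dual (ZMod 2) (Q.H q)) (hp : p' ≠ p) (x : P.H p') (y : Q.H q') :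
    boxF n a b (crsH n x y) = 0 := by
  obtain ⟨x, hx, rfl⟩ := A3Box_exists_cls x
  obtain ⟨y, hy, rfl⟩ := A3Box_exists_cls y
  rw [crsH_cls]
  exact boxF_crs_ne a b hp x hx y hy

private theorem A4B6_crsH_zero_left {P Q : SV} {p q : ℕ} (n : ℕ) (y : Q.H q) :
    crsH n (0 : P.H p) y = 0 := by
  obtain ⟨f, hf⟩ := crsH_bilin P Q p q n
  rw [← hf, map_zero, LinearMap.zero_apply]

private theorem A4B6_crsH_zero_right {P Q : SV} {p q : ℕ} (n : ℕ) (x : P.H p) :
    crsH n x (0 : Q.H q) = 0 := by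
  obtain ⟨f, hf⟩ := crsH_bilin P Q p q n
  rw [← hf, map_zero]

private theorem A4B6_lwt_cons {J : Type} [DecidableEq J] (w : J → ℕ) (D : NE J)
    (L : List (NE J)) : lwt w (D :: L) = ∑ j ∈ D.1, w j + lwt w L := by
  unfold lwt
  rw [ty_cons, Multiset.map_add, Multiset.sum_add]
  rfl

private theorem A4B6_YY_cons {V : SV} {J : Type} [DecidableEq J] {w : J → ℕ}
    {y : NE J → ∀ d, (RV V).H d} (h : YB V w y) (k p t : ℕ) (D : NE J) (L : List (NE J))
    (q : ℕ) (hq : ∑ j ∈ D.1, w j = q) (hp : q + t = p) :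
    YY y (k + 1) p (D :: L) = SV.Hmap (rsIso V k) p (crsH p (y D q) (YY y k t L)) := by
  show ∑ q ∈ Finset.range (p + 1),
      SV.Hmap (rsIso V k) p (crsH p (y D q) (YY y k (p - q) L)) = _
  obtain rfl : t = p - q := by omega
  refine Finset.sum_eq_single q (fun q' _ hq' => ?_) (fun h1 => ?_)
  · rw [h.deg D q' (fun h2 => hq' (h2.symm.trans hq)), A4B6_crsH_zero_left, map_zero]
  · exact absurd (Finset.mem_range.2 (by omega)) h1

/-! ### the smash power of length zero -/

private theorem A4B6_pt_d (k : ℕ) (z : Ch PT (k + 1)) :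
    (lin PT).d k z = ((k + 2 : ℕ) : ZMod 2) • (z : Ch PT k) := by
  rw [SV.d, LinearMap.sum_apply]
  have h : ∀ i : Fin (k + 2), (lin PT).act (dlt i) z = (z : Ch PT k) := by
    intro i
    show Finsupp.mapDomain (PT.act (dlt i)) z = z
    exact Finsupp.mapDomain_id
  rw [Finset.sum_congr rfl (fun i _ => h i), Finset.sum_const, Finset.card_univ,
    Fintype.card_fin, Nat.cast_smul_eq_nsmul]

private theorem A4B6_pt_B {p : ℕ} (hp : p ≠ 0) {z : Ch PT p} (hz : z ∈ (lin PT).Z p) :
    z ∈ (lin PT).B p := by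
  obtain ⟨k, rfl⟩ := Nat.exists_eq_succ_of_ne_zero hp
  have h1 : (lin PT).d k z = 0 := hz
  rw [A4B6_pt_d] at h1
  rcases Nat.even_or_odd k with hk | hk
  · refine ⟨(z : Ch PT (k + 2)), ?_⟩
    have h2 := A4B6_pt_d (k + 1) z
    refine h2.trans ?_
    have h3 : ((k + 1 + 2 : ℕ) : ZMod 2) = 1 := by
      obtain ⟨j, rfl⟩ := hk
      have : (2 : ZMod 2) = 0 := rfl
      push_cast
      linear_combination ((j : ZMod 2) + 1) * this
    rw [h3, one_smul]
  · have h3 : ((k + 2 : ℕ) : ZMod 2) = 1 := by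
      obtain ⟨j, rfl⟩ := hk
      have : (2 : ZMod 2) = 0 := rfl
      push_cast
      linear_combination ((j : ZMod 2) + 1) * this
    rw [h3, one_smul] at h1
    have h4 : z = 0 := h1
    rw [h4]
    exact Submodule.zero_mem _

private noncomputable def A4B6_z (V : SV) : Hom PT (RS V 0).ss :=
  ⟨fun m _ => (RS.of V 0).app m (fun i => i.elim0), fun {m n} f x => by
    refine Eq.trans ?_ ((RS.of V 0).nat f (fun i => i.elim0))
    refine congrArg ((RS.of V 0).app m) ?_
    funext i
    exact i.elim0⟩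

private noncomputable def A4B6_g (V : SV) : Hom (VP V 0) (lin PT).ss :=
  ⟨fun n _ => (Finsupp.single () 1 : Ch PT n), fun {a b} f x => by
    show _ = Finsupp.mapDomain _ _
    rw [Finsupp.mapDomain_single]⟩

private theorem A4B6_G (V : SV) : ∃ G : SVHom (RS V 0) (lin PT), ∀ n (x : Fin 0 → V.V n),
    G.app n ((RS.of V 0).app n x) = (Finsupp.single () 1 : Ch PT n) := by
  have hg : ∀ n, ∀ x ∈ (VP0 V 0).car n, (A4B6_g V).app n x = (0 : (lin PT).V n) := by
    rintro n x ⟨i, -⟩
    exact i.elim0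
  exact ⟨quoLift (VP0 V 0) (A4B6_g V) hg, fun n x => quoLift_of (VP0 V 0) (A4B6_g V) hg n x⟩

private theorem A4B6_hz (V : SV) (n : ℕ) (r : ZMod 2) :
    (linHom (A4B6_z V)).app n (Finsupp.single () r) =
      r • ((RS.of V 0).app n (fun i => i.elim0) : (RS V 0).V n) :=
  linExt_single (P := PT) (W := RS V 0) (A4B6_z V).app n () r

private theorem A4B6_zbij (V : SV) (m : ℕ) : Function.Bijective ((linHom (A4B6_z V)).app m) := by
  obtain ⟨G, hG⟩ := A4B6_G V
  have h1 : (G.app m).comp ((linHom (A4B6_z V)).app m) = LinearMap.id := by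
    refine Finsupp.lhom_ext fun u r => ?_
    rw [LinearMap.comp_apply, LinearMap.id_apply]
    refine (congrArg (G.app m) (A4B6_hz V m r)).trans ?_
    rw [map_smul]
    refine (congrArg (fun z => r • z) (hG m (fun i => i.elim0))).trans ?_
    show r • (Finsupp.single () 1 : Ch PT m) = Finsupp.single () r
    rw [Finsupp.smul_single, smul_eq_mul, mul_one]
  have h2 : ((linHom (A4B6_z V)).app m).comp (G.app m) = LinearMap.id := by
    refine quo_ext (VP0 V 0) fun x => ?_
    rw [LinearMap.comp_apply, LinearMap.id_apply]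
    refine (congrArg ((linHom (A4B6_z V)).app m) (hG m x)).trans ?_
    refine (A4B6_hz V m 1).trans ?_
    rw [one_smul]
    refine congrArg ((RS.of V 0).app m) ?_
    funext i
    exact i.elim0
  exact Function.bijective_iff_has_inverse.2 ⟨G.app m, fun z => LinearMap.congr_fun h1 z,
    fun z => LinearMap.congr_fun h2 z⟩

private theorem A4B6_Z0 {W : SV} (z : W.V 0) : z ∈ W.Z 0 := Submodule.mem_top

/-- the class of the empty tuple -/
private noncomputable def A4B6_e (V : SV) : (RS V 0).H 0 :=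
  (RS V 0).cls ((RS.of V 0).app 0 (fun i => i.elim0)) (A4B6_Z0 _)

private noncomputable def A4B6_e' : (lin PT).H 0 :=
  (lin PT).cls (Finsupp.single () 1 : Ch PT 0) (A4B6_Z0 _)

private theorem A4B6_e_eq (V : SV) : A4B6_e V = SV.Hmap (linHom (A4B6_z V)) 0 A4B6_e' := by
  unfold A4B6_e'
  rw [SV.Hmap_cls]
  refine (A3Box_cls_congr ?_ _ _).symm
  refine (A4B6_hz V 0 1).trans ?_
  rw [one_smul]

private theorem A4B6_e'_smul (r : ZMod 2) :
    r • A4B6_e' = (lin PT).cls (Finsupp.single () r : Ch PT 0) (A4B6_Z0 _) := by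
  unfold A4B6_e'
  refine Eq.trans (A3Box_cls_smul r _).symm (A3Box_cls_congr ?_ _ _)
  show r • (Finsupp.single () 1 : Ch PT 0) = Finsupp.single () r
  rw [Finsupp.smul_single, smul_eq_mul, mul_one]

private theorem A4B6_e_ne (V : SV) (r : ZMod 2) (hr : r • A4B6_e V = 0) : r = 0 := by
  rw [A4B6_e_eq, ← map_smul] at hr
  have h1 := (Hmap_bijective _ (A4B6_zbij V) 0).1 (hr.trans (map_zero _).symm)
  rw [A4B6_e'_smul] at h1
  obtain ⟨w, hw⟩ := (Submodule.Quotient.mk_eq_zero _).1 h1
  have h2 : (lin PT).d 0 w = (Finsupp.single () r : Ch PT 0) := hw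
  rw [A4B6_pt_d] at h2
  have h3 : ((0 + 2 : ℕ) : ZMod 2) = 0 := rfl
  rw [h3, zero_smul] at h2
  have h4 := congrArg (fun u : Ch PT 0 => u ()) h2
  simp only [Finsupp.single_eq_same] at h4
  exact h4.symm

private theorem A4B6_span_zero (V : SV) (x : (RS V 0).H 0) : ∃ r : ZMod 2, x = r • A4B6_e V := by
  obtain ⟨x', rfl⟩ := (Hmap_bijective _ (A4B6_zbij V) 0).2 x
  obtain ⟨z, hz, rfl⟩ := A3Box_exists_cls x'
  refine ⟨(z : Ch PT 0) (), ?_⟩
  rw [A4B6_e_eq, ← map_smul, A4B6_e'_smul]
  refine congrArg (SV.Hmap (linHom (A4B6_z V)) 0) (A3Box_cls_congr ?_ _ _)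
  refine Finsupp.ext fun u => ?_
  rw [show u = () from rfl, Finsupp.single_eq_same]

private theorem A4B6_pos_zero (V : SV) {p : ℕ} (hp : p ≠ 0) (x : (RS V 0).H p) : x = 0 := by
  obtain ⟨x', rfl⟩ := (Hmap_bijective _ (A4B6_zbij V) p).2 x
  obtain ⟨z, hz, rfl⟩ := A3Box_exists_cls x'
  have h1 : (lin PT).cls z hz = 0 := (Submodule.Quotient.mk_eq_zero _).2 (A4B6_pt_B hp hz)
  rw [h1, map_zero]

private theorem A4B6_li {V : SV} {J : Type} [DecidableEq J] {w : J → ℕ}
    {y : NE J → ∀ d, (RV V).H d} (h : YB V w y) : ∀ (k p : ℕ),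
    (∀ (c : LC J), (∀ L, c L ≠ 0 → L.length = k ∧ lwt w L = p) →
      (c.sum fun L r => r • YY y k p L) = 0 → c = 0) ∧
    (∀ (x : (RS V k).H p), ∃ c : LC J, (∀ L, c L ≠ 0 → L.length = k ∧ lwt w L = p) ∧
      (c.sum fun L r => r • YY y k p L) = x) := by
  classical
  intro k
  induction k with
  | zero =>
    intro p
    have hl0 : lwt w ([] : List (NE J)) = 0 := rfl
    by_cases hp : p = 0
    · subst hp
      have hY : YY y 0 0 ([] : List (NE J)) = A4B6_e V := rfl
      constructor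
      · intro c hc hs
        have hc1 : c = Finsupp.single [] (c []) := by
          ext L
          by_cases hL : L = []
          · rw [hL, Finsupp.single_eq_same]
          · rw [Finsupp.single_eq_of_ne hL]
            by_contra h1
            exact hL (List.length_eq_zero_iff.1 (hc L h1).1)
        rw [hc1, Finsupp.sum_single_index (by rw [zero_smul]), hY] at hs
        rw [hc1, A4B6_e_ne V _ hs, Finsupp.single_zero]
      · intro x
        obtain ⟨r, rfl⟩ := A4B6_span_zero V x
        refine ⟨Finsupp.single [] r, fun L hL => ?_, ?_⟩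
        · by_cases h1 : L = []
          · rw [h1]; exact ⟨rfl, hl0⟩
          · exact absurd (Finsupp.single_eq_of_ne h1) hL
        · rw [Finsupp.sum_single_index (by rw [zero_smul]), hY]
    · constructor
      · intro c hc _
        ext L
        by_contra h1
        obtain ⟨h2, h3⟩ := hc L h1
        rw [List.length_eq_zero_iff.1 h2, hl0] at h3
        exact hp h3.symm
      · intro x
        exact ⟨0, fun L hL => absurd rfl hL, by rw [Finsupp.sum_zero_index, A4B6_pos_zero V hp x]⟩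
  | succ k ih =>
    intro p
    let e := LinearEquiv.ofBijective (SV.Hmap (rsIso V k) p) (Hmap_bijective _ (rsIso_bij V k) p)
    constructor
    · intro c hc hs
      refine Finsupp.ext fun L0 => ?_
      by_contra hL0
      have hL0' : c L0 ≠ 0 := hL0
      obtain ⟨h1, h2⟩ := hc L0 hL0'
      match L0, h1, h2, hL0' with
      | [], h1, _, _ => exact absurd h1 (Nat.succ_ne_zero k).symm
      | D0 :: L1, h1, h2, hL0' =>
        rw [A4B6_lwt_cons] at h2
        have hlen : L1.length = k := by simpa using h1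
        obtain ⟨α, hα, hα1⟩ := A4B6_dual (g := fun D => y D (∑ j ∈ D0.1, w j))
          (S := {D : NE J | ∑ j ∈ D.1, w j = ∑ j ∈ D0.1, w j})
          (fun c hc => h.li _ c hc) (fun x => h.span _ x) D0
        obtain ⟨β, hβ, hβ1⟩ := A4B6_dual (g := fun L => YY y k (lwt w L1) L)
          (S := {L : List (NE J) | L.length = k ∧ lwt w L = lwt w L1})
          (ih (lwt w L1)).1 (ih (lwt w L1)).2 L1
        have h3 := congrArg (fun z => boxF p α β (e.symm z)) hs
        have h4 : ∀ (D : NE J) (L : List (NE J)), c (D :: L) ≠ 0 → e.symm (YY y (k + 1) p (D :: L)) =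
            crsH p (y D (∑ j ∈ D.1, w j)) (YY y k (lwt w L) L) := by
          intro D L hDL
          obtain ⟨h5, h6⟩ := hc _ hDL
          rw [A4B6_lwt_cons] at h6
          rw [A4B6_YY_cons h k p (lwt w L) D L _ rfl h6]
          exact e.symm_apply_apply _
        have h5 : boxF p α β (e.symm (c.sum fun L r => r • YY y (k + 1) p L)) = c (D0 :: L1) := by
          rw [Finsupp.sum, map_sum, map_sum, Finset.sum_eq_single (D0 :: L1)]
          · rw [map_smul, map_smul, h4 D0 L1 hL0', A4B6_box h2, hα1 rfl, hβ1 ⟨hlen, rfl⟩, mul_one,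
              smul_eq_mul, mul_one]
          · intro L hL hne
            have hcL := Finsupp.mem_support_iff.1 hL
            rw [map_smul, map_smul]
            obtain ⟨h5, h6⟩ := hc L hcL
            match L, h5, h6, hcL, hne with
            | [], h5, _, _, _ => exact absurd h5 (Nat.succ_ne_zero k).symm
            | D :: L, h5, h6, hcL, hne =>
              have hlen' : L.length = k := by simpa using h5
              rw [A4B6_lwt_cons] at h6
              rw [h4 D L hcL]
              by_cases h7 : ∑ j ∈ D.1, w j = ∑ j ∈ D0.1, w j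
              · have h8 : lwt w L = lwt w L1 := by omega
                rw [h7, h8, A4B6_box h2]
                by_cases h9 : D = D0
                · have h10 : L ≠ L1 := by
                    rintro rfl
                    exact hne (by rw [h9])
                  rw [hβ L ⟨hlen', h8⟩ h10, mul_zero, smul_zero]
                · rw [hα D h7 h9, zero_mul, smul_zero]
              · rw [A4B6_box_ne _ _ h7, smul_zero]
          · intro h6
            rw [Finsupp.notMem_support_iff.1 h6, zero_smul, map_zero, map_zero]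
        have h6 : c (D0 :: L1) = 0 := by
          rw [← h5, hs, map_zero, map_zero]
        exact hL0' h6
    · intro x
      let M : Submodule (ZMod 2) ((RS V (k + 1)).H p) :=
        (Finsupp.supported (ZMod 2) (ZMod 2)
          {L : List (NE J) | L.length = k + 1 ∧ lwt w L = p}).map
          (Finsupp.linearCombination (ZMod 2) (YY y (k + 1) p))
      have hYM : ∀ L : List (NE J), L.length = k + 1 → lwt w L = p → YY y (k + 1) p L ∈ M := by
        intro L h1 h2
        refine ⟨Finsupp.single L 1, ?_, ?_⟩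
        · exact Finsupp.single_mem_supported (ZMod 2) 1 ⟨h1, h2⟩
        · rw [Finsupp.linearCombination_single, one_smul]
      have hprod : ∀ (q t : ℕ), q + t = p → ∀ (a : (RV V).H q) (b : (RS V k).H t),
          SV.Hmap (rsIso V k) p (crsH p a b) ∈ M := by
        intro q t hqt a b
        obtain ⟨f, hf⟩ := crsH_bilin (RV V) (RS V k) q t p
        obtain ⟨ca, hca, rfl⟩ := h.span q a
        obtain ⟨cb, hcb, rfl⟩ := (ih t).2 b
        rw [← hf, Finsupp.sum, map_sum, LinearMap.sum_apply, map_sum]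
        refine Submodule.sum_mem _ fun D hD => ?_
        rw [map_smul, LinearMap.smul_apply, map_smul]
        refine Submodule.smul_mem _ _ ?_
        rw [Finsupp.sum, map_sum, map_sum]
        refine Submodule.sum_mem _ fun L hL => ?_
        rw [map_smul, map_smul]
        refine Submodule.smul_mem _ _ ?_
        have h1 := hca D (Finsupp.mem_support_iff.1 hD)
        have h2 := hcb L (Finsupp.mem_support_iff.1 hL)
        rw [hf, ← A4B6_YY_cons h k p t D L q h1 hqt]
        refine hYM _ (by rw [List.length_cons, h2.1]) ?_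
        rw [A4B6_lwt_cons, h1, h2.2, hqt]
      have hx : x ∈ M := by
        obtain ⟨x', rfl⟩ := (Hmap_bijective _ (rsIso_bij V k) p).2 x
        obtain ⟨z, hz, rfl⟩ := A3Box_exists_cls x'
        obtain ⟨N, pp, qq, u, v, hpq, hu, hv, hB⟩ := kun_surj (RV V) (RS V k) p z hz
        have hZ : ∀ i, crs p (u i) (v i) ∈ ((RV V).tens (RS V k)).Z p := fun i =>
          crs_mem_Z (hu i) (hv i)
        have hs : ∑ i, crs p (u i) (v i) ∈ ((RV V).tens (RS V k)).Z p :=
          Submodule.sum_mem _ fun i _ => hZ i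
        rw [A3Box_cls_eq hz hs hB, A3Box_cls_sum Finset.univ _ hZ hs, map_sum]
        refine Submodule.sum_mem _ fun i _ => ?_
        rw [← crsH_cls (u i) (hu i) (v i) (hv i)]
        exact hprod _ _ (hpq i) _ _
      obtain ⟨c, hc, rfl⟩ := hx
      refine ⟨c, fun L hL => ?_, (Finsupp.linearCombination_apply (ZMod 2) c).symm⟩
      exact hc (Finsupp.mem_support_iff.2 hL)

private theorem A4B6_diff {V : SV} {J : Type} [DecidableEq J] {w : J → ℕ}
    {y : NE J → ∀ d, (RV V).H d} (h : YB V w y) : ∀ (k p : ℕ) (L : List (NE J)),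
    L.length = k + 1 → lwt w L = p →
      SV.Hmap (pmD V k) p (YY y (k + 1) p L) =
        Finsupp.linearCombination (ZMod 2) (YY y k p) (dlc L) := by
  intro k
  induction k with
  | zero =>
    intro p L hL _
    match L, hL with
    | [D], _ =>
      have h1 : pmD V 0 = ⟨fun n => 0, fun _ _ => by
          rw [LinearMap.zero_apply, LinearMap.zero_apply, map_zero]⟩ := by
        refine quo_ext' (VP0 V 1) fun n x => ?_
        refine (pmD_of V 0 n x).trans ?_
        exact Finset.sum_empty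
      obtain ⟨z, hz, h2⟩ := A3Box_exists_cls (YY y 1 p [D])
      have h3 : (Finsupp.linearCombination (ZMod 2) (YY y 0 p)) (dlc [D]) = 0 := by
        show (Finsupp.linearCombination (ZMod 2) (YY y 0 p)) (0 : LC J) = 0
        rw [map_zero]
      rw [h3, ← h2, SV.Hmap_cls]
      refine A3Box_cls_zero ?_ _
      rw [h1]
      rfl
    | [], h => exact absurd h (by simp)
    | _ :: _ :: _, h => exact absurd h (by simp)
  | succ k ih =>
    intro p L hL hw
    match L, hL, hw with
    | [], h, _ => exact absurd h (by simp)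
    | [_], h, _ => exact absurd h (by simp)
    | D :: E :: L, hL, hw =>
      rw [A4B6_lwt_cons, A4B6_lwt_cons] at hw
      have hlen : L.length = k := by simpa using hL
      have e1 : YY y (k + 1 + 1) p (D :: E :: L) = SV.Hmap (rsIso V (k + 1)) p
          (crsH p (y D (∑ j ∈ D.1, w j)) (SV.Hmap (rsIso V k) (∑ j ∈ E.1, w j + lwt w L)
            (crsH (∑ j ∈ E.1, w j + lwt w L) (y E (∑ j ∈ E.1, w j)) (YY y k (lwt w L) L)))) := by
        rw [A4B6_YY_cons h (k + 1) p (∑ j ∈ E.1, w j + lwt w L) D (E :: L) _ rfl hw,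
          A4B6_YY_cons h k (∑ j ∈ E.1, w j + lwt w L) (lwt w L) E L _ rfl rfl]
      rw [e1, pmD_H V k _ _ _ p hw]
      have e2 : dlc (D :: E :: L) = (if Disjoint D.1 E.1 then Finsupp.single (D.un E :: L) 1 else 0) +
        (dlc (E :: L)).mapDomain (D :: ·) := rfl
      rw [e2, map_add]
      refine congrArg₂ (· + ·) ?_ ?_
      · rw [h.mul D E _ _ rfl rfl]
        by_cases hd : Disjoint D.1 E.1
        · rw [if_pos hd, if_pos hd, Finsupp.linearCombination_single, one_smul]
          have e3 : ∑ j ∈ (D.un E).1, w j = ∑ j ∈ D.1, w j + ∑ j ∈ E.1, w j :=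
            Finset.sum_union hd
          rw [A4B6_YY_cons h k p (lwt w L) (D.un E) L _ e3 (by omega)]
        · rw [if_neg hd, if_neg hd, A4B6_crsH_zero_left, map_zero, map_zero]
      · have e4 := ih (∑ j ∈ E.1, w j + lwt w L) (E :: L) (by simpa using hlen)
          (A4B6_lwt_cons w E L)
        rw [A4B6_YY_cons h k (∑ j ∈ E.1, w j + lwt w L) (lwt w L) E L _ rfl rfl] at e4
        rw [e4, Finsupp.linearCombination_mapDomain]
        obtain ⟨f, hf⟩ := crsH_bilin (RV V) (RS V k) (∑ j ∈ D.1, w j)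
          (∑ j ∈ E.1, w j + lwt w L) p
        rw [← hf, Finsupp.linearCombination_apply, Finsupp.linearCombination_apply, Finsupp.sum,
          Finsupp.sum, map_sum, map_sum]
        refine Finset.sum_congr rfl fun M _ => ?_
        rw [map_smul, map_smul, hf, Function.comp_apply,
          A4B6_YY_cons h k p (∑ j ∈ E.1, w j + lwt w L) D M _ rfl hw]

theorem RS_basis {V : SV} {J : Type} [DecidableEq J] {w : J → ℕ} {y : NE J → ∀ d, (RV V).H d}
    (h : YB V w y) (p : ℕ) :
    (∀ (k : ℕ) (c : LC J), (∀ L, c L ≠ 0 → L.length = k ∧ lwt w L = p) →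
      (c.sum fun L r => r • YY y k p L) = 0 → c = 0) ∧
    (∀ (k : ℕ) (x : (RS V k).H p), ∃ c : LC J, (∀ L, c L ≠ 0 → L.length = k ∧ lwt w L = p) ∧
      (c.sum fun L r => r • YY y k p L) = x) ∧
    ∀ (k : ℕ) (L : List (NE J)), L.length = k + 1 → lwt w L = p →
      SV.Hmap (pmD V k) p (YY y (k + 1) p L) = (dlc L).sum fun M r => r • YY y k p M := by
  refine ⟨fun k => (A4B6_li h k p).1, fun k => (A4B6_li h k p).2, fun k L hL hw => ?_⟩
  rw [A4B6_diff h k p L hL hw, Finsupp.linearCombination_apply]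

end MM

end

/-! ### from `Lib_MP_33f7bb_d.A4B7` -/

section

/-!
# A4-B7: from a simple system of primitive generators to a basis with exterior multiplication

`z_D = ∏_(j ∈ D) z_j`.
1. `z_j` vanishes on the base vertex: the constant map `c : V.ss → V.ss` with value `0` satisfies `add ∘ (c, c) = c`, so
   `c^* z_j = c^* z_j + c^* z_j = 0`.  Hence `(z_D) d (vcls 0) = 0` for `D ≠ ∅` (only `d = 0` matters).
2. So `z_D d = red (a_D)` for `D ≠ ∅` (`red_surj`, `red_zero_iff`), and for every `d` the `a_D`, `D ≠ ∅`, `∑ w = d`, form a basis of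
   `Dual ((RV V).H d)`: `red` is injective; a class `red y = ∑ c_D z_D` vanishes on the base vertex, `z_∅ = 1` does not, so `c_∅ = 0`.
3. `(RV V).H d` is finite dimensional (its dual is spanned by finitely many elements); `y D d` = dual basis (`0` unless
   `∑_D w = d`).
4. Products.  Let `F ≠ ∅`, `q : lin (V × V) → RV ⊗ RV` the composite of `linProd` and `pr ⊗ pr`; `q` is surjective in homology
   (`linProd` is bijective, `pr ⊗ pr` has the section `sec ⊗ sec`).  `pmul ∘ q` is `[(u, v)] ↦ [u+v] + [u] + [v]`, so the pull back of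
   `a_F` along `pmul ∘ q` is `add^* z_F + fst^* z_F + snd^* z_F = ∏_(j ∈ F) (fst^* z_j + snd^* z_j) + …
   = ∑_(∅ ≠ S ⊊ F) fst^* z_S * snd^* z_(F ∖ S)` (`Finset.prod_add`), and `fst^* z_S * snd^* z_S'` is the pull back along `q` of
   `boxF a_S a_S'` (`cup_fst_snd`, `boxF_map`).  So `a_F ∘ H(pmul) = ∑ boxF a_S a_(F∖S)` and the value on `crsH (y D p) (y E q)` is
   `∑ [S = D] [F ∖ S = E] = [D ∩ E = ∅, F = D ∪ E]`, the value of `a_F` on the right hand side.  Both sides have the same values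
   on the basis `a_F` of the dual, so they are equal.
-/

open scoped TensorProduct

namespace MM

/-- the base vertex as a map from the point -/
private def A4B7_e (V : SV) : Hom PT V.ss :=
  ⟨fun n _ => (0 : V.V n), fun f _ => (map_zero (V.act f)).symm⟩

private theorem A4B7_pt (V : SV) (a : CR V.ss) (h : CR.map (A4B7_e V) a = 0) :
    a 0 (vcls V.zv) = 0 := by
  have h1 : (CR.map (A4B7_e V) a) 0 (vcls ()) = 0 := by
    rw [h]
    rfl
  have h2 : SV.Hmap (linMap (A4B7_e V)) 0 (vcls ()) = vcls V.zv := by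
    unfold vcls
    rw [SV.Hmap_cls]
    apply A3Box_cls_congr
    show Finsupp.mapDomain _ (Finsupp.single () 1) = Finsupp.single V.zv 1
    rw [Finsupp.mapDomain_single]
    rfl
  rw [← h2]
  exact h1

private theorem A4B7_z (V : SV) (z : CR V.ss) (hp : CR.map (addHom V) z =
    CR.map (Hom.fst V.ss V.ss) z + CR.map (Hom.snd V.ss V.ss) z) :
    CR.map (A4B7_e V) z = 0 := by
  have h1 : (addHom V).comp (Hom.pair (A4B7_e V) (A4B7_e V)) = A4B7_e V := by
    apply Hom.ext
    funext n x
    exact add_zero (0 : V.V n)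
  have h2 : (Hom.fst V.ss V.ss).comp (Hom.pair (A4B7_e V) (A4B7_e V)) = A4B7_e V := rfl
  have h3 : (Hom.snd V.ss V.ss).comp (Hom.pair (A4B7_e V) (A4B7_e V)) = A4B7_e V := rfl
  have h4 := congrArg (CR.map (Hom.pair (A4B7_e V) (A4B7_e V))) hp
  rw [map_add, ← CR.map_comp, ← CR.map_comp, ← CR.map_comp, h1, h2, h3] at h4
  rw [h4]
  exact two_eq_zero' (CR.map (A4B7_e V) z)

private theorem A4B7_prod (V : SV) {J : Type} (z : J → CR V.ss)
    (hp : ∀ j, CR.map (A4B7_e V) (z j) = 0) {D : Finset J} (hD : D.Nonempty) :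
    (∏ i ∈ D, z i : CR V.ss) 0 (vcls V.zv) = 0 := by
  apply A4B7_pt
  obtain ⟨j, hj⟩ := hD
  rw [map_prod]
  exact Finset.prod_eq_zero hj (hp j)

private theorem A4B7_one (V : SV) : (1 : CR V.ss) 0 (vcls V.zv) = 1 := by
  rw [CR.one_zero]
  unfold vcls
  rw [Hc.unit_cls, Finsupp.sum_single_index rfl]

/-- naturality of the cross product of classes -/
private theorem A4B7_crsH {P P' Q Q' : SV} (f : SVHom P P') (g : SVHom Q Q') {p q : ℕ} (n : ℕ)
    (x : P.H p) (y : Q.H q) :
    SV.Hmap (f.tens g) n (crsH n x y) = crsH n (SV.Hmap f p x) (SV.Hmap g q y) := by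
  obtain ⟨x, hx, rfl⟩ := A3Box_exists_cls x
  obtain ⟨y, hy, rfl⟩ := A3Box_exists_cls y
  rw [crsH_cls, SV.Hmap_cls, SV.Hmap_cls, SV.Hmap_cls, crsH_cls]
  exact A3Box_cls_congr (crs_map f g x y) _ _

/-- value of an external product on a cross product -/
private theorem A4B7_val {Z Z' : SS} {p q n : ℕ} (hn : p + q = n) (b : CR Z) (c : CR Z')
    (w : (lin (Z.prod Z')).H n) (x : (lin Z).H p) (y : (lin Z').H q)
    (hw : SV.Hmap (linProd Z Z') n w = crsH n x y) :
    (CR.map (Hom.fst Z Z') b * CR.map (Hom.snd Z Z') c) n w = b p x * c q y := by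
  rw [CR.mul_apply, LinearMap.sum_apply, Finset.sum_eq_single p]
  · obtain rfl : q = n - p := by omega
    rw [CR.map_apply, CR.map_apply]
    exact cup_ext_crs hn _ _ w x y hw
  · intro k _ hk
    rw [CR.map_apply, CR.map_apply, cup_fst_snd, LinearMap.comp_apply, hw]
    obtain ⟨x, hx, rfl⟩ := A3Box_exists_cls x
    obtain ⟨y, hy, rfl⟩ := A3Box_exists_cls y
    rw [crsH_cls]
    exact boxF_crs_ne _ _ (fun h => hk h.symm) x hx y hy
  · intro h
    exact absurd (Finset.mem_range.2 (by omega)) h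

private theorem A4B7_tens_app {P P' Q Q' : SV} (f : SVHom P P') (g : SVHom Q Q') (n : ℕ)
    (x : P.V n) (y : Q.V n) :
    (f.tens g).app n (x ⊗ₜ[ZMod 2] y) = f.app n x ⊗ₜ[ZMod 2] g.app n y := rfl

private theorem A4B7_lp' (Z Z' : SS) (n : ℕ) (x : (Z.prod Z').S n) :
    (linProd Z Z').app n (Finsupp.single x 1) =
      (Finsupp.single x.1 1 : Ch Z n) ⊗ₜ[ZMod 2] (Finsupp.single x.2 1 : Ch Z' n) := by
  show linExt _ n (Finsupp.single x 1) = _
  rw [linExt_single, one_smul]

private theorem A4B7_lp (V : SV) (m : ℕ) (u v : V.V m) :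
    (linProd V.ss V.ss).app m (Finsupp.single (u, v) 1) =
        (Finsupp.single u 1 : Ch V.ss m) ⊗ₜ[ZMod 2] (Finsupp.single v 1 : Ch V.ss m) :=
  A4B7_lp' V.ss V.ss m (u, v)

private theorem A4B7_pm1 (V : SV) (m : ℕ) (u v : V.V m) :
    (pmul V).app m (((R.pr V.zv).tens (R.pr V.zv)).app m ((linProd V.ss V.ss).app m
      (Finsupp.single (u, v) 1))) =
      (R.pr V.zv).app m ((linMap (addHom V)).app m (Finsupp.single (u, v) 1)) +
      (R.pr V.zv).app m ((linMap (Hom.fst V.ss V.ss)).app m (Finsupp.single (u, v) 1)) +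
      (R.pr V.zv).app m ((linMap (Hom.snd V.ss V.ss)).app m (Finsupp.single (u, v) 1)) := by
  have h2 : (linMap (addHom V)).app m (Finsupp.single (u, v) 1) =
      (Finsupp.single (u + v : V.V m) 1 : Ch V.ss m) := Finsupp.mapDomain_single
  have h3 : (linMap (Hom.fst V.ss V.ss)).app m (Finsupp.single (u, v) 1) =
      (Finsupp.single u 1 : Ch V.ss m) := Finsupp.mapDomain_single
  have h4 : (linMap (Hom.snd V.ss V.ss)).app m (Finsupp.single (u, v) 1) =
      (Finsupp.single v 1 : Ch V.ss m) := Finsupp.mapDomain_single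
  rw [A4B7_lp, h2, h3, h4, A4B7_tens_app, R.pr_single, R.pr_single, R.pr_single]
  exact pmul_of V m u v

private theorem A4B7_pm (V : SV) (m : ℕ) (c : Ch (V.ss.prod V.ss) m) :
    (pmul V).app m (((R.pr V.zv).tens (R.pr V.zv)).app m ((linProd V.ss V.ss).app m c)) =
      (R.pr V.zv).app m ((linMap (addHom V)).app m c) +
      (R.pr V.zv).app m ((linMap (Hom.fst V.ss V.ss)).app m c) +
      (R.pr V.zv).app m ((linMap (Hom.snd V.ss V.ss)).app m c) := by
  have h01 : ∀ r : ZMod 2, r = 0 ∨ r = 1 := by decide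
  induction c using Finsupp.induction_linear with
  | zero => simp only [map_zero, add_zero]
  | add a b ha hb =>
    rw [map_add, map_add, map_add, map_add, map_add, map_add, map_add, map_add, map_add, ha, hb]
    abel
  | single x r =>
    rcases h01 r with rfl | rfl
    · rw [Finsupp.single_zero]
      simp only [map_zero, add_zero]
    · exact A4B7_pm1 V m x.1 x.2
private theorem A4B7_pmH (V : SV) (n : ℕ) (w : (lin (V.ss.prod V.ss)).H n) :
    SV.Hmap (pmul V) n (SV.Hmap ((R.pr V.zv).tens (R.pr V.zv)) n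
      (SV.Hmap (linProd V.ss V.ss) n w)) =
      SV.Hmap (R.pr V.zv) n (SV.Hmap (linMap (addHom V)) n w) +
      SV.Hmap (R.pr V.zv) n (SV.Hmap (linMap (Hom.fst V.ss V.ss)) n w) +
      SV.Hmap (R.pr V.zv) n (SV.Hmap (linMap (Hom.snd V.ss V.ss)) n w) := by
  obtain ⟨c, hc, rfl⟩ := A3Box_exists_cls w
  simp only [SV.Hmap_cls]
  exact A3Box_cls_congr (A4B7_pm V n c) _ (Submodule.add_mem _ (Submodule.add_mem _
    ((R.pr V.zv).map_Z ((linMap (addHom V)).map_Z hc))
    ((R.pr V.zv).map_Z ((linMap (Hom.fst V.ss V.ss)).map_Z hc)))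
    ((R.pr V.zv).map_Z ((linMap (Hom.snd V.ss V.ss)).map_Z hc)))

private theorem A4B7_sum {J : Type} [DecidableEq J] (D E F : Finset J) :
    ∑ S ∈ F.powerset, (if D = S then (1 : ZMod 2) else 0) * (if E = F \ S then 1 else 0) =
      if Disjoint D E ∧ D ∪ E = F then 1 else 0 := by
  by_cases h : Disjoint D E ∧ D ∪ E = F
  · obtain ⟨h1, rfl⟩ := h
    rw [if_pos ⟨h1, rfl⟩, Finset.sum_eq_single D]
    · rw [if_pos rfl, if_pos (Finset.union_sdiff_cancel_left h1).symm, mul_one]
    · intro S _ hS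
      rw [if_neg (fun h => hS h.symm), zero_mul]
    · intro h2
      exact absurd (Finset.mem_powerset.2 Finset.subset_union_left) h2
  · rw [if_neg h]
    refine Finset.sum_eq_zero fun S hS => ?_
    by_cases h1 : D = S
    · by_cases h2 : E = F \ S
      · exfalso
        apply h
        subst h1
        subst h2
        exact ⟨Finset.disjoint_sdiff, Finset.union_sdiff_of_subset (Finset.mem_powerset.1 hS)⟩
      · rw [if_neg h2, mul_zero]
    · rw [if_neg h1, zero_mul]

theorem exists_YB (V : SV) {J : Type} [DecidableEq J] (w : J → ℕ) (z : J → CR V.ss)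
    (h : CSimple V.ss w z)
    (hp : ∀ j, CR.map (addHom V) (z j) =
      CR.map (Hom.fst V.ss V.ss) (z j) + CR.map (Hom.snd V.ss V.ss) (z j)) :
    ∃ y : NE J → ∀ d, (RV V).H d, YB V w y := by
  classical
  have hz0 : ∀ j, CR.map (A4B7_e V) (z j) = 0 := fun j => A4B7_z V (z j) (hp j)
  obtain ⟨y', hdeg, hdual, hsp⟩ := h.dual
  -- the functionals
  have ha : ∀ (D : NE J) (d : ℕ), ∃ a : Module.Dual (ZMod 2) ((RV V).H d),
      red V.zv d a = (∏ i ∈ D.1, z i : CR V.ss) d := by
    intro D d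
    rcases Nat.eq_zero_or_pos d with rfl | hd
    · rw [red_zero_iff]
      exact A4B7_prod V z hz0 D.2
    · exact red_surj V.zv d hd _
  choose a ha using ha
  have hval : ∀ (S D : Finset J) (p : ℕ), ∑ j ∈ D, w j = p →
      (∏ i ∈ S, z i : CR V.ss) p (y' D p) = if D = S then 1 else 0 := by
    intro S D p hD
    by_cases hS : ∑ j ∈ S, w j = p
    · exact (hdual D S p hS).trans (by congr)
    · have h1 : (∏ i ∈ S, z i : CR V.ss) p = 0 := h.hom S p (fun h => hS h.symm)
      rw [h1, if_neg, LinearMap.zero_apply]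
      rintro rfl
      exact hS hD
  have hval' : ∀ (S D : Finset J) (p : ℕ), ∑ j ∈ S, w j = p →
      (∏ i ∈ S, z i : CR V.ss) p (y' D p) = if D = S then 1 else 0 := fun S D p hS =>
    (hdual D S p hS).trans (by congr)
  set y : NE J → ∀ d, (RV V).H d := fun D d => SV.Hmap (R.pr V.zv) d (y' D.1 d) with hy
  have hay : ∀ (F D : NE J) (d : ℕ), ∑ j ∈ F.1, w j = d →
      a F d (y D d) = if D = F then 1 else 0 := by
    intro F D d hF
    have h1 : a F d (y D d) = (red V.zv d (a F d)) (y' D.1 d) := rfl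
    rw [h1, ha, hval' F.1 D.1 d hF]
    by_cases hDF : D = F
    · rw [if_pos hDF, if_pos (congrArg Subtype.val hDF)]
    · rw [if_neg hDF, if_neg (fun h => hDF (Subtype.ext h))]
  have hemp : SV.Hmap (R.pr V.zv) 0 (y' ∅ 0) = 0 := by
    have h1 : y' ∅ 0 = vcls V.zv := by
      refine h.ext_H fun E hE => ?_
      refine (hval' E ∅ 0 hE).trans ?_
      by_cases hE0 : ∅ = E
      · subst hE0
        rw [if_pos rfl]
        exact (A4B7_one V).symm
      · rw [if_neg hE0]
        exact (A4B7_prod V z hz0 (Finset.nonempty_iff_ne_empty.2 (fun h => hE0 h.symm))).symm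
    rw [h1]
    unfold vcls
    rw [SV.Hmap_cls, A3Box_cls_zero]
    rw [R.pr_single]
    have h2 := R.of_base V.zv 0
    have h3 : V.ss.deg V.zv 0 = V.zv := by
      show V.act _ (0 : V.V 0) = 0
      exact map_zero _
    rwa [h3] at h2
  have hspan : ∀ (d : ℕ) (x : (RV V).H d), ∃ c : NE J →₀ ZMod 2,
      (∀ D, c D ≠ 0 → ∑ j ∈ D.1, w j = d) ∧ (c.sum fun D r => r • y D d) = x := by
    intro d x
    obtain ⟨x', rfl⟩ := Hmap_pr_surj V.zv d x
    set cc : Finset J →₀ ZMod 2 := Finsupp.onFinset (h.fin d).toFinset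
      (fun D => if ∑ j ∈ D, w j = d then (∏ i ∈ D, z i : CR V.ss) d x' else 0) (by
        intro D hD
        rw [Set.Finite.mem_toFinset]
        by_contra hne
        exact hD (if_neg hne)) with hcc
    have hcca : ∀ D, cc D = if ∑ j ∈ D, w j = d then (∏ i ∈ D, z i : CR V.ss) d x' else 0 :=
      fun D => rfl
    refine ⟨cc.subtypeDomain fun D => D.Nonempty, ?_, ?_⟩
    · intro D hD
      by_contra hne
      apply hD
      show cc D.1 = 0
      rw [hcca, if_neg hne]
    · have h1 : x' = ∑ D ∈ (h.fin d).toFinset, cc D • y' D d := by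
        conv_lhs => rw [hsp d x']
        refine Finset.sum_congr rfl fun D hD => ?_
        have hD' : ∑ j ∈ D, w j = d := by
          have h4 := (h.fin d).mem_toFinset.1 hD
          exact h4
        rw [hcca, if_pos hD']
      conv_rhs => rw [h1, map_sum]
      rw [Finsupp.sum]
      have h2 : ∀ D ∈ (h.fin d).toFinset, SV.Hmap (R.pr V.zv) d (cc D • y' D d) =
          if hD : D.Nonempty then cc D • y ⟨D, hD⟩ d else 0 := by
        intro D hD
        rw [map_smul]
        by_cases hD' : D.Nonempty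
        · rw [dif_pos hD']
        · rw [dif_neg hD']
          rw [Finset.not_nonempty_iff_eq_empty] at hD'
          subst hD'
          have h3 : (∑ j ∈ (∅ : Finset J), w j) = d := by
            have h4 := (h.fin d).mem_toFinset.1 hD
            exact h4
          rw [Finset.sum_empty] at h3
          subst h3
          rw [hemp, smul_zero]
      have h4 : ∑ D ∈ (h.fin d).toFinset, (if hD : D.Nonempty then cc D • y ⟨D, hD⟩ d else 0) =
          ∑ D ∈ (cc.subtypeDomain fun D => D.Nonempty).support.map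
            (Function.Embedding.subtype fun D : Finset J => D.Nonempty),
            (if hD : D.Nonempty then cc D • y ⟨D, hD⟩ d else 0) := by
        symm
        apply Finset.sum_subset
        · intro D hD
          obtain ⟨D', hD', rfl⟩ := Finset.mem_map.1 hD
          have h5 : cc D'.1 ≠ 0 := by
            have h6 := Finsupp.mem_support_iff.1 hD'
            exact h6
          rw [Set.Finite.mem_toFinset]
          by_contra hne
          exact h5 (if_neg hne)
        · intro D _ hD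
          by_cases hD' : D.Nonempty
          · rw [dif_pos hD']
            by_cases h5 : cc D = 0
            · rw [h5, zero_smul]
            · exfalso
              apply hD
              exact Finset.mem_map.2 ⟨⟨D, hD'⟩, Finsupp.mem_support_iff.2 h5, rfl⟩
          · rw [dif_neg hD']
      rw [Finset.sum_congr rfl h2, h4, Finset.sum_map]
      refine Finset.sum_congr rfl fun D _ => ?_
      show cc D.1 • y D d = if hD : D.1.Nonempty then cc D.1 • y ⟨D.1, hD⟩ d else 0
      rw [dif_pos D.2]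
  have hext : ∀ (d : ℕ) (x x' : (RV V).H d), (∀ F : NE J, ∑ j ∈ F.1, w j = d →
      a F d x = a F d x') → x = x' := by
    intro d x x' hx
    rw [← sub_eq_zero]
    obtain ⟨c, hc, hcx⟩ := hspan d (x - x')
    have hc0 : c = 0 := by
      refine Finsupp.ext fun F => ?_
      by_contra hF
      have hF' : c F ≠ 0 := hF
      have h1 := congrArg (a F d) hcx
      rw [map_sub, hx F (hc F hF'), sub_self, Finsupp.sum, map_sum, Finset.sum_eq_single F] at h1
      · rw [map_smul, hay F F d (hc F hF'), if_pos rfl, smul_eq_mul, mul_one] at h1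
        exact hF' h1
      · intro D _ hD
        rw [map_smul, hay F D d (hc F hF'), if_neg hD, smul_zero]
      · intro h2
        rw [Finsupp.notMem_support_iff.1 h2, zero_smul, map_zero]
    rw [← hcx, hc0, Finsupp.sum_zero_index]
  refine ⟨y, ?_, ?_, hspan, ?_⟩
  · intro D d hD
    show SV.Hmap (R.pr V.zv) d (y' D.1 d) = 0
    rw [hdeg D.1 d hD, map_zero]
  · intro d c hc h0
    refine Finsupp.ext fun F => ?_
    by_contra hF
    have hF' : c F ≠ 0 := hF
    have h1 := congrArg (a F d) h0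
    rw [map_zero, Finsupp.sum, map_sum, Finset.sum_eq_single F] at h1
    · rw [map_smul, hay F F d (hc F hF'), if_pos rfl, smul_eq_mul, mul_one] at h1
      exact hF' h1
    · intro D _ hD
      rw [map_smul, hay F D d (hc F hF'), if_neg hD, smul_zero]
    · intro h2
      rw [Finsupp.notMem_support_iff.1 h2, zero_smul, map_zero]
  · intro D E p q hD hE
    apply hext
    intro F hF
    obtain ⟨W, hW⟩ := (Hmap_linProd_bijective V.ss V.ss (p + q)).2 (crsH (p + q) (y' D.1 p) (y' E.1 q))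
    have h1 : crsH (p + q) (y D p) (y E q) = SV.Hmap ((R.pr V.zv).tens (R.pr V.zv)) (p + q)
        (SV.Hmap (linProd V.ss V.ss) (p + q) W) := by
      rw [hW, A4B7_crsH]
    rw [h1, A4B7_pmH, map_add, map_add]
    have h2 : ∀ (f : Hom (V.ss.prod V.ss) V.ss), a F (p + q) (SV.Hmap (R.pr V.zv) (p + q)
        (SV.Hmap (linMap f) (p + q) W)) = (CR.map f (∏ i ∈ F.1, z i)) (p + q) W := by
      intro f
      have h3 : a F (p + q) (SV.Hmap (R.pr V.zv) (p + q) (SV.Hmap (linMap f) (p + q) W)) =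
        (red V.zv (p + q) (a F (p + q))) (SV.Hmap (linMap f) (p + q) W) := rfl
      rw [h3, ha]
      rfl
    rw [h2, h2, h2]
    have h4 : CR.map (addHom V) (∏ i ∈ F.1, z i) = ∑ S ∈ F.1.powerset,
        CR.map (Hom.fst V.ss V.ss) (∏ i ∈ S, z i) *
          CR.map (Hom.snd V.ss V.ss) (∏ i ∈ F.1 \ S, z i) := by
      rw [map_prod, Finset.prod_congr rfl fun j _ => hp j, Finset.prod_add]
      exact Finset.sum_congr rfl fun S _ => by rw [map_prod, map_prod]
    have h5 : (CR.map (addHom V) (∏ i ∈ F.1, z i)) (p + q) W =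
        ∑ S ∈ F.1.powerset, (if D.1 = S then 1 else 0) * (if E.1 = F.1 \ S then 1 else 0) := by
      rw [h4]
      have h6 : (∑ S ∈ F.1.powerset, CR.map (Hom.fst V.ss V.ss) (∏ i ∈ S, z i) *
          CR.map (Hom.snd V.ss V.ss) (∏ i ∈ F.1 \ S, z i)) (p + q) =
          ∑ S ∈ F.1.powerset, (CR.map (Hom.fst V.ss V.ss) (∏ i ∈ S, z i) *
          CR.map (Hom.snd V.ss V.ss) (∏ i ∈ F.1 \ S, z i)) (p + q) :=
        map_sum (CR.cmp (Z := V.ss.prod V.ss) (p + q)) _ _
      rw [h6, LinearMap.sum_apply]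
      refine Finset.sum_congr rfl fun S _ => ?_
      rw [A4B7_val rfl _ _ W _ _ hW, hval S D.1 p hD, hval (F.1 \ S) E.1 q hE]
    have h7 : (CR.map (Hom.fst V.ss V.ss) (∏ i ∈ F.1, z i)) (p + q) W = 0 := by
      have h8 := A4B7_val rfl (∏ i ∈ F.1, z i : CR V.ss) (∏ i ∈ (∅ : Finset J), z i : CR V.ss)
        W _ _ hW
      rw [Finset.prod_empty, map_one, mul_one] at h8
      rw [h8]
      have h9 := hval ∅ E.1 q hE
      rw [Finset.prod_empty, if_neg E.2.ne_empty] at h9
      rw [h9, mul_zero]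
    have h10 : (CR.map (Hom.snd V.ss V.ss) (∏ i ∈ F.1, z i)) (p + q) W = 0 := by
      have h8 := A4B7_val rfl (∏ i ∈ (∅ : Finset J), z i : CR V.ss) (∏ i ∈ F.1, z i : CR V.ss)
        W _ _ hW
      rw [Finset.prod_empty, map_one, one_mul] at h8
      rw [h8]
      have h9 := hval ∅ D.1 p hD
      rw [Finset.prod_empty, if_neg D.2.ne_empty] at h9
      rw [h9, zero_mul]
    rw [h5, h7, h10, add_zero, add_zero, A4B7_sum]
    by_cases hdis : Disjoint D.1 E.1
    · rw [if_pos hdis, hay F (D.un E) (p + q) hF]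
      by_cases hF2 : D.un E = F
      · rw [if_pos hF2, if_pos ⟨hdis, congrArg Subtype.val hF2⟩]
      · rw [if_neg hF2, if_neg (fun h => hF2 (Subtype.ext h.2))]
    · rw [if_neg hdis, map_zero, if_neg (fun h => hdis h.1)]

end MM

end

/-! ### from `Lib_MP_33f7bb_d.A4B8` -/

section

/-!
# A4-B8: (UB) upper bound for the homology of the bar construction

`exists_YB` gives `y`; fix `d`.  `LA_iter` with `Z k = HF V d k` (`HF_zero`, `HF_top`) and
`N k = #{e : card e = k, weight = d - k}`.  For `k < d`, `p = d - (k + 1)`: `E2_bound` with `H k' = (RS V k').H p`,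
`δ k' = H(pmD V k')`, `Y = YY y · p` (hypotheses: `RS_basis`; finiteness of `{b | wtO b ≤ d}`: `wtO_fin`) gives `T` and
`bar_step` gives `T'`.  Finally `count_main`.
-/

namespace MM

theorem UB (V : SV) (n : ℕ) (z : Orb n → CR V.ss) (h : CSimple V.ss (wtO : Orb n → ℕ) z)
    (hp : ∀ j, CR.map (addHom V) (z j) =
      CR.map (Hom.fst V.ss V.ss) (z j) + CR.map (Hom.snd V.ss V.ss) (z j)) (d : ℕ) :
    Module.Finite (ZMod 2) ((RB V).H d) ∧
      Module.finrank (ZMod 2) ((RB V).H d) ≤
        {D : Finset (Orb (n + 1)) | D.Nonempty ∧ ∑ b ∈ D, wtO b = d}.ncard := by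
  classical
  obtain ⟨y, hy⟩ := exists_YB V (wtO : Orb n → ℕ) z h hp
  have hmain := LA_iter (HF V d) (HF_zero V d)
    (fun k => {e : Multiset (Orb n) | Multiset.card e = k ∧ (e.map wtO).sum = d - k}.ncard) d
    (by
      intro k hk
      obtain ⟨hli, hspan, hδ⟩ := RS_basis hy (d - (k + 1))
      obtain ⟨T, hTc, hT⟩ := E2_bound (wtO : Orb n → ℕ) wtO_fin (d - (k + 1))
        (fun k' => (RS V k').H (d - (k + 1))) (fun k' => SV.Hmap (pmD V k') (d - (k + 1)))
        (fun k' L => YY y k' (d - (k + 1)) L) hli hspan hδ k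
      obtain ⟨T', hT'c, hT'⟩ := bar_step V k (d - (k + 1)) d (by omega) T hT
      exact ⟨T', hT'c.trans hTc, hT'⟩) (HF_top V d)
  rw [count_main] at hmain
  exact hmain

end MM

end
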