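import Pool.Agent.Lib_MP_33f7bb_m.G12
import Pool.Agent.Lib_MP_33f7bb_m.G24
import Pool.Agent.Lib_MP_33f7bb_m.G25

/-!
# MP_33f7bb_an, negative answer to Q1: merged library part G26

Concatenation of files of `Lib_MP_33f7bb_an` and `Lib_MP_33f7bb_d` (each in its own section), only to save build time.
-/

/-! ### from `Lib_MP_33f7bb_d.A4S2` -/

section

/-!
# A4-35: (LB) and (S1): the square free monomials in the `z_b` form a basis of `H^*(KL n)`

`zD_li` (`n ≥ 1`): in `CR (KL n).ss`: if `∑ c_D z_D = 0`, `z_D = ∏_(b ∈ D) z_b`, apply `CR.map a` for `a` from `exists_rM`: a ring homomorphism, so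
`pol (∑ c_D ∏ blk M n (orbM b)) = 0` for all `M`; `pol_injective`, `PD_li`.
`KL_simple` by induction on `n`.
`n = 0`: `KL 0 = cstV (ZMod 2)`, one orbit `b₀ = Sym.nil` of weight `0`, `D ∈ {∅, {b₀}}`.  `zR S b₀ = iotaK 0`: for every word `w : Wop 0 0`
and every `AM` the map `w.ev` is `0` or the identity, the same for all `AM`s (a word through a degree `p > 0` is zero:
`unst`; `Sq 0 0 = id`: induction on words: a word `Wop 0 d` evaluates to `0` in all AMs if `d > 0`), so
`(thb b₀).ev = r • id` with the same `r` for all AMs; in `E(0)` it maps `gen` to `orbM b₀ = gen`, so `r = 1`.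
The simplicial set `KL 0` is constant with two points: `H_d (lin) = 0` for `d > 0` (as `cstV_homology`), `H_0 (lin) = Ch` has dimension `2`;
`1` and `z` are the functionals `(1, 1)` and `(0, 1)` on the two points.
Step: `n → n + 1`, `V = KL n`, `KL (n+1) = barV V`.  `UB` (hypotheses: induction, `zC_prim`): `H_d (RV (KL (n+1)))` is finite dimensional of
dimension at most the number of nonempty `D ⊆ Orb (n+1)` of weight `d`.  For `d ≥ 1`: `Hc (KL (n+1)).ss d` has the same dimension
(`Hmap_pr_surj`, `Hmap_pr_inj`) and `D` of weight `d` is automatically nonempty.  For `d = 0`: `(KL (n+1)).V 0 = 0` (`barV_zero`), so the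
simplicial set has one vertex and `Hc _ 0` has dimension `≤ 1`; the only `D` of weight `0` is `∅` (`le_wtO`, `n + 1 ≥ 1`).
`CBasis.of_le` with `zD_li` (a relation between the components of degree `d` is a relation in `CR`, as the `z_D` are homogeneous), finiteness:
`finset_orb_fin`.
`KL_detect` (`n ≥ 1`): a class `x` of degree `d` with `a^* x = 0` for all maps `a : B^(M × n) → KL n`: `x = ∑ c_D z_D`, as in `zD_li` all `c_D = 0`.
-/

open scoped TensorProduct

namespace MM

private theorem A4S2_cmp {Z : SS} {I : Type} (a : I → CR Z) (c : I →₀ ZMod 2) (m : ℕ) :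
    (c.sum fun i r => r • a i) m = c.sum fun i r => r • (a i m : Hc Z m) := by
  show CR.cmp m (c.sum fun i r => r • a i) = _
  rw [map_finsuppSum]
  rfl

private theorem A4S2_isHom {Z : SS} {I : Type} {dg : I → ℕ} {a : I → CR Z}
    (hom : ∀ i, CR.IsHom (dg i) (a i)) {d : ℕ} {c : I →₀ ZMod 2} (hc : ∀ i, c i ≠ 0 → dg i = d) :
    CR.IsHom d (c.sum fun i r => r • a i) := by
  intro m hm
  rw [A4S2_cmp]
  refine Finset.sum_eq_zero fun i hi => ?_
  have h1 : dg i = d := hc i (Finsupp.mem_support_iff.1 hi)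
  show c i • (a i m : Hc Z m) = 0
  rw [hom i m (by rw [h1]; exact hm), smul_zero]

private theorem A4S2_eq_hom {Z : SS} {I : Type} {dg : I → ℕ} {a : I → CR Z}
    (hom : ∀ i, CR.IsHom (dg i) (a i)) {d : ℕ} {c : I →₀ ZMod 2} (hc : ∀ i, c i ≠ 0 → dg i = d) :
    (c.sum fun i r => r • a i) = CR.hom d (c.sum fun i r => r • (a i d : Hc Z d)) := by
  rw [(A4S2_isHom hom hc).eq, A4S2_cmp]

/-- products of the `z_b` are homogeneous -/
private theorem A4S2_prodHom (S : SqFam) {n : ℕ} (D : Finset (Orb n)) :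
    CR.IsHom (∑ b ∈ D, wtO b) (∏ b ∈ D, zC S b) :=
  CR.IsHom.prod D wtO (fun b => zC S b) fun b _ => zC_isHom S b

private theorem A4S2_key (S : SqFam) {n : ℕ} (hn : 1 ≤ n) (c : Finset (Orb n) →₀ ZMod 2)
    (h : ∀ (M : ℕ) (a : Hom (Bpow (Fin M × Fin n)) (KL n).ss), a.app 0 (Bpt _) = (KL n).zv →
      (∀ b : Orb n, CR.map a (zC S b) = pol (Fin M × Fin n) (blk M n (orbM b))) →
      CR.map a (c.sum fun D r => r • ∏ b ∈ D, zC S b) = 0) : c = 0 := by
  refine PD_li hn c fun M => ?_
  obtain ⟨a, ha, hab⟩ := exists_rM S M n hn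
  have h1 := h M a ha hab
  apply pol_injective (Fin M × Fin n)
  rw [map_zero, ← h1, map_finsuppSum, map_finsuppSum]
  refine Finset.sum_congr rfl fun D _ => ?_
  show pol _ (c D • ∏ b ∈ D, blk M n (orbM b)) = CR.map a (c D • ∏ b ∈ D, zC S b)
  rw [map_smul, CR.map_smul, map_prod, map_prod]
  congr 1
  exact Finset.prod_congr rfl fun b _ => (hab b).symm

theorem zD_li (S : SqFam) {n : ℕ} (hn : 1 ≤ n) (c : Finset (Orb n) →₀ ZMod 2)
    (h : (c.sum fun D r => r • ∏ b ∈ D, zC S b) = 0) : c = 0 := by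
  refine A4S2_key S hn c fun M a _ _ => ?_
  rw [h, map_zero]

/-- dimension of the cohomology of an object with one vertex -/
private theorem A4S2_zero (V : SV) : Module.Finite (ZMod 2) ((lin (barV V).ss).H 0) ∧
    Module.finrank (ZMod 2) ((lin (barV V).ss).H 0) ≤ 1 := by
  have hs : Subsingleton ((barV V).ss.S 0) := ⟨fun a b => by
    rw [barV_zero V a, barV_zero V b]⟩
  let u : Unique ((barV V).ss.S 0) := ⟨⟨(0 : (barV V).V 0)⟩, fun a => hs.elim a _⟩
  have h1 : Module.Finite (ZMod 2) (Ch (barV V).ss 0) := Module.Finite.finsupp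
  have h2 : Module.finrank (ZMod 2) (Ch (barV V).ss 0) = 1 := by
    exact (Module.finrank_finsupp_self (ZMod 2)).trans Fintype.card_unique
  have h3 : Module.Finite (ZMod 2) ((lin (barV V).ss).V 0) := h1
  refine ⟨inferInstance, ?_⟩
  refine (Submodule.finrank_quotient_le _).trans ?_
  refine (Submodule.finrank_le _).trans ?_
  exact h2.le

/-- words and operations of degree `0` -/
private theorem A4S2_word {d : ℕ} (w : Wop 0 d) : ∃ r : ZMod 2, ∀ (M : AM) (x : M.M 0),
    w.ev M x = r • M.Sq 0 d x := by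
  induction w with
  | nil =>
    refine ⟨1, fun M x => ?_⟩
    rw [M.Sq_id, one_smul]
    rfl
  | @cons p w d ih =>
    obtain ⟨r, hr⟩ := ih
    rcases Nat.eq_zero_or_pos p with rfl | hp
    · refine ⟨r, fun M x => ?_⟩
      show M.Sq 0 d (w.ev M x) = _
      rw [hr, M.Sq_id, map_smul]
      rfl
    · refine ⟨0, fun M x => ?_⟩
      show M.Sq p d (w.ev M x) = _
      rw [hr, M.unst 0 p (by omega), LinearMap.zero_apply, smul_zero, map_zero, zero_smul]

private theorem A4S2_op {d : ℕ} (θ : Op 0 d) : ∃ r : ZMod 2, ∀ (M : AM) (x : M.M 0),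
    θ.ev M x = r • M.Sq 0 d x := by
  choose r hr using fun w : Wop 0 d => A4S2_word w
  refine ⟨θ.sum fun w c => c * r w, fun M x => ?_⟩
  have h1 : θ.ev M x = θ.sum fun w c => c • w.ev M x := by
    rw [Op.ev, Finsupp.sum, LinearMap.sum_apply]
    rfl
  rw [h1, Finsupp.sum, Finsupp.sum, Finset.sum_smul]
  refine Finset.sum_congr rfl fun w _ => ?_
  rw [hr, smul_smul]

private theorem A4S2_zmod (r : ZMod 2) : r = 0 ∨ r = 1 := by
  revert r; decide

private theorem A4S2_orb0 (b : Orb 0) : b = Sym.nil := Sym.eq_nil_of_card_zero b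

private theorem A4S2_wt0 (b : Orb 0) : wtO b = 0 := by
  rw [A4S2_orb0 b]
  rfl

private theorem A4S2_iota (x : ZMod 2) :
    iotaK 0 ((RV (KL 0)).cls ((R.of (KL 0).zv).app 0 x) Submodule.mem_top) = x := by
  show KLev0 ((cstV (ZMod 2)).cls ((muV (KL 0)).app 0 ((R.of (KL 0).zv).app 0 x)) Submodule.mem_top) = x
  have h1 : (muV (KL 0)).app 0 ((R.of (KL 0).zv).app 0 x) = x := muV_of (KL 0) 0 x
  exact h1

/-- the value of `z` -/
private theorem A4S2_val (S : SqFam) (b : Orb 0) (x : ZMod 2) :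
    (zC S b 0 : Hc (KL 0).ss 0) (vcls (Z := (KL 0).ss) x) = x := by
  obtain ⟨r, hr⟩ := A4S2_op (thb b)
  have hr1 : r = 1 := by
    rcases A4S2_zmod r with h | h
    · exfalso
      have h1 := hr (EAM 0) (EAM.gen 0)
      rw [h, zero_smul, thb_ev] at h1
      have h2 : orbM b = 0 := congrArg Subtype.val h1
      have h3 := orbM_apply b (fun i => i.elim0)
      rw [h2, if_pos (by rw [A4S2_orb0 b]; exact A4S2_orb0 _)] at h3
      exact absurd h3 (by simp)
    · exact h
  have h2 : zR S b = (RAM S (KL 0).ss (KL 0).zv).Sq 0 (wtO b) (iotaK 0) := by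
    unfold zR
    rw [hr, hr1, one_smul]
  unfold zC
  rw [h2]
  have key : ∀ d : ℕ, d = 0 → (CR.hom d (red (KL 0).zv d
      ((RAM S (KL 0).ss (KL 0).zv).Sq 0 d (iotaK 0))) 0 : Hc (KL 0).ss 0)
        (vcls (Z := (KL 0).ss) x) = x := by
    rintro d rfl
    rw [(RAM S (KL 0).ss (KL 0).zv).Sq_id]
    exact A4S2_iota x
  exact key _ (A4S2_wt0 b)

private theorem A4S2_unit (x : (KL 0).ss.S 0) : Hc.unit (KL 0).ss (vcls x) = 1 := by
  unfold vcls
  rw [Hc.unit_cls, Finsupp.sum_single_index rfl]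

/-- functionals on `H_0` -/
private theorem A4S2_ext {Z : SS} {y y' : Hc Z 0} (h : ∀ x, y (vcls x) = y' (vcls x)) : y = y' := by
  apply LinearMap.ext
  intro w
  obtain ⟨⟨z, hz⟩, rfl⟩ := Submodule.Quotient.mk_surjective _ w
  have key : ∀ z : Ch Z 0, y ((lin Z).cls z Submodule.mem_top) = y' ((lin Z).cls z Submodule.mem_top) := by
    intro z
    induction z using Finsupp.induction_linear with
    | zero =>
      have h0 : (lin Z).cls (0 : Ch Z 0) Submodule.mem_top = 0 := rfl
      rw [h0, map_zero, map_zero]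
    | add a b ha hb =>
      have h0 : (lin Z).cls (a + b : Ch Z 0) Submodule.mem_top =
        (lin Z).cls a Submodule.mem_top + (lin Z).cls b Submodule.mem_top := rfl
      rw [h0, map_add, map_add, ha, hb]
    | single x r =>
      have h0 : (lin Z).cls (Finsupp.single x r : Ch Z 0) Submodule.mem_top = r • vcls x := by
        have h1 : (Finsupp.single x r : Ch Z 0) = r • Finsupp.single x 1 := by
          rw [Finsupp.smul_single, smul_eq_mul, mul_one]
        have h2 : ∀ z z' : Ch Z 0, z = z' → (lin Z).cls z Submodule.mem_top =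
          (lin Z).cls z' Submodule.mem_top := by
          rintro z _ rfl
          rfl
        rw [h2 _ _ h1]
        rfl
      rw [h0, map_smul, map_smul, h]
  exact key z

private theorem A4S2_d (j : ℕ) (z : (lin (KL 0).ss).V (j + 1)) :
    (lin (KL 0).ss).d j z = (cstV (ZMod 2 →₀ ZMod 2)).d j z := by
  unfold SV.d
  rw [LinearMap.sum_apply, LinearMap.sum_apply]
  refine Finset.sum_congr rfl fun i _ => ?_
  show Finsupp.mapDomain (fun x => x) z = z
  exact Finsupp.mapDomain_id

private theorem A4S2_high (j : ℕ) (y : Hc (KL 0).ss (j + 1)) : y = 0 := by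
  apply LinearMap.ext
  intro w
  obtain ⟨⟨z, hz⟩, rfl⟩ := Submodule.Quotient.mk_surjective _ w
  have hz' : z ∈ (cstV (ZMod 2 →₀ ZMod 2)).Z (j + 1) := by
    have h1 : (lin (KL 0).ss).d j z = 0 := hz
    rw [A4S2_d] at h1
    exact h1
  obtain ⟨v, hv⟩ := cstV_homology (ZMod 2 →₀ ZMod 2) j z hz'
  have hB : z ∈ (lin (KL 0).ss).B (j + 1) := ⟨v, by rw [A4S2_d]; exact hv⟩
  have h0 : (Submodule.Quotient.mk (⟨z, hz⟩ : (lin (KL 0).ss).Z (j + 1)) : (lin (KL 0).ss).H (j + 1)) = 0 :=
    (Submodule.Quotient.mk_eq_zero _).2 hB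
  rw [h0, map_zero, map_zero]

private theorem A4S2_base (S : SqFam) : CSimple (KL 0).ss (wtO : Orb 0 → ℕ) (fun b => zC S b) := by
  classical
  have hD : ∀ D : Finset (Orb 0), D = ∅ ∨ D = {Sym.nil} := by
    intro D
    rcases Finset.eq_empty_or_nonempty D with h | ⟨b, hb⟩
    · exact Or.inl h
    · right
      ext b'
      rw [Finset.mem_singleton, A4S2_orb0 b', ← A4S2_orb0 b]
      exact ⟨fun _ => rfl, fun _ => hb⟩
  have hw : ∀ D : Finset (Orb 0), ∑ b ∈ D, wtO b = 0 := fun D =>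
    Finset.sum_eq_zero fun b _ => A4S2_wt0 b
  have hne : (∅ : Finset (Orb 0)) ≠ {Sym.nil} := (Finset.singleton_ne_empty _).symm
  have huniv : (Finset.univ : Finset (Finset (Orb 0))) = {∅, {Sym.nil}} := by
    ext D
    rw [Finset.mem_insert, Finset.mem_singleton]
    exact ⟨fun _ => hD D, fun _ => Finset.mem_univ _⟩
  have hsum : ∀ (c : Finset (Orb 0) →₀ ZMod 2) (x : ZMod 2),
      (c.sum fun D r => r • ((∏ b ∈ D, zC S b : CR (KL 0).ss) 0 : Hc (KL 0).ss 0))
        (vcls (Z := (KL 0).ss) x) = c ∅ + c {Sym.nil} * x := by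
    intro c x
    have h1 : (c.sum fun D r => r • ((∏ b ∈ D, zC S b : CR (KL 0).ss) 0 : Hc (KL 0).ss 0)) =
        ∑ D, c D • ((∏ b ∈ D, zC S b : CR (KL 0).ss) 0 : Hc (KL 0).ss 0) :=
      Finsupp.sum_fintype c (fun D r => r • ((∏ b ∈ D, zC S b : CR (KL 0).ss) 0 : Hc (KL 0).ss 0))
        (fun D => zero_smul _ _)
    rw [h1, huniv, Finset.sum_pair hne, Finset.prod_empty, Finset.prod_singleton]
    show c ∅ * Hc.unit (KL 0).ss (vcls (Z := (KL 0).ss) x) +
      c {Sym.nil} * (zC S (Sym.nil : Orb 0) 0 : Hc (KL 0).ss 0) (vcls (Z := (KL 0).ss) x) = _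
    rw [A4S2_val, A4S2_unit, mul_one]
  refine ⟨fun D => A4S2_prodHom S D, finset_orb_fin 0, fun d => ?_⟩
  cases d with
  | zero =>
    constructor
    · intro c _ hs
      have h0 := hsum c 0
      have h1 := hsum c 1
      rw [hs, LinearMap.zero_apply, mul_zero, add_zero] at h0
      rw [hs, LinearMap.zero_apply, mul_one, ← h0, zero_add] at h1
      ext D
      rcases hD D with rfl | rfl
      · exact h0.symm
      · exact h1.symm
    · intro y
      refine ⟨Finsupp.single ∅ (y (vcls (Z := (KL 0).ss) (0 : ZMod 2))) +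
        Finsupp.single {Sym.nil} (y (vcls (Z := (KL 0).ss) (0 : ZMod 2)) +
          y (vcls (Z := (KL 0).ss) (1 : ZMod 2))), fun D _ => hw D, ?_⟩
      apply A4S2_ext
      intro x
      rw [hsum]
      rw [Finsupp.add_apply, Finsupp.add_apply, Finsupp.single_eq_same, Finsupp.single_eq_same,
        Finsupp.single_eq_of_ne hne, Finsupp.single_eq_of_ne hne.symm, add_zero, zero_add]
      rcases A4S2_zmod x with rfl | rfl
      · rw [mul_zero, add_zero]
      · rw [mul_one, ← add_assoc, CharTwo.add_self_eq_zero, zero_add]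
  | succ d =>
    constructor
    · intro c hc _
      ext D
      by_contra hne
      have h1 : ∑ b ∈ D, wtO b = d + 1 := hc D hne
      rw [hw] at h1
      omega
    · intro y
      refine ⟨0, fun D h => absurd rfl h, ?_⟩
      rw [Finsupp.sum_zero_index]
      exact (A4S2_high d y).symm

private theorem A4S2_pos (V : SV) {d : ℕ} (hd : 1 ≤ d) :
    Function.Bijective (SV.Hmap (R.pr (Z := (barV V).ss) (barV V).zv) d) :=
  ⟨Hmap_pr_inj _ d hd, Hmap_pr_surj _ d⟩

theorem KL_simple (S : SqFam) (n : ℕ) :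
    CSimple (KL n).ss (wtO : Orb n → ℕ) (fun b => zC S b) := by
  induction n with
  | zero => exact A4S2_base S
  | succ n ih =>
    have hUB := UB (KL n) n (fun b => zC S b) ih (zC_prim S)
    have hfin : ∀ d, {D : Finset (Orb (n + 1)) | ∑ b ∈ D, wtO b = d}.Finite := finset_orb_fin (n + 1)
    have hH : ∀ d, Module.Finite (ZMod 2) ((lin (KL (n + 1)).ss).H d) ∧
        Module.finrank (ZMod 2) ((lin (KL (n + 1)).ss).H d) ≤ (hfin d).toFinset.card := by
      intro d
      rcases Nat.eq_zero_or_pos d with rfl | hd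
      · obtain ⟨h1, h2⟩ := A4S2_zero (KL n)
        refine ⟨h1, h2.trans ?_⟩
        rw [Nat.one_le_iff_ne_zero, Finset.card_ne_zero]
        exact ⟨∅, by simp⟩
      · obtain ⟨h1, h2⟩ := hUB d
        let e := LinearEquiv.ofBijective _ (A4S2_pos (KL n) hd)
        refine ⟨Module.Finite.equiv e.symm, ?_⟩
        have h3 : Module.finrank (ZMod 2) ((lin (KL (n + 1)).ss).H d) =
          Module.finrank (ZMod 2) ((RB (KL n)).H d) := e.finrank_eq
        rw [h3]
        refine h2.trans ?_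
        rw [← Set.ncard_eq_toFinset_card _ (hfin d)]
        exact Set.ncard_le_ncard (fun D hD => hD.2) (hfin d)
    refine CBasis.of_le (fun D => A4S2_prodHom S D) hfin ?_ ?_ ?_
    · intro d c hc hs
      refine zD_li S (by omega) c ?_
      rw [A4S2_eq_hom (fun D => A4S2_prodHom S D) hc, hs, map_zero]
    · intro d
      have := (hH d).1
      infer_instance
    · intro d
      have := (hH d).1
      rw [Subspace.dual_finrank_eq]
      exact (hH d).2

/-- stronger form of `KL_detect`: only the maps of `exists_rM` are needed -/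
theorem A4S2_detect (S : SqFam) (n : ℕ) (hn : 1 ≤ n) (d : ℕ) (x : Hc (KL n).ss d)
    (h : ∀ (M : ℕ) (a : Hom (Bpow (Fin M × Fin n)) (KL n).ss), a.app 0 (Bpt _) = (KL n).zv →
      (∀ b : Orb n, CR.map a (zC S b) = pol (Fin M × Fin n) (blk M n (orbM b))) →
      Hc.map a d x = 0) : x = 0 := by
  obtain ⟨c, hc, hx⟩ := ((KL_simple S n).bas d).2 x
  have h1 : (c.sum fun D r => r • ∏ b ∈ D, zC S b) = CR.hom d x := by
    rw [A4S2_eq_hom (fun D => A4S2_prodHom S D) hc, hx]
  have h2 : c = 0 := by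
    refine A4S2_key S hn c fun M a ha hab => ?_
    rw [h1, CR.map_hom, h M a ha hab, map_zero]
  rw [← hx, h2, Finsupp.sum_zero_index]

theorem KL_detect (S : SqFam) (n : ℕ) (hn : 1 ≤ n) (d : ℕ) (x : Hc (KL n).ss d)
    (h : ∀ (M : ℕ) (a : Hom (Bpow (Fin M × Fin n)) (KL n).ss),
      a.app 0 (Bpt _) = (KL n).zv → Hc.map a d x = 0) : x = 0 :=
  A4S2_detect S n hn d x fun M a ha _ => h M a ha

end MM

end

/-! ### from `Lib_MP_33f7bb_d.A4S3` -/

section

/-!
# A4-36: squares of the `z_b`, the map `Θ : E(n) → H^*(KL n)`, polynomial generators of `H^*(KL (a+1))`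

`rM_pull`: for every pointed `a : B^(M × n) → KL n`, `n ≥ 1`: the polynomial `f` with `pol f = a^*` of (the image in `CR` of) `iotaK`,
homogeneous of degree `n` (`exists_pol`), determines everything: `a^* (zR S b)` is `(thb b).ev` of the class of `f`.
`exists_Theta`.  `n = 0`: `E(0)` is `ZMod 2` in degree `0`: `Θ 0 (r • gen) = r • iotaK 0`; compatibility with the operations: `Sq 0 0 = id`,
`Sq 0 m = 0` for `m > 0` on both sides.  `n ≥ 1`: define `Θ d c = ∑_a r_a zR S a` for `c = ∑ r_a orbM a` (linear: `orbM_li`; `c = ∑ …` by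
`EE_eq_sum`; or: `Θ d` is the linear map defined by the basis).  Commutation with `Sq d m`: test with `KL_detect` for the
class `Θ m (Sq c) + Sq (Θ d c)`; for a pointed `a : B^(M × n) → KL n` let `y₁ = a^* iotaK`.  It suffices to show
`a^* (Θ d c) = Ψ_a c` for an `AMHom` `Ψ_a : E(n) → RAM(B^(M × n))` with `Ψ_a gen = y₁`: existence of `Ψ_a`: here only maps `a` as in `exists_rM`
are used: STRENGTHENING of `KL_detect`: it is enough to assume `a^* x = 0` for ONE map `a_M` for every `M`, namely the one of `exists_rM`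
(the proof of `KL_detect` uses only these): `KL_detect'` below.  For `a = a_M`: `a^* (zR S b) = Ψ (orbM b)` with `Ψ` from `exists_PsiE` (equal images in
`CR`, `red_injective`), so `a^* (Θ d c) = Ψ c` for all `c`, and `a^* Sq (Θ c) = Sq (Ψ c) = Ψ (Sq c) = a^* Θ (Sq c)`.
`zC_sq`: `n = 0`: `z^2 = z`: a function on two points with values `0, 1` (`cup` in degree `0` is the product of functions; or use `S.top` and
`S.id`: `Sq 0 0`: `cupR 0 y y = S.op 0 0 y = y`).  In general: `zC b ^ 2 = CR.hom (2 wtO b) (red (cupR zR zR))`, `cupR (2 d) y y = S.op d (2 d) y = Sq0`, and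
`Θ (Sq0 (orbM b)) = Θ (orbM (shiftO b))` (`Sq0_orbM`).
`KL_poly`: `CSimple` for `KL (a+1)` reindexed: finite subsets of `Orb (a+1)` = finite subsets of `Orb a × ℕ` (`orb_decomp`) = exponent
functions (`betaF_bijective`); `zC (shiftO^[t] (consO b)) = zC (consO b) ^ (2^t)` (`zC_sq` iterated), `betaF_prod`, `betaF_sum`, `wtO_decomp`.
-/

open scoped TensorProduct

namespace MM

private theorem A4S3_hom_same {Z : SS} (n : ℕ) (a : Hc Z n) : CR.hom n a n = a := by
  show (Pi.single n a : ∀ n, Hc Z n) n = a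
  exact Pi.single_eq_same n a

private theorem A4S3_hom_inj {Z : SS} {n : ℕ} {a b : Hc Z n}
    (h : (CR.hom n a : CR Z) = CR.hom n b) : a = b := by
  rw [← A4S3_hom_same n a, h, A4S3_hom_same]

private theorem A4S3_sum_apply {Z : SS} {I : Type} (s : Finset I) (a : I → CR Z) (m : ℕ) :
    (∑ i ∈ s, a i) m = ∑ i ∈ s, a i m := map_sum (CR.cmp (Z := Z) m) a s

theorem KL_detect' (S : SqFam) (n : ℕ) (hn : 1 ≤ n) (d : ℕ) (x : Hc (KL n).ss d)
    (h : ∀ (M : ℕ) (a : Hom (Bpow (Fin M × Fin n)) (KL n).ss), a.app 0 (Bpt _) = (KL n).zv →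
      (∀ b : Orb n, CR.map a (zC S b) = pol (Fin M × Fin n) (blk M n (orbM b))) →
      Hc.map a d x = 0) : x = 0 := by
  obtain ⟨c, hc, hx⟩ := ((KL_simple S n).bas d).2 x
  have hX : (c.sum fun D r => r • ∏ b ∈ D, zC S b : CR (KL n).ss) = CR.hom d x := by
    have h1 : CR.IsHom d (c.sum fun D r => r • ∏ b ∈ D, zC S b : CR (KL n).ss) := by
      intro m hm
      rw [Finsupp.sum, A4S3_sum_apply]
      refine Finset.sum_eq_zero fun D hD => ?_
      show c D • (∏ b ∈ D, zC S b : CR (KL n).ss) m = 0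
      rw [(KL_simple S n).hom D m (by
        have h9 : ∑ i ∈ D, wtO i = d := hc D (Finsupp.mem_support_iff.1 hD)
        show m ≠ ∑ i ∈ D, wtO i
        rw [h9]
        exact hm), smul_zero]
    rw [h1.eq]
    congr 1
    rw [← hx, Finsupp.sum, A4S3_sum_apply]
    rfl
  have h0 : c = 0 := by
    refine PD_li hn c fun M => ?_
    obtain ⟨a, ha, hb⟩ := exists_rM S M n hn
    apply pol_injective
    rw [map_zero, Finsupp.sum, map_sum]
    have h1 : CR.map a (CR.hom d x) = 0 := by rw [CR.map_hom, h M a ha hb, map_zero]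
    rw [← hX, Finsupp.sum, map_sum] at h1
    rw [← h1]
    refine Finset.sum_congr rfl fun D _ => ?_
    rw [CR.map_smul, map_prod, map_smul, map_prod]
    congr 1
    exact Finset.prod_congr rfl fun b _ => (hb b).symm
  rw [← hx, h0, Finsupp.sum_zero_index]

/-- `x` corresponds to `c` -/
private def A4S3_Q (S : SqFam) (n d : ℕ) (c : (EAM n).M d) (x : RHc (KL n) d) : Prop :=
  ∀ (M : ℕ) (a : Hom (Bpow (Fin M × Fin n)) (KL n).ss), a.app 0 (Bpt _) = (KL n).zv →
    (∀ b : Orb n, CR.map a (zC S b) = pol (Fin M × Fin n) (blk M n (orbM b))) →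
    CR.hom d (Hc.map a d (red (KL n).zv d x)) =
      pol (Fin M × Fin n) (blk M n (show EE n d from c).1)

private theorem A4S3_uniq (S : SqFam) {n d : ℕ} (hn : 1 ≤ n) {c : (EAM n).M d} {x x' : RHc (KL n) d}
    (h : A4S3_Q S n d c x) (h' : A4S3_Q S n d c x') : x = x' := by
  have h1 : red (KL n).zv d (x - x') = 0 := by
    refine KL_detect' S n hn d _ fun M a ha hb => ?_
    rw [map_sub, map_sub, A4S3_hom_inj ((h M a ha hb).trans (h' M a ha hb).symm), sub_self]
  have h2 : x - x' = 0 := red_injective _ _ (h1.trans (map_zero _).symm)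
  exact sub_eq_zero.1 h2

private theorem A4S3_add (S : SqFam) {n d : ℕ} {c c' : (EAM n).M d} {x x' : RHc (KL n) d}
    (h : A4S3_Q S n d c x) (h' : A4S3_Q S n d c' x') : A4S3_Q S n d (c + c') (x + x') := by
  intro M a ha hb
  rw [map_add, map_add, map_add, h M a ha hb, h' M a ha hb]
  show _ = pol (Fin M × Fin n) (blk M n ((show EE n d from c).1 + (show EE n d from c').1))
  rw [map_add, map_add]

private theorem A4S3_smul (S : SqFam) {n d : ℕ} (r : ZMod 2) {c : (EAM n).M d} {x : RHc (KL n) d}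
    (h : A4S3_Q S n d c x) : A4S3_Q S n d (r • c) (r • x) := by
  intro M a ha hb
  rw [map_smul, map_smul, map_smul, h M a ha hb]
  show _ = pol (Fin M × Fin n) (blk M n (r • (show EE n d from c).1))
  rw [map_smul, map_smul]

private theorem A4S3_zero (S : SqFam) {n d : ℕ} : A4S3_Q S n d 0 0 := by
  intro M a ha hb
  rw [map_zero, map_zero, map_zero]
  show _ = pol (Fin M × Fin n) (blk M n 0)
  rw [map_zero, map_zero]

private theorem A4S3_Sq (S : SqFam) {n d : ℕ} (hn : 1 ≤ n) (m : ℕ) {c : (EAM n).M d}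
    {x : RHc (KL n) d} (h : A4S3_Q S n d c x) :
    A4S3_Q S n m ((EAM n).Sq d m c) ((RAM S (KL n).ss (KL n).zv).Sq d m x) := by
  intro M a ha hb
  obtain ⟨Ψ, hΨ⟩ := exists_PsiE S M n hn
  set F := RAM.map S (Bpt (Fin M × Fin n)) (KL n).zv a ha with hF
  have key : ∀ (e : ℕ) (y : RHc (KL n) e),
      red (Bpt (Fin M × Fin n)) e (F.app e y) = Hc.map a e (red (KL n).zv e y) := fun e y =>
    red_nat (Bpt (Fin M × Fin n)) (KL n).zv a ha e y
  have h1 : F.app d x = Ψ.app d c := by
    apply red_injective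
    rw [key]
    exact A4S3_hom_inj ((h M a ha hb).trans (hΨ d c).symm)
  have h2 : F.app m ((RAM S (KL n).ss (KL n).zv).Sq d m x) = Ψ.app m ((EAM n).Sq d m c) := by
    rw [F.comm, h1, Ψ.comm]
  rw [← key m ((RAM S (KL n).ss (KL n).zv).Sq d m x), h2]
  exact hΨ m ((EAM n).Sq d m c)

private theorem A4S3_word_lt (n : ℕ) {d : ℕ} (w : Wop n d) (hd : d < n) (M : AM) :
    w.ev M = 0 := by
  induction w with
  | nil => omega
  | cons w d ih =>
    rename_i p
    show (M.Sq p d).comp (w.ev M) = 0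
    rcases Nat.lt_or_ge d p with h | h
    · rw [M.Sq_lt p d h, LinearMap.zero_comp]
    · rw [ih (by omega), LinearMap.comp_zero]

private theorem A4S3_word (n : ℕ) {d : ℕ} (w : Wop n d) (h : n = d) :
    ∃ r : ZMod 2, ∀ (M : AM) (x : M.M n), w.ev M x = r • (h ▸ x : M.M d) := by
  induction w with
  | nil => exact ⟨1, fun M x => (one_smul _ _).symm⟩
  | cons w d ih =>
    rename_i p
    subst h
    rcases lt_trichotomy n p with h | h | h
    · refine ⟨0, fun M x => ?_⟩
      show M.Sq p n (w.ev M x) = _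
      rw [M.Sq_lt p n h, LinearMap.zero_apply, zero_smul]
    · subst h
      obtain ⟨r, hr⟩ := ih rfl
      refine ⟨r, fun M x => ?_⟩
      show M.Sq n n (w.ev M x) = _
      rw [M.Sq_id n, LinearMap.id_apply]
      exact hr M x
    · refine ⟨0, fun M x => ?_⟩
      show M.Sq p n (w.ev M x) = _
      rw [A4S3_word_lt n w h M, LinearMap.zero_apply, map_zero, zero_smul]

private theorem A4S3_op (n : ℕ) {d : ℕ} (θ : Op n d) (h : n = d) :
    ∃ r : ZMod 2, ∀ (M : AM) (x : M.M n), θ.ev M x = r • (h ▸ x : M.M d) := by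
  choose r hr using fun w : Wop n d => A4S3_word n w h
  refine ⟨θ.sum fun w t => t * r w, fun M x => ?_⟩
  rw [Op.ev, Finsupp.sum, LinearMap.sum_apply, Finsupp.sum, Finset.sum_smul]
  refine Finset.sum_congr rfl fun w _ => ?_
  rw [LinearMap.smul_apply, hr w M x, mul_smul]

private theorem A4S3_cast_val {n d : ℕ} (h : n = d) (x : (EAM n).M n) :
    (show EE n d from (h ▸ x : (EAM n).M d)).1 = (show EE n n from x).1 := by
  subst h
  rfl

private theorem A4S3_cast_red (S : SqFam) {n d : ℕ} (h : n = d)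
    (x : (RAM S (KL n).ss (KL n).zv).M n) :
    (CR.hom d (red (KL n).zv d (h ▸ x : (RAM S (KL n).ss (KL n).zv).M d)) : CR (KL n).ss) =
      CR.hom n (red (KL n).zv n x) := by
  subst h
  rfl

private theorem A4S3_orb0 (n : ℕ) : orbM (orb (0 : Fin n → ℕ)) = Finsupp.single 0 1 := by
  classical
  refine Finsupp.ext fun b => ?_
  rw [orbM_apply, Finsupp.single_apply]
  have h1 : orb b = orb (0 : Fin n → ℕ) ↔ 0 = b := by
    constructor
    · intro h
      obtain ⟨σ, hσ⟩ := (orb_eq_iff (0 : Fin n → ℕ) b).1 h.symm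
      rw [hσ]
      rfl
    · rintro rfl
      rfl
  by_cases h : 0 = b
  · rw [if_pos h, if_pos (h1.2 h)]
  · rw [if_neg h, if_neg fun h' => h (h1.1 h')]

private theorem A4S3_iota (S : SqFam) (n : ℕ) :
    zC S (orb (0 : Fin n → ℕ)) = CR.hom n (red (KL n).zv n (iotaK n)) := by
  have hw : n = wtO (orb (0 : Fin n → ℕ)) := by
    rw [wtO_orb]
    simp [wt]
  obtain ⟨r, hr⟩ := A4S3_op n (thb (orb (0 : Fin n → ℕ))) hw
  have h1 := hr (EAM n) (EAM.gen n)
  rw [thb_ev] at h1
  have h2 : r = 1 := by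
    have h01 : ∀ t : ZMod 2, t = 0 ∨ t = 1 := by decide
    rcases h01 r with h | h
    · exfalso
      rw [h, zero_smul] at h1
      have h3 := congrArg (fun x : (EAM n).M (wtO (orb (0 : Fin n → ℕ))) =>
        (show EE n (wtO (orb (0 : Fin n → ℕ))) from x).1 0) h1
      have h4 : orbM (orb (0 : Fin n → ℕ)) 0 = 0 := h3
      rw [A4S3_orb0, Finsupp.single_eq_same] at h4
      exact one_ne_zero h4
    · exact h
  unfold zC zR
  rw [hr (RAM S (KL n).ss (KL n).zv) (iotaK n), h2, one_smul]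
  exact A4S3_cast_red S hw (iotaK n)

private theorem A4S3_gen (S : SqFam) (n : ℕ) : A4S3_Q S n n (EAM.gen n) (iotaK n) := by
  intro M a ha hb
  rw [← CR.map_hom, ← A4S3_iota, hb, A4S3_orb0]
  rfl

private theorem A4S3_ex (S : SqFam) {n : ℕ} (hn : 1 ≤ n) (d : ℕ) (c : (EAM n).M d) :
    ∃ x, A4S3_Q S n d c x := by
  have h := EAM_gen n (fun d =>
    { carrier := {c | ∃ x, A4S3_Q S n d c x}
      add_mem' := by
        rintro c c' ⟨x, hx⟩ ⟨x', hx'⟩
        exact ⟨x + x', A4S3_add S hx hx'⟩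
      zero_mem' := ⟨0, A4S3_zero S⟩
      smul_mem' := by
        rintro r c ⟨x, hx⟩
        exact ⟨r • x, A4S3_smul S r hx⟩ })
    (fun d m c hc => by
      obtain ⟨x, hx⟩ := hc
      exact ⟨_, A4S3_Sq S hn m hx⟩) ⟨iotaK n, A4S3_gen S n⟩ d
  have h2 : c ∈ (⊤ : Submodule (ZMod 2) ((EAM n).M d)) := Submodule.mem_top
  rw [← h] at h2
  exact h2

private theorem A4S3_main (S : SqFam) {n : ℕ} (hn : 1 ≤ n) :
    ∃ Θ : AMHom (EAM n) (RAM S (KL n).ss (KL n).zv), Θ.app n (EAM.gen n) = iotaK n := by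
  choose θ hθ using fun (d : ℕ) (c : (EAM n).M d) => A4S3_ex S hn d c
  refine ⟨⟨fun d =>
    { toFun := θ d
      map_add' := fun c c' => A4S3_uniq S hn (hθ d (c + c')) (A4S3_add S (hθ d c) (hθ d c'))
      map_smul' := fun r c => A4S3_uniq S hn (hθ d (r • c)) (A4S3_smul S r (hθ d c)) },
    fun d m c => A4S3_uniq S hn (hθ m _) (A4S3_Sq S hn m (hθ d c))⟩, ?_⟩
  exact A4S3_uniq S hn (hθ n _) (A4S3_gen S n)

private theorem A4S3_main0 (S : SqFam) :
    ∃ Θ : AMHom (EAM 0) (RAM S (KL 0).ss (KL 0).zv), Θ.app 0 (EAM.gen 0) = iotaK 0 := by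
  refine ⟨⟨fun d => match d with
    | 0 =>
      { toFun := fun c => ((show EE 0 0 from c).1 0) • (iotaK 0)
        map_add' := fun c c' => by
          show ((show EE 0 0 from c).1 0 + (show EE 0 0 from c').1 0) • (iotaK 0) = _
          rw [add_smul]
          rfl
        map_smul' := fun r c => by
          show (r * (show EE 0 0 from c).1 0) • (iotaK 0) = _
          rw [mul_smul]
          rfl }
    | _ + 1 => 0, ?_⟩, ?_⟩
  · intro d m x
    rcases d with _ | d
    · rcases m with _ | m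
      · rw [(EAM 0).Sq_id, (RAM S (KL 0).ss (KL 0).zv).Sq_id]
        rfl
      · rw [(EAM 0).unst 0 (m + 1) (by omega), (RAM S (KL 0).ss (KL 0).zv).unst 0 (m + 1) (by omega)]
        simp
    · rw [EAM.zero_eq (d + 1) (by omega) x]
      simp
  · show ((show EE 0 0 from EAM.gen 0).1 0) • (iotaK 0) = iotaK 0
    have h1 : (show EE 0 0 from EAM.gen 0).1 0 = 1 := by
      show (Finsupp.single (0 : Fin 0 → ℕ) (1 : ZMod 2)) 0 = 1
      rw [Finsupp.single_eq_same]
    rw [h1, one_smul]

theorem exists_Theta (S : SqFam) (n : ℕ) :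
    ∃ Θ : AMHom (EAM n) (RAM S (KL n).ss (KL n).zv),
      Θ.app n (EAM.gen n) = iotaK n ∧
      ∀ b : Orb n, Θ.app (wtO b) (⟨orbM b, orbM_mem b rfl⟩ : EE n (wtO b)) = zR S b := by
  have h1 : ∃ Θ : AMHom (EAM n) (RAM S (KL n).ss (KL n).zv), Θ.app n (EAM.gen n) = iotaK n := by
    rcases Nat.eq_zero_or_pos n with h | h
    · subst h
      exact A4S3_main0 S
    · exact A4S3_main S h
  obtain ⟨Θ, hΘ⟩ := h1
  refine ⟨Θ, hΘ, fun b => ?_⟩
  rw [← thb_ev b, Op.ev_nat Θ (thb b) (EAM.gen n), hΘ]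
  rfl

private theorem A4S3_castΘ (S : SqFam) {n d d' : ℕ} (Θ : AMHom (EAM n) (RAM S (KL n).ss (KL n).zv))
    (h : d = d') (c : Mon n) (hc : c ∈ EE n d) (hc' : c ∈ EE n d') :
    (CR.hom d (red (KL n).zv d (Θ.app d (⟨c, hc⟩ : EE n d))) : CR (KL n).ss) =
      CR.hom d' (red (KL n).zv d' (Θ.app d' (⟨c, hc'⟩ : EE n d'))) := by
  subst h
  rfl

private theorem A4S3_cup2 {Z : SS} {w e : ℕ} (h : w + w = e) (a : Hc Z w) :
    (CR.hom w a * CR.hom w a : CR Z) = CR.hom e (cup e a a) := by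
  subst h
  exact CR.hom_mul_hom a a

theorem zC_sq (S : SqFam) {n : ℕ} (b : Orb n) : zC S b ^ 2 = zC S (shiftO b) := by
  obtain ⟨Θ, -, hΘ⟩ := exists_Theta S n
  have h1 : zC S b ^ 2 = CR.hom (2 * wtO b) (red (KL n).zv (2 * wtO b)
      (Θ.app (2 * wtO b) ((EAM n).Sq0 (wtO b) (⟨orbM b, orbM_mem b rfl⟩ : EE n (wtO b))))) := by
    rw [Θ.comm, hΘ b]
    have h2 : (RAM S (KL n).ss (KL n).zv).Sq (wtO b) (2 * wtO b) (zR S b) =
        cupR (2 * wtO b) (zR S b) (zR S b) := S.top _ _ _ _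
    rw [h2, red_cupR, pow_two]
    unfold zC
    exact A4S3_cup2 (two_mul _).symm _
  have h3 : (EAM n).Sq0 (wtO b) (⟨orbM b, orbM_mem b rfl⟩ : EE n (wtO b)) =
      (⟨orbM (shiftO b), orbM_mem _ (wtO_shift b)⟩ : EE n (2 * wtO b)) :=
    Subtype.ext (Sq0_orbM b)
  rw [h1, h3, A4S3_castΘ S Θ (wtO_shift b).symm (orbM (shiftO b)) _ (orbM_mem _ rfl), hΘ]
  rfl

theorem zC_shift (S : SqFam) {n : ℕ} (b : Orb n) (t : ℕ) :
    zC S (shiftO^[t] b) = zC S b ^ 2 ^ t := by
  induction t with
  | zero => rw [pow_zero, pow_one]; rfl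
  | succ t ih =>
    rw [Function.iterate_succ_apply', ← zC_sq, ih, ← pow_mul, pow_succ]

theorem KL_poly (S : SqFam) (a : ℕ) :
    CPoly (KL (a + 1)).ss (fun b : Orb a => wtO b + 1) (fun b => zC S (consO b)) := by
  classical
  let e1 : Finset (Orb a × ℕ) ≃ (Orb a →₀ ℕ) := Equiv.ofBijective betaF betaF_bijective
  let e2 : Orb a × ℕ ≃ Orb (a + 1) := Equiv.ofBijective _ (orb_decomp (n := a))
  refine ((KL_simple S (a + 1)).reindex (e1.symm.trans e2.finsetCongr)).congr ?_ ?_
  · intro e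
    obtain ⟨D, rfl⟩ := e1.surjective e
    rw [Equiv.trans_apply, Equiv.symm_apply_apply]
    show (betaF D).sum (fun i k => k * (wtO i + 1)) = ∑ b ∈ D.map e2.toEmbedding, wtO b
    rw [betaF_sum (fun b => wtO b + 1), Finset.sum_map]
    exact Finset.sum_congr rfl fun x _ => (wtO_decomp x.1 x.2).symm
  · intro e
    obtain ⟨D, rfl⟩ := e1.surjective e
    rw [Equiv.trans_apply, Equiv.symm_apply_apply]
    show (betaF D).prod (fun i k => zC S (consO i) ^ k) = ∏ b ∈ D.map e2.toEmbedding, zC S b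
    rw [betaF_prod (fun b => zC S (consO b)), Finset.prod_map]
    exact Finset.prod_congr rfl fun x _ => (zC_shift S (consO x.1) x.2).symm

end MM

end

/-! ### from `Lib_MP_33f7bb_d.A4V2` -/

section

/-!
# A4-42: finite products of Eilenberg-MacLane objects; polynomial generators of `H^*(V)`

`KP a = ∏_i KL (a i + 1)`.
`KP_B`: cycles and boundaries of a finite product componentwise.
`KP_poly`: induction over the finite type `ι` (`Finite.induction_empty_option`, as for `CPoly_Bpow` in A3Pol1): empty product: a point (the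
only monomial is `1`, as in A3Pol1); `Option ι`: `(KP a).ss ≅ (KL (a none + 1)).ss × (KP (a ∘ some)).ss`, `CPoly.prod` (`KL_poly`), reindex
`(Σ i : Option ι, Orb (a i)) ≃ Orb (a none) ⊕ Σ i : ι, Orb (a (some i))`; `CBasis.of_iso`, `CBasis.reindex`, `CBasis.congr`.
`S2_poly`: `L = Σ j, Fin (finrank (V.H j))`, `a l = l.1 - 1` (`l.1 ≥ 1` as `H_0 V = 0`), `g l : V → KL (a l + 1)` with
`KLe (a l + 1) n ∘ H_n (g l)` = the coordinate functional of a basis of `H_n V` if `n = l.1` and `0` otherwise (`exists_hom`, `KL_isEM`).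
For `N` let `L_N = {l | a l + 1 ≤ N}`, finite, and `G : V → KP (a restricted to L_N)`, `x ↦ (g l x)_l`.  `G` is bijective on `H_j`, `j ≤ N`
(`KP_B` and the coordinates) and `H_j (KP) = 0` for `j > N` (`KL_isEM`, `KP_B`): `lin_low_iso`.  So for `d ≤ N` `CBasisAt` of `V` in degree `d` for the
monomials in the classes `z_(l,b)`, `l ∈ L_N`, follows from `KP_poly` (`CBasisAt.of_iso`; `CR.map G (pr_l^* z) = (g l)^* z`).  The monomials of
degree `d ≤ N` in the `z_(l,b)` involve only `l ∈ L_N` (`wtO b + 1 ≥ a l + 1`, `le_wtO`); take `N = d`.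
Homogeneity: `CR.IsHom.map`, `zC_isHom`, products.  Finiteness of the monomials of degree `d`: finitely many `(l, b)` of degree `≤ d` and
exponents `≤ d`.
-/

open scoped TensorProduct

namespace MM

/-- the fundamental functional in all degrees (zero outside degree `n`) -/
noncomputable def KLe (n j : ℕ) : Module.Dual (ZMod 2) ((KL n).H j) :=
  if h : j = n then h ▸ KLev n else 0

theorem KLe_self (n : ℕ) : KLe n n = KLev n := by
  simp [KLe]

/-- products of Eilenberg-MacLane objects -/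
noncomputable abbrev KP {ι : Type} (a : ι → ℕ) : SV where
  V m := ∀ i, (KL (a i + 1)).V m
  act f := LinearMap.pi fun i => ((KL (a i + 1)).act f).comp (LinearMap.proj i)
  act_id x := funext fun i => (KL (a i + 1)).act_id (x i)
  act_comp f g x := funext fun i => (KL (a i + 1)).act_comp f g (x i)

/-- projections -/
noncomputable def KPproj {ι : Type} (a : ι → ℕ) (i : ι) : SVHom (KP a) (KL (a i + 1)) :=
  ⟨fun _ => LinearMap.proj i, fun _ _ => rfl⟩

private theorem A4V2_d {ι : Type} (a : ι → ℕ) (j : ℕ) (z : (KP a).V (j + 1)) (i : ι) :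
    (KP a).d j z i = (KL (a i + 1)).d j (z i) :=
  (KPproj a i).map_d z

theorem KP_Z {ι : Type} (a : ι → ℕ) (j : ℕ) (z : (KP a).V j) :
    z ∈ (KP a).Z j ↔ ∀ i, z i ∈ (KL (a i + 1)).Z j := by
  cases j with
  | zero => exact ⟨fun _ _ => Submodule.mem_top, fun _ => Submodule.mem_top⟩
  | succ j =>
    show (KP a).d j z = 0 ↔ ∀ i, (KL (a i + 1)).d j (z i) = 0
    constructor
    · intro h i
      rw [← A4V2_d, h]
      rfl
    · intro h
      funext i
      rw [A4V2_d, h i]
      rfl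

theorem KP_B {ι : Type} (a : ι → ℕ) (j : ℕ) (z : (KP a).V j) :
    z ∈ (KP a).B j ↔ ∀ i, z i ∈ (KL (a i + 1)).B j := by
  constructor
  · rintro ⟨w, rfl⟩ i
    exact ⟨w i, (A4V2_d a j w i).symm⟩
  · intro h
    choose w hw using h
    refine ⟨w, ?_⟩
    funext i
    rw [A4V2_d, hw]

/-- index set of the polynomial generators -/
abbrev GI {L : Type} (a : L → ℕ) := Σ l, Orb (a l)

/-- degrees of the generators -/
def gdeg {L : Type} (a : L → ℕ) (x : GI a) : ℕ := wtO x.2 + 1

private theorem A4V2_lin {Z Z' : SS} (f : Hom Z Z') (hf : ∀ n, Function.Bijective (f.app n))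
    (n : ℕ) : Function.Bijective ((linMap f).app n) :=
  ⟨Finsupp.mapDomain_injective (hf n).1, Finsupp.mapDomain_surjective (hf n).2⟩

/-- transport of polynomial generators along an isomorphism and a bijection of the index sets -/
private theorem A4V2_re {Z Z' : SS} {I J : Type} {dg : I → ℕ} {z : I → CR Z} {dg' : J → ℕ}
    {z' : J → CR Z'} (h : CPoly Z' dg' z') (f : Hom Z Z')
    (hf : ∀ n, Function.Bijective (f.app n)) (e : J ≃ I) (hd : ∀ j, dg (e j) = dg' j)
    (hz : ∀ j, z (e j) = CR.map f (z' j)) : CPoly Z dg z := by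
  refine ((CBasis.of_iso f (Hmap_bijective _ (A4V2_lin f hf)) h).reindex
    (Finsupp.equivCongrLeft e.symm)).congr ?_ ?_
  · intro m
    rw [Finsupp.equivCongrLeft_apply, Finsupp.sum_equivMapDomain]
    refine Finsupp.sum_congr fun i _ => ?_
    rw [← hd, e.apply_symm_apply]
  · intro m
    rw [Finsupp.equivCongrLeft_apply, Finsupp.prod_equivMapDomain, Finsupp.prod, Finsupp.prod,
      map_prod]
    refine Finset.prod_congr rfl fun i _ => ?_
    rw [map_pow, ← hz, e.apply_symm_apply]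

/-- the statement of `KP_poly` -/
private def A4V2_P (S : SqFam) (ι : Type) : Prop :=
  ∀ a : ι → ℕ, CPoly (KP a).ss (gdeg a)
      (fun x => CR.map (KPproj a x.1).toHom (zC S (consO x.2)))

private theorem A4V2_equiv (S : SqFam) {I J : Type} (e : I ≃ J) (h : A4V2_P S I) :
    A4V2_P S J := by
  intro a
  refine A4V2_re (h fun i => a (e i)) (⟨fun _ x i => x (e i), fun _ _ => rfl⟩ :
    Hom (KP a).ss (KP fun i => a (e i)).ss) ?_
    (Equiv.sigmaCongrLeft (β := fun j => Orb (a j)) e) (fun _ => rfl) ?_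
  · intro n
    constructor
    · intro x y hxy
      funext j
      obtain ⟨i, rfl⟩ := e.surjective j
      exact congrFun hxy i
    · intro y
      refine ⟨(Equiv.piCongrLeft (fun j => (KL (a j + 1)).V n) e) y, ?_⟩
      funext i
      exact Equiv.piCongrLeft_apply_apply (P := fun j => (KL (a j + 1)).V n) e y i
  · rintro ⟨i, b⟩
    rw [← CR.map_comp]
    rfl

private theorem A4V2_empty (S : SqFam) : A4V2_P S PEmpty := by
  intro a
  refine A4V2_re (CPoly_Bpow PEmpty) (⟨fun _ _ i => i.elim, fun _ _ => funext fun i => i.elim⟩ :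
    Hom (KP a).ss (Bpow PEmpty)) ?_
    ⟨fun i => i.elim, fun x => x.1.elim, fun i => i.elim, fun x => x.1.elim⟩
    (fun i => i.elim) (fun i => i.elim)
  intro n
  constructor
  · intro x y _
    funext i
    exact i.elim
  · intro y
    exact ⟨fun i => i.elim, funext fun i => i.elim⟩

private def A4V2_opt {I : Type} (a : Option I → ℕ) :
    Orb (a none) ⊕ GI (fun i => a (some i)) ≃ GI a where
  toFun := Sum.elim (fun b => ⟨none, b⟩) (fun x => ⟨some x.1, x.2⟩)
  invFun x := match x with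
    | ⟨none, b⟩ => Sum.inl b
    | ⟨some i, b⟩ => Sum.inr ⟨i, b⟩
  left_inv x := by
    rcases x with b | ⟨i, b⟩ <;> rfl
  right_inv x := by
    rcases x with ⟨_ | i, b⟩ <;> rfl

private theorem A4V2_option (S : SqFam) {I : Type} (h : A4V2_P S I) : A4V2_P S (Option I) := by
  intro a
  refine A4V2_re (CPoly.prod (KL_poly S (a none)) (h fun i => a (some i)))
    (⟨fun _ x => (x none, fun i => x (some i)), fun _ _ => rfl⟩ :
      Hom (KP a).ss ((KL (a none + 1)).ss.prod (KP fun i => a (some i)).ss)) ?_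
    (A4V2_opt a) ?_ ?_
  · intro n
    constructor
    · intro x y hxy
      funext j
      rcases j with _ | j
      · exact congrArg Prod.fst hxy
      · exact congrFun (congrArg Prod.snd hxy) j
    · rintro ⟨u, y⟩
      exact ⟨fun j => match j with
        | none => u
        | some i => y i, rfl⟩
  · rintro (b | ⟨i, b⟩)
    · rfl
    · rfl
  · rintro (b | ⟨i, b⟩)
    · show CR.map (KPproj a none).toHom (zC S (consO b)) = CR.map _ (CR.map _ (zC S (consO b)))
      rw [← CR.map_comp]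
      rfl
    · show CR.map (KPproj a (some i)).toHom (zC S (consO b)) =
        CR.map _ (CR.map _ (CR.map _ (zC S (consO b))))
      rw [← CR.map_comp, ← CR.map_comp]
      rfl

theorem KP_poly (S : SqFam) {ι : Type} [Finite ι] (a : ι → ℕ) :
    CPoly (KP a).ss (gdeg a)
      (fun x => CR.map (KPproj a x.1).toHom (zC S (consO x.2))) := by
  exact Finite.induction_empty_option (P := fun ι => A4V2_P S ι)
    (fun e h => A4V2_equiv S e h) (A4V2_empty S) (fun h => A4V2_option S h) ι a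

/-- a class is determined by its components -/
private theorem A4V2_ext {ι : Type} (a : ι → ℕ) (j : ℕ) {x y : (KP a).H j}
    (h : ∀ i, SV.Hmap (KPproj a i) j x = SV.Hmap (KPproj a i) j y) : x = y := by
  obtain ⟨⟨z, hz⟩, rfl⟩ := Submodule.Quotient.mk_surjective _ x
  obtain ⟨⟨w, hw⟩, rfl⟩ := Submodule.Quotient.mk_surjective _ y
  rw [Submodule.Quotient.eq, Submodule.mem_comap]
  show z - w ∈ (KP a).B j
  rw [KP_B]
  intro i
  have h1 := h i
  have h2 : (KL (a i + 1)).cls (z i) ((KPproj a i).map_Z hz) =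
      (KL (a i + 1)).cls (w i) ((KPproj a i).map_Z hw) := h1
  unfold SV.cls at h2
  rw [Submodule.Quotient.eq, Submodule.mem_comap] at h2
  exact h2

/-- vanishing of the homology of `KL` outside the degree -/
private theorem A4V2_zero {n j : ℕ} (h : j ≠ n) (x : (KL n).H j) : x = 0 := by
  obtain ⟨⟨z, hz⟩, rfl⟩ := Submodule.Quotient.mk_surjective _ x
  exact (Submodule.Quotient.mk_eq_zero _).2 ((KL_isEM n).low j h z hz)

/-- maps with prescribed functionals -/
private theorem A4V2_map (V : SV) (n : ℕ) (lam : Module.Dual (ZMod 2) (V.H n)) :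
    ∃ g : SVHom V (KL n), ∀ x, KLev n (SV.Hmap g n x) = lam x := by
  classical
  obtain ⟨f, hf⟩ := exists_hom (P := V) (Q := KL n)
    (Function.update (fun _ => 0) n
      ((LinearEquiv.ofBijective (KLev n) (KL_isEM n).bij).symm.toLinearMap ∘ₗ lam))
  refine ⟨f, fun x => ?_⟩
  obtain ⟨⟨z, hz⟩, rfl⟩ := Submodule.Quotient.mk_surjective _ x
  obtain ⟨hfz, h1⟩ := hf n z hz
  rw [Function.update_self] at h1
  show KLev n ((KL n).cls (f.app n z) hfz) = _
  rw [h1]
  exact (LinearEquiv.ofBijective (KLev n) (KL_isEM n).bij).apply_symm_apply _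

/-- change of the index set of a basis in one degree -/
private theorem A4V2_at {Z : SS} {I J : Type} {dg : I → ℕ} {z : I → CR Z} {dg' : J → ℕ}
    {z' : J → CR Z} {d : ℕ} (h : CBasisAt Z dg' z' d) (φ : J → I) (hφ : Function.Injective φ)
    (hd : ∀ j, dg (φ j) = dg' j) (hz : ∀ j, z (φ j) = z' j)
    (hs : ∀ i, dg i = d → ∃ j, φ j = i) : CBasisAt Z dg z d := by
  classical
  have key : ∀ c : J →₀ ZMod 2, ((Finsupp.mapDomain φ c).sum fun i r => r • (z i d : Hc Z d)) =
      c.sum fun j r => r • (z' j d : Hc Z d) := by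
    intro c
    rw [Finsupp.sum_mapDomain_index]
    · refine Finsupp.sum_congr fun j _ => ?_
      rw [hz]
    · intro i
      exact zero_smul _ _
    · intro i r r'
      exact add_smul _ _ _
  refine ⟨fun c hc h0 => ?_, fun y => ?_⟩
  · have h1 : Finsupp.mapDomain φ (Finsupp.comapDomain φ c hφ.injOn) = c := by
      refine Finsupp.mapDomain_comapDomain φ hφ c ?_
      intro i hi
      exact hs i (hc i (Finsupp.mem_support_iff.1 hi))
    have h2 : Finsupp.comapDomain φ c hφ.injOn = 0 := by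
      refine h.1 _ ?_ ?_
      · intro j hj
        rw [Finsupp.comapDomain_apply] at hj
        rw [← hd]
        exact hc _ hj
      · rw [← key, h1]
        exact h0
    rw [← h1, h2, Finsupp.mapDomain_zero]
  · obtain ⟨c, hc, hy⟩ := h.2 y
    refine ⟨Finsupp.mapDomain φ c, ?_, ?_⟩
    · intro i hi
      have h1 : i ∈ (Finsupp.mapDomain φ c).support := Finsupp.mem_support_iff.2 hi
      obtain ⟨j, hj, rfl⟩ := Finset.mem_image.1 (Finsupp.mapDomain_support h1)
      rw [hd]
      exact hc j (Finsupp.mem_support_iff.1 hj)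
    · rw [key, hy]

/-- finitely many generators of bounded degree -/
private theorem A4V2_gfin {L : Type} (a : L → ℕ) (ha : ∀ d, {l | a l ≤ d}.Finite) (d : ℕ) :
    {x : GI a | gdeg a x ≤ d}.Finite := by
  refine ((ha d).biUnion (t := fun l => Sigma.mk l '' {b : Orb (a l) | wtO b ≤ d})
    fun l _ => (wtO_fin d).image _).subset ?_
  rintro ⟨l, b⟩ hx
  have h1 : wtO b + 1 ≤ d := hx
  have h2 := le_wtO b
  rw [Set.mem_iUnion₂]
  exact ⟨l, show a l ≤ d by omega, b, show wtO b ≤ d by omega, rfl⟩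

private theorem A4V2_efin {L : Type} (a : L → ℕ) (ha : ∀ d, {l | a l ≤ d}.Finite) (d : ℕ) :
    {e : GI a →₀ ℕ | (e.sum fun i k => k * gdeg a i) = d}.Finite := by
  classical
  set f : GI a →₀ ℕ := Finsupp.indicator (A4V2_gfin a ha d).toFinset (fun _ _ => d) with hf
  refine (Set.finite_Icc (0 : GI a →₀ ℕ) f).subset ?_
  intro e he
  refine ⟨fun i => Nat.zero_le _, fun i => ?_⟩
  by_cases hi : e i = 0
  · rw [hi]
    exact Nat.zero_le _
  · have h1 : e i * gdeg a i ≤ d := by
      rw [← (show (e.sum fun i k => k * gdeg a i) = d from he)]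
      exact Finset.single_le_sum (f := fun i => e i * gdeg a i) (fun _ _ => Nat.zero_le _)
        (Finsupp.mem_support_iff.2 hi)
    have h2 : 1 ≤ gdeg a i := Nat.le_add_left _ _
    have h3 : gdeg a i ≤ d := (Nat.le_mul_of_pos_left _ (Nat.pos_of_ne_zero hi)).trans h1
    have h4 : e i ≤ d := (Nat.le_mul_of_pos_right _ h2).trans h1
    rw [hf, Finsupp.indicator_apply, dif_pos ((A4V2_gfin a ha d).mem_toFinset.2 h3)]
    exact h4

private theorem A4V2_pow {Z : SS} {n : ℕ} {a : CR Z} (h : CR.IsHom n a) (k : ℕ) :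
    CR.IsHom (k * n) (a ^ k) := by
  induction k with
  | zero => rw [pow_zero, zero_mul]; exact CR.isHom_one
  | succ k ih => rw [pow_succ, Nat.succ_mul]; exact ih.mul h

/-- the map to a product -/
private noncomputable def A4V2_G {V : SV} {L : Type} {a : L → ℕ} (g : ∀ l, SVHom V (KL (a l + 1))) {L' : Type}
    (s : L' → L) : SVHom V (KP fun l => a (s l)) :=
  ⟨fun n => LinearMap.pi fun l => (g (s l)).app n, fun f x => funext fun l => (g (s l)).nat f x⟩

/-- the comparison of the monomials -/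
private theorem A4V2_bas (S : SqFam) (V : SV) {L : Type} (a : L → ℕ)
    (g : ∀ l, SVHom V (KL (a l + 1))) (d : ℕ) {L' : Type} [Finite L'] (s : L' → L)
    (hsi : Function.Injective s) (hs : ∀ l, a l + 1 ≤ d → ∃ l', s l' = l)
    (hG : Function.Bijective (SV.Hmap (linMap (A4V2_G g s).toHom) d)) :
    CBasisAt V.ss (fun e : GI a →₀ ℕ => e.sum fun i k => k * gdeg a i)
      (fun e => e.prod fun i k => (CR.map (g i.1).toHom (zC S (consO i.2))) ^ k) d := by
  classical
  set φ : GI (fun l => a (s l)) → GI a := fun x => ⟨s x.1, x.2⟩ with hφ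
  have hφi : Function.Injective φ := by
    rintro ⟨l, b⟩ ⟨l', b'⟩ h
    obtain ⟨h1, h2⟩ := Sigma.mk.inj_iff.1 h
    obtain rfl := hsi h1
    have h3 : b = b' := eq_of_heq h2
    rw [h3]
  refine A4V2_at (((KP_poly S fun l => a (s l)).bas d).of_iso (A4V2_G g s).toHom d hG)
    (Finsupp.mapDomain φ) (Finsupp.mapDomain_injective hφi) ?_ ?_ ?_
  · intro e
    show ((Finsupp.mapDomain φ e).sum fun i k => k * gdeg a i) =
      e.sum fun i k => k * gdeg (fun l => a (s l)) i
    rw [Finsupp.sum_mapDomain_index (fun _ => zero_mul _) (fun _ _ _ => add_mul _ _ _)]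
    rfl
  · intro e
    show ((Finsupp.mapDomain φ e).prod fun i k =>
      (CR.map (g i.1).toHom (zC S (consO i.2))) ^ k) = CR.map (A4V2_G g s).toHom
        (e.prod fun i k => (CR.map (KPproj (fun l => a (s l)) i.1).toHom
          (zC S (consO i.2))) ^ k)
    rw [Finsupp.prod_mapDomain_index (fun _ => pow_zero _) (fun _ _ _ => pow_add _ _ _),
      Finsupp.prod, Finsupp.prod, map_prod]
    refine Finset.prod_congr rfl fun i _ => ?_
    rw [map_pow, ← CR.map_comp]
    rfl
  · intro e he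
    refine ⟨Finsupp.comapDomain φ e hφi.injOn, Finsupp.mapDomain_comapDomain φ hφi e ?_⟩
    rintro ⟨l, b⟩ hi
    have h1 : e ⟨l, b⟩ * gdeg a ⟨l, b⟩ ≤ d := by
      rw [← (show (e.sum fun i k => k * gdeg a i) = d from he)]
      exact Finset.single_le_sum (f := fun i => e i * gdeg a i) (fun _ _ => Nat.zero_le _) hi
    have h2 : gdeg a ⟨l, b⟩ ≤ d :=
      (Nat.le_mul_of_pos_left _ (Nat.pos_of_ne_zero (Finsupp.mem_support_iff.1 hi))).trans h1
    have h3 : wtO b + 1 ≤ d := h2
    have h4 := le_wtO b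
    obtain ⟨l', rfl⟩ := hs l (by omega)
    exact ⟨⟨l', b⟩, rfl⟩

private theorem A4V2_comp {V : SV} {L : Type} {a : L → ℕ} (g : ∀ l, SVHom V (KL (a l + 1)))
    {L' : Type} (s : L' → L) (l : L') (j : ℕ) (x : V.H j) :
    SV.Hmap (KPproj (fun l => a (s l)) l) j (SV.Hmap (A4V2_G g s) j x) =
      SV.Hmap (g (s l)) j x := by
  rw [← SV.Hmap_comp]
  rfl

private theorem A4V2_bij (V : SV) (h0 : ∀ x : V.H 0, x = 0) (r : ℕ → ℕ)
    (b : ∀ j, Module.Basis (Fin (r j)) (ZMod 2) (V.H (j + 1)))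
    (g : ∀ l : (Σ j, Fin (r j)), SVHom V (KL (l.1 + 1)))
    (hg : ∀ l x, KLev (l.1 + 1) (SV.Hmap (g l) (l.1 + 1) x) = (b l.1).coord l.2 x)
    (d j : ℕ) (hj : j ≤ d) :
    Function.Bijective (SV.Hmap (A4V2_G (a := fun l : (Σ j, Fin (r j)) => l.1) g
      (fun l : {l : (Σ j, Fin (r j)) | l.1 + 1 ≤ d} => l.1)) j) := by
  classical
  constructor
  · rw [injective_iff_map_eq_zero]
    intro x hx
    cases j with
    | zero => exact h0 x
    | succ k =>
      refine (b k).ext_elem fun i => ?_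
      have h1 := hg ⟨k, i⟩ x
      have h2 := A4V2_comp (a := fun l : (Σ j, Fin (r j)) => l.1) g
        (fun l : {l : (Σ j, Fin (r j)) | l.1 + 1 ≤ d} => l.1) ⟨⟨k, i⟩, hj⟩ (k + 1) x
      rw [hx, map_zero] at h2
      have h3 : SV.Hmap (g ⟨k, i⟩) (k + 1) x = 0 := h2.symm
      have h4 : KLev (k + 1) (SV.Hmap (g ⟨k, i⟩) (k + 1) x) = (b k).repr x i := h1
      rw [← h4, h3, map_zero, map_zero]
      rfl
  · intro y
    cases j with
    | zero =>
      refine ⟨0, A4V2_ext _ 0 fun l => ?_⟩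
      exact (A4V2_zero (Nat.succ_ne_zero _).symm _).trans (A4V2_zero (Nat.succ_ne_zero _).symm _).symm
    | succ k =>
      refine ⟨∑ i, (KLev (k + 1) (SV.Hmap (KPproj (fun l : {l : (Σ j, Fin (r j)) |
        l.1 + 1 ≤ d} => l.1.1) ⟨⟨k, i⟩, hj⟩) (k + 1) y)) • b k i, A4V2_ext _ _ fun l => ?_⟩
      obtain ⟨⟨m, i⟩, hl⟩ := l
      by_cases hm : m = k
      · subst hm
        refine (KL_isEM (m + 1)).bij.1 ?_
        have h1 := A4V2_comp (a := fun l : (Σ j, Fin (r j)) => l.1) g
          (fun l : {l : (Σ j, Fin (r j)) | l.1 + 1 ≤ d} => l.1) ⟨⟨m, i⟩, hl⟩ (m + 1)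
            (∑ i, (KLev (m + 1) (SV.Hmap (KPproj (fun l : {l : (Σ j, Fin (r j)) |
              l.1 + 1 ≤ d} => l.1.1) ⟨⟨m, i⟩, hj⟩) (m + 1) y)) • b m i)
        refine (congrArg (KLev (m + 1)) h1).trans ?_
        refine (hg ⟨m, i⟩ _).trans ?_
        show (b m).repr (∑ i, _ • b m i) i = _
        rw [Module.Basis.repr_sum_self]
      · have h1 : k + 1 ≠ m + 1 := fun h => hm (Nat.succ.inj h).symm
        exact (A4V2_zero h1 _).trans (A4V2_zero h1 _).symm

theorem S2_poly (S : SqFam) (V : SV) (hfin : ∀ n, Module.Finite (ZMod 2) (V.H n))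
    (h0 : ∀ x : V.H 0, x = 0) :
    ∃ (L : Type) (a : L → ℕ) (g : ∀ l, SVHom V (KL (a l + 1))),
      (∀ d, {l | a l ≤ d}.Finite) ∧
      (∀ (n : ℕ) (lam : Module.Dual (ZMod 2) (V.H n)), lam ∈ Submodule.span (ZMod 2)
        (Set.range fun l => (KLe (a l + 1) n).comp (SV.Hmap (g l) n))) ∧
      CPoly V.ss (gdeg a) (fun x => CR.map (g x.1).toHom (zC S (consO x.2))) := by
  classical
  set r : ℕ → ℕ := fun j => Module.finrank (ZMod 2) (V.H (j + 1)) with hr
  have hb : ∀ j, Nonempty (Module.Basis (Fin (r j)) (ZMod 2) (V.H (j + 1))) := fun j =>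
    haveI := hfin (j + 1)
    ⟨Module.finBasis (ZMod 2) (V.H (j + 1))⟩
  have b : ∀ j, Module.Basis (Fin (r j)) (ZMod 2) (V.H (j + 1)) := fun j => (hb j).some
  have hg : ∀ l : (Σ j, Fin (r j)), ∃ g : SVHom V (KL (l.1 + 1)),
      ∀ x, KLev (l.1 + 1) (SV.Hmap g (l.1 + 1) x) = (b l.1).coord l.2 x :=
    fun l => A4V2_map V (l.1 + 1) ((b l.1).coord l.2)
  choose g hg using hg
  have hfa : ∀ d, {l : (Σ j, Fin (r j)) | l.1 ≤ d}.Finite := by
    intro d
    refine ((Set.finite_Iic d).biUnion (t := fun j =>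
      Set.range (fun i : Fin (r j) => (⟨j, i⟩ : (Σ j, Fin (r j)))))
      fun j _ => Set.finite_range _).subset ?_
    rintro ⟨j, i⟩ hl
    rw [Set.mem_iUnion₂]
    exact ⟨j, hl, i, rfl⟩
  refine ⟨Σ j, Fin (r j), fun l => l.1, g, hfa, ?_, ?_, A4V2_efin _ hfa, fun d => ?_⟩
  · intro n lam
    cases n with
    | zero =>
      have h1 : lam = 0 := by
        apply LinearMap.ext
        intro x
        rw [h0 x, map_zero, map_zero]
      rw [h1]
      exact Submodule.zero_mem _
    | succ k =>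
      have h1 : lam = ∑ i, lam (b k i) • (b k).coord i := by
        refine (b k).ext fun i => ?_
        rw [LinearMap.sum_apply, Finset.sum_eq_single i]
        · rw [LinearMap.smul_apply, Module.Basis.coord_apply, Module.Basis.repr_self,
            Finsupp.single_eq_same, smul_eq_mul, mul_one]
        · intro i' _ hi'
          rw [LinearMap.smul_apply, Module.Basis.coord_apply, Module.Basis.repr_self,
            Finsupp.single_eq_of_ne hi', smul_zero]
        · intro h
          exact absurd (Finset.mem_univ i) h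
      rw [h1]
      refine Submodule.sum_mem _ fun i _ => Submodule.smul_mem _ _ (Submodule.subset_span
        ⟨⟨k, i⟩, ?_⟩)
      apply LinearMap.ext
      intro x
      show KLe (k + 1) (k + 1) (SV.Hmap (g ⟨k, i⟩) (k + 1) x) = _
      rw [KLe_self]
      exact hg ⟨k, i⟩ x
  · intro e
    refine CR.IsHom.prod e.support (fun i => e i * gdeg _ i) _ fun i _ => A4V2_pow ?_ (e i)
    have h1 := (zC_isHom S (consO i.2)).map (g i.1).toHom
    rw [wtO_cons] at h1
    exact h1
  · have hfi : Finite {l : (Σ j, Fin (r j)) | l.1 + 1 ≤ d} :=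
      ((hfa d).subset fun l hl => Nat.le_of_succ_le hl).to_subtype
    refine A4V2_bas S V (fun l : (Σ j, Fin (r j)) => l.1) g d
      (fun l : {l : (Σ j, Fin (r j)) | l.1 + 1 ≤ d} => l.1) Subtype.val_injective
      (fun l hl => ⟨⟨l, hl⟩, rfl⟩) (lin_low_iso _ d (fun j hj => ?_) (fun j hj z hz => ?_) d le_rfl)
    · exact A4V2_bij V h0 r b g hg d j hj
    · rw [KP_B]
      rw [KP_Z] at hz
      intro l
      have h1 : l.1.1 + 1 ≤ d := l.2
      exact (KL_isEM _).low j (by omega) _ (hz l)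

end MM

end

/-! ### from `Lib_MP_33f7bb_d.A4V3` -/

section

/-!
# A4-43: from polynomial generators to a coproduct basis of homology (S2)(a)

`z^e = ∏ z_i^(e_i)`, of degree `edeg dg e`, `≥ 1` for `e ≠ 0` (`dg i ≥ 1`).
1. For `e ≠ 0`, `d = edeg dg e ≥ 1` there is a unique `a_e : RHc V d` with `red (a_e) = (z^e) d` (`red_surj`, `red_injective`).  For every
`d` the `a_e`, `e ≠ 0` of degree `d`, form a basis of `RHc V d`: `d ≥ 1`: `red` is bijective and `CBasis.bas`; `d = 0`: `RHc V 0 = 0`: a class `red a` in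
degree `0` is a multiple of `z^0 = 1` and vanishes on the base vertex (`red_zero_iff`), so it is `0`.
2. `(RV V).H d` is finite dimensional; `y e d` = dual basis for `edeg dg e = d`, `e ≠ 0`, and `0` otherwise: `li`, `sp`, `zero`, `pair`.
3. `diag`: `(boxF d a_(e₁) a_(e₂)) ∘ H(R.diag) = cupR d a_(e₁) a_(e₂) = a_(e₁ + e₂)` (`red_cupR`, `red_injective`, `z^(e₁) z^(e₂) = z^(e₁+e₂)`,
`CR.mul_apply` for homogeneous elements), which has the value `[e₁ + e₂ = e]` on `y e d`.  The value of `boxF d a_(e₁) a_(e₂)` on the right hand side is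
`∑_(e'+e''=e) [e' = e₁] [e'' = e₂]` (`boxF_crs`, `boxF_crs_ne`, `crsH_cls`) `= [e₁ + e₂ = e]`.  By `boxF_span` (finite dimensional homology) and bilinearity the
functionals `boxF d a_(e₁) a_(e₂)`, `edeg e₁ + edeg e₂ = d`, span the dual of `H_d (RV ⊗ RV)`, so both sides are equal.
-/

open scoped TensorProduct

namespace MM

private theorem A4V3_box {P Q : SV} {p q n : ℕ} (h : p + q = n) (a : Module.Dual (ZMod 2) (P.H p))
    (b : Module.Dual (ZMod 2) (Q.H q)) (x : P.H p) (y : Q.H q) :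
    boxF n a b (crsH n x y) = a x * b y := by
  obtain ⟨x, hx, rfl⟩ := A3Box_exists_cls x
  obtain ⟨y, hy, rfl⟩ := A3Box_exists_cls y
  rw [crsH_cls, boxF_crs h]

private theorem A4V3_box_ne {P Q : SV} {p q n p' q' : ℕ} (a : Module.Dual (ZMod 2) (P.H p))
    (b : Module.Dual (ZMod 2) (Q.H q)) (hp : p' ≠ p) (x : P.H p') (y : Q.H q') :
    boxF n a b (crsH n x y) = 0 := by
  obtain ⟨x, hx, rfl⟩ := A3Box_exists_cls x
  obtain ⟨y, hy, rfl⟩ := A3Box_exists_cls y
  rw [crsH_cls]
  exact boxF_crs_ne a b hp x hx y hy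

/-- two classes of the tensor product with the same values on the products of a spanning family -/
private theorem A4V3_eq {P Q : SV} (hP : ∀ p, Module.Finite (ZMod 2) (P.H p))
    (hQ : ∀ q, Module.Finite (ZMod 2) (Q.H q)) {I J : Type} {dI : I → ℕ} {dJ : J → ℕ}
    (A : I → ∀ p, Module.Dual (ZMod 2) (P.H p)) (B : J → ∀ q, Module.Dual (ZMod 2) (Q.H q))
    (hA : ∀ p a, a ∈ Submodule.span (ZMod 2) ((fun i => A i p) '' {i | dI i = p}))
    (hB : ∀ q b, b ∈ Submodule.span (ZMod 2) ((fun i => B i q) '' {i | dJ i = q}))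
    {n : ℕ} {X X' : (P.tens Q).H n}
    (h : ∀ i j, dI i + dJ j = n →
      boxF n (A i (dI i)) (B j (dJ j)) X = boxF n (A i (dI i)) (B j (dJ j)) X') : X = X' := by
  have h01 : ∀ r : ZMod 2, r = 0 ∨ r = 1 := by decide
  have hzl : ∀ {p q : ℕ} (b : Module.Dual (ZMod 2) (Q.H q)),
      boxF n (0 : Module.Dual (ZMod 2) (P.H p)) b = 0 := by
    intro p q b
    have h1 := boxF_add_left (n := n) (0 : Module.Dual (ZMod 2) (P.H p)) 0 b
    rw [add_zero] at h1
    exact left_eq_add.1 h1
  have hzr : ∀ {p q : ℕ} (a : Module.Dual (ZMod 2) (P.H p)),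
      boxF n a (0 : Module.Dual (ZMod 2) (Q.H q)) = 0 := by
    intro p q a
    have h1 := boxF_add_right (n := n) a (0 : Module.Dual (ZMod 2) (Q.H q)) 0
    rw [add_zero] at h1
    exact left_eq_add.1 h1
  have key : ∀ (p q : ℕ), p + q = n → ∀ (a : Module.Dual (ZMod 2) (P.H p))
      (b : Module.Dual (ZMod 2) (Q.H q)), boxF n a b X = boxF n a b X' := by
    intro p q hpq a b
    have ha := hA p a
    have hb := hB q b
    induction ha using Submodule.span_induction with
    | mem a ha =>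
      obtain ⟨i, hi, rfl⟩ := ha
      obtain rfl : dI i = p := hi
      induction hb using Submodule.span_induction with
      | mem b hb =>
        obtain ⟨j, hj, rfl⟩ := hb
        obtain rfl : dJ j = q := hj
        exact h i j hpq
      | zero => rw [hzr, LinearMap.zero_apply, LinearMap.zero_apply]
      | add b b' _ _ hb hb' => rw [boxF_add_right, LinearMap.add_apply, LinearMap.add_apply, hb, hb']
      | smul r b _ hb =>
        rcases h01 r with rfl | rfl
        · rw [zero_smul, hzr, LinearMap.zero_apply, LinearMap.zero_apply]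
        · rw [one_smul, hb]
    | zero => rw [hzl, LinearMap.zero_apply, LinearMap.zero_apply]
    | add a a' _ _ ha ha' => rw [boxF_add_left, LinearMap.add_apply, LinearMap.add_apply, ha, ha']
    | smul r a _ ha =>
      rcases h01 r with rfl | rfl
      · rw [zero_smul, hzl, LinearMap.zero_apply, LinearMap.zero_apply]
      · rw [one_smul, ha]
  rw [← sub_eq_zero]
  refine (Module.forall_dual_apply_eq_zero_iff (ZMod 2) (X - X')).1 fun F => ?_
  rw [map_sub, sub_eq_zero]
  have hF := boxF_span hP hQ n F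
  induction hF using Submodule.span_induction with
  | mem F hF =>
    obtain ⟨p, q, hpq, a, b, rfl⟩ := hF
    exact key p q hpq a b
  | zero => rw [LinearMap.zero_apply, LinearMap.zero_apply]
  | add F F' _ _ h1 h2 => rw [LinearMap.add_apply, LinearMap.add_apply, h1, h2]
  | smul r F _ h1 => rw [LinearMap.smul_apply, LinearMap.smul_apply, h1]

section

variable {V : SV} {I : Type} {dg : I → ℕ} {z : I → CR V.ss}

private theorem A4V3_m_add (z : I → CR V.ss) (e e' : I →₀ ℕ) :
    ((e + e').prod fun i k => z i ^ k : CR V.ss) =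
      (e.prod fun i k => z i ^ k : CR V.ss) * (e'.prod fun i k => z i ^ k : CR V.ss) := by
  classical
  exact Finsupp.prod_add_index' (fun _ => pow_zero _) (fun _ _ _ => pow_add _ _ _)

private theorem A4V3_edeg_add (dg : I → ℕ) (e e' : I →₀ ℕ) :
    edeg dg (e + e') = edeg dg e + edeg dg e' := by
  classical
  exact Finsupp.sum_add_index' (fun _ => zero_mul _) (fun _ _ _ => add_mul _ _ _)

private theorem A4V3_edeg_zero (dg : I → ℕ) : edeg dg 0 = 0 := Finsupp.sum_zero_index

private theorem A4V3_edeg_pos (hpos : ∀ i, 1 ≤ dg i) {e : I →₀ ℕ} (he : e ≠ 0) :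
    1 ≤ edeg dg e := by
  obtain ⟨i, hi⟩ := Finsupp.ne_iff.1 he
  have h1 : e i ≠ 0 := hi
  have h2 : e i * dg i ≤ edeg dg e :=
    Finset.single_le_sum (f := fun i => e i * dg i) (fun _ _ => Nat.zero_le _)
      (Finsupp.mem_support_iff.2 h1)
  have h3 : 1 ≤ e i * dg i := Nat.mul_pos (Nat.pos_of_ne_zero h1) (hpos i)
  omega

private theorem A4V3_A (hpos : ∀ i, 1 ≤ dg i) (z : I → CR V.ss) (e : I →₀ ℕ) (d : ℕ) :
    ∃ a : RHc V d, (e ≠ 0 → edeg dg e = d →
      red V.zv d a = (e.prod fun i k => z i ^ k : CR V.ss) d) := by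
  by_cases h : e ≠ 0 ∧ edeg dg e = d
  · obtain ⟨a, ha⟩ := red_surj V.zv d (h.2 ▸ A4V3_edeg_pos hpos h.1)
      ((e.prod fun i k => z i ^ k : CR V.ss) d)
    exact ⟨a, fun _ _ => ha⟩
  · exact ⟨0, fun h1 h2 => absurd ⟨h1, h2⟩ h⟩

private theorem A4V3_unit : (1 : CR V.ss) 0 (vcls V.zv) = 1 := by
  rw [CR.one_zero]
  unfold vcls
  rw [Hc.unit_cls]
  exact Finsupp.sum_single_index rfl

/-- the coefficient of the unit vanishes -/
private theorem A4V3_c0 (hpos : ∀ i, 1 ≤ dg i) (z : I → CR V.ss) {d : ℕ} (a : RHc V d)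
    (c : (I →₀ ℕ) →₀ ZMod 2) (hc : ∀ e, c e ≠ 0 → edeg dg e = d)
    (hy : (c.sum fun e r => r • (e.prod fun i k => z i ^ k : CR V.ss) d) = red V.zv d a) :
    c 0 = 0 := by
  classical
  by_contra h0
  have hd := hc 0 h0
  rw [A4V3_edeg_zero] at hd
  subst hd
  have h1 : red V.zv 0 a (vcls V.zv) = 0 := (red_zero_iff V.zv _).1 ⟨a, rfl⟩
  rw [← hy, Finsupp.sum, LinearMap.sum_apply, Finset.sum_eq_single 0, Finsupp.prod_zero_index,
    LinearMap.smul_apply, A4V3_unit, smul_eq_mul, mul_one] at h1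
  · exact h0 h1
  · intro e he hne
    have h2 := hc e (Finsupp.mem_support_iff.1 he)
    have h3 := A4V3_edeg_pos hpos hne
    omega
  · intro h2
    exact absurd (Finsupp.mem_support_iff.2 h0) h2

private theorem A4V3_li (h : CPoly V.ss dg z) {A : (I →₀ ℕ) → ∀ d, RHc V d}
    (hA : ∀ e d, e ≠ 0 → edeg dg e = d →
      red V.zv d (A e d) = (e.prod fun i k => z i ^ k : CR V.ss) d) (d : ℕ) :
    LinearIndependent (ZMod 2) (fun e : {e : Lt I // Lt.deg dg e = d} => A e.1.1 d) := by
  apply LinearIndependent.of_comp (red V.zv d)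
  have h1 : LinearIndepOn (ZMod 2) (fun e : I →₀ ℕ =>
      ((e.prod fun i k => z i ^ k : CR V.ss) d : Hc V.ss d)) {e | edeg dg e = d} := by
    rw [linearIndepOn_iff]
    intro c hc h0
    rw [Finsupp.linearCombination_apply] at h0
    refine (h.bas d).1 c (fun e he => ?_) h0
    exact (Finsupp.mem_supported _ _).1 hc (Finsupp.mem_support_iff.2 he)
  have h2 : LinearIndependent (ZMod 2) (fun e : {e : Lt I // Lt.deg dg e = d} =>
      ((e.1.1.prod fun i k => z i ^ k : CR V.ss) d : Hc V.ss d)) :=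
    LinearIndependent.comp h1 (fun e : {e : Lt I // Lt.deg dg e = d} =>
      (⟨e.1.1, e.2⟩ : {e : I →₀ ℕ | edeg dg e = d})) (fun e e' hee => by
        have h3 := congrArg Subtype.val hee
        exact Subtype.ext (Subtype.ext h3))
  have h4 : (⇑(red V.zv d) ∘ fun e : {e : Lt I // Lt.deg dg e = d} => A e.1.1 d) =
      fun e : {e : Lt I // Lt.deg dg e = d} =>
        ((e.1.1.prod fun i k => z i ^ k : CR V.ss) d : Hc V.ss d) :=
    funext fun e => hA e.1.1 d e.1.2 e.2
  rw [h4]
  exact h2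

private theorem A4V3_sp (h : CPoly V.ss dg z) (hpos : ∀ i, 1 ≤ dg i)
    {A : (I →₀ ℕ) → ∀ d, RHc V d}
    (hA : ∀ e d, e ≠ 0 → edeg dg e = d →
      red V.zv d (A e d) = (e.prod fun i k => z i ^ k : CR V.ss) d) (d : ℕ) (a : RHc V d) :
    a ∈ Submodule.span (ZMod 2)
      (Set.range (fun e : {e : Lt I // Lt.deg dg e = d} => A e.1.1 d)) := by
  classical
  obtain ⟨c, hc, hy⟩ := (h.bas d).2 (red V.zv d a)
  have h0 := A4V3_c0 hpos z a c hc hy
  have hne : ∀ e ∈ c.support, e ≠ 0 := by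
    rintro e he rfl
    exact Finsupp.mem_support_iff.1 he h0
  have h1 : a = ∑ e ∈ c.support, c e • A e d := by
    apply red_injective V.zv d
    rw [map_sum, ← hy, Finsupp.sum]
    refine Finset.sum_congr rfl fun e he => ?_
    rw [map_smul, hA e d (hne e he) (hc e (Finsupp.mem_support_iff.1 he))]
  rw [h1]
  refine Submodule.sum_mem _ fun e he => Submodule.smul_mem _ _ (Submodule.subset_span ?_)
  exact ⟨⟨⟨e, hne e he⟩, hc e (Finsupp.mem_support_iff.1 he)⟩, rfl⟩

/-- products of the classes -/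
private theorem A4V3_cup (h : CPoly V.ss dg z)
    {A : (I →₀ ℕ) → ∀ d, RHc V d}
    (hA : ∀ e d, e ≠ 0 → edeg dg e = d →
      red V.zv d (A e d) = (e.prod fun i k => z i ^ k : CR V.ss) d) {e₁ e₂ : I →₀ ℕ}
    (h₁ : e₁ ≠ 0) (h₂ : e₂ ≠ 0) (d : ℕ) (hd : edeg dg e₁ + edeg dg e₂ = d) :
    cupR d (A e₁ (edeg dg e₁)) (A e₂ (edeg dg e₂)) = A (e₁ + e₂) d := by
  apply red_injective V.zv d
  have hne : e₁ + e₂ ≠ 0 := fun h0 => h₁ (add_eq_zero.1 h0).1
  rw [red_cupR, hA e₁ _ h₁ rfl, hA e₂ _ h₂ rfl, hA (e₁ + e₂) d hne (by rw [A4V3_edeg_add, hd]),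
    A4V3_m_add, CR.mul_apply, Finset.sum_eq_single (edeg dg e₁)]
  · obtain rfl : d = edeg dg e₁ + edeg dg e₂ := hd.symm
    rw [Nat.add_sub_cancel_left]
  · intro k _ hk
    rw [h.hom e₁ k hk, cup_zero_left]
  · intro h0
    exact absurd (Finset.mem_range.2 (by omega)) h0

end

theorem exists_CB {V : SV} {I : Type} {dg : I → ℕ} {z : I → CR V.ss} (h : CPoly V.ss dg z)
    (hpos : ∀ i, 1 ≤ dg i) (hfin : ∀ k, {i | dg i = k}.Finite) :
    ∃ y : (I →₀ ℕ) → ∀ d, (RV V).H d, IsCB V I dg y ∧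
      ∀ (e e' : Lt I) (d : ℕ), Lt.deg dg e = d → Lt.deg dg e' = d → ∀ a : RHc V d,
        red V.zv d a = (e.1.prod fun i k => z i ^ k : CR V.ss) d →
        a (y e'.1 d) = open Classical in if e = e' then 1 else 0 := by
  classical
  choose A hA using fun e d => A4V3_A hpos z e d
  have hA' : ∀ e d, e ≠ 0 → edeg dg e = d →
      red V.zv d (A e d) = (e.prod fun i k => z i ^ k : CR V.ss) d := fun e d => hA e d
  have hli := A4V3_li h hA'
  have hsp := A4V3_sp h hpos hA'
  have hFin : ∀ d, Finite {e : Lt I // Lt.deg dg e = d} := by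
    intro d
    have h1 : Finite {e : I →₀ ℕ | edeg dg e = d} := (h.fin d).to_subtype
    exact Finite.of_injective (fun e : {e : Lt I // Lt.deg dg e = d} =>
      (⟨e.1.1, e.2⟩ : {e : I →₀ ℕ | edeg dg e = d})) (fun e e' hee =>
        Subtype.ext (Subtype.ext (congrArg (fun x : {e : I →₀ ℕ | edeg dg e = d} => x.1) hee)))
  set bA : ∀ d, Module.Basis {e : Lt I // Lt.deg dg e = d} (ZMod 2) (RHc V d) := fun d =>
    Module.Basis.mk (hli d) (fun a _ => hsp d a) with hbA
  have hbA1 : ∀ d e, bA d e = A e.1.1 d := by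
    intro d e
    rw [hbA]
    exact Module.Basis.mk_apply _ _ _
  have hfD : ∀ d, Module.Finite (ZMod 2) (RHc V d) := fun d => Module.Finite.of_basis (bA d)
  have hfH : ∀ d, Module.Finite (ZMod 2) ((RV V).H d) := fun d =>
    (Module.finite_dual_iff (ZMod 2)).1 (hfD d)
  set yb : ∀ d, Module.Basis {e : Lt I // Lt.deg dg e = d} (ZMod 2) ((RV V).H d) := fun d =>
    (bA d).dualBasis.map (Module.evalEquiv (ZMod 2) ((RV V).H d)).symm with hyb
  have hpair : ∀ d (e e' : {e : Lt I // Lt.deg dg e = d}),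
      A e.1.1 d (yb d e') = if e = e' then 1 else 0 := by
    intro d e e'
    have h1 : ∀ (ψ : Module.Dual (ZMod 2) (Module.Dual (ZMod 2) ((RV V).H d)))
        (φ : Module.Dual (ZMod 2) ((RV V).H d)),
        φ ((Module.evalEquiv (ZMod 2) ((RV V).H d)).symm ψ) = ψ φ := by
      intro ψ φ
      have h2 := (Module.evalEquiv (ZMod 2) ((RV V).H d)).apply_symm_apply ψ
      exact LinearMap.congr_fun h2 φ
    have h3 := h1 ((bA d).dualBasis e') (A e.1.1 d)
    have h4 : yb d e' = (Module.evalEquiv (ZMod 2) ((RV V).H d)).symm ((bA d).dualBasis e') := by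
      rw [hyb]
      exact Module.Basis.map_apply _ _ _
    rw [h4]
    refine h3.trans ?_
    rw [← hbA1 d e, Module.Basis.dualBasis_apply_self]
  set Y : (I →₀ ℕ) → ∀ d, (RV V).H d := fun e d =>
    if he : e ≠ 0 ∧ edeg dg e = d then yb d ⟨⟨e, he.1⟩, he.2⟩ else 0 with hY
  have hY0 : ∀ d, Y 0 d = 0 := fun d => dif_neg fun h0 => h0.1 rfl
  have hY1 : ∀ d (x : {e : Lt I // Lt.deg dg e = d}), Y x.1.1 d = yb d x := fun d x =>
    dif_pos ⟨x.1.2, x.2⟩
  have hYp : ∀ d (e e' : I →₀ ℕ), e ≠ 0 → edeg dg e = d → e' ≠ 0 → edeg dg e' = d →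
      A e d (Y e' d) = if e = e' then 1 else 0 := by
    intro d e e' h1 h2 h3 h4
    have h5 := hY1 d ⟨⟨e', h3⟩, h4⟩
    have h6 := hpair d ⟨⟨e, h1⟩, h2⟩ ⟨⟨e', h3⟩, h4⟩
    rw [← h5] at h6
    refine h6.trans ?_
    by_cases h7 : e = e'
    · subst h7
      rw [if_pos rfl, if_pos rfl]
    · rw [if_neg h7, if_neg]
      intro h8
      exact h7 (congrArg (fun x : {e : Lt I // Lt.deg dg e = d} => x.1.1) h8)
  refine ⟨Y, ⟨hpos, hfin, hY0, fun d => ?_, fun d => ?_, fun e he => ?_⟩, ?_⟩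
  · have h1 : (fun e : {e : Lt I // Lt.deg dg e = d} => Y e.1.1 d) = yb d := funext (hY1 d)
    rw [h1]
    exact (yb d).linearIndependent
  · have h1 : (fun e : {e : Lt I // Lt.deg dg e = d} => Y e.1.1 d) = yb d := funext (hY1 d)
    rw [h1]
    exact (yb d).span_eq
  · set d := edeg dg e with hd
    refine A4V3_eq hfH hfH (dI := fun x : Lt I => edeg dg x.1) (dJ := fun x : Lt I => edeg dg x.1)
      (fun x p => A x.1 p) (fun x q => A x.1 q) (fun p a => ?_) (fun q b => ?_)
      (fun x x' hxx => ?_)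
    · have h1 := hsp p a
      have h2 : Set.range (fun e : {e : Lt I // Lt.deg dg e = p} => A e.1.1 p) =
          (fun x : Lt I => A x.1 p) '' {x | edeg dg x.1 = p} := by
        rw [Set.image_eq_range]
        rfl
      rwa [h2] at h1
    · have h1 := hsp q b
      have h2 : Set.range (fun e : {e : Lt I // Lt.deg dg e = q} => A e.1.1 q) =
          (fun x : Lt I => A x.1 q) '' {x | edeg dg x.1 = q} := by
        rw [Set.image_eq_range]
        rfl
      rwa [h2] at h1
    · obtain ⟨e₁, h₁⟩ := x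
      obtain ⟨e₂, h₂⟩ := x'
      have hne : e₁ + e₂ ≠ 0 := fun h0 => h₁ (add_eq_zero.1 h0).1
      have hL : boxF d (A e₁ (edeg dg e₁)) (A e₂ (edeg dg e₂)) (SV.Hmap (R.diag V.zv) d (Y e d)) =
          if e₁ + e₂ = e then 1 else 0 := by
        have h1 := A4V3_cup h hA' h₁ h₂ d hxx
        have h2 : cupR d (A e₁ (edeg dg e₁)) (A e₂ (edeg dg e₂)) (Y e d) =
            A (e₁ + e₂) d (Y e d) := by rw [h1]
        refine Eq.trans ?_ (h2.trans ?_)
        · rfl
        · exact hYp d (e₁ + e₂) e hne (by rw [A4V3_edeg_add]; exact hxx) he hd.symm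
      refine hL.trans ?_
      rw [map_sum]
      have hR : ∀ p ∈ Finset.HasAntidiagonal.antidiagonal e,
          boxF d (A e₁ (edeg dg e₁)) (A e₂ (edeg dg e₂))
            (crsH d (Y p.1 (edeg dg p.1)) (Y p.2 (edeg dg p.2))) =
          if p = (e₁, e₂) then 1 else 0 := by
        rintro ⟨p, q⟩ hp
        rw [Finset.HasAntidiagonal.mem_antidiagonal] at hp
        have hpq : p + q = e := hp
        have hdpq : edeg dg p + edeg dg q = d := by rw [← A4V3_edeg_add, hpq]
        show boxF d (A e₁ (edeg dg e₁)) (A e₂ (edeg dg e₂))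
            (crsH d (Y p (edeg dg p)) (Y q (edeg dg q))) = _
        by_cases h1 : edeg dg p = edeg dg e₁
        · have h2 : edeg dg q = edeg dg e₂ := by
            have : edeg dg e₁ + edeg dg e₂ = d := hxx
            omega
          rw [h1, h2, A4V3_box hxx]
          by_cases hp0 : p = 0
          · subst hp0
            rw [hY0, map_zero, zero_mul, if_neg]
            intro h3
            exact h₁ (congrArg Prod.fst h3).symm
          · by_cases hq0 : q = 0
            · subst hq0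
              rw [hY0, map_zero, mul_zero, if_neg]
              intro h3
              exact h₂ (congrArg Prod.snd h3).symm
            · rw [hYp _ e₁ p h₁ rfl hp0 h1, hYp _ e₂ q h₂ rfl hq0 h2]
              by_cases h3 : e₁ = p
              · by_cases h4 : e₂ = q
                · rw [if_pos h3, if_pos h4, if_pos (by rw [h3, h4]), mul_one]
                · rw [if_neg h4, mul_zero, if_neg]
                  intro h5
                  exact h4 (congrArg Prod.snd h5).symm
              · rw [if_neg h3, zero_mul, if_neg]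
                intro h5
                exact h3 (congrArg Prod.fst h5).symm
        · rw [A4V3_box_ne _ _ h1, if_neg]
          intro h3
          exact h1 (congrArg (fun x : (I →₀ ℕ) × (I →₀ ℕ) => edeg dg x.1) h3)
      rw [Finset.sum_congr rfl hR, Finset.sum_ite_eq']
      simp only [Finset.HasAntidiagonal.mem_antidiagonal]
  · intro e e' d h1 h2 a ha
    have h3 : a = A e.1 d := by
      apply red_injective V.zv d
      rw [ha, hA' e.1 d e.2 h1]
    rw [h3]
    refine (hYp d e.1 e'.1 e.2 h1 e'.2 h2).trans ?_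
    by_cases h4 : e = e'
    · rw [if_pos h4, if_pos (congrArg Subtype.val h4)]
    · rw [if_neg h4, if_neg]
      intro h5
      exact h4 (Subtype.ext h5)

end MM

end
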