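import Pool.Agent.Lib_MP_33f7bb_m.G16
import Pool.Agent.Lib_MP_33f7bb_m.G26

/-!
# MP_33f7bb_an, negative answer to Q1: merged library part G27

Concatenation of files of `Lib_MP_33f7bb_an` and `Lib_MP_33f7bb_d` (each in its own section), only to save build time.
-/

/-! ### from `Lib_MP_33f7bb_d.A4V4` -/

section

/-!
# A4-44: the module of indecomposables

`toQ_cupR`: a product vanishes on the primitives (definition of `PH` and `cupR`).
`toQ_zero`: if `toQ a = 0`, `a : RHc V n`, then `a` vanishes on `ker H(R.diag)`, so `a = F ∘ H(R.diag)` for a functional `F` on `H_n (RV ⊗ RV)`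
(extend from the range); `boxF_span`: `a` is a sum of products `cupR n b c` with `p + q = n`.
`descend`: Cartan formula and `toQ_cupR`.
`exists_QHData`: `am.M n = QH V n`, `Sq n m φ = toQ (S.on V n m a)` for any `a` with `toQ a = φ` (`toQ` is surjective:
`LinearMap.dualMap_surjective_of_injective` for the inclusion of `PH`), well defined by `descend`, linear; the axioms from `S.lt`, `S.id`, `S.unst`; `e` = identity.
(Use `LinearMap.quotKerEquivOfSurjective` or the lift of linear maps along the surjection `toQ`: `Submodule.liftQ` on `ker toQ`.)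
`PH_span`: `x ∈ PH V n` iff `copL (toL x) = 0` (`IsCB.mem_PH`), i.e. only the letters `ε_i` occur (`e` with `∑ e_i ≥ 2` has a splitting `e = ε_i + e''`, and
the coefficient of `copL c` at `(ε_i, e'')` is `c_e`).
`QH_span`, `QH_li`: `b i n` restricted to `PH V n`, `y (ε_j) n` is the dual basis (`pair`).
-/

open scoped TensorProduct

namespace MM

theorem toQ_surjective {V : SV} {n : ℕ} : Function.Surjective (toQ : RHc V n →ₗ[ZMod 2] QH V n) :=
  LinearMap.dualMap_surjective_of_injective (Submodule.subtype_injective (PH V n))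

theorem toQ_cupR {V : SV} {p q n : ℕ} (a : RHc V p) (b : RHc V q) :
    toQ (cupR n a b : RHc V n) = 0 := by
  apply LinearMap.ext
  rintro ⟨x, hx⟩
  show boxF n a b (SV.Hmap (R.diag V.zv) n x) = 0
  have h1 : SV.Hmap (R.diag V.zv) n x = 0 := hx
  rw [h1, map_zero]

theorem toQ_zero {V : SV} (hV : ∀ d, Module.Finite (ZMod 2) ((RV V).H d)) {n : ℕ} (a : RHc V n)
    (h : toQ a = 0) : a ∈ Submodule.span (ZMod 2) {c : RHc V n | ∃ (p q : ℕ) (_ : p + q = n)
      (b : RHc V p) (b' : RHc V q), c = cupR n b b'} := by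
  have h1 : a ∈ (LinearMap.ker (SV.Hmap (R.diag V.zv) n)).dualAnnihilator := by
    rw [Submodule.mem_dualAnnihilator]
    intro x hx
    exact LinearMap.congr_fun h ⟨x, hx⟩
  rw [← LinearMap.range_dualMap_eq_dualAnnihilator_ker] at h1
  obtain ⟨F, hF⟩ := h1
  have h2 := boxF_span hV hV n F
  have h3 : ∀ G : Module.Dual (ZMod 2) (((RV V).tens (RV V)).H n),
      G ∈ Submodule.span (ZMod 2) {G | ∃ (p q : ℕ) (_ : p + q = n)
        (a : Module.Dual (ZMod 2) ((RV V).H p)) (b : Module.Dual (ZMod 2) ((RV V).H q)),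
        G = boxF n a b} →
      (SV.Hmap (R.diag V.zv) n).dualMap G ∈ Submodule.span (ZMod 2) {c : RHc V n |
        ∃ (p q : ℕ) (_ : p + q = n) (b : RHc V p) (b' : RHc V q), c = cupR n b b'} := by
    intro G hG
    induction hG using Submodule.span_induction with
    | mem G hG =>
      obtain ⟨p, q, hpq, b, b', rfl⟩ := hG
      exact Submodule.subset_span ⟨p, q, hpq, b, b', rfl⟩
    | zero =>
      rw [map_zero]
      exact Submodule.zero_mem _
    | add u v _ _ hu hv =>
      rw [map_add]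
      exact Submodule.add_mem _ hu hv
    | smul r u _ hu =>
      rw [map_smul]
      exact Submodule.smul_mem _ r hu
  rw [← hF]
  exact h3 F h2

theorem descend (S : SqFam) {V : SV} (hV : ∀ d, Module.Finite (ZMod 2) ((RV V).H d)) (n m : ℕ)
    (a : RHc V n) (h : toQ a = 0) : toQ (S.on V n m a) = 0 := by
  have h1 := toQ_zero hV a h
  clear h
  induction h1 using Submodule.span_induction with
  | mem c hc =>
    obtain ⟨p, q, hpq, b, b', rfl⟩ := hc
    show toQ (S.op V.ss V.zv n m (cupR n b b')) = 0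
    rw [S.cartan V.ss V.zv p q n m hpq b b', map_sum]
    exact Finset.sum_eq_zero fun k _ => toQ_cupR _ _
  | zero => rw [map_zero, map_zero]
  | add u v _ _ hu hv => rw [map_add, map_add, hu, hv, add_zero]
  | smul r u _ hu => rw [map_smul, map_smul, hu, smul_zero]

theorem exists_QHData (S : SqFam) (V : SV) (hV : ∀ d, Module.Finite (ZMod 2) ((RV V).H d)) :
    Nonempty (QHData S V) := by
  have hsec : ∀ n, ∃ s : QH V n →ₗ[ZMod 2] RHc V n,
      (toQ : RHc V n →ₗ[ZMod 2] QH V n).comp s = LinearMap.id := fun n =>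
    LinearMap.exists_rightInverse_of_surjective _ (LinearMap.range_eq_top.2 toQ_surjective)
  choose s hs using hsec
  have hs' : ∀ n (φ : QH V n), toQ (s n φ) = φ := fun n φ => LinearMap.congr_fun (hs n) φ
  have key : ∀ (n m : ℕ) (a : RHc V n), toQ (S.on V n m (s n (toQ a))) = toQ (S.on V n m a) := by
    intro n m a
    have h1 : toQ (s n (toQ a) - a) = 0 := by
      rw [map_sub, hs', sub_self]
    have h2 := descend S hV n m _ h1
    rw [map_sub, map_sub, sub_eq_zero] at h2
    exact h2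
  refine ⟨{ am := { M := fun n => QH V n, Sq := fun n m => toQ.comp ((S.on V n m).comp (s n)),
                    Sq_lt := ?_, Sq_id := ?_, unst := ?_ },
            e := fun n => LinearEquiv.refl _ _, comm := ?_ }⟩
  · intro n m h
    apply LinearMap.ext
    intro φ
    show toQ (S.op V.ss V.zv n m (s n φ)) = 0
    rw [S.lt V.ss V.zv n m h, LinearMap.zero_apply, map_zero]
  · intro n
    apply LinearMap.ext
    intro φ
    show toQ (S.op V.ss V.zv n n (s n φ)) = φ
    rw [S.id V.ss V.zv n, LinearMap.id_apply, hs']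
  · intro n m h
    apply LinearMap.ext
    intro φ
    show toQ (S.op V.ss V.zv n m (s n φ)) = 0
    rw [S.unst V.ss V.zv n m h, LinearMap.zero_apply, map_zero]
  · intro n m a
    exact key n m a

private theorem A4V4_fin {I : Type} {dg : I → ℕ} (hpos : ∀ i, 1 ≤ dg i)
    (hfin : ∀ k, {i | dg i = k}.Finite) (d : ℕ) : Finite {e : Lt I // Lt.deg dg e = d} := by
  classical
  have hT : {i | dg i ≤ d}.Finite := by
    have h1 : {i | dg i ≤ d} ⊆ ⋃ k ∈ Finset.range (d + 1), {i | dg i = k} := by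
      intro i hi
      rw [Set.mem_iUnion₂]
      exact ⟨dg i, Finset.mem_range.2 (Nat.lt_succ_of_le hi), rfl⟩
    exact Set.Finite.subset (Set.Finite.biUnion (Finset.finite_toSet _) fun k _ => hfin k) h1
  have h2 : (Set.range fun e : {e : Lt I // Lt.deg dg e = d} => e.1.1) ⊆
      ↑(Finset.finsupp hT.toFinset fun _ => Finset.range (d + 1)) := by
    rintro _ ⟨⟨⟨e, he⟩, hd⟩, rfl⟩
    have hle : ∀ i ∈ e.support, e i * dg i ≤ d := by
      intro i hi
      have h3 : e i * dg i ≤ ∑ j ∈ e.support, e j * dg j :=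
        Finset.single_le_sum (f := fun j => e j * dg j) (fun _ _ => Nat.zero_le _) hi
      have h4 : ∑ j ∈ e.support, e j * dg j = d := hd
      omega
    rw [Finset.mem_coe, Finset.mem_finsupp_iff]
    refine ⟨fun i hi => ?_, fun i hi => ?_⟩
    · rw [Set.Finite.mem_toFinset]
      show dg i ≤ d
      have h5 := hle i hi
      have h6 : 1 ≤ e i := Nat.one_le_iff_ne_zero.2 (Finsupp.mem_support_iff.1 hi)
      calc dg i = 1 * dg i := (one_mul _).symm
        _ ≤ e i * dg i := Nat.mul_le_mul_right _ h6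
        _ ≤ d := h5
    · rw [Finset.mem_range]
      show e i < d + 1
      by_cases h7 : i ∈ e.support
      · have h5 := hle i h7
        have h6 : e i ≤ e i * dg i := Nat.le_mul_of_pos_right _ (hpos i)
        omega
      · rw [Finsupp.notMem_support_iff] at h7
        rw [h7]
        omega
  have h3 : (Set.range fun e : {e : Lt I // Lt.deg dg e = d} => e.1.1).Finite :=
    Set.Finite.subset (Finset.finite_toSet _) h2
  exact (Set.finite_range_iff (Subtype.val_injective.comp Subtype.val_injective)).1 h3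

private theorem A4V4_deg_eps {I : Type} (dg : I → ℕ) (i : I) : Lt.deg dg (Lt.eps i) = dg i := by
  show (Finsupp.single i 1).sum (fun i n => n * dg i) = dg i
  rw [Finsupp.sum_single_index (zero_mul _), one_mul]

private theorem A4V4_b_eps {V : SV} {I : Type} {dg : I → ℕ} {y : (I →₀ ℕ) → ∀ d, (RV V).H d}
    (h : IsCB V I dg y) {n : ℕ} (i : I) (hi : Lt.deg dg (Lt.eps i) = n) :
    h.grB.b n ⟨Lt.eps i, hi⟩ = y (Finsupp.single i 1) n := by
  show Module.Basis.mk (h.li n) (h.sp n).ge ⟨Lt.eps i, hi⟩ = _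
  rw [Module.Basis.mk_apply]
  rfl

theorem IsCB.finite_H {V : SV} {I : Type} {dg : I → ℕ} {y : (I →₀ ℕ) → ∀ d, (RV V).H d}
    (h : IsCB V I dg y) (d : ℕ) : Module.Finite (ZMod 2) ((RV V).H d) := by
  have h1 := A4V4_fin h.pos h.fin d
  exact Module.Finite.of_basis (h.grB.b d)

theorem PH_span {V : SV} {I : Type} {dg : I → ℕ} {y : (I →₀ ℕ) → ∀ d, (RV V).H d}
    (h : IsCB V I dg y) (n : ℕ) :
    PH V n = Submodule.span (ZMod 2)
      {x | ∃ i, dg i = n ∧ x = y (Finsupp.single i 1) n} := by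
  apply le_antisymm
  · intro x hx
    have h1 := (h.mem_PH n x).1 hx
    have h2 := em_pr h1
    rw [← h.grB.ofL_toL n x, ← h2]
    generalize Lt.pr (h.grB.toL n x) = c
    induction c using Finsupp.induction_linear with
    | zero =>
      rw [map_zero, map_zero]
      exact Submodule.zero_mem _
    | add u v hu hv =>
      rw [map_add, map_add]
      exact Submodule.add_mem _ hu hv
    | single i r =>
      have h3 : Lt.em (Finsupp.single i r) = (Finsupp.single (Lt.eps i) r : Lt I →₀ ZMod 2) :=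
        Finsupp.mapDomain_single
      rw [h3]
      unfold GrB.ofL
      rw [Finsupp.linearCombination_single]
      split_ifs with hd
      · rw [A4V4_b_eps h i hd]
        exact Submodule.smul_mem _ _ (Submodule.subset_span
          ⟨i, by rw [← hd, A4V4_deg_eps], rfl⟩)
      · rw [smul_zero]
        exact Submodule.zero_mem _
  · rw [Submodule.span_le]
    rintro x ⟨i, hi, rfl⟩
    have hd : Lt.deg dg (Lt.eps i) = n := by rw [A4V4_deg_eps, hi]
    show y (Finsupp.single i 1) n ∈ PH V n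
    rw [h.mem_PH, ← A4V4_b_eps h i hd, GrB.toL_b]
    have h3 : Lt.em (Finsupp.single i 1) = (Finsupp.single (Lt.eps i) 1 : Lt I →₀ ZMod 2) :=
      Finsupp.mapDomain_single
    rw [← h3, copL_em]

variable {V : SV} {I : Type} {dg : I → ℕ} {z : I → CR V.ss}

/-- the dual bases of the primitives and the indecomposables -/
private theorem A4V4_dual (h : CPoly V.ss dg z) (hpos : ∀ i, 1 ≤ dg i)
    (hfin : ∀ k, {i | dg i = k}.Finite) (b : I → ∀ n, RHc V n)
    (hb : ∀ i n, red V.zv n (b i n) = z i n) (n : ℕ) :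
    ∃ w : I → (RV V).H n, (∀ i, dg i = n → w i ∈ PH V n) ∧
      (∀ x ∈ PH V n, x ∈ Submodule.span (ZMod 2) {x | ∃ i, dg i = n ∧ x = w i}) ∧
      (∀ i, dg i = n → b i n (w i) = 1) ∧
      ∀ i j, dg i = n → dg j = n → i ≠ j → b i n (w j) = 0 := by
  classical
  obtain ⟨y, hy, hp⟩ := exists_CB h hpos hfin
  have hred : ∀ i, red V.zv n (b i n) =
      ((Lt.eps i).1.prod fun i k => z i ^ k : CR V.ss) n := by
    intro i
    have h2 : ((Lt.eps i).1.prod fun i k => z i ^ k : CR V.ss) = z i := by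
      show (Finsupp.single i 1).prod (fun i k => z i ^ k) = z i
      exact (Finsupp.prod_single_index (h := fun i k => z i ^ k) (pow_zero (z i))).trans
        (pow_one (z i))
    rw [h2]
    exact hb i n
  have hval : ∀ i j, dg i = n → dg j = n →
      b i n (y (Finsupp.single j 1) n) = if Lt.eps i = Lt.eps j then 1 else 0 := by
    intro i j hi hj
    have h1 := hp (Lt.eps i) (Lt.eps j) n (by rw [A4V4_deg_eps, hi]) (by rw [A4V4_deg_eps, hj])
      (b i n) (hred i)
    rw [show y (Finsupp.single j 1) n = y (Lt.eps j).1 n from rfl, h1]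
  refine ⟨fun i => y (Finsupp.single i 1) n, ?_, ?_, ?_, ?_⟩
  · intro i hi
    rw [PH_span hy n]
    exact Submodule.subset_span ⟨i, hi, rfl⟩
  · intro x hx
    rw [PH_span hy n] at hx
    exact hx
  · intro i hi
    show b i n (y (Finsupp.single i 1) n) = 1
    rw [hval i i hi hi, if_pos rfl]
  · intro i j hi hj hij
    show b i n (y (Finsupp.single j 1) n) = 0
    rw [hval i j hi hj, if_neg fun h' => hij (Lt.eps_injective h')]

theorem QH_span (h : CPoly V.ss dg z) (hpos : ∀ i, 1 ≤ dg i) (hfin : ∀ k, {i | dg i = k}.Finite)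
    (b : I → ∀ n, RHc V n) (hb : ∀ i n, red V.zv n (b i n) = z i n) (n : ℕ) :
    Submodule.span (ZMod 2) (Set.range fun i => toQ (b i n)) = (⊤ : Submodule (ZMod 2) (QH V n)) := by
  classical
  obtain ⟨w, hw, hsp, h1, h0⟩ := A4V4_dual h hpos hfin b hb n
  rw [eq_top_iff]
  rintro φ -
  let T : Finset {i // i ∈ (hfin n).toFinset} := Finset.univ
  have hT : ∀ i : {i // i ∈ (hfin n).toFinset}, dg i.1 = n := fun i => by
    have h2 := i.2
    rw [Set.Finite.mem_toFinset] at h2
    exact h2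
  have hφ : φ = ∑ i ∈ T, φ ⟨w i.1, hw i.1 (hT i)⟩ • toQ (b i.1 n) := by
    apply LinearMap.ext
    rintro ⟨x, hx⟩
    have key : ∀ x, x ∈ Submodule.span (ZMod 2) {x | ∃ i, dg i = n ∧ x = w i} →
        ∀ hx : x ∈ PH V n, φ ⟨x, hx⟩ =
          (∑ i ∈ T, φ ⟨w i.1, hw i.1 (hT i)⟩ • toQ (b i.1 n) : QH V n) ⟨x, hx⟩ := by
      intro x hx
      have hle : Submodule.span (ZMod 2) {x | ∃ i, dg i = n ∧ x = w i} ≤ PH V n := by
        rw [Submodule.span_le]
        rintro x ⟨i, hi, rfl⟩
        exact hw i hi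
      induction hx using Submodule.span_induction with
      | mem x hx =>
        obtain ⟨j, hj, rfl⟩ := hx
        intro hx'
        rw [LinearMap.sum_apply, Finset.sum_eq_single
          (⟨j, (Set.Finite.mem_toFinset _).2 hj⟩ : {i // i ∈ (hfin n).toFinset})]
        · rw [LinearMap.smul_apply]
          show _ = φ ⟨w j, _⟩ * b j n (w j)
          rw [h1 j hj, mul_one]
        · intro i _ hij
          rw [LinearMap.smul_apply]
          show φ ⟨w i.1, _⟩ * b i.1 n (w j) = 0
          rw [h0 i.1 j (hT i) hj fun h' => hij (Subtype.ext h'), mul_zero]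
        · intro h'
          exact absurd (Finset.mem_univ _) h'
      | zero =>
        intro hx'
        have h2 : (⟨0, hx'⟩ : PH V n) = 0 := rfl
        rw [h2, map_zero, map_zero]
      | add u v hu hv hu' hv' =>
        intro hx'
        have h2 : (⟨u + v, hx'⟩ : PH V n) = ⟨u, hle hu⟩ + ⟨v, hle hv⟩ := rfl
        rw [h2, map_add, map_add, hu', hv']
      | smul r u hu hu' =>
        intro hx'
        have h2 : (⟨r • u, hx'⟩ : PH V n) = r • ⟨u, hle hu⟩ := rfl
        rw [h2, map_smul, map_smul, hu']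
    exact key x (hsp x hx) hx
  rw [hφ]
  exact Submodule.sum_mem _ fun i _ => Submodule.smul_mem _ _ (Submodule.subset_span ⟨i.1, rfl⟩)

theorem QH_li (h : CPoly V.ss dg z) (hpos : ∀ i, 1 ≤ dg i) (hfin : ∀ k, {i | dg i = k}.Finite)
    (b : I → ∀ n, RHc V n) (hb : ∀ i n, red V.zv n (b i n) = z i n) (n : ℕ) (c : I →₀ ZMod 2)
    (hc : ∀ i, c i ≠ 0 → dg i = n) (h0 : (c.sum fun i r => r • toQ (b i n)) = 0) : c = 0 := by
  classical
  obtain ⟨w, hw, -, h1, h2⟩ := A4V4_dual h hpos hfin b hb n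
  ext j
  by_contra hj
  rw [Finsupp.zero_apply] at hj
  have hdj := hc j hj
  have h3 := LinearMap.congr_fun h0 ⟨w j, hw j hdj⟩
  rw [Finsupp.sum, LinearMap.sum_apply, Finset.sum_eq_single j] at h3
  · rw [LinearMap.smul_apply] at h3
    have h4 : c j * b j n (w j) = 0 := h3
    rw [h1 j hdj, mul_one] at h4
    exact hj h4
  · intro i hi hij
    rw [LinearMap.smul_apply]
    show c i * b i n (w j) = 0
    rw [h2 i j (hc i (Finsupp.mem_support_iff.1 hi)) hdj hij, mul_zero]
  · intro h'
    exact absurd (Finsupp.mem_support_iff.2 hj) h'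

end MM

end

/-! ### from `Lib_MP_33f7bb_d.A4V5` -/

section

/-!
# A4-45: the indecomposables as a suspension of a sum of `E(n)`'s; generation

Data from `S2_poly`: `a : L → ℕ`, `g l : V → KL (a l + 1)`, `CPoly` for `z_(l,b) = (g l)^* zC (consO b)`.  `Θ_l : E(a l + 1) → RAM(KL (a l + 1))`
(`exists_Theta`), `G_l = RAM.map (g l)`.
`lamE l n : E(a l + 1)^n → QH V n`, `c ↦ toQ ((g l)^* (Θ_l c))`; it commutes with the operations in the sense of `D.comm` and
`lamE (Sq0-image) = 0`: `Θ_l (Sq d (2 d) c') = S.op d (2 d) (Θ_l c') = cupR (Θ_l c') (Θ_l c')` (`S.top`, naturality of `cupR`), `toQ_cupR`.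
`exists_susp`: for `c ∈ E(a l)^n` choose `c' ∈ E(a l + 1)^(n+1)` with `coef c' = c` (`EAM.coef_surj`); `toQ ((g l)^* Θ_l c')` does not depend on the choice
(`EAM.coef_ker`: two choices differ by `0` or by `Sq d' (n+1) c''`, `2 d' = n + 1`).  Linear, compatible with the operations (`EAM.coef_comm`); sum over `l`
(`DFinsupp.lsum`/`DFinsupp.coprodMap`).  It maps `orbM b ∈ E(a l)^n`, `wtO b = n`, to `toQ ((g l)^* zR (consO b))` (`coef (orbM (consO b)) = orbM b`,
`exists_Theta`), and these are a basis of `QH V (n+1)` (`QH_span`, `QH_li` with `b (l,b) m` = `(g l)^* zR (consO b)` for `m = wtO b + 1`, else `0`), while the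
`orbM b`, `wtO b = n`, `l ∈ L`, are a basis of `⊕_l E(a l)^n` (`EE_eq_sum`, `orbM_li`).  So it is bijective; compose with `(D.e (n+1)).symm`.
`zero`: `D.am.M 0 ≅ QH V 0 = 0` (`QH_span`: all generators have degree `≥ 1`, so `toQ (b i 0) = toQ 0 = 0` as `red` is injective and `z i 0 = 0`).
`exists_gen`: `N` closed under the operations and containing the `toQ (fundC lam)`.  `fundC (KLe (a l + 1) n ∘ H_n (g l)) = (g l)^* (fundC (KLe (a l + 1) n))`
(`muV ∘ R(g) = g ∘ muV`), for `n = a l + 1` this is `(g l)^* iotaK`.  The set of `c ∈ E(a l + 1)^n` with `(D.e n).symm (toQ ((g l)^* Θ_l c)) ∈ N n` is closed under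
the operations and contains `x_1 ⋯ x_(a l + 1)`, so it is everything (`EAM_gen`); in particular all `toQ ((g l)^* zR (consO b))` are in `N`, and these
span (`QH_span`).
-/

open scoped TensorProduct

namespace MM

private noncomputable def A4V5_Th (S : SqFam) (n : ℕ) : AMHom (EAM n) (RAM S (KL n).ss (KL n).zv) :=
  Classical.choose (exists_Theta S n)

private theorem A4V5_Th_gen (S : SqFam) (n : ℕ) :
    (A4V5_Th S n).app n (EAM.gen n) = iotaK n :=
  (Classical.choose_spec (exists_Theta S n)).1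

private theorem A4V5_Th_orb (S : SqFam) {n : ℕ} (b : Orb n) :
    (A4V5_Th S n).app (wtO b) (⟨orbM b, orbM_mem b rfl⟩ : EE n (wtO b)) = zR S b :=
  (Classical.choose_spec (exists_Theta S n)).2 b

private theorem A4V5_pt {V : SV} {n : ℕ} (φ : SVHom V (KL n)) :
    φ.toHom.app 0 V.zv = (KL n).zv := map_zero (φ.app 0)

/-- the orbit sum as an element of `E(n)` -/
private noncomputable def A4V5_o {n : ℕ} (b : Orb n) (d : ℕ) (hb : wtO b = d) : (EAM n).M d :=
  (⟨orbM b, orbM_mem b hb⟩ : EE n d)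

/-- the pull back of `Θ c` -/
private noncomputable def A4V5_pull (S : SqFam) {V : SV} {n : ℕ} (φ : SVHom V (KL n)) :
    AMHom (EAM n) (RAM S V.ss V.zv) :=
  ⟨fun d => ((RAM.map S V.zv (KL n).zv φ.toHom (A4V5_pt φ)).app d).comp
      ((A4V5_Th S n).app d), fun d m c => by
    rw [LinearMap.comp_apply, LinearMap.comp_apply, (A4V5_Th S n).comm,
      (RAM.map S V.zv (KL n).zv φ.toHom (A4V5_pt φ)).comm]⟩

private noncomputable def A4V5_q (S : SqFam) {V : SV} {n : ℕ} (φ : SVHom V (KL n)) (d : ℕ) :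
    (EAM n).M d →ₗ[ZMod 2] RHc V d := (A4V5_pull S φ).app d

private theorem A4V5_q_comm (S : SqFam) {V : SV} {n : ℕ} (φ : SVHom V (KL n)) (d m : ℕ)
    (c : (EAM n).M d) : A4V5_q S φ m ((EAM n).Sq d m c) = S.on V d m (A4V5_q S φ d c) :=
  (A4V5_pull S φ).comm d m c

private theorem A4V5_fund {V : SV} {n : ℕ} (φ : SVHom V (KL n)) (lam : Module.Dual (ZMod 2) ((KL n).H n)) :
    (fundC lam).comp (SV.Hmap (R.map V.zv (KL n).zv φ.toHom (A4V5_pt φ)) n) =
      fundC (lam.comp (SV.Hmap φ n)) := by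
  have h1 : (muV (KL n)).comp (R.map V.zv (KL n).zv φ.toHom (A4V5_pt φ)) =
      φ.comp (muV V) := by
    apply R.ext
    intro m x
    show (muV (KL n)).app m ((R.map V.zv (KL n).zv φ.toHom (A4V5_pt φ)).app m
      ((R.of V.zv).app m x)) = φ.app m ((muV V).app m ((R.of V.zv).app m x))
    rw [R.map_of, muV_of, muV_of]
    rfl
  refine LinearMap.ext fun x => ?_
  show lam (SV.Hmap (muV (KL n)) n (SV.Hmap (R.map V.zv (KL n).zv φ.toHom (A4V5_pt φ)) n x)) =
    lam (SV.Hmap φ n (SV.Hmap (muV V) n x))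
  rw [← SV.Hmap_comp, ← SV.Hmap_comp, h1]

private theorem A4V5_q_gen (S : SqFam) {V : SV} {n : ℕ} (φ : SVHom V (KL n)) :
    A4V5_q S φ n (EAM.gen n) = fundC ((KLev n).comp (SV.Hmap φ n)) := by
  rw [← A4V5_fund φ (KLev n)]
  show ((A4V5_Th S n).app n (EAM.gen n) : RHc (KL n) n).comp
    (SV.Hmap (R.map V.zv (KL n).zv φ.toHom (A4V5_pt φ)) n) = _
  rw [A4V5_Th_gen]
  rfl

section A4V5_aux

variable {S : SqFam} {V : SV} (D : QHData S V)

/-- `c ↦ toQ (φ^* (Θ c))` as a map of unstable modules -/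
private noncomputable def A4V5_hom {n : ℕ} (φ : SVHom V (KL n)) : AMHom (EAM n) D.am :=
  ⟨fun d => (D.e d).symm.toLinearMap.comp (toQ.comp (A4V5_q S φ d)), fun d m c => by
    show (D.e m).symm (toQ (A4V5_q S φ m ((EAM n).Sq d m c))) =
      D.am.Sq d m ((D.e d).symm (toQ (A4V5_q S φ d c)))
    rw [A4V5_q_comm, LinearEquiv.symm_apply_eq, D.comm]⟩

private theorem A4V5_hom_apply {n : ℕ} (φ : SVHom V (KL n)) (d : ℕ) (c : (EAM n).M d) :
    (A4V5_hom D φ).app d c = (D.e d).symm (toQ (A4V5_q S φ d c)) := rfl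

private theorem A4V5_hom_gen {n : ℕ} (φ : SVHom V (KL n)) :
    (A4V5_hom D φ).app n (EAM.gen n) =
      (D.e n).symm (toQ (fundC ((KLev n).comp (SV.Hmap φ n)))) := by
  rw [A4V5_hom_apply, A4V5_q_gen]

private theorem A4V5_hom_top {n : ℕ} (φ : SVHom V (KL n)) (d e : ℕ) (he : 2 * d = e)
    (c : (EAM n).M d) : (A4V5_hom D φ).app e ((EAM n).Sq d e c) = 0 := by
  subst he
  rw [A4V5_hom_apply, A4V5_q_comm]
  have h1 : S.on V d (2 * d) (A4V5_q S φ d c) = cupR (2 * d) (A4V5_q S φ d c) (A4V5_q S φ d c) :=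
    S.top _ _ _ _
  rw [h1, toQ_cupR, map_zero]

private theorem A4V5_ker {n : ℕ} (φ : SVHom V (KL (n + 1))) (d : ℕ) :
    LinearMap.ker (EAM.coef n d) ≤ LinearMap.ker ((A4V5_hom D φ).app (d + 1)) := by
  intro c hc
  rw [LinearMap.mem_ker] at hc ⊢
  rcases EAM.coef_ker n d c hc with h | ⟨d', hd', c', h⟩
  · rw [h, map_zero]
  · rw [← h]
    exact A4V5_hom_top D φ d' (d + 1) hd' c'

/-- the desuspended map -/
private noncomputable def A4V5_sus {n : ℕ} (φ : SVHom V (KL (n + 1))) (d : ℕ) :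
    (EAM n).M d →ₗ[ZMod 2] D.am.M (d + 1) :=
  ((LinearMap.ker (EAM.coef n d)).liftQ ((A4V5_hom D φ).app (d + 1)) (A4V5_ker D φ d)).comp
    (LinearMap.quotKerEquivOfSurjective (EAM.coef n d) (EAM.coef_surj n d)).symm.toLinearMap

private theorem A4V5_sus_coef {n : ℕ} (φ : SVHom V (KL (n + 1))) (d : ℕ)
    (c : (EAM (n + 1)).M (d + 1)) :
    A4V5_sus D φ d (EAM.coef n d c) = (A4V5_hom D φ).app (d + 1) c := by
  have h1 : (LinearMap.quotKerEquivOfSurjective (EAM.coef n d) (EAM.coef_surj n d)).symm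
      (EAM.coef n d c) = Submodule.Quotient.mk c := by
    rw [LinearEquiv.symm_apply_eq]
    rfl
  show (LinearMap.ker (EAM.coef n d)).liftQ ((A4V5_hom D φ).app (d + 1)) (A4V5_ker D φ d)
    ((LinearMap.quotKerEquivOfSurjective (EAM.coef n d) (EAM.coef_surj n d)).symm
      (EAM.coef n d c)) = _
  rw [h1]
  rfl

private theorem A4V5_sus_comm {n : ℕ} (φ : SVHom V (KL (n + 1))) (d m : ℕ) (c : (EAM n).M d) :
    A4V5_sus D φ m ((EAM n).Sq d m c) = D.am.Sq (d + 1) (m + 1) (A4V5_sus D φ d c) := by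
  obtain ⟨c', rfl⟩ := EAM.coef_surj n d c
  rw [← EAM.coef_comm, A4V5_sus_coef, A4V5_sus_coef, (A4V5_hom D φ).comm]

private theorem A4V5_orbM {n : ℕ} (a : Orb n) : coefM n (orbM (consO a)) = orbM a := by
  classical
  refine Finsupp.ext fun b => ?_
  rw [coefM_apply, orbM_apply, orbM_apply, orb_cons]
  by_cases h : orb b = a
  · rw [if_pos h, if_pos (by rw [h])]
  · rw [if_neg h, if_neg fun h' => h (consO_injective h')]

private theorem A4V5_sus_orb {n : ℕ} (φ : SVHom V (KL (n + 1))) (d : ℕ) (b : Orb n)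
    (hb : wtO b = d) (hb' : wtO (consO b) = d + 1) :
    A4V5_sus D φ d (A4V5_o b d hb) =
      (D.e (d + 1)).symm (toQ (A4V5_q S φ (d + 1) (A4V5_o (consO b) (d + 1) hb'))) := by
  rw [← A4V5_hom_apply, ← A4V5_sus_coef]
  congr 1
  exact Subtype.ext (A4V5_orbM b).symm

variable {L : Type} (a : L → ℕ) (g : ∀ l, SVHom V (KL (a l + 1)))

variable (S) in
/-- the basis classes -/
private noncomputable def A4V5_b (x : GI a) (m : ℕ) : RHc V m :=
  if h : wtO (consO x.2) = m then
    A4V5_q S (g x.1) m (A4V5_o (consO x.2) m h) else 0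

variable (S)

private theorem A4V5_b_pos (x : GI a) (m : ℕ) (h : wtO (consO x.2) = m) :
    A4V5_b S a g x m =
      A4V5_q S (g x.1) m (A4V5_o (consO x.2) m h) := dif_pos h

private theorem A4V5_b_neg (x : GI a) (m : ℕ) (h : ¬ wtO (consO x.2) = m) :
    A4V5_b S a g x m = 0 := dif_neg h

private theorem A4V5_red (x : GI a) (m : ℕ) :
    red V.zv m (A4V5_b S a g x m) = CR.map (g x.1).toHom (zC S (consO x.2)) m := by
  unfold zC
  rw [CR.map_hom]
  by_cases h : wtO (consO x.2) = m
  · subst h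
    rw [A4V5_b_pos S a g x _ rfl]
    have h1 : A4V5_q S (g x.1) (wtO (consO x.2)) (A4V5_o (consO x.2) _ rfl) =
        (zR S (consO x.2)).comp (SV.Hmap (R.map V.zv (KL (a x.1 + 1)).zv (g x.1).toHom
          (A4V5_pt (g x.1))) (wtO (consO x.2))) := by
      rw [← A4V5_Th_orb]
      rfl
    rw [h1, red_nat]
    exact (Pi.single_eq_same (M := fun n => Hc V.ss n) _ _).symm
  · rw [A4V5_b_neg S a g x m h, map_zero]
    exact (Pi.single_eq_of_ne (M := fun n => Hc V.ss n) (fun h' => h h'.symm) _).symm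

private theorem A4V5_fin (hL : ∀ d, {l | a l ≤ d}.Finite) (k : ℕ) :
    {i : GI a | gdeg a i = k}.Finite := by
  refine ((hL k).biUnion fun l _ => (wtO_fin (n := a l) k).image (Sigma.mk l)).subset ?_
  rintro ⟨l, b⟩ hb
  have h1 : wtO b + 1 = k := hb
  have h2 := le_wtO b
  refine Set.mem_biUnion (x := l) (show a l ≤ k by omega) ⟨b, ?_, rfl⟩
  show wtO b ≤ k
  omega

private theorem A4V5_span (hL : ∀ d, {l | a l ≤ d}.Finite)
    (h : CPoly V.ss (gdeg a) (fun x => CR.map (g x.1).toHom (zC S (consO x.2)))) (n : ℕ) :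
    Submodule.span (ZMod 2) (Set.range fun i => toQ (A4V5_b S a g i n)) =
      (⊤ : Submodule (ZMod 2) (QH V n)) :=
  QH_span h (fun _ => Nat.succ_pos _) (A4V5_fin a hL) (A4V5_b S a g) (A4V5_red S a g) n

variable {S}

private theorem A4V5_zero (hL : ∀ d, {l | a l ≤ d}.Finite)
    (h : CPoly V.ss (gdeg a) (fun x => CR.map (g x.1).toHom (zC S (consO x.2))))
    (x : D.am.M 0) : x = 0 := by
  have h1 : D.e 0 x ∈ Submodule.span (ZMod 2) (Set.range fun i => toQ (A4V5_b S a g i 0)) := by
    rw [A4V5_span S a g hL h 0]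
    exact Submodule.mem_top
  have h2 : Submodule.span (ZMod 2) (Set.range fun i => toQ (A4V5_b S a g i 0)) ≤
      (⊥ : Submodule (ZMod 2) (QH V 0)) := by
    refine Submodule.span_le.2 ?_
    rintro _ ⟨i, rfl⟩
    show toQ (A4V5_b S a g i 0) = 0
    rw [A4V5_b_neg S a g i 0 (by rw [wtO_cons]; omega), map_zero]
  have h3 := (Submodule.mem_bot (ZMod 2)).1 (h2 h1)
  rwa [LinearEquiv.map_eq_zero_iff] at h3

variable [DecidableEq L]

/-- the total map -/
private noncomputable def A4V5_T (n : ℕ) :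
    (AM.dsum fun l => EAM (a l)).M n →ₗ[ZMod 2] D.am.M (n + 1) :=
  (DFinsupp.lsum ℕ fun l => A4V5_sus D (g l) n : (Π₀ l, (EAM (a l)).M n) →ₗ[ZMod 2] D.am.M (n + 1))

private theorem A4V5_T_single (n : ℕ) (l : L) (c : (EAM (a l)).M n) :
    A4V5_T D a g n (DFinsupp.single l c : Π₀ l, (EAM (a l)).M n) = A4V5_sus D (g l) n c := by
  unfold A4V5_T
  exact DFinsupp.lsum_single _ _ _ _

private theorem A4V5_T_comm (n m : ℕ) (x : (AM.dsum fun l => EAM (a l)).M n) :
    A4V5_T D a g m ((AM.dsum fun l => EAM (a l)).Sq n m x) =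
      D.am.Sq (n + 1) (m + 1) (A4V5_T D a g n x) := by
  classical
  have key : ∀ x : Π₀ l, (EAM (a l)).M n,
      A4V5_T D a g m (DFinsupp.mapRange.linearMap (fun l => (EAM (a l)).Sq n m) x) =
      D.am.Sq (n + 1) (m + 1) (A4V5_T D a g n x) := by
    intro x
    induction x using DFinsupp.induction with
    | h0 => rw [map_zero]; erw [map_zero, map_zero]
    | ha l c f _ _ ih =>
      rw [map_add]
      erw [map_add, map_add, map_add, ih]
      congr 1
      have h1 : (DFinsupp.mapRange.linearMap (fun l => (EAM (a l)).Sq n m))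
          (DFinsupp.single l c : Π₀ l, (EAM (a l)).M n) =
          DFinsupp.single l ((EAM (a l)).Sq n m c) := by
        exact DFinsupp.mapRange_single (hf := fun i => map_zero _)
      rw [h1, A4V5_T_single, A4V5_T_single, A4V5_sus_comm]
  exact key x

private theorem A4V5_T_surj (hL : ∀ d, {l | a l ≤ d}.Finite)
    (h : CPoly V.ss (gdeg a) (fun x => CR.map (g x.1).toHom (zC S (consO x.2)))) (n : ℕ) :
    Function.Surjective (A4V5_T D a g n) := by
  classical
  intro y
  have h1 : D.e (n + 1) y ∈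
      Submodule.span (ZMod 2) (Set.range fun i => toQ (A4V5_b S a g i (n + 1))) := by
    rw [A4V5_span S a g hL h (n + 1)]
    exact Submodule.mem_top
  have h2 : Submodule.span (ZMod 2) (Set.range fun i => toQ (A4V5_b S a g i (n + 1))) ≤
      (LinearMap.range (A4V5_T D a g n)).comap (D.e (n + 1)).symm.toLinearMap := by
    refine Submodule.span_le.2 ?_
    rintro _ ⟨i, rfl⟩
    show (D.e (n + 1)).symm (toQ (A4V5_b S a g i (n + 1))) ∈ LinearMap.range (A4V5_T D a g n)
    by_cases hi : wtO (consO i.2) = n + 1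
    · rw [A4V5_b_pos S a g i (n + 1) hi]
      have hi' : wtO i.2 = n := by
        rw [wtO_cons] at hi
        omega
      rw [← A4V5_sus_orb D (g i.1) n i.2 hi' hi, ← A4V5_T_single]
      exact LinearMap.mem_range_self _ _
    · rw [A4V5_b_neg S a g i (n + 1) hi, map_zero, map_zero]
      exact Submodule.zero_mem _
  have h3 := h2 h1
  have h4 : (D.e (n + 1)).symm (D.e (n + 1) y) ∈ LinearMap.range (A4V5_T D a g n) := h3
  rwa [LinearEquiv.symm_apply_apply] at h4

private theorem A4V5_T_inj (hL : ∀ d, {l | a l ≤ d}.Finite)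
    (h : CPoly V.ss (gdeg a) (fun x => CR.map (g x.1).toHom (zC S (consO x.2)))) (n : ℕ) :
    Function.Injective (A4V5_T D a g n) := by
  classical
  rw [injective_iff_map_eq_zero]
  intro x hx
  change Π₀ l, (EAM (a l)).M n at x
  have hr : ∀ l, ∃ r : Orb (a l) →₀ ZMod 2, (∀ b, r b ≠ 0 → wtO b = n) ∧
      (show EE (a l) n from x l).1 = r.sum fun b t => t • orbM b := fun l =>
    EE_eq_sum (show EE (a l) n from x l).1 (show EE (a l) n from x l).2
  choose r hr1 hr2 using hr
  -- the value of the map on one component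
  have hval : ∀ l, A4V5_sus D (g l) n (x l) =
      (r l).sum fun b t => t • (D.e (n + 1)).symm (toQ (A4V5_b S a g ⟨l, b⟩ (n + 1))) := by
    intro l
    have h1 : x l = (r l).sum fun b t => t • (if hb : wtO b = n then
        A4V5_o b n hb else 0) := by
      refine Subtype.ext ?_
      refine (hr2 l).trans ?_
      have h2 : (show EE (a l) n from ((r l).sum fun b t => t • (if hb : wtO b = n then
        A4V5_o b n hb else 0))).1 =
        (r l).sum fun b t => (show EE (a l) n from (t • (if hb : wtO b = n then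
        A4V5_o b n hb else 0))).1 :=
        map_finsuppSum (EE (a l) n).subtype _ _
      refine Eq.trans ?_ h2.symm
      refine Finsupp.sum_congr fun b hb => ?_
      rw [dif_pos (hr1 l b (Finsupp.mem_support_iff.1 hb))]
      rfl
    rw [h1]
    refine (map_finsuppSum (A4V5_sus D (g l) n) _ _).trans ?_
    refine Finsupp.sum_congr fun b hb => ?_
    have hb' := hr1 l b (Finsupp.mem_support_iff.1 hb)
    have hb'' : wtO (consO b) = n + 1 := by
      rw [wtO_cons, hb']
    rw [dif_pos hb']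
    refine (map_smul (A4V5_sus D (g l) n) _ _).trans ?_
    congr 1
    rw [A4V5_b_pos S a g ⟨l, b⟩ (n + 1) hb'']
    exact A4V5_sus_orb D (g l) n b hb' hb''
  let c : GI a →₀ ZMod 2 := ∑ l ∈ x.support, (r l).mapDomain (Sigma.mk l)
  have hc_eval : ∀ l ∈ x.support, ∀ b, c ⟨l, b⟩ = r l b := by
    intro l hl b
    show (∑ l ∈ x.support, (r l).mapDomain (Sigma.mk l)) (⟨l, b⟩ : GI a) = r l b
    rw [Finsupp.finsetSum_apply, Finset.sum_eq_single l]
    · exact Finsupp.mapDomain_apply (sigma_mk_injective (β := fun l => Orb (a l))) (r l) b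
    · intro l' _ hl'
      refine Finsupp.mapDomain_of_notMem_range _ _ ?_
      rintro ⟨b', hb'⟩
      exact hl' (congrArg Sigma.fst hb')
    · intro h
      exact absurd hl h
  have hc_out : ∀ l, l ∉ x.support → ∀ b, c ⟨l, b⟩ = 0 := by
    intro l hl b
    show (∑ l ∈ x.support, (r l).mapDomain (Sigma.mk l)) (⟨l, b⟩ : GI a) = 0
    rw [Finsupp.finsetSum_apply]
    refine Finset.sum_eq_zero fun l' hl' => ?_
    refine Finsupp.mapDomain_of_notMem_range _ _ ?_
    rintro ⟨b', hb'⟩
    have h1 : l' = l := congrArg Sigma.fst hb'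
    exact hl (h1 ▸ hl')
  have hc_deg : ∀ i, c i ≠ 0 → gdeg a i = n + 1 := by
    rintro ⟨l, b⟩ hi
    by_cases hl : l ∈ x.support
    · rw [hc_eval l hl b] at hi
      show wtO b + 1 = n + 1
      rw [hr1 l b hi]
    · exact absurd (hc_out l hl b) hi
  have hsum : (c.sum fun i t => t • toQ (A4V5_b S a g i (n + 1))) = 0 := by
    have h1 : (c.sum fun i t => t • toQ (A4V5_b S a g i (n + 1))) =
        Finsupp.linearCombination (ZMod 2) (fun i => toQ (A4V5_b S a g i (n + 1))) c := rfl
    rw [h1]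
    show Finsupp.linearCombination (ZMod 2) (fun i => toQ (A4V5_b S a g i (n + 1)))
      (∑ l ∈ x.support, (r l).mapDomain (Sigma.mk l)) = 0
    rw [map_sum]
    have h2 : ∀ l, Finsupp.linearCombination (ZMod 2) (fun i => toQ (A4V5_b S a g i (n + 1)))
        ((r l).mapDomain (Sigma.mk l)) = D.e (n + 1) (A4V5_sus D (g l) n (x l)) := by
      intro l
      rw [hval l, Finsupp.linearCombination_mapDomain, map_finsuppSum]
      refine Finsupp.sum_congr fun b _ => ?_
      rw [map_smul, LinearEquiv.apply_symm_apply]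
      rfl
    rw [Finset.sum_congr rfl fun l _ => h2 l, ← map_sum]
    have h3 : ∑ l ∈ x.support, A4V5_sus D (g l) n (x l) = A4V5_T D a g n x := by
      exact (DFinsupp.sumAddHom_apply (fun l => (A4V5_sus D (g l) n).toAddMonoidHom) x).symm
    rw [h3, hx, map_zero]
  have hc0 := QH_li h (fun _ => Nat.succ_pos _) (A4V5_fin a hL) (A4V5_b S a g) (A4V5_red S a g)
    (n + 1) c hc_deg hsum
  refine DFinsupp.ext fun l => ?_
  by_contra hne
  have hl : l ∈ x.support := DFinsupp.mem_support_iff.2 hne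
  apply hne
  refine Subtype.ext ?_
  refine (hr2 l).trans ?_
  have h4 : r l = 0 := by
    refine Finsupp.ext fun b => ?_
    rw [← hc_eval l hl b, hc0]
    rfl
  rw [h4, Finsupp.sum_zero_index]
  rfl

end A4V5_aux

theorem exists_susp (S : SqFam) (V : SV) (D : QHData S V) {L : Type} (a : L → ℕ)
    (g : ∀ l, SVHom V (KL (a l + 1))) (hL : ∀ d, {l | a l ≤ d}.Finite)
    (h : CPoly V.ss (gdeg a) (fun x => CR.map (g x.1).toHom (zC S (consO x.2)))) :
    Nonempty (IsSusp (AM.dsum fun l => EAM (a l)) D.am) := by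
  classical
  exact ⟨⟨fun n => LinearEquiv.ofBijective (A4V5_T D a g n)
      ⟨A4V5_T_inj D a g hL h n, A4V5_T_surj D a g hL h n⟩,
    A4V5_zero D a g hL h, fun n m x => A4V5_T_comm D a g n m x⟩⟩

theorem exists_gen (S : SqFam) (V : SV) (D : QHData S V) {L : Type} (a : L → ℕ)
    (g : ∀ l, SVHom V (KL (a l + 1))) (hL : ∀ d, {l | a l ≤ d}.Finite)
    (h : CPoly V.ss (gdeg a) (fun x => CR.map (g x.1).toHom (zC S (consO x.2)))) : D.Gen := by
  classical
  intro N hN hfund n
  have hA : ∀ (l : L) (d : ℕ) (c : (EAM (a l + 1)).M d), (A4V5_hom D (g l)).app d c ∈ N d := by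
    intro l d c
    have h1 := EAM_gen (a l + 1) (fun d => (N d).comap ((A4V5_hom D (g l)).app d)) (by
      intro d m x hx
      show (A4V5_hom D (g l)).app m ((EAM (a l + 1)).Sq d m x) ∈ N m
      rw [(A4V5_hom D (g l)).comm]
      exact hN d m _ hx) (by
      show (A4V5_hom D (g l)).app (a l + 1) (EAM.gen (a l + 1)) ∈ N (a l + 1)
      rw [A4V5_hom_gen]
      exact hfund _ _) d
    have h2 : c ∈ (N d).comap ((A4V5_hom D (g l)).app d) := by
      rw [h1]
      exact Submodule.mem_top
    exact h2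
  refine Submodule.eq_top_iff'.2 fun x => ?_
  have h3 : D.e n x ∈ Submodule.span (ZMod 2) (Set.range fun i => toQ (A4V5_b S a g i n)) := by
    rw [A4V5_span S a g hL h n]
    exact Submodule.mem_top
  have h4 : Submodule.span (ZMod 2) (Set.range fun i => toQ (A4V5_b S a g i n)) ≤
      (N n).comap (D.e n).symm.toLinearMap := by
    refine Submodule.span_le.2 ?_
    rintro _ ⟨i, rfl⟩
    show (D.e n).symm (toQ (A4V5_b S a g i n)) ∈ N n
    by_cases hi : wtO (consO i.2) = n
    · rw [A4V5_b_pos S a g i n hi]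
      exact hA i.1 n _
    · rw [A4V5_b_neg S a g i n hi, map_zero, map_zero]
      exact (N n).zero_mem
  have h5 := h4 h3
  have h6 : (D.e n).symm (D.e n x) ∈ N n := h5
  rwa [LinearEquiv.symm_apply_apply] at h6

end MM

end
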