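import Pool.Agent.Lib_MP_33f7bb_m.G05
import Pool.Agent.Lib_MP_33f7bb_m.G10
import Pool.Agent.Lib_MP_33f7bb_m.G12
import Pool.Agent.Lib_MP_33f7bb_m.G13
import Pool.Agent.Lib_MP_33f7bb_m.G22
import Pool.Agent.Lib_MP_33f7bb_m.G28

/-!
# MP_33f7bb_an, negative answer to Q1: merged library part G29

Concatenation of files of `Lib_MP_33f7bb_an` and `Lib_MP_33f7bb_d` (each in its own section), only to save build time.
-/

/-! ### from `Lib_MP_33f7bb_d.A3X` -/

section

/-!
# A3-14: external products of homology classes of simplicial sets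

`crsP n c d ∈ H_n (lin (P × Q))` = the class corresponding to the cross product `crsH n c d` under the isomorphism
`H(linProd P Q)` (`Hmap_linProd_bijective`).
* `linProd_crsP`: `LinearEquiv.ofBijective`, `crsHL_apply`.
* `crsP_map`: naturality: `linProd ∘ linMap (f × g) = (linMap f ⊗ linMap g) ∘ linProd` (check on `single (x,y) 1`), `crs_map`
  (on representing cycles, `crsH_cls`) and injectivity of `H(linProd)`.
* `crsP_ne`: `crs_eq_zero`.
* `cup_crsP`, `cup_crsP_ne`: `cup_fst_snd` and `boxF_crs`, `boxF_crs_ne` (choose representing cycles; `crsH_cls`).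
* `hc_prod_ext`: functionals on `H_n (lin (P × Q))` which agree on all `crsP n c d`, `p + q = n`, are equal: `boxF_ext` applied to
  `y ∘ H(linProd)⁻¹`.
-/

open scoped TensorProduct

namespace MM

/-- external product of homology classes, as a bilinear map -/
noncomputable def crsHL (P Q : SV) (p q n : ℕ) : P.H p →ₗ[ZMod 2] Q.H q →ₗ[ZMod 2] (P.tens Q).H n :=
  Classical.choose (crsH_bilin P Q p q n)

theorem crsHL_apply {P Q : SV} {p q : ℕ} (n : ℕ) (x : P.H p) (y : Q.H q) :
    crsHL P Q p q n x y = crsH n x y := Classical.choose_spec (crsH_bilin P Q p q n) x y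

/-- external product of homology classes of simplicial sets, as a bilinear map -/
noncomputable def crsPL (P Q : SS) (p q n : ℕ) :
    (lin P).H p →ₗ[ZMod 2] (lin Q).H q →ₗ[ZMod 2] (lin (P.prod Q)).H n :=
  (crsHL (lin P) (lin Q) p q n).compr₂
    (LinearEquiv.ofBijective _ (Hmap_linProd_bijective P Q n)).symm.toLinearMap

/-- external product of homology classes of simplicial sets -/
noncomputable def crsP {P Q : SS} {p q : ℕ} (n : ℕ) (c : (lin P).H p) (d : (lin Q).H q) :
    (lin (P.prod Q)).H n := crsPL P Q p q n c d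

theorem linProd_crsP {P Q : SS} {p q : ℕ} (n : ℕ) (c : (lin P).H p) (d : (lin Q).H q) :
    SV.Hmap (linProd P Q) n (crsP n c d) = crsH n c d := by
  rw [← crsHL_apply]
  exact (LinearEquiv.ofBijective _ (Hmap_linProd_bijective P Q n)).apply_symm_apply
    (crsHL (lin P) (lin Q) p q n c d)

private theorem A3X_ext {Z : SS} {W : SV} {f g : SVHom (lin Z) W}
    (h : ∀ n (x : Z.S n), f.app n (Finsupp.single x 1) = g.app n (Finsupp.single x 1)) : f = g := by
  apply SVHom.ext
  funext n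
  exact Finsupp.lhom_ext' fun x => LinearMap.ext_ring (h n x)

private theorem A3X_linProd_single (Z Z' : SS) (n : ℕ) (x : (Z.prod Z').S n) :
    (linProd Z Z').app n (Finsupp.single x 1) =
      (Finsupp.single x.1 1 : Ch Z n) ⊗ₜ[ZMod 2] (Finsupp.single x.2 1 : Ch Z' n) := by
  show linExt _ n (Finsupp.single x 1) = _
  rw [linExt_single, one_smul]

private theorem A3X_nat {P P' Q Q' : SS} (f : Hom P P') (g : Hom Q Q') :
    (linProd P' Q').comp (linMap (Hom.prodMap f g)) =
      ((linMap f).tens (linMap g)).comp (linProd P Q) := by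
  apply A3X_ext
  intro n x
  show (linProd P' Q').app n (Finsupp.mapDomain ((Hom.prodMap f g).app n) (Finsupp.single x 1)) =
    ((linMap f).tens (linMap g)).app n ((linProd P Q).app n (Finsupp.single x 1))
  rw [Finsupp.mapDomain_single, A3X_linProd_single, A3X_linProd_single]
  show _ = TensorProduct.map _ _ (_ ⊗ₜ[ZMod 2] _)
  rw [TensorProduct.map_tmul]
  show _ = Finsupp.mapDomain (f.app n) (Finsupp.single x.1 1) ⊗ₜ[ZMod 2]
    Finsupp.mapDomain (g.app n) (Finsupp.single x.2 1)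
  rw [Finsupp.mapDomain_single, Finsupp.mapDomain_single]
  rfl

private theorem A3X_crsH_map {P P' Q Q' : SV} (f : SVHom P P') (g : SVHom Q Q') {p q : ℕ} (n : ℕ)
    (c : P.H p) (d : Q.H q) :
    SV.Hmap (f.tens g) n (crsH n c d) = crsH n (SV.Hmap f p c) (SV.Hmap g q d) := by
  obtain ⟨x, hx, rfl⟩ := A3Box_exists_cls c
  obtain ⟨y, hy, rfl⟩ := A3Box_exists_cls d
  rw [crsH_cls, SV.Hmap_cls, SV.Hmap_cls, SV.Hmap_cls, crsH_cls]
  exact A3Box_cls_congr (crs_map f g x y) _ _

theorem crsP_map {P P' Q Q' : SS} (f : Hom P P') (g : Hom Q Q') {p q : ℕ} (n : ℕ)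
    (c : (lin P).H p) (d : (lin Q).H q) :
    SV.Hmap (linMap (Hom.prodMap f g)) n (crsP n c d) =
      crsP n (SV.Hmap (linMap f) p c) (SV.Hmap (linMap g) q d) := by
  apply (Hmap_linProd_bijective P' Q' n).1
  rw [linProd_crsP, ← SV.Hmap_comp, A3X_nat, SV.Hmap_comp, linProd_crsP, A3X_crsH_map]

theorem crsP_ne {P Q : SS} {p q n : ℕ} (h : p + q ≠ n) (c : (lin P).H p) (d : (lin Q).H q) :
    crsP n c d = 0 := by
  apply (Hmap_linProd_bijective P Q n).1
  rw [linProd_crsP, map_zero]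
  obtain ⟨x, hx, rfl⟩ := A3Box_exists_cls c
  obtain ⟨y, hy, rfl⟩ := A3Box_exists_cls d
  rw [crsH_cls]
  exact A3Box_cls_zero (crs_eq_zero h x y) _

theorem cup_crsP {P Q : SS} {p q n : ℕ} (h : p + q = n) (a : Hc P p) (b : Hc Q q)
    (c : (lin P).H p) (d : (lin Q).H q) :
    cup n (Hc.map (Hom.fst P Q) p a) (Hc.map (Hom.snd P Q) q b) (crsP n c d) = a c * b d := by
  rw [cup_fst_snd, LinearMap.comp_apply, linProd_crsP]
  obtain ⟨x, hx, rfl⟩ := A3Box_exists_cls c
  obtain ⟨y, hy, rfl⟩ := A3Box_exists_cls d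
  rw [crsH_cls, boxF_crs h]

theorem cup_crsP_ne {P Q : SS} {p q n p' q' : ℕ} (h : p' ≠ p) (a : Hc P p) (b : Hc Q q)
    (c : (lin P).H p') (d : (lin Q).H q') :
    cup n (Hc.map (Hom.fst P Q) p a) (Hc.map (Hom.snd P Q) q b) (crsP n c d) = 0 := by
  rw [cup_fst_snd, LinearMap.comp_apply, linProd_crsP]
  obtain ⟨x, hx, rfl⟩ := A3Box_exists_cls c
  obtain ⟨y, hy, rfl⟩ := A3Box_exists_cls d
  rw [crsH_cls, boxF_crs_ne _ _ h x hx y hy]

theorem hc_prod_ext {P Q : SS} {n : ℕ} {y y' : Hc (P.prod Q) n}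
    (h : ∀ p q, p + q = n → ∀ (c : (lin P).H p) (d : (lin Q).H q),
      y (crsP n c d) = y' (crsP n c d)) : y = y' := by
  have h1 : y.comp (LinearEquiv.ofBijective _ (Hmap_linProd_bijective P Q n)).symm.toLinearMap =
      y'.comp (LinearEquiv.ofBijective _ (Hmap_linProd_bijective P Q n)).symm.toLinearMap := by
    apply boxF_ext
    intro p q hpq u hu v hv
    have h2 := h p q hpq ((lin P).cls u hu) ((lin Q).cls v hv)
    have h3 : crsP n ((lin P).cls u hu) ((lin Q).cls v hv) =
        (LinearEquiv.ofBijective _ (Hmap_linProd_bijective P Q n)).symm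
          (((lin P).tens (lin Q)).cls (crs n u v) (crs_mem_Z hu hv)) := by
      rw [← crsH_cls u hu v hv, ← crsHL_apply]
      rfl
    rw [h3] at h2
    exact h2
  apply LinearMap.ext
  intro x
  have h4 := LinearMap.congr_fun h1 (SV.Hmap (linProd P Q) n x)
  have h5 : (LinearEquiv.ofBijective _ (Hmap_linProd_bijective P Q n)).symm
      (SV.Hmap (linProd P Q) n x) = x :=
    (LinearEquiv.ofBijective _ (Hmap_linProd_bijective P Q n)).symm_apply_apply x
  rw [LinearMap.comp_apply, LinearMap.comp_apply, LinearEquiv.coe_coe, h5] at h4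
  exact h4

end MM

end

/-! ### from `Lib_MP_33f7bb_d.A3Phi` -/

section

/-!
# A3-15: cohomology of `B × Z`: coefficients of the powers of `x`

`cf i m n y = (d ↦ y (crsP n (eU i) d))`: the coefficient of `x^i` of `y ∈ H^n (B × Z)`.

* `cf_ne`: `crsP_ne`.
* `cf_ext`: `hc_prod_ext` and `eq_smul_eU` (`crsP` is bilinear: `crsPL`).
* `cf_box`, `cf_box_ne`: `cup_crsP`, `cup_crsP_ne`, `xP_eU`.
* `cf_sum`: both sides have the same coefficients (`cf_ext`, `cf_box`, `cf_box_ne`).
* `cf_cup`: write `y`, `y'` by `cf_sum`; with `X i := fst^* (xP i)`: `cup n (cup p (X i) (snd^* a)) (cup q (X j) (snd^* b)) =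
  cup n (X (i+j)) (snd^* (cup (p-i+(q-j)) a b))` by commutativity and associativity (best in the commutative ring `CR (B × Z)`:
  `CR.hom_mul_hom`, `CR.map`), `xP_mul`, `Hc.map_cup`; then `cf_box`, `cf_box_ne`.
* `cf_map`: `crsP_map`.
* `cf_zero`: `eU 0` is the class of the vertex `0` of `B`; `crsP n (eU 0) d` is the image of `d` under `inclB Z`: on chains: in
  `crs n x y` with `x` of degree `0` only `a = cst 0`, `b = id` contribute, so `linProd (linMap inclB y) = crs n (single 0 1) y`.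
* `cf_snd_zero`, `cf_snd_ne`: `cf_box` with `xP 0 = Hc.unit` (`xP_zero`, `Hc.map_unit`, `cup_unit`).
-/

open scoped TensorProduct

namespace MM

variable {Z Z' : SS}

/-- the coefficient of `x^i` -/
noncomputable def cf (i m n : ℕ) : Hc (BZ2.prod Z) n →ₗ[ZMod 2] Hc Z m :=
  (crsPL BZ2 Z i m n (eU i)).dualMap

theorem cf_apply (i m n : ℕ) (y : Hc (BZ2.prod Z) n) (d : (lin Z).H m) :
    cf i m n y d = y (crsP n (eU i) d) := rfl

private theorem A3Phi_map_id (P : SS) (n : ℕ) (x : (lin P).H n) :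
    SV.Hmap (linMap (Hom.id P)) n x = x := by
  have h : linMap (Hom.id P) = SVHom.id (lin P) := by
    apply SVHom.ext
    funext k
    apply LinearMap.ext
    intro z
    exact Finsupp.mapDomain_id
  rw [h, SV.Hmap_id]

private theorem A3Phi_sum_left {Y : SS} {p q : ℕ} (n : ℕ) {ι : Type*} (s : Finset ι)
    (f : ι → Hc Y p) (b : Hc Y q) : cup n (∑ i ∈ s, f i) b = ∑ i ∈ s, cup n (f i) b := by
  classical
  induction s using Finset.induction_on with
  | empty => rw [Finset.sum_empty, Finset.sum_empty, cup_zero_left]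
  | insert i s hi ih => rw [Finset.sum_insert hi, Finset.sum_insert hi, cup_add_left, ih]

private theorem A3Phi_sum_right {Y : SS} {p q : ℕ} (n : ℕ) {ι : Type*} (s : Finset ι)
    (a : Hc Y p) (f : ι → Hc Y q) : cup n a (∑ i ∈ s, f i) = ∑ i ∈ s, cup n a (f i) := by
  classical
  induction s using Finset.induction_on with
  | empty => rw [Finset.sum_empty, Finset.sum_empty, cup_zero_right]
  | insert i s hi ih => rw [Finset.sum_insert hi, Finset.sum_insert hi, cup_add_right, ih]

/-- product of two boxes -/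
private theorem A3Phi_mul {i a' j b' p q n u v : ℕ} (h1 : i + a' = p) (h2 : j + b' = q)
    (h3 : p + q = n) (hu : i + j = u) (hv : a' + b' = v) (s : Hc Z a') (t : Hc Z b') :
    cup n (cup p (Hc.map (Hom.fst BZ2 Z) i (xP i)) (Hc.map (Hom.snd BZ2 Z) a' s))
      (cup q (Hc.map (Hom.fst BZ2 Z) j (xP j)) (Hc.map (Hom.snd BZ2 Z) b' t)) =
    cup n (Hc.map (Hom.fst BZ2 Z) u (xP u)) (Hc.map (Hom.snd BZ2 Z) v (cup v s t)) := by
  rw [cup_assoc (m' := a' + q) h1 rfl (by omega),
    ← cup_assoc (m := a' + j) rfl h2 (by omega),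
    cup_comm (n := a' + j) (Hc.map (Hom.snd BZ2 Z) a' s),
    cup_assoc (m' := v) (by omega) hv (by omega),
    ← cup_assoc (m := u) hu (by omega) (by omega),
    ← Hc.map_cup, ← Hc.map_cup, xP_mul hu]

private theorem A3Phi_crs_zero {P Q : SV} {n : ℕ} (x : P.V 0) (y : Q.V n) :
    crs n x y = P.act (cst 0) x ⊗ₜ[ZMod 2] y := by
  classical
  unfold crs
  have hu : ∀ a : Mo n 0, a = cst 0 := fun a => OrderHom.ext _ _ (funext fun i =>
    Fin.ext (by have := (a i).2; have h2 := ((cst 0 : Mo n 0) i).2; omega))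
  rw [Finset.sum_eq_single (cst 0 : Mo n 0) (fun a _ ha => absurd (hu a) ha)
    (fun h => absurd (Finset.mem_univ _) h),
    Finset.sum_eq_single (OrderHom.id : Mo n n)]
  · rw [if_pos, Q.act_id]
    exact ⟨by omega, fun i => by
      have h2 : (((cst 0 : Mo n 0) i : Fin 1) : ℕ) = 0 := by
        have := ((cst 0 : Mo n 0) i).2
        omega
      rw [h2, zero_add]
      rfl⟩
  · intro b _ hb
    rw [if_neg]
    rintro ⟨-, h⟩
    apply hb
    refine OrderHom.ext _ _ (funext fun i => Fin.ext ?_)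
    have h1 := h i
    have h2 : (((cst 0 : Mo n 0) i : Fin 1) : ℕ) = 0 := by
      have := ((cst 0 : Mo n 0) i).2
      omega
    rw [h2, zero_add] at h1
    exact h1
  · intro h
    exact absurd (Finset.mem_univ _) h

private theorem A3Phi_eU_zero : eU 0 = vcls (Z := BZ2) (0 : K1.V 0) := by
  apply (xP_bijective 0).1
  rw [xP_eU]
  show (1 : ZMod 2) = xP 0 ((lin BZ2).cls (Finsupp.single (0 : K1.V 0) 1) Submodule.mem_top)
  rw [xP_cls]
  have h : bAlt 0 = (0 : K1.V 0) := by
    apply Subtype.ext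
    funext i
    rw [bAlt_apply]
    have : (i : ℕ) = 0 := by have := i.2; omega
    rw [this]
    rfl
  rw [h]
  exact (Finsupp.single_eq_same).symm

private theorem A3Phi_linProd (n : ℕ) (z : Ch Z n) :
    (linProd BZ2 Z).app n ((linMap (inclB Z)).app n z) =
      (Finsupp.single (0 : K1.V n) 1 : Ch BZ2 n) ⊗ₜ[ZMod 2] z := by
  have h : ((linProd BZ2 Z).app n).comp ((linMap (inclB Z)).app n) =
      TensorProduct.mk (ZMod 2) (Ch BZ2 n) (Ch Z n) (Finsupp.single (0 : K1.V n) 1) := by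
    refine Finsupp.lhom_ext fun x r => ?_
    have h1 : (Finsupp.single x r : Ch Z n) = r • Finsupp.single x 1 := by
      rw [Finsupp.smul_single, smul_eq_mul, mul_one]
    rw [h1, map_smul, map_smul]
    congr 1
    show (linProd BZ2 Z).app n (Finsupp.mapDomain ((inclB Z).app n) (Finsupp.single x 1)) = _
    rw [Finsupp.mapDomain_single]
    show linExt _ n (Finsupp.single _ 1) = _
    rw [linExt_single, one_smul]
    rfl
  exact LinearMap.congr_fun h z

private theorem A3Phi_crsP_zero (n : ℕ) (d : (lin Z).H n) :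
    crsP n (eU 0) d = SV.Hmap (linMap (inclB Z)) n d := by
  obtain ⟨z, hz, rfl⟩ := A3Box_exists_cls d
  apply (Hmap_linProd_bijective BZ2 Z n).1
  rw [linProd_crsP, A3Phi_eU_zero, SV.Hmap_cls, SV.Hmap_cls]
  show crsH n ((lin BZ2).cls (Finsupp.single (0 : K1.V 0) 1) Submodule.mem_top) _ = _
  rw [crsH_cls]
  apply A3Box_cls_congr
  rw [A3Phi_crs_zero, A3Phi_linProd]
  congr 1
  show Finsupp.mapDomain _ (Finsupp.single _ 1) = _
  rw [Finsupp.mapDomain_single]
  congr 1

private theorem A3Phi_snd {n : ℕ} (a : Hc Z n) :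
    cup n (Hc.map (Hom.fst BZ2 Z) 0 (xP 0)) (Hc.map (Hom.snd BZ2 Z) n a) =
      Hc.map (Hom.snd BZ2 Z) n a := by
  rw [xP_zero, Hc.map_unit, cup_unit]

theorem cf_ne {i m n : ℕ} (h : i + m ≠ n) (y : Hc (BZ2.prod Z) n) : cf i m n y = 0 := by
  apply LinearMap.ext
  intro d
  rw [cf_apply, crsP_ne h, map_zero, LinearMap.zero_apply]

theorem cf_ext {n : ℕ} {y y' : Hc (BZ2.prod Z) n}
    (h : ∀ i m, i + m = n → cf i m n y = cf i m n y') : y = y' := by
  apply hc_prod_ext
  intro p q hpq c d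
  have h1 : crsP n c d = xP p c • crsP n (eU p) d := by
    conv_lhs => rw [eq_smul_eU p c]
    show crsPL BZ2 Z p q n (xP p c • eU p) d = _
    rw [map_smul, LinearMap.smul_apply]
    rfl
  rw [h1, map_smul, map_smul, ← cf_apply, ← cf_apply, h p q hpq]

theorem cf_box {j q n : ℕ} (h : j + q = n) (a : Hc Z q) :
    cf j q n (cup n (Hc.map (Hom.fst BZ2 Z) j (xP j)) (Hc.map (Hom.snd BZ2 Z) q a)) = a := by
  apply LinearMap.ext
  intro d
  rw [cf_apply, cup_crsP h, xP_eU, one_mul]

theorem cf_box_ne {i m j q n : ℕ} (h : i ≠ j) (a : Hc Z q) :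
    cf i m n (cup n (Hc.map (Hom.fst BZ2 Z) j (xP j)) (Hc.map (Hom.snd BZ2 Z) q a)) = 0 := by
  apply LinearMap.ext
  intro d
  rw [cf_apply, cup_crsP_ne h, LinearMap.zero_apply]

theorem cf_sum {n : ℕ} (y : Hc (BZ2.prod Z) n) :
    y = ∑ i ∈ Finset.range (n + 1), cup n (Hc.map (Hom.fst BZ2 Z) i (xP i))
      (Hc.map (Hom.snd BZ2 Z) (n - i) (cf i (n - i) n y)) := by
  apply cf_ext
  intro i m him
  rw [map_sum, Finset.sum_eq_single i]
  · obtain rfl : m = n - i := by omega
    rw [cf_box him]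
  · intro j _ hne
    exact cf_box_ne hne.symm _
  · intro h
    exact absurd (Finset.mem_range.2 (by omega)) h

theorem cf_cup {p q n k m : ℕ} (h : p + q = n) (hk : k + m = n) (y : Hc (BZ2.prod Z) p)
    (y' : Hc (BZ2.prod Z) q) :
    cf k m n (cup n y y') = ∑ i ∈ Finset.range (k + 1),
      cup m (cf i (p - i) p y) (cf (k - i) (q - (k - i)) q y') := by
  classical
  have h0 : ∀ i ∈ Finset.range (p + 1), ∀ j ∈ Finset.range (q + 1),
      cf k m n (cup n (cup p (Hc.map (Hom.fst BZ2 Z) i (xP i))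
        (Hc.map (Hom.snd BZ2 Z) (p - i) (cf i (p - i) p y)))
        (cup q (Hc.map (Hom.fst BZ2 Z) j (xP j))
        (Hc.map (Hom.snd BZ2 Z) (q - j) (cf j (q - j) q y')))) =
      if i + j = k then cup m (cf i (p - i) p y) (cf j (q - j) q y') else 0 := by
    intro i hi j hj
    rw [Finset.mem_range] at hi hj
    rw [A3Phi_mul (u := i + j) (v := p - i + (q - j)) (by omega) (by omega) h rfl rfl]
    by_cases hij : i + j = k
    · rw [if_pos hij]
      subst hij
      obtain rfl : m = p - i + (q - j) := by omega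
      rw [cf_box hk]
    · rw [if_neg hij, cf_box_ne (fun h => hij h.symm)]
  have h1 : cf k m n (cup n y y') = ∑ i ∈ Finset.range (p + 1), ∑ j ∈ Finset.range (q + 1),
      if i + j = k then cup m (cf i (p - i) p y) (cf j (q - j) q y') else 0 := by
    conv_lhs => rw [cf_sum y, cf_sum y']
    rw [A3Phi_sum_left, map_sum]
    refine Finset.sum_congr rfl fun i hi => ?_
    rw [A3Phi_sum_right, map_sum]
    exact Finset.sum_congr rfl fun j hj => h0 i hi j hj
  have h2 : ∀ i ∈ Finset.range (p + 1), (∑ j ∈ Finset.range (q + 1),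
      if i + j = k then cup m (cf i (p - i) p y) (cf j (q - j) q y') else 0) =
      if i ∈ Finset.range (k + 1) then
        cup m (cf i (p - i) p y) (cf (k - i) (q - (k - i)) q y') else 0 := by
    intro i hi
    by_cases hik : i ≤ k
    · rw [if_pos (Finset.mem_range.2 (by omega))]
      by_cases hq : k - i ≤ q
      · rw [Finset.sum_eq_single (k - i)]
        · rw [if_pos (by omega)]
        · intro j _ hj
          exact if_neg (by omega)
        · intro h
          exact absurd (Finset.mem_range.2 (by omega)) h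
      · rw [cf_ne (i := k - i) (by omega), cup_zero_right]
        refine Finset.sum_eq_zero fun j hj => ?_
        rw [Finset.mem_range] at hj
        exact if_neg (by omega)
    · rw [if_neg (fun h => hik (by rw [Finset.mem_range] at h; omega))]
      exact Finset.sum_eq_zero fun j _ => if_neg (by omega)
  rw [h1, Finset.sum_congr rfl h2, Finset.sum_ite_mem]
  refine Finset.sum_subset Finset.inter_subset_right fun i hi hi' => ?_
  have hip : p < i := by
    by_contra hc
    exact hi' (Finset.mem_inter.2 ⟨Finset.mem_range.2 (by omega), hi⟩)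
  rw [cf_ne (i := i) (n := p) (by omega), cup_zero_left]

theorem cf_map (f : Hom Z Z') (i m n : ℕ) (y : Hc (BZ2.prod Z') n) :
    cf i m n (Hc.map (Hom.prodMap (Hom.id BZ2) f) n y) = Hc.map f m (cf i m n y) := by
  apply LinearMap.ext
  intro d
  rw [cf_apply]
  show y (SV.Hmap (linMap (Hom.prodMap (Hom.id BZ2) f)) n (crsP n (eU i) d)) =
    y (crsP n (eU i) (SV.Hmap (linMap f) m d))
  rw [crsP_map, A3Phi_map_id]

theorem cf_zero (n : ℕ) (y : Hc (BZ2.prod Z) n) : cf 0 n n y = Hc.map (inclB Z) n y := by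
  apply LinearMap.ext
  intro d
  rw [cf_apply, A3Phi_crsP_zero]
  rfl

theorem cf_snd_zero (n : ℕ) (a : Hc Z n) : cf 0 n n (Hc.map (Hom.snd BZ2 Z) n a) = a := by
  rw [← A3Phi_snd, cf_box (zero_add n)]

theorem cf_snd_ne {i m n : ℕ} (h : i ≠ 0) (a : Hc Z n) :
    cf i m n (Hc.map (Hom.snd BZ2 Z) n a) = 0 := by
  rw [← A3Phi_snd, cf_box_ne h]

end MM

end

/-! ### from `Lib_MP_33f7bb_d.A3P1` -/

section

/-!
# A3-10: properties of the power operation on maps into `TT`

`B = BZ2`, `PP a : B × Z → TT`, `(b, σ) ↦ kap_b (a σ, a σ)`.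

* `PP_htp`: a homotopy `H : Δ^1 × Z → TT` gives `PP H : B × (Δ^1 × Z) → TT`; `(u, (b, σ)) ↦ PP H (b, (u, σ))` is a homotopy.
* `PP_homPr`: on lists of length `2 n` the value of `kap` only depends on the homogeneous components of degree `n` (`kap_congr`);
  `evT (2n)` only sees lists of length `2 n` (`pathL_length`).
* `PP_cl`: `htp_homPr`, `PP_htp`, `clW_htp`, `PP_homPr`.
* `PP_mul`: `kap_mul` (equality of maps).
* `PP_incl`: restriction to the base point of `B` (`b = 0`): by definition (`kap0_tmul`).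
* `PP_zero`: `a` homogeneous of degree `0`: `kap e f f = f` for `f` supported on `[]` (`f [] * f [] = f []` in `ZMod 2`).
-/

open scoped TensorProduct

namespace MM

theorem PP_htp {Z : SS} {a a' : Hom Z TT.ss} (h : Htp a a') : Htp (PP a) (PP a') := by
  obtain ⟨H, h0, h1⟩ := h
  refine ⟨⟨fun n p => (PP H).app n (p.2.1, (p.1, p.2.2)), fun {m n} f p =>
    (PP H).nat f (p.2.1, (p.1, p.2.2))⟩, ?_, ?_⟩
  · rintro n ⟨b, x⟩
    show kapT b.1 (H.app n (cst 0, x)) (H.app n (cst 0, x)) = kapT b.1 (a.app n x) (a.app n x)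
    rw [h0]
  · rintro n ⟨b, x⟩
    show kapT b.1 (H.app n (cst 1, x)) (H.app n (cst 1, x)) = kapT b.1 (a'.app n x) (a'.app n x)
    rw [h1]

private theorem A3P1_ext {Z : SS} {n : ℕ} {a b : Hom Z TT.ss}
    (h : ∀ x, evT n (a.app n x) = evT n (b.app n x)) : clW (evH n) a = clW (evH n) b := by
  have h1 : (evT n).comp (linExt a.app n) = (evT n).comp (linExt b.app n) := by
    refine Finsupp.lhom_ext fun x c => ?_
    rw [LinearMap.comp_apply, LinearMap.comp_apply, linExt_single, linExt_single, map_smul,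
      map_smul]
    exact congrArg (fun t => c • t) (h x)
  refine LinearMap.ext fun x => ?_
  obtain ⟨⟨z, hz⟩, rfl⟩ := Submodule.Quotient.mk_surjective _ x
  exact LinearMap.congr_fun h1 z

theorem PP_homPr {Z : SS} (n : ℕ) (a : Hom Z TT.ss) :
    clW (evH (2 * n)) (PP (homPr n a)) = clW (evH (2 * n)) (PP a) := by
  apply A3P1_ext
  rintro ⟨b, x⟩
  show kap b.1 ((prT n).app (2 * n) (a.app (2 * n) x)).1
      ((prT n).app (2 * n) (a.app (2 * n) x)).1 (pathL (2 * n)) =
    kap b.1 (a.app (2 * n) x).1 (a.app (2 * n) x).1 (pathL (2 * n))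
  have h1 : ∀ l : List (PR (2 * n)), l.length = n →
      ((prT n).app (2 * n) (a.app (2 * n) x)).1 l = (a.app (2 * n) x).1 l := by
    intro l hl
    rw [prT_apply, if_pos hl]
  exact kap_congr (n := n) b.1 h1 h1 _ (pathL_length _)

theorem PP_cl {Z : SS} (n : ℕ) {a a' : Hom Z TT.ss} (h : clW (evH n) a = clW (evH n) a') :
    clW (evH (2 * n)) (PP a) = clW (evH (2 * n)) (PP a') := by
  rw [← PP_homPr n a, ← PP_homPr n a']
  exact clW_htp _ (PP_htp (htp_homPr n h))

theorem PP_mul {Z : SS} {p : ℕ} {a : Hom Z TT.ss} (ha : ∀ k x, IsHom p (a.app k x).1)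
    (a' : Hom Z TT.ss) : PP (homMul a a') = homMul (PP a) (PP a') := by
  apply Hom.ext
  funext n x
  exact Subtype.ext (kap_mul x.1.1 (ha n x.2) (ha n x.2) (a'.app n x.2).1 (a'.app n x.2).1)

theorem PP_isHom {Z : SS} {p : ℕ} {a : Hom Z TT.ss} (ha : ∀ k x, IsHom p (a.app k x).1) (k : ℕ)
    (x : (BZ2.prod Z).S k) : IsHom (2 * p) ((PP a).app k x).1 :=
  kap_isHom x.1.1 (ha k x.2) (ha k x.2)

theorem PP_incl {Z : SS} (a : Hom Z TT.ss) : (PP a).comp (inclB Z) = homBil kap0 a a := by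
  apply Hom.ext
  funext n x
  rfl

theorem PP_zero {Z : SS} {a : Hom Z TT.ss} (ha : ∀ k x, IsHom 0 (a.app k x).1) :
    PP a = a.comp (Hom.snd BZ2 Z) := by
  apply Hom.ext
  funext n x
  apply Subtype.ext
  funext l
  show kap x.1.1 (a.app n x.2).1 (a.app n x.2).1 l = (a.app n x.2).1 l
  by_cases hl : l.length = 0
  · obtain rfl : l = [] := List.length_eq_zero_iff.1 hl
    rw [kap_nil]
    have h1 : ∀ c : ZMod 2, c * c = c := by decide
    exact h1 _
  · rw [kap_isHom x.1.1 (ha n x.2) (ha n x.2) l (by simpa using hl), ha n x.2 l hl]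

end MM

end

/-! ### from `Lib_MP_33f7bb_d.A3P2` -/

section

/-!
# A3-11: additivity of the power operation and its value in degree one

`B = BZ2`, `PP a : B × Z → TT`, `(b, σ) ↦ kap_b (a σ, a σ)`.

* `PP_add`: let `G_e σ = kapT e (a σ) (a' σ)` for an arbitrary function `e` on the vertices.  Then
  `kap_b (a + a', a + a') = kap_b (a,a) + kap_b (a',a') + kap_b (a,a') + kap_b (a',a)`, `kap_b (a',a) = G_(b+1)` (`kapT_equiv`
  with `e = b + 1`).  Homotopy from `PP (a + a')` to `PP a + PP a'`: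
  `(u, (b, σ)) ↦ PP a + PP a' + G_(b·u) σ + G_((b+1)·u) σ` where `(e·u) i = e i` if `u i = 0` and `0` if `u i = 1` (`u : Mo m 1`).
  At `u = cst 0`: `+ G_b + G_(b+1)`; at `u = cst 1`: `+ G_0 + G_0 = 0`.  Natural: `(e·u) ∘ θ = (e ∘ θ)·(u ∘ θ)`, `kapT_act`, and for
  `θ^* b = b ∘ θ + b (θ 0)` the two terms are exchanged or not.
* `PP_one`: `a` homogeneous of degree one, `f = a σ`: `kap_e (f, f) [x, y] = f [x] f [y] + ∑_(c ∈ x, d ∈ y) e (min c d) f [(c,d)]`
  (`f [z] * f [z] = f [z]`).  Define for any function `C : Fin (m+1) → Fin (m+1) → ZMod 2` the additive function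
  `Q_C : [x, y] ↦ ∑_(c ∈ {x.1,x.2}) ∑_(d ∈ {y.1,y.2}) C c d * f [(c,d)]` (`0` on other lists; additive for every `C`; the sum
  has four terms, also if `x.1 = x.2`).  Homotopy from `a·a + x·a` to `PP a`:
  `(u, (b, σ)) ↦ a·a + Q_C`, `C c d = b c` if `u c = 0`, `C c d = b (min c d)` if `u c = 1`.
  At `u = cst 0`: `∑_(c,d) b c f [(c,d)] = ∑_c b c (f [(c, y.1)] + f [(c, y.2)]) = ∑_c b c f [y] = (b x.1 + b x.2) f [y]`.
  Natural: replacing `b` by `b + 1` changes `Q_C` by `∑_(c,d) f [(c,d)] = ∑_c f [y] = 0`.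
-/

open scoped TensorProduct

namespace MM

/-! ### additivity -/

/-- `e · u` -/
private def A3P2_cut {m : ℕ} (u : Mo m 1) (e : Fin (m + 1) → ZMod 2) : Fin (m + 1) → ZMod 2 :=
  fun i => if u i = 0 then e i else 0

private theorem A3P2_cut_zero {m : ℕ} (e : Fin (m + 1) → ZMod 2) : A3P2_cut (cst 0) e = e :=
  funext fun _ => if_pos rfl

private theorem A3P2_cut_one {m : ℕ} (e : Fin (m + 1) → ZMod 2) :
    A3P2_cut (cst 1) e = fun _ => 0 := by
  funext i
  have h : ¬ ((1 : Fin 2) = 0) := by decide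
  exact if_neg h

/-- the cross terms -/
private def A3P2_G {m : ℕ} (u : Mo m 1) (b : Fin (m + 1) → ZMod 2) (f g : TT.V m) : TT.V m :=
  kapT (A3P2_cut u b) f g + kapT (A3P2_cut u fun i => b i + 1) f g

private theorem A3P2_G_act {m n : ℕ} (θ : Mo m n) (u : Mo n 1) (b : Fin (n + 1) → ZMod 2)
    (f g : TT.V n) :
    A3P2_G (u.comp θ) (fun i => b (θ i) - b (θ 0)) (TT.act θ f) (TT.act θ g) =
      TT.act θ (A3P2_G u b f g) := by
  have h1 : TT.act θ (A3P2_G u b f g) =
      kapT (A3P2_cut (u.comp θ) fun i => b (θ i)) (TT.act θ f) (TT.act θ g) +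
        kapT (A3P2_cut (u.comp θ) fun i => b (θ i) + 1) (TT.act θ f) (TT.act θ g) := by
    unfold A3P2_G
    rw [map_add, ← kapT_act, ← kapT_act]
    rfl
  have hc : ∀ c : ZMod 2, c = 0 ∨ c = 1 := by decide
  rw [h1]
  unfold A3P2_G
  rcases hc (b (θ 0)) with h | h
  · rw [h]
    simp only [sub_zero]
  · rw [h]
    have e1 : (fun i => b (θ i) - 1) = fun i => b (θ i) + 1 :=
      funext fun i => CharTwo.sub_eq_add _ _
    have e2 : (fun i => b (θ i) + 1 + 1) = fun i => b (θ i) :=
      funext fun i => by rw [add_assoc, CharTwo.add_self_eq_zero, add_zero]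
    rw [e1]
    show kapT (A3P2_cut (u.comp θ) fun i => b (θ i) + 1) (TT.act θ f) (TT.act θ g) +
        kapT (A3P2_cut (u.comp θ) fun i => b (θ i) + 1 + 1) (TT.act θ f) (TT.act θ g) = _
    rw [e2, add_comm]

/-! ### degree one -/

/-- the correction terms -/
private def A3P2_Q {m : ℕ} (C : Fin (m + 1) → Fin (m + 1) → ZMod 2) (f : NC (PR m)) : NC (PR m)
  | [x, y] => (C x.1 y.1 * f [(x.1, y.1)] + C x.1 y.2 * f [(x.1, y.2)]) +
      (C x.2 y.1 * f [(x.2, y.1)] + C x.2 y.2 * f [(x.2, y.2)])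
  | _ => 0

private theorem A3P2_Q_two {m : ℕ} (C : Fin (m + 1) → Fin (m + 1) → ZMod 2) (f : NC (PR m))
    (x y : PR m) : A3P2_Q C f [x, y] =
      (C x.1 y.1 * f [(x.1, y.1)] + C x.1 y.2 * f [(x.1, y.2)]) +
        (C x.2 y.1 * f [(x.2, y.1)] + C x.2 y.2 * f [(x.2, y.2)]) := rfl

private theorem A3P2_Q_isHom {m : ℕ} (C : Fin (m + 1) → Fin (m + 1) → ZMod 2) (f : NC (PR m)) :
    IsHom 2 (A3P2_Q C f) := by
  intro l hl
  rcases l with _ | ⟨x, _ | ⟨y, _ | ⟨z, l⟩⟩⟩
  · rfl
  · rfl
  · exact absurd rfl hl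
  · rfl

private theorem A3P2_Q_isAdd {m : ℕ} (C : Fin (m + 1) → Fin (m + 1) → ZMod 2) (f : NC (PR m)) :
    IsAdd (A3P2_Q C f) := by
  intro l₁ l₂ a b c
  rcases l₁ with _ | ⟨y, _ | ⟨z, l₁⟩⟩
  · rcases l₂ with _ | ⟨y, _ | ⟨z, l₂⟩⟩
    · rfl
    · show (C a y.1 * f [(a, y.1)] + C a y.2 * f [(a, y.2)]) +
          (C c y.1 * f [(c, y.1)] + C c y.2 * f [(c, y.2)]) =
        ((C a y.1 * f [(a, y.1)] + C a y.2 * f [(a, y.2)]) +
          (C b y.1 * f [(b, y.1)] + C b y.2 * f [(b, y.2)])) +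
        ((C b y.1 * f [(b, y.1)] + C b y.2 * f [(b, y.2)]) +
          (C c y.1 * f [(c, y.1)] + C c y.2 * f [(c, y.2)]))
      have h := CharTwo.add_self_eq_zero (C b y.1 * f [(b, y.1)] + C b y.2 * f [(b, y.2)])
      linear_combination -h
    · rfl
  · rcases l₂ with _ | ⟨z, l₂⟩
    · show (C y.1 a * f [(y.1, a)] + C y.1 c * f [(y.1, c)]) +
          (C y.2 a * f [(y.2, a)] + C y.2 c * f [(y.2, c)]) =
        ((C y.1 a * f [(y.1, a)] + C y.1 b * f [(y.1, b)]) +
          (C y.2 a * f [(y.2, a)] + C y.2 b * f [(y.2, b)])) +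
        ((C y.1 b * f [(y.1, b)] + C y.1 c * f [(y.1, c)]) +
          (C y.2 b * f [(y.2, b)] + C y.2 c * f [(y.2, c)]))
      have h := CharTwo.add_self_eq_zero (C y.1 b * f [(y.1, b)] + C y.2 b * f [(y.2, b)])
      linear_combination -h
    · rfl
  · rcases l₁ with _ | ⟨w, l₁⟩ <;> rfl

private def A3P2_QT {m : ℕ} (C : Fin (m + 1) → Fin (m + 1) → ZMod 2) (f : TT.V m) : TT.V m :=
  ⟨A3P2_Q C f.1, A3P2_Q_isAdd C f.1⟩

/-- the coefficients -/
private def A3P2_C {m : ℕ} (u : Mo m 1) (b : Fin (m + 1) → ZMod 2) (c d : Fin (m + 1)) : ZMod 2 :=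
  if u c = 0 then b c else b (min c d)

private theorem A3P2_C_zero {m : ℕ} (b : Fin (m + 1) → ZMod 2) (c d : Fin (m + 1)) :
    A3P2_C (cst 0) b c d = b c := if_pos rfl

private theorem A3P2_C_one {m : ℕ} (b : Fin (m + 1) → ZMod 2) (c d : Fin (m + 1)) :
    A3P2_C (cst 1) b c d = b (min c d) := by
  have h : ¬ ((1 : Fin 2) = 0) := by decide
  exact if_neg h

private theorem A3P2_C_act {m n : ℕ} (θ : Mo m n) (u : Mo n 1) (b : Fin (n + 1) → ZMod 2)
    (c d : Fin (m + 1)) :
    A3P2_C (u.comp θ) (fun i => b (θ i) - b (θ 0)) c d = A3P2_C u b (θ c) (θ d) - b (θ 0) := by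
  unfold A3P2_C
  show (if u (θ c) = 0 then b (θ c) - b (θ 0) else b (θ (min c d)) - b (θ 0)) =
    (if u (θ c) = 0 then b (θ c) else b (min (θ c) (θ d))) - b (θ 0)
  by_cases h : u (θ c) = 0
  · rw [if_pos h, if_pos h]
  · rw [if_neg h, if_neg h, θ.monotone.map_min]

private theorem A3P2_sum {m : ℕ} {f : NC (PR m)} (hf : IsAdd f) (c d : Fin (m + 1)) (y : PR m) :
    f [(c, y.1)] + f [(c, y.2)] = f [y] := by
  have h1 : f [(c, y.2)] = f [(c, y.1)] + f [(y.1, y.2)] := hf [] [] c y.1 y.2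
  have h2 := CharTwo.add_self_eq_zero (f [(c, y.1)])
  have _ := d
  rw [h1, ← add_assoc, h2, zero_add]

private theorem A3P2_QT_act {m n : ℕ} (θ : Mo m n) (u : Mo n 1) (b : Fin (n + 1) → ZMod 2)
    (f : TT.V n) :
    A3P2_QT (A3P2_C (u.comp θ) fun i => b (θ i) - b (θ 0)) (TT.act θ f) =
      TT.act θ (A3P2_QT (A3P2_C u b) f) := by
  apply Subtype.ext
  funext l
  by_cases hl : l.length = 2
  · obtain ⟨x, y, rfl⟩ := List.length_eq_two.1 hl
    show A3P2_Q _ _ [x, y] = A3P2_Q _ f.1 [prMap θ x, prMap θ y]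
    rw [A3P2_Q_two, A3P2_Q_two, A3P2_C_act, A3P2_C_act, A3P2_C_act, A3P2_C_act]
    show ((A3P2_C u b (θ x.1) (θ y.1) - b (θ 0)) * f.1 [(θ x.1, θ y.1)] +
        (A3P2_C u b (θ x.1) (θ y.2) - b (θ 0)) * f.1 [(θ x.1, θ y.2)]) +
        ((A3P2_C u b (θ x.2) (θ y.1) - b (θ 0)) * f.1 [(θ x.2, θ y.1)] +
        (A3P2_C u b (θ x.2) (θ y.2) - b (θ 0)) * f.1 [(θ x.2, θ y.2)]) =
      (A3P2_C u b (θ x.1) (θ y.1) * f.1 [(θ x.1, θ y.1)] +
        A3P2_C u b (θ x.1) (θ y.2) * f.1 [(θ x.1, θ y.2)]) +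
        (A3P2_C u b (θ x.2) (θ y.1) * f.1 [(θ x.2, θ y.1)] +
        A3P2_C u b (θ x.2) (θ y.2) * f.1 [(θ x.2, θ y.2)])
    have h1 : f.1 [(θ x.1, θ y.1)] + f.1 [(θ x.1, θ y.2)] = f.1 [(θ y.1, θ y.2)] :=
      A3P2_sum f.2 (θ x.1) (θ x.1) (θ y.1, θ y.2)
    have h2 : f.1 [(θ x.2, θ y.1)] + f.1 [(θ x.2, θ y.2)] = f.1 [(θ y.1, θ y.2)] :=
      A3P2_sum f.2 (θ x.2) (θ x.2) (θ y.1, θ y.2)
    have h3 := CharTwo.add_self_eq_zero (f.1 [(θ y.1, θ y.2)])
    linear_combination (-(b (θ 0))) * h1 + (-(b (θ 0))) * h2 + (-(b (θ 0))) * h3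
  · have e1 : (A3P2_QT (A3P2_C (u.comp θ) fun i => b (θ i) - b (θ 0)) (TT.act θ f)).1 l = 0 :=
      A3P2_Q_isHom _ _ l hl
    have e2 : (TT.act θ (A3P2_QT (A3P2_C u b) f)).1 l = 0 := by
      rw [TT_act_apply]
      exact A3P2_Q_isHom _ _ _ (by rw [List.length_map]; exact hl)
    rw [e1, e2]

private theorem A3P2_hom2 {m : ℕ} {f g : NC (PR m)} (hf : IsHom 2 f) (hg : IsHom 2 g)
    (h : ∀ x y, f [x, y] = g [x, y]) : f = g := by
  funext l
  by_cases hl : l.length = 2
  · obtain ⟨x, y, rfl⟩ := List.length_eq_two.1 hl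
    exact h x y
  · rw [hf l hl, hg l hl]

private theorem A3P2_isHom_add {m p : ℕ} {f g : NC (PR m)} (hf : IsHom p f) (hg : IsHom p g) :
    IsHom p (f + g) := by
  intro l hl
  show f l + g l = 0
  rw [hf l hl, hg l hl, add_zero]

private theorem A3P2_two {m : ℕ} {f g : NC (PR m)} (hf : IsHom 1 f) (x y : PR m) :
    ncmul f g [x, y] = f [x] * g [y] := ncmul_of_hom hf g (l₁ := [x]) (l₂ := [y]) rfl

theorem PP_add {Z : SS} (a a' : Hom Z TT.ss) :
    Htp (PP (homAdd a a')) (homAdd (PP a) (PP a')) := by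
  refine ⟨⟨fun n x => (((PP a).app n x.2 + (PP a').app n x.2) +
    A3P2_G x.1 x.2.1.1 (a.app n x.2.2) (a'.app n x.2.2) : TT.V n), ?_⟩, ?_, ?_⟩
  · intro m n θ x
    obtain ⟨u, b, σ⟩ := x
    show (((PP a).app m ((BZ2.prod Z).act θ (b, σ)) + (PP a').app m ((BZ2.prod Z).act θ (b, σ))) +
        A3P2_G (u.comp θ) (fun i => b.1 (θ i) - b.1 (θ 0)) (a.app m (Z.act θ σ))
          (a'.app m (Z.act θ σ)) : TT.V m) =
      TT.act θ (((PP a).app n (b, σ) + (PP a').app n (b, σ)) +
        A3P2_G u b.1 (a.app n σ) (a'.app n σ))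
    rw [(PP a).nat, (PP a').nat, a.nat, a'.nat]
    show ((TT.act θ ((PP a).app n (b, σ)) + TT.act θ ((PP a').app n (b, σ))) +
        A3P2_G (u.comp θ) (fun i => b.1 (θ i) - b.1 (θ 0)) (TT.act θ (a.app n σ))
          (TT.act θ (a'.app n σ)) : TT.V m) = _
    rw [A3P2_G_act, map_add, map_add]
  · rintro n ⟨b, σ⟩
    show ((kapT b.1 (a.app n σ) (a.app n σ) + kapT b.1 (a'.app n σ) (a'.app n σ)) +
        (kapT (A3P2_cut (cst 0) b.1) (a.app n σ) (a'.app n σ) +
          kapT (A3P2_cut (cst 0) fun i => b.1 i + 1) (a.app n σ) (a'.app n σ)) : TT.V n) =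
      kapT b.1 ((a.app n σ + a'.app n σ : TT.V n)) ((a.app n σ + a'.app n σ : TT.V n))
    rw [A3P2_cut_zero, A3P2_cut_zero, kapT_equiv, kapT_add_left, kapT_add_right,
      kapT_add_right]
    abel
  · rintro n ⟨b, σ⟩
    show ((kapT b.1 (a.app n σ) (a.app n σ) + kapT b.1 (a'.app n σ) (a'.app n σ)) +
        (kapT (A3P2_cut (cst 1) b.1) (a.app n σ) (a'.app n σ) +
          kapT (A3P2_cut (cst 1) fun i => b.1 i + 1) (a.app n σ) (a'.app n σ)) : TT.V n) =
      (kapT b.1 (a.app n σ) (a.app n σ) + kapT b.1 (a'.app n σ) (a'.app n σ) : TT.V n)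
    rw [A3P2_cut_one, A3P2_cut_one, two_eq_zero', add_zero]

theorem PP_one {Z : SS} {a : Hom Z TT.ss} (ha : ∀ k x, IsHom 1 (a.app k x).1) :
    Htp (homAdd (homMul (a.comp (Hom.snd BZ2 Z)) (a.comp (Hom.snd BZ2 Z)))
      (homMul (xT.comp (Hom.fst BZ2 Z)) (a.comp (Hom.snd BZ2 Z)))) (PP a) := by
  have hsq : ∀ z : ZMod 2, z * z = z := by decide
  refine ⟨⟨fun n x => (tmul (a.app n x.2.2) (a.app n x.2.2) +
    A3P2_QT (A3P2_C x.1 x.2.1.1) (a.app n x.2.2) : TT.V n), ?_⟩, ?_, ?_⟩
  · intro m n θ x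
    obtain ⟨u, b, σ⟩ := x
    show (tmul (a.app m (Z.act θ σ)) (a.app m (Z.act θ σ)) +
        A3P2_QT (A3P2_C (u.comp θ) fun i => b.1 (θ i) - b.1 (θ 0)) (a.app m (Z.act θ σ)) :
          TT.V m) =
      TT.act θ (tmul (a.app n σ) (a.app n σ) + A3P2_QT (A3P2_C u b.1) (a.app n σ))
    rw [a.nat]
    show (tmul (TT.act θ (a.app n σ)) (TT.act θ (a.app n σ)) +
        A3P2_QT (A3P2_C (u.comp θ) fun i => b.1 (θ i) - b.1 (θ 0)) (TT.act θ (a.app n σ)) :
          TT.V m) = _
    rw [A3P2_QT_act, tmul_act, map_add]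
  · rintro n ⟨b, σ⟩
    show (tmul (a.app n σ) (a.app n σ) + A3P2_QT (A3P2_C (cst 0) b.1) (a.app n σ) : TT.V n) =
      (tmul (a.app n σ) (a.app n σ) + tmul (xT.app n b) (a.app n σ) : TT.V n)
    congr 1
    apply Subtype.ext
    refine A3P2_hom2 (A3P2_Q_isHom _ _) ((xT_isHom n b).ncmul (ha n σ)) ?_
    intro x y
    show A3P2_Q (A3P2_C (cst 0) b.1) (a.app n σ).1 [x, y] =
      ncmul (xT.app n b).1 (a.app n σ).1 [x, y]
    rw [A3P2_two (xT_isHom n b), xT_one, A3P2_Q_two, A3P2_C_zero, A3P2_C_zero, A3P2_C_zero,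
      A3P2_C_zero, ← mul_add, ← mul_add, A3P2_sum (a.app n σ).2 x.1 x.1 y,
      A3P2_sum (a.app n σ).2 x.2 x.2 y, add_mul]
  · rintro n ⟨b, σ⟩
    show (tmul (a.app n σ) (a.app n σ) + A3P2_QT (A3P2_C (cst 1) b.1) (a.app n σ) : TT.V n) =
      kapT b.1 (a.app n σ) (a.app n σ)
    apply Subtype.ext
    refine A3P2_hom2 (A3P2_isHom_add ((ha n σ).ncmul (ha n σ)) (A3P2_Q_isHom _ _))
      (kap_isHom b.1 (ha n σ) (ha n σ)) ?_
    intro x y
    show ncmul (a.app n σ).1 (a.app n σ).1 [x, y] +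
        A3P2_Q (A3P2_C (cst 1) b.1) (a.app n σ).1 [x, y] =
      kap b.1 (a.app n σ).1 (a.app n σ).1 [x, y]
    rw [A3P2_two (ha n σ), A3P2_Q_two, A3P2_C_one, A3P2_C_one, A3P2_C_one, A3P2_C_one, kap_cons]
    simp only [kap_nil, hd_apply, hsq]

end MM

end

/-! ### from `Lib_MP_33f7bb_d.A3Pw` -/

section

/-!
# A3-16: the power operation on cohomology classes

`Pw n : H^n (Z) → H^(2n) (B × Z)`, the class of `PP a` for any representing map `a : Z → TT`.
* `Pw_spec`: `PP_cl` (both `a` and the chosen map have the same class).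
* `Pw_add`: representing maps `a`, `a'`; `homAdd a a'` represents the sum (`clW_add`); `PP_add`, `clW_htp`, `clW_add`.
* `Pw_map`: `PP_comp`, `clW_comp`.
* `Pw_cup`: homogeneous representing maps `a`, `a'` (`exists_homog`); `homMul a a'` represents `cup n` (`clT_mul`; all terms except
  `k = p` vanish by `clT_of_isHom`); `PP_mul`; then `clT_mul` for `PP a`, `PP a'`, homogeneous of degrees `2 p`, `2 q` (`PP_isHom`).
* `Pw_incl`: `PP_incl`, `clT_kap0`, `clW_comp`.
* `Pw_zero`: `PP_zero`, `clW_comp`.   * `Pw_one`: `PP_one`, `clW_htp`, `clW_add`, `clT_mul` (terms `k ≠ 1` vanish), `clT_xT`.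
-/

open scoped TensorProduct

namespace MM

variable {Z Z' : SS}

/-- the power operation -/
noncomputable def Pw (n : ℕ) (y : Hc Z n) : Hc (BZ2.prod Z) (2 * n) :=
  clW (evH (2 * n)) (PP (Classical.choose (exists_homog n y)))

theorem Pw_spec (n : ℕ) (a : Hom Z TT.ss) :
    Pw n (clW (evH n) a) = clW (evH (2 * n)) (PP a) :=
  PP_cl n (Classical.choose_spec (exists_homog n (clW (evH n) a))).2

/-- the product of homogeneous maps represents the cup product -/
private theorem A3Pw_mul {p q n : ℕ} (h : p + q = n) {a : Hom Z TT.ss}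
    (ha : ∀ k x, IsHom p (a.app k x).1) (b : Hom Z TT.ss) :
    clW (evH n) (homMul a b) = cup n (clW (evH p) a) (clW (evH q) b) := by
  rw [clT_mul, Finset.sum_eq_single p]
  · have key : ∀ r, r = q → cup n (clW (evH p) a) (clW (evH r) b) =
        cup n (clW (evH p) a) (clW (evH q) b) := by
      rintro _ rfl
      rfl
    exact key _ (by omega)
  · intro k _ hk
    rw [clT_of_isHom hk ha, cup_zero_left]
  · intro hp
    exact absurd (Finset.mem_range.2 (by omega)) hp

theorem Pw_add (n : ℕ) (y y' : Hc Z n) : Pw n (y + y') = Pw n y + Pw n y' := by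
  obtain ⟨a, -, rfl⟩ := exists_homog n y
  obtain ⟨a', -, rfl⟩ := exists_homog n y'
  rw [← clW_add, Pw_spec, Pw_spec, Pw_spec, clW_htp _ (PP_add a a'), clW_add]

theorem Pw_map (f : Hom Z Z') (n : ℕ) (y : Hc Z' n) :
    Pw n (Hc.map f n y) = Hc.map (Hom.prodMap (Hom.id BZ2) f) (2 * n) (Pw n y) := by
  obtain ⟨a, -, rfl⟩ := exists_homog n y
  rw [← clW_comp, Pw_spec, Pw_spec, PP_comp, clW_comp]

theorem Pw_cup {p q n : ℕ} (h : p + q = n) (y : Hc Z p) (y' : Hc Z q) :
    Pw n (cup n y y') = cup (2 * n) (Pw p y) (Pw q y') := by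
  obtain ⟨a, ha, rfl⟩ := exists_homog p y
  obtain ⟨a', -, rfl⟩ := exists_homog q y'
  rw [← A3Pw_mul h ha a', Pw_spec, Pw_spec, Pw_spec, PP_mul ha,
    A3Pw_mul (show 2 * p + 2 * q = 2 * n by omega) (PP_isHom ha)]

theorem Pw_incl (n : ℕ) (y : Hc Z n) :
    Hc.map (inclB Z) (2 * n) (Pw n y) = cup (2 * n) y y := by
  obtain ⟨a, -, rfl⟩ := exists_homog n y
  rw [Pw_spec, ← clW_comp, PP_incl, clT_kap0]

theorem Pw_zero (y : Hc Z 0) : Pw 0 y = Hc.map (Hom.snd BZ2 Z) 0 y := by
  obtain ⟨a, ha, rfl⟩ := exists_homog 0 y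
  rw [Pw_spec, PP_zero ha]
  exact clW_comp (evH 0) a (Hom.snd BZ2 Z)

theorem Pw_one (y : Hc Z 1) :
    Pw 1 y = cup 2 (Hc.map (Hom.snd BZ2 Z) 1 y) (Hc.map (Hom.snd BZ2 Z) 1 y) +
      cup 2 (Hc.map (Hom.fst BZ2 Z) 1 xB) (Hc.map (Hom.snd BZ2 Z) 1 y) := by
  obtain ⟨a, ha, rfl⟩ := exists_homog 1 y
  rw [Pw_spec]
  have h1 : clW (evH 2) (PP a) = _ := (clW_htp (evH 2) (PP_one ha)).symm
  refine h1.trans ?_
  have h2 : ∀ (k : ℕ) (x : (BZ2.prod Z).S k),
      IsHom 1 ((a.comp (Hom.snd BZ2 Z)).app k x).1 := fun k x => ha k x.2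
  have h3 : ∀ (k : ℕ) (x : (BZ2.prod Z).S k),
      IsHom 1 ((xT.comp (Hom.fst BZ2 Z)).app k x).1 := fun k x => xT_isHom k x.1
  rw [clW_add, A3Pw_mul (show 1 + 1 = 2 from rfl) h2, A3Pw_mul (show 1 + 1 = 2 from rfl) h3,
    clW_comp, clW_comp, clT_xT]

end MM

end

/-! ### from `Lib_MP_33f7bb_d.A3U` -/

section

/-!
# A3-17: natural operations on cohomology in degrees at most the degree of the argument (universal example `K'(n)`)

`K := (KK n).ss`.  `(KK n).V j = 0` for `j < n` (`KK_V_eq_zero`) and `(KK n).V n = {0, iota}`: so `K` has exactly one `j`-simplex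
(`0`) for `j < n` and two `n`-simplices.  `dif [0_(j+1)] = (j+2) [0_j]` (`0_j` the zero simplex of dimension `j`).
* `kk_low`: `0 < j < n`: every cycle of `lin K` of degree `j` is a boundary: it is `c [0_j]`; if `j` is odd, `[0_j] = dif [0_(j+1)]`
  (`j + 2` odd); if `j` is even, `dif (c [0_j]) = (j+1) c [0_(j-1)] = 0` gives `c = 0`.
* `kk_top`: `n ≥ 1`: a cycle `z` of `lin K` of degree `n` whose image in `H_n (KK n)` (under the linearisation
  `linHom (Hom.id _)`, `c [0] + c' [iota] ↦ c' iota`; `KK_iota_not_mem_B`) is zero is a boundary: `c' = 0`, then as before.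
* `natop_low`: `D : ∀ Z, Hc Z n → Hc Z m` natural, `D 0 = 0`, `m < n`: then `D = 0`.  By `em_surj` (`exists_KKev`) and `clW_id`,
  `y = a^* (iota)`, `iota = clW u (Hom.id _) ∈ Hc K n`, so `D y = a^* (D iota)`; if `0 < m < n`, `Hc K m = 0` (`kk_low`).  If `m = 0`:
  `H_0 (lin K)` is spanned by the class of the vertex `0`; pull back along the map `PT → K` given by this vertex:
  `iota` pulls back to a class in `Hc PT n`, `n ≥ 1`, which is `0` (cycles of positive degree of `lin PT` are boundaries), so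
  `D iota` pulls back to `D 0 = 0`.
* `natop_eq`: `m = n ≥ 1`: `D iota` is a multiple `r • iota` of `iota` (`kk_top`: a functional on `H_n (lin K)` vanishing on the
  kernel of `iota`).  So `D y = r • y` for all `y`.
-/

open scoped TensorProduct

namespace MM

private theorem A3U_d {Z : SS} (x : ∀ k, Z.S k) (hx : ∀ k (i : Fin (k + 2)),
    Z.act (dlt i) (x (k + 1)) = x k) (k : ℕ) (r : ZMod 2) :
    (lin Z).d k (Finsupp.single (x (k + 1)) r) =
      ((k + 2 : ℕ) : ZMod 2) • (Finsupp.single (x k) r : Ch Z k) := by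
  simp only [SV.d, LinearMap.sum_apply, Finsupp.lmapDomain_apply, Finsupp.mapDomain_single, hx]
  rw [Finset.sum_const, Finset.card_univ, Fintype.card_fin, Nat.cast_smul_eq_nsmul]

private theorem A3U_mem {Z : SS} (x : ∀ k, Z.S k) (hx : ∀ k (i : Fin (k + 2)),
    Z.act (dlt i) (x (k + 1)) = x k) (m : ℕ) (r : ZMod 2)
    (hz : (Finsupp.single (x (m + 1)) r : Ch Z (m + 1)) ∈ (lin Z).Z (m + 1)) :
    (Finsupp.single (x (m + 1)) r : Ch Z (m + 1)) ∈ (lin Z).B (m + 1) := by
  have h5 : (lin Z).d m (Finsupp.single (x (m + 1)) r) = 0 := hz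
  rw [A3U_d x hx] at h5
  have h7 : ((m + 2 : ℕ) : ZMod 2) * r = 0 := by
    have h8 := congrArg (fun u : Ch Z m => u (x m)) h5
    simp only [Finsupp.smul_apply, Finsupp.single_eq_same, smul_eq_mul] at h8
    exact h8
  rcases mul_eq_zero.1 h7 with h8 | h8
  · refine ⟨Finsupp.single (x (m + 2)) r, ?_⟩
    rw [A3U_d x hx]
    have h9 : ((m + 1 + 2 : ℕ) : ZMod 2) = 1 := by
      have : ((m + 1 + 2 : ℕ) : ZMod 2) = ((m + 2 : ℕ) : ZMod 2) + 1 := by push_cast; ring
      rw [this, h8, zero_add]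
    rw [h9, one_smul]
  · rw [h8, Finsupp.single_zero]
    exact Submodule.zero_mem _

private theorem A3U_single {α : Type*} (a : α) (h : ∀ b : α, b = a) (z : α →₀ ZMod 2) :
    z = Finsupp.single a (z a) := by
  ext b
  rw [h b, Finsupp.single_eq_same]

theorem kk_low (n j : ℕ) (h0 : 0 < j) (hj : j < n) (z : Ch (KK n).ss j)
    (hz : z ∈ (lin (KK n).ss).Z j) : z ∈ (lin (KK n).ss).B j := by
  obtain ⟨m, rfl⟩ : ∃ m, j = m + 1 := ⟨j - 1, by omega⟩
  have h1 : z = Finsupp.single (0 : (KK n).V (m + 1)) (z (0 : (KK n).V (m + 1))) :=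
    A3U_single (0 : (KK n).V (m + 1)) (fun b => KK_V_eq_zero n (m + 1) hj b) z
  rw [h1] at hz ⊢
  exact A3U_mem (Z := (KK n).ss) (fun k => (0 : (KK n).V k)) (fun k i => map_zero _) m _ hz

private theorem A3U_V_top (n : ℕ) (x : (KK n).V n) : x = 0 ∨ x = KK.iota n := by
  obtain ⟨c, rfl⟩ := Submodule.Quotient.mk_surjective _ x
  have hc : (Submodule.Quotient.mk c : (KK n).V n) =
      (c (OrderHom.id : Mo n n)) • KK.iota n := by
    have h1 : (c (OrderHom.id : Mo n n)) • KK.iota n =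
        (Submodule.Quotient.mk (Finsupp.single (OrderHom.id : Mo n n)
          (c (OrderHom.id : Mo n n))) : (KK n).V n) := by
      show _ • (Submodule.Quotient.mk (Finsupp.single (OrderHom.id : Mo n n) 1) : (KK n).V n) = _
      rw [← Submodule.Quotient.mk_smul, Finsupp.smul_single, smul_eq_mul, mul_one]
    rw [h1, Submodule.Quotient.eq]
    intro y hy
    show ¬ Function.Surjective (y : Mo n n)
    intro hs
    have hy1 : y = OrderHom.id := by
      have hb : Function.Bijective (y : Fin (n + 1) → Fin (n + 1)) :=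
        Finite.surjective_iff_bijective.1 hs
      have hmono : StrictMono (y : Fin (n + 1) → Fin (n + 1)) :=
        y.monotone.strictMono_of_injective hb.1
      ext i
      have := hmono.range_inj (strictMono_id (α := Fin (n + 1)))
      have h2 : (y : Fin (n + 1) → Fin (n + 1)) = id := by
        rw [← this, hs.range_eq, Set.range_id]
      rw [show y i = i from congrFun h2 i]
      rfl
    have hy2 := (Finset.mem_coe.1 hy)
    rw [Finsupp.mem_support_iff, hy1] at hy2
    apply hy2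
    rw [Finsupp.sub_apply, Finsupp.single_eq_same, sub_self]
  have h01 : ∀ r : ZMod 2, r = 0 ∨ r = 1 := by decide
  rcases h01 (c (OrderHom.id : Mo n n)) with h | h
  · left
    rw [hc, h, zero_smul]
  · right
    rw [hc, h, one_smul]

theorem kk_top (n : ℕ) (hn : 1 ≤ n) (z : Ch (KK n).ss n) (hz : z ∈ (lin (KK n).ss).Z n)
    (h : (linHom (Hom.id (KK n).ss)).app n z ∈ (KK n).B n) : z ∈ (lin (KK n).ss).B n := by
  have hne : (0 : (KK n).V n) ≠ KK.iota n := by
    intro h
    exact KK_iota_not_mem_B n (h ▸ Submodule.zero_mem _)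
  have h1 : z = Finsupp.single (0 : (KK n).V n) (z (0 : (KK n).V n)) +
      Finsupp.single (KK.iota n) (z (KK.iota n)) := by
    ext b
    rw [Finsupp.add_apply]
    rcases A3U_V_top n b with hb | hb
    · rw [hb, Finsupp.single_eq_same, Finsupp.single_eq_of_ne hne, add_zero]
    · rw [hb, Finsupp.single_eq_same, Finsupp.single_eq_of_ne hne.symm, zero_add]
  have h2 : (linHom (Hom.id (KK n).ss)).app n z = (z (KK.iota n)) • KK.iota n := by
    conv_lhs => rw [h1]
    rw [map_add]
    show linExt (Hom.id (KK n).ss).app n (Finsupp.single (0 : (KK n).V n) (z (0 : (KK n).V n))) +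
      linExt (Hom.id (KK n).ss).app n (Finsupp.single (KK.iota n) (z (KK.iota n))) = _
    rw [linExt_single, linExt_single]
    show (z (0 : (KK n).V n)) • (0 : (KK n).V n) + (z (KK.iota n)) • KK.iota n = _
    rw [smul_zero, zero_add]
  have h3 : z (KK.iota n) = 0 := by
    have h01 : ∀ r : ZMod 2, r = 0 ∨ r = 1 := by decide
    rcases h01 (z (KK.iota n)) with h | h'
    · exact h
    · rw [h2, h', one_smul] at h
      exact absurd h (KK_iota_not_mem_B n)
  rw [h3, Finsupp.single_zero, add_zero] at h1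
  obtain ⟨m, rfl⟩ : ∃ m, n = m + 1 := ⟨n - 1, by omega⟩
  rw [h1] at hz ⊢
  exact A3U_mem (Z := (KK (m + 1)).ss) (fun k => (0 : (KK (m + 1)).V k)) (fun k i => map_zero _)
    m _ hz

private theorem A3U_cls_zero {W : SV} {n : ℕ} (z : W.V n) (hz : z ∈ W.Z n) (h : z ∈ W.B n) :
    W.cls z hz = 0 := (Submodule.Quotient.mk_eq_zero _).2 h

private theorem A3U_cls_zero_iff {W : SV} {n : ℕ} (z : W.V n) (hz : z ∈ W.Z n) :
    W.cls z hz = 0 ↔ z ∈ W.B n := Submodule.Quotient.mk_eq_zero _

private theorem A3U_PT (n : ℕ) (hn : 1 ≤ n) (y : Hc PT n) : y = 0 := by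
  refine LinearMap.ext fun x => ?_
  obtain ⟨z, hz, rfl⟩ := A3Box_exists_cls x
  obtain ⟨m, rfl⟩ : ∃ m, n = m + 1 := ⟨n - 1, by omega⟩
  have h1 : z = Finsupp.single () (z ()) := A3U_single () (fun b => rfl) z
  have h2 : z ∈ (lin PT).B (m + 1) := by
    rw [h1] at hz ⊢
    exact A3U_mem (Z := PT) (fun k => ()) (fun k i => rfl) m _ hz
  rw [A3U_cls_zero z hz h2, map_zero, LinearMap.zero_apply]

private noncomputable def A3U_pt (n : ℕ) : Hom PT (KK n).ss :=
  ⟨fun k _ => (0 : (KK n).V k), fun f _ => (map_zero ((KK n).act f)).symm⟩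

private theorem A3U_zero {n m : ℕ} (hm : m < n) (D : ∀ Z : SS, Hc Z n → Hc Z m)
    (hnat : ∀ {Z Z' : SS} (f : Hom Z Z') (y : Hc Z' n), D Z (Hc.map f n y) = Hc.map f m (D Z' y))
    (h0 : ∀ Z, D Z 0 = 0) (w : Hc (KK n).ss n) : D (KK n).ss w = 0 := by
  refine LinearMap.ext fun x => ?_
  obtain ⟨z, hz, rfl⟩ := A3Box_exists_cls x
  rw [LinearMap.zero_apply]
  rcases Nat.eq_zero_or_pos m with rfl | hm0
  · have h1 := hnat (A3U_pt n) w
    rw [A3U_PT n (by omega) (Hc.map (A3U_pt n) n w), h0] at h1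
    have h2 : z = Finsupp.single (0 : (KK n).V 0) (z (0 : (KK n).V 0)) :=
      A3U_single (0 : (KK n).V 0) (fun b => KK_V_eq_zero n 0 hm b) z
    have h3 := LinearMap.congr_fun h1 ((lin PT).cls (Finsupp.single () (z (0 : (KK n).V 0)))
      Submodule.mem_top)
    rw [LinearMap.zero_apply] at h3
    have h4 : Hc.map (A3U_pt n) 0 (D (KK n).ss w) ((lin PT).cls
        (Finsupp.single () (z (0 : (KK n).V 0))) Submodule.mem_top) =
        D (KK n).ss w ((lin (KK n).ss).cls ((linMap (A3U_pt n)).app 0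
          (Finsupp.single () (z (0 : (KK n).V 0)))) (SVHom.map_Z _ Submodule.mem_top)) := rfl
    rw [h4] at h3
    rw [h3]
    congr 1
    have h5 : (linMap (A3U_pt n)).app 0 (Finsupp.single () (z (0 : (KK n).V 0))) = z := by
      conv_rhs => rw [h2]
      show Finsupp.mapDomain _ (Finsupp.single () (z (0 : (KK n).V 0))) = _
      rw [Finsupp.mapDomain_single]
      rfl
    exact A3Box_cls_congr h5.symm _ _
  · rw [A3U_cls_zero z hz (kk_low n m hm0 hm z hz), map_zero]

theorem natop_low {n m : ℕ} (hm : m < n) (D : ∀ Z : SS, Hc Z n → Hc Z m)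
    (hnat : ∀ {Z Z' : SS} (f : Hom Z Z') (y : Hc Z' n), D Z (Hc.map f n y) = Hc.map f m (D Z' y))
    (h0 : ∀ Z, D Z 0 = 0) (Z : SS) (y : Hc Z n) : D Z y = 0 := by
  obtain ⟨u, hu⟩ := exists_KKev n
  obtain ⟨a, rfl⟩ := em_surj hu y
  rw [clW_id, hnat, A3U_zero hm D hnat h0, map_zero]

private theorem A3U_dual {V : Type*} [AddCommGroup V] [Module (ZMod 2) V]
    (i f : Module.Dual (ZMod 2) V) (hi : Function.Injective i) : ∃ r : ZMod 2, f = r • i := by
  have h01 : ∀ r : ZMod 2, r = 0 ∨ r = 1 := by decide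
  by_cases h : ∃ x, i x = 1
  · obtain ⟨x, hx⟩ := h
    refine ⟨f x, LinearMap.ext fun y => ?_⟩
    rw [LinearMap.smul_apply, smul_eq_mul]
    rcases h01 (i y) with hy | hy
    · have : y = 0 := hi (by rw [hy, map_zero])
      rw [this, map_zero, map_zero, mul_zero]
    · have : y = x := hi (by rw [hy, hx])
      rw [this, hx, mul_one]
  · refine ⟨0, LinearMap.ext fun y => ?_⟩
    rw [zero_smul, LinearMap.zero_apply]
    rcases h01 (i y) with hy | hy
    · have : y = 0 := hi (by rw [hy, map_zero])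
      rw [this, map_zero]
    · exact absurd ⟨y, hy⟩ h

theorem natop_eq {n : ℕ} (hn : 1 ≤ n) (D : ∀ Z : SS, Hc Z n → Hc Z n)
    (hnat : ∀ {Z Z' : SS} (f : Hom Z Z') (y : Hc Z' n), D Z (Hc.map f n y) = Hc.map f n (D Z' y))
    (h0 : ∀ Z, D Z 0 = 0) : ∃ r : ZMod 2, ∀ (Z : SS) (y : Hc Z n), D Z y = r • y := by
  obtain ⟨u, hu⟩ := exists_KKev n
  have hinj : Function.Injective (clW u (Hom.id (KK n).ss)) := by
    rw [injective_iff_map_eq_zero]
    intro x hx
    obtain ⟨z, hz, rfl⟩ := A3Box_exists_cls x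
    have h1 : u ((KK n).cls ((linHom (Hom.id (KK n).ss)).app n z)
        ((linHom (Hom.id (KK n).ss)).map_Z hz)) = 0 := hx
    have h2 := hu.bij.1 (h1.trans (map_zero u).symm)
    exact A3U_cls_zero z hz (kk_top n hn z hz ((A3U_cls_zero_iff _ _).1 h2))
  obtain ⟨r, hr⟩ := A3U_dual _ (D (KK n).ss (clW u (Hom.id (KK n).ss))) hinj
  refine ⟨r, fun Z y => ?_⟩
  obtain ⟨a, rfl⟩ := em_surj hu y
  rw [clW_id, hnat, hr, map_smul]

end MM

end

/-! ### from `Lib_MP_33f7bb_d.A3SqU` -/

section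

/-!
# A3-18: Steenrod squares on unreduced cohomology

`SqU n m : H^n (Z) → H^m (Z)` = coefficient of `x^(2n-m)` of the power operation, for `n ≤ m ≤ 2 n`, else `0`.

* `cf_Pw_low`: `i > n`, `i + m = 2 n` (so `m < n`): `cf i m (2n) (Pw n y) = 0`: `natop_low` for `D Z y = cf i m (2n) (Pw n y)`
  (natural: `Pw_map`, `cf_map`; `Pw n 0 = 0` from `Pw_add`).  For `i + m ≠ 2 n`: `cf_ne`.
* `cf_Pw_id`: `cf n n (2n) (Pw n y) = y`.  `n = 0`: `Pw_zero`, `cf_snd_zero`.  `n ≥ 1`: by `natop_eq` it is `r • y` for some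
  `r = r_n`.  Show `r_n = 1` by induction on `n ≥ 1`, applied to `Z = BZ2`, `y = xP n ≠ 0`.  `n = 1`: `Pw_one`: the first summand is
  `snd^* (cup 2 y y)`, coefficient `0` (`cf_snd_ne`, `Hc.map_cup`), the second gives `y` (`cf_box`, `xP_one`).  `n + 1`:
  `xP (n+1) = cup (n+1) (xP 1) (xP n)` (`xP_mul`), `Pw_cup`, `cf_cup` with `k = m = n + 1`: the terms `i = 0` (`cf (n+1) (n-1) (2n)
  (Pw n _) = 0`) and `i ≥ 2` (`cf i (2-i) 2 (Pw 1 _) = 0`) vanish by `cf_Pw_low` / `cf_ne`; the term `i = 1` is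
  `cup (n+1) (xP 1) (xP n) = xP (n+1)`.
* `SqU_add`: `Pw_add`.  `SqU_map`: `Pw_map`, `cf_map`.  `SqU_id`: `cf_Pw_id`.  `SqU_top`: `cf_zero`, `Pw_incl`.
* `SqU_cup`: `p + q = n`.  If `m < n` or `m > 2 n` both sides vanish (`SqU` of a term with `k < p` or `m - k < q`, resp. `k > 2 p` or
  `m - k > 2 q`).  Else `Pw_cup`, `cf_cup` with `k = 2 n - m`: the sum over `i ≤ 2 n - m` of
  `cup m (cf i (2p-i) (2p) (Pw p a)) (cf (k-i) (2q-(k-i)) (2q) (Pw q b))`; substitute `i = 2 p - j`: `j = 2p - i` runs over the degrees of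
  the first factor; terms with `i > 2p` vanish, `cf i (2p - i) (2p) (Pw p a) = SqU p (2p-i) a` for `i ≤ 2 p` (if `2p - i < p` both are
  `0` by `cf_Pw_low`), and `m - (2p - i) = 2q - (k - i)`.  Terms of the right hand side with `j > 2 p` or `m - j > 2 q` vanish.
-/

open scoped TensorProduct

namespace MM

variable {Z Z' : SS}

theorem Pw_map_zero (n : ℕ) : Pw n (0 : Hc Z n) = 0 := by
  have h := Pw_add n (0 : Hc Z n) 0
  rw [add_zero] at h
  exact left_eq_add.1 h

theorem cf_Pw_low {n i m : ℕ} (hi : n < i) (y : Hc Z n) : cf i m (2 * n) (Pw n y) = 0 := by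
  by_cases h : i + m = 2 * n
  · exact natop_low (m := m) (n := n) (by omega) (fun Z y => cf i m (2 * n) (Pw n y))
      (fun f y => by
        show cf i m (2 * n) (Pw n (Hc.map f n y)) = Hc.map f m (cf i m (2 * n) (Pw n y))
        rw [Pw_map, cf_map])
      (fun Z => by
        show cf i m (2 * n) (Pw n (0 : Hc Z n)) = 0
        rw [Pw_map_zero, map_zero]) Z y
  · exact cf_ne h _

private theorem A3SqU_one (y : Hc Z 1) : cf 1 1 (2 * 1) (Pw 1 y) = y := by
  rw [Pw_one]
  show cf 1 1 2 (cup 2 (Hc.map (Hom.snd BZ2 Z) 1 y) (Hc.map (Hom.snd BZ2 Z) 1 y) +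
      cup 2 (Hc.map (Hom.fst BZ2 Z) 1 xB) (Hc.map (Hom.snd BZ2 Z) 1 y)) = y
  rw [map_add, ← Hc.map_cup, cf_snd_ne one_ne_zero, zero_add, ← xP_one]
  exact cf_box (j := 1) (q := 1) (n := 2) rfl y

private theorem A3SqU_xP (n : ℕ) (hn : 1 ≤ n) : cf n n (2 * n) (Pw n (xP n)) = xP n := by
  induction n, hn using Nat.le_induction with
  | base => exact A3SqU_one _
  | succ n hn ih =>
    have h1 : cup (n + 1) (xP 1) (xP n) = xP (n + 1) := xP_mul (by omega)
    rw [← h1, Pw_cup (show 1 + n = n + 1 by omega),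
      cf_cup (show 2 * 1 + 2 * n = 2 * (n + 1) by omega) (show n + 1 + (n + 1) = 2 * (n + 1) by omega),
      Finset.sum_eq_single 1]
    · have h2 : ∀ a b c : ℕ, a = 1 → b = n → c = n →
          cup (n + 1) (cf 1 a (2 * 1) (Pw 1 (xP 1))) (cf b c (2 * n) (Pw n (xP n))) =
            cup (n + 1) (xP 1) (xP n) := by
        intro a b c ha hb hc
        subst ha hb hc
        rw [ih, A3SqU_one]
      exact h2 _ _ _ (by omega) (by omega) (by omega)
    · intro i _ hi
      rcases Nat.lt_or_ge 1 i with h3 | h3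
      · rw [cf_Pw_low h3, cup_zero_left]
      · have hi0 : i = 0 := by omega
        subst hi0
        rw [cf_Pw_low (show n < n + 1 - 0 by omega), cup_zero_right]
    · intro h3
      exact absurd (Finset.mem_range.2 (by omega)) h3

theorem cf_Pw_id (n : ℕ) (y : Hc Z n) : cf n n (2 * n) (Pw n y) = y := by
  rcases Nat.eq_zero_or_pos n with rfl | hn
  · rw [Pw_zero]
    exact cf_snd_zero 0 y
  · obtain ⟨r, hr⟩ := natop_eq hn (fun Z y => cf n n (2 * n) (Pw n y))
      (fun f y => by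
        show cf n n (2 * n) (Pw n (Hc.map f n y)) = Hc.map f n (cf n n (2 * n) (Pw n y))
        rw [Pw_map, cf_map])
      (fun Z => by
        show cf n n (2 * n) (Pw n (0 : Hc Z n)) = 0
        rw [Pw_map_zero, map_zero])
    have h1 : cf n n (2 * n) (Pw n (xP n)) = r • xP n := hr BZ2 (xP n)
    rw [A3SqU_xP n hn] at h1
    have h2 := congrArg (fun w : Hc BZ2 n => w (eU n)) h1
    have h3 : xP n (eU n) = r * xP n (eU n) := h2
    rw [xP_eU, mul_one] at h3
    have h4 : cf n n (2 * n) (Pw n y) = r • y := hr Z y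
    rw [h4, ← h3, one_smul]

/-- Steenrod squares on unreduced cohomology -/
noncomputable def SqU (n m : ℕ) : Hc Z n →ₗ[ZMod 2] Hc Z m :=
  if _h : n ≤ m ∧ m ≤ 2 * n then
    AddMonoidHom.toZModLinearMap 2
      { toFun := fun y => cf (2 * n - m) m (2 * n) (Pw n y)
        map_zero' := by rw [Pw_map_zero, map_zero]
        map_add' := fun y y' => by rw [Pw_add, map_add] }
  else 0

theorem SqU_apply {n m : ℕ} (h : n ≤ m ∧ m ≤ 2 * n) (y : Hc Z n) :
    SqU n m y = cf (2 * n - m) m (2 * n) (Pw n y) := by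
  rw [SqU, dif_pos h]; rfl

theorem SqU_lt {n m : ℕ} (h : m < n) : (SqU n m : Hc Z n →ₗ[ZMod 2] Hc Z m) = 0 :=
  dif_neg fun h' => by omega

theorem SqU_unst {n m : ℕ} (h : 2 * n < m) : (SqU n m : Hc Z n →ₗ[ZMod 2] Hc Z m) = 0 :=
  dif_neg fun h' => by omega

/-- `SqU` is the coefficient of `x^i`, `i + m = 2 n` -/
private theorem A3SqU_eq_cf {n i m : ℕ} (h : i + m = 2 * n) (y : Hc Z n) :
    SqU n m y = cf i m (2 * n) (Pw n y) := by
  rcases Nat.lt_or_ge m n with h1 | h1
  · rw [SqU_lt h1, cf_Pw_low (show n < i by omega)]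
    rfl
  · rw [SqU_apply ⟨h1, by omega⟩, show 2 * n - m = i by omega]

theorem SqU_map (f : Hom Z Z') (n m : ℕ) (y : Hc Z' n) :
    SqU n m (Hc.map f n y) = Hc.map f m (SqU n m y) := by
  by_cases h : m ≤ 2 * n
  · rw [A3SqU_eq_cf (show 2 * n - m + m = 2 * n by omega),
      A3SqU_eq_cf (show 2 * n - m + m = 2 * n by omega), Pw_map, cf_map]
  · rw [SqU_unst (by omega), SqU_unst (by omega)]
    show (0 : Hc Z m) = Hc.map f m 0
    rw [map_zero]

theorem SqU_id (n : ℕ) : (SqU n n : Hc Z n →ₗ[ZMod 2] Hc Z n) = LinearMap.id := by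
  apply LinearMap.ext
  intro y
  rw [A3SqU_eq_cf (show n + n = 2 * n by omega), cf_Pw_id]
  rfl

theorem SqU_top (n : ℕ) (y : Hc Z n) : SqU n (2 * n) y = cup (2 * n) y y := by
  rw [A3SqU_eq_cf (show 0 + 2 * n = 2 * n by omega), cf_zero, Pw_incl]

theorem SqU_cup {p q n : ℕ} (h : p + q = n) (m : ℕ) (a : Hc Z p) (b : Hc Z q) :
    SqU n m (cup n a b) = ∑ k ∈ Finset.range (m + 1), cup m (SqU p k a) (SqU q (m - k) b) := by
  rcases Nat.lt_or_ge (2 * n) m with hm | hm
  · rw [SqU_unst hm]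
    show (0 : Hc Z m) = _
    symm
    refine Finset.sum_eq_zero fun k hk => ?_
    rcases Nat.lt_or_ge (2 * p) k with h1 | h1
    · rw [SqU_unst h1]
      exact cup_zero_left _
    · rw [SqU_unst (show 2 * q < m - k by omega)]
      exact cup_zero_right _
  · obtain ⟨K, hK⟩ : ∃ K, K + m = 2 * n := ⟨2 * n - m, by omega⟩
    rw [A3SqU_eq_cf hK, Pw_cup h, cf_cup (show 2 * p + 2 * q = 2 * n by omega) hK]
    have hL : ∑ i ∈ (Finset.range (K + 1)).filter (fun i => i ≤ 2 * p ∧ K - i ≤ 2 * q),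
        cup m (cf i (2 * p - i) (2 * p) (Pw p a))
          (cf (K - i) (2 * q - (K - i)) (2 * q) (Pw q b)) =
        ∑ i ∈ Finset.range (K + 1), cup m (cf i (2 * p - i) (2 * p) (Pw p a))
          (cf (K - i) (2 * q - (K - i)) (2 * q) (Pw q b)) := by
      refine Finset.sum_filter_of_ne fun i _ hne => ?_
      constructor
      · by_contra h1
        refine hne ?_
        rw [cf_Pw_low (show p < i by omega), cup_zero_left]
      · by_contra h1
        refine hne ?_
        rw [cf_Pw_low (show q < K - i by omega), cup_zero_right]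
    have hR : ∑ k ∈ (Finset.range (m + 1)).filter (fun k => k ≤ 2 * p ∧ m - k ≤ 2 * q),
        cup m (SqU p k a) (SqU q (m - k) b) =
        ∑ k ∈ Finset.range (m + 1), cup m (SqU p k a) (SqU q (m - k) b) := by
      refine Finset.sum_filter_of_ne fun k _ hne => ?_
      constructor
      · by_contra h1
        refine hne ?_
        rw [SqU_unst (show 2 * p < k by omega)]
        exact cup_zero_left _
      · by_contra h1
        refine hne ?_
        rw [SqU_unst (show 2 * q < m - k by omega)]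
        exact cup_zero_right _
    rw [← hL, ← hR]
    refine Finset.sum_bij' (fun i _ => 2 * p - i) (fun k _ => 2 * p - k) ?_ ?_ ?_ ?_ ?_
    · intro i hi
      rw [Finset.mem_filter, Finset.mem_range] at hi ⊢
      omega
    · intro k hk
      rw [Finset.mem_filter, Finset.mem_range] at hk ⊢
      omega
    · intro i hi
      rw [Finset.mem_filter, Finset.mem_range] at hi
      omega
    · intro k hk
      rw [Finset.mem_filter, Finset.mem_range] at hk
      omega
    · intro i hi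
      rw [Finset.mem_filter, Finset.mem_range] at hi
      rw [show m - (2 * p - i) = 2 * q - (K - i) by omega,
        A3SqU_eq_cf (show i + (2 * p - i) = 2 * p by omega),
        A3SqU_eq_cf (show K - i + (2 * q - (K - i)) = 2 * q by omega)]

end MM

end

/-! ### from `Lib_MP_33f7bb_d.A3Sq` -/

section

/-!
# A3-19: the family `SqFam` of Steenrod operations on reduced cohomology

`red z₀ n : H~^n → H^n` is injective (`red_injective`), bijective for `n ≥ 1` (`red_surj`), natural (`red_nat`) and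
multiplicative (`red_cupR`).
`exists_sqR`: for `y ∈ H~^n` there is `a ∈ H~^m` with `red a = SqU n m (red y)`: if `m ≥ 1` by `red_surj`; if `m = 0`: for `n = 0` take
`a = y` (`SqU_id`), for `n ≥ 1` `SqU n 0 = 0` (`SqU_lt`), `a = 0`.
The operation `op z₀ n m y` := this `a` (unique, hence linear in `y`).  All axioms follow by applying `red` (injective) from the
corresponding statements for `SqU`, `red_nat`, `red_cupR` (`map_sum` for the Cartan formula).
-/

open scoped TensorProduct

namespace MM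

theorem exists_sqR {Z : SS} (z₀ : Z.S 0) (n m : ℕ) (y : Module.Dual (ZMod 2) ((R Z z₀).H n)) :
    ∃ a : Module.Dual (ZMod 2) ((R Z z₀).H m), red z₀ m a = SqU n m (red z₀ n y) := by
  by_cases hm : 1 ≤ m
  · exact red_surj z₀ m hm _
  · obtain rfl : m = 0 := by omega
    by_cases hn : n = 0
    · subst hn
      exact ⟨y, by rw [SqU_id]; rfl⟩
    · exact ⟨0, by rw [SqU_lt (by omega), map_zero]; rfl⟩

/-- the operations on reduced cohomology (as a function) -/
noncomputable def sqRf {Z : SS} (z₀ : Z.S 0) (n m : ℕ)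
    (y : Module.Dual (ZMod 2) ((R Z z₀).H n)) : Module.Dual (ZMod 2) ((R Z z₀).H m) :=
  Classical.choose (exists_sqR z₀ n m y)

theorem red_sqRf {Z : SS} (z₀ : Z.S 0) (n m : ℕ)
    (y : Module.Dual (ZMod 2) ((R Z z₀).H n)) :
    red z₀ m (sqRf z₀ n m y) = SqU n m (red z₀ n y) := Classical.choose_spec (exists_sqR z₀ n m y)

/-- the operations on reduced cohomology as linear maps -/
private noncomputable def A3Sq_op (Z : SS) (z₀ : Z.S 0) (n m : ℕ) :
    Module.Dual (ZMod 2) ((R Z z₀).H n) →ₗ[ZMod 2] Module.Dual (ZMod 2) ((R Z z₀).H m) where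
  toFun := sqRf z₀ n m
  map_add' y y' := by
    apply red_injective z₀ m
    rw [red_sqRf, map_add, map_add, map_add, red_sqRf, red_sqRf]
  map_smul' c y := by
    apply red_injective z₀ m
    rw [red_sqRf, map_smul, map_smul, map_smul, red_sqRf]
    rfl

private theorem A3Sq_red (Z : SS) (z₀ : Z.S 0) (n m : ℕ)
    (y : Module.Dual (ZMod 2) ((R Z z₀).H n)) :
    red z₀ m (A3Sq_op Z z₀ n m y) = SqU n m (red z₀ n y) := red_sqRf z₀ n m y

/-- existence of Steenrod operations, with their description in unreduced cohomology -/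
theorem exists_SqFam' : ∃ S : SqFam, ∀ (Z : SS) (z₀ : Z.S 0) (n m : ℕ)
    (y : Module.Dual (ZMod 2) ((R Z z₀).H n)),
    red z₀ m (S.op Z z₀ n m y) = SqU n m (red z₀ n y) := by
  refine ⟨{
    op := A3Sq_op
    nat := ?_
    lt := ?_
    id := ?_
    unst := ?_
    top := ?_
    cartan := ?_ }, fun Z z₀ n m y => A3Sq_red Z z₀ n m y⟩
  · intro Z Z' z₀ z₀' f hf n m y
    apply red_injective z₀ m
    rw [red_nat, A3Sq_red, A3Sq_red, red_nat, SqU_map]
  · intro Z z₀ n m h
    apply LinearMap.ext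
    intro y
    apply red_injective z₀ m
    rw [A3Sq_red, SqU_lt h, LinearMap.zero_apply, LinearMap.zero_apply, map_zero]
  · intro Z z₀ n
    apply LinearMap.ext
    intro y
    apply red_injective z₀ n
    rw [A3Sq_red, SqU_id]
    rfl
  · intro Z z₀ n m h
    apply LinearMap.ext
    intro y
    apply red_injective z₀ m
    rw [A3Sq_red, SqU_unst h, LinearMap.zero_apply, LinearMap.zero_apply, map_zero]
  · intro Z z₀ n y
    apply red_injective z₀ (2 * n)
    rw [A3Sq_red, SqU_top, red_cupR]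
  · intro Z z₀ p q n m h a b
    apply red_injective z₀ m
    rw [A3Sq_red, red_cupR, SqU_cup h, map_sum]
    refine Finset.sum_congr rfl fun k _ => ?_
    rw [red_cupR, A3Sq_red, A3Sq_red]

theorem exists_SqFam : Nonempty SqFam := by
  obtain ⟨S, -⟩ := exists_SqFam'
  exact ⟨S⟩

end MM

end

/-! ### from `Lib_MP_33f7bb_d.B302` -/

section

/-!
# B3-02 (L2, first projection): `TL c K K' C → lab N K' C`, fibre `lab M K K'`

`K ≤ K' ≤ C`; `TL c K K' C`: labels `a` in `M` supported in `C \ K`, integral (`∈ range c.ι`) outside `K'`.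
`c.ι` is injective (`c.inj n n' 0`).

The map `p`: `(p a) x = 0` for `x ∈ K'`, and `ι ((p a) x) = a x` for `x ∉ K'` (choice; build the finsupp
with `Finsupp.onFinset a.1.support` or `Finsupp.mapRange` with a left inverse `ρ : M → N` of `ι`, `ρ 0 = 0`:
`p a = (a.1.filter (∉ K')).mapRange ρ`).  Characterisation: `(p a).mapRange ι = a.filter (∉ K')`.
Since `mapRange ι` is injective on labels and commutes with the structure maps (`labAct_mapRange`),
naturality of `p` follows from naturality of `labProj`.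

Stratification over `b : (lab N K' C).S n`: `F = lab M K K'`, `Φ (z, β) = z + labAct M K β (b.mapRange ι)`.
* it lies in `TLM`: outside `K'`, `z` vanishes and `labAct M K β (b.mapRange ι) = (labAct N K β b).mapRange ι`
  is integral.
* over `b`: `((Φ (z,β)).filter (∉ K')) = labAct M K' β (b.mapRange ι) = (labAct N K' β b).mapRange ι`.
* `β` surjective: `labAct M K β (b.mapRange ι)` vanishes on `K'` (`act_mem_iff`: `act β x ∈ K' ↔ x ∈ K'`),
  so `z` is recovered by restriction to `K'`; conversely `e = e|K' + e|(∉ K')`.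
* the fibre is `YAc` by `h`.
-/

namespace MM

open Classical

private theorem B302_inj {N M D : Type} [AddCommMonoid N] [AddCommMonoid M] [AddCommGroup D]
    (c : Coef N M D) : Function.Injective c.ι := by
  intro n n' h
  exact c.inj n n' 0 (by rw [h])

private theorem B302_ex {N M D : Type} [AddCommMonoid N] [AddCommMonoid M] [AddCommGroup D]
    (c : Coef N M D) : ∃ ρ : M → N, ρ 0 = 0 ∧ ∀ n, ρ (c.ι n) = n := by
  have : Nonempty N := ⟨0⟩
  have h := Function.leftInverse_invFun (B302_inj c)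
  refine ⟨Function.invFun c.ι, ?_, h⟩
  have h0 := h 0
  rwa [map_zero] at h0

/-- a left inverse of `ι` -/
private noncomputable def B302_rho {N M D : Type} [AddCommMonoid N] [AddCommMonoid M]
    [AddCommGroup D] (c : Coef N M D) : M → N := (B302_ex c).choose

private theorem B302_rho0 {N M D : Type} [AddCommMonoid N] [AddCommMonoid M] [AddCommGroup D]
    (c : Coef N M D) : B302_rho c 0 = 0 := (B302_ex c).choose_spec.1

private theorem B302_rhoi {N M D : Type} [AddCommMonoid N] [AddCommMonoid M] [AddCommGroup D]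
    (c : Coef N M D) (n : N) : B302_rho c (c.ι n) = n := (B302_ex c).choose_spec.2 n

/-- the integral part outside `K'` -/
private noncomputable def B302_fun {N M D : Type} [AddCommMonoid N] [AddCommMonoid M]
    [AddCommGroup D] (c : Coef N M D) {U : SS} (K' : Sub U) (n : ℕ) (a : U.S n →₀ M) :
    U.S n →₀ N :=
  (a.filter (fun x => x ∉ K'.car n)).mapRange (B302_rho c) (B302_rho0 c)

private theorem B302_of_mem {N M D : Type} [AddCommMonoid N] [AddCommMonoid M] [AddCommGroup D]
    (c : Coef N M D) {U : SS} (K' : Sub U) (n : ℕ) (a : U.S n →₀ M) {x : U.S n}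
    (hx : x ∈ K'.car n) : B302_fun c K' n a x = 0 := by
  rw [B302_fun, Finsupp.mapRange_apply, Finsupp.filter_apply, if_neg (not_not.2 hx), B302_rho0]

private theorem B302_of_notMem {N M D : Type} [AddCommMonoid N] [AddCommMonoid M]
    [AddCommGroup D] (c : Coef N M D) {U : SS} (K' : Sub U) (n : ℕ) (a : U.S n →₀ M)
    {x : U.S n} (hx : x ∉ K'.car n) : B302_fun c K' n a x = B302_rho c (a x) := by
  rw [B302_fun, Finsupp.mapRange_apply, Finsupp.filter_apply, if_pos hx]

private theorem B302_char {N M D : Type} [AddCommMonoid N] [AddCommMonoid M] [AddCommGroup D]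
    (c : Coef N M D) {U : SS} {K K' C : Sub U} {n : ℕ} {a : U.S n →₀ M}
    (ha : a ∈ TLM c K K' C n) :
    (B302_fun c K' n a).mapRange c.ι (map_zero c.ι) = a.filter (fun x => x ∉ K'.car n) := by
  ext x
  rw [Finsupp.mapRange_apply, Finsupp.filter_apply]
  by_cases h : x ∈ K'.car n
  · rw [B302_of_mem c K' n a h, map_zero, if_neg (not_not.2 h)]
  · obtain ⟨k, hk⟩ := ha.2 x h
    rw [B302_of_notMem c K' n a h, if_pos h, ← hk, B302_rhoi]

private theorem B302_mem {N M D : Type} [AddCommMonoid N] [AddCommMonoid M] [AddCommGroup D]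
    (c : Coef N M D) {U : SS} {K K' C : Sub U} {n : ℕ} {a : U.S n →₀ M}
    (ha : a ∈ TLM c K K' C n) : B302_fun c K' n a ∈ labM N K' C n := by
  intro x hx
  have h1 : x ∉ K'.car n := fun h => hx (B302_of_mem c K' n a h)
  refine ⟨(ha.1 x fun h0 => hx ?_).1, h1⟩
  rw [B302_of_notMem c K' n a h1, h0, B302_rho0]

/-- dropping the part in the bigger subcomplex -/
private theorem B302_fil {M : Type} [AddCommMonoid M] {U : SS} {K K' : Sub U} (hK : K ≤ K')
    {m n : ℕ} (f : Mo m n) (a : U.S n →₀ M) :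
    (labAct M K f a).filter (fun x => x ∉ K'.car m) = labAct M K' f a := by
  ext y
  rw [Finsupp.filter_apply]
  by_cases h : y ∈ K'.car m
  · rw [if_neg (not_not.2 h), labAct_of_mem K' f _ h]
  · rw [if_pos h, labAct_of_notMem K' f _ h, labAct_of_notMem K f _ fun h' => h (hK _ h')]

private theorem B302_minj {N M D : Type} [AddCommMonoid N] [AddCommMonoid M] [AddCommGroup D]
    (c : Coef N M D) {X : Type} {a b : X →₀ N}
    (h : a.mapRange c.ι (map_zero c.ι) = b.mapRange c.ι (map_zero c.ι)) : a = b :=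
  Finsupp.mapRange_injective c.ι (map_zero c.ι) (B302_inj c) h

/-- the projection -/
private noncomputable def B302_p {N M D : Type} [AddCommMonoid N] [AddCommMonoid M]
    [AddCommGroup D] (c : Coef N M D) {U : SS} {K K' C : Sub U} (hK : K ≤ K') :
    Hom (TL c K K' C) (lab N K' C) where
  app n a := ⟨B302_fun c K' n a.1, B302_mem c a.2⟩
  nat {m n} f a := by
    apply Subtype.ext
    show B302_fun c K' m (labAct M K f a.1) = labAct N K' f (B302_fun c K' n a.1)
    apply B302_minj c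
    rw [B302_char c (TLM_act c f a.2), ← labAct_mapRange c.ι K' f, B302_char c a.2,
      labAct_filter, B302_fil hK]

private theorem B302_zfil {M : Type} [AddCommMonoid M] {U : SS} {K K' : Sub U} {m : ℕ}
    {z : U.S m →₀ M} (hz : z ∈ labM M K K' m) : z.filter (fun x => x ∉ K'.car m) = 0 := by
  rw [Finsupp.filter_eq_zero_iff]
  intro x hx
  by_contra h
  exact hx (hz x h).1

/-- the part of `Φ` coming from the base -/
private noncomputable abbrev B302_B {N M D : Type} [AddCommMonoid N] [AddCommMonoid M]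
    [AddCommGroup D] (c : Coef N M D) {X : Type} (b : X →₀ N) : X →₀ M :=
  b.mapRange c.ι (map_zero c.ι)

private theorem B302_Phi_mem {N M D : Type} [AddCommMonoid N] [AddCommMonoid M] [AddCommGroup D]
    (c : Coef N M D) {U : SS} {K K' C : Sub U} (hK : K ≤ K') (hC : K' ≤ C) {m n : ℕ}
    {b : U.S n →₀ N} (hb : b ∈ labM N K' C n) (β : Mo m n) {z : U.S m →₀ M}
    (hz : z ∈ labM M K K' m) : z + labAct M K β (B302_B c b) ∈ TLM c K K' C m := by
  have h1 : z ∈ labM M K C m := fun x hx => ⟨hC _ (hz x hx).1, (hz x hx).2⟩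
  have h2 : B302_B c b ∈ labM M K C n := by
    intro x hx
    have h3 : b x ≠ 0 := by
      intro h0
      apply hx
      rw [B302_B, Finsupp.mapRange_apply, h0, map_zero]
    exact ⟨(hb x h3).1, fun h' => (hb x h3).2 (hK _ h')⟩
  refine ⟨add_mem h1 (labAct_mem β h2), fun x hx => ⟨labAct N K β b x, ?_⟩⟩
  have h3 : z x = 0 := by
    by_contra h
    exact hx (hz x h).1
  rw [Finsupp.add_apply, h3, zero_add, B302_B, labAct_mapRange c.ι K β, Finsupp.mapRange_apply]

/-- the trivialisation over a simplex of the base -/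
private noncomputable def B302_Phi {N M D : Type} [AddCommMonoid N] [AddCommMonoid M]
    [AddCommGroup D] (c : Coef N M D) {U : SS} {K K' C : Sub U} (hK : K ≤ K') (hC : K' ≤ C)
    {n : ℕ} (b : (lab N K' C).S n) : Hom ((lab M K K').prod (Del n)) (TL c K K' C) where
  app m q := ⟨q.1.1 + labAct M K q.2 (B302_B c b.1), B302_Phi_mem c hK hC b.2 q.2 q.1.2⟩
  nat {l m} f q := by
    obtain ⟨z, β⟩ := q
    apply Subtype.ext
    show labAct M K f z.1 + labAct M K (β.comp f) (B302_B c b.1) =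
      labAct M K f (z.1 + labAct M K β (B302_B c b.1))
    rw [map_add, labAct_comp]

/-- over a surjective map the pulled back labels avoid `K'` -/
private theorem B302_van {M : Type} [AddCommMonoid M] {U : SS} {K K' : Sub U} {m n : ℕ}
    (α : Mo m n) (hα : Function.Surjective α) {B : U.S n →₀ M}
    (hB : ∀ x, B x ≠ 0 → x ∉ K'.car n) {y : U.S m} (hy : y ∈ K'.car m) :
    labAct M K α B y = 0 := by
  by_cases h1 : y ∈ K.car m
  · exact labAct_of_mem K α B h1
  · rw [labAct_of_notMem K α B h1]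
    by_contra h
    have h' := Finsupp.mapDomain_support (Finsupp.mem_support_iff.2 h)
    obtain ⟨x, hx, rfl⟩ := Finset.mem_image.1 h'
    exact hB x (Finsupp.mem_support_iff.1 hx) ((act_mem_iff K' α hα x).1 hy)

theorem exists_TLp {Y : SS} {N M D : Type} [AddCommMonoid N] [AddCommMonoid M] [AddCommGroup D]
    (c : Coef N M D) {U : SS} {K K' C : Sub U} (hK : K ≤ K') (hC : K' ≤ C)
    (h : YAc Y (lab M K K') 0) :
    ∃ p : Hom (TL c K K' C) (lab N K' C), p.app 0 0 = 0 ∧ Strat Y p := by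
  refine ⟨B302_p c hK, ?_, ?_⟩
  · apply Subtype.ext
    show B302_fun c K' 0 (0 : U.S 0 →₀ M) = 0
    ext x
    by_cases hx : x ∈ K'.car 0
    · rw [B302_of_mem c K' 0 _ hx]; rfl
    · rw [B302_of_notMem c K' 0 _ hx]
      exact B302_rho0 c
  · intro n b _
    have hB : ∀ x, B302_B c b.1 x ≠ 0 → x ∉ K'.car n := by
      intro x hx
      have h3 : b.1 x ≠ 0 := by
        intro h0
        apply hx
        rw [B302_B, Finsupp.mapRange_apply, h0, map_zero]
      exact (b.2 x h3).2
    refine ⟨lab M K K', 0, B302_Phi c hK hC b, h, ?_, ?_⟩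
    · intro m y α
      apply Subtype.ext
      show B302_fun c K' m (y.1 + labAct M K α (B302_B c b.1)) = labAct N K' α b.1
      apply B302_minj c
      rw [B302_char c (B302_Phi_mem c hK hC b.2 α y.2), ← labAct_mapRange c.ι K' α,
        Finsupp.filter_add, B302_zfil y.2, zero_add, B302_fil hK]
    · intro m α hα e he
      have he' : B302_fun c K' m e.1 = labAct N K' α b.1 := congrArg Subtype.val he
      have he2 : e.1.filter (fun x => x ∉ K'.car m) = labAct M K' α (B302_B c b.1) := by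
        rw [← B302_char c e.2, he', B302_B, labAct_mapRange c.ι K' α]
      have hpt : ∀ x, x ∉ K'.car m → e.1 x = labAct M K α (B302_B c b.1) x := by
        intro x hx
        have h1 := DFunLike.congr_fun he2 x
        rw [Finsupp.filter_apply, if_pos hx, labAct_of_notMem K' α _ hx] at h1
        rw [h1, labAct_of_notMem K α _ fun h' => hx (hK _ h')]
      refine ⟨⟨e.1.filter (fun x => x ∈ K'.car m), ?_⟩, ?_, ?_⟩
      · intro x hx
        rw [Finsupp.filter_apply] at hx
        by_cases h1 : x ∈ K'.car m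
        · rw [if_pos h1] at hx
          exact ⟨h1, (e.2.1 x hx).2⟩
        · rw [if_neg h1] at hx
          exact absurd rfl hx
      · apply Subtype.ext
        show e.1.filter (fun x => x ∈ K'.car m) + labAct M K α (B302_B c b.1) = e.1
        ext x
        rw [Finsupp.add_apply, Finsupp.filter_apply]
        by_cases h1 : x ∈ K'.car m
        · rw [if_pos h1, B302_van α hα hB h1, add_zero]
        · rw [if_neg h1, zero_add, hpt x h1]
      · intro y hy
        have hy' : y.1 + labAct M K α (B302_B c b.1) = e.1 := congrArg Subtype.val hy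
        apply Subtype.ext
        show y.1 = e.1.filter (fun x => x ∈ K'.car m)
        ext x
        rw [Finsupp.filter_apply]
        by_cases h1 : x ∈ K'.car m
        · rw [if_pos h1, ← hy', Finsupp.add_apply, B302_van α hα hB h1, add_zero]
        · rw [if_neg h1]
          by_contra h2
          exact h1 (y.2 x h2).1

end MM

end

/-! ### from `Lib_MP_33f7bb_d.B306` -/

section

/-!
# B3-06 (L4, L10): homotopies of labels

`labP A H hC hK : Hom (P.prod (lab A K C)) (lab A K' C')` (B3Def) is the homotopy of labels given by a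
homotopy; `labP_apply`.

`lab_acyc_of_contraction`: apply `acyc_of_deformation'` (A020) to `labP A H hC hK` (`P = Del 1`, `K' = K`,
`C' = C`), `A = pt 0`: at `cst 1` the map `x ↦ H (cst 1, x)` is the identity on the support of `a`
(`Finsupp.mapDomain_congr`, `mapDomain_id`), and filtering does nothing; at `cst 0` the push forward is supported
in `K`, so filtering gives `0 = deg 0 n` (`lab_act_zero`).  The zero label stays zero.

`lab_yac_of_retract`: in `P = lab A (pt w0) ⊤` let `C` be the subcomplex of the labels supported in `W'`.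
`C.ss` is isomorphic to `lab A (pt w0) W'` (`YAc.iso_iff`; the same finsupps).  `labP A H` is a homotopy on `P`
(`H` fixes the base simplices since they lie in `W'`), the identity at `cst 0`, with values in `C` at `cst 1`, and it
maps `C` to `C` (`H` fixes `W'`); so `Acyc C ⊤` by `acyc_of_deformation` (A020), `Good Y C ⊤` by `Good.of_acyc`,
and `YAc.sub_iff` (B1C) applies.

`lab_simplex_acyc`: on `Del n` the homotopy `H (ε, β) = (t ↦ if ε t = 0 then 0 else β t)` (monotone; natural;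
`H (cst 1, β) = β`, `H (cst 0, β) = cst 0`), `K = pt (cst 0)`; it maps `horn n 0` to itself (values of
`H (ε, β)` are `0` or values of `β`; a missed value `j ≠ 0` is still missed) and `pt (cst 0)` to itself.
-/

namespace MM

open Classical

private theorem B306_map_id {A : Type} [AddCommMonoid A] {X : Type} (g : X → X) (a : X →₀ A)
    (h : ∀ x, a x ≠ 0 → g x = x) : a.mapDomain g = a := by
  calc a.mapDomain g = a.mapDomain _root_.id :=
        Finsupp.mapDomain_congr fun x hx => h x (Finsupp.mem_support_iff.1 hx)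
    _ = a := Finsupp.mapDomain_id

/-- a homotopy which fixes the support of a label fixes the label -/
private theorem B306_labP_fix (A : Type) [AddCommMonoid A] {U : SS} {K C : Sub U}
    (H : Hom ((Del 1).prod U) U)
    (hC : ∀ n s, ∀ x ∈ C.car n, H.app n (s, x) ∈ C.car n)
    (hK : ∀ n s, ∀ x ∈ K.car n, H.app n (s, x) ∈ K.car n) (n : ℕ) (s : (Del 1).S n)
    (a : (lab A K C).S n) (h : ∀ x, a.1 x ≠ 0 → H.app n (s, x) = x) :
    (labP A H hC hK).app n (s, a) = a := by
  apply Subtype.ext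
  rw [labP_apply, B306_map_id _ _ h, Finsupp.filter_eq_self_iff]
  exact fun x hx => (a.2 x hx).2

private theorem B306_labP_zero (A : Type) [AddCommMonoid A] {U : SS} {K C : Sub U}
    (H : Hom ((Del 1).prod U) U)
    (hC : ∀ n s, ∀ x ∈ C.car n, H.app n (s, x) ∈ C.car n)
    (hK : ∀ n s, ∀ x ∈ K.car n, H.app n (s, x) ∈ K.car n) (n : ℕ) (s : (Del 1).S n) :
    (labP A H hC hK).app n (s, (0 : (lab A K C).S n)) = 0 :=
  B306_labP_fix A H hC hK n s 0 fun x hx => absurd rfl hx

theorem lab_acyc_of_contraction (A : Type) [AddCommMonoid A] {U : SS} {K C : Sub U}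
    (H : Hom ((Del 1).prod U) U)
    (h1 : ∀ n, ∀ x ∈ C.car n, H.app n (cst 1, x) = x)
    (h0 : ∀ n, ∀ x ∈ C.car n, H.app n (cst 0, x) ∈ K.car n)
    (hC : ∀ n s, ∀ x ∈ C.car n, H.app n (s, x) ∈ C.car n)
    (hK : ∀ n s, ∀ x ∈ K.car n, H.app n (s, x) ∈ K.car n) :
    Acyc (Sub.pt (P := lab A K C) 0) ⊤ := by
  refine acyc_of_deformation' (Sub.le_top' _) (labP A H hC hK) ?_ ?_ (fun _ _ _ _ => trivial) ?_
  · intro n a _
    exact B306_labP_fix A H hC hK n (cst 1) a fun x hx => h1 n x (a.2 x hx).1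
  · intro n a _
    show _ = (lab A K C).act (cst 0) 0
    rw [lab_act_zero]
    apply Subtype.ext
    rw [labP_apply]
    show _ = (0 : U.S n →₀ A)
    rw [Finsupp.filter_eq_zero_iff]
    intro y hy
    by_contra h
    have h' := Finsupp.mapDomain_support (Finsupp.mem_support_iff.2 h)
    obtain ⟨x, hx, rfl⟩ := Finset.mem_image.1 h'
    exact hy (h0 n x (a.2 x (Finsupp.mem_support_iff.1 hx)).1)
  · intro n s a ha
    have ha' : a = (lab A K C).act (cst 0) 0 := ha
    rw [lab_act_zero] at ha'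
    show _ = (lab A K C).act (cst 0) 0
    rw [lab_act_zero, ha']
    exact B306_labP_zero A H hC hK n s

/-- the labels supported in `W'` -/
private def B306_C (A : Type) [AddCommMonoid A] {W : SS} (K W' : Sub W) : Sub (lab A K ⊤) where
  car n := {a | ∀ x, a.1 x ≠ 0 → x ∈ W'.car n}
  closed {m n} f a ha := by
    intro y hy
    have hy' : labAct A K f a.1 y ≠ 0 := hy
    have h1 : y ∉ K.car m := fun h => hy' (labAct_of_mem K f a.1 h)
    rw [labAct_of_notMem K f a.1 h1] at hy'
    have h' := Finsupp.mapDomain_support (Finsupp.mem_support_iff.2 hy')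
    obtain ⟨x, hx, rfl⟩ := Finset.mem_image.1 h'
    exact W'.closed f (ha x (Finsupp.mem_support_iff.1 hx))

private def B306_phi (A : Type) [AddCommMonoid A] {W : SS} (K W' : Sub W) :
    Hom (lab A K W') (B306_C A K W').ss where
  app n a := ⟨⟨a.1, fun x hx => ⟨trivial, (a.2 x hx).2⟩⟩, fun x hx => (a.2 x hx).1⟩
  nat _ _ := rfl

private theorem B306_phi_bij (A : Type) [AddCommMonoid A] {W : SS} (K W' : Sub W) (n : ℕ) :
    Function.Bijective ((B306_phi A K W').app n) := by
  constructor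
  · intro a b h
    exact Subtype.ext (congrArg (fun c : (B306_C A K W').ss.S n => c.1.1) h)
  · intro c
    exact ⟨⟨c.1.1, fun x hx => ⟨c.2 x hx, (c.1.2 x hx).2⟩⟩, rfl⟩

theorem lab_yac_of_retract {Y : SS} [∀ n, TopologicalSpace (Y.S n)] (hY : IsTarget Y) (A : Type)
    [AddCommMonoid A] {W : SS} (w0 : W.S 0) (W' : Sub W) (hw0 : w0 ∈ W'.car 0)
    (H : Hom ((Del 1).prod W) W)
    (h0 : ∀ n x, H.app n (cst 0, x) = x)
    (h1 : ∀ n x, H.app n (cst 1, x) ∈ W'.car n)
    (hc : ∀ n s, ∀ x ∈ W'.car n, H.app n (s, x) = x)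
    (h : YAc Y (lab A (Sub.pt w0) W') 0) : YAc Y (lab A (Sub.pt w0) ⊤) 0 := by
  have hC : ∀ n s, ∀ x ∈ (⊤ : Sub W).car n, H.app n (s, x) ∈ (⊤ : Sub W).car n :=
    fun _ _ _ _ => trivial
  have hK : ∀ n s, ∀ x ∈ (Sub.pt w0).car n, H.app n (s, x) ∈ (Sub.pt w0).car n := by
    intro n s x hx
    have h2 : x ∈ W'.car n := by
      have h3 : x = W.deg w0 n := hx
      rw [h3]
      exact W'.closed _ hw0
    rw [hc n s x h2]
    exact hx
  have hz : (0 : (lab A (Sub.pt w0) (⊤ : Sub W)).S 0) ∈ (B306_C A (Sub.pt w0) W').car 0 :=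
    fun x hx => absurd rfl hx
  have hgood : Good Y (B306_C A (Sub.pt w0) W') ⊤ := by
    refine Good.of_acyc hY (Sub.le_top' _) (acyc_of_deformation (Sub.le_top' _)
      (labP A H hC hK) ?_ ?_ (fun _ _ _ _ => trivial) ?_)
    · intro n a _
      exact B306_labP_fix A H hC hK n (cst 0) a fun x _ => h0 n x
    · intro n a _ y hy
      have hy' : (a.1.mapDomain (fun x => H.app n (cst 1, x))).filter
          (fun x => x ∉ (Sub.pt w0).car n) y ≠ 0 := hy
      rw [Finsupp.filter_apply] at hy'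
      by_cases h4 : y ∈ (Sub.pt w0).car n
      · rw [if_neg (not_not.2 h4)] at hy'
        exact absurd rfl hy'
      · rw [if_pos h4] at hy'
        have h' := Finsupp.mapDomain_support (Finsupp.mem_support_iff.2 hy')
        obtain ⟨x, -, rfl⟩ := Finset.mem_image.1 h'
        exact h1 n x
    · intro n s a ha
      rw [B306_labP_fix A H hC hK n s a fun x hx => hc n s x (ha x hx)]
      exact ha
  exact (YAc.sub_iff hY (B306_C A (Sub.pt w0) W') 0 hz hgood).1
    ((YAc.iso_iff hY (B306_phi A (Sub.pt w0) W') (B306_phi_bij A (Sub.pt w0) W') 0).1 h)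

/-- the contraction of the simplex to the vertex `0` -/
private def B306_H (k : ℕ) : Hom ((Del 1).prod (Del k)) (Del k) where
  app n x := ⟨fun t => if x.1 t = 0 then 0 else x.2 t, fun s t hst => by
    have h1 : x.1 s ≤ x.1 t := x.1.monotone hst
    have h2 : x.2 s ≤ x.2 t := x.2.monotone hst
    show (if x.1 s = 0 then 0 else x.2 s) ≤ (if x.1 t = 0 then 0 else x.2 t)
    by_cases ht : x.1 t = 0
    · have hs : x.1 s = 0 := le_antisymm (ht ▸ h1) (Fin.zero_le _)
      rw [if_pos ht, if_pos hs]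
    · rw [if_neg ht]
      split_ifs
      · exact Fin.zero_le _
      · exact h2⟩
  nat _ _ := rfl

private theorem B306_H_val (k : ℕ) {n : ℕ} (a : Mo n 1) (x : Mo n k) (t : Fin (n + 1)) :
    ((B306_H k).app n (a, x) : Mo n k) t = if a t = 0 then 0 else x t := rfl

private theorem B306_H_one (k : ℕ) {n : ℕ} (x : Mo n k) : (B306_H k).app n (cst 1, x) = x := by
  apply OrderHom.ext
  funext t
  show (if (1 : Fin 2) = 0 then 0 else x t) = x t
  exact if_neg one_ne_zero

private theorem B306_H_zero (k : ℕ) {n : ℕ} (x : Mo n k) :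
    (B306_H k).app n (cst 0, x) ∈ (Sub.pt (P := Del k) (cst 0 : Mo 0 k)).car n := by
  show _ = (cst 0 : Mo n k)
  apply OrderHom.ext
  funext t
  show (if (0 : Fin 2) = 0 then 0 else x t) = 0
  exact if_pos rfl

private theorem B306_H_pt (k : ℕ) {n : ℕ} (s : Mo n 1) (x : Mo n k)
    (hx : x ∈ (Sub.pt (P := Del k) (cst 0 : Mo 0 k)).car n) :
    (B306_H k).app n (s, x) ∈ (Sub.pt (P := Del k) (cst 0 : Mo 0 k)).car n := by
  have hx' : x = (cst 0 : Mo n k) := hx
  subst hx'
  show _ = (cst 0 : Mo n k)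
  apply OrderHom.ext
  funext t
  show (if s t = 0 then (0 : Fin (k + 1)) else 0) = 0
  exact ite_self _

private theorem B306_H_horn (k : ℕ) {n : ℕ} (s : Mo n 1) (x : Mo n k)
    (hx : x ∈ (horn k 0).car n) : (B306_H k).app n (s, x) ∈ (horn k 0).car n := by
  obtain ⟨j, hj, h⟩ := hx
  refine ⟨j, hj, fun t => ?_⟩
  rw [B306_H_val]
  split_ifs
  · exact hj.symm
  · exact h t

theorem lab_simplex_acyc (A : Type) [AddCommMonoid A] (n : ℕ) :
    Acyc (Sub.pt (P := lab A (Sub.pt (P := Del n) (cst 0 : Mo 0 n)) ⊤) 0) ⊤ :=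
  lab_acyc_of_contraction A (B306_H n) (fun _ x _ => B306_H_one n x)
    (fun _ x _ => B306_H_zero n x) (fun _ _ _ _ => trivial)
    (fun _ s x hx => B306_H_pt n s x hx)

theorem lab_horn_acyc (A : Type) [AddCommMonoid A] (n : ℕ) :
    Acyc (Sub.pt (P := lab A (Sub.pt (P := Del n) (cst 0 : Mo 0 n)) (horn n 0)) 0) ⊤ :=
  lab_acyc_of_contraction A (B306_H n) (fun _ x _ => B306_H_one n x)
    (fun _ x _ => B306_H_zero n x) (fun _ s x hx => B306_H_horn n s x hx)
    (fun _ s x hx => B306_H_pt n s x hx)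

end MM

end

/-! ### from `Lib_MP_33f7bb_d.B2A` -/

section

/-!
# B2A: group actions on simplicial sets, quotients, classifying spaces ((BG1), (BG2))
-/

namespace MM

/-- an action of a group on a simplicial set -/
structure GAct (G : Type) [Group G] (E : SS) where
  sm : G → ∀ n, E.S n → E.S n
  one : ∀ n x, sm 1 n x = x
  mul : ∀ g h n x, sm (g * h) n x = sm g n (sm h n x)
  nat : ∀ (g : G) {m n : ℕ} (f : Mo m n) (x : E.S n), E.act f (sm g n x) = sm g m (E.act f x)

namespace GAct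

variable {G : Type} [Group G] {E Z : SS}

/-- the orbit relation of a subgroup -/
def rel (a : GAct G E) (H : Subgroup G) (n : ℕ) : Setoid (E.S n) where
  r x y := ∃ g ∈ H, a.sm g n x = y
  iseqv := by
    refine ⟨fun x => ⟨1, H.one_mem, a.one n x⟩, ?_, ?_⟩
    · rintro x y ⟨g, hg, rfl⟩
      exact ⟨g⁻¹, H.inv_mem hg, by rw [← a.mul, inv_mul_cancel, a.one]⟩
    · rintro x y z ⟨g, hg, rfl⟩ ⟨h, hh, rfl⟩
      exact ⟨h * g, H.mul_mem hh hg, by rw [a.mul]⟩

/-- the quotient `E / H` -/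
def quo (a : GAct G E) (H : Subgroup G) : SS where
  S n := Quotient (a.rel H n)
  act {m n} f := Quotient.map' (E.act f) (by
    rintro x y ⟨g, hg, rfl⟩
    exact ⟨g, hg, (a.nat g f x).symm⟩)
  act_id := by
    rintro n ⟨x⟩
    exact congrArg (Quotient.mk (a.rel H n)) (E.act_id x)
  act_comp := by
    rintro l m n f g ⟨x⟩
    exact congrArg (Quotient.mk (a.rel H l)) (E.act_comp f g x)

/-- the projection -/
def proj (a : GAct G E) (H : Subgroup G) : Hom E (a.quo H) where
  app n x := Quotient.mk (a.rel H n) x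
  nat _ _ := rfl

theorem proj_eq_iff (a : GAct G E) (H : Subgroup G) {n : ℕ} (x y : E.S n) :
    (a.proj H).app n x = (a.proj H).app n y ↔ ∃ g ∈ H, a.sm g n x = y := by
  constructor
  · intro h
    exact Quotient.exact (s := a.rel H n) h
  · intro h
    exact Quotient.sound (s := a.rel H n) h

theorem proj_surj (a : GAct G E) (H : Subgroup G) {n : ℕ} (x : (a.quo H).S n) :
    ∃ y, (a.proj H).app n y = x := Quotient.exists_rep x

/-- the stabiliser of a simplex -/
def stab (a : GAct G E) {n : ℕ} (x : E.S n) : Subgroup G where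
  carrier := {g | a.sm g n x = x}
  one_mem' := a.one n x
  mul_mem' := by
    intro g h hg hh
    show a.sm (g * h) n x = x
    rw [a.mul, show a.sm h n x = x from hh, show a.sm g n x = x from hg]
  inv_mem' := by
    intro g hg
    show a.sm g⁻¹ n x = x
    have h : a.sm g⁻¹ n (a.sm g n x) = x := by rw [← a.mul, inv_mul_cancel, a.one]
    rwa [show a.sm g n x = x from hg] at h

/-- the diagonal action on the product -/
def prod (a : GAct G E) (b : GAct G Z) : GAct G (E.prod Z) where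
  sm g n x := (a.sm g n x.1, b.sm g n x.2)
  one n x := by rw [a.one, b.one]
  mul g h n x := by rw [a.mul, b.mul]
  nat g m n f x := by
    show (E.act f (a.sm g n x.1), Z.act f (b.sm g n x.2)) = _
    rw [a.nat, b.nat]

/-- pull back of an action along a group homomorphism -/
def pull {H : Type} [Group H] (φ : H →* G) (a : GAct G E) : GAct H E where
  sm g := a.sm (φ g)
  one n x := by rw [map_one, a.one]
  mul g h n x := by rw [map_mul, a.mul]
  nat g m n f x := a.nat (φ g) f x

/-- the projections of the quotient of the product -/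
def prodSnd (a : GAct G E) (b : GAct G Z) (H : Subgroup G) :
    Hom ((a.prod b).quo H) (b.quo H) where
  app n := Quotient.map' (fun x => x.2) (by
    rintro x y ⟨g, hg, rfl⟩
    exact ⟨g, hg, rfl⟩)
  nat := by
    rintro m n f ⟨x⟩
    rfl

def prodFst (a : GAct G E) (b : GAct G Z) (H : Subgroup G) :
    Hom ((a.prod b).quo H) (a.quo H) where
  app n := Quotient.map' (fun x => x.1) (by
    rintro x y ⟨g, hg, rfl⟩
    exact ⟨g, hg, rfl⟩)
  nat := by
    rintro m n f ⟨x⟩
    rfl

/-- free actions -/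
def Free (a : GAct G E) : Prop := ∀ g n (x : E.S n), a.sm g n x = x → g = 1

end GAct

/-- `EX n = X^(n+1)` -/
abbrev EX (X : Type) : SS where
  S n := Fin (n + 1) → X
  act f x := fun i => x (f i)
  act_id _ := rfl
  act_comp _ _ _ := rfl

/-- the action of `G` on `EX` for a `G`-set `X` -/
def EX.gact (G : Type) [Group G] (X : Type) [MulAction G X] : GAct G (EX X) where
  sm g _ x := fun i => g • x i
  one _ x := by funext i; simp
  mul g h _ x := by funext i; simp [mul_smul]
  nat _ _ _ _ _ := rfl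

/-- the classifying space, normalised homogeneous model -/
abbrev BGr (G : Type) [Group G] : SS where
  S n := {f : Fin (n + 1) → G // f 0 = 1}
  act g f := ⟨fun i => (f.1 (g 0))⁻¹ * f.1 (g i), by simp⟩
  act_id x := by
    apply Subtype.ext; funext i
    have := x.2
    show (x.1 0)⁻¹ * x.1 i = x.1 i
    rw [this]; simp
  act_comp f g x := by
    apply Subtype.ext; funext i
    show ((x.1 (g 0))⁻¹ * x.1 (g (f 0)))⁻¹ * ((x.1 (g 0))⁻¹ * x.1 (g (f i))) = _
    show _ = (x.1 ((g.comp f) 0))⁻¹ * x.1 ((g.comp f) i)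
    simp [OrderHom.comp, mul_assoc]

/-- the base point -/
def BGr.pt (G : Type) [Group G] : (BGr G).S 0 := ⟨fun _ => 1, rfl⟩

theorem EX.acyc (X : Type) (x : X) :
    Acyc (Sub.pt (P := EX X) (fun _ => x : Fin 1 → X)) (⊤ : Sub (EX X)) := by
  let H : Hom ((Del 1).prod (EX X)) (EX X) :=
    ⟨fun n y => fun i => if y.1 i = 0 then y.2 i else x, fun f y => rfl⟩
  refine acyc_of_deformation (Sub.le_top' _) H ?_ ?_ (fun _ _ _ _ => trivial) ?_
  · intro n y _
    funext i
    show (if (0 : Fin 2) = 0 then y i else x) = y i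
    exact if_pos rfl
  · intro n y _
    have : H.app n (cst 1, y) = fun _ => x := by
      funext i
      show (if (1 : Fin 2) = 0 then y i else x) = x
      exact if_neg (by decide)
    rw [this]
    rfl
  · intro n a y hy
    have h1 : y = fun _ => x := hy
    subst h1
    have : H.app n (a, fun _ => x) = fun _ => x := by
      funext i
      exact ite_self x
    rw [this]
    rfl

/-- (BG1) -/
theorem strat_prodSnd {Y : SS} {G : Type} [Group G] {E Z : SS}
    (a : GAct G E) (b : GAct G Z) (H : Subgroup G)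
    (h : ∀ (n : ℕ) (z : Z.S n), ∃ e : E.S 0,
      YAc Y (a.quo (b.stab z ⊓ H)) ((a.proj (b.stab z ⊓ H)).app 0 e)) :
    Strat Y (a.prodSnd b H) := by
  intro n b' _
  obtain ⟨z, rfl⟩ := b.proj_surj H b'
  obtain ⟨e, he⟩ := h n z
  let Φ : Hom ((a.quo (b.stab z ⊓ H)).prod (Del n)) ((a.prod b).quo H) :=
    { app := fun m y => Quotient.lift (fun x => ((a.prod b).proj H).app m (x, Z.act y.2 z)) (by
        rintro x x' ⟨g, hg, rfl⟩
        refine ((a.prod b).proj_eq_iff H _ _).2 ⟨g, hg.2, ?_⟩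
        show (a.sm g m x, b.sm g m (Z.act y.2 z)) = _
        rw [← b.nat, show b.sm g n z = z from hg.1]) y.1
      nat := by
        rintro m k f ⟨⟨x⟩, α⟩
        show ((a.prod b).proj H).app m (E.act f x, Z.act (α.comp f) z) =
          ((a.prod b).quo H).act f (((a.prod b).proj H).app k (x, Z.act α z))
        rw [← ((a.prod b).proj H).nat, ← Z.act_comp] }
  refine ⟨a.quo (b.stab z ⊓ H), _, Φ, he, ?_, ?_⟩
  · rintro m ⟨x⟩ α
    rfl
  · intro m α hα e'
    obtain ⟨⟨x, w⟩, rfl⟩ := (a.prod b).proj_surj H e'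
    intro hw
    have hw' : (b.proj H).app m w = (b.proj H).app m (Z.act α z) := hw
    obtain ⟨g, hg, hgw⟩ := (b.proj_eq_iff H _ _).1 hw'
    refine ⟨(a.proj (b.stab z ⊓ H)).app m (a.sm g m x), ?_, ?_⟩
    · show ((a.prod b).proj H).app m (a.sm g m x, Z.act α z) = _
      exact (((a.prod b).proj_eq_iff H _ _).2 ⟨g, hg, by
        show (a.sm g m x, b.sm g m w) = _
        rw [hgw]⟩).symm
    · intro y hy
      obtain ⟨x', rfl⟩ := a.proj_surj _ y
      have hy' : ((a.prod b).proj H).app m (x', Z.act α z) = ((a.prod b).proj H).app m (x, w) := hy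
      obtain ⟨g', hg', hgw'⟩ := ((a.prod b).proj_eq_iff H _ _).1 hy'
      have e1 : a.sm g' m x' = x := congrArg Prod.fst hgw'
      have e2 : b.sm g' m (Z.act α z) = w := congrArg Prod.snd hgw'
      refine (a.proj_eq_iff _ _ _).2 ⟨g * g', ⟨?_, H.mul_mem hg hg'⟩, ?_⟩
      · show b.sm (g * g') n z = z
        obtain ⟨t, ht⟩ := exists_section α hα
        have e3 : b.sm (g * g') m (Z.act α z) = Z.act α z := by
          rw [b.mul, e2, hgw]
        have e4 := congrArg (Z.act t) e3
        rw [b.nat, Z.act_comp, ht, Z.act_id] at e4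
        exact e4
      · rw [a.mul, e1]

theorem strat_prodFst {Y : SS} {G : Type} [Group G] {E Z : SS}
    (a : GAct G E) (b : GAct G Z) (H : Subgroup G)
    (h : ∀ (n : ℕ) (x : E.S n), ∃ z : Z.S 0,
      YAc Y (b.quo (a.stab x ⊓ H)) ((b.proj (a.stab x ⊓ H)).app 0 z)) :
    Strat Y (a.prodFst b H) := by
  intro n a' _
  obtain ⟨z, rfl⟩ := a.proj_surj H a'
  obtain ⟨e, he⟩ := h n z
  let Φ : Hom ((b.quo (a.stab z ⊓ H)).prod (Del n)) ((a.prod b).quo H) :=
    { app := fun m y => Quotient.lift (fun x => ((a.prod b).proj H).app m (E.act y.2 z, x)) (by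
        rintro x x' ⟨g, hg, rfl⟩
        refine ((a.prod b).proj_eq_iff H _ _).2 ⟨g, hg.2, ?_⟩
        show (a.sm g m (E.act y.2 z), b.sm g m x) = _
        rw [← a.nat, show a.sm g n z = z from hg.1]) y.1
      nat := by
        rintro m k f ⟨⟨x⟩, α⟩
        show ((a.prod b).proj H).app m (E.act (α.comp f) z, Z.act f x) =
          ((a.prod b).quo H).act f (((a.prod b).proj H).app k (E.act α z, x))
        rw [← ((a.prod b).proj H).nat, ← E.act_comp] }
  refine ⟨b.quo (a.stab z ⊓ H), _, Φ, he, ?_, ?_⟩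
  · rintro m ⟨x⟩ α
    rfl
  · intro m α hα e'
    obtain ⟨⟨w, x⟩, rfl⟩ := (a.prod b).proj_surj H e'
    intro hw
    have hw' : (a.proj H).app m w = (a.proj H).app m (E.act α z) := hw
    obtain ⟨g, hg, hgw⟩ := (a.proj_eq_iff H _ _).1 hw'
    refine ⟨(b.proj (a.stab z ⊓ H)).app m (b.sm g m x), ?_, ?_⟩
    · show ((a.prod b).proj H).app m (E.act α z, b.sm g m x) = _
      exact (((a.prod b).proj_eq_iff H _ _).2 ⟨g, hg, by
        show (a.sm g m w, b.sm g m x) = _
        rw [hgw]⟩).symm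
    · intro y hy
      obtain ⟨x', rfl⟩ := b.proj_surj _ y
      have hy' : ((a.prod b).proj H).app m (E.act α z, x') = ((a.prod b).proj H).app m (w, x) := hy
      obtain ⟨g', hg', hgw'⟩ := ((a.prod b).proj_eq_iff H _ _).1 hy'
      have e1 : b.sm g' m x' = x := congrArg Prod.snd hgw'
      have e2 : a.sm g' m (E.act α z) = w := congrArg Prod.fst hgw'
      refine (b.proj_eq_iff _ _ _).2 ⟨g * g', ⟨?_, H.mul_mem hg hg'⟩, ?_⟩
      · show a.sm (g * g') n z = z
        obtain ⟨t, ht⟩ := exists_section α hα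
        have e3 : a.sm (g * g') m (E.act α z) = E.act α z := by
          rw [a.mul, e2, hgw]
        have e4 := congrArg (E.act t) e3
        rw [a.nat, E.act_comp, ht, E.act_id] at e4
        exact e4
      · rw [b.mul, e1]

section target

variable {Y : SS} [∀ n, TopologicalSpace (Y.S n)] (hY : IsTarget Y)

include hY

theorem yac_quo_bot {G : Type} [Group G] {E : SS} (a : GAct G E) (e : E.S 0) :
    YAc Y (a.quo ⊥) ((a.proj ⊥).app 0 e) ↔ YAc Y E e := by
  refine (YAc.iso_iff hY (a.proj ⊥) (fun n => ⟨?_, ?_⟩) e).symm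
  · intro x y hxy
    obtain ⟨g, hg, h⟩ := (a.proj_eq_iff ⊥ x y).1 hxy
    rw [Subgroup.mem_bot.1 hg, a.one] at h
    exact h
  · exact fun y => a.proj_surj ⊥ y

/-- `EG / G = BG` -/
theorem yac_EG_quo (G : Type) [Group G] (x : (EX G).S 0) :
    YAc Y ((EX.gact G G).quo ⊤) (((EX.gact G G).proj ⊤).app 0 x) ↔ YAc Y (BGr G) (BGr.pt G) := by
  let φ : Hom ((EX.gact G G).quo ⊤) (BGr G) :=
    { app := fun n => Quotient.lift (fun x : Fin (n + 1) → G =>
        (⟨fun i => (x 0)⁻¹ * x i, by simp⟩ : (BGr G).S n)) (by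
        rintro x y ⟨g, -, rfl⟩
        apply Subtype.ext
        funext i
        show (x 0)⁻¹ * x i = (g • x 0)⁻¹ * (g • x i)
        simp [mul_assoc])
      nat := by
        rintro m n f ⟨x⟩
        apply Subtype.ext
        funext i
        show (x (f 0))⁻¹ * x (f i) = ((x 0)⁻¹ * x (f 0))⁻¹ * ((x 0)⁻¹ * x (f i))
        simp [mul_assoc] }
  have h := YAc.iso_iff hY φ (fun n => ⟨?_, ?_⟩) (((EX.gact G G).proj ⊤).app 0 x)
  · rw [h]
    have e1 : φ.app 0 (((EX.gact G G).proj ⊤).app 0 x) = BGr.pt G := by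
      apply Subtype.ext
      funext i
      show (x 0)⁻¹ * x i = 1
      have : i = 0 := Fin.eq_zero i
      rw [this, inv_mul_cancel]
    rw [e1]
  · intro x y hxy
    obtain ⟨x, rfl⟩ := (EX.gact G G).proj_surj ⊤ x
    obtain ⟨y, rfl⟩ := (EX.gact G G).proj_surj ⊤ y
    refine ((EX.gact G G).proj_eq_iff ⊤ _ _).2 ⟨y 0 * (x 0)⁻¹, trivial, ?_⟩
    funext i
    have h1 : (x 0)⁻¹ * x i = (y 0)⁻¹ * y i := congrFun (congrArg Subtype.val hxy) i
    show (y 0 * (x 0)⁻¹) • x i = y i
    rw [smul_eq_mul, mul_assoc, h1, mul_inv_cancel_left]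
  · rintro ⟨f, hf⟩
    refine ⟨((EX.gact G G).proj ⊤).app n f, ?_⟩
    apply Subtype.ext
    funext i
    show (f 0)⁻¹ * f i = f i
    rw [hf, inv_one, one_mul]

/-- (BG2) -/
theorem yac_quo_iff {G : Type} [Group G] {E : SS} (a : GAct G E) (ha : a.Free) (e : E.S 0)
    (he : Acyc (Sub.pt e) (⊤ : Sub E)) :
    YAc Y (a.quo ⊤) ((a.proj ⊤).app 0 e) ↔ YAc Y (BGr G) (BGr.pt G) := by
  let A := EX.gact G G
  have hAfree : ∀ (n : ℕ) (x : (EX G).S n), A.stab x = ⊥ := by
    intro n x
    rw [eq_bot_iff]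
    intro g hg
    have h1 : (fun i => g • x i) = x := hg
    have h2 : g * x 0 = x 0 := congrFun h1 0
    rw [Subgroup.mem_bot]
    exact mul_eq_right.1 h2
  have hafree : ∀ (n : ℕ) (x : E.S n), a.stab x = ⊥ := by
    intro n x
    rw [eq_bot_iff]
    intro g hg
    rw [Subgroup.mem_bot]
    exact ha g n x hg
  let o : (EX G).S 0 := fun _ => 1
  have h1 : Strat Y (A.prodSnd a ⊤) := by
    refine strat_prodSnd A a ⊤ fun n z => ⟨o, ?_⟩
    rw [hafree, bot_inf_eq, yac_quo_bot hY A o]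
    exact YAc.of_acyc hY (EX.acyc G 1)
  have h2 : Strat Y (A.prodFst a ⊤) := by
    refine strat_prodFst A a ⊤ fun n z => ⟨e, ?_⟩
    rw [hAfree, bot_inf_eq, yac_quo_bot hY a e]
    exact YAc.of_acyc hY he
  have h3 := h1.yac_iff hY (((A.prod a).proj ⊤).app 0 (o, e))
  have h4 := h2.yac_iff hY (((A.prod a).proj ⊤).app 0 (o, e))
  have h5 := yac_EG_quo hY G o
  exact h3.symm.trans (h4.trans h5)

/-- (BG2) for subgroups -/
theorem yac_quo_subgroup_iff {G : Type} [Group G] {E : SS} (a : GAct G E) (ha : a.Free)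
    (H : Subgroup G) (e : E.S 0) (he : Acyc (Sub.pt e) (⊤ : Sub E)) :
    YAc Y (a.quo H) ((a.proj H).app 0 e) ↔ YAc Y (BGr H) (BGr.pt H) := by
  let b : GAct H E := a.pull H.subtype
  have hb : b.Free := fun g n x hx => Subtype.ext (ha g n x hx)
  rw [← yac_quo_iff hY b hb e he]
  let φ : Hom (b.quo ⊤) (a.quo H) :=
    { app := fun n => Quotient.map' (fun x => x) (by
        rintro x y ⟨g, -, rfl⟩
        exact ⟨g, g.2, rfl⟩)
      nat := by
        rintro m n f ⟨x⟩
        rfl }
  refine (YAc.iso_iff hY φ (fun n => ⟨?_, ?_⟩) ((b.proj ⊤).app 0 e)).symm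
  · intro x y hxy
    obtain ⟨x, rfl⟩ := b.proj_surj ⊤ x
    obtain ⟨y, rfl⟩ := b.proj_surj ⊤ y
    have h1 : (a.proj H).app n x = (a.proj H).app n y := hxy
    obtain ⟨g, hg, h⟩ := (a.proj_eq_iff H x y).1 h1
    exact (b.proj_eq_iff ⊤ x y).2 ⟨⟨g, hg⟩, trivial, h⟩
  · intro y
    obtain ⟨y, rfl⟩ := a.proj_surj H y
    exact ⟨(b.proj ⊤).app n y, rfl⟩

end target

end MM

end

/-! ### from `Lib_MP_33f7bb_d.B2B` -/

section

/-!
# B2B: classifying spaces of finite and locally finite groups are `Y`-acyclic ((BG3), (BG4))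
-/

namespace MM

section target

variable {Y : SS} [∀ n, TopologicalSpace (Y.S n)] (hY : IsTarget Y)

include hY

/-- invariance under isomorphism of groups -/
theorem yac_BGr_congr {G G' : Type} [Group G] [Group G'] (e : G ≃* G') :
    YAc Y (BGr G) (BGr.pt G) ↔ YAc Y (BGr G') (BGr.pt G') := by
  let φ : Hom (BGr G) (BGr G') :=
    { app := fun n f => ⟨fun i => e (f.1 i), by show e (f.1 0) = 1; rw [f.2, map_one]⟩
      nat := by
        intro m n f x
        apply Subtype.ext
        funext i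
        show e ((x.1 (f 0))⁻¹ * x.1 (f i)) = (e (x.1 (f 0)))⁻¹ * e (x.1 (f i))
        rw [map_mul, map_inv] }
  have h := YAc.iso_iff hY φ (fun n => ⟨?_, ?_⟩) (BGr.pt G)
  · have e1 : φ.app 0 (BGr.pt G) = BGr.pt G' := by
      apply Subtype.ext
      funext i
      exact map_one e
    rwa [e1] at h
  · intro x y hxy
    apply Subtype.ext
    funext i
    exact e.injective (congrFun (congrArg Subtype.val hxy) i)
  · intro y
    refine ⟨⟨fun i => e.symm (y.1 i), by show e.symm (y.1 0) = 1; rw [y.2, map_one]⟩, ?_⟩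
    apply Subtype.ext
    funext i
    exact e.apply_symm_apply _

theorem yac_BGr_two (G : Type) [Group G] (hG : Nat.card G = 2) :
    YAc Y (BGr G) (BGr.pt G) := by
  have : Fact (Nat.Prime 2) := ⟨Nat.prime_two⟩
  have hc : Nat.card (Multiplicative (ZMod 2)) = 2 := by
    rw [Nat.card_congr Multiplicative.toAdd, Nat.card_zmod]
  rw [yac_BGr_congr hY (mulEquivOfPrimeCardEq hG hc)]
  let φ : Hom (BGr (Multiplicative (ZMod 2))) BZ2 :=
    { app := fun n f => ⟨fun i => (f.1 i).toAdd, by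
        rw [LinearMap.mem_ker]
        show (f.1 0).toAdd = 0
        rw [f.2]; rfl⟩
      nat := by
        intro m n f x
        apply Subtype.ext
        funext i
        show ((x.1 (f 0))⁻¹ * x.1 (f i)).toAdd = (x.1 (f i)).toAdd - (x.1 (f 0)).toAdd
        rw [toAdd_mul, toAdd_inv]
        ring }
  have h := YAc.iso_iff hY φ (fun n => ⟨?_, ?_⟩) (BGr.pt _)
  · have e1 : φ.app 0 (BGr.pt _) = (0 : K1.V 0) := by
      apply Subtype.ext
      funext i
      rfl
    rw [h, e1]
    exact hY.null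
  · intro x y hxy
    apply Subtype.ext
    funext i
    exact Multiplicative.toAdd.injective (congrFun (congrArg Subtype.val hxy) i)
  · rintro ⟨y, hy⟩
    refine ⟨⟨fun i => Multiplicative.ofAdd (y i), ?_⟩, ?_⟩
    · rw [LinearMap.mem_ker] at hy
      have hy' : y 0 = 0 := hy
      show Multiplicative.ofAdd (y 0) = 1
      rw [hy']; rfl
    · apply Subtype.ext
      funext i
      rfl

omit hY [∀ n, TopologicalSpace (Y.S n)] in
theorem EX.gact_free (G : Type) [Group G] : (EX.gact G G).Free := by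
  intro g n x hg
  have h2 : g * x 0 = x 0 := congrFun (show (fun i => g • x i) = x from hg) 0
  exact mul_eq_right.1 h2

omit hY [∀ n, TopologicalSpace (Y.S n)] in
theorem GAct.Free.stab_eq {G : Type} [Group G] {E : SS} {a : GAct G E} (ha : a.Free) {n : ℕ}
    (x : E.S n) : a.stab x = ⊥ := by
  rw [eq_bot_iff]
  intro g hg
  rw [Subgroup.mem_bot]
  exact ha g n x hg

/-- extensions -/
theorem yac_BGr_ext {G Q : Type} [Group G] [Group Q] (φ : G →* Q) (hφ : Function.Surjective φ)
    (h1 : YAc Y (BGr φ.ker) (BGr.pt φ.ker)) (h2 : YAc Y (BGr Q) (BGr.pt Q)) :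
    YAc Y (BGr G) (BGr.pt G) := by
  let A := EX.gact G G
  let B := (EX.gact Q Q).pull φ
  have hA : A.Free := EX.gact_free G
  let o : (EX G).S 0 := fun _ => 1
  let u : (EX Q).S 0 := fun _ => 1
  have hB : ∀ (n : ℕ) (z : (EX Q).S n), B.stab z ⊓ ⊤ = φ.ker := by
    intro n z
    rw [inf_top_eq]
    ext g
    rw [MonoidHom.mem_ker]
    constructor
    · intro hg
      have h3 : φ g * z 0 = z 0 := congrFun (show (fun i => φ g • z i) = z from hg) 0
      exact mul_eq_right.1 h3
    · intro hg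
      show (fun i => φ g • z i) = z
      rw [hg]
      simp
  have s1 : Strat Y (A.prodSnd B ⊤) := by
    refine strat_prodSnd A B ⊤ fun n z => ⟨o, ?_⟩
    rw [hB]
    exact (yac_quo_subgroup_iff hY A hA φ.ker o (EX.acyc G 1)).2 h1
  have s2 : Strat Y (A.prodFst B ⊤) := by
    refine strat_prodFst A B ⊤ fun n z => ⟨u, ?_⟩
    rw [hA.stab_eq, bot_inf_eq, yac_quo_bot hY B u]
    exact YAc.of_acyc hY (EX.acyc Q 1)
  -- `EQ / G = EQ / Q`
  let ψ : Hom (B.quo ⊤) ((EX.gact Q Q).quo ⊤) :=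
    { app := fun n => Quotient.map' (fun x => x) (by
        rintro x y ⟨g, -, rfl⟩
        exact ⟨φ g, trivial, rfl⟩)
      nat := by
        rintro m n f ⟨x⟩
        rfl }
  have h3 := YAc.iso_iff hY ψ (fun n => ⟨?_, ?_⟩) ((B.proj ⊤).app 0 u)
  · have h4 : YAc Y (B.quo ⊤) ((B.proj ⊤).app 0 u) := by
      rw [h3]
      exact (yac_EG_quo hY Q u).2 h2
    have h5 := (s1.yac_iff hY (((A.prod B).proj ⊤).app 0 (o, u))).2 h4
    have h6 := (s2.yac_iff hY (((A.prod B).proj ⊤).app 0 (o, u))).1 h5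
    exact (yac_EG_quo hY G o).1 h6
  · intro x y hxy
    obtain ⟨x, rfl⟩ := B.proj_surj ⊤ x
    obtain ⟨y, rfl⟩ := B.proj_surj ⊤ y
    have h4 : ((EX.gact Q Q).proj ⊤).app n x = ((EX.gact Q Q).proj ⊤).app n y := hxy
    obtain ⟨q, -, hq⟩ := ((EX.gact Q Q).proj_eq_iff ⊤ x y).1 h4
    obtain ⟨g, rfl⟩ := hφ q
    exact (B.proj_eq_iff ⊤ x y).2 ⟨g, trivial, hq⟩
  · intro y
    obtain ⟨y, rfl⟩ := (EX.gact Q Q).proj_surj ⊤ y
    exact ⟨(B.proj ⊤).app n y, rfl⟩

/-- 2-groups -/
theorem yac_BGr_pgroup (G : Type) [Group G] [Finite G] (hG : IsPGroup 2 G) :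
    YAc Y (BGr G) (BGr.pt G) := by
  have : Fact (Nat.Prime 2) := ⟨Nat.prime_two⟩
  suffices H : ∀ (N : ℕ) (G : Type) [Group G] [Finite G], Nat.card G ≤ N → IsPGroup 2 G →
      YAc Y (BGr G) (BGr.pt G) from H (Nat.card G) G le_rfl hG
  intro N
  induction N with
  | zero =>
    intro G _ _ hN _
    have := Nat.card_pos (α := G)
    omega
  | succ N ih =>
    intro G _ _ hN hG
    rcases subsingleton_or_nontrivial G with hs | hn
    · have e1 : Sub.pt (BGr.pt G) = ⊤ := by
        refine le_antisymm (Sub.le_top' _) ?_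
        intro n x _
        show x = _
        apply Subtype.ext
        funext i
        exact Subsingleton.elim _ _
      show Good Y _ _
      rw [e1]
      exact Good.refl Y _
    · have hcen := hG.center_nontrivial
      have h2 : 2 ∣ Nat.card (Subgroup.center G) := by
        obtain ⟨k, hk⟩ := IsPGroup.iff_card.1 (hG.to_subgroup (Subgroup.center G))
        rw [hk]
        have h3 : 1 < Nat.card (Subgroup.center G) := Finite.one_lt_card
        rw [hk] at h3
        have h4 : k ≠ 0 := by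
          rintro rfl
          simp at h3
        exact dvd_pow_self 2 h4
      obtain ⟨c, hc⟩ := exists_prime_orderOf_dvd_card' 2 h2
      let C : Subgroup G := Subgroup.zpowers (c : G)
      have hC : C ≤ Subgroup.center G := by
        rw [Subgroup.zpowers_le]
        exact c.2
      have hCn : C.Normal := by
        constructor
        intro n hn g
        have h5 := Subgroup.mem_center_iff.1 (hC hn) g
        rw [h5, mul_assoc, mul_inv_cancel, mul_one]
        exact hn
      have hCc : Nat.card C = 2 := by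
        rw [Nat.card_zpowers, Subgroup.orderOf_coe, hc]
      have hker : (QuotientGroup.mk' C).ker = C := QuotientGroup.ker_mk' C
      refine yac_BGr_ext hY (QuotientGroup.mk' C) (QuotientGroup.mk'_surjective C) ?_ ?_
      · refine yac_BGr_two hY _ ?_
        rw [hker]
        exact hCc
      · refine ih (G ⧸ C) ?_ (hG.to_quotient C)
        have h6 := Subgroup.card_eq_card_quotient_mul_card_subgroup C
        rw [hCc] at h6
        have h7 : 0 < Nat.card (G ⧸ C) := Nat.card_pos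
        omega

omit hY in
/-- `D = E(G/P)/G` is acyclic when the index of `P` is odd -/
theorem acyc_EX_quo {G : Type} [Group G] {X : Type} [MulAction G X] [Finite X]
    (hX : Odd (Nat.card X)) (htr : ∀ x y : X, ∃ g : G, g • x = y) (x : X) :
    Acyc (Sub.pt (((EX.gact G X).proj ⊤).app 0 (fun _ => x : Fin 1 → X)))
      (⊤ : Sub ((EX.gact G X).quo ⊤)) := by
  classical
  have : Fintype X := Fintype.ofFinite X
  let a := EX.gact G X
  let D := a.quo ⊤
  let pr : Hom (EX X) D := a.proj ⊤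
  have hpr : ∀ {n : ℕ} (g : G) (x : Fin (n + 1) → X), pr.app n (fun i => g • x i) = pr.app n x :=
    fun g x => ((a.proj_eq_iff ⊤ _ _).2 ⟨g, trivial, rfl⟩).symm
  -- the contraction
  let hf : ∀ n, D.S n → Ch D (n + 1) := fun n => Quotient.lift
    (fun x : Fin (n + 1) → X => ∑ y : X, (Finsupp.single (pr.app (n + 1) (Fin.cons y x)) 1 :
      Ch D (n + 1))) (by
      rintro x x' ⟨g, -, rfl⟩
      refine (Finset.sum_congr rfl fun y _ => ?_).trans (Equiv.sum_comp (MulAction.toPerm g)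
        (fun y => (Finsupp.single (pr.app (n + 1) (Fin.cons y (a.sm g n x))) 1 : Ch D (n + 1))))
      have h1 : (Fin.cons (MulAction.toPerm g y) (a.sm g n x) : Fin (n + 2) → X) =
          fun i => g • (Fin.cons y x : Fin (n + 2) → X) i := by
        funext i
        refine Fin.cases ?_ (fun j => ?_) i
        · rfl
        · rfl
      rw [h1, hpr])
  let hL : ∀ n, Ch D n →ₗ[ZMod 2] Ch D (n + 1) := fun n => Finsupp.linearCombination (ZMod 2) (hf n)
  have hodd : (Fintype.card X : ZMod 2) = 1 := by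
    rw [← Nat.card_eq_fintype_card]
    obtain ⟨k, hk⟩ := hX
    rw [hk]
    have : (2 : ZMod 2) = 0 := rfl
    push_cast
    rw [this]; ring
  have hid : ∀ (n : ℕ) (z : Ch D (n + 1)), dif (hL (n + 1) z) = z + hL n (dif z) := by
    intro n z
    have hlin : (lin D).d (n + 1) ∘ₗ hL (n + 1) = LinearMap.id + hL n ∘ₗ (lin D).d n := by
      refine Finsupp.lhom_ext' fun q => LinearMap.ext_ring ?_
      obtain ⟨x, rfl⟩ := a.proj_surj ⊤ q
      show (lin D).d (n + 1) (hL (n + 1) (Finsupp.single (pr.app (n + 1) x) 1)) =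
        Finsupp.single (pr.app (n + 1) x) 1 +
          hL n ((lin D).d n (Finsupp.single (pr.app (n + 1) x) 1))
      have e1 : hL (n + 1) (Finsupp.single (pr.app (n + 1) x) 1) =
          ∑ y : X, Finsupp.single (pr.app (n + 2) (Fin.cons y x)) 1 := by
        show Finsupp.linearCombination (ZMod 2) (hf (n + 1)) _ = _
        rw [Finsupp.linearCombination_single, one_smul]
        rfl
      rw [e1, map_sum]
      have e2 : ∀ y : X, (lin D).d (n + 1) (Finsupp.single (pr.app (n + 2) (Fin.cons y x)) 1) =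
          Finsupp.single (pr.app (n + 1) x) 1 +
          ∑ i : Fin (n + 2), Finsupp.single (pr.app (n + 1) (Fin.cons y (fun j => x (dlt i j)))) 1 := by
        intro y
        rw [lin_d]
        unfold dif
        rw [Fin.sum_univ_succ, Finsupp.mapDomain_single]
        have e3 : D.act (dlt 0) (pr.app (n + 2) (Fin.cons y x)) = pr.app (n + 1) x :=
          (pr.nat (dlt 0) (Fin.cons y x : Fin (n + 3) → X)).symm
        have e4 : ∀ i : Fin (n + 2), Finsupp.mapDomain (D.act (dlt i.succ))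
            (Finsupp.single (pr.app (n + 2) (Fin.cons y x)) (1 : ZMod 2)) =
            Finsupp.single (pr.app (n + 1) (Fin.cons y (fun j => x (dlt i j)))) 1 := by
          intro i
          rw [Finsupp.mapDomain_single]
          have e5 : (EX X).act (dlt i.succ) (Fin.cons y x : Fin (n + 3) → X) =
              (Fin.cons y (fun j => x (dlt i j)) : Fin (n + 2) → X) := by
            funext j
            show (Fin.cons y x : Fin (n + 3) → X) (i.succ.succAbove j) = _
            refine Fin.cases ?_ (fun j => ?_) j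
            · rw [Fin.succ_succAbove_zero]
              rfl
            · rw [Fin.succ_succAbove_succ]
              rfl
          rw [← e5]
          congr 1
        rw [e3, Finset.sum_congr rfl fun i _ => e4 i]
      rw [Finset.sum_congr rfl fun y _ => e2 y, Finset.sum_add_distrib, Finset.sum_const,
        Finset.card_univ, ← Nat.cast_smul_eq_nsmul (ZMod 2), hodd, one_smul]
      congr 1
      rw [lin_d]
      unfold dif
      rw [map_sum, Finset.sum_comm]
      refine Finset.sum_congr rfl fun i _ => ?_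
      rw [Finsupp.mapDomain_single]
      show _ = Finsupp.linearCombination (ZMod 2) (hf n) _
      rw [Finsupp.linearCombination_single, one_smul]
      rfl
    have h1 := LinearMap.congr_fun hlin z
    simp only [LinearMap.comp_apply, LinearMap.add_apply, LinearMap.id_apply] at h1
    rw [← lin_d, ← lin_d]
    exact h1
  refine acyc_pt_of_abs _ ?_ ?_
  · intro n z hz
    refine ⟨hL (n + 1) z, ?_⟩
    rw [hid, hz, map_zero, add_zero]
  · intro z
    refine ⟨0, ?_⟩
    rw [dif_zero, add_zero]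
    intro q _
    obtain ⟨y, rfl⟩ := a.proj_surj ⊤ q
    show (a.proj ⊤).app 0 y = (a.quo ⊤).act (cst 0) ((a.proj ⊤).app 0 (fun _ => x))
    rw [← (a.proj ⊤).nat]
    obtain ⟨g, hg⟩ := htr (y 0) x
    refine (a.proj_eq_iff ⊤ _ _).2 ⟨g, trivial, ?_⟩
    funext i
    have hi : i = 0 := Fin.eq_zero i
    subst hi
    exact hg

/-- (BG4) all finite groups -/
theorem yac_BGr_finite (G : Type) [Group G] [Finite G] : YAc Y (BGr G) (BGr.pt G) := by
  classical
  have : Fact (Nat.Prime 2) := ⟨Nat.prime_two⟩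
  obtain ⟨P⟩ : Nonempty (Sylow 2 G) := inferInstance
  let X := G ⧸ (P : Subgroup G)
  let x₀ : X := ((1 : G) : G ⧸ (P : Subgroup G))
  have hX : Odd (Nat.card X) := by
    rw [← Subgroup.index_eq_card, ← Nat.not_even_iff_odd, even_iff_two_dvd]
    exact P.not_dvd_index
  let A := EX.gact G G
  let B := EX.gact G X
  have hA : A.Free := EX.gact_free G
  let o : (EX G).S 0 := fun _ => 1
  let u : (EX X).S 0 := fun _ => x₀
  have hpg : ∀ (n : ℕ) (z : (EX X).S n), IsPGroup 2 (B.stab z ⊓ ⊤ : Subgroup G) := by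
    rintro n z ⟨g, hg, -⟩
    obtain ⟨h, hh⟩ := QuotientGroup.mk_surjective (z 0)
    have h1 : g • z 0 = z 0 := congrFun (show (fun i => g • z i) = z from hg) 0
    rw [← hh] at h1
    have h2 : ((g * h : G) : G ⧸ (P : Subgroup G)) = (h : G ⧸ (P : Subgroup G)) := h1
    have h3 : h⁻¹ * (g * h) ∈ (P : Subgroup G) := QuotientGroup.eq.1 h2.symm
    obtain ⟨k, hk⟩ := P.isPGroup' ⟨_, h3⟩
    refine ⟨k, ?_⟩
    apply Subtype.ext
    have h4 : (h⁻¹ * (g * h)) ^ 2 ^ k = 1 := congrArg Subtype.val hk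
    have h5 : h⁻¹ * (g * h) = h⁻¹ * g * (h⁻¹)⁻¹ := by rw [inv_inv, mul_assoc]
    rw [h5, conj_pow, conj_eq_one_iff] at h4
    exact h4
  have s1 : Strat Y (A.prodSnd B ⊤) := by
    refine strat_prodSnd A B ⊤ fun n z => ⟨o, ?_⟩
    exact (yac_quo_subgroup_iff hY A hA _ o (EX.acyc G 1)).2 (yac_BGr_pgroup hY _ (hpg n z))
  have s2 : Strat Y (A.prodFst B ⊤) := by
    refine strat_prodFst A B ⊤ fun n z => ⟨u, ?_⟩
    rw [hA.stab_eq, bot_inf_eq, yac_quo_bot hY B u]
    exact YAc.of_acyc hY (EX.acyc X x₀)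
  have h4 : YAc Y (B.quo ⊤) ((B.proj ⊤).app 0 u) := by
    refine YAc.of_acyc hY (acyc_EX_quo hX ?_ x₀)
    intro x y
    exact MulAction.exists_smul_eq G x y
  have h5 := (s1.yac_iff hY (((A.prod B).proj ⊤).app 0 (o, u))).2 h4
  have h6 := (s2.yac_iff hY (((A.prod B).proj ⊤).app 0 (o, u))).1 h5
  exact (yac_EG_quo hY G o).1 h6

/-- locally finite groups -/
theorem yac_BGr_locally_finite (G : Type) [Group G]
    (hG : ∀ S : Finset G, ∃ H : Subgroup G, Finite H ∧ (S : Set G) ⊆ H) :
    YAc Y (BGr G) (BGr.pt G) := by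
  classical
  let ι := {H : Subgroup G // Finite H}
  have hι : Nonempty ι := by
    obtain ⟨H, hH, -⟩ := hG ∅
    exact ⟨⟨H, hH⟩⟩
  let C : ι → Sub (BGr G) := fun H => ⟨fun n => {f | ∀ i, f.1 i ∈ H.1}, by
    intro m n f x hx i
    exact H.1.mul_mem (H.1.inv_mem (hx _)) (hx _)⟩
  have hp : ∀ i, BGr.pt G ∈ (C i).car 0 := fun H i => H.1.one_mem
  refine YAc.iUn hY C ?_ (BGr.pt G) hp ?_ ?_
  · rintro ⟨H, hH⟩ ⟨K, hK⟩
    have : Finite H := hH
    have : Finite K := hK
    have fH : ((H : Set G)).Finite := Set.toFinite _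
    have fK : ((K : Set G)).Finite := Set.toFinite _
    obtain ⟨L, hL, hS⟩ := hG (fH.toFinset ∪ fK.toFinset)
    refine ⟨⟨L, hL⟩, fun n f hf i => hS ?_, fun n f hf i => hS ?_⟩
    · rw [Finset.mem_coe, Finset.mem_union]
      exact Or.inl (fH.mem_toFinset.2 (hf i))
    · rw [Finset.mem_coe, Finset.mem_union]
      exact Or.inr (fK.mem_toFinset.2 (hf i))
  · intro n f
    obtain ⟨L, hL, hS⟩ := hG (Finset.univ.image f.1)
    refine ⟨⟨L, hL⟩, fun i => hS ?_⟩
    rw [Finset.mem_coe]
    exact Finset.mem_image_of_mem _ (Finset.mem_univ i)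
  · rintro ⟨H, hH⟩
    have : Finite H := hH
    let φ : Hom (BGr H) (C ⟨H, hH⟩).ss :=
      { app := fun n f => ⟨⟨fun i => (f.1 i : G), by
          show ((f.1 0 : H) : G) = 1; rw [f.2]; rfl⟩, fun i => (f.1 i).2⟩
        nat := by
          intro m n f x
          rfl }
    have h := YAc.iso_iff hY φ (fun n => ⟨?_, ?_⟩) (BGr.pt H)
    · exact h.1 (yac_BGr_finite hY H)
    · intro x y hxy
      apply Subtype.ext
      funext i
      apply Subtype.ext
      exact congrFun (congrArg (fun z => z.1.1) hxy) i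
    · rintro ⟨⟨y, hy⟩, hy'⟩
      refine ⟨⟨fun i => ⟨y i, hy' i⟩, Subtype.ext hy⟩, ?_⟩
      rfl

/-- quotients of acyclic simplicial sets by free actions of finite groups -/
theorem yac_quo_finite {G : Type} [Group G] [Finite G] {E : SS} (a : GAct G E) (ha : a.Free)
    (e : E.S 0) (he : Acyc (Sub.pt e) (⊤ : Sub E)) :
    YAc Y (a.quo ⊤) ((a.proj ⊤).app 0 e) :=
  (yac_quo_iff hY a ha e he).2 (yac_BGr_finite hY G)

end target

end MM

end

/-! ### from `Lib_MP_33f7bb_d.B308` -/

section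

/-!
# B3-08 (L6): `lab D (bd 1) ⊤` in `Δ¹` is the bar construction of the abelian group `D`

`P := lab D (bd 1) ⊤` (ambient `Del 1`): `(bd 1).car n` = the two constant maps, so a simplex of degree `n` is a
function `a` on the surjective monotone maps `β : [n] → [1]` with values in `D` (`Mo n 1` is finite).
Map to `BGr (Multiplicative D)` (B2A): `f i = ∑ β with β 0 = 0 and β i = 1, a β` (so `f 0 = 0`); on `P` the
condition `β 0 = 0` may be dropped, as `a` vanishes on constant maps... and `β 0 = 1` means `β = cst 1`.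
* bijective: the surjective `β` are `β_j (i) = 1 iff j ≤ i`, `1 ≤ j ≤ n`; `f i = ∑ j ≤ i, a β_j`; inverse
  `a β_j = f j - f (j-1)` (`β_j (j) = 1`, `β_j (j-1) = 0`; for a general surjective `β` let `j` be the least index with
  `β j = 1`).  Injectivity: by induction on `j`.
* natural: for `g : Mo m n` and `γ : [m] → [1]`, `(act g a) γ = ∑ (β with β ∘ g = γ) a β` for nonconstant `γ`
  (`labAct_of_notMem`, `Finsupp.mapDomain`), so
  `(act g f) i = ∑ (γ nonconstant, γ i = 1) ∑ (β ∘ g = γ) a β = ∑ (β with β (g 0) = 0, β (g i) = 1) a β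
   = ∑ (β (g i) = 1) a β - ∑ (β (g 0) = 1) a β = f (g i) - f (g 0)`.
`yac_BGr_locally_finite` and `YAc.iso_iff` finish the proof.
-/

namespace MM

/-- sum over the maps which are `1` at `i` -/
private noncomputable def B308_F {D : Type} [AddCommGroup D] {n : ℕ} (a : Mo n 1 →₀ D)
    (i : Fin (n + 1)) : D := ∑ β : Mo n 1, if β i = 1 then a β else 0

/-- the step map -/
private def B308_st {n : ℕ} (k : Fin n) : Mo n 1 :=
  ⟨fun i => if k.castSucc < i then 1 else 0, by
    intro i j hij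
    by_cases h : k.castSucc < i
    · have h' : k.castSucc < j := lt_of_lt_of_le h hij
      simp [h, h']
    · simp [h]⟩

private theorem B308_st_apply {n : ℕ} (k : Fin n) (i : Fin (n + 1)) :
    B308_st k i = if k.castSucc < i then 1 else 0 := rfl

private theorem B308_ne {x : Fin 2} (h : x ≠ 1) : x = 0 := by
  revert h; revert x; decide

private theorem B308_step {n : ℕ} (k : Fin n) (β : Mo n 1) :
    (β k.castSucc = 0 ∧ β k.succ = 1) ↔ β = B308_st k := by
  constructor
  · rintro ⟨h0, h1⟩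
    apply OrderHom.ext
    funext i
    rw [B308_st_apply]
    by_cases h : k.castSucc < i
    · rw [if_pos h]
      have h2 : k.succ ≤ i := by
        rw [Fin.le_def, Fin.val_succ]
        rw [Fin.lt_def, Fin.val_castSucc] at h
        omega
      have h3 := β.monotone h2
      rw [h1] at h3
      exact le_antisymm (Fin.le_last _) h3
    · rw [if_neg h]
      have h3 := β.monotone (not_lt.1 h)
      rw [h0] at h3
      exact le_antisymm h3 (Fin.zero_le _)
  · rintro rfl
    rw [B308_st_apply, B308_st_apply, if_neg (lt_irrefl _), if_pos (Fin.castSucc_lt_succ)]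
    exact ⟨rfl, rfl⟩

private theorem B308_surj {n : ℕ} (β : Mo n 1) (h : Function.Surjective β) :
    ∃ k : Fin n, β = B308_st k := by
  by_contra hc
  push Not at hc
  have h0 : β 0 = 0 := by
    obtain ⟨i, hi⟩ := h 0
    have h1 := β.monotone (Fin.zero_le i)
    rw [hi] at h1
    exact le_antisymm h1 (Fin.zero_le _)
  have hall : ∀ i, β i = 0 := by
    intro i
    induction i using Fin.induction with
    | zero => exact h0
    | succ k ih =>
      by_contra h1
      have h2 : β k.succ = 1 := by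
        by_contra h3
        exact h1 (B308_ne h3)
      exact hc k ((B308_step k β).1 ⟨ih, h2⟩)
  obtain ⟨i, hi⟩ := h 1
  rw [hall i] at hi
  exact absurd hi (by decide)

private theorem B308_st_surj {n : ℕ} (k : Fin n) : Function.Surjective (B308_st k) := by
  intro y
  have h := (B308_step k (B308_st k)).2 rfl
  by_cases hy : y = 1
  · exact ⟨k.succ, by rw [h.2, hy]⟩
  · exact ⟨k.castSucc, by rw [h.1, B308_ne hy]⟩

private theorem B308_diff {D : Type} [AddCommGroup D] {n : ℕ} (a : Mo n 1 →₀ D) (k : Fin n) :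
    B308_F a k.succ - B308_F a k.castSucc = a (B308_st k) := by
  classical
  unfold B308_F
  rw [← Finset.sum_sub_distrib]
  have h : ∀ β : Mo n 1, ((if β k.succ = 1 then a β else 0) - (if β k.castSucc = 1 then a β else 0)) =
      if β = B308_st k then a β else 0 := by
    intro β
    by_cases h1 : β k.castSucc = 1
    · have h2 : β k.succ = 1 := by
        have h3 := β.monotone (le_of_lt (Fin.castSucc_lt_succ (i := k)))
        rw [h1] at h3
        exact le_antisymm (Fin.le_last _) h3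
      have h3 : ¬ β = B308_st k := by
        intro h
        have h4 := ((B308_step k β).2 h).1
        rw [h1] at h4
        exact absurd h4 (by decide)
      rw [if_pos h2, if_pos h1, if_neg h3, sub_self]
    · by_cases h2 : β k.succ = 1
      · have h3 : β = B308_st k := (B308_step k β).1 ⟨B308_ne h1, h2⟩
        rw [if_pos h2, if_neg h1, if_pos h3, sub_zero]
      · have h3 : ¬ β = B308_st k := fun h => h2 ((B308_step k β).2 h).2
        rw [if_neg h2, if_neg h1, if_neg h3, sub_zero]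
  rw [Finset.sum_congr rfl fun β _ => h β, Finset.sum_ite_eq' Finset.univ (B308_st k)]
  rw [if_pos (Finset.mem_univ _)]

/-- the inverse map -/
private noncomputable def B308_G {D : Type} [AddCommGroup D] {n : ℕ} (f : Fin (n + 1) → D) :
    Mo n 1 →₀ D :=
  Finsupp.equivFunOnFinite.symm fun β =>
    ∑ k : Fin n, if β = B308_st k then f k.succ - f k.castSucc else 0

private theorem B308_G_apply {D : Type} [AddCommGroup D] {n : ℕ} (f : Fin (n + 1) → D)
    (β : Mo n 1) : B308_G f β = ∑ k : Fin n, if β = B308_st k then f k.succ - f k.castSucc else 0 :=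
  rfl

private theorem B308_tel {D : Type} [AddCommGroup D] {n : ℕ} (f : Fin (n + 1) → D)
    (i : Fin (n + 1)) :
    (∑ k : Fin n, if k.castSucc < i then f k.succ - f k.castSucc else 0) = f i - f 0 := by
  induction i using Fin.induction with
  | zero =>
    rw [sub_self]
    refine Finset.sum_eq_zero fun k _ => ?_
    rw [if_neg (not_lt.2 (Fin.zero_le _))]
  | succ j ih =>
    have h : ∀ k : Fin n, (if k.castSucc < j.succ then f k.succ - f k.castSucc else 0) =
        (if k.castSucc < j.castSucc then f k.succ - f k.castSucc else 0) +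
          (if k = j then f k.succ - f k.castSucc else 0) := by
      intro k
      by_cases h1 : k = j
      · subst h1
        rw [if_pos (Fin.castSucc_lt_succ), if_neg (lt_irrefl _), if_pos rfl, zero_add]
      · by_cases h2 : k.castSucc < j.castSucc
        · have h3 : k.castSucc < j.succ := h2.trans (Fin.castSucc_lt_succ)
          rw [if_pos h3, if_pos h2, if_neg h1, add_zero]
        · have h3 : ¬ k.castSucc < j.succ := by
            intro h4
            rw [Fin.lt_def, Fin.val_castSucc, Fin.val_succ] at h4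
            rw [Fin.lt_def, Fin.val_castSucc, Fin.val_castSucc] at h2
            exact h1 (Fin.ext (by omega))
          rw [if_neg h3, if_neg h2, if_neg h1, add_zero]
    rw [Finset.sum_congr rfl fun k _ => h k, Finset.sum_add_distrib, ih,
      Finset.sum_ite_eq' Finset.univ j, if_pos (Finset.mem_univ _)]
    abel

private theorem B308_FG {D : Type} [AddCommGroup D] {n : ℕ} (f : Fin (n + 1) → D)
    (hf : f 0 = 0) (i : Fin (n + 1)) : B308_F (B308_G f) i = f i := by
  classical
  unfold B308_F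
  have h1 : ∀ β : Mo n 1, (if β i = 1 then B308_G f β else 0) =
      ∑ k : Fin n, if β = B308_st k then (if k.castSucc < i then f k.succ - f k.castSucc else 0)
        else 0 := by
    intro β
    by_cases h : β i = 1
    · rw [if_pos h, B308_G_apply]
      refine Finset.sum_congr rfl fun k _ => ?_
      by_cases h2 : β = B308_st k
      · rw [if_pos h2, if_pos h2]
        have h3 : k.castSucc < i := by
          by_contra h4
          rw [h2, B308_st_apply, if_neg h4] at h
          exact absurd h (by decide)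
        rw [if_pos h3]
      · rw [if_neg h2, if_neg h2]
    · rw [if_neg h]
      symm
      refine Finset.sum_eq_zero fun k _ => ?_
      by_cases h2 : β = B308_st k
      · rw [if_pos h2]
        have h3 : ¬ k.castSucc < i := by
          intro h4
          apply h
          rw [h2, B308_st_apply, if_pos h4]
        rw [if_neg h3]
      · rw [if_neg h2]
  rw [Finset.sum_congr rfl fun β _ => h1 β, Finset.sum_comm]
  have h2 : ∀ k : Fin n, (∑ β : Mo n 1, if β = B308_st k then
      (if k.castSucc < i then f k.succ - f k.castSucc else 0) else 0) =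
      if k.castSucc < i then f k.succ - f k.castSucc else 0 := by
    intro k
    rw [Finset.sum_ite_eq' Finset.univ (B308_st k), if_pos (Finset.mem_univ _)]
  rw [Finset.sum_congr rfl fun k _ => h2 k, B308_tel, hf, sub_zero]

private theorem B308_F0 {D : Type} [AddCommGroup D] {n : ℕ} (a : Mo n 1 →₀ D)
    (ha : a ∈ labM D (bd 1) (⊤ : Sub (Del 1)) n) : B308_F a 0 = 0 := by
  unfold B308_F
  refine Finset.sum_eq_zero fun β _ => ?_
  by_cases h : β 0 = 1
  · rw [if_pos h]
    by_contra h1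
    have h2 := (ha β h1).2
    apply h2
    intro hs
    obtain ⟨i, hi⟩ := hs 0
    have h3 := β.monotone (Fin.zero_le i)
    rw [h, hi] at h3
    exact absurd h3 (by decide)
  · rw [if_neg h]

private theorem B308_act {D : Type} [AddCommGroup D] {m n : ℕ} (g : Mo m n) (a : Mo n 1 →₀ D)
    (i : Fin (m + 1)) :
    B308_F (labAct D (bd 1) g a) i = B308_F a (g i) - B308_F a (g 0) := by
  classical
  have hmd : ∀ γ : Mo m 1, (Finsupp.mapDomain ((Del 1).act g) a) γ =
      ∑ β : Mo n 1, if β.comp g = γ then a β else 0 := by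
    intro γ
    rw [Finsupp.mapDomain, Finsupp.sum_apply, Finsupp.sum_fintype]
    · refine Finset.sum_congr rfl fun β _ => ?_
      rw [Finsupp.single_apply]
    · intro β
      simp
  unfold B308_F
  rw [← Finset.sum_sub_distrib]
  have h1 : ∀ γ : Mo m 1, (if γ i = 1 then labAct D (bd 1) g a γ else 0) =
      ∑ β : Mo n 1, if γ = β.comp g then
        ((if β (g i) = 1 then a β else 0) - (if β (g 0) = 1 then a β else 0)) else 0 := by
    intro γ
    by_cases h : γ i = 1
    · rw [if_pos h]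
      by_cases h0 : γ 0 = 1
      · have hmem : γ ∈ (bd 1).car m := by
          intro hs
          obtain ⟨j, hj⟩ := hs 0
          have h3 := γ.monotone (Fin.zero_le j)
          rw [h0, hj] at h3
          exact absurd h3 (by decide)
        rw [labAct_of_mem (bd 1) g a hmem]
        symm
        refine Finset.sum_eq_zero fun β _ => ?_
        by_cases h2 : γ = β.comp g
        · have e1 : β (g i) = 1 := by rw [h2] at h; exact h
          have e2 : β (g 0) = 1 := by rw [h2] at h0; exact h0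
          rw [if_pos h2, if_pos e1, if_pos e2, sub_self]
        · rw [if_neg h2]
      · have hnm : γ ∉ (bd 1).car m := by
          intro hm
          apply hm
          intro y
          by_cases hy : y = 1
          · exact ⟨i, by rw [hy]; exact h⟩
          · exact ⟨0, by rw [B308_ne hy]; exact B308_ne h0⟩
        rw [labAct_of_notMem (bd 1) g a hnm]
        refine (hmd γ).trans ?_
        refine Finset.sum_congr rfl fun β _ => ?_
        by_cases h2 : γ = β.comp g
        · have e1 : β (g i) = 1 := by rw [h2] at h; exact h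
          have e2 : ¬ β (g 0) = 1 := by rw [h2] at h0; exact h0
          rw [if_pos h2.symm, if_pos h2, if_pos e1, if_neg e2, sub_zero]
        · rw [if_neg (fun h3 => h2 h3.symm), if_neg h2]
    · rw [if_neg h]
      symm
      refine Finset.sum_eq_zero fun β _ => ?_
      by_cases h2 : γ = β.comp g
      · have e1 : ¬ β (g i) = 1 := by rw [h2] at h; exact h
        have e2 : ¬ β (g 0) = 1 := by
          intro h3
          apply e1
          have h4 := β.monotone (g.monotone (Fin.zero_le i))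
          rw [h3] at h4
          exact le_antisymm (Fin.le_last _) h4
        rw [if_pos h2, if_neg e1, if_neg e2, sub_zero]
      · rw [if_neg h2]
  rw [Finset.sum_congr rfl fun γ _ => h1 γ, Finset.sum_comm]
  refine Finset.sum_congr rfl fun β _ => ?_
  rw [Finset.sum_ite_eq' Finset.univ (β.comp g), if_pos (Finset.mem_univ _)]

/-- the isomorphism with the bar construction -/
private noncomputable def B308_phi (D : Type) [AddCommGroup D] :
    Hom (lab D (bd 1) (⊤ : Sub (Del 1))) (BGr (Multiplicative D)) where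
  app n a := ⟨fun i => Multiplicative.ofAdd (B308_F a.1 i), by
    show Multiplicative.ofAdd (B308_F a.1 0) = 1
    rw [B308_F0 a.1 a.2]; rfl⟩
  nat {m n} g a := by
    apply Subtype.ext
    funext i
    show Multiplicative.ofAdd (B308_F (labAct D (bd 1) g a.1) i) =
      (Multiplicative.ofAdd (B308_F a.1 (g 0)))⁻¹ * Multiplicative.ofAdd (B308_F a.1 (g i))
    rw [B308_act, ← ofAdd_neg, ← ofAdd_add]
    congr 1
    abel

private theorem B308_phi_apply (D : Type) [AddCommGroup D] (n : ℕ)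
    (a : (lab D (bd 1) (⊤ : Sub (Del 1))).S n) (i : Fin (n + 1)) :
    ((B308_phi D).app n a).1 i = Multiplicative.ofAdd (B308_F a.1 i) := rfl

private theorem B308_bij (D : Type) [AddCommGroup D] (n : ℕ) :
    Function.Bijective ((B308_phi D).app n) := by
  constructor
  · intro a b hab
    have h : ∀ i, B308_F a.1 i = B308_F b.1 i := by
      intro i
      have h1 := congrArg (fun x => x.1 i) hab
      exact Multiplicative.ofAdd.injective h1
    apply Subtype.ext
    ext β
    by_cases hs : Function.Surjective (β : Mo n 1)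
    · obtain ⟨k, hk⟩ := B308_surj β hs
      rw [hk, ← B308_diff a.1 k, ← B308_diff b.1 k, h, h]
    · have h1 : a.1 β = 0 := by
        by_contra h2
        exact (a.2 β h2).2 hs
      have h2 : b.1 β = 0 := by
        by_contra h2
        exact (b.2 β h2).2 hs
      rw [h1, h2]
  · intro f
    have hmem : B308_G (fun i => Multiplicative.toAdd (f.1 i)) ∈
        labM D (bd 1) (⊤ : Sub (Del 1)) n := by
      intro β hβ
      refine ⟨trivial, fun hm => hβ ?_⟩
      rw [B308_G_apply]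
      refine Finset.sum_eq_zero fun k _ => ?_
      rw [if_neg]
      intro h
      apply hm
      rw [h]
      exact B308_st_surj k
    refine ⟨⟨_, hmem⟩, ?_⟩
    apply Subtype.ext
    funext i
    rw [B308_phi_apply]
    rw [B308_FG (fun i => Multiplicative.toAdd (f.1 i)) (by
      show Multiplicative.toAdd (f.1 0) = 0
      rw [f.2]; rfl) i]
    rfl

theorem lab_bd1 {Y : SS} [∀ n, TopologicalSpace (Y.S n)] (hY : IsTarget Y) (D : Type)
    [AddCommGroup D] (hD : ∀ s : Finset D, ∃ B : AddSubgroup D, Finite B ∧ (s : Set D) ⊆ B) :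
    YAc Y (lab D (bd 1) ⊤) 0 := by
  classical
  rw [YAc.iso_iff hY (B308_phi D) (B308_bij D)]
  have h0 : (B308_phi D).app 0 0 = BGr.pt (Multiplicative D) := by
    apply Subtype.ext
    funext i
    rw [B308_phi_apply]
    show Multiplicative.ofAdd (B308_F (0 : Mo 0 1 →₀ D) i) = 1
    unfold B308_F
    simp
  rw [h0]
  refine yac_BGr_locally_finite hY (Multiplicative D) fun S => ?_
  obtain ⟨B, hB, hS⟩ := hD (S.image Multiplicative.toAdd)
  refine ⟨AddSubgroup.toSubgroup B, hB, ?_⟩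
  intro x hx
  have h1 : Multiplicative.toAdd x ∈ (B : Set D) := by
    apply hS
    rw [Finset.coe_image]
    exact ⟨x, hx, rfl⟩
  exact h1

end MM

end

/-! ### from `Lib_MP_33f7bb_d.B313` -/

section

/-!
# B3-13: assembly of B3
-/

namespace MM

variable {Y : SS} [∀ n, TopologicalSpace (Y.S n)]

theorem lab_yac_iff (hY : IsTarget Y) (A : Type) [AddCommMonoid A] {U : SS} {K K' C : Sub U}
    (hK : K ≤ K') (hC : K' ≤ C) (h : YAc Y (lab A K K') 0) :
    YAc Y (lab A K C) 0 ↔ YAc Y (lab A K' C) 0 := by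
  have := Strat.yac_iff hY (labProj_strat (Y := Y) A hK hC h) (0 : (lab A K C).S 0)
  rwa [show (labProj A C hK).app 0 0 = 0 from Subtype.ext (by
    classical
    show Finsupp.filter _ (0 : U.S 0 →₀ A) = 0; exact Finsupp.filter_zero _)] at this

/-- (L3) -/
theorem lab_perf {M : Type} [AddCommMonoid M] (hM : Function.Bijective (fun x : M => x + x))
    {U : SS} (K C : Sub U) (h0 : C.car 0 ⊆ K.car 0) : Acyc (Sub.pt (P := lab M K C) 0) ⊤ := by
  apply acyc_pt_of_abs
  · intro n z hz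
    exact perf_cycle (P := lab M K C) (fun f x y => lab_act_add f x y)
      (fun n => labM_double hM K C n) n z hz
  · intro z
    refine ⟨0, fun x _ => ?_⟩
    have h1 : ∀ a : (lab M K C).S 0, a = 0 := by
      intro a
      apply Subtype.ext
      ext u
      by_contra h
      exact (a.2 u h).2 (h0 (a.2 u h).1)
    show x = _
    rw [h1 x]
    exact (h1 _).symm

theorem pt_le_horn (n : ℕ) : Sub.pt (P := Del (n + 1)) (cst 0 : Mo 0 (n + 1)) ≤ horn (n + 1) 0 := by
  rintro m x hx
  have hx' : x = (cst 0 : Mo m (n + 1)) := hx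
  subst hx'
  refine ⟨1, by simp, fun t => ?_⟩
  show ¬ ((0 : Fin (n + 2)) = 1)
  exact (by simp : ¬ ((0 : Fin (n + 2)) = 1))

/-- (L5) -/
theorem lab_horn_yac (hY : IsTarget Y) (A : Type) [AddCommMonoid A] (n : ℕ) :
    YAc Y (lab A (horn (n + 1) 0) ⊤) 0 :=
  (lab_yac_iff hY A (pt_le_horn n) (Sub.le_top' _)
    (YAc.of_acyc hY (lab_horn_acyc A (n + 1)))).1 (YAc.of_acyc hY (lab_simplex_acyc A (n + 1)))

/-- (L7), (L8) -/
theorem lab_bd (hY : IsTarget Y) (I : Type) (n : ℕ) :
    YAc Y (lab (I →₀ ℕ) (bd (n + 2)) ⊤) 0 := by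
  induction n with
  | zero =>
    obtain ⟨M, D, iM, iD, c, hdbl, hD⟩ := exists_coef I
    have hK : horn (0 + 2) 0 ≤ bd (0 + 2) := (relIso_face 1).le'
    have hC : bd (0 + 2) ≤ (⊤ : Sub (Del (0 + 2))) := Sub.le_top' _
    obtain ⟨q, hq0, hq⟩ := exists_TLq c hK hC (lab_horn_yac hY (I →₀ ℕ) 1)
    have h1 : YAc Y (lab D (horn (0 + 2) 0) (bd (0 + 2))) 0 :=
      (lab_relIso hY D (relIso_face 1)).1 (lab_bd1 hY D hD)
    have h2 : YAc Y (TL c (horn (0 + 2) 0) (bd (0 + 2)) ⊤) 0 := by
      refine (Strat.yac_iff hY hq _).2 ?_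
      rw [hq0]; exact h1
    have h3 : YAc Y (lab M (horn (0 + 2) 0) (bd (0 + 2))) 0 := by
      refine (lab_relIso hY M (relIso_face 1)).1 (YAc.of_acyc hY (lab_perf hdbl (bd 1) ⊤ ?_))
      intro x _ hs
      obtain ⟨a, ha⟩ := hs (0 : Fin 2)
      obtain ⟨b, hb⟩ := hs (1 : Fin 2)
      have : a = b := Fin.ext (by omega)
      rw [this, hb] at ha
      exact absurd ha (by decide)
    obtain ⟨p, hp0, hp⟩ := exists_TLp c hK hC h3
    have := (Strat.yac_iff hY hp _).1 h2
    rwa [hp0] at this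
  | succ n ih =>
    have hK : horn (n + 1 + 2) 0 ≤ bd (n + 1 + 2) := (relIso_face (n + 2)).le'
    have hC : bd (n + 1 + 2) ≤ (⊤ : Sub (Del (n + 1 + 2))) := Sub.le_top' _
    exact (lab_yac_iff hY (I →₀ ℕ) hK hC ((lab_relIso hY (I →₀ ℕ) (relIso_face (n + 2))).1 ih)).1
      (lab_horn_yac hY (I →₀ ℕ) (n + 2))

theorem sk_mono (W : SS) {n n' : ℕ} (h : n ≤ n') : W.sk n ≤ W.sk n' := by
  rintro m x ⟨k, f, y, hk, rfl⟩
  exact ⟨k, f, y, hk.trans h, rfl⟩

theorem lab_self_yac (hY : IsTarget Y) (A : Type) [AddCommMonoid A] {U : SS} (K : Sub U) :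
    YAc Y (lab A K K) 0 := by
  apply YAc.of_acyc hY
  have h1 : ∀ n (a : (lab A K K).S n), a = 0 := by
    intro n a
    apply Subtype.ext
    ext u
    by_contra h
    exact (a.2 u h).2 (a.2 u h).1
  have : Sub.pt (P := lab A K K) 0 = ⊤ := by
    apply Sub.ext
    funext n
    ext x
    refine ⟨fun _ => trivial, fun _ => ?_⟩
    show x = _
    rw [h1 n x]
    exact (h1 n _).symm
  rw [this]
  exact Acyc.refl ⊤

theorem lab_sk_yac (hY : IsTarget Y) {W : SS} (w0 : W.S 0) (h0 : ∀ w : W.S 0, w = w0)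
    (h1 : ∀ w : W.S 1, w = W.deg w0 1) (n : ℕ) :
    YAc Y (lab ℕ (Sub.pt w0) (W.sk (n + 1))) 0 := by
  induction n with
  | zero =>
    rw [show W.sk (0 + 1) = Sub.pt w0 from sk_one_eq w0 h0 h1]
    exact lab_self_yac hY ℕ _
  | succ n ih =>
    have hle : Sub.pt w0 ≤ W.sk (n + 1) := by
      rw [← sk_one_eq w0 h0 h1]
      exact sk_mono W (by omega)
    refine (lab_yac_iff hY ℕ hle (sk_mono W (by omega)) ih).2 ?_
    refine (lab_relIso hY ℕ (relIso_sk W (n + 1))).1 ?_
    exact (lab_curry hY ℕ (bd (n + 1 + 1)) ⊤ _).2 (lab_bd hY _ n)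

/-- (L9) -/
theorem lab_yac_of_reduced (hY : IsTarget Y) {W : SS} (w0 : W.S 0) (h0 : ∀ w : W.S 0, w = w0)
    (h1 : ∀ w : W.S 1, w = W.deg w0 1) : YAc Y (lab ℕ (Sub.pt w0) ⊤) 0 := by
  classical
  -- labels supported in a skeleton
  let C : ℕ → Sub (lab ℕ (Sub.pt w0) (⊤ : Sub W)) := fun i =>
    ⟨fun n => {a | ∀ x, a.1 x ≠ 0 → x ∈ (W.sk (i + 1)).car n}, fun {m n} f a ha => by
      have ha' : a.1 ∈ labM ℕ (Sub.pt w0) (W.sk (i + 1)) n := fun x hx =>
        ⟨ha x hx, (a.2 x hx).2⟩
      intro y hy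
      exact (labAct_mem f ha' y hy).1⟩
  refine YAc.iUn hY C ?_ 0 ?_ ?_ ?_
  · intro i j
    refine ⟨max i j, ?_, ?_⟩
    · intro n a ha x hx
      exact sk_mono W (by omega) n (ha x hx)
    · intro n a ha x hx
      exact sk_mono W (by omega) n (ha x hx)
  · intro i x hx
    exact absurd rfl hx
  · intro n x
    refine ⟨n, fun w _ => ?_⟩
    exact ⟨n, OrderHom.id, w, by omega, (W.act_id w).symm⟩
  · intro i
    have key := lab_sk_yac hY w0 h0 h1 i
    let φ : Hom (lab ℕ (Sub.pt w0) (W.sk (i + 1))) (C i).ss :=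
      ⟨fun n a => ⟨⟨a.1, fun x hx => ⟨trivial, (a.2 x hx).2⟩⟩, fun x hx => (a.2 x hx).1⟩,
        fun f a => rfl⟩
    have hφ : ∀ n, Function.Bijective (φ.app n) := by
      intro n
      constructor
      · intro a b h
        apply Subtype.ext
        exact congrArg (fun z => z.1.1) h
      · intro b
        exact ⟨⟨b.1.1, fun x hx => ⟨b.2 x hx, (b.1.2 x hx).2⟩⟩, rfl⟩
    exact (YAc.iso_iff hY φ hφ 0).1 key

/-- (L9) + (L10): the theorem of B3 -/
theorem lab_yac (hY : IsTarget Y) {W : SS} (w0 : W.S 0) (W' : Sub W) (hw0 : w0 ∈ W'.car 0)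
    (hv : ∀ w ∈ W'.car 0, w = w0) (he : ∀ w ∈ W'.car 1, w = W.deg w0 1)
    (H : Hom ((Del 1).prod W) W)
    (h0 : ∀ n x, H.app n (cst 0, x) = x)
    (h1 : ∀ n x, H.app n (cst 1, x) ∈ W'.car n)
    (hc : ∀ n s, ∀ x ∈ W'.car n, H.app n (s, x) = x) : YAc Y (lab ℕ (Sub.pt w0) ⊤) 0 := by
  refine lab_yac_of_retract hY ℕ w0 W' hw0 H h0 h1 hc ?_
  have key : YAc Y (lab ℕ (Sub.pt (P := W'.ss) ⟨w0, hw0⟩) ⊤) 0 :=
    lab_yac_of_reduced hY (W := W'.ss) ⟨w0, hw0⟩ (fun w => Subtype.ext (hv w.1 w.2))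
      (fun w => Subtype.ext (he w.1 w.2))
  refine (lab_relIso hY ℕ (φ := W'.incl) ?_).1 key
  refine ⟨Sub.le_top' _, ?_, ?_, ?_, ?_, ?_⟩
  · rintro n x hx
    have hx' : x = W.act (cst 0) w0 := hx
    rw [hx']
    exact W'.closed _ hw0
  · intro n x _
    exact x.2
  · intro n x _
    constructor
    · intro h
      exact Subtype.ext h
    · intro h
      exact congrArg Subtype.val h
  · intro n x _ y _ _ _ h
    exact Subtype.ext h
  · intro n y hy _
    exact ⟨⟨y, hy⟩, trivial, rfl⟩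

end MM

end

/-! ### from `Lib_MP_33f7bb_d.B404` -/

section

/-!
# B4-04 (BX2): `TTb D w0 → lab ℕ (pt w0) ⊤` is stratified

Let `b : (lab ℕ (pt w0) ⊤).S n`.  The group `Gb b.1` (finite) acts on `EJ D (Jb b.1)` by `(g • x) j = x ⟨j.1, (g j.1)⁻¹ j.2⟩`
(`GAct`, B2A); the action is free (`g • x = x` gives `x ⟨w, (g w)⁻¹ i⟩ = x ⟨w, i⟩`, disjoint boxes are different
(`BX.disj_ne`), so `(g w)⁻¹ i = i`).  By `ej_acyc` there is a vertex `e` with `(EJ, e)` acyclic, so
`F := (action).quo ⊤` is `YAc` (`yac_quo_finite`).  `Φ ([x], α) = PhiF b x α` (well defined by `PhiF_perm`, a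
configuration by `isTT_PhiF`, natural by `actF_PhiF`), lies over `α^* b` by `cntF_PhiF`; for surjective `α` the map
`[x] ↦ PhiF b x α` is a bijection onto the configurations over `α^* b` by `PhiF_inj`, `PhiF_surj` (`hb` from
the membership `b ∈ labM`).
-/

namespace MM

open Classical

variable {Y : SS} [∀ n, TopologicalSpace (Y.S n)]

/-- the action of the permutations of the boxes with the same label -/
private noncomputable def B404_gact (D : Set ℕ) {W : SS} {n : ℕ} (b : W.S n →₀ ℕ) :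
    GAct (Gb b) (EJ D (Jb b)) where
  sm g m x := ⟨fun j => x.1 ⟨j.1, (g j.1)⁻¹ j.2⟩, by
    rintro ⟨w, i⟩ ⟨w', i'⟩ hij
    refine x.2 _ _ fun h => hij ?_
    obtain ⟨h1, h2⟩ := Sigma.mk.inj_iff.1 h
    subst h1
    have h3 : i = i' := (g w)⁻¹.injective (eq_of_heq h2)
    subst h3
    rfl⟩
  one m x := Subtype.ext (funext fun j => rfl)
  mul g h m x := Subtype.ext (funext fun j => by
    show x.1 ⟨j.1, ((g * h) j.1)⁻¹ j.2⟩ = x.1 ⟨j.1, (h j.1)⁻¹ ((g j.1)⁻¹ j.2)⟩
    rw [Pi.mul_apply, mul_inv_rev]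
    rfl)
  nat g m n f x := rfl

private theorem B404_free (D : Set ℕ) {W : SS} {n : ℕ} (b : W.S n →₀ ℕ) :
    (B404_gact D b).Free := by
  intro g m x h
  funext w
  have h1 : ∀ i, (g w)⁻¹ i = i := by
    intro i
    by_contra hne
    have h2 : x.1 ⟨w, (g w)⁻¹ i⟩ = x.1 ⟨w, i⟩ :=
      congrArg (fun y : (EJ D (Jb b)).S m => y.1 ⟨w, i⟩) h
    have h3 : (⟨w, (g w)⁻¹ i⟩ : Jb b) ≠ ⟨w, i⟩ := by
      intro h4
      exact hne (eq_of_heq (Sigma.mk.inj_iff.1 h4).2)
    exact BX.disj_ne (x.2 _ _ h3) h2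
  have h2 : (g w)⁻¹ = 1 := Equiv.ext h1
  have h3 : g w = 1 := inv_eq_one.1 h2
  exact h3

/-- the map from the quotient times the simplex -/
private noncomputable def B404_Phi (D : Set ℕ) {W : SS} (w0 : W.S 0) {n : ℕ} (b : W.S n →₀ ℕ) :
    Hom (((B404_gact D b).quo ⊤).prod (Del n)) (TTb D w0) where
  app m p := Quotient.lift
    (fun x : (EJ D (Jb b)).S m =>
      (⟨PhiF D w0 b x.1 p.2, isTT_PhiF w0 b x.1 x.2 p.2⟩ : (TTb D w0).S m))
    (by
      rintro x y ⟨g, -, rfl⟩
      exact Subtype.ext (PhiF_perm w0 b x.1 p.2 g).symm) p.1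
  nat := by
    rintro l m f ⟨⟨x⟩, α⟩
    exact Subtype.ext (actF_PhiF w0 b x.1 α f).symm

private theorem B404_Phi_mk (D : Set ℕ) {W : SS} (w0 : W.S 0) {n : ℕ} (b : W.S n →₀ ℕ) {m : ℕ}
    (x : (EJ D (Jb b)).S m) (α : Mo m n) :
    ((B404_Phi D w0 b).app m (((B404_gact D b).proj ⊤).app m x, α)).1 = PhiF D w0 b x.1 α := rfl

theorem strat_cnt (hY : IsTarget Y) (D : Set ℕ) (hD : D.Infinite) {W : SS} (w0 : W.S 0) :
    Strat Y (TTb.cnt D w0) := by
  intro n b _
  obtain ⟨e, he⟩ := ej_acyc D hD (Jb b.1)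
  refine ⟨(B404_gact D b.1).quo ⊤, ((B404_gact D b.1).proj ⊤).app 0 e, B404_Phi D w0 b.1,
    yac_quo_finite hY (B404_gact D b.1) (B404_free D b.1) e he, ?_, ?_⟩
  · intro m y α
    obtain ⟨x, rfl⟩ := (B404_gact D b.1).proj_surj ⊤ y
    apply Subtype.ext
    show cntF ((B404_Phi D w0 b.1).app m (((B404_gact D b.1).proj ⊤).app m x, α)).1 =
      labAct ℕ (Sub.pt w0) α b.1
    rw [B404_Phi_mk]
    exact cntF_PhiF w0 b.1 x.1 x.2 α
  · intro m α hα F hF
    have hb : ∀ w, b.1 w ≠ 0 → w ≠ W.deg w0 n := fun w hw => (b.2 w hw).2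
    have hF1 : cntF F.1 = labAct ℕ (Sub.pt w0) α b.1 := congrArg Subtype.val hF
    obtain ⟨x, hx, hx1⟩ := PhiF_surj w0 b.1 hb α hα F.1 F.2 hF1
    refine ⟨((B404_gact D b.1).proj ⊤).app m ⟨x, hx⟩, ?_, ?_⟩
    · apply Subtype.ext
      rw [B404_Phi_mk]
      exact hx1
    · intro y hy
      obtain ⟨x', rfl⟩ := (B404_gact D b.1).proj_surj ⊤ y
      have h1 : PhiF D w0 b.1 x'.1 α = F.1 := by
        rw [← B404_Phi_mk]
        exact congrArg Subtype.val hy
      obtain ⟨g, hg⟩ := PhiF_inj w0 b.1 hb x'.1 x x'.2 hx α hα (h1.trans hx1.symm)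
      refine ((B404_gact D b.1).proj_eq_iff ⊤ _ _).2 ⟨g, trivial, ?_⟩
      exact Subtype.ext hg.symm

/-- the theorem of B4 -/
theorem TT_yac (hY : IsTarget Y) (D : Set ℕ) (hD : D.Infinite) {W : SS} (w0 : W.S 0)
    (h : YAc Y (lab ℕ (Sub.pt w0) ⊤) 0) : YAc Y (TTb D w0) (TTb.empty D w0 0) := by
  refine (Strat.yac_iff hY (strat_cnt hY D hD w0) (TTb.empty D w0 0)).2 ?_
  rwa [show (TTb.cnt D w0).app 0 (TTb.empty D w0 0) = 0 from Subtype.ext (by
    show cntF (∅ : Finset ((BX D).S 0 × W.S 0)) = 0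
    rw [cntF, Finset.sum_empty])]

end MM

end

/-! ### from `Lib_MP_33f7bb_d.B505` -/

section

/-!
# B5-05 (W2), finite dimensional part: extension of nowhere zero maps from the boundary of a simplex

`n < j`, `S` a finite type, `G` defined on `∂ × ℝ^S` (`∂ = {t : Dtop n | ∃ i, t i = 0}`), continuous, bounded by `C`, with
`(e0, y) + G ≠ 0`.  Then `G` extends to `Dtop n × ℝ^S` with the same properties.

Proof.  (1) `∂ × ℝ^S` is closed; by Tietze (coordinatewise; bounded real functions extend with the same bound: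
`BoundedContinuousFunction.exists_norm_eq_restrict_eq_of_closed`, or `ContinuousMap` version with values in
`Set.Icc (-C) C`) there is a continuous extension `G0` with all coordinates bounded by `C`.  (If `n = 0`, `∂` is
empty and `G0 = 0`, which already works; the general argument also covers it.)
(2) `F0 (t, y) = (e0, y) + G0 (t, y)` (sup norms).  If `‖y‖ ≥ C + 1` then `‖F0 (t,y)‖ ≥ 1`.  On the compact set
`∂ × closedBall 0 (C+2)` `‖F0‖` has a positive lower bound; so there is `0 < ε ≤ 1` with `‖F0‖ ≥ ε` on `∂ × ℝ^S`.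
(3) Let `E = (Fin n → ℝ) × (S → ℝ)` (dimension `n + |S|`), `F = (Fin j → ℝ) × (S → ℝ)` (dimension `j + |S|`),
`ρ : Dtop n → (Fin n → ℝ)`, `ρ t i = t i.succ` (continuous, injective, so a closed embedding of the compact space `Dtop n`; let
`ρ'` be a left inverse, continuous on the image `Δ = range ρ`).  `K := Δ ×ˢ closedBall 0 (C+2)` is compact and
`f (u, y) := F0 (ρ' u, y)` is continuous on `K`.  `general_position` gives `g`.
(4) `G' (t, y) := g (ρ t, y) - (e0, y)` if `‖y‖ ≤ C + 2`, and `G0 (t, y)` otherwise.  For `C + 1 ≤ ‖y‖` both formulas agree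
(`‖f‖ ≥ 1 ≥ ε`), so `G'` is continuous; it equals `G0` on `∂ × ℝ^S`; `(e0, y) + G' ≠ 0` everywhere; `G'` is bounded (compactness
for `‖y‖ ≤ C + 2`, or `‖g - f‖ < ε`).
-/

namespace MM

private theorem B505_isClosed (n : ℕ) (S : Type) :
    IsClosed {p : Dtop n × (S → ℝ) | ∃ i, (p.1 : Fin (n + 1) → ℝ) i = 0} := by
  have h : {p : Dtop n × (S → ℝ) | ∃ i, (p.1 : Fin (n + 1) → ℝ) i = 0} =
      ⋃ i, {p : Dtop n × (S → ℝ) | (p.1 : Fin (n + 1) → ℝ) i = 0} := by
    ext p; simp
  rw [h]
  refine isClosed_iUnion_of_finite fun i => ?_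
  refine isClosed_eq ?_ continuous_const
  exact (continuous_apply i).comp (continuous_subtype_val.comp continuous_fst)

private def B505_rho (n : ℕ) (t : Dtop n) : Fin n → ℝ := fun i => (t : Fin (n + 1) → ℝ) i.succ

private theorem B505_rho_cont (n : ℕ) : Continuous (B505_rho n) :=
  continuous_pi fun i => (continuous_apply i.succ).comp continuous_subtype_val

private theorem B505_rho_inj (n : ℕ) : Function.Injective (B505_rho n) := by
  intro s t h
  have h1 : ∀ i : Fin n, (s : Fin (n + 1) → ℝ) i.succ = (t : Fin (n + 1) → ℝ) i.succ :=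
    fun i => congrFun h i
  have hs : ∑ i, (s : Fin (n + 1) → ℝ) i = 1 := s.2.2
  have ht : ∑ i, (t : Fin (n + 1) → ℝ) i = 1 := t.2.2
  rw [Fin.sum_univ_succ] at hs ht
  have h2 : (s : Fin (n + 1) → ℝ) 0 = (t : Fin (n + 1) → ℝ) 0 := by
    have h3 : ∑ i : Fin n, (s : Fin (n + 1) → ℝ) i.succ =
        ∑ i : Fin n, (t : Fin (n + 1) → ℝ) i.succ := Finset.sum_congr rfl fun i _ => h1 i
    linarith
  apply Subtype.ext
  funext i
  refine Fin.cases ?_ (fun i => ?_) i
  · exact h2
  · exact h1 i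

private theorem B505_emb (n : ℕ) (S : Type) :
    Topology.IsClosedEmbedding
      (fun p : Dtop n × (S → ℝ) => ((B505_rho n p.1, p.2) : (Fin n → ℝ) × (S → ℝ))) := by
  have h : Topology.IsClosedEmbedding (B505_rho n) :=
    (B505_rho_cont n).isClosedEmbedding (B505_rho_inj n)
  have h2 := h.prodMap (Topology.IsClosedEmbedding.id (X := S → ℝ))
  exact h2

theorem ext_nonzero (n j : ℕ) (hn : n < j) (S : Type) [Fintype S]
    (G : Dtop n × (S → ℝ) → (Fin j → ℝ) × (S → ℝ))
    (hG : ContinuousOn G {p | ∃ i, (p.1 : Fin (n + 1) → ℝ) i = 0}) (C : ℝ)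
    (hC : ∀ p : Dtop n × (S → ℝ), (∃ i, (p.1 : Fin (n + 1) → ℝ) i = 0) → ‖G p‖ ≤ C)
    (hne : ∀ p : Dtop n × (S → ℝ), (∃ i, (p.1 : Fin (n + 1) → ℝ) i = 0) → (e0 j, p.2) + G p ≠ 0) :
    ∃ G' : Dtop n × (S → ℝ) → (Fin j → ℝ) × (S → ℝ), Continuous G' ∧ (∃ C', ∀ p, ‖G' p‖ ≤ C') ∧
      (∀ p, (e0 j, p.2) + G' p ≠ 0) ∧
      ∀ p : Dtop n × (S → ℝ), (∃ i, (p.1 : Fin (n + 1) → ℝ) i = 0) → G' p = G p := by
  classical
  set Bd : Set (Dtop n × (S → ℝ)) := {p | ∃ i, (p.1 : Fin (n + 1) → ℝ) i = 0} with hBd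
  have hBdc : IsClosed Bd := B505_isClosed n S
  -- (1) Tietze
  let f0 : BoundedContinuousFunction Bd ((Fin j → ℝ) × (S → ℝ)) :=
    BoundedContinuousFunction.ofNormedAddCommGroup (Bd.domRestrict G)
      (continuousOn_iff_continuous_domRestrict.1 hG) C (fun x => hC x.1 x.2)
  obtain ⟨g0, -, hg0⟩ :=
    BoundedContinuousFunction.exists_norm_eq_domRestrict_eq hBdc ℝ f0
  have hG0 : ∀ p ∈ Bd, g0 p = G p := fun p hp => by
    have := DFunLike.congr_fun hg0 ⟨p, hp⟩
    exact this
  have hG0C : ∀ p, ‖g0 p‖ ≤ ‖g0‖ := fun p => g0.norm_coe_le_norm p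
  set C0 : ℝ := ‖g0‖ with hC0
  have hC0n : 0 ≤ C0 := norm_nonneg _
  -- (2)
  let F0 : Dtop n × (S → ℝ) → (Fin j → ℝ) × (S → ℝ) := fun p => (e0 j, p.2) + g0 p
  have hF0 : Continuous F0 :=
    (continuous_const.prodMk continuous_snd).add g0.continuous
  have hF1 : ∀ p : Dtop n × (S → ℝ), C0 + 1 ≤ ‖p.2‖ → 1 ≤ ‖F0 p‖ := by
    intro p hp
    have h1 : ‖(F0 p).2‖ ≤ ‖F0 p‖ := norm_snd_le _
    have h2 : (F0 p).2 = p.2 + (g0 p).2 := rfl
    have h3 : ‖(g0 p).2‖ ≤ C0 := (norm_snd_le _).trans (hG0C p)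
    have h4 : ‖p.2‖ ≤ ‖p.2 + (g0 p).2‖ + ‖(g0 p).2‖ := by
      have := norm_sub_le (p.2 + (g0 p).2) (g0 p).2
      rwa [add_sub_cancel_right] at this
    rw [h2] at h1
    linarith
  have hFBd : ∀ p ∈ Bd, F0 p ≠ 0 := fun p hp => by
    show (e0 j, p.2) + g0 p ≠ 0
    rw [hG0 p hp]
    exact hne p hp
  have hεex : ∃ ε : ℝ, 0 < ε ∧ ε ≤ 1 ∧ ∀ p ∈ Bd, ε ≤ ‖F0 p‖ := by
    have hK0 : IsCompact (Bd ∩ (Set.univ ×ˢ Metric.closedBall (0 : S → ℝ) (C0 + 1))) :=
      (isCompact_univ.prod (isCompact_closedBall _ _)).inter_left hBdc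
    rcases (Bd ∩ (Set.univ ×ˢ Metric.closedBall (0 : S → ℝ) (C0 + 1))).eq_empty_or_nonempty with
      he | he
    · refine ⟨1, one_pos, le_rfl, fun p hp => hF1 p ?_⟩
      by_contra h
      have : p ∈ (Bd ∩ (Set.univ ×ˢ Metric.closedBall (0 : S → ℝ) (C0 + 1))) := by
        refine ⟨hp, trivial, ?_⟩
        rw [mem_closedBall_zero_iff]
        exact (not_le.1 h).le
      rw [he] at this
      exact this
    · obtain ⟨q, hq, hmin⟩ := hK0.exists_isMinOn he hF0.norm.continuousOn
      have hq0 : 0 < ‖F0 q‖ := norm_pos_iff.2 (hFBd q hq.1)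
      refine ⟨min ‖F0 q‖ 1, lt_min hq0 one_pos, min_le_right _ _, fun p hp => ?_⟩
      by_cases h : ‖p.2‖ ≤ C0 + 1
      · refine (min_le_left _ _).trans (hmin ⟨hp, trivial, ?_⟩)
        rw [mem_closedBall_zero_iff]
        exact h
      · exact (min_le_right _ _).trans (hF1 p (not_le.1 h).le)
  obtain ⟨ε, hε, hε1, hεB⟩ := hεex
  -- (3)
  have hemb := B505_emb n S
  obtain ⟨f, hf⟩ := ContinuousMap.exists_extension' hemb (⟨F0, hF0⟩ : C(_, (Fin j → ℝ) × (S → ℝ)))
  have hf' : ∀ p : Dtop n × (S → ℝ), f (B505_rho n p.1, p.2) = F0 p := fun p => congrFun hf p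
  set K : Set ((Fin n → ℝ) × (S → ℝ)) :=
    (fun p : Dtop n × (S → ℝ) => ((B505_rho n p.1, p.2) : (Fin n → ℝ) × (S → ℝ))) ''
      (Set.univ ×ˢ Metric.closedBall (0 : S → ℝ) (C0 + 2)) with hK
  have hKc : IsCompact K :=
    (isCompact_univ.prod (isCompact_closedBall _ _)).image hemb.continuous
  have hdim : Module.finrank ℝ ((Fin n → ℝ) × (S → ℝ)) <
      Module.finrank ℝ ((Fin j → ℝ) × (S → ℝ)) := by
    simp only [Module.finrank_prod, Module.finrank_fintype_fun_eq_card, Fintype.card_fin]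
    omega
  obtain ⟨g, hg, hgne, hgf, hgε⟩ :=
    general_position hdim K hKc f f.continuous.continuousOn ε hε
  have hmemK : ∀ p : Dtop n × (S → ℝ), ‖p.2‖ ≤ C0 + 2 → (B505_rho n p.1, p.2) ∈ K := by
    intro p hp
    refine ⟨p, ⟨trivial, ?_⟩, rfl⟩
    rw [mem_closedBall_zero_iff]
    exact hp
  -- (4)
  let G' : Dtop n × (S → ℝ) → (Fin j → ℝ) × (S → ℝ) := fun p =>
    if ‖p.2‖ ≤ C0 + 2 then g (B505_rho n p.1, p.2) - (e0 j, p.2) else g0 p
  have hG'1 : ∀ p : Dtop n × (S → ℝ), ‖p.2‖ ≤ C0 + 2 →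
      G' p = g (B505_rho n p.1, p.2) - (e0 j, p.2) := fun p hp => if_pos hp
  have hG'2 : ∀ p : Dtop n × (S → ℝ), ε ≤ ‖F0 p‖ → G' p = g0 p := by
    intro p hp
    by_cases h : ‖p.2‖ ≤ C0 + 2
    · rw [hG'1 p h, hgf _ (by rw [hf']; exact hp), hf']
      show (e0 j, p.2) + g0 p - (e0 j, p.2) = g0 p
      rw [add_sub_cancel_left]
    · exact if_neg h
  refine ⟨G', ?_, ⟨ε + C0, ?_⟩, ?_, ?_⟩
  · have hA : IsClosed {p : Dtop n × (S → ℝ) | ‖p.2‖ ≤ C0 + 2} :=
      isClosed_le continuous_snd.norm continuous_const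
    have hB : IsClosed {p : Dtop n × (S → ℝ) | C0 + 1 ≤ ‖p.2‖} :=
      isClosed_le continuous_const continuous_snd.norm
    have hcA : ContinuousOn G' {p : Dtop n × (S → ℝ) | ‖p.2‖ ≤ C0 + 2} := by
      have h1 : ContinuousOn (fun p : Dtop n × (S → ℝ) =>
          g (B505_rho n p.1, p.2) - (e0 j, p.2)) {p : Dtop n × (S → ℝ) | ‖p.2‖ ≤ C0 + 2} := by
        refine ContinuousOn.sub ?_ (continuous_const.prodMk continuous_snd).continuousOn
        exact hg.comp hemb.continuous.continuousOn fun p hp => hmemK p hp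
      exact h1.congr fun p hp => hG'1 p hp
    have hcB : ContinuousOn G' {p : Dtop n × (S → ℝ) | C0 + 1 ≤ ‖p.2‖} :=
      g0.continuous.continuousOn.congr fun p hp => hG'2 p (hε1.trans (hF1 p hp))
    have h := hcA.union_of_isClosed hcB hA hB
    rw [← continuousOn_univ]
    convert h using 1
    symm
    rw [Set.eq_univ_iff_forall]
    intro p
    by_cases h : ‖p.2‖ ≤ C0 + 2
    · exact Or.inl h
    · right
      show C0 + 1 ≤ ‖p.2‖
      have := not_le.1 h
      linarith
  · intro p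
    by_cases h : ‖p.2‖ ≤ C0 + 2
    · rw [hG'1 p h]
      have h1 := hgε _ (hmemK p h)
      rw [hf'] at h1
      have h2 : g (B505_rho n p.1, p.2) - (e0 j, p.2) =
          (g (B505_rho n p.1, p.2) - F0 p) + g0 p := by
        show _ = (g (B505_rho n p.1, p.2) - ((e0 j, p.2) + g0 p)) + g0 p
        abel
      rw [h2]
      exact (norm_add_le _ _).trans (add_le_add h1.le (hG0C p))
    · have h1 : G' p = g0 p := if_neg h
      rw [h1]
      have := hG0C p
      linarith
  · intro p
    by_cases h : ‖p.2‖ ≤ C0 + 2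
    · rw [hG'1 p h, add_sub_cancel]
      exact hgne _ (hmemK p h)
    · have h1 : G' p = g0 p := if_neg h
      rw [h1]
      have h2 : 1 ≤ ‖F0 p‖ := hF1 p (by have := not_le.1 h; linarith)
      intro h3
      have h4 : F0 p = 0 := h3
      rw [h4, norm_zero] at h2
      linarith
  · intro p hp
    rw [hG'2 p (hεB p hp)]
    exact hG0 p hp

end MM

end

/-! ### from `Lib_MP_33f7bb_d.B506` -/

section

/-!
# B5-06 (W2): for `n < j` every simplicial map `∂Δ^n → WWT j T` extends to `Δ^n`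

Take `G, S, C` from `ww_glue` for `A = bd n`; `geo_bd`.  For `y : S → ℝ` let `y^ : ℕ → ℝ` be the extension by zero.  Put
`G1 (t, y) := ((G (t, y^)).1, fun i => (G (t, y^)).2 i)`: continuous on `∂ × ℝ^S`, bounded (`‖·‖ ≤ max C 0` for the sup norm),
`(e0, y) + G1 ≠ 0` (otherwise `e0 + G.1 = 0` and `y^ + (G (t, y^)).2 = 0`: on `S` by assumption, off `S` both are zero).
`ext_nonzero` gives `G1'`.  Put `G' (t, x) := ((G1' (t, x|S)).1, (G1' (t, x|S)).2^)`.  It is `IsWW j T`: continuous; finite set `S`;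
bounded; nonzero: if `e0 + G'.1 = 0` and `x + G'.2 = 0` then restricting to `S` gives a zero of `(e0, y) + G1'` at `y = x|S`.  It
agrees with `G` on `geo (bd n)` (`G (t, x) = G (t, (x|S)^)` and `G.2` is supported in `S`).  Conclude by `ww_ext_of_glue`.
-/

namespace MM

/-- extension by zero -/
private noncomputable def B506_ext (S : Finset ℕ) (y : S → ℝ) : ℕ → ℝ :=
  fun i => if h : i ∈ S then y ⟨i, h⟩ else 0

private theorem B506_ext_mem (S : Finset ℕ) (y : S → ℝ) {i : ℕ} (h : i ∈ S) :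
    B506_ext S y i = y ⟨i, h⟩ := dif_pos h

private theorem B506_ext_notMem (S : Finset ℕ) (y : S → ℝ) {i : ℕ} (h : i ∉ S) :
    B506_ext S y i = 0 := dif_neg h

private theorem B506_ext_cont (S : Finset ℕ) : Continuous (B506_ext S) := by
  refine continuous_pi fun i => ?_
  by_cases h : i ∈ S
  · have h1 : (fun y : S → ℝ => B506_ext S y i) = fun y => y ⟨i, h⟩ :=
      funext fun y => B506_ext_mem S y h
    rw [h1]
    exact continuous_apply _
  · have h1 : (fun y : S → ℝ => B506_ext S y i) = fun _ => 0 :=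
      funext fun y => B506_ext_notMem S y h
    rw [h1]
    exact continuous_const

/-- restriction -/
private def B506_res (S : Finset ℕ) (x : ℕ → ℝ) : S → ℝ := fun i => x i

private theorem B506_res_cont (S : Finset ℕ) : Continuous (B506_res S) :=
  continuous_pi fun i => continuous_apply (i : ℕ)

/-- the points of the boundary have a zero coordinate -/
private theorem B506_geo (n : ℕ) :
    geo (bd n) = {t : Dtop n | ∃ i, (t : Fin (n + 1) → ℝ) i = 0} := by
  ext t
  constructor
  · rintro ⟨m, α, s, hα, rfl⟩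
    obtain ⟨i, hi⟩ := not_forall.1 (show ¬ Function.Surjective α from hα)
    refine ⟨i, ?_⟩
    rw [tmap_apply_b]
    apply Finset.sum_eq_zero
    intro l _
    rw [if_neg]
    exact fun h => hi ⟨l, h⟩
  · rintro ⟨i, hi⟩
    obtain ⟨k, ι, u, hι, hu, hne⟩ := exists_support t
    refine ⟨k, ι, u, ?_, hu⟩
    show ¬ Function.Surjective ι
    intro hs
    obtain ⟨l, rfl⟩ := hs i
    rw [← hu, tmap_apply_b, Finset.sum_eq_single l, if_pos rfl] at hi
    · exact hne l hi
    · intro l' _ hl'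
      rw [if_neg]
      exact fun h => hl' (hι h)
    · intro h
      exact absurd (Finset.mem_univ _) h

theorem ww_ext_bd (j : ℕ) (T : Set ℕ) (n : ℕ) (hn : n < j) :
    ExtP (WWT j T).ss (bd n) ⊤ := by
  intro f hf
  obtain ⟨G, S, C, hST, hcont, hG, hdep, hsupp, hbd, hne⟩ := ww_glue (bd n) f hf
  rw [B506_geo n] at hcont hdep hsupp hbd hne
  set G1 : Dtop n × (S → ℝ) → (Fin j → ℝ) × (S → ℝ) := fun p =>
    ((G (p.1, B506_ext S p.2)).1, B506_res S (G (p.1, B506_ext S p.2)).2) with hG1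
  have hcontG1 : ContinuousOn G1 {p | ∃ i, (p.1 : Fin (n + 1) → ℝ) i = 0} := by
    have h1 : Continuous fun p : Dtop n × (S → ℝ) => (p.1, B506_ext S p.2) :=
      continuous_fst.prodMk ((B506_ext_cont S).comp continuous_snd)
    have h2 : ContinuousOn (fun p : Dtop n × (S → ℝ) => G (p.1, B506_ext S p.2))
        {p | ∃ i, (p.1 : Fin (n + 1) → ℝ) i = 0} :=
      hcont.comp h1.continuousOn fun p hp => hp
    have h3 : Continuous fun q : (Fin j → ℝ) × (ℕ → ℝ) => (q.1, B506_res S q.2) :=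
      continuous_fst.prodMk ((B506_res_cont S).comp continuous_snd)
    exact h3.comp_continuousOn h2
  have hC0 : 0 ≤ max C 0 := le_max_right _ _
  have hbG1 : ∀ p : Dtop n × (S → ℝ), (∃ i, (p.1 : Fin (n + 1) → ℝ) i = 0) →
      ‖G1 p‖ ≤ max C 0 := by
    intro p hp
    have h1 := hbd p.1 hp (B506_ext S p.2)
    rw [norm_prod_le_iff]
    constructor
    · rw [pi_norm_le_iff_of_nonneg hC0]
      intro i
      exact (h1.1 i).trans (le_max_left _ _)
    · rw [pi_norm_le_iff_of_nonneg hC0]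
      intro i
      exact (h1.2 i).trans (le_max_left _ _)
  have hnG1 : ∀ p : Dtop n × (S → ℝ), (∃ i, (p.1 : Fin (n + 1) → ℝ) i = 0) →
      (e0 j, p.2) + G1 p ≠ 0 := by
    intro p hp h0
    have h1 : e0 j + (G (p.1, B506_ext S p.2)).1 = 0 := congrArg Prod.fst h0
    have h2 : p.2 + B506_res S (G (p.1, B506_ext S p.2)).2 = 0 := congrArg Prod.snd h0
    apply hne p.1 hp (B506_ext S p.2)
    refine ⟨h1, ?_⟩
    funext i
    show B506_ext S p.2 i + (G (p.1, B506_ext S p.2)).2 i = 0
    by_cases hi : i ∈ S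
    · rw [B506_ext_mem S _ hi]
      exact congrFun h2 ⟨i, hi⟩
    · rw [B506_ext_notMem S _ hi, hsupp p.1 hp _ i hi, add_zero]
  obtain ⟨G2, hcont2, ⟨C', hC'⟩, hne2, hag⟩ :=
    ext_nonzero n j hn S G1 hcontG1 (max C 0) hbG1 hnG1
  refine ww_ext_of_glue hG (fun p => ((G2 (p.1, B506_res S p.2)).1,
    B506_ext S (G2 (p.1, B506_res S p.2)).2)) ?_ ?_
  · refine ⟨?_, ⟨S, hST, ?_, ?_⟩, ⟨C', ?_⟩, ?_⟩
    · have h1 : Continuous fun p : Dtop n × (ℕ → ℝ) => (p.1, B506_res S p.2) :=
        continuous_fst.prodMk ((B506_res_cont S).comp continuous_snd)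
      have h2 := hcont2.comp h1
      exact (continuous_fst.comp h2).prodMk ((B506_ext_cont S).comp (continuous_snd.comp h2))
    · intro t x y hxy
      have h1 : B506_res S x = B506_res S y := funext fun i => hxy i.1 i.2
      show ((G2 (t, B506_res S x)).1, B506_ext S (G2 (t, B506_res S x)).2) =
        ((G2 (t, B506_res S y)).1, B506_ext S (G2 (t, B506_res S y)).2)
      rw [h1]
    · intro t x i hi
      exact B506_ext_notMem S _ hi
    · intro t x
      have h0 := hC' (t, B506_res S x)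
      have h1 := norm_prod_le_iff.1 h0
      have hC0' : 0 ≤ C' := (norm_nonneg _).trans h0
      constructor
      · intro i
        exact (norm_le_pi_norm _ i).trans h1.1
      · intro i
        show |B506_ext S (G2 (t, B506_res S x)).2 i| ≤ C'
        by_cases hi : i ∈ S
        · rw [B506_ext_mem S _ hi]
          exact (norm_le_pi_norm (G2 (t, B506_res S x)).2 ⟨i, hi⟩).trans h1.2
        · rw [B506_ext_notMem S _ hi, abs_zero]
          exact hC0'
    · rintro t x ⟨h1, h2⟩
      apply hne2 (t, B506_res S x)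
      refine Prod.ext h1 ?_
      funext i
      have h3 := congrFun h2 i.1
      have h4 : x i.1 + B506_ext S (G2 (t, B506_res S x)).2 i.1 = 0 := h3
      rw [B506_ext_mem S _ i.2] at h4
      exact h4
  · intro t ht x
    rw [B506_geo n] at ht
    have h1 : G (t, B506_ext S (B506_res S x)) = G (t, x) :=
      hdep t ht _ _ fun i hi => B506_ext_mem S _ hi
    have h2 : G2 (t, B506_res S x) = ((G (t, x)).1, B506_res S (G (t, x)).2) := by
      rw [hag (t, B506_res S x) ht, hG1]
      show ((G (t, B506_ext S (B506_res S x))).1,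
        B506_res S (G (t, B506_ext S (B506_res S x))).2) = _
      rw [h1]
    show ((G2 (t, B506_res S x)).1, B506_ext S (G2 (t, B506_res S x)).2) = G (t, x)
    rw [h2]
    refine Prod.ext rfl ?_
    funext i
    show B506_ext S (B506_res S (G (t, x)).2) i = (G (t, x)).2 i
    by_cases hi : i ∈ S
    · rw [B506_ext_mem S _ hi]
      rfl
    · rw [B506_ext_notMem S _ hi, hsupp t ht x i hi]

end MM

end

/-! ### from `Lib_MP_33f7bb_d.B512` -/

section

/-!
# B5-12 (W5): theorem B
-/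

namespace MM

open Classical

variable {Y : SS} [∀ n, TopologicalSpace (Y.S n)]

/-- `theta : TTb D → WW` -/
noncomputable def theta {j : ℕ} (hj : 1 ≤ j) {T D : Set ℕ} (hTD : Disjoint T D) :
    Hom (TTb D (WWb j hj T)) (WW j) where
  app m F := ⟨thF F.1, (thF_isWW hj hTD F.1 F.2).mono (Set.subset_univ _)⟩
  nat {m n} f F := by
    apply Subtype.ext
    funext p
    exact thF_act hj f F.1 F.2 p

theorem ww_lab_yac (hY : IsTarget Y) {j : ℕ} (hj : 3 ≤ j) (T : Set ℕ) :
    YAc Y (lab ℕ (Sub.pt (WWb j (by omega) T)) ⊤) 0 := by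
  obtain ⟨H, h0, h1, hc⟩ := exists_deformation (ww_kan j T) (ww_ext_bd j T 1 (by omega))
    (ww_ext_bd j T 2 (by omega)) (WWb j (by omega) T)
  refine lab_yac hY _ (Red (WWb j (by omega) T)) ?_ (fun w hw => redb_zero hw)
    (fun w hw => redb_one hw) H h0 h1 hc
  intro f
  show _ = _
  have : f = cst 0 := by
    apply OrderHom.ext; funext i
    exact Fin.ext (by omega)
  rw [this]; rfl

/-- the coordinates used up to step `i` -/
def Tset (i : ℕ) : Set ℕ := {n | (Nat.unpair n).1 ≤ i}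

/-- the fresh coordinates of step `i + 1` -/
def Dset (i : ℕ) : Set ℕ := {n | (Nat.unpair n).1 = i + 1}

theorem Dset_infinite (i : ℕ) : (Dset i).Infinite := by
  apply Set.infinite_of_injective_forall_mem (f := fun k : ℕ => Nat.pair (i + 1) k)
  · intro a b h
    exact (Nat.pair_eq_pair.1 h).2
  · intro k
    show (Nat.unpair (Nat.pair (i + 1) k)).1 = i + 1
    rw [Nat.unpair_pair]

theorem disjoint_TD (i : ℕ) : Disjoint (Tset i) (Dset i) := by
  rw [Set.disjoint_left]
  intro n h1 h2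
  have h1' : (Nat.unpair n).1 ≤ i := h1
  have h2' : (Nat.unpair n).1 = i + 1 := h2
  omega

theorem union_TD (i : ℕ) : Tset i ∪ Dset i ⊆ Tset (i + 1) := by
  rintro n (h | h)
  · exact Nat.le_succ_of_le h
  · exact le_of_eq h

theorem WWT_mono {j : ℕ} {T T' : Set ℕ} (h : T ⊆ T') : WWT j T ≤ WWT j T' :=
  fun _ _ hg => IsWW.mono h hg

/-- theorem B -/
theorem WW_good (hY : IsTarget Y) {j : ℕ} (hj : 3 ≤ j) :
    Good Y (Sub.pt (WW0 j (by omega))) ⊤ := by
  have hj1 : 1 ≤ j := by omega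
  show YAc Y (WW j) (WW0 j hj1)
  refine YAc.of_seq hY (WW0 j hj1) (fun i => WWT j (Tset i)) (fun i => WWT_mono ?_) ?_ ?_ ?_
  · intro n hn
    exact Nat.le_succ_of_le hn
  · intro i
    exact isWW_zero j hj1 (Tset i) 0
  · intro n x
    obtain ⟨S, -, h1, h2⟩ := x.2.fin
    refine ⟨S.sup (fun k => (Nat.unpair k).1), x.2.cont, ⟨S, ?_, h1, h2⟩, x.2.bdd, x.2.ne⟩
    intro k hk
    exact Finset.le_sup (f := fun k => (Nat.unpair k).1) hk
  · intro i
    refine ⟨TTb (Dset i) (WWb j hj1 (Tset i)), TTb.empty (Dset i) (WWb j hj1 (Tset i)) 0,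
      jj (Dset i) (WWb j hj1 (Tset i)), theta hj1 (disjoint_TD i), ?_, ?_, ?_, ?_, ?_⟩
    · exact TT_yac hY (Dset i) (Dset_infinite i) _ (ww_lab_yac hY hj (Tset i))
    · exact jj_base (Dset i) (WWb j hj1 (Tset i))
    · apply Subtype.ext
      funext p
      show thF (∅ : Finset ((BX (Dset i)).S 0 × (WWT j (Tset i)).ss.S 0)) p = _
      rw [thF, Finset.sum_empty]
      rfl
    · intro n x
      exact (thF_isWW hj1 (disjoint_TD i) x.1 x.2).mono (union_TD i)
    · intro n x
      apply Subtype.ext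
      funext p
      exact thF_jj hj1 x p

end MM

end

/-! ### from `Lib_MP_33f7bb_d.BTop` -/

section

/-!
# Part B: the interface theorem
-/

namespace MM

theorem wwGood : WWGood := fun Y _ hY _ hj => WW_good (Y := Y) hY hj

end MM

end

/-! ### from `Lib_MP_33f7bb_d.C5B` -/

section

/-!
# C5B: the sequence of spaces
-/

open Set

namespace MM

/-- states of the recursion -/
structure C5BSt (N : ℕ)
    (P : ∀ (X : Type) [MetricSpace X] [CompactSpace X], C(X, Sph N) → Prop) : Type 1 where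
  X : Type
  [m : MetricSpace X]
  [c : CompactSpace X]
  q : C(X, Sph N)
  hP : P X q
  l : ℕ → Task X

attribute [local instance] C5BSt.m C5BSt.c

/-- result of one step of the recursion -/
structure C5BOut {N : ℕ} {P : ∀ (X : Type) [MetricSpace X] [CompactSpace X], C(X, Sph N) → Prop}
    (s : C5BSt N P) (T : Task s.X) : Type 1 where
  X : Type
  [m : MetricSpace X]
  [c : CompactSpace X]
  p : C(X, s.X)
  hP : P X (s.q.comp p)
  hs : T.Solv p

attribute [local instance] C5BOut.m C5BOut.c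

private theorem C5B_out {N : ℕ}
    {P : ∀ (X : Type) [MetricSpace X] [CompactSpace X], C(X, Sph N) → Prop}
    (hstep : ∀ (X : Type) [MetricSpace X] [CompactSpace X] (q : C(X, Sph N)), P X q →
      ∀ T : Task X, ∃ (X' : Type) (_ : MetricSpace X') (_ : CompactSpace X') (p : C(X', X)),
        P X' (q.comp p) ∧ T.Solv p) (s : C5BSt N P) (T : Task s.X) : Nonempty (C5BOut s T) := by
  obtain ⟨X', m', c', p, h1, h2⟩ := hstep s.X s.q s.hP T
  exact ⟨⟨X', p, h1, h2⟩⟩

/-- the new list of tasks -/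
def C5BList {X X' : Type} [TopologicalSpace X] [TopologicalSpace X'] (l : ℕ → Task X)
    (l' : ℕ → Task X') (p : C(X', X)) (a : ℕ) : Task X' :=
  if a % 2 = 0 then (l (a / 2)).pull p else l' (a / 2)

private theorem C5B_even {X X' : Type} [TopologicalSpace X] [TopologicalSpace X'] (l : ℕ → Task X)
    (l' : ℕ → Task X') (p : C(X', X)) (a : ℕ) : C5BList l l' p (2 * a) = (l a).pull p := by
  unfold C5BList
  rw [if_pos (by omega), Nat.mul_div_cancel_left a (by norm_num)]

private theorem C5B_odd {X X' : Type} [TopologicalSpace X] [TopologicalSpace X'] (l : ℕ → Task X)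
    (l' : ℕ → Task X') (p : C(X', X)) (a : ℕ) : C5BList l l' p (2 * a + 1) = l' a := by
  unfold C5BList
  rw [if_neg (by omega), show (2 * a + 1) / 2 = a by omega]

private theorem C5B_seq {N : ℕ}
    (P : ∀ (X : Type) [MetricSpace X] [CompactSpace X], C(X, Sph N) → Prop)
    (hstep : ∀ (X : Type) [MetricSpace X] [CompactSpace X] (q : C(X, Sph N)), P X q →
      ∀ T : Task X, ∃ (X' : Type) (_ : MetricSpace X') (_ : CompactSpace X') (p : C(X', X)),
        P X' (q.comp p) ∧ T.Solv p)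
    (h0 : P (Sph N) (ContinuousMap.id _))
    (τ : ∀ (X : Type) [MetricSpace X] [CompactSpace X], ℕ → Task X) (num : ℕ → ℕ) :
    ∃ (X : ℕ → Type) (_ : ∀ n, MetricSpace (X n)) (_ : ∀ n, CompactSpace (X n))
      (p : ∀ n, C(X (n + 1), X n)) (q : ∀ n, C(X n, Sph N)) (l : ∀ n, ℕ → Task (X n)),
      (∀ n, q (n + 1) = (q n).comp (p n)) ∧ (∀ n, P (X n) (q n)) ∧
      (∀ m, l 0 (2 * m + 1) = τ (X 0) m) ∧ (∀ n m, l (n + 1) (2 * m) = (l n m).pull (p n)) ∧
      (∀ n m, l (n + 1) (2 * m + 1) = τ (X (n + 1)) m) ∧ ∀ n, (l n (num n)).Solv (p n) := by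
  classical
  let out : ∀ (n : ℕ) (s : C5BSt N P), C5BOut s (s.l (num n)) := fun n s =>
    Classical.choice (C5B_out hstep s (s.l (num n)))
  let nxt : ℕ → C5BSt N P → C5BSt N P := fun n s =>
    ⟨(out n s).X, s.q.comp (out n s).p, (out n s).hP,
      C5BList s.l (fun a => τ (out n s).X a) (out n s).p⟩
  have hE : ∀ (n : ℕ) (s : C5BSt N P) (m : ℕ), (nxt n s).l (2 * m) = (s.l m).pull (out n s).p :=
    fun n s m => C5B_even s.l (fun a => τ (out n s).X a) (out n s).p m
  have hO : ∀ (n : ℕ) (s : C5BSt N P) (m : ℕ), (nxt n s).l (2 * m + 1) = τ (out n s).X m :=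
    fun n s m => C5B_odd s.l (fun a => τ (out n s).X a) (out n s).p m
  let st : C5BSt N P := ⟨Sph N, ContinuousMap.id _, h0, fun a => τ (Sph N) (a / 2)⟩
  let S : ℕ → C5BSt N P := fun n => Nat.rec st (fun n s => nxt n s) n
  refine ⟨fun n => (S n).X, fun n => (S n).m, fun n => (S n).c, fun n => (out n (S n)).p,
    fun n => (S n).q, fun n => (S n).l, fun n => rfl, fun n => (S n).hP, fun m => ?_,
    fun n m => ?_, fun n m => ?_, fun n => (out n (S n)).hs⟩
  · show τ (Sph N) ((2 * m + 1) / 2) = τ (Sph N) m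
    rw [show (2 * m + 1) / 2 = m by omega]
  · exact hE n (S n) m
  · exact hO n (S n) m

/-- The sequence of spaces: every listed task of every `X i` is solved on some `X (i + d)`.

PROOF.  States: `(X, q, τ')` with `P X q` and a list `τ' : ℕ → Task X` of tasks (a structure or nested
sigma type in `Type 1`).  Start: `X₀ = Sph N`, `q = id`.  Step `n`: let `(i, m) = Nat.unpair n` (so `i ≤ n`), solve
the task number `2 ^ (n - i) * (2 * m + 1)` of the current list `τ'` on `p : X' → X` (`hstep`); the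
new list is `τ'' (2 * c) = (τ' c).pull p`, `τ'' (2 * c + 1) = τ X' c`; the first list is
`τ' (2 * c) = τ X₀ c`, `τ' (2 * c + 1) = τ X₀ c`.  So the task `m` of `X i` has number `2 m + 1`
in the list of `X i`, and its pull back to `X (i + d)` has number `2 ^ d * (2 m + 1)` in the list of
`X (i + d)` (induction on `d`: it is `(τ (X i) m).pull (bond p i d)`).  At step `n = Nat.pair i m = i + d`
it is solved on `X (n + 1)`: `((τ (X i) m).pull (bond p i d)).Solv (p n)`, that is
`(τ (X i) m).Solv (bond p i (d + 1))` (`Task.solv_pull`). -/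
theorem exists_seq {N : ℕ}
    (P : ∀ (X : Type) [MetricSpace X] [CompactSpace X], C(X, Sph N) → Prop)
    (hstep : ∀ (X : Type) [MetricSpace X] [CompactSpace X] (q : C(X, Sph N)), P X q →
      ∀ T : Task X, ∃ (X' : Type) (_ : MetricSpace X') (_ : CompactSpace X') (p : C(X', X)),
        P X' (q.comp p) ∧ T.Solv p)
    (h0 : P (Sph N) (ContinuousMap.id _))
    (τ : ∀ (X : Type) [MetricSpace X] [CompactSpace X], ℕ → Task X) :
    ∃ (X : ℕ → Type) (_ : ∀ n, MetricSpace (X n)) (_ : ∀ n, CompactSpace (X n))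
      (p : ∀ n, C(X (n + 1), X n)) (q : ∀ n, C(X n, Sph N)),
      (∀ n, q (n + 1) = (q n).comp (p n)) ∧ (∀ n, P (X n) (q n)) ∧
      ∀ i m, ∃ d, (τ (X i) m).Solv (bond p i d) := by
  obtain ⟨X, hm, hc, p, q, l, hq, hP, h1, h2, h3, h4⟩ := C5B_seq P hstep h0 τ
    (fun n => 2 ^ (n - (Nat.unpair n).1) * (2 * (Nat.unpair n).2 + 1))
  refine ⟨X, hm, hc, p, q, hq, hP, fun i m => ?_⟩
  have hodd : l i (2 * m + 1) = τ (X i) m := by
    cases i with
    | zero => exact h1 m
    | succ i => exact h3 i m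
  have hind : ∀ d, l (i + d) (2 ^ d * (2 * m + 1)) = (τ (X i) m).pull (bond p i d) := by
    intro d
    induction d with
    | zero =>
      rw [pow_zero, one_mul]
      exact hodd
    | succ d ih =>
      have e : 2 ^ (d + 1) * (2 * m + 1) = 2 * (2 ^ d * (2 * m + 1)) := by
        rw [pow_succ]; ring
      rw [e]
      refine (h2 (i + d) (2 ^ d * (2 * m + 1))).trans ?_
      rw [ih]
      rfl
  have hn : i ≤ Nat.pair i m := Nat.left_le_pair i m
  obtain ⟨d, hd⟩ := Nat.exists_eq_add_of_le hn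
  refine ⟨d + 1, ?_⟩
  have hs := h4 (i + d)
  have hnum : 2 ^ (i + d - (Nat.unpair (i + d)).1) * (2 * (Nat.unpair (i + d)).2 + 1) =
      2 ^ d * (2 * m + 1) := by
    rw [← hd, Nat.unpair_pair, hd]
    simp only [Nat.add_sub_cancel_left]
  rw [hnum, hind d] at hs
  exact hs

end MM

end

/-! ### from `Lib_MP_33f7bb_d.C6` -/

section

/-!
# C6: the inverse limit
-/

open Set Filter Topology

namespace MM

private noncomputable def C6_sig {X : ℕ → Type} [∀ n, TopologicalSpace (X n)]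
    (p : ∀ n, C(X (n + 1), X n)) (a : ∀ n, X n) : ∀ i, C(X i, ∀ n, X n)
  | 0 => ⟨fun x => Function.update a 0 x, continuous_const.update 0 continuous_id⟩
  | i + 1 => ⟨fun x => Function.update (C6_sig p a i (p i x)) (i + 1) x,
      ((C6_sig p a i).continuous.comp (p i).continuous).update (i + 1) continuous_id⟩

section aux

variable {X : ℕ → Type} [∀ n, TopologicalSpace (X n)] (p : ∀ n, C(X (n + 1), X n))
  (a : ∀ n, X n)

private theorem C6_sig_zero (x : X 0) : C6_sig p a 0 x = Function.update a 0 x := rfl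

private theorem C6_sig_succ (i : ℕ) (x : X (i + 1)) :
    C6_sig p a (i + 1) x = Function.update (C6_sig p a i (p i x)) (i + 1) x := rfl

private theorem C6_sig_self (i : ℕ) (x : X i) : C6_sig p a i x i = x := by
  cases i with
  | zero => rw [C6_sig_zero, Function.update_self]
  | succ i => rw [C6_sig_succ, Function.update_self]

private theorem C6_sig_compat (i : ℕ) : ∀ (x : X i) (n : ℕ), n < i →
    C6_sig p a i x n = p n (C6_sig p a i x (n + 1)) := by
  induction i with
  | zero => intro x n hn; omega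
  | succ i ih =>
    intro x n hn
    rw [C6_sig_succ]
    rcases Nat.lt_succ_iff_lt_or_eq.1 hn with h | rfl
    · rw [Function.update_of_ne (by omega), Function.update_of_ne (by omega)]
      exact ih _ n h
    · rw [Function.update_of_ne (by omega), Function.update_self, C6_sig_self]

private theorem C6_sig_eq (z : ∀ n, X n) (hz : ∀ n, z n = p n (z (n + 1))) (i : ℕ) :
    ∀ n ≤ i, C6_sig p a i (z i) n = z n := by
  induction i with
  | zero =>
    intro n hn
    obtain rfl : n = 0 := by omega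
    exact C6_sig_self p a 0 _
  | succ i ih =>
    intro n hn
    rw [C6_sig_succ, ← hz i]
    rcases Nat.lt_or_eq_of_le hn with h | rfl
    · rw [Function.update_of_ne (by omega)]
      exact ih n (by omega)
    · rw [Function.update_self]

private theorem C6_sig_bond (d : ℕ) : ∀ x : X (0 + d), C6_sig p a (0 + d) x 0 = bond p 0 d x := by
  induction d with
  | zero => intro x; exact C6_sig_self p a 0 x
  | succ d ih =>
    intro x
    have h1 : C6_sig p a (0 + (d + 1)) x = Function.update (C6_sig p a (0 + d) (p (0 + d) x))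
      (0 + d + 1) x := rfl
    rw [h1, Function.update_of_ne (by omega)]
    exact ih (p (0 + d) x)

end aux

/-- Inverse limits of compact metric spaces.

PROOF.  `Pi = ∀ n, X n` (compact metrizable), `K = {z : Pi | ∀ n, z n = p n (z (n + 1))}` closed,
`π n z = z n`; metric from `TopologicalSpace.metrizableSpaceMetric`.  Let
`K_i = {z : Pi | ∀ n < i, z n = p n (z (n + 1))}`; these closed sets decrease and their intersection
is `K`.  Choose points `a n ∈ X n` and let `s_i : X i → Pi` be the continuous map with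
`(s_i x) n = p_(i,n) x` for `n ≤ i` (iterated bonding maps; `(s_i x) i = x`) and `a n` for `n > i`; so
`s_i x ∈ K_i`, and for `z ∈ K` the point `s_i (z i)` has the same coordinates `n ≤ i` as `z`.

(1) Null homotopies.  Let `h : [0,1] × K → Sph N` be a homotopy from `q ∘ π 0` to a constant `c`.  The
function with values in `E = EuclideanSpace ℝ (Fin (N + 1))` which is `h` on `[0,1] × K`,
`q (z 0)` on `{0} × Pi` and `c` on `{1} × Pi` is continuous on a closed set; Tietze gives
`H : [0,1] × Pi → E`.  `{z | ∃ u, H (u, z) = 0}` is closed and disjoint from `K`, so it is disjoint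
from some `K_i` (compactness).  Then `(u, x) ↦ H (u, s_i x) / ‖...‖` is a homotopy from
`q ∘ p_(i,0)` to `c` on `X i` (`(s_i x) 0 = p_(i,0) x`), and `X i = X (0 + i)`.  (It is convenient to
identify `bond p 0 i` with the first coordinate of `s_i`; use the cast along `0 + i = i` or define `s_i`
on `X (0 + i)`.)

(2) Approximation.  The function `ψ (z, t) = φ (z, t) - (e0, t)` on `K × Q`, `Q = closedBall 0 1`,
vanishes for `‖t‖ = 1`; Tietze extends it to `ψ' : Pi × (Fin k → ℝ) → (Fin j → ℝ) × (Fin k → ℝ)`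
vanishing for `‖t‖ ≥ 1` (prescribed on the closed set
`K × (Fin k → ℝ) ∪ Pi × {‖t‖ ≥ 1}`).  By uniform continuity of `ψ'` on `Pi × Q`
and because a neighbourhood of the diagonal of `Pi` contains all pairs with equal coordinates `n ≤ i`
for some `i`, there is `i` with `‖ψ' (s_i (z i), t) - ψ' (z, t)‖ < r` for `z ∈ K`, `t ∈ Q`.  Put
`φ' (x, t) = (e0, t) + ψ' (s_i x, t)`. -/
theorem exists_lim {X : ℕ → Type} [∀ n, MetricSpace (X n)] [∀ n, CompactSpace (X n)]
    [∀ n, Nonempty (X n)] (p : ∀ n, C(X (n + 1), X n)) :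
    ∃ (K : Type) (_ : MetricSpace K) (_ : CompactSpace K) (π : ∀ n, C(K, X n)),
      (∀ n, π n = (p n).comp (π (n + 1))) ∧
      (∀ (N : ℕ) (q : C(X 0, Sph N)), (q.comp (π 0)).Nullhomotopic →
        ∃ d, (q.comp (bond p 0 d)).Nullhomotopic) ∧
      ∀ (j k : ℕ) (φ : K × (Fin k → ℝ) → (Fin j → ℝ) × (Fin k → ℝ)), IsTask j k ∅ φ →
        ∀ r : ℝ, 0 < r → ∃ (i : ℕ) (φ' : X i × (Fin k → ℝ) → (Fin j → ℝ) × (Fin k → ℝ)),
          IsTask j k ∅ φ' ∧ ∀ z t, ‖φ' (π i z, t) - φ (z, t)‖ < r := by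
  classical
  let a : ∀ n, X n := fun n => Classical.arbitrary (X n)
  let Kset : Set (∀ n, X n) := {z | ∀ n, z n = p n (z (n + 1))}
  have hpn : ∀ n, Continuous fun z : (∀ n, X n) => p n (z (n + 1)) := fun n =>
    (p n).continuous.comp (continuous_apply (n + 1))
  have hKclosed : IsClosed Kset := by
    have : Kset = ⋂ n, {z : ∀ n, X n | z n = p n (z (n + 1))} := by
      ext z
      rw [Set.mem_iInter]
      rfl
    rw [this]
    exact isClosed_iInter fun n => isClosed_eq (continuous_apply n) (hpn n)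
  let K : Type := Kset
  have hKc : CompactSpace K := isCompact_iff_compactSpace.1 hKclosed.isCompact
  let π : ∀ n, C(K, X n) := fun n => ⟨fun z => z.1 n, (continuous_apply n).comp
    continuous_subtype_val⟩
  have hemb : IsClosedEmbedding (Subtype.val : K → ∀ n, X n) := hKclosed.isClosedEmbedding_subtypeVal
  refine ⟨K, TopologicalSpace.metrizableSpaceMetric K, hKc, π, ?_, ?_, ?_⟩
  · intro n
    ext z
    exact z.2 n
  · -- null homotopies
    rintro N q ⟨c, ⟨F⟩⟩
    let E := EuclideanSpace ℝ (Fin (N + 1))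
    have hF0 : ∀ z : K, F (0, z) = q (z.1 0) := fun z => F.apply_zero z
    have hF1 : ∀ z : K, F (1, z) = c := fun z => F.apply_one z
    -- extend `F`
    let e : unitInterval × K → unitInterval × (∀ n, X n) := Prod.map id Subtype.val
    have he : IsClosedEmbedding e := IsClosedEmbedding.id.prodMap hemb
    let F' : C(unitInterval × K, E) := ⟨fun x => (F x : E), continuous_subtype_val.comp
      F.continuous⟩
    obtain ⟨H1, hH1⟩ := ContinuousMap.exists_extension (Y := E) he F'
    have hH1' : ∀ (u : unitInterval) (z : K), H1 (u, z.1) = (F (u, z) : E) := fun u z =>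
      congrArg (fun f => f (u, z)) hH1
    let H : unitInterval × (∀ n, X n) → E := fun x =>
      H1 x + (1 - (x.1 : ℝ)) • ((q (x.2 0) : E) - H1 (0, x.2)) + (x.1 : ℝ) • ((c : E) - H1 (1, x.2))
    have hHc : Continuous H := by
      have c1 : Continuous fun x : unitInterval × (∀ n, X n) => (x.1 : ℝ) :=
        continuous_subtype_val.comp continuous_fst
      have c2 : Continuous fun x : unitInterval × (∀ n, X n) => (q (x.2 0) : E) :=
        continuous_subtype_val.comp (q.continuous.comp ((continuous_apply 0).comp continuous_snd))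
      have c3 : Continuous fun x : unitInterval × (∀ n, X n) => H1 (0, x.2) :=
        H1.continuous.comp (continuous_const.prodMk continuous_snd)
      have c4 : Continuous fun x : unitInterval × (∀ n, X n) => H1 (1, x.2) :=
        H1.continuous.comp (continuous_const.prodMk continuous_snd)
      exact (H1.continuous.add ((continuous_const.sub c1).smul (c2.sub c3))).add
        (c1.smul (continuous_const.sub c4))
    have hH0 : ∀ z : (∀ n, X n), H (0, z) = (q (z 0) : E) := by
      intro z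
      show H1 (0, z) + (1 - ((0 : unitInterval) : ℝ)) • ((q (z 0) : E) - H1 (0, z)) +
        ((0 : unitInterval) : ℝ) • ((c : E) - H1 (1, z)) = _
      simp
    have hH1e : ∀ z : (∀ n, X n), H (1, z) = (c : E) := by
      intro z
      show H1 (1, z) + (1 - ((1 : unitInterval) : ℝ)) • ((q (z 0) : E) - H1 (0, z)) +
        ((1 : unitInterval) : ℝ) • ((c : E) - H1 (1, z)) = _
      simp
    have hHK : ∀ (u : unitInterval) (z : K), H (u, z.1) = (F (u, z) : E) := by
      intro u z
      show H1 (u, z.1) + (1 - (u : ℝ)) • ((q (z.1 0) : E) - H1 (0, z.1)) +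
        (u : ℝ) • ((c : E) - H1 (1, z.1)) = _
      rw [hH1', hH1', hH1', hF0, hF1]
      simp
    -- compactness
    have hex : ∃ d, ∀ (u : unitInterval) (x : X (0 + d)), H (u, C6_sig p a (0 + d) x) ≠ 0 := by
      by_contra hcon
      push Not at hcon
      let t : ℕ → Set (unitInterval × (∀ n, X n)) := fun d =>
        {w | H w = 0} ∩ ⋂ (n : ℕ) (_ : n < 0 + d), {w | w.2 n = p n (w.2 (n + 1))}
      have htc : ∀ d, IsClosed (t d) := fun d =>
        (isClosed_eq hHc continuous_const).inter (isClosed_iInter fun n => isClosed_iInter fun _ =>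
          isClosed_eq ((continuous_apply n).comp continuous_snd) ((hpn n).comp continuous_snd))
      obtain ⟨w, hw⟩ := IsCompact.nonempty_iInter_of_sequence_nonempty_isCompact_isClosed t
        (by
          intro d w hw
          refine ⟨hw.1, ?_⟩
          have h2 := hw.2
          rw [Set.mem_iInter₂] at h2 ⊢
          exact fun n hn => h2 n (by omega))
        (by
          intro d
          obtain ⟨u, x, hx⟩ := hcon d
          refine ⟨(u, C6_sig p a (0 + d) x), hx, ?_⟩
          rw [Set.mem_iInter₂]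
          exact fun n hn => C6_sig_compat p a _ x n hn)
        (htc 0).isCompact htc
      rw [Set.mem_iInter] at hw
      have hwK : w.2 ∈ Kset := by
        intro n
        have h2 := (hw (n + 1)).2
        rw [Set.mem_iInter₂] at h2
        exact h2 n (by omega)
      have h3 : H w = 0 := (hw 0).1
      have h4 := hHK w.1 ⟨w.2, hwK⟩
      have h5 : (F (w.1, (⟨w.2, hwK⟩ : K)) : E) = 0 := h4.symm.trans h3
      have h6 := (F (w.1, (⟨w.2, hwK⟩ : K))).2
      rw [mem_sphere_zero_iff_norm, h5, norm_zero] at h6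
      exact zero_ne_one h6
    obtain ⟨d, hd⟩ := hex
    refine ⟨d, c, ⟨?_⟩⟩
    let s := C6_sig p a (0 + d)
    have hs : Continuous fun x : unitInterval × X (0 + d) => H (x.1, s x.2) :=
      hHc.comp (continuous_fst.prodMk (s.continuous.comp continuous_snd))
    refine
      { toFun := fun x => ⟨(‖H (x.1, s x.2)‖)⁻¹ • H (x.1, s x.2), ?_⟩
        continuous_toFun := ?_
        map_zero_left := ?_
        map_one_left := ?_ }
    · rw [mem_sphere_zero_iff_norm, norm_smul, norm_inv, norm_norm]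
      exact inv_mul_cancel₀ (norm_ne_zero_iff.2 (hd x.1 x.2))
    · refine Continuous.subtype_mk ?_ _
      exact (hs.norm.inv₀ fun x => norm_ne_zero_iff.2 (hd x.1 x.2)).smul hs
    · intro x
      apply Subtype.ext
      show (‖H (0, s x)‖)⁻¹ • H (0, s x) = (q (bond p 0 d x) : E)
      rw [hH0, show s x 0 = bond p 0 d x from C6_sig_bond p a d x]
      have h6 := (q (bond p 0 d x)).2
      rw [mem_sphere_zero_iff_norm] at h6
      rw [h6, inv_one, one_smul]
    · intro x
      apply Subtype.ext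
      show (‖H (1, s x)‖)⁻¹ • H (1, s x) = (c : E)
      rw [hH1e]
      have h6 := c.2
      rw [mem_sphere_zero_iff_norm] at h6
      rw [h6, inv_one, one_smul]
  · -- approximation
    intro j k φ hφ r hr
    let E := (Fin j → ℝ) × (Fin k → ℝ)
    have hφc : Continuous φ := hφ.cont
    let ψ : C(K × (Fin k → ℝ), E) := ⟨fun x => φ x - (e0 j, x.2),
      hφc.sub (continuous_const.prodMk continuous_snd)⟩
    have hψ0 : ∀ (z : K) (t : Fin k → ℝ), 1 ≤ ‖t‖ → ψ (z, t) = 0 := by
      intro z t ht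
      show φ (z, t) - (e0 j, t) = 0
      rw [hφ.triv z t ht, sub_self]
    let e : K × (Fin k → ℝ) → (∀ n, X n) × (Fin k → ℝ) := Prod.map Subtype.val id
    have he : IsClosedEmbedding e := hemb.prodMap IsClosedEmbedding.id
    obtain ⟨ψ1, hψ1⟩ := ContinuousMap.exists_extension (Y := E) he ψ
    have hψ1' : ∀ (z : K) (t : Fin k → ℝ), ψ1 (z.1, t) = ψ (z, t) := fun z t =>
      congrArg (fun f => f (z, t)) hψ1
    -- cut off
    let m : (Fin k → ℝ) → ℝ := fun t => min 1 (max 0 (2 * ‖t‖ - 1))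
    let ν : (Fin k → ℝ) → (Fin k → ℝ) := fun t => (min 1 (max (1 / 2) ‖t‖))⁻¹ • t
    have hmc : Continuous m := continuous_const.min (continuous_const.max
      ((continuous_const.mul continuous_norm).sub continuous_const))
    have hνc : Continuous ν := by
      refine ((continuous_const.min (continuous_const.max continuous_norm)).inv₀ ?_).smul
        continuous_id
      intro t
      have : 0 < min 1 (max (1 / 2) ‖t‖) := lt_min one_pos (lt_max_of_lt_left (by norm_num))
      exact this.ne'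
    have hm1 : ∀ t : Fin k → ℝ, 1 ≤ ‖t‖ → m t = 1 := by
      intro t ht
      exact min_eq_left (le_max_of_le_right (by linarith))
    have hν1 : ∀ t : Fin k → ℝ, 1 ≤ ‖t‖ → ν t = t := by
      intro t ht
      show (min 1 (max (1 / 2) ‖t‖))⁻¹ • t = t
      rw [min_eq_left (le_max_of_le_right ht), inv_one, one_smul]
    have hmν : ∀ t : Fin k → ℝ, m t ≠ 0 → 1 ≤ ‖ν t‖ := by
      intro t ht
      by_cases h1 : 1 ≤ ‖t‖
      · rw [hν1 t h1]; exact h1
      · push Not at h1
        have h2 : 1 / 2 < ‖t‖ := by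
          by_contra h3
          push Not at h3
          apply ht
          show min 1 (max 0 (2 * ‖t‖ - 1)) = 0
          rw [max_eq_left (by linarith)]
          exact min_eq_right zero_le_one
        have h4 : ν t = (‖t‖)⁻¹ • t := by
          show (min 1 (max (1 / 2) ‖t‖))⁻¹ • t = _
          rw [max_eq_right h2.le, min_eq_right h1.le]
        rw [h4, norm_smul, norm_inv, norm_norm, inv_mul_cancel₀ (by linarith)]
    let ψ' : (∀ n, X n) × (Fin k → ℝ) → E := fun x => ψ1 x - m x.2 • ψ1 (x.1, ν x.2)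
    have hψ'c : Continuous ψ' := ψ1.continuous.sub ((hmc.comp continuous_snd).smul
      (ψ1.continuous.comp (continuous_fst.prodMk (hνc.comp continuous_snd))))
    have hψ'0 : ∀ (w : ∀ n, X n) (t : Fin k → ℝ), 1 ≤ ‖t‖ → ψ' (w, t) = 0 := by
      intro w t ht
      show ψ1 (w, t) - m t • ψ1 (w, ν t) = 0
      rw [hm1 t ht, hν1 t ht, one_smul, sub_self]
    have hψ'K : ∀ (z : K) (t : Fin k → ℝ), ψ' (z.1, t) = ψ (z, t) := by
      intro z t
      show ψ1 (z.1, t) - m t • ψ1 (z.1, ν t) = _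
      rw [hψ1', hψ1']
      by_cases h1 : m t = 0
      · rw [h1, zero_smul, sub_zero]
      · rw [hψ0 z (ν t) (hmν t h1), smul_zero, sub_zero]
    -- compactness
    have hex : ∃ i, ∀ (z : K) (t : Fin k → ℝ), ‖t‖ ≤ 1 →
        ‖ψ' (C6_sig p a i (z.1 i), t) - ψ' (z.1, t)‖ < r := by
      by_contra hcon
      push Not at hcon
      let T : Set (((∀ n, X n) × (∀ n, X n)) × (Fin k → ℝ)) :=
        (Set.univ ×ˢ Kset) ×ˢ Metric.closedBall 0 1
      have hT : IsCompact T :=
        (isCompact_univ.prod hKclosed.isCompact).prod (isCompact_closedBall 0 1)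
      let D : Set (((∀ n, X n) × (∀ n, X n)) × (Fin k → ℝ)) :=
        {x | r ≤ ‖ψ' (x.1.1, x.2) - ψ' (x.1.2, x.2)‖}
      have hD : IsClosed D := isClosed_le continuous_const
        (((hψ'c.comp ((continuous_fst.comp continuous_fst).prodMk continuous_snd)).sub
          (hψ'c.comp ((continuous_snd.comp continuous_fst).prodMk continuous_snd))).norm)
      let t : ℕ → Set (((∀ n, X n) × (∀ n, X n)) × (Fin k → ℝ)) := fun i =>
        (T ∩ D) ∩ ⋂ (n : ℕ) (_ : n ≤ i), {x | x.1.1 n = x.1.2 n}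
      have htc : ∀ i, IsClosed (t i) := fun i =>
        (hT.isClosed.inter hD).inter (isClosed_iInter fun n => isClosed_iInter fun _ =>
          isClosed_eq ((continuous_apply n).comp (continuous_fst.comp continuous_fst))
            ((continuous_apply n).comp (continuous_snd.comp continuous_fst)))
      obtain ⟨w, hw⟩ := IsCompact.nonempty_iInter_of_sequence_nonempty_isCompact_isClosed t
        (by
          intro i w hw
          refine ⟨hw.1, ?_⟩
          have h2 := hw.2
          rw [Set.mem_iInter₂] at h2 ⊢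
          exact fun n hn => h2 n (by omega))
        (by
          intro i
          obtain ⟨z, u, hu, hx⟩ := hcon i
          refine ⟨((C6_sig p a i (z.1 i), z.1), u), ⟨⟨⟨trivial, z.2⟩, ?_⟩, hx⟩, ?_⟩
          · rw [mem_closedBall_zero_iff]; exact hu
          · rw [Set.mem_iInter₂]
            exact fun n hn => C6_sig_eq p a z.1 z.2 i n hn)
        (hT.of_isClosed_subset (htc 0) (fun x hx => hx.1.1)) htc
      rw [Set.mem_iInter] at hw
      have h1 : w.1.1 = w.1.2 := by
        funext n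
        have h2 := (hw n).2
        rw [Set.mem_iInter₂] at h2
        exact h2 n le_rfl
      have h3 : r ≤ ‖ψ' (w.1.1, w.2) - ψ' (w.1.2, w.2)‖ := (hw 0).1.2
      rw [h1, sub_self, norm_zero] at h3
      exact absurd h3 (not_le.2 hr)
    obtain ⟨i, hi⟩ := hex
    refine ⟨i, fun x => (e0 j, x.2) + ψ' (C6_sig p a i x.1, x.2), ⟨isClosed_empty, ?_, ?_, ?_⟩, ?_⟩
    · exact (continuous_const.prodMk continuous_snd).add (hψ'c.comp
        (((C6_sig p a i).continuous.comp continuous_fst).prodMk continuous_snd))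
    · intro x t ht
      show (e0 j, t) + ψ' (C6_sig p a i x, t) = (e0 j, t)
      rw [hψ'0 _ t ht, add_zero]
    · intro x hx
      exact hx.elim
    · intro z t
      have h1 : (e0 j, t) + ψ' (C6_sig p a i (π i z), t) - φ (z, t) =
          ψ' (C6_sig p a i (z.1 i), t) - ψ' (z.1, t) := by
        rw [hψ'K]
        show (e0 j, t) + ψ' (C6_sig p a i (z.1 i), t) - φ (z, t) =
          ψ' (C6_sig p a i (z.1 i), t) - (φ (z, t) - (e0 j, t))
        abel
      show ‖(e0 j, t) + ψ' (C6_sig p a i (π i z), t) - φ (z, t)‖ < r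
      rw [h1]
      rcases le_total 1 ‖t‖ with ht | ht
      · rw [hψ'0 _ t ht, hψ'0 _ t ht, sub_self, norm_zero]
        exact hr
      · exact hi z t ht

end MM

end

/-! ### from `Lib_MP_33f7bb_d.C7` -/

section

/-!
# C7: all tasks on the inverse limit are solved
-/

open Set Filter Topology

namespace MM

private theorem C7_norm_e0 {j : ℕ} (hj : 1 ≤ j) : 1 ≤ ‖e0 j‖ := by
  have h := norm_le_pi_norm (e0 j) ⟨0, hj⟩
  simpa [e0] using h

private theorem C7_bond {X : ℕ → Type} [∀ n, TopologicalSpace (X n)]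
    (p : ∀ n, C(X (n + 1), X n)) {K : Type} [TopologicalSpace K] (π : ∀ n, C(K, X n))
    (hπ : ∀ n, π n = (p n).comp (π (n + 1))) (i : ℕ) : ∀ d, (bond p i d).comp (π (i + d)) = π i
  | 0 => rfl
  | d + 1 => by
    have h1 : (bond p i (d + 1)).comp (π (i + (d + 1))) =
        (bond p i d).comp ((p (i + d)).comp (π (i + d + 1))) := rfl
    rw [h1, ← hπ (i + d)]
    exact C7_bond p π hπ i d

/-- PROOF.  Let `A, φ` be a task on `K` (degree `j ≥ 3`).  `‖e0 j‖ = 1`.  There is `r ∈ (0, 1/4)` with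
`4 r ≤ ‖φ (z, t)‖` for all `z ∈ A` and all `t` (compactness for `‖t‖ ≤ 1`; for `‖t‖ ≥ 1` the norm is
`≥ 1`; if `A` is empty take `r = 1/8`).  `happ` and `hlist` give `i`, `A'`, `φ'` on `X i` and `d` with
`‖φ' (π i z, t) - φ (z, t)‖ < r` (first approximate `φ` by `φ₁` on `X i` up to `r / 2`, then `φ₁` by a
listed task up to `r / 2`; note `r / 2 ≤ ‖φ'‖` everywhere implies membership in `A'`), and
`Solved (bond p i d) A' φ'`: maps `Φ` on `X (i + d) × ℝ^k × ℝ^l`.  Composing with
`π (i + d)` (and `bond p i d ∘ π (i + d) = π i`) we get a map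
`Φ` on `K × ℝ^k × ℝ^l` without zeros, `Φ (z, t, s) = (φ' (π i z, t), s)` if `π i z ∈ A'`.
The set `D = {z | ∃ t, ‖φ (z, t)‖ ≤ 2 r}` is closed (such `t` have `‖t‖ ≤ 1`) and disjoint from `A`.
Urysohn: `u : C(K, ℝ)`, `u = 0` on `D`, `u = 1` on `A`, values in `[0,1]`.  If `u z ≠ 0` then
`‖φ (z, t)‖ > 2 r` and `‖φ' (π i z, t)‖ > r` for all `t`, so `π i z ∈ A'`.  The solution is
`Φ' (z, t, s) = Φ (z, t, s) + u z • ((φ (z, t)).1 - (φ' (π i z, t)).1, (φ (z, t)).2 - (φ' (π i z, t)).2, 0)`: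
where `u z = 0` it is `Φ`; where `u z ≠ 0` it is `(φ' + u z • (φ - φ'), s)`, and
`‖φ' + u z • (φ - φ')‖ ≥ ‖φ'‖ - r > 0`.  The difference to `(e0, t, s)` is bounded. -/
theorem TB_of_seq {X : ℕ → Type} [∀ n, MetricSpace (X n)] [∀ n, CompactSpace (X n)]
    (p : ∀ n, C(X (n + 1), X n)) {K : Type} [MetricSpace K] [CompactSpace K]
    (π : ∀ n, C(K, X n)) (hπ : ∀ n, π n = (p n).comp (π (n + 1)))
    (happ : ∀ (j k : ℕ) (φ : K × (Fin k → ℝ) → (Fin j → ℝ) × (Fin k → ℝ)), IsTask j k ∅ φ →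
        ∀ r : ℝ, 0 < r → ∃ (i : ℕ) (φ' : X i × (Fin k → ℝ) → (Fin j → ℝ) × (Fin k → ℝ)),
          IsTask j k ∅ φ' ∧ ∀ z t, ‖φ' (π i z, t) - φ (z, t)‖ < r)
    (hlist : ∀ (i j k : ℕ) (φ : X i × (Fin k → ℝ) → (Fin j → ℝ) × (Fin k → ℝ)), 3 ≤ j →
      IsTask j k ∅ φ → ∀ r : ℝ, 0 < r → ∃ (A' : Set (X i))
        (φ' : X i × (Fin k → ℝ) → (Fin j → ℝ) × (Fin k → ℝ)) (d : ℕ), IsTask j k A' φ' ∧
        (∀ x t, ‖φ' (x, t) - φ (x, t)‖ < r) ∧ (∀ x, (∀ t, r ≤ ‖φ' (x, t)‖) → x ∈ A') ∧
        Solved (bond p i d) A' φ') : TB K := by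
  intro j k A φ hj ht
  have he : ∀ (z : K) (t : Fin k → ℝ), 1 ≤ ‖t‖ → 1 ≤ ‖φ (z, t)‖ := by
    intro z t h1
    rw [ht.triv z t h1]
    exact (C7_norm_e0 (by omega)).trans (norm_fst_le ((e0 j, t) : (Fin j → ℝ) × (Fin k → ℝ)))
  -- the constant `r`
  obtain ⟨m, hm0, hm⟩ : ∃ m : ℝ, 0 < m ∧
      ∀ q ∈ A ×ˢ Metric.closedBall (0 : Fin k → ℝ) 1, m ≤ ‖φ q‖ := by
    refine IsCompact.exists_forall_le' (ht.closed.isCompact.prod (isCompact_closedBall _ _))
      ht.cont.norm.continuousOn ?_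
    rintro ⟨z, t⟩ ⟨hz, -⟩
    exact norm_pos_iff.2 (ht.ne z hz t)
  obtain ⟨r, hr0, hr1, hrA⟩ : ∃ r : ℝ, 0 < r ∧ 4 * r ≤ 1 ∧ ∀ z ∈ A, ∀ t, 4 * r ≤ ‖φ (z, t)‖ := by
    refine ⟨min m 1 / 4, by positivity, ?_, ?_⟩
    · have := min_le_right m 1
      linarith
    · intro z hz t
      have h4 : 4 * (min m 1 / 4) = min m 1 := by ring
      rw [h4]
      by_cases h1 : 1 ≤ ‖t‖
      · exact (min_le_right m 1).trans (he z t h1)
      · exact (min_le_left m 1).trans (hm (z, t) ⟨hz, by
          rw [mem_closedBall_zero_iff]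
          exact (not_le.1 h1).le⟩)
  -- the approximation
  obtain ⟨i, φ₁, hφ₁, happ1⟩ := happ j k φ
    ⟨isClosed_empty, ht.cont, ht.triv, fun x hx => absurd hx (Set.notMem_empty x)⟩ (r / 2)
    (half_pos hr0)
  obtain ⟨A', φ', d, hT', happ2, hmem, l, Φ, hΦc, hΦ0, ⟨C, hC⟩, hΦA⟩ :=
    hlist i j k φ₁ hj hφ₁ (r / 2) (half_pos hr0)
  have hclose : ∀ z t, ‖φ (z, t) - φ' (π i z, t)‖ < r := by
    intro z t
    have h1 := happ1 z t
    have h2 := happ2 (π i z) t
    have h3 : φ (z, t) - φ' (π i z, t) =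
        -((φ' (π i z, t) - φ₁ (π i z, t)) + (φ₁ (π i z, t) - φ (z, t))) := by abel
    rw [h3, norm_neg]
    exact (norm_add_le _ _).trans_lt (by linarith)
  have hbond : ∀ z, bond p i d (π (i + d) z) = π i z := fun z =>
    DFunLike.congr_fun (C7_bond p π hπ i d) z
  -- the set `D`
  let D : Set K := {z | ∃ t, ‖φ (z, t)‖ ≤ 2 * r}
  have hD : IsClosed D := by
    have : CompactSpace (Metric.closedBall (0 : Fin k → ℝ) 1) :=
      isCompact_iff_compactSpace.1 (isCompact_closedBall _ _)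
    have h1 : D = Prod.fst '' {q : K × (Metric.closedBall (0 : Fin k → ℝ) 1) |
        ‖φ (q.1, q.2.1)‖ ≤ 2 * r} := by
      ext z
      constructor
      · rintro ⟨t, h2⟩
        have h3 : ‖t‖ ≤ 1 := by
          by_contra h3
          have := he z t (not_le.1 h3).le
          linarith
        exact ⟨(z, ⟨t, mem_closedBall_zero_iff.2 h3⟩), h2, rfl⟩
      · rintro ⟨⟨z', t⟩, h2, rfl⟩
        exact ⟨t.1, h2⟩
    rw [h1]
    refine isClosedMap_fst_of_compactSpace _ (isClosed_le ?_ continuous_const)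
    exact (ht.cont.comp (continuous_fst.prodMk (continuous_subtype_val.comp continuous_snd))).norm
  have hdis : Disjoint D A := by
    rw [Set.disjoint_left]
    rintro z ⟨t, h1⟩ hz
    have := hrA z hz t
    linarith
  obtain ⟨u, hu0, hu1, huI⟩ := exists_continuous_zero_one_of_isClosed hD ht.closed hdis
  have hout : ∀ z, z ∉ D → π i z ∈ A' ∧ ∀ t, r < ‖φ' (π i z, t)‖ := by
    intro z hz
    have h1 : ∀ t, r < ‖φ' (π i z, t)‖ := by
      intro t
      have h2 : 2 * r < ‖φ (z, t)‖ := by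
        by_contra h2
        exact hz ⟨t, not_lt.1 h2⟩
      have h3 := hclose z t
      have h4 := norm_sub_norm_le (φ (z, t)) (φ' (π i z, t))
      linarith
    exact ⟨hmem _ fun t => (by have := h1 t; linarith), h1⟩
  have hΦout : ∀ z, z ∉ D → ∀ t s, Φ (π (i + d) z, t, s) =
      ((φ' (π i z, t)).1, (φ' (π i z, t)).2, s) := by
    intro z hz t s
    have h1 := hΦA (π (i + d) z) t s (by rw [hbond]; exact (hout z hz).1)
    rw [h1, hbond]
  -- the solution
  refine ⟨l, fun q => Φ (π (i + d) q.1, q.2.1, q.2.2) + u q.1 •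
    (((φ (q.1, q.2.1)).1 - (φ' (π i q.1, q.2.1)).1, (φ (q.1, q.2.1)).2 - (φ' (π i q.1, q.2.1)).2,
      0) : (Fin j → ℝ) × (Fin k → ℝ) × (Fin l → ℝ)), ?_, ?_, ⟨C + r, ?_⟩, ?_⟩
  · have h1 : Continuous fun q : K × (Fin k → ℝ) × (Fin l → ℝ) =>
        Φ (π (i + d) q.1, q.2.1, q.2.2) := hΦc.comp
      (((π (i + d)).continuous.comp continuous_fst).prodMk continuous_snd)
    have h2 : Continuous fun q : K × (Fin k → ℝ) × (Fin l → ℝ) => φ (q.1, q.2.1) :=
      ht.cont.comp (continuous_fst.prodMk (continuous_fst.comp continuous_snd))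
    have h3 : Continuous fun q : K × (Fin k → ℝ) × (Fin l → ℝ) => φ' (π i q.1, q.2.1) :=
      hT'.cont.comp (((π i).continuous.comp continuous_fst).prodMk
        (continuous_fst.comp continuous_snd))
    refine h1.add ((u.continuous.comp continuous_fst).smul ?_)
    exact ((continuous_fst.comp h2).sub (continuous_fst.comp h3)).prodMk
      (((continuous_snd.comp h2).sub (continuous_snd.comp h3)).prodMk continuous_const)
  · rintro ⟨z, t, s⟩ h0
    have h0' : Φ (π (i + d) z, t, s) + u z •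
      (((φ (z, t)).1 - (φ' (π i z, t)).1, (φ (z, t)).2 - (φ' (π i z, t)).2,
        0) : (Fin j → ℝ) × (Fin k → ℝ) × (Fin l → ℝ)) = 0 := h0
    by_cases hz : u z = 0
    · rw [hz, zero_smul, add_zero] at h0'
      exact hΦ0 _ h0'
    · have hzD : z ∉ D := fun h => hz (hu0 h)
      rw [hΦout z hzD t s] at h0'
      have h1 : φ' (π i z, t) + u z • (φ (z, t) - φ' (π i z, t)) = 0 := by
        have ha := congrArg Prod.fst h0'
        have hb := congrArg (fun q => q.2.1) h0'
        exact Prod.ext ha hb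
      have h2 : ‖φ' (π i z, t)‖ ≤ ‖φ (z, t) - φ' (π i z, t)‖ := by
        have h5 := congrArg norm (eq_neg_of_add_eq_zero_left h1)
        rw [norm_neg, norm_smul, Real.norm_of_nonneg (huI z).1] at h5
        exact h5.le.trans (mul_le_of_le_one_left (norm_nonneg _) (huI z).2)
      have h3 := (hout z hzD).2 t
      have h4 := hclose z t
      linarith
  · intro z t s
    have h1 := hC (π (i + d) z) t s
    have h2 : ‖u z • (((φ (z, t)).1 - (φ' (π i z, t)).1, (φ (z, t)).2 - (φ' (π i z, t)).2,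
        0) : (Fin j → ℝ) × (Fin k → ℝ) × (Fin l → ℝ))‖ ≤ r := by
      rw [norm_smul, Real.norm_of_nonneg (huI z).1]
      refine (mul_le_of_le_one_left (norm_nonneg _) (huI z).2).trans ?_
      have h3 := hclose z t
      rw [Prod.norm_def] at h3
      have h4 := max_lt_iff.1 h3
      rw [Prod.norm_def, Prod.norm_def, norm_zero]
      exact max_le h4.1.le (max_le h4.2.le hr0.le)
    have h3 : (Φ (π (i + d) z, t, s) + u z •
      (((φ (z, t)).1 - (φ' (π i z, t)).1, (φ (z, t)).2 - (φ' (π i z, t)).2,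
        0) : (Fin j → ℝ) × (Fin k → ℝ) × (Fin l → ℝ))) - (e0 j, t, s) =
      (Φ (π (i + d) z, t, s) - (e0 j, t, s)) + u z •
      (((φ (z, t)).1 - (φ' (π i z, t)).1, (φ (z, t)).2 - (φ' (π i z, t)).2,
        0) : (Fin j → ℝ) × (Fin k → ℝ) × (Fin l → ℝ)) := add_sub_right_comm _ _ _
    show ‖(Φ (π (i + d) z, t, s) + u z •
      (((φ (z, t)).1 - (φ' (π i z, t)).1, (φ (z, t)).2 - (φ' (π i z, t)).2,
        0) : (Fin j → ℝ) × (Fin k → ℝ) × (Fin l → ℝ))) - (e0 j, t, s)‖ ≤ C + r
    rw [h3]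
    exact (norm_add_le _ _).trans (add_le_add h1 h2)
  · intro z t s hz
    have hzA : z ∈ A := hz
    have hzD : z ∉ D := fun h => Set.disjoint_left.1 hdis h hzA
    have h1 : u z = 1 := hu1 hzA
    show Φ (π (i + d) z, t, s) + u z •
      (((φ (z, t)).1 - (φ' (π i z, t)).1, (φ (z, t)).2 - (φ' (π i z, t)).2,
        0) : (Fin j → ℝ) × (Fin k → ℝ) × (Fin l → ℝ)) = ((φ (z, t)).1, (φ (z, t)).2, s)
    rw [hΦout z hzD t s, h1, one_smul]
    refine Prod.ext ?_ (Prod.ext ?_ ?_)
    · exact add_sub_cancel _ _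
    · exact add_sub_cancel _ _
    · exact add_zero s

end MM

end

/-! ### from `Lib_MP_33f7bb_d.C8` -/

section

/-!
# C8: existence of the compacta
-/

open Set Filter Topology

namespace MM

/-- PROOF.  `P X q = ¬ Null (κ.comp (Sing.map q))`.  `exists_seq` (with the lists of `exists_list`
and `one_step`), `exists_lim` (the `X n` are not empty: `null_of_isEmpty`), `TB_of_seq`, and
`q = q 0 ∘ π 0`: if it is null-homotopic then so is `q 0 ∘ bond p 0 d = q d` for some `d`
(`0 + d`; induction), contradicting `P` by `c_null_of_nullhomotopic`. -/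
theorem exists_compactum {Y : SS} [∀ n, TopologicalSpace (Y.S n)] (hY : IsTarget Y) {N : ℕ}
    (κ : Hom (Sing (Sph N)) Y) (hκ : ¬ Null κ)
    (hW : ∀ (j : ℕ) (hj : 1 ≤ j), 3 ≤ j → Good Y (Sub.pt (WW0 j hj)) (⊤ : Sub (WW j)))
    (hS : ∀ (X : Type) [MetricSpace X] [CompactSpace X] (X₁ X₂ : Set X),
      interior X₁ ∪ interior X₂ = Set.univ → Acyc (SingIn X₁ ⊔ SingIn X₂) (⊤ : Sub (Sing X))) :
    ∃ (K : Type) (_ : MetricSpace K) (_ : CompactSpace K) (q : C(K, Sph N)),
      ¬ q.Nullhomotopic ∧ TB K := by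
  choose τ hτ using exists_list
  obtain ⟨X, i1, i2, p, q, hq, hP, hsol⟩ := exists_seq (N := N)
    (fun X _ _ q => ¬ Null (κ.comp (Sing.map q)))
    (fun X _ _ q hq T => by
      obtain ⟨X', i1, i2, p, h1, h2⟩ := one_step hY κ q hq (le_trans (by norm_num) T.hj)
        (hW T.j _ T.hj) (hS X) T.isTask
      exact ⟨X', i1, i2, p, h1, h2⟩)
    (by
      have h1 : κ.comp (Sing.map (ContinuousMap.id (Sph N))) = κ := rfl
      show ¬ Null (κ.comp (Sing.map (ContinuousMap.id (Sph N))))
      rw [h1]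
      exact hκ) τ
  have hne : ∀ n, Nonempty (X n) := fun n => by
    by_contra h
    rw [not_nonempty_iff] at h
    exact hP n (null_of_isEmpty hY.nonempty _)
  obtain ⟨K, j1, j2, π, hπ, hnull, happ⟩ := exists_lim p
  refine ⟨K, j1, j2, (q 0).comp (π 0), fun h => ?_, ?_⟩
  · obtain ⟨d, hd⟩ := hnull N (q 0) h
    have hqd : ∀ d, (q 0).comp (bond p 0 d) = q (0 + d) := by
      intro d
      induction d with
      | zero => rfl
      | succ d ih =>
        show ((q 0).comp (bond p 0 d)).comp (p (0 + d)) = q (0 + d + 1)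
        rw [hq (0 + d), ih]
    rw [hqd] at hd
    exact hP _ (c_null_of_nullhomotopic κ _ hd)
  · refine TB_of_seq p π hπ happ ?_
    intro i j k φ hj hφ r hr
    obtain ⟨m, A', φ', h', hm, h1, h2⟩ := hτ (X i) j k hj φ hφ r hr
    obtain ⟨d, hd⟩ := hsol i m
    refine ⟨A', φ', d, h', h1, h2, ?_⟩
    rw [hm] at hd
    exact hd

end MM

end

/-! ### from `Lib_MP_33f7bb_d.D6` -/

section

/-!
# D6: maps from spaces of covering dimension less than `N` to `S^N` are null-homotopic
-/

open Set Filter Topology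

namespace MM

open SMD

/-- `0` is not in the open cone segment of `a` and `b` -/
private def D6_NO {E : Type} [AddCommGroup E] [Module ℝ E] (a b : E) : Prop :=
  ∀ s t : ℝ, 0 ≤ s → 0 ≤ t → 0 < s + t → s • a + t • b ≠ 0

private theorem D6_NO_of {E : Type} [AddCommGroup E] [Module ℝ E] {a b : E}
    (h : ∀ u ∈ Icc (0 : ℝ) 1, (1 - u) • a + u • b ≠ 0) : D6_NO a b := by
  intro s t hs ht hst h0
  have h1 : t / (s + t) ∈ Icc (0 : ℝ) 1 :=
    ⟨div_nonneg ht hst.le, (div_le_one hst).2 (by linarith)⟩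
  apply h _ h1
  have h2 : 1 - t / (s + t) = s / (s + t) := by
    field_simp
    ring
  rw [h2]
  have h3 : (s / (s + t)) • a + (t / (s + t)) • b = (s + t)⁻¹ • (s • a + t • b) := by
    rw [smul_add, smul_smul, smul_smul, div_eq_inv_mul, div_eq_inv_mul]
  rw [h3, h0, smul_zero]

private theorem D6_NO_scale {E : Type} [AddCommGroup E] [Module ℝ E] {a b : E} (h : D6_NO a b) {r r' : ℝ}
    (hr : 0 < r) (hr' : 0 < r') : D6_NO (r • a) (r' • b) := by
  intro s t hs ht hst
  rw [smul_smul, smul_smul]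
  apply h
  · positivity
  · positivity
  · rcases hs.lt_or_eq with h1 | h1
    · have : 0 < s * r := mul_pos h1 hr
      have : 0 ≤ t * r' := by positivity
      linarith
    · rw [← h1] at hst ⊢
      have : 0 < t := by linarith
      have : 0 < t * r' := mul_pos this hr'
      linarith

/-- Straight line homotopies avoiding the origin give homotopies of maps to the sphere.

PROOF.  Normalise: `H (u, x) = ‖w‖⁻¹ • w`, `w = (1 - u) • q x + u • q' x`. -/
theorem homotopic_of_ne {X : Type} [TopologicalSpace X] {N : ℕ} (q q' : C(X, Sph N))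
    (h : ∀ x, ∀ u ∈ Icc (0 : ℝ) 1,
      (1 - u) • (q x : EuclideanSpace ℝ (Fin (N + 1))) + u • (q' x : EuclideanSpace ℝ (Fin (N + 1))) ≠ 0) :
    q.Homotopic q' := by
  have hw : ∀ p : unitInterval × X, (1 - (p.1 : ℝ)) • (q p.2 : EuclideanSpace ℝ (Fin (N + 1))) +
      (p.1 : ℝ) • (q' p.2 : EuclideanSpace ℝ (Fin (N + 1))) ≠ 0 := fun p => h p.2 p.1 p.1.2
  have hc : Continuous fun p : unitInterval × X => (1 - (p.1 : ℝ)) •
      (q p.2 : EuclideanSpace ℝ (Fin (N + 1))) + (p.1 : ℝ) • (q' p.2 : EuclideanSpace ℝ (Fin (N + 1))) := by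
    fun_prop
  have hq : ∀ x, ‖(q x : EuclideanSpace ℝ (Fin (N + 1)))‖ = 1 := fun x =>
    mem_sphere_zero_iff_norm.1 (q x).2
  have hq' : ∀ x, ‖(q' x : EuclideanSpace ℝ (Fin (N + 1)))‖ = 1 := fun x =>
    mem_sphere_zero_iff_norm.1 (q' x).2
  refine ⟨⟨⟨fun p => ⟨‖(1 - (p.1 : ℝ)) • (q p.2 : EuclideanSpace ℝ (Fin (N + 1))) +
      (p.1 : ℝ) • (q' p.2 : EuclideanSpace ℝ (Fin (N + 1)))‖⁻¹ •
      ((1 - (p.1 : ℝ)) • (q p.2 : EuclideanSpace ℝ (Fin (N + 1))) +
      (p.1 : ℝ) • (q' p.2 : EuclideanSpace ℝ (Fin (N + 1)))), ?_⟩, ?_⟩, ?_, ?_⟩⟩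
  · rw [mem_sphere_zero_iff_norm, norm_smul, norm_inv, norm_norm]
    exact inv_mul_cancel₀ (norm_ne_zero_iff.2 (hw p))
  · exact Continuous.subtype_mk ((hc.norm.inv₀ fun p => norm_ne_zero_iff.2 (hw p)).smul hc) _
  · intro x
    apply Subtype.ext
    simp [hq x]
  · intro x
    apply Subtype.ext
    simp [hq' x]

/-- PROOF.  Let `E = EuclideanSpace ℝ (Fin (N + 1))`.  The open sets `q ⁻¹' (ball y (1/4))` (finitely many
by compactness) cover `K`; take the refinement `W k`, `k ∈ κ` (finite) with at most `n + 1 ≤ N` of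
the `W k` through each point.  If `W k` is not empty choose `y k ∈ W k`; `‖q x - q (y k)‖ < 1/2`
for `x ∈ W k`.  Partition of unity: `w k x = infDist x (W k)ᶜ` (`1` if `(W k)ᶜ = ∅`, and it is `0`
if `W k = ∅`), `θ k = w k / ∑ w`, continuous, `θ k x > 0` iff `x ∈ W k`.
`g x = ∑ k, θ k x • q (y k)`: `‖g x - q x‖ < 1`, so `(1 - u) • q x + u • g x ≠ 0`, and `g x` lies in
`span (q (y k))_(k ∈ T)`, `T = {k | x ∈ W k}`, `#T ≤ n + 1 ≤ N`: a subspace of finrank at most
`N < N + 1`.  There is `c : E` outside all the (finitely many) proper subspaces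
`span {q (y k) | k ∈ T}`, `T : Finset κ`, `#T ≤ N`
(`Subspace.biUnion_ne_univ_of_top_notMem`, or measure zero `Measure.addHaar_submodule`), `c ≠ 0`.
Then `(1 - u) • g x + u • c ≠ 0` for `u ∈ [0,1]` (`u = 0`: `g x ≠ 0`; `u > 0`: otherwise `c` is in the span).
So `q` is homotopic to `‖g‖⁻¹ • g`, which is homotopic to the constant map `‖c‖⁻¹ • c`
(`homotopic_of_ne`; positive multiples do not matter). -/
theorem nullhomotopic_of_covDim {K : Type} [MetricSpace K] [CompactSpace K] {n N : ℕ}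
    (h : CovDimLE K n) (hn : n < N) (q : C(K, Sph N)) : q.Nullhomotopic := by
  classical
  -- the finite cover by preimages of small balls
  have hcov : ∀ y : K, IsOpen (q ⁻¹' Metric.ball (q y) (1 / 4)) := fun y =>
    Metric.isOpen_ball.preimage q.continuous
  obtain ⟨t, ht⟩ := isCompact_univ.elim_finite_subcover (fun y : K => q ⁻¹' Metric.ball (q y) (1 / 4)) hcov
    (fun x _ => mem_iUnion.2 ⟨x, Metric.mem_ball_self (by norm_num)⟩)
  obtain ⟨κ, hκ, W, hWo, hWu, hWs, hWc⟩ := h {y : K // y ∈ t} (fun y => q ⁻¹' Metric.ball (q y.1) (1 / 4))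
    (fun y => hcov y.1) (by
      rw [eq_univ_iff_forall]
      intro x
      obtain ⟨y, hy, hx⟩ := mem_iUnion₂.1 (ht (mem_univ x))
      exact mem_iUnion.2 ⟨⟨y, hy⟩, hx⟩)
  have _ : Fintype κ := Fintype.ofFinite κ
  obtain ⟨f, hf⟩ := PartitionOfUnity.exists_isSubordinate (isClosed_univ (X := K)) W hWo
    hWu.ge
  -- points
  have hp : ∃ p : κ → EuclideanSpace ℝ (Fin (N + 1)), ∀ k, ∀ x ∈ W k,
      ‖p k - (q x : EuclideanSpace ℝ (Fin (N + 1)))‖ ≤ 1 / 2 := by
    refine ⟨fun k => if hk : (W k).Nonempty then (q hk.some : EuclideanSpace ℝ (Fin (N + 1))) else 0, ?_⟩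
    intro k x hx
    have hk : (W k).Nonempty := ⟨x, hx⟩
    simp only [dif_pos hk]
    obtain ⟨y, hy⟩ := hWs k
    have h1 : dist (q x) (q y.1) < 1 / 4 := hy hx
    have h2 : dist (q hk.some) (q y.1) < 1 / 4 := hy hk.some_mem
    rw [← dist_eq_norm]
    have h3 : dist (q hk.some) (q x) ≤ dist (q hk.some) (q y.1) + dist (q x) (q y.1) :=
      dist_triangle_right _ _ _
    rw [Subtype.dist_eq] at h3
    linarith
  obtain ⟨p, hp⟩ := hp
  have hfW : ∀ k x, f k x ≠ 0 → x ∈ W k := fun k x hx => hf k (subset_tsupport _ hx)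
  have hsum : ∀ x, ∑ k, f k x = 1 := by
    intro x
    rw [← finsum_eq_sum_of_fintype]
    exact f.sum_eq_one (mem_univ x)
  have hgc : Continuous fun x => ∑ k, f k x • p k :=
    continuous_finsetSum _ fun k _ => ((f k).continuous.smul continuous_const)
  set g : K → EuclideanSpace ℝ (Fin (N + 1)) := fun x => ∑ k, f k x • p k with hg
  have hgq : ∀ x, ‖g x - (q x : EuclideanSpace ℝ (Fin (N + 1)))‖ ≤ 1 / 2 := by
    intro x
    have h1 : g x - (q x : EuclideanSpace ℝ (Fin (N + 1))) =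
        ∑ k, f k x • (p k - (q x : EuclideanSpace ℝ (Fin (N + 1)))) := by
      simp only [smul_sub, Finset.sum_sub_distrib, ← Finset.sum_smul, hsum, one_smul, hg]
    rw [h1]
    calc ‖∑ k, f k x • (p k - (q x : EuclideanSpace ℝ (Fin (N + 1))))‖
        ≤ ∑ k, ‖f k x • (p k - (q x : EuclideanSpace ℝ (Fin (N + 1))))‖ := norm_sum_le _ _
      _ ≤ ∑ k, f k x * (1 / 2) := by
          refine Finset.sum_le_sum fun k _ => ?_
          rw [norm_smul, Real.norm_of_nonneg (f.nonneg k x)]
          by_cases hk : f k x = 0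
          · simp [hk]
          · exact mul_le_mul_of_nonneg_left (hp k x (hfW k x hk)) (f.nonneg k x)
      _ = 1 / 2 := by rw [← Finset.sum_mul, hsum, one_mul]
  have hq : ∀ x, ‖(q x : EuclideanSpace ℝ (Fin (N + 1)))‖ = 1 := fun x =>
    mem_sphere_zero_iff_norm.1 (q x).2
  have hqg : ∀ x, D6_NO (q x : EuclideanSpace ℝ (Fin (N + 1))) (g x) := by
    intro x
    apply D6_NO_of
    intro u hu h0
    have h1 : (q x : EuclideanSpace ℝ (Fin (N + 1))) = -(u • (g x - (q x : EuclideanSpace ℝ (Fin (N + 1))))) := by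
      rw [eq_neg_iff_add_eq_zero, ← h0, sub_smul, one_smul, smul_sub]
      abel
    have h2 : ‖(q x : EuclideanSpace ℝ (Fin (N + 1)))‖ ≤ 1 * (1 / 2) := by
      rw [h1, norm_neg, norm_smul, Real.norm_of_nonneg hu.1]
      exact mul_le_mul hu.2 (hgq x) (norm_nonneg _) (by norm_num)
    rw [hq x] at h2
    norm_num at h2
  -- a vector outside of the small subspaces
  have hc : ∃ c : EuclideanSpace ℝ (Fin (N + 1)), ∀ T : Finset κ, T.card ≤ N →
      c ∉ Submodule.span ℝ (p '' (T : Set κ)) := by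
    set s : Finset (Subspace ℝ (EuclideanSpace ℝ (Fin (N + 1)))) :=
      ((Finset.univ : Finset (Finset κ)).filter fun T : Finset κ => T.card ≤ N).image
        (fun T : Finset κ => Submodule.span ℝ (p '' (T : Set κ))) with hs
    have hs1 : (⊤ : Subspace ℝ (EuclideanSpace ℝ (Fin (N + 1)))) ∉ s := by
      intro htop
      obtain ⟨T, hT, hT1⟩ := Finset.mem_image.1 htop
      rw [Finset.mem_filter] at hT
      have h1 : Module.finrank ℝ (Submodule.span ℝ (p '' (T : Set κ))) ≤ N := by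
        have h2 : p '' (T : Set κ) = ((T.image p : Finset _) : Set (EuclideanSpace ℝ (Fin (N + 1)))) := by
          rw [Finset.coe_image]
        rw [h2]
        exact (finrank_span_finset_le_card (R := ℝ) (T.image p)).trans (Finset.card_image_le.trans hT.2)
      rw [hT1] at h1
      rw [finrank_top, finrank_euclideanSpace_fin] at h1
      omega
    have h2 := Subspace.biUnion_ne_univ_of_top_notMem hs1
    rw [Ne, eq_univ_iff_forall] at h2
    push Not at h2
    obtain ⟨c, hc⟩ := h2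
    refine ⟨c, fun T hT hcT => hc (mem_iUnion₂.2 ⟨_, ?_, hcT⟩)⟩
    rw [hs, Finset.mem_image]
    exact ⟨T, Finset.mem_filter.2 ⟨Finset.mem_univ _, hT⟩, rfl⟩
  obtain ⟨c, hc⟩ := hc
  have hc0 : c ≠ 0 := by
    rintro rfl
    exact hc ∅ (by simp) (Submodule.zero_mem _)
  have hg0 : ∀ x, g x ≠ 0 := by
    intro x h0
    apply hqg x 0 1 le_rfl zero_le_one (by norm_num)
    rw [h0, zero_smul, smul_zero, add_zero]
  have hgs : ∀ x, ∃ T : Finset κ, T.card ≤ N ∧ g x ∈ Submodule.span ℝ (p '' (T : Set κ)) := by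
    intro x
    refine ⟨Finset.univ.filter fun k => x ∈ W k, ?_, ?_⟩
    · have h1 := hWc x
      have h2 : {k | x ∈ W k} = ((Finset.univ.filter fun k => x ∈ W k : Finset κ) : Set κ) := by
        ext k
        simp
      rw [h2, Set.ncard_coe_finset] at h1
      omega
    · refine Submodule.sum_mem _ fun k _ => ?_
      by_cases hk : f k x = 0
      · rw [hk, zero_smul]
        exact Submodule.zero_mem _
      · refine Submodule.smul_mem _ _ (Submodule.subset_span ⟨k, ?_, rfl⟩)
        simpa using hfW k x hk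
  have hgcn : ∀ x, D6_NO (g x) c := by
    intro x a b ha hb hab h0
    obtain ⟨T, hT, hgT⟩ := hgs x
    rcases hb.lt_or_eq with h1 | h1
    · apply hc T hT
      have h2 : c = (-(b⁻¹ * a)) • g x := by
        have h3 : b • c = -(a • g x) := eq_neg_of_add_eq_zero_right h0
        calc c = b⁻¹ • (b • c) := by rw [smul_smul, inv_mul_cancel₀ h1.ne', one_smul]
          _ = _ := by rw [h3, smul_neg, smul_smul, neg_smul]
      rw [h2]
      exact Submodule.smul_mem _ _ hgT
    · rw [← h1] at h0 hab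
      rw [zero_smul, add_zero] at h0
      rcases smul_eq_zero.1 h0 with h2 | h2
      · rw [h2] at hab
        norm_num at hab
      · exact hg0 x h2
  -- the two homotopies
  have hn1 : ∀ v : EuclideanSpace ℝ (Fin (N + 1)), v ≠ 0 → ‖v‖⁻¹ • v ∈ Metric.sphere (0 : EuclideanSpace ℝ (Fin (N + 1))) 1 := by
    intro v hv
    rw [mem_sphere_zero_iff_norm, norm_smul, norm_inv, norm_norm]
    exact inv_mul_cancel₀ (norm_ne_zero_iff.2 hv)
  let q1 : C(K, Sph N) := ⟨fun x => ⟨‖g x‖⁻¹ • g x, hn1 _ (hg0 x)⟩,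
    Continuous.subtype_mk ((hgc.norm.inv₀ fun x => norm_ne_zero_iff.2 (hg0 x)).smul hgc) _⟩
  refine ⟨⟨‖c‖⁻¹ • c, hn1 _ hc0⟩, ?_⟩
  have h1 : q.Homotopic q1 := by
    refine homotopic_of_ne q q1 fun x u hu => ?_
    have h2 := D6_NO_scale (hqg x) one_pos (inv_pos.2 (norm_pos_iff.2 (hg0 x)))
    rw [one_smul] at h2
    exact h2 _ _ (by linarith [hu.2]) hu.1 (by linarith)
  refine h1.trans (homotopic_of_ne q1 _ fun x u hu => ?_)
  have h2 := D6_NO_scale (hgcn x) (inv_pos.2 (norm_pos_iff.2 (hg0 x))) (inv_pos.2 (norm_pos_iff.2 hc0))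
  exact h2 _ _ (by linarith [hu.2]) hu.1 (by linarith)

end MM

end

/-! ### from `Lib_MP_33f7bb_d.D8` -/

section

/-!
# D8: assembly of the negative answer to Q1 (modulo the targets, `WW_good`, small simplices)
-/

open Set Filter Topology

namespace MM

open SMD

theorem exists_infinite_dim
    (hT : ∀ N : ℕ, 1 ≤ N → ∃ (Y : SS) (_ : ∀ n, TopologicalSpace (Y.S n)) (_ : IsTarget Y)
      (κ : Hom (Sing (Sph N)) Y), ¬ Null κ)
    (hW : ∀ (Y : SS) [∀ n, TopologicalSpace (Y.S n)], IsTarget Y →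
      ∀ (j : ℕ) (hj : 1 ≤ j), 3 ≤ j → Good Y (Sub.pt (WW0 j hj)) (⊤ : Sub (WW j)))
    (hS : ∀ (X : Type) [MetricSpace X] [CompactSpace X] (X₁ X₂ : Set X),
      interior X₁ ∪ interior X₂ = Set.univ → Acyc (SingIn X₁ ⊔ SingIn X₂) (⊤ : Sub (Sing X))) :
    ∃ (X : Type) (_ : MetricSpace X) (_ : CompactSpace X), StableDimLE X 2 ∧
      ∀ n, ¬ CovDimLE X n := by
  have h1 : ∀ i : ℕ, ∃ (K : Type) (_ : MetricSpace K) (_ : CompactSpace K)
      (q : C(K, Sph (i + 1))), ¬ q.Nullhomotopic ∧ TB K := by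
    intro i
    obtain ⟨Y, i1, hY, κ, hκ⟩ := hT (i + 1) (by omega)
    exact exists_compactum hY κ hκ (fun j hj hj' => hW Y hY j hj hj') hS
  choose K i1 i2 q hq hK using h1
  obtain ⟨X, j1, j2, hX, hX'⟩ := exists_union K hK
  refine ⟨X, j1, j2, stableDimLE_of_TB hX, fun n hn => ?_⟩
  have hne : Nonempty (Sph (n + 1)) := by
    have : Nontrivial (EuclideanSpace ℝ (Fin (n + 1 + 1))) := inferInstance
    exact (NormedSpace.sphere_nonempty (x := (0 : EuclideanSpace ℝ (Fin (n + 1 + 1))))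
      (r := 1)).2 zero_le_one |>.to_subtype
  obtain ⟨q', hq'⟩ := hX' n (Sph (n + 1)) (q n) (hq n)
  exact hq' (nullhomotopic_of_covDim hn (Nat.lt_succ_self n) q')

/-- the negative answer to Q1, modulo the three hypotheses -/
theorem not_Q1_of
    (hT : ∀ N : ℕ, 1 ≤ N → ∃ (Y : SS) (_ : ∀ n, TopologicalSpace (Y.S n)) (_ : IsTarget Y)
      (κ : Hom (Sing (Sph N)) Y), ¬ Null κ)
    (hW : ∀ (Y : SS) [∀ n, TopologicalSpace (Y.S n)], IsTarget Y →
      ∀ (j : ℕ) (hj : 1 ≤ j), 3 ≤ j → Good Y (Sub.pt (WW0 j hj)) (⊤ : Sub (WW j)))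
    (hS : ∀ (X : Type) [MetricSpace X] [CompactSpace X] (X₁ X₂ : Set X),
      interior X₁ ∪ interior X₂ = Set.univ → Acyc (SingIn X₁ ⊔ SingIn X₂) (⊤ : Sub (Sing X))) :
    ¬ SMD.Q1 := by
  obtain ⟨X, i1, i2, h1, h2⟩ := exists_infinite_dim hT hW hS
  exact SMD.not_Q1 h1 h2

end MM

end

/-! ### from `Lib_MP_33f7bb_d.D9` -/

section

/-!
# D9: the parts C and D in the form of `TopIF`
-/

open Set Filter Topology

namespace MM

/-- small simplices: two sets whose interiors cover -/
def SmallSimp : Prop :=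
  ∀ (X : Type) [MetricSpace X] [CompactSpace X] (X₁ X₂ : Set X),
    interior X₁ ∪ interior X₂ = Set.univ → Acyc (SingIn X₁ ⊔ SingIn X₂) (⊤ : Sub (Sing X))

/-- part C, modulo small simplices -/
theorem existsCompactum_of (hS : SmallSimp) (hT : ExistsTarget) (hW : WWGood) :
    ExistsCompactum := by
  intro N hN
  obtain ⟨Y, τ, hY, κ, hκ⟩ := hT N hN
  obtain ⟨K, i1, i2, q, hq, hK⟩ := exists_compactum hY κ hκ
    (fun j hj hj' => hW Y τ hY j hj') (fun X _ _ => hS X)
  exact ⟨K, i1, i2, q, hq, hK⟩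

/-- part D -/
theorem finalGoal (h : ExistsCompactum) : FinalGoal := by
  have h1 : ∀ i : ℕ, ∃ (K : Type) (_ : MetricSpace K) (_ : CompactSpace K)
      (q : C(K, Sph (i + 1))), ¬ q.Nullhomotopic ∧ TB K := fun i => h (i + 1) (by omega)
  choose K i1 i2 q hq hK using h1
  obtain ⟨X, j1, j2, hX, hX'⟩ := exists_union K hK
  refine ⟨X, j1, j2, stableDimLE_of_TB hX, fun n hn => ?_⟩
  have hne : Nonempty (Sph (n + 1)) :=
    ((NormedSpace.sphere_nonempty (x := (0 : EuclideanSpace ℝ (Fin (n + 1 + 1))))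
      (r := 1)).2 zero_le_one).to_subtype
  obtain ⟨q', hq'⟩ := hX' n (Sph (n + 1)) (q n) (hq n)
  exact hq' (nullhomotopic_of_covDim hn (Nat.lt_succ_self n) q')

end MM

end

/-! ### from `Lib_MP_33f7bb_d.D10` -/

section

/-!
# D10: part C in the form of `TopIF`
-/

namespace MM

/-- part C -/
theorem existsCompactum (hT : ExistsTarget) (hW : WWGood) : ExistsCompactum :=
  existsCompactum_of (fun _ _ _ X₁ X₂ h => small_simplices X₁ X₂ h) hT hW

end MM

end
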